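import Mathlib

section
/-!
Subsets of given parity whose weight is just above a given number (helper63).
-/

namespace Pool.Agent.Work.MP_0421d9_ag.LD

/-- a subset of given parity whose weight is just above `A` -/
theorem zsel_pick {α : Type} [DecidableEq α] (P : Finset α) (g : α → ℕ) {w A par : ℕ}
    (hpar : par ≤ 1) (hg : ∀ i ∈ P, g i ≤ w) (hA : A + w ≤ ∑ i ∈ P, g i) (hA1 : 1 ≤ A) :
    ∃ Q ⊆ P, Q.card % 2 = par ∧ 1 ≤ Q.card ∧ A ≤ ∑ i ∈ Q, g i ∧ ∑ i ∈ Q, g i < A + 2 * w := by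
  classical
  set F := P.powerset.filter (fun Q => Q.card % 2 = par ∧ A ≤ ∑ i ∈ Q, g i) with hF
  have hne : F.Nonempty := by
    by_cases hP : P.card % 2 = par
    · exact ⟨P, by
        rw [hF, Finset.mem_filter, Finset.mem_powerset]
        exact ⟨Finset.Subset.refl _, hP, by omega⟩⟩
    · have hPne : P.Nonempty := by
        rw [Finset.nonempty_iff_ne_empty]
        rintro rfl
        rw [Finset.sum_empty] at hA
        omega
      obtain ⟨a, ha⟩ := hPne
      have h1 := Finset.add_sum_erase P g ha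
      have h2 := hg a ha
      have h3 := Finset.card_erase_of_mem ha
      have h4 : 1 ≤ P.card := Finset.card_pos.mpr ⟨a, ha⟩
      refine ⟨P.erase a, ?_⟩
      rw [hF, Finset.mem_filter, Finset.mem_powerset]
      exact ⟨Finset.erase_subset _ _, by omega, by omega⟩
  obtain ⟨Q, hQ, hmin⟩ := F.exists_min_image Finset.card hne
  rw [hF, Finset.mem_filter, Finset.mem_powerset] at hQ
  obtain ⟨hQP, hQc, hQA⟩ := hQ
  have hQne : Q.Nonempty := by
    rw [Finset.nonempty_iff_ne_empty]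
    rintro rfl
    rw [Finset.sum_empty] at hQA
    omega
  refine ⟨Q, hQP, hQc, Finset.card_pos.mpr hQne, hQA, ?_⟩
  obtain ⟨a, ha⟩ := hQne
  have h1 := Finset.add_sum_erase Q g ha
  have h2 := hg a (hQP ha)
  have h3 := Finset.card_erase_of_mem ha
  rcases Finset.eq_empty_or_nonempty (Q.erase a) with h4 | ⟨b, hb⟩
  · rw [h4, Finset.sum_empty] at h1
    omega
  · have h5 := Finset.add_sum_erase (Q.erase a) g hb
    have h6 := hg b (hQP (Finset.mem_of_mem_erase hb))
    have h7 := Finset.card_erase_of_mem hb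
    have h8 : 1 ≤ (Q.erase a).card := Finset.card_pos.mpr ⟨b, hb⟩
    by_contra hcon
    have h9 : (Q.erase a).erase b ∈ F := by
      rw [hF, Finset.mem_filter, Finset.mem_powerset]
      refine ⟨((Finset.erase_subset _ _).trans (Finset.erase_subset _ _)).trans hQP, by omega, by omega⟩
    have h10 := hmin _ h9
    omega

/-- an enumeration of a set of indices -/
theorem zsel_enum {r n : ℕ} (Q : Finset (Fin r)) (h : Q.card = n) :
    ∃ e : Fin n → Fin r, Function.Injective e ∧ (∀ k, e k ∈ Q) ∧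
      ∀ g : Fin r → ℕ, ∑ k, g (e k) = ∑ i ∈ Q, g i := by
  classical
  refine ⟨Q.orderEmbOfFin h, (Q.orderEmbOfFin h).injective, Q.orderEmbOfFin_mem h, fun g => ?_⟩
  conv_rhs => rw [← Finset.image_orderEmbOfFin_univ Q h]
  rw [Finset.sum_image (fun a _ b _ hab => (Q.orderEmbOfFin h).injective hab)]

end Pool.Agent.Work.MP_0421d9_ag.LD
end

section
/-!
Arithmetic for the strips of rectangles with varying multiplicities (helper63).
-/

namespace Pool.Agent.Work.MP_0421d9_ag.LD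

/-- the numerical situation: `2 t` points, all multiplicities in `[u - ω, u]`, `C` conditions -/
structure RW (T q a p L u ω t κ C : ℕ) : Prop where
  hT : 1 ≤ T
  hq : 2 ≤ q
  ha : 2 ≤ a
  hp : 40 * q + 4000 ≤ p
  hu : 100 * p ^ 2 ≤ u
  hL : 1000 * a * p * u ≤ L
  hTu : u ^ 2 ≤ T * L
  w1 : p * ω ≤ u
  w2 : u < p * ω + p
  c1 : (u + ω) * L ≤ C
  c2 : C ≤ (u + ω) * L + u * (u + 1)
  t1 : C ≤ t * (u * (u + 1))
  t2 : ∀ v, v + ω = u → t * (v * (v + 1)) ≤ C
  k1 : 100 * C ≤ 100 * ((κ + 1) * L) + L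
  k2 : 100 * ((κ + 1) * L) + L ≤ 100 * C + 100 * L

namespace RW

variable {T q a p L u ω t κ C : ℕ}

theorem p4 (h : RW T q a p L u ω t κ C) : 4080 ≤ p := by
  have := h.hp; have := h.hq; omega

theorem D1 (h : RW T q a p L u ω t κ C) : 4000 * ω ≤ u :=
  (Nat.mul_le_mul_right _ (by have := h.p4; omega)).trans h.w1

theorem D2 (h : RW T q a p L u ω t κ C) : 100 * p ≤ ω := by
  have h1 : p * (100 * p) < p * (ω + 1) := by
    have h2 := h.hu; have h3 := h.w2
    calc p * (100 * p) = 100 * p ^ 2 := by ring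
      _ ≤ u := h2
      _ < p * ω + p := h3
      _ = p * (ω + 1) := by ring
  have h4 := Nat.lt_of_mul_lt_mul_left h1
  omega

theorem D2' (h : RW T q a p L u ω t κ C) : 400000 ≤ ω := by
  have := h.D2; have := h.p4; omega

theorem u1 (h : RW T q a p L u ω t κ C) : 1600000000 ≤ u := by
  have := h.D1; have := h.D2'; omega

theorem D3 (h : RW T q a p L u ω t κ C) : L ≤ t * u := by
  have h1 : (u + 1) * L ≤ (u + 1) * (t * u) := by
    calc (u + 1) * L ≤ (u + ω) * L := Nat.mul_le_mul_right _ (by have := h.D2'; omega)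
      _ ≤ C := h.c1
      _ ≤ t * (u * (u + 1)) := h.t1
      _ = (u + 1) * (t * u) := by ring
  exact Nat.le_of_mul_le_mul_left h1 (by omega)

theorem D3' (h : RW T q a p L u ω t κ C) : 8000000 * u ≤ L := by
  refine le_trans (Nat.mul_le_mul_right _ ?_) h.hL
  have h1 := h.ha; have h2 := h.p4
  calc 8000000 ≤ 1000 * (2 * 4080) := by norm_num
    _ ≤ 1000 * (a * p) := Nat.mul_le_mul_left _ (Nat.mul_le_mul h1 h2)
    _ = 1000 * a * p := by ring

theorem D4 (h : RW T q a p L u ω t κ C) : 1000 * (t * u) ≤ 1002 * L := by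
  obtain ⟨v, hv⟩ : ∃ v, v + ω = u := ⟨u - ω, by have := h.D1; omega⟩
  have h1 := h.t2 v hv
  have h2 : 3999 * u ≤ 4000 * v := by have := h.D1; omega
  have h3 := h.u1
  have h4 : t * ((3999 * u) * (3999 * u)) ≤ 16000000 * C := by
    calc t * ((3999 * u) * (3999 * u)) ≤ t * ((4000 * v) * (4000 * v)) :=
          Nat.mul_le_mul_left _ (Nat.mul_le_mul h2 h2)
      _ = 16000000 * (t * (v * v)) := by ring
      _ ≤ 16000000 * (t * (v * (v + 1))) := by
          refine Nat.mul_le_mul_left _ (Nat.mul_le_mul_left _ (Nat.mul_le_mul_left _ (by omega)))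
      _ ≤ 16000000 * C := Nat.mul_le_mul_left _ h1
  have h5 : 4000 * ((u + ω) * L) ≤ 4001 * (u * L) := by
    calc 4000 * ((u + ω) * L) = (4000 * u + 4000 * ω) * L := by ring
      _ ≤ (4000 * u + u) * L := Nat.mul_le_mul_right _ (by have := h.D1; omega)
      _ = 4001 * (u * L) := by ring
  have h6 : 4000000 * (u * (u + 1)) ≤ u * L := by
    calc 4000000 * (u * (u + 1)) ≤ 4000000 * (u * (2 * u)) := by
          refine Nat.mul_le_mul_left _ (Nat.mul_le_mul_left _ (by omega))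
      _ = u * (8000000 * u) := by ring
      _ ≤ u * L := Nat.mul_le_mul_left _ h.D3'
  have h7 := h.c2
  have h8 : u * (1000 * (t * u)) ≤ u * (1002 * L) := by
    have e1 : t * ((3999 * u) * (3999 * u)) = 15992001 * (u * (t * u)) := by ring
    have e2 : u * (1000 * (t * u)) = 1000 * (u * (t * u)) := by ring
    have e3 : u * (1002 * L) = 1002 * (u * L) := by ring
    rw [e1] at h4
    rw [e2, e3]
    omega
  exact Nat.le_of_mul_le_mul_left h8 (by omega)

theorem D5 (h : RW T q a p L u ω t κ C) : u + ω ≤ κ + 1 := by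
  have h1 := h.c1; have h2 := h.k1; have h3 := h.D3'; have h4 := h.u1
  by_contra hcon
  have h5 : (κ + 1 + 1) * L ≤ (u + ω) * L := Nat.mul_le_mul_right _ (by omega)
  have h6 : (κ + 1 + 1) * L = (κ + 1) * L + L := by ring
  omega

theorem usq (h : RW T q a p L u ω t κ C) : 2000 * (u * u) ≤ (ω + 1) * L := by
  have h1 : p * (2000 * (u * u)) ≤ p * ((ω + 1) * L) := by
    calc p * (2000 * (u * u)) = (1000 * 2 * p * u) * u := by ring
      _ ≤ (1000 * a * p * u) * u := by
          refine Nat.mul_le_mul_right _ (Nat.mul_le_mul_right _ (Nat.mul_le_mul_right _ ?_))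
          exact Nat.mul_le_mul_left _ h.ha
      _ ≤ L * u := Nat.mul_le_mul_right _ h.hL
      _ ≤ L * (p * (ω + 1)) := Nat.mul_le_mul_left _ (by have := h.w2; rw [Nat.mul_add]; omega)
      _ = p * ((ω + 1) * L) := by ring
  exact Nat.le_of_mul_le_mul_left h1 (by have := h.p4; omega)

theorem D5' (h : RW T q a p L u ω t κ C) : 1000 * (κ + 1) ≤ 1000 * (u + ω) + ω + 991 := by
  have h1 := h.usq
  have h2 := h.k2
  have h3 := h.c2
  have h4 : u * (u + 1) ≤ 2 * (u * u) := by
    have := h.u1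
    nlinarith
  have hL1 : 1 ≤ L := by have := h.D3'; have := h.u1; omega
  have h5 : (1000 * (κ + 1)) * L ≤ (1000 * (u + ω) + ω + 991) * L := by
    have e1 : (1000 * (κ + 1)) * L = 10 * (100 * ((κ + 1) * L)) := by ring
    have e2 : (1000 * (u + ω) + ω + 991) * L = 1000 * ((u + ω) * L) + (ω + 1) * L + 990 * L := by
      ring
    rw [e1, e2]
    omega
  exact Nat.le_of_mul_le_mul_right h5 hL1

theorem κu (h : RW T q a p L u ω t κ C) : 1000 * (κ + 1) ≤ 1001 * u := by
  have := h.D5'; have := h.D1; have := h.D2'; omega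

theorem D6 (h : RW T q a p L u ω t κ C) : 1000 * a * p ≤ t := by
  have h1 : (1000 * a * p) * u ≤ t * u := h.hL.trans h.D3
  exact Nat.le_of_mul_le_mul_right h1 (by have := h.u1; omega)

theorem K_le (h : RW T q a p L u ω t κ C) {K : ℕ} (hK : 1000 * K ≤ 4002 * (t * ω)) :
    900 * K ≤ L := by
  have h1 : t * (4000 * ω) ≤ t * u := Nat.mul_le_mul_left _ h.D1
  have h2 := h.D4
  have e1 : t * (4000 * ω) = 4000 * (t * ω) := by ring
  omega

theorem wsq (h : RW T q a p L u ω t κ C) : 16000000 * (ω * ω) ≤ u * u := by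
  calc 16000000 * (ω * ω) = (4000 * ω) * (4000 * ω) := by ring
    _ ≤ u * u := Nat.mul_le_mul h.D1 h.D1

theorem c_le (h : RW T q a p L u ω t κ C) : 100000 * (6 * (3 * ω + 1) ^ 2) ≤ T * L := by
  have h1 := h.wsq
  have h2 := h.hTu
  have h3 := h.D2'
  nlinarith

theorem Lup (h : RW T q a p L u ω t κ C) {L' S : ℕ}
    (hid : (κ + 1) * L' + C = (κ + 1) * L + S) (hS : S ≤ 5 * (t * (ω * ω))) :
    1000000 * L' ≤ L := by
  have h1 : u * L' ≤ (κ + 1) * L' := Nat.mul_le_mul_right _ (by have := h.D5; have := h.D2'; omega)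
  have h2 := h.k2
  have h3 : u * L' ≤ L + S := by omega
  have h4 : 16000000 * (t * (ω * ω)) ≤ t * (u * u) := by
    calc 16000000 * (t * (ω * ω)) = t * (16000000 * (ω * ω)) := by ring
      _ ≤ t * (u * u) := Nat.mul_le_mul_left _ h.wsq
  have h5 : 1000 * (t * (u * u)) ≤ 1002 * (u * L) := by
    calc 1000 * (t * (u * u)) = u * (1000 * (t * u)) := by ring
      _ ≤ u * (1002 * L) := Nat.mul_le_mul_left _ h.D4
      _ = 1002 * (u * L) := by ring
  have h6 : 1600000000 * L ≤ u * L := Nat.mul_le_mul_right _ h.u1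
  have h7 : u * (1000000 * L') ≤ u * L := by
    have e1 : u * (1000000 * L') = 1000000 * (u * L') := by ring
    rw [e1]
    omega
  exact Nat.le_of_mul_le_mul_left h7 (by have := h.u1; omega)

theorem u_lt (h : RW T q a p L u ω t κ C) : 100 * u ≤ ω * (ω + 1) := by
  calc 100 * u ≤ 100 * (p * (ω + 1)) := Nat.mul_le_mul_left _ (by
        have := h.w2; rw [Nat.mul_add]; omega)
    _ = (100 * p) * (ω + 1) := by ring
    _ ≤ ω * (ω + 1) := Nat.mul_le_mul_right _ h.D2

/-- the product of the height and of a small width -/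
theorem ku_le (h : RW T q a p L u ω t κ C) :
    1000000 * ((κ + 1) * (a * ω)) ≤ 1001 * (t * (ω * (ω + 1))) := by
  have h1 : 1000 * (κ + 1) ≤ 1001 * (p * (ω + 1)) := by
    refine h.κu.trans (Nat.mul_le_mul_left _ ?_)
    have := h.w2; rw [Nat.mul_add]; omega
  calc 1000000 * ((κ + 1) * (a * ω)) = (1000 * (κ + 1)) * (1000 * a * ω) := by ring
    _ ≤ (1001 * (p * (ω + 1))) * (1000 * a * ω) := Nat.mul_le_mul_right _ h1
    _ = 1001 * ((1000 * a * p) * (ω * (ω + 1))) := by ring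
    _ ≤ 1001 * (t * (ω * (ω + 1))) := Nat.mul_le_mul_left _ (Nat.mul_le_mul_right _ h.D6)

theorem t1' (h : RW T q a p L u ω t κ C) : 1 ≤ t := by
  have h1 := h.D6; have h2 := h.ha; have h3 := h.p4
  have h4 : 1 ≤ 1000 * a * p := Nat.mul_pos (Nat.mul_pos (by norm_num) (by omega)) (by omega)
  omega

theorem Llow (h : RW T q a p L u ω t κ C) {L' : ℤ} {S : ℕ}
    (hid : ((κ : ℤ) + 1) * L' + C = (κ + 1) * L + S) (hS : t * (ω * (ω - 1)) ≤ S) :
    19 * (a * ω : ℤ) ≤ L' := by
  by_contra hcon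
  rw [not_le] at hcon
  obtain ⟨w, rfl⟩ : ∃ w, ω = w + 1 := ⟨ω - 1, by have := h.D2'; omega⟩
  have h1 := h.ku_le
  have h2 := h.k1
  have h3 := h.D3
  have h4 := h.u_lt
  have h5 := h.t1'
  have h6 : ((κ : ℤ) + 1) * L' < (κ + 1) * (19 * (a * ((w + 1 : ℕ) : ℤ))) :=
    mul_lt_mul_of_pos_left hcon (by positivity)
  have h7 : 100 * (t * u) ≤ t * ((w + 1) * (w + 1 + 1)) := by
    calc 100 * (t * u) = t * (100 * u) := by ring
      _ ≤ t * ((w + 1) * (w + 1 + 1)) := Nat.mul_le_mul_left _ h4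
  have h8 : 400000 ≤ w + 1 := h.D2'
  have e0 : w + 1 - 1 = w := by omega
  rw [e0] at hS
  -- all products over the integers
  have i1 : (1000000 : ℤ) * ((κ + 1) * (a * (w + 1))) ≤ 1001 * (t * ((w + 1) * (w + 1 + 1))) := by
    exact_mod_cast h1
  have i2 : (100 : ℤ) * C ≤ 100 * ((κ + 1) * L) + L := by exact_mod_cast h2
  have i3 : (L : ℤ) ≤ t * u := by exact_mod_cast h3
  have i7 : (100 : ℤ) * (t * u) ≤ t * ((w + 1) * (w + 1 + 1)) := by exact_mod_cast h7
  have iS : (t : ℤ) * ((w + 1) * w) ≤ S := by exact_mod_cast hS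
  have i5 : (1 : ℤ) ≤ t := by exact_mod_cast h5
  have i8 : (399999 : ℤ) ≤ w := by
    have : 399999 ≤ w := by omega
    exact_mod_cast this
  push_cast at h6
  have j1 : (t : ℤ) * ((w + 1) * (w + 1 + 1)) ≤ 2 * (t * ((w + 1) * w)) := by
    have : (0 : ℤ) ≤ t * (w + 1) := by positivity
    nlinarith
  have j2 : (0 : ℤ) < t * ((w + 1) * w) := by positivity
  linarith

/-- the height is large -/
theorem hq_le (h : RW T q a p L u ω t κ C) : 6 * q * (3 * ω + 1) + 2 ≤ κ := by
  have h1 : 40 * q * ω ≤ u := by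
    calc 40 * q * ω ≤ p * ω := Nat.mul_le_mul_right _ (by have := h.hp; omega)
      _ ≤ u := h.w1
  have h2 := h.D5
  have h3 := h.D2'
  have h4 : q * 1 ≤ q * ω := Nat.mul_le_mul_left _ (by omega)
  have h5 : 1 ≤ q := by have := h.hq; omega
  have e1 : 6 * q * (3 * ω + 1) = 18 * (q * ω) + 6 * (q * 1) := by ring
  have e2 : 40 * q * ω = 40 * (q * ω) := by ring
  rw [e1]
  rw [e2] at h1
  omega

/-- the window for the regular rectangle -/
theorem reg (h : RW T q a p L u ω t κ C) {K S Sq L₂ V : ℕ} (hK : 1000 * K ≤ 4002 * (t * ω))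
    (hSq : Sq + K = 2 * S) (hV : V + S = (κ + 1) * L₂) (hV1 : L ≤ 60 * V)
    (hL₂ : 1 ≤ L₂) (hL₂' : 300000 * L₂ ≤ L) :
    T * (Sq + 23 * (K + (κ + 1) + L₂)) + 6 * (3 * ω + 1) ^ 2 ≤
      T * (2 * ((κ + 1 - 1) * (L₂ - 1))) := by
  have h1 := h.K_le hK
  have h2 := h.c_le
  have h3 := h.κu
  have h4 := h.D3'
  obtain ⟨L₃, rfl⟩ : ∃ L₃, L₂ = L₃ + 1 := ⟨L₂ - 1, by omega⟩
  have e1 : κ + 1 - 1 = κ := by omega
  have e2 : L₃ + 1 - 1 = L₃ := by omega
  rw [e1, e2]
  have e3 : (κ + 1) * (L₃ + 1) = κ * L₃ + κ + L₃ + 1 := by ring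
  rw [e3] at hV
  have h5 : Sq + 23 * (K + (κ + 1) + (L₃ + 1)) + L / 100000 + 1 ≤ 2 * (κ * L₃) := by
    omega
  have h6 : T * (Sq + 23 * (K + (κ + 1) + (L₃ + 1)) + L / 100000 + 1) ≤ T * (2 * (κ * L₃)) :=
    Nat.mul_le_mul_left _ h5
  have h7 : 6 * (3 * ω + 1) ^ 2 ≤ T * (L / 100000 + 1) := by
    have h8 : L ≤ 100000 * (L / 100000 + 1) := by omega
    have h9 : T * L ≤ T * (100000 * (L / 100000 + 1)) := Nat.mul_le_mul_left _ h8
    have e4 : T * (100000 * (L / 100000 + 1)) = 100000 * (T * (L / 100000 + 1)) := by ring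
    omega
  have e5 : T * (Sq + 23 * (K + (κ + 1) + (L₃ + 1)) + L / 100000 + 1) =
      T * (Sq + 23 * (K + (κ + 1) + (L₃ + 1))) + T * (L / 100000 + 1) := by ring
  omega

/-- the window for the empty rectangle -/
theorem emp (h : RW T q a p L u ω t κ C) {K S Sq L' L₂ : ℕ} (hK : 1000 * K ≤ 4002 * (t * ω))
    (hSq : Sq + 3 * K = 2 * S + 2 * t) (hid : (κ + 1) * L' + C = (κ + 1) * L + S)
    (hL' : L' + κ * t = L + K) (hL₂ : L₂ + t = L') :
    T * (2 * ((κ - 1) * (L₂ - 1))) + 6 * (3 * ω) ^ 2 ≤ T * Sq := by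
  have h1 := h.K_le hK
  have h2 := h.c_le
  have h3 := h.k2
  have h4 := h.D3'
  have h6 : 6 * (3 * ω) ^ 2 ≤ T * (L / 100000 + 1) := by
    have h7 : 6 * (3 * ω) ^ 2 ≤ 6 * (3 * ω + 1) ^ 2 :=
      Nat.mul_le_mul_left _ (Nat.pow_le_pow_left (by omega) 2)
    have h8 : L ≤ 100000 * (L / 100000 + 1) := by omega
    have h9 : T * L ≤ T * (100000 * (L / 100000 + 1)) := Nat.mul_le_mul_left _ h8
    have e4 : T * (100000 * (L / 100000 + 1)) = 100000 * (T * (L / 100000 + 1)) := by ring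
    omega
  have h7 : (κ - 1) * (L₂ - 1) ≤ κ * L₂ := Nat.mul_le_mul (by omega) (by omega)
  have h8 : κ * L₂ + κ * t = κ * L' := by rw [← Nat.mul_add, hL₂]
  have h9 : (κ + 1) * L' = κ * L' + L' := by ring
  have h10 : 2 * (κ * L₂) + L / 100000 + 1 ≤ Sq := by
    have := h.u1
    omega
  calc T * (2 * ((κ - 1) * (L₂ - 1))) + 6 * (3 * ω) ^ 2
      ≤ T * (2 * (κ * L₂)) + T * (L / 100000 + 1) :=
        Nat.add_le_add (Nat.mul_le_mul_left _ (Nat.mul_le_mul_left _ h7)) h6
    _ = T * (2 * (κ * L₂) + L / 100000 + 1) := by ring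
    _ ≤ T * Sq := Nat.mul_le_mul_left _ h10

/-- the window for the empty rectangle, small width -/
theorem emp' (h : RW T q a p L u ω t κ C) {Sq w : ℕ} (hw : w + 2 = ω)
    (hSq : 2 * (t * (w * w)) ≤ Sq) :
    T * (2 * ((κ - 1) * (6 * a * (3 * ω + 1) + 1 - 1))) + 6 * (3 * ω) ^ 2 ≤ T * Sq := by
  have h1 := h.ku_le
  have h2 := h.D2'
  have h3 := h.t1'
  have h5 : 2 * ((κ - 1) * (6 * a * (3 * ω + 1) + 1 - 1)) + 6 * (3 * ω) ^ 2 ≤ Sq := by
    have e1 : 6 * a * (3 * ω + 1) + 1 - 1 = 18 * (a * ω) + 6 * (a * 1) := by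
      rw [Nat.add_sub_cancel]; ring
    rw [e1]
    have h6 : a * 1 ≤ a * ω := Nat.mul_le_mul_left _ (by omega)
    have h7 : (κ - 1) * (18 * (a * ω) + 6 * (a * 1)) ≤ (κ + 1) * (24 * (a * ω)) :=
      Nat.mul_le_mul (by omega) (by omega)
    have e2 : (κ + 1) * (24 * (a * ω)) = 24 * ((κ + 1) * (a * ω)) := by ring
    have h8 : 100 * (ω * (ω + 1)) ≤ 101 * (w * w) := by
      subst hw
      nlinarith
    have h9 : 100 * (t * (ω * (ω + 1))) ≤ 101 * (t * (w * w)) := by
      calc 100 * (t * (ω * (ω + 1))) = t * (100 * (ω * (ω + 1))) := by ring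
        _ ≤ t * (101 * (w * w)) := Nat.mul_le_mul_left _ h8
        _ = 101 * (t * (w * w)) := by ring
    have h10 : 6 * (3 * ω) ^ 2 ≤ 54 * (ω * (ω + 1)) := by nlinarith
    have h11 : 1000 * (w * w) ≤ t * (w * w) := by
      refine Nat.mul_le_mul_right _ (le_trans ?_ h.D6)
      have h12 := h.ha; have h13 := h.p4
      calc 1000 = 1000 * 1 * 1 := by norm_num
        _ ≤ 1000 * a * p := Nat.mul_le_mul (Nat.mul_le_mul_left _ (by omega)) (by omega)
    omega
  calc T * (2 * ((κ - 1) * (6 * a * (3 * ω + 1) + 1 - 1))) + 6 * (3 * ω) ^ 2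
      ≤ T * (2 * ((κ - 1) * (6 * a * (3 * ω + 1) + 1 - 1))) + T * (6 * (3 * ω) ^ 2) := by
        refine Nat.add_le_add_left ?_ _
        exact Nat.le_mul_of_pos_left _ h.hT
    _ = T * (2 * ((κ - 1) * (6 * a * (3 * ω + 1) + 1 - 1)) + 6 * (3 * ω) ^ 2) := by ring
    _ ≤ T * Sq := Nat.mul_le_mul_left _ h5

end RW

end Pool.Agent.Work.MP_0421d9_ag.LD
end

section
/-!
Duality for the complete intersection of a plane curve `b`, monic in `Y`, and `c ∈ ℂ[X]`, in the
ring `ℂ[X][Y]`, with control of the degrees.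
-/

namespace Pool.Agent.Work.MP_0421d9_ag.LD.CI

open Polynomial

/-- the total degree is at most `M` -/
def Dg (M : ℕ) (f : ℂ[X][X]) : Prop := ∀ i k, M < i + k → (f.coeff k).coeff i = 0

theorem Dg.mono {M N : ℕ} {f : ℂ[X][X]} (h : Dg M f) (hMN : M ≤ N) : Dg N f :=
  fun i k hik => h i k (lt_of_le_of_lt hMN hik)

theorem Dg.zero (M : ℕ) : Dg M (0 : ℂ[X][X]) := fun i k _ => by simp

theorem Dg.add {M : ℕ} {f g : ℂ[X][X]} (hf : Dg M f) (hg : Dg M g) : Dg M (f + g) :=
  fun i k hik => by rw [coeff_add, coeff_add, hf i k hik, hg i k hik, add_zero]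

theorem Dg.sub {M : ℕ} {f g : ℂ[X][X]} (hf : Dg M f) (hg : Dg M g) : Dg M (f - g) :=
  fun i k hik => by rw [coeff_sub, coeff_sub, hf i k hik, hg i k hik, sub_zero]

theorem Dg.sum {ι : Type*} {M : ℕ} (s : Finset ι) {f : ι → ℂ[X][X]} (hf : ∀ i ∈ s, Dg M (f i)) :
    Dg M (∑ i ∈ s, f i) := by
  classical
  induction s using Finset.induction_on with
  | empty => simpa using Dg.zero M
  | insert a s ha ih =>
    rw [Finset.sum_insert ha]
    exact (hf a (Finset.mem_insert_self a s)).add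
      (ih fun i hi => hf i (Finset.mem_insert_of_mem hi))

theorem Dg.mul {M N : ℕ} {f g : ℂ[X][X]} (hf : Dg M f) (hg : Dg N g) : Dg (M + N) (f * g) := by
  intro i k hik
  rw [coeff_mul, finsetSum_coeff]
  refine Finset.sum_eq_zero fun p hp => ?_
  have hp' := Finset.HasAntidiagonal.mem_antidiagonal.1 hp
  rw [coeff_mul]
  refine Finset.sum_eq_zero fun s hs => ?_
  have hs' := Finset.HasAntidiagonal.mem_antidiagonal.1 hs
  by_cases h : M < s.1 + p.1
  · rw [hf _ _ h, zero_mul]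
  · rw [hg s.2 p.2 (by omega), mul_zero]

theorem dg_C_mul_X_pow {M k : ℕ} {a : ℂ[X]} (h : a.natDegree + k ≤ M) :
    Dg M (C a * X ^ k : ℂ[X][X]) := by
  intro i k' hik
  rw [coeff_C_mul, coeff_X_pow]
  split_ifs with h1
  · rw [mul_one]
    exact coeff_eq_zero_of_natDegree_lt (by omega)
  · rw [mul_zero, coeff_zero]

theorem dg_one : Dg 0 (1 : ℂ[X][X]) := by
  have h := dg_C_mul_X_pow (M := 0) (k := 0) (a := 1) (by simp)
  simpa using h

theorem Dg.pow {M : ℕ} {f : ℂ[X][X]} (hf : Dg M f) (n : ℕ) : Dg (n * M) (f ^ n) := by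
  induction n with
  | zero => simpa using dg_one
  | succ n ih =>
    rw [pow_succ, Nat.succ_mul]
    exact ih.mul hf

/-- the bound for the degree of a coefficient -/
theorem Dg.natDegree_le {M : ℕ} {f : ℂ[X][X]} (hf : Dg M f) {k : ℕ} (h : f.coeff k ≠ 0) :
    (f.coeff k).natDegree + k ≤ M := by
  by_contra hc
  exact h (leadingCoeff_eq_zero.1 (hf (f.coeff k).natDegree k (by omega)))

/-- division by a monic polynomial of degree `β` and total degree `β` -/
theorem dg_div {b : ℂ[X][X]} {β : ℕ} (hb : b.Monic) (hβ : b.natDegree = β) (hbd : Dg β b)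
    {M : ℕ} : ∀ (n : ℕ) (f : ℂ[X][X]), f.natDegree ≤ n → Dg M f → Dg M (f %ₘ b) := by
  intro n
  induction n using Nat.strong_induction_on with
  | _ n ih =>
    intro f hn hf
    by_cases hlt : f.natDegree < b.natDegree
    · rw [(modByMonic_eq_self_iff hb).2 (degree_lt_degree hlt)]
      exact hf
    · push Not at hlt
      by_cases hf0 : f = 0
      · rw [hf0, zero_modByMonic]
        exact Dg.zero M
      have hdiv : f %ₘ b =
          (f - b * (C f.leadingCoeff * X ^ (f.natDegree - b.natDegree))) %ₘ b := by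
        rw [sub_modByMonic, self_mul_modByMonic hb, sub_zero]
      have hlc := hf.natDegree_le (k := f.natDegree) (by
        rw [coeff_natDegree]
        exact leadingCoeff_ne_zero.2 hf0)
      rw [coeff_natDegree] at hlc
      have h1 : Dg M (b * (C f.leadingCoeff * X ^ (f.natDegree - b.natDegree))) := by
        have h2 := hbd.mul (dg_C_mul_X_pow (M := M - β) (k := f.natDegree - b.natDegree)
          (a := f.leadingCoeff) (by omega))
        exact h2.mono (by omega)
      have hwf := div_wf_lemma ⟨(degree_eq_natDegree hb.ne_zero).trans_le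
        ((Nat.cast_le.2 hlt).trans (degree_eq_natDegree hf0).ge), hf0⟩ hb (p := f)
      rw [hdiv]
      have h2 := hf.sub h1
      generalize f - b * (C f.leadingCoeff * X ^ (f.natDegree - b.natDegree)) = f' at hwf h2 ⊢
      by_cases h0 : f' = 0
      · rw [h0, zero_modByMonic]
        exact Dg.zero M
      · have h4 : f'.natDegree < f.natDegree := natDegree_lt_natDegree h0 hwf
        exact ih _ (lt_of_lt_of_le h4 hn) _ le_rfl h2

/-- the monomials `X ^ i * Y ^ k` -/
noncomputable def mn (i k : ℕ) : ℂ[X][X] := C (X ^ i) * X ^ k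

theorem coeff_mul_mn (f : ℂ[X][X]) (i k a l : ℕ) :
    ((f * mn i k).coeff l).coeff a =
      if k ≤ l ∧ i ≤ a then (f.coeff (l - k)).coeff (a - i) else 0 := by
  unfold mn
  rw [← mul_assoc, coeff_mul_X_pow']
  by_cases h1 : k ≤ l
  · rw [if_pos h1, coeff_mul_C, coeff_mul_X_pow']
    by_cases h2 : i ≤ a
    · rw [if_pos h2, if_pos ⟨h1, h2⟩]
    · rw [if_neg h2, if_neg (fun h => h2 h.2)]
  · rw [if_neg h1, if_neg (fun h => h1 h.1), coeff_zero]

theorem coeff_mn (i k a l : ℕ) :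
    ((mn i k).coeff l).coeff a = if l = k ∧ a = i then 1 else 0 := by
  unfold mn
  rw [coeff_C_mul, coeff_X_pow]
  by_cases h1 : l = k
  · rw [if_pos h1, mul_one, coeff_X_pow]
    by_cases h2 : a = i
    · rw [if_pos h2, if_pos ⟨h1, h2⟩]
    · rw [if_neg h2, if_neg (fun h => h2 h.2)]
  · rw [if_neg h1, mul_zero, coeff_zero, if_neg (fun h => h1 h.1)]

/-- extensionality -/
theorem ext2 {f g : ℂ[X][X]} (h : ∀ i k, (f.coeff k).coeff i = (g.coeff k).coeff i) : f = g := by
  ext k i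
  exact h i k

/-- the residue -/
noncomputable def om (b : ℂ[X][X]) (c : ℂ[X]) : ℂ[X][X] →ₗ[ℂ] ℂ :=
  (lcoeff ℂ (c.natDegree - 1)) ∘ₗ (modByMonicHom c) ∘ₗ
    ((lcoeff ℂ[X] (b.natDegree - 1)).restrictScalars ℂ) ∘ₗ
      ((modByMonicHom b).restrictScalars ℂ)

theorem om_apply (b : ℂ[X][X]) (c : ℂ[X]) (f : ℂ[X][X]) : om b c f =
    (((f %ₘ b).coeff (b.natDegree - 1)) %ₘ c).coeff (c.natDegree - 1) := rfl

section

variable {b : ℂ[X][X]} {c : ℂ[X]} (hb : b.Monic) (hc : c.Monic)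

include hb in
theorem om_b (f : ℂ[X][X]) : om b c (b * f) = 0 := by
  rw [om_apply, self_mul_modByMonic hb, coeff_zero, zero_modByMonic, coeff_zero]

include hc in
theorem om_c (f : ℂ[X][X]) : om b c (C c * f) = 0 := by
  rw [om_apply, ← smul_eq_C_mul, smul_modByMonic, coeff_smul, smul_eq_mul,
    self_mul_modByMonic hc, coeff_zero]

/-- no reduction is necessary -/
theorem om_of_lt {f : ℂ[X][X]} (h : ∀ i k, b.natDegree ≤ k → (f.coeff k).coeff i = 0)
    (h' : ∀ i, c.natDegree ≤ i → (f.coeff (b.natDegree - 1)).coeff i = 0) :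
    om b c f = (f.coeff (b.natDegree - 1)).coeff (c.natDegree - 1) := by
  have h1 : f %ₘ b = f := by
    by_cases hb : b.Monic
    · rw [modByMonic_eq_self_iff hb, degree_eq_natDegree hb.ne_zero, degree_lt_iff_coeff_zero]
      intro k hk
      ext i
      rw [coeff_zero]
      exact h i k hk
    · exact modByMonic_eq_of_not_monic f hb
  have h2 : (f.coeff (b.natDegree - 1)) %ₘ c = f.coeff (b.natDegree - 1) := by
    by_cases hc : c.Monic
    · rw [modByMonic_eq_self_iff hc, degree_eq_natDegree hc.ne_zero, degree_lt_iff_coeff_zero]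
      exact h'
    · exact modByMonic_eq_of_not_monic _ hc
  rw [om_apply, h1, h2]

variable (hbd : Dg b.natDegree b) (hβ : 1 ≤ b.natDegree) (hγ : 1 ≤ c.natDegree)

include hb hc hbd hβ hγ in
theorem om_deg {f : ℂ[X][X]}
    (h : ∀ i k, b.natDegree + c.natDegree ≤ i + k + 2 → (f.coeff k).coeff i = 0) :
    om b c f = 0 := by
  by_cases h2 : b.natDegree + c.natDegree ≤ 2
  · have : f = 0 := ext2 fun i k => by rw [h i k (by omega)]; simp
    rw [this, map_zero]
  · have h1 : Dg (b.natDegree + c.natDegree - 3) f := fun i k hik => h i k (by omega)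
    have h3 := dg_div hb rfl hbd _ f le_rfl h1
    have h4 : (f %ₘ b).coeff (b.natDegree - 1) %ₘ c = (f %ₘ b).coeff (b.natDegree - 1) := by
      rw [modByMonic_eq_self_iff hc, degree_eq_natDegree hc.ne_zero, degree_lt_iff_coeff_zero]
      intro i hi
      exact h3 _ _ (by omega)
    rw [om_apply, h4]
    exact h3 _ _ (by omega)

/-- reduced polynomials -/
def Rdd (b : ℂ[X][X]) (c : ℂ[X]) (g : ℂ[X][X]) : Prop :=
  ∀ i k, ¬ (i < c.natDegree ∧ k < b.natDegree) → (g.coeff k).coeff i = 0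

include hb hc hbd hβ hγ in
/-- the pairing is perfect, and compatible with the degrees -/
theorem nondeg {g : ℂ[X][X]} (hg : Rdd b c g) (hg0 : g ≠ 0) : ∃ i k i' k', 
    i + i' + 1 = c.natDegree ∧ k + k' + 1 = b.natDegree ∧
      (∀ i₁ k₁, (g.coeff k₁).coeff i₁ ≠ 0 → i₁ + k₁ ≤ i + k) ∧ om b c (g * mn i' k') ≠ 0 := by
  classical
  -- the largest monomial of `g`
  let S : Finset (ℕ × ℕ) := ((Finset.range c.natDegree) ×ˢ (Finset.range b.natDegree)).filter
    fun p => (g.coeff p.2).coeff p.1 ≠ 0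
  have hS : ∀ i k, (g.coeff k).coeff i ≠ 0 → (i, k) ∈ S := by
    intro i k h
    rw [Finset.mem_filter, Finset.mem_product, Finset.mem_range, Finset.mem_range]
    refine ⟨?_, h⟩
    by_contra hcon
    exact h (hg i k hcon)
  have hSne : S.Nonempty := by
    by_contra hcon
    rw [Finset.not_nonempty_iff_eq_empty] at hcon
    apply hg0
    refine ext2 fun i k => ?_
    rw [coeff_zero, coeff_zero]
    by_contra h
    have := hS i k h
    rw [hcon] at this
    exact absurd this (Finset.notMem_empty _)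
  obtain ⟨⟨i, k⟩, hik, hmax⟩ := S.exists_max_image
    (fun p => (p.1 + p.2) * (b.natDegree + 1) + p.2) hSne
  rw [Finset.mem_filter, Finset.mem_product, Finset.mem_range, Finset.mem_range] at hik
  obtain ⟨⟨hi, hk⟩, hne⟩ := hik
  simp only at hi hk hne hmax
  have hm : ∀ i₁ k₁, (g.coeff k₁).coeff i₁ ≠ 0 → i₁ + k₁ ≤ i + k ∧
      (i₁ + k₁ = i + k → k₁ ≤ k) := by
    intro i₁ k₁ h
    have h1 := hmax _ (hS i₁ k₁ h)
    simp only at h1
    constructor
    · by_contra hcon
      push Not at hcon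
      have : (i + k + 1) * (b.natDegree + 1) ≤ (i₁ + k₁) * (b.natDegree + 1) :=
        Nat.mul_le_mul_right _ hcon
      nlinarith
    · intro h2
      rw [h2] at h1
      omega
  refine ⟨i, k, c.natDegree - 1 - i, b.natDegree - 1 - k, by omega, by omega,
    fun i₁ k₁ h => (hm i₁ k₁ h).1, ?_⟩
  set i' := c.natDegree - 1 - i with hi'
  set k' := b.natDegree - 1 - k with hk'
  -- split the product
  set P := g * mn i' k' with hP
  set P₁ : ℂ[X][X] := ∑ l ∈ Finset.range b.natDegree, C (P.coeff l) * X ^ l with hP₁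
  have hc₁ : ∀ l, P₁.coeff l = if l < b.natDegree then P.coeff l else 0 := by
    intro l
    rw [hP₁, finsetSum_coeff]
    simp only [coeff_C_mul, coeff_X_pow, mul_ite, mul_one, mul_zero]
    rw [Finset.sum_ite_eq]
    simp only [Finset.mem_range]
  have e1 : om b c (P - P₁) = 0 := by
    apply om_deg hb hc hbd hβ hγ
    intro a l hal
    rw [coeff_sub, hc₁]
    split_ifs with h1
    · rw [sub_self, coeff_zero]
    · rw [sub_zero, hP, coeff_mul_mn]
      split_ifs with h2
      · by_contra hcon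
        have h3 := hm _ _ hcon
        have h4 := h3.2 (by omega)
        omega
      · rfl
  have e2 : om b c P₁ = (g.coeff k).coeff i := by
    rw [om_of_lt]
    · rw [hc₁, if_pos (by omega), hP, coeff_mul_mn, if_pos ⟨by omega, by omega⟩]
      congr 2 <;> omega
    · intro a l hl
      rw [hc₁, if_neg (by omega), coeff_zero]
    · intro a ha
      rw [hc₁, if_pos (by omega), hP, coeff_mul_mn]
      split_ifs with h2
      · by_contra hcon
        have h3 := hm _ _ hcon
        omega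
      · rfl
  have e3 : om b c P = om b c (P - P₁) + om b c P₁ := by
    rw [← map_add, sub_add_cancel]
  rw [e3, e1, e2, zero_add]
  exact hne

include hb hc in
/-- division by `b` and `c` -/
theorem exists_nf (f : ℂ[X][X]) : ∃ u v r, f = b * u + C c * v + r ∧ Rdd b c r ∧
    ∀ M, Dg b.natDegree b → Dg M f → ∀ i k, M < i + k + c.natDegree → (v.coeff k).coeff i = 0 := by
  set s := f %ₘ b with hs
  have hdeg : ∀ l, b.natDegree ≤ l → s.coeff l = 0 := by
    have h1 := degree_modByMonic_lt f hb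
    rw [degree_eq_natDegree hb.ne_zero, degree_lt_iff_coeff_zero] at h1
    exact h1
  have hco : ∀ (φ : ℕ → ℂ[X]) (l : ℕ), (∑ l ∈ Finset.range b.natDegree, C (φ l) * X ^ l).coeff l =
      if l < b.natDegree then φ l else 0 := by
    intro φ l
    rw [finsetSum_coeff]
    simp only [coeff_C_mul, coeff_X_pow, mul_ite, mul_one, mul_zero]
    rw [Finset.sum_ite_eq]
    simp only [Finset.mem_range]
  refine ⟨f /ₘ b, ∑ l ∈ Finset.range b.natDegree, C (s.coeff l /ₘ c) * X ^ l,
    ∑ l ∈ Finset.range b.natDegree, C (s.coeff l %ₘ c) * X ^ l, ?_, ?_, ?_⟩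
  · have h1 : f = b * (f /ₘ b) + s := by
      rw [add_comm]
      exact (modByMonic_add_div f b).symm
    conv_lhs => rw [h1]
    rw [add_assoc]
    congr 1
    ext1 l
    rw [coeff_add, coeff_C_mul, hco, hco]
    split_ifs with h2
    · rw [add_comm]
      exact (modByMonic_add_div _ c).symm
    · rw [hdeg l (by omega), mul_zero, add_zero]
  · intro i k hik
    rw [hco]
    split_ifs with h2
    · have h3 := degree_modByMonic_lt (s.coeff k) hc
      rw [degree_eq_natDegree hc.ne_zero, degree_lt_iff_coeff_zero] at h3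
      exact h3 i (by omega)
    · exact coeff_zero _
  · intro M hbd hf i k hik
    have h3 := dg_div hb rfl hbd _ f le_rfl hf
    rw [hco]
    split_ifs with h2
    · by_cases h4 : s.coeff k = 0
      · rw [h4, zero_divByMonic, coeff_zero]
      · have h5 : (s.coeff k).natDegree + k ≤ M := h3.natDegree_le h4
        by_cases h6 : c.natDegree ≤ (s.coeff k).natDegree
        · apply coeff_eq_zero_of_natDegree_lt
          rw [natDegree_divByMonic _ hc]
          omega
        · rw [(divByMonic_eq_zero_iff hc).2, coeff_zero]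
          exact degree_lt_degree (by omega)
    · exact coeff_zero _

include hb hc hbd hβ hγ in
/-- the annihilator of the residue -/
theorem ann {f : ℂ[X][X]} (h : ∀ g, om b c (f * g) = 0) : ∃ u v, f = b * u + C c * v ∧
    ∀ M, Dg M f → ∀ i k, M < i + k + c.natDegree → (v.coeff k).coeff i = 0 := by
  obtain ⟨u, v, r, h1, h2, h3⟩ := exists_nf hb hc f
  refine ⟨u, v, ?_, fun M hM => h3 M hbd hM⟩
  have hr : r = 0 := by
    by_contra hr
    obtain ⟨i, k, i', k', -, -, -, h4⟩ := nondeg hb hc hbd hβ hγ h2 hr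
    apply h4
    have h5 := h (mn i' k')
    rw [h1, add_mul, add_mul, map_add, map_add, mul_assoc, mul_assoc, om_b hb, om_c hc, zero_add,
      zero_add] at h5
    exact h5
  rw [h1, hr, add_zero]

/-- the reduced polynomial with given coefficients -/
noncomputable def mk (β γ : ℕ) : (Fin γ × Fin β → ℂ) →ₗ[ℂ] ℂ[X][X] :=
  ∑ p : Fin γ × Fin β, (LinearMap.proj p : (Fin γ × Fin β → ℂ) →ₗ[ℂ] ℂ).smulRight
    (mn p.1 p.2)

theorem mk_apply (β γ : ℕ) (a : Fin γ × Fin β → ℂ) :
    mk β γ a = ∑ p : Fin γ × Fin β, a p • mn p.1 p.2 := by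
  simp [mk, LinearMap.sum_apply]

theorem coeff_mk (β γ : ℕ) (a : Fin γ × Fin β → ℂ) (i k : ℕ) : ((mk β γ a).coeff k).coeff i =
    if h : i < γ ∧ k < β then a (⟨i, h.1⟩, ⟨k, h.2⟩) else 0 := by
  rw [mk_apply, finsetSum_coeff, finsetSum_coeff]
  have h0 : ∀ p : Fin γ × Fin β, ((a p • mn p.1 p.2).coeff k).coeff i =
      if k = p.2 ∧ i = p.1 then a p else 0 := by
    intro p
    rw [coeff_smul, coeff_smul, coeff_mn, smul_eq_mul, mul_ite, mul_one, mul_zero]
  simp only [h0]
  split_ifs with h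
  · rw [Finset.sum_eq_single (⟨i, h.1⟩, ⟨k, h.2⟩)]
    · simp
    · intro p _ hp
      rw [if_neg]
      rintro ⟨h1, h2⟩
      apply hp
      ext
      · exact h2.symm
      · exact h1.symm
    · intro h1
      exact absurd (Finset.mem_univ _) h1
  · refine Finset.sum_eq_zero fun p _ => ?_
    rw [if_neg]
    rintro ⟨h1, h2⟩
    exact h ⟨h2 ▸ p.1.2, h1 ▸ p.2.2⟩

theorem rdd_mk (a : Fin c.natDegree × Fin b.natDegree → ℂ) :
    Rdd b c (mk b.natDegree c.natDegree a) := by
  intro i k h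
  rw [coeff_mk, dif_neg h]

theorem mk_surj {g : ℂ[X][X]} (hg : Rdd b c g) : ∃ a, g = mk b.natDegree c.natDegree a := by
  refine ⟨fun p => (g.coeff p.2).coeff p.1, ext2 fun i k => ?_⟩
  rw [coeff_mk]
  split_ifs with h
  · rfl
  · exact hg i k h

include hb hc hbd hβ hγ in
/-- every functional which kills `b` and `c` is a residue -/
theorem rep (τ : ℂ[X][X] →ₗ[ℂ] ℂ) (h1 : ∀ f, τ (b * f) = 0) (h2 : ∀ f, τ (C c * f) = 0) :
    ∃ g, Rdd b c g ∧ ∀ f, τ f = om b c (g * f) := by
  let T : (Fin c.natDegree × Fin b.natDegree → ℂ) →ₗ[ℂ] (Fin c.natDegree × Fin b.natDegree → ℂ) :=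
    { toFun := fun a p => om b c (mk b.natDegree c.natDegree a * mn p.1 p.2)
      map_add' := fun a a' => by
        ext p
        simp only [map_add, add_mul, Pi.add_apply]
      map_smul' := fun z a => by
        ext p
        simp only [map_smul, smul_mul_assoc, Pi.smul_apply, RingHom.id_apply] }
  have hinj : Function.Injective T := by
    rw [injective_iff_map_eq_zero]
    intro a ha
    by_contra hne
    have h0 : mk b.natDegree c.natDegree a ≠ 0 := by
      intro h0
      apply hne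
      ext ⟨⟨i, hi⟩, ⟨k, hk⟩⟩
      have h3 := coeff_mk b.natDegree c.natDegree a i k
      rw [h0, dif_pos ⟨hi, hk⟩] at h3
      rw [← h3]
      simp
    obtain ⟨i, k, i', k', e1, e2, -, h4⟩ := nondeg hb hc hbd hβ hγ (rdd_mk a) h0
    exact h4 (congrFun ha (⟨i', by omega⟩, ⟨k', by omega⟩))
  obtain ⟨a, ha⟩ := (LinearMap.injective_iff_surjective.1 hinj) (fun p => τ (mn p.1 p.2))
  refine ⟨mk b.natDegree c.natDegree a, rdd_mk a, fun f => ?_⟩
  obtain ⟨u, v, r, e, hr, -⟩ := exists_nf hb hc f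
  obtain ⟨a', ha'⟩ := mk_surj hr
  have e1 : τ f = τ r := by
    rw [e, map_add, map_add, h1, h2, zero_add, zero_add]
  have e2 : om b c (mk b.natDegree c.natDegree a * f) =
      om b c (mk b.natDegree c.natDegree a * r) := by
    rw [e, mul_add, mul_add, map_add, map_add, mul_left_comm, om_b hb, mul_left_comm, om_c hc,
      zero_add, zero_add]
  rw [e1, e2, ha', mk_apply _ _ a', map_sum, Finset.mul_sum, map_sum]
  refine Finset.sum_congr rfl fun p _ => ?_
  rw [map_smul, mul_smul_comm, map_smul]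
  congr 1
  exact (congrFun ha p).symm

include hb hc hbd hβ hγ in
/-- the representation with the bound for the degree -/
theorem rep_deg (τ : ℂ[X][X] →ₗ[ℂ] ℂ) (h1 : ∀ f, τ (b * f) = 0) (h2 : ∀ f, τ (C c * f) = 0)
    {D : ℕ} (h3 : ∀ i k, i + k < D → τ (mn i k) = 0) (h4 : τ ≠ 0) :
    ∃ g, (∀ f, τ f = om b c (g * f)) ∧ ∃ M, M + D + 2 ≤ b.natDegree + c.natDegree ∧ Dg M g := by
  obtain ⟨g, hg, hgτ⟩ := rep hb hc hbd hβ hγ τ h1 h2
  have hg0 : g ≠ 0 := by
    rintro rfl
    apply h4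
    ext f
    rw [hgτ, zero_mul, map_zero]
    rfl
  obtain ⟨i, k, i', k', e1, e2, hmax, hne⟩ := nondeg hb hc hbd hβ hγ hg hg0
  refine ⟨g, hgτ, i + k, ?_, ?_⟩
  · rw [← hgτ] at hne
    have h5 : D ≤ i' + k' := by
      by_contra hcon
      exact hne (h3 i' k' (by omega))
    omega
  · intro i₁ k₁ h5
    by_contra hcon
    have := hmax i₁ k₁ hcon
    omega

end

end Pool.Agent.Work.MP_0421d9_ag.LD.CI
end

section
/-!
Selection of the points for the strips of the plane, large multiplicities (helper63):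
disjoint sets of points, the numbers `k` and `z`.
-/

namespace Pool.Agent.Work.MP_0421d9_ag.LD

/-- many disjoint sets of even cardinality -/
theorem zsel_many {α : Type} [DecidableEq α] (g : α → ℕ) {w z : ℕ} (hz : 1 ≤ z) (k : ℕ) :
    ∀ P : Finset α, (∀ i ∈ P, g i ≤ w) → k * (z + 2 * w) ≤ ∑ i ∈ P, g i →
      ∃ X : Fin k → Finset α, (∀ j, X j ⊆ P) ∧ (∀ j, (X j).card % 2 = 0) ∧
        (∀ j, z ≤ ∑ i ∈ X j, g i ∧ ∑ i ∈ X j, g i < z + 2 * w) ∧
        ∀ i j, i ≠ j → Disjoint (X i) (X j) := by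
  induction k with
  | zero =>
    intro P _ _
    exact ⟨fun _ => ∅, fun j => j.elim0, fun j => j.elim0, fun j => j.elim0, fun j => j.elim0⟩
  | succ k ih =>
    intro P hP hs
    have e1 : (k + 1) * (z + 2 * w) = k * (z + 2 * w) + (z + 2 * w) := by ring
    obtain ⟨Q, hQP, hQc, -, hQ1, hQ2⟩ := zsel_pick P g (w := w) (A := z) (par := 0) (by norm_num)
      hP (by omega) hz
    have h1 := Finset.sum_sdiff (f := g) hQP
    obtain ⟨X, hX1, hX2, hX3, hX4⟩ := ih (P \ Q) (fun i hi => hP i (Finset.mem_sdiff.mp hi).1)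
      (by omega)
    have hd : ∀ j, Disjoint Q (X j) := fun j =>
      (Finset.disjoint_sdiff).mono_right (hX1 j)
    refine ⟨Fin.cons Q X, fun j => ?_, fun j => ?_, fun j => ?_, fun i j hij => ?_⟩
    · refine Fin.cases ?_ (fun j => ?_) j
      · exact hQP
      · exact (hX1 j).trans Finset.sdiff_subset
    · refine Fin.cases ?_ (fun j => ?_) j
      · exact hQc
      · exact hX2 j
    · refine Fin.cases ?_ (fun j => ?_) j
      · exact ⟨hQ1, hQ2⟩
      · exact hX3 j
    · revert hij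
      refine Fin.cases ?_ (fun i => ?_) i
      · refine Fin.cases ?_ (fun j => ?_) j
        · intro h; exact absurd rfl h
        · intro _; exact hd j
      · refine Fin.cases ?_ (fun j => ?_) j
        · intro _; exact (hd i).symm
        · intro h
          exact hX4 i j (fun h' => h (by rw [h']))

/-- the union of some of the sets -/
theorem zsel_union {α : Type} [DecidableEq α] (g : α → ℕ) {k : ℕ} {P Q : Finset α}
    {X : Fin k → Finset α} (hQP : Q ⊆ P) (hQc : Q.card % 2 = 1) (hX1 : ∀ j, X j ⊆ P \ Q)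
    (hX2 : ∀ j, (X j).card % 2 = 0) (hX4 : ∀ i j, i ≠ j → Disjoint (X i) (X j))
    (J : Finset (Fin k)) : ∃ S ⊆ P, S.card % 2 = 1 ∧
      ∑ i ∈ S, g i = ∑ i ∈ Q, g i + ∑ j ∈ J, ∑ i ∈ X j, g i := by
  have hd : Disjoint Q (J.biUnion X) := by
    rw [Finset.disjoint_biUnion_right]
    intro j _
    exact (Finset.disjoint_sdiff).mono_right (hX1 j)
  have hpd : (J : Set (Fin k)).PairwiseDisjoint X := fun i _ j _ hij => hX4 i j hij
  refine ⟨Q ∪ J.biUnion X, ?_, ?_, ?_⟩
  · apply Finset.union_subset hQP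
    rw [Finset.biUnion_subset]
    intro j _
    exact (hX1 j).trans Finset.sdiff_subset
  · rw [Finset.card_union_of_disjoint hd, Finset.card_biUnion (fun i _ j _ hij => hX4 i j hij)]
    have h1 : 2 ∣ ∑ j ∈ J, (X j).card := Finset.dvd_sum fun j _ => Nat.dvd_of_mod_eq_zero (hX2 j)
    omega
  · rw [Finset.sum_union hd, Finset.sum_biUnion hpd]

theorem zsel_bern (z k : ℕ) : (z + 1) ^ k * (z + 1) ≤ (z + 1) * z ^ k + k * (z + 1) ^ k := by
  induction k with
  | zero => simp
  | succ k ih =>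
    have h1 : (z + 1) ^ (k + 1) * (z + 1) = (z + 1) * ((z + 1) ^ k * (z + 1)) := by ring
    have h2 : (z + 1) * ((z + 1) ^ k * (z + 1)) =
        z * ((z + 1) ^ k * (z + 1)) + (z + 1) ^ (k + 1) := by ring
    have h3 : z * ((z + 1) ^ k * (z + 1)) ≤ z * ((z + 1) * z ^ k + k * (z + 1) ^ k) :=
      Nat.mul_le_mul_left _ ih
    have h4 : z * ((z + 1) * z ^ k + k * (z + 1) ^ k) =
        (z + 1) * z ^ (k + 1) + k * (z * (z + 1) ^ k) := by ring
    have h5 : k * (z * (z + 1) ^ k) ≤ k * (z + 1) ^ (k + 1) := by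
      refine Nat.mul_le_mul_left _ ?_
      rw [pow_succ, mul_comm]
      exact Nat.mul_le_mul_left _ (by omega)
    have h6 : (k + 1) * (z + 1) ^ (k + 1) = k * (z + 1) ^ (k + 1) + (z + 1) ^ (k + 1) := by ring
    omega

theorem zsel_pow {z k : ℕ} (h : 2 * k ≤ z + 1) : (z + 1) ^ k ≤ 2 * z ^ k := by
  have h1 := zsel_bern z k
  have h2 : 2 * (k * (z + 1) ^ k) ≤ (z + 1) * (z + 1) ^ k := by
    rw [← mul_assoc]
    exact Nat.mul_le_mul_right _ h
  have h3 : (z + 1) * (z + 1) ^ k ≤ (z + 1) * (2 * z ^ k) := by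
    have e1 : (z + 1) ^ k * (z + 1) = (z + 1) * (z + 1) ^ k := by ring
    have e2 : (z + 1) * (2 * z ^ k) = 2 * ((z + 1) * z ^ k) := by ring
    omega
  exact Nat.le_of_mul_le_mul_left h3 (by omega)

/-- a number `z` whose `k`-th power is nearly `E / c` -/
theorem zsel_root {c k E z₀ : ℕ} (hc : 1 ≤ c) (hk : 1 ≤ k) (hz : 2 * k ≤ z₀)
    (h : c * z₀ ^ k ≤ E) : ∃ z, z₀ ≤ z ∧ c * z ^ k ≤ E ∧ E ≤ 2 * (c * z ^ k) := by
  classical
  have hex : ∃ n, E < c * n ^ k := by
    refine ⟨E + 1, ?_⟩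
    calc E < E + 1 := Nat.lt_succ_self _
      _ = 1 * (E + 1) ^ 1 := by ring
      _ ≤ c * (E + 1) ^ k := Nat.mul_le_mul hc (Nat.pow_le_pow_right (by omega) hk)
  obtain ⟨n, hn, hmin⟩ : ∃ n, E < c * n ^ k ∧ ∀ m, m < n → c * m ^ k ≤ E :=
    ⟨Nat.find hex, Nat.find_spec hex, fun m hm => Nat.le_of_not_lt (Nat.find_min hex hm)⟩
  have h1 : z₀ < n := by
    by_contra hcon
    have h2 : c * n ^ k ≤ c * z₀ ^ k :=
      Nat.mul_le_mul_left _ (Nat.pow_le_pow_left (by omega) k)
    omega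
  obtain ⟨z, rfl⟩ : ∃ z, n = z + 1 := ⟨n - 1, by omega⟩
  refine ⟨z, by omega, hmin z (by omega), ?_⟩
  have h3 : c * (z + 1) ^ k ≤ c * (2 * z ^ k) := Nat.mul_le_mul_left _ (zsel_pow (by omega))
  have e1 : c * (2 * z ^ k) = 2 * (c * z ^ k) := by ring
  omega

end Pool.Agent.Work.MP_0421d9_ag.LD
end

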