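import Pool.Agent.Work.Z0421M.C01

section
/-!
The cut lemma: moving points to infinity along a one-parameter group cuts off a part of the
monomials.
-/

namespace Pool.Agent.Work.MP_0421d9_ag.LD

open MvPolynomial Module

/-- scaling of the coordinates -/
noncomputable def scl (t : V3) : R3 →ₐ[ℂ] R3 := aeval (fun i => C (t i) * X i)

theorem scl_monomial (t : V3) (β : Fin 3 →₀ ℕ) (a : ℂ) :
    scl t (monomial β a) = monomial β ((∏ i, t i ^ β i) * a) := by
  unfold scl
  rw [aeval_monomial, Finsupp.prod_fintype _ _ (fun i => pow_zero _)]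
  have h1 : ∏ i, (C (t i) * X i : R3) ^ β i = monomial β (∏ i, t i ^ β i) := by
    simp only [mul_pow, Finset.prod_mul_distrib]
    rw [monomial_eq, Finsupp.prod_fintype _ _ (fun i => pow_zero _), map_prod]
    simp only [map_pow]
  rw [h1, algebraMap_eq, C_mul_monomial, mul_comm]

theorem coeff_scl (t : V3) (F : R3) (β : Fin 3 →₀ ℕ) :
    coeff β (scl t F) = (∏ i, t i ^ β i) * coeff β F := by
  induction F using MvPolynomial.induction_on' with
  | monomial γ a =>
    rw [scl_monomial, coeff_monomial, coeff_monomial]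
    split_ifs with h
    · rw [h]
    · rw [mul_zero]
  | add f g hf hg => rw [map_add, coeff_add, coeff_add, hf, hg, mul_add]

theorem translate_scl (t a : V3) (F : R3) :
    translate a (scl t F) = scl t (translate (fun i => t i * a i) F) := by
  unfold translate scl
  induction F using MvPolynomial.induction_on with
  | C c => simp
  | add f g hf hg => rw [map_add, map_add, map_add, map_add, hf, hg]
  | mul_X f k hf =>
    rw [map_mul, map_mul, map_mul, map_mul, hf, aeval_X, aeval_X]
    congr 1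
    simp only [map_mul, map_add, algHom_C, aeval_X, algebraMap_eq]
    ring

theorem vanishTo_scl {t a : V3} {m : ℕ} {F : R3} (h : VanishTo F (fun i => t i * a i) m) :
    VanishTo (scl t F) a m := by
  rw [vanishTo_iff_coeff] at h ⊢
  intro β hβ
  rw [translate_scl, coeff_scl, h β hβ, mul_zero]

theorem prod_pow_wt (w : Fin 3 → ℕ) (τ : ℂ) (β : Fin 3 →₀ ℕ) :
    ∏ i, (τ ^ w i) ^ β i = τ ^ wt3 w β := by
  simp only [← pow_mul]
  rw [Finset.prod_pow_eq_pow_sum]
  rfl

theorem degree_set_finite (D : ℕ) : {β : Fin 3 →₀ ℕ | β.degree = D}.Finite :=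
  (Finsupp.finite_of_degree_le D).subset (fun β hβ => by
    have h1 : β.degree = D := hβ
    exact h1.le)

theorem degree_of_mem_support {F : R3} {D : ℕ} (hF : F.IsHomogeneous D) {β : Fin 3 →₀ ℕ}
    (hβ : coeff β F ≠ 0) : β.degree = D := by
  by_contra hcon
  exact hβ (hF.coeff_eq_zero hcon)

theorem cut {D : ℕ} (w : Fin 3 → ℕ) (c : ℕ) {κ : Type} [Finite κ] (p : κ → V3) (m : κ → ℕ)
    (T : Set (Fin 3 →₀ ℕ))
    (hkill : ∀ G : R3, G.IsHomogeneous D → (∀ α ∈ G.support, α ∈ T ∧ wt3 w α ≤ c) →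
      (∀ k, VanishTo G (p k) (m k)) → G = 0)
    (U : Submodule ℂ R3) (hU : ∀ F ∈ U, F.IsHomogeneous D ∧ ∀ α ∈ F.support, α ∈ T) :
    ∃ τ : ℂ, τ ≠ 0 ∧ finrank ℂ ↥(U ⊓ ⨅ k, vanSub (fun i => τ ^ w i * p k i) (m k)) ≤
      finrank ℂ ↥(U ⊓ offSub {α | wt3 w α ≤ c}) := by
  classical
  have hUD : U ≤ Rd D := fun F hF => (hU F hF).1
  have hfinU : Module.Finite ℂ U := Submodule.finiteDimensional_of_le hUD
  let Dset : Finset (Fin 3 →₀ ℕ) := (degree_set_finite D).toFinset
  have hDset : ∀ β, β ∈ Dset ↔ β.degree = D := fun β => by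
    simp [Dset]
  let S : Set (Fin 3 →₀ ℕ) := {α | α.degree = D ∧ α ∈ T ∧ wt3 w α ≤ c}
  have hSfin : Finite S := (degree_set_finite D).subset (fun α hα => hα.1)
  let KS : Submodule ℂ R3 := offSub Sᶜ
  have hKS : ∀ G ∈ KS, G.IsHomogeneous D ∧ ∀ α ∈ G.support, α ∈ T ∧ wt3 w α ≤ c := by
    intro G hG
    have h1 : ∀ α, coeff α G ≠ 0 → α ∈ S := by
      intro α hα
      by_contra hcon
      exact hα (hG α hcon)
    refine ⟨?_, fun α hα => (h1 α (mem_support_iff.mp hα)).2⟩
    intro α hα
    have h2 := (h1 α hα).1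
    rw [← h2]
    simp [Finsupp.degree_eq_sum, Finsupp.weight_apply, Finsupp.sum_fintype]
  let Φ : R3 →ₗ[ℂ] ((k : κ) × {β : Fin 3 →₀ ℕ // β.degree < m k} → ℂ) :=
    { toFun := fun F z => coeff z.2.1 (translate (p z.1) F)
      map_add' := fun F G => by funext z; simp [translate]
      map_smul' := fun a F => by funext z; simp [translate] }
  have hΦ : ∀ F, (∀ k, VanishTo F (p k) (m k)) ↔ Φ F = 0 := by
    intro F
    constructor
    · intro h
      funext z
      exact vanishTo_iff_coeff.mp (h z.1) z.2.1 z.2.2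
    · intro h k
      rw [vanishTo_iff_coeff]
      intro β hβ
      exact congrFun h ⟨k, ⟨β, hβ⟩⟩
  have hinj : Function.Injective (Φ ∘ₗ KS.subtype) := by
    rw [← LinearMap.ker_eq_bot, Submodule.eq_bot_iff]
    intro G hG
    rw [LinearMap.mem_ker, LinearMap.comp_apply] at hG
    have h1 := hKS G.1 G.2
    exact Subtype.ext (hkill G.1 h1.1 h1.2 ((hΦ G.1).mpr hG))
  obtain ⟨L, hL⟩ := LinearMap.exists_leftInverse_of_injective _ (LinearMap.ker_eq_bot.mpr hinj)
  let ψ : (Fin 3 →₀ ℕ) → R3 →ₗ[ℂ] ℂ := fun α =>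
    { toFun := fun F => coeff α (L (Φ F) : R3)
      map_add' := fun F G => by simp
      map_smul' := fun a F => by simp }
  have hψS : ∀ α, ∀ G ∈ KS, ψ α G = coeff α G := by
    intro α G hG
    have h1 : L (Φ G) = ⟨G, hG⟩ := LinearMap.congr_fun hL ⟨G, hG⟩
    change coeff α (L (Φ G) : R3) = _
    rw [h1]
  have hψ0 : ∀ α F, (∀ k, VanishTo F (p k) (m k)) → ψ α F = 0 := by
    intro α F hF
    change coeff α (L (Φ F) : R3) = _
    rw [(hΦ F).mp hF]
    simp
  have hmon : ∀ α β, β ∈ S → ψ α (monomial β 1) = if β = α then 1 else 0 := by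
    intro α β hβ
    rw [hψS α _ ?_, coeff_monomial]
    intro γ hγ
    rw [coeff_monomial, if_neg]
    rintro rfl
    exact hγ hβ
  have hexp : ∀ α, ∀ F : R3, F.IsHomogeneous D →
      ψ α F = ∑ β ∈ Dset, coeff β F * ψ α (monomial β 1) := by
    intro α F hF
    have h1 : F = ∑ β ∈ Dset, monomial β (coeff β F) := by
      ext γ
      rw [coeff_sum]
      simp only [coeff_monomial]
      rw [Finset.sum_ite_eq' Dset γ]
      split_ifs with h2
      · rfl
      · by_contra hcon
        exact h2 ((hDset γ).mpr (degree_of_mem_support hF hcon))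
    conv_lhs => rw [h1]
    rw [map_sum]
    refine Finset.sum_congr rfl (fun β _ => ?_)
    have h2 : (monomial β (coeff β F) : R3) = coeff β F • monomial β 1 := by
      rw [smul_monomial, smul_eq_mul, mul_one]
    rw [h2, map_smul, smul_eq_mul]
  let P : R3 →ₗ[ℂ] (S → Polynomial ℂ) :=
    { toFun := fun F α => Polynomial.C (coeff α.1 F) +
        ∑ β ∈ Dset.filter (fun β => ¬ wt3 w β ≤ c),
          Polynomial.C (coeff β F * ψ α.1 (monomial β 1)) * Polynomial.X ^ (wt3 w β - wt3 w α.1)
      map_add' := fun F G => by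
        funext α
        simp only [coeff_add, add_mul, map_add, Finset.sum_add_distrib, Pi.add_apply]
        ring
      map_smul' := fun a F => by
        funext α
        simp only [coeff_smul, smul_eq_mul, map_mul, Pi.smul_apply, RingHom.id_apply, smul_add,
          Finset.smul_sum, Polynomial.smul_eq_C_mul, mul_assoc] }
  have hP : ∀ F τ (α : S), (P F α).eval τ = coeff α.1 F +
      ∑ β ∈ Dset.filter (fun β => ¬ wt3 w β ≤ c),
        coeff β F * ψ α.1 (monomial β 1) * τ ^ (wt3 w β - wt3 w α.1) := by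
    intro F τ α
    change Polynomial.eval τ (Polynomial.C (coeff α.1 F) + _) = _
    simp only [Polynomial.eval_add, Polynomial.eval_C, Polynomial.eval_finsetSum,
      Polynomial.eval_mul, Polynomial.eval_pow, Polynomial.eval_X]
  obtain ⟨g, hg, h1⟩ := semicont P U 0
  obtain ⟨τ, hτ, hτ0⟩ := exists_eval_ne (ne_zero_of_eval hg) (Polynomial.X_ne_zero (R := ℂ))
  rw [Polynomial.eval_X] at hτ0
  refine ⟨τ, hτ0, ?_⟩
  have h2 := h1 τ hτ
  have h3 : U ⊓ Z P 0 = U ⊓ offSub {α | wt3 w α ≤ c} := by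
    ext F
    rw [Submodule.mem_inf, Submodule.mem_inf, mem_Z, mem_offSub]
    refine and_congr_right (fun hF => ?_)
    have h4 : ∀ α : S, (P F α).eval 0 = coeff α.1 F := by
      intro α
      rw [hP, Finset.sum_eq_zero, add_zero]
      intro β hβ
      have h5 := (Finset.mem_filter.mp hβ).2
      have h6 := α.2.2.2
      rw [zero_pow (by omega), mul_zero]
    constructor
    · intro h α hα
      by_contra hcon
      have h5 := (hU F hF).2 α (mem_support_iff.mpr hcon)
      have h6 := h ⟨α, degree_of_mem_support (hU F hF).1 hcon, h5, hα⟩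
      rw [h4] at h6
      exact hcon h6
    · intro h α
      rw [h4]
      exact h α.1 α.2.2.2
  rw [h3] at h2
  have h4 : U ⊓ ⨅ k, vanSub (fun i => τ ^ w i * p k i) (m k) ≤ U ⊓ Z P τ := by
    intro F hF
    rw [Submodule.mem_inf, Submodule.mem_iInf] at hF
    refine ⟨hF.1, fun α => ?_⟩
    have h5 : ∀ k, VanishTo (scl (fun i => τ ^ w i) F) (p k) (m k) := fun k =>
      vanishTo_scl (hF.2 k)
    have hFD := (hU F hF.1).1
    have h6 : (scl (fun i => τ ^ w i) F).IsHomogeneous D := by
      intro β hβ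
      rw [coeff_scl] at hβ
      exact hFD (right_ne_zero_of_mul hβ)
    have h7 := hψ0 α.1 _ h5
    rw [hexp α.1 _ h6] at h7
    have h8 : ∀ β ∈ Dset.filter (fun β => wt3 w β ≤ c),
        coeff β (scl (fun i => τ ^ w i) F) * ψ α.1 (monomial β 1) =
        if β = α.1 then τ ^ wt3 w α.1 * coeff α.1 F else 0 := by
      intro β hβ
      rw [coeff_scl, prod_pow_wt]
      by_cases h9 : β ∈ T
      · rw [hmon α.1 β ⟨(hDset β).mp (Finset.mem_filter.mp hβ).1, h9,
          (Finset.mem_filter.mp hβ).2⟩]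
        split_ifs with h10
        · rw [h10, mul_one]
        · rw [mul_zero]
      · have h10 : coeff β F = 0 := by
          by_contra hcon
          exact h9 ((hU F hF.1).2 β (mem_support_iff.mpr hcon))
        rw [h10, mul_zero, zero_mul, if_neg]
        rintro rfl
        exact h9 α.2.2.1
    rw [← Finset.sum_filter_add_sum_filter_not Dset (fun β => wt3 w β ≤ c),
      Finset.sum_congr rfl h8, Finset.sum_ite_eq', if_pos (Finset.mem_filter.mpr
        ⟨(hDset α.1).mpr α.2.1, α.2.2.2⟩)] at h7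
    have h9 : τ ^ wt3 w α.1 * (P F α).eval τ = 0 := by
      rw [hP, mul_add, Finset.mul_sum, ← h7]
      congr 1
      refine Finset.sum_congr rfl (fun β hβ => ?_)
      have h10 := (Finset.mem_filter.mp hβ).2
      have h11 := α.2.2.2
      rw [coeff_scl, prod_pow_wt]
      have h12 : τ ^ wt3 w β = τ ^ wt3 w α.1 * τ ^ (wt3 w β - wt3 w α.1) := by
        rw [← pow_add]
        congr 1
        omega
      rw [h12]
      ring
    exact (mul_eq_zero.mp h9).resolve_left (pow_ne_zero _ hτ0)
  have hfin2 : Module.Finite ℂ ↥(U ⊓ Z P τ) :=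
    Submodule.finiteDimensional_of_le (inf_le_left.trans hUD)
  exact (Submodule.finrank_mono h4).trans h2

end Pool.Agent.Work.MP_0421d9_ag.LD
end

section
/-!
A new flag on a suitable line cuts down all linear systems of bounded degree as much as possible.
-/

namespace Pool.Agent.Work.MP_0421d9_ag.LD

open MvPolynomial Module

theorem finrank_eq_ker_add_map {E F : Type} [AddCommGroup E] [Module ℂ E] [AddCommGroup F]
    [Module ℂ F] (φ : E →ₗ[ℂ] F) (T : Submodule ℂ E) [Module.Finite ℂ T] :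
    finrank ℂ T = finrank ℂ ↥(T ⊓ LinearMap.ker φ) + finrank ℂ ↥(T.map φ) := by
  have h1 := LinearMap.finrank_range_add_finrank_ker (φ ∘ₗ T.subtype)
  have h2 : LinearMap.range (φ ∘ₗ T.subtype) = T.map φ := by
    rw [LinearMap.range_comp, Submodule.range_subtype]
  have h3 : LinearMap.ker (φ ∘ₗ T.subtype) = (LinearMap.ker φ).comap T.subtype := by
    rw [LinearMap.ker_comp]
  rw [h2, h3, ← finrank_inf_eq] at h1
  omega

theorem coeff_eq_zero_of_mul {a b : Polynomial ℂ} {A : ℕ} (ha : a.coeff 0 ≠ 0)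
    (h : ∀ k < A, (a * b).coeff k = 0) : ∀ k < A, b.coeff k = 0 := by
  rw [← Polynomial.X_pow_dvd_iff] at h ⊢
  refine Prime.pow_dvd_of_dvd_mul_left Polynomial.prime_X A ?_ h
  rw [Polynomial.X_dvd_iff]
  exact ha

theorem onLine_lin (q v w : V3) : onLine q v (lin w) =
    Polynomial.C (eval q (lin w)) + Polynomial.C (eval v (lin w)) * Polynomial.X := by
  rw [eval_lin, eval_lin]
  unfold onLine lin
  simp only [map_sum, map_mul, aeval_X, algHom_C, Polynomial.algebraMap_eq, mul_add,
    Finset.sum_add_distrib, Finset.sum_mul]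
  congr 1
  exact Finset.sum_congr rfl (fun i _ => by ring)

theorem eval_onLine (q v : V3) (c : ℂ) (F : R3) :
    (onLine q v F).eval c = eval (q + c • v) F := by
  unfold onLine
  induction F using MvPolynomial.induction_on with
  | C a => simp
  | add f g hf hg => rw [map_add, Polynomial.eval_add, hf, hg, map_add]
  | mul_X f i hf =>
    rw [map_mul, Polynomial.eval_mul, hf, map_mul, aeval_X, eval_X]
    simp only [Polynomial.eval_add, Polynomial.eval_C, Polynomial.eval_mul, Polynomial.eval_X,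
      Pi.add_apply, Pi.smul_apply, smul_eq_mul]
    ring

theorem onLine_shift (q v : V3) (c : ℂ) (F : R3) :
    onLine (q + c • v) v F = (onLine q v F).comp (Polynomial.X + Polynomial.C c) := by
  apply Polynomial.funext
  intro t
  rw [Polynomial.eval_comp, eval_onLine, eval_onLine]
  congr 2
  simp only [Polynomial.eval_add, Polynomial.eval_X, Polynomial.eval_C]
  rw [add_smul]
  abel

theorem eval_smul_of_homogeneous {F : R3} {d : ℕ} (hF : F.IsHomogeneous d) (c : ℂ) (u : V3) :
    eval (c • u) F = c ^ d * eval u F := by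
  rw [eval_eq, eval_eq, Finset.mul_sum]
  refine Finset.sum_congr rfl (fun α hα => ?_)
  have h1 : ∑ i, α i = d := by
    have := hF (mem_support_iff.mp hα)
    rw [Finsupp.weight_apply, Finsupp.sum_fintype] at this
    · simpa using this
    · simp
  have h2 : ∏ i, (c • u) i ^ α i = c ^ d * ∏ i, u i ^ α i := by
    rw [← h1, ← Finset.prod_pow_eq_pow_sum, ← Finset.prod_mul_distrib]
    exact Finset.prod_congr rfl (fun i _ => by rw [Pi.smul_apply, smul_eq_mul, mul_pow])
  have h3 : ∏ i ∈ α.support, (c • u) i ^ α i = ∏ i, (c • u) i ^ α i := by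
    apply Finset.prod_subset (Finset.subset_univ _)
    intro i _ hi
    rw [Finsupp.notMem_support_iff.mp hi, pow_zero]
  have h4 : ∏ i ∈ α.support, u i ^ α i = ∏ i, u i ^ α i := by
    apply Finset.prod_subset (Finset.subset_univ _)
    intro i _ hi
    rw [Finsupp.notMem_support_iff.mp hi, pow_zero]
  rw [h3, h4, h2]
  ring

/-- a form which vanishes on the line through `q` with direction `v` is divisible by its
equation -/
theorem lin_dvd_of_onLine {w : V3} (hw0 : w 0 ≠ 0) {F : R3} {d : ℕ} (hF : F.IsHomogeneous d)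
    (h : onLine ![-w 1, w 0, 0] ![-w 2, 0, w 0] F = 0) : lin w ∣ F := by
  have hw : w ≠ 0 := fun h' => hw0 (by rw [h']; rfl)
  set q : V3 := ![-w 1, w 0, 0] with hq
  set v : V3 := ![-w 2, 0, w 0] with hv
  apply lin_dvd_of_eval hw
  intro u hu
  rw [eval_lin, Fin.sum_univ_three] at hu
  have hu' : u = (u 1 / w 0) • q + (u 2 / w 0) • v := by
    ext i
    rw [Pi.add_apply, Pi.smul_apply, Pi.smul_apply, smul_eq_mul, smul_eq_mul]
    fin_cases i
    · simp only [hq, hv, Fin.zero_eta, Matrix.cons_val_zero]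
      field_simp
      linear_combination hu
    · simp only [hq, hv, Fin.mk_one, Matrix.cons_val_one, Matrix.cons_val_zero]
      field_simp
      ring
    · simp only [hq, hv, Fin.reduceFinMk, Matrix.cons_val]
      field_simp
      ring
  -- the values on the whole plane
  have h1 : ∀ a b : ℂ, a ≠ 0 → eval (a • q + b • v) F = 0 := by
    intro a b ha
    have h2 : a • q + b • v = a • (q + (b / a) • v) := by
      rw [smul_add, smul_smul, mul_div_cancel₀ _ ha]
    rw [h2, eval_smul_of_homogeneous hF, ← eval_onLine, h, Polynomial.eval_zero, mul_zero]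
  have h2 : ∀ b : ℂ, onLine (b • v) q F = 0 := by
    intro b
    have h3 : Polynomial.X * onLine (b • v) q F = 0 := by
      apply Polynomial.funext
      intro t
      rw [Polynomial.eval_mul, Polynomial.eval_X, Polynomial.eval_zero]
      by_cases ht : t = 0
      · rw [ht, zero_mul]
      · rw [eval_onLine, add_comm, h1 t b ht, mul_zero]
    exact (mul_eq_zero.mp h3).resolve_left Polynomial.X_ne_zero
  rw [hu', add_comm, ← eval_onLine, h2, Polynomial.eval_zero]

/-- division by the equation of a line through none of the points -/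
theorem Sys_divide {r : ℕ} {y : Fin r → ℕ} {e : ℕ} {A : ℕ → ℕ} {p : Fin r → V3}
    {q v : ℕ → V3} {D : ℕ} {w : V3} (hwp : ∀ i, eval (p i) (lin w) ≠ 0)
    (hwq : ∀ l < e, eval (q l) (lin w) ≠ 0) {F : R3} (hF : F ∈ Sys (D + 1) y e A p q v)
    (hdvd : lin w ∣ F) : ∃ g ∈ Sys D y e A p q v, F = lin w * g := by
  by_cases hF0 : F = 0
  · exact ⟨0, Submodule.zero_mem _, by rw [hF0, mul_zero]⟩
  obtain ⟨h1, h2, h3⟩ := mem_Sys.mp hF
  obtain ⟨d, g, hd, hg, hfg⟩ := exists_factor h1 hF0 hdvd
  obtain rfl : D = d := by omega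
  refine ⟨g, mem_Sys.mpr ⟨hg, fun i => ?_, fun l hl => ?_⟩, hfg⟩
  · refine vanishTo_of_mul_ne ?_ (hwp i)
    rw [← hfg]
    exact h2 i
  · rw [mem_flagSub]
    apply coeff_eq_zero_of_mul (a := onLine (q l) (v l) (lin w))
    · rw [onLine_lin]
      simpa using hwq l hl
    · rw [← map_mul, ← hfg]
      exact h3 l hl

/-- a line through none of finitely many points -/
theorem exists_avoiding {r : ℕ} (p : Fin r → V3) (hp : ∀ i, p i ≠ 0) (e : ℕ) (q : ℕ → V3)
    (hq : ∀ l < e, q l ≠ 0) :
    ∃ w : V3, w 0 ≠ 0 ∧ (∀ i, eval (p i) (lin w) ≠ 0) ∧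
      ∀ l < e, eval (q l) (lin w) ≠ 0 := by
  classical
  have h1 : (X 0 : R3) * ((∏ i, lin (p i)) * ∏ l ∈ Finset.range e, lin (q l)) ≠ 0 := by
    refine mul_ne_zero (X_ne_zero _) (mul_ne_zero ?_ ?_)
    · exact Finset.prod_ne_zero_iff.mpr fun i _ => fun h => hp i (lin_eq_zero.mp h)
    · exact Finset.prod_ne_zero_iff.mpr fun l hl => fun h =>
        hq l (Finset.mem_range.mp hl) (lin_eq_zero.mp h)
  obtain ⟨w, hw⟩ : ∃ w, eval w ((X 0 : R3) * ((∏ i, lin (p i)) *
      ∏ l ∈ Finset.range e, lin (q l))) ≠ 0 := by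
    by_contra hcon
    push Not at hcon
    exact h1 (MvPolynomial.funext (fun u => by rw [hcon u, map_zero]))
  rw [map_mul, map_mul, eval_X, map_prod, map_prod] at hw
  have h2 := left_ne_zero_of_mul hw
  have h3 := left_ne_zero_of_mul (right_ne_zero_of_mul hw)
  have h4 := right_ne_zero_of_mul (right_ne_zero_of_mul hw)
  refine ⟨w, h2, fun i => ?_, fun l hl => ?_⟩
  · rw [eval_lin_comm]
    exact Finset.prod_ne_zero_iff.mp h3 i (Finset.mem_univ i)
  · rw [eval_lin_comm]
    exact Finset.prod_ne_zero_iff.mp h4 l (Finset.mem_range.mpr hl)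

/-- for given points and flags there is a new flag which cuts down the systems of all degrees
`D + 1`, `D ≤ N`, as much as possible -/
theorem flag_step {r : ℕ} (y : Fin r → ℕ) (e : ℕ) (A : ℕ → ℕ) (p : Fin r → V3)
    (hp : ∀ i, p i ≠ 0) (q v : ℕ → V3) (hq : ∀ l < e, q l ≠ 0) (B N : ℕ) :
    ∃ q' v' : V3, q' ≠ 0 ∧ ∀ D ≤ N,
      finrank ℂ ↥(Sys (D + 1) y e A p q v ⊓ flagSub q' v' B) ≤
        max (finrank ℂ (Sys (D + 1) y e A p q v) - B) (finrank ℂ (Sys D y e A p q v)) := by
  classical
  obtain ⟨w, hw0, hwp, hwq⟩ := exists_avoiding p hp e q hq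
  set q₀ : V3 := ![-w 1, w 0, 0] with hq₀
  set v₀ : V3 := ![-w 2, 0, w 0] with hv₀
  let φ : R3 →ₗ[ℂ] Polynomial ℂ := (onLine q₀ v₀).toLinearMap
  have hφ : ∀ F, φ F = onLine q₀ v₀ F := fun F => rfl
  have hfin : ∀ D, Module.Finite ℂ ↥((Sys D y e A p q v).map φ) := fun D => inferInstance
  choose h hh0 hh using fun D =>
    @order_generic ((Sys (D + 1) y e A p q v).map φ) (hfin (D + 1)) B
  have hprod : (∏ D ∈ Finset.range (N + 1), h D) ≠ 0 :=
    Finset.prod_ne_zero_iff.mpr fun D _ => hh0 D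
  obtain ⟨c, hc, -⟩ := exists_eval_ne hprod (one_ne_zero (α := Polynomial ℂ))
  rw [Polynomial.eval_prod] at hc
  refine ⟨q₀ + c • v₀, v₀, ?_, fun D hD => ?_⟩
  · intro h0
    have h1 := congrFun h0 1
    rw [Pi.add_apply, Pi.smul_apply, smul_eq_mul] at h1
    apply hw0
    simpa [hq₀, hv₀] using h1
  · have hcD : (h D).eval c ≠ 0 :=
      Finset.prod_ne_zero_iff.mp hc D (Finset.mem_range.mpr (by omega))
    have h1 := hh D c hcD
    -- the new flag in terms of the image
    have hflag : flagSub (q₀ + c • v₀) v₀ B = (ordSub c B).comap φ := by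
      ext F
      rw [mem_flagSub, Submodule.mem_comap, hφ]
      simp only [onLine_shift]
      exact Iff.rfl
    set S := Sys (D + 1) y e A p q v with hS
    have hker : finrank ℂ ↥(S ⊓ LinearMap.ker φ) ≤ finrank ℂ (Sys D y e A p q v) := by
      have h2 : S ⊓ LinearMap.ker φ ≤
          (Sys D y e A p q v).map (LinearMap.mulLeft ℂ (lin w)) := by
        intro F hF
        obtain ⟨h3, h4⟩ := Submodule.mem_inf.mp hF
        rw [LinearMap.mem_ker, hφ] at h4
        obtain ⟨g, hg, hFg⟩ := Sys_divide hwp hwq h3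
          (lin_dvd_of_onLine hw0 (mem_Sys.mp h3).1 h4)
        exact ⟨g, hg, hFg.symm⟩
      exact (Submodule.finrank_mono h2).trans (Submodule.finrank_map_le _ _)
    have hT : finrank ℂ ↥(S ⊓ (ordSub c B).comap φ) ≤
        finrank ℂ ↥(S ⊓ LinearMap.ker φ) + (finrank ℂ ↥(S.map φ) - B) := by
      have hfT : Module.Finite ℂ ↥(S ⊓ (ordSub c B).comap φ) :=
        Submodule.finiteDimensional_of_le inf_le_left
      rw [finrank_eq_ker_add_map φ (S ⊓ (ordSub c B).comap φ)]
      have hfK : Module.Finite ℂ ↥(S ⊓ LinearMap.ker φ) :=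
        Submodule.finiteDimensional_of_le inf_le_left
      have hfM : Module.Finite ℂ ↥(S.map φ ⊓ ordSub c B) :=
        Submodule.finiteDimensional_of_le inf_le_left
      refine add_le_add ?_ ?_
      · apply Submodule.finrank_mono
        exact inf_le_inf_right _ inf_le_left
      · refine le_trans (Submodule.finrank_mono ?_) h1
        rintro _ ⟨F, hF, rfl⟩
        obtain ⟨h3, h4⟩ := Submodule.mem_inf.mp hF
        exact Submodule.mem_inf.mpr ⟨⟨F, h3, rfl⟩, h4⟩
    rw [hflag]
    have h5 := finrank_eq_ker_add_map φ S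
    refine hT.trans ?_
    rcases Nat.lt_or_ge (finrank ℂ ↥(S.map φ)) B with h6 | h6
    · refine le_trans ?_ (le_max_right _ _)
      omega
    · refine le_trans ?_ (le_max_left _ _)
      omega

end Pool.Agent.Work.MP_0421d9_ag.LD
end

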