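import Pool.Agent.Work.Z0421M.C01
import Pool.Agent.Work.Z0421M.C03

section
/-!
Linear substitutions.
-/

namespace Pool.Agent.Work.MP_0421d9_ag.LD

open MvPolynomial Module

/-- the substitution `F ↦ F (M x)` -/
noncomputable def subM (M : Matrix (Fin 3) (Fin 3) ℂ) : R3 →ₐ[ℂ] R3 := aeval (fun k => lin (M k))

theorem subM_X (M : Matrix (Fin 3) (Fin 3) ℂ) (k : Fin 3) : subM M (X k) = lin (M k) := by
  unfold subM
  rw [aeval_X]

theorem subM_C (M : Matrix (Fin 3) (Fin 3) ℂ) (c : ℂ) : subM M (C c) = C c := by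
  unfold subM
  rw [algHom_C, algebraMap_eq]

theorem subM_subM (M N : Matrix (Fin 3) (Fin 3) ℂ) (F : R3) :
    subM M (subM N F) = subM (N * M) F := by
  induction F using MvPolynomial.induction_on with
  | C c => rw [subM_C, subM_C, subM_C]
  | add f g hf hg => rw [map_add, map_add, map_add, hf, hg]
  | mul_X f k hf =>
    rw [map_mul, map_mul, map_mul, hf, subM_X, subM_X]
    congr 1
    unfold lin
    simp only [map_sum, map_mul, subM_C, subM_X]
    unfold lin
    simp only [Fin.sum_univ_three, Matrix.mul_apply, map_add, map_mul]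
    ring

theorem subM_one (F : R3) : subM 1 F = F := by
  induction F using MvPolynomial.induction_on with
  | C c => rw [subM_C]
  | add f g hf hg => rw [map_add, hf, hg]
  | mul_X f k hf =>
    rw [map_mul, hf, subM_X]
    congr 1
    unfold lin
    rw [Finset.sum_eq_single k]
    · rw [Matrix.one_apply_eq, C_1, one_mul]
    · intro b _ hb
      rw [Matrix.one_apply_ne hb.symm, C_0, zero_mul]
    · simp

theorem subM_isHomogeneous (M : Matrix (Fin 3) (Fin 3) ℂ) {F : R3} {D : ℕ}
    (hF : F.IsHomogeneous D) : (subM M F).IsHomogeneous D := by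
  have h := hF.aeval (fun k => lin (M k)) (fun k => lin_isHomogeneous (M k))
  rw [one_mul] at h
  exact h

theorem homogeneousComponent_subM (M : Matrix (Fin 3) (Fin 3) ℂ) (G : R3) (k : ℕ) :
    homogeneousComponent k (subM M G) = subM M (homogeneousComponent k G) := by
  have h1 : subM M G = ∑ i ∈ Finset.range (G.totalDegree + 1),
      subM M (homogeneousComponent i G) := by
    rw [← map_sum, sum_homogeneousComponent]
  rw [h1, map_sum]
  have h2 : ∀ i, homogeneousComponent k (subM M (homogeneousComponent i G)) =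
      if i = k then subM M (homogeneousComponent k G) else 0 := by
    intro i
    have h3 := subM_isHomogeneous M (homogeneousComponent_isHomogeneous i G)
    rw [homogeneousComponent_of_mem h3]
    by_cases h4 : i = k
    · rw [if_pos h4, if_pos h4.symm, h4]
    · rw [if_neg h4, if_neg (Ne.symm h4)]
  rw [Finset.sum_congr rfl (fun i _ => h2 i), Finset.sum_ite_eq' (Finset.range _) k]
  split_ifs with h3
  · rfl
  · rw [homogeneousComponent_eq_zero, map_zero]
    rw [Finset.mem_range] at h3
    omega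

theorem eval_lin_row (M : Matrix (Fin 3) (Fin 3) ℂ) (a : V3) (k : Fin 3) :
    eval a (lin (M k)) = M.mulVec a k := by
  rw [eval_lin]
  rfl

theorem translate_subM (M : Matrix (Fin 3) (Fin 3) ℂ) (a : V3) (F : R3) :
    translate a (subM M F) = subM M (translate (M.mulVec a) F) := by
  induction F using MvPolynomial.induction_on with
  | C c => rw [subM_C]; unfold translate; rw [algHom_C, algHom_C, algebraMap_eq, subM_C]
  | add f g hf hg =>
    have h1 : ∀ (b : V3) (p q : R3), translate b (p + q) = translate b p + translate b q :=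
      fun b p q => by unfold translate; rw [map_add]
    rw [map_add, h1, h1, map_add, hf, hg]
  | mul_X f k hf =>
    rw [map_mul, translate_mul, translate_mul, map_mul, hf, subM_X, translate_lin, eval_lin_row]
    congr 1
    unfold translate
    rw [aeval_X, map_add, subM_C, subM_X]

theorem vanishTo_subM (M : Matrix (Fin 3) (Fin 3) ℂ) {a : V3} {m : ℕ} {F : R3}
    (h : VanishTo F (M.mulVec a) m) : VanishTo (subM M F) a m := by
  intro k hk
  rw [translate_subM, homogeneousComponent_subM, h k hk, map_zero]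

theorem onLine_subM (M : Matrix (Fin 3) (Fin 3) ℂ) (q v : V3) (F : R3) :
    onLine q v (subM M F) = onLine (M.mulVec q) (M.mulVec v) F := by
  induction F using MvPolynomial.induction_on with
  | C c => rw [subM_C]; unfold onLine; rw [algHom_C, algHom_C]
  | add f g hf hg => rw [map_add, map_add, map_add, hf, hg]
  | mul_X f k hf =>
    rw [map_mul, map_mul, map_mul, hf, subM_X]
    congr 1
    unfold onLine lin
    simp only [map_sum, map_mul, algHom_C, aeval_X, Matrix.mulVec, dotProduct]
    simp only [Fin.sum_univ_three, Polynomial.algebraMap_eq, map_add, map_mul]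
    ring

theorem flagSub_subM (M : Matrix (Fin 3) (Fin 3) ℂ) {q v : V3} {A : ℕ} {F : R3}
    (h : F ∈ flagSub (M.mulVec q) (M.mulVec v) A) : subM M F ∈ flagSub q v A := by
  intro k hk
  rw [onLine_subM]
  exact h k hk

/-- determinant of three vectors -/
def det3 {R : Type} [CommRing R] (a b c : Fin 3 → R) : R :=
  a 0 * (b 1 * c 2 - b 2 * c 1) - a 1 * (b 0 * c 2 - b 2 * c 0) + a 2 * (b 0 * c 1 - b 1 * c 0)

/-- moving the points and the flags by a linear map -/
theorem finrank_Sys_mulVec {r : ℕ} (D : ℕ) (y : Fin r → ℕ) (e : ℕ) (A : ℕ → ℕ) (p : Fin r → V3)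
    (q v : ℕ → V3) {M N : Matrix (Fin 3) (Fin 3) ℂ} (hMN : M * N = 1) :
    finrank ℂ (Sys D y e A (fun i => M.mulVec (p i)) (fun l => M.mulVec (q l))
      (fun l => M.mulVec (v l))) ≤ finrank ℂ (Sys D y e A p q v) := by
  have h1 : ∀ G ∈ Sys D y e A (fun i => M.mulVec (p i)) (fun l => M.mulVec (q l))
      (fun l => M.mulVec (v l)), subM M G ∈ Sys D y e A p q v := by
    intro G hG
    rw [mem_Sys] at hG ⊢
    exact ⟨subM_isHomogeneous M hG.1, fun i => vanishTo_subM M (hG.2.1 i),
      fun l hl => flagSub_subM M (hG.2.2 l hl)⟩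
  refine LinearMap.finrank_le_finrank_of_injective (f :=
    ((subM M).toLinearMap).restrict h1) ?_
  intro G G' h
  have h2 : subM M G.1 = subM M G'.1 := congrArg Subtype.val h
  have h3 := congrArg (subM N) h2
  rw [subM_subM, subM_subM, hMN, subM_one, subM_one] at h3
  exact Subtype.ext h3

end Pool.Agent.Work.MP_0421d9_ag.LD
end

section
/-!
One step of the degeneration: a strip is cut off, and a flag appears.
-/

namespace Pool.Agent.Work.MP_0421d9_ag.LD

open MvPolynomial Module

/-! ### general position -/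

theorem exists_tau {κ : Type} (s : Finset κ) (f : κ → Polynomial ℂ) (hf : ∀ k ∈ s, f k ≠ 0)
    {g : Polynomial ℂ} (hg : g ≠ 0) : ∃ τ, g.eval τ ≠ 0 ∧ ∀ k ∈ s, (f k).eval τ ≠ 0 := by
  have h1 : ∏ k ∈ s, f k ≠ 0 := Finset.prod_ne_zero_iff.mpr hf
  obtain ⟨τ, h2, h3⟩ := exists_eval_ne hg h1
  refine ⟨τ, h2, fun k hk h4 => h3 ?_⟩
  rw [Polynomial.eval_prod]
  exact Finset.prod_eq_zero hk h4

/-- the determinant along straight lines, as a polynomial -/
noncomputable def detPath (a a' b b' c c' : V3) : Polynomial ℂ :=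
  det3 (fun k => Polynomial.C (a k) + Polynomial.X * Polynomial.C (a' k - a k))
    (fun k => Polynomial.C (b k) + Polynomial.X * Polynomial.C (b' k - b k))
    (fun k => Polynomial.C (c k) + Polynomial.X * Polynomial.C (c' k - c k))

theorem eval_detPath (a a' b b' c c' : V3) (τ : ℂ) : (detPath a a' b b' c c').eval τ =
    det3 (fun k => a k + τ * (a' k - a k)) (fun k => b k + τ * (b' k - b k))
      (fun k => c k + τ * (c' k - c k)) := by
  unfold detPath det3
  simp only [Polynomial.eval_add, Polynomial.eval_sub, Polynomial.eval_mul, Polynomial.eval_C,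
    Polynomial.eval_X]

theorem detPath_ne (a b c : V3) : detPath a ![1, 0, 0] b ![0, 1, 0] c ![0, 0, 1] ≠ 0 := by
  apply ne_zero_of_eval (τ := 1)
  rw [eval_detPath]
  unfold det3
  simp

/-- the special vectors -/
def e0 : V3 := ![1, 0, 0]
def e1 : V3 := ![0, 1, 0]
def e2 : V3 := ![0, 0, 1]

/-- general position of the last flag with respect to the points and to the other flags -/
theorem Good.general {r : ℕ} {D : ℕ} {y : Fin r → ℕ} {e : ℕ} {A : ℕ → ℕ} {n : ℕ}
    (h : Good D y (e + 1) A n) : ∃ (p : Fin r → V3) (q v : ℕ → V3),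
      finrank ℂ (Sys D y (e + 1) A p q v) ≤ n ∧ (∀ i, det3 (v e) (q e) (p i) ≠ 0) ∧
      (∀ l < e, det3 (v e) (q e) (q l) ≠ 0) ∧ det3 (v e) (q e) e2 ≠ 0 := by
  classical
  obtain ⟨p, q, v, hn⟩ := h
  let q' : ℕ → V3 := fun l => if l = e then e1 else e2
  obtain ⟨g, hg, h1⟩ := Sys_semicont D y (e + 1) A p (fun _ => e2) q v q' (fun _ => e0)
  let f : (Fin r ⊕ ℕ) ⊕ Unit → Polynomial ℂ := Sum.elim
    (Sum.elim (fun i => detPath (v e) e0 (q e) e1 (p i) e2)
      (fun l => detPath (v e) e0 (q e) e1 (q l) e2))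
    (fun _ => detPath (v e) e0 (q e) e1 e2 e2)
  obtain ⟨τ, hτ, h2⟩ := exists_tau (((Finset.univ : Finset (Fin r)).disjSum
    (Finset.range e)).disjSum (Finset.univ : Finset Unit)) f
    (by
      rintro ((i | l) | u) _
      · exact detPath_ne _ _ _
      · exact detPath_ne _ _ _
      · exact detPath_ne _ _ _) hg
  have hq' : q' e = e1 := if_pos rfl
  refine ⟨_, _, _, (h1 τ hτ).trans hn, fun i => ?_, fun l hl => ?_, ?_⟩
  · have h3 := h2 (Sum.inl (Sum.inl i)) (by simp)
    change (detPath (v e) e0 (q e) e1 (p i) e2).eval τ ≠ 0 at h3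
    rw [eval_detPath] at h3
    rw [hq']
    exact h3
  · have h3 := h2 (Sum.inl (Sum.inr l)) (by simpa using hl)
    change (detPath (v e) e0 (q e) e1 (q l) e2).eval τ ≠ 0 at h3
    rw [eval_detPath] at h3
    have h4 : q' l = e2 := if_neg (by omega)
    rw [hq', h4]
    exact h3
  · have h3 := h2 (Sum.inr ()) (by simp)
    change (detPath (v e) e0 (q e) e1 e2 e2).eval τ ≠ 0 at h3
    rw [eval_detPath] at h3
    rw [hq']
    have h4 : (fun k => e2 k + τ * (e2 k - e2 k)) = e2 := by
      funext k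
      ring
    rw [h4] at h3
    exact h3

/-- the matrix with given columns -/
def colM (a b c : V3) : Matrix (Fin 3) (Fin 3) ℂ := Matrix.of (fun k j => ![a k, b k, c k] j)

theorem colM_mulVec (a b c x : V3) : (colM a b c).mulVec x = fun k =>
    x 0 * a k + x 1 * b k + x 2 * c k := by
  funext k
  unfold colM Matrix.mulVec dotProduct
  simp only [Fin.sum_univ_three, Matrix.of_apply]
  simp
  ring

theorem colM_det (a b c : V3) : (colM a b c).det = det3 a b c := by
  unfold colM det3
  rw [Matrix.det_fin_three]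
  simp
  ring

theorem exists_normal {r : ℕ} {D : ℕ} {y : Fin r → ℕ} {e : ℕ} {A : ℕ → ℕ} {n : ℕ}
    (h : Good D y (e + 1) A n) : ∃ (p : Fin r → V3) (q v : ℕ → V3),
      finrank ℂ (Sys D y (e + 1) A p q v) ≤ n ∧ (∀ i, p i 2 ≠ 0) ∧ (∀ l < e, q l 2 ≠ 0) ∧
      q e = e1 ∧ v e = e0 := by
  obtain ⟨p, q, v, hn, hp, hq, hdet⟩ := h.general
  let E := colM (v e) (q e) e2
  have hE : IsUnit E.det := by
    rw [colM_det]
    exact isUnit_iff_ne_zero.mpr hdet
  have h1 : E⁻¹ * E = 1 := Matrix.nonsing_inv_mul E hE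
  have h2 : E * E⁻¹ = 1 := Matrix.mul_nonsing_inv E hE
  have h3 : ∀ x : V3, E.mulVec (E⁻¹.mulVec x) = x := fun x => by
    rw [Matrix.mulVec_mulVec, h2, Matrix.one_mulVec]
  have h4 : ∀ x : V3, E⁻¹.mulVec (E.mulVec x) = x := fun x => by
    rw [Matrix.mulVec_mulVec, h1, Matrix.one_mulVec]
  have h5 : ∀ x : V3, det3 (v e) (q e) x ≠ 0 → (E⁻¹.mulVec x) 2 ≠ 0 := by
    intro x hx h6
    apply hx
    rw [← h3 x, colM_mulVec, h6]
    unfold det3
    ring
  refine ⟨_, _, _, (finrank_Sys_mulVec D y (e + 1) A p q v h1).trans hn, fun i => h5 _ (hp i),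
    fun l hl => h5 _ (hq l hl), ?_, ?_⟩
  · change E⁻¹.mulVec (q e) = e1
    have h6 : E.mulVec e1 = q e := by
      rw [colM_mulVec]
      funext k
      simp [e1]
    rw [← h6, h4]
  · change E⁻¹.mulVec (v e) = e0
    have h6 : E.mulVec e0 = v e := by
      rw [colM_mulVec]
      funext k
      simp [e0]
    rw [← h6, h4]

/-! ### division by a power of a coordinate -/

theorem X2_eq_lin : (X 2 : R3) = lin e2 := by
  unfold lin e2
  simp [Fin.sum_univ_three]

theorem vanishTo_of_X2_pow_mul {p : V3} (hp : p 2 ≠ 0) {m : ℕ} : ∀ {u : ℕ} {G : R3},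
    VanishTo (X 2 ^ u * G) p m → VanishTo G p m := by
  intro u
  induction u with
  | zero =>
    intro G h
    rwa [pow_zero, one_mul] at h
  | succ u ih =>
    intro G h
    rw [pow_succ', mul_assoc, X2_eq_lin] at h
    have h1 := vanishTo_of_mul_ne h (by rw [← X2_eq_lin, eval_X]; exact hp)
    rw [← X2_eq_lin] at h1
    exact ih h1

theorem flagSub_of_X2_pow_mul {q v : V3} (hq : q 2 ≠ 0) {A u : ℕ} {G : R3}
    (h : X 2 ^ u * G ∈ flagSub q v A) : G ∈ flagSub q v A := by
  rw [mem_flagSub, ← Polynomial.X_pow_dvd_iff] at h ⊢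
  rw [map_mul, map_pow] at h
  have h1 : onLine q v (X 2) = Polynomial.C (q 2) + Polynomial.C (v 2) * Polynomial.X := by
    unfold onLine
    rw [aeval_X]
  rw [h1] at h
  have h2 : IsCoprime (Polynomial.X : Polynomial ℂ)
      (Polynomial.C (q 2) + Polynomial.C (v 2) * Polynomial.X) := by
    refine ⟨-Polynomial.C (v 2 / q 2), Polynomial.C (1 / q 2), ?_⟩
    rw [mul_add, ← mul_assoc, ← Polynomial.C_mul, ← Polynomial.C_mul, one_div_mul_cancel hq,
      one_div_mul_eq_div, map_one]
    ring
  exact (h2.pow (m := A) (n := u)).dvd_of_dvd_mul_left h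

theorem exists_div_X2 {F : R3} {δ u : ℕ} (hF : F.IsHomogeneous (δ + u))
    (h : ∀ α ∈ F.support, u ≤ α 2) :
    ∃ G : R3, G.IsHomogeneous δ ∧ F = X 2 ^ u * G ∧
      ∀ β, coeff β G = coeff (Finsupp.single 2 u + β) F := by
  refine ⟨F.divMonomial (Finsupp.single 2 u), ?_, ?_, fun β => coeff_divMonomial _ _ _⟩
  · intro β hβ
    rw [coeff_divMonomial] at hβ
    have h1 := hF hβ
    rw [map_add] at h1
    have h2 : Finsupp.weight (1 : Fin 3 → ℕ) (Finsupp.single 2 u) = u := by
      rw [Finsupp.weight_single]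
      simp
    rw [h2] at h1
    omega
  · ext γ
    rw [X_pow_eq_monomial, coeff_monomial_mul']
    split_ifs with h1
    · rw [one_mul, coeff_divMonomial, add_tsub_cancel_of_le h1]
    · by_contra hcon
      apply h1
      have h2 := h γ (mem_support_iff.mpr hcon)
      rw [Finsupp.single_le_iff]
      exact h2

theorem onLine_e1_e0_monomial (β : Fin 3 →₀ ℕ) (a : ℂ) :
    onLine e1 e0 (monomial β a) =
      Polynomial.C (a * (if β 2 = 0 then 1 else 0)) * Polynomial.X ^ β 0 := by
  unfold onLine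
  rw [aeval_monomial, Finsupp.prod_fintype _ _ (fun i => pow_zero _), Fin.prod_univ_three]
  simp only [e1, e0, Matrix.cons_val_zero, Matrix.cons_val_one, Matrix.cons_val]
  rw [Polynomial.algebraMap_eq]
  split_ifs with h
  · rw [h]
    simp
  · simp [zero_pow h]

theorem onLine_e1_e0 (F : R3) :
    onLine e1 e0 F = ∑ β ∈ F.support,
      Polynomial.C (coeff β F * (if β 2 = 0 then 1 else 0)) * Polynomial.X ^ β 0 := by
  conv_lhs => rw [← support_sum_monomial_coeff F]
  rw [map_sum]
  exact Finset.sum_congr rfl (fun β _ => onLine_e1_e0_monomial β _)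

theorem flagSub_e1_e0 {F : R3} {A : ℕ} (h : ∀ β : Fin 3 →₀ ℕ, β 2 = 0 → β 0 < A → coeff β F = 0) :
    F ∈ flagSub e1 e0 A := by
  intro k hk
  rw [onLine_e1_e0, Polynomial.finsetSum_coeff]
  refine Finset.sum_eq_zero (fun β _ => ?_)
  rw [Polynomial.coeff_C_mul_X_pow]
  split_ifs with h1 h2
  · rw [h β h2 (by omega), zero_mul]
  · rw [mul_zero]
  · rfl

/-! ### the step -/

theorem step_of_kills {r : ℕ} {δ u a N : ℕ} {y y' : Fin r → ℕ} {J : Finset (Fin r)}
    (hJ : ∀ i ∈ J, y i = u ∧ y' i = 0) (hJ' : ∀ i ∉ J, y' i = y i)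
    (hcard : J.card = N) (hu : 1 ≤ u) (ha : a ≤ δ + 1)
    (hkill : Kills (δ + u) u N {α | α 2 < u ∨ (α 2 = u ∧ α 0 < a)})
    {e n : ℕ} {A : ℕ → ℕ} (hA : A e = a) (hgood : Good δ y' (e + 1) A n) :
    Good (δ + u) y e A n := by
  classical
  obtain ⟨p, q, v, hn, hp, hq, hqe, hve⟩ := exists_normal hgood
  obtain ⟨P, hP, hkill⟩ := hkill
  let M := δ + u + 1
  let w : Fin 3 → ℕ := ![1, 0, M]
  have hw : ∀ α : Fin 3 →₀ ℕ, wt3 w α = α 0 + M * α 2 := by
    intro α
    unfold wt3
    simp [Fin.sum_univ_three, w]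
  let c := M * u + a - 1
  have hc : ∀ α : Fin 3 →₀ ℕ, α.degree = δ + u → (wt3 w α ≤ c ↔
      (α 2 < u ∨ (α 2 = u ∧ α 0 < a))) := by
    intro α hα
    rw [hw, Finsupp.degree_eq_sum, Fin.sum_univ_three] at *
    have hMu : 1 ≤ M * u := Nat.mul_pos (Nat.succ_pos _) hu
    have h0 : α 0 < M := by omega
    constructor
    · intro h
      by_cases h1 : α 2 < u
      · exact Or.inl h1
      · right
        have h2 : M * u ≤ M * α 2 := Nat.mul_le_mul_left _ (by omega)
        have h3 : α 2 = u := by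
          by_contra hcon
          have h4 : M * (u + 1) ≤ M * α 2 := Nat.mul_le_mul_left _ (by omega)
          rw [mul_add, mul_one] at h4
          have h5 : M = δ + u + 1 := rfl
          have h6 : c = M * u + a - 1 := rfl
          omega
        refine ⟨h3, ?_⟩
        rw [h3] at h
        omega
    · rintro (h | ⟨h1, h2⟩)
      · have h3 : M * (α 2 + 1) ≤ M * u := Nat.mul_le_mul_left _ (by omega)
        rw [mul_add, mul_one] at h3
        omega
      · rw [h1]
        omega
  have hdeg : ∀ {F : R3}, F.IsHomogeneous (δ + u) → ∀ α ∈ F.support, α.degree = δ + u :=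
    fun hF α hα => degree_of_mem_support hF (mem_support_iff.mp hα)
  obtain ⟨τ, hτ, h1⟩ := cut (D := δ + u) w c P (fun _ => u) Set.univ
    (fun G hG hG' hG'' => hkill G hG (fun α hα => (hc α (hdeg hG α hα)).mp (hG' α hα).2) hG'')
    (Sys (δ + u) y' e A p q v) (fun F hF => ⟨(mem_Sys.mp hF).1, fun _ _ => trivial⟩)
  -- the part on the line at infinity
  have h2 : finrank ℂ ↥(Sys (δ + u) y' e A p q v ⊓ offSub {α | wt3 w α ≤ c}) ≤ n := by
    refine le_trans ?_ hn
    have h3 : Sys (δ + u) y' e A p q v ⊓ offSub {α | wt3 w α ≤ c} ≤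
        (Sys δ y' (e + 1) A p q v).map (LinearMap.mulLeft ℂ (X 2 ^ u : R3)) := by
      intro F hF
      rw [Submodule.mem_inf, mem_Sys, mem_offSub] at hF
      obtain ⟨⟨hF1, hF2, hF3⟩, hF4⟩ := hF
      have hF5 : ∀ α : Fin 3 →₀ ℕ, (α 2 < u ∨ (α 2 = u ∧ α 0 < a)) → coeff α F = 0 := by
        intro α hα
        by_contra hcon
        have h5 := degree_of_mem_support hF1 hcon
        exact hcon (hF4 α ((hc α h5).mpr hα))
      obtain ⟨G, hG1, hG2, hG3⟩ := exists_div_X2 hF1 (fun α hα => by
        by_contra hcon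
        exact (mem_support_iff.mp hα) (hF5 α (Or.inl (by omega))))
      refine Submodule.mem_map.mpr ⟨G, ?_, by rw [LinearMap.mulLeft_apply, hG2]⟩
      rw [mem_Sys]
      refine ⟨hG1, fun i => ?_, fun l hl => ?_⟩
      · have h5 := hF2 i
        rw [hG2] at h5
        exact vanishTo_of_X2_pow_mul (hp i) h5
      · rcases Nat.lt_or_ge l e with h5 | h5
        · have h6 := hF3 l h5
          rw [hG2] at h6
          exact flagSub_of_X2_pow_mul (hq l h5) h6
        · have h6 : l = e := by omega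
          rw [h6, hqe, hve, hA]
          refine flagSub_e1_e0 (fun β hβ hβ' => ?_)
          rw [hG3]
          refine hF5 _ (Or.inr ⟨?_, ?_⟩)
          · rw [Finsupp.add_apply, Finsupp.single_eq_same, hβ, add_zero]
          · rw [Finsupp.add_apply, Finsupp.single_eq_of_ne (by decide), zero_add]
            exact hβ'
    exact (Submodule.finrank_mono h3).trans (Submodule.finrank_map_le _ _)
  -- the new points
  let idx : J ≃ Fin N := Fintype.equivFinOfCardEq (by rw [Fintype.card_coe, hcard])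
  let p' : Fin r → V3 := fun i => if h : i ∈ J then fun k => τ ^ w k * P (idx ⟨i, h⟩) k else p i
  refine ⟨p', q, v, le_trans ?_ (h1.trans h2)⟩
  have h3 : Sys (δ + u) y e A p' q v ≤
      Sys (δ + u) y' e A p q v ⊓ ⨅ k, vanSub (fun i => τ ^ w i * P k i) u := by
    intro F hF
    rw [mem_Sys] at hF
    obtain ⟨hF1, hF2, hF3⟩ := hF
    rw [Submodule.mem_inf, mem_Sys, Submodule.mem_iInf]
    refine ⟨⟨hF1, fun i => ?_, hF3⟩, fun k => ?_⟩
    · by_cases hi : i ∈ J
      · rw [(hJ i hi).2]
        intro k hk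
        exact absurd hk (Nat.not_lt_zero k)
      · have h4 := hF2 i
        have h5 : p' i = p i := dif_neg hi
        rw [h5, ← hJ' i hi] at h4
        exact h4
    · have h4 := hF2 (idx.symm k).1
      have h5 : p' (idx.symm k).1 = fun i => τ ^ w i * P k i := by
        simp only [p']
        rw [dif_pos (idx.symm k).2]
        funext i
        congr 2
        rw [Subtype.coe_eta, Equiv.apply_symm_apply]
      rw [h5, (hJ _ (idx.symm k).2).1] at h4
      exact h4
  have hfin : Module.Finite ℂ ↥(Sys (δ + u) y' e A p q v ⊓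
      ⨅ k, vanSub (fun i => τ ^ w i * P k i) u) :=
    Submodule.finiteDimensional_of_le (inf_le_left.trans (Sys_le _ _ _ _ _ _ _))
  exact Submodule.finrank_mono h3

end Pool.Agent.Work.MP_0421d9_ag.LD
end

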