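import Pool.Agent.Work.Z0421M.C04
import Pool.Agent.Work.Z0421M.C06

section
/-!
The numerical part: in each step there is a multiplicity which occurs sufficiently often.
-/

namespace Pool.Agent.Work.MP_0421d9_ag.LD

open MvPolynomial Module

theorem step {r : ℕ} {δ u a b : ℕ} {y y' : Fin r → ℕ} {J : Finset (Fin r)}
    (hJ : ∀ i ∈ J, y i = u ∧ y' i = 0) (hJ' : ∀ i ∉ J, y' i = y i)
    (hcard : J.card = 2 * (a + b) + 1) (hu : 1 ≤ u) (h : δ + 1 = a * u + b * (u + 1))
    {e n : ℕ} {A : ℕ → ℕ} (hA : A e = a * u) (hgood : Good δ y' (e + 1) A n) :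
    Good (δ + u) y e A n :=
  step_of_kills hJ hJ' hcard hu (by rw [h]; exact Nat.le_add_right _ _)
    (kills_strip u a b δ hu h) hA hgood

/-- the partition of the length of a strip -/
theorem exists_ab {L u κ : ℕ} (hu : 1 ≤ u) (hL : κ + u * (u + 1) ≤ L + 1) :
    ∃ a b, L = a * u + b * (u + 1) ∧ κ ≤ a * u ∧ a * u + 1 ≤ κ + u * (u + 1) := by
  obtain ⟨a₀, h1, h2⟩ : ∃ a₀, κ ≤ a₀ * u ∧ a₀ * u + 1 ≤ κ + u := by
    refine ⟨(κ + u - 1) / u, ?_, ?_⟩
    · have h3 := Nat.div_add_mod (κ + u - 1) u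
      have h4 := Nat.mod_lt (κ + u - 1) (show 0 < u by omega)
      rw [mul_comm] at h3
      omega
    · have h3 := Nat.div_mul_le_self (κ + u - 1) u
      omega
  obtain ⟨s, hs, q, hq⟩ : ∃ s ≤ u, ∃ q, L + a₀ + s = (u + 1) * q := by
    have h3 := Nat.div_add_mod (L + a₀) (u + 1)
    have h4 := Nat.mod_lt (L + a₀) (show 0 < u + 1 by omega)
    rcases Nat.eq_zero_or_pos ((L + a₀) % (u + 1)) with h5 | h5
    · exact ⟨0, Nat.zero_le _, (L + a₀) / (u + 1), by omega⟩
    · refine ⟨u + 1 - (L + a₀) % (u + 1), by omega, (L + a₀) / (u + 1) + 1, ?_⟩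
      rw [mul_add, mul_one]
      omega
  have h3 : (a₀ + s) * u ≤ L := by nlinarith
  have h4 : a₀ + s ≤ q := by
    have h5 : (a₀ + s) * (u + 1) ≤ q * (u + 1) := by nlinarith
    exact Nat.le_of_mul_le_mul_right h5 (Nat.succ_pos _)
  obtain ⟨b, rfl⟩ := Nat.exists_eq_add_of_le h4
  refine ⟨a₀ + s, b, by nlinarith, by nlinarith, by nlinarith⟩

theorem sum_classes {r M : ℕ} (y : Fin r → ℕ) (hy : ∀ i, y i ≤ M) (f : ℕ → ℕ) :
    ∑ i, f (y i) = ∑ u ∈ Finset.range (M + 1),
      (Finset.univ.filter (fun i => y i = u)).card * f u := by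
  classical
  rw [← Finset.sum_fiberwise_of_maps_to (s := Finset.univ) (t := Finset.range (M + 1)) (g := y)
    (fun i _ => Finset.mem_range.mpr (Nat.lt_succ_of_le (hy i)))]
  refine Finset.sum_congr rfl (fun u _ => ?_)
  rw [Finset.sum_congr rfl (fun i hi => by rw [(Finset.mem_filter.mp hi).2] :
    ∀ i ∈ Finset.univ.filter (fun i => y i = u), f (y i) = f u), Finset.sum_const, smul_eq_mul]

theorem sum_range_succ_mul (M D : ℕ) :
    ∑ u ∈ Finset.range (M + 1), (if u = 0 then 0 else 2 * D * (u + 1)) = D * (M * (M + 3)) := by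
  induction M with
  | zero => simp
  | succ M ih =>
    rw [Finset.sum_range_succ, ih, if_neg (Nat.succ_ne_zero M)]
    ring

/-- some multiplicity occurs sufficiently often -/
theorem exists_class {r M D : ℕ} (y : Fin r → ℕ) (hy : ∀ i, y i ≤ M) (nb : ℕ → ℕ)
    (hnb : ∀ u, 1 ≤ u → u ≤ M → nb u * u ≤ D)
    (hbig : D * (M * (M + 3)) < 2 * ∑ i, (y i + 1).choose 2) :
    ∃ u, 1 ≤ u ∧ u ≤ M ∧ 2 * nb u + 1 ≤ (Finset.univ.filter (fun i => y i = u)).card := by
  by_contra hcon
  push Not at hcon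
  rw [sum_classes y hy (fun u => (u + 1).choose 2), Finset.mul_sum,
    ← sum_range_succ_mul M D] at hbig
  refine absurd hbig (not_lt.mpr (Finset.sum_le_sum (fun u hu => ?_)))
  rw [Finset.mem_range] at hu
  split_ifs with h0
  · subst h0
    simp
  · have h1 := hcon u (by omega) (by omega)
    have h2 : (Finset.univ.filter (fun i => y i = u)).card ≤ 2 * nb u := by omega
    have h3 := hnb u (by omega) (by omega)
    have h4 := two_mul_choose u
    calc 2 * ((Finset.univ.filter (fun i => y i = u)).card * (u + 1).choose 2)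
        = (Finset.univ.filter (fun i => y i = u)).card * (u * (u + 1)) := by rw [← h4]; ring
      _ ≤ 2 * nb u * (u * (u + 1)) := Nat.mul_le_mul_right _ h2
      _ = 2 * (nb u * u) * (u + 1) := by ring
      _ ≤ 2 * D * (u + 1) := Nat.mul_le_mul_right _ (Nat.mul_le_mul_left _ h3)

/-- the number of the monomials in a strip -/
theorem strip_count {δ u a b : ℕ} (h : δ + 1 = a * u + b * (u + 1)) :
    (δ + u + 2).choose 2 + a * u = (δ + 2).choose 2 + (2 * (a + b) + 1) * (u + 1).choose 2 := by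
  have h1 := two_mul_choose (δ + u + 1)
  have h2 := two_mul_choose (δ + 1)
  have h3 := two_mul_choose u
  have h4 : δ + u + 1 + 1 = δ + u + 2 := rfl
  have h5 : δ + 1 + 1 = δ + 2 := rfl
  rw [h4] at h1
  rw [h5] at h2
  have h6 : 2 * ((δ + u + 2).choose 2 + a * u) =
      2 * ((δ + 2).choose 2 + (2 * (a + b) + 1) * (u + 1).choose 2) := by
    rw [Nat.mul_add 2 ((δ + u + 2).choose 2), h1, Nat.mul_add 2 ((δ + 2).choose 2), h2]
    have h7 : 2 * ((2 * (a + b) + 1) * (u + 1).choose 2) = (2 * (a + b) + 1) * (u * (u + 1)) := by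
      rw [← h3]; ring
    rw [h7]
    have h8 : δ + u + 1 = a * u + b * (u + 1) + u := by omega
    have h9 : δ + u + 2 = a * u + b * (u + 1) + u + 1 := by omega
    have h10 : δ + 2 = a * u + b * (u + 1) + 1 := by omega
    rw [h8, h9, h10, h]
    ring
  omega

theorem main_aux {r M : ℕ} {p : Fin r → V3} (hp : GenericPoints p) (hM : 1 ≤ M) {e δ₀ κ Am : ℕ}
    (hκ : κ = (M - 1) * (M - 1)) (hAm : Am + 1 = κ + M * (M + 1))
    (N1 : 2 * ((M + 1).choose 3 + κ + e * Am) + e * e ≤ e * (2 * δ₀ + 3))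
    (N2 : Am + e ≤ δ₀ + 1)
    (N3 : ∀ D, δ₀ + M ≤ D → D * (M * (M + 3)) + 2 * (e * Am + κ) < (D + 1) * (D + 2)) :
    ∀ (t k : ℕ), k + t = e → ∀ (y : Fin r → ℕ), (∀ i, y i ≤ M) → ∀ D, δ₀ + t * M ≤ D →
      ∀ A : ℕ → ℕ, (∀ l < k, κ ≤ A l ∧ A l ≤ Am) →
      (D + 2).choose 2 ≤ ∑ i, (y i + 1).choose 2 + ∑ l ∈ Finset.range k, A l + κ →
      Good D y k A
        ((D + 2).choose 2 - (∑ i, (y i + 1).choose 2 + ∑ l ∈ Finset.range k, A l)) := by
  classical
  intro t
  induction t with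
  | zero =>
    intro k hk y hy D hD A hA hχ
    have hke : k = e := by omega
    subst hke
    have hM2 : 1 * 2 ≤ M * (M + 1) := Nat.mul_le_mul hM (by omega)
    have heD : k ≤ D := by omega
    have hsum : ∑ l ∈ Finset.range k, A l ≤ k * Am := by
      calc ∑ l ∈ Finset.range k, A l ≤ ∑ _l ∈ Finset.range k, Am :=
            Finset.sum_le_sum (fun l hl => (hA l (Finset.mem_range.mp hl)).2)
        _ = k * Am := by rw [Finset.sum_const, Finset.card_range, smul_eq_mul]
    refine base hp y hy D k A (fun l hl => hκ ▸ (hA l hl).1) (fun l hl => ?_) ?_ heD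
    · have := (hA l hl).2
      omega
    · have h1 := two_mul_choose (D + 1)
      have h2 := two_mul_choose (D - k + 1)
      have h3 : D + 1 + 1 = D + 2 := rfl
      have h4 : D - k + 1 + 1 = D - k + 2 := rfl
      rw [h3] at h1
      rw [h4] at h2
      obtain ⟨D', rfl⟩ := Nat.exists_eq_add_of_le heD
      rw [Nat.add_sub_cancel_left] at *
      have h5 : k * (2 * δ₀ + 3) ≤ k * (2 * (k + D') + 3) := Nat.mul_le_mul_left _ (by omega)
      have h6 : (k + D' + 1) * (k + D' + 2) + k * k =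
          (D' + 1) * (D' + 2) + k * (2 * (k + D') + 3) := by ring
      omega
  | succ t ih =>
    intro k hk y hy D hD A hA hχ
    have hMt : (t + 1) * M = t * M + M := by ring
    rw [hMt] at hD
    have hsum : ∑ l ∈ Finset.range k, A l ≤ e * Am := by
      calc ∑ l ∈ Finset.range k, A l ≤ ∑ _l ∈ Finset.range k, Am :=
            Finset.sum_le_sum (fun l hl => (hA l (Finset.mem_range.mp hl)).2)
        _ = k * Am := by rw [Finset.sum_const, Finset.card_range, smul_eq_mul]
        _ ≤ e * Am := Nat.mul_le_mul_right _ (by omega)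
    have htM : 0 ≤ t * M := Nat.zero_le _
    -- partitions
    have hpart : ∀ u, 1 ≤ u → u ≤ M → ∃ a b, D + 1 - u = a * u + b * (u + 1) ∧ κ ≤ a * u ∧
        a * u ≤ Am := by
      intro u hu huM
      have h1 : u * (u + 1) ≤ M * (M + 1) := Nat.mul_le_mul huM (by omega)
      obtain ⟨a, b, h2, h3, h4⟩ := exists_ab (L := D + 1 - u) (κ := κ) hu (by omega)
      exact ⟨a, b, h2, h3, by omega⟩
    choose! fa fb hab using hpart
    obtain ⟨u, hu, huM, hcard⟩ := exists_class (D := D) y hy (fun u => fa u + fb u)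
      (fun u hu huM => by
        have h1 := (hab u hu huM).1
        have h2 : (fa u + fb u) * u ≤ fa u * u + fb u * (u + 1) := by nlinarith
        change (fa u + fb u) * u ≤ D
        omega)
      (by
        have h1 := N3 D (by omega)
        have h2 := two_mul_choose (D + 1)
        have h3 : D + 1 + 1 = D + 2 := rfl
        rw [h3] at h2
        omega)
    obtain ⟨h1, h2, h3⟩ := hab u hu huM
    obtain ⟨J, hJ, hJcard⟩ := Finset.exists_subset_card_eq hcard
    have hδ : D = D - u + u := by omega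
    set δ := D - u with hδdef
    have h4 : δ + 1 = fa u * u + fb u * (u + 1) := by omega
    let y' : Fin r → ℕ := fun i => if i ∈ J then 0 else y i
    have hJ1 : ∀ i ∈ J, y i = u ∧ y' i = 0 := fun i hi =>
      ⟨(Finset.mem_filter.mp (hJ hi)).2, if_pos hi⟩
    have hJ2 : ∀ i ∉ J, y' i = y i := fun i hi => if_neg hi
    have hsumy : ∑ i, (y' i + 1).choose 2 + (2 * (fa u + fb u) + 1) * (u + 1).choose 2 =
        ∑ i, (y i + 1).choose 2 := by
      rw [← Finset.sum_add_sum_compl J (fun i => (y' i + 1).choose 2),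
        ← Finset.sum_add_sum_compl J (fun i => (y i + 1).choose 2)]
      have h5 : ∑ i ∈ J, (y' i + 1).choose 2 = 0 :=
        Finset.sum_eq_zero (fun i hi => by rw [(hJ1 i hi).2]; rfl)
      have h6 : ∑ i ∈ J, (y i + 1).choose 2 = (2 * (fa u + fb u) + 1) * (u + 1).choose 2 := by
        rw [Finset.sum_congr rfl (fun i hi => by rw [(hJ1 i hi).1] :
          ∀ i ∈ J, (y i + 1).choose 2 = (u + 1).choose 2), Finset.sum_const, smul_eq_mul, hJcard]
      have h7 : ∑ i ∈ Jᶜ, (y' i + 1).choose 2 = ∑ i ∈ Jᶜ, (y i + 1).choose 2 :=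
        Finset.sum_congr rfl (fun i hi => by rw [hJ2 i (Finset.mem_compl.mp hi)])
      rw [h5, h6, h7]
      ring
    let A' : ℕ → ℕ := Function.update A k (fa u * u)
    have hA'k : A' k = fa u * u := Function.update_self _ _ _
    have hA'l : ∀ l, l ≠ k → A' l = A l := fun l hl => Function.update_of_ne hl _ _
    have hsumA : ∑ l ∈ Finset.range (k + 1), A' l = ∑ l ∈ Finset.range k, A l + fa u * u := by
      rw [Finset.sum_range_succ, hA'k]
      congr 1
      exact Finset.sum_congr rfl (fun l hl => hA'l l (by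
        have := Finset.mem_range.mp hl
        omega))
    have hcount := strip_count h4
    rw [← hδ] at hcount
    have hgood := ih (k + 1) (by omega) y' (fun i => by
      by_cases hi : i ∈ J
      · rw [(hJ1 i hi).2]; exact Nat.zero_le _
      · rw [hJ2 i hi]; exact hy i) δ (by omega) A' (fun l hl => by
        by_cases hlk : l = k
        · rw [hlk, hA'k]; exact ⟨h2, h3⟩
        · rw [hA'l l hlk]; exact hA l (by omega)) (by rw [hsumA]; omega)
    have hstep := step hJ1 hJ2 hJcard hu h4 hA'k hgood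
    rw [← hδ, hsumA] at hstep
    have hval : (δ + 2).choose 2 - (∑ i, (y' i + 1).choose 2 +
        (∑ l ∈ Finset.range k, A l + fa u * u)) =
        (D + 2).choose 2 - (∑ i, (y i + 1).choose 2 + ∑ l ∈ Finset.range k, A l) := by omega
    rw [hval] at hstep
    obtain ⟨p', q, v, h5⟩ := hstep
    refine ⟨p', q, v, ?_⟩
    have h6 : Sys D y k A' p' q v = Sys D y k A p' q v := by
      ext F
      rw [mem_Sys, mem_Sys]
      have h7 : ∀ l < k, A' l = A l := fun l hl => hA'l l (by omega)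
      constructor
      · rintro ⟨h8, h9, h10⟩
        exact ⟨h8, h9, fun l hl => h7 l hl ▸ h10 l hl⟩
      · rintro ⟨h8, h9, h10⟩
        exact ⟨h8, h9, fun l hl => (h7 l hl).symm ▸ h10 l hl⟩
    rw [← h6]
    exact h5

/-- nonspeciality, from numerical conditions on the number `e` of the steps -/
theorem main_of_nums {r d M : ℕ} {p : Fin r → V3} (hp : GenericPoints p) {m : Fin r → ℕ}
    (hM : ∀ i, m i ≤ M) (hM1 : 1 ≤ M) {e δ₀ κ Am : ℕ}
    (hκ : κ = (M - 1) * (M - 1)) (hAm : Am + 1 = κ + M * (M + 1))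
    (N1 : 2 * ((M + 1).choose 3 + κ + e * Am) + e * e ≤ e * (2 * δ₀ + 3))
    (N2 : Am + e ≤ δ₀ + 1)
    (N3 : ∀ D, δ₀ + M ≤ D → D * (M * (M + 3)) + 2 * (e * Am + κ) < (D + 1) * (D + 2))
    (hd : δ₀ + e * M ≤ d) (hMd : M ≤ d + 1) :
    finrank ℂ (linSys d p m) = (d + 2).choose 2 - ∑ i, (m i + 1).choose 2 := by
  by_cases hχ : ∑ i, (m i + 1).choose 2 + (M - 1) * (M - 1) < (d + 2).choose 2
  · have h1 := window_nonspecial hp hM hχ
    omega
  have hlow : (d + 2).choose 2 ≤ finrank ℂ (linSys d p m) + ∑ i, (m i + 1).choose 2 :=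
    chi_le (fun i => (hM i).trans hMd)
  obtain ⟨p₀, q, v, h4⟩ := main_aux hp hM1 hκ hAm N1 N2 N3 e 0 (by omega) m hM d hd
    (fun _ => 0) (fun l hl => absurd hl (Nat.not_lt_zero l))
    (by rw [Finset.range_zero, Finset.sum_empty, add_zero, hκ]; omega)
  rw [Sys_zero, Finset.range_zero, Finset.sum_empty, add_zero] at h4
  have h5 := (generic_le hp d m p₀).trans h4
  exact le_antisymm h5 (Nat.sub_le_iff_le_add.mpr hlow)

theorem six_mul_choose (N : ℕ) : 6 * (N + 2).choose 3 = (N + 2) * (N + 1) * N := by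
  have h1 := Nat.choose_succ_right_eq (N + 2) 2
  have h2 := two_mul_choose (N + 1)
  have h3 : N + 1 + 1 = N + 2 := rfl
  rw [h3] at h2
  have h4 : N + 2 - 2 = N := by omega
  rw [h4] at h1
  calc 6 * (N + 2).choose 3 = 2 * ((N + 2).choose (2 + 1) * (2 + 1)) := by ring
    _ = 2 * (N + 2).choose 2 * N := by rw [h1]; ring
    _ = (N + 2) * (N + 1) * N := by rw [h2]; ring

/-- SHGH in large degree: a planar linear system with generic base points of multiplicity at most
`M` is nonspecial if its degree is at least `3 M ^ 2` -/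
theorem main {r d M : ℕ} {p : Fin r → V3} (hp : GenericPoints p) {m : Fin r → ℕ}
    (hM : ∀ i, m i ≤ M) (hd : 3 * M ^ 2 ≤ d) :
    finrank ℂ (linSys d p m) = (d + 2).choose 2 - ∑ i, (m i + 1).choose 2 := by
  rcases Nat.eq_zero_or_pos M with hM0 | hM1
  · have h1 : ∑ i, (m i + 1).choose 2 = 0 := Finset.sum_eq_zero (fun i _ => by
      have := hM i
      have h2 : m i = 0 := by omega
      rw [h2]
      rfl)
    have h2 : 0 < (d + 2).choose 2 := Nat.choose_pos (by omega)
    have h3 := window_nonspecial hp hM (by rw [h1, hM0]; simpa using h2)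
    omega
  rcases Nat.even_or_odd' (M - 1) with ⟨f, hf | hf⟩
  · obtain rfl : M = 2 * f + 1 := by omega
    have h3 := six_mul_choose (2 * f)
    have h30 : 3 * (2 * f + 1) ^ 2 = 10 * f ^ 2 + 9 * f + 2 + (f + 1) * (2 * f + 1) := by ring
    refine main_of_nums hp hM (by omega) (e := f + 1) (δ₀ := 10 * f ^ 2 + 9 * f + 2)
      (κ := 4 * f ^ 2) (Am := 8 * f ^ 2 + 6 * f + 1) ?_ (by ring) ?_ (by nlinarith) ?_
      (by omega) (by nlinarith)
    · rw [Nat.add_sub_cancel]; ring
    · have h4 : 2 * f + 1 + 1 = 2 * f + 2 := rfl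
      rw [h4]
      have h5 : (2 * f + 2) * (2 * f + 1) * (2 * f) = 8 * f ^ 3 + 12 * f ^ 2 + 4 * f := by ring
      rw [h5] at h3
      have h6 : 9 * f ^ 2 ≤ 4 * f ^ 3 + 23 * f + 12 := by
        have h7 : (9 * f ^ 2 : ℤ) ≤ 4 * f ^ 3 + 23 * f + 12 := by
          nlinarith [mul_nonneg (Int.natCast_nonneg f) (sq_nonneg (2 * (f : ℤ) - 3)),
            Int.natCast_nonneg f]
        exact_mod_cast h7
      nlinarith
    · intro D hD
      obtain ⟨x, rfl⟩ := Nat.exists_eq_add_of_le hD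
      have h7 : (10 * f ^ 2 + 9 * f + 2 + (2 * f + 1) + x) * ((2 * f + 1) * (2 * f + 1 + 3)) +
          2 * ((f + 1) * (8 * f ^ 2 + 6 * f + 1) + 4 * f ^ 2) +
          (60 * f ^ 4 + 60 * f ^ 3 + 13 * f ^ 2 + 11 * f + 6 + x * (16 * f ^ 2 + 12 * f + 5) +
            x ^ 2) =
          (10 * f ^ 2 + 9 * f + 2 + (2 * f + 1) + x + 1) *
            (10 * f ^ 2 + 9 * f + 2 + (2 * f + 1) + x + 2) := by ring
      omega
  · obtain rfl : M = 2 * f + 2 := by omega
    have h3 := six_mul_choose (2 * f + 1)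
    have h30 : 3 * (2 * f + 2) ^ 2 = 10 * f ^ 2 + 20 * f + 10 + (f + 1) * (2 * f + 2) := by ring
    refine main_of_nums hp hM (by omega) (e := f + 1) (δ₀ := 10 * f ^ 2 + 20 * f + 10)
      (κ := (2 * f + 1) ^ 2) (Am := 8 * f ^ 2 + 14 * f + 6) ?_ (by ring) ?_ (by nlinarith) ?_
      (by omega) (by nlinarith)
    · have h4 : 2 * f + 2 - 1 = 2 * f + 1 := by omega
      rw [h4]; ring
    · have h4 : 2 * f + 2 + 1 = 2 * f + 1 + 2 := by omega
      rw [h4]
      have h5 : (2 * f + 1 + 2) * (2 * f + 1 + 1) * (2 * f + 1) =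
          8 * f ^ 3 + 24 * f ^ 2 + 22 * f + 6 := by ring
      rw [h5] at h3
      have h6 : 3 * f ^ 2 ≤ 4 * f ^ 3 + 17 * f + 18 := by
        have h7 : (3 * f ^ 2 : ℤ) ≤ 4 * f ^ 3 + 17 * f + 18 := by
          nlinarith [mul_nonneg (Int.natCast_nonneg f) (sq_nonneg (2 * (f : ℤ) - 1)),
            Int.natCast_nonneg f]
        exact_mod_cast h7
      nlinarith
    · intro D hD
      obtain ⟨x, rfl⟩ := Nat.exists_eq_add_of_le hD
      have h7 : (10 * f ^ 2 + 20 * f + 10 + (2 * f + 2) + x) *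
          ((2 * f + 2) * (2 * f + 2 + 3)) +
          2 * ((f + 1) * (8 * f ^ 2 + 14 * f + 6) + (2 * f + 1) ^ 2) +
          (60 * f ^ 4 + 196 * f ^ 3 + 246 * f ^ 2 + 158 * f + 48 +
            x * (16 * f ^ 2 + 30 * f + 17) + x ^ 2) =
          (10 * f ^ 2 + 20 * f + 10 + (2 * f + 2) + x + 1) *
            (10 * f ^ 2 + 20 * f + 10 + (2 * f + 2) + x + 2) := by ring
      omega

end Pool.Agent.Work.MP_0421d9_ag.LD
end

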