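import Pool.Agent.Work.Z0421M.C03
import Pool.Agent.Work.Z0421M.C06
import Pool.Agent.Work.Z0421M.C07

section
/-!
Forms with prescribed monomials and with assigned multiplicities at generic points.
-/

namespace Pool.Agent.Work.MP_0421d9_ag.LD

open MvPolynomial Module

/-- forms of degree `D` with all exponents in `T`, with multiplicity at least `m` at the points -/
noncomputable def TS {N : ℕ} (D : ℕ) (T : Set (Fin 3 →₀ ℕ)) (m : ℕ) (p : Fin N → V3) :
    Submodule ℂ R3 := linSys D p (fun _ => m) ⊓ offSub Tᶜ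

theorem mem_TS {N D m : ℕ} {T : Set (Fin 3 →₀ ℕ)} {p : Fin N → V3} {F : R3} : F ∈ TS D T m p ↔
    F.IsHomogeneous D ∧ (∀ i, VanishTo F (p i) m) ∧ ∀ α, coeff α F ≠ 0 → α ∈ T := by
  unfold TS
  rw [Submodule.mem_inf, mem_offSub]
  constructor
  · rintro ⟨⟨h1, h2⟩, h3⟩
    refine ⟨h1, h2, fun α hα => ?_⟩
    by_contra hcon
    exact hα (h3 α hcon)
  · rintro ⟨h1, h2, h3⟩
    refine ⟨⟨h1, h2⟩, fun α hα => ?_⟩
    by_contra hcon
    exact hα (h3 α hcon)

theorem TS_le {N : ℕ} (D : ℕ) (T : Set (Fin 3 →₀ ℕ)) (m : ℕ) (p : Fin N → V3) :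
    TS D T m p ≤ Rd D := fun _ hF => (mem_TS.mp hF).1

instance finite_TS {N : ℕ} (D : ℕ) (T : Set (Fin 3 →₀ ℕ)) (m : ℕ) (p : Fin N → V3) :
    Module.Finite ℂ (TS D T m p) :=
  Submodule.finiteDimensional_of_le (TS_le D T m p)

theorem exists_generic (N : ℕ) : ∃ p : Fin N → V3, GenericPoints p := by
  obtain ⟨s, hs⟩ := exists_extension (ι := Fin 0) (κ := Fin N) (fun i => i.elim0)
    (algebraicIndependent_empty_type)
  refine ⟨s, ?_⟩
  have h1 := AlgebraicIndependent.comp hs
    (fun z : Fin N × Fin 3 => ((Sum.inr z.1, z.2) : (Fin 0 ⊕ Fin N) × Fin 3)) (by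
      rintro ⟨a, b⟩ ⟨c, d⟩ h
      simp only [Prod.mk.injEq, Sum.inr.injEq] at h
      exact Prod.ext h.1 h.2)
  exact h1

/-- some generic points -/
noncomputable def gpt (N : ℕ) : Fin N → V3 := (exists_generic N).choose

theorem gpt_generic (N : ℕ) : GenericPoints (gpt N) := (exists_generic N).choose_spec

/-- the dimension for generic points -/
noncomputable def hT (D : ℕ) (T : Set (Fin 3 →₀ ℕ)) (m N : ℕ) : ℕ := finrank ℂ (TS D T m (gpt N))

/-! ### generic points give the smallest dimension -/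

section map

variable (σ : ℂ ≃+* ℂ)

theorem map_mem_TS {N D m : ℕ} {T : Set (Fin 3 →₀ ℕ)} {p : Fin N → V3} {F : R3}
    (h : F ∈ TS D T m p) : map σ.toRingHom F ∈ TS D T m (fun i k => σ (p i k)) := by
  rw [mem_TS] at h ⊢
  obtain ⟨h1, h2, h3⟩ := h
  have h4 : F ∈ linSys D p (fun _ => m) := ⟨h1, h2⟩
  have h5 := map_mem_linSys σ h4
  refine ⟨h5.1, h5.2, fun α hα => h3 α fun h6 => hα ?_⟩
  rw [coeff_map, h6, map_zero]

theorem finrank_TS_map {N : ℕ} (D : ℕ) (T : Set (Fin 3 →₀ ℕ)) (m : ℕ) (p : Fin N → V3) :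
    finrank ℂ (TS D T m p) = finrank ℂ (TS D T m (fun i k => σ (p i k))) := by
  have h1 : ∀ F ∈ TS D T m (fun i k => σ (p i k)), map σ.symm.toRingHom F ∈ TS D T m p := by
    intro F hF
    have h2 := map_mem_TS σ.symm hF
    have h3 : (fun (i : Fin N) (k : Fin 3) => σ.symm (σ (p i k))) = p := by
      funext i k
      exact σ.symm_apply_apply _
    rwa [h3] at h2
  let j : TS D T m p ≃+ TS D T m (fun i k => σ (p i k)) :=
    { toFun := fun F => ⟨map σ.toRingHom F.1, map_mem_TS σ F.2⟩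
      invFun := fun F => ⟨map σ.symm.toRingHom F.1, h1 F.1 F.2⟩
      left_inv := fun F => Subtype.ext (map_symm_map σ F.1)
      right_inv := fun F => Subtype.ext (map_map_symm σ F.1)
      map_add' := fun F G => Subtype.ext (map_add _ F.1 G.1) }
  have h2 := rank_eq_of_equiv_equiv (fun c : ℂ => σ c) j σ.bijective (by
    intro c F
    apply Subtype.ext
    change map σ.toRingHom (c • F.1) = σ c • map σ.toRingHom F.1
    rw [smul_eq_C_mul, smul_eq_C_mul, map_mul, map_C]
    rfl)
  unfold Module.finrank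
  rw [h2]

end map

theorem TS_eq {N : ℕ} (D : ℕ) (T : Set (Fin 3 →₀ ℕ)) (m : ℕ) (p : Fin N → V3) :
    TS D T m p = (Rd D ⊓ offSub Tᶜ) ⊓ ⨅ i, vanSub (p i) m := by
  ext F
  rw [mem_TS, Submodule.mem_inf, Submodule.mem_inf, Submodule.mem_iInf, mem_offSub]
  constructor
  · rintro ⟨h1, h2, h3⟩
    refine ⟨⟨h1, fun α hα => ?_⟩, h2⟩
    by_contra hcon
    exact hα (h3 α hcon)
  · rintro ⟨⟨h1, h3⟩, h2⟩
    refine ⟨h1, h2, fun α hα => ?_⟩
    by_contra hcon
    exact hα (h3 α hcon)

theorem TS_generic_le {N D m : ℕ} {T : Set (Fin 3 →₀ ℕ)} {p : Fin N → V3} (hp : GenericPoints p)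
    (p₀ : Fin N → V3) : finrank ℂ (TS D T m p) ≤ finrank ℂ (TS D T m p₀) := by
  classical
  obtain ⟨c₁, hc₁⟩ := exists_extension (κ := Fin N) p hp
  have hfam : PolyFam (fun τ => ⨅ i, vanSub (fun k => (Polynomial.C (p₀ i k) +
      Polynomial.X * Polynomial.C (c₁ i k - p₀ i k)).eval τ) m) :=
    PolyFam.iInf (fun i => polyFam_van (fun k => Polynomial.C (p₀ i k) +
      Polynomial.X * Polynomial.C (c₁ i k - p₀ i k)) m)
  have hfin : Module.Finite ℂ ↥(Rd D ⊓ offSub Tᶜ : Submodule ℂ R3) :=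
    Submodule.finiteDimensional_of_le inf_le_left
  obtain ⟨g, hg, h1⟩ := hfam.semicont (Rd D ⊓ offSub Tᶜ) 0
  have h1' : ∀ τ, g.eval τ ≠ 0 →
      finrank ℂ (TS D T m (fun i k => p₀ i k + τ * (c₁ i k - p₀ i k))) ≤
        finrank ℂ (TS D T m p₀) := by
    intro τ hτ
    have h2 := h1 τ hτ
    rw [TS_eq, TS_eq]
    have e1 : ∀ τ : ℂ, (fun i : Fin N => vanSub (fun k => (Polynomial.C (p₀ i k) +
        Polynomial.X * Polynomial.C (c₁ i k - p₀ i k)).eval τ) m) =
        fun i => vanSub (fun k => p₀ i k + τ * (c₁ i k - p₀ i k)) m := by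
      intro τ
      funext i
      congr 1
      funext k
      simp only [Polynomial.eval_add, Polynomial.eval_mul, Polynomial.eval_C, Polynomial.eval_X]
    have e2 : (fun i : Fin N => vanSub (fun k => p₀ i k + 0 * (c₁ i k - p₀ i k)) m) =
        fun i => vanSub (p₀ i) m := by
      funext i
      congr 1
      funext k
      ring
    rw [e1, e1, e2] at h2
    exact h2
  obtain ⟨t, ht, hind⟩ := exists_line
    (fun z : (Fin N ⊕ Fin N) × Fin 3 => Sum.elim p p₀ z.1 z.2) _ hc₁
    (S := {t | g.eval t = 0}) (Set.Finite.countable (by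
      refine (g.roots.toFinset.finite_toSet).subset ?_
      intro t ht
      rw [Finset.mem_coe, Multiset.mem_toFinset, Polynomial.mem_roots (ne_zero_of_eval hg)]
      exact ht))
  have h2 := h1' t ht
  set c : Fin N → V3 := fun i k => p₀ i k + t * (c₁ i k - p₀ i k) with hc
  have h3 : (fun z : (Fin N ⊕ Fin N) × Fin 3 => (fun z : (Fin N ⊕ Fin N) × Fin 3 =>
      Sum.elim p p₀ z.1 z.2) z + t * ((fun z : (Fin N ⊕ Fin N) × Fin 3 =>
      Sum.elim p c₁ z.1 z.2) z - (fun z : (Fin N ⊕ Fin N) × Fin 3 => Sum.elim p p₀ z.1 z.2) z)) =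
      fun z => Sum.elim p c z.1 z.2 := by
    funext z
    rcases z with ⟨i | i, k⟩
    · simp
    · simp [hc]
  rw [h3] at hind
  obtain ⟨s, hs⟩ := exists_auto hind (Equiv.sumComm (Fin N) (Fin N))
  have h4 : (fun (i : Fin N) (k : Fin 3) => s (p i k)) = c := by
    funext i k
    exact hs (Sum.inl i) k
  rw [finrank_TS_map s D T m p, h4]
  exact h2

/-- semicontinuity: arbitrary points bound the generic value -/
theorem hT_le {N D m : ℕ} {T : Set (Fin 3 →₀ ℕ)} (p : Fin N → V3) :
    hT D T m N ≤ finrank ℂ (TS D T m p) :=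
  TS_generic_le (gpt_generic N) p

theorem hT_eq {N D m : ℕ} {T : Set (Fin 3 →₀ ℕ)} {p : Fin N → V3} (hp : GenericPoints p) :
    finrank ℂ (TS D T m p) = hT D T m N :=
  le_antisymm (TS_generic_le hp _) (hT_le p)

theorem hT_mono {D m N : ℕ} {T T' : Set (Fin 3 →₀ ℕ)} (h : ∀ α, α.degree = D → α ∈ T → α ∈ T') :
    hT D T m N ≤ hT D T' m N := by
  unfold hT
  apply Submodule.finrank_mono
  intro F hF
  rw [mem_TS] at hF ⊢
  obtain ⟨h1, h2, h3⟩ := hF
  exact ⟨h1, h2, fun α hα => h α (degree_of_mem_support h1 hα) (h3 α hα)⟩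

theorem hT_eq_zero {D m N : ℕ} {T : Set (Fin 3 →₀ ℕ)} (h : ∀ α, α.degree = D → α ∉ T) :
    hT D T m N = 0 := by
  unfold hT
  rw [Submodule.finrank_eq_zero, Submodule.eq_bot_iff]
  intro F hF
  rw [mem_TS] at hF
  obtain ⟨h1, h2, h3⟩ := hF
  ext α
  rw [coeff_zero]
  by_contra hα
  exact h α (degree_of_mem_support h1 hα) (h3 α hα)

/-! ### the number of conditions -/

/-- vanishing to order `m` at a point imposes at most `(m + 1).choose 2` conditions -/
theorem finrank_le_van {D m : ℕ} (a : V3) (U : Submodule ℂ R3) (hU : U ≤ Rd D) :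
    finrank ℂ U ≤ finrank ℂ ↥(U ⊓ vanSub a m) + (m + 1).choose 2 := by
  have hfin : Module.Finite ℂ U := Submodule.finiteDimensional_of_le hU
  rcases Nat.lt_or_ge (D + 1) m with hm | hm
  · have h1 := Submodule.finrank_mono hU
    rw [finrank_Rd] at h1
    have h2 : (D + 2).choose 2 ≤ (m + 1).choose 2 := Nat.choose_le_choose 2 (by omega)
    omega
  · let Φ : R3 →ₗ[ℂ] (Hm m →ₗ[ℂ] ℂ) :=
      { toFun := fun F => (B.flip F) ∘ₗ
          (LinearMap.mulLeft ℂ (lin a ^ (D + 1 - m))) ∘ₗ (Hm m).subtype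
        map_add' := fun F G => by
          ext A
          simp
        map_smul' := fun c F => by
          ext A
          simp }
    have hΦ : ∀ F (G : Hm m), Φ F G = B (lin a ^ (D + 1 - m) * G.1) F := fun F G => rfl
    have h1 : U ⊓ LinearMap.ker Φ ≤ U ⊓ vanSub a m := by
      rintro F ⟨h2, h3⟩
      refine ⟨h2, ?_⟩
      have h4 := LinearMap.mem_ker.mp h3
      change VanishTo F a m
      rw [vanishTo_iff (hU h2) a hm]
      intro G hG
      have h5 := hΦ F ⟨G, hG⟩
      rw [h4] at h5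
      exact h5.symm
    have h2 := finrank_eq_ker_add_map Φ U
    have h3 : finrank ℂ ↥(U.map Φ) ≤ (m + 1).choose 2 := by
      refine (Submodule.finrank_le _).trans ?_
      have h4 : finrank ℂ (Hm m →ₗ[ℂ] ℂ) = finrank ℂ (Hm m) := Subspace.dual_finrank_eq
      rw [h4, finrank_Hm]
    have hfin2 : Module.Finite ℂ ↥(U ⊓ vanSub a m) :=
      Submodule.finiteDimensional_of_le inf_le_left
    have h4 := Submodule.finrank_mono h1
    omega

theorem generic_castLE {N N' : ℕ} (h : N' ≤ N) {p : Fin N → V3} (hp : GenericPoints p) :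
    GenericPoints (fun i : Fin N' => p (Fin.castLE h i)) := by
  have h1 := AlgebraicIndependent.comp hp
    (fun z : Fin N' × Fin 3 => ((Fin.castLE h z.1, z.2) : Fin N × Fin 3)) (by
      rintro ⟨a, b⟩ ⟨c, d⟩ h
      simp only [Prod.mk.injEq] at h
      exact Prod.ext (Fin.castLE_injective _ h.1) h.2)
  exact h1

theorem hT_drop_one {D m N : ℕ} {T : Set (Fin 3 →₀ ℕ)} :
    hT D T m N ≤ hT D T m (N + 1) + (m + 1).choose 2 := by
  have hp := gpt_generic (N + 1)
  have hp' := generic_castLE (Nat.le_succ N) hp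
  rw [← hT_eq (D := D) (m := m) (T := T) hp, ← hT_eq (D := D) (m := m) (T := T) hp']
  refine (finrank_le_van (m := m) (gpt (N + 1) (Fin.last N)) _ (TS_le _ _ _ _)).trans ?_
  apply Nat.add_le_add_right
  apply Submodule.finrank_mono
  rintro F ⟨h1, h2⟩
  rw [SetLike.mem_coe, mem_TS] at h1
  obtain ⟨h3, h4, h5⟩ := h1
  rw [mem_TS]
  refine ⟨h3, fun i => ?_, h5⟩
  refine Fin.lastCases ?_ (fun j => ?_) i
  · exact h2
  · exact h4 j

/-- a point imposes at most `(m + 1).choose 2` conditions -/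
theorem hT_drop {D m N N' : ℕ} {T : Set (Fin 3 →₀ ℕ)} (h : N' ≤ N) :
    hT D T m N' ≤ hT D T m N + (N - N') * (m + 1).choose 2 := by
  induction N, h using Nat.le_induction with
  | base => simp
  | succ n hn ih =>
    have h1 := hT_drop_one (D := D) (m := m) (N := n) (T := T)
    have e1 : n + 1 - N' = (n - N') + 1 := by omega
    rw [e1, Nat.add_mul, Nat.one_mul]
    omega

/-- more points, smaller systems -/
theorem hT_anti {D m N N' : ℕ} {T : Set (Fin 3 →₀ ℕ)} (h : N' ≤ N) :
    hT D T m N ≤ hT D T m N' := by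
  have hp := gpt_generic N
  rw [← hT_eq (D := D) (m := m) (T := T) (generic_castLE h hp)]
  apply Submodule.finrank_mono
  intro F hF
  rw [mem_TS] at hF ⊢
  obtain ⟨h1, h2, h3⟩ := hF
  exact ⟨h1, fun i => h2 _, h3⟩

/-! ### permutations of the coordinates -/

theorem translate_rename (σ : Equiv.Perm (Fin 3)) (a : V3) (F : R3) :
    translate a (rename σ F) = rename σ (translate (fun i => a (σ i)) F) := by
  unfold translate
  induction F using MvPolynomial.induction_on with
  | C c => simp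
  | add f g hf hg => simp only [map_add, hf, hg]
  | mul_X f k hf =>
    rw [map_mul, map_mul, hf, map_mul, map_mul, rename_X, aeval_X, aeval_X, map_add, rename_C,
      rename_X]

theorem vanishTo_rename (σ : Equiv.Perm (Fin 3)) {a : V3} {m : ℕ} {F : R3} :
    VanishTo (rename σ F) a m ↔ VanishTo F (fun i => a (σ i)) m := by
  rw [vanishTo_iff_coeff, vanishTo_iff_coeff]
  constructor
  · intro h β hβ
    have h1 := h (β.mapDomain σ) (by rwa [Finsupp.degree_mapDomain])
    rwa [translate_rename, coeff_rename_mapDomain _ σ.injective] at h1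
  · intro h β hβ
    have h1 : β = (β.mapDomain σ.symm).mapDomain σ := by
      rw [← Finsupp.mapDomain_comp]
      simp
    rw [translate_rename, h1, coeff_rename_mapDomain _ σ.injective]
    apply h
    rwa [Finsupp.degree_mapDomain]

theorem coeff_rename' (σ : Equiv.Perm (Fin 3)) (F : R3) (β : Fin 3 →₀ ℕ) :
    coeff β (rename σ F) = coeff (β.mapDomain σ.symm) F := by
  have h1 : β = (β.mapDomain σ.symm).mapDomain σ := by
    rw [← Finsupp.mapDomain_comp]
    simp
  conv_lhs => rw [h1]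
  rw [coeff_rename_mapDomain _ σ.injective]

theorem mapDomain_symm_mapDomain (σ : Equiv.Perm (Fin 3)) (β : Fin 3 →₀ ℕ) :
    (β.mapDomain σ.symm).mapDomain σ = β := by
  rw [← Finsupp.mapDomain_comp]
  simp

theorem hT_perm_le (σ : Equiv.Perm (Fin 3)) {D m N : ℕ} {T : Set (Fin 3 →₀ ℕ)} :
    hT D {α | α.mapDomain σ ∈ T} m N ≤ hT D T m N := by
  have hp := gpt_generic N
  have hp' : GenericPoints (fun i k => gpt N i (σ.symm k)) := by
    have h1 := AlgebraicIndependent.comp hp
      (fun z : Fin N × Fin 3 => ((z.1, σ.symm z.2) : Fin N × Fin 3)) (by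
        rintro ⟨a, b⟩ ⟨c, d⟩ h
        simp only [Prod.mk.injEq, EmbeddingLike.apply_eq_iff_eq] at h
        exact Prod.ext h.1 h.2)
    exact h1
  rw [← hT_eq (D := D) (m := m) (T := T) hp']
  unfold hT
  let φ : TS D {α : Fin 3 →₀ ℕ | α.mapDomain σ ∈ T} m (gpt N) →ₗ[ℂ]
      TS D T m (fun i k => gpt N i (σ.symm k)) :=
    { toFun := fun F => ⟨rename σ F.1, by
        have h1 := mem_TS.mp F.2
        obtain ⟨h2, h3, h4⟩ := h1
        rw [mem_TS]
        refine ⟨h2.rename_isHomogeneous, fun i => ?_, fun α hα => ?_⟩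
        · rw [vanishTo_rename]
          have e1 : (fun k => gpt N i (σ.symm (σ k))) = gpt N i := by
            funext k
            rw [Equiv.symm_apply_apply]
          rw [e1]
          exact h3 i
        · rw [coeff_rename'] at hα
          have h5 := h4 _ hα
          change (α.mapDomain σ.symm).mapDomain σ ∈ T at h5
          rwa [mapDomain_symm_mapDomain] at h5⟩
      map_add' := fun F G => Subtype.ext (by simp)
      map_smul' := fun c F => Subtype.ext (by simp) }
  apply LinearMap.finrank_le_finrank_of_injective (f := φ)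
  intro F G h
  apply Subtype.ext
  have h1 := congrArg Subtype.val h
  exact rename_injective σ σ.injective h1

/-- permutation of the coordinates -/
theorem hT_perm (σ : Equiv.Perm (Fin 3)) {D m N : ℕ} {T : Set (Fin 3 →₀ ℕ)} :
    hT D {α | α.mapDomain σ ∈ T} m N = hT D T m N := by
  refine le_antisymm (hT_perm_le σ) ?_
  have h1 := hT_perm_le σ.symm (D := D) (m := m) (N := N)
    (T := {α : Fin 3 →₀ ℕ | α.mapDomain σ ∈ T})
  have h2 : {α : Fin 3 →₀ ℕ | α.mapDomain σ.symm ∈ {α : Fin 3 →₀ ℕ | α.mapDomain σ ∈ T}} = T := by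
    ext α
    change (α.mapDomain σ.symm).mapDomain σ ∈ T ↔ α ∈ T
    rw [mapDomain_symm_mapDomain]
  rwa [h2] at h1

theorem Kills.perm (σ : Equiv.Perm (Fin 3)) {D m N : ℕ} {T : Set (Fin 3 →₀ ℕ)}
    (h : Kills D m N T) : Kills D m N {α | α.mapDomain σ ∈ T} := by
  obtain ⟨p, hp, h⟩ := h
  refine ⟨fun i k => p i (σ k), fun i k => hp i _, fun G h1 h2 h3 => ?_⟩
  apply rename_injective σ σ.injective
  rw [map_zero]
  refine h _ h1.rename_isHomogeneous (fun α hα => ?_) (fun i => ?_)
  · rw [MvPolynomial.mem_support_iff, coeff_rename'] at hα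
    have h4 := h2 _ (MvPolynomial.mem_support_iff.mpr hα)
    change (α.mapDomain σ.symm).mapDomain σ ∈ T at h4
    rwa [mapDomain_symm_mapDomain] at h4
  · rw [vanishTo_rename]
    exact h3 i

/-! ### rectangles -/

/-- `H` rows and `L` columns -/
def rect (H L : ℕ) : Set (Fin 3 →₀ ℕ) := {α | α 2 < H ∧ α 0 < L}

/-- bidegree `(H - 1, L - 1)` on `P¹ × P¹` with `N` points of multiplicity `k` -/
noncomputable def hR (H L k N : ℕ) : ℕ := hT (H + L - 2) (rect H L) k N

/-- forms of degree `D` and of degree at most `κ` in `X 2` -/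
noncomputable def hF (D κ m N : ℕ) : ℕ := hT D {α | α 2 ≤ κ} m N

/-- the plane -/
noncomputable def hP (D m N : ℕ) : ℕ := hT D Set.univ m N

theorem hR_zero (L k N : ℕ) : hR 0 L k N = 0 :=
  hT_eq_zero (fun _ _ h => Nat.not_lt_zero _ h.1)

theorem hR_zero_right (H k N : ℕ) : hR H 0 k N = 0 :=
  hT_eq_zero (fun _ _ h => Nat.not_lt_zero _ h.2)

/-- an exponent -/
noncomputable def ex3 (a b c : ℕ) : Fin 3 →₀ ℕ :=
  Finsupp.single 0 a + Finsupp.single 1 b + Finsupp.single 2 c

theorem ex3_zero (a b c : ℕ) : ex3 a b c 0 = a := by simp [ex3]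
theorem ex3_one (a b c : ℕ) : ex3 a b c 1 = b := by simp [ex3]
theorem ex3_two (a b c : ℕ) : ex3 a b c 2 = c := by simp [ex3]

theorem eq_ex3 (α : Fin 3 →₀ ℕ) : α = ex3 (α 0) (α 1) (α 2) := by
  ext i
  fin_cases i
  · exact (ex3_zero _ _ _).symm
  · exact (ex3_one _ _ _).symm
  · exact (ex3_two _ _ _).symm

theorem degree_three (α : Fin 3 →₀ ℕ) : α.degree = α 0 + α 1 + α 2 := by
  rw [Finsupp.degree_eq_sum, Fin.sum_univ_three]

theorem hR_no_points (H L k : ℕ) : hR H L k 0 = H * L := by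
  classical
  unfold hR hT
  set D := H + L - 2 with hD
  let ex : Fin H × Fin L → (Fin 3 →₀ ℕ) := fun z => ex3 z.2 (D - z.2 - z.1) z.1
  have hex0 : ∀ z, ex z 0 = z.2 := fun z => ex3_zero _ _ _
  have hex2 : ∀ z, ex z 2 = z.1 := fun z => ex3_two _ _ _
  have hexd : ∀ z, (ex z).degree = D := by
    intro z
    rw [degree_three, hex0, hex2]
    change (z.2 : ℕ) + ex3 z.2 (D - z.2 - z.1) z.1 1 + z.1 = D
    rw [ex3_one]
    have h1 := z.1.2
    have h2 := z.2.2
    omega
  have hexinj : Function.Injective ex := by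
    intro z w h
    have h1 := DFunLike.congr_fun h 0
    have h2 := DFunLike.congr_fun h 2
    rw [hex0, hex0] at h1
    rw [hex2, hex2] at h2
    exact Prod.ext (Fin.ext h2) (Fin.ext h1)
  let φ : TS D (rect H L) k (gpt 0) →ₗ[ℂ] (Fin H × Fin L → ℂ) :=
    { toFun := fun F z => coeff (ex z) F.1
      map_add' := fun F G => by
        funext z
        simp
      map_smul' := fun c F => by
        funext z
        simp }
  have hφ : ∀ F z, φ F z = coeff (ex z) F.1 := fun F z => rfl
  have hbij : Function.Bijective φ := by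
    constructor
    · intro F G h
      apply Subtype.ext
      ext α
      have hF := mem_TS.mp F.2
      have hG := mem_TS.mp G.2
      by_cases hα : α.degree = D ∧ α ∈ rect H L
      · obtain ⟨h1, h2, h3⟩ := hα
        have h4 := congrFun h (⟨α 2, h2⟩, ⟨α 0, h3⟩)
        rw [hφ, hφ] at h4
        have h5 : ex (⟨α 2, h2⟩, ⟨α 0, h3⟩) = α := by
          conv_rhs => rw [eq_ex3 α]
          change ex3 (α 0) (D - α 0 - α 2) (α 2) = _
          congr 1
          rw [degree_three] at h1
          omega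
        rwa [h5] at h4
      · have h1 : ∀ P : R3, P ∈ TS D (rect H L) k (gpt 0) → coeff α P = 0 := by
          intro P hP
          by_contra hcon
          obtain ⟨h2, h3, h4⟩ := mem_TS.mp hP
          exact hα ⟨degree_of_mem_support h2 hcon, h4 α hcon⟩
        rw [h1 F.1 F.2, h1 G.1 G.2]
    · intro g
      have hmem : (∑ z, monomial (ex z) (g z) : R3) ∈ TS D (rect H L) k (gpt 0) := by
        refine Submodule.sum_mem _ (fun z _ => ?_)
        rw [mem_TS]
        refine ⟨isHomogeneous_monomial _ (hexd z), fun i => i.elim0, fun α hα => ?_⟩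
        rw [coeff_monomial] at hα
        split_ifs at hα with h1
        · rw [← h1]
          constructor
          · rw [hex2]; exact z.1.2
          · rw [hex0]; exact z.2.2
        · exact absurd rfl hα
      refine ⟨⟨_, hmem⟩, ?_⟩
      funext w
      rw [hφ]
      change coeff (ex w) (∑ z, monomial (ex z) (g z) : R3) = g w
      rw [coeff_sum, Finset.sum_eq_single w]
      · rw [coeff_monomial, if_pos rfl]
      · intro z _ hz
        rw [coeff_monomial, if_neg (fun h => hz (hexinj h))]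
      · intro h
        exact absurd (Finset.mem_univ w) h
  rw [(LinearEquiv.ofBijective φ hbij).finrank_eq, finrank_fintype_fun_eq_card,
    Fintype.card_prod, Fintype.card_fin, Fintype.card_fin]

theorem hR_count (H L k N : ℕ) : H * L ≤ hR H L k N + N * (k + 1).choose 2 := by
  rw [← hR_no_points H L k]
  have h1 := hT_drop (D := H + L - 2) (m := k) (T := rect H L) (Nat.zero_le N)
  rw [Nat.sub_zero] at h1
  exact h1

theorem vanishTo_X_mul (i : Fin 3) {F : R3} {a : V3} {m : ℕ} (h : VanishTo F a m) :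
    VanishTo (X i * F) a m := by
  have h1 : VanishTo (X i : R3) a 0 := fun k hk => absurd hk (Nat.not_lt_zero k)
  have h2 := vanishTo_mul h1 h
  rwa [Nat.zero_add] at h2

theorem X_mul_le {D m N : ℕ} {T T' : Set (Fin 3 →₀ ℕ)}
    (hT' : ∀ α, α ∈ T → α + Finsupp.single 1 1 ∈ T') : hT D T m N ≤ hT (D + 1) T' m N := by
  unfold hT
  let φ : TS D T m (gpt N) →ₗ[ℂ] TS (D + 1) T' m (gpt N) :=
    { toFun := fun F => ⟨X 1 * F.1, by
        obtain ⟨h1, h2, h3⟩ := mem_TS.mp F.2
        rw [mem_TS]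
        refine ⟨?_, fun i => vanishTo_X_mul 1 (h2 i), fun α hα => ?_⟩
        · have h4 := (isHomogeneous_X ℂ (1 : Fin 3)).mul h1
          rwa [add_comm] at h4
        · rw [coeff_X_mul'] at hα
          split_ifs at hα with h4
          · have h5 := hT' _ (h3 _ hα)
            rwa [tsub_add_cancel_of_le] at h5
            rw [Finsupp.single_le_iff]
            exact Nat.one_le_iff_ne_zero.mpr (Finsupp.mem_support_iff.mp h4)
          · exact absurd rfl hα⟩
      map_add' := fun F G => Subtype.ext (by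
        change X 1 * (F.1 + G.1) = X 1 * F.1 + X 1 * G.1
        ring)
      map_smul' := fun c F => Subtype.ext (by
        change X 1 * (c • F.1) = c • (X 1 * F.1)
        rw [mul_smul_comm]) }
  apply LinearMap.finrank_le_finrank_of_injective (f := φ)
  intro F G h
  apply Subtype.ext
  have h1 : X 1 * F.1 = X 1 * G.1 := congrArg Subtype.val h
  exact mul_left_cancel₀ (X_ne_zero _) h1

theorem hR_le_succ (H L k N : ℕ) : hR H L k N ≤ hR (H + 1) L k N := by
  rcases Nat.eq_zero_or_pos L with hL | hL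
  · subst hL
    rw [hR_zero_right]
    exact Nat.zero_le _
  rcases Nat.eq_zero_or_pos H with hH | hH
  · subst hH
    rw [hR_zero]
    exact Nat.zero_le _
  unfold hR
  have e1 : H + 1 + L - 2 = (H + L - 2) + 1 := by omega
  rw [e1]
  apply X_mul_le
  intro α hα
  constructor
  · rw [Finsupp.add_apply, Finsupp.single_eq_of_ne (by decide), add_zero]
    exact Nat.lt_succ_of_lt hα.1
  · rw [Finsupp.add_apply, Finsupp.single_eq_of_ne (by decide), add_zero]
    exact hα.2

theorem gpt_ne {N : ℕ} (i : Fin N) (l : Fin 3) : gpt N i l ≠ 0 :=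
  (gpt_generic N).ne_zero (i, l)

theorem hR_succ_le (H L k N : ℕ) : hR (H + 1) L k N ≤ hR H L k N + L := by
  rcases Nat.eq_zero_or_pos L with hL | hL
  · subst hL
    rw [hR_zero_right]
    exact Nat.zero_le _
  rcases Nat.eq_zero_or_pos H with hH | hH
  · subst hH
    rw [hR_zero]
    have h1 : hR (0 + 1) L k N ≤ hR (0 + 1) L k 0 := hT_anti (Nat.zero_le N)
    rw [hR_no_points] at h1
    omega
  unfold hR hT
  have e1 : H + 1 + L - 2 = (H + L - 2) + 1 := by omega
  rw [e1]
  set D := H + L - 2 with hD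
  set V := TS (D + 1) (rect (H + 1) L) k (gpt N) with hV
  let ρ : R3 →ₗ[ℂ] (Fin L → ℂ) :=
    { toFun := fun F j => coeff (ex3 j (D + 1 - j) 0) F
      map_add' := fun F G => by
        funext z
        simp
      map_smul' := fun c F => by
        funext z
        simp }
  have h1 := finrank_eq_ker_add_map ρ V
  have h2 : finrank ℂ ↥(V.map ρ) ≤ L := by
    refine (Submodule.finrank_le _).trans ?_
    rw [finrank_fin_fun]
  have h3 : V ⊓ LinearMap.ker ρ ≤
      (TS D (rect H L) k (gpt N)).map (LinearMap.mulLeft ℂ (X 2 ^ 1 : R3)) := by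
    rintro F ⟨hF, hF'⟩
    rw [SetLike.mem_coe, hV, mem_TS] at hF
    obtain ⟨h4, h5, h6⟩ := hF
    have h7 := LinearMap.mem_ker.mp hF'
    obtain ⟨G, hG1, hG2, hG3⟩ := exists_div_X2 (δ := D) (u := 1) h4 (fun α hα => by
      by_contra hcon
      have h8 := h6 α (mem_support_iff.mp hα)
      have h9 := congrFun h7 ⟨α 0, h8.2⟩
      have h10 := deg_eq h4 hα
      have h11 : ex3 (α 0) (D + 1 - α 0) 0 = α := by
        conv_rhs => rw [eq_ex3 α]
        congr 1
        · omega
        · omega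
      change coeff (ex3 (α 0) (D + 1 - α 0) 0) F = 0 at h9
      rw [h11] at h9
      exact mem_support_iff.mp hα h9)
    refine Submodule.mem_map.mpr ⟨G, ?_, by rw [LinearMap.mulLeft_apply, hG2]⟩
    rw [mem_TS]
    refine ⟨hG1, fun i => ?_, fun β hβ => ?_⟩
    · have h8 := h5 i
      rw [hG2] at h8
      exact vanishTo_of_X2_pow_mul (gpt_ne i 2) h8
    · rw [hG3] at hβ
      have h8 := h6 _ hβ
      constructor
      · have h9 := h8.1
        rw [Finsupp.add_apply, Finsupp.single_eq_same] at h9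
        omega
      · have h9 := h8.2
        rwa [Finsupp.add_apply, Finsupp.single_eq_of_ne (by decide), zero_add] at h9
  have h4 := (Submodule.finrank_mono h3).trans (Submodule.finrank_map_le _ _)
  omega

/-! ### the plane -/

theorem hP_count (D m N : ℕ) : (D + 2).choose 2 ≤ hP D m N + N * (m + 1).choose 2 := by
  have h1 := hT_drop (D := D) (m := m) (T := Set.univ) (Nat.zero_le N)
  rw [Nat.sub_zero] at h1
  refine le_trans (le_of_eq ?_) h1
  unfold hT
  have h2 : TS D Set.univ m (gpt 0) = Rd D := by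
    ext F
    rw [mem_TS]
    constructor
    · rintro ⟨h1, -⟩
      exact h1
    · intro h1
      exact ⟨h1, fun i => i.elim0, fun _ _ => trivial⟩
  rw [h2, finrank_Rd]

end Pool.Agent.Work.MP_0421d9_ag.LD
end

section
/-!
Growth of the rank along a fibre of `P¹ × P¹`, for linear systems with generic multiple points.
-/

namespace Pool.Agent.Work.MP_0421d9_ag.LD

open MvPolynomial Module

namespace Rk

/-! ### derivations and the order of vanishing -/

theorem cD_X' (Δ : Derivation ℚ ℂ ℂ) (i : Fin 3) : cD Δ (X i : R3) = 0 := by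
  unfold MvPolynomial.X
  rw [cD_monomial, Derivation.map_one_eq_zero, monomial_zero]

theorem cD_C' (Δ : Derivation ℚ ℂ ℂ) (c : ℂ) : cD Δ (C c : R3) = C (Δ c) := by
  change cD Δ (monomial 0 c) = monomial 0 (Δ c)
  rw [cD_monomial]

theorem cD_translate (Δ : Derivation ℚ ℂ ℂ) (a : V3) (F : R3) :
    cD Δ (translate a F) =
      translate a (cD Δ F) + translate a (dir (fun i => Δ (a i)) F) := by
  induction F using MvPolynomial.induction_on with
  | C c =>
    rw [cD_C', dir_C]
    unfold translate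
    rw [algHom_C, map_zero, add_zero, algHom_C, algebraMap_eq, cD_C']
  | add f g hf hg =>
    have h1 : translate a (f + g) = translate a f + translate a g := by
      unfold translate; rw [map_add]
    rw [h1, map_add, hf, hg, map_add, map_add]
    have h2 : ∀ x y : R3, translate a (x + y) = translate a x + translate a y := by
      intro x y; unfold translate; rw [map_add]
    rw [h2, h2]
    ring
  | mul_X f k hf =>
    have hX : translate a (X k) = C (a k) + X k := by
      unfold translate; rw [aeval_X]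
    have hC : ∀ c : ℂ, translate a (C c) = C c := by
      intro c
      unfold translate
      rw [algHom_C, algebraMap_eq]
    have hadd : ∀ x y : R3, translate a (x + y) = translate a x + translate a y := by
      intro x y; unfold translate; rw [map_add]
    have hdX : dir (fun i => Δ (a i)) (X k) = C (Δ (a k)) := by
      rw [dir_apply, Finset.sum_eq_single k]
      · rw [pderiv_X_self, mul_one]
      · intro j _ hj
        rw [pderiv_X_of_ne hj.symm, mul_zero]
      · intro h
        exact absurd (Finset.mem_univ k) h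
    rw [translate_mul, hX, cD_mul, hf, cD_mul, cD_X', mul_zero, add_zero, dir_mul, hdX, map_add,
      cD_C', cD_X', add_zero, translate_mul, hX, hadd, translate_mul, translate_mul, hX, hC]
    ring

theorem vanishTo_cD_dir (Δ : Derivation ℚ ℂ ℂ) {a : V3} {F : R3} {k : ℕ} (h : VanishTo F a k) :
    VanishTo (cD Δ F + dir (fun i => Δ (a i)) F) a k := by
  rw [vanishTo_iff_coeff] at h ⊢
  intro β hβ
  have h1 : translate a (cD Δ F + dir (fun i => Δ (a i)) F) = cD Δ (translate a F) := by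
    rw [cD_translate]
    unfold translate
    rw [map_add]
  rw [h1, coeff_cD, h β hβ, map_zero]

theorem vanishTo_pderiv (i : Fin 3) {a : V3} {F : R3} {k : ℕ} (h : VanishTo F a k) :
    VanishTo (pderiv i F) a (k - 1) := by
  rw [vanishTo_iff_coeff] at h ⊢
  intro β hβ
  rw [← pderiv_translate, coeff_pderiv, h, zero_mul]
  rw [map_add, Finsupp.degree_single]
  omega

theorem vanishTo_fixed (Δ : Derivation ℚ ℂ ℂ) {a : V3} (ha : ∀ i, Δ (a i) = 0) {F : R3} {k : ℕ}
    (h : VanishTo F a k) : VanishTo (cD Δ F) a k := by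
  have h1 := vanishTo_cD_dir Δ h
  have h2 : dir (fun i => Δ (a i)) F = 0 := by
    rw [dir_apply]
    refine Finset.sum_eq_zero (fun i _ => ?_)
    simp only [ha, C_0, zero_mul]
  rwa [h2, add_zero] at h1

theorem vanishTo_dir (v : V3) {a : V3} {F : R3} {k : ℕ} (h : VanishTo F a k) :
    VanishTo (dir v F) a (k - 1) := by
  rw [dir_apply]
  refine (vanSub a (k - 1)).sum_mem (fun i _ => ?_)
  have h1 := vanishTo_mul (vanishTo_zero (C (v i)) a) (vanishTo_pderiv i h)
  rwa [zero_add] at h1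

theorem vanishTo_moved (Δ : Derivation ℚ ℂ ℂ) {a : V3} {F : R3} {k : ℕ}
    (h : VanishTo F a k) : VanishTo (cD Δ F) a (k - 1) := by
  have h1 := (vanishTo_cD_dir Δ h).mono (Nat.sub_le k 1)
  have h2 := vanishTo_dir (fun i => Δ (a i)) h
  have h3 := (vanSub a (k - 1)).sub_mem h1 h2
  rwa [add_sub_cancel_right] at h3

/-! ### the fibre -/

/-- the coefficients along the fibre `X 0 = 0` of a form of degree `D` -/
noncomputable def rho (H D : ℕ) : R3 →ₗ[ℂ] (Fin H → ℂ) where
  toFun F c := coeff (ex3 0 (D - c) c) F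
  map_add' F G := by
    funext z
    simp
  map_smul' c F := by
    funext z
    simp

theorem rho_apply (H D : ℕ) (F : R3) (c : Fin H) : rho H D F c = coeff (ex3 0 (D - c) c) F := rfl

theorem ex3_add (a b c a' b' c' : ℕ) : ex3 a b c + ex3 a' b' c' = ex3 (a + a') (b + b') (c + c') := by
  ext i
  fin_cases i
  · simp [ex3]
  · simp [ex3]
  · simp [ex3]

theorem single1 : (Finsupp.single 1 1 : Fin 3 →₀ ℕ) = ex3 0 1 0 := by
  ext i
  fin_cases i <;> simp [ex3]

theorem single2 : (Finsupp.single 2 1 : Fin 3 →₀ ℕ) = ex3 0 0 1 := by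
  ext i
  fin_cases i <;> simp [ex3]

theorem single0 : (Finsupp.single 0 1 : Fin 3 →₀ ℕ) = ex3 1 0 0 := by
  ext i
  fin_cases i <;> simp [ex3]

/-- multiplication by a coordinate -/
theorem coeff_X_mul_of_eq {s : Fin 3} {α β : Fin 3 →₀ ℕ} (h : α = β + Finsupp.single s 1)
    (F : R3) : coeff α (X s * F) = coeff β F := by
  rw [h, coeff_X_mul', if_pos]
  · rw [add_tsub_cancel_right]
  · rw [Finsupp.mem_support_iff, Finsupp.add_apply, Finsupp.single_eq_same]
    omega

theorem coeff_X_mul_eq_zero {s : Fin 3} {α : Fin 3 →₀ ℕ} (h : α s = 0)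
    (F : R3) : coeff α (X s * F) = 0 := by
  rw [coeff_X_mul', if_neg]
  rw [Finsupp.mem_support_iff, not_not]
  exact h

/-- a monomial of `X s * F` comes from a monomial of `F` -/
theorem exists_of_coeff_X_mul {s : Fin 3} {α : Fin 3 →₀ ℕ} {F : R3}
    (h : coeff α (X s * F) ≠ 0) : ∃ β, α = β + Finsupp.single s 1 ∧ coeff β F ≠ 0 := by
  by_cases hs : α s = 0
  · exact absurd (coeff_X_mul_eq_zero hs F) h
  · have h1 : α = (α - Finsupp.single s 1) + Finsupp.single s 1 := by
      rw [tsub_add_cancel_of_le]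
      rw [Finsupp.single_le_iff]
      omega
    exact ⟨_, h1, by rwa [coeff_X_mul_of_eq h1] at h⟩

section

variable {H k N : ℕ}

/-- the systems -/
noncomputable def V (H k N L : ℕ) : Submodule ℂ R3 := TS (H + L - 2) (rect H L) k (gpt N)

/-- the ranks along the fibre -/
noncomputable def W (H k N L : ℕ) : Submodule ℂ (Fin H → ℂ) := (V H k N L).map (rho H (H + L - 2))

theorem mem_V {L : ℕ} {F : R3} : F ∈ V H k N L ↔ F.IsHomogeneous (H + L - 2) ∧
    (∀ i, VanishTo F (gpt N i) k) ∧ ∀ α, coeff α F ≠ 0 → α 2 < H ∧ α 0 < L := mem_TS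

/-- `V` in terms of the support -/
theorem mem_V' {L : ℕ} {F : R3} (h1 : ∀ α, coeff α F ≠ 0 →
    α.degree = H + L - 2 ∧ α 2 < H ∧ α 0 < L) (h2 : ∀ i, VanishTo F (gpt N i) k) :
    F ∈ V H k N L := by
  rw [mem_V]
  refine ⟨fun α hα => ?_, h2, fun α hα => (h1 α hα).2⟩
  have h3 := (h1 α hα).1
  rw [Finsupp.degree_eq_sum] at h3
  rw [Finsupp.weight_apply, Finsupp.sum_fintype]
  · simpa using h3
  · simp

theorem V_spec {L : ℕ} {F : R3} (hF : F ∈ V H k N L) : ∀ α, coeff α F ≠ 0 →
    α.degree = H + L - 2 ∧ α 2 < H ∧ α 0 < L := by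
  intro α hα
  rw [mem_V] at hF
  exact ⟨degree_of_mem_support hF.1 hα, hF.2.2 α hα⟩

theorem finrank_V (L : ℕ) : finrank ℂ (V H k N L) = hR H L k N := rfl

instance finite_V (L : ℕ) : Module.Finite ℂ (V H k N L) := finite_TS _ _ _ _

theorem X1_mem {L : ℕ} (hL : 1 ≤ L) {F : R3} (hF : F ∈ V H k N L) :
    X 1 * F ∈ V H k N (L + 1) := by
  refine mem_V' (fun α hα => ?_) (fun i => vanishTo_X_mul 1 ((mem_V.mp hF).2.1 i))
  obtain ⟨β, rfl, hβ⟩ := exists_of_coeff_X_mul hα
  obtain ⟨h1, h2, h3⟩ := V_spec hF β hβ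
  rw [map_add, Finsupp.degree_single, Finsupp.add_apply, Finsupp.add_apply,
    Finsupp.single_eq_of_ne (by decide), Finsupp.single_eq_of_ne (by decide)]
  omega

theorem rho_X1 {L : ℕ} (hL : 1 ≤ L) (F : R3) :
    rho H (H + (L + 1) - 2) (X 1 * F) = rho H (H + L - 2) F := by
  funext c
  rw [rho_apply, rho_apply]
  apply coeff_X_mul_of_eq
  rw [single1, ex3_add]
  congr 1
  have := c.2
  omega

theorem W_le_succ {L : ℕ} (hL : 1 ≤ L) : W H k N L ≤ W H k N (L + 1) := by
  rintro _ ⟨F, hF, rfl⟩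
  exact ⟨X 1 * F, X1_mem hL hF, rho_X1 hL F⟩

theorem rho_cD (D : ℕ) (Δ : Derivation ℚ ℂ ℂ) (F : R3) :
    rho H D (cD Δ F) = fun c => Δ (rho H D F c) := by
  funext c
  rw [rho_apply, coeff_cD, rho_apply]

theorem coeff_cD_ne {Δ : Derivation ℚ ℂ ℂ} {F : R3} {α : Fin 3 →₀ ℕ}
    (h : coeff α (cD Δ F) ≠ 0) : coeff α F ≠ 0 := by
  intro h0
  rw [coeff_cD, h0, map_zero] at h
  exact h rfl

/-- a derivation which fixes all points -/
theorem cD_fixed_mem {L : ℕ} {Δ : Derivation ℚ ℂ ℂ} (hΔ : ∀ i l, Δ (gpt N i l) = 0) {F : R3}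
    (hF : F ∈ V H k N L) : cD Δ F ∈ V H k N L :=
  mem_V' (fun α hα => V_spec hF α (coeff_cD_ne hα))
    (fun i => vanishTo_fixed Δ (hΔ i) ((mem_V.mp hF).2.1 i))

/-- a derivation which moves only the point `j` -/
theorem cD_moved_mem {L : ℕ} (hL : 1 ≤ L) {Δ : Derivation ℚ ℂ ℂ} {j : Fin N}
    (hΔ : ∀ i, i ≠ j → ∀ l, Δ (gpt N i l) = 0) {F : R3}
    (hF : F ∈ V H k N L) :
    (C (gpt N j 1) * X 0 - C (gpt N j 0) * X 1) * cD Δ F ∈ V H k N (L + 1) := by
  have hV := (mem_V.mp hF).2.1
  refine mem_V' (fun α hα => ?_) (fun i => ?_)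
  · have h1 : (C (gpt N j 1) * X 0 - C (gpt N j 0) * X 1) * cD Δ F =
        C (gpt N j 1) * (X 0 * cD Δ F) - C (gpt N j 0) * (X 1 * cD Δ F) := by ring
    rw [h1, coeff_sub, coeff_C_mul, coeff_C_mul] at hα
    have h2 : coeff α (X 0 * cD Δ F) ≠ 0 ∨ coeff α (X 1 * cD Δ F) ≠ 0 := by
      by_contra hcon
      push Not at hcon
      rw [hcon.1, hcon.2, mul_zero, mul_zero, sub_zero] at hα
      exact hα rfl
    rcases h2 with h2 | h2
    · obtain ⟨β, rfl, hβ⟩ := exists_of_coeff_X_mul h2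
      obtain ⟨h3, h4, h5⟩ := V_spec hF β (coeff_cD_ne hβ)
      rw [map_add, Finsupp.degree_single, Finsupp.add_apply, Finsupp.add_apply,
        Finsupp.single_eq_of_ne (by decide), Finsupp.single_eq_same]
      omega
    · obtain ⟨β, rfl, hβ⟩ := exists_of_coeff_X_mul h2
      obtain ⟨h3, h4, h5⟩ := V_spec hF β (coeff_cD_ne hβ)
      rw [map_add, Finsupp.degree_single, Finsupp.add_apply, Finsupp.add_apply,
        Finsupp.single_eq_of_ne (by decide), Finsupp.single_eq_of_ne (by decide)]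
      omega
  · by_cases hi : i = j
    · subst hi
      have h1 : VanishTo (C (gpt N i 1) * X 0 - C (gpt N i 0) * X 1) (gpt N i) 1 := by
        rw [vanishTo_one_iff', map_sub, map_mul, map_mul, eval_C, eval_C, eval_X, eval_X]
        ring
      exact (vanishTo_mul h1 (vanishTo_moved Δ (hV i))).mono (by omega)
    · have h1 := vanishTo_mul (vanishTo_zero (C (gpt N j 1) * X 0 - C (gpt N j 0) * X 1)
        (gpt N i)) (vanishTo_fixed Δ (hΔ i hi) (hV i))
      rwa [zero_add] at h1

theorem rho_moved {L : ℕ} (hL : 1 ≤ L) (a b : ℂ) (G : R3) :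
    rho H (H + (L + 1) - 2) ((C a * X 0 - C b * X 1) * G) = (-b) • rho H (H + L - 2) G := by
  have h1 : (C a * X 0 - C b * X 1) * G = a • (X 0 * G) - b • (X 1 * G) := by
    rw [smul_eq_C_mul, smul_eq_C_mul]
    ring
  rw [h1, map_sub, map_smul, map_smul, rho_X1 hL]
  have h2 : rho H (H + (L + 1) - 2) (X 0 * G) = 0 := by
    funext c
    rw [rho_apply, coeff_X_mul_eq_zero (ex3_zero _ _ _), Pi.zero_apply]
  rw [h2, smul_zero, zero_sub, neg_smul]

/-- every derivation maps `W L` to `W (L + 1)` -/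
theorem deriv_mem {L : ℕ} (hL : 1 ≤ L) (Δ : Derivation ℚ ℂ ℂ) {g : Fin H → ℂ}
    (hg : g ∈ W H k N L) : (fun c => Δ (g c)) ∈ W H k N (L + 1) := by
  classical
  obtain ⟨E, hE⟩ := exists_dual (gpt N) (gpt_generic N)
  obtain ⟨F, hF, rfl⟩ := hg
  set Δj : Fin N → Derivation ℚ ℂ ℂ := fun j => mv E j (fun l => Δ (gpt N j l)) with hΔj
  set Δ0 : Derivation ℚ ℂ ℂ := Δ - ∑ j, Δj j with hΔ0
  have hval : ∀ j i l, Δj j (gpt N i l) = if i = j then Δ (gpt N i l) else 0 := by
    intro j i l
    split_ifs with h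
    · subst h
      exact mv_self hE i _ l
    · exact mv_ne hE h _ l
  have hsum : ∀ c : ℂ, (∑ j, Δj j) c = ∑ j, Δj j c := by
    intro c
    have h1 : ∀ s : Finset (Fin N), (∑ j ∈ s, Δj j) c = ∑ j ∈ s, Δj j c := by
      intro s
      induction s using Finset.induction_on with
      | empty => simp
      | insert a s ha ih =>
        rw [Finset.sum_insert ha, Finset.sum_insert ha, Derivation.add_apply, ih]
    exact h1 Finset.univ
  have h0 : ∀ i l, Δ0 (gpt N i l) = 0 := by
    intro i l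
    rw [hΔ0, Derivation.sub_apply, hsum]
    have h1 : ∑ j, Δj j (gpt N i l) = Δ (gpt N i l) := by
      rw [Finset.sum_eq_single i]
      · rw [hval, if_pos rfl]
      · intro j _ hj
        rw [hval, if_neg hj.symm]
      · intro h
        exact absurd (Finset.mem_univ i) h
    rw [h1, sub_self]
  have hdec : (fun c => Δ (rho H (H + L - 2) F c)) =
      (fun c => Δ0 (rho H (H + L - 2) F c)) +
        ∑ j, (fun c => Δj j (rho H (H + L - 2) F c)) := by
    funext c
    rw [Pi.add_apply, Finset.sum_apply, hΔ0, Derivation.sub_apply, hsum]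
    ring
  rw [hdec]
  refine Submodule.add_mem _ ?_ (Submodule.sum_mem _ fun j _ => ?_)
  · apply W_le_succ hL
    exact ⟨cD Δ0 F, cD_fixed_mem h0 hF, rho_cD _ _ _⟩
  · have h1 : (C (gpt N j 1) * X 0 - C (gpt N j 0) * X 1) * cD (Δj j) F ∈ V H k N (L + 1) :=
      cD_moved_mem hL (fun i hi l => by rw [hval, if_neg hi]) hF
    have h2 := Submodule.mem_map_of_mem (f := rho H (H + (L + 1) - 2)) h1
    rw [rho_moved hL, rho_cD] at h2
    have h3 := Submodule.smul_mem _ (-(gpt N j 0))⁻¹ h2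
    rw [smul_smul, inv_mul_cancel₀ (neg_ne_zero.mpr (gpt_ne j 0)), one_smul] at h3
    exact h3

/-! ### the two operators -/

/-- `∂` -/
def dn (g : Fin H → ℂ) : Fin H → ℂ := fun c =>
  if h : (c : ℕ) + 1 < H then ((c : ℕ) + 1 : ℂ) * g ⟨c + 1, h⟩ else 0

/-- `z² ∂ - (H - 1) z` -/
def up (g : Fin H → ℂ) : Fin H → ℂ := fun c =>
  if h : 0 < (c : ℕ) then (((c : ℕ) : ℂ) - H) * g ⟨c - 1, by omega⟩ else 0

theorem exists_derivation_moving (v : Fin N → ℂ) : ∃ Δ : Derivation ℚ ℂ ℂ, ∀ i,
    (fun l => Δ (gpt N i l)) = ![0, 0, v i] := by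
  obtain ⟨Δ, hΔ⟩ := exists_derivation (fun z : Fin N × Fin 3 => gpt N z.1 z.2) (gpt_generic N)
    (fun z => (![0, 0, v z.1] : V3) z.2)
  exact ⟨Δ, fun i => funext fun l => hΔ (i, l)⟩

theorem dir_two (a : ℂ) (F : R3) : dir ![0, 0, a] F = C a * pderiv 2 F := by
  rw [dir_apply, Fin.sum_univ_three]
  simp

theorem pderiv_two_coeff_ne {F : R3} {β : Fin 3 →₀ ℕ} (h : coeff β (pderiv 2 F) ≠ 0) :
    coeff (β + Finsupp.single 2 1) F ≠ 0 := by
  intro h0
  rw [coeff_pderiv, h0, zero_mul] at h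
  exact h rfl

theorem dn_mem {L : ℕ} (hL : 1 ≤ L) {g : Fin H → ℂ} (hg : g ∈ W H k N L) :
    dn g ∈ W H k N (L + 1) := by
  have hg' := hg
  obtain ⟨F, hF, rfl⟩ := hg
  have hV := (mem_V.mp hF).2.1
  obtain ⟨Δ, hΔ⟩ := exists_derivation_moving (N := N) (fun i => gpt N i 1)
  have h1 : cD Δ F + X 1 * pderiv 2 F ∈ V H k N L := by
    refine mem_V' (fun α hα => ?_) (fun i => ?_)
    · by_cases h2 : coeff α (cD Δ F) = 0
      · rw [coeff_add, h2, zero_add] at hα
        obtain ⟨β, rfl, hβ⟩ := exists_of_coeff_X_mul hα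
        obtain ⟨h3, h4, h5⟩ := V_spec hF _ (pderiv_two_coeff_ne hβ)
        rw [map_add, Finsupp.degree_single] at h3
        rw [Finsupp.add_apply, Finsupp.single_eq_same] at h4
        rw [Finsupp.add_apply, Finsupp.single_eq_of_ne (by decide)] at h5
        rw [map_add, Finsupp.degree_single, Finsupp.add_apply, Finsupp.add_apply,
          Finsupp.single_eq_of_ne (by decide), Finsupp.single_eq_of_ne (by decide)]
        omega
      · exact V_spec hF α (coeff_cD_ne h2)
    · have h2 := vanishTo_cD_dir Δ (hV i)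
      rw [hΔ i, dir_two] at h2
      have h3 : VanishTo (X 1 - C (gpt N i 1)) (gpt N i) 1 := by
        rw [vanishTo_one_iff', map_sub, eval_X, eval_C, sub_self]
      have h4 := (vanishTo_mul h3 (vanishTo_pderiv 2 (hV i))).mono (by omega : k ≤ 1 + (k - 1))
      have h5 := (vanSub (gpt N i) k).add_mem h2 h4
      have h6 : cD Δ F + X 1 * pderiv 2 F = cD Δ F + C (gpt N i 1) * pderiv 2 F +
          (X 1 - C (gpt N i 1)) * pderiv 2 F := by ring
      rw [h6]
      exact h5
  have h2 := W_le_succ hL (Submodule.mem_map_of_mem (f := rho H (H + L - 2)) h1)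
  rw [map_add, rho_cD] at h2
  have h3 := Submodule.sub_mem _ h2 (deriv_mem hL Δ hg')
  rw [add_sub_cancel_left] at h3
  have h4 : dn (rho H (H + L - 2) F) = rho H (H + L - 2) (X 1 * pderiv 2 F) := by
    funext c
    have hc := c.2
    rw [rho_apply]
    unfold dn
    split_ifs with h
    · rw [coeff_X_mul_of_eq (β := ex3 0 (H + L - 2 - (c + 1)) c), coeff_pderiv, rho_apply]
      · rw [single2, ex3_add, ex3_two]
        simp only [Nat.add_zero]
        ring
      · rw [single1, ex3_add]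
        congr 1
        omega
    · symm
      by_contra hcon
      obtain ⟨β, hβ, hβ'⟩ := exists_of_coeff_X_mul hcon
      obtain ⟨h5, h6, h7⟩ := V_spec hF _ (pderiv_two_coeff_ne hβ')
      rw [Finsupp.add_apply, Finsupp.single_eq_same] at h6
      have h8 := DFunLike.congr_fun hβ 2
      rw [ex3_two, Finsupp.add_apply, Finsupp.single_eq_of_ne (by decide)] at h8
      omega
  rw [h4]
  exact h3

theorem up_mem {L : ℕ} (hL : 1 ≤ L) {g : Fin H → ℂ} (hg : g ∈ W H k N L) :
    up g ∈ W H k N (L + 1) := by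
  have hg' := hg
  obtain ⟨F, hF, rfl⟩ := hg
  have hV := (mem_V.mp hF).2.1
  obtain ⟨Δ, hΔ⟩ := exists_derivation_moving (N := N) (fun i => gpt N i 2 ^ 2 / gpt N i 1)
  have h1 : X 1 * cD Δ F + X 2 * th 2 (H - 1) F ∈ V H k N (L + 1) := by
    refine mem_V' (fun α hα => ?_) (fun i => ?_)
    · by_cases h2 : coeff α (X 1 * cD Δ F) = 0
      · rw [coeff_add, h2, zero_add] at hα
        obtain ⟨β, rfl, hβ⟩ := exists_of_coeff_X_mul hα
        rw [coeff_th] at hβ
        obtain ⟨h3, h4, h5⟩ := V_spec hF _ (right_ne_zero_of_mul hβ)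
        have h6 : β 2 ≠ H - 1 := by
          intro h7
          apply left_ne_zero_of_mul hβ
          rw [h7, sub_self]
        rw [map_add, Finsupp.degree_single, Finsupp.add_apply, Finsupp.add_apply,
          Finsupp.single_eq_same, Finsupp.single_eq_of_ne (by decide)]
        omega
      · obtain ⟨β, rfl, hβ⟩ := exists_of_coeff_X_mul h2
        obtain ⟨h3, h4, h5⟩ := V_spec hF β (coeff_cD_ne hβ)
        rw [map_add, Finsupp.degree_single, Finsupp.add_apply, Finsupp.add_apply,
          Finsupp.single_eq_of_ne (by decide), Finsupp.single_eq_of_ne (by decide)]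
        omega
    · have h2 := vanishTo_cD_dir Δ (hV i)
      rw [hΔ i, dir_two] at h2
      have h2' := vanishTo_X_mul 1 h2
      have h3 : VanishTo (X 2 ^ 2 - C (gpt N i 2 ^ 2 / gpt N i 1) * X 1) (gpt N i) 1 := by
        rw [vanishTo_one_iff', map_sub, map_pow, map_mul, eval_X, eval_C, eval_X,
          div_mul_cancel₀ _ (gpt_ne i 1), sub_self]
      have h4 := (vanishTo_mul h3 (vanishTo_pderiv 2 (hV i))).mono (by omega : k ≤ 1 + (k - 1))
      have h5 := vanishTo_mul (vanishTo_zero (C ((H - 1 : ℕ) : ℂ) * X 2) (gpt N i)) (hV i)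
      rw [zero_add] at h5
      have h6 := (vanSub (gpt N i) k).sub_mem ((vanSub (gpt N i) k).add_mem h2' h4) h5
      have h7 : X 1 * cD Δ F + X 2 * th 2 (H - 1) F =
          X 1 * (cD Δ F + C (gpt N i 2 ^ 2 / gpt N i 1) * pderiv 2 F) +
          (X 2 ^ 2 - C (gpt N i 2 ^ 2 / gpt N i 1) * X 1) * pderiv 2 F -
          C ((H - 1 : ℕ) : ℂ) * X 2 * F := by
        unfold LD.th
        ring
      rw [h7]
      exact h6
  have h2 := Submodule.mem_map_of_mem (f := rho H (H + (L + 1) - 2)) h1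
  rw [map_add, rho_X1 hL, rho_cD] at h2
  have h3 := Submodule.sub_mem _ h2 (deriv_mem hL Δ hg')
  rw [add_sub_cancel_left] at h3
  have h4 : up (rho H (H + L - 2) F) = rho H (H + (L + 1) - 2) (X 2 * th 2 (H - 1) F) := by
    funext c
    have hc := c.2
    rw [rho_apply]
    unfold up
    split_ifs with h
    · rw [coeff_X_mul_of_eq (β := ex3 0 (H + L - 2 - (c - 1)) (c - 1)), coeff_th, rho_apply,
        ex3_two]
      · congr 1
        obtain ⟨c', hc'⟩ : ∃ c', (c : ℕ) = c' + 1 := ⟨c - 1, by omega⟩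
        obtain ⟨H', hH'⟩ : ∃ H', H = H' + 1 := ⟨H - 1, by omega⟩
        rw [hc', Nat.add_sub_cancel]
        rw [show H - 1 = H' by omega]
        rw [show (H : ℂ) = H' + 1 by rw [hH']; push_cast; rfl]
        push_cast
        ring
      · rw [single2, ex3_add]
        congr 1
        · omega
        · omega
    · rw [coeff_X_mul_eq_zero]
      rw [ex3_two]
      omega
  rw [h4]
  exact h3

/-! ### linear algebra -/

theorem eq_top_of_stable (U : Submodule ℂ (Fin H → ℂ)) (hU : U ≠ ⊥)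
    (hdn : ∀ g ∈ U, dn g ∈ U) (hup : ∀ g ∈ U, up g ∈ U) : U = ⊤ := by
  classical
  -- the first basis vector
  have h1 : ∀ n : ℕ, ∀ (hn : n < H), ∀ g ∈ U, g ⟨n, hn⟩ ≠ 0 →
      (∀ c : Fin H, n < c → g c = 0) → Pi.single (⟨0, by omega⟩ : Fin H) (1 : ℂ) ∈ U := by
    intro n
    induction n with
    | zero =>
      intro hn g hg h0 h1
      have h2 : g = g ⟨0, hn⟩ • Pi.single (⟨0, hn⟩ : Fin H) (1 : ℂ) := by
        funext c
        rw [Pi.smul_apply, smul_eq_mul]
        by_cases hc : c = ⟨0, hn⟩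
        · rw [hc, Pi.single_eq_same, mul_one]
        · rw [Pi.single_eq_of_ne hc, mul_zero]
          apply h1
          rcases Nat.eq_zero_or_pos (c : ℕ) with h3 | h3
          · exact absurd (Fin.ext h3) hc
          · exact h3
      rw [h2] at hg
      have h3 := Submodule.smul_mem _ (g ⟨0, hn⟩)⁻¹ hg
      rwa [smul_smul, inv_mul_cancel₀ h0, one_smul] at h3
    | succ n ih =>
      intro hn g hg h0 h1
      refine ih (by omega) (dn g) (hdn g hg) ?_ ?_
      · unfold dn
        rw [dif_pos hn]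
        exact mul_ne_zero (by exact_mod_cast Nat.succ_ne_zero n) h0
      · intro c hc
        unfold dn
        split_ifs with h
        · rw [h1 ⟨c + 1, h⟩ (by
            change n + 1 < (c : ℕ) + 1
            omega), mul_zero]
        · rfl
  obtain ⟨g, hg, hg0⟩ := Submodule.exists_mem_ne_zero_of_ne_bot hU
  have hex : ∃ c : Fin H, g c ≠ 0 := by
    by_contra hcon
    push Not at hcon
    exact hg0 (funext hcon)
  have hne : (Finset.univ.filter (fun c : Fin H => g c ≠ 0)).Nonempty := by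
    obtain ⟨c, hc⟩ := hex
    exact ⟨c, by rw [Finset.mem_filter]; exact ⟨Finset.mem_univ _, hc⟩⟩
  obtain ⟨c₀, hc₀, hmax⟩ := Finset.exists_max_image _ (fun c : Fin H => (c : ℕ)) hne
  rw [Finset.mem_filter] at hc₀
  have he0 := h1 c₀ c₀.2 g hg hc₀.2 (fun c hc => by
    by_contra hcon
    have h2 := hmax c (by rw [Finset.mem_filter]; exact ⟨Finset.mem_univ _, hcon⟩)
    omega)
  -- all basis vectors
  have h2 : ∀ n : ℕ, ∀ (hn : n < H), Pi.single (⟨n, hn⟩ : Fin H) (1 : ℂ) ∈ U := by
    intro n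
    induction n with
    | zero => intro hn; exact he0
    | succ n ih =>
      intro hn
      have h3 := hup _ (ih (by omega))
      have h4 : up (Pi.single (⟨n, by omega⟩ : Fin H) (1 : ℂ)) =
          (((n + 1 : ℕ) : ℂ) - H) • Pi.single (⟨n + 1, hn⟩ : Fin H) (1 : ℂ) := by
        funext c
        rw [Pi.smul_apply, smul_eq_mul]
        unfold up
        by_cases hc : c = ⟨n + 1, hn⟩
        · subst hc
          rw [dif_pos (Nat.succ_pos n), Pi.single_eq_same, mul_one]
          have h5 : (⟨(⟨n + 1, hn⟩ : Fin H) - 1, by omega⟩ : Fin H) = ⟨n, by omega⟩ := by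
            apply Fin.ext
            change n + 1 - 1 = n
            omega
          rw [h5, Pi.single_eq_same, mul_one]
        · rw [Pi.single_eq_of_ne hc, mul_zero]
          split_ifs with h
          · rw [Pi.single_eq_of_ne, mul_zero]
            intro h6
            apply hc
            apply Fin.ext
            have h7 := congrArg Fin.val h6
            change (c : ℕ) - 1 = n at h7
            change (c : ℕ) = n + 1
            omega
          · rfl
      rw [h4] at h3
      have h5 : (((n + 1 : ℕ) : ℂ) - H) ≠ 0 := by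
        rw [sub_ne_zero]
        intro h6
        have h7 : n + 1 = H := by exact_mod_cast h6
        omega
      have h6 := Submodule.smul_mem _ (((n + 1 : ℕ) : ℂ) - H)⁻¹ h3
      rwa [smul_smul, inv_mul_cancel₀ h5, one_smul] at h6
  rw [Submodule.eq_top_iff']
  intro f
  have h3 : f = ∑ c, f c • Pi.single c (1 : ℂ) := by
    funext d
    rw [Finset.sum_apply, Finset.sum_eq_single d]
    · rw [Pi.smul_apply, Pi.single_eq_same, smul_eq_mul, mul_one]
    · intro c _ hc
      rw [Pi.smul_apply, Pi.single_eq_of_ne (Ne.symm hc), smul_zero]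
    · intro h
      exact absurd (Finset.mem_univ d) h
  rw [h3]
  exact Submodule.sum_mem _ (fun c _ => Submodule.smul_mem _ _ (h2 c c.2))

/-! ### the dimension of `W` -/

theorem exists_div_X0 {F : R3} {α₀ : ℕ} (hF : F.IsHomogeneous (α₀ + 1))
    (h : ∀ α ∈ F.support, 1 ≤ α 0) :
    ∃ G : R3, G.IsHomogeneous α₀ ∧ F = X 0 * G ∧
      ∀ β, coeff β G = coeff (Finsupp.single 0 1 + β) F := by
  refine ⟨F.divMonomial (Finsupp.single 0 1), ?_, ?_, fun β => coeff_divMonomial _ _ _⟩
  · intro β hβ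
    rw [coeff_divMonomial] at hβ
    have h1 := hF hβ
    rw [map_add] at h1
    have h2 : Finsupp.weight (1 : Fin 3 → ℕ) (Finsupp.single 0 1) = 1 := by
      rw [Finsupp.weight_single]
      simp
    rw [h2] at h1
    omega
  · ext γ
    have h0 : (X 0 : R3) = monomial (Finsupp.single 0 1) 1 := rfl
    rw [h0, coeff_monomial_mul']
    split_ifs with h1
    · rw [one_mul, coeff_divMonomial, add_tsub_cancel_of_le h1]
    · by_contra hcon
      apply h1
      have h2 := h γ (MvPolynomial.mem_support_iff.mpr hcon)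
      rw [Finsupp.single_le_iff]
      exact h2

theorem finrank_ker (hH : 1 ≤ H) (L : ℕ) :
    finrank ℂ ↥(V H k N (L + 1) ⊓ LinearMap.ker (rho H (H + (L + 1) - 2))) = hR H L k N := by
  rcases Nat.eq_zero_or_pos L with hL | hL
  · subst hL
    rw [hR_zero_right, Submodule.finrank_eq_zero, Submodule.eq_bot_iff]
    rintro F ⟨hF, hF'⟩
    ext α
    rw [coeff_zero]
    by_contra hα
    obtain ⟨h1, h2, h3⟩ := V_spec hF α hα
    have h4 := congrFun (LinearMap.mem_ker.mp hF') ⟨α 2, h2⟩
    rw [rho_apply, Pi.zero_apply] at h4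
    apply hα
    have h5 : ex3 0 (H + (0 + 1) - 2 - (⟨α 2, h2⟩ : Fin H)) (⟨α 2, h2⟩ : Fin H) = α := by
      conv_rhs => rw [eq_ex3 α]
      rw [degree_three] at h1
      change ex3 0 (H + (0 + 1) - 2 - α 2) (α 2) = _
      congr 1
      · omega
      · omega
    rwa [h5] at h4
  · have hmap : V H k N (L + 1) ⊓ LinearMap.ker (rho H (H + (L + 1) - 2)) =
        (V H k N L).map (LinearMap.mulLeft ℂ (X 0 : R3)) := by
      apply le_antisymm
      · rintro F ⟨hF, hF'⟩
        have hF2 := mem_V.mp hF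
        have e1 : H + (L + 1) - 2 = (H + L - 2) + 1 := by omega
        have h0 : F.IsHomogeneous ((H + L - 2) + 1) := by rw [← e1]; exact hF2.1
        obtain ⟨G, hG1, hG2, hG3⟩ := exists_div_X0 h0 (fun α hα => by
          by_contra hcon
          rw [MvPolynomial.mem_support_iff] at hα
          obtain ⟨h1, h2, h3⟩ := V_spec hF α hα
          have h4 := congrFun (LinearMap.mem_ker.mp hF') ⟨α 2, h2⟩
          rw [rho_apply, Pi.zero_apply] at h4
          apply hα
          have h5 : ex3 0 (H + (L + 1) - 2 - (⟨α 2, h2⟩ : Fin H)) (⟨α 2, h2⟩ : Fin H) = α := by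
            conv_rhs => rw [eq_ex3 α]
            rw [degree_three] at h1
            change ex3 0 (H + (L + 1) - 2 - α 2) (α 2) = _
            congr 1
            · omega
            · omega
          rwa [h5] at h4)
        refine ⟨G, ?_, by rw [LinearMap.mulLeft_apply, hG2]⟩
        refine mem_V.mpr ⟨hG1, fun i => ?_, fun β hβ => ?_⟩
        · have h1 := hF2.2.1 i
          have h2 : (X 0 : R3) = lin ![1, 0, 0] := by
            unfold lin
            simp [Fin.sum_univ_three]
          rw [hG2, h2] at h1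
          refine vanishTo_of_mul_ne h1 ?_
          rw [← h2, eval_X]
          exact gpt_ne i 0
        · rw [hG3] at hβ
          obtain ⟨h1, h2, h3⟩ := V_spec hF _ hβ
          rw [Finsupp.add_apply, Finsupp.single_eq_of_ne (by decide), zero_add] at h2
          rw [Finsupp.add_apply, Finsupp.single_eq_same] at h3
          exact ⟨h2, by omega⟩
      · rintro _ ⟨G, hG, rfl⟩
        rw [LinearMap.mulLeft_apply]
        refine Submodule.mem_inf.mpr ⟨?_, ?_⟩
        · refine mem_V' (fun α hα => ?_) (fun i => vanishTo_X_mul 0 ((mem_V.mp hG).2.1 i))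
          obtain ⟨β, rfl, hβ⟩ := exists_of_coeff_X_mul hα
          obtain ⟨h1, h2, h3⟩ := V_spec hG β hβ
          rw [map_add, Finsupp.degree_single, Finsupp.add_apply, Finsupp.add_apply,
            Finsupp.single_eq_of_ne (by decide), Finsupp.single_eq_same]
          omega
        · rw [LinearMap.mem_ker]
          funext c
          rw [rho_apply, coeff_X_mul_eq_zero (ex3_zero _ _ _), Pi.zero_apply]
    rw [hmap, finrank_map_mulLeft (X_ne_zero _)]
    exact finrank_V L

end

end Rk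

/-- growth of the rank -/
theorem rank_growth {H k N : ℕ} (hH : 1 ≤ H) : ∃ w : ℕ → ℕ,
    (∀ L, hR H (L + 1) k N = hR H L k N + w L) ∧ (∀ L, w L ≤ H) ∧ (∀ L, w L ≤ w (L + 1)) ∧
      ∀ L, 0 < w L → w L < H → w L < w (L + 1) := by
  refine ⟨fun L => finrank ℂ (Rk.W H k N (L + 1)), fun L => ?_, fun L => ?_, fun L => ?_,
    fun L h0 h1 => ?_⟩
  · have h1 := finrank_eq_ker_add_map (Rk.rho H (H + (L + 1) - 2)) (Rk.V H k N (L + 1))
    rw [Rk.finrank_V, Rk.finrank_ker hH] at h1
    exact h1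
  · refine (Submodule.finrank_le _).trans ?_
    rw [finrank_fin_fun]
  · exact Submodule.finrank_mono (Rk.W_le_succ (Nat.succ_pos L))
  · have hle : Rk.W H k N (L + 1) ≤ Rk.W H k N (L + 1 + 1) := Rk.W_le_succ (Nat.succ_pos L)
    refine lt_of_le_of_ne (Submodule.finrank_mono hle) (fun heq => ?_)
    have h2 : Rk.W H k N (L + 1) = Rk.W H k N (L + 1 + 1) := Submodule.eq_of_le_of_finrank_eq hle heq
    have h3 : Rk.W H k N (L + 1) ≠ ⊥ := by
      intro h4
      change 0 < finrank ℂ ↥(Rk.W H k N (L + 1)) at h0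
      rw [h4, finrank_bot] at h0
      exact absurd h0 (lt_irrefl 0)
    have h4 := Rk.eq_top_of_stable (Rk.W H k N (L + 1)) h3
      (fun g hg => by rw [h2]; exact Rk.dn_mem (Nat.succ_pos L) hg)
      (fun g hg => by rw [h2]; exact Rk.up_mem (Nat.succ_pos L) hg)
    change finrank ℂ ↥(Rk.W H k N (L + 1)) < H at h1
    rw [h4, finrank_top, finrank_fin_fun] at h1
    exact absurd h1 (lt_irrefl _)

end Pool.Agent.Work.MP_0421d9_ag.LD
end

section
/-!
Jets of forms at points of the plane, in affine coordinates: definitions.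
-/

namespace Pool.Agent.Work.MP_0421d9_ag.LD

open MvPolynomial Module

/-- polynomials in two variables -/
abbrev P2 := MvPolynomial (Fin 2) ℂ

/-- the polynomial `F (a₀ + X, a₁ + Y, a₂)` -/
noncomputable def loc (a : V3) : R3 →ₐ[ℂ] P2 :=
  aeval ![C (a 0) + X 0, C (a 1) + X 1, C (a 2)]

/-- no terms of degree less than `m` -/
def Van2 (f : P2) (m : ℕ) : Prop := ∀ β : Fin 2 →₀ ℕ, β.degree < m → coeff β f = 0

/-- there is a form of degree `D` which vanishes to order `μ j` at all points `p j`, `j ≠ i`, and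
which has the leading term `X ^ β` at `p i` -/
def Jet {r : ℕ} (p : Fin r → V3) (D : ℕ) (μ : Fin r → ℕ) (i : Fin r) (β : Fin 2 →₀ ℕ) : Prop :=
  ∃ F : R3, F.IsHomogeneous D ∧ (∀ j ≠ i, Van2 (loc (p j) F) (μ j)) ∧
    Van2 (loc (p i) F - monomial β 1) (β.degree + 1)

/-- all jets of order less than `μ i` at `p i` are realised, independently, by forms of
degree `D` -/
def Jets {r : ℕ} (p : Fin r → V3) (D : ℕ) (μ : Fin r → ℕ) : Prop :=
  ∀ i, ∀ β : Fin 2 →₀ ℕ, β.degree < μ i → Jet p D μ i β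

end Pool.Agent.Work.MP_0421d9_ag.LD
end

section
/-!
Forms with prescribed monomials and with assigned multiplicities, a family of multiplicities
(helper25, after UDefs of helper79).
-/

namespace Pool.Agent.Work.MP_0421d9_ag.LD

open MvPolynomial Module

/-- forms of degree `D` with all exponents in `T`, with multiplicity at least `k i` at `p i` -/
noncomputable def TSm {N : ℕ} (D : ℕ) (T : Set (Fin 3 →₀ ℕ)) (k : Fin N → ℕ) (p : Fin N → V3) :
    Submodule ℂ R3 := linSys D p k ⊓ offSub Tᶜ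

theorem mem_TSm {N D : ℕ} {k : Fin N → ℕ} {T : Set (Fin 3 →₀ ℕ)} {p : Fin N → V3} {F : R3} :
    F ∈ TSm D T k p ↔
      F.IsHomogeneous D ∧ (∀ i, VanishTo F (p i) (k i)) ∧ ∀ α, coeff α F ≠ 0 → α ∈ T := by
  unfold TSm
  rw [Submodule.mem_inf, mem_offSub]
  constructor
  · rintro ⟨⟨h1, h2⟩, h3⟩
    refine ⟨h1, h2, fun α hα => ?_⟩
    by_contra hcon
    exact hα (h3 α hcon)
  · rintro ⟨h1, h2, h3⟩
    refine ⟨⟨h1, h2⟩, fun α hα => ?_⟩
    by_contra hcon
    exact hα (h3 α hcon)

theorem TSm_le {N : ℕ} (D : ℕ) (T : Set (Fin 3 →₀ ℕ)) (k : Fin N → ℕ) (p : Fin N → V3) :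
    TSm D T k p ≤ Rd D := fun _ hF => (mem_TSm.mp hF).1

instance finite_TSm {N : ℕ} (D : ℕ) (T : Set (Fin 3 →₀ ℕ)) (k : Fin N → ℕ) (p : Fin N → V3) :
    Module.Finite ℂ (TSm D T k p) :=
  Submodule.finiteDimensional_of_le (TSm_le D T k p)

/-- the dimension for generic points -/
noncomputable def hTm {N : ℕ} (D : ℕ) (T : Set (Fin 3 →₀ ℕ)) (k : Fin N → ℕ) : ℕ :=
  finrank ℂ (TSm D T k (gpt N))

theorem hTm_const (D : ℕ) (T : Set (Fin 3 →₀ ℕ)) (m N : ℕ) :
    hTm D T (fun _ : Fin N => m) = hT D T m N := rfl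

/-! ### generic points give the smallest dimension -/

section map

variable (σ : ℂ ≃+* ℂ)

theorem map_mem_TSm {N D : ℕ} {k : Fin N → ℕ} {T : Set (Fin 3 →₀ ℕ)} {p : Fin N → V3} {F : R3}
    (h : F ∈ TSm D T k p) : map σ.toRingHom F ∈ TSm D T k (fun i l => σ (p i l)) := by
  rw [mem_TSm] at h ⊢
  obtain ⟨h1, h2, h3⟩ := h
  have h4 : F ∈ linSys D p k := ⟨h1, h2⟩
  have h5 := map_mem_linSys σ h4
  refine ⟨h5.1, h5.2, fun α hα => h3 α fun h6 => hα ?_⟩
  rw [coeff_map, h6, map_zero]

theorem finrank_TSm_map {N : ℕ} (D : ℕ) (T : Set (Fin 3 →₀ ℕ)) (k : Fin N → ℕ) (p : Fin N → V3) :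
    finrank ℂ (TSm D T k p) = finrank ℂ (TSm D T k (fun i l => σ (p i l))) := by
  have h1 : ∀ F ∈ TSm D T k (fun i l => σ (p i l)), map σ.symm.toRingHom F ∈ TSm D T k p := by
    intro F hF
    have h2 := map_mem_TSm σ.symm hF
    have h3 : (fun (i : Fin N) (l : Fin 3) => σ.symm (σ (p i l))) = p := by
      funext i l
      exact σ.symm_apply_apply _
    rwa [h3] at h2
  let j : TSm D T k p ≃+ TSm D T k (fun i l => σ (p i l)) :=
    { toFun := fun F => ⟨map σ.toRingHom F.1, map_mem_TSm σ F.2⟩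
      invFun := fun F => ⟨map σ.symm.toRingHom F.1, h1 F.1 F.2⟩
      left_inv := fun F => Subtype.ext (map_symm_map σ F.1)
      right_inv := fun F => Subtype.ext (map_map_symm σ F.1)
      map_add' := fun F G => Subtype.ext (map_add _ F.1 G.1) }
  have h2 := rank_eq_of_equiv_equiv (fun c : ℂ => σ c) j σ.bijective (by
    intro c F
    apply Subtype.ext
    change map σ.toRingHom (c • F.1) = σ c • map σ.toRingHom F.1
    rw [smul_eq_C_mul, smul_eq_C_mul, map_mul, map_C]
    rfl)
  unfold Module.finrank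
  rw [h2]

end map

theorem TSm_eq {N : ℕ} (D : ℕ) (T : Set (Fin 3 →₀ ℕ)) (k : Fin N → ℕ) (p : Fin N → V3) :
    TSm D T k p = (Rd D ⊓ offSub Tᶜ) ⊓ ⨅ i, vanSub (p i) (k i) := by
  ext F
  rw [mem_TSm, Submodule.mem_inf, Submodule.mem_inf, Submodule.mem_iInf, mem_offSub]
  constructor
  · rintro ⟨h1, h2, h3⟩
    refine ⟨⟨h1, fun α hα => ?_⟩, h2⟩
    by_contra hcon
    exact hα (h3 α hcon)
  · rintro ⟨⟨h1, h3⟩, h2⟩
    refine ⟨h1, h2, fun α hα => ?_⟩
    by_contra hcon
    exact hα (h3 α hcon)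

theorem TSm_generic_le {N D : ℕ} {k : Fin N → ℕ} {T : Set (Fin 3 →₀ ℕ)} {p : Fin N → V3}
    (hp : GenericPoints p) (p₀ : Fin N → V3) :
    finrank ℂ (TSm D T k p) ≤ finrank ℂ (TSm D T k p₀) := by
  classical
  obtain ⟨c₁, hc₁⟩ := exists_extension (κ := Fin N) p hp
  have hfam : PolyFam (fun τ => ⨅ i, vanSub (fun l => (Polynomial.C (p₀ i l) +
      Polynomial.X * Polynomial.C (c₁ i l - p₀ i l)).eval τ) (k i)) :=
    PolyFam.iInf (fun i => polyFam_van (fun l => Polynomial.C (p₀ i l) +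
      Polynomial.X * Polynomial.C (c₁ i l - p₀ i l)) (k i))
  have hfin : Module.Finite ℂ ↥(Rd D ⊓ offSub Tᶜ : Submodule ℂ R3) :=
    Submodule.finiteDimensional_of_le inf_le_left
  obtain ⟨g, hg, h1⟩ := hfam.semicont (Rd D ⊓ offSub Tᶜ) 0
  have h1' : ∀ τ, g.eval τ ≠ 0 →
      finrank ℂ (TSm D T k (fun i l => p₀ i l + τ * (c₁ i l - p₀ i l))) ≤
        finrank ℂ (TSm D T k p₀) := by
    intro τ hτ
    have h2 := h1 τ hτ
    rw [TSm_eq, TSm_eq]
    have e1 : ∀ τ : ℂ, (fun i : Fin N => vanSub (fun l => (Polynomial.C (p₀ i l) +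
        Polynomial.X * Polynomial.C (c₁ i l - p₀ i l)).eval τ) (k i)) =
        fun i => vanSub (fun l => p₀ i l + τ * (c₁ i l - p₀ i l)) (k i) := by
      intro τ
      funext i
      congr 1
      funext l
      simp only [Polynomial.eval_add, Polynomial.eval_mul, Polynomial.eval_C, Polynomial.eval_X]
    have e2 : (fun i : Fin N => vanSub (fun l => p₀ i l + 0 * (c₁ i l - p₀ i l)) (k i)) =
        fun i => vanSub (p₀ i) (k i) := by
      funext i
      congr 1
      funext l
      ring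
    rw [e1, e1, e2] at h2
    exact h2
  obtain ⟨t, ht, hind⟩ := exists_line
    (fun z : (Fin N ⊕ Fin N) × Fin 3 => Sum.elim p p₀ z.1 z.2) _ hc₁
    (S := {t | g.eval t = 0}) (Set.Finite.countable (by
      refine (g.roots.toFinset.finite_toSet).subset ?_
      intro t ht
      rw [Finset.mem_coe, Multiset.mem_toFinset, Polynomial.mem_roots (ne_zero_of_eval hg)]
      exact ht))
  have h2 := h1' t ht
  set c : Fin N → V3 := fun i l => p₀ i l + t * (c₁ i l - p₀ i l) with hc
  have h3 : (fun z : (Fin N ⊕ Fin N) × Fin 3 => (fun z : (Fin N ⊕ Fin N) × Fin 3 =>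
      Sum.elim p p₀ z.1 z.2) z + t * ((fun z : (Fin N ⊕ Fin N) × Fin 3 =>
      Sum.elim p c₁ z.1 z.2) z - (fun z : (Fin N ⊕ Fin N) × Fin 3 => Sum.elim p p₀ z.1 z.2) z)) =
      fun z => Sum.elim p c z.1 z.2 := by
    funext z
    rcases z with ⟨i | i, l⟩
    · simp
    · simp [hc]
  rw [h3] at hind
  obtain ⟨s, hs⟩ := exists_auto hind (Equiv.sumComm (Fin N) (Fin N))
  have h4 : (fun (i : Fin N) (l : Fin 3) => s (p i l)) = c := by
    funext i l
    exact hs (Sum.inl i) l
  rw [finrank_TSm_map s D T k p, h4]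
  exact h2

/-- semicontinuity: arbitrary points bound the generic value -/
theorem hTm_le {N D : ℕ} {k : Fin N → ℕ} {T : Set (Fin 3 →₀ ℕ)} (p : Fin N → V3) :
    hTm D T k ≤ finrank ℂ (TSm D T k p) :=
  TSm_generic_le (gpt_generic N) p

theorem hTm_eq {N D : ℕ} {k : Fin N → ℕ} {T : Set (Fin 3 →₀ ℕ)} {p : Fin N → V3}
    (hp : GenericPoints p) : finrank ℂ (TSm D T k p) = hTm D T k :=
  le_antisymm (TSm_generic_le hp _) (hTm_le p)

theorem hTm_eq_zero {D N : ℕ} {k : Fin N → ℕ} {T : Set (Fin 3 →₀ ℕ)}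
    (h : ∀ α, α.degree = D → α ∉ T) : hTm D T k = 0 := by
  unfold hTm
  rw [Submodule.finrank_eq_zero, Submodule.eq_bot_iff]
  intro F hF
  rw [mem_TSm] at hF
  obtain ⟨h1, h2, h3⟩ := hF
  ext α
  rw [coeff_zero]
  by_contra hα
  exact h α (degree_of_mem_support h1 hα) (h3 α hα)

/-! ### changing the points and the multiplicities -/

theorem generic_injm {N N' : ℕ} {e : Fin N' → Fin N} (he : Function.Injective e)
    {p : Fin N → V3} (hp : GenericPoints p) : GenericPoints (fun i : Fin N' => p (e i)) := by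
  have h1 := AlgebraicIndependent.comp hp
    (fun z : Fin N' × Fin 3 => ((e z.1, z.2) : Fin N × Fin 3)) (by
      rintro ⟨a, b⟩ ⟨c, d⟩ h
      simp only [Prod.mk.injEq] at h
      exact Prod.ext (he h.1) h.2)
  exact h1

/-- larger multiplicities, smaller systems -/
theorem hTm_anti {D N : ℕ} {k k' : Fin N → ℕ} {T : Set (Fin 3 →₀ ℕ)} (h : ∀ i, k i ≤ k' i) :
    hTm D T k' ≤ hTm D T k := by
  unfold hTm
  apply Submodule.finrank_mono
  intro F hF
  rw [mem_TSm] at hF ⊢
  obtain ⟨h1, h2, h3⟩ := hF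
  exact ⟨h1, fun i => (h2 i).mono (h i), h3⟩

/-- some of the points -/
theorem hTm_comp_le {D N N' : ℕ} {k : Fin N → ℕ} {T : Set (Fin 3 →₀ ℕ)} {e : Fin N' → Fin N}
    (he : Function.Injective e) : hTm D T k ≤ hTm D T (fun i => k (e i)) := by
  rw [← hTm_eq (generic_injm he (gpt_generic N))]
  unfold hTm
  apply Submodule.finrank_mono
  intro F hF
  rw [mem_TSm] at hF ⊢
  obtain ⟨h1, h2, h3⟩ := hF
  exact ⟨h1, fun i => h2 _, h3⟩

/-- the points of multiplicity zero do not matter -/
theorem hTm_comp_eq {D N N' : ℕ} {k : Fin N → ℕ} {T : Set (Fin 3 →₀ ℕ)} {e : Fin N' → Fin N}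
    (he : Function.Injective e) (h0 : ∀ i, i ∉ Set.range e → k i = 0) :
    hTm D T k = hTm D T (fun i => k (e i)) := by
  refine le_antisymm (hTm_comp_le he) ?_
  rw [← hTm_eq (generic_injm he (gpt_generic N))]
  unfold hTm
  apply Submodule.finrank_mono
  intro F hF
  rw [mem_TSm] at hF ⊢
  obtain ⟨h1, h2, h3⟩ := hF
  refine ⟨h1, fun i => ?_, h3⟩
  by_cases hi : i ∈ Set.range e
  · obtain ⟨j, rfl⟩ := hi
    exact h2 j
  · rw [h0 i hi]
    intro a ha
    exact absurd ha (Nat.not_lt_zero a)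

/-- permutation of the points -/
theorem hTm_equiv {D N N' : ℕ} {k : Fin N → ℕ} {T : Set (Fin 3 →₀ ℕ)} (e : Fin N' ≃ Fin N) :
    hTm D T (fun i => k (e i)) = hTm D T k :=
  (hTm_comp_eq e.injective (fun i hi => absurd (e.surjective i) hi)).symm

theorem hTm_zero_fam {D N : ℕ} {T : Set (Fin 3 →₀ ℕ)} {m : ℕ} :
    hTm D T (fun _ : Fin N => 0) = hT D T m 0 := by
  have h1 := hTm_comp_eq (D := D) (k := fun _ : Fin N => 0) (T := T)
    (e := (fun i => i.elim0 : Fin 0 → Fin N)) (fun i => i.elim0) (fun _ _ => rfl)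
  rw [h1]
  have h2 : (fun i : Fin 0 => (fun _ : Fin N => 0) ((fun i => i.elim0 : Fin 0 → Fin N) i)) =
      fun _ : Fin 0 => m := funext fun i => i.elim0
  rw [h2]
  rfl

/-! ### the number of conditions -/

/-- a point of multiplicity `k j` imposes at most `(k j + 1).choose 2` conditions -/
theorem hTm_drop_one {D N : ℕ} {k : Fin N → ℕ} {T : Set (Fin 3 →₀ ℕ)} (j : Fin N) :
    hTm D T (Function.update k j 0) ≤ hTm D T k + (k j + 1).choose 2 := by
  unfold hTm
  refine (finrank_le_van (m := k j) (gpt N j) _ (TSm_le _ _ _ _)).trans ?_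
  apply Nat.add_le_add_right
  apply Submodule.finrank_mono
  rintro F ⟨h1, h2⟩
  rw [SetLike.mem_coe, mem_TSm] at h1
  obtain ⟨h3, h4, h5⟩ := h1
  rw [mem_TSm]
  refine ⟨h3, fun i => ?_, h5⟩
  by_cases hi : i = j
  · rw [hi]
    exact h2
  · have h6 := h4 i
    rwa [Function.update_of_ne hi] at h6

theorem hTm_drop_set {D N : ℕ} {k : Fin N → ℕ} {T : Set (Fin 3 →₀ ℕ)} (s : Finset (Fin N)) :
    hTm D T (fun i => if i ∈ s then 0 else k i) ≤ hTm D T k + ∑ i ∈ s, (k i + 1).choose 2 := by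
  classical
  induction s using Finset.induction_on with
  | empty => simp
  | insert a s ha ih =>
    rw [Finset.sum_insert ha]
    have h1 := hTm_drop_one (D := D) (k := fun i => if i ∈ s then 0 else k i) (T := T) a
    have h2 : Function.update (fun i => if i ∈ s then 0 else k i) a 0 =
        fun i => if i ∈ insert a s then 0 else k i := by
      funext i
      by_cases hi : i = a
      · subst hi
        rw [Function.update_self, if_pos (Finset.mem_insert_self _ _)]
      · rw [Function.update_of_ne hi]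
        have h3 : i ∈ insert a s ↔ i ∈ s := by
          rw [Finset.mem_insert]
          exact ⟨fun h => h.resolve_left hi, Or.inr⟩
        simp only [h3]
    rw [h2] at h1
    rw [if_neg ha] at h1
    omega

theorem hTm_drop {D N : ℕ} {k : Fin N → ℕ} {T : Set (Fin 3 →₀ ℕ)} {m : ℕ} :
    hT D T m 0 ≤ hTm D T k + ∑ i, (k i + 1).choose 2 := by
  have h1 := hTm_drop_set (D := D) (k := k) (T := T) Finset.univ
  have h2 : (fun i => if i ∈ (Finset.univ : Finset (Fin N)) then 0 else k i) = fun _ => 0 := by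
    funext i
    rw [if_pos (Finset.mem_univ i)]
  rw [h2, hTm_zero_fam (m := m)] at h1
  exact h1

/-! ### permutations of the coordinates -/

theorem hTm_perm_le (σ : Equiv.Perm (Fin 3)) {D N : ℕ} {k : Fin N → ℕ} {T : Set (Fin 3 →₀ ℕ)} :
    hTm D {α | α.mapDomain σ ∈ T} k ≤ hTm D T k := by
  have hp := gpt_generic N
  have hp' : GenericPoints (fun i l => gpt N i (σ.symm l)) := by
    have h1 := AlgebraicIndependent.comp hp
      (fun z : Fin N × Fin 3 => ((z.1, σ.symm z.2) : Fin N × Fin 3)) (by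
        rintro ⟨a, b⟩ ⟨c, d⟩ h
        simp only [Prod.mk.injEq, EmbeddingLike.apply_eq_iff_eq] at h
        exact Prod.ext h.1 h.2)
    exact h1
  rw [← hTm_eq (D := D) (k := k) (T := T) hp']
  unfold hTm
  let φ : TSm D {α : Fin 3 →₀ ℕ | α.mapDomain σ ∈ T} k (gpt N) →ₗ[ℂ]
      TSm D T k (fun i l => gpt N i (σ.symm l)) :=
    { toFun := fun F => ⟨rename σ F.1, by
        have h1 := mem_TSm.mp F.2
        obtain ⟨h2, h3, h4⟩ := h1
        rw [mem_TSm]
        refine ⟨h2.rename_isHomogeneous, fun i => ?_, fun α hα => ?_⟩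
        · rw [vanishTo_rename]
          have e1 : (fun l => gpt N i (σ.symm (σ l))) = gpt N i := by
            funext l
            rw [Equiv.symm_apply_apply]
          rw [e1]
          exact h3 i
        · rw [coeff_rename'] at hα
          have h5 := h4 _ hα
          change (α.mapDomain σ.symm).mapDomain σ ∈ T at h5
          rwa [mapDomain_symm_mapDomain] at h5⟩
      map_add' := fun F G => Subtype.ext (by simp)
      map_smul' := fun c F => Subtype.ext (by simp) }
  apply LinearMap.finrank_le_finrank_of_injective (f := φ)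
  intro F G h
  apply Subtype.ext
  have h1 := congrArg Subtype.val h
  exact rename_injective σ σ.injective h1

/-- permutation of the coordinates -/
theorem hTm_perm (σ : Equiv.Perm (Fin 3)) {D N : ℕ} {k : Fin N → ℕ} {T : Set (Fin 3 →₀ ℕ)} :
    hTm D {α | α.mapDomain σ ∈ T} k = hTm D T k := by
  refine le_antisymm (hTm_perm_le σ) ?_
  have h1 := hTm_perm_le σ.symm (D := D) (k := k)
    (T := {α : Fin 3 →₀ ℕ | α.mapDomain σ ∈ T})
  have h2 : {α : Fin 3 →₀ ℕ | α.mapDomain σ.symm ∈ {α : Fin 3 →₀ ℕ | α.mapDomain σ ∈ T}} = T := by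
    ext α
    change (α.mapDomain σ.symm).mapDomain σ ∈ T ↔ α ∈ T
    rw [mapDomain_symm_mapDomain]
  rwa [h2] at h1

/-- some points kill all forms with the given exponents -/
def Killsm {N : ℕ} (D : ℕ) (u : Fin N → ℕ) (T : Set (Fin 3 →₀ ℕ)) : Prop :=
  ∃ p : Fin N → V3, (∀ k i, p k i ≠ 0) ∧ ∀ G : R3, G.IsHomogeneous D →
    (∀ α ∈ G.support, α ∈ T) → (∀ k, VanishTo G (p k) (u k)) → G = 0

theorem Killsm_const {D u N : ℕ} {T : Set (Fin 3 →₀ ℕ)} :
    Killsm D (fun _ : Fin N => u) T ↔ Kills D u N T := Iff.rfl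

theorem Killsm.mono {D N : ℕ} {u : Fin N → ℕ} {T T' : Set (Fin 3 →₀ ℕ)} (hK : Killsm D u T')
    (h : ∀ α : Fin 3 →₀ ℕ, α.degree = D → α ∈ T → α ∈ T') : Killsm D u T := by
  obtain ⟨p, hp, hK⟩ := hK
  refine ⟨p, hp, fun G h1 h2 h3 => hK G h1 (fun α hα => h α ?_ (h2 α hα)) h3⟩
  exact degree_of_mem_support h1 (mem_support_iff.mp hα)

theorem Killsm.perm (σ : Equiv.Perm (Fin 3)) {D N : ℕ} {u : Fin N → ℕ} {T : Set (Fin 3 →₀ ℕ)}
    (h : Killsm D u T) : Killsm D u {α | α.mapDomain σ ∈ T} := by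
  obtain ⟨p, hp, h⟩ := h
  refine ⟨fun i k => p i (σ k), fun i k => hp i _, fun G h1 h2 h3 => ?_⟩
  apply rename_injective σ σ.injective
  rw [map_zero]
  refine h _ h1.rename_isHomogeneous (fun α hα => ?_) (fun i => ?_)
  · rw [MvPolynomial.mem_support_iff, coeff_rename'] at hα
    have h4 := h2 _ (MvPolynomial.mem_support_iff.mpr hα)
    change (α.mapDomain σ.symm).mapDomain σ ∈ T at h4
    rwa [mapDomain_symm_mapDomain] at h4
  · rw [vanishTo_rename]
    exact h3 i

/-! ### rectangles, strips, the plane -/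

/-- bidegree `(H - 1, L - 1)` on `P¹ × P¹` with points of multiplicities `k i` -/
noncomputable def hRm {N : ℕ} (H L : ℕ) (k : Fin N → ℕ) : ℕ := hTm (H + L - 2) (rect H L) k

/-- forms of degree `D` and of degree at most `κ` in `X 2` -/
noncomputable def hFm {N : ℕ} (D κ : ℕ) (k : Fin N → ℕ) : ℕ := hTm D {α | α 2 ≤ κ} k

/-- the plane -/
noncomputable def hPm {r : ℕ} (D : ℕ) (y : Fin r → ℕ) : ℕ := finrank ℂ (linSys D (gpt r) y)

/-- the multiplicities off the points `e i` -/
noncomputable def rest {N r : ℕ} (e : Fin N → Fin r) (y : Fin r → ℕ) : Fin r → ℕ := by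
  classical
  exact fun i => if i ∈ Set.range e then 0 else y i

theorem rest_mem {N r : ℕ} {e : Fin N → Fin r} {y : Fin r → ℕ} (i : Fin N) :
    rest e y (e i) = 0 := by
  unfold rest
  exact if_pos ⟨i, rfl⟩

theorem rest_not_mem {N r : ℕ} {e : Fin N → Fin r} {y : Fin r → ℕ} {i : Fin r}
    (h : i ∉ Set.range e) : rest e y i = y i := by
  unfold rest
  exact if_neg h

theorem hFm_const (D κ m N : ℕ) : hFm D κ (fun _ : Fin N => m) = hF D κ m N := rfl

theorem hRm_zero {N : ℕ} (L : ℕ) (k : Fin N → ℕ) : hRm 0 L k = 0 :=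
  hTm_eq_zero (fun _ _ h => Nat.not_lt_zero _ h.1)

theorem hRm_zero_right {N : ℕ} (H : ℕ) (k : Fin N → ℕ) : hRm H 0 k = 0 :=
  hTm_eq_zero (fun _ _ h => Nat.not_lt_zero _ h.2)

theorem hRm_count {N : ℕ} (H L : ℕ) (k : Fin N → ℕ) :
    H * L ≤ hRm H L k + ∑ i, (k i + 1).choose 2 := by
  rw [← hR_no_points H L 0]
  exact hTm_drop (D := H + L - 2) (k := k) (T := rect H L) (m := 0)

theorem hRm_le_mul {N : ℕ} (H L : ℕ) (k : Fin N → ℕ) : hRm H L k ≤ H * L := by
  rw [← hR_no_points H L 0]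
  unfold hR
  rw [← hTm_zero_fam (N := N) (m := 0)]
  exact hTm_anti (fun i => Nat.zero_le _)

theorem X_mul_lem {D N : ℕ} {k : Fin N → ℕ} {T T' : Set (Fin 3 →₀ ℕ)}
    (hT' : ∀ α, α ∈ T → α + Finsupp.single 1 1 ∈ T') : hTm D T k ≤ hTm (D + 1) T' k := by
  unfold hTm
  let φ : TSm D T k (gpt N) →ₗ[ℂ] TSm (D + 1) T' k (gpt N) :=
    { toFun := fun F => ⟨X 1 * F.1, by
        obtain ⟨h1, h2, h3⟩ := mem_TSm.mp F.2
        rw [mem_TSm]
        refine ⟨?_, fun i => vanishTo_X_mul 1 (h2 i), fun α hα => ?_⟩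
        · have h4 := (isHomogeneous_X ℂ (1 : Fin 3)).mul h1
          rwa [add_comm] at h4
        · rw [coeff_X_mul'] at hα
          split_ifs at hα with h4
          · have h5 := hT' _ (h3 _ hα)
            rwa [tsub_add_cancel_of_le] at h5
            rw [Finsupp.single_le_iff]
            exact Nat.one_le_iff_ne_zero.mpr (Finsupp.mem_support_iff.mp h4)
          · exact absurd rfl hα⟩
      map_add' := fun F G => Subtype.ext (by
        change X 1 * (F.1 + G.1) = X 1 * F.1 + X 1 * G.1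
        ring)
      map_smul' := fun c F => Subtype.ext (by
        change X 1 * (c • F.1) = c • (X 1 * F.1)
        rw [mul_smul_comm]) }
  apply LinearMap.finrank_le_finrank_of_injective (f := φ)
  intro F G h
  apply Subtype.ext
  have h1 : X 1 * F.1 = X 1 * G.1 := congrArg Subtype.val h
  exact mul_left_cancel₀ (X_ne_zero _) h1

theorem hRm_le_succ {N : ℕ} (H L : ℕ) (k : Fin N → ℕ) : hRm H L k ≤ hRm (H + 1) L k := by
  rcases Nat.eq_zero_or_pos L with hL | hL
  · subst hL
    rw [hRm_zero_right]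
    exact Nat.zero_le _
  rcases Nat.eq_zero_or_pos H with hH | hH
  · subst hH
    rw [hRm_zero]
    exact Nat.zero_le _
  unfold hRm
  have e1 : H + 1 + L - 2 = (H + L - 2) + 1 := by omega
  rw [e1]
  apply X_mul_lem
  intro α hα
  constructor
  · rw [Finsupp.add_apply, Finsupp.single_eq_of_ne (by decide), add_zero]
    exact Nat.lt_succ_of_lt hα.1
  · rw [Finsupp.add_apply, Finsupp.single_eq_of_ne (by decide), add_zero]
    exact hα.2

/-- exchange of the two directions -/
theorem hRm_swap {N : ℕ} (H L : ℕ) (k : Fin N → ℕ) : hRm H L k = hRm L H k := by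
  unfold hRm
  have h1 := hTm_perm (Equiv.swap (0 : Fin 3) 2) (D := H + L - 2) (k := k) (T := rect L H)
  have h2 : {α : Fin 3 →₀ ℕ | α.mapDomain (Equiv.swap (0 : Fin 3) 2) ∈ rect L H} = rect H L := by
    ext α
    change (α.mapDomain (Equiv.swap (0 : Fin 3) 2)) 2 < L ∧
      (α.mapDomain (Equiv.swap (0 : Fin 3) 2)) 0 < H ↔ α 2 < H ∧ α 0 < L
    have e2 : (α.mapDomain (Equiv.swap (0 : Fin 3) 2)) 2 = α 0 := by
      have h3 := Finsupp.mapDomain_apply (Equiv.swap (0 : Fin 3) 2).injective α 0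
      rwa [Equiv.swap_apply_left] at h3
    have e0 : (α.mapDomain (Equiv.swap (0 : Fin 3) 2)) 0 = α 2 := by
      have h3 := Finsupp.mapDomain_apply (Equiv.swap (0 : Fin 3) 2).injective α 2
      rwa [Equiv.swap_apply_right] at h3
    rw [e2, e0]
    exact and_comm
  rw [h2] at h1
  rw [h1, Nat.add_comm H L]

/-! ### the plane -/

theorem TSm_univ {N : ℕ} (D : ℕ) (k : Fin N → ℕ) (p : Fin N → V3) :
    TSm D Set.univ k p = linSys D p k := by
  ext F
  rw [mem_TSm]
  constructor
  · rintro ⟨h1, h2, -⟩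
    exact ⟨h1, h2⟩
  · rintro ⟨h1, h2⟩
    exact ⟨h1, h2, fun _ _ => trivial⟩

theorem hPm_eq_hTm {r : ℕ} (D : ℕ) (y : Fin r → ℕ) : hPm D y = hTm D Set.univ y := by
  unfold hPm hTm
  rw [TSm_univ]

theorem hPm_eq {D r : ℕ} {y : Fin r → ℕ} {p : Fin r → V3} (hp : GenericPoints p) :
    finrank ℂ (linSys D p y) = hPm D y := by
  rw [hPm_eq_hTm, ← hTm_eq hp, TSm_univ]

theorem hPm_le_succ {r : ℕ} (D : ℕ) (y : Fin r → ℕ) : hPm D y ≤ hPm (D + 1) y := by
  rw [hPm_eq_hTm, hPm_eq_hTm]
  exact X_mul_lem (fun _ _ => trivial)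

theorem hPm_count {r : ℕ} (D : ℕ) (y : Fin r → ℕ) :
    (D + 2).choose 2 ≤ hPm D y + ∑ i, (y i + 1).choose 2 := by
  rw [hPm_eq_hTm]
  have h1 := hTm_drop (D := D) (k := y) (T := Set.univ) (m := 0)
  refine le_trans ?_ h1
  have h2 := hP_count D 0 0
  unfold hP at h2
  rw [Nat.zero_mul, Nat.add_zero] at h2
  exact h2

theorem hPm_anti {D r : ℕ} {y y' : Fin r → ℕ} (h : ∀ i, y i ≤ y' i) : hPm D y' ≤ hPm D y := by
  rw [hPm_eq_hTm, hPm_eq_hTm]
  exact hTm_anti h

theorem hPm_equiv {D r r' : ℕ} {y : Fin r → ℕ} (e : Fin r' ≃ Fin r) :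
    hPm D (fun i => y (e i)) = hPm D y := by
  rw [hPm_eq_hTm, hPm_eq_hTm]
  exact hTm_equiv e

end Pool.Agent.Work.MP_0421d9_ag.LD
end

section
/-!
Arbitrary multiplicities in degree at least `C M ^ (1 + ε)`: definitions.

Part I works with polynomials in two variables (affine coordinates), with arbitrary distinct points
`q i`. Part II and III work with `hRm` (rectangles, i.e. `P¹ × P¹`) and `hPm` (the plane).
-/

namespace Pool.Agent.Work.MP_0421d9_ag.LD

open MvPolynomial Module

/-! ### polynomials in two variables -/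

/-- the polynomial `f (q + X)` -/
noncomputable def sh (q : Fin 2 → ℂ) : P2 →ₐ[ℂ] P2 := aeval fun l => C (q l) + X l

/-- `f` vanishes to order at least `m` at `q` -/
def Vq (q : Fin 2 → ℂ) (f : P2) (m : ℕ) : Prop := Van2 (sh q f) m

/-- the multiplicity of `f ≠ 0` at `q` -/
noncomputable def mu (q : Fin 2 → ℂ) (f : P2) : ℕ :=
  sInf {n | ∃ β : Fin 2 →₀ ℕ, β.degree = n ∧ coeff β (sh q f) ≠ 0}

/-- polynomials of degree at most `D` -/
noncomputable def PD (D : ℕ) : Submodule ℂ P2 where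
  carrier := {f | f.totalDegree ≤ D}
  add_mem' := fun {f g} hf hg => (totalDegree_add f g).trans (max_le hf hg)
  zero_mem' := by simp
  smul_mem' := fun c f hf => (totalDegree_smul_le c f).trans hf

/-- polynomials of degree at most `D` which vanish to order at least `m i` at `q i` -/
noncomputable def VD {ι : Type} (D : ℕ) (q : ι → Fin 2 → ℂ) (m : ι → ℕ) : Submodule ℂ P2 where
  carrier := {f | f.totalDegree ≤ D ∧ ∀ i, Vq (q i) f (m i)}
  add_mem' := fun {f g} hf hg => ⟨(totalDegree_add f g).trans (max_le hf.1 hg.1), fun i β hβ => by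
    rw [map_add, coeff_add, hf.2 i β hβ, hg.2 i β hβ, add_zero]⟩
  zero_mem' := ⟨by simp, fun i β _ => by rw [map_zero, coeff_zero]⟩
  smul_mem' := fun c f hf => ⟨(totalDegree_smul_le c f).trans hf.1, fun i β hβ => by
    rw [map_smul, coeff_smul, hf.2 i β hβ, smul_zero]⟩

/-- `τ` is a relation between the conditions of order `m i` at `q i` on the polynomials of degree
less than `D` -/
def IsRel {ι : Type} (D : ℕ) (q : ι → Fin 2 → ℂ) (m : ι → ℕ) (τ : P2 →ₗ[ℂ] ℂ) : Prop :=
  (∀ f : P2, f.totalDegree < D → τ f = 0) ∧ ∀ f, (∀ i, Vq (q i) f (m i)) → τ f = 0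

/-- every point can be moved in every direction by a derivation which fixes the other points -/
def Movable {ι : Type} (q : ι → Fin 2 → ℂ) : Prop :=
  ∀ (i : ι) (v : Fin 2 → ℂ), ∃ Δ : Derivation ℚ ℂ ℂ,
    (∀ j, j ≠ i → ∀ l, Δ (q j l) = 0) ∧ ∀ l, Δ (q i l) = v l

/-! ### rectangles -/

/-- `ER T q a`: there is no curve of bidegree `(H - 1, L - 1)` with generic points of
multiplicities `k i ≤ c ≤ T`, if `H - 1 ≥ q c`, `L - 1 ≥ a c` and the self-intersection is not
positive -/
def ER (T q a : ℕ) : Prop := ∀ (N c H L : ℕ) (k : Fin N → ℕ), 1 ≤ c → c ≤ T → (∀ i, k i ≤ c) →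
  q * c + 1 ≤ H → a * c + 1 ≤ L → 2 * ((H - 1) * (L - 1)) ≤ ∑ i, k i ^ 2 → hRm H L k = 0

/-- the windows for rectangles -/
def WinR (T q a : ℕ) : Prop := ∀ (N c H L : ℕ) (k : Fin N → ℕ), 1 ≤ c → (∀ i, k i ≤ c) →
  6 * q * (c + 1) + 1 ≤ H → 6 * a * (c + 1) + 1 ≤ L →
    (T * (2 * ((H - 1) * (L - 1))) + 6 * c ^ 2 ≤ T * ∑ i, k i ^ 2 → hRm H L k = 0) ∧
    (T * (∑ i, k i ^ 2 + 23 * (∑ i, k i + H + L)) + 6 * (c + 1) ^ 2 ≤
      T * (2 * ((H - 1) * (L - 1))) → hRm H L k + ∑ i, (k i + 1).choose 2 = H * L)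

/-- a strip of a rectangle: `κ` rows and a further piece of `L - X` monomials are filled -/
def RStep {r : ℕ} (H L κ X : ℕ) (y y' : Fin r → ℕ) : Prop :=
  1 ≤ κ ∧ κ + 1 ≤ H ∧ X ≤ L ∧ (∀ i, y' i = y i ∨ y' i = 0) ∧
    hRm H L y ≤ max (hRm (H - κ) L y' - (L - X)) (hRm (H - κ - 1) L y')

/-! ### the plane -/

/-- `FP T ρ`: all systems with multiplicities `m i ≤ c ≤ T` and degree `D ≥ ρ c` are nonspecial -/
def FP (T ρ : ℕ) : Prop := ∀ (r c D : ℕ) (m : Fin r → ℕ), 1 ≤ c → c ≤ T → (∀ i, m i ≤ c) →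
  ρ * c ≤ D → hPm D m = (D + 2).choose 2 - ∑ i, (m i + 1).choose 2

/-- the windows for the plane -/
def WinP (T ρ : ℕ) : Prop := ∀ (r c D : ℕ) (m : Fin r → ℕ), 1 ≤ c → (∀ i, m i ≤ c) →
  3 * ρ * (c + 1) ≤ D →
    (T * D ^ 2 + 6 * c ^ 2 ≤ T * ∑ i, m i ^ 2 → hPm D m = 0) ∧
    (T * (∑ i, m i ^ 2 + 23 * ∑ i, m i) + 6 * (c + 1) ^ 2 ≤ T * D ^ 2 →
      hPm D m + ∑ i, (m i + 1).choose 2 = (D + 2).choose 2)

/-- a strip of the plane: `κ` rows and a further piece of `A` monomials are filled -/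
def PStep {r : ℕ} (D κ A : ℕ) (y y' : Fin r → ℕ) : Prop :=
  1 ≤ κ ∧ κ + 1 ≤ D ∧ A ≤ D - κ + 1 ∧ (∀ i, y' i = y i ∨ y' i = 0) ∧
    A + κ * (D + 1) + ∑ i, (y' i + 1).choose 2 = ∑ i, (y i + 1).choose 2 + κ.choose 2 ∧
    hPm D y ≤ max (hPm (D - κ) y' - A) (hPm (D - κ - 1) y')

/-- pools of multiplicities: `P v` is the index of the pool of `v` -/
structure Pools (P : ℕ → ℕ) (p U T J : ℕ) : Prop where
  mono : Monotone P
  width : ∀ v w, P v = P w → v ≤ w → w ≤ v + v / p
  small : ∀ v w, P v = P w → v < U → v = w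
  count : ∀ v, v ≤ T → P v < J

end Pool.Agent.Work.MP_0421d9_ag.LD
end

section
/-!
Pools of multiplicities (helper21, after the plan of helper69).
-/

namespace Pool.Agent.Work.MP_0421d9_ag.LD

/-- the thresholds -/
def zthr (p U : ℕ) : ℕ → ℕ
  | 0 => 0
  | j + 1 => if zthr p U j < U then zthr p U j + 1 else zthr p U j + zthr p U j / p + 1

theorem zthr_lt (p U j : ℕ) : zthr p U j < zthr p U (j + 1) := by
  rw [zthr]
  have h := Nat.zero_le (zthr p U j / p)
  split_ifs <;> omega

theorem zthr_strictMono (p U : ℕ) : StrictMono (zthr p U) := strictMono_nat_of_lt_succ (zthr_lt p U)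

theorem zthr_ge (p U j : ℕ) : j ≤ zthr p U j := (zthr_strictMono p U).id_le j

/-- growth by the factor two -/
theorem zthr_double {p U j : ℕ} (hp : 1 ≤ p) (hj : U ≤ j) :
    2 * zthr p U j + 1 ≤ zthr p U (j + p) := by
  have key : ∀ k, k ≤ p → zthr p U j + k * (zthr p U j / p + 1) ≤ zthr p U (j + k) := by
    intro k
    induction k with
    | zero =>
      intro _
      simp
    | succ k ih =>
      intro hk
      have h1 := ih (by omega)
      have h2 : ¬ zthr p U (j + k) < U := by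
        have := zthr_ge p U (j + k)
        omega
      have h3 : zthr p U (j + (k + 1)) = zthr p U (j + k) + zthr p U (j + k) / p + 1 := by
        rw [← Nat.add_assoc, zthr, if_neg h2]
      have h4 : zthr p U j / p ≤ zthr p U (j + k) / p :=
        Nat.div_le_div_right ((zthr_strictMono p U).monotone (Nat.le_add_right j k))
      rw [h3, Nat.succ_mul]
      omega
  have h1 := key p le_rfl
  have h2 : zthr p U j < p * (zthr p U j / p + 1) := Nat.lt_mul_div_succ _ hp
  omega

theorem zthr_pow {p U : ℕ} (hp : 1 ≤ p) (k : ℕ) : 2 ^ k ≤ zthr p U (U + p * k) + 1 := by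
  induction k with
  | zero => simp
  | succ k ih =>
    have h1 := zthr_double (p := p) (U := U) (j := U + p * k) hp (Nat.le_add_right _ _)
    have h2 : U + p * (k + 1) = U + p * k + p := by ring
    rw [h2, pow_succ]
    omega

/-- the index of the pool -/
def zidx (p U v : ℕ) : ℕ := Nat.findGreatest (fun j => zthr p U j ≤ v) v

theorem zidx_le (p U v : ℕ) : zthr p U (zidx p U v) ≤ v :=
  Nat.findGreatest_spec (P := fun j => zthr p U j ≤ v) (Nat.zero_le v) (Nat.zero_le v)

theorem zidx_lt (p U v : ℕ) : v < zthr p U (zidx p U v + 1) := by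
  by_contra hcon
  push Not at hcon
  have h1 : zidx p U v + 1 ≤ v := (zthr_ge p U _).trans hcon
  have h2 := Nat.le_findGreatest (P := fun j => zthr p U j ≤ v) h1 hcon
  unfold zidx at h2
  omega

theorem exists_pools (p U T : ℕ) (hp : 1 ≤ p) :
    ∃ P, Pools P p U T (U + p * (Nat.log 2 (T + 1) + 2) + 2) := by
  refine ⟨zidx p U, ?_, ?_, ?_, ?_⟩
  · intro v w hvw
    by_contra hcon
    push Not at hcon
    have h1 := zidx_le p U v
    have h2 := zidx_lt p U w
    have h3 := (zthr_strictMono p U).monotone (show zidx p U w + 1 ≤ zidx p U v from hcon)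
    omega
  · intro v w h hvw
    have h1 := zidx_le p U v
    have h2 := zidx_lt p U w
    rw [← h, zthr] at h2
    have h3 : zthr p U (zidx p U v) / p ≤ v / p := Nat.div_le_div_right h1
    have h4 := Nat.zero_le (zthr p U (zidx p U v) / p)
    split_ifs at h2 <;> omega
  · intro v w h hv
    have h1 := zidx_le p U v
    have h2 := zidx_lt p U v
    have h3 := zidx_le p U w
    have h4 := zidx_lt p U w
    rw [← h] at h3 h4
    rw [zthr, if_pos (by omega)] at h2 h4
    omega
  · intro v hv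
    by_contra hcon
    push Not at hcon
    have h1 := zidx_le p U v
    have h2 := zthr_pow (U := U) hp (Nat.log 2 (T + 1) + 1)
    have h3 : U + p * (Nat.log 2 (T + 1) + 1) ≤ zidx p U v := by
      refine le_trans ?_ hcon
      have : p * (Nat.log 2 (T + 1) + 1) ≤ p * (Nat.log 2 (T + 1) + 2) :=
        Nat.mul_le_mul_left p (by omega)
      omega
    have h4 := (zthr_strictMono p U).monotone h3
    have h5 := Nat.lt_pow_succ_log_self (b := 2) (by norm_num) (T + 1)
    omega

end Pool.Agent.Work.MP_0421d9_ag.LD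
end

section
/-!
Cutting off rows: the step of `Step69` for systems with restricted support.
-/

namespace Pool.Agent.Work.MP_0421d9_ag.LD

open MvPolynomial Module

/-! ### shears -/

/-- the shear `X 0 ↦ X 0 - c * X 1` -/
def shear (c : ℂ) : Matrix (Fin 3) (Fin 3) ℂ := !![1, -c, 0; 0, 1, 0; 0, 0, 1]

theorem lin_shear0 (c : ℂ) : lin (shear c 0) = X 0 - C c * X 1 := by
  unfold lin
  rw [Fin.sum_univ_three]
  simp [shear]
  ring

theorem lin_shear1 (c : ℂ) : lin (shear c 1) = X 1 := by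
  unfold lin
  rw [Fin.sum_univ_three]
  simp [shear]

theorem lin_shear2 (c : ℂ) : lin (shear c 2) = X 2 := by
  unfold lin
  rw [Fin.sum_univ_three]
  simp [shear]

theorem shear_mulVec (c : ℂ) (q : V3) : (shear c).mulVec q = ![q 0 - c * q 1, q 1, q 2] := by
  funext i
  fin_cases i <;> simp [shear, Matrix.mulVec, dotProduct, Fin.sum_univ_three]
  ring

theorem shear_mul (c : ℂ) : shear (-c) * shear c = 1 := by
  ext i j
  fin_cases i <;> fin_cases j <;> simp [shear, Matrix.mul_apply, Fin.sum_univ_three]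

/-- the support of the sheared form -/
theorem coeff_shear_monomial (c : ℂ) (α β : Fin 3 →₀ ℕ) (a : ℂ)
    (h : coeff β (subM (shear c) (monomial α a)) ≠ 0) :
    β 2 = α 2 ∧ β 0 ≤ α 0 ∧ β 0 + β 1 = α 0 + α 1 := by
  classical
  have h1 : subM (shear c) (monomial α a) =
      C a * ((X 0 + C (-c) * X 1) ^ α 0 * X 1 ^ α 1 * X 2 ^ α 2) := by
    unfold subM
    rw [aeval_monomial, Finsupp.prod_fintype _ _ (fun i => pow_zero _), Fin.prod_univ_three,
      lin_shear0, lin_shear1, lin_shear2, algebraMap_eq]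
    congr 4
    rw [map_neg]
    ring
  have h2 : (C a * ((X 0 + C (-c) * X 1) ^ α 0 * X 1 ^ α 1 * X 2 ^ α 2) : R3) =
      ∑ j ∈ Finset.range (α 0 + 1), monomial (Finsupp.single 0 j +
        Finsupp.single 1 (α 0 - j + α 1) + Finsupp.single 2 (α 2))
        (a * ((-c) ^ (α 0 - j) * ((α 0).choose j : ℂ))) := by
    rw [add_pow, Finset.sum_mul, Finset.sum_mul, Finset.mul_sum]
    refine Finset.sum_congr rfl (fun j _ => ?_)
    have h3 : (monomial (Finsupp.single 0 j + Finsupp.single 1 (α 0 - j + α 1) +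
        Finsupp.single 2 (α 2)) (a * ((-c) ^ (α 0 - j) * ((α 0).choose j : ℂ))) : R3) =
        C (a * ((-c) ^ (α 0 - j) * ((α 0).choose j : ℂ))) *
          (X 0 ^ j * X 1 ^ (α 0 - j + α 1) * X 2 ^ α 2) := by
      rw [X_pow_eq_monomial, X_pow_eq_monomial, X_pow_eq_monomial, monomial_mul, monomial_mul,
        C_mul_monomial]
      ring_nf
    rw [h3, pow_add]
    simp only [map_mul, map_pow, map_natCast, mul_pow]
    ring
  rw [h1, h2, coeff_sum] at h
  obtain ⟨j, hj, hj'⟩ := Finset.exists_ne_zero_of_sum_ne_zero h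
  rw [coeff_monomial] at hj'
  have h4 := (ite_ne_right_iff.mp hj').1
  rw [Finset.mem_range] at hj
  have e0 : β 0 = j := by rw [← h4]; simp
  have e1 : β 1 = α 0 - j + α 1 := by rw [← h4]; simp
  have e2 : β 2 = α 2 := by rw [← h4]; simp
  omega

theorem coeff_shear (c : ℂ) (F : R3) (β : Fin 3 →₀ ℕ) (h : coeff β (subM (shear c) F) ≠ 0) :
    ∃ α, coeff α F ≠ 0 ∧ β 2 = α 2 ∧ β 0 ≤ α 0 ∧ β 0 + β 1 = α 0 + α 1 := by
  classical
  have h1 : subM (shear c) F = ∑ α ∈ F.support, subM (shear c) (monomial α (coeff α F)) := by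
    conv_lhs => rw [← support_sum_monomial_coeff F]
    rw [map_sum]
  rw [h1, coeff_sum] at h
  obtain ⟨α, hα, hα'⟩ := Finset.exists_ne_zero_of_sum_ne_zero h
  exact ⟨α, mem_support_iff.mp hα, coeff_shear_monomial c α β _ hα'⟩

/-- shearing the points -/
theorem subM_shear_mem {D m N : ℕ} {T : Set (Fin 3 →₀ ℕ)} {q : Fin N → V3} {c : ℂ}
    (hT' : ∀ α β : Fin 3 →₀ ℕ, α ∈ T → β 2 = α 2 → β 0 ≤ α 0 → β 0 + β 1 = α 0 + α 1 → β ∈ T)
    {F : R3} (hF : F ∈ TS D T m (fun i => (shear c).mulVec (q i))) :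
    subM (shear c) F ∈ TS D T m q := by
  rw [mem_TS] at hF ⊢
  obtain ⟨h1, h2, h3⟩ := hF
  refine ⟨subM_isHomogeneous _ h1, fun i => vanishTo_subM _ (h2 i), fun β hβ => ?_⟩
  obtain ⟨α, hα, h4, h5, h6⟩ := coeff_shear c F β hβ
  exact hT' α β (h3 α hα) h4 h5 h6

/-! ### the line `X 2 = 0` -/

theorem coeff_onLine_e1_e0 {D : ℕ} {F : R3} (hF : F.IsHomogeneous D) {α : Fin 3 →₀ ℕ}
    (hα : α 2 = 0) (hα' : α.degree = D) : (onLine e1 e0 F).coeff (α 0) = coeff α F := by
  classical
  rw [onLine_e1_e0, Polynomial.finsetSum_coeff]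
  rw [Finset.sum_eq_single α]
  · rw [Polynomial.coeff_C_mul_X_pow, if_pos rfl, if_pos hα, mul_one]
  · intro β hβ hne
    rw [Polynomial.coeff_C_mul_X_pow]
    split_ifs with h1 h2
    · exfalso
      apply hne
      have h3 := degree_of_mem_support hF (mem_support_iff.mp hβ)
      rw [Finsupp.degree_eq_sum, Fin.sum_univ_three] at h3 hα'
      ext i
      fin_cases i
      · exact h1.symm
      · change β 1 = α 1
        omega
      · exact h2.trans hα.symm
    · rw [mul_zero]
    · rfl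
  · intro hα
    rw [notMem_support_iff.mp hα, zero_mul, map_zero, zero_mul, Polynomial.coeff_zero]

/-- forms which vanish on the line `X 2 = 0` -/
theorem exists_div_of_onLine {D : ℕ} {F : R3} (hF : F.IsHomogeneous (D + 1))
    (h : onLine e1 e0 F = 0) : ∃ G : R3, G.IsHomogeneous D ∧ F = X 2 ^ 1 * G ∧
      ∀ β, coeff β G = coeff (Finsupp.single 2 1 + β) F := by
  apply exists_div_X2 hF
  intro α hα
  by_contra hcon
  have h1 : α 2 = 0 := by omega
  have h2 := mem_support_iff.mp hα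
  apply h2
  rw [← coeff_onLine_e1_e0 hF h1 (degree_of_mem_support hF h2), h, Polynomial.coeff_zero]

/-- a new flag on the line `X 2 = 0` at a general point -/
theorem flag_dim {δ m r A : ℕ} {T : Set (Fin 3 →₀ ℕ)} (q : Fin r → V3) (hq : ∀ i, q i 2 ≠ 0) :
    ∃ h : Polynomial ℂ, h ≠ 0 ∧ ∀ c, h.eval c ≠ 0 →
      finrank ℂ ↥(TS (δ + 1) T m q ⊓ (ordSub c A).comap (onLine e1 e0).toLinearMap) ≤
        max (finrank ℂ (TS (δ + 1) T m q) - A)
          (finrank ℂ (TS δ {β | β + Finsupp.single 2 1 ∈ T} m q)) := by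
  classical
  let φ : R3 →ₗ[ℂ] Polynomial ℂ := (onLine e1 e0).toLinearMap
  have hφ : ∀ F, φ F = onLine e1 e0 F := fun F => rfl
  set S := TS (δ + 1) T m q with hS
  have hfin : Module.Finite ℂ ↥(S.map φ) := inferInstance
  obtain ⟨h, hh0, hh⟩ := @order_generic (S.map φ) hfin A
  refine ⟨h, hh0, fun c hc => ?_⟩
  have h1 := hh c hc
  have hker : finrank ℂ ↥(S ⊓ LinearMap.ker φ) ≤
      finrank ℂ (TS δ {β | β + Finsupp.single 2 1 ∈ T} m q) := by
    have h2 : S ⊓ LinearMap.ker φ ≤
        (TS δ {β | β + Finsupp.single 2 1 ∈ T} m q).map (LinearMap.mulLeft ℂ (X 2 ^ 1 : R3)) := by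
      intro F hF
      obtain ⟨h3, h4⟩ := Submodule.mem_inf.mp hF
      rw [hS, mem_TS] at h3
      rw [LinearMap.mem_ker, hφ] at h4
      obtain ⟨G, hG1, hG2, hG3⟩ := exists_div_of_onLine h3.1 h4
      refine ⟨G, ?_, by rw [LinearMap.mulLeft_apply, hG2]⟩
      refine mem_TS.mpr ⟨hG1, fun i => ?_, fun β hβ => ?_⟩
      · have h5 := h3.2.1 i
        rw [hG2] at h5
        exact vanishTo_of_X2_pow_mul (hq i) h5
      · rw [hG3] at hβ
        have h5 := h3.2.2 _ hβ
        rwa [add_comm] at h5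
    exact (Submodule.finrank_mono h2).trans (Submodule.finrank_map_le _ _)
  have hT : finrank ℂ ↥(S ⊓ (ordSub c A).comap φ) ≤
      finrank ℂ ↥(S ⊓ LinearMap.ker φ) + (finrank ℂ ↥(S.map φ) - A) := by
    have hfT : Module.Finite ℂ ↥(S ⊓ (ordSub c A).comap φ) :=
      Submodule.finiteDimensional_of_le inf_le_left
    rw [finrank_eq_ker_add_map φ (S ⊓ (ordSub c A).comap φ)]
    have hfK : Module.Finite ℂ ↥(S ⊓ LinearMap.ker φ) :=
      Submodule.finiteDimensional_of_le inf_le_left
    have hfM : Module.Finite ℂ ↥(S.map φ ⊓ ordSub c A) :=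
      Submodule.finiteDimensional_of_le inf_le_left
    refine add_le_add ?_ ?_
    · apply Submodule.finrank_mono
      exact inf_le_inf_right _ inf_le_left
    · refine le_trans (Submodule.finrank_mono ?_) h1
      rintro _ ⟨F, hF, rfl⟩
      obtain ⟨h3, h4⟩ := Submodule.mem_inf.mp hF
      exact Submodule.mem_inf.mpr ⟨⟨F, h3, rfl⟩, h4⟩
  have h5 := finrank_eq_ker_add_map φ S
  refine hT.trans ?_
  rcases Nat.lt_or_ge (finrank ℂ ↥(S.map φ)) A with h6 | h6
  · refine le_trans ?_ (le_max_right _ _)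
    omega
  · refine le_trans ?_ (le_max_left _ _)
    omega

/-! ### the points -/

theorem generic_coord_ne {N : ℕ} {q : Fin N → V3} (hq : GenericPoints q) (i : Fin N)
    (k : Fin 3) : q i k ≠ 0 := by
  have h1 := AlgebraicIndependent.ne_zero hq (i, k)
  exact h1

/-! ### peeling -/

theorem peel {δ κ m r N A : ℕ} {T : Set (Fin 3 →₀ ℕ)} (hκ : 1 ≤ κ) (hA : A ≤ δ + 2)
    (hT' : ∀ α β : Fin 3 →₀ ℕ, α ∈ T → β 2 = α 2 → β 0 ≤ α 0 → β 0 + β 1 = α 0 + α 1 → β ∈ T)
    (hkill : Kills (δ + 1 + κ) m N {α | α ∈ T ∧ (α 2 < κ ∨ (α 2 = κ ∧ α 0 < A))}) :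
    hT (δ + 1 + κ) T m (r + N) ≤
      max (hT (δ + 1) {β | β + Finsupp.single 2 κ ∈ T} m r - A)
        (hT δ {β | β + Finsupp.single 2 (κ + 1) ∈ T} m r) := by
  classical
  set q := gpt r with hqdef
  have hq2 : ∀ i, q i 2 ≠ 0 := fun i => generic_coord_ne (gpt_generic r) i 2
  set T1 : Set (Fin 3 →₀ ℕ) := {β | β + Finsupp.single 2 κ ∈ T} with hT1
  have hT1' : ∀ α β : Fin 3 →₀ ℕ, α ∈ T1 → β 2 = α 2 → β 0 ≤ α 0 →
      β 0 + β 1 = α 0 + α 1 → β ∈ T1 := by
    intro α β hα h2 h0 h1
    refine hT' _ _ hα ?_ ?_ ?_ <;> simp [Finsupp.add_apply, h2, h0, h1]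
  obtain ⟨h, hh0, hh⟩ := flag_dim (δ := δ) (m := m) (A := A) (T := T1) q hq2
  obtain ⟨c, hc, -⟩ := exists_eval_ne hh0 (one_ne_zero (α := Polynomial ℂ))
  have hdim := hh c hc
  have hT2 : {β : Fin 3 →₀ ℕ | β + Finsupp.single 2 1 ∈ T1} =
      {β | β + Finsupp.single 2 (κ + 1) ∈ T} := by
    ext β
    simp only [hT1, Set.mem_ofPred_eq, add_assoc, ← Finsupp.single_add]
    rw [add_comm 1 κ]
  rw [hT2] at hdim
  refine le_trans ?_ hdim
  -- the sheared points
  set p : Fin r → V3 := fun i => (shear c).mulVec (q i) with hp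
  have hp2 : ∀ i, p i 2 ≠ 0 := by
    intro i
    rw [hp]
    simp only [shear_mulVec]
    exact hq2 i
  obtain ⟨P, hP, hkill⟩ := hkill
  let M := δ + 1 + κ + 1
  let w : Fin 3 → ℕ := ![1, 0, M]
  have hw : ∀ α : Fin 3 →₀ ℕ, wt3 w α = α 0 + M * α 2 := by
    intro α
    unfold wt3
    simp [Fin.sum_univ_three, w]
  let c' := M * κ + A - 1
  have hc' : ∀ α : Fin 3 →₀ ℕ, α.degree = δ + 1 + κ → (wt3 w α ≤ c' ↔
      (α 2 < κ ∨ (α 2 = κ ∧ α 0 < A))) := by
    intro α hα
    rw [hw, Finsupp.degree_eq_sum, Fin.sum_univ_three] at *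
    have hMu : 1 ≤ M * κ := Nat.mul_pos (Nat.succ_pos _) hκ
    have h0 : α 0 < M := by omega
    constructor
    · intro h
      by_cases h1 : α 2 < κ
      · exact Or.inl h1
      · right
        have h2 : M * κ ≤ M * α 2 := Nat.mul_le_mul_left _ (by omega)
        have h3 : α 2 = κ := by
          by_contra hcon
          have h4 : M * (κ + 1) ≤ M * α 2 := Nat.mul_le_mul_left _ (by omega)
          rw [mul_add, mul_one] at h4
          have h5 : M = δ + 1 + κ + 1 := rfl
          have h6 : c' = M * κ + A - 1 := rfl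
          omega
        refine ⟨h3, ?_⟩
        rw [h3] at h
        omega
    · rintro (h | ⟨h1, h2⟩)
      · have h3 : M * (α 2 + 1) ≤ M * κ := Nat.mul_le_mul_left _ (by omega)
        rw [mul_add, mul_one] at h3
        omega
      · rw [h1]
        omega
  have hdeg : ∀ {F : R3}, F.IsHomogeneous (δ + 1 + κ) → ∀ α ∈ F.support,
      α.degree = δ + 1 + κ :=
    fun hF α hα => degree_of_mem_support hF (mem_support_iff.mp hα)
  obtain ⟨τ, hτ, h1⟩ := cut (D := δ + 1 + κ) w c' P (fun _ => m) T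
    (fun G hG hG' hG'' => hkill G hG
      (fun α hα => ⟨(hG' α hα).1, (hc' α (hdeg hG α hα)).mp (hG' α hα).2⟩) hG'')
    (TS (δ + 1 + κ) T m p) (fun F hF => ⟨(mem_TS.mp hF).1,
      fun α hα => (mem_TS.mp hF).2.2 α (mem_support_iff.mp hα)⟩)
  -- the part above
  have h2 : finrank ℂ ↥(TS (δ + 1 + κ) T m p ⊓ offSub {α | wt3 w α ≤ c'}) ≤
      finrank ℂ ↥(TS (δ + 1) T1 m q ⊓ (ordSub c A).comap (onLine e1 e0).toLinearMap) := by
    have hfin : Module.Finite ℂ ↥(TS (δ + 1) T1 m q ⊓
        (ordSub c A).comap (onLine e1 e0).toLinearMap) :=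
      Submodule.finiteDimensional_of_le inf_le_left
    have h3 : TS (δ + 1 + κ) T m p ⊓ offSub {α | wt3 w α ≤ c'} ≤
        (TS (δ + 1) T1 m q ⊓ (ordSub c A).comap (onLine e1 e0).toLinearMap).map
          (LinearMap.mulLeft ℂ (X 2 ^ κ : R3) ∘ₗ (subM (shear (-c))).toLinearMap) := by
      intro F hF
      rw [Submodule.mem_inf, mem_TS, mem_offSub] at hF
      obtain ⟨⟨hF1, hF2, hF3⟩, hF4⟩ := hF
      have hF5 : ∀ α : Fin 3 →₀ ℕ, (α 2 < κ ∨ (α 2 = κ ∧ α 0 < A)) → coeff α F = 0 := by
        intro α hα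
        by_contra hcon
        have h5 := degree_of_mem_support hF1 hcon
        exact hcon (hF4 α ((hc' α h5).mpr hα))
      obtain ⟨G, hG1, hG2, hG3⟩ := exists_div_X2 hF1 (fun α hα => by
        by_contra hcon
        exact (mem_support_iff.mp hα) (hF5 α (Or.inl (by omega))))
      have hGp : G ∈ TS (δ + 1) T1 m p := by
        refine mem_TS.mpr ⟨hG1, fun i => ?_, fun β hβ => ?_⟩
        · have h5 := hF2 i
          rw [hG2] at h5
          exact vanishTo_of_X2_pow_mul (hp2 i) h5
        · rw [hG3] at hβ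
          have h5 := hF3 _ hβ
          rwa [add_comm] at h5
      refine Submodule.mem_map.mpr ⟨subM (shear c) G, Submodule.mem_inf.mpr
        ⟨subM_shear_mem hT1' hGp, ?_⟩, ?_⟩
      · change onLine e1 e0 (subM (shear c) G) ∈ ordSub c A
        have h6 : onLine e1 e0 G =
            (onLine e1 e0 (subM (shear c) G)).comp (Polynomial.X + Polynomial.C c) := by
          rw [onLine_subM]
          have h7 : (shear c).mulVec e0 = e0 := by
            rw [shear_mulVec]
            funext i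
            fin_cases i <;> simp [e0]
          have h8 : ((shear c).mulVec e1 + c • e0 : V3) = e1 := by
            rw [shear_mulVec]
            funext i
            fin_cases i <;> simp [e0, e1]
          rw [h7, ← onLine_shift, h8]
        intro k hk
        rw [← h6, onLine_e1_e0, Polynomial.finsetSum_coeff]
        refine Finset.sum_eq_zero (fun β _ => ?_)
        rw [Polynomial.coeff_C_mul_X_pow]
        split_ifs with h8 h9
        · rw [hG3, hF5 _ (Or.inr ⟨?_, ?_⟩), zero_mul]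
          · rw [Finsupp.add_apply, Finsupp.single_eq_same, h9, add_zero]
          · rw [Finsupp.add_apply, Finsupp.single_eq_of_ne (by decide), zero_add]
            omega
        · rw [mul_zero]
        · rfl
      · rw [LinearMap.comp_apply, LinearMap.mulLeft_apply, AlgHom.toLinearMap_apply, subM_subM]
        have h9 : shear c * shear (-c) = 1 := by
          have h10 := shear_mul (-c)
          rwa [neg_neg] at h10
        rw [h9, subM_one, hG2]
    exact (Submodule.finrank_mono h3).trans (Submodule.finrank_map_le _ _)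
  refine le_trans ?_ (h1.trans h2)
  -- all the points
  let P' : Fin N → V3 := fun k i => τ ^ w i * P k i
  refine (hT_le (Fin.append p P')).trans ?_
  have hfin : Module.Finite ℂ ↥(TS (δ + 1 + κ) T m p ⊓
      ⨅ k, vanSub (fun i => τ ^ w i * P k i) m) :=
    Submodule.finiteDimensional_of_le inf_le_left
  apply Submodule.finrank_mono
  intro F hF
  obtain ⟨hF1, hF2, hF3⟩ := mem_TS.mp hF
  rw [Submodule.mem_inf, Submodule.mem_iInf]
  refine ⟨mem_TS.mpr ⟨hF1, fun i => ?_, hF3⟩, fun k => ?_⟩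
  · have h4 := hF2 (Fin.castAdd N i)
    rwa [Fin.append_left] at h4
  · have h4 := hF2 (Fin.natAdd r k)
    rw [Fin.append_right] at h4
    exact h4

end Pool.Agent.Work.MP_0421d9_ag.LD
end

section
/-!
U2: many columns. Regularity on `P¹ × P¹` for `k ≤ H`, `N k ≤ L`, by points on a line (helper25).
-/

namespace Pool.Agent.Work.MP_0421d9_ag.LD

open MvPolynomial Module

namespace UA

/-- `X 0 ↦ x`, `X 1 ↦ s`, `X 2 ↦ y` -/
noncomputable def rh (s : ℂ) (x : Polynomial ℂ) : R3 →ₐ[ℂ] Polynomial (Polynomial ℂ) :=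
  aeval ![Polynomial.C x, Polynomial.C (Polynomial.C s), Polynomial.X]

theorem rh_coeff (s : ℂ) (x : Polynomial ℂ) (F : R3) (c : ℕ) :
    (rh s x F).coeff c = ∑ α ∈ F.support, if α 2 = c then
      Polynomial.C (coeff α F * s ^ α 1) * x ^ α 0 else 0 := by
  unfold rh
  rw [aeval_def, eval₂_eq', Polynomial.finsetSum_coeff]
  refine Finset.sum_congr rfl fun α _ => ?_
  rw [Fin.prod_univ_three]
  simp only [Matrix.cons_val_zero, Matrix.cons_val_one, Matrix.cons_val]
  have h1 : (algebraMap ℂ (Polynomial (Polynomial ℂ))) (coeff α F) =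
      Polynomial.C (Polynomial.C (coeff α F)) := rfl
  rw [h1, ← Polynomial.C_pow, ← Polynomial.C_pow, ← mul_assoc, ← Polynomial.C_mul,
    ← Polynomial.C_mul, Polynomial.coeff_C_mul, Polynomial.coeff_X_pow]
  split_ifs with h2 h3 h3
  · rw [mul_one, map_mul, Polynomial.C_pow]
    ring
  · exact absurd h2.symm h3
  · exact absurd h3.symm h2
  · rw [mul_zero]

/-- the rows -/
noncomputable def rw' (F : R3) (c : ℕ) : Polynomial ℂ := (rh 1 Polynomial.X F).coeff c

theorem rw'_coeff (F : R3) (c a : ℕ) : (rw' F c).coeff a =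
    ∑ α ∈ F.support, if α 2 = c ∧ α 0 = a then coeff α F else 0 := by
  unfold rw'
  rw [rh_coeff, Polynomial.finsetSum_coeff]
  refine Finset.sum_congr rfl fun α _ => ?_
  by_cases h2 : α 2 = c
  · rw [if_pos h2, one_pow, mul_one, Polynomial.coeff_C_mul, Polynomial.coeff_X_pow]
    by_cases h3 : α 0 = a
    · rw [if_pos h3.symm, if_pos ⟨h2, h3⟩, mul_one]
    · rw [if_neg (fun h => h3 h.symm), if_neg (fun h => h3 h.2), mul_zero]
  · rw [if_neg h2, if_neg (fun h => h2 h.1), Polynomial.coeff_zero]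

theorem rw'_coeff_hom {D : ℕ} {F : R3} (hF : F.IsHomogeneous D) (β : Fin 3 →₀ ℕ)
    (hβ : β.degree = D) : (rw' F (β 2)).coeff (β 0) = coeff β F := by
  rw [rw'_coeff, Finset.sum_eq_single β]
  · rw [if_pos ⟨rfl, rfl⟩]
  · intro α hα hne
    rw [if_neg]
    rintro ⟨h2, h0⟩
    apply hne
    have hαD : α.degree = D := by
      have h4 : Finsupp.weight 1 α = D := hF (mem_support_iff.mp hα)
      have h5 : α.degree = Finsupp.weight 1 α :=
        congrArg (fun f => f α) (Finsupp.degree_eq_weight_one (σ := Fin 3) (R := ℕ))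
      rw [h5, h4]
    rw [Finsupp.degree_eq_sum, Fin.sum_univ_three] at hαD hβ
    ext i
    fin_cases i
    · exact h0
    · change α 1 = β 1
      omega
    · exact h2
  · intro hβ'
    rw [if_pos ⟨rfl, rfl⟩]
    exact notMem_support_iff.mp hβ'

theorem translate_rh (x : ℂ) (F : R3) :
    rh 0 Polynomial.X (translate ![x, 1, 0] F) = rh 1 (Polynomial.X + Polynomial.C x) F := by
  unfold rh translate
  rw [← AlgHom.comp_apply, comp_aeval]
  congr 2
  funext i
  fin_cases i
  · simp
    ring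
  · simp
  · simp

theorem rh_comp (x : ℂ) (F : R3) (c : ℕ) : (rh 1 (Polynomial.X + Polynomial.C x) F).coeff c =
    (rw' F c).comp (Polynomial.X + Polynomial.C x) := by
  unfold rw'
  rw [rh_coeff, rh_coeff, Polynomial.sum_comp]
  refine Finset.sum_congr rfl fun α _ => ?_
  split_ifs
  · rw [Polynomial.mul_comp, Polynomial.C_comp, Polynomial.pow_comp, Polynomial.X_comp]
  · rw [Polynomial.zero_comp]

theorem rh_zero_coeff (G : R3) (c a : ℕ) {m : ℕ} (hG : ∀ β : Fin 3 →₀ ℕ, β.degree < m →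
    coeff β G = 0) (h : a + c < m) : ((rh 0 Polynomial.X G).coeff c).coeff a = 0 := by
  rw [rh_coeff, Polynomial.finsetSum_coeff]
  refine Finset.sum_eq_zero fun α hα => ?_
  split_ifs with h2
  · rw [Polynomial.coeff_C_mul, Polynomial.coeff_X_pow]
    by_cases h1 : α 1 = 0
    · by_cases h3 : a = α 0
      · exfalso
        apply mem_support_iff.mp hα
        apply hG
        rw [Finsupp.degree_eq_sum, Fin.sum_univ_three]
        omega
      · rw [if_neg h3, mul_zero]
    · rw [zero_pow h1, mul_zero, zero_mul]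
  · rw [Polynomial.coeff_zero]

theorem pow_dvd_rw' {F : R3} {x : ℂ} {m : ℕ} (h : VanishTo F ![x, 1, 0] m) (c : ℕ) :
    (Polynomial.X - Polynomial.C x) ^ (m - c) ∣ rw' F c := by
  rw [Polynomial.X_sub_C_pow_dvd_iff, Polynomial.X_pow_dvd_iff]
  intro d hd
  rw [← rh_comp, ← translate_rh]
  exact rh_zero_coeff _ c d (vanishTo_iff_coeff.mp h) (by omega)

theorem sum_sub (k : ℕ) : ∑ c ∈ Finset.range k, (k - c) = (k + 1).choose 2 := by
  induction k with
  | zero => rfl
  | succ k ih =>
    rw [Finset.sum_range_succ', Finset.sum_congr rfl (fun c _ => Nat.add_sub_add_right k 1 c), ih,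
      Nat.choose_succ_succ' (k + 1) 1, Nat.choose_one_right, Nat.sub_zero, add_comm]

theorem sum_sub' {k H : ℕ} (h : k ≤ H) : ∑ c ∈ Finset.range H, (k - c) = (k + 1).choose 2 := by
  rw [← sum_sub k]
  symm
  apply Finset.sum_subset (Finset.range_mono h)
  intro c _ hc
  rw [Finset.mem_range] at hc
  omega

/-- the polynomials of degree less than `L` divisible by `P` of degree `n` -/
noncomputable def Wd (P : Polynomial ℂ) (L n : ℕ) : Submodule ℂ (Polynomial ℂ) :=
  (Polynomial.degreeLT ℂ (L - n)).map (LinearMap.mulLeft ℂ P)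

theorem mem_Wd {P f : Polynomial ℂ} {L n : ℕ} (hP : P ≠ 0) (hn : P.natDegree = n) (h : P ∣ f)
    (hf : ∀ a, L ≤ a → f.coeff a = 0) : f ∈ Wd P L n := by
  obtain ⟨g, rfl⟩ := h
  refine ⟨g, ?_, rfl⟩
  rw [SetLike.mem_coe, Polynomial.mem_degreeLT]
  by_cases hg : g = 0
  · rw [hg, Polynomial.degree_zero]
    exact WithBot.bot_lt_coe _
  have h1 : (P * g).natDegree < L := by
    by_contra hcon
    have h2 := hf _ (not_lt.mp hcon)
    rw [Polynomial.coeff_natDegree, Polynomial.leadingCoeff_eq_zero] at h2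
    exact (mul_ne_zero hP hg) h2
  rw [Polynomial.natDegree_mul hP hg, hn] at h1
  rw [Polynomial.degree_eq_natDegree hg]
  exact_mod_cast (by omega : g.natDegree < L - n)

instance finite_Wd (P : Polynomial ℂ) (L n : ℕ) : Module.Finite ℂ (Wd P L n) := by
  have h : Module.Finite ℂ (Polynomial.degreeLT ℂ (L - n)) :=
    Module.Finite.equiv (Polynomial.degreeLTEquiv ℂ (L - n)).symm
  exact Module.Finite.map _ _

theorem finrank_Wd_le (P : Polynomial ℂ) (L n : ℕ) : finrank ℂ (Wd P L n) ≤ L - n := by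
  unfold Wd
  refine (Submodule.finrank_map_le _ _).trans ?_
  rw [LinearEquiv.finrank_eq (Polynomial.degreeLTEquiv ℂ (L - n))]
  simp

/-- the special points -/
noncomputable def sp (N : ℕ) (i : Fin N) : V3 := ![((i : ℕ) : ℂ), 1, 0]

noncomputable def Pp (N n : ℕ) : Polynomial ℂ :=
  ∏ i : Fin N, (Polynomial.X - Polynomial.C ((i : ℕ) : ℂ)) ^ n

theorem Pp_ne_zero (N n : ℕ) : Pp N n ≠ 0 :=
  Finset.prod_ne_zero_iff.mpr fun _ _ => pow_ne_zero _ (Polynomial.X_sub_C_ne_zero _)

theorem natDegree_Pp (N n : ℕ) : (Pp N n).natDegree = N * n := by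
  unfold Pp
  rw [Polynomial.natDegree_prod _ _
    (fun _ _ => pow_ne_zero _ (Polynomial.X_sub_C_ne_zero _))]
  rw [Finset.sum_congr rfl (fun i _ => by
    rw [Polynomial.natDegree_pow, Polynomial.natDegree_X_sub_C, mul_one]), Finset.sum_const,
    Finset.card_univ, Fintype.card_fin, smul_eq_mul]

theorem Pp_dvd {N n : ℕ} {f : Polynomial ℂ}
    (h : ∀ i : Fin N, (Polynomial.X - Polynomial.C ((i : ℕ) : ℂ)) ^ n ∣ f) : Pp N n ∣ f := by
  unfold Pp
  refine Finset.prod_dvd_of_coprime ?_ (fun i _ => h i)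
  intro i _ j _ hij
  apply IsCoprime.pow
  apply Polynomial.pairwise_coprime_X_sub_C (s := fun i : Fin N => ((i : ℕ) : ℂ)) ?_ hij
  intro a b hab
  exact Fin.ext (Nat.cast_injective hab)

/-- the rows as a linear map -/
noncomputable def rwL (c : ℕ) : R3 →ₗ[ℂ] Polynomial ℂ where
  toFun F := rw' F c
  map_add' F G := by
    unfold rw'
    rw [map_add, Polynomial.coeff_add]
  map_smul' a F := by
    unfold rw'
    rw [map_smul, Polynomial.coeff_smul]
    rfl

theorem upper {H L k N : ℕ} (hH : 1 ≤ H) (hL : 1 ≤ L) :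
    hR H L k N ≤ ∑ c ∈ Finset.range H, (L - N * (k - c)) := by
  refine (hT_le (sp N)).trans ?_
  let Φ : TS (H + L - 2) (rect H L) k (sp N) →ₗ[ℂ] ((c : Fin H) → Wd (Pp N (k - c)) L (N * (k - c))) :=
    LinearMap.pi fun c => LinearMap.codRestrict _ ((rwL c).comp (Submodule.subtype _)) (by
      rintro ⟨F, hF⟩
      obtain ⟨h1, h2, h3⟩ := mem_TS.mp hF
      change rw' F c ∈ _
      refine mem_Wd (Pp_ne_zero _ _) (natDegree_Pp _ _) (Pp_dvd fun i => pow_dvd_rw' (h2 i) c) ?_
      intro a ha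
      rw [rw'_coeff]
      refine Finset.sum_eq_zero fun α hα => ?_
      rw [if_neg]
      rintro ⟨-, h0⟩
      have h4 : α 0 < L := (h3 α (mem_support_iff.mp hα)).2
      omega)
  have hΦ : Function.Injective Φ := by
    rw [← LinearMap.ker_eq_bot, LinearMap.ker_eq_bot']
    rintro ⟨F, hF⟩ h0
    obtain ⟨h1, h2, h3⟩ := mem_TS.mp hF
    rw [Submodule.mk_eq_zero]
    ext β
    rw [coeff_zero]
    by_contra hβ
    obtain ⟨h4, h5⟩ := h3 β hβ
    apply hβ
    rw [← rw'_coeff_hom h1 β (by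
      have h6 : Finsupp.weight 1 β = H + L - 2 := h1 hβ
      have h7 : β.degree = Finsupp.weight 1 β :=
        congrArg (fun f => f β) (Finsupp.degree_eq_weight_one (σ := Fin 3) (R := ℕ))
      rw [h7, h6])]
    have h8 : rw' F (β 2) = 0 := congrArg Subtype.val (congrFun h0 ⟨β 2, h4⟩)
    rw [h8, Polynomial.coeff_zero]
  refine (LinearMap.finrank_le_finrank_of_injective hΦ).trans ?_
  rw [Module.finrank_pi_fintype, Finset.sum_range]
  exact Finset.sum_le_sum fun c _ => finrank_Wd_le _ _ _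

end UA

theorem hR_large {H L k N : ℕ} (hk : k ≤ H) (hL : N * k ≤ L) :
    hR H L k N + N * (k + 1).choose 2 = H * L := by
  rcases Nat.eq_zero_or_pos H with h0 | hH
  · subst h0
    obtain rfl : k = 0 := by omega
    rw [hR_zero]
    simp
  rcases Nat.eq_zero_or_pos L with h0 | hL'
  · subst h0
    rw [hR_zero_right]
    rcases Nat.mul_eq_zero.mp (Nat.le_zero.mp hL) with h | h
    · rw [h]; simp
    · rw [h]; simp
  refine le_antisymm ?_ (hR_count H L k N)
  have h1 := UA.upper (k := k) (N := N) hH hL'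
  have h2 : ∑ c ∈ Finset.range H, (L - N * (k - c)) + N * (k + 1).choose 2 = H * L := by
    rw [← UA.sum_sub' hk, Finset.mul_sum, ← Finset.sum_add_distrib]
    have h3 : ∀ c ∈ Finset.range H, L - N * (k - c) + N * (k - c) = L := by
      intro c _
      have h4 : N * (k - c) ≤ N * k := Nat.mul_le_mul_left N (Nat.sub_le k c)
      omega
    rw [Finset.sum_congr rfl h3, Finset.sum_const, Finset.card_range, smul_eq_mul]
  omega

end Pool.Agent.Work.MP_0421d9_ag.LD
end

section
/-!
Vanishing of a form at a point in affine coordinates.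
-/

namespace Pool.Agent.Work.MP_0421d9_ag.LD

open MvPolynomial Module

/-- restriction to `Z = 0` -/
noncomputable def res2 : R3 →ₐ[ℂ] P2 := aeval ![X 0, X 1, 0]

theorem loc_eq (a : V3) (F : R3) : loc a F = res2 (translate a F) := by
  unfold loc res2 translate
  induction F using MvPolynomial.induction_on with
  | C c => simp only [algHom_C, AlgHom.commutes]
  | add p q hp hq => rw [map_add, map_add, map_add, hp, hq]
  | mul_X p n hp =>
    rw [map_mul, map_mul, map_mul, hp, aeval_X, aeval_X, map_add, aeval_X, algHom_C]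
    congr 1
    fin_cases n <;> simp

theorem isHomogeneous_res2 {G : R3} {k : ℕ} (hG : G.IsHomogeneous k) :
    (res2 G).IsHomogeneous k := by
  unfold res2
  have h0 : ∀ i : Fin 3, ((![X 0, X 1, 0] : Fin 3 → P2) i).IsHomogeneous 1 := by
    intro i
    fin_cases i
    · exact isHomogeneous_X ℂ (0 : Fin 2)
    · exact isHomogeneous_X ℂ (1 : Fin 2)
    · exact isHomogeneous_zero _ _ _
  have h1 := hG.aeval _ h0
  simpa using h1

theorem eval_res2 (x : Fin 2 → ℂ) (G : R3) : eval x (res2 G) = eval ![x 0, x 1, 0] G := by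
  unfold res2
  induction G using MvPolynomial.induction_on with
  | C c => rw [algHom_C, algebraMap_eq, eval_C, eval_C]
  | add p q hp hq => rw [map_add, map_add, map_add, hp, hq]
  | mul_X p n hp =>
    rw [map_mul, map_mul, map_mul, hp, aeval_X, eval_X]
    congr 1
    fin_cases n <;> simp

theorem component_res2 (T : R3) (k : ℕ) :
    homogeneousComponent k (res2 T) = res2 (homogeneousComponent k T) := by
  conv_lhs => rw [← sum_homogeneousComponent T]
  rw [map_sum, map_sum]
  rcases Nat.lt_or_ge T.totalDegree k with h | h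
  · rw [homogeneousComponent_eq_zero k T h, map_zero]
    refine Finset.sum_eq_zero fun i hi => ?_
    rw [Finset.mem_range] at hi
    rw [homogeneousComponent_of_mem (isHomogeneous_res2
      (homogeneousComponent_isHomogeneous i T)), if_neg (by omega)]
  · rw [Finset.sum_eq_single k]
    · rw [homogeneousComponent_of_mem (isHomogeneous_res2
        (homogeneousComponent_isHomogeneous k T)), if_pos rfl]
    · intro i _ hi
      rw [homogeneousComponent_of_mem (isHomogeneous_res2
        (homogeneousComponent_isHomogeneous i T)), if_neg hi.symm]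
    · intro h'
      rw [Finset.mem_range] at h'
      omega

theorem van2_iff {f : P2} {m : ℕ} : Van2 f m ↔ ∀ k < m, homogeneousComponent k f = 0 := by
  constructor
  · intro h k hk
    ext β
    rw [coeff_homogeneousComponent, coeff_zero]
    split_ifs with h1
    · exact h β (by omega)
    · rfl
  · intro h β hβ
    have h1 := congrArg (coeff β) (h _ hβ)
    rwa [coeff_homogeneousComponent, if_pos rfl, coeff_zero] at h1

theorem van2_of_vanishTo {F : R3} {a : V3} {m : ℕ} (h : VanishTo F a m) : Van2 (loc a F) m := by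
  rw [van2_iff]
  intro k hk
  rw [loc_eq, component_res2, h k hk, map_zero]

theorem eq_zero_of_res2 {G : R3} {k : ℕ} (hG : G.IsHomogeneous k) {a : V3} (ha : a 2 ≠ 0)
    (hd : dir a G = 0) (h : res2 G = 0) : G = 0 := by
  apply MvPolynomial.funext
  intro y
  rw [map_zero]
  set s : ℂ := -(y 2) / a 2 with hs
  have hds : dir (s • a) G = 0 := by
    have h1 : dir (s • a) G = C s * dir a G := by
      rw [dir_apply, dir_apply, Finset.mul_sum]
      refine Finset.sum_congr rfl fun i _ => ?_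
      rw [Pi.smul_apply, smul_eq_mul, C_mul]
      ring
    rw [h1, hd, mul_zero]
  have h2 : translate (s • a) G = G := by
    rw [translate_eq hG, Finset.sum_eq_single 0]
    · simp
    · intro n _ hn
      obtain ⟨n', rfl⟩ := Nat.exists_eq_succ_of_ne_zero hn
      rw [Function.iterate_succ_apply, hds]
      have h3 : ∀ n : ℕ, (dir (s • a))^[n] (0 : R3) = 0 := by
        intro n
        induction n with
        | zero => rfl
        | succ n ih => rw [Function.iterate_succ_apply, map_zero, ih]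
      rw [h3, mul_zero]
    · intro h'
      exact absurd (Finset.mem_range.mpr (Nat.succ_pos _)) h'
  have h3 := eval_translate (s • a) y G
  rw [h2] at h3
  rw [h3]
  set z : V3 := s • a + y with hz
  have hz2 : z 2 = 0 := by
    rw [hz, Pi.add_apply, Pi.smul_apply, smul_eq_mul, hs, div_mul_cancel₀ _ ha]
    ring
  have h4 : z = ![z 0, z 1, 0] := by
    funext i
    fin_cases i
    · rfl
    · rfl
    · exact hz2
  have h5 := eval_res2 ![z 0, z 1] G
  rw [h, map_zero] at h5
  rw [h4]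
  simpa using h5.symm

theorem vanishTo_of_van2 {F : R3} {d : ℕ} (hF : F.IsHomogeneous d) {a : V3} (ha : a 2 ≠ 0)
    {m : ℕ} (h : Van2 (loc a F) m) : VanishTo F a m := by
  rw [van2_iff] at h
  intro k hk
  induction k with
  | zero =>
    apply eq_zero_of_res2 (homogeneousComponent_isHomogeneous 0 _) ha
    · rw [taylor_component hF a (Nat.zero_le d), dir_C_mul, ← Function.iterate_succ_apply' (dir a),
        dir_iterate_eq_zero hF a (by omega), mul_zero]
    · rw [← component_res2, ← loc_eq]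
      exact h 0 hk
  | succ k ih =>
    have h1 := ih (by omega)
    rcases Nat.lt_or_ge d (k + 1) with h2 | h2
    · exact taylor_component_gt hF a h2
    · apply eq_zero_of_res2 (homogeneousComponent_isHomogeneous _ _) ha
      · rw [taylor_component hF a h2, dir_C_mul, ← Function.iterate_succ_apply' (dir a)]
        rw [taylor_component hF a (by omega : k ≤ d)] at h1
        have e1 : d - k = (d - (k + 1)).succ := by omega
        rw [← e1]
        have h3 : (C (((d - k).factorial : ℂ)⁻¹) : R3) ≠ 0 := by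
          rw [Ne, C_eq_zero]
          exact inv_ne_zero (by exact_mod_cast Nat.factorial_ne_zero _)
        rw [(mul_eq_zero.mp h1).resolve_left h3, mul_zero]
      · rw [← component_res2, ← loc_eq]
        exact h _ hk

end Pool.Agent.Work.MP_0421d9_ag.LD
end

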