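import Pool.Agent.Work.Z0421M.C01

section
/-!
Test forms which are products of lines through few points.
-/

namespace Pool.Agent.Work.MP_0421d9_ag

open MvPolynomial

theorem dir_iterate_mul {a : V3} {g : R3} (hg : dir a g = 0) (n : ℕ) (h : R3) :
    (dir a)^[n] (g * h) = g * (dir a)^[n] h := by
  induction n generalizing h with
  | zero => rfl
  | succ n ih =>
    rw [Function.iterate_succ_apply, dir_mul, hg, zero_mul, zero_add, ih,
      ← Function.iterate_succ_apply]

theorem dir_iterate_mul' {a : V3} {h : R3} (hh : dir a h = 0) (n : ℕ) (g : R3) :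
    (dir a)^[n] (g * h) = (dir a)^[n] g * h := by
  rw [mul_comm, dir_iterate_mul hh, mul_comm]

theorem dir_iterate_eq_zero {h : R3} {e : ℕ} (hh : h.IsHomogeneous e) (a : V3) {n : ℕ}
    (hn : e < n) : (dir a)^[n] h = 0 := by
  have h1 := dir_iterate_isHomogeneous a e hh
  rw [Nat.sub_self] at h1
  have h0 : (dir a)^[e] h = C (coeff 0 ((dir a)^[e] h)) :=
    (MvPolynomial.totalDegree_eq_zero_iff_eq_C).mp (Nat.le_zero.mp h1.totalDegree_le)
  obtain ⟨k, rfl⟩ : ∃ k, n = k + 1 + e := ⟨n - e - 1, by omega⟩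
  rw [Function.iterate_add_apply, Function.iterate_succ_apply, h0, dir_C]
  exact iterate_map_zero (dir a) k

theorem B_eq_zero_of_factor {a : V3} {g h : R3} (hg : dir a g = 0) {e n : ℕ}
    (hh : h.IsHomogeneous e) (hn : e < n) (G : R3) : B (lin a ^ n * G) (g * h) = 0 := by
  rw [B_lin_pow_mul, dir_iterate_mul hg, dir_iterate_eq_zero hh a hn, mul_zero, map_zero]

theorem dir_mul_zero {a : V3} {g h : R3} (hg : dir a g = 0) (hh : dir a h = 0) :
    dir a (g * h) = 0 := by
  rw [dir_mul, hg, hh, zero_mul, mul_zero, add_zero]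

theorem dir_pow_zero {a : V3} {g : R3} (hg : dir a g = 0) (n : ℕ) : dir a (g ^ n) = 0 := by
  rw [dir_pow, hg, mul_zero, mul_zero]

theorem dir_xl_left (a b : V3) : dir a (xl a b) = 0 := by
  have := dir_lin a (cr a b)
  rw [show xl a b = lin (cr a b) from rfl, this]
  rw [show eval a (lin (cr a b)) = 0 from eval_xl_left a b, C_0]

theorem dir_xl_right (a b : V3) : dir b (xl a b) = 0 := by
  have := dir_lin b (cr a b)
  rw [show xl a b = lin (cr a b) from rfl, this]
  rw [show eval b (lin (cr a b)) = 0 from eval_xl_right a b, C_0]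

theorem xl_pow_isHomogeneous (a b : V3) (n : ℕ) : (xl a b ^ n).IsHomogeneous n :=
  lin_isHomogeneous_pow _ n

theorem dir_iterate_pow {a v : V3} (n N : ℕ) (hn : n ≤ N) :
    (dir a)^[n] (lin v ^ N) =
      C ((N.descFactorial n : ℂ) * eval a (lin v) ^ n) * lin v ^ (N - n) := by
  induction n with
  | zero => simp
  | succ n ih =>
    rw [Function.iterate_succ_apply', ih (by omega), dir_C_mul, dir_pow, dir_lin,
      Nat.descFactorial_succ, (by omega : N - n - 1 = N - (n + 1))]
    have h1 : ((N - n : ℕ) : ℂ) * 1 = ((N - n : ℕ) : ℂ) := mul_one _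
    simp only [Nat.cast_mul, map_mul, map_pow]
    ring

/-- test form for a point outside the base points -/
theorem test_point {d : ℕ} {a b c e q : V3} {ma mb mc me : ℕ}
    (hac : eval q (xl a c) ≠ 0) (hae : eval q (xl a e) ≠ 0) (hbc : eval q (xl b c) ≠ 0)
    (hbe : eval q (xl b e) ≠ 0) (hma : ma ≤ d) (hmb : mb ≤ d) (hmc : mc ≤ d)
    (hab : ma + mb ≤ d ∨ (ma + mb = d + 1 ∧ eval q (xl a b) ≠ 0))
    (hce : mc + me ≤ d + 1) (htot : ma + mb + mc + me ≤ 2 * d)
    {Ga Gb Gc Ge : R3} (hGe : me = 0 → Ge = 0)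
    (h : lin q ^ d = lin a ^ (d + 1 - ma) * Ga + lin b ^ (d + 1 - mb) * Gb +
      lin c ^ (d + 1 - mc) * Gc + lin e ^ (d + 1 - me) * (lin e * Ge)) : False := by
  obtain ⟨ε, hε0, hε1, hεab⟩ : ∃ ε : ℕ, (ma + mb ≤ d → ε = 0) ∧ (ma + mb = d + 1 → ε = 1) ∧
      (ε = 0 ∨ eval q (xl a b) ≠ 0) := by
    rcases hab with h1 | ⟨h1, h2⟩
    · exact ⟨0, fun _ => rfl, fun h' => by omega, Or.inl rfl⟩
    · exact ⟨1, fun h' => by omega, fun _ => rfl, Or.inr h2⟩
  have hcase : (ma + mb ≤ d ∧ ε = 0) ∨ (ma + mb = d + 1 ∧ ε = 1) := by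
    rcases hab with h1 | ⟨h1, h2⟩
    · exact Or.inl ⟨h1, hε0 h1⟩
    · exact Or.inr ⟨h1, hε1 h1⟩
  obtain ⟨α, β, γ, δ, h1, h2, h3, h4, h5, h6⟩ : ∃ α β γ δ : ℕ,
      ε + α + β + γ + δ = d ∧ γ + δ < d + 1 - ma ∧ α + β < d + 1 - mb ∧
      ε + β + δ < d + 1 - mc ∧ (me ≠ 0 → ε + α + γ < d + 1 - me + 1) ∧ True := by
    rcases hcase with ⟨h7, h8⟩ | ⟨h7, h8⟩
    · subst h8
      rcases le_total ma mc with h9 | h9
      · exact ⟨ma, 0, mc - ma, d - mc, by omega, by omega, by omega, by omega, by omega, trivial⟩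
      · exact ⟨mc, ma - mc, 0, d - ma, by omega, by omega, by omega, by omega, by omega, trivial⟩
    · subst h8
      rcases le_total (ma - 1) mc with h9 | h9
      · exact ⟨ma - 1, 0, mc - (ma - 1), d - 1 - mc, by omega, by omega, by omega, by omega,
          by omega, trivial⟩
      · exact ⟨mc, ma - 1 - mc, 0, d - 1 - (ma - 1), by omega, by omega, by omega, by omega,
          by omega, trivial⟩
  set f : R3 := xl a b ^ ε * xl a c ^ α * xl a e ^ β * xl b c ^ γ * xl b e ^ δ with hf
  have hfhom : f.IsHomogeneous d := by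
    have := ((((xl_pow_isHomogeneous a b ε).mul (xl_pow_isHomogeneous a c α)).mul
      (xl_pow_isHomogeneous a e β)).mul (xl_pow_isHomogeneous b c γ)).mul
      (xl_pow_isHomogeneous b e δ)
    rwa [h1] at this
  have hA : B (lin a ^ (d + 1 - ma) * Ga) f = 0 := by
    have e1 : f = (xl a b ^ ε * xl a c ^ α * xl a e ^ β) * (xl b c ^ γ * xl b e ^ δ) := by
      rw [hf]; ring
    rw [e1]
    exact B_eq_zero_of_factor (dir_mul_zero (dir_mul_zero (dir_pow_zero (dir_xl_left a b) _)
      (dir_pow_zero (dir_xl_left a c) _)) (dir_pow_zero (dir_xl_left a e) _))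
      ((xl_pow_isHomogeneous b c γ).mul (xl_pow_isHomogeneous b e δ)) h2 _
  have hB : B (lin b ^ (d + 1 - mb) * Gb) f = 0 := by
    have e1 : f = (xl a b ^ ε * xl b c ^ γ * xl b e ^ δ) * (xl a c ^ α * xl a e ^ β) := by
      rw [hf]; ring
    rw [e1]
    exact B_eq_zero_of_factor (dir_mul_zero (dir_mul_zero (dir_pow_zero (dir_xl_right a b) _)
      (dir_pow_zero (dir_xl_left b c) _)) (dir_pow_zero (dir_xl_left b e) _))
      ((xl_pow_isHomogeneous a c α).mul (xl_pow_isHomogeneous a e β)) h3 _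
  have hC : B (lin c ^ (d + 1 - mc) * Gc) f = 0 := by
    have e1 : f = (xl a c ^ α * xl b c ^ γ) * (xl a b ^ ε * xl a e ^ β * xl b e ^ δ) := by
      rw [hf]; ring
    rw [e1]
    exact B_eq_zero_of_factor (dir_mul_zero (dir_pow_zero (dir_xl_right a c) _)
      (dir_pow_zero (dir_xl_right b c) _))
      (((xl_pow_isHomogeneous a b ε).mul (xl_pow_isHomogeneous a e β)).mul
        (xl_pow_isHomogeneous b e δ)) h4 _
  have hE : B (lin e ^ (d + 1 - me) * (lin e * Ge)) f = 0 := by
    by_cases hme : me = 0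
    · rw [hGe hme, mul_zero, mul_zero, map_zero, LinearMap.zero_apply]
    · have e1 : f = (xl a e ^ β * xl b e ^ δ) * (xl a b ^ ε * xl a c ^ α * xl b c ^ γ) := by
        rw [hf]; ring
      rw [e1, ← mul_assoc, ← pow_succ]
      exact B_eq_zero_of_factor (dir_mul_zero (dir_pow_zero (dir_xl_right a e) _)
        (dir_pow_zero (dir_xl_right b e) _))
        (((xl_pow_isHomogeneous a b ε).mul (xl_pow_isHomogeneous a c α)).mul
          (xl_pow_isHomogeneous b c γ)) (h5 hme) _
  have hQ := B_lin_pow hfhom q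
  rw [h, map_add, map_add, map_add, LinearMap.add_apply, LinearMap.add_apply,
    LinearMap.add_apply, hA, hB, hC, hE, add_zero, add_zero, add_zero] at hQ
  have h7 : (d.factorial : ℂ) ≠ 0 := by exact_mod_cast Nat.factorial_ne_zero d
  have h8 := (mul_eq_zero.mp hQ.symm).resolve_left h7
  rw [hf] at h8
  simp only [map_mul, map_pow, mul_eq_zero] at h8
  have hab' : eval q (xl a b) ^ ε ≠ 0 := by
    rcases hεab with h9 | h9
    · rw [h9, pow_zero]; exact one_ne_zero
    · exact pow_ne_zero _ h9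
  rcases h8 with (((h9 | h9) | h9) | h9) | h9
  · exact hab' h9
  · exact pow_ne_zero _ hac h9
  · exact pow_ne_zero _ hae h9
  · exact pow_ne_zero _ hbc h9
  · exact pow_ne_zero _ hbe h9

/-- test form for a direction at a base point -/
theorem test_dir {d m mb mc α β : ℕ} {a b c u : V3} (hαβ : α + β = m) (hm : m ≤ d)
    (hbc : eval a (xl b c) ≠ 0) (hα : α = 0 ∨ eval u (xl a b) ≠ 0)
    (hβ : β = 0 ∨ eval u (xl a c) ≠ 0) (hb : β < d + 1 - mb) (hc : α < d + 1 - mc)
    {Ga Gb Gc : R3}
    (h : lin a ^ (d - m) * lin u ^ m = lin a ^ (d + 1 - m) * Ga + lin b ^ (d + 1 - mb) * Gb +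
      lin c ^ (d + 1 - mc) * Gc) : False := by
  set f : R3 := xl b c ^ (d - m) * (xl a b ^ α * xl a c ^ β) with hf
  have hA : B (lin a ^ (d + 1 - m) * Ga) f = 0 := by
    have e1 : f = (xl a b ^ α * xl a c ^ β) * xl b c ^ (d - m) := by rw [hf]; ring
    rw [e1]
    exact B_eq_zero_of_factor (dir_mul_zero (dir_pow_zero (dir_xl_left a b) _)
      (dir_pow_zero (dir_xl_left a c) _)) (xl_pow_isHomogeneous b c _) (by omega) _
  have hB : B (lin b ^ (d + 1 - mb) * Gb) f = 0 := by
    have e1 : f = (xl b c ^ (d - m) * xl a b ^ α) * xl a c ^ β := by rw [hf]; ring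
    rw [e1]
    exact B_eq_zero_of_factor (dir_mul_zero (dir_pow_zero (dir_xl_left b c) _)
      (dir_pow_zero (dir_xl_right a b) _)) (xl_pow_isHomogeneous a c _) hb _
  have hC : B (lin c ^ (d + 1 - mc) * Gc) f = 0 := by
    have e1 : f = (xl b c ^ (d - m) * xl a c ^ β) * xl a b ^ α := by rw [hf]; ring
    rw [e1]
    exact B_eq_zero_of_factor (dir_mul_zero (dir_pow_zero (dir_xl_right b c) _)
      (dir_pow_zero (dir_xl_right a c) _)) (xl_pow_isHomogeneous a b _) hc _
  have h1 : B (lin a ^ (d - m) * lin u ^ m) f = 0 := by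
    rw [h, map_add, map_add, LinearMap.add_apply, LinearMap.add_apply, hA, hB, hC, add_zero,
      add_zero]
  rw [B_lin_pow_mul, hf, dir_iterate_mul' (dir_mul_zero (dir_pow_zero (dir_xl_left a b) _)
      (dir_pow_zero (dir_xl_left a c) _))] at h1
  have h2 : (dir a)^[d - m] (xl b c ^ (d - m)) =
      C (((d - m).descFactorial (d - m) : ℂ) * eval a (xl b c) ^ (d - m)) := by
    have := dir_iterate_pow (a := a) (v := cr b c) (d - m) (d - m) le_rfl
    rw [Nat.sub_self, pow_zero, mul_one] at this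
    exact this
  have h3 : (xl a b ^ α * xl a c ^ β).IsHomogeneous m := by
    rw [← hαβ]
    exact (xl_pow_isHomogeneous a b α).mul (xl_pow_isHomogeneous a c β)
  rw [h2, B_C_mul_right, B_lin_pow h3, map_mul, map_pow, map_pow] at h1
  have h4 : (m.factorial : ℂ) ≠ 0 := by exact_mod_cast Nat.factorial_ne_zero m
  have h5 : ((d - m).descFactorial (d - m) : ℂ) ≠ 0 := by
    rw [Nat.descFactorial_self]
    exact_mod_cast Nat.factorial_ne_zero _
  have h6 : eval u (xl a b) ^ α ≠ 0 := by
    rcases hα with h | h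
    · rw [h, pow_zero]; exact one_ne_zero
    · exact pow_ne_zero _ h
  have h7 : eval u (xl a c) ^ β ≠ 0 := by
    rcases hβ with h | h
    · rw [h, pow_zero]; exact one_ne_zero
    · exact pow_ne_zero _ h
  exact (mul_ne_zero (mul_ne_zero h5 (pow_ne_zero _ hbc)) (mul_ne_zero h4 (mul_ne_zero h6 h7))) h1

theorem span_of_det {a b c w : V3} (hdet : eval a (xl b c) ≠ 0) :
    ∃ x y z : ℂ, w = x • cr b c + y • cr a c + z • cr a b := by
  rw [eval_xl] at hdet
  set Δ := (b 1 * c 2 - b 2 * c 1) * a 0 + (b 2 * c 0 - b 0 * c 2) * a 1 +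
    (b 0 * c 1 - b 1 * c 0) * a 2 with hΔ
  refine ⟨(w 0 * a 0 + w 1 * a 1 + w 2 * a 2) / Δ, -(w 0 * b 0 + w 1 * b 1 + w 2 * b 2) / Δ,
    (w 0 * c 0 + w 1 * c 1 + w 2 * c 2) / Δ, ?_⟩
  ext l
  simp only [Pi.add_apply, Pi.smul_apply, smul_eq_mul]
  rw [div_mul_eq_mul_div, div_mul_eq_mul_div, div_mul_eq_mul_div, ← add_div, ← add_div,
    eq_div_iff hdet, hΔ]
  fin_cases l <;> simp [cr] <;> ring

theorem eq_zero_of_test {a b c : V3} (hdet : eval a (xl b c) ≠ 0) (n : ℕ) :
    ∀ G : R3, G.IsHomogeneous n →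
      (∀ α β γ : ℕ, α + β + γ = n → B G (xl b c ^ α * (xl a c ^ β * xl a b ^ γ)) = 0) →
      G = 0 := by
  induction n with
  | zero =>
    intro G hG h
    have h0 : G = C (coeff 0 G) :=
      (MvPolynomial.totalDegree_eq_zero_iff_eq_C).mp (Nat.le_zero.mp hG.totalDegree_le)
    have h1 := h 0 0 0 rfl
    rw [h0, pow_zero, pow_zero, pow_zero, mul_one, mul_one] at h1
    have h2 : B (C (coeff 0 G)) 1 = coeff 0 G := by
      rw [B_symm, B_one_C]
    rw [h2] at h1
    rw [h0, h1, C_0]
  | succ n ih =>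
    intro G hG h
    have hswap : ∀ (v : V3) (f : R3), B (dir v G) f = B G (lin v * f) := by
      intro v f
      rw [B_symm, ← B_lin_mul, B_symm]
    have h1 : dir (cr b c) G = 0 := by
      apply ih _ (by simpa using dir_isHomogeneous (cr b c) hG)
      intro α β γ hs
      rw [hswap]
      have := h (α + 1) β γ (by omega)
      rw [pow_succ', mul_assoc] at this
      exact this
    have h2 : dir (cr a c) G = 0 := by
      apply ih _ (by simpa using dir_isHomogeneous (cr a c) hG)
      intro α β γ hs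
      rw [hswap]
      have h' := h α (β + 1) γ (by omega)
      have e : xl b c ^ α * (xl a c ^ (β + 1) * xl a b ^ γ) =
        lin (cr a c) * (xl b c ^ α * (xl a c ^ β * xl a b ^ γ)) := by
        rw [pow_succ']
        change _ = xl a c * _
        ring
      rwa [e] at h'
    have h3 : dir (cr a b) G = 0 := by
      apply ih _ (by simpa using dir_isHomogeneous (cr a b) hG)
      intro α β γ hs
      rw [hswap]
      have h' := h α β (γ + 1) (by omega)
      have e : xl b c ^ α * (xl a c ^ β * xl a b ^ (γ + 1)) =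
        lin (cr a b) * (xl b c ^ α * (xl a c ^ β * xl a b ^ γ)) := by
        rw [pow_succ']
        change _ = xl a b * _
        ring
      rwa [e] at h'
    apply MvPolynomial.funext
    intro y
    rw [map_zero]
    obtain ⟨s, t, r, hy⟩ := span_of_det (w := y) hdet
    have h4 : dir y G = 0 := by
      have : dir y G = C s * dir (cr b c) G + C t * dir (cr a c) G + C r * dir (cr a b) G := by
        rw [hy]
        simp only [dir_apply, Fin.sum_univ_three, Pi.add_apply, Pi.smul_apply, smul_eq_mul,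
          map_add, map_mul]
        ring
      rw [this, h1, h2, h3, mul_zero, mul_zero, mul_zero, add_zero, add_zero]
    have h5 := eval_dir_self hG y
    rw [h4, map_zero] at h5
    exact (mul_eq_zero.mp h5.symm).resolve_left (by exact_mod_cast Nat.succ_ne_zero n)

/-- independence of the conditions at three points -/
theorem three_points {d ma mb mc : ℕ} {a b c : V3} (hdet : eval a (xl b c) ≠ 0)
    (hma : ma ≤ d) (hab : ma + mb ≤ d + 1) (hac : ma + mc ≤ d + 1)
    {Ga Gb Gc : R3} (hGa : Ga ∈ Hm ma)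
    (h : lin a ^ (d + 1 - ma) * Ga + lin b ^ (d + 1 - mb) * Gb +
      lin c ^ (d + 1 - mc) * Gc = 0) : Ga = 0 := by
  cases ma with
  | zero => exact mem_Hm_zero.mp hGa
  | succ n =>
    rw [mem_Hm_succ] at hGa
    apply eq_zero_of_test hdet n Ga hGa
    intro α β γ hs
    set A := d + 1 - (n + 1) with hA
    set f : R3 := xl b c ^ (A + α) * (xl a c ^ β * xl a b ^ γ) with hf
    have hB : B (lin b ^ (d + 1 - mb) * Gb) f = 0 := by
      have e1 : f = (xl b c ^ (A + α) * xl a b ^ γ) * xl a c ^ β := by rw [hf]; ring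
      rw [e1]
      exact B_eq_zero_of_factor (dir_mul_zero (dir_pow_zero (dir_xl_left b c) _)
        (dir_pow_zero (dir_xl_right a b) _)) (xl_pow_isHomogeneous a c _) (by omega) _
    have hC : B (lin c ^ (d + 1 - mc) * Gc) f = 0 := by
      have e1 : f = (xl b c ^ (A + α) * xl a c ^ β) * xl a b ^ γ := by rw [hf]; ring
      rw [e1]
      exact B_eq_zero_of_factor (dir_mul_zero (dir_pow_zero (dir_xl_right b c) _)
        (dir_pow_zero (dir_xl_right a c) _)) (xl_pow_isHomogeneous a b _) (by omega) _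
    have h1 : B (lin a ^ A * Ga) f = 0 := by
      have := congrArg (fun z => B z f) h
      simp only [map_add, LinearMap.add_apply, hB, hC, add_zero, map_zero,
        LinearMap.zero_apply] at this
      exact this
    have h2 : (dir a)^[A] (xl b c ^ (A + α)) =
        C (((A + α).descFactorial A : ℂ) * eval a (xl b c) ^ A) * xl b c ^ α := by
      have := dir_iterate_pow (a := a) (v := cr b c) A (A + α) (Nat.le_add_right _ _)
      rw [Nat.add_sub_cancel_left] at this
      exact this
    rw [B_lin_pow_mul, hf, dir_iterate_mul' (dir_mul_zero (dir_pow_zero (dir_xl_left a c) _)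
      (dir_pow_zero (dir_xl_left a b) _)), h2, mul_assoc, B_C_mul_right] at h1
    have h3 : ((A + α).descFactorial A : ℂ) ≠ 0 := by
      rw [Nat.cast_ne_zero]
      intro h0
      rw [Nat.descFactorial_eq_zero_iff_lt] at h0
      omega
    exact (mul_eq_zero.mp h1).resolve_left (mul_ne_zero h3 (pow_ne_zero _ hdet))

end Pool.Agent.Work.MP_0421d9_ag
end

section
/-!
General position of generic points and numerical consequences of the existence of a squarefree
member.
-/

namespace Pool.Agent.Work.MP_0421d9_ag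

open MvPolynomial

section position

variable {ι : Type} [DecidableEq ι] {P : ι → V3} {E : ι → Fin 3 → Derivation ℚ ℂ ℂ}

theorem gp1 (hE : IsDual P E) (x : ι) : P x ≠ 0 := by
  intro h
  have h1 := hE x 0 x 0
  rw [h] at h1
  simp at h1

theorem gp2 (hE : IsDual P E) {x y : ι} (hxy : x ≠ y) : cr (P x) (P y) ≠ 0 := by
  intro h
  have h0 : P x 1 * P y 2 - P x 2 * P y 1 = 0 := congrFun h 0
  have h1 := congrArg (E x 1) h0
  rw [map_sub, Derivation.leibniz, Derivation.leibniz, hE x 1 x 1, hE x 1 x 2, hE x 1 y 1,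
    hE x 1 y 2, map_zero] at h1
  simp [hxy] at h1
  have h2 := hE y 2 y 2
  rw [h1, map_zero] at h2
  simp at h2

theorem gp3 (hE : IsDual P E) {x y z : ι} (hxy : x ≠ y) (hxz : x ≠ z) (hyz : y ≠ z) :
    eval (P z) (xl (P x) (P y)) ≠ 0 := by
  intro h
  apply gp2 hE hxy
  rw [eval_xl] at h
  have key : ∀ k, cr (P x) (P y) k = 0 := by
    intro k
    have h1 := congrArg (E z k) h
    simp only [map_add, map_sub, Derivation.leibniz, hE z k, map_zero, smul_eq_mul] at h1
    simp only [hxz.symm, hyz.symm, false_and, if_false, mul_zero, add_zero, true_and] at h1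
    fin_cases k
    · simpa [cr] using h1
    · simpa [cr] using h1
    · simpa [cr] using h1
  exact funext key

end position

theorem not_isUnit_lin (v : V3) : ¬ IsUnit (lin v) := by
  intro h
  have h1 := h.map (eval (0 : V3))
  rw [eval_lin] at h1
  simp at h1

theorem le_of_vanishTo {F : R3} {d : ℕ} (hF : F.IsHomogeneous d) (hF0 : F ≠ 0) {a : V3} {μ : ℕ}
    (h : VanishTo F a μ) : μ ≤ d := by
  by_contra hc
  exact hF0 (eq_zero_of_vanishTo hF (by omega) h)

theorem not_sq_dvd {F : R3} (hsq : Squarefree F) {v : V3} {g : R3} (hg : F = lin v * g) :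
    ¬ lin v ∣ g := by
  rintro ⟨g', rfl⟩
  have : lin v * lin v ∣ F := ⟨g', by rw [hg, mul_assoc]⟩
  exact not_isUnit_lin v (hsq _ this)

theorem pair_le {F : R3} {d : ℕ} (hF : F.IsHomogeneous d) (hsq : Squarefree F) {a b : V3}
    (hab : cr a b ≠ 0) {μ ν : ℕ} (ha : VanishTo F a μ) (hb : VanishTo F b ν) :
    μ + ν ≤ d + 1 := by
  by_contra hc
  have hμ := le_of_vanishTo hF hsq.ne_zero ha
  have hν := le_of_vanishTo hF hsq.ne_zero hb
  obtain ⟨e, g, hd, hg, hFg⟩ := exists_factor hF hsq.ne_zero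
    (xl_dvd_of_vanishTo hab hF ha hb (by omega))
  rw [hFg] at ha hb
  have ha' := vanishTo_of_mul_eq hab ha (eval_xl_left a b)
  have hb' := vanishTo_of_mul_eq hab hb (eval_xl_right a b)
  exact not_sq_dvd hsq hFg (xl_dvd_of_vanishTo hab hg ha' hb' (by omega))

theorem four_aux {F : R3} {d : ℕ} (hF : F.IsHomogeneous d) (hsq : Squarefree F) {a b c e : V3}
    (hab : cr a b ≠ 0) (hce : cr c e ≠ 0) (hca : eval a (xl c e) ≠ 0) (hcb : eval b (xl c e) ≠ 0)
    (hac : eval c (xl a b) ≠ 0) (hae : eval e (xl a b) ≠ 0) {μa μb μc μe : ℕ}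
    (ha : VanishTo F a μa) (hb : VanishTo F b μb) (hc : VanishTo F c μc) (he : VanishTo F e μe)
    (h1 : d ≤ μa + μb) (h2 : d + 1 ≤ μc + μe) : False := by
  have hμc := le_of_vanishTo hF hsq.ne_zero hc
  have hμe := le_of_vanishTo hF hsq.ne_zero he
  obtain ⟨e1, g, hd, hg, hFg⟩ := exists_factor hF hsq.ne_zero
    (xl_dvd_of_vanishTo hce hF hc he h2)
  have hg0 : g ≠ 0 := by
    rintro rfl
    exact hsq.ne_zero (by rw [hFg, mul_zero])
  rw [hFg] at ha hb hc he
  have ha' := vanishTo_of_mul_ne ha hca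
  have hb' := vanishTo_of_mul_ne hb hcb
  have hc' := vanishTo_of_mul_eq hce hc (eval_xl_left c e)
  have he' := vanishTo_of_mul_eq hce he (eval_xl_right c e)
  obtain ⟨e2, g2, hd2, hg2, hgg⟩ := exists_factor hg hg0
    (xl_dvd_of_vanishTo hab hg ha' hb' (by omega))
  rw [hgg] at hc' he'
  have hc'' := vanishTo_of_mul_ne hc' hac
  have he'' := vanishTo_of_mul_ne he' hae
  have h3 : xl c e ∣ g2 := xl_dvd_of_vanishTo hce hg2 hc'' he'' (by omega)
  apply not_sq_dvd hsq hFg
  rw [hgg]
  exact Dvd.dvd.mul_left h3 _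

theorem four_le {F : R3} {d : ℕ} (hF : F.IsHomogeneous d) (hsq : Squarefree F) {a b c e : V3}
    (hab : cr a b ≠ 0) (hce : cr c e ≠ 0) (hca : eval a (xl c e) ≠ 0) (hcb : eval b (xl c e) ≠ 0)
    (hac : eval c (xl a b) ≠ 0) (hae : eval e (xl a b) ≠ 0) {μa μb μc μe : ℕ}
    (ha : VanishTo F a μa) (hb : VanishTo F b μb) (hc : VanishTo F c μc) (he : VanishTo F e μe) :
    μa + μb + μc + μe ≤ 2 * d := by
  by_contra hcon
  have h1 := pair_le hF hsq hab ha hb
  have h2 := pair_le hF hsq hce hc he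
  rcases Nat.lt_or_ge d (μc + μe) with h3 | h3
  · exact four_aux hF hsq hab hce hca hcb hac hae ha hb hc he (by omega) (by omega)
  · exact four_aux hF hsq hce hab hac hae hca hcb hc he ha hb (by omega) (by omega)

theorem cr_smul_self (s : ℂ) (a : V3) : cr a (s • a) = 0 := by
  ext l
  fin_cases l <;> simp [cr] <;> ring

theorem not_singular_on_bad_line {F : R3} {d : ℕ} (hF : F.IsHomogeneous d) (hsq : Squarefree F)
    {a b q : V3} (hab : cr a b ≠ 0) {μ ν : ℕ} (ha : VanishTo F a μ) (hb : VanishTo F b ν)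
    (hsum : μ + ν = d + 1) (hq : eval q (xl a b) = 0) (hqa : cr a q ≠ 0) (hqb : cr b q ≠ 0)
    (hsing : ∀ k, eval q (pderiv k F) = 0) : False := by
  have hμ := le_of_vanishTo hF hsq.ne_zero ha
  have hν := le_of_vanishTo hF hsq.ne_zero hb
  obtain ⟨e, g, hd, hg, hFg⟩ := exists_factor hF hsq.ne_zero
    (xl_dvd_of_vanishTo hab hF ha hb (by omega))
  apply not_sq_dvd hsq hFg
  rw [hFg] at ha hb
  have ha' := vanishTo_of_mul_eq hab ha (eval_xl_left a b)
  have hb' := vanishTo_of_mul_eq hab hb (eval_xl_right a b)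
  have hgq : eval q g = 0 := by
    obtain ⟨k, hk⟩ : ∃ k, cr a b k ≠ 0 := by
      by_contra hcon
      push Not at hcon
      exact hab (funext hcon)
    have h1 := hsing k
    rw [hFg, pderiv_mul, pderiv_lin, map_add, map_mul, map_mul, eval_C] at h1
    rw [show eval q (lin (cr a b)) = 0 from hq, zero_mul, add_zero] at h1
    exact (mul_eq_zero.mp h1).resolve_left hk
  obtain ⟨s, t, hst⟩ := exists_comb hab hq
  have hs : s ≠ 0 := by
    rintro rfl
    apply hqb
    rw [hst, zero_smul, zero_add]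
    exact cr_smul_self t b
  have ht : t ≠ 0 := by
    rintro rfl
    apply hqa
    rw [hst, zero_smul, add_zero]
    exact cr_smul_self s a
  have key : ∀ i ≤ e, i ≠ ν - 1 → B (lin a ^ i * lin b ^ (e - i)) g = 0 := by
    intro i hi hne
    by_cases h1 : e - i < μ - 1
    · exact B_eq_zero_of_vanishTo hg ha' h1 (by omega) _
    · rw [mul_comm]
      exact B_eq_zero_of_vanishTo hg hb' (by omega : i < ν - 1) (by omega) _
  apply xl_dvd hab hg
  intro i hi
  by_cases hne : i = ν - 1
  · have h1 := B_lin_pow hg q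
    rw [hgq, mul_zero, hst, lin_add, add_pow, map_sum, LinearMap.sum_apply,
      Finset.sum_eq_single (ν - 1)] at h1
    · have h3 : lin (s • a) ^ (ν - 1) * lin (t • b) ^ (e - (ν - 1)) *
          ((e.choose (ν - 1) : ℕ) : R3) =
          C (s ^ (ν - 1) * t ^ (e - (ν - 1)) * (e.choose (ν - 1) : ℂ)) *
            (lin a ^ (ν - 1) * lin b ^ (e - (ν - 1))) := by
        rw [lin_smul, lin_smul, mul_pow, mul_pow]
        simp only [map_mul, map_pow, map_natCast]
        ring
      rw [h3, B_C_mul_left] at h1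
      rw [hne]
      refine (mul_eq_zero.mp h1).resolve_left ?_
      refine mul_ne_zero (mul_ne_zero (pow_ne_zero _ hs) (pow_ne_zero _ ht)) ?_
      rw [Nat.cast_ne_zero]
      exact (Nat.choose_pos (by omega)).ne'
    · intro m hm hmne
      have h3 : lin (s • a) ^ m * lin (t • b) ^ (e - m) * ((e.choose m : ℕ) : R3) =
          C (s ^ m * t ^ (e - m) * (e.choose m : ℂ)) * (lin a ^ m * lin b ^ (e - m)) := by
        rw [lin_smul, lin_smul, mul_pow, mul_pow]
        simp only [map_mul, map_pow, map_natCast]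
        ring
      rw [h3, B_C_mul_left, key m (Nat.lt_succ_iff.mp (Finset.mem_range.mp hm)) hmne, mul_zero]
    · intro h
      exact absurd (Finset.mem_range.mpr (by omega)) h
  · exact key i hi hne

theorem B_one_eq (f : R3) : B 1 f = eval 0 f := by
  have : (1 : R3) = monomial 0 1 := rfl
  rw [this, B_monomial, eval_zero]
  simp [wt, constantCoeff_eq]

theorem not_tangent_bad_line {F : R3} {d : ℕ} (hF : F.IsHomogeneous d) (hsq : Squarefree F)
    {a b u : V3} (hab : cr a b ≠ 0) {μ ν : ℕ} (ha : VanishTo F a μ) (hb : VanishTo F b ν)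
    (hμ0 : 1 ≤ μ)
    (hsum : μ + ν = d + 1) (hu : eval u (xl a b) = 0) (hau : cr a u ≠ 0)
    (hsing : ∀ w, B (lin a ^ (d - μ) * (lin u ^ (μ - 1) * lin w)) F = 0) : False := by
  have hμ := le_of_vanishTo hF hsq.ne_zero ha
  have hν := le_of_vanishTo hF hsq.ne_zero hb
  obtain ⟨e, g, hd, hg, hFg⟩ := exists_factor hF hsq.ne_zero
    (xl_dvd_of_vanishTo hab hF ha hb (by omega))
  apply not_sq_dvd hsq hFg
  rw [hFg] at ha hb
  have ha' := vanishTo_of_mul_eq hab ha (eval_xl_left a b)
  have hb' := vanishTo_of_mul_eq hab hb (eval_xl_right a b)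
  obtain ⟨s, t, hst⟩ := exists_comb hab hu
  have ht : t ≠ 0 := by
    rintro rfl
    apply hau
    rw [hst, zero_smul, add_zero]
    exact cr_smul_self s a
  have hdu : dir u (xl a b) = 0 := by
    have := dir_lin u (cr a b)
    rw [show xl a b = lin (cr a b) from rfl, this,
      show eval u (lin (cr a b)) = 0 from hu, C_0]
  have h1 : B (lin a ^ (d - μ) * lin u ^ (μ - 1)) g = 0 := by
    obtain ⟨w, hw⟩ : ∃ w, eval w (xl a b) ≠ 0 := by
      by_contra hcon
      push Not at hcon
      apply xl_ne_zero hab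
      apply MvPolynomial.funext
      intro w
      rw [hcon w, map_zero]
    have h2 := hsing w
    have e1 : lin a ^ (d - μ) * (lin u ^ (μ - 1) * lin w) =
        lin w * (lin a ^ (d - μ) * (lin u ^ (μ - 1) * 1)) := by ring
    rw [e1, B_lin_mul, hFg, dir_mul, map_add, B_lin_pow_mul, B_lin_pow_mul, B_lin_pow_mul,
      B_lin_pow_mul] at h2
    have h3 : B 1 ((dir u)^[μ - 1] ((dir a)^[d - μ] (lin (cr a b) * dir w g))) = 0 := by
      change B 1 ((dir u)^[μ - 1] ((dir a)^[d - μ] (xl a b * dir w g))) = 0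
      rw [dir_iterate_mul (dir_xl_left a b), dir_iterate_mul hdu, B_one_eq, map_mul,
        show xl a b = lin (cr a b) from rfl, eval_lin]
      simp
    rw [h3, add_zero, dir_lin] at h2
    have h4 : B 1 ((dir u)^[μ - 1] ((dir a)^[d - μ] (C (eval w (lin (cr a b))) * g))) =
        eval w (lin (cr a b)) * B (lin a ^ (d - μ) * lin u ^ (μ - 1)) g := by
      rw [← B_lin_pow_mul, ← B_lin_pow_mul, mul_one, B_C_mul_right]
    rw [h4] at h2
    exact (mul_eq_zero.mp h2).resolve_left hw
  have h5 : B (lin a ^ (d - μ) * lin b ^ (μ - 1)) g = 0 := by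
    rw [hst, lin_add, add_pow, Finset.mul_sum, map_sum, LinearMap.sum_apply,
      Finset.sum_eq_single 0] at h1
    · have h3 : lin a ^ (d - μ) * (lin (s • a) ^ 0 * lin (t • b) ^ (μ - 1 - 0) *
          (((μ - 1).choose 0 : ℕ) : R3)) =
          C (t ^ (μ - 1)) * (lin a ^ (d - μ) * lin b ^ (μ - 1)) := by
        rw [lin_smul, lin_smul, mul_pow, mul_pow]
        simp only [map_pow, pow_zero, Nat.sub_zero, Nat.choose_zero_right, Nat.cast_one]
        ring
      rw [h3, B_C_mul_left] at h1
      exact (mul_eq_zero.mp h1).resolve_left (pow_ne_zero _ ht)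
    · intro m hm hmne
      have hm' := Finset.mem_range.mp hm
      have h3 : lin a ^ (d - μ) * (lin (s • a) ^ m * lin (t • b) ^ (μ - 1 - m) *
          (((μ - 1).choose m : ℕ) : R3)) =
          C (s ^ m * t ^ (μ - 1 - m) * ((μ - 1).choose m : ℂ)) *
            (lin a ^ (d - μ + m) * lin b ^ (μ - 1 - m)) := by
        rw [lin_smul, lin_smul, mul_pow, mul_pow]
        simp only [map_mul, map_pow, map_natCast]
        ring
      rw [h3, B_C_mul_left, B_eq_zero_of_vanishTo hg ha' (by omega : μ - 1 - m < μ - 1)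
        (by omega : d - μ + m + (μ - 1 - m) = e), mul_zero]
    · intro h
      exact absurd (Finset.mem_range.mpr (by omega)) h
  apply xl_dvd hab hg
  intro i hi
  by_cases h6 : e - i < μ - 1
  · exact B_eq_zero_of_vanishTo hg ha' h6 (by omega) _
  · by_cases h7 : i < ν - 1
    · rw [mul_comm]
      exact B_eq_zero_of_vanishTo hg hb' h7 (by omega) _
    · have h8 : i = d - μ := by omega
      have h9 : e - i = μ - 1 := by omega
      rw [h9, h8]
      exact h5

end Pool.Agent.Work.MP_0421d9_ag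
end

section
/-!
Rigid systems: the unique member through generic simple points controls the whole system.
-/

set_option linter.unusedSectionVars false

namespace Pool.Agent.Work.MP_0421d9_ag

open MvPolynomial

theorem lin_prime {v : V3} (hv : v ≠ 0) : Prime (lin v) := by
  apply Irreducible.prime
  obtain ⟨i, hi⟩ : ∃ i, v i ≠ 0 := by
    by_contra hcon
    push Not at hcon
    exact hv (funext hcon)
  apply irreducible_of_totalDegree_eq_one
  · apply le_antisymm (lin_isHomogeneous v).totalDegree_le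
    have h1 : coeff (Finsupp.single i 1) (lin v) ≠ 0 := by
      rw [coeff_lin]; exact hi
    have := le_totalDegree (mem_support_iff.mpr h1)
    simpa using this
  · intro x hx
    have h1 := hx (Finsupp.single i 1)
    rw [coeff_lin] at h1
    exact isUnit_of_dvd_unit h1 (IsUnit.mk0 _ hi)

theorem lin_dvd_lin {p v : V3} (h : lin p ∣ lin v) : cr p v = 0 := by
  by_cases hv : v = 0
  · rw [hv]
    ext l
    fin_cases l <;> simp [cr]
  obtain ⟨e, g, hd, hg, hvg⟩ := exists_factor (lin_isHomogeneous v)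
    (fun h' => hv (lin_eq_zero.mp h')) h
  have he : e = 0 := by omega
  subst he
  have h0 : g = C (coeff 0 g) :=
    (MvPolynomial.totalDegree_eq_zero_iff_eq_C).mp (Nat.le_zero.mp hg.totalDegree_le)
  have h1 : v = (coeff 0 g) • p := by
    apply lin_injective
    rw [lin_smul, hvg, mul_comm, ← h0]
  rw [h1]
  exact cr_smul_self _ _

theorem lin_dvd_of_mul {p v : V3} (hp : p ≠ 0) (hcr : cr p v ≠ 0) {G : R3}
    (h : lin p ∣ lin v * G) : lin p ∣ G := by
  rcases (lin_prime hp).dvd_or_dvd h with h1 | h1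
  · exact absurd (lin_dvd_lin h1) hcr
  · exact h1

theorem eq_lin_of_isHomogeneous {G : R3} (hG : G.IsHomogeneous 1) : ∃ w, G = lin w := by
  refine ⟨fun k => coeff 0 (pderiv k G), ?_⟩
  have h1 := isHomogeneous_succ_sum (n := 0) hG
  rw [zero_add, Nat.cast_one, C_1, one_mul] at h1
  rw [h1]
  unfold lin
  refine Finset.sum_congr rfl (fun k _ => ?_)
  have h2 : (pderiv k G).IsHomogeneous 0 := hG.pderiv
  have h0 : pderiv k G = C (coeff 0 (pderiv k G)) :=
    (MvPolynomial.totalDegree_eq_zero_iff_eq_C).mp (Nat.le_zero.mp h2.totalDegree_le)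
  rw [← h1, mul_comm, ← h0]

theorem exists_lin_factorization {p : V3} : ∀ (n : ℕ) (G : R3),
    G.IsHomogeneous n → G ≠ 0 → ∃ (s e : ℕ) (G' : R3), n = s + e ∧ G = lin p ^ s * G' ∧
      G'.IsHomogeneous e ∧ ¬ lin p ∣ G' := by
  intro n
  induction n with
  | zero =>
    intro G hG hG0
    by_cases h : lin p ∣ G
    · obtain ⟨e, g, hd, -, -⟩ := exists_factor hG hG0 h
      omega
    · exact ⟨0, 0, G, rfl, by rw [pow_zero, one_mul], hG, h⟩
  | succ n ih =>
    intro G hG hG0
    by_cases h : lin p ∣ G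
    · obtain ⟨e, g, hd, hg, hGg⟩ := exists_factor hG hG0 h
      have he : e = n := by omega
      subst he
      have hg0 : g ≠ 0 := by
        rintro rfl
        exact hG0 (by rw [hGg, mul_zero])
      obtain ⟨s, e', G', h1, h2, h3, h4⟩ := ih g hg hg0
      exact ⟨s + 1, e', G', by omega, by rw [hGg, h2, pow_succ']; ring, h3, h4⟩
    · exact ⟨0, n + 1, G, by omega, by rw [pow_zero, one_mul], hG, h⟩

theorem vanishTo_one_iff {f : R3} {a : V3} : VanishTo f a 1 ↔ eval a f = 0 := by
  have h1 : homogeneousComponent 0 (translate a f) = C (eval a f) := by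
    rw [homogeneousComponent_zero]
    have h2 := eval_translate a 0 f
    rw [add_zero, eval_zero, constantCoeff_eq] at h2
    rw [h2]
  constructor
  · intro h
    have h2 := h 0 one_pos
    rw [h1] at h2
    exact C_eq_zero.mp h2
  · intro h k hk
    have hk0 : k = 0 := by omega
    rw [hk0, h1, h, C_0]

variable {ι κ : Type} [Fintype ι] [Fintype κ] [DecidableEq ι] [DecidableEq κ]

/-- A rigid configuration: `F` is, up to scaling, the only form of degree `d` with multiplicities
`m i` at the points `P (inl i)` passing through the points `P (inr k)`. -/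
structure Rigid (d : ℕ) (P : ι ⊕ κ → V3) (E : ι ⊕ κ → Fin 3 → Derivation ℚ ℂ ℂ) (m : ι → ℕ)
    (F : R3) : Prop where
  hE : IsDual P E
  hF : F ∈ linSys d P (Sum.elim m fun _ => 1)
  hF0 : F ≠ 0
  huniq : ∀ f ∈ linSys d P (Sum.elim m fun _ => 1), ∃ c : ℂ, f = C c * F

namespace Rigid

variable {d : ℕ} {P : ι ⊕ κ → V3} {E : ι ⊕ κ → Fin 3 → Derivation ℚ ℂ ℂ} {m : ι → ℕ} {F : R3}

theorem hom (S : Rigid d P E m F) : F.IsHomogeneous d := S.hF.1

theorem hM (S : Rigid d P E m F) (x : ι ⊕ κ) : (Sum.elim m (fun _ => 1) : ι ⊕ κ → ℕ) x ≤ d :=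
  le_of_vanishTo S.hom S.hF0 (S.hF.2 x)

theorem hm (S : Rigid d P E m F) (i : ι) : m i ≤ d := S.hM (Sum.inl i)

theorem hm' (S : Rigid d P E m F) (i : ι) : m i ≤ d + 1 := (S.hm i).trans (Nat.le_succ d)

theorem vanish (S : Rigid d P E m F) (i : ι) : VanishTo F (P (Sum.inl i)) (m i) :=
  S.hF.2 (Sum.inl i)

theorem eval_simple (S : Rigid d P E m F) (k : κ) : eval (P (Sum.inr k)) F = 0 :=
  vanishTo_one_iff.mp (S.hF.2 (Sum.inr k))

theorem memV (S : Rigid d P E m F) : F ∈ linSys d (fun i => P (Sum.inl i)) m :=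
  ⟨S.hom, S.vanish⟩

/-- stability of the system under the derivations moving only the simple points -/
theorem stable (S : Rigid d P E m F) {f : R3} (hf : f ∈ linSys d (fun i => P (Sum.inl i)) m)
    (k : κ) (v : V3) : cD (mv E (Sum.inr k) v) f ∈ linSys d (fun i => P (Sum.inl i)) m := by
  apply linSys_cD_mem S.hm' hf
  intro i
  left
  intro l
  exact mv_ne S.hE (by simp) v l

theorem exists_move (S : Rigid d P E m F) (k : κ) :
    ∃ v : V3, eval (P (Sum.inr k)) (cD (mv E (Sum.inr k) v) F) ≠ 0 := by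
  by_contra hcon
  push Not at hcon
  have hd : 1 ≤ d := S.hM (Sum.inr k)
  apply not_vanishTo_succ S.hE S.hM S.hF S.hF0 S.huniq (Sum.inr k)
  change VanishTo F (P (Sum.inr k)) (1 + 1)
  rw [vanishTo_iff S.hom _ (by omega)]
  intro G hG
  rw [mem_Hm_succ] at hG
  obtain ⟨v, rfl⟩ := eq_lin_of_isHomogeneous hG
  have h1 := D_B (mv E (Sum.inr k) v) (lin (P (Sum.inr k)) ^ d) F
  rw [B_lin_pow S.hom, S.eval_simple k, mul_zero, map_zero,
    B_lin_pow (cD_isHomogeneous _ S.hom), hcon v, mul_zero, add_zero, cD_pow, cD_lin_self S.hE,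
    B_C_mul_left] at h1
  have h2 : (d : ℂ) ≠ 0 := by
    rw [Nat.cast_ne_zero]; omega
  exact (mul_eq_zero.mp h1.symm).resolve_left h2

theorem eval_move_ne (S : Rigid d P E m F) {k l : κ} (h : l ≠ k) (v : V3) :
    eval (P (Sum.inr l)) (cD (mv E (Sum.inr k) v) F) = 0 := by
  have h1 : VanishTo F (P (Sum.inr l)) 1 := S.hF.2 (Sum.inr l)
  have hd : 1 ≤ d := S.hM (Sum.inr k)
  apply vanishTo_one_iff.mp
  apply vanishTo_cD_fixed _ S.hom (by omega) h1
  intro n
  apply mv_ne S.hE
  intro h'
  exact h (Sum.inr.inj h')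

/-- The system is spanned by `F` and its derivatives along motions of the simple points. -/
theorem span (S : Rigid d P E m F) {f : R3} (hf : f ∈ linSys d (fun i => P (Sum.inl i)) m) :
    f ∈ Submodule.span ℂ ({F} ∪ Set.range
      (fun x : κ × V3 => cD (mv E (Sum.inr x.1) x.2) F)) := by
  choose v hv using S.exists_move
  set g : κ → R3 := fun k => cD (mv E (Sum.inr k) (v k)) F with hg
  set c : κ → ℂ := fun k => eval (P (Sum.inr k)) f / eval (P (Sum.inr k)) (g k) with hc
  have h1 : f - ∑ k, c k • g k ∈ linSys d (fun i => P (Sum.inl i)) m := by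
    apply Submodule.sub_mem _ hf
    apply Submodule.sum_mem
    intro k _
    exact Submodule.smul_mem _ _ (S.stable S.memV k (v k))
  have h2 : f - ∑ k, c k • g k ∈ linSys d P (Sum.elim m fun _ => 1) := by
    refine ⟨h1.1, ?_⟩
    rintro (i | l)
    · exact h1.2 i
    · apply vanishTo_one_iff.mpr
      rw [map_sub, map_sum, Finset.sum_eq_single l]
      · rw [smul_eval, hc]
        simp only
        rw [div_mul_cancel₀ _ (hv l), sub_self]
      · intro k _ hk
        rw [smul_eval, hg]
        simp only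
        rw [S.eval_move_ne hk.symm, mul_zero]
      · intro h
        exact absurd (Finset.mem_univ _) h
  obtain ⟨a, ha⟩ := S.huniq _ h2
  have h3 : f = a • F + ∑ k, c k • g k := by
    rw [smul_eq_C_mul, ← ha]
    ring
  rw [h3]
  apply Submodule.add_mem
  · apply Submodule.smul_mem
    apply Submodule.subset_span
    left
    exact Set.mem_singleton F
  · apply Submodule.sum_mem
    intro k _
    apply Submodule.smul_mem
    apply Submodule.subset_span
    right
    exact ⟨(k, v k), rfl⟩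

/-- A form pairing to zero with `F` and its derivatives along motions of the simple points lies in
the inverse system. -/
theorem memJ (S : Rigid d P E m F) {A : R3} (hA : A.IsHomogeneous d) (h0 : B A F = 0)
    (h1 : ∀ k v, B A (cD (mv E (Sum.inr k) v) F) = 0) : A ∈ J d (fun i => P (Sum.inl i)) m := by
  apply mem_J_of_B S.hm' hA
  intro f hf
  refine Submodule.span_induction (p := fun x _ => B A x = 0) ?_ ?_ ?_ ?_ (S.span hf)
  · rintro x (hx | ⟨⟨k, v⟩, rfl⟩)
    · rw [Set.mem_singleton_iff] at hx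
      rw [hx, h0]
    · exact h1 k v
  · exact map_zero _
  · intro x y _ _ hx hy
    rw [map_add, hx, hy, add_zero]
  · intro a x _ hx
    rw [map_smul, hx, smul_zero]

/-- divisibility of `F` and its derivatives passes to the whole system -/
theorem dvd_all (S : Rigid d P E m F) {π : R3} (h0 : π ∣ F)
    (h1 : ∀ k v, π ∣ cD (mv E (Sum.inr k) v) F) {f : R3}
    (hf : f ∈ linSys d (fun i => P (Sum.inl i)) m) : π ∣ f := by
  refine Submodule.span_induction (p := fun x _ => π ∣ x) ?_ ?_ ?_ ?_ (S.span hf)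
  · rintro x (hx | ⟨⟨k, v⟩, rfl⟩)
    · rw [Set.mem_singleton_iff] at hx
      rw [hx]
      exact h0
    · exact h1 k v
  · exact dvd_zero _
  · intro x y _ _ hx hy
    exact dvd_add hx hy
  · intro a x _ hx
    rw [smul_eq_C_mul]
    exact Dvd.dvd.mul_left hx _

/-- if the system contains a squarefree form, then the rigid member is squarefree -/
theorem squarefree (S : Rigid d P E m F) {f₀ : R3}
    (hf₀ : f₀ ∈ linSys d (fun i => P (Sum.inl i)) m) (hsq : Squarefree f₀) : Squarefree F := by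
  rw [squarefree_iff_irreducible_sq_not_dvd_of_ne_zero S.hF0]
  rintro π hπ ⟨g, hg⟩
  have h1 : ∀ k v, π ∣ cD (mv E (Sum.inr k) v) F := by
    intro k v
    rw [hg, cD_mul, cD_mul]
    refine ⟨(2 : R3) * cD (mv E (Sum.inr k) v) π * g + π * cD (mv E (Sum.inr k) v) g, ?_⟩
    ring
  have h2 : ∀ f ∈ linSys d (fun i => P (Sum.inl i)) m, π ∣ f := fun f hf =>
    S.dvd_all ⟨π * g, by rw [hg, mul_assoc]⟩ h1 hf
  obtain ⟨g₀, hg₀⟩ := h2 f₀ hf₀
  have hπg₀ : ¬ π ∣ g₀ := by
    rintro ⟨g', hg'⟩
    have : π * π ∣ f₀ := ⟨g', by rw [hg₀, hg', mul_assoc]⟩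
    exact hπ.not_isUnit (hsq π this)
  have h3 : ∀ k v, π ∣ cD (mv E (Sum.inr k) v) π := by
    intro k v
    have h4 := h2 _ (S.stable hf₀ k v)
    rw [hg₀, cD_mul] at h4
    have h5 : π ∣ cD (mv E (Sum.inr k) v) π * g₀ := by
      rwa [dvd_add_left (Dvd.intro _ rfl)] at h4
    exact (hπ.prime.dvd_or_dvd h5).resolve_right hπg₀
  have h6 : π * π ∣ f₀ := by
    apply S.dvd_all ⟨g, hg⟩ _ hf₀
    intro k v
    obtain ⟨t, ht⟩ := h3 k v
    rw [hg, cD_mul, cD_mul, ht]
    refine ⟨(2 : R3) * t * g + cD (mv E (Sum.inr k) v) g, ?_⟩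
    ring
  exact hπ.not_isUnit (hsq π h6)

end Rigid

end Pool.Agent.Work.MP_0421d9_ag
end

section
/-!
The main argument: nonspeciality and smoothness of the rigid member.
-/

set_option linter.unusedSectionVars false

namespace Pool.Agent.Work.MP_0421d9_ag

open MvPolynomial

variable {ι κ : Type} [Fintype ι] [Fintype κ] [DecidableEq ι] [DecidableEq κ]

namespace Rigid

variable {d : ℕ} {P : ι ⊕ κ → V3} {E : ι ⊕ κ → Fin 3 → Derivation ℚ ℂ ℂ} {m : ι → ℕ} {F : R3}

theorem B_J (S : Rigid d P E m F) {A : R3} (hA : A ∈ J d (fun i => P (Sum.inl i)) m) :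
    B A F = 0 := B_J_linSys S.hm' hA S.memV

/-- multiplicity exactly `m i`, in terms of the pairing -/
theorem exact_mult (S : Rigid d P E m F) (i : ι) (hd : m i + 1 ≤ d + 1)
    (h : ∀ G : R3, G.IsHomogeneous (m i) → B (lin (P (Sum.inl i)) ^ (d - m i) * G) F = 0) :
    False := by
  apply not_vanishTo_succ S.hE S.hM S.hF S.hF0 S.huniq (Sum.inl i)
  change VanishTo F (P (Sum.inl i)) (m i + 1)
  rw [vanishTo_iff S.hom _ hd]
  intro G hG
  rw [mem_Hm_succ] at hG
  have := h G hG
  rwa [(by omega : d - m i = d + 1 - (m i + 1))] at this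

theorem R0 (S : Rigid d P E m F) (i : ι) (hi : m i = 0)
    (h : B (lin (P (Sum.inl i)) ^ d) F = 0) : False := by
  apply S.exact_mult i (by omega)
  intro G hG
  rw [hi] at hG
  have h0 : G = C (coeff 0 G) :=
    (MvPolynomial.totalDegree_eq_zero_iff_eq_C).mp (Nat.le_zero.mp hG.totalDegree_le)
  rw [h0, mul_comm, B_C_mul_left, hi, Nat.sub_zero, h, mul_zero]

theorem R1 (S : Rigid d P E m F) (i : ι) (hi : m i = 1)
    (h : ∀ v, B (lin (P (Sum.inl i)) ^ (d - 1) * lin v) F = 0) : False := by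
  apply S.exact_mult i (by have := S.hm i; omega)
  intro G hG
  rw [hi] at hG
  obtain ⟨w, rfl⟩ := eq_lin_of_isHomogeneous hG
  rw [hi]
  exact h w

/-- at a double point the Hessian of `F` has the smallest possible kernel -/
theorem R2 (S : Rigid d P E m F) (hsq : Squarefree F) (i : ι) (hi : m i = 2) {w : V3}
    (h : ∀ v, B (lin (P (Sum.inl i)) ^ (d - 2) * (lin w * lin v)) F = 0) :
    cr (P (Sum.inl i)) w = 0 := by
  set D := mv E (Sum.inl i) w with hD
  have hd : 2 ≤ d := by have := S.hm i; omega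
  have h1 : VanishTo (cD D F) (P (Sum.inl i)) 2 := by
    rw [vanishTo_iff (cD_isHomogeneous D S.hom) _ (by omega)]
    intro G hG
    rw [mem_Hm_succ] at hG
    obtain ⟨v, rfl⟩ := eq_lin_of_isHomogeneous hG
    have hF2 : ∀ G ∈ Hm 2, B (lin (P (Sum.inl i)) ^ (d + 1 - 2) * G) F = 0 := by
      have := (vanishTo_iff S.hom (P (Sum.inl i)) (S.hm' i)).mp (S.vanish i)
      rwa [hi] at this
    have h2 := D_B D (lin (P (Sum.inl i)) ^ (d + 1 - 2) * lin v) F
    rw [hF2 _ (mem_Hm_succ.mpr (lin_isHomogeneous v)), map_zero, cD_mul, map_add,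
      LinearMap.add_apply, hF2 _ (cD_mem_Hm D (mem_Hm_succ.mpr (lin_isHomogeneous v))),
      add_zero, cD_pow, hD, cD_lin_self S.hE] at h2
    have h3 : C (((d + 1 - 2 : ℕ) : ℂ)) * (lin (P (Sum.inl i)) ^ (d + 1 - 2 - 1) * lin w) * lin v =
        C (((d + 1 - 2 : ℕ) : ℂ)) * (lin (P (Sum.inl i)) ^ (d - 2) * (lin w * lin v)) := by
      rw [(by omega : d + 1 - 2 - 1 = d - 2)]
      ring
    rw [h3, B_C_mul_left, h v, mul_zero, zero_add] at h2
    exact h2.symm
  have h2 : cD D F ∈ linSys d P (Sum.elim m fun _ => 1) := by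
    apply linSys_cD_mem (fun x => (S.hM x).trans (Nat.le_succ d)) S.hF
    intro x
    by_cases hx : x = Sum.inl i
    · right
      rw [hx]
      change VanishTo _ _ (m i)
      rw [hi]
      exact h1
    · left
      intro l
      exact mv_ne S.hE hx w l
  obtain ⟨c, hc⟩ := S.huniq _ h2
  have hd1 : F.IsHomogeneous d := S.hom
  have hv2 := S.vanish i
  rw [hi] at hv2
  have h3 : ∀ k, eval (P (Sum.inl i)) (pderiv k F) = 0 := by
    intro k
    have h4 := (vanishTo_iff S.hom (P (Sum.inl i)) (by omega)).mp hv2 (X k)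
      (mem_Hm_succ.mpr (isHomogeneous_X ℂ k))
    rw [mul_comm, B_X_mul] at h4
    have h5 := B_lin_pow (S.hom.pderiv (i := k)) (P (Sum.inl i))
    rw [(by omega : d + 1 - 2 = d - 1)] at h4
    rw [h4] at h5
    have h6 : ((d - 1).factorial : ℂ) ≠ 0 := by exact_mod_cast Nat.factorial_ne_zero _
    exact (mul_eq_zero.mp h5.symm).resolve_left h6
  have h0 : eval (P (Sum.inl i)) F = 0 := vanishTo_one_iff.mp (hv2.mono (by omega))
  have h7 := singular_constant S.hom hsq hc h0 h3
  have h8 : ∀ l, D (P (Sum.inl i) l) = w l := fun l => mv_self S.hE _ w l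
  ext l
  have h9 := h7 1 2
  have h10 := h7 2 0
  have h11 := h7 0 1
  rw [h8, h8] at h9 h10 h11
  fin_cases l
  · simp only [cr]
    simpa [sub_eq_zero] using h9
  · simp only [cr]
    simpa [sub_eq_zero] using h10
  · simp only [cr]
    simpa [sub_eq_zero] using h11

/-- the hypothesis at a point: the system restricts to a complete series on the exceptional
curve -/
def Full (d : ℕ) (p : ι → V3) (m : ι → ℕ) (i : ι) : Prop :=
  ∀ U : R3, U.IsHomogeneous (m i) → lin (p i) ^ (d - m i) * U ∈ J d p m → lin (p i) ∣ U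

/-- Divisibility lemma -/
theorem div (S : Rigid d P E m F) (hsq : Squarefree F) {i : ι}
    (hfull : 3 ≤ m i → Full d (fun i => P (Sum.inl i)) m i) {G : R3} (hG : G ∈ Hm (m i))
    (ha : ∀ v, B (lin (P (Sum.inl i)) ^ (d - m i) * (lin v * G)) F = 0)
    (hb : ∃ v, cr (P (Sum.inl i)) v ≠ 0 ∧
      lin (P (Sum.inl i)) ^ (d - m i) * (lin v * G) ∈ J d (fun i => P (Sum.inl i)) m) :
    lin (P (Sum.inl i)) ∣ G := by
  have hp : P (Sum.inl i) ≠ 0 := gp1 S.hE _
  by_cases h3 : 3 ≤ m i
  · obtain ⟨v, hv, hJ⟩ := hb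
    apply lin_dvd_of_mul hp hv
    apply hfull h3 _ _ hJ
    obtain ⟨n, hn⟩ : ∃ n, m i = n + 1 := ⟨m i - 1, by omega⟩
    rw [hn] at hG ⊢
    rw [mem_Hm_succ] at hG
    have := (lin_isHomogeneous v).mul hG
    rwa [add_comm] at this
  · have hcases : m i = 0 ∨ m i = 1 ∨ m i = 2 := by omega
    rcases hcases with h | h | h
    · rw [h, mem_Hm_zero] at hG
      rw [hG]
      exact dvd_zero _
    · rw [h] at hG
      have hG' : G.IsHomogeneous 0 := hG
      have h0 : G = C (coeff 0 G) :=
        (MvPolynomial.totalDegree_eq_zero_iff_eq_C).mp (Nat.le_zero.mp hG'.totalDegree_le)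
      by_cases hc : coeff 0 G = 0
      · rw [h0, hc, C_0]
        exact dvd_zero _
      · exfalso
        apply S.R1 i h
        intro v
        have h1 := ha v
        have h2 : lin (P (Sum.inl i)) ^ (d - m i) * (lin v * G) =
            C (coeff 0 G) * (lin (P (Sum.inl i)) ^ (d - 1) * lin v) := by
          rw [h, mul_comm (lin v), ← mul_assoc, mul_comm _ G, mul_assoc, ← h0]
        rw [h2, B_C_mul_left] at h1
        exact (mul_eq_zero.mp h1).resolve_left hc
    · rw [h] at hG
      have hG' : G.IsHomogeneous 1 := hG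
      obtain ⟨w, rfl⟩ := eq_lin_of_isHomogeneous hG'
      have h1 : cr (P (Sum.inl i)) w = 0 := by
        apply S.R2 hsq i h
        intro v
        have := ha v
        rwa [h, mul_comm (lin v)] at this
      obtain ⟨s, rfl⟩ := exists_smul_of_cr_eq_zero hp h1
      rw [lin_smul]
      exact Dvd.intro_left _ rfl

end Rigid

/-! ### derivatives of relations -/

section relations

variable {d : ℕ} {P : ι ⊕ κ → V3} {E : ι ⊕ κ → Fin 3 → Derivation ℚ ℂ ℂ} {m : ι → ℕ}

/-- first derivative of a relation along a motion of the point `j`, pairing version -/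
theorem cD_Psi (hE : IsDual P E) (hm : ∀ i, m i ≤ d) {G : ι → R3} (j : ι) (v : V3) :
    cD (mv E (Sum.inl j) v) (Psi d (fun i => P (Sum.inl i)) m G) =
      C ((d + 1 - m j : ℕ) : ℂ) * (lin (P (Sum.inl j)) ^ (d - m j) * (lin v * G j)) +
      Psi d (fun i => P (Sum.inl i)) m (fun i => cD (mv E (Sum.inl j) v) (G i)) := by
  rw [Psi_apply, Psi_apply, map_sum]
  have h1 : ∀ i, cD (mv E (Sum.inl j) v) (lin (P (Sum.inl i)) ^ (d + 1 - m i) * G i) =
      (if i = j then C ((d + 1 - m j : ℕ) : ℂ) *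
        (lin (P (Sum.inl j)) ^ (d - m j) * (lin v * G j)) else 0) +
      lin (P (Sum.inl i)) ^ (d + 1 - m i) * cD (mv E (Sum.inl j) v) (G i) := by
    intro i
    by_cases h : i = j
    · subst h
      rw [if_pos rfl, cD_mul, cD_pow, cD_lin_self hE,
        (by have := hm i; omega : d + 1 - m i - 1 = d - m i)]
      ring
    · rw [if_neg h, cD_mul, cD_lin_pow_ne hE (by simpa using h), zero_mul]
  rw [Finset.sum_congr rfl (fun i _ => h1 i), Finset.sum_add_distrib, Finset.sum_ite_eq' _ j,
    if_pos (Finset.mem_univ j)]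

/-- derivative of a relation along a motion of a point fixed by it -/
theorem cD_Psi_fixed (hE : IsDual P E) {G : ι → R3} {k : κ} (v : V3) :
    cD (mv E (Sum.inr k) v) (Psi d (fun i => P (Sum.inl i)) m G) =
      Psi d (fun i => P (Sum.inl i)) m (fun i => cD (mv E (Sum.inr k) v) (G i)) := by
  rw [Psi_apply, Psi_apply, map_sum]
  refine Finset.sum_congr rfl (fun i _ => ?_)
  rw [cD_mul, cD_lin_pow_ne hE (by simp), zero_mul, zero_add]

/-- derivative of a relation whose `j` component is divisible -/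
theorem cD_Psi_div (hE : IsDual P E) {G : ι → R3} (j : ι) (v : V3)
    {s : ℕ} {G' : R3} (hG : G j = lin (P (Sum.inl j)) ^ (s + 1) * G') :
    cD (mv E (Sum.inl j) v) (Psi d (fun i => P (Sum.inl i)) m G) =
      Psi d (fun i => P (Sum.inl i)) m
        (Function.update (fun i => cD (mv E (Sum.inl j) v) (G i)) j
          (lin (P (Sum.inl j)) ^ s * (C ((d + 1 - m j + (s + 1) : ℕ) : ℂ) * (lin v * G') +
            lin (P (Sum.inl j)) * cD (mv E (Sum.inl j) v) G'))) := by
  rw [Psi_apply, Psi_apply, map_sum]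
  refine Finset.sum_congr rfl (fun i _ => ?_)
  by_cases h : i = j
  · subst h
    rw [Function.update_self, hG]
    have e1 : lin (P (Sum.inl i)) ^ (d + 1 - m i) * (lin (P (Sum.inl i)) ^ (s + 1) * G') =
        lin (P (Sum.inl i)) ^ (d + 1 - m i + (s + 1)) * G' := by
      rw [pow_add]; ring
    rw [e1, cD_mul, cD_pow, cD_lin_self hE,
      (by omega : d + 1 - m i + (s + 1) - 1 = d + 1 - m i + s)]
    rw [pow_add _ (d + 1 - m i) s, pow_add _ (d + 1 - m i) (s + 1), pow_succ]
    ring
  · rw [Function.update_of_ne h, cD_mul, cD_lin_pow_ne hE (by simpa using h), zero_mul, zero_add]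

theorem update_mem_HH {G : ι → R3} (D : Derivation ℚ ℂ ℂ) (hG : G ∈ HH m) {j : ι} {K : R3}
    (hK : K ∈ Hm (m j)) : Function.update (fun i => cD D (G i)) j K ∈ HH m := by
  rw [mem_HH] at *
  intro i
  by_cases h : i = j
  · subst h
    rwa [Function.update_self]
  · rw [Function.update_of_ne h]
    exact cD_mem_Hm D (hG i)

theorem comp_mem_Hm {a v : V3} {s e : ℕ} {G' : R3} (D : Derivation ℚ ℂ ℂ) (c : ℂ)
    (hG' : G'.IsHomogeneous e) {n : ℕ} (hn : n = s + 1 + e + 1) :
    lin a ^ s * (C c * (lin v * G') + lin a * cD D G') ∈ Hm n := by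
  subst hn
  rw [mem_Hm_succ]
  have h1 : (C c * (lin v * G')).IsHomogeneous (1 + e) :=
    ((lin_isHomogeneous v).mul hG').C_mul c
  have h2 : (lin a * cD D G').IsHomogeneous (1 + e) :=
    (lin_isHomogeneous a).mul (cD_isHomogeneous D hG')
  have h3 := (lin_isHomogeneous_pow a s).mul (h1.add h2)
  rwa [← add_assoc] at h3

end relations

end Pool.Agent.Work.MP_0421d9_ag
end

section
/-!
The main argument, second part: nonspeciality.
-/

set_option linter.unusedSectionVars false

namespace Pool.Agent.Work.MP_0421d9_ag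

open MvPolynomial

section linalg

theorem exists_cr_ne {p : V3} (hp : p ≠ 0) : ∃ v, cr p v ≠ 0 := by
  by_contra hcon
  push Not at hcon
  apply hp
  have h0 := hcon (Pi.single 0 1)
  have h1 := hcon (Pi.single 1 1)
  have h01 := congrFun h0 1
  have h02 := congrFun h0 2
  have h12 := congrFun h1 2
  simp [cr] at h01 h02 h12
  ext l
  fin_cases l
  · exact h12
  · exact h02
  · exact h01

theorem exists_ker_ne {p : V3} (hp : p ≠ 0) (L : V3 →ₗ[ℂ] ℂ) : ∃ v, L v = 0 ∧ cr p v ≠ 0 := by
  by_contra hcon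
  push Not at hcon
  have h1 : LinearMap.ker L ≤ Submodule.span ℂ {p} := by
    intro v hv
    obtain ⟨s, hs⟩ := exists_smul_of_cr_eq_zero hp (hcon v hv)
    rw [hs]
    exact Submodule.smul_mem _ _ (Submodule.mem_span_singleton_self p)
  have h2 := LinearMap.finrank_range_add_finrank_ker L
  have h3 : Module.finrank ℂ (LinearMap.range L) ≤ 1 := by
    have := Submodule.finrank_le (LinearMap.range L)
    rwa [Module.finrank_self] at this
  have h4 : Module.finrank ℂ (LinearMap.ker L) ≤ 1 := by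
    refine (Submodule.finrank_mono h1).trans ?_
    exact (finrank_span_singleton hp).le
  have h5 : Module.finrank ℂ V3 = 3 := by simp
  omega

theorem exists_solution {p q : V3} (hp : p ≠ 0) (hq : q ≠ 0) (L : V3 →ₗ[ℂ] V3)
    (h : ∀ (v : V3) (c : ℂ), L v = c • q → cr p v = 0) (w : V3) :
    ∃ (v : V3) (c : ℂ), L v = w + c • q := by
  set T : (V3 × ℂ) →ₗ[ℂ] V3 := L.coprod (-(LinearMap.toSpanSingleton ℂ V3 q)) with hT
  have hTapp : ∀ v c, T (v, c) = L v - c • q := by
    intro v c
    rw [hT, LinearMap.coprod_apply, LinearMap.neg_apply, LinearMap.toSpanSingleton_apply,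
      sub_eq_add_neg]
  have h1 : Module.finrank ℂ (LinearMap.ker T) ≤ 1 := by
    set π : LinearMap.ker T →ₗ[ℂ] V3 := (LinearMap.fst ℂ V3 ℂ) ∘ₗ (LinearMap.ker T).subtype with hπ
    have hinj : Function.Injective π := by
      rw [← LinearMap.ker_eq_bot, Submodule.eq_bot_iff]
      rintro ⟨⟨v, c⟩, hvc⟩ hv
      have hv0 : v = 0 := hv
      have h2 : T (v, c) = 0 := hvc
      rw [hTapp, hv0, map_zero, zero_sub, neg_eq_zero, smul_eq_zero] at h2
      have hc : c = 0 := h2.resolve_right hq
      subst hv0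
      subst hc
      rfl
    have h3 : LinearMap.range π ≤ Submodule.span ℂ {p} := by
      rintro _ ⟨⟨⟨v, c⟩, hvc⟩, rfl⟩
      change v ∈ _
      have h2 : T (v, c) = 0 := hvc
      rw [hTapp, sub_eq_zero] at h2
      obtain ⟨s, hs⟩ := exists_smul_of_cr_eq_zero hp (h v c h2)
      rw [hs]
      exact Submodule.smul_mem _ _ (Submodule.mem_span_singleton_self p)
    rw [← LinearMap.finrank_range_of_inj hinj]
    refine (Submodule.finrank_mono h3).trans ?_
    exact (finrank_span_singleton hp).le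
  have h2 := LinearMap.finrank_range_add_finrank_ker T
  have h5 : Module.finrank ℂ (V3 × ℂ) = 4 := by simp
  have h6 : Module.finrank ℂ V3 = 3 := by simp
  have h7 : LinearMap.range T = ⊤ := by
    apply Submodule.eq_top_of_finrank_eq
    have := Submodule.finrank_le (LinearMap.range T)
    omega
  have h8 : w ∈ LinearMap.range T := by rw [h7]; trivial
  obtain ⟨⟨v, c⟩, hvc⟩ := h8
  refine ⟨v, c, ?_⟩
  rw [hTapp] at hvc
  rw [← hvc, sub_add_cancel]

/-- the derivative of a vector along the motion of a point, as a linear map -/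
noncomputable def QL {ι : Type} (E : ι → Fin 3 → Derivation ℚ ℂ ℂ) (x : ι) (q : V3) :
    V3 →ₗ[ℂ] V3 where
  toFun v := fun l => mv E x v (q l)
  map_add' v w := by
    ext l
    exact mv_add E x v w (q l)
  map_smul' c v := by
    ext l
    exact mv_smul E x c v (q l)

/-- evaluation of a linear form along a linear map -/
noncomputable def evQ (L : V3 →ₗ[ℂ] V3) (r : V3) : V3 →ₗ[ℂ] ℂ where
  toFun v := eval (L v) (lin r)
  map_add' v w := by
    rw [map_add, eval_lin, eval_lin, eval_lin, ← Finset.sum_add_distrib]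
    exact Finset.sum_congr rfl (fun i _ => mul_add _ _ _)
  map_smul' c v := by
    rw [map_smul, eval_lin, eval_lin, RingHom.id_apply, smul_eq_mul, Finset.mul_sum]
    refine Finset.sum_congr rfl (fun i _ => ?_)
    rw [Pi.smul_apply, smul_eq_mul]
    ring

end linalg

section sums

theorem sum_eq_three {ι : Type} [Fintype ι] [DecidableEq ι] {f : ι → R3} {a b c : ι} (hab : a ≠ b)
    (hac : a ≠ c) (hbc : b ≠ c) (h : ∀ i, i ≠ a → i ≠ b → i ≠ c → f i = 0) :
    ∑ i, f i = f a + f b + f c := by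
  have h1 : ∑ i ∈ ({a, b, c} : Finset ι), f i = ∑ i, f i := by
    apply Finset.sum_subset (Finset.subset_univ _)
    intro i _ hi
    simp only [Finset.mem_insert, Finset.mem_singleton, not_or] at hi
    exact h i hi.1 hi.2.1 hi.2.2
  rw [← h1, Finset.sum_insert (by simp [hab, hac]), Finset.sum_insert (by simp [hbc]),
    Finset.sum_singleton]
  ring

theorem sum_eq_four {ι : Type} [Fintype ι] [DecidableEq ι] {f : ι → R3} {a b c e : ι} (hab : a ≠ b)
    (hac : a ≠ c) (hae : a ≠ e) (hbc : b ≠ c) (hbe : b ≠ e) (hce : c ≠ e)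
    (h : ∀ i, i ≠ a → i ≠ b → i ≠ c → i ≠ e → f i = 0) :
    ∑ i, f i = f a + f b + f c + f e := by
  have h1 : ∑ i ∈ ({a, b, c, e} : Finset ι), f i = ∑ i, f i := by
    apply Finset.sum_subset (Finset.subset_univ _)
    intro i _ hi
    simp only [Finset.mem_insert, Finset.mem_singleton, not_or] at hi
    exact h i hi.1 hi.2.1 hi.2.2.1 hi.2.2.2
  rw [← h1, Finset.sum_insert (by simp [hab, hac, hae]), Finset.sum_insert (by simp [hbc, hbe]),
    Finset.sum_insert (by simp [hce]), Finset.sum_singleton]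
  ring

end sums

variable {ι κ : Type} [Fintype ι] [Fintype κ] [DecidableEq ι] [DecidableEq κ]

variable {d : ℕ} {P : ι ⊕ κ → V3} {E : ι ⊕ κ → Fin 3 → Derivation ℚ ℂ ℂ} {m : ι → ℕ} {F : R3}

theorem mem_of_C_mul_mem {W : Submodule ℂ R3} {c : ℂ} (hc : c ≠ 0) {A : R3}
    (h : C c * A ∈ W) : A ∈ W := by
  rw [← smul_eq_C_mul] at h
  have := Submodule.smul_mem W c⁻¹ h
  rwa [smul_smul, inv_mul_cancel₀ hc, one_smul] at this

theorem C_mul_mem {W : Submodule ℂ R3} (c : ℂ) {A : R3} (h : A ∈ W) : C c * A ∈ W := by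
  rw [← smul_eq_C_mul]
  exact Submodule.smul_mem W c h

theorem Psi_mem_J {p : ι → V3} {G : ι → R3} (hG : G ∈ HH m) : Psi d p m G ∈ J d p m :=
  Submodule.mem_map_of_mem hG

theorem not_dvd_comp {p v : V3} (hp : p ≠ 0) (hv : cr p v ≠ 0) {G' K : R3} (hG' : ¬ lin p ∣ G')
    {c : ℂ} (hc : c ≠ 0) : ¬ lin p ∣ C c * (lin v * G') + lin p * K := by
  intro h
  rw [dvd_add_left (Dvd.intro _ rfl)] at h
  have h1 : lin p ∣ lin v * G' := by
    have := Dvd.dvd.mul_left h (C c⁻¹)
    rwa [← mul_assoc, ← map_mul, inv_mul_cancel₀ hc, C_1, one_mul] at this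
  exact hG' (lin_dvd_of_mul hp hv h1)

namespace Rigid

theorem claim1 (S : Rigid d P E m F) (hsq : Squarefree F) {j : ι}
    (hfull : 3 ≤ m j → Full d (fun i => P (Sum.inl i)) m j) {G : ι → R3} (hG : G ∈ HH m)
    (h0 : Psi d (fun i => P (Sum.inl i)) m G = 0) : lin (P (Sum.inl j)) ∣ G j := by
  have h1 : ∀ v, lin (P (Sum.inl j)) ^ (d - m j) * (lin v * G j) ∈
      J d (fun i => P (Sum.inl i)) m := by
    intro v
    have h2 := cD_Psi S.hE S.hm (G := G) j v
    rw [h0, map_zero] at h2
    have h3 : C ((d + 1 - m j : ℕ) : ℂ) * (lin (P (Sum.inl j)) ^ (d - m j) * (lin v * G j)) =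
        - Psi d (fun i => P (Sum.inl i)) m (fun i => cD (mv E (Sum.inl j) v) (G i)) :=
      eq_neg_of_add_eq_zero_left h2.symm
    have h4 : ((d + 1 - m j : ℕ) : ℂ) ≠ 0 := by
      rw [Nat.cast_ne_zero]
      have := S.hm j
      omega
    apply mem_of_C_mul_mem h4
    rw [h3]
    apply Submodule.neg_mem
    apply Psi_mem_J
    rw [mem_HH] at *
    exact fun i => cD_mem_Hm _ (hG i)
  obtain ⟨v, hv⟩ := exists_cr_ne (gp1 S.hE (Sum.inl j))
  exact S.div hsq hfull (mem_HH.mp hG j) (fun v => S.B_J (h1 v)) ⟨v, hv, h1 v⟩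

theorem claim2 (S : Rigid d P E m F) (hsq : Squarefree F) {j : ι}
    (hfull : 3 ≤ m j → Full d (fun i => P (Sum.inl i)) m j) (s : ℕ) : ∀ (G : ι → R3),
    G ∈ HH m → Psi d (fun i => P (Sum.inl i)) m G = 0 → ∀ (e : ℕ) (G' : R3),
    G j = lin (P (Sum.inl j)) ^ s * G' → G'.IsHomogeneous e → m j = s + e + 1 →
    ¬ lin (P (Sum.inl j)) ∣ G' → False := by
  induction s with
  | zero =>
    intro G hG h0 e G' hj _ _ hnd
    apply hnd
    have := S.claim1 hsq hfull hG h0
    rwa [hj, pow_zero, one_mul] at this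
  | succ s ih =>
    intro G hG h0 e G' hj hhom hmj hnd
    have hp := gp1 S.hE (Sum.inl j)
    obtain ⟨v, hv⟩ := exists_cr_ne hp
    have h1 := cD_Psi_div (m := m) (d := d) S.hE j v hj
    rw [h0, map_zero] at h1
    have hκ : ((d + 1 - m j + (s + 1) : ℕ) : ℂ) ≠ 0 := by
      rw [Nat.cast_ne_zero]; omega
    refine ih _ (update_mem_HH (mv E (Sum.inl j) v) hG
      (comp_mem_Hm (mv E (Sum.inl j) v) _ hhom hmj)) h1.symm (1 + e)
      (C ((d + 1 - m j + (s + 1) : ℕ) : ℂ) * (lin v * G') +
            lin (P (Sum.inl j)) * cD (mv E (Sum.inl j) v) G')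
      (Function.update_self _ _ _) ?_ (by omega) (not_dvd_comp hp hv hnd hκ)
    exact (((lin_isHomogeneous v).mul hhom).C_mul _).add
      ((lin_isHomogeneous _).mul (cD_isHomogeneous _ hhom))

theorem claim3 (S : Rigid d P E m F) (hsq : Squarefree F) {j : ι}
    (hfull : 3 ≤ m j → Full d (fun i => P (Sum.inl i)) m j) {G : ι → R3} (hG : G ∈ HH m)
    (h0 : Psi d (fun i => P (Sum.inl i)) m G = 0) : G j = 0 := by
  by_contra hne
  have h1 := mem_HH.mp hG j
  rcases Nat.eq_zero_or_pos (m j) with hz | hz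
  · rw [hz, mem_Hm_zero] at h1
    exact hne h1
  · obtain ⟨n, hn⟩ : ∃ n, m j = n + 1 := ⟨m j - 1, by omega⟩
    rw [hn, mem_Hm_succ] at h1
    obtain ⟨s, e, G', hse, hjG, hhom, hnd⟩ :=
      exists_lin_factorization (p := P (Sum.inl j)) n (G j) h1 hne
    exact S.claim2 hsq hfull s G hG h0 e G' hjG hhom (by omega) hnd

/-- uniqueness of relations: the system is nonspecial -/
theorem unique_rel (S : Rigid d P E m F) (hsq : Squarefree F) {a b c : ι} (hab : a ≠ b)
    (hac : a ≠ c) (hbc : b ≠ c)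
    (hfull : ∀ j, j ≠ a → j ≠ b → j ≠ c → 3 ≤ m j → Full d (fun i => P (Sum.inl i)) m j)
    {G : ι → R3} (hG : G ∈ HH m)
    (h0 : Psi d (fun i => P (Sum.inl i)) m G = 0) : G = 0 := by
  have h1 : ∀ j, j ≠ a → j ≠ b → j ≠ c → G j = 0 := fun j ha hb hc =>
    S.claim3 hsq (hfull j ha hb hc) hG h0
  have h2 : Psi d (fun i => P (Sum.inl i)) m G =
      lin (P (Sum.inl a)) ^ (d + 1 - m a) * G a + lin (P (Sum.inl b)) ^ (d + 1 - m b) * G b +
      lin (P (Sum.inl c)) ^ (d + 1 - m c) * G c := by
    rw [Psi_apply]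
    apply sum_eq_three hab hac hbc
    intro i hia hib hic
    rw [h1 i hia hib hic, mul_zero]
  rw [h0] at h2
  have hpair : ∀ x y : ι, x ≠ y → m x + m y ≤ d + 1 := fun x y hxy =>
    pair_le S.hom hsq (gp2 S.hE (x := Sum.inl x) (y := Sum.inl y) (by simpa using hxy))
      (S.vanish x) (S.vanish y)
  have hdet : ∀ x y z : ι, x ≠ y → x ≠ z → y ≠ z →
      eval (P (Sum.inl z)) (xl (P (Sum.inl x)) (P (Sum.inl y))) ≠ 0 := fun x y z hxy hxz hyz =>
    gp3 S.hE (x := Sum.inl x) (y := Sum.inl y) (z := Sum.inl z) (by simpa using hxy)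
      (by simpa using hxz) (by simpa using hyz)
  have hGm := mem_HH.mp hG
  have ha : G a = 0 := three_points (hdet b c a hbc hab.symm hac.symm) (S.hm a) (hpair a b hab)
    (hpair a c hac) (hGm a) h2.symm
  have hb : G b = 0 := three_points (Gb := G a) (Gc := G c) (hdet a c b hac hab hbc.symm) (S.hm b) (hpair b a hab.symm)
    (hpair b c hbc) (hGm b) (by linear_combination -h2)
  have hc : G c = 0 := three_points (Gb := G a) (Gc := G b) (hdet a b c hab hac hbc) (S.hm c) (hpair c a hac.symm)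
    (hpair c b hbc.symm) (hGm c) (by linear_combination -h2)
  funext i
  by_cases hia : i = a
  · rw [hia, ha]; rfl
  · by_cases hib : i = b
    · rw [hib, hb]; rfl
    · by_cases hic : i = c
      · rw [hic, hc]; rfl
      · rw [h1 i hia hib hic]; rfl

/-- comparison of two expressions of the derivative of a relation -/
theorem contra (S : Rigid d P E m F)
    (hN : ∀ G ∈ HH m, Psi d (fun i => P (Sum.inl i)) m G = 0 → G = 0)
    {G : ι → R3} (hG : G ∈ HH m) {j : ι} {s e : ℕ} {G' : R3}
    (hj : G j = lin (P (Sum.inl j)) ^ (s + 1) * G') (hhom : G'.IsHomogeneous e)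
    (hmj : m j = s + 1 + e + 1) (hnd : ¬ lin (P (Sum.inl j)) ∣ G') {v : V3}
    (hv : cr (P (Sum.inl j)) v ≠ 0) {X : ι → R3} (hX : X ∈ HH m)
    (hXP : Psi d (fun i => P (Sum.inl i)) m X =
      cD (mv E (Sum.inl j) v) (Psi d (fun i => P (Sum.inl i)) m G))
    (hdiv : lin (P (Sum.inl j)) ^ (s + 1) ∣ X j) : False := by
  have hp := gp1 S.hE (Sum.inl j)
  have h1 := cD_Psi_div (m := m) (d := d) S.hE j v hj
  have hκ : ((d + 1 - m j + (s + 1) : ℕ) : ℂ) ≠ 0 := by
    rw [Nat.cast_ne_zero]; omega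
  set Y := Function.update (fun i => cD (mv E (Sum.inl j) v) (G i)) j
          (lin (P (Sum.inl j)) ^ s * (C ((d + 1 - m j + (s + 1) : ℕ) : ℂ) * (lin v * G') +
            lin (P (Sum.inl j)) * cD (mv E (Sum.inl j) v) G')) with hY
  have hYm : Y ∈ HH m := update_mem_HH (mv E (Sum.inl j) v) hG
      (comp_mem_Hm (mv E (Sum.inl j) v) _ hhom hmj)
  have h2 : X - Y = 0 := by
    apply hN _ (Submodule.sub_mem _ hX hYm)
    rw [map_sub, hXP, h1, sub_self]
  have h3 : X j = Y j := by
    rw [sub_eq_zero.mp h2]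
  rw [h3, hY, Function.update_self, pow_succ] at hdiv
  have h4 := (mul_dvd_mul_iff_left (pow_ne_zero s (lin_prime hp).ne_zero)).mp hdiv
  exact not_dvd_comp hp hv hnd hκ h4

end Rigid

end Pool.Agent.Work.MP_0421d9_ag
end

section
/-!
The main argument, third part: smoothness.
-/

set_option linter.unusedSectionVars false

namespace Pool.Agent.Work.MP_0421d9_ag

open MvPolynomial

variable {ι κ : Type} [Fintype ι] [Fintype κ] [DecidableEq ι] [DecidableEq κ]

variable {d : ℕ} {P : ι ⊕ κ → V3} {E : ι ⊕ κ → Fin 3 → Derivation ℚ ℂ ℂ} {m : ι → ℕ} {F : R3}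

theorem cD_lin_pow_eq (D : Derivation ℚ ℂ ℂ) (q : V3) (n : ℕ) :
    cD D (lin q ^ n) = C (n : ℂ) * (lin q ^ (n - 1) * lin (fun l => D (q l))) := by
  rw [cD_pow, cD_lin]

theorem cD_lin_pow_prop {D : Derivation ℚ ℂ ℂ} {q : V3} {c : ℂ} (h : (fun l => D (q l)) = c • q)
    (n : ℕ) : cD D (lin q ^ n) = C (n * c) * lin q ^ n := by
  rw [cD_lin_pow_eq, h, lin_smul]
  cases n with
  | zero => simp
  | succ n =>
    rw [Nat.add_sub_cancel, pow_succ, map_mul]
    ring

theorem HH_cD {G : ι → R3} (D : Derivation ℚ ℂ ℂ) (hG : G ∈ HH m) :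
    (fun i => cD D (G i)) ∈ HH m := by
  rw [mem_HH] at *
  exact fun i => cD_mem_Hm _ (hG i)

theorem two_lines {a b c q : V3} (hab : cr a b ≠ 0) (hdet : eval b (xl a c) ≠ 0)
    (hqa : cr a q ≠ 0) (h1 : eval q (xl a b) = 0) (h2 : eval q (xl a c) = 0) : False := by
  obtain ⟨s, t, hst⟩ := exists_comb hab h1
  have h3 : eval q (xl a c) = t * eval b (xl a c) := by
    rw [hst, eval_xl, eval_xl]
    simp only [Pi.add_apply, Pi.smul_apply, smul_eq_mul]
    ring
  rw [h3] at h2
  have ht : t = 0 := (mul_eq_zero.mp h2).resolve_right hdet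
  apply hqa
  rw [hst, ht, zero_smul, add_zero]
  exact cr_smul_self s a

theorem eval_xl_symm_zero {a b q : V3} (h : eval q (xl a b) = 0) : eval q (xl b a) = 0 := by
  rw [xl_symm, map_mul, h, mul_zero]

namespace Rigid

/-- numerical facts for a rigid squarefree member -/
theorem pair (S : Rigid d P E m F) (hsq : Squarefree F) {x y : ι} (hxy : x ≠ y) :
    m x + m y ≤ d + 1 :=
  pair_le S.hom hsq (gp2 S.hE (x := Sum.inl x) (y := Sum.inl y) (by simpa using hxy))
      (S.vanish x) (S.vanish y)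

theorem det (S : Rigid d P E m F) {x y z : ι} (hxy : x ≠ y) (hxz : x ≠ z) (hyz : y ≠ z) :
    eval (P (Sum.inl z)) (xl (P (Sum.inl x)) (P (Sum.inl y))) ≠ 0 :=
  gp3 S.hE (x := Sum.inl x) (y := Sum.inl y) (z := Sum.inl z) (by simpa using hxy)
      (by simpa using hxz) (by simpa using hyz)

theorem cr_ne (S : Rigid d P E m F) {x y : ι} (hxy : x ≠ y) :
    cr (P (Sum.inl x)) (P (Sum.inl y)) ≠ 0 :=
  gp2 S.hE (x := Sum.inl x) (y := Sum.inl y) (by simpa using hxy)

theorem four (S : Rigid d P E m F) (hsq : Squarefree F) {a b c e : ι} (hab : a ≠ b)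
    (hac : a ≠ c) (hae : a ≠ e) (hbc : b ≠ c) (hbe : b ≠ e) (hce : c ≠ e) :
    m a + m b + m c + m e ≤ 2 * d :=
  four_le S.hom hsq (S.cr_ne hab) (S.cr_ne hce) (S.det hce hac.symm hae.symm)
    (S.det hce hbc.symm hbe.symm) (S.det hab hac hbc) (S.det hab hae hbe)
    (S.vanish a) (S.vanish b) (S.vanish c) (S.vanish e)

/-- application of the test forms to one partition of four points -/
theorem test_partition (S : Rigid d P E m F) (hsq : Squarefree F) {a b c e : ι} (hab : a ≠ b)
    (hac : a ≠ c) (hae : a ≠ e) (hbc : b ≠ c) (hbe : b ≠ e) (hce : c ≠ e)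
    {q : V3} (hq : ∀ i : ι, cr (P (Sum.inl i)) q ≠ 0)
    (hsing : ∀ k, eval q (pderiv k F) = 0)
    (h1 : eval q (xl (P (Sum.inl a)) (P (Sum.inl c))) ≠ 0)
    (h2 : eval q (xl (P (Sum.inl a)) (P (Sum.inl e))) ≠ 0)
    (h3 : eval q (xl (P (Sum.inl b)) (P (Sum.inl c))) ≠ 0)
    (h4 : eval q (xl (P (Sum.inl b)) (P (Sum.inl e))) ≠ 0)
    {Ga Gb Gc Ge : R3} (hGe : m e = 0 → Ge = 0)
    (h : lin q ^ d = lin (P (Sum.inl a)) ^ (d + 1 - m a) * Ga +
      lin (P (Sum.inl b)) ^ (d + 1 - m b) * Gb + lin (P (Sum.inl c)) ^ (d + 1 - m c) * Gc +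
      lin (P (Sum.inl e)) ^ (d + 1 - m e) * (lin (P (Sum.inl e)) * Ge)) : False := by
  have hpab := S.pair hsq hab
  refine test_point h1 h2 h3 h4 (S.hm a) (S.hm b) (S.hm c) ?_ (S.pair hsq hce)
    (S.four hsq hab hac hae hbc hbe hce) hGe h
  rcases Nat.lt_or_ge d (m a + m b) with h5 | h5
  · right
    refine ⟨by omega, fun h6 => ?_⟩
    exact not_singular_on_bad_line S.hom hsq (S.cr_ne hab) (S.vanish a) (S.vanish b) (by omega)
      h6 (hq a) (hq b) hsing
  · left; exact h5

theorem test_four (S : Rigid d P E m F) (hsq : Squarefree F) {a b c e : ι} (hab : a ≠ b)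
    (hac : a ≠ c) (hae : a ≠ e) (hbc : b ≠ c) (hbe : b ≠ e) (hce : c ≠ e)
    {q : V3} (hq : ∀ i : ι, cr (P (Sum.inl i)) q ≠ 0)
    (hsing : ∀ k, eval q (pderiv k F) = 0)
    {Ga Gb Gc Ge : R3} (hGe : m e = 0 → Ge = 0)
    (h : lin q ^ d = lin (P (Sum.inl a)) ^ (d + 1 - m a) * Ga +
      lin (P (Sum.inl b)) ^ (d + 1 - m b) * Gb + lin (P (Sum.inl c)) ^ (d + 1 - m c) * Gc +
      lin (P (Sum.inl e)) ^ (d + 1 - m e) * (lin (P (Sum.inl e)) * Ge)) : False := by
  -- two lines through a common point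
  have key : ∀ {x y z : ι}, x ≠ y → x ≠ z → y ≠ z →
      eval q (xl (P (Sum.inl x)) (P (Sum.inl y))) = 0 →
      eval q (xl (P (Sum.inl x)) (P (Sum.inl z))) ≠ 0 := by
    intro x y z hxy hxz hyz h1 h2
    exact two_lines (S.cr_ne hxy) (S.det hxz hxy hyz.symm) (hq x) h1 h2
  have sy : ∀ {x y : ι}, eval q (xl (P (Sum.inl x)) (P (Sum.inl y))) = 0 →
      eval q (xl (P (Sum.inl y)) (P (Sum.inl x))) = 0 := fun h => eval_xl_symm_zero h
  have sn : ∀ {x y : ι}, eval q (xl (P (Sum.inl x)) (P (Sum.inl y))) ≠ 0 →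
      eval q (xl (P (Sum.inl y)) (P (Sum.inl x))) ≠ 0 := fun h h' => h (sy h')
  by_cases l1 : eval q (xl (P (Sum.inl a)) (P (Sum.inl c))) = 0
  · -- partition ac | be
    refine S.test_partition hsq (a := a) (b := c) (c := b) (e := e) hac hab hae hbc.symm hce hbe
      hq hsing (key hac hab hbc.symm l1) (key hac hae hce l1)
      (key hac.symm hbc.symm hab (sy l1)) (key hac.symm hce hae (sy l1)) hGe
      (Ga := Ga) (Gb := Gc) (Gc := Gb) (by rw [h]; ring)
  by_cases l2 : eval q (xl (P (Sum.inl b)) (P (Sum.inl e))) = 0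
  · refine S.test_partition hsq (a := a) (b := c) (c := b) (e := e) hac hab hae hbc.symm hce hbe
      hq hsing (sn (key hbe hab.symm hae.symm l2)) (sn (key hbe.symm hae.symm hab.symm (sy l2)))
      (sn (key hbe hbc hce.symm l2)) (sn (key hbe.symm hce.symm hbc (sy l2))) hGe
      (Ga := Ga) (Gb := Gc) (Gc := Gb) (by rw [h]; ring)
  by_cases l3 : eval q (xl (P (Sum.inl b)) (P (Sum.inl c))) = 0
  · -- partition bc | ae
    refine S.test_partition hsq (a := b) (b := c) (c := a) (e := e) hbc hab.symm hbe hac.symm hce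
      hae hq hsing (key hbc hab.symm hac.symm l3) (key hbc hbe hce l3)
      (key hbc.symm hac.symm hab.symm (sy l3)) (key hbc.symm hce hbe (sy l3)) hGe
      (Ga := Gb) (Gb := Gc) (Gc := Ga) (by rw [h]; ring)
  by_cases l4 : eval q (xl (P (Sum.inl a)) (P (Sum.inl e))) = 0
  · refine S.test_partition hsq (a := b) (b := c) (c := a) (e := e) hbc hab.symm hbe hac.symm hce
      hae hq hsing (sn (key hae hab hbe.symm l4)) (sn (key hae.symm hbe.symm hab (sy l4)))
      (sn (key hae hac hce.symm l4)) (sn (key hae.symm hce.symm hac (sy l4))) hGe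
      (Ga := Gb) (Gb := Gc) (Gc := Ga) (by rw [h]; ring)
  exact S.test_partition hsq hab hac hae hbc hbe hce hq hsing l1 l4 l3 l2 hGe h

end Rigid

end Pool.Agent.Work.MP_0421d9_ag
end

section
/-!
Smoothness of the rigid member away from the multiple points.
-/

set_option linter.unusedSectionVars false

namespace Pool.Agent.Work.MP_0421d9_ag

open MvPolynomial

variable {ι κ : Type} [Fintype ι] [Fintype κ] [DecidableEq ι] [DecidableEq κ]

variable {d : ℕ} {P : ι ⊕ κ → V3} {E : ι ⊕ κ → Fin 3 → Derivation ℚ ℂ ℂ} {m : ι → ℕ} {F : R3}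

theorem cr_zero_right (p : V3) : cr p 0 = 0 := by
  ext l
  fin_cases l <;> simp [cr]

namespace Rigid

/-- the rigid member is smooth away from the multiple points -/
theorem no_singularity (S : Rigid d P E m F) (hsq : Squarefree F) {a b c : ι} (hab : a ≠ b)
    (hac : a ≠ c) (hbc : b ≠ c) (hex : ∃ e, e ≠ a ∧ e ≠ b ∧ e ≠ c)
    (hfull : ∀ j, j ≠ a → j ≠ b → j ≠ c → 3 ≤ m j → Full d (fun i => P (Sum.inl i)) m j)
    {q : V3} (hq : ∀ i : ι, cr (P (Sum.inl i)) q ≠ 0) (hq0 : eval q F = 0)
    (hsing : ∀ k, eval q (pderiv k F) = 0) : False := by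
  set p : ι → V3 := fun i => P (Sum.inl i) with hp
  have hN : ∀ G ∈ HH m, Psi d p m G = 0 → G = 0 := fun G hG h0 =>
    S.unique_rel hsq hab hac hbc hfull hG h0
  have hqne : q ≠ 0 := by
    intro h
    apply hq a
    rw [h, cr_zero_right]
  have hd : 1 ≤ d := by
    by_contra hc
    have hd0 : d = 0 := by omega
    have h1 := S.hom
    rw [hd0] at h1
    have h0 : F = C (coeff 0 F) :=
      (MvPolynomial.totalDegree_eq_zero_iff_eq_C).mp (Nat.le_zero.mp h1.totalDegree_le)
    rw [h0, eval_C] at hq0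
    rw [hq0, C_0] at h0
    exact S.hF0 h0
  obtain ⟨d', rfl⟩ : ∃ d', d = d' + 1 := ⟨d - 1, by omega⟩
  have hdne : ((d' + 1 : ℕ) : ℂ) ≠ 0 := by
    rw [Nat.cast_ne_zero]; omega
  -- the singularity in terms of the pairing
  have hBq : B (lin q ^ (d' + 1)) F = 0 := by
    rw [B_lin_pow S.hom, hq0, mul_zero]
  have hBw : ∀ w, B (lin q ^ d' * lin w) F = 0 := by
    intro w
    have h1 : (dir w F).IsHomogeneous d' := by
      simpa using dir_isHomogeneous w S.hom
    rw [mul_comm, B_lin_mul, B_lin_pow h1, dir_apply, map_sum]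
    have h2 : ∑ k, eval q (C (w k) * pderiv k F) = 0 := by
      refine Finset.sum_eq_zero (fun k _ => ?_)
      rw [map_mul, hsing k, mul_zero]
    rw [h2, mul_zero]
  have hcDq : ∀ D : Derivation ℚ ℂ ℂ, cD D (lin q ^ (d' + 1)) =
      C ((d' + 1 : ℕ) : ℂ) * (lin q ^ d' * lin (fun l => D (q l))) := by
    intro D
    rw [cD_lin_pow_eq, Nat.add_sub_cancel]
  -- step 1
  have hJ : lin q ^ (d' + 1) ∈ J (d' + 1) p m := by
    apply S.memJ (lin_isHomogeneous_pow q (d' + 1)) hBq
    intro k v
    have h1 := D_B (mv E (Sum.inr k) v) (lin q ^ (d' + 1)) F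
    rw [hBq, map_zero, hcDq, B_C_mul_left, hBw, mul_zero, zero_add] at h1
    exact h1.symm
  obtain ⟨G, hG', hGq⟩ := mem_J.mp hJ
  have hG : G ∈ HH m := mem_HH.mpr hG'
  rw [← Psi_apply] at hGq
  -- step 2
  have hT : ∃ w, cr q w ≠ 0 ∧ lin q ^ d' * lin w ∈ J (d' + 1) p m := by
    by_contra hcon
    push Not at hcon
    have hT' : ∀ w, lin q ^ d' * lin w ∈ J (d' + 1) p m → cr q w = 0 := by
      intro w hw
      by_contra h
      exact hcon w h hw
    have hprop : ∀ k v, ∃ c : ℂ, (fun l => mv E (Sum.inr k) v (q l)) = c • q := by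
      intro k v
      apply exists_smul_of_cr_eq_zero hqne
      apply hT'
      apply mem_of_C_mul_mem hdne
      rw [← hcDq, ← hGq, cD_Psi_fixed S.hE]
      exact Psi_mem_J (HH_cD _ hG)
    obtain ⟨w, hw⟩ := exists_cr_ne hqne
    apply hw
    apply hT'
    apply S.memJ _ (hBw w)
    · intro k v
      obtain ⟨c, hc⟩ := hprop k v
      have h1 := D_B (mv E (Sum.inr k) v) (lin q ^ d' * lin w) F
      rw [hBw, map_zero, cD_mul, cD_lin_pow_prop hc, cD_lin, map_add, LinearMap.add_apply,
        mul_assoc, B_C_mul_left, hBw, hBw, mul_zero, zero_add, zero_add] at h1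
      exact h1.symm
    · exact (lin_isHomogeneous_pow q d').mul (lin_isHomogeneous w)
  obtain ⟨w₀, hw₀, hw₀J⟩ := hT
  -- step 3: divisibility of the components
  have hdivG : ∀ j, j ≠ a → j ≠ b → j ≠ c → lin (p j) ∣ G j := by
    intro j hja hjb hjc
    have hκ : ((d' + 1 + 1 - m j : ℕ) : ℂ) ≠ 0 := by
      rw [Nat.cast_ne_zero]
      have := S.hm j
      omega
    have h1 : ∀ v, C ((d' + 1 + 1 - m j : ℕ) : ℂ) * (lin (p j) ^ (d' + 1 - m j) * (lin v * G j)) =
        C ((d' + 1 : ℕ) : ℂ) * (lin q ^ d' * lin (fun l => mv E (Sum.inl j) v (q l))) -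
          Psi (d' + 1) p m (fun i => cD (mv E (Sum.inl j) v) (G i)) := by
      intro v
      have h2 := cD_Psi S.hE S.hm (G := G) j v
      rw [hGq, hcDq] at h2
      rw [h2]
      ring
    apply S.div hsq (hfull j hja hjb hjc) (hG' j)
    · intro v
      have h2 := congrArg (fun z => B z F) (h1 v)
      simp only [map_sub, LinearMap.sub_apply, B_C_mul_left] at h2
      rw [hBw, mul_zero, S.B_J (Psi_mem_J (HH_cD _ hG)), sub_zero] at h2
      exact (mul_eq_zero.mp h2).resolve_left hκ
    · obtain ⟨v, hv0, hv⟩ := exists_ker_ne (gp1 S.hE (Sum.inl j))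
        (evQ (QL E (Sum.inl j) q) (cr q w₀))
      refine ⟨v, hv, ?_⟩
      apply mem_of_C_mul_mem hκ
      rw [h1 v]
      apply Submodule.sub_mem _ _ (Psi_mem_J (HH_cD _ hG))
      apply C_mul_mem
      obtain ⟨s, t, hst⟩ := exists_comb hw₀ (show eval (QL E (Sum.inl j) q v) (xl q w₀) = 0 from hv0)
      rw [show (fun l => mv E (Sum.inl j) v (q l)) = s • q + t • w₀ from hst, lin_add, lin_smul,
        lin_smul, mul_add]
      apply Submodule.add_mem
      · have : lin q ^ d' * (C s * lin q) = C s * lin q ^ (d' + 1) := by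
          rw [pow_succ]; ring
        rw [this]
        exact C_mul_mem _ hJ
      · have : lin q ^ d' * (C t * lin w₀) = C t * (lin q ^ d' * lin w₀) := by ring
        rw [this]
        exact C_mul_mem _ hw₀J
  -- factorisations
  have hfact : ∀ j, j ≠ a → j ≠ b → j ≠ c → G j ≠ 0 → ∃ (s e : ℕ) (G' : R3),
      G j = lin (p j) ^ (s + 1) * G' ∧ G'.IsHomogeneous e ∧ m j = s + 1 + e + 1 ∧
      ¬ lin (p j) ∣ G' := by
    intro j hja hjb hjc hne
    have h1 := hG' j
    rcases Nat.eq_zero_or_pos (m j) with hz | hz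
    · rw [hz, mem_Hm_zero] at h1
      exact absurd h1 hne
    · obtain ⟨n, hn⟩ : ∃ n, m j = n + 1 := ⟨m j - 1, by omega⟩
      rw [hn, mem_Hm_succ] at h1
      obtain ⟨s, e, G', hse, hjG, hhom, hnd⟩ :=
        exists_lin_factorization (p := p j) n (G j) h1 hne
      cases s with
      | zero =>
        exfalso
        apply hnd
        have := hdivG j hja hjb hjc
        rwa [hjG, pow_zero, one_mul] at this
      | succ s => exact ⟨s, e, G', hjG, hhom, by omega, hnd⟩
  -- step 4: at most one nonzero component outside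
  have huniq : ∀ j j', j ≠ a → j ≠ b → j ≠ c → j' ≠ a → j' ≠ b → j' ≠ c → j ≠ j' →
      G j ≠ 0 → G j' ≠ 0 → False := by
    intro j j' hja hjb hjc hja' hjb' hjc' hjj hj hj'
    obtain ⟨s, e, G₁, h1, h2, h3, h4⟩ := hfact j hja hjb hjc hj
    obtain ⟨s', e', G₂, h1', h2', h3', h4'⟩ := hfact j' hja' hjb' hjc' hj'
    obtain ⟨v, hv⟩ := exists_cr_ne (gp1 S.hE (Sum.inl j))
    -- the motion of `j'` moves `q` in all directions
    have hsurj := exists_solution (gp1 S.hE (Sum.inl j')) hqne (QL E (Sum.inl j') q) (by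
      intro v' c' hv'
      by_contra hcr
      have hv'' : (fun l => mv E (Sum.inl j') v' (q l)) = c' • q := hv'
      refine S.contra hN hG h1' h2' h3' h4' hcr (X := (((d' + 1 : ℕ) : ℂ) * c') • G)
        (Submodule.smul_mem _ _ hG) ?_ ?_
      · change Psi (d' + 1) p m _ = cD _ (Psi (d' + 1) p m G)
        rw [map_smul, hGq, hcDq, hv'', lin_smul, smul_eq_C_mul, map_mul, pow_succ]
        ring
      · rw [Pi.smul_apply, smul_eq_C_mul, h1']
        exact Dvd.dvd.mul_left (Dvd.intro _ rfl) _)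
      (QL E (Sum.inl j) q v)
    obtain ⟨v', c', hvc⟩ := hsurj
    have hvc' : (fun l => mv E (Sum.inl j') v' (q l)) =
        (fun l => mv E (Sum.inl j) v (q l)) + c' • q := hvc
    have h5 := cD_Psi_div (m := m) (d := d' + 1) S.hE j' v' h1'
    set Y := Function.update (fun i => cD (mv E (Sum.inl j') v') (G i)) j'
          (lin (P (Sum.inl j')) ^ s' * (C ((d' + 1 + 1 - m j' + (s' + 1) : ℕ) : ℂ) *
            (lin v' * G₂) + lin (P (Sum.inl j')) * cD (mv E (Sum.inl j') v') G₂)) with hY
    have hYm : Y ∈ HH m := update_mem_HH (mv E (Sum.inl j') v') hG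
        (comp_mem_Hm (mv E (Sum.inl j') v') _ h2' h3')
    refine S.contra hN hG h1 h2 h3 h4 hv (X := Y - (((d' + 1 : ℕ) : ℂ) * c') • G)
      (Submodule.sub_mem _ hYm (Submodule.smul_mem _ _ hG)) ?_ ?_
    · change Psi (d' + 1) p m _ = cD _ (Psi (d' + 1) p m G)
      have h5' : cD (mv E (Sum.inl j') v') (Psi (d' + 1) p m G) = Psi (d' + 1) p m Y := h5
      rw [map_sub, ← h5', map_smul, hGq, hcDq, hcDq, hvc', lin_add, lin_smul, smul_eq_C_mul,
        map_mul, pow_succ]
      ring
    · rw [Pi.sub_apply, hY, Function.update_of_ne hjj, Pi.smul_apply, smul_eq_C_mul, h1, cD_mul,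
        cD_lin_pow_ne S.hE (by simpa using hjj), zero_mul, zero_add]
      exact dvd_sub (Dvd.intro _ rfl) (Dvd.dvd.mul_left (Dvd.intro _ rfl) _)
  -- step 5: the relation is supported on four points
  obtain ⟨e, hea, heb, hec, hrest⟩ : ∃ e, e ≠ a ∧ e ≠ b ∧ e ≠ c ∧
      ∀ i, i ≠ a → i ≠ b → i ≠ c → i ≠ e → G i = 0 := by
    by_cases h : ∃ j, j ≠ a ∧ j ≠ b ∧ j ≠ c ∧ G j ≠ 0
    · obtain ⟨j, hja, hjb, hjc, hj⟩ := h
      refine ⟨j, hja, hjb, hjc, fun i hia hib hic hij => ?_⟩
      by_contra hi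
      exact huniq i j hia hib hic hja hjb hjc hij hi hj
    · push Not at h
      obtain ⟨e, hea, heb, hec⟩ := hex
      exact ⟨e, hea, heb, hec, fun i hia hib hic _ => h i hia hib hic⟩
  obtain ⟨Ge, hGe⟩ := hdivG e hea heb hec
  refine S.test_four hsq hab hac hea.symm hbc heb.symm hec.symm hq hsing (Ga := G a) (Gb := G b)
    (Gc := G c) (Ge := Ge) ?_ ?_
  · intro he
    have h1 := hG' e
    rw [he, mem_Hm_zero, hGe] at h1
    exact (mul_eq_zero.mp h1).resolve_left (lin_prime (gp1 S.hE (Sum.inl e))).ne_zero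
  · rw [← hGq, Psi_apply]
    have h1 := sum_eq_four (f := fun i => lin (p i) ^ (d' + 1 + 1 - m i) * G i) hab hac hea.symm
      hbc heb.symm hec.symm (by
        intro i hia hib hic hie
        rw [hrest i hia hib hic hie, mul_zero])
    rw [h1, hGe]

end Rigid

end Pool.Agent.Work.MP_0421d9_ag
end

section
/-!
Transversality of the rigid member to the exceptional curves.
-/

set_option linter.unusedSectionVars false

namespace Pool.Agent.Work.MP_0421d9_ag

open MvPolynomial

variable {ι κ : Type} [Fintype ι] [Fintype κ] [DecidableEq ι] [DecidableEq κ]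

variable {d : ℕ} {P : ι ⊕ κ → V3} {E : ι ⊕ κ → Fin 3 → Derivation ℚ ℂ ℂ} {m : ι → ℕ} {F : R3}

/-- the direction `u` at the point `p` is a multiple tangent direction of `F`, where `F` has
multiplicity at least `m` at `p` -/
def BadDir (d : ℕ) (F : R3) (p : V3) (m : ℕ) (u : V3) : Prop :=
  B (lin p ^ (d - m) * lin u ^ m) F = 0 ∧
    (1 ≤ m → ∀ w, B (lin p ^ (d - m) * (lin u ^ (m - 1) * lin w)) F = 0)

namespace Rigid

theorem bad_mem_J (S : Rigid d P E m F) {i : ι} {u : V3}
    (h : BadDir d F (P (Sum.inl i)) (m i) u) :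
    lin (P (Sum.inl i)) ^ (d - m i) * lin u ^ m i ∈ J d (fun i => P (Sum.inl i)) m := by
  apply S.memJ _ h.1
  · intro k v
    have h1 := D_B (mv E (Sum.inr k) v) (lin (P (Sum.inl i)) ^ (d - m i) * lin u ^ m i) F
    rw [h.1, map_zero, cD_mul, cD_lin_pow_ne S.hE (by simp), zero_mul, zero_add,
      cD_lin_pow_eq] at h1
    have h2 : lin (P (Sum.inl i)) ^ (d - m i) * (C (m i : ℂ) * (lin u ^ (m i - 1) *
        lin (fun l => mv E (Sum.inr k) v (u l)))) = C (m i : ℂ) *
        (lin (P (Sum.inl i)) ^ (d - m i) * (lin u ^ (m i - 1) *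
          lin (fun l => mv E (Sum.inr k) v (u l)))) := by ring
    rw [h2, B_C_mul_left] at h1
    rcases Nat.eq_zero_or_pos (m i) with hz | hz
    · have h3 : (m i : ℂ) = 0 := by rw [hz, Nat.cast_zero]
      rw [h3, zero_mul, zero_add] at h1
      exact h1.symm
    · rw [h.2 hz, mul_zero, zero_add] at h1
      exact h1.symm
  · have := (lin_isHomogeneous_pow (P (Sum.inl i)) (d - m i)).mul (lin_isHomogeneous_pow u (m i))
    rwa [Nat.sub_add_cancel (S.hm i)] at this

/-- no bad direction at the points where the hypothesis holds -/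
theorem no_bad_full (S : Rigid d P E m F) (hsq : Squarefree F) {i : ι}
    (hfull : 3 ≤ m i → Full d (fun i => P (Sum.inl i)) m i) {u : V3}
    (hu : cr (P (Sum.inl i)) u ≠ 0) (h : BadDir d F (P (Sum.inl i)) (m i) u) : False := by
  by_cases h3 : 3 ≤ m i
  · have h1 := hfull h3 (lin u ^ m i) (lin_isHomogeneous_pow u (m i)) (S.bad_mem_J h)
    exact hu (lin_dvd_lin ((lin_prime (gp1 S.hE _)).dvd_of_dvd_pow h1))
  · have hcases : m i = 0 ∨ m i = 1 ∨ m i = 2 := by omega
    rcases hcases with h4 | h4 | h4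
    · apply S.R0 i h4
      have := h.1
      rwa [h4, pow_zero, mul_one, Nat.sub_zero] at this
    · apply S.R1 i h4
      intro v
      have := h.2 (by omega) v
      rwa [h4, Nat.sub_self, pow_zero, one_mul] at this
    · apply hu
      apply S.R2 hsq i h4
      intro v
      have := h.2 (by omega) v
      rwa [h4, (by norm_num : 2 - 1 = 1), pow_one] at this

/-- no bad direction at the three remaining points -/
theorem no_bad_special (S : Rigid d P E m F) (hsq : Squarefree F) {a b c : ι} (hab : a ≠ b)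
    (hac : a ≠ c) (hbc : b ≠ c) (hex : ∃ e, e ≠ a ∧ e ≠ b ∧ e ≠ c)
    (hfull : ∀ j, j ≠ a → j ≠ b → j ≠ c → 3 ≤ m j → Full d (fun i => P (Sum.inl i)) m j)
    {u : V3} (hu : cr (P (Sum.inl a)) u ≠ 0) (h : BadDir d F (P (Sum.inl a)) (m a) u) :
    False := by
  rcases Nat.eq_zero_or_pos (m a) with hz | hz
  · apply S.R0 a hz
    have := h.1
    rwa [hz, pow_zero, mul_one, Nat.sub_zero] at this
  set p : ι → V3 := fun i => P (Sum.inl i) with hp
  have hN : ∀ G ∈ HH m, Psi d p m G = 0 → G = 0 := fun G hG h0 =>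
    S.unique_rel hsq hab hac hbc hfull hG h0
  have hJ : lin (p a) ^ (d - m a) * lin u ^ m a ∈ J d p m := S.bad_mem_J h
  obtain ⟨G, hG', hGq⟩ := mem_J.mp hJ
  have hG : G ∈ HH m := mem_HH.mpr hG'
  rw [← Psi_apply] at hGq
  have hma : lin u ^ (m a - 1) ∈ Hm (m a) := by
    obtain ⟨n, hn⟩ : ∃ n, m a = n + 1 := ⟨m a - 1, by omega⟩
    rw [hn, mem_Hm_succ, Nat.add_sub_cancel]
    exact lin_isHomogeneous_pow u n
  have hmane : (m a : ℂ) ≠ 0 := by
    rw [Nat.cast_ne_zero]; omega
  -- the derivative along the motion of another point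
  have hcD : ∀ j, j ≠ a → ∀ v, cD (mv E (Sum.inl j) v) (Psi d p m G) =
      C (m a : ℂ) * (lin (p a) ^ (d - m a) * (lin u ^ (m a - 1) *
        lin (fun l => mv E (Sum.inl j) v (u l)))) := by
    intro j hj v
    rw [hGq, cD_mul, cD_lin_pow_ne S.hE (by simpa using hj.symm), zero_mul, zero_add,
      cD_lin_pow_eq]
    ring
  -- expression when the derivative of `u` lies in the plane of `p a` and `u`
  have hexp : ∀ (s t : ℂ), C (m a : ℂ) * (lin (p a) ^ (d - m a) * (lin u ^ (m a - 1) *
        lin (s • p a + t • u))) =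
      lin (p a) ^ (d + 1 - m a) * (C ((m a : ℂ) * s) * lin u ^ (m a - 1)) +
        C ((m a : ℂ) * t) * (lin (p a) ^ (d - m a) * lin u ^ m a) := by
    intro s t
    have e1 : lin (p a) ^ (d + 1 - m a) = lin (p a) ^ (d - m a) * lin (p a) := by
      rw [← pow_succ]
      congr 1
      have := S.hm a
      omega
    have e2 : lin u ^ m a = lin u ^ (m a - 1) * lin u := by
      rw [← pow_succ]
      congr 1
      omega
    rw [e1, e2, lin_add, lin_smul, lin_smul, map_mul, map_mul]
    ring
  -- good directions for `j`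
  have hgood : ∀ j, ∃ (v : V3) (s t : ℂ), cr (p j) v ≠ 0 ∧
      (fun l => mv E (Sum.inl j) v (u l)) = s • p a + t • u := by
    intro j
    obtain ⟨v, hv0, hv⟩ := exists_ker_ne (gp1 S.hE (Sum.inl j))
        (evQ (QL E (Sum.inl j) u) (cr (p a) u))
    obtain ⟨s, t, hst⟩ := exists_comb hu
      (show eval (QL E (Sum.inl j) u v) (xl (p a) u) = 0 from hv0)
    exact ⟨v, s, t, hv, hst⟩
  have hdivG : ∀ j, j ≠ a → j ≠ b → j ≠ c → lin (p j) ∣ G j := by
    intro j hja hjb hjc
    have hκ : ((d + 1 - m j : ℕ) : ℂ) ≠ 0 := by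
      rw [Nat.cast_ne_zero]
      have := S.hm j
      omega
    have h1 : ∀ v, C ((d + 1 - m j : ℕ) : ℂ) * (lin (p j) ^ (d - m j) * (lin v * G j)) =
        C (m a : ℂ) * (lin (p a) ^ (d - m a) * (lin u ^ (m a - 1) *
        lin (fun l => mv E (Sum.inl j) v (u l)))) -
          Psi d p m (fun i => cD (mv E (Sum.inl j) v) (G i)) := by
      intro v
      have h2 := cD_Psi S.hE S.hm (G := G) j v
      rw [← hcD j hja v]
      have h2' : cD (mv E (Sum.inl j) v) (Psi d p m G) =
        C ((d + 1 - m j : ℕ) : ℂ) * (lin (p j) ^ (d - m j) * (lin v * G j)) +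
        Psi d p m (fun i => cD (mv E (Sum.inl j) v) (G i)) := h2
      rw [h2']
      ring
    apply S.div hsq (hfull j hja hjb hjc) (hG' j)
    · intro v
      have h2 := congrArg (fun z => B z F) (h1 v)
      simp only [map_sub, LinearMap.sub_apply, B_C_mul_left] at h2
      rw [h.2 hz, mul_zero, S.B_J (Psi_mem_J (HH_cD _ hG)), sub_zero] at h2
      exact (mul_eq_zero.mp h2).resolve_left hκ
    · obtain ⟨v, s, t, hv, hst⟩ := hgood j
      refine ⟨v, hv, ?_⟩
      apply mem_of_C_mul_mem hκ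
      rw [h1 v, hst, hexp]
      apply Submodule.sub_mem _ _ (Psi_mem_J (HH_cD _ hG))
      apply Submodule.add_mem
      · apply summand_mem_J
        exact C_mul_mem _ hma
      · exact C_mul_mem _ hJ
  have hzero : ∀ j, j ≠ a → j ≠ b → j ≠ c → G j = 0 := by
    intro j hja hjb hjc
    by_contra hne
    have h1 := hG' j
    rcases Nat.eq_zero_or_pos (m j) with hzj | hzj
    · rw [hzj, mem_Hm_zero] at h1
      exact hne h1
    · obtain ⟨n, hn⟩ : ∃ n, m j = n + 1 := ⟨m j - 1, by omega⟩
      rw [hn, mem_Hm_succ] at h1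
      obtain ⟨s', e, G', hse, hjG, hhom, hnd⟩ :=
        exists_lin_factorization (p := p j) n (G j) h1 hne
      cases s' with
      | zero =>
        apply hnd
        have := hdivG j hja hjb hjc
        rwa [hjG, pow_zero, one_mul] at this
      | succ s' =>
        obtain ⟨v, s, t, hv, hst⟩ := hgood j
        refine S.contra hN hG hjG hhom (by omega) hnd hv
          (X := Pi.single a (C ((m a : ℂ) * s) * lin u ^ (m a - 1)) + ((m a : ℂ) * t) • G)
          ?_ ?_ ?_
        · apply Submodule.add_mem _ _ (Submodule.smul_mem _ _ hG)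
          rw [mem_HH]
          intro i
          by_cases hia : i = a
          · subst hia
            rw [Pi.single_eq_same]
            exact C_mul_mem _ hma
          · rw [Pi.single_eq_of_ne hia]
            exact zero_mem _
        · change Psi d p m _ = cD _ (Psi d p m G)
          rw [hcD j hja v, hst, hexp, map_add, map_smul, hGq, smul_eq_C_mul]
          congr 1
          rw [Psi_apply, Finset.sum_eq_single a]
          · rw [Pi.single_eq_same]
          · intro i _ hia
            rw [Pi.single_eq_of_ne hia, mul_zero]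
          · intro h'
            exact absurd (Finset.mem_univ a) h'
        · rw [Pi.add_apply, Pi.single_eq_of_ne hja, zero_add, Pi.smul_apply, smul_eq_C_mul, hjG]
          exact Dvd.dvd.mul_left (Dvd.intro _ rfl) _
  -- test forms
  have hrel : lin (p a) ^ (d - m a) * lin u ^ m a = lin (p a) ^ (d + 1 - m a) * G a +
      lin (p b) ^ (d + 1 - m b) * G b + lin (p c) ^ (d + 1 - m c) * G c := by
    rw [← hGq, Psi_apply]
    apply sum_eq_three hab hac hbc
    intro i hia hib hic
    rw [hzero i hia hib hic, mul_zero]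
  obtain ⟨e, hea, heb, hec⟩ := hex
  have htot := S.four hsq hab hac hea.symm hbc heb.symm hec.symm
  have hpab := S.pair hsq hab
  have hpac := S.pair hsq hac
  have hmb := S.hm b
  have hmc := S.hm c
  have hma' := S.hm a
  have hdet := S.det hbc hab.symm hac.symm
  by_cases hub : eval u (xl (p a) (p b)) = 0
  · have huc : eval u (xl (p a) (p c)) ≠ 0 := fun h' =>
      two_lines (S.cr_ne hab) (S.det hac hab hbc.symm) hu hub h'
    have hnb : m a + m b ≤ d := by
      by_contra hcon
      exact not_tangent_bad_line S.hom hsq (S.cr_ne hab) (S.vanish a) (S.vanish b) hz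
        (by omega) hub hu (h.2 hz)
    exact test_dir (α := 0) (β := m a) (zero_add _) hma' hdet (Or.inl rfl) (Or.inr huc)
      (by omega) (by omega) hrel
  by_cases huc : eval u (xl (p a) (p c)) = 0
  · have hnc : m a + m c ≤ d := by
      by_contra hcon
      exact not_tangent_bad_line S.hom hsq (S.cr_ne hac) (S.vanish a) (S.vanish c) hz
        (by omega) huc hu (h.2 hz)
    exact test_dir (α := m a) (β := 0) (add_zero _) hma' hdet (Or.inr hub) (Or.inl rfl)
      (by omega) (by omega) hrel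
  rcases Nat.lt_or_ge d (m a + m b) with h5 | h5
  · exact test_dir (α := m a - (d - m b)) (β := d - m b) (by omega) hma' hdet (Or.inr hub)
      (Or.inr huc) (by omega) (by omega) hrel
  · exact test_dir (α := 0) (β := m a) (zero_add _) hma' hdet (Or.inl rfl) (Or.inr huc)
      (by omega) (by omega) hrel

/-- no bad direction at all -/
theorem no_bad (S : Rigid d P E m F) (hsq : Squarefree F) {a b c : ι} (hab : a ≠ b)
    (hac : a ≠ c) (hbc : b ≠ c) (hex : ∃ e, e ≠ a ∧ e ≠ b ∧ e ≠ c)
    (hfull : ∀ j, j ≠ a → j ≠ b → j ≠ c → 3 ≤ m j → Full d (fun i => P (Sum.inl i)) m j)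
    {i : ι} {u : V3} (hu : cr (P (Sum.inl i)) u ≠ 0) (h : BadDir d F (P (Sum.inl i)) (m i) u) :
    False := by
  by_cases hia : i = a
  · subst hia
    exact S.no_bad_special hsq hab hac hbc hex hfull hu h
  by_cases hib : i = b
  · subst hib
    obtain ⟨e, h1, h2, h3⟩ := hex
    exact S.no_bad_special hsq hab.symm hbc hac ⟨e, h2, h1, h3⟩
      (fun j hj1 hj2 hj3 => hfull j hj2 hj1 hj3) hu h
  by_cases hic : i = c
  · subst hic
    obtain ⟨e, h1, h2, h3⟩ := hex
    exact S.no_bad_special hsq hac.symm hbc.symm hab ⟨e, h3, h1, h2⟩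
      (fun j hj1 hj2 hj3 => hfull j hj2 hj3 hj1) hu h
  exact S.no_bad_full hsq (hfull i hia hib hic) hu h

end Rigid

end Pool.Agent.Work.MP_0421d9_ag
end

section
/-!
The local equation on the blow-up.
-/

set_option linter.unusedSectionVars false

namespace Pool.Agent.Work.MP_0421d9_ag

open MvPolynomial

/-- substitution of the chart `(s, t) ↦ a + s (u + t w)` of the blow-up -/
noncomputable def chartSub (a u w : V3) : R3 →ₐ[ℂ] MvPolynomial (Fin 2) ℂ :=
  aeval (fun k => C (a k) + X 0 * (C (u k) + X 1 * C (w k)))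

/-- substitution of `u + t w` -/
noncomputable def dirSub (u w : V3) : R3 →ₐ[ℂ] MvPolynomial (Fin 2) ℂ :=
  aeval (fun k => C (u k) + X 1 * C (w k))

theorem chartSub_eq (a u w : V3) (F : R3) : chartSub a u w F =
    aeval (fun k => X 0 * (C (u k) + X 1 * C (w k)) : Fin 3 → MvPolynomial (Fin 2) ℂ)
      (translate a F) := by
  unfold chartSub translate
  induction F using MvPolynomial.induction_on with
  | C c => rw [algHom_C, algHom_C, AlgHom.commutes]
  | add p q hp hq => rw [map_add, map_add, map_add, hp, hq]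
  | mul_X p n hp =>
    rw [map_mul, map_mul, map_mul, hp, aeval_X, aeval_X, map_add, aeval_X, algHom_C]
    rfl

theorem aeval_smul_homogeneous {T : R3} {n : ℕ} (hT : T.IsHomogeneous n)
    (x : MvPolynomial (Fin 2) ℂ) (y : Fin 3 → MvPolynomial (Fin 2) ℂ) :
    aeval (fun k => x * y k) T = x ^ n * aeval y T := by
  rw [T.as_sum, map_sum, map_sum, Finset.mul_sum]
  refine Finset.sum_congr rfl (fun α hα => ?_)
  rw [aeval_monomial, aeval_monomial]
  have h1 : (α.prod fun i k => (x * y i) ^ k) = x ^ n * α.prod fun i k => y i ^ k := by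
    have h2 := hT (mem_support_iff.mp hα)
    rw [← h2, Finsupp.prod_fintype _ _ (fun i => pow_zero _),
      Finsupp.prod_fintype _ _ (fun i => pow_zero _), Finsupp.weight_apply,
      Finsupp.sum_fintype _ _ (fun i => by simp)]
    simp only [Fin.prod_univ_three, Fin.sum_univ_three, Pi.one_apply, smul_eq_mul, mul_one,
      mul_pow, pow_add]
    ring
  rw [h1]
  ring

theorem eval_dirSub (u w : V3) (T : R3) : eval 0 (dirSub u w T) = eval u T := by
  unfold dirSub
  induction T using MvPolynomial.induction_on with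
  | C c => rw [algHom_C, algebraMap_eq, eval_C, eval_C]
  | add p q hp hq => rw [map_add, map_add, map_add, hp, hq]
  | mul_X p n hp =>
    rw [map_mul, map_mul, map_mul, hp, aeval_X, eval_X, map_add, eval_C, map_mul, eval_X, eval_C]
    simp

theorem eval_pderiv_dirSub (u w : V3) (T : R3) :
    eval 0 (pderiv 1 (dirSub u w T)) = eval u (dir w T) := by
  induction T using MvPolynomial.induction_on with
  | C c =>
    rw [dir_C, dirSub, algHom_C, algebraMap_eq, pderiv_C, map_zero, map_zero]
  | add p q hp hq => rw [map_add, map_add, map_add, hp, hq, map_add, map_add]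
  | mul_X p n hp =>
    have h1 : dirSub u w (X n) = C (u n) + X 1 * C (w n) := by
      unfold dirSub
      rw [aeval_X]
    have h2 : pderiv 1 (dirSub u w (X n)) = C (w n) := by
      rw [h1, map_add, pderiv_C, zero_add, mul_comm, pderiv_C_mul, pderiv_X_self, mul_one]
    have h3 : dir w (X n) = C (w n) := by
      rw [dir_apply, Finset.sum_eq_single n]
      · rw [pderiv_X_self, mul_one]
      · intro j _ hj
        rw [pderiv_X_of_ne hj.symm, mul_zero]
      · simp
    rw [map_mul, pderiv_mul, map_add, map_mul, map_mul, hp, h2, eval_dirSub, eval_dirSub, eval_C,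
      eval_X, dir_mul, h3, map_add, map_mul, map_mul, eval_X, eval_C]

theorem B_taylor {F : R3} {d : ℕ} (hF : F.IsHomogeneous d) (a : V3) {k : ℕ} (hk : k ≤ d) (A : R3) :
    B (lin a ^ (d - k) * A) F =
      (d - k).factorial * B A (homogeneousComponent k (translate a F)) := by
  have h2 : ((d - k).factorial : ℂ) ≠ 0 := by exact_mod_cast Nat.factorial_ne_zero _
  rw [taylor_component hF a hk, B_C_mul_right, B_lin_pow_mul, mul_inv_cancel_left₀ h2]

/-- local equation on the blow-up of a form without bad directions -/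
theorem chart {F : R3} {d m : ℕ} (hF : F.IsHomogeneous d) (hm : m ≤ d) {a u w : V3}
    (hv : VanishTo F a m) (hdet : eval w (xl a u) ≠ 0) (hbad : ¬ BadDir d F a m u) :
    ∃ g : MvPolynomial (Fin 2) ℂ,
      aeval (fun k => C (a k) + X 0 * (C (u k) + X 1 * C (w k))) F = X 0 ^ m * g ∧
      (eval 0 g = 0 → eval 0 (pderiv 1 g) ≠ 0) := by
  set T : ℕ → R3 := fun k => homogeneousComponent k (translate a F) with hT
  have hThom : ∀ k, (T k).IsHomogeneous k := fun k => homogeneousComponent_isHomogeneous k _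
  refine ⟨∑ k ∈ Finset.range (d + 1 - m), X 0 ^ k * dirSub u w (T (m + k)), ?_, ?_⟩
  · change chartSub a u w F = _
    rw [chartSub_eq]
    have h1 : translate a F = ∑ k ∈ Finset.range (d + 1), T k := by
      have h2 := sum_homogeneousComponent (translate a F)
      have h3 : (translate a F).totalDegree + 1 ≤ d + 1 := by
        have : (translate a F).totalDegree ≤ d := by
          rw [translate_eq hF]
          apply totalDegree_finsetSum_le
          intro n _
          refine (totalDegree_mul _ _).trans ?_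
          rw [totalDegree_C, zero_add]
          exact (dir_iterate_isHomogeneous a n hF).totalDegree_le.trans (Nat.sub_le _ _)
        omega
      rw [← h2]
      apply Finset.sum_subset (Finset.range_mono h3)
      intro k _ hk
      rw [Finset.mem_range, not_lt] at hk
      exact homogeneousComponent_eq_zero _ _ (by omega)
    rw [h1, map_sum, Finset.mul_sum]
    have h4 : ∀ k, aeval (fun k => X 0 * (C (u k) + X 1 * C (w k)) :
        Fin 3 → MvPolynomial (Fin 2) ℂ) (T k) = X 0 ^ k * dirSub u w (T k) := fun k =>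
      aeval_smul_homogeneous (hThom k) _ _
    rw [Finset.sum_congr rfl (fun k _ => h4 k), (by omega : d + 1 = m + (d + 1 - m)),
      Finset.sum_range_add]
    have h5 : ∑ x ∈ Finset.range m, (X 0 ^ x * dirSub u w (T x) : MvPolynomial (Fin 2) ℂ) = 0 := by
      refine Finset.sum_eq_zero (fun x hx => ?_)
      rw [Finset.mem_range] at hx
      have : T x = 0 := hv x hx
      rw [this, map_zero, mul_zero]
    rw [h5, zero_add, (by omega : m + (d + 1 - m) - m = d + 1 - m)]
    refine Finset.sum_congr rfl (fun k _ => ?_)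
    rw [pow_add, mul_assoc]
  · have hpos : 0 < d + 1 - m := by omega
    obtain ⟨n, hn⟩ : ∃ n, d + 1 - m = n + 1 := ⟨d + 1 - m - 1, by omega⟩
    rw [hn, Finset.sum_range_succ']
    have e1 : eval 0 (∑ k ∈ Finset.range n, (X 0 ^ (k + 1) * dirSub u w (T (m + (k + 1))) :
        MvPolynomial (Fin 2) ℂ)) = 0 := by
      rw [map_sum]
      refine Finset.sum_eq_zero (fun k _ => ?_)
      rw [map_mul, map_pow, eval_X]
      simp
    have e2 : eval 0 (pderiv 1 (∑ k ∈ Finset.range n, (X 0 ^ (k + 1) *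
        dirSub u w (T (m + (k + 1))) : MvPolynomial (Fin 2) ℂ))) = 0 := by
      rw [map_sum, map_sum]
      refine Finset.sum_eq_zero (fun k _ => ?_)
      rw [pderiv_mul, pderiv_pow, pderiv_X_of_ne (by decide), mul_zero, zero_mul, zero_add, map_mul,
        map_pow, eval_X]
      simp
    rw [map_add, map_add, map_add, e1, e2, zero_add, zero_add, pow_zero, one_mul, add_zero,
      eval_dirSub, eval_pderiv_dirSub]
    intro h0 h1
    apply hbad
    have hfac : ∀ n : ℕ, (n.factorial : ℂ) ≠ 0 := fun n => by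
      exact_mod_cast Nat.factorial_ne_zero n
    refine ⟨?_, ?_⟩
    · rw [B_taylor hF a hm, B_lin_pow (hThom m), h0, mul_zero, mul_zero]
    · intro hm1 w'
      obtain ⟨m', rfl⟩ : ∃ m', m = m' + 1 := ⟨m - 1, by omega⟩
      rw [B_taylor hF a hm, Nat.add_sub_cancel, mul_comm (lin u ^ m'), B_lin_mul]
      have hd1 : ∀ x, (dir x (T (m' + 1))).IsHomogeneous m' := fun x => by
        simpa using dir_isHomogeneous x (hThom (m' + 1))
      change _ * B (lin u ^ m') (dir w' (T (m' + 1))) = 0
      rw [B_lin_pow (hd1 w')]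
      -- the derivative in the direction `a` vanishes
      have ha : dir a (T (m' + 1)) = 0 := by
        have e3 : T (m' + 1) = C (((d - (m' + 1)).factorial : ℂ)⁻¹) *
          (dir a)^[d - (m' + 1)] F := taylor_component hF a hm
        rw [e3, dir_C_mul, ← Function.iterate_succ_apply' (dir a)]
        have e4 : homogeneousComponent m' (translate a F) = 0 := hv m' (by omega)
        rw [taylor_component hF a (by omega : m' ≤ d)] at e4
        rcases mul_eq_zero.mp e4 with h | h
        · exfalso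
          rw [C_eq_zero] at h
          exact inv_ne_zero (hfac _) h
        · rw [(by omega : (d - (m' + 1)).succ = d - m'), h, mul_zero]
      have hu : eval u (dir u (T (m' + 1))) = 0 := by
        rw [eval_dir_self (hThom (m' + 1)), h0, mul_zero]
      -- every direction is a combination
      have hcr : cr a u ≠ 0 := by
        intro h
        apply hdet
        rw [xl, h, lin_zero, map_zero]
      have hcomb : ∃ x y z : ℂ, w' = x • a + y • u + z • w := by
        set z := eval w' (xl a u) / eval w (xl a u) with hz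
        have h5 : eval (w' - z • w) (xl a u) = 0 := by
          have h6 : eval (w' - z • w) (xl a u) = eval w' (xl a u) - z * eval w (xl a u) := by
            rw [eval_xl, eval_xl, eval_xl]
            simp only [Pi.sub_apply, Pi.smul_apply, smul_eq_mul]
            ring
          rw [h6, hz, div_mul_cancel₀ _ hdet, sub_self]
        obtain ⟨x, y, hxy⟩ := exists_comb hcr h5
        exact ⟨x, y, z, by rw [← hxy, sub_add_cancel]⟩
      obtain ⟨x, y, z, rfl⟩ := hcomb
      have h7 : dir (x • a + y • u + z • w) (T (m' + 1)) = C x * dir a (T (m' + 1)) +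
          C y * dir u (T (m' + 1)) + C z * dir w (T (m' + 1)) := by
        simp only [dir_apply, Fin.sum_univ_three, Pi.add_apply, Pi.smul_apply, smul_eq_mul,
          map_add, map_mul]
        ring
      have h8 : eval u (dir w (T (m' + 1))) = 0 := h1
      rw [h7, map_add, map_add, map_mul, map_mul, map_mul, ha, hu, h8, map_zero]
      ring

end Pool.Agent.Work.MP_0421d9_ag
end

section
/-!
Consequences of dimension counts, and construction of rigid configurations.
-/

set_option linter.unusedSectionVars false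

namespace Pool.Agent.Work.MP_0421d9_ag

open MvPolynomial Module

section dims

variable {ι : Type} [Fintype ι] [DecidableEq ι]

/-- if the parametrisation of the inverse system is injective, the system is nonspecial -/
theorem finrank_of_unique {d : ℕ} {p : ι → V3} {m : ι → ℕ} (hm : ∀ i, m i ≤ d + 1)
    (h : ∀ G ∈ HH m, Psi d p m G = 0 → G = 0) :
    finrank ℂ (linSys d p m) + ∑ i, (m i + 1).choose 2 = (d + 2).choose 2 := by
  rw [← finrank_linSys_add (p := p) hm]
  congr 1
  have h1 : finrank ℂ (J d p m) = finrank ℂ (HH m) := by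
    unfold J
    have hinj : Function.Injective ((Psi d p m).domRestrict (HH m)) := by
      rw [← LinearMap.ker_eq_bot, Submodule.eq_bot_iff]
      rintro ⟨G, hG⟩ h0
      exact Subtype.ext (h G hG h0)
    rw [← LinearMap.finrank_range_of_inj hinj, LinearMap.range_domRestrict]
  have h2 : finrank ℂ (HH m) = ∑ i, finrank ℂ (Hm (m i)) := by
    let e : (HH m) ≃ₗ[ℂ] (∀ i, Hm (m i)) :=
      { toFun := fun G i => ⟨G.1 i, mem_HH.mp G.2 i⟩
        invFun := fun G => ⟨fun i => (G i).1, mem_HH.mpr (fun i => (G i).2)⟩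
        left_inv := fun G => rfl
        right_inv := fun G => rfl
        map_add' := fun G G' => rfl
        map_smul' := fun c G => rfl }
    rw [e.finrank_eq, Module.finrank_pi_fintype]
  rw [h1, h2]
  exact Finset.sum_congr rfl (fun i _ => (finrank_Hm (m i)).symm)

/-- if vanishing to one more order at `p i` imposes the maximal number `m i + 1` of conditions,
then the system restricts to a complete series on the exceptional curve -/
theorem full_of_finrank {d : ℕ} {p : ι → V3} {m : ι → ℕ} (hm : ∀ i, m i ≤ d) {i : ι}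
    (hp : p i ≠ 0)
    (h : finrank ℂ (linSys d p m) =
      finrank ℂ (linSys d p (Function.update m i (m i + 1))) + (m i + 1)) :
    Rigid.Full d p m i := by
  set m' := Function.update m i (m i + 1) with hm'
  have hmi : m' i = m i + 1 := by rw [hm', Function.update_self]
  have hmj : ∀ j, j ≠ i → m' j = m j := fun j hj => by rw [hm', Function.update_of_ne hj]
  have hle : ∀ j, m j ≤ d + 1 := fun j => (hm j).trans (Nat.le_succ d)
  have hle' : ∀ j, m' j ≤ d + 1 := by
    intro j
    by_cases hj : j = i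
    · rw [hj, hmi]
      have := hm i
      omega
    · rw [hmj j hj]
      exact hle j
  have h1 := finrank_linSys_add (p := p) hle
  have h2 := finrank_linSys_add (p := p) hle'
  have h3 : finrank ℂ (J d p m') = finrank ℂ (J d p m) + (m i + 1) := by omega
  -- the additional summand
  set μ : R3 →ₗ[ℂ] R3 := LinearMap.mulLeft ℂ (lin (p i) ^ (d - m i)) with hμ
  set W : Submodule ℂ R3 := (Rd (m i)).map μ with hW
  have hexp : d + 1 - m' i = d - m i := by rw [hmi]; omega
  have hJW : J d p m' = J d p m ⊔ W := by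
    apply le_antisymm
    · intro A hA
      obtain ⟨G, hG, rfl⟩ := mem_J.mp hA
      apply Submodule.sum_mem
      intro j _
      by_cases hj : j = i
      · subst hj
        apply Submodule.mem_sup_right
        rw [hexp]
        refine ⟨G j, ?_, rfl⟩
        have := hG j
        rw [hmi] at this
        exact this
      · apply Submodule.mem_sup_left
        have := hG j
        rw [hmj j hj] at this ⊢
        exact summand_mem_J j this
    · apply sup_le
      · intro A hA
        obtain ⟨G, hG, rfl⟩ := mem_J.mp hA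
        apply Submodule.sum_mem
        intro j _
        by_cases hj : j = i
        · subst hj
          have e1 : lin (p j) ^ (d + 1 - m j) * G j =
              lin (p j) ^ (d + 1 - m' j) * (lin (p j) * G j) := by
            rw [hexp, (by have := hm j; omega : d + 1 - m j = d - m j + 1), pow_succ, mul_assoc]
          rw [e1]
          apply summand_mem_J
          rw [hmi]
          have := mul_mem_Hm_succ (lin_isHomogeneous (p j)) (hG j)
          exact this
        · have e1 : lin (p j) ^ (d + 1 - m j) * G j = lin (p j) ^ (d + 1 - m' j) * G j := by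
            rw [hmj j hj]
          rw [e1]
          apply summand_mem_J
          rw [hmj j hj]
          exact hG j
      · rintro _ ⟨U, hU, rfl⟩
        have e1 : μ U = lin (p i) ^ (d + 1 - m' i) * U := by
          rw [hexp]; rfl
        rw [e1]
        apply summand_mem_J
        rw [hmi]
        exact hU
  -- quotient map
  set π := (J d p m).mkQ with hπ
  have hfinJ : Module.Finite ℂ (J d p m) := Submodule.finiteDimensional_of_le (J_le hle)
  have hfinJ' : Module.Finite ℂ (J d p m') := Submodule.finiteDimensional_of_le (J_le hle')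
  have h4 : finrank ℂ ((J d p m').map π) + finrank ℂ (J d p m) = finrank ℂ (J d p m') := by
    have e1 := LinearMap.finrank_range_add_finrank_ker (π.domRestrict (J d p m'))
    rw [LinearMap.range_domRestrict] at e1
    have e2 : LinearMap.ker (π.domRestrict (J d p m')) = (J d p m).comap (J d p m').subtype := by
      ext x
      simp [hπ]
    have e3 : J d p m ≤ J d p m' := by rw [hJW]; exact le_sup_left
    rw [e2, (Submodule.comapSubtypeEquivOfLe e3).finrank_eq] at e1
    exact e1
  have h5 : (J d p m').map π = LinearMap.range ((π ∘ₗ μ).domRestrict (Rd (m i))) := by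
    rw [LinearMap.range_domRestrict, hJW, Submodule.map_sup, Submodule.map_comp, ← hW]
    have : (J d p m).map π = ⊥ := by
      rw [hπ, Submodule.mkQ_map_self]
    rw [this, bot_sup_eq]
  set f := (π ∘ₗ μ).domRestrict (Rd (m i)) with hf
  have h6 := LinearMap.finrank_range_add_finrank_ker f
  rw [← h5, finrank_Rd] at h6
  have h7 : (m i + 2).choose 2 = (m i + 1).choose 2 + (m i + 1) := by
    rw [Nat.choose_succ_succ' (m i + 1) 1, Nat.choose_one_right]
    ring
  have h8 : finrank ℂ (LinearMap.ker f) = (m i + 1).choose 2 := by omega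
  -- the obvious kernel
  set K₀ : Submodule ℂ R3 := (Hm (m i)).map (LinearMap.mulLeft ℂ (lin (p i))) with hK₀
  have h9 : finrank ℂ K₀ = (m i + 1).choose 2 := by
    rw [← finrank_Hm (m i)]
    have hinj : Function.Injective ((LinearMap.mulLeft ℂ (lin (p i))).domRestrict (Hm (m i))) := by
      rw [← LinearMap.ker_eq_bot, Submodule.eq_bot_iff]
      rintro ⟨G, hG⟩ h0
      apply Subtype.ext
      have h0' : lin (p i) * G = 0 := h0
      exact (mul_eq_zero.mp h0').resolve_left (fun h' => hp (lin_eq_zero.mp h'))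
    rw [← LinearMap.finrank_range_of_inj hinj, LinearMap.range_domRestrict]
  have h10 : K₀ ≤ (LinearMap.ker f).map (Rd (m i)).subtype := by
    rintro _ ⟨G, hG, rfl⟩
    have hhom : (lin (p i) * G).IsHomogeneous (m i) := by
      have := mul_mem_Hm_succ (lin_isHomogeneous (p i)) hG
      exact this
    refine ⟨⟨lin (p i) * G, hhom⟩, ?_, rfl⟩
    rw [SetLike.mem_coe, LinearMap.mem_ker, hf]
    change π (μ (lin (p i) * G)) = 0
    rw [hπ, Submodule.mkQ_apply, Submodule.Quotient.mk_eq_zero]
    have e1 : μ (lin (p i) * G) = lin (p i) ^ (d + 1 - m i) * G := by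
      rw [hμ, (by have := hm i; omega : d + 1 - m i = d - m i + 1), pow_succ, mul_assoc]
      rfl
    rw [e1]
    exact summand_mem_J i hG
  have h11 : K₀ = (LinearMap.ker f).map (Rd (m i)).subtype := by
    have hfin : Module.Finite ℂ ((LinearMap.ker f).map (Rd (m i)).subtype) := by
      infer_instance
    apply Submodule.eq_of_le_of_finrank_eq h10
    rw [h9, Submodule.finrank_map_subtype_eq, h8]
  intro U hU hUJ
  have h12 : U ∈ (LinearMap.ker f).map (Rd (m i)).subtype := by
    refine ⟨⟨U, hU⟩, ?_, rfl⟩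
    rw [SetLike.mem_coe, LinearMap.mem_ker, hf]
    change π (μ U) = 0
    rw [hπ, Submodule.mkQ_apply, Submodule.Quotient.mk_eq_zero]
    exact hUJ
  rw [← h11] at h12
  obtain ⟨G, -, rfl⟩ := h12
  exact Dvd.intro _ rfl

end dims

end Pool.Agent.Work.MP_0421d9_ag
end

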