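import Pool.Agent.Work.Z0421M.C01
import Pool.Agent.Work.Z0421M.C02
import Pool.Agent.Work.Z0421M.C03

section
/-!
Spaces of leading forms, in the dual language: algebraic lemmas.
-/

set_option linter.unusedSectionVars false

namespace Pool.Agent.Work.MP_0421d9_ag

open MvPolynomial Module

section algebra

theorem choose_two_succ (n : ℕ) : (n + 2).choose 2 = (n + 1).choose 2 + (n + 1) := by
  rw [Nat.choose_succ_succ' (n + 1) 1, Nat.choose_one_right]
  ring

/-- pairing of vectors -/
theorem evQ_id_apply (ξ v : V3) : evQ LinearMap.id ξ v = eval v (lin ξ) := rfl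

/-- a linear form vanishing at `p` but not at `u` -/
theorem exists_form {p u : V3} (h : cr p u ≠ 0) :
    ∃ η : V3, eval p (lin η) = 0 ∧ eval u (lin η) ≠ 0 := by
  obtain ⟨k, hk⟩ : ∃ k, cr p u k ≠ 0 := by
    by_contra hcon
    push Not at hcon
    exact h (funext hcon)
  refine ⟨cr p (Pi.single k 1), ?_, ?_⟩
  · exact eval_xl_left p _
  · have h1 : eval u (lin (cr p (Pi.single k 1))) = - cr p u k := by
      have := eval_xl p (Pi.single k 1) u
      unfold xl at this
      rw [this]
      fin_cases k <;> simp [cr] <;> ring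
    rw [h1]
    exact neg_ne_zero.mpr hk

theorem dir_iterate_hom {ξ : V3} {n : ℕ} {U : R3} (hU : U.IsHomogeneous n) :
    (dir ξ)^[n] U = C ((n.factorial : ℂ) * eval ξ U) := by
  have h1 := dir_iterate_isHomogeneous ξ n hU
  rw [Nat.sub_self] at h1
  have h2 : (dir ξ)^[n] U = C (coeff 0 ((dir ξ)^[n] U)) :=
    (MvPolynomial.totalDegree_eq_zero_iff_eq_C).mp (Nat.le_zero.mp h1.totalDegree_le)
  have h3 := B_lin_pow_mul ξ n 1 U
  rw [mul_one, B_lin_pow hU, h2, B_one_C] at h3
  rw [h2, ← h3]

theorem exists_eval_ne {p : V3} (hp : p ≠ 0) {U : R3} (hnd : ¬ lin p ∣ U) :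
    ∃ ξ : V3, eval ξ (lin p) = 0 ∧ eval ξ U ≠ 0 := by
  by_contra hcon
  push Not at hcon
  exact hnd (lin_dvd_of_eval hp hcon)

theorem exists_eval_ne' {p : V3} (hp : p ≠ 0) {n : ℕ} {U : R3} (hU : U.IsHomogeneous n)
    (hnd : ¬ lin p ∣ U) : ∃ ξ : V3, ξ ≠ 0 ∧ eval ξ (lin p) = 0 ∧ eval ξ U ≠ 0 := by
  obtain ⟨ξ, h1, h2⟩ := exists_eval_ne hp hnd
  by_cases hξ : ξ = 0
  · -- then `U` is a constant
    obtain ⟨ζ, hζ, hζp⟩ := exists_ker_ne hp (evQ LinearMap.id p)
    have hζ0 : ζ ≠ 0 := by
      rintro rfl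
      exact hζp (cr_zero_right p)
    refine ⟨ζ, hζ0, hζ, ?_⟩
    have hn : n = 0 := by
      by_contra hn
      apply h2
      rw [hξ]
      have h3 : eval (0 : V3) U = coeff 0 U := by
        rw [eval_zero, constantCoeff_eq]
      rw [h3]
      by_contra hc
      have h4 := hU hc
      rw [map_zero] at h4
      exact hn h4.symm
    subst hn
    have h0 : U = C (coeff 0 U) :=
      (MvPolynomial.totalDegree_eq_zero_iff_eq_C).mp (Nat.le_zero.mp hU.totalDegree_le)
    rw [h0, eval_C] at h2 ⊢
    exact h2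
  · exact ⟨ξ, hξ, h1, h2⟩

/-- A space of forms stable under the operators `lin u * dir ξ` with `ξ` orthogonal to `p`, and
containing a form not divisible by `lin p`, is everything. -/
theorem stable_eq_top {p : V3} (hp : p ≠ 0) {n : ℕ} {N : Submodule ℂ R3} (hN : N ≤ Rd n)
    (hst : ∀ u ξ : V3, eval p (lin ξ) = 0 → ∀ U ∈ N, lin u * dir ξ U ∈ N)
    {U : R3} (hU : U ∈ N) (hnd : ¬ lin p ∣ U) : N = Rd n := by
  obtain ⟨ξ, h1, h2⟩ := exists_eval_ne hp hnd
  obtain ⟨u, hu, hup⟩ := exists_ker_ne hp (evQ LinearMap.id ξ)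
  rw [evQ_id_apply] at hu
  have hξp : eval p (lin ξ) = 0 := by rw [eval_lin_comm]; exact h1
  have hdu : dir ξ (lin u) = 0 := by
    rw [dir_lin, eval_lin_comm, hu, C_0]
  have hA : ∀ k, lin u ^ k * (dir ξ)^[k] U ∈ N := by
    intro k
    induction k with
    | zero => simpa using hU
    | succ k ih =>
      have h3 := hst u ξ hξp _ ih
      rw [dir_mul, dir_pow, hdu, mul_zero, mul_zero, zero_mul, zero_add] at h3
      rw [Function.iterate_succ_apply', pow_succ']
      rwa [mul_assoc]
  have hn := hA n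
  rw [dir_iterate_hom (hN hU), mul_comm] at hn
  have hne : ((n.factorial : ℂ) * eval ξ U) ≠ 0 :=
    mul_ne_zero (by exact_mod_cast Nat.factorial_ne_zero n) h2
  have hun : lin u ^ n ∈ N := mem_of_C_mul_mem hne hn
  obtain ⟨η, hη1, hη2⟩ := exists_form hup
  have hB : ∀ k ≤ n, ∀ G : R3, G.IsHomogeneous k → G * lin u ^ (n - k) ∈ N := by
    intro k
    induction k with
    | zero =>
      intro _ G hG
      have h0 : G = C (coeff 0 G) :=
        (MvPolynomial.totalDegree_eq_zero_iff_eq_C).mp (Nat.le_zero.mp hG.totalDegree_le)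
      rw [h0, Nat.sub_zero]
      exact C_mul_mem _ hun
    | succ k ih =>
      intro hk G hG
      have hstep : ∀ w : V3, ∀ G' : R3, G'.IsHomogeneous k →
          lin w * G' * lin u ^ (n - (k + 1)) ∈ N := by
        intro w G' hG'
        have h3 := hst w η hη1 _ (ih (by omega) G' hG')
        have h4 : dir η (lin u) = C (eval η (lin u)) := dir_lin η u
        rw [dir_mul, dir_pow, h4] at h3
        have h5 : lin w * dir η G' * lin u ^ (n - k) ∈ N := by
          cases k with
          | zero =>
            have h0 : G' = C (coeff 0 G') :=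
              (MvPolynomial.totalDegree_eq_zero_iff_eq_C).mp (Nat.le_zero.mp hG'.totalDegree_le)
            rw [h0, dir_C, mul_zero, zero_mul]
            exact zero_mem _
          | succ k =>
            apply ih (by omega)
            have h6 : (dir η G').IsHomogeneous k := by
              simpa using dir_isHomogeneous η hG'
            have := (lin_isHomogeneous w).mul h6
            rwa [add_comm] at this
        have h6 : lin w * (dir η G' * lin u ^ (n - k) + G' * (C ((n - k : ℕ) : ℂ) *
            (lin u ^ (n - k - 1) * C (eval η (lin u))))) - lin w * dir η G' * lin u ^ (n - k) =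
            C (((n - k : ℕ) : ℂ) * eval η (lin u)) * (lin w * G' * lin u ^ (n - (k + 1))) := by
          rw [(by omega : n - (k + 1) = n - k - 1), map_mul]
          ring
        have h7 := Submodule.sub_mem _ h3 h5
        rw [h6] at h7
        refine mem_of_C_mul_mem (mul_ne_zero ?_ ?_) h7
        · rw [Nat.cast_ne_zero]; omega
        · rw [eval_lin_comm]; exact hη2
      have h8 : C ((k + 1 : ℕ) : ℂ) * (G * lin u ^ (n - (k + 1))) ∈ N := by
        rw [← mul_assoc, isHomogeneous_succ_sum hG, Finset.sum_mul]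
        apply Submodule.sum_mem
        intro l _
        have h9 : (X l : R3) = lin (Pi.single l 1) := by
          unfold lin
          rw [Finset.sum_eq_single l]
          · rw [Pi.single_eq_same, C_1, one_mul]
          · intro b _ hb
            rw [Pi.single_eq_of_ne hb, C_0, zero_mul]
          · intro h; exact absurd (Finset.mem_univ l) h
        rw [h9]
        exact hstep _ _ (hG.pderiv)
      exact mem_of_C_mul_mem (by rw [Nat.cast_ne_zero]; omega) h8
  apply le_antisymm hN
  intro G hG
  have := hB n le_rfl G hG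
  rwa [Nat.sub_self, pow_zero, mul_one] at this

theorem finrank_map_mulLeft {A : R3} (hA : A ≠ 0) (N : Submodule ℂ R3) :
    finrank ℂ (N.map (LinearMap.mulLeft ℂ A)) = finrank ℂ N := by
  have hinj : Function.Injective ((LinearMap.mulLeft ℂ A).domRestrict N) := by
    rw [← LinearMap.ker_eq_bot, Submodule.eq_bot_iff]
    rintro ⟨G, hG⟩ h0
    apply Subtype.ext
    have h0' : A * G = 0 := h0
    exact (mul_eq_zero.mp h0').resolve_left hA
  rw [← LinearMap.finrank_range_of_inj hinj, LinearMap.range_domRestrict]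

theorem lin_ne_zero {v : V3} (h : v ≠ 0) : lin v ≠ 0 := fun h' => h (lin_eq_zero.mp h')

theorem exists_Hm_factor {p : V3} {n : ℕ} {U : R3} (hU : U.IsHomogeneous n) (h : lin p ∣ U) :
    ∃ G ∈ Hm n, U = lin p * G := by
  by_cases hU0 : U = 0
  · exact ⟨0, zero_mem _, by rw [hU0, mul_zero]⟩
  obtain ⟨e, g, hd, hg, hUg⟩ := exists_factor hU hU0 h
  refine ⟨g, ?_, hUg⟩
  rw [hd, mem_Hm_succ]
  exact hg

/-- growth of a space of forms under multiplication by linear forms -/
theorem growth {p : V3} (hp : p ≠ 0) {n : ℕ} {N N' : Submodule ℂ R3} (hN : N ≤ Rd n)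
    (hN' : N' ≤ Rd (n + 1)) (h1 : ∀ v, ∀ U ∈ N, lin v * U ∈ N')
    (h2 : ∀ G ∈ Rd n, lin p * G ∈ N') {U : R3} (hU : U ∈ N) (hnd : ¬ lin p ∣ U) :
    finrank ℂ N + (n + 2) ≤ finrank ℂ N' := by
  by_contra hlt
  have hfN : Module.Finite ℂ N := Submodule.finiteDimensional_of_le hN
  have hfN' : Module.Finite ℂ N' := Submodule.finiteDimensional_of_le hN'
  have key : ∀ x, cr p x ≠ 0 → N.map (LinearMap.mulLeft ℂ (lin x)) ⊔
      (Rd n).map (LinearMap.mulLeft ℂ (lin p)) = N' := by
    intro x hx
    have hx0 : x ≠ 0 := by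
      rintro rfl
      exact hx (cr_zero_right p)
    set A := N.map (LinearMap.mulLeft ℂ (lin x)) with hA
    set A' := (Rd n).map (LinearMap.mulLeft ℂ (lin p)) with hA'
    have hle : A ⊔ A' ≤ N' := by
      apply sup_le
      · rintro _ ⟨V, hV, rfl⟩
        exact h1 x V hV
      · rintro _ ⟨V, hV, rfl⟩
        exact h2 V hV
    have hfA : Module.Finite ℂ A := Submodule.finiteDimensional_of_le (le_sup_left.trans hle)
    have hfA' : Module.Finite ℂ A' := Submodule.finiteDimensional_of_le (le_sup_right.trans hle)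
    have h3 := Submodule.finrank_sup_add_finrank_inf_eq A A'
    rw [hA, finrank_map_mulLeft (lin_ne_zero hx0), ← hA, hA', finrank_map_mulLeft (lin_ne_zero hp),
      ← hA', finrank_Rd] at h3
    have h4 : A ⊓ A' ≤ (Hm n).map (LinearMap.mulLeft ℂ (lin x * lin p)) := by
      rintro _ ⟨⟨V, hV, rfl⟩, ⟨G, hG, hVG⟩⟩
      have h5 : lin p * G = lin x * V := hVG
      have h6 : lin p ∣ V := lin_dvd_of_mul hp hx ⟨G, h5.symm⟩
      obtain ⟨G', hG', rfl⟩ := exists_Hm_factor (hN hV) h6
      refine ⟨G', hG', ?_⟩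
      change lin x * lin p * G' = lin x * (lin p * G')
      ring
    have hfH : Module.Finite ℂ ((Hm n).map (LinearMap.mulLeft ℂ (lin x * lin p))) := inferInstance
    have h5 := Submodule.finrank_mono h4
    rw [finrank_map_mulLeft (mul_ne_zero (lin_ne_zero hx0) (lin_ne_zero hp)), finrank_Hm] at h5
    have h6 := choose_two_succ n
    apply Submodule.eq_of_le_of_finrank_le hle
    omega
  obtain ⟨ξ, hξ0, hξp, hξU⟩ := exists_eval_ne' hp (hN hU) hnd
  obtain ⟨x, hx, hxp⟩ := exists_ker_ne hp (evQ LinearMap.id ξ)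
  rw [evQ_id_apply, eval_lin_comm] at hx
  obtain ⟨k, hk⟩ : ∃ k, ξ k ≠ 0 := by
    by_contra hcon
    push Not at hcon
    exact hξ0 (funext hcon)
  have h3 := h1 (Pi.single k 1) U hU
  rw [← key x hxp] at h3
  obtain ⟨_, ⟨V, hV, rfl⟩, _, ⟨G, hG, rfl⟩, hsum⟩ := Submodule.mem_sup.mp h3
  have h4 : lin x * V + lin p * G = lin (Pi.single k 1) * U := hsum
  have h5 := congrArg (eval ξ) h4
  rw [map_add, map_mul, map_mul, map_mul, hx, hξp, zero_mul, zero_mul, zero_add] at h5
  have h6 : eval ξ (lin (Pi.single k 1)) = ξ k := by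
    rw [eval_lin, Finset.sum_eq_single k]
    · rw [Pi.single_eq_same, one_mul]
    · intro b _ hb
      rw [Pi.single_eq_of_ne hb, zero_mul]
    · intro h; exact absurd (Finset.mem_univ k) h
  rw [h6] at h5
  exact (mul_ne_zero hk hξU) h5.symm

end algebra

end Pool.Agent.Work.MP_0421d9_ag
end

section
/-!
Codimensions of linear systems when one multiplicity is raised.
-/

set_option linter.unusedSectionVars false

namespace Pool.Agent.Work.MP_0421d9_ag

open MvPolynomial Module

section upper

variable {ι : Type} [Fintype ι] [DecidableEq ι] {d : ℕ} {p : ι → V3}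

/-- raising the multiplicity at `i` by one -/
def up (m : ι → ℕ) (i : ι) : ι → ℕ := Function.update m i (m i + 1)

theorem up_self (m : ι → ℕ) (i : ι) : up m i i = m i + 1 := Function.update_self _ _ _

theorem up_ne (m : ι → ℕ) {i j : ι} (h : j ≠ i) : up m i j = m j := Function.update_of_ne h _ _

theorem le_up (m : ι → ℕ) (i j : ι) : m j ≤ up m i j := by
  by_cases h : j = i
  · rw [h, up_self]; exact Nat.le_succ _
  · rw [up_ne m h]

theorem up_comm (m : ι → ℕ) (i j : ι) : up (up m i) j = up (up m j) i := by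
  funext l
  by_cases hi : l = i <;> by_cases hj : l = j
  · subst hi; subst hj; rfl
  · subst hi
    rw [up_ne _ hj, up_self, up_self, up_ne _ hj]
  · subst hj
    rw [up_self, up_ne _ hi, up_ne _ hi, up_self]
  · rw [up_ne _ hj, up_ne _ hi, up_ne _ hi, up_ne _ hj]

theorem up_injective {m m' : ι → ℕ} {i : ι} (h : up m i = up m' i) : m = m' := by
  funext l
  have := congrFun h l
  by_cases hl : l = i
  · subst hl
    rw [up_self, up_self] at this
    omega
  · rwa [up_ne _ hl, up_ne _ hl] at this

theorem up_down {m : ι → ℕ} {j : ι} (h : 1 ≤ m j) : m = up (Function.update m j (m j - 1)) j := by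
  funext l
  by_cases hl : l = j
  · subst hl
    rw [up_self, Function.update_self]
    omega
  · rw [up_ne _ hl, Function.update_of_ne hl]

theorem linSys_mono {m m' : ι → ℕ} (h : ∀ i, m i ≤ m' i) : linSys d p m' ≤ linSys d p m :=
  fun _ hF => ⟨hF.1, fun i => (hF.2 i).mono (h i)⟩

theorem J_mono {m m' : ι → ℕ} (hm' : ∀ i, m' i ≤ d + 1) (h : ∀ i, m i ≤ m' i) :
    J d p m ≤ J d p m' := by
  have hm : ∀ i, m i ≤ d + 1 := fun i => (h i).trans (hm' i)
  intro A hA
  apply mem_J_of_B hm' (J_le hm hA)
  intro F hF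
  exact B_J_linSys hm hA (linSys_mono h hF)

/-- the leading forms of degree `m i` at `p i` are dual to this space modulo `lin (p i)` -/
noncomputable def UU (d : ℕ) (p : ι → V3) (m : ι → ℕ) (i : ι) : Submodule ℂ R3 :=
  Rd (m i) ⊓ (J d p m).comap (LinearMap.mulLeft ℂ (lin (p i) ^ (d - m i)))

theorem mem_UU {m : ι → ℕ} {i : ι} {U : R3} : U ∈ UU d p m i ↔ U.IsHomogeneous (m i) ∧
    lin (p i) ^ (d - m i) * U ∈ J d p m := Iff.rfl

theorem UU_le (m : ι → ℕ) (i : ι) : UU d p m i ≤ Rd (m i) := inf_le_left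

instance finite_UU (m : ι → ℕ) (i : ι) : Module.Finite ℂ (UU d p m i) :=
  Submodule.finiteDimensional_of_le (UU_le m i)

theorem J_up {m : ι → ℕ} (hm : ∀ i, m i ≤ d) (i : ι) : J d p (up m i) = J d p m ⊔
    (Rd (m i)).map (LinearMap.mulLeft ℂ (lin (p i) ^ (d - m i))) := by
  have hmu : ∀ j, up m i j ≤ d + 1 := by
    intro j
    by_cases hj : j = i
    · rw [hj, up_self]; have := hm i; omega
    · rw [up_ne m hj]; exact (hm j).trans (Nat.le_succ d)
  have hexp : d + 1 - up m i i = d - m i := by rw [up_self]; omega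
  apply le_antisymm
  · intro A hA
    obtain ⟨G, hG, rfl⟩ := mem_J.mp hA
    apply Submodule.sum_mem
    intro j _
    by_cases hj : j = i
    · subst hj
      apply Submodule.mem_sup_right
      rw [hexp]
      refine ⟨G j, ?_, rfl⟩
      have := hG j
      rw [up_self] at this
      exact this
    · apply Submodule.mem_sup_left
      have := hG j
      rw [up_ne m hj] at this ⊢
      exact summand_mem_J j this
  · apply sup_le
    · exact J_mono hmu (le_up m i)
    · rintro _ ⟨U, hU, rfl⟩
      have e1 : LinearMap.mulLeft ℂ (lin (p i) ^ (d - m i)) U =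
          lin (p i) ^ (d + 1 - up m i i) * U := by
        rw [hexp]; rfl
      rw [e1]
      apply summand_mem_J
      rw [up_self]
      exact hU

theorem finrank_UU {m : ι → ℕ} (hm : ∀ i, m i ≤ d) (i : ι) (hp : p i ≠ 0) :
    finrank ℂ (UU d p m i) + finrank ℂ (linSys d p m) =
      (m i + 2).choose 2 + finrank ℂ (linSys d p (up m i)) := by
  have hle : ∀ j, m j ≤ d + 1 := fun j => (hm j).trans (Nat.le_succ d)
  have hle' : ∀ j, up m i j ≤ d + 1 := by
    intro j
    by_cases hj : j = i
    · rw [hj, up_self]; have := hm i; omega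
    · rw [up_ne m hj]; exact hle j
  have h1 := finrank_linSys_add (p := p) hle
  have h2 := finrank_linSys_add (p := p) hle'
  set A : R3 := lin (p i) ^ (d - m i) with hA
  have hA0 : A ≠ 0 := pow_ne_zero _ (lin_ne_zero hp)
  set W : Submodule ℂ R3 := (Rd (m i)).map (LinearMap.mulLeft ℂ A) with hW
  have hfinJ : Module.Finite ℂ (J d p m) := Submodule.finiteDimensional_of_le (J_le hle)
  have hfinW : Module.Finite ℂ W := inferInstance
  have h3 := Submodule.finrank_sup_add_finrank_inf_eq (J d p m) W
  rw [← J_up hm i, hW, finrank_map_mulLeft hA0, finrank_Rd, ← hW] at h3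
  have h4 : J d p m ⊓ W = (UU d p m i).map (LinearMap.mulLeft ℂ A) := by
    ext B'
    constructor
    · rintro ⟨hB, ⟨U, hU, rfl⟩⟩
      exact ⟨U, ⟨hU, hB⟩, rfl⟩
    · rintro ⟨U, hU, rfl⟩
      exact ⟨hU.2, ⟨U, hU.1, rfl⟩⟩
  rw [h4, finrank_map_mulLeft hA0] at h3
  omega

/-- the number of conditions imposed by raising the multiplicity at `i` by one -/
noncomputable def cc (d : ℕ) (p : ι → V3) (m : ι → ℕ) (i : ι) : ℕ :=
  finrank ℂ (linSys d p m) - finrank ℂ (linSys d p (up m i))

theorem cc_add (m : ι → ℕ) (i : ι) :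
    finrank ℂ (linSys d p m) = finrank ℂ (linSys d p (up m i)) + cc d p m i := by
  unfold cc
  have : finrank ℂ (linSys d p (up m i)) ≤ finrank ℂ (linSys d p m) :=
    Submodule.finrank_mono (linSys_mono (le_up m i))
  omega

theorem cc_UU {m : ι → ℕ} (hm : ∀ i, m i ≤ d) (i : ι) (hp : p i ≠ 0) :
    finrank ℂ (UU d p m i) + cc d p m i = (m i + 2).choose 2 := by
  have h1 := finrank_UU hm i hp
  have h2 := cc_add (d := d) (p := p) m i
  omega

theorem K0_le {m : ι → ℕ} (hm : ∀ i, m i ≤ d) (i : ι) :
    (Hm (m i)).map (LinearMap.mulLeft ℂ (lin (p i))) ≤ UU d p m i := by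
  rintro _ ⟨G, hG, rfl⟩
  change lin (p i) * G ∈ _
  have hhom : (lin (p i) * G).IsHomogeneous (m i) := by
    have := mul_mem_Hm_succ (lin_isHomogeneous (p i)) hG
    exact this
  rw [mem_UU]
  refine ⟨hhom, ?_⟩
  have e1 : lin (p i) ^ (d - m i) * (lin (p i) * G) = lin (p i) ^ (d + 1 - m i) * G := by
    rw [(by have := hm i; omega : d + 1 - m i = d - m i + 1), pow_succ, mul_assoc]
  rw [e1]
  exact summand_mem_J i hG

theorem exists_not_dvd {m : ι → ℕ} (hm : ∀ i, m i ≤ d) (i : ι) (hp : p i ≠ 0)
    (h : cc d p m i ≤ m i) : ∃ U ∈ UU d p m i, ¬ lin (p i) ∣ U := by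
  by_contra hcon
  push Not at hcon
  have h1 : UU d p m i ≤ (Hm (m i)).map (LinearMap.mulLeft ℂ (lin (p i))) := by
    intro U hU
    obtain ⟨G, hG, rfl⟩ := exists_Hm_factor hU.1 (hcon U hU)
    exact ⟨G, hG, rfl⟩
  have h2 := Submodule.finrank_mono h1
  rw [finrank_map_mulLeft (lin_ne_zero hp), finrank_Hm] at h2
  have h3 := cc_UU hm i hp
  have h4 := choose_two_succ (m i)
  omega

theorem cc_le_of_not_dvd {m : ι → ℕ} (hm : ∀ i, m i ≤ d) (i : ι) (hp : p i ≠ 0) {U : R3}
    (hU : U ∈ UU d p m i) (hnd : ¬ lin (p i) ∣ U) : cc d p m i ≤ m i := by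
  have h1 : (Hm (m i)).map (LinearMap.mulLeft ℂ (lin (p i))) < UU d p m i := by
    refine lt_of_le_of_ne (K0_le hm i) ?_
    intro h
    rw [← h] at hU
    obtain ⟨G, -, rfl⟩ := hU
    exact hnd (Dvd.intro _ rfl)
  have h2 := Submodule.finrank_lt_finrank_of_lt h1
  rw [finrank_map_mulLeft (lin_ne_zero hp), finrank_Hm] at h2
  have h3 := cc_UU hm i hp
  have h4 := choose_two_succ (m i)
  omega

theorem finrank_linSys_zero_of_gt {m : ι → ℕ} {i : ι} (h : d < m i) :
    finrank ℂ (linSys d p m) = 0 := by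
  have : linSys d p m = ⊥ := by
    rw [Submodule.eq_bot_iff]
    intro F hF
    exact eq_zero_of_vanishTo hF.1 h (hF.2 i)
  rw [this]
  exact finrank_bot _ _

theorem le_of_finrank_pos {m : ι → ℕ} (h : finrank ℂ (linSys d p m) ≠ 0) (i : ι) : m i ≤ d := by
  by_contra hcon
  exact h (finrank_linSys_zero_of_gt (i := i) (by omega))

/-- monotonicity in the other multiplicities -/
theorem cc_mono (m : ι → ℕ) {j l : ι} (hjl : l ≠ j) : cc d p (up m j) l ≤ cc d p m l := by
  have h1 := Submodule.finrank_sup_add_finrank_inf_eq (linSys d p (up m j)) (linSys d p (up m l))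
  have h2 : linSys d p (up m j) ⊓ linSys d p (up m l) = linSys d p (up (up m j) l) := by
    ext F
    constructor
    · rintro ⟨hF1, hF2⟩
      refine ⟨hF1.1, fun x => ?_⟩
      by_cases hx : x = l
      · subst hx
        rw [up_self, up_ne _ hjl]
        have := hF2.2 x
        rwa [up_self] at this
      · rw [up_ne _ hx]
        exact hF1.2 x
    · intro hF
      refine ⟨linSys_mono (le_up _ _) hF, ?_⟩
      rw [up_comm] at hF
      exact linSys_mono (le_up _ _) hF
  have h3 : linSys d p (up m j) ⊔ linSys d p (up m l) ≤ linSys d p m :=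
    sup_le (linSys_mono (le_up _ _)) (linSys_mono (le_up _ _))
  have h4 := Submodule.finrank_mono h3
  rw [h2] at h1
  have h5 := cc_add (d := d) (p := p) m l
  have h6 := cc_add (d := d) (p := p) (up m j) l
  omega

end upper

end Pool.Agent.Work.MP_0421d9_ag
end

section
/-!
Derivations and the behaviour of the codimensions: unimodality, and activity.
-/

set_option linter.unusedSectionVars false

namespace Pool.Agent.Work.MP_0421d9_ag

open MvPolynomial Module

section upper

variable {ι : Type} [Fintype ι] [DecidableEq ι] {d : ℕ} {p : ι → V3}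
  {E : ι → Fin 3 → Derivation ℚ ℂ ℂ}

theorem up_le_succ {m : ι → ℕ} (hm : ∀ i, m i ≤ d) (i j : ι) : up m i j ≤ d + 1 := by
  by_cases hj : j = i
  · rw [hj, up_self]; have := hm i; omega
  · rw [up_ne m hj]; exact (hm j).trans (Nat.le_succ d)

theorem linSys_cD_up (hE : IsDual p E) {m : ι → ℕ} (hm : ∀ i, m i ≤ d) (j : ι) (w : V3) {F : R3}
    (hF : F ∈ linSys d p (up m j)) : cD (mv E j w) F ∈ linSys d p m := by
  refine ⟨cD_isHomogeneous _ hF.1, fun l => ?_⟩
  by_cases hl : l = j
  · subst hl
    have h1 := vanishTo_cD (mv E l w) hF.1 (up_le_succ hm l l) (hF.2 l)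
    rwa [up_self, Nat.add_sub_cancel] at h1
  · have h1 := hF.2 l
    rw [up_ne _ hl] at h1
    exact vanishTo_cD_fixed (fun k => mv_ne hE hl w k) hF.1 ((hm l).trans (Nat.le_succ d)) h1

/-- moving the point `j` raises the multiplicity at `j` in the inverse systems -/
theorem cD_mem_J_up (hE : IsDual p E) {m : ι → ℕ} (hm : ∀ i, m i ≤ d) (j : ι) (w : V3) {A : R3}
    (hA : A ∈ J d p m) : cD (mv E j w) A ∈ J d p (up m j) := by
  have hm1 : ∀ i, m i ≤ d + 1 := fun i => (hm i).trans (Nat.le_succ d)
  apply mem_J_of_B (up_le_succ hm j) (cD_isHomogeneous _ (J_le hm1 hA))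
  intro F hF
  have h1 := D_B (mv E j w) A F
  rw [B_J_linSys hm1 hA (linSys_mono (le_up m j) hF), map_zero,
    B_J_linSys hm1 hA (linSys_cD_up hE hm j w hF), add_zero] at h1
  exact h1.symm

/-- unimodality -/
theorem cc_up_self (hE : IsDual p E) {m : ι → ℕ} (hm : ∀ i, m i ≤ d) (i : ι)
    (h : cc d p m i ≤ m i) : cc d p (up m i) i ≤ cc d p m i := by
  have hp : p i ≠ 0 := gp1 hE i
  by_cases hd : m i + 1 ≤ d
  · obtain ⟨U, hU, hnd⟩ := exists_not_dvd hm i hp h
    have hmu : ∀ j, up m i j ≤ d := by
      intro j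
      by_cases hj : j = i
      · rw [hj, up_self]; exact hd
      · rw [up_ne m hj]; exact hm j
    have h1 : finrank ℂ (UU d p m i) + (m i + 2) ≤ finrank ℂ (UU d p (up m i) i) := by
      have hN' : UU d p (up m i) i ≤ Rd (m i + 1) := by
        have := UU_le (d := d) (p := p) (up m i) i
        rwa [up_self] at this
      refine growth hp (UU_le m i) hN' ?_ ?_ hU hnd
      · intro v V hV
        rw [mem_UU, up_self]
        refine ⟨?_, ?_⟩
        · have := (lin_isHomogeneous v).mul hV.1
          rwa [add_comm] at this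
        · have h2 := cD_mem_J_up hE hm i v hV.2
          have h3 : cD (mv E i v) (LinearMap.mulLeft ℂ (lin (p i) ^ (d - m i)) V) =
              C ((d - m i : ℕ) : ℂ) * (lin (p i) ^ (d - (m i + 1)) * (lin v * V)) +
                lin (p i) ^ (d - m i) * cD (mv E i v) V := by
            change cD (mv E i v) (lin (p i) ^ (d - m i) * V) = _
            rw [cD_mul, cD_pow, cD_lin_self hE, (by omega : d - m i - 1 = d - (m i + 1))]
            ring
          rw [h3] at h2
          have h4 : lin (p i) ^ (d - m i) * cD (mv E i v) V ∈ J d p (up m i) := by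
            have h5 : cD (mv E i v) V ∈ Hm (up m i i) := by
              rw [up_self, mem_Hm_succ]
              exact cD_isHomogeneous _ hV.1
            have h6 := summand_mem_J (d := d) (p := p) i h5
            rwa [up_self, (by omega : d + 1 - (m i + 1) = d - m i)] at h6
          have h5 := Submodule.sub_mem _ h2 h4
          rw [add_sub_cancel_right] at h5
          exact mem_of_C_mul_mem (by rw [Nat.cast_ne_zero]; omega) h5
      · intro G hG
        have := K0_le (d := d) (p := p) hmu i
        apply this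
        refine ⟨G, ?_, rfl⟩
        rw [up_self]
        exact hG
    have h2 := cc_UU (d := d) (p := p) hm i hp
    have h3 := cc_UU (d := d) (p := p) hmu i hp
    rw [up_self] at h3
    have h4 : (m i + 1 + 2).choose 2 = (m i + 2).choose 2 + (m i + 2) := choose_two_succ (m i + 1)
    omega
  · have h1 : cc d p (up m i) i = 0 := by
      unfold cc
      rw [finrank_linSys_zero_of_gt (m := up m i) (i := i) (by rw [up_self]; omega)]
      exact Nat.zero_sub _
    omega

theorem finrank_eq_zero_of_cc (hE : IsDual p E) (i : ι) : ∀ (n : ℕ) (m : ι → ℕ), d + 1 ≤ m i + n →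
    cc d p m i = 0 → finrank ℂ (linSys d p m) = 0 := by
  intro n
  induction n with
  | zero => intro m hn _; exact finrank_linSys_zero_of_gt (i := i) (by omega)
  | succ n ih =>
    intro m hn hc
    by_contra hcon
    have hm := le_of_finrank_pos hcon
    apply hcon
    rw [cc_add m i, hc, add_zero]
    apply ih (up m i) (by rw [up_self]; omega)
    have := cc_up_self hE hm i (by rw [hc]; exact Nat.zero_le _)
    omega

/-- the operator combining motions of all the points along a linear vector field -/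
noncomputable def TT (E : ι → Fin 3 → Derivation ℚ ℂ ℂ) (p : ι → V3) (u ξ : V3) (A : R3) : R3 :=
  ∑ l, cD (mv E l (eval (p l) (lin ξ) • u)) A - lin u * dir ξ A

theorem TT_mul (u ξ : V3) (A A' : R3) :
    TT E p u ξ (A * A') = TT E p u ξ A * A' + A * TT E p u ξ A' := by
  unfold TT
  rw [dir_mul]
  simp only [cD_mul, Finset.sum_add_distrib, ← Finset.sum_mul, ← Finset.mul_sum]
  ring

theorem TT_lin (hE : IsDual p E) (u ξ : V3) (j : ι) : TT E p u ξ (lin (p j)) = 0 := by
  unfold TT
  rw [Finset.sum_eq_single j, cD_lin_self hE, dir_lin, lin_smul, mul_comm (C _), eval_lin_comm,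
    sub_self]
  · intro l _ hl
    rw [cD_lin]
    have : (fun k => mv E l (eval (p l) (lin ξ) • u) (p j k)) = 0 := by
      funext k
      exact mv_ne hE hl.symm _ k
    rw [this, lin_zero]
  · intro h; exact absurd (Finset.mem_univ j) h

theorem TT_pow (hE : IsDual p E) (u ξ : V3) (j : ι) (n : ℕ) :
    TT E p u ξ (lin (p j) ^ n) = 0 := by
  induction n with
  | zero =>
    unfold TT
    rw [pow_zero]
    have h1 : ∀ l, cD (mv E l (eval (p l) (lin ξ) • u)) (1 : R3) = 0 := fun l =>
      Derivation.map_one_eq_zero _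
    rw [Finset.sum_eq_zero (fun l _ => h1 l), Derivation.map_one_eq_zero, mul_zero, sub_zero]
  | succ n ih => rw [pow_succ, TT_mul, ih, TT_lin hE, zero_mul, mul_zero, add_zero]

theorem TT_add (u ξ : V3) (A A' : R3) : TT E p u ξ (A + A') = TT E p u ξ A + TT E p u ξ A' := by
  unfold TT
  simp only [map_add, Finset.sum_add_distrib, mul_add]
  ring

theorem TT_zero (u ξ : V3) : TT E p u ξ (0 : R3) = 0 := by
  unfold TT
  simp

theorem TT_sum (u ξ : V3) {α : Type} (s : Finset α) (f : α → R3) :
    TT E p u ξ (∑ a ∈ s, f a) = ∑ a ∈ s, TT E p u ξ (f a) := by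
  classical
  induction s using Finset.induction_on with
  | empty => rw [Finset.sum_empty, Finset.sum_empty, TT_zero]
  | insert a s ha ih => rw [Finset.sum_insert ha, Finset.sum_insert ha, TT_add, ih]

theorem TT_mem_Hm (u ξ : V3) {n : ℕ} {A : R3} (hA : A ∈ Hm n) : TT E p u ξ A ∈ Hm n := by
  cases n with
  | zero =>
    rw [mem_Hm_zero] at *
    rw [hA, TT_zero]
  | succ n =>
    unfold TT
    apply Submodule.sub_mem
    · apply Submodule.sum_mem
      intro l _
      exact cD_mem_Hm _ hA
    · rw [mem_Hm_succ] at *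
      cases n with
      | zero =>
        have h0 : A = C (coeff 0 A) :=
          (MvPolynomial.totalDegree_eq_zero_iff_eq_C).mp (Nat.le_zero.mp hA.totalDegree_le)
        rw [h0, dir_C, mul_zero]
        exact isHomogeneous_zero _ _ _
      | succ n =>
        have h6 : (dir ξ A).IsHomogeneous n := by
          simpa using dir_isHomogeneous ξ hA
        have := (lin_isHomogeneous u).mul h6
        rwa [add_comm] at this

theorem TT_mem_J (hE : IsDual p E) {m : ι → ℕ} (u ξ : V3) {A : R3} (hA : A ∈ J d p m) :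
    TT E p u ξ A ∈ J d p m := by
  obtain ⟨G, hG, rfl⟩ := mem_J.mp hA
  rw [TT_sum]
  apply Submodule.sum_mem
  intro l _
  rw [TT_mul, TT_pow hE, zero_mul, zero_add]
  exact summand_mem_J l (TT_mem_Hm u ξ (hG l))

/-- if the space of leading forms is a proper nonzero space, it moves with some other point -/
theorem exists_active (hE : IsDual p E) {m : ι → ℕ} (hm : ∀ i, m i ≤ d) (i : ι)
    (h : cc d p m i ≤ m i) (hpos : 0 < cc d p m i) :
    ∃ j, j ≠ i ∧ ∃ w, ∃ U ∈ UU d p m i, cD (mv E j w) U ∉ UU d p m i := by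
  by_contra hcon
  push Not at hcon
  have hp : p i ≠ 0 := gp1 hE i
  obtain ⟨U, hU, hnd⟩ := exists_not_dvd hm i hp h
  have h1 : UU d p m i = Rd (m i) := by
    refine stable_eq_top hp (UU_le m i) ?_ hU hnd
    intro u ξ hξ V hV
    have h2 : TT E p u ξ V ∈ UU d p m i := by
      rw [mem_UU]
      constructor
      · have : V ∈ Hm (m i + 1) := hV.1
        exact TT_mem_Hm u ξ this
      · have h3 := TT_mem_J hE u ξ hV.2
        change TT E p u ξ (lin (p i) ^ (d - m i) * V) ∈ _ at h3
        rwa [TT_mul, TT_pow hE, zero_mul, zero_add] at h3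
    have h3 : ∑ l, cD (mv E l (eval (p l) (lin ξ) • u)) V ∈ UU d p m i := by
      apply Submodule.sum_mem
      intro l _
      by_cases hl : l = i
      · subst hl
        have h4 : mv E l (eval (p l) (lin ξ) • u) = 0 := by
          unfold mv
          rw [hξ]
          simp
        have h5 : cD (mv E l (eval (p l) (lin ξ) • u)) V = 0 := by
          rw [h4]
          ext α
          rw [coeff_cD]
          rfl
        rw [h5]
        exact zero_mem _
      · exact hcon l hl _ V hV
    have h4 := Submodule.sub_mem _ h3 h2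
    unfold TT at h4
    rwa [sub_sub_cancel] at h4
  have h2 := cc_UU (d := d) (p := p) hm i hp
  rw [h1, finrank_Rd] at h2
  omega

/-- activity: consequences for the codimensions -/
theorem activity (hE : IsDual p E) {m : ι → ℕ} (hm : ∀ i, m i ≤ d) (i : ι) (hi : m i + 1 ≤ d)
    (h : cc d p m i ≤ m i) (hpos : 0 < cc d p m i) :
    ∃ j, j ≠ i ∧ 1 ≤ m j ∧ cc d p (up m j) i < cc d p m i ∧
      cc d p (up (Function.update m j (m j - 1)) i) j ≤ m j - 1 := by
  obtain ⟨j, hji, w, U, hU, hDU⟩ := exists_active hE hm i h hpos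
  have hpi : p i ≠ 0 := gp1 hE i
  have hpj : p j ≠ 0 := gp1 hE j
  have hm1 : ∀ l, m l ≤ d + 1 := fun l => (hm l).trans (Nat.le_succ d)
  obtain ⟨G, hG, hGU⟩ := mem_J.mp hU.2
  change ∑ l, lin (p l) ^ (d + 1 - m l) * G l = lin (p i) ^ (d - m i) * U at hGU
  -- the component at `j` is not divisible
  have hnd : ¬ lin (p j) ∣ G j := by
    rintro ⟨K, hK⟩
    apply hDU
    rw [mem_UU]
    refine ⟨cD_isHomogeneous _ hU.1, ?_⟩
    have h1 := congrArg (cD (mv E j w)) hGU
    rw [cD_mul (mv E j w) (lin (p i) ^ (d - m i)), cD_lin_pow_ne hE hji.symm, zero_mul, zero_add,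
      map_sum] at h1
    rw [← h1]
    apply Submodule.sum_mem
    intro l _
    rw [cD_mul]
    apply Submodule.add_mem
    · by_cases hl : l = j
      · subst hl
        rw [cD_pow, cD_lin_self hE]
        have h2 : C ((d + 1 - m l : ℕ) : ℂ) * (lin (p l) ^ (d + 1 - m l - 1) * lin w) * G l =
            C ((d + 1 - m l : ℕ) : ℂ) * (lin (p l) ^ (d + 1 - m l) * (lin w * K)) := by
          rw [hK, (by have := hm l; omega : d + 1 - m l = d + 1 - m l - 1 + 1), pow_succ,
            Nat.add_sub_cancel]
          ring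
        rw [h2]
        apply C_mul_mem
        apply summand_mem_J
        -- degree count
        have h3 := hG l
        cases hml : m l with
        | zero =>
          rw [hml, mem_Hm_zero, hK] at h3
          have hK0 := (mul_eq_zero.mp h3).resolve_left (lin_ne_zero hpj)
          rw [hK0, mul_zero]
          exact zero_mem _
        | succ n =>
          rw [hml, mem_Hm_succ] at h3
          obtain ⟨K', hK', hKK⟩ := exists_Hm_factor h3 (Dvd.intro _ hK.symm)
          have hKe : K = K' := by
            rw [hK] at hKK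
            exact mul_left_cancel₀ (lin_ne_zero hpj) hKK
          rw [hKe]
          exact mul_mem_Hm_succ (lin_isHomogeneous w) hK'
      · rw [cD_lin_pow_ne hE hl, zero_mul]
        exact zero_mem _
    · exact summand_mem_J l (cD_mem_Hm _ (hG l))
  have hmj : 1 ≤ m j := by
    by_contra hc
    have h1 : m j = 0 := by omega
    have h2 := hG j
    rw [h1, mem_Hm_zero] at h2
    rw [h2] at hnd
    exact hnd (dvd_zero _)
  refine ⟨j, hji, hmj, ?_, ?_⟩
  · by_cases hjd : m j + 1 ≤ d
    · have hmu : ∀ l, up m j l ≤ d := by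
        intro l
        by_cases hl : l = j
        · rw [hl, up_self]; exact hjd
        · rw [up_ne m hl]; exact hm l
      have hui : up m j i = m i := up_ne m hji.symm
      have h1 : UU d p m i < UU d p (up m j) i := by
        refine lt_of_le_of_ne ?_ ?_
        · intro V hV
          rw [mem_UU, hui]
          exact ⟨hV.1, J_mono (up_le_succ hm j) (le_up m j) hV.2⟩
        · intro heq
          apply hDU
          rw [heq, mem_UU, hui]
          refine ⟨cD_isHomogeneous _ hU.1, ?_⟩
          have h2 := cD_mem_J_up hE hm j w hU.2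
          change cD (mv E j w) (lin (p i) ^ (d - m i) * U) ∈ _ at h2
          rwa [cD_mul, cD_lin_pow_ne hE hji.symm, zero_mul, zero_add] at h2
      have h2 := Submodule.finrank_lt_finrank_of_lt h1
      have h3 := cc_UU (d := d) (p := p) hm i hpi
      have h4 := cc_UU (d := d) (p := p) hmu i hpi
      rw [hui] at h4
      omega
    · have h1 : cc d p (up m j) i = 0 := by
        unfold cc
        rw [finrank_linSys_zero_of_gt (m := up m j) (i := j) (by rw [up_self]; omega)]
        exact Nat.zero_sub _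
      omega
  · set z := Function.update m j (m j - 1) with hz
    have hzj : z j = m j - 1 := by rw [hz, Function.update_self]
    have hzl : ∀ l, l ≠ j → z l = m l := fun l hl => by rw [hz, Function.update_of_ne hl]
    have hzle : ∀ l, z l ≤ d := by
      intro l
      by_cases hl : l = j
      · rw [hl, hzj]; have := hm j; omega
      · rw [hzl l hl]; exact hm l
    have hzi : up z i i = m i + 1 := by rw [up_self, hzl i hji.symm]
    have hzij : up z i j = m j - 1 := by rw [up_ne _ hji, hzj]
    have hzu : ∀ l, up z i l ≤ d := by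
      intro l
      by_cases hl : l = i
      · rw [hl, hzi]; exact hi
      · rw [up_ne _ hl]; exact hzle l
    have h1 : G j ∈ UU d p (up z i) j := by
      rw [mem_UU, hzij]
      constructor
      · have h2 := hG j
        obtain ⟨n, hn⟩ : ∃ n, m j = n + 1 := ⟨m j - 1, by omega⟩
        rw [hn, mem_Hm_succ] at h2
        rw [hn, Nat.add_sub_cancel]
        exact h2
      · have h2 : lin (p j) ^ (d - (m j - 1)) * G j = lin (p i) ^ (d - m i) * U -
            ∑ l ∈ Finset.univ.erase j, lin (p l) ^ (d + 1 - m l) * G l := by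
          rw [← hGU, ← Finset.add_sum_erase _ _ (Finset.mem_univ j), add_sub_cancel_right,
            (by have := hm j; omega : d + 1 - m j = d - (m j - 1))]
        rw [h2]
        apply Submodule.sub_mem
        · have h3 : U ∈ Hm (up z i i) := by
            rw [hzi]
            exact hU.1
          have h4 := summand_mem_J (d := d) (p := p) i h3
          rwa [hzi, (by omega : d + 1 - (m i + 1) = d - m i)] at h4
        · apply Submodule.sum_mem
          intro l hl
          have hlj := Finset.ne_of_mem_erase hl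
          have h3 : G l ∈ Hm (z l) := by
            rw [hzl l hlj]
            exact hG l
          have h4 := summand_mem_J (d := d) (p := p) l h3
          rw [hzl l hlj] at h4
          exact J_mono (fun l => (hzu l).trans (Nat.le_succ d)) (le_up z i) h4
    have h2 := cc_le_of_not_dvd hzu j hpj h1 hnd
    rwa [hzij] at h2

end upper

end Pool.Agent.Work.MP_0421d9_ag
end

section
/-!
The chain argument: upper bounds for the dimension of special systems, and of systems which do not
cut out complete series.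
-/

set_option linter.unusedSectionVars false

namespace Pool.Agent.Work.MP_0421d9_ag

open MvPolynomial Module

section upper

variable {ι : Type} [Fintype ι] [DecidableEq ι] {d : ℕ} {p : ι → V3}
  {E : ι → Fin 3 → Derivation ℚ ℂ ℂ}

theorem chain (hE : IsDual p E) (i : ι) (K : ℕ) : ∀ (N : ℕ) (y : ι → ℕ), cc d p y i ≤ N →
    cc d p y i ≤ y i →
    (∀ j, j ≠ i → y j ≤ K + 1 ∨
      ∃ z : ι → ℕ, y = up z j ∧ cc d p (up z i) j ≤ K ∧ cc d p (up z i) j ≤ z j) →
    finrank ℂ (linSys d p (up y i)) ≤ N * K := by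
  intro N
  induction N with
  | zero =>
    intro y hN _ _
    have h1 := finrank_eq_zero_of_cc hE i (d + 1) y (by omega) (Nat.le_zero.mp hN)
    have h2 := cc_add (d := d) (p := p) y i
    omega
  | succ N ih =>
    intro y hN hc hy
    by_cases hV : finrank ℂ (linSys d p (up y i)) = 0
    · rw [hV]; exact Nat.zero_le _
    have hyu := le_of_finrank_pos hV
    have hyd : ∀ l, y l ≤ d := fun l => (le_up y i l).trans (hyu l)
    have hyi : y i + 1 ≤ d := by
      have := hyu i
      rwa [up_self] at this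
    have hpos : 0 < cc d p y i := by
      rcases Nat.eq_zero_or_pos (cc d p y i) with h0 | h0
      · exfalso
        apply hV
        have h1 := finrank_eq_zero_of_cc hE i (d + 1) y (by omega) h0
        have h2 := cc_add (d := d) (p := p) y i
        omega
      · exact h0
    obtain ⟨j, hji, hyj, hlt, hcj⟩ := activity hE hyd i hyi hc hpos
    set z := Function.update y j (y j - 1) with hz
    have hyz : y = up z j := up_down hyj
    have hzj : z j = y j - 1 := by rw [hz, Function.update_self]
    have hzi : ∀ l, up z i l ≤ d := by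
      intro l
      by_cases hl : l = i
      · rw [hl, up_self, hz, Function.update_of_ne hji.symm]; exact hyi
      · rw [up_ne _ hl]
        refine le_trans ?_ (hyd l)
        rw [hyz]
        exact le_up z j l
    have hcK : cc d p (up z i) j ≤ K := by
      rcases hy j hji with h1 | ⟨z', hz', h1, -⟩
      · omega
      · have : z = z' := up_injective (hyz.symm.trans hz')
        rw [this]
        exact h1
    have hzij : up z i j = z j := up_ne _ hji
    have hcost : cc d p (up y i) j ≤ cc d p (up z i) j := by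
      have h1 := cc_up_self hE hzi j (by rw [hzij, hzj]; exact hcj)
      rwa [up_comm, ← hyz] at h1
    have h3 := cc_add (d := d) (p := p) (up y i) j
    have h4 : finrank ℂ (linSys d p (up (up y j) i)) ≤ N * K := by
      apply ih (up y j) (by omega)
      · rw [up_ne _ hji.symm]; omega
      · intro l hli
        by_cases hlj : l = j
        · subst hlj
          right
          refine ⟨y, rfl, hcost.trans hcK, ?_⟩
          have := le_up z l l
          rw [← hyz] at this
          omega
        · rcases hy l hli with h1 | ⟨z', hz', h1, h2⟩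
          · left
            rw [up_ne _ hlj]
            exact h1
          · right
            refine ⟨up z' j, ?_, ?_, ?_⟩
            · rw [hz', up_comm]
            · rw [up_comm]
              exact (cc_mono _ hlj).trans h1
            · rw [up_comm, up_ne z' hlj]
              exact (cc_mono _ hlj).trans h2
    rw [up_comm y i j] at h3
    rw [h3, Nat.succ_mul]
    omega

/-- A system which does not cut out the complete series on `E_i` is small. -/
theorem finrank_le_of_incomplete (hE : IsDual p E) {y : ι → ℕ} {i : ι} (hc : cc d p y i ≤ y i)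
    {M : ℕ} (hM : ∀ j, j ≠ i → y j ≤ M) :
    finrank ℂ (linSys d p y) ≤ y i * M ∧
      finrank ℂ (linSys d p (up y i)) ≤ y i * (M - 1) := by
  rcases Nat.eq_zero_or_pos M with h0 | h0
  · -- no active point
    subst h0
    by_cases hV : finrank ℂ (linSys d p (up y i)) = 0
    · refine ⟨?_, by rw [hV]; exact Nat.zero_le _⟩
      rcases Nat.eq_zero_or_pos (cc d p y i) with h1 | h1
      · have := finrank_eq_zero_of_cc hE i (d + 1) y (by omega) h1
        omega
      · exfalso
        by_cases hW : finrank ℂ (linSys d p y) = 0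
        · unfold cc at h1; omega
        have hyd := le_of_finrank_pos hW
        obtain ⟨j, hji, w, U, hU, hDU⟩ := exists_active hE hyd i hc h1
        apply hDU
        have hJ := hU.2
        obtain ⟨G, hG, hGU⟩ := mem_J.mp hJ
        change ∑ l, lin (p l) ^ (d + 1 - y l) * G l = lin (p i) ^ (d - y i) * U at hGU
        have h2 := congrArg (cD (mv E j w)) hGU
        rw [cD_mul (mv E j w) (lin (p i) ^ (d - y i)), cD_lin_pow_ne hE hji.symm, zero_mul,
          zero_add, map_sum] at h2
        rw [mem_UU]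
        refine ⟨cD_isHomogeneous _ hU.1, ?_⟩
        rw [← h2]
        apply Submodule.sum_mem
        intro l _
        by_cases hl : l = j
        · subst hl
          have h3 := hG l
          have h4 := hM l hji
          rw [Nat.le_zero.mp h4, mem_Hm_zero] at h3
          rw [h3, mul_zero, map_zero]
          exact zero_mem _
        · rw [cD_mul, cD_lin_pow_ne hE hl, zero_mul, zero_add]
          exact summand_mem_J l (cD_mem_Hm _ (hG l))
    · exfalso
      have hyu := le_of_finrank_pos hV
      have hyd : ∀ l, y l ≤ d := fun l => (le_up y i l).trans (hyu l)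
      have hyi : y i + 1 ≤ d := by
        have := hyu i
        rwa [up_self] at this
      have hpos : 0 < cc d p y i := by
        rcases Nat.eq_zero_or_pos (cc d p y i) with h0 | h0
        · exfalso
          apply hV
          have h1 := finrank_eq_zero_of_cc hE i (d + 1) y (by omega) h0
          have h2 := cc_add (d := d) (p := p) y i
          omega
        · exact h0
      obtain ⟨j, hji, hyj, -, -⟩ := activity hE hyd i hyi hc hpos
      have := hM j hji
      omega
  · have h1 := chain hE i (M - 1) (cc d p y i) y le_rfl hc (fun j hj => Or.inl (by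
      have := hM j hj
      omega))
    have h2 : cc d p y i * (M - 1) ≤ y i * (M - 1) := Nat.mul_le_mul_right _ hc
    refine ⟨?_, h1.trans h2⟩
    rw [cc_add y i]
    calc finrank ℂ (linSys d p (up y i)) + cc d p y i ≤ cc d p y i * (M - 1) + cc d p y i := by
          omega
      _ = cc d p y i * M := by
          obtain ⟨k, rfl⟩ : ∃ k, M = k + 1 := ⟨M - 1, by omega⟩
          rw [Nat.add_sub_cancel]
          ring
      _ ≤ y i * M := Nat.mul_le_mul_right _ hc

theorem sum_choose_up (y : ι → ℕ) (i : ι) :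
    ∑ l, (up y i l + 1).choose 2 = ∑ l, (y l + 1).choose 2 + (y i + 1) := by
  rw [← Finset.add_sum_erase _ _ (Finset.mem_univ i),
    ← Finset.add_sum_erase _ (fun l => (y l + 1).choose 2) (Finset.mem_univ i), up_self]
  have h1 : ∑ l ∈ Finset.univ.erase i, (up y i l + 1).choose 2 =
      ∑ l ∈ Finset.univ.erase i, (y l + 1).choose 2 := by
    refine Finset.sum_congr rfl (fun l hl => ?_)
    rw [up_ne _ (Finset.ne_of_mem_erase hl)]
  rw [h1]
  have : (y i + 1 + 1).choose 2 = (y i + 1).choose 2 + (y i + 1) := choose_two_succ (y i)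
  omega

/-- a special system lies in a system for which some multiplicity imposes too few conditions -/
theorem exists_incomplete : ∀ (n : ℕ) (m : ι → ℕ), ∑ i, m i ≤ n →
    (d + 2).choose 2 < finrank ℂ (linSys d p m) + ∑ i, (m i + 1).choose 2 →
    ∃ (y : ι → ℕ) (i : ι), (∀ l, up y i l ≤ m l) ∧ cc d p y i ≤ y i := by
  intro n
  induction n with
  | zero =>
    intro m hm h
    exfalso
    have h0 : ∀ i, m i = 0 := by
      intro i
      have := Finset.single_le_sum (f := m) (fun j _ => Nat.zero_le (m j)) (Finset.mem_univ i)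
      omega
    have h1 : ∑ i, (m i + 1).choose 2 = 0 := Finset.sum_eq_zero (fun i _ => by rw [h0 i]; rfl)
    rw [h1, add_zero] at h
    have h2 : finrank ℂ (linSys d p m) ≤ (d + 2).choose 2 := by
      rw [← finrank_Rd d]
      exact Submodule.finrank_mono (linSys_le d p m)
    omega
  | succ n ih =>
    intro m hm h
    by_cases h0 : ∀ i, m i = 0
    · exact ih m (by rw [Finset.sum_eq_zero (fun i _ => h0 i)]; exact Nat.zero_le _) h
    push Not at h0
    obtain ⟨i, hi⟩ := h0
    set y := Function.update m i (m i - 1) with hy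
    have hmy : m = up y i := up_down (by omega)
    have hyi : y i + 1 = m i := by rw [hy, Function.update_self]; omega
    by_cases hs : (d + 2).choose 2 < finrank ℂ (linSys d p y) + ∑ l, (y l + 1).choose 2
    · have h1 : ∑ l, y l ≤ n := by
        have h2 : ∑ l, y l + 1 = ∑ l, m l := by
          rw [← Finset.add_sum_erase _ _ (Finset.mem_univ i),
            ← Finset.add_sum_erase _ m (Finset.mem_univ i)]
          have h3 : ∑ l ∈ Finset.univ.erase i, y l = ∑ l ∈ Finset.univ.erase i, m l := by
            refine Finset.sum_congr rfl (fun l hl => ?_)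
            rw [hy, Function.update_of_ne (Finset.ne_of_mem_erase hl)]
          omega
        omega
      obtain ⟨z, j, hz, hc⟩ := ih y h1 hs
      refine ⟨z, j, fun l => (hz l).trans ?_, hc⟩
      rw [hmy]
      exact le_up y i l
    · refine ⟨y, i, fun l => by rw [← hmy], ?_⟩
      have h1 := cc_add (d := d) (p := p) y i
      have h2 := sum_choose_up y i
      rw [← hmy] at h1 h2
      omega

/-- **Sharp bound for special systems.** -/
theorem special_bound (hE : IsDual p E) {m : ι → ℕ} (hpos : 0 < finrank ℂ (linSys d p m))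
    (h : (d + 2).choose 2 < finrank ℂ (linSys d p m) + ∑ i, (m i + 1).choose 2) :
    ∃ i j, i ≠ j ∧ finrank ℂ (linSys d p m) ≤ (m i - 1) * (m j - 1) := by
  obtain ⟨y, i, hy, hc⟩ := exists_incomplete (∑ i, m i) m le_rfl h
  have h1 : finrank ℂ (linSys d p m) ≤ finrank ℂ (linSys d p (up y i)) :=
    Submodule.finrank_mono (linSys_mono hy)
  -- there is another point
  have hne : ∃ j, j ≠ i := by
    by_contra hcon
    push Not at hcon
    have := (finrank_le_of_incomplete hE hc (M := 0) (fun j hj => absurd (hcon j) hj)).1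
    have h2 : finrank ℂ (linSys d p (up y i)) ≤ finrank ℂ (linSys d p y) :=
      Submodule.finrank_mono (linSys_mono (le_up y i))
    omega
  obtain ⟨j₀, hj₀⟩ := hne
  obtain ⟨j, hj, hjmax⟩ := Finset.exists_max_image (Finset.univ.erase i) m
    ⟨j₀, Finset.mem_erase.mpr ⟨hj₀, Finset.mem_univ _⟩⟩
  have hji := Finset.ne_of_mem_erase hj
  refine ⟨i, j, hji.symm, ?_⟩
  have h2 := (finrank_le_of_incomplete hE hc (M := m j) (fun l hl => by
    refine le_trans ?_ (hjmax l (Finset.mem_erase.mpr ⟨hl, Finset.mem_univ _⟩))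
    have := hy l
    rwa [up_ne _ hl] at this)).2
  refine h1.trans (h2.trans ?_)
  apply Nat.mul_le_mul_right
  have := hy i
  rw [up_self] at this
  omega

end upper

end Pool.Agent.Work.MP_0421d9_ag
end

section
/-!
The lower bound for the dimension of a linear system, and a family of special systems attaining
the upper bound.
-/

set_option linter.unusedSectionVars false

namespace Pool.Agent.Work.MP_0421d9_ag

open MvPolynomial Module

section lower

variable {ι : Type} [Fintype ι] [DecidableEq ι]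

theorem finrank_HH (m : ι → ℕ) : finrank ℂ (HH m) = ∑ i, (m i + 1).choose 2 := by
  have h2 : finrank ℂ (HH m) = ∑ i, finrank ℂ (Hm (m i)) := by
    let e : (HH m) ≃ₗ[ℂ] (∀ i, Hm (m i)) :=
      { toFun := fun G i => ⟨G.1 i, mem_HH.mp G.2 i⟩
        invFun := fun G => ⟨fun i => (G i).1, mem_HH.mpr fun i => (G i).2⟩
        left_inv := fun _ => rfl
        right_inv := fun _ => rfl
        map_add' := fun _ _ => rfl
        map_smul' := fun _ _ => rfl }
    rw [e.finrank_eq, Module.finrank_pi_fintype]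
  rw [h2]
  exact Finset.sum_congr rfl (fun i _ => finrank_Hm _)

/-- the dimension is at least the virtual dimension -/
theorem chi_le {d : ℕ} {p : ι → V3} {m : ι → ℕ} (hm : ∀ i, m i ≤ d + 1) :
    (d + 2).choose 2 ≤ finrank ℂ (linSys d p m) + ∑ i, (m i + 1).choose 2 := by
  rw [← finrank_linSys_add (p := p) hm, ← finrank_HH]
  have h1 : finrank ℂ (J d p m) ≤ finrank ℂ (HH m) := by
    let e : (HH m) ≃ₗ[ℂ] (∀ i, Hm (m i)) :=
      { toFun := fun G i => ⟨G.1 i, mem_HH.mp G.2 i⟩
        invFun := fun G => ⟨fun i => (G i).1, mem_HH.mpr fun i => (G i).2⟩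
        left_inv := fun _ => rfl
        right_inv := fun _ => rfl
        map_add' := fun _ _ => rfl
        map_smul' := fun _ _ => rfl }
    have hf : Module.Finite ℂ (HH m) := Module.Finite.equiv e.symm
    exact Submodule.finrank_map_le _ _
  omega

theorem vanishTo_lin_mul {v : V3} {g : R3} {a : V3} {μ : ℕ} (ha : eval a (lin v) = 0)
    (h : VanishTo g a μ) : VanishTo (lin v * g) a (μ + 1) := by
  intro k hk
  rw [translate_mul, translate_lin, ha, C_0, zero_add]
  cases k with
  | zero => exact homogeneousComponent_mul_lt (lin_isHomogeneous v) one_pos _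
  | succ k =>
    rw [add_comm k 1, homogeneousComponent_mul (lin_isHomogeneous v), h k (by omega), mul_zero]

theorem choose_two_eq (α β : ℕ) :
    (α + β + 2).choose 2 = (α + 1) * (β + 1) + ((α + 1).choose 2 + (β + 1).choose 2) := by
  induction α with
  | zero =>
    have : (0 + β + 2).choose 2 = (β + 1).choose 2 + (β + 1) := by
      rw [zero_add]
      exact choose_two_succ β
    rw [this]
    simp only [zero_add, one_mul]
    have : (1 : ℕ).choose 2 = 0 := rfl
    omega
  | succ α ih =>
    have h1 : (α + 1 + β + 2).choose 2 = (α + β + 2).choose 2 + (α + β + 2) := by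
      rw [(by ring : α + 1 + β + 2 = (α + β + 1) + 2)]
      exact choose_two_succ (α + β + 1)
    have h2 : (α + 1 + 1).choose 2 = (α + 1).choose 2 + (α + 1) := choose_two_succ α
    rw [h1, h2, ih]
    ring

theorem two_lower {p : Fin 2 → V3} (h : cr (p 0) (p 1) ≠ 0) (α β : ℕ) :
    (α + 1) * (β + 1) ≤ finrank ℂ (linSys (α + β + 2) p ![α + 2, β + 2]) := by
  have h1 : (α + 1) * (β + 1) ≤ finrank ℂ (linSys (α + β) p ![α, β]) := by
    have h2 := chi_le (d := α + β) (p := p) (m := ![α, β]) (by
      intro i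
      fin_cases i
      · change α ≤ α + β + 1; omega
      · change β ≤ α + β + 1; omega)
    rw [Fin.sum_univ_two] at h2
    simp only [Matrix.cons_val_zero, Matrix.cons_val_one] at h2
    rw [choose_two_eq] at h2
    omega
  refine h1.trans ?_
  set A : R3 := lin (cr (p 0) (p 1)) * lin (cr (p 0) (p 1)) with hA
  have hA0 : A ≠ 0 := mul_ne_zero (lin_ne_zero h) (lin_ne_zero h)
  rw [← finrank_map_mulLeft hA0]
  apply Submodule.finrank_mono
  rintro _ ⟨g, hg, rfl⟩
  change A * g ∈ _
  refine ⟨?_, ?_⟩
  · have h3 := ((lin_isHomogeneous (cr (p 0) (p 1))).mul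
      (lin_isHomogeneous (cr (p 0) (p 1)))).mul hg.1
    rwa [(by ring : 1 + 1 + (α + β) = α + β + 2)] at h3
  · have e0 : eval (p 0) (lin (cr (p 0) (p 1))) = 0 := eval_xl_left _ _
    have e1 : eval (p 1) (lin (cr (p 0) (p 1))) = 0 := eval_xl_right _ _
    intro i
    fin_cases i
    · change VanishTo (A * g) (p 0) (α + 2)
      rw [hA, mul_assoc]
      exact vanishTo_lin_mul e0 (vanishTo_lin_mul e0 (hg.2 0))
    · change VanishTo (A * g) (p 1) (β + 2)
      rw [hA, mul_assoc]
      exact vanishTo_lin_mul e1 (vanishTo_lin_mul e1 (hg.2 1))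

theorem two_special {p : Fin 2 → V3} (h : cr (p 0) (p 1) ≠ 0) (α β : ℕ) :
    (α + β + 2 + 2).choose 2 < finrank ℂ (linSys (α + β + 2) p ![α + 2, β + 2]) +
      ∑ i, ((![α + 2, β + 2] : Fin 2 → ℕ) i + 1).choose 2 := by
  rw [Fin.sum_univ_two]
  simp only [Matrix.cons_val_zero, Matrix.cons_val_one]
  have h1 := two_lower h α β
  have h2 := choose_two_eq (α + 1) (β + 1)
  have h3 : (α + 1 + (β + 1) + 2).choose 2 = (α + β + 2 + 2).choose 2 := by
    congr 1
    ring
  have h4 : (α + 2 + 1).choose 2 = (α + 1 + 1).choose 2 + (α + 1 + 1) := choose_two_succ (α + 1)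
  have h5 : (β + 2 + 1).choose 2 = (β + 1 + 1).choose 2 + (β + 1 + 1) := choose_two_succ (β + 1)
  have h6 : (α + 1 + 1) * (β + 1 + 1) = (α + 1) * (β + 1) + (α + 1) + (β + 1) + 1 := by ring
  rw [h3] at h2
  omega

end lower

/-- **Special systems are small.** -/
theorem special_le {ι : Type} [Fintype ι] [DecidableEq ι] {d : ℕ} {p : ι → V3}
    (hp : GenericPoints p) {m : ι → ℕ} (hpos : linSys d p m ≠ ⊥)
    (h : finrank ℂ (linSys d p m) + ∑ i, (m i + 1).choose 2 ≠ (d + 2).choose 2) :
    ∃ i j, i ≠ j ∧ finrank ℂ (linSys d p m) ≤ (m i - 1) * (m j - 1) := by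
  obtain ⟨E, hE⟩ := exists_dual p hp
  have hfin : Module.Finite ℂ (linSys d p m) :=
    Submodule.finiteDimensional_of_le (linSys_le d p m)
  have hpos' : 0 < finrank ℂ (linSys d p m) := by
    rw [Nat.pos_iff_ne_zero]
    intro h0
    exact hpos (Submodule.finrank_eq_zero.mp h0)
  have hm : ∀ i, m i ≤ d + 1 := fun i =>
    (le_of_finrank_pos (by omega : finrank ℂ (linSys d p m) ≠ 0) i).trans (Nat.le_succ d)
  have h1 := chi_le (d := d) (p := p) hm
  exact special_bound hE hpos' (by omega)

theorem special_attained {p : Fin 2 → V3} (hp : GenericPoints p) (α β : ℕ) :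
    finrank ℂ (linSys (α + β + 2) p ![α + 2, β + 2]) = (α + 1) * (β + 1) ∧
    (α + β + 2 + 2).choose 2 < finrank ℂ (linSys (α + β + 2) p ![α + 2, β + 2]) +
      ∑ i, ((![α + 2, β + 2] : Fin 2 → ℕ) i + 1).choose 2 := by
  obtain ⟨E, hE⟩ := exists_dual p hp
  have hcr : cr (p 0) (p 1) ≠ 0 := gp2 hE (by decide)
  have h1 := two_lower hcr α β
  have h2 := two_special hcr α β
  refine ⟨le_antisymm ?_ h1, h2⟩
  have hpos : 0 < finrank ℂ (linSys (α + β + 2) p ![α + 2, β + 2]) :=
    lt_of_lt_of_le (Nat.mul_pos (Nat.succ_pos α) (Nat.succ_pos β)) h1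
  obtain ⟨i, j, hij, h3⟩ := special_bound hE hpos h2
  refine h3.trans (le_of_eq ?_)
  fin_cases i <;> fin_cases j
  · exact absurd rfl hij
  · rfl
  · change (β + 2 - 1) * (α + 2 - 1) = (α + 1) * (β + 1)
    rw [mul_comm]
    rfl
  · exact absurd rfl hij

end Pool.Agent.Work.MP_0421d9_ag
end

section
/-!
Automorphisms of the complex numbers permuting generic points, and the resulting symmetry of the
dimensions of linear systems.
-/

set_option linter.unusedSectionVars false

namespace Pool.Agent.Work.MP_0421d9_ag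

open MvPolynomial Module

/-- automorphisms of the complex numbers permuting generic points -/
theorem exists_auto {ι : Type} {p : ι → V3}
    (hp : AlgebraicIndependent ℚ (fun z : ι × Fin 3 => p z.1 z.2)) (π : Equiv.Perm ι) :
    ∃ σ : ℂ ≃+* ℂ, ∀ i k, σ (p i k) = p (π i) k := by
  classical
  obtain ⟨t, ht, ht'⟩ := exists_isTranscendenceBasis_superset hp.coe_range
  let f : ι × Fin 3 → t := fun z => ⟨p z.1 z.2, ht ⟨z, rfl⟩⟩
  have hf : Function.Injective f := fun z z' h => hp.injective (congrArg Subtype.val h)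
  let e₀ : Equiv.Perm (ι × Fin 3) := Equiv.prodCongr π (Equiv.refl _)
  let e : Equiv.Perm t := e₀.extendDomain (Equiv.ofInjective f hf)
  have he : ∀ z, e (f z) = f (e₀ z) := fun z =>
    Equiv.Perm.extendDomain_apply_image e₀ (Equiv.ofInjective f hf) z
  let _ := IsAlgClosed.isAlgClosure_of_transcendence_basis (Subtype.val : t → ℂ) ht'
  let e1 : Algebra.adjoin ℚ (Set.range (Subtype.val : t → ℂ)) ≃+*
      Algebra.adjoin ℚ (Set.range (Subtype.val : t → ℂ)) :=
    (ht'.1.aevalEquiv.symm.toRingEquiv.trans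
      (MvPolynomial.renameEquiv ℚ e).toRingEquiv).trans ht'.1.aevalEquiv.toRingEquiv
  have h1 : ∀ b : t, algebraMap (Algebra.adjoin ℚ (Set.range (Subtype.val : t → ℂ))) ℂ
      (ht'.1.aevalEquiv (X b)) = b := by
    intro b
    rw [ht'.1.algebraMap_aevalEquiv, aeval_X]
  refine ⟨IsAlgClosure.equivOfEquiv ℂ ℂ e1, fun i k => ?_⟩
  have h2 := h1 (f (i, k))
  have h3 : (f (i, k) : ℂ) = p i k := rfl
  rw [← h3, ← h2, IsAlgClosure.equivOfEquiv_algebraMap]
  have h4 : e1 (ht'.1.aevalEquiv (X (f (i, k)))) = ht'.1.aevalEquiv (X (e (f (i, k)))) := by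
    change ht'.1.aevalEquiv (MvPolynomial.renameEquiv ℚ e
      (ht'.1.aevalEquiv.symm (ht'.1.aevalEquiv (X (f (i, k)))))) = _
    rw [AlgEquiv.symm_apply_apply, renameEquiv_apply, rename_X]
  rw [h4, h1, he]
  rfl

section map

variable (σ : ℂ ≃+* ℂ)

theorem map_translate (a : V3) (F : R3) :
    map σ.toRingHom (translate a F) = translate (fun k => σ (a k)) (map σ.toRingHom F) := by
  unfold translate
  induction F using MvPolynomial.induction_on with
  | C c => simp
  | add f g hf hg => rw [map_add, map_add, map_add, map_add, hf, hg]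
  | mul_X f k hf => rw [map_mul, map_mul, map_mul, map_mul, hf]; simp

theorem map_component (n : ℕ) (F : R3) :
    homogeneousComponent n (map σ.toRingHom F) = map σ.toRingHom (homogeneousComponent n F) := by
  ext α
  rw [coeff_homogeneousComponent, coeff_map, coeff_map, coeff_homogeneousComponent]
  split_ifs
  · rfl
  · rw [map_zero]

theorem map_vanishTo {F : R3} {a : V3} {n : ℕ} (h : VanishTo F a n) :
    VanishTo (map σ.toRingHom F) (fun k => σ (a k)) n := by
  intro k hk
  rw [← map_translate, map_component, h k hk, map_zero]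

theorem map_mem_linSys {ι : Type} {d : ℕ} {p : ι → V3} {m : ι → ℕ} {F : R3}
    (h : F ∈ linSys d p m) : map σ.toRingHom F ∈ linSys d (fun i k => σ (p i k)) m :=
  ⟨h.1.map _, fun i => map_vanishTo σ (h.2 i)⟩

theorem map_map_symm (F : R3) : map σ.toRingHom (map σ.symm.toRingHom F) = F := by
  rw [map_map]
  have : σ.toRingHom.comp σ.symm.toRingHom = RingHom.id ℂ := by
    ext x
    simp
  rw [this, map_id]

theorem map_symm_map (F : R3) : map σ.symm.toRingHom (map σ.toRingHom F) = F := by
  rw [map_map]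
  have : σ.symm.toRingHom.comp σ.toRingHom = RingHom.id ℂ := by
    ext x
    simp
  rw [this, map_id]

theorem finrank_linSys_map {ι : Type} (d : ℕ) (p : ι → V3) (m : ι → ℕ) :
    finrank ℂ (linSys d p m) = finrank ℂ (linSys d (fun i k => σ (p i k)) m) := by
  have h1 : ∀ F ∈ linSys d (fun i k => σ (p i k)) m, map σ.symm.toRingHom F ∈ linSys d p m := by
    intro F hF
    have h2 := map_mem_linSys σ.symm hF
    have h3 : (fun (i : ι) (k : Fin 3) => σ.symm (σ (p i k))) = p := by
      funext i k
      exact σ.symm_apply_apply _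
    rwa [h3] at h2
  let j : linSys d p m ≃+ linSys d (fun i k => σ (p i k)) m :=
    { toFun := fun F => ⟨map σ.toRingHom F.1, map_mem_linSys σ F.2⟩
      invFun := fun F => ⟨map σ.symm.toRingHom F.1, h1 F.1 F.2⟩
      left_inv := fun F => Subtype.ext (map_symm_map σ F.1)
      right_inv := fun F => Subtype.ext (map_map_symm σ F.1)
      map_add' := fun F G => Subtype.ext (map_add _ F.1 G.1) }
  have h2 := rank_eq_of_equiv_equiv (fun c : ℂ => σ c) j σ.bijective (by
    intro c F
    apply Subtype.ext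
    change map σ.toRingHom (c • F.1) = σ c • map σ.toRingHom F.1
    rw [smul_eq_C_mul, smul_eq_C_mul, map_mul, map_C]
    rfl)
  unfold Module.finrank
  rw [h2]

theorem linSys_reindex {ι : Type} (d : ℕ) (p : ι → V3) (m : ι → ℕ) (π : Equiv.Perm ι) :
    linSys d (fun i => p (π i)) (fun i => m (π i)) = linSys d p m := by
  ext F
  constructor
  · rintro ⟨h1, h2⟩
    refine ⟨h1, fun i => ?_⟩
    have h3 := h2 (π.symm i)
    simp only [Equiv.apply_symm_apply] at h3
    exact h3
  · rintro ⟨h1, h2⟩
    exact ⟨h1, fun i => h2 (π i)⟩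

/-- symmetry -/
theorem finrank_linSys_perm {ι : Type} (d : ℕ) {p : ι → V3}
    (hp : AlgebraicIndependent ℚ (fun z : ι × Fin 3 => p z.1 z.2)) (m : ι → ℕ)
    (π : Equiv.Perm ι) :
    finrank ℂ (linSys d p (fun i => m (π i))) = finrank ℂ (linSys d p m) := by
  obtain ⟨σ, hσ⟩ := exists_auto hp π
  have h1 := finrank_linSys_map σ d p (fun i => m (π i))
  have h2 : (fun (i : ι) (k : Fin 3) => σ (p i k)) = fun i => p (π i) := by
    funext i k
    exact hσ i k
  rw [h1, h2, linSys_reindex]

end map

end Pool.Agent.Work.MP_0421d9_ag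
end

section
/-!
Uniform systems: a sharp upper bound for the dimension of the incomplete ones.
-/

set_option linter.unusedSectionVars false

namespace Pool.Agent.Work.MP_0421d9_ag

open MvPolynomial Module

section unif

variable {ι : Type} [Fintype ι] [DecidableEq ι] {d : ℕ} {p : ι → V3}
  {E : ι → Fin 3 → Derivation ℚ ℂ ℂ}

/-- spaces dual to the leading forms, when another multiplicity is raised -/
theorem UU_le_up {y : ι → ℕ} (hy : ∀ l, y l ≤ d) {i j : ι} (hji : j ≠ i) :
    UU d p y i ≤ UU d p (up y j) i := by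
  have hui : up y j i = y i := up_ne y hji.symm
  intro V hV
  rw [mem_UU, hui]
  exact ⟨hV.1, J_mono (up_le_succ hy j) (le_up y j) hV.2⟩

theorem UU_eq_up (hE : IsDual p E) {y : ι → ℕ} (hy : ∀ l, y l ≤ d) {i j : ι} (hji : j ≠ i)
    (hyj : y j + 1 ≤ d) (h : cc d p y i ≤ cc d p (up y j) i) :
    UU d p y i = UU d p (up y j) i := by
  have hmu : ∀ l, up y j l ≤ d := by
    intro l
    by_cases hl : l = j
    · rw [hl, up_self]; exact hyj
    · rw [up_ne y hl]; exact hy l
  have hui : up y j i = y i := up_ne y hji.symm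
  apply Submodule.eq_of_le_of_finrank_le (UU_le_up hy hji)
  have h3 := cc_UU (d := d) (p := p) hy i (gp1 hE i)
  have h4 := cc_UU (d := d) (p := p) hmu i (gp1 hE i)
  rw [hui] at h4
  omega

/-- monotonicity in the other multiplicities -/
theorem cc_mono_le {y y' : ι → ℕ} (h : ∀ l, y l ≤ y' l) {i : ι} (hi : y i = y' i) :
    cc d p y' i ≤ cc d p y i := by
  have h1 := Submodule.finrank_sup_add_finrank_inf_eq (linSys d p y') (linSys d p (up y i))
  have h2 : linSys d p y' ⊓ linSys d p (up y i) = linSys d p (up y' i) := by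
    ext F
    constructor
    · rintro ⟨hF1, hF2⟩
      refine ⟨hF1.1, fun x => ?_⟩
      by_cases hx : x = i
      · subst hx
        rw [up_self, ← hi]
        have := hF2.2 x
        rwa [up_self] at this
      · rw [up_ne _ hx]
        exact hF1.2 x
    · intro hF
      refine ⟨linSys_mono (le_up _ _) hF, ?_⟩
      refine linSys_mono (fun x => ?_) hF
      by_cases hx : x = i
      · rw [hx, up_self, up_self, hi]
      · rw [up_ne _ hx, up_ne _ hx]
        exact h x
  have h3 : linSys d p y' ⊔ linSys d p (up y i) ≤ linSys d p y :=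
    sup_le (linSys_mono h) (linSys_mono (le_up _ _))
  have h4 := Submodule.finrank_mono h3
  rw [h2] at h1
  have h5 := cc_add (d := d) (p := p) y i
  have h6 := cc_add (d := d) (p := p) y' i
  omega

/-- iterated unimodality -/
theorem cc_update_le (hE : IsDual p E) {y : ι → ℕ} {i : ι} {c : ℕ} (hc : cc d p y i ≤ c)
    (hci : c ≤ y i) (t : ℕ) : cc d p (Function.update y i (y i + t)) i ≤ c := by
  induction t with
  | zero => rwa [add_zero, Function.update_eq_self]
  | succ t ih =>
    have h1 : Function.update y i (y i + (t + 1)) = up (Function.update y i (y i + t)) i := by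
      unfold up
      rw [Function.update_self, Function.update_idem]
      congr 1
    rw [h1]
    by_cases hf : finrank ℂ (linSys d p (Function.update y i (y i + t))) = 0
    · have h2 : finrank ℂ (linSys d p (up (Function.update y i (y i + t)) i)) ≤
          finrank ℂ (linSys d p (Function.update y i (y i + t))) :=
        Submodule.finrank_mono (linSys_mono (le_up _ _))
      unfold cc
      omega
    · have h2 := cc_up_self hE (le_of_finrank_pos hf) i (by
        rw [Function.update_self]
        omega)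
      omega

end unif

end Pool.Agent.Work.MP_0421d9_ag
end

section
/-!
Uniform systems at five points attaining the bound; final form of the bound.
-/

set_option linter.unusedSectionVars false

namespace Pool.Agent.Work.MP_0421d9_ag

open MvPolynomial Module

theorem vanishTo_mul {f g : R3} {a : V3} {μ ν : ℕ} (hf : VanishTo f a μ) (hg : VanishTo g a ν) :
    VanishTo (f * g) a (μ + ν) := by
  intro k hk
  rw [translate_mul]
  conv_lhs => rw [← sum_homogeneousComponent (translate a f)]
  rw [Finset.sum_mul, map_sum]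
  refine Finset.sum_eq_zero (fun n _ => ?_)
  have hn := homogeneousComponent_isHomogeneous n (translate a f)
  by_cases h1 : n < μ
  · rw [hf n h1, zero_mul, map_zero]
  · by_cases h2 : k < n
    · exact homogeneousComponent_mul_lt hn h2 _
    · obtain ⟨l, rfl⟩ : ∃ l, k = n + l := ⟨k - n, by omega⟩
      rw [homogeneousComponent_mul hn, hg l (by omega), mul_zero]

end Pool.Agent.Work.MP_0421d9_ag
end

section
/-!
Uniform systems: the superabundance of the nonempty ones.
-/

set_option linter.unusedSectionVars false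

namespace Pool.Agent.Work.MP_0421d9_ag

open MvPolynomial Module

section unif

variable {ι : Type} [Fintype ι] [DecidableEq ι] {d : ℕ} {p : ι → V3}
  {E : ι → Fin 3 → Derivation ℚ ℂ ℂ}

/-- dimension plus the number of conditions -/
noncomputable def gg (d : ℕ) (p : ι → V3) (y : ι → ℕ) : ℕ :=
  finrank ℂ (linSys d p y) + ∑ l, (y l + 1).choose 2

theorem gg_up (y : ι → ℕ) (i : ι) : gg d p (up y i) + cc d p y i = gg d p y + (y i + 1) := by
  unfold gg
  rw [sum_choose_up]
  have := cc_add (d := d) (p := p) y i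
  omega

end unif

end Pool.Agent.Work.MP_0421d9_ag
end

section
/-!
Nonspeciality, when the points are dropped one after the other.
-/

set_option linter.unusedSectionVars false

namespace Pool.Agent.Work.MP_0421d9_ag

open MvPolynomial

variable {ι κ : Type} [Fintype ι] [Fintype κ] [DecidableEq ι] [DecidableEq κ]

variable {d : ℕ} {P : ι ⊕ κ → V3} {E : ι ⊕ κ → Fin 3 → Derivation ℚ ℂ ℂ} {m : ι → ℕ} {F : R3}

open Classical in
/-- restriction of the multiplicities to a set of indices -/
noncomputable def rs (W : ι → Prop) (m : ι → ℕ) : ι → ℕ := fun l => if W l then m l else 0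

theorem rs_of {W : ι → Prop} {m : ι → ℕ} {l : ι} (h : W l) : rs W m l = m l := if_pos h

theorem rs_not {W : ι → Prop} {m : ι → ℕ} {l : ι} (h : ¬ W l) : rs W m l = 0 := if_neg h

theorem rs_le (W : ι → Prop) (m : ι → ℕ) (l : ι) : rs W m l ≤ m l := by
  by_cases h : W l
  · rw [rs_of h]
  · rw [rs_not h]; exact Nat.zero_le _

theorem Psi_mem_J_rs {p : ι → V3} {W : ι → Prop} {G : ι → R3} (hG : G ∈ HH m)
    (hs : ∀ l, ¬ W l → G l = 0) : Psi d p m G ∈ J d p (rs W m) := by
  rw [Psi_apply]
  apply Submodule.sum_mem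
  intro l _
  by_cases h : W l
  · have h1 := mem_HH.mp hG l
    rw [← rs_of (m := m) h] at h1
    have h2 := summand_mem_J (d := d) (p := p) l h1
    rwa [rs_of h] at h2
  · rw [hs l h, mul_zero]
    exact zero_mem _

namespace Rigid

/-- Divisibility lemma, relative to a set of kept indices -/
theorem div' (S : Rigid d P E m F) (hsq : Squarefree F) {W : ι → Prop} {i : ι} (hW : W i)
    (hfull : 3 ≤ m i → Full d (fun i => P (Sum.inl i)) (rs W m) i) {G : R3} (hG : G ∈ Hm (m i))
    (ha : ∀ v, B (lin (P (Sum.inl i)) ^ (d - m i) * (lin v * G)) F = 0)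
    (hb : 3 ≤ m i → ∃ v, cr (P (Sum.inl i)) v ≠ 0 ∧
      lin (P (Sum.inl i)) ^ (d - m i) * (lin v * G) ∈ J d (fun i => P (Sum.inl i)) (rs W m)) :
    lin (P (Sum.inl i)) ∣ G := by
  have hp : P (Sum.inl i) ≠ 0 := gp1 S.hE _
  by_cases h3 : 3 ≤ m i
  · obtain ⟨v, hv, hJ⟩ := hb h3
    apply lin_dvd_of_mul hp hv
    apply hfull h3 _ _ (by rw [rs_of hW]; exact hJ)
    rw [rs_of hW]
    obtain ⟨n, hn⟩ : ∃ n, m i = n + 1 := ⟨m i - 1, by omega⟩
    rw [hn] at hG ⊢
    rw [mem_Hm_succ] at hG
    have := (lin_isHomogeneous v).mul hG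
    rwa [add_comm] at this
  · have hcases : m i = 0 ∨ m i = 1 ∨ m i = 2 := by omega
    rcases hcases with h | h | h
    · rw [h, mem_Hm_zero] at hG
      rw [hG]
      exact dvd_zero _
    · rw [h] at hG
      have hG' : G.IsHomogeneous 0 := hG
      have h0 : G = C (coeff 0 G) :=
        (MvPolynomial.totalDegree_eq_zero_iff_eq_C).mp (Nat.le_zero.mp hG'.totalDegree_le)
      by_cases hc : coeff 0 G = 0
      · rw [h0, hc, C_0]
        exact dvd_zero _
      · exfalso
        apply S.R1 i h
        intro v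
        have h1 := ha v
        have h2 : lin (P (Sum.inl i)) ^ (d - m i) * (lin v * G) =
            C (coeff 0 G) * (lin (P (Sum.inl i)) ^ (d - 1) * lin v) := by
          rw [h, mul_comm (lin v), ← mul_assoc, mul_comm _ G, mul_assoc, ← h0]
        rw [h2, B_C_mul_left] at h1
        exact (mul_eq_zero.mp h1).resolve_left hc
    · rw [h] at hG
      have hG' : G.IsHomogeneous 1 := hG
      obtain ⟨w, rfl⟩ := eq_lin_of_isHomogeneous hG'
      have h1 : cr (P (Sum.inl i)) w = 0 := by
        apply S.R2 hsq i h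
        intro v
        have := ha v
        rwa [h, mul_comm (lin v)] at this
      obtain ⟨s, rfl⟩ := exists_smul_of_cr_eq_zero hp h1
      rw [lin_smul]
      exact Dvd.intro_left _ rfl

end Rigid

end Pool.Agent.Work.MP_0421d9_ag
end

section
/-!
Smoothness away from the multiple points, when the points are dropped one after the other.
-/

set_option linter.unusedSectionVars false

namespace Pool.Agent.Work.MP_0421d9_ag

open MvPolynomial

variable {ι κ : Type} [Fintype ι] [Fintype κ] [DecidableEq ι] [DecidableEq κ]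

variable {d : ℕ} {P : ι ⊕ κ → V3} {E : ι ⊕ κ → Fin 3 → Derivation ℚ ℂ ℂ} {m : ι → ℕ} {F : R3}

namespace Rigid

theorem cDq (D : Derivation ℚ ℂ ℂ) (q : V3) (d' : ℕ) : cD D (lin q ^ (d' + 1)) =
    C ((d' + 1 : ℕ) : ℂ) * (lin q ^ d' * lin (fun l => D (q l))) := by
  rw [cD_lin_pow_eq, Nat.add_sub_cancel]

/-- the point moves when a point with a nonzero divisible component moves -/
theorem moves {d' : ℕ} (S : Rigid (d' + 1) P E m F)
    (hN : ∀ G ∈ HH m, Psi (d' + 1) (fun i => P (Sum.inl i)) m G = 0 → G = 0)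
    {q : V3} (hqne : q ≠ 0) {G : ι → R3} (hG : G ∈ HH m)
    (hGq : Psi (d' + 1) (fun i => P (Sum.inl i)) m G = lin q ^ (d' + 1))
    {j : ι} {s e : ℕ} {G₁ : R3} (h1 : G j = lin (P (Sum.inl j)) ^ (s + 1) * G₁)
    (h2 : G₁.IsHomogeneous e) (h3 : m j = s + 1 + e + 1) (h4 : ¬ lin (P (Sum.inl j)) ∣ G₁)
    {v : V3} (hv : cr (P (Sum.inl j)) v ≠ 0) :
    cr q (fun l => mv E (Sum.inl j) v (q l)) ≠ 0 := by
  intro hcr
  obtain ⟨c', hc'⟩ := exists_smul_of_cr_eq_zero hqne hcr
  refine S.contra hN hG h1 h2 h3 h4 hv (X := (((d' + 1 : ℕ) : ℂ) * c') • G)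
    (Submodule.smul_mem _ _ hG) ?_ ?_
  · change Psi (d' + 1) _ m _ = cD _ (Psi (d' + 1) _ m G)
    rw [map_smul, hGq, cDq, hc', lin_smul, smul_eq_C_mul, map_mul, pow_succ]
    ring
  · rw [Pi.smul_apply, smul_eq_C_mul, h1]
    exact Dvd.dvd.mul_left (Dvd.intro _ rfl) _

/-- two different divisible components cannot both be nonzero -/
theorem two_nonzero {d' : ℕ} (S : Rigid (d' + 1) P E m F)
    (hN : ∀ G ∈ HH m, Psi (d' + 1) (fun i => P (Sum.inl i)) m G = 0 → G = 0)
    {q : V3} (hqne : q ≠ 0) {G : ι → R3} (hG : G ∈ HH m)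
    (hGq : Psi (d' + 1) (fun i => P (Sum.inl i)) m G = lin q ^ (d' + 1))
    {j j' : ι} (hjj : j ≠ j') {s e : ℕ} {G₁ : R3} (h1 : G j = lin (P (Sum.inl j)) ^ (s + 1) * G₁)
    (h2 : G₁.IsHomogeneous e) (h3 : m j = s + 1 + e + 1) (h4 : ¬ lin (P (Sum.inl j)) ∣ G₁)
    {s' e' : ℕ} {G₂ : R3} (h1' : G j' = lin (P (Sum.inl j')) ^ (s' + 1) * G₂)
    (h2' : G₂.IsHomogeneous e') (h3' : m j' = s' + 1 + e' + 1)
    (h4' : ¬ lin (P (Sum.inl j')) ∣ G₂) : False := by
  obtain ⟨v, hv⟩ := exists_cr_ne (gp1 S.hE (Sum.inl j))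
  -- the motion of `j'` moves `q` in all directions
  have hsurj := exists_solution (gp1 S.hE (Sum.inl j')) hqne (QL E (Sum.inl j') q) (by
    intro v' c' hv'
    by_contra hcr
    apply S.moves hN hqne hG hGq h1' h2' h3' h4' hcr
    have hv'' : (fun l => mv E (Sum.inl j') v' (q l)) = c' • q := hv'
    rw [hv'']
    exact cr_smul_self c' q)
    (QL E (Sum.inl j) q v)
  obtain ⟨v', c', hvc⟩ := hsurj
  have hvc' : (fun l => mv E (Sum.inl j') v' (q l)) =
      (fun l => mv E (Sum.inl j) v (q l)) + c' • q := hvc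
  have h5 := cD_Psi_div (m := m) (d := d' + 1) S.hE j' v' h1'
  set Y := Function.update (fun i => cD (mv E (Sum.inl j') v') (G i)) j'
        (lin (P (Sum.inl j')) ^ s' * (C ((d' + 1 + 1 - m j' + (s' + 1) : ℕ) : ℂ) *
          (lin v' * G₂) + lin (P (Sum.inl j')) * cD (mv E (Sum.inl j') v') G₂)) with hY
  have hYm : Y ∈ HH m := update_mem_HH (mv E (Sum.inl j') v') hG
      (comp_mem_Hm (mv E (Sum.inl j') v') _ h2' h3')
  refine S.contra hN hG h1 h2 h3 h4 hv (X := Y - (((d' + 1 : ℕ) : ℂ) * c') • G)
    (Submodule.sub_mem _ hYm (Submodule.smul_mem _ _ hG)) ?_ ?_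
  · have h5' : cD (mv E (Sum.inl j') v') (Psi (d' + 1) (fun i => P (Sum.inl i)) m G) =
      Psi (d' + 1) (fun i => P (Sum.inl i)) m Y := h5
    rw [map_sub, ← h5', map_smul, hGq, cDq, cDq, hvc', lin_add, lin_smul, smul_eq_C_mul,
      map_mul, pow_succ]
    ring
  · rw [Pi.sub_apply, hY, Function.update_of_ne hjj, Pi.smul_apply, smul_eq_C_mul, h1, cD_mul,
      cD_lin_pow_ne S.hE (by simpa using hjj), zero_mul, zero_add]
    exact dvd_sub (Dvd.intro _ rfl) (Dvd.dvd.mul_left (Dvd.intro _ rfl) _)

theorem exists_fact (S : Rigid d P E m F) {G : ι → R3} (hG' : ∀ i, G i ∈ Hm (m i)) {j : ι}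
    (hdiv : lin (P (Sum.inl j)) ∣ G j) (hne : G j ≠ 0) : ∃ (s e : ℕ) (G' : R3),
      G j = lin (P (Sum.inl j)) ^ (s + 1) * G' ∧ G'.IsHomogeneous e ∧ m j = s + 1 + e + 1 ∧
      ¬ lin (P (Sum.inl j)) ∣ G' := by
  have h1 := hG' j
  rcases Nat.eq_zero_or_pos (m j) with hz | hz
  · rw [hz, mem_Hm_zero] at h1
    exact absurd h1 hne
  · obtain ⟨n, hn⟩ : ∃ n, m j = n + 1 := ⟨m j - 1, by omega⟩
    rw [hn, mem_Hm_succ] at h1
    obtain ⟨s, e, G', hse, hjG, hhom, hnd⟩ :=
      exists_lin_factorization (p := P (Sum.inl j)) n (G j) h1 hne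
    cases s with
    | zero =>
      exfalso
      apply hnd
      have := hdiv
      rwa [hjG, pow_zero, one_mul] at this
    | succ s => exact ⟨s, e, G', hjG, hhom, by omega, hnd⟩

end Rigid

end Pool.Agent.Work.MP_0421d9_ag
end

section
/-!
The main theorem.
-/

set_option linter.unusedSectionVars false

namespace Pool.Agent.Work.MP_0421d9_ag

open MvPolynomial Module

section config

variable {r n d : ℕ} (p : Fin r → V3) (s : Fin n → V3) (t : Fin 4 → V3) (m : Fin r → ℕ)

/-- multiple points and dummy points -/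
abbrev IT (m : Fin r → ℕ) : Type := {i : Fin r // m i ≠ 1} ⊕ Fin 4

/-- simple points -/
abbrev KT (m : Fin r → ℕ) (n : ℕ) : Type := {i : Fin r // m i = 1} ⊕ Fin n

/-- all points -/
noncomputable def PP : IT m ⊕ KT m n → V3 :=
  Sum.elim (Sum.elim (fun i => p i) t) (Sum.elim (fun i => p i) s)

/-- multiplicities -/
def mm : IT m → ℕ := Sum.elim (fun i => m i) (fun _ => 0)

theorem PP_generic (h : AlgebraicIndependent ℚ
    (fun z : ((Fin r ⊕ Fin n) ⊕ Fin 4) × Fin 3 => Sum.elim (Sum.elim p s) t z.1 z.2)) :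
    AlgebraicIndependent ℚ (fun z : (IT m ⊕ KT m n) × Fin 3 => PP p s t m z.1 z.2) := by
  let e : IT m ⊕ KT m n → (Fin r ⊕ Fin n) ⊕ Fin 4 :=
    Sum.elim (Sum.elim (fun i => Sum.inl (Sum.inl i.1)) (fun x => Sum.inr x))
      (Sum.elim (fun i => Sum.inl (Sum.inl i.1)) (fun x => Sum.inl (Sum.inr x)))
  have he : Function.Injective e := by
    rintro ((⟨i, hi⟩ | x) | (⟨i, hi⟩ | x)) ((⟨j, hj⟩ | y) | (⟨j, hj⟩ | y)) h <;>
      simp [e] at h ⊢ <;> first | exact h | (subst h; exact absurd hj hi) |
        (subst h; exact absurd hi hj)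
  have h1 : (fun z : (IT m ⊕ KT m n) × Fin 3 => PP p s t m z.1 z.2) =
      (fun z : ((Fin r ⊕ Fin n) ⊕ Fin 4) × Fin 3 => Sum.elim (Sum.elim p s) t z.1 z.2) ∘
        (fun z : (IT m ⊕ KT m n) × Fin 3 => (e z.1, z.2)) := by
    funext z
    rcases z with ⟨(i | x) | (i | x), l⟩ <;> rfl
  rw [h1]
  apply h.comp
  rintro ⟨x, l⟩ ⟨y, l'⟩ h
  simp only [Prod.mk.injEq] at h
  rw [he h.1, h.2]

theorem linSys_core : linSys d (fun i => PP p s t m (Sum.inl i)) (mm m) =
    linSys d p (dropSimple m) := by
  ext F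
  constructor
  · rintro ⟨h1, h2⟩
    refine ⟨h1, fun i => ?_⟩
    unfold dropSimple
    by_cases hi : m i = 1
    · rw [if_pos hi]; exact vanishTo_zero _ _
    · rw [if_neg hi]; exact h2 (Sum.inl ⟨i, hi⟩)
  · rintro ⟨h1, h2⟩
    refine ⟨h1, ?_⟩
    rintro (⟨i, hi⟩ | x)
    · have := h2 i
      unfold dropSimple at this
      rw [if_neg hi] at this
      exact this
    · exact vanishTo_zero _ _

theorem linSys_core_update (i : {i : Fin r // m i ≠ 1}) :
    linSys d (fun i => PP p s t m (Sum.inl i))
      (Function.update (mm m) (Sum.inl i) (mm m (Sum.inl i) + 1)) =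
    linSys d p (Function.update (dropSimple m) i.1 (m i.1 + 1)) := by
  ext F
  constructor
  · rintro ⟨h1, h2⟩
    refine ⟨h1, fun j => ?_⟩
    by_cases hji : j = i.1
    · subst hji
      rw [Function.update_self]
      have := h2 (Sum.inl i)
      rw [Function.update_self] at this
      exact this
    · rw [Function.update_of_ne hji]
      unfold dropSimple
      by_cases hj : m j = 1
      · rw [if_pos hj]; exact vanishTo_zero _ _
      · rw [if_neg hj]
        have := h2 (Sum.inl ⟨j, hj⟩)
        rw [Function.update_of_ne (by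
          intro h
          exact hji (congrArg Subtype.val (Sum.inl.inj h)))] at this
        exact this
  · rintro ⟨h1, h2⟩
    refine ⟨h1, ?_⟩
    rintro (⟨j, hj⟩ | x)
    · by_cases hji : j = i.1
      · subst hji
        have := h2 i.1
        rw [Function.update_self] at this
        change VanishTo F _ (Function.update (mm m) (Sum.inl i) _ (Sum.inl i))
        rw [Function.update_self]
        exact this
      · have := h2 j
        rw [Function.update_of_ne hji] at this
        unfold dropSimple at this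
        rw [if_neg hj] at this
        rw [Function.update_of_ne (by
          intro h
          exact hji (congrArg Subtype.val (Sum.inl.inj h)))]
        exact this
    · rw [Function.update_of_ne (by simp)]
      exact vanishTo_zero _ _

/-- the given simple points -/
def T1 (m : Fin r → ℕ) (n : ℕ) : Finset (KT m n) :=
  (Finset.univ : Finset {i : Fin r // m i = 1}).map ⟨Sum.inl, Sum.inl_injective⟩

theorem linSys_T1 : linSys d (PP p s t m) (MT (mm m) (T1 m n)) = linSys d p m := by
  have hT : ∀ x : KT m n, x ∈ T1 m n ↔ ∃ i, x = Sum.inl i := by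
    intro x
    unfold T1
    simp only [Finset.mem_map, Finset.mem_univ, Function.Embedding.coeFn_mk, true_and]
    exact ⟨fun ⟨i, hi⟩ => ⟨i, hi.symm⟩, fun ⟨i, hi⟩ => ⟨i, hi.symm⟩⟩
  ext F
  constructor
  · rintro ⟨h1, h2⟩
    refine ⟨h1, fun i => ?_⟩
    by_cases hi : m i = 1
    · have := h2 (Sum.inr (Sum.inl ⟨i, hi⟩))
      change VanishTo F (p i) (if Sum.inl ⟨i, hi⟩ ∈ T1 m n then 1 else 0) at this
      rw [if_pos ((hT _).mpr ⟨_, rfl⟩)] at this
      rwa [hi]
    · exact h2 (Sum.inl (Sum.inl ⟨i, hi⟩))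
  · rintro ⟨h1, h2⟩
    refine ⟨h1, ?_⟩
    rintro ((⟨i, hi⟩ | x) | (⟨i, hi⟩ | x))
    · exact h2 i
    · exact vanishTo_zero _ _
    · have := h2 i
      rw [hi] at this
      change VanishTo F (p i) (if Sum.inl ⟨i, hi⟩ ∈ T1 m n then 1 else 0)
      rwa [if_pos ((hT _).mpr ⟨_, rfl⟩)]
    · change VanishTo F _ (if Sum.inr x ∈ T1 m n then 1 else 0)
      rw [if_neg (by
        rw [hT]
        rintro ⟨i, hi⟩
        exact absurd hi (by simp))]
      exact vanishTo_zero _ _

theorem MT_univ : (MT (mm m) (Finset.univ : Finset (KT m n))) =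
    Sum.elim (mm m) (fun _ => 1) := by
  funext x
  rcases x with x | x
  · rfl
  · change (if x ∈ Finset.univ then 1 else 0) = 1
    rw [if_pos (Finset.mem_univ x)]

theorem mem_all {F : R3} : F ∈ linSys d (PP p s t m) (Sum.elim (mm m) (fun _ => 1)) ↔
    F ∈ linSys d p m ∧ ∀ k, eval (s k) F = 0 := by
  constructor
  · rintro ⟨h1, h2⟩
    refine ⟨⟨h1, fun i => ?_⟩, fun k => ?_⟩
    · by_cases hi : m i = 1
      · rw [hi]
        exact h2 (Sum.inr (Sum.inl ⟨i, hi⟩))
      · exact h2 (Sum.inl (Sum.inl ⟨i, hi⟩))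
    · exact vanishTo_one_iff.mp (h2 (Sum.inr (Sum.inr k)))
  · rintro ⟨⟨h1, h2⟩, h3⟩
    refine ⟨h1, ?_⟩
    rintro ((⟨i, hi⟩ | x) | (⟨i, hi⟩ | x))
    · exact h2 i
    · exact vanishTo_zero _ _
    · have := h2 i
      rw [hi] at this
      exact this
    · exact vanishTo_one_iff.mpr (h3 x)

end config

end Pool.Agent.Work.MP_0421d9_ag
end

section
/-!
The final statement.
-/

set_option linter.unusedSectionVars false

namespace Pool.Agent.Work.MP_0421d9_ag

open MvPolynomial Module

section final

variable {r n d : ℕ} {p : Fin r → V3} {s : Fin n → V3} {t : Fin 4 → V3} {m : Fin r → ℕ}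

theorem card_T1 : (T1 m n).card = Fintype.card {i : Fin r // m i = 1} := by
  unfold T1
  rw [Finset.card_map, Finset.card_univ]

/-- dimension of the rigid system -/
theorem finrank_all {E : IT m ⊕ KT m n → Fin 3 → Derivation ℚ ℂ ℂ} (hE : IsDual (PP p s t m) E)
    (hm : ∀ i, m i ≤ d) (hn : n + 1 = finrank ℂ (linSys d p m)) :
    finrank ℂ (linSys d (PP p s t m) (Sum.elim (mm m) (fun _ => 1))) = 1 ∧
    finrank ℂ (linSys d (fun i => PP p s t m (Sum.inl i)) (mm m)) =
      finrank ℂ (linSys d p m) + Fintype.card {i : Fin r // m i = 1} := by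
  have hmm : ∀ x, mm m x ≤ d + 1 := by
    rintro (⟨i, hi⟩ | x)
    · exact (hm i).trans (Nat.le_succ d)
    · exact Nat.zero_le _
  have h1 := finrank_drop hE hmm (Finset.univ : Finset (KT m n))
  have h2 := finrank_drop hE hmm (T1 m n)
  rw [linSys_T1, card_T1] at h2
  rw [MT_univ, Finset.card_univ, Fintype.card_sum, Fintype.card_fin] at h1
  constructor <;> omega

theorem rigid_of {E : IT m ⊕ KT m n → Fin 3 → Derivation ℚ ℂ ℂ} (hE : IsDual (PP p s t m) E)
    (hm : ∀ i, m i ≤ d) (hn : n + 1 = finrank ℂ (linSys d p m)) {F : R3}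
    (hF : F ∈ linSys d p m) (hF0 : F ≠ 0) (hs : ∀ k, eval (s k) F = 0) :
    Rigid d (PP p s t m) E (mm m) F := by
  have h1 := (finrank_all hE hm hn).1
  have hFm : F ∈ linSys d (PP p s t m) (Sum.elim (mm m) (fun _ => 1)) :=
    (mem_all p s t m).mpr ⟨hF, hs⟩
  refine ⟨hE, hFm, hF0, ?_⟩
  intro f hf
  have h2 := (finrank_eq_one_iff_of_nonzero' (⟨F, hFm⟩ : linSys d (PP p s t m)
    (Sum.elim (mm m) (fun _ => 1))) (by
      intro h
      exact hF0 (congrArg Subtype.val h))).mp h1 ⟨f, hf⟩
  obtain ⟨c, hc⟩ := h2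
  refine ⟨c, ?_⟩
  have := congrArg Subtype.val hc
  rw [← smul_eq_C_mul]
  exact this.symm

theorem exists_rigid {E : IT m ⊕ KT m n → Fin 3 → Derivation ℚ ℂ ℂ}
    (hE : IsDual (PP p s t m) E)
    (hm : ∀ i, m i ≤ d) (hn : n + 1 = finrank ℂ (linSys d p m)) :
    ∃ F ∈ linSys d p m, F ≠ 0 ∧ ∀ k, eval (s k) F = 0 := by
  have h1 := (finrank_all hE hm hn).1
  obtain ⟨⟨F, hF⟩, hF0⟩ := Module.finrank_pos_iff_exists_ne_zero.mp (h1 ▸ one_pos)
  obtain ⟨h2, h3⟩ := (mem_all p s t m).mp hF
  exact ⟨F, h2, fun h => hF0 (Subtype.ext h), h3⟩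

/-- choice of the three special indices -/
theorem exists_three (m : Fin r → ℕ) (I : Finset (Fin r)) (hI : I.card ≤ 3) :
    ∃ a b c : IT m, a ≠ b ∧ a ≠ c ∧ b ≠ c ∧ (∃ e, e ≠ a ∧ e ≠ b ∧ e ≠ c) ∧
      ∀ i : {i : Fin r // m i ≠ 1}, i.1 ∈ I → (Sum.inl i : IT m) = a ∨ (Sum.inl i : IT m) = b ∨
        (Sum.inl i : IT m) = c := by
  classical
  set I' : Finset (IT m) := (I.subtype (fun i => m i ≠ 1)).map ⟨Sum.inl, Sum.inl_injective⟩
    with hI'
  have h1 : I'.card ≤ 3 := by
    rw [hI', Finset.card_map, Finset.card_subtype]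
    exact (Finset.card_filter_le _ _).trans hI
  have h4 : 4 ≤ Fintype.card (IT m) := by
    rw [Fintype.card_sum, Fintype.card_fin]
    omega
  obtain ⟨T, hT, hTc⟩ := Finset.exists_superset_card_eq h1 (by omega : 3 ≤ Fintype.card (IT m))
  obtain ⟨a, b, c, hab, hac, hbc, hTabc⟩ := Finset.card_eq_three.mp hTc
  refine ⟨a, b, c, hab, hac, hbc, ?_, ?_⟩
  · obtain ⟨e, -, he⟩ := Finset.exists_mem_notMem_of_card_lt_card
      (s := T) (t := Finset.univ) (by rw [hTc, Finset.card_univ]; omega)
    rw [hTabc] at he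
    simp only [Finset.mem_insert, Finset.mem_singleton, not_or] at he
    exact ⟨e, he.1, he.2.1, he.2.2⟩
  · intro i hi
    have h5 : (Sum.inl i : IT m) ∈ I' := by
      rw [hI', Finset.mem_map]
      exact ⟨i, Finset.mem_subtype.mpr hi, rfl⟩
    have h6 := hT h5
    rw [hTabc] at h6
    simpa only [Finset.mem_insert, Finset.mem_singleton] using h6

theorem hfull_of (hm : ∀ i, m i ≤ d) (hP : ∀ x, PP p s t m x ≠ 0) {I : Finset (Fin r)}
    (hcomplete : ∀ i ∉ I, 3 ≤ m i →
      finrank ℂ (linSys d p (dropSimple m)) =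
        finrank ℂ (linSys d p (Function.update (dropSimple m) i (m i + 1))) + (m i + 1))
    {a b c : IT m} (habc : ∀ i : {i : Fin r // m i ≠ 1}, i.1 ∈ I → (Sum.inl i : IT m) = a ∨
      (Sum.inl i : IT m) = b ∨ (Sum.inl i : IT m) = c) :
    ∀ j, j ≠ a → j ≠ b → j ≠ c → 3 ≤ mm m j →
      Rigid.Full d (fun i => PP p s t m (Sum.inl i)) (mm m) j := by
  rintro (i | x) hja hjb hjc h3
  · apply full_of_finrank
    · rintro (⟨i, hi⟩ | x)
      · exact hm i
      · exact Nat.zero_le _
    · exact hP _
    · rw [linSys_core, linSys_core_update]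
      apply hcomplete i.1
      · intro hiI
        rcases habc i hiI with h | h | h
        · exact hja h
        · exact hjb h
        · exact hjc h
      · exact h3
  · change 3 ≤ 0 at h3
    omega

theorem cr_ne_zero_of {a q : V3} (ha : a ≠ 0) (h : ∀ c : ℂ, q ≠ c • a) : cr a q ≠ 0 := by
  intro h0
  obtain ⟨c, hc⟩ := exists_smul_of_cr_eq_zero ha h0
  exact h c hc

theorem smooth_of {E : IT m ⊕ KT m n → Fin 3 → Derivation ℚ ℂ ℂ}
    {F : R3} (S : Rigid d (PP p s t m) E (mm m) F) (hFp : F ∈ linSys d p m) (hsq : Squarefree F)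
    {a b c : IT m} (hab : a ≠ b) (hac : a ≠ c) (hbc : b ≠ c) (hex : ∃ e, e ≠ a ∧ e ≠ b ∧ e ≠ c)
    (hfull : ∀ j, j ≠ a → j ≠ b → j ≠ c → 3 ≤ mm m j →
      Rigid.Full d (fun i => PP p s t m (Sum.inl i)) (mm m) j) :
    SmoothOnBlowup p m F := by
  refine ⟨?_, ?_⟩
  · intro q hq hqp hq0
    by_contra hcon
    push Not at hcon
    apply S.no_singularity hsq hab hac hbc hex hfull (q := q) _ hq0 hcon
    rintro (⟨i, hi⟩ | x)
    · exact cr_ne_zero_of (gp1 S.hE _) (hqp i)
    · intro h0
      obtain ⟨c, hc⟩ := exists_smul_of_cr_eq_zero (gp1 S.hE _) h0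
      have hc0 : c ≠ 0 := by
        rintro rfl
        exact hq (by rw [hc, zero_smul])
      apply S.R0 (Sum.inr x) rfl
      have h1 := B_lin_pow S.hom q
      rw [hq0, mul_zero, hc, lin_smul, mul_pow, ← map_pow, B_C_mul_left] at h1
      exact (mul_eq_zero.mp h1).resolve_left (pow_ne_zero _ hc0)
  · intro i u w hlin
    have hpu : LinearIndependent ℂ ![p i, u] := by
      have h1 := hlin.comp ![0, 1] (by decide)
      convert h1 using 1
      ext j
      fin_cases j <;> rfl
    have hpi : p i ≠ 0 := hlin.ne_zero 0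
    have hu : cr (p i) u ≠ 0 := by
      intro h0
      obtain ⟨c, hc⟩ := exists_smul_of_cr_eq_zero hpi h0
      have h1 := (LinearIndependent.pair_iff.mp hpu) c (-1) (by rw [hc]; simp)
      simp at h1
    have hdet : eval w (xl (p i) u) ≠ 0 := by
      intro h0
      obtain ⟨x, y, hxy⟩ := exists_comb hu h0
      have h1 := Fintype.linearIndependent_iff.mp hlin ![x, y, -1] (by
        rw [Fin.sum_univ_three]
        simp only [Matrix.cons_val]
        rw [hxy]
        module)
      have h2 := h1 2
      simp at h2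
    have hmi : m i ≤ d := by
      have := S.hF0
      exact le_of_vanishTo S.hom S.hF0 (hFp.2 i)
    apply chart S.hom hmi (hFp.2 i) hdet
    intro hbad
    by_cases hi : m i = 1
    · -- simple point
      apply not_vanishTo_succ S.hE S.hM S.hF S.hF0 S.huniq (Sum.inr (Sum.inl ⟨i, hi⟩))
      change VanishTo F (p i) (1 + 1)
      rw [vanishTo_iff S.hom _ (by omega)]
      intro G hG
      rw [mem_Hm_succ] at hG
      obtain ⟨v, rfl⟩ := eq_lin_of_isHomogeneous hG
      have h1 := hbad.2 (by omega) v
      rw [hi, Nat.sub_self, pow_zero, one_mul] at h1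
      rwa [(by omega : d + 1 - (1 + 1) = d - 1)]
    · exact S.no_bad hsq hab hac hbc hex hfull (i := Sum.inl ⟨i, hi⟩) hu hbad

end final

/-- **Main theorem.** -/
theorem main_theorem {r d : ℕ} (p : Fin r → Fin 3 → ℂ) (hp : GenericPoints p) (m : Fin r → ℕ)
    (I : Finset (Fin r)) (hI : I.card ≤ 3)
    (hcomplete : ∀ i ∉ I, 3 ≤ m i →
      finrank ℂ (linSys d p (dropSimple m)) =
        finrank ℂ (linSys d p (Function.update (dropSimple m) i (m i + 1))) + (m i + 1))
    (hred : ∃ F ∈ linSys d p m, Squarefree F) :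
    finrank ℂ (linSys d p m) + ∑ i, (m i + 1).choose 2 = (d + 2).choose 2 ∧
    (∀ s : Fin (finrank ℂ (linSys d p m) - 1) → Fin 3 → ℂ, GenericPoints (Sum.elim p s) →
      ∀ F ∈ linSys d p m, F ≠ 0 → (∀ k, eval (s k) F = 0) → SmoothOnBlowup p m F) ∧
    (∃ F ∈ linSys d p m, F ≠ 0 ∧ SmoothOnBlowup p m F) := by
  obtain ⟨f₀, hf₀, hsq₀⟩ := hred
  have hm : ∀ i, m i ≤ d := fun i => le_of_vanishTo hf₀.1 hsq₀.ne_zero (hf₀.2 i)
  have hpos : 0 < finrank ℂ (linSys d p m) := by
    rw [Module.finrank_pos_iff_exists_ne_zero]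
    exact ⟨⟨f₀, hf₀⟩, fun h => hsq₀.ne_zero (congrArg Subtype.val h)⟩
  set n := finrank ℂ (linSys d p m) - 1 with hn
  have hn' : n + 1 = finrank ℂ (linSys d p m) := by omega
  obtain ⟨a, b, c, hab, hac, hbc, hex, habc⟩ := exists_three m I hI
  -- the construction for given simple points
  have key : ∀ s : Fin n → V3, GenericPoints (Sum.elim p s) →
      ∃ (t : Fin 4 → V3) (E : IT m ⊕ KT m n → Fin 3 → Derivation ℚ ℂ ℂ),
        IsDual (PP p s t m) E := by
    intro s hs
    obtain ⟨t, ht⟩ := exists_extension (κ := Fin 4) (Sum.elim p s) hs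
    obtain ⟨E, hE⟩ := exists_dual _ (PP_generic p s t m ht)
    exact ⟨t, E, hE⟩
  have hf₀core : f₀ ∈ linSys d p (dropSimple m) := by
    refine ⟨hf₀.1, fun i => ?_⟩
    apply (hf₀.2 i).mono
    unfold dropSimple
    split_ifs <;> omega
  have hsmooth : ∀ s : Fin n → V3, GenericPoints (Sum.elim p s) →
      ∀ F ∈ linSys d p m, F ≠ 0 → (∀ k, eval (s k) F = 0) → SmoothOnBlowup p m F := by
    intro s hs F hF hF0 hFs
    obtain ⟨t, E, hE⟩ := key s hs
    have S := rigid_of hE hm hn' hF hF0 hFs
    have hsq := S.squarefree (by rw [linSys_core]; exact hf₀core) hsq₀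
    exact smooth_of S hF hsq hab hac hbc hex
      (hfull_of hm (fun x => gp1 hE x) hcomplete habc)
  obtain ⟨s, hs⟩ := exists_extension (κ := Fin n) p hp
  obtain ⟨t, E, hE⟩ := key s hs
  obtain ⟨F, hF, hF0, hFs⟩ := exists_rigid hE hm hn'
  refine ⟨?_, hsmooth, F, hF, hF0, hsmooth s hs F hF hF0 hFs⟩
  have S := rigid_of hE hm hn' hF hF0 hFs
  have hsq := S.squarefree (by rw [linSys_core]; exact hf₀core) hsq₀
  have hfull := hfull_of hm (fun x => gp1 hE x) hcomplete habc
  have h1 := finrank_of_unique S.hm' (fun G hG h0 => S.unique_rel hsq hab hac hbc hfull hG h0)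
  have h2 := (finrank_all hE hm hn').2
  have h3 : ∑ x : IT m, (mm m x + 1).choose 2 =
      ∑ i : {i : Fin r // ¬ m i = 1}, (m i + 1).choose 2 := by
    rw [Fintype.sum_sum_type]
    have : ∑ x : Fin 4, (mm m (Sum.inr x) + 1).choose 2 = 0 :=
      Finset.sum_eq_zero (fun x _ => rfl)
    rw [this, add_zero]
    rfl
  have h4 : ∑ i : {i : Fin r // m i = 1}, (m i + 1).choose 2 =
      Fintype.card {i : Fin r // m i = 1} := by
    have h6 : ∀ i : {i : Fin r // m i = 1}, (m i.1 + 1).choose 2 = 1 := fun i => by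
      rw [i.2]
      rfl
    rw [Finset.sum_congr rfl (fun i _ => h6 i), Finset.sum_const, Finset.card_univ, smul_eq_mul,
      mul_one]
  have h5 := Fintype.sum_subtype_add_sum_subtype (fun i => m i = 1)
    (fun i => (m i + 1).choose 2)
  rw [h3, h2] at h1
  rw [← h5, h4]
  omega

end Pool.Agent.Work.MP_0421d9_ag
end

section
/-!
Nonspeciality and smoothness of the general member, in a numerical range.
-/

set_option linter.unusedSectionVars false

namespace Pool.Agent.Work.MP_0421d9_ag

open MvPolynomial Module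

section full

variable {ι : Type} [Fintype ι] [DecidableEq ι] {d : ℕ} {p : ι → V3}
  {E : ι → Fin 3 → Derivation ℚ ℂ ℂ}

/-- at most `m i + 1` conditions are imposed by raising the multiplicity at `i` by one -/
theorem cc_le (hE : IsDual p E) {y : ι → ℕ} (hy : ∀ i, y i ≤ d) (i : ι) :
    cc d p y i ≤ y i + 1 := by
  have hp : p i ≠ 0 := gp1 hE i
  have h1 := Submodule.finrank_mono (K0_le (p := p) hy i)
  rw [finrank_map_mulLeft (lin_ne_zero hp), finrank_Hm] at h1
  have h3 := cc_UU hy i hp
  have h4 := choose_two_succ (y i)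
  omega

end full

section final

variable {r n d : ℕ} {p : Fin r → V3} {s : Fin n → V3} {t : Fin 4 → V3} {m : Fin r → ℕ}

/-- choice of the three special indices, among the given ones and the dummies -/
theorem exists_three' (m : Fin r → ℕ) (I : Finset (Fin r)) (hI : I.card ≤ 3) :
    ∃ a b c : IT m, a ≠ b ∧ a ≠ c ∧ b ≠ c ∧ (∃ e, e ≠ a ∧ e ≠ b ∧ e ≠ c) ∧
      (∀ i : {i : Fin r // m i ≠ 1}, i.1 ∈ I → (Sum.inl i : IT m) = a ∨ (Sum.inl i : IT m) = b ∨
        (Sum.inl i : IT m) = c) ∧
      (∀ i : {i : Fin r // m i ≠ 1}, ((Sum.inl i : IT m) = a ∨ (Sum.inl i : IT m) = b ∨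
        (Sum.inl i : IT m) = c) → i.1 ∈ I) := by
  classical
  set I' : Finset (IT m) := (I.subtype (fun i => m i ≠ 1)).map ⟨Sum.inl, Sum.inl_injective⟩
    with hI'
  set D : Finset (IT m) := (Finset.univ : Finset (Fin 4)).map ⟨Sum.inr, Sum.inr_injective⟩
    with hD
  have h1 : I'.card ≤ 3 := by
    rw [hI', Finset.card_map, Finset.card_subtype]
    exact (Finset.card_filter_le _ _).trans hI
  have h4 : 4 ≤ (I' ∪ D).card := by
    have h5 : D.card = 4 := by rw [hD, Finset.card_map, Finset.card_univ, Fintype.card_fin]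
    calc 4 = D.card := h5.symm
      _ ≤ (I' ∪ D).card := Finset.card_le_card Finset.subset_union_right
  obtain ⟨T, hT, hT', hTc⟩ := Finset.exists_subsuperset_card_eq
    (Finset.subset_union_left (s₁ := I') (s₂ := D)) h1 (by omega : 3 ≤ (I' ∪ D).card)
  obtain ⟨a, b, c, hab, hac, hbc, hTabc⟩ := Finset.card_eq_three.mp hTc
  refine ⟨a, b, c, hab, hac, hbc, ?_, ?_, ?_⟩
  · obtain ⟨e, -, he⟩ := Finset.exists_mem_notMem_of_card_lt_card
      (s := T) (t := I' ∪ D) (by omega)
    rw [hTabc] at he
    simp only [Finset.mem_insert, Finset.mem_singleton, not_or] at he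
    exact ⟨e, he.1, he.2.1, he.2.2⟩
  · intro i hi
    have h5 : (Sum.inl i : IT m) ∈ I' := by
      rw [hI', Finset.mem_map]
      exact ⟨i, Finset.mem_subtype.mpr hi, rfl⟩
    have h6 := hT h5
    rw [hTabc] at h6
    simpa only [Finset.mem_insert, Finset.mem_singleton] using h6
  · intro i hi
    have h5 : (Sum.inl i : IT m) ∈ T := by
      rw [hTabc]
      simpa only [Finset.mem_insert, Finset.mem_singleton] using hi
    have h6 := hT' h5
    rw [Finset.mem_union] at h6
    rcases h6 with h6 | h6
    · rw [hI', Finset.mem_map] at h6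
      obtain ⟨j, hj, hji⟩ := h6
      have h7 : j = i := Sum.inl_injective hji
      rw [← h7]
      exact Finset.mem_subtype.mp hj
    · rw [hD, Finset.mem_map] at h6
      obtain ⟨j, -, hji⟩ := h6
      exact absurd hji (by simp)

end final

end Pool.Agent.Work.MP_0421d9_ag
end

section
/-!
The superabundance of an arbitrary nonempty system: lowering the multiplicities one at a time, in
such a way that equal multiplicities stay almost equal.
-/

set_option linter.unusedSectionVars false

namespace Pool.Agent.Work.MP_0421d9_ag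

open MvPolynomial Module

section gen

variable {ι : Type} [Fintype ι] [DecidableEq ι] {d : ℕ} {p : ι → V3}
  {E : ι → Fin 3 → Derivation ℚ ℂ ℂ}

/-- lowering the multiplicity at `i` by one -/
def dn (y : ι → ℕ) (i : ι) : ι → ℕ := Function.update y i (y i - 1)

theorem dn_self (y : ι → ℕ) (i : ι) : dn y i i = y i - 1 := Function.update_self _ _ _

theorem dn_ne (y : ι → ℕ) {i j : ι} (h : j ≠ i) : dn y i j = y j := Function.update_of_ne h _ _

theorem dn_le (y : ι → ℕ) (i j : ι) : dn y i j ≤ y j := by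
  by_cases h : j = i
  · rw [h, dn_self]; exact Nat.sub_le _ _
  · rw [dn_ne y h]

theorem up_dn {y : ι → ℕ} {i : ι} (h : 1 ≤ y i) : up (dn y i) i = y := (up_down h).symm

theorem dn_comm (y : ι → ℕ) {i j : ι} (h : i ≠ j) : dn (dn y i) j = dn (dn y j) i := by
  funext l
  by_cases hi : l = i
  · subst hi
    rw [dn_ne _ h, dn_self, dn_self, dn_ne _ h]
  · by_cases hj : l = j
    · subst hj
      rw [dn_self, dn_ne _ hi, dn_ne _ hi, dn_self]
    · rw [dn_ne _ hj, dn_ne _ hi, dn_ne _ hi, dn_ne _ hj]

theorem cc_perm (hp : GenericPoints p) (y : ι → ℕ) (π : Equiv.Perm ι) (i : ι) :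
    cc d p (fun l => y (π l)) i = cc d p y (π i) := by
  have h1 : up (fun l => y (π l)) i = fun l => up y (π i) (π l) := by
    funext l
    by_cases hl : l = i
    · rw [hl, up_self, up_self]
    · rw [up_ne _ hl, up_ne _ (fun h => hl (π.injective h))]
  unfold cc
  rw [h1, finrank_linSys_perm d hp y π, finrank_linSys_perm d hp (up y (π i)) π]

theorem cc_swap (hp : GenericPoints p) {y y' : ι → ℕ} {i j : ι} (hi : y i = y' j)
    (hj : y j = y' i) (hl : ∀ l, l ≠ i → l ≠ j → y l = y' l) (k : ι) :
    cc d p y k = cc d p y' (Equiv.swap i j k) := by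
  rw [← cc_perm hp]
  congr 1
  funext l
  by_cases h1 : l = i
  · rw [h1, Equiv.swap_apply_left]; exact hi
  · by_cases h2 : l = j
    · rw [h2, Equiv.swap_apply_right]; exact hj
    · rw [Equiv.swap_apply_of_ne_of_ne h1 h2]; exact hl l h1 h2

/-- moving `j` sends the dual leading forms at `i` to those of the system with the multiplicity
raised at `j` -/
theorem cD_mem_UU_up (hE : IsDual p E) {y : ι → ℕ} (hy : ∀ l, y l ≤ d) {i j : ι} (hji : j ≠ i)
    (w : V3) {U : R3} (hU : U ∈ UU d p y i) : cD (mv E j w) U ∈ UU d p (up y j) i := by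
  have e2 : up y j i = y i := up_ne y hji.symm
  rw [mem_UU] at hU
  rw [mem_UU, e2]
  refine ⟨cD_isHomogeneous _ hU.1, ?_⟩
  have h2 := cD_mem_J_up hE hy j w hU.2
  rwa [cD_mul, cD_lin_pow_ne hE hji.symm, zero_mul, zero_add] at h2

/-- a point of multiplicity zero is not active -/
theorem cD_mem_UU_of_zero (hE : IsDual p E) {y : ι → ℕ} {i j : ι} (hji : j ≠ i)
    (hj : y j = 0) (w : V3) {U : R3} (hU : U ∈ UU d p y i) : cD (mv E j w) U ∈ UU d p y i := by
  rw [mem_UU] at hU ⊢
  refine ⟨cD_isHomogeneous _ hU.1, ?_⟩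
  obtain ⟨G, hG, hGU⟩ := mem_J.mp hU.2
  have h2 := congrArg (cD (mv E j w)) hGU
  rw [cD_mul (mv E j w) (lin (p i) ^ (d - y i)), cD_lin_pow_ne hE hji.symm, zero_mul,
    zero_add, map_sum] at h2
  rw [← h2]
  apply Submodule.sum_mem
  intro l _
  by_cases hl : l = j
  · subst hl
    have h3 := hG l
    rw [hj, mem_Hm_zero] at h3
    rw [h3, mul_zero, map_zero]
    exact zero_mem _
  · rw [cD_mul, cD_lin_pow_ne hE hl, zero_mul, zero_add]
    exact summand_mem_J l (cD_mem_Hm _ (hG l))

/-- the points of maximal current multiplicity among those of the same final multiplicity -/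
def Top (m y : ι → ℕ) (i : ι) : Prop := ∀ l, m l = m i → y l ≤ y i

/-- equal final multiplicities are almost equal -/
def Bal (m y : ι → ℕ) : Prop := ∀ l l', m l = m l' → y l ≤ y l' + 1

theorem exists_top (m y : ι → ℕ) (l : ι) : ∃ i, m i = m l ∧ Top m y i := by
  obtain ⟨i, hi, hmax⟩ := Finset.exists_max_image (Finset.univ.filter (fun x => m x = m l)) y
    ⟨l, Finset.mem_filter.mpr ⟨Finset.mem_univ _, rfl⟩⟩
  rw [Finset.mem_filter] at hi
  refine ⟨i, hi.2, fun x hx => hmax x ?_⟩
  rw [Finset.mem_filter]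
  exact ⟨Finset.mem_univ _, hx.trans hi.2⟩

theorem bal_dn {m y : ι → ℕ} (hb : Bal m y) {j : ι} (hj : Top m y j) : Bal m (dn y j) := by
  intro l l' hll
  by_cases h1 : l' = j
  · subst h1
    rw [dn_self]
    by_cases h2 : l = l'
    · subst h2
      rw [dn_self]; omega
    · rw [dn_ne _ h2]
      have := hj l hll
      omega
  · rw [dn_ne _ h1]
    exact (dn_le y j l).trans (hb l l' hll)

/-- the current superabundance of the last condition at `i` -/
noncomputable def kk (d : ℕ) (p : ι → V3) (y : ι → ℕ) (i : ι) : ℕ := y i - cc d p (dn y i) i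

theorem kk_up (hE : IsDual p E) {y : ι → ℕ} {i : ι} (hy : 1 ≤ y i) (hd : ∀ l, y l ≤ d) :
    kk d p y i + cc d p (dn y i) i = y i := by
  have h1 := cc_le hE (y := dn y i) (fun l => (dn_le y i l).trans (hd l)) i
  rw [dn_self] at h1
  unfold kk
  omega

theorem gg_dn (hE : IsDual p E) {y : ι → ℕ} {i : ι} (hy : 1 ≤ y i) (hd : ∀ l, y l ≤ d) :
    gg d p y = gg d p (dn y i) + kk d p y i := by
  have h1 := gg_up (d := d) (p := p) (dn y i) i
  rw [up_dn hy, dn_self] at h1
  have h2 := kk_up hE hy hd
  omega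

/-- lowering the same multiplicity twice -/
theorem kk_dn_self (hE : IsDual p E) {y : ι → ℕ} {i : ι} (hy : 1 ≤ y i) (hd : ∀ l, y l ≤ d) :
    kk d p (dn y i) i ≤ kk d p y i - 1 := by
  have hd1 : ∀ l, dn y i l ≤ d := fun l => (dn_le y i l).trans (hd l)
  rcases Nat.eq_zero_or_pos (dn y i i) with h0 | h0
  · have : kk d p (dn y i) i = 0 := by
      unfold kk
      omega
    omega
  have h1 := kk_up hE hy hd
  have h2 := kk_up hE h0 hd1
  by_cases hc : cc d p (dn (dn y i) i) i ≤ dn (dn y i) i i
  · have h3 := cc_up_self hE (m := dn (dn y i) i) (fun l => (dn_le _ i l).trans (hd1 l)) i hc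
    rw [up_dn h0] at h3
    rw [dn_self] at h0 h2
    omega
  · rw [dn_self] at hc
    omega

/-- new top points after a top point has been lowered -/
theorem kk_new (hp : GenericPoints p) (hE : IsDual p E) {m y : ι → ℕ} (hb : Bal m y)
    (hd : ∀ l, y l ≤ d) {j : ι} (hj : Top m y j) (hyj : 1 ≤ y j) {l : ι}
    (hl : Top m (dn y j) l) (hyl : 1 ≤ dn y j l) :
    (l ≠ j ∧ Top m y l ∧ dn y j l = y l ∧ kk d p (dn y j) l ≤ kk d p y l) ∨
    (m l = m j ∧ kk d p (dn y j) l ≤ kk d p y j - 1 ∧ (l = j ∨ ¬ Top m y l)) := by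
  by_cases h : l ≠ j ∧ Top m y l
  · left
    refine ⟨h.1, h.2, dn_ne _ h.1, ?_⟩
    have h1 : cc d p (dn y l) l ≤ cc d p (dn (dn y j) l) l := by
      apply cc_mono_le
      · intro x
        by_cases hx : x = l
        · rw [hx, dn_self, dn_self, dn_ne _ h.1]
        · rw [dn_ne _ hx, dn_ne _ hx]
          exact dn_le y j x
      · rw [dn_self, dn_self, dn_ne _ h.1]
    unfold kk
    rw [dn_ne _ h.1]
    omega
  · right
    have hkey : m l = m j ∧ dn y j l = dn y j j ∧ (l = j ∨ ¬ Top m y l) := by
      by_cases hlj : l = j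
      · subst hlj
        exact ⟨rfl, rfl, Or.inl rfl⟩
      · have hnt : ¬ Top m y l := fun h' => h ⟨hlj, h'⟩
        have hnt' := hnt
        unfold Top at hnt
        push Not at hnt
        obtain ⟨x, hx, hyx⟩ := hnt
        have hxj : x = j := by
          by_contra hxj
          have h1 := hl x hx
          rw [dn_ne _ hxj, dn_ne _ hlj] at h1
          omega
        subst hxj
        refine ⟨hx.symm, ?_, Or.inr hnt'⟩
        rw [dn_ne _ hlj, dn_self]
        have h2 := hb x l hx
        omega
    obtain ⟨h1, h2, h3⟩ := hkey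
    refine ⟨h1, ?_, h3⟩
    have h4 : kk d p (dn y j) l = kk d p (dn y j) j := by
      unfold kk
      rw [h2]
      congr 1
      have h5 := cc_swap (d := d) hp (y := dn (dn y j) l) (y' := dn (dn y j) j) (i := l) (j := j) (by
          rw [dn_self, dn_self, h2]) (by
          by_cases hlj : l = j
          · rw [hlj]
          · rw [dn_ne _ (fun h => hlj h.symm), dn_ne _ hlj, h2]) (by
          intro x hx hx'
          rw [dn_ne _ hx, dn_ne (dn y j) hx']) l
      rw [h5, Equiv.swap_apply_left]
    rw [h4]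
    exact kk_dn_self hE hyj hd

/-- equal superabundances at points of the same kind -/
theorem kk_eq (hp : GenericPoints p) {y : ι → ℕ} {i l : ι} (h : y l = y i) :
    kk d p y l = kk d p y i := by
  unfold kk
  rw [h]
  congr 1
  have h5 := cc_swap (d := d) hp (y := dn y l) (y' := dn y i) (i := l) (j := i) (by
      rw [dn_self, dn_self, h]) (by
      by_cases hlj : l = i
      · rw [hlj]
      · rw [dn_ne _ (fun h => hlj h.symm), dn_ne _ hlj, h]) (by
      intro x hx hx'
      rw [dn_ne _ hx, dn_ne _ hx']) l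
  rw [h5, Equiv.swap_apply_left]

/-- **Key step.** -/
theorem exists_step (hp : GenericPoints p) (hE : IsDual p E) {m y : ι → ℕ} (hb : Bal m y)
    (hne : finrank ℂ (linSys d p y) ≠ 0) {i : ι} (hi : Top m y i) (hyi : 1 ≤ y i)
    (hpos : 1 ≤ kk d p y i) (hmax : ∀ l, Top m y l → 1 ≤ y l → kk d p y l ≤ kk d p y i) :
    ∃ j, Top m y j ∧ 1 ≤ y j ∧ ∀ l, m l = m i → Top m (dn y j) l → 1 ≤ dn y j l →
      kk d p (dn y j) l ≤ kk d p y i - 1 := by
  have hd := le_of_finrank_pos hne
  by_cases huniq : ∀ l, m l = m i → y l = y i → l = i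
  · -- `i` is the only top point of its class
    refine ⟨i, hi, hyi, fun l hl hlt hyl => ?_⟩
    rcases kk_new hp hE hb hd hi hyi hlt hyl with ⟨h1, h2, -, -⟩ | ⟨-, h2, -⟩
    · exfalso
      apply h1
      apply huniq l hl
      exact le_antisymm (hi l hl) (h2 i hl.symm)
    · exact h2
  push Not at huniq
  obtain ⟨l₀, hl₀, hyl₀, hl₀i⟩ := huniq
  have hl₀t : Top m y l₀ := fun l hl => by
    rw [hyl₀]
    exact hi l (hl.trans hl₀)
  set z := dn y i with hz
  have hzd : ∀ l, z l ≤ d := fun l => (dn_le y i l).trans (hd l)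
  have hzi : z i = y i - 1 := dn_self y i
  have hk := kk_up hE hyi hd
  rw [← hz] at hk
  have hzne : finrank ℂ (linSys d p z) ≠ 0 := by
    intro h0
    apply hne
    have h1 : finrank ℂ (linSys d p y) ≤ finrank ℂ (linSys d p z) :=
      Submodule.finrank_mono (linSys_mono (dn_le y i))
    omega
  have hc : cc d p z i ≤ z i := by rw [hzi]; omega
  have hcpos : 0 < cc d p z i := by
    rcases Nat.eq_zero_or_pos (cc d p z i) with h0 | h0
    · exact absurd (finrank_eq_zero_of_cc hE i (d + 1) z (by omega) h0) hzne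
    · exact h0
  obtain ⟨j, hji, w, U, hU, hDU⟩ := exists_active hE hzd i hc hcpos
  have hzj : z j = y j := dn_ne y hji
  have hyj : 1 ≤ y j := by
    by_contra h0
    exact hDU (cD_mem_UU_of_zero hE hji (by omega) w hU)
  -- the top point `j'` of the class of `j`
  obtain ⟨j', hj't, hj'i, hmj, hj'⟩ : ∃ j', Top m y j' ∧ j' ≠ i ∧ m j' = m j ∧
      (j' = j ∨ (j' ≠ j ∧ y j' = y j + 1)) := by
    by_cases hjt : Top m y j
    · exact ⟨j, hjt, hji, rfl, Or.inl rfl⟩
    · have hex : ∃ j', Top m y j' ∧ j' ≠ i ∧ m j' = m j := by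
        by_cases hmji : m j = m i
        · exact ⟨l₀, hl₀t, hl₀i, hl₀.trans hmji.symm⟩
        · obtain ⟨x, hx, hxt⟩ := exists_top m y j
          refine ⟨x, hxt, ?_, hx⟩
          rintro rfl
          exact hmji hx.symm
      obtain ⟨j', h1, h2, h3⟩ := hex
      refine ⟨j', h1, h2, h3, Or.inr ⟨?_, ?_⟩⟩
      · rintro rfl
        exact hjt h1
      · unfold Top at hjt
        push Not at hjt
        obtain ⟨x, hx, hyx⟩ := hjt
        have h4 := h1 x (hx.trans h3.symm)
        have h5 := hb j' j h3
        omega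
  have hyj' : 1 ≤ y j' := by
    rcases hj' with rfl | ⟨-, h⟩
    · exact hyj
    · omega
  have hzj' : z j' = y j' := dn_ne y hj'i
  -- strict increase
  set x := dn z j' with hx
  have hxup : up x j' = z := up_dn (by rw [hzj']; exact hyj')
  have hxd : ∀ l, x l ≤ d := fun l => (dn_le z j' l).trans (hzd l)
  have hxi : x i = z i := dn_ne z hj'i.symm
  have hxj' : x j' = y j' - 1 := by rw [hx, dn_self, hzj']
  have hstrict : cc d p z i < cc d p x i := by
    by_contra hcon
    push Not at hcon
    have hd' := hd j'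
    have e1 : UU d p x i = UU d p z i := by
      have h1 := UU_eq_up hE hxd hj'i (by rw [hxj']; omega) (by rw [hxup]; exact hcon)
      rwa [hxup] at h1
    rcases hj' with rfl | ⟨hjj, hyjj⟩
    · have h1 := cD_mem_UU_up hE hxd hj'i w (show U ∈ UU d p x i by rw [e1]; exact hU)
      rw [hxup] at h1
      exact hDU h1
    · have hxj : x j = y j := by rw [hx, dn_ne z (fun h => hjj h.symm), hzj]
      have e2 : cc d p (up x j) i = cc d p z i := by
        have h1 := cc_swap (d := d) hp (y := up x j) (y' := up x j') (i := j) (j := j') (by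
          rw [up_self, up_self, hxj, hxj']; omega) (by
          rw [up_ne _ hjj, up_ne _ (fun h => hjj h.symm), hxj', hxj]; omega) (by
          intro l hl hl'
          rw [up_ne _ hl, up_ne _ hl']) i
        rw [h1, hxup, Equiv.swap_apply_of_ne_of_ne hji.symm hj'i.symm]
      have e3 : UU d p x i = UU d p (up x j) i := by
        apply UU_eq_up hE hxd hji
        · rw [hxj]
          omega
        · rw [e2]
          exact hcon
      have h1 := cD_mem_UU_up hE hxd hji w (show U ∈ UU d p x i by rw [e1]; exact hU)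
      rw [← e3, e1] at h1
      exact hDU h1
  refine ⟨j', hj't, hyj', fun l hl hlt hyl => ?_⟩
  have hki : kk d p (dn y j') i ≤ kk d p y i - 1 := by
    have h1 : dn (dn y j') i = x := by rw [hx, hz, dn_comm y hj'i]
    have h2 : dn y j' i = y i := dn_ne y hj'i.symm
    have h3 : kk d p (dn y j') i = y i - cc d p x i := by
      unfold kk
      rw [h1, h2]
    omega
  rcases kk_new hp hE hb hd hj't hyj' hlt hyl with ⟨h1, h2, h3, -⟩ | ⟨-, h2, -⟩
  · have h4 : dn y j' l = dn y j' i := by
      rw [h3, dn_ne y hj'i.symm]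
      exact le_antisymm (hi l hl) (h2 i hl.symm)
    rw [kk_eq hp h4]
    exact hki
  · exact h2.trans (Nat.sub_le_sub_right (hmax j' hj't hyj') 1)

/-- **Superabundance along the descent.** -/
theorem super_aux (hp : GenericPoints p) (hE : IsDual p E) (m : ι → ℕ) : ∀ (N : ℕ) (y : ι → ℕ),
    ∑ l, y l ≤ N → Bal m y → finrank ℂ (linSys d p y) ≠ 0 → ∀ β : ℕ → ℕ,
    (∀ i, Top m y i → 1 ≤ y i → kk d p y i ≤ β (m i)) →
    gg d p y ≤ (d + 2).choose 2 + ∑ a ∈ Finset.univ.image m, (β a + 1).choose 2 := by
  intro N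
  induction N with
  | zero =>
    intro y hN hb hne β hβ
    have h0 : ∀ i, y i = 0 := by
      intro i
      have := Finset.single_le_sum (f := y) (fun j _ => Nat.zero_le (y j)) (Finset.mem_univ i)
      omega
    have h1 : gg d p y ≤ (d + 2).choose 2 := by
      unfold gg
      have h5 : ∑ l : ι, (y l + 1).choose 2 = 0 := by
        refine Finset.sum_eq_zero (fun l _ => ?_)
        rw [h0 l]
        rfl
      rw [h5, add_zero, ← finrank_Rd d]
      exact Submodule.finrank_mono (linSys_le d p _)
    omega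
  | succ N ih =>
    intro y hN hb hne β hβ
    have hd := le_of_finrank_pos hne
    by_cases h0 : ∀ i, y i = 0
    · exact ih y (by rw [Finset.sum_eq_zero (fun i _ => h0 i)]; exact Nat.zero_le _) hb hne β hβ
    push Not at h0
    obtain ⟨l, hl⟩ := h0
    classical
    obtain ⟨i₀, hi₀, hi₀t⟩ := exists_top m y l
    have hyi₀ : 1 ≤ y i₀ := by
      have := hi₀t l hi₀.symm
      omega
    obtain ⟨i, hi, hmax⟩ := Finset.exists_max_image
      (Finset.univ.filter (fun x => Top m y x ∧ 1 ≤ y x)) (kk d p y)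
      ⟨i₀, Finset.mem_filter.mpr ⟨Finset.mem_univ _, hi₀t, hyi₀⟩⟩
    rw [Finset.mem_filter] at hi
    obtain ⟨-, hit, hyi⟩ := hi
    have hmax' : ∀ l, Top m y l → 1 ≤ y l → kk d p y l ≤ kk d p y i := fun l h1 h2 =>
      hmax l (Finset.mem_filter.mpr ⟨Finset.mem_univ _, h1, h2⟩)
    -- general facts on a step
    have hsum : ∀ j, 1 ≤ y j → ∑ l, dn y j l ≤ N := by
      intro j hj
      have h2 : ∑ l, dn y j l + 1 = ∑ l, y l := by
        rw [← Finset.add_sum_erase _ _ (Finset.mem_univ j),
          ← Finset.add_sum_erase _ y (Finset.mem_univ j), dn_self]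
        have h3 : ∑ l ∈ Finset.univ.erase j, dn y j l = ∑ l ∈ Finset.univ.erase j, y l := by
          refine Finset.sum_congr rfl (fun l hl => ?_)
          rw [dn_ne _ (Finset.ne_of_mem_erase hl)]
        omega
      omega
    have hne' : ∀ j, finrank ℂ (linSys d p (dn y j)) ≠ 0 := by
      intro j h1
      apply hne
      have h2 : finrank ℂ (linSys d p y) ≤ finrank ℂ (linSys d p (dn y j)) :=
        Submodule.finrank_mono (linSys_mono (dn_le y j))
      omega
    rcases Nat.eq_zero_or_pos (kk d p y i) with hB | hB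
    · -- nothing to gain
      have h1 := ih (dn y i) (hsum i hyi) (bal_dn hb hit) (hne' i) β (by
        intro l hlt hyl
        rcases kk_new hp hE hb hd hit hyi hlt hyl with ⟨-, h2, h3, h4⟩ | ⟨-, h2, -⟩
        · exact h4.trans (hβ l h2 (by rw [← h3]; exact hyl))
        · omega)
      rw [gg_dn hE hyi hd, hB]
      omega
    · obtain ⟨j, hjt, hyj, hstep⟩ := exists_step hp hE hb hne hit hyi hB hmax'
      set B := kk d p y i with hBdef
      have h1 := ih (dn y j) (hsum j hyj) (bal_dn hb hjt) (hne' j)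
        (Function.update β (m i) (B - 1)) (by
        intro l hlt hyl
        by_cases hml : m l = m i
        · rw [hml, Function.update_self]
          exact hstep l hml hlt hyl
        · rw [Function.update_of_ne hml]
          rcases kk_new hp hE hb hd hjt hyj hlt hyl with ⟨-, h2, h3, h4⟩ | ⟨h2, h3, -⟩
          · exact h4.trans (hβ l h2 (by rw [← h3]; exact hyl))
          · have h4 := hβ j hjt hyj
            rw [← h2] at h4
            omega)
      rw [gg_dn hE hyj hd]
      have hmem : m i ∈ Finset.univ.image m := Finset.mem_image_of_mem m (Finset.mem_univ i)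
      rw [← Finset.add_sum_erase _ _ hmem] at h1
      rw [← Finset.add_sum_erase _ _ hmem]
      rw [Function.update_self] at h1
      have h2 : ∑ a ∈ (Finset.univ.image m).erase (m i),
          (Function.update β (m i) (B - 1) a + 1).choose 2 =
          ∑ a ∈ (Finset.univ.image m).erase (m i), (β a + 1).choose 2 := by
        refine Finset.sum_congr rfl (fun a ha => ?_)
        rw [Function.update_of_ne (Finset.ne_of_mem_erase ha)]
      rw [h2] at h1
      have h3 := hmax' j hjt hyj
      have h4 : (B + 1).choose 2 ≤ (β (m i) + 1).choose 2 :=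
        Nat.choose_le_choose 2 (Nat.succ_le_succ (hβ i hit hyi))
      have h5 : (B + 1).choose 2 = (B - 1 + 1).choose 2 + B := by
        obtain ⟨b, hb'⟩ : ∃ b, B = b + 1 := ⟨B - 1, by omega⟩
        rw [hb', Nat.add_sub_cancel]
        exact choose_two_succ b
      omega

/-- **Superabundance of a nonempty system.** -/
theorem super_le (hp : GenericPoints p) (hE : IsDual p E) {m : ι → ℕ}
    (hne : finrank ℂ (linSys d p m) ≠ 0) {β : ℕ → ℕ}
    (hβ : ∀ i, 1 ≤ m i → kk d p m i ≤ β (m i)) :
    finrank ℂ (linSys d p m) + ∑ i, (m i + 1).choose 2 ≤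
      (d + 2).choose 2 + ∑ a ∈ Finset.univ.image m, (β a + 1).choose 2 :=
  super_aux hp hE m (∑ l, m l) m le_rfl (fun l l' h => by omega) hne β (fun i _ h => hβ i h)

theorem kk_le (hE : IsDual p E) {m : ι → ℕ} (hne : finrank ℂ (linSys d p m) ≠ 0) {i : ι}
    (hi : 1 ≤ m i) : kk d p m i ≤ m i - 1 := by
  have h0 : 0 < cc d p (dn m i) i := by
    rcases Nat.eq_zero_or_pos (cc d p (dn m i) i) with h0 | h0
    · exfalso
      have h1 := finrank_eq_zero_of_cc hE i (d + 1) (dn m i) (by omega) h0
      apply hne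
      have h2 : finrank ℂ (linSys d p m) ≤ finrank ℂ (linSys d p (dn m i)) :=
        Submodule.finrank_mono (linSys_mono (dn_le m i))
      omega
    · exact h0
  unfold kk
  omega

/-- the superabundance is at most the sum of `μ (μ - 1) / 2` over the distinct multiplicities -/
theorem super_window (hp : GenericPoints p) {m : ι → ℕ} (hne : linSys d p m ≠ ⊥) :
    finrank ℂ (linSys d p m) + ∑ i, (m i + 1).choose 2 ≤
      (d + 2).choose 2 + ∑ a ∈ Finset.univ.image m, a.choose 2 := by
  obtain ⟨E, hE⟩ := exists_dual p hp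
  have hfin : Module.Finite ℂ (linSys d p m) :=
    Submodule.finiteDimensional_of_le (linSys_le d p _)
  have hne' : finrank ℂ (linSys d p m) ≠ 0 := fun h0 =>
    hne (Submodule.finrank_eq_zero.mp h0)
  have h1 := super_le hp hE hne' (β := fun a => a - 1) (fun i hi => kk_le hE hne' hi)
  have h2 : ∑ a ∈ Finset.univ.image m, (a - 1 + 1).choose 2 =
      ∑ a ∈ Finset.univ.image m, a.choose 2 := by
    refine Finset.sum_congr rfl (fun a _ => ?_)
    rcases Nat.eq_zero_or_pos a with h | h
    · rw [h]; rfl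
    · rw [Nat.sub_add_cancel h]
  rwa [h2] at h1

end gen

end Pool.Agent.Work.MP_0421d9_ag
end

section
/-!
The superabundance of a system with a reduced member.
-/

set_option linter.unusedSectionVars false

namespace Pool.Agent.Work.MP_0421d9_ag

open MvPolynomial Module

theorem exists_indep {p : V3} (hp : p ≠ 0) :
    ∃ v₁ v₂ : V3, cr p v₁ ≠ 0 ∧ ∀ c : ℂ, cr p (v₂ + c • v₁) ≠ 0 := by
  obtain ⟨v₁, hv₁⟩ := exists_cr_ne hp
  obtain ⟨k, hk⟩ : ∃ k, cr p v₁ k ≠ 0 := by
    by_contra hcon
    push Not at hcon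
    exact hv₁ (funext hcon)
  refine ⟨v₁, Pi.single k 1, hv₁, fun c hc => ?_⟩
  obtain ⟨c', hc'⟩ := exists_smul_of_cr_eq_zero hp hc
  have h1 : (Pi.single k 1 : V3) = c' • p + (-c) • v₁ := by
    rw [← hc']
    module
  have h2 : eval (Pi.single k 1 : V3) (lin (cr p v₁)) = cr p v₁ k := by
    rw [eval_lin, Finset.sum_eq_single k]
    · rw [Pi.single_eq_same, mul_one]
    · intro b _ hb
      rw [Pi.single_eq_of_ne hb, mul_zero]
    · intro h; exact absurd (Finset.mem_univ k) h
  have e0 : eval p (lin (cr p v₁)) = 0 := eval_xl_left _ _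
  have e1 : eval v₁ (lin (cr p v₁)) = 0 := eval_xl_right _ _
  apply hk
  rw [← h2, h1, eval_lin_comm, lin_add, lin_smul, lin_smul, map_add, map_mul, map_mul,
    eval_lin_comm _ p, eval_lin_comm _ v₁, e0, e1, mul_zero, mul_zero, add_zero]

section red

variable {r n d : ℕ} {p : Fin r → V3} {s : Fin n → V3} {t : Fin 4 → V3} {m : Fin r → ℕ}

end red

/-- the rigid member and its derivations -/
theorem exists_rigid_member {r d : ℕ} (p : Fin r → Fin 3 → ℂ) (hp : GenericPoints p)
    (m : Fin r → ℕ) (hm : ∀ i, m i ≤ d) (hpos : linSys d p m ≠ ⊥) :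
    ∃ (n : ℕ) (s : Fin n → V3) (t : Fin 4 → V3) (E : IT m ⊕ KT m n → Fin 3 → Derivation ℚ ℂ ℂ)
      (F : R3), n + 1 = finrank ℂ (linSys d p m) ∧ F ∈ linSys d p m ∧
      Rigid d (PP p s t m) E (mm m) F := by
  have hfin : Module.Finite ℂ (linSys d p m) :=
    Submodule.finiteDimensional_of_le (linSys_le d p _)
  have hpos' : finrank ℂ (linSys d p m) ≠ 0 := fun h0 =>
    hpos (Submodule.finrank_eq_zero.mp h0)
  set n := finrank ℂ (linSys d p m) - 1 with hn
  have hn' : n + 1 = finrank ℂ (linSys d p m) := by omega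
  obtain ⟨s, hs⟩ := exists_extension (κ := Fin n) p hp
  obtain ⟨t, ht⟩ := exists_extension (κ := Fin 4) (Sum.elim p s) hs
  obtain ⟨E, hE⟩ := exists_dual _ (PP_generic p s t m ht)
  obtain ⟨F, hF, hF0, hFs⟩ := exists_rigid hE hm hn'
  exact ⟨n, s, t, E, F, hn', hF, rigid_of hE hm hn' hF hF0 hFs⟩

end Pool.Agent.Work.MP_0421d9_ag
end

section
/-!
Uniform systems: final form of the bounds, examples attaining both of them, emptiness, and Nagata's
inequality for small multiplicities.
-/

set_option linter.unusedSectionVars false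

namespace Pool.Agent.Work.MP_0421d9_ag

open MvPolynomial Module

theorem two_mul_choose (n : ℕ) : 2 * (n + 1).choose 2 = n * (n + 1) := by
  induction n with
  | zero => rfl
  | succ n ih =>
    have := choose_two_succ n
    rw [this, Nat.mul_add, ih]
    ring

theorem two_mul_choose_two (n : ℕ) : 2 * (n + 2).choose 2 = (n + 1) * (n + 2) :=
  two_mul_choose (n + 1)

end Pool.Agent.Work.MP_0421d9_ag
end

section
/-!
The window outside which planar linear systems with generic base points are empty or nonspecial.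
-/

set_option linter.unusedSectionVars false

namespace Pool.Agent.Work.MP_0421d9_ag

open MvPolynomial Module

theorem sum_image_choose_le {r : ℕ} {m : Fin r → ℕ} {M : ℕ} (hM : ∀ i, m i ≤ M) :
    ∑ a ∈ Finset.univ.image m, a.choose 2 ≤ (M + 1).choose 3 := by
  have h1 : Finset.univ.image m ⊆ Finset.range (M + 1) := by
    intro a ha
    obtain ⟨i, -, rfl⟩ := Finset.mem_image.mp ha
    exact Finset.mem_range.mpr (Nat.lt_succ_of_le (hM i))
  have h2 : ∑ a ∈ Finset.range (M + 1), a.choose 2 = (M + 1).choose 3 := by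
    clear h1 hM
    induction M with
    | zero => rfl
    | succ M ih =>
      rw [Finset.sum_range_succ, ih, Nat.choose_succ_succ' (M + 1) 2]
      ring
  rw [← h2]
  exact Finset.sum_le_sum_of_subset h1

theorem window_empty {r d M : ℕ} {p : Fin r → Fin 3 → ℂ} (hp : GenericPoints p) {m : Fin r → ℕ}
    (hM : ∀ i, m i ≤ M)
    (h : (d + 2).choose 2 + (M + 1).choose 3 ≤ ∑ i, (m i + 1).choose 2) : linSys d p m = ⊥ := by
  by_contra hne
  have hfin : Module.Finite ℂ (linSys d p m) :=
    Submodule.finiteDimensional_of_le (linSys_le d p _)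
  have hpos' : finrank ℂ (linSys d p m) ≠ 0 := fun h0 =>
    hne (Submodule.finrank_eq_zero.mp h0)
  have h1 := super_window hp hne
  have h2 := sum_image_choose_le hM
  omega

theorem window_nonspecial {r d M : ℕ} {p : Fin r → Fin 3 → ℂ} (hp : GenericPoints p)
    {m : Fin r → ℕ} (hM : ∀ i, m i ≤ M)
    (h : ∑ i, (m i + 1).choose 2 + (M - 1) * (M - 1) < (d + 2).choose 2) :
    finrank ℂ (linSys d p m) + ∑ i, (m i + 1).choose 2 = (d + 2).choose 2 := by
  have hfin : Module.Finite ℂ (linSys d p m) :=
    Submodule.finiteDimensional_of_le (linSys_le d p _)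
  by_contra hcon
  by_cases hmd : ∀ i, m i ≤ d + 1
  · have h1 := chi_le (d := d) (p := p) hmd
    have hne : linSys d p m ≠ ⊥ := by
      intro h0
      rw [h0, finrank_bot] at h1
      omega
    obtain ⟨i, j, -, h2⟩ := special_le hp hne hcon
    have h3 : (m i - 1) * (m j - 1) ≤ (M - 1) * (M - 1) :=
      Nat.mul_le_mul (Nat.sub_le_sub_right (hM i) 1) (Nat.sub_le_sub_right (hM j) 1)
    omega
  · push Not at hmd
    obtain ⟨i, hi⟩ := hmd
    have h1 : (m i + 1).choose 2 ≤ ∑ l, (m l + 1).choose 2 :=
      Finset.single_le_sum (f := fun l => (m l + 1).choose 2) (fun l _ => Nat.zero_le _)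
        (Finset.mem_univ i)
    have h2 : (d + 2).choose 2 ≤ (m i + 1).choose 2 := Nat.choose_le_choose 2 (by omega)
    omega

end Pool.Agent.Work.MP_0421d9_ag
end

section
/-!
Common factors of the members of a linear system: algebraic lemmas.
-/

set_option linter.unusedSectionVars false

namespace Pool.Agent.Work.MP_0421d9_ag

open MvPolynomial Module

/-- lowest homogeneous component -/
theorem exists_order {P : R3} (hP : P ≠ 0) :
    ∃ e, (∀ k < e, homogeneousComponent k P = 0) ∧ homogeneousComponent e P ≠ 0 := by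
  classical
  have h : ∃ e, homogeneousComponent e P ≠ 0 := by
    by_contra hcon
    push Not at hcon
    apply hP
    rw [← sum_homogeneousComponent P]
    exact Finset.sum_eq_zero (fun i _ => hcon i)
  refine ⟨Nat.find h, fun k hk => ?_, Nat.find_spec h⟩
  have := Nat.find_min h hk
  push Not at this
  exact this

/-- the lowest homogeneous component of a product -/
theorem hc_mul_lowest {A G : R3} {a g : ℕ} (hA : ∀ k < a, homogeneousComponent k A = 0)
    (hG : ∀ k < g, homogeneousComponent k G = 0) :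
    homogeneousComponent (a + g) (A * G) = homogeneousComponent a A * homogeneousComponent g G := by
  conv_lhs => rw [← sum_homogeneousComponent A]
  rw [Finset.sum_mul, map_sum]
  have hterm : ∀ n, n ≠ a →
      homogeneousComponent (a + g) (homogeneousComponent n A * G) = 0 := by
    intro n hn
    have hh := homogeneousComponent_isHomogeneous n A
    rcases lt_or_gt_of_ne hn with h | h
    · rw [hA n h, zero_mul, map_zero]
    · by_cases h2 : a + g < n
      · exact homogeneousComponent_mul_lt hh h2 _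
      · obtain ⟨l, hl⟩ : ∃ l, a + g = n + l := ⟨a + g - n, by omega⟩
        rw [hl, homogeneousComponent_mul hh, hG l (by omega), mul_zero]
  have hmain : homogeneousComponent (a + g) (homogeneousComponent a A * G) =
      homogeneousComponent a A * homogeneousComponent g G :=
    homogeneousComponent_mul (homogeneousComponent_isHomogeneous a A) g G
  by_cases ha : a ∈ Finset.range (A.totalDegree + 1)
  · rw [Finset.sum_eq_single a (fun n _ hn => hterm n hn) (fun h => absurd ha h)]
    exact hmain
  · have h1 : homogeneousComponent a A = 0 := by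
      apply homogeneousComponent_eq_zero
      rw [Finset.mem_range] at ha
      omega
    rw [h1, zero_mul]
    refine Finset.sum_eq_zero (fun n hn => hterm n ?_)
    rintro rfl
    exact ha hn

theorem le_of_hc_mul {A G : R3} {a n : ℕ} (hA : ∀ k < a, homogeneousComponent k A = 0)
    (hA' : homogeneousComponent a A ≠ 0) (hn : ∀ k < n, homogeneousComponent k (A * G) = 0) :
    ∀ k, a + k < n → homogeneousComponent k G = 0 := by
  by_cases hG : G = 0
  · intro k _
    rw [hG, map_zero]
  obtain ⟨g, hg, hg'⟩ := exists_order hG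
  intro k hk
  apply hg
  by_contra hcon
  push Not at hcon
  have h1 := hn (a + g) (by omega)
  rw [hc_mul_lowest hA hg] at h1
  exact mul_ne_zero hA' hg' h1

/-- a factor of a nonzero form is a form -/
theorem isHomogeneous_factor {A G : R3} {d : ℕ} (h : (A * G).IsHomogeneous d) (h0 : A * G ≠ 0) :
    ∃ a g, a + g = d ∧ A.IsHomogeneous a ∧ G.IsHomogeneous g := by
  have hA0 : A ≠ 0 := left_ne_zero_of_mul h0
  have hG0 : G ≠ 0 := right_ne_zero_of_mul h0
  obtain ⟨a, ha, ha'⟩ := exists_order hA0
  obtain ⟨g, hg, hg'⟩ := exists_order hG0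
  have h1 : homogeneousComponent (a + g) (A * G) ≠ 0 := by
    rw [hc_mul_lowest ha hg]
    exact mul_ne_zero ha' hg'
  have h2 : a + g = d := by
    by_contra hne
    apply h1
    rw [homogeneousComponent_of_mem h, if_neg]
    exact hne
  have h3 : A.totalDegree + G.totalDegree = d := by
    rw [← totalDegree_mul_of_isDomain hA0 hG0]
    exact h.totalDegree h0
  have key : ∀ {P : R3} {e : ℕ}, (∀ k < e, homogeneousComponent k P = 0) → P.totalDegree ≤ e →
      P.IsHomogeneous e := by
    intro P e h4 h5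
    have h6 : P = homogeneousComponent e P := by
      conv_lhs => rw [← sum_homogeneousComponent P]
      by_cases he : e ∈ Finset.range (P.totalDegree + 1)
      · rw [Finset.sum_eq_single e]
        · intro n hn hne
          rw [Finset.mem_range] at hn
          exact h4 n (by omega)
        · intro h; exact absurd he h
      · have h7 : homogeneousComponent e P = 0 := by
          apply homogeneousComponent_eq_zero
          rw [Finset.mem_range] at he
          omega
        rw [h7]
        refine Finset.sum_eq_zero (fun n hn => ?_)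
        rw [Finset.mem_range] at hn he
        exact h4 n (by omega)
    rw [h6]
    exact homogeneousComponent_isHomogeneous e P
  have h4 : ∀ {P : R3} {e : ℕ}, homogeneousComponent e P ≠ 0 → e ≤ P.totalDegree := by
    intro P e h5
    by_contra h6
    exact h5 (homogeneousComponent_eq_zero e P (by omega))
  have h5 := h4 ha'
  have h6 := h4 hg'
  exact ⟨a, g, h2, key ha (by omega), key hg (by omega)⟩

theorem translate_ne_zero {P : R3} (hP : P ≠ 0) (a : V3) : translate a P ≠ 0 := by
  intro h
  apply hP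
  apply MvPolynomial.funext
  intro y
  have h1 := eval_translate a (y - a) P
  rw [h, map_zero, add_sub_cancel] at h1
  rw [← h1, map_zero]

/-- replacing a factor by another one vanishing at least as much -/
theorem vanishTo_swap {π π' g : R3} (hπ : π ≠ 0) {a : V3} {n : ℕ} (h : VanishTo (π * g) a n)
    (hsw : ∀ k, VanishTo π a k → VanishTo π' a k) : VanishTo (π' * g) a n := by
  obtain ⟨e, he, he'⟩ := exists_order (translate_ne_zero hπ a)
  have h1 : VanishTo g a (n - e) := by
    intro k hk
    unfold VanishTo at h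
    rw [translate_mul] at h
    exact le_of_hc_mul he he' h k (by omega)
  have h2 := vanishTo_mul (hsw e he) h1
  exact h2.mono (by omega)

/-- a common factor which can be replaced by another form forces the system to be empty -/
theorem eq_bot_of_swap {ι : Type} {d : ℕ} {p : ι → V3} {m : ι → ℕ} {π π' : R3}
    (hπ : Irreducible π) {e : ℕ} (hπe : π.IsHomogeneous e) (hπe' : π'.IsHomogeneous e)
    (hnd : ¬ π ∣ π') (hsw : ∀ l k, VanishTo π (p l) k → VanishTo π' (p l) k)
    (hdiv : ∀ f ∈ linSys d p m, π ∣ f) : linSys d p m = ⊥ := by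
  have hpr := hπ.prime
  have key : ∀ k, ∀ f ∈ linSys d p m, π ^ (k + 1) ∣ f := by
    intro k
    induction k with
    | zero =>
      intro f hf
      rw [zero_add, pow_one]
      exact hdiv f hf
    | succ k ih =>
      intro f hf
      obtain ⟨g, hg⟩ := ih f hf
      by_cases hf0 : f = 0
      · rw [hf0]; exact dvd_zero _
      have hfe : f = π * (π ^ k * g) := by rw [hg, pow_succ]; ring
      have h1 : π' * (π ^ k * g) ∈ linSys d p m := by
        obtain ⟨a, b, hab, ha, hb⟩ := isHomogeneous_factor (A := π) (G := π ^ k * g) (d := d)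
          (by rw [← hfe]; exact hf.1) (by rw [← hfe]; exact hf0)
        have hae : a = e := ha.inj_right hπe hπ.ne_zero
        refine ⟨?_, fun l => ?_⟩
        · have := hπe'.mul hb
          rwa [← hae, hab] at this
        · apply vanishTo_swap hπ.ne_zero (π := π) _ (hsw l)
          rw [← hfe]
          exact hf.2 l
      have h2 := ih _ h1
      obtain ⟨q, hq⟩ := h2
      have h3 : π ^ k * (π' * g) = π ^ k * (π * q) := by
        calc π ^ k * (π' * g) = π' * (π ^ k * g) := by ring
          _ = π ^ (k + 1) * q := hq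
          _ = π ^ k * (π * q) := by rw [pow_succ]; ring
      have h4 := mul_left_cancel₀ (pow_ne_zero k hπ.ne_zero) h3
      have h5 : π ∣ g := (hpr.dvd_or_dvd ⟨q, h4⟩).resolve_left hnd
      obtain ⟨g', hg'⟩ := h5
      exact ⟨g', by rw [hg, hg', pow_succ _ (k + 1)]; ring⟩
  rw [Submodule.eq_bot_iff]
  intro f hf
  by_contra hf0
  obtain ⟨g, hg⟩ := key d f hf
  obtain ⟨a, b, hab, ha, hb⟩ := isHomogeneous_factor (A := π ^ (d + 1)) (G := g) (d := d)
    (by rw [← hg]; exact hf.1) (by rw [← hg]; exact hf0)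
  have hae : a = e * (d + 1) := ha.inj_right (hπe.pow (d + 1)) (pow_ne_zero _ hπ.ne_zero)
  have h1 : 1 ≤ e := by
    by_contra hcon
    have he0 : e = 0 := by omega
    rw [he0] at hπe
    have h2 : π = C (coeff 0 π) :=
      (totalDegree_eq_zero_iff_eq_C).mp (Nat.le_zero.mp hπe.totalDegree_le)
    apply hπ.not_isUnit
    rw [h2]
    have h3 : coeff 0 π ≠ 0 := by
      intro h4
      rw [h4, C_0] at h2
      exact hπ.ne_zero h2
    exact (IsUnit.mk0 _ h3).map C
  have h2 : d + 1 ≤ e * (d + 1) := Nat.le_mul_of_pos_left _ h1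
  omega

end Pool.Agent.Work.MP_0421d9_ag
end

section
/-!
Common factors of the members of a linear system: adding a point at which the system cuts out a
complete series.
-/

set_option linter.unusedSectionVars false

namespace Pool.Agent.Work.MP_0421d9_ag

open MvPolynomial Module

/-- separation of a form from a space of forms by the pairing -/
theorem exists_sep {d : ℕ} {N : Submodule ℂ R3} (hN : N ≤ Rd d) {f : R3} (hf : f.IsHomogeneous d)
    (hfN : f ∉ N) : ∃ A : R3, A.IsHomogeneous d ∧ (∀ n ∈ N, B A n = 0) ∧ B A f ≠ 0 := by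
  by_contra hcon
  push Not at hcon
  apply hfN
  have h1 := LinearMap.BilinForm.orthogonal_orthogonal (Bd_nondegenerate d) (Bd_isRefl d)
    (N.comap (Rd d).subtype)
  have h2 : (⟨f, hf⟩ : Rd d) ∈ N.comap (Rd d).subtype := by
    rw [← h1, LinearMap.BilinForm.mem_orthogonal_iff]
    intro A hA
    change B A.1 f = 0
    apply hcon A.1 A.2
    intro n hn
    have h3 := (LinearMap.BilinForm.mem_orthogonal_iff.mp hA) ⟨n, hN hn⟩ hn
    rw [B_symm]
    exact h3
  exact h2

/-- evaluation of a form along a line, as a polynomial in one variable -/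
noncomputable def along (v w : V3) (h : R3) : Polynomial ℂ :=
  aeval (fun l => Polynomial.C (v l) + Polynomial.X * Polynomial.C (w l)) h

theorem eval_along (v w : V3) (h : R3) (t : ℂ) :
    (along v w h).eval t = eval (v + t • w) h := by
  unfold along
  induction h using MvPolynomial.induction_on with
  | C c => simp
  | add p q hp hq => simp only [map_add, Polynomial.eval_add, hp, hq]
  | mul_X p n hp =>
    simp only [map_mul, Polynomial.eval_mul, hp, aeval_X, eval_X, Polynomial.eval_add,
      Polynomial.eval_C, Polynomial.eval_X, Pi.add_apply, Pi.smul_apply, smul_eq_mul]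

theorem exists_root_or_const (v w : V3) (h : R3) :
    (∃ t : ℂ, eval (v + t • w) h = 0) ∨ ∃ c : ℂ, ∀ t : ℂ, eval (v + t • w) h = c := by
  by_cases hdeg : (along v w h).degree = 0
  · right
    refine ⟨(along v w h).coeff 0, fun t => ?_⟩
    rw [← eval_along, Polynomial.eq_C_of_degree_eq_zero hdeg, Polynomial.eval_C,
      Polynomial.coeff_C_zero]
  · left
    obtain ⟨t, ht⟩ := IsAlgClosed.exists_root _ hdeg
    refine ⟨t, ?_⟩
    rw [← eval_along]
    exact ht

theorem eval_smul_form {h : R3} {e : ℕ} (hh : h.IsHomogeneous e) (c : ℂ) (v : V3) :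
    eval (c • v) h = c ^ e * eval v h := by
  have h1 := B_lin_pow hh (c • v)
  rw [lin_smul, mul_pow, ← map_pow, B_C_mul_left, B_lin_pow hh v] at h1
  have h2 : (e.factorial : ℂ) ≠ 0 := by exact_mod_cast Nat.factorial_ne_zero e
  apply mul_left_cancel₀ h2
  rw [← h1]
  ring

/-- a form of positive degree vanishes at some point of any line missing a given point -/
theorem exists_zero {p : V3} (hp : p ≠ 0) {h : R3} {e : ℕ} (he : 1 ≤ e) (hh : h.IsHomogeneous e) :
    ∃ u, cr p u ≠ 0 ∧ eval u h = 0 := by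
  obtain ⟨v, w, hv, hw⟩ := exists_indep hp
  by_contra hcon
  push Not at hcon
  have h1 : ∀ t : ℂ, eval (w + t • v) h ≠ 0 := fun t => hcon _ (hw t)
  have h2 : ∀ s : ℂ, s ≠ 0 → eval (v + s • w) h = s ^ e * eval (w + s⁻¹ • v) h := by
    intro s hs
    rw [← eval_smul_form hh]
    congr 1
    rw [smul_add, smul_smul, mul_inv_cancel₀ hs, one_smul, add_comm]
  have h3 : ∀ s : ℂ, eval (v + s • w) h ≠ 0 := by
    intro s
    by_cases hs : s = 0
    · rw [hs, zero_smul, add_zero]
      exact hcon v hv
    · rw [h2 s hs]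
      exact mul_ne_zero (pow_ne_zero _ hs) (h1 _)
  rcases exists_root_or_const w v h with ⟨t, ht⟩ | ⟨c, hc⟩
  · exact h1 t ht
  rcases exists_root_or_const v w h with ⟨t, ht⟩ | ⟨c', hc'⟩
  · exact h3 t ht
  have h4 := h2 1 one_ne_zero
  have h5 := h2 2 two_ne_zero
  rw [hc', hc] at h4 h5
  have hc0 : c ≠ 0 := by
    rw [← hc 0]
    exact h1 0
  rw [h4, one_pow, one_mul] at h5
  have h6 : (2 : ℂ) ^ e = 1 := by
    have h7 : c * (2 ^ e - 1) = 0 := by linear_combination -h5
    have h8 := (mul_eq_zero.mp h7).resolve_left hc0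
    linear_combination h8
  have h7 : ((2 ^ e : ℕ) : ℂ) = ((1 : ℕ) : ℂ) := by
    push_cast
    exact h6
  have h8 : 2 ^ e = 1 := by exact_mod_cast h7
  have h9 : 1 < 2 ^ e := Nat.one_lt_two_pow (by omega)
  omega

section nc

variable {ι : Type} [Fintype ι] [DecidableEq ι] {d : ℕ} {p : ι → V3}
  {E : ι → Fin 3 → Derivation ℚ ℂ ℂ} {z : ι → ℕ} {π : R3}

theorem isHomogeneous_common (hne : linSys d p z ≠ ⊥)
    (hdiv : ∀ f ∈ linSys d p z, π ∣ f) : ∃ e, π.IsHomogeneous e := by
  obtain ⟨f, hf, hf0⟩ := Submodule.exists_mem_ne_zero_of_ne_bot hne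
  obtain ⟨g, hg⟩ := hdiv f hf
  obtain ⟨a, b, -, ha, -⟩ := isHomogeneous_factor (A := π) (G := g) (d := d)
    (by rw [← hg]; exact hf.1) (by rw [← hg]; exact hf0)
  exact ⟨a, ha⟩

/-- a common factor is fixed, up to a scalar, by the motions of the points off it -/
theorem dvd_cD_of_eval_ne (hE : IsDual p E) (hπ : Irreducible π) (hne : linSys d p z ≠ ⊥)
    (hdiv : ∀ f ∈ linSys d p z, π ∣ f) {j : ι} (hj : eval (p j) π ≠ 0) (v : V3) :
    π ∣ cD (mv E j v) π := by
  obtain ⟨e, he⟩ := isHomogeneous_common hne hdiv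
  by_contra hnd
  apply hne
  refine eq_bot_of_swap hπ he (cD_isHomogeneous (mv E j v) he) hnd ?_ hdiv
  intro l k hk
  by_cases hl : l = j
  · subst hl
    cases k with
    | zero => intro n hn; omega
    | succ k =>
      exfalso
      exact hj (vanishTo_one_iff.mp (hk.mono (by omega)))
  · by_cases hke : k ≤ e + 1
    · exact vanishTo_cD_fixed (fun n => mv_ne hE hl v n) he hke hk
    · exfalso
      exact hπ.ne_zero (eq_zero_of_vanishTo he (by omega : e < k) hk)

/-- the system is nonempty if it cuts out a complete series somewhere -/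
theorem ne_bot_of_full (hz : ∀ l, z l ≤ d) {j : ι} (hpj : p j ≠ 0)
    (hfull : Rigid.Full d p z j) : linSys d p z ≠ ⊥ := by
  intro h0
  obtain ⟨v, hv⟩ := exists_cr_ne hpj
  have h1 : lin (p j) ^ (d - z j) * lin v ^ (z j) ∈ J d p z := by
    apply mem_J_of_B (fun l => (hz l).trans (Nat.le_succ d))
    · have := (lin_isHomogeneous_pow (p j) (d - z j)).mul (lin_isHomogeneous_pow v (z j))
      rwa [Nat.sub_add_cancel (hz j)] at this
    · intro F hF
      rw [h0, Submodule.mem_bot] at hF
      rw [hF, map_zero]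
  have h2 := hfull _ (lin_isHomogeneous_pow v (z j)) h1
  have h3 := (lin_prime hpj).dvd_of_dvd_pow h2
  exact hv (lin_dvd_lin h3)

/-- a common factor does not pass through a point where the system cuts out a complete series -/
theorem eval_ne_of_full (hz : ∀ l, z l ≤ d) {j : ι} (hpj : p j ≠ 0)
    (hfull : Rigid.Full d p z j) (hπ : Irreducible π) (hdiv : ∀ f ∈ linSys d p z, π ∣ f) :
    eval (p j) π ≠ 0 := by
  intro h0
  have hne := ne_bot_of_full hz hpj hfull
  obtain ⟨e, he, he'⟩ := exists_order (translate_ne_zero hπ.ne_zero (p j))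
  have he1 : 1 ≤ e := by
    by_contra hcon
    have : e = 0 := by omega
    subst this
    apply he'
    exact vanishTo_one_iff.mpr h0 0 one_pos
  obtain ⟨u, hu, hu0⟩ := exists_zero hpj he1
    (homogeneousComponent_isHomogeneous e (translate (p j) π))
  have h1 : lin (p j) ^ (d - z j) * lin u ^ (z j) ∈ J d p z := by
    apply mem_J_of_B (fun l => (hz l).trans (Nat.le_succ d))
    · have := (lin_isHomogeneous_pow (p j) (d - z j)).mul (lin_isHomogeneous_pow u (z j))
      rwa [Nat.sub_add_cancel (hz j)] at this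
    · intro F hF
      rw [B_lin_pow_mul]
      have hh := dir_iterate_isHomogeneous (p j) (d - z j) hF.1
      rw [Nat.sub_sub_self (hz j)] at hh
      rw [B_lin_pow hh]
      have h2 := taylor_component hF.1 (p j) (hz j)
      have h3 : (((d - z j).factorial : ℂ)⁻¹) ≠ 0 := inv_ne_zero (by
        exact_mod_cast Nat.factorial_ne_zero _)
      obtain ⟨g, hg⟩ := hdiv F hF
      have h4 : eval u (homogeneousComponent (z j) (translate (p j) F)) = 0 := by
        by_cases hez : e ≤ z j
        · have h5 : VanishTo F (p j) (z j) := hF.2 j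
          rw [hg, translate_mul]
          unfold VanishTo at h5
          rw [hg, translate_mul] at h5
          have h6 := le_of_hc_mul he he' h5
          have h7 := hc_mul_lowest he (g := z j - e) (G := translate (p j) g)
            (fun k hk => h6 k (by omega))
          rw [(by omega : e + (z j - e) = z j)] at h7
          rw [h7, map_mul, hu0, zero_mul]
        · have h5 : VanishTo F (p j) (z j + 1) := by
            have h6 : VanishTo π (p j) e := he
            have h7 := vanishTo_mul h6 (vanishTo_zero g (p j))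
            rw [← hg, add_zero] at h7
            exact h7.mono (by omega)
          rw [h5 (z j) (Nat.lt_succ_self _), map_zero]
      rw [h2, map_mul, eval_C] at h4
      rw [(mul_eq_zero.mp h4).resolve_left h3, mul_zero]
  have h2 := hfull _ (lin_isHomogeneous_pow u (z j)) h1
  have h3 := (lin_prime hpj).dvd_of_dvd_pow h2
  exact hu (lin_dvd_lin h3)

end nc

end Pool.Agent.Work.MP_0421d9_ag
end

section
/-!
Generic points give linear systems of the smallest dimension.
-/

namespace Pool.Agent.Work.MP_0421d9_ag.LD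

open MvPolynomial Module

/-- on a line through a generic point almost all points are generic -/
theorem exists_line {σ : Type} [Finite σ] (x z : σ → ℂ) (hz : AlgebraicIndependent ℚ z)
    {S : Set ℂ} (hS : S.Countable) :
    ∃ t : ℂ, t ∉ S ∧ AlgebraicIndependent ℚ (fun i => x i + t * (z i - x i)) := by
  classical
  let P : MvPolynomial σ ℚ → Polynomial ℂ := fun h =>
    aeval (fun i => Polynomial.C (x i) + Polynomial.X * Polynomial.C (z i - x i)) h
  have hP : ∀ h t, (P h).eval t = aeval (fun i => x i + t * (z i - x i)) h := by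
    intro h t
    induction h using MvPolynomial.induction_on with
    | C c =>
      simp only [P, algHom_C]
      rw [IsScalarTower.algebraMap_apply ℚ ℂ (Polynomial ℂ)]
      simp
    | add f g hf hg =>
      simp only [P, map_add, Polynomial.eval_add] at *
      rw [hf, hg]
    | mul_X f k hf =>
      simp only [P, map_mul, aeval_X, Polynomial.eval_mul] at *
      rw [hf]
      simp
  have hne : ∀ h, h ≠ 0 → P h ≠ 0 := by
    intro h hh h0
    apply hh
    have h1 := hP h 1
    rw [h0, Polynomial.eval_zero] at h1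
    have h2 : (fun i => x i + 1 * (z i - x i)) = z := by
      funext i; ring
    rw [h2] at h1
    exact (algebraicIndependent_iff.mp hz) h h1.symm
  have hcM : Countable (MvPolynomial σ ℚ) := by
    rw [← Cardinal.mk_le_aleph0_iff]
    refine (MvPolynomial.cardinalMk_le_max (σ := σ) (R := ℚ)).trans ?_
    simp only [max_le_iff]
    exact ⟨⟨Cardinal.mk_le_aleph0, Cardinal.mk_le_aleph0⟩, le_rfl⟩
  have hc : (⋃ h : {h : MvPolynomial σ ℚ // h ≠ 0}, {t : ℂ | (P h).eval t = 0}).Countable := by
    refine Set.countable_iUnion fun h => Set.Finite.countable ?_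
    refine ((P h.1).roots.toFinset.finite_toSet).subset ?_
    intro t ht
    rw [Finset.mem_coe, Multiset.mem_toFinset, Polynomial.mem_roots (hne h.1 h.2)]
    exact ht
  have hex : ∃ t : ℂ, t ∉ S ∪ ⋃ h : {h : MvPolynomial σ ℚ // h ≠ 0}, {t : ℂ | (P h).eval t = 0} := by
    by_contra hcon
    push Not at hcon
    exact not_countable_complex ((hS.union hc).mono fun t _ => hcon t)
  obtain ⟨t, ht⟩ := hex
  rw [Set.mem_union, not_or] at ht
  refine ⟨t, ht.1, ?_⟩
  rw [algebraicIndependent_iff]
  intro h h0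
  by_contra hh
  apply ht.2
  rw [Set.mem_iUnion]
  refine ⟨⟨h, hh⟩, ?_⟩
  show (P h).eval t = 0
  rw [hP, h0]

theorem Sys_zero {r : ℕ} (D : ℕ) (y : Fin r → ℕ) (A : ℕ → ℕ) (p : Fin r → V3) (q v : ℕ → V3) :
    Sys D y 0 A p q v = linSys D p y := by
  ext F
  rw [mem_Sys]
  constructor
  · rintro ⟨h1, h2, -⟩
    exact ⟨h1, h2⟩
  · rintro ⟨h1, h2⟩
    exact ⟨h1, h2, fun l hl => absurd hl (Nat.not_lt_zero l)⟩

theorem finrank_Sys_zero {r : ℕ} (D : ℕ) (y : Fin r → ℕ) (A : ℕ → ℕ) (p : Fin r → V3)
    (q v : ℕ → V3) : finrank ℂ (Sys D y 0 A p q v) = finrank ℂ (linSys D p y) := by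
  rw [Sys_zero]

theorem generic_le {r : ℕ} {p : Fin r → V3} (hp : GenericPoints p) (d : ℕ) (y : Fin r → ℕ)
    (p₀ : Fin r → V3) : finrank ℂ (linSys d p y) ≤ finrank ℂ (linSys d p₀ y) := by
  classical
  obtain ⟨c₁, hc₁⟩ := exists_extension (κ := Fin r) p hp
  obtain ⟨g, hg, h1⟩ := Sys_semicont d y 0 (fun _ => 0) p₀ c₁ (fun _ => 0) (fun _ => 0)
    (fun _ => 0) (fun _ => 0)
  simp only [finrank_Sys_zero] at h1
  obtain ⟨t, ht, hind⟩ := exists_line
    (fun z : (Fin r ⊕ Fin r) × Fin 3 => Sum.elim p p₀ z.1 z.2) _ hc₁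
    (S := {t | g.eval t = 0}) (Set.Finite.countable (by
      refine (g.roots.toFinset.finite_toSet).subset ?_
      intro t ht
      rw [Finset.mem_coe, Multiset.mem_toFinset, Polynomial.mem_roots hg]
      exact ht))
  have h2 := h1 t ht
  set c : Fin r → V3 := fun i k => p₀ i k + t * (c₁ i k - p₀ i k) with hc
  have h3 : (fun z : (Fin r ⊕ Fin r) × Fin 3 => (fun z : (Fin r ⊕ Fin r) × Fin 3 =>
      Sum.elim p p₀ z.1 z.2) z + t * ((fun z : (Fin r ⊕ Fin r) × Fin 3 =>
      Sum.elim p c₁ z.1 z.2) z - (fun z : (Fin r ⊕ Fin r) × Fin 3 => Sum.elim p p₀ z.1 z.2) z)) =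
      fun z => Sum.elim p c z.1 z.2 := by
    funext z
    rcases z with ⟨i | i, k⟩
    · simp
    · simp [hc]
  rw [h3] at hind
  obtain ⟨s, hs⟩ := exists_auto hind (Equiv.sumComm (Fin r) (Fin r))
  have h4 : (fun (i : Fin r) (k : Fin 3) => s (p i k)) = c := by
    funext i k
    exact hs (Sum.inl i) k
  rw [finrank_linSys_map s d p y, h4]
  exact h2

end Pool.Agent.Work.MP_0421d9_ag.LD
end

section
/-!
The one-point lemma: a form with few terms which vanishes to high order at a point with nonzero
coordinates is zero.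
-/

namespace Pool.Agent.Work.MP_0421d9_ag.LD

open MvPolynomial Module

/-- the operator `X s * ∂_s - c` -/
noncomputable def th (s : Fin 3) (c : ℕ) (F : R3) : R3 := X s * pderiv s F - C (c : ℂ) * F

theorem coeff_X_mul_pderiv (s : Fin 3) (F : R3) (β : Fin 3 →₀ ℕ) :
    coeff β (X s * pderiv s F) = (β s : ℂ) * coeff β F := by
  classical
  rw [coeff_X_mul']
  split_ifs with h
  · rw [coeff_pderiv]
    have h1 : β s ≠ 0 := Finsupp.mem_support_iff.mp h
    have h2 : β - Finsupp.single s 1 + Finsupp.single s 1 = β := by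
      ext i
      rw [Finsupp.add_apply, Finsupp.tsub_apply, Finsupp.single_apply]
      split_ifs with hi
      · subst hi; omega
      · omega
    have h3 : (((β - Finsupp.single s 1 : Fin 3 →₀ ℕ) s : ℕ) : ℂ) + 1 = β s := by
      rw [Finsupp.tsub_apply, Finsupp.single_eq_same]
      rw [Nat.cast_sub (by omega)]
      push_cast
      ring
    rw [h2, h3, mul_comm]
  · rw [Finsupp.notMem_support_iff] at h
    rw [h]; simp

theorem coeff_th (s : Fin 3) (c : ℕ) (F : R3) (β : Fin 3 →₀ ℕ) :
    coeff β (th s c F) = ((β s : ℂ) - c) * coeff β F := by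
  unfold th
  rw [coeff_sub, coeff_X_mul_pderiv, coeff_C_mul]
  ring

theorem pderiv_translate (s : Fin 3) (p : V3) (F : R3) :
    pderiv s (translate p F) = translate p (pderiv s F) := by
  unfold translate
  induction F using MvPolynomial.induction_on with
  | C c => simp
  | add f g hf hg => simp only [map_add, hf, hg]
  | mul_X f k hf =>
    rw [map_mul, Derivation.leibniz, hf, Derivation.leibniz, map_add, smul_eq_mul, smul_eq_mul,
      smul_eq_mul, smul_eq_mul, map_mul, map_mul, aeval_X, map_add, pderiv_C, zero_add]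
    congr 2
    by_cases hk : k = s
    · subst hk; simp
    · rw [pderiv_X_of_ne hk]; simp

theorem VanishTo.th {F : R3} {p : V3} {k : ℕ} (h : VanishTo F p (k + 1)) (s : Fin 3) (c : ℕ) :
    VanishTo (th s c F) p k := by
  rw [vanishTo_iff_coeff] at h ⊢
  intro β hβ
  unfold LD.th
  unfold translate at *
  rw [map_sub, map_mul, map_mul, aeval_X, algHom_C, coeff_sub]
  have h1 : coeff β (aeval (fun k => C (p k) + X k) F) = 0 := h β (by omega)
  have h2 : (algebraMap ℂ (MvPolynomial (Fin 3) ℂ)) (c : ℂ) = C (c : ℂ) := rfl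
  have h3 := pderiv_translate s p F
  unfold translate at h3
  rw [h2, coeff_C_mul, h1, mul_zero, sub_zero, ← h3, add_mul, coeff_add, coeff_C_mul,
    coeff_X_mul_pderiv, h1, mul_zero, add_zero, coeff_pderiv, h _ ?_, zero_mul, mul_zero]
  rw [map_add, Finsupp.degree_single]
  omega

/-- composition of the operators `th` -/
noncomputable def thL : List (Fin 3 × ℕ) → R3 → R3
  | [], F => F
  | x :: l, F => th x.1 x.2 (thL l F)

theorem coeff_thL (l : List (Fin 3 × ℕ)) (F : R3) (β : Fin 3 →₀ ℕ) :
    coeff β (thL l F) = (l.map (fun x => (β x.1 : ℂ) - x.2)).prod * coeff β F := by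
  induction l with
  | nil => simp [thL]
  | cons x l ih =>
    rw [thL, coeff_th, ih, List.map_cons, List.prod_cons, mul_assoc]

theorem VanishTo.thL {F : R3} {p : V3} (l : List (Fin 3 × ℕ)) :
    ∀ {k : ℕ}, VanishTo F p (k + l.length) → VanishTo (thL l F) p k := by
  induction l with
  | nil => intro k h; simpa [LD.thL] using h
  | cons x l ih =>
    intro k h
    rw [LD.thL]
    apply VanishTo.th
    apply ih
    rw [List.length_cons] at h
    have e : k + 1 + l.length = k + (l.length + 1) := by ring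
    rw [e]; exact h

/-- one-point lemma. Rows: exponent of `X s`; in a row the exponent of `X t` separates. -/
theorem one_point {F : R3} {p : V3} {m : ℕ} (hp : ∀ i, p i ≠ 0) (hF : VanishTo F p m)
    (s t : Fin 3) (lev : ℕ → ℕ) (B : ℕ → Finset ℕ)
    (hlev : ∀ α ∈ F.support, 1 ≤ lev (α s) ∧ lev (α s) ≤ m)
    (hinj : ∀ α ∈ F.support, ∀ β ∈ F.support, lev (α s) = lev (β s) → α s = β s)
    (hsep : ∀ α ∈ F.support, ∀ β ∈ F.support, α s = β s → α t = β t → α = β)
    (hB : ∀ α ∈ F.support, α t ∈ B (α s))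
    (hc : ∀ α ∈ F.support, (B (α s)).card ≤ lev (α s)) : F = 0 := by
  classical
  by_contra hF0
  have hne : F.support.Nonempty := by
    rw [Finset.nonempty_iff_ne_empty]
    intro h
    exact hF0 (MvPolynomial.support_eq_empty.mp h)
  obtain ⟨α, hα, hmin⟩ := Finset.exists_min_image F.support (fun β => lev (β s)) hne
  set R := (F.support.image (fun β => β s)).erase (α s) with hR
  set B' := (B (α s)).erase (α t) with hB'
  have hRcard : R.card ≤ m - lev (α s) := by
    have h1 : R.card = (R.image lev).card := by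
      rw [Finset.card_image_of_injOn]
      intro c hc c' hc' hcc
      rw [hR, Finset.mem_coe, Finset.mem_erase, Finset.mem_image] at hc hc'
      obtain ⟨_, β, hβ, rfl⟩ := hc
      obtain ⟨_, β', hβ', rfl⟩ := hc'
      exact hinj β hβ β' hβ' hcc
    have h2 : R.image lev ⊆ Finset.Ioc (lev (α s)) m := by
      intro v hv
      rw [Finset.mem_image] at hv
      obtain ⟨c, hc, rfl⟩ := hv
      rw [hR, Finset.mem_erase, Finset.mem_image] at hc
      obtain ⟨hne, β, hβ, rfl⟩ := hc
      rw [Finset.mem_Ioc]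
      refine ⟨lt_of_le_of_ne (hmin β hβ) ?_, (hlev β hβ).2⟩
      intro h
      exact hne (hinj β hβ α hα h.symm)
    rw [h1]
    have h3 := Finset.card_le_card h2
    rwa [Nat.card_Ioc] at h3
  have hB'card : B'.card + 1 ≤ lev (α s) := by
    rw [hB', Finset.card_erase_of_mem (hB α hα)]
    have := hc α hα
    have h1 : 0 < (B (α s)).card := Finset.card_pos.mpr ⟨_, hB α hα⟩
    omega
  have hm := (hlev α hα).2
  set l : List (Fin 3 × ℕ) := R.toList.map (fun c => (s, c)) ++ B'.toList.map (fun c => (t, c))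
    with hl
  have hlen : 1 + l.length ≤ m := by
    rw [hl, List.length_append, List.length_map, List.length_map, Finset.length_toList,
      Finset.length_toList]
    omega
  have hV : VanishTo (thL l F) p 1 := VanishTo.thL l (VanishTo.mono hF hlen)
  have hprod : ∀ β : Fin 3 →₀ ℕ, (l.map (fun x => (β x.1 : ℂ) - x.2)).prod = 0 ↔
      β s ∈ R ∨ β t ∈ B' := by
    intro β
    rw [List.prod_eq_zero_iff, hl, List.map_append, List.mem_append, List.map_map, List.map_map,
      List.mem_map, List.mem_map]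
    simp only [Function.comp_apply, sub_eq_zero, Nat.cast_inj, Finset.mem_toList]
    constructor
    · rintro (⟨c, hc, h⟩ | ⟨c, hc, h⟩)
      · left; rw [h]; exact hc
      · right; rw [h]; exact hc
    · rintro (h | h)
      · left; exact ⟨_, h, rfl⟩
      · right; exact ⟨_, h, rfl⟩
  have hH : thL l F = monomial α (coeff α (thL l F)) := by
    ext β
    rw [coeff_monomial]
    split_ifs with h
    · rw [h]
    · rw [coeff_thL]
      by_cases hβ : β ∈ F.support
      · have h1 : β s ∈ R ∨ β t ∈ B' := by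
          by_cases h2 : β s = α s
          · right
            rw [hB', Finset.mem_erase]
            refine ⟨fun h3 => h (hsep α hα β hβ h2.symm h3.symm), ?_⟩
            rw [← h2]
            exact hB β hβ
          · left
            rw [hR, Finset.mem_erase, Finset.mem_image]
            exact ⟨h2, β, hβ, rfl⟩
        rw [(hprod β).mpr h1, zero_mul]
      · rw [MvPolynomial.notMem_support_iff.mp hβ, mul_zero]
  have hcoef : coeff α (thL l F) ≠ 0 := by
    rw [coeff_thL]
    refine mul_ne_zero ?_ (MvPolynomial.mem_support_iff.mp hα)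
    rw [Ne, hprod α, not_or]
    exact ⟨Finset.notMem_erase _ _, Finset.notMem_erase _ _⟩
  -- the value at `p`
  have h0 : eval p (thL l F) = 0 := by
    have h1 := hV 0 one_pos
    have h2 := eval_translate p 0 (thL l F)
    rw [add_zero] at h2
    rw [← h2]
    have h3 : eval (0 : V3) (translate p (thL l F)) = coeff 0 (translate p (thL l F)) := by
      rw [← MvPolynomial.constantCoeff_eq]
      have := MvPolynomial.eval_zero (σ := Fin 3) (R := ℂ)
      rw [← this]
    rw [h3]
    have h4 := congrArg (coeff 0) h1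
    rw [coeff_homogeneousComponent, coeff_zero] at h4
    simpa using h4
  rw [hH, eval_monomial] at h0
  rcases mul_eq_zero.mp h0 with h1 | h1
  · exact hcoef h1
  · rw [Finsupp.prod, Finset.prod_eq_zero_iff] at h1
    obtain ⟨i, _, hi⟩ := h1
    exact pow_ne_zero (α i) (hp i) hi

end Pool.Agent.Work.MP_0421d9_ag.LD
end

section
/-!
A strip of monomials is cut into triangles, each of which is killed by one point.
-/

namespace Pool.Agent.Work.MP_0421d9_ag.LD

open MvPolynomial Module

/-- peeling off one piece -/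
theorem Kills.peel {D u n : ℕ} {T T' : Set (Fin 3 →₀ ℕ)} (w : Fin 3 → ℕ) (c : ℕ)
    (hkill : ∀ G : R3, G.IsHomogeneous D → (∀ α ∈ G.support, α ∈ T ∧ wt3 w α ≤ c) →
      VanishTo G 1 u → G = 0)
    (hsub : ∀ α : Fin 3 →₀ ℕ, α ∈ T → ¬ wt3 w α ≤ c → α ∈ T')
    (hK : Kills D u n T') : Kills D u (n + 1) T := by
  obtain ⟨p, hp, hK⟩ := hK
  let U : Submodule ℂ R3 :=
    { carrier := {F | F.IsHomogeneous D ∧ (∀ α ∈ F.support, α ∈ T) ∧ ∀ k, VanishTo F (p k) u}
      zero_mem' := ⟨isHomogeneous_zero _ _ _, by simp, fun k => (vanSub (p k) u).zero_mem⟩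
      add_mem' := by
        rintro F G ⟨h1, h2, h3⟩ ⟨h4, h5, h6⟩
        refine ⟨h1.add h4, ?_, fun k => (vanSub (p k) u).add_mem (h3 k) (h6 k)⟩
        intro α hα
        rw [MvPolynomial.mem_support_iff, coeff_add] at hα
        by_cases h7 : coeff α F = 0
        · rw [h7, zero_add] at hα
          exact h5 α (MvPolynomial.mem_support_iff.mpr hα)
        · exact h2 α (MvPolynomial.mem_support_iff.mpr h7)
      smul_mem' := by
        rintro a F ⟨h1, h2, h3⟩
        refine ⟨by rw [smul_eq_C_mul]; exact h1.C_mul a, ?_,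
          fun k => (vanSub (p k) u).smul_mem a (h3 k)⟩
        intro α hα
        rw [MvPolynomial.mem_support_iff, coeff_smul, smul_eq_mul] at hα
        exact h2 α (MvPolynomial.mem_support_iff.mpr (right_ne_zero_of_mul hα)) }
  have hU : ∀ F ∈ U, F.IsHomogeneous D ∧ ∀ α ∈ F.support, α ∈ T := fun F hF => ⟨hF.1, hF.2.1⟩
  obtain ⟨τ, hτ, hle⟩ := cut w c (κ := Unit) (fun _ => 1) (fun _ => u) T
    (fun G h1 h2 h3 => hkill G h1 h2 (h3 ())) U hU
  have hbot : U ⊓ offSub {α | wt3 w α ≤ c} = ⊥ := by
    rw [Submodule.eq_bot_iff]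
    rintro F ⟨⟨h1, h2, h3⟩, h4⟩
    refine hK F h1 (fun α hα => ?_) h3
    refine hsub α (h2 α hα) (fun h5 => ?_)
    exact (MvPolynomial.mem_support_iff.mp hα) (h4 α h5)
  rw [hbot, finrank_bot, Nat.le_zero] at hle
  have hUD : U ≤ Rd D := fun F hF => hF.1
  have hfin : Module.Finite ℂ
      ↥(U ⊓ ⨅ _ : Unit, vanSub (fun i => τ ^ w i * (1 : V3) i) u) :=
    Submodule.finiteDimensional_of_le (inf_le_left.trans hUD)
  have hbot2 := Submodule.finrank_eq_zero.mp hle
  refine ⟨Fin.snoc p (fun i => τ ^ w i * (1 : V3) i), ?_, ?_⟩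
  · intro k i
    refine Fin.lastCases ?_ (fun k => ?_) k
    · rw [Fin.snoc_last]
      exact mul_ne_zero (pow_ne_zero _ hτ) one_ne_zero
    · rw [Fin.snoc_castSucc]
      exact hp k i
  · intro G h1 h2 h3
    have h4 : G ∈ U ⊓ ⨅ _ : Unit, vanSub (fun i => τ ^ w i * (1 : V3) i) u := by
      rw [Submodule.mem_inf, Submodule.mem_iInf]
      refine ⟨⟨h1, h2, fun k => ?_⟩, fun _ => ?_⟩
      · have h5 := h3 (Fin.castSucc k)
        rw [Fin.snoc_castSucc] at h5
        exact h5
      · have h5 := h3 (Fin.last n)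
        rw [Fin.snoc_last] at h5
        exact h5
    rw [hbot2, Submodule.mem_bot] at h4
    exact h4

theorem Kills.mono {D u n : ℕ} {T T' : Set (Fin 3 →₀ ℕ)} (hK : Kills D u n T')
    (h : ∀ α : Fin 3 →₀ ℕ, α.degree = D → α ∈ T → α ∈ T') : Kills D u n T := by
  obtain ⟨p, hp, hK⟩ := hK
  refine ⟨p, hp, fun G h1 h2 h3 => hK G h1 (fun α hα => ?_) h3⟩
  exact h α (degree_of_mem_support h1 (MvPolynomial.mem_support_iff.mp hα)) (h2 α hα)

theorem deg_eq {G : R3} {D : ℕ} (hG : G.IsHomogeneous D) {α : Fin 3 →₀ ℕ} (hα : α ∈ G.support) :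
    α 0 + α 1 + α 2 = D := by
  have h1 := degree_of_mem_support hG (MvPolynomial.mem_support_iff.mp hα)
  rw [Finsupp.degree_eq_sum, Fin.sum_univ_three] at h1
  exact h1

theorem ext02 {G : R3} {D : ℕ} (hG : G.IsHomogeneous D) {α β : Fin 3 →₀ ℕ} (hα : α ∈ G.support)
    (hβ : β ∈ G.support) (h0 : α 0 = β 0) (h2 : α 2 = β 2) : α = β := by
  have h3 := deg_eq hG hα
  have h4 := deg_eq hG hβ
  ext i
  fin_cases i
  · exact h0
  · change α 1 = β 1
    omega
  · exact h2

theorem one_ne (i : Fin 3) : (1 : V3) i ≠ 0 := one_ne_zero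

/-- the corner triangle on the right of the strip -/
theorem tri_right {G : R3} {D u : ℕ} (hG : G.IsHomogeneous D)
    (hs : ∀ α ∈ G.support, α 1 + α 2 + 1 ≤ u) (hv : VanishTo G 1 u) : G = 0 := by
  refine one_point one_ne hv 0 2 (fun a => D - a + 1) (fun a => Finset.range (D - a + 1)) ?_ ?_ ?_
    ?_ ?_
  · intro α hα
    have h1 := hs α hα
    have h2 := deg_eq hG hα
    omega
  · intro α hα β hβ h
    have h2 := deg_eq hG hα
    have h3 := deg_eq hG hβ
    omega
  · intro α hα β hβ h0 h2
    exact ext02 hG hα hβ h0 h2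
  · intro α hα
    have h2 := deg_eq hG hα
    rw [Finset.mem_range]
    omega
  · intro α hα
    rw [Finset.card_range]

/-- the corner triangle with the corner `(R, 0)` -/
theorem tri_corner {G : R3} {D u R : ℕ} (hG : G.IsHomogeneous D)
    (hs : ∀ α ∈ G.support, α 0 ≤ R ∧ R + α 2 + 1 ≤ u + α 0) (hv : VanishTo G 1 u) : G = 0 := by
  refine one_point one_ne hv 0 2 (fun a => u - (R - a)) (fun a => Finset.range (u - (R - a)))
    ?_ ?_ ?_ ?_ ?_
  · intro α hα
    have h1 := hs α hα
    omega
  · intro α hα β hβ h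
    have h1 := hs α hα
    have h2 := hs β hβ
    omega
  · intro α hα β hβ h0 h2
    exact ext02 hG hα hβ h0 h2
  · intro α hα
    have h1 := hs α hα
    rw [Finset.mem_range]
    omega
  · intro α hα
    rw [Finset.card_range]

/-- the rest of a block of `u + 1` columns of height `u` -/
theorem rest_wide {G : R3} {D u R : ℕ} (hG : G.IsHomogeneous D) (hR : u ≤ R)
    (hs : ∀ α ∈ G.support, R ≤ α 0 + u ∧ α 0 ≤ R ∧ u + α 0 ≤ R + α 2 ∧ α 2 < u)
    (hv : VanishTo G 1 u) : G = 0 := by
  refine one_point one_ne hv 2 0 (fun c => c + 1) (fun c => Finset.Icc (R - u) (R - u + c))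
    ?_ ?_ ?_ ?_ ?_
  · intro α hα
    have h1 := hs α hα
    omega
  · intro α hα β hβ h
    omega
  · intro α hα β hβ h0 h2
    exact ext02 hG hα hβ h2 h0
  · intro α hα
    have h1 := hs α hα
    rw [Finset.mem_Icc]
    omega
  · intro α hα
    rw [Nat.card_Icc]
    omega

/-- the rest of a block of `u` columns of height `u + 1` -/
theorem rest_high {G : R3} {D u R : ℕ} (hG : G.IsHomogeneous D)
    (hs : ∀ α ∈ G.support, R + 1 ≤ α 0 + u ∧ α 0 ≤ R ∧ u + α 0 ≤ R + α 2 ∧ α 2 ≤ u)
    (hv : VanishTo G 1 u) : G = 0 := by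
  refine one_point one_ne hv 0 2 (fun a => R - a + 1) (fun a => Finset.Icc (u - (R - a)) u)
    ?_ ?_ ?_ ?_ ?_
  · intro α hα
    have h1 := hs α hα
    omega
  · intro α hα β hβ h
    have h1 := hs α hα
    have h2 := hs β hβ
    omega
  · intro α hα β hβ h0 h2
    exact ext02 hG hα hβ h0 h2
  · intro α hα
    have h1 := hs α hα
    rw [Finset.mem_Icc]
    omega
  · intro α hα
    have h1 := hs α hα
    rw [Nat.card_Icc]
    omega

/-- the part of the strip to the left of the column `R` -/
def strip (D u A R : ℕ) : Set (Fin 3 →₀ ℕ) :=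
  {α | α 0 + α 1 + α 2 = D ∧ α 0 < R ∧ (α 2 < u ∨ (α 2 = u ∧ α 0 < A))}

theorem wt011 (α : Fin 3 →₀ ℕ) : wt3 ![0, 1, 1] α = α 1 + α 2 := by
  unfold wt3
  rw [Fin.sum_univ_three]
  simp

theorem wt012 (α : Fin 3 →₀ ℕ) : wt3 ![0, 1, 2] α = α 1 + 2 * α 2 := by
  unfold wt3
  rw [Fin.sum_univ_three]
  simp

theorem step_high {D u A R n : ℕ} (hu : 1 ≤ u) (hA : R + u ≤ A) (hD : R + u ≤ D + 1)
    (hK : Kills D u n (strip D u A R)) : Kills D u (n + 2) (strip D u A (R + u)) := by
  -- the corner is `R + u - 1`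
  have h1 : Kills D u (n + 1)
      {α | α ∈ strip D u A (R + u) ∧ ¬ wt3 ![0, 1, 2] α ≤ D - (R + u - 1) + u - 1} := by
    refine Kills.peel (w := ![0, 1, 1]) (c := D - R) ?_ ?_ hK
    · intro G hG hs hv
      refine rest_high (R := R + u - 1) hG ?_ hv
      intro α hα
      obtain ⟨⟨⟨h2, h3, h4⟩, h5⟩, h6⟩ := hs α hα
      rw [wt012] at h5
      rw [wt011] at h6
      omega
    · intro α hα h2
      obtain ⟨⟨h3, h4, h5⟩, h6⟩ := hα
      rw [wt011] at h2
      exact ⟨h3, by omega, h5⟩
  refine Kills.peel (w := ![0, 1, 2]) (c := D - (R + u - 1) + u - 1) ?_ ?_ h1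
  · intro G hG hs hv
    refine tri_corner (R := R + u - 1) hG ?_ hv
    intro α hα
    obtain ⟨⟨h2, h3, h4⟩, h5⟩ := hs α hα
    rw [wt012] at h5
    omega
  · intro α hα h2
    exact ⟨hα, h2⟩

theorem step_wide {D u A R n : ℕ} (hu : 1 ≤ u) (hA : A ≤ R) (hD : R + u ≤ D)
    (hK : Kills D u n (strip D u A R)) : Kills D u (n + 2) (strip D u A (R + (u + 1))) := by
  -- the corner is `R + u`
  have h1 : Kills D u (n + 1)
      {α | α ∈ strip D u A (R + (u + 1)) ∧ ¬ wt3 ![0, 1, 2] α ≤ D - (R + u) + u - 1} := by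
    refine Kills.peel (w := ![0, 1, 1]) (c := D - R) ?_ ?_ hK
    · intro G hG hs hv
      refine rest_wide (R := R + u) hG (by omega) ?_ hv
      intro α hα
      obtain ⟨⟨⟨h2, h3, h4⟩, h5⟩, h6⟩ := hs α hα
      rw [wt012] at h5
      rw [wt011] at h6
      omega
    · intro α hα h2
      obtain ⟨⟨h3, h4, h5⟩, h6⟩ := hα
      rw [wt011] at h2
      exact ⟨h3, by omega, h5⟩
  refine Kills.peel (w := ![0, 1, 2]) (c := D - (R + u) + u - 1) ?_ ?_ h1
  · intro G hG hs hv
    refine tri_corner (R := R + u) hG ?_ hv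
    intro α hα
    obtain ⟨⟨h2, h3, h4⟩, h5⟩ := hs α hα
    rw [wt012] at h5
    omega
  · intro α hα h2
    exact ⟨hα, h2⟩

theorem kills_high {D u A : ℕ} (hu : 1 ≤ u) (j : ℕ) (hA : j * u ≤ A) (hD : j * u ≤ D + 1) :
    Kills D u (2 * j) (strip D u A (j * u)) := by
  induction j with
  | zero =>
    refine ⟨fun k => 1, fun k i => one_ne_zero, fun G _ h2 _ => ?_⟩
    rw [← MvPolynomial.support_eq_empty, Finset.eq_empty_iff_forall_notMem]
    intro α hα
    obtain ⟨_, h3, _⟩ := h2 α hα
    omega
  | succ j ih =>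
    have e : (j + 1) * u = j * u + u := by ring
    rw [e] at hA hD ⊢
    have e2 : 2 * (j + 1) = 2 * j + 2 := by ring
    rw [e2]
    exact step_high hu hA hD (ih (by omega) (by omega))

theorem kills_wide {D u A : ℕ} (hu : 1 ≤ u) (a j : ℕ) (hA : A = a * u)
    (hD : A + j * (u + 1) ≤ D + 1) :
    Kills D u (2 * (a + j)) (strip D u A (A + j * (u + 1))) := by
  induction j with
  | zero =>
    rw [Nat.zero_mul, Nat.add_zero] at hD ⊢
    have h := kills_high (D := D) (A := A) hu a hA.ge (by omega)
    rw [← hA] at h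
    exact h
  | succ j ih =>
    have e : A + (j + 1) * (u + 1) = A + j * (u + 1) + (u + 1) := by ring
    rw [e] at hD ⊢
    have e2 : 2 * (a + (j + 1)) = 2 * (a + j) + 2 := by ring
    rw [e2]
    exact step_wide hu (by omega) (by omega) (ih (by omega))

theorem kills_strip (u a b δ : ℕ) (hu : 1 ≤ u) (h : δ + 1 = a * u + b * (u + 1)) :
    Kills (δ + u) u (2 * (a + b) + 1) {α | α 2 < u ∨ (α 2 = u ∧ α 0 < a * u)} := by
  have h1 := kills_wide (D := δ + u) (A := a * u) hu a b rfl (by omega)
  rw [← h] at h1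
  have h2 : Kills (δ + u) u (2 * (a + b) + 1) (strip (δ + u) u (a * u) (δ + u + 1)) := by
    refine Kills.peel (w := ![0, 1, 1]) (c := u - 1) ?_ ?_ h1
    · intro G hG hs hv
      refine tri_right hG ?_ hv
      intro α hα
      obtain ⟨_, h5⟩ := hs α hα
      rw [wt011] at h5
      omega
    · intro α hα h2
      obtain ⟨h3, h4, h5⟩ := hα
      rw [wt011] at h2
      exact ⟨h3, by omega, h5⟩
  refine h2.mono ?_
  intro α hα hT
  rw [Finsupp.degree_eq_sum, Fin.sum_univ_three] at hα
  exact ⟨hα, by omega, hT⟩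

end Pool.Agent.Work.MP_0421d9_ag.LD
end

section
/-!
The base case: few points of multiplicity at most `M` and many flags.
-/

namespace Pool.Agent.Work.MP_0421d9_ag.LD

open MvPolynomial Module

/-- the statement of `flag_step` -/
def FlagStep : Prop :=
  ∀ {r : ℕ} (y : Fin r → ℕ) (e : ℕ) (A : ℕ → ℕ) (p : Fin r → V3) (_ : ∀ i, p i ≠ 0)
    (q v : ℕ → V3) (_ : ∀ l < e, q l ≠ 0) (B N : ℕ),
    ∃ q' v' : V3, q' ≠ 0 ∧ ∀ D ≤ N,
      finrank ℂ ↥(Sys (D + 1) y e A p q v ⊓ flagSub q' v' B) ≤
        max (finrank ℂ (Sys (D + 1) y e A p q v) - B) (finrank ℂ (Sys D y e A p q v))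

/-- one more flag -/
theorem Sys_succ {r : ℕ} (D : ℕ) (y : Fin r → ℕ) (e : ℕ) (A : ℕ → ℕ) (p : Fin r → V3)
    (q v : ℕ → V3) (q' v' : V3) :
    Sys D y (e + 1) A p (Function.update q e q') (Function.update v e v') =
      Sys D y e A p q v ⊓ flagSub q' v' (A e) := by
  ext F
  rw [mem_Sys, Submodule.mem_inf, mem_Sys]
  constructor
  · rintro ⟨h1, h2, h3⟩
    refine ⟨⟨h1, h2, fun l hl => ?_⟩, ?_⟩
    · have h4 := h3 l (by omega)
      rwa [Function.update_of_ne (by omega), Function.update_of_ne (by omega)] at h4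
    · have h4 := h3 e (by omega)
      rwa [Function.update_self, Function.update_self] at h4
  · rintro ⟨⟨h1, h2, h3⟩, h4⟩
    refine ⟨h1, h2, fun l hl => ?_⟩
    by_cases hle : l = e
    · subst hle
      rwa [Function.update_self, Function.update_self]
    · rw [Function.update_of_ne hle, Function.update_of_ne hle]
      exact h3 l (by omega)

/-- the dimension of a generic system with multiplicities at most `M` -/
theorem generic_bound {r d M : ℕ} {p : Fin r → V3} (hp : GenericPoints p) {m : Fin r → ℕ}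
    (hM : ∀ i, m i ≤ M) :
    finrank ℂ (linSys d p m) ≤ max ((d + 2).choose 2 - ∑ i, (m i + 1).choose 2)
      (if ∑ i, (m i + 1).choose 2 < (d + 2).choose 2 + (M + 1).choose 3 then (M - 1) * (M - 1)
        else 0) := by
  by_cases h0 : linSys d p m = ⊥
  · rw [h0, finrank_bot]
    exact Nat.zero_le _
  by_cases h1 : finrank ℂ (linSys d p m) + ∑ i, (m i + 1).choose 2 = (d + 2).choose 2
  · exact le_max_of_le_left (by omega)
  · obtain ⟨i, j, -, h2⟩ := special_le hp h0 h1
    have h3 : (m i - 1) * (m j - 1) ≤ (M - 1) * (M - 1) :=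
      Nat.mul_le_mul (Nat.sub_le_sub_right (hM i) 1) (Nat.sub_le_sub_right (hM j) 1)
    have h4 : ∑ i, (m i + 1).choose 2 < (d + 2).choose 2 + (M + 1).choose 3 := by
      by_contra hcon
      exact h0 (window_empty hp hM (not_lt.mp hcon))
    rw [if_pos h4]
    exact le_max_of_le_right (h2.trans h3)

theorem base_of (hflag : FlagStep) {r M : ℕ} {p : Fin r → V3} (hp : GenericPoints p)
    (y : Fin r → ℕ) (hy : ∀ i, y i ≤ M) (δ e : ℕ) (A : ℕ → ℕ)
    (hA : ∀ l < e, (M - 1) * (M - 1) ≤ A l) (hA' : ∀ l < e, A l + e ≤ δ + 1)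
    (hend : (δ - e + 2).choose 2 + (M + 1).choose 3 ≤ ∑ i, (y i + 1).choose 2) (he : e ≤ δ) :
    Good δ y e A ((δ + 2).choose 2 - (∑ i, (y i + 1).choose 2 + ∑ l ∈ Finset.range e, A l)) := by
  set S := ∑ i, (y i + 1).choose 2 with hS
  set c₃ := (M + 1).choose 3 with hc₃
  set K := (M - 1) * (M - 1) with hK
  let a : ℕ → ℕ := fun t => if S < (δ - t + 2).choose 2 + c₃ then K else 0
  have haK : ∀ t, a t ≤ K := by
    intro t
    show (if S < (δ - t + 2).choose 2 + c₃ then K else 0) ≤ K
    split_ifs
    · exact le_rfl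
    · exact Nat.zero_le _
  have hp0 : ∀ i, p i ≠ 0 := by
    intro i h
    have h1 : p i 0 = 0 := by rw [h]; rfl
    exact hp.ne_zero (i, 0) h1
  have key : ∀ i, i ≤ e → ∃ q v : ℕ → V3, (∀ l < i, q l ≠ 0) ∧ ∀ j, i + j ≤ e →
      finrank ℂ (Sys (δ - j) y i A p q v) ≤
        max ((δ - j + 2).choose 2 - (S + ∑ l ∈ Finset.range i, A l)) (a (i + j)) := by
    intro i
    induction i with
    | zero =>
      intro _
      refine ⟨fun _ => 0, fun _ => 0, fun l hl => absurd hl (Nat.not_lt_zero l), fun j _ => ?_⟩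
      rw [finrank_Sys_zero, Finset.range_zero, Finset.sum_empty, add_zero, Nat.zero_add]
      exact generic_bound hp hy
    | succ i ih =>
      intro hi
      obtain ⟨q, v, hq, h1⟩ := ih (by omega)
      obtain ⟨q', v', hq', h2⟩ := hflag y i A p hp0 q v hq (A i) δ
      refine ⟨Function.update q i q', Function.update v i v', fun l hl => ?_, fun j hj => ?_⟩
      · by_cases hle : l = i
        · subst hle
          rwa [Function.update_self]
        · rw [Function.update_of_ne hle]
          exact hq l (by omega)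
      · have e1 : δ - j = δ - (j + 1) + 1 := by omega
        have h3 := h2 (δ - (j + 1)) (Nat.sub_le _ _)
        rw [← e1] at h3
        rw [Sys_succ]
        refine h3.trans ?_
        have h4 := h1 j (by omega)
        have h5 := h1 (j + 1) (by omega)
        have h6 : (δ - j + 2).choose 2 = (δ - (j + 1) + 2).choose 2 + (δ - (j + 1) + 2) := by
          have e2 : δ - j + 2 = (δ - (j + 1) + 2) + 1 := by omega
          rw [e2, Nat.choose_succ_succ' _ 1, Nat.choose_one_right]
          ring
        have h7 := hA i (by omega)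
        have h8 := hA' i (by omega)
        have h9 := haK (i + j)
        have e3 : i + (j + 1) = i + 1 + j := by omega
        rw [e3] at h5
        rw [Finset.sum_range_succ]
        generalize (∑ l ∈ Finset.range i, A l) = s at *
        generalize a (i + j) = a₁ at *
        generalize a (i + 1 + j) = a₂ at *
        generalize (δ - j + 2).choose 2 = n₁ at *
        generalize (δ - (j + 1) + 2).choose 2 = n₂ at *
        generalize finrank ℂ (Sys (δ - j) y i A p q v) = f₁ at *
        generalize finrank ℂ (Sys (δ - (j + 1)) y i A p q v) = f₂ at *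
        rw [le_max_iff] at h4 h5
        rw [max_le_iff, le_max_iff, le_max_iff]
        constructor
        · left
          rcases h4 with h4 | h4
          · omega
          · omega
        · rcases h5 with h5 | h5
          · left; omega
          · right; exact h5
  obtain ⟨q, v, -, h1⟩ := key e le_rfl
  refine ⟨p, q, v, ?_⟩
  have h2 := h1 0 (by omega)
  have h3 : a e = 0 := by
    show (if S < (δ - e + 2).choose 2 + c₃ then K else 0) = 0
    rw [if_neg (not_lt.mpr hend)]
  rw [Nat.sub_zero, add_zero, h3] at h2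
  simpa using h2

theorem flagStep_all : FlagStep := fun y e A p hp q v hq B N => flag_step y e A p hp q v hq B N

theorem base {r M : ℕ} {p : Fin r → V3} (hp : GenericPoints p) (y : Fin r → ℕ)
    (hy : ∀ i, y i ≤ M) (δ e : ℕ) (A : ℕ → ℕ) (hA : ∀ l < e, (M - 1) * (M - 1) ≤ A l)
    (hA' : ∀ l < e, A l + e ≤ δ + 1)
    (hend : (δ - e + 2).choose 2 + (M + 1).choose 3 ≤ ∑ i, (y i + 1).choose 2) (he : e ≤ δ) :
    Good δ y e A ((δ + 2).choose 2 - (∑ i, (y i + 1).choose 2 + ∑ l ∈ Finset.range e, A l)) :=
  base_of flagStep_all hp y hy δ e A hA hA' hend he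

end Pool.Agent.Work.MP_0421d9_ag.LD
end

section
/-!
The square root window: for special nonempty systems with multiplicities at most `M` the square
roots of the dimension and of the superabundance add up to at most `M`.
-/

set_option linter.unusedSectionVars false

namespace Pool.Agent.Work.MP_0421d9_ag

open MvPolynomial Module

section sq

variable {ι : Type} [Fintype ι] [DecidableEq ι] {d : ℕ} {p : ι → V3}
  {E : ι → Fin 3 → Derivation ℚ ℂ ℂ}

/-- the chain argument, when all the codimensions are bounded -/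
theorem chain_all (hE : IsDual p E) (i : ι) (K : ℕ) : ∀ (N : ℕ) (y : ι → ℕ), cc d p y i ≤ N →
    cc d p y i ≤ y i →
    (∀ j, j ≠ i → 1 ≤ y j → cc d p (up (dn y j) i) j ≤ K) →
    finrank ℂ (linSys d p (up y i)) ≤ N * K := by
  intro N
  induction N with
  | zero =>
    intro y hN _ _
    have h1 := finrank_eq_zero_of_cc hE i (d + 1) y (by omega) (Nat.le_zero.mp hN)
    have h2 := cc_add (d := d) (p := p) y i
    omega
  | succ N ih =>
    intro y hN hc hy
    by_cases hV : finrank ℂ (linSys d p (up y i)) = 0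
    · rw [hV]; exact Nat.zero_le _
    have hyu := le_of_finrank_pos hV
    have hyd : ∀ l, y l ≤ d := fun l => (le_up y i l).trans (hyu l)
    have hyi : y i + 1 ≤ d := by
      have := hyu i
      rwa [up_self] at this
    have hpos : 0 < cc d p y i := by
      rcases Nat.eq_zero_or_pos (cc d p y i) with h0 | h0
      · exfalso
        apply hV
        have h1 := finrank_eq_zero_of_cc hE i (d + 1) y (by omega) h0
        have h2 := cc_add (d := d) (p := p) y i
        omega
      · exact h0
    obtain ⟨j, hji, hyj, hlt, hcj⟩ := activity hE hyd i hyi hc hpos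
    set z := dn y j with hz
    have hyz : up z j = y := up_dn hyj
    have hzj : z j = y j - 1 := dn_self y j
    have hcj' : cc d p (up z i) j ≤ y j - 1 := hcj
    have hzi : ∀ l, up z i l ≤ d := by
      intro l
      by_cases hl : l = i
      · rw [hl, up_self, hz, dn_ne _ hji.symm]; exact hyi
      · rw [up_ne _ hl]
        exact (dn_le y j l).trans (hyd l)
    have hcK : cc d p (up z i) j ≤ K := hy j hji hyj
    have hzij : up z i j = z j := up_ne _ hji
    have hcost : cc d p (up y i) j ≤ cc d p (up z i) j := by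
      have h1 := cc_up_self hE hzi j (by rw [hzij, hzj]; exact hcj')
      rwa [up_comm, hyz] at h1
    have h3 := cc_add (d := d) (p := p) (up y i) j
    have h4 : finrank ℂ (linSys d p (up (up y j) i)) ≤ N * K := by
      apply ih (up y j) (by omega)
      · rw [up_ne _ hji.symm]; omega
      · intro l hli hyl
        by_cases hlj : l = j
        · subst hlj
          have e1 : dn (up y l) l = y := by
            funext x
            by_cases hx : x = l
            · rw [hx, dn_self, up_self]; omega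
            · rw [dn_ne _ hx, up_ne _ hx]
          rw [e1]
          exact hcost.trans hcK
        · rw [up_ne _ hlj] at hyl
          have e1 : up (dn (up y j) l) i = up (up (dn y l) i) j := by
            rw [up_comm (dn y l) i j]
            congr 1
            funext x
            by_cases hx : x = l
            · rw [hx, dn_self, up_ne _ hlj, up_ne _ hlj, dn_self]
            · rw [dn_ne _ hx]
              by_cases hx' : x = j
              · rw [hx', up_self, up_self, dn_ne _ (fun h => hlj h.symm)]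
              · rw [up_ne _ hx', up_ne _ hx', dn_ne _ hx]
          rw [e1]
          exact (cc_mono _ hlj).trans (hy l hli hyl)
    rw [up_comm y i j] at h3
    rw [h3, Nat.succ_mul]
    omega

/-- a special system does not cut out a complete series at some point -/
theorem exists_defect (hE : IsDual p E) {m : ι → ℕ}
    (h : (d + 2).choose 2 < finrank ℂ (linSys d p m) + ∑ i, (m i + 1).choose 2) :
    ∃ i, 1 ≤ m i ∧ cc d p (dn m i) i ≤ m i - 1 := by
  obtain ⟨y, i, hy, hc⟩ := exists_incomplete (∑ i, m i) m le_rfl h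
  have hyi : y i + 1 ≤ m i := by
    have := hy i
    rwa [up_self] at this
  refine ⟨i, by omega, ?_⟩
  set y' : ι → ℕ := Function.update m i (y i) with hy'
  have hy'i : y' i = y i := by rw [hy', Function.update_self]
  have h3 : cc d p y' i ≤ cc d p y i := by
    apply cc_mono_le
    · intro l
      by_cases hl : l = i
      · rw [hl, hy'i]
      · rw [hy', Function.update_of_ne hl]
        have := hy l
        rwa [up_ne _ hl] at this
    · exact hy'i.symm
  have h5 := cc_update_le hE (y := y') (i := i) (c := y i) (h3.trans hc) (by rw [hy'i])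
    (m i - 1 - y i)
  have h6 : Function.update y' i (y' i + (m i - 1 - y i)) = dn m i := by
    rw [hy'i, hy', Function.update_idem, (by omega : y i + (m i - 1 - y i) = m i - 1)]
    rfl
  rw [h6] at h5
  omega

end sq

end Pool.Agent.Work.MP_0421d9_ag
end

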