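import Mathlib.Algebra.MvPolynomial.Division
import Pool.Agent.Work.Z0421M.C03
import Pool.Agent.Work.Z0421M.C04
import Pool.Agent.Work.Z0421M.C12

section
/-!
Arbitrary multiplicities in degree at least `C M ^ (1 + ε)`: further definitions.
-/

namespace Pool.Agent.Work.MP_0421d9_ag.LD

open MvPolynomial Module

/-- generic points of the plane in affine coordinates -/
noncomputable def aff {ι : Type} (p : ι → V3) : ι → Fin 2 → ℂ :=
  fun i => ![p i 0 / p i 2, p i 1 / p i 2]

/-- the conditions imposed by, and the multiplicities of, the points which are used -/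
def StripOut {r : ℕ} (H L : ℕ) (P : Finset (Fin r)) (y : Fin r → ℕ) (u : ℕ) : Prop :=
  ∃ (κ X : ℕ) (y' : Fin r → ℕ) (Cu Su : ℕ), RStep H L κ X y y' ∧
    (∀ i, i ∉ P → y' i = y i) ∧ Cu + ∑ i, (y' i + 1).choose 2 = ∑ i, (y i + 1).choose 2 ∧
    Su + ∑ i, y' i = ∑ i, y i ∧ κ ≤ 2 * u ∧
    32 * (X + Cu) ≤ 32 * ((κ + 1) * L) + Su ∧ 32 * Cu ≤ 32 * ((κ + 1) * L) + Su ∧
    (κ + 1) * L ≤ 2 * Cu

/-- the number of monomials in `κ` rows of the triangle of degree `D` -/
def Frow (D κ : ℕ) : ℕ := κ * (D + 1) - κ.choose 2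

/-- `df k = (2 k - 3)!!` for `k ≥ 2`, `df 0 = df 1 = 1` -/
def df : ℕ → ℕ
  | 0 => 1
  | 1 => 1
  | (k + 2) => (2 * k + 1) * df (k + 1)

/-- a strip of the plane: some of the points kill the forms with exponents in `κ` rows and in a
further piece of `A` monomials; `y'` is `y` without these points -/
def StripK {r : ℕ} (D κ A : ℕ) (y y' : Fin r → ℕ) : Prop :=
  ∃ (N : ℕ) (e : Fin N → Fin r), Function.Injective e ∧ 1 ≤ κ ∧ κ + 1 ≤ D ∧ A ≤ D - κ + 1 ∧
    A + κ * (D + 1) = ∑ k, (y (e k) + 1).choose 2 + κ.choose 2 ∧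
    Killsm D (y ∘ e) {α | α 2 < κ ∨ (α 2 = κ ∧ α 0 < A)} ∧ y' = rest e y

/-- a strip with gain: `G` times the gain is at least the sum of the multiplicities used -/
def StripGain {r : ℕ} (D G : ℕ) (P : Finset (Fin r)) (y : Fin r → ℕ) (u : ℕ) : Prop :=
  ∃ (κ A : ℕ) (y' : Fin r → ℕ) (Su : ℕ), StripK D κ A y y' ∧ (∀ i, i ∉ P → y' i = y i) ∧
    Su + ∑ i, y' i = ∑ i, y i ∧ κ ≤ 2 * u ∧ 1 ≤ Su ∧ Su ≤ G * A ∧ Su ≤ G * (D - κ + 1 - A)

end Pool.Agent.Work.MP_0421d9_ag.LD
end

section
/-!
Arbitrary multiplicities in degree at least `C M ^ (1 + ε)`: pools of multiplicities.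
-/

namespace Pool.Agent.Work.MP_0421d9_ag.LD

open MvPolynomial Module

/-! ### pools -/

/-- the sum of the multiplicities in the pool `s` -/
def psum {r : ℕ} (P : ℕ → ℕ) (y : Fin r → ℕ) (s : ℕ) : ℕ := ∑ i, if P (y i) = s then y i else 0

theorem psum_eq_filter {r : ℕ} (P : ℕ → ℕ) (y : Fin r → ℕ) (s : ℕ) :
    psum P y s = ∑ i ∈ Finset.univ.filter (fun i => P (y i) = s), y i := by
  rw [psum, Finset.sum_filter]

theorem psum_mono {r : ℕ} (P : ℕ → ℕ) {y y' : Fin r → ℕ} (h : ∀ i, y' i = y i ∨ y' i = 0)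
    (s : ℕ) : psum P y' s ≤ psum P y s := by
  refine Finset.sum_le_sum fun i _ => ?_
  rcases h i with h1 | h1
  · rw [h1]
  · rw [h1, ite_self]
    exact Nat.zero_le _

/-- the pools with index less than `s₀` -/
theorem low_pools {r : ℕ} (P : ℕ → ℕ) (y : Fin r → ℕ) {s₀ B : ℕ} (h : ∀ s, s < s₀ →
    psum P y s ≤ B) : (∑ i, if P (y i) < s₀ then y i else 0) ≤ s₀ * B := by
  have h1 : (∑ i, if P (y i) < s₀ then y i else 0) = ∑ s ∈ Finset.range s₀, psum P y s := by
    unfold psum
    rw [Finset.sum_comm]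
    refine Finset.sum_congr rfl fun i _ => ?_
    rw [Finset.sum_ite_eq]
    simp only [Finset.mem_range]
  rw [h1]
  calc _ ≤ ∑ s ∈ Finset.range s₀, B := Finset.sum_le_sum fun s hs => h s (Finset.mem_range.1 hs)
    _ = s₀ * B := by rw [Finset.sum_const, Finset.card_range, smul_eq_mul]

/-- the smallest available pool: `v` is its least multiplicity, `u` its greatest multiplicity -/
theorem least_pool {r : ℕ} {P : ℕ → ℕ} {p U T J : ℕ} (hP : Pools P p U T J) {y : Fin r → ℕ}
    {B s₀ : ℕ} (hB : 1 ≤ B) (h1 : B ≤ psum P y s₀) (h2 : ∀ s, s < s₀ → psum P y s ≤ B) :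
    ∃ v u : ℕ, 1 ≤ v ∧ v ≤ u ∧ u ≤ v + v / p ∧ P v = s₀ ∧ P u = s₀ ∧ (∃ i, y i = u) ∧
      (∃ i, y i = v) ∧
      (∀ i, P (y i) = s₀ → v ≤ y i ∧ y i ≤ u) ∧
      ∑ i, y i ≤ s₀ * B + ∑ i, (if v ≤ y i then y i else 0) := by
  classical
  have hne : (Finset.univ.filter (fun i => P (y i) = s₀)).Nonempty := by
    rw [Finset.nonempty_iff_ne_empty]
    intro h
    rw [psum_eq_filter, h, Finset.sum_empty] at h1
    omega
  obtain ⟨i₀, hi₀, hmin⟩ := Finset.exists_min_image _ y hne
  obtain ⟨i₁, hi₁, hmax⟩ := Finset.exists_max_image _ y hne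
  have hi₀' := (Finset.mem_filter.1 hi₀).2
  have hi₁' := (Finset.mem_filter.1 hi₁).2
  have hv : 1 ≤ y i₀ := by
    by_contra hv
    have hv0 : y i₀ = 0 := by omega
    -- all the multiplicities in the pool vanish
    have h3 : psum P y s₀ = 0 := by
      rw [psum_eq_filter]
      refine Finset.sum_eq_zero fun i hi => ?_
      have h4 := (Finset.mem_filter.1 hi).2
      have h5 := hP.width (y i₀) (y i) (hi₀'.trans h4.symm) (by omega)
      rw [hv0, Nat.zero_div] at h5
      omega
    omega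
  refine ⟨y i₀, y i₁, hv, hmin i₁ hi₁, hP.width _ _ (hi₀'.trans hi₁'.symm) (hmin i₁ hi₁), hi₀',
    hi₁', ⟨i₁, rfl⟩, ⟨i₀, rfl⟩, fun i hi => ?_, ?_⟩
  · have hi' : i ∈ Finset.univ.filter (fun i => P (y i) = s₀) :=
      Finset.mem_filter.2 ⟨Finset.mem_univ _, hi⟩
    exact ⟨hmin i hi', hmax i hi'⟩
  · have h4 := low_pools P y h2
    have h5 : ∑ i, y i ≤ (∑ i, if P (y i) < s₀ then y i else 0) +
        ∑ i, (if y i₀ ≤ y i then y i else 0) := by
      rw [← Finset.sum_add_distrib]
      refine Finset.sum_le_sum fun i _ => ?_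
      by_cases h6 : y i₀ ≤ y i
      · rw [if_pos h6]
        exact Nat.le_add_left _ _
      · have h7 : P (y i) ≤ s₀ := hi₀' ▸ hP.mono (by omega)
        have h8 : P (y i) ≠ s₀ := fun h8 => h6 (hmin i
          (Finset.mem_filter.2 ⟨Finset.mem_univ _, h8⟩))
        rw [if_pos (lt_of_le_of_ne h7 h8)]
        exact Nat.le_add_right _ _
    omega

/-- multiplicities at least `v` -/
theorem large_part {r : ℕ} (y : Fin r → ℕ) (v : ℕ) :
    (v + 1) * ∑ i, (if v ≤ y i then y i else 0) ≤ 2 * ∑ i, (y i + 1).choose 2 := by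
  rw [Finset.mul_sum, Finset.mul_sum]
  refine Finset.sum_le_sum fun i _ => ?_
  have h1 := Nat.choose_two_right (y i + 1)
  have h2 : 2 * (y i + 1).choose 2 = (y i + 1) * y i := by
    rw [h1, Nat.add_sub_cancel]
    exact Nat.mul_div_cancel' ((Nat.even_mul_pred_self (y i + 1)).two_dvd)
  rw [h2]
  split_ifs with h
  · exact Nat.mul_le_mul_right _ (by omega)
  · rw [Nat.mul_zero]
    exact Nat.zero_le _

theorem two_choose (n : ℕ) : 2 * (n + 1).choose 2 = n ^ 2 + n := by
  have h := Nat.mul_div_cancel' ((Nat.even_mul_pred_self (n + 1)).two_dvd)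
  rw [Nat.choose_two_right, h, Nat.add_sub_cancel]
  ring

theorem two_sum_choose {r : ℕ} (y : Fin r → ℕ) :
    2 * ∑ i, (y i + 1).choose 2 = ∑ i, y i ^ 2 + ∑ i, y i := by
  rw [Finset.mul_sum, ← Finset.sum_add_distrib]
  exact Finset.sum_congr rfl fun i _ => two_choose (y i)

/-- the used points have multiplicities at most `2 v` -/
theorem used_part {r : ℕ} {k y : Fin r → ℕ} {v : ℕ} (hy : ∀ i, y i = k i ∨ y i = 0)
    (h : ∀ i, y i ≠ k i → k i ≤ 2 * v) :
    2 * (∑ i, (k i + 1).choose 2) + (2 * v + 1) * ∑ i, y i ≤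
      2 * (∑ i, (y i + 1).choose 2) + (2 * v + 1) * ∑ i, k i := by
  rw [Finset.mul_sum, Finset.mul_sum, Finset.mul_sum, Finset.mul_sum,
    ← Finset.sum_add_distrib, ← Finset.sum_add_distrib]
  refine Finset.sum_le_sum fun i _ => ?_
  rw [two_choose, two_choose]
  rcases hy i with h1 | h1
  · rw [h1]
  · by_cases h2 : y i = k i
    · rw [h2]
    · have h3 := h i h2
      rw [h1]
      nlinarith [Nat.zero_le (k i)]

end Pool.Agent.Work.MP_0421d9_ag.LD
end

section
/-!
Strips of a rectangle.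
-/

namespace Pool.Agent.Work.MP_0421d9_ag.LD

open MvPolynomial Module

theorem rect_strip {H L k α β N : ℕ} (hk : 1 ≤ k) (hH : k + 1 ≤ H) (hL2 : 2 ≤ L)
    (hL : L = α * k + β * (k + 1)) :
    hR H L k (N + 2 * (α + β)) ≤ max (hR (H - k) L k N - α * k) (hR (H - k - 1) L k N) := by
  have hle : α * k ≤ L := by omega
  have h1 : Kills (H + L - 3 - k + 1 + k) k (2 * (α + β))
      {γ | γ ∈ rect H L ∧ (γ 2 < k ∨ (γ 2 = k ∧ γ 0 < α * k))} := by
    have h2 := kills_wide (D := H + L - 3 - k + 1 + k) (A := α * k) hk α β rfl (by omega)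
    refine h2.mono ?_
    intro γ hγ hT
    obtain ⟨⟨h3, h4⟩, h5⟩ := hT
    rw [degree_three] at hγ
    exact ⟨hγ, by omega, h5⟩
  have h2 := peel (r := N) hk (A := α * k) (by omega) (T := rect H L)
    (fun α' β' h3 h4 h5 _ => ⟨by rw [h4]; exact h3.1, lt_of_le_of_lt h5 h3.2⟩) h1
  have e1 : H + L - 3 - k + 1 + k = H + L - 2 := by omega
  have e2 : H + L - 3 - k + 1 = H - k + L - 2 := by omega
  have e3 : H + L - 3 - k = H - k - 1 + L - 2 := by omega
  have e4 : {γ : Fin 3 →₀ ℕ | γ + Finsupp.single 2 k ∈ rect H L} = rect (H - k) L := by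
    ext γ
    constructor
    · rintro ⟨h3, h4⟩
      rw [Finsupp.add_apply, Finsupp.single_eq_same] at h3
      rw [Finsupp.add_apply, Finsupp.single_eq_of_ne (by decide), add_zero] at h4
      exact ⟨by omega, h4⟩
    · rintro ⟨h3, h4⟩
      refine ⟨?_, ?_⟩
      · rw [Finsupp.add_apply, Finsupp.single_eq_same]
        omega
      · rw [Finsupp.add_apply, Finsupp.single_eq_of_ne (by decide), add_zero]
        exact h4
  have e5 : {γ : Fin 3 →₀ ℕ | γ + Finsupp.single 2 (k + 1) ∈ rect H L} = rect (H - k - 1) L := by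
    ext γ
    constructor
    · rintro ⟨h3, h4⟩
      rw [Finsupp.add_apply, Finsupp.single_eq_same] at h3
      rw [Finsupp.add_apply, Finsupp.single_eq_of_ne (by decide), add_zero] at h4
      exact ⟨by omega, h4⟩
    · rintro ⟨h3, h4⟩
      refine ⟨?_, ?_⟩
      · rw [Finsupp.add_apply, Finsupp.single_eq_same]
        omega
      · rw [Finsupp.add_apply, Finsupp.single_eq_of_ne (by decide), add_zero]
        exact h4
  rw [e1, e2, e3, e4, e5] at h2
  exact h2

theorem two_choose_succ (k : ℕ) : 2 * (k + 1).choose 2 = k * (k + 1) := by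
  have h := Nat.triangle_succ k
  have h2 := Nat.choose_two_right (k + 1)
  rw [Nat.add_sub_cancel] at h2
  have h3 : Even ((k + 1) * k) := by
    rw [mul_comm]
    exact Nat.even_mul_succ_self k
  rw [h2, Nat.mul_div_cancel' h3.two_dvd, mul_comm]

theorem rect_pack_aux {L k α β : ℕ} (hk : 1 ≤ k) (hL2 : 2 ≤ L)
    (hL : L = α * k + β * (k + 1)) : ∀ (u H : ℕ), (k + 1) * u ≤ H →
      hR H L k (2 * (α + β) * u) + 2 * (α + β) * u * (k + 1).choose 2 = H * L := by
  intro u
  induction u with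
  | zero =>
    intro H _
    rw [Nat.mul_zero, hR_no_points, Nat.zero_mul, Nat.add_zero]
  | succ u ih =>
    intro H hH
    have hH' : (k + 1) * u + (k + 1) ≤ H := by
      rw [Nat.mul_succ] at hH
      exact hH
    have e : 2 * (α + β) * (u + 1) = 2 * (α + β) * u + 2 * (α + β) := by ring
    have h1 := rect_strip (N := 2 * (α + β) * u) hk (by omega : k + 1 ≤ H) hL2 hL
    have h2 := ih (H - k) (by omega)
    have h3 := ih (H - k - 1) (by omega)
    have h4 := hR_count H L k (2 * (α + β) * (u + 1))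
    rw [e] at h4 ⊢
    set N := 2 * (α + β) * u with hN
    set μ := (k + 1).choose 2 with hμ
    have hμ2 : 2 * μ = k * (k + 1) := two_choose_succ k
    refine le_antisymm ?_ h4
    obtain ⟨K, hK⟩ : ∃ K, H = K + k + 1 := ⟨H - k - 1, by omega⟩
    have e1 : H - k = K + 1 := by omega
    have e2 : H - k - 1 = K := by omega
    rw [e1] at h1 h2
    rw [Nat.add_sub_cancel] at h1
    rw [e2] at h3
    have e3 : (N + 2 * (α + β)) * μ = N * μ + (α + β) * (k * (k + 1)) := by
      rw [← hμ2]
      ring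
    have e4 : H * L = (K + 1) * L + α * (k * k) + β * (k * (k + 1)) := by
      rw [hK, hL]
      ring
    have e5 : H * L = K * L + α * (k * (k + 1)) + β * ((k + 1) * (k + 1)) := by
      rw [hK, hL]
      ring
    have e6 : α * (k * (k + 1)) = α * (k * k) + α * k := by ring
    have e7 : (α + β) * (k * (k + 1)) = α * (k * (k + 1)) + β * (k * (k + 1)) := by ring
    have e8 : β * (k * (k + 1)) ≤ β * ((k + 1) * (k + 1)) :=
      Nat.mul_le_mul_left _ (Nat.mul_le_mul_right _ (Nat.le_succ k))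
    rcases le_max_iff.mp h1 with h5 | h5
    · rw [e3]
      rcases Nat.lt_or_ge (hR (K + 1) L k N) (α * k) with h6 | h6
      · -- both systems are small
        have h7 : hR H L k (N + 2 * (α + β)) = 0 := by omega
        have h8 : H * L ≤ N * μ + (α + β) * (k * (k + 1)) := by
          rw [h7, e3, zero_add] at h4
          exact h4
        have h9 : N * μ ≤ K * L := by omega
        rw [h7]
        omega
      · omega
    · rw [e3]
      omega

theorem rect_pack {H L k α β N u : ℕ} (hk : 1 ≤ k) (hL2 : 2 ≤ L)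
    (hL : L = α * k + β * (k + 1)) (hu : (k + 1) * u ≤ H) (hN : N ≤ 2 * (α + β) * u) :
    hR H L k N + N * (k + 1).choose 2 = H * L := by
  have h1 := rect_pack_aux hk hL2 hL u H hu
  have h2 : hR H L k N ≤ hR H L k (2 * (α + β) * u) +
      (2 * (α + β) * u - N) * (k + 1).choose 2 := hT_drop hN
  have h3 := hR_count H L k N
  rw [Nat.sub_mul] at h2
  have h4 := Nat.mul_le_mul_right ((k + 1).choose 2) hN
  omega

end Pool.Agent.Work.MP_0421d9_ag.LD
end

section
/-!
Windows on `P¹ × P¹`: with few or many conditions the dimension is the expected one up to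
`(H - 1).choose 2`.
-/

namespace Pool.Agent.Work.MP_0421d9_ag.LD

open MvPolynomial Module

theorem uw_choose_pred (x : ℕ) : x.choose 2 = (x - 1).choose 2 + (x - 1) := by
  rcases Nat.eq_zero_or_pos x with hx | hx
  · subst hx
    rfl
  · obtain ⟨y, rfl⟩ : ∃ y, x = y + 1 := ⟨x - 1, by omega⟩
    rw [Nat.add_sub_cancel, Nat.choose_succ_succ' y 1, Nat.choose_one_right, add_comm]

/-- a sequence with growing increments, from below -/
theorem uw_low {H L : ℕ} {h w : ℕ → ℕ} (h1 : ∀ L, h (L + 1) = h L + w L)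
    (h3 : ∀ L, w L ≤ w (L + 1)) (h4 : ∀ L, 0 < w L → w L < H → w L < w (L + 1))
    (h2 : ∀ L, w L ≤ H) (hL : 1 ≤ w L) :
    ∀ J, min H (1 + J) ≤ w (L + J) ∧
      J * H + (H - 1 - J).choose 2 ≤ (h (L + 1 + J) - h (L + 1)) + (H - 1).choose 2 ∧
      h (L + 1) ≤ h (L + 1 + J) := by
  intro J
  induction J with
  | zero =>
    refine ⟨?_, ?_, le_refl _⟩
    · rw [Nat.add_zero, Nat.add_zero]
      exact (min_le_right _ _).trans hL
    · simp
  | succ J ih =>
    obtain ⟨i1, i2, i3⟩ := ih
    have j1 : min H (1 + (J + 1)) ≤ w (L + (J + 1)) := by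
      have k1 := h2 (L + J)
      have k2 := h3 (L + J)
      have k3 := h4 (L + J)
      have k4 : L + (J + 1) = L + J + 1 := by omega
      rw [k4]
      rcases Nat.lt_or_ge (w (L + J)) H with k5 | k5
      · have k6 : 0 < w (L + J) := by
          have : 0 < min H (1 + J) := by
            apply lt_min <;> omega
          omega
        have k7 := k3 k6 k5
        have k8 : 1 + J ≤ w (L + J) := by
          by_contra hcon
          have : min H (1 + J) ≤ w (L + J) := i1
          rcases Nat.le_total H (1 + J) with k9 | k9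
          · rw [min_eq_left k9] at this
            omega
          · rw [min_eq_right k9] at this
            omega
        exact (min_le_right _ _).trans (by omega)
      · exact (min_le_left _ _).trans (by omega)
    have j2 : h (L + 1 + (J + 1)) = h (L + 1 + J) + w (L + (J + 1)) := by
      have k1 : L + 1 + (J + 1) = L + 1 + J + 1 := by omega
      have k2 : L + (J + 1) = L + 1 + J := by omega
      rw [k1, h1, k2]
    refine ⟨j1, ?_, by omega⟩
    have j3 := uw_choose_pred (H - 1 - J)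
    have j4 : H - 1 - J - 1 = H - 1 - (J + 1) := by omega
    rw [j4] at j3
    have j5 : H ≤ min H (1 + (J + 1)) + (H - 1 - (J + 1)) := by
      rcases Nat.le_total H (1 + (J + 1)) with k9 | k9
      · rw [min_eq_left k9]
        omega
      · rw [min_eq_right k9]
        omega
    have j6 : (J + 1) * H = J * H + H := by ring
    rw [j2, j6]
    omega

/-- a sequence with growing increments, from above -/
theorem uw_high {H L : ℕ} {h w : ℕ → ℕ} (h1 : ∀ L, h (L + 1) = h L + w L)
    (h4 : ∀ L, 0 < w L → w L < H → w L < w (L + 1))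
    (h3 : ∀ L, w L ≤ w (L + 1)) (hL : w L < H) :
    ∀ n, n ≤ L → w (L - n) ≤ H - 1 - n ∧
      h L + (H - 1 - n).choose 2 ≤ h (L - n) + (H - 1).choose 2 := by
  intro n
  induction n with
  | zero =>
    intro _
    rw [Nat.sub_zero, Nat.sub_zero]
    exact ⟨by omega, le_refl _⟩
  | succ n ih =>
    intro hn
    obtain ⟨i1, i2⟩ := ih (by omega)
    have k1 : L - n = L - (n + 1) + 1 := by omega
    have k2 := h3 (L - (n + 1))
    have k3 := h4 (L - (n + 1))
    have k4 := h1 (L - (n + 1))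
    rw [← k1] at k2 k3 k4
    have k5 : w (L - (n + 1)) ≤ H - 1 - (n + 1) := by
      rcases Nat.eq_zero_or_pos (w (L - (n + 1))) with k6 | k6
      · omega
      · have k7 := k3 k6 (by omega)
        omega
    refine ⟨k5, ?_⟩
    have j3 := uw_choose_pred (H - 1 - n)
    have j4 : H - 1 - n - 1 = H - 1 - (n + 1) := by omega
    rw [j4] at j3
    omega

theorem rect_window1 {H L k N : ℕ} (hk : k ≤ H) (h : hR H L k N ≠ 0) :
    hR H L k N + N * (k + 1).choose 2 ≤ H * L + (H - 1).choose 2 := by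
  have hH : 1 ≤ H := by
    rcases Nat.eq_zero_or_pos H with h0 | h0
    · exact absurd (by rw [h0]; exact hR_zero L k N) h
    · exact h0
  obtain ⟨w, h1, h2, h3, h4⟩ := rank_growth (k := k) (N := N) hH
  have hmono : ∀ i j, i ≤ j → w i ≤ w j := fun i j hij => monotone_nat_of_le_succ h3 hij
  obtain ⟨L', rfl⟩ : ∃ L', L = L' + 1 := by
    rcases Nat.eq_zero_or_pos L with h0 | h0
    · exact absurd (by rw [h0]; exact hR_zero_right H k N) h
    · exact ⟨L - 1, by omega⟩
  have hw : 1 ≤ w L' := by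
    by_contra hcon
    have h5 : ∀ j, j ≤ L' → w j = 0 := fun j hj => by
      have := hmono j L' hj
      omega
    have h6 : ∀ j, j ≤ L' + 1 → hR H j k N = 0 := by
      intro j
      induction j with
      | zero => intro _; exact hR_zero_right H k N
      | succ j ih =>
        intro hj
        rw [h1, ih (by omega), h5 j (by omega)]
    exact h (h6 _ (le_refl _))
  obtain ⟨-, h6, h7⟩ := uw_low (H := H) (L := L') (h := fun L => hR H L k N) (w := w) h1 h3 h4 h2
    hw (N * k)
  have h8 := hR_large (H := H) (L := L' + 1 + N * k) (k := k) (N := N) hk (by omega)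
  have h9 : H * (L' + 1 + N * k) = H * (L' + 1) + N * k * H := by ring
  rw [h9] at h8
  omega

theorem rect_window2 {H L k N : ℕ} (hk : k ≤ H)
    (h : N * (k + 1).choose 2 + (H - 1).choose 2 ≤ H * L) :
    hR H L k N + N * (k + 1).choose 2 = H * L := by
  rcases Nat.eq_zero_or_pos H with hH | hH
  · subst hH
    rw [hR_zero]
    omega
  obtain ⟨w, h1, h2, h3, h4⟩ := rank_growth (k := k) (N := N) hH
  have hcount := hR_count H L k N
  rcases Nat.lt_or_ge (w L) H with h5 | h5
  · obtain ⟨-, h6⟩ := uw_high (H := H) (L := L) (h := fun L => hR H L k N) (w := w) h1 h4 h3 h5 L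
      (le_refl _)
    rw [Nat.sub_self, hR_zero_right] at h6
    omega
  · have h6 : ∀ J, hR H (L + J) k N = hR H L k N + J * H ∧ w (L + J) = H := by
      intro J
      induction J with
      | zero =>
        have := h2 L
        exact ⟨by simp, by rw [Nat.add_zero]; omega⟩
      | succ J ih =>
        obtain ⟨i1, i2⟩ := ih
        have k1 : L + (J + 1) = L + J + 1 := by omega
        have k2 := h2 (L + J + 1)
        have k3 := h3 (L + J)
        rw [k1, h1, i1, i2]
        exact ⟨by ring, by omega⟩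
    have h8 := hR_large (H := H) (L := L + N * k) (k := k) (N := N) hk (by omega)
    rw [(h6 (N * k)).1] at h8
    have h9 : H * (L + N * k) = H * L + N * k * H := by ring
    rw [h9] at h8
    omega

end Pool.Agent.Work.MP_0421d9_ag.LD
end

section
/-!
Exact dimensions on `P¹ × P¹`.
-/

namespace Pool.Agent.Work.MP_0421d9_ag.LD

open MvPolynomial Module

theorem rect_exact {H L k α β N : ℕ} (hk : 1 ≤ k) (hH : 2 * k + 1 ≤ H) (hL2 : 2 ≤ L)
    (hL : L = α * k + β * (k + 1)) (hN : 2 * (α + β) ≤ N)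
    (h1 : 2 * (H - k - 1).choose 2 ≤ α * k) (h2 : (H - k - 2).choose 2 ≤ β * (k + 1)) :
    hR H L k N ≤ H * L - N * (k + 1).choose 2 := by
  obtain ⟨n, rfl⟩ : ∃ n, N = n + 2 * (α + β) := ⟨N - 2 * (α + β), by omega⟩
  have hs := rect_strip (N := n) hk (by omega : k + 1 ≤ H) hL2 hL
  obtain ⟨x, rfl⟩ : ∃ x, H = x + k + 1 := ⟨H - k - 1, by omega⟩
  have g1 : x + k + 1 - k = x + 1 := by omega
  have g2 : x + 1 - 1 = x := by omega
  have g3 : x + k + 1 - k - 2 = x - 1 := by omega
  rw [g1] at hs h1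
  rw [g2] at hs h1
  rw [g3] at h2
  have hμ := two_mul_choose k
  have hLk : L * k + (α * k) = 2 * (α + β) * (k + 1).choose 2 := by
    have : 2 * (α + β) * (k + 1).choose 2 = (α + β) * (k * (k + 1)) := by
      rw [← hμ]; ring
    rw [this, hL]
    ring
  have w1 : hR (x + 1) L k n ≠ 0 → hR (x + 1) L k n + n * (k + 1).choose 2 ≤
      (x + 1) * L + x.choose 2 := fun h => by
    have := rect_window1 (by omega : k ≤ x + 1) h
    rwa [g2] at this
  have w2 : n * (k + 1).choose 2 + x.choose 2 ≤ (x + 1) * L →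
      hR (x + 1) L k n + n * (k + 1).choose 2 = (x + 1) * L := fun h => by
    apply rect_window2 (by omega : k ≤ x + 1)
    rwa [g2]
  have w3 : hR x L k n ≠ 0 → hR x L k n + n * (k + 1).choose 2 ≤
      x * L + (x - 1).choose 2 := fun h => rect_window1 (by omega : k ≤ x) h
  have e1 : (x + k + 1) * L = x * L + L * k + L := by ring
  have e2 : (x + 1) * L = x * L + L := by ring
  have e3 : (n + 2 * (α + β)) * (k + 1).choose 2 =
      n * (k + 1).choose 2 + 2 * (α + β) * (k + 1).choose 2 := by ring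
  rw [e1, e3, ← hLk]
  rw [e2] at w1 w2
  generalize n * (k + 1).choose 2 = nμ at *
  generalize x * L = xL at *
  generalize L * k = Lk at *
  generalize hαk : α * k = αk at *
  generalize hβk : β * (k + 1) = βk at *
  generalize x.choose 2 = c1 at *
  generalize (x - 1).choose 2 = c2 at *
  refine hs.trans (max_le ?_ ?_)
  · by_cases h3 : nμ + c1 ≤ xL + L
    · have h4 := w2 h3
      omega
    · by_cases h4 : hR (x + 1) L k n = 0
      · omega
      · have h5 := w1 h4
        omega
  · by_cases h4 : hR x L k n = 0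
    · omega
    · have h5 := w3 h4
      omega

/-- one more simple point -/
theorem ux_simple_drop {D N : ℕ} {T : Set (Fin 3 →₀ ℕ)} : hT D T 1 (N + 1) ≤ hT D T 1 N - 1 := by
  have hle : ∀ (a : V3) (p' : Fin (N + 1) → V3), (∀ i : Fin N, p' i.castSucc = gpt N i) →
      TS D T 1 p' ≤ TS D T 1 (gpt N) := by
    intro a p' hp' F hF
    rw [mem_TS] at hF ⊢
    refine ⟨hF.1, fun i => ?_, hF.2.2⟩
    rw [← hp' i]
    exact hF.2.1 _
  by_cases h0 : hT D T 1 N = 0
  · rw [h0]
    have h1 := hT_le (D := D) (m := 1) (T := T) (Fin.snoc (gpt N) 0 : Fin (N + 1) → V3)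
    have h2 := Submodule.finrank_mono (hle 0 (Fin.snoc (gpt N) 0 : Fin (N + 1) → V3)
      (fun i => by rw [Fin.snoc_castSucc]))
    have h3 : finrank ℂ (TS D T 1 (gpt N)) = 0 := h0
    omega
  · have h1 : TS D T 1 (gpt N) ≠ ⊥ := by
      intro h2
      apply h0
      unfold hT
      rw [h2, finrank_bot]
    obtain ⟨F, hF, hF0⟩ := Submodule.exists_mem_ne_zero_of_ne_bot h1
    obtain ⟨a, ha⟩ : ∃ a : V3, eval a F ≠ 0 := by
      by_contra hcon
      push Not at hcon
      apply hF0
      apply MvPolynomial.funext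
      intro y
      rw [hcon y, map_zero]
    have h2 := hT_le (D := D) (m := 1) (T := T) (Fin.snoc (gpt N) a : Fin (N + 1) → V3)
    have h3 : TS D T 1 (Fin.snoc (gpt N) a : Fin (N + 1) → V3) < TS D T 1 (gpt N) := by
      refine lt_of_le_of_ne (hle a _ (fun i => by rw [Fin.snoc_castSucc])) ?_
      intro h4
      rw [← h4, mem_TS] at hF
      have h5 := hF.2.1 (Fin.last N)
      rw [Fin.snoc_last] at h5
      exact ha (vanishTo_one_iff.mp h5)
    have h4 := Submodule.finrank_lt_finrank_of_lt h3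
    have h5 : finrank ℂ (TS D T 1 (gpt N)) = hT D T 1 N := rfl
    omega

/-- simple points -/
theorem rect_simple (H L N : ℕ) : hR H L 1 N = H * L - N := by
  induction N with
  | zero =>
    rw [hR_no_points]
    rfl
  | succ N ih =>
    have h1 := hR_count H L 1 (N + 1)
    have h2 : (1 + 1).choose 2 = 1 := rfl
    rw [h2] at h1
    have h3 : hR H L 1 (N + 1) ≤ hR H L 1 N - 1 := ux_simple_drop
    omega

theorem rect_regular_mono {H H' L k N : ℕ} (hH : H ≤ H')
    (h : hR H L k N + N * (k + 1).choose 2 = H * L) :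
    hR H' L k N + N * (k + 1).choose 2 = H' * L := by
  induction H', hH using Nat.le_induction with
  | base => exact h
  | succ n hn ih =>
    have h1 := hR_succ_le n L k N
    have h2 := hR_count (n + 1) L k N
    have h3 : (n + 1) * L = n * L + L := by ring
    rw [h3] at h2 ⊢
    omega

theorem rect_empty_mono {H H' L k N : ℕ} (hH : H ≤ H') (h : hR H' L k N = 0) :
    hR H L k N = 0 := by
  induction H', hH using Nat.le_induction with
  | base => exact h
  | succ n hn ih =>
    have h1 := hR_le_succ n L k N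
    exact ih (by omega)

end Pool.Agent.Work.MP_0421d9_ag.LD
end

section
/-!
Strips in the plane.
-/

namespace Pool.Agent.Work.MP_0421d9_ag.LD

open MvPolynomial Module

theorem onLine_shear (c : ℂ) (H : R3) :
    onLine e1 e0 H = (onLine e1 e0 (subM (shear c) H)).comp (Polynomial.X + Polynomial.C c) := by
  rw [onLine_subM]
  have h7 : (shear c).mulVec e0 = e0 := by
    rw [shear_mulVec]
    funext i
    fin_cases i <;> simp [e0]
  have h8 : ((shear c).mulVec e1 + c • e0 : V3) = e1 := by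
    rw [shear_mulVec]
    funext i
    fin_cases i <;> simp [e0, e1]
  rw [h7, ← onLine_shift, h8]

/-- the coefficient of `X 2 ^ κ`, as a polynomial in one variable -/
noncomputable def topc (κ : ℕ) : R3 →ₗ[ℂ] Polynomial ℂ where
  toFun F := onLine e1 e0 (divMonomial F (Finsupp.single 2 κ))
  map_add' F G := by rw [add_divMonomial, map_add]
  map_smul' c F := by
    have h1 : divMonomial (c • F) (Finsupp.single 2 κ) =
        c • divMonomial F (Finsupp.single 2 κ) := by
      ext β
      rw [coeff_divMonomial, coeff_smul, coeff_smul, coeff_divMonomial]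
    rw [h1, map_smul]
    rfl

theorem topc_apply (κ : ℕ) (F : R3) :
    topc κ F = onLine e1 e0 (divMonomial F (Finsupp.single 2 κ)) := rfl

theorem divMonomial_isHomogeneous {D κ : ℕ} {F : R3} (hF : F.IsHomogeneous D) :
    (divMonomial F (Finsupp.single 2 κ)).IsHomogeneous (D - κ) := by
  intro β hβ
  rw [coeff_divMonomial] at hβ
  have h1 := degree_of_mem_support hF hβ
  rw [map_add, Finsupp.degree_single] at h1
  have h2 : Finsupp.weight 1 β = β.degree := by
    rw [Finsupp.degree_eq_weight_one]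
    rfl
  rw [h2]
  omega

theorem topc_coeff {D κ : ℕ} {F : R3} (hF : F.IsHomogeneous D) {α : Fin 3 →₀ ℕ}
    (hα : α 2 = κ) (hα' : α.degree = D) : (topc κ F).coeff (α 0) = coeff α F := by
  have h1 : Finsupp.single 2 κ + (α - Finsupp.single 2 κ) = α := by
    apply add_tsub_cancel_of_le
    rw [Finsupp.single_le_iff]
    exact hα.ge
  have h2 : (α - Finsupp.single 2 κ : Fin 3 →₀ ℕ) 0 = α 0 := by
    rw [Finsupp.tsub_apply, Finsupp.single_eq_of_ne (by decide), Nat.sub_zero]
  have h3 : (α - Finsupp.single 2 κ : Fin 3 →₀ ℕ) 2 = 0 := by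
    rw [Finsupp.tsub_apply, Finsupp.single_eq_same, hα, Nat.sub_self]
  have h4 : (α - Finsupp.single 2 κ).degree = D - κ := by
    have h5 := congrArg Finsupp.degree h1
    rw [map_add, Finsupp.degree_single, hα'] at h5
    omega
  rw [topc_apply, ← h2, coeff_onLine_e1_e0 (divMonomial_isHomogeneous hF) h3 h4,
    coeff_divMonomial, h1]

theorem topc_shear (c : ℂ) (κ : ℕ) (G : R3) :
    topc κ (subM (shear c) G) =
      onLine e1 e0 (subM (shear c) (divMonomial G (Finsupp.single 2 κ))) := by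
  rw [topc_apply]
  congr 1
  have h1 := divMonomial_add_modMonomial G (Finsupp.single 2 κ)
  have h2 : subM (shear c) (monomial (Finsupp.single 2 κ) (1 : ℂ)) =
      monomial (Finsupp.single 2 κ) (1 : ℂ) := by
    rw [← X_pow_eq_monomial, map_pow, subM_X, lin_shear2]
  conv_lhs => rw [← h1]
  rw [map_add, map_mul, h2, add_divMonomial, divMonomial_monomial_mul]
  have h3 : divMonomial (subM (shear c) (modMonomial G (Finsupp.single 2 κ)))
      (Finsupp.single 2 κ) = 0 := by
    ext β
    rw [coeff_divMonomial, coeff_zero]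
    by_contra hcon
    obtain ⟨α, h4, h5, -, -⟩ := coeff_shear c _ _ hcon
    apply h4
    apply coeff_modMonomial_of_le
    rw [Finsupp.single_le_iff, ← h5, Finsupp.add_apply, Finsupp.single_eq_same]
    exact Nat.le_add_right _ _
  rw [h3, add_zero]

theorem kills_of_hF {D κ m N B : ℕ} (hκ : 1 ≤ κ) (hD : κ ≤ D) (hB : B ≤ D - κ + 1)
    (h1 : hF D κ m N ≤ B) (h0 : hF D (κ - 1) m N = 0) :
    Kills D m N {α | α 2 < κ ∨ (α 2 = κ ∧ α 0 < D - κ + 1 - B)} := by
  classical
  set V := TS D {α : Fin 3 →₀ ℕ | α 2 ≤ κ} m (gpt N) with hV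
  obtain ⟨h, hh0, hh⟩ := order_generic (V.map (topc κ)) B
  set g : Polynomial ℂ := ∏ i : Fin N, (Polynomial.C (gpt N i 0) -
    Polynomial.X * Polynomial.C (gpt N i 1)) with hg
  have hg0 : g ≠ 0 := by
    rw [hg, Finset.prod_ne_zero_iff]
    intro i _ h2
    have h3 := congrArg (Polynomial.eval 0) h2
    simp only [Polynomial.eval_sub, Polynomial.eval_mul, Polynomial.eval_C, Polynomial.eval_X,
      zero_mul, sub_zero, Polynomial.eval_zero] at h3
    exact gpt_ne i 0 h3
  obtain ⟨c, hc, hc'⟩ := exists_eval_ne hh0 hg0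
  have hne : ∀ i, gpt N i 0 - c * gpt N i 1 ≠ 0 := by
    rw [hg, Polynomial.eval_prod, Finset.prod_ne_zero_iff] at hc'
    intro i
    have h2 := hc' i (Finset.mem_univ i)
    rw [Polynomial.eval_sub, Polynomial.eval_mul, Polynomial.eval_C, Polynomial.eval_C,
      Polynomial.eval_X] at h2
    exact h2
  have h2 := hh c hc
  have h3 : finrank ℂ ↥(V.map (topc κ)) ≤ B := (Submodule.finrank_map_le _ _).trans h1
  have h4 : V.map (topc κ) ⊓ ordSub c B = ⊥ := by
    have hfin : Module.Finite ℂ ↥(V.map (topc κ) ⊓ ordSub c B) :=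
      Submodule.finiteDimensional_of_le inf_le_left
    rw [← Submodule.finrank_eq_zero (R := ℂ)]
    omega
  have h5 : TS D {α : Fin 3 →₀ ℕ | α 2 ≤ κ - 1} m (gpt N) = ⊥ := by
    rw [← Submodule.finrank_eq_zero (R := ℂ)]
    exact h0
  have hK : Kills D m N {α | α 2 < κ ∨ (α 2 = κ ∧ B ≤ α 0)} := by
    refine ⟨fun i => (shear c).mulVec (gpt N i), ?_, ?_⟩
    · intro i k
      simp only [shear_mulVec]
      fin_cases k
      · exact hne i
      · exact gpt_ne i 1
      · exact gpt_ne i 2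
    · intro G hG1 hG2 hG3
      have h6 : subM (shear c) G ∈ V := by
        rw [hV, mem_TS]
        refine ⟨subM_isHomogeneous _ hG1, fun i => vanishTo_subM _ (hG3 i), fun β hβ => ?_⟩
        obtain ⟨α, hα, h7, -, -⟩ := coeff_shear c G β hβ
        have h8 := hG2 α (mem_support_iff.mpr hα)
        change β 2 ≤ κ
        rcases h8 with h8 | h8 <;> omega
      have h7 : topc κ (subM (shear c) G) ∈ V.map (topc κ) ⊓ ordSub c B := by
        refine Submodule.mem_inf.mpr ⟨⟨_, h6, rfl⟩, ?_⟩
        intro k hk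
        rw [topc_shear, ← onLine_shear, onLine_e1_e0, Polynomial.finsetSum_coeff]
        refine Finset.sum_eq_zero (fun β hβ => ?_)
        rw [Polynomial.coeff_C_mul_X_pow]
        split_ifs with h8 h9
        · exfalso
          have h10 := mem_support_iff.mp hβ
          rw [coeff_divMonomial] at h10
          have h11 := hG2 _ (mem_support_iff.mpr h10)
          have e0' : (Finsupp.single (2 : Fin 3) κ + β) 0 = β 0 := by
            rw [Finsupp.add_apply, Finsupp.single_eq_of_ne (by decide), zero_add]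
          have e2' : (Finsupp.single (2 : Fin 3) κ + β) 2 = κ + β 2 := by
            rw [Finsupp.add_apply, Finsupp.single_eq_same]
          rcases h11 with h11 | ⟨-, h11⟩
          · rw [e2'] at h11
            omega
          · rw [e0'] at h11
            omega
        · rw [mul_zero]
        · rfl
      rw [h4, Submodule.mem_bot] at h7
      have h8 : subM (shear c) G ∈ TS D {α : Fin 3 →₀ ℕ | α 2 ≤ κ - 1} m (gpt N) := by
        obtain ⟨h9, h10, h11⟩ := mem_TS.mp h6
        rw [mem_TS]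
        refine ⟨h9, h10, fun α hα => ?_⟩
        have h12 : α 2 ≤ κ := h11 α hα
        change α 2 ≤ κ - 1
        by_contra hcon
        have h13 : α 2 = κ := by omega
        apply hα
        rw [← topc_coeff h9 h13 (degree_of_mem_support h9 hα), h7, Polynomial.coeff_zero]
      rw [h5, Submodule.mem_bot] at h8
      have h9 := congrArg (subM (shear (-c))) h8
      have h10 : shear c * shear (-c) = 1 := by
        have h11 := shear_mul (-c)
        rwa [neg_neg] at h11
      rwa [subM_subM, h10, subM_one, map_zero] at h9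
  refine (Kills.perm (Equiv.swap 0 1) hK).mono ?_
  intro α hα hα'
  rw [degree_three] at hα
  have hinj : Function.Injective (Equiv.swap (0 : Fin 3) 1) := (Equiv.swap (0 : Fin 3) 1).injective
  have e2' : (α.mapDomain (Equiv.swap (0 : Fin 3) 1)) 2 = α 2 := by
    have h6 := Finsupp.mapDomain_apply hinj α 2
    rwa [Equiv.swap_apply_of_ne_of_ne (by decide) (by decide)] at h6
  have e0' : (α.mapDomain (Equiv.swap (0 : Fin 3) 1)) 0 = α 1 := by
    have h6 := Finsupp.mapDomain_apply hinj α 1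
    rwa [Equiv.swap_apply_right] at h6
  change (α.mapDomain (Equiv.swap (0 : Fin 3) 1)) 2 < κ ∨
    ((α.mapDomain (Equiv.swap (0 : Fin 3) 1)) 2 = κ ∧ B ≤ (α.mapDomain (Equiv.swap (0 : Fin 3) 1)) 0)
  rw [e0', e2']
  rcases hα' with h6 | ⟨h6, h7⟩
  · exact Or.inl h6
  · right
    refine ⟨h6, ?_⟩
    omega

end Pool.Agent.Work.MP_0421d9_ag.LD
end

section
/-!
Strips in the plane, with a family of multiplicities.
-/

namespace Pool.Agent.Work.MP_0421d9_ag.LD

open MvPolynomial Module

/-! ### killing -/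

theorem kills_of_hFm {D κ N B : ℕ} {u : Fin N → ℕ} (hκ : 1 ≤ κ) (hD : κ ≤ D)
    (hB : B ≤ D - κ + 1) (h1 : hFm D κ u ≤ B) (h0 : hFm D (κ - 1) u = 0) :
    Killsm D u {α | α 2 < κ ∨ (α 2 = κ ∧ α 0 < D - κ + 1 - B)} := by
  classical
  set V := TSm D {α : Fin 3 →₀ ℕ | α 2 ≤ κ} u (gpt N) with hV
  obtain ⟨h, hh0, hh⟩ := order_generic (V.map (topc κ)) B
  set g : Polynomial ℂ := ∏ i : Fin N, (Polynomial.C (gpt N i 0) -
    Polynomial.X * Polynomial.C (gpt N i 1)) with hg
  have hg0 : g ≠ 0 := by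
    rw [hg, Finset.prod_ne_zero_iff]
    intro i _ h2
    have h3 := congrArg (Polynomial.eval 0) h2
    simp only [Polynomial.eval_sub, Polynomial.eval_mul, Polynomial.eval_C, Polynomial.eval_X,
      zero_mul, sub_zero, Polynomial.eval_zero] at h3
    exact gpt_ne i 0 h3
  obtain ⟨c, hc, hc'⟩ := exists_eval_ne hh0 hg0
  have hne : ∀ i, gpt N i 0 - c * gpt N i 1 ≠ 0 := by
    rw [hg, Polynomial.eval_prod, Finset.prod_ne_zero_iff] at hc'
    intro i
    have h2 := hc' i (Finset.mem_univ i)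
    rw [Polynomial.eval_sub, Polynomial.eval_mul, Polynomial.eval_C, Polynomial.eval_C,
      Polynomial.eval_X] at h2
    exact h2
  have h2 := hh c hc
  have h3 : finrank ℂ ↥(V.map (topc κ)) ≤ B := (Submodule.finrank_map_le _ _).trans h1
  have h4 : V.map (topc κ) ⊓ ordSub c B = ⊥ := by
    have hfin : Module.Finite ℂ ↥(V.map (topc κ) ⊓ ordSub c B) :=
      Submodule.finiteDimensional_of_le inf_le_left
    rw [← Submodule.finrank_eq_zero (R := ℂ)]
    omega
  have h5 : TSm D {α : Fin 3 →₀ ℕ | α 2 ≤ κ - 1} u (gpt N) = ⊥ := by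
    rw [← Submodule.finrank_eq_zero (R := ℂ)]
    exact h0
  have hK : Killsm D u {α | α 2 < κ ∨ (α 2 = κ ∧ B ≤ α 0)} := by
    refine ⟨fun i => (shear c).mulVec (gpt N i), ?_, ?_⟩
    · intro i k
      simp only [shear_mulVec]
      fin_cases k
      · exact hne i
      · exact gpt_ne i 1
      · exact gpt_ne i 2
    · intro G hG1 hG2 hG3
      have h6 : subM (shear c) G ∈ V := by
        rw [hV, mem_TSm]
        refine ⟨subM_isHomogeneous _ hG1, fun i => vanishTo_subM _ (hG3 i), fun β hβ => ?_⟩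
        obtain ⟨α, hα, h7, -, -⟩ := coeff_shear c G β hβ
        have h8 := hG2 α (mem_support_iff.mpr hα)
        change β 2 ≤ κ
        rcases h8 with h8 | h8 <;> omega
      have h7 : topc κ (subM (shear c) G) ∈ V.map (topc κ) ⊓ ordSub c B := by
        refine Submodule.mem_inf.mpr ⟨⟨_, h6, rfl⟩, ?_⟩
        intro k hk
        rw [topc_shear, ← onLine_shear, onLine_e1_e0, Polynomial.finsetSum_coeff]
        refine Finset.sum_eq_zero (fun β hβ => ?_)
        rw [Polynomial.coeff_C_mul_X_pow]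
        split_ifs with h8 h9
        · exfalso
          have h10 := mem_support_iff.mp hβ
          rw [coeff_divMonomial] at h10
          have h11 := hG2 _ (mem_support_iff.mpr h10)
          have e0' : (Finsupp.single (2 : Fin 3) κ + β) 0 = β 0 := by
            rw [Finsupp.add_apply, Finsupp.single_eq_of_ne (by decide), zero_add]
          have e2' : (Finsupp.single (2 : Fin 3) κ + β) 2 = κ + β 2 := by
            rw [Finsupp.add_apply, Finsupp.single_eq_same]
          rcases h11 with h11 | ⟨-, h11⟩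
          · rw [e2'] at h11
            omega
          · rw [e0'] at h11
            omega
        · rw [mul_zero]
        · rfl
      rw [h4, Submodule.mem_bot] at h7
      have h8 : subM (shear c) G ∈ TSm D {α : Fin 3 →₀ ℕ | α 2 ≤ κ - 1} u (gpt N) := by
        obtain ⟨h9, h10, h11⟩ := mem_TSm.mp h6
        rw [mem_TSm]
        refine ⟨h9, h10, fun α hα => ?_⟩
        have h12 : α 2 ≤ κ := h11 α hα
        change α 2 ≤ κ - 1
        by_contra hcon
        have h13 : α 2 = κ := by omega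
        apply hα
        rw [← topc_coeff h9 h13 (degree_of_mem_support h9 hα), h7, Polynomial.coeff_zero]
      rw [h5, Submodule.mem_bot] at h8
      have h9 := congrArg (subM (shear (-c))) h8
      have h10 : shear c * shear (-c) = 1 := by
        have h11 := shear_mul (-c)
        rwa [neg_neg] at h11
      rwa [subM_subM, h10, subM_one, map_zero] at h9
  refine (Killsm.perm (Equiv.swap 0 1) hK).mono ?_
  intro α hα hα'
  rw [degree_three] at hα
  have hinj : Function.Injective (Equiv.swap (0 : Fin 3) 1) := (Equiv.swap (0 : Fin 3) 1).injective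
  have e2' : (α.mapDomain (Equiv.swap (0 : Fin 3) 1)) 2 = α 2 := by
    have h6 := Finsupp.mapDomain_apply hinj α 2
    rwa [Equiv.swap_apply_of_ne_of_ne (by decide) (by decide)] at h6
  have e0' : (α.mapDomain (Equiv.swap (0 : Fin 3) 1)) 0 = α 1 := by
    have h6 := Finsupp.mapDomain_apply hinj α 1
    rwa [Equiv.swap_apply_right] at h6
  change (α.mapDomain (Equiv.swap (0 : Fin 3) 1)) 2 < κ ∨
    ((α.mapDomain (Equiv.swap (0 : Fin 3) 1)) 2 = κ ∧ B ≤ (α.mapDomain (Equiv.swap (0 : Fin 3) 1)) 0)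
  rw [e0', e2']
  rcases hα' with h6 | ⟨h6, h7⟩
  · exact Or.inl h6
  · right
    refine ⟨h6, ?_⟩
    omega

/-! ### peeling -/

/-- sums over the strip and over the rest -/
theorem mp_sum_rest {N r : ℕ} {e : Fin N → Fin r} (he : Function.Injective e) (y : Fin r → ℕ)
    (f : ℕ → ℕ) (hf : f 0 = 0) :
    ∑ i, f (rest e y i) + ∑ k, f (y (e k)) = ∑ i, f (y i) := by
  classical
  have h1 : ∑ k, f (y (e k)) = ∑ i ∈ Finset.univ.image e, f (y i) := by
    rw [Finset.sum_image (fun a _ b _ h => he h)]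
  have h2 : ∑ i, f (rest e y i) = ∑ i ∈ (Finset.univ.image e)ᶜ, f (y i) := by
    rw [← Finset.sum_compl_add_sum (Finset.univ.image e)]
    have h3 : ∑ i ∈ Finset.univ.image e, f (rest e y i) = 0 := by
      refine Finset.sum_eq_zero (fun i hi => ?_)
      obtain ⟨k, -, rfl⟩ := Finset.mem_image.mp hi
      rw [rest_mem, hf]
    rw [h3, add_zero]
    refine Finset.sum_congr rfl (fun i hi => ?_)
    rw [rest_not_mem]
    rintro ⟨k, rfl⟩
    exact (Finset.mem_compl.mp hi) (Finset.mem_image_of_mem _ (Finset.mem_univ k))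
  rw [h1, h2, Finset.sum_compl_add_sum]

/-- a new flag on the line `X 2 = 0` at a general point -/
theorem flag_dimP {δ r A : ℕ} (y : Fin r → ℕ) (q : Fin r → V3) (hq : ∀ i, q i 2 ≠ 0) :
    ∃ h : Polynomial ℂ, h ≠ 0 ∧ ∀ c, h.eval c ≠ 0 →
      finrank ℂ ↥(linSys (δ + 1) q y ⊓ (ordSub c A).comap (onLine e1 e0).toLinearMap) ≤
        max (finrank ℂ (linSys (δ + 1) q y) - A) (finrank ℂ (linSys δ q y)) := by
  classical
  let φ : R3 →ₗ[ℂ] Polynomial ℂ := (onLine e1 e0).toLinearMap
  have hφ : ∀ F, φ F = onLine e1 e0 F := fun F => rfl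
  set S := linSys (δ + 1) q y with hS
  have hSfin : Module.Finite ℂ S :=
    Submodule.finiteDimensional_of_le (linSys_le _ _ _)
  have hSfin' : Module.Finite ℂ (linSys δ q y) :=
    Submodule.finiteDimensional_of_le (linSys_le _ _ _)
  have hfin : Module.Finite ℂ ↥(S.map φ) := inferInstance
  obtain ⟨h, hh0, hh⟩ := @order_generic (S.map φ) hfin A
  refine ⟨h, hh0, fun c hc => ?_⟩
  have h1 := hh c hc
  have hker : finrank ℂ ↥(S ⊓ LinearMap.ker φ) ≤ finrank ℂ (linSys δ q y) := by
    have h2 : S ⊓ LinearMap.ker φ ≤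
        (linSys δ q y).map (LinearMap.mulLeft ℂ (X 2 ^ 1 : R3)) := by
      intro F hF
      obtain ⟨h3, h4⟩ := Submodule.mem_inf.mp hF
      rw [LinearMap.mem_ker, hφ] at h4
      obtain ⟨G, hG1, hG2, hG3⟩ := exists_div_of_onLine h3.1 h4
      refine ⟨G, ⟨hG1, fun i => ?_⟩, by rw [LinearMap.mulLeft_apply, hG2]⟩
      have h5 := h3.2 i
      rw [hG2] at h5
      exact vanishTo_of_X2_pow_mul (hq i) h5
    exact (Submodule.finrank_mono h2).trans (Submodule.finrank_map_le _ _)
  have hT : finrank ℂ ↥(S ⊓ (ordSub c A).comap φ) ≤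
      finrank ℂ ↥(S ⊓ LinearMap.ker φ) + (finrank ℂ ↥(S.map φ) - A) := by
    have hfT : Module.Finite ℂ ↥(S ⊓ (ordSub c A).comap φ) :=
      Submodule.finiteDimensional_of_le inf_le_left
    rw [finrank_eq_ker_add_map φ (S ⊓ (ordSub c A).comap φ)]
    have hfK : Module.Finite ℂ ↥(S ⊓ LinearMap.ker φ) :=
      Submodule.finiteDimensional_of_le inf_le_left
    have hfM : Module.Finite ℂ ↥(S.map φ ⊓ ordSub c A) :=
      Submodule.finiteDimensional_of_le inf_le_left
    refine add_le_add ?_ ?_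
    · apply Submodule.finrank_mono
      exact inf_le_inf_right _ inf_le_left
    · refine le_trans (Submodule.finrank_mono ?_) h1
      rintro _ ⟨F, hF, rfl⟩
      obtain ⟨h3, h4⟩ := Submodule.mem_inf.mp hF
      exact Submodule.mem_inf.mpr ⟨⟨F, h3, rfl⟩, h4⟩
  have h5 : finrank ℂ ↥S = finrank ℂ ↥(S ⊓ LinearMap.ker φ) + finrank ℂ ↥(S.map φ) :=
    finrank_eq_ker_add_map φ S
  refine hT.trans ?_
  rcases Nat.lt_or_ge (finrank ℂ ↥(S.map φ)) A with h6 | h6
  · refine le_trans ?_ (le_max_right _ _)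
    omega
  · refine le_trans ?_ (le_max_left _ _)
    omega

theorem mp_vanish_zero (F : R3) (a : V3) : VanishTo F a 0 := fun k hk => absurd hk (Nat.not_lt_zero k)

theorem peelm {δ κ r N A : ℕ} {y : Fin r → ℕ} {e : Fin N → Fin r} (he : Function.Injective e)
    (hκ : 1 ≤ κ) (hA : A ≤ δ + 2)
    (hkill : Killsm (δ + 1 + κ) (fun k => y (e k)) {α | α 2 < κ ∨ (α 2 = κ ∧ α 0 < A)}) :
    hPm (δ + 1 + κ) y ≤ max (hPm (δ + 1) (rest e y) - A) (hPm δ (rest e y)) := by
  classical
  set q := gpt r with hqdef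
  set z := rest e y with hz
  have hq2 : ∀ i, q i 2 ≠ 0 := fun i => generic_coord_ne (gpt_generic r) i 2
  obtain ⟨h, hh0, hh⟩ := flag_dimP (δ := δ) (A := A) z q hq2
  obtain ⟨c, hc, -⟩ := exists_eval_ne hh0 (one_ne_zero (α := Polynomial ℂ))
  have hdim := hh c hc
  refine le_trans ?_ hdim
  -- the sheared points
  set p : Fin r → V3 := fun i => (shear c).mulVec (q i) with hp
  have hp2 : ∀ i, p i 2 ≠ 0 := by
    intro i
    rw [hp]
    simp only [shear_mulVec]
    exact hq2 i
  obtain ⟨P, hP, hkill⟩ := hkill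
  let M := δ + 1 + κ + 1
  let w : Fin 3 → ℕ := ![1, 0, M]
  have hw : ∀ α : Fin 3 →₀ ℕ, wt3 w α = α 0 + M * α 2 := by
    intro α
    unfold wt3
    simp [Fin.sum_univ_three, w]
  let c' := M * κ + A - 1
  have hc' : ∀ α : Fin 3 →₀ ℕ, α.degree = δ + 1 + κ → (wt3 w α ≤ c' ↔
      (α 2 < κ ∨ (α 2 = κ ∧ α 0 < A))) := by
    intro α hα
    rw [hw, Finsupp.degree_eq_sum, Fin.sum_univ_three] at *
    have hMu : 1 ≤ M * κ := Nat.mul_pos (Nat.succ_pos _) hκ
    have h0 : α 0 < M := by omega
    constructor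
    · intro h
      by_cases h1 : α 2 < κ
      · exact Or.inl h1
      · right
        have h2 : M * κ ≤ M * α 2 := Nat.mul_le_mul_left _ (by omega)
        have h3 : α 2 = κ := by
          by_contra hcon
          have h4 : M * (κ + 1) ≤ M * α 2 := Nat.mul_le_mul_left _ (by omega)
          rw [mul_add, mul_one] at h4
          have h5 : M = δ + 1 + κ + 1 := rfl
          have h6 : c' = M * κ + A - 1 := rfl
          omega
        refine ⟨h3, ?_⟩
        rw [h3] at h
        omega
    · rintro (h | ⟨h1, h2⟩)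
      · have h3 : M * (α 2 + 1) ≤ M * κ := Nat.mul_le_mul_left _ (by omega)
        rw [mul_add, mul_one] at h3
        omega
      · rw [h1]
        omega
  have hdeg : ∀ {F : R3}, F.IsHomogeneous (δ + 1 + κ) → ∀ α ∈ F.support,
      α.degree = δ + 1 + κ :=
    fun hF α hα => degree_of_mem_support hF (mem_support_iff.mp hα)
  obtain ⟨τ, hτ, h1⟩ := cut (D := δ + 1 + κ) w c' P (fun k => y (e k)) Set.univ
    (fun G hG hG' hG'' => hkill G hG
      (fun α hα => (hc' α (hdeg hG α hα)).mp (hG' α hα).2) hG'')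
    (linSys (δ + 1 + κ) p z) (fun F hF => ⟨hF.1, fun α hα => trivial⟩)
  -- the part above
  have h2 : finrank ℂ ↥(linSys (δ + 1 + κ) p z ⊓ offSub {α | wt3 w α ≤ c'}) ≤
      finrank ℂ ↥(linSys (δ + 1) q z ⊓ (ordSub c A).comap (onLine e1 e0).toLinearMap) := by
    have hfin0 : Module.Finite ℂ (linSys (δ + 1) q z) :=
      Submodule.finiteDimensional_of_le (linSys_le _ _ _)
    have hfin : Module.Finite ℂ ↥(linSys (δ + 1) q z ⊓
        (ordSub c A).comap (onLine e1 e0).toLinearMap) :=
      Submodule.finiteDimensional_of_le inf_le_left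
    have h3 : linSys (δ + 1 + κ) p z ⊓ offSub {α | wt3 w α ≤ c'} ≤
        (linSys (δ + 1) q z ⊓ (ordSub c A).comap (onLine e1 e0).toLinearMap).map
          (LinearMap.mulLeft ℂ (X 2 ^ κ : R3) ∘ₗ (subM (shear (-c))).toLinearMap) := by
      intro F hF
      rw [Submodule.mem_inf, mem_offSub] at hF
      obtain ⟨⟨hF1, hF2⟩, hF4⟩ := hF
      have hF5 : ∀ α : Fin 3 →₀ ℕ, (α 2 < κ ∨ (α 2 = κ ∧ α 0 < A)) → coeff α F = 0 := by
        intro α hα
        by_contra hcon
        have h5 := degree_of_mem_support hF1 hcon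
        exact hcon (hF4 α ((hc' α h5).mpr hα))
      obtain ⟨G, hG1, hG2, hG3⟩ := exists_div_X2 hF1 (fun α hα => by
        by_contra hcon
        exact (mem_support_iff.mp hα) (hF5 α (Or.inl (by omega))))
      have hGp : ∀ i, VanishTo G (p i) (z i) := by
        intro i
        have h5 := hF2 i
        rw [hG2] at h5
        exact vanishTo_of_X2_pow_mul (hp2 i) h5
      refine Submodule.mem_map.mpr ⟨subM (shear c) G, Submodule.mem_inf.mpr
        ⟨⟨subM_isHomogeneous _ hG1, fun i => vanishTo_subM _ (hGp i)⟩, ?_⟩, ?_⟩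
      · change onLine e1 e0 (subM (shear c) G) ∈ ordSub c A
        intro k hk
        rw [← onLine_shear, onLine_e1_e0, Polynomial.finsetSum_coeff]
        refine Finset.sum_eq_zero (fun β _ => ?_)
        rw [Polynomial.coeff_C_mul_X_pow]
        split_ifs with h8 h9
        · rw [hG3, hF5 _ (Or.inr ⟨?_, ?_⟩), zero_mul]
          · rw [Finsupp.add_apply, Finsupp.single_eq_same, h9, add_zero]
          · rw [Finsupp.add_apply, Finsupp.single_eq_of_ne (by decide), zero_add]
            omega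
        · rw [mul_zero]
        · rfl
      · rw [LinearMap.comp_apply, LinearMap.mulLeft_apply, AlgHom.toLinearMap_apply, subM_subM]
        have h9 : shear c * shear (-c) = 1 := by
          have h10 := shear_mul (-c)
          rwa [neg_neg] at h10
        rw [h9, subM_one, hG2]
    exact (Submodule.finrank_mono h3).trans (Submodule.finrank_map_le _ _)
  refine le_trans ?_ (h1.trans h2)
  -- all the points
  let P' : Fin r → V3 := Function.extend e (fun k i => τ ^ w i * P k i) p
  have hP'1 : ∀ k, P' (e k) = fun i => τ ^ w i * P k i := fun k => he.extend_apply _ _ k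
  have hP'2 : ∀ i, i ∉ Set.range e → P' i = p i := by
    intro i hi
    exact Function.extend_apply' _ _ _ (fun ⟨k, hk⟩ => hi ⟨k, hk⟩)
  refine (generic_le (gpt_generic r) (δ + 1 + κ) y P').trans ?_
  have hfin0 : Module.Finite ℂ (linSys (δ + 1 + κ) p z) :=
    Submodule.finiteDimensional_of_le (linSys_le _ _ _)
  have hfin : Module.Finite ℂ ↥(linSys (δ + 1 + κ) p z ⊓
      ⨅ k, vanSub (fun i => τ ^ w i * P k i) (y (e k))) :=
    Submodule.finiteDimensional_of_le inf_le_left
  apply Submodule.finrank_mono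
  intro F hF
  obtain ⟨hF1, hF2⟩ := hF
  rw [Submodule.mem_inf, Submodule.mem_iInf]
  refine ⟨⟨hF1, fun i => ?_⟩, fun k => ?_⟩
  · by_cases hi : i ∈ Set.range e
    · obtain ⟨k, rfl⟩ := hi
      rw [hz, rest_mem]
      exact mp_vanish_zero _ _
    · have h4 := hF2 i
      rw [hP'2 i hi] at h4
      rw [hz, rest_not_mem hi]
      exact h4
  · have h4 := hF2 (e k)
    rw [hP'1] at h4
    exact h4

/-- a strip with a family of multiplicities -/
theorem plane_stripm {r N D κ B : ℕ} {y : Fin r → ℕ} (e : Fin N → Fin r)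
    (he : Function.Injective e) (hκ : 1 ≤ κ) (hD : κ + 1 ≤ D) (hB : B ≤ D - κ + 1)
    (h1 : hFm D κ (y ∘ e) ≤ B) (h0 : hFm D (κ - 1) (y ∘ e) = 0) :
    hPm D y ≤ max (hPm (D - κ) (rest e y) - (D - κ + 1 - B)) (hPm (D - κ - 1) (rest e y)) := by
  have hK := kills_of_hFm hκ (by omega) hB h1 h0
  obtain ⟨δ, rfl⟩ : ∃ δ, D = δ + 1 + κ := ⟨D - κ - 1, by omega⟩
  have e1 : δ + 1 + κ - κ = δ + 1 := by omega
  have e2 : δ + 1 - 1 = δ := by omega
  rw [e1] at hK ⊢
  rw [e2]
  exact peelm (A := δ + 1 + 1 - B) he hκ (by omega) hK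

/-- some of the points fill `κ` rows and a further piece of `A` monomials; `y'` is `y` without
these points -/
def StripM {r : ℕ} (D κ A : ℕ) (y y' : Fin r → ℕ) : Prop :=
  ∃ (N : ℕ) (e : Fin N → Fin r), Function.Injective e ∧ 1 ≤ κ ∧ κ + 1 ≤ D ∧ A ≤ D - κ + 1 ∧
    A + κ * (D + 1) = ∑ k, (y (e k) + 1).choose 2 + κ.choose 2 ∧
    hFm D κ (y ∘ e) ≤ D - κ + 1 - A ∧ hFm D (κ - 1) (y ∘ e) = 0 ∧ y' = rest e y

theorem StripM.le {r D κ A : ℕ} {y y' : Fin r → ℕ} (hs : StripM D κ A y y') :
    hPm D y ≤ max (hPm (D - κ) y' - A) (hPm (D - κ - 1) y') := by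
  obtain ⟨N, e, he, h1, h2, h3, -, h4, h5, rfl⟩ := hs
  have h6 := plane_stripm e he h1 h2 (B := D - κ + 1 - A) (by omega) h4 h5
  have h7 : D - κ + 1 - (D - κ + 1 - A) = A := by omega
  rwa [h7] at h6

theorem StripM.count {r : ℕ} {D κ A : ℕ} {y y' : Fin r → ℕ} (hs : StripM D κ A y y') :
    1 ≤ κ ∧ κ + 1 ≤ D ∧ A ≤ D - κ + 1 ∧ (∀ i, y' i = y i ∨ y' i = 0) ∧
      (D + 2).choose 2 + A + ∑ i, (y' i + 1).choose 2 =
        (D - κ + 2).choose 2 + ∑ i, (y i + 1).choose 2 ∧
      (D - κ + 2).choose 2 = (D - κ - 1 + 2).choose 2 + (D - κ + 1) := by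
  obtain ⟨N, e, he, h1, h2, h3, h4, -, -, rfl⟩ := hs
  refine ⟨h1, h2, h3, fun i => ?_, ?_, ?_⟩
  · by_cases hi : i ∈ Set.range e
    · obtain ⟨k, rfl⟩ := hi
      right
      exact rest_mem k
    · left
      exact rest_not_mem hi
  · have h5 := mp_sum_rest he y (fun a => (a + 1).choose 2) (by decide)
    have h6 : (D + 2).choose 2 + κ.choose 2 = (D - κ + 2).choose 2 + κ * (D + 1) := by
      obtain ⟨δ, rfl⟩ : ∃ δ, D = δ + κ := ⟨D - κ, by omega⟩
      have e1 : δ + κ - κ = δ := by omega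
      rw [e1]
      clear h2 h3 h4
      induction κ with
      | zero => simp
      | succ n ih =>
        rcases Nat.eq_zero_or_pos n with hn | hn
        · subst hn
          have e2 : (δ + (0 + 1) + 2).choose 2 = (δ + 2) + (δ + 2).choose 2 := by
            have e3 : δ + (0 + 1) + 2 = (δ + 2) + 1 := by omega
            rw [e3, Nat.choose_succ_succ' (δ + 2) 1, Nat.choose_one_right]
          rw [e2]
          have e4 : (0 + 1).choose 2 = 0 := by decide
          rw [e4]
          omega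
        · have ih' := ih hn (by omega)
          have e2 : (δ + (n + 1) + 2).choose 2 = (δ + n + 2) + (δ + n + 2).choose 2 := by
            have e3 : δ + (n + 1) + 2 = (δ + n + 2) + 1 := by omega
            rw [e3, Nat.choose_succ_succ' (δ + n + 2) 1, Nat.choose_one_right]
          have e4 : (n + 1).choose 2 = n + n.choose 2 := by
            rw [Nat.choose_succ_succ' n 1, Nat.choose_one_right]
          rw [e2, e4]
          have e5 : (n + 1) * (δ + (n + 1) + 1) = n * (δ + n + 1) + (n + (δ + n + 2)) := by ring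
          rw [e5]
          omega
    omega
  · have e3 : (D - κ + 2).choose 2 = (D - κ - 1 + 2) + (D - κ - 1 + 2).choose 2 := by
      have e4 : D - κ + 2 = (D - κ - 1 + 2) + 1 := by omega
      rw [e4, Nat.choose_succ_succ' (D - κ - 1 + 2) 1, Nat.choose_one_right]
    rw [e3]
    omega

end Pool.Agent.Work.MP_0421d9_ag.LD
end

section
/-!
Products of forms and jets.
-/

namespace Pool.Agent.Work.MP_0421d9_ag.LD

open MvPolynomial Module

/-! ### vanishing -/

theorem Van2.mono {f : P2} {m n : ℕ} (h : Van2 f m) (hn : n ≤ m) : Van2 f n :=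
  fun β hβ => h β (hβ.trans_le hn)

theorem Van2.add {f g : P2} {m : ℕ} (hf : Van2 f m) (hg : Van2 g m) : Van2 (f + g) m :=
  fun β hβ => by rw [coeff_add, hf β hβ, hg β hβ, add_zero]

theorem Van2.mul {f g : P2} {m n : ℕ} (hf : Van2 f m) (hg : Van2 g n) :
    Van2 (f * g) (m + n) := by
  classical
  intro β hβ
  rw [coeff_mul]
  refine Finset.sum_eq_zero fun x hx => ?_
  rw [Finset.HasAntidiagonal.mem_antidiagonal] at hx
  have h1 : x.1.degree + x.2.degree = β.degree := by rw [← hx, map_add]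
  rcases Nat.lt_or_ge x.1.degree m with h2 | h2
  · rw [hf _ h2, zero_mul]
  · rw [hg _ (by omega), mul_zero]

theorem van2_zero (f : P2) : Van2 f 0 := fun _ hβ => absurd hβ (Nat.not_lt_zero _)

theorem van2_monomial (β : Fin 2 →₀ ℕ) (c : ℂ) : Van2 (monomial β c) β.degree := by
  classical
  intro γ hγ
  rw [coeff_monomial, if_neg]
  rintro rfl
  exact lt_irrefl _ hγ

theorem van2_of_sub {f : P2} {β : Fin 2 →₀ ℕ} (h : Van2 (f - monomial β 1) (β.degree + 1)) :
    Van2 f β.degree := by
  have h1 := (h.mono (Nat.le_succ _)).add (van2_monomial β 1)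
  rwa [sub_add_cancel] at h1

/-! ### products -/

theorem Jet.mul {r : ℕ} {p : Fin r → V3} {D D' : ℕ} {μ ν : Fin r → ℕ} {i : Fin r}
    {β γ : Fin 2 →₀ ℕ} (h : Jet p D μ i β) (h' : Jet p D' ν i γ) :
    Jet p (D + D') (fun j => μ j + ν j) i (β + γ) := by
  obtain ⟨F, hF, hF1, hF2⟩ := h
  obtain ⟨G, hG, hG1, hG2⟩ := h'
  refine ⟨F * G, hF.mul hG, fun j hj => ?_, ?_⟩
  · rw [map_mul]
    exact (hF1 j hj).mul (hG1 j hj)
  · have e1 : loc (p i) (F * G) - monomial (β + γ) 1 =
        (loc (p i) F - monomial β 1) * loc (p i) G +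
          monomial β 1 * (loc (p i) G - monomial γ 1) := by
      have e2 : (monomial (β + γ) 1 : P2) = monomial β 1 * monomial γ 1 := by
        rw [monomial_mul, one_mul]
      rw [map_mul, e2]
      ring
    rw [e1]
    have h1 := hF2.mul (van2_of_sub hG2)
    have h2 := (van2_monomial β 1).mul hG2
    have e3 : (β + γ).degree + 1 = β.degree + 1 + γ.degree := by rw [map_add]; ring
    have e4 : (β + γ).degree + 1 = β.degree + (γ.degree + 1) := by rw [map_add]; ring
    refine Van2.add ?_ ?_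
    · rw [e3]
      exact h1
    · rw [e4]
      exact h2

theorem loc_X0 (a : V3) : loc a (X 0) = C (a 0) + X 0 := by
  simp [loc]

theorem loc_X1 (a : V3) : loc a (X 1) = C (a 1) + X 1 := by
  simp [loc]

theorem loc_X2 (a : V3) : loc a (X 2) = C (a 2) := by
  simp [loc]

theorem loc_C (a : V3) (c : ℂ) : loc a (C c) = C c := by
  unfold loc
  rw [algHom_C, algebraMap_eq]

theorem degree_two (β : Fin 2 →₀ ℕ) : β.degree = β 0 + β 1 := by
  rw [Finsupp.degree_eq_sum, Fin.sum_univ_two]

theorem jet_one {r : ℕ} {p : Fin r → V3} {i : Fin r} (hi : p i 2 ≠ 0) :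
    Jet p 1 (fun _ => 0) i 0 := by
  refine ⟨C (p i 2)⁻¹ * X 2, ?_, fun j _ => van2_zero _, ?_⟩
  · have h1 := (isHomogeneous_X ℂ (2 : Fin 3)).C_mul (p i 2)⁻¹
    exact h1
  · rw [map_mul, loc_C, loc_X2, ← C_mul, inv_mul_cancel₀ hi]
    have e1 : (monomial (0 : Fin 2 →₀ ℕ) 1 : P2) = C 1 := rfl
    rw [e1, sub_self]
    intro β _
    exact coeff_zero β

theorem jet_X {r : ℕ} {p : Fin r → V3} {i : Fin r} (hi : p i 2 ≠ 0) (k : Fin 2) :
    Jet p 1 (fun _ => 0) i (Finsupp.single k 1) := by
  fin_cases k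
  · refine ⟨X 0 - C (p i 0 * (p i 2)⁻¹) * X 2, ?_, fun j _ => van2_zero _, ?_⟩
    · exact (isHomogeneous_X ℂ (0 : Fin 3)).sub ((isHomogeneous_X ℂ (2 : Fin 3)).C_mul _)
    · have e1 : (monomial (Finsupp.single (0 : Fin 2) 1) 1 : P2) = X 0 := rfl
      have e2 : loc (p i) (X 0 - C (p i 0 * (p i 2)⁻¹) * X 2) = X 0 := by
        rw [map_sub, map_mul, loc_C, loc_X2, loc_X0, ← C_mul, inv_mul_cancel_right₀ hi]
        ring
      rw [e2]
      change Van2 (X 0 - monomial (Finsupp.single (0 : Fin 2) 1) 1) _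
      rw [e1, sub_self]
      intro β _
      exact coeff_zero β
  · refine ⟨X 1 - C (p i 1 * (p i 2)⁻¹) * X 2, ?_, fun j _ => van2_zero _, ?_⟩
    · exact (isHomogeneous_X ℂ (1 : Fin 3)).sub ((isHomogeneous_X ℂ (2 : Fin 3)).C_mul _)
    · have e1 : (monomial (Finsupp.single (1 : Fin 2) 1) 1 : P2) = X 1 := rfl
      have e2 : loc (p i) (X 1 - C (p i 1 * (p i 2)⁻¹) * X 2) = X 1 := by
        rw [map_sub, map_mul, loc_C, loc_X2, loc_X1, ← C_mul, inv_mul_cancel_right₀ hi]
        ring
      rw [e2]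
      change Van2 (X 1 - monomial (Finsupp.single (1 : Fin 2) 1) 1) _
      rw [e1, sub_self]
      intro β _
      exact coeff_zero β

theorem Jet.succ {r : ℕ} {p : Fin r → V3} (hp : ∀ i, p i 2 ≠ 0) {D : ℕ} {μ : Fin r → ℕ}
    {i : Fin r} {β : Fin 2 →₀ ℕ} (h : Jet p D μ i β) : Jet p (D + 1) μ i β := by
  have h1 := h.mul (jet_one (hp i))
  simpa using h1

theorem exists_split (β : Fin 2 →₀ ℕ) {s : ℕ} (hs : s ≤ β.degree) :
    ∃ β₁ β₂ : Fin 2 →₀ ℕ, β = β₁ + β₂ ∧ β₁.degree = s ∧ β₂.degree = β.degree - s := by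
  rw [degree_two] at hs
  refine ⟨Finsupp.single 0 (min s (β 0)) + Finsupp.single 1 (s - min s (β 0)),
    Finsupp.single 0 (β 0 - min s (β 0)) + Finsupp.single 1 (β 1 - (s - min s (β 0))), ?_, ?_, ?_⟩
  · ext k
    fin_cases k
    · simp
    · simp
      omega
  · rw [degree_two]
    simp
  · rw [degree_two, degree_two]
    simp
    omega

theorem Jets.le_succ {r : ℕ} {p : Fin r → V3} (hp : ∀ i, p i 2 ≠ 0) {e : ℕ}
    {μ : Fin r → ℕ} (h : Jets p e μ) {i : Fin r} (hi : 1 ≤ μ i) {β : Fin 2 →₀ ℕ}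
    (hβ : β.degree ≤ μ i) : Jet p (e + 1) μ i β := by
  rcases Nat.lt_or_ge β.degree (μ i) with h1 | h1
  · exact (h i β h1).succ hp
  · have h2 : β.degree = μ i := le_antisymm hβ h1
    obtain ⟨β₁, β₂, h3, h4, h5⟩ := exists_split β (s := μ i - 1) (by omega)
    have h6 : β₂.degree = 1 := by omega
    have h7 : ∃ k : Fin 2, β₂ = Finsupp.single k 1 := by
      rw [degree_two] at h6
      rcases Nat.eq_zero_or_pos (β₂ 0) with h8 | h8
      · refine ⟨1, ?_⟩
        ext k
        fin_cases k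
        · simpa using h8
        · simp
          omega
      · refine ⟨0, ?_⟩
        ext k
        fin_cases k
        · simp
          omega
        · simp
          omega
    obtain ⟨k, hk⟩ := h7
    have h9 := (h i β₁ (by omega)).mul (jet_X (hp i) k)
    rw [h3, hk]
    simpa using h9

end Pool.Agent.Work.MP_0421d9_ag.LD
end

section
/-!
The conditions imposed by multiple points are independent if and only if all jets are realised.
-/

namespace Pool.Agent.Work.MP_0421d9_ag.LD

open MvPolynomial Module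

/-- the exponents of degree less than `m` -/
abbrev Ex (m : ℕ) := Σ n : Fin m, Fin ((n : ℕ) + 1)

/-- the exponent with the given index -/
noncomputable def ex {m : ℕ} (x : Ex m) : Fin 2 →₀ ℕ :=
  Finsupp.single 0 (x.2 : ℕ) + Finsupp.single 1 ((x.1 : ℕ) - (x.2 : ℕ))

theorem ex_degree {m : ℕ} (x : Ex m) : (ex x).degree = x.1 := by
  obtain ⟨⟨n, hn⟩, ⟨j, hj⟩⟩ := x
  rw [degree_two]
  simp [ex]
  simp at hj
  omega

theorem ex_zero {m : ℕ} (x : Ex m) : ex x 0 = x.2 := by simp [ex]

theorem ex_injective {m : ℕ} : Function.Injective (ex : Ex m → Fin 2 →₀ ℕ) := by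
  rintro ⟨⟨n, hn⟩, ⟨j, hj⟩⟩ ⟨⟨n', hn'⟩, ⟨j', hj'⟩⟩ h
  have h1 := congrArg Finsupp.degree h
  rw [ex_degree, ex_degree] at h1
  have h2 := DFunLike.congr_fun h 0
  rw [ex_zero, ex_zero] at h2
  simp only at h1 h2
  subst h1
  subst h2
  rfl

theorem exists_ex {m : ℕ} {β : Fin 2 →₀ ℕ} (h : β.degree < m) : ∃ x : Ex m, ex x = β := by
  have h1 := degree_two β
  refine ⟨⟨⟨β.degree, h⟩, ⟨β 0, by show β 0 < β.degree + 1; omega⟩⟩, ?_⟩
  ext k
  fin_cases k
  · simp [ex]
  · simp [ex]
    omega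

theorem card_ex (m : ℕ) : Fintype.card (Ex m) = (m + 1).choose 2 := by
  rw [Fintype.card_sigma]
  simp only [Fintype.card_fin]
  rw [Fin.sum_univ_eq_sum_range (fun n => n + 1) m]
  induction m with
  | zero => rfl
  | succ m ih =>
    rw [Finset.sum_range_succ, ih, Nat.choose_succ_succ' (m + 1) 1, Nat.choose_one_right]
    ring

variable {r : ℕ}

end Pool.Agent.Work.MP_0421d9_ag.LD
end

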