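import Pool.Agent.Work.Z0421M.C02
import Pool.Agent.Work.Z0421M.C12
import Pool.Agent.Work.Z0421M.C16

section
/-!
Elementary transformations: systems of forms of bounded degree in one variable with `2 t + 1` points
are transformed into systems on `P¹ × P¹` with points of smaller multiplicity.
-/

namespace Pool.Agent.Work.MP_0421d9_ag.LD

open MvPolynomial Module

namespace Tr

/-! ### binary forms -/

theorem bin_isHomogeneous (n : ℕ) (f : Polynomial ℂ) : (bin n f).IsHomogeneous n := by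
  unfold bin
  refine IsHomogeneous.sum _ _ _ (fun j hj => ?_)
  rw [Finset.mem_range] at hj
  have h1 := ((isHomogeneous_C (Fin 3) (f.coeff j)).mul
    ((isHomogeneous_X ℂ (2 : Fin 3)).pow j)).mul ((isHomogeneous_X ℂ (1 : Fin 3)).pow (n - j))
  have e : 0 + 1 * j + 1 * (n - j) = n := by omega
  rw [e] at h1
  exact h1

theorem degreeOf_zero_bin (n : ℕ) (f : Polynomial ℂ) : degreeOf 0 (bin n f) = 0 := by
  rw [← Nat.le_zero]
  unfold bin
  refine (degreeOf_sum_le _ _ _).trans (Finset.sup_le fun j _ => ?_)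
  refine (degreeOf_mul_le _ _ _).trans ?_
  refine (add_le_add (degreeOf_mul_le _ _ _) le_rfl).trans ?_
  rw [degreeOf_C, degreeOf_X_pow_of_ne _ (by decide), degreeOf_X_pow_of_ne _ (by decide)]

theorem degreeOf_two_bin (n : ℕ) (f : Polynomial ℂ) : degreeOf 2 (bin n f) ≤ n := by
  unfold bin
  refine (degreeOf_sum_le _ _ _).trans (Finset.sup_le fun j hj => ?_)
  rw [Finset.mem_range] at hj
  refine (degreeOf_mul_le _ _ _).trans ?_
  refine (add_le_add (degreeOf_mul_le _ _ _) le_rfl).trans ?_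
  rw [degreeOf_C, degreeOf_X_self_pow, degreeOf_X_pow_of_ne _ (by decide)]
  omega

theorem eval_bin (n : ℕ) (f : Polynomial ℂ) (u : V3) :
    eval u (bin n f) = ∑ j ∈ Finset.range (n + 1), f.coeff j * u 2 ^ j * u 1 ^ (n - j) := by
  unfold bin
  rw [map_sum]
  exact Finset.sum_congr rfl (fun j _ => by
    rw [map_mul, map_mul, map_pow, map_pow, eval_X, eval_X, eval_C])

/-- the value of a binary form -/
theorem eval_bin_mul {n : ℕ} {f : Polynomial ℂ} (hf : f.natDegree ≤ n) (a x z : ℂ) (u : V3)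
    (h1 : u 1 = a * z) (h2 : u 2 = a * (x * z)) :
    eval u (bin n f) = a ^ n * z ^ n * f.eval x := by
  rw [eval_bin, Polynomial.eval_eq_sum_range' (Nat.lt_succ_of_le hf), Finset.mul_sum]
  refine Finset.sum_congr rfl (fun j hj => ?_)
  rw [Finset.mem_range] at hj
  rw [h1, h2]
  have e : n = j + (n - j) := by omega
  have e1 : a ^ n = a ^ j * a ^ (n - j) := by rw [← pow_add, ← e]
  have e2 : z ^ n = z ^ j * z ^ (n - j) := by rw [← pow_add, ← e]
  rw [e1, e2]
  ring

theorem eval_bin_smul (n : ℕ) (f : Polynomial ℂ) (a : ℂ) (u v : V3)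
    (h1 : v 1 = a * u 1) (h2 : v 2 = a * u 2) :
    eval v (bin n f) = a ^ n * eval u (bin n f) := by
  rw [eval_bin, eval_bin, Finset.mul_sum]
  refine Finset.sum_congr rfl (fun j hj => ?_)
  rw [Finset.mem_range] at hj
  rw [h1, h2]
  have e : n = j + (n - j) := by omega
  have e1 : a ^ n = a ^ j * a ^ (n - j) := by rw [← pow_add, ← e]
  rw [e1]
  ring

/-! ### the transformation -/

section

variable {t N : ℕ} {x c : Fin N → ℂ} (e : ET t x c)

/-- first coordinate -/
noncomputable def Y0 : R3 := bin t e.A * X 1 - bin t e.C' * X 0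

/-- second coordinate -/
noncomputable def Y1 : R3 := bin (t + 1) e.E * X 0 - bin (t + 1) e.B * X 1

/-- the substitution -/
noncomputable def th : Fin 3 → R3 := ![Y1 e, X 1 * Y0 e, X 2 * Y0 e]

theorem th_zero : th e 0 = Y1 e := rfl
theorem th_one : th e 1 = X 1 * Y0 e := rfl
theorem th_two : th e 2 = X 2 * Y0 e := rfl

theorem Y0_isHomogeneous : (Y0 e).IsHomogeneous (t + 1) := by
  unfold Y0
  exact ((bin_isHomogeneous t e.A).mul (isHomogeneous_X ℂ (1 : Fin 3))).sub
    ((bin_isHomogeneous t e.C').mul (isHomogeneous_X ℂ (0 : Fin 3)))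

theorem Y1_isHomogeneous : (Y1 e).IsHomogeneous (t + 2) := by
  unfold Y1
  exact ((bin_isHomogeneous (t + 1) e.E).mul (isHomogeneous_X ℂ (0 : Fin 3))).sub
    ((bin_isHomogeneous (t + 1) e.B).mul (isHomogeneous_X ℂ (1 : Fin 3)))

theorem degreeOf_sub_le' (i : Fin 3) (f g : R3) {n : ℕ} (hf : degreeOf i f ≤ n)
    (hg : degreeOf i g ≤ n) : degreeOf i (f - g) ≤ n := by
  exact (degreeOf_sub_le i f g).trans (max_le hf hg)

theorem degreeOf_zero_Y0 : degreeOf 0 (Y0 e) ≤ 1 := by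
  unfold Y0
  refine degreeOf_sub_le' 0 _ _ ?_ ?_
  · refine (degreeOf_mul_le _ _ _).trans ?_
    rw [degreeOf_zero_bin, degreeOf_X_of_ne (by decide)]
    omega
  · refine (degreeOf_mul_le _ _ _).trans ?_
    rw [degreeOf_zero_bin, degreeOf_X_self]

theorem degreeOf_zero_Y1 : degreeOf 0 (Y1 e) ≤ 1 := by
  unfold Y1
  refine degreeOf_sub_le' 0 _ _ ?_ ?_
  · refine (degreeOf_mul_le _ _ _).trans ?_
    rw [degreeOf_zero_bin, degreeOf_X_self]
  · refine (degreeOf_mul_le _ _ _).trans ?_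
    rw [degreeOf_zero_bin, degreeOf_X_of_ne (by decide)]
    omega

theorem degreeOf_two_Y0 : degreeOf 2 (Y0 e) ≤ t := by
  unfold Y0
  refine degreeOf_sub_le' 2 _ _ ?_ ?_
  · refine (degreeOf_mul_le _ _ _).trans ?_
    rw [degreeOf_X_of_ne (by decide), add_zero]
    exact degreeOf_two_bin _ _
  · refine (degreeOf_mul_le _ _ _).trans ?_
    rw [degreeOf_X_of_ne (by decide), add_zero]
    exact degreeOf_two_bin _ _

theorem degreeOf_two_Y1 : degreeOf 2 (Y1 e) ≤ t + 1 := by
  unfold Y1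
  refine degreeOf_sub_le' 2 _ _ ?_ ?_
  · refine (degreeOf_mul_le _ _ _).trans ?_
    rw [degreeOf_X_of_ne (by decide), add_zero]
    exact degreeOf_two_bin _ _
  · refine (degreeOf_mul_le _ _ _).trans ?_
    rw [degreeOf_X_of_ne (by decide), add_zero]
    exact degreeOf_two_bin _ _

/-- image of a monomial -/
noncomputable def pm (κ : ℕ) (α : Fin 3 →₀ ℕ) : R3 :=
  X 1 ^ α 1 * X 2 ^ α 2 * Y1 e ^ α 0 * Y0 e ^ (κ - α 0)

/-- the transformation, before division -/
noncomputable def psi (κ : ℕ) : R3 →ₗ[ℂ] R3 := (basisMonomials (Fin 3) ℂ).constr ℂ (pm e κ)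

theorem psi_monomial (κ : ℕ) (α : Fin 3 →₀ ℕ) (a : ℂ) :
    psi e κ (monomial α a) = C a * pm e κ α := by
  have h1 : (monomial α a : R3) = a • basisMonomials (Fin 3) ℂ α := by
    rw [coe_basisMonomials, smul_monomial, smul_eq_mul, mul_one]
  rw [h1, map_smul, smul_eq_C_mul]
  unfold psi
  rw [Basis.constr_basis]

theorem psi_eq (κ : ℕ) (F : R3) :
    psi e κ F = ∑ α ∈ F.support, C (coeff α F) * pm e κ α := by
  conv_lhs => rw [← support_sum_monomial_coeff F]
  rw [map_sum]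
  exact Finset.sum_congr rfl (fun α _ => psi_monomial e κ α _)

theorem aeval_th_monomial {κ D : ℕ} (hD : κ ≤ D) {α : Fin 3 →₀ ℕ} (h0 : α 0 ≤ κ)
    (hα : α 0 + α 1 + α 2 = D) (a : ℂ) :
    aeval (th e) (monomial α a) = Y0 e ^ (D - κ) * (C a * pm e κ α) := by
  rw [aeval_monomial, Finsupp.prod_fintype _ _ (fun i => pow_zero _), Fin.prod_univ_three,
    th_zero, th_one, th_two, algebraMap_eq]
  unfold pm
  have e1 : Y0 e ^ (D - κ) * Y0 e ^ (κ - α 0) = Y0 e ^ (α 1 + α 2) := by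
    rw [← pow_add]
    congr 1
    omega
  calc C a * (Y1 e ^ α 0 * (X 1 * Y0 e) ^ α 1 * (X 2 * Y0 e) ^ α 2)
      = C a * (X 1 ^ α 1 * X 2 ^ α 2 * Y1 e ^ α 0 * (Y0 e ^ (α 1 + α 2))) := by
        rw [pow_add]; ring
    _ = _ := by rw [← e1]; ring

theorem aeval_th {κ D : ℕ} (hD : κ ≤ D) {F : R3} (hF : F.IsHomogeneous D)
    (h0 : ∀ α, coeff α F ≠ 0 → α 0 ≤ κ) : aeval (th e) F = Y0 e ^ (D - κ) * psi e κ F := by
  rw [psi_eq, Finset.mul_sum]
  conv_lhs => rw [← support_sum_monomial_coeff F]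
  rw [map_sum]
  refine Finset.sum_congr rfl (fun α hα => ?_)
  have h1 := deg_eq hF hα
  exact aeval_th_monomial e hD (h0 α (mem_support_iff.mp hα)) h1 _

theorem pm_isHomogeneous {κ D : ℕ} {α : Fin 3 →₀ ℕ} (h0 : α 0 ≤ κ)
    (hα : α 0 + α 1 + α 2 = D) : (pm e κ α).IsHomogeneous (D + κ * (t + 1)) := by
  unfold pm
  have h1 := ((((isHomogeneous_X ℂ (1 : Fin 3)).pow (α 1)).mul
    ((isHomogeneous_X ℂ (2 : Fin 3)).pow (α 2))).mul ((Y1_isHomogeneous e).pow (α 0))).mul
    ((Y0_isHomogeneous e).pow (κ - α 0))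
  have e1 : 1 * α 1 + 1 * α 2 + (t + 2) * α 0 + (t + 1) * (κ - α 0) = D + κ * (t + 1) := by
    obtain ⟨j, hj⟩ := Nat.exists_eq_add_of_le h0
    rw [hj, Nat.add_sub_cancel_left, ← hα]
    ring
  rw [e1] at h1
  exact h1

theorem psi_isHomogeneous {κ D : ℕ} {F : R3} (hF : F.IsHomogeneous D)
    (h0 : ∀ α, coeff α F ≠ 0 → α 0 ≤ κ) : (psi e κ F).IsHomogeneous (D + κ * (t + 1)) := by
  rw [psi_eq]
  refine IsHomogeneous.sum _ _ _ (fun α hα => ?_)
  exact (pm_isHomogeneous e (h0 α (mem_support_iff.mp hα)) (deg_eq hF hα)).C_mul _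

theorem degreeOf_pm_zero {κ : ℕ} {α : Fin 3 →₀ ℕ} (h0 : α 0 ≤ κ) :
    degreeOf 0 (pm e κ α) ≤ κ := by
  unfold pm
  refine (degreeOf_mul_le _ _ _).trans ?_
  refine (add_le_add ((degreeOf_mul_le _ _ _).trans (add_le_add (degreeOf_mul_le _ _ _) le_rfl))
    le_rfl).trans ?_
  rw [degreeOf_X_pow_of_ne _ (by decide), degreeOf_X_pow_of_ne _ (by decide)]
  have h1 := (degreeOf_pow_le 0 (Y1 e) (α 0)).trans
    (Nat.mul_le_mul_left (α 0) (degreeOf_zero_Y1 e))
  have h2 := (degreeOf_pow_le 0 (Y0 e) (κ - α 0)).trans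
    (Nat.mul_le_mul_left (κ - α 0) (degreeOf_zero_Y0 e))
  omega

theorem degreeOf_pm_two {κ D : ℕ} {α : Fin 3 →₀ ℕ} (h0 : α 0 ≤ κ)
    (hα : α 0 + α 1 + α 2 = D) : degreeOf 2 (pm e κ α) ≤ D + κ * t := by
  unfold pm
  refine (degreeOf_mul_le _ _ _).trans ?_
  refine (add_le_add ((degreeOf_mul_le _ _ _).trans (add_le_add (degreeOf_mul_le _ _ _) le_rfl))
    le_rfl).trans ?_
  rw [degreeOf_X_pow_of_ne _ (by decide), degreeOf_X_self_pow]
  have h1 := (degreeOf_pow_le 2 (Y1 e) (α 0)).trans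
    (Nat.mul_le_mul_left (α 0) (degreeOf_two_Y1 e))
  have h2 := (degreeOf_pow_le 2 (Y0 e) (κ - α 0)).trans
    (Nat.mul_le_mul_left (κ - α 0) (degreeOf_two_Y0 e))
  obtain ⟨j, hj⟩ := Nat.exists_eq_add_of_le h0
  rw [hj, Nat.add_sub_cancel_left] at h2 ⊢
  rw [← hα]
  have e1 : (α 0 + j) * t = α 0 * t + j * t := by ring
  have e2 : α 0 * (t + 1) = α 0 * t + α 0 := by ring
  omega

theorem degreeOf_psi {κ n : ℕ} {i : Fin 3} {F : R3}
    (h : ∀ α ∈ F.support, degreeOf i (pm e κ α) ≤ n) : degreeOf i (psi e κ F) ≤ n := by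
  rw [psi_eq]
  refine (degreeOf_sum_le _ _ _).trans (Finset.sup_le fun α hα => ?_)
  exact (degreeOf_C_mul_le _ _ _).trans (h α hα)

/-! ### values -/

theorem eval_Y0 {i : Fin N} {u : V3} (h2 : u 2 = x i * u 1) :
    eval u (Y0 e) = u 1 ^ t * (e.C'.eval (x i) * (c i * u 1 - u 0)) := by
  unfold Y0
  rw [map_sub, map_mul, map_mul, eval_X, eval_X,
    eval_bin_mul e.dA 1 (x i) (u 1) u (by ring) (by rw [h2]; ring),
    eval_bin_mul e.dC 1 (x i) (u 1) u (by ring) (by rw [h2]; ring), e.hA i]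
  ring

theorem eval_Y1 {i : Fin N} {u : V3} (h2 : u 2 = x i * u 1) :
    eval u (Y1 e) = - (u 1 ^ (t + 1) * (e.E.eval (x i) * (c i * u 1 - u 0))) := by
  unfold Y1
  rw [map_sub, map_mul, map_mul, eval_X, eval_X,
    eval_bin_mul e.dE 1 (x i) (u 1) u (by ring) (by rw [h2]; ring),
    eval_bin_mul e.dB 1 (x i) (u 1) u (by ring) (by rw [h2]; ring), e.hB i]
  ring

/-- the old points -/
noncomputable def pp (i : Fin N) : V3 := ![-(e.E.eval (x i)) / e.C'.eval (x i), 1, x i]

theorem eval_th {i : Fin N} {u : V3} (h2 : u 2 = x i * u 1) :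
    (fun j => eval u (th e j)) = (u 1 * eval u (Y0 e)) • pp e i := by
  have hc := e.hC i
  funext j
  fin_cases j
  · change eval u (Y1 e) = u 1 * eval u (Y0 e) * (-(e.E.eval (x i)) / e.C'.eval (x i))
    rw [eval_Y1 e h2, eval_Y0 e h2]
    field_simp
    ring
  · change eval u (X 1 * Y0 e) = u 1 * eval u (Y0 e) * 1
    rw [map_mul, eval_X, mul_one]
  · change eval u (X 2 * Y0 e) = u 1 * eval u (Y0 e) * x i
    rw [map_mul, eval_X, h2]
    ring

/-! ### the inverse -/

/-- the determinant -/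
noncomputable def dt : R3 := bin t e.A * bin (t + 1) e.E - bin (t + 1) e.B * bin t e.C'

/-- denominator of the inverse -/
noncomputable def U0 : R3 := bin (t + 1) e.E + bin t e.C' * X 0

/-- numerator of the inverse -/
noncomputable def U1 : R3 := bin (t + 1) e.B + bin t e.A * X 0

/-- the inverse -/
noncomputable def iv (u : V3) : V3 :=
  ![u 1 * eval u (U1 e), u 1 * eval u (U0 e), u 2 * eval u (U0 e)]

theorem eval_bin_iv (n : ℕ) (f : Polynomial ℂ) (u : V3) :
    eval (iv e u) (bin n f) = eval u (U0 e) ^ n * eval u (bin n f) := by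
  refine eval_bin_smul n f (eval u (U0 e)) u (iv e u) ?_ ?_
  · change u 1 * eval u (U0 e) = _
    ring
  · change u 2 * eval u (U0 e) = _
    ring

theorem eval_iv_Y0 (u : V3) : eval (iv e u) (Y0 e) =
    eval u (U0 e) ^ t * (u 1 * eval u (dt e)) := by
  unfold Y0
  rw [map_sub, map_mul, map_mul, eval_X, eval_X, eval_bin_iv, eval_bin_iv]
  change _ * (u 1 * eval u (U0 e)) - _ * (u 1 * eval u (U1 e)) = _
  unfold U0 U1 dt
  simp only [map_sub, map_add, map_mul, eval_X]
  ring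

theorem eval_iv_Y1 (u : V3) : eval (iv e u) (Y1 e) =
    eval u (U0 e) ^ (t + 1) * (u 1 * (u 0 * eval u (dt e))) := by
  unfold Y1
  rw [map_sub, map_mul, map_mul, eval_X, eval_X, eval_bin_iv, eval_bin_iv]
  change _ * (u 1 * eval u (U1 e)) - _ * (u 1 * eval u (U0 e)) = _
  unfold U0 U1 dt
  simp only [map_sub, map_add, map_mul, eval_X]
  ring

theorem eval_iv_th (u : V3) : (fun j => eval (iv e u) (th e j)) =
    (eval u (U0 e) ^ (t + 1) * (u 1 * eval u (dt e))) • u := by
  funext j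
  fin_cases j
  · change eval (iv e u) (Y1 e) = _ * u 0
    rw [eval_iv_Y1]
    ring
  · change eval (iv e u) (X 1 * Y0 e) = _ * u 1
    rw [map_mul, eval_X, eval_iv_Y0]
    change u 1 * eval u (U0 e) * _ = _
    ring
  · change eval (iv e u) (X 2 * Y0 e) = _ * u 2
    rw [map_mul, eval_X, eval_iv_Y0]
    change u 2 * eval u (U0 e) * _ = _
    ring

theorem dt_ne_zero : dt e ≠ 0 := by
  intro h
  apply e.hdet
  apply Polynomial.funext
  intro z
  have h1 := congrArg (eval (![0, 1, z] : V3)) h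
  have h2 : ∀ {n : ℕ} {f : Polynomial ℂ}, f.natDegree ≤ n →
      eval (![0, 1, z] : V3) (bin n f) = f.eval z := by
    intro n f hf
    rw [eval_bin_mul hf 1 z 1 ![0, 1, z] (by simp) (by simp)]
    ring
  unfold dt at h1
  rw [map_sub, map_mul, map_mul, h2 e.dA, h2 e.dE, h2 e.dB, h2 e.dC, map_zero] at h1
  rw [Polynomial.eval_sub, Polynomial.eval_mul, Polynomial.eval_mul, Polynomial.eval_zero]
  exact h1

theorem U0_ne_zero (i : Fin N) : U0 e ≠ 0 := by
  intro h
  apply e.hC i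
  have h1 : ∀ s : ℂ, eval (![s, 1, x i] : V3) (U0 e) = e.E.eval (x i) + e.C'.eval (x i) * s := by
    intro s
    unfold U0
    rw [map_add, map_mul, eval_X,
      eval_bin_mul e.dE 1 (x i) 1 ![s, 1, x i] (by simp) (by simp),
      eval_bin_mul e.dC 1 (x i) 1 ![s, 1, x i] (by simp) (by simp)]
    simp
  have h2 := h1 0
  have h3 := h1 1
  rw [h, map_zero] at h2 h3
  linear_combination h2 - h3

/-- the transformation is injective -/
theorem eq_zero_of_aeval_th {D : ℕ} {F : R3} (hF : F.IsHomogeneous D) (i : Fin N)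
    (h : aeval (th e) F = 0) : F = 0 := by
  have h1 : F * (U0 e ^ (t + 1) * (X 1 * dt e)) = 0 := by
    apply MvPolynomial.funext
    intro u
    rw [map_zero, map_mul, map_mul, map_mul, map_pow, eval_X]
    set s := eval u (U0 e) ^ (t + 1) * (u 1 * eval u (dt e)) with hs
    have h2 : eval (s • u) F = 0 := by
      rw [← eval_iv_th e u]
      have h3 : ∀ p : R3, eval (iv e u) (aeval (th e) p) =
          eval (fun l => eval (iv e u) (th e l)) p := by
        intro p
        induction p using MvPolynomial.induction_on with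
        | C c => rw [← algebraMap_eq, AlgHom.commutes, algebraMap_eq, eval_C, eval_C]
        | add p q hp hq => rw [map_add, map_add, hp, hq, map_add]
        | mul_X p n hp => rw [map_mul, aeval_X, map_mul, hp, map_mul, eval_X]
      rw [← h3, h, map_zero]
    rw [eval_smul_of_homogeneous hF] at h2
    by_cases hs0 : s = 0
    · rw [hs0, mul_zero]
    · rw [(mul_eq_zero.mp h2).resolve_left (pow_ne_zero _ hs0), zero_mul]
  refine (mul_eq_zero.mp h1).resolve_right ?_
  exact mul_ne_zero (pow_ne_zero _ (U0_ne_zero e i)) (mul_ne_zero (X_ne_zero _) (dt_ne_zero e))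

end

/-! ### the lines -/

/-- the equation of the fibre -/
def lv (a : ℂ) : V3 := ![0, -a, 1]

theorem lv_ne_zero (a : ℂ) : lv a ≠ 0 := by
  intro h
  have := congrFun h 2
  simp [lv] at this

theorem eval_lv (a : ℂ) (u : V3) : eval u (lin (lv a)) = u 2 - a * u 1 := by
  rw [eval_lin, Fin.sum_univ_three]
  simp [lv]
  ring

theorem lin_lv (a : ℂ) : lin (lv a) = X 2 - C a * X 1 := by
  apply MvPolynomial.funext
  intro u
  rw [eval_lv, map_sub, map_mul, eval_X, eval_X, eval_C]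

theorem degreeOf_lv (a : ℂ) : degreeOf 2 (lin (lv a)) = 1 := by
  rw [lin_lv]
  apply le_antisymm
  · refine degreeOf_sub_le' 2 _ _ ?_ ?_
    · rw [degreeOf_X_self]
    · refine (degreeOf_C_mul_le _ _ _).trans ?_
      rw [degreeOf_X_of_ne (by decide)]
      omega
  · have h1 : coeff (Finsupp.single 2 1) (X 2 - C a * X 1 : R3) ≠ 0 := by
      have h3 : coeff (Finsupp.single 2 1) (X 1 : R3) = 0 := by
        rw [MvPolynomial.coeff_X, if_neg]
        intro h
        have h4 := DFunLike.congr_fun h 1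
        simp at h4
      have h4 : coeff (Finsupp.single 2 1) (X 2 : R3) = 1 := by
        rw [MvPolynomial.coeff_X, if_pos rfl]
      rw [coeff_sub, coeff_C_mul, h3, h4, mul_zero, sub_zero]
      exact one_ne_zero
    have h2 := monomial_le_degreeOf 2 (mem_support_iff.mpr h1)
    rw [Finsupp.single_eq_same] at h2
    exact h2

theorem lin_lv_not_dvd {a b : ℂ} (h : a ≠ b) : ¬ lin (lv a) ∣ lin (lv b) := by
  rintro ⟨g, hg⟩
  have h1 := congrArg (eval (![0, 1, a] : V3)) hg
  rw [map_mul, eval_lv, eval_lv] at h1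
  simp only [Matrix.cons_val, Matrix.cons_val_one, mul_one, sub_self, zero_mul] at h1
  exact h (sub_eq_zero.mp h1)

theorem isRelPrime_lv {a b : ℂ} (h : a ≠ b) (m : ℕ) :
    IsRelPrime (lin (lv a) ^ m) (lin (lv b) ^ m) := by
  have h1 : IsRelPrime (lin (lv a)) (lin (lv b)) := by
    rw [(lin_prime (lv_ne_zero a)).irreducible.isRelPrime_iff_not_dvd]
    exact lin_lv_not_dvd h
  exact h1.pow

section

variable {t N : ℕ} {x c : Fin N → ℂ} (e : ET t x c)

/-- vanishing can be divided by a polynomial which does not vanish at the point -/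
theorem vanishTo_of_eval_ne {g f : R3} {p : V3} {μ : ℕ} (h : VanishTo (g * f) p μ)
    (hg : eval p g ≠ 0) : VanishTo f p μ := by
  intro k
  induction k using Nat.strong_induction_on with
  | _ k ih =>
    intro hk
    -- `f` vanishes to order `k`
    have h1 : VanishTo f p k := fun j hj => ih j hj (by omega)
    have h2 : VanishTo (g - C (eval p g)) p 1 := by
      rw [vanishTo_one_iff', map_sub, eval_C, sub_self]
    have h3 := VanishTo.mul h2 h1
    have h4 := h3 k (by omega)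
    have h5 := h k hk
    have h6 : translate p (g * f) =
        translate p ((g - C (eval p g)) * f) + C (eval p g) * translate p f := by
      unfold translate
      rw [map_mul, map_mul, map_sub, algHom_C, algebraMap_eq]
      ring
    rw [h6, map_add, h4, zero_add, homogeneousComponent_C_mul] at h5
    exact (mul_eq_zero.mp h5).resolve_left (fun h7 => hg (C_eq_zero.mp h7))

theorem vanishTo_of_pow_mul {v : V3} (hv : v ≠ 0) {p : V3} (hp : eval p (lin v) = 0) :
    ∀ {n μ : ℕ} {g : R3}, VanishTo (lin v ^ n * g) p μ → VanishTo g p (μ - n) := by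
  intro n
  induction n with
  | zero =>
    intro μ g h
    rwa [pow_zero, one_mul] at h
  | succ n ih =>
    intro μ g h
    rw [pow_succ', mul_assoc] at h
    have h1 := ih (vanishTo_of_mul_eq hv h hp)
    have e1 : μ - 1 - n = μ - (n + 1) := by omega
    rwa [e1] at h1

theorem lv_not_dvd_Y0 (i : Fin N) : ¬ lin (lv (x i)) ∣ X 1 * Y0 e := by
  rintro ⟨g, hg⟩
  have h1 := congrArg (eval (![c i - 1, 1, x i] : V3)) hg
  rw [map_mul, map_mul, eval_lv, eval_X, eval_Y0 e (i := i) (by simp)] at h1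
  simp only [Matrix.cons_val, Matrix.cons_val_one, Matrix.cons_val_zero, mul_one, sub_self,
    zero_mul, one_pow, one_mul, sub_sub_cancel] at h1
  exact e.hC i h1

/-- divisibility by the equation of a fibre -/
theorem lv_pow_dvd {κ D m : ℕ} (hD : κ ≤ D) {F : R3} (hF : F.IsHomogeneous D)
    (h0 : ∀ α, coeff α F ≠ 0 → α 0 ≤ κ) {i : Fin N} (hv : VanishTo F (pp e i) m) :
    lin (lv (x i)) ^ m ∣ psi e κ F := by
  refine lin_pow_dvd (lv_ne_zero _) (lv_not_dvd_Y0 e i) (fun u hu hW => ?_)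
  rw [eval_lv, sub_eq_zero] at hu
  rw [map_mul, eval_X] at hW
  have h1 := vanishTo_smul hF hW hv
  rw [← eval_th e hu] at h1
  have h2 := vanishTo_comp (th e) h1
  rw [aeval_th e hD hF h0] at h2
  refine vanishTo_of_eval_ne h2 ?_
  rw [map_pow]
  exact pow_ne_zero _ (right_ne_zero_of_mul hW)

/-- the product of the fibres -/
noncomputable def Pr (x : Fin N → ℂ) (m : ℕ) : R3 := ∏ i, lin (lv (x i)) ^ m

theorem Pr_isHomogeneous (m : ℕ) : (Pr x m).IsHomogeneous (m * N) := by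
  unfold Pr
  have h1 := IsHomogeneous.prod Finset.univ (fun i => lin (lv (x i)) ^ m) (fun _ => 1 * m)
    (fun i _ => (lin_isHomogeneous (lv (x i))).pow m)
  rw [Finset.sum_const, Finset.card_univ, Fintype.card_fin, smul_eq_mul] at h1
  have e1 : N * (1 * m) = m * N := by ring
  rw [e1] at h1
  exact h1

theorem Pr_ne_zero (m : ℕ) : Pr x m ≠ 0 :=
  Finset.prod_ne_zero_iff.mpr fun i _ => pow_ne_zero _ (lin_prime (lv_ne_zero _)).ne_zero

theorem degreeOf_Pr (m : ℕ) : degreeOf 2 (Pr x m) = m * N := by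
  unfold Pr
  rw [degreeOf_prod_eq _ _ (fun i _ => pow_ne_zero _ (lin_prime (lv_ne_zero _)).ne_zero)]
  have h1 : ∀ i : Fin N, degreeOf 2 (lin (lv (x i)) ^ m) = m := by
    intro i
    rw [degreeOf_pow_eq _ _ _ (lin_prime (lv_ne_zero _)).ne_zero, degreeOf_lv, mul_one]
  rw [Finset.sum_congr rfl (fun i _ => h1 i), Finset.sum_const, Finset.card_univ,
    Fintype.card_fin, smul_eq_mul, mul_comm]

theorem Pr_dvd {κ D m : ℕ} (hx : Function.Injective x) (hD : κ ≤ D) {F : R3}
    (hF : F.IsHomogeneous D) (h0 : ∀ α, coeff α F ≠ 0 → α 0 ≤ κ)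
    (hv : ∀ i, VanishTo F (pp e i) m) : Pr x m ∣ psi e κ F := by
  unfold Pr
  refine Fintype.prod_dvd_of_isRelPrime ?_ (fun i => lv_pow_dvd e hD hF h0 (hv i))
  intro i j hij
  exact isRelPrime_lv (fun h => hij (hx h)) m

theorem vanishTo_pow {f : R3} {a : V3} (h : VanishTo f a 1) : ∀ n : ℕ, VanishTo (f ^ n) a n := by
  intro n
  induction n with
  | zero => exact vanishTo_zero _ _
  | succ n ih =>
    rw [pow_succ]
    exact VanishTo.mul ih h

theorem vanishTo_sum {ι : Type} (s : Finset ι) (f : ι → R3) {a : V3} {m : ℕ}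
    (h : ∀ i ∈ s, VanishTo (f i) a m) : VanishTo (∑ i ∈ s, f i) a m :=
  (vanSub a m).sum_mem h

theorem vanishTo_psi {κ : ℕ} {F : R3} (h0 : ∀ α, coeff α F ≠ 0 → α 0 ≤ κ) {i : Fin N} {a : V3}
    (h2 : a 2 = x i * a 1) (ha : c i * a 1 = a 0) : VanishTo (psi e κ F) a κ := by
  have hY0 : VanishTo (Y0 e) a 1 := by
    rw [vanishTo_one_iff', eval_Y0 e h2, ha, sub_self, mul_zero, mul_zero]
  have hY1 : VanishTo (Y1 e) a 1 := by
    rw [vanishTo_one_iff', eval_Y1 e h2, ha, sub_self, mul_zero, mul_zero, neg_zero]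
  rw [psi_eq]
  refine vanishTo_sum _ _ (fun α hα => ?_)
  have h1 := h0 α (mem_support_iff.mp hα)
  have h3 : VanishTo (pm e κ α) a κ := by
    unfold pm
    have h4 := VanishTo.mul (VanishTo.mul (vanishTo_zero (X 1 ^ α 1 * X 2 ^ α 2) a)
      (vanishTo_pow hY1 (α 0))) (vanishTo_pow hY0 (κ - α 0))
    have e1 : 0 + α 0 + (κ - α 0) = κ := by omega
    rwa [e1] at h4
  have h5 := VanishTo.mul (vanishTo_zero (C (coeff α F)) a) h3
  rwa [zero_add] at h5

/-- the quotient -/
theorem exists_quot {κ D m k H : ℕ} (hx : Function.Injective x) (hκ : κ = m + k) (hD : κ ≤ D)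
    (hH : H + m * N = D + κ * t + 1) {q : Fin N → V3} (hq1 : ∀ i, q i 1 ≠ 0)
    (hqx : ∀ i, q i 2 = x i * q i 1) (hqc : ∀ i, c i * q i 1 = q i 0)
    {F : R3} (hF : F.IsHomogeneous D) (h0 : ∀ α, coeff α F ≠ 0 → α 0 ≤ κ)
    (hv : ∀ i, VanishTo F (pp e i) m) :
    ∃ G ∈ TS (H + (κ + 1) - 2) (rect H (κ + 1)) k q, psi e κ F = Pr x m * G := by
  by_cases hpsi : psi e κ F = 0
  · exact ⟨0, Submodule.zero_mem _, by rw [hpsi, mul_zero]⟩
  obtain ⟨G₀, hG₀⟩ := Pr_dvd e hx hD hF h0 hv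
  have hhom := psi_isHomogeneous e hF h0
  -- the degree
  have hdeg : m * N ≤ D + κ * (t + 1) := by
    by_contra hcon
    apply hpsi
    rw [← homogeneousComponent_eq_self hhom, hG₀]
    exact homogeneousComponent_mul_lt (Pr_isHomogeneous m) (by omega) G₀
  set d := D + κ * (t + 1) - m * N with hd
  set G := homogeneousComponent d G₀ with hG
  have hPG : psi e κ F = Pr x m * G := by
    rw [hG, ← homogeneousComponent_mul (Pr_isHomogeneous m), ← hG₀]
    have e1 : m * N + d = D + κ * (t + 1) := by omega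
    rw [e1, homogeneousComponent_eq_self hhom]
  have hG0 : G ≠ 0 := by
    intro h
    exact hpsi (by rw [hPG, h, mul_zero])
  have hGhom : G.IsHomogeneous d := homogeneousComponent_isHomogeneous d G₀
  have hdeg0 : degreeOf 0 G ≤ κ := by
    have h1 : degreeOf 0 (psi e κ F) ≤ κ :=
      degreeOf_psi e (fun α hα => degreeOf_pm_zero e (h0 α (mem_support_iff.mp hα)))
    rw [hPG, degreeOf_mul_eq (Pr_ne_zero m) hG0] at h1
    omega
  have hdeg2 : degreeOf 2 G + m * N ≤ D + κ * t := by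
    have h1 : degreeOf 2 (psi e κ F) ≤ D + κ * t :=
      degreeOf_psi e (fun α hα => degreeOf_pm_two e (h0 α (mem_support_iff.mp hα))
        (deg_eq hF hα))
    rw [hPG, degreeOf_mul_eq (Pr_ne_zero m) hG0, degreeOf_Pr] at h1
    omega
  refine ⟨G, ?_, hPG⟩
  rw [mem_TS]
  refine ⟨?_, fun i => ?_, fun α hα => ?_⟩
  · have e1 : H + (κ + 1) - 2 = d := by
      rw [hd]
      have e2 : κ * (t + 1) = κ * t + κ := by ring
      omega
    rw [e1]
    exact hGhom
  · have h1 := vanishTo_psi e h0 (hqx i) (hqc i)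
    rw [hPG] at h1
    have h2 : Pr x m = lin (lv (x i)) ^ m * ∏ j ∈ Finset.univ.erase i, lin (lv (x j)) ^ m := by
      exact (Finset.mul_prod_erase Finset.univ (fun j => lin (lv (x j)) ^ m)
        (Finset.mem_univ i)).symm
    rw [h2, mul_assoc] at h1
    have h3 := vanishTo_of_pow_mul (lv_ne_zero _) (by rw [eval_lv, hqx i, sub_self]) h1
    have e1 : κ - m = k := by omega
    rw [e1] at h3
    refine vanishTo_of_eval_ne h3 ?_
    rw [map_prod]
    refine Finset.prod_ne_zero_iff.mpr (fun j hj => ?_)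
    rw [map_pow, eval_lv, hqx i, ← sub_mul]
    refine pow_ne_zero _ (mul_ne_zero (sub_ne_zero.mpr fun h => ?_) (hq1 i))
    exact (Finset.ne_of_mem_erase hj) (hx h).symm
  · have h1 := monomial_le_degreeOf 0 (mem_support_iff.mpr hα)
    have h2 := monomial_le_degreeOf 2 (mem_support_iff.mpr hα)
    constructor
    · omega
    · omega

end

/-! ### the final inequality -/

theorem gen_ne {N : ℕ} {q : Fin N → V3} (hq : GenericPoints q) (i : Fin N) (l : Fin 3) :
    q i l ≠ 0 := by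
  have h := hq.ne_zero (i, l)
  exact h

theorem gen_injective {N : ℕ} {q : Fin N → V3} (hq : GenericPoints q) :
    Function.Injective (fun i => q i 2 / q i 1) := by
  intro i j hij
  by_contra hne
  have h1 : q i 2 * q j 1 - q j 2 * q i 1 = 0 := by
    have h2 := gen_ne hq i 1
    have h3 := gen_ne hq j 1
    simp only at hij
    rw [div_eq_div_iff h2 h3] at hij
    rw [hij, sub_self]
  have h4 := (algebraicIndependent_iff.mp hq)
    (X (i, 2) * X (j, 1) - X (j, 2) * X (i, 1)) (by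
      rw [map_sub, map_mul, map_mul, aeval_X, aeval_X, aeval_X, aeval_X]
      exact h1)
  have h5 := congrArg (eval (fun z : Fin N × Fin 3 =>
    if z = (i, 2) ∨ z = (j, 1) then (1 : ℚ) else 0)) h4
  rw [map_sub, map_mul, map_mul, eval_X, eval_X, eval_X, eval_X, map_zero] at h5
  have hne' : j ≠ i := fun h => hne h.symm
  simp [hne, hne'] at h5

end Tr

theorem hF_swap (D κ m N : ℕ) : hF D κ m N = hT D {α | α 0 ≤ κ} m N := by
  unfold hF
  rw [← hT_perm (Equiv.swap 0 2) (T := {α | α 0 ≤ κ})]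
  congr 1
  ext α
  have h1 : (α.mapDomain (Equiv.swap (0 : Fin 3) 2)) 0 = α 2 := by
    have h2 := Finsupp.mapDomain_apply (Equiv.swap (0 : Fin 3) 2).injective α 2
    rwa [Equiv.swap_apply_right] at h2
  change α 2 ≤ κ ↔ (α.mapDomain (Equiv.swap (0 : Fin 3) 2)) 0 ≤ κ
  rw [h1]

theorem transform {D κ m t H k : ℕ} (ht : 1 ≤ t) (hκ : κ = m + k) (hD : κ ≤ D)
    (hH : H + m * (2 * t + 1) = D + κ * t + 1) :
    hF D κ m (2 * t + 1) ≤ hR H (κ + 1) k (2 * t + 1) := by
  classical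
  set q := gpt (2 * t + 1) with hq
  have hgen := gpt_generic (2 * t + 1)
  rw [← hq] at hgen
  obtain ⟨e⟩ := exists_ET ht hgen
  have hx := Tr.gen_injective hgen
  rw [hF_swap]
  refine (hT_le (Tr.pp e)).trans ?_
  unfold hR hT
  rw [← hq]
  set V := TS D {α : Fin 3 →₀ ℕ | α 0 ≤ κ} m (Tr.pp e) with hV
  set W := TS (H + (κ + 1) - 2) (rect H (κ + 1)) k q with hW
  have hmem : ∀ F ∈ V, F.IsHomogeneous D ∧ (∀ i, VanishTo F (Tr.pp e i) m) ∧
      ∀ α, coeff α F ≠ 0 → α 0 ≤ κ := by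
    intro F hF
    rw [hV, mem_TS] at hF
    exact hF
  have h1 : V.map (Tr.psi e κ) ≤ W.map (LinearMap.mulLeft ℂ (Tr.Pr (fun i => q i 2 / q i 1) m)) := by
    rintro _ ⟨F, hF, rfl⟩
    obtain ⟨h2, h3, h4⟩ := hmem F hF
    obtain ⟨G, hG, hFG⟩ := Tr.exists_quot e hx hκ hD hH (q := q)
      (fun i => Tr.gen_ne hgen i 1)
      (fun i => by rw [div_mul_cancel₀ _ (Tr.gen_ne hgen i 1)])
      (fun i => by rw [div_mul_cancel₀ _ (Tr.gen_ne hgen i 1)]) h2 h4 h3
    exact ⟨G, hG, by rw [LinearMap.mulLeft_apply, ← hFG]⟩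
  have h2 : finrank ℂ V = finrank ℂ ↥(V.map (Tr.psi e κ)) := by
    have h3 : Function.Injective ((Tr.psi e κ) ∘ₗ V.subtype) := by
      rw [← LinearMap.ker_eq_bot, Submodule.eq_bot_iff]
      intro F hF
      rw [LinearMap.mem_ker, LinearMap.comp_apply] at hF
      apply Subtype.ext
      obtain ⟨h4, h5, h6⟩ := hmem F.1 F.2
      refine Tr.eq_zero_of_aeval_th e h4 ⟨0, by omega⟩ ?_
      rw [Tr.aeval_th e hD h4 h6]
      change Tr.psi e κ F.1 = 0 at hF
      rw [hF, mul_zero]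
    have h4 := LinearMap.finrank_range_of_inj h3
    rw [LinearMap.range_comp, Submodule.range_subtype] at h4
    exact h4.symm
  rw [h2]
  exact (Submodule.finrank_mono h1).trans (Submodule.finrank_map_le _ _)

end Pool.Agent.Work.MP_0421d9_ag.LD
end

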