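import Mathlib.Data.Finset.Card
import Mathlib.Order.Interval.Finset.Nat
import Pool.Agent.Work.Z0421M.C04
import Pool.Agent.Work.Z0421M.C12
import Pool.Agent.Work.Z0421M.C14
import Pool.Agent.Work.Z0421M.C16
import Pool.Agent.Work.Z0421M.C17

section
/-!
Maximal rank on `P¹ × P¹`: definitions and monotonicity.
-/

namespace Pool.Agent.Work.MP_0421d9_ag.LD

open MvPolynomial Module

/-- the system of bidegree `(H - 1, L - 1)` with `N` points of multiplicity `k` has the expected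
dimension -/
def MR (H L k N : ℕ) : Prop := hR H L k N = H * L - N * (k + 1).choose 2

/-- all systems on `R × L` with an even number of points of multiplicity `k` -/
def GE (k L R : ℕ) : Prop := ∀ t, MR R L k (2 * t)

/-- all systems on `R × L` with an odd number of points of multiplicity `k` -/
def GO (k L R : ℕ) : Prop := ∀ t, MR R L k (2 * t + 1)

/-- all systems on `R × L` with a number of points of parity `p` -/
def GP (p k L R : ℕ) : Prop := ∀ t, MR R L k (2 * t + p)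

theorem GP_zero {k L R : ℕ} : GP 0 k L R ↔ GE k L R := Iff.rfl

theorem GP_one {k L R : ℕ} : GP 1 k L R ↔ GO k L R := Iff.rfl

/-- an interval of good heights, with a margin `s` -/
def GS (k L s x y : ℕ) : Prop := s < x ∧ x ≤ y ∧ ∀ R, x ≤ R + s → R ≤ y + s → GE k L R

theorem MR_iff_le {H L k N : ℕ} : MR H L k N ↔ hR H L k N ≤ H * L - N * (k + 1).choose 2 := by
  have h := hR_count H L k N
  unfold MR
  omega

theorem MR_of_le {H L k N : ℕ} (h : hR H L k N ≤ H * L - N * (k + 1).choose 2) : MR H L k N :=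
  MR_iff_le.mpr h

theorem MR_of_reg {H L k N : ℕ} (h : hR H L k N + N * (k + 1).choose 2 = H * L) :
    MR H L k N := by
  unfold MR
  omega

theorem MR_of_emp {H L k N : ℕ} (h : hR H L k N = 0) : MR H L k N := by
  have h1 := hR_count H L k N
  unfold MR
  omega

theorem MR.reg {H L k N : ℕ} (h : MR H L k N) (hN : N * (k + 1).choose 2 ≤ H * L) :
    hR H L k N + N * (k + 1).choose 2 = H * L := by
  unfold MR at h
  omega

theorem MR.emp {H L k N : ℕ} (h : MR H L k N) (hN : H * L ≤ N * (k + 1).choose 2) :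
    hR H L k N = 0 := by
  unfold MR at h
  omega

theorem hR_swap (H L k N : ℕ) : hR H L k N = hR L H k N := by
  unfold hR
  rw [← hT_perm (Equiv.swap 0 2) (T := rect L H), Nat.add_comm H L]
  congr 1
  ext α
  have hinj : Function.Injective (Equiv.swap (0 : Fin 3) 2) := (Equiv.swap (0 : Fin 3) 2).injective
  have h0 : (α.mapDomain (Equiv.swap (0 : Fin 3) 2)) 0 = α 2 := by
    have h2 := Finsupp.mapDomain_apply hinj α 2
    rwa [Equiv.swap_apply_right] at h2
  have h2 : (α.mapDomain (Equiv.swap (0 : Fin 3) 2)) 2 = α 0 := by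
    have h2 := Finsupp.mapDomain_apply hinj α 0
    rwa [Equiv.swap_apply_left] at h2
  change (α 2 < H ∧ α 0 < L) ↔ ((α.mapDomain (Equiv.swap (0 : Fin 3) 2)) 2 < L ∧
    (α.mapDomain (Equiv.swap (0 : Fin 3) 2)) 0 < H)
  rw [h0, h2]
  exact and_comm

theorem MR.swap {H L k N : ℕ} (h : MR H L k N) : MR L H k N := by
  unfold MR at h ⊢
  rw [hR_swap, h, Nat.mul_comm]

theorem emp_mono_right {H L L' k N : ℕ} (hL : L ≤ L') (h : hR H L' k N = 0) :
    hR H L k N = 0 := by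
  rw [hR_swap] at h ⊢
  exact rect_empty_mono hL h

/-- regular systems: fewer points -/
theorem reg_anti {H L k N N' : ℕ} (hN : N' ≤ N)
    (h : hR H L k N + N * (k + 1).choose 2 = H * L) :
    hR H L k N' + N' * (k + 1).choose 2 = H * L := by
  have h1 : hR H L k N' ≤ hR H L k N + (N - N') * (k + 1).choose 2 := hT_drop hN
  have h2 := hR_count H L k N'
  rw [Nat.sub_mul] at h1
  have h3 := Nat.mul_le_mul_right ((k + 1).choose 2) hN
  omega

/-- empty systems: more points -/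
theorem emp_mono {H L k N N' : ℕ} (hN : N ≤ N') (h : hR H L k N = 0) : hR H L k N' = 0 := by
  have h1 : hR H L k N' ≤ hR H L k N := hT_anti hN
  omega

theorem MR_zero_mult (H L N : ℕ) : MR H L 0 N := by
  have h1 : hR H L 0 N ≤ hR H L 0 0 := hT_anti (Nat.zero_le N)
  rw [hR_no_points] at h1
  apply MR_of_le
  have h2 : (0 + 1).choose 2 = 0 := rfl
  rw [h2]
  omega

/-- it suffices to look at the two numbers of points next to the critical one -/
theorem GP_of_two {p k L R t : ℕ} (h1 : (2 * t + p) * (k + 1).choose 2 ≤ R * L)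
    (h2 : R * L ≤ (2 * (t + 1) + p) * (k + 1).choose 2) (h3 : MR R L k (2 * t + p))
    (h4 : MR R L k (2 * (t + 1) + p)) : GP p k L R := by
  intro t'
  rcases Nat.lt_or_ge t t' with h | h
  · exact MR_of_emp (emp_mono (by omega : 2 * (t + 1) + p ≤ 2 * t' + p) (h4.emp h2))
  · exact MR_of_reg (reg_anti (by omega : 2 * t' + p ≤ 2 * t + p) (h3.reg h1))

end Pool.Agent.Work.MP_0421d9_ag.LD
end

section
/-!
Strips of a rectangle and of the systems `hF`, cut off by a smaller system of the same kind.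
-/

namespace Pool.Agent.Work.MP_0421d9_ag.LD

open MvPolynomial Module

/-- strips of the systems `hF` -/
theorem hF_strip {D K κ m N r B : ℕ} (hκ : 1 ≤ κ) (hK : κ + 1 ≤ K) (hD : K + 1 ≤ D)
    (hB : B ≤ D - κ + 1) (h1 : hF D κ m N ≤ B) (h0 : hF D (κ - 1) m N = 0) :
    hF D K m (r + N) ≤ max (hF (D - κ) (K - κ) m r - (D - κ + 1 - B))
      (hF (D - κ - 1) (K - κ - 1) m r) := by
  have hk := kills_of_hF hκ (by omega) hB h1 h0
  obtain ⟨δ, rfl⟩ : ∃ δ, D = δ + 1 + κ := ⟨D - κ - 1, by omega⟩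
  have h2 := peel (δ := δ) (κ := κ) (m := m) (r := r) (N := N) (A := δ + 1 + κ - κ + 1 - B)
    (T := {α | α 2 ≤ K}) hκ (by omega) (fun α β hα h2 _ _ => by
      change β 2 ≤ K
      rw [h2]
      exact hα)
    (hk.mono (fun α _ hα => hα.2))
  have e1 : δ + 1 + κ - κ = δ + 1 := by omega
  have e2 : δ + 1 - 1 = δ := by omega
  have e4 : {γ : Fin 3 →₀ ℕ | γ + Finsupp.single 2 κ ∈ {α : Fin 3 →₀ ℕ | α 2 ≤ K}} =
      {γ : Fin 3 →₀ ℕ | γ 2 ≤ K - κ} := by
    ext γ
    change (γ + Finsupp.single 2 κ : Fin 3 →₀ ℕ) 2 ≤ K ↔ γ 2 ≤ K - κ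
    rw [Finsupp.add_apply, Finsupp.single_eq_same]
    omega
  have e5 : {γ : Fin 3 →₀ ℕ | γ + Finsupp.single 2 (κ + 1) ∈ {α : Fin 3 →₀ ℕ | α 2 ≤ K}} =
      {γ : Fin 3 →₀ ℕ | γ 2 ≤ K - κ - 1} := by
    ext γ
    change (γ + Finsupp.single 2 (κ + 1) : Fin 3 →₀ ℕ) 2 ≤ K ↔ γ 2 ≤ K - κ - 1
    rw [Finsupp.add_apply, Finsupp.single_eq_same]
    omega
  rw [e4, e5] at h2
  unfold hF
  rw [e1] at h2 ⊢
  rw [e2]
  exact h2

namespace VS

theorem exists_div_X1 {F : R3} {δ u : ℕ} (hF : F.IsHomogeneous (δ + u))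
    (h : ∀ α ∈ F.support, u ≤ α 1) :
    ∃ G : R3, G.IsHomogeneous δ ∧ F = X 1 ^ u * G ∧
      ∀ β, coeff β G = coeff (Finsupp.single 1 u + β) F := by
  refine ⟨F.divMonomial (Finsupp.single 1 u), ?_, ?_, fun β => coeff_divMonomial _ _ _⟩
  · intro β hβ
    rw [coeff_divMonomial] at hβ
    have h1 := hF hβ
    rw [map_add] at h1
    have h2 : Finsupp.weight (1 : Fin 3 → ℕ) (Finsupp.single 1 u) = u := by
      rw [Finsupp.weight_single]
      simp
    rw [h2] at h1
    omega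
  · ext γ
    rw [X_pow_eq_monomial, coeff_monomial_mul']
    split_ifs with h1
    · rw [one_mul, coeff_divMonomial, add_tsub_cancel_of_le h1]
    · by_contra hcon
      apply h1
      have h2 := h γ (mem_support_iff.mpr hcon)
      rw [Finsupp.single_le_iff]
      exact h2

theorem single1_apply (u : ℕ) (β : Fin 3 →₀ ℕ) : (Finsupp.single 1 u + β : Fin 3 →₀ ℕ) 0 = β 0 ∧
    (Finsupp.single 1 u + β : Fin 3 →₀ ℕ) 2 = β 2 := by
  constructor
  · rw [Finsupp.add_apply, Finsupp.single_eq_of_ne (by decide), zero_add]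
  · rw [Finsupp.add_apply, Finsupp.single_eq_of_ne (by decide), zero_add]

theorem vanishTo_of_X1 {G : R3} {p : V3} {k u : ℕ} (hp : p 1 ≠ 0)
    (h : VanishTo (X 1 ^ u * G) p k) : VanishTo G p k := by
  refine Tr.vanishTo_of_eval_ne h ?_
  rw [map_pow, eval_X]
  exact pow_ne_zero _ hp

/-- the order at a general point of the top row -/
theorem kills_top {R L k N B : ℕ} (hR1 : 1 ≤ R) (hL : 1 ≤ L)
    (h1 : hR (R + 1) L k N ≤ B) (h0 : hR R L k N = 0) :
    Kills (R + L - 1) k N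
      {α | α ∈ rect (R + 1) L ∧ (α 2 < R ∨ (α 2 = R ∧ B ≤ α 0))} := by
  classical
  have eD : R + 1 + L - 2 = R + L - 1 := by omega
  set V := TS (R + L - 1) (rect (R + 1) L) k (gpt N) with hV
  have hVd : finrank ℂ V ≤ B := by
    unfold hR hT at h1
    rw [eD] at h1
    exact h1
  obtain ⟨h, hh0, hh⟩ := order_generic (V.map (topc R)) B
  set g : Polynomial ℂ := ∏ i : Fin N, (Polynomial.C (gpt N i 0) -
    Polynomial.X * Polynomial.C (gpt N i 1)) with hg
  have hg0 : g ≠ 0 := by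
    rw [hg, Finset.prod_ne_zero_iff]
    intro i _ h2
    have h3 := congrArg (Polynomial.eval 0) h2
    simp only [Polynomial.eval_sub, Polynomial.eval_mul, Polynomial.eval_C, Polynomial.eval_X,
      zero_mul, sub_zero, Polynomial.eval_zero] at h3
    exact gpt_ne i 0 h3
  obtain ⟨c, hc, hc'⟩ := exists_eval_ne hh0 hg0
  have hne : ∀ i, gpt N i 0 - c * gpt N i 1 ≠ 0 := by
    rw [hg, Polynomial.eval_prod, Finset.prod_ne_zero_iff] at hc'
    intro i
    have h2 := hc' i (Finset.mem_univ i)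
    rw [Polynomial.eval_sub, Polynomial.eval_mul, Polynomial.eval_C, Polynomial.eval_C,
      Polynomial.eval_X] at h2
    exact h2
  have h2 := hh c hc
  have h3 : finrank ℂ ↥(V.map (topc R)) ≤ B := (Submodule.finrank_map_le _ _).trans hVd
  have h4 : V.map (topc R) ⊓ ordSub c B = ⊥ := by
    have hfin : Module.Finite ℂ ↥(V.map (topc R) ⊓ ordSub c B) :=
      Submodule.finiteDimensional_of_le inf_le_left
    rw [← Submodule.finrank_eq_zero (R := ℂ)]
    omega
  have h5 : TS (R + L - 2) (rect R L) k (gpt N) = ⊥ := by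
    rw [← Submodule.finrank_eq_zero (R := ℂ)]
    exact h0
  refine ⟨fun i => (shear c).mulVec (gpt N i), ?_, ?_⟩
  · intro i l
    simp only [shear_mulVec]
    fin_cases l
    · exact hne i
    · exact gpt_ne i 1
    · exact gpt_ne i 2
  · intro G hG1 hG2 hG3
    have h6 : subM (shear c) G ∈ V := by
      rw [hV, mem_TS]
      refine ⟨subM_isHomogeneous _ hG1, fun i => vanishTo_subM _ (hG3 i), fun β hβ => ?_⟩
      obtain ⟨α, hα, h7, h8, -⟩ := coeff_shear c G β hβ
      have h9 := (hG2 α (mem_support_iff.mpr hα)).1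
      exact ⟨by rw [h7]; exact h9.1, lt_of_le_of_lt h8 h9.2⟩
    have h7 : topc R (subM (shear c) G) ∈ V.map (topc R) ⊓ ordSub c B := by
      refine Submodule.mem_inf.mpr ⟨⟨_, h6, rfl⟩, ?_⟩
      intro j hj
      rw [topc_shear, ← onLine_shear, onLine_e1_e0, Polynomial.finsetSum_coeff]
      refine Finset.sum_eq_zero (fun β hβ => ?_)
      rw [Polynomial.coeff_C_mul_X_pow]
      split_ifs with h8 h9
      · exfalso
        have h10 := mem_support_iff.mp hβ
        rw [coeff_divMonomial] at h10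
        have h11 := (hG2 _ (mem_support_iff.mpr h10)).2
        have e0' : (Finsupp.single (2 : Fin 3) R + β) 0 = β 0 := by
          rw [Finsupp.add_apply, Finsupp.single_eq_of_ne (by decide), zero_add]
        have e2' : (Finsupp.single (2 : Fin 3) R + β) 2 = R + β 2 := by
          rw [Finsupp.add_apply, Finsupp.single_eq_same]
        rcases h11 with h11 | ⟨-, h11⟩
        · rw [e2'] at h11
          omega
        · rw [e0'] at h11
          omega
      · rw [mul_zero]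
      · rfl
    rw [h4, Submodule.mem_bot] at h7
    have h8 : subM (shear c) G = 0 := by
      obtain ⟨h9, h10, h11⟩ := mem_TS.mp h6
      have e3 : R + L - 1 = (R + L - 2) + 1 := by omega
      have h12 : ∀ α ∈ (subM (shear c) G).support, α 2 < R := by
        intro α hα
        have h13 := (h11 α (mem_support_iff.mp hα)).1
        by_contra hcon
        have h14 : α 2 = R := by omega
        apply mem_support_iff.mp hα
        rw [← topc_coeff h9 h14 (degree_of_mem_support h9 (mem_support_iff.mp hα)), h7,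
          Polynomial.coeff_zero]
      obtain ⟨G', hG'1, hG'2, hG'3⟩ := exists_div_X1 (F := subM (shear c) G) (δ := R + L - 2)
        (u := 1) (by rw [← e3]; exact h9) (fun α hα => by
          have h13 := h12 α hα
          have h14 := (h11 α (mem_support_iff.mp hα)).2
          have h15 := deg_eq h9 hα
          omega)
      have h13 : G' ∈ TS (R + L - 2) (rect R L) k (gpt N) := by
        rw [mem_TS]
        refine ⟨hG'1, fun i => ?_, fun β hβ => ?_⟩
        · have h14 := h10 i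
          rw [hG'2] at h14
          exact vanishTo_of_X1 (gpt_ne i 1) h14
        · rw [hG'3] at hβ
          have h14 := h12 _ (mem_support_iff.mpr hβ)
          have h15 := (h11 _ hβ).2
          rw [(single1_apply 1 β).2] at h14
          rw [(single1_apply 1 β).1] at h15
          exact ⟨h14, h15⟩
      rw [h5, Submodule.mem_bot] at h13
      rw [hG'2, h13, mul_zero]
    have h9 := congrArg (subM (shear (-c))) h8
    have h10 : shear c * shear (-c) = 1 := by
      have h11 := shear_mul (-c)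
      rwa [neg_neg] at h11
    rwa [subM_subM, h10, subM_one, map_zero] at h9

/-! ### reversal -/

/-- the reversed exponent -/
noncomputable def rex (R L : ℕ) (α : Fin 3 →₀ ℕ) : Fin 3 →₀ ℕ :=
  ex3 (L - 1 - α 0) (R + α 0 - α 2) (α 2)

/-- the reversed form -/
noncomputable def rev (R L : ℕ) (F : R3) : R3 :=
  ∑ α ∈ F.support, monomial (rex R L α) (coeff α F)

theorem coeff_rev_ne {R L : ℕ} {F : R3} {β : Fin 3 →₀ ℕ} (h : coeff β (rev R L F) ≠ 0) :
    ∃ α, coeff α F ≠ 0 ∧ β = rex R L α := by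
  classical
  unfold rev at h
  rw [coeff_sum] at h
  obtain ⟨α, hα, h1⟩ := Finset.exists_ne_zero_of_sum_ne_zero h
  rw [coeff_monomial] at h1
  exact ⟨α, mem_support_iff.mp hα, ((ite_ne_right_iff.mp h1).1).symm⟩

theorem rev_isHomogeneous {R L : ℕ} (hL : 1 ≤ L) {F : R3}
    (hT : ∀ α ∈ F.support, α ∈ rect (R + 1) L) : (rev R L F).IsHomogeneous (R + L - 1) := by
  unfold rev
  refine IsHomogeneous.sum _ _ _ (fun α hα => isHomogeneous_monomial _ ?_)
  have h1 := hT α hα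
  have h2 : α 2 < R + 1 := h1.1
  have h3 : α 0 < L := h1.2
  unfold rex
  rw [degree_three, ex3_zero, ex3_one, ex3_two]
  omega

/-- the substitution -/
noncomputable def ph : Fin 3 → R3 := ![X 1 * X 1, X 0 * X 1, X 0 * X 2]

theorem aeval_ph {R L : ℕ} (hL : 1 ≤ L) {F : R3} (hF : F.IsHomogeneous (R + L - 1))
    (hT : ∀ α ∈ F.support, α ∈ rect (R + 1) L) :
    aeval ph F = (X 0 ^ R * X 1 ^ (L - 1)) * rev R L F := by
  unfold rev
  rw [Finset.mul_sum]
  conv_lhs => rw [← support_sum_monomial_coeff F]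
  rw [map_sum]
  refine Finset.sum_congr rfl (fun α hα => ?_)
  have h1 := deg_eq hF hα
  have h2 : α 2 < R + 1 := (hT α hα).1
  have h3 : α 0 < L := (hT α hα).2
  rw [aeval_monomial, Finsupp.prod_fintype _ _ (fun i => pow_zero _), Fin.prod_univ_three,
    algebraMap_eq]
  change C (coeff α F) * ((X 1 * X 1) ^ α 0 * (X 0 * X 1) ^ α 1 * (X 0 * X 2) ^ α 2) = _
  have e1 : (monomial (rex R L α) (coeff α F) : R3) =
      C (coeff α F) * (X 0 ^ (L - 1 - α 0) * X 1 ^ (R + α 0 - α 2) * X 2 ^ α 2) := by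
    unfold rex ex3
    rw [X_pow_eq_monomial, X_pow_eq_monomial, X_pow_eq_monomial, monomial_mul, monomial_mul,
      C_mul_monomial, mul_one, mul_one, mul_one]
  rw [e1]
  obtain ⟨a, ha⟩ : ∃ a, L = α 0 + 1 + a := ⟨L - 1 - α 0, by omega⟩
  obtain ⟨b, hb⟩ : ∃ b, R = α 2 + b := ⟨R - α 2, by omega⟩
  have e2 : L - 1 - α 0 = a := by omega
  have e3 : R + α 0 - α 2 = b + α 0 := by omega
  have e4 : L - 1 = α 0 + a := by omega
  have e5 : α 1 = a + b := by omega
  rw [e2, e3, e4, e5, hb]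
  ring

theorem rev_eq_zero {R L : ℕ} (hL : 1 ≤ L) {F : R3} (hF : F.IsHomogeneous (R + L - 1))
    (hT : ∀ α ∈ F.support, α ∈ rect (R + 1) L) (h : rev R L F = 0) : F = 0 := by
  classical
  by_contra hne
  obtain ⟨α, hα⟩ := support_nonempty.mpr hne
  have h1 : coeff (rex R L α) (rev R L F) = coeff α F := by
    unfold rev
    rw [coeff_sum, Finset.sum_eq_single α]
    · rw [coeff_monomial, if_pos rfl]
    · intro β hβ hne'
      rw [coeff_monomial, if_neg]
      intro h2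
      apply hne'
      have h3 := DFunLike.congr_fun h2 0
      have h4 := DFunLike.congr_fun h2 2
      unfold rex at h3 h4
      rw [ex3_zero, ex3_zero] at h3
      rw [ex3_two, ex3_two] at h4
      have h5 : β 0 < L := (hT β hβ).2
      have h6 : α 0 < L := (hT α hα).2
      have h7 := deg_eq hF hα
      have h8 := deg_eq hF hβ
      rw [eq_ex3 β, eq_ex3 α]
      congr 1 <;> omega
    · intro h2
      exact absurd hα h2
  rw [h, coeff_zero] at h1
  exact mem_support_iff.mp hα h1.symm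

theorem kills_rev {R L k N B : ℕ} (hL : 1 ≤ L) (hB : B ≤ L)
    (hK : Kills (R + L - 1) k N
      {α | α ∈ rect (R + 1) L ∧ (α 2 < R ∨ (α 2 = R ∧ B ≤ α 0))}) :
    Kills (R + L - 1) k N
      {α | α ∈ rect (R + 1) L ∧ (α 2 < R ∨ (α 2 = R ∧ α 0 < L - B))} := by
  obtain ⟨p, hp, hK⟩ := hK
  refine ⟨fun i => ![p i 1 * p i 1, p i 0 * p i 1, p i 0 * p i 2], ?_, ?_⟩
  · intro i l
    fin_cases l
    · exact mul_ne_zero (hp i 1) (hp i 1)
    · exact mul_ne_zero (hp i 0) (hp i 1)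
    · exact mul_ne_zero (hp i 0) (hp i 2)
  · intro G hG1 hG2 hG3
    have hT : ∀ α ∈ G.support, α ∈ rect (R + 1) L := fun α hα => (hG2 α hα).1
    refine rev_eq_zero hL hG1 hT (hK _ (rev_isHomogeneous hL hT) (fun β hβ => ?_) (fun i => ?_))
    · obtain ⟨α, hα, rfl⟩ := coeff_rev_ne (mem_support_iff.mp hβ)
      have h1 := hG2 α (mem_support_iff.mpr hα)
      have h2 : α 2 < R + 1 := h1.1.1
      have h3 : α 0 < L := h1.1.2
      have h4 := h1.2
      unfold rex
      refine ⟨⟨?_, ?_⟩, ?_⟩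
      · rw [ex3_two]
        exact h2
      · rw [ex3_zero]
        omega
      · rw [ex3_zero, ex3_two]
        omega
    · have h1 := vanishTo_comp ph (F := G) (u := p i) (m := k) (by
        have e1 : (fun j => eval (p i) (ph j)) =
            ![p i 1 * p i 1, p i 0 * p i 1, p i 0 * p i 2] := by
          funext j
          fin_cases j
          · change eval (p i) (X 1 * X 1) = p i 1 * p i 1
            rw [map_mul, eval_X]
          · change eval (p i) (X 0 * X 1) = p i 0 * p i 1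
            rw [map_mul, eval_X, eval_X]
          · change eval (p i) (X 0 * X 2) = p i 0 * p i 2
            rw [map_mul, eval_X, eval_X]
        rw [e1]
        exact hG3 i)
      rw [aeval_ph hL hG1 hT] at h1
      refine Tr.vanishTo_of_eval_ne h1 ?_
      rw [map_mul, map_pow, map_pow, eval_X, eval_X]
      exact mul_ne_zero (pow_ne_zero _ (hp i 0)) (pow_ne_zero _ (hp i 1))

/-- higher degree -/
theorem kills_shift {H R L k N A : ℕ} (hL : 1 ≤ L) (hRH : R + 1 ≤ H)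
    (hK : Kills (R + L - 1) k N
      {α | α ∈ rect (R + 1) L ∧ (α 2 < R ∨ (α 2 = R ∧ α 0 < A))}) :
    Kills (H + L - 2) k N {α | α ∈ rect H L ∧ (α 2 < R ∨ (α 2 = R ∧ α 0 < A))} := by
  obtain ⟨p, hp, hK⟩ := hK
  refine ⟨p, hp, fun G hG1 hG2 hG3 => ?_⟩
  have e1 : H + L - 2 = (R + L - 1) + (H - R - 1) := by omega
  obtain ⟨G', hG'1, hG'2, hG'3⟩ := exists_div_X1 (F := G) (δ := R + L - 1)
    (u := H - R - 1) (by rw [← e1]; exact hG1) (fun α hα => by
      have h1 := deg_eq hG1 hα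
      have h2 := hG2 α hα
      have h3 : α 0 < L := h2.1.2
      have h4 := h2.2
      omega)
  rw [hG'2, hK G' hG'1 (fun β hβ => ?_) (fun i => ?_), mul_zero]
  · rw [MvPolynomial.mem_support_iff, hG'3] at hβ
    have h1 := hG2 _ (mem_support_iff.mpr hβ)
    have h2 := h1.1.2
    have h3 := h1.2
    rw [(single1_apply _ β).1] at h2
    rw [(single1_apply _ β).1, (single1_apply _ β).2] at h3
    refine ⟨⟨by omega, h2⟩, h3⟩
  · have h1 := hG3 i
    rw [hG'2] at h1
    exact vanishTo_of_X1 (hp i 1) h1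

end VS

theorem rect_strip_gen {H L k N r R B : ℕ} (hR1 : 1 ≤ R) (hRH : R + 1 ≤ H) (hL : 2 ≤ L)
    (hB : B ≤ L) (h1 : hR (R + 1) L k N ≤ B) (h0 : hR R L k N = 0) :
    hR H L k (r + N) ≤ max (hR (H - R) L k r - (L - B)) (hR (H - R - 1) L k r) := by
  have hL1 : 1 ≤ L := by omega
  have hK := VS.kills_shift hL1 hRH (VS.kills_rev hL1 hB (VS.kills_top hR1 hL1 h1 h0))
  have e1 : H + L - 3 - R + 1 + R = H + L - 2 := by omega
  have e2 : H + L - 3 - R + 1 = H - R + L - 2 := by omega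
  have e3 : H + L - 3 - R = H - R - 1 + L - 2 := by omega
  rw [← e1] at hK
  have h2 := peel (r := r) hR1 (A := L - B) (by omega) (T := rect H L)
    (fun α' β' h3 h4 h5 _ => ⟨by rw [h4]; exact h3.1, lt_of_le_of_lt h5 h3.2⟩) hK
  have e4 : {γ : Fin 3 →₀ ℕ | γ + Finsupp.single 2 R ∈ rect H L} = rect (H - R) L := by
    ext γ
    constructor
    · rintro ⟨h3, h4⟩
      rw [Finsupp.add_apply, Finsupp.single_eq_same] at h3
      rw [Finsupp.add_apply, Finsupp.single_eq_of_ne (by decide), add_zero] at h4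
      exact ⟨by omega, h4⟩
    · rintro ⟨h3, h4⟩
      refine ⟨?_, ?_⟩
      · rw [Finsupp.add_apply, Finsupp.single_eq_same]
        omega
      · rw [Finsupp.add_apply, Finsupp.single_eq_of_ne (by decide), add_zero]
        exact h4
  have e5 : {γ : Fin 3 →₀ ℕ | γ + Finsupp.single 2 (R + 1) ∈ rect H L} = rect (H - R - 1) L := by
    ext γ
    constructor
    · rintro ⟨h3, h4⟩
      rw [Finsupp.add_apply, Finsupp.single_eq_same] at h3
      rw [Finsupp.add_apply, Finsupp.single_eq_of_ne (by decide), add_zero] at h4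
      exact ⟨by omega, h4⟩
    · rintro ⟨h3, h4⟩
      refine ⟨?_, ?_⟩
      · rw [Finsupp.add_apply, Finsupp.single_eq_same]
        omega
      · rw [Finsupp.add_apply, Finsupp.single_eq_of_ne (by decide), add_zero]
        exact h4
  rw [e1, e2, e3, e4, e5] at h2
  exact h2

end Pool.Agent.Work.MP_0421d9_ag.LD
end

section
/-!
Elementary transformations for arbitrary multiplicities (helper7, after UTrans): systems of forms
of bounded degree in one variable with `2 t + 1` points of multiplicities `u i` are transformed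
into systems on `P¹ × P¹` with points of multiplicities `κ - u i`.
-/

namespace Pool.Agent.Work.MP_0421d9_ag.LD

open MvPolynomial Module

namespace Tr

section

variable {t N : ℕ} {x c : Fin N → ℂ} (e : ET t x c)

theorem isRelPrime_lv' {a b : ℂ} (h : a ≠ b) (m n : ℕ) :
    IsRelPrime (lin (lv a) ^ m) (lin (lv b) ^ n) := by
  have h1 : IsRelPrime (lin (lv a)) (lin (lv b)) := by
    rw [(lin_prime (lv_ne_zero a)).irreducible.isRelPrime_iff_not_dvd]
    exact lin_lv_not_dvd h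
  exact h1.pow

/-- the product of the fibres with multiplicities -/
noncomputable def Prm (x : Fin N → ℂ) (u : Fin N → ℕ) : R3 := ∏ i, lin (lv (x i)) ^ u i

theorem Prm_isHomogeneous (u : Fin N → ℕ) : (Prm x u).IsHomogeneous (∑ i, u i) := by
  unfold Prm
  have h1 := IsHomogeneous.prod Finset.univ (fun i => lin (lv (x i)) ^ u i) (fun i => 1 * u i)
    (fun i _ => (lin_isHomogeneous (lv (x i))).pow (u i))
  simpa only [one_mul] using h1

theorem Prm_ne_zero (u : Fin N → ℕ) : Prm x u ≠ 0 :=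
  Finset.prod_ne_zero_iff.mpr fun i _ => pow_ne_zero _ (lin_prime (lv_ne_zero _)).ne_zero

theorem degreeOf_Prm (u : Fin N → ℕ) : degreeOf 2 (Prm x u) = ∑ i, u i := by
  unfold Prm
  rw [degreeOf_prod_eq _ _ (fun i _ => pow_ne_zero _ (lin_prime (lv_ne_zero _)).ne_zero)]
  refine Finset.sum_congr rfl (fun i _ => ?_)
  rw [degreeOf_pow_eq _ _ _ (lin_prime (lv_ne_zero _)).ne_zero, degreeOf_lv, mul_one]

theorem Prm_dvd {κ D : ℕ} {u : Fin N → ℕ} (hx : Function.Injective x) (hD : κ ≤ D) {F : R3}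
    (hF : F.IsHomogeneous D) (h0 : ∀ α, coeff α F ≠ 0 → α 0 ≤ κ)
    (hv : ∀ i, VanishTo F (pp e i) (u i)) : Prm x u ∣ psi e κ F := by
  unfold Prm
  refine Fintype.prod_dvd_of_isRelPrime ?_ (fun i => lv_pow_dvd e hD hF h0 (hv i))
  intro i j hij
  exact isRelPrime_lv' (fun h => hij (hx h)) _ _

/-- the quotient -/
theorem exists_quot_m {κ D H : ℕ} {u : Fin N → ℕ} (hx : Function.Injective x)
    (hu : ∀ i, u i ≤ κ) (hD : κ ≤ D)
    (hH : H + ∑ i, u i = D + κ * t + 1) {q : Fin N → V3} (hq1 : ∀ i, q i 1 ≠ 0)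
    (hqx : ∀ i, q i 2 = x i * q i 1) (hqc : ∀ i, c i * q i 1 = q i 0)
    {F : R3} (hF : F.IsHomogeneous D) (h0 : ∀ α, coeff α F ≠ 0 → α 0 ≤ κ)
    (hv : ∀ i, VanishTo F (pp e i) (u i)) :
    ∃ G ∈ TSm (H + (κ + 1) - 2) (rect H (κ + 1)) (fun i => κ - u i) q,
      psi e κ F = Prm x u * G := by
  by_cases hpsi : psi e κ F = 0
  · exact ⟨0, Submodule.zero_mem _, by rw [hpsi, mul_zero]⟩
  obtain ⟨G₀, hG₀⟩ := Prm_dvd e hx hD hF h0 hv
  have hhom := psi_isHomogeneous e hF h0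
  -- the degree
  have hdeg : ∑ i, u i ≤ D + κ * (t + 1) := by
    by_contra hcon
    apply hpsi
    rw [← homogeneousComponent_eq_self hhom, hG₀]
    exact homogeneousComponent_mul_lt (Prm_isHomogeneous u) (by omega) G₀
  set d := D + κ * (t + 1) - ∑ i, u i with hd
  set G := homogeneousComponent d G₀ with hG
  have hPG : psi e κ F = Prm x u * G := by
    rw [hG, ← homogeneousComponent_mul (Prm_isHomogeneous u), ← hG₀]
    have e1 : ∑ i, u i + d = D + κ * (t + 1) := by omega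
    rw [e1, homogeneousComponent_eq_self hhom]
  have hG0 : G ≠ 0 := by
    intro h
    exact hpsi (by rw [hPG, h, mul_zero])
  have hGhom : G.IsHomogeneous d := homogeneousComponent_isHomogeneous d G₀
  have hdeg0 : degreeOf 0 G ≤ κ := by
    have h1 : degreeOf 0 (psi e κ F) ≤ κ :=
      degreeOf_psi e (fun α hα => degreeOf_pm_zero e (h0 α (mem_support_iff.mp hα)))
    rw [hPG, degreeOf_mul_eq (Prm_ne_zero u) hG0] at h1
    omega
  have hdeg2 : degreeOf 2 G + ∑ i, u i ≤ D + κ * t := by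
    have h1 : degreeOf 2 (psi e κ F) ≤ D + κ * t :=
      degreeOf_psi e (fun α hα => degreeOf_pm_two e (h0 α (mem_support_iff.mp hα))
        (deg_eq hF hα))
    rw [hPG, degreeOf_mul_eq (Prm_ne_zero u) hG0, degreeOf_Prm] at h1
    omega
  refine ⟨G, ?_, hPG⟩
  rw [mem_TSm]
  refine ⟨?_, fun i => ?_, fun α hα => ?_⟩
  · have e1 : H + (κ + 1) - 2 = d := by
      rw [hd]
      have e2 : κ * (t + 1) = κ * t + κ := by ring
      omega
    rw [e1]
    exact hGhom
  · have h1 := vanishTo_psi e h0 (hqx i) (hqc i)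
    rw [hPG] at h1
    have h2 : Prm x u = lin (lv (x i)) ^ u i *
        ∏ j ∈ Finset.univ.erase i, lin (lv (x j)) ^ u j := by
      exact (Finset.mul_prod_erase Finset.univ (fun j => lin (lv (x j)) ^ u j)
        (Finset.mem_univ i)).symm
    rw [h2, mul_assoc] at h1
    have h3 := vanishTo_of_pow_mul (lv_ne_zero _) (by rw [eval_lv, hqx i, sub_self]) h1
    refine vanishTo_of_eval_ne h3 ?_
    rw [map_prod]
    refine Finset.prod_ne_zero_iff.mpr (fun j hj => ?_)
    rw [map_pow, eval_lv, hqx i, ← sub_mul]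
    refine pow_ne_zero _ (mul_ne_zero (sub_ne_zero.mpr fun h => ?_) (hq1 i))
    exact (Finset.ne_of_mem_erase hj) (hx h).symm
  · have h1 := monomial_le_degreeOf 0 (mem_support_iff.mpr hα)
    have h2 := monomial_le_degreeOf 2 (mem_support_iff.mpr hα)
    constructor
    · omega
    · omega

end

end Tr

theorem hFm_swap {N : ℕ} (D κ : ℕ) (u : Fin N → ℕ) : hFm D κ u = hTm D {α | α 0 ≤ κ} u := by
  unfold hFm
  rw [← hTm_perm (Equiv.swap 0 2) (T := {α | α 0 ≤ κ})]
  congr 1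
  ext α
  have h1 : (α.mapDomain (Equiv.swap (0 : Fin 3) 2)) 0 = α 2 := by
    have h2 := Finsupp.mapDomain_apply (Equiv.swap (0 : Fin 3) 2).injective α 2
    rwa [Equiv.swap_apply_right] at h2
  change α 2 ≤ κ ↔ (α.mapDomain (Equiv.swap (0 : Fin 3) 2)) 0 ≤ κ
  rw [h1]

theorem transform_m {D κ t H : ℕ} {u : Fin (2 * t + 1) → ℕ} (ht : 1 ≤ t) (hu : ∀ i, u i ≤ κ)
    (hD : κ ≤ D) (hH : H + ∑ i, u i = D + κ * t + 1) :
    hFm D κ u ≤ hRm H (κ + 1) (fun i => κ - u i) := by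
  classical
  set q := gpt (2 * t + 1) with hq
  have hgen := gpt_generic (2 * t + 1)
  rw [← hq] at hgen
  obtain ⟨e⟩ := exists_ET ht hgen
  have hx := Tr.gen_injective hgen
  rw [hFm_swap]
  refine (hTm_le (Tr.pp e)).trans ?_
  unfold hRm hTm
  rw [← hq]
  set V := TSm D {α : Fin 3 →₀ ℕ | α 0 ≤ κ} u (Tr.pp e) with hV
  set W := TSm (H + (κ + 1) - 2) (rect H (κ + 1)) (fun i => κ - u i) q with hW
  have hmem : ∀ F ∈ V, F.IsHomogeneous D ∧ (∀ i, VanishTo F (Tr.pp e i) (u i)) ∧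
      ∀ α, coeff α F ≠ 0 → α 0 ≤ κ := by
    intro F hF
    rw [hV, mem_TSm] at hF
    exact hF
  have h1 : V.map (Tr.psi e κ) ≤
      W.map (LinearMap.mulLeft ℂ (Tr.Prm (fun i => q i 2 / q i 1) u)) := by
    rintro _ ⟨F, hF, rfl⟩
    obtain ⟨h2, h3, h4⟩ := hmem F hF
    obtain ⟨G, hG, hFG⟩ := Tr.exists_quot_m e hx hu hD hH (q := q)
      (fun i => Tr.gen_ne hgen i 1)
      (fun i => by rw [div_mul_cancel₀ _ (Tr.gen_ne hgen i 1)])
      (fun i => by rw [div_mul_cancel₀ _ (Tr.gen_ne hgen i 1)]) h2 h4 h3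
    exact ⟨G, hG, by rw [LinearMap.mulLeft_apply, ← hFG]⟩
  have h2 : finrank ℂ V = finrank ℂ ↥(V.map (Tr.psi e κ)) := by
    have h3 : Function.Injective ((Tr.psi e κ) ∘ₗ V.subtype) := by
      rw [← LinearMap.ker_eq_bot, Submodule.eq_bot_iff]
      intro F hF
      rw [LinearMap.mem_ker, LinearMap.comp_apply] at hF
      apply Subtype.ext
      obtain ⟨h4, h5, h6⟩ := hmem F.1 F.2
      refine Tr.eq_zero_of_aeval_th e h4 ⟨0, by omega⟩ ?_
      rw [Tr.aeval_th e hD h4 h6]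
      change Tr.psi e κ F.1 = 0 at hF
      rw [hF, mul_zero]
    have h4 := LinearMap.finrank_range_of_inj h3
    rw [LinearMap.range_comp, Submodule.range_subtype] at h4
    exact h4.symm
  rw [h2]
  exact (Submodule.finrank_mono h1).trans (Submodule.finrank_map_le _ _)

end Pool.Agent.Work.MP_0421d9_ag.LD
end

section
/-!
The matrix of the elementary transformations at `2 t + e` generic points, `e ≤ 1` (helper25).
-/

namespace Pool.Agent.Work.MP_0421d9_ag.LD

open MvPolynomial Module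

/-- the coefficients of the transformation at `2 t + e` points -/
structure EU {N : ℕ} (t e : ℕ) (x c : Fin N → ℂ) where
  (A B C' E : Polynomial ℂ)
  (dA : A.natDegree ≤ t)
  (dC : C'.natDegree ≤ t)
  (dB : B.natDegree ≤ t + e)
  (dE : E.natDegree ≤ t + e)
  (hA : ∀ i, A.eval (x i) * c i + B.eval (x i) = 0)
  (hC : ∀ i, C'.eval (x i) * c i + E.eval (x i) = 0)
  (hC0 : ∀ i, C'.eval (x i) ≠ 0)
  (hdet : A * E - B * C' ≠ 0)

namespace Mv

theorem eval_degreeLT {n : ℕ} {P : Polynomial ℂ} (hP : P ∈ Polynomial.degreeLT ℂ n) (z : ℂ) :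
    P.eval z = ∑ j ∈ Finset.range n, P.coeff j * z ^ j := by
  have h1 := Polynomial.mem_degreeLT.mp hP
  have h2 : P.natDegree < n + 1 :=
    Nat.lt_succ_of_le (Polynomial.natDegree_le_of_degree_le h1.le)
  rw [Polynomial.eval_eq_sum_range' h2, Finset.sum_range_succ,
    Polynomial.coeff_eq_zero_of_degree_lt h1, zero_mul, add_zero]

theorem coeff_degreeLT {n : ℕ} {P : Polynomial ℂ} (hP : P ∈ Polynomial.degreeLT ℂ n) {j : ℕ}
    (hj : n ≤ j) : P.coeff j = 0 :=
  Polynomial.coeff_eq_zero_of_degree_lt (lt_of_lt_of_le (Polynomial.mem_degreeLT.mp hP)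
    (by exact_mod_cast hj))

/-- the universal matrix -/
noncomputable def UM {N : ℕ} (a b : ℕ) (σ : Fin (b + a) → Fin N) :
    Matrix (Fin (b + a)) (Fin (b + a)) (MvPolynomial (Fin N × Fin 3) ℚ) :=
  fun i j => if (j : ℕ) < b then X (σ i, 2) ^ (j : ℕ) * X (σ i, 1) ^ (b + a - j) else
    X (σ i, 0) * (X (σ i, 2) ^ ((j : ℕ) - b) * X (σ i, 1) ^ (b + a - 1 - ((j : ℕ) - b)))

theorem UM_det_ne {N a b : ℕ} {σ : Fin (b + a) → Fin N} (hσ : Function.Injective σ) :
    (UM a b σ).det ≠ 0 := by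
  intro h
  let v : Fin N × Fin 3 → ℚ := fun z => ![((z.1 : ℕ) : ℚ) ^ b, 1, ((z.1 : ℕ) : ℚ)] z.2
  have h1 := congrArg (eval v) h
  rw [RingHom.map_det, map_zero] at h1
  have h2 : (eval v).mapMatrix (UM a b σ) =
      Matrix.vandermonde (fun i : Fin (b + a) => ((σ i : ℕ) : ℚ)) := by
    ext i j
    rw [RingHom.mapMatrix_apply, Matrix.map_apply, Matrix.vandermonde_apply]
    unfold UM
    split_ifs with hj
    · rw [map_mul, map_pow, map_pow, eval_X, eval_X]
      simp [v]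
    · rw [map_mul, map_mul, map_pow, map_pow, eval_X, eval_X, eval_X]
      simp only [v, Matrix.cons_val_zero, Matrix.cons_val_one, Matrix.cons_val, one_pow, mul_one]
      rw [← pow_add]
      congr 1
      omega
  rw [h2] at h1
  refine Matrix.det_vandermonde_ne_zero_iff.mpr ?_ h1
  intro i j hij
  apply hσ
  apply Fin.ext
  have h3 : ((σ i : ℕ) : ℚ) = ((σ j : ℕ) : ℚ) := hij
  exact_mod_cast h3

/-- no solutions of small degree -/
theorem small {N a b : ℕ} {q : Fin N → V3} (hq : GenericPoints q)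
    {σ : Fin (b + a) → Fin N} (hσ : Function.Injective σ) {P Q : Polynomial ℂ}
    (hP : P ∈ Polynomial.degreeLT ℂ a) (hQ : Q ∈ Polynomial.degreeLT ℂ b)
    (h : ∀ i, P.eval (q (σ i) 2 / q (σ i) 1) * (q (σ i) 0 / q (σ i) 1) +
      Q.eval (q (σ i) 2 / q (σ i) 1) = 0) : P = 0 ∧ Q = 0 := by
  let f : MvPolynomial (Fin N × Fin 3) ℚ →ₐ[ℚ] ℂ := aeval (fun z => q z.1 z.2)
  have hdet : (f.toRingHom.mapMatrix (UM a b σ)).det ≠ 0 := by
    rw [← RingHom.map_det]
    intro h0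
    exact UM_det_ne hσ ((algebraicIndependent_iff.mp hq) _ h0)
  let v : Fin (b + a) → ℂ := fun j => if (j : ℕ) < b then Q.coeff j else P.coeff ((j : ℕ) - b)
  have hv : (f.toRingHom.mapMatrix (UM a b σ)).mulVec v = 0 := by
    funext i
    have hq1 := Mx.gen_ne hq (σ i) 1
    have h1 := h i
    rw [eval_degreeLT hP, eval_degreeLT hQ] at h1
    have h4 : (f.toRingHom.mapMatrix (UM a b σ)).mulVec v i =
        ∑ j ∈ Finset.range (b + a), (if j < b then
          q (σ i) 2 ^ j * q (σ i) 1 ^ (b + a - j) * Q.coeff j else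
          (q (σ i) 0 * (q (σ i) 2 ^ (j - b) * q (σ i) 1 ^ (b + a - 1 - (j - b)))) *
            P.coeff (j - b)) := by
      rw [Matrix.mulVec, dotProduct, Finset.sum_range]
      refine Finset.sum_congr rfl (fun j _ => ?_)
      rw [RingHom.mapMatrix_apply, Matrix.map_apply]
      unfold UM
      simp only [v]
      split_ifs with hj
      · congr 1
        change f _ = _
        simp only [f, map_mul, map_pow, aeval_X]
      · congr 1
        change f _ = _
        simp only [f, map_mul, map_pow, aeval_X]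
    rw [h4, Pi.zero_apply, Finset.sum_range_add]
    have h5 : ∑ j ∈ Finset.range b, (if j < b then
          q (σ i) 2 ^ j * q (σ i) 1 ^ (b + a - j) * Q.coeff j else
          (q (σ i) 0 * (q (σ i) 2 ^ (j - b) * q (σ i) 1 ^ (b + a - 1 - (j - b)))) *
            P.coeff (j - b)) =
        q (σ i) 1 ^ (b + a) * ∑ j ∈ Finset.range b, Q.coeff j * (q (σ i) 2 / q (σ i) 1) ^ j := by
      rw [Finset.mul_sum]
      refine Finset.sum_congr rfl (fun j hj => ?_)
      rw [Finset.mem_range] at hj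
      rw [if_pos hj]
      have e : q (σ i) 1 ^ (b + a) = q (σ i) 1 ^ (b + a - j) * q (σ i) 1 ^ j := by
        rw [← pow_add]; congr 1; omega
      rw [e, div_pow]
      field_simp
    have h6 : ∑ j ∈ Finset.range a, (if b + j < b then
          q (σ i) 2 ^ (b + j) * q (σ i) 1 ^ (b + a - (b + j)) * Q.coeff (b + j) else
          (q (σ i) 0 * (q (σ i) 2 ^ (b + j - b) * q (σ i) 1 ^ (b + a - 1 - (b + j - b)))) *
            P.coeff (b + j - b)) =
        q (σ i) 1 ^ (b + a) * ((∑ j ∈ Finset.range a, P.coeff j *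
          (q (σ i) 2 / q (σ i) 1) ^ j) * (q (σ i) 0 / q (σ i) 1)) := by
      rw [Finset.sum_mul, Finset.mul_sum]
      refine Finset.sum_congr rfl (fun j hj => ?_)
      rw [Finset.mem_range] at hj
      rw [if_neg (by omega), Nat.add_sub_cancel_left]
      have e : q (σ i) 1 ^ (b + a) =
          q (σ i) 1 ^ (b + a - 1 - j) * (q (σ i) 1 ^ j * q (σ i) 1) := by
        rw [← pow_succ, ← pow_add]; congr 1; omega
      rw [e, div_pow]
      field_simp
    rw [h5, h6]
    linear_combination (q (σ i) 1 ^ (b + a)) * h1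
  have hv0 : v = 0 := by
    by_contra hne
    exact hdet (Matrix.exists_mulVec_eq_zero_iff.mp ⟨v, hne, hv⟩)
  constructor
  · ext n
    rw [Polynomial.coeff_zero]
    rcases Nat.lt_or_ge n a with hn | hn
    · have h1 := congrFun hv0 ⟨b + n, by omega⟩
      simp only [v, Pi.zero_apply] at h1
      rwa [if_neg (by omega), Nat.add_sub_cancel_left] at h1
    · exact coeff_degreeLT hP hn
  · ext n
    rw [Polynomial.coeff_zero]
    rcases Nat.lt_or_ge n b with hn | hn
    · have h1 := congrFun hv0 ⟨n, by omega⟩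
      simp only [v, Pi.zero_apply] at h1
      rwa [if_pos hn] at h1
    · exact coeff_degreeLT hQ hn

/-- all the points -/
theorem small_all {N a b : ℕ} (hN : b + a = N) {q : Fin N → V3} (hq : GenericPoints q)
    {P Q : Polynomial ℂ}
    (hP : P ∈ Polynomial.degreeLT ℂ a) (hQ : Q ∈ Polynomial.degreeLT ℂ b)
    (h : ∀ i, P.eval (q i 2 / q i 1) * (q i 0 / q i 1) + Q.eval (q i 2 / q i 1) = 0) :
    P = 0 ∧ Q = 0 :=
  small hq (σ := fun j => Fin.cast hN j) (Fin.cast_injective hN) hP hQ (fun i => h _)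

/-- all the points but one -/
theorem small_one {N a b : ℕ} (hN : b + a + 1 = N) {q : Fin N → V3} (hq : GenericPoints q)
    (i₀ : Fin N) {P Q : Polynomial ℂ}
    (hP : P ∈ Polynomial.degreeLT ℂ a) (hQ : Q ∈ Polynomial.degreeLT ℂ b)
    (h : ∀ i, i ≠ i₀ → P.eval (q i 2 / q i 1) * (q i 0 / q i 1) + Q.eval (q i 2 / q i 1) = 0) :
    P = 0 ∧ Q = 0 := by
  subst hN
  exact small hq (σ := fun j => i₀.succAbove j) (Fin.succAbove_right_injective) hP hQ
    (fun i => h _ (Fin.succAbove_ne i₀ i))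

/-- the solutions of the conditions -/
noncomputable def Sol {N : ℕ} (x c : Fin N → ℂ) (a b : ℕ) :
    (Polynomial.degreeLT ℂ a × Polynomial.degreeLT ℂ b) →ₗ[ℂ] (Fin N → ℂ) :=
  LinearMap.pi (fun i => c i • ((Polynomial.leval (x i)) ∘ₗ (Polynomial.degreeLT ℂ a).subtype ∘ₗ
    LinearMap.fst ℂ _ _) + ((Polynomial.leval (x i)) ∘ₗ
      (Polynomial.degreeLT ℂ b).subtype ∘ₗ LinearMap.snd ℂ _ _))

theorem Sol_apply {N : ℕ} (x c : Fin N → ℂ) (a b : ℕ)
    (f : Polynomial.degreeLT ℂ a × Polynomial.degreeLT ℂ b) (i : Fin N) :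
    Sol x c a b f i = c i * (f.1 : Polynomial ℂ).eval (x i) + (f.2 : Polynomial ℂ).eval (x i) :=
  rfl

theorem exists_sol {N : ℕ} (x c : Fin N → ℂ) {a b : ℕ} (h : N < a + b) :
    ∃ P Q : Polynomial ℂ, P ∈ Polynomial.degreeLT ℂ a ∧ Q ∈ Polynomial.degreeLT ℂ b ∧
      ¬ (P = 0 ∧ Q = 0) ∧ ∀ i, P.eval (x i) * c i + Q.eval (x i) = 0 := by
  have h1 : LinearMap.ker (Sol x c a b) ≠ ⊥ := by
    apply LinearMap.ker_ne_bot_of_finrank_lt
    rw [finrank_prod, (Polynomial.degreeLTEquiv ℂ a).finrank_eq,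
      (Polynomial.degreeLTEquiv ℂ b).finrank_eq, finrank_fin_fun, finrank_fin_fun,
      finrank_fin_fun]
    omega
  obtain ⟨⟨⟨P, hP⟩, ⟨Q, hQ⟩⟩, hf, hf0⟩ := Submodule.exists_mem_ne_zero_of_ne_bot h1
  refine ⟨P, Q, hP, hQ, ?_, fun i => ?_⟩
  · rintro ⟨rfl, rfl⟩
    exact hf0 rfl
  · have h2 := congrFun (LinearMap.mem_ker.mp hf) i
    rw [Sol_apply, Pi.zero_apply] at h2
    rw [mul_comm]
    exact h2

theorem natDegree_le_of_mem {n m : ℕ} {f : Polynomial ℂ} (h : f ∈ Polynomial.degreeLT ℂ n)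
    (hn : n ≤ m + 1) : f.natDegree ≤ m := by
  rw [Polynomial.mem_degreeLT] at h
  rw [Polynomial.natDegree_le_iff_degree_le]
  have h2 : f.degree < ((m + 1 : ℕ) : WithBot ℕ) := lt_of_lt_of_le h (by exact_mod_cast hn)
  exact Order.le_of_lt_succ (by exact_mod_cast h2)

theorem mem_of_coeff {n : ℕ} {f : Polynomial ℂ} (h : f ∈ Polynomial.degreeLT ℂ (n + 1))
    (h0 : f.coeff n = 0) : f ∈ Polynomial.degreeLT ℂ n := by
  rw [Polynomial.mem_degreeLT, Polynomial.degree_lt_iff_coeff_zero]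
  intro m hm
  rcases Nat.lt_or_ge n m with h1 | h1
  · exact coeff_degreeLT h h1
  · obtain rfl : n = m := le_antisymm hm h1
    exact h0

end Mv

theorem exists_EU {t e : ℕ} (ht : 1 ≤ t) (he : e ≤ 1) {q : Fin (2 * t + e) → V3}
    (hq : GenericPoints q) :
    Nonempty (EU t e (fun i => q i 2 / q i 1) (fun i => q i 0 / q i 1)) := by
  classical
  set x : Fin (2 * t + e) → ℂ := fun i => q i 2 / q i 1 with hx
  set c : Fin (2 * t + e) → ℂ := fun i => q i 0 / q i 1 with hc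
  have hinj : Function.Injective x := Mx.gen_injective hq
  obtain ⟨A, B, hA, hB, hAB, h1⟩ := Mv.exists_sol x c (a := t) (b := t + e + 1) (by omega)
  obtain ⟨C', E, hC, hE, hCE, h2⟩ := Mv.exists_sol x c (a := t + 1) (b := t + e) (by omega)
  have hBlead : B.coeff (t + e) ≠ 0 := by
    intro h0
    exact hAB (Mv.small_all (by omega) hq hA (Mv.mem_of_coeff hB h0) h1)
  have hClead : C'.coeff t ≠ 0 := by
    intro h0
    exact hCE (Mv.small_all (by omega) hq (Mv.mem_of_coeff hC h0) hE h2)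
  refine ⟨⟨A, B, C', E, Mv.natDegree_le_of_mem hA (by omega), Mv.natDegree_le_of_mem hC (by omega),
    Mv.natDegree_le_of_mem hB (by omega), Mv.natDegree_le_of_mem hE (by omega), h1, h2, ?_, ?_⟩⟩
  · intro i h0
    have h3 : E.eval (x i) = 0 := by
      have h4 := h2 i
      rwa [h0, zero_mul, zero_add] at h4
    obtain ⟨C₁, hC₁⟩ := Polynomial.dvd_iff_isRoot.mpr h0
    obtain ⟨E₁, hE₁⟩ := Polynomial.dvd_iff_isRoot.mpr h3
    have hmem : ∀ (n : ℕ) (P P' : Polynomial ℂ), P ∈ Polynomial.degreeLT ℂ (n + 1) →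
        P = (Polynomial.X - Polynomial.C (x i)) * P' → P' ∈ Polynomial.degreeLT ℂ n := by
      intro n P P' hP hPP
      by_cases h0 : P' = 0
      · rw [h0]; exact Submodule.zero_mem _
      · apply Mx.mem_of_natDegree_lt
        have h3 := Mv.natDegree_le_of_mem hP (le_refl _)
        rw [hPP, Polynomial.natDegree_mul (Polynomial.X_sub_C_ne_zero _) h0,
          Polynomial.natDegree_X_sub_C] at h3
        omega
    have hE' : E ∈ Polynomial.degreeLT ℂ ((t + e - 1) + 1) := by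
      rw [Nat.sub_add_cancel (by omega)]
      exact hE
    obtain ⟨h5, h6⟩ := Mv.small_one (a := t) (b := t + e - 1) (by omega) hq i
      (hmem t C' C₁ hC hC₁) (hmem _ E E₁ hE' hE₁) (fun j hj => by
        have h7 := h2 j
        rw [hC₁, hE₁, Polynomial.eval_mul, Polynomial.eval_mul, Polynomial.eval_sub,
          Polynomial.eval_X, Polynomial.eval_C] at h7
        have h8 : x j - x i ≠ 0 := sub_ne_zero.mpr (fun h => hj (hinj h))
        apply mul_left_cancel₀ h8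
        rw [mul_zero, ← h7]
        ring)
    apply hCE
    rw [hC₁, hE₁, h5, h6, mul_zero]
    exact ⟨rfl, rfl⟩
  · intro hdet
    have h3 : (A * E - B * C').coeff ((t + e) + t) = 0 := by rw [hdet, Polynomial.coeff_zero]
    rw [Polynomial.coeff_sub] at h3
    have h4 : (A * E).coeff ((t + e) + t) = 0 := by
      apply Polynomial.coeff_eq_zero_of_natDegree_lt
      refine lt_of_le_of_lt Polynomial.natDegree_mul_le ?_
      have h5 : A.natDegree ≤ t - 1 := Mv.natDegree_le_of_mem hA (by omega)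
      have h6 : E.natDegree ≤ t + e - 1 := Mv.natDegree_le_of_mem hE (by omega)
      omega
    have h5 : (B * C').coeff ((t + e) + t) = B.coeff (t + e) * C'.coeff t :=
      Polynomial.coeff_mul_add_eq_of_natDegree_le (Mv.natDegree_le_of_mem hB (by omega))
        (Mv.natDegree_le_of_mem hC (by omega))
    rw [h4, h5, zero_sub, neg_eq_zero] at h3
    exact mul_ne_zero hBlead hClead h3

end Pool.Agent.Work.MP_0421d9_ag.LD
end

section
/-!
Elementary transformations of rectangles: systems on `P¹ × P¹` with `2 t + e` points, `e ≤ 1`, are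
transformed into systems with points of smaller multiplicity (helper25, after UTrans of helper79).
-/

namespace Pool.Agent.Work.MP_0421d9_ag.LD

open MvPolynomial Module

namespace Tv

section

variable {t e N : ℕ} {x c : Fin N → ℂ} (u : EU t e x c)

/-- first coordinate -/
noncomputable def Y0 : R3 := bin t u.C' * X 0 + bin (t + e) u.E * X 1 ^ (1 - e)

/-- second coordinate -/
noncomputable def Y1 : R3 := bin t u.A * X 0 + bin (t + e) u.B * X 1 ^ (1 - e)

/-- the substitution -/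
noncomputable def th : Fin 3 → R3 := ![X 1 * Y1 u, X 1 * Y0 u, X 2 * Y0 u]

theorem th_zero : th u 0 = X 1 * Y1 u := rfl
theorem th_one : th u 1 = X 1 * Y0 u := rfl
theorem th_two : th u 2 = X 2 * Y0 u := rfl

theorem Y_isHomogeneous (he : e ≤ 1) (f g : Polynomial ℂ) :
    (bin t f * X 0 + bin (t + e) g * X 1 ^ (1 - e)).IsHomogeneous (t + 1) := by
  have h1 := (Tr.bin_isHomogeneous t f).mul (isHomogeneous_X ℂ (0 : Fin 3))
  have h2 := (Tr.bin_isHomogeneous (t + e) g).mul ((isHomogeneous_X ℂ (1 : Fin 3)).pow (1 - e))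
  have e1 : t + e + 1 * (1 - e) = t + 1 := by omega
  rw [e1] at h2
  exact h1.add h2

theorem Y0_isHomogeneous (he : e ≤ 1) : (Y0 u).IsHomogeneous (t + 1) := Y_isHomogeneous he _ _

theorem Y1_isHomogeneous (he : e ≤ 1) : (Y1 u).IsHomogeneous (t + 1) := Y_isHomogeneous he _ _

theorem degreeOf_zero_Y (f g : Polynomial ℂ) :
    degreeOf 0 (bin t f * X 0 + bin (t + e) g * X 1 ^ (1 - e) : R3) ≤ 1 := by
  refine (degreeOf_add_le _ _ _).trans (max_le ?_ ?_)
  · refine (degreeOf_mul_le _ _ _).trans ?_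
    rw [Tr.degreeOf_zero_bin, degreeOf_X_self]
  · refine (degreeOf_mul_le _ _ _).trans ?_
    rw [Tr.degreeOf_zero_bin, degreeOf_X_pow_of_ne _ (by decide)]
    omega

theorem degreeOf_two_Y (f g : Polynomial ℂ) :
    degreeOf 2 (bin t f * X 0 + bin (t + e) g * X 1 ^ (1 - e) : R3) ≤ t + e := by
  refine (degreeOf_add_le _ _ _).trans (max_le ?_ ?_)
  · refine (degreeOf_mul_le _ _ _).trans ?_
    rw [degreeOf_X_of_ne (by decide), add_zero]
    exact (Tr.degreeOf_two_bin _ _).trans (by omega)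
  · refine (degreeOf_mul_le _ _ _).trans ?_
    rw [degreeOf_X_pow_of_ne _ (by decide), add_zero]
    exact Tr.degreeOf_two_bin _ _

/-- image of a monomial -/
noncomputable def pm (κ H : ℕ) (α : Fin 3 →₀ ℕ) : R3 :=
  X 2 ^ α 2 * X 1 ^ (H - 1 - α 2) * Y1 u ^ α 0 * Y0 u ^ (κ - α 0)

/-- the transformation, before division -/
noncomputable def psi (κ H : ℕ) : R3 →ₗ[ℂ] R3 :=
  (basisMonomials (Fin 3) ℂ).constr ℂ (pm u κ H)

theorem psi_monomial (κ H : ℕ) (α : Fin 3 →₀ ℕ) (a : ℂ) :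
    psi u κ H (monomial α a) = C a * pm u κ H α := by
  have h1 : (monomial α a : R3) = a • basisMonomials (Fin 3) ℂ α := by
    rw [coe_basisMonomials, smul_monomial, smul_eq_mul, mul_one]
  rw [h1, map_smul, smul_eq_C_mul]
  unfold psi
  rw [Basis.constr_basis]

theorem psi_eq (κ H : ℕ) (F : R3) :
    psi u κ H F = ∑ α ∈ F.support, C (coeff α F) * pm u κ H α := by
  conv_lhs => rw [← support_sum_monomial_coeff F]
  rw [map_sum]
  exact Finset.sum_congr rfl (fun α _ => psi_monomial u κ H α _)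

theorem aeval_th_monomial {κ H : ℕ} {α : Fin 3 →₀ ℕ} (h0 : α 0 ≤ κ) (h2 : α 2 + 1 ≤ H)
    (hα : α 0 + α 1 + α 2 = H - 1 + κ) (a : ℂ) :
    aeval (th u) (monomial α a) = (Y0 u ^ (H - 1) * X 1 ^ κ) * (C a * pm u κ H α) := by
  rw [aeval_monomial, Finsupp.prod_fintype _ _ (fun i => pow_zero _), Fin.prod_univ_three,
    th_zero, th_one, th_two, algebraMap_eq]
  unfold pm
  have e1 : Y0 u ^ (H - 1) * Y0 u ^ (κ - α 0) = Y0 u ^ (α 1 + α 2) := by
    rw [← pow_add]
    congr 1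
    omega
  have e2 : (X 1 : R3) ^ κ * X 1 ^ (H - 1 - α 2) = X 1 ^ (α 0 + α 1) := by
    rw [← pow_add]
    congr 1
    omega
  calc C a * ((X 1 * Y1 u) ^ α 0 * (X 1 * Y0 u) ^ α 1 * (X 2 * Y0 u) ^ α 2)
      = C a * (X 2 ^ α 2 * Y1 u ^ α 0 * (X 1 ^ (α 0 + α 1)) * (Y0 u ^ (α 1 + α 2))) := by
        rw [pow_add, pow_add]; ring
    _ = _ := by rw [← e1, ← e2]; ring

theorem aeval_th {κ H : ℕ} {F : R3} (hF : F.IsHomogeneous (H - 1 + κ))
    (h0 : ∀ α, coeff α F ≠ 0 → α 0 ≤ κ ∧ α 2 + 1 ≤ H) :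
    aeval (th u) F = (Y0 u ^ (H - 1) * X 1 ^ κ) * psi u κ H F := by
  rw [psi_eq, Finset.mul_sum]
  conv_lhs => rw [← support_sum_monomial_coeff F]
  rw [map_sum]
  refine Finset.sum_congr rfl (fun α hα => ?_)
  have h1 := deg_eq hF hα
  have h2 := h0 α (mem_support_iff.mp hα)
  exact aeval_th_monomial u h2.1 h2.2 h1 _

theorem pm_isHomogeneous (he : e ≤ 1) {κ H : ℕ} {α : Fin 3 →₀ ℕ} (h0 : α 0 ≤ κ)
    (h2 : α 2 + 1 ≤ H) : (pm u κ H α).IsHomogeneous (H - 1 + κ * (t + 1)) := by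
  unfold pm
  have h1 := ((((isHomogeneous_X ℂ (2 : Fin 3)).pow (α 2)).mul
    ((isHomogeneous_X ℂ (1 : Fin 3)).pow (H - 1 - α 2))).mul
    ((Y1_isHomogeneous u he).pow (α 0))).mul ((Y0_isHomogeneous u he).pow (κ - α 0))
  have e1 : 1 * α 2 + 1 * (H - 1 - α 2) + (t + 1) * α 0 + (t + 1) * (κ - α 0) =
      H - 1 + κ * (t + 1) := by
    obtain ⟨j, hj⟩ := Nat.exists_eq_add_of_le h0
    obtain ⟨l, hl⟩ := Nat.exists_eq_add_of_le h2
    rw [hj, Nat.add_sub_cancel_left, hl]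
    have e2 : α 2 + 1 + l - 1 = α 2 + l := by omega
    rw [e2, Nat.add_sub_cancel_left]
    ring
  rw [e1] at h1
  exact h1

theorem psi_isHomogeneous (he : e ≤ 1) {κ H : ℕ} {F : R3}
    (h0 : ∀ α, coeff α F ≠ 0 → α 0 ≤ κ ∧ α 2 + 1 ≤ H) :
    (psi u κ H F).IsHomogeneous (H - 1 + κ * (t + 1)) := by
  rw [psi_eq]
  refine IsHomogeneous.sum _ _ _ (fun α hα => ?_)
  have h2 := h0 α (mem_support_iff.mp hα)
  exact (pm_isHomogeneous u he h2.1 h2.2).C_mul _

theorem degreeOf_pm_zero {κ H : ℕ} {α : Fin 3 →₀ ℕ} (h0 : α 0 ≤ κ) :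
    degreeOf 0 (pm u κ H α) ≤ κ := by
  unfold pm
  refine (degreeOf_mul_le _ _ _).trans ?_
  refine (add_le_add ((degreeOf_mul_le _ _ _).trans (add_le_add (degreeOf_mul_le _ _ _) le_rfl))
    le_rfl).trans ?_
  rw [degreeOf_X_pow_of_ne _ (by decide), degreeOf_X_pow_of_ne _ (by decide)]
  have h1 := (degreeOf_pow_le 0 (Y1 u) (α 0)).trans
    (Nat.mul_le_mul_left (α 0) (degreeOf_zero_Y (e := e) (t := t) u.A u.B))
  have h2 := (degreeOf_pow_le 0 (Y0 u) (κ - α 0)).trans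
    (Nat.mul_le_mul_left (κ - α 0) (degreeOf_zero_Y (e := e) (t := t) u.C' u.E))
  omega

theorem degreeOf_pm_two {κ H : ℕ} {α : Fin 3 →₀ ℕ} (h0 : α 0 ≤ κ) (h2 : α 2 + 1 ≤ H) :
    degreeOf 2 (pm u κ H α) ≤ H - 1 + κ * (t + e) := by
  unfold pm
  refine (degreeOf_mul_le _ _ _).trans ?_
  refine (add_le_add ((degreeOf_mul_le _ _ _).trans (add_le_add (degreeOf_mul_le _ _ _) le_rfl))
    le_rfl).trans ?_
  rw [degreeOf_X_self_pow, degreeOf_X_pow_of_ne _ (by decide)]
  have h1 := (degreeOf_pow_le 2 (Y1 u) (α 0)).trans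
    (Nat.mul_le_mul_left (α 0) (degreeOf_two_Y (e := e) (t := t) u.A u.B))
  have h3 := (degreeOf_pow_le 2 (Y0 u) (κ - α 0)).trans
    (Nat.mul_le_mul_left (κ - α 0) (degreeOf_two_Y (e := e) (t := t) u.C' u.E))
  obtain ⟨j, hj⟩ := Nat.exists_eq_add_of_le h0
  rw [hj, Nat.add_sub_cancel_left] at h3 ⊢
  have e1 : (α 0 + j) * (t + e) = α 0 * (t + e) + j * (t + e) := by ring
  omega

theorem degreeOf_psi {κ H n : ℕ} {i : Fin 3} {F : R3}
    (h : ∀ α ∈ F.support, degreeOf i (pm u κ H α) ≤ n) : degreeOf i (psi u κ H F) ≤ n := by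
  rw [psi_eq]
  refine (degreeOf_sum_le _ _ _).trans (Finset.sup_le fun α hα => ?_)
  exact (degreeOf_C_mul_le _ _ _).trans (h α hα)

/-! ### values -/

theorem eval_Y0 (he : e ≤ 1) {i : Fin N} {v : V3} (h2 : v 2 = x i * v 1) :
    eval v (Y0 u) = v 1 ^ t * (u.C'.eval (x i) * (v 0 - c i * v 1)) := by
  unfold Y0
  rw [map_add, map_mul, map_mul, map_pow, eval_X, eval_X,
    Tr.eval_bin_mul u.dC 1 (x i) (v 1) v (by ring) (by rw [h2]; ring),
    Tr.eval_bin_mul u.dE 1 (x i) (v 1) v (by ring) (by rw [h2]; ring)]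
  have h3 : u.E.eval (x i) = - (u.C'.eval (x i) * c i) := by
    linear_combination u.hC i
  have h4 : v 1 ^ (t + e) * v 1 ^ (1 - e) = v 1 ^ t * v 1 := by
    rw [← pow_add, ← pow_succ]
    congr 1
    omega
  rw [h3]
  linear_combination (- (u.C'.eval (x i) * c i)) * h4

theorem eval_Y1 (he : e ≤ 1) {i : Fin N} {v : V3} (h2 : v 2 = x i * v 1) :
    eval v (Y1 u) = v 1 ^ t * (u.A.eval (x i) * (v 0 - c i * v 1)) := by
  unfold Y1
  rw [map_add, map_mul, map_mul, map_pow, eval_X, eval_X,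
    Tr.eval_bin_mul u.dA 1 (x i) (v 1) v (by ring) (by rw [h2]; ring),
    Tr.eval_bin_mul u.dB 1 (x i) (v 1) v (by ring) (by rw [h2]; ring)]
  have h3 : u.B.eval (x i) = - (u.A.eval (x i) * c i) := by
    linear_combination u.hA i
  have h4 : v 1 ^ (t + e) * v 1 ^ (1 - e) = v 1 ^ t * v 1 := by
    rw [← pow_add, ← pow_succ]
    congr 1
    omega
  rw [h3]
  linear_combination (- (u.A.eval (x i) * c i)) * h4

/-- the old points -/
noncomputable def pp (i : Fin N) : V3 := ![u.A.eval (x i) / u.C'.eval (x i), 1, x i]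

theorem eval_th (he : e ≤ 1) {i : Fin N} {v : V3} (h2 : v 2 = x i * v 1) :
    (fun j => eval v (th u j)) = (v 1 * eval v (Y0 u)) • pp u i := by
  have hc := u.hC0 i
  funext j
  fin_cases j
  · change eval v (X 1 * Y1 u) = v 1 * eval v (Y0 u) * (u.A.eval (x i) / u.C'.eval (x i))
    rw [map_mul, eval_X, eval_Y1 u he h2, eval_Y0 u he h2]
    field_simp
  · change eval v (X 1 * Y0 u) = v 1 * eval v (Y0 u) * 1
    rw [map_mul, eval_X, mul_one]
  · change eval v (X 2 * Y0 u) = v 1 * eval v (Y0 u) * x i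
    rw [map_mul, eval_X, h2]
    ring

/-! ### the inverse -/

/-- the determinant -/
noncomputable def dt : R3 := bin t u.A * bin (t + e) u.E - bin (t + e) u.B * bin t u.C'

/-- denominator of the inverse -/
noncomputable def U0 : R3 := bin t u.A * X 1 - bin t u.C' * X 0

/-- numerator of the inverse -/
noncomputable def U1 : R3 := bin (t + e) u.E * X 0 - bin (t + e) u.B * X 1

/-- the inverse -/
noncomputable def iv (v : V3) : V3 :=
  ![v 1 ^ (1 - e) * eval v (U1 u), v 1 * eval v (U0 u), v 2 * eval v (U0 u)]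

theorem eval_bin_iv (n : ℕ) (f : Polynomial ℂ) (v : V3) :
    eval (iv u v) (bin n f) = eval v (U0 u) ^ n * eval v (bin n f) := by
  refine Tr.eval_bin_smul n f (eval v (U0 u)) v (iv u v) ?_ ?_
  · change v 1 * eval v (U0 u) = _
    ring
  · change v 2 * eval v (U0 u) = _
    ring

theorem pow_aux (he : e ≤ 1) (z : ℂ) : z ^ (t + e) * z ^ (1 - e) = z ^ t * z := by
  rw [← pow_add, ← pow_succ]
  congr 1
  omega

theorem eval_iv_Y0 (he : e ≤ 1) (v : V3) : eval (iv u v) (Y0 u) =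
    eval v (U0 u) ^ t * v 1 ^ (1 - e) * (v 1 * eval v (dt u)) := by
  have h1 := pow_aux (t := t) he (eval v (U0 u))
  unfold Y0
  rw [map_add, map_mul, map_mul, map_pow, eval_X, eval_X, eval_bin_iv, eval_bin_iv]
  change _ * (v 1 ^ (1 - e) * eval v (U1 u)) + _ * (v 1 * eval v (U0 u)) ^ (1 - e) = _
  have h2 : eval v (U0 u) ^ (t + e) * eval v (bin (t + e) u.E) *
      (v 1 * eval v (U0 u)) ^ (1 - e) =
      eval v (U0 u) ^ t * v 1 ^ (1 - e) * (eval v (bin (t + e) u.E) * eval v (U0 u)) := by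
    rw [mul_pow]
    linear_combination (eval v (bin (t + e) u.E) * v 1 ^ (1 - e)) * h1
  rw [h2]
  unfold U1 dt
  generalize hU : eval v (U0 u) ^ t = P
  unfold U0
  simp only [map_sub, map_mul, eval_X]
  ring

theorem eval_iv_Y1 (he : e ≤ 1) (v : V3) : eval (iv u v) (Y1 u) =
    eval v (U0 u) ^ t * v 1 ^ (1 - e) * (v 0 * eval v (dt u)) := by
  have h1 := pow_aux (t := t) he (eval v (U0 u))
  unfold Y1
  rw [map_add, map_mul, map_mul, map_pow, eval_X, eval_X, eval_bin_iv, eval_bin_iv]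
  change _ * (v 1 ^ (1 - e) * eval v (U1 u)) + _ * (v 1 * eval v (U0 u)) ^ (1 - e) = _
  have h2 : eval v (U0 u) ^ (t + e) * eval v (bin (t + e) u.B) *
      (v 1 * eval v (U0 u)) ^ (1 - e) =
      eval v (U0 u) ^ t * v 1 ^ (1 - e) * (eval v (bin (t + e) u.B) * eval v (U0 u)) := by
    rw [mul_pow]
    linear_combination (eval v (bin (t + e) u.B) * v 1 ^ (1 - e)) * h1
  rw [h2]
  unfold U1 dt
  generalize hU : eval v (U0 u) ^ t = P
  unfold U0
  simp only [map_sub, map_mul, eval_X]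
  ring

theorem eval_iv_th (he : e ≤ 1) (v : V3) : (fun j => eval (iv u v) (th u j)) =
    (eval v (U0 u) ^ (t + 1) * (v 1 ^ (2 - e) * eval v (dt u))) • v := by
  have h1 : v 1 ^ (2 - e) = v 1 ^ (1 - e) * v 1 := by
    rw [← pow_succ]
    congr 1
    omega
  rw [h1]
  funext j
  fin_cases j
  · change eval (iv u v) (X 1 * Y1 u) = _ * v 0
    rw [map_mul, eval_X, eval_iv_Y1 u he]
    change v 1 * eval v (U0 u) * _ = _
    ring
  · change eval (iv u v) (X 1 * Y0 u) = _ * v 1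
    rw [map_mul, eval_X, eval_iv_Y0 u he]
    change v 1 * eval v (U0 u) * _ = _
    ring
  · change eval (iv u v) (X 2 * Y0 u) = _ * v 2
    rw [map_mul, eval_X, eval_iv_Y0 u he]
    change v 2 * eval v (U0 u) * _ = _
    ring

theorem dt_ne_zero : dt u ≠ 0 := by
  intro h
  apply u.hdet
  apply Polynomial.funext
  intro z
  have h1 := congrArg (eval (![0, 1, z] : V3)) h
  have h2 : ∀ {n : ℕ} {f : Polynomial ℂ}, f.natDegree ≤ n →
      eval (![0, 1, z] : V3) (bin n f) = f.eval z := by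
    intro n f hf
    rw [Tr.eval_bin_mul hf 1 z 1 ![0, 1, z] (by simp) (by simp)]
    ring
  unfold dt at h1
  rw [map_sub, map_mul, map_mul, h2 u.dA, h2 u.dE, h2 u.dB, h2 u.dC, map_zero] at h1
  rw [Polynomial.eval_sub, Polynomial.eval_mul, Polynomial.eval_mul, Polynomial.eval_zero]
  exact h1

theorem U0_ne_zero (i : Fin N) : U0 u ≠ 0 := by
  intro h
  apply u.hC0 i
  have h1 : ∀ s : ℂ, eval (![s, 1, x i] : V3) (U0 u) = u.A.eval (x i) - u.C'.eval (x i) * s := by
    intro s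
    unfold U0
    rw [map_sub, map_mul, map_mul, eval_X, eval_X,
      Tr.eval_bin_mul u.dA 1 (x i) 1 ![s, 1, x i] (by simp) (by simp),
      Tr.eval_bin_mul u.dC 1 (x i) 1 ![s, 1, x i] (by simp) (by simp)]
    simp
  have h2 := h1 0
  have h3 := h1 1
  rw [h, map_zero] at h2 h3
  linear_combination h3 - h2

/-- the transformation is injective -/
theorem eq_zero_of_aeval_th (he : e ≤ 1) {D : ℕ} {F : R3} (hF : F.IsHomogeneous D) (i : Fin N)
    (h : aeval (th u) F = 0) : F = 0 := by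
  have h1 : F * (U0 u ^ (t + 1) * (X 1 ^ (2 - e) * dt u)) = 0 := by
    apply MvPolynomial.funext
    intro v
    rw [map_zero, map_mul, map_mul, map_mul, map_pow, map_pow, eval_X]
    set s := eval v (U0 u) ^ (t + 1) * (v 1 ^ (2 - e) * eval v (dt u)) with hs
    have h2 : eval (s • v) F = 0 := by
      rw [← eval_iv_th u he v]
      have h3 : ∀ p : R3, eval (iv u v) (aeval (th u) p) =
          eval (fun l => eval (iv u v) (th u l)) p := by
        intro p
        induction p using MvPolynomial.induction_on with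
        | C c => rw [← algebraMap_eq, AlgHom.commutes, algebraMap_eq, eval_C, eval_C]
        | add p q hp hq => rw [map_add, map_add, hp, hq, map_add]
        | mul_X p n hp => rw [map_mul, aeval_X, map_mul, hp, map_mul, eval_X]
      rw [← h3, h, map_zero]
    rw [eval_smul_of_homogeneous hF] at h2
    by_cases hs0 : s = 0
    · rw [hs0, mul_zero]
    · rw [(mul_eq_zero.mp h2).resolve_left (pow_ne_zero _ hs0), zero_mul]
  refine (mul_eq_zero.mp h1).resolve_right ?_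
  exact mul_ne_zero (pow_ne_zero _ (U0_ne_zero u i))
    (mul_ne_zero (pow_ne_zero _ (X_ne_zero _)) (dt_ne_zero u))

/-! ### divisibility -/

theorem lv_not_dvd_Y0 (he : e ≤ 1) (i : Fin N) : ¬ lin (Tr.lv (x i)) ∣ X 1 * Y0 u := by
  rintro ⟨g, hg⟩
  have h1 := congrArg (eval (![c i + 1, 1, x i] : V3)) hg
  rw [map_mul, map_mul, Tr.eval_lv, eval_X, eval_Y0 u he (i := i) (by simp)] at h1
  simp only [Matrix.cons_val, Matrix.cons_val_one, Matrix.cons_val_zero, mul_one, sub_self,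
    zero_mul, one_pow, one_mul, add_sub_cancel_left] at h1
  exact u.hC0 i h1

/-- divisibility by the equation of a fibre -/
theorem lv_pow_dvd (he : e ≤ 1) {κ H m : ℕ} {F : R3} (hF : F.IsHomogeneous (H - 1 + κ))
    (h0 : ∀ α, coeff α F ≠ 0 → α 0 ≤ κ ∧ α 2 + 1 ≤ H) {i : Fin N}
    (hv : VanishTo F (pp u i) m) : lin (Tr.lv (x i)) ^ m ∣ psi u κ H F := by
  refine lin_pow_dvd (Tr.lv_ne_zero _) (lv_not_dvd_Y0 u he i) (fun v hu hW => ?_)
  rw [Tr.eval_lv, sub_eq_zero] at hu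
  rw [map_mul, eval_X] at hW
  have h1 := vanishTo_smul hF hW hv
  rw [← eval_th u he hu] at h1
  have h2 := vanishTo_comp (th u) h1
  rw [aeval_th u hF h0] at h2
  refine Tr.vanishTo_of_eval_ne h2 ?_
  rw [map_mul, map_pow, map_pow, eval_X]
  exact mul_ne_zero (pow_ne_zero _ (right_ne_zero_of_mul hW))
    (pow_ne_zero _ (left_ne_zero_of_mul hW))

theorem Pr_dvd (he : e ≤ 1) {κ H m : ℕ} (hx : Function.Injective x) {F : R3}
    (hF : F.IsHomogeneous (H - 1 + κ)) (h0 : ∀ α, coeff α F ≠ 0 → α 0 ≤ κ ∧ α 2 + 1 ≤ H)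
    (hv : ∀ i, VanishTo F (pp u i) m) : Tr.Pr x m ∣ psi u κ H F := by
  unfold Tr.Pr
  refine Fintype.prod_dvd_of_isRelPrime ?_ (fun i => lv_pow_dvd u he hF h0 (hv i))
  intro i j hij
  exact Tr.isRelPrime_lv (fun h => hij (hx h)) m

theorem vanishTo_psi (he : e ≤ 1) {κ H : ℕ} {F : R3}
    (h0 : ∀ α, coeff α F ≠ 0 → α 0 ≤ κ ∧ α 2 + 1 ≤ H) {i : Fin N} {a : V3}
    (h2 : a 2 = x i * a 1) (ha : c i * a 1 = a 0) : VanishTo (psi u κ H F) a κ := by
  have hY0 : VanishTo (Y0 u) a 1 := by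
    rw [vanishTo_one_iff', eval_Y0 u he h2, ha, sub_self, mul_zero, mul_zero]
  have hY1 : VanishTo (Y1 u) a 1 := by
    rw [vanishTo_one_iff', eval_Y1 u he h2, ha, sub_self, mul_zero, mul_zero]
  rw [psi_eq]
  refine Tr.vanishTo_sum _ _ (fun α hα => ?_)
  have h1 := (h0 α (mem_support_iff.mp hα)).1
  have h3 : VanishTo (pm u κ H α) a κ := by
    unfold pm
    have h4 := VanishTo.mul (VanishTo.mul (vanishTo_zero (X 2 ^ α 2 * X 1 ^ (H - 1 - α 2)) a)
      (Tr.vanishTo_pow hY1 (α 0))) (Tr.vanishTo_pow hY0 (κ - α 0))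
    have e1 : 0 + α 0 + (κ - α 0) = κ := by omega
    rwa [e1] at h4
  have h5 := VanishTo.mul (vanishTo_zero (C (coeff α F)) a) h3
  rwa [zero_add] at h5

/-- the quotient -/
theorem exists_quot (he : e ≤ 1) {κ H k μ : ℕ} (hx : Function.Injective x) (hκ : κ = k + μ)
    {q : Fin N → V3} (hq1 : ∀ i, q i 1 ≠ 0)
    (hqx : ∀ i, q i 2 = x i * q i 1) (hqc : ∀ i, c i * q i 1 = q i 0)
    {F : R3} (hF : F.IsHomogeneous (H - 1 + κ))
    (h0 : ∀ α, coeff α F ≠ 0 → α 0 ≤ κ ∧ α 2 + 1 ≤ H)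
    (hv : ∀ i, VanishTo F (pp u i) k) :
    ∃ G : R3, psi u κ H F = Tr.Pr x k * G ∧ (G ≠ 0 → k * N ≤ H - 1 + κ * (t + 1) ∧
      degreeOf 2 G + k * N ≤ H - 1 + κ * (t + e)) ∧
      G.IsHomogeneous (H - 1 + κ * (t + 1) - k * N) ∧ degreeOf 0 G ≤ κ ∧
      ∀ i, VanishTo G (q i) μ := by
  by_cases hpsi : psi u κ H F = 0
  · refine ⟨0, by rw [hpsi, mul_zero], fun h => absurd rfl h, isHomogeneous_zero _ _ _, ?_,
      fun i => ?_⟩
    · rw [degreeOf_zero]
      exact Nat.zero_le _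
    · exact (vanSub (q i) μ).zero_mem
  obtain ⟨G₀, hG₀⟩ := Pr_dvd u he hx hF h0 hv
  have hhom := psi_isHomogeneous u he h0
  -- the degree
  have hdeg : k * N ≤ H - 1 + κ * (t + 1) := by
    by_contra hcon
    apply hpsi
    rw [← homogeneousComponent_eq_self hhom, hG₀]
    exact homogeneousComponent_mul_lt (Tr.Pr_isHomogeneous k) (by omega) G₀
  set d := H - 1 + κ * (t + 1) - k * N with hd
  set G := homogeneousComponent d G₀ with hG
  have hPG : psi u κ H F = Tr.Pr x k * G := by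
    rw [hG, ← homogeneousComponent_mul (Tr.Pr_isHomogeneous k), ← hG₀]
    have e1 : k * N + d = H - 1 + κ * (t + 1) := by omega
    rw [e1, homogeneousComponent_eq_self hhom]
  have hG0 : G ≠ 0 := by
    intro h
    exact hpsi (by rw [hPG, h, mul_zero])
  have hGhom : G.IsHomogeneous d := homogeneousComponent_isHomogeneous d G₀
  have hdeg0 : degreeOf 0 G ≤ κ := by
    have h1 : degreeOf 0 (psi u κ H F) ≤ κ :=
      degreeOf_psi u (fun α hα => degreeOf_pm_zero u (h0 α (mem_support_iff.mp hα)).1)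
    rw [hPG, degreeOf_mul_eq (Tr.Pr_ne_zero k) hG0] at h1
    omega
  have hdeg2 : degreeOf 2 G + k * N ≤ H - 1 + κ * (t + e) := by
    have h1 : degreeOf 2 (psi u κ H F) ≤ H - 1 + κ * (t + e) :=
      degreeOf_psi u (fun α hα => degreeOf_pm_two u (h0 α (mem_support_iff.mp hα)).1
        (h0 α (mem_support_iff.mp hα)).2)
    rw [hPG, degreeOf_mul_eq (Tr.Pr_ne_zero k) hG0, Tr.degreeOf_Pr] at h1
    omega
  refine ⟨G, hPG, fun _ => ⟨hdeg, hdeg2⟩, hGhom, hdeg0, fun i => ?_⟩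
  have h1 := vanishTo_psi u he h0 (hqx i) (hqc i)
  rw [hPG] at h1
  have h2 : Tr.Pr x k = lin (Tr.lv (x i)) ^ k * ∏ j ∈ Finset.univ.erase i, lin (Tr.lv (x j)) ^ k := by
    exact (Finset.mul_prod_erase Finset.univ (fun j => lin (Tr.lv (x j)) ^ k)
      (Finset.mem_univ i)).symm
  rw [h2, mul_assoc] at h1
  have h3 := Tr.vanishTo_of_pow_mul (Tr.lv_ne_zero _) (by rw [Tr.eval_lv, hqx i, sub_self]) h1
  have e1 : κ - k = μ := by omega
  rw [e1] at h3
  refine Tr.vanishTo_of_eval_ne h3 ?_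
  rw [map_prod]
  refine Finset.prod_ne_zero_iff.mpr (fun j hj => ?_)
  rw [map_pow, Tr.eval_lv, hqx i, ← sub_mul]
  refine pow_ne_zero _ (mul_ne_zero (sub_ne_zero.mpr fun h => ?_) (hq1 i))
  exact (Finset.ne_of_mem_erase hj) (hx h).symm

end

/-- the dimension count -/
theorem finrank_le {t e H κ k : ℕ} (ht : 1 ≤ t) (he : e ≤ 1)
    {W : Submodule ℂ R3} [Module.Finite ℂ W] (hH : 1 ≤ H)
    (hW : ∀ u : EU t e (fun i => gpt (2 * t + e) i 2 / gpt (2 * t + e) i 1)
      (fun i => gpt (2 * t + e) i 0 / gpt (2 * t + e) i 1), ∀ F : R3,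
      F.IsHomogeneous (H - 1 + κ) → (∀ α, coeff α F ≠ 0 → α 0 ≤ κ ∧ α 2 + 1 ≤ H) →
      (∀ i, VanishTo F (pp u i) k) →
      ∃ G ∈ W, psi u κ H F = Tr.Pr (fun i => gpt (2 * t + e) i 2 / gpt (2 * t + e) i 1) k * G) :
    hR H (κ + 1) k (2 * t + e) ≤ finrank ℂ W := by
  classical
  set q := gpt (2 * t + e) with hq
  have hgen := gpt_generic (2 * t + e)
  rw [← hq] at hgen
  obtain ⟨u⟩ := exists_EU ht he hgen
  refine (hT_le (pp u)).trans ?_
  have e1 : H + (κ + 1) - 2 = H - 1 + κ := by omega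
  rw [e1]
  set V := TS (H - 1 + κ) (rect H (κ + 1)) k (pp u) with hV
  have hmem : ∀ F ∈ V, F.IsHomogeneous (H - 1 + κ) ∧ (∀ i, VanishTo F (pp u i) k) ∧
      ∀ α, coeff α F ≠ 0 → α 0 ≤ κ ∧ α 2 + 1 ≤ H := by
    intro F hF
    rw [hV, mem_TS] at hF
    refine ⟨hF.1, hF.2.1, fun α hα => ?_⟩
    obtain ⟨h1, h2⟩ := hF.2.2 α hα
    exact ⟨by omega, by omega⟩
  have h1 : V.map (psi u κ H) ≤
      W.map (LinearMap.mulLeft ℂ (Tr.Pr (fun i => q i 2 / q i 1) k)) := by
    rintro _ ⟨F, hF, rfl⟩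
    obtain ⟨h2, h3, h4⟩ := hmem F hF
    obtain ⟨G, hG, hFG⟩ := hW u F h2 h4 h3
    exact ⟨G, hG, by rw [LinearMap.mulLeft_apply, ← hFG]⟩
  have h2 : finrank ℂ V = finrank ℂ ↥(V.map (psi u κ H)) := by
    have h3 : Function.Injective ((psi u κ H) ∘ₗ V.subtype) := by
      rw [← LinearMap.ker_eq_bot, Submodule.eq_bot_iff]
      intro F hF
      rw [LinearMap.mem_ker, LinearMap.comp_apply] at hF
      apply Subtype.ext
      obtain ⟨h4, h5, h6⟩ := hmem F.1 F.2
      refine eq_zero_of_aeval_th u he h4 ⟨0, by omega⟩ ?_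
      rw [aeval_th u h4 h6]
      change psi u κ H F.1 = 0 at hF
      rw [hF, mul_zero]
    have h4 := LinearMap.finrank_range_of_inj h3
    rw [LinearMap.range_comp, Submodule.range_subtype] at h4
    exact h4.symm
  rw [h2]
  exact (Submodule.finrank_mono h1).trans (Submodule.finrank_map_le _ _)

end Tv

theorem transform_even {H H' κ k μ t : ℕ} (ht : 1 ≤ t) (hκ : κ = k + μ)
    (hH : H' + t * k = H + t * μ) :
    hR H (κ + 1) k (2 * t) ≤ hR H' (κ + 1) μ (2 * t) := by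
  rcases Nat.eq_zero_or_pos H with hH0 | hH0
  · subst hH0
    rw [hR_zero]
    exact Nat.zero_le _
  have hgen := gpt_generic (2 * t + 0)
  have hx := Mx.gen_injective hgen
  refine (Tv.finrank_le (e := 0) (κ := κ) (H := H) (k := k)
    (W := TS (H' + (κ + 1) - 2) (rect H' (κ + 1)) μ (gpt (2 * t + 0))) ht (by omega) hH0
    (fun u F hF h0 hv => ?_))
  obtain ⟨G, h1, h2, h3, h4, h5⟩ := Tv.exists_quot u (by omega) hx hκ (q := gpt (2 * t + 0))
    (fun i => Mx.gen_ne hgen i 1)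
    (fun i => by rw [div_mul_cancel₀ _ (Mx.gen_ne hgen i 1)])
    (fun i => by rw [div_mul_cancel₀ _ (Mx.gen_ne hgen i 1)]) hF h0 hv
  refine ⟨G, ?_, h1⟩
  by_cases hG : G = 0
  · rw [hG]
    exact Submodule.zero_mem _
  obtain ⟨h6, h7⟩ := h2 hG
  have e1 : k * (2 * t + 0) = t * k + t * k := by ring
  have e2 : κ * (t + 1) = t * k + t * μ + κ := by rw [hκ]; ring
  have e3 : κ * (t + 0) = t * k + t * μ := by rw [hκ]; ring
  rw [e1] at h3 h6 h7
  rw [e2] at h3 h6
  rw [e3] at h7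
  rw [mem_TS]
  refine ⟨?_, h5, fun α hα => ?_⟩
  · have e4 : H' + (κ + 1) - 2 = H - 1 + (t * k + t * μ + κ) - (t * k + t * k) := by omega
    rw [e4]
    exact h3
  · have h8 := monomial_le_degreeOf 0 (mem_support_iff.mpr hα)
    have h9 := monomial_le_degreeOf 2 (mem_support_iff.mpr hα)
    constructor
    · omega
    · omega

theorem transform_odd {H D κ k μ t : ℕ} (ht : 1 ≤ t) (hκ : κ = k + μ)
    (hD : D + 1 + t * k = H + t * μ + μ) :
    hR H (κ + 1) k (2 * t + 1) ≤ hF D κ μ (2 * t + 1) := by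
  rcases Nat.eq_zero_or_pos H with hH0 | hH0
  · subst hH0
    rw [hR_zero]
    exact Nat.zero_le _
  rw [hF_swap]
  have hgen := gpt_generic (2 * t + 1)
  have hx := Mx.gen_injective hgen
  refine (Tv.finrank_le (e := 1) (κ := κ) (H := H) (k := k)
    (W := TS D {α | α 0 ≤ κ} μ (gpt (2 * t + 1))) ht (by omega) hH0
    (fun u F hF h0 hv => ?_))
  obtain ⟨G, h1, h2, h3, h4, h5⟩ := Tv.exists_quot u (by omega) hx hκ (q := gpt (2 * t + 1))
    (fun i => Mx.gen_ne hgen i 1)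
    (fun i => by rw [div_mul_cancel₀ _ (Mx.gen_ne hgen i 1)])
    (fun i => by rw [div_mul_cancel₀ _ (Mx.gen_ne hgen i 1)]) hF h0 hv
  refine ⟨G, ?_, h1⟩
  by_cases hG : G = 0
  · rw [hG]
    exact Submodule.zero_mem _
  obtain ⟨h6, h7⟩ := h2 hG
  have e1 : k * (2 * t + 1) = t * k + t * k + k := by ring
  have e2 : κ * (t + 1) = t * k + t * μ + k + μ := by rw [hκ]; ring
  rw [e1] at h3 h6
  rw [e2] at h3 h6
  rw [mem_TS]
  refine ⟨?_, h5, fun α hα => ?_⟩
  · have e4 : D = H - 1 + (t * k + t * μ + k + μ) - (t * k + t * k + k) := by omega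
    rw [e4]
    exact h3
  · have h8 := monomial_le_degreeOf 0 (mem_support_iff.mpr hα)
    change α 0 ≤ κ
    omega

end Pool.Agent.Work.MP_0421d9_ag.LD
end

section
/-!
Monomial transformations: a monomial map `φ` of the plane, and the induced map of the exponents.
-/

namespace Pool.Agent.Work.MP_0421d9_ag.LD

open MvPolynomial Module

/-- the linear map given by a map of the exponents -/
noncomputable def trm (ρ : (Fin 3 →₀ ℕ) → (Fin 3 →₀ ℕ)) : R3 →ₗ[ℂ] R3 :=
  (basisMonomials (Fin 3) ℂ).constr ℂ (fun α => monomial (ρ α) (1 : ℂ))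

theorem trm_monomial (ρ : (Fin 3 →₀ ℕ) → (Fin 3 →₀ ℕ)) (α : Fin 3 →₀ ℕ) (c : ℂ) :
    trm ρ (monomial α c) = monomial (ρ α) c := by
  have h1 : trm ρ (monomial α 1) = monomial (ρ α) (1 : ℂ) := by
    have h2 := (basisMonomials (Fin 3) ℂ).constr_basis ℂ (fun α => monomial (ρ α) (1 : ℂ)) α
    rw [coe_basisMonomials] at h2
    exact h2
  have h3 : (monomial α c : R3) = c • monomial α 1 := by
    rw [smul_monomial, smul_eq_mul, mul_one]
  rw [h3, map_smul, h1, smul_monomial, smul_eq_mul, mul_one]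

theorem trm_apply (ρ : (Fin 3 →₀ ℕ) → (Fin 3 →₀ ℕ)) (F : R3) :
    trm ρ F = ∑ α ∈ F.support, monomial (ρ α) (coeff α F) := by
  conv_lhs => rw [F.as_sum]
  rw [map_sum]
  exact Finset.sum_congr rfl (fun α _ => trm_monomial _ _ _)

theorem coeff_trm {ρ : (Fin 3 →₀ ℕ) → (Fin 3 →₀ ℕ)} {F : R3} {β : Fin 3 →₀ ℕ}
    (h : coeff β (trm ρ F) ≠ 0) : ∃ α, coeff α F ≠ 0 ∧ ρ α = β := by
  classical
  rw [trm_apply, coeff_sum] at h
  obtain ⟨α, hα, hα'⟩ := Finset.exists_ne_zero_of_sum_ne_zero h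
  rw [coeff_monomial] at hα'
  exact ⟨α, mem_support_iff.mp hα, (ite_ne_right_iff.mp hα').1⟩

theorem trm_eq_zero {ρ : (Fin 3 →₀ ℕ) → (Fin 3 →₀ ℕ)} {F : R3}
    (hρ : ∀ α β, coeff α F ≠ 0 → coeff β F ≠ 0 → ρ α = ρ β → α = β) (h : trm ρ F = 0) : F = 0 := by
  classical
  ext α
  rw [coeff_zero]
  by_contra hcon
  have h1 := congrArg (coeff (ρ α)) h
  rw [trm_apply, coeff_sum, coeff_zero, Finset.sum_eq_single α] at h1
  · rw [coeff_monomial, if_pos rfl] at h1
    exact hcon h1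
  · intro β hβ hne
    rw [coeff_monomial, if_neg]
    intro h2
    exact hne (hρ β α (mem_support_iff.mp hβ) hcon h2)
  · intro h2
    rw [notMem_support_iff.mp h2, map_zero, coeff_zero]

theorem vanishTo_of_X_pow_mul' {q : V3} (i : Fin 3) (hq : q i ≠ 0) {μ : ℕ} (k : ℕ) {g : R3}
    (h : VanishTo (X i ^ k * g) q μ) : VanishTo g q μ := by
  have h1 : lin (Pi.single i 1) = (X i : R3) := by
    unfold lin
    rw [Finset.sum_eq_single i]
    · rw [Pi.single_eq_same, C_1, one_mul]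
    · intro j _ hj
      rw [Pi.single_eq_of_ne hj, C_0, zero_mul]
    · intro h2
      exact absurd (Finset.mem_univ i) h2
  induction k with
  | zero => rwa [pow_zero, one_mul] at h
  | succ k ih =>
    apply ih
    rw [pow_succ', mul_assoc, ← h1] at h
    rw [← h1]
    exact vanishTo_of_mul_ne h (by rw [h1, eval_X]; exact hq)

theorem vanishTo_of_monomial_mul {q : V3} (hq : ∀ i, q i ≠ 0) {μ : ℕ} (c : Fin 3 →₀ ℕ) {g : R3}
    (h : VanishTo (monomial c (1 : ℂ) * g) q μ) : VanishTo g q μ := by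
  have h1 : (monomial c (1 : ℂ) : R3) = X 0 ^ c 0 * (X 1 ^ c 1 * X 2 ^ c 2) := by
    rw [monomial_eq, C_1, one_mul, Finsupp.prod_fintype _ _ (fun i => pow_zero _),
      Fin.prod_univ_three, mul_assoc]
  rw [h1, mul_assoc, mul_assoc] at h
  exact vanishTo_of_X_pow_mul' 2 (hq 2) _
    (vanishTo_of_X_pow_mul' 1 (hq 1) _ (vanishTo_of_X_pow_mul' 0 (hq 0) _ h))

/-- the monomial map -/
noncomputable def mmap (φ : Fin 3 → (Fin 3 →₀ ℕ)) (q : V3) : V3 :=
  fun i => eval q (monomial (φ i) (1 : ℂ))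

theorem mmap_ne {φ : Fin 3 → (Fin 3 →₀ ℕ)} {q : V3} (hq : ∀ i, q i ≠ 0) (i : Fin 3) :
    mmap φ q i ≠ 0 := by
  unfold mmap
  rw [eval_monomial, one_mul, Finsupp.prod_fintype _ _ (fun i => pow_zero _),
    Finset.prod_ne_zero_iff]
  intro j _
  exact pow_ne_zero _ (hq j)

theorem aeval_monomials (φ : Fin 3 → (Fin 3 →₀ ℕ)) (α : Fin 3 →₀ ℕ) (c : ℂ) :
    aeval (fun i => (monomial (φ i) (1 : ℂ) : R3)) (monomial α c : R3) =
      monomial (∑ i, α i • φ i) c := by
  rw [aeval_monomial, Finsupp.prod_fintype _ _ (fun i => pow_zero _), algebraMap_eq]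
  have h1 : ∀ i, (monomial (φ i) (1 : ℂ) : R3) ^ α i = monomial (α i • φ i) 1 := by
    intro i
    rw [monomial_pow, one_pow]
  rw [Finset.prod_congr rfl (fun i _ => h1 i), Fin.prod_univ_three, monomial_mul, monomial_mul,
    C_mul_monomial, Fin.sum_univ_three, mul_one, mul_one, mul_one]

theorem vanishTo_trm {φ : Fin 3 → (Fin 3 →₀ ℕ)} {ρ : (Fin 3 →₀ ℕ) → (Fin 3 →₀ ℕ)}
    {c : Fin 3 →₀ ℕ} {F : R3} (h : ∀ α, coeff α F ≠ 0 → ∑ i, α i • φ i = c + ρ α) {q : V3}
    (hq : ∀ i, q i ≠ 0) {m : ℕ} (hF : VanishTo F (mmap φ q) m) : VanishTo (trm ρ F) q m := by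
  have h1 := vanishTo_comp (fun i => (monomial (φ i) (1 : ℂ) : R3)) (F := F) (u := q) (m := m) hF
  have h2 : aeval (fun i => (monomial (φ i) (1 : ℂ) : R3)) F = monomial c 1 * trm ρ F := by
    rw [trm_apply, Finset.mul_sum]
    conv_lhs => rw [F.as_sum]
    rw [map_sum]
    refine Finset.sum_congr rfl (fun α hα => ?_)
    rw [aeval_monomials, h α (mem_support_iff.mp hα), monomial_mul, one_mul]
  rw [h2] at h1
  exact vanishTo_of_monomial_mul hq c h1

/-- data of a monomial transformation: it maps the exponents in `T` of degree `D` injectively to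
exponents in `T'` of degree `D'` -/
structure MT (D D' : ℕ) (T T' : Set (Fin 3 →₀ ℕ)) where
  /-- the monomials -/
  φ : Fin 3 → (Fin 3 →₀ ℕ)
  /-- the map of the exponents -/
  ρ : (Fin 3 →₀ ℕ) → (Fin 3 →₀ ℕ)
  /-- the common factor -/
  c : Fin 3 →₀ ℕ
  hρ : ∀ α, α.degree = D → α ∈ T → (ρ α).degree = D' ∧ ρ α ∈ T' ∧ ∑ i, α i • φ i = c + ρ α
  hinj : ∀ α β, α.degree = D → β.degree = D → α ∈ T → β ∈ T → ρ α = ρ β → α = β

theorem isHomogeneous_of_support {F : R3} {D : ℕ} (h : ∀ α, coeff α F ≠ 0 → α.degree = D) :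
    F.IsHomogeneous D := by
  intro α hα
  have h3 := h α hα
  rw [Finsupp.degree_eq_sum] at h3
  rw [Finsupp.weight_apply, Finsupp.sum_fintype]
  · simpa using h3
  · simp

theorem MT.mem {D D' : ℕ} {T T' : Set (Fin 3 →₀ ℕ)} (t : MT D D' T T') {N : ℕ} {k : Fin N → ℕ}
    {p : Fin N → V3} (hp : ∀ i j, p i j ≠ 0) {F : R3}
    (hF : F ∈ TSm D T k (fun i => mmap t.φ (p i))) : trm t.ρ F ∈ TSm D' T' k p := by
  obtain ⟨h1, h2, h3⟩ := mem_TSm.mp hF
  have h4 : ∀ α, coeff α F ≠ 0 → (t.ρ α).degree = D' ∧ t.ρ α ∈ T' ∧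
      ∑ i, α i • t.φ i = t.c + t.ρ α := fun α hα => t.hρ α (degree_of_mem_support h1 hα) (h3 α hα)
  refine mem_TSm.mpr ⟨isHomogeneous_of_support (fun β hβ => ?_), fun i => ?_, fun β hβ => ?_⟩
  · obtain ⟨α, hα, rfl⟩ := coeff_trm hβ
    exact (h4 α hα).1
  · exact vanishTo_trm (fun α hα => (h4 α hα).2.2) (hp i) (h2 i)
  · obtain ⟨α, hα, rfl⟩ := coeff_trm hβ
    exact (h4 α hα).2.1

theorem MT.eq_zero {D D' : ℕ} {T T' : Set (Fin 3 →₀ ℕ)} (t : MT D D' T T') {F : R3}
    (h1 : F.IsHomogeneous D) (h3 : ∀ α, coeff α F ≠ 0 → α ∈ T) (h : trm t.ρ F = 0) : F = 0 :=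
  trm_eq_zero (fun α β hα hβ hαβ => t.hinj α β (degree_of_mem_support h1 hα)
    (degree_of_mem_support h1 hβ) (h3 α hα) (h3 β hβ) hαβ) h

/-- a monomial transformation and the dimension -/
theorem MT.le {D D' : ℕ} {T T' : Set (Fin 3 →₀ ℕ)} (t : MT D D' T T') {N : ℕ} (k : Fin N → ℕ) :
    hTm D T k ≤ hTm D' T' k := by
  refine (hTm_le (fun i => mmap t.φ (gpt N i))).trans ?_
  have hp : ∀ i j, gpt N i j ≠ 0 := gpt_ne
  let f : TSm D T k (fun i => mmap t.φ (gpt N i)) →ₗ[ℂ] TSm D' T' k (gpt N) :=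
    LinearMap.codRestrict _ ((trm t.ρ).comp (Submodule.subtype _)) (fun F => t.mem hp F.2)
  have hf : Function.Injective f := by
    rw [← LinearMap.ker_eq_bot, LinearMap.ker_eq_bot']
    rintro ⟨F, hF⟩ h0
    obtain ⟨h1, h2, h3⟩ := mem_TSm.mp hF
    rw [Submodule.mk_eq_zero]
    exact t.eq_zero h1 h3 (congrArg Subtype.val h0)
  exact LinearMap.finrank_le_finrank_of_injective hf

/-- a monomial transformation and killing -/
theorem MT.kills {D D' : ℕ} {T T' : Set (Fin 3 →₀ ℕ)} (t : MT D D' T T') {N : ℕ} {k : Fin N → ℕ}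
    (h : Killsm D' k T') : Killsm D k T := by
  obtain ⟨p, hp, h⟩ := h
  refine ⟨fun i => mmap t.φ (p i), fun i j => mmap_ne (hp i) j, fun G h1 h2 h3 => ?_⟩
  have h4 : G ∈ TSm D T k (fun i => mmap t.φ (p i)) :=
    mem_TSm.mpr ⟨h1, h3, fun α hα => h2 α (mem_support_iff.mpr hα)⟩
  have h5 := mem_TSm.mp (t.mem hp h4)
  refine t.eq_zero h1 (fun α hα => h2 α (mem_support_iff.mpr hα)) (h _ h5.1 (fun α hα => ?_) h5.2.1)
  exact h5.2.2 α (mem_support_iff.mp hα)

end Pool.Agent.Work.MP_0421d9_ag.LD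
end

section
/-!
Systems with arbitrary multiplicities: the induction along the strips.
-/

namespace Pool.Agent.Work.MP_0421d9_ag.LD

open MvPolynomial Module

namespace MM

theorem hPm_count {r : ℕ} (D : ℕ) (y : Fin r → ℕ) :
    (D + 2).choose 2 ≤ hPm D y + ∑ i, (y i + 1).choose 2 := by
  by_cases hmd : ∀ i, y i ≤ D + 1
  · exact chi_le (d := D) (p := gpt r) hmd
  · push Not at hmd
    obtain ⟨i, hi⟩ := hmd
    have h1 : (y i + 1).choose 2 ≤ ∑ l, (y l + 1).choose 2 :=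
      Finset.single_le_sum (f := fun l => (y l + 1).choose 2) (fun l _ => Nat.zero_le _)
        (Finset.mem_univ i)
    have h2 : (D + 2).choose 2 ≤ (y i + 1).choose 2 := Nat.choose_le_choose 2 (by omega)
    omega

/-- the expected dimension -/
def chi {r : ℕ} (D : ℕ) (y : Fin r → ℕ) : ℤ :=
  (((D + 2).choose 2 : ℕ) : ℤ) - ((∑ i, (y i + 1).choose 2 : ℕ) : ℤ)

end MM

end Pool.Agent.Work.MP_0421d9_ag.LD
end

section
/-!
Upper semicontinuity of the dimension of the linear systems in the Zariski topology: nonspeciality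
for generic points (algebraically independent coordinates) gives nonspeciality for all the points
outside of the zero set of a nonzero polynomial (helper7, after a request of helper79).
-/

namespace Pool.Agent.Work.MP_0421d9_ag.LD

open MvPolynomial Module

/-! ### semicontinuity with several parameters -/

section

variable {E : Type} [AddCommGroup E] [Module ℂ E] {σ : Type}

end

/-! ### the conditions depend polynomially on the points -/

section

variable {σ : Type}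

theorem linSys_eq_inf {r : ℕ} (d : ℕ) (p : Fin r → V3) (y : Fin r → ℕ) :
    linSys d p y = Rd d ⊓ ⨅ i, vanSub (p i) (y i) := by
  ext F
  rw [Submodule.mem_inf, Submodule.mem_iInf]
  rfl

end

/-! ### special parametrisations -/

/-! ### all degrees at once -/

/-- the expected dimension is a lower bound, for arbitrary points -/
theorem linSys_count {r d : ℕ} (p : Fin r → V3) (y : Fin r → ℕ) :
    (d + 2).choose 2 ≤ finrank ℂ (linSys d p y) + ∑ i, (y i + 1).choose 2 := by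
  classical
  have h : ∀ s : Finset (Fin r), (d + 2).choose 2 ≤
      finrank ℂ ↥(Rd d ⊓ ⨅ i ∈ s, vanSub (p i) (y i)) + ∑ i ∈ s, (y i + 1).choose 2 := by
    intro s
    induction s using Finset.induction_on with
    | empty =>
      have e1 : (Rd d ⊓ ⨅ i ∈ (∅ : Finset (Fin r)), vanSub (p i) (y i)) = Rd d := by simp
      rw [e1, finrank_Rd]
      exact Nat.le_add_right _ _
    | insert a s ha ih =>
      have h1 := finrank_le_van (m := y a) (p a) (Rd d ⊓ ⨅ i ∈ s, vanSub (p i) (y i))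
        inf_le_left
      have h2 : (Rd d ⊓ ⨅ i ∈ insert a s, vanSub (p i) (y i)) =
          (Rd d ⊓ ⨅ i ∈ s, vanSub (p i) (y i)) ⊓ vanSub (p a) (y a) := by
        rw [Finset.iInf_insert, inf_assoc, inf_comm (vanSub (p a) (y a))]
      rw [h2, Finset.sum_insert ha]
      omega
  have h1 := h Finset.univ
  have e2 : (⨅ i ∈ (Finset.univ : Finset (Fin r)), vanSub (p i) (y i)) =
      ⨅ i, vanSub (p i) (y i) := by simp
  rw [e2, ← linSys_eq_inf] at h1
  exact h1

/-- from degree `d` to degree `d + 1`, for points outside of the line `X 2 = 0` -/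
theorem linSys_succ_le {r d : ℕ} {p : Fin r → V3} (y : Fin r → ℕ) (hp : ∀ i, p i 2 ≠ 0) :
    finrank ℂ (linSys (d + 1) p y) ≤ finrank ℂ (linSys d p y) + (d + 2) := by
  set V := linSys (d + 1) p y with hV
  have hle : V ≤ Rd (d + 1) := fun F hF => hF.1
  have hfin : Module.Finite ℂ V := Submodule.finiteDimensional_of_le hle
  have hle' : linSys d p y ≤ Rd d := fun F hF => hF.1
  have hfin' : Module.Finite ℂ (linSys d p y) := Submodule.finiteDimensional_of_le hle'
  let ρ : R3 →ₗ[ℂ] (Fin (d + 2) → ℂ) :=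
    { toFun := fun F j => coeff (ex3 j (d + 1 - j) 0) F
      map_add' := fun F G => by
        funext z
        simp
      map_smul' := fun c F => by
        funext z
        simp }
  have h1 := finrank_eq_ker_add_map ρ V
  have h2 : finrank ℂ ↥(V.map ρ) ≤ d + 2 := by
    refine (Submodule.finrank_le _).trans ?_
    rw [finrank_fin_fun]
  have h3 : V ⊓ LinearMap.ker ρ ≤
      (linSys d p y).map (LinearMap.mulLeft ℂ (X 2 ^ 1 : R3)) := by
    rintro F ⟨hF, hF'⟩
    obtain ⟨h4, h5⟩ := hF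
    have h7 := LinearMap.mem_ker.mp hF'
    obtain ⟨G, hG1, hG2, hG3⟩ := exists_div_X2 (δ := d) (u := 1) h4 (fun α hα => by
      by_contra hcon
      have h10 := deg_eq h4 hα
      have h9 := congrFun h7 ⟨α 0, by omega⟩
      have h11 : ex3 (α 0) (d + 1 - α 0) 0 = α := by
        conv_rhs => rw [eq_ex3 α]
        congr 1
        · omega
        · omega
      change coeff (ex3 (α 0) (d + 1 - α 0) 0) F = 0 at h9
      rw [h11] at h9
      exact mem_support_iff.mp hα h9)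
    refine Submodule.mem_map.mpr ⟨G, ⟨hG1, fun i => ?_⟩, by rw [LinearMap.mulLeft_apply, hG2]⟩
    have h8 := h5 i
    rw [hG2] at h8
    exact vanishTo_of_X2_pow_mul (hp i) h8
  have h4 : finrank ℂ ↥(V ⊓ LinearMap.ker ρ) ≤ finrank ℂ (linSys d p y) :=
    (Submodule.finrank_mono h3).trans (Submodule.finrank_map_le _ _)
  have h5 : finrank ℂ V ≤ finrank ℂ (linSys d p y) + (d + 2) := by
    rw [h1]
    exact Nat.add_le_add h4 h2
  exact h5

/-- a nonspecial system with at least the expected number of conditions stays nonspecial in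
higher degree -/
theorem linSys_reg_mono {r d d' : ℕ} {p : Fin r → V3} (y : Fin r → ℕ) (hp : ∀ i, p i 2 ≠ 0)
    (hd : d ≤ d')
    (h : finrank ℂ (linSys d p y) + ∑ i, (y i + 1).choose 2 = (d + 2).choose 2) :
    finrank ℂ (linSys d' p y) + ∑ i, (y i + 1).choose 2 = (d' + 2).choose 2 := by
  induction d', hd using Nat.le_induction with
  | base => exact h
  | succ n hn ih =>
    have h1 := linSys_succ_le (d := n) y hp
    have h2 := linSys_count (d := n + 1) p y
    have h3 : (n + 1 + 2).choose 2 = (n + 2).choose 1 + (n + 2).choose 2 :=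
      Nat.choose_succ_succ' (n + 2) 1
    rw [Nat.choose_one_right] at h3
    omega

end Pool.Agent.Work.MP_0421d9_ag.LD
end

section
/-!
Definitions for the induction on the exponent.
-/

namespace Pool.Agent.Work.MP_0421d9_ag.LD

open MvPolynomial Module

/-- for multiplicity `μ` all systems with one side at least `Z` have maximal rank -/
def QM (η Z μ : ℕ) : Prop := ∀ H L N, η * μ ≤ H → η * μ ≤ L → Z ≤ H → MR H L μ N

/-- parameters: `s` margin, `W1, W2` window of the medium strips, `W3` bound for the thin strips,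
`Z` bound for the multiplicities -/
structure Par (η : ℕ) where
  (s W1 W2 W3 Z : ℕ)
  (hη : 1 ≤ η)
  (hs : 1 ≤ s)
  (h1 : 2 * ((2 * η + 1) * s) ≤ W1)
  (h2 : W1 + 2 * s + 1 ≤ W2)
  (h3 : 2 * W2 + W1 + 4 + s ≤ W3 + 1)
  (hZ2 : 2 * W3 ≤ Z)
  (hZη : η * W3 ≤ Z)
  (hQ : ∀ μ, 1 ≤ μ → μ ≤ W3 → QM η Z μ)

/-- maximal rank as soon as one side is at least `C k ^ (1 + θ)` -/
def QT (θ : ℝ) : Prop := ∃ (η : ℕ) (C : ℝ), 1 ≤ η ∧ 1 ≤ C ∧ ∀ k H L N : ℕ, 1 ≤ k → η * k ≤ H →
  η * k ≤ L → C * (k : ℝ) ^ (1 + θ) ≤ L → MR H L k N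

end Pool.Agent.Work.MP_0421d9_ag.LD
end

section
/-!
The medium strip with an odd number of points (helper7, after the plan of helper13).

An odd number of points of multiplicity `k` on `R × L` with `R` close to `3 k / 2` is transformed
into points of multiplicity `μ` close to `k / 2` and forms of degree `D` with at most `3 μ + ν`
in `X 2`. Three thin strips, each with an odd number of points, fill this system.
-/

namespace Pool.Agent.Work.MP_0421d9_ag.LD

open MvPolynomial Module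

/-! ### the number of monomials -/

/-- the number of monomials of degree `D` with exponent of `X 2` at most `κ` -/
def voN (D κ : ℕ) : ℤ := (κ + 1) * (D + 1) - (((κ + 1).choose 2 : ℕ) : ℤ)

theorem vo_two_choose (n : ℕ) : 2 * (((n + 1).choose 2 : ℕ) : ℤ) = n * (n + 1) := by
  exact_mod_cast two_mul_choose n

theorem two_voN (D κ : ℕ) : 2 * voN D κ = (κ + 1) * (2 * D + 2 - κ) := by
  have h := vo_two_choose κ
  unfold voN
  linear_combination -h

/-- maximal rank of the system of forms of degree `D` and degree at most `κ` in `X 2` -/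
def voF (D κ μ N : ℕ) : Prop :=
  (hF D κ μ N : ℤ) ≤ max 0 (voN D κ - N * (((μ + 1).choose 2 : ℕ) : ℤ))

theorem voN_succ {D κ : ℕ} (hκ : 1 ≤ κ) : voN D κ = voN D (κ - 1) + (D - κ + 1) := by
  obtain ⟨j, rfl⟩ : ∃ j, κ = j + 1 := ⟨κ - 1, by omega⟩
  have h1 := two_voN D (j + 1)
  have h2 := two_voN D j
  rw [Nat.add_sub_cancel]
  push_cast at h1 h2 ⊢
  have h3 : 2 * voN D (j + 1) = 2 * (voN D j + ((D : ℤ) - (j + 1) + 1)) := by
    linear_combination h1 - h2
  linarith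

/-- the rows below `κ` and the rest -/
theorem voN_split {D K κ : ℕ} (hκ : 1 ≤ κ) (hK : κ ≤ K) (hD : κ ≤ D) :
    voN D K = voN D (κ - 1) + voN (D - κ) (K - κ) := by
  obtain ⟨j, rfl⟩ : ∃ j, κ = j + 1 := ⟨κ - 1, by omega⟩
  obtain ⟨a, rfl⟩ : ∃ a, K = a + (j + 1) := ⟨K - (j + 1), by omega⟩
  obtain ⟨b, rfl⟩ : ∃ b, D = b + (j + 1) := ⟨D - (j + 1), by omega⟩
  rw [Nat.add_sub_cancel, Nat.add_sub_cancel, Nat.add_sub_cancel]
  have h1 := two_voN (b + (j + 1)) (a + (j + 1))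
  have h2 := two_voN (b + (j + 1)) j
  have h3 := two_voN b a
  push_cast at h1 h2 h3 ⊢
  have h4 : 2 * voN (b + (j + 1)) (a + (j + 1)) = 2 * (voN (b + (j + 1)) j + voN b a) := by
    linear_combination h1 - h2 - h3
  linarith

/-- the second rest -/
theorem voN_split' {D K κ : ℕ} (hK : κ + 1 ≤ K) (hD : κ + 1 ≤ D) :
    voN D K = voN D κ + voN (D - κ - 1) (K - κ - 1) := by
  have h := voN_split (D := D) (K := K) (κ := κ + 1) (by omega) hK hD
  rwa [Nat.add_sub_cancel] at h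

/-- at least `j` further rows -/
theorem voN_add (D n j : ℕ) : voN D n + j * (D + 1 - (n + j)) ≤ voN D (n + j) := by
  have h1 := two_voN D (n + j)
  have h2 := two_voN D n
  push_cast at h1
  have hj : (0 : ℤ) ≤ j := Int.natCast_nonneg j
  have hj2 : (j : ℤ) ≤ j * j := by
    rcases Nat.eq_zero_or_pos j with h | h
    · subst h; simp
    · have : (1 : ℤ) ≤ j := by exact_mod_cast h
      nlinarith
  nlinarith

/-! ### few points -/

theorem voF_anti {D κ μ N N' : ℕ} (hN : N ≤ N') (h : voF D κ μ N')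
    (hreg : (N' : ℤ) * (((μ + 1).choose 2 : ℕ) : ℤ) ≤ voN D κ) : voF D κ μ N := by
  unfold voF at h ⊢
  have h1 : hF D κ μ N ≤ hF D κ μ N' + (N' - N) * (μ + 1).choose 2 := hT_drop hN
  have h2 : (hF D κ μ N : ℤ) ≤ hF D κ μ N' + (N' - N) * (((μ + 1).choose 2 : ℕ) : ℤ) := by
    have h3 : ((hF D κ μ N : ℕ) : ℤ) ≤
        ((hF D κ μ N' + (N' - N) * (μ + 1).choose 2 : ℕ) : ℤ) := by exact_mod_cast h1
    rw [Nat.cast_add, Nat.cast_mul, Nat.cast_sub hN] at h3
    exact h3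
  rw [max_eq_right (by linarith)] at h
  refine le_trans ?_ (le_max_right _ _)
  linarith

theorem vo_hF_mono {D D' κ μ N : ℕ} (hD : D ≤ D') : hF D κ μ N ≤ hF D' κ μ N := by
  induction D', hD using Nat.le_induction with
  | base => exact le_rfl
  | succ n hn ih =>
    refine ih.trans (X_mul_le (fun α hα => ?_))
    change ((α + Finsupp.single 1 1 : Fin 3 →₀ ℕ)) 2 ≤ κ
    rw [Finsupp.add_apply, Finsupp.single_eq_of_ne (by decide), add_zero]
    exact hα

/-! ### peeling one strip -/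

theorem voF_step {D K κ μ t₁ p : ℕ} (hκ : 1 ≤ κ) (hK : κ + 1 ≤ K) (hD : K + 1 ≤ D)
    (hlo : voN D (κ - 1) ≤ (2 * t₁ + 1) * (((μ + 1).choose 2 : ℕ) : ℤ))
    (hhi : (2 * t₁ + 1) * (((μ + 1).choose 2 : ℕ) : ℤ) ≤ voN D κ)
    (h1 : voF D κ μ (2 * t₁ + 1)) (h0 : voF D (κ - 1) μ (2 * t₁ + 1))
    (hc1 : ∀ t, voF (D - κ) (K - κ) μ (2 * t + p))
    (hc2 : ∀ t, voF (D - κ - 1) (K - κ - 1) μ (2 * t + p))
    (hroom : (2 * t₁ + 1 + p) * (((μ + 1).choose 2 : ℕ) : ℤ) ≤ voN D K) {N : ℕ}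
    (hN : (N + p) % 2 = 1) : voF D K μ N := by
  have hmain : ∀ t, voF D K μ ((2 * t + p) + (2 * t₁ + 1)) := by
    intro t
    have e1 := voN_succ (D := D) hκ
    have e2 := voN_split (D := D) (K := K) (κ := κ) hκ (by omega) (by omega)
    have e3 := voN_split' (D := D) (K := K) (κ := κ) hK (by omega)
    obtain ⟨B, hB⟩ : ∃ B : ℕ, (B : ℤ) =
        voN D κ - (2 * t₁ + 1) * (((μ + 1).choose 2 : ℕ) : ℤ) :=
      ⟨_, Int.toNat_of_nonneg (by linarith)⟩
    have hBD : B ≤ D - κ + 1 := by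
      have : (B : ℤ) ≤ (D : ℤ) - κ + 1 := by linarith
      omega
    unfold voF at h1 h0
    push_cast at h1 h0
    rw [max_eq_right (by linarith), ← hB] at h1
    rw [max_eq_left (by linarith)] at h0
    have h1' : hF D κ μ (2 * t₁ + 1) ≤ B := by exact_mod_cast h1
    have h0' : hF D (κ - 1) μ (2 * t₁ + 1) = 0 := by
      have : hF D (κ - 1) μ (2 * t₁ + 1) ≤ 0 := by exact_mod_cast h0
      omega
    have h2 := hF_strip (r := 2 * t + p) hκ hK hD hBD h1' h0'
    have h3 := hc1 t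
    have h4 := hc2 t
    unfold voF at h3 h4 ⊢
    push_cast at h3 h4 ⊢
    generalize hF D K μ (2 * t + p + (2 * t₁ + 1)) = x at *
    generalize hF (D - κ) (K - κ) μ (2 * t + p) = x1 at *
    generalize hF (D - κ - 1) (K - κ - 1) μ (2 * t + p) = x2 at *
    have e4 : (2 * (t : ℤ) + p + (2 * t₁ + 1)) * (((μ + 1).choose 2 : ℕ) : ℤ) =
        (2 * t + p) * (((μ + 1).choose 2 : ℕ) : ℤ) +
          (2 * t₁ + 1) * (((μ + 1).choose 2 : ℕ) : ℤ) := by ring
    rw [e4]
    generalize (2 * (t : ℤ) + p) * (((μ + 1).choose 2 : ℕ) : ℤ) = y1 at *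
    generalize (2 * (t₁ : ℤ) + 1) * (((μ + 1).choose 2 : ℕ) : ℤ) = y2 at *
    generalize voN D K = n1 at *
    generalize voN D κ = n2 at *
    generalize voN D (κ - 1) = n3 at *
    generalize voN (D - κ) (K - κ) = n4 at *
    generalize voN (D - κ - 1) (K - κ - 1) = n5 at *
    omega
  by_cases hbig : 2 * t₁ + 1 + p ≤ N
  · have h2 := hmain ((N - (2 * t₁ + 1 + p)) / 2)
    have e1 : 2 * ((N - (2 * t₁ + 1 + p)) / 2) + p + (2 * t₁ + 1) = N := by omega
    rwa [e1] at h2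
  · have h2 := hmain 0
    refine voF_anti (by omega) h2 ?_
    have e1 : (((2 * 0 + p + (2 * t₁ + 1) : ℕ)) : ℤ) = 2 * t₁ + 1 + p := by push_cast; ring
    rw [e1]
    exact hroom

/-! ### the choice of the number of points -/

theorem vo_choose {D μ s x : ℕ} (hs : 1 ≤ s) (hμ : 1 ≤ μ) (hx : 1 ≤ x) (hxs : x + s ≤ μ)
    (hD : μ * (μ + 1) + s * (3 * μ) ≤ s * (D + 1)) :
    ∃ t₁ ν₁ : ℕ, x ≤ ν₁ ∧ ν₁ + 1 ≤ x + s ∧
      voN D (μ + ν₁ - 1) ≤ (2 * (t₁ : ℤ) + 1) * (((μ + 1).choose 2 : ℕ) : ℤ) ∧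
      (2 * (t₁ : ℤ) + 1) * (((μ + 1).choose 2 : ℕ) : ℤ) ≤ voN D (μ + ν₁) := by
  classical
  have hc := vo_two_choose μ
  set c : ℤ := (((μ + 1).choose 2 : ℕ) : ℤ) with hcdef
  have hμ' : (1 : ℤ) ≤ μ := by exact_mod_cast hμ
  have hs' : (1 : ℤ) ≤ s := by exact_mod_cast hs
  have hx' : (1 : ℤ) ≤ x := by exact_mod_cast hx
  have hxs' : (x : ℤ) + s ≤ μ := by exact_mod_cast hxs
  have hD' : (μ : ℤ) * (μ + 1) + s * (3 * μ) ≤ s * (D + 1) := by exact_mod_cast hD
  have hc1 : 1 ≤ c := by nlinarith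
  have hD3 : 3 * (μ : ℤ) ≤ D + 1 := by
    by_contra hcon
    push Not at hcon
    have h1 : (s : ℤ) * (D + 1) ≤ s * (3 * μ) := mul_le_mul_of_nonneg_left hcon.le (by linarith)
    nlinarith
  set X := voN D (μ + x - 1) with hX
  -- the rows from `μ + x` on
  have hrows : X + 2 * c ≤ voN D (μ + x - 1 + s) := by
    have h1 := voN_add D (μ + x - 1) s
    have h2 : (((μ + x - 1 : ℕ)) : ℤ) = μ + x - 1 := by
      rw [Nat.cast_sub (by omega)]; push_cast; ring
    rw [h2] at h1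
    have h3 : (s : ℤ) * (3 * μ) ≤ s * (D + 1) - 2 * c := by linarith
    have h4 : (s : ℤ) * (μ + x - 1 + s) ≤ s * (3 * μ) :=
      mul_le_mul_of_nonneg_left (by linarith) (by linarith)
    have h5 : (s : ℤ) * (D + 1 - (μ + x - 1 + s)) = s * (D + 1) - s * (μ + x - 1 + s) := by ring
    linarith
  have hXc : c ≤ X := by
    have h1 := two_voN D (μ + x - 1)
    have h2 : (((μ + x - 1 : ℕ)) : ℤ) = μ + x - 1 := by
      rw [Nat.cast_sub (by omega)]; push_cast; ring
    rw [h2, ← hX] at h1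
    have h3 : (μ : ℤ) + 1 ≤ 2 * D + 2 - (μ + x - 1) := by linarith
    have h4 : (μ : ℤ) * (μ + 1) ≤ (μ + x - 1 + 1) * (2 * D + 2 - (μ + x - 1)) :=
      mul_le_mul (by linarith) h3 (by linarith) (by linarith)
    linarith
  -- the number of points
  have hex : ∃ t : ℕ, X ≤ (2 * t + 1) * c := by
    refine ⟨X.toNat, ?_⟩
    have h1 : X ≤ (X.toNat : ℤ) := Int.self_le_toNat X
    have h2 : (0 : ℤ) ≤ (X.toNat : ℤ) := Int.natCast_nonneg _
    nlinarith
  obtain ⟨t₁, ht₁, hmin⟩ : ∃ t₁ : ℕ, X ≤ (2 * t₁ + 1) * c ∧ (2 * (t₁ : ℤ) + 1) * c ≤ X + 2 * c := by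
    refine ⟨Nat.find hex, Nat.find_spec hex, ?_⟩
    rcases Nat.eq_zero_or_pos (Nat.find hex) with h | h
    · rw [h]; push_cast; linarith
    · have h1 := Nat.find_min hex (m := Nat.find hex - 1) (by omega)
      rw [Nat.cast_sub h] at h1
      push Not at h1
      push_cast at h1
      linarith
  -- the number of rows
  have hex2 : ∃ j : ℕ, (2 * (t₁ : ℤ) + 1) * c ≤ voN D (μ + x - 1 + j) :=
    ⟨s, hmin.trans hrows⟩
  have hf1 := Nat.find_spec hex2
  have hf2 : Nat.find hex2 ≤ s := Nat.find_min' hex2 (hmin.trans hrows)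
  rcases Nat.eq_zero_or_pos (Nat.find hex2) with h | h
  · rw [h, Nat.add_zero] at hf1
    refine ⟨t₁, x, le_rfl, by omega, ht₁, hf1.trans ?_⟩
    have h1 := voN_succ (D := D) (κ := μ + x) (by omega)
    rw [h1]
    push_cast
    linarith
  · refine ⟨t₁, x - 1 + Nat.find hex2, by omega, by omega, ?_, ?_⟩
    · have h1 := Nat.find_min hex2 (m := Nat.find hex2 - 1) (by omega)
      push Not at h1
      have e1 : μ + x - 1 + (Nat.find hex2 - 1) = μ + (x - 1 + Nat.find hex2) - 1 := by omega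
      rw [e1] at h1
      exact h1.le
    · have e1 : μ + x - 1 + Nat.find hex2 = μ + (x - 1 + Nat.find hex2) := by omega
      rw [e1] at hf1
      exact hf1

/-! ### one thin strip -/

theorem vo_hD3 {D μ s a : ℕ} (hs : 1 ≤ s)
    (hD : μ * (μ + 1) + s * (a * μ) ≤ s * (D + 1)) : a * μ ≤ D + 1 := by
  have h1 : s * (a * μ) ≤ s * (D + 1) := le_trans (Nat.le_add_left _ _) hD
  exact Nat.le_of_mul_le_mul_left h1 hs

theorem Par.vo_T1 {η : ℕ} (P : Par η) {D μ ν : ℕ} (hμ : P.Z ≤ μ)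
    (hD : μ * (μ + 1) + P.s * (3 * μ) ≤ P.s * (D + 1)) (h1 : 2 * η * P.s ≤ ν + 1)
    (h2 : ν ≤ P.W3) (t : ℕ) : voF D (μ + ν) μ (2 * t + 1) := by
  have hη := P.hη
  have hs := P.hs
  have hZ2 := P.hZ2
  have hZη := P.hZη
  have hD3 := vo_hD3 hs hD
  have hηs : 1 ≤ η * P.s := Nat.mul_pos hη hs
  have h1' : 2 * (η * P.s) ≤ ν + 1 := by rw [← Nat.mul_assoc]; exact h1
  have hν1 : 1 ≤ ν := by omega
  have hην : η * ν ≤ μ := (Nat.mul_le_mul_left η h2).trans (hZη.trans hμ)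
  have hc := vo_two_choose μ
  have hcν := vo_two_choose ν
  have hn := two_voN D (μ + ν)
  have hμz : (2 * (ν : ℤ)) ≤ μ := by
    have : 2 * ν ≤ μ := by omega
    exact_mod_cast this
  have hD3z : 3 * (μ : ℤ) ≤ D + 1 := by exact_mod_cast hD3
  have hν1z : (1 : ℤ) ≤ ν := by exact_mod_cast hν1
  push_cast at hn
  -- the case `t ≥ 1`
  have hmain : ∀ t, 1 ≤ t → voF D (μ + ν) μ (2 * t + 1) := by
    intro t ht
    rcases Nat.lt_or_ge (D + (μ + ν) * t + 1) (μ * (2 * t + 1) + η * ν) with hlt | hge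
    · -- empty
      obtain ⟨D', hD'⟩ : ∃ D', D' + (μ + ν) * t + 1 = μ * (2 * t + 1) + η * ν :=
        ⟨μ * (2 * t + 1) + η * ν - ((μ + ν) * t + 1), by omega⟩
      have hDD : D ≤ D' := by omega
      have e1 := transform (D := D') (κ := μ + ν) (m := μ) (t := t) (H := η * ν) (k := ν) ht rfl
        (by omega) (by omega)
      have e2 : MR (μ + ν + 1) (η * ν) ν (2 * t + 1) :=
        P.hQ ν hν1 h2 _ _ _ (by omega) le_rfl (by omega)
      have e3 := e2.swap.emp (by
        -- `η (κ + 1) ≤ N (ν + 1) / 2`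
        have g1 : D + 1 < t * (μ - ν) + 2 * μ := by
          obtain ⟨a, rfl⟩ : ∃ a, μ = a + ν := ⟨μ - ν, by omega⟩
          rw [Nat.add_sub_cancel]
          have g2 : (a + ν + ν) * t = t * a + 2 * (ν * t) := by ring
          have g3 : (a + ν) * (2 * t + 1) = 2 * (t * a) + 2 * (ν * t) + (a + ν) := by ring
          omega
        have g4 : P.s * (D + 1) ≤ P.s * (t * (μ - ν) + 2 * μ) :=
          Nat.mul_le_mul_left _ g1.le
        have g5 : μ * (μ + 1) + P.s * μ ≤ P.s * t * μ := by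
          have g6 : P.s * (t * (μ - ν) + 2 * μ) = P.s * t * (μ - ν) + P.s * (2 * μ) := by ring
          have g7 : P.s * t * (μ - ν) ≤ P.s * t * μ := Nat.mul_le_mul_left _ (Nat.sub_le _ _)
          have g8 : P.s * (3 * μ) = P.s * μ + P.s * (2 * μ) := by ring
          omega
        have g9 : μ + 1 + P.s ≤ P.s * t := by
          have g10 : (μ + 1 + P.s) * μ ≤ P.s * t * μ := by
            calc (μ + 1 + P.s) * μ = μ * (μ + 1) + P.s * μ := by ring
              _ ≤ _ := g5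
          exact Nat.le_of_mul_le_mul_right g10 (by omega)
        have g11 : 2 * (ν + 1).choose 2 = ν * (ν + 1) := two_mul_choose ν
        have g12 : 2 * (η * ν * (μ + ν + 1)) ≤ 2 * ((2 * t + 1) * (ν + 1).choose 2) := by
          calc 2 * (η * ν * (μ + ν + 1)) ≤ 2 * (η * ν * (P.s * (2 * t + 1))) := by
                refine Nat.mul_le_mul_left _ (Nat.mul_le_mul_left _ ?_)
                have g13 : P.s * (2 * t + 1) = 2 * (P.s * t) + P.s := by ring
                omega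
            _ = (2 * t + 1) * ν * (2 * (η * P.s)) := by ring
            _ ≤ (2 * t + 1) * ν * (ν + 1) := Nat.mul_le_mul_left _ h1'
            _ = (2 * t + 1) * (2 * (ν + 1).choose 2) := by rw [g11]; ring
            _ = 2 * ((2 * t + 1) * (ν + 1).choose 2) := by ring
        omega)
      have e4 : hF D (μ + ν) μ (2 * t + 1) = 0 := by
        have := vo_hF_mono (κ := μ + ν) (μ := μ) (N := 2 * t + 1) hDD
        omega
      unfold voF
      rw [e4]
      exact le_max_left _ _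
    · -- the rectangle
      obtain ⟨H, hH⟩ : ∃ H, H + μ * (2 * t + 1) = D + (μ + ν) * t + 1 :=
        ⟨D + (μ + ν) * t + 1 - μ * (2 * t + 1), by omega⟩
      have e1 := transform (D := D) (κ := μ + ν) (m := μ) (t := t) (H := H) (k := ν) ht rfl
        (by omega) hH
      have e2 : MR (μ + ν + 1) H ν (2 * t + 1) :=
        P.hQ ν hν1 h2 _ _ _ (by omega) (by omega) (by omega)
      have e3 := e2.swap
      unfold MR at e3
      rw [e3] at e1
      have hHz : (H : ℤ) + μ * (2 * t + 1) = D + (μ + ν) * t + 1 := by exact_mod_cast hH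
      have e4 : 2 * (voN D (μ + ν) - (2 * t + 1) * (((μ + 1).choose 2 : ℕ) : ℤ)) =
          2 * (((H * (μ + ν + 1) : ℕ) : ℤ) - (((2 * t + 1) * (ν + 1).choose 2 : ℕ) : ℤ)) := by
        push_cast
        linear_combination hn - (2 * t + 1 : ℤ) * hc + (2 * t + 1 : ℤ) * hcν -
          2 * (μ + ν + 1 : ℤ) * hHz
      unfold voF
      push_cast
      generalize H * (μ + ν + 1) = y1 at *
      generalize (2 * t + 1) * (ν + 1).choose 2 = y2 at *
      generalize (2 * (t : ℤ) + 1) * (((μ + 1).choose 2 : ℕ) : ℤ) = y3 at *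
      omega
  rcases Nat.eq_zero_or_pos t with ht | ht
  · subst ht
    refine voF_anti (N' := 2 * 1 + 1) (by omega) (hmain 1 le_rfl) ?_
    push_cast
    nlinarith
  · exact hmain t ht

/-! ### two and three thin strips -/

theorem vo_hD_sub {D D' μ s a b e : ℕ} (hD : μ * (μ + 1) + s * (a * μ) ≤ s * (D + 1))
    (hDD : D ≤ D' + e) (he : b * μ + e ≤ a * μ) :
    μ * (μ + 1) + s * (b * μ) ≤ s * (D' + 1) := by
  have h1 : s * (D + 1) ≤ s * (D' + 1 + e) := Nat.mul_le_mul_left _ (by omega)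
  have h2 : s * (b * μ + e) ≤ s * (a * μ) := Nat.mul_le_mul_left _ he
  have h3 : s * (D' + 1 + e) = s * (D' + 1) + s * e := by ring
  have h4 : s * (b * μ + e) = s * (b * μ) + s * e := by ring
  omega

/-- the widths -/
theorem Par.vo_w {η : ℕ} (P : Par η) : 1 ≤ η * P.s ∧ 1 ≤ P.s ∧
    2 * (2 * (η * P.s) + P.s) ≤ P.W1 ∧ P.W1 + 2 * P.s + 1 ≤ P.W2 ∧
    2 * P.W2 + P.W1 + 4 + P.s ≤ P.W3 + 1 ∧ 2 * P.W3 ≤ P.Z ∧ 2 * η * P.s = 2 * (η * P.s) := by
  have h1 := P.h1
  have e1 : 2 * ((2 * η + 1) * P.s) = 2 * (2 * (η * P.s) + P.s) := by ring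
  exact ⟨Nat.mul_pos P.hη P.hs, P.hs, by omega, P.h2, P.h3, P.hZ2, by ring⟩

theorem Par.vo_T2 {η : ℕ} (P : Par η) {D μ ν : ℕ} (hμ : P.Z ≤ μ)
    (hD : μ * (μ + 1) + P.s * (5 * μ) ≤ P.s * (D + 1)) (h1 : 4 * (η * P.s) + P.s ≤ ν + 1)
    (h2 : ν ≤ P.W3 + 2 * (η * P.s)) (t : ℕ) : voF D (2 * μ + ν) μ (2 * t) := by
  obtain ⟨w1, w2, w3, w4, w5, w6, w7⟩ := P.vo_w
  have hD5 := vo_hD3 w2 hD
  have hD3 : μ * (μ + 1) + P.s * (3 * μ) ≤ P.s * (D + 1) := vo_hD_sub hD (Nat.le_add_right D 0)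
    (by omega)
  obtain ⟨t₁, ν₁, a1, a2, a3, a4⟩ := vo_choose (D := D) (μ := μ) (s := P.s)
    (x := 2 * (η * P.s)) w2 (by omega) (by omega) (by omega) hD3
  have hc := vo_two_choose μ
  have e1 : μ + ν₁ - 1 = μ + (ν₁ - 1) := by omega
  have e2 : 2 * μ + ν - (μ + ν₁) = μ + (ν - ν₁) := by omega
  have e3 : μ + (ν - ν₁) - 1 = μ + (ν - ν₁ - 1) := by omega
  refine voF_step (κ := μ + ν₁) (t₁ := t₁) (p := 1) (by omega) (by omega) (by omega) a3 a4
    (P.vo_T1 hμ hD3 (by omega) (by omega) t₁) ?_ (fun t => ?_) (fun t => ?_) ?_ (by omega)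
  · rw [e1]
    exact P.vo_T1 hμ hD3 (by omega) (by omega) t₁
  · rw [e2]
    exact P.vo_T1 hμ (vo_hD_sub hD (D' := D - (μ + ν₁)) (e := μ + ν₁) (by omega) (by omega))
      (by omega) (by omega) t
  · rw [e2, e3]
    exact P.vo_T1 hμ (vo_hD_sub hD (D' := D - (μ + ν₁) - 1) (e := μ + ν₁ + 1) (by omega)
      (by omega)) (by omega) (by omega) t
  · have h3 := voN_add D (μ + ν₁) (μ + (ν - ν₁))
    have e4 : μ + ν₁ + (μ + (ν - ν₁)) = 2 * μ + ν := by omega
    rw [e4] at h3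
    have e5 : ((μ + (ν - ν₁) : ℕ) : ℤ) = μ + (ν - ν₁ : ℕ) := by push_cast; ring
    have e6 : (((μ + ν₁ : ℕ) : ℤ)) + ((μ + (ν - ν₁) : ℕ) : ℤ) = 2 * μ + ν := by
      exact_mod_cast e4
    rw [e6, e5] at h3
    have h4 : (5 : ℤ) * μ ≤ D + 1 := by exact_mod_cast hD5
    have h5 : (ν : ℤ) ≤ μ := by
      have : ν ≤ μ := by omega
      exact_mod_cast this
    have h6 : (0 : ℤ) ≤ ((ν - ν₁ : ℕ) : ℤ) := Int.natCast_nonneg _
    have h7 : (1 : ℤ) ≤ μ := by
      have : 1 ≤ μ := by omega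
      exact_mod_cast this
    have h8 : (μ : ℤ) * (2 * μ) ≤ (μ + ((ν - ν₁ : ℕ) : ℤ)) * (D + 1 - (2 * μ + ν)) :=
      mul_le_mul (by linarith) (by linarith) (by linarith) (by linarith)
    push_cast at a4 h3 ⊢
    nlinarith

theorem Par.vo_T3 {η : ℕ} (P : Par η) {D μ ν : ℕ} (hμ : P.Z ≤ μ)
    (hD : μ * (μ + 1) + P.s * (7 * μ) ≤ P.s * (D + 1))
    (h1 : 6 * (η * P.s) + 2 * P.s ≤ ν + 1)
    (h2 : ν ≤ P.W3 + 4 * (η * P.s)) (t : ℕ) : voF D (3 * μ + ν) μ (2 * t + 1) := by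
  obtain ⟨w1, w2, w3, w4, w5, w6, w7⟩ := P.vo_w
  have hD7 := vo_hD3 w2 hD
  have hD3 : μ * (μ + 1) + P.s * (3 * μ) ≤ P.s * (D + 1) := vo_hD_sub hD (Nat.le_add_right D 0)
    (by omega)
  obtain ⟨t₁, ν₁, a1, a2, a3, a4⟩ := vo_choose (D := D) (μ := μ) (s := P.s)
    (x := 2 * (η * P.s)) w2 (by omega) (by omega) (by omega) hD3
  have e1 : μ + ν₁ - 1 = μ + (ν₁ - 1) := by omega
  have e2 : 3 * μ + ν - (μ + ν₁) = 2 * μ + (ν - ν₁) := by omega
  have e3 : 2 * μ + (ν - ν₁) - 1 = 2 * μ + (ν - ν₁ - 1) := by omega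
  refine voF_step (κ := μ + ν₁) (t₁ := t₁) (p := 0) (by omega) (by omega) (by omega) a3 a4
    (P.vo_T1 hμ hD3 (by omega) (by omega) t₁) ?_ (fun t => ?_) (fun t => ?_) ?_ (by omega)
  · rw [e1]
    exact P.vo_T1 hμ hD3 (by omega) (by omega) t₁
  · rw [e2, Nat.add_zero]
    exact P.vo_T2 hμ (vo_hD_sub hD (D' := D - (μ + ν₁)) (e := μ + ν₁) (by omega) (by omega))
      (by omega) (by omega) t
  · rw [e2, e3, Nat.add_zero]
    exact P.vo_T2 hμ (vo_hD_sub hD (D' := D - (μ + ν₁) - 1) (e := μ + ν₁ + 1) (by omega)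
      (by omega)) (by omega) (by omega) t
  · have h3 := voN_add D (μ + ν₁) (2 * μ + (ν - ν₁))
    have e4 : μ + ν₁ + (2 * μ + (ν - ν₁)) = 3 * μ + ν := by omega
    rw [e4] at h3
    have e6 : (((μ + ν₁ : ℕ) : ℤ)) + ((2 * μ + (ν - ν₁) : ℕ) : ℤ) = 3 * μ + ν := by
      exact_mod_cast e4
    rw [e6] at h3
    have h4 : (7 : ℤ) * μ ≤ D + 1 := by exact_mod_cast hD7
    have h5 : (ν : ℤ) ≤ μ := by
      have : ν ≤ μ := by omega
      exact_mod_cast this
    have h6 : (0 : ℤ) ≤ ((2 * μ + (ν - ν₁) : ℕ) : ℤ) := Int.natCast_nonneg _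
    have h8 : (0 : ℤ) ≤ ((2 * μ + (ν - ν₁) : ℕ) : ℤ) * (D + 1 - (3 * μ + ν)) :=
      mul_nonneg h6 (by linarith)
    rw [Nat.cast_zero, add_zero]
    linarith

/-! ### the odd medium strip -/

theorem Par.odd {η : ℕ} (P : Par η) {k L R : ℕ} (hk : 2 * P.Z + 4 * (P.W2 + 1) ≤ k)
    (hγ : k * (k + 1) * (P.Z + 12 * P.s) ≤ P.s * P.Z * L)
    (h1 : 2 * R + 2 * P.W1 ≤ 3 * k) (h2 : 3 * k ≤ 2 * R + 2 * P.W2) : GO k L R := by
  obtain ⟨w1, w2, w3, w4, w5, w6, w7⟩ := P.vo_w
  obtain ⟨μ, hμ⟩ : ∃ μ, R = k + μ + 1 := ⟨R - 1 - k, by omega⟩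
  obtain ⟨ν, hν⟩ : ∃ ν, k = 2 * μ + ν := ⟨k - 2 * μ, by omega⟩
  have hZμ : P.Z ≤ μ := by omega
  have hνμ : ν ≤ μ := by omega
  have hZ1 : 1 ≤ P.Z := by omega
  have hk1 : 1 ≤ k := by omega
  have hμ1 : 1 ≤ μ := by omega
  -- the length
  have hL : k * (k + 1) ≤ P.s * L := by
    have g1 : k * (k + 1) * P.Z ≤ P.s * L * P.Z := by
      calc k * (k + 1) * P.Z ≤ k * (k + 1) * (P.Z + 12 * P.s) :=
            Nat.mul_le_mul_left _ (Nat.le_add_right _ _)
        _ ≤ P.s * P.Z * L := hγ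
        _ = P.s * L * P.Z := by ring
    exact Nat.le_of_mul_le_mul_right g1 hZ1
  have hc : 2 * (k + 1).choose 2 = k * (k + 1) := two_mul_choose k
  -- one number of points
  have hone : ∀ t, 1 ≤ t → (2 * t - 1) * (k * (k + 1)) ≤ 2 * (R * L) → MR R L k (2 * t + 1) := by
    intro t ht hNt
    have hNz : (2 * (t : ℤ) - 1) * (k * (k + 1)) ≤ 2 * (R * L) := by
      have h3 : (((2 * t - 1) * (k * (k + 1)) : ℕ) : ℤ) ≤ ((2 * (R * L) : ℕ) : ℤ) := by
        exact_mod_cast hNt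
      rw [Nat.cast_mul, Nat.cast_sub (by omega)] at h3
      push_cast at h3
      exact h3
    have hRz : (R : ℤ) = k + μ + 1 := by exact_mod_cast hμ
    have hkz : (k : ℤ) = 2 * μ + ν := by exact_mod_cast hν
    have hνz : (ν : ℤ) ≤ μ := by exact_mod_cast hνμ
    have hk1z : (1 : ℤ) ≤ k := by exact_mod_cast hk1
    have hμ1z : (1 : ℤ) ≤ μ := by exact_mod_cast hμ1
    have hν0 : (0 : ℤ) ≤ ν := Int.natCast_nonneg _
    have hLz : (0 : ℤ) ≤ L := Int.natCast_nonneg _
    have hsz : (1 : ℤ) ≤ (P.s : ℤ) := by exact_mod_cast w2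
    have hZz : (1 : ℤ) ≤ (P.Z : ℤ) := by exact_mod_cast hZ1
    have hZμz : (P.Z : ℤ) ≤ μ := by exact_mod_cast hZμ
    have hγz : (k : ℤ) * (k + 1) * (P.Z + 12 * P.s) ≤ P.s * P.Z * L := by exact_mod_cast hγ
    obtain ⟨e, he⟩ : ∃ e : ℤ, e = L + μ - t * (k - μ) := ⟨_, rfl⟩
    have hkk : (0 : ℤ) < k * (k + 1) := by positivity
    -- `k (k + 1) e ≥ μ (μ + 1) L`
    have g1 : (μ : ℤ) * (μ + 1) * L ≤ k * (k + 1) * e := by
      have g2 : (k - μ : ℤ) * ((2 * (t : ℤ) - 1) * (k * (k + 1))) ≤ (k - μ) * (2 * (R * L)) :=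
        mul_le_mul_of_nonneg_left hNz (by linarith)
      have g3 : 2 * ((k : ℤ) * (k + 1) * e) = 2 * (μ * (μ + 1) * L) +
          ((k - μ) * (2 * (R * L)) - (k - μ : ℤ) * ((2 * (t : ℤ) - 1) * (k * (k + 1)))) +
          k * (k + 1) * (3 * μ - k) := by
        rw [he, hRz]
        ring
      have g4 : (0 : ℤ) ≤ k * (k + 1) * (3 * μ - k) := mul_nonneg hkk.le (by linarith)
      linarith
    have g5 : (μ : ℤ) * (μ + 1) * (P.Z + 12 * P.s) ≤ P.s * P.Z * e := by
      have g6 : (k : ℤ) * (k + 1) * (μ * (μ + 1) * (P.Z + 12 * P.s)) ≤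
          k * (k + 1) * (P.s * P.Z * e) := by
        have g7 : (μ : ℤ) * (μ + 1) * (k * (k + 1) * (P.Z + 12 * P.s)) ≤
            μ * (μ + 1) * (P.s * P.Z * L) := mul_le_mul_of_nonneg_left hγz (by positivity)
        have g8 : (P.s : ℤ) * P.Z * (μ * (μ + 1) * L) ≤ P.s * P.Z * (k * (k + 1) * e) :=
          mul_le_mul_of_nonneg_left g1 (by positivity)
        calc (k : ℤ) * (k + 1) * (μ * (μ + 1) * (P.Z + 12 * P.s))
            = μ * (μ + 1) * (k * (k + 1) * (P.Z + 12 * P.s)) := by ring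
          _ ≤ μ * (μ + 1) * (P.s * P.Z * L) := g7
          _ = P.s * P.Z * (μ * (μ + 1) * L) := by ring
          _ ≤ P.s * P.Z * (k * (k + 1) * e) := g8
          _ = k * (k + 1) * (P.s * P.Z * e) := by ring
      exact le_of_mul_le_mul_left g6 hkk
    have g9 : (μ : ℤ) * (μ + 1) + P.s * (7 * μ) ≤ P.s * e := by
      have g10 : (P.Z : ℤ) * (μ * (μ + 1) + P.s * (7 * μ)) ≤ P.Z * (P.s * e) := by
        have g11 : (P.Z : ℤ) * (P.s * (7 * μ)) ≤ μ * (P.s * (7 * μ)) :=
          mul_le_mul_of_nonneg_right hZμz (by positivity)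
        have g12 : (0 : ℤ) ≤ P.s * (μ * μ) := by positivity
        have g13 : (0 : ℤ) ≤ P.s * μ := by positivity
        nlinarith
      exact le_of_mul_le_mul_left g10 (by linarith)
    have he1 : 1 ≤ e := by
      by_contra hcon
      push Not at hcon
      have g14 : (P.s : ℤ) * e ≤ 0 := mul_nonpos_of_nonneg_of_nonpos (by linarith) (by linarith)
      have g15 : (0 : ℤ) < μ * (μ + 1) + P.s * (7 * μ) := by positivity
      linarith
    obtain ⟨D, hD⟩ : ∃ D : ℕ, (D : ℤ) = e - 1 := ⟨_, Int.toNat_of_nonneg (by linarith)⟩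
    have hDs : μ * (μ + 1) + P.s * (7 * μ) ≤ P.s * (D + 1) := by
      have : (μ : ℤ) * (μ + 1) + P.s * (7 * μ) ≤ P.s * (D + 1) := by
        rw [hD]; linarith
      exact_mod_cast this
    have hDt : D + 1 + t * k = L + t * μ + μ := by
      have : (D : ℤ) + 1 + t * k = L + t * μ + μ := by
        rw [hD, he]; ring
      exact_mod_cast this
    have htr := transform_odd (H := L) (D := D) (κ := k + μ) (k := k) (μ := μ) (t := t) ht rfl hDt
    have hT3 := P.vo_T3 (D := D) (μ := μ) (ν := ν) hZμ hDs (by omega) (by omega) t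
    have e1 : 3 * μ + ν = k + μ := by omega
    rw [e1] at hT3
    rw [hμ]
    apply MR.swap
    apply MR_of_le
    unfold voF at hT3
    have hn := two_voN D (k + μ)
    have hck := vo_two_choose k
    have hcμ := vo_two_choose μ
    push_cast at hn
    have e2 : 2 * (voN D (k + μ) - (2 * t + 1) * (((μ + 1).choose 2 : ℕ) : ℤ)) =
        2 * (((L * (k + μ + 1) : ℕ) : ℤ) - (((2 * t + 1) * (k + 1).choose 2 : ℕ) : ℤ)) := by
      push_cast
      have hDtz : (D : ℤ) + 1 + t * k = L + t * μ + μ := by exact_mod_cast hDt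
      linear_combination hn - (2 * t + 1 : ℤ) * hcμ + (2 * t + 1 : ℤ) * hck +
        2 * (k + μ + 1 : ℤ) * hDtz
    push_cast at hT3
    generalize L * (k + μ + 1) = y1 at *
    generalize (2 * t + 1) * (k + 1).choose 2 = y2 at *
    generalize (2 * (t : ℤ) + 1) * (((μ + 1).choose 2 : ℕ) : ℤ) = y3 at *
    omega
  -- the critical number of points
  have hck1 : 1 ≤ (k + 1).choose 2 := Nat.choose_pos (by omega)
  have hRL : 3 * (k + 1).choose 2 ≤ R * L := by
    have g1 : 2 * (P.s * (3 * (k + 1).choose 2)) ≤ 2 * (P.s * (R * L)) := by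
      calc 2 * (P.s * (3 * (k + 1).choose 2)) = 3 * P.s * (2 * (k + 1).choose 2) := by ring
        _ = 3 * P.s * (k * (k + 1)) := by rw [hc]
        _ ≤ 3 * P.s * (P.s * L) := Nat.mul_le_mul_left _ hL
        _ = P.s * (3 * P.s * L) := by ring
        _ ≤ P.s * (2 * R * L) := by
            refine Nat.mul_le_mul_left _ (Nat.mul_le_mul_right _ ?_)
            omega
        _ = 2 * (P.s * (R * L)) := by ring
    have g2 : P.s * (3 * (k + 1).choose 2) ≤ P.s * (R * L) := by omega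
    exact Nat.le_of_mul_le_mul_left g2 w2
  set N₀ := R * L / (k + 1).choose 2 with hN₀
  have hN1 : N₀ * (k + 1).choose 2 ≤ R * L := Nat.div_mul_le_self _ _
  have hN2 : R * L < (N₀ + 1) * (k + 1).choose 2 := by
    have := Nat.lt_succ_iff.mpr (le_refl N₀)
    exact (Nat.div_lt_iff_lt_mul hck1).mp this
  have hN3 : 3 ≤ N₀ := (Nat.le_div_iff_mul_le hck1).mpr hRL
  obtain ⟨t, ht⟩ : ∃ t, 2 * t + 1 ≤ N₀ ∧ N₀ ≤ 2 * t + 2 := ⟨(N₀ - 1) / 2, by omega, by omega⟩
  have ht1 : 1 ≤ t := by omega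
  have hlow : (2 * t + 1) * (k + 1).choose 2 ≤ R * L :=
    (Nat.mul_le_mul_right _ ht.1).trans hN1
  have hup : R * L ≤ (2 * (t + 1) + 1) * (k + 1).choose 2 :=
    hN2.le.trans (Nat.mul_le_mul_right _ (by omega))
  rw [← GP_one]
  refine GP_of_two (t := t) hlow hup (hone t ht1 ?_) (hone (t + 1) (by omega) ?_)
  · calc (2 * t - 1) * (k * (k + 1)) ≤ (2 * t + 1) * (k * (k + 1)) :=
          Nat.mul_le_mul_right _ (by omega)
      _ = 2 * ((2 * t + 1) * (k + 1).choose 2) := by rw [← hc]; ring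
      _ ≤ 2 * (R * L) := Nat.mul_le_mul_left _ hlow
  · have e1 : 2 * (t + 1) - 1 = 2 * t + 1 := by omega
    rw [e1]
    calc (2 * t + 1) * (k * (k + 1)) = 2 * ((2 * t + 1) * (k + 1).choose 2) := by rw [← hc]; ring
      _ ≤ 2 * (R * L) := Nat.mul_le_mul_left _ hlow

end Pool.Agent.Work.MP_0421d9_ag.LD
end

section
/-!
Strips of the plane with gain: the common end of the constructions.
-/

namespace Pool.Agent.Work.MP_0421d9_ag.LD

open MvPolynomial Module

theorem StripK.pstep {r D κ A : ℕ} {y y' : Fin r → ℕ} (h : StripK D κ A y y') :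
    PStep D κ A y y' := by
  obtain ⟨N, e, he, h1, h2, h3, h4, h5, rfl⟩ := h
  refine ⟨h1, h2, h3, fun i => ?_, ?_, ?_⟩
  · by_cases hi : i ∈ Set.range e
    · obtain ⟨k, rfl⟩ := hi
      exact Or.inr (rest_mem k)
    · exact Or.inl (rest_not_mem hi)
  · have h6 := mp_sum_rest he y (fun a => (a + 1).choose 2) (by decide)
    omega
  · obtain ⟨δ, rfl⟩ : ∃ δ, D = δ + 1 + κ := ⟨D - κ - 1, by omega⟩
    have e1 : δ + 1 + κ - κ = δ + 1 := by omega
    have e2 : δ + 1 - 1 = δ := by omega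
    rw [e1, e2]
    exact peelm he h1 (by omega) h5

theorem gain_of {D G r u N κ A B : ℕ} {y : Fin r → ℕ} {P : Finset (Fin r)} (e : Fin N → Fin r)
    (he : Function.Injective e) (heP : ∀ k, e k ∈ P) (hκ1 : 1 ≤ κ) (hκD : κ + 1 ≤ D)
    (hκu : κ ≤ 2 * u) (hAB : A + B = D - κ + 1)
    (hcount : A + κ * (D + 1) = ∑ k, (y (e k) + 1).choose 2 + κ.choose 2)
    (hK : Killsm D (y ∘ e) {α | α 2 < κ ∨ (α 2 = κ ∧ α 0 < A)})
    (h1 : 1 ≤ ∑ k, y (e k)) (hA : ∑ k, y (e k) ≤ G * A) (hB : ∑ k, y (e k) ≤ G * B) :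
    StripGain D G P y u := by
  refine ⟨κ, A, rest e y, ∑ k, y (e k), ⟨N, e, he, hκ1, hκD, by omega, hcount, hK, rfl⟩, ?_, ?_,
    hκu, h1, hA, ?_⟩
  · intro i hi
    apply rest_not_mem
    rintro ⟨k, rfl⟩
    exact hi (heP k)
  · have h2 := mp_sum_rest he y (fun a => a) rfl
    omega
  · have h2 : D - κ + 1 - A = B := by omega
    rw [h2]
    exact hB

/-- the strip is given by two systems with few rows -/
theorem gain_of_hFm {D G r u N κ A B : ℕ} {y : Fin r → ℕ} {P : Finset (Fin r)} (e : Fin N → Fin r)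
    (he : Function.Injective e) (heP : ∀ k, e k ∈ P) (hκ1 : 1 ≤ κ) (hκD : κ + 1 ≤ D)
    (hκu : κ ≤ 2 * u) (hAB : A + B = D - κ + 1)
    (hcount : A + κ * (D + 1) = ∑ k, (y (e k) + 1).choose 2 + κ.choose 2)
    (h1 : hFm D κ (y ∘ e) ≤ B) (h0 : hFm D (κ - 1) (y ∘ e) = 0)
    (h2 : 1 ≤ ∑ k, y (e k)) (hA : ∑ k, y (e k) ≤ G * A) (hB : ∑ k, y (e k) ≤ G * B) :
    StripGain D G P y u := by
  refine gain_of e he heP hκ1 hκD hκu hAB hcount ?_ h2 hA hB
  have h3 := kills_of_hFm hκ1 (by omega) (B := B) (by omega) h1 h0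
  have h4 : D - κ + 1 - B = A := by omega
  rwa [h4] at h3

/-- enumeration of `N` points of `P` -/
theorem exists_enum {r N : ℕ} (P : Finset (Fin r)) (hN : N ≤ P.card) :
    ∃ e : Fin N → Fin r, Function.Injective e ∧ ∀ k, e k ∈ P := by
  obtain ⟨Q, hQ, hc⟩ := Finset.exists_subset_card_eq hN
  refine ⟨Q.orderEmbOfFin hc, (Q.orderEmbOfFin hc).injective, fun k => hQ ?_⟩
  exact Finset.orderEmbOfFin_mem Q hc k

end Pool.Agent.Work.MP_0421d9_ag.LD
end

section
/-!
One arbitrary multiplicity: definitions.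
-/

namespace Pool.Agent.Work.MP_0421d9_ag.LD

open MvPolynomial Module

/-- all systems with one multiplicity `m₀`, all other multiplicities `m i ≤ c ≤ T`, and degree
`D ≥ m₀ + ρ c` are nonspecial -/
def FQ (T ρ : ℕ) : Prop := ∀ (r c D m₀ : ℕ) (m : Fin r → ℕ), 1 ≤ c → c ≤ T → (∀ i, m i ≤ c) →
  m₀ + ρ * c ≤ D → hPm D (Fin.cons m₀ m : Fin (r + 1) → ℕ) =
    (D + 2).choose 2 - ((m₀ + 1).choose 2 + ∑ i, (m i + 1).choose 2)

/-- the windows for systems with one arbitrary multiplicity -/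
def WinQ (T ρ : ℕ) : Prop := ∀ (r c D m₀ : ℕ) (m : Fin r → ℕ), 1 ≤ c → (∀ i, m i ≤ c) →
  m₀ + 6 * ρ * (c + 1) ≤ D →
    (T * D ^ 2 + 6 * c ^ 2 ≤ T * (m₀ ^ 2 + ∑ i, m i ^ 2) →
      hPm D (Fin.cons m₀ m : Fin (r + 1) → ℕ) = 0) ∧
    (T * (m₀ ^ 2 + 23 * m₀ + ∑ i, m i ^ 2 + 23 * ∑ i, m i) + 6 * (c + 1) ^ 2 ≤ T * D ^ 2 →
      hPm D (Fin.cons m₀ m : Fin (r + 1) → ℕ) + (m₀ + 1).choose 2 + ∑ i, (m i + 1).choose 2 =
        (D + 2).choose 2)

end Pool.Agent.Work.MP_0421d9_ag.LD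
end

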