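import Pool.Agent.Work.Z0421M.C04
import Pool.Agent.Work.Z0421M.C12
import Pool.Agent.Work.Z0421M.C14

section
/-!
Growth of the rank along a fibre of `P¹ × P¹`, for linear systems with generic points of
arbitrary multiplicities (helper25, after URank of helper79).
-/

namespace Pool.Agent.Work.MP_0421d9_ag.LD

open MvPolynomial Module

namespace Rkm

open Rk (cD_X' cD_C' vanishTo_cD_dir vanishTo_pderiv vanishTo_fixed vanishTo_dir vanishTo_moved rho
  rho_apply ex3_add single0 single1 single2 coeff_X_mul_of_eq coeff_X_mul_eq_zero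
  exists_of_coeff_X_mul rho_X1 rho_cD coeff_cD_ne rho_moved exists_derivation_moving dir_two
  pderiv_two_coeff_ne eq_top_of_stable exists_div_X0)

section

variable {H N : ℕ} {k : Fin N → ℕ}

/-- the systems -/
noncomputable def V (H : ℕ) {N : ℕ} (k : Fin N → ℕ) (L : ℕ) : Submodule ℂ R3 :=
  TSm (H + L - 2) (rect H L) k (gpt N)

/-- the ranks along the fibre -/
noncomputable def W (H : ℕ) {N : ℕ} (k : Fin N → ℕ) (L : ℕ) : Submodule ℂ (Fin H → ℂ) :=
  (V H k L).map (rho H (H + L - 2))

theorem mem_V {L : ℕ} {F : R3} : F ∈ V H k L ↔ F.IsHomogeneous (H + L - 2) ∧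
    (∀ i, VanishTo F (gpt N i) (k i)) ∧ ∀ α, coeff α F ≠ 0 → α 2 < H ∧ α 0 < L := mem_TSm

/-- `V` in terms of the support -/
theorem mem_V' {L : ℕ} {F : R3} (h1 : ∀ α, coeff α F ≠ 0 →
    α.degree = H + L - 2 ∧ α 2 < H ∧ α 0 < L) (h2 : ∀ i, VanishTo F (gpt N i) (k i)) :
    F ∈ V H k L := by
  rw [mem_V]
  refine ⟨fun α hα => ?_, h2, fun α hα => (h1 α hα).2⟩
  have h3 := (h1 α hα).1
  rw [Finsupp.degree_eq_sum] at h3
  rw [Finsupp.weight_apply, Finsupp.sum_fintype]
  · simpa using h3
  · simp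

theorem V_spec {L : ℕ} {F : R3} (hF : F ∈ V H k L) : ∀ α, coeff α F ≠ 0 →
    α.degree = H + L - 2 ∧ α 2 < H ∧ α 0 < L := by
  intro α hα
  rw [mem_V] at hF
  exact ⟨degree_of_mem_support hF.1 hα, hF.2.2 α hα⟩

theorem finrank_V (L : ℕ) : finrank ℂ (V H k L) = hRm H L k := rfl

instance finite_V (L : ℕ) : Module.Finite ℂ (V H k L) := finite_TSm _ _ _ _

theorem X1_mem {L : ℕ} (hL : 1 ≤ L) {F : R3} (hF : F ∈ V H k L) :
    X 1 * F ∈ V H k (L + 1) := by
  refine mem_V' (fun α hα => ?_) (fun i => vanishTo_X_mul 1 ((mem_V.mp hF).2.1 i))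
  obtain ⟨β, rfl, hβ⟩ := exists_of_coeff_X_mul hα
  obtain ⟨h1, h2, h3⟩ := V_spec hF β hβ
  rw [map_add, Finsupp.degree_single, Finsupp.add_apply, Finsupp.add_apply,
    Finsupp.single_eq_of_ne (by decide), Finsupp.single_eq_of_ne (by decide)]
  omega

theorem W_le_succ {L : ℕ} (hL : 1 ≤ L) : W H k L ≤ W H k (L + 1) := by
  rintro _ ⟨F, hF, rfl⟩
  exact ⟨X 1 * F, X1_mem hL hF, rho_X1 hL F⟩

/-- a derivation which fixes all points -/
theorem cD_fixed_mem {L : ℕ} {Δ : Derivation ℚ ℂ ℂ} (hΔ : ∀ i l, Δ (gpt N i l) = 0) {F : R3}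
    (hF : F ∈ V H k L) : cD Δ F ∈ V H k L :=
  mem_V' (fun α hα => V_spec hF α (coeff_cD_ne hα))
    (fun i => vanishTo_fixed Δ (hΔ i) ((mem_V.mp hF).2.1 i))

/-- a derivation which moves only the point `j` -/
theorem cD_moved_mem {L : ℕ} (hL : 1 ≤ L) {Δ : Derivation ℚ ℂ ℂ} {j : Fin N}
    (hΔ : ∀ i, i ≠ j → ∀ l, Δ (gpt N i l) = 0) {F : R3}
    (hF : F ∈ V H k L) :
    (C (gpt N j 1) * X 0 - C (gpt N j 0) * X 1) * cD Δ F ∈ V H k (L + 1) := by
  have hV := (mem_V.mp hF).2.1
  refine mem_V' (fun α hα => ?_) (fun i => ?_)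
  · have h1 : (C (gpt N j 1) * X 0 - C (gpt N j 0) * X 1) * cD Δ F =
        C (gpt N j 1) * (X 0 * cD Δ F) - C (gpt N j 0) * (X 1 * cD Δ F) := by ring
    rw [h1, coeff_sub, coeff_C_mul, coeff_C_mul] at hα
    have h2 : coeff α (X 0 * cD Δ F) ≠ 0 ∨ coeff α (X 1 * cD Δ F) ≠ 0 := by
      by_contra hcon
      push Not at hcon
      rw [hcon.1, hcon.2, mul_zero, mul_zero, sub_zero] at hα
      exact hα rfl
    rcases h2 with h2 | h2
    · obtain ⟨β, rfl, hβ⟩ := exists_of_coeff_X_mul h2
      obtain ⟨h3, h4, h5⟩ := V_spec hF β (coeff_cD_ne hβ)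
      rw [map_add, Finsupp.degree_single, Finsupp.add_apply, Finsupp.add_apply,
        Finsupp.single_eq_of_ne (by decide), Finsupp.single_eq_same]
      omega
    · obtain ⟨β, rfl, hβ⟩ := exists_of_coeff_X_mul h2
      obtain ⟨h3, h4, h5⟩ := V_spec hF β (coeff_cD_ne hβ)
      rw [map_add, Finsupp.degree_single, Finsupp.add_apply, Finsupp.add_apply,
        Finsupp.single_eq_of_ne (by decide), Finsupp.single_eq_of_ne (by decide)]
      omega
  · by_cases hi : i = j
    · subst hi
      have h1 : VanishTo (C (gpt N i 1) * X 0 - C (gpt N i 0) * X 1) (gpt N i) 1 := by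
        rw [vanishTo_one_iff', map_sub, map_mul, map_mul, eval_C, eval_C, eval_X, eval_X]
        ring
      exact (vanishTo_mul h1 (vanishTo_moved Δ (hV i))).mono (by omega)
    · have h1 := vanishTo_mul (vanishTo_zero (C (gpt N j 1) * X 0 - C (gpt N j 0) * X 1)
        (gpt N i)) (vanishTo_fixed Δ (hΔ i hi) (hV i))
      rwa [zero_add] at h1

/-- every derivation maps `W L` to `W (L + 1)` -/
theorem deriv_mem {L : ℕ} (hL : 1 ≤ L) (Δ : Derivation ℚ ℂ ℂ) {g : Fin H → ℂ}
    (hg : g ∈ W H k L) : (fun c => Δ (g c)) ∈ W H k (L + 1) := by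
  classical
  obtain ⟨E, hE⟩ := exists_dual (gpt N) (gpt_generic N)
  obtain ⟨F, hF, rfl⟩ := hg
  set Δj : Fin N → Derivation ℚ ℂ ℂ := fun j => mv E j (fun l => Δ (gpt N j l)) with hΔj
  set Δ0 : Derivation ℚ ℂ ℂ := Δ - ∑ j, Δj j with hΔ0
  have hval : ∀ j i l, Δj j (gpt N i l) = if i = j then Δ (gpt N i l) else 0 := by
    intro j i l
    split_ifs with h
    · subst h
      exact mv_self hE i _ l
    · exact mv_ne hE h _ l
  have hsum : ∀ c : ℂ, (∑ j, Δj j) c = ∑ j, Δj j c := by
    intro c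
    have h1 : ∀ s : Finset (Fin N), (∑ j ∈ s, Δj j) c = ∑ j ∈ s, Δj j c := by
      intro s
      induction s using Finset.induction_on with
      | empty => simp
      | insert a s ha ih =>
        rw [Finset.sum_insert ha, Finset.sum_insert ha, Derivation.add_apply, ih]
    exact h1 Finset.univ
  have h0 : ∀ i l, Δ0 (gpt N i l) = 0 := by
    intro i l
    rw [hΔ0, Derivation.sub_apply, hsum]
    have h1 : ∑ j, Δj j (gpt N i l) = Δ (gpt N i l) := by
      rw [Finset.sum_eq_single i]
      · rw [hval, if_pos rfl]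
      · intro j _ hj
        rw [hval, if_neg hj.symm]
      · intro h
        exact absurd (Finset.mem_univ i) h
    rw [h1, sub_self]
  have hdec : (fun c => Δ (rho H (H + L - 2) F c)) =
      (fun c => Δ0 (rho H (H + L - 2) F c)) +
        ∑ j, (fun c => Δj j (rho H (H + L - 2) F c)) := by
    funext c
    rw [Pi.add_apply, Finset.sum_apply, hΔ0, Derivation.sub_apply, hsum]
    ring
  rw [hdec]
  refine Submodule.add_mem _ ?_ (Submodule.sum_mem _ fun j _ => ?_)
  · apply W_le_succ hL
    exact ⟨cD Δ0 F, cD_fixed_mem h0 hF, rho_cD _ _ _⟩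
  · have h1 : (C (gpt N j 1) * X 0 - C (gpt N j 0) * X 1) * cD (Δj j) F ∈ V H k (L + 1) :=
      cD_moved_mem hL (fun i hi l => by rw [hval, if_neg hi]) hF
    have h2 := Submodule.mem_map_of_mem (f := rho H (H + (L + 1) - 2)) h1
    rw [rho_moved hL, rho_cD] at h2
    have h3 := Submodule.smul_mem _ (-(gpt N j 0))⁻¹ h2
    rw [smul_smul, inv_mul_cancel₀ (neg_ne_zero.mpr (gpt_ne j 0)), one_smul] at h3
    exact h3

theorem dn_mem {L : ℕ} (hL : 1 ≤ L) {g : Fin H → ℂ} (hg : g ∈ W H k L) :
    Rk.dn g ∈ W H k (L + 1) := by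
  have hg' := hg
  obtain ⟨F, hF, rfl⟩ := hg
  have hV := (mem_V.mp hF).2.1
  obtain ⟨Δ, hΔ⟩ := exists_derivation_moving (N := N) (fun i => gpt N i 1)
  have h1 : cD Δ F + X 1 * pderiv 2 F ∈ V H k L := by
    refine mem_V' (fun α hα => ?_) (fun i => ?_)
    · by_cases h2 : coeff α (cD Δ F) = 0
      · rw [coeff_add, h2, zero_add] at hα
        obtain ⟨β, rfl, hβ⟩ := exists_of_coeff_X_mul hα
        obtain ⟨h3, h4, h5⟩ := V_spec hF _ (pderiv_two_coeff_ne hβ)
        rw [map_add, Finsupp.degree_single] at h3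
        rw [Finsupp.add_apply, Finsupp.single_eq_same] at h4
        rw [Finsupp.add_apply, Finsupp.single_eq_of_ne (by decide)] at h5
        rw [map_add, Finsupp.degree_single, Finsupp.add_apply, Finsupp.add_apply,
          Finsupp.single_eq_of_ne (by decide), Finsupp.single_eq_of_ne (by decide)]
        omega
      · exact V_spec hF α (coeff_cD_ne h2)
    · have h2 := vanishTo_cD_dir Δ (hV i)
      rw [hΔ i, dir_two] at h2
      have h3 : VanishTo (X 1 - C (gpt N i 1)) (gpt N i) 1 := by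
        rw [vanishTo_one_iff', map_sub, eval_X, eval_C, sub_self]
      have h4 := (vanishTo_mul h3 (vanishTo_pderiv 2 (hV i))).mono (by omega : k i ≤ 1 + (k i - 1))
      have h5 := (vanSub (gpt N i) (k i)).add_mem h2 h4
      have h6 : cD Δ F + X 1 * pderiv 2 F = cD Δ F + C (gpt N i 1) * pderiv 2 F +
          (X 1 - C (gpt N i 1)) * pderiv 2 F := by ring
      rw [h6]
      exact h5
  have h2 := W_le_succ hL (Submodule.mem_map_of_mem (f := rho H (H + L - 2)) h1)
  rw [map_add, rho_cD] at h2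
  have h3 := Submodule.sub_mem _ h2 (deriv_mem hL Δ hg')
  rw [add_sub_cancel_left] at h3
  have h4 : Rk.dn (rho H (H + L - 2) F) = rho H (H + L - 2) (X 1 * pderiv 2 F) := by
    funext c
    have hc := c.2
    rw [rho_apply]
    unfold Rk.dn
    split_ifs with h
    · rw [coeff_X_mul_of_eq (β := ex3 0 (H + L - 2 - (c + 1)) c), coeff_pderiv, rho_apply]
      · rw [single2, ex3_add, ex3_two]
        simp only [Nat.add_zero]
        ring
      · rw [single1, ex3_add]
        congr 1
        omega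
    · symm
      by_contra hcon
      obtain ⟨β, hβ, hβ'⟩ := exists_of_coeff_X_mul hcon
      obtain ⟨h5, h6, h7⟩ := V_spec hF _ (pderiv_two_coeff_ne hβ')
      rw [Finsupp.add_apply, Finsupp.single_eq_same] at h6
      have h8 := DFunLike.congr_fun hβ 2
      rw [ex3_two, Finsupp.add_apply, Finsupp.single_eq_of_ne (by decide)] at h8
      omega
  rw [h4]
  exact h3

theorem up_mem {L : ℕ} (hL : 1 ≤ L) {g : Fin H → ℂ} (hg : g ∈ W H k L) :
    Rk.up g ∈ W H k (L + 1) := by
  have hg' := hg
  obtain ⟨F, hF, rfl⟩ := hg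
  have hV := (mem_V.mp hF).2.1
  obtain ⟨Δ, hΔ⟩ := exists_derivation_moving (N := N) (fun i => gpt N i 2 ^ 2 / gpt N i 1)
  have h1 : X 1 * cD Δ F + X 2 * th 2 (H - 1) F ∈ V H k (L + 1) := by
    refine mem_V' (fun α hα => ?_) (fun i => ?_)
    · by_cases h2 : coeff α (X 1 * cD Δ F) = 0
      · rw [coeff_add, h2, zero_add] at hα
        obtain ⟨β, rfl, hβ⟩ := exists_of_coeff_X_mul hα
        rw [coeff_th] at hβ
        obtain ⟨h3, h4, h5⟩ := V_spec hF _ (right_ne_zero_of_mul hβ)
        have h6 : β 2 ≠ H - 1 := by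
          intro h7
          apply left_ne_zero_of_mul hβ
          rw [h7, sub_self]
        rw [map_add, Finsupp.degree_single, Finsupp.add_apply, Finsupp.add_apply,
          Finsupp.single_eq_same, Finsupp.single_eq_of_ne (by decide)]
        omega
      · obtain ⟨β, rfl, hβ⟩ := exists_of_coeff_X_mul h2
        obtain ⟨h3, h4, h5⟩ := V_spec hF β (coeff_cD_ne hβ)
        rw [map_add, Finsupp.degree_single, Finsupp.add_apply, Finsupp.add_apply,
          Finsupp.single_eq_of_ne (by decide), Finsupp.single_eq_of_ne (by decide)]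
        omega
    · have h2 := vanishTo_cD_dir Δ (hV i)
      rw [hΔ i, dir_two] at h2
      have h2' := vanishTo_X_mul 1 h2
      have h3 : VanishTo (X 2 ^ 2 - C (gpt N i 2 ^ 2 / gpt N i 1) * X 1) (gpt N i) 1 := by
        rw [vanishTo_one_iff', map_sub, map_pow, map_mul, eval_X, eval_C, eval_X,
          div_mul_cancel₀ _ (gpt_ne i 1), sub_self]
      have h4 := (vanishTo_mul h3 (vanishTo_pderiv 2 (hV i))).mono (by omega : k i ≤ 1 + (k i - 1))
      have h5 := vanishTo_mul (vanishTo_zero (C ((H - 1 : ℕ) : ℂ) * X 2) (gpt N i)) (hV i)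
      rw [zero_add] at h5
      have h6 := (vanSub (gpt N i) (k i)).sub_mem ((vanSub (gpt N i) (k i)).add_mem h2' h4) h5
      have h7 : X 1 * cD Δ F + X 2 * th 2 (H - 1) F =
          X 1 * (cD Δ F + C (gpt N i 2 ^ 2 / gpt N i 1) * pderiv 2 F) +
          (X 2 ^ 2 - C (gpt N i 2 ^ 2 / gpt N i 1) * X 1) * pderiv 2 F -
          C ((H - 1 : ℕ) : ℂ) * X 2 * F := by
        unfold LD.th
        ring
      rw [h7]
      exact h6
  have h2 := Submodule.mem_map_of_mem (f := rho H (H + (L + 1) - 2)) h1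
  rw [map_add, rho_X1 hL, rho_cD] at h2
  have h3 := Submodule.sub_mem _ h2 (deriv_mem hL Δ hg')
  rw [add_sub_cancel_left] at h3
  have h4 : Rk.up (rho H (H + L - 2) F) = rho H (H + (L + 1) - 2) (X 2 * th 2 (H - 1) F) := by
    funext c
    have hc := c.2
    rw [rho_apply]
    unfold Rk.up
    split_ifs with h
    · rw [coeff_X_mul_of_eq (β := ex3 0 (H + L - 2 - (c - 1)) (c - 1)), coeff_th, rho_apply,
        ex3_two]
      · congr 1
        obtain ⟨c', hc'⟩ : ∃ c', (c : ℕ) = c' + 1 := ⟨c - 1, by omega⟩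
        obtain ⟨H', hH'⟩ : ∃ H', H = H' + 1 := ⟨H - 1, by omega⟩
        rw [hc', Nat.add_sub_cancel]
        rw [show H - 1 = H' by omega]
        rw [show (H : ℂ) = H' + 1 by rw [hH']; push_cast; rfl]
        push_cast
        ring
      · rw [single2, ex3_add]
        congr 1
        · omega
        · omega
    · rw [coeff_X_mul_eq_zero]
      rw [ex3_two]
      omega
  rw [h4]
  exact h3

/-! ### the dimension of `W` -/

theorem finrank_ker (hH : 1 ≤ H) (L : ℕ) :
    finrank ℂ ↥(V H k (L + 1) ⊓ LinearMap.ker (rho H (H + (L + 1) - 2))) = hRm H L k := by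
  rcases Nat.eq_zero_or_pos L with hL | hL
  · subst hL
    rw [hRm_zero_right, Submodule.finrank_eq_zero, Submodule.eq_bot_iff]
    rintro F ⟨hF, hF'⟩
    ext α
    rw [coeff_zero]
    by_contra hα
    obtain ⟨h1, h2, h3⟩ := V_spec hF α hα
    have h4 := congrFun (LinearMap.mem_ker.mp hF') ⟨α 2, h2⟩
    rw [rho_apply, Pi.zero_apply] at h4
    apply hα
    have h5 : ex3 0 (H + (0 + 1) - 2 - (⟨α 2, h2⟩ : Fin H)) (⟨α 2, h2⟩ : Fin H) = α := by
      conv_rhs => rw [eq_ex3 α]
      rw [degree_three] at h1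
      change ex3 0 (H + (0 + 1) - 2 - α 2) (α 2) = _
      congr 1
      · omega
      · omega
    rwa [h5] at h4
  · have hmap : V H k (L + 1) ⊓ LinearMap.ker (rho H (H + (L + 1) - 2)) =
        (V H k L).map (LinearMap.mulLeft ℂ (X 0 : R3)) := by
      apply le_antisymm
      · rintro F ⟨hF, hF'⟩
        have hF2 := mem_V.mp hF
        have e1 : H + (L + 1) - 2 = (H + L - 2) + 1 := by omega
        have h0 : F.IsHomogeneous ((H + L - 2) + 1) := by rw [← e1]; exact hF2.1
        obtain ⟨G, hG1, hG2, hG3⟩ := exists_div_X0 h0 (fun α hα => by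
          by_contra hcon
          rw [MvPolynomial.mem_support_iff] at hα
          obtain ⟨h1, h2, h3⟩ := V_spec hF α hα
          have h4 := congrFun (LinearMap.mem_ker.mp hF') ⟨α 2, h2⟩
          rw [rho_apply, Pi.zero_apply] at h4
          apply hα
          have h5 : ex3 0 (H + (L + 1) - 2 - (⟨α 2, h2⟩ : Fin H)) (⟨α 2, h2⟩ : Fin H) = α := by
            conv_rhs => rw [eq_ex3 α]
            rw [degree_three] at h1
            change ex3 0 (H + (L + 1) - 2 - α 2) (α 2) = _
            congr 1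
            · omega
            · omega
          rwa [h5] at h4)
        refine ⟨G, ?_, by rw [LinearMap.mulLeft_apply, hG2]⟩
        refine mem_V.mpr ⟨hG1, fun i => ?_, fun β hβ => ?_⟩
        · have h1 := hF2.2.1 i
          have h2 : (X 0 : R3) = lin ![1, 0, 0] := by
            unfold lin
            simp [Fin.sum_univ_three]
          rw [hG2, h2] at h1
          refine vanishTo_of_mul_ne h1 ?_
          rw [← h2, eval_X]
          exact gpt_ne i 0
        · rw [hG3] at hβ
          obtain ⟨h1, h2, h3⟩ := V_spec hF _ hβ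
          rw [Finsupp.add_apply, Finsupp.single_eq_of_ne (by decide), zero_add] at h2
          rw [Finsupp.add_apply, Finsupp.single_eq_same] at h3
          exact ⟨h2, by omega⟩
      · rintro _ ⟨G, hG, rfl⟩
        rw [LinearMap.mulLeft_apply]
        refine Submodule.mem_inf.mpr ⟨?_, ?_⟩
        · refine mem_V' (fun α hα => ?_) (fun i => vanishTo_X_mul 0 ((mem_V.mp hG).2.1 i))
          obtain ⟨β, rfl, hβ⟩ := exists_of_coeff_X_mul hα
          obtain ⟨h1, h2, h3⟩ := V_spec hG β hβ
          rw [map_add, Finsupp.degree_single, Finsupp.add_apply, Finsupp.add_apply,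
            Finsupp.single_eq_of_ne (by decide), Finsupp.single_eq_same]
          omega
        · rw [LinearMap.mem_ker]
          funext c
          rw [rho_apply, coeff_X_mul_eq_zero (ex3_zero _ _ _), Pi.zero_apply]
    rw [hmap, finrank_map_mulLeft (X_ne_zero _)]
    exact finrank_V L

end

end Rkm

/-- growth of the rank -/
theorem rank_growth_m {H N : ℕ} {k : Fin N → ℕ} (hH : 1 ≤ H) : ∃ w : ℕ → ℕ,
    (∀ L, hRm H (L + 1) k = hRm H L k + w L) ∧ (∀ L, w L ≤ H) ∧ (∀ L, w L ≤ w (L + 1)) ∧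
      ∀ L, 0 < w L → w L < H → w L < w (L + 1) := by
  refine ⟨fun L => finrank ℂ (Rkm.W H k (L + 1)), fun L => ?_, fun L => ?_, fun L => ?_,
    fun L h0 h1 => ?_⟩
  · have h1 := finrank_eq_ker_add_map (Rk.rho H (H + (L + 1) - 2)) (Rkm.V H k (L + 1))
    rw [Rkm.finrank_V, Rkm.finrank_ker hH] at h1
    exact h1
  · refine (Submodule.finrank_le _).trans ?_
    rw [finrank_fin_fun]
  · exact Submodule.finrank_mono (Rkm.W_le_succ (Nat.succ_pos L))
  · have hle : Rkm.W H k (L + 1) ≤ Rkm.W H k (L + 1 + 1) := Rkm.W_le_succ (Nat.succ_pos L)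
    refine lt_of_le_of_ne (Submodule.finrank_mono hle) (fun heq => ?_)
    have h2 : Rkm.W H k (L + 1) = Rkm.W H k (L + 1 + 1) := Submodule.eq_of_le_of_finrank_eq hle heq
    have h3 : Rkm.W H k (L + 1) ≠ ⊥ := by
      intro h4
      change 0 < finrank ℂ ↥(Rkm.W H k (L + 1)) at h0
      rw [h4, finrank_bot] at h0
      exact absurd h0 (lt_irrefl 0)
    have h4 := Rk.eq_top_of_stable (Rkm.W H k (L + 1)) h3
      (fun g hg => by rw [h2]; exact Rkm.dn_mem (Nat.succ_pos L) hg)
      (fun g hg => by rw [h2]; exact Rkm.up_mem (Nat.succ_pos L) hg)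
    change finrank ℂ ↥(Rkm.W H k (L + 1)) < H at h1
    rw [h4, finrank_top, finrank_fin_fun] at h1
    exact absurd h1 (lt_irrefl _)

end Pool.Agent.Work.MP_0421d9_ag.LD
end

section
/-!
Many columns. Regularity on `P¹ × P¹` for `k i ≤ H`, `∑ k i ≤ L`, by points on a line (helper25).
-/

namespace Pool.Agent.Work.MP_0421d9_ag.LD

open MvPolynomial Module

namespace UAm

open UA (rh rw' rw'_coeff rw'_coeff_hom pow_dvd_rw' sum_sub' Wd mem_Wd finrank_Wd_le sp rwL)

noncomputable def Pp {N : ℕ} (n : Fin N → ℕ) : Polynomial ℂ :=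
  ∏ i : Fin N, (Polynomial.X - Polynomial.C ((i : ℕ) : ℂ)) ^ n i

theorem Pp_ne_zero {N : ℕ} (n : Fin N → ℕ) : Pp n ≠ 0 :=
  Finset.prod_ne_zero_iff.mpr fun _ _ => pow_ne_zero _ (Polynomial.X_sub_C_ne_zero _)

theorem natDegree_Pp {N : ℕ} (n : Fin N → ℕ) : (Pp n).natDegree = ∑ i, n i := by
  unfold Pp
  rw [Polynomial.natDegree_prod _ _
    (fun _ _ => pow_ne_zero _ (Polynomial.X_sub_C_ne_zero _))]
  exact Finset.sum_congr rfl (fun i _ => by
    rw [Polynomial.natDegree_pow, Polynomial.natDegree_X_sub_C, mul_one])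

theorem Pp_dvd {N : ℕ} {n : Fin N → ℕ} {f : Polynomial ℂ}
    (h : ∀ i : Fin N, (Polynomial.X - Polynomial.C ((i : ℕ) : ℂ)) ^ n i ∣ f) : Pp n ∣ f := by
  unfold Pp
  refine Finset.prod_dvd_of_coprime ?_ (fun i _ => h i)
  intro i _ j _ hij
  apply IsCoprime.pow
  apply Polynomial.pairwise_coprime_X_sub_C (s := fun i : Fin N => ((i : ℕ) : ℂ)) ?_ hij
  intro a b hab
  exact Fin.ext (Nat.cast_injective hab)

theorem upper {H L N : ℕ} {k : Fin N → ℕ} :
    hRm H L k ≤ ∑ c ∈ Finset.range H, (L - ∑ i, (k i - c)) := by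
  refine (hTm_le (sp N)).trans ?_
  let Φ : TSm (H + L - 2) (rect H L) k (sp N) →ₗ[ℂ]
      ((c : Fin H) → Wd (Pp (fun i => k i - c)) L (∑ i, (k i - c))) :=
    LinearMap.pi fun c => LinearMap.codRestrict _ ((rwL c).comp (Submodule.subtype _)) (by
      rintro ⟨F, hF⟩
      obtain ⟨h1, h2, h3⟩ := mem_TSm.mp hF
      change rw' F c ∈ _
      refine mem_Wd (Pp_ne_zero _) (natDegree_Pp _) (Pp_dvd fun i => pow_dvd_rw' (h2 i) c) ?_
      intro a ha
      rw [rw'_coeff]
      refine Finset.sum_eq_zero fun α hα => ?_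
      rw [if_neg]
      rintro ⟨-, h0⟩
      have h4 : α 0 < L := (h3 α (mem_support_iff.mp hα)).2
      omega)
  have hΦ : Function.Injective Φ := by
    rw [← LinearMap.ker_eq_bot, LinearMap.ker_eq_bot']
    rintro ⟨F, hF⟩ h0
    obtain ⟨h1, h2, h3⟩ := mem_TSm.mp hF
    rw [Submodule.mk_eq_zero]
    ext β
    rw [coeff_zero]
    by_contra hβ
    obtain ⟨h4, h5⟩ := h3 β hβ
    apply hβ
    rw [← rw'_coeff_hom h1 β (by
      have h6 : Finsupp.weight 1 β = H + L - 2 := h1 hβ
      have h7 : β.degree = Finsupp.weight 1 β :=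
        congrArg (fun f => f β) (Finsupp.degree_eq_weight_one (σ := Fin 3) (R := ℕ))
      rw [h7, h6])]
    have h8 : rw' F (β 2) = 0 := congrArg Subtype.val (congrFun h0 ⟨β 2, h4⟩)
    rw [h8, Polynomial.coeff_zero]
  refine (LinearMap.finrank_le_finrank_of_injective hΦ).trans ?_
  rw [Module.finrank_pi_fintype, Finset.sum_range]
  exact Finset.sum_le_sum fun c _ => finrank_Wd_le _ _ _

end UAm

theorem hRm_large {H L N : ℕ} {k : Fin N → ℕ} (hk : ∀ i, k i ≤ H) (hL : ∑ i, k i ≤ L) :
    hRm H L k + ∑ i, (k i + 1).choose 2 = H * L := by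
  refine le_antisymm ?_ (hRm_count H L k)
  have h1 := UAm.upper (H := H) (L := L) (k := k)
  have h2 : ∑ c ∈ Finset.range H, (L - ∑ i, (k i - c)) + ∑ i, (k i + 1).choose 2 = H * L := by
    rw [← Finset.sum_congr rfl (fun i _ => UA.sum_sub' (hk i)), Finset.sum_comm,
      ← Finset.sum_add_distrib]
    have h3 : ∀ c ∈ Finset.range H, L - ∑ i, (k i - c) + ∑ i, (k i - c) = L := by
      intro c _
      have h4 : ∑ i, (k i - c) ≤ ∑ i, k i := Finset.sum_le_sum (fun i _ => Nat.sub_le _ _)
      omega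
    rw [Finset.sum_congr rfl h3, Finset.sum_const, Finset.card_range, smul_eq_mul]
  omega

end Pool.Agent.Work.MP_0421d9_ag.LD
end

section
/-!
Windows on `P¹ × P¹` for arbitrary multiplicities: with few or many conditions the dimension is
the expected one up to `(H - 1).choose 2` (helper25, after UWin of helper79).
-/

namespace Pool.Agent.Work.MP_0421d9_ag.LD

open MvPolynomial Module

theorem rectm_window1 {H L N : ℕ} {k : Fin N → ℕ} (hk : ∀ i, k i ≤ H) (h : hRm H L k ≠ 0) :
    hRm H L k + ∑ i, (k i + 1).choose 2 ≤ H * L + (H - 1).choose 2 := by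
  have hH : 1 ≤ H := by
    rcases Nat.eq_zero_or_pos H with h0 | h0
    · exact absurd (by rw [h0]; exact hRm_zero L k) h
    · exact h0
  obtain ⟨w, h1, h2, h3, h4⟩ := rank_growth_m (k := k) hH
  have hmono : ∀ i j, i ≤ j → w i ≤ w j := fun i j hij => monotone_nat_of_le_succ h3 hij
  obtain ⟨L', rfl⟩ : ∃ L', L = L' + 1 := by
    rcases Nat.eq_zero_or_pos L with h0 | h0
    · exact absurd (by rw [h0]; exact hRm_zero_right H k) h
    · exact ⟨L - 1, by omega⟩
  have hw : 1 ≤ w L' := by
    by_contra hcon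
    have h5 : ∀ j, j ≤ L' → w j = 0 := fun j hj => by
      have := hmono j L' hj
      omega
    have h6 : ∀ j, j ≤ L' + 1 → hRm H j k = 0 := by
      intro j
      induction j with
      | zero => intro _; exact hRm_zero_right H k
      | succ j ih =>
        intro hj
        rw [h1, ih (by omega), h5 j (by omega)]
    exact h (h6 _ (le_refl _))
  obtain ⟨-, h6, h7⟩ := uw_low (H := H) (L := L') (h := fun L => hRm H L k) (w := w) h1 h3 h4 h2
    hw (∑ i, k i)
  have h8 := hRm_large (H := H) (L := L' + 1 + ∑ i, k i) (k := k) hk (by omega)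
  have h9 : H * (L' + 1 + ∑ i, k i) = H * (L' + 1) + (∑ i, k i) * H := by ring
  rw [h9] at h8
  omega

theorem rectm_window2 {H L N : ℕ} {k : Fin N → ℕ} (hk : ∀ i, k i ≤ H)
    (h : ∑ i, (k i + 1).choose 2 + (H - 1).choose 2 ≤ H * L) :
    hRm H L k + ∑ i, (k i + 1).choose 2 = H * L := by
  rcases Nat.eq_zero_or_pos H with hH | hH
  · subst hH
    rw [hRm_zero]
    omega
  obtain ⟨w, h1, h2, h3, h4⟩ := rank_growth_m (k := k) hH
  have hcount := hRm_count H L k
  rcases Nat.lt_or_ge (w L) H with h5 | h5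
  · obtain ⟨-, h6⟩ := uw_high (H := H) (L := L) (h := fun L => hRm H L k) (w := w) h1 h4 h3 h5 L
      (le_refl _)
    rw [Nat.sub_self, hRm_zero_right] at h6
    omega
  · have h6 : ∀ J, hRm H (L + J) k = hRm H L k + J * H ∧ w (L + J) = H := by
      intro J
      induction J with
      | zero =>
        have := h2 L
        exact ⟨by simp, by rw [Nat.add_zero]; omega⟩
      | succ J ih =>
        obtain ⟨i1, i2⟩ := ih
        have k1 : L + (J + 1) = L + J + 1 := by omega
        have k2 := h2 (L + J + 1)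
        have k3 := h3 (L + J)
        rw [k1, h1, i1, i2]
        exact ⟨by ring, by omega⟩
    have h8 := hRm_large (H := H) (L := L + ∑ i, k i) (k := k) hk (by omega)
    rw [(h6 (∑ i, k i)).1] at h8
    have h9 : H * (L + ∑ i, k i) = H * L + (∑ i, k i) * H := by ring
    rw [h9] at h8
    omega

end Pool.Agent.Work.MP_0421d9_ag.LD
end

section
/-!
Growth of the rank along a fibre of the blow-up of the plane at a point, for linear systems with
generic points of arbitrary multiplicities: forms of degree `D` and of degree less than `H` in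
`X 2`, as `D` grows.
-/

namespace Pool.Agent.Work.MP_0421d9_ag.LD

open MvPolynomial Module

namespace Rkf

open Rk (cD_X' cD_C' vanishTo_cD_dir vanishTo_pderiv vanishTo_fixed vanishTo_dir vanishTo_moved rho
  rho_apply ex3_add single0 single1 single2 coeff_X_mul_of_eq coeff_X_mul_eq_zero
  exists_of_coeff_X_mul rho_cD coeff_cD_ne exists_derivation_moving dir_two
  pderiv_two_coeff_ne eq_top_of_stable exists_div_X0)

section

variable {H N : ℕ} {k : Fin N → ℕ}

/-- the systems -/
noncomputable def V (H : ℕ) {N : ℕ} (k : Fin N → ℕ) (D : ℕ) : Submodule ℂ R3 :=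
  TSm D {α | α 2 < H} k (gpt N)

/-- the ranks along the fibre -/
noncomputable def W (H : ℕ) {N : ℕ} (k : Fin N → ℕ) (D : ℕ) : Submodule ℂ (Fin H → ℂ) :=
  (V H k D).map (rho H D)

theorem mem_V {D : ℕ} {F : R3} : F ∈ V H k D ↔ F.IsHomogeneous D ∧
    (∀ i, VanishTo F (gpt N i) (k i)) ∧ ∀ α, coeff α F ≠ 0 → α 2 < H := mem_TSm

/-- `V` in terms of the support -/
theorem mem_V' {D : ℕ} {F : R3} (h1 : ∀ α, coeff α F ≠ 0 →
    α.degree = D ∧ α 2 < H) (h2 : ∀ i, VanishTo F (gpt N i) (k i)) :
    F ∈ V H k D := by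
  rw [mem_V]
  refine ⟨fun α hα => ?_, h2, fun α hα => (h1 α hα).2⟩
  have h3 := (h1 α hα).1
  rw [Finsupp.degree_eq_sum] at h3
  rw [Finsupp.weight_apply, Finsupp.sum_fintype]
  · simpa using h3
  · simp

theorem V_spec {D : ℕ} {F : R3} (hF : F ∈ V H k D) : ∀ α, coeff α F ≠ 0 →
    α.degree = D ∧ α 2 < H := by
  intro α hα
  rw [mem_V] at hF
  exact ⟨degree_of_mem_support hF.1 hα, hF.2.2 α hα⟩

theorem finrank_V (D : ℕ) : finrank ℂ (V H k D) = hTm D {α | α 2 < H} k := rfl

instance finite_V (D : ℕ) : Module.Finite ℂ (V H k D) := finite_TSm _ _ _ _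

theorem X1_mem {D : ℕ} {F : R3} (hF : F ∈ V H k D) :
    X 1 * F ∈ V H k (D + 1) := by
  refine mem_V' (fun α hα => ?_) (fun i => vanishTo_X_mul 1 ((mem_V.mp hF).2.1 i))
  obtain ⟨β, rfl, hβ⟩ := exists_of_coeff_X_mul hα
  obtain ⟨h1, h2⟩ := V_spec hF β hβ
  rw [map_add, Finsupp.degree_single, Finsupp.add_apply,
    Finsupp.single_eq_of_ne (by decide)]
  omega

theorem degree_ex3 (a b c : ℕ) : (ex3 a b c).degree = a + b + c := by
  rw [degree_three, ex3_zero, ex3_one, ex3_two]

/-- multiplication by `X 1` does not change the values on the fibre -/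
theorem rho_X1 {D : ℕ} {F : R3} (hF : ∀ α, coeff α F ≠ 0 → α.degree = D) :
    rho H (D + 1) (X 1 * F) = rho H D F := by
  funext c
  rw [rho_apply, rho_apply]
  rcases Nat.lt_or_ge D c with h | h
  · have h1 : coeff (ex3 0 (D - c) c) F = 0 := by
      by_contra hcon
      have h2 := hF _ hcon
      rw [degree_ex3] at h2
      omega
    rw [h1]
    apply coeff_X_mul_eq_zero
    rw [ex3_one]
    omega
  · apply coeff_X_mul_of_eq
    rw [single1, ex3_add]
    congr 1
    omega

theorem W_le_succ {D : ℕ} : W H k D ≤ W H k (D + 1) := by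
  rintro _ ⟨F, hF, rfl⟩
  exact ⟨X 1 * F, X1_mem hF, rho_X1 (fun α hα => (V_spec hF α hα).1)⟩

/-- a derivation which fixes all points -/
theorem cD_fixed_mem {D : ℕ} {Δ : Derivation ℚ ℂ ℂ} (hΔ : ∀ i l, Δ (gpt N i l) = 0) {F : R3}
    (hF : F ∈ V H k D) : cD Δ F ∈ V H k D :=
  mem_V' (fun α hα => V_spec hF α (coeff_cD_ne hα))
    (fun i => vanishTo_fixed Δ (hΔ i) ((mem_V.mp hF).2.1 i))

/-- a derivation which moves only the point `j` -/
theorem cD_moved_mem {D : ℕ} {Δ : Derivation ℚ ℂ ℂ} {j : Fin N}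
    (hΔ : ∀ i, i ≠ j → ∀ l, Δ (gpt N i l) = 0) {F : R3}
    (hF : F ∈ V H k D) :
    (C (gpt N j 1) * X 0 - C (gpt N j 0) * X 1) * cD Δ F ∈ V H k (D + 1) := by
  have hV := (mem_V.mp hF).2.1
  refine mem_V' (fun α hα => ?_) (fun i => ?_)
  · have h1 : (C (gpt N j 1) * X 0 - C (gpt N j 0) * X 1) * cD Δ F =
        C (gpt N j 1) * (X 0 * cD Δ F) - C (gpt N j 0) * (X 1 * cD Δ F) := by ring
    rw [h1, coeff_sub, coeff_C_mul, coeff_C_mul] at hα
    have h2 : coeff α (X 0 * cD Δ F) ≠ 0 ∨ coeff α (X 1 * cD Δ F) ≠ 0 := by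
      by_contra hcon
      push Not at hcon
      rw [hcon.1, hcon.2, mul_zero, mul_zero, sub_zero] at hα
      exact hα rfl
    rcases h2 with h2 | h2
    · obtain ⟨β, rfl, hβ⟩ := exists_of_coeff_X_mul h2
      obtain ⟨h3, h4⟩ := V_spec hF β (coeff_cD_ne hβ)
      rw [map_add, Finsupp.degree_single, Finsupp.add_apply,
        Finsupp.single_eq_of_ne (by decide)]
      omega
    · obtain ⟨β, rfl, hβ⟩ := exists_of_coeff_X_mul h2
      obtain ⟨h3, h4⟩ := V_spec hF β (coeff_cD_ne hβ)
      rw [map_add, Finsupp.degree_single, Finsupp.add_apply,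
        Finsupp.single_eq_of_ne (by decide)]
      omega
  · by_cases hi : i = j
    · subst hi
      have h1 : VanishTo (C (gpt N i 1) * X 0 - C (gpt N i 0) * X 1) (gpt N i) 1 := by
        rw [vanishTo_one_iff', map_sub, map_mul, map_mul, eval_C, eval_C, eval_X, eval_X]
        ring
      exact (vanishTo_mul h1 (vanishTo_moved Δ (hV i))).mono (by omega)
    · have h1 := vanishTo_mul (vanishTo_zero (C (gpt N j 1) * X 0 - C (gpt N j 0) * X 1)
        (gpt N i)) (vanishTo_fixed Δ (hΔ i hi) (hV i))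
      rwa [zero_add] at h1

theorem rho_moved {D : ℕ} (a b : ℂ) {G : R3} (hG : ∀ α, coeff α G ≠ 0 → α.degree = D) :
    rho H (D + 1) ((C a * X 0 - C b * X 1) * G) = (-b) • rho H D G := by
  have h1 : (C a * X 0 - C b * X 1) * G = a • (X 0 * G) - b • (X 1 * G) := by
    rw [smul_eq_C_mul, smul_eq_C_mul]
    ring
  rw [h1, map_sub, map_smul, map_smul, rho_X1 hG]
  have h2 : rho H (D + 1) (X 0 * G) = 0 := by
    funext c
    rw [rho_apply, coeff_X_mul_eq_zero (ex3_zero _ _ _), Pi.zero_apply]
  rw [h2, smul_zero, zero_sub, neg_smul]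

/-- every derivation maps `W D` to `W (D + 1)` -/
theorem deriv_mem {D : ℕ} (Δ : Derivation ℚ ℂ ℂ) {g : Fin H → ℂ}
    (hg : g ∈ W H k D) : (fun c => Δ (g c)) ∈ W H k (D + 1) := by
  classical
  obtain ⟨E, hE⟩ := exists_dual (gpt N) (gpt_generic N)
  obtain ⟨F, hF, rfl⟩ := hg
  set Δj : Fin N → Derivation ℚ ℂ ℂ := fun j => mv E j (fun l => Δ (gpt N j l)) with hΔj
  set Δ0 : Derivation ℚ ℂ ℂ := Δ - ∑ j, Δj j with hΔ0
  have hval : ∀ j i l, Δj j (gpt N i l) = if i = j then Δ (gpt N i l) else 0 := by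
    intro j i l
    split_ifs with h
    · subst h
      exact mv_self hE i _ l
    · exact mv_ne hE h _ l
  have hsum : ∀ c : ℂ, (∑ j, Δj j) c = ∑ j, Δj j c := by
    intro c
    have h1 : ∀ s : Finset (Fin N), (∑ j ∈ s, Δj j) c = ∑ j ∈ s, Δj j c := by
      intro s
      induction s using Finset.induction_on with
      | empty => simp
      | insert a s ha ih =>
        rw [Finset.sum_insert ha, Finset.sum_insert ha, Derivation.add_apply, ih]
    exact h1 Finset.univ
  have h0 : ∀ i l, Δ0 (gpt N i l) = 0 := by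
    intro i l
    rw [hΔ0, Derivation.sub_apply, hsum]
    have h1 : ∑ j, Δj j (gpt N i l) = Δ (gpt N i l) := by
      rw [Finset.sum_eq_single i]
      · rw [hval, if_pos rfl]
      · intro j _ hj
        rw [hval, if_neg hj.symm]
      · intro h
        exact absurd (Finset.mem_univ i) h
    rw [h1, sub_self]
  have hdec : (fun c => Δ (rho H D F c)) =
      (fun c => Δ0 (rho H D F c)) + ∑ j, (fun c => Δj j (rho H D F c)) := by
    funext c
    rw [Pi.add_apply, Finset.sum_apply, hΔ0, Derivation.sub_apply, hsum]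
    ring
  rw [hdec]
  refine Submodule.add_mem _ ?_ (Submodule.sum_mem _ fun j _ => ?_)
  · apply W_le_succ
    exact ⟨cD Δ0 F, cD_fixed_mem h0 hF, rho_cD _ _ _⟩
  · have h1 : (C (gpt N j 1) * X 0 - C (gpt N j 0) * X 1) * cD (Δj j) F ∈ V H k (D + 1) :=
      cD_moved_mem (fun i hi l => by rw [hval, if_neg hi]) hF
    have h2 := Submodule.mem_map_of_mem (f := rho H (D + 1)) h1
    rw [rho_moved (D := D) _ _ (fun α hα => (V_spec hF α (coeff_cD_ne hα)).1), rho_cD] at h2
    have h3 := Submodule.smul_mem _ (-(gpt N j 0))⁻¹ h2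
    rw [smul_smul, inv_mul_cancel₀ (neg_ne_zero.mpr (gpt_ne j 0)), one_smul] at h3
    exact h3

theorem dn_mem {D : ℕ} {g : Fin H → ℂ} (hg : g ∈ W H k D) :
    Rk.dn g ∈ W H k (D + 1) := by
  have hg' := hg
  obtain ⟨F, hF, rfl⟩ := hg
  have hV := (mem_V.mp hF).2.1
  obtain ⟨Δ, hΔ⟩ := exists_derivation_moving (N := N) (fun i => gpt N i 1)
  have h1 : cD Δ F + X 1 * pderiv 2 F ∈ V H k D := by
    refine mem_V' (fun α hα => ?_) (fun i => ?_)
    · by_cases h2 : coeff α (cD Δ F) = 0
      · rw [coeff_add, h2, zero_add] at hα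
        obtain ⟨β, rfl, hβ⟩ := exists_of_coeff_X_mul hα
        obtain ⟨h3, h4⟩ := V_spec hF _ (pderiv_two_coeff_ne hβ)
        rw [map_add, Finsupp.degree_single] at h3
        rw [Finsupp.add_apply, Finsupp.single_eq_same] at h4
        rw [map_add, Finsupp.degree_single, Finsupp.add_apply,
          Finsupp.single_eq_of_ne (by decide)]
        omega
      · exact V_spec hF α (coeff_cD_ne h2)
    · have h2 := vanishTo_cD_dir Δ (hV i)
      rw [hΔ i, dir_two] at h2
      have h3 : VanishTo (X 1 - C (gpt N i 1)) (gpt N i) 1 := by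
        rw [vanishTo_one_iff', map_sub, eval_X, eval_C, sub_self]
      have h4 := (vanishTo_mul h3 (vanishTo_pderiv 2 (hV i))).mono (by omega : k i ≤ 1 + (k i - 1))
      have h5 := (vanSub (gpt N i) (k i)).add_mem h2 h4
      have h6 : cD Δ F + X 1 * pderiv 2 F = cD Δ F + C (gpt N i 1) * pderiv 2 F +
          (X 1 - C (gpt N i 1)) * pderiv 2 F := by ring
      rw [h6]
      exact h5
  have h2 := W_le_succ (Submodule.mem_map_of_mem (f := rho H D) h1)
  rw [map_add, rho_cD] at h2
  have h3 := Submodule.sub_mem _ h2 (deriv_mem Δ hg')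
  rw [add_sub_cancel_left] at h3
  have h4 : Rk.dn (rho H D F) = rho H D (X 1 * pderiv 2 F) := by
    funext c
    have hc := c.2
    rw [rho_apply]
    unfold Rk.dn
    split_ifs with h
    · rw [rho_apply]
      change _ * coeff (ex3 0 (D - (c + 1)) (c + 1)) F = _
      rcases Nat.lt_or_ge D (c + 1) with h5 | h5
      · have h6 : coeff (ex3 0 (D - (c + 1)) (c + 1)) F = 0 := by
          by_contra hcon
          have h7 := (V_spec hF _ hcon).1
          rw [degree_ex3] at h7
          omega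
        rw [h6, mul_zero]
        symm
        apply coeff_X_mul_eq_zero
        rw [ex3_one]
        omega
      · rw [coeff_X_mul_of_eq (β := ex3 0 (D - (c + 1)) c), coeff_pderiv]
        · rw [single2, ex3_add, ex3_two]
          simp only [Nat.add_zero]
          ring
        · rw [single1, ex3_add]
          congr 1
          omega
    · symm
      by_contra hcon
      obtain ⟨β, hβ, hβ'⟩ := exists_of_coeff_X_mul hcon
      obtain ⟨h5, h6⟩ := V_spec hF _ (pderiv_two_coeff_ne hβ')
      rw [Finsupp.add_apply, Finsupp.single_eq_same] at h6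
      have h8 := DFunLike.congr_fun hβ 2
      rw [ex3_two, Finsupp.add_apply, Finsupp.single_eq_of_ne (by decide)] at h8
      omega
  rw [h4]
  exact h3

theorem up_mem {D : ℕ} {g : Fin H → ℂ} (hg : g ∈ W H k D) :
    Rk.up g ∈ W H k (D + 1) := by
  have hg' := hg
  obtain ⟨F, hF, rfl⟩ := hg
  have hV := (mem_V.mp hF).2.1
  obtain ⟨Δ, hΔ⟩ := exists_derivation_moving (N := N) (fun i => gpt N i 2 ^ 2 / gpt N i 1)
  have h1 : X 1 * cD Δ F + X 2 * th 2 (H - 1) F ∈ V H k (D + 1) := by
    refine mem_V' (fun α hα => ?_) (fun i => ?_)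
    · by_cases h2 : coeff α (X 1 * cD Δ F) = 0
      · rw [coeff_add, h2, zero_add] at hα
        obtain ⟨β, rfl, hβ⟩ := exists_of_coeff_X_mul hα
        rw [coeff_th] at hβ
        obtain ⟨h3, h4⟩ := V_spec hF _ (right_ne_zero_of_mul hβ)
        have h6 : β 2 ≠ H - 1 := by
          intro h7
          apply left_ne_zero_of_mul hβ
          rw [h7, sub_self]
        rw [map_add, Finsupp.degree_single, Finsupp.add_apply,
          Finsupp.single_eq_same]
        omega
      · obtain ⟨β, rfl, hβ⟩ := exists_of_coeff_X_mul h2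
        obtain ⟨h3, h4⟩ := V_spec hF β (coeff_cD_ne hβ)
        rw [map_add, Finsupp.degree_single, Finsupp.add_apply,
          Finsupp.single_eq_of_ne (by decide)]
        omega
    · have h2 := vanishTo_cD_dir Δ (hV i)
      rw [hΔ i, dir_two] at h2
      have h2' := vanishTo_X_mul 1 h2
      have h3 : VanishTo (X 2 ^ 2 - C (gpt N i 2 ^ 2 / gpt N i 1) * X 1) (gpt N i) 1 := by
        rw [vanishTo_one_iff', map_sub, map_pow, map_mul, eval_X, eval_C, eval_X,
          div_mul_cancel₀ _ (gpt_ne i 1), sub_self]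
      have h4 := (vanishTo_mul h3 (vanishTo_pderiv 2 (hV i))).mono (by omega : k i ≤ 1 + (k i - 1))
      have h5 := vanishTo_mul (vanishTo_zero (C ((H - 1 : ℕ) : ℂ) * X 2) (gpt N i)) (hV i)
      rw [zero_add] at h5
      have h6 := (vanSub (gpt N i) (k i)).sub_mem ((vanSub (gpt N i) (k i)).add_mem h2' h4) h5
      have h7 : X 1 * cD Δ F + X 2 * th 2 (H - 1) F =
          X 1 * (cD Δ F + C (gpt N i 2 ^ 2 / gpt N i 1) * pderiv 2 F) +
          (X 2 ^ 2 - C (gpt N i 2 ^ 2 / gpt N i 1) * X 1) * pderiv 2 F -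
          C ((H - 1 : ℕ) : ℂ) * X 2 * F := by
        unfold LD.th
        ring
      rw [h7]
      exact h6
  have h2 := Submodule.mem_map_of_mem (f := rho H (D + 1)) h1
  rw [map_add, rho_X1 (D := D) (fun α hα => (V_spec hF α (coeff_cD_ne hα)).1), rho_cD] at h2
  have h3 := Submodule.sub_mem _ h2 (deriv_mem Δ hg')
  rw [add_sub_cancel_left] at h3
  have h4 : Rk.up (rho H D F) = rho H (D + 1) (X 2 * th 2 (H - 1) F) := by
    funext c
    have hc := c.2
    rw [rho_apply]
    unfold Rk.up
    split_ifs with h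
    · rw [coeff_X_mul_of_eq (β := ex3 0 (D - (c - 1)) (c - 1)), coeff_th, rho_apply,
        ex3_two]
      · congr 1
        obtain ⟨c', hc'⟩ : ∃ c', (c : ℕ) = c' + 1 := ⟨c - 1, by omega⟩
        obtain ⟨H', hH'⟩ : ∃ H', H = H' + 1 := ⟨H - 1, by omega⟩
        rw [hc', Nat.add_sub_cancel]
        rw [show H - 1 = H' by omega]
        rw [show (H : ℂ) = H' + 1 by rw [hH']; push_cast; rfl]
        push_cast
        ring
      · rw [single2, ex3_add]
        congr 1
        · omega
        · omega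
    · rw [coeff_X_mul_eq_zero]
      rw [ex3_two]
      omega
  rw [h4]
  exact h3

/-! ### the dimension of `W` -/

theorem finrank_ker (D : ℕ) :
    finrank ℂ ↥(V H k (D + 1) ⊓ LinearMap.ker (rho H (D + 1))) = hTm D {α | α 2 < H} k := by
  have hmap : V H k (D + 1) ⊓ LinearMap.ker (rho H (D + 1)) =
      (V H k D).map (LinearMap.mulLeft ℂ (X 0 : R3)) := by
    apply le_antisymm
    · rintro F ⟨hF, hF'⟩
      have hF2 := mem_V.mp hF
      obtain ⟨G, hG1, hG2, hG3⟩ := exists_div_X0 hF2.1 (fun α hα => by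
        by_contra hcon
        rw [MvPolynomial.mem_support_iff] at hα
        obtain ⟨h1, h2⟩ := V_spec hF α hα
        have h4 := congrFun (LinearMap.mem_ker.mp hF') ⟨α 2, h2⟩
        rw [rho_apply, Pi.zero_apply] at h4
        apply hα
        have h5 : ex3 0 (D + 1 - (⟨α 2, h2⟩ : Fin H)) (⟨α 2, h2⟩ : Fin H) = α := by
          conv_rhs => rw [eq_ex3 α]
          rw [degree_three] at h1
          change ex3 0 (D + 1 - α 2) (α 2) = _
          congr 1
          · omega
          · omega
        rwa [h5] at h4)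
      refine ⟨G, ?_, by rw [LinearMap.mulLeft_apply, hG2]⟩
      refine mem_V.mpr ⟨hG1, fun i => ?_, fun β hβ => ?_⟩
      · have h1 := hF2.2.1 i
        have h2 : (X 0 : R3) = lin ![1, 0, 0] := by
          unfold lin
          simp [Fin.sum_univ_three]
        rw [hG2, h2] at h1
        refine vanishTo_of_mul_ne h1 ?_
        rw [← h2, eval_X]
        exact gpt_ne i 0
      · rw [hG3] at hβ
        obtain ⟨h1, h2⟩ := V_spec hF _ hβ
        rw [Finsupp.add_apply, Finsupp.single_eq_of_ne (by decide), zero_add] at h2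
        exact h2
    · rintro _ ⟨G, hG, rfl⟩
      rw [LinearMap.mulLeft_apply]
      refine Submodule.mem_inf.mpr ⟨?_, ?_⟩
      · refine mem_V' (fun α hα => ?_) (fun i => vanishTo_X_mul 0 ((mem_V.mp hG).2.1 i))
        obtain ⟨β, rfl, hβ⟩ := exists_of_coeff_X_mul hα
        obtain ⟨h1, h2⟩ := V_spec hG β hβ
        rw [map_add, Finsupp.degree_single, Finsupp.add_apply,
          Finsupp.single_eq_of_ne (by decide)]
        omega
      · rw [LinearMap.mem_ker]
        funext c
        rw [rho_apply, coeff_X_mul_eq_zero (ex3_zero _ _ _), Pi.zero_apply]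
  rw [hmap, finrank_map_mulLeft (X_ne_zero _)]
  exact finrank_V D

end

end Rkf

/-- growth of the rank -/
theorem rank_growth_f {H N : ℕ} {k : Fin N → ℕ} : ∃ w : ℕ → ℕ,
    (∀ D, hTm (D + 1) {α | α 2 < H} k = hTm D {α | α 2 < H} k + w D) ∧ (∀ D, w D ≤ H) ∧
      (∀ D, w D ≤ w (D + 1)) ∧ ∀ D, 0 < w D → w D < H → w D < w (D + 1) := by
  refine ⟨fun D => finrank ℂ (Rkf.W H k (D + 1)), fun D => ?_, fun D => ?_, fun D => ?_,
    fun D h0 h1 => ?_⟩
  · have h1 := finrank_eq_ker_add_map (Rk.rho H (D + 1)) (Rkf.V H k (D + 1))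
    rw [Rkf.finrank_V, Rkf.finrank_ker] at h1
    exact h1
  · refine (Submodule.finrank_le _).trans ?_
    rw [finrank_fin_fun]
  · exact Submodule.finrank_mono Rkf.W_le_succ
  · have hle : Rkf.W H k (D + 1) ≤ Rkf.W H k (D + 1 + 1) := Rkf.W_le_succ
    refine lt_of_le_of_ne (Submodule.finrank_mono hle) (fun heq => ?_)
    have h2 : Rkf.W H k (D + 1) = Rkf.W H k (D + 1 + 1) := Submodule.eq_of_le_of_finrank_eq hle heq
    have h3 : Rkf.W H k (D + 1) ≠ ⊥ := by
      intro h4
      change 0 < finrank ℂ ↥(Rkf.W H k (D + 1)) at h0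
      rw [h4, finrank_bot] at h0
      exact absurd h0 (lt_irrefl 0)
    have h4 := Rk.eq_top_of_stable (Rkf.W H k (D + 1)) h3
      (fun g hg => by rw [h2]; exact Rkf.dn_mem hg)
      (fun g hg => by rw [h2]; exact Rkf.up_mem hg)
    change finrank ℂ ↥(Rkf.W H k (D + 1)) < H at h1
    rw [h4, finrank_top, finrank_fin_fun] at h1
    exact absurd h1 (lt_irrefl _)

end Pool.Agent.Work.MP_0421d9_ag.LD
end

section
/-!
Windows for the forms of degree `D` and of degree less than `H` in `X 2`, with generic points of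
arbitrary multiplicities: with few or many conditions the dimension is the expected one.
-/

namespace Pool.Agent.Work.MP_0421d9_ag.LD

open MvPolynomial Module

/-- the number of monomials of degree `D` and of degree less than `H` in `X 2` -/
def fA (D H : ℕ) : ℕ := ∑ c ∈ Finset.range H, (D + 1 - c)

theorem fA_zero (D : ℕ) : fA D 0 = 0 := rfl

theorem fA_succ (D H : ℕ) : fA D (H + 1) = fA D H + (D + 1 - H) := Finset.sum_range_succ _ _

theorem fA_succ_left {D H : ℕ} (h : H ≤ D + 2) : fA (D + 1) H = fA D H + H := by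
  induction H with
  | zero => rfl
  | succ n ih =>
    rw [fA_succ, fA_succ, ih (by omega)]
    omega

theorem fA_add {D H : ℕ} (h : H ≤ D + 2) (J : ℕ) : fA (D + J) H = fA D H + J * H := by
  induction J with
  | zero => simp
  | succ J ih =>
    have e1 : D + (J + 1) = D + J + 1 := by omega
    rw [e1, fA_succ_left (by omega), ih]
    ring

theorem fA_eq {D H : ℕ} (h : H ≤ D + 1) : fA D H + H.choose 2 = H * (D + 1) := by
  induction H with
  | zero => rw [fA_zero]; simp
  | succ n ih =>
    have h1 := ih (by omega)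
    have h2 : (n + 1).choose 2 = n + n.choose 2 := by
      rw [Nat.choose_succ_succ' n 1, Nat.choose_one_right]
    have e1 : (n + 1) * (D + 1) = n * (D + 1) + (D + 1) := by ring
    rw [fA_succ, h2, e1]
    omega

/-! ### many columns -/

namespace Fw

open UA (rw' rw'_coeff rw'_coeff_hom pow_dvd_rw' Wd mem_Wd finrank_Wd_le sp rwL)
open UAm (Pp Pp_ne_zero natDegree_Pp Pp_dvd)

theorem upper {D H N : ℕ} {k : Fin N → ℕ} :
    hTm D {α | α 2 < H} k ≤ ∑ c ∈ Finset.range H, (D + 1 - c - ∑ i, (k i - c)) := by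
  refine (hTm_le (sp N)).trans ?_
  let Φ : TSm D {α | α 2 < H} k (sp N) →ₗ[ℂ]
      ((c : Fin H) → Wd (Pp (fun i => k i - c)) (D + 1 - c) (∑ i, (k i - c))) :=
    LinearMap.pi fun c => LinearMap.codRestrict _ ((rwL c).comp (Submodule.subtype _)) (by
      rintro ⟨F, hF⟩
      obtain ⟨h1, h2, h3⟩ := mem_TSm.mp hF
      change rw' F c ∈ _
      refine mem_Wd (Pp_ne_zero _) (natDegree_Pp _) (Pp_dvd fun i => pow_dvd_rw' (h2 i) c) ?_
      intro a ha
      rw [rw'_coeff]
      refine Finset.sum_eq_zero fun α hα => ?_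
      rw [if_neg]
      rintro ⟨h5, h0⟩
      have h4 := degree_of_mem_support h1 (mem_support_iff.mp hα)
      rw [degree_three] at h4
      omega)
  have hΦ : Function.Injective Φ := by
    rw [← LinearMap.ker_eq_bot, LinearMap.ker_eq_bot']
    rintro ⟨F, hF⟩ h0
    obtain ⟨h1, h2, h3⟩ := mem_TSm.mp hF
    rw [Submodule.mk_eq_zero]
    ext β
    rw [coeff_zero]
    by_contra hβ
    have h4 := h3 β hβ
    apply hβ
    rw [← rw'_coeff_hom h1 β (degree_of_mem_support h1 hβ)]
    have h8 : rw' F (β 2) = 0 := congrArg Subtype.val (congrFun h0 ⟨β 2, h4⟩)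
    rw [h8, Polynomial.coeff_zero]
  refine (LinearMap.finrank_le_finrank_of_injective hΦ).trans ?_
  rw [Module.finrank_pi_fintype, Finset.sum_range]
  exact Finset.sum_le_sum fun c _ => finrank_Wd_le _ _ _

/-- many columns: the conditions are independent -/
theorem large {D H N : ℕ} {k : Fin N → ℕ} (hk : ∀ i, k i ≤ H) (hD : ∑ i, k i + H ≤ D) :
    hTm D {α | α 2 < H} k + ∑ i, (k i + 1).choose 2 ≤ fA D H := by
  have h1 := upper (D := D) (H := H) (k := k)
  have h2 : ∑ c ∈ Finset.range H, (D + 1 - c - ∑ i, (k i - c)) + ∑ i, (k i + 1).choose 2 =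
      fA D H := by
    rw [← Finset.sum_congr rfl (fun i _ => UA.sum_sub' (hk i)), Finset.sum_comm,
      ← Finset.sum_add_distrib]
    refine Finset.sum_congr rfl fun c hc => ?_
    rw [Finset.mem_range] at hc
    have h4 : ∑ i, (k i - c) ≤ ∑ i, k i := Finset.sum_le_sum (fun i _ => Nat.sub_le _ _)
    omega
  omega

/-- the number of monomials in a row -/
theorem row (n N : ℕ) : n + 1 ≤ hTm n {α | α 2 < 1} (fun _ : Fin N => 0) := by
  rw [hTm_zero_fam (m := 0)]
  have h1 := hR_no_points 1 (n + 1) 0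
  unfold hR at h1
  have e1 : 1 + (n + 1) - 2 = n := by omega
  rw [e1, Nat.one_mul] at h1
  rw [← h1]
  exact hT_mono (fun α _ hα => hα.1)

theorem no_points {D N : ℕ} : ∀ H, H ≤ D + 1 →
    fA D H ≤ hTm D {α | α 2 < H} (fun _ : Fin N => 0) := by
  intro H
  induction H with
  | zero => intro _; exact Nat.zero_le _
  | succ H ih =>
    intro hH
    have h1 := ih (by omega)
    set V := TSm D {α | α 2 < H} (fun _ : Fin N => 0) (gpt N) with hV
    set V' := TSm D {α | α 2 < H + 1} (fun _ : Fin N => 0) (gpt N) with hV'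
    set W := (TSm (D - H) {α | α 2 < 1} (fun _ : Fin N => 0) (gpt N)).map
      (LinearMap.mulLeft ℂ (X 2 ^ H : R3)) with hW
    have hXne : (X 2 ^ H : R3) ≠ 0 := pow_ne_zero _ (X_ne_zero _)
    have hWdim : D - H + 1 ≤ finrank ℂ W := by
      rw [hW, finrank_map_mulLeft hXne]
      exact row (D - H) N
    have hz : ∀ (F : R3) (a : V3), VanishTo F a 0 := fun F a j hj => absurd hj (Nat.not_lt_zero j)
    have hWexp : ∀ F ∈ W, F.IsHomogeneous D ∧ ∀ α, coeff α F ≠ 0 → α 2 = H := by
      rintro F ⟨G, hG, rfl⟩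
      change (X 2 ^ H * G).IsHomogeneous D ∧ ∀ α, coeff α (X 2 ^ H * G) ≠ 0 → _
      rw [SetLike.mem_coe, mem_TSm] at hG
      obtain ⟨g1, -, g2⟩ := hG
      refine ⟨?_, fun α hα => ?_⟩
      · have h3 := ((isHomogeneous_X ℂ (2 : Fin 3)).pow H).mul g1
        rw [Nat.one_mul] at h3
        have e1 : H + (D - H) = D := by omega
        rwa [e1] at h3
      · rw [X_pow_eq_monomial, coeff_monomial_mul'] at hα
        split_ifs at hα with h4
        · rw [one_mul] at hα
          have h5 : (α - Finsupp.single 2 H : Fin 3 →₀ ℕ) 2 < 1 := g2 _ hα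
          have h6 : (Finsupp.single 2 H : Fin 3 →₀ ℕ) 2 ≤ α 2 := h4 2
          rw [Finsupp.coe_tsub, Pi.sub_apply, Finsupp.single_eq_same] at h5
          rw [Finsupp.single_eq_same] at h6
          omega
        · exact absurd rfl hα
    have hle1 : W ≤ V' := by
      intro F hF
      obtain ⟨h3, h4⟩ := hWexp F hF
      rw [hV', mem_TSm]
      exact ⟨h3, fun i => hz _ _, fun α hα => by
        change α 2 < H + 1
        rw [h4 α hα]
        exact Nat.lt_succ_self H⟩
    have hle2 : V ≤ V' := by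
      intro F hF
      rw [hV, mem_TSm] at hF
      rw [hV', mem_TSm]
      exact ⟨hF.1, hF.2.1, fun α hα => Nat.lt_succ_of_lt (hF.2.2 α hα)⟩
    have hdisj : V ⊓ W = ⊥ := by
      rw [Submodule.eq_bot_iff]
      rintro F ⟨hF1, hF2⟩
      rw [SetLike.mem_coe, hV, mem_TSm] at hF1
      ext α
      rw [coeff_zero]
      by_contra hcon
      have h3 : α 2 < H := hF1.2.2 α hcon
      have h4 := (hWexp F hF2).2 α hcon
      omega
    have hfin : Module.Finite ℂ V' := finite_TSm _ _ _ _
    have hfin1 : Module.Finite ℂ W := Submodule.finiteDimensional_of_le hle1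
    have hfin2 : Module.Finite ℂ V := finite_TSm _ _ _ _
    have h3 := Submodule.finrank_sup_add_finrank_inf_eq V W
    rw [hdisj, finrank_bot, Nat.add_zero] at h3
    have h4 : finrank ℂ ↥(V ⊔ W) ≤ finrank ℂ V' := Submodule.finrank_mono (sup_le hle2 hle1)
    rw [fA_succ]
    change fA D H ≤ finrank ℂ V at h1
    change _ ≤ finrank ℂ V'
    have e1 : D + 1 - H = D - H + 1 := by omega
    rw [e1]
    calc fA D H + (D - H + 1) ≤ finrank ℂ V + finrank ℂ W := Nat.add_le_add h1 hWdim
      _ = finrank ℂ ↥(V ⊔ W) := h3.symm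
      _ ≤ finrank ℂ V' := h4

/-- the expected dimension is a lower bound -/
theorem count {D H N : ℕ} {k : Fin N → ℕ} (hH : H ≤ D + 1) :
    fA D H ≤ hTm D {α | α 2 < H} k + ∑ i, (k i + 1).choose 2 := by
  have h1 := no_points (D := D) (N := N) H hH
  rw [hTm_zero_fam (m := 0)] at h1
  exact h1.trans (hTm_drop (D := D) (k := k) (T := {α | α 2 < H}) (m := 0))

end Fw

/-- few forms: either no forms at all, or almost the expected number -/
theorem strip_window1 {D H N : ℕ} {k : Fin N → ℕ} (hk : ∀ i, k i ≤ H) (hH : H ≤ D + 1)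
    (h0 : ∃ i, k i ≠ 0) (h : hTm D {α | α 2 < H} k ≠ 0) :
    hTm D {α | α 2 < H} k + ∑ i, (k i + 1).choose 2 ≤ fA D H + (H - 1).choose 2 := by
  obtain ⟨w, h1, h2, h3, h4⟩ := rank_growth_f (H := H) (k := k)
  have hmono : ∀ i j, i ≤ j → w i ≤ w j := fun i j hij => monotone_nat_of_le_succ h3 hij
  have hzero : hTm 0 {α | α 2 < H} k = 0 := by
    obtain ⟨i, hi⟩ := h0
    unfold hTm
    rw [Submodule.finrank_eq_zero, Submodule.eq_bot_iff]
    intro F hF
    rw [mem_TSm] at hF
    exact eq_zero_of_vanishTo hF.1 (Nat.pos_of_ne_zero hi) (hF.2.1 i)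
  obtain ⟨D', rfl⟩ : ∃ D', D = D' + 1 := by
    rcases Nat.eq_zero_or_pos D with h5 | h5
    · subst h5
      exact absurd hzero h
    · exact ⟨D - 1, by omega⟩
  have hw : 1 ≤ w D' := by
    by_contra hcon
    have h5 : ∀ j, j ≤ D' → w j = 0 := fun j hj => by
      have := hmono j D' hj
      omega
    have h6 : ∀ j, j ≤ D' + 1 → hTm j {α | α 2 < H} k = 0 := by
      intro j
      induction j with
      | zero => intro _; exact hzero
      | succ j ih =>
        intro hj
        rw [h1, ih (by omega), h5 j (by omega)]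
    exact h (h6 _ (le_refl _))
  obtain ⟨-, h6, h7⟩ := uw_low (H := H) (L := D') (h := fun D => hTm D {α | α 2 < H} k)
    (w := w) h1 h3 h4 h2 hw (∑ i, k i + H)
  have h8 := Fw.large (H := H) (D := D' + 1 + (∑ i, k i + H)) (k := k) hk (by omega)
  rw [fA_add (by omega)] at h8
  omega

/-- many forms: the expected number -/
theorem strip_window2 {D H N : ℕ} {k : Fin N → ℕ} (hk : ∀ i, k i ≤ H) (hH : H ≤ D + 1)
    (h : ∑ i, (k i + 1).choose 2 + (H - 1).choose 2 + 2 ≤ fA D H) :
    hTm D {α | α 2 < H} k + ∑ i, (k i + 1).choose 2 = fA D H := by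
  obtain ⟨w, h1, h2, h3, h4⟩ := rank_growth_f (H := H) (k := k)
  have hcount := Fw.count (k := k) hH
  rcases Nat.lt_or_ge (w D) H with h5 | h5
  · obtain ⟨-, h6⟩ := uw_high (H := H) (L := D) (h := fun D => hTm D {α | α 2 < H} k) (w := w)
      h1 h4 h3 h5 D (le_refl _)
    rw [Nat.sub_self] at h6
    have h7 : hTm 0 {α | α 2 < H} k ≤ 1 := by
      unfold hTm
      have h8 : TSm 0 {α | α 2 < H} k (gpt N) ≤ Rd 0 := TSm_le _ _ _ _
      have h9 := Submodule.finrank_mono h8
      rw [finrank_Rd] at h9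
      exact h9
    omega
  · have h6 : ∀ J, hTm (D + J) {α | α 2 < H} k = hTm D {α | α 2 < H} k + J * H ∧
        w (D + J) = H := by
      intro J
      induction J with
      | zero =>
        have := h2 D
        exact ⟨by simp, by rw [Nat.add_zero]; omega⟩
      | succ J ih =>
        obtain ⟨i1, i2⟩ := ih
        have k1 : D + (J + 1) = D + J + 1 := by omega
        have k2 := h2 (D + J + 1)
        have k3 := h3 (D + J)
        rw [k1, h1, i1, i2]
        exact ⟨by ring, by omega⟩
    have h8 := Fw.large (H := H) (D := D + (∑ i, k i + H)) (k := k) hk (by omega)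
    rw [(h6 (∑ i, k i + H)).1, fA_add (by omega)] at h8
    omega

end Pool.Agent.Work.MP_0421d9_ag.LD
end

section
/-!
The two-scale window: if the points in `B` alone impose independent conditions and the other
points have multiplicities at most `u`, then for special nonempty systems the dimension and the
superabundance add up to at most `3 u M`.
-/

set_option linter.unusedSectionVars false

namespace Pool.Agent.Work.MP_0421d9_ag

open MvPolynomial Module

section two

variable {ι : Type} [Fintype ι] [DecidableEq ι] {d : ℕ} {p : ι → V3}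
  {E : ι → Fin 3 → Derivation ℚ ℂ ℂ}

/-- from a nonspecial system to a special one: some step is incomplete -/
theorem exists_incomplete_above {b : ι → ℕ}
    (hb : finrank ℂ (linSys d p b) + ∑ i, (b i + 1).choose 2 = (d + 2).choose 2) :
    ∀ (n : ℕ) (m : ι → ℕ), ∑ i, m i ≤ n → (∀ i, b i ≤ m i) →
    (d + 2).choose 2 < finrank ℂ (linSys d p m) + ∑ i, (m i + 1).choose 2 →
    ∃ (y : ι → ℕ) (i : ι), (∀ l, up y i l ≤ m l) ∧ (∀ l, b l ≤ y l) ∧ cc d p y i ≤ y i := by
  intro n
  induction n with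
  | zero =>
    intro m hm hbm h
    exfalso
    have h0 : m = b := by
      funext i
      have := Finset.single_le_sum (f := m) (fun j _ => Nat.zero_le (m j)) (Finset.mem_univ i)
      have := hbm i
      omega
    rw [h0] at h
    omega
  | succ n ih =>
    intro m hm hbm h
    by_cases h0 : ∀ i, m i ≤ b i
    · have h1 : m = b := funext (fun i => le_antisymm (h0 i) (hbm i))
      rw [h1] at h
      omega
    push Not at h0
    obtain ⟨i, hi⟩ := h0
    set y := Function.update m i (m i - 1) with hy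
    have hmy : m = up y i := up_down (by omega)
    have hyi : y i + 1 = m i := by rw [hy, Function.update_self]; omega
    have hby : ∀ l, b l ≤ y l := by
      intro l
      by_cases hl : l = i
      · rw [hl]; omega
      · rw [hy, Function.update_of_ne hl]; exact hbm l
    by_cases hs : (d + 2).choose 2 < finrank ℂ (linSys d p y) + ∑ l, (y l + 1).choose 2
    · have h1 : ∑ l, y l ≤ n := by
        have h2 : ∑ l, y l + 1 = ∑ l, m l := by
          rw [← Finset.add_sum_erase _ _ (Finset.mem_univ i),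
            ← Finset.add_sum_erase _ m (Finset.mem_univ i)]
          have h3 : ∑ l ∈ Finset.univ.erase i, y l = ∑ l ∈ Finset.univ.erase i, m l := by
            refine Finset.sum_congr rfl (fun l hl => ?_)
            rw [hy, Function.update_of_ne (Finset.ne_of_mem_erase hl)]
          omega
        omega
      obtain ⟨z, j, hz, hbz, hc⟩ := ih y h1 hby hs
      refine ⟨z, j, fun l => (hz l).trans ?_, hbz, hc⟩
      rw [hmy]
      exact le_up y i l
    · refine ⟨y, i, fun l => by rw [hmy], hby, ?_⟩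
      have h1 := cc_add (d := d) (p := p) y i
      have h2 := sum_choose_up y i
      rw [← hmy] at h1 h2
      omega

/-- a special system above a nonspecial one does not cut out a complete series at some point
whose multiplicity has been raised -/
theorem exists_defect_above (hE : IsDual p E) {b m : ι → ℕ}
    (hb : finrank ℂ (linSys d p b) + ∑ i, (b i + 1).choose 2 = (d + 2).choose 2)
    (hbm : ∀ i, b i ≤ m i)
    (h : (d + 2).choose 2 < finrank ℂ (linSys d p m) + ∑ i, (m i + 1).choose 2) :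
    ∃ i, b i < m i ∧ cc d p (dn m i) i ≤ m i - 1 := by
  obtain ⟨y, i, hy, hby, hc⟩ := exists_incomplete_above hb (∑ i, m i) m le_rfl hbm h
  have hyi : y i + 1 ≤ m i := by
    have := hy i
    rwa [up_self] at this
  refine ⟨i, by have := hby i; omega, ?_⟩
  set y' : ι → ℕ := Function.update m i (y i) with hy'
  have hy'i : y' i = y i := by rw [hy', Function.update_self]
  have h3 : cc d p y' i ≤ cc d p y i := by
    apply cc_mono_le
    · intro l
      by_cases hl : l = i
      · rw [hl, hy'i]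
      · rw [hy', Function.update_of_ne hl]
        have := hy l
        rwa [up_ne _ hl] at this
    · exact hy'i.symm
  have h5 := cc_update_le hE (y := y') (i := i) (c := y i) (h3.trans hc) (by rw [hy'i])
    (m i - 1 - y i)
  have h6 : Function.update y' i (y' i + (m i - 1 - y i)) = dn m i := by
    rw [hy'i, hy', Function.update_idem, (by omega : y i + (m i - 1 - y i) = m i - 1)]
    rfl
  rw [h6] at h5
  omega

/-- the part of `m` in `B` -/
def onB (B : Finset ι) (m : ι → ℕ) : ι → ℕ := fun i => if i ∈ B then m i else 0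

theorem sum_onB (B : Finset ι) (m : ι → ℕ) :
    ∑ i, (onB B m i + 1).choose 2 = ∑ i ∈ B, (m i + 1).choose 2 := by
  rw [← Finset.sum_filter_add_sum_filter_not Finset.univ (fun i => i ∈ B)]
  have h1 : ∑ i ∈ Finset.univ.filter (fun i => ¬ i ∈ B), (onB B m i + 1).choose 2 = 0 := by
    refine Finset.sum_eq_zero (fun i hi => ?_)
    have := (Finset.mem_filter.mp hi).2
    unfold onB
    rw [if_neg this]
    rfl
  have h2 : Finset.univ.filter (fun i => i ∈ B) = B := by
    ext i
    simp
  rw [h1, add_zero, h2]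
  refine Finset.sum_congr rfl (fun i hi => ?_)
  unfold onB
  rw [if_pos hi]

/-- regularity is inherited when a multiplicity is lowered -/
theorem reg_dn (hE : IsDual p E) {y : ι → ℕ} {i : ι} (hy : ∀ l, y l ≤ d)
    (h : finrank ℂ (linSys d p (up y i)) + ∑ l, (up y i l + 1).choose 2 = (d + 2).choose 2) :
    finrank ℂ (linSys d p y) + ∑ l, (y l + 1).choose 2 = (d + 2).choose 2 := by
  have h1 := cc_add (d := d) (p := p) y i
  have h2 := cc_le hE hy i
  have h3 := sum_choose_up y i
  have h4 := chi_le (d := d) (p := p) (m := y) (fun l => (hy l).trans (Nat.le_succ d))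
  omega

/-- regularity is inherited by smaller systems of conditions -/
theorem reg_le (hE : IsDual p E) {y : ι → ℕ} : ∀ (n : ℕ) (y' : ι → ℕ), ∑ l, y' l ≤ n →
    (∀ l, y l ≤ y' l) → (∀ l, y' l ≤ d) →
    finrank ℂ (linSys d p y') + ∑ l, (y' l + 1).choose 2 = (d + 2).choose 2 →
    finrank ℂ (linSys d p y) + ∑ l, (y l + 1).choose 2 = (d + 2).choose 2 := by
  intro n
  induction n with
  | zero =>
    intro y' hn hyy hd h
    have h0 : y' = y := by
      funext i
      have h1 := Finset.single_le_sum (f := y') (fun j _ => Nat.zero_le (y' j))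
        (Finset.mem_univ i)
      have h2 := hyy i
      omega
    rwa [h0] at h
  | succ n ih =>
    intro y' hn hyy hd h
    by_cases h0 : ∀ i, y' i ≤ y i
    · have h1 : y' = y := funext (fun i => le_antisymm (h0 i) (hyy i))
      rwa [h1] at h
    push Not at h0
    obtain ⟨i, hi⟩ := h0
    refine ih (dn y' i) ?_ ?_ (fun l => (dn_le y' i l).trans (hd l)) ?_
    · have h2 : ∑ l, dn y' i l + 1 = ∑ l, y' l := by
        rw [← Finset.add_sum_erase _ _ (Finset.mem_univ i),
          ← Finset.add_sum_erase _ y' (Finset.mem_univ i), dn_self]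
        have h3 : ∑ l ∈ Finset.univ.erase i, dn y' i l = ∑ l ∈ Finset.univ.erase i, y' l := by
          refine Finset.sum_congr rfl (fun l hl => ?_)
          rw [dn_ne _ (Finset.ne_of_mem_erase hl)]
        omega
      omega
    · intro l
      by_cases hl : l = i
      · rw [hl, dn_self]
        omega
      · rw [dn_ne _ hl]
        exact hyy l
    · refine reg_dn (i := i) hE (fun l => (dn_le y' i l).trans (hd l)) ?_
      rwa [up_dn (by omega)]

theorem onB_le (B : Finset ι) (m : ι → ℕ) (i : ι) : onB B m i ≤ m i := by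
  unfold onB
  split_ifs
  · exact le_rfl
  · exact Nat.zero_le _

theorem onB_mono (B : Finset ι) {m m' : ι → ℕ} (h : ∀ i, m i ≤ m' i) (i : ι) :
    onB B m i ≤ onB B m' i := by
  unfold onB
  split_ifs
  · exact h i
  · exact Nat.zero_le _

/-- the arithmetic of one step -/
theorem two_step {a x x' F s S S' δ : ℝ} (ha : 0 < a) (hs : 0 < s) (hx : 0 ≤ x) (hx' : 0 ≤ x')
    (hxF : a * x ≤ F) (hsF : s ≤ F) (hX : x' ^ 2 * a ^ 2 = x ^ 2 * a ^ 2 + F * s)
    (hδ : δ ≤ s) (hS : S = S' + δ) (h : S' + 3 * a * x' ≤ 3 * a ^ 2) :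
    S + 3 * a * x ≤ 3 * a ^ 2 := by
  have hF : 0 < F := lt_of_lt_of_le hs hsF
  -- `a * x' ≤ 2 * F`
  have h1 : (a * x') ^ 2 ≤ (2 * F) ^ 2 := by nlinarith [mul_nonneg ha.le hx]
  have h2 : a * x' ≤ 2 * F := by
    by_contra hcon
    push Not at hcon
    nlinarith [mul_nonneg ha.le hx']
  -- `(a x' - a x) * 3 F ≥ F s`
  have h3 : (a * x' - a * x) * (a * x' + a * x) = F * s := by nlinarith
  have h4 : 0 ≤ a * x' - a * x := by
    by_contra hcon
    push Not at hcon
    have h5 : 0 ≤ a * x' + a * x := by positivity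
    nlinarith [mul_pos hF hs]
  have h5 : F * s ≤ (a * x' - a * x) * (3 * F) := by
    rw [← h3]
    apply mul_le_mul_of_nonneg_left _ h4
    linarith
  have h6 : s ≤ 3 * (a * x' - a * x) := by
    by_contra hcon
    push Not at hcon
    nlinarith
  rw [hS]
  nlinarith

/-- **The two-scale window.** -/
theorem two_aux {r : ℕ} {p : Fin r → V3} {E : Fin r → Fin 3 → Derivation ℚ ℂ ℂ}
    (hE : IsDual p E) (B : Finset (Fin r)) (u M : ℕ) (hu : 1 ≤ u)
    (huM : u ≤ M) : ∀ (N : ℕ) (m : Fin r → ℕ) (S : ℕ), ∑ l, m l ≤ N →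
    (∀ i, m i ≤ M) → (∀ i, i ∉ B → m i ≤ u) →
    finrank ℂ (linSys d p (onB B m)) + ∑ i, (onB B m i + 1).choose 2 = (d + 2).choose 2 →
    finrank ℂ (linSys d p m) ≠ 0 →
    finrank ℂ (linSys d p m) + ∑ i, (m i + 1).choose 2 = (d + 2).choose 2 + S → 1 ≤ S →
    (S : ℝ) + 3 * Real.sqrt (u * M) * Real.sqrt (finrank ℂ (linSys d p m)) ≤
      3 * Real.sqrt (u * M) ^ 2 := by
  intro N
  induction N with
  | zero =>
    intro m S hN hM hms hB hne hS hS1
    exfalso
    obtain ⟨i, hi, -⟩ := exists_defect (d := d) hE (m := m) (by omega)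
    have := Finset.single_le_sum (f := m) (fun j _ => Nat.zero_le (m j)) (Finset.mem_univ i)
    omega
  | succ N ih =>
    intro m S hN hM hms hb hne hS hS1
    have hd := le_of_finrank_pos hne
    obtain ⟨i, hi0, hci⟩ := exists_defect_above (d := d) hE (b := onB B m) (m := m) hb
      (fun l => by
        unfold onB
        split_ifs
        · exact le_rfl
        · exact Nat.zero_le _) (by omega)
    have hiB : i ∉ B := by
      intro h
      unfold onB at hi0
      rw [if_pos h] at hi0
      omega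
    have hi : 1 ≤ m i := by omega
    have hiu := hms i hiB
    -- the weights
    let W : Fin r → ℕ := fun l => if l ∈ B then u else M
    let sc : Fin r → ℕ := fun l => if l ∈ B then M else u
    have hWs : ∀ l, W l * sc l = u * M := by
      intro l
      simp only [W, sc]
      split_ifs
      · rfl
      · exact Nat.mul_comm _ _
    have hsc : ∀ l, m l ≤ sc l := by
      intro l
      simp only [sc]
      split_ifs with h
      · exact hM l
      · exact hms l h
    have hscM : ∀ l, sc l ≤ M := by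
      intro l
      simp only [sc]
      split_ifs
      · exact le_rfl
      · exact huM
    have hsc1 : ∀ l, 1 ≤ sc l := by
      intro l
      simp only [sc]
      split_ifs
      · omega
      · exact hu
    have hWi : W i = M := if_neg hiB
    have hWu : ∀ l, u ≤ W l := by
      intro l
      simp only [W]
      split_ifs
      · exact le_rfl
      · exact huM
    obtain ⟨j, hj, hmax⟩ := Finset.exists_max_image (Finset.univ.filter (fun x => 1 ≤ m x))
      (fun x => cc d p (dn m x) x * W x) ⟨i, Finset.mem_filter.mpr ⟨Finset.mem_univ _, hi⟩⟩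
    rw [Finset.mem_filter] at hj
    obtain ⟨-, hj⟩ := hj
    have hmax' : ∀ l, 1 ≤ m l → cc d p (dn m l) l * W l ≤ cc d p (dn m j) j * W j := fun l hl =>
      hmax l (Finset.mem_filter.mpr ⟨Finset.mem_univ _, hl⟩)
    set X := finrank ℂ (linSys d p m) with hX
    set c := cc d p (dn m j) j with hc
    set F := c * W j with hF
    set ci := cc d p (dn m i) i with hcidef
    have hciF : ci * M ≤ F := by
      have h1 := hmax' i hi
      rwa [hWi] at h1
    -- the dimension
    have hXc : X ≤ ci * (F / u) := by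
      have h1 := chain_all hE i (F / u) ci (dn m i) le_rfl
        (by rw [dn_self]; exact hci) (by
        intro l hli hl
        rw [dn_ne _ hli] at hl
        rw [dn_comm m hli.symm, up_dn (by rw [dn_ne _ hli.symm]; exact hi)]
        rw [Nat.le_div_iff_mul_le (by omega)]
        exact (Nat.mul_le_mul_left _ (hWu l)).trans (hmax' l hl))
      rw [up_dn hi] at h1
      exact h1
    have hci1 : 1 ≤ ci := by
      rcases Nat.eq_zero_or_pos ci with h0 | h0
      · rw [h0, Nat.zero_mul] at hXc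
        omega
      · exact h0
    have hFM : M ≤ F := (Nat.le_mul_of_pos_left M hci1).trans hciF
    have hXF : X * (u * M) ≤ F * F := by
      calc X * (u * M) ≤ ci * (F / u) * (u * M) := Nat.mul_le_mul_right _ hXc
        _ = (ci * M) * (F / u * u) := by ring
        _ ≤ F * F := Nat.mul_le_mul hciF (Nat.div_mul_le_self _ _)
    have hcj : c ≤ m j := by
      have h1 := cc_le hE (y := dn m j) (fun l => (dn_le m j l).trans (hd l)) j
      rw [dn_self] at h1
      omega
    have hX' : finrank ℂ (linSys d p (dn m j)) = X + c := by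
      have h1 := cc_add (d := d) (p := p) (dn m j) j
      rw [up_dn hj] at h1
      exact h1
    have hsg : ∑ l, (m l + 1).choose 2 = ∑ l, (dn m j l + 1).choose 2 + m j := by
      have h1 := sum_choose_up (dn m j) j
      rw [up_dn hj, dn_self] at h1
      omega
    have hchi := chi_le (d := d) (p := p) (m := dn m j)
      (fun l => ((dn_le m j l).trans (hd l)).trans (Nat.le_succ d))
    obtain ⟨δ, hδ⟩ : ∃ δ, m j = c + δ := ⟨m j - c, by omega⟩
    obtain ⟨S', hS'⟩ : ∃ S', S = S' + δ := ⟨S - δ, by omega⟩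
    have hS'' : finrank ℂ (linSys d p (dn m j)) + ∑ l, (dn m j l + 1).choose 2 =
        (d + 2).choose 2 + S' := by omega
    have hcF : c * (u * M) = F * sc j := by
      rw [hF, ← hWs j]
      ring
    have hFle : F ≤ u * M := by
      rw [hF, ← hWs j, Nat.mul_comm (W j)]
      exact Nat.mul_le_mul_right _ (hcj.trans (hsc j))
    -- real numbers
    set a := Real.sqrt (u * M) with ha
    have ha2 : a ^ 2 = u * M := Real.sq_sqrt (by positivity)
    have hM0 : (1 : ℝ) ≤ M := by exact_mod_cast (by omega : 1 ≤ M)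
    have hu0 : (1 : ℝ) ≤ u := by exact_mod_cast hu
    have ha0 : 0 < a := Real.sqrt_pos.mpr (by positivity)
    set x := Real.sqrt (X : ℝ) with hx
    have hx2 : x ^ 2 = X := Real.sq_sqrt (by positivity)
    have hx0 : 0 ≤ x := Real.sqrt_nonneg _
    have hxF : a * x ≤ F := by
      have h1 : (a * x) ^ 2 ≤ (F : ℝ) ^ 2 := by
        rw [mul_pow, ha2, hx2]
        have h2 : ((X * (u * M) : ℕ) : ℝ) ≤ ((F * F : ℕ) : ℝ) := by exact_mod_cast hXF
        push_cast at h2
        nlinarith
      exact (pow_le_pow_iff_left₀ (by positivity) (by positivity) (by norm_num)).mp h1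
    have hscR : (1 : ℝ) ≤ sc j := by exact_mod_cast hsc1 j
    rcases Nat.eq_zero_or_pos S' with h0 | h0
    · -- the next system is nonspecial
      have h1 : S ≤ sc j - c := by have := hsc j; omega
      have h2 : (S : ℝ) ≤ sc j - c := by
        have h3 : ((sc j - c : ℕ) : ℝ) = (sc j : ℝ) - c := Nat.cast_sub (hcj.trans (hsc j))
        rw [← h3]
        exact_mod_cast h1
      have h3 : (c : ℝ) * a ^ 2 = F * sc j := by
        rw [ha2]
        exact_mod_cast hcF
      have h4 : (F : ℝ) ≤ a ^ 2 := by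
        rw [ha2]
        exact_mod_cast hFle
      have h5 : (sc j : ℝ) ≤ a ^ 2 := by
        rw [ha2]
        have h6 : sc j ≤ u * M := (hscM j).trans (Nat.le_mul_of_pos_left M hu)
        exact_mod_cast h6
      -- `(sc - c) a² = sc (a² - F) ≤ a² (a² - F)`
      have h6 : ((sc j : ℝ) - c) * a ^ 2 ≤ (a ^ 2 - F) * a ^ 2 := by nlinarith
      have h7 : (sc j : ℝ) - c ≤ a ^ 2 - F := le_of_mul_le_mul_right h6 (by positivity)
      nlinarith
    · have hsum : ∑ l, dn m j l ≤ N := by
        have h2 : ∑ l, dn m j l + 1 = ∑ l, m l := by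
          rw [← Finset.add_sum_erase _ _ (Finset.mem_univ j),
            ← Finset.add_sum_erase _ m (Finset.mem_univ j), dn_self]
          have h3 : ∑ l ∈ Finset.univ.erase j, dn m j l = ∑ l ∈ Finset.univ.erase j, m l := by
            refine Finset.sum_congr rfl (fun l hl => ?_)
            rw [dn_ne _ (Finset.ne_of_mem_erase hl)]
          omega
        omega
      have hle := ih (dn m j) S' hsum (fun l => (dn_le m j l).trans (hM l))
        (fun l hl => (dn_le m j l).trans (hms l hl)) (reg_le hE (∑ l, onB B m l) (onB B m) le_rfl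
          (onB_mono B (dn_le m j)) (fun l => (onB_le B m l).trans (hd l)) hb)
        (by omega) hS'' h0
      rw [hX'] at hle
      set x' := Real.sqrt ((X + c : ℕ) : ℝ) with hx'
      have hx'2 : x' ^ 2 = ((X + c : ℕ) : ℝ) := Real.sq_sqrt (by positivity)
      have hx'0 : 0 ≤ x' := Real.sqrt_nonneg _
      refine two_step (s := (sc j : ℝ)) (F := (F : ℝ)) (δ := (δ : ℝ)) (S' := (S' : ℝ)) ha0
        (by linarith) hx0 hx'0 hxF ?_ ?_ ?_ ?_ hle
      · exact_mod_cast (hscM j).trans hFM
      · rw [hx'2, hx2, ha2]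
        have h1 : (c : ℝ) * (u * M) = F * sc j := by exact_mod_cast hcF
        push_cast
        nlinarith
      · have h1 : δ ≤ sc j := by have := hsc j; omega
        exact_mod_cast h1
      · exact_mod_cast hS'

/-- **The two-scale window.** -/
theorem two_window {r : ℕ} {p : Fin r → V3} (hp : GenericPoints p) {m : Fin r → ℕ} {u M : ℕ}
    (hu : 1 ≤ u) (huM : u ≤ M) (hM : ∀ i, m i ≤ M) (B : Finset (Fin r))
    (hms : ∀ i, i ∉ B → m i ≤ u)
    (hB : finrank ℂ (linSys d p (onB B m)) + ∑ i, (onB B m i + 1).choose 2 = (d + 2).choose 2)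
    (hne : linSys d p m ≠ ⊥)
    (h : finrank ℂ (linSys d p m) + ∑ i, (m i + 1).choose 2 ≠ (d + 2).choose 2) :
    ∃ S, 1 ≤ S ∧
      finrank ℂ (linSys d p m) + ∑ i, (m i + 1).choose 2 = (d + 2).choose 2 + S ∧
      finrank ℂ (linSys d p m) + S ≤ 3 * (u * M) := by
  obtain ⟨E, hE⟩ := exists_dual p hp
  have hfin : Module.Finite ℂ (linSys d p m) :=
    Submodule.finiteDimensional_of_le (linSys_le d p _)
  have hne' : finrank ℂ (linSys d p m) ≠ 0 := fun h0 =>
    hne (Submodule.finrank_eq_zero.mp h0)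
  have h1 := chi_le (d := d) (p := p) (m := m)
    (fun i => (le_of_finrank_pos hne' i).trans (Nat.le_succ d))
  obtain ⟨S, hS⟩ : ∃ S, finrank ℂ (linSys d p m) + ∑ i, (m i + 1).choose 2 =
      (d + 2).choose 2 + S := ⟨_, (Nat.add_sub_cancel' h1).symm⟩
  have hS1 : 1 ≤ S := by omega
  have h2 := two_aux (d := d) hE B u M hu huM (∑ l, m l) m S le_rfl hM hms hB hne' hS hS1
  refine ⟨S, hS1, hS, ?_⟩
  set a := Real.sqrt ((u : ℝ) * M) with ha
  have ha2 : a ^ 2 = u * M := Real.sq_sqrt (by positivity)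
  have ha0 : 0 ≤ a := Real.sqrt_nonneg _
  set X := finrank ℂ (linSys d p m) with hX
  set x := Real.sqrt (X : ℝ) with hx
  have hx2 : x ^ 2 = X := Real.sq_sqrt (by positivity)
  have hx0 : 0 ≤ x := Real.sqrt_nonneg _
  have hS0 : (0 : ℝ) ≤ S := by positivity
  have hxa : a * x ≤ a * a := by nlinarith
  have h3 : (X : ℝ) ≤ 3 * a * x := by
    rw [← hx2]
    rcases lt_or_ge a x with h4 | h4
    · rcases eq_or_lt_of_le ha0 with h5 | h5
      · rw [← h5] at h2
        have h6 : (1 : ℝ) ≤ S := by exact_mod_cast hS1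
        nlinarith
      · have h6 : x ≤ a := le_of_mul_le_mul_left hxa h5
        exact absurd h4 (not_lt.mpr h6)
    · nlinarith
  have h4 : ((X + S : ℕ) : ℝ) ≤ ((3 * (u * M) : ℕ) : ℝ) := by
    push_cast
    rw [← ha2]
    linarith
  exact_mod_cast h4

end two

end Pool.Agent.Work.MP_0421d9_ag
end

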