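import Pool.Agent.Work.Z0421M.C04
import Pool.Agent.Work.Z0421M.C12
import Pool.Agent.Work.Z0421M.C14
import Pool.Agent.Work.Z0421M.C18
import Pool.Agent.Work.Z0421M.C20

section
/-!
Cutting off rows for systems with restricted support, with a family of multiplicities.
-/

namespace Pool.Agent.Work.MP_0421d9_ag.LD

open MvPolynomial Module

/-- shearing the points -/
theorem subM_shear_memm {D N : ℕ} {k : Fin N → ℕ} {T : Set (Fin 3 →₀ ℕ)} {q : Fin N → V3} {c : ℂ}
    (hT' : ∀ α β : Fin 3 →₀ ℕ, α ∈ T → β 2 = α 2 → β 0 ≤ α 0 → β 0 + β 1 = α 0 + α 1 → β ∈ T)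
    {F : R3} (hF : F ∈ TSm D T k (fun i => (shear c).mulVec (q i))) :
    subM (shear c) F ∈ TSm D T k q := by
  rw [mem_TSm] at hF ⊢
  obtain ⟨h1, h2, h3⟩ := hF
  refine ⟨subM_isHomogeneous _ h1, fun i => vanishTo_subM _ (h2 i), fun β hβ => ?_⟩
  obtain ⟨α, hα, h4, h5, h6⟩ := coeff_shear c F β hβ
  exact hT' α β (h3 α hα) h4 h5 h6

/-- a new flag on the line `X 2 = 0` at a general point -/
theorem flag_dimT {δ r A : ℕ} {y : Fin r → ℕ} {T : Set (Fin 3 →₀ ℕ)} (q : Fin r → V3)
    (hq : ∀ i, q i 2 ≠ 0) :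
    ∃ h : Polynomial ℂ, h ≠ 0 ∧ ∀ c, h.eval c ≠ 0 →
      finrank ℂ ↥(TSm (δ + 1) T y q ⊓ (ordSub c A).comap (onLine e1 e0).toLinearMap) ≤
        max (finrank ℂ (TSm (δ + 1) T y q) - A)
          (finrank ℂ (TSm δ {β | β + Finsupp.single 2 1 ∈ T} y q)) := by
  classical
  let φ : R3 →ₗ[ℂ] Polynomial ℂ := (onLine e1 e0).toLinearMap
  have hφ : ∀ F, φ F = onLine e1 e0 F := fun F => rfl
  set S := TSm (δ + 1) T y q with hS
  have hSfin : Module.Finite ℂ S := finite_TSm _ _ _ _
  have hfin : Module.Finite ℂ ↥(S.map φ) := inferInstance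
  obtain ⟨h, hh0, hh⟩ := @order_generic (S.map φ) hfin A
  refine ⟨h, hh0, fun c hc => ?_⟩
  have h1 := hh c hc
  have hker : finrank ℂ ↥(S ⊓ LinearMap.ker φ) ≤
      finrank ℂ (TSm δ {β | β + Finsupp.single 2 1 ∈ T} y q) := by
    have h2 : S ⊓ LinearMap.ker φ ≤
        (TSm δ {β | β + Finsupp.single 2 1 ∈ T} y q).map
          (LinearMap.mulLeft ℂ (X 2 ^ 1 : R3)) := by
      intro F hF
      obtain ⟨h3, h4⟩ := Submodule.mem_inf.mp hF
      rw [hS, mem_TSm] at h3
      rw [LinearMap.mem_ker, hφ] at h4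
      obtain ⟨G, hG1, hG2, hG3⟩ := exists_div_of_onLine h3.1 h4
      refine ⟨G, ?_, by rw [LinearMap.mulLeft_apply, hG2]⟩
      refine mem_TSm.mpr ⟨hG1, fun i => ?_, fun β hβ => ?_⟩
      · have h5 := h3.2.1 i
        rw [hG2] at h5
        exact vanishTo_of_X2_pow_mul (hq i) h5
      · rw [hG3] at hβ
        have h5 := h3.2.2 _ hβ
        rwa [add_comm] at h5
    have hfin' : Module.Finite ℂ (TSm δ {β | β + Finsupp.single 2 1 ∈ T} y q) :=
      finite_TSm _ _ _ _
    exact (Submodule.finrank_mono h2).trans (Submodule.finrank_map_le _ _)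
  have hT : finrank ℂ ↥(S ⊓ (ordSub c A).comap φ) ≤
      finrank ℂ ↥(S ⊓ LinearMap.ker φ) + (finrank ℂ ↥(S.map φ) - A) := by
    have hfT : Module.Finite ℂ ↥(S ⊓ (ordSub c A).comap φ) :=
      Submodule.finiteDimensional_of_le inf_le_left
    rw [finrank_eq_ker_add_map φ (S ⊓ (ordSub c A).comap φ)]
    have hfK : Module.Finite ℂ ↥(S ⊓ LinearMap.ker φ) :=
      Submodule.finiteDimensional_of_le inf_le_left
    have hfM : Module.Finite ℂ ↥(S.map φ ⊓ ordSub c A) :=
      Submodule.finiteDimensional_of_le inf_le_left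
    refine add_le_add ?_ ?_
    · apply Submodule.finrank_mono
      exact inf_le_inf_right _ inf_le_left
    · refine le_trans (Submodule.finrank_mono ?_) h1
      rintro _ ⟨F, hF, rfl⟩
      obtain ⟨h3, h4⟩ := Submodule.mem_inf.mp hF
      exact Submodule.mem_inf.mpr ⟨⟨F, h3, rfl⟩, h4⟩
  have h5 : finrank ℂ ↥S = finrank ℂ ↥(S ⊓ LinearMap.ker φ) + finrank ℂ ↥(S.map φ) :=
    finrank_eq_ker_add_map φ S
  refine hT.trans ?_
  rcases Nat.lt_or_ge (finrank ℂ ↥(S.map φ)) A with h6 | h6
  · refine le_trans ?_ (le_max_right _ _)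
    omega
  · refine le_trans ?_ (le_max_left _ _)
    omega

/-- **Peeling** for systems with restricted support. -/
theorem peelTm {δ κ r N A : ℕ} {T : Set (Fin 3 →₀ ℕ)} {y : Fin r → ℕ} {e : Fin N → Fin r}
    (he : Function.Injective e) (hκ : 1 ≤ κ) (hA : A ≤ δ + 2)
    (hT' : ∀ α β : Fin 3 →₀ ℕ, α ∈ T → β 2 = α 2 → β 0 ≤ α 0 → β 0 + β 1 = α 0 + α 1 → β ∈ T)
    (hkill : Killsm (δ + 1 + κ) (fun k => y (e k))
      {α | α ∈ T ∧ (α 2 < κ ∨ (α 2 = κ ∧ α 0 < A))}) :
    hTm (δ + 1 + κ) T y ≤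
      max (hTm (δ + 1) {β | β + Finsupp.single 2 κ ∈ T} (rest e y) - A)
        (hTm δ {β | β + Finsupp.single 2 (κ + 1) ∈ T} (rest e y)) := by
  classical
  set q := gpt r with hqdef
  set z := rest e y with hz
  have hq2 : ∀ i, q i 2 ≠ 0 := fun i => generic_coord_ne (gpt_generic r) i 2
  set T1 : Set (Fin 3 →₀ ℕ) := {β | β + Finsupp.single 2 κ ∈ T} with hT1
  have hT1' : ∀ α β : Fin 3 →₀ ℕ, α ∈ T1 → β 2 = α 2 → β 0 ≤ α 0 →
      β 0 + β 1 = α 0 + α 1 → β ∈ T1 := by
    intro α β hα h2 h0 h1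
    refine hT' _ _ hα ?_ ?_ ?_ <;> simp [Finsupp.add_apply, h2, h0, h1]
  obtain ⟨h, hh0, hh⟩ := flag_dimT (δ := δ) (y := z) (A := A) (T := T1) q hq2
  obtain ⟨c, hc, -⟩ := exists_eval_ne hh0 (one_ne_zero (α := Polynomial ℂ))
  have hdim := hh c hc
  have hT2 : {β : Fin 3 →₀ ℕ | β + Finsupp.single 2 1 ∈ T1} =
      {β | β + Finsupp.single 2 (κ + 1) ∈ T} := by
    ext β
    simp only [hT1, Set.mem_ofPred_eq, add_assoc, ← Finsupp.single_add]
    rw [add_comm 1 κ]
  rw [hT2] at hdim
  refine le_trans ?_ hdim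
  -- the sheared points
  set p : Fin r → V3 := fun i => (shear c).mulVec (q i) with hp
  have hp2 : ∀ i, p i 2 ≠ 0 := by
    intro i
    rw [hp]
    simp only [shear_mulVec]
    exact hq2 i
  obtain ⟨P, hP, hkill⟩ := hkill
  let M := δ + 1 + κ + 1
  let w : Fin 3 → ℕ := ![1, 0, M]
  have hw : ∀ α : Fin 3 →₀ ℕ, wt3 w α = α 0 + M * α 2 := by
    intro α
    unfold wt3
    simp [Fin.sum_univ_three, w]
  let c' := M * κ + A - 1
  have hc' : ∀ α : Fin 3 →₀ ℕ, α.degree = δ + 1 + κ → (wt3 w α ≤ c' ↔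
      (α 2 < κ ∨ (α 2 = κ ∧ α 0 < A))) := by
    intro α hα
    rw [hw, Finsupp.degree_eq_sum, Fin.sum_univ_three] at *
    have hMu : 1 ≤ M * κ := Nat.mul_pos (Nat.succ_pos _) hκ
    have h0 : α 0 < M := by omega
    constructor
    · intro h
      by_cases h1 : α 2 < κ
      · exact Or.inl h1
      · right
        have h2 : M * κ ≤ M * α 2 := Nat.mul_le_mul_left _ (by omega)
        have h3 : α 2 = κ := by
          by_contra hcon
          have h4 : M * (κ + 1) ≤ M * α 2 := Nat.mul_le_mul_left _ (by omega)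
          rw [mul_add, mul_one] at h4
          have h5 : M = δ + 1 + κ + 1 := rfl
          have h6 : c' = M * κ + A - 1 := rfl
          omega
        refine ⟨h3, ?_⟩
        rw [h3] at h
        omega
    · rintro (h | ⟨h1, h2⟩)
      · have h3 : M * (α 2 + 1) ≤ M * κ := Nat.mul_le_mul_left _ (by omega)
        rw [mul_add, mul_one] at h3
        omega
      · rw [h1]
        omega
  have hdeg : ∀ {F : R3}, F.IsHomogeneous (δ + 1 + κ) → ∀ α ∈ F.support,
      α.degree = δ + 1 + κ :=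
    fun hF α hα => degree_of_mem_support hF (mem_support_iff.mp hα)
  obtain ⟨τ, hτ, h1⟩ := cut (D := δ + 1 + κ) w c' P (fun k => y (e k)) T
    (fun G hG hG' hG'' => hkill G hG
      (fun α hα => ⟨(hG' α hα).1, (hc' α (hdeg hG α hα)).mp (hG' α hα).2⟩) hG'')
    (TSm (δ + 1 + κ) T z p) (fun F hF => ⟨(mem_TSm.mp hF).1,
      fun α hα => (mem_TSm.mp hF).2.2 α (mem_support_iff.mp hα)⟩)
  -- the part above
  have h2 : finrank ℂ ↥(TSm (δ + 1 + κ) T z p ⊓ offSub {α | wt3 w α ≤ c'}) ≤
      finrank ℂ ↥(TSm (δ + 1) T1 z q ⊓ (ordSub c A).comap (onLine e1 e0).toLinearMap) := by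
    have hfin1 : Module.Finite ℂ (TSm (δ + 1) T1 z q) := finite_TSm _ _ _ _
    have hfin : Module.Finite ℂ ↥(TSm (δ + 1) T1 z q ⊓
        (ordSub c A).comap (onLine e1 e0).toLinearMap) :=
      Submodule.finiteDimensional_of_le inf_le_left
    have h3 : TSm (δ + 1 + κ) T z p ⊓ offSub {α | wt3 w α ≤ c'} ≤
        (TSm (δ + 1) T1 z q ⊓ (ordSub c A).comap (onLine e1 e0).toLinearMap).map
          (LinearMap.mulLeft ℂ (X 2 ^ κ : R3) ∘ₗ (subM (shear (-c))).toLinearMap) := by
      intro F hF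
      rw [Submodule.mem_inf, mem_TSm, mem_offSub] at hF
      obtain ⟨⟨hF1, hF2, hF3⟩, hF4⟩ := hF
      have hF5 : ∀ α : Fin 3 →₀ ℕ, (α 2 < κ ∨ (α 2 = κ ∧ α 0 < A)) → coeff α F = 0 := by
        intro α hα
        by_contra hcon
        have h5 := degree_of_mem_support hF1 hcon
        exact hcon (hF4 α ((hc' α h5).mpr hα))
      obtain ⟨G, hG1, hG2, hG3⟩ := exists_div_X2 hF1 (fun α hα => by
        by_contra hcon
        exact (mem_support_iff.mp hα) (hF5 α (Or.inl (by omega))))
      have hGp : G ∈ TSm (δ + 1) T1 z p := by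
        refine mem_TSm.mpr ⟨hG1, fun i => ?_, fun β hβ => ?_⟩
        · have h5 := hF2 i
          rw [hG2] at h5
          exact vanishTo_of_X2_pow_mul (hp2 i) h5
        · rw [hG3] at hβ
          have h5 := hF3 _ hβ
          rwa [add_comm] at h5
      refine Submodule.mem_map.mpr ⟨subM (shear c) G, Submodule.mem_inf.mpr
        ⟨subM_shear_memm hT1' hGp, ?_⟩, ?_⟩
      · change onLine e1 e0 (subM (shear c) G) ∈ ordSub c A
        intro k hk
        rw [← onLine_shear, onLine_e1_e0, Polynomial.finsetSum_coeff]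
        refine Finset.sum_eq_zero (fun β _ => ?_)
        rw [Polynomial.coeff_C_mul_X_pow]
        split_ifs with h8 h9
        · rw [hG3, hF5 _ (Or.inr ⟨?_, ?_⟩), zero_mul]
          · rw [Finsupp.add_apply, Finsupp.single_eq_same, h9, add_zero]
          · rw [Finsupp.add_apply, Finsupp.single_eq_of_ne (by decide), zero_add]
            omega
        · rw [mul_zero]
        · rfl
      · rw [LinearMap.comp_apply, LinearMap.mulLeft_apply, AlgHom.toLinearMap_apply, subM_subM]
        have h9 : shear c * shear (-c) = 1 := by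
          have h10 := shear_mul (-c)
          rwa [neg_neg] at h10
        rw [h9, subM_one, hG2]
    exact (Submodule.finrank_mono h3).trans (Submodule.finrank_map_le _ _)
  refine le_trans ?_ (h1.trans h2)
  -- all the points
  let P' : Fin r → V3 := Function.extend e (fun k i => τ ^ w i * P k i) p
  have hP'1 : ∀ k, P' (e k) = fun i => τ ^ w i * P k i := fun k => he.extend_apply _ _ k
  have hP'2 : ∀ i, i ∉ Set.range e → P' i = p i := by
    intro i hi
    exact Function.extend_apply' _ _ _ (fun ⟨k, hk⟩ => hi ⟨k, hk⟩)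
  refine (hTm_le P').trans ?_
  have hfin0 : Module.Finite ℂ (TSm (δ + 1 + κ) T z p) := finite_TSm _ _ _ _
  have hfin : Module.Finite ℂ ↥(TSm (δ + 1 + κ) T z p ⊓
      ⨅ k, vanSub (fun i => τ ^ w i * P k i) (y (e k))) :=
    Submodule.finiteDimensional_of_le inf_le_left
  apply Submodule.finrank_mono
  intro F hF
  obtain ⟨hF1, hF2, hF3⟩ := mem_TSm.mp hF
  rw [Submodule.mem_inf, Submodule.mem_iInf]
  refine ⟨mem_TSm.mpr ⟨hF1, fun i => ?_, hF3⟩, fun k => ?_⟩
  · by_cases hi : i ∈ Set.range e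
    · obtain ⟨k, rfl⟩ := hi
      rw [hz, rest_mem]
      exact mp_vanish_zero _ _
    · have h4 := hF2 i
      rw [hP'2 i hi] at h4
      rw [hz, rest_not_mem hi]
      exact h4
  · have h4 := hF2 (e k)
    rw [hP'1] at h4
    exact h4

end Pool.Agent.Work.MP_0421d9_ag.LD
end

section
/-!
Strips of a rectangle with a family of multiplicities (helper84, after VStrip of helper82).
-/

namespace Pool.Agent.Work.MP_0421d9_ag.LD

open MvPolynomial Module

namespace VS

/-- the order at a general point of the top row -/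
theorem kills_top_m {R L N B : ℕ} {k : Fin N → ℕ} (hR1 : 1 ≤ R) (hL : 1 ≤ L)
    (h1 : hRm (R + 1) L k ≤ B) (h0 : hRm R L k = 0) :
    Killsm (R + L - 1) k
      {α | α ∈ rect (R + 1) L ∧ (α 2 < R ∨ (α 2 = R ∧ B ≤ α 0))} := by
  classical
  have eD : R + 1 + L - 2 = R + L - 1 := by omega
  set V := TSm (R + L - 1) (rect (R + 1) L) k (gpt N) with hV
  have hVd : finrank ℂ V ≤ B := by
    unfold hRm hTm at h1
    rw [eD] at h1
    exact h1
  obtain ⟨h, hh0, hh⟩ := order_generic (V.map (topc R)) B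
  set g : Polynomial ℂ := ∏ i : Fin N, (Polynomial.C (gpt N i 0) -
    Polynomial.X * Polynomial.C (gpt N i 1)) with hg
  have hg0 : g ≠ 0 := by
    rw [hg, Finset.prod_ne_zero_iff]
    intro i _ h2
    have h3 := congrArg (Polynomial.eval 0) h2
    simp only [Polynomial.eval_sub, Polynomial.eval_mul, Polynomial.eval_C, Polynomial.eval_X,
      zero_mul, sub_zero, Polynomial.eval_zero] at h3
    exact gpt_ne i 0 h3
  obtain ⟨c, hc, hc'⟩ := exists_eval_ne hh0 hg0
  have hne : ∀ i, gpt N i 0 - c * gpt N i 1 ≠ 0 := by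
    rw [hg, Polynomial.eval_prod, Finset.prod_ne_zero_iff] at hc'
    intro i
    have h2 := hc' i (Finset.mem_univ i)
    rw [Polynomial.eval_sub, Polynomial.eval_mul, Polynomial.eval_C, Polynomial.eval_C,
      Polynomial.eval_X] at h2
    exact h2
  have h2 := hh c hc
  have h3 : finrank ℂ ↥(V.map (topc R)) ≤ B := (Submodule.finrank_map_le _ _).trans hVd
  have h4 : V.map (topc R) ⊓ ordSub c B = ⊥ := by
    have hfin : Module.Finite ℂ ↥(V.map (topc R) ⊓ ordSub c B) :=
      Submodule.finiteDimensional_of_le inf_le_left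
    rw [← Submodule.finrank_eq_zero (R := ℂ)]
    omega
  have h5 : TSm (R + L - 2) (rect R L) k (gpt N) = ⊥ := by
    rw [← Submodule.finrank_eq_zero (R := ℂ)]
    exact h0
  refine ⟨fun i => (shear c).mulVec (gpt N i), ?_, ?_⟩
  · intro i l
    simp only [shear_mulVec]
    fin_cases l
    · exact hne i
    · exact gpt_ne i 1
    · exact gpt_ne i 2
  · intro G hG1 hG2 hG3
    have h6 : subM (shear c) G ∈ V := by
      rw [hV, mem_TSm]
      refine ⟨subM_isHomogeneous _ hG1, fun i => vanishTo_subM _ (hG3 i), fun β hβ => ?_⟩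
      obtain ⟨α, hα, h7, h8, -⟩ := coeff_shear c G β hβ
      have h9 := (hG2 α (mem_support_iff.mpr hα)).1
      exact ⟨by rw [h7]; exact h9.1, lt_of_le_of_lt h8 h9.2⟩
    have h7 : topc R (subM (shear c) G) ∈ V.map (topc R) ⊓ ordSub c B := by
      refine Submodule.mem_inf.mpr ⟨⟨_, h6, rfl⟩, ?_⟩
      intro j hj
      rw [topc_shear, ← onLine_shear, onLine_e1_e0, Polynomial.finsetSum_coeff]
      refine Finset.sum_eq_zero (fun β hβ => ?_)
      rw [Polynomial.coeff_C_mul_X_pow]
      split_ifs with h8 h9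
      · exfalso
        have h10 := mem_support_iff.mp hβ
        rw [coeff_divMonomial] at h10
        have h11 := (hG2 _ (mem_support_iff.mpr h10)).2
        have e0' : (Finsupp.single (2 : Fin 3) R + β) 0 = β 0 := by
          rw [Finsupp.add_apply, Finsupp.single_eq_of_ne (by decide), zero_add]
        have e2' : (Finsupp.single (2 : Fin 3) R + β) 2 = R + β 2 := by
          rw [Finsupp.add_apply, Finsupp.single_eq_same]
        rcases h11 with h11 | ⟨-, h11⟩
        · rw [e2'] at h11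
          omega
        · rw [e0'] at h11
          omega
      · rw [mul_zero]
      · rfl
    rw [h4, Submodule.mem_bot] at h7
    have h8 : subM (shear c) G = 0 := by
      obtain ⟨h9, h10, h11⟩ := mem_TSm.mp h6
      have e3 : R + L - 1 = (R + L - 2) + 1 := by omega
      have h12 : ∀ α ∈ (subM (shear c) G).support, α 2 < R := by
        intro α hα
        have h13 := (h11 α (mem_support_iff.mp hα)).1
        by_contra hcon
        have h14 : α 2 = R := by omega
        apply mem_support_iff.mp hα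
        rw [← topc_coeff h9 h14 (degree_of_mem_support h9 (mem_support_iff.mp hα)), h7,
          Polynomial.coeff_zero]
      obtain ⟨G', hG'1, hG'2, hG'3⟩ := exists_div_X1 (F := subM (shear c) G) (δ := R + L - 2)
        (u := 1) (by rw [← e3]; exact h9) (fun α hα => by
          have h13 := h12 α hα
          have h14 := (h11 α (mem_support_iff.mp hα)).2
          have h15 := deg_eq h9 hα
          omega)
      have h13 : G' ∈ TSm (R + L - 2) (rect R L) k (gpt N) := by
        rw [mem_TSm]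
        refine ⟨hG'1, fun i => ?_, fun β hβ => ?_⟩
        · have h14 := h10 i
          rw [hG'2] at h14
          exact vanishTo_of_X1 (gpt_ne i 1) h14
        · rw [hG'3] at hβ
          have h14 := h12 _ (mem_support_iff.mpr hβ)
          have h15 := (h11 _ hβ).2
          rw [(single1_apply 1 β).2] at h14
          rw [(single1_apply 1 β).1] at h15
          exact ⟨h14, h15⟩
      rw [h5, Submodule.mem_bot] at h13
      rw [hG'2, h13, mul_zero]
    have h9 := congrArg (subM (shear (-c))) h8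
    have h10 : shear c * shear (-c) = 1 := by
      have h11 := shear_mul (-c)
      rwa [neg_neg] at h11
    rwa [subM_subM, h10, subM_one, map_zero] at h9

theorem kills_rev_m {R L N B : ℕ} {k : Fin N → ℕ} (hL : 1 ≤ L) (hB : B ≤ L)
    (hK : Killsm (R + L - 1) k
      {α | α ∈ rect (R + 1) L ∧ (α 2 < R ∨ (α 2 = R ∧ B ≤ α 0))}) :
    Killsm (R + L - 1) k
      {α | α ∈ rect (R + 1) L ∧ (α 2 < R ∨ (α 2 = R ∧ α 0 < L - B))} := by
  obtain ⟨p, hp, hK⟩ := hK
  refine ⟨fun i => ![p i 1 * p i 1, p i 0 * p i 1, p i 0 * p i 2], ?_, ?_⟩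
  · intro i l
    fin_cases l
    · exact mul_ne_zero (hp i 1) (hp i 1)
    · exact mul_ne_zero (hp i 0) (hp i 1)
    · exact mul_ne_zero (hp i 0) (hp i 2)
  · intro G hG1 hG2 hG3
    have hT : ∀ α ∈ G.support, α ∈ rect (R + 1) L := fun α hα => (hG2 α hα).1
    refine rev_eq_zero hL hG1 hT (hK _ (rev_isHomogeneous hL hT) (fun β hβ => ?_) (fun i => ?_))
    · obtain ⟨α, hα, rfl⟩ := coeff_rev_ne (mem_support_iff.mp hβ)
      have h1 := hG2 α (mem_support_iff.mpr hα)
      have h2 : α 2 < R + 1 := h1.1.1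
      have h3 : α 0 < L := h1.1.2
      have h4 := h1.2
      unfold rex
      refine ⟨⟨?_, ?_⟩, ?_⟩
      · rw [ex3_two]
        exact h2
      · rw [ex3_zero]
        omega
      · rw [ex3_zero, ex3_two]
        omega
    · have h1 := vanishTo_comp ph (F := G) (u := p i) (m := k i) (by
        have e1 : (fun j => eval (p i) (ph j)) =
            ![p i 1 * p i 1, p i 0 * p i 1, p i 0 * p i 2] := by
          funext j
          fin_cases j
          · change eval (p i) (X 1 * X 1) = p i 1 * p i 1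
            rw [map_mul, eval_X]
          · change eval (p i) (X 0 * X 1) = p i 0 * p i 1
            rw [map_mul, eval_X, eval_X]
          · change eval (p i) (X 0 * X 2) = p i 0 * p i 2
            rw [map_mul, eval_X, eval_X]
        rw [e1]
        exact hG3 i)
      rw [aeval_ph hL hG1 hT] at h1
      refine Tr.vanishTo_of_eval_ne h1 ?_
      rw [map_mul, map_pow, map_pow, eval_X, eval_X]
      exact mul_ne_zero (pow_ne_zero _ (hp i 0)) (pow_ne_zero _ (hp i 1))

/-- higher degree -/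
theorem kills_shift_m {H R L N A : ℕ} {k : Fin N → ℕ} (hL : 1 ≤ L) (hRH : R + 1 ≤ H)
    (hK : Killsm (R + L - 1) k
      {α | α ∈ rect (R + 1) L ∧ (α 2 < R ∨ (α 2 = R ∧ α 0 < A))}) :
    Killsm (H + L - 2) k {α | α ∈ rect H L ∧ (α 2 < R ∨ (α 2 = R ∧ α 0 < A))} := by
  obtain ⟨p, hp, hK⟩ := hK
  refine ⟨p, hp, fun G hG1 hG2 hG3 => ?_⟩
  have e1 : H + L - 2 = (R + L - 1) + (H - R - 1) := by omega
  obtain ⟨G', hG'1, hG'2, hG'3⟩ := exists_div_X1 (F := G) (δ := R + L - 1)
    (u := H - R - 1) (by rw [← e1]; exact hG1) (fun α hα => by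
      have h1 := deg_eq hG1 hα
      have h2 := hG2 α hα
      have h3 : α 0 < L := h2.1.2
      have h4 := h2.2
      omega)
  rw [hG'2, hK G' hG'1 (fun β hβ => ?_) (fun i => ?_), mul_zero]
  · rw [MvPolynomial.mem_support_iff, hG'3] at hβ
    have h1 := hG2 _ (mem_support_iff.mpr hβ)
    have h2 := h1.1.2
    have h3 := h1.2
    rw [(single1_apply _ β).1] at h2
    rw [(single1_apply _ β).1, (single1_apply _ β).2] at h3
    refine ⟨⟨by omega, h2⟩, h3⟩
  · have h1 := hG3 i
    rw [hG'2] at h1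
    exact vanishTo_of_X1 (hp i 1) h1

end VS

/-- a strip of a rectangle, cut off by some of the points -/
theorem rect_strip_m {H L R X r N : ℕ} {y : Fin r → ℕ} (e : Fin N → Fin r)
    (he : Function.Injective e) (hR1 : 1 ≤ R) (hRH : R + 1 ≤ H) (hL : 2 ≤ L) (hX : X ≤ L)
    (h1 : hRm (R + 1) L (y ∘ e) ≤ X) (h0 : hRm R L (y ∘ e) = 0) :
    RStep H L R X y (rest e y) := by
  refine ⟨hR1, hRH, hX, fun i => ?_, ?_⟩
  · by_cases hi : i ∈ Set.range e
    · obtain ⟨k, rfl⟩ := hi
      right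
      exact rest_mem k
    · left
      exact rest_not_mem hi
  have hL1 : 1 ≤ L := by omega
  have hK := VS.kills_shift_m hL1 hRH (VS.kills_rev_m hL1 hX (VS.kills_top_m hR1 hL1 h1 h0))
  have e1 : H + L - 3 - R + 1 + R = H + L - 2 := by omega
  have e2 : H + L - 3 - R + 1 = H - R + L - 2 := by omega
  have e3 : H + L - 3 - R = H - R - 1 + L - 2 := by omega
  rw [← e1] at hK
  have h2 := peelTm (y := y) he hR1 (A := L - X) (by omega) (T := rect H L)
    (fun α' β' h3 h4 h5 _ => ⟨by rw [h4]; exact h3.1, lt_of_le_of_lt h5 h3.2⟩) hK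
  have e4 : {γ : Fin 3 →₀ ℕ | γ + Finsupp.single 2 R ∈ rect H L} = rect (H - R) L := by
    ext γ
    constructor
    · rintro ⟨h3, h4⟩
      rw [Finsupp.add_apply, Finsupp.single_eq_same] at h3
      rw [Finsupp.add_apply, Finsupp.single_eq_of_ne (by decide), add_zero] at h4
      exact ⟨by omega, h4⟩
    · rintro ⟨h3, h4⟩
      refine ⟨?_, ?_⟩
      · rw [Finsupp.add_apply, Finsupp.single_eq_same]
        omega
      · rw [Finsupp.add_apply, Finsupp.single_eq_of_ne (by decide), add_zero]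
        exact h4
  have e5 : {γ : Fin 3 →₀ ℕ | γ + Finsupp.single 2 (R + 1) ∈ rect H L} = rect (H - R - 1) L := by
    ext γ
    constructor
    · rintro ⟨h3, h4⟩
      rw [Finsupp.add_apply, Finsupp.single_eq_same] at h3
      rw [Finsupp.add_apply, Finsupp.single_eq_of_ne (by decide), add_zero] at h4
      exact ⟨by omega, h4⟩
    · rintro ⟨h3, h4⟩
      refine ⟨?_, ?_⟩
      · rw [Finsupp.add_apply, Finsupp.single_eq_same]
        omega
      · rw [Finsupp.add_apply, Finsupp.single_eq_of_ne (by decide), add_zero]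
        exact h4
  rw [e1, e2, e3, e4, e5] at h2
  exact h2

end Pool.Agent.Work.MP_0421d9_ag.LD
end

section
/-!
Balanced strips for arbitrary multiplicities (helper7, after the plan of helper79).

`κ = 2 u - q`, the multiplicities on `P¹ × P¹` are `k i = κ - v i`, the bidegree is
`(H - 1, κ)`; there the dimension is the expected one by `rect_half`.
-/

namespace Pool.Agent.Work.MP_0421d9_ag.LD

open MvPolynomial Module

theorem mg_two_choose (n : ℕ) : 2 * (n + 1).choose 2 = n * (n + 1) := by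
  rw [Nat.choose_two_right]
  have h : 2 ∣ (n + 1) * (n + 1 - 1) := by
    rw [Nat.add_sub_cancel, mul_comm]
    exact (Nat.even_mul_succ_self n).two_dvd
  rw [Nat.mul_div_cancel' h, Nat.add_sub_cancel, mul_comm]

/-- `C(v + 1, 2)` for `v = κ - k` -/
theorem mg_choose_sub {v k κ : ℕ} (h : v + k = κ) :
    (v + 1).choose 2 + κ * k + k = (κ + 1).choose 2 + (k + 1).choose 2 := by
  have h1 := mg_two_choose v
  have h2 := mg_two_choose k
  have h3 := mg_two_choose κ
  subst h
  have h4 : 2 * ((v + 1).choose 2 + (v + k) * k + k) =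
      2 * ((v + k + 1).choose 2 + (k + 1).choose 2) := by
    calc 2 * ((v + 1).choose 2 + (v + k) * k + k)
        = 2 * (v + 1).choose 2 + 2 * ((v + k) * k) + 2 * k := by ring
      _ = v * (v + 1) + 2 * ((v + k) * k) + 2 * k := by rw [h1]
      _ = (v + k) * (v + k + 1) + k * (k + 1) := by ring
      _ = 2 * (v + k + 1).choose 2 + 2 * (k + 1).choose 2 := by rw [h3, h2]
      _ = 2 * ((v + k + 1).choose 2 + (k + 1).choose 2) := by ring
  omega

end Pool.Agent.Work.MP_0421d9_ag.LD
end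

section
/-!
Arbitrary many points of multiplicity at most `u` added to a set of points which imposes
independent conditions.
-/

namespace Pool.Agent.Work.MP_0421d9_ag.LD

open MvPolynomial Module

theorem tr_two_choose (n : ℕ) : 2 * (n + 1).choose 2 = n * (n + 1) := by
  rw [Nat.choose_two_right]
  have h : 2 ∣ (n + 1) * (n + 1 - 1) := by
    rw [Nat.add_sub_cancel, mul_comm]
    exact (Nat.even_mul_succ_self n).two_dvd
  rw [Nat.mul_div_cancel' h, Nat.add_sub_cancel, mul_comm]

/-- the window -/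
theorem tr_base {r u M D U S : ℕ} {y : Fin r → ℕ} (B : Finset (Fin r)) (hu : 1 ≤ u)
    (huM : u ≤ M) (hM : ∀ i, y i ≤ M) (hms : ∀ i, i ∉ B → y i ≤ u)
    (hreg : hPm D (onB B y) + ∑ i, (onB B y i + 1).choose 2 = (D + 2).choose 2)
    (h : 3 * (u * M) ≤ U + S) :
    (hPm D y : ℤ) ≤ max (U : ℤ) (MM.chi D y + S) := by
  have hp := gpt_generic r
  by_cases h0 : linSys D (gpt r) y = ⊥
  · have h1 : hPm D y = 0 := by
      unfold hPm
      rw [h0, finrank_bot]
    rw [h1]
    exact le_max_of_le_left (by positivity)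
  by_cases h1 : finrank ℂ (linSys D (gpt r) y) + ∑ i, (y i + 1).choose 2 = (D + 2).choose 2
  · apply le_max_of_le_right
    unfold MM.chi hPm
    have h2 : ((finrank ℂ (linSys D (gpt r) y) + ∑ i, (y i + 1).choose 2 : ℕ) : ℤ) =
        (((D + 2).choose 2 : ℕ) : ℤ) := by rw [h1]
    push_cast at h2 ⊢
    linarith
  obtain ⟨S₁, hS₁, h2, h3⟩ := two_window hp hu huM hM B hms hreg h0 h1
  by_contra hcon
  rw [not_le, max_lt_iff] at hcon
  obtain ⟨h4, h5⟩ := hcon
  have h4' : U + 1 ≤ hPm D y := by exact_mod_cast h4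
  have h5' : S + 1 ≤ S₁ := by
    unfold MM.chi at h5
    have h6 : ((finrank ℂ (linSys D (gpt r) y) + ∑ i, (y i + 1).choose 2 : ℕ) : ℤ) =
        (((D + 2).choose 2 + S₁ : ℕ) : ℤ) := by rw [h2]
    have h7 : hPm D y = finrank ℂ (linSys D (gpt r) y) := rfl
    rw [h7] at h5
    push_cast at h5 h6
    have h8 : (S : ℤ) + 1 ≤ S₁ := by linarith
    exact_mod_cast h8
  have h7 : hPm D y = finrank ℂ (linSys D (gpt r) y) := rfl
  omega

/-- a system with many more forms than conditions -/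
theorem tr_regular {r u M D : ℕ} {y : Fin r → ℕ} (B : Finset (Fin r)) (hu : 1 ≤ u)
    (huM : u ≤ M) (hM : ∀ i, y i ≤ M) (hms : ∀ i, i ∉ B → y i ≤ u)
    (hreg : hPm D (onB B y) + ∑ i, (onB B y i + 1).choose 2 = (D + 2).choose 2)
    (h : 3 * (u * M) + ∑ i, (y i + 1).choose 2 ≤ (D + 2).choose 2) :
    hPm D y + ∑ i, (y i + 1).choose 2 = (D + 2).choose 2 := by
  have hp := gpt_generic r
  have hcount := MM.hPm_count D y
  have huM' : 1 ≤ u * M := Nat.mul_pos hu (hu.trans huM)
  by_contra hcon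
  have hcon' : finrank ℂ (linSys D (gpt r) y) + ∑ i, (y i + 1).choose 2 ≠ (D + 2).choose 2 := hcon
  have h7 : hPm D y = finrank ℂ (linSys D (gpt r) y) := rfl
  have h0 : linSys D (gpt r) y ≠ ⊥ := by
    intro h0
    rw [h7, h0, finrank_bot] at hcount
    omega
  obtain ⟨S₁, hS₁, h2, h3⟩ := two_window hp hu huM hM B hms hreg h0 hcon'
  omega

theorem onB_congr {r : ℕ} {B : Finset (Fin r)} {y m : Fin r → ℕ} (h : ∀ i ∈ B, y i = m i) :
    onB B y = onB B m := by
  funext i
  unfold onB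
  split_ifs with hi
  · exact h i hi
  · rfl

end Pool.Agent.Work.MP_0421d9_ag.LD
end

section
/-!
Plane systems with one or two points of arbitrary multiplicity: quasi-homogeneous systems and
systems of bidegree `(a, b)` on `P¹ × P¹`.
-/

namespace Pool.Agent.Work.MP_0421d9_ag.LD

open MvPolynomial Module

/-! ### multiplicity at a coordinate point -/

theorem X_dvd_translate (i : Fin 3) (F : R3) :
    (X i : R3) ∣ translate (Pi.single i 1) F - aeval (fun j => if j = i then 1 else X j) F := by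
  induction F using MvPolynomial.induction_on with
  | C c =>
    unfold translate
    rw [algHom_C, algHom_C, sub_self]
    exact dvd_zero _
  | add f g hf hg =>
    have h : translate (Pi.single i 1) (f + g) -
        aeval (fun j => if j = i then (1 : R3) else X j) (f + g) =
        (translate (Pi.single i 1) f - aeval (fun j => if j = i then (1 : R3) else X j) f) +
        (translate (Pi.single i 1) g - aeval (fun j => if j = i then (1 : R3) else X j) g) := by
      unfold translate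
      rw [map_add, map_add]
      ring
    rw [h]
    exact dvd_add hf hg
  | mul_X f k hf =>
    have h1 : (X i : R3) ∣ (C ((Pi.single i 1 : V3) k) + X k) - (if k = i then (1 : R3) else X k) := by
      by_cases hk : k = i
      · subst hk
        rw [if_pos rfl, Pi.single_eq_same, C_1, add_sub_cancel_left]
      · rw [if_neg hk, Pi.single_eq_of_ne hk, C_0, zero_add, sub_self]
        exact dvd_zero _
    have h : translate (Pi.single i 1) (f * X k) -
        aeval (fun j => if j = i then (1 : R3) else X j) (f * X k) =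
        (translate (Pi.single i 1) f - aeval (fun j => if j = i then (1 : R3) else X j) f) *
          (C ((Pi.single i 1 : V3) k) + X k) +
        aeval (fun j => if j = i then (1 : R3) else X j) f *
          ((C ((Pi.single i 1 : V3) k) + X k) - (if k = i then (1 : R3) else X k)) := by
      unfold translate
      rw [map_mul, map_mul, aeval_X, aeval_X]
      ring
    rw [h]
    exact dvd_add (Dvd.dvd.mul_right hf _) (Dvd.dvd.mul_left h1 _)

theorem aeval_one_monomial (i : Fin 3) (γ : Fin 3 →₀ ℕ) (c : ℂ) :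
    aeval (fun j => if j = i then (1 : R3) else X j) (monomial γ c) = monomial (γ.erase i) c := by
  rw [aeval_monomial, monomial_eq (s := γ.erase i)]
  congr 1
  rw [Finsupp.prod_fintype _ _ (fun j => pow_zero _), Finsupp.prod_fintype _ _ (fun j => pow_zero _)]
  refine Finset.prod_congr rfl fun j _ => ?_
  by_cases hj : j = i
  · subst hj
    rw [if_pos rfl, one_pow, Finsupp.erase_same, pow_zero]
  · rw [if_neg hj, Finsupp.erase_ne hj]

theorem degree_erase (i : Fin 3) (α : Fin 3 →₀ ℕ) : (α.erase i).degree + α i = α.degree := by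
  have h := Finsupp.erase_add_single i α
  have h2 := congrArg Finsupp.degree h
  rw [map_add, Finsupp.degree_single] at h2
  exact h2

theorem coeff_translate_single {d : ℕ} {F : R3} (hF : F.IsHomogeneous d) (i : Fin 3)
    {α : Fin 3 →₀ ℕ} (hα : α.degree = d) :
    coeff (α.erase i) (translate (Pi.single i 1) F) = coeff α F := by
  classical
  obtain ⟨G, hG⟩ := X_dvd_translate i F
  have h1 : translate (Pi.single i 1) F =
      aeval (fun j => if j = i then (1 : R3) else X j) F + X i * G := by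
    rw [← hG]; ring
  rw [h1, coeff_add, coeff_X_mul', if_neg (by simp), add_zero]
  conv_lhs => rw [F.as_sum]
  rw [map_sum, coeff_sum]
  simp only [aeval_one_monomial, coeff_monomial]
  have hkey : ∀ γ ∈ F.support, γ.erase i = α.erase i → γ = α := by
    intro γ hγ h
    have hd : γ.degree = d := degree_of_mem_support hF (mem_support_iff.mp hγ)
    have e1 := degree_erase i γ
    have e2 := degree_erase i α
    rw [h] at e1
    have e3 : γ i = α i := by omega
    rw [← Finsupp.erase_add_single i γ, ← Finsupp.erase_add_single i α, h, e3]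
  by_cases hs : α ∈ F.support
  · rw [Finset.sum_eq_single α]
    · rw [if_pos rfl]
    · intro γ hγ hne
      rw [if_neg (fun h => hne (hkey γ hγ h))]
    · exact fun h => absurd hs h
  · rw [notMem_support_iff.mp hs]
    refine Finset.sum_eq_zero fun γ hγ => ?_
    rw [if_neg (fun h => hs (hkey γ hγ h ▸ hγ))]

/-- multiplicity at least `n` at a coordinate point bounds the exponents -/
theorem exp_le_of_vanishTo {d n : ℕ} {F : R3} (hF : F.IsHomogeneous d) {i : Fin 3}
    (h : VanishTo F (Pi.single i 1) n) {α : Fin 3 →₀ ℕ} (hα : coeff α F ≠ 0) : α i + n ≤ d := by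
  have hd : α.degree = d := degree_of_mem_support hF hα
  by_contra hcon
  have e1 := degree_erase i α
  have h1 := vanishTo_iff_coeff.mp h (α.erase i) (by omega)
  rw [coeff_translate_single hF i hd] at h1
  exact hα h1

/-! ### upper bounds by semicontinuity -/

/-! ### the two families -/

end Pool.Agent.Work.MP_0421d9_ag.LD
end

section
/-!
Three points of arbitrary multiplicities and arbitrarily many points of multiplicity at most `u`.
-/

namespace Pool.Agent.Work.MP_0421d9_ag.LD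

open MvPolynomial Module

section corner

variable {κ : Type} {D : ℕ} (f : κ → Fin 3) (m : κ → ℕ)

/-- the forms of degree `D` with the exponents bounded as for a point of multiplicity `m i` at the
coordinate point `f i`, for `i ∈ S` -/
noncomputable def cornV (D : ℕ) (S : Finset κ) : Submodule ℂ R3 :=
  Rd D ⊓ offSub {α | ∃ i ∈ S, D < α (f i) + m i}

theorem mem_cornV {S : Finset κ} {F : R3} : F ∈ cornV f m D S ↔ F.IsHomogeneous D ∧
    ∀ α, coeff α F ≠ 0 → ∀ i ∈ S, α (f i) + m i ≤ D := by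
  unfold cornV
  rw [Submodule.mem_inf, mem_offSub]
  constructor
  · rintro ⟨h1, h2⟩
    refine ⟨h1, fun α hα i hi => ?_⟩
    by_contra hcon
    exact hα (h2 α ⟨i, hi, by omega⟩)
  · rintro ⟨h1, h2⟩
    refine ⟨h1, fun α hα => ?_⟩
    obtain ⟨i, hi, h3⟩ := hα
    by_contra hcon
    have := h2 α hcon i hi
    omega

theorem cornV_bound [DecidableEq κ] {I : Finset κ} (hf : Set.InjOn f I) (h1 : ∀ i ∈ I, m i ≤ D + 1)
    (h2 : ∀ i ∈ I, ∀ j ∈ I, i ≠ j → m i + m j ≤ D + 1) (S : Finset κ) (hS : S ⊆ I) :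
    finrank ℂ (cornV f m D S) + ∑ i ∈ S, (m i + 1).choose 2 ≤ (D + 2).choose 2 := by
  induction S using Finset.induction_on with
  | empty =>
    rw [Finset.sum_empty, Nat.add_zero, ← finrank_Rd]
    exact Submodule.finrank_mono inf_le_left
  | insert k S hk ih =>
    have ih' := ih (fun i hi => hS (Finset.mem_insert_of_mem hi))
    have hkI : k ∈ I := hS (Finset.mem_insert_self k S)
    set W : Submodule ℂ R3 := (Hm (m k)).map (LinearMap.mulLeft ℂ (X (f k) ^ (D + 1 - m k) : R3))
      with hW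
    have hXne : (X (f k) ^ (D + 1 - m k) : R3) ≠ 0 := pow_ne_zero _ (X_ne_zero _)
    have hWdim : finrank ℂ W = (m k + 1).choose 2 := by
      rw [hW, finrank_map_mulLeft hXne, finrank_Hm]
    -- the exponents of the elements of `W`
    have hWexp : ∀ F ∈ W, F.IsHomogeneous D ∧ ∀ α, coeff α F ≠ 0 →
        D < α (f k) + m k ∧ ∀ i, f i ≠ f k → α (f i) + 1 ≤ m k := by
      intro F hF
      obtain ⟨G, hG, rfl⟩ := hF
      change (X (f k) ^ (D + 1 - m k) * G).IsHomogeneous D ∧ ∀ α,
        coeff α (X (f k) ^ (D + 1 - m k) * G) ≠ 0 → _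
      have hG' : G ∈ Hm (m k) := hG
      rcases Nat.eq_zero_or_pos (m k) with h0 | h0
      · rw [h0, mem_Hm_zero] at hG'
        rw [hG', mul_zero]
        refine ⟨isHomogeneous_zero _ _ _, fun α hα => ?_⟩
        rw [coeff_zero] at hα
        exact absurd rfl hα
      obtain ⟨w, hw⟩ : ∃ w, m k = w + 1 := ⟨m k - 1, by omega⟩
      rw [hw, mem_Hm_succ] at hG'
      have hmk := h1 k hkI
      refine ⟨?_, fun α hα => ?_⟩
      · have h3 := ((isHomogeneous_X ℂ (f k)).pow (D + 1 - m k)).mul hG'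
        rw [Nat.one_mul] at h3
        have e1 : D + 1 - m k + w = D := by omega
        rwa [e1] at h3
      · have h3 : X (f k) ^ (D + 1 - m k) * G =
            monomial (Finsupp.single (f k) (D + 1 - m k)) 1 * G := by
          rw [X_pow_eq_monomial]
        rw [h3, coeff_monomial_mul'] at hα
        split_ifs at hα with h4
        · rw [one_mul] at hα
          have h5 := degree_of_mem_support hG' hα
          have h6 : (Finsupp.single (f k) (D + 1 - m k)) (f k) ≤ α (f k) := h4 (f k)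
          rw [Finsupp.single_eq_same] at h6
          have h7 : (α - Finsupp.single (f k) (D + 1 - m k)).degree + (D + 1 - m k) =
              α.degree := by
            have h8 := congrArg Finsupp.degree (tsub_add_cancel_of_le h4)
            rw [map_add, Finsupp.degree_single] at h8
            exact h8
          refine ⟨by omega, fun i hi => ?_⟩
          have h9 : (α - Finsupp.single (f k) (D + 1 - m k)) (f i) = α (f i) := by
            rw [Finsupp.coe_tsub, Pi.sub_apply, Finsupp.single_eq_of_ne hi, Nat.sub_zero]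
          have h10 : (α - Finsupp.single (f k) (D + 1 - m k)) (f i) ≤
              (α - Finsupp.single (f k) (D + 1 - m k)).degree :=
            Finsupp.le_degree (f i) _
          omega
        · exact absurd rfl hα
    have hle1 : W ≤ cornV f m D S := by
      intro F hF
      obtain ⟨h3, h4⟩ := hWexp F hF
      rw [mem_cornV]
      refine ⟨h3, fun α hα i hi => ?_⟩
      have hik : i ≠ k := fun h => hk (h ▸ hi)
      have hiI : i ∈ I := hS (Finset.mem_insert_of_mem hi)
      have h5 : f i ≠ f k := fun h => hik (hf hiI hkI h)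
      have h6 := (h4 α hα).2 i h5
      have h7 := h2 i hiI k hkI hik
      omega
    have hle2 : cornV f m D (insert k S) ≤ cornV f m D S := by
      intro F hF
      rw [mem_cornV] at hF ⊢
      exact ⟨hF.1, fun α hα i hi => hF.2 α hα i (Finset.mem_insert_of_mem hi)⟩
    have hdisj : W ⊓ cornV f m D (insert k S) = ⊥ := by
      rw [Submodule.eq_bot_iff]
      rintro F ⟨hF1, hF2⟩
      obtain ⟨h3, h4⟩ := hWexp F hF1
      have h5 := (mem_cornV f m).mp hF2
      ext α
      rw [coeff_zero]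
      by_contra hcon
      have h6 := (h4 α hcon).1
      have h7 := h5.2 α hcon k (Finset.mem_insert_self k S)
      omega
    have hfin : Module.Finite ℂ (cornV f m D S) :=
      Submodule.finiteDimensional_of_le inf_le_left
    have hfin1 : Module.Finite ℂ W := Submodule.finiteDimensional_of_le hle1
    have hfin2 : Module.Finite ℂ (cornV f m D (insert k S)) :=
      Submodule.finiteDimensional_of_le inf_le_left
    have h3 := Submodule.finrank_sup_add_finrank_inf_eq W (cornV f m D (insert k S))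
    rw [hdisj, finrank_bot, Nat.add_zero, hWdim] at h3
    have h4 : finrank ℂ ↥(W ⊔ cornV f m D (insert k S)) ≤ finrank ℂ (cornV f m D S) :=
      Submodule.finrank_mono (sup_le hle1 hle2)
    rw [Finset.sum_insert hk]
    omega

end corner

/-- at most three points impose independent conditions unless a line through two of them
obstructs -/
theorem three_regular {r D : ℕ} {p : Fin r → V3} (hp : GenericPoints p) (m : Fin r → ℕ)
    {I : Finset (Fin r)} (hI : I.card ≤ 3) (h1 : ∀ i ∈ I, m i ≤ D + 1)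
    (h2 : ∀ i ∈ I, ∀ j ∈ I, i ≠ j → m i + m j ≤ D + 1) :
    finrank ℂ (linSys D p (onB I m)) + ∑ i ∈ I, (m i + 1).choose 2 = (D + 2).choose 2 := by
  classical
  have hcount := linSys_count (d := D) p (onB I m)
  rw [sum_onB] at hcount
  refine le_antisymm ?_ hcount
  let f : Fin r → Fin 3 := fun i => if h : i ∈ I then Fin.castLE hI (I.equivFin ⟨i, h⟩) else 0
  have hf : Set.InjOn f I := by
    intro a ha b hb hab
    have ha' : a ∈ I := ha
    have hb' : b ∈ I := hb
    simp only [f, dif_pos ha', dif_pos hb'] at hab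
    have h3 := I.equivFin.injective (Fin.castLE_injective hI hab)
    exact congrArg Subtype.val h3
  refine le_trans (Nat.add_le_add_right ?_ _) (cornV_bound f m hf h1 h2 I subset_rfl)
  refine (generic_le hp D _ (fun i => Pi.single (f i) 1)).trans ?_
  have hfin : Module.Finite ℂ (cornV f m D I) :=
    Submodule.finiteDimensional_of_le inf_le_left
  apply Submodule.finrank_mono
  intro F hF
  obtain ⟨h3, h4⟩ := hF
  rw [mem_cornV]
  refine ⟨h3, fun α hα i hi => ?_⟩
  have h5 := h4 i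
  have h6 : onB I m i = m i := if_pos hi
  rw [h6] at h5
  exact exp_le_of_vanishTo h3 h5 hα

end Pool.Agent.Work.MP_0421d9_ag.LD
end

section
/-!
Systems with many conditions imposed by points of small multiplicity.
-/

namespace Pool.Agent.Work.MP_0421d9_ag.LD

open MvPolynomial Module

theorem tm_choose (d : ℕ) : 2 * (d + 2).choose 2 = (d + 2) * (d + 1) := by
  have h := tr_two_choose (d + 1)
  rw [h]
  ring

theorem onB_onB {r : ℕ} {I B : Finset (Fin r)} (h : I ⊆ B) (m : Fin r → ℕ) :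
    onB I (onB B m) = onB I m := by
  funext i
  unfold onB
  split_ifs with h1 h2
  · rfl
  · exact absurd (h h1) h2
  · rfl

end Pool.Agent.Work.MP_0421d9_ag.LD
end

section
/-!
Strips made of points of arbitrary multiplicities at most `u`, and the relative theorem with less
room.
-/

namespace Pool.Agent.Work.MP_0421d9_ag.LD

open MvPolynomial Module

theorem greedy {α : Type*} [DecidableEq α] {f : α → ℕ} {W T : ℕ} (Q : Finset α)
    (hf : ∀ i ∈ Q, f i ≤ W) (hT : T ≤ ∑ i ∈ Q, f i) :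
    ∃ P ⊆ Q, T ≤ ∑ i ∈ P, f i ∧ ∑ i ∈ P, f i ≤ T + W := by
  induction Q using Finset.induction_on with
  | empty => exact ⟨∅, Finset.Subset.refl _, hT, by simp⟩
  | insert a Q ha ih =>
    rw [Finset.sum_insert ha] at hT
    rcases Nat.lt_or_ge (∑ i ∈ Q, f i) T with h | h
    · refine ⟨insert a Q, Finset.Subset.refl _, ?_, ?_⟩
      · rw [Finset.sum_insert ha]
        exact hT
      · rw [Finset.sum_insert ha]
        have := hf a (Finset.mem_insert_self _ _)
        omega
    · obtain ⟨P, hP, h1, h2⟩ := ih (fun i hi => hf i (Finset.mem_insert_of_mem hi)) h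
      exact ⟨P, hP.trans (Finset.subset_insert _ _), h1, h2⟩

theorem enum_finset {r : ℕ} (P : Finset (Fin r)) :
    ∃ e : Fin P.card → Fin r, Function.Injective e ∧ (∀ k, e k ∈ P) ∧
      ∀ f : Fin r → ℕ, ∑ k, f (e k) = ∑ i ∈ P, f i := by
  let g : Fin P.card ≃ P := P.equivFin.symm
  refine ⟨fun k => (g k).1, fun a b hab => g.injective (Subtype.ext hab), fun k => (g k).2,
    fun f => ?_⟩
  rw [← Finset.sum_coe_sort P f]
  exact Equiv.sum_comp g (fun i : P => f i.1)

/-- the points outside `B` -/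
def offP {r : ℕ} (B : Finset (Fin r)) : Finset (Fin r) := Finset.univ.filter (fun i => i ∉ B)

theorem sum_offP {r : ℕ} (B : Finset (Fin r)) (f : Fin r → ℕ) :
    ∑ i, f i = ∑ i ∈ B, f i + ∑ i ∈ offP B, f i := by
  classical
  rw [← Finset.sum_filter_add_sum_filter_not Finset.univ (fun i => i ∈ B)]
  congr 1
  apply Finset.sum_congr _ (fun _ _ => rfl)
  ext i
  simp

/-- a strip made of points outside `B`, which have multiplicity at most `u` -/
theorem fs_strip {r D u g : ℕ} {y : Fin r → ℕ} (B : Finset (Fin r)) (hu : 1 ≤ u)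
    (hms : ∀ i, i ∉ B → y i ≤ u) (huD : u + 1 ≤ D) (hg1 : u.choose 2 + 2 ≤ g)
    (hg2 : 2 * g + (u + 1).choose 2 + u ≤ D + 1)
    (hsum : fA D u + g ≤ ∑ i ∈ offP B, (y i + 1).choose 2) :
    ∃ (A : ℕ) (y' : Fin r → ℕ), StripM D u A y y' ∧ g ≤ A ∧ g + A ≤ D - u + 1 ∧
      (∀ i ∈ B, y' i = y i) := by
  classical
  have hW : ∀ i ∈ offP B, (y i + 1).choose 2 ≤ (u + 1).choose 2 := fun i hi =>
    Nat.choose_le_choose 2 (Nat.succ_le_succ (hms i (Finset.mem_filter.mp hi).2))
  obtain ⟨P, hP, h1, h2⟩ := greedy (offP B) hW hsum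
  obtain ⟨e, he, heP, hesum⟩ := enum_finset P
  have heB : ∀ k, e k ∉ B := fun k => (Finset.mem_filter.mp (hP (heP k))).2
  have hek : ∀ k, (y ∘ e) k ≤ u := fun k => hms _ (heB k)
  have hS : ∑ k, ((y ∘ e) k + 1).choose 2 = ∑ i ∈ P, (y i + 1).choose 2 :=
    hesum (fun i => (y i + 1).choose 2)
  obtain ⟨A, hA⟩ : ∃ A, ∑ i ∈ P, (y i + 1).choose 2 = fA D u + A :=
    ⟨∑ i ∈ P, (y i + 1).choose 2 - fA D u, by omega⟩
  have hAg : g ≤ A := by omega
  have hAle : A ≤ g + (u + 1).choose 2 := by omega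
  have hc : (u - 1).choose 2 ≤ u.choose 2 := Nat.choose_le_choose 2 (Nat.sub_le u 1)
  have hz : hFm D (u - 1) (y ∘ e) = 0 := by
    by_contra hcon
    have e1 : {α : Fin 3 →₀ ℕ | α 2 ≤ u - 1} = {α | α 2 < u} := by
      ext α
      simp only [Set.mem_ofPred_eq]
      omega
    unfold hFm at hcon
    rw [e1] at hcon
    have h3 : ∃ i, (y ∘ e) i ≠ 0 := by
      by_contra h4
      push Not at h4
      have h5 : ∑ k, ((y ∘ e) k + 1).choose 2 = 0 :=
        Finset.sum_eq_zero (fun k _ => by rw [h4 k]; rfl)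
      omega
    have h4 := strip_window1 hek (by omega) h3 hcon
    rw [hS, hA] at h4
    omega
  have hfull : hFm D u (y ∘ e) ≤ D - u + 1 - A := by
    have e1 : {α : Fin 3 →₀ ℕ | α 2 ≤ u} = {α | α 2 < u + 1} := by
      ext α
      simp only [Set.mem_ofPred_eq]
      omega
    unfold hFm
    rw [e1]
    have h3 := fA_succ D u
    have h4 := strip_window2 (D := D) (H := u + 1) (k := y ∘ e)
      (fun k => (hek k).trans (Nat.le_succ u)) (by omega) (by
        rw [hS, hA, h3, Nat.add_sub_cancel]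
        omega)
    rw [hS, hA, h3] at h4
    omega
  have hfA := fA_eq (D := D) (H := u) (by omega)
  have h5 : A + u * (D + 1) = ∑ k, (y (e k) + 1).choose 2 + u.choose 2 := by
    have h6 : ∑ k, (y (e k) + 1).choose 2 = fA D u + A := by rw [← hA]; exact hS
    omega
  refine ⟨A, rest e y, ⟨P.card, e, he, hu, huD, by omega, h5, hfull, hz, rfl⟩, hAg, by omega,
    fun i hi => rest_not_mem (fun ⟨k, hk⟩ => heB k (hk ▸ hi))⟩

theorem fs_room {N W u D₁ : ℕ} (h : N + W + (2 * u + 1) * (D₁ + 1) ≤ (D₁ + 2) * (D₁ + 1)) {D : ℕ}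
    (hD : D₁ ≤ D) : N + W + (2 * u + 1) * (D + 1) ≤ (D + 2) * (D + 1) := by
  have hroom : 2 * u + 1 ≤ D₁ + 2 := by
    have h3 : (2 * u + 1) * (D₁ + 1) ≤ (D₁ + 2) * (D₁ + 1) := by omega
    exact Nat.le_of_mul_le_mul_right h3 (by omega)
  induction D, hD using Nat.le_induction with
  | base => exact h
  | succ n hn ih =>
    have e1 : (2 * u + 1) * (n + 1 + 1) = (2 * u + 1) * (n + 1) + (2 * u + 1) := by ring
    have e2 : (n + 1 + 2) * (n + 1 + 1) = (n + 2) * (n + 1) + 2 * (n + 2) := by ring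
    rw [e1, e2]
    omega

theorem rel_aux2 {r u M D₁ g : ℕ} {m : Fin r → ℕ} (B : Finset (Fin r)) (hu : 1 ≤ u)
    (huM : u ≤ M) (hM : ∀ i, m i ≤ M) (hms : ∀ i, i ∉ B → m i ≤ u)
    (hreg : hPm D₁ (onB B m) + ∑ i, (onB B m i + 1).choose 2 = (D₁ + 2).choose 2)
    (h2 : 2 * ∑ i, (onB B m i + 1).choose 2 + 6 * (u * M) + (2 * u + 1) * (D₁ + 1) ≤
      (D₁ + 2) * (D₁ + 1))
    (hg1 : u.choose 2 + 2 ≤ g) (hg2 : 2 * g + (u + 1).choose 2 + u ≤ D₁ + 1) :
    ∀ D, D₁ ≤ D → ∀ (y : Fin r → ℕ) (U S : ℕ),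
    (∀ i ∈ B, y i = m i) → (∀ i, y i ≤ m i) →
    3 * (u * M) ≤ U + S + g * ((D - D₁) / (u + 1)) →
    (hPm D y : ℤ) ≤ max (U : ℤ) (MM.chi D y + S) := by
  intro D
  induction D using Nat.strong_induction_on with
  | _ D ih =>
  intro hD y U S hyB hym hpot
  have hyM : ∀ i, y i ≤ M := fun i => (hym i).trans (hM i)
  have hyu : ∀ i, i ∉ B → y i ≤ u := fun i hi => (hym i).trans (hms i hi)
  have hregy : hPm D (onB B y) + ∑ i, (onB B y i + 1).choose 2 = (D + 2).choose 2 := by
    rw [onB_congr hyB]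
    exact linSys_reg_mono (onB B m) (fun i => generic_coord_ne (gpt_generic r) i 2) hD hreg
  rcases Nat.lt_or_ge (U + S) (3 * (u * M)) with hUS | hUS
  swap
  · exact tr_base B hu huM hyM hyu hregy hUS
  have hK : 1 ≤ (D - D₁) / (u + 1) := by
    rcases Nat.eq_zero_or_pos ((D - D₁) / (u + 1)) with h0 | h0
    · rw [h0, Nat.mul_zero] at hpot
      omega
    · exact h0
  have hDu : u + 1 ≤ D - D₁ := by
    rw [Nat.le_div_iff_mul_le (by omega)] at hK
    omega
  rcases Nat.lt_or_ge (∑ i ∈ offP B, (y i + 1).choose 2) (fA D u + g) with hfew | hmany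
  · have hfA := fA_eq (D := D) (H := u) (by omega)
    have h3 : 2 * ∑ i, (onB B m i + 1).choose 2 + 6 * (u * M) + (2 * u + 1) * (D + 1) ≤
        (D + 2) * (D + 1) := fs_room h2 hD
    have h4 := sum_offP B (fun i => (y i + 1).choose 2)
    have h5 : ∑ i ∈ B, (y i + 1).choose 2 = ∑ i, (onB B m i + 1).choose 2 := by
      rw [← sum_onB, onB_congr hyB]
    have h6 : 2 * (D + 2).choose 2 = (D + 2) * (D + 1) := by
      have h6 := tr_two_choose (D + 1)
      rw [h6]
      ring
    have e3 : (2 * u + 1) * (D + 1) = 2 * (u * (D + 1)) + (D + 1) := by ring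
    have h7 := tr_regular B hu huM hyM hyu hregy (by omega)
    apply le_max_of_le_right
    unfold MM.chi
    have h8 : ((hPm D y + ∑ i, (y i + 1).choose 2 : ℕ) : ℤ) =
        (((D + 2).choose 2 : ℕ) : ℤ) := by rw [h7]
    push_cast at h8 ⊢
    linarith
  obtain ⟨A, y', hs, hA, hA', hy'B⟩ := fs_strip (g := g) B hu hyu (by omega) hg1 (by omega) hmany
  obtain ⟨h1, h2', h3, h4, h5, h6⟩ := hs.count
  have hle := hs.le
  have hyB' : ∀ i ∈ B, y' i = m i := fun i hi => (hy'B i hi).trans (hyB i hi)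
  have hym' : ∀ i, y' i ≤ m i := by
    intro i
    rcases h4 i with h | h
    · rw [h]
      exact hym i
    · rw [h]
      exact Nat.zero_le _
  have hdiv : ∀ D', D ≤ D' + (u + 1) → D₁ ≤ D' →
      g * ((D - D₁) / (u + 1)) ≤ g * ((D' - D₁) / (u + 1)) + g := by
    intro D' h1 h3
    have h4 : (D - D₁) / (u + 1) ≤ (D' - D₁) / (u + 1) + 1 := by
      rw [← Nat.add_div_right _ (by omega : 0 < u + 1)]
      exact Nat.div_le_div_right (by omega)
    have h5 := Nat.mul_le_mul_left g h4
    rw [Nat.mul_add, Nat.mul_one] at h5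
    exact h5
  have c1 := ih (D - u) (by omega) (by omega) y' (U + A) S hyB' hym' (by
    have := hdiv (D - u) (by omega) (by omega)
    omega)
  have c2 := ih (D - u - 1) (by omega) (by omega) y' U (S + (D - u + 1 - A)) hyB' hym' (by
    have := hdiv (D - u - 1) (by omega) (by omega)
    omega)
  have e1 : MM.chi (D - u) y' = MM.chi D y + A := by
    unfold MM.chi
    have h10 : (((D + 2).choose 2 + A + ∑ i, (y' i + 1).choose 2 : ℕ) : ℤ) =
        (((D - u + 2).choose 2 + ∑ i, (y i + 1).choose 2 : ℕ) : ℤ) := by rw [h5]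
    push_cast at h10 ⊢
    linarith
  have e2 : MM.chi (D - u - 1) y' = MM.chi D y - ((D - u + 1 - A : ℕ) : ℤ) := by
    have h11 : (((D - u + 2).choose 2 : ℕ) : ℤ) =
        (((D - u - 1 + 2).choose 2 + (D - u + 1) : ℕ) : ℤ) := by rw [h6]
    have h12 : ((D - u + 1 - A : ℕ) : ℤ) = ((D - u + 1 : ℕ) : ℤ) - A := Nat.cast_sub h3
    have h13 : MM.chi (D - u) y' = MM.chi (D - u - 1) y' + ((D - u + 1 : ℕ) : ℤ) := by
      unfold MM.chi
      rw [h11]
      push_cast
      ring
    rw [h12]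
    linarith
  rw [e1] at c1
  rw [e2] at c2
  push_cast at c1 c2
  have h14 : (hPm D y : ℤ) ≤ max ((hPm (D - u) y' : ℤ) - A) (hPm (D - u - 1) y' : ℤ) ∨
      (hPm D y : ℤ) ≤ 0 := by
    rcases le_max_iff.mp hle with h | h
    · rcases Nat.lt_or_ge (hPm (D - u) y') A with h' | h'
      · right
        have : hPm D y = 0 := by omega
        rw [this]
        simp
      · left
        apply le_max_of_le_left
        have : ((hPm (D - u) y' - A : ℕ) : ℤ) = (hPm (D - u) y' : ℤ) - A := Nat.cast_sub h'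
        rw [← this]
        exact_mod_cast h
    · left
      apply le_max_of_le_right
      exact_mod_cast h
  rcases h14 with h14 | h14
  · rcases le_max_iff.mp h14 with h15 | h15
    · rcases le_max_iff.mp c1 with h16 | h16
      · apply le_max_of_le_left
        linarith
      · apply le_max_of_le_right
        linarith
    · rcases le_max_iff.mp c2 with h16 | h16
      · apply le_max_of_le_left
        linarith
      · apply le_max_of_le_right
        linarith
  · apply le_max_of_le_left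
    exact h14.trans (by positivity)

/-- **The relative theorem.** Let the points in `B` impose independent conditions in degree `D₁`,
with room to spare; then arbitrarily many points of multiplicity at most `u` can be added in
degree `d`. -/
theorem rel_main2 {r u M D₁ d g : ℕ} {p : Fin r → V3} (hp : GenericPoints p) {m : Fin r → ℕ}
    (B : Finset (Fin r)) (hu : 1 ≤ u) (huM : u ≤ M) (hM : ∀ i, m i ≤ M)
    (hms : ∀ i, i ∉ B → m i ≤ u)
    (hreg : finrank ℂ (linSys D₁ p (onB B m)) + ∑ i ∈ B, (m i + 1).choose 2 =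
      (D₁ + 2).choose 2)
    (h2 : 2 * ∑ i ∈ B, (m i + 1).choose 2 + 6 * (u * M) + (2 * u + 1) * (D₁ + 1) ≤
      (D₁ + 2) * (D₁ + 1))
    (hg1 : u.choose 2 + 2 ≤ g) (hg2 : 2 * g + (u + 1).choose 2 + u ≤ D₁ + 1) (hd : D₁ ≤ d)
    (hK : 3 * (u * M) ≤ g * ((d - D₁) / (u + 1))) :
    finrank ℂ (linSys d p m) = (d + 2).choose 2 - ∑ i, (m i + 1).choose 2 := by
  rw [hPm_eq hp] at hreg ⊢
  rw [← sum_onB] at hreg h2
  have h1 := rel_aux2 B hu huM hM hms hreg h2 hg1 hg2 d hd m 0 0 (fun _ _ => rfl)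
    (fun _ => le_rfl) (by omega)
  have h3 := MM.hPm_count d m
  unfold MM.chi at h1
  simp only [Nat.cast_zero, add_zero] at h1
  rcases le_max_iff.mp h1 with h4 | h4
  · have h5 : hPm d m = 0 := by
      have : hPm d m ≤ 0 := by exact_mod_cast h4
      omega
    omega
  · have h5 : hPm d m + ∑ i, (m i + 1).choose 2 ≤ (d + 2).choose 2 := by
      have h6 : (hPm d m : ℤ) + ((∑ i, (m i + 1).choose 2 : ℕ) : ℤ) ≤
          (((d + 2).choose 2 : ℕ) : ℤ) := by linarith
      exact_mod_cast h6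
    omega

end Pool.Agent.Work.MP_0421d9_ag.LD
end

section
/-!
Exact addition of points of small multiplicity: the systems which have maximal rank in all degrees
stay so if sufficiently many points of small multiplicity are added.
-/

namespace Pool.Agent.Work.MP_0421d9_ag.LD

open MvPolynomial Module

/-! ### numbers -/

theorem fA_split {D u j : ℕ} (h : u ≤ D) : fA D (u + j) = fA D u + fA (D - u) j := by
  induction j with
  | zero => rfl
  | succ j ih =>
    have e1 : u + (j + 1) = (u + j) + 1 := by omega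
    rw [e1, fA_succ, fA_succ, ih]
    omega

theorem fA_total (D : ℕ) : fA D (D + 1) = (D + 2).choose 2 := by
  have h1 := fA_eq (D := D) (H := D + 1) le_rfl
  have h2 : 2 * (D + 1).choose 2 = D * (D + 1) := tr_two_choose D
  have h3 : (D + 2).choose 2 = (D + 1) + (D + 1).choose 2 := by
    rw [Nat.choose_succ_succ' (D + 1) 1, Nat.choose_one_right]
  have e1 : (D + 1) * (D + 1) = D * (D + 1) + (D + 1) := by ring
  omega

/-- the rows -/
theorem fA_choose {D u : ℕ} (h : u ≤ D) : fA D u + (D - u + 2).choose 2 = (D + 2).choose 2 := by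
  have h1 := fA_split (D := D) (u := u) (j := D - u + 1) h
  have e1 : u + (D - u + 1) = D + 1 := by omega
  rw [e1, fA_total, fA_total] at h1
  exact h1.symm

/-! ### critical degrees -/

theorem hPm_mono' {r D D' : ℕ} (y : Fin r → ℕ) (h : D ≤ D') : hPm D y ≤ hPm D' y := by
  induction D', h using Nat.le_induction with
  | base => exact le_rfl
  | succ n _ ih => exact ih.trans (hPm_le_succ n y)

/-- the points outside of `P` -/
def offF {r : ℕ} (P : Finset (Fin r)) (y : Fin r → ℕ) : Fin r → ℕ :=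
  fun i => if i ∈ P then 0 else y i

theorem sum_offF {r : ℕ} (P : Finset (Fin r)) (y : Fin r → ℕ) :
    ∑ i, (offF P y i + 1).choose 2 + ∑ i ∈ P, (y i + 1).choose 2 = ∑ i, (y i + 1).choose 2 := by
  classical
  have h1 : ∑ i ∈ P, (y i + 1).choose 2 = ∑ i, (if i ∈ P then (y i + 1).choose 2 else 0) := by
    rw [Finset.sum_ite_mem, Finset.univ_inter]
  rw [h1, ← Finset.sum_add_distrib]
  refine Finset.sum_congr rfl (fun i _ => ?_)
  unfold offF
  split_ifs
  · have : (0 + 1).choose 2 = 0 := rfl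
    omega
  · omega

theorem enum_finset' {r : ℕ} (P : Finset (Fin r)) :
    ∃ e : Fin P.card → Fin r, Function.Injective e ∧ (∀ k, e k ∈ P) ∧
      (∀ i ∈ P, ∃ k, e k = i) ∧ ∀ f : Fin r → ℕ, ∑ k, f (e k) = ∑ i ∈ P, f i := by
  let g : Fin P.card ≃ P := P.equivFin.symm
  refine ⟨fun k => (g k).1, fun a b hab => g.injective (Subtype.ext hab), fun k => (g k).2,
    fun i hi => ⟨g.symm ⟨i, hi⟩, by simp⟩, fun f => ?_⟩
  rw [← Finset.sum_coe_sort P f]
  exact Equiv.sum_comp g (fun i : P => f i.1)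

/-- a strip made of the points in `P` -/
theorem strip_of_finset {r D κ A : ℕ} {y : Fin r → ℕ} (P : Finset (Fin r)) (hκ : 1 ≤ κ)
    (hκD : κ + 1 ≤ D) (hP : ∀ i ∈ P, y i ≤ κ)
    (hA : ∑ i ∈ P, (y i + 1).choose 2 = fA D κ + A) (h1 : (κ - 1).choose 2 < A)
    (h2 : A + κ.choose 2 + 2 ≤ D - κ + 1) : StripM D κ A y (offF P y) := by
  classical
  obtain ⟨e, he, heP, hePs, hesum⟩ := enum_finset' P
  have hek : ∀ k, (y ∘ e) k ≤ κ := fun k => hP _ (heP k)
  have hS : ∑ k, ((y ∘ e) k + 1).choose 2 = ∑ i ∈ P, (y i + 1).choose 2 :=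
    hesum (fun i => (y i + 1).choose 2)
  have hz : hFm D (κ - 1) (y ∘ e) = 0 := by
    by_contra hcon
    have e1 : {α : Fin 3 →₀ ℕ | α 2 ≤ κ - 1} = {α | α 2 < κ} := by
      ext α
      simp only [Set.mem_ofPred_eq]
      omega
    unfold hFm at hcon
    rw [e1] at hcon
    have h3 : ∃ i, (y ∘ e) i ≠ 0 := by
      by_contra h4
      push Not at h4
      have h5 : ∑ k, ((y ∘ e) k + 1).choose 2 = 0 :=
        Finset.sum_eq_zero (fun k _ => by rw [h4 k]; rfl)
      omega
    have h4 := strip_window1 hek (by omega) h3 hcon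
    rw [hS, hA] at h4
    omega
  have hfull : hFm D κ (y ∘ e) ≤ D - κ + 1 - A := by
    have e1 : {α : Fin 3 →₀ ℕ | α 2 ≤ κ} = {α | α 2 < κ + 1} := by
      ext α
      simp only [Set.mem_ofPred_eq]
      omega
    unfold hFm
    rw [e1]
    have h3 := fA_succ D κ
    have h4 := strip_window2 (D := D) (H := κ + 1) (k := y ∘ e)
      (fun k => (hek k).trans (Nat.le_succ κ)) (by omega) (by
        rw [hS, hA, h3, Nat.add_sub_cancel]
        omega)
    rw [hS, hA, h3] at h4
    omega
  have hfA := fA_eq (D := D) (H := κ) (by omega)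
  have h5 : A + κ * (D + 1) = ∑ k, (y (e k) + 1).choose 2 + κ.choose 2 := by
    have h6 : ∑ k, (y (e k) + 1).choose 2 = fA D κ + A := by rw [← hA]; exact hS
    omega
  have hoff : offF P y = rest e y := by
    funext i
    unfold offF
    by_cases hi : i ∈ P
    · rw [if_pos hi]
      obtain ⟨k, rfl⟩ := hePs i hi
      rw [rest_mem]
    · rw [if_neg hi]
      exact (rest_not_mem (fun ⟨k, hk⟩ => hi (hk ▸ heP k))).symm
  exact ⟨P.card, e, he, hκ, hκD, by omega, h5, hfull, hz, hoff⟩

end Pool.Agent.Work.MP_0421d9_ag.LD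
end

section
/-!
Cremona transformations, reflections, and strips along a line through a multiple point.
-/

namespace Pool.Agent.Work.MP_0421d9_ag.LD

open MvPolynomial Module

theorem ex3_degree (a b c : ℕ) : (ex3 a b c).degree = a + b + c := by
  rw [degree_three, ex3_zero, ex3_one, ex3_two]

theorem smul_sum_three (α : Fin 3 →₀ ℕ) (φ : Fin 3 → (Fin 3 →₀ ℕ)) (j : Fin 3) :
    (∑ i, α i • φ i) j = α 0 * φ 0 j + α 1 * φ 1 j + α 2 * φ 2 j := by
  rw [Fin.sum_univ_three, Finsupp.add_apply, Finsupp.add_apply, Finsupp.smul_apply,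
    Finsupp.smul_apply, Finsupp.smul_apply, smul_eq_mul, smul_eq_mul, smul_eq_mul]

/-- the Cremona transformation -/
noncomputable def mtCrem {D : ℕ} {c : Fin 3 → ℕ} (hD : D ≤ c 0 + c 1 + c 2)
    (hc : ∀ i, c i ≤ D) : MT D (c 0 + c 1 + c 2 - D) {α | ∀ i, α i ≤ c i} {α | ∀ i, α i ≤ c i} where
  φ := ![ex3 0 1 1, ex3 1 0 1, ex3 1 1 0]
  ρ := fun α => ex3 (c 0 - α 0) (c 1 - α 1) (c 2 - α 2)
  c := ex3 (D - c 0) (D - c 1) (D - c 2)
  hρ := by
    intro α hα hT
    rw [degree_three] at hα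
    have h0 := hT 0
    have h1 := hT 1
    have h2 := hT 2
    have c0 := hc 0
    have c1 := hc 1
    have c2 := hc 2
    refine ⟨?_, ?_, ?_⟩
    · rw [ex3_degree]
      omega
    · intro i
      fin_cases i
      · change ex3 _ _ _ 0 ≤ c 0
        rw [ex3_zero]
        omega
      · change ex3 _ _ _ 1 ≤ c 1
        rw [ex3_one]
        omega
      · change ex3 _ _ _ 2 ≤ c 2
        rw [ex3_two]
        omega
    · ext j
      rw [smul_sum_three, Finsupp.add_apply]
      fin_cases j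
      · change α 0 * ex3 0 1 1 0 + α 1 * ex3 1 0 1 0 + α 2 * ex3 1 1 0 0 =
          ex3 _ _ _ 0 + ex3 _ _ _ 0
        rw [ex3_zero, ex3_zero, ex3_zero, ex3_zero, ex3_zero]
        omega
      · change α 0 * ex3 0 1 1 1 + α 1 * ex3 1 0 1 1 + α 2 * ex3 1 1 0 1 =
          ex3 _ _ _ 1 + ex3 _ _ _ 1
        rw [ex3_one, ex3_one, ex3_one, ex3_one, ex3_one]
        omega
      · change α 0 * ex3 0 1 1 2 + α 1 * ex3 1 0 1 2 + α 2 * ex3 1 1 0 2 =
          ex3 _ _ _ 2 + ex3 _ _ _ 2
        rw [ex3_two, ex3_two, ex3_two, ex3_two, ex3_two]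
        omega
  hinj := by
    intro α β hα hβ hT hT' h
    have h0 := congrArg (fun γ => γ 0) h
    have h1 := congrArg (fun γ => γ 1) h
    have h2 := congrArg (fun γ => γ 2) h
    simp only [ex3_zero, ex3_one, ex3_two] at h0 h1 h2
    have a0 := hT 0
    have a1 := hT 1
    have a2 := hT 2
    have b0 := hT' 0
    have b1 := hT' 1
    have b2 := hT' 2
    rw [eq_ex3 α, eq_ex3 β]
    congr 1 <;> omega

/-- the reflection of a rectangle -/
noncomputable def mtRefl {D E κ A : ℕ} (hD : E + κ ≤ D) (hA : A ≤ E + 1) :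
    MT D D {α | α 0 ≤ E ∧ (α 2 < κ ∨ (α 2 = κ ∧ α 0 < A))}
      {α | α 0 ≤ E ∧ (α 2 < κ ∨ (α 2 = κ ∧ E + 1 - A ≤ α 0))} where
  φ := ![ex3 0 2 0, ex3 1 1 0, ex3 1 0 1]
  ρ := fun α => ex3 (E - α 0) (D - E + α 0 - α 2) (α 2)
  c := ex3 (D - E) E 0
  hρ := by
    rintro α hα ⟨hE, hT⟩
    rw [degree_three] at hα
    refine ⟨?_, ?_, ?_⟩
    · rw [ex3_degree]
      omega
    · change ex3 _ _ _ 0 ≤ E ∧ (ex3 _ _ _ 2 < κ ∨ (ex3 _ _ _ 2 = κ ∧ E + 1 - A ≤ ex3 _ _ _ 0))
      rw [ex3_zero, ex3_two]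
      omega
    · ext j
      rw [smul_sum_three, Finsupp.add_apply]
      fin_cases j
      · change α 0 * ex3 0 2 0 0 + α 1 * ex3 1 1 0 0 + α 2 * ex3 1 0 1 0 =
          ex3 _ _ _ 0 + ex3 _ _ _ 0
        rw [ex3_zero, ex3_zero, ex3_zero, ex3_zero, ex3_zero]
        omega
      · change α 0 * ex3 0 2 0 1 + α 1 * ex3 1 1 0 1 + α 2 * ex3 1 0 1 1 =
          ex3 _ _ _ 1 + ex3 _ _ _ 1
        rw [ex3_one, ex3_one, ex3_one, ex3_one, ex3_one]
        omega
      · change α 0 * ex3 0 2 0 2 + α 1 * ex3 1 1 0 2 + α 2 * ex3 1 0 1 2 =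
          ex3 _ _ _ 2 + ex3 _ _ _ 2
        rw [ex3_two, ex3_two, ex3_two, ex3_two, ex3_two]
        omega
  hinj := by
    rintro α β hα hβ ⟨hE, hT⟩ ⟨hE', hT'⟩ h
    rw [degree_three] at hα hβ
    have h0 := congrArg (fun γ => γ 0) h
    have h2 := congrArg (fun γ => γ 2) h
    simp only [ex3_zero, ex3_two] at h0 h2
    rw [eq_ex3 α, eq_ex3 β]
    congr 1 <;> omega

/-- division by a power of `X 1` -/
noncomputable def mtShift {D H L : ℕ} (hD : H + L - 2 ≤ D) :
    MT D (H + L - 2) (rect H L) (rect H L) where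
  φ := ![ex3 1 0 0, ex3 0 1 0, ex3 0 0 1]
  ρ := fun α => ex3 (α 0) (α 1 - (D - (H + L - 2))) (α 2)
  c := ex3 0 (D - (H + L - 2)) 0
  hρ := by
    rintro α hα ⟨hH, hL⟩
    rw [degree_three] at hα
    refine ⟨?_, ?_, ?_⟩
    · rw [ex3_degree]
      omega
    · change ex3 _ _ _ 2 < H ∧ ex3 _ _ _ 0 < L
      rw [ex3_zero, ex3_two]
      exact ⟨hH, hL⟩
    · ext j
      rw [smul_sum_three, Finsupp.add_apply]
      fin_cases j
      · change α 0 * ex3 1 0 0 0 + α 1 * ex3 0 1 0 0 + α 2 * ex3 0 0 1 0 =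
          ex3 _ _ _ 0 + ex3 _ _ _ 0
        rw [ex3_zero, ex3_zero, ex3_zero, ex3_zero, ex3_zero]
        omega
      · change α 0 * ex3 1 0 0 1 + α 1 * ex3 0 1 0 1 + α 2 * ex3 0 0 1 1 =
          ex3 _ _ _ 1 + ex3 _ _ _ 1
        rw [ex3_one, ex3_one, ex3_one, ex3_one, ex3_one]
        omega
      · change α 0 * ex3 1 0 0 2 + α 1 * ex3 0 1 0 2 + α 2 * ex3 0 0 1 2 =
          ex3 _ _ _ 2 + ex3 _ _ _ 2
        rw [ex3_two, ex3_two, ex3_two, ex3_two, ex3_two]
        omega
  hinj := by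
    rintro α β hα hβ ⟨hH, hL⟩ ⟨hH', hL'⟩ h
    rw [degree_three] at hα hβ
    have h0 := congrArg (fun γ => γ 0) h
    have h2 := congrArg (fun γ => γ 2) h
    simp only [ex3_zero, ex3_two] at h0 h2
    rw [eq_ex3 α, eq_ex3 β]
    congr 1 <;> omega

/-- rectangles -/
theorem hTm_rect_le {D H L N : ℕ} (hD : H + L - 2 ≤ D) (k : Fin N → ℕ) :
    hTm D (rect H L) k ≤ hRm H L k := (mtShift hD).le k

/-- the Cremona transformation preserves the dimension -/
theorem crem_le {D N : ℕ} {c : Fin 3 → ℕ} (hD : D ≤ c 0 + c 1 + c 2) (hc : ∀ i, c i ≤ D)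
    (k : Fin N → ℕ) : hTm D {α | ∀ i, α i ≤ c i} k ≤
      hTm (c 0 + c 1 + c 2 - D) {α | ∀ i, α i ≤ c i} k := (mtCrem hD hc).le k

/-- killing, with exponents at the end of the last row -/
theorem kills_top {D κ N B : ℕ} {u : Fin N → ℕ} {T : Set (Fin 3 →₀ ℕ)} (hκ : 1 ≤ κ)
    (hT' : ∀ α β : Fin 3 →₀ ℕ, α ∈ T → β 2 = α 2 → β 0 ≤ α 0 → β 0 + β 1 = α 0 + α 1 → β ∈ T)
    (h1 : hTm D {α | α ∈ T ∧ α 2 ≤ κ} u ≤ B) (h0 : hTm D {α | α ∈ T ∧ α 2 ≤ κ - 1} u = 0) :
    Killsm D u {α | α ∈ T ∧ (α 2 < κ ∨ (α 2 = κ ∧ B ≤ α 0))} := by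
  classical
  set V := TSm D {α : Fin 3 →₀ ℕ | α ∈ T ∧ α 2 ≤ κ} u (gpt N) with hV
  obtain ⟨h, hh0, hh⟩ := order_generic (V.map (topc κ)) B
  set g : Polynomial ℂ := ∏ i : Fin N, (Polynomial.C (gpt N i 0) -
    Polynomial.X * Polynomial.C (gpt N i 1)) with hg
  have hg0 : g ≠ 0 := by
    rw [hg, Finset.prod_ne_zero_iff]
    intro i _ h2
    have h3 := congrArg (Polynomial.eval 0) h2
    simp only [Polynomial.eval_sub, Polynomial.eval_mul, Polynomial.eval_C, Polynomial.eval_X,
      zero_mul, sub_zero, Polynomial.eval_zero] at h3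
    exact gpt_ne i 0 h3
  obtain ⟨c, hc, hc'⟩ := exists_eval_ne hh0 hg0
  have hne : ∀ i, gpt N i 0 - c * gpt N i 1 ≠ 0 := by
    rw [hg, Polynomial.eval_prod, Finset.prod_ne_zero_iff] at hc'
    intro i
    have h2 := hc' i (Finset.mem_univ i)
    rw [Polynomial.eval_sub, Polynomial.eval_mul, Polynomial.eval_C, Polynomial.eval_C,
      Polynomial.eval_X] at h2
    exact h2
  have h2 := hh c hc
  have h3 : finrank ℂ ↥(V.map (topc κ)) ≤ B := (Submodule.finrank_map_le _ _).trans h1
  have h4 : V.map (topc κ) ⊓ ordSub c B = ⊥ := by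
    have hfin : Module.Finite ℂ ↥(V.map (topc κ) ⊓ ordSub c B) :=
      Submodule.finiteDimensional_of_le inf_le_left
    rw [← Submodule.finrank_eq_zero (R := ℂ)]
    omega
  have h5 : TSm D {α : Fin 3 →₀ ℕ | α ∈ T ∧ α 2 ≤ κ - 1} u (gpt N) = ⊥ := by
    rw [← Submodule.finrank_eq_zero (R := ℂ)]
    exact h0
  refine ⟨fun i => (shear c).mulVec (gpt N i), ?_, ?_⟩
  · intro i k
    simp only [shear_mulVec]
    fin_cases k
    · exact hne i
    · exact gpt_ne i 1
    · exact gpt_ne i 2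
  · intro G hG1 hG2 hG3
    have h6 : subM (shear c) G ∈ V := by
      rw [hV, mem_TSm]
      refine ⟨subM_isHomogeneous _ hG1, fun i => vanishTo_subM _ (hG3 i), fun β hβ => ?_⟩
      obtain ⟨α, hα, h7, h8, h9⟩ := coeff_shear c G β hβ
      have h10 := hG2 α (mem_support_iff.mpr hα)
      change α ∈ T ∧ (α 2 < κ ∨ (α 2 = κ ∧ B ≤ α 0)) at h10
      refine ⟨hT' α β h10.1 h7 h8 h9, ?_⟩
      rcases h10.2 with h11 | h11 <;> omega
    have h7 : topc κ (subM (shear c) G) ∈ V.map (topc κ) ⊓ ordSub c B := by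
      refine Submodule.mem_inf.mpr ⟨⟨_, h6, rfl⟩, ?_⟩
      intro k hk
      rw [topc_shear, ← onLine_shear, onLine_e1_e0, Polynomial.finsetSum_coeff]
      refine Finset.sum_eq_zero (fun β hβ => ?_)
      rw [Polynomial.coeff_C_mul_X_pow]
      split_ifs with h8 h9
      · exfalso
        have h10 := mem_support_iff.mp hβ
        rw [coeff_divMonomial] at h10
        have h11 := hG2 _ (mem_support_iff.mpr h10)
        have e0' : (Finsupp.single (2 : Fin 3) κ + β) 0 = β 0 := by
          rw [Finsupp.add_apply, Finsupp.single_eq_of_ne (by decide), zero_add]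
        have e2' : (Finsupp.single (2 : Fin 3) κ + β) 2 = κ + β 2 := by
          rw [Finsupp.add_apply, Finsupp.single_eq_same]
        rcases h11 with ⟨-, h11 | ⟨-, h11⟩⟩
        · rw [e2'] at h11
          omega
        · rw [e0'] at h11
          omega
      · rw [mul_zero]
      · rfl
    rw [h4, Submodule.mem_bot] at h7
    have h8 : subM (shear c) G ∈ TSm D {α : Fin 3 →₀ ℕ | α ∈ T ∧ α 2 ≤ κ - 1} u (gpt N) := by
      obtain ⟨h9, h10, h11⟩ := mem_TSm.mp h6
      rw [mem_TSm]
      refine ⟨h9, h10, fun α hα => ?_⟩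
      have h12 := h11 α hα
      change α ∈ T ∧ α 2 ≤ κ at h12
      refine ⟨h12.1, ?_⟩
      by_contra hcon
      have h13 : α 2 = κ := by omega
      apply hα
      rw [← topc_coeff h9 h13 (degree_of_mem_support h9 hα), h7, Polynomial.coeff_zero]
    rw [h5, Submodule.mem_bot] at h8
    have h9 := congrArg (subM (shear (-c))) h8
    have h10 : shear c * shear (-c) = 1 := by
      have h11 := shear_mul (-c)
      rwa [neg_neg] at h11
    rwa [subM_subM, h10, subM_one, map_zero] at h9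

/-- a strip along a line through a multiple point: the exponents of `X 0` are at most `E` -/
theorem strip_rect {r D κ A E : ℕ} {y : Fin r → ℕ} (P : Finset (Fin r)) (hκ : 1 ≤ κ)
    (hD : E + κ + 1 ≤ D) (hP : ∀ i ∈ P, y i ≤ κ)
    (hA : ∑ i ∈ P, (y i + 1).choose 2 = κ * (E + 1) + A) (h1 : (κ - 1).choose 2 < A)
    (h2 : A + κ.choose 2 ≤ E + 1) :
    hTm D {α | α 0 ≤ E} y ≤ max (hTm (D - κ) {α | α 0 ≤ E} (offF P y) - A)
      (hTm (D - κ - 1) {α | α 0 ≤ E} (offF P y)) := by
  classical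
  obtain ⟨e, he, heP, hePs, hesum⟩ := enum_finset' P
  have hek : ∀ k, (y ∘ e) k ≤ κ := fun k => hP _ (heP k)
  have hS : ∑ k, ((y ∘ e) k + 1).choose 2 = ∑ i ∈ P, (y i + 1).choose 2 :=
    hesum (fun i => (y i + 1).choose 2)
  have hTs : ∀ α β : Fin 3 →₀ ℕ, α ∈ {α : Fin 3 →₀ ℕ | α 0 ≤ E} → β 2 = α 2 → β 0 ≤ α 0 →
      β 0 + β 1 = α 0 + α 1 → β ∈ {α : Fin 3 →₀ ℕ | α 0 ≤ E} :=
    fun α β hα _ h _ => h.trans hα
  have hreg : ∀ κ' : ℕ, hTm D {α | α ∈ {α : Fin 3 →₀ ℕ | α 0 ≤ E} ∧ α 2 ≤ κ'} (y ∘ e) =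
      hTm D (rect (κ' + 1) (E + 1)) (y ∘ e) := by
    intro κ'
    congr 1
    ext α
    change (α 0 ≤ E ∧ α 2 ≤ κ') ↔ (α 2 < κ' + 1 ∧ α 0 < E + 1)
    omega
  have hz : hTm D {α | α ∈ {α : Fin 3 →₀ ℕ | α 0 ≤ E} ∧ α 2 ≤ κ - 1} (y ∘ e) = 0 := by
    rw [hreg]
    have e1 : κ - 1 + 1 = κ := by omega
    rw [e1]
    have h3 := hTm_rect_le (D := D) (H := κ) (L := E + 1) (by omega) (y ∘ e)
    have h4 : hRm κ (E + 1) (y ∘ e) = 0 := by
      by_contra hcon
      have h5 := rectm_window1 hek hcon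
      rw [hS, hA] at h5
      omega
    omega
  have hfull : hTm D {α | α ∈ {α : Fin 3 →₀ ℕ | α 0 ≤ E} ∧ α 2 ≤ κ} (y ∘ e) ≤ E + 1 - A := by
    rw [hreg]
    have h3 := hTm_rect_le (D := D) (H := κ + 1) (L := E + 1) (by omega) (y ∘ e)
    have e1 : (κ + 1) * (E + 1) = κ * (E + 1) + (E + 1) := by ring
    have h4 := rectm_window2 (H := κ + 1) (L := E + 1) (k := y ∘ e)
      (fun k => (hek k).trans (Nat.le_succ κ)) (by
        rw [hS, hA, e1, Nat.add_sub_cancel]
        omega)
    rw [hS, hA, e1] at h4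
    omega
  have hk1 := kills_top hκ hTs hfull hz
  have hk2 := (mtRefl (D := D) (E := E) (κ := κ) (A := A) (by omega) (by omega)).kills hk1
  obtain ⟨δ, rfl⟩ : ∃ δ, D = δ + 1 + κ := ⟨D - κ - 1, by omega⟩
  have h3 := peelTm (δ := δ) (κ := κ) (A := A) (T := {α : Fin 3 →₀ ℕ | α 0 ≤ E}) (y := y) he hκ
    (by omega) hTs hk2
  have hoff : offF P y = rest e y := by
    funext i
    unfold offF
    by_cases hi : i ∈ P
    · rw [if_pos hi]
      obtain ⟨k, rfl⟩ := hePs i hi
      rw [rest_mem]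
    · rw [if_neg hi]
      exact (rest_not_mem (fun ⟨k, hk⟩ => hi (hk ▸ heP k))).symm
  have hsh : ∀ j : ℕ, {β : Fin 3 →₀ ℕ | β + Finsupp.single 2 j ∈ {α : Fin 3 →₀ ℕ | α 0 ≤ E}} =
      {α : Fin 3 →₀ ℕ | α 0 ≤ E} := by
    intro j
    ext β
    change (β + Finsupp.single 2 j : Fin 3 →₀ ℕ) 0 ≤ E ↔ β 0 ≤ E
    rw [Finsupp.add_apply, Finsupp.single_eq_of_ne (by decide), add_zero]
  rw [hsh, hsh] at h3
  have e1 : δ + 1 + κ - κ = δ + 1 := by omega
  have e2 : δ + 1 - 1 = δ := by omega
  rw [e1, e2, hoff]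
  exact h3

end Pool.Agent.Work.MP_0421d9_ag.LD
end

section
/-!
Points in general position and coordinate points; strips along a line through a multiple point;
the quadratic transformation.
-/

namespace Pool.Agent.Work.MP_0421d9_ag.LD

open MvPolynomial Module

/-- the exponents bound the multiplicity at a coordinate point -/
theorem vanishTo_single {D n : ℕ} {F : R3} (hF : F.IsHomogeneous D) (i : Fin 3)
    (h : ∀ α, coeff α F ≠ 0 → α i + n ≤ D) : VanishTo F (Pi.single i 1) n := by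
  classical
  rw [F.as_sum]
  refine (vanSub (Pi.single i 1) n).sum_mem (fun α hα => ?_)
  have hα' := mem_support_iff.mp hα
  have h1 := h α hα'
  have h2 := degree_of_mem_support hF hα'
  have h3 : VanishTo (∏ j, (X j : R3) ^ α j) (Pi.single i 1)
      (∑ j, if j = i then 0 else α j) := by
    refine uv_prod Finset.univ _ _ (fun j _ => ?_)
    split_ifs with hj
    · exact uv_zero _ _
    · apply uv_pow
      rw [vanishTo_one_iff', eval_X, Pi.single_eq_of_ne hj]
  have h4 := VanishTo.mul (uv_zero (C (coeff α F)) (Pi.single i 1)) h3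
  have h5 : (monomial α (coeff α F) : R3) = C (coeff α F) * ∏ j, (X j : R3) ^ α j := by
    rw [monomial_eq, Finsupp.prod_fintype _ _ (fun i => pow_zero _)]
  change VanishTo (monomial α (coeff α F)) _ _
  rw [h5]
  refine h4.mono ?_
  have h6 : ∑ j, (if j = i then 0 else α j) + α i = α.degree := by
    rw [Finsupp.degree_eq_sum, ← Finset.add_sum_erase _ _ (Finset.mem_univ i), if_pos rfl,
      ← Finset.add_sum_erase _ (fun j => α j) (Finset.mem_univ i)]
    have h7 : ∑ j ∈ Finset.univ.erase i, (if j = i then 0 else α j) =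
        ∑ j ∈ Finset.univ.erase i, α j :=
      Finset.sum_congr rfl (fun j hj => if_neg (Finset.ne_of_mem_erase hj))
    rw [h7]
    omega
  omega

/-- moving the points by a linear map -/
theorem hTm_le_of_move {r D : ℕ} {T : Set (Fin 3 →₀ ℕ)} {z y : Fin r → ℕ}
    {M M' : Matrix (Fin 3) (Fin 3) ℂ} (hM : M * M' = 1) (hM' : M' * M = 1)
    (h : ∀ i, z i = y i ∨ ∃ j, gpt r i = M'.mulVec (Pi.single j 1) ∧
      ∀ α ∈ T, α.degree = D → α j + y i ≤ D) :
    hTm D T z ≤ hPm D y := by
  refine (hTm_le (fun i => M.mulVec (gpt r i))).trans ?_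
  have hfin : Module.Finite ℂ (linSys D (gpt r) y) :=
    Submodule.finiteDimensional_of_le (linSys_le _ _ _)
  have h1 : ∀ F ∈ TSm D T z (fun i => M.mulVec (gpt r i)), subM M F ∈ linSys D (gpt r) y := by
    intro F hF
    obtain ⟨h1, h2, h3⟩ := mem_TSm.mp hF
    refine ⟨subM_isHomogeneous M h1, fun i => ?_⟩
    rcases h i with h4 | ⟨j, h4, h5⟩
    · rw [← h4]
      exact vanishTo_subM M (h2 i)
    · apply vanishTo_subM M
      rw [h4, Matrix.mulVec_mulVec, hM, Matrix.one_mulVec]
      exact vanishTo_single h1 j (fun α hα => h5 α (h3 α hα) (degree_of_mem_support h1 hα))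
  refine LinearMap.finrank_le_finrank_of_injective (f := (subM M).toLinearMap.restrict h1) ?_
  intro G G' h
  have h2 : subM M G.1 = subM M G'.1 := congrArg Subtype.val h
  have h3 := congrArg (subM M') h2
  rw [subM_subM, subM_subM, hM, subM_one, subM_one] at h3
  exact Subtype.ext h3

/-! ### one point -/

theorem hPm_le_point {r D : ℕ} (y : Fin r → ℕ) (i₀ : Fin r) (h : y i₀ ≤ D) :
    hPm D y ≤ hTm D {α | α 0 ≤ D - y i₀} (Function.update y i₀ 0) := by
  rw [hPm_eq_hTm]
  refine (hTm_le (Function.update (gpt r) i₀ (Pi.single 0 1))).trans ?_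
  have hfin : Module.Finite ℂ (TSm D {α | α 0 ≤ D - y i₀} (Function.update y i₀ 0) (gpt r)) :=
    finite_TSm _ _ _ _
  refine Submodule.finrank_mono ?_
  intro F hF
  obtain ⟨h1, h2, -⟩ := mem_TSm.mp hF
  refine mem_TSm.mpr ⟨h1, fun i => ?_, fun α hα => ?_⟩
  · by_cases hi : i = i₀
    · subst hi
      rw [Function.update_self]
      exact uv_zero _ _
    · have h3 := h2 i
      rw [Function.update_of_ne hi] at h3
      rw [Function.update_of_ne hi]
      exact h3
  · have h3 := h2 i₀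
    rw [Function.update_self] at h3
    have h4 := exp_le_of_vanishTo h1 h3 hα
    change α 0 ≤ D - y i₀
    omega

theorem point_le_hPm {r D : ℕ} (E : ℕ) (y : Fin r → ℕ) (i₀ : Fin r) :
    hTm D {α | α 0 ≤ E} (Function.update y i₀ 0) ≤
      hPm D (Function.update y i₀ (D - E)) := by
  have hg : gpt r i₀ 0 ≠ 0 := gpt_ne i₀ 0
  have hdet : (colM (gpt r i₀) e1 e2).det ≠ 0 := by
    rw [colM_det]
    unfold det3
    simp only [e1, e2]
    simpa using hg
  have hU : IsUnit (colM (gpt r i₀) e1 e2).det := isUnit_iff_ne_zero.mpr hdet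
  refine hTm_le_of_move (M := (colM (gpt r i₀) e1 e2)⁻¹) (M' := colM (gpt r i₀) e1 e2)
    (Matrix.nonsing_inv_mul _ hU) (Matrix.mul_nonsing_inv _ hU) (fun i => ?_)
  by_cases hi : i = i₀
  · subst hi
    right
    refine ⟨0, ?_, fun α hα hd => ?_⟩
    · rw [colM_mulVec]
      funext k
      simp
    · rw [Function.update_self]
      change α 0 ≤ E at hα
      rw [degree_three] at hd
      omega
  · left
    rw [Function.update_of_ne hi, Function.update_of_ne hi]

/-- **A strip along a line through a point of high multiplicity.** -/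
theorem strip_point {r D κ A : ℕ} {y : Fin r → ℕ} (i₀ : Fin r) (P : Finset (Fin r)) (hi : i₀ ∉ P)
    (hκ : 1 ≤ κ) (ha : κ + 1 ≤ y i₀) (haD : y i₀ ≤ D) (hP : ∀ i ∈ P, y i ≤ κ)
    (hA : ∑ i ∈ P, (y i + 1).choose 2 = κ * (D - y i₀ + 1) + A) (h1 : (κ - 1).choose 2 < A)
    (h2 : A + κ.choose 2 ≤ D - y i₀ + 1) :
    hPm D y ≤ max (hPm (D - κ) (Function.update (offF P y) i₀ (y i₀ - κ)) - A)
      (hPm (D - κ - 1) (Function.update (offF P y) i₀ (y i₀ - κ - 1))) := by
  have hne : ∀ i ∈ P, i ≠ i₀ := fun i hiP h => hi (h ▸ hiP)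
  have hoff : offF P (Function.update y i₀ 0) = Function.update (offF P y) i₀ 0 := by
    funext i
    unfold offF
    by_cases h3 : i = i₀
    · subst h3
      rw [if_neg hi, Function.update_self, Function.update_self]
    · rw [Function.update_of_ne h3, Function.update_of_ne h3]
  have h3 := strip_rect (D := D) (κ := κ) (A := A) (E := D - y i₀)
    (y := Function.update y i₀ 0) P hκ (by omega)
    (fun i hiP => by rw [Function.update_of_ne (hne i hiP)]; exact hP i hiP)
    (by
      rw [← hA]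
      exact Finset.sum_congr rfl (fun i hiP => by rw [Function.update_of_ne (hne i hiP)]))
    h1 h2
  rw [hoff] at h3
  have h4 := point_le_hPm (D := D - κ) (D - y i₀) (offF P y) i₀
  have h5 := point_le_hPm (D := D - κ - 1) (D - y i₀) (offF P y) i₀
  have e1 : D - κ - (D - y i₀) = y i₀ - κ := by omega
  have e2 : D - κ - 1 - (D - y i₀) = y i₀ - κ - 1 := by omega
  rw [e1] at h4
  rw [e2] at h5
  refine (hPm_le_point y i₀ haD).trans (h3.trans ?_)
  exact max_le_max (Nat.sub_le_sub_right h4 A) h5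

/-! ### three points -/

theorem hPm_le_three {r D : ℕ} (y : Fin r → ℕ) {i : Fin 3 → Fin r} (hinj : Function.Injective i)
    (h : ∀ j, y (i j) ≤ D) :
    hPm D y ≤ hTm D {α | ∀ j, α j ≤ D - y (i j)} (Function.extend i (fun _ => 0) y) := by
  rw [hPm_eq_hTm]
  refine (hTm_le (Function.extend i (fun j => Pi.single j 1) (gpt r))).trans ?_
  have hfin : Module.Finite ℂ (TSm D {α | ∀ j, α j ≤ D - y (i j)}
      (Function.extend i (fun _ => 0) y) (gpt r)) := finite_TSm _ _ _ _
  refine Submodule.finrank_mono ?_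
  intro F hF
  obtain ⟨h1, h2, -⟩ := mem_TSm.mp hF
  refine mem_TSm.mpr ⟨h1, fun l => ?_, fun α hα j => ?_⟩
  · by_cases hl : ∃ j, i j = l
    · obtain ⟨j, rfl⟩ := hl
      rw [hinj.extend_apply]
      exact uv_zero _ _
    · have h3 := h2 l
      rw [Function.extend_apply' _ _ _ hl] at h3
      rw [Function.extend_apply' _ _ _ hl]
      exact h3
  · have h3 := h2 (i j)
    rw [hinj.extend_apply] at h3
    have h4 := exp_le_of_vanishTo h1 h3 hα
    have h5 := h j
    omega

theorem gpt_det3_ne {r : ℕ} {a b c : Fin r} (hab : a ≠ b) (hac : a ≠ c) (hbc : b ≠ c) :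
    det3 (gpt r a) (gpt r b) (gpt r c) ≠ 0 := by
  classical
  have hp := gpt_generic r
  set Q : MvPolynomial (Fin r × Fin 3) ℚ :=
    det3 (fun l => X (a, l)) (fun l => X (b, l)) (fun l => X (c, l)) with hQ
  have h1 : aeval (fun z : Fin r × Fin 3 => gpt r z.1 z.2) Q =
      det3 (gpt r a) (gpt r b) (gpt r c) := by
    rw [hQ]
    unfold det3
    simp only [map_add, map_sub, map_mul, aeval_X]
  rw [← h1]
  intro h2
  have h3 : Q = 0 := by
    have hinj : Function.Injective (aeval (R := ℚ) (fun z : Fin r × Fin 3 => gpt r z.1 z.2)) := hp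
    apply hinj
    rw [h2, map_zero]
  have h4 := congrArg (eval (fun z : Fin r × Fin 3 =>
    if (z.1 = a ∧ z.2 = 0) ∨ (z.1 = b ∧ z.2 = 1) ∨ (z.1 = c ∧ z.2 = 2) then (1 : ℚ) else 0)) h3
  rw [hQ] at h4
  unfold det3 at h4
  simp [hab, hac, hbc, hab.symm, hac.symm, hbc.symm] at h4

theorem three_le_hPm {r D : ℕ} (c : Fin 3 → ℕ) (y : Fin r → ℕ) {i : Fin 3 → Fin r}
    (hinj : Function.Injective i) :
    hTm D {α | ∀ j, α j ≤ c j} (Function.extend i (fun _ => 0) y) ≤
      hPm D (Function.extend i (fun j => D - c j) y) := by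
  have hdet : (colM (gpt r (i 0)) (gpt r (i 1)) (gpt r (i 2))).det ≠ 0 := by
    rw [colM_det]
    exact gpt_det3_ne (fun h => absurd (hinj h) (by decide)) (fun h => absurd (hinj h) (by decide))
      (fun h => absurd (hinj h) (by decide))
  have hU := isUnit_iff_ne_zero.mpr hdet
  refine hTm_le_of_move (M := (colM (gpt r (i 0)) (gpt r (i 1)) (gpt r (i 2)))⁻¹)
    (M' := colM (gpt r (i 0)) (gpt r (i 1)) (gpt r (i 2)))
    (Matrix.nonsing_inv_mul _ hU) (Matrix.mul_nonsing_inv _ hU) (fun l => ?_)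
  by_cases hl : ∃ j, i j = l
  · obtain ⟨j, rfl⟩ := hl
    right
    refine ⟨j, ?_, fun α hα hd => ?_⟩
    · rw [colM_mulVec]
      funext k
      fin_cases j <;> simp
    · rw [hinj.extend_apply]
      have h1 := hα j
      have h2 : α j ≤ α.degree := Finsupp.le_degree j α
      omega
  · left
    rw [Function.extend_apply' _ _ _ hl, Function.extend_apply' _ _ _ hl]

/-- **The quadratic transformation** -/
theorem crem_hPm_le {r D D' : ℕ} (y : Fin r → ℕ) {i : Fin 3 → Fin r} (hinj : Function.Injective i)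
    (h : ∀ j, y (i j) ≤ D) (hD : D' + y (i 0) + y (i 1) + y (i 2) = 2 * D) :
    hPm D y ≤ hPm D' (Function.extend i (fun j => D' - (D - y (i j))) y) := by
  have h0 := h 0
  have h1 := h 1
  have h2 := h 2
  refine (hPm_le_three y hinj h).trans ?_
  refine (crem_le (D := D) (c := fun j => D - y (i j)) (by omega) (fun j => Nat.sub_le _ _)
    _).trans ?_
  have e1 : D - y (i 0) + (D - y (i 1)) + (D - y (i 2)) - D = D' := by omega
  rw [e1]
  exact three_le_hPm _ y hinj

end Pool.Agent.Work.MP_0421d9_ag.LD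
end

section
/-!
Strips of the plane with equal multiplicities, the width is the multiplicity.
-/

namespace Pool.Agent.Work.MP_0421d9_ag.LD

open MvPolynomial Module

theorem plane_C1 {D r v : ℕ} {y : Fin r → ℕ} (P : Finset (Fin r)) (hP : ∀ i ∈ P, y i = v)
    (hPs : 4 * D ≤ ∑ i ∈ P, y i) (hv : 1 ≤ v) (hD : 8 * v * (v + 1) ≤ D) :
    StripGain D 32 P y v := by
  -- the numbers
  have hvD : 16 * v ≤ D := by nlinarith
  obtain ⟨n, hn⟩ : ∃ n, n + v = D + 1 := ⟨D + 1 - v, by omega⟩
  set t := n / (2 * v + 1) with ht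
  set s := n % (2 * v + 1) with hs
  have e1 : (2 * v + 1) * t + s = n := Nat.div_add_mod n (2 * v + 1)
  have e2 : s < 2 * v + 1 := Nat.mod_lt _ (by omega)
  have e3 : 4 * v ≤ t := by
    rw [ht, Nat.le_div_iff_mul_le (by omega)]
    nlinarith
  obtain ⟨a, ha⟩ : ∃ a, a + s = t := ⟨t - s, by omega⟩
  have e4 : n = a * v + (t + s) * (v + 1) := by
    rw [← e1, ← ha]
    ring
  have e5 : t ≤ 2 * a := by omega
  have hcard : P.card * v = ∑ i ∈ P, y i := by
    rw [Finset.sum_congr rfl hP, Finset.sum_const, smul_eq_mul]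
  have e6 : (2 * (a + (t + s)) + 1) * v ≤ 4 * D := by
    have h1 : a + (t + s) = 2 * t := by omega
    have h2 : (2 * v + 1) * t ≤ n := by omega
    rw [h1]
    nlinarith
  have hN : 2 * (a + (t + s)) + 1 ≤ P.card := by
    refine Nat.le_of_mul_le_mul_right (c := v) ?_ (by omega)
    rw [hcard]
    exact e6.trans hPs
  obtain ⟨e, he, heP⟩ := exists_enum P hN
  have hye : ∀ k, y (e k) = v := fun k => hP _ (heP k)
  obtain ⟨δ, hδ⟩ : ∃ δ, δ + v = D := ⟨D - v, by omega⟩
  have hδn : δ + 1 = n := by omega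
  have hδ1 : 1 ≤ δ := by omega
  have hK : Killsm D (y ∘ e) {α | α 2 < v ∨ (α 2 = v ∧ α 0 < a * v)} := by
    have h1 := Killsm_const.mpr (kills_strip v a (t + s) δ hv (by omega))
    have h2 : y ∘ e = fun _ => v := funext hye
    rw [h2, ← hδ]
    exact h1
  have hsum : ∑ k, y (e k) = (2 * (a + (t + s)) + 1) * v := by
    rw [Finset.sum_congr rfl (fun k _ => hye k), Finset.sum_const, Finset.card_univ,
      Fintype.card_fin, smul_eq_mul]
  have hDv : D - v = δ := by omega
  refine gain_of (κ := v) (A := a * v) (B := (t + s) * (v + 1)) e he heP hv (by omega) (by omega)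
    ?_ ?_ ?_ ?_ ?_ ?_
  · rw [hDv]
    omega
  · have h1 : ∑ k, (y (e k) + 1).choose 2 = (2 * (a + (t + s)) + 1) * (v + 1).choose 2 := by
      rw [Finset.sum_congr rfl (fun k _ => by rw [hye k]), Finset.sum_const, Finset.card_univ,
        Fintype.card_fin, smul_eq_mul]
    rw [h1]
    have h2 := two_mul_choose v
    obtain ⟨w, hw⟩ : ∃ w, v = w + 1 := ⟨v - 1, by omega⟩
    have h3 := two_mul_choose w
    have h4 : v.choose 2 = (w + 1).choose 2 := by rw [hw]
    have h5 : D + 1 = a * v + (t + s) * (v + 1) + v := by omega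
    have h6 : 2 * (a * v + v * (D + 1)) =
        2 * ((2 * (a + (t + s)) + 1) * (v + 1).choose 2 + v.choose 2) := by
      rw [h5, h4]
      have h7 : 2 * ((2 * (a + (t + s)) + 1) * (v + 1).choose 2 + (w + 1).choose 2) =
          (2 * (a + (t + s)) + 1) * (2 * (v + 1).choose 2) + 2 * (w + 1).choose 2 := by ring
      rw [h7, h2, h3, hw]
      ring
    omega
  · exact hK
  · rw [hsum]
    exact Nat.mul_pos (by omega) (by omega)
  · rw [hsum]
    have h1 : 2 * (a + (t + s)) + 1 ≤ 32 * a := by omega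
    calc _ ≤ 32 * a * v := Nat.mul_le_mul_right _ h1
      _ = _ := by ring
  · rw [hsum]
    have h1 : 2 * (a + (t + s)) + 1 ≤ 32 * (t + s) := by omega
    calc _ ≤ 32 * (t + s) * (v + 1) := Nat.mul_le_mul h1 (by omega)
      _ = _ := by ring

end Pool.Agent.Work.MP_0421d9_ag.LD
end

section
/-!
Tight strips and sums of good heights.
-/

namespace Pool.Agent.Work.MP_0421d9_ag.LD

open MvPolynomial Module

/-- a tight strip -/
theorem MR_strip {H L k N r R : ℕ} (hR1 : 1 ≤ R) (hRH : R + 1 ≤ H) (hL : 2 ≤ L)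
    (hlo : R * L ≤ N * (k + 1).choose 2) (hhi : N * (k + 1).choose 2 ≤ (R + 1) * L)
    (h0 : MR R L k N) (h1 : MR (R + 1) L k N) (h2 : MR (H - R) L k r)
    (h3 : MR (H - R - 1) L k r) : MR H L k (r + N) := by
  apply MR_of_le
  have e0 := h0.emp hlo
  have e1 := h1.reg hhi
  set c := (k + 1).choose 2 with hc
  obtain ⟨B, hB⟩ : ∃ B, N * c + B = (R + 1) * L := ⟨(R + 1) * L - N * c, by omega⟩
  have hBL : B ≤ L := by
    have : (R + 1) * L = R * L + L := by ring
    omega
  have h4 := rect_strip_gen (r := r) hR1 hRH hL hBL (N := N) (k := k) (by omega) e0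
  refine h4.trans ?_
  unfold MR at h2 h3
  rw [h2, h3]
  obtain ⟨x, rfl⟩ : ∃ x, H = x + R + 1 := ⟨H - R - 1, by omega⟩
  have g1 : x + R + 1 - R = x + 1 := by omega
  have g2 : x + 1 - 1 = x := by omega
  rw [g1, g2]
  have e2 : (x + R + 1) * L = x * L + (R + 1) * L := by ring
  have e3 : (x + 1) * L = x * L + L := by ring
  have e4 : (r + N) * c = r * c + N * c := by ring
  rw [e2, e3, e4]
  generalize (R + 1) * L = y at *
  generalize r * c = rc at *
  generalize N * c = Nc at *
  generalize x * L = xL at *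
  refine max_le ?_ ?_ <;> omega

/-- the sum of good heights: one strip with an even number of points -/
theorem strip_sum {k L s p H u v : ℕ} (hp : p ≤ 1) (hL : 2 ≤ L) (hs : k * (k + 1) ≤ s * L) (hu : 1 ≤ u)
    (huv : u + s ≤ v) (hv : v ≤ H) (h1 : ∀ R, u ≤ R → R ≤ v → GE k L R)
    (h2 : ∀ R, H ≤ R + v → R + u ≤ H → GP p k L R) : GP p k L H := by
  rcases Nat.eq_zero_or_pos k with rfl | hk
  · intro t
    exact MR_zero_mult _ _ _
  have hc := two_choose_succ k
  set c := (k + 1).choose 2 with hcdef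
  have hcpos : 0 < 2 * c := by
    rw [hc]
    positivity
  -- the number of points of the strip
  set t' := (u * L + (2 * c - 1)) / (2 * c) with ht'
  have e1 : u * L ≤ t' * (2 * c) := by
    have h3 := Nat.lt_div_mul_add (a := u * L + (2 * c - 1)) hcpos
    rw [← ht'] at h3
    omega
  have e2 : t' * (2 * c) < u * L + 2 * c := by
    have h3 := Nat.div_mul_le_self (u * L + (2 * c - 1)) (2 * c)
    rw [← ht'] at h3
    omega
  have e3 : 2 * t' * c = t' * (2 * c) := by ring
  -- the height of the strip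
  set R := (t' * (2 * c)) / L with hR
  have hLpos : 0 < L := by omega
  have e4 : R * L ≤ t' * (2 * c) := Nat.div_mul_le_self _ _
  have e5 : t' * (2 * c) < (R + 1) * L := by
    have h3 := Nat.lt_div_mul_add (a := t' * (2 * c)) hLpos
    rw [← hR] at h3
    have h4 : (R + 1) * L = R * L + L := by ring
    rw [h4]
    exact h3
  have hRu : u ≤ R := by
    rw [hR]
    exact (Nat.le_div_iff_mul_le hLpos).mpr e1
  have hRv : R + 1 ≤ v := by
    have h3 : t' * (2 * c) < v * L := by
      calc t' * (2 * c) < u * L + 2 * c := e2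
        _ ≤ u * L + s * L := by rw [hc]; omega
        _ = (u + s) * L := by ring
        _ ≤ v * L := Nat.mul_le_mul_right L huv
    have h4 : R * L < v * L := lt_of_le_of_lt e4 h3
    have h5 : R < v := Nat.lt_of_mul_lt_mul_right h4
    exact h5
  have g0 := h1 R hRu (by omega) t'
  have g1 := h1 (R + 1) (by omega) hRv t'
  intro t
  rcases Nat.lt_or_ge t t' with h | h
  · have h3 := g1.reg (by rw [← hcdef, e3]; exact e5.le)
    have h4 := reg_anti (by omega : 2 * t + p ≤ 2 * t') h3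
    exact MR_of_reg (rect_regular_mono (by omega : R + 1 ≤ H) h4)
  · obtain ⟨d, rfl⟩ : ∃ d, t = t' + d := ⟨t - t', by omega⟩
    have h3 := MR_strip (N := 2 * t') (r := 2 * d + p) (by omega : 1 ≤ R) (by omega : R + 1 ≤ H)
      hL (by rw [← hcdef, e3]; exact e4) (by rw [← hcdef, e3]; exact e5.le) g0 g1
      (h2 (H - R) (by omega) (by omega) d) (h2 (H - R - 1) (by omega) (by omega) d)
    have e6 : 2 * (t' + d) + p = 2 * d + p + 2 * t' := by ring
    rw [e6]
    exact h3

/-- intervals with margins can be added -/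
theorem GS.add {k L s x y x' y' : ℕ} (hL : 2 ≤ L) (hs : k * (k + 1) ≤ s * L)
    (h : GS k L s x y) (h' : GS k L s x' y') : GS k L s (x + x') (y + y') := by
  obtain ⟨h1, h2, h3⟩ := h
  obtain ⟨h1', h2', h3'⟩ := h'
  refine ⟨by omega, by omega, fun R hR hR' => ?_⟩
  refine strip_sum (p := 0) (by omega) hL hs (u := max (x - s) (R - (y' + s)))
    (v := min (y + s) (R - (x' - s))) (by omega) (by omega) (by omega) ?_ ?_
  · intro R' h4 h5
    exact h3 R' (by omega) (by omega)
  · intro R' h4 h5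
    exact h3' R' (by omega) (by omega)

theorem GS.smul {k L s x y : ℕ} (hL : 2 ≤ L) (hs : k * (k + 1) ≤ s * L)
    (h : GS k L s x y) : ∀ q, 1 ≤ q → GS k L s (q * x) (q * y) := by
  intro q hq
  induction q, hq using Nat.le_induction with
  | base => rwa [one_mul, one_mul]
  | succ q hq ih =>
    rw [add_mul, add_mul, one_mul, one_mul]
    exact ih.add hL hs h

theorem GS.sum {k L s : ℕ} (hL : 2 ≤ L) (hs : k * (k + 1) ≤ s * L) {x y : ℕ → ℕ} :
    ∀ j, 1 ≤ j → (∀ i < j, GS k L s (x i) (y i)) →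
      GS k L s (∑ i ∈ Finset.range j, x i) (∑ i ∈ Finset.range j, y i) := by
  intro j hj
  induction j, hj using Nat.le_induction with
  | base =>
    intro h
    rw [Finset.sum_range_one, Finset.sum_range_one]
    exact h 0 (by omega)
  | succ j hj ih =>
    intro h
    rw [Finset.sum_range_succ, Finset.sum_range_succ]
    exact (ih (fun i hi => h i (by omega))).add hL hs (h j (by omega))

theorem GS.good {k L s x y R : ℕ} (h : GS k L s x y) (h1 : x ≤ R + s) (h2 : R ≤ y + s) :
    GE k L R := h.2.2 R h1 h2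

/-- an interval of good heights which is long enough -/
theorem GS_of {k L s a b : ℕ} (ha : 1 ≤ a) (hab : a + 2 * s ≤ b)
    (h : ∀ R, a ≤ R → R ≤ b → GE k L R) : GS k L s (a + s) (b - s) :=
  ⟨by omega, by omega, fun R h1 h2 => h R (by omega) (by omega)⟩

end Pool.Agent.Work.MP_0421d9_ag.LD
end

section
/-!
Exact addition of points of small multiplicity: arbitrarily many points, in a fixed degree.
-/

namespace Pool.Agent.Work.MP_0421d9_ag.LD

open MvPolynomial Module

/-! ### further points -/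

theorem hPm_append_zero {r : ℕ} (D n : ℕ) (m : Fin r → ℕ) :
    hPm D (Fin.append m (fun _ : Fin n => 0)) = hPm D m := by
  rw [hPm_eq_hTm, hPm_eq_hTm, hTm_comp_eq (e := Fin.castAdd n) (Fin.castAdd_injective r n)]
  · congr 1
    funext i
    exact Fin.append_left _ _ i
  · intro i
    refine Fin.addCases (fun j hj => ?_) (fun j _ => ?_) i
    · exact absurd ⟨j, rfl⟩ hj
    · exact Fin.append_right _ _ j

theorem sum_append {r n : ℕ} (m : Fin r → ℕ) (k : Fin n → ℕ) (f : ℕ → ℕ) :
    ∑ i, f (Fin.append m k i) = ∑ i, f (m i) + ∑ j, f (k j) := by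
  rw [Fin.sum_univ_add]
  congr 1
  · exact Finset.sum_congr rfl (fun i _ => by rw [Fin.append_left])
  · exact Finset.sum_congr rfl (fun i _ => by rw [Fin.append_right])

theorem hPm_append_le {r n : ℕ} (D : ℕ) (m : Fin r → ℕ) (k : Fin n → ℕ) :
    hPm D m ≤ hPm D (Fin.append m k) + ∑ j, (k j + 1).choose 2 := by
  classical
  have h1 := hTm_drop_set (D := D) (k := Fin.append m k) (T := Set.univ)
    (Finset.univ.map (Fin.natAddEmb r))
  have h2 : (fun i => if i ∈ (Finset.univ.map (Fin.natAddEmb r) : Finset (Fin (r + n))) then 0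
      else Fin.append m k i) = Fin.append m (fun _ : Fin n => 0) := by
    funext i
    refine Fin.addCases (fun j => ?_) (fun j => ?_) i
    · rw [Fin.append_left, Fin.append_left, if_neg]
      intro h
      rw [Finset.mem_map] at h
      obtain ⟨a, -, ha⟩ := h
      have h3 := congrArg Fin.val ha
      have h4 : (Fin.natAddEmb r a : Fin (r + n)).1 = r + a.1 := rfl
      have h5 : (Fin.castAdd n j).1 = j.1 := rfl
      have h6 := j.2
      omega
    · have h3 : Fin.natAdd r j ∈ (Finset.univ.map (Fin.natAddEmb r) : Finset (Fin (r + n))) :=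
        Finset.mem_map_of_mem (Fin.natAddEmb r) (Finset.mem_univ j)
      rw [if_pos h3, Fin.append_right]
  rw [h2, Finset.sum_map, ← hPm_eq_hTm, ← hPm_eq_hTm, hPm_append_zero] at h1
  refine h1.trans (Nat.add_le_add_left (le_of_eq ?_) _)
  refine Finset.sum_congr rfl (fun j _ => ?_)
  have h3 : Fin.append m k (Fin.natAddEmb r j) = k j := Fin.append_right _ _ j
  rw [h3]

/-! ### numbers -/

end Pool.Agent.Work.MP_0421d9_ag.LD
end

section
/-!
Three points of arbitrary multiplicities and points of small multiplicity: the induction.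
-/

namespace Pool.Agent.Work.MP_0421d9_ag.LD

open MvPolynomial Module

/-- three points of multiplicities `M`, `a`, `b`, the others have multiplicity at most `u` -/
structure St3 (u M a b : ℕ) {r : ℕ} (y : Fin r → ℕ) (i₁ i₂ i₃ : Fin r) : Prop where
  h12 : i₁ ≠ i₂
  h13 : i₁ ≠ i₃
  h23 : i₂ ≠ i₃
  e1 : y i₁ = M
  e2 : y i₂ = a
  e3 : y i₃ = b
  small : ∀ i, i ≠ i₁ → i ≠ i₂ → i ≠ i₃ → y i ≤ u

/-- all these systems have the expected dimension in degree `D` -/
def Ex3 (u D M a b : ℕ) : Prop := ∀ (r : ℕ) (y : Fin r → ℕ) (i₁ i₂ i₃ : Fin r),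
  St3 u M a b y i₁ i₂ i₃ → hPm D y = (D + 2).choose 2 - ∑ i, (y i + 1).choose 2

/-- the systems whose expected dimension is not close to zero have the expected dimension -/
def Far3 (u D M a b F : ℕ) : Prop := ∀ (r : ℕ) (y : Fin r → ℕ) (i₁ i₂ i₃ : Fin r),
  St3 u M a b y i₁ i₂ i₃ → ((D + 2).choose 2 + F ≤ ∑ i, (y i + 1).choose 2 → hPm D y = 0) ∧
    (∑ i, (y i + 1).choose 2 + F ≤ (D + 2).choose 2 →
      hPm D y = (D + 2).choose 2 - ∑ i, (y i + 1).choose 2)

theorem Ex3.far {u D M a b F : ℕ} (h : Ex3 u D M a b) : Far3 u D M a b F := by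
  intro r y i₁ i₂ i₃ hs
  have h1 := h r y i₁ i₂ i₃ hs
  exact ⟨fun h2 => by omega, fun _ => h1⟩

theorem Far3.mono {u D M a b F F' : ℕ} (h : Far3 u D M a b F) (hF : F ≤ F') :
    Far3 u D M a b F' := by
  intro r y i₁ i₂ i₃ hs
  obtain ⟨h1, h2⟩ := h r y i₁ i₂ i₃ hs
  exact ⟨fun h3 => h1 (by omega), fun h3 => h2 (by omega)⟩

theorem Ex3.symm {u D M a b : ℕ} (h : Ex3 u D M a b) : Ex3 u D M b a := by
  intro r y i₁ i₂ i₃ hs
  exact h r y i₁ i₃ i₂ ⟨hs.h13, hs.h12, hs.h23.symm, hs.e1, hs.e3, hs.e2,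
    fun i h1 h2 h3 => hs.small i h1 h3 h2⟩

/-- the small points -/
def sml {r : ℕ} (i₁ i₂ i₃ : Fin r) : Finset (Fin r) := offP {i₁, i₂, i₃}

theorem mem_sml {r : ℕ} {i₁ i₂ i₃ i : Fin r} : i ∈ sml i₁ i₂ i₃ ↔ i ≠ i₁ ∧ i ≠ i₂ ∧ i ≠ i₃ := by
  unfold sml offP
  rw [Finset.mem_filter]
  simp

theorem St3.sum {u M a b : ℕ} {r : ℕ} {y : Fin r → ℕ} {i₁ i₂ i₃ : Fin r}
    (hs : St3 u M a b y i₁ i₂ i₃) : ∑ i, (y i + 1).choose 2 =
      (M + 1).choose 2 + (a + 1).choose 2 + (b + 1).choose 2 +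
        ∑ i ∈ sml i₁ i₂ i₃, (y i + 1).choose 2 := by
  rw [sum_offP {i₁, i₂, i₃}, Finset.sum_insert, Finset.sum_insert, Finset.sum_singleton, hs.e1,
    hs.e2, hs.e3]
  · unfold sml
    ring
  · rw [Finset.mem_singleton]
    exact hs.h23
  · rw [Finset.mem_insert, Finset.mem_singleton, not_or]
    exact ⟨hs.h12, hs.h13⟩

theorem St3.offF {u M a b : ℕ} {r : ℕ} {y : Fin r → ℕ} {i₁ i₂ i₃ : Fin r}
    (hs : St3 u M a b y i₁ i₂ i₃) {Q : Finset (Fin r)} (hQ : Q ⊆ sml i₁ i₂ i₃) :
    St3 u M a b (offF Q y) i₁ i₂ i₃ := by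
  have hne : ∀ i, i ∉ sml i₁ i₂ i₃ → LD.offF Q y i = y i := by
    intro i hi
    unfold LD.offF
    rw [if_neg (fun h => hi (hQ h))]
  refine ⟨hs.h12, hs.h13, hs.h23, ?_, ?_, ?_, fun i h1 h2 h3 => ?_⟩
  · rw [hne _ (by rw [mem_sml]; simp), hs.e1]
  · rw [hne _ (by rw [mem_sml]; simp), hs.e2]
  · rw [hne _ (by rw [mem_sml]; simp), hs.e3]
  · unfold LD.offF
    split_ifs
    · exact Nat.zero_le _
    · exact hs.small i h1 h2 h3

theorem St3.append {u M a b : ℕ} {r : ℕ} {y : Fin r → ℕ} {i₁ i₂ i₃ : Fin r}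
    (hs : St3 u M a b y i₁ i₂ i₃) (n : ℕ) : St3 u M a b (Fin.append y (fun _ : Fin n => u))
      (Fin.castAdd n i₁) (Fin.castAdd n i₂) (Fin.castAdd n i₃) := by
  have hinj := Fin.castAdd_injective r n
  refine ⟨fun h => hs.h12 (hinj h), fun h => hs.h13 (hinj h), fun h => hs.h23 (hinj h), ?_, ?_, ?_,
    fun i => ?_⟩
  · rw [Fin.append_left, hs.e1]
  · rw [Fin.append_left, hs.e2]
  · rw [Fin.append_left, hs.e3]
  · refine Fin.addCases (fun j h1 h2 h3 => ?_) (fun j _ _ _ => ?_) i
    · rw [Fin.append_left]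
      exact hs.small j (fun h => h1 (by rw [h])) (fun h => h2 (by rw [h]))
        (fun h => h3 (by rw [h]))
    · rw [Fin.append_right]

/-- removing `κ` rows from a system with a point of multiplicity `a` on the line -/
theorem row_id {D a κ : ℕ} (h1 : κ ≤ a) (h2 : a ≤ D) : (D + 2).choose 2 + (a - κ + 1).choose 2 =
    κ * (D - a + 1) + (D - κ + 2).choose 2 + (a + 1).choose 2 := by
  obtain ⟨a', rfl⟩ : ∃ a', a = κ + a' := ⟨a - κ, by omega⟩
  obtain ⟨E, rfl⟩ : ∃ E, D = κ + a' + E := ⟨D - (κ + a'), by omega⟩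
  have k1 : κ + a' - κ = a' := by omega
  have k2 : κ + a' + E - (κ + a') = E := by omega
  have k3 : κ + a' + E - κ = a' + E := by omega
  rw [k1, k2, k3]
  have e1 := tr_two_choose (κ + a' + E + 1)
  have e2 := tr_two_choose a'
  have e3 := tr_two_choose (a' + E + 1)
  have e4 := tr_two_choose (κ + a')
  have k4 : κ + a' + E + 1 + 1 = κ + a' + E + 2 := by omega
  have k5 : a' + E + 1 + 1 = a' + E + 2 := by omega
  rw [k4] at e1
  rw [k5] at e3
  have e5 : (κ + a' + E + 1) * (κ + a' + E + 2) + a' * (a' + 1) =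
      2 * (κ * (E + 1)) + (a' + E + 1) * (a' + E + 2) + (κ + a') * (κ + a' + 1) := by ring
  omega

theorem choose_pred_bound (u : ℕ) : (u - 1).choose 2 + 1 + (u + 1).choose 2 + u.choose 2 ≤
    2 * (u + 1) ^ 2 := by
  have h1 : (u - 1).choose 2 ≤ u.choose 2 := Nat.choose_le_choose 2 (Nat.sub_le _ _)
  have h2 : (u + 1).choose 2 = u + u.choose 2 := by
    rw [Nat.choose_succ_succ' u 1, Nat.choose_one_right]
  have h3 := tr_two_choose u
  have e1 : (u + 1) ^ 2 = u * u + 2 * u + 1 := by ring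
  have e2 : u * (u + 1) = u * u + u := by ring
  omega

end Pool.Agent.Work.MP_0421d9_ag.LD
end

section
/-!
Three points of arbitrary multiplicities and points of small multiplicity: few rows, and the
nonspeciality.
-/

namespace Pool.Agent.Work.MP_0421d9_ag.LD

open MvPolynomial Module

theorem two_mul_choose_succ (n : ℕ) : 2 * (n + 1).choose 2 = n * n + n := by
  rw [tr_two_choose]
  ring

theorem two_mul_choose_two (n : ℕ) : 2 * (n + 2).choose 2 = n * n + 3 * n + 2 := by
  have h := tr_two_choose (n + 1)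
  have e1 : (n + 1) * (n + 1 + 1) = n * n + 3 * n + 2 := by ring
  rw [e1] at h
  exact h

end Pool.Agent.Work.MP_0421d9_ag.LD
end

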