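import Pool.Agent.Work.Z0421M.C14
import Pool.Agent.Work.Z0421M.C19
import Pool.Agent.Work.Z0421M.C21

section
/-!
The critical systems of large degree: both windows fail, so the parameters are in a small range.
-/

namespace Pool.Agent.Work.MP_0421d9_ag.LD

open MvPolynomial Module

/-! ### the next degree -/

theorem zl_succ_le {r : ℕ} (D : ℕ) (y : Fin r → ℕ) : hPm (D + 1) y ≤ hPm D y + (D + 2) := by
  rw [hPm_eq_hTm, hPm_eq_hTm]
  unfold hTm
  set V := TSm (D + 1) Set.univ y (gpt r) with hV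
  let ρ : R3 →ₗ[ℂ] (Fin (D + 2) → ℂ) :=
    { toFun := fun F j => coeff (ex3 j (D + 1 - j) 0) F
      map_add' := fun F G => by
        funext z
        simp
      map_smul' := fun c F => by
        funext z
        simp }
  have h1 := finrank_eq_ker_add_map ρ V
  have h2 : finrank ℂ ↥(V.map ρ) ≤ D + 2 := by
    refine (Submodule.finrank_le _).trans ?_
    rw [finrank_fin_fun]
  have h3 : V ⊓ LinearMap.ker ρ ≤
      (TSm D Set.univ y (gpt r)).map (LinearMap.mulLeft ℂ (X 2 ^ 1 : R3)) := by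
    rintro F ⟨hF, hF'⟩
    rw [SetLike.mem_coe, hV, mem_TSm] at hF
    obtain ⟨h4, h5, h6⟩ := hF
    have h7 := LinearMap.mem_ker.mp hF'
    obtain ⟨G, hG1, hG2, hG3⟩ := exists_div_X2 (δ := D) (u := 1) h4 (fun α hα => by
      by_contra hcon
      have h10 := deg_eq h4 hα
      have h12 : α 0 < D + 2 := by omega
      have h9 := congrFun h7 ⟨α 0, h12⟩
      have h11 : ex3 (α 0) (D + 1 - α 0) 0 = α := by
        conv_rhs => rw [eq_ex3 α]
        congr 1
        · omega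
        · omega
      change coeff (ex3 (α 0) (D + 1 - α 0) 0) F = 0 at h9
      rw [h11] at h9
      exact mem_support_iff.mp hα h9)
    refine Submodule.mem_map.mpr ⟨G, ?_, by rw [LinearMap.mulLeft_apply, hG2]⟩
    rw [mem_TSm]
    refine ⟨hG1, fun i => ?_, fun β hβ => trivial⟩
    have h8 := h5 i
    rw [hG2] at h8
    exact vanishTo_of_X2_pow_mul (gpt_ne i 2) h8
  have h4 := (Submodule.finrank_mono h3).trans (Submodule.finrank_map_le _ _)
  omega

theorem zl_le_choose {r : ℕ} (D : ℕ) (y : Fin r → ℕ) : hPm D y ≤ (D + 2).choose 2 := by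
  rw [← finrank_Rd D]
  unfold hPm
  exact Submodule.finrank_mono (fun F hF => hF.1)

theorem zl_two_choose (n : ℕ) : 2 * (n + 1).choose 2 = n * (n + 1) := by
  rw [Nat.choose_two_right, Nat.add_sub_cancel, Nat.mul_comm n]
  exact Nat.mul_div_cancel' (Nat.even_mul_pred_self (n + 1)).two_dvd

theorem zl_up {r : ℕ} (D : ℕ) (y : Fin r → ℕ) (x : ℕ) : hPm D y ≤ hPm (D + x) y := by
  induction x with
  | zero => exact le_rfl
  | succ x ih => exact ih.trans (hPm_le_succ _ _)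

theorem zl_down {r : ℕ} (E : ℕ) (y : Fin r → ℕ) (x : ℕ) :
    2 * hPm (E + x) y ≤ 2 * hPm E y + (2 * E * x + x * x + 3 * x) := by
  induction x with
  | zero => simp
  | succ x ih =>
    have h1 := zl_succ_le (E + x) y
    have h2 : E + (x + 1) = E + x + 1 := rfl
    rw [h2]
    nlinarith

/-! ### the two estimates -/

theorem leaf_i {T ρ r c D : ℕ} {y : Fin r → ℕ} (hW : WinP T ρ) (hT : 1 ≤ T) (hc : 1 ≤ c)
    (hyc : ∀ i, y i ≤ c) (hD : 6 * ρ * (c + 1) + 10 ≤ D)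
    (h3 : T * D ^ 2 ≤ T * (∑ i, y i ^ 2 + 23 * ∑ i, y i) + 6 * (c + 1) ^ 2) :
    6 * (T * hPm D y) ≤
      4 * (23 * (T * ∑ i, y i) + 6 * (c + 1) ^ 2 + 6 * c ^ 2) + 11 * (T * D) + 7 * T := by
  classical
  set S1 := ∑ i, y i with hS1
  set S2 := ∑ i, y i ^ 2 with hS2
  set K := 23 * (T * S1) + 6 * (c + 1) ^ 2 + 6 * c ^ 2 with hK
  have hKpos : 0 < K := by positivity
  by_cases hex : ∃ x, 2 * x ≤ D ∧ K + T * x ^ 2 ≤ 2 * (T * D * x)
  · have hx := Nat.find_spec hex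
    have hmin := @Nat.find_min _ _ hex
    set x := Nat.find hex with hxdef
    obtain ⟨hx1, hx2⟩ := hx
    have hx0 : x ≠ 0 := by
      intro h0
      rw [h0] at hx2
      simp at hx2
      omega
    obtain ⟨z, hz⟩ : ∃ z, x = z + 1 := ⟨x - 1, by omega⟩
    obtain ⟨E, hE⟩ : ∃ E, D = E + x := ⟨D - x, by omega⟩
    have hEρ : 3 * ρ * (c + 1) ≤ E := by
      have h4 : 6 * ρ * (c + 1) = 2 * (3 * ρ * (c + 1)) := by ring
      omega
    have h5 := (hW r c E y hc hyc hEρ).1 (by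
      have h7 : T * D ^ 2 + T * x ^ 2 = T * E ^ 2 + 2 * (T * D * x) := by
        rw [hE]
        ring
      have h8 : T * (S2 + 23 * S1) = T * S2 + 23 * (T * S1) := by ring
      rw [h8] at h3
      change T * E ^ 2 + 6 * c ^ 2 ≤ T * S2
      omega)
    have h6 := zl_down E y x
    rw [← hE, h5] at h6
    have h7 : ¬ (2 * z ≤ D ∧ K + T * z ^ 2 ≤ 2 * (T * D * z)) := hmin (by omega)
    have h8 : 2 * (T * D * z) < K + T * z ^ 2 := by
      by_contra hcon
      exact h7 ⟨by omega, by omega⟩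
    have h9 : T * (2 * hPm D y) ≤ T * (2 * E * x + x * x + 3 * x) := by
      refine Nat.mul_le_mul_left T ?_
      omega
    have h10 : 2 * (T * x) ≤ T * D := by
      have h11 := Nat.mul_le_mul_left T hx1
      have h12 : T * (2 * x) = 2 * (T * x) := by ring
      omega
    have h13 : T * (2 * E * x + x * x + 3 * x) + T * z ^ 2 =
        2 * (T * D * z) + 2 * (T * D) + T * x + T := by
      rw [hE, hz]
      ring
    have h14 : T * (2 * hPm D y) = 2 * (T * hPm D y) := by ring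
    rw [h14] at h9
    omega
  · have h4 : 2 * (T * D * (D / 2)) < K + T * (D / 2) ^ 2 := by
      by_contra hcon
      exact hex ⟨D / 2, by omega, by omega⟩
    have h5 := zl_le_choose D y
    have h6 : 2 * (D + 2).choose 2 = (D + 1) * (D + 2) := zl_two_choose (D + 1)
    have h7 : T * (2 * hPm D y) ≤ T * ((D + 1) * (D + 2)) := by
      refine Nat.mul_le_mul_left T ?_
      omega
    have h8 : T * (3 * D ^ 2) ≤ 4 * K + T * (2 * D + 1) := by
      obtain ⟨w, hw⟩ : ∃ w, w = D / 2 := ⟨_, rfl⟩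
      rw [← hw] at h4
      have h9 : D = 2 * w ∨ D = 2 * w + 1 := by omega
      rcases h9 with h9 | h9
      · rw [h9] at h4 ⊢
        have e1 : T * (3 * (2 * w) ^ 2) = 12 * (T * w ^ 2) := by ring
        have e2 : 2 * (T * (2 * w) * w) = 4 * (T * w ^ 2) := by ring
        omega
      · rw [h9] at h4 ⊢
        have e1 : T * (3 * (2 * w + 1) ^ 2) = 12 * (T * w ^ 2) + 12 * (T * w) + 3 * T := by ring
        have e2 : 2 * (T * (2 * w + 1) * w) = 4 * (T * w ^ 2) + 2 * (T * w) := by ring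
        have e3 : T * (2 * (2 * w + 1) + 1) = 4 * (T * w) + 3 * T := by ring
        omega
    have e4 : T * (3 * D ^ 2) = 3 * (T * D ^ 2) := by ring
    have e5 : T * (2 * D + 1) = 2 * (T * D) + T := by ring
    have e6 : T * (2 * hPm D y) = 2 * (T * hPm D y) := by ring
    have e7 : T * ((D + 1) * (D + 2)) = T * D ^ 2 + 3 * (T * D) + 2 * T := by ring
    rw [e4, e5] at h8
    rw [e6, e7] at h7
    omega

theorem leaf_ii {T ρ r c D : ℕ} {y : Fin r → ℕ} (hW : WinP T ρ) (hT : 1 ≤ T) (hc : 1 ≤ c)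
    (hyc : ∀ i, y i ≤ c) (hD : 6 * ρ * (c + 1) + 10 ≤ D)
    (h2 : T * ∑ i, y i ^ 2 ≤ T * D ^ 2 + 6 * c ^ 2) :
    8 * (T * (hPm D y + ∑ i, (y i + 1).choose 2)) ≤ 4 * (T * ((D + 1) * (D + 2))) +
      5 * (23 * (T * ∑ i, y i) + 6 * (c + 1) ^ 2 + 6 * c ^ 2) + 8 * (T * D) + 16 * T := by
  classical
  set S1 := ∑ i, y i with hS1
  set S2 := ∑ i, y i ^ 2 with hS2
  set K := 23 * (T * S1) + 6 * (c + 1) ^ 2 + 6 * c ^ 2 with hK
  have hKpos : 0 < K := by positivity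
  have hex : ∃ x, K ≤ 2 * (T * D * x) + T * x ^ 2 := by
    refine ⟨K, ?_⟩
    have h4 : 1 * (1 * K) ≤ T * D * K := by
      rw [Nat.mul_assoc]
      exact Nat.mul_le_mul hT (Nat.mul_le_mul (by omega) le_rfl)
    omega
  have hx := Nat.find_spec hex
  have hmin := @Nat.find_min _ _ hex
  set x := Nat.find hex with hxdef
  have hx0 : x ≠ 0 := by
    intro h0
    rw [h0] at hx
    simp at hx
    omega
  obtain ⟨z, hz⟩ : ∃ z, x = z + 1 := ⟨x - 1, by omega⟩
  have hEρ : 3 * ρ * (c + 1) ≤ D + x := by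
    have h4 : 6 * ρ * (c + 1) = 2 * (3 * ρ * (c + 1)) := by ring
    omega
  have h5 := (hW r c (D + x) y hc hyc hEρ).2 (by
    have h7 : T * (D + x) ^ 2 = T * D ^ 2 + 2 * (T * D * x) + T * x ^ 2 := by ring
    have h8 : T * (S2 + 23 * S1) = T * S2 + 23 * (T * S1) := by ring
    change T * (S2 + 23 * S1) + 6 * (c + 1) ^ 2 ≤ _
    rw [h7, h8]
    omega)
  have h6 := zl_up D y x
  have h7 : K > 2 * (T * D * z) + T * z ^ 2 := by
    have h8 := hmin (show z < x by omega)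
    omega
  have h8 : 2 * (D + x + 2).choose 2 = (D + x + 1) * (D + x + 2) := zl_two_choose (D + x + 1)
  have h9 : T * (2 * (hPm D y + ∑ i, (y i + 1).choose 2)) ≤ T * ((D + x + 1) * (D + x + 2)) := by
    refine Nat.mul_le_mul_left T ?_
    omega
  have h10 : T * ((D + x + 1) * (D + x + 2)) + T =
      T * ((D + 1) * (D + 2)) + (2 * (T * D * z) + T * z ^ 2) + 2 * (T * D) + 5 * (T * z) +
        5 * T := by
    rw [hz]
    ring
  have h11 : 10 * (T * z) ≤ T * D * z := by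
    have h12 : T * D * z = D * (T * z) := by ring
    rw [h12]
    exact Nat.mul_le_mul_right _ (by omega)
  have h13 : T * (2 * (hPm D y + ∑ i, (y i + 1).choose 2)) =
      2 * (T * (hPm D y + ∑ i, (y i + 1).choose 2)) := by ring
  rw [h13] at h9
  omega

/-- the parameters of a critical system -/
theorem plane_leaf {TP ρ r c D : ℕ} {y : Fin r → ℕ} (hW : WinP TP ρ) (hTP : 1 ≤ TP) (hc : 1 ≤ c)
    (hyc : ∀ i, y i ≤ c) (hD : 6 * ρ * (c + 1) + 10 ≤ D) (h0 : hPm D y ≠ 0)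
    (h1 : hPm D y + ∑ i, (y i + 1).choose 2 ≠ (D + 2).choose 2) :
    TP * (2 * hPm D y + ∑ i, (y i + 1).choose 2) ≤
      TP * ((D + 2).choose 2 + 48 * ∑ i, y i + 5 * D + 4) + 21 * (c + 1) ^ 2 ∧
    TP * ∑ i, y i ^ 2 ≤ TP * D ^ 2 + 6 * c ^ 2 ∧
    TP * D ^ 2 ≤ TP * (∑ i, y i ^ 2 + 23 * ∑ i, y i) + 6 * (c + 1) ^ 2 := by
  have hρ : 3 * ρ * (c + 1) ≤ D := by
    have h4 : 6 * ρ * (c + 1) = 2 * (3 * ρ * (c + 1)) := by ring
    omega
  have hw := hW r c D y hc hyc hρ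
  have h2 : TP * ∑ i, y i ^ 2 ≤ TP * D ^ 2 + 6 * c ^ 2 := by
    by_contra hcon
    exact h0 (hw.1 (by omega))
  have h3 : TP * D ^ 2 ≤ TP * (∑ i, y i ^ 2 + 23 * ∑ i, y i) + 6 * (c + 1) ^ 2 := by
    by_contra hcon
    exact h1 (hw.2 (by omega))
  refine ⟨?_, h2, h3⟩
  have h4 := leaf_i hW hTP hc hyc hD h3
  have h5 := leaf_ii hW hTP hc hyc hD h2
  have h6 : 2 * (D + 2).choose 2 = (D + 1) * (D + 2) := zl_two_choose (D + 1)
  rw [← h6] at h5
  have e1 : TP * (hPm D y + ∑ i, (y i + 1).choose 2) =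
      TP * hPm D y + TP * ∑ i, (y i + 1).choose 2 := by ring
  have e2 : TP * (2 * hPm D y + ∑ i, (y i + 1).choose 2) =
      2 * (TP * hPm D y) + TP * ∑ i, (y i + 1).choose 2 := by ring
  have e3 : TP * (2 * (D + 2).choose 2) = 2 * (TP * (D + 2).choose 2) := by ring
  have e4 : TP * ((D + 2).choose 2 + 48 * ∑ i, y i + 5 * D + 4) =
      TP * (D + 2).choose 2 + 48 * (TP * ∑ i, y i) + 5 * (TP * D) + 4 * TP := by ring
  rw [e1, e3] at h5
  rw [e2, e4]
  have e5 : 6 * c ^ 2 ≤ 6 * (c + 1) ^ 2 :=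
    Nat.mul_le_mul_left _ (Nat.pow_le_pow_left (Nat.le_succ c) 2)
  omega

end Pool.Agent.Work.MP_0421d9_ag.LD
end

section
/-!
Selection of the points for the strips of the plane, large multiplicities (helper63, after the
plan of helper69).
-/

namespace Pool.Agent.Work.MP_0421d9_ag.LD

theorem zpa_lt_of_pow {a b n : ℕ} (hn : 1 ≤ n) (h : a ^ n ≤ b ^ n) : a ≤ b := by
  by_contra hcon
  have h1 : b ^ n < a ^ n := Nat.pow_lt_pow_left (by omega) (by omega)
  omega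

theorem zpa_df_pos (k : ℕ) : 1 ≤ df k := by
  induction k using df.induct with
  | case1 => exact le_rfl
  | case2 => exact le_rfl
  | case3 k ih =>
    rw [df]
    exact Nat.mul_pos (by omega) ih

theorem zpa_df_succ (n : ℕ) : df (n + 2) ≤ df (n + 3) := by
  conv_rhs => rw [df]
  exact Nat.le_mul_of_pos_left _ (by omega)

/-- the number `z` is small -/
theorem zpa_small {K p D u k z : ℕ} (hkK : k ≤ K) (hk : 2 ≤ k)
    (hD : (16 * K * p) ^ 3 * u ≤ D) (hσ : 4 * p ^ 2 * D ≤ u ^ 2) (hp : 1 ≤ p)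
    (hmin : 3 ≤ k → D ^ (2 * (k - 1) - 1) <
      2 ^ (k - 1 + 3) * (df (k - 1) * (2 * u ^ 2) ^ (k - 1)))
    (hz : 2 ^ (k + 2) * (df k * z ^ k) ≤ D ^ (2 * k - 1)) : 4 * k * p * z ≤ u * D := by
  rcases Nat.lt_or_ge k 3 with h3 | h3
  · obtain rfl : k = 2 := by omega
    have e1 : df 2 = 1 := rfl
    rw [e1] at hz
    have h1 : (4 * 2 * p * z) ^ 2 ≤ (u * D) ^ 2 := by
      have h2 : 16 * z ^ 2 ≤ D ^ 3 := by
        calc 16 * z ^ 2 = 2 ^ (2 + 2) * (1 * z ^ 2) := by ring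
          _ ≤ D ^ (2 * 2 - 1) := hz
          _ = D ^ 3 := by norm_num
      calc (4 * 2 * p * z) ^ 2 = (4 * p ^ 2) * (16 * z ^ 2) := by ring
        _ ≤ (4 * p ^ 2) * D ^ 3 := Nat.mul_le_mul_left _ h2
        _ = (4 * p ^ 2 * D) * D ^ 2 := by ring
        _ ≤ u ^ 2 * D ^ 2 := Nat.mul_le_mul_right _ hσ
        _ = (u * D) ^ 2 := by ring
    exact zpa_lt_of_pow (by norm_num) h1
  · obtain ⟨n, rfl⟩ : ∃ n, k = n + 3 := ⟨k - 3, by omega⟩
    have hmin' := hmin h3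
    have e1 : n + 3 - 1 = n + 2 := by omega
    have e2 : 2 * (n + 2) - 1 = 2 * n + 3 := by omega
    have e3 : 2 * (n + 3) - 1 = (2 * n + 3) + 2 := by omega
    rw [e1, e2] at hmin'
    rw [e3] at hz
    have hdf := zpa_df_pos (n + 2)
    have hdf2 := zpa_df_succ n
    have h1 : z ^ (n + 3) ≤ D ^ 2 * (2 ^ (n + 2) * u ^ (2 * (n + 2))) := by
      have h2 : (2 ^ (n + 5) * df (n + 2)) * z ^ (n + 3) ≤
          (2 ^ (n + 5) * df (n + 2)) * (D ^ 2 * (2 ^ (n + 2) * u ^ (2 * (n + 2)))) := by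
        calc (2 ^ (n + 5) * df (n + 2)) * z ^ (n + 3)
            = 2 ^ (n + 3 + 2) * (df (n + 2) * z ^ (n + 3)) := by ring
          _ ≤ 2 ^ (n + 3 + 2) * (df (n + 3) * z ^ (n + 3)) :=
            Nat.mul_le_mul_left _ (Nat.mul_le_mul_right _ hdf2)
          _ ≤ D ^ (2 * n + 3 + 2) := hz
          _ = D ^ (2 * n + 3) * D ^ 2 := pow_add _ _ _
          _ ≤ (2 ^ (n + 2 + 3) * (df (n + 2) * (2 * u ^ 2) ^ (n + 2))) * D ^ 2 :=
            Nat.mul_le_mul_right _ hmin'.le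
          _ = (2 ^ (n + 5) * df (n + 2)) * (D ^ 2 * (2 ^ (n + 2) * u ^ (2 * (n + 2)))) := by
            rw [mul_pow, ← pow_mul]
            ring
      refine Nat.le_of_mul_le_mul_left h2 (Nat.mul_pos (Nat.pow_pos (by norm_num : 0 < 2)) hdf)
    have h4 : (4 * (n + 3) * p) ^ (n + 3) * (2 ^ (n + 2) * u ^ (n + 1)) ≤ D ^ (n + 1) := by
      have h5 : 2 ^ (n + 2) * (4 * (n + 3) * p) ^ (n + 3) ≤ (16 * K * p) ^ (3 * (n + 1)) := by
        calc 2 ^ (n + 2) * (4 * (n + 3) * p) ^ (n + 3)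
            ≤ 2 ^ (n + 3) * (4 * (n + 3) * p) ^ (n + 3) :=
              Nat.mul_le_mul_right _ (Nat.pow_le_pow_right (by norm_num) (by omega))
          _ = (2 * (4 * (n + 3) * p)) ^ (n + 3) := by rw [← mul_pow]
          _ ≤ (16 * K * p) ^ (n + 3) := by
              refine Nat.pow_le_pow_left ?_ _
              calc 2 * (4 * (n + 3) * p) = 8 * (n + 3) * p := by ring
                _ ≤ 16 * K * p := Nat.mul_le_mul_right _ (by omega)
          _ ≤ (16 * K * p) ^ (3 * (n + 1)) :=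
              Nat.pow_le_pow_right (Nat.mul_pos (by omega) hp) (by omega)
      calc (4 * (n + 3) * p) ^ (n + 3) * (2 ^ (n + 2) * u ^ (n + 1))
          = (2 ^ (n + 2) * (4 * (n + 3) * p) ^ (n + 3)) * u ^ (n + 1) := by ring
        _ ≤ (16 * K * p) ^ (3 * (n + 1)) * u ^ (n + 1) := Nat.mul_le_mul_right _ h5
        _ = ((16 * K * p) ^ 3 * u) ^ (n + 1) := by rw [mul_pow ((16 * K * p) ^ 3) u, ← pow_mul]
        _ ≤ D ^ (n + 1) := Nat.pow_le_pow_left hD _
    have h5 : (4 * (n + 3) * p * z) ^ (n + 3) ≤ (u * D) ^ (n + 3) := by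
      calc (4 * (n + 3) * p * z) ^ (n + 3) = (4 * (n + 3) * p) ^ (n + 3) * z ^ (n + 3) := by
            rw [mul_pow]
        _ ≤ (4 * (n + 3) * p) ^ (n + 3) * (D ^ 2 * (2 ^ (n + 2) * u ^ (2 * (n + 2)))) :=
            Nat.mul_le_mul_left _ h1
        _ = ((4 * (n + 3) * p) ^ (n + 3) * (2 ^ (n + 2) * u ^ (n + 1))) *
              (u ^ (n + 3) * D ^ 2) := by ring
        _ ≤ D ^ (n + 1) * (u ^ (n + 3) * D ^ 2) := Nat.mul_le_mul_right _ h4
        _ = (u * D) ^ (n + 3) := by rw [mul_pow]; ring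
    exact zpa_lt_of_pow (by omega) h5

/-- the numbers `k` and `z` -/
theorem zpa_z {K p D u : ℕ} (hK : 2 ≤ K) (hKu : K ≤ u) (hp : 1 ≤ p)
    (hD : (16 * K * p) ^ 3 * u ≤ D) (hσ : 4 * p ^ 2 * D ≤ u ^ 2)
    (hKD : 2 ^ (K + 3) * (df K * (2 * u ^ 2) ^ K) ≤ D ^ (2 * K - 1)) :
    ∃ k z, 2 ≤ k ∧ k ≤ K ∧ 2 * u ^ 2 ≤ z ∧ 2 ^ (k + 2) * (df k * z ^ k) ≤ D ^ (2 * k - 1) ∧
      D ^ (2 * k - 1) ≤ 2 ^ (k + 4) * (df k * z ^ k) ∧ 4 * k * p * z ≤ u * D := by
  classical
  have hex : ∃ k, 2 ≤ k ∧ 2 ^ (k + 3) * (df k * (2 * u ^ 2) ^ k) ≤ D ^ (2 * k - 1) := ⟨K, hK, hKD⟩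
  obtain ⟨k, ⟨hk2, hk⟩, hmin⟩ : ∃ k, (2 ≤ k ∧
      2 ^ (k + 3) * (df k * (2 * u ^ 2) ^ k) ≤ D ^ (2 * k - 1)) ∧
      ∀ m, m < k → ¬ (2 ≤ m ∧ 2 ^ (m + 3) * (df m * (2 * u ^ 2) ^ m) ≤ D ^ (2 * m - 1)) :=
    ⟨Nat.find hex, Nat.find_spec hex, fun m hm => Nat.find_min hex hm⟩
  have hkK : k ≤ K := by
    by_contra hcon
    exact hmin K (by omega) ⟨hK, hKD⟩
  have huu : u ≤ u ^ 2 := by
    rw [pow_two]
    exact Nat.le_mul_of_pos_left _ (by omega)
  obtain ⟨z, hz1, hz2, hz3⟩ := zsel_root (c := 2 ^ (k + 2) * df k) (k := k)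
    (E := D ^ (2 * k - 1)) (z₀ := 2 * u ^ 2)
    (Nat.mul_pos (Nat.pow_pos (by norm_num : 0 < 2)) (zpa_df_pos k)) (by omega) (by omega) (by
      calc 2 ^ (k + 2) * df k * (2 * u ^ 2) ^ k = 2 ^ (k + 2) * (df k * (2 * u ^ 2) ^ k) := by ring
        _ ≤ 2 ^ (k + 3) * (df k * (2 * u ^ 2) ^ k) :=
          Nat.mul_le_mul_right _ (Nat.pow_le_pow_right (by norm_num) (by omega))
        _ ≤ D ^ (2 * k - 1) := hk)
  have e1 : 2 ^ (k + 2) * df k * z ^ k = 2 ^ (k + 2) * (df k * z ^ k) := by ring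
  rw [e1] at hz2 hz3
  refine ⟨k, z, hk2, hkK, hz1, hz2, ?_, ?_⟩
  · calc D ^ (2 * k - 1) ≤ 2 * (2 ^ (k + 2) * (df k * z ^ k)) := hz3
      _ = 2 ^ (k + 3) * (df k * z ^ k) := by ring
      _ ≤ 2 ^ (k + 4) * (df k * z ^ k) :=
        Nat.mul_le_mul_right _ (Nat.pow_le_pow_right (by norm_num) (by omega))
  · refine zpa_small hkK hk2 hD hσ hp (fun h3 => ?_) hz2
    have h4 := hmin (k - 1) (by omega)
    by_contra hcon
    exact h4 ⟨by omega, by omega⟩

/-! ### the rows of the triangle -/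

theorem zf_succ_le {D κ : ℕ} (h : D + 1 ≤ κ) : Frow D (κ + 1) ≤ Frow D κ := by
  unfold Frow
  have h1 : (κ + 1).choose 2 = κ + κ.choose 2 := by
    rw [Nat.choose_succ_succ' κ 1, Nat.choose_one_right]
  have h2 : (κ + 1) * (D + 1) = κ * (D + 1) + (D + 1) := by ring
  omega

theorem zf_two {D κ : ℕ} (h : κ ≤ D + 2) : 2 * Frow D κ + κ * κ = κ * (2 * D + 3) := by
  unfold Frow
  rcases Nat.eq_zero_or_pos κ with h0 | h0
  · subst h0; simp
  · obtain ⟨n, rfl⟩ : ∃ n, κ = n + 1 := ⟨κ - 1, by omega⟩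
    have h1 := mg_two_choose n
    have h2 : n * (n + 1) ≤ (D + 1) * (n + 1) := Nat.mul_le_mul_right _ (by omega)
    have e1 : (n + 1) * (D + 1) = (D + 1) * (n + 1) := by ring
    have e2 : (n + 1) * (2 * D + 3) = 2 * ((D + 1) * (n + 1)) + (n + 1) := by ring
    have e3 : (n + 1) * (n + 1) = n * (n + 1) + (n + 1) := by ring
    omega

theorem zf_succ {D κ : ℕ} (h : κ ≤ D + 1) : Frow D (κ + 1) = Frow D κ + (D + 1 - κ) := by
  have h1 := zf_two (D := D) (κ := κ) (by omega)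
  have h2 := zf_two (D := D) (κ := κ + 1) (by omega)
  obtain ⟨w, hw⟩ : ∃ w, κ + w = D + 1 := ⟨D + 1 - κ, by omega⟩
  have e1 : (κ + 1) * (κ + 1) = κ * κ + 2 * κ + 1 := by ring
  have e2 : (κ + 1) * (2 * D + 3) = κ * (2 * D + 3) + (2 * D + 3) := by ring
  omega

theorem zf_mono {D m n : ℕ} (h : m ≤ n) (hn : n ≤ D + 2) : Frow D m ≤ Frow D n := by
  induction n, h using Nat.le_induction with
  | base => exact le_rfl
  | succ n hmn ih =>
    have h1 := zf_succ (D := D) (κ := n) (by omega)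
    have h2 := ih (by omega)
    omega

end Pool.Agent.Work.MP_0421d9_ag.LD
end

section
/-!
Selection of the points for the strips of the plane, large multiplicities (helper63, after the
plan of helper69).
-/

namespace Pool.Agent.Work.MP_0421d9_ag.LD

/-- the statement of the cube lemma -/
def CubeMiddle : Prop := ∀ {k D C₀ z : ℕ}, 2 ≤ k → 1000 * k ≤ D → ∀ {x : Fin k → ℕ},
    (∀ j, z ≤ x j ∧ x j ≤ 2 * z) → 64 * k * (C₀ + ∑ j, x j) ≤ D ^ 2 →
    D ^ (2 * k - 1) ≤ 2 ^ (k + 4) * (df k * z ^ k) →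
    2 ^ (k + 2) * (df k * z ^ k) ≤ D ^ (2 * k - 1) →
    ∃ (J : Finset (Fin k)) (κ : ℕ),
      D + 2 ^ (2 * k + 5) * Frow D κ ≤ 2 ^ (2 * k + 5) * (C₀ + ∑ j ∈ J, x j) ∧
      2 ^ (2 * k + 5) * (C₀ + ∑ j ∈ J, x j) + D ≤ 2 ^ (2 * k + 5) * Frow D (κ + 1)

/-- the position of the strip -/
theorem zpa_kappa {D u ω κ G C F : ℕ} (hD : 1000000 * u ≤ D) (hω : 1 ≤ ω)
    (hωu : 4000 * ω ≤ u) (hu2 : 4096 * (u * u) ≤ (ω + 1) * D) (hF : F = Frow D (u + ω))
    (hC1 : F ≤ C) (hC2 : 2 * C ≤ 2 * F + 2 * (u * (u + 1)) + (ω + 1) * D)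
    (h1 : D + G * Frow D κ ≤ G * C) (h2 : G * C + D ≤ G * Frow D (κ + 1)) :
    u + ω ≤ κ ∧ κ ≤ u + 5 * ω := by
  have hD1 : 1 ≤ D := by omega
  have h3 : Frow D κ < C := by
    by_contra hcon
    have := Nat.mul_le_mul_left G (not_lt.mp hcon)
    omega
  have h4 : C < Frow D (κ + 1) := by
    by_contra hcon
    have := Nat.mul_le_mul_left G (not_lt.mp hcon)
    omega
  have hκD : κ ≤ D := by
    by_contra hcon
    have := zf_succ_le (D := D) (κ := κ) (by omega)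
    omega
  constructor
  · by_contra hcon
    have := zf_mono (D := D) (m := κ + 1) (n := u + ω) (by omega) (by omega)
    omega
  · by_contra hcon
    have h5 := zf_mono (D := D) (m := u + 5 * ω) (n := κ) (by omega) (by omega)
    have h6 := zf_two (D := D) (κ := u + 5 * ω) (by omega)
    have h7 := zf_two (D := D) (κ := u + ω) (by omega)
    rw [← hF] at h7
    -- `2 F (u + 5 ω) = 2 F (u + ω) + 4 ω (2 D + 3) - 4 ω (2 u + 6 ω)`
    have e1 : (u + 5 * ω) * (u + 5 * ω) = (u + ω) * (u + ω) + 4 * ω * (2 * u + 6 * ω) := by ring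
    have e2 : (u + 5 * ω) * (2 * D + 3) = (u + ω) * (2 * D + 3) + 4 * ω * (2 * D + 3) := by ring
    have h8 : 4 * ω * (2 * u + 6 * ω) ≤ ω * D := by
      calc 4 * ω * (2 * u + 6 * ω) = ω * (8 * u + 24 * ω) := by ring
        _ ≤ ω * D := Nat.mul_le_mul_left _ (by omega)
    have e3 : 4 * ω * (2 * D + 3) = 8 * (ω * D) + 12 * ω := by ring
    have e4 : (ω + 1) * D = ω * D + D := by ring
    have e5 : 2 * (u * (u + 1)) = 2 * (u * u) + 2 * u := by ring
    have h9 : D ≤ ω * D := Nat.le_mul_of_pos_left _ hω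
    omega

/-- the points of a strip of the plane, large multiplicities -/
theorem zpa_select (hcube : CubeMiddle) {p K D r u : ℕ} (hK : 2 ≤ K) (hKp : K ≤ p)
    (hp : 4000 ≤ p) (hu : 100 * p ^ 2 ≤ u) (hD : (16 * K * p) ^ 3 * u ≤ D)
    (hσ : 4 * p ^ 2 * D ≤ u ^ 2)
    (hKD : 2 ^ (K + 3) * (df K * (2 * u ^ 2) ^ K) ≤ D ^ (2 * K - 1))
    {y : Fin r → ℕ} (P : Finset (Fin r)) (hP : ∀ i ∈ P, y i ≤ u ∧ u ≤ y i + u / p)
    (hPs : 8 * D ≤ ∑ i ∈ P, y i) :
    ∃ (k t κ : ℕ) (e : Fin (2 * t + 1) → Fin r), 2 ≤ k ∧ k ≤ K ∧ Function.Injective e ∧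
      (∀ j, e j ∈ P) ∧ u + u / p ≤ κ ∧ κ ≤ u + 5 * (u / p) ∧
      D + 2 ^ (2 * k + 5) * Frow D κ ≤ 2 ^ (2 * k + 5) * ∑ j, (y (e j) + 1).choose 2 ∧
      2 ^ (2 * k + 5) * ∑ j, (y (e j) + 1).choose 2 + D ≤ 2 ^ (2 * k + 5) * Frow D (κ + 1) := by
  classical
  obtain ⟨ω, hω⟩ : ∃ ω, ω = u / p := ⟨_, rfl⟩
  rw [← hω] at hP ⊢
  have w1 : p * ω ≤ u := by rw [hω]; exact Nat.mul_div_le u p
  have w2 : u < p * ω + p := by
    have := Nat.lt_mul_div_succ u (by omega : 0 < p)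
    rwa [Nat.mul_add, Nat.mul_one, ← hω] at this
  have d1 : 4000 * ω ≤ u := (Nat.mul_le_mul_right _ hp).trans w1
  have hpp : 4000 * p ≤ p ^ 2 := by
    rw [pow_two]; exact Nat.mul_le_mul_right _ hp
  have hu1 : 1600000000 ≤ u := by omega
  have hKu : K ≤ u := by omega
  have hωp : 100 * p ≤ ω := by
    have h1 : p * (100 * p) < p * (ω + 1) := by
      calc p * (100 * p) = 100 * p ^ 2 := by ring
        _ ≤ u := hu
        _ < p * ω + p := w2
        _ = p * (ω + 1) := by ring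
    have := Nat.lt_of_mul_lt_mul_left h1
    omega
  obtain ⟨k, z, hk2, hkK, hz1, hz2, hz3, hz4⟩ := zpa_z hK hKu (by omega) hD hσ hKD
  -- sizes
  have hKp1 : 1 ≤ K * p := Nat.mul_pos (by omega) (by omega)
  have hKp2 : (K * p) * (K * p) ≤ (K * p) * ((K * p) * (K * p)) := Nat.le_mul_of_pos_left _ hKp1
  have hKp3 : K * p ≤ (K * p) * (K * p) := Nat.le_mul_of_pos_left _ hKp1
  have hKpp : p ≤ K * p := Nat.le_mul_of_pos_left _ (by omega)
  have hKpK : K ≤ K * p := Nat.le_mul_of_pos_right _ (by omega)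
  have hpKp : 4000 * (K * p) ≤ (K * p) * (K * p) := Nat.mul_le_mul_right _ (by omega)
  have hcub : (16 * K * p) ^ 3 = 4096 * ((K * p) * ((K * p) * (K * p))) := by ring
  have hDu : 4096 * (p * u) ≤ D := by
    refine le_trans ?_ hD
    rw [hcub]
    calc 4096 * (p * u) = (4096 * p) * u := by ring
      _ ≤ (4096 * ((K * p) * ((K * p) * (K * p)))) * u := Nat.mul_le_mul_right _ (by omega)
  have hDKu : 1000 * (K * u) ≤ D := by
    refine le_trans ?_ hD
    rw [hcub]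
    calc 1000 * (K * u) = (1000 * K) * u := by ring
      _ ≤ (4096 * ((K * p) * ((K * p) * (K * p)))) * u := Nat.mul_le_mul_right _ (by omega)
  have hDu6 : 1000000 * u ≤ D := by
    have : 4000 * u ≤ p * u := Nat.mul_le_mul_right _ hp
    omega
  have hu2 : 4096 * (u * u) ≤ (ω + 1) * D := by
    calc 4096 * (u * u) ≤ 4096 * (u * (p * (ω + 1))) := by
          refine Nat.mul_le_mul_left _ (Nat.mul_le_mul_left _ ?_)
          rw [Nat.mul_add]; omega
      _ = (ω + 1) * (4096 * (p * u)) := by ring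
      _ ≤ (ω + 1) * D := Nat.mul_le_mul_left _ hDu
  have hcu := mg_two_choose u
  have hz5 : 2 * (u + 1).choose 2 ≤ z := by
    have h1 : u * (u + 1) ≤ 2 * u ^ 2 := by
      rw [pow_two]
      have : u * (u + 1) ≤ u * (2 * u) := Nat.mul_le_mul_left _ (by omega)
      have e1 : u * (2 * u) = 2 * (u * u) := by ring
      omega
    omega
  have hz6 : 4 * k * z ≤ (ω + 1) * D := by
    have h1 : p * (4 * k * z) ≤ p * ((ω + 1) * D) := by
      calc p * (4 * k * z) = 4 * k * p * z := by ring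
        _ ≤ u * D := hz4
        _ ≤ (p * (ω + 1)) * D := Nat.mul_le_mul_right _ (by rw [Nat.mul_add]; omega)
        _ = p * ((ω + 1) * D) := by ring
    exact Nat.le_of_mul_le_mul_left h1 (by omega)
  -- the number of conditions of all points
  have hsum : 8 * ((u - ω) * D) ≤ 2 * ∑ i ∈ P, (y i + 1).choose 2 := by
    have h1 : (u - ω) * (∑ i ∈ P, y i) ≤ 2 * ∑ i ∈ P, (y i + 1).choose 2 := by
      rw [Finset.mul_sum, Finset.mul_sum]
      refine Finset.sum_le_sum fun i hi => ?_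
      rw [mg_two_choose, mul_comm (y i)]
      have := hP i hi
      exact Nat.mul_le_mul_right _ (by omega)
    have h2 : (u - ω) * (8 * D) ≤ (u - ω) * (∑ i ∈ P, y i) := Nat.mul_le_mul_left _ hPs
    have e1 : (u - ω) * (8 * D) = 8 * ((u - ω) * D) := by ring
    omega
  obtain ⟨F, hF⟩ : ∃ F, F = Frow D (u + ω) := ⟨_, rfl⟩
  have hF1 : F ≤ (u + ω) * (D + 1) := by
    rw [hF]; unfold Frow; exact Nat.sub_le _ _
  have hF0 : 1 ≤ F := by
    have h1 := zf_two (D := D) (κ := u + ω) (by omega)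
    rw [← hF] at h1
    have h2 : (u + ω) * (u + ω) < (u + ω) * (2 * D + 3) :=
      Nat.mul_lt_mul_of_pos_left (by omega) (by omega)
    omega
  obtain ⟨w, hw⟩ : ∃ w, w = (u + 1).choose 2 := ⟨_, rfl⟩
  rw [← hw] at hcu hz5
  have hwz : k * (z + 2 * w) ≤ 2 * k * z := by
    calc k * (z + 2 * w) ≤ k * (2 * z) := Nat.mul_le_mul_left _ (by omega)
      _ = 2 * k * z := by ring
  have e4k : 4 * k * z = 2 * (2 * k * z) := by ring
  have huu : 2 * w ≤ 2 * (u * u) := by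
    have : u * (u + 1) ≤ u * (2 * u) := Nat.mul_le_mul_left _ (by omega)
    have e1 : u * (2 * u) = 2 * (u * u) := by ring
    omega
  have e5 : (ω + 1) * D = ω * D + D := by ring
  have e6 : (u + ω) * (D + 1) = u * D + ω * D + u + ω := by ring
  have e7 : (u - ω) * D = u * D - ω * D := by rw [Nat.sub_mul]
  have h4000 : 4000 * (ω * D) ≤ u * D := by
    calc 4000 * (ω * D) = (4000 * ω) * D := by ring
      _ ≤ u * D := Nat.mul_le_mul_right _ d1
  have hDω : 400000 * D ≤ ω * D := Nat.mul_le_mul_right _ (by omega)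
  have henough : F + 2 * w + k * (z + 2 * w) ≤ ∑ i ∈ P, (y i + 1).choose 2 := by
    omega
  have hgw : ∀ i ∈ P, (y i + 1).choose 2 ≤ w := fun i hi => by
    rw [hw]
    exact Nat.choose_le_choose 2 (by have := hP i hi; omega)
  obtain ⟨Q, hQP, hQc, -, hQ1, hQ2⟩ := zsel_pick P (fun i => (y i + 1).choose 2)
    (w := w) (A := F) (par := 1) le_rfl hgw (by omega) hF0
  have hsd := Finset.sum_sdiff (f := fun i => (y i + 1).choose 2) hQP
  obtain ⟨X, hX1, hX2, hX3, hX4⟩ := zsel_many (fun i => (y i + 1).choose 2) (w := w) (z := z)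
    (by omega) k (P \ Q) (fun i hi => hgw i (Finset.mem_sdiff.mp hi).1) (by omega)
  obtain ⟨C₀, hC₀⟩ : ∃ C₀, C₀ = ∑ i ∈ Q, (y i + 1).choose 2 := ⟨_, rfl⟩
  rw [← hC₀] at hQ1 hQ2
  have hx : ∀ j, z ≤ ∑ i ∈ X j, (y i + 1).choose 2 ∧ ∑ i ∈ X j, (y i + 1).choose 2 ≤ 2 * z :=
    fun j => ⟨(hX3 j).1, by have := (hX3 j).2; omega⟩
  have hxs : ∑ j, ∑ i ∈ X j, (y i + 1).choose 2 ≤ 2 * k * z := by
    calc ∑ j, ∑ i ∈ X j, (y i + 1).choose 2 ≤ ∑ _j : Fin k, 2 * z :=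
          Finset.sum_le_sum fun j _ => (hx j).2
      _ = 2 * k * z := by
          rw [Finset.sum_const, Finset.card_univ, Fintype.card_fin, smul_eq_mul]; ring
  obtain ⟨J, κ, hJ1, hJ2⟩ := hcube (k := k) (D := D) (C₀ := C₀) (z := z) hk2 (by
      have : 1000 * (K * 1) ≤ 1000 * (K * u) :=
        Nat.mul_le_mul_left _ (Nat.mul_le_mul_left _ (by omega))
      omega)
    (x := fun j => ∑ i ∈ X j, (y i + 1).choose 2) hx (by
      have h1 : C₀ + ∑ j, ∑ i ∈ X j, (y i + 1).choose 2 ≤ 3 * (u * D) := by omega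
      calc 64 * k * (C₀ + ∑ j, ∑ i ∈ X j, (y i + 1).choose 2) ≤ 64 * k * (3 * (u * D)) :=
            Nat.mul_le_mul_left _ h1
        _ ≤ 64 * K * (3 * (u * D)) := by
            refine Nat.mul_le_mul_right _ (Nat.mul_le_mul_left _ hkK)
        _ = (192 * (K * u)) * D := by ring
        _ ≤ D * D := Nat.mul_le_mul_right _ (by omega)
        _ = D ^ 2 := by ring) hz3 hz2
  have hJs : ∑ j ∈ J, ∑ i ∈ X j, (y i + 1).choose 2 ≤ 2 * k * z :=
    (Finset.sum_le_sum_of_subset (Finset.subset_univ J)).trans hxs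
  obtain ⟨S, hSP, hSc, hSs⟩ := zsel_union (fun i => (y i + 1).choose 2) hQP hQc hX1 hX2 hX4 J
  rw [← hC₀] at hSs
  rw [← hSs] at hJ1 hJ2
  obtain ⟨t, ht⟩ : ∃ t, S.card = 2 * t + 1 := ⟨S.card / 2, by omega⟩
  obtain ⟨e, he, heS, hes⟩ := zsel_enum S ht
  have hC := hes (fun i => (y i + 1).choose 2)
  rw [← hC] at hJ1 hJ2 hSs
  obtain ⟨g1, g2⟩ := zpa_kappa hDu6 (by omega) d1 hu2 hF
    (C := ∑ j, (y (e j) + 1).choose 2) (by omega) (by omega) hJ1 hJ2
  exact ⟨k, t, κ, e, hk2, hkK, he, fun j => hSP (heS j), g1, g2, hJ1, hJ2⟩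

end Pool.Agent.Work.MP_0421d9_ag.LD
end

section
/-!
The cube lemma (helper63, after the plan of helper69): iterated differences.
-/

namespace Pool.Agent.Work.MP_0421d9_ag.LD

/-- iterated differences -/
noncomputable def itd (g : ℝ → ℝ) : (k : ℕ) → (Fin k → ℝ) → ℝ → ℝ
  | 0, _, c => g c
  | (k + 1), x, c => itd g k (fun j => x j.succ) (c + x 0) - itd g k (fun j => x j.succ) c

/-- if all values are near integers, the iterated difference is near an integer -/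
theorem itd_near (g : ℝ → ℝ) (δ : ℝ) (k : ℕ) : ∀ (x : Fin k → ℝ) (c : ℝ),
    (∀ J : Finset (Fin k), ∃ n : ℤ, |g (c + ∑ j ∈ J, x j) - n| ≤ δ) →
      ∃ n : ℤ, |itd g k x c - n| ≤ 2 ^ k * δ := by
  induction k with
  | zero =>
    intro x c h
    obtain ⟨n, hn⟩ := h ∅
    refine ⟨n, ?_⟩
    rw [Finset.sum_empty, add_zero] at hn
    simpa [itd] using hn
  | succ k ih =>
    intro x c h
    have hs : ∀ J : Finset (Fin k), ∑ j ∈ J.map (Fin.succEmb k), x j = ∑ j ∈ J, x j.succ := by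
      intro J
      rw [Finset.sum_map]
      rfl
    have h0 : ∀ J : Finset (Fin k), (0 : Fin (k + 1)) ∉ J.map (Fin.succEmb k) := by
      intro J hJ
      obtain ⟨a, -, ha⟩ := Finset.mem_map.mp hJ
      exact Fin.succ_ne_zero a ha
    obtain ⟨n₁, h1⟩ := ih (fun j => x j.succ) (c + x 0) (fun J => by
      obtain ⟨n, hn⟩ := h (insert 0 (J.map (Fin.succEmb k)))
      refine ⟨n, ?_⟩
      rw [Finset.sum_insert (h0 J), hs] at hn
      rwa [add_assoc])
    obtain ⟨n₂, h2⟩ := ih (fun j => x j.succ) c (fun J => by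
      obtain ⟨n, hn⟩ := h (J.map (Fin.succEmb k))
      refine ⟨n, ?_⟩
      rwa [hs] at hn)
    refine ⟨n₁ - n₂, ?_⟩
    have e1 : itd g (k + 1) x c - ((n₁ - n₂ : ℤ) : ℝ) =
        (itd g k (fun j => x j.succ) (c + x 0) - n₁) - (itd g k (fun j => x j.succ) c - n₂) := by
      rw [itd]
      push_cast
      ring
    rw [e1]
    refine (abs_sub _ _).trans ?_
    rw [pow_succ]
    linarith

/-- the iterated difference lies between the bounds for the `k`-th derivative -/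
theorem itd_bounds {a b : ℝ} (k : ℕ) : ∀ (f : ℕ → ℝ → ℝ) (m M : ℝ) (x : Fin k → ℝ) (c : ℝ),
    (∀ n, n < k → ∀ t, t ∈ Set.Icc a b → HasDerivAt (f n) (f (n + 1) t) t) →
    (∀ t, t ∈ Set.Icc a b → m ≤ f k t ∧ f k t ≤ M) → (∀ j, 0 < x j) → a ≤ c →
    c + ∑ j, x j ≤ b → m * ∏ j, x j ≤ itd (f 0) k x c ∧ itd (f 0) k x c ≤ M * ∏ j, x j := by
  induction k with
  | zero =>
    intro f m M x c _ hb _ hac hcb
    have h1 := hb c ⟨hac, by simpa using hcb⟩
    simpa [itd] using h1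
  | succ k ih =>
    intro f m M x c hd hb hx hac hcb
    rw [Fin.sum_univ_succ] at hcb
    rw [Fin.prod_univ_succ]
    -- the derivative of the shorter iterated difference
    have hder : ∀ (k : ℕ) (g g' : ℝ → ℝ) (x : Fin k → ℝ) (c : ℝ),
        (∀ t, t ∈ Set.Icc a b → HasDerivAt g (g' t) t) → (∀ j, 0 < x j) → a ≤ c →
        c + ∑ j, x j ≤ b → HasDerivAt (fun c => itd g k x c) (itd g' k x c) c := by
      intro k
      induction k with
      | zero =>
        intro g g' x c h _ h1 h2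
        exact h c ⟨h1, by simpa using h2⟩
      | succ k ih' =>
        intro g g' x c h hx h1 h2
        rw [Fin.sum_univ_succ] at h2
        have h3 : 0 < x 0 := hx 0
        have i1 := ih' g g' (fun j => x j.succ) (c + x 0) h (fun j => hx _) (by linarith)
          (by linarith)
        have i2 := ih' g g' (fun j => x j.succ) c h (fun j => hx _) h1 (by linarith)
        have i3 := HasDerivAt.comp_add_const c (x 0) i1
        exact i3.sub i2
    have hx0 : 0 < x 0 := hx 0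
    have hxs : ∀ j : Fin k, 0 < (fun j : Fin k => x j.succ) j := fun j => hx _
    have hG : ∀ t ∈ Set.Icc c (c + x 0), HasDerivAt (fun c => itd (f 0) k (fun j => x j.succ) c)
        (itd (f 1) k (fun j => x j.succ) t) t := by
      intro t ht
      refine hder k (f 0) (f 1) _ t (fun s hs => hd 0 (by omega) s hs) hxs (hac.trans ht.1) ?_
      have := ht.2
      linarith
    have hmvt := exists_hasDerivAt_eq_slope (fun c => itd (f 0) k (fun j => x j.succ) c)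
      (fun t => itd (f 1) k (fun j => x j.succ) t) (by linarith : c < c + x 0)
      (fun t ht => (hG t ht).continuousAt.continuousWithinAt)
      (fun t ht => hG t ⟨ht.1.le, ht.2.le⟩)
    obtain ⟨ξ, hξ, hξ2⟩ := hmvt
    have h1 := ih (fun n => f (n + 1)) m M (fun j => x j.succ) ξ
      (fun n hn t ht => hd (n + 1) (by omega) t ht) hb hxs (hac.trans hξ.1.le) (by
        have := hξ.2
        linarith)
    have e1 : itd (f 0) (k + 1) x c = x 0 * itd (f 1) k (fun j => x j.succ) ξ := by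
      have e0 : c + x 0 - c = x 0 := by ring
      rw [itd, hξ2, e0, mul_div_cancel₀ _ hx0.ne']
    rw [e1]
    obtain ⟨h2, h3⟩ := h1
    constructor
    · calc m * (x 0 * ∏ j : Fin k, x j.succ) = x 0 * (m * ∏ j : Fin k, x j.succ) := by ring
        _ ≤ x 0 * itd (f 1) k (fun j => x j.succ) ξ := mul_le_mul_of_nonneg_left h2 hx0.le
    · calc x 0 * itd (f 1) k (fun j => x j.succ) ξ ≤ x 0 * (M * ∏ j : Fin k, x j.succ) :=
          mul_le_mul_of_nonneg_left h3 hx0.le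
        _ = M * (x 0 * ∏ j : Fin k, x j.succ) := by ring

end Pool.Agent.Work.MP_0421d9_ag.LD
end

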