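import Pool.Agent.Work.Z0421M.C01
import Pool.Agent.Work.Z0421M.C02
import Pool.Agent.Work.Z0421M.C04
import Pool.Agent.Work.Z0421M.C12
import Pool.Agent.Work.Z0421M.C14
import Pool.Agent.Work.Z0421M.C21

section
/-!
Affine coordinates: generic points of the plane and polynomials in two variables; rectangles as
plane systems with two additional points.
-/

namespace Pool.Agent.Work.MP_0421d9_ag.LD

open MvPolynomial Module

theorem ztr_cross {ι : Type} {p : ι → V3} (hp : GenericPoints p) {i j : ι} (hij : i ≠ j) :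
    p i 0 * p j 2 - p j 0 * p i 2 ≠ 0 := by
  classical
  intro h1
  have h4 := (algebraicIndependent_iff.mp hp)
    (X (i, 0) * X (j, 2) - X (j, 0) * X (i, 2)) (by
      rw [map_sub, map_mul, map_mul, aeval_X, aeval_X, aeval_X, aeval_X]
      exact h1)
  have h5 := congrArg (eval (fun z : ι × Fin 3 =>
    if z = (i, 0) ∨ z = (j, 2) then (1 : ℚ) else 0)) h4
  rw [map_sub, map_mul, map_mul, eval_X, eval_X, eval_X, eval_X, map_zero] at h5
  have hji : j ≠ i := fun h => hij h.symm
  simp [hji] at h5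

theorem aff_injective {ι : Type} {p : ι → V3} (hp : GenericPoints p) :
    Function.Injective (aff p) := by
  intro i j hij
  by_contra hne
  have h1 := congrFun hij 0
  unfold aff at h1
  simp only [Matrix.cons_val_zero] at h1
  have h2 : p i 2 ≠ 0 := AlgebraicIndependent.ne_zero hp (i, 2)
  have h3 : p j 2 ≠ 0 := AlgebraicIndependent.ne_zero hp (j, 2)
  rw [div_eq_div_iff h2 h3] at h1
  exact ztr_cross hp hne (by rw [h1, sub_self])

theorem derivation_div {Δ : Derivation ℚ ℂ ℂ} {a b : ℂ} (hb : b ≠ 0) (h : Δ b = 0) :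
    Δ (a / b) = Δ a / b := by
  have h1 : Δ (a / b * b) = Δ a := by rw [div_mul_cancel₀ _ hb]
  rw [Derivation.leibniz, h, smul_zero, zero_add, smul_eq_mul] at h1
  rw [eq_div_iff hb, mul_comm]
  exact h1

theorem aff_movable {ι : Type} {p : ι → V3} (hp : GenericPoints p) : Movable (aff p) := by
  classical
  intro i v
  have hz : ∀ j, p j 2 ≠ 0 := fun j => AlgebraicIndependent.ne_zero hp (j, 2)
  obtain ⟨Δ, hΔ⟩ := exists_derivation (fun z : ι × Fin 3 => p z.1 z.2) hp
    (fun z => if z.1 = i then (![v 0 * p i 2, v 1 * p i 2, 0] : Fin 3 → ℂ) z.2 else 0)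
  have h2 : ∀ j, Δ (p j 2) = 0 := by
    intro j
    have h := hΔ (j, 2)
    simpa using h
  refine ⟨Δ, fun j hj l => ?_, fun l => ?_⟩
  · have h : ∀ k, Δ (p j k) = 0 := by
      intro k
      have h := hΔ (j, k)
      simpa [hj] using h
    unfold aff
    fin_cases l
    · change Δ (p j 0 / p j 2) = 0
      rw [derivation_div (hz j) (h2 j), h, zero_div]
    · change Δ (p j 1 / p j 2) = 0
      rw [derivation_div (hz j) (h2 j), h, zero_div]
  · unfold aff
    fin_cases l
    · change Δ (p i 0 / p i 2) = v 0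
      have h := hΔ (i, 0)
      have h' : Δ (p i 0) = v 0 * p i 2 := by simpa using h
      rw [derivation_div (hz i) (h2 i), h', mul_div_cancel_right₀ _ (hz i)]
    · change Δ (p i 1 / p i 2) = v 1
      have h := hΔ (i, 1)
      have h' : Δ (p i 1) = v 1 * p i 2 := by simpa using h
      rw [derivation_div (hz i) (h2 i), h', mul_div_cancel_right₀ _ (hz i)]

/-! ### dehomogenisation -/

/-- the polynomial `F (x, y, 1)` -/
noncomputable def dh : R3 →ₐ[ℂ] P2 := aeval ![X 0, X 1, 1]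

/-- the polynomial `f (c x, c y)` -/
noncomputable def zscl (c : ℂ) : P2 →ₐ[ℂ] P2 := aeval fun l => C c * X l

theorem coeff_zscl (c : ℂ) (f : P2) (β : Fin 2 →₀ ℕ) :
    coeff β (zscl c f) = c ^ β.degree * coeff β f := by
  classical
  induction f using MvPolynomial.induction_on' with
  | add p q hp hq => rw [map_add, coeff_add, coeff_add, hp, hq, mul_add]
  | monomial γ a =>
    have h1 : zscl c (monomial γ a) = monomial γ (c ^ γ.degree * a) := by
      unfold zscl
      rw [aeval_monomial, Finsupp.prod_fintype _ _ (fun i => pow_zero _)]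
      simp only [mul_pow, Finset.prod_mul_distrib, Finset.prod_pow_eq_pow_sum]
      rw [algebraMap_eq, monomial_eq (s := γ), Finsupp.prod_fintype _ _ (fun i => pow_zero _),
        Finsupp.degree_eq_sum, C_mul, C_pow]
      ring
    rw [h1, coeff_monomial, coeff_monomial]
    split_ifs with h
    · rw [h]
    · rw [mul_zero]

theorem zscl_loc {D : ℕ} {F : R3} (hF : F.IsHomogeneous D) {a : V3} (ha : a 2 ≠ 0) :
    zscl (a 2) (loc a F) = C (a 2) ^ D * sh ![a 0 / a 2, a 1 / a 2] (dh F) := by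
  unfold loc sh dh
  rw [comp_aeval_apply, comp_aeval_apply, ← aeval_smul_homogeneous hF]
  congr 2
  funext k
  unfold zscl
  fin_cases k
  · change aeval (fun l => C (a 2) * X l : Fin 2 → P2) (C (a 0) + X 0) =
      C (a 2) * aeval _ (X 0)
    rw [map_add, algHom_C, aeval_X, aeval_X, algebraMap_eq]
    change C (a 0) + C (a 2) * X 0 = C (a 2) * (C (a 0 / a 2) + X 0)
    rw [mul_add, ← C_mul, mul_div_cancel₀ _ ha]
  · change aeval (fun l => C (a 2) * X l : Fin 2 → P2) (C (a 1) + X 1) =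
      C (a 2) * aeval _ (X 1)
    rw [map_add, algHom_C, aeval_X, aeval_X, algebraMap_eq]
    change C (a 1) + C (a 2) * X 1 = C (a 2) * (C (a 1 / a 2) + X 1)
    rw [mul_add, ← C_mul, mul_div_cancel₀ _ ha]
  · change aeval (fun l => C (a 2) * X l : Fin 2 → P2) (C (a 2)) = C (a 2) * aeval _ 1
    rw [algHom_C, map_one, mul_one, algebraMap_eq]

theorem coeff_sh_dh {D : ℕ} {F : R3} (hF : F.IsHomogeneous D) {a : V3} (ha : a 2 ≠ 0)
    (β : Fin 2 →₀ ℕ) : a 2 ^ β.degree * coeff β (loc a F) =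
      a 2 ^ D * coeff β (sh ![a 0 / a 2, a 1 / a 2] (dh F)) := by
  rw [← coeff_zscl, zscl_loc hF ha, ← C_pow, coeff_C_mul]

theorem vq_dh_iff {D m : ℕ} {F : R3} (hF : F.IsHomogeneous D) {a : V3} (ha : a 2 ≠ 0) :
    Vq ![a 0 / a 2, a 1 / a 2] (dh F) m ↔ VanishTo F a m := by
  constructor
  · intro h
    refine vanishTo_of_van2 hF ha fun β hβ => ?_
    have h1 := coeff_sh_dh hF ha β
    rw [h β hβ, mul_zero] at h1
    exact (mul_eq_zero.mp h1).resolve_left (pow_ne_zero _ ha)
  · intro h β hβ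
    have h1 := coeff_sh_dh hF ha β
    rw [van2_of_vanishTo h β hβ, mul_zero] at h1
    exact (mul_eq_zero.mp h1.symm).resolve_left (pow_ne_zero _ ha)

theorem dh_monomial (α : Fin 3 →₀ ℕ) (c : ℂ) :
    dh (monomial α c) = C c * (X 0 ^ α 0 * X 1 ^ α 1) := by
  unfold dh
  rw [aeval_monomial, Finsupp.prod_fintype _ _ (fun i => pow_zero _), Fin.prod_univ_three,
    algebraMap_eq]
  change C c * (X 0 ^ α 0 * X 1 ^ α 1 * 1 ^ α 2) = _
  rw [one_pow, mul_one]

theorem totalDegree_dh_le {D : ℕ} {F : R3} (hF : F.IsHomogeneous D) :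
    (dh F).totalDegree ≤ D := by
  rw [F.as_sum, map_sum]
  refine totalDegree_finsetSum_le fun α hα => ?_
  rw [dh_monomial]
  have h1 := degree_of_mem_support hF (MvPolynomial.mem_support_iff.mp hα)
  rw [Finsupp.degree_eq_sum, Fin.sum_univ_three] at h1
  refine (totalDegree_mul _ _).trans ?_
  rw [totalDegree_C, zero_add]
  refine (totalDegree_mul _ _).trans ?_
  have h2 := totalDegree_pow (X 0 : P2) (α 0)
  have h3 := totalDegree_pow (X 1 : P2) (α 1)
  rw [totalDegree_X, mul_one] at h2 h3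
  omega

theorem eval_dh (x : Fin 2 → ℂ) (G : R3) : eval x (dh G) = eval ![x 0, x 1, 1] G := by
  unfold dh
  induction G using MvPolynomial.induction_on with
  | C c => rw [algHom_C, algebraMap_eq, eval_C, eval_C]
  | add p q hp hq => rw [map_add, map_add, map_add, hp, hq]
  | mul_X p n hp =>
    rw [map_mul, map_mul, map_mul, hp, aeval_X, eval_X]
    congr 1
    fin_cases n <;> simp

theorem dh_injective {D : ℕ} {F : R3} (hF : F.IsHomogeneous D) (h : dh F = 0) : F = 0 := by
  have h1 : F * X 2 = 0 := by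
    apply MvPolynomial.funext
    intro y
    rw [map_zero, map_mul, eval_X]
    by_cases hy : y 2 = 0
    · rw [hy, mul_zero]
    · have h2 := eval_smul_of_homogeneous hF (y 2) ![y 0 / y 2, y 1 / y 2, 1]
      have h3 : y 2 • (![y 0 / y 2, y 1 / y 2, 1] : V3) = y := by
        funext k
        fin_cases k
        · change y 2 * (y 0 / y 2) = y 0
          rw [mul_div_cancel₀ _ hy]
        · change y 2 * (y 1 / y 2) = y 1
          rw [mul_div_cancel₀ _ hy]
        · change y 2 * 1 = y 2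
          rw [mul_one]
      have h4 := eval_dh ![y 0 / y 2, y 1 / y 2] F
      rw [h, map_zero] at h4
      have h5 : eval ![y 0 / y 2, y 1 / y 2, 1] F = 0 := by
        rw [h4]
        rfl
      rw [h3, h5, mul_zero] at h2
      rw [h2, zero_mul]
  exact (mul_eq_zero.mp h1).resolve_right (X_ne_zero 2)

/-- homogenisation -/
noncomputable def hgn (D : ℕ) (f : P2) : R3 :=
  ∑ β ∈ f.support,
    monomial (Finsupp.equivFunOnFinite.symm ![β 0, β 1, D - β.degree]) (coeff β f)

theorem hgn_isHomogeneous {D : ℕ} {f : P2} (hf : f.totalDegree ≤ D) :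
    (hgn D f).IsHomogeneous D := by
  unfold hgn
  apply IsHomogeneous.sum
  intro β hβ
  apply isHomogeneous_monomial
  have h1 : β.degree ≤ D := by
    refine le_trans ?_ hf
    have h2 := le_totalDegree hβ
    rw [Finsupp.degree_eq_sum]
    rw [Finsupp.sum_fintype _ _ (fun _ => rfl)] at h2
    exact h2
  rw [Finsupp.degree_eq_sum, Fin.sum_univ_three]
  change β 0 + β 1 + (D - β.degree) = D
  rw [Finsupp.degree_eq_sum, Fin.sum_univ_two] at *
  omega

theorem dh_hgn (D : ℕ) (f : P2) : dh (hgn D f) = f := by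
  unfold hgn
  rw [map_sum]
  conv_rhs => rw [f.as_sum]
  refine Finset.sum_congr rfl fun β _ => ?_
  rw [dh_monomial, monomial_eq (s := β), Finsupp.prod_fintype _ _ (fun i => pow_zero _),
    Fin.prod_univ_two]
  rfl

theorem finrank_aff {ι : Type} [Fintype ι] {p : ι → V3} (hp : GenericPoints p) (D : ℕ)
    (m : ι → ℕ) : finrank ℂ (linSys D p m) = finrank ℂ (VD D (aff p) m) := by
  have hz : ∀ j, p j 2 ≠ 0 := fun j => AlgebraicIndependent.ne_zero hp (j, 2)
  have h1 : ∀ F ∈ linSys D p m, dh.toLinearMap F ∈ VD D (aff p) m := by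
    intro F hF
    exact ⟨totalDegree_dh_le hF.1, fun i => (vq_dh_iff hF.1 (hz i)).mpr (hF.2 i)⟩
  refine LinearEquiv.finrank_eq (LinearEquiv.ofBijective (dh.toLinearMap.restrict h1) ⟨?_, ?_⟩)
  · rw [← LinearMap.ker_eq_bot, Submodule.eq_bot_iff]
    intro F hF
    apply Subtype.ext
    have h2 : dh F.1 = 0 := congrArg Subtype.val hF
    exact dh_injective F.2.1 h2
  · rintro ⟨f, hf1, hf2⟩
    have h2 := hgn_isHomogeneous hf1
    refine ⟨⟨hgn D f, h2, fun i => (vq_dh_iff h2 (hz i)).mp ?_⟩, ?_⟩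
    · rw [dh_hgn]
      exact hf2 i
    · apply Subtype.ext
      exact dh_hgn D f

/-! ### rectangles -/

theorem linSys_cons2_le_m {a b r : ℕ} {k : Fin r → ℕ} {p : Fin (r + 2) → V3}
    (hp : GenericPoints p) :
    finrank ℂ (linSys (a + b) p (Fin.cons a (Fin.cons b k))) ≤ hRm (a + 1) (b + 1) k := by
  refine (generic_le hp (a + b) _
    (Fin.cons (Pi.single 0 1) (Fin.cons (Pi.single 2 1) (gpt r)))).trans ?_
  have hab : a + 1 + (b + 1) - 2 = a + b := by omega
  unfold hRm hTm
  rw [hab]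
  refine Submodule.finrank_mono ?_
  intro F hF
  obtain ⟨h1, h2⟩ := hF
  rw [mem_TSm]
  refine ⟨h1, fun i => ?_, fun α hα => ?_⟩
  · have := h2 i.succ.succ
    rwa [Fin.cons_succ, Fin.cons_succ, Fin.cons_succ, Fin.cons_succ] at this
  · have h3 := h2 0
    rw [Fin.cons_zero, Fin.cons_zero] at h3
    have h4 := exp_le_of_vanishTo h1 h3 hα
    have h5 := h2 (Fin.succ 0)
    rw [Fin.cons_succ, Fin.cons_succ, Fin.cons_zero, Fin.cons_zero] at h5
    have h6 := exp_le_of_vanishTo h1 h5 hα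
    change α 2 < a + 1 ∧ α 0 < b + 1
    omega

theorem hRm_le_plane {a b r : ℕ} (k : Fin r → ℕ) :
    hRm (a + 1) (b + 1) k ≤ hPm (a + b) (Fin.cons a (Fin.cons b k) : Fin (r + 2) → ℕ) := by
  have hab : a + 1 + (b + 1) - 2 = a + b := by omega
  have h0 : hRm (a + 1) (b + 1) k =
      hTm (a + b) (rect (a + 1) (b + 1)) (Fin.cons 0 (Fin.cons 0 k) : Fin (r + 2) → ℕ) := by
    unfold hRm
    rw [hab]
    refine (hTm_comp_eq (k := (Fin.cons 0 (Fin.cons 0 k) : Fin (r + 2) → ℕ))
      (e := fun i : Fin r => i.succ.succ) (fun i j h => Fin.succ_injective _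
        (Fin.succ_injective _ h)) (fun i hi => ?_)).symm
    refine Fin.cases ?_ (fun i => Fin.cases ?_ (fun i => ?_) i) i hi
    · intro _
      rfl
    · intro _
      rfl
    · intro hi
      exact absurd ⟨i, rfl⟩ hi
  rw [h0]
  have hp := gpt_generic (r + 2)
  have hne : (0 : Fin (r + 2)) ≠ Fin.succ 0 := (Fin.succ_ne_zero 0).symm
  have hg := ztr_cross hp hne
  have hdet : (colM (gpt (r + 2) 0) e1 (gpt (r + 2) (Fin.succ 0))).det ≠ 0 := by
    rw [colM_det]
    intro h
    apply hg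
    rw [← h]
    unfold det3
    simp only [e1]
    simp
    ring
  have hU : IsUnit (colM (gpt (r + 2) 0) e1 (gpt (r + 2) (Fin.succ 0))).det :=
    isUnit_iff_ne_zero.mpr hdet
  refine hTm_le_of_move (M := (colM (gpt (r + 2) 0) e1 (gpt (r + 2) (Fin.succ 0)))⁻¹)
    (M' := colM (gpt (r + 2) 0) e1 (gpt (r + 2) (Fin.succ 0)))
    (Matrix.nonsing_inv_mul _ hU) (Matrix.mul_nonsing_inv _ hU) (fun i => ?_)
  refine Fin.cases ?_ (fun i => Fin.cases ?_ (fun i => ?_) i) i
  · right
    refine ⟨0, ?_, fun α hα hd => ?_⟩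
    · rw [colM_mulVec]
      funext k
      simp
    · rw [Fin.cons_zero]
      obtain ⟨h1, h2⟩ := hα
      rw [degree_three] at hd
      omega
  · right
    refine ⟨2, ?_, fun α hα hd => ?_⟩
    · rw [colM_mulVec]
      funext k
      simp
    · rw [Fin.cons_succ, Fin.cons_zero]
      obtain ⟨h1, h2⟩ := hα
      rw [degree_three] at hd
      omega
  · left
    rfl

/-- rectangles as plane systems with two additional points -/
theorem hRm_eq_plane {N H L : ℕ} (k : Fin N → ℕ) (hH : 1 ≤ H) (hL : 1 ≤ L) :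
    hRm H L k = hPm (H + L - 2) (Fin.cons (H - 1) (Fin.cons (L - 1) k) : Fin (N + 2) → ℕ) := by
  obtain ⟨a, rfl⟩ : ∃ a, H = a + 1 := ⟨H - 1, by omega⟩
  obtain ⟨b, rfl⟩ : ∃ b, L = b + 1 := ⟨L - 1, by omega⟩
  have e1 : a + 1 + (b + 1) - 2 = a + b := by omega
  rw [e1, Nat.add_sub_cancel, Nat.add_sub_cancel]
  refine le_antisymm (hRm_le_plane k) ?_
  rw [← hPm_eq (gpt_generic (N + 2))]
  exact linSys_cons2_le_m (gpt_generic (N + 2))

end Pool.Agent.Work.MP_0421d9_ag.LD
end

section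
/-!
One arbitrary multiplicity: inequalities for the leaves of the path.
-/

namespace Pool.Agent.Work.MP_0421d9_ag.LD

theorem leaf_numQ1 {TP J G c D m₀ t S₀ Y : ℕ} (hTP : 1 ≤ TP) (hG : 1 ≤ G) (hJ : 1 ≤ J)
    (hc : 1 ≤ c) (hDt : D = m₀ + t) (hD1 : 10 ^ 6 * J * G * c ≤ t) (hY : Y ≤ J * (8 * D))
    (h1 : D * t ≤ 27 * (c * S₀)) (h2 : 10 ^ 6 * G * c ^ 3 ≤ TP * (D * t)) :
    G * (TP * (100 * Y + 100 * D)) + 50 * (G * (c + 1) ^ 2) + TP * Y < TP * S₀ := by
  have g1 : 10 ^ 6 * (J * G * D) ≤ 27 * S₀ := by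
    have h3 : c * (10 ^ 6 * (J * G * D)) ≤ c * (27 * S₀) := by
      calc c * (10 ^ 6 * (J * G * D)) = D * (10 ^ 6 * J * G * c) := by ring
        _ ≤ D * t := Nat.mul_le_mul_left _ hD1
        _ ≤ 27 * (c * S₀) := h1
        _ = c * (27 * S₀) := by ring
    exact Nat.le_of_mul_le_mul_left h3 hc
  have g2 : 10 ^ 6 * (G * c ^ 2) ≤ 27 * (TP * S₀) := by
    have h3 : c * (10 ^ 6 * (G * c ^ 2)) ≤ c * (27 * (TP * S₀)) := by
      calc c * (10 ^ 6 * (G * c ^ 2)) = 10 ^ 6 * G * c ^ 3 := by ring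
        _ ≤ TP * (D * t) := h2
        _ ≤ TP * (27 * (c * S₀)) := Nat.mul_le_mul_left _ h1
        _ = c * (27 * (TP * S₀)) := by ring
    exact Nat.le_of_mul_le_mul_left h3 hc
  have g3 : 10 ^ 6 * (TP * (J * G * D)) ≤ 27 * (TP * S₀) := by
    calc 10 ^ 6 * (TP * (J * G * D)) = TP * (10 ^ 6 * (J * G * D)) := by ring
      _ ≤ TP * (27 * S₀) := Nat.mul_le_mul_left _ g1
      _ = 27 * (TP * S₀) := by ring
  have hD0 : 1 ≤ D := by
    have : 1 ≤ 10 ^ 6 * J * G * c := by
      have h3 : 1 ≤ J * G * c := Nat.mul_pos (Nat.mul_pos hJ hG) hc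
      nlinarith
    omega
  have hJD : D ≤ J * D := Nat.le_mul_of_pos_left _ hJ
  have k1 : G * (TP * (100 * Y + 100 * D)) ≤ 900 * (TP * (J * G * D)) := by
    have h3 : 100 * Y + 100 * D ≤ 900 * (J * D) := by
      have h5 : J * (8 * D) = 8 * (J * D) := by ring
      omega
    calc G * (TP * (100 * Y + 100 * D)) ≤ G * (TP * (900 * (J * D))) :=
          Nat.mul_le_mul_left _ (Nat.mul_le_mul_left _ h3)
      _ = 900 * (TP * (J * G * D)) := by ring
  have k2 : TP * Y ≤ 8 * (TP * (J * G * D)) := by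
    have h3 : Y ≤ 8 * (J * G * D) := by
      have h4 : J * D ≤ J * G * D := Nat.mul_le_mul_right _ (Nat.le_mul_of_pos_right _ hG)
      have h5 : J * (8 * D) = 8 * (J * D) := by ring
      omega
    calc TP * Y ≤ TP * (8 * (J * G * D)) := Nat.mul_le_mul_left _ h3
      _ = 8 * (TP * (J * G * D)) := by ring
  have k3 : 50 * (G * (c + 1) ^ 2) ≤ 200 * (G * c ^ 2) := by
    have h3 : (c + 1) ^ 2 ≤ 4 * c ^ 2 := by nlinarith
    calc 50 * (G * (c + 1) ^ 2) ≤ 50 * (G * (4 * c ^ 2)) :=
          Nat.mul_le_mul_left _ (Nat.mul_le_mul_left _ h3)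
      _ = 200 * (G * c ^ 2) := by ring
  have k4 : 1 ≤ TP * (J * G * D) := Nat.mul_pos hTP (Nat.mul_pos (Nat.mul_pos hJ hG) hD0)
  omega

theorem leaf_numQ3 {TP J G X c D m₀ t t' S₀ Y Q v : ℕ} (hTP : 1 ≤ TP) (hG : 1 ≤ G)
    (hJ : 1 ≤ J) (hc : 1 ≤ c) (hX : 10 ^ 4 * G ≤ X) (hDt : D = m₀ + t)
    (hD1 : 10 ^ 6 * J * G * c ≤ t) (hDX : X * t' < t) (hv : 1 ≤ v) (hvc : v ≤ c)
    (hY : v * Y ≤ 2 * v * (J * (8 * D)) + Q)
    (hQ : TP * (m₀ ^ 2 + Q) ≤ TP * (m₀ + t') ^ 2 + 6 * c ^ 2)
    (hS : D * t + 12 * (v * Y) ≤ 12 * (v * S₀)) (hV : 10 ^ 6 * G * c ^ 3 ≤ TP * (D * t)) :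
    G * (TP * (100 * Y + 100 * D)) + 50 * (G * (c + 1) ^ 2) + TP * Y < TP * S₀ := by
  have ht0 : 1 ≤ t := by omega
  have hD0 : 1 ≤ D := by omega
  have hvD : 10 ^ 6 * (v * (J * G * D)) ≤ D * t := by
    calc 10 ^ 6 * (v * (J * G * D)) ≤ 10 ^ 6 * (c * (J * G * D)) :=
          Nat.mul_le_mul_left _ (Nat.mul_le_mul_right _ hvc)
      _ = D * (10 ^ 6 * J * G * c) := by ring
      _ ≤ D * t := Nat.mul_le_mul_left _ hD1
  have hQ2 : TP * Q ≤ TP * (2 * (D * t')) + 6 * c ^ 2 := by
    have ht' : t' ≤ t := by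
      have : t' ≤ X * t' := Nat.le_mul_of_pos_left _ (by omega)
      omega
    have h1 : (m₀ + t') ^ 2 ≤ m₀ ^ 2 + 2 * (D * t') := by
      rw [hDt]
      nlinarith
    have h2 : TP * (m₀ + t') ^ 2 ≤ TP * (m₀ ^ 2 + 2 * (D * t')) := Nat.mul_le_mul_left _ h1
    have e1 : TP * (m₀ ^ 2 + 2 * (D * t')) = TP * m₀ ^ 2 + TP * (2 * (D * t')) := by ring
    have e2 : TP * (m₀ ^ 2 + Q) = TP * m₀ ^ 2 + TP * Q := by ring
    rw [e1] at h2
    rw [e2] at hQ
    omega
  have hG2 : 10 ^ 4 * (G * (D * t')) ≤ D * t := by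
    calc 10 ^ 4 * (G * (D * t')) = D * (10 ^ 4 * G * t') := by ring
      _ ≤ D * (X * t') := Nat.mul_le_mul_left _ (Nat.mul_le_mul_right _ hX)
      _ ≤ D * t := Nat.mul_le_mul_left _ hDX.le
  -- everything multiplied by `12 v`
  have main : 12 * v * (G * (TP * (100 * Y + 100 * D)) + 50 * (G * (c + 1) ^ 2) + TP * Y) <
      12 * v * (TP * S₀) := by
    have k1 : 1200 * (G * TP * (v * Y)) ≤
        19200 * (TP * (v * (J * G * D))) + 2400 * (TP * (G * (D * t'))) +
          7200 * (G * c ^ 2) := by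
      have h1 : TP * (v * Y) ≤ TP * (2 * v * (J * (8 * D))) +
          (TP * (2 * (D * t')) + 6 * c ^ 2) := by
        calc TP * (v * Y) ≤ TP * (2 * v * (J * (8 * D)) + Q) := Nat.mul_le_mul_left _ hY
          _ = TP * (2 * v * (J * (8 * D))) + TP * Q := by ring
          _ ≤ _ := Nat.add_le_add_left hQ2 _
      calc 1200 * (G * TP * (v * Y)) = 1200 * G * (TP * (v * Y)) := by ring
        _ ≤ 1200 * G * (TP * (2 * v * (J * (8 * D))) + (TP * (2 * (D * t')) + 6 * c ^ 2)) :=
            Nat.mul_le_mul_left _ h1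
        _ = _ := by ring
    have k2 : 12 * v * (G * (TP * (100 * D))) ≤ 1200 * (TP * (v * (J * G * D))) := by
      have h3 : 100 * D ≤ 100 * (J * D) :=
        Nat.mul_le_mul_left _ (Nat.le_mul_of_pos_left _ hJ)
      calc 12 * v * (G * (TP * (100 * D))) ≤ 12 * v * (G * (TP * (100 * (J * D)))) :=
            Nat.mul_le_mul_left _ (Nat.mul_le_mul_left _ (Nat.mul_le_mul_left _ h3))
        _ = 1200 * (TP * (v * (J * G * D))) := by ring
    have k3 : 10 ^ 6 * (TP * (v * (J * G * D))) ≤ TP * (D * t) := by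
      calc 10 ^ 6 * (TP * (v * (J * G * D))) = TP * (10 ^ 6 * (v * (J * G * D))) := by ring
        _ ≤ TP * (D * t) := Nat.mul_le_mul_left _ hvD
    have k4 : 10 ^ 4 * (TP * (G * (D * t'))) ≤ TP * (D * t) := by
      calc 10 ^ 4 * (TP * (G * (D * t'))) = TP * (10 ^ 4 * (G * (D * t'))) := by ring
        _ ≤ TP * (D * t) := Nat.mul_le_mul_left _ hG2
    have k5 : TP * (D * t) + 12 * (v * (TP * Y)) ≤ 12 * (v * (TP * S₀)) := by
      calc TP * (D * t) + 12 * (v * (TP * Y)) = TP * (D * t + 12 * (v * Y)) := by ring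
        _ ≤ TP * (12 * (v * S₀)) := Nat.mul_le_mul_left _ hS
        _ = 12 * (v * (TP * S₀)) := by ring
    have k6 : 1 ≤ TP * (D * t) := Nat.mul_pos hTP (Nat.mul_pos hD0 ht0)
    have k7 : 7200 * (G * c ^ 2) + 600 * (v * (G * (c + 1) ^ 2)) ≤ TP * (D * t) / 2 := by
      have h1 : v * (G * (c + 1) ^ 2) ≤ 4 * (G * c ^ 3) := by
        have h3 : (c + 1) ^ 2 ≤ 4 * c ^ 2 := by nlinarith
        calc v * (G * (c + 1) ^ 2) ≤ c * (G * (4 * c ^ 2)) :=
              Nat.mul_le_mul hvc (Nat.mul_le_mul_left _ h3)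
          _ = 4 * (G * c ^ 3) := by ring
      have h2 : G * c ^ 2 ≤ G * c ^ 3 := Nat.mul_le_mul_left _
        (Nat.pow_le_pow_right hc (by norm_num))
      have h3 : 10 ^ 6 * (G * c ^ 3) ≤ TP * (D * t) := by
        calc 10 ^ 6 * (G * c ^ 3) = 10 ^ 6 * G * c ^ 3 := by ring
          _ ≤ _ := hV
      omega
    have e1 : 12 * v * (G * (TP * (100 * Y + 100 * D)) + 50 * (G * (c + 1) ^ 2) + TP * Y) =
        1200 * (G * TP * (v * Y)) + 12 * v * (G * (TP * (100 * D))) +
          600 * (v * (G * (c + 1) ^ 2)) + 12 * (v * (TP * Y)) := by ring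
    have e2 : 12 * v * (TP * S₀) = 12 * (v * (TP * S₀)) := by ring
    rw [e1, e2]
    omega
  exact Nat.lt_of_mul_lt_mul_left main

/-- the area of the rows which were removed -/
theorem leaf_area {X D m₀ t t' S₀ Y v cm cy : ℕ} (hDt : D = m₀ + t) (hX : 10000 ≤ X)
    (hDX : X * t' < t) (ht : 400000 ≤ t) (hv : 1 ≤ v) (hYS : Y ≤ S₀)
    (h4 : (D + 2).choose 2 + 2 * cy ≤ 2 * cm + (m₀ + t' + 2).choose 2)
    (hup : 2 * cm + (2 * v + 1) * Y ≤ 2 * cy + (2 * v + 1) * S₀) :
    D * t + 12 * (v * Y) ≤ 12 * (v * S₀) := by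
  have h6 := two_choose (D + 1)
  have h7 := two_choose (m₀ + t' + 1)
  have e1 : D + 1 + 1 = D + 2 := rfl
  have e2 : m₀ + t' + 1 + 1 = m₀ + t' + 2 := rfl
  rw [e1] at h6
  rw [e2] at h7
  have h8 : 10000 * t' ≤ t := by
    have : 10000 * t' ≤ X * t' := Nat.mul_le_mul_right _ hX
    omega
  have h9 : (m₀ + t' + 1) ^ 2 + (m₀ + t' + 1) + D * t ≤
      (D + 1) ^ 2 + (D + 1) + (m₀ + t' + 1) * t' := by
    rw [hDt]
    obtain ⟨w, hw⟩ : ∃ w, t = t' + w := ⟨t - t', by omega⟩
    rw [hw]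
    nlinarith [Nat.zero_le (m₀ * w), Nat.zero_le (t' * w), Nat.zero_le w]
  have h10 : 2 * ((m₀ + t' + 1) * t') ≤ D * t := by
    have h11 : m₀ + t' + 1 ≤ D := by omega
    calc 2 * ((m₀ + t' + 1) * t') ≤ 2 * (D * t') :=
          Nat.mul_le_mul_left _ (Nat.mul_le_mul_right _ h11)
      _ = D * (2 * t') := by ring
      _ ≤ D * t := Nat.mul_le_mul_left _ (by omega)
  have h11 : D * t + 4 * ((2 * v + 1) * Y) ≤ 4 * ((2 * v + 1) * S₀) := by omega
  have h12 : D * t ≤ 4 * ((2 * v + 1) * (S₀ - Y)) := by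
    rw [Nat.mul_sub, Nat.mul_sub]
    omega
  have h13 : 4 * ((2 * v + 1) * (S₀ - Y)) ≤ 12 * (v * (S₀ - Y)) := by
    have h14 : 2 * v + 1 ≤ 3 * v := by omega
    calc 4 * ((2 * v + 1) * (S₀ - Y)) ≤ 4 * (3 * v * (S₀ - Y)) :=
          Nat.mul_le_mul_left _ (Nat.mul_le_mul_right _ h14)
      _ = 12 * (v * (S₀ - Y)) := by ring
  have h14 := h12.trans h13
  have h15 : v * Y ≤ v * S₀ := Nat.mul_le_mul_left _ hYS
  rw [Nat.mul_sub, Nat.mul_sub] at h14
  omega

end Pool.Agent.Work.MP_0421d9_ag.LD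
end

section
/-!
Points on a cuspidal cubic.
-/

namespace Pool.Agent.Work.MP_0421d9_ag.LD

open MvPolynomial Module

/-- the equation of a cuspidal cubic -/
noncomputable def cub : R3 := X 1 ^ 3 - X 0 * X 2 ^ 2

/-- a point of the cubic -/
def cpt (t : ℂ) : V3 := ![1, t ^ 2, t ^ 3]

/-- restriction to the cubic -/
noncomputable def par : R3 →ₐ[ℂ] Polynomial ℂ :=
  aeval ![1, Polynomial.X ^ 2, Polynomial.X ^ 3]

/-- the weight of an exponent -/
def kw (α : Fin 3 →₀ ℕ) : ℕ := 2 * α 1 + 3 * α 2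

theorem par_monomial (α : Fin 3 →₀ ℕ) (c : ℂ) :
    par (monomial α c) = Polynomial.C c * Polynomial.X ^ kw α := by
  unfold par kw
  rw [aeval_monomial, Finsupp.prod_fintype _ _ (fun i => pow_zero _), Fin.prod_univ_three]
  change Polynomial.C c * ((1 : Polynomial ℂ) ^ α 0 * (Polynomial.X ^ 2) ^ α 1 *
    (Polynomial.X ^ 3) ^ α 2) = _
  rw [one_pow, one_mul, ← pow_mul, ← pow_mul, ← pow_add]

theorem par_eq (F : R3) : par F =
    ∑ α ∈ F.support, Polynomial.C (coeff α F) * Polynomial.X ^ kw α := by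
  conv_lhs => rw [F.as_sum]
  rw [map_sum]
  exact Finset.sum_congr rfl (fun α _ => par_monomial α _)

theorem par_coeff (F : R3) (k : ℕ) : (par F).coeff k =
    ∑ α ∈ F.support, if kw α = k then coeff α F else 0 := by
  rw [par_eq, Polynomial.finsetSum_coeff]
  refine Finset.sum_congr rfl (fun α _ => ?_)
  rw [Polynomial.coeff_C_mul_X_pow]
  by_cases h : kw α = k
  · rw [if_pos h, if_pos h.symm]
  · rw [if_neg h, if_neg (fun hh => h hh.symm)]

theorem par_coeff_one (F : R3) : (par F).coeff 1 = 0 := by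
  rw [par_coeff]
  refine Finset.sum_eq_zero (fun α _ => ?_)
  rw [if_neg]
  unfold kw
  omega

theorem kw_le {F : R3} {D : ℕ} (hF : F.IsHomogeneous D) {α : Fin 3 →₀ ℕ} (hα : coeff α F ≠ 0) :
    kw α ≤ 3 * D := by
  have h1 := degree_of_mem_support hF hα
  rw [degree_three] at h1
  unfold kw
  omega

theorem par_natDegree {F : R3} {D : ℕ} (hF : F.IsHomogeneous D) : (par F).natDegree ≤ 3 * D := by
  rw [par_eq]
  refine Polynomial.natDegree_sum_le_of_forall_le _ _ (fun α hα => ?_)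
  refine (Polynomial.natDegree_C_mul_X_pow_le _ _).trans ?_
  exact kw_le hF (mem_support_iff.mp hα)

/-! ### vanishing at a point of the cubic -/

theorem par_dvd {F : R3} {m : ℕ} {t : ℂ} (h : VanishTo F (cpt t) m) :
    (Polynomial.X - Polynomial.C t) ^ m ∣ par F := by
  obtain ⟨v, hv⟩ : ∃ v : Fin 3 → Polynomial ℂ, v = ![0, Polynomial.X + Polynomial.C t,
    Polynomial.X ^ 2 + Polynomial.C t * Polynomial.X + Polynomial.C (t ^ 2)] := ⟨_, rfl⟩
  obtain ⟨ψ, hψ⟩ : ∃ ψ : R3 →ₐ[ℂ] Polynomial ℂ,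
    ψ = aeval (fun k => (Polynomial.X - Polynomial.C t) * v k) := ⟨_, rfl⟩
  have h1 : ∀ G : R3, par G = ψ (translate (cpt t) G) := by
    intro G
    induction G using MvPolynomial.induction_on with
    | C c =>
      unfold translate
      rw [algHom_C, algHom_C, algebraMap_eq, algHom_C]
    | add f g hf hg =>
      rw [map_add, hf, hg]
      unfold translate
      rw [map_add, map_add]
    | mul_X f k hf =>
      rw [map_mul, hf]
      unfold translate
      rw [map_mul, map_mul, aeval_X, map_add, algHom_C, hψ, aeval_X]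
      congr 1
      unfold par
      rw [aeval_X, hv]
      fin_cases k
      · change (1 : Polynomial ℂ) = Polynomial.C 1 + (Polynomial.X - Polynomial.C t) * 0
        rw [map_one, mul_zero, add_zero]
      · change (Polynomial.X ^ 2 : Polynomial ℂ) = Polynomial.C (t ^ 2) +
          (Polynomial.X - Polynomial.C t) * (Polynomial.X + Polynomial.C t)
        rw [Polynomial.C_pow]
        ring
      · change (Polynomial.X ^ 3 : Polynomial ℂ) = Polynomial.C (t ^ 3) +
          (Polynomial.X - Polynomial.C t) * (Polynomial.X ^ 2 + Polynomial.C t * Polynomial.X +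
            Polynomial.C (t ^ 2))
        rw [Polynomial.C_pow, Polynomial.C_pow]
        ring
  rw [h1]
  conv_rhs => rw [← sum_homogeneousComponent (translate (cpt t) F)]
  rw [map_sum]
  refine Finset.dvd_sum (fun k _ => ?_)
  rcases Nat.lt_or_ge k m with hk | hk
  · rw [h k hk, map_zero]
    exact dvd_zero _
  refine (pow_dvd_pow _ hk).trans ?_
  have hh := homogeneousComponent_isHomogeneous k (translate (cpt t) F)
  generalize homogeneousComponent k (translate (cpt t) F) = G at hh ⊢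
  rw [G.as_sum, map_sum]
  refine Finset.dvd_sum (fun β hβ => ?_)
  rw [hψ, aeval_monomial, Finsupp.prod_fintype _ _ (fun i => pow_zero _)]
  refine Dvd.dvd.mul_left ?_ _
  have h2 := degree_of_mem_support hh (mem_support_iff.mp hβ)
  rw [← h2, Finsupp.degree_eq_sum, ← Finset.prod_pow_eq_pow_sum]
  refine Finset.prod_dvd_prod_of_dvd _ _ (fun i _ => ?_)
  exact pow_dvd_pow_of_dvd (Dvd.intro _ rfl) _

theorem par_prod_dvd {N : ℕ} {t : Fin N → ℂ} (ht : Function.Injective t) {F : R3} {a : Fin N → ℕ}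
    (h : ∀ i, VanishTo F (cpt (t i)) (a i)) :
    ∏ i, (Polynomial.X - Polynomial.C (t i)) ^ a i ∣ par F := by
  refine Finset.prod_dvd_of_coprime (fun i _ j _ hij => ?_) (fun i _ => par_dvd (h i))
  exact (Polynomial.pairwise_coprime_X_sub_C ht hij).pow

/-- the dimension of the space of restrictions -/
theorem finrank_par_le {P : Polynomial ℂ} {n s : ℕ} (hP0 : P.coeff 0 ≠ 0)
    (hs : P.natDegree = s) (hn : s + 1 ≤ n) (W : Submodule ℂ (Polynomial ℂ))
    (hW : ∀ f ∈ W, f.natDegree ≤ n ∧ f.coeff 1 = 0 ∧ P ∣ f) : finrank ℂ W ≤ n - s := by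
  have hPne : P ≠ 0 := fun h => hP0 (by rw [h, Polynomial.coeff_zero])
  obtain ⟨E, hE⟩ : ∃ E, E = Polynomial.degreeLT ℂ (n - s + 1) := ⟨_, rfl⟩
  have hEfin : Module.Finite ℂ E := by
    rw [hE]
    exact Module.Finite.equiv (Polynomial.degreeLTEquiv ℂ (n - s + 1)).symm
  have hEdim : finrank ℂ E = n - s + 1 := by
    rw [hE, (Polynomial.degreeLTEquiv ℂ (n - s + 1)).finrank_eq, finrank_fin_fun]
  let lam : Polynomial ℂ →ₗ[ℂ] ℂ := Polynomial.lcoeff ℂ 1 ∘ₗ LinearMap.mulLeft ℂ P
  have hlam : ∀ g, lam g = (P * g).coeff 1 := fun g => rfl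
  have hlt : E ⊓ LinearMap.ker lam < E := by
    refine lt_of_le_of_ne inf_le_left (fun h => ?_)
    have h1 : (Polynomial.X : Polynomial ℂ) ∈ E := by
      rw [hE, Polynomial.mem_degreeLT, Polynomial.degree_X]
      have h2 : (1 : ℕ) < n - s + 1 := by omega
      exact_mod_cast h2
    rw [← h] at h1
    have h2 := LinearMap.mem_ker.mp h1.2
    rw [hlam, Polynomial.coeff_mul_X] at h2
    exact hP0 h2
  have h1 := Submodule.finrank_lt_finrank_of_lt hlt
  rw [hEdim] at h1
  have hfin2 : Module.Finite ℂ ↥(E ⊓ LinearMap.ker lam) :=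
    Submodule.finiteDimensional_of_le inf_le_left
  have h2 : W ≤ (E ⊓ LinearMap.ker lam).map (LinearMap.mulLeft ℂ P) := by
    intro f hf
    obtain ⟨h3, h4, g, hg⟩ := hW f hf
    refine ⟨g, ⟨?_, ?_⟩, hg.symm⟩
    · rw [SetLike.mem_coe, hE, Polynomial.mem_degreeLT]
      by_cases hg0 : g = 0
      · rw [hg0, Polynomial.degree_zero]
        exact WithBot.bot_lt_coe _
      · rw [hg, Polynomial.natDegree_mul hPne hg0, hs] at h3
        rw [Polynomial.degree_eq_natDegree hg0]
        have h5 : g.natDegree < n - s + 1 := by omega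
        exact_mod_cast h5
    · rw [SetLike.mem_coe, LinearMap.mem_ker, hlam, ← hg]
      exact h4
  have hfin3 : Module.Finite ℂ ↥((E ⊓ LinearMap.ker lam).map (LinearMap.mulLeft ℂ P)) :=
    inferInstance
  have h3 := Submodule.finrank_mono h2
  have h4 := Submodule.finrank_map_le (LinearMap.mulLeft ℂ P) (E ⊓ LinearMap.ker lam)
  omega

/-! ### the forms vanishing on the cubic -/

/-- a standard monomial of given degree and weight -/
noncomputable def can (D k : ℕ) : R3 :=
  X 0 ^ (D - 2 * k % 3 - (k - 2 * (2 * k % 3)) / 3) * X 1 ^ (2 * k % 3) *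
    X 2 ^ ((k - 2 * (2 * k % 3)) / 3)

theorem cub_dvd_can {D : ℕ} {α : Fin 3 →₀ ℕ} (hα : α.degree = D) :
    cub ∣ monomial α 1 - can D (kw α) := by
  have h1 : (monomial α (1 : ℂ) : R3) = X 0 ^ α 0 * X 1 ^ α 1 * X 2 ^ α 2 := by
    rw [monomial_eq, Finsupp.prod_fintype _ _ (fun i => pow_zero _), Fin.prod_univ_three, C_1,
      one_mul]
  rw [degree_three] at hα
  obtain ⟨b, hb⟩ : ∃ b, b = α 1 % 3 := ⟨_, rfl⟩
  obtain ⟨j, hj⟩ : ∃ j, j = α 1 / 3 := ⟨_, rfl⟩
  have e1 : α 1 = b + 3 * j := by omega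
  have e2 : 2 * kw α % 3 = b := by
    unfold kw
    omega
  have e3 : (kw α - 2 * b) / 3 = α 2 + 2 * j := by
    unfold kw
    omega
  have e4 : D - b - (α 2 + 2 * j) = α 0 + j := by omega
  have h2 : can D (kw α) = X 0 ^ (α 0 + j) * X 1 ^ b * X 2 ^ (α 2 + 2 * j) := by
    unfold can
    rw [e2, e3, e4]
  have h3 : X 0 ^ α 0 * X 1 ^ α 1 * X 2 ^ α 2 -
      X 0 ^ (α 0 + j) * X 1 ^ b * X 2 ^ (α 2 + 2 * j) =
      (X 0 ^ α 0 * X 1 ^ b * X 2 ^ α 2 : R3) * ((X 1 ^ 3) ^ j - (X 0 * X 2 ^ 2) ^ j) := by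
    rw [e1]
    ring
  rw [h1, h2, h3]
  exact Dvd.dvd.mul_left (sub_dvd_pow_sub_pow _ _ j) _

theorem cub_dvd_of_par {F : R3} {D : ℕ} (hF : F.IsHomogeneous D) (h : par F = 0) : cub ∣ F := by
  classical
  have h1 : ∑ α ∈ F.support, C (coeff α F) * can D (kw α) = 0 := by
    rw [← Finset.sum_fiberwise_of_maps_to (s := F.support) (t := Finset.range (3 * D + 1))
      (g := kw) (fun α hα => by
        rw [Finset.mem_range]
        have := kw_le hF (mem_support_iff.mp hα)
        omega)]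
    refine Finset.sum_eq_zero (fun k _ => ?_)
    have h2 : ∑ α ∈ F.support.filter (fun α => kw α = k), C (coeff α F) * can D (kw α) =
        C ((par F).coeff k) * can D k := by
      rw [par_coeff, map_sum, Finset.sum_mul, Finset.sum_filter]
      refine Finset.sum_congr rfl (fun α _ => ?_)
      split_ifs with h3
      · rw [h3]
      · rw [C_0, zero_mul]
    rw [h2, h, Polynomial.coeff_zero, C_0, zero_mul]
  have h2 : F = ∑ α ∈ F.support, C (coeff α F) * (monomial α 1 - can D (kw α)) := by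
    simp only [mul_sub, Finset.sum_sub_distrib]
    rw [h1, sub_zero]
    conv_lhs => rw [F.as_sum]
    refine Finset.sum_congr rfl (fun α _ => ?_)
    rw [C_mul_monomial, mul_one]
  rw [h2]
  refine Finset.dvd_sum (fun α hα => Dvd.dvd.mul_left (cub_dvd_can ?_) _)
  exact degree_of_mem_support hF (mem_support_iff.mp hα)

theorem cub_isHomogeneous : cub.IsHomogeneous 3 := by
  unfold cub
  refine IsHomogeneous.sub ?_ ?_
  · have h := (isHomogeneous_X ℂ (1 : Fin 3)).pow 3
    exact h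
  · have h := (isHomogeneous_X ℂ (0 : Fin 3)).mul ((isHomogeneous_X ℂ (2 : Fin 3)).pow 2)
    exact h

theorem cub_ne_zero : cub ≠ 0 := by
  intro h
  have h1 := congrArg (eval (![0, 1, 0] : V3)) h
  unfold cub at h1
  simp at h1

/-- the cubic is smooth at the points with `t ≠ 0` -/
theorem cub_not_double {t : ℂ} (ht : t ≠ 0) : ¬ VanishTo cub (cpt t) 2 := by
  intro h
  have h1 : VanishTo (pderiv 1 cub) (cpt t) 1 := Rk.vanishTo_pderiv 1 h
  have h2 := vanishTo_one_iff'.mp h1
  unfold cub cpt at h2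
  simp at h2
  exact ht h2

theorem vanishTo_of_cub_mul {G : R3} {t : ℂ} (ht : t ≠ 0) {a : ℕ}
    (h : VanishTo (cub * G) (cpt t) a) : VanishTo G (cpt t) (a - 1) := by
  obtain ⟨e, he, he'⟩ := exists_order (translate_ne_zero cub_ne_zero (cpt t))
  have he1 : e ≤ 1 := by
    by_contra hcon
    exact cub_not_double ht (fun k hk => he k (by omega))
  intro k hk
  unfold VanishTo at h
  rw [translate_mul] at h
  exact le_of_hc_mul he he' h k (by omega)

/-- **Restriction to the cubic.** -/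
theorem cubic_step {N : ℕ} {t : Fin N → ℂ} (ht : Function.Injective t) (ht0 : ∀ i, t i ≠ 0)
    {a : Fin N → ℕ} {D : ℕ} (hs : ∑ i, a i + 1 ≤ 3 * D) :
    finrank ℂ (linSys D (fun i => cpt (t i)) a) ≤
      finrank ℂ (linSys (D - 3) (fun i => cpt (t i)) (fun i => a i - 1)) +
        (3 * D - ∑ i, a i) := by
  obtain ⟨V, hV⟩ : ∃ V, V = linSys D (fun i => cpt (t i)) a := ⟨_, rfl⟩
  obtain ⟨V', hV'⟩ : ∃ V', V' = linSys (D - 3) (fun i => cpt (t i)) (fun i => a i - 1) := ⟨_, rfl⟩
  rw [← hV, ← hV']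
  have hfin : Module.Finite ℂ V := by
    rw [hV]
    exact Submodule.finiteDimensional_of_le (linSys_le _ _ _)
  have hfin' : Module.Finite ℂ V' := by
    rw [hV']
    exact Submodule.finiteDimensional_of_le (linSys_le _ _ _)
  rw [finrank_eq_ker_add_map par.toLinearMap V]
  apply Nat.add_le_add
  · have h1 : V ⊓ LinearMap.ker par.toLinearMap ≤ V'.map (LinearMap.mulLeft ℂ cub) := by
      rintro F ⟨hF, hF'⟩
      rw [SetLike.mem_coe, hV] at hF
      obtain ⟨hF1, hF2⟩ := hF
      have hF3 : par F = 0 := LinearMap.mem_ker.mp hF'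
      obtain ⟨G, hG⟩ := cub_dvd_of_par hF1 hF3
      refine ⟨G, ?_, hG.symm⟩
      rw [SetLike.mem_coe, hV']
      refine ⟨?_, fun i => ?_⟩
      · by_cases hF0 : F = 0
        · have : G = 0 := by
            rw [hF0] at hG
            rcases mul_eq_zero.mp hG.symm with h | h
            · exact absurd h cub_ne_zero
            · exact h
          rw [this]
          exact isHomogeneous_zero _ _ _
        · rw [hG] at hF1 hF0
          obtain ⟨x, g, hxg, hx, hg⟩ := isHomogeneous_factor hF1 hF0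
          have hx3 : x = 3 := hx.inj_right cub_isHomogeneous cub_ne_zero
          have e1 : D - 3 = g := by omega
          rw [e1]
          exact hg
      · have h2 := hF2 i
        rw [hG] at h2
        exact vanishTo_of_cub_mul (ht0 i) h2
    exact (Submodule.finrank_mono h1).trans (Submodule.finrank_map_le _ _)
  · obtain ⟨P, hP⟩ : ∃ P : Polynomial ℂ, P = ∏ i, (Polynomial.X - Polynomial.C (t i)) ^ a i :=
      ⟨_, rfl⟩
    have hP0 : P.coeff 0 ≠ 0 := by
      rw [Polynomial.coeff_zero_eq_eval_zero, hP, Polynomial.eval_prod, Finset.prod_ne_zero_iff]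
      intro i _
      rw [Polynomial.eval_pow]
      apply pow_ne_zero
      simp [ht0 i]
    have hPd : P.natDegree = ∑ i, a i := by
      rw [hP, Polynomial.natDegree_prod_of_monic _ _
        (fun i _ => (Polynomial.monic_X_sub_C (t i)).pow _)]
      refine Finset.sum_congr rfl (fun i _ => ?_)
      rw [Polynomial.natDegree_pow, Polynomial.natDegree_X_sub_C, mul_one]
    refine finrank_par_le hP0 hPd hs _ ?_
    rintro f ⟨F, hF, rfl⟩
    rw [SetLike.mem_coe, hV] at hF
    refine ⟨par_natDegree hF.1, par_coeff_one F, ?_⟩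
    rw [hP]
    exact par_prod_dvd ht hF.2

/-! ### two points -/

end Pool.Agent.Work.MP_0421d9_ag.LD
end

section
/-!
Any number of points on the cuspidal cubic.
-/

namespace Pool.Agent.Work.MP_0421d9_ag.LD

open MvPolynomial Module

theorem exists_third {N : ℕ} (hN : 3 ≤ N) (i j : Fin N) : ∃ k : Fin N, i ≠ k ∧ j ≠ k := by
  classical
  have h1 : ∃ k ∈ (Finset.univ : Finset (Fin N)), k ∉ ({i, j} : Finset (Fin N)) := by
    by_contra hcon
    push Not at hcon
    have h2 := Finset.card_le_card (s := (Finset.univ : Finset (Fin N))) (t := {i, j})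
      (fun x hx => hcon x hx)
    have h3 := Finset.card_le_two (a := i) (b := j)
    rw [Finset.card_univ, Fintype.card_fin] at h2
    omega
  obtain ⟨k, -, hk⟩ := h1
  rw [Finset.mem_insert, Finset.mem_singleton, not_or] at hk
  exact ⟨k, Ne.symm hk.1, Ne.symm hk.2⟩

theorem two_regularN {N : ℕ} (hN : 3 ≤ N) {t : Fin N → ℂ} (ht : Function.Injective t)
    (ht0 : ∀ i, t i ≠ 0) {a : Fin N → ℕ} {D : ℕ} {i j : Fin N} (hij : i ≠ j)
    (h0 : ∀ l, l ≠ i → l ≠ j → a l = 0) (hD : a i + a j ≤ D) :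
    finrank ℂ (linSys D (fun i => cpt (t i)) a) + ∑ i, (a i + 1).choose 2 ≤
      (D + 2).choose 2 := by
  classical
  -- a third point
  obtain ⟨k, hik, hjk⟩ := exists_third hN i j
  obtain ⟨G, hG⟩ : ∃ G, G = colM (gpt N i) (gpt N j) (gpt N k) := ⟨_, rfl⟩
  obtain ⟨Q, hQ⟩ : ∃ Q, Q = colM (cpt (t i)) (cpt (t j)) ![1, 0, 0] := ⟨_, rfl⟩
  have hGdet : G.det ≠ 0 := by
    rw [hG, colM_det]
    exact gpt_det3_ne hij hik hjk
  have hQdet : Q.det ≠ 0 := by
    rw [hQ, colM_det]
    unfold det3 cpt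
    have h1 : t i ≠ t j := fun h => hij (ht h)
    have h2 := ht0 i
    have h3 := ht0 j
    simp
    intro h
    have h4 : t i ^ 2 * t j ^ 2 * (t j - t i) = 0 := by
      linear_combination h
    rcases mul_eq_zero.mp h4 with h5 | h5
    · rcases mul_eq_zero.mp h5 with h6 | h6
      · exact h2 (pow_eq_zero_iff (by norm_num) |>.mp h6)
      · exact h3 (pow_eq_zero_iff (by norm_num) |>.mp h6)
    · exact h1 (sub_eq_zero.mp h5).symm
  have hGU := isUnit_iff_ne_zero.mpr hGdet
  have hQU := isUnit_iff_ne_zero.mpr hQdet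
  have hGi : G⁻¹.mulVec (gpt N i) = Pi.single 0 1 := by
    have h1 : G.mulVec (Pi.single 0 1) = gpt N i := by
      rw [hG, colM_mulVec]
      funext l
      simp
    rw [← h1, Matrix.mulVec_mulVec, Matrix.nonsing_inv_mul _ hGU, Matrix.one_mulVec]
  have hGj : G⁻¹.mulVec (gpt N j) = Pi.single 1 1 := by
    have h1 : G.mulVec (Pi.single 1 1) = gpt N j := by
      rw [hG, colM_mulVec]
      funext l
      simp
    rw [← h1, Matrix.mulVec_mulVec, Matrix.nonsing_inv_mul _ hGU, Matrix.one_mulVec]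
  have hM1 : (Q * G⁻¹) * (G * Q⁻¹) = 1 := by
    rw [Matrix.mul_assoc, ← Matrix.mul_assoc G⁻¹, Matrix.nonsing_inv_mul _ hGU, Matrix.one_mul,
      Matrix.mul_nonsing_inv _ hQU]
  have hmi : (Q * G⁻¹).mulVec (gpt N i) = cpt (t i) := by
    rw [← Matrix.mulVec_mulVec, hGi, hQ, colM_mulVec]
    funext l
    simp
  have hmj : (Q * G⁻¹).mulVec (gpt N j) = cpt (t j) := by
    rw [← Matrix.mulVec_mulVec, hGj, hQ, colM_mulVec]
    funext l
    simp
  obtain ⟨M, hM⟩ : ∃ M, M = Q * G⁻¹ := ⟨_, rfl⟩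
  obtain ⟨M', hM'⟩ : ∃ M', M' = G * Q⁻¹ := ⟨_, rfl⟩
  rw [← hM, ← hM'] at hM1
  rw [← hM] at hmi hmj
  have hfin : Module.Finite ℂ (linSys D (gpt N) a) :=
    Submodule.finiteDimensional_of_le (linSys_le _ _ _)
  have h1 : ∀ F ∈ linSys D (fun i => cpt (t i)) a, subM M F ∈ linSys D (gpt N) a := by
    intro F hF
    obtain ⟨h1, h2⟩ := hF
    refine ⟨subM_isHomogeneous M h1, fun l => ?_⟩
    by_cases hl : l = i
    · subst hl
      apply vanishTo_subM
      rw [hmi]
      exact h2 l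
    by_cases hl' : l = j
    · subst hl'
      apply vanishTo_subM
      rw [hmj]
      exact h2 l
    rw [h0 l hl hl']
    exact uv_zero _ _
  have h2 : finrank ℂ (linSys D (fun i => cpt (t i)) a) ≤ finrank ℂ (linSys D (gpt N) a) := by
    refine LinearMap.finrank_le_finrank_of_injective (f := (subM M).toLinearMap.restrict h1) ?_
    intro F F' h
    have h2 : subM M F.1 = subM M F'.1 := congrArg Subtype.val h
    have h3 := congrArg (subM M') h2
    rw [subM_subM, subM_subM, hM1, subM_one, subM_one] at h3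
    exact Subtype.ext h3
  have h3 := three_regular (D := D) (gpt_generic N) a (I := {i, j})
    ((Finset.card_le_two).trans (by norm_num)) (fun l hl => by
      rw [Finset.mem_insert, Finset.mem_singleton] at hl
      rcases hl with rfl | rfl <;> omega) (fun l hl l' hl' hll => by
      rw [Finset.mem_insert, Finset.mem_singleton] at hl hl'
      rcases hl with rfl | rfl <;> rcases hl' with rfl | rfl <;> first | exact absurd rfl hll | omega)
  have h4 : onB {i, j} a = a := by
    funext l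
    unfold onB
    split_ifs with hl
    · rfl
    · rw [Finset.mem_insert, Finset.mem_singleton, not_or] at hl
      exact (h0 l hl.1 hl.2).symm
  rw [h4] at h3
  have h5 : ∑ l ∈ ({i, j} : Finset (Fin N)), (a l + 1).choose 2 = ∑ l, (a l + 1).choose 2 := by
    rw [← sum_onB, h4]
  rw [h5] at h3
  omega

/-- the sum of at most eight numbers -/
theorem sum_eight {α : Type*} [DecidableEq α] {P : Finset α} {b : α → ℕ} {D : ℕ}
    (hP : 3 ≤ P.card) (h8 : P.card ≤ 8)
    (h3 : ∀ i j k, i ≠ j → i ≠ k → j ≠ k → b i + b j + b k ≤ D) :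
    3 * ∑ i ∈ P, b i ≤ 8 * D := by
  obtain ⟨x, hx, hxm⟩ := Finset.exists_max_image P b (Finset.card_pos.mp (by omega))
  have hc1 : (P.erase x).card = P.card - 1 := Finset.card_erase_of_mem hx
  obtain ⟨y, hy, hym⟩ := Finset.exists_max_image (P.erase x) b (Finset.card_pos.mp (by omega))
  have hc2 : ((P.erase x).erase y).card = P.card - 2 := by
    rw [Finset.card_erase_of_mem hy, hc1]
    omega
  obtain ⟨z, hz, hzm⟩ := Finset.exists_max_image ((P.erase x).erase y) b
    (Finset.card_pos.mp (by omega))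
  have h1 : ∑ i ∈ (P.erase x).erase y, b i ≤ 6 * b z := by
    calc ∑ i ∈ (P.erase x).erase y, b i ≤ ((P.erase x).erase y).card • b z :=
          Finset.sum_le_card_nsmul _ _ _ hzm
      _ ≤ 6 * b z := by
          rw [smul_eq_mul]
          exact Nat.mul_le_mul_right _ (by omega)
  have h2 : ∑ i ∈ P, b i = b x + (b y + ∑ i ∈ (P.erase x).erase y, b i) := by
    rw [Finset.add_sum_erase _ _ hy, Finset.add_sum_erase _ _ hx]
  have hzP := Finset.mem_of_mem_erase hz
  have hxy : x ≠ y := fun h => (Finset.ne_of_mem_erase hy) h.symm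
  have hyz : y ≠ z := fun h => (Finset.ne_of_mem_erase hz) h.symm
  have hxz : x ≠ z := fun h => (Finset.ne_of_mem_erase hzP) h.symm
  have g1 := h3 x y z hxy hxz hyz
  have g2 := hym z hzP
  have g3 := hxm y (Finset.mem_of_mem_erase hy)
  omega

/-- **Reduced classes on the cubic.** -/
theorem reduced_regularN {N : ℕ} (hN : 3 ≤ N) {t : Fin N → ℂ} (ht : Function.Injective t)
    (ht0 : ∀ i, t i ≠ 0) :
    ∀ (D : ℕ) (a : Fin N → ℕ), (∀ i j k, i ≠ j → i ≠ k → j ≠ k → a i + a j + a k ≤ D) →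
      (∑ i, a i + 1 ≤ 3 * D ∨ ∀ i, a i = 0) →
      finrank ℂ (linSys D (fun i => cpt (t i)) a) + ∑ i, (a i + 1).choose 2 ≤
        (D + 2).choose 2 := by
  classical
  intro D
  induction D using Nat.strong_induction_on with
  | _ D ih =>
  intro a hred hK
  by_cases h3 : ∃ i j k, i ≠ j ∧ i ≠ k ∧ j ≠ k ∧ 1 ≤ a i ∧ 1 ≤ a j ∧ 1 ≤ a k
  · obtain ⟨x, y, z, hxy, hxz, hyz, hx, hy, hz⟩ := h3
    have h1 := hred x y z hxy hxz hyz
    have hK' : ∑ i, a i + 1 ≤ 3 * D := by
      rcases hK with h | h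
      · exact h
      · have := h x
        omega
    have hstep := cubic_step ht ht0 (a := a) (D := D) hK'
    obtain ⟨b, hb⟩ : ∃ b : Fin N → ℕ, b = fun i => a i - 1 := ⟨_, rfl⟩
    have hbi : ∀ i, b i = a i - 1 := fun i => by rw [hb]
    rw [← hb] at hstep
    have hbred : ∀ i j k, i ≠ j → i ≠ k → j ≠ k → b i + b j + b k ≤ D - 3 := by
      -- among `x, y, z` there is an index different from two given ones
      have hex1 : ∀ i j, ∃ l, l ≠ i ∧ l ≠ j ∧ 1 ≤ a l := by
        intro i j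
        by_cases g1 : x ≠ i ∧ x ≠ j
        · exact ⟨x, g1.1, g1.2, hx⟩
        by_cases g2 : y ≠ i ∧ y ≠ j
        · exact ⟨y, g2.1, g2.2, hy⟩
        refine ⟨z, fun h => ?_, fun h => ?_, hz⟩
        · subst h
          rw [not_and_or, not_not, not_not] at g1 g2
          rcases g1 with g1 | g1
          · exact hxz g1
          rcases g2 with g2 | g2
          · exact hyz g2
          exact hxy (g1.trans g2.symm)
        · subst h
          rw [not_and_or, not_not, not_not] at g1 g2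
          rcases g1 with g1 | g1
          · rcases g2 with g2 | g2
            · exact hxy (g1.trans g2.symm)
            · exact hyz g2
          · exact hxz g1
      have hex2 : ∀ i, ∃ l l', l ≠ i ∧ l' ≠ i ∧ l ≠ l' ∧ 1 ≤ a l ∧ 1 ≤ a l' := by
        intro i
        obtain ⟨l, h1, -, h2⟩ := hex1 i i
        obtain ⟨l', h3, h4, h5⟩ := hex1 i l
        exact ⟨l, l', h1, h3, Ne.symm h4, h2, h5⟩
      have key : ∀ i j k, i ≠ j → i ≠ k → j ≠ k → a k ≤ a i → a k ≤ a j →
          b i + b j + b k ≤ D - 3 := by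
        intro i j k hij hik hjk hki hkj
        rw [hbi, hbi, hbi]
        rcases Nat.eq_zero_or_pos (a k) with hk0 | hk0
        · rcases Nat.eq_zero_or_pos (a i) with hi0 | hi0
          · obtain ⟨l, l', g1, g2, g3, g4, g5⟩ := hex2 j
            have g6 := hred j l l' (Ne.symm g1) (Ne.symm g2) g3
            omega
          rcases Nat.eq_zero_or_pos (a j) with hj0 | hj0
          · obtain ⟨l, l', g1, g2, g3, g4, g5⟩ := hex2 i
            have g6 := hred i l l' (Ne.symm g1) (Ne.symm g2) g3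
            omega
          · obtain ⟨l, g1, g2, g3⟩ := hex1 i j
            have g6 := hred i j l hij (Ne.symm g1) (Ne.symm g2)
            omega
        · have g6 := hred i j k hij hik hjk
          omega
      intro i j k hij hik hjk
      by_cases g1 : a k ≤ a i ∧ a k ≤ a j
      · exact key i j k hij hik hjk g1.1 g1.2
      by_cases g2 : a j ≤ a i ∧ a j ≤ a k
      · have := key i k j hik hij (Ne.symm hjk) g2.1 g2.2
        omega
      · have := key j k i hjk (Ne.symm hij) (Ne.symm hik) (by omega) (by omega)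
        omega
    -- the sums
    have hc1 : ∑ i, (a i + 1).choose 2 = ∑ i, (b i + 1).choose 2 + ∑ i, a i := by
      rw [← Finset.sum_add_distrib]
      refine Finset.sum_congr rfl (fun i _ => ?_)
      rw [hbi]
      rcases Nat.eq_zero_or_pos (a i) with g | g
      · rw [g]
        rfl
      · obtain ⟨w, hw⟩ : ∃ w, a i = w + 1 := ⟨a i - 1, by omega⟩
        rw [hw, Nat.add_sub_cancel, Nat.choose_succ_succ' (w + 1) 1, Nat.choose_one_right]
        ring
    have hc2 : (D + 2).choose 2 = (D - 3 + 2).choose 2 + 3 * D := by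
      obtain ⟨w, rfl⟩ : ∃ w, D = w + 3 := ⟨D - 3, by omega⟩
      have e1 : w + 3 - 3 + 2 = w + 2 := by omega
      have e2 : w + 3 + 2 = w + 2 + 1 + 1 + 1 := by ring
      rw [e1, e2, Nat.choose_succ_succ' (w + 2 + 1 + 1) 1, Nat.choose_succ_succ' (w + 2 + 1) 1,
        Nat.choose_succ_succ' (w + 2) 1, Nat.choose_one_right, Nat.choose_one_right,
        Nat.choose_one_right]
      ring
    have hK2 : ∑ i, b i + 1 ≤ 3 * (D - 3) ∨ ∀ i, b i = 0 := by
      by_cases hb0 : ∀ i, b i = 0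
      · exact Or.inr hb0
      left
      push Not at hb0
      obtain ⟨w, hw⟩ := hb0
      have hw1 : 1 ≤ b w := Nat.one_le_iff_ne_zero.mpr hw
      obtain ⟨P, hP⟩ : ∃ P : Finset (Fin N), P = Finset.univ.filter (fun i => 1 ≤ a i) := ⟨_, rfl⟩
      have hPm : ∀ i, i ∈ P ↔ 1 ≤ a i := by
        intro i
        rw [hP, Finset.mem_filter]
        exact ⟨fun h => h.2, fun h => ⟨Finset.mem_univ i, h⟩⟩
      have hsa : ∑ i, a i = ∑ i ∈ P, a i := by
        symm
        apply Finset.sum_subset (Finset.subset_univ P)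
        intro i _ hi
        rw [hPm] at hi
        omega
      have hsb : ∑ i, b i = ∑ i ∈ P, b i := by
        symm
        apply Finset.sum_subset (Finset.subset_univ P)
        intro i _ hi
        rw [hPm] at hi
        rw [hbi]
        omega
      have hab : ∑ i ∈ P, a i = ∑ i ∈ P, b i + P.card := by
        rw [Finset.card_eq_sum_ones, ← Finset.sum_add_distrib]
        refine Finset.sum_congr rfl (fun i hi => ?_)
        rw [hPm] at hi
        rw [hbi]
        omega
      rcases Nat.lt_or_ge P.card 9 with h9 | h9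
      · have hP3 : 3 ≤ P.card := by
          have h5 : ({x, y, z} : Finset (Fin N)) ⊆ P := by
            intro i hi
            rw [Finset.mem_insert, Finset.mem_insert, Finset.mem_singleton] at hi
            rw [hPm]
            rcases hi with rfl | rfl | rfl
            · exact hx
            · exact hy
            · exact hz
          have h6 := Finset.card_le_card h5
          rw [Finset.card_eq_three.mpr ⟨x, y, z, hxy, hxz, hyz, rfl⟩] at h6
          exact h6
        have h7 := sum_eight (b := b) (D := D - 3) hP3 (by omega) hbred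
        have h8 : b w ≤ ∑ i, b i := Finset.single_le_sum (f := b) (fun _ _ => Nat.zero_le _)
          (Finset.mem_univ w)
        omega
      · omega
    have h4 := ih (D - 3) (by omega) b hbred hK2
    omega
  · push Not at h3
    -- at most two multiplicities are different from zero
    by_cases hx : ∃ x, 1 ≤ a x
    · obtain ⟨x, hx⟩ := hx
      by_cases hy : ∃ y, x ≠ y ∧ 1 ≤ a y
      · obtain ⟨y, hxy, hy⟩ := hy
        have h0 : ∀ l, l ≠ x → l ≠ y → a l = 0 := by
          intro l hlx hly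
          have := h3 x y l hxy (Ne.symm hlx) (Ne.symm hly) hx hy
          omega
        obtain ⟨k, hik, hjk⟩ := exists_third hN x y
        have h1 := hred x y k hxy hik hjk
        exact two_regularN hN ht ht0 hxy h0 (by omega)
      · push Not at hy
        have h0 : ∀ l, l ≠ x → a l = 0 := by
          intro l hlx
          have := hy l (Ne.symm hlx)
          omega
        obtain ⟨y, hxy, -⟩ := exists_third hN x x
        obtain ⟨z, hxz, hyz⟩ := exists_third hN x y
        have h1 := hred x y z hxy hxz hyz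
        exact two_regularN hN ht ht0 hxy (fun l g1 _ => h0 l g1) (by
          have := h0 y (Ne.symm hxy)
          omega)
    · push Not at hx
      have h0 : ∀ l, a l = 0 := by
        intro l
        have := hx l
        omega
      obtain ⟨y, hxy, -⟩ := exists_third hN (⟨0, by omega⟩ : Fin N) ⟨0, by omega⟩
      exact two_regularN hN ht ht0 hxy (fun l _ _ => h0 l) (by
        rw [h0, h0]
        exact Nat.zero_le _)

end Pool.Agent.Work.MP_0421d9_ag.LD
end

section
/-!
Systems which cannot be reduced by quadratic transformations: three points of arbitrary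
multiplicities, and points of small multiplicity.
-/

namespace Pool.Agent.Work.MP_0421d9_ag.LD

open MvPolynomial Module

/-! ### quadratic transformations -/

/-- the quadratic transformation centred at the points `a`, `b`, `c` takes the system of the curves
of degree `d` with multiplicities `m` to the one with `d'` and `m'` -/
def Quadratic {r : ℕ} (x x' : ℕ × (Fin r → ℕ)) : Prop :=
  ∃ a b c : Fin r, a ≠ b ∧ a ≠ c ∧ b ≠ c ∧ x.2 a ≤ x.1 ∧ x.2 b ≤ x.1 ∧ x.2 c ≤ x.1 ∧
    x.2 a + x.2 b ≤ x.1 + 1 ∧ x.2 a + x.2 c ≤ x.1 + 1 ∧ x.2 b + x.2 c ≤ x.1 + 1 ∧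
    x'.1 + x.2 a + x.2 b + x.2 c = 2 * x.1 ∧
    x'.2 a = x.1 - x.2 b - x.2 c ∧ x'.2 b = x.1 - x.2 a - x.2 c ∧
    x'.2 c = x.1 - x.2 a - x.2 b ∧ ∀ i, i ≠ a → i ≠ b → i ≠ c → x'.2 i = x.2 i

theorem choose_int (n : ℕ) : (2 : ℤ) * ((n + 1).choose 2 : ℕ) = n * (n + 1) := by
  exact_mod_cast tr_two_choose n

theorem choose_sub_int {n k l : ℕ} (h : k + l ≤ n + 1) :
    (2 : ℤ) * ((n - k - l + 1).choose 2 : ℕ) = ((n : ℤ) - k - l) * ((n : ℤ) - k - l + 1) := by
  rcases Nat.lt_or_ge n (k + l) with h1 | h1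
  · have e1 : n - k - l = 0 := by omega
    have e2 : (n : ℤ) - k - l = -1 := by omega
    rw [e1, e2]
    norm_num
  · obtain ⟨s, rfl⟩ : ∃ s, n = k + l + s := ⟨n - (k + l), by omega⟩
    have e1 : k + l + s - k - l = s := by omega
    rw [e1, choose_int]
    push_cast
    ring

/-- quadratic transformations preserve the expected dimension -/
theorem Quadratic.count {r : ℕ} {x x' : ℕ × (Fin r → ℕ)} (h : Quadratic x x') :
    (x.1 + 2).choose 2 + ∑ i, (x'.2 i + 1).choose 2 =
      (x'.1 + 2).choose 2 + ∑ i, (x.2 i + 1).choose 2 := by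
  classical
  obtain ⟨a, b, c, hab, hac, hbc, -, -, -, p1, p2, p3, hd, ea, eb, ec, hr⟩ := h
  have hsplit : ∀ f : Fin r → ℕ, ∑ i, f i = f a + f b + f c + ∑ i ∈ sml a b c, f i := by
    intro f
    rw [sum_offP {a, b, c} f, Finset.sum_insert, Finset.sum_insert, Finset.sum_singleton]
    · unfold sml
      ring
    · rw [Finset.mem_singleton]
      exact hbc
    · rw [Finset.mem_insert, Finset.mem_singleton, not_or]
      exact ⟨hab, hac⟩
  rw [hsplit, hsplit, ea, eb, ec]
  have h1 : ∑ i ∈ sml a b c, (x'.2 i + 1).choose 2 = ∑ i ∈ sml a b c, (x.2 i + 1).choose 2 := by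
    refine Finset.sum_congr rfl (fun i hi => ?_)
    rw [mem_sml] at hi
    rw [hr i hi.1 hi.2.1 hi.2.2]
  rw [h1]
  have k1 := choose_sub_int p3
  have k2 := choose_sub_int p2
  have k3 := choose_sub_int p1
  have k4 := choose_int (x.2 a)
  have k5 := choose_int (x.2 b)
  have k6 := choose_int (x.2 c)
  have k7 := choose_int (x.1 + 1)
  have k8 := choose_int (x'.1 + 1)
  have k9 : (x'.1 : ℤ) = 2 * x.1 - x.2 a - x.2 b - x.2 c := by omega
  push_cast at k7 k8
  have e2 : x.1 + 1 + 1 = x.1 + 2 := rfl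
  have e3 : x'.1 + 1 + 1 = x'.1 + 2 := rfl
  rw [e2] at k7
  rw [e3, k9] at k8
  zify
  linarith

/-- quadratic transformations do not decrease the dimension -/
theorem Quadratic.le {r : ℕ} {x x' : ℕ × (Fin r → ℕ)} (h : Quadratic x x') :
    hPm x.1 x.2 ≤ hPm x'.1 x'.2 := by
  obtain ⟨a, b, c, hab, hac, hbc, ha, hb, hc, p1, p2, p3, hd, ea, eb, ec, hr⟩ := h
  have hinj : Function.Injective ![a, b, c] := by
    intro i j hij
    fin_cases i <;> fin_cases j <;> simp_all
  have h1 := crem_hPm_le (D := x.1) (D' := x'.1) x.2 hinj (by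
    intro j
    fin_cases j
    · exact ha
    · exact hb
    · exact hc) (by
    change x'.1 + x.2 a + x.2 b + x.2 c = 2 * x.1
    exact hd)
  refine h1.trans (le_of_eq ?_)
  congr 1
  funext l
  by_cases hl : ∃ j, ![a, b, c] j = l
  · obtain ⟨j, rfl⟩ := hl
    rw [hinj.extend_apply]
    fin_cases j
    · change x'.1 - (x.1 - x.2 a) = x'.2 a
      omega
    · change x'.1 - (x.1 - x.2 b) = x'.2 b
      omega
    · change x'.1 - (x.1 - x.2 c) = x'.2 c
      omega
  · rw [Function.extend_apply' _ _ _ hl]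
    symm
    exact hr l (fun h => hl ⟨0, h.symm⟩) (fun h => hl ⟨1, h.symm⟩) (fun h => hl ⟨2, h.symm⟩)

/-- nonspeciality is inherited along quadratic transformations -/
theorem Quadratic.nonspecial {r : ℕ} {x x' : ℕ × (Fin r → ℕ)}
    (h : Relation.ReflTransGen Quadratic x x')
    (hx : hPm x'.1 x'.2 = (x'.1 + 2).choose 2 - ∑ i, (x'.2 i + 1).choose 2) :
    hPm x.1 x.2 = (x.1 + 2).choose 2 - ∑ i, (x.2 i + 1).choose 2 := by
  induction h using Relation.ReflTransGen.head_induction_on with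
  | refl => exact hx
  | @head x₁ x₂ h1 _ ih =>
    have h2 := h1.count
    have h3 := h1.le
    have h4 := hPm_count x₁.1 x₁.2
    omega

end Pool.Agent.Work.MP_0421d9_ag.LD
end

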