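import Pool.Agent.Work.Z0421M.C14
import Pool.Agent.Work.Z0421M.C21
import Pool.Agent.Work.Z0421M.C25
import Pool.Agent.Work.Z0421M.C27

section
/-!
A strip of the plane from a pool: the case distinction.
-/

namespace Pool.Agent.Work.MP_0421d9_ag.LD

open MvPolynomial Module

theorem StripGain.mono_all {r D G G' u u' : ℕ} {P P' : Finset (Fin r)} {y : Fin r → ℕ}
    (h : StripGain D G P y u) (hG : G ≤ G') (hP : P ⊆ P') (hu : u ≤ u') :
    StripGain D G' P' y u' := by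
  obtain ⟨κ, A, y', Su, h1, h2, h3, h4, h5, h6, h7⟩ := h
  exact ⟨κ, A, y', Su, h1, fun i hi => h2 i fun h => hi (hP h), h3, by omega, h5,
    h6.trans (Nat.mul_le_mul_right _ hG), h7.trans (Nat.mul_le_mul_right _ hG)⟩

/-- the case distinction; `hA` and `hB` are the conclusions of `plane_A` and `plane_B` -/
theorem plane_strip_aux {G₁ A₁ : ℕ} (hC2 : ∀ (p D r v : ℕ) (y : Fin r → ℕ) (P : Finset (Fin r)),
    (∀ i ∈ P, y i = v) → 4 * D ≤ ∑ i ∈ P, y i → 1 ≤ p → A₁ * p ^ 6 ≤ v → D ≤ 8 * v * (v + 1) →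
      v ^ 2 ≤ 4 * p ^ 2 * D → StripGain D G₁ P y v)
    {a p K G D s u r : ℕ} {P : ℕ → ℕ} {τ J : ℕ}
    (hP : Pools P (64 * p ^ 2) (100 * p ^ 2) τ J) (ha : 2 ≤ a) (hK : 2 ≤ K) (hp : 1 ≤ p)
    (hG : 2 ^ (2 * K + 8) ≤ G) (hG1 : G₁ ≤ G) {y : Fin r → ℕ} (hu : ∀ i, P (y i) = s → y i ≤ u)
    (hus : P u = s) (hu1 : 1 ≤ u) (hDu : (1000 * a * p + (16 * K * p) ^ 3) * u ≤ D)
    (hDu2 : 16 * A₁ * p ^ 6 * u ≤ D)
    (hs : 8 * D ≤ ∑ i ∈ Finset.univ.filter (fun i => P (y i) = s), y i)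
    (hA : 100 * p ^ 2 ≤ u → 4 * p ^ 2 * D ≤ u ^ 2 →
      (∀ i ∈ Finset.univ.filter (fun i => P (y i) = s), y i ≤ u ∧ u ≤ y i + u / p) →
      StripGain D (2 ^ (2 * K + 8)) (Finset.univ.filter (fun i => P (y i) = s)) y u)
    (hB : 100 * p ^ 2 ≤ u → u ^ 2 ≤ 4 * p ^ 2 * D →
      (∀ i ∈ Finset.univ.filter (fun i => P (y i) = s), y i ≤ u ∧ u ≤ y i + u / (64 * p ^ 2)) →
      (∀ v, ((Finset.univ.filter (fun i => P (y i) = s)).filter (fun i => y i = v)).card * v ≤
        4 * D) →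
      StripGain D 64 (Finset.univ.filter (fun i => P (y i) = s)) y u) :
    StripGain D G (Finset.univ.filter (fun i => P (y i) = s)) y u := by
  set S := Finset.univ.filter (fun i => P (y i) = s) with hS
  have hmem : ∀ i ∈ S, P (y i) = s := fun i hi => (Finset.mem_filter.1 hi).2
  have hle : ∀ i ∈ S, y i ≤ u := fun i hi => hu i (hmem i hi)
  have hw0 : ∀ i ∈ S, u ≤ y i + y i / (64 * p ^ 2) := fun i hi =>
    hP.width _ _ ((hmem i hi).trans hus.symm) (hle i hi)
  have hw : ∀ i ∈ S, u ≤ y i + u / (64 * p ^ 2) := fun i hi =>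
    (hw0 i hi).trans (Nat.add_le_add_left (Nat.div_le_div_right (hle i hi)) _)
  have hG32 : 64 ≤ G := by
    refine le_trans ?_ hG
    calc 64 = 2 ^ 6 := by norm_num
      _ ≤ 2 ^ (2 * K + 8) := Nat.pow_le_pow_right (by norm_num) (by omega)
  have hp2 : p ≤ 64 * p ^ 2 := by nlinarith
  have hap : 2000 * p ≤ 1000 * a * p := Nat.mul_le_mul_right _ (by omega)
  have hD1 : 1000 * a * p * u ≤ D := le_trans (Nat.mul_le_mul_right _ (by omega)) hDu
  have hD2 : 2000 * p * u ≤ D := (Nat.mul_le_mul_right _ hap).trans hD1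
  have hD3 : (32 * p) ^ 3 * u ≤ D := by
    refine le_trans (Nat.mul_le_mul_right _ ?_) hDu
    refine le_trans (Nat.pow_le_pow_left ?_ 3) (Nat.le_add_left _ _)
    exact Nat.mul_le_mul_right _ (by omega)
  rcases Nat.lt_or_ge (u ^ 2) (4 * p ^ 2 * D) with hcase | hcase
  · rcases Nat.lt_or_ge u (100 * p ^ 2) with hu100 | hu100
    · -- all multiplicities are equal and small
      have heq : ∀ i ∈ S, y i = u := fun i hi =>
        (hP.small u (y i) (hus.trans (hmem i hi).symm) hu100).symm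
      have hD8 : 8 * u * (u + 1) ≤ D := by
        have h1 : 8 * (u + 1) ≤ (32 * p) ^ 3 := by
          have h2 : p ^ 2 ≤ p ^ 3 := Nat.pow_le_pow_right hp (by norm_num)
          have h3 : (32 * p) ^ 3 = 32768 * p ^ 3 := by ring
          rw [h3]
          omega
        calc 8 * u * (u + 1) = 8 * (u + 1) * u := by ring
          _ ≤ (32 * p) ^ 3 * u := Nat.mul_le_mul_right _ h1
          _ ≤ D := hD3
      exact (plane_C1 S heq (by omega) hu1 hD8).mono_all (by omega) (Finset.Subset.refl _) le_rfl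
    · by_cases hcl : ∀ v, (S.filter (fun i => y i = v)).card * v ≤ 4 * D
      · refine (hB hu100 hcase.le (fun i hi => ⟨hle i hi, hw i hi⟩) hcl).mono_all hG32
          (Finset.Subset.refl _) le_rfl
      · push Not at hcl
        obtain ⟨v, hv⟩ := hcl
        set S' := S.filter (fun i => y i = v) with hS'
        have hv0 : 1 ≤ v := by
          rcases Nat.eq_zero_or_pos v with h | h
          · rw [h, Nat.mul_zero] at hv
            omega
          · exact h
        have hc0 : S'.Nonempty := by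
          rw [← Finset.card_pos]
          rcases Nat.eq_zero_or_pos S'.card with h | h
          · rw [h, Nat.zero_mul] at hv
            omega
          · exact h
        obtain ⟨i, hi⟩ := hc0
        have hiS := (Finset.mem_filter.1 hi).1
        have hiv := (Finset.mem_filter.1 hi).2
        have hvu : v ≤ u := by rw [← hiv]; exact hle i hiS
        have heq : ∀ i ∈ S', y i = v := fun i hi => (Finset.mem_filter.1 hi).2
        have hsum : ∑ i ∈ S', y i = S'.card * v := by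
          rw [Finset.sum_congr rfl heq, Finset.sum_const, smul_eq_mul]
        have hsub : S' ⊆ S := Finset.filter_subset _ _
        rcases Nat.lt_or_ge D (8 * v * (v + 1)) with hDv | hDv
        · refine (hC2 p D r v y S' heq (by omega) hp ?_ hDv.le ?_).mono_all hG1 hsub hvu
          · have h1 : 16 * (A₁ * p ^ 6) * v < 16 * v * v := by
              calc 16 * (A₁ * p ^ 6) * v = 16 * A₁ * p ^ 6 * v := by ring
                _ ≤ 16 * A₁ * p ^ 6 * u := Nat.mul_le_mul_left _ hvu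
                _ ≤ D := hDu2
                _ < 8 * v * (v + 1) := hDv
                _ ≤ 8 * v * (v + v) := Nat.mul_le_mul_left _ (by omega)
                _ = 16 * v * v := by ring
            have h2 := lt_of_mul_lt_mul_right h1 (Nat.zero_le v)
            omega
          · exact (Nat.pow_le_pow_left hvu 2).trans hcase.le
        · exact (plane_C1 S' heq (by omega) hv0 hDv).mono_all (by omega) hsub hvu
  · have hu100 : 100 * p ^ 2 ≤ u := by
      have h1 : 4 * p ^ 2 * (2000 * p) * u ≤ u * u := by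
        calc 4 * p ^ 2 * (2000 * p) * u = 4 * p ^ 2 * (2000 * p * u) := by ring
          _ ≤ 4 * p ^ 2 * D := Nat.mul_le_mul_left _ hD2
          _ ≤ u ^ 2 := hcase
          _ = u * u := sq u
      have h2 := le_of_mul_le_mul_right h1 hu1
      refine le_trans ?_ h2
      calc 100 * p ^ 2 = 4 * p ^ 2 * 25 := by ring
        _ ≤ 4 * p ^ 2 * (2000 * p) := Nat.mul_le_mul_left _ (by omega)
    refine (hA hu100 hcase (fun i hi => ⟨hle i hi, (hw i hi).trans ?_⟩)).mono_all hG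
      (Finset.Subset.refl _) le_rfl
    exact Nat.add_le_add_left (Nat.div_le_div_left hp2 hp) _

end Pool.Agent.Work.MP_0421d9_ag.LD
end

section
/-!
Strips of the plane, large multiplicities, from the cube lemma (helper63, after the plan of
helper69).
-/

namespace Pool.Agent.Work.MP_0421d9_ag.LD

theorem StripGain.mono {r D G G' u : ℕ} {P : Finset (Fin r)} {y : Fin r → ℕ} (h : G ≤ G')
    (hs : StripGain D G P y u) : StripGain D G' P y u := by
  obtain ⟨κ, A, y', Su, h1, h2, h3, h4, h5, h6, h7⟩ := hs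
  exact ⟨κ, A, y', Su, h1, h2, h3, h4, h5, h6.trans (Nat.mul_le_mul_right _ h),
    h7.trans (Nat.mul_le_mul_right _ h)⟩

theorem plane_A_of (hcube : CubeMiddle) {T q a p K D r u : ℕ} (hW : WinR T q a) (hT : 1 ≤ T)
    (hq : 2 ≤ q) (ha : 2 ≤ a) (hK : 2 ≤ K) (hp : 40 * q + 2 ^ (2 * K + 20) ≤ p)
    (hu : 100 * p ^ 2 ≤ u) (hD : (1000 * a * p + (16 * K * p) ^ 3) * u ≤ D)
    (hσ : 4 * p ^ 2 * D ≤ u ^ 2)
    (hKD : 2 ^ (K + 3) * (df K * (2 * u ^ 2) ^ K) ≤ D ^ (2 * K - 1)) (hTu : u ^ 2 ≤ T * D)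
    {y : Fin r → ℕ} (P : Finset (Fin r)) (hP : ∀ i ∈ P, y i ≤ u ∧ u ≤ y i + u / p)
    (hPs : 8 * D ≤ ∑ i ∈ P, y i) : StripGain D (2 ^ (2 * K + 8)) P y u := by
  rw [Nat.add_mul] at hD
  have hK2 : K < 2 ^ K := Nat.lt_two_pow_self
  have hK3 : 2 ^ K ≤ 2 ^ (2 * K + 20) := Nat.pow_le_pow_right (by norm_num) (by omega)
  have hp4 : 2 ^ 20 ≤ 2 ^ (2 * K + 20) := Nat.pow_le_pow_right (by norm_num) (by omega)
  obtain ⟨k, t, κ, e, hk2, hkK, he, heP, h1, h2, h3, h4⟩ := zpa_select hcube hK (by omega)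
    (by omega) hu (by omega) hσ hKD P hP hPs
  have h5 : 2 ^ 12 * 2 ^ (2 * k + 5) ≤ 2 ^ (2 * K + 20) := by
    rw [← pow_add]
    exact Nat.pow_le_pow_right (by norm_num) (by omega)
  have h6 := plane_middle (g := 2 ^ (2 * k + 5)) hW hT hq ha
    (Nat.pow_pos (by norm_num : 0 < 2)) (by omega) hu (by omega) hTu P hP e he heP h1 h2 h3 h4
  refine h6.mono ?_
  have e1 : 8 * 2 ^ (2 * k + 5) = 2 ^ (2 * k + 8) := by ring
  rw [e1]
  exact Nat.pow_le_pow_right (by norm_num) (by omega)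

end Pool.Agent.Work.MP_0421d9_ag.LD
end

section
/-!
The cube lemma (helper63, after the plan of helper69).
-/

namespace Pool.Agent.Work.MP_0421d9_ag.LD

/-- the inverse of the number of monomials and its derivatives -/
noncomputable def hinv (E : ℝ) : ℕ → ℝ → ℝ
  | 0, c => E - √(E ^ 2 - 2 * c)
  | (n + 1), c => df (n + 1) / √(E ^ 2 - 2 * c) ^ (2 * n + 1)

theorem hinv_sqrt {E t : ℝ} (h : 0 < E ^ 2 - 2 * t) :
    HasDerivAt (fun c => √(E ^ 2 - 2 * c)) (-1 / √(E ^ 2 - 2 * t)) t := by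
  have h1 : HasDerivAt (fun c : ℝ => E ^ 2 - 2 * c) (-2) t := by
    have := ((hasDerivAt_id t).const_mul 2).const_sub (E ^ 2)
    simpa using this
  have h2 := h1.sqrt h.ne'
  refine h2.congr_deriv ?_
  have h3 : √(E ^ 2 - 2 * t) ≠ 0 := (Real.sqrt_pos.mpr h).ne'
  field_simp

theorem hinv_deriv {E t : ℝ} (h : 0 < E ^ 2 - 2 * t) (n : ℕ) :
    HasDerivAt (hinv E n) (hinv E (n + 1) t) t := by
  have h0 := hinv_sqrt h
  have h3 : √(E ^ 2 - 2 * t) ≠ 0 := (Real.sqrt_pos.mpr h).ne'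
  cases n with
  | zero =>
    have h1 := h0.const_sub E
    refine h1.congr_deriv ?_
    change _ = ((df 1 : ℕ) : ℝ) / √(E ^ 2 - 2 * t) ^ (2 * 0 + 1)
    have e1 : df 1 = 1 := rfl
    rw [e1]
    field_simp
    simp
  | succ n =>
    have h1 := ((h0.pow (2 * n + 1)).inv (pow_ne_zero _ h3)).const_mul ((df (n + 1) : ℕ) : ℝ)
    have h2 : HasDerivAt (hinv E (n + 1)) _ t := h1.congr_of_eventuallyEq
      (Filter.Eventually.of_forall fun c => by
        change ((df (n + 1) : ℕ) : ℝ) / √(E ^ 2 - 2 * c) ^ (2 * n + 1) = _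
        rw [div_eq_mul_inv]
        rfl)
    refine h2.congr_deriv ?_
    change _ = ((df (n + 2) : ℕ) : ℝ) / √(E ^ 2 - 2 * t) ^ (2 * (n + 1) + 1)
    have e1 : df (n + 2) = (2 * n + 1) * df (n + 1) := by rw [df]
    rw [e1]
    push_cast
    simp only [Pi.pow_apply]
    field_simp
    ring

/-- rows as a real number -/
theorem frow_real {D κ : ℕ} (h : κ ≤ D + 2) :
    ((D : ℝ) + 3 / 2) ^ 2 - 2 * (Frow D κ : ℝ) = ((D : ℝ) + 3 / 2 - κ) ^ 2 := by
  have h1 := zf_two h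
  have h2 : (2 : ℝ) * Frow D κ + κ * κ = κ * (2 * D + 3) := by exact_mod_cast h1
  nlinarith

/-- the values at the numbers which are not in the middle of a row -/
theorem hinv_near {D C G : ℕ} (hD : 2000 ≤ D) (hG : 1 ≤ G) (hC : 128 * C ≤ D ^ 2)
    (hcon : ∀ κ, ¬ (D + G * Frow D κ ≤ G * C ∧ G * C + D ≤ G * Frow D (κ + 1))) :
    ∃ n : ℤ, |hinv ((D : ℝ) + 3 / 2) 0 C - n| ≤ 3 / 2 / G := by
  classical
  have hex : ∃ n, C < Frow D n := by
    refine ⟨D + 1, ?_⟩
    have h1 := zf_two (D := D) (κ := D + 1) (by omega)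
    have e1 : (D + 1) * (D + 1) = D ^ 2 + 2 * D + 1 := by ring
    have e2 : (D + 1) * (2 * D + 3) = 2 * D ^ 2 + 5 * D + 3 := by ring
    rw [e1, e2] at h1
    omega
  obtain ⟨n, hn, hmin⟩ : ∃ n, C < Frow D n ∧ ∀ m, m < n → Frow D m ≤ C :=
    ⟨Nat.find hex, Nat.find_spec hex, fun m hm => Nat.le_of_not_lt (Nat.find_min hex hm)⟩
  have hn0 : n ≠ 0 := by
    rintro rfl
    unfold Frow at hn
    simp at hn
  obtain ⟨κ, rfl⟩ : ∃ κ, n = κ + 1 := ⟨n - 1, by omega⟩
  have hκ := hmin κ (by omega)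
  have hκD : κ ≤ D := by
    by_contra hc
    have := zf_succ_le (D := D) (κ := κ) (by omega)
    omega
  have r0 := frow_real (D := D) (κ := κ) (by omega)
  have r1 := frow_real (D := D) (κ := κ + 1) (by omega)
  obtain ⟨E, hE⟩ : ∃ E : ℝ, E = (D : ℝ) + 3 / 2 := ⟨_, rfl⟩
  rw [← hE] at r0 r1 ⊢
  have hDr : (2000 : ℝ) ≤ D := by exact_mod_cast hD
  have hCr : (128 : ℝ) * C ≤ D ^ 2 := by exact_mod_cast hC
  have hκr : (κ : ℝ) ≤ D := by exact_mod_cast hκD
  have hκC : (Frow D κ : ℝ) ≤ C := by exact_mod_cast hκ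
  have hCκ : (C : ℝ) < Frow D (κ + 1) := by exact_mod_cast hn
  have hGr : (1 : ℝ) ≤ G := by exact_mod_cast hG
  push_cast at r1
  -- the square root
  obtain ⟨s, hs⟩ : ∃ s, s = √(E ^ 2 - 2 * (C : ℝ)) := ⟨_, rfl⟩
  have hpos : 0 ≤ E ^ 2 - 2 * (C : ℝ) := by rw [hE]; nlinarith
  have hs2 : s ^ 2 = E ^ 2 - 2 * C := by rw [hs]; exact Real.sq_sqrt hpos
  have hs0 : 0 ≤ s := by rw [hs]; exact Real.sqrt_nonneg _
  have hsD : 99 / 100 * D ≤ s := by
    refine abs_le_of_sq_le_sq' ?_ hs0 |>.2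
    rw [hs2, hE]
    nlinarith
  have hval : hinv E 0 C = E - s := by rw [hs]; rfl
  rw [hval]
  have a0 : 0 < E - κ := by rw [hE]; linarith
  have a1 : 0 < E - (κ + 1) := by rw [hE]; linarith
  -- comparison with the two integers
  have b0 : s ≤ E - κ := by
    refine abs_le_of_sq_le_sq' ?_ a0.le |>.2
    rw [hs2, ← r0]
    linarith
  have b1 : E - (κ + 1) ≤ s := by
    refine abs_le_of_sq_le_sq' ?_ hs0 |>.2
    rw [hs2, ← r1]
    linarith
  have hG0 : (0 : ℝ) < G := by linarith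
  rcases Nat.lt_or_ge (G * C) (D + G * Frow D κ) with h1 | h1
  · refine ⟨κ, ?_⟩
    have h2 : (G : ℝ) * C < D + G * Frow D κ := by exact_mod_cast h1
    have h3 : (E - κ - s) * (E - κ + s) = 2 * (C - Frow D κ) := by
      have : (E - κ - s) * (E - κ + s) = (E - κ) ^ 2 - s ^ 2 := by ring
      rw [this, hs2, ← r0]
      ring
    have h4 : (E - κ - s) * (3 / 2 * D) ≤ 2 * (C - Frow D κ) := by
      rw [← h3]
      exact mul_le_mul_of_nonneg_left (by linarith) (by linarith)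
    have h5 : G * ((E - κ - s) * (3 / 2 * D)) < 2 * D := by
      calc G * ((E - κ - s) * (3 / 2 * D)) ≤ G * (2 * (C - Frow D κ)) :=
            mul_le_mul_of_nonneg_left h4 hG0.le
        _ = 2 * (G * C - G * Frow D κ) := by ring
        _ < 2 * D := by linarith
    have h6 : G * (E - κ - s) ≤ 3 / 2 := by
      by_contra hc
      rw [not_le] at hc
      nlinarith
    have e1 : E - s - ((κ : ℤ) : ℝ) = E - κ - s := by push_cast; ring
    rw [e1, abs_of_nonneg (by linarith), le_div_iff₀ hG0]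
    linarith
  · have h1' : G * Frow D (κ + 1) < G * C + D := by
      by_contra hc
      exact hcon κ ⟨h1, by omega⟩
    refine ⟨κ + 1, ?_⟩
    have h2 : (G : ℝ) * Frow D (κ + 1) < G * C + D := by exact_mod_cast h1'
    have h3 : (s - (E - (κ + 1))) * (s + (E - (κ + 1))) = 2 * (Frow D (κ + 1) - C) := by
      have : (s - (E - (κ + 1))) * (s + (E - (κ + 1))) = s ^ 2 - (E - (κ + 1)) ^ 2 := by ring
      rw [this, hs2, ← r1]
      ring
    have h4 : (s - (E - (κ + 1))) * (3 / 2 * D) ≤ 2 * (Frow D (κ + 1) - C) := by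
      rw [← h3]
      exact mul_le_mul_of_nonneg_left (by linarith) (by linarith)
    have h5 : G * ((s - (E - (κ + 1))) * (3 / 2 * D)) < 2 * D := by
      calc G * ((s - (E - (κ + 1))) * (3 / 2 * D)) ≤ G * (2 * (Frow D (κ + 1) - C)) :=
            mul_le_mul_of_nonneg_left h4 hG0.le
        _ = 2 * (G * Frow D (κ + 1) - G * C) := by ring
        _ < 2 * D := by linarith
    have h6 : G * (s - (E - (κ + 1))) ≤ 3 / 2 := by
      by_contra hc
      rw [not_le] at hc
      nlinarith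
    have e1 : E - s - ((κ + 1 : ℤ) : ℝ) = -(s - (E - (κ + 1))) := by push_cast; ring
    rw [e1, abs_neg, abs_of_nonneg (by linarith), le_div_iff₀ hG0]
    linarith

theorem cube_middle_aux : CubeMiddle := by
  intro k D C₀ z hk hD x hx hC h1 h2
  by_contra hcon
  have hcon' : ∀ (J : Finset (Fin k)) (κ : ℕ),
      ¬ (D + 2 ^ (2 * k + 5) * Frow D κ ≤ 2 ^ (2 * k + 5) * (C₀ + ∑ j ∈ J, x j) ∧
        2 ^ (2 * k + 5) * (C₀ + ∑ j ∈ J, x j) + D ≤ 2 ^ (2 * k + 5) * Frow D (κ + 1)) :=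
    fun J κ h => hcon ⟨J, κ, h⟩
  obtain ⟨E, hE⟩ : ∃ E : ℝ, E = (D : ℝ) + 3 / 2 := ⟨_, rfl⟩
  have hDr : (1000 : ℝ) * k ≤ D := by exact_mod_cast hD
  have hkr : (2 : ℝ) ≤ k := by exact_mod_cast hk
  have hD0 : (0 : ℝ) < D := by linarith
  have hCr : (64 : ℝ) * k * (C₀ + ∑ j, (x j : ℝ)) ≤ D ^ 2 := by exact_mod_cast hC
  -- near integers
  obtain ⟨n, hn⟩ := itd_near (hinv E 0) (3 / 2 / ((2 ^ (2 * k + 5) : ℕ) : ℝ)) k
    (fun j => (x j : ℝ)) C₀ (fun J => by
      obtain ⟨n, hn⟩ := hinv_near (D := D) (C := C₀ + ∑ j ∈ J, x j) (G := 2 ^ (2 * k + 5))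
        (by omega) (Nat.pow_pos (by norm_num : 0 < 2)) (by
          have h3 : ∑ j ∈ J, x j ≤ ∑ j, x j := Finset.sum_le_sum_of_subset (Finset.subset_univ J)
          calc 128 * (C₀ + ∑ j ∈ J, x j) ≤ 128 * (C₀ + ∑ j, x j) := by omega
            _ ≤ 64 * k * (C₀ + ∑ j, x j) := Nat.mul_le_mul_right _ (by omega)
            _ ≤ D ^ 2 := hC) (hcon' J)
      refine ⟨n, ?_⟩
      rw [hE]
      push_cast at hn ⊢
      exact hn)
  -- bounds
  obtain ⟨β, hβ⟩ : ∃ β : ℝ, β = D * (1 - 1 / (32 * k)) := ⟨_, rfl⟩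
  have hk32 : (1 : ℝ) / (32 * k) ≤ 1 / 64 := by
    apply one_div_le_one_div_of_le <;> linarith
  have hk32' : (0 : ℝ) < 1 / (32 * k) := by positivity
  have hβ0 : 0 < β := by
    rw [hβ]
    exact mul_pos hD0 (by linarith)
  have hE0 : 0 < E := by rw [hE]; linarith
  have hzpos : 0 < z := by
    rcases Nat.eq_zero_or_pos z with h0 | h0
    · exfalso
      subst h0
      rw [zero_pow (by omega), Nat.mul_zero, Nat.mul_zero] at h1
      have : 0 < D ^ (2 * k - 1) := Nat.pow_pos (by omega)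
      omega
    · exact h0
  have hx0 : ∀ j, 0 < (x j : ℝ) := fun j => by
    have := (hx j).1
    exact_mod_cast (by omega : 0 < x j)
  have hsq : ∀ t : ℝ, t ≤ C₀ + ∑ j, (x j : ℝ) → β ^ 2 ≤ E ^ 2 - 2 * t := by
    intro t ht
    have h3 : 2 * t ≤ D ^ 2 * (1 / (32 * k)) := by
      have h4 : 64 * (k : ℝ) * t ≤ D ^ 2 := by
        refine le_trans ?_ hCr
        exact mul_le_mul_of_nonneg_left ht (by positivity)
      rw [mul_one_div, le_div_iff₀ (by positivity)]
      linarith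
    rw [hβ, hE]
    have h5 : (0 : ℝ) ≤ D ^ 2 * (1 / (32 * k)) * (1 - 1 / (32 * k)) :=
      mul_nonneg (mul_nonneg (by positivity) hk32'.le) (by linarith)
    nlinarith
  obtain ⟨i, hi⟩ : ∃ i, k = i + 1 := ⟨k - 1, by omega⟩
  have e21 : 2 * k - 1 = 2 * i + 1 := by omega
  have hdf0 : (0 : ℝ) < df k := by exact_mod_cast zpa_df_pos k
  have hb := itd_bounds (a := (C₀ : ℝ)) (b := C₀ + ∑ j, (x j : ℝ)) k (hinv E)
    ((df k : ℝ) / E ^ (2 * k - 1)) ((df k : ℝ) / β ^ (2 * k - 1)) (fun j => (x j : ℝ)) C₀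
    (fun n _ t ht => hinv_deriv (lt_of_lt_of_le (by positivity) (hsq t ht.2)) n)
    (fun t ht => by
      have h3 := hsq t ht.2
      have h4 : β ≤ √(E ^ 2 - 2 * t) := Real.le_sqrt_of_sq_le h3
      have h5 : √(E ^ 2 - 2 * t) ≤ E := by
        rw [Real.sqrt_le_left hE0.le]
        have : (0 : ℝ) ≤ C₀ := by positivity
        have := ht.1
        linarith
      have e3 : hinv E k t = (df k : ℝ) / √(E ^ 2 - 2 * t) ^ (2 * k - 1) := by
        rw [e21, hi]
        rfl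
      rw [e3]
      constructor
      · exact div_le_div_of_nonneg_left hdf0.le (pow_pos (lt_of_lt_of_le hβ0 h4) _)
          (pow_le_pow_left₀ (Real.sqrt_nonneg _) h5 _)
      · exact div_le_div_of_nonneg_left hdf0.le (pow_pos hβ0 _)
          (pow_le_pow_left₀ hβ0.le h4 _)) hx0 le_rfl le_rfl
  obtain ⟨hb1, hb2⟩ := hb
  -- products
  have hp1 : (z : ℝ) ^ k ≤ ∏ j, (x j : ℝ) := by
    have h3 : ∏ _j : Fin k, (z : ℝ) ≤ ∏ j, (x j : ℝ) :=
      Finset.prod_le_prod (fun _ _ => by positivity) (fun j _ => by exact_mod_cast (hx j).1)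
    rwa [Finset.prod_const, Finset.card_univ, Fintype.card_fin] at h3
  have hp2 : ∏ j, (x j : ℝ) ≤ (2 * (z : ℝ)) ^ k := by
    have h3 : ∏ j, (x j : ℝ) ≤ ∏ _j : Fin k, (2 * (z : ℝ)) :=
      Finset.prod_le_prod (fun _ _ => by positivity) (fun j _ => by exact_mod_cast (hx j).2)
    rwa [Finset.prod_const, Finset.card_univ, Fintype.card_fin] at h3
  have h1r : (D : ℝ) ^ (2 * k - 1) ≤ 2 ^ (k + 4) * (df k * z ^ k) := by exact_mod_cast h1
  have h2r : (2 : ℝ) ^ (k + 2) * (df k * z ^ k) ≤ (D : ℝ) ^ (2 * k - 1) := by exact_mod_cast h2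
  have hDp : (0 : ℝ) < (D : ℝ) ^ (2 * k - 1) := by positivity
  -- the lower bound
  have hlow : 9 / 10 / 2 ^ (k + 4) ≤ itd (hinv E 0) k (fun j => (x j : ℝ)) C₀ := by
    refine le_trans ?_ hb1
    have h3 : 9 / 10 * E ^ (2 * k - 1) ≤ (D : ℝ) ^ (2 * k - 1) := by
      have h4 : (1 : ℝ) + ((2 * k - 1 : ℕ) : ℝ) * (-(3 / 2) / E) ≤ (1 + -(3 / 2) / E) ^ (2 * k - 1) := by
        apply one_add_mul_le_pow
        rw [div_eq_mul_inv]
        have : E⁻¹ ≤ 1 := inv_le_one_of_one_le₀ (by rw [hE]; linarith)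
        nlinarith
      have h5 : 1 + -(3 / 2) / E = D / E := by
        field_simp
        rw [hE]
        ring
      rw [h5, div_pow] at h4
      have h6 : (9 / 10 : ℝ) ≤ 1 + ((2 * k - 1 : ℕ) : ℝ) * (-(3 / 2) / E) := by
        have h7 : ((2 * k - 1 : ℕ) : ℝ) ≤ 2 * k := by
          have : 2 * k - 1 ≤ 2 * k := by omega
          exact_mod_cast this
        have h8 : ((2 * k - 1 : ℕ) : ℝ) * ((3 / 2) / E) ≤ 1 / 10 := by
          rw [mul_div_assoc', div_le_iff₀ hE0, hE]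
          linarith
        have e3 : ((2 * k - 1 : ℕ) : ℝ) * (-(3 / 2) / E) = -(((2 * k - 1 : ℕ) : ℝ) * ((3 / 2) / E)) := by
          ring
        rw [e3]
        linarith
      have h9 := h6.trans h4
      rwa [le_div_iff₀ (by positivity)] at h9
    calc 9 / 10 / 2 ^ (k + 4) = 9 / 10 * E ^ (2 * k - 1) / (2 ^ (k + 4) * E ^ (2 * k - 1)) := by
          field_simp
      _ ≤ (2 ^ (k + 4) * (df k * z ^ k)) / (2 ^ (k + 4) * E ^ (2 * k - 1)) := by
          apply div_le_div_of_nonneg_right (h3.trans h1r) (by positivity)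
      _ = (df k : ℝ) / E ^ (2 * k - 1) * z ^ k := by field_simp
      _ ≤ (df k : ℝ) / E ^ (2 * k - 1) * ∏ j, (x j : ℝ) :=
          mul_le_mul_of_nonneg_left hp1 (by positivity)
  -- the upper bound
  have hupp : itd (hinv E 0) k (fun j => (x j : ℝ)) C₀ ≤ 3 / 10 := by
    refine hb2.trans ?_
    have h3 : 15 / 16 * (D : ℝ) ^ (2 * k - 1) ≤ β ^ (2 * k - 1) := by
      have h4 : (1 : ℝ) + ((2 * k - 1 : ℕ) : ℝ) * (-(1 / (32 * k))) ≤
          (1 + -(1 / (32 * k))) ^ (2 * k - 1) := one_add_mul_le_pow (by linarith) _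
      have h6 : (15 / 16 : ℝ) ≤ 1 + ((2 * k - 1 : ℕ) : ℝ) * (-(1 / (32 * k))) := by
        have h7 : ((2 * k - 1 : ℕ) : ℝ) ≤ 2 * k := by
          have : 2 * k - 1 ≤ 2 * k := by omega
          exact_mod_cast this
        have h8 : ((2 * k - 1 : ℕ) : ℝ) * (1 / (32 * k)) ≤ 1 / 16 := by
          rw [mul_one_div, div_le_iff₀ (by positivity)]
          linarith
        linarith
      rw [hβ, mul_pow]
      have h9 := h6.trans h4
      have e3 : (1 : ℝ) + -(1 / (32 * k)) = 1 - 1 / (32 * k) := by ring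
      rw [e3] at h9
      calc 15 / 16 * (D : ℝ) ^ (2 * k - 1) = (D : ℝ) ^ (2 * k - 1) * (15 / 16) := by ring
        _ ≤ (D : ℝ) ^ (2 * k - 1) * (1 - 1 / (32 * k)) ^ (2 * k - 1) :=
          mul_le_mul_of_nonneg_left h9 hDp.le
    calc (df k : ℝ) / β ^ (2 * k - 1) * ∏ j, (x j : ℝ)
        ≤ (df k : ℝ) / β ^ (2 * k - 1) * (2 * (z : ℝ)) ^ k :=
          mul_le_mul_of_nonneg_left hp2 (by positivity)
      _ = (2 ^ (k + 2) * (df k * z ^ k)) / (4 * β ^ (2 * k - 1)) := by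
          rw [mul_pow]
          field_simp
          ring
      _ ≤ (D : ℝ) ^ (2 * k - 1) / (4 * β ^ (2 * k - 1)) :=
          div_le_div_of_nonneg_right h2r (by positivity)
      _ ≤ 3 / 10 := by
          rw [div_le_iff₀ (by positivity)]
          linarith
  -- contradiction
  have hδ : 2 ^ k * (3 / 2 / ((2 ^ (2 * k + 5) : ℕ) : ℝ)) = 3 / 4 / 2 ^ (k + 4) := by
    have e3 : 2 * k + 5 = k + (k + 4) + 1 := by ring
    rw [e3]
    push_cast
    rw [pow_succ, pow_add]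
    field_simp
    norm_num
  rw [hδ] at hn
  have h64 : (3 : ℝ) / 4 / 2 ^ (k + 4) ≤ 3 / 4 / 64 := by
    apply div_le_div_of_nonneg_left (by norm_num) (by norm_num)
    calc (64 : ℝ) = 2 ^ (2 + 4) := by norm_num
      _ ≤ 2 ^ (k + 4) := pow_le_pow_right₀ (by norm_num) (by omega)
  have hcmp : (3 : ℝ) / 4 / 2 ^ (k + 4) < 9 / 10 / 2 ^ (k + 4) := by
    apply div_lt_div_of_pos_right (by norm_num) (by positivity)
  rw [abs_le] at hn
  have hn1 : (0 : ℝ) < n := by linarith [hn.1, hn.2]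
  have hn2 : (1 : ℝ) ≤ n := by
    have : (0 : ℤ) < n := by exact_mod_cast hn1
    exact_mod_cast (by omega : (1 : ℤ) ≤ n)
  linarith [hn.1, hn.2]

end Pool.Agent.Work.MP_0421d9_ag.LD
end

section
/-!
Strips of the plane, large multiplicities (helper63, after the plan of helper69).
-/

namespace Pool.Agent.Work.MP_0421d9_ag.LD

theorem plane_A {T q a p K D r u : ℕ} (hW : WinR T q a) (hT : 1 ≤ T) (hq : 2 ≤ q) (ha : 2 ≤ a)
    (hK : 2 ≤ K) (hp : 40 * q + 2 ^ (2 * K + 20) ≤ p) (hu : 100 * p ^ 2 ≤ u)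
    (hD : (1000 * a * p + (16 * K * p) ^ 3) * u ≤ D) (hσ : 4 * p ^ 2 * D ≤ u ^ 2)
    (hKD : 2 ^ (K + 3) * (df K * (2 * u ^ 2) ^ K) ≤ D ^ (2 * K - 1)) (hTu : u ^ 2 ≤ T * D)
    {y : Fin r → ℕ} (P : Finset (Fin r)) (hP : ∀ i ∈ P, y i ≤ u ∧ u ≤ y i + u / p)
    (hPs : 8 * D ≤ ∑ i ∈ P, y i) : StripGain D (2 ^ (2 * K + 8)) P y u :=
  plane_A_of cube_middle_aux hW hT hq ha hK hp hu hD hσ hKD hTu P hP hPs

end Pool.Agent.Work.MP_0421d9_ag.LD
end

section
/-!
Strips of the plane for moderate multiplicities, not all equal: the points are exchanged one after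
the other until the strip ends in the middle of a row (helper37, after the plan of helper69).
-/

namespace Pool.Agent.Work.MP_0421d9_ag.LD

open MvPolynomial Module

/-! ### enumeration by increasing multiplicity -/

theorem zb_enum {r : ℕ} (P : Finset (Fin r)) (y : Fin r → ℕ) (hs : 0 < P.card) :
    ∃ b : ℕ → Fin r, (∀ l, l < P.card → b l ∈ P) ∧
      (∀ l, l < P.card → ∀ l', l' < P.card → b l = b l' → l = l') ∧
      ∀ l l', l ≤ l' → l' < P.card → y (b l) ≤ y (b l') := by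
  classical
  let φ : Fin P.card ≃ P := P.equivFin.symm
  let f : Fin P.card → ℕ := fun i => y (φ i)
  let σ := Tuple.sort f
  have hσ : Monotone (f ∘ σ) := Tuple.monotone_sort f
  refine ⟨fun l => if h : l < P.card then (φ (σ ⟨l, h⟩) : Fin r) else φ (σ ⟨0, hs⟩), ?_, ?_, ?_⟩
  · intro l hl
    simp only [dif_pos hl]
    exact (φ _).2
  · intro l hl l' hl' h
    simp only [dif_pos hl, dif_pos hl'] at h
    have h1 := σ.injective (φ.injective (Subtype.ext h))
    exact congrArg Fin.val h1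
  · intro l l' hll hl'
    have hl : l < P.card := lt_of_le_of_lt hll hl'
    simp only [dif_pos hl, dif_pos hl']
    exact hσ (show (⟨l, hl⟩ : Fin P.card) ≤ ⟨l', hl'⟩ from hll)

theorem zb_strict {r n : ℕ} {P : Finset (Fin r)} {y : Fin r → ℕ} {b : ℕ → Fin r}
    (hb : ∀ l, l < P.card → b l ∈ P)
    (hinj : ∀ l, l < P.card → ∀ l', l' < P.card → b l = b l' → l = l')
    (hmono : ∀ l l', l ≤ l' → l' < P.card → y (b l) ≤ y (b l'))
    (hn : ∀ i ∈ P, (P.filter (fun j => y j = y i)).card ≤ n) {l : ℕ} (hl : l + n < P.card) :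
    y (b l) < y (b (l + n)) := by
  classical
  by_contra hcon
  push Not at hcon
  have hl0 : l < P.card := by omega
  have h1 := hn (b l) (hb l hl0)
  have h2 : (Finset.range (n + 1)).card ≤ (P.filter (fun j => y j = y (b l))).card := by
    refine Finset.card_le_card_of_injOn (fun m => b (l + m)) ?_ ?_
    · intro m hm
      have hm' : m < n + 1 := Finset.mem_range.1 (Finset.mem_coe.1 hm)
      refine Finset.mem_coe.2 (Finset.mem_filter.2 ⟨hb _ (by omega), ?_⟩)
      exact le_antisymm ((hmono (l + m) (l + n) (by omega) hl).trans hcon)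
        (hmono l (l + m) (by omega) (by omega))
    · intro m hm m' hm' h
      have h3 : m < n + 1 := Finset.mem_range.1 (Finset.mem_coe.1 hm)
      have h4 : m' < n + 1 := Finset.mem_range.1 (Finset.mem_coe.1 hm')
      have := hinj (l + m) (by omega) (l + m') (by omega) h
      omega
  rw [Finset.card_range] at h2
  omega

/-! ### the chain of exchanges -/

/-- after `k` exchanges -/
def zbC (N n : ℕ) (c : ℕ → ℕ) (k : ℕ) : ℕ := ∑ l ∈ Finset.range N, c (if l < k then l + n else l)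

theorem zbC_succ {N n : ℕ} (c : ℕ → ℕ) {k : ℕ} (hk : k < N) :
    zbC N n c (k + 1) + c k = zbC N n c k + c (k + n) := by
  unfold zbC
  rw [← Finset.add_sum_erase (Finset.range N) (fun l => c (if l < k + 1 then l + n else l))
      (Finset.mem_range.2 hk),
    ← Finset.add_sum_erase (Finset.range N) (fun l => c (if l < k then l + n else l))
      (Finset.mem_range.2 hk)]
  simp only [if_pos (Nat.lt_succ_self k), if_neg (lt_irrefl k)]
  have h : ∑ l ∈ (Finset.range N).erase k, c (if l < k + 1 then l + n else l) =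
      ∑ l ∈ (Finset.range N).erase k, c (if l < k then l + n else l) := by
    refine Finset.sum_congr rfl fun l hl => ?_
    have hne := Finset.ne_of_mem_erase hl
    by_cases h1 : l < k
    · rw [if_pos h1, if_pos (by omega)]
    · rw [if_neg h1, if_neg (by omega)]
  rw [h]
  ring

/-- discrete intermediate value theorem -/
theorem zb_ivt {C : ℕ → ℕ} {N A δ : ℕ} (h0 : 8 * C 0 < A) (hN : A ≤ 8 * C N)
    (hstep : ∀ k, k < N → C (k + 1) ≤ C k + δ) :
    ∃ k, k ≤ N ∧ A ≤ 8 * C k ∧ 8 * C k < A + 8 * δ := by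
  classical
  have hex : ∃ k, A ≤ 8 * C k := ⟨N, hN⟩
  have h1 := Nat.find_spec hex
  have h2 : Nat.find hex ≤ N := Nat.find_min' hex hN
  have h3 : Nat.find hex ≠ 0 := by
    intro h
    rw [h] at h1
    omega
  obtain ⟨m, hm⟩ := Nat.exists_eq_succ_of_ne_zero h3
  rw [hm] at h1 h2
  have h4 : ¬ A ≤ 8 * C m := Nat.find_min hex (by omega)
  have h5 := hstep m (by omega)
  refine ⟨m + 1, h2, h1, ?_⟩
  have : C (m + 1) ≤ C m + δ := h5
  omega

theorem zb_row {D κ : ℕ} (h : κ ≤ D) : Frow D (κ + 1) + κ = Frow D κ + (D + 1) := by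
  have h1 := Frow_int (D := D) (κ := κ) (by omega)
  have h2 := Frow_int (D := D) (κ := κ + 1) (by omega)
  push_cast at h2
  have h3 : 2 * ((Frow D (κ + 1) : ℤ) + κ) = 2 * ((Frow D κ : ℤ) + (D + 1)) := by
    linear_combination h2 - h1
  have h4 : (Frow D (κ + 1) : ℤ) + κ = (Frow D κ : ℤ) + (D + 1) := by linarith
  exact_mod_cast h4

/-- some set of the chain ends in the middle of a row -/
theorem zb_middle {C : ℕ → ℕ} {N D κ₀ δ : ℕ} (hD : 64 ≤ D) (hκ : 8 * (κ₀ + 1) ≤ D)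
    (h0 : Frow D κ₀ ≤ C 0) (h1 : C 0 < Frow D (κ₀ + 1)) (hδ : 14 * δ ≤ D)
    (hstep : ∀ k, k < N → C (k + 1) ≤ C k + δ) (hN : C 0 + D ≤ C N) :
    ∃ k κ, k ≤ N ∧ (κ = κ₀ ∨ κ = κ₀ + 1) ∧ D + 8 * Frow D κ ≤ 8 * C k ∧
      8 * C k + D ≤ 8 * Frow D (κ + 1) := by
  have hr0 := zb_row (D := D) (κ := κ₀) (by omega)
  have hr1 := zb_row (D := D) (κ := κ₀ + 1) (by omega)
  by_cases hA : 8 * C 0 < D + 8 * Frow D κ₀
  · obtain ⟨k, hk, h2, h3⟩ := zb_ivt hA (by omega) hstep
    exact ⟨k, κ₀, hk, Or.inl rfl, h2, by omega⟩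
  · by_cases hB : 8 * C 0 + D ≤ 8 * Frow D (κ₀ + 1)
    · exact ⟨0, κ₀, Nat.zero_le _, Or.inl rfl, by omega, hB⟩
    · obtain ⟨k, hk, h2, h3⟩ := zb_ivt (C := C) (N := N) (A := D + 8 * Frow D (κ₀ + 1)) (δ := δ)
        (by omega) (by omega) hstep
      exact ⟨k, κ₀ + 1, hk, Or.inr rfl, h2, by omega⟩

/-! ### numbers -/

/-- the numbers -/
structure ZB (p u D ω η N n : ℕ) : Prop where
  p0 : 2 ^ 20 ≤ p
  ω1 : p * ω ≤ u
  ω2 : u < p * ω + p
  η1 : 64 * p ^ 2 * η ≤ u
  u0 : 100 * p ^ 2 ≤ u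
  D0 : 2000 * (p * u) ≤ D
  D1 : u ^ 2 ≤ 4 * p ^ 2 * D
  N1 : N * (u * (u + 1)) ≤ 2 * ((u + 3 * ω) * D) + u * (u + 1)
  N2 : 2 * ((u + 3 * ω) * D) ≤ N * (u * (u + 1)) + u * (u + 1)
  n1 : n * (u - η) ≤ 4 * D
  n2 : ∀ m, m * (u - η) ≤ 4 * D → m ≤ n

namespace ZB

variable {p u D ω η N n : ℕ} (h : ZB p u D ω η N n)

include h

theorem pp : 2 ^ 20 * p ≤ p ^ 2 := by
  rw [pow_two]
  exact Nat.mul_le_mul_right p h.p0

theorem ω3 : 2 ^ 20 * ω ≤ u := (Nat.mul_le_mul_right ω h.p0).trans h.ω1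

theorem η3 : 2 ^ 20 * η ≤ u := by
  have h1 : 2 ^ 20 ≤ 64 * p ^ 2 := by
    have := h.p0
    have := h.pp
    omega
  exact (Nat.mul_le_mul_right η h1).trans h.η1

theorem ω4 : 1 ≤ ω := by
  by_contra hc
  have h1 : ω = 0 := by omega
  have h2 := h.ω2
  rw [h1] at h2
  have := h.u0
  have := h.pp
  have := h.p0
  omega

theorem ηω : 64 * p * η ≤ ω := by
  by_contra hc
  push Not at hc
  have h1 : p * (ω + 1) ≤ p * (64 * p * η) := Nat.mul_le_mul_left p hc
  have h2 : p * (64 * p * η) = 64 * p ^ 2 * η := by ring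
  have h3 := h.η1
  have h4 := h.ω2
  rw [mul_add, mul_one] at h1
  omega

theorem uu : u * (u + 1) ≤ ω * D := by
  have h1 : ω * (2000 * (p * u)) ≤ ω * D := Nat.mul_le_mul_left ω h.D0
  have h2 : ω * (2000 * (p * u)) = 2000 * ((p * ω) * u) := by ring
  have h3 : u + 1 ≤ 2000 * (p * ω) := by
    have := h.ω2
    have h4 : p ≤ p * ω := Nat.le_mul_of_pos_right p h.ω4
    omega
  have h5 : (u + 1) * u ≤ 2000 * (p * ω) * u := Nat.mul_le_mul_right u h3
  have h6 : 2000 * (p * ω) * u = 2000 * ((p * ω) * u) := by ring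
  have h7 : u * (u + 1) = (u + 1) * u := by ring
  omega

theorem Du : 2000 * u ≤ D := by
  have h1 : u ≤ p * u := Nat.le_mul_of_pos_left u (by have := h.p0; omega)
  have := h.D0
  omega

theorem F1 : 10 * (N * (u + 1)) ≤ 21 * D := by
  have h1 := h.N1
  have hu : 0 < u := by have := h.u0; have := h.pp; have := h.p0; omega
  have h2 : 10 * (N * (u + 1)) * u ≤ 21 * D * u := by
    have h3 : 10 * (N * (u + 1)) * u = 10 * (N * (u * (u + 1))) := by ring
    have h4 : 120 * ω ≤ u := by have := h.ω3; omega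
    have h5 : 120 * ω * D ≤ u * D := Nat.mul_le_mul_right D h4
    have h6 : 20 * (u + 1) ≤ D := by have := h.Du; omega
    have h7 : 20 * (u + 1) * u ≤ D * u := Nat.mul_le_mul_right u h6
    have h8 : 2 * ((u + 3 * ω) * D) = 2 * (u * D) + 6 * (ω * D) := by ring
    have h9 : 120 * ω * D = 120 * (ω * D) := by ring
    have h10 : 20 * (u + 1) * u = 20 * (u * (u + 1)) := by ring
    have h11 : 21 * D * u = 21 * (u * D) := by ring
    have h12 : D * u = u * D := by ring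
    omega
  exact Nat.le_of_mul_le_mul_right h2 hu

theorem F2 : 2 * D ≤ N * (u + 1) := by
  have h1 := h.N2
  have hu : 0 < u := by have := h.u0; have := h.pp; have := h.p0; omega
  have h2 : 2 * D * u ≤ N * (u + 1) * u := by
    have h3 : N * (u + 1) * u = N * (u * (u + 1)) := by ring
    have h8 : 2 * ((u + 3 * ω) * D) = 2 * (u * D) + 6 * (ω * D) := by ring
    have h4 := h.uu
    have h11 : 2 * D * u = 2 * (u * D) := by ring
    omega
  exact Nat.le_of_mul_le_mul_right h2 hu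

theorem ηu : η ≤ u := by have := h.η3; omega

/-- `(u - η) (u - η + 1) ≥ u (u + 1) - η (2 u + 1)` -/
theorem sq : u * (u + 1) ≤ (u - η) * (u - η + 1) + η * (2 * u + 1) := by
  obtain ⟨w, hw⟩ := Nat.exists_eq_add_of_le h.ηu
  have h1 : u - η = w := by omega
  rw [h1, hw]
  nlinarith

theorem step : 7 * (η * (2 * u + 1)) ≤ D := by
  have hp0 : 0 < 64 * p ^ 2 := by have := h.p0; positivity
  have h1 : 64 * p ^ 2 * (7 * (η * (2 * u + 1))) ≤ 64 * p ^ 2 * D := by
    have h2 : 64 * p ^ 2 * (7 * (η * (2 * u + 1))) = 7 * ((64 * p ^ 2 * η) * (2 * u + 1)) := by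
      ring
    have h3 : (64 * p ^ 2 * η) * (2 * u + 1) ≤ u * (2 * u + 1) :=
      Nat.mul_le_mul_right _ h.η1
    have h4 : 7 * (u * (2 * u + 1)) = 14 * u ^ 2 + 7 * u := by ring
    have h5 := h.D1
    have h6 : 64 * p ^ 2 * D = 16 * (4 * p ^ 2 * D) := by ring
    have h7 : D ≤ p ^ 2 * D := Nat.le_mul_of_pos_left D (by have := h.p0; positivity)
    have h8 : 4 * p ^ 2 * D = 4 * (p ^ 2 * D) := by ring
    have h9 := h.Du
    omega
  exact Nat.le_of_mul_le_mul_left h1 hp0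

theorem low : 2 * ((u + 2 * ω) * D) ≤ N * ((u - η) * (u - η + 1)) := by
  have h1 : N * (u * (u + 1)) ≤ N * ((u - η) * (u - η + 1)) + N * (η * (2 * u + 1)) := by
    rw [← mul_add]
    exact Nat.mul_le_mul_left N h.sq
  have h2 : N * (η * (2 * u + 1)) ≤ ω * D := by
    have h3 : N * (η * (2 * u + 1)) ≤ 2 * (η * (N * (u + 1))) := by
      have h4 : 2 * (η * (N * (u + 1))) = N * (η * (2 * u + 1)) + N * η := by ring
      omega
    have h5 : η * (10 * (N * (u + 1))) ≤ η * (21 * D) := Nat.mul_le_mul_left η h.F1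
    have h6 : 64 * η ≤ ω := by
      have h7 : 64 * η ≤ 64 * p * η := by
        have : 64 * 1 ≤ 64 * p := Nat.mul_le_mul_left 64 (by have := h.p0; omega)
        exact Nat.mul_le_mul_right η this
      exact h7.trans h.ηω
    have h8 : 64 * η * D ≤ ω * D := Nat.mul_le_mul_right D h6
    have h9 : η * (10 * (N * (u + 1))) = 10 * (η * (N * (u + 1))) := by ring
    have h10 : η * (21 * D) = 21 * (η * D) := by ring
    have h11 : 64 * η * D = 64 * (η * D) := by ring
    omega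
  have h3 := h.N2
  have h4 := h.uu
  have h5 : 2 * ((u + 3 * ω) * D) = 2 * (u * D) + 6 * (ω * D) := by ring
  have h6 : 2 * ((u + 2 * ω) * D) = 2 * (u * D) + 4 * (ω * D) := by ring
  omega

theorem tot : D ≤ N * (u - η) := by
  have h1 : N * (u + 1) ≤ 2 * (N * (u - η)) := by
    have h2 : u + 1 ≤ 2 * (u - η) := by have := h.η3; have := h.u0; have := h.pp; have := h.p0; omega
    have h3 := Nat.mul_le_mul_left N h2
    have h4 : N * (2 * (u - η)) = 2 * (N * (u - η)) := by ring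
    omega
  have := h.F2
  omega

theorem Nn : N ≤ n := by
  refine h.n2 N ?_
  have h1 : N * (u - η) ≤ N * (u + 1) := Nat.mul_le_mul_left N (by omega)
  have := h.F1
  omega

theorem count {s S : ℕ} (h1 : S ≤ s * u) (h2 : 8 * D ≤ S) : N + n ≤ s := by
  have hu : 0 < u := by have := h.u0; have := h.pp; have := h.p0; omega
  have h3 : (N + n) * u ≤ s * u := by
    have h4 : N * u ≤ N * (u + 1) := Nat.mul_le_mul_left N (by omega)
    have h5 := h.F1
    have h6 : n * u = n * (u - η) + n * η := by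
      rw [← mul_add, Nat.sub_add_cancel h.ηu]
    have h7 : 100 * η ≤ u - η := by have := h.η3; omega
    have h8 : n * (100 * η) ≤ n * (u - η) := Nat.mul_le_mul_left n h7
    have h9 : n * (100 * η) = 100 * (n * η) := by ring
    have h10 := h.n1
    have h11 : (N + n) * u = N * u + n * u := by ring
    omega
  exact Nat.le_of_mul_le_mul_right h3 hu

/-- `C < F (u + 5 ω)` -/
theorem high {C : ℕ} (hC : 2 * C ≤ N * (u * (u + 1))) : C < Frow D (u + 5 * ω) := by
  have hK : u + 5 * ω ≤ D + 1 := by have := h.ω3; have := h.Du; omega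
  have h1 := Frow_int (D := D) (κ := u + 5 * ω) hK
  have h2 := h.N1
  have h3 := h.uu
  -- `ω D ≥ 1000 u (u + 1)`
  have h4 : 1000 * (u * (u + 1)) ≤ ω * D := by
    have h1 : ω * (2000 * (p * u)) ≤ ω * D := Nat.mul_le_mul_left ω h.D0
    have h2 : ω * (2000 * (p * u)) = 1000 * ((2 * (p * ω)) * u) := by ring
    have h3 : u + 1 ≤ 2 * (p * ω) := by
      have := h.ω2
      have h4 : p ≤ p * ω := Nat.le_mul_of_pos_right p h.ω4
      omega
    have h5 : (u + 1) * u ≤ (2 * (p * ω)) * u := Nat.mul_le_mul_right u h3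
    have h7 : u * (u + 1) = (u + 1) * u := by ring
    omega
  have h5 : (u + 5 * ω) ≤ 2 * u := by have := h.ω3; omega
  have h6 : (u + 5 * ω) * (u + 5 * ω) ≤ (2 * u) * (2 * u) := Nat.mul_le_mul h5 h5
  have h7 : (2 * u) * (2 * u) ≤ 4 * (u * (u + 1)) := by nlinarith
  have h8 : 2 * ((u + 3 * ω) * D) = 2 * (u * D) + 6 * (ω * D) := by ring
  have hω : 1 ≤ ω * D := by
    have h9 := h.ω4
    have h10 : 1 ≤ D := by have := h.Du; have := h.u0; have := h.pp; have := h.p0; omega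
    exact Nat.mul_pos h9 h10
  have h9 : 2 * C + (u + 5 * ω) * (u + 5 * ω) < 2 * ((u + 5 * ω) * D) := by
    have h10 : 2 * ((u + 5 * ω) * D) = 2 * (u * D) + 10 * (ω * D) := by ring
    omega
  have h10 : (2 : ℤ) * C + (u + 5 * ω) * (u + 5 * ω) < 2 * ((u + 5 * ω) * D) := by
    exact_mod_cast h9
  have h11 : (0 : ℤ) ≤ u := Int.natCast_nonneg _
  have h12 : (0 : ℤ) ≤ ω := Int.natCast_nonneg _
  push_cast at h1
  have h13 : (C : ℤ) < Frow D (u + 5 * ω) := by nlinarith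
  exact_mod_cast h13

theorem lowrow {C κ : ℕ} (hC : N * ((u - η) * (u - η + 1)) ≤ 2 * C) (hκ : C < Frow D κ) :
    u + ω + 1 ≤ κ := by
  by_contra hcon
  push Not at hcon
  have h1 : Frow D κ ≤ κ * (D + 1) := Nat.sub_le _ _
  have h2 : κ * (D + 1) ≤ (u + ω) * (D + 1) := Nat.mul_le_mul_right _ (by omega)
  have h3 := h.low
  have h4 : 2 * ((u + 2 * ω) * D) = 2 * ((u + ω) * D) + 2 * (ω * D) := by ring
  have h5 : (u + ω) * (D + 1) = (u + ω) * D + (u + ω) := by ring
  have h6 := h.uu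
  have h7 : u * 2 ≤ u * (u + 1) := Nat.mul_le_mul_left u (by
    have := h.u0; have := h.pp; have := h.p0; omega)
  have h8 := h.ω3
  omega

end ZB

/-! ### the strip -/

theorem plane_B {T q a p D r u : ℕ} (hW : WinR T q a) (hT : 1 ≤ T) (hq : 2 ≤ q) (ha : 2 ≤ a)
    (hp : 40 * q + 2 ^ 20 ≤ p) (hu : 100 * p ^ 2 ≤ u) (hD : 1000 * a * p * u ≤ D)
    (hσ : u ^ 2 ≤ 4 * p ^ 2 * D) (hTu : u ^ 2 ≤ T * D)
    {y : Fin r → ℕ} (P : Finset (Fin r)) (hP : ∀ i ∈ P, y i ≤ u ∧ u ≤ y i + u / (64 * p ^ 2))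
    (hcl : ∀ v, (P.filter (fun i => y i = v)).card * v ≤ 4 * D)
    (hPs : 8 * D ≤ ∑ i ∈ P, y i) : StripGain D 64 P y u := by
  classical
  have hp20 : 2 ^ 20 ≤ p := by omega
  have hp0 : 0 < p := by omega
  have hpp : 2 ^ 20 * p ≤ p ^ 2 := by
    rw [pow_two]
    exact Nat.mul_le_mul_right p hp20
  have hu0 : 0 < u := by omega
  obtain ⟨ω, hω⟩ : ∃ ω, ω = u / p := ⟨_, rfl⟩
  obtain ⟨η, hη⟩ : ∃ η, η = u / (64 * p ^ 2) := ⟨_, rfl⟩
  rw [← hη] at hP
  have hη1 : 64 * p ^ 2 * η ≤ u := by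
    rw [hη]
    exact Nat.mul_div_le u _
  have hω1 : p * ω ≤ u := by
    rw [hω]
    exact Nat.mul_div_le u p
  have hω2 : u < p * ω + p := by
    have h3 := Nat.div_add_mod u p
    have h4 := Nat.mod_lt u hp0
    rw [← hω] at h3
    omega
  have hηu : η < u := by
    have h1 : 64 * 1 * η ≤ 64 * p ^ 2 * η :=
      Nat.mul_le_mul_right η (Nat.mul_le_mul_left 64 (by omega))
    omega
  have hK0 : 0 < u * (u + 1) := by positivity
  obtain ⟨t, ht⟩ : ∃ t, t = ((u + 3 * ω) * D) / (u * (u + 1)) := ⟨_, rfl⟩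
  have ht1 : t * (u * (u + 1)) ≤ (u + 3 * ω) * D := by
    rw [ht]
    exact Nat.div_mul_le_self _ _
  have ht2 : (u + 3 * ω) * D < t * (u * (u + 1)) + u * (u + 1) := by
    have h3 := Nat.div_add_mod ((u + 3 * ω) * D) (u * (u + 1))
    have h4 := Nat.mod_lt ((u + 3 * ω) * D) hK0
    rw [← ht] at h3
    rw [mul_comm t]
    omega
  obtain ⟨n, hn⟩ : ∃ n, n = 4 * D / (u - η) := ⟨_, rfl⟩
  have hD0 : 2000 * (p * u) ≤ D := by
    have h1 : 1000 * 2 * p * u ≤ 1000 * a * p * u :=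
      Nat.mul_le_mul_right u (Nat.mul_le_mul_right p (Nat.mul_le_mul_left 1000 ha))
    have h2 : 1000 * 2 * p * u = 2000 * (p * u) := by ring
    omega
  obtain ⟨N, hN⟩ : ∃ N, N = 2 * t + 1 := ⟨_, rfl⟩
  have h : ZB p u D ω η N n := by
    refine ⟨hp20, hω1, hω2, hη1, hu, hD0, hσ, ?_, ?_, ?_, ?_⟩
    · have h1 : N * (u * (u + 1)) = 2 * (t * (u * (u + 1))) + u * (u + 1) := by
        rw [hN]
        ring
      omega
    · have h1 : N * (u * (u + 1)) = 2 * (t * (u * (u + 1))) + u * (u + 1) := by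
        rw [hN]
        ring
      omega
    · rw [hn]
      exact Nat.div_mul_le_self _ _
    · intro m hm
      rw [hn]
      exact (Nat.le_div_iff_mul_le (by omega)).2 hm
  have hcount : N + n ≤ P.card := by
    refine h.count (S := ∑ i ∈ P, y i) ?_ hPs
    have h1 := Finset.sum_le_card_nsmul P y u (fun i hi => (hP i hi).1)
    rwa [smul_eq_mul] at h1
  have hs : 0 < P.card := by omega
  have hfil : ∀ i ∈ P, (P.filter (fun j => y j = y i)).card ≤ n := by
    intro i hi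
    refine h.n2 _ (le_trans ?_ (hcl (y i)))
    refine Nat.mul_le_mul_left _ ?_
    have := (hP i hi).2
    omega
  obtain ⟨b, hb, hinj, hmono⟩ := zb_enum P y hs
  obtain ⟨c, hc⟩ : ∃ c : ℕ → ℕ, c = fun l => (y (b l) + 1).choose 2 := ⟨_, rfl⟩
  have hc2 : ∀ l, 2 * c l = y (b l) * (y (b l) + 1) := by
    intro l
    rw [hc]
    exact zm_two_choose _
  have hlo : ∀ l, l < P.card → u - η ≤ y (b l) := by
    intro l hl
    have := (hP _ (hb l hl)).2
    omega
  have hcu : ∀ l, l < P.card → 2 * c l ≤ u * (u + 1) := by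
    intro l hl
    rw [hc2]
    have h1 := (hP _ (hb l hl)).1
    exact Nat.mul_le_mul h1 (by omega)
  have hcl' : ∀ l, l < P.card → (u - η) * (u - η + 1) ≤ 2 * c l := by
    intro l hl
    rw [hc2]
    have h1 := hlo l hl
    exact Nat.mul_le_mul h1 (by omega)
  obtain ⟨C, hC⟩ : ∃ C : ℕ → ℕ, C = zbC N n c := ⟨_, rfl⟩
  have hC0 : C 0 = ∑ l ∈ Finset.range N, c l := by
    rw [hC]
    unfold zbC
    simp
  have hC0u : 2 * C 0 ≤ N * (u * (u + 1)) := by
    rw [hC0, Finset.mul_sum]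
    have h1 := Finset.sum_le_card_nsmul (Finset.range N) (fun l => 2 * c l) (u * (u + 1))
      (fun l hl => hcu l (by have := Finset.mem_range.1 hl; omega))
    rwa [smul_eq_mul, Finset.card_range] at h1
  have hC0l : N * ((u - η) * (u - η + 1)) ≤ 2 * C 0 := by
    rw [hC0, Finset.mul_sum]
    have h1 := Finset.card_nsmul_le_sum (Finset.range N) (fun l => 2 * c l)
      ((u - η) * (u - η + 1)) (fun l hl => hcl' l (by have := Finset.mem_range.1 hl; omega))
    rwa [smul_eq_mul, Finset.card_range] at h1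
  have hsucc : ∀ k, k < N → C (k + 1) + c k = C k + c (k + n) := by
    intro k hk
    rw [hC]
    exact zbC_succ c hk
  -- the steps
  have hstep : ∀ k, k < N → C (k + 1) ≤ C k + η * (2 * u + 1) / 2 := by
    intro k hk
    have h1 := hsucc k hk
    have h2 := hcu (k + n) (by omega)
    have h3 := hcl' k (by omega)
    have h4 := h.sq
    omega
  have hup : ∀ k, k < N → C k + (u - η) ≤ C (k + 1) := by
    intro k hk
    have h1 := hsucc k hk
    have h2 := zb_strict hb hinj hmono hfil (l := k) (by omega)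
    have h3 := hc2 k
    have h4 := hc2 (k + n)
    have h5 := hlo k (by omega)
    have h6 : (y (b k) + 1) * (y (b k) + 1 + 1) ≤ y (b (k + n)) * (y (b (k + n)) + 1) :=
      Nat.mul_le_mul (by omega) (by omega)
    have h7 : (y (b k) + 1) * (y (b k) + 1 + 1) =
        y (b k) * (y (b k) + 1) + 2 * (y (b k) + 1) := by ring
    omega
  have hacc : ∀ k, k ≤ N → C 0 + k * (u - η) ≤ C k := by
    intro k
    induction k with
    | zero => intro _; omega
    | succ k ih =>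
      intro hk
      have h1 := ih (by omega)
      have h2 := hup k (by omega)
      rw [add_mul, one_mul]
      omega
  have hCN : C 0 + D ≤ C N := by
    have h1 := hacc N le_rfl
    have h2 := h.tot
    omega
  -- the row
  have hex : ∃ κ, C 0 < Frow D κ := ⟨_, h.high hC0u⟩
  have hf1 := Nat.find_spec hex
  have hf2 : Nat.find hex ≤ u + 5 * ω := Nat.find_min' hex (h.high hC0u)
  have hf3 := h.lowrow hC0l hf1
  obtain ⟨κ₀, hκ₀⟩ : ∃ κ₀, Nat.find hex = κ₀ + 1 := ⟨Nat.find hex - 1, by omega⟩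
  have hf4 : ¬ C 0 < Frow D κ₀ := Nat.find_min hex (by omega)
  rw [hκ₀] at hf1 hf2 hf3
  have hω3 := h.ω3
  have hDu := h.Du
  obtain ⟨k, κ, hk, hκ, h1, h2⟩ := zb_middle (C := C) (N := N) (D := D) (κ₀ := κ₀)
    (δ := η * (2 * u + 1) / 2) (by omega) (by omega) (not_lt.1 hf4) hf1
    (by have := h.step; omega) hstep hCN
  have hκ1 : u + ω ≤ κ := by omega
  have hκ2 : κ ≤ u + 5 * ω := by omega
  -- the points
  have hidx : ∀ l, l < N → (if l < k then l + n else l) < P.card := by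
    intro l hl
    split_ifs <;> omega
  have hNn := h.Nn
  have hsum : ∑ j : Fin (2 * t + 1),
      (y (b (if (j : ℕ) < k then (j : ℕ) + n else (j : ℕ))) + 1).choose 2 = C k := by
    rw [hC]
    unfold zbC
    rw [hc, hN]
    exact Fin.sum_univ_eq_sum_range
      (fun l => (y (b (if l < k then l + n else l)) + 1).choose 2) (2 * t + 1)
  have hηω : η ≤ ω := by
    have h3 := h.ηω
    have h4 : 1 * η ≤ 64 * p * η := Nat.mul_le_mul_right η (by omega)
    omega
  have hfin := plane_middle (g := 8) (κ := κ) (t := t) hW hT hq ha (by norm_num) (by omega) hu hD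
    hTu (y := y) P (fun i hi => ⟨(hP i hi).1, by
      have := (hP i hi).2
      rw [← hω]
      omega⟩)
    (fun j => b (if (j : ℕ) < k then (j : ℕ) + n else (j : ℕ)))
    (by
      intro j j' hjj
      have hj := j.2
      have hj' := j'.2
      have h3 := hinj _ (hidx j (by omega)) _ (hidx j' (by omega)) hjj
      refine Fin.ext ?_
      by_cases h4 : (j : ℕ) < k
      · by_cases h5 : (j' : ℕ) < k
        · rw [if_pos h4, if_pos h5] at h3
          omega
        · rw [if_pos h4, if_neg h5] at h3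
          omega
      · by_cases h5 : (j' : ℕ) < k
        · rw [if_neg h4, if_pos h5] at h3
          omega
        · rwa [if_neg h4, if_neg h5] at h3)
    (fun j => hb _ (hidx j (by have := j.2; omega)))
    (by rw [← hω]; exact hκ1) (by rw [← hω]; exact hκ2)
    (by rw [hsum]; exact h1) (by rw [hsum]; exact h2)
  simpa using hfin

end Pool.Agent.Work.MP_0421d9_ag.LD
end

section
/-!
A strip of the plane from a pool.
-/

namespace Pool.Agent.Work.MP_0421d9_ag.LD

open MvPolynomial Module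

theorem plane_strip_pool {G₁ A₁ : ℕ} (hC2 : ∀ (p D r v : ℕ) (y : Fin r → ℕ) (P : Finset (Fin r)),
    (∀ i ∈ P, y i = v) → 4 * D ≤ ∑ i ∈ P, y i → 1 ≤ p → A₁ * p ^ 6 ≤ v → D ≤ 8 * v * (v + 1) →
      v ^ 2 ≤ 4 * p ^ 2 * D → StripGain D G₁ P y v)
    {T q a p K G D s u r : ℕ} {P : ℕ → ℕ} {τ J : ℕ}
    (hP : Pools P (64 * p ^ 2) (100 * p ^ 2) τ J) (hW : WinR T q a) (hT : 1 ≤ T) (hq : 2 ≤ q)
    (ha : 2 ≤ a) (hK : 2 ≤ K) (hp : 40 * q + 2 ^ (2 * K + 20) ≤ p) (hG : 2 ^ (2 * K + 8) ≤ G)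
    (hG1 : G₁ ≤ G) {y : Fin r → ℕ} (hu : ∀ i, P (y i) = s → y i ≤ u) (hus : P u = s)
    (hu1 : 1 ≤ u) (hDu : (1000 * a * p + (16 * K * p) ^ 3) * u ≤ D)
    (hDu2 : 16 * A₁ * p ^ 6 * u ≤ D)
    (hKD : 2 ^ (K + 3) * (df K * (2 * u ^ 2) ^ K) ≤ D ^ (2 * K - 1)) (hTu : u ^ 2 ≤ T * D)
    (hs : 8 * D ≤ ∑ i ∈ Finset.univ.filter (fun i => P (y i) = s), y i) :
    StripGain D G (Finset.univ.filter (fun i => P (y i) = s)) y u := by
  have h20 : 2 ^ 20 ≤ 2 ^ (2 * K + 20) := Nat.pow_le_pow_right (by norm_num) (by omega)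
  have hp1 : 1 ≤ p := by
    have h1 : 0 < 2 ^ (2 * K + 20) := by positivity
    omega
  refine plane_strip_aux hC2 hP ha hK hp1 hG hG1 hu hus hu1 hDu hDu2 hs
    (fun h1 h2 h3 => ?_) (fun h1 h2 h3 h4 => ?_)
  · exact plane_A hW hT hq ha hK hp h1 hDu h2 hKD hTu _ h3 hs
  · exact plane_B hW hT hq ha (by omega) h1
      (le_trans (Nat.mul_le_mul_right _ (Nat.le_add_right _ _)) hDu) h2 hTu _ h3 h4 hs

end Pool.Agent.Work.MP_0421d9_ag.LD
end

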