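import Pool.Agent.Work.Z0421M.C12
import Pool.Agent.Work.Z0421M.C20
import Pool.Agent.Work.Z0421M.C21
import Pool.Agent.Work.Z0421M.C22
import Pool.Agent.Work.Z0421M.C26
import Pool.Agent.Work.Z0421M.C28

section
/-!
Arbitrary multiplicities in degree at least `C M ^ (1 + ε)`: the induction step for the plane.
-/

namespace Pool.Agent.Work.MP_0421d9_ag.LD

open MvPolynomial Module

/-- pools for the multiplicities at most `τ`, each other multiplicity has its own pool -/
theorem cut_pools {p U τ J : ℕ} (hp : 1 ≤ p) (hJ : U + p * (Nat.log 2 (τ + 1) + 2) + 2 ≤ J) :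
    ∃ P, Pools P p U τ J ∧ ∀ v, P v < J → v ≤ τ := by
  obtain ⟨P, hP⟩ := exists_pools p U τ hp
  have hc : ∀ v, v ≤ τ → P v < J := fun v hv => (hP.count v hv).trans_le hJ
  refine ⟨fun v => if v ≤ τ then P v else J + v, ⟨?_, ?_, ?_, ?_⟩, ?_⟩
  · intro v w hvw
    try dsimp only
    split_ifs with h1 h2
    · exact hP.mono hvw
    · have := hc v h1
      omega
    · omega
    · omega
  · intro v w h hvw
    try dsimp only at h
    split_ifs at h with h1 h2 h2
    · exact hP.width v w h hvw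
    · have := hc v h1
      omega
    · omega
    · have : v = w := by omega
      rw [this]
      exact Nat.le_add_right _ _
  · intro v w h hv
    try dsimp only at h
    split_ifs at h with h1 h2 h2
    · exact hP.small v w h hv
    · have := hc v h1
      omega
    · have := hc w h2
      omega
    · omega
  · intro v hv
    try dsimp only
    rw [if_pos hv]
    exact hc v hv
  · intro v hv
    try dsimp only at hv
    by_contra h
    rw [if_neg h] at hv
    omega

/-- the strips exist at all nodes of the path -/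
theorem step_strip {G₁ A₁ : ℕ} (hC2 : ∀ (p D r v : ℕ) (y : Fin r → ℕ) (P : Finset (Fin r)),
    (∀ i ∈ P, y i = v) → 4 * D ≤ ∑ i ∈ P, y i → 1 ≤ p → A₁ * p ^ 6 ≤ v → D ≤ 8 * v * (v + 1) →
      v ^ 2 ≤ 4 * p ^ 2 * D → StripGain D G₁ P y v)
    {T q a p K J G X R τ c D r : ℕ} {P : ℕ → ℕ}
    (hP : Pools P (64 * p ^ 2) (100 * p ^ 2) τ J) (hW : WinR T q a) (hT : 1 ≤ T)
    (hq : 2 ≤ q) (ha : 2 ≤ a) (hK : 2 ≤ K) (hp : 40 * q + 2 ^ (2 * K + 20) ≤ p)
    (hG : 2 ^ (2 * K + 8) ≤ G) (hG1 : G₁ ≤ G) (hX : 1000 * G ≤ X)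
    (hR2 : 2 * X * (1000 * a * p + (16 * K * p) ^ 3) ≤ R) (hR4 : 20 * X * A₁ * p ^ 6 ≤ R)
    (hD : R * c ≤ D)
    (hKD : ∀ u D', u ≤ τ → u ≤ c → D ≤ X * D' →
      2 ^ (K + 3) * (df K * (2 * u ^ 2) ^ K) ≤ D' ^ (2 * K - 1))
    (hTu : ∀ u D', u ≤ τ → u ≤ c → D ≤ X * D' → u ^ 2 ≤ T * D')
    (D' s u : ℕ) (y : Fin r → ℕ) (hXD : D ≤ X * D') (hu1 : 1 ≤ u) (huτ : u ≤ τ) (huc : u ≤ c)
    (hus : P u = s) (hu : ∀ i, P (y i) = s → y i ≤ u)
    (hs : 8 * D' ≤ ∑ i ∈ Finset.univ.filter (fun i => P (y i) = s), y i) :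
    StripGain D' G (Finset.univ.filter (fun i => P (y i) = s)) y u := by
  have hG0 : 1 ≤ G := by
    have : 1 ≤ 2 ^ (2 * K + 8) := Nat.one_le_two_pow
    omega
  have hX0 : 1 ≤ X := by omega
  have hRu : R * u ≤ X * D' := (Nat.mul_le_mul_left _ huc).trans (hD.trans hXD)
  have key : ∀ Z, X * Z ≤ R → Z * u ≤ D' := by
    intro Z hZ
    have h1 : X * (Z * u) ≤ X * D' := by
      calc X * (Z * u) = X * Z * u := by ring
        _ ≤ R * u := Nat.mul_le_mul_right _ hZ
        _ ≤ X * D' := hRu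
    exact Nat.le_of_mul_le_mul_left h1 hX0
  refine plane_strip_pool hC2 hP hW hT hq ha hK hp hG hG1 hu hus hu1 (key _ ?_) (key _ ?_)
    (hKD u D' huτ huc hXD) (hTu u D' huτ huc hXD) hs
  · refine le_trans ?_ hR2
    calc X * (1000 * a * p + (16 * K * p) ^ 3) ≤ 2 * (X * (1000 * a * p + (16 * K * p) ^ 3)) :=
          Nat.le_mul_of_pos_left _ (by norm_num)
      _ = 2 * X * (1000 * a * p + (16 * K * p) ^ 3) := by ring
  · refine le_trans ?_ hR4
    calc X * (16 * A₁ * p ^ 6) = 16 * (X * A₁ * p ^ 6) := by ring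
      _ ≤ 20 * (X * A₁ * p ^ 6) := Nat.mul_le_mul_right _ (by norm_num)
      _ = 20 * X * A₁ * p ^ 6 := by ring

theorem step_win {X ρ R c D : ℕ} (hρ : 4 ≤ ρ) (hc : 1 ≤ c) (hR3 : 40 * X * ρ ≤ R)
    (hD : R * c ≤ D) : 2 * X * (6 * ρ * (c + 1) + 10) ≤ D := by
  have h1 : 6 * ρ * (c + 1) + 10 ≤ 20 * (ρ * c) := by
    have h2 : ρ ≤ ρ * c := Nat.le_mul_of_pos_right _ hc
    have h3 : 6 * ρ * (c + 1) = 6 * (ρ * c) + 6 * ρ := by ring
    omega
  calc 2 * X * (6 * ρ * (c + 1) + 10) ≤ 2 * X * (20 * (ρ * c)) := Nat.mul_le_mul_left _ h1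
    _ = 40 * X * ρ * c := by ring
    _ ≤ R * c := Nat.mul_le_mul_right _ hR3
    _ ≤ D := hD

theorem FP_step {G₁ A₁ : ℕ} (hC2 : ∀ (p D r v : ℕ) (y : Fin r → ℕ) (P : Finset (Fin r)),
    (∀ i ∈ P, y i = v) → 4 * D ≤ ∑ i ∈ P, y i → 1 ≤ p → A₁ * p ^ 6 ≤ v → D ≤ 8 * v * (v + 1) →
      v ^ 2 ≤ 4 * p ^ 2 * D → StripGain D G₁ P y v)
    {T q a TP ρ p K J G X R Tp : ℕ} (hW : WinR T q a) (hWP : WinP TP ρ) (hT : 1 ≤ T)
    (hTP : 1 ≤ TP) (hq : 2 ≤ q) (ha : 2 ≤ a) (hρ : 4 ≤ ρ) (hK : 2 ≤ K)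
    (hp : 40 * q + 2 ^ (2 * K + 20) ≤ p)
    (hJ : 100 * p ^ 2 + 64 * p ^ 2 * (Nat.log 2 (Tp + 1) + 2) + 2 ≤ J)
    (hG : 2 ^ (2 * K + 8) ≤ G) (hG1 : G₁ ≤ G) (hX : 1000 * G ≤ X)
    (hR1 : 10 ^ 6 * J * G ≤ R) (hR2 : 2 * X * (1000 * a * p + (16 * K * p) ^ 3) ≤ R)
    (hR3 : 40 * X * ρ ≤ R) (hR4 : 20 * X * A₁ * p ^ 6 ≤ R)
    (hTp : Tp ≤ T) (hTp2 : 10 ^ 5 * G * Tp ≤ TP * R ^ 2)
    (hTp3 : 2 ^ (2 * K + 3) * df K * Tp ≤ (R / (2 * X)) ^ (2 * K - 1)) : FP Tp R := by
  intro r c D m hc hcT hm hD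
  have hG0 : 1 ≤ G := by
    have : 1 ≤ 2 ^ (2 * K + 8) := Nat.one_le_two_pow
    omega
  have hX0 : 1 ≤ X := by omega
  have h20 : 1 ≤ 2 ^ (2 * K + 20) := Nat.one_le_two_pow
  have hD2 := step_win hρ hc hR3 hD
  have hTPD : 10 ^ 5 * G * c ^ 3 ≤ TP * D ^ 2 := by
    calc 10 ^ 5 * G * c ^ 3 = (10 ^ 5 * G * c) * c ^ 2 := by ring
      _ ≤ (10 ^ 5 * G * Tp) * c ^ 2 :=
          Nat.mul_le_mul_right _ (Nat.mul_le_mul_left _ hcT)
      _ ≤ (TP * R ^ 2) * c ^ 2 := Nat.mul_le_mul_right _ hTp2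
      _ = TP * (R * c) ^ 2 := by ring
      _ ≤ TP * D ^ 2 := Nat.mul_le_mul_left _ (Nat.pow_le_pow_left hD 2)
  have hwin := (hWP r c D m hc hm (by
    have h1 : 3 * ρ * (c + 1) ≤ 6 * ρ * (c + 1) + 10 := by
      have h2 : 6 * ρ * (c + 1) = 2 * (3 * ρ * (c + 1)) := by ring
      omega
    have h3 : 6 * ρ * (c + 1) + 10 ≤ 2 * X * (6 * ρ * (c + 1) + 10) :=
      Nat.le_mul_of_pos_left _ (by omega)
    omega)).2
  by_cases hb : TP * (∑ i, m i ^ 2 + 23 * ∑ i, m i) + 6 * (c + 1) ^ 2 ≤ TP * D ^ 2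
  · have := hwin hb
    omega
  push Not at hb
  have hS : D ^ 2 ≤ 27 * (c * ∑ i, m i) := by
    obtain ⟨S₀, hS₀⟩ : ∃ S₀, S₀ = ∑ i, m i := ⟨_, rfl⟩
    rw [← hS₀] at hb ⊢
    have h1 : ∑ i, m i ^ 2 ≤ c * S₀ := by
      rw [hS₀, Finset.mul_sum]
      refine Finset.sum_le_sum fun i _ => ?_
      rw [pow_two]
      exact Nat.mul_le_mul_right _ (hm i)
    have h2 : 23 * S₀ ≤ 23 * (c * S₀) := Nat.mul_le_mul_left _ (Nat.le_mul_of_pos_left _ hc)
    have h3 : TP * (∑ i, m i ^ 2 + 23 * S₀) ≤ 24 * (TP * (c * S₀)) := by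
      calc TP * (∑ i, m i ^ 2 + 23 * S₀) ≤ TP * (24 * (c * S₀)) :=
            Nat.mul_le_mul_left _ (by omega)
        _ = 24 * (TP * (c * S₀)) := by ring
    have h4 : 6 * (c + 1) ^ 2 ≤ 24 * (G * c ^ 3) := by
      have h5 : (c + 1) ^ 2 ≤ 4 * c ^ 2 := by nlinarith
      have h6 : c ^ 2 ≤ G * c ^ 3 := by
        calc c ^ 2 ≤ c ^ 3 := Nat.pow_le_pow_right hc (by norm_num)
          _ ≤ G * c ^ 3 := Nat.le_mul_of_pos_left _ hG0
      omega
    have h5 : 10 ^ 5 * (G * c ^ 3) ≤ TP * D ^ 2 := by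
      calc 10 ^ 5 * (G * c ^ 3) = 10 ^ 5 * G * c ^ 3 := by ring
        _ ≤ _ := hTPD
    have h6 : TP * D ^ 2 ≤ TP * (27 * (c * S₀)) := by
      have e1 : TP * (27 * (c * S₀)) = 27 * (TP * (c * S₀)) := by ring
      omega
    exact Nat.le_of_mul_le_mul_left h6 hTP
  obtain ⟨P, hP, hPτ⟩ := cut_pools (p := 64 * p ^ 2) (U := 100 * p ^ 2) (τ := Tp) (J := J)
    (Nat.mul_pos (by norm_num) (pow_pos (by omega) 2)) hJ
  have hmain := path_main (V₀ := 0) hP hPτ hWP hTP (by omega) hG0 hX hc hm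
    ((Nat.mul_le_mul_right _ hR1).trans hD) hD2
    (fun D' s u y h1 _ h3 h4 h5 _ h7 h8 h9 =>
      step_strip hC2 hP hW hT hq ha hK hp hG hG1 hX hR2 hR4 hD ?_ ?_ D' s u y h1 h3 h4 h5 h7 h8 h9)
    (Or.inl ⟨hcT, hS, hTPD⟩) 0 0 le_rfl
  · have hcount := hPm_count D m
    have e1 : (((0 : ℕ) : ℤ)) = 0 := rfl
    rw [e1] at hmain
    omega
  · intro u D' hu1 hu2 hXD
    obtain ⟨Z, hZ⟩ : ∃ Z, Z = R / (2 * X) := ⟨_, rfl⟩
    rw [← hZ] at hTp3
    have h1 : Z * c ≤ D' := by
      have h2 : 2 * X * Z ≤ R := by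
        rw [hZ]
        exact Nat.mul_div_le R (2 * X)
      have h3 : X * (Z * c) ≤ X * D' := by
        calc X * (Z * c) ≤ 2 * (X * (Z * c)) := Nat.le_mul_of_pos_left _ (by norm_num)
          _ = 2 * X * Z * c := by ring
          _ ≤ R * c := Nat.mul_le_mul_right _ h2
          _ ≤ X * D' := hD.trans hXD
      exact Nat.le_of_mul_le_mul_left h3 hX0
    obtain ⟨k, hk⟩ : ∃ k, 2 * K = k + 1 := ⟨2 * K - 1, by omega⟩
    have hk1 : 2 * K - 1 = k := by omega
    rw [hk1] at hTp3 ⊢
    have h3 : (2 * u ^ 2) ^ K = 2 ^ K * u ^ (k + 1) := by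
      rw [mul_pow, ← pow_mul, hk]
    have h4 : u ^ (k + 1) ≤ Tp * c ^ k := by
      rw [pow_succ, Nat.mul_comm]
      exact Nat.mul_le_mul hu1 (Nat.pow_le_pow_left hu2 k)
    calc 2 ^ (K + 3) * (df K * (2 * u ^ 2) ^ K)
        = 2 ^ (2 * K + 3) * df K * u ^ (k + 1) := by
          rw [h3]
          ring
      _ ≤ 2 ^ (2 * K + 3) * df K * (Tp * c ^ k) := Nat.mul_le_mul_left _ h4
      _ = (2 ^ (2 * K + 3) * df K * Tp) * c ^ k := by ring
      _ ≤ Z ^ k * c ^ k := Nat.mul_le_mul_right _ hTp3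
      _ = (Z * c) ^ k := (mul_pow _ _ _).symm
      _ ≤ D' ^ k := Nat.pow_le_pow_left h1 k
  · intro u D' hu1 hu2 hXD
    have h1 : c ≤ D' := by
      have h2 : X * c ≤ X * D' := by
        have h3 : X ≤ R := by
          refine le_trans ?_ hR3
          calc X ≤ X * (40 * ρ) := Nat.le_mul_of_pos_right _ (by omega)
            _ = 40 * X * ρ := by ring
        exact (Nat.mul_le_mul_right _ h3).trans (hD.trans hXD)
      exact Nat.le_of_mul_le_mul_left h2 hX0
    calc u ^ 2 = u * u := pow_two u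
      _ ≤ T * D' := Nat.mul_le_mul (hu1.trans hTp) (hu2.trans h1)

end Pool.Agent.Work.MP_0421d9_ag.LD
end

section
/-!
Strips along rational curves through several multiple points.
-/

namespace Pool.Agent.Work.MP_0421d9_ag.LD

open MvPolynomial Module

/-- it suffices to treat the systems whose expected dimension is close to zero -/
theorem of_near {u D : ℕ} (hu : 1 ≤ u) (P : ∀ r : ℕ, (Fin r → ℕ) → Finset (Fin r) → Prop)
    (hsm : ∀ r y B, P r y B → ∀ i, i ∉ B → y i ≤ u)
    (hbase : ∀ r y B, P r y B → ∑ i ∈ B, (y i + 1).choose 2 ≤ (D + 2).choose 2)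
    (hoff : ∀ r y B Q, P r y B → Q ⊆ offP B → P r (offF Q y) B)
    (happ : ∀ r y B n, P r y B → P (r + n) (Fin.append y (fun _ : Fin n => u))
      (B.map (Fin.castAddEmb n)))
    (near : ∀ r y B, P r y B →
      (D + 2).choose 2 ≤ ∑ i, (y i + 1).choose 2 + (u + 1).choose 2 →
      ∑ i, (y i + 1).choose 2 ≤ (D + 2).choose 2 + (u + 1).choose 2 →
      hPm D y = (D + 2).choose 2 - ∑ i, (y i + 1).choose 2) {r : ℕ} {y : Fin r → ℕ}
    {B : Finset (Fin r)} (hP : P r y B) :
    hPm D y = (D + 2).choose 2 - ∑ i, (y i + 1).choose 2 := by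
  classical
  obtain ⟨W, hW⟩ : ∃ W, W = (u + 1).choose 2 := ⟨_, rfl⟩
  have hW1 : 1 ≤ W := by
    rw [hW]
    exact Nat.choose_pos (by omega)
  have hcount := hPm_count D y
  have hN := hbase r y B hP
  have hsum := sum_offP B (fun i => (y i + 1).choose 2)
  obtain ⟨T, hT⟩ : ∃ T, T = ∑ i, (y i + 1).choose 2 := ⟨_, rfl⟩
  obtain ⟨C, hC⟩ : ∃ C, C = (D + 2).choose 2 := ⟨_, rfl⟩
  rw [← hT, ← hC] at hcount ⊢
  rw [← hT] at hsum
  rw [← hC] at hN
  have hWs : ∀ i ∈ offP B, (y i + 1).choose 2 ≤ W := by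
    intro i hi
    rw [hW]
    refine Nat.choose_le_choose 2 (Nat.succ_le_succ (hsm r y B hP i ?_))
    unfold offP at hi
    exact (Finset.mem_filter.mp hi).2
  rcases Nat.lt_or_ge (C + W) T with h1 | h1
  · -- too many conditions: omit some points
    obtain ⟨R, hR, h2, h3⟩ := greedy (T := C - ∑ i ∈ B, (y i + 1).choose 2) (offP B) hWs (by omega)
    have hP' := hoff r y B (offP B \ R) hP Finset.sdiff_subset
    have h4 := sum_offF (offP B \ R) y
    have h5 := Finset.sum_sdiff (f := fun i => (y i + 1).choose 2) hR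
    have h6 := near r _ B hP' (by omega) (by omega)
    have h7 : hPm D y ≤ hPm D (LD.offF (offP B \ R) y) := by
      apply hPm_anti
      intro i
      unfold LD.offF
      split_ifs
      · exact Nat.zero_le _
      · exact le_rfl
    omega
  rcases Nat.lt_or_ge (T + W) C with h2 | h2
  · -- few conditions: further points
    have hdm := Nat.div_add_mod (C - T) W
    have hml := Nat.mod_lt (C - T) hW1
    obtain ⟨n, hn⟩ : ∃ n, n = (C - T) / W := ⟨_, rfl⟩
    rw [← hn] at hdm
    have e1 : n * W = W * n := Nat.mul_comm _ _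
    have hP' := happ r y B n hP
    have h3 : ∑ i, (Fin.append y (fun _ : Fin n => u) i + 1).choose 2 = T + n * W := by
      rw [sum_append y _ (fun x => (x + 1).choose 2), ← hT, hW]
      congr 1
      rw [Finset.sum_const, Finset.card_univ, Fintype.card_fin, smul_eq_mul]
    have h4 := near _ _ _ hP' (by rw [h3]; omega) (by rw [h3]; omega)
    rw [h3] at h4
    have h5 := hPm_append_le D y (fun _ : Fin n => u)
    have h6 : ∑ _j : Fin n, (u + 1).choose 2 = n * W := by
      rw [Finset.sum_const, Finset.card_univ, Fintype.card_fin, smul_eq_mul, hW]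
    rw [h6] at h5
    omega
  · have h3 := near r y B hP (by omega) (by omega)
    omega

/-- The system after the removal of `κ` rows: along a section through the points in `T` -/
def res {r : ℕ} (i₁ : Fin r) (T : Finset (Fin r)) (n κ : ℕ) (P : Finset (Fin r)) (y : Fin r → ℕ) :
    Fin r → ℕ :=
  fun i => if i = i₁ then y i - n * κ else if i ∈ T then y i - κ else offF P y i

theorem offF_of_not_mem {r : ℕ} {P : Finset (Fin r)} {y : Fin r → ℕ} {i : Fin r} (h : i ∉ P) :
    offF P y i = y i := by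
  unfold offF
  rw [if_neg h]

theorem offF_of_mem {r : ℕ} {P : Finset (Fin r)} {y : Fin r → ℕ} {i : Fin r} (h : i ∈ P) :
    offF P y i = 0 := by
  unfold offF
  rw [if_pos h]

theorem mem_offP {r : ℕ} {B : Finset (Fin r)} {i : Fin r} : i ∈ offP B ↔ i ∉ B := by
  unfold offP
  rw [Finset.mem_filter]
  exact ⟨fun h => h.2, fun h => ⟨Finset.mem_univ i, h⟩⟩

theorem res_self {r : ℕ} {i₁ : Fin r} {T : Finset (Fin r)} {n κ : ℕ} {P : Finset (Fin r)}
    {y : Fin r → ℕ} : res i₁ T n κ P y i₁ = y i₁ - n * κ := by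
  unfold res
  rw [if_pos rfl]

theorem res_mem {r : ℕ} {i₁ i : Fin r} {T : Finset (Fin r)} {n κ : ℕ} {P : Finset (Fin r)}
    {y : Fin r → ℕ} (h1 : i ≠ i₁) (h2 : i ∈ T) : res i₁ T n κ P y i = y i - κ := by
  unfold res
  rw [if_neg h1, if_pos h2]

theorem res_not_mem {r : ℕ} {i₁ i : Fin r} {T : Finset (Fin r)} {n κ : ℕ} {P : Finset (Fin r)}
    {y : Fin r → ℕ} (h1 : i ≠ i₁) (h2 : i ∉ T) : res i₁ T n κ P y i = offF P y i := by
  unfold res
  rw [if_neg h1, if_neg h2]

/-- **The step along a line through a multiple point `i₂`.** -/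
theorem step_point {r u D : ℕ} {y : Fin r → ℕ} {B : Finset (Fin r)} {i₂ : Fin r} (hu : 1 ≤ u)
    (hi₂ : i₂ ∈ B) (hsm : ∀ i, i ∉ B → y i ≤ u) (ha : u + 1 ≤ y i₂) (haD : y i₂ ≤ D)
    (hE : 2 * (u + 1) ^ 2 ≤ D - y i₂ + 1)
    (hN : ∑ i, (Function.update (offF (offP B) y) i₂ (y i₂ - (u + 1)) i + 1).choose 2 ≤
      (D - (u + 1) + 2).choose 2)
    (hn1 : (D + 2).choose 2 ≤ ∑ i, (y i + 1).choose 2 + (u + 1).choose 2)
    (hn2 : ∑ i, (y i + 1).choose 2 ≤ (D + 2).choose 2 + (u + 1).choose 2)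
    (h1 : ∀ κ, (κ = u ∨ κ = u + 1) → ∀ P ⊆ offP B,
      hPm (D - κ) (Function.update (offF P y) i₂ (y i₂ - κ)) = (D - κ + 2).choose 2 -
        ∑ i, (Function.update (offF P y) i₂ (y i₂ - κ) i + 1).choose 2) :
    hPm D y = (D + 2).choose 2 - ∑ i, (y i + 1).choose 2 := by
  classical
  obtain ⟨a, hya⟩ : ∃ a, y i₂ = a := ⟨_, rfl⟩
  rw [hya] at ha haD hE hN h1
  have hid1 := row_id (D := D) (a := a) (κ := u) (by omega) haD
  have hid2 := row_id (D := D) (a := a) (κ := u + 1) ha haD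
  have e1 : (u + 1) * (D - a + 1) = u * (D - a + 1) + (D - a + 1) := by ring
  rw [e1] at hid2
  have hcb := choose_pred_bound u
  have hsum := sum_offF (offP B) y
  have hWs : ∀ i ∈ offP B, (y i + 1).choose 2 ≤ (u + 1).choose 2 := by
    intro i hi
    rw [mem_offP] at hi
    exact Nat.choose_le_choose 2 (Nat.succ_le_succ (hsm i hi))
  have hupd : ∀ P ⊆ offP B, ∀ v : ℕ,
      ∑ i, (Function.update (offF P y) i₂ v i + 1).choose 2 + (a + 1).choose 2 =
        ∑ i, (offF P y i + 1).choose 2 + (v + 1).choose 2 := by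
    intro P hP v
    have hi : i₂ ∉ P := fun h => by
      have := hP h
      rw [mem_offP] at this
      exact this hi₂
    rw [← Finset.add_sum_erase _ _ (Finset.mem_univ i₂),
      ← Finset.add_sum_erase _ (fun i => (offF P y i + 1).choose 2) (Finset.mem_univ i₂),
      Function.update_self, offF_of_not_mem hi, hya]
    have g1 : ∑ i ∈ Finset.univ.erase i₂, (Function.update (offF P y) i₂ v i + 1).choose 2 =
        ∑ i ∈ Finset.univ.erase i₂, (offF P y i + 1).choose 2 :=
      Finset.sum_congr rfl (fun i hi => by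
        rw [Function.update_of_ne (Finset.ne_of_mem_erase hi)])
    rw [g1]
    ring
  have hu0 := hupd (offP B) (Finset.Subset.refl _) (a - (u + 1))
  obtain ⟨P, hP, h3, h4⟩ := greedy (T := u * (D - a + 1) + ((u - 1).choose 2 + 1))
    (offP B) hWs (by omega)
  obtain ⟨A, hA⟩ : ∃ A, ∑ i ∈ P, (y i + 1).choose 2 = u * (D - a + 1) + A :=
    ⟨∑ i ∈ P, (y i + 1).choose 2 - u * (D - a + 1), by omega⟩
  have hi : i₂ ∉ P := fun h => by
    have := hP h
    rw [mem_offP] at this
    exact this hi₂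
  have hstrip := strip_point (D := D) (κ := u) (A := A) (y := y) i₂ P hi hu
    (by rw [hya]; exact ha) (by rw [hya]; exact haD)
    (fun i hi => by
      have := hP hi
      rw [mem_offP] at this
      exact hsm i this)
    (by rw [hya]; exact hA) (by omega) (by rw [hya]; omega)
  rw [hya] at hstrip
  have hoffs := sum_offF P y
  have h5 := h1 u (Or.inl rfl) P hP
  have h6 := h1 (u + 1) (Or.inr rfl) P hP
  have h7 := hupd P hP (a - u)
  have h8 := hupd P hP (a - (u + 1))
  have hcount := hPm_count D y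
  have k1 : D - u - 1 = D - (u + 1) := by omega
  have k2 : a - u - 1 = a - (u + 1) := by omega
  rw [k1, k2] at hstrip
  rcases le_max_iff.mp hstrip with h9 | h9 <;> omega

/-- **The step along a section through the points in `T`.** -/
theorem step_section {r u : ℕ} (hu : 1 ≤ u) {B : Finset (Fin r)} {i₁ i₂ : Fin r} (hi₁ : i₁ ∈ B)
    (h21 : i₂ ≠ i₁) (n : ℕ) : ∀ {D c : ℕ} {y : Fin r → ℕ} {T : Finset (Fin r)},
    T.card = 2 * n + 1 → i₂ ∈ T → i₁ ∉ T → T ⊆ B → (∀ i, i ∉ B → y i ≤ u) → y i₁ + c = D →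
    (∀ i ∈ T, u + 1 ≤ y i) → (∀ i ∈ T, y i ≤ c) → (∀ i ∈ T, ∀ j ∈ T, i ≠ j → y i + y j ≤ c) →
    n * (u + 1) ≤ y i₁ → 2 * (u + 1) ^ 2 ≤ y i₁ + 1 →
    ∑ i, (res i₁ T n (u + 1) (offP B) y i + 1).choose 2 ≤ (D - (n + 1) * (u + 1) + 2).choose 2 →
    (D + 2).choose 2 ≤ ∑ i, (y i + 1).choose 2 + (u + 1).choose 2 →
    ∑ i, (y i + 1).choose 2 ≤ (D + 2).choose 2 + (u + 1).choose 2 →
    (∀ κ, (κ = u ∨ κ = u + 1) → ∀ P ⊆ offP B,
      hPm (D - (n + 1) * κ) (res i₁ T n κ P y) = (D - (n + 1) * κ + 2).choose 2 -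
        ∑ i, (res i₁ T n κ P y i + 1).choose 2) →
    hPm D y = (D + 2).choose 2 - ∑ i, (y i + 1).choose 2 := by
  classical
  induction n with
  | zero =>
    intro D c y T hT h2T h1T hTB hsm hc hlo hhi hpair hn hM hN hn1 hn2 hres
    have hTe : T = {i₂} := by
      obtain ⟨x, hx⟩ := Finset.card_eq_one.mp (by omega : T.card = 1)
      rw [hx, Finset.mem_singleton] at h2T
      rw [hx, h2T]
    have hr : ∀ κ P, P ⊆ offP B → res i₁ T 0 κ P y =
        Function.update (offF P y) i₂ (y i₂ - κ) := by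
      intro κ P hP
      funext i
      by_cases g1 : i = i₁
      · subst g1
        rw [res_self, Function.update_of_ne (Ne.symm h21), offF_of_not_mem (fun h => by
          have := hP h
          rw [mem_offP] at this
          exact this hi₁), Nat.zero_mul, Nat.sub_zero]
      · by_cases g2 : i = i₂
        · subst g2
          rw [res_mem g1 h2T, Function.update_self]
        · rw [res_not_mem g1 (by rw [hTe, Finset.mem_singleton]; exact g2),
            Function.update_of_ne g2]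
    have g1 := hlo i₂ h2T
    have g2 := hhi i₂ h2T
    rw [hr _ _ (Finset.Subset.refl _)] at hN
    refine step_point hu (hTB h2T) hsm g1 (by omega) (by omega) (by simpa using hN) hn1 hn2 ?_
    intro κ hκ P hP
    have g3 := hres κ hκ P hP
    rw [hr _ _ hP] at g3
    simpa using g3
  | succ n ih =>
    intro D c y T hT h2T h1T hTB hsm hc hlo hhi hpair hn hM hN hn1 hn2 hres
    -- two further points
    obtain ⟨j, hj⟩ : (T.erase i₂).Nonempty := by
      rw [← Finset.card_pos, Finset.card_erase_of_mem h2T]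
      omega
    obtain ⟨k, hk⟩ : ((T.erase i₂).erase j).Nonempty := by
      rw [← Finset.card_pos, Finset.card_erase_of_mem hj, Finset.card_erase_of_mem h2T]
      omega
    rw [Finset.mem_erase] at hj hk
    obtain ⟨hj2, hjT⟩ := hj
    obtain ⟨hkj, hk⟩ := hk
    rw [Finset.mem_erase] at hk
    obtain ⟨hk2, hkT⟩ := hk
    have hj1 : j ≠ i₁ := fun h => h1T (h ▸ hjT)
    have hk1 : k ≠ i₁ := fun h => h1T (h ▸ hkT)
    obtain ⟨T', hT'⟩ : ∃ T', T' = (T.erase j).erase k := ⟨_, rfl⟩
    have hT'm : ∀ i, i ∈ T' ↔ i ≠ j ∧ i ≠ k ∧ i ∈ T := by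
      intro i
      rw [hT', Finset.mem_erase, Finset.mem_erase]
      tauto
    have hkTj : k ∈ T.erase j := Finset.mem_erase.mpr ⟨hkj, hkT⟩
    have hT'c : T'.card = 2 * n + 1 := by
      rw [hT', Finset.card_erase_of_mem hkTj, Finset.card_erase_of_mem hjT]
      omega
    have pj := hlo j hjT
    have pk := hlo k hkT
    have pjk := hpair j hjT k hkT (Ne.symm hkj)
    obtain ⟨s, hs⟩ : ∃ s, s = c - y j - y k := ⟨_, rfl⟩
    obtain ⟨z, hz⟩ : ∃ z : Fin r → ℕ, z = Function.update (Function.update (Function.update y i₁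
      (y i₁ + s)) j (c - y k)) k (c - y j) := ⟨_, rfl⟩
    have z1 : z i₁ = y i₁ + s := by
      rw [hz, Function.update_of_ne (Ne.symm hk1), Function.update_of_ne (Ne.symm hj1),
        Function.update_self]
    have zj : z j = c - y k := by
      rw [hz, Function.update_of_ne (Ne.symm hkj), Function.update_self]
    have zk : z k = c - y j := by
      rw [hz, Function.update_self]
    have zo : ∀ i, i ≠ i₁ → i ≠ j → i ≠ k → z i = y i := by
      intro i g1 g2 g3
      rw [hz, Function.update_of_ne g3, Function.update_of_ne g2, Function.update_of_ne g1]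
    have hQ : Quadratic (D, y) (D + s, z) := by
      refine ⟨i₁, j, k, Ne.symm hj1, Ne.symm hk1, Ne.symm hkj, ?_, ?_, ?_, ?_, ?_, ?_, ?_, ?_, ?_,
        ?_, ?_⟩
      · change y i₁ ≤ D
        omega
      · change y j ≤ D
        omega
      · change y k ≤ D
        omega
      · change y i₁ + y j ≤ D + 1
        omega
      · change y i₁ + y k ≤ D + 1
        omega
      · change y j + y k ≤ D + 1
        omega
      · change D + s + y i₁ + y j + y k = 2 * D
        omega
      · change z i₁ = D - y j - y k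
        rw [z1]
        omega
      · change z j = D - y i₁ - y k
        rw [zj]
        omega
      · change z k = D - y i₁ - y j
        rw [zk]
        omega
      · intro i g1 g2 g3
        exact zo i g1 g2 g3
    have hzc := hQ.count
    dsimp only at hzc
    have hT'z : ∀ i ∈ T', z i = y i ∧ i ∈ T := by
      intro i hi
      rw [hT'm] at hi
      exact ⟨zo i (fun h => h1T (h ▸ hi.2.2)) hi.1 hi.2.1, hi.2.2⟩
    have hnk : ∀ κ, (κ = u ∨ κ = u + 1) → κ ≤ u + 1 ∧ (n + 1) * κ ≤ y i₁ := by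
      rintro κ (rfl | rfl)
      · refine ⟨by omega, le_trans (Nat.mul_le_mul_left _ (Nat.le_succ _)) hn⟩
      · exact ⟨le_rfl, hn⟩
    have hQ2 : ∀ κ, (κ = u ∨ κ = u + 1) → ∀ P ⊆ offP B,
        Quadratic (D + s - (n + 1) * κ, res i₁ T' n κ P z)
          (D - (n + 1 + 1) * κ, res i₁ T (n + 1) κ P y) := by
      intro κ hκ P hP
      obtain ⟨hκu, hκM⟩ := hnk κ hκ
      have e1 : (n + 1) * κ = n * κ + κ := by ring
      have e2 : (n + 1 + 1) * κ = n * κ + κ + κ := by ring
      have hPj : j ∉ P := fun h => by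
        have := hP h
        rw [mem_offP] at this
        exact this (hTB hjT)
      have hPk : k ∉ P := fun h => by
        have := hP h
        rw [mem_offP] at this
        exact this (hTB hkT)
      have x1 : res i₁ T' n κ P z i₁ = y i₁ + s - n * κ := by rw [res_self, z1]
      have xj : res i₁ T' n κ P z j = c - y k := by
        rw [res_not_mem hj1 (by rw [hT'm]; simp), offF_of_not_mem hPj, zj]
      have xk : res i₁ T' n κ P z k = c - y j := by
        rw [res_not_mem hk1 (by rw [hT'm]; simp), offF_of_not_mem hPk, zk]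
      have w1 : res i₁ T (n + 1) κ P y i₁ = y i₁ - (n * κ + κ) := by rw [res_self, e1]
      have wj : res i₁ T (n + 1) κ P y j = y j - κ := res_mem hj1 hjT
      have wk : res i₁ T (n + 1) κ P y k = y k - κ := res_mem hk1 hkT
      rw [e1] at hκM
      refine ⟨i₁, j, k, Ne.symm hj1, Ne.symm hk1, Ne.symm hkj, ?_, ?_, ?_, ?_, ?_, ?_, ?_, ?_, ?_,
        ?_, ?_⟩
      · change res i₁ T' n κ P z i₁ ≤ D + s - (n + 1) * κ
        rw [x1, e1]
        omega
      · change res i₁ T' n κ P z j ≤ D + s - (n + 1) * κ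
        rw [xj, e1]
        omega
      · change res i₁ T' n κ P z k ≤ D + s - (n + 1) * κ
        rw [xk, e1]
        omega
      · change res i₁ T' n κ P z i₁ + res i₁ T' n κ P z j ≤ D + s - (n + 1) * κ + 1
        rw [x1, xj, e1]
        omega
      · change res i₁ T' n κ P z i₁ + res i₁ T' n κ P z k ≤ D + s - (n + 1) * κ + 1
        rw [x1, xk, e1]
        omega
      · change res i₁ T' n κ P z j + res i₁ T' n κ P z k ≤ D + s - (n + 1) * κ + 1
        rw [xj, xk, e1]
        omega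
      · change D - (n + 1 + 1) * κ + res i₁ T' n κ P z i₁ + res i₁ T' n κ P z j +
          res i₁ T' n κ P z k = 2 * (D + s - (n + 1) * κ)
        rw [x1, xj, xk, e1, e2]
        omega
      · change res i₁ T (n + 1) κ P y i₁ = D + s - (n + 1) * κ - res i₁ T' n κ P z j -
          res i₁ T' n κ P z k
        rw [w1, xj, xk, e1]
        omega
      · change res i₁ T (n + 1) κ P y j = D + s - (n + 1) * κ - res i₁ T' n κ P z i₁ -
          res i₁ T' n κ P z k
        rw [wj, x1, xk, e1]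
        omega
      · change res i₁ T (n + 1) κ P y k = D + s - (n + 1) * κ - res i₁ T' n κ P z i₁ -
          res i₁ T' n κ P z j
        rw [wk, x1, xj, e1]
        omega
      · intro i g1 g2 g3
        change res i₁ T (n + 1) κ P y i = res i₁ T' n κ P z i
        by_cases g4 : i ∈ T
        · rw [res_mem g1 g4, res_mem g1 ((hT'm i).mpr ⟨g2, g3, g4⟩), zo i g1 g2 g3]
        · rw [res_not_mem g1 g4, res_not_mem g1 (fun h => g4 ((hT'm i).mp h).2.2)]
          unfold offF
          rw [zo i g1 g2 g3]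
    have hmain : hPm (D + s) z = (D + s + 2).choose 2 - ∑ i, (z i + 1).choose 2 := by
      have hnn : n * (u + 1) ≤ (n + 1) * (u + 1) := Nat.mul_le_mul_right _ (Nat.le_succ n)
      have hN2 := (hQ2 (u + 1) (Or.inr rfl) (offP B) (Finset.Subset.refl _)).count
      dsimp only at hN2
      refine ih (D := D + s) (c := c) (y := z) (T := T') hT'c ((hT'm i₂).mpr
        ⟨Ne.symm hj2, Ne.symm hk2, h2T⟩) (fun h => h1T ((hT'm i₁).mp h).2.2)
        (fun i hi => hTB ((hT'm i).mp hi).2.2) (fun i hi => ?_) (by rw [z1]; omega)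
        (fun i hi => ?_) (fun i hi => ?_) (fun i hi l hl hil => ?_) (by rw [z1]; omega)
        (by rw [z1]; omega) (by omega) (by omega) (by omega) (fun κ hκ P hP => ?_)
      · rw [zo i (fun h => hi (h ▸ hi₁)) (fun h => hi (h ▸ hTB hjT)) (fun h => hi (h ▸ hTB hkT))]
        exact hsm i hi
      · rw [(hT'z i hi).1]
        exact hlo i (hT'z i hi).2
      · rw [(hT'z i hi).1]
        exact hhi i (hT'z i hi).2
      · rw [(hT'z i hi).1, (hT'z l hl).1]
        exact hpair i (hT'z i hi).2 l (hT'z l hl).2 hil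
      · exact Quadratic.nonspecial (Relation.ReflTransGen.single (hQ2 κ hκ P hP))
          (hres κ hκ P hP)
    exact Quadratic.nonspecial (Relation.ReflTransGen.single hQ) hmain

end Pool.Agent.Work.MP_0421d9_ag.LD
end

section
/-!
The two-scale square root window: if the points in `B` alone impose independent conditions and the
other points have multiplicities at most `u`, then for special nonempty systems the square roots of
the dimension and of the superabundance add up to at most `√(u M)`.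
-/

set_option linter.unusedSectionVars false

namespace Pool.Agent.Work.MP_0421d9_ag

open MvPolynomial Module

section kk

variable {d : ℕ}

/-- the arithmetic of a step at a small point, the first part of the window moves -/
theorem kq_tail {u M c e k' e' X S' δ t : ℕ} (huM : u ≤ M) (ht : 1 ≤ t) (hk : k' = c + t)
    (he : e = e' + t) (hu : k' + e' = u) (hX : u * X ≤ c * c * M) (hδ : δ ≤ e)
    (h : e' * (X + c) + k' * S' ≤ k' * e' * M) :
    e * X + c * (S' + δ) ≤ c * e * M := by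
  subst hk he hu
  have hpos : 0 < c + t := by omega
  refine Nat.le_of_mul_le_mul_left ?_ hpos
  have h1 : c * (e' * (X + c) + (c + t) * S') ≤ c * ((c + t) * e' * M) :=
    Nat.mul_le_mul_left _ h
  have h2 : t * ((c + t + e') * X) ≤ t * (c * c * M) := Nat.mul_le_mul_left _ hX
  have h3 : (c + t) * (c * δ) ≤ (c + t) * (c * (e' + t)) :=
    Nat.mul_le_mul_left _ (Nat.mul_le_mul_left _ hδ)
  have h4 : c * t * (c + t + e') ≤ c * t * (t * M) := by
    apply Nat.mul_le_mul_left
    calc c + t + e' ≤ M := huM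
      _ ≤ t * M := Nat.le_mul_of_pos_left M ht
  calc (c + t) * ((e' + t) * X + c * (S' + δ))
      = t * ((c + t + e') * X) + (c * (e' * X + (c + t) * S')) + (c + t) * (c * δ) := by ring
    _ ≤ t * (c * c * M) + (c * (e' * X + (c + t) * S')) + (c + t) * (c * (e' + t)) := by
        gcongr
    _ = t * (c * c * M) + (c * (e' * (X + c) + (c + t) * S')) + c * t * (c + t + e') := by ring
    _ ≤ t * (c * c * M) + c * ((c + t) * e' * M) + c * t * (t * M) := by
        gcongr
    _ = (c + t) * (c * (e' + t) * M) := by ring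

/-- the arithmetic of a step at a large point, the first part of the window moves -/
theorem kq_big {u M c f e k' e' X S' δ t : ℕ} (ht : 1 ≤ t) (hk : k' = f + t)
    (he : e = e' + t) (hu : k' + e' = u) (hX : X ≤ f * c) (hδ : c + δ ≤ M)
    (hcu : c * u ≤ k' * M) (h : e' * (X + c) + k' * S' ≤ k' * e' * M) :
    e * X + f * (S' + δ) ≤ f * e * M := by
  subst hk he hu
  have hpos : 0 < f + t := by omega
  refine Nat.le_of_mul_le_mul_left ?_ hpos
  obtain ⟨t', rfl⟩ : ∃ t', t = t' + 1 := ⟨t - 1, by omega⟩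
  have h1 : f * (e' * (X + c) + (f + (t' + 1)) * S') ≤ f * ((f + (t' + 1)) * e' * M) :=
    Nat.mul_le_mul_left _ h
  have h2 : (t' + 1) * (f + (t' + 1) + e') * X ≤ (t' + 1) * (f + (t' + 1) + e') * (f * c) :=
    Nat.mul_le_mul_left _ hX
  have h3 : (f + (t' + 1)) * (f * (c + δ)) ≤ (f + (t' + 1)) * (f * M) :=
    Nat.mul_le_mul_left _ (Nat.mul_le_mul_left _ hδ)
  have h4 : f * t' * (c * (f + (t' + 1) + e')) ≤ f * t' * ((f + (t' + 1)) * M) :=
    Nat.mul_le_mul_left _ hcu
  -- everything is added up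
  have key : (f + (t' + 1)) * ((e' + (t' + 1)) * X + f * (S' + δ)) +
      (f * e' * c + f * (f + (t' + 1)) * c) ≤
      (f + (t' + 1)) * (f * (e' + (t' + 1)) * M) + (f * e' * c + f * (f + (t' + 1)) * c) := by
    calc (f + (t' + 1)) * ((e' + (t' + 1)) * X + f * (S' + δ)) +
          (f * e' * c + f * (f + (t' + 1)) * c)
        = f * (e' * (X + c) + (f + (t' + 1)) * S') + (t' + 1) * (f + (t' + 1) + e') * X +
          (f + (t' + 1)) * (f * (c + δ)) := by ring
      _ ≤ f * ((f + (t' + 1)) * e' * M) + (t' + 1) * (f + (t' + 1) + e') * (f * c) +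
          (f + (t' + 1)) * (f * M) := by gcongr
      _ = f * ((f + (t' + 1)) * e' * M) + (f + (t' + 1)) * (f * M) +
          f * t' * (c * (f + (t' + 1) + e')) + (f * e' * c + f * (f + (t' + 1)) * c) := by ring
      _ ≤ f * ((f + (t' + 1)) * e' * M) + (f + (t' + 1)) * (f * M) +
          f * t' * ((f + (t' + 1)) * M) + (f * e' * c + f * (f + (t' + 1)) * c) := by gcongr
      _ = (f + (t' + 1)) * (f * (e' + (t' + 1)) * M) +
          (f * e' * c + f * (f + (t' + 1)) * c) := by ring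
  exact Nat.le_of_add_le_add_right key

/-- **The two-scale square root window.** -/
theorem kq_aux {r : ℕ} {p : Fin r → V3} {E : Fin r → Fin 3 → Derivation ℚ ℂ ℂ}
    (hE : IsDual p E) (B : Finset (Fin r)) (u M : ℕ)
    (huM : u ≤ M) : ∀ (N : ℕ) (m : Fin r → ℕ) (S : ℕ), ∑ l, m l ≤ N →
    (∀ i, m i ≤ M) → (∀ i, i ∉ B → m i ≤ u) →
    finrank ℂ (linSys d p (onB B m)) + ∑ i, (onB B m i + 1).choose 2 = (d + 2).choose 2 →
    finrank ℂ (linSys d p m) ≠ 0 →
    finrank ℂ (linSys d p m) + ∑ i, (m i + 1).choose 2 = (d + 2).choose 2 + S → 1 ≤ S →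
    ∃ k e, 1 ≤ k ∧ 1 ≤ e ∧ k + e = u ∧
      e * finrank ℂ (linSys d p m) + k * S ≤ k * e * M := by
  intro N
  induction N with
  | zero =>
    intro m S hN hM hms hB hne hS hS1
    exfalso
    obtain ⟨i, hi, -⟩ := exists_defect (d := d) hE (m := m) (by omega)
    have := Finset.single_le_sum (f := m) (fun j _ => Nat.zero_le (m j)) (Finset.mem_univ i)
    omega
  | succ N ih =>
    intro m S hN hM hms hb hne hS hS1
    have hd := le_of_finrank_pos hne
    obtain ⟨i, hi0, hci⟩ := exists_defect_above (d := d) hE (b := onB B m) (m := m) hb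
      (fun l => by
        unfold onB
        split_ifs
        · exact le_rfl
        · exact Nat.zero_le _) (by omega)
    have hiB : i ∉ B := by
      intro h
      unfold onB at hi0
      rw [if_pos h] at hi0
      omega
    have hi : 1 ≤ m i := by omega
    set X := finrank ℂ (linSys d p m) with hX
    -- the dimension
    have hXK : ∀ K, (∀ l, 1 ≤ m l → cc d p (dn m l) l ≤ K) →
        X ≤ cc d p (dn m i) i * K := by
      intro K hK
      have h1 := chain_all hE i K (cc d p (dn m i) i) (dn m i) le_rfl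
        (by rw [dn_self]; exact hci) (by
        intro l hli hl
        rw [dn_ne _ hli] at hl
        rw [dn_comm m hli.symm, up_dn (by rw [dn_ne _ hli.symm]; exact hi)]
        exact hK l hl)
      rw [up_dn hi] at h1
      exact h1
    have hcle : ∀ l, 1 ≤ m l → cc d p (dn m l) l ≤ m l := by
      intro l hl
      have h1 := cc_le hE (y := dn m l) (fun l' => (dn_le m l l').trans (hd l')) l
      rw [dn_self] at h1
      omega
    -- the largest value at the small points
    obtain ⟨t, ht, htmax⟩ := Finset.exists_max_image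
      (Finset.univ.filter (fun x => x ∉ B ∧ 1 ≤ m x)) (fun x => cc d p (dn m x) x)
      ⟨i, Finset.mem_filter.mpr ⟨Finset.mem_univ _, hiB, hi⟩⟩
    rw [Finset.mem_filter] at ht
    obtain ⟨-, htB, ht1⟩ := ht
    have htmax' : ∀ l, l ∉ B → 1 ≤ m l → cc d p (dn m l) l ≤ cc d p (dn m t) t :=
      fun l hlB hl => htmax l (Finset.mem_filter.mpr ⟨Finset.mem_univ _, hlB, hl⟩)
    obtain ⟨ct, hct⟩ : ∃ ct, ct = cc d p (dn m t) t := ⟨_, rfl⟩
    rw [← hct] at htmax'
    have hcit : cc d p (dn m i) i ≤ ct := htmax' i hiB hi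
    have hctu : ct ≤ u := by
      rw [hct]
      exact (hcle t ht1).trans (hms t htB)
    have hct1 : 1 ≤ ct := by
      rcases Nat.eq_zero_or_pos ct with h0 | h0
      · have h1 : cc d p (dn m i) i = 0 := by omega
        have h2 := hXK (d + 1 + M) (fun l hl => by
          have := hcle l hl
          have := hM l
          omega)
        rw [h1, Nat.zero_mul] at h2
        omega
      · exact h0
    -- one step down
    have hstep : ∀ j, 1 ≤ m j → ∃ δ S', m j = cc d p (dn m j) j + δ ∧ S = S' + δ ∧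
        (1 ≤ S' → ∃ k e, 1 ≤ k ∧ 1 ≤ e ∧ k + e = u ∧
          e * (X + cc d p (dn m j) j) + k * S' ≤ k * e * M) := by
      intro j hj
      have hcj := hcle j hj
      have hX' : finrank ℂ (linSys d p (dn m j)) = X + cc d p (dn m j) j := by
        have h1 := cc_add (d := d) (p := p) (dn m j) j
        rw [up_dn hj] at h1
        exact h1
      have hsg : ∑ l, (m l + 1).choose 2 = ∑ l, (dn m j l + 1).choose 2 + m j := by
        have h1 := sum_choose_up (dn m j) j
        rw [up_dn hj, dn_self] at h1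
        omega
      have hchi := chi_le (d := d) (p := p) (m := dn m j)
        (fun l => ((dn_le m j l).trans (hd l)).trans (Nat.le_succ d))
      obtain ⟨δ, hδ⟩ : ∃ δ, m j = cc d p (dn m j) j + δ := ⟨m j - cc d p (dn m j) j, by omega⟩
      obtain ⟨S', hS'⟩ : ∃ S', S = S' + δ := ⟨S - δ, by omega⟩
      refine ⟨δ, S', hδ, hS', fun h0 => ?_⟩
      have hS'' : finrank ℂ (linSys d p (dn m j)) + ∑ l, (dn m j l + 1).choose 2 =
          (d + 2).choose 2 + S' := by omega
      have hsum : ∑ l, dn m j l ≤ N := by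
        have h2 : ∑ l, dn m j l + 1 = ∑ l, m l := by
          rw [← Finset.add_sum_erase _ _ (Finset.mem_univ j),
            ← Finset.add_sum_erase _ m (Finset.mem_univ j), dn_self]
          have h3 : ∑ l ∈ Finset.univ.erase j, dn m j l = ∑ l ∈ Finset.univ.erase j, m l := by
            refine Finset.sum_congr rfl (fun l hl => ?_)
            rw [dn_ne _ (Finset.ne_of_mem_erase hl)]
          omega
        omega
      have hle := ih (dn m j) S' hsum (fun l => (dn_le m j l).trans (hM l))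
        (fun l hl => (dn_le m j l).trans (hms l hl)) (reg_le hE (∑ l, onB B m l) (onB B m) le_rfl
          (onB_mono B (dn_le m j)) (fun l => (onB_le B m l).trans (hd l)) hb)
        (by omega) hS'' h0
      rw [hX'] at hle
      exact hle
    by_cases hcase : ∀ l, l ∈ B → 1 ≤ m l → cc d p (dn m l) l * u ≤ ct * M
    · -- a step at a small point
      have hXt : u * X ≤ ct * ct * M := by
        rcases Nat.eq_zero_or_pos u with hu0 | hu0
        · omega
        have h1 := hXK (ct * M / u) (fun l hl => by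
          rw [Nat.le_div_iff_mul_le hu0]
          by_cases hlB : l ∈ B
          · exact hcase l hlB hl
          · exact Nat.mul_le_mul (htmax' l hlB hl) huM)
        calc u * X ≤ u * (cc d p (dn m i) i * (ct * M / u)) := Nat.mul_le_mul_left _ h1
          _ = cc d p (dn m i) i * (ct * M / u * u) := by ring
          _ ≤ ct * (ct * M) := Nat.mul_le_mul hcit (Nat.div_mul_le_self _ _)
          _ = ct * ct * M := by ring
      obtain ⟨δ, S', hδ, hS', hind⟩ := hstep t ht1
      rw [← hct] at hδ hind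
      have hmt := hms t htB
      rcases Nat.eq_zero_or_pos S' with h0 | h0
      · -- the next system is nonspecial
        refine ⟨ct, u - ct, hct1, by omega, by omega, ?_⟩
        obtain ⟨e, he⟩ : ∃ e, u = ct + e := ⟨u - ct, by omega⟩
        have he1 : 1 ≤ e := by omega
        have e1 : u - ct = e := by omega
        have hSe : S ≤ e := by omega
        rw [e1]
        have hupos : 0 < u := by omega
        refine Nat.le_of_mul_le_mul_left ?_ hupos
        have h3 : ct * M + u ≤ u * M := by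
          rw [he, Nat.add_mul]
          have : ct + e ≤ e * M := by
            calc ct + e = u := he.symm
              _ ≤ M := huM
              _ ≤ e * M := Nat.le_mul_of_pos_left M he1
          omega
        calc u * (e * X + ct * S) = e * (u * X) + u * (ct * S) := by ring
          _ ≤ e * (ct * ct * M) + u * (ct * e) := by gcongr
          _ = ct * e * (ct * M + u) := by ring
          _ ≤ ct * e * (u * M) := Nat.mul_le_mul_left _ h3
          _ = u * (ct * e * M) := by ring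
      · obtain ⟨k', e', hk', he', hke, hle⟩ := hind h0
        rcases Nat.lt_or_ge ct k' with h1 | h1
        · refine ⟨ct, u - ct, hct1, by omega, by omega, ?_⟩
          rw [hS']
          exact kq_tail (t := k' - ct) huM (by omega) (by omega) (by omega) hke hXt (by omega) hle
        · refine ⟨k', e', hk', he', hke, ?_⟩
          have h2 : k' * δ ≤ e' * ct := by
            calc k' * δ ≤ ct * e' := Nat.mul_le_mul h1 (by omega)
              _ = e' * ct := Nat.mul_comm _ _
          calc e' * X + k' * S = e' * X + k' * S' + k' * δ := by rw [hS']; ring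
            _ ≤ e' * X + k' * S' + e' * ct := Nat.add_le_add_left h2 _
            _ = e' * (X + ct) + k' * S' := by ring
            _ ≤ _ := hle
    · -- a step at a large point
      push Not at hcase
      obtain ⟨l₀, hl₀B, hl₀, hl₀c⟩ := hcase
      obtain ⟨b, hb', hbmax⟩ := Finset.exists_max_image
        (Finset.univ.filter (fun x => x ∈ B ∧ 1 ≤ m x)) (fun x => cc d p (dn m x) x)
        ⟨l₀, Finset.mem_filter.mpr ⟨Finset.mem_univ _, hl₀B, hl₀⟩⟩
      rw [Finset.mem_filter] at hb'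
      obtain ⟨-, hbB, hb1⟩ := hb'
      have hbmax' : ∀ l, l ∈ B → 1 ≤ m l → cc d p (dn m l) l ≤ cc d p (dn m b) b :=
        fun l hlB hl => hbmax l (Finset.mem_filter.mpr ⟨Finset.mem_univ _, hlB, hl⟩)
      obtain ⟨c, hc⟩ : ∃ c, c = cc d p (dn m b) b := ⟨_, rfl⟩
      rw [← hc] at hbmax'
      have hcu : ct * M < c * u :=
        hl₀c.trans_le (Nat.mul_le_mul_right _ (hbmax' l₀ hl₀B hl₀))
      have hctc : ct ≤ c := by
        by_contra hcon
        push Not at hcon
        have h1 : c * u ≤ ct * M := Nat.mul_le_mul hcon.le huM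
        omega
      have hXc : X ≤ ct * c := by
        have h1 := hXK c (fun l hl => by
          by_cases hlB : l ∈ B
          · exact hbmax' l hlB hl
          · exact (htmax' l hlB hl).trans hctc)
        exact h1.trans (Nat.mul_le_mul_right _ hcit)
      obtain ⟨δ, S', hδ, hS', hind⟩ := hstep b hb1
      rw [← hc] at hδ hind
      have hmb := hM b
      have hM0 : 0 < M := by omega
      obtain ⟨f, hf⟩ : ∃ f, f = c * u / M := ⟨_, rfl⟩
      have hctf : ct ≤ f := by
        rw [hf, Nat.le_div_iff_mul_le hM0]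
        exact hcu.le
      have hfM : f * M ≤ c * u := by
        rw [hf]
        exact Nat.div_mul_le_self _ _
      have hXf : X ≤ f * c := hXc.trans (Nat.mul_le_mul_right _ hctf)
      rcases Nat.eq_zero_or_pos S' with h0 | h0
      · -- the next system is nonspecial
        have hcM : c < M := by omega
        have hfu : f < u := by
          by_contra hcon
          push Not at hcon
          have h1 : u * M ≤ f * M := Nat.mul_le_mul_right _ hcon
          have h2 : c * u < M * u := by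
            apply Nat.mul_lt_mul_of_pos_right hcM
            omega
          have h3 : M * u = u * M := Nat.mul_comm _ _
          omega
        obtain ⟨e, he⟩ : ∃ e, u = f + (e + 1) := ⟨u - f - 1, by omega⟩
        refine ⟨f, e + 1, by omega, by omega, he.symm, ?_⟩
        have hSM : c + S ≤ M := by omega
        have h1 : f * (c + S) ≤ f * M := Nat.mul_le_mul_left _ hSM
        have h2 : (e + 1) * X ≤ (e + 1) * (f * c) := Nat.mul_le_mul_left _ hXf
        have h3 : f * e * c ≤ f * e * M := Nat.mul_le_mul_left _ hcM.le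
        calc (e + 1) * X + f * S ≤ (e + 1) * (f * c) + f * S := Nat.add_le_add_right h2 _
          _ = f * e * c + f * (c + S) := by ring
          _ ≤ f * e * M + f * M := Nat.add_le_add h3 h1
          _ = f * (e + 1) * M := by ring
      · obtain ⟨k', e', hk', he', hke, hle⟩ := hind h0
        rcases Nat.lt_or_ge (c * u) (k' * M) with h1 | h1
        · have hfk : f < k' := by
            by_contra hcon
            push Not at hcon
            have h2 : k' * M ≤ f * M := Nat.mul_le_mul_right _ hcon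
            omega
          refine ⟨f, u - f, by omega, by omega, by omega, ?_⟩
          rw [hS']
          exact kq_big (t := k' - f) (by omega) (by omega) (by omega) hke hXf (by omega) h1.le hle
        · refine ⟨k', e', hk', he', hke, ?_⟩
          have h2 : k' * δ ≤ e' * c := by
            have h3 : k' * (c + δ) ≤ k' * M := Nat.mul_le_mul_left _ (by omega)
            have h4 : k' * M ≤ c * (k' + e') := by rw [hke]; exact h1
            have h5 : k' * (c + δ) = k' * c + k' * δ := by ring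
            have h6 : c * (k' + e') = k' * c + e' * c := by ring
            omega
          calc e' * X + k' * S = e' * X + k' * S' + k' * δ := by rw [hS']; ring
            _ ≤ e' * X + k' * S' + e' * c := Nat.add_le_add_left h2 _
            _ = e' * (X + c) + k' * S' := by ring
            _ ≤ _ := hle

/-- **The two-scale square root window.** -/
theorem kq_window {r : ℕ} {p : Fin r → V3} (hp : GenericPoints p) {m : Fin r → ℕ} {u M : ℕ}
    (huM : u ≤ M) (hM : ∀ i, m i ≤ M) (B : Finset (Fin r)) (hms : ∀ i, i ∉ B → m i ≤ u)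
    (hB : finrank ℂ (linSys d p (onB B m)) + ∑ i, (onB B m i + 1).choose 2 = (d + 2).choose 2)
    (hne : linSys d p m ≠ ⊥)
    (h : finrank ℂ (linSys d p m) + ∑ i, (m i + 1).choose 2 ≠ (d + 2).choose 2) :
    ∃ k e S, 1 ≤ k ∧ 1 ≤ e ∧ k + e = u ∧ 1 ≤ S ∧
      finrank ℂ (linSys d p m) + ∑ i, (m i + 1).choose 2 = (d + 2).choose 2 + S ∧
      e * finrank ℂ (linSys d p m) + k * S ≤ k * e * M := by
  obtain ⟨E, hE⟩ := exists_dual p hp
  have hfin : Module.Finite ℂ (linSys d p m) :=
    Submodule.finiteDimensional_of_le (linSys_le d p _)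
  have hne' : finrank ℂ (linSys d p m) ≠ 0 := fun h0 =>
    hne (Submodule.finrank_eq_zero.mp h0)
  have h1 := chi_le (d := d) (p := p) (m := m)
    (fun i => (le_of_finrank_pos hne' i).trans (Nat.le_succ d))
  obtain ⟨S, hS⟩ : ∃ S, finrank ℂ (linSys d p m) + ∑ i, (m i + 1).choose 2 =
      (d + 2).choose 2 + S := ⟨_, (Nat.add_sub_cancel' h1).symm⟩
  have hS1 : 1 ≤ S := by omega
  obtain ⟨k, e, h2, h3, h4, h5⟩ := kq_aux hE B u M huM (∑ l, m l) m S le_rfl hM hms hB hne' hS hS1
  exact ⟨k, e, S, h2, h3, h4, hS1, hS, h5⟩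

/-- the dimension of a special system above a nonspecial one -/
theorem special_bound_above {ι : Type} [Fintype ι] [DecidableEq ι] {p : ι → V3}
    {E : ι → Fin 3 → Derivation ℚ ℂ ℂ} (hE : IsDual p E) {b m : ι → ℕ}
    (hb : finrank ℂ (linSys d p b) + ∑ i, (b i + 1).choose 2 = (d + 2).choose 2)
    (hbm : ∀ i, b i ≤ m i) (hpos : 0 < finrank ℂ (linSys d p m))
    (h : (d + 2).choose 2 < finrank ℂ (linSys d p m) + ∑ i, (m i + 1).choose 2) :
    ∃ i j, b i < m i ∧ i ≠ j ∧ finrank ℂ (linSys d p m) ≤ (m i - 1) * (m j - 1) := by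
  obtain ⟨y, i, hy, hby, hc⟩ := exists_incomplete_above hb (∑ i, m i) m le_rfl hbm h
  have h1 : finrank ℂ (linSys d p m) ≤ finrank ℂ (linSys d p (up y i)) :=
    Submodule.finrank_mono (linSys_mono hy)
  -- there is another point
  have hne : ∃ j, j ≠ i := by
    by_contra hcon
    push Not at hcon
    have := (finrank_le_of_incomplete hE hc (M := 0) (fun j hj => absurd (hcon j) hj)).1
    have h2 : finrank ℂ (linSys d p (up y i)) ≤ finrank ℂ (linSys d p y) :=
      Submodule.finrank_mono (linSys_mono (le_up y i))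
    omega
  obtain ⟨j₀, hj₀⟩ := hne
  obtain ⟨j, hj, hjmax⟩ := Finset.exists_max_image (Finset.univ.erase i) m
    ⟨j₀, Finset.mem_erase.mpr ⟨hj₀, Finset.mem_univ _⟩⟩
  have hji := Finset.ne_of_mem_erase hj
  have hyi := hy i
  rw [up_self] at hyi
  refine ⟨i, j, by have := hby i; omega, hji.symm, ?_⟩
  have h2 := (finrank_le_of_incomplete hE hc (M := m j) (fun l hl => by
    refine le_trans ?_ (hjmax l (Finset.mem_erase.mpr ⟨hl, Finset.mem_univ _⟩))
    have := hy l
    rwa [up_ne _ hl] at this)).2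
  refine h1.trans (h2.trans ?_)
  apply Nat.mul_le_mul_right
  omega

/-- the bound for `|χ|` -/
theorem kq_bound {X S k e u M : ℕ} (hk : 1 ≤ k) (he : 1 ≤ e) (hu : k + e = u) (huM : u ≤ M)
    (hS : 1 ≤ S) (h : e * X + k * S ≤ k * e * M) : X < S + (M - 1) * (u - 1) := by
  obtain ⟨f, rfl⟩ : ∃ f, e = f + 1 := ⟨e - 1, by omega⟩
  obtain ⟨g, rfl⟩ : ∃ g, M = k + f + 1 + g := ⟨M - (k + f + 1), by omega⟩
  have e1 : k + f + 1 + g - 1 = k + f + g := by omega
  have e2 : u - 1 = k + f := by omega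
  rw [e1, e2]
  by_contra hcon
  push Not at hcon
  have h1 : (f + 1) * (S + (k + f + g) * (k + f)) ≤ (f + 1) * X := Nat.mul_le_mul_left _ hcon
  have h2 : k * (f + 1) * (k + f + 1 + g) < (f + 1) * (S + (k + f + g) * (k + f)) + k * S := by
    obtain ⟨S', rfl⟩ : ∃ S', S = S' + 1 := ⟨S - 1, by omega⟩
    have h3 : 0 ≤ (f + 1) * S' + k * S' + f * f * (k + f + g) + f * (f + g) := Nat.zero_le _
    nlinarith [Nat.zero_le (f * f * g), Nat.zero_le (f * f * f), Nat.zero_le (f * f * k),
      Nat.zero_le (f * k), Nat.zero_le (f * g), Nat.zero_le (f * f), Nat.zero_le (k * S'),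
      Nat.zero_le (f * S')]
  omega

/-- all the systems outside of the window are nonspecial -/
theorem kq_nonspecial {r : ℕ} {p : Fin r → V3} (hp : GenericPoints p) {m : Fin r → ℕ} {u M : ℕ}
    (huM : u ≤ M) (hM : ∀ i, m i ≤ M) (B : Finset (Fin r)) (hms : ∀ i, i ∉ B → m i ≤ u)
    (hB : finrank ℂ (linSys d p (onB B m)) + ∑ i, (onB B m i + 1).choose 2 = (d + 2).choose 2)
    (h : (d + 2).choose 2 + (M - 1) * (u - 1) ≤ ∑ i, (m i + 1).choose 2 ∨
      ∑ i, (m i + 1).choose 2 + (M - 1) * (u - 1) ≤ (d + 2).choose 2) :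
    finrank ℂ (linSys d p m) = (d + 2).choose 2 - ∑ i, (m i + 1).choose 2 := by
  have hfin : Module.Finite ℂ (linSys d p m) :=
    Submodule.finiteDimensional_of_le (linSys_le d p _)
  by_cases hne : linSys d p m = ⊥
  · have h1 : finrank ℂ (linSys d p m) = 0 := by rw [hne, finrank_bot]
    rw [h1]
    -- the virtual dimension is not positive
    symm
    rw [Nat.sub_eq_zero_iff_le]
    by_contra hcon
    push Not at hcon
    by_cases hm : ∀ i, m i ≤ d + 1
    · have h2 := chi_le (d := d) (p := p) hm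
      omega
    · push Not at hm
      obtain ⟨i, hi⟩ := hm
      have h2 : (m i + 1).choose 2 ≤ ∑ i, (m i + 1).choose 2 :=
        Finset.single_le_sum (f := fun i => (m i + 1).choose 2) (fun _ _ => Nat.zero_le _)
          (Finset.mem_univ i)
      have h3 : (d + 2).choose 2 ≤ (m i + 1).choose 2 := Nat.choose_le_choose 2 (by omega)
      omega
  · have hpos : 1 ≤ finrank ℂ (linSys d p m) := by
      rw [Nat.one_le_iff_ne_zero]
      exact fun h0 => hne (Submodule.finrank_eq_zero.mp h0)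
    by_cases hs : finrank ℂ (linSys d p m) + ∑ i, (m i + 1).choose 2 = (d + 2).choose 2
    · omega
    · exfalso
      obtain ⟨k, e, S, hk, he, hke, hS, hS', hle⟩ := kq_window hp huM hM B hms hB hne hs
      have h1 := kq_bound hk he hke huM hS hle
      have h2 := kq_bound (X := S) (S := finrank ℂ (linSys d p m)) (k := e) (e := k) (u := u)
        (M := M) he hk (by omega) huM hpos (by rw [Nat.mul_comm e k]; omega)
      omega

theorem kq_sqrt_add_le {X S k e u M : ℕ} (hk : 1 ≤ k) (he : 1 ≤ e) (hu : k + e = u)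
    (h : e * X + k * S ≤ k * e * M) : √(X : ℝ) + √(S : ℝ) ≤ √((u : ℝ) * M) := by
  have hx := Real.sq_sqrt (Nat.cast_nonneg (α := ℝ) X)
  have hy := Real.sq_sqrt (Nat.cast_nonneg (α := ℝ) S)
  have hx0 := Real.sqrt_nonneg (X : ℝ)
  have hy0 := Real.sqrt_nonneg (S : ℝ)
  have hk' : (1 : ℝ) ≤ k := by exact_mod_cast hk
  have he' : (1 : ℝ) ≤ e := by exact_mod_cast he
  have hu' : (u : ℝ) = k + e := by rw [← hu]; push_cast; ring
  have h' : (e : ℝ) * X + k * S ≤ k * e * M := by exact_mod_cast h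
  set x := √(X : ℝ)
  set y := √(S : ℝ)
  rw [← hx, ← hy] at h'
  apply Real.le_sqrt_of_sq_le
  have h1 : (k * e : ℝ) * (x + y) ^ 2 ≤ (k * e : ℝ) * ((u : ℝ) * M) := by
    have h2 : (k * e : ℝ) * (x + y) ^ 2 = (u : ℝ) * (e * x ^ 2 + k * y ^ 2) -
        (e * x - k * y) ^ 2 := by rw [hu']; ring
    have h3 : (u : ℝ) * (e * x ^ 2 + k * y ^ 2) ≤ u * (k * e * M) :=
      mul_le_mul_of_nonneg_left h' (Nat.cast_nonneg u)
    nlinarith [sq_nonneg (e * x - k * y : ℝ)]
  have hke : (0 : ℝ) < k * e := by positivity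
  exact le_of_mul_le_mul_left h1 hke

end kk

end Pool.Agent.Work.MP_0421d9_ag
end

section
/-!
Systems with many conditions imposed by points of small multiplicity, with less of them.
-/

namespace Pool.Agent.Work.MP_0421d9_ag.LD

open MvPolynomial Module

theorem le_sq_self' (u : ℕ) : u + 1 ≤ (u + 1) ^ 2 := by
  have e0 : (u + 1) ^ 2 = (u + 1) * (u + 1) := sq _
  have h3 : (u + 1) * 1 ≤ (u + 1) * (u + 1) := Nat.mul_le_mul_left _ (by omega)
  omega

/-- numbers in the first case -/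
theorem fm_num {u M M₂ d N : ℕ} (hu : 1 ≤ u) (huM₂ : u ≤ M₂) (hMd : M ≤ d)
    (hd : 32 * (u + 1) ^ 2 ≤ d)
    (h : 2 * N + 6 * (M₂ * M) + 18 * ((u + 1) ^ 2 * M) + 6 * ((u + 1) * d) ≤
      (d + 2) * (d + 1)) :
    ∃ q D₁ g, d = D₁ + q * (u + 1) ∧ q * (u + 1) ≤ 9 * (u + 1) ^ 2 ∧
      6 * (M₂ * M) + 2 * N ≤ (D₁ + 2) * (D₁ + 1) ∧
      2 * N + 6 * (u * M) + (2 * u + 1) * (D₁ + 1) ≤ (D₁ + 2) * (D₁ + 1) ∧
      u.choose 2 + 2 ≤ g ∧ 2 * g + (u + 1).choose 2 + u ≤ D₁ + 1 ∧
      3 * (u * M) ≤ g * q := by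
  obtain ⟨q, hq⟩ : ∃ q, q = 9 * (u * M) / d + 1 := ⟨_, rfl⟩
  have hd1 : 1 ≤ d := by
    have := le_sq_self' u
    omega
  have hq1 : q ≤ 9 * u + 1 := by
    have h1 : 9 * (u * M) / d ≤ 9 * u := by
      apply Nat.div_le_of_le_mul
      have h2 : u * M ≤ u * d := Nat.mul_le_mul_left u hMd
      have e1 : d * (9 * u) = 9 * (u * d) := by ring
      omega
    omega
  have hq2 : 9 * (u * M) ≤ d * q := by
    have h1 := Nat.lt_mul_div_succ (9 * (u * M)) (b := d) (by omega)
    rw [hq]
    exact h1.le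
  have hq3 : d * q ≤ 9 * (u * M) + d := by
    have h1 := Nat.mul_div_le (9 * (u * M)) d
    have e1 : d * q = d * (9 * (u * M) / d) + d := by rw [hq]; ring
    omega
  have hΔ : q * (u + 1) ≤ 9 * (u + 1) ^ 2 := by
    have h1 : q * (u + 1) ≤ 9 * (u + 1) * (u + 1) := Nat.mul_le_mul_right _ (by omega)
    have e1 : 9 * (u + 1) * (u + 1) = 9 * (u + 1) ^ 2 := by ring
    omega
  obtain ⟨s, hs⟩ : ∃ s, s = (u + 1) ^ 2 := ⟨_, rfl⟩
  have e0 : (u + 1) ^ 2 = u * u + 2 * u + 1 := by ring
  have hs2 : s = u * u + 2 * u + 1 := by rw [hs, e0]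
  have huu : 1 * u ≤ u * u := Nat.mul_le_mul_right u hu
  rw [← hs] at h hΔ hd ⊢
  obtain ⟨D₁, hD₁⟩ : ∃ D₁, d = D₁ + q * (u + 1) := ⟨d - q * (u + 1), by omega⟩
  set Δ := q * (u + 1) with hΔdef
  have hc1 : (u + 1).choose 2 = u + u.choose 2 := by
    rw [Nat.choose_succ_succ' u 1, Nat.choose_one_right]
  have hc2 : 2 * (u + 1).choose 2 = u * (u + 1) := tr_two_choose u
  have e2 : u * (u + 1) = u * u + u := by ring
  -- the loss
  have hdiff : (d + 2) * (d + 1) ≤ (D₁ + 2) * (D₁ + 1) + Δ * (2 * d + 3) := by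
    have e4 : (d + 2) * (d + 1) = (D₁ + 2) * (D₁ + 1) + Δ * (d + D₁ + 3) := by
      rw [hD₁]
      ring
    rw [e4]
    apply Nat.add_le_add_left
    exact Nat.mul_le_mul_left _ (by omega)
  have hloss : Δ * (2 * d + 3) ≤ 18 * (s * M) + 3 * ((u + 1) * d) := by
    have e5 : Δ * (2 * d + 3) = 2 * ((u + 1) * (d * q)) + 3 * Δ := by rw [hΔdef]; ring
    have h1 : (u + 1) * (d * q) ≤ (u + 1) * (9 * (u * M) + d) := Nat.mul_le_mul_left _ hq3
    have e6 : (u + 1) * (9 * (u * M) + d) = 9 * (u * (u + 1) * M) + (u + 1) * d := by ring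
    have h2 : u * (u + 1) * M ≤ s * M := Nat.mul_le_mul_right M (by omega)
    have h3 : 2 * d ≤ (u + 1) * d := Nat.mul_le_mul_right d (by omega)
    omega
  have hroom : (2 * u + 1) * (D₁ + 1) ≤ 3 * ((u + 1) * d) := by
    have h1 : (2 * u + 1) * (D₁ + 1) ≤ (2 * u + 1) * (d + 1) := Nat.mul_le_mul_left _ (by omega)
    have e7 : (2 * u + 1) * (d + 1) = 2 * ((u + 1) * d) + (2 * u + 1) - d := by
      have e8 : (2 * u + 1) * (d + 1) + d = 2 * ((u + 1) * d) + (2 * u + 1) := by ring
      omega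
    have h3 : 2 * d ≤ (u + 1) * d := Nat.mul_le_mul_right d (by omega)
    omega
  have huM : 6 * (u * M) ≤ 6 * (M₂ * M) :=
    Nat.mul_le_mul_left 6 (Nat.mul_le_mul_right M huM₂)
  refine ⟨q, D₁, (D₁ + 1 - u - (u + 1).choose 2) / 2, hD₁, hΔ, ?_, ?_, ?_, ?_, ?_⟩
  · omega
  · omega
  · omega
  · omega
  · obtain ⟨g, hg⟩ : ∃ g, g = (D₁ + 1 - u - (u + 1).choose 2) / 2 := ⟨_, rfl⟩
    rw [← hg]
    have h3 : d ≤ 3 * g := by omega
    have h4 : d * q ≤ 3 * g * q := Nat.mul_le_mul_right q h3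
    have e6 : 3 * g * q = 3 * (g * q) := by ring
    omega

/-- the number of conditions imposed by the points in `I` and the points of multiplicity greater
than `u` -/
def bigC {r : ℕ} (I : Finset (Fin r)) (u : ℕ) (m : Fin r → ℕ) : ℕ :=
  ∑ i ∈ Finset.univ.filter (fun i => i ∈ I ∨ u < m i), (m i + 1).choose 2

/-- the number of conditions imposed by the other points -/
def smallC {r : ℕ} (I : Finset (Fin r)) (u : ℕ) (m : Fin r → ℕ) : ℕ :=
  ∑ i ∈ Finset.univ.filter (fun i => i ∉ I ∧ m i ≤ u), (m i + 1).choose 2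

theorem sum_big_small {r : ℕ} (I : Finset (Fin r)) (u : ℕ) (m : Fin r → ℕ) :
    ∑ i, (m i + 1).choose 2 = bigC I u m + smallC I u m := by
  unfold bigC smallC
  rw [← Finset.sum_filter_add_sum_filter_not Finset.univ (fun i => i ∈ I ∨ u < m i)]
  congr 1
  apply Finset.sum_congr _ (fun _ _ => rfl)
  ext i
  simp only [Finset.mem_filter, Finset.mem_univ, true_and, not_or, not_lt]

/-- the numbers `m i`, `i ∈ I`, and their sums in pairs are at most `d - t` -/
def Apart {r : ℕ} (d t : ℕ) (I : Finset (Fin r)) (m : Fin r → ℕ) : Prop :=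
  t ≤ d ∧ (∀ i ∈ I, m i + t ≤ d) ∧ ∀ i ∈ I, ∀ j ∈ I, i ≠ j → m i + m j + t ≤ d

theorem Apart.regular {r d t D : ℕ} {p : Fin r → V3} (hp : GenericPoints p) {m : Fin r → ℕ}
    {I : Finset (Fin r)} (hI : I.card ≤ 3) (h : Apart d t I m) (hD : d ≤ D + t) :
    finrank ℂ (linSys D p (onB I m)) + ∑ i ∈ I, (m i + 1).choose 2 = (D + 2).choose 2 := by
  obtain ⟨-, h1, h2⟩ := h
  apply three_regular hp m hI
  · intro i hi
    have := h1 i hi
    omega
  · intro i hi j hj hij
    have := h2 i hi j hj hij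
    omega

theorem fbig_aux {r u M M₂ d : ℕ} {p : Fin r → V3} (hp : GenericPoints p) {m : Fin r → ℕ}
    {I : Finset (Fin r)} (hI : I.card ≤ 3) (hM : ∀ i, m i ≤ M) (hM₂ : ∀ i, i ∉ I → m i ≤ M₂)
    (hMM : M₂ ≤ M) (hMd : M ≤ d) (hu : 1 ≤ u) (huM : u ≤ M₂) (hd : 32 * (u + 1) ^ 2 ≤ d)
    (hA : Apart d (9 * (u + 1) ^ 2) I m)
    (h : bigC I u m + 3 * (M₂ * M) + 9 * ((u + 1) ^ 2 * M) + 3 * ((u + 1) * d) ≤
      (d + 2).choose 2) :
    finrank ℂ (linSys d p m) = (d + 2).choose 2 - ∑ i, (m i + 1).choose 2 := by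
  classical
  unfold bigC at h
  set B := Finset.univ.filter (fun i => i ∈ I ∨ u < m i) with hB
  have hIB : I ⊆ B := fun i hi => Finset.mem_filter.mpr ⟨Finset.mem_univ _, Or.inl hi⟩
  have hsmall : ∀ i, i ∉ B → m i ≤ u := by
    intro i hi
    by_contra hcon
    exact hi (Finset.mem_filter.mpr ⟨Finset.mem_univ _, Or.inr (by omega)⟩)
  have hdc := tm_choose d
  obtain ⟨q, D₁, g, hD₁, hΔ, c1, c2, c3, c4, c5⟩ := fm_num (N := ∑ i ∈ B, (m i + 1).choose 2)
    hu huM hMd hd (by omega)
  -- the points of `B` are regular in degree `D₁`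
  have hregB : finrank ℂ (linSys D₁ p (onB B m)) + ∑ i ∈ B, (m i + 1).choose 2 =
      (D₁ + 2).choose 2 := by
    rw [hPm_eq hp, ← sum_onB]
    refine tr_regular (u := M₂) (M := M) I (by omega) hMM (fun i => (onB_le B m i).trans (hM i))
      (fun i hi => (onB_le B m i).trans (hM₂ i hi)) ?_ ?_
    · rw [onB_onB hIB, ← hPm_eq hp, sum_onB]
      exact hA.regular hp hI (by omega)
    · rw [sum_onB]
      have := tm_choose D₁
      omega
  refine rel_main2 (M := M) (D₁ := D₁) (g := g) hp B hu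
    (huM.trans hMM) hM hsmall hregB c2 c3 c4 (by omega) ?_
  have e3 : d - D₁ = q * (u + 1) := by
    rw [hD₁, Nat.add_sub_cancel_left]
  rw [e3, Nat.mul_div_cancel _ (by omega)]
  exact c5

theorem ns_of_gt {r d : ℕ} {p : Fin r → V3} {m : Fin r → ℕ} (h : ∃ i, d < m i) :
    finrank ℂ (linSys d p m) = (d + 2).choose 2 - ∑ i, (m i + 1).choose 2 := by
  obtain ⟨i, hi⟩ := h
  have h3 := finrank_linSys_zero_of_gt (d := d) (p := p) (m := m) (i := i) hi
  have h4 : (m i + 1).choose 2 ≤ ∑ l, (m l + 1).choose 2 :=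
    Finset.single_le_sum (f := fun l => (m l + 1).choose 2) (fun l _ => Nat.zero_le _)
      (Finset.mem_univ i)
  have h5 : (d + 2).choose 2 ≤ (m i + 1).choose 2 := Nat.choose_le_choose 2 (by omega)
  omega

/-- **Few large points.** Let `I` be a set of at most three points. If the points of multiplicity
greater than `u` leave sufficiently many curves, then the system is nonspecial, for arbitrarily
many points of multiplicity at most `u`. -/
theorem fbig {r u M M₂ d : ℕ} {p : Fin r → V3} (hp : GenericPoints p) {m : Fin r → ℕ}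
    {I : Finset (Fin r)} (hI : I.card ≤ 3) (hM : ∀ i, m i ≤ M) (hM₂ : ∀ i, i ∉ I → m i ≤ M₂)
    (hMM : M₂ ≤ M) (hu : 1 ≤ u) (huM : u ≤ M₂) (hd : 32 * (u + 1) ^ 2 ≤ d)
    (hA : Apart d (9 * (u + 1) ^ 2) I m)
    (h : bigC I u m + 3 * (M₂ * M) + 9 * ((u + 1) ^ 2 * M) + 3 * ((u + 1) * d) ≤
      (d + 2).choose 2) :
    finrank ℂ (linSys d p m) = (d + 2).choose 2 - ∑ i, (m i + 1).choose 2 := by
  by_cases hmd : ∀ i, m i ≤ d
  swap
  · push Not at hmd
    exact ns_of_gt hmd
  have hud := le_sq_self' u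
  refine fbig_aux (u := u) (M := min M d) (M₂ := min M₂ d) hp hI
    (fun i => le_min (hM i) (hmd i)) (fun i hi => le_min (hM₂ i hi) (hmd i)) (by omega)
    (min_le_right _ _) hu (by omega) hd hA ?_
  have h3 : min M₂ d * min M d ≤ M₂ * M := Nat.mul_le_mul (min_le_left _ _) (min_le_left _ _)
  have h4 : (u + 1) ^ 2 * min M d ≤ (u + 1) ^ 2 * M := Nat.mul_le_mul_left _ (min_le_left _ _)
  omega

/-- **Many points of small multiplicity.** Let `I` be a set of at most three points. If the points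
of multiplicity at most `u` outside of `I` impose sufficiently many conditions, then the system is
nonspecial. -/
theorem fsmall {r u M M₂ d : ℕ} {p : Fin r → V3} (hp : GenericPoints p) {m : Fin r → ℕ}
    {I : Finset (Fin r)} (hI : I.card ≤ 3) (hM : ∀ i, m i ≤ M) (hM₂ : ∀ i, i ∉ I → m i ≤ M₂)
    (hMM : M₂ ≤ M) (hu : 1 ≤ u) (huM : u ≤ M₂) (hd : 32 * (u + 1) ^ 2 ≤ d)
    (hA : Apart d (9 * (u + 1) ^ 2) I m)
    (hS : 6 * (M₂ * M) + 9 * ((u + 1) ^ 2 * M) + 3 * ((u + 1) * d) ≤ smallC I u m) :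
    finrank ℂ (linSys d p m) = (d + 2).choose 2 - ∑ i, (m i + 1).choose 2 := by
  have hsum := sum_big_small I u m
  by_cases hcase : bigC I u m + 3 * (M₂ * M) + 9 * ((u + 1) ^ 2 * M) + 3 * ((u + 1) * d) ≤
      (d + 2).choose 2
  · exact fbig hp hI hM hM₂ hMM hu huM hd hA hcase
  · -- the system is empty
    have hneg : (d + 2).choose 2 + 3 * (M₂ * M) < ∑ i, (m i + 1).choose 2 := by
      omega
    have hempty : linSys d p m = ⊥ := by
      by_contra hne
      have hreg : finrank ℂ (linSys d p (onB I m)) + ∑ i, (onB I m i + 1).choose 2 =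
          (d + 2).choose 2 := by
        rw [sum_onB]
        exact hA.regular hp hI (by omega)
      obtain ⟨S₁, hS₁, h3, h4⟩ := two_window hp (u := M₂) (M := M) (by omega) hMM hM I hM₂ hreg hne
        (by omega)
      omega
    rw [hempty, finrank_bot]
    omega

end Pool.Agent.Work.MP_0421d9_ag.LD
end

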