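import Mathlib

section
/-! Chinese remainder representation of a residue class, and coprime numbers which are not too large. -/

set_option autoImplicit false

namespace Pool.Agent.Work.MP_0421d9_ag.LD

/-- a representative in `[1, n]` of `X / M` modulo `n` -/
theorem exists_rep (n M X : ℕ) (hn : 1 ≤ n) (hc : Nat.Coprime M n) :
    ∃ a : ℕ, 1 ≤ a ∧ a ≤ n ∧ (n : ℤ) ∣ (a * M : ℤ) - X := by
  have hc' : IsCoprime (M : ℤ) (n : ℤ) := Nat.isCoprime_iff_coprime.2 hc
  obtain ⟨u, v, huv⟩ := hc'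
  have hn0 : (0 : ℤ) < n := by exact_mod_cast hn
  -- a ≡ X * u
  set t : ℤ := ((X : ℤ) * u - 1) % n with ht
  have ht0 : 0 ≤ t := Int.emod_nonneg _ hn0.ne'
  have ht1 : t < n := Int.emod_lt_of_pos _ hn0
  refine ⟨(t + 1).toNat, ?_, ?_, ?_⟩
  · omega
  · omega
  · have h1 : (((t + 1).toNat : ℕ) : ℤ) = t + 1 := Int.toNat_of_nonneg (by omega)
    rw [h1]
    have h2 : (n : ℤ) ∣ ((X : ℤ) * u - 1) - t := by
      rw [ht]; exact Int.dvd_self_sub_emod
    obtain ⟨q, hq⟩ := h2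
    refine ⟨-(q * M) - v * X, ?_⟩
    have h3 : t = (X : ℤ) * u - 1 - n * q := by linarith
    have h4 : (u * M + v * n : ℤ) = 1 := by linarith
    rw [h3]
    linear_combination (X : ℤ) * h4

theorem crt_sum {j : ℕ} (n : ℕ → ℕ) (hn : ∀ i < j, 1 ≤ n i)
    (hcop : ∀ i < j, ∀ i' < j, i ≠ i' → Nat.Coprime (n i) (n i')) (X : ℕ) :
    ∃ a : ℕ → ℕ, (∀ i < j, 1 ≤ a i ∧ a i ≤ n i) ∧
      (∑ i ∈ Finset.range j, a i * ((∏ l ∈ Finset.range j, n l) / n i)) ≡ X
        [MOD (∏ l ∈ Finset.range j, n l)] := by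
  have hdiv : ∀ i ∈ Finset.range j, (∏ l ∈ Finset.range j, n l) / n i =
      ∏ l ∈ (Finset.range j).erase i, n l := by
    intro i hi
    rw [← Finset.mul_prod_erase _ _ hi]
    exact Nat.mul_div_cancel_left _ (hn i (Finset.mem_range.1 hi))
  have hM : ∀ i : ℕ, ∃ a : ℕ, i < j → 1 ≤ a ∧ a ≤ n i ∧
      (n i : ℤ) ∣ (a * (∏ l ∈ (Finset.range j).erase i, n l : ℕ) : ℤ) - X := by
    intro i
    by_cases hi : i < j
    · have hc : Nat.Coprime (∏ l ∈ (Finset.range j).erase i, n l) (n i) := by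
        refine Nat.Coprime.prod_left ?_
        intro l hl
        rw [Finset.mem_erase, Finset.mem_range] at hl
        exact hcop l hl.2 i hi hl.1
      obtain ⟨a, h1, h2, h3⟩ := exists_rep (n i) _ X (hn i hi) hc
      exact ⟨a, fun _ => ⟨h1, h2, h3⟩⟩
    · exact ⟨0, fun h => absurd h hi⟩
  choose a ha using hM
  refine ⟨a, fun i hi => ⟨(ha i hi).1, (ha i hi).2.1⟩, ?_⟩
  rw [Nat.modEq_iff_dvd]
  have h0 : (((∏ l ∈ Finset.range j, n l : ℕ)) : ℤ) = ∏ l ∈ Finset.range j, (n l : ℤ) := by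
    push_cast; rfl
  rw [h0]
  refine Finset.prod_dvd_of_coprime ?_ ?_
  · intro i hi i' hi' hne
    exact Nat.isCoprime_iff_coprime.2 (hcop i (by simpa using hi) i' (by simpa using hi') hne)
  · intro i hi
    have hi' := Finset.mem_range.1 hi
    have h1 : (∑ l ∈ Finset.range j, a l * ((∏ l ∈ Finset.range j, n l) / n l)) =
        a i * (∏ l ∈ (Finset.range j).erase i, n l) +
          ∑ l ∈ (Finset.range j).erase i, a l * ((∏ l ∈ Finset.range j, n l) / n l) := by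
      rw [← Finset.add_sum_erase _ _ hi, hdiv i hi]
    rw [h1]
    have h2 : n i ∣ ∑ l ∈ (Finset.range j).erase i, a l * ((∏ l ∈ Finset.range j, n l) / n l) := by
      refine Finset.dvd_sum ?_
      intro l hl
      rw [Finset.mem_erase] at hl
      rw [hdiv l hl.2]
      refine Dvd.dvd.mul_left ?_ _
      exact Finset.dvd_prod_of_mem _ (Finset.mem_erase.2 ⟨hl.1.symm, hi⟩)
    have h3 := (ha i hi').2.2
    have h4 : (n i : ℤ) ∣ ((∑ l ∈ (Finset.range j).erase i, a l * ((∏ l ∈ Finset.range j, n l) / n l) : ℕ) : ℤ) :=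
      Int.natCast_dvd_natCast.2 h2
    have h5 := (dvd_add h3 h4).neg_right
    rw [Nat.cast_add, Nat.cast_mul]
    convert h5 using 1
    ring

/-- pairwise coprime numbers which are not too large -/
theorem exists_coprime (j : ℕ) : ∃ c : ℕ, 1 ≤ c ∧ ∀ B : ℕ, 1 ≤ B → ∃ n : ℕ → ℕ,
    (∀ i < j, B ≤ n i ∧ n i ≤ c * B) ∧
      (∀ i < j, ∀ i' < j, i ≠ i' → Nat.Coprime (n i) (n i')) := by
  have key : ∀ B : ℕ, ∀ i i' : ℕ, i < i' → i' < j →
      Nat.Coprime (1 + j.factorial * B * (i + 1)) (1 + j.factorial * B * (i' + 1)) := by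
    intro B i i' hii hi'
    rw [Nat.coprime_iff_gcd_eq_one]
    by_contra hne
    obtain ⟨p, hp, hpd⟩ := Nat.exists_prime_and_dvd hne
    have h1 : p ∣ 1 + j.factorial * B * (i + 1) := hpd.trans (Nat.gcd_dvd_left _ _)
    have h2 : p ∣ 1 + j.factorial * B * (i' + 1) := hpd.trans (Nat.gcd_dvd_right _ _)
    have h3 : p ∣ j.factorial * B * (i' - i) := by
      have h4 := Nat.dvd_sub h2 h1
      have h5 : (1 + j.factorial * B * (i' + 1)) - (1 + j.factorial * B * (i + 1)) =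
          j.factorial * B * (i' - i) := by
        rw [Nat.add_sub_add_left, ← Nat.mul_sub, Nat.add_sub_add_right]
      rwa [h5] at h4
    have h6 : p ∣ j.factorial * B := by
      rcases (Nat.Prime.dvd_mul hp).1 h3 with h | h
      · exact h
      · refine Dvd.dvd.mul_right ?_ _
        refine h.trans ?_
        exact Nat.dvd_factorial (by omega) (by omega)
    have h7 : p ∣ 1 := by
      have h8 : p ∣ j.factorial * B * (i + 1) := h6.mul_right _
      exact (Nat.dvd_add_left h8).1 h1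
    exact hp.one_lt.ne' (Nat.dvd_one.1 h7)
  refine ⟨1 + j.factorial * j, by omega, ?_⟩
  intro B hB
  refine ⟨fun i => 1 + j.factorial * B * (i + 1), ?_, ?_⟩
  · intro i hi
    have hf : 1 ≤ j.factorial := Nat.factorial_pos j
    constructor
    · show B ≤ 1 + j.factorial * B * (i + 1)
      have h1 : 1 * B * 1 ≤ j.factorial * B * (i + 1) :=
        Nat.mul_le_mul (Nat.mul_le_mul_right _ hf) (by omega)
      omega
    · show 1 + j.factorial * B * (i + 1) ≤ (1 + j.factorial * j) * B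
      have h1 : j.factorial * B * (i + 1) ≤ j.factorial * B * j := Nat.mul_le_mul_left _ (by omega)
      have h2 : j.factorial * B * j = j.factorial * j * B := by ring
      have h3 : (1 + j.factorial * j) * B = B + j.factorial * j * B := by ring
      omega
  · intro i hi i' hi' hne
    rcases Nat.lt_or_gt_of_ne hne with h | h
    · exact key B i i' h hi'
    · exact (key B i' i h hi).symm

end Pool.Agent.Work.MP_0421d9_ag.LD
end

section
/-!
The choice of the parameters in one step of the induction on the exponent: numerical part.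
-/

namespace Pool.Agent.Work.MP_0421d9_ag.LD

theorem eventually_rpow_le {x y : ℝ} (A : ℝ) (h : x < y) :
    ∀ᶠ k : ℕ in Filter.atTop, A * (k : ℝ) ^ x ≤ (k : ℝ) ^ y := by
  have h1 : Filter.Tendsto (fun k : ℕ => (k : ℝ) ^ (y - x)) Filter.atTop Filter.atTop :=
    (tendsto_rpow_atTop (by linarith)).comp tendsto_natCast_atTop_atTop
  filter_upwards [h1.eventually_ge_atTop A, Filter.eventually_ge_atTop 1] with k hk hk1
  have hk0 : (0 : ℝ) < k := by exact_mod_cast hk1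
  have h2 : (k : ℝ) ^ y = (k : ℝ) ^ (y - x) * (k : ℝ) ^ x := by
    rw [← Real.rpow_add hk0]
    congr 1
    ring
  rw [h2]
  exact mul_le_mul_of_nonneg_right hk (Real.rpow_nonneg hk0.le _)

/-- for large `k` all the parameters can be chosen -/
theorem level_numbers {θ θ' C : ℝ} {η j c : ℕ} (hj : 1 ≤ j) (hc : 1 ≤ c)
    (hC : 1 ≤ C) (hθ : 0 < θ) (h' : θ' ≤ 1) (hj1 : 2 / (j : ℝ) < θ')
    (hj2 : 1 / (j : ℝ) < 1 - (1 - θ') * (1 + θ)) :
    ∃ k0 : ℕ, ∀ k, k0 ≤ k → ∃ s B Z : ℕ, 1 ≤ s ∧ 1 ≤ B ∧ k ≤ B ^ j ∧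
      (k : ℝ) ^ (1 - θ') ≤ s ∧
      C * ((21 * ((j + 1) * ((2 * η + 1) * s)) : ℕ) : ℝ) ^ (1 + θ) ≤ Z ∧
      2 * (21 * ((j + 1) * ((2 * η + 1) * s))) ≤ Z ∧
      η * (21 * ((j + 1) * ((2 * η + 1) * s))) ≤ Z ∧
      (3 * (c * B)) * Z + (3 * (c * B)) ^ 2 * (8 * ((2 * η + 1) * s) + 1) ≤ k ∧
      4 * (3 * (c * B)) * s ≤ Z := by
  set a : ℝ := 1 - θ' with ha
  set b : ℝ := 1 / (j : ℝ) with hb
  have hjpos : (0 : ℝ) < j := by exact_mod_cast hj
  have hbpos : 0 < b := by positivity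
  have hb2 : 2 * b < θ' := by
    have : 2 * b = 2 / (j : ℝ) := by rw [hb]; ring
    rw [this]
    exact hj1
  have ha0 : 0 ≤ a := by linarith
  have hcR : (1 : ℝ) ≤ c := by exact_mod_cast hc
  set K : ℝ := 2 * (η : ℝ) + 1 with hK
  have hK1 : 1 ≤ K := by
    have : (0 : ℝ) ≤ η := Nat.cast_nonneg η
    linarith
  set D : ℝ := 42 * ((j : ℝ) + 1) * K with hD
  have hD0 : 0 < D := by positivity
  have E1 := eventually_rpow_le (x := 0) (y := 1 - b) (24 * c) (by linarith)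
  have E2 := eventually_rpow_le (x := a * (1 + θ)) (y := 1 - b) (24 * c * C * D ^ (1 + θ))
    (by linarith)
  have E3 := eventually_rpow_le (x := a) (y := 1 - b) (24 * c * (2 + η) * D) (by linarith)
  have E4 := eventually_rpow_le (x := 2 * b + a) (y := 1) (2 * 36 * 17 * c ^ 2 * K) (by linarith)
  have E5 := eventually_rpow_le (x := a + b) (y := 1 - b) (24 * 48 * c ^ 2) (by linarith)
  obtain ⟨k0, hk0⟩ := Filter.eventually_atTop.mp
    (E1.and (E2.and (E3.and (E4.and (E5.and (Filter.eventually_ge_atTop 1))))))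
  refine ⟨k0, fun k hk => ?_⟩
  obtain ⟨e1, e2, e3, e4, e5, hk1⟩ := hk0 k hk
  have hkR : (1 : ℝ) ≤ k := by exact_mod_cast hk1
  have hkpos : (0 : ℝ) < k := by linarith
  have hka : 1 ≤ (k : ℝ) ^ a := Real.one_le_rpow hkR ha0
  have hkb : 1 ≤ (k : ℝ) ^ b := Real.one_le_rpow hkR hbpos.le
  set s : ℕ := ⌈(k : ℝ) ^ a⌉₊ with hs
  set B : ℕ := ⌈(k : ℝ) ^ b⌉₊ with hB
  have hs1 : (k : ℝ) ^ a ≤ s := Nat.le_ceil _
  have hs2 : (s : ℝ) ≤ 2 * (k : ℝ) ^ a := by
    have := Nat.ceil_lt_add_one (a := (k : ℝ) ^ a) (by linarith)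
    linarith
  have hB1 : (k : ℝ) ^ b ≤ B := Nat.le_ceil _
  have hB2 : (B : ℝ) ≤ 2 * (k : ℝ) ^ b := by
    have := Nat.ceil_lt_add_one (a := (k : ℝ) ^ b) (by linarith)
    linarith
  have hs0 : 1 ≤ s := by
    have : (1 : ℝ) ≤ s := by linarith
    exact_mod_cast this
  have hB0 : 1 ≤ B := by
    have : (1 : ℝ) ≤ B := by linarith
    exact_mod_cast this
  set M : ℕ := 3 * (c * B) with hM
  have hM1 : 1 ≤ M := by
    have := Nat.mul_pos hc hB0
    omega
  have hMR : (M : ℝ) ≤ 6 * c * (k : ℝ) ^ b := by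
    rw [hM]
    push_cast
    have := mul_le_mul_of_nonneg_left hB2 (by positivity : (0 : ℝ) ≤ 3 * c)
    linarith
  have hMpos : (0 : ℝ) < M := by exact_mod_cast hM1
  set Z : ℕ := k / (2 * M) with hZ
  have hZ1 : (k : ℝ) < (Z + 1) * (2 * M) := by
    have h1 := Nat.lt_div_mul_add (a := k) (b := 2 * M) (by omega)
    rw [← hZ] at h1
    have h2 : (k : ℝ) < Z * (2 * M) + 2 * M := by exact_mod_cast h1
    linarith
  have hsplit : (k : ℝ) = (k : ℝ) ^ (1 - b) * (k : ℝ) ^ b := by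
    rw [← Real.rpow_add hkpos, sub_add_cancel, Real.rpow_one]
  have hkbpos : 0 < (k : ℝ) ^ b := by linarith
  have hZ2 : (k : ℝ) ^ (1 - b) < (Z + 1) * (12 * c) := by
    have h1 : (k : ℝ) ^ (1 - b) * (k : ℝ) ^ b < ((Z + 1) * (12 * c)) * (k : ℝ) ^ b := by
      rw [← hsplit]
      calc (k : ℝ) < (Z + 1) * (2 * M) := hZ1
        _ ≤ (Z + 1) * (2 * (6 * c * (k : ℝ) ^ b)) := by
            apply mul_le_mul_of_nonneg_left _ (by positivity)
            linarith
        _ = ((Z + 1) * (12 * c)) * (k : ℝ) ^ b := by ring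
    exact lt_of_mul_lt_mul_right h1 hkbpos.le
  have hcpos : (0 : ℝ) < c := by linarith
  rw [Real.rpow_zero, mul_one] at e1
  -- the key lower bound for `Z`
  have hZ3 : (k : ℝ) ^ (1 - b) ≤ 24 * c * Z := by
    nlinarith
  have key : ∀ x : ℝ, 24 * c * x ≤ (k : ℝ) ^ (1 - b) → x ≤ Z := by
    intro x hx
    have h1 : 24 * (c : ℝ) * x ≤ 24 * c * Z := hx.trans hZ3
    exact le_of_mul_le_mul_left h1 (by positivity)
  have hW3 : ((21 * ((j + 1) * ((2 * η + 1) * s)) : ℕ) : ℝ) ≤ D * (k : ℝ) ^ a := by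
    push_cast
    rw [← hK, hD]
    have := mul_le_mul_of_nonneg_left hs2 (by positivity : (0 : ℝ) ≤ 21 * (((j : ℝ) + 1) * K))
    linarith
  refine ⟨s, B, Z, hs0, hB0, ?_, hs1, ?_, ?_, ?_, ?_, ?_⟩
  · have h1 : (k : ℝ) ≤ (B : ℝ) ^ j := by
      calc (k : ℝ) = ((k : ℝ) ^ b) ^ j := by
            rw [← Real.rpow_natCast, ← Real.rpow_mul hkpos.le, hb, one_div,
              inv_mul_cancel₀ hjpos.ne', Real.rpow_one]
        _ ≤ (B : ℝ) ^ j := pow_le_pow_left₀ (by positivity) hB1 j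
    exact_mod_cast h1
  · apply key
    calc 24 * (c : ℝ) * (C * ((21 * ((j + 1) * ((2 * η + 1) * s)) : ℕ) : ℝ) ^ (1 + θ))
        ≤ 24 * c * (C * (D * (k : ℝ) ^ a) ^ (1 + θ)) := by
          apply mul_le_mul_of_nonneg_left _ (by positivity)
          apply mul_le_mul_of_nonneg_left _ (by linarith)
          exact Real.rpow_le_rpow (Nat.cast_nonneg _) hW3 (by linarith)
      _ = 24 * c * C * D ^ (1 + θ) * (k : ℝ) ^ (a * (1 + θ)) := by
          rw [Real.mul_rpow hD0.le (by positivity), ← Real.rpow_mul hkpos.le]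
          ring
      _ ≤ _ := e2
  · have h1 : ((2 * (21 * ((j + 1) * ((2 * η + 1) * s))) : ℕ) : ℝ) ≤ Z := by
      apply key
      rw [Nat.cast_mul]
      calc 24 * (c : ℝ) * (((2 : ℕ) : ℝ) * ((21 * ((j + 1) * ((2 * η + 1) * s)) : ℕ) : ℝ))
          ≤ 24 * c * ((2 + η) * (D * (k : ℝ) ^ a)) := by
            apply mul_le_mul_of_nonneg_left _ (by positivity)
            have h0 : (0 : ℝ) ≤ η := Nat.cast_nonneg η
            apply mul_le_mul _ hW3 (Nat.cast_nonneg _) (by positivity)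
            push_cast
            linarith
        _ = 24 * c * (2 + η) * D * (k : ℝ) ^ a := by ring
        _ ≤ _ := e3
    exact_mod_cast h1
  · have h1 : ((η * (21 * ((j + 1) * ((2 * η + 1) * s))) : ℕ) : ℝ) ≤ Z := by
      apply key
      rw [Nat.cast_mul]
      calc 24 * (c : ℝ) * ((η : ℝ) * ((21 * ((j + 1) * ((2 * η + 1) * s)) : ℕ) : ℝ))
          ≤ 24 * c * ((2 + η) * (D * (k : ℝ) ^ a)) := by
            apply mul_le_mul_of_nonneg_left _ (by positivity)
            have h0 : (0 : ℝ) ≤ η := Nat.cast_nonneg η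
            apply mul_le_mul _ hW3 (Nat.cast_nonneg _) (by positivity)
            linarith
        _ = 24 * c * (2 + η) * D * (k : ℝ) ^ a := by ring
        _ ≤ _ := e3
    exact_mod_cast h1
  · have h1 : 2 * (M * Z) ≤ k := by
      have h2 := Nat.div_mul_le_self k (2 * M)
      rw [← hZ] at h2
      calc 2 * (M * Z) = Z * (2 * M) := by ring
        _ ≤ k := h2
    have h2 : 2 * (M ^ 2 * (8 * ((2 * η + 1) * s) + 1)) ≤ k := by
      have h3 : ((2 * (M ^ 2 * (8 * ((2 * η + 1) * s) + 1)) : ℕ) : ℝ) ≤ k := by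
        push_cast
        rw [← hK]
        have h4 : (M : ℝ) ^ 2 ≤ (6 * c * (k : ℝ) ^ b) ^ 2 := pow_le_pow_left₀ hMpos.le hMR 2
        have h5 : 8 * (K * (s : ℝ)) + 1 ≤ 17 * K * (k : ℝ) ^ a := by
          have h6 := mul_le_mul_of_nonneg_left hs2 (by positivity : (0 : ℝ) ≤ 8 * K)
          have h7 : 1 ≤ K * (k : ℝ) ^ a := by nlinarith
          linarith
        calc 2 * ((M : ℝ) ^ 2 * (8 * (K * (s : ℝ)) + 1))
            ≤ 2 * ((6 * c * (k : ℝ) ^ b) ^ 2 * (17 * K * (k : ℝ) ^ a)) := by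
              apply mul_le_mul_of_nonneg_left _ (by norm_num)
              exact mul_le_mul h4 h5 (by positivity) (by positivity)
          _ = 2 * 36 * 17 * c ^ 2 * K * (k : ℝ) ^ (2 * b + a) := by
              rw [Real.rpow_add hkpos, two_mul b, Real.rpow_add hkpos]
              ring
          _ ≤ (k : ℝ) ^ (1 : ℝ) := e4
          _ = k := Real.rpow_one _
      exact_mod_cast h3
    change M * Z + M ^ 2 * (8 * ((2 * η + 1) * s) + 1) ≤ k
    omega
  · have h1 : ((4 * M * s : ℕ) : ℝ) ≤ Z := by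
      apply key
      push_cast
      calc 24 * (c : ℝ) * (4 * (M : ℝ) * s)
          ≤ 24 * c * (4 * (6 * c * (k : ℝ) ^ b) * (2 * (k : ℝ) ^ a)) := by
            apply mul_le_mul_of_nonneg_left _ (by positivity)
            apply mul_le_mul _ hs2 (Nat.cast_nonneg _) (by positivity)
            linarith
        _ = 24 * 48 * c ^ 2 * (k : ℝ) ^ (a + b) := by
            rw [Real.rpow_add hkpos]
            ring
        _ ≤ _ := e5
    exact_mod_cast h1

end Pool.Agent.Work.MP_0421d9_ag.LD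
end

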