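import Pool.Agent.Work.Z0421M.C12
import Pool.Agent.Work.Z0421M.C18
import Pool.Agent.Work.Z0421M.C30

section
/-!
Elementary transformations of rectangles with a family of multiplicities
(helper84, after VTrans of helper25 and MTrans of helper7).
-/

namespace Pool.Agent.Work.MP_0421d9_ag.LD

open MvPolynomial Module

namespace Tv

section

variable {t e N : ℕ} {x c : Fin N → ℂ} (u : EU t e x c)

theorem Prm_dvd (he : e ≤ 1) {κ H : ℕ} {m : Fin N → ℕ} (hx : Function.Injective x) {F : R3}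
    (hF : F.IsHomogeneous (H - 1 + κ)) (h0 : ∀ α, coeff α F ≠ 0 → α 0 ≤ κ ∧ α 2 + 1 ≤ H)
    (hv : ∀ i, VanishTo F (pp u i) (m i)) : Tr.Prm x m ∣ psi u κ H F := by
  unfold Tr.Prm
  refine Fintype.prod_dvd_of_isRelPrime ?_ (fun i => lv_pow_dvd u he hF h0 (hv i))
  intro i j hij
  exact Tr.isRelPrime_lv' (fun h => hij (hx h)) _ _

/-- the quotient -/
theorem exists_quot_m (he : e ≤ 1) {κ H : ℕ} {m : Fin N → ℕ} (hx : Function.Injective x)
    {q : Fin N → V3} (hq1 : ∀ i, q i 1 ≠ 0)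
    (hqx : ∀ i, q i 2 = x i * q i 1) (hqc : ∀ i, c i * q i 1 = q i 0)
    {F : R3} (hF : F.IsHomogeneous (H - 1 + κ))
    (h0 : ∀ α, coeff α F ≠ 0 → α 0 ≤ κ ∧ α 2 + 1 ≤ H)
    (hv : ∀ i, VanishTo F (pp u i) (m i)) :
    ∃ G : R3, psi u κ H F = Tr.Prm x m * G ∧ (G ≠ 0 → ∑ i, m i ≤ H - 1 + κ * (t + 1) ∧
      degreeOf 2 G + ∑ i, m i ≤ H - 1 + κ * (t + e)) ∧
      G.IsHomogeneous (H - 1 + κ * (t + 1) - ∑ i, m i) ∧ degreeOf 0 G ≤ κ ∧
      ∀ i, VanishTo G (q i) (κ - m i) := by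
  by_cases hpsi : psi u κ H F = 0
  · refine ⟨0, by rw [hpsi, mul_zero], fun h => absurd rfl h, isHomogeneous_zero _ _ _, ?_,
      fun i => ?_⟩
    · rw [degreeOf_zero]
      exact Nat.zero_le _
    · exact (vanSub (q i) (κ - m i)).zero_mem
  obtain ⟨G₀, hG₀⟩ := Prm_dvd u he hx hF h0 hv
  have hhom := psi_isHomogeneous u he h0
  -- the degree
  have hdeg : ∑ i, m i ≤ H - 1 + κ * (t + 1) := by
    by_contra hcon
    apply hpsi
    rw [← homogeneousComponent_eq_self hhom, hG₀]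
    exact homogeneousComponent_mul_lt (Tr.Prm_isHomogeneous m) (by omega) G₀
  set d := H - 1 + κ * (t + 1) - ∑ i, m i with hd
  set G := homogeneousComponent d G₀ with hG
  have hPG : psi u κ H F = Tr.Prm x m * G := by
    rw [hG, ← homogeneousComponent_mul (Tr.Prm_isHomogeneous m), ← hG₀]
    have e1 : ∑ i, m i + d = H - 1 + κ * (t + 1) := by omega
    rw [e1, homogeneousComponent_eq_self hhom]
  have hG0 : G ≠ 0 := by
    intro h
    exact hpsi (by rw [hPG, h, mul_zero])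
  have hGhom : G.IsHomogeneous d := homogeneousComponent_isHomogeneous d G₀
  have hdeg0 : degreeOf 0 G ≤ κ := by
    have h1 : degreeOf 0 (psi u κ H F) ≤ κ :=
      degreeOf_psi u (fun α hα => degreeOf_pm_zero u (h0 α (mem_support_iff.mp hα)).1)
    rw [hPG, degreeOf_mul_eq (Tr.Prm_ne_zero m) hG0] at h1
    omega
  have hdeg2 : degreeOf 2 G + ∑ i, m i ≤ H - 1 + κ * (t + e) := by
    have h1 : degreeOf 2 (psi u κ H F) ≤ H - 1 + κ * (t + e) :=
      degreeOf_psi u (fun α hα => degreeOf_pm_two u (h0 α (mem_support_iff.mp hα)).1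
        (h0 α (mem_support_iff.mp hα)).2)
    rw [hPG, degreeOf_mul_eq (Tr.Prm_ne_zero m) hG0, Tr.degreeOf_Prm] at h1
    omega
  refine ⟨G, hPG, fun _ => ⟨hdeg, hdeg2⟩, hGhom, hdeg0, fun i => ?_⟩
  have h1 := vanishTo_psi u he h0 (hqx i) (hqc i)
  rw [hPG] at h1
  have h2 : Tr.Prm x m = lin (Tr.lv (x i)) ^ m i *
      ∏ j ∈ Finset.univ.erase i, lin (Tr.lv (x j)) ^ m j := by
    exact (Finset.mul_prod_erase Finset.univ (fun j => lin (Tr.lv (x j)) ^ m j)
      (Finset.mem_univ i)).symm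
  rw [h2, mul_assoc] at h1
  have h3 := Tr.vanishTo_of_pow_mul (Tr.lv_ne_zero _) (by rw [Tr.eval_lv, hqx i, sub_self]) h1
  refine Tr.vanishTo_of_eval_ne h3 ?_
  rw [map_prod]
  refine Finset.prod_ne_zero_iff.mpr (fun j hj => ?_)
  rw [map_pow, Tr.eval_lv, hqx i, ← sub_mul]
  refine pow_ne_zero _ (mul_ne_zero (sub_ne_zero.mpr fun h => ?_) (hq1 i))
  exact (Finset.ne_of_mem_erase hj) (hx h).symm

end

/-- the dimension count -/
theorem finrank_le_m {t e H κ : ℕ} {m : Fin (2 * t + e) → ℕ} (ht : 1 ≤ t) (he : e ≤ 1)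
    {W : Submodule ℂ R3} [Module.Finite ℂ W] (hH : 1 ≤ H)
    (hW : ∀ u : EU t e (fun i => gpt (2 * t + e) i 2 / gpt (2 * t + e) i 1)
      (fun i => gpt (2 * t + e) i 0 / gpt (2 * t + e) i 1), ∀ F : R3,
      F.IsHomogeneous (H - 1 + κ) → (∀ α, coeff α F ≠ 0 → α 0 ≤ κ ∧ α 2 + 1 ≤ H) →
      (∀ i, VanishTo F (pp u i) (m i)) →
      ∃ G ∈ W, psi u κ H F = Tr.Prm (fun i => gpt (2 * t + e) i 2 / gpt (2 * t + e) i 1) m * G) :
    hRm H (κ + 1) m ≤ finrank ℂ W := by
  classical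
  set q := gpt (2 * t + e) with hq
  have hgen := gpt_generic (2 * t + e)
  rw [← hq] at hgen
  obtain ⟨u⟩ := exists_EU ht he hgen
  refine (hTm_le (pp u)).trans ?_
  have e1 : H + (κ + 1) - 2 = H - 1 + κ := by omega
  rw [e1]
  set V := TSm (H - 1 + κ) (rect H (κ + 1)) m (pp u) with hV
  have hmem : ∀ F ∈ V, F.IsHomogeneous (H - 1 + κ) ∧ (∀ i, VanishTo F (pp u i) (m i)) ∧
      ∀ α, coeff α F ≠ 0 → α 0 ≤ κ ∧ α 2 + 1 ≤ H := by
    intro F hF
    rw [hV, mem_TSm] at hF
    refine ⟨hF.1, hF.2.1, fun α hα => ?_⟩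
    obtain ⟨h1, h2⟩ := hF.2.2 α hα
    exact ⟨by omega, by omega⟩
  have h1 : V.map (psi u κ H) ≤
      W.map (LinearMap.mulLeft ℂ (Tr.Prm (fun i => q i 2 / q i 1) m)) := by
    rintro _ ⟨F, hF, rfl⟩
    obtain ⟨h2, h3, h4⟩ := hmem F hF
    obtain ⟨G, hG, hFG⟩ := hW u F h2 h4 h3
    exact ⟨G, hG, by rw [LinearMap.mulLeft_apply, ← hFG]⟩
  have h2 : finrank ℂ V = finrank ℂ ↥(V.map (psi u κ H)) := by
    have h3 : Function.Injective ((psi u κ H) ∘ₗ V.subtype) := by
      rw [← LinearMap.ker_eq_bot, Submodule.eq_bot_iff]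
      intro F hF
      rw [LinearMap.mem_ker, LinearMap.comp_apply] at hF
      apply Subtype.ext
      obtain ⟨h4, h5, h6⟩ := hmem F.1 F.2
      refine eq_zero_of_aeval_th u he h4 ⟨0, by omega⟩ ?_
      rw [aeval_th u h4 h6]
      change psi u κ H F.1 = 0 at hF
      rw [hF, mul_zero]
    have h4 := LinearMap.finrank_range_of_inj h3
    rw [LinearMap.range_comp, Submodule.range_subtype] at h4
    exact h4.symm
  rw [h2]
  exact (Submodule.finrank_mono h1).trans (Submodule.finrank_map_le _ _)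

end Tv

/-- an even number of points -/
theorem transform_even_m {H H' κ t : ℕ} {m : Fin (2 * t) → ℕ} (ht : 1 ≤ t)
    (hH : H' + ∑ i, m i = H + κ * t) :
    hRm H (κ + 1) m ≤ hRm H' (κ + 1) (fun i => κ - m i) := by
  rcases Nat.eq_zero_or_pos H with hH0 | hH0
  · subst hH0
    rw [hRm_zero]
    exact Nat.zero_le _
  have hgen := gpt_generic (2 * t + 0)
  have hx := Mx.gen_injective hgen
  refine (Tv.finrank_le_m (e := 0) (κ := κ) (H := H) (m := m)
    (W := TSm (H' + (κ + 1) - 2) (rect H' (κ + 1)) (fun i => κ - m i) (gpt (2 * t + 0)))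
    ht (by omega) hH0 (fun u F hF h0 hv => ?_))
  obtain ⟨G, h1, h2, h3, h4, h5⟩ := Tv.exists_quot_m u (by omega) hx (q := gpt (2 * t + 0))
    (fun i => Mx.gen_ne hgen i 1)
    (fun i => by rw [div_mul_cancel₀ _ (Mx.gen_ne hgen i 1)])
    (fun i => by rw [div_mul_cancel₀ _ (Mx.gen_ne hgen i 1)]) hF h0 hv
  refine ⟨G, ?_, h1⟩
  by_cases hG : G = 0
  · rw [hG]
    exact Submodule.zero_mem _
  obtain ⟨h6, h7⟩ := h2 hG
  have e2 : κ * (t + 1) = κ * t + κ := by ring
  have e3 : κ * (t + 0) = κ * t := by rw [add_zero]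
  rw [e2] at h3 h6
  rw [e3] at h7
  rw [mem_TSm]
  have e5 : ∑ i : Fin (2 * t + 0), m i = ∑ i : Fin (2 * t), m i := rfl
  rw [e5] at h3 h6 h7
  refine ⟨?_, h5, fun α hα => ?_⟩
  · have e4 : H' + (κ + 1) - 2 = H - 1 + (κ * t + κ) - ∑ i, m i := by omega
    rw [e4]
    exact h3
  · have h8 := monomial_le_degreeOf 0 (mem_support_iff.mpr hα)
    have h9 := monomial_le_degreeOf 2 (mem_support_iff.mpr hα)
    constructor
    · omega
    · omega

/-- no hypothesis `m i ≤ κ` -/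
theorem transform_even_empty_m {H κ t : ℕ} {m : Fin (2 * t) → ℕ} (ht : 1 ≤ t)
    (h : H + κ * t ≤ ∑ i, m i) : hRm H (κ + 1) m = 0 := by
  rcases Nat.eq_zero_or_pos H with hH0 | hH0
  · subst hH0
    rw [hRm_zero]
  have hgen := gpt_generic (2 * t + 0)
  have hx := Mx.gen_injective hgen
  have hle := (Tv.finrank_le_m (e := 0) (κ := κ) (H := H) (m := m)
    (W := ⊥) ht (by omega) hH0 (fun u F hF h0 hv => ?_))
  · rw [finrank_bot] at hle
    exact Nat.le_zero.mp hle
  obtain ⟨G, h1, h2, h3, h4, h5⟩ := Tv.exists_quot_m u (by omega) hx (q := gpt (2 * t + 0))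
    (fun i => Mx.gen_ne hgen i 1)
    (fun i => by rw [div_mul_cancel₀ _ (Mx.gen_ne hgen i 1)])
    (fun i => by rw [div_mul_cancel₀ _ (Mx.gen_ne hgen i 1)]) hF h0 hv
  by_cases hG : G = 0
  · exact ⟨G, by rw [hG]; exact Submodule.zero_mem _, h1⟩
  exfalso
  obtain ⟨h6, h7⟩ := h2 hG
  have e5 : ∑ i : Fin (2 * t + 0), m i = ∑ i : Fin (2 * t), m i := rfl
  rw [e5, add_zero] at h7
  omega

theorem transform_rect_m {κ L L' t : ℕ} {u : Fin (2 * t) → ℕ} (ht : 1 ≤ t) (hu : ∀ i, u i ≤ κ)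
    (h : L' + ∑ i, u i = L + κ * t) :
    hRm (κ + 1) L u ≤ hRm (κ + 1) L' (fun i => κ - u i) := by
  rw [hRm_swap (κ + 1) L, hRm_swap (κ + 1) L']
  exact transform_even_m ht h

theorem transform_rect_empty_m {κ L t : ℕ} {u : Fin (2 * t) → ℕ} (ht : 1 ≤ t)
    (h : L + κ * t ≤ ∑ i, u i) : hRm (κ + 1) L u = 0 := by
  rw [hRm_swap (κ + 1) L]
  exact transform_even_empty_m ht h

end Pool.Agent.Work.MP_0421d9_ag.LD
end

section
/-!
One step of the induction on the exponent, from the statement of `Par.level`.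
-/

namespace Pool.Agent.Work.MP_0421d9_ag.LD

theorem le_prod_of_le_pow {k B j : ℕ} {n : ℕ → ℕ} (hk : k ≤ B ^ j) (hn : ∀ i < j, B ≤ n i) :
    k ≤ ∏ i ∈ Finset.range j, n i := by
  refine hk.trans ?_
  have h := Finset.prod_le_prod' (s := Finset.range j) (f := fun _ => B) (g := n)
    (fun i hi => hn i (Finset.mem_range.mp hi))
  rwa [Finset.prod_const, Finset.card_range] at h

theorem QT_step_of_level
    (hlev : ∀ (η : ℕ) (P : Par η) (j M k L : ℕ), 1 ≤ j → 3 ≤ M → ∀ n : ℕ → ℕ,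
      (∀ i < j, 1 ≤ n i ∧ n i ≤ M) →
      (∀ i < j, ∀ i' < j, i ≠ i' → Nat.Coprime (n i) (n i')) →
      M * P.Z + M ^ 2 * (P.W2 + 1) ≤ k →
      k * (k + 1) * (P.Z + 4 * M * P.s) ≤ P.s * P.Z * L →
      (j + 5) * ((2 * η + 1) * P.s) + j * (1 + P.s) ≤ j * P.W2 →
      j * (P.W1 + P.s + 1) ≤ P.W3 + 1 →
      k ≤ ∏ i ∈ Finset.range j, n i →
      ∀ H, (2 * j + 5) * k ≤ H → ∀ N, MR H L k N)
    {θ θ' : ℝ} (hθ : 0 < θ) (h : θ / (1 + θ) < θ') (h' : θ' ≤ 1)
    (hQ : QT θ) : QT θ' := by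
  obtain ⟨η, C, hη, hC, hQ⟩ := hQ
  have h1θ : 0 < 1 + θ := by linarith
  have hθ'0 : 0 < θ' := lt_trans (by positivity) h
  -- the gap in the exponent
  have hgap : 0 < 1 - (1 - θ') * (1 + θ) := by
    rw [div_lt_iff₀ h1θ] at h
    nlinarith
  obtain ⟨j, hj, hj1, hj2⟩ : ∃ j : ℕ, 1 ≤ j ∧ 2 / (j : ℝ) < θ' ∧
      1 / (j : ℝ) < 1 - (1 - θ') * (1 + θ) := by
    obtain ⟨j, hj⟩ := exists_nat_gt (2 / θ' + 1 / (1 - (1 - θ') * (1 + θ)) + 1)
    have hp1 : 0 < 2 / θ' := by positivity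
    have hp2 : 0 < 1 / (1 - (1 - θ') * (1 + θ)) := by positivity
    have hjpos : (0 : ℝ) < j := by linarith
    refine ⟨j, ?_, ?_, ?_⟩
    · have : (1 : ℝ) ≤ j := by linarith
      exact_mod_cast this
    · rw [div_lt_comm₀ hjpos hθ'0]
      linarith
    · rw [div_lt_comm₀ hjpos hgap]
      linarith
  obtain ⟨c, hc, hcop⟩ := exists_coprime j
  obtain ⟨k0, hk0⟩ := level_numbers (η := η) hj hc hC hθ h' hj1 hj2
  -- the new constants
  refine ⟨η + (2 * j + 5), 4 + C * (k0 : ℝ) ^ (1 + θ), by omega, ?_, ?_⟩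
  · have : 0 ≤ C * (k0 : ℝ) ^ (1 + θ) := by positivity
    linarith
  intro k H L N hk hH hL hCL
  have hkR : (1 : ℝ) ≤ k := by exact_mod_cast hk
  have hkpos : (0 : ℝ) < k := by linarith
  have hpow1 : 1 ≤ (k : ℝ) ^ (1 + θ') := Real.one_le_rpow hkR (by linarith)
  have hnn : 0 ≤ C * (k0 : ℝ) ^ (1 + θ) := by positivity
  rcases Nat.lt_or_ge k k0 with hlt | hge
  · -- small multiplicities
    refine hQ k H L N hk ?_ ?_ ?_
    · exact le_trans (Nat.mul_le_mul_right k (by omega)) hH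
    · exact le_trans (Nat.mul_le_mul_right k (by omega)) hL
    · refine le_trans ?_ hCL
      have hle : (k : ℝ) ≤ k0 := by exact_mod_cast hlt.le
      calc C * (k : ℝ) ^ (1 + θ) ≤ C * (k0 : ℝ) ^ (1 + θ) := by
            apply mul_le_mul_of_nonneg_left _ (by linarith)
            exact Real.rpow_le_rpow hkpos.le hle (by linarith)
        _ ≤ (4 + C * (k0 : ℝ) ^ (1 + θ)) * 1 := by linarith
        _ ≤ _ := by
            apply mul_le_mul_of_nonneg_left hpow1 (by linarith)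
  · obtain ⟨s, B, Z, hs, hB, hkB, hs1, hZC, hZ2, hZη, hMZ, hMs⟩ := hk0 k hge
    obtain ⟨n, hn, hco⟩ := hcop B hB
    have hη1 : s ≤ (2 * η + 1) * s := by
      calc s = 1 * s := (one_mul s).symm
        _ ≤ (2 * η + 1) * s := Nat.mul_le_mul_right s (by omega)
    have hη3 : 3 * s ≤ (2 * η + 1) * s := Nat.mul_le_mul_right s (by omega)
    -- abbreviation
    obtain ⟨u, hu⟩ : ∃ u, u = (2 * η + 1) * s := ⟨_, rfl⟩
    rw [← hu] at hη1 hη3 hZC hZ2 hZη hMZ
    have hju : (j + 1) * u = j * u + u := by ring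
    have hju' : u ≤ j * u := by
      calc u = 1 * u := (one_mul u).symm
        _ ≤ j * u := Nat.mul_le_mul_right u hj
    let P : Par η :=
      { s := s
        W1 := 2 * u
        W2 := 8 * u
        W3 := 21 * ((j + 1) * u)
        Z := Z
        hη := hη
        hs := hs
        h1 := by rw [← hu]
        h2 := by omega
        h3 := by
          rw [hju]
          omega
        hZ2 := hZ2
        hZη := hZη
        hQ := by
          intro μ hμ hμW H' L' N' h1 h2 h3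
          refine (hQ μ L' H' N' hμ h2 h1 ?_).swap
          calc C * (μ : ℝ) ^ (1 + θ)
              ≤ C * ((21 * ((j + 1) * u) : ℕ) : ℝ) ^ (1 + θ) := by
                apply mul_le_mul_of_nonneg_left _ (by linarith)
                exact Real.rpow_le_rpow (Nat.cast_nonneg _) (by exact_mod_cast hμW) (by linarith)
            _ ≤ Z := hZC
            _ ≤ H' := by exact_mod_cast h3 }
    -- the condition on `L`
    have hsL : 2 * (k * (k + 1)) ≤ s * L := by
      have h1 : (4 : ℝ) * ((k : ℝ) * k) ≤ (s : ℝ) * L := by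
        have h2 : (k : ℝ) ^ (1 - θ') * (k : ℝ) ^ (1 + θ') = (k : ℝ) * k := by
          rw [← Real.rpow_add hkpos]
          have : (1 - θ') + (1 + θ') = 2 := by ring
          rw [this, Real.rpow_two, sq]
        calc (4 : ℝ) * ((k : ℝ) * k) = (k : ℝ) ^ (1 - θ') * (4 * (k : ℝ) ^ (1 + θ')) := by
              rw [← h2]; ring
          _ ≤ (s : ℝ) * L := by
              apply mul_le_mul hs1 _ (by positivity) (Nat.cast_nonneg _)
              refine le_trans ?_ hCL
              apply mul_le_mul_of_nonneg_right _ (by linarith)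
              linarith
      have h3 : 4 * (k * k) ≤ s * L := by exact_mod_cast h1
      have h4 : 2 * (k * (k + 1)) ≤ 4 * (k * k) := by nlinarith
      exact h4.trans h3
    refine hlev η P j (3 * (c * B)) k L hj ?_ n ?_ hco hMZ ?_ ?_ ?_ ?_ H ?_ N
    · have := Nat.mul_pos hc hB
      omega
    · intro i hi
      have h1 := hn i hi
      constructor
      · omega
      · have : c * B ≤ 3 * (c * B) := by omega
        omega
    · change k * (k + 1) * (Z + 4 * (3 * (c * B)) * s) ≤ s * Z * L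
      calc k * (k + 1) * (Z + 4 * (3 * (c * B)) * s) ≤ k * (k + 1) * (2 * Z) :=
            Nat.mul_le_mul_left _ (by omega)
        _ = 2 * (k * (k + 1)) * Z := by ring
        _ ≤ s * L * Z := Nat.mul_le_mul_right _ hsL
        _ = s * Z * L := by ring
    · change (j + 5) * ((2 * η + 1) * s) + j * (1 + s) ≤ j * (8 * u)
      rw [← hu]
      have h1 : (j + 5) * u = j * u + 5 * u := by ring
      have h2 : j * (1 + s) ≤ 2 * (j * u) := by
        calc j * (1 + s) ≤ j * (2 * u) := Nat.mul_le_mul_left j (by omega)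
          _ = 2 * (j * u) := by ring
      have h3 : j * (8 * u) = 8 * (j * u) := by ring
      rw [h1, h3]
      omega
    · change j * (2 * u + s + 1) ≤ 21 * ((j + 1) * u) + 1
      have h2 : j * (2 * u + s + 1) ≤ 4 * (j * u) := by
        calc j * (2 * u + s + 1) ≤ j * (4 * u) := Nat.mul_le_mul_left j (by omega)
          _ = 4 * (j * u) := by ring
      rw [hju]
      omega
    · exact le_prod_of_le_pow hkB (fun i hi => (hn i hi).1)
    · exact le_trans (Nat.mul_le_mul_right k (by omega)) hH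

end Pool.Agent.Work.MP_0421d9_ag.LD
end

section
/-!
The base of the induction: maximal rank when one side is at least `14 k ^ 2`.
-/

namespace Pool.Agent.Work.MP_0421d9_ag.LD

open MvPolynomial Module

theorem QT_base_aux {k L : ℕ} (hk : 1 ≤ k) (hL : 14 * (k * k) ≤ L) :
    ∀ H : ℕ, 2 * k + 1 ≤ H → ∀ N, MR H L k N := by
  have hρ : L % k < k := Nat.mod_lt _ hk
  obtain ⟨q, hq⟩ : ∃ q, L = k * q + L % k := ⟨L / k, (Nat.div_add_mod _ _).symm⟩
  generalize L % k = ρ at *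
  have h1 : 2 * (k + 1) + ρ ≤ q := by
    by_contra hcon
    have h2 : k * q ≤ k * (2 * (k + 1) + ρ) := Nat.mul_le_mul_left k (by omega)
    have h3 : k * ρ ≤ k * k := Nat.mul_le_mul_left k hρ.le
    nlinarith
  obtain ⟨a, rfl⟩ : ∃ a, q = a + (2 * (k + 1) + ρ) := ⟨q - (2 * (k + 1) + ρ), by omega⟩
  have hLe : L = a * k + (2 * k + ρ) * (k + 1) := by
    rw [hq]; ring
  have hρk : ρ * (k + 1) + (k + 1) ≤ k * (k + 1) := by
    have : (ρ + 1) * (k + 1) ≤ k * (k + 1) := Nat.mul_le_mul_right _ hρ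
    nlinarith
  have hak : 4 * (k * k) + 6 * k + 2 ≤ a * k + 8 * k + 2 := by
    nlinarith
  have hL2 : 2 ≤ L := by nlinarith
  have hμ := two_mul_choose k
  have hLk : L * k + (a * k) = 2 * (a + (2 * k + ρ)) * (k + 1).choose 2 := by
    have : 2 * (a + (2 * k + ρ)) * (k + 1).choose 2 = (a + (2 * k + ρ)) * (k * (k + 1)) := by
      rw [← hμ]; ring
    rw [this, hLe]
    ring
  intro H
  induction H using Nat.strong_induction_on with
  | _ H ih =>
    intro hH N
    rcases Nat.lt_or_ge N (2 * (a + (2 * k + ρ))) with hN | hN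
    · exact MR_of_reg (rect_pack (u := 1) hk hL2 hLe (by omega) (by omega))
    rcases Nat.lt_or_ge H (3 * k + 2) with h2 | h2
    · refine MR_of_le (rect_exact (α := a) (β := 2 * k + ρ) hk hH hL2 hLe hN ?_ ?_)
      · have h3 : (H - k - 1).choose 2 ≤ (2 * k - 1 + 1).choose 2 :=
          Nat.choose_le_choose 2 (by omega)
        have h4 := two_mul_choose (2 * k - 1)
        have h5 : (2 * k - 1) * (2 * k - 1 + 1) + 2 * k = 4 * (k * k) := by
          obtain ⟨x, rfl⟩ : ∃ x, k = x + 1 := ⟨k - 1, by omega⟩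
          have : 2 * (x + 1) - 1 = 2 * x + 1 := by omega
          rw [this]
          ring
        omega
      · have h3 : (H - k - 2).choose 2 ≤ (2 * k + 1).choose 2 :=
          Nat.choose_le_choose 2 (by omega)
        have h4 := two_mul_choose (2 * k)
        have h5 : 2 * k * (2 * k + 1) + 2 * k ≤ 2 * ((2 * k + ρ) * (k + 1)) := by nlinarith
        omega
    · obtain ⟨n, rfl⟩ : ∃ n, N = n + 2 * (a + (2 * k + ρ)) :=
        ⟨N - 2 * (a + (2 * k + ρ)), by omega⟩
      have hs := rect_strip (N := n) hk (by omega : k + 1 ≤ H) hL2 hLe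
      have i1 := ih (H - k) (by omega) (by omega) n
      have i2 := ih (H - k - 1) (by omega) (by omega) n
      obtain ⟨x, rfl⟩ : ∃ x, H = x + k + 1 := ⟨H - k - 1, by omega⟩
      have g1 : x + k + 1 - k = x + 1 := by omega
      have g2 : x + 1 - 1 = x := by omega
      rw [g1] at hs i1 i2
      rw [g2] at hs i2
      unfold MR at i1 i2
      apply MR_of_le
      have e1 : (x + k + 1) * L = x * L + L * k + L := by ring
      have e2 : (x + 1) * L = x * L + L := by ring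
      have e3 : (n + 2 * (a + (2 * k + ρ))) * (k + 1).choose 2 =
          n * (k + 1).choose 2 + 2 * (a + (2 * k + ρ)) * (k + 1).choose 2 := by ring
      rw [e1, e3, ← hLk]
      rw [e2] at i1
      generalize n * (k + 1).choose 2 = nμ at *
      generalize x * L = xL at *
      generalize L * k = Lk at *
      generalize hαk : a * k = αk at *
      refine hs.trans (max_le ?_ ?_)
      · omega
      · omega

theorem QT_base : QT 1 := by
  refine ⟨3, 14, by norm_num, by norm_num, ?_⟩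
  intro k H L N hk hH _ hL
  have h1 : (k : ℝ) ^ ((1 : ℝ) + 1) = (k : ℝ) * k := by
    rw [Real.rpow_add (by exact_mod_cast hk), Real.rpow_one]
  rw [h1] at hL
  have h2 : 14 * (k * k) ≤ L := by exact_mod_cast hL
  exact QT_base_aux hk h2 H (by omega) N

end Pool.Agent.Work.MP_0421d9_ag.LD
end

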