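import Pool.Agent.Work.Z0421M.C12
import Pool.Agent.Work.Z0421M.C14
import Pool.Agent.Work.Z0421M.C15
import Pool.Agent.Work.Z0421M.C19
import Pool.Agent.Work.Z0421M.C21
import Pool.Agent.Work.Z0421M.C31

section
/-!
Strips of a rectangle: pools of small, equal multiplicities.
-/

namespace Pool.Agent.Work.MP_0421d9_ag.LD

open MvPolynomial Module

/-- the points which are used -/
theorem zr_sum_rest {N r : ℕ} {e : Fin N → Fin r} (he : Function.Injective e) (y : Fin r → ℕ)
    (g : ℕ → ℕ) (hg : g 0 = 0) : ∑ j, g (y (e j)) + ∑ i, g (rest e y i) = ∑ i, g (y i) := by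
  classical
  have h1 : ∑ j, g (y (e j)) = ∑ i ∈ Finset.univ.image e, g (y i) := by
    rw [Finset.sum_image (fun a _ b _ h => he h)]
  rw [h1, ← Finset.sum_add_sum_compl (Finset.univ.image e) (fun i => g (rest e y i)),
    ← Finset.sum_add_sum_compl (Finset.univ.image e) (fun i => g (y i))]
  have h2 : ∑ i ∈ Finset.univ.image e, g (rest e y i) = 0 := by
    apply Finset.sum_eq_zero
    intro i hi
    rw [Finset.mem_image] at hi
    obtain ⟨j, -, rfl⟩ := hi
    rw [rest_mem, hg]
  have h3 : ∑ i ∈ (Finset.univ.image e)ᶜ, g (rest e y i) =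
      ∑ i ∈ (Finset.univ.image e)ᶜ, g (y i) := by
    apply Finset.sum_congr rfl
    intro i hi
    rw [Finset.mem_compl, Finset.mem_image] at hi
    rw [rest_not_mem]
    rintro ⟨j, rfl⟩
    exact hi ⟨j, Finset.mem_univ _, rfl⟩
  rw [h2, h3, zero_add]

/-- all multiplicities equal to `v` -/
theorem rect_small {H L r v : ℕ} {y : Fin r → ℕ} (P : Finset (Fin r)) (hv : 1 ≤ v)
    (hP : ∀ i ∈ P, y i = v) (hPs : 4 * L ≤ ∑ i ∈ P, y i) (hL : 2 * v * (v + 1) ≤ L)
    (hH : 2 * v + 1 ≤ H) : StripOut H L P y v := by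
  obtain ⟨t, s, hs, hts⟩ : ∃ t s, s < v ∧ L = t * v + s :=
    ⟨L / v, L % v, Nat.mod_lt _ hv, (Nat.div_add_mod' L v).symm⟩
  have ht : v + 1 ≤ t := by
    by_contra hcon
    have h1 : t * v ≤ v * v := Nat.mul_le_mul_right _ (by omega)
    have h2 : 2 * v * (v + 1) = v * v + v * v + 2 * v := by ring
    omega
  have hcard : 2 * t ≤ P.card := by
    have h1 : ∑ i ∈ P, y i = P.card * v := by
      rw [Finset.sum_congr rfl hP, Finset.sum_const, smul_eq_mul]
    rw [h1] at hPs
    by_contra hcon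
    have h2 : P.card * v ≤ (2 * t) * v := Nat.mul_le_mul_right _ (by omega)
    have h3 : 2 * t * v = 2 * (t * v) := by ring
    have h4 : (v + 1) * v ≤ t * v := Nat.mul_le_mul_right _ ht
    have h5 : 1 ≤ (v + 1) * v := Nat.mul_pos (Nat.succ_pos v) hv
    omega
  obtain ⟨Q, hQP, hQ⟩ := Finset.exists_subset_card_eq hcard
  let e : Fin (2 * t) → Fin r := fun j => (Q.orderIsoOfFin hQ j).1
  have he : Function.Injective e := fun a b h =>
    (Q.orderIsoOfFin hQ).injective (Subtype.ext h)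
  have heP : ∀ j, e j ∈ P := fun j => hQP (Q.orderIsoOfFin hQ j).2
  have hye : ∀ j, y (e j) = v := fun j => hP _ (heP j)
  have hyc : y ∘ e = fun _ => v := funext hye
  have hL2 : 2 ≤ L := by
    have h4 : (v + 1) * 1 ≤ t * v := Nat.mul_le_mul ht hv
    omega
  have hsum : ∑ _i : Fin (2 * t), v = 2 * t * v := by
    rw [Finset.sum_const, Finset.card_univ, Fintype.card_fin, smul_eq_mul]
  have hX : (v + 1) * s ≤ L := by
    have h1 : (v + 1) * s ≤ t * v := Nat.mul_le_mul ht hs.le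
    omega
  have h1 : hRm (v + 1) L (y ∘ e) ≤ (v + 1) * s := by
    rw [hyc]
    have h2 := transform_rect_m (κ := v) (L := L) (L' := s) (t := t) (u := fun _ => v)
      (by omega) (fun _ => le_rfl) (by
        rw [hsum, hts]
        ring)
    exact h2.trans (hRm_le_mul _ _ _)
  have h0 : hRm v L (y ∘ e) = 0 := by
    rw [hyc]
    obtain ⟨w, rfl⟩ : ∃ w, v = w + 1 := ⟨v - 1, by omega⟩
    apply transform_rect_empty_m (t := t) (by omega)
    rw [hsum, hts]
    have e1 : 2 * t * (w + 1) = t * (w + 1) + w * t + t := by ring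
    rw [e1]
    omega
  have hstep := rect_strip_m (H := H) (L := L) (R := v) (X := (v + 1) * s) e he hv
    (by omega) hL2 hX h1 h0
  have hch : 2 * (v + 1).choose 2 = v * (v + 1) := by
    have h := Nat.triangle_succ v
    have h2 := Nat.choose_two_right (v + 1)
    rw [Nat.add_sub_cancel] at h2
    have h3 : Even ((v + 1) * v) := by
      rw [mul_comm]
      exact Nat.even_mul_succ_self v
    rw [h2, Nat.mul_div_cancel' h3.two_dvd, mul_comm]
  refine ⟨v, (v + 1) * s, rest e y, t * (v * (v + 1)), 2 * t * v, hstep, ?_, ?_, ?_, ?_, ?_, ?_, ?_⟩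
  · intro i hi
    rw [rest_not_mem]
    rintro ⟨j, rfl⟩
    exact hi (heP j)
  · have h2 := zr_sum_rest he y (fun n => (n + 1).choose 2) (by decide)
    have h3 : ∑ j, (y (e j) + 1).choose 2 = t * (v * (v + 1)) := by
      rw [Finset.sum_congr rfl (fun j _ => by rw [hye j]), Finset.sum_const, Finset.card_univ,
        Fintype.card_fin, smul_eq_mul, ← hch]
      ring
    rw [← h3]
    exact h2
  · have h2 := zr_sum_rest he y (fun n => n) rfl
    have h3 : ∑ j, y (e j) = 2 * t * v := by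
      rw [Finset.sum_congr rfl (fun j _ => hye j), hsum]
    rw [← h3]
    exact h2
  · omega
  · have e1 : (v + 1) * s + t * (v * (v + 1)) = (v + 1) * L := by
      rw [hts]
      ring
    rw [e1]
    exact Nat.le_add_right _ _
  · have e1 : (v + 1) * L = (v + 1) * s + t * (v * (v + 1)) := by
      rw [hts]
      ring
    omega
  · have e1 : (v + 1) * L = (v + 1) * s + t * (v * (v + 1)) := by
      rw [hts]
      ring
    have h2 : (v + 1) * s ≤ t * (v * (v + 1)) := by
      have h3 : (v + 1) * s ≤ (v + 1) * (t * v) := Nat.mul_le_mul_left _ (by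
        have h4 : 1 * v ≤ t * v := Nat.mul_le_mul_right _ (by omega)
        omega)
      have e2 : (v + 1) * (t * v) = t * (v * (v + 1)) := by ring
      omega
    omega

end Pool.Agent.Work.MP_0421d9_ag.LD
end

section
/-!
Strips of rectangles with varying multiplicities (helper63, after the plan of helper69).
-/

namespace Pool.Agent.Work.MP_0421d9_ag.LD

open MvPolynomial Module

theorem zr_mono_right {N H L L' : ℕ} {k : Fin N → ℕ} (h : L ≤ L') : hRm H L k ≤ hRm H L' k := by
  induction L', h using Nat.le_induction with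
  | base => exact le_rfl
  | succ n hn ih =>
    refine ih.trans ?_
    rw [hRm_swap H n, hRm_swap H (n + 1)]
    exact hRm_le_succ n H k

/-- the conditions and the multiplicities of the transform -/
theorem zr_identities {n κ : ℕ} {y k : Fin n → ℕ} (h : ∀ i, y i + k i = κ) :
    ∑ i, y i + ∑ i, k i = n * κ ∧
    ∑ i, (y i + 1).choose 2 + κ * ∑ i, k i + ∑ i, k i =
      n * (κ + 1).choose 2 + ∑ i, (k i + 1).choose 2 ∧
    ∑ i, k i ^ 2 + ∑ i, k i = 2 * ∑ i, (k i + 1).choose 2 := by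
  have hcard : ∀ c : ℕ, ∑ _i : Fin n, c = n * c := fun c => by simp
  refine ⟨?_, ?_, ?_⟩
  · rw [← Finset.sum_add_distrib, ← hcard]
    exact Finset.sum_congr rfl fun i _ => h i
  · rw [← hcard, Finset.mul_sum, ← Finset.sum_add_distrib, ← Finset.sum_add_distrib,
      ← Finset.sum_add_distrib]
    exact Finset.sum_congr rfl fun i _ => mg_choose_sub (h i)
  · rw [Finset.mul_sum, ← Finset.sum_add_distrib]
    refine Finset.sum_congr rfl fun i _ => ?_
    rw [mg_two_choose]
    ring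

theorem zr_pred {n : ℕ} {k : Fin n → ℕ} (h : ∀ i, 1 ≤ k i) :
    ∑ i, (k i - 1) ^ 2 + 3 * ∑ i, k i = 2 * ∑ i, (k i + 1).choose 2 + n := by
  have hcard : ∑ _i : Fin n, 1 = n := by simp
  have h2 : 2 * ∑ i, (k i + 1).choose 2 + n =
      ∑ i, (2 * (k i + 1).choose 2) + ∑ _i : Fin n, 1 := by rw [Finset.mul_sum, hcard]
  rw [h2, Finset.mul_sum, ← Finset.sum_add_distrib, ← Finset.sum_add_distrib]
  refine Finset.sum_congr rfl fun i _ => ?_
  rw [mg_two_choose]
  obtain ⟨w, hw⟩ : ∃ w, k i = w + 1 := ⟨k i - 1, by have := h i; omega⟩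
  rw [hw, Nat.add_sub_cancel]
  ring

/-- the strip, once the points and the height have been chosen -/
theorem zr_strip {T q a p H L r u ω t κ : ℕ} {y : Fin r → ℕ} {e : Fin (2 * t) → Fin r}
    (hW : WinR T q a) (h : RW T q a p L u ω t κ (∑ i, (y (e i) + 1).choose 2))
    (he : Function.Injective e) (hyu : ∀ i, y (e i) ≤ u) (hyl : ∀ i, u ≤ y (e i) + ω)
    (hH : 2 * u + 1 ≤ H) :
    RStep H L κ (max ((κ + 1) * L - ∑ i, (y (e i) + 1).choose 2) (L / 50)) y (rest e y) := by
  obtain ⟨C, hC⟩ : ∃ C, C = ∑ i, (y (e i) + 1).choose 2 := ⟨_, rfl⟩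
  rw [← hC] at h ⊢
  have ht := h.t1'
  have hw := h.D2'
  have hu1 := h.u1
  have hL8 := h.D3'
  have d5 := h.D5
  have d5' := h.D5'
  have hκu := h.κu
  have hd1 := h.D1
  have hκ2 : κ ≤ 2 * u := by omega
  -- the multiplicities of the transform
  obtain ⟨k, hkd⟩ : ∃ k : Fin (2 * t) → ℕ, ∀ i, k i = κ - y (e i) := ⟨_, fun i => rfl⟩
  have hyk : ∀ i, y (e i) + k i = κ := fun i => by
    have := hkd i; have := hyu i; omega
  have hk1 : ∀ i, 1000 * k i ≤ 2001 * ω := fun i => by
    have := hyk i; have := hyl i; omega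
  have hk2 : ∀ i, ω ≤ k i + 1 := fun i => by
    have := hyk i; have := hyu i; omega
  have hcard : ∀ c : ℕ, ∑ _i : Fin (2 * t), c = (2 * t) * c := fun c => by simp
  obtain ⟨i1, i2, i3⟩ := zr_identities hyk
  have i4 := zr_pred (k := k) (fun i => by have := hk2 i; omega)
  obtain ⟨K, hK⟩ : ∃ K, K = ∑ i, k i := ⟨_, rfl⟩
  obtain ⟨S, hS⟩ : ∃ S, S = ∑ i, (k i + 1).choose 2 := ⟨_, rfl⟩
  obtain ⟨Y, hY⟩ : ∃ Y, Y = ∑ i, y (e i) := ⟨_, rfl⟩
  obtain ⟨Sq, hSq⟩ : ∃ Sq, Sq = ∑ i, k i ^ 2 := ⟨_, rfl⟩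
  obtain ⟨Sr, hSr⟩ : ∃ Sr, Sr = ∑ i, (k i - 1) ^ 2 := ⟨_, rfl⟩
  rw [← hK, ← hY] at i1
  rw [← hC, ← hK, ← hS] at i2
  rw [← hK, ← hS, ← hSq] at i3
  rw [← hK, ← hS, ← hSr] at i4
  have hKle : 1000 * K ≤ 4002 * (t * ω) := by
    have h1 : 1000 * K ≤ (2 * t) * (2001 * ω) := by
      rw [hK, Finset.mul_sum, ← hcard]
      exact Finset.sum_le_sum fun i _ => hk1 i
    have e1 : (2 * t) * (2001 * ω) = 4002 * (t * ω) := by ring
    omega
  have hSle : S ≤ 5 * (t * (ω * ω)) := by
    have h1 : 2 * S ≤ (2 * t) * (5 * (ω * ω)) := by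
      rw [hS, Finset.mul_sum, ← hcard]
      refine Finset.sum_le_sum fun i _ => ?_
      rw [mg_two_choose]
      have h2 := hk1 i
      have h3 : (1000 * k i) * (1000 * k i + 1000) ≤ (2001 * ω) * (2001 * ω + 1000) :=
        Nat.mul_le_mul h2 (by omega)
      nlinarith
    have e1 : (2 * t) * (5 * (ω * ω)) = 2 * (5 * (t * (ω * ω))) := by ring
    omega
  have hSge : t * (ω * (ω - 1)) ≤ S := by
    have h1 : (2 * t) * (ω * (ω - 1)) ≤ 2 * S := by
      rw [hS, Finset.mul_sum, ← hcard]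
      refine Finset.sum_le_sum fun i _ => ?_
      rw [mg_two_choose, mul_comm (k i)]
      exact Nat.mul_le_mul (hk2 i) (by have := hk2 i; omega)
    have e1 : (2 * t) * (ω * (ω - 1)) = 2 * (t * (ω * (ω - 1))) := by ring
    omega
  -- the width of the transform
  have hch := mg_two_choose κ
  have e2 : 2 * t * (κ + 1).choose 2 = t * (κ * (κ + 1)) := by
    rw [← hch]; ring
  rw [e2] at i2
  have hidZ : ((κ : ℤ) + 1) * ((L : ℤ) + κ * t - Y) + C = (κ + 1) * L + S := by
    have j1 : (Y : ℤ) + K = 2 * t * κ := by exact_mod_cast i1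
    have j2 : (C : ℤ) + κ * K + K = t * (κ * (κ + 1)) + S := by exact_mod_cast i2
    have j3 : (Y : ℤ) = 2 * t * κ - K := by linarith
    rw [j3]
    linarith
  have hlow := h.Llow hidZ hSge
  obtain ⟨L', hL'⟩ : ∃ L' : ℕ, (L' : ℤ) = (L : ℤ) + κ * t - Y := by
    refine ⟨((L : ℤ) + κ * t - Y).toNat, Int.toNat_of_nonneg ?_⟩
    have : (0 : ℤ) ≤ 19 * (a * ω) := by positivity
    linarith
  rw [← hL'] at hidZ hlow
  have hid : (κ + 1) * L' + C = (κ + 1) * L + S := by exact_mod_cast hidZ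
  have hlow' : 19 * (a * ω) ≤ L' := by exact_mod_cast hlow
  have hLY : L' + Y = L + κ * t := by
    have : (L' : ℤ) + Y = L + κ * t := by linarith
    exact_mod_cast this
  have hLK : L' + κ * t = L + K := by
    have e3 : 2 * t * κ = 2 * (κ * t) := by ring
    omega
  have hLup := h.Lup hid hSle
  have hL1 : 6 * a * (3 * ω + 1) + 1 ≤ L' := by
    have h1 : a * 400000 ≤ a * ω := Nat.mul_le_mul_left _ hw
    have h2 := h.ha
    have e3 : 6 * a * (3 * ω + 1) + 1 = 18 * (a * ω) + 6 * a + 1 := by ring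
    omega
  have hq1 := h.hq_le
  have k1 := h.k1
  have k2 := h.k2
  have hke : (fun i => κ - (y ∘ e) i) = k := funext fun i => (hkd i).symm
  -- the regular rectangle
  have hreg : ∃ L₂ V, L' ≤ L₂ ∧ V + S = (κ + 1) * L₂ ∧ L ≤ 60 * V ∧
      V ≤ max ((κ + 1) * L - C) (L / 50) ∧ 300000 * L₂ ≤ L := by
    rcases Nat.lt_or_ge ((κ + 1) * L') (S + (L / 60 + 1)) with hB | hB
    · obtain ⟨L₂, hL₂⟩ : ∃ L₂, L₂ = (S + (L / 60 + 1)) / (κ + 1) + 1 := ⟨_, rfl⟩
      have h1 : (κ + 1) * ((S + (L / 60 + 1)) / (κ + 1)) ≤ S + (L / 60 + 1) := Nat.mul_div_le _ _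
      have h2 : S + (L / 60 + 1) < (κ + 1) * L₂ := by
        rw [hL₂]
        exact Nat.lt_mul_div_succ _ (by omega)
      have h3 : (κ + 1) * L₂ ≤ S + (L / 60 + 1) + (κ + 1) := by
        rw [hL₂, Nat.mul_add, Nat.mul_one]
        omega
      have h4 : L' ≤ L₂ := by
        have h5 : (κ + 1) * L' ≤ (κ + 1) * L₂ := by omega
        exact Nat.le_of_mul_le_mul_left h5 (by omega)
      obtain ⟨x, rfl⟩ : ∃ x, L₂ = L' + x := ⟨L₂ - L', by omega⟩
      have h6 : 1000000 * x ≤ (κ + 1) * x := Nat.mul_le_mul_right _ (by omega)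
      have h7 : (κ + 1) * (L' + x) = (κ + 1) * L' + (κ + 1) * x := Nat.mul_add _ _ _
      refine ⟨L' + x, (κ + 1) * (L' + x) - S, h4, by omega, by omega, ?_, by omega⟩
      exact le_max_of_le_right (by omega)
    · refine ⟨L', (κ + 1) * L' - S, le_rfl, by omega, by omega, ?_, by omega⟩
      exact le_max_of_le_left (by omega)
  obtain ⟨L₂, V, hr1, hr2, hr3, hr4, hr5⟩ := hreg
  have hX1 : hRm (κ + 1) L (y ∘ e) ≤ max ((κ + 1) * L - C) (L / 50) := by
    have h1 := transform_rect_m (κ := κ) (L := L) (L' := L') (t := t) (u := y ∘ e) ht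
      (fun i => by have := hyk i; simp only [Function.comp]; omega) (by
        rw [← hLY, hY]; rfl)
    rw [hke] at h1
    refine (h1.trans (zr_mono_right hr1)).trans ?_
    have h2 := (hW (2 * t) (3 * ω) (κ + 1) L₂ k (by omega) (fun i => by have := hk1 i; omega)
      (by omega) (by omega)).2
    have h3 := h2 (by
      rw [← hSq, ← hK]
      exact h.reg hKle i3 hr2 hr3 (by omega) hr5)
    rw [← hS] at h3
    omega
  -- the empty rectangle
  have hX0 : hRm κ L (y ∘ e) = 0 := by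
    obtain ⟨κ₀, hκ₀⟩ : ∃ κ₀, κ = κ₀ + 1 := ⟨κ - 1, by omega⟩
    have e3 : κ * t = κ₀ * t + t := by rw [hκ₀]; ring
    rcases Nat.lt_or_ge t L' with htL | htL
    · obtain ⟨L₃, hL₃⟩ : ∃ L₃, L₃ + t = L' := ⟨L' - t, by omega⟩
      have h1 := transform_rect_m (κ := κ₀) (L := L) (L' := L₃) (t := t) (u := y ∘ e) ht
        (fun i => by have := hyu i; simp only [Function.comp]; omega) (by
          have : ∑ i, (y ∘ e) i = Y := by rw [hY]; rfl
          rw [this]
          omega)
      have e4 : (fun i => κ₀ - (y ∘ e) i) = fun i => k i - 1 := funext fun i => by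
        have := hkd i
        simp only [Function.comp]
        omega
      rw [e4, ← hκ₀] at h1
      rw [← Nat.le_zero]
      have hkc : ∀ i, k i - 1 ≤ 3 * ω := fun i => by have := hk1 i; omega
      rcases Nat.lt_or_ge L₃ (6 * a * (3 * ω + 1) + 1) with h5 | h5
      · refine (h1.trans (zr_mono_right h5.le)).trans (le_of_eq ?_)
        have h6 := (hW (2 * t) (3 * ω) κ (6 * a * (3 * ω + 1) + 1) (fun i => k i - 1) (by omega)
          hkc (by omega) le_rfl).1
        apply h6
        rw [← hSr]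
        obtain ⟨w, hw2⟩ : ∃ w, w + 2 = ω := ⟨ω - 2, by omega⟩
        apply h.emp' hw2
        have h7 : (2 * t) * (w * w) ≤ Sr := by
          rw [hSr, ← hcard]
          refine Finset.sum_le_sum fun i _ => ?_
          have h8 := hk2 i
          rw [pow_two]
          exact Nat.mul_le_mul (by omega) (by omega)
        have e5 : (2 * t) * (w * w) = 2 * (t * (w * w)) := by ring
        omega
      · refine h1.trans (le_of_eq ?_)
        have h6 := (hW (2 * t) (3 * ω) κ L₃ (fun i => k i - 1) (by omega)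
          hkc (by omega) h5).1
        apply h6
        rw [← hSr]
        exact h.emp hKle i4 hid hLK hL₃
    · have h1 := transform_rect_empty_m (κ := κ₀) (L := L) (t := t) (u := y ∘ e) ht (by
        have : ∑ i, (y ∘ e) i = Y := by rw [hY]; rfl
        rw [this]
        omega)
      rwa [← hκ₀] at h1
  exact rect_strip_m e he (by omega) (by omega) (by omega) (max_le (by omega) (by omega)) hX1 hX0

theorem rect_wide {T q a p H L r u : ℕ} (hW : WinR T q a) (hT : 1 ≤ T) (hq : 2 ≤ q) (ha : 2 ≤ a)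
    (hp : 40 * q + 4000 ≤ p) (hu : 100 * p ^ 2 ≤ u) (hL : 1000 * a * p * u ≤ L)
    (hTu : u ^ 2 ≤ T * L) {y : Fin r → ℕ} (P : Finset (Fin r))
    (hP : ∀ i ∈ P, y i ≤ u ∧ u ≤ y i + u / p) (hPs : 4 * L ≤ ∑ i ∈ P, y i)
    (hH : 2 * u + 1 ≤ H) : StripOut H L P y u := by
  classical
  obtain ⟨ω, hω⟩ : ∃ ω, ω = u / p := ⟨_, rfl⟩
  rw [← hω] at hP
  have w1 : p * ω ≤ u := by rw [hω]; exact Nat.mul_div_le u p
  have w2 : u < p * ω + p := by
    have := Nat.lt_mul_div_succ u (by omega : 0 < p)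
    rwa [Nat.mul_add, Nat.mul_one, ← hω] at this
  have d1 : 4000 * ω ≤ u := (Nat.mul_le_mul_right _ (by omega)).trans w1
  have hu1 : 1600000000 ≤ u := by
    refine le_trans ?_ hu
    calc 1600000000 = 100 * 4000 ^ 2 := by norm_num
      _ ≤ 100 * p ^ 2 := Nat.mul_le_mul_left _ (Nat.pow_le_pow_left (by omega) 2)
  have hL8 : 8000000 * u ≤ L := by
    refine le_trans (Nat.mul_le_mul_right _ ?_) hL
    calc 8000000 ≤ 1000 * (2 * 4080) := by norm_num
      _ ≤ 1000 * (a * p) := Nat.mul_le_mul_left _ (Nat.mul_le_mul ha (by omega))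
      _ = 1000 * a * p := by ring
  have hcu := mg_two_choose u
  -- enough conditions
  have hsum : (u + ω) * L + (u + 1).choose 2 ≤ ∑ i ∈ P, (y i + 1).choose 2 := by
    have h1 : (u - ω) * (∑ i ∈ P, y i) ≤ 2 * ∑ i ∈ P, (y i + 1).choose 2 := by
      rw [Finset.mul_sum, Finset.mul_sum]
      refine Finset.sum_le_sum fun i hi => ?_
      rw [mg_two_choose, mul_comm (y i)]
      have := hP i hi
      exact Nat.mul_le_mul_right _ (by omega)
    have h2 : (u - ω) * (4 * L) ≤ (u - ω) * (∑ i ∈ P, y i) := Nat.mul_le_mul_left _ hPs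
    have h3 : 2 * ((u + ω) * L) + u * (u + 1) ≤ (u - ω) * (4 * L) := by
      obtain ⟨v, hv⟩ : ∃ v, u = v + ω := ⟨u - ω, by omega⟩
      have e1 : u - ω = v := by omega
      rw [e1]
      have h4 : u * (u + 1) ≤ u * L := Nat.mul_le_mul_left _ (by omega)
      have h5 : (3 * u + 2 * ω) * L ≤ (4 * v) * L := Nat.mul_le_mul_right _ (by omega)
      have e2 : (3 * u + 2 * ω) * L = 2 * ((u + ω) * L) + u * L := by ring
      have e3 : (4 * v) * L = v * (4 * L) := by ring
      omega
    omega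
  obtain ⟨Q, hQP, hQc, -, hQ1, hQ2⟩ := zsel_pick P (fun i => (y i + 1).choose 2)
    (w := (u + 1).choose 2) (A := (u + ω) * L) (par := 0) (by norm_num)
    (fun i hi => Nat.choose_le_choose 2 (by have := hP i hi; omega)) hsum
    (Nat.mul_pos (by omega) (by omega))
  obtain ⟨t, ht⟩ : ∃ t, Q.card = 2 * t := ⟨Q.card / 2, by omega⟩
  obtain ⟨e, he, heQ, hes⟩ := zsel_enum Q ht
  have hC := hes (fun i => (y i + 1).choose 2)
  have hY := hes y
  obtain ⟨C, hCd⟩ : ∃ C, C = ∑ i, (y (e i) + 1).choose 2 := ⟨_, rfl⟩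
  rw [← hC, ← hCd] at hQ1 hQ2
  have hyu : ∀ i, y (e i) ≤ u := fun i => (hP _ (hQP (heQ i))).1
  have hyl : ∀ i, u ≤ y (e i) + ω := fun i => (hP _ (hQP (heQ i))).2
  have hcard : ∀ c : ℕ, ∑ _i : Fin (2 * t), c = (2 * t) * c := fun c => by simp
  -- the height
  obtain ⟨z, hz⟩ : ∃ z, z = (100 * C + 99 * L) / (100 * L) := ⟨_, rfl⟩
  have z1 : 100 * L * z ≤ 100 * C + 99 * L := by rw [hz]; exact Nat.mul_div_le _ _
  have z2 : 100 * C + 99 * L < 100 * L * z + 100 * L := by
    have := Nat.lt_mul_div_succ (100 * C + 99 * L) (by omega : 0 < 100 * L)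
    rwa [Nat.mul_add, Nat.mul_one, ← hz] at this
  have z3 : 1 ≤ z := by
    by_contra hcon
    have hz0 : z = 0 := by omega
    rw [hz0, Nat.mul_zero] at z2
    have : L ≤ (u + ω) * L := Nat.le_mul_of_pos_left _ (by omega)
    omega
  obtain ⟨κ, rfl⟩ : ∃ κ, z = κ + 1 := ⟨z - 1, by omega⟩
  have e1 : 100 * L * (κ + 1) = 100 * ((κ + 1) * L) := by ring
  rw [e1] at z1 z2
  have hRW : RW T q a p L u ω t κ (∑ i, (y (e i) + 1).choose 2) := by
    rw [← hCd]
    refine ⟨hT, hq, ha, hp, hu, hL, hTu, w1, w2, hQ1, by omega, ?_, ?_, by omega, by omega⟩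
    · have h1 : C ≤ (2 * t) * (u + 1).choose 2 := by
        rw [hCd, ← hcard]
        exact Finset.sum_le_sum fun i _ => Nat.choose_le_choose 2 (by have := hyu i; omega)
      calc C ≤ (2 * t) * (u + 1).choose 2 := h1
        _ = t * (2 * (u + 1).choose 2) := by ring
        _ = t * (u * (u + 1)) := by rw [hcu]
    · intro v hv
      have h1 : (2 * t) * (v + 1).choose 2 ≤ C := by
        rw [hCd, ← hcard]
        exact Finset.sum_le_sum fun i _ => Nat.choose_le_choose 2 (by have := hyl i; omega)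
      calc t * (v * (v + 1)) = t * (2 * (v + 1).choose 2) := by rw [mg_two_choose]
        _ = (2 * t) * (v + 1).choose 2 := by ring
        _ ≤ C := h1
  have hstrip := zr_strip hW hRW he hyu hyl hH
  rw [← hCd] at hstrip
  have hκu : 1000 * (κ + 1) ≤ 1001 * u := hRW.κu
  have hS1 : 2 * L ≤ ∑ i, y (e i) := by
    have h1 : 2 * C ≤ (u + 1) * ∑ i, y (e i) := by
      rw [hCd, Finset.mul_sum, Finset.mul_sum]
      refine Finset.sum_le_sum fun i _ => ?_
      rw [mg_two_choose, mul_comm (y (e i))]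
      exact Nat.mul_le_mul_right _ (by have := hyu i; omega)
    have h2 : (u + 1) * (2 * L) ≤ (u + 1) * ∑ i, y (e i) := by
      have h3 : (u + 1) * L ≤ (u + ω) * L := Nat.mul_le_mul_right _ (by
        have := hRW.D2'; omega)
      have e2 : (u + 1) * (2 * L) = 2 * ((u + 1) * L) := by ring
      omega
    exact Nat.le_of_mul_le_mul_left h2 (by omega)
  refine ⟨κ, _, rest e y, C, ∑ i, y (e i), hstrip, fun i hi => ?_, ?_, ?_, by omega, ?_, by omega,
    ?_⟩
  · apply rest_not_mem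
    rintro ⟨j, rfl⟩
    exact hi (hQP (heQ j))
  · have h1 := mp_sum_rest he y (fun b => (b + 1).choose 2) (by decide)
    rw [hCd]
    omega
  · have h1 := mp_sum_rest he y (fun b => b) rfl
    omega
  · have h1 : max ((κ + 1) * L - C) (L / 50) ≤ (κ + 1) * L - C + L / 50 := by
      apply max_le <;> omega
    rcases Nat.lt_or_ge (L / 50) ((κ + 1) * L - C) with h2 | h2
    · rw [max_eq_left h2.le]
      omega
    · rw [max_eq_right h2]
      omega
  · have : L ≤ (u + ω) * L := Nat.le_mul_of_pos_left _ (by omega)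
    omega

end Pool.Agent.Work.MP_0421d9_ag.LD
end

section
/-!
Arbitrary multiplicities in degree at least `C M ^ (1 + ε)`: the induction step for rectangles.
-/

namespace Pool.Agent.Work.MP_0421d9_ag.LD

open MvPolynomial Module

theorem ER_step {T q a p U J qp ap Tp : ℕ} (hW : WinR T q a) (hT : 1 ≤ T) (hq : 2 ≤ q)
    (ha : 2 ≤ a) (hp : 40 * q + 4000 ≤ p) (hU : U = 100 * p ^ 2)
    (hJ : U + p * (Nat.log 2 (Tp + 1) + 2) + 2 ≤ J) (hqp : 10 ^ 5 * J + 10 ^ 6 * q ≤ qp)
    (hap : 1000 * a * p + 200 * p ^ 2 ≤ ap) (hTp : Tp ≤ T * ap) : ER Tp qp ap := by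
  obtain ⟨P, hP⟩ := exists_pools p U Tp (by omega)
  have hP' : Pools P p U Tp J :=
    ⟨hP.mono, hP.width, hP.small, fun v hv => (hP.count v hv).trans_le hJ⟩
  exact ER_step_of hW hT hq ha hp hU hP' hqp hap hTp
    (fun H L r v y Q h1 h2 h3 h4 h5 => rect_small Q h1 h2 h3 h4 h5)
    (fun H L r u y Q h1 h2 h3 h4 h5 h6 => rect_wide hW hT hq ha hp h1 h2 h3 Q h4 h5 h6)

end Pool.Agent.Work.MP_0421d9_ag.LD
end

section
/-!
Polynomials in two variables: multiplicities at points, interpolation, dimension counts.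
-/

namespace Pool.Agent.Work.MP_0421d9_ag.LD

open MvPolynomial Module

/-! ### the translation -/

theorem sh_C (x : Fin 2 → ℂ) (c : ℂ) : sh x (C c) = C c := by
  rw [sh, aeval_C]
  rfl

theorem sh_X (x : Fin 2 → ℂ) (l : Fin 2) : sh x (X l) = C (x l) + X l := by
  rw [sh, aeval_X]

theorem sh_neg_sh (x : Fin 2 → ℂ) (f : P2) : sh (-x) (sh x f) = f := by
  have h : (sh (-x)).comp (sh x) = AlgHom.id ℂ P2 := by
    ext l
    rw [AlgHom.comp_apply, sh_X, map_add, sh_C, sh_X, AlgHom.id_apply, Pi.neg_apply, C_neg,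
      add_neg_cancel_left]
  exact DFunLike.congr_fun h f

theorem sh_injective (x : Fin 2 → ℂ) : Function.Injective (sh x) :=
  Function.LeftInverse.injective (sh_neg_sh x)

theorem sh_ne_zero {x : Fin 2 → ℂ} {f : P2} (hf : f ≠ 0) : sh x f ≠ 0 := by
  intro h
  exact hf (sh_injective x (by rw [h, map_zero]))

theorem sh_sh_neg (x : Fin 2 → ℂ) (f : P2) : sh x (sh (-x) f) = f := by
  have h := sh_neg_sh (-x) f
  rwa [neg_neg] at h

/-! ### orders -/

theorem Vq.mono {x : Fin 2 → ℂ} {f : P2} {m n : ℕ} (h : Vq x f m) (hn : n ≤ m) : Vq x f n :=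
  fun β hβ => h β (hβ.trans_le hn)

theorem Vq.add {x : Fin 2 → ℂ} {f g : P2} {m : ℕ} (hf : Vq x f m) (hg : Vq x g m) :
    Vq x (f + g) m := by
  intro β hβ
  rw [map_add, coeff_add, hf β hβ, hg β hβ, add_zero]

theorem Vq.zero (x : Fin 2 → ℂ) (m : ℕ) : Vq x 0 m := by
  intro β _
  rw [map_zero, coeff_zero]

theorem Vq.neg {x : Fin 2 → ℂ} {f : P2} {m : ℕ} (hf : Vq x f m) : Vq x (-f) m := by
  intro β hβ
  rw [map_neg, coeff_neg, hf β hβ, neg_zero]

theorem Vq.sub {x : Fin 2 → ℂ} {f g : P2} {m : ℕ} (hf : Vq x f m) (hg : Vq x g m) :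
    Vq x (f - g) m := by
  rw [sub_eq_add_neg]
  exact hf.add hg.neg

theorem vq_zero' (x : Fin 2 → ℂ) (f : P2) : Vq x f 0 := fun _ hβ => absurd hβ (Nat.not_lt_zero _)

theorem Vq.mul {x : Fin 2 → ℂ} {f g : P2} {m n : ℕ} (hf : Vq x f m) (hg : Vq x g n) :
    Vq x (f * g) (m + n) := by
  classical
  intro β hβ
  rw [map_mul, coeff_mul]
  refine Finset.sum_eq_zero fun u hu => ?_
  rw [Finset.HasAntidiagonal.mem_antidiagonal] at hu
  have h1 : u.1.degree + u.2.degree = β.degree := by rw [← hu, map_add]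
  rcases Nat.lt_or_ge u.1.degree m with h | h
  · rw [hf _ h, zero_mul]
  · rw [hg _ (by omega), mul_zero]

theorem Vq.mul_left {x : Fin 2 → ℂ} {f : P2} {m : ℕ} (hf : Vq x f m) (g : P2) :
    Vq x (g * f) m := by
  have h := (vq_zero' x g).mul hf
  rwa [zero_add] at h

theorem Vq.mul_right {x : Fin 2 → ℂ} {f : P2} {m : ℕ} (hf : Vq x f m) (g : P2) :
    Vq x (f * g) m := by
  rw [mul_comm]
  exact hf.mul_left g

theorem Vq.pow {x : Fin 2 → ℂ} {f : P2} {m : ℕ} (hf : Vq x f m) (n : ℕ) :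
    Vq x (f ^ n) (n * m) := by
  induction n with
  | zero => rw [zero_mul]; exact vq_zero' x _
  | succ n ih =>
    rw [pow_succ, Nat.succ_mul]
    exact ih.mul hf

theorem exists_coeff_ne (x : Fin 2 → ℂ) {f : P2} (hf : f ≠ 0) :
    ∃ n, ∃ β : Fin 2 →₀ ℕ, β.degree = n ∧ coeff β (sh x f) ≠ 0 := by
  obtain ⟨β, hβ⟩ := MvPolynomial.ne_zero_iff.mp (sh_ne_zero (x := x) hf)
  exact ⟨_, β, rfl, hβ⟩

theorem vq_iff {x : Fin 2 → ℂ} {f : P2} (hf : f ≠ 0) {m : ℕ} : Vq x f m ↔ m ≤ mu x f := by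
  constructor
  · intro h
    refine le_csInf (exists_coeff_ne x hf) ?_
    rintro n ⟨β, rfl, hβ⟩
    by_contra hlt
    exact hβ (h β (not_le.mp hlt))
  · intro h β hβ
    by_contra hne
    have h1 : mu x f ≤ β.degree := Nat.sInf_le ⟨β, rfl, hne⟩
    omega

theorem vq_mu (x : Fin 2 → ℂ) {f : P2} (hf : f ≠ 0) : Vq x f (mu x f) := (vq_iff hf).2 le_rfl

theorem exists_coeff_mu (x : Fin 2 → ℂ) {f : P2} (hf : f ≠ 0) :
    ∃ β : Fin 2 →₀ ℕ, β.degree = mu x f ∧ coeff β (sh x f) ≠ 0 :=
  Nat.sInf_mem (exists_coeff_ne x hf)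

theorem order_sh (x : Fin 2 → ℂ) {f : P2} (hf : f ≠ 0) :
    ((sh x f : P2) : MvPowerSeries (Fin 2) ℂ).order = mu x f := by
  rw [MvPowerSeries.order_eq_nat]
  refine ⟨?_, fun d hd => ?_⟩
  · obtain ⟨β, h1, h2⟩ := exists_coeff_mu x hf
    exact ⟨β, by rw [MvPolynomial.coeff_coe]; exact h2, h1⟩
  · rw [MvPolynomial.coeff_coe]
    exact vq_mu x hf d hd

theorem mu_mul {x : Fin 2 → ℂ} {f g : P2} (hf : f ≠ 0) (hg : g ≠ 0) :
    mu x (f * g) = mu x f + mu x g := by
  have h := MvPowerSeries.order_mul ((sh x f : P2) : MvPowerSeries (Fin 2) ℂ)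
    ((sh x g : P2) : MvPowerSeries (Fin 2) ℂ)
  rw [← MvPolynomial.coe_mul, ← map_mul, order_sh x hf, order_sh x hg,
    order_sh x (mul_ne_zero hf hg)] at h
  exact_mod_cast h

theorem totalDegree_mul' {f g : P2} (hf : f ≠ 0) (hg : g ≠ 0) :
    (f * g).totalDegree = f.totalDegree + g.totalDegree := totalDegree_mul_of_isDomain hf hg

theorem mu_le_totalDegree (x : Fin 2 → ℂ) {f : P2} (hf : f ≠ 0) : mu x f ≤ f.totalDegree := by
  obtain ⟨β, h1, h2⟩ := exists_coeff_mu x hf
  have h3 : (sh x f).totalDegree ≤ f.totalDegree := by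
    rw [sh, aeval_def, eval₂_eq]
    refine totalDegree_finsetSum_le fun d hd => ?_
    refine (totalDegree_mul _ _).trans ?_
    have h4 : (algebraMap ℂ P2 (coeff d f)).totalDegree = 0 := by
      rw [algebraMap_eq, totalDegree_C]
    rw [h4, zero_add]
    refine (totalDegree_finsetProd _ _).trans ?_
    refine le_trans (Finset.sum_le_sum (g := fun l => d l) fun l _ => ?_) ?_
    · refine (totalDegree_pow _ _).trans ?_
      have h5 : (C (x l) + X l : P2).totalDegree ≤ 1 := by
        refine (totalDegree_add _ _).trans ?_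
        rw [totalDegree_C, totalDegree_X]
        exact max_le (Nat.zero_le _) le_rfl
      calc d l * (C (x l) + X l : P2).totalDegree ≤ d l * 1 := Nat.mul_le_mul_left _ h5
        _ = d l := mul_one _
    · exact le_totalDegree hd
  rw [← h1]
  exact (le_totalDegree (mem_support_iff.mpr h2)).trans h3

/-! ### interpolation -/

/-- the ideal of the polynomials which vanish to order `s` at `x` -/
noncomputable def idV (x : Fin 2 → ℂ) (s : ℕ) : Ideal P2 where
  carrier := {f | Vq x f s}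
  add_mem' := fun hf hg => hf.add hg
  zero_mem' := Vq.zero x s
  smul_mem' := fun g _ hf => hf.mul_left g

theorem vq_X_sub (x : Fin 2 → ℂ) (l : Fin 2) : Vq x (X l - C (x l)) 1 := by
  intro β hβ
  have h0 : β = 0 := by
    have h1 : β.degree = 0 := by omega
    rwa [Finsupp.degree_eq_zero_iff] at h1
  rw [map_sub, sh_X, sh_C, add_sub_cancel_left, h0, coeff_zero_X]

theorem isCoprime_idV {x y : Fin 2 → ℂ} (h : x ≠ y) (s t : ℕ) :
    IsCoprime (idV x s) (idV y t) := by
  obtain ⟨l, hl⟩ := Function.ne_iff.mp h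
  have h1 : IsCoprime (X l - C (x l) : P2) (X l - C (y l)) := by
    refine ⟨C ((y l - x l)⁻¹), -C ((y l - x l)⁻¹), ?_⟩
    have h2 : (C ((y l - x l)⁻¹) * (X l - C (x l)) + -C ((y l - x l)⁻¹) * (X l - C (y l)) : P2) =
        C ((y l - x l)⁻¹ * (y l - x l)) := by
      rw [C_mul, C_sub]
      ring
    rw [h2, inv_mul_cancel₀ (sub_ne_zero.mpr hl.symm), C_1]
  obtain ⟨a, b, hab⟩ := h1.pow (m := s) (n := t)
  rw [Ideal.isCoprime_iff_exists]
  refine ⟨a * (X l - C (x l)) ^ s, ?_, b * (X l - C (y l)) ^ t, ?_, hab⟩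
  · have h3 := (vq_X_sub x l).pow s
    rw [mul_one] at h3
    exact h3.mul_left a
  · have h3 := (vq_X_sub y l).pow t
    rw [mul_one] at h3
    exact h3.mul_left b

section

variable {ι : Type} [Fintype ι] {q : ι → Fin 2 → ℂ}

/-- interpolation (Chinese remainder theorem) -/
theorem interp (hq : Function.Injective q) (s : ι → ℕ) (h : ι → P2) :
    ∃ g : P2, ∀ i, Vq (q i) (g - h i) (s i) := by
  have h1 : Pairwise (Function.onFun IsCoprime fun i => idV (q i) (s i)) := by
    intro i j hij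
    exact isCoprime_idV (fun h => hij (hq h)) _ _
  exact Ideal.exists_forall_sub_mem_ideal h1 h

/-! ### dimensions -/

/-- the coefficients of the jets of order less than `m i` at `q i` -/
noncomputable def jq (q : ι → Fin 2 → ℂ) (m : ι → ℕ) :
    P2 →ₗ[ℂ] ((i : ι) → Ex (m i) → ℂ) where
  toFun f := fun i x => coeff (ex x) (sh (q i) f)
  map_add' f g := by
    funext i x
    rw [map_add, coeff_add]
    rfl
  map_smul' c f := by
    funext i x
    rw [map_smul, coeff_smul]
    rfl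

omit [Fintype ι] in
theorem jq_apply (m : ι → ℕ) (f : P2) (i : ι) (x : Ex (m i)) :
    jq q m f i x = coeff (ex x) (sh (q i) f) := rfl

omit [Fintype ι] in
theorem mem_ker_jq {m : ι → ℕ} {f : P2} : f ∈ LinearMap.ker (jq q m) ↔
    ∀ i, Vq (q i) f (m i) := by
  rw [LinearMap.mem_ker]
  constructor
  · intro h i β hβ
    obtain ⟨x, rfl⟩ := exists_ex hβ
    exact congrFun (congrFun h i) x
  · intro h
    funext i x
    rw [jq_apply]
    exact h i _ (by rw [ex_degree]; exact x.1.2)

theorem finrank_jq (m : ι → ℕ) :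
    finrank ℂ ((i : ι) → Ex (m i) → ℂ) = ∑ i, (m i + 1).choose 2 := by
  rw [Module.finrank_pi_fintype]
  refine Finset.sum_congr rfl fun i _ => ?_
  rw [Module.finrank_fintype_fun_eq_card, card_ex]

theorem jq_surjective (hq : Function.Injective q) (m : ι → ℕ) :
    Function.Surjective (jq q m) := by
  classical
  intro v
  obtain ⟨g, hg⟩ := interp hq m
    (fun i => sh (-(q i)) (∑ x : Ex (m i), monomial (ex x) (v i x)))
  refine ⟨g, ?_⟩
  funext i x
  have h1 := hg i (ex x) (by rw [ex_degree]; exact x.1.2)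
  rw [map_sub, coeff_sub, sh_sh_neg, sub_eq_zero] at h1
  rw [jq_apply, h1, coeff_sum, Finset.sum_eq_single x]
  · rw [coeff_monomial, if_pos rfl]
  · intro y _ hy
    rw [coeff_monomial, if_neg fun h => hy (ex_injective h)]
  · intro h
    exact absurd (Finset.mem_univ _) h

/-- the coefficients of degree at most `D` -/
noncomputable def coefD (D : ℕ) : P2 →ₗ[ℂ] (Ex (D + 1) → ℂ) where
  toFun f := fun x => coeff (ex x) f
  map_add' f g := by
    funext x
    rw [coeff_add]
    rfl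
  map_smul' c f := by
    funext x
    rw [coeff_smul]
    rfl

/-- a polynomial of degree at most `D` is given by its coefficients -/
noncomputable def equivPD (D : ℕ) : PD D ≃ₗ[ℂ] (Ex (D + 1) → ℂ) :=
  LinearEquiv.ofBijective ((coefD D).domRestrict (PD D)) (by
    classical
    constructor
    · intro f g h
      apply Subtype.ext
      apply MvPolynomial.ext
      intro β
      rcases Nat.lt_or_ge β.degree (D + 1) with hβ | hβ
      · obtain ⟨x, rfl⟩ := exists_ex hβ
        exact congrFun h x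
      · have h1 : f.1.totalDegree ≤ D := f.2
        have h2 : g.1.totalDegree ≤ D := g.2
        rw [coeff_eq_zero_of_totalDegree_lt, coeff_eq_zero_of_totalDegree_lt]
        · exact lt_of_lt_of_le (Nat.lt_succ_of_le h2) hβ
        · exact lt_of_lt_of_le (Nat.lt_succ_of_le h1) hβ
    · intro v
      refine ⟨⟨∑ x : Ex (D + 1), monomial (ex x) (v x), ?_⟩, ?_⟩
      · refine totalDegree_finsetSum_le fun x _ => ?_
        refine (totalDegree_monomial_le _ _).trans ?_
        have h1 : (ex x).degree = x.1 := ex_degree x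
        have h2 := x.1.2
        have h3 : ((ex x).sum fun _ => id) = (ex x).degree := rfl
        rw [h3, h1]
        exact Nat.lt_succ_iff.mp h2
      · funext x
        show coeff (ex x) (∑ x : Ex (D + 1), monomial (ex x) (v x)) = v x
        rw [coeff_sum, Finset.sum_eq_single x]
        · rw [coeff_monomial, if_pos rfl]
        · intro y _ hy
          rw [coeff_monomial, if_neg fun h => hy (ex_injective h)]
        · intro h
          exact absurd (Finset.mem_univ _) h)

instance (D : ℕ) : Module.Finite ℂ (PD D) :=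
  Module.Finite.equiv (equivPD D).symm

omit [Fintype ι] in
theorem VD_le (D : ℕ) (q : ι → Fin 2 → ℂ) (m : ι → ℕ) : VD D q m ≤ PD D := fun _ hf => hf.1

omit [Fintype ι] in
instance (D : ℕ) (m : ι → ℕ) : Module.Finite ℂ (VD D q m) :=
  Submodule.finiteDimensional_of_le (VD_le D q m)

theorem finrank_PD (D : ℕ) : finrank ℂ (PD D) = (D + 2).choose 2 := by
  rw [LinearEquiv.finrank_eq (equivPD D), Module.finrank_fintype_fun_eq_card, card_ex]

omit [Fintype ι] in
theorem PD_inf_ker (D : ℕ) (m : ι → ℕ) : PD D ⊓ LinearMap.ker (jq q m) = VD D q m := by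
  ext f
  rw [Submodule.mem_inf, mem_ker_jq]
  exact Iff.rfl

omit [Fintype ι] in
theorem finrank_PD_eq (q : ι → Fin 2 → ℂ) (D : ℕ) (m : ι → ℕ) :
    (D + 2).choose 2 = finrank ℂ (VD D q m) + finrank ℂ ↥((PD D).map (jq q m)) := by
  rw [← finrank_PD, finrank_eq_ker_add_map (jq q m) (PD D), PD_inf_ker]

theorem VD_count (q : ι → Fin 2 → ℂ) (D : ℕ) (m : ι → ℕ) :
    (D + 2).choose 2 ≤ finrank ℂ (VD D q m) + ∑ i, (m i + 1).choose 2 := by
  rw [finrank_PD_eq q D m]
  have h := Submodule.finrank_le ((PD D).map (jq q m))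
  rw [finrank_jq] at h
  omega

/-- a finite dimensional quotient is reached by polynomials of bounded degree -/
theorem exists_PD_map {T : Type} [AddCommGroup T] [Module ℂ T] [Module.Finite ℂ T]
    (φ : P2 →ₗ[ℂ] T) (hφ : Function.Surjective φ) : ∃ D₀, ∀ D, D₀ ≤ D → (PD D).map φ = ⊤ := by
  classical
  let b := Module.finBasis ℂ T
  choose g hg using fun i => hφ (b i)
  refine ⟨Finset.univ.sup fun i => (g i).totalDegree, fun D hD => ?_⟩
  rw [eq_top_iff, ← b.span_eq, Submodule.span_le]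
  rintro _ ⟨i, rfl⟩
  refine ⟨g i, ?_, hg i⟩
  exact le_trans (Finset.le_sup (f := fun i => (g i).totalDegree) (Finset.mem_univ i)) hD

theorem jq_large (hq : Function.Injective q) (m : ι → ℕ) : ∃ D₀, ∀ D, D₀ ≤ D →
    (PD D).map (jq q m) = ⊤ := exists_PD_map _ (jq_surjective hq m)

/-- the space of the relations -/
noncomputable def RelSub (D : ℕ) (q : ι → Fin 2 → ℂ) (m : ι → ℕ) : Submodule ℂ (P2 →ₗ[ℂ] ℂ) where
  carrier := {τ | IsRel D q m τ}
  add_mem' := fun {a b} ha hb => ⟨fun f hf => by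
    rw [LinearMap.add_apply, ha.1 f hf, hb.1 f hf, add_zero], fun f hf => by
    rw [LinearMap.add_apply, ha.2 f hf, hb.2 f hf, add_zero]⟩
  zero_mem' := ⟨fun _ _ => rfl, fun _ _ => rfl⟩
  smul_mem' := fun c a ha => ⟨fun f hf => by
    rw [LinearMap.smul_apply, ha.1 f hf, smul_zero], fun f hf => by
    rw [LinearMap.smul_apply, ha.2 f hf, smul_zero]⟩

/-- the space of the polynomials of degree less than `D` -/
noncomputable def PL (D : ℕ) : Submodule ℂ P2 where
  carrier := {f | f = 0 ∨ f.totalDegree < D}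
  add_mem' := by
    rintro f g (rfl | hf) (rfl | hg)
    · left; rw [add_zero]
    · right; rwa [zero_add]
    · right; rwa [add_zero]
    · right
      exact lt_of_le_of_lt (totalDegree_add f g) (max_lt hf hg)
  zero_mem' := Or.inl rfl
  smul_mem' := by
    rintro c f (rfl | hf)
    · left; rw [smul_zero]
    · right
      exact lt_of_le_of_lt (totalDegree_smul_le c f) hf

omit [Fintype ι] in
theorem isRel_iff {D : ℕ} {m : ι → ℕ} {τ : P2 →ₗ[ℂ] ℂ} : IsRel D q m τ ↔
    (∀ f ∈ PL D, τ f = 0) ∧ LinearMap.ker (jq q m) ≤ LinearMap.ker τ := by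
  constructor
  · rintro ⟨h1, h2⟩
    refine ⟨?_, fun f hf => h2 f (mem_ker_jq.mp hf)⟩
    rintro f (rfl | hf)
    · exact map_zero _
    · exact h1 f hf
  · rintro ⟨h1, h2⟩
    exact ⟨fun f hf => h1 f (Or.inr hf), fun f hf => h2 (mem_ker_jq.mpr hf)⟩

/-- the relations are the functionals on the jets which kill the polynomials of small degree -/
noncomputable def relEquiv (hq : Function.Injective q) (D : ℕ) (m : ι → ℕ) :
    ((PL D).map (jq q m)).dualAnnihilator ≃ₗ[ℂ] RelSub D q m :=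
  LinearEquiv.ofBijective
    (LinearMap.codRestrict (RelSub D q m)
      ((jq q m).dualMap ∘ₗ ((PL D).map (jq q m)).dualAnnihilator.subtype) (by
        rintro ⟨φ, hφ⟩
        rw [Submodule.mem_dualAnnihilator] at hφ
        refine isRel_iff.mpr ⟨fun f hf => hφ _ ⟨f, hf, rfl⟩, fun f hf => ?_⟩
        rw [LinearMap.mem_ker] at hf ⊢
        show φ (jq q m f) = 0
        rw [hf, map_zero])) (by
    constructor
    · rintro ⟨φ, hφ⟩ ⟨ψ, hψ⟩ h
      apply Subtype.ext
      apply LinearMap.ext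
      intro v
      obtain ⟨f, rfl⟩ := jq_surjective hq m v
      have h1 := congrArg (fun u : RelSub D q m => u.1 f) h
      exact h1
    · rintro ⟨τ, hτ⟩
      obtain ⟨h1, h2⟩ := isRel_iff.mp hτ
      obtain ⟨s, hs⟩ := LinearMap.exists_rightInverse_of_surjective (jq q m)
        (LinearMap.range_eq_top.mpr (jq_surjective hq m))
      have h3 : ∀ f, (τ ∘ₗ s) (jq q m f) = τ f := by
        intro f
        have h4 : s (jq q m f) - f ∈ LinearMap.ker (jq q m) := by
          rw [LinearMap.mem_ker, map_sub, sub_eq_zero]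
          exact DFunLike.congr_fun hs (jq q m f)
        have h5 := h2 h4
        rw [LinearMap.mem_ker, map_sub, sub_eq_zero] at h5
        exact h5
      refine ⟨⟨τ ∘ₗ s, ?_⟩, ?_⟩
      · rw [Submodule.mem_dualAnnihilator]
        rintro _ ⟨f, hf, rfl⟩
        rw [h3]
        exact h1 f hf
      · apply Subtype.ext
        apply LinearMap.ext
        intro f
        exact h3 f)

omit [Fintype ι] in
theorem RelSub_le (D : ℕ) (m : ι → ℕ) :
    RelSub D q m ≤ LinearMap.range (jq q m).dualMap := by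
  intro τ hτ
  rw [LinearMap.range_dualMap_eq_dualAnnihilator_ker, Submodule.mem_dualAnnihilator]
  intro f hf
  exact (isRel_iff.mp hτ).2 hf

instance (D : ℕ) (m : ι → ℕ) : Module.Finite ℂ (RelSub D q m) :=
  Submodule.finiteDimensional_of_le (RelSub_le D m)

theorem PL_succ (D : ℕ) : PL (D + 1) = PD D := by
  ext f
  constructor
  · rintro (rfl | hf)
    · exact (PD D).zero_mem
    · exact Nat.lt_succ_iff.mp hf
  · intro hf
    exact Or.inr (Nat.lt_succ_iff.mpr hf)

theorem finrank_RelSub (hq : Function.Injective q) (D : ℕ) (m : ι → ℕ) :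
    finrank ℂ (RelSub (D + 1) q m) + (D + 2).choose 2 =
      finrank ℂ (VD D q m) + ∑ i, (m i + 1).choose 2 := by
  rw [← LinearEquiv.finrank_eq (relEquiv hq (D + 1) m), PL_succ, finrank_PD_eq q D m,
    ← finrank_jq m]
  have h := Subspace.finrank_add_finrank_dualAnnihilator_eq ((PD D).map (jq q m))
  omega

end

end Pool.Agent.Work.MP_0421d9_ag.LD
end

section
/-!
Bezout's inequality with multiplicities.
-/

namespace Pool.Agent.Work.MP_0421d9_ag.LD

open MvPolynomial Module

/-- multiplication by a polynomial -/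
noncomputable def mulP (f : P2) : P2 →ₗ[ℂ] P2 := LinearMap.mulLeft ℂ f

theorem mulP_apply (f g : P2) : mulP f g = f * g := rfl

theorem mulP_injective {f : P2} (hf : f ≠ 0) : Function.Injective (mulP f) := by
  intro g h hgh
  exact mul_left_cancel₀ hf hgh

theorem finrank_mulP {f : P2} (hf : f ≠ 0) (D : ℕ) :
    finrank ℂ ↥((PD D).map (mulP f)) = (D + 2).choose 2 := by
  rw [← finrank_PD]
  exact (LinearEquiv.finrank_eq (Submodule.equivMapOfInjective _ (mulP_injective hf) (PD D))).symm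

theorem mulP_le {f : P2} {D N : ℕ} (h : f.totalDegree + D ≤ N) :
    (PD D).map (mulP f) ≤ PD N := by
  rintro _ ⟨g, hg, rfl⟩
  have hg' : g.totalDegree ≤ D := hg
  exact (totalDegree_mul f g).trans (by omega)

/-- the intersection of the multiples of two coprime polynomials -/
theorem mulP_inf {f g : P2} (hg : g ≠ 0) (h : IsRelPrime f g) {N : ℕ}
    (hN : f.totalDegree + g.totalDegree ≤ N) :
    (PD (N - f.totalDegree)).map (mulP f) ⊓ (PD (N - g.totalDegree)).map (mulP g) ≤
      (PD (N - f.totalDegree - g.totalDegree)).map (mulP (f * g)) := by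
  rintro _ ⟨⟨u, hu, rfl⟩, ⟨v, hv, huv⟩⟩
  rw [mulP_apply, mulP_apply] at huv
  have h1 : g ∣ f * u := ⟨v, huv.symm⟩
  have h2 : g ∣ u := h.symm.dvd_of_dvd_mul_left h1
  obtain ⟨w, rfl⟩ := h2
  refine ⟨w, ?_, ?_⟩
  · have hu' : (g * w).totalDegree ≤ N - f.totalDegree := hu
    show w.totalDegree ≤ _
    by_cases hw : w = 0
    · rw [hw, totalDegree_zero]
      exact Nat.zero_le _
    · rw [totalDegree_mul' hg hw] at hu'
      omega
  · show f * g * w = f * (g * w)
    ring

theorem choose_sub {N a b : ℕ} (h : a + b ≤ N) :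
    (N + 2).choose 2 + (N - a - b + 2).choose 2 =
      (N - a + 2).choose 2 + (N - b + 2).choose 2 + a * b := by
  obtain ⟨c, rfl⟩ := Nat.exists_eq_add_of_le h
  have h1 : a + b + c - a - b = c := by omega
  have h2 : a + b + c - a = b + c := by omega
  have h3 : a + b + c - b = a + c := by omega
  rw [h1, h2, h3]
  have key : ∀ n : ℕ, ((n + 2).choose 2 : ℚ) = (n + 2) * (n + 1) / 2 := by
    intro n
    rw [Nat.cast_choose_two]
    push_cast
    ring
  have h4 : (((a + b + c + 2).choose 2 + (c + 2).choose 2 : ℕ) : ℚ) =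
      (((b + c + 2).choose 2 + (a + c + 2).choose 2 + a * b : ℕ) : ℚ) := by
    push_cast [key]
    ring
  exact_mod_cast h4

theorem finrank_map_add {E F : Type} [AddCommGroup E] [Module ℂ E] [AddCommGroup F]
    [Module ℂ F] (φ : E →ₗ[ℂ] F) {V W : Submodule ℂ E} [Module.Finite ℂ V] (h : W ≤ V) :
    finrank ℂ ↥(V.map φ) + finrank ℂ W ≤ finrank ℂ ↥(W.map φ) + finrank ℂ V := by
  have hW : Module.Finite ℂ W := Submodule.finiteDimensional_of_le h
  have h1 := finrank_eq_ker_add_map φ V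
  have h2 := finrank_eq_ker_add_map φ W
  have hfin : Module.Finite ℂ ↥(V ⊓ LinearMap.ker φ) :=
    Submodule.finiteDimensional_of_le inf_le_left
  have h3 : finrank ℂ ↥(W ⊓ LinearMap.ker φ) ≤ finrank ℂ ↥(V ⊓ LinearMap.ker φ) :=
    Submodule.finrank_mono (inf_le_inf_right _ h)
  omega

section

variable {ι : Type} [Fintype ι] {q : ι → Fin 2 → ℂ}

/-- the jets of the multiples of `f` -/
theorem finrank_jq_mulP {f : P2} {s m n : ι → ℕ} (hf : ∀ i, Vq (q i) f (m i))
    (hs : ∀ i, s i ≤ m i + n i) (D : ℕ) :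
    finrank ℂ ↥(((PD D).map (mulP f)).map (jq q s)) ≤ ∑ i, (n i + 1).choose 2 := by
  rw [← Submodule.map_comp, ← finrank_jq n]
  have hle : LinearMap.ker (jq q n) ≤ LinearMap.ker (jq q s ∘ₗ mulP f) := by
    intro g hg
    rw [LinearMap.mem_ker, LinearMap.comp_apply]
    rw [mem_ker_jq] at hg
    exact LinearMap.mem_ker.mp (mem_ker_jq.mpr fun i => ((hf i).mul (hg i)).mono (hs i))
  have h1 := finrank_eq_ker_add_map (jq q s ∘ₗ mulP f) (PD D)
  have h2 := finrank_eq_ker_add_map (jq q n) (PD D)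
  have hfin : Module.Finite ℂ
      ↥(PD D ⊓ LinearMap.ker (jq q s ∘ₗ mulP f)) :=
    Submodule.finiteDimensional_of_le inf_le_left
  have h3 : finrank ℂ ↥(PD D ⊓ LinearMap.ker (jq q n)) ≤
      finrank ℂ ↥(PD D ⊓ LinearMap.ker (jq q s ∘ₗ mulP f)) :=
    Submodule.finrank_mono (inf_le_inf_left _ hle)
  have h4 := Submodule.finrank_le ((PD D).map (jq q n))
  omega

theorem bezout (hq : Function.Injective q) {f g : P2} (hf : f ≠ 0) (hg : g ≠ 0)
    (h : IsRelPrime f g) : ∑ i, mu (q i) f * mu (q i) g ≤ f.totalDegree * g.totalDegree := by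
  set a := f.totalDegree with ha
  set b := g.totalDegree with hb
  let s : ι → ℕ := fun i => mu (q i) f + mu (q i) g
  obtain ⟨D₀, hD⟩ := jq_large hq s
  set N := D₀ + (a + b) with hN
  have hmap := hD N (by omega)
  set A := (PD (N - a)).map (mulP f) with hA
  set B := (PD (N - b)).map (mulP g) with hB
  have hAN : A ≤ PD N := mulP_le (by omega)
  have hBN : B ≤ PD N := mulP_le (by omega)
  have hfA : Module.Finite ℂ A := Submodule.finiteDimensional_of_le hAN
  have hfB : Module.Finite ℂ B := Submodule.finiteDimensional_of_le hBN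
  -- the dimension of `A + B`
  have hinf : finrank ℂ ↥(A ⊓ B) ≤ (N - a - b + 2).choose 2 := by
    rw [← finrank_mulP (mul_ne_zero hf hg) (N - a - b)]
    exact Submodule.finrank_mono (mulP_inf hg h (by omega))
  have hsup := Submodule.finrank_sup_add_finrank_inf_eq A B
  rw [hA, hB, finrank_mulP hf, finrank_mulP hg, ← hA, ← hB] at hsup
  have hch := choose_sub (N := N) (a := a) (b := b) (by omega)
  -- the jets
  have h1 := finrank_map_add (jq q s) (sup_le hAN hBN)
  rw [hmap, finrank_top, finrank_jq, finrank_PD] at h1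
  have h2 : finrank ℂ ↥((A ⊔ B).map (jq q s)) ≤
      ∑ i, (mu (q i) g + 1).choose 2 + ∑ i, (mu (q i) f + 1).choose 2 := by
    rw [Submodule.map_sup]
    refine (Submodule.finrank_add_le_finrank_add_finrank _ _).trans (add_le_add ?_ ?_)
    · exact finrank_jq_mulP (fun i => vq_mu (q i) hf) (fun i => le_rfl) _
    · exact finrank_jq_mulP (fun i => vq_mu (q i) hg) (fun i => (add_comm _ _).le) _
  have h3 : ∑ i, (s i + 1).choose 2 = ∑ i, (mu (q i) g + 1).choose 2 +
      ∑ i, (mu (q i) f + 1).choose 2 + ∑ i, mu (q i) f * mu (q i) g := by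
    rw [← Finset.sum_add_distrib, ← Finset.sum_add_distrib]
    refine Finset.sum_congr rfl fun i _ => ?_
    show (mu (q i) f + mu (q i) g + 1).choose 2 = _
    have key : ∀ n : ℕ, ((n + 1).choose 2 : ℚ) = (n + 1) * n / 2 := by
      intro n
      rw [Nat.cast_choose_two]
      push_cast
      ring
    have h4 : (((mu (q i) f + mu (q i) g + 1).choose 2 : ℕ) : ℚ) =
        (((mu (q i) g + 1).choose 2 + (mu (q i) f + 1).choose 2 +
          mu (q i) f * mu (q i) g : ℕ) : ℚ) := by
      push_cast [key]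
      ring
    exact_mod_cast h4
  omega

end

end Pool.Agent.Work.MP_0421d9_ag.LD
end

section
/-!
Additive functions on the factors of a polynomial; a component with a very negative intersection
number.
-/

namespace Pool.Agent.Work.MP_0421d9_ag.LD

open MvPolynomial Module

section ZNeg

variable {ι : Type} [Fintype ι] {q : ι → Fin 2 → ℂ}

theorem totalDegree_unit {g : P2} (hg : IsUnit g) : g.totalDegree = 0 := by
  obtain ⟨h, hh⟩ := hg.exists_right_inv
  have hg0 : g ≠ 0 := hg.ne_zero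
  have hh0 : h ≠ 0 := by rintro rfl; simp at hh
  have := totalDegree_mul' hg0 hh0
  rw [hh, totalDegree_one] at this
  omega

theorem mu_one (x : Fin 2 → ℂ) : mu x 1 = 0 := by
  have := mu_mul (x := x) (one_ne_zero : (1 : P2) ≠ 0) (one_ne_zero : (1 : P2) ≠ 0)
  rw [one_mul] at this
  omega

theorem mu_unit (x : Fin 2 → ℂ) {g : P2} (hg : IsUnit g) : mu x g = 0 := by
  obtain ⟨h, hh⟩ := hg.exists_right_inv
  have hg0 : g ≠ 0 := hg.ne_zero
  have hh0 : h ≠ 0 := by rintro rfl; simp at hh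
  have := mu_mul (x := x) hg0 hh0
  rw [hh, mu_one] at this
  omega

theorem totalDegree_pos_of_irreducible {b : P2} (hb : Irreducible b) : 1 ≤ b.totalDegree := by
  by_contra h
  have h0 : b.totalDegree = 0 := by omega
  rw [totalDegree_eq_zero_iff_eq_C] at h0
  apply hb.not_isUnit
  rw [h0]
  refine IsUnit.map C ?_
  rw [isUnit_iff_ne_zero]
  intro hc
  rw [hc, C_0] at h0
  exact hb.ne_zero h0

theorem exists_irreducible_dvd {a : P2} (ha : a ≠ 0) (hu : ¬ IsUnit a) :
    ∃ b, Irreducible b ∧ b ∣ a := WfDvdMonoid.exists_irreducible_factor hu ha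

/-- a property of the nonzero divisors of `f` which holds for units and irreducible elements and
is multiplicative -/
theorem induct_factor {f : P2} (hf : f ≠ 0) {P : P2 → Prop} (hu : ∀ g, IsUnit g → P g)
    (hi : ∀ b, Irreducible b → b ∣ f → P b)
    (hm : ∀ g h, g ≠ 0 → h ≠ 0 → P g → P h → P (g * h)) : P f := by
  have key : ∀ g : P2, g ≠ 0 → g ∣ f → P g := by
    intro g
    induction g using WfDvdMonoid.induction_on_irreducible with
    | zero => intro h; exact absurd rfl h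
    | unit g hg => exact fun _ _ => hu g hg
    | mul a i ha0 hi' iha =>
      intro _ hd
      exact hm i a hi'.ne_zero ha0 (hi i hi' ((Dvd.intro _ rfl).trans hd))
        (iha ha0 ((Dvd.intro_left _ rfl).trans hd))
  exact key f hf dvd_rfl

/-- the intersection number of `(D; m)` and a curve is additive -/
theorem sum_factor_le {f : P2} (hf : f ≠ 0) {a : ℕ} {x : ι → ℕ}
    (h : ∀ b, Irreducible b → b ∣ f → ∑ i, x i * mu (q i) b ≤ a * b.totalDegree) :
    ∑ i, x i * mu (q i) f ≤ a * f.totalDegree := by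
  refine induct_factor hf (P := fun f => ∑ i, x i * mu (q i) f ≤ a * f.totalDegree) ?_ h ?_
  · intro g hg
    simp only [mu_unit _ hg, mul_zero, Finset.sum_const_zero, zero_le]
  · intro g k hg hk h1 h2
    have e : ∑ i, x i * mu (q i) (g * k) = ∑ i, x i * mu (q i) g + ∑ i, x i * mu (q i) k := by
      rw [← Finset.sum_add_distrib]
      exact Finset.sum_congr rfl fun i _ => by rw [mu_mul hg hk, mul_add]
    rw [e, totalDegree_mul' hg hk, mul_add]
    exact Nat.add_le_add h1 h2

theorem le_sum_factor {f : P2} (hf : f ≠ 0) {a : ℕ} {x : ι → ℕ}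
    (h : ∀ b, Irreducible b → b ∣ f → a * b.totalDegree ≤ ∑ i, x i * mu (q i) b) :
    a * f.totalDegree ≤ ∑ i, x i * mu (q i) f := by
  refine induct_factor hf (P := fun f => a * f.totalDegree ≤ ∑ i, x i * mu (q i) f) ?_ h ?_
  · intro g hg
    rw [totalDegree_unit hg, mul_zero]
    exact Nat.zero_le _
  · intro g k hg hk h1 h2
    have e : ∑ i, x i * mu (q i) (g * k) = ∑ i, x i * mu (q i) g + ∑ i, x i * mu (q i) k := by
      rw [← Finset.sum_add_distrib]
      exact Finset.sum_congr rfl fun i _ => by rw [mu_mul hg hk, mul_add]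
    rw [e, totalDegree_mul' hg hk, mul_add]
    exact Nat.add_le_add h1 h2

/-- `φ` is additive on products; `φ = (degree) / D` in the plane -/
theorem exists_neg {D : ℕ} {m : ι → ℕ} {f : P2} (hf : f ≠ 0) (hfV : f ∈ VD D q m)
    {φ : P2 → ℝ} (hφ : ∀ g h : P2, g ≠ 0 → h ≠ 0 → φ (g * h) = φ g + φ h)
    (hφu : ∀ g, IsUnit g → φ g = 0) (hφ0 : ∀ b, Irreducible b → b ∣ f → 0 ≤ φ b) (hφ1 : φ f ≤ 1)
    (hL : D ^ 2 < ∑ i, m i ^ 2) :
    ∃ b, Irreducible b ∧ b ∣ f ∧ D * b.totalDegree < ∑ i, m i * mu (q i) b ∧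
      φ b * ((∑ i, (m i : ℝ) ^ 2) - D ^ 2) ≤
        (∑ i, (m i : ℝ) * mu (q i) b) - D * b.totalDegree := by
  by_contra hcon
  push Not at hcon
  obtain ⟨Λ, hΛ⟩ : ∃ Λ : ℝ, Λ = (∑ i, (m i : ℝ) ^ 2) - D ^ 2 := ⟨_, rfl⟩
  rw [← hΛ] at hcon
  have hL' : (0 : ℝ) < Λ := by
    rw [hΛ, sub_pos]
    exact_mod_cast hL
  obtain ⟨Y, hY⟩ : ∃ Y : P2 → ℝ,
      ∀ g, Y g = (∑ i, (m i : ℝ) * mu (q i) g) - D * g.totalDegree := ⟨_, fun g => rfl⟩
  have hYm : ∀ g h : P2, g ≠ 0 → h ≠ 0 → Y (g * h) = Y g + Y h := by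
    intro g h hg hh
    rw [hY, hY, hY, totalDegree_mul' hg hh]
    have e : ∑ i, (m i : ℝ) * mu (q i) (g * h) =
        ∑ i, (m i : ℝ) * mu (q i) g + ∑ i, (m i : ℝ) * mu (q i) h := by
      rw [← Finset.sum_add_distrib]
      exact Finset.sum_congr rfl fun i _ => by rw [mu_mul hg hh]; push_cast; ring
    rw [e]
    push_cast
    ring
  have hYu : ∀ g, IsUnit g → Y g = 0 := by
    intro g hg
    rw [hY, totalDegree_unit hg]
    simp [mu_unit _ hg]
  have key : Y f ≤ φ f * Λ ∧ (Y f ≤ 0 ∨ Y f < φ f * Λ) := by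
    refine induct_factor hf (P := fun f => Y f ≤ φ f * Λ ∧ (Y f ≤ 0 ∨ Y f < φ f * Λ)) ?_ ?_ ?_
    · intro g hg
      rw [hYu g hg, hφu g hg, zero_mul]
      exact ⟨le_rfl, Or.inl le_rfl⟩
    · intro b hb hbf
      rcases lt_or_ge (D * b.totalDegree) (∑ i, m i * mu (q i) b) with h | h
      · have := hcon b hb hbf h
        rw [← hY b] at this
        exact ⟨this.le, Or.inr this⟩
      · have h1 : Y b ≤ 0 := by
          rw [hY, sub_nonpos]
          exact_mod_cast h
        exact ⟨h1.trans (mul_nonneg (hφ0 b hb hbf) hL'.le), Or.inl h1⟩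
    · rintro g h hg hh ⟨h1, h2⟩ ⟨h3, h4⟩
      rw [hYm g h hg hh, hφ g h hg hh, add_mul]
      refine ⟨add_le_add h1 h3, ?_⟩
      rcases h2 with h2 | h2
      · rcases h4 with h4 | h4
        · exact Or.inl (by linarith)
        · exact Or.inr (by linarith)
      · exact Or.inr (by linarith)
  have hYf : Λ ≤ Y f := by
    rw [hY, hΛ]
    have h1 : ∀ i, m i ≤ mu (q i) f := fun i => (vq_iff hf).1 (hfV.2 i)
    have h2 : f.totalDegree ≤ D := hfV.1
    have e1 : ∑ i, (m i : ℝ) ^ 2 ≤ ∑ i, (m i : ℝ) * mu (q i) f := by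
      refine Finset.sum_le_sum fun i _ => ?_
      rw [pow_two]
      exact mul_le_mul_of_nonneg_left (by exact_mod_cast h1 i) (by positivity)
    have e2 : (D : ℝ) * f.totalDegree ≤ D ^ 2 := by
      rw [pow_two]
      exact mul_le_mul_of_nonneg_left (by exact_mod_cast h2) (by positivity)
    linarith
  have h3 : φ f * Λ ≤ Λ := by nlinarith
  rcases key.2 with h | h <;> linarith

end ZNeg

end Pool.Agent.Work.MP_0421d9_ag.LD
end

section
/-!
Relations killed by an irreducible polynomial are residues.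
-/

namespace Pool.Agent.Work.MP_0421d9_ag.LD.CI

open Polynomial

/-- the change of coordinates -/
noncomputable def Ψ (s y : ℂ) : P2 →ₐ[ℂ] ℂ[X][X] :=
  MvPolynomial.aeval ![C X + C (C s) * X, C (C y) * X]

/-- its inverse -/
noncomputable def Φ (s y : ℂ) : ℂ[X][X] →ₐ[ℂ] P2 :=
  Polynomial.eval₂AlgHom (Polynomial.aeval (MvPolynomial.X 0 -
    MvPolynomial.C (s * y⁻¹) * MvPolynomial.X 1)) (MvPolynomial.C y⁻¹ * MvPolynomial.X 1)
      (fun _ => Commute.all _ _)

theorem Ψ_X0 (s y : ℂ) : Ψ s y (MvPolynomial.X 0) = C X + C (C s) * X := by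
  simp [Ψ]

theorem Ψ_X1 (s y : ℂ) : Ψ s y (MvPolynomial.X 1) = C (C y) * X := by
  simp [Ψ]

theorem Ψ_C (s y a : ℂ) : Ψ s y (MvPolynomial.C a) = C (C a) := by
  simp only [Ψ, MvPolynomial.aeval_C]
  rfl

theorem Φ_X (s y : ℂ) : Φ s y X = MvPolynomial.C y⁻¹ * MvPolynomial.X 1 := by
  simp [Φ]

theorem Φ_CX (s y : ℂ) : Φ s y (C X) = MvPolynomial.X 0 -
    MvPolynomial.C (s * y⁻¹) * MvPolynomial.X 1 := by
  simp [Φ]

theorem Φ_CC (s y a : ℂ) : Φ s y (C (C a)) = MvPolynomial.C a := by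
  simp [Φ]

theorem ΦΨ {s y : ℂ} (hy : y ≠ 0) (f : P2) : Φ s y (Ψ s y f) = f := by
  have h : (Φ s y).comp (Ψ s y) = AlgHom.id ℂ P2 := by
    apply MvPolynomial.algHom_ext
    intro i
    fin_cases i
    · change Φ s y (Ψ s y (MvPolynomial.X 0)) = MvPolynomial.X 0
      rw [Ψ_X0, map_add, map_mul, Φ_CX, Φ_CC, Φ_X, ← mul_assoc, ← MvPolynomial.C_mul]
      ring
    · change Φ s y (Ψ s y (MvPolynomial.X 1)) = MvPolynomial.X 1
      rw [Ψ_X1, map_mul, Φ_CC, Φ_X, ← mul_assoc, ← MvPolynomial.C_mul, mul_inv_cancel₀ hy,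
        MvPolynomial.C_1, one_mul]
  exact DFunLike.congr_fun h f

theorem ΨΦ {s y : ℂ} (hy : y ≠ 0) (f : ℂ[X][X]) : Ψ s y (Φ s y f) = f := by
  have h : (Ψ s y).comp (Φ s y) = AlgHom.id ℂ ℂ[X][X] := by
    apply Polynomial.algHom_ext'
    · apply Polynomial.algHom_ext
      change Ψ s y (Φ s y (C X)) = C X
      rw [Φ_CX, map_sub, map_mul, Ψ_X0, Ψ_X1, Ψ_C, ← mul_assoc, ← C_mul, ← C_mul, mul_assoc,
        inv_mul_cancel₀ hy, mul_one]
      ring
    · change Ψ s y (Φ s y X) = X
      rw [Φ_X, map_mul, Ψ_X1, Ψ_C, ← mul_assoc, ← C_mul, ← C_mul, inv_mul_cancel₀ hy, C_1, C_1,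
        one_mul]
  exact DFunLike.congr_fun h f

theorem dg_Ψ (s y : ℂ) {f : P2} {M : ℕ} (hf : f.totalDegree ≤ M) : Dg M (Ψ s y f) := by
  rw [f.as_sum, map_sum]
  refine Dg.sum _ fun β hβ => ?_
  have h1 : β 0 + β 1 ≤ M := by
    have h := MvPolynomial.le_totalDegree hβ
    rw [Finsupp.sum_fintype _ _ (fun _ => rfl), Fin.sum_univ_two] at h
    exact h.trans hf
  rw [MvPolynomial.monomial_eq, map_mul, Ψ_C, Finsupp.prod_fintype _ _ (by simp),
    Fin.prod_univ_two, map_mul, map_pow, map_pow, Ψ_X0, Ψ_X1]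
  have e0 : Dg 0 (C (C (MvPolynomial.coeff β f)) : ℂ[X][X]) := by
    have := dg_C_mul_X_pow (M := 0) (k := 0) (a := C (MvPolynomial.coeff β f)) (by simp)
    simpa using this
  have e1 : Dg 1 (C X + C (C s) * X : ℂ[X][X]) := by
    have a1 := dg_C_mul_X_pow (M := 1) (k := 0) (a := X) (by simp)
    have a2 := dg_C_mul_X_pow (M := 1) (k := 1) (a := C s) (by simp)
    rw [pow_zero, mul_one] at a1
    rw [pow_one] at a2
    exact a1.add a2
  have e2 : Dg 1 (C (C y) * X : ℂ[X][X]) := by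
    have a2 := dg_C_mul_X_pow (M := 1) (k := 1) (a := C y) (by simp)
    rwa [pow_one] at a2
  exact (e0.mul ((e1.pow (β 0)).mul (e2.pow (β 1)))).mono (by omega)

theorem td_X_pow (s y : ℂ) (i k : ℕ) : (Φ s y (mn i k)).totalDegree ≤ i + k := by
  unfold mn
  rw [map_mul, C_pow, map_pow, map_pow, Φ_X, Φ_CX]
  refine (MvPolynomial.totalDegree_mul _ _).trans (add_le_add ?_ ?_)
  · refine (MvPolynomial.totalDegree_pow _ _).trans ?_
    refine (Nat.mul_le_mul_left i (?_ : _ ≤ 1)).trans (by rw [mul_one])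
    refine (MvPolynomial.totalDegree_sub _ _).trans (max_le ?_ ?_)
    · rw [MvPolynomial.totalDegree_X]
    · refine (MvPolynomial.totalDegree_mul _ _).trans ?_
      rw [MvPolynomial.totalDegree_C, MvPolynomial.totalDegree_X]
  · refine (MvPolynomial.totalDegree_pow _ _).trans ?_
    refine (Nat.mul_le_mul_left k (?_ : _ ≤ 1)).trans (by rw [mul_one])
    refine (MvPolynomial.totalDegree_mul _ _).trans ?_
    rw [MvPolynomial.totalDegree_C, MvPolynomial.totalDegree_X]

/-- the expansion in monomials -/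
theorem sum_mn (f : ℂ[X][X]) : f = ∑ k ∈ f.support, ∑ i ∈ (f.coeff k).support,
    ((f.coeff k).coeff i) • mn i k := by
  conv_lhs => rw [f.as_sum_support_C_mul_X_pow]
  refine Finset.sum_congr rfl fun k _ => ?_
  conv_lhs => rw [(f.coeff k).as_sum_support_C_mul_X_pow]
  rw [map_sum, Finset.sum_mul]
  refine Finset.sum_congr rfl fun i _ => ?_
  rw [C_mul, mul_assoc]
  refine ext2 fun a l => ?_
  rw [coeff_C_mul, coeff_C_mul, coeff_smul, coeff_smul, smul_eq_mul]
  rfl

theorem td_Φ (s y : ℂ) {f : ℂ[X][X]} {M : ℕ} (hf : Dg M f) : (Φ s y f).totalDegree ≤ M := by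
  rw [sum_mn f, map_sum]
  refine MvPolynomial.totalDegree_finsetSum_le fun k _ => ?_
  rw [map_sum]
  refine MvPolynomial.totalDegree_finsetSum_le fun i hi => ?_
  rw [map_smul]
  refine (MvPolynomial.totalDegree_smul_le _ _).trans ((td_X_pow s y i k).trans ?_)
  by_contra hcon
  exact (mem_support_iff.1 hi) (hf i k (by omega))

theorem coeff_Ψ (s y : ℂ) (f : P2) (n : ℕ) : ((Ψ s y f).coeff n).coeff 0 =
    MvPolynomial.eval ![s, y] (MvPolynomial.homogeneousComponent n f) := by
  classical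
  let θ : ℂ[X][X] →+* ℂ[X] := mapRingHom (evalRingHom 0)
  have hθ : ∀ F : ℂ[X][X], (F.coeff n).coeff 0 = (θ F).coeff n := by
    intro F
    change _ = (F.map (evalRingHom 0)).coeff n
    rw [coeff_map, coeff_zero_eq_eval_zero]
    rfl
  rw [hθ, MvPolynomial.homogeneousComponent_apply, map_sum, Finset.sum_filter]
  conv_lhs => rw [f.as_sum]
  rw [map_sum, map_sum, finsetSum_coeff]
  refine Finset.sum_congr rfl fun β _ => ?_
  have h1 : θ (Ψ s y (MvPolynomial.monomial β (MvPolynomial.coeff β f))) =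
      C (MvPolynomial.coeff β f * (s ^ β 0 * y ^ β 1)) * X ^ (β 0 + β 1) := by
    rw [MvPolynomial.monomial_eq, Finsupp.prod_fintype _ _ (by simp), Fin.prod_univ_two]
    have t1 : ∀ a, θ (C (C a)) = C a := fun a => by simp [θ]
    have t2 : θ (C X) = 0 := by simp [θ]
    have t3 : θ X = X := by simp [θ]
    simp only [map_mul, map_pow, map_add, Ψ_C, Ψ_X0, Ψ_X1, t1, t2, t3, zero_add]
    ring
  have h2 : β.degree = β 0 + β 1 := by
    rw [Finsupp.degree_eq_sum, Fin.sum_univ_two]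
  rw [h1, coeff_C_mul, coeff_X_pow, h2]
  by_cases h3 : β 0 + β 1 = n
  · rw [if_pos h3, if_pos h3.symm, mul_one, MvPolynomial.eval_monomial,
      Finsupp.prod_fintype _ _ (by simp), Fin.prod_univ_two]
    simp
  · rw [if_neg h3, if_neg (fun h => h3 h.symm), mul_zero]

/-- a good direction -/
theorem exists_dir {b : P2} (hb : b ≠ 0) : ∃ s y : ℂ, y ≠ 0 ∧
    ((Ψ s y b).coeff b.totalDegree).coeff 0 ≠ 0 := by
  classical
  have h1 : MvPolynomial.homogeneousComponent b.totalDegree b ≠ 0 := by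
    obtain ⟨β, hβ, h⟩ := Finset.exists_mem_eq_sup b.support
      (MvPolynomial.support_nonempty.2 hb) (fun s => s.sum fun _ e => e)
    intro h0
    have h2 := congrArg (MvPolynomial.coeff β) h0
    rw [MvPolynomial.coeff_homogeneousComponent, if_pos, MvPolynomial.coeff_zero] at h2
    · exact MvPolynomial.mem_support_iff.1 hβ h2
    · exact h.symm
  have h2 : MvPolynomial.homogeneousComponent b.totalDegree b * MvPolynomial.X 1 ≠ 0 :=
    mul_ne_zero h1 (MvPolynomial.X_ne_zero 1)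
  obtain ⟨v, hv⟩ : ∃ v : Fin 2 → ℂ, MvPolynomial.eval v
      (MvPolynomial.homogeneousComponent b.totalDegree b * MvPolynomial.X 1) ≠ 0 := by
    by_contra hcon
    push Not at hcon
    exact h2 (MvPolynomial.funext fun v => by rw [hcon v, map_zero])
  rw [map_mul, MvPolynomial.eval_X] at hv
  refine ⟨v 0, v 1, right_ne_zero_of_mul hv, ?_⟩
  rw [coeff_Ψ]
  have h3 : (![v 0, v 1] : Fin 2 → ℂ) = v := by
    ext i
    fin_cases i <;> rfl
  rw [h3]
  exact left_ne_zero_of_mul hv

variable {ι : Type} [Fintype ι] {q : ι → Fin 2 → ℂ}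

/-- `D` is the degree plus one -/
theorem ci_dual {b : P2} (hb : Irreducible b) {D : ℕ} {m : ι → ℕ}
    {τ : P2 →ₗ[ℂ] ℂ} (hτ : τ ≠ 0) (hrel : IsRel D q m τ) (hbτ : ∀ f, τ (b * f) = 0) :
    ∃ (c g : P2) (M : ℕ), M + D + 2 ≤ b.totalDegree + ∑ i, m i ∧ ¬ b ∣ c ∧ ¬ b ∣ g ∧
      ∀ F : P2, (∀ f, τ (F * f) = 0) → ∃ u v, F * g = b * u + c * v ∧
        (v = 0 ∨ v.totalDegree + ∑ i, m i ≤ F.totalDegree + M) := by
  classical
  set β := b.totalDegree with hβ
  set γ := ∑ i, m i with hγ
  -- the degrees are positive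
  have hβ1 : 1 ≤ β := by
    by_contra hcon
    have h0 : b.totalDegree = 0 := by omega
    have h1 := (MvPolynomial.totalDegree_eq_zero_iff_eq_C (p := b)).1 h0
    by_cases h2 : MvPolynomial.coeff 0 b = 0
    · exact hb.ne_zero (by rw [h1, h2, MvPolynomial.C_0])
    · apply hb.not_isUnit
      rw [h1]
      exact (IsUnit.mk0 _ h2).map MvPolynomial.C
  have hγ1 : 1 ≤ γ := by
    by_contra hcon
    have h0 : ∑ i, m i = 0 := by omega
    apply hτ
    refine LinearMap.ext fun f => ?_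
    apply hrel.2
    intro i
    have h1 : m i = 0 := (Finset.sum_eq_zero_iff.1 h0) i (Finset.mem_univ i)
    rw [h1]
    exact vq_zero' _ _
  obtain ⟨s, y, hy, hκ⟩ := exists_dir hb.ne_zero
  set κ := ((Ψ s y b).coeff β).coeff 0 with hκd
  have hdb : Dg β (Ψ s y b) := dg_Ψ s y le_rfl
  have hlead : (Ψ s y b).coeff β = C κ := by
    ext i
    rw [coeff_C]
    split_ifs with h
    · rw [h]
    · exact hdb i β (by omega)
  -- the monic polynomial
  set B : ℂ[X][X] := C (C κ⁻¹) * Ψ s y b with hB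
  have hBd : Dg β B := by
    have h0 : Dg 0 (C (C κ⁻¹) : ℂ[X][X]) := by
      have := dg_C_mul_X_pow (M := 0) (k := 0) (a := C κ⁻¹) (by simp)
      simpa using this
    exact (h0.mul hdb).mono (by omega)
  have hBc : B.coeff β = 1 := by
    rw [hB, coeff_C_mul, hlead, ← C_mul, inv_mul_cancel₀ hκ, C_1]
  have hBn : B.natDegree = β := by
    apply natDegree_eq_of_le_of_coeff_ne_zero
    · rw [natDegree_le_iff_coeff_eq_zero]
      intro k hk
      ext i
      rw [coeff_zero]
      exact hBd i k (by omega)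
    · rw [hBc]
      exact one_ne_zero
  have hBm : B.Monic := by
    rw [Monic, leadingCoeff, hBn, hBc]
  have hBb : Ψ s y b = C (C κ) * B := by
    rw [hB, ← mul_assoc, ← C_mul, ← C_mul, mul_inv_cancel₀ hκ, C_1, C_1, one_mul]
  have hΦB : Φ s y B = MvPolynomial.C κ⁻¹ * b := by
    rw [hB, map_mul, Φ_CC, ΦΨ hy]
  -- the polynomial `c`
  set c₀ : ℂ[X] := ∏ i, (X - C (q i 0 - s * y⁻¹ * q i 1)) ^ m i with hc₀
  have hcm : c₀.Monic := monic_prod_of_monic _ _ fun i _ => (monic_X_sub_C _).pow _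
  have hcn : c₀.natDegree = γ := by
    rw [hc₀, natDegree_prod_of_monic _ _ fun i _ => (monic_X_sub_C _).pow _]
    refine Finset.sum_congr rfl fun i _ => ?_
    rw [(monic_X_sub_C _).natDegree_pow, natDegree_X_sub_C, mul_one]
  have hΦc : ∀ i, Vq (q i) (Φ s y (C c₀)) (m i) := by
    intro i
    have h1 : Φ s y (C c₀) = ∏ j, (Φ s y (C (X - C (q j 0 - s * y⁻¹ * q j 1)))) ^ m j := by
      rw [hc₀, map_prod, map_prod]
      refine Finset.prod_congr rfl fun j _ => ?_
      rw [C_pow, map_pow]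
    rw [h1, ← Finset.mul_prod_erase _ _ (Finset.mem_univ i)]
    refine Vq.mul_right ?_ _
    have h2 : Vq (q i) (Φ s y (C (X - C (q i 0 - s * y⁻¹ * q i 1)))) 1 := by
      have e : Φ s y (C (X - C (q i 0 - s * y⁻¹ * q i 1))) =
          (MvPolynomial.X 0 - MvPolynomial.C (q i 0)) -
            MvPolynomial.C (s * y⁻¹) * (MvPolynomial.X 1 - MvPolynomial.C (q i 1)) := by
        rw [C_sub, map_sub, Φ_CX, Φ_CC]
        simp only [MvPolynomial.C_sub, MvPolynomial.C_mul]
        ring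
      rw [e]
      exact (vq_X_sub _ _).sub ((vq_X_sub _ _).mul_left _)
    have := h2.pow (m i)
    rwa [mul_one] at this
  -- the functional
  set τ' : ℂ[X][X] →ₗ[ℂ] ℂ := τ ∘ₗ (Φ s y).toLinearMap with hτ'
  have hτa : ∀ f, τ' f = τ (Φ s y f) := fun f => rfl
  have t1 : ∀ f, τ' (B * f) = 0 := by
    intro f
    rw [hτa, map_mul, hΦB, mul_comm (MvPolynomial.C κ⁻¹), mul_assoc]
    exact hbτ _
  have t2 : ∀ f, τ' (C c₀ * f) = 0 := by
    intro f
    rw [hτa, map_mul]
    exact hrel.2 _ fun i => (hΦc i).mul_right _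
  have t3 : ∀ i k, i + k < D → τ' (mn i k) = 0 := by
    intro i k hik
    rw [hτa]
    exact hrel.1 _ (lt_of_le_of_lt (td_X_pow s y i k) hik)
  have t4 : τ' ≠ 0 := by
    intro h
    apply hτ
    refine LinearMap.ext fun f => ?_
    rw [← ΦΨ hy f (s := s), ← hτa, h]
    rfl
  rw [← hBn] at hBd
  obtain ⟨G, hG, M, hM, hMG⟩ := rep_deg hBm hcm hBd (by omega) (by omega) τ' t1 t2 t3 t4
  refine ⟨Φ s y (C c₀), Φ s y G, M, by omega, ?_, ?_, ?_⟩
  · rintro ⟨k, hk⟩
    have h1 : B ∣ C c₀ := by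
      refine ⟨C (C κ) * Ψ s y k, ?_⟩
      have := congrArg (Ψ s y) hk
      rw [ΨΦ hy, map_mul, hBb] at this
      rw [this]
      ring
    have h2 := natDegree_le_of_dvd h1 (by rw [Ne, C_eq_zero]; exact hcm.ne_zero)
    rw [natDegree_C] at h2
    omega
  · rintro ⟨k, hk⟩
    apply t4
    refine LinearMap.ext fun f => ?_
    have := congrArg (Ψ s y) hk
    rw [ΨΦ hy, map_mul, hBb] at this
    rw [hG, this, mul_comm (C (C κ)), mul_assoc, mul_assoc, om_b hBm]
    rfl
  · intro F hF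
    have h1 : ∀ H, om B c₀ (Ψ s y F * G * H) = 0 := by
      intro H
      have e : Ψ s y F * G * H = G * (Ψ s y F * H) := by ring
      rw [e, ← hG, hτa, map_mul, ΦΨ hy]
      exact hF _
    obtain ⟨u, v, e, hv⟩ := ann hBm hcm hBd (by omega) (by omega) h1
    refine ⟨MvPolynomial.C κ⁻¹ * Φ s y u, Φ s y v, ?_, ?_⟩
    · have := congrArg (Φ s y) e
      rw [map_mul, ΦΨ hy, map_add, map_mul (Φ s y) B u, map_mul (Φ s y) (C c₀) v, hΦB] at this
      rw [this]
      ring
    · have h2 := hv _ ((dg_Ψ s y (le_refl F.totalDegree)).mul hMG)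
      by_cases hv0 : v = 0
      · left
        rw [hv0, map_zero]
      · right
        obtain ⟨i, k, hik⟩ : ∃ i k, (v.coeff k).coeff i ≠ 0 := by
          by_contra hcon
          push Not at hcon
          exact hv0 (ext2 fun i k => by rw [hcon]; simp)
        have h3 : i + k + c₀.natDegree ≤ F.totalDegree + M := by
          by_contra h4
          exact hik (h2 i k (by omega))
        have h5 : Dg (F.totalDegree + M - c₀.natDegree) v := fun a l hal => h2 a l (by omega)
        have h6 := td_Φ s y h5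
        omega

end Pool.Agent.Work.MP_0421d9_ag.LD.CI
end

section
/-!
Dimension count on an irreducible curve.
-/

namespace Pool.Agent.Work.MP_0421d9_ag.LD

open MvPolynomial Module

section

variable {ι : Type} [Fintype ι] {q : ι → Fin 2 → ℂ}

omit [Fintype ι] in
theorem vq_mul_iff {x : Fin 2 → ℂ} {b h : P2} (hb : b ≠ 0) (s : ℕ) :
    Vq x (b * h) s ↔ Vq x h (s - mu x b) := by
  by_cases hh : h = 0
  · rw [hh, mul_zero]
    exact ⟨fun _ => Vq.zero _ _, fun _ => Vq.zero _ _⟩
  · rw [vq_iff (mul_ne_zero hb hh), vq_iff hh, mu_mul hb hh]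
    omega

/-- the jets of the multiples of `b` -/
theorem finrank_range_mulP (hq : Function.Injective q) {b : P2} (hb : b ≠ 0) (s : ι → ℕ) :
    finrank ℂ ↥(LinearMap.range (jq q s ∘ₗ mulP b)) =
      ∑ i, (s i - mu (q i) b + 1).choose 2 := by
  have hker : LinearMap.ker (jq q s ∘ₗ mulP b) =
      LinearMap.ker (jq q (fun i => s i - mu (q i) b)) := by
    ext h
    rw [mem_ker_jq, LinearMap.mem_ker, LinearMap.comp_apply, ← LinearMap.mem_ker, mem_ker_jq]
    exact forall_congr' fun i => vq_mul_iff hb (s i)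
  have e1 := (jq q s ∘ₗ mulP b).quotKerEquivRange
  have e2 := (jq q (fun i => s i - mu (q i) b)).quotKerEquivOfSurjective
    (jq_surjective hq _)
  rw [← LinearEquiv.finrank_eq e1, hker, LinearEquiv.finrank_eq e2, finrank_jq]

/-- the polynomials of degree at most `N` in `(b) + I_s` -/
noncomputable def KS (q : ι → Fin 2 → ℂ) (b : P2) (s : ι → ℕ) (N : ℕ) : Submodule ℂ P2 :=
  PD N ⊓ (LinearMap.range (jq q s ∘ₗ mulP b)).comap (jq q s)

omit [Fintype ι] in
theorem mem_KS {b : P2} {s : ι → ℕ} {N : ℕ} {F : P2} : F ∈ KS q b s N ↔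
    F.totalDegree ≤ N ∧ ∃ u, ∀ i, Vq (q i) (F - b * u) (s i) := by
  rw [KS, Submodule.mem_inf]
  refine and_congr Iff.rfl ?_
  rw [Submodule.mem_comap, LinearMap.mem_range]
  refine exists_congr fun u => ?_
  rw [← mem_ker_jq, LinearMap.mem_ker, map_sub, sub_eq_zero, LinearMap.comp_apply, mulP_apply]
  exact eq_comm

omit [Fintype ι] in
instance (b : P2) (s : ι → ℕ) (N : ℕ) : Module.Finite ℂ (KS q b s N) :=
  Submodule.finiteDimensional_of_le (inf_le_left : KS q b s N ≤ PD N)

theorem finrank_KS (hq : Function.Injective q) {b : P2} (hb : b ≠ 0) (s : ι → ℕ) :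
    ∃ D₀, ∀ N, D₀ ≤ N → finrank ℂ (KS q b s N) + ∑ i, (s i + 1).choose 2 =
      (N + 2).choose 2 + ∑ i, (s i - mu (q i) b + 1).choose 2 := by
  obtain ⟨D₀, hD⟩ := jq_large hq s
  refine ⟨D₀, fun N hN => ?_⟩
  have hmap := hD N hN
  have h1 := finrank_eq_ker_add_map (jq q s) (KS q b s N)
  have h2 : KS q b s N ⊓ LinearMap.ker (jq q s) = VD N q s := by
    rw [← PD_inf_ker]
    ext f
    rw [Submodule.mem_inf, Submodule.mem_inf]
    constructor
    · exact fun h => ⟨h.1.1, h.2⟩
    · intro h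
      refine ⟨⟨h.1, ?_⟩, h.2⟩
      rw [SetLike.mem_coe, Submodule.mem_comap, LinearMap.mem_ker.mp h.2]
      exact Submodule.zero_mem _
  have h3 : (KS q b s N).map (jq q s) = LinearMap.range (jq q s ∘ₗ mulP b) := by
    apply le_antisymm
    · rintro _ ⟨f, hf, rfl⟩
      exact hf.2
    · intro v hv
      have h4 : v ∈ (PD N).map (jq q s) := by
        rw [hmap]
        trivial
      obtain ⟨f, hf, rfl⟩ := h4
      exact ⟨f, ⟨hf, hv⟩, rfl⟩
  rw [h2, h3, finrank_range_mulP hq hb] at h1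
  have h5 := finrank_PD_eq q N s
  rw [hmap, finrank_top, finrank_jq] at h5
  omega

omit [Fintype ι] in
theorem KS_inf {b : P2} (hb : b ≠ 0) (s : ι → ℕ) {N : ℕ} (hN : b.totalDegree ≤ N) :
    KS q b s N ⊓ LinearMap.ker ((Ideal.span {b}).mkQ.restrictScalars ℂ) =
      (PD (N - b.totalDegree)).map (mulP b) := by
  ext f
  rw [Submodule.mem_inf, mem_KS, LinearMap.mem_ker]
  have hk : ((Ideal.span {b}).mkQ.restrictScalars ℂ) f = 0 ↔ b ∣ f := by
    rw [← Ideal.mem_span_singleton]
    exact Submodule.Quotient.mk_eq_zero _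
  rw [hk]
  constructor
  · rintro ⟨⟨h1, -⟩, w, rfl⟩
    refine ⟨w, ?_, rfl⟩
    show w.totalDegree ≤ _
    by_cases hw : w = 0
    · rw [hw, totalDegree_zero]
      exact Nat.zero_le _
    · rw [totalDegree_mul' hb hw] at h1
      omega
  · rintro ⟨w, hw, rfl⟩
    refine ⟨⟨mulP_le (f := b) (D := N - b.totalDegree) (by omega) ⟨w, hw, rfl⟩, w, fun i => ?_⟩,
      w, rfl⟩
    rw [mulP_apply, sub_self]
    exact Vq.zero _ _

/-- the classes modulo `b` -/
theorem finrank_KS_map (hq : Function.Injective q) {b : P2} (hb : b ≠ 0) (s : ι → ℕ) :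
    ∃ D₀, ∀ N, D₀ ≤ N →
      finrank ℂ ↥((KS q b s N).map ((Ideal.span {b}).mkQ.restrictScalars ℂ)) +
        (N - b.totalDegree + 2).choose 2 + ∑ i, (s i + 1).choose 2 =
      (N + 2).choose 2 + ∑ i, (s i - mu (q i) b + 1).choose 2 := by
  obtain ⟨D₀, hD⟩ := finrank_KS hq hb s
  refine ⟨D₀ + b.totalDegree, fun N hN => ?_⟩
  have h1 := hD N (by omega)
  have h2 := finrank_eq_ker_add_map ((Ideal.span {b}).mkQ.restrictScalars ℂ) (KS q b s N)
  rw [KS_inf hb s (by omega), finrank_mulP hb] at h2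
  omega

theorem choose_diff {N β : ℕ} (h : β ≤ N) :
    2 * (N + 2).choose 2 + β ^ 2 = 2 * (N - β + 2).choose 2 + β * (2 * N + 3) := by
  obtain ⟨c, rfl⟩ := Nat.exists_eq_add_of_le h
  have h1 : β + c - β = c := by omega
  rw [h1]
  have key : ∀ n : ℕ, ((n + 2).choose 2 : ℚ) = (n + 2) * (n + 1) / 2 := by
    intro n
    rw [Nat.cast_choose_two]
    push_cast
    ring
  have h4 : ((2 * (β + c + 2).choose 2 + β ^ 2 : ℕ) : ℚ) =
      ((2 * (c + 2).choose 2 + β * (2 * (β + c) + 3) : ℕ) : ℚ) := by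
    push_cast [key]
    ring
  exact_mod_cast h4

theorem choose_mult {s b : ℕ} (h : b ≤ s) :
    2 * (s + 1).choose 2 + b ^ 2 = 2 * (s - b + 1).choose 2 + b * (2 * s + 1) := by
  obtain ⟨c, rfl⟩ := Nat.exists_eq_add_of_le h
  have h1 : b + c - b = c := by omega
  rw [h1]
  have key : ∀ n : ℕ, ((n + 1).choose 2 : ℚ) = (n + 1) * n / 2 := by
    intro n
    rw [Nat.cast_choose_two]
    push_cast
    ring
  have h4 : ((2 * (b + c + 1).choose 2 + b ^ 2 : ℕ) : ℚ) =
      ((2 * (c + 1).choose 2 + b * (2 * (b + c) + 1) : ℕ) : ℚ) := by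
    push_cast [key]
    ring
  exact_mod_cast h4

/-- If multiplication by `g / c` maps the classes modulo `b` of the polynomials of degree at most
`N + x` with multiplicities `s i` to those of degree `N + y` with multiplicities `s' i`, then
`deg b * x - ∑ mu b * s ≤ deg b * y - ∑ mu b * s'`. -/
theorem curve_count (hq : Function.Injective q) {b g c : P2} (hb : Irreducible b) (hg : ¬ b ∣ g)
    {s s' : ι → ℕ} (hs : ∀ i, mu (q i) b ≤ s i) (hs' : ∀ i, mu (q i) b ≤ s' i) {x y N₀ : ℕ}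
    (h : ∀ N, N₀ ≤ N → ∀ F : P2, F.totalDegree ≤ N + x →
      (∃ u, ∀ i, Vq (q i) (F - b * u) (s i)) → ∃ v : P2, v.totalDegree ≤ N + y ∧
        (∃ u, ∀ i, Vq (q i) (v - b * u) (s' i)) ∧ b ∣ F * g - c * v) :
    b.totalDegree * x + ∑ i, mu (q i) b * s' i ≤ b.totalDegree * y + ∑ i, mu (q i) b * s i := by
  have hb0 : b ≠ 0 := hb.ne_zero
  obtain ⟨D₁, h1⟩ := finrank_KS_map hq hb0 s
  obtain ⟨D₂, h2⟩ := finrank_KS_map hq hb0 s'
  set N := N₀ + D₁ + D₂ + b.totalDegree with hN
  have e1 := h1 (N + x) (by omega)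
  have e2 := h2 (N + y) (by omega)
  set π := (Ideal.span {b}).mkQ.restrictScalars ℂ with hπ
  have hπ0 : ∀ f, π f = 0 ↔ b ∣ f := by
    intro f
    rw [← Ideal.mem_span_singleton]
    exact Submodule.Quotient.mk_eq_zero _
  -- multiplication by a polynomial on the quotient
  have hmul : ∀ f : P2, ∃ φ : (P2 ⧸ Ideal.span {b}) →ₗ[ℂ] (P2 ⧸ Ideal.span {b}),
      ∀ u, φ (π u) = π (u * f) := by
    intro f
    refine ⟨LinearMap.mulRight ℂ (Ideal.Quotient.mk (Ideal.span {b}) f), fun u => ?_⟩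
    rfl
  obtain ⟨φg, hφg⟩ := hmul g
  obtain ⟨φc, hφc⟩ := hmul c
  have hinj : Function.Injective φg := by
    rw [← LinearMap.ker_eq_bot, eq_bot_iff]
    intro u hu
    obtain ⟨f, rfl⟩ := Submodule.mkQ_surjective _ u
    have h3 : π (f * g) = 0 := by
      rw [← hφg]
      exact hu
    rw [hπ0] at h3
    have h4 : b ∣ f := by
      rcases hb.prime.dvd_or_dvd h3 with h5 | h5
      · exact h5
      · exact absurd h5 hg
    exact (hπ0 f).mpr h4
  have hle : ((KS q b s (N + x)).map π).map φg ≤ ((KS q b s' (N + y)).map π).map φc := by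
    rintro _ ⟨_, ⟨F, hF, rfl⟩, rfl⟩
    obtain ⟨h3, h4⟩ := mem_KS.mp hF
    obtain ⟨v, h5, h6, h7⟩ := h N (by omega) F h3 h4
    refine ⟨π v, ⟨v, mem_KS.mpr ⟨h5, h6⟩, rfl⟩, ?_⟩
    rw [hφg, hφc]
    have h8 := (hπ0 _).mpr h7
    rw [map_sub, sub_eq_zero] at h8
    rw [h8, mul_comm]
  have h3 : finrank ℂ ↥((KS q b s (N + x)).map π) ≤ finrank ℂ ↥((KS q b s' (N + y)).map π) := by
    calc finrank ℂ ↥((KS q b s (N + x)).map π)
        = finrank ℂ ↥(((KS q b s (N + x)).map π).map φg) :=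
          LinearEquiv.finrank_eq (Submodule.equivMapOfInjective _ hinj _)
      _ ≤ finrank ℂ ↥(((KS q b s' (N + y)).map π).map φc) := Submodule.finrank_mono hle
      _ ≤ finrank ℂ ↥((KS q b s' (N + y)).map π) := Submodule.finrank_map_le _ _
  have e3 := choose_diff (N := N + x) (β := b.totalDegree) (by omega)
  have e4 := choose_diff (N := N + y) (β := b.totalDegree) (by omega)
  have key : ∀ t : ι → ℕ, (∀ i, mu (q i) b ≤ t i) →
      2 * ∑ i, (t i + 1).choose 2 + ∑ i, mu (q i) b ^ 2 =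
      2 * ∑ i, (t i - mu (q i) b + 1).choose 2 +
        (2 * ∑ i, mu (q i) b * t i + ∑ i, mu (q i) b) := by
    intro t ht
    rw [Finset.mul_sum, Finset.mul_sum, Finset.mul_sum, ← Finset.sum_add_distrib,
      ← Finset.sum_add_distrib, ← Finset.sum_add_distrib]
    refine Finset.sum_congr rfl fun i _ => ?_
    rw [choose_mult (ht i)]
    ring
  have e5 := key s hs
  have e6 := key s' hs'
  have e7 : b.totalDegree * (2 * (N + x) + 3) = 2 * (b.totalDegree * x) +
      b.totalDegree * (2 * N + 3) := by ring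
  have e8 : b.totalDegree * (2 * (N + y) + 3) = 2 * (b.totalDegree * y) +
      b.totalDegree * (2 * N + 3) := by ring
  rw [e7] at e3
  rw [e8] at e4
  omega

end

end Pool.Agent.Work.MP_0421d9_ag.LD
end

section
/-!
The local claim in the proof of the curve lemma.
-/

namespace Pool.Agent.Work.MP_0421d9_ag.LD

open MvPolynomial Module

/-! ### coefficients with two indices -/

/-- the coefficient of `X₀ ^ i X₁ ^ j` -/
noncomputable def cf (f : P2) (i j : ℕ) : ℂ :=
  coeff (Finsupp.single 0 i + Finsupp.single 1 j : Fin 2 →₀ ℕ) f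

theorem cf_eq (f : P2) (β : Fin 2 →₀ ℕ) : coeff β f = cf f (β 0) (β 1) := by
  unfold cf
  congr 1
  ext k
  fin_cases k
  · simp
  · simp

theorem cf_sub (f g : P2) (i j : ℕ) : cf (f - g) i j = cf f i j - cf g i j := by
  unfold cf
  rw [coeff_sub]

theorem cf_X0_succ (f : P2) (i j : ℕ) : cf (X 0 * f) (i + 1) j = cf f i j := by
  unfold cf
  have h : (Finsupp.single 0 (i + 1) + Finsupp.single 1 j : Fin 2 →₀ ℕ) =
      Finsupp.single 0 1 + (Finsupp.single 0 i + Finsupp.single 1 j) := by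
    rw [← add_assoc, ← Finsupp.single_add, add_comm 1 i]
  rw [h, coeff_X_mul]

theorem cf_X1_succ (f : P2) (i j : ℕ) : cf (X 1 * f) i (j + 1) = cf f i j := by
  unfold cf
  have h : (Finsupp.single 0 i + Finsupp.single 1 (j + 1) : Fin 2 →₀ ℕ) =
      Finsupp.single 1 1 + (Finsupp.single 0 i + Finsupp.single 1 j) := by
    rw [add_left_comm, ← Finsupp.single_add, add_comm 1 j]
  rw [h, coeff_X_mul]

theorem cf_X0_zero (f : P2) (j : ℕ) : cf (X 0 * f) 0 j = 0 := by
  classical
  unfold cf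
  rw [coeff_X_mul', if_neg]
  rw [Finsupp.mem_support_iff]
  simp

theorem cf_X1_zero (f : P2) (i : ℕ) : cf (X 1 * f) i 0 = 0 := by
  classical
  unfold cf
  rw [coeff_X_mul', if_neg]
  rw [Finsupp.mem_support_iff]
  simp

theorem van2_iff_cf {f : P2} {m : ℕ} : Van2 f m ↔ ∀ i j, i + j < m → cf f i j = 0 := by
  constructor
  · intro h i j hij
    apply h
    rw [degree_two]
    simpa using hij
  · intro h β hβ
    rw [cf_eq]
    rw [degree_two] at hβ
    exact h _ _ hβ

/-! ### the chain -/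

theorem chain_van {M B : ℕ} (w : ℕ → P2)
    (h : ∀ a, a < M → Van2 (X 0 * w a - X 1 * w (a + 1)) B) :
    ∀ a, a ≤ M → Van2 (w a) (min (B - 1) M) := by
  have up : ∀ j i a, a + j < M → i + j + 1 < B → cf (w a) i j = 0 := by
    intro j
    induction j with
    | zero =>
      intro i a h1 h2
      have h3 := van2_iff_cf.mp (h a (by omega)) (i + 1) 0 (by omega)
      rwa [cf_sub, cf_X0_succ, cf_X1_zero, sub_zero] at h3
    | succ j ih =>
      intro i a h1 h2
      have h3 := van2_iff_cf.mp (h a (by omega)) (i + 1) (j + 1) (by omega)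
      rw [cf_sub, cf_X0_succ, cf_X1_succ, ih (i + 1) (a + 1) (by omega) (by omega),
        sub_zero] at h3
      exact h3
  have down : ∀ i j a, i < a → a ≤ M → i + j + 1 < B → cf (w a) i j = 0 := by
    intro i
    induction i with
    | zero =>
      intro j a h1 h2 h3
      obtain ⟨a', rfl⟩ : ∃ a', a = a' + 1 := ⟨a - 1, by omega⟩
      have h4 := van2_iff_cf.mp (h a' (by omega)) 0 (j + 1) (by omega)
      rw [cf_sub, cf_X0_zero, cf_X1_succ, zero_sub, neg_eq_zero] at h4
      exact h4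
    | succ i ih =>
      intro j a h1 h2 h3
      obtain ⟨a', rfl⟩ : ∃ a', a = a' + 1 := ⟨a - 1, by omega⟩
      have h4 := van2_iff_cf.mp (h a' (by omega)) (i + 1) (j + 1) (by omega)
      rw [cf_sub, cf_X0_succ, cf_X1_succ, ih (j + 1) a' (by omega) (by omega) (by omega),
        zero_sub, neg_eq_zero] at h4
      exact h4
  intro a ha
  rw [van2_iff_cf]
  intro i j hij
  have h1 : i + j < B - 1 := lt_of_lt_of_le hij (min_le_left _ _)
  have h2 : i + j < M := lt_of_lt_of_le hij (min_le_right _ _)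
  rcases Nat.lt_or_ge (a + j) M with h3 | h3
  · exact up j i a h3 (by omega)
  · exact down i j a (by omega) ha (by omega)

/-! ### decomposition -/

theorem split_one {H : P2} {n : ℕ} (h : Van2 H (n + 1)) :
    ∃ P R : P2, H = X 0 * P + X 1 * R ∧ Van2 P n ∧ Van2 R n := by
  set H' := modMonomial H (Finsupp.single 0 1) with hH'
  have e1 : X 0 * divMonomial H (Finsupp.single 0 1) + H' = H :=
    divMonomial_add_modMonomial_single H 0
  have e2 : X 1 * divMonomial H' (Finsupp.single 1 1) + modMonomial H' (Finsupp.single 1 1) = H' :=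
    divMonomial_add_modMonomial_single H' 1
  have hc : ∀ β : Fin 2 →₀ ℕ, β.degree < n + 1 → coeff β H' = 0 := by
    intro β hβ
    by_cases hle : Finsupp.single 0 1 ≤ β
    · exact coeff_modMonomial_of_le _ hle
    · rw [hH', coeff_modMonomial_of_not_le _ hle]
      exact h β hβ
  have e3 : modMonomial H' (Finsupp.single 1 1) = 0 := by
    ext β
    rw [coeff_zero]
    by_cases hle : Finsupp.single 1 1 ≤ β
    · exact coeff_modMonomial_of_le _ hle
    · rw [coeff_modMonomial_of_not_le _ hle]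
      by_cases hle0 : Finsupp.single 0 1 ≤ β
      · rw [hH']
        exact coeff_modMonomial_of_le _ hle0
      · apply hc
        rw [degree_two]
        rw [Finsupp.single_le_iff] at hle hle0
        omega
  refine ⟨divMonomial H (Finsupp.single 0 1), divMonomial H' (Finsupp.single 1 1), ?_, ?_, ?_⟩
  · rw [e3, add_zero] at e2
    rw [e2, e1]
  · intro β hβ
    rw [coeff_divMonomial]
    apply h
    rw [map_add, Finsupp.degree_single]
    omega
  · intro β hβ
    rw [coeff_divMonomial]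
    apply hc
    rw [map_add, Finsupp.degree_single]
    omega

/-- the coordinate centered at `x` -/
noncomputable def xi (x : Fin 2 → ℂ) (l : Fin 2) : P2 := X l - C (x l)

theorem sh_xi (x : Fin 2 → ℂ) (l : Fin 2) : sh x (xi x l) = X l := by
  rw [xi, map_sub, sh_X, sh_C, add_sub_cancel_left]

theorem vq_xi (x : Fin 2 → ℂ) (l : Fin 2) : Vq x (xi x l) 1 := vq_X_sub x l

theorem split_xi {x : Fin 2 → ℂ} {H : P2} {n : ℕ} (h : Vq x H (n + 1)) :
    ∃ P R : P2, H = xi x 0 * P + xi x 1 * R ∧ Vq x P n ∧ Vq x R n := by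
  obtain ⟨P, R, h1, h2, h3⟩ := split_one h
  refine ⟨sh (-x) P, sh (-x) R, ?_, ?_, ?_⟩
  · apply sh_injective x
    rw [map_add, map_mul, map_mul, sh_xi, sh_xi, sh_sh_neg, sh_sh_neg, h1]
  · unfold Vq
    rw [sh_sh_neg]
    exact h2
  · unfold Vq
    rw [sh_sh_neg]
    exact h3

theorem decomp {x : Fin 2 → ℂ} (m : ℕ) : ∀ {F : P2} {n : ℕ}, Vq x F (m + n) →
    ∃ h : ℕ → P2, F = ∑ a ∈ Finset.range (m + 1), xi x 0 ^ a * xi x 1 ^ (m - a) * h a ∧
      ∀ a, Vq x (h a) n := by
  induction m with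
  | zero =>
    intro F n hF
    refine ⟨fun _ => F, ?_, fun _ => by rwa [zero_add] at hF⟩
    simp
  | succ m ih =>
    intro F n hF
    obtain ⟨h, h1, h2⟩ := ih (n := n + 1) (F := F) (by
      have e : m + (n + 1) = m + 1 + n := by ring
      rw [e]
      exact hF)
    choose P R e hP hR using fun a => split_xi (h2 a)
    refine ⟨fun a => (if a = 0 then 0 else P (a - 1)) + (if a = m + 1 then 0 else R a), ?_, ?_⟩
    · have e1 : ∑ a ∈ Finset.range (m + 1 + 1), xi x 0 ^ a * xi x 1 ^ (m + 1 - a) *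
          ((if a = 0 then 0 else P (a - 1)) + (if a = m + 1 then 0 else R a)) =
          ∑ a ∈ Finset.range (m + 1 + 1), xi x 0 ^ a * xi x 1 ^ (m + 1 - a) *
            (if a = 0 then 0 else P (a - 1)) +
          ∑ a ∈ Finset.range (m + 1 + 1), xi x 0 ^ a * xi x 1 ^ (m + 1 - a) *
            (if a = m + 1 then 0 else R a) := by
        rw [← Finset.sum_add_distrib]
        refine Finset.sum_congr rfl fun a _ => ?_
        ring
      rw [e1, Finset.sum_range_succ' _ (m + 1), Finset.sum_range_succ _ (m + 1)]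
      rw [if_pos rfl, if_pos rfl, mul_zero, mul_zero, add_zero, add_zero, h1,
        ← Finset.sum_add_distrib]
      refine Finset.sum_congr rfl fun a ha => ?_
      rw [Finset.mem_range] at ha
      rw [if_neg (Nat.succ_ne_zero a), if_neg (by omega), e a]
      have e2 : m + 1 - (a + 1) = m - a := by omega
      have e3 : m + 1 - a = m - a + 1 := by omega
      rw [e2, e3, Nat.add_sub_cancel]
      ring
    · intro a
      refine Vq.add ?_ ?_
      · split_ifs
        · exact Vq.zero _ _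
        · exact hP _
      · split_ifs
        · exact Vq.zero _ _
        · exact hR _

/-! ### the local claim -/

section

variable {ι : Type} [Fintype ι] {q : ι → Fin 2 → ℂ}

theorem local_claim_one (hq : Function.Injective q) {b c g : P2} (hb : Irreducible b)
    (hbc : ¬ b ∣ c) {m : ι → ℕ}
    (hrel : ∀ F : P2, (∀ i, Vq (q i) F (m i)) → ∃ v, b ∣ F * g - c * v) {F v : P2} (i : ι)
    (hF : Vq (q i) F (m i + mu (q i) b)) (hv : b ∣ F * g - c * v) :
    ∃ u, Vq (q i) (v - b * u) (mu (q i) b + min (mu (q i) b - 1) (m i)) := by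
  classical
  set B := mu (q i) b with hB
  set M := m i with hM
  set N := B + min (B - 1) M with hN
  -- a partition of unity
  obtain ⟨e, he⟩ := interp hq (fun j => if j = i then N else m j)
    (fun j => if j = i then 1 else 0)
  have hei : Vq (q i) (e - 1) N := by
    have h1 := he i
    rwa [if_pos rfl, if_pos rfl] at h1
  have hej : ∀ j, j ≠ i → Vq (q j) e (m j) := by
    intro j hj
    have h1 := he j
    rwa [if_neg hj, if_neg hj, sub_zero] at h1
  -- the elements `E a`
  have hE : ∀ a, a ≤ M → ∃ w, b ∣ e * xi (q i) 0 ^ a * xi (q i) 1 ^ (M - a) * g - c * w := by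
    intro a ha
    apply hrel
    intro j
    by_cases hj : j = i
    · subst hj
      have h1 := ((vq_xi (q j) 0).pow a).mul ((vq_xi (q j) 1).pow (M - a))
      have h2 := h1.mul_left e
      rw [mul_one, mul_one, ← mul_assoc] at h2
      exact h2.mono (by omega)
    · exact ((hej j hj).mul_right _).mul_right _
  choose! w hw using hE
  -- the chain
  have hchain : ∀ a, a < M → Van2 (X 0 * sh (q i) (w a) - X 1 * sh (q i) (w (a + 1))) B := by
    intro a ha
    have h1 := hw a ha.le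
    have h2 := hw (a + 1) ha
    have e1 : M - a = M - (a + 1) + 1 := by omega
    have h3 : b ∣ c * (xi (q i) 0 * w a - xi (q i) 1 * w (a + 1)) := by
      have h4 := dvd_sub (Dvd.dvd.mul_left h2 (xi (q i) 1)) (Dvd.dvd.mul_left h1 (xi (q i) 0))
      have h5 : xi (q i) 1 * (e * xi (q i) 0 ^ (a + 1) * xi (q i) 1 ^ (M - (a + 1)) * g -
          c * w (a + 1)) - xi (q i) 0 * (e * xi (q i) 0 ^ a * xi (q i) 1 ^ (M - a) * g -
          c * w a) = c * (xi (q i) 0 * w a - xi (q i) 1 * w (a + 1)) := by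
        rw [e1]
        ring
      rwa [h5] at h4
    have h6 : b ∣ xi (q i) 0 * w a - xi (q i) 1 * w (a + 1) := by
      rcases hb.prime.dvd_or_dvd h3 with h7 | h7
      · exact absurd h7 hbc
      · exact h7
    obtain ⟨z, hz⟩ := h6
    have h8 : Vq (q i) (xi (q i) 0 * w a - xi (q i) 1 * w (a + 1)) B := by
      rw [hz]
      exact (vq_mu (q i) hb.ne_zero).mul_right z
    unfold Vq at h8
    rwa [map_sub, map_mul, map_mul, sh_xi, sh_xi] at h8
  have hord : ∀ a, a ≤ M → Vq (q i) (w a) (min (B - 1) M) :=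
    chain_van (fun a => sh (q i) (w a)) hchain
  -- the decomposition of `F`
  obtain ⟨h, hFh, hh⟩ := decomp M hF
  have hS : Vq (q i) (∑ a ∈ Finset.range (M + 1), h a * w a) N := by
    have : ∀ s : Finset ℕ, (∀ a ∈ s, a ≤ M) → Vq (q i) (∑ a ∈ s, h a * w a) N := by
      intro s
      induction s using Finset.induction_on with
      | empty =>
        intro _
        rw [Finset.sum_empty]
        exact Vq.zero _ _
      | insert a s ha ih =>
        intro hs
        rw [Finset.sum_insert ha]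
        refine Vq.add ?_ (ih fun a' ha' => hs a' (Finset.mem_insert_of_mem ha'))
        exact (hh a).mul (hord a (hs a (Finset.mem_insert_self _ _)))
    exact this _ fun a ha => Nat.lt_succ_iff.mp (Finset.mem_range.mp ha)
  have hdvd : b ∣ c * (e * v - ∑ a ∈ Finset.range (M + 1), h a * w a) := by
    have h1 : b ∣ ∑ a ∈ Finset.range (M + 1),
        h a * (e * xi (q i) 0 ^ a * xi (q i) 1 ^ (M - a) * g - c * w a) := by
      refine Finset.dvd_sum fun a ha => ?_
      exact Dvd.dvd.mul_left (hw a (Nat.lt_succ_iff.mp (Finset.mem_range.mp ha))) _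
    have h2 := dvd_sub h1 (Dvd.dvd.mul_left hv e)
    have h3 : ∑ a ∈ Finset.range (M + 1),
        h a * (e * xi (q i) 0 ^ a * xi (q i) 1 ^ (M - a) * g - c * w a) =
        e * F * g - c * ∑ a ∈ Finset.range (M + 1), h a * w a := by
      conv_rhs => rw [hFh]
      rw [Finset.mul_sum, Finset.sum_mul, Finset.mul_sum, ← Finset.sum_sub_distrib]
      refine Finset.sum_congr rfl fun a _ => ?_
      ring
    rw [h3] at h2
    have h4 : e * F * g - c * ∑ a ∈ Finset.range (M + 1), h a * w a - e * (F * g - c * v) =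
        c * (e * v - ∑ a ∈ Finset.range (M + 1), h a * w a) := by ring
    rwa [h4] at h2
  have hdvd' : b ∣ e * v - ∑ a ∈ Finset.range (M + 1), h a * w a := by
    rcases hb.prime.dvd_or_dvd hdvd with h7 | h7
    · exact absurd h7 hbc
    · exact h7
  obtain ⟨u, hu⟩ := hdvd'
  refine ⟨u, ?_⟩
  have h9 : v - b * u = ∑ a ∈ Finset.range (M + 1), h a * w a - (e - 1) * v := by
    rw [← hu]
    ring
  rw [h9]
  exact hS.sub (hei.mul_right v)

theorem local_claim (hq : Function.Injective q) {b c g : P2} (hb : Irreducible b)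
    (hbc : ¬ b ∣ c) {m : ι → ℕ}
    (hrel : ∀ F : P2, (∀ i, Vq (q i) F (m i)) → ∃ v, b ∣ F * g - c * v) {F v : P2}
    (hF : ∀ i, Vq (q i) F (m i + mu (q i) b)) (hv : b ∣ F * g - c * v) :
    ∃ u, ∀ i, Vq (q i) (v - b * u) (mu (q i) b + min (mu (q i) b - 1) (m i)) := by
  choose u hu using fun i => local_claim_one hq hb hbc hrel i (hF i) hv
  obtain ⟨u', hu'⟩ := interp hq (fun i => mu (q i) b + min (mu (q i) b - 1) (m i)) u
  refine ⟨u', fun i => ?_⟩
  have h1 : v - b * u' = v - b * u i - b * (u' - u i) := by ring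
  rw [h1]
  exact (hu i).sub ((hu' i).mul_left b)

end

end Pool.Agent.Work.MP_0421d9_ag.LD
end

section
/-!
The curve lemma: relations killed by an irreducible polynomial.
-/

namespace Pool.Agent.Work.MP_0421d9_ag.LD

open MvPolynomial Module

variable {ι : Type} [Fintype ι] {q : ι → Fin 2 → ℂ}

/-- `D` is the degree plus one -/
theorem rel_curve (hq : Function.Injective q) {b : P2} (hb : Irreducible b) {D : ℕ} {m : ι → ℕ}
    {τ : P2 →ₗ[ℂ] ℂ} (hτ : τ ≠ 0) (hrel : IsRel D q m τ) (hbτ : ∀ f, τ (b * f) = 0) :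
    (D + 2 - b.totalDegree) * b.totalDegree ≤
      ∑ i, (m i + 1 - mu (q i) b) * mu (q i) b := by
  classical
  obtain ⟨c, g, M, hM, hbc, hbg, hF⟩ := CI.ci_dual hb hτ hrel hbτ
  -- polynomials with the right orders annihilate the relation
  have hann : ∀ F : P2, (∀ i, Vq (q i) F (m i)) → ∀ f, τ (F * f) = 0 := fun F h f =>
    hrel.2 _ fun i => (h i).mul_right f
  have hrel' : ∀ F : P2, (∀ i, Vq (q i) F (m i)) → ∃ v, b ∣ F * g - c * v := by
    intro F h
    obtain ⟨u, v, e, -⟩ := hF F (hann F h)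
    exact ⟨v, u, by rw [e]; ring⟩
  have hcount := curve_count hq hb hbg (c := c) (s := fun i => m i + mu (q i) b)
    (s' := fun i => mu (q i) b + min (mu (q i) b - 1) (m i)) (fun i => Nat.le_add_left _ _)
    (fun i => Nat.le_add_right _ _) (x := ∑ i, m i) (y := M) (N₀ := 0) ?_
  · -- arithmetic
    have h1 : ∑ i, mu (q i) b * (m i + mu (q i) b) =
        ∑ i, mu (q i) b * (mu (q i) b + min (mu (q i) b - 1) (m i)) +
          ∑ i, (m i + 1 - mu (q i) b) * mu (q i) b := by
      rw [← Finset.sum_add_distrib]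
      refine Finset.sum_congr rfl fun i _ => ?_
      rcases Nat.eq_zero_or_pos (mu (q i) b) with h0 | h0
      · rw [h0]
        simp
      · rcases le_total (mu (q i) b - 1) (m i) with h2 | h2
        · rw [min_eq_left h2]
          obtain ⟨t, ht⟩ : ∃ t, m i = mu (q i) b - 1 + t := ⟨_, (Nat.add_sub_cancel' h2).symm⟩
          have h3 : m i + 1 - mu (q i) b = t := by omega
          rw [h3, ht]
          ring
        · rw [min_eq_right h2]
          have h3 : m i + 1 - mu (q i) b = 0 := by omega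
          rw [h3]
          ring
    have h2 : b.totalDegree * (∑ i, m i) ≤
        b.totalDegree * M + ∑ i, (m i + 1 - mu (q i) b) * mu (q i) b := by
      rw [h1] at hcount
      omega
    rcases le_total (D + 2) b.totalDegree with h4 | h4
    · rw [Nat.sub_eq_zero_of_le h4, zero_mul]
      exact Nat.zero_le _
    · have h3 : b.totalDegree * (M + (D + 2 - b.totalDegree)) ≤ b.totalDegree * (∑ i, m i) :=
        Nat.mul_le_mul_left _ (by omega)
      rw [mul_add, mul_comm b.totalDegree (D + 2 - b.totalDegree)] at h3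
      omega
  · rintro N - F hFd ⟨w, hw⟩
    have h1 : ∀ f, τ (F * f) = 0 := by
      intro f
      have e : F * f = (F - b * w) * f + b * (w * f) := by ring
      rw [e, map_add, hbτ, add_zero]
      exact hann _ (fun i => (hw i).mono (Nat.le_add_right _ _)) f
    obtain ⟨u, v, e, hv⟩ := hF F h1
    refine ⟨v, ?_, ?_, u, by rw [e]; ring⟩
    · rcases hv with hv | hv
      · rw [hv, totalDegree_zero]
        exact Nat.zero_le _
      · omega
    · exact local_claim hq hb hbc hrel' hw ⟨u - w * g, by rw [sub_mul, e]; ring⟩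

end Pool.Agent.Work.MP_0421d9_ag.LD
end

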