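import Pool.Agent.Work.Z0421M.C22
import Pool.Agent.Work.Z0421M.C23
import Pool.Agent.Work.Z0421M.C32

section
/-!
Xu's inequality for an irreducible polynomial at movable points.
-/

namespace Pool.Agent.Work.MP_0421d9_ag.LD

open MvPolynomial Module

section ZXu

variable {ι : Type} [Fintype ι] {q : ι → Fin 2 → ℂ}

/-- a derivation and the translation to a moving point -/
theorem cD_sh (Δ : Derivation ℚ ℂ ℂ) (x : Fin 2 → ℂ) (f : P2) :
    cD Δ (sh x f) = sh x (cD Δ f) + ∑ l, C (Δ (x l)) * pderiv l (sh x f) := by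
  unfold sh
  induction f using MvPolynomial.induction_on with
  | C c =>
    rw [algHom_C, algebraMap_eq, cD_C, algHom_C, algebraMap_eq]
    simp
  | add p q hp hq =>
    simp only [map_add, hp, hq, mul_add, Finset.sum_add_distrib]
    ring
  | mul_X p n hp =>
    rw [map_mul, aeval_X, cD_mul, hp, cD_mul, cD_X, map_add, cD_C, cD_X, mul_zero, add_zero,
      add_zero, map_mul, aeval_X]
    have h1 : ∀ l, C (Δ (x l)) * pderiv l (aeval (fun l => C (x l) + X l : Fin 2 → P2) p *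
        (C (x n) + X n)) =
        (C (Δ (x l)) * pderiv l (aeval (fun l => C (x l) + X l : Fin 2 → P2) p)) *
          (C (x n) + X n) +
        aeval (fun l => C (x l) + X l : Fin 2 → P2) p * (C (Δ (x l)) * pderiv l (X n)) := by
      intro l
      rw [pderiv_mul, map_add, pderiv_C, zero_add]
      ring
    rw [Finset.sum_congr rfl fun l _ => h1 l, Finset.sum_add_distrib, ← Finset.sum_mul,
      ← Finset.mul_sum]
    have h2 : ∑ l, C (Δ (x l)) * pderiv l (X n : P2) = C (Δ (x n)) := by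
      rw [Finset.sum_eq_single n]
      · rw [pderiv_X_self, mul_one]
      · intro b _ hb
        rw [pderiv_X_of_ne hb.symm, mul_zero]
      · simp
    rw [h2]
    ring

theorem coeff_sh_cD (Δ : Derivation ℚ ℂ ℂ) (x : Fin 2 → ℂ) (f : P2) (β : Fin 2 →₀ ℕ) :
    coeff β (sh x (cD Δ f)) = Δ (coeff β (sh x f)) -
      ∑ l, Δ (x l) * (coeff (β + Finsupp.single l 1) (sh x f) * (β l + 1)) := by
  have h := congrArg (coeff β) (cD_sh Δ x f)
  rw [coeff_cD, coeff_add, coeff_sum] at h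
  rw [h]
  simp only [coeff_C_mul, coeff_pderiv]
  ring

theorem Vq.cD_fix {Δ : Derivation ℚ ℂ ℂ} {x : Fin 2 → ℂ} {f : P2} {m : ℕ}
    (hx : ∀ l, Δ (x l) = 0) (h : Vq x f m) : Vq x (cD Δ f) m := by
  intro β hβ
  rw [coeff_sh_cD, h β hβ, map_zero]
  simp [hx]

theorem Vq.cD_move {Δ : Derivation ℚ ℂ ℂ} {x : Fin 2 → ℂ} {f : P2} {m : ℕ}
    (h : Vq x f m) : Vq x (cD Δ f) (m - 1) := by
  intro β hβ
  rw [coeff_sh_cD, h β (by omega), map_zero, zero_sub, neg_eq_zero]
  refine Finset.sum_eq_zero fun l _ => ?_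
  rw [h (β + Finsupp.single l 1) (by rw [map_add, Finsupp.degree_single]; omega), zero_mul,
    mul_zero]

theorem totalDegree_cD_le (Δ : Derivation ℚ ℂ ℂ) (f : P2) :
    (cD Δ f).totalDegree ≤ f.totalDegree := by
  unfold totalDegree
  apply Finset.sup_mono
  intro β hβ
  rw [MvPolynomial.mem_support_iff] at hβ ⊢
  intro h
  apply hβ
  rw [coeff_cD, h, map_zero]

theorem exists_mu_coeff {x : Fin 2 → ℂ} {f : P2} (hf : 1 ≤ mu x f) :
    ∃ β : Fin 2 →₀ ℕ, β.degree = mu x f ∧ coeff β (sh x f) ≠ 0 := by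
  unfold mu at hf ⊢
  exact Nat.sInf_mem (Nat.nonempty_of_pos_sInf hf)

theorem Vq.C_mul {x : Fin 2 → ℂ} {f : P2} {m : ℕ} (h : Vq x f m) (c : ℂ) :
    Vq x (C c * f) m := by
  intro β hβ
  have e1 : sh x (C c * f) = C c * sh x f := by
    unfold sh
    rw [map_mul, algHom_C, algebraMap_eq]
  rw [e1, coeff_C_mul, h β hβ, mul_zero]

theorem xu (hq : Function.Injective q) (hm : Movable q) {f : P2} (hf : Irreducible f) {i : ι}
    (hi : 1 ≤ mu (q i) f) : ∑ j, mu (q j) f ^ 2 ≤ f.totalDegree ^ 2 + mu (q i) f := by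
  classical
  -- normalisation
  obtain ⟨α, hα⟩ := ne_zero_iff.mp hf.ne_zero
  obtain ⟨c, hc⟩ : ∃ c, c = (coeff α f)⁻¹ := ⟨_, rfl⟩
  have hc0 : c ≠ 0 := by rw [hc]; exact inv_ne_zero hα
  obtain ⟨f₁, hf₁⟩ : ∃ f₁, f₁ = C c * f := ⟨_, rfl⟩
  have hα1 : coeff α f₁ = 1 := by rw [hf₁, coeff_C_mul, hc, inv_mul_cancel₀ hα]
  have hdvd : f₁ ∣ f := ⟨C c⁻¹, by
    rw [hf₁, mul_comm (C c * f), ← mul_assoc, ← C_mul, inv_mul_cancel₀ hc0, C_1, one_mul]⟩
  have hf₁0 : f₁ ≠ 0 := by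
    intro h
    rw [h, coeff_zero] at hα1
    exact one_ne_zero hα1.symm
  have hdeg : f₁.totalDegree ≤ f.totalDegree := by
    rw [hf₁, C_mul']
    exact totalDegree_smul_le _ _
  have hV : ∀ j, Vq (q j) f₁ (mu (q j) f) := by
    intro j
    rw [hf₁]
    exact Vq.C_mul ((vq_iff hf.ne_zero).mpr le_rfl) c
  -- the derivation
  obtain ⟨β, hβ, hβ0⟩ := exists_mu_coeff hi
  obtain ⟨l, hl⟩ : ∃ l, 1 ≤ β l := by
    by_contra hcon
    push Not at hcon
    have h0 : β = 0 := by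
      ext l
      have := hcon l
      rw [Finsupp.coe_zero, Pi.zero_apply]
      omega
    rw [h0, map_zero] at hβ
    omega
  obtain ⟨Δ, hΔ1, hΔ2⟩ := hm i (Pi.single l 1)
  obtain ⟨g, hg⟩ : ∃ g, g = cD Δ f₁ := ⟨_, rfl⟩
  have hg0 : g ≠ 0 := by
    intro h0
    obtain ⟨γ, hγ⟩ : ∃ γ, γ = β - Finsupp.single l 1 := ⟨_, rfl⟩
    have hγβ : γ + Finsupp.single l 1 = β := by
      rw [hγ]
      exact tsub_add_cancel_of_le (Finsupp.single_le_iff.mpr hl)
    have h1 := coeff_sh_cD Δ (q i) f₁ γ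
    rw [← hg, h0] at h1
    have h2 : coeff γ (sh (q i) f₁) = 0 := by
      refine hV i γ ?_
      have h3 := congrArg Finsupp.degree hγβ
      rw [map_add, Finsupp.degree_single] at h3
      omega
    rw [h2, map_zero, map_zero, coeff_zero, zero_sub, eq_comm, neg_eq_zero,
      Finset.sum_eq_single l] at h1
    · rw [hΔ2 l, Pi.single_eq_same, one_mul, hγβ] at h1
      have h4 : coeff β (sh (q i) f₁) = c * coeff β (sh (q i) f) := by
        rw [hf₁]
        unfold sh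
        rw [map_mul, algHom_C, algebraMap_eq, coeff_C_mul]
      rw [h4] at h1
      have h5 : ((γ l : ℂ) + 1) ≠ 0 := by exact_mod_cast Nat.succ_ne_zero (γ l)
      exact (mul_ne_zero (mul_ne_zero hc0 hβ0) h5) h1
    · intro b _ hb
      rw [hΔ2 b, Pi.single_eq_of_ne hb, zero_mul]
    · simp
  have hgα : coeff α g = 0 := by
    rw [hg, coeff_cD, hα1]
    simp
  have hgdeg : g.totalDegree ≤ f.totalDegree := by
    rw [hg]
    exact (totalDegree_cD_le Δ f₁).trans hdeg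
  have hndvd : ¬ f ∣ g := by
    intro h
    obtain ⟨u, hu⟩ := hdvd.trans h
    have hu0 : u ≠ 0 := by
      rintro rfl
      rw [mul_zero] at hu
      exact hg0 hu
    have h1 : g.totalDegree = f₁.totalDegree + u.totalDegree := by
      rw [hu]
      exact totalDegree_mul' hf₁0 hu0
    have h2 : g.totalDegree ≤ f₁.totalDegree := by
      rw [hg]
      exact totalDegree_cD_le Δ f₁
    have h3 : u.totalDegree = 0 := by omega
    obtain ⟨a, ha⟩ : ∃ a, u = C a := ⟨coeff 0 u, totalDegree_eq_zero_iff_eq_C.mp h3⟩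
    rw [ha, mul_comm] at hu
    rw [hu, coeff_C_mul, hα1, mul_one] at hgα
    rw [hgα, C_0, zero_mul] at hu
    exact hg0 hu
  have hrel : IsRelPrime f g := by
    rw [hf.isRelPrime_iff_not_dvd]
    exact hndvd
  have hbez := bezout hq hf.ne_zero hg0 hrel
  -- the multiplicities of `g`
  have hmu : ∀ j, j ≠ i → mu (q j) f ≤ mu (q j) g := by
    intro j hj
    rw [← vq_iff hg0, hg]
    exact Vq.cD_fix (hΔ1 j hj) (hV j)
  have hmui : mu (q i) f - 1 ≤ mu (q i) g := by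
    rw [← vq_iff hg0, hg]
    exact Vq.cD_move (hV i)
  have h1 : ∑ j, mu (q j) f ^ 2 ≤ ∑ j, mu (q j) f * mu (q j) g + mu (q i) f := by
    rw [← Finset.add_sum_erase _ _ (Finset.mem_univ i),
      ← Finset.add_sum_erase (f := fun j => mu (q j) f * mu (q j) g) _ (Finset.mem_univ i)]
    have h2 : ∑ j ∈ Finset.univ.erase i, mu (q j) f ^ 2 ≤
        ∑ j ∈ Finset.univ.erase i, mu (q j) f * mu (q j) g := by
      refine Finset.sum_le_sum fun j hj => ?_
      rw [pow_two]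
      exact Nat.mul_le_mul_left _ (hmu j (Finset.ne_of_mem_erase hj))
    have h3 : mu (q i) f ^ 2 ≤ mu (q i) f * mu (q i) g + mu (q i) f := by
      obtain ⟨n, hn⟩ : ∃ n, mu (q i) f = n + 1 := ⟨mu (q i) f - 1, by omega⟩
      rw [hn] at hmui ⊢
      have h4 : n ≤ mu (q i) g := by omega
      nlinarith
    omega
  have h2 : f.totalDegree * g.totalDegree ≤ f.totalDegree ^ 2 := by
    rw [pow_two]
    exact Nat.mul_le_mul_left _ hgdeg
  omega

end ZXu

end Pool.Agent.Work.MP_0421d9_ag.LD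
end

section
/-!
Vanishing: relations and pairs of curves.
-/

namespace Pool.Agent.Work.MP_0421d9_ag.LD

open MvPolynomial Module

section ZPos

variable {ι : Type} [Fintype ι] {q : ι → Fin 2 → ℂ}

/-- the statement of the curve lemma `rel_curve` for the points `q` -/
def RelCurve (q : ι → Fin 2 → ℂ) : Prop :=
  ∀ {b : P2}, Irreducible b → ∀ {D : ℕ} {m : ι → ℕ} {τ : P2 →ₗ[ℂ] ℂ}, τ ≠ 0 → IsRel D q m τ →
    (∀ f, τ (b * f) = 0) → (D + 2 - b.totalDegree) * b.totalDegree ≤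
      ∑ i, (m i + 1 - mu (q i) b) * mu (q i) b

/-- the functional `f ↦ τ (a f)` -/
noncomputable def mulT (a : P2) (τ : P2 →ₗ[ℂ] ℂ) : P2 →ₗ[ℂ] ℂ := τ ∘ₗ LinearMap.mulLeft ℂ a

@[simp] theorem mulT_apply (a : P2) (τ : P2 →ₗ[ℂ] ℂ) (f : P2) : mulT a τ f = τ (a * f) := rfl

omit [Fintype ι] in
theorem mulT_isRel {D : ℕ} {m : ι → ℕ} {τ : P2 →ₗ[ℂ] ℂ} (hrel : IsRel D q m τ) {a : P2}
    {D' : ℕ} {m' : ι → ℕ} (hd : ∀ f : P2, f.totalDegree < D' → (a * f).totalDegree < D)
    (hv : ∀ i, ∀ f : P2, Vq (q i) f (m' i) → Vq (q i) (a * f) (m i)) :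
    IsRel D' q m' (mulT a τ) :=
  ⟨fun f hf => hrel.1 _ (hd f hf), fun f hf => hrel.2 _ fun i => hv i f (hf i)⟩

/-- a divisor of minimal degree which kills the relation -/
theorem exists_min_factor {τ : P2 →ₗ[ℂ] ℂ} {a : P2} (ha : a ≠ 0)
    (haτ : ∀ f, τ (a * f) = 0) : ∃ a₁, a₁ ∣ a ∧ (∀ f, τ (a₁ * f) = 0) ∧
      ∀ b a₂, Irreducible b → a₁ = b * a₂ → ∃ f, τ (a₂ * f) ≠ 0 := by
  classical
  have hex : ∃ n, ∃ a₁ : P2, a₁ ∣ a ∧ (∀ f, τ (a₁ * f) = 0) ∧ a₁.totalDegree = n :=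
    ⟨_, a, dvd_rfl, haτ, rfl⟩
  obtain ⟨a₁, h1, h2, h3⟩ := Nat.find_spec hex
  refine ⟨a₁, h1, h2, fun b a₂ hb he => ?_⟩
  by_contra hcon
  push Not at hcon
  have ha₂d : a₂ ∣ a := (Dvd.intro_left b he.symm).trans h1
  have ha₂ : a₂ ≠ 0 := fun h => ha (by rw [h] at ha₂d; exact zero_dvd_iff.1 ha₂d)
  have hmin := Nat.find_min' hex ⟨a₂, ha₂d, hcon, rfl⟩
  have hdeg : a₁.totalDegree = b.totalDegree + a₂.totalDegree := by
    rw [he]; exact totalDegree_mul' hb.ne_zero ha₂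
  have := totalDegree_pos_of_irreducible hb
  omega

theorem pos_side_of (hRC : RelCurve q) (hq : Function.Injective q) {D : ℕ} {m : ι → ℕ}
    {τ : P2 →ₗ[ℂ] ℂ} (hτ : τ ≠ 0)
    (hrel : IsRel (D + 1) q m τ) {a : P2} (ha : a ≠ 0) (haτ : ∀ f, τ (a * f) = 0) {α : ℕ}
    {A : ι → ℕ} (hα : a.totalDegree ≤ α) (hA : ∀ i, Vq (q i) a (A i)) {g : P2} (hg : g ≠ 0)
    (hgd : g.totalDegree + α ≤ D + 2) (hgA : ∀ i, Vq (q i) g (m i + 1 - A i)) :
    ∃ b, Irreducible b ∧ b ∣ a ∧
      (D + 3) * b.totalDegree < ∑ i, (m i + 1) * mu (q i) b := by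
  by_contra hcon
  push Not at hcon
  obtain ⟨a₁, ⟨a₃, ha₃⟩, ha₁τ, hmin⟩ := exists_min_factor ha haτ
  have ha₁ : a₁ ≠ 0 := by rintro rfl; exact ha (by rw [ha₃, zero_mul])
  have ha₃0 : a₃ ≠ 0 := by rintro rfl; exact ha (by rw [ha₃, mul_zero])
  have hdega : a.totalDegree = a₁.totalDegree + a₃.totalDegree := by
    rw [ha₃]; exact totalDegree_mul' ha₁ ha₃0
  have hmua : ∀ i, mu (q i) a = mu (q i) a₁ + mu (q i) a₃ := fun i => by
    rw [ha₃]; exact mu_mul ha₁ ha₃0
  -- `a₁` is not a unit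
  have hnu : ¬ IsUnit a₁ := by
    intro hu
    apply hτ
    refine LinearMap.ext fun f => ?_
    obtain ⟨v, hv⟩ := hu.exists_right_inv
    have := ha₁τ (v * f)
    rw [← mul_assoc, hv, one_mul] at this
    simpa using this
  have hα₁ : 1 ≤ a₁.totalDegree := by
    obtain ⟨b, hb, hbd⟩ := exists_irreducible_dvd ha₁ hnu
    obtain ⟨c, hc⟩ := hbd
    have hc0 : c ≠ 0 := by rintro rfl; exact ha₁ (by rw [hc, mul_zero])
    have := totalDegree_pos_of_irreducible hb
    rw [hc, totalDegree_mul' hb.ne_zero hc0]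
    omega
  have hα₁' : a₁.totalDegree ≤ D + 2 := by omega
  -- the inequality for the factors of `a₁`
  have hstar : ∀ b, Irreducible b → b ∣ a₁ → (D + 3 - a₁.totalDegree) * b.totalDegree ≤
      ∑ i, (m i + 1 - mu (q i) a₁) * mu (q i) b := by
    rintro b hb ⟨a₂, ha₂⟩
    have ha₂0 : a₂ ≠ 0 := by rintro rfl; exact ha₁ (by rw [ha₂, mul_zero])
    have hdb := totalDegree_pos_of_irreducible hb
    have hd : a₁.totalDegree = b.totalDegree + a₂.totalDegree := by
      rw [ha₂]; exact totalDegree_mul' hb.ne_zero ha₂0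
    have hm : ∀ i, mu (q i) a₁ = mu (q i) b + mu (q i) a₂ := fun i => by
      rw [ha₂]; exact mu_mul hb.ne_zero ha₂0
    obtain ⟨f₀, hf₀⟩ := hmin b a₂ hb ha₂
    have hne : mulT a₂ τ ≠ 0 := fun h => hf₀ (by
      have := LinearMap.congr_fun h f₀
      simpa using this)
    have hr : IsRel (D + 1 - a₂.totalDegree) q (fun i => m i - mu (q i) a₂) (mulT a₂ τ) := by
      refine mulT_isRel hrel ?_ ?_
      · intro f hf
        have := totalDegree_mul a₂ f
        omega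
      · intro i f hf
        exact ((vq_mu (q i) ha₂0).mul hf).mono (by omega)
    have hk : ∀ f, mulT a₂ τ (b * f) = 0 := by
      intro f
      rw [mulT_apply, ← mul_assoc, mul_comm a₂ b, ← ha₂]
      exact ha₁τ f
    have h := hRC hb hne hr hk
    have e1 : D + 1 - a₂.totalDegree + 2 - b.totalDegree = D + 3 - a₁.totalDegree := by omega
    rw [e1] at h
    refine h.trans (Finset.sum_le_sum fun i _ => ?_)
    have hmi := hm i
    rcases le_or_gt (mu (q i) a₂) (m i) with h1 | h1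
    · exact Nat.mul_le_mul_right _ (by omega)
    · rcases Nat.eq_zero_or_pos (mu (q i) b) with h2 | h2
      · rw [h2]; simp
      · have : m i - mu (q i) a₂ + 1 - mu (q i) b = 0 := by omega
        rw [this, zero_mul]
        exact Nat.zero_le _
  -- sum over the factors of `a₁`
  have hsum1 : (D + 3 - a₁.totalDegree) * a₁.totalDegree ≤
      ∑ i, (m i + 1 - mu (q i) a₁) * mu (q i) a₁ := le_sum_factor ha₁ hstar
  -- the curve `g a₃`
  have hG : g * a₃ ≠ 0 := mul_ne_zero hg ha₃0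
  have hGd : (g * a₃).totalDegree ≤ D + 2 - a₁.totalDegree := by
    rw [totalDegree_mul' hg ha₃0]
    omega
  have hGm : ∀ i, m i + 1 - mu (q i) a₁ ≤ mu (q i) (g * a₃) := by
    intro i
    have h1 := (vq_iff hg).1 (hgA i)
    have h2 := (vq_iff ha).1 (hA i)
    rw [mu_mul hg ha₃0]
    have := hmua i
    omega
  have hfac : ∀ C, Irreducible C → C ∣ g * a₃ →
      ∑ i, min (mu (q i) a₁) (m i + 1) * mu (q i) C ≤ a₁.totalDegree * C.totalDegree := by
    intro C hC _
    by_cases hCa : C ∣ a₁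
    · have h1 := hstar C hC hCa
      have h2 := hcon C hC (hCa.trans (Dvd.intro _ ha₃.symm))
      have e1 : ∑ i, min (mu (q i) a₁) (m i + 1) * mu (q i) C +
          ∑ i, (m i + 1 - mu (q i) a₁) * mu (q i) C = ∑ i, (m i + 1) * mu (q i) C := by
        rw [← Finset.sum_add_distrib]
        refine Finset.sum_congr rfl fun i _ => ?_
        rw [← add_mul]
        congr 1
        omega
      have e2 : (D + 3 - a₁.totalDegree) * C.totalDegree + a₁.totalDegree * C.totalDegree =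
          (D + 3) * C.totalDegree := by
        rw [← add_mul]
        congr 1
        omega
      omega
    · have hrp : IsRelPrime C a₁ := hC.isRelPrime_iff_not_dvd.2 hCa
      have := bezout hq hC.ne_zero ha₁ hrp
      rw [mul_comm a₁.totalDegree]
      refine le_trans (Finset.sum_le_sum fun i _ => ?_) this
      rw [mul_comm]
      exact Nat.mul_le_mul_left _ (min_le_left _ _)
  have hsum2 : ∑ i, min (mu (q i) a₁) (m i + 1) * mu (q i) (g * a₃) ≤
      a₁.totalDegree * (g * a₃).totalDegree := sum_factor_le hG hfac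
  have hcomp : ∑ i, (m i + 1 - mu (q i) a₁) * mu (q i) a₁ ≤
      ∑ i, min (mu (q i) a₁) (m i + 1) * mu (q i) (g * a₃) := by
    refine Finset.sum_le_sum fun i _ => ?_
    rcases le_or_gt (mu (q i) a₁) (m i + 1) with h1 | h1
    · rw [min_eq_left h1, mul_comm]
      exact Nat.mul_le_mul_left _ (hGm i)
    · rw [Nat.sub_eq_zero_of_le h1.le, zero_mul]
      exact Nat.zero_le _
  have hlast : a₁.totalDegree * (g * a₃).totalDegree ≤
      a₁.totalDegree * (D + 2 - a₁.totalDegree) := Nat.mul_le_mul_left _ hGd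
  have hfin : (D + 3 - a₁.totalDegree) * a₁.totalDegree ≤
      a₁.totalDegree * (D + 2 - a₁.totalDegree) := hsum1.trans (hcomp.trans (hsum2.trans hlast))
  have e3 : D + 3 - a₁.totalDegree = D + 2 - a₁.totalDegree + 1 := by omega
  rw [e3, add_mul, one_mul, mul_comm] at hfin
  omega

/-- multiplication by a polynomial of a linear system maps to the relations of the residual
system -/
noncomputable def relMap {D α α' : ℕ} {m A A' : ι → ℕ} (hα : α + α' = D)
    (hA : ∀ i, A i + A' i = m i) {τ : P2 →ₗ[ℂ] ℂ} (hrel : IsRel (D + 1) q m τ) :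
    VD α q A →ₗ[ℂ] RelSub (α' + 1) q A' where
  toFun a := ⟨mulT a.1 τ, mulT_isRel hrel
    (fun f hf => by
      have h1 := totalDegree_mul a.1 f
      have h2 : a.1.totalDegree ≤ α := a.2.1
      omega)
    (fun i f hf => by
      rw [← hA i]
      exact (a.2.2 i).mul hf)⟩
  map_add' a b := by
    apply Subtype.ext
    refine LinearMap.ext fun f => ?_
    change τ ((a.1 + b.1) * f) = τ (a.1 * f) + τ (b.1 * f)
    rw [add_mul, map_add]
  map_smul' c a := by
    apply Subtype.ext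
    refine LinearMap.ext fun f => ?_
    change τ ((c • a.1) * f) = c * τ (a.1 * f)
    rw [smul_mul_assoc, map_smul, smul_eq_mul]

theorem no_rel_half (hRC : RelCurve q) (hq : Function.Injective q) {D α α' : ℕ}
    {m A A' : ι → ℕ} (hα : α + α' = D)
    (hA : ∀ i, A i + A' i = m i) {τ : P2 →ₗ[ℂ] ℂ} (hτ : τ ≠ 0) (hrel : IsRel (D + 1) q m τ)
    (h3 : ∑ i, (A' i + 2).choose 2 < (α' + 4).choose 2)
    (hnef : ∀ b, Irreducible b → ∑ i, (m i + 1) * mu (q i) b ≤ (D + 3) * b.totalDegree) :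
    finrank ℂ (VD α q A) ≤ finrank ℂ (RelSub (α' + 1) q A') := by
  refine LinearMap.finrank_le_finrank_of_injective (f := relMap hα hA hrel) ?_
  rw [← LinearMap.ker_eq_bot, LinearMap.ker_eq_bot']
  rintro ⟨a, ha⟩ h0
  by_contra hne
  have ha0 : a ≠ 0 := fun h => hne (Subtype.ext h)
  have haτ : ∀ f, τ (a * f) = 0 := fun f => by
    have h1 := congrArg Subtype.val h0
    exact LinearMap.congr_fun h1 f
  -- a curve `g`
  have hc := VD_count q (α' + 2) (fun i => A' i + 1)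
  have hpos : 0 < finrank ℂ (VD (α' + 2) q (fun i => A' i + 1)) := by
    have e1 : α' + 2 + 2 = α' + 4 := rfl
    have e2 : ∑ i, (A' i + 1 + 1).choose 2 = ∑ i, (A' i + 2).choose 2 := rfl
    rw [e1, e2] at hc
    omega
  have := Module.finrank_pos_iff.1 hpos
  obtain ⟨⟨g, hg⟩, hg0⟩ := exists_ne (0 : VD (α' + 2) q (fun i => A' i + 1))
  have hg0' : g ≠ 0 := fun h => hg0 (Subtype.ext h)
  have hgd : g.totalDegree ≤ α' + 2 := hg.1
  have hgv : ∀ i, Vq (q i) g (m i + 1 - A i) := fun i => by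
    have h1 : Vq (q i) g (A' i + 1) := hg.2 i
    have h2 := hA i
    exact h1.mono (by omega)
  obtain ⟨b, hb, -, hlt⟩ := pos_side_of hRC hq hτ hrel ha0 haτ ha.1 ha.2 hg0' (by omega) hgv
  exact absurd (hnef b hb) (not_le.2 hlt)

theorem no_rel_of (hRC : RelCurve q) (hq : Function.Injective q) {D α α' : ℕ} {m A A' : ι → ℕ}
    (hα : α + α' = D)
    (hA : ∀ i, A i + A' i = m i)
    (h1 : ∑ i, (A i + 1).choose 2 + ∑ i, (A' i + 1).choose 2 <
      (α + 2).choose 2 + (α' + 2).choose 2)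
    (h2 : ∑ i, (A i + 2).choose 2 < (α + 4).choose 2)
    (h3 : ∑ i, (A' i + 2).choose 2 < (α' + 4).choose 2)
    (hnef : ∀ b, Irreducible b → ∑ i, (m i + 1) * mu (q i) b ≤ (D + 3) * b.totalDegree) :
    finrank ℂ (VD D q m) + ∑ i, (m i + 1).choose 2 = (D + 2).choose 2 := by
  have hD := finrank_RelSub hq D m
  rcases Nat.eq_zero_or_pos (finrank ℂ (RelSub (D + 1) q m)) with h0 | h0
  · omega
  exfalso
  have := Module.finrank_pos_iff.1 h0
  obtain ⟨⟨τ, hrel⟩, hτ0⟩ := exists_ne (0 : RelSub (D + 1) q m)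
  have hτ : τ ≠ 0 := fun h => hτ0 (Subtype.ext h)
  have a1 := no_rel_half hRC hq hα hA hτ hrel h3 hnef
  have a2 := no_rel_half hRC hq (by omega : α' + α = D)
    (fun i => by have := hA i; omega : ∀ i, A' i + A i = m i) hτ hrel h2 hnef
  have b1 := finrank_RelSub hq α A
  have b2 := finrank_RelSub hq α' A'
  omega

theorem zpos_choose_two (n : ℕ) : 2 * (n + 1).choose 2 = n * (n + 1) := by
  rw [Nat.choose_two_right, Nat.add_sub_cancel, mul_comm (n + 1) n]
  exact Nat.mul_div_cancel' (Nat.even_mul_succ_self n).two_dvd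

theorem regular_of_nef_of (hRC : RelCurve q) (hq : Function.Injective q) {D : ℕ} {m : ι → ℕ}
    (hm : ∀ i, 1 ≤ m i)
    (h : ∑ i, m i ^ 2 + 23 * ∑ i, m i ≤ D ^ 2)
    (hnef : ∀ b, Irreducible b → ∑ i, (m i + 1) * mu (q i) b ≤ (D + 3) * b.totalDegree) :
    finrank ℂ (VD D q m) + ∑ i, (m i + 1).choose 2 = (D + 2).choose 2 := by
  obtain ⟨α, hα⟩ : ∃ α, α = D / 2 := ⟨_, rfl⟩
  obtain ⟨α', hα'⟩ : ∃ α', α' = D - D / 2 := ⟨_, rfl⟩
  obtain ⟨A, hA⟩ : ∃ A : ι → ℕ, ∀ i, A i = m i / 2 := ⟨fun i => m i / 2, fun i => rfl⟩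
  obtain ⟨A', hA'⟩ : ∃ A' : ι → ℕ, ∀ i, A' i = m i - m i / 2 :=
    ⟨fun i => m i - m i / 2, fun i => rfl⟩
  have hs1 : ∑ i, m i ≤ ∑ i, m i ^ 2 :=
    Finset.sum_le_sum fun i _ => Nat.le_self_pow (n := 2) two_ne_zero (m i)
  have hs0 : ∑ _i : ι, 1 ≤ ∑ i, m i := Finset.sum_le_sum fun i _ => hm i
  -- the three inequalities
  have e1 : 4 * ∑ i, (A i + 1).choose 2 + 4 * ∑ i, (A' i + 1).choose 2 ≤
      ∑ i, m i ^ 2 + 2 * ∑ i, m i + ∑ _i : ι, 1 := by
    rw [Finset.mul_sum, Finset.mul_sum, Finset.mul_sum, ← Finset.sum_add_distrib,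
      ← Finset.sum_add_distrib, ← Finset.sum_add_distrib]
    refine Finset.sum_le_sum fun i _ => ?_
    have t1 := zpos_choose_two (A i)
    have t2 := zpos_choose_two (A' i)
    have t3 : m i = A i + A' i := by rw [hA, hA']; omega
    have t4 : A i ≤ A' i := by rw [hA, hA']; omega
    have t5 : A' i ≤ A i + 1 := by rw [hA, hA']; omega
    rw [t3]
    nlinarith
  have e2 : 8 * ∑ i, (A i + 2).choose 2 ≤ ∑ i, m i ^ 2 + 8 * ∑ i, m i + 15 * ∑ _i : ι, 1 := by
    rw [Finset.mul_sum, Finset.mul_sum, Finset.mul_sum, ← Finset.sum_add_distrib,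
      ← Finset.sum_add_distrib]
    refine Finset.sum_le_sum fun i _ => ?_
    have t1 := zpos_choose_two (A i + 1)
    have t3 : 2 * A i ≤ m i := by rw [hA]; omega
    have t6 : A i + 1 + 1 = A i + 2 := rfl
    rw [t6] at t1
    nlinarith
  have e3 : 8 * ∑ i, (A' i + 2).choose 2 ≤ ∑ i, m i ^ 2 + 8 * ∑ i, m i + 15 * ∑ _i : ι, 1 := by
    rw [Finset.mul_sum, Finset.mul_sum, Finset.mul_sum, ← Finset.sum_add_distrib,
      ← Finset.sum_add_distrib]
    refine Finset.sum_le_sum fun i _ => ?_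
    have t1 := zpos_choose_two (A' i + 1)
    have t3 : 2 * A' i ≤ m i + 1 := by rw [hA']; omega
    have t6 : A' i + 1 + 1 = A' i + 2 := rfl
    rw [t6] at t1
    nlinarith
  have d1 : 2 * (D ^ 2 + 6 * D + 8) ≤ 8 * (α + 2).choose 2 + 8 * (α' + 2).choose 2 := by
    have t1 := zpos_choose_two (α + 1)
    have t2 := zpos_choose_two (α' + 1)
    have t3 : D = α + α' := by rw [hα, hα']; omega
    have t6 : α + 1 + 1 = α + 2 := rfl
    have t7 : α' + 1 + 1 = α' + 2 := rfl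
    rw [t6] at t1
    rw [t7] at t2
    rw [t3]
    have t8 : α ≤ α' := by rw [hα, hα']; omega
    obtain ⟨k, hk⟩ := Nat.exists_eq_add_of_le t8
    subst hk
    nlinarith
  have d2 : D ^ 2 + 12 * D + 35 ≤ 8 * (α + 4).choose 2 := by
    have t1 := zpos_choose_two (α + 3)
    have t3 : D ≤ 2 * α + 1 := by rw [hα]; omega
    have t6 : α + 3 + 1 = α + 4 := rfl
    rw [t6] at t1
    nlinarith
  have d3 : D ^ 2 + 12 * D + 35 ≤ 8 * (α' + 4).choose 2 := by
    have t1 := zpos_choose_two (α' + 3)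
    have t3 : D ≤ 2 * α' := by rw [hα']; omega
    have t6 : α' + 3 + 1 = α' + 4 := rfl
    rw [t6] at t1
    nlinarith
  have g1 : α + α' = D := by rw [hα, hα']; omega
  have g2 : ∀ i, A i + A' i = m i := fun i => by rw [hA, hA']; omega
  exact no_rel_of hRC hq g1 g2 (by omega) (by omega) (by omega) hnef

theorem relCurve (hq : Function.Injective q) : RelCurve q :=
  fun hb _ _ _ hτ hrel hbτ => rel_curve hq hb hτ hrel hbτ

theorem regular_of_nef (hq : Function.Injective q) {D : ℕ} {m : ι → ℕ} (hm : ∀ i, 1 ≤ m i)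
    (h : ∑ i, m i ^ 2 + 23 * ∑ i, m i ≤ D ^ 2)
    (hnef : ∀ b, Irreducible b → ∑ i, (m i + 1) * mu (q i) b ≤ (D + 3) * b.totalDegree) :
    finrank ℂ (VD D q m) + ∑ i, (m i + 1).choose 2 = (D + 2).choose 2 :=
  regular_of_nef_of (relCurve hq) hq hm h hnef

end ZPos

end Pool.Agent.Work.MP_0421d9_ag.LD
end

section
/-!
The windows for the plane.
-/

namespace Pool.Agent.Work.MP_0421d9_ag.LD

open MvPolynomial Module

/-! ### preparations -/

/-- index theorem, Cauchy-Schwarz -/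
theorem index_plane {ι : Type} [Fintype ι] {k c : ι → ℕ} {D e : ℕ}
    (hy : D * e < ∑ i, k i * c i)
    (hcase : (∑ i, k i ^ 2 ≤ D ^ 2) ∨
      (e : ℤ) * (∑ i, (k i : ℤ) ^ 2 - D ^ 2) ≤ D * (∑ i, (k i : ℤ) * c i - D * e)) :
    e ^ 2 < ∑ i, c i ^ 2 := by
  by_contra hcon
  have hN : (∑ i, (c i : ℤ) ^ 2) ≤ (e : ℤ) ^ 2 := by
    have : ∑ i, c i ^ 2 ≤ e ^ 2 := not_lt.1 hcon
    exact_mod_cast this
  have hCS := Finset.sum_mul_sq_le_sq_mul_sq Finset.univ (fun i => (k i : ℤ)) (fun i => (c i : ℤ))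
  have hyz : (D : ℤ) * e < ∑ i, (k i : ℤ) * c i := by exact_mod_cast hy
  have hM0 : 0 ≤ ∑ i, (k i : ℤ) ^ 2 := Finset.sum_nonneg fun i _ => sq_nonneg _
  have hN0 : 0 ≤ ∑ i, (c i : ℤ) ^ 2 := Finset.sum_nonneg fun i _ => sq_nonneg _
  have hc : (∑ i, (k i : ℤ) ^ 2 ≤ D ^ 2) ∨
      (e : ℤ) * (∑ i, (k i : ℤ) ^ 2 - D ^ 2) ≤ D * (∑ i, (k i : ℤ) * c i - D * e) := by
    rcases hcase with h | h
    · exact Or.inl (by exact_mod_cast h)
    · exact Or.inr h
  generalize (∑ i, (k i : ℤ) ^ 2) = M at *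
  generalize (∑ i, (c i : ℤ) ^ 2) = N at *
  generalize (∑ i, (k i : ℤ) * c i) = P at *
  have hD : (0 : ℤ) ≤ D := by positivity
  have he : (0 : ℤ) ≤ e := by positivity
  generalize (D : ℤ) = d at *
  generalize (e : ℤ) = ε at *
  have hde : 0 ≤ d * ε := mul_nonneg hD he
  have h1 : M * N ≤ M * ε ^ 2 := mul_le_mul_of_nonneg_left hN hM0
  rcases hc with h | h
  · have h2 : M * ε ^ 2 ≤ d ^ 2 * ε ^ 2 := mul_le_mul_of_nonneg_right h (sq_nonneg _)
    nlinarith
  · have h2 : ε * (ε * (M - d ^ 2)) ≤ ε * (d * (P - d * ε)) := mul_le_mul_of_nonneg_left h he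
    have hy' : 0 < P - d * ε := by linarith
    nlinarith [mul_nonneg hde hy'.le, mul_pos hy' hy']

theorem sum_ne {ι : Type} [Fintype ι] (m F : ι → ℕ) (hF : ∀ i, m i = 0 → F i = 0) :
    ∑ i : {i // m i ≠ 0}, F i = ∑ i, F i := by
  classical
  rw [← Finset.sum_subtype (Finset.univ.filter fun i => m i ≠ 0) (by simp) F]
  apply Finset.sum_subset (Finset.filter_subset _ _)
  intro i _ hi
  apply hF
  simpa using hi

theorem VD_sub {ι : Type} (D : ℕ) (q : ι → Fin 2 → ℂ) (m : ι → ℕ) :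
    VD D (fun i : {i // m i ≠ 0} => q i) (fun i => m i) = VD D q m := by
  ext f
  constructor
  · rintro ⟨h1, h2⟩
    refine ⟨h1, fun i => ?_⟩
    by_cases h : m i = 0
    · rw [h]
      exact vq_zero' _ _
    · exact h2 ⟨i, h⟩
  · rintro ⟨h1, h2⟩
    exact ⟨h1, fun i => h2 i⟩

theorem deg_pos {b : P2} (hb : Irreducible b) : 1 ≤ b.totalDegree := by
  by_contra h
  have h0 : b.totalDegree = 0 := by omega
  rw [totalDegree_eq_zero_iff_eq_C] at h0
  apply hb.not_isUnit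
  rw [h0]
  apply IsUnit.map
  apply IsUnit.mk0
  intro h1
  rw [h1, map_zero] at h0
  exact hb.ne_zero h0

theorem choose_lt_sum {ι : Type} [Fintype ι] {c : ι → ℕ} {e : ℕ}
    (h : ∑ i, (c i + 1).choose 2 < (e + 2).choose 2) :
    ∑ i, c i ^ 2 + ∑ i, c i < e ^ 2 + 3 * e + 2 := by
  have h1 : ∀ n : ℕ, 2 * (n + 1).choose 2 = n ^ 2 + n := by
    intro n
    have := Nat.triangle_succ n
    rw [Nat.choose_two_right]
    simp only [Nat.add_sub_cancel]
    have h2 : 2 ∣ (n + 1) * n := (Nat.even_mul_pred_self (n + 1)).two_dvd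
    rw [Nat.mul_div_cancel' h2]
    ring
  have h2 : 2 * ∑ i, (c i + 1).choose 2 = ∑ i, c i ^ 2 + ∑ i, c i := by
    rw [Finset.mul_sum, ← Finset.sum_add_distrib]
    exact Finset.sum_congr rfl fun i _ => h1 (c i)
  have h3 := h1 (e + 1)
  have h4 : (e + 1) ^ 2 + (e + 1) = e ^ 2 + 3 * e + 2 := by ring
  have h5 : e + 1 + 1 = e + 2 := rfl
  rw [h5] at h3
  omega

/-- if the system is generic, the curve `b` is an element of its system -/
theorem one_le_hPm {r : ℕ} {b : P2} (hb : b ≠ 0) {D : ℕ} {m : Fin r → ℕ}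
    (hd : b.totalDegree ≤ D) (hm : ∀ i, Vq (aff (gpt r) i) b (m i)) : 1 ≤ hPm D m := by
  unfold hPm
  rw [finrank_aff (gpt_generic r)]
  have h1 : (⟨b, hd, hm⟩ : VD D (aff (gpt r)) m) ≠ 0 := by
    intro h
    exact hb (congrArg Subtype.val h)
  have : Nontrivial (VD D (aff (gpt r)) m) := ⟨⟨_, _, h1⟩⟩
  exact Nat.one_le_iff_ne_zero.2 (Module.finrank_pos).ne'

theorem exists_of_hPm {r : ℕ} {D : ℕ} {m : Fin r → ℕ} (h : hPm D m ≠ 0) :
    ∃ f : P2, f ≠ 0 ∧ f ∈ VD D (aff (gpt r)) m := by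
  unfold hPm at h
  rw [finrank_aff (gpt_generic r)] at h
  have hp : 0 < finrank ℂ (VD D (aff (gpt r)) m) := Nat.pos_of_ne_zero h
  have : Nontrivial (VD D (aff (gpt r)) m) := Module.finrank_pos_iff.1 hp
  obtain ⟨f, hf⟩ := exists_ne (0 : VD D (aff (gpt r)) m)
  exact ⟨f, fun h => hf (Subtype.ext h), f.2⟩

theorem sum_sq_le {ι : Type} [Fintype ι] {c : ι → ℕ} {M : ℕ} (h : ∀ i, c i ≤ M) :
    ∑ i, c i ^ 2 ≤ M * ∑ i, c i := by
  rw [Finset.mul_sum]
  apply Finset.sum_le_sum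
  intro i _
  rw [pow_two]
  exact Nat.mul_le_mul_right _ (h i)

/-! ### the core -/

theorem plane_core {T ρ r : ℕ} (h : FP T ρ) (hρ : 4 ≤ ρ) {b : P2} (hb : Irreducible b)
    {D K : ℕ} {k : Fin r → ℕ} (hK : 1 ≤ K) (hk : ∀ i, k i ≤ K) (hD : 3 * ρ * K ≤ D)
    (hy : D * b.totalDegree < ∑ i, k i * mu (aff (gpt r) i) b)
    (hcase : (∑ i, k i ^ 2 ≤ D ^ 2) ∨
      (b.totalDegree : ℤ) * (∑ i, (k i : ℤ) ^ 2 - D ^ 2) ≤
        D * (∑ i, (k i : ℤ) * mu (aff (gpt r) i) b - D * b.totalDegree)) :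
    ((T : ℤ) + 1) * |∑ i, (k i : ℤ) ^ 2 - D ^ 2| ≤ 6 * K ^ 2 := by
  have hgen := gpt_generic r
  set e := b.totalDegree with he
  set c : Fin r → ℕ := fun i => mu (aff (gpt r) i) b with hc
  have he1 : 1 ≤ e := deg_pos hb
  have h12 : 12 * K ≤ D := by nlinarith
  obtain ⟨h1, h2⟩ := num_plane (k := k) (c := c) hK hk h12 he1
    (fun i hi => xu (aff_injective hgen) (aff_movable hgen) hb hi) hy hcase
  have hidx : e ^ 2 < ∑ i, c i ^ 2 := index_plane (k := k) (c := c) hy hcase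
  by_cases hT : ∀ i, c i ≤ T
  · exfalso
    set cm := Finset.univ.sup c with hcm
    have hle : ∀ i, c i ≤ cm := fun i => Finset.le_sup (Finset.mem_univ i)
    have hcmT : cm ≤ T := Finset.sup_le fun i _ => hT i
    have hcm1 : 1 ≤ cm := by
      by_contra h0
      have h0' : cm = 0 := by omega
      have h3 : ∑ i, c i ^ 2 = 0 := by
        apply Finset.sum_eq_zero
        intro i _
        have := hle i
        have h4 : c i = 0 := by omega
        rw [h4]
        rfl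
      omega
    have hex : ∃ i, c i = cm := by
      have hne : (Finset.univ : Finset (Fin r)).Nonempty := by
        by_contra hemp
        rw [Finset.not_nonempty_iff_eq_empty] at hemp
        rw [hemp] at hcm
        simp at hcm
        omega
      obtain ⟨i, -, hi⟩ := Finset.exists_mem_eq_sup _ hne c
      exact ⟨i, hi.symm⟩
    obtain ⟨i0, hi0⟩ := hex
    have hρe : ρ * cm ≤ e := by
      have h3 := h1 i0
      rw [hi0] at h3
      have h4 : 3 * ρ * K * cm ≤ 3 * K * e := (Nat.mul_le_mul_right _ hD).trans h3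
      have h5 : (3 * K) * (ρ * cm) ≤ (3 * K) * e := by nlinarith
      exact Nat.le_of_mul_le_mul_left h5 (by omega)
    have h3 := h r cm e c hcm1 hcmT hle hρe
    have h4 : 1 ≤ hPm e c := one_le_hPm hb.ne_zero le_rfl (fun i => vq_mu _ hb.ne_zero)
    have h5 : ∑ i, (c i + 1).choose 2 < (e + 2).choose 2 := by omega
    have h6 := choose_lt_sum h5
    have h7 := sum_sq_le hle
    have h8 : 4 * e < ∑ i, c i := by
      have h9 : cm * (4 * e) < cm * ∑ i, c i := by nlinarith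
      exact Nat.lt_of_mul_lt_mul_left h9
    omega
  · push Not at hT
    obtain ⟨i0, hi0⟩ := hT
    have h3 := h1 i0
    have h4 : D * (T + 1) ≤ 3 * K * e := (Nat.mul_le_mul_left _ hi0).trans h3
    have h5 : (D : ℤ) * (T + 1) ≤ 3 * K * e := by exact_mod_cast h4
    have hDpos : (0 : ℤ) < D := by
      have : 0 < D := by omega
      exact_mod_cast this
    have hM := abs_nonneg (∑ i, (k i : ℤ) ^ 2 - (D : ℤ) ^ 2)
    generalize |∑ i, (k i : ℤ) ^ 2 - (D : ℤ) ^ 2| = M at *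
    have h6 : (D : ℤ) * (((T : ℤ) + 1) * M) ≤ D * (6 * K ^ 2) := by
      have h7 := mul_le_mul_of_nonneg_right h5 hM
      have h8 : (3 * (K : ℤ)) * (e * M) ≤ 3 * K * (2 * K * D) :=
        mul_le_mul_of_nonneg_left h2 (by positivity)
      nlinarith
    exact le_of_mul_le_mul_left h6 hDpos

theorem winP_of_FP {T ρ : ℕ} (hT : 1 ≤ T) (hρ : 4 ≤ ρ) (h : FP T ρ) : WinP T ρ := by
  intro r c D m hc hm hD
  have hgen := gpt_generic r
  have hD1 : 1 ≤ D := by nlinarith
  have h3c : 3 * ρ * c ≤ D := by nlinarith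
  constructor
  · intro hyp
    by_contra hne
    obtain ⟨f, hf, hfV⟩ := exists_of_hPm hne
    have hL : D ^ 2 < ∑ i, m i ^ 2 := by
      by_contra hcon
      have h1 : T * ∑ i, m i ^ 2 ≤ T * D ^ 2 := Nat.mul_le_mul_left _ (not_lt.1 hcon)
      have h2 : 1 ≤ c ^ 2 := Nat.one_le_pow _ _ hc
      omega
    have hDr : (0 : ℝ) < D := by exact_mod_cast hD1
    obtain ⟨b, hb, hbf, hy, hphi⟩ := exists_neg (φ := fun g => (g.totalDegree : ℝ) / D) hf hfV
      (by
        intro g h hg hh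
        rw [totalDegree_mul' hg hh, ← add_div]
        push_cast
        ring)
      (by
        intro g hg
        have h0 : g.totalDegree = 0 := by
          have := (MvPolynomial.isUnit_iff_totalDegree_of_isReduced.1 hg).2
          exact this
        simp [h0])
      (by
        intro b _ _
        positivity)
      (by
        rw [div_le_one hDr]
        exact_mod_cast hfV.1)
      hL
    have hcase : (b.totalDegree : ℤ) * (∑ i, (m i : ℤ) ^ 2 - D ^ 2) ≤
        D * (∑ i, (m i : ℤ) * mu (aff (gpt r) i) b - D * b.totalDegree) := by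
      have h1 : (b.totalDegree : ℝ) * (∑ i, (m i : ℝ) ^ 2 - D ^ 2) ≤
          D * (∑ i, (m i : ℝ) * mu (aff (gpt r) i) b - D * b.totalDegree) := by
        have h2 := mul_le_mul_of_nonneg_left hphi hDr.le
        have h3 : (D : ℝ) * ((b.totalDegree : ℝ) / D * (∑ i, (m i : ℝ) ^ 2 - D ^ 2)) =
            (b.totalDegree : ℝ) * (∑ i, (m i : ℝ) ^ 2 - D ^ 2) := by
          field_simp
        rw [h3] at h2
        exact h2
      exact_mod_cast h1
    have h1 := plane_core h hρ hb hc hm h3c hy (Or.inr hcase)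
    have h2 : (D : ℤ) ^ 2 < ∑ i, (m i : ℤ) ^ 2 := by exact_mod_cast hL
    have h3 : (T : ℤ) * D ^ 2 + 6 * c ^ 2 ≤ T * ∑ i, (m i : ℤ) ^ 2 := by exact_mod_cast hyp
    rw [abs_of_pos (by linarith)] at h1
    nlinarith
  · intro hyp
    have h1 : ∑ i, m i ^ 2 + 23 * ∑ i, m i ≤ D ^ 2 := by
      by_contra hcon
      have h2 : T * D ^ 2 ≤ T * (∑ i, m i ^ 2 + 23 * ∑ i, m i) :=
        Nat.mul_le_mul_left _ (not_le.1 hcon).le
      have h3 : 1 ≤ (c + 1) ^ 2 := Nat.one_le_pow _ _ (by omega)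
      omega
    let q' : {i // m i ≠ 0} → Fin 2 → ℂ := fun i => aff (gpt r) i
    have hq' : Function.Injective q' := fun i j hij =>
      Subtype.ext (aff_injective hgen hij)
    have s1 : ∑ i : {i // m i ≠ 0}, m i ^ 2 = ∑ i, m i ^ 2 :=
      sum_ne m (fun i => m i ^ 2) (fun i hi => by rw [hi]; rfl)
    have s2 : ∑ i : {i // m i ≠ 0}, m i = ∑ i, m i := sum_ne m (fun i => m i) (fun i hi => hi)
    have s3 : ∑ i : {i // m i ≠ 0}, (m i + 1).choose 2 = ∑ i, (m i + 1).choose 2 :=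
      sum_ne m (fun i => (m i + 1).choose 2) (fun i hi => by rw [hi]; rfl)
    have key := regular_of_nef (q := q') (D := D) (m := fun i => m i) hq'
      (fun i => Nat.one_le_iff_ne_zero.2 i.2) (by rw [s1, s2]; exact h1) ?_
    · rw [s3] at key
      have h4 : VD D q' (fun i : {i // m i ≠ 0} => m i) = VD D (aff (gpt r)) m := VD_sub D _ m
      rw [h4, ← finrank_aff hgen] at key
      exact key
    · intro b hb
      by_contra hcon
      rw [not_le] at hcon
      set k : Fin r → ℕ := fun i => if m i = 0 then 0 else m i + 1 with hk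
      have s4 : ∑ i : {i // m i ≠ 0}, (m i + 1) * mu (q' i) b =
          ∑ i, k i * mu (aff (gpt r) i) b := by
        rw [← sum_ne m (fun i => k i * mu (aff (gpt r) i) b) (fun i hi => by simp [hk, hi])]
        apply Finset.sum_congr rfl
        intro i _
        have : k i = m i + 1 := if_neg i.2
        simp only [this, q']
      rw [s4] at hcon
      have hkle : ∀ i, k i ≤ c + 1 := by
        intro i
        have := hm i
        simp only [hk]
        split <;> omega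
      have s5 : ∑ i, k i ^ 2 ≤ ∑ i, m i ^ 2 + 3 * ∑ i, m i := by
        rw [Finset.mul_sum, ← Finset.sum_add_distrib]
        apply Finset.sum_le_sum
        intro i _
        simp only [hk]
        split
        · simp
        · have : 1 ≤ m i := Nat.one_le_iff_ne_zero.2 (by assumption)
          nlinarith
      have s6 : ∑ i, k i ^ 2 ≤ (D + 3) ^ 2 := by
        have : D ^ 2 ≤ (D + 3) ^ 2 := Nat.pow_le_pow_left (by omega) 2
        omega
      have h2 := plane_core (K := c + 1) h hρ hb (by omega) hkle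
        (by nlinarith : 3 * ρ * (c + 1) ≤ D + 3) hcon (Or.inl s6)
      have t1 : (∑ i, (k i : ℤ) ^ 2) ≤ ∑ i, (m i : ℤ) ^ 2 + 3 * ∑ i, (m i : ℤ) := by
        exact_mod_cast s5
      have t2 : (T : ℤ) * (∑ i, (m i : ℤ) ^ 2 + 23 * ∑ i, (m i : ℤ)) + 6 * (c + 1) ^ 2 ≤
          T * D ^ 2 := by exact_mod_cast hyp
      have t3 : (0 : ℤ) ≤ ∑ i, (m i : ℤ) := Finset.sum_nonneg fun i _ => by positivity
      have t4 : (1 : ℤ) ≤ T := by exact_mod_cast hT
      have t5 : (∑ i, (m i : ℤ) ^ 2 + 23 * ∑ i, (m i : ℤ)) ≤ D ^ 2 := by exact_mod_cast h1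
      push_cast at h2
      rw [abs_sub_comm] at h2
      generalize (∑ i, (k i : ℤ) ^ 2) = A at *
      generalize (∑ i, (m i : ℤ) ^ 2) = B at *
      generalize (∑ i, (m i : ℤ)) = E at *
      have hDz : (0 : ℤ) ≤ D := by positivity
      have t6 : (D : ℤ) ^ 2 - (B + 23 * E) + 9 ≤ ((D : ℤ) + 3) ^ 2 - A := by nlinarith
      have t7 : (0 : ℤ) < ((D : ℤ) + 3) ^ 2 - A := by linarith
      rw [abs_of_pos t7] at h2
      have t8 : (T : ℤ) * ((D : ℤ) ^ 2 - (B + 23 * E) + 9) ≤ T * (((D : ℤ) + 3) ^ 2 - A) :=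
        mul_le_mul_of_nonneg_left t6 (by linarith)
      nlinarith

end Pool.Agent.Work.MP_0421d9_ag.LD
end

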