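import Pool.Agent.Work.Z0421M.C12
import Pool.Agent.Work.Z0421M.C14
import Pool.Agent.Work.Z0421M.C32
import Pool.Agent.Work.Z0421M.C34

section
/-!
The levels of the rectangles (helper21, after the plan of helper69).
-/

namespace Pool.Agent.Work.MP_0421d9_ag.LD

open MvPolynomial Module

theorem ER.mono {T q a q' a' : ℕ} (h : ER T q a) (hq : q ≤ q') (ha : a ≤ a') : ER T q' a' :=
  fun N c H L k h1 h2 h3 h4 h5 h6 => h N c H L k h1 h2 h3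
    ((Nat.add_le_add_right (Nat.mul_le_mul_right c hq) 1).trans h4)
    ((Nat.add_le_add_right (Nat.mul_le_mul_right c ha) 1).trans h5) h6

/-- families of simple points -/
theorem hTm_simple {D N : ℕ} {k : Fin N → ℕ} {T : Set (Fin 3 →₀ ℕ)} (hk : ∀ i, k i ≤ 1) :
    hTm D T k = hT D T 1 (∑ i, k i) := by
  classical
  set S : Finset (Fin N) := Finset.univ.filter (fun i => k i = 1) with hS
  have hcard : S.card = ∑ i, k i := by
    rw [hS, Finset.card_filter]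
    refine Finset.sum_congr rfl fun i _ => ?_
    have := hk i
    split_ifs with h
    · exact h.symm
    · omega
  rw [← hcard]
  have h1 := hTm_comp_eq (D := D) (k := k) (T := T) (e := S.orderEmbOfFin rfl)
    (S.orderEmbOfFin rfl).injective (by
      intro i hi
      rw [Finset.range_orderEmbOfFin, Finset.mem_coe, hS, Finset.mem_filter] at hi
      have h2 := hk i
      have h3 : k i ≠ 1 := fun h => hi ⟨Finset.mem_univ i, h⟩
      omega)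
  rw [h1, ← hTm_const]
  congr 1
  funext i
  have h2 := Finset.orderEmbOfFin_mem S rfl i
  have h3 : ∀ j, j ∈ S → k j = 1 := fun j hj => (Finset.mem_filter.1 hj).2
  exact h3 _ h2

theorem ER_base : ER 1 4 4 := by
  intro N c H L k hc hc1 hk hH hL h
  have hc' : c = 1 := le_antisymm hc1 hc
  subst hc'
  have h1 : hRm H L k = H * L - ∑ i, k i := by
    unfold hRm
    rw [hTm_simple hk]
    exact rect_simple H L _
  have h2 : ∑ i, k i ^ 2 = ∑ i, k i := by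
    refine Finset.sum_congr rfl fun i _ => ?_
    have h3 := hk i
    interval_cases k i <;> rfl
  rw [h2] at h
  rw [h1]
  apply Nat.sub_eq_zero_of_le
  refine le_trans ?_ h
  obtain ⟨x, rfl⟩ : ∃ x, H = x + 5 := ⟨H - 5, by omega⟩
  obtain ⟨y, rfl⟩ : ∃ y, L = y + 5 := ⟨L - 5, by omega⟩
  rw [show x + 5 - 1 = x + 4 from rfl, show y + 5 - 1 = y + 4 from rfl]
  nlinarith

/-- the numerical part of the induction -/
theorem zr_num {Q lam a₀ p J lg : ℕ} (hQ : 100 ≤ Q) (hlam : 100 ≤ lam) (ha : 1 ≤ a₀)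
    (hp : p = 40 * Q + 4000) (hlg : lg ≤ lam) (hJ : J = 100 * p ^ 2 + p * (lg + 2) + 2) :
    10 ^ 5 * J + 10 ^ 6 * Q ≤ Q ^ 2 * lam ^ 100 ∧
      1000 * (a₀ * Q) * p + 200 * p ^ 2 ≤ a₀ * (Q ^ 2 * lam ^ 100) := by
  have hp1 : p ≤ 80 * Q := by omega
  have hp2 : p ^ 2 ≤ 6400 * Q ^ 2 := by
    calc p ^ 2 ≤ (80 * Q) ^ 2 := Nat.pow_le_pow_left hp1 2
      _ = 6400 * Q ^ 2 := by ring
  have hlam0 : 1 ≤ lam := by omega
  have hpow : 10 ^ 12 * lam ≤ lam ^ 100 := by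
    calc 10 ^ 12 * lam = 100 ^ 6 * lam := by norm_num
      _ ≤ lam ^ 6 * lam := Nat.mul_le_mul_right lam (Nat.pow_le_pow_left hlam 6)
      _ = lam ^ 7 := (pow_succ lam 6).symm
      _ ≤ lam ^ 100 := Nat.pow_le_pow_right hlam0 (by norm_num)
  have hQ2 : Q ≤ Q ^ 2 := by nlinarith
  have hbig : 10 ^ 12 * (Q ^ 2 * lam) ≤ Q ^ 2 * lam ^ 100 := by
    calc 10 ^ 12 * (Q ^ 2 * lam) = Q ^ 2 * (10 ^ 12 * lam) := by ring
      _ ≤ Q ^ 2 * lam ^ 100 := Nat.mul_le_mul_left _ hpow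
  have hQl : Q ^ 2 ≤ Q ^ 2 * lam := Nat.le_mul_of_pos_right _ hlam0
  constructor
  · refine le_trans ?_ hbig
    have h1 : p * (lg + 2) ≤ 160 * (Q ^ 2 * lam) := by
      calc p * (lg + 2) ≤ (80 * Q) * (2 * lam) := Nat.mul_le_mul hp1 (by omega)
        _ = 160 * (Q * lam) := by ring
        _ ≤ 160 * (Q ^ 2 * lam) := Nat.mul_le_mul_left _ (Nat.mul_le_mul_right lam hQ2)
    have h2 : 1 ≤ Q ^ 2 * lam := Nat.mul_pos (pow_pos (by omega) 2) hlam0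
    omega
  · have h1 : 1000 * (a₀ * Q) * p ≤ 80000 * (a₀ * (Q ^ 2 * lam)) := by
      calc 1000 * (a₀ * Q) * p ≤ 1000 * (a₀ * Q) * (80 * Q) := Nat.mul_le_mul_left _ hp1
        _ = 80000 * (a₀ * Q ^ 2) := by ring
        _ ≤ 80000 * (a₀ * (Q ^ 2 * lam)) :=
          Nat.mul_le_mul_left _ (Nat.mul_le_mul_left _ hQl)
    have h2 : 200 * p ^ 2 ≤ 1280000 * (a₀ * (Q ^ 2 * lam)) := by
      calc 200 * p ^ 2 ≤ 200 * (6400 * Q ^ 2) := Nat.mul_le_mul_left _ hp2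
        _ = 1280000 * Q ^ 2 := by ring
        _ ≤ 1280000 * (a₀ * (Q ^ 2 * lam)) :=
          Nat.mul_le_mul_left _ (hQl.trans (Nat.le_mul_of_pos_left _ ha))
    have h3 : 10 ^ 12 * (a₀ * (Q ^ 2 * lam)) ≤ a₀ * (Q ^ 2 * lam ^ 100) := by
      calc 10 ^ 12 * (a₀ * (Q ^ 2 * lam)) = a₀ * (10 ^ 12 * (Q ^ 2 * lam)) := by ring
        _ ≤ a₀ * (Q ^ 2 * lam ^ 100) := Nat.mul_le_mul_left _ hbig
    omega

theorem ER_level' (n : ℕ) : ∃ A : ℕ, 100 ≤ A ∧ ∀ lam a₀ : ℕ, A ≤ lam → A ≤ a₀ →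
    Nat.log 2 (a₀ ^ n + 1) ≤ lam → ER (a₀ ^ n) (lam ^ A) (a₀ * lam ^ A) := by
  induction n with
  | zero =>
    refine ⟨100, le_rfl, fun lam a₀ h1 h2 _ => ?_⟩
    rw [pow_zero]
    have h3 : 4 ≤ lam ^ 100 := by
      calc 4 ≤ lam ^ 1 := by rw [pow_one]; omega
        _ ≤ lam ^ 100 := Nat.pow_le_pow_right (by omega) (by norm_num)
    exact ER_base.mono h3 (h3.trans (Nat.le_mul_of_pos_left _ (by omega)))
  | succ n ih =>
    obtain ⟨A, hA, ih⟩ := ih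
    refine ⟨2 * A + 100, by omega, fun lam a₀ h1 h2 h3 => ?_⟩
    have hlam : 100 ≤ lam := by omega
    have ha₀ : 1 ≤ a₀ := by omega
    have hlog : Nat.log 2 (a₀ ^ n + 1) ≤ lam := by
      refine (Nat.log_mono_right ?_).trans h3
      exact Nat.add_le_add_right (Nat.pow_le_pow_right ha₀ (Nat.le_succ n)) 1
    have hER := ih lam a₀ (by omega) (by omega) hlog
    have hQ : 100 ≤ lam ^ A := by
      calc 100 ≤ lam ^ 1 := by rw [pow_one]; omega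
        _ ≤ lam ^ A := Nat.pow_le_pow_right (by omega) (by omega)
    have hT : 1 ≤ a₀ ^ n := Nat.one_le_pow _ _ ha₀
    have hW := winR_of_ER hT (by omega) (by
      have : lam ^ A ≤ a₀ * lam ^ A := Nat.le_mul_of_pos_left _ ha₀
      omega) hER
    have hnum := zr_num (Q := lam ^ A) (lam := lam) (a₀ := a₀) (p := 40 * lam ^ A + 4000)
      (lg := Nat.log 2 (a₀ ^ (n + 1) + 1)) hQ hlam ha₀ rfl h3 rfl
    have hpow : lam ^ (2 * A + 100) = (lam ^ A) ^ 2 * lam ^ 100 := by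
      rw [pow_add, ← pow_mul, Nat.mul_comm A 2]
    rw [hpow]
    refine ER_step hW hT (by omega) (by
      have : lam ^ A ≤ a₀ * lam ^ A := Nat.le_mul_of_pos_left _ ha₀
      omega) le_rfl rfl le_rfl hnum.1 hnum.2 ?_
    rw [pow_succ]
    refine Nat.mul_le_mul_left _ (Nat.le_mul_of_pos_right _ ?_)
    have h4 : 0 < lam := by omega
    positivity

end Pool.Agent.Work.MP_0421d9_ag.LD
end

section
/-!
The numerical part of the levels of the plane (helper21, after the plan of helper69).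
-/

namespace Pool.Agent.Work.MP_0421d9_ag.LD

open MvPolynomial Module

/-! ### polynomials in the logarithm -/

theorem zp_exp (B C : ℕ) : ∃ L₀ : ℕ, ∀ L, L₀ ≤ L → C * (L + 1) ^ B ≤ 2 ^ L := by
  have h := tendsto_pow_const_div_const_pow_of_one_lt B (r := (2 : ℝ)) (by norm_num)
  have hpos : (0 : ℝ) < 1 / (2 * (C + 1)) := by positivity
  have h1 := (h.eventually (gt_mem_nhds hpos))
  obtain ⟨n₀, hn₀⟩ := Filter.eventually_atTop.1 h1
  refine ⟨n₀, fun L hL => ?_⟩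
  have h2 := hn₀ (L + 1) (by omega)
  rw [div_lt_div_iff₀ (by positivity) (by positivity), one_mul, pow_succ] at h2
  have h3 : ((C * (L + 1) ^ B : ℕ) : ℝ) ≤ ((2 ^ L : ℕ) : ℝ) := by
    push_cast
    push_cast at h2
    have h4 : (0 : ℝ) ≤ ((L : ℝ) + 1) ^ B := by positivity
    nlinarith
  exact_mod_cast h3

theorem zp_log (B C N A : ℕ) : ∃ S₀ : ℕ, ∀ s, S₀ ≤ s →
    C * (Nat.log 2 ((s + 1) ^ N + 1) + A) ^ B ≤ s := by
  obtain ⟨L₀, hL₀⟩ := zp_exp B (C * (N + A + 1) ^ B + 1)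
  refine ⟨2 ^ L₀, fun s hs => ?_⟩
  set L := Nat.log 2 (s + 1) with hL
  have h1 : L₀ ≤ L := Nat.le_log_of_pow_le (by norm_num) (by omega)
  have h2 : s + 1 < 2 ^ (L + 1) := Nat.lt_pow_succ_log_self (by norm_num) _
  have h3 : 2 ^ L ≤ s + 1 := Nat.pow_log_le_self 2 (by omega)
  have h4 : Nat.log 2 ((s + 1) ^ N + 1) ≤ (L + 1) * N + 1 := by
    have h5 : (s + 1) ^ N + 1 ≤ 2 ^ ((L + 1) * N + 1) := by
      have h6 : (s + 1) ^ N ≤ 2 ^ ((L + 1) * N) := by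
        rw [pow_mul]
        exact Nat.pow_le_pow_left h2.le N
      have h7 : 1 ≤ 2 ^ ((L + 1) * N) := Nat.one_le_two_pow
      rw [pow_succ]
      omega
    calc Nat.log 2 ((s + 1) ^ N + 1) ≤ Nat.log 2 (2 ^ ((L + 1) * N + 1)) := Nat.log_mono_right h5
      _ = (L + 1) * N + 1 := Nat.log_pow (by norm_num) _
  have h5 : Nat.log 2 ((s + 1) ^ N + 1) + A ≤ (N + A + 1) * (L + 1) := by nlinarith
  have h6 := hL₀ L h1
  have h7 : C * (Nat.log 2 ((s + 1) ^ N + 1) + A) ^ B ≤ C * (N + A + 1) ^ B * (L + 1) ^ B := by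
    rw [mul_assoc, ← mul_pow]
    exact Nat.mul_le_mul_left C (Nat.pow_le_pow_left h5 B)
  have h8 : 1 ≤ (L + 1) ^ B := Nat.one_le_pow _ _ (Nat.succ_pos L)
  rw [Nat.add_mul, one_mul] at h6
  omega

/-- comparison of powers -/
theorem zp_pow {R Y Z n C : ℕ} (hR : R ≤ Z * Y) (hC : Z ^ n * C ≤ R ^ n) (hZ : 1 ≤ Z) :
    C ≤ Y ^ n := by
  have h1 : Z ^ n * C ≤ Z ^ n * Y ^ n := by
    rw [← mul_pow]
    exact hC.trans (Nat.pow_le_pow_left hR n)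
  exact Nat.le_of_mul_le_mul_left h1 (pow_pos hZ n)

theorem zp_div {R Z : ℕ} (hZ : 1 ≤ Z) (hR : Z ≤ R) : R ≤ 2 * Z * (R / Z) := by
  have h1 : R < Z * (R / Z + 1) := Nat.lt_mul_div_succ R hZ
  have h2 : 1 ≤ R / Z := (Nat.one_le_div_iff hZ).2 hR
  nlinarith

/-- the parameters of the rectangles, and the conditions on them -/
theorem zp_params (k N K G X A₁ : ℕ) (hkN : k ≤ N) : ∃ R₀ : ℕ, ∀ R, R₀ ≤ R →
    ∃ s q p J : ℕ, WinR ((s + 1) ^ k) q ((s + 1) * q) ∧ 2 ≤ q ∧ 2 ≤ (s + 1) * q ∧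
      R ≤ (s + 1) ^ 2 ∧ 40 * q + 2 ^ (2 * K + 20) ≤ p ∧
      100 * p ^ 2 + 64 * p ^ 2 * (Nat.log 2 ((s + 1) ^ N + 1) + 2) + 2 ≤ J ∧
      10 ^ 6 * J * G ≤ R ∧ 2 * X * (1000 * ((s + 1) * q) * p + (16 * K * p) ^ 3) ≤ R ∧
      20 * X * A₁ * p ^ 6 ≤ R := by
  obtain ⟨A, hA, hER⟩ := ER_level' k
  obtain ⟨c₁, hc₁⟩ : ∃ c₁, c₁ = 40 + 2 ^ (2 * K + 20) := ⟨_, rfl⟩
  obtain ⟨S₁, hS₁⟩ := zp_log (2 * A + 1) (10 ^ 8 * G * c₁ ^ 2) N A
  obtain ⟨S₂, hS₂⟩ := zp_log (6 * A) (20 * X * A₁ * c₁ ^ 6) N A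
  obtain ⟨S₃, hS₃⟩ := zp_log (2 * A) (8000 * X * c₁) N A
  obtain ⟨S₄, hS₄⟩ := zp_log (3 * A) (4 * X * (16 * K) ^ 3 * c₁ ^ 3) N A
  obtain ⟨S, hS⟩ : ∃ S, S = S₁ + S₂ + S₃ + S₄ + A + 1 := ⟨_, rfl⟩
  refine ⟨S * S, fun R hR => ?_⟩
  obtain ⟨s, hs⟩ : ∃ s, s = Nat.sqrt R := ⟨_, rfl⟩
  have hsR : s * s ≤ R := by
    rw [hs]
    exact Nat.sqrt_le R
  have hRs : R < (s + 1) * (s + 1) := by
    rw [hs]
    exact Nat.lt_succ_sqrt R
  have hSs : S ≤ s := by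
    rw [hs, Nat.le_sqrt]
    exact hR
  obtain ⟨lam, hlam⟩ : ∃ lam, lam = Nat.log 2 ((s + 1) ^ N + 1) + A := ⟨_, rfl⟩
  have hlamA : A ≤ lam := by omega
  have hlam100 : 100 ≤ lam := by omega
  obtain ⟨q, hq⟩ : ∃ q, q = lam ^ A := ⟨_, rfl⟩
  have hq100 : 100 ≤ q := by
    rw [hq]
    calc 100 ≤ lam ^ 1 := by rw [pow_one]; omega
      _ ≤ lam ^ A := Nat.pow_le_pow_right (by omega) (by omega)
  have hlk : Nat.log 2 ((s + 1) ^ k + 1) ≤ lam := by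
    have h1 : Nat.log 2 ((s + 1) ^ k + 1) ≤ Nat.log 2 ((s + 1) ^ N + 1) :=
      Nat.log_mono_right (Nat.add_le_add_right (Nat.pow_le_pow_right (Nat.succ_pos s) hkN) 1)
    omega
  have hE := hER lam (s + 1) hlamA (by omega) hlk
  rw [← hq] at hE
  have hT1 : 1 ≤ (s + 1) ^ k := Nat.one_le_pow _ _ (Nat.succ_pos s)
  have ha2 : 2 ≤ (s + 1) * q := by
    have : q ≤ (s + 1) * q := Nat.le_mul_of_pos_left _ (Nat.succ_pos s)
    omega
  have hW := winR_of_ER hT1 (by omega) ha2 hE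
  obtain ⟨p, hp⟩ : ∃ p, p = 40 * q + 2 ^ (2 * K + 20) := ⟨_, rfl⟩
  have hpc : p ≤ c₁ * q := by
    rw [hp, hc₁, Nat.add_mul]
    exact Nat.add_le_add_left (Nat.le_mul_of_pos_right _ (by omega)) _
  obtain ⟨J, hJ⟩ : ∃ J, J = 100 * p ^ 2 + 64 * p ^ 2 *
      (Nat.log 2 ((s + 1) ^ N + 1) + 2) + 2 := ⟨_, rfl⟩
  have hp1 : 1 ≤ p := by omega
  have hJ2 : J ≤ 100 * (p ^ 2 * lam) := by
    have h1 : 64 * p ^ 2 * (Nat.log 2 ((s + 1) ^ N + 1) + 2) ≤ 64 * p ^ 2 * (lam + 2) :=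
      Nat.mul_le_mul_left _ (by omega)
    have h2 : 1 ≤ p ^ 2 := Nat.one_le_pow _ _ hp1
    have h3 : 100 * p ^ 2 ≤ p ^ 2 * lam := by
      rw [Nat.mul_comm]
      exact Nat.mul_le_mul_left _ hlam100
    have h4 : 64 * p ^ 2 * (lam + 2) = 64 * (p ^ 2 * lam) + 128 * p ^ 2 := by ring
    omega
  have hsR' : s ≤ R := (Nat.le_mul_self s).trans hsR
  have hpk : ∀ k, p ^ k ≤ c₁ ^ k * lam ^ (k * A) := by
    intro k
    calc p ^ k ≤ (c₁ * q) ^ k := Nat.pow_le_pow_left hpc k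
      _ = c₁ ^ k * lam ^ (k * A) := by rw [mul_pow, hq, ← pow_mul, Nat.mul_comm A k]
  refine ⟨s, q, p, J, hW, by omega, ha2, by rw [sq]; exact hRs.le, hp.ge, hJ.ge, ?_, ?_, ?_⟩
  · have h1 := hS₁ s (by omega)
    rw [← hlam] at h1
    refine le_trans ?_ (h1.trans hsR')
    calc 10 ^ 6 * J * G ≤ 10 ^ 6 * (100 * (p ^ 2 * lam)) * G := by gcongr
      _ ≤ 10 ^ 6 * (100 * ((c₁ ^ 2 * lam ^ (2 * A)) * lam)) * G := by
        gcongr
        exact hpk 2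
      _ = 10 ^ 8 * G * c₁ ^ 2 * lam ^ (2 * A + 1) := by ring
  · have h1 := hS₃ s (by omega)
    have h2 := hS₄ s (by omega)
    rw [← hlam] at h1 h2
    have h3 : 4 * (2 * X * (1000 * ((s + 1) * q) * p)) ≤ 2 * R := by
      calc 4 * (2 * X * (1000 * ((s + 1) * q) * p))
          ≤ 4 * (2 * X * (1000 * ((s + 1) * q) * (c₁ * q))) := by gcongr
        _ = (8000 * X * c₁ * lam ^ (2 * A)) * (s + 1) := by
          rw [hq, Nat.mul_comm 2 A, pow_mul]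
          ring
        _ ≤ s * (s + 1) := Nat.mul_le_mul_right _ h1
        _ ≤ 2 * (s * s) := by nlinarith
        _ ≤ 2 * R := Nat.mul_le_mul_left 2 hsR
    have h4 : 2 * (2 * X * (16 * K * p) ^ 3) ≤ R := by
      refine le_trans ?_ (h2.trans hsR')
      calc 2 * (2 * X * (16 * K * p) ^ 3) = 4 * X * (16 * K) ^ 3 * p ^ 3 := by ring
        _ ≤ 4 * X * (16 * K) ^ 3 * (c₁ ^ 3 * lam ^ (3 * A)) := Nat.mul_le_mul_left _ (hpk 3)
        _ = 4 * X * (16 * K) ^ 3 * c₁ ^ 3 * lam ^ (3 * A) := by ring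
    rw [Nat.mul_add]
    omega
  · have h1 := hS₂ s (by omega)
    rw [← hlam] at h1
    refine le_trans ?_ (h1.trans hsR')
    calc 20 * X * A₁ * p ^ 6 ≤ 20 * X * A₁ * (c₁ ^ 6 * lam ^ (6 * A)) :=
          Nat.mul_le_mul_left _ (hpk 6)
      _ = 20 * X * A₁ * c₁ ^ 6 * lam ^ (6 * A) := by ring

end Pool.Agent.Work.MP_0421d9_ag.LD
end

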