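import Pool.Agent.Work.Z0421M.C18
import Pool.Agent.Work.Z0421M.C21
import Pool.Agent.Work.Z0421M.C30
import Pool.Agent.Work.Z0421M.C31

section
/-!
Thin strips on `P¹ × P¹`.
-/

namespace Pool.Agent.Work.MP_0421d9_ag.LD

open MvPolynomial Module

/-- the transformation for an even number of points, rows first -/
theorem transform_even' {R L L' k μ t : ℕ} (hRe : R = k + μ + 1) (hL : L' + t * k = L + t * μ) :
    hR R L k (2 * t) ≤ hR R L' μ (2 * t) := by
  rcases Nat.eq_zero_or_pos t with rfl | ht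
  · have e : L' = L := by omega
    rw [e, Nat.mul_zero, hR_no_points, hR_no_points]
  · rw [hR_swap R L, hR_swap R L', hRe]
    exact transform_even ht rfl hL

/-- the expected dimensions agree -/
theorem chi_even {R L L' k μ t : ℕ} (hRe : R = k + μ + 1) (hL : L' + t * k = L + t * μ) :
    R * L' + 2 * t * (k + 1).choose 2 = R * L + 2 * t * (μ + 1).choose 2 := by
  have h1 := two_choose_succ k
  have h2 := two_choose_succ μ
  have e1 : 2 * t * (k + 1).choose 2 = t * (k * (k + 1)) := by rw [← h1]; ring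
  have e2 : 2 * t * (μ + 1).choose 2 = t * (μ * (μ + 1)) := by rw [← h2]; ring
  rw [e1, e2, hRe]
  have h3 : (k + μ + 1) * (L' + t * k) = (k + μ + 1) * (L + t * μ) := by rw [hL]
  nlinarith

/-- maximal rank is inherited -/
theorem MR_of_transform_even {R L L' k μ t : ℕ} (hRe : R = k + μ + 1)
    (hL : L' + t * k = L + t * μ) (h : MR R L' μ (2 * t)) : MR R L k (2 * t) := by
  apply MR_of_le
  have h1 := transform_even' hRe hL
  have h2 := chi_even hRe hL
  unfold MR at h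
  omega

theorem thin {η k L s μ : ℕ} (hQ : QM η k μ) (hη : 1 ≤ η) (hμ : 1 ≤ μ)
    (hs : k * (k + 1) ≤ s * L) (h0 : 2 * η * s ≤ μ + 1) (h2 : 2 * μ ≤ k) (hη' : η * μ ≤ k) :
    GE k L (k + 1 + μ) := by
  intro t
  have hRk : k + 1 + μ = k + μ + 1 := by omega
  have hk1 := two_choose_succ k
  have hμ1 := two_choose_succ μ
  have hη1 : η * μ ≤ k + 1 + μ := by omega
  rcases Nat.lt_or_ge (L + t * μ) (t * k + η * μ) with hc | hc
  · -- few columns: empty
    set L₁ := t * k + η * μ - t * μ with hL₁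
    have htk : t * μ ≤ t * k := Nat.mul_le_mul_left t (by omega)
    have hL₁' : η * μ + t * k = L₁ + t * μ := by omega
    have hLL : L ≤ L₁ := by omega
    have h3 : MR (k + 1 + μ) (η * μ) μ (2 * t) :=
      hQ (k + 1 + μ) (η * μ) (2 * t) hη1 le_rfl (by omega)
    -- the expected dimension is not positive
    have h4 : (k + 1 + μ) * (η * μ) ≤ 2 * t * (μ + 1).choose 2 := by
      have e1 : 2 * t * (μ + 1).choose 2 = t * (μ * (μ + 1)) := by rw [← hμ1]; ring
      rw [e1]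
      -- `(k + 1 + μ) η ≤ t (μ + 1)`
      have h5 : (k + 1 + μ) * η ≤ t * (μ + 1) := by
        -- multiply by `k`
        have h6 : L ≤ t * k + η * μ := by omega
        have h7 : 2 * η * (k * (k + 1)) ≤ (μ + 1) * L := by
          calc 2 * η * (k * (k + 1)) ≤ 2 * η * (s * L) := Nat.mul_le_mul_left _ hs
            _ = 2 * η * s * L := by ring
            _ ≤ (μ + 1) * L := Nat.mul_le_mul_right _ h0
        have h8 : (μ + 1) * L ≤ (μ + 1) * (t * k + η * μ) := Nat.mul_le_mul_left _ h6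
        have hkpos : 0 < k := by omega
        have h9 : ((k + 1 + μ) * η) * k ≤ (t * (μ + 1)) * k := by
          have h10 : (μ + 1) * (η * μ) + (k + 1 + μ) * η * k ≤ 2 * η * (k * (k + 1)) := by
            have h11 : (μ + 1) * μ + (k + 1 + μ) * k ≤ 2 * (k * (k + 1)) := by nlinarith
            calc (μ + 1) * (η * μ) + (k + 1 + μ) * η * k
                = η * ((μ + 1) * μ + (k + 1 + μ) * k) := by ring
              _ ≤ η * (2 * (k * (k + 1))) := Nat.mul_le_mul_left _ h11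
              _ = 2 * η * (k * (k + 1)) := by ring
          have h12 : (μ + 1) * (t * k + η * μ) = t * (μ + 1) * k + (μ + 1) * (η * μ) := by ring
          omega
        exact Nat.le_of_mul_le_mul_right h9 hkpos
      calc (k + 1 + μ) * (η * μ) = (k + 1 + μ) * η * μ := by ring
        _ ≤ t * (μ + 1) * μ := Nat.mul_le_mul_right _ h5
        _ = t * (μ * (μ + 1)) := by ring
    have h5 := h3.emp h4
    have h6 := transform_even' hRk hL₁'
    rw [h5] at h6
    exact MR_of_emp (emp_mono_right hLL (by omega))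
  · obtain ⟨L', hL'⟩ : ∃ L', L' + t * k = L + t * μ := ⟨L + t * μ - t * k, by omega⟩
    refine MR_of_transform_even hRk hL' ?_
    exact hQ (k + 1 + μ) L' (2 * t) hη1 (by omega) (by omega)

theorem Par.two_le {η : ℕ} (P : Par η) {k L : ℕ} (hk : P.Z ≤ k) (hγ : k * (k + 1) ≤ P.s * L) :
    2 * (k + 1) ≤ L := by
  have h1 := P.h1
  have h2 := P.h2
  have h3 := P.h3
  have h4 := P.hZ2
  have h5 := P.hs
  have h6 : 2 * P.s ≤ k := by
    have h7 : P.s ≤ 2 * ((2 * η + 1) * P.s) := by nlinarith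
    omega
  have h7 : 0 < P.s := h5
  have h8 : P.s * (2 * (k + 1)) ≤ P.s * L := by
    calc P.s * (2 * (k + 1)) = 2 * P.s * (k + 1) := by ring
      _ ≤ k * (k + 1) := Nat.mul_le_mul_right _ h6
      _ ≤ P.s * L := hγ
  exact Nat.le_of_mul_le_mul_left h8 h7

theorem Par.thinS {η : ℕ} (P : Par η) {k L : ℕ} (hk : P.Z ≤ k) (hγ : k * (k + 1) ≤ P.s * L) :
    GS k L P.s (k + (2 * η + 1) * P.s) (k + (P.W3 + 1 - P.s)) := by
  have h1 := P.h1
  have h2 := P.h2
  have h3 := P.h3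
  have h4 := P.hZ2
  have h5 := P.hs
  have h6 := P.hη
  have h7 := P.hZη
  have e1 : (2 * η + 1) * P.s = 2 * η * P.s + P.s := by ring
  have e2 : 2 * 1 * 1 ≤ 2 * η * P.s := Nat.mul_le_mul (Nat.mul_le_mul_left 2 h6) h5
  refine ⟨by omega, by omega, fun R hR1 hR2 => ?_⟩
  obtain ⟨μ, rfl⟩ : ∃ μ, R = k + 1 + μ := ⟨R - (k + 1), by omega⟩
  have hμ1 : 1 ≤ μ := by omega
  have hμ3 : μ ≤ P.W3 := by omega
  have hQ : QM η k μ := fun H L' N a b c => P.hQ μ hμ1 hμ3 H L' N a b (hk.trans c)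
  refine thin hQ h6 hμ1 hγ (by omega) (by omega) ?_
  exact ((Nat.mul_le_mul_left η hμ3).trans h7).trans hk

end Pool.Agent.Work.MP_0421d9_ag.LD
end

section
/-!
Medium strips on `P¹ × P¹`: the Euclidean algorithm.
-/

namespace Pool.Agent.Work.MP_0421d9_ag.LD

open MvPolynomial Module

/-- numerical invariant of the transformation -/
theorem gamma_mono {k μ L L' R t : ℕ} (hRe : R = k + μ + 1) (hL : L' + t * k = L + t * μ)
    (ht : t * (k * (k + 1)) ≤ R * L) (hμ : μ ≤ k) : L * (μ * (μ + 1)) ≤ L' * (k * (k + 1)) := by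
  have hchi : R * L' + t * (k * (k + 1)) = R * L + t * (μ * (μ + 1)) := by
    have h := chi_even hRe hL
    have e1 : 2 * t * (k + 1).choose 2 = t * (k * (k + 1)) := by rw [← two_choose_succ k]; ring
    have e2 : 2 * t * (μ + 1).choose 2 = t * (μ * (μ + 1)) := by rw [← two_choose_succ μ]; ring
    rw [e1, e2] at h
    exact h
  have hRpos : 0 < R := by omega
  have h1 : μ * (μ + 1) ≤ k * (k + 1) := Nat.mul_le_mul hμ (by omega)
  refine Nat.le_of_mul_le_mul_left ?_ hRpos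
  generalize k * (k + 1) = K at *
  generalize μ * (μ + 1) = M at *
  obtain ⟨d, rfl⟩ : ∃ d, K = M + d := ⟨K - M, by omega⟩
  have h2 : t * (M + d) * d ≤ R * L * d := Nat.mul_le_mul_right d ht
  have h3 : (R * L' + t * (M + d)) * (M + d) = (R * L + t * M) * (M + d) := by rw [hchi]
  nlinarith

theorem exists_L' {k μ L R t : ℕ} (hRe : R = k + μ + 1)
    (ht : t * (k * (k + 1)) ≤ R * L) (hμ : μ ≤ k) : ∃ L', L' + t * k = L + t * μ := by
  obtain ⟨d, rfl⟩ : ∃ d, k = μ + d := ⟨k - μ, by omega⟩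
  have hRpos : 0 < R := by omega
  have h1 : R * (t * d) ≤ R * L := by
    refine le_trans ?_ ht
    have h2 : R * d ≤ (μ + d) * (μ + d + 1) := by
      rw [hRe]
      nlinarith
    calc R * (t * d) = t * (R * d) := by ring
      _ ≤ t * ((μ + d) * (μ + d + 1)) := Nat.mul_le_mul_left t h2
  have h2 : t * d ≤ L := Nat.le_of_mul_le_mul_left h1 hRpos
  refine ⟨L - t * d, ?_⟩
  have h3 : t * (μ + d) = t * μ + t * d := by ring
  omega

/-- abbreviation -/
def Z_star (Z k μ n a : ℕ) : Prop := Z * (k - μ) ≤ 4 * (n - a) * (μ * (μ + 1))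

theorem Par.step {η : ℕ} (P : Par η) {n a q b μ w k R L' : ℕ} (ha : 1 ≤ a)
    (hn : n = q * a + b) (hb : b ≤ a) (hq : 1 ≤ q) (hRe : R = k + μ + 1)
    (hak : a * k = n * μ + w + n) (hw1 : n * P.W1 ≤ w) (hw2 : w ≤ n * P.W2) (hμ : P.Z ≤ μ)
    (hγ : μ * (μ + 1) ≤ P.s * L')
    (hmed : 1 ≤ b → ∀ R₂, a * R₂ + a * P.W1 ≤ (a + b) * μ → (a + b) * μ ≤ a * R₂ + a * P.W2 →
      GE μ L' R₂) : GE μ L' R := by
  have p1 := P.h1
  have p2 := P.h2
  have p3 := P.h3
  have p4 := P.hZ2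
  have p5 := P.hs
  have hL2 : 2 ≤ L' := by
    have := P.two_le hμ hγ
    omega
  have hthin := P.thinS hμ hγ
  set T0 := (2 * η + 1) * P.s with hT0
  set T3 := P.W3 + 1 - P.s with hT3
  have ht3 : 2 * P.W2 + P.W1 + 4 ≤ T3 := by omega
  rcases Nat.eq_zero_or_pos b with hb0 | hb0
  · -- thin strips only
    subst hb0
    rw [add_zero] at hn
    obtain ⟨v, hv⟩ : ∃ v, w = a * v := by
      have h1 : a ∣ w := by
        have h2 : a ∣ n * μ + w + n := ⟨k, hak.symm⟩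
        have h3 : a ∣ n := ⟨q, by rw [hn]; ring⟩
        have h4 : a ∣ n * μ + w := (Nat.dvd_add_left h3).mp h2
        exact (Nat.dvd_add_right (h3.mul_right μ)).mp h4
      exact h1
    have hk : k = q * μ + v + q := by
      have h1 : a * k = a * (q * μ + v + q) := by
        rw [hak, hn, hv]; ring
      exact Nat.eq_of_mul_eq_mul_left (by omega) h1
    have hv1 : q * P.W1 ≤ v := by
      have h1 : a * (q * P.W1) ≤ a * v := by
        rw [← hv]
        calc a * (q * P.W1) = n * P.W1 := by rw [hn]; ring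
          _ ≤ w := hw1
      exact Nat.le_of_mul_le_mul_left h1 (by omega)
    have hv2 : v ≤ q * P.W2 := by
      have h1 : a * v ≤ a * (q * P.W2) := by
        rw [← hv]
        calc w ≤ n * P.W2 := hw2
          _ = a * (q * P.W2) := by rw [hn]; ring
      exact Nat.le_of_mul_le_mul_left h1 (by omega)
    have hS := hthin.smul hL2 hγ (q + 1) (by omega)
    have hRv : R = (q + 1) * μ + v + q + 1 := by
      rw [hRe, hk]; ring
    refine hS.good ?_ ?_
    · have h1 : (q + 1) * T0 ≤ v := by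
        calc (q + 1) * T0 ≤ (2 * q) * T0 := Nat.mul_le_mul_right _ (by omega)
          _ = q * (2 * T0) := by ring
          _ ≤ q * P.W1 := Nat.mul_le_mul_left _ p1
          _ ≤ v := hv1
      have h2 : (q + 1) * (μ + T0) = (q + 1) * μ + (q + 1) * T0 := by ring
      omega
    · have h1 : q * P.W2 + q + 1 ≤ (q + 1) * T3 := by
        calc q * P.W2 + q + 1 ≤ (q + 1) * (P.W2 + 1) := by nlinarith
          _ ≤ (q + 1) * T3 := Nat.mul_le_mul_left _ (by omega)
      have h2 : (q + 1) * (μ + T3) = (q + 1) * μ + (q + 1) * T3 := by ring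
      omega
  · -- a medium strip
    obtain ⟨d, ρ, hρ, hρa⟩ : ∃ d ρ, b * μ = a * d + ρ ∧ ρ < a :=
      ⟨b * μ / a, b * μ % a, (Nat.div_add_mod _ _).symm, Nat.mod_lt _ (by omega)⟩
    obtain ⟨F, hF⟩ : ∃ F, F = μ + d := ⟨_, rfl⟩
    have haF : (a + b) * μ = a * F + ρ := by
      rw [hF, add_mul, hρ]; ring
    have hFμ : μ ≤ F := by omega
    have hW2F : P.W2 ≤ F := by omega
    have hS2 : GS μ L' P.s (F + 1 - P.W2 + P.s) (F - P.W1 - P.s) := by
      refine GS_of (by omega) (by omega) (fun R₂ h1 h2 => hmed hb0 R₂ ?_ ?_)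
      · rw [haF]
        have h3 : a * (R₂ + P.W1) ≤ a * F := Nat.mul_le_mul_left a (by omega)
        rw [mul_add] at h3
        omega
      · rw [haF]
        have h3 : a * (F + 1) ≤ a * (R₂ + P.W2) := Nat.mul_le_mul_left a (by omega)
        rw [mul_add, mul_add] at h3
        omega
    have hS1 := hthin.smul hL2 hγ q hq
    have hS := hS1.add hL2 hγ hS2
    -- the position of `R`
    obtain ⟨v, hv⟩ : ∃ v, a * v = ρ + w + n + a ∧ R = q * μ + F + v := by
      have h1 : a * R = a * (q * μ + F) + (ρ + w + n + a) := by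
        rw [hRe]
        calc a * (k + μ + 1) = a * k + a * μ + a := by ring
          _ = (q * a + b) * μ + w + n + a * μ + a := by rw [hak]; nth_rewrite 1 [hn]; ring
          _ = a * (q * μ) + ((a + b) * μ) + w + n + a := by ring
          _ = a * (q * μ + F) + (ρ + w + n + a) := by rw [haF]; ring
      have h2 : q * μ + F ≤ R := by
        have h3 : a * (q * μ + F) ≤ a * R := by omega
        exact Nat.le_of_mul_le_mul_left h3 (by omega)
      obtain ⟨v, hv⟩ := Nat.exists_eq_add_of_le h2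
      refine ⟨v, ?_, hv⟩
      rw [hv, mul_add] at h1
      omega
    obtain ⟨hv1, hv2⟩ := hv
    have hv3 : q * (P.W1 + 1) + 1 ≤ v := by
      have h1 : a * (q * (P.W1 + 1) + 1) ≤ a * v := by
        rw [hv1]
        have h2 : a * (q * (P.W1 + 1) + 1) = q * a * P.W1 + q * a + a := by ring
        have h3 : q * a * P.W1 ≤ n * P.W1 := Nat.mul_le_mul_right _ (by omega)
        omega
      exact Nat.le_of_mul_le_mul_left h1 (by omega)
    have hv4 : v < (q + 1) * (P.W2 + 1) + 2 := by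
      have h1 : a * v < a * ((q + 1) * (P.W2 + 1) + 2) := by
        rw [hv1]
        have h2 : a * ((q + 1) * (P.W2 + 1) + 2) = (q * a + a) * (P.W2 + 1) + 2 * a := by ring
        have h3 : n * (P.W2 + 1) ≤ (q * a + a) * (P.W2 + 1) := Nat.mul_le_mul_right _ (by omega)
        have h4 : n * (P.W2 + 1) = n * P.W2 + n := by ring
        omega
      exact Nat.lt_of_mul_lt_mul_left h1
    refine hS.good ?_ ?_
    · have h1 : q * T0 ≤ q * (P.W1 + 1) := Nat.mul_le_mul_left _ (by omega)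
      have h2 : q * (μ + T0) = q * μ + q * T0 := by ring
      omega
    · have h1 : (q + 1) * (P.W2 + 1) + 1 + P.W1 ≤ q * T3 := by
        have h2 : (q + 1) * (P.W2 + 1) ≤ 2 * q * (P.W2 + 1) := Nat.mul_le_mul_right _ (by omega)
        have h3 : q * (2 * P.W2 + P.W1 + 4) ≤ q * T3 := Nat.mul_le_mul_left _ ht3
        have h4 : q * (2 * P.W2 + P.W1 + 4) = 2 * q * (P.W2 + 1) + q * P.W1 + 2 * q := by ring
        have h5 : 1 * P.W1 ≤ q * P.W1 := Nat.mul_le_mul_right _ hq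
        omega
      have h2 : q * (μ + T3) = q * μ + q * T3 := by ring
      omega

/-- the loss of the invariant at the upper number of points -/
theorem star_lt {n a k μ w W Z : ℕ} (ha : 1 ≤ a) (han : a + 1 ≤ n) (hak : a * k = n * μ + w + n)
    (hw : w ≤ n * W) (hWZ : W + 1 ≤ Z) (hμ : a * Z ≤ μ) (hμk : μ ≤ k) :
    Z * (k - μ) ≤ 4 * (n - a) * (μ * (μ + 1)) := by
  obtain ⟨δ, hδ, rfl⟩ : ∃ δ, 1 ≤ δ ∧ n = a + δ := ⟨n - a, by omega, by omega⟩
  obtain ⟨x, rfl⟩ : ∃ x, k = μ + x := ⟨k - μ, by omega⟩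
  have e1 : μ + x - μ = x := by omega
  have e2 : a + δ - a = δ := by omega
  rw [e1, e2]
  -- `a x = δ μ + w + n`
  have h1 : a * x = δ * μ + w + (a + δ) := by nlinarith
  have h2 : w + (a + δ) ≤ (a + δ) * Z := by
    calc w + (a + δ) ≤ (a + δ) * W + (a + δ) := by omega
      _ = (a + δ) * (W + 1) := by ring
      _ ≤ (a + δ) * Z := Nat.mul_le_mul_left _ hWZ
  have haδ : a + δ ≤ 2 * (a * δ) := by nlinarith
  -- `a x Z ≤ δ μ Z + (a + δ) Z Z ≤ 3 δ μ μ`
  have h3 : Z ≤ μ := by nlinarith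
  have h4 : (a + δ) * Z * Z ≤ 2 * δ * μ * μ := by
    calc (a + δ) * Z * Z ≤ 2 * (a * δ) * Z * Z := by gcongr
      _ = 2 * δ * (a * Z) * Z := by ring
      _ ≤ 2 * δ * μ * μ := by gcongr
  have h5 : a * (Z * x) ≤ 3 * δ * μ * μ := by
    calc a * (Z * x) = (a * x) * Z := by ring
      _ = (δ * μ + (w + (a + δ))) * Z := by rw [h1]; ring
      _ ≤ (δ * μ + (a + δ) * Z) * Z := by gcongr
      _ = δ * μ * Z + (a + δ) * Z * Z := by ring
      _ ≤ δ * μ * μ + 2 * δ * μ * μ := by gcongr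
      _ = 3 * δ * μ * μ := by ring
  have h6 : Z * x ≤ a * (Z * x) := Nat.le_mul_of_pos_left _ (by omega)
  calc Z * x ≤ 3 * δ * μ * μ := h6.trans h5
    _ ≤ 4 * δ * (μ * (μ + 1)) := by nlinarith [Nat.zero_le (δ * μ * μ), Nat.zero_le (δ * μ)]

theorem star_eq {n k μ w W Z : ℕ} (hn : 1 ≤ n) (hak : n * k = n * μ + w + n)
    (hw : w ≤ n * W) (hWZ : W + 1 ≤ Z) (hμ : Z ≤ μ) (hμk : μ ≤ k) :
    Z * (k - μ) ≤ 4 * n * (μ * (μ + 1)) := by
  obtain ⟨x, rfl⟩ : ∃ x, k = μ + x := ⟨k - μ, by omega⟩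
  have e1 : μ + x - μ = x := by omega
  rw [e1]
  have h1 : n * x ≤ n * (W + 1) := by nlinarith
  have h2 : x ≤ W + 1 := Nat.le_of_mul_le_mul_left h1 (by omega)
  calc Z * x ≤ μ * μ := Nat.mul_le_mul hμ (by omega)
    _ ≤ 1 * (μ * (μ + 1)) := by nlinarith
    _ ≤ 4 * n * (μ * (μ + 1)) := Nat.mul_le_mul_right _ (by omega)

theorem Par.medium {η : ℕ} (P : Par η) {n a k L R : ℕ} (ha : 1 ≤ a) (han : a ≤ n)
    (hk : n * P.Z + n ^ 2 * (P.W2 + 1) ≤ k)
    (hγ : k * (k + 1) * (P.Z + 4 * n * P.s) ≤ P.s * P.Z * L)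
    (h1 : n * R + n * P.W1 ≤ (n + a) * k) (h2 : (n + a) * k ≤ n * R + n * P.W2) :
    GE k L R := by
  induction n using Nat.strong_induction_on generalizing a k L R with
  | _ n ih =>
  have p1 := P.h1
  have p2 := P.h2
  have p3 := P.h3
  have p4 := P.hZ2
  have p5 := P.hs
  have hWZ : P.W2 + 1 ≤ P.Z := by omega
  have hZpos : 0 < P.Z := by omega
  have hnpos : 0 < n := by omega
  -- the new multiplicity
  obtain ⟨w, hw⟩ : ∃ w, (n + a) * k = n * R + w := ⟨(n + a) * k - n * R, by omega⟩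
  have hw1 : n * P.W1 ≤ w := by omega
  have hw2 : w ≤ n * P.W2 := by omega
  have hn2 : n ^ 2 * (P.W2 + 1) = n * (n * (P.W2 + 1)) := by ring
  have hakn : a * (n * P.Z + n ^ 2 * (P.W2 + 1)) ≤ a * k := Nat.mul_le_mul_left a hk
  have hnW : n * (P.W2 + 1) = n * P.W2 + n := by ring
  have hkR : k + 1 ≤ R := by
    have h3 : n * (k + 1) ≤ n * R := by
      have h4 : (n + a) * k = n * k + a * k := by ring
      have h5 : n * (P.W2 + 1) ≤ k := by
        calc n * (P.W2 + 1) ≤ n * (n * (P.W2 + 1)) := Nat.le_mul_of_pos_left _ hnpos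
          _ ≤ k := by omega
      have h6 : k ≤ a * k := Nat.le_mul_of_pos_left _ (by omega)
      have h7 : n * (k + 1) = n * k + n := by ring
      omega
    exact Nat.le_of_mul_le_mul_left h3 hnpos
  obtain ⟨μ, hRe⟩ : ∃ μ, R = k + μ + 1 := ⟨R - k - 1, by omega⟩
  have hak : a * k = n * μ + w + n := by
    rw [hRe] at hw
    nlinarith
  have hμk : μ ≤ k := by
    have h3 : n * μ ≤ n * k := by
      calc n * μ ≤ a * k := by omega
        _ ≤ n * k := Nat.mul_le_mul_right _ han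
    exact Nat.le_of_mul_le_mul_left h3 hnpos
  -- `μ ≥ a Z + (a n - 1) (W2 + 1)`
  have hμ0 : a * P.Z + (a * n - 1) * (P.W2 + 1) ≤ μ := by
    have h3 : n * (a * P.Z + (a * n - 1) * (P.W2 + 1)) ≤ n * μ := by
      obtain ⟨y, hy⟩ : ∃ y, a * n = y + 1 := ⟨a * n - 1, by
        have : 1 ≤ a * n := Nat.mul_pos (by omega) hnpos
        omega⟩
      rw [hy, Nat.add_sub_cancel]
      have h4 : a * (n * P.Z + n ^ 2 * (P.W2 + 1)) =
          n * (a * P.Z + y * (P.W2 + 1)) + n * (P.W2 + 1) := by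
        calc a * (n * P.Z + n ^ 2 * (P.W2 + 1))
            = n * (a * P.Z) + n * ((a * n) * (P.W2 + 1)) := by ring
          _ = _ := by rw [hy]; ring
      omega
    exact Nat.le_of_mul_le_mul_left h3 hnpos
  have haZ : a * P.Z ≤ μ := by omega
  have hμZ : P.Z ≤ μ := by
    calc P.Z ≤ a * P.Z := Nat.le_mul_of_pos_left _ (by omega)
      _ ≤ μ := haZ
  have hkpos : 0 < k := by omega
  have hKpos : 0 < k * (k + 1) := Nat.mul_pos hkpos (by omega)
  -- the division of `n` by `a`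
  set q := n / a with hq
  set b := n % a with hb
  have hnab : n = q * a + b := by
    rw [hq, hb, mul_comm]; exact (Nat.div_add_mod n a).symm
  have hba : b < a := Nat.mod_lt _ (by omega)
  have hq1 : 1 ≤ q := (Nat.one_le_div_iff (by omega)).mpr han
  -- the claim for a new state
  have key : ∀ L', μ * (μ + 1) ≤ P.s * L' →
      (1 ≤ b → μ * (μ + 1) * (P.Z + 4 * a * P.s) ≤ P.s * P.Z * L') → GE μ L' R := by
    intro L' g1 g2
    refine P.step ha hnab hba.le hq1 hRe hak hw1 hw2 hμZ g1 ?_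
    intro hb1 R₂ h3 h4
    have han' : a < n := by
      rcases Nat.lt_or_ge a n with h | h
      · exact h
      · have h5 : a = n := by omega
        rw [hb, h5, Nat.mod_self] at hb1
        omega
    refine ih a han' hb1 hba.le ?_ (g2 hb1) h3 h4
    -- `a Z + a ^ 2 (W2 + 1) ≤ μ`
    have h5 : a ^ 2 ≤ a * n - 1 := by
      have h6 : a * (a + 1) ≤ a * n := Nat.mul_le_mul_left a (by omega)
      have h7 : a * (a + 1) = a ^ 2 + a := by ring
      omega
    have h6 : a ^ 2 * (P.W2 + 1) ≤ (a * n - 1) * (P.W2 + 1) := Nat.mul_le_mul_right _ h5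
    omega
  -- the critical number of points
  set t := R * L / (k * (k + 1)) with ht
  have ht1 : t * (k * (k + 1)) ≤ R * L := Nat.div_mul_le_self _ _
  have ht2 : R * L < (t + 1) * (k * (k + 1)) := by
    have h3 := Nat.lt_div_mul_add (a := R * L) hKpos
    rw [← ht] at h3
    rw [add_mul, one_mul]
    exact h3
  obtain ⟨L₁, hL₁⟩ := exists_L' (L := L) hRe ht1 hμk
  have hg := gamma_mono hRe hL₁ ht1 hμk
  -- the invariant at the lower number of points
  have hinv : μ * (μ + 1) * (P.Z + 4 * n * P.s) ≤ P.s * P.Z * L₁ := by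
    have h3 : (k * (k + 1)) * (μ * (μ + 1) * (P.Z + 4 * n * P.s)) ≤
        (k * (k + 1)) * (P.s * P.Z * L₁) := by
      calc (k * (k + 1)) * (μ * (μ + 1) * (P.Z + 4 * n * P.s))
          = (k * (k + 1) * (P.Z + 4 * n * P.s)) * (μ * (μ + 1)) := by ring
        _ ≤ (P.s * P.Z * L) * (μ * (μ + 1)) := Nat.mul_le_mul_right _ hγ
        _ = P.s * P.Z * (L * (μ * (μ + 1))) := by ring
        _ ≤ P.s * P.Z * (L₁ * (k * (k + 1))) := Nat.mul_le_mul_left _ hg
        _ = (k * (k + 1)) * (P.s * P.Z * L₁) := by ring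
    exact Nat.le_of_mul_le_mul_left h3 hKpos
  have thin_of : ∀ L', μ * (μ + 1) * P.Z ≤ P.s * P.Z * L' → μ * (μ + 1) ≤ P.s * L' := by
    intro L' h3
    refine Nat.le_of_mul_le_mul_right ?_ hZpos
    calc μ * (μ + 1) * P.Z ≤ P.s * P.Z * L' := h3
      _ = P.s * L' * P.Z := by ring
  have hGE1 : GE μ L₁ R := by
    refine key L₁ (thin_of _ (le_trans ?_ hinv)) (fun _ => le_trans ?_ hinv)
    · exact Nat.mul_le_mul_left _ (by omega)
    · have : 4 * a * P.s ≤ 4 * n * P.s := by gcongr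
      exact Nat.mul_le_mul_left _ (by omega)
  -- the upper number of points
  have hstar : ∃ a', (a < n → a' = a) ∧ a' ≤ n ∧ Z_star P.Z k μ n a' := by
    rcases Nat.lt_or_ge a n with h | h
    · refine ⟨a, fun _ => rfl, han, ?_⟩
      exact star_lt ha h hak hw2 hWZ haZ hμk
    · have h5 : a = n := by omega
      refine ⟨0, fun h' => absurd h' (by omega), Nat.zero_le _, ?_⟩
      rw [h5] at hak
      have := star_eq (by omega) hak hw2 hWZ hμZ hμk
      unfold Z_star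
      rw [Nat.sub_zero]
      exact this
  obtain ⟨a', ha1, ha2, ha3⟩ := hstar
  unfold Z_star at ha3
  have hup : μ * (μ + 1) * (P.Z + 4 * a' * P.s) + P.s * P.Z * (k - μ) ≤ P.s * P.Z * L₁ := by
    have h3 : P.s * (P.Z * (k - μ)) ≤ P.s * (4 * (n - a') * (μ * (μ + 1))) :=
      Nat.mul_le_mul_left _ ha3
    have h4 : μ * (μ + 1) * (P.Z + 4 * n * P.s) =
        μ * (μ + 1) * (P.Z + 4 * a' * P.s) + P.s * (4 * (n - a') * (μ * (μ + 1))) := by
      obtain ⟨d, rfl⟩ : ∃ d, n = a' + d := ⟨n - a', by omega⟩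
      rw [Nat.add_sub_cancel_left]
      ring
    have h5 : P.s * P.Z * (k - μ) = P.s * (P.Z * (k - μ)) := by ring
    omega
  have hsZ : 0 < P.s * P.Z := Nat.mul_pos p5 hZpos
  have hL₁k : k - μ ≤ L₁ := by
    have h3 : P.s * P.Z * (k - μ) ≤ P.s * P.Z * L₁ := by omega
    exact Nat.le_of_mul_le_mul_left h3 hsZ
  obtain ⟨L₂, hL₂⟩ : ∃ L₂, L₁ = L₂ + (k - μ) := ⟨L₁ - (k - μ), by omega⟩
  have hinv2 : μ * (μ + 1) * (P.Z + 4 * a' * P.s) ≤ P.s * P.Z * L₂ := by
    have h3 : P.s * P.Z * (L₂ + (k - μ)) = P.s * P.Z * L₂ + P.s * P.Z * (k - μ) := by ring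
    rw [hL₂, h3] at hup
    exact Nat.le_of_add_le_add_right hup
  have hL₂' : L₂ + (t + 1) * k = L + (t + 1) * μ := by
    have e1 : (t + 1) * k = t * k + k := by ring
    have e2 : (t + 1) * μ = t * μ + μ := by ring
    omega
  have hGE2 : GE μ L₂ R := by
    refine key L₂ (thin_of _ (le_trans ?_ hinv2)) (fun hb1 => ?_)
    · exact Nat.mul_le_mul_left _ (by omega)
    · have han' : a < n := by
        rcases Nat.lt_or_ge a n with h | h
        · exact h
        · have h5 : a = n := by omega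
          rw [hb, h5, Nat.mod_self] at hb1
          omega
      rw [ha1 han'] at hinv2
      exact hinv2
  rw [← GP_zero]
  refine GP_of_two (t := t) ?_ ?_ ?_ ?_
  · rw [add_zero]
    have e1 : 2 * t * (k + 1).choose 2 = t * (k * (k + 1)) := by rw [← two_choose_succ k]; ring
    rw [e1]
    exact ht1
  · rw [add_zero]
    have e1 : 2 * (t + 1) * (k + 1).choose 2 = (t + 1) * (k * (k + 1)) := by
      rw [← two_choose_succ k]; ring
    rw [e1]
    exact ht2.le
  · rw [add_zero]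
    exact MR_of_transform_even hRe hL₁ (hGE1 t)
  · rw [add_zero]
    exact MR_of_transform_even hRe hL₂' (hGE2 (t + 1))

end Pool.Agent.Work.MP_0421d9_ag.LD
end

section
/-!
All heights are sums of heights of thin and medium strips.
-/

namespace Pool.Agent.Work.MP_0421d9_ag.LD

open MvPolynomial Module

theorem Par.mediumS {η : ℕ} (P : Par η) {n a k L : ℕ} (ha : 1 ≤ a) (han : a ≤ n)
    (hk : n * P.Z + n ^ 2 * (P.W2 + 1) ≤ k)
    (hγ : k * (k + 1) * (P.Z + 4 * n * P.s) ≤ P.s * P.Z * L) :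
    GS k L P.s (k + a * k / n + 1 - P.W2 + P.s) (k + a * k / n - P.W1 - P.s) := by
  have p1 := P.h1
  have p2 := P.h2
  have p3 := P.h3
  have p4 := P.hZ2
  have p5 := P.hs
  have hn : 0 < n := by omega
  have hkZ : P.Z ≤ k := by
    have : P.Z ≤ n * P.Z := Nat.le_mul_of_pos_left _ hn
    omega
  obtain ⟨d, ρ, hρ, hρa, hd⟩ : ∃ d ρ, a * k = n * d + ρ ∧ ρ < n ∧ a * k / n = d :=
    ⟨a * k / n, a * k % n, (Nat.div_add_mod _ _).symm, Nat.mod_lt _ hn, rfl⟩
  rw [hd]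
  obtain ⟨F, hF⟩ : ∃ F, F = k + d := ⟨_, rfl⟩
  rw [← hF]
  have hnF : (n + a) * k = n * F + ρ := by
    rw [hF, add_mul, hρ]; ring
  refine GS_of (by omega) (by omega) (fun R h1 h2 => P.medium ha han hk hγ ?_ ?_)
  · rw [hnF]
    have h3 : n * (R + P.W1) ≤ n * F := Nat.mul_le_mul_left n (by omega)
    rw [mul_add] at h3
    omega
  · rw [hnF]
    have h3 : n * (F + 1) ≤ n * (R + P.W2) := Nat.mul_le_mul_left n (by omega)
    rw [mul_add, mul_add] at h3
    omega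

/-- the condition on the invariant implies the one for thin strips -/
theorem Par.thin_cond {η : ℕ} (P : Par η) {x k L : ℕ}
    (hγ : k * (k + 1) * (P.Z + x * P.s) ≤ P.s * P.Z * L) : k * (k + 1) ≤ P.s * L := by
  have p1 := P.h1
  have p2 := P.h2
  have p3 := P.h3
  have p4 := P.hZ2
  have p5 := P.hs
  have hZpos : 0 < P.Z := by omega
  refine Nat.le_of_mul_le_mul_right ?_ hZpos
  calc k * (k + 1) * P.Z ≤ k * (k + 1) * (P.Z + x * P.s) := Nat.mul_le_mul_left _ (by omega)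
    _ ≤ P.s * P.Z * L := hγ
    _ = P.s * L * P.Z := by ring

/-- heights in an interval of length `2 k` -/
theorem Par.cover0 {η : ℕ} (P : Par η) {j M k L : ℕ} (hj : 1 ≤ j) (n : ℕ → ℕ)
    (hn : ∀ i < j, 1 ≤ n i ∧ n i ≤ M)
    (hcop : ∀ i < j, ∀ i' < j, i ≠ i' → Nat.Coprime (n i) (n i'))
    (hk : M * P.Z + M ^ 2 * (P.W2 + 1) ≤ k)
    (hγ : k * (k + 1) * (P.Z + 4 * M * P.s) ≤ P.s * P.Z * L)
    (hT : (j + 5) * ((2 * η + 1) * P.s) + j * (1 + P.s) ≤ j * P.W2)
    (hT' : j * (P.W1 + P.s + 1) ≤ P.W3 + 1)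
    (hP : k ≤ ∏ i ∈ Finset.range j, n i) {H : ℕ} (hH : (2 * j + 3) * k ≤ H)
    (hH' : H ≤ (2 * j + 5) * k) : GE k L H := by
  have p1 := P.h1
  have p2 := P.h2
  have p3 := P.h3
  have p4 := P.hZ2
  have p5 := P.hs
  have hM : 1 ≤ M := (hn 0 (by omega)).1.trans (hn 0 (by omega)).2
  have hkZ : P.Z ≤ k := by
    have : P.Z ≤ M * P.Z := Nat.le_mul_of_pos_left _ hM
    omega
  have hkpos : 0 < k := by omega
  have hγ1 := P.thin_cond hγ
  have hL2 : 2 ≤ L := by
    have := P.two_le hkZ hγ1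
    omega
  set Ψ := ∏ i ∈ Finset.range j, n i with hΨ
  have hqpos : 0 < Ψ := by omega
  -- the target
  set X := Ψ * H / k with hX
  have hX1 : X * k ≤ Ψ * H := Nat.div_mul_le_self _ _
  have hX2 : Ψ * H < (X + 1) * k := by
    have h3 := Nat.lt_div_mul_add (a := Ψ * H) hkpos
    rw [← hX] at h3
    rw [add_mul, one_mul]
    exact h3
  obtain ⟨a, ha, hsum⟩ := crt_sum n (fun i hi => (hn i hi).1) hcop X
  rw [← hΨ] at hsum
  set S := ∑ i ∈ Finset.range j, a i * (Ψ / n i) with hS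
  have hdvd : ∀ i < j, n i ∣ Ψ := fun i hi => Finset.dvd_prod_of_mem n (Finset.mem_range.mpr hi)
  have hS1 : S ≤ j * Ψ := by
    calc S ≤ ∑ i ∈ Finset.range j, Ψ := by
          refine Finset.sum_le_sum (fun i hi => ?_)
          rw [Finset.mem_range] at hi
          calc a i * (Ψ / n i) ≤ n i * (Ψ / n i) := Nat.mul_le_mul_right _ (ha i hi).2
            _ = Ψ := Nat.mul_div_cancel' (hdvd i hi)
      _ = j * Ψ := by rw [Finset.sum_const, Finset.card_range, smul_eq_mul]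
  have hX3 : (2 * j + 3) * Ψ ≤ X := by
    rw [hX, Nat.le_div_iff_mul_le hkpos]
    calc (2 * j + 3) * Ψ * k = Ψ * ((2 * j + 3) * k) := by ring
      _ ≤ Ψ * H := Nat.mul_le_mul_left _ hH
  have hX4 : X ≤ (2 * j + 5) * Ψ := by
    have h3 : X * k ≤ (2 * j + 5) * Ψ * k := by
      calc X * k ≤ Ψ * H := hX1
        _ ≤ Ψ * ((2 * j + 5) * k) := Nat.mul_le_mul_left _ hH'
        _ = (2 * j + 5) * Ψ * k := by ring
    exact Nat.le_of_mul_le_mul_right h3 hkpos
  have hSX : S ≤ X := by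
    calc S ≤ j * Ψ := hS1
      _ ≤ (2 * j + 3) * Ψ := Nat.mul_le_mul_right _ (by omega)
      _ ≤ X := hX3
  obtain ⟨Q, hQ⟩ : ∃ Q, X = S + Ψ * Q := by
    obtain ⟨Q, hQ⟩ := (Nat.modEq_iff_dvd' hSX).mp hsum
    exact ⟨Q, by omega⟩
  have hQ1 : j + 1 ≤ Q := by
    have h3 : Ψ * (j + 1) ≤ Ψ * Q := by
      have h4 : (2 * j + 3) * Ψ = j * Ψ + Ψ * (j + 1) + 2 * Ψ := by ring
      omega
    exact Nat.le_of_mul_le_mul_left h3 hqpos
  have hQ2 : Q ≤ 2 * j + 5 := by
    have h3 : Ψ * Q ≤ Ψ * (2 * j + 5) := by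
      have h4 : (2 * j + 5) * Ψ = Ψ * (2 * j + 5) := by ring
      omega
    exact Nat.le_of_mul_le_mul_left h3 hqpos
  obtain ⟨q, rfl⟩ : ∃ q, Q = q + j := ⟨Q - j, by omega⟩
  have hq1 : 1 ≤ q := by omega
  have hq2 : q ≤ j + 5 := by omega
  -- the intervals
  have hthin := (P.thinS hkZ hγ1).smul hL2 hγ1 q hq1
  have hmed := GS.sum hL2 hγ1 (x := fun i => k + a i * k / n i + 1 - P.W2 + P.s)
    (y := fun i => k + a i * k / n i - P.W1 - P.s) j hj (fun i hi => by
      refine P.mediumS (ha i hi).1 (ha i hi).2 ?_ ?_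
      · have h3 := (hn i hi).2
        have h4 : n i * P.Z ≤ M * P.Z := Nat.mul_le_mul_right _ h3
        have h5 : n i ^ 2 * (P.W2 + 1) ≤ M ^ 2 * (P.W2 + 1) :=
          Nat.mul_le_mul_right _ (Nat.pow_le_pow_left h3 2)
        omega
      · refine le_trans (Nat.mul_le_mul_left _ ?_) hγ
        have h3 := (hn i hi).2
        have h4 : 4 * n i * P.s ≤ 4 * M * P.s := by gcongr
        omega)
  have hall := hthin.add hL2 hγ1 hmed
  -- the fractional parts
  set e := fun i => a i * k % n i with he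
  have hdiv : ∀ i < j, k * (a i * (Ψ / n i)) = Ψ * (a i * k / n i) + (Ψ / n i) * e i := by
    intro i hi
    have h3 : n i * (a i * k / n i) + a i * k % n i = a i * k := Nat.div_add_mod _ _
    have h4 : n i * (Ψ / n i) = Ψ := Nat.mul_div_cancel' (hdvd i hi)
    calc k * (a i * (Ψ / n i)) = (Ψ / n i) * (a i * k) := by ring
      _ = (Ψ / n i) * (n i * (a i * k / n i) + a i * k % n i) := by rw [h3]
      _ = (n i * (Ψ / n i)) * (a i * k / n i) + (Ψ / n i) * e i := by rw [he]; ring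
      _ = _ := by rw [h4]
  set G := ∑ i ∈ Finset.range j, (a i * k / n i) with hG
  set Efrac := ∑ i ∈ Finset.range j, (Ψ / n i) * e i with hE
  have hkS : k * S = Ψ * G + Efrac := by
    rw [hS, hG, hE, Finset.mul_sum, Finset.mul_sum, ← Finset.sum_add_distrib]
    exact Finset.sum_congr rfl (fun i hi => hdiv i (Finset.mem_range.mp hi))
  have hE1 : Efrac ≤ j * Ψ := by
    calc Efrac ≤ ∑ i ∈ Finset.range j, Ψ := by
          refine Finset.sum_le_sum (fun i hi => ?_)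
          rw [Finset.mem_range] at hi
          calc (Ψ / n i) * e i ≤ (Ψ / n i) * n i :=
                Nat.mul_le_mul_left _ (Nat.mod_lt _ (by have := (hn i hi).1; omega)).le
            _ = Ψ := Nat.div_mul_cancel (hdvd i hi)
      _ = j * Ψ := by rw [Finset.sum_const, Finset.card_range, smul_eq_mul]
  -- `Ψ H = Ψ (q k + j k + G) + Efrac + (Ψ H - X k)`
  have hqH : Ψ * ((q + j) * k + G) + Efrac ≤ Ψ * H := by
    calc Ψ * ((q + j) * k + G) + Efrac = (Ψ * G + Efrac) + Ψ * (q + j) * k := by ring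
      _ = X * k := by rw [← hkS, hQ]; ring
      _ ≤ Ψ * H := hX1
  have hqH' : Ψ * H < Ψ * ((q + j) * k + G) + Efrac + k := by
    calc Ψ * H < (X + 1) * k := hX2
      _ = k * S + Ψ * (q + j) * k + k := by rw [hQ]; ring
      _ = Ψ * ((q + j) * k + G) + Efrac + k := by rw [hkS]; ring
  obtain ⟨v, hv⟩ : ∃ v, H = (q + j) * k + G + v := by
    have h3 : (q + j) * k + G ≤ H := by
      have h4 : Ψ * ((q + j) * k + G) ≤ Ψ * H := by omega
      exact Nat.le_of_mul_le_mul_left h4 hqpos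
    exact Nat.exists_eq_add_of_le h3
  have hvj : v ≤ j := by
    have h3 : Ψ * v < Ψ * (j + 1) := by
      have h4 : Ψ * H = Ψ * ((q + j) * k + G) + Ψ * v := by rw [hv]; ring
      have h5 : Ψ * (j + 1) = j * Ψ + Ψ := by ring
      omega
    have := Nat.lt_of_mul_lt_mul_left h3
    omega
  -- the bounds
  have hlow : ∑ i ∈ Finset.range j, (k + a i * k / n i + 1 - P.W2 + P.s) + j * P.W2 =
      j * k + G + j * (1 + P.s) := by
    have h3 : ∀ i ∈ Finset.range j, (k + a i * k / n i + 1 - P.W2 + P.s) + P.W2 =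
        k + a i * k / n i + (1 + P.s) := by
      intro i _
      generalize a i * k / n i = z
      omega
    calc ∑ i ∈ Finset.range j, (k + a i * k / n i + 1 - P.W2 + P.s) + j * P.W2
        = ∑ i ∈ Finset.range j, ((k + a i * k / n i + 1 - P.W2 + P.s) + P.W2) := by
          rw [Finset.sum_add_distrib (f := fun i => k + a i * k / n i + 1 - P.W2 + P.s),
            Finset.sum_const, Finset.card_range, smul_eq_mul]
      _ = ∑ i ∈ Finset.range j, (k + a i * k / n i + (1 + P.s)) := Finset.sum_congr rfl h3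
      _ = j * k + G + j * (1 + P.s) := by
          rw [Finset.sum_add_distrib, Finset.sum_add_distrib, hG]
          simp only [Finset.sum_const, Finset.card_range, smul_eq_mul]
  have hupp : ∑ i ∈ Finset.range j, (k + a i * k / n i - P.W1 - P.s) + j * (P.W1 + P.s) =
      j * k + G := by
    have h3 : ∀ i ∈ Finset.range j, (k + a i * k / n i - P.W1 - P.s) + (P.W1 + P.s) =
        k + a i * k / n i := by
      intro i _
      generalize a i * k / n i = z
      omega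
    calc ∑ i ∈ Finset.range j, (k + a i * k / n i - P.W1 - P.s) + j * (P.W1 + P.s)
        = ∑ i ∈ Finset.range j, ((k + a i * k / n i - P.W1 - P.s) + (P.W1 + P.s)) := by
          rw [Finset.sum_add_distrib (f := fun i => k + a i * k / n i - P.W1 - P.s),
            Finset.sum_const, Finset.card_range, smul_eq_mul]
      _ = ∑ i ∈ Finset.range j, (k + a i * k / n i) := Finset.sum_congr rfl h3
      _ = j * k + G := by
          rw [Finset.sum_add_distrib, hG]
          simp only [Finset.sum_const, Finset.card_range, smul_eq_mul]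
  have e1 : (q + j) * k = q * k + j * k := by ring
  refine hall.good ?_ ?_
  · have h3 : q * (k + (2 * η + 1) * P.s) = q * k + q * ((2 * η + 1) * P.s) := by ring
    have h4 : q * ((2 * η + 1) * P.s) ≤ (j + 5) * ((2 * η + 1) * P.s) :=
      Nat.mul_le_mul_right _ hq2
    omega
  · have h3 : q * (k + (P.W3 + 1 - P.s)) = q * k + q * (P.W3 + 1 - P.s) := by ring
    have h4 : 1 * (P.W3 + 1 - P.s) ≤ q * (P.W3 + 1 - P.s) := Nat.mul_le_mul_right _ hq1
    have h5 : j * (P.W1 + P.s + 1) = j * (P.W1 + P.s) + j := by ring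
    omega

theorem Par.cover {η : ℕ} (P : Par η) {j M k L : ℕ} (hj : 1 ≤ j) (n : ℕ → ℕ)
    (hn : ∀ i < j, 1 ≤ n i ∧ n i ≤ M)
    (hcop : ∀ i < j, ∀ i' < j, i ≠ i' → Nat.Coprime (n i) (n i'))
    (hk : M * P.Z + M ^ 2 * (P.W2 + 1) ≤ k)
    (hγ : k * (k + 1) * (P.Z + 4 * M * P.s) ≤ P.s * P.Z * L)
    (hT : (j + 5) * ((2 * η + 1) * P.s) + j * (1 + P.s) ≤ j * P.W2)
    (hT' : j * (P.W1 + P.s + 1) ≤ P.W3 + 1)
    (hP : k ≤ ∏ i ∈ Finset.range j, n i) {H : ℕ} (hH : (2 * j + 3) * k ≤ H) : GE k L H := by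
  have p1 := P.h1
  have p2 := P.h2
  have p3 := P.h3
  have p4 := P.hZ2
  have p5 := P.hs
  have hM : 1 ≤ M := (hn 0 (by omega)).1.trans (hn 0 (by omega)).2
  have hkZ : P.Z ≤ k := by
    have : P.Z ≤ M * P.Z := Nat.le_mul_of_pos_left _ hM
    omega
  have hγ1 := P.thin_cond hγ
  have hL2 : 2 ≤ L := by
    have := P.two_le hkZ hγ1
    omega
  have hthin := P.thinS hkZ hγ1
  induction H using Nat.strong_induction_on with
  | _ H ih =>
  rcases Nat.lt_or_ge ((2 * j + 5) * k) H with h | h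
  · have e1 : (2 * j + 5) * k = (2 * j + 3) * k + 2 * k := by ring
    refine strip_sum (p := 0) (by omega) hL2 hγ1
      (u := k + (2 * η + 1) * P.s - P.s) (v := k + (P.W3 + 1 - P.s) + P.s) ?_ ?_ ?_ ?_ ?_
    · have := hthin.1
      omega
    · omega
    · omega
    · intro R h1 h2
      exact hthin.good (by omega) (by omega)
    · intro R h1 h2
      rw [GP_zero]
      have := hthin.1
      exact ih R (by omega) (by omega)
  · exact P.cover0 hj n hn hcop hk hγ hT hT' hP hH h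

end Pool.Agent.Work.MP_0421d9_ag.LD
end

section
/-!
Maximal rank for all numbers of points, for one multiplicity.
-/

namespace Pool.Agent.Work.MP_0421d9_ag.LD

open MvPolynomial Module

theorem Par.level {η : ℕ} (P : Par η) {j M k L : ℕ} (hj : 1 ≤ j) (hM : 3 ≤ M) (n : ℕ → ℕ)
    (hn : ∀ i < j, 1 ≤ n i ∧ n i ≤ M)
    (hcop : ∀ i < j, ∀ i' < j, i ≠ i' → Nat.Coprime (n i) (n i'))
    (hk : M * P.Z + M ^ 2 * (P.W2 + 1) ≤ k)
    (hγ : k * (k + 1) * (P.Z + 4 * M * P.s) ≤ P.s * P.Z * L)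
    (hT : (j + 5) * ((2 * η + 1) * P.s) + j * (1 + P.s) ≤ j * P.W2)
    (hT' : j * (P.W1 + P.s + 1) ≤ P.W3 + 1)
    (hP : k ≤ ∏ i ∈ Finset.range j, n i) {H : ℕ} (hH : (2 * j + 5) * k ≤ H) (N : ℕ) :
    MR H L k N := by
  have p1 := P.h1
  have p2 := P.h2
  have p3 := P.h3
  have p4 := P.hZ2
  have p5 := P.hs
  have hcov := fun {H : ℕ} (hH : (2 * j + 3) * k ≤ H) =>
    P.cover hj n hn hcop hk hγ hT hT' hP (H := H) hH
  have hkZ : P.Z ≤ k := by
    have : P.Z ≤ M * P.Z := Nat.le_mul_of_pos_left _ (by omega)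
    omega
  have hγ1 := P.thin_cond hγ
  have hL2 : 2 ≤ L := by
    have := P.two_le hkZ hγ1
    omega
  have e1 : (2 * j + 5) * k = (2 * j + 3) * k + 2 * k := by ring
  rcases Nat.even_or_odd' N with ⟨t, rfl | rfl⟩
  · exact hcov (by omega) t
  · -- one strip with an even number of points, and a remainder of height about `3 k / 2`
    have hk1 : 2 * P.Z + 4 * (P.W2 + 1) ≤ k := by
      have h1 : 3 * P.Z ≤ M * P.Z := Nat.mul_le_mul_right _ hM
      have h2 : 3 ^ 2 * (P.W2 + 1) ≤ M ^ 2 * (P.W2 + 1) :=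
        Nat.mul_le_mul_right _ (Nat.pow_le_pow_left hM 2)
      omega
    have hγ2 : k * (k + 1) * (P.Z + 12 * P.s) ≤ P.s * P.Z * L := by
      refine le_trans (Nat.mul_le_mul_left _ ?_) hγ
      have h3 : 12 * P.s ≤ 4 * M * P.s := Nat.mul_le_mul_right _ (by omega)
      omega
    have hodd : GP 1 k L H := by
      refine strip_sum (p := 1) le_rfl hL2 hγ1 (u := H - (3 * k - 2 * P.W1) / 2)
        (v := H - (3 * k - 2 * P.W2 + 1) / 2) ?_ ?_ ?_ ?_ ?_
      · omega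
      · omega
      · omega
      · intro R h1 h2
        exact hcov (by omega)
      · intro R h1 h2
        rw [GP_one]
        exact P.odd hk1 hγ2 (by omega) (by omega)
    exact hodd t

end Pool.Agent.Work.MP_0421d9_ag.LD
end

section
/-!
The induction on the exponent.
-/

namespace Pool.Agent.Work.MP_0421d9_ag.LD

theorem QT_step {θ θ' : ℝ} (hθ : 0 < θ) (_hθ1 : θ ≤ 1) (h : θ / (1 + θ) < θ') (h' : θ' ≤ 1)
    (hQ : QT θ) : QT θ' :=
  QT_step_of_level
    (fun _η P _j _M _k _L hj hM n hn hcop hk hγ hT hT' hP _H hH N =>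
      P.level hj hM n hn hcop hk hγ hT hT' hP hH N)
    hθ h h' hQ

theorem QT_all (n : ℕ) (hn : 1 ≤ n) : QT (2 / ((n : ℝ) + 1)) := by
  induction n, hn using Nat.le_induction with
  | base =>
    have h := QT_base
    norm_num
    exact h
  | succ n hn ih =>
    have hn' : (1 : ℝ) ≤ n := by exact_mod_cast hn
    refine QT_step (θ := 2 / ((n : ℝ) + 1)) (by positivity) ?_ ?_ ?_ ih
    · rw [div_le_one (by positivity)]
      linarith
    · have e : 2 / ((n : ℝ) + 1) / (1 + 2 / ((n : ℝ) + 1)) = 2 / ((n : ℝ) + 3) := by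
        field_simp
        ring
      rw [e]
      push_cast
      apply div_lt_div_of_pos_left (by norm_num) (by positivity)
      linarith
    · push_cast
      rw [div_le_one (by positivity)]
      linarith

end Pool.Agent.Work.MP_0421d9_ag.LD
end

section
/-!
Strips of the plane with equal multiplicities: the position in the row.
-/

namespace Pool.Agent.Work.MP_0421d9_ag.LD

open MvPolynomial Module

/-- twice the number of monomials in `κ` rows -/
def F2 (D κ : ℤ) : ℤ := κ * (2 * D + 3) - κ ^ 2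

theorem F2_lt {D κ κ' : ℤ} (h : κ < κ') (h' : κ' ≤ D + 1) : F2 D κ < F2 D κ' := by
  unfold F2
  nlinarith [mul_pos (sub_pos.2 h) (show 0 < 2 * D + 3 - κ - κ' by linarith)]

theorem F2_succ (D κ : ℤ) : F2 D (κ + 1) = F2 D κ + 2 * (D - κ + 1) := by
  unfold F2
  ring

theorem F2_zero (D : ℤ) : F2 D 0 = 0 := by
  unfold F2
  ring

theorem row_exists {D c : ℤ} (hc : 0 ≤ c) (K : ℕ) (hK : c < F2 D K) :
    ∃ κ : ℕ, κ < K ∧ F2 D κ ≤ c ∧ c < F2 D (κ + 1) := by
  induction K with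
  | zero =>
    rw [Nat.cast_zero, F2_zero] at hK
    omega
  | succ n ih =>
    rcases lt_or_ge c (F2 D n) with h | h
    · obtain ⟨κ, h1, h2⟩ := ih h
      exact ⟨κ, by omega, h2⟩
    · push_cast at hK
      exact ⟨n, by omega, h, hK⟩

/-- three numbers in arithmetic progression cannot all be at the ends of rows -/
theorem ap_false {D a κ₀ κ₁ κ₂ c x e : ℤ} (ha : κ₁ = κ₀ + a) (h0 : 0 ≤ κ₀) (ha0 : 0 ≤ a)
    (h12 : κ₁ ≤ κ₂) (h2 : 4 * κ₂ ≤ D) (e0 : |c - F2 D κ₀| ≤ 2 * e)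
    (e1 : |c + 2 * x - F2 D κ₁| ≤ 2 * e) (e2 : |c + 4 * x - F2 D κ₂| ≤ 2 * e)
    (he : 4 * e < a ^ 2) (hD : 4 * a ^ 2 ≤ D) : False := by
  obtain ⟨m, hm⟩ : ∃ m, κ₂ = κ₀ + 2 * a + m := ⟨κ₂ - κ₀ - 2 * a, by ring⟩
  have key : F2 D κ₂ - 2 * F2 D κ₁ + F2 D κ₀ = m * (2 * D + 3 - (κ₂ + 2 * κ₁ - κ₀)) - 2 * a ^ 2 := by
    unfold F2
    rw [hm, ha]
    ring
  rw [abs_le] at e0 e1 e2
  have k1 : m * (2 * D + 3 - (κ₂ + 2 * κ₁ - κ₀)) ≤ 2 * a ^ 2 + 8 * e := by linarith
  have k2 : 2 * a ^ 2 - 8 * e ≤ m * (2 * D + 3 - (κ₂ + 2 * κ₁ - κ₀)) := by linarith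
  have k3 : D ≤ 2 * D + 3 - (κ₂ + 2 * κ₁ - κ₀) := by linarith
  have hD0 : 0 ≤ D := by nlinarith
  rcases lt_trichotomy m 0 with h | h | h
  · nlinarith
  · rw [h, zero_mul] at k2
    nlinarith
  · nlinarith

/-- one of three numbers in arithmetic progression is in the middle part of a row -/
theorem middle {D c x e α β : ℤ} {K Kl : ℕ} (hc : F2 D Kl ≤ c) (hK : c + 4 * x < F2 D K)
    (hKl : Kl ≤ K) (hKD : 4 * (K : ℤ) ≤ D) (hx : 0 ≤ x) (_he : 0 ≤ e)
    (hα : α * (2 * D + 3) ≤ 2 * x - 4 * e) (hα0 : 0 ≤ α) (hα2 : 4 * e < α ^ 2)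
    (hβ : 4 * x + 8 * e < 3 * D * (β + 1)) (hβ2 : 4 * β ^ 2 ≤ D) (hβ0 : 0 ≤ β)
    (hxe : 2 * e ≤ x) :
    ∃ (i κ : ℕ), i ≤ 2 ∧ Kl ≤ κ ∧ κ < K ∧ F2 D κ + 2 * e ≤ c + 2 * (i * x) ∧
      c + 2 * (i * x) + 2 * e ≤ F2 D (κ + 1) := by
  by_contra hcon
  push Not at hcon
  have hKl' : (Kl : ℤ) ≤ K := by exact_mod_cast hKl
  have hKl0 : (0 : ℤ) ≤ Kl := Nat.cast_nonneg _
  have hmono : ∀ κ κ' : ℤ, κ ≤ κ' → κ' ≤ D + 1 → F2 D κ ≤ F2 D κ' := by
    intro κ κ' h1 h2
    rcases h1.lt_or_eq with h3 | h3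
    · exact (F2_lt h3 h2).le
    · rw [h3]
  have hc0 : 0 ≤ c := by
    have h1 := hmono 0 Kl hKl0 (by linarith)
    rw [F2_zero] at h1
    linarith
  have near : ∀ i : ℕ, i ≤ 2 → ∃ κ : ℕ, κ ≤ K ∧ |c + 2 * (i * x) - F2 D κ| ≤ 2 * e := by
    intro i hi
    have hi' : (i : ℤ) ≤ 2 := by exact_mod_cast hi
    have hi0 : (0 : ℤ) ≤ i := Nat.cast_nonneg _
    have hix : (i : ℤ) * x ≤ 2 * x := mul_le_mul_of_nonneg_right hi' hx
    have hix0 : 0 ≤ (i : ℤ) * x := mul_nonneg hi0 hx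
    obtain ⟨κ, h1, h2, h3⟩ := row_exists (D := D) (c := c + 2 * (i * x)) (by linarith) K
      (by linarith)
    have h1' : (κ : ℤ) < K := by exact_mod_cast h1
    have h4 : Kl ≤ κ := by
      by_contra h5
      push Not at h5
      have h6 : ((κ : ℤ) + 1) ≤ Kl := by exact_mod_cast h5
      have h7 := hmono _ _ h6 (by linarith)
      linarith
    have h5 := hcon i κ hi h4 h1
    by_cases h6 : F2 D κ + 2 * e ≤ c + 2 * (i * x)
    · have h7 := h5 h6
      refine ⟨κ + 1, by omega, ?_⟩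
      push_cast
      rw [abs_le]
      constructor <;> linarith
    · push Not at h6
      refine ⟨κ, h1.le, ?_⟩
      rw [abs_le]
      constructor <;> linarith
  obtain ⟨κ₀, a0, b0⟩ := near 0 (by norm_num)
  obtain ⟨κ₁, a1, b1⟩ := near 1 (by norm_num)
  obtain ⟨κ₂, a2, b2⟩ := near 2 (by norm_num)
  have a0' : (κ₀ : ℤ) ≤ K := by exact_mod_cast a0
  have a1' : (κ₁ : ℤ) ≤ K := by exact_mod_cast a1
  have a2' : (κ₂ : ℤ) ≤ K := by exact_mod_cast a2
  have n0 : (0 : ℤ) ≤ κ₀ := Nat.cast_nonneg _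
  have n1 : (0 : ℤ) ≤ κ₁ := Nat.cast_nonneg _
  have n2 : (0 : ℤ) ≤ κ₂ := Nat.cast_nonneg _
  have c0 := abs_le.1 b0
  have c1 := abs_le.1 b1
  have c2 := abs_le.1 b2
  push_cast at b0 b1 b2 c0 c1 c2
  have h01 : (κ₀ : ℤ) ≤ κ₁ := by
    by_contra h
    push Not at h
    have h1 := F2_lt (D := D) h (by linarith)
    linarith
  have h12 : (κ₁ : ℤ) ≤ κ₂ := by
    by_contra h
    push Not at h
    have h1 := F2_lt (D := D) h (by linarith)
    linarith
  have hdiff : F2 D κ₁ - F2 D κ₀ = (κ₁ - κ₀) * (2 * D + 3 - (κ₁ + κ₀)) := by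
    unfold F2
    ring
  have hga : α ≤ (κ₁ : ℤ) - κ₀ := by
    by_contra h
    push Not at h
    have h1 : ((κ₁ : ℤ) - κ₀) * (2 * D + 3 - (κ₁ + κ₀)) ≤ (κ₁ - κ₀) * (2 * D + 3) := by
      apply mul_le_mul_of_nonneg_left _ (by linarith)
      linarith
    have h2 : ((κ₁ : ℤ) - κ₀) * (2 * D + 3) < α * (2 * D + 3) := by
      apply mul_lt_mul_of_pos_right h
      linarith
    linarith
  have hgb : (κ₁ : ℤ) - κ₀ ≤ β := by
    by_contra h
    push Not at h
    have h1 : (β + 1) * (3 * D) ≤ ((κ₁ : ℤ) - κ₀) * (3 * D) := by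
      apply mul_le_mul_of_nonneg_right _ (by linarith)
      linarith
    have h2 : ((κ₁ : ℤ) - κ₀) * (3 * D) ≤ ((κ₁ : ℤ) - κ₀) * (2 * (2 * D + 3 - (κ₁ + κ₀))) := by
      apply mul_le_mul_of_nonneg_left _ (by linarith)
      linarith
    linarith
  refine ap_false (D := D) (a := (κ₁ : ℤ) - κ₀) (κ₀ := κ₀) (κ₁ := κ₁) (κ₂ := κ₂) (c := c)
    (x := x) (e := e) (by ring) n0 (by linarith) h12 (by linarith) ?_ ?_ ?_ ?_ ?_
  · rw [abs_le]
    constructor <;> linarith
  · rw [abs_le]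
    constructor <;> linarith
  · rw [abs_le]
    constructor <;> linarith
  · refine hα2.trans_le ?_
    exact pow_le_pow_left₀ hα0 hga 2
  · refine le_trans ?_ hβ2
    have := pow_le_pow_left₀ (by linarith : (0 : ℤ) ≤ (κ₁ : ℤ) - κ₀) hgb 2
    linarith

end Pool.Agent.Work.MP_0421d9_ag.LD
end

section
/-!
Strips of the plane with equal multiplicities: the transformed systems.
-/

namespace Pool.Agent.Work.MP_0421d9_ag.LD

open MvPolynomial Module

/-- maximal rank on rectangles, with integral constants -/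
theorem QT_int : ∃ η C : ℕ, 9 ≤ η ∧ 1 ≤ C ∧ ∀ k H L N : ℕ, 1 ≤ k → η * k ≤ H →
    η * k ≤ L → C * k ^ 5 ≤ L ^ 3 → MR H L k N := by
  obtain ⟨η, C, hη, hC, h⟩ := QT_all 2 (by norm_num)
  obtain ⟨n, hn⟩ := exists_nat_ge (C ^ 3)
  refine ⟨η + 9, n, by omega, ?_, fun k H L N hk hH hL hCL => ?_⟩
  · have h1 : (1 : ℝ) ≤ C ^ 3 := one_le_pow₀ hC
    exact_mod_cast h1.trans hn
  · have h9 : η * k ≤ (η + 9) * k := Nat.mul_le_mul_right _ (by omega)
    refine h k H L N hk (h9.trans hH) (h9.trans hL) ?_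
    have hk0 : (0 : ℝ) ≤ k := Nat.cast_nonneg _
    have hC0 : (0 : ℝ) ≤ C := by linarith
    have h1 : (C * (k : ℝ) ^ (1 + 2 / ((2 : ℕ) + 1 : ℝ))) ^ 3 = C ^ 3 * (k : ℝ) ^ 5 := by
      rw [mul_pow, ← Real.rpow_natCast (((k : ℝ)) ^ (1 + 2 / ((2 : ℕ) + 1 : ℝ))) 3,
        ← Real.rpow_mul hk0, ← Real.rpow_natCast (k : ℝ) 5]
      norm_num
    have h2 : C ^ 3 * (k : ℝ) ^ 5 ≤ (L : ℝ) ^ 3 := by
      have h3 : ((n * k ^ 5 : ℕ) : ℝ) ≤ ((L ^ 3 : ℕ) : ℝ) := by exact_mod_cast hCL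
      push_cast at h3
      refine le_trans ?_ h3
      exact mul_le_mul_of_nonneg_right hn (by positivity)
    rw [← h1] at h2
    exact le_of_pow_le_pow_left₀ (by norm_num) (Nat.cast_nonneg _) h2

/-- the two systems with few rows -/
theorem strip_C2 {η C : ℕ}
    (hQ : ∀ k H L N : ℕ, 1 ≤ k → η * k ≤ H → η * k ≤ L → C * k ^ 5 ≤ L ^ 3 → MR H L k N)
    {D v t k κ A B H : ℕ} (ht : 1 ≤ t) (hk : 2 ≤ k) (hκ : κ = v + k) (hκD : κ + 1 ≤ D)
    (hηκ : η * k ≤ κ)
    (hA : 2 * (A : ℤ) + F2 D κ = (2 * t + 1) * (v * (v + 1)))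
    (hB : 2 * (B : ℤ) + (2 * t + 1) * (v * (v + 1)) = F2 D (κ + 1))
    (hH : H + t + v * (2 * t + 1) = D + κ * t + 1)
    (hH1 : η * k ≤ H) (hH2 : C * k ^ 5 ≤ H ^ 3) :
    hF D κ v (2 * t + 1) ≤ B ∧ hF D (κ - 1) v (2 * t + 1) = 0 := by
  have hκ' : (κ : ℤ) = v + k := by exact_mod_cast hκ
  have hH' : (H : ℤ) + t + v * (2 * t + 1) = D + κ * t + 1 := by exact_mod_cast hH
  constructor
  · have h1 := transform (D := D) (κ := κ) (m := v) (t := t) (H := H + t) (k := k) ht hκ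
      (by omega) hH
    have h2 := (hQ k (κ + 1) (H + t) (2 * t + 1) (by omega) (by omega) (by omega)
      (hH2.trans (Nat.pow_le_pow_left (by omega) 3))).swap
    rw [MR_iff_le] at h2
    refine h1.trans (h2.trans ?_)
    rw [Nat.sub_le_iff_le_add]
    have h3 := two_mul_choose k
    have h4 : (((H + t) * (κ + 1) : ℕ) : ℤ) ≤ ((B + (2 * t + 1) * (k + 1).choose 2 : ℕ) : ℤ) := by
      have h5 : (2 : ℤ) * (((k + 1).choose 2 : ℕ) : ℤ) = k * (k + 1) := by exact_mod_cast h3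
      push_cast
      have h6 : 2 * (((H : ℤ) + t) * (κ + 1)) =
          2 * (B : ℤ) + (2 * t + 1) * (2 * (((k + 1).choose 2 : ℕ) : ℤ)) := by
        rw [h5]
        have h7 : (H : ℤ) + t = D + κ * t + 1 - v * (2 * t + 1) := by linarith
        rw [h7]
        unfold F2 at hB
        have h8 : (k : ℤ) = κ - v := by linarith
        rw [h8]
        linear_combination (-1 : ℤ) * hB
      linarith
    exact_mod_cast h4
  · obtain ⟨j, rfl⟩ : ∃ j, k = j + 1 := ⟨k - 1, by omega⟩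
    have e0 : κ - 1 = v + j := by omega
    have h1 := transform (D := D) (κ := κ - 1) (m := v) (t := t) (H := H) (k := j) ht (by omega)
      (by omega) (by
        have e1 : κ * t = (κ - 1) * t + t := by
          obtain ⟨x, hx⟩ : ∃ x, κ = x + 1 := ⟨κ - 1, by omega⟩
          rw [hx, Nat.add_sub_cancel]
          ring
        omega)
    have e2 : κ - 1 + 1 = κ := by omega
    rw [e2] at h1
    have hj : η * j ≤ η * (j + 1) := Nat.mul_le_mul_left _ (by omega)
    have h2 := (hQ j κ H (2 * t + 1) (by omega) (by omega) (by omega)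
      ((Nat.mul_le_mul_left C (Nat.pow_le_pow_left (by omega) 5)).trans hH2)).swap
    have h3 := h2.emp (by
      have h3 := two_mul_choose j
      have h4 : ((H * κ : ℕ) : ℤ) ≤ (((2 * t + 1) * (j + 1).choose 2 : ℕ) : ℤ) := by
        have h5 : (2 : ℤ) * (((j + 1).choose 2 : ℕ) : ℤ) = j * (j + 1) := by exact_mod_cast h3
        push_cast
        have h6 : 2 * ((H : ℤ) * κ) + 2 * A =
            (2 * t + 1) * (2 * (((j + 1).choose 2 : ℕ) : ℤ)) := by
          rw [h5]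
          have h7 : (H : ℤ) = D + κ * t + 1 - v * (2 * t + 1) - t := by linarith
          rw [h7]
          unfold F2 at hA
          push_cast at hκ'
          have h8 : (j : ℤ) = κ - v - 1 := by linarith
          rw [h8]
          linear_combination hA
        have h9 : (0 : ℤ) ≤ A := Nat.cast_nonneg _
        linarith
      exact_mod_cast h4)
    omega

end Pool.Agent.Work.MP_0421d9_ag.LD
end

section
/-!
Strips of the plane with equal multiplicities: the numbers.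
-/

namespace Pool.Agent.Work.MP_0421d9_ag.LD

theorem exists_min_mul {a b : ℕ} (ha : 1 ≤ a) (hb : 1 ≤ b) : ∃ s, b ≤ s * a ∧ s * a < b + a := by
  refine ⟨(b - 1) / a + 1, ?_, ?_⟩
  · have h1 := Nat.lt_mul_div_succ (b - 1) (by omega : 0 < a)
    have h2 : a * ((b - 1) / a + 1) = ((b - 1) / a + 1) * a := by ring
    omega
  · have h1 := Nat.div_mul_le_self (b - 1) a
    have h2 : ((b - 1) / a + 1) * a = (b - 1) / a * a + a := by ring
    omega

theorem exists_above {a b : ℕ} (ha : 1 ≤ a) : ∃ k, b < a * k ∧ a * k ≤ b + a := by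
  refine ⟨b / a + 1, Nat.lt_mul_div_succ b (by omega), ?_⟩
  have h1 := Nat.mul_div_le b a
  rw [mul_add, mul_one]
  omega

/-- the sizes of the numbers -/
theorem C2_sizes {η p D v w : ℕ} (hη : 9 ≤ η) (hp : 1 ≤ p)
    (hv : 10 ^ 7 * η ^ 3 * p ^ 6 ≤ v) (hD : D ≤ 8 * v * (v + 1)) (hvD : v ^ 2 ≤ 4 * p ^ 2 * D)
    (hw : w = Nat.sqrt D) :
    10 ^ 7 * η ^ 2 ≤ v ∧ 10 ^ 6 * η * p ^ 2 ≤ v ∧ 10 ^ 6 * v ≤ D ∧ w ^ 2 ≤ D ∧ D < (w + 1) ^ 2 ∧
      w ≤ 3 * v ∧ 10 ^ 5 * η * p ^ 2 ≤ w := by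
  have hη3 : η ^ 2 ≤ η ^ 3 := Nat.pow_le_pow_right (by omega) (by norm_num)
  have hη1 : η ≤ η ^ 3 := by
    calc η = η ^ 1 := (pow_one η).symm
      _ ≤ η ^ 3 := Nat.pow_le_pow_right (by omega) (by norm_num)
  have hp6 : p ^ 2 ≤ p ^ 6 := Nat.pow_le_pow_right hp (by norm_num)
  have hp63 : p ^ 3 ≤ p ^ 6 := Nat.pow_le_pow_right hp (by norm_num)
  have hp61 : 1 ≤ p ^ 6 := Nat.one_le_pow _ _ hp
  have g1 : 10 ^ 7 * η ^ 2 ≤ v := by
    calc 10 ^ 7 * η ^ 2 ≤ 10 ^ 7 * η ^ 3 * 1 := by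
          rw [mul_one]
          exact Nat.mul_le_mul_left _ hη3
      _ ≤ 10 ^ 7 * η ^ 3 * p ^ 6 := Nat.mul_le_mul_left _ hp61
      _ ≤ v := hv
  have g2 : 10 ^ 7 * η * p ^ 2 ≤ v := by
    calc 10 ^ 7 * η * p ^ 2 ≤ 10 ^ 7 * η ^ 3 * p ^ 6 :=
          Nat.mul_le_mul (Nat.mul_le_mul_left _ hη1) hp6
      _ ≤ v := hv
  have g2' : 10 ^ 7 * η * p ^ 3 ≤ v := by
    calc 10 ^ 7 * η * p ^ 3 ≤ 10 ^ 7 * η ^ 3 * p ^ 6 :=
          Nat.mul_le_mul (Nat.mul_le_mul_left _ hη1) hp63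
      _ ≤ v := hv
  have g3 : 10 ^ 6 * v ≤ D := by
    have h1 : 4 * p ^ 2 * (10 ^ 6 * v) ≤ 4 * p ^ 2 * D := by
      refine le_trans ?_ hvD
      have h2 : 10 ^ 7 * p ^ 2 ≤ v := by
        refine le_trans ?_ g2
        calc 10 ^ 7 * p ^ 2 = 10 ^ 7 * 1 * p ^ 2 := by ring
          _ ≤ 10 ^ 7 * η * p ^ 2 := Nat.mul_le_mul_right _ (Nat.mul_le_mul_left _ (by omega))
      calc 4 * p ^ 2 * (10 ^ 6 * v) = 4 * 10 ^ 6 * p ^ 2 * v := by ring
        _ ≤ v * v := Nat.mul_le_mul_right _ (by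
            refine le_trans ?_ h2
            exact Nat.mul_le_mul_right _ (by norm_num))
        _ = v ^ 2 := by ring
    exact Nat.le_of_mul_le_mul_left h1 (by positivity)
  have g4 : w ^ 2 ≤ D := by
    rw [hw, pow_two]
    exact Nat.sqrt_le D
  have g5 : D < (w + 1) ^ 2 := by
    rw [hw, pow_two]
    exact Nat.lt_succ_sqrt D
  have hv8 : 8 ≤ v := by
    have : 1 ≤ η ^ 2 := Nat.one_le_pow _ _ (by omega)
    omega
  have g6 : w ≤ 3 * v := by
    by_contra h
    push Not at h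
    nlinarith
  have g2'' : 10 ^ 6 * η * p ^ 2 ≤ v := by
    refine le_trans ?_ g2
    exact Nat.mul_le_mul_right _ (Nat.mul_le_mul_right _ (by norm_num))
  refine ⟨g1, g2'', g3, g4, g5, g6, ?_⟩
  by_contra h
  push Not at h
  have h1 : (w + 1) ^ 2 ≤ (10 ^ 5 * η * p ^ 2) ^ 2 := Nat.pow_le_pow_left (by omega) 2
  have h2 : v ^ 2 < (2 * p * (10 ^ 5 * η * p ^ 2)) ^ 2 := by
    calc v ^ 2 ≤ 4 * p ^ 2 * D := hvD
      _ < 4 * p ^ 2 * (w + 1) ^ 2 := Nat.mul_lt_mul_of_pos_left g5 (by positivity)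
      _ ≤ 4 * p ^ 2 * (10 ^ 5 * η * p ^ 2) ^ 2 := Nat.mul_le_mul_left _ h1
      _ = (2 * p * (10 ^ 5 * η * p ^ 2)) ^ 2 := by ring
  have h3 : v < 2 * p * (10 ^ 5 * η * p ^ 2) := lt_of_pow_lt_pow_left₀ 2 (Nat.zero_le _) h2
  have h4 : 2 * p * (10 ^ 5 * η * p ^ 2) = 2 * 10 ^ 5 * η * p ^ 3 := by ring
  have h5 : 2 * 10 ^ 5 * η * p ^ 3 ≤ 10 ^ 7 * η * p ^ 3 :=
    Nat.mul_le_mul_right _ (Nat.mul_le_mul_right _ (by norm_num))
  omega

theorem F2_low {D κ : ℤ} (h0 : 0 ≤ κ) (h : 4 * κ ≤ D) : 7 * D * κ ≤ 4 * F2 D κ := by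
  unfold F2
  nlinarith

/-- the number of points and the number of rows -/
theorem C2_position {η p D v : ℕ} (hη : 9 ≤ η) (hp : 1 ≤ p)
    (hv : 10 ^ 7 * η ^ 3 * p ^ 6 ≤ v) (hD : D ≤ 8 * v * (v + 1)) (hvD : v ^ 2 ≤ 4 * p ^ 2 * D) :
    ∃ t κ e : ℕ, 1 ≤ t ∧ v < 2 * η * (κ - v) ∧ v ≤ κ ∧ η * (κ - v) ≤ v ∧ 4 * κ + 4 ≤ D ∧
      F2 D κ + 2 * e ≤ (2 * t + 1) * (v * (v + 1)) ∧
      (2 * t + 1) * (v * (v + 1)) + 2 * e ≤ F2 D (κ + 1) ∧ 4 * D ≤ 256 * (200 * η) ^ 2 * e := by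
  obtain ⟨w, hw⟩ : ∃ w, w = Nat.sqrt D := ⟨_, rfl⟩
  obtain ⟨g1, g2, g3, g4, g5, g6, g7⟩ := C2_sizes hη hp hv hD hvD hw
  have hp2 : 1 ≤ p ^ 2 := Nat.one_le_pow _ _ hp
  have hηp : η ≤ η * p ^ 2 := Nat.le_mul_of_pos_right _ (by omega)
  have hpη : p ^ 2 ≤ η * p ^ 2 := Nat.le_mul_of_pos_left _ (by omega)
  have g2' : 10 ^ 6 * (η * p ^ 2) ≤ v := by rw [← mul_assoc]; exact g2
  have g7' : 10 ^ 5 * (η * p ^ 2) ≤ w := by rw [← mul_assoc]; exact g7
  obtain ⟨k0, hk0, hk0'⟩ := exists_above (a := 2 * η) (b := v) (by omega)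
  obtain ⟨wq, hwq, hwq'⟩ := exists_above (a := 200 * η) (b := w) (by omega)
  obtain ⟨α, hα, hα'⟩ := exists_above (a := 400 * η) (b := w) (by omega)
  -- the quantities
  obtain ⟨Δ, hΔ⟩ : ∃ Δ, Δ = 11 * p ^ 2 + 6 * wq := ⟨_, rfl⟩
  obtain ⟨Kl, hKl⟩ : ∃ Kl, Kl = v + k0 := ⟨_, rfl⟩
  have hk0v : k0 ≤ v := by
    have h1 : 18 * k0 ≤ v + 2 * η := by
      calc 18 * k0 ≤ 2 * η * k0 := Nat.mul_le_mul_right _ (by omega)
        _ ≤ _ := hk0'
    omega
  have hwqv : 6 * wq + 11 * p ^ 2 ≤ v := by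
    have h1 : 1800 * wq ≤ w + 200 * η := by
      calc 1800 * wq ≤ 200 * η * wq := Nat.mul_le_mul_right _ (by omega)
        _ ≤ _ := hwq'
    omega
  have hK4 : 4 * (Kl + Δ) + 4 ≤ D := by omega
  -- position of the base point
  obtain ⟨Y, hY⟩ : ∃ Y, Y = v * (v + 1) := ⟨_, rfl⟩
  have hY1 : 1 ≤ Y := by
    rw [hY]
    exact Nat.mul_pos (by omega) (by omega)
  have hYv : Y ≤ 2 * v ^ 2 := by
    rw [hY]
    nlinarith
  have hYD : Y ≤ 8 * p ^ 2 * D := by
    have : 8 * p ^ 2 * D = 2 * (4 * p ^ 2 * D) := by ring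
    omega
  have hF : (7 : ℤ) * D * Kl ≤ 4 * F2 D Kl := F2_low (Nat.cast_nonneg _) (by
    have : 4 * Kl ≤ D := by omega
    exact_mod_cast this)
  obtain ⟨n, hn⟩ : ∃ n : ℕ, (n : ℤ) = F2 D Kl := by
    have h1 : (0 : ℤ) ≤ 7 * D * Kl := by positivity
    exact ⟨(F2 D Kl).toNat, Int.toNat_of_nonneg (by linarith)⟩
  have hnY : 3 * Y < n := by
    have h1 : 7 * D * Kl ≤ 4 * n := by
      rw [← hn] at hF
      exact_mod_cast hF
    have h2 : 7 * (10 ^ 6 * v) * v ≤ 7 * D * Kl := Nat.mul_le_mul (by omega) (by omega)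
    nlinarith
  obtain ⟨t0, ht0, ht0'⟩ := exists_min_mul (a := 2 * Y) (b := n - Y) (by omega) (by omega)
  have hDw : 1 ≤ D * w := Nat.mul_pos (by omega) (by omega)
  obtain ⟨s, hs, hs'⟩ := exists_min_mul (a := Y * (200 * η)) (b := D * w)
    (Nat.mul_pos hY1 (by omega)) hDw
  obtain ⟨x, hx⟩ : ∃ x, x = s * Y := ⟨_, rfl⟩
  have x1 : D * w ≤ 200 * (η * x) := by
    refine hs.trans (le_of_eq ?_)
    rw [hx]
    ring
  have x0 : Y * (200 * η) ≤ D * w := by
    calc Y * (200 * η) ≤ 8 * p ^ 2 * D * (200 * η) := Nat.mul_le_mul_right _ hYD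
      _ = D * (1600 * (η * p ^ 2)) := by ring
      _ ≤ D * w := Nat.mul_le_mul_left _ (by omega)
  have x2 : 200 * (η * x) < 2 * (D * w) := by
    have h1 : s * (Y * (200 * η)) = 200 * (η * x) := by
      rw [hx]
      ring
    omega
  have x4 : x < 2 * (D * wq) := by
    have h1 : D * w ≤ D * (200 * η * wq) := Nat.mul_le_mul_left _ hwq.le
    have h2 : 200 * η * x < 200 * η * (2 * (D * wq)) := by
      calc 200 * η * x = 200 * (η * x) := by ring
        _ < 2 * (D * w) := x2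
        _ ≤ 2 * (D * (200 * η * wq)) := Nat.mul_le_mul_left _ h1
        _ = 200 * η * (2 * (D * wq)) := by ring
    exact Nat.lt_of_mul_lt_mul_left h2
  -- the margin
  have hη2 : 1 ≤ η ^ 2 := Nat.one_le_pow _ _ (by omega)
  have hq2 : (200 * η) ^ 2 = 40000 * η ^ 2 := by ring
  obtain ⟨e, he1, he2⟩ : ∃ e, 32 * (200 * η) ^ 2 * e ≤ D ∧ D < 32 * (200 * η) ^ 2 * (e + 1) :=
    ⟨D / (32 * (200 * η) ^ 2), Nat.mul_div_le D _, Nat.lt_mul_div_succ D (by positivity)⟩
  have he0 : 1 ≤ e := by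
    by_contra h
    have h1 : e = 0 := by omega
    rw [h1, hq2] at he2
    omega
  have he3 : 4 * D ≤ 256 * (200 * η) ^ 2 * e := by
    have h1 : 32 * (200 * η) ^ 2 * (e + 1) ≤ 32 * (200 * η) ^ 2 * (2 * e) :=
      Nat.mul_le_mul_left _ (by omega)
    have h2 : 256 * (200 * η) ^ 2 * e = 4 * (32 * (200 * η) ^ 2 * (2 * e)) := by ring
    omega
  have he4 : 32 * e ≤ D := by
    refine le_trans ?_ he1
    exact Nat.mul_le_mul_right _ (Nat.le_mul_of_pos_right _ (by positivity))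
  have hx500 : 500 * D ≤ x := by
    have h1 : 200 * η * (500 * D) ≤ 200 * η * x := by
      calc 200 * η * (500 * D) = D * (10 ^ 5 * η) := by ring
        _ ≤ D * w := Nat.mul_le_mul_left _ (by omega)
        _ ≤ 200 * (η * x) := x1
        _ = 200 * η * x := by ring
    exact Nat.le_of_mul_le_mul_left h1 (by omega)
  -- the three numbers of points
  have hc1 : n ≤ (2 * t0 + 1) * Y := by
    have : (2 * t0 + 1) * Y = t0 * (2 * Y) + Y := by ring
    omega
  have hc2 : (2 * t0 + 1) * Y < n + 2 * Y := by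
    have : (2 * t0 + 1) * Y = t0 * (2 * Y) + Y := by ring
    omega
  have ht1 : 1 ≤ t0 := by
    by_contra h
    have h1 : t0 = 0 := by omega
    rw [h1, Nat.zero_mul] at ht0
    omega
  have m1 : (n : ℤ) ≤ ((2 * t0 + 1) * Y : ℕ) := by exact_mod_cast hc1
  have m2 : (((2 * t0 + 1) * Y : ℕ) : ℤ) < n + 2 * Y := by exact_mod_cast hc2
  have hK : (((2 * t0 + 1) * Y : ℕ) : ℤ) + 4 * x < F2 D ((Kl + Δ : ℕ) : ℤ) := by
    have h1 : F2 D ((Kl + Δ : ℕ) : ℤ) = F2 D Kl + Δ * (2 * D + 3 - (2 * Kl + Δ)) := by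
      unfold F2
      push_cast
      ring
    have h2 : (3 : ℤ) * D * Δ ≤ 2 * (Δ * (2 * D + 3 - (2 * Kl + Δ))) := by
      have h3 : (3 : ℤ) * D ≤ 2 * (2 * D + 3 - (2 * Kl + Δ)) := by
        have h4 : 4 * Kl + 2 * Δ ≤ D := by omega
        have h5 : ((4 : ℤ) * Kl + 2 * Δ) ≤ D := by exact_mod_cast h4
        linarith
      calc (3 : ℤ) * D * Δ ≤ 2 * (2 * D + 3 - (2 * Kl + Δ)) * Δ :=
            mul_le_mul_of_nonneg_right h3 (Nat.cast_nonneg _)
        _ = _ := by ring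
    have h3 : 4 * Y + 8 * x < 3 * D * Δ := by
      have h4 : 3 * D * Δ = 33 * (p ^ 2 * D) + 18 * (D * wq) := by
        rw [hΔ]
        ring
      have h5 : 8 * p ^ 2 * D = 8 * (p ^ 2 * D) := by ring
      have h6 : D ≤ p ^ 2 * D := Nat.le_mul_of_pos_left _ (by omega)
      omega
    have h4 : (4 : ℤ) * Y + 8 * x < 3 * D * Δ := by exact_mod_cast h3
    rw [h1, ← hn]
    linarith
  obtain ⟨i, κ, hi, b1, b2, b3, b4⟩ := middle (D := D) (c := ((2 * t0 + 1) * Y : ℕ)) (x := x)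
    (e := e) (α := α) (β := 3 * wq) (K := Kl + Δ) (Kl := Kl) (by rw [← hn]; exact m1) hK
    (by omega) (by
      have h1 : 4 * (Kl + Δ) ≤ D := by omega
      exact_mod_cast h1) (Nat.cast_nonneg _) (Nat.cast_nonneg _) (by
      -- the lower bound for the number of rows
      have h1 : 400 * η * (α * (2 * D + 3) + 4 * e) ≤ 400 * η * (2 * x) := by
        have h2 : 400 * η * α * (2 * D + 3) ≤ (w + 400 * η) * (2 * D + 3) :=
          Nat.mul_le_mul_right _ hα'
        have h3 : 3 * w ≤ D * w := Nat.mul_le_mul_right _ (by omega)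
        have h4 : 10 ^ 5 * (η * D) ≤ D * w := by
          calc 10 ^ 5 * (η * D) = D * (10 ^ 5 * η) := by ring
            _ ≤ D * w := Nat.mul_le_mul_left _ (by omega)
        have h5 : η * e ≤ η * D := Nat.mul_le_mul_left _ (by omega)
        have h6 : η ≤ η * D := Nat.le_mul_of_pos_right _ (by omega)
        have h7 : 400 * η * (α * (2 * D + 3) + 4 * e) =
            400 * η * α * (2 * D + 3) + 1600 * (η * e) := by ring
        have h8 : (w + 400 * η) * (2 * D + 3) = 2 * (D * w) + 3 * w + 800 * (η * D) + 1200 * η := by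
          ring
        have h9 : 400 * η * (2 * x) = 4 * (200 * (η * x)) := by ring
        omega
      have h2 : α * (2 * D + 3) + 4 * e ≤ 2 * x := Nat.le_of_mul_le_mul_left h1 (by omega)
      have h3 : (α : ℤ) * (2 * D + 3) + 4 * e ≤ 2 * x := by exact_mod_cast h2
      linarith) (Nat.cast_nonneg _) (by
      have h1 : (w + 1) ^ 2 ≤ (400 * η * α) ^ 2 := Nat.pow_le_pow_left (by omega) 2
      have h2 : 160000 * η ^ 2 * (8 * e) < 160000 * η ^ 2 * α ^ 2 := by
        calc 160000 * η ^ 2 * (8 * e) = 32 * (200 * η) ^ 2 * e := by ring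
          _ ≤ D := he1
          _ < (w + 1) ^ 2 := g5
          _ ≤ (400 * η * α) ^ 2 := h1
          _ = 160000 * η ^ 2 * α ^ 2 := by ring
      have h3 : 8 * e < α ^ 2 := Nat.lt_of_mul_lt_mul_left h2
      have h4 : 4 * e < α ^ 2 := by omega
      exact_mod_cast h4) (by
      have h1 : 4 * x + 8 * e < 3 * D * (3 * wq + 1) := by
        have h2 : 3 * D * (3 * wq + 1) = 9 * (D * wq) + 3 * D := by ring
        omega
      exact_mod_cast h1) (by
      have h1 : 200 * η * wq ≤ 2 * w := by omega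
      have h2 : (200 * η * wq) ^ 2 ≤ (2 * w) ^ 2 := Nat.pow_le_pow_left h1 2
      have h3 : (200 * η * wq) ^ 2 = 40000 * (η ^ 2 * wq ^ 2) := by ring
      have h4 : (2 * w) ^ 2 = 4 * w ^ 2 := by ring
      have h5 : wq ^ 2 ≤ η ^ 2 * wq ^ 2 := Nat.le_mul_of_pos_left _ (by omega)
      have h6 : 4 * (3 * wq) ^ 2 ≤ D := by
        have h7 : 4 * (3 * wq) ^ 2 = 36 * wq ^ 2 := by ring
        omega
      exact_mod_cast h6) (by positivity) (by
      have h1 : 2 * e ≤ x := by omega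
      exact_mod_cast h1)
  have hcount : ((2 * (t0 + i * s) + 1) * Y : ℕ) = (2 * t0 + 1) * Y + 2 * (i * x) := by
    rw [hx]
    ring
  have hcount' : ((2 * ((t0 + i * s : ℕ) : ℤ) + 1) * (v * (v + 1))) =
      (((2 * t0 + 1) * Y : ℕ) : ℤ) + 2 * (i * x) := by
    have hYz : (Y : ℤ) = v * (v + 1) := by
      rw [hY]
      push_cast
      ring
    have h1 : (((2 * (t0 + i * s) + 1) * Y : ℕ) : ℤ) = (((2 * t0 + 1) * Y + 2 * (i * x) : ℕ) : ℤ) :=
      congrArg _ hcount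
    rw [← hYz]
    exact_mod_cast h1
  refine ⟨t0 + i * s, κ, e, by omega, ?_, by omega, ?_, by omega, ?_, ?_, he3⟩
  · refine lt_of_lt_of_le hk0 (Nat.mul_le_mul_left _ ?_)
    omega
  · have h1 : κ - v ≤ k0 + Δ := by omega
    have h2 : η * (κ - v) ≤ η * (k0 + Δ) := Nat.mul_le_mul_left _ h1
    have h3 : η * (k0 + Δ) = η * k0 + 11 * (η * p ^ 2) + 6 * (η * wq) := by
      rw [hΔ]
      ring
    have h4 : 2 * η * k0 = 2 * (η * k0) := by ring
    have h5 : 200 * η * wq = 200 * (η * wq) := by ring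
    omega
  · rw [hcount']
    exact b3
  · rw [hcount']
    exact b4

end Pool.Agent.Work.MP_0421d9_ag.LD
end

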