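import Mathlib

section
/-!
Arbitrary multiplicities in degree at least `C M ^ (1 + ε)`: further inequalities for the leaves of
the path in the plane.
-/

namespace Pool.Agent.Work.MP_0421d9_ag.LD

/-- no pool is available, multiplicities beyond the threshold; `Sτ` is the sum of the
multiplicities up to the threshold -/
theorem leaf_num2' {TP J G c D D' S₀ Y τ V₀ Sτ Yτ : ℕ} (hG : 1 ≤ G) (hJ : 1 ≤ J)
    (hD0 : 1 ≤ D) (hDD : D' ≤ D) (hYS : Y + Sτ = Yτ + S₀) (hYτ : Yτ ≤ J * (8 * D))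
    (hY : TP * ((τ + 1) * Y) ≤ TP * ((τ + 1) * (J * (8 * D))) + TP * D ^ 2 + 6 * c ^ 2)
    (hV : G * (TP * (500 * J * D * (τ + 1) + 50 * D ^ 2) + 400 * (c + 1) ^ 2 * (τ + 1)) ≤
      TP * ((G * V₀ + Sτ) * (τ + 1))) :
    G * (TP * (48 * Y + 5 * D' + 2)) + 21 * (G * (c + 1) ^ 2) + TP * Y <
      TP * (G * V₀) + TP * S₀ := by
  have h1 : G * (TP * (48 * Y + 5 * D' + 2)) + 21 * (G * (c + 1) ^ 2) + TP * Yτ <
      TP * (G * V₀ + Sτ) := by
    have h2 : (τ + 1) * (G * (TP * (48 * Y + 5 * D' + 2)) + 21 * (G * (c + 1) ^ 2) + TP * Yτ) <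
        (τ + 1) * (TP * (G * V₀ + Sτ)) := by
      have e1 : (τ + 1) * (G * (TP * (48 * Y + 5 * D' + 2)) + 21 * (G * (c + 1) ^ 2) + TP * Yτ) =
          48 * (G * (TP * ((τ + 1) * Y))) + G * (TP * ((τ + 1) * (5 * D' + 2))) +
            21 * (G * ((τ + 1) * (c + 1) ^ 2)) + TP * ((τ + 1) * Yτ) := by ring
      have e2 : G * (TP * ((τ + 1) * (5 * D' + 2))) ≤ 7 * (G * (TP * ((τ + 1) * (J * D)))) := by
        have h3 : 5 * D' + 2 ≤ 7 * (J * D) := by
          have h4 : D ≤ J * D := Nat.le_mul_of_pos_left _ hJ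
          omega
        calc G * (TP * ((τ + 1) * (5 * D' + 2))) ≤ G * (TP * ((τ + 1) * (7 * (J * D)))) :=
              Nat.mul_le_mul_left _ (Nat.mul_le_mul_left _ (Nat.mul_le_mul_left _ h3))
          _ = 7 * (G * (TP * ((τ + 1) * (J * D)))) := by ring
      have e3 : G * (TP * ((τ + 1) * Y)) ≤
          8 * (G * (TP * ((τ + 1) * (J * D)))) + G * (TP * D ^ 2) + 6 * (G * c ^ 2) := by
        calc G * (TP * ((τ + 1) * Y)) ≤
              G * (TP * ((τ + 1) * (J * (8 * D))) + TP * D ^ 2 + 6 * c ^ 2) :=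
              Nat.mul_le_mul_left _ hY
          _ = _ := by ring
      have e4 : G * (TP * (500 * J * D * (τ + 1) + 50 * D ^ 2) + 400 * (c + 1) ^ 2 * (τ + 1)) =
          500 * (G * (TP * ((τ + 1) * (J * D)))) + 50 * (G * (TP * D ^ 2)) +
            400 * (G * ((τ + 1) * (c + 1) ^ 2)) := by ring
      have e6 : TP * ((G * V₀ + Sτ) * (τ + 1)) = (τ + 1) * (TP * (G * V₀ + Sτ)) := by ring
      have e7 : G * c ^ 2 ≤ G * ((τ + 1) * (c + 1) ^ 2) := by
        refine Nat.mul_le_mul_left _ ?_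
        calc c ^ 2 ≤ (c + 1) ^ 2 := Nat.pow_le_pow_left (Nat.le_succ c) 2
          _ ≤ (τ + 1) * (c + 1) ^ 2 := Nat.le_mul_of_pos_left _ (Nat.succ_pos τ)
      have e8 : 1 ≤ G * ((τ + 1) * (c + 1) ^ 2) :=
        Nat.mul_pos hG (Nat.mul_pos (Nat.succ_pos τ) (pow_pos (Nat.succ_pos c) 2))
      have e9 : TP * ((τ + 1) * Yτ) ≤ 8 * (G * (TP * ((τ + 1) * (J * D)))) := by
        calc TP * ((τ + 1) * Yτ) ≤ TP * ((τ + 1) * (J * (8 * D))) :=
              Nat.mul_le_mul_left _ (Nat.mul_le_mul_left _ hYτ)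
          _ = 1 * (8 * (TP * ((τ + 1) * (J * D)))) := by ring
          _ ≤ G * (8 * (TP * ((τ + 1) * (J * D)))) := Nat.mul_le_mul_right _ hG
          _ = 8 * (G * (TP * ((τ + 1) * (J * D)))) := by ring
      rw [e4, e6] at hV
      rw [e1]
      omega
    exact Nat.lt_of_mul_lt_mul_left h2
  have h4 : TP * (Y + Sτ) = TP * (Yτ + S₀) := by rw [hYS]
  have e1 : TP * (Y + Sτ) = TP * Y + TP * Sτ := by ring
  have e2 : TP * (Yτ + S₀) = TP * Yτ + TP * S₀ := by ring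
  have e3 : TP * (G * V₀ + Sτ) = TP * (G * V₀) + TP * Sτ := by ring
  rw [e1, e2] at h4
  rw [e3] at h1
  omega

/-- small degree -/
theorem leaf_num3' {TP J G X c D D' S₀ Y Q v V₀ : ℕ} (hTP : 1 ≤ TP) (hG : 1 ≤ G) (hJ : 1 ≤ J)
    (hc : 1 ≤ c) (hX : 1000 * G ≤ X) (hD1 : 10 ^ 6 * J * G * c ≤ D) (hDX : X * D' < D)
    (hv : 1 ≤ v) (hvc : v ≤ c) (hY : v * Y ≤ 2 * v * (J * (8 * D)) + Q)
    (hQ : TP * Q ≤ TP * D' ^ 2 + 6 * c ^ 2) (hS : D ^ 2 + 12 * (v * Y) ≤ 12 * (v * S₀))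
    (hV : 400 * (c + 1) ^ 2 ≤ TP * V₀ ∨ 10 ^ 5 * G * (c ^ 2 * v) ≤ TP * D ^ 2) :
    G * (TP * (48 * Y + 5 * D' + 2)) + 21 * (G * (c + 1) ^ 2) + TP * Y <
      TP * (G * V₀) + TP * S₀ := by
  have hD0 : 1 ≤ D := by omega
  have hDD : D' ≤ D := by
    have : D' ≤ X * D' := Nat.le_mul_of_pos_left _ (by omega)
    omega
  have hvD : 10 ^ 6 * (v * (J * G * D)) ≤ D ^ 2 := by
    calc 10 ^ 6 * (v * (J * G * D)) ≤ 10 ^ 6 * (c * (J * G * D)) :=
          Nat.mul_le_mul_left _ (Nat.mul_le_mul_right _ hvc)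
      _ = (10 ^ 6 * J * G * c) * D := by ring
      _ ≤ D * D := Nat.mul_le_mul_right _ hD1
      _ = D ^ 2 := (pow_two D).symm
  have hG2 : 10 ^ 6 * (G * D' ^ 2) ≤ D ^ 2 := by
    have h1 : 1000 * G * D' ≤ D := by
      have : 1000 * G * D' ≤ X * D' := Nat.mul_le_mul_right _ hX
      omega
    calc 10 ^ 6 * (G * D' ^ 2) ≤ 10 ^ 6 * (G ^ 2 * D' ^ 2) := by
          refine Nat.mul_le_mul_left _ (Nat.mul_le_mul_right _ ?_)
          nlinarith
      _ = (1000 * G * D') ^ 2 := by ring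
      _ ≤ D ^ 2 := Nat.pow_le_pow_left h1 2
  -- everything multiplied by `12 v`
  have main : 12 * v * (G * (TP * (48 * Y + 5 * D' + 2)) + 21 * (G * (c + 1) ^ 2) + TP * Y) <
      12 * v * (TP * (G * V₀) + TP * S₀) := by
    have k1 : 576 * (G * TP * (v * Y)) ≤
        9216 * (TP * (v * (J * G * D))) + 576 * (TP * (G * D' ^ 2)) + 3456 * (G * c ^ 2) := by
      have h1 : TP * (v * Y) ≤ TP * (2 * v * (J * (8 * D))) + (TP * D' ^ 2 + 6 * c ^ 2) := by
        calc TP * (v * Y) ≤ TP * (2 * v * (J * (8 * D)) + Q) := Nat.mul_le_mul_left _ hY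
          _ = TP * (2 * v * (J * (8 * D))) + TP * Q := by ring
          _ ≤ _ := Nat.add_le_add_left hQ _
      calc 576 * (G * TP * (v * Y)) = 576 * G * (TP * (v * Y)) := by ring
        _ ≤ 576 * G * (TP * (2 * v * (J * (8 * D))) + (TP * D' ^ 2 + 6 * c ^ 2)) :=
            Nat.mul_le_mul_left _ h1
        _ = _ := by ring
    have k2 : 12 * v * (G * (TP * (5 * D' + 2))) ≤ 84 * (TP * (v * (J * G * D))) := by
      have h3 : 5 * D' + 2 ≤ 7 * (J * D) := by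
        have h4 : D ≤ J * D := Nat.le_mul_of_pos_left _ hJ
        omega
      calc 12 * v * (G * (TP * (5 * D' + 2))) ≤ 12 * v * (G * (TP * (7 * (J * D)))) :=
            Nat.mul_le_mul_left _ (Nat.mul_le_mul_left _ (Nat.mul_le_mul_left _ h3))
        _ = 84 * (TP * (v * (J * G * D))) := by ring
    have k3 : 10 ^ 6 * (TP * (v * (J * G * D))) ≤ TP * D ^ 2 := by
      calc 10 ^ 6 * (TP * (v * (J * G * D))) = TP * (10 ^ 6 * (v * (J * G * D))) := by ring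
        _ ≤ TP * D ^ 2 := Nat.mul_le_mul_left _ hvD
    have k4 : 10 ^ 6 * (TP * (G * D' ^ 2)) ≤ TP * D ^ 2 := by
      calc 10 ^ 6 * (TP * (G * D' ^ 2)) = TP * (10 ^ 6 * (G * D' ^ 2)) := by ring
        _ ≤ TP * D ^ 2 := Nat.mul_le_mul_left _ hG2
    have k5 : TP * D ^ 2 + 12 * (v * (TP * Y)) ≤ 12 * (v * (TP * S₀)) := by
      calc TP * D ^ 2 + 12 * (v * (TP * Y)) = TP * (D ^ 2 + 12 * (v * Y)) := by ring
        _ ≤ TP * (12 * (v * S₀)) := Nat.mul_le_mul_left _ hS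
        _ = 12 * (v * (TP * S₀)) := by ring
    have k6 : 1 ≤ TP * D ^ 2 := Nat.mul_pos hTP (pow_pos hD0 2)
    have k7 : 3456 * (G * c ^ 2) + 252 * (v * (G * (c + 1) ^ 2)) ≤
        12 * (v * (TP * (G * V₀))) + TP * D ^ 2 / 2 := by
      rcases hV with hV | hV
      · have h1 : 4800 * (v * (G * (c + 1) ^ 2)) ≤ 12 * (v * (TP * (G * V₀))) := by
          calc 4800 * (v * (G * (c + 1) ^ 2)) = 12 * (v * G) * (400 * (c + 1) ^ 2) := by ring
            _ ≤ 12 * (v * G) * (TP * V₀) := Nat.mul_le_mul_left _ hV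
            _ = 12 * (v * (TP * (G * V₀))) := by ring
        have h2 : G * c ^ 2 ≤ v * (G * (c + 1) ^ 2) := by
          calc G * c ^ 2 ≤ G * (c + 1) ^ 2 :=
                Nat.mul_le_mul_left _ (Nat.pow_le_pow_left (Nat.le_succ c) 2)
            _ ≤ v * (G * (c + 1) ^ 2) := Nat.le_mul_of_pos_left _ hv
        omega
      · have h1 : v * (G * (c + 1) ^ 2) ≤ 4 * (G * (c ^ 2 * v)) := by
          have h3 : (c + 1) ^ 2 ≤ 4 * c ^ 2 := by nlinarith
          calc v * (G * (c + 1) ^ 2) ≤ v * (G * (4 * c ^ 2)) :=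
                Nat.mul_le_mul_left _ (Nat.mul_le_mul_left _ h3)
            _ = 4 * (G * (c ^ 2 * v)) := by ring
        have h2 : G * c ^ 2 ≤ G * (c ^ 2 * v) := Nat.mul_le_mul_left _
          (Nat.le_mul_of_pos_right _ hv)
        have h3 : 10 ^ 5 * (G * (c ^ 2 * v)) ≤ TP * D ^ 2 := by
          calc 10 ^ 5 * (G * (c ^ 2 * v)) = 10 ^ 5 * G * (c ^ 2 * v) := by ring
            _ ≤ _ := hV
        omega
    have e1 : 12 * v * (G * (TP * (48 * Y + 5 * D' + 2)) + 21 * (G * (c + 1) ^ 2) + TP * Y) =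
        576 * (G * TP * (v * Y)) + 12 * v * (G * (TP * (5 * D' + 2))) +
          252 * (v * (G * (c + 1) ^ 2)) + 12 * (v * (TP * Y)) := by ring
    have e2 : 12 * v * (TP * (G * V₀) + TP * S₀) =
        12 * (v * (TP * (G * V₀))) + 12 * (v * (TP * S₀)) := by ring
    rw [e1, e2]
    omega
  exact Nat.lt_of_mul_lt_mul_left main

end Pool.Agent.Work.MP_0421d9_ag.LD
end

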