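import Mathlib

section
/-!
Numerical exceptional classes on the blow-up of the plane at any number of points.
-/

namespace Pool.Agent.Work.MP_0421d9_ag.LD

/-- numerical exceptional classes of nonnegative degree: `C ^ 2 = C · K = -1` -/
structure ExcN {N : ℕ} (e : ℤ) (c : Fin N → ℤ) : Prop where
  nonneg : 0 ≤ e
  sq : ∑ i, c i ^ 2 = e ^ 2 + 1
  can : ∑ i, c i = 3 * e - 1

end Pool.Agent.Work.MP_0421d9_ag.LD
end

section
/-!
Numerical exceptional classes on the blow-up of the plane at any number of points: the bound for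
the intersection numbers with a reduced class.
-/

set_option autoImplicit false

namespace Pool.Agent.Work.MP_0421d9_ag.LD

namespace LExc

/-- the key lemma: summation by parts -/
theorem kl {N D : ℕ} {a : Fin N → ℕ} {e : ℤ} {c : Fin N → ℤ} {i1 i2 : Fin N} (h12 : i1 ≠ i2)
    {z : ℕ} (ha : a i2 ≤ a i1) (hz : z ≤ a i2) (hz' : ∀ i, i ≠ i1 → i ≠ i2 → a i ≤ z)
    {q Y φ : ℤ} (h1 : 0 ≤ q * e - 2 * Y - q * c i1)
    (h2 : 0 ≤ 2 * q * e - 4 * Y - q * (c i1 + c i2))
    (h4 : ∀ T : Finset (Fin N), φ ≤ 3 * q * e - q * ∑ i ∈ T, c i + Y * ((T.card : ℤ) - 9)) :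
    Y * (3 * D - ∑ i, (a i : ℤ)) + φ * z + (q * e - 3 * Y) * (D - a i1 - a i2 - z) ≤
      q * (D * e - ∑ i, (a i : ℤ) * c i) := by
  classical
  obtain ⟨U, hU⟩ : ∃ U : Finset (Fin N), U = (Finset.univ.erase i1).erase i2 := ⟨_, rfl⟩
  have hU1 : i1 ∉ U := by rw [hU]; simp
  have hU2 : i2 ∉ U := by rw [hU]; simp
  have hsplit : ∀ f : Fin N → ℤ, ∑ i, f i = f i1 + f i2 + ∑ i ∈ U, f i := by
    intro f
    rw [hU, ← Finset.add_sum_erase _ f (Finset.mem_univ i1),
      ← Finset.add_sum_erase _ f (Finset.mem_erase.2 ⟨h12.symm, Finset.mem_univ i2⟩)]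
    ring
  obtain ⟨V, hV⟩ : ∃ V : Finset (Fin N), V = U.filter (fun i => Y < q * c i) := ⟨_, rfl⟩
  have hV1 : i1 ∉ V := fun h => hU1 (by rw [hV] at h; exact (Finset.mem_filter.1 h).1)
  have hV2 : i2 ∉ V := fun h => hU2 (by rw [hV] at h; exact (Finset.mem_filter.1 h).1)
  have hT := h4 (insert i1 (insert i2 V))
  have hV12 : i1 ∉ insert i2 V := by
    rw [Finset.mem_insert]
    rintro (h | h)
    · exact h12 h
    · exact hV1 h
  rw [Finset.sum_insert hV12, Finset.sum_insert hV2, Finset.card_insert_of_notMem hV12,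
    Finset.card_insert_of_notMem hV2] at hT
  push_cast at hT
  have hsum : ∑ i ∈ U, q * ((a i : ℤ) * c i) ≤
      Y * ∑ i ∈ U, (a i : ℤ) + z * (q * ∑ i ∈ V, c i - Y * V.card) := by
    have e1 : ∑ i ∈ U, (if Y < q * c i then q * c i - Y else 0) =
        q * ∑ i ∈ V, c i - Y * V.card := by
      rw [← Finset.sum_filter, ← hV, Finset.sum_sub_distrib, ← Finset.mul_sum, Finset.sum_const,
        nsmul_eq_mul]
      ring
    rw [← e1, Finset.mul_sum, Finset.mul_sum, ← Finset.sum_add_distrib]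
    refine Finset.sum_le_sum (fun i hi => ?_)
    have hi1 : i ≠ i1 := fun h => hU1 (h ▸ hi)
    have hi2 : i ≠ i2 := fun h => hU2 (h ▸ hi)
    have hza : (a i : ℤ) ≤ z := by exact_mod_cast hz' i hi1 hi2
    have ha0 : (0 : ℤ) ≤ a i := by positivity
    split_ifs with g
    · nlinarith [mul_nonneg (sub_nonneg.2 hza) (sub_nonneg.2 g.le)]
    · push Not at g
      nlinarith [mul_nonneg ha0 (sub_nonneg.2 g)]
  rw [hsplit (fun i => (a i : ℤ)), hsplit (fun i => (a i : ℤ) * c i)]
  rw [← Finset.mul_sum] at hsum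
  have hz0 : (0 : ℤ) ≤ z := by positivity
  have p1 := mul_nonneg hz0 (sub_nonneg.2 hT)
  have p2 := mul_nonneg (show (0 : ℤ) ≤ a i1 - a i2 by
    have : (a i2 : ℤ) ≤ a i1 := by exact_mod_cast ha
    linarith) h1
  have p3 := mul_nonneg (show (0 : ℤ) ≤ a i2 - z by
    have : (z : ℤ) ≤ a i2 := by exact_mod_cast hz
    linarith) h2
  nlinarith [p1, p2, p3, hsum]

end LExc

variable {N : ℕ} {e : ℤ} {c : Fin N → ℤ}

/-- integers: the square is at least the absolute value -/
theorem LExc.abs_le_sq (T : Finset (Fin N)) (c : Fin N → ℤ) :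
    |∑ i ∈ T, c i| ≤ ∑ i ∈ T, c i ^ 2 := by
  refine (Finset.abs_sum_le_sum_abs _ _).trans (Finset.sum_le_sum (fun i _ => ?_))
  rw [← sq_abs]
  rcases eq_or_lt_of_le (abs_nonneg (c i)) with g | g
  · rw [← g]; norm_num
  · nlinarith

/-- classes all of whose multiplicities are at most two thirds of the degree -/
theorem LExc.caseA (h : ExcN e c) (he : 2 ≤ e) (T : Finset (Fin N)) :
    0 ≤ 3 * (6 * e + 9) * e - (6 * e + 9) * ∑ i ∈ T, c i + e ^ 2 * ((T.card : ℤ) - 9) := by
  classical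
  obtain ⟨β, hβ⟩ : ∃ β, ∑ i ∈ T, c i = 3 * e - β := ⟨3 * e - ∑ i ∈ T, c i, by ring⟩
  have h1 := sq_sum_le_card_mul_sum_sq (s := T) (f := c)
  have h2 := Finset.sum_add_sum_compl T c
  have h3 := Finset.sum_add_sum_compl T (fun i => c i ^ 2)
  rw [h.can, hβ] at h2
  rw [h.sq] at h3
  have h4 := LExc.abs_le_sq Tᶜ c
  have h5 : ∑ i ∈ Tᶜ, c i = β - 1 := by linarith
  rw [h5] at h4
  rw [hβ] at h1 ⊢
  obtain ⟨k, hk⟩ : ∃ k : ℤ, (T.card : ℤ) = k := ⟨_, rfl⟩
  have hk0 : 0 ≤ k := by rw [← hk]; positivity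
  rw [hk] at h1 ⊢
  have h6 : (3 * e - β) ^ 2 ≤ k * (e ^ 2 + 1 - |β - 1|) := by
    refine h1.trans (mul_le_mul_of_nonneg_left (by linarith) hk0)
  have goal : e ^ 2 * (9 - k) ≤ (6 * e + 9) * β := by
    rcases le_or_gt β 0 with g | g
    · rw [abs_of_nonpos (by linarith)] at h6
      obtain ⟨b, rfl⟩ : ∃ b, β = -b := ⟨-β, by ring⟩
      have hb : 0 ≤ b := by linarith
      have h7 : 9 * e ^ 2 + 6 * e * b + b ^ 2 + k * b ≤ k * e ^ 2 := by
        ring_nf at h6 ⊢
        linarith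
      have h7a := mul_nonneg hk0 hb
      have h7b := mul_nonneg (show (0 : ℤ) ≤ e by linarith) hb
      have h7c := sq_nonneg b
      have h8 : 9 ≤ k := by
        have h9 : 9 * e ^ 2 ≤ k * e ^ 2 := by linarith
        have h10 : 0 < e ^ 2 := pow_pos (by linarith) 2
        exact le_of_mul_le_mul_right h9 h10
      have h11 := mul_nonneg (sub_nonneg.2 h8) hb
      ring_nf at h7 h11 ⊢
      linarith
    · rcases le_or_gt 9 k with g9 | g9
      · have : e ^ 2 * (9 - k) ≤ 0 := mul_nonpos_of_nonneg_of_nonpos (sq_nonneg _) (by linarith)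
        have h10 : 0 ≤ (6 * e + 9) * β := mul_nonneg (by linarith) (by linarith)
        linarith
      · rw [abs_of_nonneg (by linarith)] at h6
        have h7 : e ^ 2 * (9 - k) ≤ 6 * e * β - β ^ 2 - k * (β - 2) := by
          ring_nf at h6 ⊢
          linarith
        have h8 : - β ^ 2 - k * (β - 2) ≤ 9 * β := by
          rcases eq_or_lt_of_le (show (1 : ℤ) ≤ β by omega) with g1 | g1
          · rw [← g1]
            linarith
          · have h9 := mul_nonneg hk0 (show (0 : ℤ) ≤ β - 2 by omega)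
            have h10 := sq_nonneg β
            linarith
        ring_nf at h7 h8 ⊢
        linarith
  ring_nf at goal ⊢
  linarith

/-- Cauchy's inequality for the other multiplicities -/
theorem LExc.other (h : ExcN e c) (l : Fin N) (T : Finset (Fin N)) (hl : l ∈ T) :
    (∑ i ∈ T, c i - c l) ^ 2 ≤ ((T.card : ℤ) - 1) * (e ^ 2 + 1 - c l ^ 2) := by
  classical
  have h1 := sq_sum_le_card_mul_sum_sq (s := T.erase l) (f := c)
  have h2 : ∑ i ∈ T.erase l, c i = ∑ i ∈ T, c i - c l := by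
    rw [← Finset.add_sum_erase _ c hl]
    ring
  have h3 : ∑ i ∈ T.erase l, c i ^ 2 ≤ e ^ 2 + 1 - c l ^ 2 := by
    have h4 : ∑ i ∈ T.erase l, c i ^ 2 ≤ ∑ i ∈ Finset.univ.erase l, c i ^ 2 :=
      Finset.sum_le_sum_of_subset_of_nonneg (Finset.erase_subset_erase _ (Finset.subset_univ _))
        (fun _ _ _ => sq_nonneg _)
    have h5 := Finset.add_sum_erase Finset.univ (fun i => c i ^ 2) (Finset.mem_univ l)
    rw [h.sq] at h5
    linarith
  have h6 : ((T.erase l).card : ℤ) = (T.card : ℤ) - 1 := by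
    rw [Finset.card_erase_of_mem hl, Nat.cast_sub (Finset.card_pos.2 ⟨l, hl⟩)]
    norm_num
  rw [h2, h6] at h1
  refine h1.trans (mul_le_mul_of_nonneg_left h3 ?_)
  have : 1 ≤ T.card := Finset.card_pos.2 ⟨l, hl⟩
  have : (1 : ℤ) ≤ T.card := by exact_mod_cast this
  linarith

/-- arithmetic and geometric mean -/
theorem LExc.amgm {s x y P : ℤ} (hx : 0 ≤ x) (hy : 0 ≤ y) (h : s ^ 2 ≤ P) (hP : P ≤ 4 * (x * y)) :
    s ≤ x + y := by
  by_contra hcon
  push Not at hcon
  nlinarith [sq_nonneg (x - y)]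

theorem excN_bound {N D τ : ℕ} (hN : 3 ≤ N) {a : Fin N → ℕ}
    (hred : ∀ i j k, i ≠ j → i ≠ k → j ≠ k → a i + a j + a k ≤ D)
    (hpair : ∀ i j, i ≠ j → a i + a j + 2 * τ ≤ D) (hK : ∑ i, a i + 18 * τ ≤ 3 * D)
    {e : ℤ} {c : Fin N → ℤ} (h : ExcN e c) : ∑ i, (a i : ℤ) * c i + τ * e ≤ D * e := by
  classical
  have he := h.nonneg
  have hτ : (0 : ℤ) ≤ τ := by positivity
  rcases eq_or_lt_of_le he with he0 | he0
  · -- degree zero
    subst he0
    have h3 : ∑ i, (c i ^ 2 + c i) = 0 := by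
      rw [Finset.sum_add_distrib, h.sq, h.can]
      norm_num
    have h4 : ∀ i ∈ (Finset.univ : Finset (Fin N)), 0 ≤ c i ^ 2 + c i := fun i _ => by
      rcases lt_or_ge (c i) 0 with g | g
      · nlinarith
      · positivity
    have h6 : ∀ i, c i ≤ 0 := fun i => by
      have h5 := (Finset.sum_eq_zero_iff_of_nonneg h4).mp h3 i (Finset.mem_univ i)
      nlinarith [sq_nonneg (c i)]
    have h1 : ∑ i, (a i : ℤ) * c i ≤ 0 := Finset.sum_nonpos (fun i _ =>
      mul_nonpos_of_nonneg_of_nonpos (by positivity) (h6 i))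
    linarith
  rcases eq_or_lt_of_le (show (1 : ℤ) ≤ e by omega) with he1 | he1
  · -- lines
    subst he1
    have h1 : ∑ i, (c i ^ 2 - c i) = 0 := by
      rw [Finset.sum_sub_distrib, h.sq, h.can]
      norm_num
    have h2 : ∀ i ∈ (Finset.univ : Finset (Fin N)), 0 ≤ c i ^ 2 - c i := fun i _ => by
      rcases lt_trichotomy (c i) 0 with g | g | g
      · nlinarith
      · rw [g]; norm_num
      · nlinarith
    have h3 : ∀ i, c i = 0 ∨ c i = 1 := by
      intro i
      have h4 := (Finset.sum_eq_zero_iff_of_nonneg h2).mp h1 i (Finset.mem_univ i)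
      have h5 : c i * (c i - 1) = 0 := by nlinarith
      rcases mul_eq_zero.mp h5 with g | g
      · exact Or.inl g
      · exact Or.inr (by linarith)
    obtain ⟨S, hS⟩ : ∃ S : Finset (Fin N), S = Finset.univ.filter (fun i => c i = 1) := ⟨_, rfl⟩
    have hcS : ∀ i, c i = if i ∈ S then 1 else 0 := by
      intro i
      rw [hS]
      rcases h3 i with g | g <;> simp [g]
    have hcard : S.card = 2 := by
      have h4 := h.can
      have h5 : ∑ i, c i = (S.card : ℤ) := by
        rw [Finset.sum_congr rfl (fun i _ => hcS i), Finset.sum_ite_mem, Finset.univ_inter,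
          Finset.sum_const]
        simp
      rw [h5] at h4
      omega
    obtain ⟨i, j, hij, hSe⟩ := Finset.card_eq_two.mp hcard
    have h6 : ∑ l, (a l : ℤ) * c l = a i + a j := by
      have h7 : ∀ l ∈ (Finset.univ : Finset (Fin N)), (a l : ℤ) * c l =
          if l ∈ S then (a l : ℤ) else 0 := by
        intro l _
        rw [hcS l]
        split_ifs <;> simp
      rw [Finset.sum_congr rfl h7, Finset.sum_ite_mem, Finset.univ_inter, hSe,
        Finset.sum_pair hij]
    rw [h6]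
    have h8 := hpair i j hij
    have h9 : ((a i + a j + 2 * τ : ℕ) : ℤ) ≤ D := by exact_mod_cast h8
    push_cast at h9
    linarith
  -- degree at least two
  have he2 : 2 ≤ e := by omega
  have hne : (Finset.univ : Finset (Fin N)).Nonempty := ⟨⟨0, by omega⟩, Finset.mem_univ _⟩
  obtain ⟨i1, -, hi1⟩ := Finset.exists_max_image Finset.univ a hne
  have hne2 : ((Finset.univ : Finset (Fin N)).erase i1).Nonempty := by
    rw [← Finset.card_pos, Finset.card_erase_of_mem (Finset.mem_univ _), Finset.card_univ,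
      Fintype.card_fin]
    omega
  obtain ⟨i2, hi2m, hi2⟩ := Finset.exists_max_image _ a hne2
  have hne3 : (((Finset.univ : Finset (Fin N)).erase i1).erase i2).Nonempty := by
    rw [← Finset.card_pos, Finset.card_erase_of_mem hi2m,
      Finset.card_erase_of_mem (Finset.mem_univ _), Finset.card_univ, Fintype.card_fin]
    omega
  obtain ⟨i3, hi3m, hi3⟩ := Finset.exists_max_image _ a hne3
  have h12 : i1 ≠ i2 := fun g => (Finset.mem_erase.1 hi2m).1 g.symm
  have h32 : i3 ≠ i2 := (Finset.mem_erase.1 hi3m).1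
  have h31 : i3 ≠ i1 := (Finset.mem_erase.1 (Finset.mem_erase.1 hi3m).2).1
  have ha12 : a i2 ≤ a i1 := hi1 i2 (Finset.mem_univ _)
  have ha23 : a i3 ≤ a i2 := hi2 i3 (Finset.mem_erase.1 hi3m).2
  have hz : ∀ i, i ≠ i1 → i ≠ i2 → a i ≤ a i3 := fun i g1 g2 =>
    hi3 i (Finset.mem_erase.2 ⟨g2, Finset.mem_erase.2 ⟨g1, Finset.mem_univ _⟩⟩)
  have hD3 : (0 : ℤ) ≤ D - a i1 - a i2 - a i3 := by
    have := hred i1 i2 i3 h12 h31.symm h32.symm
    have h9 : ((a i1 + a i2 + a i3 : ℕ) : ℤ) ≤ D := by exact_mod_cast this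
    push_cast at h9
    linarith
  have hD2 : (2 : ℤ) * τ ≤ D - a i1 - a i2 := by
    have := hpair i1 i2 h12
    have h9 : ((a i1 + a i2 + 2 * τ : ℕ) : ℤ) ≤ D := by exact_mod_cast this
    push_cast at h9
    linarith
  have hKz : (18 : ℤ) * τ ≤ 3 * D - ∑ i, (a i : ℤ) := by
    have h9 : ((∑ i, a i + 18 * τ : ℕ) : ℤ) ≤ ((3 * D : ℕ) : ℤ) := by exact_mod_cast hK
    push_cast at h9
    linarith
  obtain ⟨l, -, hl⟩ := Finset.exists_max_image Finset.univ c hne
  have hcl : ∀ i, c i ≤ c l := fun i => hl i (Finset.mem_univ _)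
  rcases le_or_gt (3 * c l) (2 * e) with hA | hB
  · -- case A
    have hc1 : (6 * e + 9) * c i1 ≤ 4 * e ^ 2 + 6 * e := by
      have : 3 * c i1 ≤ 2 * e := by linarith [hcl i1]
      nlinarith
    have hc2 : (6 * e + 9) * c i2 ≤ 4 * e ^ 2 + 6 * e := by
      have : 3 * c i2 ≤ 2 * e := by linarith [hcl i2]
      nlinarith
    have key := LExc.kl (D := D) (a := a) (e := e) (c := c) h12 ha12 ha23 hz (q := 6 * e + 9)
      (Y := e ^ 2) (φ := 0) (by nlinarith) (by nlinarith)
      (fun T => LExc.caseA h he2 T)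
    have k1 : 0 ≤ ((6 * e + 9) * e - 3 * e ^ 2) * (D - a i1 - a i2 - a i3 : ℤ) :=
      mul_nonneg (by nlinarith) hD3
    have k2 : e ^ 2 * (18 * τ) ≤ e ^ 2 * (3 * D - ∑ i, (a i : ℤ)) :=
      mul_le_mul_of_nonneg_left hKz (sq_nonneg _)
    have k3 : (6 * e + 9) * (τ * e) ≤ e ^ 2 * (18 * τ) := by nlinarith [mul_nonneg hτ he]
    have k4 : (6 * e + 9) * (τ * e) ≤ (6 * e + 9) * (D * e - ∑ i, (a i : ℤ) * c i) := by linarith
    have k5 := le_of_mul_le_mul_left k4 (by linarith)
    linarith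
  · -- case B
    obtain ⟨f, hf⟩ : ∃ f, c l = e - f := ⟨e - c l, by ring⟩
    have hsq1 : c l ^ 2 ≤ e ^ 2 + 1 := by
      rw [← h.sq]
      exact Finset.single_le_sum (f := fun i => c i ^ 2) (fun i _ => sq_nonneg _)
        (Finset.mem_univ l)
    have hA0 : 0 ≤ f := by
      rw [hf] at hsq1
      by_contra hcon
      push Not at hcon
      nlinarith
    have hother : 2 * e - 1 + f ≤ 2 * e * f - f ^ 2 + 1 := by
      have g1 := LExc.abs_le_sq (Finset.univ.erase l) c
      have g2 := Finset.add_sum_erase Finset.univ c (Finset.mem_univ l)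
      have g3 := Finset.add_sum_erase Finset.univ (fun i => c i ^ 2) (Finset.mem_univ l)
      rw [h.can] at g2
      rw [h.sq] at g3
      simp only [hf] at g2 g3
      have g4 := (le_abs_self _).trans g1
      nlinarith
    have hf1 : 1 ≤ f := by
      by_contra hcon
      have : f = 0 := by omega
      rw [this] at hother
      linarith
    have he3 : 3 * f + 1 ≤ e := by omega
    -- reduction to sets containing `l`
    have hred' : ∀ q : ℤ, 2 ≤ q → ∀ φ : ℤ,
        (∀ T : Finset (Fin N), l ∈ T →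
          φ ≤ 3 * q * e - q * ∑ i ∈ T, c i + f * ((T.card : ℤ) - 9)) →
        ∀ T : Finset (Fin N), φ ≤ 3 * q * e - q * ∑ i ∈ T, c i + f * ((T.card : ℤ) - 9) := by
      intro q hq φ hφ T
      by_cases hT : l ∈ T
      · exact hφ T hT
      · have g1 := hφ (insert l T) (Finset.mem_insert_self _ _)
        rw [Finset.sum_insert hT, Finset.card_insert_of_notMem hT, hf] at g1
        push_cast at g1
        have g2 : f ≤ q * (e - f) := by nlinarith
        linarith
    rcases le_or_gt e (6 * f) with hB1 | hB2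
    · -- B1
      have key := LExc.kl (D := D) (a := a) (e := e) (c := c) h12 ha12 ha23 hz (q := 3)
        (Y := f) (φ := 0) (by linarith [hcl i1]) (by linarith [hcl i1, hcl i2])
        (hred' 3 (by norm_num) 0 (fun T hT => by
          have g1 := LExc.other h l T hT
          have g0 : (1 : ℤ) ≤ T.card := by exact_mod_cast Finset.card_pos.2 ⟨l, hT⟩
          obtain ⟨j, hj⟩ : ∃ j : ℤ, (T.card : ℤ) = j + 1 := ⟨(T.card : ℤ) - 1, by ring⟩
          obtain ⟨s, hs⟩ : ∃ s : ℤ, ∑ i ∈ T, c i = e - f + s := ⟨∑ i ∈ T, c i - (e - f), by ring⟩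
          rw [hj, hs, hf] at g1
          rw [hj] at g0 ⊢
          rw [hs]
          have g2 : (3 * s) ^ 2 ≤ 9 * (j * (2 * e * f - f ^ 2 + 1)) := by nlinarith
          have g3 : 9 * (j * (2 * e * f - f ^ 2 + 1)) ≤ 4 * ((6 * e - 5 * f) * (f * j)) := by
            have g4 : 9 * (2 * e * f - f ^ 2 + 1) ≤ 4 * (6 * e - 5 * f) * f := by nlinarith
            nlinarith [mul_le_mul_of_nonneg_left g4 (show (0 : ℤ) ≤ j by linarith)]
          have g5 := LExc.amgm (s := 3 * s) (x := 6 * e - 5 * f) (y := f * j) (by linarith)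
            (mul_nonneg hA0 (by linarith)) g2 g3
          linarith))
      have k1 : 0 ≤ (3 * e - 3 * f) * (D - a i1 - a i2 - a i3 : ℤ) :=
        mul_nonneg (by linarith) hD3
      have k2 : f * (18 * τ) ≤ f * (3 * D - ∑ i, (a i : ℤ)) :=
        mul_le_mul_of_nonneg_left hKz hA0
      have k3 : 3 * (τ * e) ≤ f * (18 * τ) := by nlinarith [mul_nonneg hτ (sub_nonneg.2 hB1)]
      linarith
    · -- B2
      have key := LExc.kl (D := D) (a := a) (e := e) (c := c) h12 ha12 ha23 hz (q := 2)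
        (Y := f) (φ := e) (by linarith [hcl i1]) (by linarith [hcl i1, hcl i2])
        (hred' 2 le_rfl e (fun T hT => by
          have g1 := LExc.other h l T hT
          have g0 : (1 : ℤ) ≤ T.card := by exact_mod_cast Finset.card_pos.2 ⟨l, hT⟩
          obtain ⟨j, hj⟩ : ∃ j : ℤ, (T.card : ℤ) = j + 1 := ⟨(T.card : ℤ) - 1, by ring⟩
          obtain ⟨s, hs⟩ : ∃ s : ℤ, ∑ i ∈ T, c i = e - f + s := ⟨∑ i ∈ T, c i - (e - f), by ring⟩
          rw [hj, hs, hf] at g1
          rw [hj] at g0 ⊢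
          rw [hs]
          have g2 : (2 * s) ^ 2 ≤ 4 * (j * (2 * e * f - f ^ 2 + 1)) := by nlinarith
          have g3 : 4 * (j * (2 * e * f - f ^ 2 + 1)) ≤ 4 * ((3 * e - 6 * f) * (f * j)) := by
            have g4 : 2 * e * f - f ^ 2 + 1 ≤ (3 * e - 6 * f) * f := by nlinarith
            nlinarith [mul_le_mul_of_nonneg_left g4 (show (0 : ℤ) ≤ j by linarith)]
          have g5 := LExc.amgm (s := 2 * s) (x := 3 * e - 6 * f) (y := f * j) (by linarith)
            (mul_nonneg hA0 (by linarith)) g2 g3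
          linarith))
      have k1 : 0 ≤ (e - 3 * f) * (D - a i1 - a i2 - a i3 : ℤ) :=
        mul_nonneg (by linarith) hD3
      have k2 : 0 ≤ f * (3 * D - ∑ i, (a i : ℤ)) :=
        mul_nonneg hA0 (by linarith)
      have k3 : e * (2 * τ) ≤ e * (D - a i1 - a i2 : ℤ) := mul_le_mul_of_nonneg_left hD2 he
      nlinarith [key, k1, k2, k3]

end Pool.Agent.Work.MP_0421d9_ag.LD
end

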