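import Pool.Agent.Work.Z0421M.C22
import Pool.Agent.Work.Z0421M.C29
import Pool.Agent.Work.Z0421M.C41

section
/-!
Classes on the blow-up at any number of general points which are nonnegative on the numerical
exceptional classes.
-/

namespace Pool.Agent.Work.MP_0421d9_ag.LD

open MvPolynomial Module

theorem sum_diff3N {N : ℕ} {f g : Fin N → ℤ} {i j k : Fin N} (hij : i ≠ j) (hik : i ≠ k)
    (hjk : j ≠ k) (h : ∀ l, l ≠ i → l ≠ j → l ≠ k → f l = g l) :
    ∑ l, f l = ∑ l, g l + (f i - g i) + (f j - g j) + (f k - g k) := by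
  classical
  have h1 : ∑ l, (f l - g l) = (f i - g i) + (f j - g j) + (f k - g k) := by
    rw [← Finset.sum_subset (Finset.subset_univ {i, j, k})]
    · rw [Finset.sum_insert, Finset.sum_insert, Finset.sum_singleton]
      · ring
      · rw [Finset.mem_singleton]
        exact hjk
      · rw [Finset.mem_insert, Finset.mem_singleton, not_or]
        exact ⟨hij, hik⟩
    · intro l _ hl
      rw [Finset.mem_insert, Finset.mem_insert, Finset.mem_singleton, not_or, not_or] at hl
      rw [h l hl.1 hl.2.1 hl.2.2, sub_self]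
  rw [Finset.sum_sub_distrib] at h1
  linarith

/-- the multiplicities after the reflection -/
def rflcN {N : ℕ} (i j k : Fin N) (e : ℤ) (c : Fin N → ℤ) : Fin N → ℤ :=
  fun l => if l = i then e - c j - c k else if l = j then e - c i - c k else
    if l = k then e - c i - c j else c l

section rflcN

variable {N : ℕ} {i j k : Fin N} (hij : i ≠ j) (hik : i ≠ k) (hjk : j ≠ k) (e : ℤ)
  (c : Fin N → ℤ)

theorem rflcN_i : rflcN i j k e c i = e - c j - c k := by
  unfold rflcN
  rw [if_pos rfl]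

include hij in
theorem rflcN_j : rflcN i j k e c j = e - c i - c k := by
  unfold rflcN
  rw [if_neg (Ne.symm hij), if_pos rfl]

include hik hjk in
theorem rflcN_k : rflcN i j k e c k = e - c i - c j := by
  unfold rflcN
  rw [if_neg (Ne.symm hik), if_neg (Ne.symm hjk), if_pos rfl]

theorem rflcN_o {l : Fin N} (h1 : l ≠ i) (h2 : l ≠ j) (h3 : l ≠ k) : rflcN i j k e c l = c l := by
  unfold rflcN
  rw [if_neg h1, if_neg h2, if_neg h3]

end rflcN

theorem ExcN.zero {N : ℕ} {c : Fin N → ℤ} (h : ExcN 0 c) (i : Fin N) : c i ≤ 0 := by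
  have h3 : ∑ i, (c i ^ 2 + c i) = 0 := by
    rw [Finset.sum_add_distrib, h.sq, h.can]
    norm_num
  have h4 : ∀ i ∈ (Finset.univ : Finset (Fin N)), 0 ≤ c i ^ 2 + c i := fun i _ => by
    rcases lt_or_ge (c i) 0 with g | g
    · nlinarith
    · positivity
  have h5 := (Finset.sum_eq_zero_iff_of_nonneg h4).mp h3 i (Finset.mem_univ i)
  nlinarith [sq_nonneg (c i)]

theorem ExcN.one {N : ℕ} {c : Fin N → ℤ} (h : ExcN 1 c) (i : Fin N) : 0 ≤ c i := by
  have h3 : ∑ i, (c i ^ 2 - c i) = 0 := by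
    rw [Finset.sum_sub_distrib, h.sq, h.can]
    norm_num
  have h4 : ∀ i ∈ (Finset.univ : Finset (Fin N)), 0 ≤ c i ^ 2 - c i := fun i _ => by
    rcases lt_or_ge (c i) 1 with g | g
    · nlinarith
    · nlinarith
  have h5 := (Finset.sum_eq_zero_iff_of_nonneg h4).mp h3 i (Finset.mem_univ i)
  nlinarith [sq_nonneg (c i)]

/-- nonnegativity of the degree of the reflection -/
theorem ExcN.three {N : ℕ} {e : ℤ} {c : Fin N → ℤ} (h : ExcN e c) {i j k : Fin N} (hij : i ≠ j)
    (hik : i ≠ k) (hjk : j ≠ k) : c i + c j + c k ≤ 2 * e := by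
  classical
  have h0 := h.nonneg
  rcases eq_or_lt_of_le h0 with he | he
  · subst he
    have h1 := h.zero i
    have h2 := h.zero j
    have h3 := h.zero k
    linarith
  rcases eq_or_lt_of_le (show (1 : ℤ) ≤ e by omega) with he1 | he1
  · subst he1
    have h1 : ∑ l ∈ ({i, j, k} : Finset (Fin N)), c l ≤ ∑ l, c l :=
      Finset.sum_le_sum_of_subset_of_nonneg (Finset.subset_univ _) (fun l _ _ => h.one l)
    rw [Finset.sum_insert, Finset.sum_pair hjk, h.can] at h1
    · linarith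
    · rw [Finset.mem_insert, Finset.mem_singleton, not_or]
      exact ⟨hij, hik⟩
  · have h1 : ∑ l ∈ ({i, j, k} : Finset (Fin N)), c l ^ 2 ≤ ∑ l, c l ^ 2 :=
      Finset.sum_le_sum_of_subset_of_nonneg (Finset.subset_univ _) (fun l _ _ => sq_nonneg _)
    rw [Finset.sum_insert, Finset.sum_pair hjk, h.sq] at h1
    · by_contra hcon
      push Not at hcon
      nlinarith [sq_nonneg (c i - c j), sq_nonneg (c i - c k), sq_nonneg (c j - c k)]
    · rw [Finset.mem_insert, Finset.mem_singleton, not_or]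
      exact ⟨hij, hik⟩

theorem ExcN.reflect {N : ℕ} {e : ℤ} {c : Fin N → ℤ} (h : ExcN e c) {i j k : Fin N} (hij : i ≠ j)
    (hik : i ≠ k) (hjk : j ≠ k) : ExcN (2 * e - c i - c j - c k) (rflcN i j k e c) := by
  refine ⟨?_, ?_, ?_⟩
  · have := h.three hij hik hjk
    linarith
  · have h1 := sum_diff3N (f := fun l => rflcN i j k e c l ^ 2) (g := fun l => c l ^ 2) hij hik hjk
      (fun l g1 g2 g3 => by
        rw [rflcN_o e c g1 g2 g3])
    rw [h.sq, rflcN_i, rflcN_j hij, rflcN_k hik hjk] at h1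
    rw [h1]
    ring
  · have h1 := sum_diff3N (f := rflcN i j k e c) (g := c) hij hik hjk
      (fun l g1 g2 g3 => rflcN_o e c g1 g2 g3)
    rw [h.can, rflcN_i, rflcN_j hij, rflcN_k hik hjk] at h1
    rw [h1]
    ring

/-- nonnegative on the exceptional classes -/
def NefN {N : ℕ} (D : ℕ) (a : Fin N → ℕ) : Prop :=
  ∀ e c, ExcN e c → ∑ i, (a i : ℤ) * c i ≤ D * e

theorem excN_line {N : ℕ} {i j : Fin N} (hij : i ≠ j) :
    ExcN 1 (fun l => if l ∈ ({i, j} : Finset (Fin N)) then 1 else 0) := by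
  refine ⟨by norm_num, ?_, ?_⟩
  · have h1 : ∀ l ∈ (Finset.univ : Finset (Fin N)),
        (if l ∈ ({i, j} : Finset (Fin N)) then (1 : ℤ) else 0) ^ 2 =
          if l ∈ ({i, j} : Finset (Fin N)) then (1 : ℤ) else 0 := by
      intro l _
      split_ifs <;> norm_num
    rw [Finset.sum_congr rfl h1, Finset.sum_ite_mem, Finset.univ_inter, Finset.sum_pair hij]
    norm_num
  · rw [Finset.sum_ite_mem, Finset.univ_inter, Finset.sum_pair hij]
    norm_num

theorem NefN.line {N D : ℕ} {a : Fin N → ℕ} (h : NefN D a) {i j : Fin N} (hij : i ≠ j) :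
    a i + a j ≤ D := by
  have h1 := h 1 _ (excN_line hij)
  have h2 : ∀ l ∈ (Finset.univ : Finset (Fin N)),
      (a l : ℤ) * (if l ∈ ({i, j} : Finset (Fin N)) then (1 : ℤ) else 0) =
        if l ∈ ({i, j} : Finset (Fin N)) then (a l : ℤ) else 0 := by
    intro l _
    split_ifs <;> simp
  rw [Finset.sum_congr rfl h2, Finset.sum_ite_mem, Finset.univ_inter, Finset.sum_pair hij,
    mul_one] at h1
  exact_mod_cast h1

/-- the quadratic transformation -/
theorem NefN.quadratic {N D : ℕ} {a : Fin N → ℕ} (h : NefN D a) {i j k : Fin N} (hij : i ≠ j)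
    (hik : i ≠ k) (hjk : j ≠ k) (hD : D < a i + a j + a k) : ∃ D' a', D' < D ∧ NefN D' a' ∧
      Quadratic (D, a) (D', a') ∧ 3 * D' + ∑ l, a l = 3 * D + ∑ l, a' l ∧
      D' ^ 2 + ∑ l, a l ^ 2 = D ^ 2 + ∑ l, a' l ^ 2 := by
  classical
  have l1 := h.line hij
  have l2 := h.line hik
  have l3 := h.line hjk
  obtain ⟨a', ha'⟩ : ∃ a' : Fin N → ℕ, a' = fun l => if l = i then D - a j - a k else
    if l = j then D - a i - a k else if l = k then D - a i - a j else a l := ⟨_, rfl⟩
  obtain ⟨D', hD'⟩ : ∃ D', D' + (a i + a j + a k) = 2 * D := ⟨2 * D - (a i + a j + a k), by omega⟩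
  have ei : a' i = D - a j - a k := by
    rw [ha']
    exact if_pos rfl
  have ej : a' j = D - a i - a k := by
    rw [ha']
    change (if j = i then _ else if j = j then _ else _) = _
    rw [if_neg (Ne.symm hij), if_pos rfl]
  have ek : a' k = D - a i - a j := by
    rw [ha']
    change (if k = i then _ else if k = j then _ else if k = k then _ else _) = _
    rw [if_neg (Ne.symm hik), if_neg (Ne.symm hjk), if_pos rfl]
  have eo : ∀ l, l ≠ i → l ≠ j → l ≠ k → a' l = a l := by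
    intro l g1 g2 g3
    rw [ha']
    change (if l = i then _ else if l = j then _ else if l = k then _ else _) = _
    rw [if_neg g1, if_neg g2, if_neg g3]
  have zi : (a' i : ℤ) = D - a j - a k := by rw [ei]; omega
  have zj : (a' j : ℤ) = D - a i - a k := by rw [ej]; omega
  have zk : (a' k : ℤ) = D - a i - a j := by rw [ek]; omega
  have zD : (D' : ℤ) = 2 * D - a i - a j - a k := by omega
  refine ⟨D', a', by omega, ?_, ?_, ?_, ?_⟩
  · intro e c hc
    have h1 := h _ _ (hc.reflect hij hik hjk)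
    have h2 := sum_diff3N (f := fun l => (a' l : ℤ) * c l)
      (g := fun l => (a l : ℤ) * rflcN i j k e c l) hij hik hjk (fun l g1 g2 g3 => by
        rw [rflcN_o e c g1 g2 g3, eo l g1 g2 g3])
    rw [rflcN_i, rflcN_j hij, rflcN_k hik hjk, zi, zj, zk] at h2
    rw [zD]
    rw [h2]
    nlinarith
  · refine ⟨i, j, k, hij, hik, hjk, ?_, ?_, ?_, ?_, ?_, ?_, ?_, ei, ej, ek, fun l g1 g2 g3 =>
      eo l g1 g2 g3⟩
    · change a i ≤ D
      omega
    · change a j ≤ D
      omega
    · change a k ≤ D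
      omega
    · change a i + a j ≤ D + 1
      omega
    · change a i + a k ≤ D + 1
      omega
    · change a j + a k ≤ D + 1
      omega
    · change D' + a i + a j + a k = 2 * D
      omega
  · have h2 := sum_diff3N (f := fun l => (a' l : ℤ)) (g := fun l => (a l : ℤ)) hij hik hjk
      (fun l g1 g2 g3 => by
        rw [eo l g1 g2 g3])
    rw [zi, zj, zk] at h2
    zify
    linarith
  · have h2 := sum_diff3N (f := fun l => (a' l : ℤ) ^ 2) (g := fun l => (a l : ℤ) ^ 2) hij hik hjk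
      (fun l g1 g2 g3 => by
        rw [eo l g1 g2 g3])
    rw [zi, zj, zk] at h2
    zify
    rw [zD, h2]
    ring

/-- **Regularity.** -/
theorem nefN_regular {N : ℕ} (hN3 : 3 ≤ N) : ∀ (D : ℕ) (a : Fin N → ℕ), NefN D a →
    ∑ i, a i + 1 ≤ 3 * D → hPm D a + ∑ i, (a i + 1).choose 2 = (D + 2).choose 2 := by
  classical
  intro D
  induction D using Nat.strong_induction_on with
  | _ D ih =>
  intro a hN hK
  by_cases h3 : ∃ i j k, i ≠ j ∧ i ≠ k ∧ j ≠ k ∧ D < a i + a j + a k
  · obtain ⟨i, j, k, hij, hik, hjk, hD⟩ := h3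
    obtain ⟨D', a', h1, h2, h3, h4, -⟩ := hN.quadratic hij hik hjk hD
    have h5 := ih D' h1 a' h2 (by omega)
    have h6 := h3.count
    have h7 := h3.le
    have h8 := hPm_count D a
    dsimp only at h6 h7
    omega
  · push Not at h3
    have h1 := reduced_regularN hN3 (t := fun i : Fin N => ((i : ℕ) : ℂ) + 1) (fun i j hij => by
      have h2 : ((i : ℕ) : ℂ) = ((j : ℕ) : ℂ) := add_right_cancel hij
      exact Fin.ext (by exact_mod_cast h2)) (fun i => Nat.cast_add_one_ne_zero _) D a h3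
      (Or.inl hK)
    have h2 := generic_le (gpt_generic N) D a (fun i => cpt (((i : ℕ) : ℂ) + 1))
    have h8 := hPm_count D a
    change hPm D a ≤ _ at h2
    omega

theorem reduced_sq_num {x y z S D Q : ℕ} (h1 : z ≤ y) (h2 : y ≤ x) (h3 : x + y + z ≤ D)
    (h4 : x + y + S ≤ 3 * D) (hQ : Q ≤ z * S) : x ^ 2 + (y ^ 2 + Q) ≤ D ^ 2 := by
  obtain ⟨β, rfl⟩ : ∃ β, y = z + β := ⟨y - z, by omega⟩
  obtain ⟨α, rfl⟩ : ∃ α, x = z + β + α := ⟨x - (z + β), by omega⟩
  obtain ⟨w, rfl⟩ : ∃ w, D = z + β + α + (z + β) + z + w := ⟨D - (z + β + α + (z + β) + z), by omega⟩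
  have h5 : z * S ≤ z * (7 * z + 4 * β + 2 * α + 3 * w) := Nat.mul_le_mul_left _ (by omega)
  have e1 : (z + β + α + (z + β) + z + w) ^ 2 = (z + β + α) ^ 2 + ((z + β) ^ 2 +
      z * (7 * z + 4 * β + 2 * α + 3 * w)) + (4 * (β * z) + 2 * (α * z) + 3 * (w * z) +
      2 * (β * β) + w * w + 2 * (α * β) + 4 * (β * w) + 2 * (α * w)) := by ring
  rw [e1]
  omega

/-- the self-intersection of a reduced class -/
theorem reduced_sq {N D : ℕ} (hN3 : 3 ≤ N) {a : Fin N → ℕ}
    (h3 : ∀ i j k, i ≠ j → i ≠ k → j ≠ k → a i + a j + a k ≤ D) (hK : ∑ i, a i ≤ 3 * D) :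
    ∑ i, a i ^ 2 ≤ D ^ 2 := by
  classical
  have hcard : (Finset.univ : Finset (Fin N)).card = N := by
    rw [Finset.card_univ, Fintype.card_fin]
  obtain ⟨x, -, hxm⟩ := Finset.exists_max_image (Finset.univ : Finset (Fin N)) a
    (Finset.card_pos.mp (by omega))
  have hc1 : (Finset.univ.erase x).card = N - 1 := by
    rw [Finset.card_erase_of_mem (Finset.mem_univ x), hcard]
  obtain ⟨y, hy, hym⟩ := Finset.exists_max_image (Finset.univ.erase x) a
    (Finset.card_pos.mp (by omega))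
  have hc2 : ((Finset.univ.erase x).erase y).card = N - 2 := by
    rw [Finset.card_erase_of_mem hy, hc1]
    omega
  obtain ⟨z, hz, hzm⟩ := Finset.exists_max_image ((Finset.univ.erase x).erase y) a
    (Finset.card_pos.mp (by omega))
  have hzx := Finset.mem_of_mem_erase hz
  have hxy : x ≠ y := fun h => (Finset.ne_of_mem_erase hy) h.symm
  have hyz : y ≠ z := fun h => (Finset.ne_of_mem_erase hz) h.symm
  have hxz : x ≠ z := fun h => (Finset.ne_of_mem_erase hzx) h.symm
  have g1 := h3 x y z hxy hxz hyz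
  have g2 := hym z hzx
  have g3 := hxm y (Finset.mem_univ y)
  have s1 : ∑ i, a i = a x + (a y + ∑ i ∈ (Finset.univ.erase x).erase y, a i) := by
    rw [Finset.add_sum_erase _ _ hy, Finset.add_sum_erase _ _ (Finset.mem_univ x)]
  have s2 : ∑ i, a i ^ 2 = a x ^ 2 + (a y ^ 2 + ∑ i ∈ (Finset.univ.erase x).erase y, a i ^ 2) := by
    rw [Finset.add_sum_erase _ (fun i => a i ^ 2) hy,
      Finset.add_sum_erase _ (fun i => a i ^ 2) (Finset.mem_univ x)]
  have s3 : ∑ i ∈ (Finset.univ.erase x).erase y, a i ^ 2 ≤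
      a z * ∑ i ∈ (Finset.univ.erase x).erase y, a i := by
    rw [Finset.mul_sum]
    refine Finset.sum_le_sum (fun i hi => ?_)
    rw [sq]
    exact Nat.mul_le_mul_right _ (hzm i hi)
  obtain ⟨S, hS⟩ : ∃ S, S = ∑ i ∈ (Finset.univ.erase x).erase y, a i := ⟨_, rfl⟩
  rw [← hS] at s1 s3
  rw [s2]
  exact reduced_sq_num g2 g3 g1 (by omega) s3

theorem nefN_sq {N : ℕ} (hN3 : 3 ≤ N) : ∀ (D : ℕ) (a : Fin N → ℕ), NefN D a →
    ∑ i, a i ≤ 3 * D → ∑ i, a i ^ 2 ≤ D ^ 2 := by
  classical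
  intro D
  induction D using Nat.strong_induction_on with
  | _ D ih =>
  intro a hN hK
  by_cases h3 : ∃ i j k, i ≠ j ∧ i ≠ k ∧ j ≠ k ∧ D < a i + a j + a k
  · obtain ⟨i, j, k, hij, hik, hjk, hD⟩ := h3
    obtain ⟨D', a', h1, h2, -, h4, h5⟩ := hN.quadratic hij hik hjk hD
    have h6 := ih D' h1 a' h2 (by omega)
    omega
  · push Not at h3
    exact reduced_sq hN3 h3 hK

end Pool.Agent.Work.MP_0421d9_ag.LD
end

section
/-!
One point of very large multiplicity, some further multiple points, and points of small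
multiplicity.
-/

namespace Pool.Agent.Work.MP_0421d9_ag.LD

open MvPolynomial Module

/-- maximal rank unless the expected dimension is close to zero -/
def Far {r : ℕ} (D : ℕ) (y : Fin r → ℕ) (F : ℕ) : Prop :=
  ((D + 2).choose 2 + F ≤ ∑ i, (y i + 1).choose 2 → hPm D y = 0) ∧
    (∑ i, (y i + 1).choose 2 + F ≤ (D + 2).choose 2 →
      hPm D y = (D + 2).choose 2 - ∑ i, (y i + 1).choose 2)

theorem Far.mono {r : ℕ} {D F F' : ℕ} {y : Fin r → ℕ} (h : Far D y F) (hF : F ≤ F') :
    Far D y F' :=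
  ⟨fun h3 => h.1 (by omega), fun h3 => h.2 (by omega)⟩

theorem far_of_exact {r : ℕ} {D F : ℕ} {y : Fin r → ℕ}
    (h : hPm D y = (D + 2).choose 2 - ∑ i, (y i + 1).choose 2) : Far D y F :=
  ⟨fun h3 => by omega, fun _ => h⟩

/-- few rows -/
theorem far_window {r D : ℕ} {y : Fin r → ℕ} {i₁ : Fin r} (hM : 1 ≤ y i₁) (hMD : y i₁ ≤ D)
    (hy : ∀ i, i ≠ i₁ → y i ≤ D - y i₁ + 1) : Far D y ((D - y i₁).choose 2 + 2) := by
  classical
  obtain ⟨M, hMe⟩ : ∃ M, y i₁ = M := ⟨_, rfl⟩
  rw [hMe] at hM hMD hy ⊢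
  obtain ⟨h, hh⟩ : ∃ h, h = D - M + 1 := ⟨_, rfl⟩
  have hch := fA_choose (D := D) (u := h) (by omega)
  have e1 : D - h + 2 = M + 1 := by omega
  rw [e1] at hch
  obtain ⟨k, hk⟩ : ∃ k, k = Function.update y i₁ 0 := ⟨_, rfl⟩
  have hle : hPm D y ≤ hTm D {α | α 2 < h} k := by
    have g1 := hPm_le_point (D := D) y i₁ (by rw [hMe]; exact hMD)
    rw [hMe, ← hk, ← hFm_swap] at g1
    change _ ≤ hTm D {α | α 2 ≤ D - M} k at g1
    have g2 : {α : Fin 3 →₀ ℕ | α 2 < h} = {α | α 2 ≤ D - M} := by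
      ext α
      simp only [Set.mem_ofPred_eq]
      omega
    rw [g2]
    exact g1
  have hkh : ∀ i, k i ≤ h := by
    intro i
    rw [hk]
    by_cases g1 : i = i₁
    · rw [g1, Function.update_self]
      exact Nat.zero_le _
    · rw [Function.update_of_ne g1, hh]
      exact hy i g1
  have hsum : ∑ i, (k i + 1).choose 2 + (M + 1).choose 2 = ∑ i, (y i + 1).choose 2 := by
    rw [← Finset.add_sum_erase _ _ (Finset.mem_univ i₁),
      ← Finset.add_sum_erase _ (fun i => (y i + 1).choose 2) (Finset.mem_univ i₁), hk,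
      Function.update_self, hMe]
    have g1 : ∑ i ∈ Finset.univ.erase i₁, (Function.update y i₁ 0 i + 1).choose 2 =
        ∑ i ∈ Finset.univ.erase i₁, (y i + 1).choose 2 :=
      Finset.sum_congr rfl (fun i hi => by
        rw [Function.update_of_ne (Finset.ne_of_mem_erase hi)])
    have g2 : (0 + 1).choose 2 = 0 := rfl
    rw [g1, g2]
    omega
  have e2 : D - M = h - 1 := by omega
  rw [e2]
  have hcount := hPm_count D y
  refine ⟨fun g => ?_, fun g => ?_⟩
  · have h0 : hTm D {α | α 2 < h} k = 0 := by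
      by_contra hcon
      have h3 : ∃ i, k i ≠ 0 := by
        by_contra h4
        push Not at h4
        have h5 : ∑ i, (k i + 1).choose 2 = 0 :=
          Finset.sum_eq_zero (fun i _ => by rw [h4 i]; rfl)
        omega
      have h4 := strip_window1 hkh (by omega) h3 hcon
      omega
    omega
  · have h4 := strip_window2 (D := D) (H := h) hkh (by omega) (by omega)
    omega

/-- **The step along a general line.** -/
theorem step_line {r u D κ F : ℕ} {y : Fin r → ℕ} {B : Finset (Fin r)} (hu : 1 ≤ u) (huκ : u ≤ κ)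
    (hκD : κ + 1 ≤ D) (hsm : ∀ i, i ∉ B → y i ≤ u) (hF : κ.choose 2 ≤ F)
    (hn : 2 * F + 3 * (u + 1).choose 2 + 3 ≤ D - κ + 1)
    (hN : ∑ i ∈ B, (y i + 1).choose 2 + F + 3 * (u + 1).choose 2 + 1 ≤ (D - κ + 2).choose 2)
    (hn1 : (D + 2).choose 2 ≤ ∑ i, (y i + 1).choose 2 + (u + 1).choose 2)
    (hn2 : ∑ i, (y i + 1).choose 2 ≤ (D + 2).choose 2 + (u + 1).choose 2)
    (h1 : ∀ P ⊆ offP B, Far (D - κ) (offF P y) F)
    (h2 : ∀ P ⊆ offP B, Far (D - κ - 1) (offF P y) F) :
    hPm D y = (D + 2).choose 2 - ∑ i, (y i + 1).choose 2 := by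
  classical
  have hch := fA_choose (D := D) (u := κ) (by omega)
  have hsum := sum_offP B (fun i => (y i + 1).choose 2)
  obtain ⟨W, hW⟩ : ∃ W, W = (u + 1).choose 2 := ⟨_, rfl⟩
  rw [← hW] at hn hN hn1 hn2
  have hWs : ∀ i ∈ offP B, (y i + 1).choose 2 ≤ W := by
    intro i hi
    rw [mem_offP] at hi
    rw [hW]
    exact Nat.choose_le_choose 2 (Nat.succ_le_succ (hsm i hi))
  obtain ⟨P, hP, h3, h4⟩ := greedy (T := fA D κ + (W + F + 1)) (offP B) hWs (by omega)
  obtain ⟨A, hA⟩ : ∃ A, ∑ i ∈ P, (y i + 1).choose 2 = fA D κ + A :=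
    ⟨∑ i ∈ P, (y i + 1).choose 2 - fA D κ, by omega⟩
  have hc : (κ - 1).choose 2 ≤ κ.choose 2 := Nat.choose_le_choose 2 (Nat.sub_le _ _)
  have hstrip := strip_of_finset (D := D) (κ := κ) (A := A) (y := y) P (by omega) hκD
    (fun i hi => by
      have := hP hi
      rw [mem_offP] at this
      exact (hsm i this).trans huκ)
    hA (by omega) (by omega)
  have hle := hstrip.le
  have hoffs := sum_offF P y
  have h5 := h1 P hP
  have h6 := h2 P hP
  have hcount := hPm_count D y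
  have hrow : (D - κ + 2).choose 2 = (D - κ + 1) + (D - κ - 1 + 2).choose 2 := by
    have e1 : D - κ - 1 + 2 = D - κ + 1 := by omega
    rw [e1, Nat.choose_succ_succ' (D - κ + 1) 1, Nat.choose_one_right]
  have h7 := h5.2 (by omega)
  have h8 := h6.1 (by omega)
  rcases le_max_iff.mp hle with h9 | h9 <;> omega

/-- one point `i₁` of very large multiplicity `M`, further points in `J`, all the others have
multiplicity at most `u`; the degree is `M + c` -/
structure Rul {r : ℕ} (u c : ℕ) (y : Fin r → ℕ) (i₁ : Fin r) (J : Finset (Fin r)) : Prop where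
  h1 : i₁ ∉ J
  card : J.card ≤ 8
  small : ∀ i, i ≠ i₁ → i ∉ J → y i ≤ u
  two : 2 * u ≤ c
  one : ∀ i, i ≠ i₁ → y i + u ≤ c
  pair : ∀ i j, i ≠ i₁ → j ≠ i₁ → i ≠ j → y i + y j ≤ c
  big : ∑ i ∈ J, y i + 26 * (u + 1) ^ 2 ≤ 2 * y i₁

theorem Rul.off {r u c : ℕ} {y : Fin r → ℕ} {i₁ : Fin r} {J : Finset (Fin r)}
    (h : Rul u c y i₁ J) {Q : Finset (Fin r)} (hQ : Q ⊆ offP (insert i₁ J)) :
    Rul u c (offF Q y) i₁ J ∧ offF Q y i₁ = y i₁ := by
  have hq : ∀ i, i ∈ Q → i ≠ i₁ ∧ i ∉ J := by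
    intro i hi
    have := hQ hi
    rw [mem_offP, Finset.mem_insert, not_or] at this
    exact this
  have e1 : offF Q y i₁ = y i₁ := offF_of_not_mem (fun hi => (hq _ hi).1 rfl)
  have e2 : ∀ i ∈ J, offF Q y i = y i := fun i hi => offF_of_not_mem (fun h => (hq _ h).2 hi)
  have hle : ∀ i, offF Q y i ≤ y i := by
    intro i
    unfold offF
    split_ifs
    · exact Nat.zero_le _
    · exact le_rfl
  refine ⟨⟨h.h1, h.card, fun i g1 g2 => (hle i).trans (h.small i g1 g2), h.two,
    fun i g1 => ?_, fun i j g1 g2 g3 => ?_, ?_⟩, e1⟩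
  · have := hle i
    have := h.one i g1
    omega
  · have := hle i
    have := hle j
    have := h.pair i j g1 g2 g3
    omega
  · rw [e1, Finset.sum_congr rfl e2]
    exact h.big

theorem Rul.app {r u c : ℕ} {y : Fin r → ℕ} {i₁ : Fin r} {J : Finset (Fin r)}
    (h : Rul u c y i₁ J) (n : ℕ) :
    Rul u c (Fin.append y (fun _ : Fin n => u)) (Fin.castAdd n i₁) (J.map (Fin.castAddEmb n)) := by
  have hinj := Fin.castAdd_injective r n
  have hcast : ∀ i, Fin.append y (fun _ : Fin n => u) (Fin.castAdd n i) = y i := fun i => by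
    rw [Fin.append_left]
  have hnat : ∀ j, Fin.append y (fun _ : Fin n => u) (Fin.natAdd r j) = u := fun j => by
    rw [Fin.append_right]
  refine ⟨?_, by rw [Finset.card_map]; exact h.card, ?_, h.two, ?_, ?_, ?_⟩
  · intro hm
    rw [Finset.mem_map] at hm
    obtain ⟨i, hi, hii⟩ := hm
    have h2 := hinj (hii : Fin.castAdd n i = Fin.castAdd n i₁)
    exact h.h1 (h2 ▸ hi)
  · intro i
    refine Fin.addCases (fun j g1 g2 => ?_) (fun j _ _ => ?_) i
    · rw [hcast]
      exact h.small j (fun hh => g1 (by rw [hh]))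
        (fun hh => g2 (Finset.mem_map_of_mem (Fin.castAddEmb n) hh))
    · rw [hnat]
  · intro i
    refine Fin.addCases (fun j g1 => ?_) (fun j _ => ?_) i
    · rw [hcast]
      exact h.one j (fun hh => g1 (by rw [hh]))
    · rw [hnat]
      have := h.two
      omega
  · intro i
    refine Fin.addCases (fun j => ?_) (fun j => ?_) i
    · intro l
      refine Fin.addCases (fun k g1 g2 g3 => ?_) (fun k g1 _ _ => ?_) l
      · rw [hcast, hcast]
        exact h.pair j k (fun hh => g1 (by rw [hh])) (fun hh => g2 (by rw [hh]))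
          (fun hh => g3 (by rw [hh]))
      · rw [hcast, hnat]
        exact h.one j (fun hh => g1 (by rw [hh]))
    · intro l
      refine Fin.addCases (fun k _ g2 _ => ?_) (fun k _ _ _ => ?_) l
      · rw [hcast, hnat]
        have := h.one k (fun hh => g2 (by rw [hh]))
        omega
      · rw [hnat, hnat]
        have := h.two
        omega
  · rw [hcast, Finset.sum_map]
    have e1 : ∀ i ∈ J, Fin.append y (fun _ : Fin n => u) (Fin.castAddEmb n i) = y i :=
      fun i _ => hcast i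
    rw [Finset.sum_congr rfl e1]
    exact h.big

/-- the points impose at most as many conditions as there are forms -/
theorem count_all {r c : ℕ} {z : Fin r → ℕ} {i₁ : Fin r} (h1 : ∀ i, i ≠ i₁ → z i ≤ c)
    (h2 : ∑ i ∈ Finset.univ.erase i₁, z i ≤ 2 * (z i₁ + 1)) :
    ∑ i, (z i + 1).choose 2 ≤ (z i₁ + c + 2).choose 2 := by
  classical
  rw [← Finset.add_sum_erase _ _ (Finset.mem_univ i₁)]
  obtain ⟨M, hM⟩ : ∃ M, z i₁ = M := ⟨_, rfl⟩
  rw [hM] at h2 ⊢
  have h3 : 2 * ∑ i ∈ Finset.univ.erase i₁, (z i + 1).choose 2 ≤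
      (c + 1) * ∑ i ∈ Finset.univ.erase i₁, z i := by
    rw [Finset.mul_sum, Finset.mul_sum]
    refine Finset.sum_le_sum (fun i hi => ?_)
    rw [tr_two_choose, Nat.mul_comm]
    exact Nat.mul_le_mul_right _ (Nat.succ_le_succ (h1 i (Finset.ne_of_mem_erase hi)))
  have h4 := Nat.mul_le_mul_left (c + 1) h2
  have h5 := two_mul_choose_two (M + c)
  have h6 := two_mul_choose_succ M
  have e1 : (M + c) * (M + c) = M * M + 2 * (M * c) + c * c := by ring
  have e2 : (c + 1) * (2 * (M + 1)) = 2 * (M * c) + 2 * c + 2 * M + 2 := by ring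
  have h7 : c ≤ c * c + c := by omega
  omega

/-- the residual systems are of the same kind -/
theorem Rul.resid {r u c κ n : ℕ} {y : Fin r → ℕ} {i₁ i₂ : Fin r} {J T P : Finset (Fin r)}
    (h : Rul u c y i₁ J) (hT : T ⊆ J) (hcard : T.card = 2 * n + 1) (h2 : i₂ ∈ T)
    (h2u : 2 * u + 1 ≤ y i₂) (hlo : ∀ i ∈ T, u + 1 ≤ y i)
    (hleft : ∀ i ∈ J, ∀ j ∈ J, i ∉ T → j ∉ T → u < y i → u < y j → i = j)
    (hκ : κ = u ∨ κ = u + 1) (hP : P ⊆ offP (insert i₁ J)) :
    Rul u (c - κ) (res i₁ T n κ P y) i₁ J ∧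
      res i₁ T n κ P y i₁ + (c - κ) = y i₁ + c - (n + 1) * κ ∧ κ ≤ c ∧ n * κ ≤ y i₁ := by
  classical
  have hκu : κ ≤ u + 1 := by
    rcases hκ with g | g <;> omega
  have hTc := Finset.card_le_card hT
  have hJc := h.card
  have hn : n ≤ 3 := by omega
  have hnκ : n * κ ≤ 3 * (u + 1) := Nat.mul_le_mul hn hκu
  have e0 : (u + 1) ^ 2 = u * u + 2 * u + 1 := by ring
  have hbig := h.big
  rw [e0] at hbig
  have h1T : i₁ ∉ T := fun hh => h.h1 (hT hh)
  have hne : i₂ ≠ i₁ := fun hh => h1T (hh ▸ h2)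
  have hone2 := h.one i₂ hne
  have hPJ : ∀ i ∈ J, i ∉ P := fun i hi hh => by
    have := hP hh
    rw [mem_offP] at this
    exact this (Finset.mem_insert_of_mem hi)
  have hle : ∀ i, offF P y i ≤ y i := by
    intro i
    unfold offF
    split_ifs
    · exact Nat.zero_le _
    · exact le_rfl
  have hM : n * κ ≤ y i₁ := by omega
  have hvT : ∀ i ∈ T, res i₁ T n κ P y i = y i - κ := fun i hi =>
    res_mem (fun hh => h1T (hh ▸ hi)) hi
  have hvO : ∀ i, i ≠ i₁ → i ∉ T → res i₁ T n κ P y i ≤ y i := fun i g1 g2 => by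
    rw [res_not_mem g1 g2]
    exact hle i
  have hv1 : res i₁ T n κ P y i₁ = y i₁ - n * κ := res_self
  have honeO : ∀ i, i ≠ i₁ → i ∉ T → y i + u ≤ c - κ := by
    intro i g1 g2
    have := h.pair i₂ i hne g1 (fun hh => g2 (hh ▸ h2))
    omega
  have hκc : κ ≤ c := by omega
  refine ⟨⟨h.h1, h.card, fun i g1 g2 => ?_, by omega, fun i g1 => ?_, fun i j g1 g2 g3 => ?_, ?_⟩,
    ?_, hκc, hM⟩
  · exact (hvO i g1 (fun hh => g2 (hT hh))).trans (h.small i g1 g2)
  · by_cases g2 : i ∈ T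
    · rw [hvT i g2]
      have := h.one i g1
      have := hlo i g2
      omega
    · have := hvO i g1 g2
      have := honeO i g1 g2
      omega
  · by_cases k1 : i ∈ T
    · rw [hvT i k1]
      have p1 := hlo i k1
      have p2 := h.pair i j g1 g2 g3
      by_cases k2 : j ∈ T
      · rw [hvT j k2]
        have p3 := hlo j k2
        omega
      · have := hvO j g2 k2
        omega
    · have p1 := hvO i g1 k1
      by_cases k2 : j ∈ T
      · rw [hvT j k2]
        have p2 := hlo j k2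
        have p3 := h.pair i j g1 g2 g3
        omega
      · have p2 := hvO j g2 k2
        have p3 := honeO i g1 k1
        have p4 := honeO j g2 k2
        by_cases k3 : y i ≤ u
        · omega
        by_cases k4 : y j ≤ u
        · omega
        exfalso
        have hiJ : i ∈ J := by
          by_contra hcon
          have := h.small i g1 hcon
          omega
        have hjJ : j ∈ J := by
          by_contra hcon
          have := h.small j g2 hcon
          omega
        exact g3 (hleft i hiJ j hjJ k1 k2 (by omega) (by omega))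
  · have hsum : ∑ i ∈ J, res i₁ T n κ P y i + (2 * n + 1) * κ = ∑ i ∈ J, y i := by
      rw [← Finset.sum_sdiff hT, ← Finset.sum_sdiff hT, Nat.add_assoc, ← hcard]
      have q1 : ∑ i ∈ J \ T, res i₁ T n κ P y i = ∑ i ∈ J \ T, y i :=
        Finset.sum_congr rfl (fun i hi => by
          rw [Finset.mem_sdiff] at hi
          have hii : i ≠ i₁ := fun hh => h.h1 (hh ▸ hi.1)
          rw [res_not_mem hii hi.2, offF_of_not_mem (hPJ i hi.1)])
      have q2 : ∑ i ∈ T, res i₁ T n κ P y i + T.card * κ = ∑ i ∈ T, y i := by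
        rw [← smul_eq_mul, ← Finset.sum_const, ← Finset.sum_add_distrib]
        exact Finset.sum_congr rfl (fun i hi => by
          rw [hvT i hi]
          have := hlo i hi
          omega)
      rw [q1, q2]
    have e1 : (2 * n + 1) * κ = 2 * (n * κ) + κ := by ring
    rw [hv1, e0]
    omega
  · rw [hv1]
    have e1 : (n + 1) * κ = n * κ + κ := by ring
    omega

end Pool.Agent.Work.MP_0421d9_ag.LD
end

section
/-!
One point of very large multiplicity, any number of further multiple points, and points of small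
multiplicity.
-/

namespace Pool.Agent.Work.MP_0421d9_ag.LD

open MvPolynomial Module

/-- one point `i₁` of very large multiplicity `M`, further points in `J`, all the others have
multiplicity at most `u`; the degree is `M + c` -/
structure RulN {r : ℕ} (u c : ℕ) (y : Fin r → ℕ) (i₁ : Fin r) (J : Finset (Fin r)) : Prop where
  h1 : i₁ ∉ J
  small : ∀ i, i ≠ i₁ → i ∉ J → y i ≤ u
  two : 2 * u ≤ c
  one : ∀ i, i ≠ i₁ → y i + u ≤ c
  pair : ∀ i j, i ≠ i₁ → j ≠ i₁ → i ≠ j → y i + y j ≤ c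
  big : ∑ i ∈ J, y i + 26 * (u + 1) ^ 2 ≤ 2 * y i₁

theorem RulN.off {r u c : ℕ} {y : Fin r → ℕ} {i₁ : Fin r} {J : Finset (Fin r)}
    (h : RulN u c y i₁ J) {Q : Finset (Fin r)} (hQ : Q ⊆ offP (insert i₁ J)) :
    RulN u c (offF Q y) i₁ J ∧ offF Q y i₁ = y i₁ := by
  have hq : ∀ i, i ∈ Q → i ≠ i₁ ∧ i ∉ J := by
    intro i hi
    have := hQ hi
    rw [mem_offP, Finset.mem_insert, not_or] at this
    exact this
  have e1 : offF Q y i₁ = y i₁ := offF_of_not_mem (fun hi => (hq _ hi).1 rfl)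
  have e2 : ∀ i ∈ J, offF Q y i = y i := fun i hi => offF_of_not_mem (fun h => (hq _ h).2 hi)
  have hle : ∀ i, offF Q y i ≤ y i := by
    intro i
    unfold offF
    split_ifs
    · exact Nat.zero_le _
    · exact le_rfl
  refine ⟨⟨h.h1, fun i g1 g2 => (hle i).trans (h.small i g1 g2), h.two,
    fun i g1 => ?_, fun i j g1 g2 g3 => ?_, ?_⟩, e1⟩
  · have := hle i
    have := h.one i g1
    omega
  · have := hle i
    have := hle j
    have := h.pair i j g1 g2 g3
    omega
  · rw [e1, Finset.sum_congr rfl e2]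
    exact h.big

theorem RulN.app {r u c : ℕ} {y : Fin r → ℕ} {i₁ : Fin r} {J : Finset (Fin r)}
    (h : RulN u c y i₁ J) (n : ℕ) :
    RulN u c (Fin.append y (fun _ : Fin n => u)) (Fin.castAdd n i₁) (J.map (Fin.castAddEmb n)) := by
  have hinj := Fin.castAdd_injective r n
  have hcast : ∀ i, Fin.append y (fun _ : Fin n => u) (Fin.castAdd n i) = y i := fun i => by
    rw [Fin.append_left]
  have hnat : ∀ j, Fin.append y (fun _ : Fin n => u) (Fin.natAdd r j) = u := fun j => by
    rw [Fin.append_right]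
  refine ⟨?_, ?_, h.two, ?_, ?_, ?_⟩
  · intro hm
    rw [Finset.mem_map] at hm
    obtain ⟨i, hi, hii⟩ := hm
    have h2 := hinj (hii : Fin.castAdd n i = Fin.castAdd n i₁)
    exact h.h1 (h2 ▸ hi)
  · intro i
    refine Fin.addCases (fun j g1 g2 => ?_) (fun j _ _ => ?_) i
    · rw [hcast]
      exact h.small j (fun hh => g1 (by rw [hh]))
        (fun hh => g2 (Finset.mem_map_of_mem (Fin.castAddEmb n) hh))
    · rw [hnat]
  · intro i
    refine Fin.addCases (fun j g1 => ?_) (fun j _ => ?_) i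
    · rw [hcast]
      exact h.one j (fun hh => g1 (by rw [hh]))
    · rw [hnat]
      have := h.two
      omega
  · intro i
    refine Fin.addCases (fun j => ?_) (fun j => ?_) i
    · intro l
      refine Fin.addCases (fun k g1 g2 g3 => ?_) (fun k g1 _ _ => ?_) l
      · rw [hcast, hcast]
        exact h.pair j k (fun hh => g1 (by rw [hh])) (fun hh => g2 (by rw [hh]))
          (fun hh => g3 (by rw [hh]))
      · rw [hcast, hnat]
        exact h.one j (fun hh => g1 (by rw [hh]))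
    · intro l
      refine Fin.addCases (fun k _ g2 _ => ?_) (fun k _ _ _ => ?_) l
      · rw [hcast, hnat]
        have := h.one k (fun hh => g2 (by rw [hh]))
        omega
      · rw [hnat, hnat]
        have := h.two
        omega
  · rw [hcast, Finset.sum_map]
    have e1 : ∀ i ∈ J, Fin.append y (fun _ : Fin n => u) (Fin.castAddEmb n i) = y i :=
      fun i _ => hcast i
    rw [Finset.sum_congr rfl e1]
    exact h.big

/-- numbers for the base -/
theorem rulN_num {u M D κ a S : ℕ} (hu : 1 ≤ u) (hM : 13 * (u + 1) ^ 2 ≤ M)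
    (hD : M + a ≤ D - κ)
    (hS : S + 13 * ((a + 1) * (u + 1) ^ 2) ≤ (M + 1).choose 2 + (a + 1) * M) :
    2 * ((3 * u).choose 2 + 2) + 3 * (u + 1).choose 2 + 3 ≤ D - κ + 1 ∧
    S + ((3 * u).choose 2 + 2) + 3 * (u + 1).choose 2 + 1 ≤ (D - κ + 2).choose 2 := by
  have e0 : (u + 1) ^ 2 = u * u + 2 * u + 1 := by ring
  have h1 : (M + a + 2).choose 2 ≤ (D - κ + 2).choose 2 := Nat.choose_le_choose 2 (by omega)
  have c1 := two_mul_choose_two (M + a)
  have c2 := two_mul_choose_succ M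
  have c5 := two_mul_choose_succ u
  have c6 : 2 * (3 * u).choose 2 + 3 * u = 9 * (u * u) := by
    obtain ⟨v, rfl⟩ : ∃ v, u = v + 1 := ⟨u - 1, by omega⟩
    have h2 := two_mul_choose_succ (3 * v + 2)
    have e1 : 3 * (v + 1) = 3 * v + 2 + 1 := by ring
    rw [e1, h2]
    ring
  have c7 : (M + a) * (M + a) = M * M + 2 * (M * a) + a * a := by ring
  have c8 : (a + 1) * M = M * a + M := by ring
  have h7 : 1 * (u + 1) ^ 2 ≤ (a + 1) * (u + 1) ^ 2 := Nat.mul_le_mul_right _ (by omega)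
  omega

theorem rulN_sum {r u c a : ℕ} {y : Fin r → ℕ} {i₁ : Fin r} {J : Finset (Fin r)}
    (h : RulN u c y i₁ J) (hJ : ∀ i, i ≠ i₁ → y i ≤ a) :
    ∑ i ∈ insert i₁ J, (y i + 1).choose 2 + 13 * ((a + 1) * (u + 1) ^ 2) ≤
      (y i₁ + 1).choose 2 + (a + 1) * y i₁ := by
  classical
  rw [Finset.sum_insert h.h1]
  have h1 : 2 * ∑ i ∈ J, (y i + 1).choose 2 ≤ (a + 1) * ∑ i ∈ J, y i := by
    rw [Finset.mul_sum, Finset.mul_sum]
    refine Finset.sum_le_sum (fun i hi => ?_)
    rw [tr_two_choose, Nat.mul_comm]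
    exact Nat.mul_le_mul_right _ (Nat.succ_le_succ (hJ i (fun hh => h.h1 (hh ▸ hi))))
  have h2 := Nat.mul_le_mul_left (a + 1) h.big
  have e1 : (a + 1) * (∑ i ∈ J, y i + 26 * (u + 1) ^ 2) = (a + 1) * ∑ i ∈ J, y i +
      26 * ((a + 1) * (u + 1) ^ 2) := by ring
  have e2 : (a + 1) * (2 * y i₁) = 2 * ((a + 1) * y i₁) := by ring
  omega

/-- the sizes of the two largest multiplicities -/
theorem rulN_two_largest {r u c : ℕ} {y : Fin r → ℕ} {i₁ : Fin r} {J : Finset (Fin r)}
    (h : RulN u c y i₁ J) (hJ : ∀ i, i ≠ i₁ → y i ≤ 2 * u) :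
    ∃ a b, u ≤ b ∧ b ≤ a ∧ a ≤ 2 * u ∧ a + b ≤ c ∧ (∀ i, i ≠ i₁ → y i ≤ a) ∧
      ∀ i j, i ≠ i₁ → j ≠ i₁ → i ≠ j → y i + y j ≤ a + b := by
  classical
  have hu2 := h.two
  rcases (Finset.univ.erase i₁).eq_empty_or_nonempty with hE | hE
  · refine ⟨u, u, le_rfl, le_rfl, by omega, by omega, fun i hi => ?_, fun i j hi _ _ => ?_⟩ <;>
    · exfalso
      have : i ∈ Finset.univ.erase i₁ := Finset.mem_erase.mpr ⟨hi, Finset.mem_univ i⟩
      rw [hE] at this
      exact Finset.notMem_empty i this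
  obtain ⟨i₂, hi₂, hmax⟩ := Finset.exists_max_image (Finset.univ.erase i₁) y hE
  rw [Finset.mem_erase] at hi₂
  have hm2 : ∀ i, i ≠ i₁ → y i ≤ y i₂ := fun i hi =>
    hmax i (Finset.mem_erase.mpr ⟨hi, Finset.mem_univ i⟩)
  have g1 := hJ i₂ hi₂.1
  have g2 := h.one i₂ hi₂.1
  rcases ((Finset.univ.erase i₁).erase i₂).eq_empty_or_nonempty with hE' | hE'
  · refine ⟨max (y i₂) u, u, le_rfl, le_max_right _ _, by omega, by omega,
      fun i hi => (hm2 i hi).trans (le_max_left _ _), fun i j hi hj hij => ?_⟩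
    exfalso
    have hall : ∀ l, l ≠ i₁ → l = i₂ := by
      intro l hl
      by_contra hcon
      have : l ∈ (Finset.univ.erase i₁).erase i₂ :=
        Finset.mem_erase.mpr ⟨hcon, Finset.mem_erase.mpr ⟨hl, Finset.mem_univ l⟩⟩
      rw [hE'] at this
      exact Finset.notMem_empty l this
    exact hij ((hall i hi).trans (hall j hj).symm)
  obtain ⟨i₃, hi₃, hmax'⟩ := Finset.exists_max_image ((Finset.univ.erase i₁).erase i₂) y hE'
  rw [Finset.mem_erase, Finset.mem_erase] at hi₃
  have hm3 : ∀ i, i ≠ i₁ → i ≠ i₂ → y i ≤ y i₃ := fun i hi hi' =>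
    hmax' i (Finset.mem_erase.mpr ⟨hi', Finset.mem_erase.mpr ⟨hi, Finset.mem_univ i⟩⟩)
  have g3 := hm2 i₃ hi₃.2.1
  have g4 := h.pair i₂ i₃ hi₂.1 hi₃.2.1 (Ne.symm hi₃.1)
  have g5 := hJ i₃ hi₃.2.1
  refine ⟨max (y i₂) u, max (y i₃) u, le_max_right _ _, by omega, by omega, by omega,
    fun i hi => (hm2 i hi).trans (le_max_left _ _), fun i j hi hj hij => ?_⟩
  have k1 := hm2 i hi
  have k2 := hm2 j hj
  by_cases k3 : i = i₂
  · have k4 := hm3 j hj (fun hh => hij (k3.trans hh.symm))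
    omega
  · have k4 := hm3 i hi k3
    omega

/-- the residual systems are of the same kind -/
theorem RulN.resid {r u c κ n : ℕ} {y : Fin r → ℕ} {i₁ i₂ : Fin r} {J T P : Finset (Fin r)}
    (h : RulN u c y i₁ J) (hT : T ⊆ J) (hcard : T.card = 2 * n + 1) (h2 : i₂ ∈ T)
    (h2u : 2 * u + 1 ≤ y i₂) (hlo : ∀ i ∈ T, u + 1 ≤ y i)
    (hleft : ∀ i ∈ J, ∀ j ∈ J, i ∉ T → j ∉ T → u < y i → u < y j → i = j)
    (hκ : κ = u ∨ κ = u + 1) (hP : P ⊆ offP (insert i₁ J)) :
    RulN u (c - κ) (res i₁ T n κ P y) i₁ J ∧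
      res i₁ T n κ P y i₁ + (c - κ) = y i₁ + c - (n + 1) * κ ∧ κ ≤ c ∧ n * κ ≤ y i₁ := by
  classical
  have hκu : κ ≤ u + 1 := by
    rcases hκ with g | g <;> omega
  have hnκ : n * κ ≤ n * (u + 1) := Nat.mul_le_mul_left n hκu
  have hTsum : (2 * n + 1) * (u + 1) ≤ ∑ i ∈ J, y i := by
    rw [← hcard, ← smul_eq_mul]
    exact (Finset.card_nsmul_le_sum T y (u + 1) hlo).trans (Finset.sum_le_sum_of_subset hT)
  have eT : (2 * n + 1) * (u + 1) = 2 * (n * (u + 1)) + (u + 1) := by ring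
  have e0 : (u + 1) ^ 2 = u * u + 2 * u + 1 := by ring
  have hbig := h.big
  rw [e0] at hbig
  have h1T : i₁ ∉ T := fun hh => h.h1 (hT hh)
  have hne : i₂ ≠ i₁ := fun hh => h1T (hh ▸ h2)
  have hone2 := h.one i₂ hne
  have hPJ : ∀ i ∈ J, i ∉ P := fun i hi hh => by
    have := hP hh
    rw [mem_offP] at this
    exact this (Finset.mem_insert_of_mem hi)
  have hle : ∀ i, offF P y i ≤ y i := by
    intro i
    unfold offF
    split_ifs
    · exact Nat.zero_le _
    · exact le_rfl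
  have hM : n * κ ≤ y i₁ := by omega
  have hvT : ∀ i ∈ T, res i₁ T n κ P y i = y i - κ := fun i hi =>
    res_mem (fun hh => h1T (hh ▸ hi)) hi
  have hvO : ∀ i, i ≠ i₁ → i ∉ T → res i₁ T n κ P y i ≤ y i := fun i g1 g2 => by
    rw [res_not_mem g1 g2]
    exact hle i
  have hv1 : res i₁ T n κ P y i₁ = y i₁ - n * κ := res_self
  have honeO : ∀ i, i ≠ i₁ → i ∉ T → y i + u ≤ c - κ := by
    intro i g1 g2
    have := h.pair i₂ i hne g1 (fun hh => g2 (hh ▸ h2))
    omega
  have hκc : κ ≤ c := by omega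
  refine ⟨⟨h.h1, fun i g1 g2 => ?_, by omega, fun i g1 => ?_, fun i j g1 g2 g3 => ?_, ?_⟩,
    ?_, hκc, hM⟩
  · exact (hvO i g1 (fun hh => g2 (hT hh))).trans (h.small i g1 g2)
  · by_cases g2 : i ∈ T
    · rw [hvT i g2]
      have := h.one i g1
      have := hlo i g2
      omega
    · have := hvO i g1 g2
      have := honeO i g1 g2
      omega
  · by_cases k1 : i ∈ T
    · rw [hvT i k1]
      have p1 := hlo i k1
      have p2 := h.pair i j g1 g2 g3
      by_cases k2 : j ∈ T
      · rw [hvT j k2]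
        have p3 := hlo j k2
        omega
      · have := hvO j g2 k2
        omega
    · have p1 := hvO i g1 k1
      by_cases k2 : j ∈ T
      · rw [hvT j k2]
        have p2 := hlo j k2
        have p3 := h.pair i j g1 g2 g3
        omega
      · have p2 := hvO j g2 k2
        have p3 := honeO i g1 k1
        have p4 := honeO j g2 k2
        by_cases k3 : y i ≤ u
        · omega
        by_cases k4 : y j ≤ u
        · omega
        exfalso
        have hiJ : i ∈ J := by
          by_contra hcon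
          have := h.small i g1 hcon
          omega
        have hjJ : j ∈ J := by
          by_contra hcon
          have := h.small j g2 hcon
          omega
        exact g3 (hleft i hiJ j hjJ k1 k2 (by omega) (by omega))
  · have hsum : ∑ i ∈ J, res i₁ T n κ P y i + (2 * n + 1) * κ = ∑ i ∈ J, y i := by
      rw [← Finset.sum_sdiff hT, ← Finset.sum_sdiff hT, Nat.add_assoc, ← hcard]
      have q1 : ∑ i ∈ J \ T, res i₁ T n κ P y i = ∑ i ∈ J \ T, y i :=
        Finset.sum_congr rfl (fun i hi => by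
          rw [Finset.mem_sdiff] at hi
          have hii : i ≠ i₁ := fun hh => h.h1 (hh ▸ hi.1)
          rw [res_not_mem hii hi.2, offF_of_not_mem (hPJ i hi.1)])
      have q2 : ∑ i ∈ T, res i₁ T n κ P y i + T.card * κ = ∑ i ∈ T, y i := by
        rw [← smul_eq_mul, ← Finset.sum_const, ← Finset.sum_add_distrib]
        exact Finset.sum_congr rfl (fun i hi => by
          rw [hvT i hi]
          have := hlo i hi
          omega)
      rw [q1, q2]
    have e1 : (2 * n + 1) * κ = 2 * (n * κ) + κ := by ring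
    rw [hv1, e0]
    omega
  · rw [hv1]
    have e1 : (n + 1) * κ = n * κ + κ := by ring
    omega

/-- **One point of very large multiplicity**, any further multiple points with
`m i + m j ≤ d - M`, and points of multiplicity at most `u`. -/
theorem rulN_main {u : ℕ} (hu : 1 ≤ u) : ∀ (c r : ℕ) (y : Fin r → ℕ) (i₁ : Fin r)
    (J : Finset (Fin r)), RulN u c y i₁ J →
    hPm (y i₁ + c) y = (y i₁ + c + 2).choose 2 - ∑ i, (y i + 1).choose 2 := by
  classical
  intro c
  induction c using Nat.strong_induction_on with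
  | _ c ih =>
  intro r₀ y₀ i₀ J₀ h₀
  obtain ⟨M, hM⟩ : ∃ M, y₀ i₀ = M := ⟨_, rfl⟩
  rw [hM]
  have e0 : (u + 1) ^ 2 = u * u + 2 * u + 1 := by ring
  refine of_near (u := u) (D := M + c) hu
    (fun r y B => ∃ i₁ J, B = insert i₁ J ∧ RulN u c y i₁ J ∧ y i₁ = M) ?_ ?_ ?_ ?_ ?_
    (B := insert i₀ J₀) ⟨i₀, J₀, rfl, h₀, hM⟩
  · rintro r y B ⟨i₁, J, rfl, h, -⟩ i hi
    rw [Finset.mem_insert, not_or] at hi
    exact h.small i hi.1 hi.2
  · rintro r y B ⟨i₁, J, rfl, h, hM⟩
    have h1 := count_all (z := onB (insert i₁ J) y) (i₁ := i₁) (c := c) (fun i hi => by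
      unfold onB
      split_ifs
      · have := h.one i hi
        omega
      · exact Nat.zero_le _) (by
      have e1 : onB (insert i₁ J) y i₁ = y i₁ := if_pos (Finset.mem_insert_self i₁ J)
      rw [e1]
      have e2 : ∑ i ∈ Finset.univ.erase i₁, onB (insert i₁ J) y i = ∑ i ∈ J, y i := by
        have hsub : J ⊆ Finset.univ.erase i₁ := fun i hi =>
          Finset.mem_erase.mpr ⟨fun hh => h.h1 (hh ▸ hi), Finset.mem_univ i⟩
        rw [← Finset.sum_subset hsub]
        · exact Finset.sum_congr rfl (fun i hi => if_pos (Finset.mem_insert_of_mem hi))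
        · intro i hi hi'
          unfold onB
          rw [if_neg]
          rw [Finset.mem_insert, not_or]
          exact ⟨Finset.ne_of_mem_erase hi, hi'⟩
      rw [e2]
      have := h.big
      omega)
    rw [sum_onB] at h1
    have e1 : onB (insert i₁ J) y i₁ = M := by
      rw [← hM]
      exact if_pos (Finset.mem_insert_self i₁ J)
    rwa [e1] at h1
  · rintro r y B Q ⟨i₁, J, rfl, h, hM⟩ hQ
    obtain ⟨g1, g2⟩ := h.off hQ
    exact ⟨i₁, J, rfl, g1, g2.trans hM⟩
  · rintro r y B n ⟨i₁, J, rfl, h, hM⟩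
    refine ⟨Fin.castAdd n i₁, J.map (Fin.castAddEmb n), ?_, h.app n, ?_⟩
    · rw [Finset.map_insert]
      rfl
    · rw [Fin.append_left]
      exact hM
  · rintro r y B ⟨i₁, J, rfl, h, hM⟩ hn1 hn2
    have hbig := h.big
    rw [e0] at hbig
    have hsm : ∀ i, i ∉ insert i₁ J → y i ≤ u := by
      intro i hi
      rw [Finset.mem_insert, not_or] at hi
      exact h.small i hi.1 hi.2
    by_cases hlarge : ∃ i, i ≠ i₁ ∧ 2 * u + 1 ≤ y i
    · -- a section through the multiple points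
      obtain ⟨J₁, hJ₁⟩ : ∃ J₁, J₁ = J.filter (fun i => u + 1 ≤ y i) := ⟨_, rfl⟩
      have hJ₁m : ∀ i, i ∈ J₁ ↔ i ∈ J ∧ u + 1 ≤ y i := by
        intro i
        rw [hJ₁, Finset.mem_filter]
      obtain ⟨i₂, hi₂, hi₂'⟩ := hlarge
      have hi₂J : i₂ ∈ J := by
        by_contra hcon
        have := h.small i₂ hi₂ hcon
        omega
      have hi₂J₁ : i₂ ∈ J₁ := (hJ₁m i₂).mpr ⟨hi₂J, by omega⟩
      obtain ⟨T, n, hTJ₁, hcard, hi₂T, hleft⟩ : ∃ (T : Finset (Fin r)) (n : ℕ), T ⊆ J₁ ∧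
          T.card = 2 * n + 1 ∧ i₂ ∈ T ∧ ∀ i ∈ J₁, ∀ j ∈ J₁, i ∉ T → j ∉ T → i = j := by
        rcases Nat.even_or_odd' J₁.card with ⟨n, hn | hn⟩
        · have hpos : 0 < J₁.card := Finset.card_pos.mpr ⟨i₂, hi₂J₁⟩
          obtain ⟨i₃, hi₃⟩ : (J₁.erase i₂).Nonempty := by
            rw [← Finset.card_pos, Finset.card_erase_of_mem hi₂J₁]
            omega
          rw [Finset.mem_erase] at hi₃
          refine ⟨J₁.erase i₃, n - 1, Finset.erase_subset _ _, ?_,
            Finset.mem_erase.mpr ⟨Ne.symm hi₃.1, hi₂J₁⟩, ?_⟩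
          · rw [Finset.card_erase_of_mem hi₃.2]
            omega
          · intro i hi j hj g1 g2
            have q1 : i = i₃ := by
              by_contra hcon
              exact g1 (Finset.mem_erase.mpr ⟨hcon, hi⟩)
            have q2 : j = i₃ := by
              by_contra hcon
              exact g2 (Finset.mem_erase.mpr ⟨hcon, hj⟩)
            exact q1.trans q2.symm
        · exact ⟨J₁, n, Finset.Subset.refl _, hn, hi₂J₁, fun i hi j _ g1 => absurd hi g1⟩
      have hTJ : T ⊆ J := fun i hi => ((hJ₁m i).mp (hTJ₁ hi)).1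
      have hTlo : ∀ i ∈ T, u + 1 ≤ y i := fun i hi => ((hJ₁m i).mp (hTJ₁ hi)).2
      have hTne : ∀ i ∈ T, i ≠ i₁ := fun i hi hh => h.h1 (hh ▸ hTJ hi)
      have hleft' : ∀ i ∈ J, ∀ j ∈ J, i ∉ T → j ∉ T → u < y i → u < y j → i = j :=
        fun i hi j hj g1 g2 g3 g4 => hleft i ((hJ₁m i).mpr ⟨hi, g3⟩) j ((hJ₁m j).mpr ⟨hj, g4⟩) g1 g2
      have hR := fun κ (hκ : κ = u ∨ κ = u + 1) P (hP : P ⊆ offP (insert i₁ J)) =>
        h.resid (κ := κ) (n := n) hTJ hcard hi₂T hi₂' hTlo hleft' hκ hP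
      obtain ⟨r1, r2, r3, r4⟩ := hR (u + 1) (Or.inr rfl) (offP (insert i₁ J))
        (Finset.Subset.refl _)
      refine step_section (B := insert i₁ J) (i₁ := i₁) (i₂ := i₂) hu
        (Finset.mem_insert_self i₁ J) hi₂ n (D := M + c) (c := c) (T := T) hcard hi₂T
        (fun hh => h.h1 (hTJ hh)) (fun i hi => Finset.mem_insert_of_mem (hTJ hi)) hsm
        (by rw [hM]) hTlo (fun i hi => ?_)
        (fun i hi j hj hij => h.pair i j (hTne i hi) (hTne j hj) hij) r4 (by rw [e0]; omega)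
        ?_ hn1 hn2 (fun κ hκ P hP => ?_)
      · have := h.one i (hTne i hi)
        omega
      · have q1 := count_all (z := res i₁ T n (u + 1) (offP (insert i₁ J)) y) (i₁ := i₁)
          (c := c - (u + 1)) (fun i hi => by
            have := r1.one i hi
            omega) (by
          have hsub : J ⊆ Finset.univ.erase i₁ := fun i hi =>
            Finset.mem_erase.mpr ⟨fun hh => h.h1 (hh ▸ hi), Finset.mem_univ i⟩
          rw [← Finset.sum_subset hsub (fun i hi hi' => ?_)]
          · have := r1.big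
            omega
          · rw [res_not_mem (Finset.ne_of_mem_erase hi) (fun hh => hi' (hTJ hh))]
            refine offF_of_mem ?_
            rw [mem_offP, Finset.mem_insert, not_or]
            exact ⟨Finset.ne_of_mem_erase hi, hi'⟩)
        rw [r2, hM] at q1
        exact q1
      · obtain ⟨s1, s2, s3, s4⟩ := hR κ hκ P hP
        have hκ1 : 1 ≤ κ := by
          rcases hκ with g | g <;> omega
        have q1 := ih (c - κ) (by omega) r _ i₁ J s1
        rw [s2, hM] at q1
        exact q1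
    · -- a general line
      push Not at hlarge
      have hJ2 : ∀ i, i ≠ i₁ → y i ≤ 2 * u := by
        intro i hi
        have := hlarge i hi
        omega
      obtain ⟨a, b, hub, hba, ha2, habc, hya, hyab⟩ := rulN_two_largest h hJ2
      have hS := rulN_sum h hya
      rw [hM] at hS
      have hoff1 : ∀ P ⊆ offP (insert i₁ J), RulN u c (offF P y) i₁ J ∧ offF P y i₁ = M := by
        intro P hP
        obtain ⟨g1, g2⟩ := h.off hP
        exact ⟨g1, g2.trans hM⟩
      have hle : ∀ (P : Finset (Fin r)) i, offF P y i ≤ y i := by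
        intro P i
        unfold offF
        split_ifs
        · exact Nat.zero_le _
        · exact le_rfl
      rcases Nat.lt_or_ge c (a + b + (u + 1)) with hc | hc
      · obtain ⟨hn, hN⟩ := rulN_num (κ := b) (D := M + c) hu (by rw [e0]; omega) (by omega) hS
        have hw : ∀ κ', (κ' = b ∨ κ' = b + 1) → ∀ P ⊆ offP (insert i₁ J),
            Far (M + c - κ') (offF P y) ((3 * u).choose 2 + 2) := by
          intro κ' hκ' P hP
          obtain ⟨-, g2⟩ := hoff1 P hP
          have g3 := far_window (D := M + c - κ') (y := offF P y) (i₁ := i₁)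
            (by rw [g2]; omega) (by rw [g2]; omega) (fun i hi => by
              rw [g2]
              have := hle P i
              have := hya i hi
              omega)
          rw [g2] at g3
          refine g3.mono ?_
          have : (M + c - κ' - M).choose 2 ≤ (3 * u).choose 2 :=
            Nat.choose_le_choose 2 (by omega)
          omega
        refine step_line hu hub (by omega) hsm ?_ hn hN hn1 hn2 (fun P hP => hw b (Or.inl rfl) P hP)
          (fun P hP => ?_)
        · have : b.choose 2 ≤ (3 * u).choose 2 := Nat.choose_le_choose 2 (by omega)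
          omega
        · have e1 : M + c - b - 1 = M + c - (b + 1) := by omega
          rw [e1]
          exact hw (b + 1) (Or.inr rfl) P hP
      · obtain ⟨hn, hN⟩ := rulN_num (κ := u) (D := M + c) hu (by rw [e0]; omega) (by omega) hS
        have hw : ∀ κ', (κ' = u ∨ κ' = u + 1) → ∀ P ⊆ offP (insert i₁ J),
            Far (M + c - κ') (offF P y) ((3 * u).choose 2 + 2) := by
          intro κ' hκ' P hP
          obtain ⟨g1, g2⟩ := hoff1 P hP
          have g3 : RulN u (c - κ') (offF P y) i₁ J := by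
            refine ⟨g1.h1, g1.small, by omega, fun i hi => ?_, fun i j hi hj hij => ?_,
              g1.big⟩
            · have := hle P i
              have := hya i hi
              omega
            · have := hle P i
              have := hle P j
              have := hyab i j hi hj hij
              omega
          have g4 := ih (c - κ') (by omega) r _ i₁ J g3
          rw [g2] at g4
          have e1 : M + (c - κ') = M + c - κ' := by omega
          rw [e1] at g4
          exact far_of_exact g4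
        refine step_line hu le_rfl (by omega) hsm ?_ hn hN hn1 hn2
          (fun P hP => hw u (Or.inl rfl) P hP) (fun P hP => ?_)
        · have : u.choose 2 ≤ (3 * u).choose 2 := Nat.choose_le_choose 2 (by omega)
          omega
        · have e1 : M + c - u - 1 = M + c - (u + 1) := by omega
          rw [e1]
          exact hw (u + 1) (Or.inr rfl) P hP

end Pool.Agent.Work.MP_0421d9_ag.LD
end

section
/-!
Relative theorems based on the two-scale square root window: strips along general lines, and along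
general lines through a point.
-/

namespace Pool.Agent.Work.MP_0421d9_ag.LD

open MvPolynomial Module

theorem kq_sum {X S k e u M : ℕ} (hk : 1 ≤ k) (he : 1 ≤ e) (hu : k + e = u) (huM : u ≤ M)
    (hS : 1 ≤ S) (hX : 1 ≤ X) (h : e * X + k * S ≤ k * e * M) :
    X + S ≤ (M - 1) * (u - 1) + 1 := by
  -- by symmetry `e ≤ k`
  have key : ∀ {X S k e : ℕ}, 1 ≤ e → e ≤ k → k + e = u → 1 ≤ S →
      e * X + k * S ≤ k * e * M → X + S ≤ (M - 1) * (u - 1) + 1 := by
    intro X S k e he hek hu hS h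
    obtain ⟨f, rfl⟩ : ∃ f, e = f + 1 := ⟨e - 1, by omega⟩
    obtain ⟨n, rfl⟩ : ∃ n, k = f + 1 + n := ⟨k - (f + 1), by omega⟩
    obtain ⟨g, rfl⟩ : ∃ g, M = u + g := ⟨M - u, by omega⟩
    subst hu
    have e1 : f + 1 + n + (f + 1) + g - 1 = 2 * f + 1 + n + g := by omega
    have e2 : f + 1 + n + (f + 1) - 1 = 2 * f + 1 + n := by omega
    rw [e1, e2]
    by_contra hcon
    push Not at hcon
    have h1 : (f + 1) * ((2 * f + 1 + n + g) * (2 * f + 1 + n) + 2) ≤ (f + 1) * (X + S) :=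
      Nat.mul_le_mul_left _ hcon
    have h2 : n * 1 ≤ n * S := Nat.mul_le_mul_left n hS
    have h3 : (f + 1) * (X + S) + n * S = (f + 1) * X + (f + 1 + n) * S := by ring
    have h4 : (f + 1 + n) * (f + 1) * (f + 1 + n + (f + 1) + g) + (f + 1) + n ≤
        (f + 1) * ((2 * f + 1 + n + g) * (2 * f + 1 + n) + 2) + n * 1 := by
      nlinarith [Nat.zero_le (f * f * f), Nat.zero_le (f * f * n), Nat.zero_le (f * f * g),
        Nat.zero_le (f * n * n), Nat.zero_le (f * n * g), Nat.zero_le (f * f),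
        Nat.zero_le (f * n), Nat.zero_le (f * g), Nat.zero_le (n * g)]
    omega
  rcases Nat.le_total e k with h1 | h1
  · exact key he h1 hu hS h
  · have h2 := key (X := S) (S := X) (k := e) (e := k) hk h1 (by omega) hX (by
      rw [Nat.mul_comm e k]
      omega)
    omega

/-- the window -/
theorem kq_base {r u M D U S : ℕ} {y : Fin r → ℕ} (B : Finset (Fin r))
    (huM : u ≤ M) (hM : ∀ i, y i ≤ M) (hms : ∀ i, i ∉ B → y i ≤ u)
    (hreg : hPm D (onB B y) + ∑ i, (onB B y i + 1).choose 2 = (D + 2).choose 2)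
    (h : (M - 1) * (u - 1) ≤ U + S) :
    (hPm D y : ℤ) ≤ max (U : ℤ) (MM.chi D y + S) := by
  have hp := gpt_generic r
  by_cases h0 : linSys D (gpt r) y = ⊥
  · have h1 : hPm D y = 0 := by
      unfold hPm
      rw [h0, finrank_bot]
    rw [h1]
    exact le_max_of_le_left (by positivity)
  by_cases h1 : finrank ℂ (linSys D (gpt r) y) + ∑ i, (y i + 1).choose 2 = (D + 2).choose 2
  · apply le_max_of_le_right
    unfold MM.chi hPm
    have h2 : ((finrank ℂ (linSys D (gpt r) y) + ∑ i, (y i + 1).choose 2 : ℕ) : ℤ) =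
        (((D + 2).choose 2 : ℕ) : ℤ) := by rw [h1]
    push_cast at h2 ⊢
    linarith
  obtain ⟨k, e, S₁, hk, he, hke, hS₁, h2, h3⟩ := kq_window hp huM hM B hms hreg h0 h1
  have hfin : Module.Finite ℂ (linSys D (gpt r) y) :=
    Submodule.finiteDimensional_of_le (linSys_le D _ _)
  have hpos : 1 ≤ finrank ℂ (linSys D (gpt r) y) := by
    rw [Nat.one_le_iff_ne_zero]
    exact fun h0' => h0 (Submodule.finrank_eq_zero.mp h0')
  have h8 := kq_sum hk he hke huM hS₁ hpos h3
  by_contra hcon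
  rw [not_le, max_lt_iff] at hcon
  obtain ⟨h4, h5⟩ := hcon
  have h4' : U + 1 ≤ hPm D y := by exact_mod_cast h4
  have h5' : S + 1 ≤ S₁ := by
    unfold MM.chi at h5
    have h6 : ((finrank ℂ (linSys D (gpt r) y) + ∑ i, (y i + 1).choose 2 : ℕ) : ℤ) =
        (((D + 2).choose 2 + S₁ : ℕ) : ℤ) := by rw [h2]
    have h7 : hPm D y = finrank ℂ (linSys D (gpt r) y) := rfl
    rw [h7] at h5
    push_cast at h5 h6
    have h8 : (S : ℤ) + 1 ≤ S₁ := by linarith
    exact_mod_cast h8
  have h7 : hPm D y = finrank ℂ (linSys D (gpt r) y) := rfl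
  omega

/-- a system with many more forms than conditions -/
theorem kq_regular {r u M D : ℕ} {y : Fin r → ℕ} (B : Finset (Fin r))
    (huM : u ≤ M) (hM : ∀ i, y i ≤ M) (hms : ∀ i, i ∉ B → y i ≤ u)
    (hreg : hPm D (onB B y) + ∑ i, (onB B y i + 1).choose 2 = (D + 2).choose 2)
    (h : (M - 1) * (u - 1) + ∑ i, (y i + 1).choose 2 ≤ (D + 2).choose 2) :
    hPm D y + ∑ i, (y i + 1).choose 2 = (D + 2).choose 2 := by
  have h1 : hPm D y = (D + 2).choose 2 - ∑ i, (y i + 1).choose 2 :=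
    kq_nonspecial (gpt_generic r) huM hM B hms hreg (Or.inr (by omega))
  omega

/-! ### strips along general lines -/

theorem relH_aux {r u M D₁ g : ℕ} {m : Fin r → ℕ} (B : Finset (Fin r)) (hu : 1 ≤ u)
    (huM : u ≤ M) (hM : ∀ i, m i ≤ M) (hms : ∀ i, i ∉ B → m i ≤ u)
    (hreg : hPm D₁ (onB B m) + ∑ i, (onB B m i + 1).choose 2 = (D₁ + 2).choose 2)
    (h2 : 2 * ∑ i, (onB B m i + 1).choose 2 + 2 * ((M - 1) * (u - 1)) +
      (2 * u + 1) * (D₁ + 1) ≤ (D₁ + 2) * (D₁ + 1))
    (hg1 : u.choose 2 + 2 ≤ g) (hg2 : 2 * g + (u + 1).choose 2 + u ≤ D₁ + 1) :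
    ∀ D, D₁ ≤ D → ∀ (y : Fin r → ℕ) (U S : ℕ),
    (∀ i ∈ B, y i = m i) → (∀ i, y i ≤ m i) →
    (M - 1) * (u - 1) ≤ U + S + g * ((D - D₁) / (u + 1)) →
    (hPm D y : ℤ) ≤ max (U : ℤ) (MM.chi D y + S) := by
  obtain ⟨W, hW⟩ : ∃ W, W = (M - 1) * (u - 1) := ⟨_, rfl⟩
  rw [← hW] at h2 ⊢
  intro D
  induction D using Nat.strong_induction_on with
  | _ D ih =>
  intro hD y U S hyB hym hpot
  have hyM : ∀ i, y i ≤ M := fun i => (hym i).trans (hM i)
  have hyu : ∀ i, i ∉ B → y i ≤ u := fun i hi => (hym i).trans (hms i hi)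
  have hregy : hPm D (onB B y) + ∑ i, (onB B y i + 1).choose 2 = (D + 2).choose 2 := by
    rw [onB_congr hyB]
    exact linSys_reg_mono (onB B m) (fun i => generic_coord_ne (gpt_generic r) i 2) hD hreg
  rcases Nat.lt_or_ge (U + S) W with hUS | hUS
  swap
  · exact kq_base B huM hyM hyu hregy (by rw [← hW]; exact hUS)
  have hK : 1 ≤ (D - D₁) / (u + 1) := by
    rcases Nat.eq_zero_or_pos ((D - D₁) / (u + 1)) with h0 | h0
    · rw [h0, Nat.mul_zero] at hpot
      omega
    · exact h0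
  have hDu : u + 1 ≤ D - D₁ := by
    rw [Nat.le_div_iff_mul_le (by omega)] at hK
    omega
  rcases Nat.lt_or_ge (∑ i ∈ offP B, (y i + 1).choose 2) (fA D u + g) with hfew | hmany
  · have hfA := fA_eq (D := D) (H := u) (by omega)
    have h3 : 2 * ∑ i, (onB B m i + 1).choose 2 + 2 * W + (2 * u + 1) * (D + 1) ≤
        (D + 2) * (D + 1) := fs_room h2 hD
    have h4 := sum_offP B (fun i => (y i + 1).choose 2)
    have h5 : ∑ i ∈ B, (y i + 1).choose 2 = ∑ i, (onB B m i + 1).choose 2 := by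
      rw [← sum_onB, onB_congr hyB]
    have h6 : 2 * (D + 2).choose 2 = (D + 2) * (D + 1) := by
      have h6 := tr_two_choose (D + 1)
      rw [h6]
      ring
    have e3 : (2 * u + 1) * (D + 1) = 2 * (u * (D + 1)) + (D + 1) := by ring
    have h7 := kq_regular B huM hyM hyu hregy (by rw [← hW]; omega)
    apply le_max_of_le_right
    unfold MM.chi
    have h8 : ((hPm D y + ∑ i, (y i + 1).choose 2 : ℕ) : ℤ) =
        (((D + 2).choose 2 : ℕ) : ℤ) := by rw [h7]
    push_cast at h8 ⊢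
    linarith
  obtain ⟨A, y', hs, hA, hA', hy'B⟩ := fs_strip (g := g) B hu hyu (by omega) hg1 (by omega) hmany
  obtain ⟨h1, h2', h3, h4, h5, h6⟩ := hs.count
  have hle := hs.le
  have hyB' : ∀ i ∈ B, y' i = m i := fun i hi => (hy'B i hi).trans (hyB i hi)
  have hym' : ∀ i, y' i ≤ m i := by
    intro i
    rcases h4 i with h | h
    · rw [h]
      exact hym i
    · rw [h]
      exact Nat.zero_le _
  have hdiv : ∀ D', D ≤ D' + (u + 1) → D₁ ≤ D' →
      g * ((D - D₁) / (u + 1)) ≤ g * ((D' - D₁) / (u + 1)) + g := by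
    intro D' h1 h3
    have h4 : (D - D₁) / (u + 1) ≤ (D' - D₁) / (u + 1) + 1 := by
      rw [← Nat.add_div_right _ (by omega : 0 < u + 1)]
      exact Nat.div_le_div_right (by omega)
    have h5 := Nat.mul_le_mul_left g h4
    rw [Nat.mul_add, Nat.mul_one] at h5
    exact h5
  have c1 := ih (D - u) (by omega) (by omega) y' (U + A) S hyB' hym' (by
    have := hdiv (D - u) (by omega) (by omega)
    omega)
  have c2 := ih (D - u - 1) (by omega) (by omega) y' U (S + (D - u + 1 - A)) hyB' hym' (by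
    have := hdiv (D - u - 1) (by omega) (by omega)
    omega)
  have e1 : MM.chi (D - u) y' = MM.chi D y + A := by
    unfold MM.chi
    have h10 : (((D + 2).choose 2 + A + ∑ i, (y' i + 1).choose 2 : ℕ) : ℤ) =
        (((D - u + 2).choose 2 + ∑ i, (y i + 1).choose 2 : ℕ) : ℤ) := by rw [h5]
    push_cast at h10 ⊢
    linarith
  have e2 : MM.chi (D - u - 1) y' = MM.chi D y - ((D - u + 1 - A : ℕ) : ℤ) := by
    have h11 : (((D - u + 2).choose 2 : ℕ) : ℤ) =
        (((D - u - 1 + 2).choose 2 + (D - u + 1) : ℕ) : ℤ) := by rw [h6]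
    have h12 : ((D - u + 1 - A : ℕ) : ℤ) = ((D - u + 1 : ℕ) : ℤ) - A := Nat.cast_sub h3
    have h13 : MM.chi (D - u) y' = MM.chi (D - u - 1) y' + ((D - u + 1 : ℕ) : ℤ) := by
      unfold MM.chi
      rw [h11]
      push_cast
      ring
    rw [h12]
    linarith
  rw [e1] at c1
  rw [e2] at c2
  push_cast at c1 c2
  have h14 : (hPm D y : ℤ) ≤ max ((hPm (D - u) y' : ℤ) - A) (hPm (D - u - 1) y' : ℤ) ∨
      (hPm D y : ℤ) ≤ 0 := by
    rcases le_max_iff.mp hle with h | h
    · rcases Nat.lt_or_ge (hPm (D - u) y') A with h' | h'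
      · right
        have : hPm D y = 0 := by omega
        rw [this]
        simp
      · left
        apply le_max_of_le_left
        have : ((hPm (D - u) y' - A : ℕ) : ℤ) = (hPm (D - u) y' : ℤ) - A := Nat.cast_sub h'
        rw [← this]
        exact_mod_cast h
    · left
      apply le_max_of_le_right
      exact_mod_cast h
  rcases h14 with h14 | h14
  · rcases le_max_iff.mp h14 with h15 | h15
    · rcases le_max_iff.mp c1 with h16 | h16
      · apply le_max_of_le_left
        linarith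
      · apply le_max_of_le_right
        linarith
    · rcases le_max_iff.mp c2 with h16 | h16
      · apply le_max_of_le_left
        linarith
      · apply le_max_of_le_right
        linarith
  · apply le_max_of_le_left
    exact h14.trans (by positivity)

theorem exact_of_max {r d : ℕ} {m : Fin r → ℕ} (h1 : (hPm d m : ℤ) ≤ max 0 (MM.chi d m)) :
    hPm d m = (d + 2).choose 2 - ∑ i, (m i + 1).choose 2 := by
  have h3 := MM.hPm_count d m
  unfold MM.chi at h1
  rcases le_max_iff.mp h1 with h4 | h4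
  · have h5 : hPm d m = 0 := by
      have : hPm d m ≤ 0 := by exact_mod_cast h4
      omega
    omega
  · have h5 : hPm d m + ∑ i, (m i + 1).choose 2 ≤ (d + 2).choose 2 := by
      have h6 : (hPm d m : ℤ) + ((∑ i, (m i + 1).choose 2 : ℕ) : ℤ) ≤
          (((d + 2).choose 2 : ℕ) : ℤ) := by linarith
      exact_mod_cast h6
    omega

/-- **The relative theorem**, general lines. -/
theorem relH_main {r u M D₁ d g : ℕ} {m : Fin r → ℕ}
    (B : Finset (Fin r)) (hu : 1 ≤ u) (huM : u ≤ M) (hM : ∀ i, m i ≤ M)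
    (hms : ∀ i, i ∉ B → m i ≤ u)
    (hreg : hPm D₁ (onB B m) + ∑ i ∈ B, (m i + 1).choose 2 = (D₁ + 2).choose 2)
    (h2 : 2 * ∑ i ∈ B, (m i + 1).choose 2 + 2 * ((M - 1) * (u - 1)) +
      (2 * u + 1) * (D₁ + 1) ≤ (D₁ + 2) * (D₁ + 1))
    (hg1 : u.choose 2 + 2 ≤ g) (hg2 : 2 * g + (u + 1).choose 2 + u ≤ D₁ + 1) (hd : D₁ ≤ d)
    (hK : (M - 1) * (u - 1) ≤ g * ((d - D₁) / (u + 1))) :
    hPm d m = (d + 2).choose 2 - ∑ i, (m i + 1).choose 2 := by
  rw [← sum_onB] at hreg h2
  have h1 := relH_aux B hu huM hM hms hreg h2 hg1 hg2 d hd m 0 0 (fun _ _ => rfl)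
    (fun _ => le_rfl) (by omega)
  simp only [Nat.cast_zero, add_zero] at h1
  exact exact_of_max h1

/-! ### strips along general lines through a point -/

/-- the system of the points in `B`, with multiplicity `v` at the point `i₂` -/
def onU {r : ℕ} (B : Finset (Fin r)) (m : Fin r → ℕ) (i₂ : Fin r) (v : ℕ) : Fin r → ℕ :=
  Function.update (onB B m) i₂ v

theorem onB_eq_onU {r : ℕ} {B : Finset (Fin r)} {y m : Fin r → ℕ} {i₂ : Fin r} (hi₂ : i₂ ∈ B)
    (h : ∀ i ∈ B, i ≠ i₂ → y i = m i) : onB B y = onU B m i₂ (y i₂) := by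
  funext i
  unfold onU
  by_cases h1 : i = i₂
  · rw [h1, Function.update_self]
    exact if_pos hi₂
  · rw [Function.update_of_ne h1]
    unfold onB
    split_ifs with hi
    · exact h i hi h1
    · rfl

theorem sum_onU {r : ℕ} {B : Finset (Fin r)} {m : Fin r → ℕ} {i₂ : Fin r} (hi₂ : i₂ ∈ B) (v : ℕ) :
    ∑ i, (onU B m i₂ v i + 1).choose 2 + (m i₂ + 1).choose 2 =
      ∑ i ∈ B, (m i + 1).choose 2 + (v + 1).choose 2 := by
  classical
  rw [← sum_onB (B := B) (m := m), ← Finset.add_sum_erase _ _ (Finset.mem_univ i₂),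
    ← Finset.add_sum_erase _ (fun i => (onB B m i + 1).choose 2) (Finset.mem_univ i₂)]
  unfold onU
  rw [Function.update_self]
  have h1 : ∑ i ∈ Finset.univ.erase i₂, (Function.update (onB B m) i₂ v i + 1).choose 2 =
      ∑ i ∈ Finset.univ.erase i₂, (onB B m i + 1).choose 2 :=
    Finset.sum_congr rfl (fun i hi => by
      rw [Function.update_of_ne (Finset.ne_of_mem_erase hi)])
  have h2 : onB B m i₂ = m i₂ := if_pos hi₂
  rw [h1, h2]
  ring

theorem relP_aux {r u M D₁ d g E : ℕ} {m : Fin r → ℕ} {B : Finset (Fin r)} {i₂ : Fin r}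
    (hi₂ : i₂ ∈ B) (hu : 1 ≤ u) (huM : u ≤ M) (hM : ∀ i, m i ≤ M) (hms : ∀ i, i ∉ B → m i ≤ u)
    (hE : m i₂ + E = d) (hED : E ≤ D₁)
    (hreg : ∀ D, D₁ ≤ D → D ≤ d →
      hPm D (onU B m i₂ (D - E)) + ∑ i, (onU B m i₂ (D - E) i + 1).choose 2 = (D + 2).choose 2)
    (hroom : ∑ i, (onU B m i₂ (D₁ - E) i + 1).choose 2 + (M - 1) * (u - 1) + u * (E + 1) + g ≤
      (D₁ + 2).choose 2)
    (hg1 : u.choose 2 + 2 ≤ g) (hg2 : 2 * g + (u + 1).choose 2 ≤ E + 1) :
    ∀ D, D₁ ≤ D → D ≤ d → ∀ (y : Fin r → ℕ) (U S : ℕ),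
    y i₂ + E = D → (∀ i ∈ B, i ≠ i₂ → y i = m i) → (∀ i, i ∉ B → y i ≤ m i) →
    (M - 1) * (u - 1) ≤ U + S + g * ((D - D₁) / (u + 1)) →
    (hPm D y : ℤ) ≤ max (U : ℤ) (MM.chi D y + S) := by
  classical
  obtain ⟨W, hW⟩ : ∃ W, W = (M - 1) * (u - 1) := ⟨_, rfl⟩
  rw [← hW] at hroom ⊢
  intro D
  induction D using Nat.strong_induction_on with
  | _ D ih =>
  intro hD hDd y U S hy₂ hyB hyo hpot
  have hyM : ∀ i, y i ≤ M := by
    intro i
    by_cases h1 : i ∈ B
    · by_cases h2 : i = i₂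
      · have := hM i₂
        rw [h2]
        omega
      · rw [hyB i h1 h2]
        exact hM i
    · exact (hyo i h1).trans (hM i)
  have hyu : ∀ i, i ∉ B → y i ≤ u := fun i hi => (hyo i hi).trans (hms i hi)
  have hy₂' : y i₂ = D - E := by omega
  have honB : onB B y = onU B m i₂ (D - E) := by
    rw [← hy₂']
    exact onB_eq_onU hi₂ hyB
  have hregy : hPm D (onB B y) + ∑ i, (onB B y i + 1).choose 2 = (D + 2).choose 2 := by
    rw [honB]
    exact hreg D hD hDd
  rcases Nat.lt_or_ge (U + S) W with hUS | hUS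
  swap
  · exact kq_base B huM hyM hyu hregy (by rw [← hW]; exact hUS)
  have hK : 1 ≤ (D - D₁) / (u + 1) := by
    rcases Nat.eq_zero_or_pos ((D - D₁) / (u + 1)) with h0 | h0
    · rw [h0, Nat.mul_zero] at hpot
      omega
    · exact h0
  have hDu : u + 1 ≤ D - D₁ := by
    rw [Nat.le_div_iff_mul_le (by omega)] at hK
    omega
  rcases Nat.lt_or_ge (∑ i ∈ offP B, (y i + 1).choose 2) (u * (E + 1) + g) with hfew | hmany
  · -- the room
    have h4 := sum_offP B (fun i => (y i + 1).choose 2)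
    have h5 : ∑ i ∈ B, (y i + 1).choose 2 = ∑ i, (onU B m i₂ (D - E) i + 1).choose 2 := by
      rw [← sum_onB, honB]
    have h6 := sum_onU (m := m) hi₂ (D - E)
    have h6' := sum_onU (m := m) hi₂ (D₁ - E)
    have h7 := row_id (D := D) (a := D - E) (κ := D - D₁) (by omega) (by omega)
    have e1 : D - E - (D - D₁) = D₁ - E := by omega
    have e2 : D - (D - E) = E := by omega
    have e3 : D - (D - D₁) = D₁ := by omega
    rw [e1, e2, e3] at h7
    have h7' := kq_regular B huM hyM hyu hregy (by rw [← hW]; omega)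
    apply le_max_of_le_right
    unfold MM.chi
    have h8 : ((hPm D y + ∑ i, (y i + 1).choose 2 : ℕ) : ℤ) =
        (((D + 2).choose 2 : ℕ) : ℤ) := by rw [h7']
    push_cast at h8 ⊢
    linarith
  -- a strip
  have hWs : ∀ i ∈ offP B, (y i + 1).choose 2 ≤ (u + 1).choose 2 := by
    intro i hi
    rw [mem_offP] at hi
    exact Nat.choose_le_choose 2 (Nat.succ_le_succ (hyu i hi))
  have hcb : (u - 1).choose 2 ≤ u.choose 2 := Nat.choose_le_choose 2 (Nat.sub_le _ _)
  obtain ⟨P, hP, h3, h4⟩ := greedy (T := u * (E + 1) + g) (offP B) hWs hmany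
  obtain ⟨A, hA⟩ : ∃ A, ∑ i ∈ P, (y i + 1).choose 2 = u * (E + 1) + A :=
    ⟨∑ i ∈ P, (y i + 1).choose 2 - u * (E + 1), by omega⟩
  have hAg : g ≤ A := by omega
  have hAle : A ≤ g + (u + 1).choose 2 := by omega
  have hi : i₂ ∉ P := fun h => by
    have := hP h
    rw [mem_offP] at this
    exact this hi₂
  have e2 : D - y i₂ = E := by omega
  have hstrip := strip_point (D := D) (κ := u) (A := A) (y := y) i₂ P hi hu
    (by omega) (by omega)
    (fun i hi => by
      have := hP hi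
      rw [mem_offP] at this
      exact hyu i this)
    (by rw [e2]; exact hA) (by omega) (by rw [e2]; omega)
  obtain ⟨y₁, hy₁⟩ : ∃ y₁, y₁ = Function.update (offF P y) i₂ (y i₂ - u) := ⟨_, rfl⟩
  obtain ⟨y₂, hy₂e⟩ : ∃ y₂, y₂ = Function.update (offF P y) i₂ (y i₂ - u - 1) := ⟨_, rfl⟩
  rw [← hy₁, ← hy₂e] at hstrip
  -- properties of the new systems
  have hoffle : ∀ i, offF P y i ≤ y i := by
    intro i
    unfold offF
    split_ifs
    · exact Nat.zero_le _
    · exact le_rfl
  have hPB : ∀ i ∈ B, i ∉ P := fun i hiB hiP => by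
    have := hP hiP
    rw [mem_offP] at this
    exact this hiB
  have hB' : ∀ v, ∀ i ∈ B, i ≠ i₂ → Function.update (offF P y) i₂ v i = m i := by
    intro v i hiB hne
    rw [Function.update_of_ne hne, offF_of_not_mem (hPB i hiB)]
    exact hyB i hiB hne
  have hO' : ∀ v, ∀ i, i ∉ B → Function.update (offF P y) i₂ v i ≤ m i := by
    intro v i hiB
    rw [Function.update_of_ne (fun h => hiB (by rw [h]; exact hi₂))]
    exact (hoffle i).trans (hyo i hiB)
  have hdiv : ∀ D', D ≤ D' + (u + 1) → D₁ ≤ D' →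
      g * ((D - D₁) / (u + 1)) ≤ g * ((D' - D₁) / (u + 1)) + g := by
    intro D' h1 h3
    have h4 : (D - D₁) / (u + 1) ≤ (D' - D₁) / (u + 1) + 1 := by
      rw [← Nat.add_div_right _ (by omega : 0 < u + 1)]
      exact Nat.div_le_div_right (by omega)
    have h5 := Nat.mul_le_mul_left g h4
    rw [Nat.mul_add, Nat.mul_one] at h5
    exact h5
  have c1 := ih (D - u) (by omega) (by omega) (by omega) y₁ (U + A) S (by
      rw [hy₁, Function.update_self]
      omega) (by rw [hy₁]; exact hB' _) (by rw [hy₁]; exact hO' _) (by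
    have := hdiv (D - u) (by omega) (by omega)
    omega)
  have c2 := ih (D - u - 1) (by omega) (by omega) (by omega) y₂ U (S + (E + 1 - A)) (by
      rw [hy₂e, Function.update_self]
      omega) (by rw [hy₂e]; exact hB' _) (by rw [hy₂e]; exact hO' _) (by
    have := hdiv (D - u - 1) (by omega) (by omega)
    omega)
  -- the expected dimensions
  have hoffs := sum_offF P y
  have hupd : ∀ v : ℕ, ∑ i, (Function.update (offF P y) i₂ v i + 1).choose 2 +
      (y i₂ + 1).choose 2 = ∑ i, (offF P y i + 1).choose 2 + (v + 1).choose 2 := by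
    intro v
    rw [← Finset.add_sum_erase _ _ (Finset.mem_univ i₂),
      ← Finset.add_sum_erase _ (fun i => (offF P y i + 1).choose 2) (Finset.mem_univ i₂),
      Function.update_self, offF_of_not_mem hi]
    have g1 : ∑ i ∈ Finset.univ.erase i₂, (Function.update (offF P y) i₂ v i + 1).choose 2 =
        ∑ i ∈ Finset.univ.erase i₂, (offF P y i + 1).choose 2 :=
      Finset.sum_congr rfl (fun i hi => by
        rw [Function.update_of_ne (Finset.ne_of_mem_erase hi)])
    rw [g1]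
    ring
  have u1 := hupd (y i₂ - u)
  have u2 := hupd (y i₂ - u - 1)
  rw [← hy₁] at u1
  rw [← hy₂e] at u2
  have r1 := row_id (D := D) (a := y i₂) (κ := u) (by omega) (by omega)
  have r2 := row_id (D := D) (a := y i₂) (κ := u + 1) (by omega) (by omega)
  have k1 : y i₂ - (u + 1) = y i₂ - u - 1 := by omega
  have k2 : D - (u + 1) = D - u - 1 := by omega
  rw [e2] at r1
  rw [e2, k1, k2] at r2
  have e4 : (u + 1) * (E + 1) = u * (E + 1) + (E + 1) := by ring
  rw [e4] at r2
  have e1 : MM.chi (D - u) y₁ = MM.chi D y + A := by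
    unfold MM.chi
    have h10 : (D + 2).choose 2 + A + ∑ i, (y₁ i + 1).choose 2 =
        (D - u + 2).choose 2 + ∑ i, (y i + 1).choose 2 := by omega
    have h11 : (((D + 2).choose 2 + A + ∑ i, (y₁ i + 1).choose 2 : ℕ) : ℤ) =
        (((D - u + 2).choose 2 + ∑ i, (y i + 1).choose 2 : ℕ) : ℤ) := by rw [h10]
    push_cast at h11 ⊢
    linarith
  have e3 : MM.chi (D - u - 1) y₂ = MM.chi D y - ((E + 1 - A : ℕ) : ℤ) := by
    unfold MM.chi
    have h10 : (D + 2).choose 2 + ∑ i, (y₂ i + 1).choose 2 =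
        (D - u - 1 + 2).choose 2 + (E + 1 - A) + ∑ i, (y i + 1).choose 2 := by omega
    have h11 : (((D + 2).choose 2 + ∑ i, (y₂ i + 1).choose 2 : ℕ) : ℤ) =
        (((D - u - 1 + 2).choose 2 + (E + 1 - A) + ∑ i, (y i + 1).choose 2 : ℕ) : ℤ) := by
      rw [h10]
    push_cast at h11 ⊢
    linarith
  rw [e1] at c1
  rw [e3] at c2
  push_cast at c1 c2
  have h14 : (hPm D y : ℤ) ≤ max ((hPm (D - u) y₁ : ℤ) - A) (hPm (D - u - 1) y₂ : ℤ) ∨
      (hPm D y : ℤ) ≤ 0 := by
    rcases le_max_iff.mp hstrip with h | h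
    · rcases Nat.lt_or_ge (hPm (D - u) y₁) A with h' | h'
      · right
        have : hPm D y = 0 := by omega
        rw [this]
        simp
      · left
        apply le_max_of_le_left
        have : ((hPm (D - u) y₁ - A : ℕ) : ℤ) = (hPm (D - u) y₁ : ℤ) - A := Nat.cast_sub h'
        rw [← this]
        exact_mod_cast h
    · left
      apply le_max_of_le_right
      exact_mod_cast h
  rcases h14 with h14 | h14
  · rcases le_max_iff.mp h14 with h15 | h15
    · rcases le_max_iff.mp c1 with h16 | h16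
      · apply le_max_of_le_left
        linarith
      · apply le_max_of_le_right
        linarith
    · rcases le_max_iff.mp c2 with h16 | h16
      · apply le_max_of_le_left
        linarith
      · apply le_max_of_le_right
        linarith
  · apply le_max_of_le_left
    exact h14.trans (by positivity)

/-- **The relative theorem**, lines through a point. -/
theorem relP_main {r u M D₁ d g E : ℕ} {m : Fin r → ℕ} {B : Finset (Fin r)} {i₂ : Fin r}
    (hi₂ : i₂ ∈ B) (hu : 1 ≤ u) (huM : u ≤ M) (hM : ∀ i, m i ≤ M) (hms : ∀ i, i ∉ B → m i ≤ u)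
    (hE : m i₂ + E = d) (hED : E ≤ D₁) (hDd : D₁ ≤ d)
    (hreg : ∀ D, D₁ ≤ D → D ≤ d →
      hPm D (onU B m i₂ (D - E)) + ∑ i, (onU B m i₂ (D - E) i + 1).choose 2 = (D + 2).choose 2)
    (hroom : ∑ i, (onU B m i₂ (D₁ - E) i + 1).choose 2 + (M - 1) * (u - 1) + u * (E + 1) + g ≤
      (D₁ + 2).choose 2)
    (hg1 : u.choose 2 + 2 ≤ g) (hg2 : 2 * g + (u + 1).choose 2 ≤ E + 1)
    (hK : (M - 1) * (u - 1) ≤ g * ((d - D₁) / (u + 1))) :
    hPm d m = (d + 2).choose 2 - ∑ i, (m i + 1).choose 2 := by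
  have h1 := relP_aux hi₂ hu huM hM hms hE hED hreg hroom hg1 hg2 d hDd le_rfl m 0 0 hE
    (fun _ _ _ => rfl) (fun _ _ => le_rfl) (by omega)
  simp only [Nat.cast_zero, add_zero] at h1
  exact exact_of_max h1

end Pool.Agent.Work.MP_0421d9_ag.LD
end

section
/-!
Cremona-reduced systems with any number of points of arbitrary multiplicities, and points of small
multiplicity.
-/

namespace Pool.Agent.Work.MP_0421d9_ag.LD

open MvPolynomial Module

theorem ExcN.coef_le {N : ℕ} {e : ℤ} {c : Fin N → ℤ} (h : ExcN e c) (i : Fin N) : c i ≤ e := by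
  have h0 := h.nonneg
  rcases eq_or_lt_of_le h0 with he | he
  · subst he
    exact h.zero i
  have h1 : c i ^ 2 ≤ ∑ l, c l ^ 2 :=
    Finset.single_le_sum (f := fun l => c l ^ 2) (fun l _ => sq_nonneg _) (Finset.mem_univ i)
  rw [h.sq] at h1
  by_contra hcon
  push Not at hcon
  nlinarith

/-- reduced with respect to a set of points, with room for the canonical class -/
structure Red {r : ℕ} (u d : ℕ) (m : Fin r → ℕ) (B : Finset (Fin r)) : Prop where
  small : ∀ i, i ∉ B → m i ≤ u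
  sum : ∀ J ⊆ B, J.card ≤ 3 → ∑ i ∈ J, m i + (3 - J.card) * u ≤ d
  can : ∑ i ∈ B, m i + 100 * (u + 1) ^ 2 ≤ 3 * d

theorem Red.any {r u d : ℕ} {m : Fin r → ℕ} {B : Finset (Fin r)} (h : Red u d m B)
    {J : Finset (Fin r)} (hJ : J.card ≤ 3) : ∑ i ∈ J, m i + (3 - J.card) * u ≤ d := by
  classical
  have h1 := h.sum (J.filter (fun i => i ∈ B)) (fun i hi => (Finset.mem_filter.mp hi).2)
    ((Finset.card_filter_le _ _).trans hJ)
  have h2 := Finset.sum_filter_add_sum_filter_not J (fun i => i ∈ B) m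
  have h3 := Finset.card_filter_add_card_filter_not (s := J) (fun i => i ∈ B)
  have h4 : ∑ i ∈ J.filter (fun i => ¬ i ∈ B), m i ≤ (J.filter (fun i => ¬ i ∈ B)).card * u := by
    rw [← smul_eq_mul]
    exact Finset.sum_le_card_nsmul _ _ _ (fun i hi => h.small i (Finset.mem_filter.mp hi).2)
  obtain ⟨x, hx⟩ : ∃ x, x = (J.filter (fun i => i ∈ B)).card := ⟨_, rfl⟩
  obtain ⟨y, hy⟩ : ∃ y, y = (J.filter (fun i => ¬ i ∈ B)).card := ⟨_, rfl⟩
  rw [← hx] at h1
  rw [← hy] at h4
  have h5 : x + y = J.card := by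
    rw [hx, hy]
    exact h3
  have h6 : 3 - x = y + (3 - J.card) := by omega
  have h7 : (3 - x) * u = y * u + (3 - J.card) * u := by
    rw [h6]
    ring
  omega

theorem Red.t0 {r u d : ℕ} {m : Fin r → ℕ} {B : Finset (Fin r)} (h : Red u d m B) :
    3 * u ≤ d := by
  have h1 := h.any (J := ∅) (by simp)
  rw [Finset.sum_empty, Finset.card_empty] at h1
  omega

theorem Red.t1 {r u d : ℕ} {m : Fin r → ℕ} {B : Finset (Fin r)} (h : Red u d m B) (i : Fin r) :
    m i + 2 * u ≤ d := by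
  have h1 := h.any (J := {i}) (by rw [Finset.card_singleton]; omega)
  rw [Finset.sum_singleton, Finset.card_singleton] at h1
  omega

theorem Red.t2 {r u d : ℕ} {m : Fin r → ℕ} {B : Finset (Fin r)} (h : Red u d m B) {i j : Fin r}
    (hij : i ≠ j) : m i + m j + u ≤ d := by
  have h2 := Finset.card_pair hij
  have h1 := h.any (J := {i, j}) (by rw [h2]; omega)
  rw [Finset.sum_pair hij, h2] at h1
  omega

theorem Red.t3 {r u d : ℕ} {m : Fin r → ℕ} {B : Finset (Fin r)} (h : Red u d m B) {i j k : Fin r}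
    (hij : i ≠ j) (hik : i ≠ k) (hjk : j ≠ k) : m i + m j + m k ≤ d := by
  have h2 : ({i, j, k} : Finset (Fin r)).card = 3 :=
    Finset.card_eq_three.mpr ⟨i, j, k, hij, hik, hjk, rfl⟩
  have h1 := h.any (J := {i, j, k}) (by rw [h2])
  rw [h2, Finset.sum_insert, Finset.sum_pair hjk] at h1
  · omega
  · rw [Finset.mem_insert, Finset.mem_singleton, not_or]
    exact ⟨hij, hik⟩

theorem sum_onB_id {r : ℕ} (B : Finset (Fin r)) (m : Fin r → ℕ) :
    ∑ i, onB B m i = ∑ i ∈ B, m i := by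
  unfold onB
  rw [Finset.sum_ite_mem, Finset.univ_inter]

theorem two_mul_sum_choose {r : ℕ} (a : Fin r → ℕ) :
    2 * ∑ i, (a i + 1).choose 2 = ∑ i, a i ^ 2 + ∑ i, a i := by
  rw [Finset.mul_sum, ← Finset.sum_add_distrib]
  refine Finset.sum_congr rfl (fun i _ => ?_)
  rw [tr_two_choose]
  ring

/-- the numbers for `g` -/
theorem g_num {u L M : ℕ} (hu : 1 ≤ u) (hL : 3 * (u + 1) ^ 2 ≤ L) (hM : M ≤ L) :
    ∃ g, u.choose 2 + 2 ≤ g ∧ 2 * g + (u + 1).choose 2 + u ≤ L + 1 ∧
      (M - 1) * (u - 1) ≤ g * (3 * u) := by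
  have e0 : (u + 1) ^ 2 = u * u + 2 * u + 1 := by ring
  have hc1 : (u + 1).choose 2 = u + u.choose 2 := by
    rw [Nat.choose_succ_succ' u 1, Nat.choose_one_right]
  have hc2 : 2 * (u + 1).choose 2 = u * (u + 1) := tr_two_choose u
  have e2 : u * (u + 1) = u * u + u := by ring
  have huu : 1 * u ≤ u * u := Nat.mul_le_mul_right u hu
  refine ⟨(L + 1 - u - (u + 1).choose 2) / 2, ?_, ?_, ?_⟩
  · omega
  · omega
  · obtain ⟨g, hg⟩ : ∃ g, g = (L + 1 - u - (u + 1).choose 2) / 2 := ⟨_, rfl⟩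
    rw [← hg]
    have h1 : M - 1 ≤ 3 * g := by omega
    calc (M - 1) * (u - 1) ≤ (3 * g) * u := Nat.mul_le_mul h1 (by omega)
      _ = g * (3 * u) := by ring

/-- no two multiplicities with a sum close to the degree -/
theorem red_caseA {r u d : ℕ} (hr : 3 ≤ r) (hu : 1 ≤ u) {m : Fin r → ℕ} {B : Finset (Fin r)}
    (h : Red u d m B) (hA : ∀ i j, i ≠ j → onB B m i + onB B m j + 6 * (u + 1) ^ 2 ≤ d) :
    hPm d m = (d + 2).choose 2 - ∑ i, (m i + 1).choose 2 := by
  classical
  have e0 : (u + 1) ^ 2 = u * u + 2 * u + 1 := by ring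
  have huu : 1 * u ≤ u * u := Nat.mul_le_mul_right u hu
  have hle := onB_le B m
  have hcan := h.can
  rw [← sum_onB_id] at hcan
  have hsum := sum_onB B m
  obtain ⟨a, ha⟩ : ∃ a, a = onB B m := ⟨_, rfl⟩
  rw [← ha] at hA hle hcan hsum
  obtain ⟨t, ht⟩ : ∃ t, t = 3 * u * (u + 1) := ⟨_, rfl⟩
  have ht' : t = 3 * (u * u) + 3 * u := by rw [ht]; ring
  rw [e0] at hA hcan
  -- two indices
  have hij0 : (⟨0, by omega⟩ : Fin r) ≠ ⟨1, by omega⟩ := by
    intro h
    have := congrArg Fin.val h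
    simp at this
  have hd6 := hA _ _ hij0
  have hred : ∀ i j k, i ≠ j → i ≠ k → j ≠ k → a i + a j + a k ≤ d := by
    intro i j k h1 h2 h3
    have g1 := h.t3 h1 h2 h3
    have g2 := hle i
    have g3 := hle j
    have g4 := hle k
    omega
  have hN : ∀ τ : ℕ, τ ≤ 3 * (u * u) + 6 * u + 3 → NefN (d - τ) a := by
    intro τ hτ e c hc
    have h1 := excN_bound (τ := τ) hr hred (fun i j hij => by
      have := hA i j hij
      omega) (by omega) hc
    rw [Nat.cast_sub (by omega)]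
    linarith
  have hN1 := hN t (by omega)
  have hN2 := hN (t + (2 * u + 1)) (by omega)
  have hreg := nefN_regular hr (d - t) a hN1 (by omega)
  have hsq := nefN_sq hr (d - (t + (2 * u + 1))) a hN2 (by omega)
  obtain ⟨x, hx⟩ : ∃ x, x = d - (t + (2 * u + 1)) := ⟨_, rfl⟩
  rw [← hx] at hsq
  have hdt : d - t = x + (2 * u + 1) := by omega
  have hMx : ∀ i, m i ≤ x := by
    intro i
    by_cases hi : i ∈ B
    · obtain ⟨j, hij, -⟩ := exists_third hr i i
      have h1 := hA i j hij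
      have h2 : a i = m i := by rw [ha]; exact if_pos hi
      omega
    · have := h.small i hi
      omega
  obtain ⟨g, hg1, hg2, hg3⟩ := g_num (u := u) (L := d - t) (M := x) hu (by rw [e0]; omega)
    (by omega)
  have h2a := two_mul_sum_choose a
  refine relH_main (M := x) (D₁ := d - t) (g := g) B hu (by omega) hMx h.small ?_ ?_ hg1 hg2
    (by omega) ?_
  · rw [← ha, ← hsum]
    exact hreg
  · rw [← hsum, h2a, hdt]
    obtain ⟨v, rfl⟩ : ∃ v, u = v + 1 := ⟨u - 1, by omega⟩
    have h3 : (x - 1) * (v + 1 - 1) ≤ x * v := Nat.mul_le_mul (Nat.sub_le _ _) (by omega)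
    have h4 : ∑ i, a i ≤ 3 * x := by omega
    nlinarith [Nat.zero_le (v * x), Nat.zero_le (v * v), Nat.zero_le x, Nat.zero_le v]
  · have e1 : d - (d - t) = 3 * u * (u + 1) := by omega
    rw [e1, Nat.mul_div_cancel _ (by omega)]
    exact hg3

/-- the class with two multiplicities diminished -/
def dn2 {r : ℕ} (a : Fin r → ℕ) (i₁ i₂ : Fin r) (v : ℕ) : Fin r → ℕ :=
  fun i => if i = i₁ ∨ i = i₂ then a i - v else a i

theorem sum_two {r : ℕ} (f : Fin r → ℕ) {i₁ i₂ : Fin r} (h : i₂ ≠ i₁) :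
    ∑ i, f i = f i₁ + (f i₂ + ∑ i ∈ (Finset.univ.erase i₁).erase i₂, f i) := by
  classical
  rw [Finset.add_sum_erase _ _ (Finset.mem_erase.mpr ⟨h, Finset.mem_univ i₂⟩),
    Finset.add_sum_erase _ _ (Finset.mem_univ i₁)]

theorem mem_rest {r : ℕ} {i₁ i₂ i : Fin r} (h : i ∈ (Finset.univ.erase i₁).erase i₂) :
    i ≠ i₁ ∧ i ≠ i₂ := by
  rw [Finset.mem_erase, Finset.mem_erase] at h
  exact ⟨h.2.1, h.1⟩

/-- a point of very large multiplicity -/
theorem red_caseB1 {r u d : ℕ} (hu : 1 ≤ u) {m : Fin r → ℕ} {B : Finset (Fin r)}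
    (h : Red u d m B) {i₁ : Fin r}
    (hbig : ∑ i ∈ B.erase i₁, m i + 26 * (u + 1) ^ 2 ≤ 2 * m i₁) :
    hPm d m = (d + 2).choose 2 - ∑ i, (m i + 1).choose 2 := by
  have h1 := h.t1 i₁
  have hR : RulN u (d - m i₁) m i₁ (B.erase i₁) := by
    refine ⟨Finset.notMem_erase i₁ B, fun i h1 h2 => ?_, by omega, fun i h1 => ?_,
      fun i j h1 h2 h3 => ?_, hbig⟩
    · exact h.small i (fun h3 => h2 (Finset.mem_erase.mpr ⟨h1, h3⟩))
    · have := h.t2 h1
      omega
    · have := h.t3 (Ne.symm h1) (Ne.symm h2) h3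
      omega
  have h2 := rulN_main hu (d - m i₁) r m i₁ (B.erase i₁) hR
  have e1 : m i₁ + (d - m i₁) = d := by omega
  rw [e1] at h2
  exact h2

/-- two points of very large multiplicity -/
theorem red_caseB2 {r u d : ℕ} (hr : 3 ≤ r) (hu : 1 ≤ u) {m : Fin r → ℕ} {B : Finset (Fin r)}
    (h : Red u d m B) {i₁ i₂ : Fin r} (h12 : i₂ ≠ i₁) (h2B : i₂ ∈ B)
    (hm21 : m i₂ ≤ m i₁) (h1B : i₁ ∈ B)
    (hmax : ∀ i, i ≠ i₁ → i ≠ i₂ → m i ≤ m i₂)
    (hd : d < m i₁ + m i₂ + 6 * (u + 1) ^ 2) (hbig : 56 * (u + 1) ^ 2 ≤ 3 * m i₂) :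
    hPm d m = (d + 2).choose 2 - ∑ i, (m i + 1).choose 2 := by
  classical
  have e0 : (u + 1) ^ 2 = u * u + 2 * u + 1 := by ring
  have huu : 1 * u ≤ u * u := Nat.mul_le_mul_right u hu
  have hle := onB_le B m
  have hcan := h.can
  rw [← sum_onB_id] at hcan
  have hsum := sum_onB B m
  obtain ⟨a, ha⟩ : ∃ a, a = onB B m := ⟨_, rfl⟩
  rw [← ha] at hle hcan hsum
  rw [e0] at hcan hd hbig
  have ha1 : a i₁ = m i₁ := by rw [ha]; exact if_pos h1B
  have ha2 : a i₂ = m i₂ := by rw [ha]; exact if_pos h2B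
  have hpair := h.t2 h12
  obtain ⟨σ, hσ⟩ : ∃ σ, d = m i₁ + m i₂ + σ := ⟨d - (m i₁ + m i₂), by omega⟩
  have hrest : ∀ i, i ≠ i₁ → i ≠ i₂ → a i ≤ σ := by
    intro i g1 g2
    have g3 := h.t3 (Ne.symm h12) (Ne.symm g1) (Ne.symm g2)
    have g4 := hle i
    omega
  obtain ⟨t, ht⟩ : ∃ t, t = 3 * u * (u + 1) := ⟨_, rfl⟩
  have ht' : t = 3 * (u * u) + 3 * u := by rw [ht]; ring
  -- the diminished classes
  have hb1 : ∀ v, dn2 a i₁ i₂ v i₁ = m i₁ - v := fun v => by
    unfold dn2
    rw [if_pos (Or.inl rfl), ha1]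
  have hb2 : ∀ v, dn2 a i₁ i₂ v i₂ = m i₂ - v := fun v => by
    unfold dn2
    rw [if_pos (Or.inr rfl), ha2]
  have hbo : ∀ v i, i ≠ i₁ → i ≠ i₂ → dn2 a i₁ i₂ v i = a i := fun v i g1 g2 => by
    unfold dn2
    rw [if_neg (not_or.mpr ⟨g1, g2⟩)]
  have hbred : ∀ v, v ≤ t + 2 * u → ∀ i j k, i ≠ j → i ≠ k → j ≠ k →
      dn2 a i₁ i₂ v i + dn2 a i₁ i₂ v j + dn2 a i₁ i₂ v k ≤ d - 2 * v := by
    intro v hv i j k hij hik hjk
    have w1 := hb1 v
    have w2 := hb2 v
    have cases3 : ∀ l, (l = i₁ ∧ dn2 a i₁ i₂ v l = m i₁ - v) ∨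
        (l = i₂ ∧ dn2 a i₁ i₂ v l = m i₂ - v) ∨
        (l ≠ i₁ ∧ l ≠ i₂ ∧ dn2 a i₁ i₂ v l ≤ σ) := by
      intro l
      by_cases g1 : l = i₁
      · left
        exact ⟨g1, by rw [g1]; exact w1⟩
      by_cases g2 : l = i₂
      · right
        left
        exact ⟨g2, by rw [g2]; exact w2⟩
      · right
        right
        exact ⟨g1, g2, by rw [hbo v l g1 g2]; exact hrest l g1 g2⟩
    rcases cases3 i with ⟨g1, g2⟩ | ⟨g1, g2⟩ | ⟨g1, g1', g2⟩ <;>
    rcases cases3 j with ⟨g3, g4⟩ | ⟨g3, g4⟩ | ⟨g3, g3', g4⟩ <;>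
    rcases cases3 k with ⟨g5, g6⟩ | ⟨g5, g6⟩ | ⟨g5, g5', g6⟩ <;>
    first
      | exact absurd (g1.trans g3.symm) hij
      | exact absurd (g1.trans g5.symm) hik
      | exact absurd (g3.trans g5.symm) hjk
      | omega
  have hbpair : ∀ v, v ≤ t + 2 * u → ∀ i j, i ≠ j →
      dn2 a i₁ i₂ v i + dn2 a i₁ i₂ v j + 2 * 0 ≤ d - 2 * v := by
    intro v hv i j hij
    obtain ⟨k, hik, hjk⟩ := exists_third hr i j
    have := hbred v hv i j k hij hik hjk
    omega
  have hasum := sum_two a h12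
  have hbsum : ∀ v, v ≤ t + 2 * u → ∑ i, dn2 a i₁ i₂ v i + 2 * v = ∑ i, a i := by
    intro v hv
    have g1 := hb1 v
    have g2 := hb2 v
    have g3 : ∑ i ∈ (Finset.univ.erase i₁).erase i₂, dn2 a i₁ i₂ v i =
        ∑ i ∈ (Finset.univ.erase i₁).erase i₂, a i :=
      Finset.sum_congr rfl (fun i hi => hbo v i (mem_rest hi).1 (mem_rest hi).2)
    rw [sum_two (dn2 a i₁ i₂ v) h12, hasum, g1, g2, g3, ha1, ha2]
    obtain ⟨z, hz⟩ : ∃ z, z = ∑ i ∈ (Finset.univ.erase i₁).erase i₂, a i := ⟨_, rfl⟩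
    rw [← hz]
    omega
  have hEd : m i₂ + (d - m i₂) = d := by omega
  -- nonnegativity
  have hN : ∀ j, j ≤ t → NefN (d - j) (onU B m i₂ (m i₂ - j)) := by
    intro j hj e c hc
    have h1 := excN_bound (τ := 0) hr (hbred j (by omega)) (hbpair j (by omega)) (by
      have := hbsum j (by omega)
      omega) hc
    have h2 := hc.coef_le i₁
    have h3 : ∑ i, (onU B m i₂ (m i₂ - j) i : ℤ) * c i =
        ∑ i, (dn2 a i₁ i₂ j i : ℤ) * c i + j * c i₁ := by
      rw [← Finset.add_sum_erase _ _ (Finset.mem_univ i₁),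
        ← Finset.add_sum_erase _ (fun i => (dn2 a i₁ i₂ j i : ℤ) * c i) (Finset.mem_univ i₁)]
      have h4 : ∑ i ∈ Finset.univ.erase i₁, (onU B m i₂ (m i₂ - j) i : ℤ) * c i =
          ∑ i ∈ Finset.univ.erase i₁, (dn2 a i₁ i₂ j i : ℤ) * c i := by
        refine Finset.sum_congr rfl (fun i hi => ?_)
        have g1 := Finset.ne_of_mem_erase hi
        by_cases g2 : i = i₂
        · subst g2
          unfold onU
          rw [Function.update_self, hb2]
        · unfold onU
          rw [Function.update_of_ne g2, hbo j i g1 g2, ha]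
      have h5 : onU B m i₂ (m i₂ - j) i₁ = m i₁ := by
        unfold onU
        rw [Function.update_of_ne (Ne.symm h12), ← ha, ha1]
      rw [h4, h5, hb1, Nat.cast_sub (by omega)]
      ring
    rw [h3, Nat.cast_sub (by omega)]
    rw [Nat.cast_sub (by omega)] at h1
    push_cast at h1
    have h6 : (j : ℤ) * c i₁ ≤ j * e := mul_le_mul_of_nonneg_left h2 (Int.natCast_nonneg j)
    linarith
  have hUsum : ∀ j, j ≤ t → ∑ i, onU B m i₂ (m i₂ - j) i + j = ∑ i, a i := by
    intro j hj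
    rw [← Finset.add_sum_erase _ _ (Finset.mem_univ i₂),
      ← Finset.add_sum_erase _ a (Finset.mem_univ i₂), ha2]
    have h4 : ∑ i ∈ Finset.univ.erase i₂, onU B m i₂ (m i₂ - j) i =
        ∑ i ∈ Finset.univ.erase i₂, a i := by
      refine Finset.sum_congr rfl (fun i hi => ?_)
      unfold onU
      rw [Function.update_of_ne (Finset.ne_of_mem_erase hi), ha]
    rw [h4]
    unfold onU
    rw [Function.update_self]
    omega
  -- the numbers
  obtain ⟨L, hL⟩ : ∃ L, d - m i₂ = L := ⟨_, rfl⟩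
  have hL' : L = m i₁ + σ := by omega
  obtain ⟨g, hg1, hg2, hg3⟩ := g_num (u := u) (L := L) (M := m i₁) hu (by rw [e0]; omega)
    (by omega)
  have hMx : ∀ i, m i ≤ m i₁ := by
    intro i
    by_cases g1 : i = i₁
    · rw [g1]
    by_cases g2 : i = i₂
    · rw [g2]
      exact hm21
    · exact (hmax i g1 g2).trans hm21
  refine relP_main (M := m i₁) (D₁ := d - t) (g := g) (E := L) (i₂ := i₂) h2B hu (by omega) hMx
    h.small (by omega) (by omega) (by omega) (fun D hD hDd => ?_) ?_ hg1 (by omega) ?_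
  · obtain ⟨j, hj⟩ : ∃ j, j = d - D := ⟨_, rfl⟩
    have e1 : D - L = m i₂ - j := by omega
    have e2 : D = d - j := by omega
    rw [e1, e2]
    have := hUsum j (by omega)
    exact nefN_regular hr _ _ (hN j (by omega)) (by omega)
  · -- the room
    have e1 : d - t - L = m i₂ - t := by omega
    rw [e1]
    have h1 := two_mul_sum_choose (onU B m i₂ (m i₂ - t))
    have h2 := hUsum t le_rfl
    have h3 := reduced_sq hr (hbred (t + 2 * u) le_rfl) (by
      have := hbsum (t + 2 * u) le_rfl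
      omega)
    have h4 : ∑ i, dn2 a i₁ i₂ (t + 2 * u) i ^ 2 = (m i₁ - (t + 2 * u)) ^ 2 +
        ((m i₂ - (t + 2 * u)) ^ 2 + ∑ i ∈ (Finset.univ.erase i₁).erase i₂, a i ^ 2) := by
      rw [sum_two (fun i => dn2 a i₁ i₂ (t + 2 * u) i ^ 2) h12, hb1, hb2]
      congr 2
      exact Finset.sum_congr rfl (fun i hi => by rw [hbo _ i (mem_rest hi).1 (mem_rest hi).2])
    have h5 : ∑ i, onU B m i₂ (m i₂ - t) i ^ 2 = m i₁ ^ 2 +
        ((m i₂ - t) ^ 2 + ∑ i ∈ (Finset.univ.erase i₁).erase i₂, a i ^ 2) := by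
      rw [sum_two (fun i => onU B m i₂ (m i₂ - t) i ^ 2) h12]
      have g1 : onU B m i₂ (m i₂ - t) i₁ = m i₁ := by
        unfold onU
        rw [Function.update_of_ne (Ne.symm h12), ← ha, ha1]
      have g2 : onU B m i₂ (m i₂ - t) i₂ = m i₂ - t := by
        unfold onU
        rw [Function.update_self]
      rw [g1, g2]
      congr 2
      refine Finset.sum_congr rfl (fun i hi => ?_)
      unfold onU
      rw [Function.update_of_ne (mem_rest hi).2, ha]
    rw [h4] at h3
    rw [h5] at h1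
    obtain ⟨Q, hQ⟩ : ∃ Q, Q = ∑ i ∈ (Finset.univ.erase i₁).erase i₂, a i ^ 2 := ⟨_, rfl⟩
    rw [← hQ] at h1 h3
    have h6 := tm_choose (d - t)
    obtain ⟨S, hS⟩ : ∃ S, S = ∑ i, onU B m i₂ (m i₂ - t) i := ⟨_, rfl⟩
    rw [← hS] at h1 h2
    obtain ⟨C, hC⟩ : ∃ C, C = ∑ i, (onU B m i₂ (m i₂ - t) i + 1).choose 2 := ⟨_, rfl⟩
    rw [← hC] at h1 ⊢
    have hS3 : S ≤ 3 * (d - t) := by omega
    obtain ⟨q, hq⟩ : ∃ q, m i₂ = q + (t + 2 * u) := ⟨m i₂ - (t + 2 * u), by omega⟩
    obtain ⟨p', hp'⟩ : ∃ p', m i₁ = q + p' + (t + 2 * u) := ⟨m i₁ - q - (t + 2 * u), by omega⟩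
    have hqt : t + 2 * u ≤ q := by omega
    have k1 : m i₁ - (t + 2 * u) = q + p' := by omega
    have k2 : m i₂ - (t + 2 * u) = q := by omega
    have k3 : m i₂ - t = q + 2 * u := by omega
    have k4 : d - 2 * (t + 2 * u) = q + p' + q + σ := by omega
    have k5 : d - t = q + p' + q + σ + t + 4 * u := by omega
    rw [k1, k2, k4] at h3
    rw [k3, hp'] at h1
    rw [k5] at h6 hS3
    have h7 : 2 * ((m i₁ - 1) * (u - 1)) + 2 * (m i₁) ≤ 2 * (m i₁ * u) := by
      obtain ⟨v, hv⟩ : ∃ v, u = v + 1 := ⟨u - 1, by omega⟩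
      have h8 : (m i₁ - 1) * (u - 1) ≤ m i₁ * v := Nat.mul_le_mul (Nat.sub_le _ _) (by omega)
      have h9 : m i₁ * u = m i₁ * v + m i₁ := by rw [hv]; ring
      omega
    obtain ⟨X, hX⟩ : ∃ X, X = (m i₁ - 1) * (u - 1) := ⟨_, rfl⟩
    rw [← hX] at h7 ⊢
    rw [hp'] at h7
    rw [hp'] at hL'
    have h8 : 2 * (u * (L + 1)) + 2 * g ≤ 2 * (u * (L + 1)) + (L + 1) := by omega
    have h9 : u * (L + 1) = u * q + u * p' + u * t + 2 * (u * u) + u * σ + u := by
      rw [hL']
      ring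
    have h10 : (q + p' + (t + 2 * u)) * u = u * q + u * p' + u * t + 2 * (u * u) := by ring
    have h11 : (q + p' + q + σ + t + 4 * u + 2) * (q + p' + q + σ + t + 4 * u + 1) =
        (q + p' + q + σ) ^ 2 + 2 * (t + 4 * u) * (q + p' + q + σ) + (t + 4 * u) ^ 2 +
        3 * (q + p' + q + σ + t + 4 * u) + 2 := by ring
    have h12' : (q + p' + (t + 2 * u)) ^ 2 + ((q + 2 * u) ^ 2 + Q) =
        ((q + p') ^ 2 + (q ^ 2 + Q)) + 2 * (t + 2 * u) * (q + p') + (t + 2 * u) ^ 2 +
        4 * (u * q) + 4 * (u * u) := by ring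
    have h13 : 2 * (t + 4 * u) * (q + p' + q + σ) + (t + 4 * u) ^ 2 =
        2 * (t + 2 * u) * (q + p') + (t + 2 * u) ^ 2 + 4 * (u * q) + 4 * (u * p') +
        2 * (t * q) + 8 * (u * q) + 2 * (t * σ) + 8 * (u * σ) + 4 * (t * u) + 12 * (u * u) := by
      ring
    have h14 : u * (t + 2 * u) ≤ u * q := Nat.mul_le_mul_left u hqt
    have e14 : u * (t + 2 * u) = u * t + 2 * (u * u) := by ring
    have h15 : 1 * σ ≤ u * σ := Nat.mul_le_mul_right σ hu
    have h16 : 1 * q ≤ t * q := Nat.mul_le_mul_right q (by omega)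
    have h17 : t * u = u * t := Nat.mul_comm _ _
    have h18 : 1 * p' ≤ u * p' := Nat.mul_le_mul_right p' hu
    rw [k5]
    omega
  · have e1 : d - (d - t) = 3 * u * (u + 1) := by omega
    rw [e1, Nat.mul_div_cancel _ (by omega)]
    exact hg3

/-- the exact dimension, at least three points -/
theorem red_exact {r u d : ℕ} (hr : 3 ≤ r) {m : Fin r → ℕ} {B : Finset (Fin r)}
    (h : Red u d m B) : hPm d m = (d + 2).choose 2 - ∑ i, (m i + 1).choose 2 := by
  classical
  have hcan := h.can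
  rcases Nat.eq_zero_or_pos u with hu | hu
  · subst hu
    have hs : ∑ i, m i = ∑ i ∈ B, m i := by
      rw [← sum_onB_id B m]
      refine Finset.sum_congr rfl (fun i _ => ?_)
      unfold onB
      by_cases hi : i ∈ B
      · rw [if_pos hi]
      · rw [if_neg hi]
        exact Nat.le_zero.mp (h.small i hi)
    have hN : NefN d m := fun e c hc => by
      have h1 := excN_bound (τ := 0) hr (fun i j k a b c => h.t3 a b c) (fun i j hij => by
        have := h.t2 hij
        omega) (by omega) hc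
      push_cast at h1
      linarith
    have h1 := nefN_regular hr d m hN (by omega)
    omega
  by_cases hA : ∀ i j, i ≠ j → onB B m i + onB B m j + 6 * (u + 1) ^ 2 ≤ d
  · exact red_caseA hr hu h hA
  push Not at hA
  obtain ⟨i, j, hij, hlt⟩ := hA
  obtain ⟨a, ha⟩ : ∃ a, a = onB B m := ⟨_, rfl⟩
  have hle : ∀ l, a l ≤ m l := by
    rw [ha]
    exact onB_le B m
  have haB : ∀ l, l ∈ B → a l = m l := fun l hl => by
    rw [ha]
    exact if_pos hl
  have ha0 : ∀ l, l ∉ B → a l = 0 := fun l hl => by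
    rw [ha]
    exact if_neg hl
  rw [← ha] at hlt
  obtain ⟨i₁, -, h1⟩ := Finset.exists_max_image Finset.univ a ⟨i, Finset.mem_univ i⟩
  obtain ⟨k, hk1, -⟩ := exists_third hr i₁ i₁
  obtain ⟨i₂, h2m, h2⟩ := Finset.exists_max_image (Finset.univ.erase i₁) a
    ⟨k, Finset.mem_erase.mpr ⟨Ne.symm hk1, Finset.mem_univ k⟩⟩
  have h21 : i₂ ≠ i₁ := Finset.ne_of_mem_erase h2m
  have g1 : ∀ l, a l ≤ a i₁ := fun l => h1 l (Finset.mem_univ l)
  have g2 : ∀ l, l ≠ i₁ → a l ≤ a i₂ := fun l hl =>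
    h2 l (Finset.mem_erase.mpr ⟨hl, Finset.mem_univ l⟩)
  have hd : d < a i₁ + a i₂ + 6 * (u + 1) ^ 2 := by
    by_cases hi : i = i₁
    · have := g2 j (fun hj => hij (hi.trans hj.symm))
      have := g1 i
      omega
    · have := g2 i hi
      have := g1 j
      omega
  have e0 : (u + 1) ^ 2 = u * u + 2 * u + 1 := by ring
  have hi1 : i₁ ∈ B := by
    by_contra hcon
    have := ha0 i₁ hcon
    have := g1 i₂
    omega
  have hm1 := haB i₁ hi1
  by_cases hbig : ∑ i ∈ B.erase i₁, m i + 26 * (u + 1) ^ 2 ≤ 2 * m i₁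
  · exact red_caseB1 hu h hbig
  have hsB := Finset.add_sum_erase B m hi1
  have hi2 : i₂ ∈ B := by
    by_contra hcon
    have := ha0 i₂ hcon
    omega
  have hm2 := haB i₂ hi2
  refine red_caseB2 hr hu h h21 hi2 ?_ hi1 (fun l l1 l2 => ?_) ?_ ?_
  · have := g1 i₂
    omega
  · by_cases hl : l ∈ B
    · have := g2 l l1
      rw [haB l hl] at this
      omega
    · have := h.small l hl
      omega
  · omega
  · omega

/-- adding three points of multiplicity zero -/
theorem Red.pad {r u d : ℕ} {m : Fin r → ℕ} {B : Finset (Fin r)} (h : Red u d m B) :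
    Red u d (Fin.append m (fun _ : Fin 3 => 0)) (B.map (Fin.castAddEmb 3)) := by
  classical
  refine ⟨?_, ?_, ?_⟩
  · intro i
    refine Fin.addCases (fun j hj => ?_) (fun j _ => ?_) i
    · rw [Fin.append_left]
      exact h.small j (fun h1 => hj (Finset.mem_map_of_mem (Fin.castAddEmb 3) h1))
    · rw [Fin.append_right]
      exact Nat.zero_le _
  · intro J hJ hc
    obtain ⟨J', hJ', rfl⟩ := Finset.subset_map_iff.mp hJ
    rw [Finset.card_map] at hc ⊢
    rw [Finset.sum_map]
    have h1 := h.sum J' hJ' hc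
    have h2 : ∑ x ∈ J', Fin.append m (fun _ : Fin 3 => 0) ((Fin.castAddEmb 3) x) =
        ∑ x ∈ J', m x := Finset.sum_congr rfl (fun x _ => Fin.append_left m _ x)
    rw [h2]
    exact h1
  · rw [Finset.sum_map]
    have h2 : ∑ x ∈ B, Fin.append m (fun _ : Fin 3 => 0) ((Fin.castAddEmb 3) x) =
        ∑ x ∈ B, m x := Finset.sum_congr rfl (fun x _ => Fin.append_left m _ x)
    rw [h2]
    exact h.can

/-- **Exact dimension.**  Cremona-reduced systems with points of arbitrary multiplicities and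
points of small multiplicity. -/
theorem red_main {r u d : ℕ} {m : Fin r → ℕ} {B : Finset (Fin r)} (h : Red u d m B) :
    hPm d m = (d + 2).choose 2 - ∑ i, (m i + 1).choose 2 := by
  have h1 := red_exact (by omega : 3 ≤ r + 3) h.pad
  rw [hPm_append_zero, sum_append m _ (fun x => (x + 1).choose 2)] at h1
  have h2 : ∑ _j : Fin 3, (0 + 1).choose 2 = 0 := Finset.sum_eq_zero (fun _ _ => rfl)
  rw [h2, Nat.add_zero] at h1
  exact h1

/-- at least three points -/
theorem B_regular3 {r d : ℕ} (hr : 3 ≤ r) {m : Fin r → ℕ}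
    (h3 : ∀ J : Finset (Fin r), J.card ≤ 3 → ∑ i ∈ J, m i ≤ d)
    (hK : ∑ i, m i < 3 * d) : hPm d m + ∑ i, (m i + 1).choose 2 = (d + 2).choose 2 := by
  classical
  have s2 : ∀ i j, i ≠ j → m i + m j ≤ d := by
    intro i j hij
    have h2 := Finset.card_pair hij
    have h1 := h3 {i, j} (by rw [h2]; omega)
    rw [Finset.sum_pair hij] at h1
    omega
  have s3 : ∀ i j k, i ≠ j → i ≠ k → j ≠ k → m i + m j + m k ≤ d := by
    intro i j k hij hik hjk
    have h2 : ({i, j, k} : Finset (Fin r)).card = 3 :=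
      Finset.card_eq_three.mpr ⟨i, j, k, hij, hik, hjk, rfl⟩
    have h1 := h3 {i, j, k} (by rw [h2])
    rw [Finset.sum_insert, Finset.sum_pair hjk] at h1
    · omega
    · rw [Finset.mem_insert, Finset.mem_singleton, not_or]
      exact ⟨hij, hik⟩
  have hN : NefN d m := fun e c hc => by
    have h1 := excN_bound (τ := 0) hr s3 (fun i j hij => by
      have := s2 i j hij
      omega) (by omega) hc
    push_cast at h1
    linarith
  exact nefN_regular hr d m hN (by omega)

/-- **Independent conditions** of the points of a reduced class, of any number. -/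
theorem B_regular {r d : ℕ} {m : Fin r → ℕ}
    (h3 : ∀ J : Finset (Fin r), J.card ≤ 3 → ∑ i ∈ J, m i ≤ d)
    (hK : ∑ i, m i < 3 * d) : hPm d m + ∑ i, (m i + 1).choose 2 = (d + 2).choose 2 := by
  classical
  have hz : ∑ _j : Fin 3, (0 + 1).choose 2 = 0 := Finset.sum_eq_zero (fun _ _ => rfl)
  have h1 := B_regular3 (by omega : 3 ≤ r + 3) (d := d)
    (m := Fin.append m (fun _ : Fin 3 => 0)) (fun J hJ => ?_) ?_
  · rw [hPm_append_zero, sum_append m _ (fun x => (x + 1).choose 2), hz, Nat.add_zero] at h1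
    exact h1
  · have h2 : ∑ i ∈ J, Fin.append m (fun _ : Fin 3 => 0) i =
        ∑ i ∈ (J.preimage (Fin.castAddEmb 3) (Fin.castAddEmb 3).injective.injOn), m i := by
      have h4 : ∑ i ∈ (J.preimage (Fin.castAddEmb 3) (Fin.castAddEmb 3).injective.injOn), m i =
          ∑ i ∈ (J.preimage (Fin.castAddEmb 3) (Fin.castAddEmb 3).injective.injOn),
            Fin.append m (fun _ : Fin 3 => 0) (Fin.castAddEmb 3 i) :=
        Finset.sum_congr rfl (fun x _ => (Fin.append_left m _ x).symm)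
      rw [h4]
      refine (Finset.sum_preimage _ J (Fin.castAddEmb 3).injective.injOn _
        (fun x _ hx => ?_)).symm
      revert hx
      refine Fin.addCases (fun j hj => ?_) (fun j _ => ?_) x
      · exact absurd ⟨j, rfl⟩ hj
      · rw [Fin.append_right]
    rw [h2]
    refine h3 _ ((Finset.card_le_card_of_injOn (Fin.castAddEmb 3) (fun x hx => ?_)
      (Fin.castAddEmb 3).injective.injOn).trans hJ)
    exact Finset.mem_preimage.mp hx
  · rw [sum_append m _ (fun x => x)]
    rw [Finset.sum_const_zero, Nat.add_zero]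
    exact hK

end Pool.Agent.Work.MP_0421d9_ag.LD
end

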