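import Pool.Agent.Work.Z0421M.C08

section
/-!
Binary forms and the Bezout identity.
-/

set_option linter.unusedSectionVars false
set_option linter.unusedVariables false

namespace Pool.Agent.Work.MP_0421d9_ag.SM

open MvPolynomial Module

theorem eval_smul_of_hom {σ : Type} [Fintype σ] {F : MvPolynomial σ ℂ} {n : ℕ}
    (hF : F.IsHomogeneous n) (c : ℂ) (v : σ → ℂ) : eval (c • v) F = c ^ n * eval v F := by
  rw [eval_eq', eval_eq', Finset.mul_sum]
  refine Finset.sum_congr rfl (fun d hd => ?_)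
  have h1 := hF (MvPolynomial.mem_support_iff.mp hd)
  rw [Finsupp.weight_apply, Finsupp.sum_fintype _ _ (fun i => by simp)] at h1
  simp only [Pi.one_apply, smul_eq_mul, mul_one] at h1
  have h2 : ∏ i, (c • v) i ^ d i = c ^ n * ∏ i, v i ^ d i := by
    simp only [Pi.smul_apply, smul_eq_mul, mul_pow, Finset.prod_mul_distrib]
    rw [Finset.prod_pow_eq_pow_sum, h1]
  rw [h2]
  ring

/-- dehomogenisation of binary forms -/
noncomputable def deh : R2 →ₐ[ℂ] Polynomial ℂ := aeval ![Polynomial.X, 1]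

theorem eval_deh (F : R2) (c : ℂ) : (deh F).eval c = eval ![c, 1] F := by
  induction F using MvPolynomial.induction_on with
  | C a =>
    unfold deh
    rw [algHom_C, eval_C, ← Polynomial.C_eq_algebraMap, Polynomial.eval_C]
  | add p q hp hq => rw [map_add, Polynomial.eval_add, hp, hq, map_add]
  | mul_X p i hp =>
    rw [map_mul, Polynomial.eval_mul, hp, map_mul, eval_X]
    congr 1
    unfold deh
    rw [aeval_X]
    fin_cases i <;> simp

/-- a binary form vanishes if its dehomogenisation does -/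
theorem eq_zero_of_deh {F : R2} {n : ℕ} (hF : F.IsHomogeneous n) (h : deh F = 0) : F = 0 := by
  have h1 : ∀ v : V2, v 1 ≠ 0 → eval v F = 0 := by
    intro v hv
    have h2 : v = v 1 • ![v 0 / v 1, 1] := by
      ext i
      fin_cases i
      · simp only [Fin.zero_eta, Pi.smul_apply, Matrix.cons_val_zero, smul_eq_mul]
        field_simp
      · simp
    rw [h2, eval_smul_of_hom hF, ← eval_deh, h, Polynomial.eval_zero, mul_zero]
  have h3 : (X 1 : R2) * F = 0 := by
    apply MvPolynomial.funext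
    intro v
    rw [map_mul, eval_X, map_zero]
    by_cases hv : v 1 = 0
    · rw [hv, zero_mul]
    · rw [h1 v hv, mul_zero]
  exact (mul_eq_zero.mp h3).resolve_left (X_ne_zero 1)

theorem eq_of_deh {F G : R2} {n : ℕ} (hF : F.IsHomogeneous n) (hG : G.IsHomogeneous n)
    (h : deh F = deh G) : F = G := by
  rw [← sub_eq_zero]
  apply eq_zero_of_deh (hF.sub hG)
  rw [map_sub, h, sub_self]

/-- homogenisation -/
noncomputable def homog (n : ℕ) (f : Polynomial ℂ) : R2 :=
  ∑ i ∈ Finset.range (n + 1), C (f.coeff i) * (X 0 ^ i * X 1 ^ (n - i))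

theorem homog_isHomogeneous (n : ℕ) (f : Polynomial ℂ) : (homog n f).IsHomogeneous n := by
  unfold homog
  apply IsHomogeneous.sum
  intro i hi
  apply IsHomogeneous.C_mul
  have h1 := (isHomogeneous_X_pow (R := ℂ) (0 : Fin 2) i).mul
    (isHomogeneous_X_pow (R := ℂ) (1 : Fin 2) (n - i))
  rw [Finset.mem_range] at hi
  rwa [(by omega : i + (n - i) = n)] at h1

theorem deh_X0 : deh (X 0) = Polynomial.X := by
  unfold deh
  rw [aeval_X]
  rfl

theorem deh_X1 : deh (X 1) = 1 := by
  unfold deh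
  rw [aeval_X]
  rfl

theorem deh_C (c : ℂ) : deh (C c) = Polynomial.C c := by
  unfold deh
  rw [algHom_C, ← Polynomial.C_eq_algebraMap]

theorem deh_homog {n : ℕ} {f : Polynomial ℂ} (hf : f.natDegree ≤ n) : deh (homog n f) = f := by
  unfold homog
  rw [map_sum]
  simp only [map_mul, map_pow, deh_X0, deh_X1, deh_C, one_pow, mul_one]
  exact (f.as_sum_range_C_mul_X_pow' (by omega)).symm

theorem homog_deh {n : ℕ} {F : R2} (hF : F.IsHomogeneous n) (h : (deh F).natDegree ≤ n) :
    homog n (deh F) = F :=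
  eq_of_deh (homog_isHomogeneous n _) hF (deh_homog h)

theorem natDegree_deh_le {n : ℕ} {F : R2} (hF : F.IsHomogeneous n) : (deh F).natDegree ≤ n := by
  unfold deh
  rw [F.as_sum, map_sum]
  apply Polynomial.natDegree_sum_le_of_forall_le
  intro d hd
  have h1 := hF (MvPolynomial.mem_support_iff.mp hd)
  rw [Finsupp.weight_apply, Finsupp.sum_fintype _ _ (fun i => by simp)] at h1
  simp only [Pi.one_apply, smul_eq_mul, mul_one, Fin.sum_univ_two] at h1
  rw [aeval_monomial, Finsupp.prod_fintype _ _ (fun i => pow_zero _), Fin.prod_univ_two,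
    ← Polynomial.C_eq_algebraMap]
  simp only [Matrix.cons_val_zero, Matrix.cons_val_one, one_pow, mul_one]
  refine (Polynomial.natDegree_C_mul_le _ _).trans ?_
  rw [Polynomial.natDegree_X_pow]
  omega

theorem coeff_deh {n : ℕ} {F : R2} (hF : F.IsHomogeneous n) :
    (deh F).coeff n = eval ![1, 0] F := by
  conv_rhs => rw [← homog_deh hF (natDegree_deh_le hF)]
  unfold homog
  rw [map_sum, Finset.sum_eq_single n]
  · simp
  · intro i hi hin
    rw [Finset.mem_range] at hi
    have h1 : n - i ≠ 0 := by omega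
    simp [h1]
  · intro h
    exact absurd (Finset.mem_range.mpr (by omega)) h

theorem isCoprime_deh {P Q : R2} (hPQ : NoCommon P Q) : IsCoprime (deh P) (deh Q) := by
  rw [Polynomial.isCoprime_iff_aeval_ne_zero_of_isAlgClosed ℂ ℂ]
  intro a
  rw [Polynomial.coe_aeval_eq_eval, eval_deh, eval_deh]
  apply hPQ
  intro h
  have h1 := congrFun h 1
  simp at h1

theorem exists_TR_aux {t : ℕ} {P Q : R2} (hP : P.IsHomogeneous t) (hQ : Q.IsHomogeneous t)
    (hPQ : NoCommon P Q) (hP1 : eval ![1, 0] P ≠ 0) {Δ : R2} (hΔ : Δ.IsHomogeneous (2 * t + 1)) :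
    ∃ T R : R2, T.IsHomogeneous (t + 1) ∧ R.IsHomogeneous (t + 1) ∧ P * R - Q * T = Δ := by
  have hdp : (deh P).natDegree = t := by
    apply le_antisymm (natDegree_deh_le hP)
    apply Polynomial.le_natDegree_of_ne_zero
    rw [coeff_deh hP]
    exact hP1
  have hp0 : deh P ≠ 0 := by
    intro h
    apply hP1
    rw [← coeff_deh hP, h, Polynomial.coeff_zero]
  obtain ⟨a, b, hab⟩ := isCoprime_deh hPQ
  set p := deh P with hp
  set q := deh Q with hq
  set δ := deh Δ with hδ
  set s := -(δ * b) with hs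
  set t0 := s % p with ht0
  set r := δ * a - q * (s / p) with hr
  have hdiv : p * (s / p) + t0 = s := EuclideanDomain.div_add_mod s p
  have hkey : p * r - q * t0 = δ := by
    have h1 : t0 = s - p * (s / p) := by linear_combination hdiv
    rw [h1, hr, hs]
    linear_combination δ * hab
  have hdt : t0.natDegree ≤ t := by
    rw [← hdp, ht0]
    by_cases hp1 : p.natDegree = 0
    · rw [Polynomial.eq_C_of_natDegree_eq_zero hp1]
      have hu : IsUnit (Polynomial.C (p.coeff 0)) := by
        rw [Polynomial.isUnit_C, isUnit_iff_ne_zero]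
        intro h
        apply hp0
        rw [Polynomial.eq_C_of_natDegree_eq_zero hp1, h, Polynomial.C_0]
      rw [(EuclideanDomain.mod_eq_zero).mpr (hu.dvd), Polynomial.natDegree_zero]
      exact Nat.zero_le _
    · exact (Polynomial.natDegree_mod_lt s hp1).le
  have hdr : r.natDegree ≤ t + 1 := by
    by_cases hr0 : r = 0
    · rw [hr0, Polynomial.natDegree_zero]
      exact Nat.zero_le _
    · have h1 : p * r = δ + q * t0 := by rw [← hkey]; ring
      have h2 : (p * r).natDegree = t + r.natDegree := by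
        rw [Polynomial.natDegree_mul hp0 hr0, hdp]
      have h3 : (δ + q * t0).natDegree ≤ 2 * t + 1 := by
        refine (Polynomial.natDegree_add_le _ _).trans (max_le ?_ ?_)
        · exact natDegree_deh_le hΔ
        · refine Polynomial.natDegree_mul_le.trans ?_
          have : q.natDegree ≤ t := natDegree_deh_le hQ
          omega
      rw [← h1, h2] at h3
      omega
  refine ⟨homog (t + 1) t0, homog (t + 1) r, homog_isHomogeneous _ _, homog_isHomogeneous _ _, ?_⟩
  apply eq_of_deh (n := 2 * t + 1) _ hΔ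
  · rw [map_sub, map_mul, map_mul, deh_homog (f := r) hdr, deh_homog (f := t0) (by omega)]
    exact hkey
  · have e : t + (t + 1) = 2 * t + 1 := by omega
    have h1 := hP.mul (homog_isHomogeneous (t + 1) r)
    have h2 := hQ.mul (homog_isHomogeneous (t + 1) t0)
    rw [e] at h1 h2
    exact h1.sub h2

theorem exists_TR {t : ℕ} {P Q : R2} (hP : P.IsHomogeneous t) (hQ : Q.IsHomogeneous t)
    (hPQ : NoCommon P Q) {Δ : R2} (hΔ : Δ.IsHomogeneous (2 * t + 1)) :
    ∃ T R : R2, T.IsHomogeneous (t + 1) ∧ R.IsHomogeneous (t + 1) ∧ P * R - Q * T = Δ := by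
  rcases hPQ ![1, 0] (by
    intro h
    have h1 := congrFun h 0
    simp at h1) with h | h
  · exact exists_TR_aux hP hQ hPQ h hΔ
  · obtain ⟨T, R, hT, hR, h1⟩ := exists_TR_aux hQ hP (fun y hy => (hPQ y hy).symm) h hΔ
    refine ⟨-R, -T, hR.neg, hT.neg, ?_⟩
    rw [← h1]
    ring

end Pool.Agent.Work.MP_0421d9_ag.SM
end

section
/-!
Places and polynomials.
-/

set_option linter.unusedSectionVars false
set_option linter.unusedVariables false

namespace Pool.Agent.Work.MP_0421d9_ag

open MvPolynomial Module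

namespace Pl

variable (P : Pl)

theorem zero : P.L 0 0 := by
  have h := P.add P.one (P.neg P.one)
  rwa [add_neg_cancel] at h

theorem natCast (n : ℕ) : P.L n n := by
  induction n with
  | zero => rw [Nat.cast_zero]; exact P.zero
  | succ n ih => rw [Nat.cast_succ]; exact P.add ih P.one

theorem pow {a b : ℂ} (h : P.L a b) (n : ℕ) : P.L (a ^ n) (b ^ n) := by
  induction n with
  | zero => rw [pow_zero, pow_zero]; exact P.one
  | succ n ih => rw [pow_succ, pow_succ]; exact P.mul ih h

theorem sum {κ : Type} (s : Finset κ) {a b : κ → ℂ} (h : ∀ k ∈ s, P.L (a k) (b k)) :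
    P.L (∑ k ∈ s, a k) (∑ k ∈ s, b k) := by
  classical
  induction s using Finset.induction_on with
  | empty => rw [Finset.sum_empty, Finset.sum_empty]; exact P.zero
  | insert j s hj ih =>
    rw [Finset.sum_insert hj, Finset.sum_insert hj]
    exact P.add (h j (Finset.mem_insert_self j s))
      (ih (fun k hk => h k (Finset.mem_insert_of_mem hk)))

theorem prod {κ : Type} (s : Finset κ) {a b : κ → ℂ} (h : ∀ k ∈ s, P.L (a k) (b k)) :
    P.L (∏ k ∈ s, a k) (∏ k ∈ s, b k) := by
  classical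
  induction s using Finset.induction_on with
  | empty => rw [Finset.prod_empty, Finset.prod_empty]; exact P.one
  | insert j s hj ih =>
    rw [Finset.prod_insert hj, Finset.prod_insert hj]
    exact P.mul (h j (Finset.mem_insert_self j s))
      (ih (fun k hk => h k (Finset.mem_insert_of_mem hk)))

theorem inv {a b : ℂ} (h : P.L a b) (hb : b ≠ 0) : P.L a⁻¹ b⁻¹ := by
  rcases P.tot a⁻¹ with ⟨c, hc⟩ | h0
  · have ha : a ≠ 0 := by
      rintro rfl
      exact hb (P.fn h P.zero)
    have h1 := P.mul h hc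
    rw [mul_inv_cancel₀ ha] at h1
    have h2 := P.fn h1 P.one
    rwa [eq_inv_of_mul_eq_one_right h2] at hc
  · rw [inv_inv] at h0
    exact absurd (P.fn h h0) hb

theorem div {a b a' b' : ℂ} (h : P.L a b) (h' : P.L a' b') (hb : b' ≠ 0) :
    P.L (a / a') (b / b') := by
  rw [div_eq_mul_inv, div_eq_mul_inv]
  exact P.mul h (P.inv h' hb)

theorem sub {a b a' b' : ℂ} (h : P.L a b) (h' : P.L a' b') : P.L (a - a') (b - b') := by
  rw [sub_eq_add_neg, sub_eq_add_neg]
  exact P.add h (P.neg h')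

theorem exists_pivot {κ : Type} (s : Finset κ) (a : κ → ℂ) (h : ∃ k ∈ s, a k ≠ 0) :
    ∃ k₀ ∈ s, a k₀ ≠ 0 ∧ ∀ k ∈ s, ∃ b, P.L (a k / a k₀) b := by
  classical
  induction s using Finset.induction_on with
  | empty =>
    obtain ⟨k, hk, -⟩ := h
    exact absurd hk (Finset.notMem_empty k)
  | insert j s hj ih =>
    by_cases hs : ∃ k ∈ s, a k ≠ 0
    · obtain ⟨k₀, hk₀, h0, hall⟩ := ih hs
      rcases P.tot (a j / a k₀) with ⟨b, hb⟩ | h1
      · refine ⟨k₀, Finset.mem_insert_of_mem hk₀, h0, fun k hk => ?_⟩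
        rcases Finset.mem_insert.mp hk with rfl | hk
        · exact ⟨b, hb⟩
        · exact hall k hk
      · by_cases hj0 : a j = 0
        · refine ⟨k₀, Finset.mem_insert_of_mem hk₀, h0, fun k hk => ?_⟩
          rcases Finset.mem_insert.mp hk with rfl | hk
          · rw [hj0, zero_div]
            exact ⟨0, P.zero⟩
          · exact hall k hk
        · refine ⟨j, Finset.mem_insert_self j s, hj0, fun k hk => ?_⟩
          rcases Finset.mem_insert.mp hk with rfl | hk
          · rw [div_self hj0]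
            exact ⟨1, P.one⟩
          · obtain ⟨b, hb⟩ := hall k hk
            refine ⟨b * 0, ?_⟩
            have h2 := P.mul hb h1
            have h3 : a k / a k₀ * (a j / a k₀)⁻¹ = a k / a j := by
              field_simp
            rwa [h3] at h2
    · have hall : ∀ k ∈ s, a k = 0 := fun k hk => by
        by_contra hne
        exact hs ⟨k, hk, hne⟩
      have hj0 : a j ≠ 0 := by
        obtain ⟨k, hk, hk0⟩ := h
        rcases Finset.mem_insert.mp hk with rfl | hk
        · exact hk0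
        · exact absurd (hall k hk) hk0
      refine ⟨j, Finset.mem_insert_self j s, hj0, fun k hk => ?_⟩
      rcases Finset.mem_insert.mp hk with rfl | hk
      · rw [div_self hj0]
        exact ⟨1, P.one⟩
      · rw [hall k hk, zero_div]
        exact ⟨0, P.zero⟩

/-- normalisation of a finite family -/
theorem exists_scale {κ : Type} (s : Finset κ) (a : κ → ℂ) (h : ∃ k ∈ s, a k ≠ 0) :
    ∃ c : ℂ, c ≠ 0 ∧ ∃ b : κ → ℂ, (∀ k ∈ s, P.L (c * a k) (b k)) ∧ ∃ k ∈ s, b k ≠ 0 := by
  classical
  obtain ⟨k₀, hk₀, h0, hall⟩ := P.exists_pivot s a h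
  have hall' : ∀ k ∈ s, ∃ b, P.L ((a k₀)⁻¹ * a k) b := fun k hk => by
    obtain ⟨b, hb⟩ := hall k hk
    refine ⟨b, ?_⟩
    rwa [div_eq_inv_mul] at hb
  refine ⟨(a k₀)⁻¹, inv_ne_zero h0,
    fun k => if hk : k ∈ s then (hall' k hk).choose else 0, fun k hk => ?_, k₀, hk₀, ?_⟩
  · simp only [dif_pos hk]
    exact (hall' k hk).choose_spec
  · simp only [dif_pos hk₀]
    have h1 := (hall' k₀ hk₀).choose_spec
    have h2 : P.L ((a k₀)⁻¹ * a k₀) 1 := by
      rw [inv_mul_cancel₀ h0]
      exact P.one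
    rw [P.fn h1 h2]
    exact one_ne_zero

/-- normalisation of a vector -/
theorem exists_scale_vec {n : ℕ} (a : Fin n → ℂ) (h : a ≠ 0) :
    ∃ c : ℂ, c ≠ 0 ∧ ∃ b : Fin n → ℂ, b ≠ 0 ∧ ∀ k, P.L (c * a k) (b k) := by
  have h1 : ∃ k ∈ (Finset.univ : Finset (Fin n)), a k ≠ 0 := by
    by_contra hcon
    push Not at hcon
    exact h (funext (fun k => hcon k (Finset.mem_univ k)))
  obtain ⟨c, hc, b, hb, k, -, hk⟩ := P.exists_scale Finset.univ a h1
  refine ⟨c, hc, b, ?_, fun k => hb k (Finset.mem_univ k)⟩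
  rintro rfl
  exact hk rfl

variable {P} {σ τ : Type}

theorem LP.fn {F G G' : MvPolynomial σ ℂ} (h : P.LP F G) (h' : P.LP F G') : G = G' := by
  ext α
  exact P.fn (h α) (h' α)

theorem LP_zero : P.LP (0 : MvPolynomial σ ℂ) 0 := by
  intro α
  rw [coeff_zero]
  exact P.zero

theorem LP_C {a b : ℂ} (h : P.L a b) : P.LP (C a : MvPolynomial σ ℂ) (C b) := by
  classical
  intro α
  rw [coeff_C, coeff_C]
  split_ifs
  · exact h
  · exact P.zero

theorem LP_one : P.LP (1 : MvPolynomial σ ℂ) 1 := by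
  have h := LP_C (σ := σ) P.one
  rwa [C_1] at h

theorem LP_X (i : σ) : P.LP (X i : MvPolynomial σ ℂ) (X i) := by
  classical
  intro α
  rw [coeff_X]
  split_ifs
  · exact P.one
  · exact P.zero

theorem LP.add {F F' G G' : MvPolynomial σ ℂ} (h : P.LP F G) (h' : P.LP F' G') :
    P.LP (F + F') (G + G') := by
  intro α
  rw [coeff_add, coeff_add]
  exact P.add (h α) (h' α)

theorem LP.neg {F G : MvPolynomial σ ℂ} (h : P.LP F G) : P.LP (-F) (-G) := by
  intro α
  rw [coeff_neg, coeff_neg]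
  exact P.neg (h α)

theorem LP.sub {F F' G G' : MvPolynomial σ ℂ} (h : P.LP F G) (h' : P.LP F' G') :
    P.LP (F - F') (G - G') := by
  intro α
  rw [coeff_sub, coeff_sub]
  exact P.sub (h α) (h' α)

theorem LP.mul {F F' G G' : MvPolynomial σ ℂ} (h : P.LP F G) (h' : P.LP F' G') :
    P.LP (F * F') (G * G') := by
  classical
  intro α
  rw [coeff_mul, coeff_mul]
  exact P.sum _ (fun x _ => P.mul (h x.1) (h' x.2))

theorem LP.C_mul {F G : MvPolynomial σ ℂ} (h : P.LP F G) {a b : ℂ} (hab : P.L a b) :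
    P.LP (C a * F) (C b * G) := LP.mul (LP_C hab) h

theorem LP.pow {F G : MvPolynomial σ ℂ} (h : P.LP F G) (n : ℕ) : P.LP (F ^ n) (G ^ n) := by
  induction n with
  | zero => rw [pow_zero, pow_zero]; exact LP_one
  | succ n ih => rw [pow_succ, pow_succ]; exact ih.mul h

theorem LP.sum {κ : Type} (s : Finset κ) {F G : κ → MvPolynomial σ ℂ}
    (h : ∀ k ∈ s, P.LP (F k) (G k)) : P.LP (∑ k ∈ s, F k) (∑ k ∈ s, G k) := by
  intro α
  rw [coeff_sum, coeff_sum]
  exact P.sum s (fun k hk => h k hk α)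

theorem LP.prod {κ : Type} (s : Finset κ) {F G : κ → MvPolynomial σ ℂ}
    (h : ∀ k ∈ s, P.LP (F k) (G k)) : P.LP (∏ k ∈ s, F k) (∏ k ∈ s, G k) := by
  classical
  induction s using Finset.induction_on with
  | empty => rw [Finset.prod_empty, Finset.prod_empty]; exact LP_one
  | insert j s hj ih =>
    rw [Finset.prod_insert hj, Finset.prod_insert hj]
    exact (h j (Finset.mem_insert_self j s)).mul
      (ih (fun k hk => h k (Finset.mem_insert_of_mem hk)))

theorem LP.pderiv (i : σ) {F G : MvPolynomial σ ℂ} (h : P.LP F G) :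
    P.LP (pderiv i F) (pderiv i G) := by
  classical
  intro α
  rw [coeff_pderiv, coeff_pderiv]
  refine P.mul (h _) ?_
  exact P.add (P.natCast _) P.one

theorem LP.support_subset {F G : MvPolynomial σ ℂ} (h : P.LP F G) : G.support ⊆ F.support := by
  intro α hα
  rw [MvPolynomial.mem_support_iff] at hα ⊢
  intro h0
  apply hα
  have h1 := h α
  rw [h0] at h1
  exact P.fn h1 P.zero

theorem LP.eval {F G : MvPolynomial σ ℂ} (h : P.LP F G) {a b : σ → ℂ} (ha : ∀ i, P.L (a i) (b i)) :
    P.L (eval a F) (eval b G) := by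
  have h1 : MvPolynomial.eval b G = ∑ d ∈ F.support, coeff d G * ∏ i ∈ d.support, b i ^ d i := by
    rw [eval_eq]
    apply Finset.sum_subset h.support_subset
    intro d _ hd
    rw [notMem_support_iff.mp hd, zero_mul]
  rw [h1, eval_eq]
  exact P.sum _ (fun d _ => P.mul (h d) (P.prod _ (fun i _ => P.pow (ha i) _)))

theorem LP.aeval {F G : MvPolynomial σ ℂ} (h : P.LP F G) {f g : σ → MvPolynomial τ ℂ}
    (hf : ∀ i, P.LP (f i) (g i)) : P.LP (aeval f F) (aeval g G) := by
  have h0 : ∀ (e : σ → MvPolynomial τ ℂ) (H : MvPolynomial σ ℂ), MvPolynomial.aeval e H =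
      ∑ d ∈ H.support, C (coeff d H) * ∏ i ∈ d.support, e i ^ d i := by
    intro e H
    rw [aeval_def, eval₂_eq]
    rfl
  have h1 : MvPolynomial.aeval g G = ∑ d ∈ F.support, C (coeff d G) *
      ∏ i ∈ d.support, g i ^ d i := by
    rw [h0]
    apply Finset.sum_subset h.support_subset
    intro d _ hd
    rw [notMem_support_iff.mp hd, C_0, zero_mul]
  rw [h1, h0]
  exact LP.sum _ (fun d _ => (LP_C (h d)).mul (LP.prod _ (fun i _ => (hf i).pow _)))

theorem LP.homogeneous {F G : MvPolynomial σ ℂ} (h : P.LP F G) {n : ℕ} (hF : F.IsHomogeneous n) :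
    G.IsHomogeneous n := by
  intro α hα
  apply hF
  exact MvPolynomial.mem_support_iff.mp (h.support_subset (MvPolynomial.mem_support_iff.mpr hα))

theorem LP.homogeneousComponent {F G : MvPolynomial σ ℂ} (h : P.LP F G) (k : ℕ) :
    P.LP (homogeneousComponent k F) (homogeneousComponent k G) := by
  classical
  intro α
  rw [coeff_homogeneousComponent, coeff_homogeneousComponent]
  split_ifs
  · exact h α
  · exact P.zero

theorem LP_lin {v w : V3} (h : ∀ k, P.L (v k) (w k)) : P.LP (lin v) (lin w) := by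
  unfold lin
  exact LP.sum _ (fun i _ => (LP_C (h i)).mul (LP_X i))

theorem B_eq_sum (A F : R3) : B A F = ∑ α ∈ A.support, coeff α A * (wt α * coeff α F) := by
  conv_lhs => rw [A.as_sum]
  rw [map_sum, LinearMap.sum_apply]
  exact Finset.sum_congr rfl (fun α _ => B_monomial α _ F)

theorem LP.B {A A' F F' : R3} (hA : P.LP A A') (hF : P.LP F F') : P.L (B A F) (B A' F') := by
  have h1 : MP_0421d9_ag.B A' F' = ∑ α ∈ A.support, coeff α A' * (wt α * coeff α F') := by
    rw [B_eq_sum]
    apply Finset.sum_subset hA.support_subset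
    intro d _ hd
    rw [notMem_support_iff.mp hd, zero_mul]
  rw [h1, B_eq_sum]
  exact P.sum _ (fun α _ => P.mul (hA α) (P.mul (P.natCast _) (hF α)))

theorem exists_scale_poly (P : Pl) {F : MvPolynomial σ ℂ} (hF : F ≠ 0) :
    ∃ c : ℂ, c ≠ 0 ∧ ∃ G : MvPolynomial σ ℂ, G ≠ 0 ∧ P.LP (C c * F) G := by
  classical
  have h1 : ∃ α ∈ F.support, coeff α F ≠ 0 := by
    obtain ⟨α, hα⟩ := MvPolynomial.support_nonempty.mpr hF
    exact ⟨α, hα, MvPolynomial.mem_support_iff.mp hα⟩
  obtain ⟨c, hc, b, hb, k, hk, hk0⟩ := P.exists_scale F.support (fun α => coeff α F) h1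
  have h2 : ∀ α, coeff α (∑ β ∈ F.support, monomial β (b β)) = if α ∈ F.support then b α else 0 := by
    intro α
    rw [coeff_sum]
    simp only [coeff_monomial]
    rw [Finset.sum_ite_eq' F.support α]
  refine ⟨c, hc, ∑ β ∈ F.support, monomial β (b β), ?_, fun α => ?_⟩
  · intro h0
    apply hk0
    have h3 := h2 k
    rw [h0, coeff_zero, if_pos hk] at h3
    exact h3.symm
  · rw [h2, coeff_C_mul]
    split_ifs with hα
    · exact hb α hα
    · rw [notMem_support_iff.mp hα, mul_zero]
      exact P.zero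

theorem LP.translate {F G : R3} (h : P.LP F G) {p q : V3} (hp : ∀ k, P.L (p k) (q k)) :
    P.LP (translate p F) (translate q G) := by
  unfold MP_0421d9_ag.translate
  exact h.aeval (fun k => (LP_C (hp k)).add (LP_X k))

theorem LP.vanishTo {F G : R3} (h : P.LP F G) {d : ℕ} (hF : F.IsHomogeneous d) {p q : V3}
    (hp : ∀ k, P.L (p k) (q k)) {m : ℕ} (hv : VanishTo F p m) : VanishTo G q m := by
  intro k hk
  have h1 := (h.translate hp).homogeneousComponent k
  rw [hv k hk] at h1
  exact (LP.fn LP_zero h1).symm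

theorem LP.linSys {ι : Type} {d : ℕ} {p q : ι → V3} {m : ι → ℕ} {F G : R3} (h : P.LP F G)
    (hp : ∀ i k, P.L (p i k) (q i k)) (hF : F ∈ linSys d p m) : G ∈ linSys d q m :=
  ⟨h.homogeneous hF.1, fun i => h.vanishTo hF.1 (hp i) (hF.2 i)⟩

end Pl

end Pool.Agent.Work.MP_0421d9_ag
end

section
/-!
The curve on the product of two lines is smooth.
-/

set_option linter.unusedSectionVars false
set_option linter.unusedVariables false

namespace Pool.Agent.Work.MP_0421d9_ag.SM

open MvPolynomial Module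

/-! ### substitutions -/

theorem eval_aeval_gen {σ τ : Type} (g : σ → MvPolynomial τ ℂ) (y : τ → ℂ)
    (G : MvPolynomial σ ℂ) : eval y (aeval g G) = eval (fun i => eval y (g i)) G := by
  induction G using MvPolynomial.induction_on with
  | C a => rw [algHom_C, algebraMap_eq, eval_C, eval_C]
  | add p q hp hq => rw [map_add, map_add, hp, hq, map_add]
  | mul_X p i hp => rw [map_mul, map_mul, hp, aeval_X, map_mul, eval_X]

theorem cD_aeval {σ τ : Type} [Fintype σ] (D : Derivation ℚ ℂ ℂ) (g : σ → MvPolynomial τ ℂ)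
    (G : MvPolynomial σ ℂ) : cD D (aeval g G) = aeval g (cD D G) +
      ∑ i, aeval g (pderiv i G) * cD D (g i) := by
  classical
  induction G using MvPolynomial.induction_on with
  | C a =>
    rw [algHom_C, algebraMap_eq, cD_C, cD_C, algHom_C, algebraMap_eq]
    simp
  | add p q hp hq =>
    simp only [map_add, hp, hq, add_mul, Finset.sum_add_distrib]
    ring
  | mul_X p n hp =>
    have h1 : ∀ i, aeval g (pderiv i (p * X n)) * cD D (g i) =
        aeval g p * (aeval g (pderiv i (X n : MvPolynomial σ ℂ)) * cD D (g i)) +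
        g n * (aeval g (pderiv i p) * cD D (g i)) := fun i => by
      rw [Derivation.leibniz, smul_eq_mul, smul_eq_mul, map_add, map_mul, map_mul, aeval_X]
      ring
    rw [Finset.sum_congr rfl (fun i _ => h1 i), Finset.sum_add_distrib, ← Finset.mul_sum,
      ← Finset.mul_sum]
    have h2 : ∑ i, aeval g (pderiv i (X n : MvPolynomial σ ℂ)) * cD D (g i) = cD D (g n) := by
      rw [Finset.sum_eq_single n]
      · rw [pderiv_X_self, map_one, one_mul]
      · intro b _ hb
        rw [pderiv_X_of_ne hb.symm, map_zero, zero_mul]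
      · simp
    rw [h2, map_mul, aeval_X, cD_mul, hp, cD_mul, cD_X, mul_zero, add_zero, map_mul, aeval_X]
    ring

theorem pderiv_aeval {σ τ : Type} [Fintype σ] (j : τ) (g : σ → MvPolynomial τ ℂ)
    (G : MvPolynomial σ ℂ) : pderiv j (aeval g G) =
      ∑ i, aeval g (pderiv i G) * pderiv j (g i) := by
  classical
  induction G using MvPolynomial.induction_on with
  | C a =>
    rw [algHom_C, algebraMap_eq, pderiv_C]
    simp
  | add p q hp hq =>
    simp only [map_add, hp, hq, add_mul, Finset.sum_add_distrib]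
  | mul_X p n hp =>
    have h1 : ∀ i, aeval g (pderiv i (p * X n)) * pderiv j (g i) =
        aeval g p * (aeval g (pderiv i (X n : MvPolynomial σ ℂ)) * pderiv j (g i)) +
        g n * (aeval g (pderiv i p) * pderiv j (g i)) := fun i => by
      rw [Derivation.leibniz, smul_eq_mul, smul_eq_mul, map_add, map_mul, map_mul, aeval_X]
      ring
    rw [Finset.sum_congr rfl (fun i _ => h1 i), Finset.sum_add_distrib, ← Finset.mul_sum,
      ← Finset.mul_sum]
    have h2 : ∑ i, aeval g (pderiv i (X n : MvPolynomial σ ℂ)) * pderiv j (g i) =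
        pderiv j (g n) := by
      rw [Finset.sum_eq_single n]
      · rw [pderiv_X_self, map_one, one_mul]
      · intro b _ hb
        rw [pderiv_X_of_ne hb.symm, map_zero, zero_mul]
      · simp
    rw [h2, map_mul, aeval_X, pderiv_mul, hp]
    ring

theorem eval_onC (P Q : R2) (G : R4) (y : V2) :
    eval y (onC P Q G) = eval (pt ![eval y P, eval y Q] y) G := by
  unfold onC
  rw [eval_aeval_gen]
  congr 2
  funext i
  fin_cases i <;> simp [pt]

/-- evaluation in the first two variables -/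
noncomputable def ev (θ : V2) : R4 →ₐ[ℂ] R2 := aeval ![C (θ 0), C (θ 1), X 0, X 1]

theorem eval_ev (θ y : V2) (G : R4) : eval y (ev θ G) = eval (pt θ y) G := by
  unfold ev
  rw [eval_aeval_gen]
  congr 2
  funext i
  fin_cases i <;> simp [pt]

theorem cD_onC (D : Derivation ℚ ℂ ℂ) (P Q : R2) (Φ : R4) :
    cD D (onC P Q Φ) = onC P Q (cD D Φ) + onC P Q (pderiv 0 Φ) * cD D P +
      onC P Q (pderiv 1 Φ) * cD D Q := by
  unfold onC
  rw [cD_aeval, Fin.sum_univ_four]
  simp only [Matrix.cons_val, cD_X, mul_zero, add_zero]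
  rw [add_assoc]

theorem pderiv_ev (θ : V2) (G : R4) (j : Fin 2) : pderiv j (ev θ G) =
    ev θ (pderiv 2 G) * pderiv j (X 0) + ev θ (pderiv 3 G) * pderiv j (X 1) := by
  unfold ev
  rw [pderiv_aeval, Fin.sum_univ_four]
  simp only [Matrix.cons_val, pderiv_C, mul_zero, zero_add]

theorem pderiv_onC_sum (P Q : R2) (G : R4) (j : Fin 2) : pderiv j (onC P Q G) =
    onC P Q (pderiv 0 G) * pderiv j P + onC P Q (pderiv 1 G) * pderiv j Q +
    onC P Q (pderiv 2 G) * pderiv j (X 0) + onC P Q (pderiv 3 G) * pderiv j (X 1) := by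
  unfold onC
  rw [pderiv_aeval, Fin.sum_univ_four]
  simp only [Matrix.cons_val]

theorem pderiv_onC (k : Fin 2) (P Q : R2) (Φ : R4) :
    pderiv k (onC P Q Φ) = onC P Q (pderiv 0 Φ) * pderiv k P + onC P Q (pderiv 1 Φ) * pderiv k Q +
      onC P Q (pderiv (Fin.natAdd 2 k) Φ) := by
  rw [pderiv_onC_sum]
  fin_cases k
  · simp only [Fin.zero_eta]
    rw [pderiv_X_self, pderiv_X_of_ne (by decide), mul_one, mul_zero, add_zero]
    rfl
  · simp only [Fin.mk_one]
    rw [pderiv_X_self, pderiv_X_of_ne (by decide), mul_one, mul_zero, add_zero]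
    rfl

/-! ### degrees -/

/-- homogeneous of degree `w` in the first two variables -/
def DegUV (w : ℕ) (G : R4) : Prop := ∀ α, coeff α G ≠ 0 → α 0 + α 1 = w

theorem BiHom.degUV {w b : ℕ} {G : R4} (h : BiHom w b G) : DegUV w G := fun α hα => (h α hα).1

theorem euler_UV {w : ℕ} {G : R4} (h : DegUV w G) :
    C (w : ℂ) * G = X 0 * pderiv 0 G + X 1 * pderiv 1 G := by
  conv_rhs => rw [G.as_sum]
  conv_lhs => rw [G.as_sum]
  simp only [map_sum, Finset.mul_sum, ← Finset.sum_add_distrib]
  refine Finset.sum_congr rfl (fun α hα => ?_)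
  rw [X_mul_pderiv_monomial, X_mul_pderiv_monomial, ← add_smul,
    h α (MvPolynomial.mem_support_iff.mp hα), nsmul_eq_mul, map_natCast]

theorem BiHom.pderiv0 {u b : ℕ} {G : R4} (hu : 1 ≤ u) (h : BiHom u b G) :
    BiHom (u - 1) b (pderiv 0 G) := by
  intro α hα
  rw [coeff_pderiv] at hα
  have h1 := h _ (left_ne_zero_of_mul hα)
  simp at h1
  omega

theorem BiHom.pderiv1 {u b : ℕ} {G : R4} (hu : 1 ≤ u) (h : BiHom u b G) :
    BiHom (u - 1) b (pderiv 1 G) := by
  intro α hα
  rw [coeff_pderiv] at hα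
  have h1 := h _ (left_ne_zero_of_mul hα)
  simp at h1
  omega

theorem DegUV.pderiv2 {u : ℕ} {G : R4} (h : DegUV u G) : DegUV u (pderiv 2 G) := by
  intro α hα
  rw [coeff_pderiv] at hα
  have h1 := h _ (left_ne_zero_of_mul hα)
  simpa using h1

theorem DegUV.pderiv3 {u : ℕ} {G : R4} (h : DegUV u G) : DegUV u (pderiv 3 G) := by
  intro α hα
  rw [coeff_pderiv] at hα
  have h1 := h _ (left_ne_zero_of_mul hα)
  simpa using h1

theorem eval_pt_smul {w : ℕ} {G : R4} (h : DegUV w G) (μ : ℂ) (θ y : V2) :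
    eval (pt (μ • θ) y) G = μ ^ w * eval (pt θ y) G := by
  rw [eval_eq', eval_eq', Finset.mul_sum]
  refine Finset.sum_congr rfl (fun d hd => ?_)
  have h1 := h d (MvPolynomial.mem_support_iff.mp hd)
  rw [← h1, Fin.prod_univ_four, Fin.prod_univ_four]
  simp only [pt, Pi.smul_apply, smul_eq_mul, Matrix.cons_val]
  rw [mul_pow, mul_pow, pow_add]
  ring

theorem ev_isHomogeneous {w b : ℕ} {G : R4} (h : BiHom w b G) (θ : V2) :
    (ev θ G).IsHomogeneous b := by
  unfold ev
  rw [G.as_sum, map_sum]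
  apply IsHomogeneous.sum
  intro α hα
  have h1 := (h α (MvPolynomial.mem_support_iff.mp hα)).2
  rw [aeval_monomial, Finsupp.prod_fintype _ _ (fun i => pow_zero _), Fin.prod_univ_four,
    algebraMap_eq]
  simp only [Matrix.cons_val]
  rw [← C_pow, ← C_pow]
  have h2 := (isHomogeneous_X_pow (R := ℂ) (0 : Fin 2) (α 2)).mul
    (isHomogeneous_X_pow (R := ℂ) (1 : Fin 2) (α 3))
  rw [h1] at h2
  have h3 : (C (coeff α G) * (C (θ 0 ^ α 0) * C (θ 1 ^ α 1) * X 0 ^ α 2 * X 1 ^ α 3) : R2) =
      C (coeff α G * θ 0 ^ α 0 * θ 1 ^ α 1) * (X 0 ^ α 2 * X 1 ^ α 3) := by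
    rw [map_mul, map_mul]
    ring
  rw [h3]
  exact h2.C_mul _

/-! ### congruences modulo `N` -/

theorem dvd_onC {w : ℕ} {G : R4} (h : DegUV w G) (P Q : R2) (θ : V2) :
    C (θ 1) * P - C (θ 0) * Q ∣ C (θ 0 ^ w) * onC P Q G - P ^ w * ev θ G := by
  unfold onC ev
  conv_rhs => rw [G.as_sum]
  rw [map_sum, map_sum, Finset.mul_sum, Finset.mul_sum, ← Finset.sum_sub_distrib]
  apply Finset.dvd_sum
  intro α hα
  rw [aeval_monomial, aeval_monomial, Finsupp.prod_fintype _ _ (fun i => pow_zero _),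
    Finsupp.prod_fintype _ _ (fun i => pow_zero _), Fin.prod_univ_four, Fin.prod_univ_four,
    algebraMap_eq]
  simp only [Matrix.cons_val]
  have hw := h α (MvPolynomial.mem_support_iff.mp hα)
  obtain ⟨e, he⟩ := sub_dvd_pow_sub_pow (C (θ 0) * Q) (C (θ 1) * P) (α 1)
  refine ⟨-(C (coeff α G) * (P ^ α 0 * C (θ 0) ^ α 0) * X 0 ^ α 2 * X 1 ^ α 3 * e), ?_⟩
  rw [← hw]
  simp only [pow_add, map_mul, C_pow]
  have he' : C (θ 0) ^ α 1 * Q ^ α 1 - C (θ 1) ^ α 1 * P ^ α 1 =
      (C (θ 0) * Q - C (θ 1) * P) * e := by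
    rw [← he]
    ring
  linear_combination (C (coeff α G) * (P ^ α 0 * C (θ 0) ^ α 0) * X 0 ^ α 2 * X 1 ^ α 3) * he'

theorem dvd_onC' {w : ℕ} {G : R4} (h : DegUV w G) (P Q : R2) (θ : V2) :
    C (θ 1) * P - C (θ 0) * Q ∣ C (θ 1 ^ w) * onC P Q G - Q ^ w * ev θ G := by
  unfold onC ev
  conv_rhs => rw [G.as_sum]
  rw [map_sum, map_sum, Finset.mul_sum, Finset.mul_sum, ← Finset.sum_sub_distrib]
  apply Finset.dvd_sum
  intro α hα
  rw [aeval_monomial, aeval_monomial, Finsupp.prod_fintype _ _ (fun i => pow_zero _),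
    Finsupp.prod_fintype _ _ (fun i => pow_zero _), Fin.prod_univ_four, Fin.prod_univ_four,
    algebraMap_eq]
  simp only [Matrix.cons_val]
  have hw := h α (MvPolynomial.mem_support_iff.mp hα)
  obtain ⟨e, he⟩ := sub_dvd_pow_sub_pow (C (θ 1) * P) (C (θ 0) * Q) (α 0)
  refine ⟨C (coeff α G) * (Q ^ α 1 * C (θ 1) ^ α 1) * X 0 ^ α 2 * X 1 ^ α 3 * e, ?_⟩
  rw [← hw]
  simp only [pow_add, map_mul, C_pow]
  have he' : C (θ 1) ^ α 0 * P ^ α 0 - C (θ 0) ^ α 0 * Q ^ α 0 =
      (C (θ 1) * P - C (θ 0) * Q) * e := by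
    rw [← he]
    ring
  linear_combination (C (coeff α G) * (Q ^ α 1 * C (θ 1) ^ α 1) * X 0 ^ α 2 * X 1 ^ α 3) * he'

/-! ### dehomogenisation at a point -/

theorem exists_basis {y : V2} (hy : y ≠ 0) : ∃ z : V2, y 0 * z 1 - y 1 * z 0 ≠ 0 := by
  by_cases h : y 0 = 0
  · refine ⟨![1, 0], ?_⟩
    have h1 : y 1 ≠ 0 := by
      intro h1
      apply hy
      ext i
      fin_cases i
      · exact h
      · exact h1
    simpa [h] using h1
  · refine ⟨![0, 1], ?_⟩
    simpa using h

/-- linear substitution -/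
noncomputable def lsub (y z : V2) : R2 →ₐ[ℂ] R2 := aeval (fun i => C (y i) * X 0 + C (z i) * X 1)

theorem eval_lsub (y z v : V2) (F : R2) : eval v (lsub y z F) = eval (v 0 • y + v 1 • z) F := by
  unfold lsub
  rw [eval_aeval_gen]
  congr 2
  funext i
  simp only [map_add, map_mul, eval_C, eval_X, Pi.add_apply, Pi.smul_apply, smul_eq_mul]
  ring

theorem lsub_isHomogeneous (y z : V2) {F : R2} {n : ℕ} (hF : F.IsHomogeneous n) :
    (lsub y z F).IsHomogeneous n := by
  have h := hF.aeval (fun i => (C (y i) * X 0 + C (z i) * X 1 : R2)) (n := 1) (fun i =>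
    (isHomogeneous_C_mul_X (y i) 0).add (isHomogeneous_C_mul_X (z i) 1))
  rwa [one_mul] at h

theorem exists_lsub_eq {y z : V2} (h : y 0 * z 1 - y 1 * z 0 ≠ 0) {H : R2} {n : ℕ}
    (hH : H.IsHomogeneous n) : ∃ A : R2, A.IsHomogeneous n ∧ lsub y z A = H := by
  set d := y 0 * z 1 - y 1 * z 0 with hd
  refine ⟨aeval ![C (z 1 / d) * X 0 + C (-(z 0) / d) * X 1,
    C (-(y 1) / d) * X 0 + C (y 0 / d) * X 1] H, ?_, ?_⟩
  · have h1 := hH.aeval (![C (z 1 / d) * X 0 + C (-(z 0) / d) * X 1,
      C (-(y 1) / d) * X 0 + C (y 0 / d) * X 1] : Fin 2 → R2) (n := 1) (fun i => by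
        fin_cases i
        · exact (isHomogeneous_C_mul_X _ 0).add (isHomogeneous_C_mul_X _ 1)
        · exact (isHomogeneous_C_mul_X _ 0).add (isHomogeneous_C_mul_X _ 1))
    rwa [one_mul] at h1
  · apply MvPolynomial.funext
    intro v
    rw [eval_lsub, eval_aeval_gen]
    congr 2
    funext i
    fin_cases i
    · simp only [Fin.zero_eta, Matrix.cons_val_zero, map_add, map_mul, eval_C, eval_X,
        Pi.add_apply, Pi.smul_apply, smul_eq_mul]
      field_simp
      rw [hd]
      ring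
    · simp only [Fin.mk_one, Matrix.cons_val, map_add, map_mul, eval_C, eval_X,
        Pi.add_apply, Pi.smul_apply, smul_eq_mul]
      field_simp
      rw [hd]
      ring

theorem smul_add_ne_zero {y z : V2} (h : y 0 * z 1 - y 1 * z 0 ≠ 0) (c : ℂ) :
    c • y + z ≠ 0 := by
  intro h0
  apply h
  have h1 := congrFun h0 0
  have h2 := congrFun h0 1
  simp only [Pi.add_apply, Pi.smul_apply, smul_eq_mul, Pi.zero_apply] at h1 h2
  linear_combination y 0 * h2 - y 1 * h1

/-- dehomogenisation at the point `y` -/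
noncomputable def dz (y z : V2) : R2 →ₐ[ℂ] Polynomial ℂ := deh.comp (lsub y z)

theorem dz_apply (y z : V2) (F : R2) : dz y z F = deh (lsub y z F) := rfl

theorem eval_dz (y z : V2) (F : R2) (c : ℂ) : (dz y z F).eval c = eval (c • y + z) F := by
  rw [dz_apply, eval_deh, eval_lsub]
  simp

theorem natDegree_dz_le (y z : V2) {F : R2} {n : ℕ} (hF : F.IsHomogeneous n) :
    (dz y z F).natDegree ≤ n := natDegree_deh_le (lsub_isHomogeneous y z hF)

theorem coeff_dz (y z : V2) {F : R2} {n : ℕ} (hF : F.IsHomogeneous n) :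
    (dz y z F).coeff n = eval y F := by
  rw [dz_apply, coeff_deh (lsub_isHomogeneous y z hF), eval_lsub]
  simp

theorem eq_zero_of_dz {y z : V2} (h : y 0 * z 1 - y 1 * z 0 ≠ 0) {F : R2} {n : ℕ}
    (hF : F.IsHomogeneous n) (h0 : dz y z F = 0) : F = 0 := by
  have h1 : lsub y z F = 0 := eq_zero_of_deh (lsub_isHomogeneous y z hF) h0
  apply MvPolynomial.funext
  intro w
  rw [map_zero]
  set d := y 0 * z 1 - y 1 * z 0 with hd
  have h2 : w = ((w 0 * z 1 - w 1 * z 0) / d) • y + ((y 0 * w 1 - y 1 * w 0) / d) • z := by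
    ext i
    fin_cases i
    · simp only [Fin.zero_eta, Pi.add_apply, Pi.smul_apply, smul_eq_mul]
      field_simp
      rw [hd]
      ring
    · simp only [Fin.mk_one, Pi.add_apply, Pi.smul_apply, smul_eq_mul]
      field_simp
      rw [hd]
      ring
  have h3 := eval_lsub y z ![(w 0 * z 1 - w 1 * z 0) / d, (y 0 * w 1 - y 1 * w 0) / d] F
  rw [h1, map_zero] at h3
  rw [h2]
  exact h3.symm

theorem exists_dz_eq {y z : V2} (h : y 0 * z 1 - y 1 * z 0 ≠ 0) {g : Polynomial ℂ} {n : ℕ}
    (hg : g.natDegree ≤ n) : ∃ A : R2, A.IsHomogeneous n ∧ dz y z A = g := by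
  obtain ⟨A, hA, h1⟩ := exists_lsub_eq h (homog_isHomogeneous n g)
  exact ⟨A, hA, by rw [dz_apply, h1, deh_homog hg]⟩

theorem core {β v : ℕ} {N W f : R2} {y : V2} (hy : y ≠ 0) (hN : N.IsHomogeneous (β + 1))
    (hf : f.IsHomogeneous β) (hNy : eval y N ≠ 0) (hco : NoCommon W N) {τ : ℂ} (hτ : τ ≠ 0)
    (h : ∀ A : R2, A.IsHomogeneous (β + 1) → ∃ ψ : R2, ψ.IsHomogeneous β ∧ eval y ψ = 0 ∧
      N ∣ W ^ v * (W * ψ - C τ * f * A)) : f = 0 := by
  by_contra hf0
  obtain ⟨z, hz⟩ := exists_basis hy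
  set n := dz y z N with hn
  set w := dz y z W with hw
  set g0 := dz y z f with hg0
  have hg00 : g0 ≠ 0 := fun h0 => hf0 (eq_zero_of_dz hz hf h0)
  have hnc : n.coeff (β + 1) ≠ 0 := by
    rw [hn, coeff_dz y z hN]
    exact hNy
  have hnd : n.natDegree = β + 1 :=
    le_antisymm (natDegree_dz_le y z hN) (Polynomial.le_natDegree_of_ne_zero hnc)
  have hn0 : n ≠ 0 := by
    intro h0
    rw [h0, Polynomial.coeff_zero] at hnc
    exact hnc rfl
  have hcop : IsCoprime w n := by
    rw [Polynomial.isCoprime_iff_aeval_ne_zero_of_isAlgClosed ℂ ℂ]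
    intro a
    rw [Polynomial.coe_aeval_eq_eval, eval_dz, eval_dz]
    exact hco _ (smul_add_ne_zero hz a)
  set g := EuclideanDomain.gcd g0 n with hg
  have hgab : g = g0 * EuclideanDomain.gcdA g0 n + n * EuclideanDomain.gcdB g0 n :=
    EuclideanDomain.gcd_eq_gcd_ab g0 n
  have hgd : g ∣ g0 := EuclideanDomain.gcd_dvd_left g0 n
  have hg_ne : g ≠ 0 := by
    intro h0
    rw [h0, zero_dvd_iff] at hgd
    exact hg00 hgd
  have hgβ : g.natDegree ≤ β :=
    (Polynomial.natDegree_le_of_dvd hgd hg00).trans (natDegree_dz_le y z hf)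
  set e := β - g.natDegree with he
  set A0 := (Polynomial.C τ⁻¹ * w * Polynomial.X ^ e * EuclideanDomain.gcdA g0 n) % n with hA0
  have hA0d : A0.natDegree ≤ β + 1 := by
    rw [← hnd]
    exact (Polynomial.natDegree_mod_lt _ (by rw [hnd]; omega)).le
  obtain ⟨A, hA, hAd⟩ := exists_dz_eq hz hA0d
  obtain ⟨ψ, hψ, hψy, hdvd⟩ := h A hA
  have h1 : n ∣ w * dz y z ψ - Polynomial.C τ * g0 * A0 := by
    have h2 := map_dvd (dz y z) hdvd
    rw [map_mul, map_pow] at h2
    have h2' := (hcop.symm.pow_right (n := v)).dvd_of_dvd_mul_left h2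
    rw [map_sub, map_mul, map_mul, map_mul, hAd] at h2'
    have h3 : dz y z (C τ) = Polynomial.C τ := by
      unfold dz
      rw [algHom_C, ← Polynomial.C_eq_algebraMap]
    rwa [h3] at h2'
  have h2 : n ∣ w * (g * Polynomial.X ^ e) - Polynomial.C τ * g0 * A0 := by
    set B0 := Polynomial.C τ⁻¹ * w * Polynomial.X ^ e * EuclideanDomain.gcdA g0 n with hB0
    have h3 : n * (B0 / n) + A0 = B0 := EuclideanDomain.div_add_mod B0 n
    refine ⟨w * Polynomial.X ^ e * EuclideanDomain.gcdB g0 n + Polynomial.C τ * g0 * (B0 / n), ?_⟩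
    have h4 : (Polynomial.C τ * Polynomial.C τ⁻¹ : Polynomial ℂ) = 1 := by
      rw [← Polynomial.C_mul, mul_inv_cancel₀ hτ, Polynomial.C_1]
    rw [hgab]
    linear_combination (-(Polynomial.C τ * g0)) * h3 -
      (Polynomial.C τ * g0) * hB0 -
      (g0 * w * Polynomial.X ^ e * EuclideanDomain.gcdA g0 n) * h4
  have h3 : n ∣ w * (dz y z ψ - g * Polynomial.X ^ e) := by
    have h4 := dvd_sub h1 h2
    have h5 : w * dz y z ψ - Polynomial.C τ * g0 * A0 -
      (w * (g * Polynomial.X ^ e) - Polynomial.C τ * g0 * A0) =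
      w * (dz y z ψ - g * Polynomial.X ^ e) := by ring
    rwa [h5] at h4
  have h4 : n ∣ dz y z ψ - g * Polynomial.X ^ e := hcop.symm.dvd_of_dvd_mul_left h3
  have hX : (g * Polynomial.X ^ e).natDegree = β := by
    rw [Polynomial.natDegree_mul hg_ne (pow_ne_zero _ Polynomial.X_ne_zero),
      Polynomial.natDegree_X_pow]
    omega
  have h5 : dz y z ψ - g * Polynomial.X ^ e = 0 := by
    apply Polynomial.eq_zero_of_dvd_of_natDegree_lt h4
    rw [hnd]
    have h6 : (dz y z ψ - g * Polynomial.X ^ e).natDegree ≤ β := by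
      refine (Polynomial.natDegree_sub_le _ _).trans (max_le (natDegree_dz_le y z hψ) hX.le)
    omega
  have h6 := congrArg (fun q => Polynomial.coeff q β) h5
  simp only [Polynomial.coeff_sub, Polynomial.coeff_zero] at h6
  rw [coeff_dz y z hψ, hψy, zero_sub, neg_eq_zero] at h6
  have h7 : (g * Polynomial.X ^ e).coeff (g * Polynomial.X ^ e).natDegree ≠ 0 := by
    rw [Polynomial.coeff_natDegree, Polynomial.leadingCoeff_ne_zero]
    exact mul_ne_zero hg_ne (pow_ne_zero _ Polynomial.X_ne_zero)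
  rw [hX] at h7
  exact h7 h6

/-! ### the statement -/

/-- the two derivatives in the first two variables -/
theorem claim {u β : ℕ} (hu : 1 ≤ u) {P Q : R2} (hP : P.IsHomogeneous (β + 1))
    (hQ : Q.IsHomogeneous (β + 1)) (hPQ : NoCommon P Q) {G : R4} (hG : BiHom (u - 1) β G)
    {θ y : V2} (hθ : θ ≠ 0) (hy : y ≠ 0)
    (h : ∀ A : R2, A.IsHomogeneous (β + 1) → ∃ Ψ : R4, BiHom u β Ψ ∧
      onC P Q Ψ = onC P Q G * A ∧ eval (pt θ y) Ψ = 0)
    (hN : θ 1 * eval y P - θ 0 * eval y Q ≠ 0) : ev θ G = 0 := by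
  set N : R2 := C (θ 1) * P - C (θ 0) * Q with hNdef
  have hNhom : N.IsHomogeneous (β + 1) := (hP.C_mul _).sub (hQ.C_mul _)
  have hNy : eval y N ≠ 0 := by
    rw [hNdef, map_sub, map_mul, map_mul, eval_C, eval_C]
    exact hN
  obtain ⟨v, rfl⟩ : ∃ v, u = v + 1 := ⟨u - 1, by omega⟩
  rw [Nat.add_sub_cancel] at hG
  by_cases h0 : θ 0 = 0
  · have h1 : θ 1 ≠ 0 := by
      intro h1
      apply hθ
      ext i
      fin_cases i
      · exact h0
      · exact h1
    have hco : NoCommon Q N := by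
      intro x hx
      by_contra hcon
      push Not at hcon
      obtain ⟨h2, h3⟩ := hcon
      rw [hNdef, map_sub, map_mul, map_mul, eval_C, eval_C, h2, mul_zero, sub_zero] at h3
      rcases hPQ x hx with h4 | h4
      · exact h4 ((mul_eq_zero.mp h3).resolve_left h1)
      · exact h4 h2
    refine core (v := v) hy hNhom (ev_isHomogeneous hG θ) hNy hco h1 (fun A hA => ?_)
    obtain ⟨Ψ, hΨ, hΨA, hΨ0⟩ := h A hA
    refine ⟨ev θ Ψ, ev_isHomogeneous hΨ θ, by rw [eval_ev]; exact hΨ0, ?_⟩
    have h2 := dvd_onC' hΨ.degUV P Q θ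
    have h3 := dvd_onC' hG.degUV P Q θ
    rw [← hNdef] at h2 h3
    have h4 : N ∣ Q ^ v * (Q * ev θ Ψ - C (θ 1) * ev θ G * A) := by
      have h5 := dvd_sub ((h3.mul_left (C (θ 1) * A))) h2
      have h6 : C (θ 1) * A * (C (θ 1 ^ v) * onC P Q G - Q ^ v * ev θ G) -
          (C (θ 1 ^ (v + 1)) * onC P Q Ψ - Q ^ (v + 1) * ev θ Ψ) =
          Q ^ v * (Q * ev θ Ψ - C (θ 1) * ev θ G * A) := by
        rw [hΨA, pow_succ (θ 1), map_mul, pow_succ Q]
        ring
      rwa [h6] at h5
    exact h4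
  · have hco : NoCommon P N := by
      intro x hx
      by_contra hcon
      push Not at hcon
      obtain ⟨h2, h3⟩ := hcon
      rw [hNdef, map_sub, map_mul, map_mul, eval_C, eval_C, h2, mul_zero, zero_sub,
        neg_eq_zero] at h3
      rcases hPQ x hx with h4 | h4
      · exact h4 h2
      · exact h4 ((mul_eq_zero.mp h3).resolve_left h0)
    refine core (v := v) hy hNhom (ev_isHomogeneous hG θ) hNy hco h0 (fun A hA => ?_)
    obtain ⟨Ψ, hΨ, hΨA, hΨ0⟩ := h A hA
    refine ⟨ev θ Ψ, ev_isHomogeneous hΨ θ, by rw [eval_ev]; exact hΨ0, ?_⟩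
    have h2 := dvd_onC hΨ.degUV P Q θ
    have h3 := dvd_onC hG.degUV P Q θ
    rw [← hNdef] at h2 h3
    have h4 : N ∣ P ^ v * (P * ev θ Ψ - C (θ 0) * ev θ G * A) := by
      have h5 := dvd_sub ((h3.mul_left (C (θ 0) * A))) h2
      have h6 : C (θ 0) * A * (C (θ 0 ^ v) * onC P Q G - P ^ v * ev θ G) -
          (C (θ 0 ^ (v + 1)) * onC P Q Ψ - P ^ (v + 1) * ev θ Ψ) =
          P ^ v * (P * ev θ Ψ - C (θ 0) * ev θ G * A) := by
        rw [hΨA, pow_succ (θ 0), map_mul, pow_succ P]
        ring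
      rwa [h6] at h5
    exact h4

theorem eval_pt_of_ev {w : ℕ} {G : R4} (hG : DegUV w G) {θ : V2} (h : ev θ G = 0) (μ : ℂ)
    (y : V2) : eval (pt (μ • θ) y) G = 0 := by
  rw [eval_pt_smul hG, ← eval_ev, h, map_zero, mul_zero]

theorem bc {u β : ℕ} (hu : 1 ≤ u) {P Q s : R2} (hP : P.IsHomogeneous (β + 1))
    (hQ : Q.IsHomogeneous (β + 1)) (hPQ : NoCommon P Q) {Φ : R4} (hΦ : BiHom u β Φ)
    (hs : onC P Q Φ = s) (hnd : NoDouble s) {θ y : V2} (hθ : θ ≠ 0) (hy : y ≠ 0)
    (hDP : ∀ A : R2, A.IsHomogeneous (β + 1) → ∃ D : Derivation ℚ ℂ ℂ, cD D P = A ∧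
      cD D Q = 0 ∧ (∃ c : ℂ, cD D s = C c * s) ∧
      ((∀ k, D (y k) = 0) ∨ (eval (pt θ y) (pderiv 2 Φ) = 0 ∧ eval (pt θ y) (pderiv 3 Φ) = 0)))
    (hDQ : ∀ A : R2, A.IsHomogeneous (β + 1) → ∃ D : Derivation ℚ ℂ ℂ, cD D P = 0 ∧
      cD D Q = A ∧ (∃ c : ℂ, cD D s = C c * s) ∧
      ((∀ k, D (y k) = 0) ∨ (eval (pt θ y) (pderiv 2 Φ) = 0 ∧ eval (pt θ y) (pderiv 3 Φ) = 0)))
    (h0 : eval (pt θ y) (pderiv 0 Φ) = 0) (h1 : eval (pt θ y) (pderiv 1 Φ) = 0)
    (hN : θ 1 * eval y P - θ 0 * eval y Q ≠ 0) : False := by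
  have hu0 : (u : ℂ) ≠ 0 := by
    rw [Nat.cast_ne_zero]
    omega
  have hΦ0 : eval (pt θ y) Φ = 0 := by
    have h2 := congrArg (eval (pt θ y)) (euler_UV hΦ.degUV)
    rw [map_mul, map_add, map_mul, map_mul, h0, h1, mul_zero, mul_zero, add_zero, eval_C] at h2
    exact (mul_eq_zero.mp h2).resolve_left hu0
  have hcDΦ : ∀ (D : Derivation ℚ ℂ ℂ) (w b : ℕ) (G : R4), BiHom w b G →
      BiHom w b (cD D G) := by
    intro D w b G hG α hα
    apply hG
    intro h
    apply hα
    rw [coeff_cD, h, map_zero]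
  have hΨ0 : ∀ (D : Derivation ℚ ℂ ℂ) (c : ℂ), ((∀ k, D (y k) = 0) ∨
      (eval (pt θ y) (pderiv 2 Φ) = 0 ∧ eval (pt θ y) (pderiv 3 Φ) = 0)) →
      eval (pt θ y) (C c * Φ - cD D Φ) = 0 := by
    intro D c hD
    have h2 := D_eval D (pt θ y) Φ
    rw [hΦ0, map_zero, Fin.sum_univ_four, h0, h1, mul_zero, mul_zero, zero_add] at h2
    have h3 : D (pt θ y 2) * eval (pt θ y) (pderiv 2 Φ) +
        D (pt θ y 3) * eval (pt θ y) (pderiv 3 Φ) = 0 := by
      rcases hD with h | ⟨h, h'⟩
      · have e2 : pt θ y 2 = y 0 := rfl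
        have e3 : pt θ y 3 = y 1 := rfl
        rw [e2, e3, h 0, h 1, zero_mul, zero_mul, add_zero]
      · rw [h, h', mul_zero, mul_zero, add_zero]
    rw [zero_add, h3, add_zero] at h2
    rw [map_sub, map_mul, hΦ0, mul_zero, ← h2, sub_zero]
  have hΨb : ∀ (D : Derivation ℚ ℂ ℂ) (c : ℂ), BiHom u β (C c * Φ - cD D Φ) := by
    intro D c α hα
    rw [coeff_sub, coeff_C_mul] at hα
    by_cases h : coeff α Φ = 0
    · rw [h, mul_zero, zero_sub, neg_ne_zero] at hα
      exact hcDΦ D u β Φ hΦ α hα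
    · exact hΦ α h
  have hU : ev θ (pderiv 0 Φ) = 0 := by
    refine claim hu hP hQ hPQ (hΦ.pderiv0 hu) hθ hy (fun A hA => ?_) hN
    obtain ⟨D, hDP', hDQ', ⟨c, hc⟩, hD⟩ := hDP A hA
    refine ⟨C c * Φ - cD D Φ, hΨb D c, ?_, hΨ0 D c hD⟩
    have h2 := cD_onC D P Q Φ
    rw [hs, hc, hDP', hDQ', mul_zero, add_zero] at h2
    have h3 : onC P Q (C c) = C c := by
      unfold onC
      rw [algHom_C, algebraMap_eq]
    rw [map_sub, map_mul, hs, h3, h2]
    ring
  have hV : ev θ (pderiv 1 Φ) = 0 := by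
    refine claim hu hP hQ hPQ (hΦ.pderiv1 hu) hθ hy (fun A hA => ?_) hN
    obtain ⟨D, hDP', hDQ', ⟨c, hc⟩, hD⟩ := hDQ A hA
    refine ⟨C c * Φ - cD D Φ, hΨb D c, ?_, hΨ0 D c hD⟩
    have h2 := cD_onC D P Q Φ
    rw [hs, hc, hDP', hDQ', mul_zero, add_zero] at h2
    have h3 : onC P Q (C c) = C c := by
      unfold onC
      rw [algHom_C, algebraMap_eq]
    rw [map_sub, map_mul, hs, h3, h2]
    ring
  have hE : ev θ Φ = 0 := by
    have h2 := congrArg (ev θ) (euler_UV hΦ.degUV)
    rw [map_mul, map_add, map_mul, map_mul, hU, hV, mul_zero, mul_zero, add_zero] at h2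
    have h3 : ev θ (C (u : ℂ)) = C (u : ℂ) := by
      unfold ev
      rw [algHom_C, algebraMap_eq]
    rw [h3] at h2
    rcases mul_eq_zero.mp h2 with h4 | h4
    · exact absurd ((C_eq_zero).mp h4) hu0
    · exact h4
  have hX2 : ev θ (pderiv 2 Φ) = 0 := by
    have h2 := pderiv_ev θ Φ 0
    rw [hE, map_zero, pderiv_X_self, pderiv_X_of_ne (by decide), mul_one, mul_zero,
      add_zero] at h2
    exact h2.symm
  have hX3 : ev θ (pderiv 3 Φ) = 0 := by
    have h2 := pderiv_ev θ Φ 1
    rw [hE, map_zero, pderiv_X_self, pderiv_X_of_ne (by decide), mul_one, mul_zero,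
      zero_add] at h2
    exact h2.symm
  -- a root of `N`
  set N : R2 := C (θ 1) * P - C (θ 0) * Q with hNdef
  have hNhom : N.IsHomogeneous (β + 1) := (hP.C_mul _).sub (hQ.C_mul _)
  have hNy : eval y N ≠ 0 := by
    rw [hNdef, map_sub, map_mul, map_mul, eval_C, eval_C]
    exact hN
  obtain ⟨z, hz⟩ := exists_basis hy
  have hnc : (dz y z N).coeff (β + 1) ≠ 0 := by
    rw [coeff_dz y z hNhom]
    exact hNy
  have hdeg : (dz y z N).degree ≠ 0 := by
    intro h
    have h2 := Polynomial.le_natDegree_of_ne_zero hnc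
    have h3 : (dz y z N).natDegree = 0 := Polynomial.natDegree_eq_of_degree_eq_some h
    omega
  obtain ⟨c, hc⟩ := IsAlgClosed.exists_root (dz y z N) hdeg
  rw [Polynomial.IsRoot, eval_dz] at hc
  set x := c • y + z with hx
  have hx0 : x ≠ 0 := smul_add_ne_zero hz c
  have hrel : θ 1 * eval x P = θ 0 * eval x Q := by
    rw [hNdef, map_sub, map_mul, map_mul, eval_C, eval_C, sub_eq_zero] at hc
    exact hc
  obtain ⟨μ, hμ⟩ : ∃ μ : ℂ, ![eval x P, eval x Q] = μ • θ := by
    by_cases h2 : θ 0 = 0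
    · have h3 : θ 1 ≠ 0 := by
        intro h3
        apply hθ
        ext i
        fin_cases i
        · exact h2
        · exact h3
      refine ⟨eval x Q / θ 1, ?_⟩
      rw [h2, zero_mul] at hrel
      have h4 := (mul_eq_zero.mp hrel).resolve_left h3
      ext i
      fin_cases i
      · simp [h2, h4]
      · simp [h3]
    · refine ⟨eval x P / θ 0, ?_⟩
      ext i
      fin_cases i
      · simp [h2]
      · simp only [Fin.mk_one, Matrix.cons_val, Pi.smul_apply, smul_eq_mul]
        field_simp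
        linear_combination -hrel
  obtain ⟨k, hk⟩ := hnd x hx0
  apply hk
  rw [← hs, pderiv_onC_sum]
  simp only [map_add, map_mul, eval_onC, hμ]
  rw [eval_pt_of_ev (hΦ.pderiv0 hu).degUV hU, eval_pt_of_ev (hΦ.pderiv1 hu).degUV hV,
    eval_pt_of_ev hΦ.degUV.pderiv2 hX2, eval_pt_of_ev hΦ.degUV.pderiv3 hX3]
  ring

end Pool.Agent.Work.MP_0421d9_ag.SM
end

section
/-!
Binary forms with generic coefficients, substitution into bihomogeneous polynomials.
-/

set_option linter.unusedSectionVars false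
set_option linter.unusedVariables false

namespace Pool.Agent.Work.MP_0421d9_ag.SM

open MvPolynomial Module

/-! ### binary forms -/

/-- the binary form of degree `k` with the coefficients `c` -/
noncomputable def bf (k : ℕ) (c : Fin (k + 1) → ℂ) : R2 :=
  ∑ i : Fin (k + 1), C (c i) * (X 0 ^ (i : ℕ) * X 1 ^ (k - (i : ℕ)))

theorem bf_hom (k : ℕ) (c : Fin (k + 1) → ℂ) : (bf k c).IsHomogeneous k := by
  unfold bf
  apply IsHomogeneous.sum
  intro i _
  apply IsHomogeneous.C_mul
  have h1 := (isHomogeneous_X_pow (R := ℂ) (0 : Fin 2) (i : ℕ)).mul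
    (isHomogeneous_X_pow (R := ℂ) (1 : Fin 2) (k - (i : ℕ)))
  rwa [(by omega : (i : ℕ) + (k - (i : ℕ)) = k)] at h1

theorem exists_bf {k : ℕ} {A : R2} (hA : A.IsHomogeneous k) : ∃ c, A = bf k c := by
  refine ⟨fun i => (deh A).coeff (i : ℕ), ?_⟩
  conv_lhs => rw [← homog_deh hA (natDegree_deh_le hA)]
  unfold homog bf
  rw [Finset.sum_range]

theorem cD_bf (D : Derivation ℚ ℂ ℂ) (k : ℕ) (c : Fin (k + 1) → ℂ) :
    cD D (bf k c) = bf k (fun i => D (c i)) := by
  unfold bf
  rw [map_sum]
  refine Finset.sum_congr rfl (fun i _ => ?_)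
  rw [cD_C_mul, cD_mul, cD_pow, cD_pow, cD_X, cD_X]
  simp

theorem Gam_hom {a : ℕ} (g : Fin a → ℂ) : (Gam g).IsHomogeneous a := by
  unfold Gam
  have h := IsHomogeneous.prod (Finset.univ : Finset (Fin a))
    (fun j => (X 0 - C (g j) * X 1 : R2)) (fun _ => 1) (fun j _ =>
      (isHomogeneous_X ℂ 0).sub (isHomogeneous_C_mul_X (g j) 1))
  simpa using h

theorem cD_Gam_fixed {a : ℕ} {g : Fin a → ℂ} {D : Derivation ℚ ℂ ℂ} (h : ∀ j, D (g j) = 0) :
    cD D (Gam g) = 0 := by
  classical
  unfold Gam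
  have h1 : ∀ s : Finset (Fin a), cD D (∏ j ∈ s, (X 0 - C (g j) * X 1 : R2)) = 0 := by
    intro s
    induction s using Finset.induction_on with
    | empty =>
      rw [Finset.prod_empty, ← C_1, cD_C]
      simp
    | insert j s hj ih =>
      rw [Finset.prod_insert hj, cD_mul, ih, mul_zero, add_zero, map_sub, cD_X, cD_C_mul, cD_X, h j]
      simp
  exact h1 Finset.univ

theorem eval_bf (k : ℕ) (c : Fin (k + 1) → ℂ) (y : V2) :
    eval y (bf k c) = ∑ i : Fin (k + 1), c i * (y 0 ^ (i : ℕ) * y 1 ^ (k - (i : ℕ))) := by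
  unfold bf
  rw [map_sum]
  simp only [map_mul, map_pow, eval_C, eval_X]

/-- Euler -/
theorem euler2 {F : R2} {n : ℕ} (hF : F.IsHomogeneous n) (y : V2) :
    y 0 * eval y (pderiv 0 F) + y 1 * eval y (pderiv 1 F) = n * eval y F := by
  have h := congrArg (eval y) hF.sum_X_mul_pderiv
  rw [map_sum, Fin.sum_univ_two] at h
  simp only [map_mul, eval_X, nsmul_eq_mul, map_natCast] at h
  exact h

/-- a form with `A (y) ≠ 0` -/
theorem exists_ne_zero_form (k : ℕ) {y : V2} (hy : y ≠ 0) :
    ∃ A : R2, A.IsHomogeneous k ∧ eval y A ≠ 0 := by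
  by_cases h : y 0 = 0
  · refine ⟨X 1 ^ k, isHomogeneous_X_pow _ _, ?_⟩
    rw [map_pow, eval_X]
    apply pow_ne_zero
    intro h1
    apply hy
    ext i
    fin_cases i
    · exact h
    · exact h1
  · refine ⟨X 0 ^ k, isHomogeneous_X_pow _ _, ?_⟩
    rw [map_pow, eval_X]
    exact pow_ne_zero _ h

theorem bf_noCommon {k : ℕ} {c₁ c₂ : Fin (k + 1) → ℂ}
    (h : AlgebraicIndependent ℚ (Sum.elim c₁ c₂)) : NoCommon (bf k c₁) (bf k c₂) := by
  intro y hy
  by_contra hcon
  push Not at hcon
  obtain ⟨h1, h2⟩ := hcon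
  obtain ⟨A, hA, hAy⟩ := exists_ne_zero_form k hy
  obtain ⟨e, rfl⟩ := exists_bf hA
  apply hAy
  by_cases hg : eval y (pderiv 0 (bf k c₂)) = 0 ∧ eval y (pderiv 1 (bf k c₂)) = 0
  · obtain ⟨D, hD⟩ := exists_derivation _ h (Sum.elim (fun _ => 0) e)
    have h3 := D_eval D y (bf k c₂)
    rw [h2, map_zero, Fin.sum_univ_two, hg.1, hg.2, mul_zero, mul_zero, add_zero, add_zero,
      cD_bf] at h3
    have h4 : (fun i => D (c₂ i)) = e := by
      funext i
      exact hD (Sum.inr i)
    rw [h4] at h3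
    exact h3.symm
  · obtain ⟨D, hD⟩ := exists_derivation _ h (Sum.elim e (fun _ => 0))
    have h3 := D_eval D y (bf k c₂)
    have h4 := D_eval D y (bf k c₁)
    have e1 : (fun i => D (c₁ i)) = e := by
      funext i
      exact hD (Sum.inl i)
    have e2 : (fun i => D (c₂ i)) = fun _ => 0 := by
      funext i
      exact hD (Sum.inr i)
    rw [cD_bf, e2, h2, map_zero, Fin.sum_univ_two, eval_bf] at h3
    simp only [zero_mul, Finset.sum_const_zero, zero_add] at h3
    rw [cD_bf, e1, h1, map_zero, Fin.sum_univ_two] at h4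
    have h5 := euler2 (bf_hom k c₂) y
    have h6 := euler2 (bf_hom k c₁) y
    rw [h2, mul_zero] at h5
    rw [h1, mul_zero] at h6
    set a := eval y (pderiv 0 (bf k c₂))
    set b := eval y (pderiv 1 (bf k c₂))
    set a' := eval y (pderiv 0 (bf k c₁))
    set b' := eval y (pderiv 1 (bf k c₁))
    -- `D y` is proportional to `y`
    have h7 : D (y 0) * y 1 - D (y 1) * y 0 = 0 := by
      by_contra hne
      apply hg
      constructor
      · have : (D (y 0) * y 1 - D (y 1) * y 0) * a = 0 := by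
          linear_combination -(y 1) * h3 - D (y 1) * h5
        exact (mul_eq_zero.mp this).resolve_left hne
      · have : (D (y 0) * y 1 - D (y 1) * y 0) * b = 0 := by
          linear_combination (y 0) * h3 + D (y 0) * h5
        exact (mul_eq_zero.mp this).resolve_left hne
    have h8 : D (y 0) * a' + D (y 1) * b' = 0 := by
      by_cases h0 : y 0 = 0
      · have h1' : y 1 ≠ 0 := by
          intro h1'
          apply hy
          ext i
          fin_cases i
          · exact h0
          · exact h1'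
        have : y 1 * (D (y 0) * a' + D (y 1) * b') = 0 := by
          linear_combination a' * h7 + D (y 1) * h6
        exact (mul_eq_zero.mp this).resolve_left h1'
      · have : y 0 * (D (y 0) * a' + D (y 1) * b') = 0 := by
          linear_combination -b' * h7 + D (y 0) * h6
        exact (mul_eq_zero.mp this).resolve_left h0
    rw [h8, add_zero] at h4
    exact h4.symm

/-- the form `X 1 ^ k` -/
theorem bf_single (k : ℕ) : bf k (Pi.single 0 1) = X 1 ^ k := by
  classical
  unfold bf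
  rw [Finset.sum_eq_single 0]
  · simp
  · intro i _ hi
    rw [Pi.single_eq_of_ne hi]
    simp
  · simp

theorem D_eval_bf (D : Derivation ℚ ℂ ℂ) {g : ℂ} (hg : D g = 0) (k : ℕ) (c : Fin (k + 1) → ℂ) :
    D (eval ![g, 1] (bf k c)) = eval ![g, 1] (bf k (fun i => D (c i))) := by
  rw [D_eval, Fin.sum_univ_two, cD_bf]
  simp [hg]

theorem bf_zero (k : ℕ) : bf k (fun _ => 0) = 0 := by
  unfold bf
  simp

/-- values of generic forms are independent -/
theorem bf_det {k l : ℕ} {g : ℂ} {c₁ c₂ : Fin (k + 1) → ℂ} {e₁ e₂ : Fin (l + 1) → ℂ}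
    (h : AlgebraicIndependent ℚ (Sum.elim (fun _ : Unit => g)
      (Sum.elim (Sum.elim c₁ c₂) (Sum.elim e₁ e₂)))) :
    eval ![g, 1] (bf k c₁) * eval ![g, 1] (bf l e₂) -
      eval ![g, 1] (bf k c₂) * eval ![g, 1] (bf l e₁) ≠ 0 := by
  intro h0
  have h1 : eval ![g, 1] (bf k c₁) = 0 := by
    obtain ⟨D, hD⟩ := exists_derivation _ h (Sum.elim (fun _ => 0)
      (Sum.elim (Sum.elim (fun _ => 0) (fun _ => 0)) (Sum.elim (fun _ => 0) (Pi.single 0 1))))
    have hg : D g = 0 := hD (Sum.inl ())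
    have e1 : (fun i => D (c₁ i)) = fun _ => 0 := by
      funext i
      exact hD (Sum.inr (Sum.inl (Sum.inl i)))
    have e2 : (fun i => D (c₂ i)) = fun _ => 0 := by
      funext i
      exact hD (Sum.inr (Sum.inl (Sum.inr i)))
    have e3 : (fun i => D (e₁ i)) = fun _ => 0 := by
      funext i
      exact hD (Sum.inr (Sum.inr (Sum.inl i)))
    have e4 : (fun i => D (e₂ i)) = Pi.single 0 1 := by
      funext i
      exact hD (Sum.inr (Sum.inr (Sum.inr i)))
    have h2 := congrArg D h0
    rw [map_sub, Derivation.leibniz, Derivation.leibniz, D_eval_bf D hg, D_eval_bf D hg,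
      D_eval_bf D hg, D_eval_bf D hg, e1, e2, e3, e4, bf_zero, bf_zero, bf_single, map_zero] at h2
    simpa using h2
  obtain ⟨D, hD⟩ := exists_derivation _ h (Sum.elim (fun _ => 0)
    (Sum.elim (Sum.elim (Pi.single 0 1) (fun _ => 0)) (Sum.elim (fun _ => 0) (fun _ => 0))))
  have hg : D g = 0 := hD (Sum.inl ())
  have e1 : (fun i => D (c₁ i)) = Pi.single 0 1 := by
    funext i
    exact hD (Sum.inr (Sum.inl (Sum.inl i)))
  have h2 := congrArg D h1
  rw [D_eval_bf D hg, e1, bf_single, map_zero] at h2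
  simp at h2

/-! ### substitution -/

theorem onC_mul {P Q G : R2} {u b : ℕ} {Φ : R4} (hΦ : BiHom u b Φ) :
    onC (G * P) (G * Q) Φ = G ^ u * onC P Q Φ := by
  unfold onC
  rw [Φ.as_sum, map_sum, map_sum, Finset.mul_sum]
  refine Finset.sum_congr rfl (fun α hα => ?_)
  obtain ⟨h1, h2⟩ := hΦ α (MvPolynomial.mem_support_iff.mp hα)
  rw [aeval_monomial, aeval_monomial, Finsupp.prod_fintype _ _ (fun i => pow_zero _),
    Finsupp.prod_fintype _ _ (fun i => pow_zero _), Fin.prod_univ_four, Fin.prod_univ_four]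
  simp only [Matrix.cons_val]
  rw [mul_pow, mul_pow, ← h1, pow_add]
  ring

theorem exists_root_form {P : R2} {n : ℕ} (hn : 1 ≤ n) (hP : P.IsHomogeneous n) :
    ∃ y : V2, y ≠ 0 ∧ eval y P = 0 := by
  by_cases h : eval ![1, 0] P = 0
  · refine ⟨![1, 0], ?_, h⟩
    intro h0
    have := congrFun h0 0
    simp at this
  · have h1 : (deh P).natDegree = n := by
      apply le_antisymm (natDegree_deh_le hP)
      apply Polynomial.le_natDegree_of_ne_zero
      rw [coeff_deh hP]
      exact h
    have h2 : (deh P).degree ≠ 0 := by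
      intro h2
      have h3 : (deh P).natDegree = 0 := Polynomial.natDegree_eq_of_degree_eq_some h2
      omega
    obtain ⟨c, hc⟩ := IsAlgClosed.exists_root (deh P) h2
    rw [Polynomial.IsRoot, eval_deh] at hc
    refine ⟨![c, 1], ?_, hc⟩
    intro h0
    have := congrFun h0 1
    simp at this

theorem dvd_small {n b v : ℕ} {N W f : R2} (hN : N.IsHomogeneous n) (hf : f.IsHomogeneous b)
    (hbn : b < n) (hN0 : N ≠ 0) (hco : NoCommon W N) (h : N ∣ W ^ v * f) : f = 0 := by
  obtain ⟨y, hy⟩ : ∃ y : V2, eval y N ≠ 0 := by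
    by_contra hcon
    push Not at hcon
    apply hN0
    apply MvPolynomial.funext
    intro y
    rw [hcon y, map_zero]
  have hy0 : y ≠ 0 := by
    rintro rfl
    apply hy
    have h1 := eval_smul_of_hom hN 0 (0 : V2)
    have hn : n ≠ 0 := by omega
    rw [zero_smul, zero_pow hn, zero_mul] at h1
    exact h1
  obtain ⟨z, hz⟩ := exists_basis hy0
  have hnc : (dz y z N).coeff n ≠ 0 := by
    rw [coeff_dz y z hN]
    exact hy
  have hnd : (dz y z N).natDegree = n :=
    le_antisymm (natDegree_dz_le y z hN) (Polynomial.le_natDegree_of_ne_zero hnc)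
  have hcop : IsCoprime (dz y z W) (dz y z N) := by
    rw [Polynomial.isCoprime_iff_aeval_ne_zero_of_isAlgClosed ℂ ℂ]
    intro a
    rw [Polynomial.coe_aeval_eq_eval, eval_dz, eval_dz]
    exact hco _ (smul_add_ne_zero hz a)
  have h2 := map_dvd (dz y z) h
  rw [map_mul, map_pow] at h2
  have h3 := (hcop.symm.pow_right (n := v)).dvd_of_dvd_mul_left h2
  apply eq_zero_of_dz hz hf
  apply Polynomial.eq_zero_of_dvd_of_natDegree_lt h3
  rw [hnd]
  exact lt_of_le_of_lt (natDegree_dz_le y z hf) hbn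

theorem onC_inj {P Q : R2} {u β : ℕ} (hP : P.IsHomogeneous (β + 1)) (hQ : Q.IsHomogeneous (β + 1))
    (hPQ : NoCommon P Q) {Φ : R4} (hΦ : BiHom u β Φ) (h : onC P Q Φ = 0) : Φ = 0 := by
  have h1 : ∀ θ : V2, θ 0 ≠ 0 → ev θ Φ = 0 := by
    intro θ hθ
    set N : R2 := C (θ 1) * P - C (θ 0) * Q with hNdef
    have hN : N.IsHomogeneous (β + 1) := (hP.C_mul _).sub (hQ.C_mul _)
    have hevN : ∀ y, eval y N = θ 1 * eval y P - θ 0 * eval y Q := by
      intro y
      rw [hNdef, map_sub, map_mul, map_mul, eval_C, eval_C]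
    have hN0 : N ≠ 0 := by
      intro h0
      obtain ⟨y, hy, hy0⟩ := exists_root_form (by omega) hP
      have h2 := hevN y
      rw [h0, map_zero, hy0, mul_zero, zero_sub] at h2
      rcases hPQ y hy with h3 | h3
      · exact h3 hy0
      · exact h3 ((mul_eq_zero.mp (neg_eq_zero.mp h2.symm)).resolve_left hθ)
    have hco : NoCommon P N := by
      intro y hy
      by_contra hcon
      push Not at hcon
      obtain ⟨h2, h3⟩ := hcon
      rw [hevN, h2, mul_zero, zero_sub] at h3
      rcases hPQ y hy with h4 | h4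
      · exact h4 h2
      · exact h4 ((mul_eq_zero.mp (neg_eq_zero.mp h3)).resolve_left hθ)
    have hdvd := dvd_onC hΦ.degUV P Q θ
    rw [← hNdef, h, mul_zero, zero_sub, dvd_neg] at hdvd
    exact dvd_small hN (ev_isHomogeneous hΦ θ) (by omega) hN0 hco hdvd
  have h2 : (X 0 : R4) * Φ = 0 := by
    apply MvPolynomial.funext
    intro v
    rw [map_mul, eval_X, map_zero]
    by_cases hv : v 0 = 0
    · rw [hv, zero_mul]
    · have h3 := h1 ![v 0, v 1] hv
      have h4 := eval_ev ![v 0, v 1] ![v 2, v 3] Φ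
      rw [h3, map_zero] at h4
      have h5 : pt ![v 0, v 1] ![v 2, v 3] = v := by
        funext i
        fin_cases i <;> simp [pt]
      rw [h5] at h4
      rw [← h4, mul_zero]
  exact (mul_eq_zero.mp h2).resolve_left (X_ne_zero 0)

theorem cD_res (D : Derivation ℚ ℂ ℂ) (F : R3) : cD D (res F) = res (cD D F) := by
  unfold res
  rw [cD_aeval, Fin.sum_univ_three]
  simp

/-! ### bihomogeneous polynomials -/

/-- bihomogeneity: scaling -/
theorem BiHom.eval_scale {u b : ℕ} {Φ : R4} (hΦ : BiHom u b Φ) (c e : ℂ) (θ y : V2) :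
    eval (pt (c • θ) (e • y)) Φ = c ^ u * e ^ b * eval (pt θ y) Φ := by
  rw [eval_eq', eval_eq', Finset.mul_sum]
  refine Finset.sum_congr rfl (fun d hd => ?_)
  obtain ⟨h1, h2⟩ := hΦ d (MvPolynomial.mem_support_iff.mp hd)
  rw [← h1, ← h2, Fin.prod_univ_four, Fin.prod_univ_four]
  simp only [pt, Pi.smul_apply, smul_eq_mul, Matrix.cons_val]
  rw [mul_pow, mul_pow, mul_pow, mul_pow, pow_add, pow_add]
  ring

theorem BiHom.pderiv_left {u b : ℕ} {Φ : R4} (hΦ : BiHom u b Φ) {k : Fin 4} (hk : k = 0 ∨ k = 1) :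
    BiHom (u - 1) b (pderiv k Φ) := by
  intro α hα
  rw [coeff_pderiv] at hα
  have h1 := hΦ _ (left_ne_zero_of_mul hα)
  rcases hk with rfl | rfl
  · simp at h1
    omega
  · simp at h1
    omega

theorem BiHom.pderiv_right {u b : ℕ} {Φ : R4} (hΦ : BiHom u b Φ) {k : Fin 4} (hk : k = 2 ∨ k = 3) :
    BiHom u (b - 1) (pderiv k Φ) := by
  intro α hα
  rw [coeff_pderiv] at hα
  have h1 := hΦ _ (left_ne_zero_of_mul hα)
  rcases hk with rfl | rfl
  · simp at h1
    omega
  · simp at h1
    omega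

theorem BiHom.euler_left {u b : ℕ} {Φ : R4} (hΦ : BiHom u b Φ) (θ y : V2) :
    θ 0 * eval (pt θ y) (pderiv 0 Φ) + θ 1 * eval (pt θ y) (pderiv 1 Φ) =
      u * eval (pt θ y) Φ := by
  have h := congrArg (eval (pt θ y)) (euler_UV hΦ.degUV)
  rw [map_mul, map_add, map_mul, map_mul, eval_C, eval_X, eval_X] at h
  exact h.symm

theorem euler_xy {u b : ℕ} {G : R4} (h : BiHom u b G) :
    C (b : ℂ) * G = X 2 * pderiv 2 G + X 3 * pderiv 3 G := by
  conv_rhs => rw [G.as_sum]
  conv_lhs => rw [G.as_sum]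
  simp only [map_sum, Finset.mul_sum, ← Finset.sum_add_distrib]
  refine Finset.sum_congr rfl (fun α hα => ?_)
  rw [X_mul_pderiv_monomial, X_mul_pderiv_monomial, ← add_smul,
    (h α (MvPolynomial.mem_support_iff.mp hα)).2, nsmul_eq_mul, map_natCast]

theorem BiHom.euler_right {u b : ℕ} {Φ : R4} (hΦ : BiHom u b Φ) (θ y : V2) :
    y 0 * eval (pt θ y) (pderiv 2 Φ) + y 1 * eval (pt θ y) (pderiv 3 Φ) =
      b * eval (pt θ y) Φ := by
  have h := congrArg (eval (pt θ y)) (euler_xy hΦ)
  rw [map_mul, map_add, map_mul, map_mul, eval_C, eval_X, eval_X] at h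
  exact h.symm

end Pool.Agent.Work.MP_0421d9_ag.SM
end

section
/-!
The coefficient of the highest power of `z` in `Φ (P z - T, Q z - R, x, y)`.
-/

set_option linter.unusedSectionVars false
set_option linter.unusedVariables false

namespace Pool.Agent.Work.MP_0421d9_ag.SM

open MvPolynomial Module

namespace Coef

/-- polynomials in `z` with coefficients in `R2` -/
noncomputable def cz : R3 →ₐ[ℂ] Polynomial R2 :=
  aeval ![Polynomial.C (X 0), Polynomial.C (X 1), Polynomial.X]

theorem cz_emb (A : R2) : cz (emb A) = Polynomial.C A := by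
  unfold cz emb
  induction A using MvPolynomial.induction_on with
  | C a =>
    rw [algHom_C, AlgHom.commutes]
    rfl
  | add p q hp hq => rw [map_add, map_add, hp, hq, map_add]
  | mul_X p i hp =>
    rw [map_mul, map_mul, hp, aeval_X, map_mul]
    congr 1
    fin_cases i
    · simp
    · simp

theorem coeff_cz (f : R3) (i j k : ℕ) :
    coeff (Finsupp.equivFunOnFinite.symm ![i, j, k]) f =
      coeff (Finsupp.equivFunOnFinite.symm ![i, j]) ((cz f).coeff k) := by
  induction f using MvPolynomial.induction_on' with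
  | add p q hp hq => rw [coeff_add, hp, hq, map_add, Polynomial.coeff_add, coeff_add]
  | monomial α a =>
    unfold cz
    rw [aeval_monomial, Finsupp.prod_fintype _ _ (fun i => pow_zero _), Fin.prod_univ_three]
    simp only [Matrix.cons_val]
    have h1 : (algebraMap ℂ (Polynomial R2)) a *
        (Polynomial.C (X 0) ^ α 0 * Polynomial.C (X 1) ^ α 1 * Polynomial.X ^ α 2) =
        Polynomial.C (C a * (X 0 ^ α 0 * X 1 ^ α 1)) * Polynomial.X ^ α 2 := by
      rw [map_mul, map_mul, map_pow, map_pow]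
      have : (algebraMap ℂ (Polynomial R2)) a = Polynomial.C (C a) := rfl
      rw [this]
      ring
    rw [h1, Polynomial.coeff_C_mul_X_pow]
    have h2 : (C a * (X 0 ^ α 0 * X 1 ^ α 1) : R2) =
        monomial (Finsupp.equivFunOnFinite.symm ![α 0, α 1]) a := by
      rw [monomial_eq, Finsupp.prod_fintype _ _ (fun i => pow_zero _), Fin.prod_univ_two]
      simp
    rw [coeff_monomial]
    by_cases hk : k = α 2
    · rw [if_pos hk, h2, coeff_monomial]
      congr 1
      apply propext
      constructor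
      · intro h
        rw [h]
        ext l
        fin_cases l <;> simp
      · intro h
        have h0 := DFunLike.congr_fun h 0
        have h1 := DFunLike.congr_fun h 1
        simp at h0 h1
        ext l
        fin_cases l
        · simpa using h0
        · simpa using h1
        · simpa using hk.symm
    · rw [if_neg hk, coeff_zero, if_neg]
      intro h
      apply hk
      rw [h]
      simp

end Coef

open Coef

/-- the coefficient of the highest power of `z` -/
theorem coeff_onS (P Q T R : R2) {u β : ℕ} {Φ : R4} (hΦ : BiHom u β Φ) (i j : ℕ) :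
    coeff (Finsupp.equivFunOnFinite.symm ![i, j, u]) (onS P Q T R Φ) =
      coeff (Finsupp.equivFunOnFinite.symm ![i, j]) (onC P Q Φ) := by
  rw [coeff_cz]
  congr 1
  unfold onS onC
  conv_lhs => rw [Φ.as_sum]
  conv_rhs => rw [Φ.as_sum]
  rw [map_sum, map_sum, map_sum, Polynomial.finsetSum_coeff]
  refine Finset.sum_congr rfl fun α hα => ?_
  have h1 := (hΦ α (MvPolynomial.mem_support_iff.mp hα)).1
  rw [aeval_monomial, aeval_monomial, Finsupp.prod_fintype _ _ (fun i => pow_zero _),
    Finsupp.prod_fintype _ _ (fun i => pow_zero _), Fin.prod_univ_four, Fin.prod_univ_four,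
    algebraMap_eq, algebraMap_eq]
  simp only [Matrix.cons_val]
  set c := coeff α Φ
  have hX0 : (X 0 : R3) = emb (X 0) := by
    unfold emb
    rw [aeval_X]
    rfl
  have hX1 : (X 1 : R3) = emb (X 1) := by
    unfold emb
    rw [aeval_X]
    rfl
  have hC : (C c : R3) = emb (C c) := by
    unfold emb
    rw [algHom_C]
    rfl
  have hX2 : cz (X 2 : R3) = Polynomial.X := by
    unfold cz
    rw [aeval_X]
    rfl
  rw [hX0, hX1, hC]
  simp only [map_mul, map_pow, map_sub, cz_emb, hX2]
  have hlin : ∀ A B : R2, (Polynomial.C A * Polynomial.X - Polynomial.C B).natDegree ≤ 1 := by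
    intro A B
    refine (Polynomial.natDegree_sub_le _ _).trans ?_
    rw [Polynomial.natDegree_C]
    exact max_le (Polynomial.natDegree_C_mul_le _ _ |>.trans Polynomial.natDegree_X_le) (by omega)
  have hco : ∀ A B : R2, (Polynomial.C A * Polynomial.X - Polynomial.C B).coeff 1 = A := by
    intro A B
    simp [Polynomial.coeff_C]
  have hpow : ∀ (A B : R2) (n : ℕ),
      ((Polynomial.C A * Polynomial.X - Polynomial.C B) ^ n).natDegree ≤ n := by
    intro A B n
    have := Polynomial.natDegree_pow_le_of_le n (hlin A B)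
    simpa using this
  have hpc : ∀ (A B : R2) (n : ℕ),
      ((Polynomial.C A * Polynomial.X - Polynomial.C B) ^ n).coeff n = A ^ n := by
    intro A B n
    have := Polynomial.coeff_pow_of_natDegree_le (m := n) (hlin A B)
    rwa [mul_one, hco] at this
  have h2 : (Polynomial.C (C c) * ((Polynomial.C P * Polynomial.X - Polynomial.C T) ^ α 0 *
      (Polynomial.C Q * Polynomial.X - Polynomial.C R) ^ α 1 *
        Polynomial.C (X 0) ^ α 2 * Polynomial.C (X 1) ^ α 3) : Polynomial R2) =
      ((Polynomial.C P * Polynomial.X - Polynomial.C T) ^ α 0 *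
      (Polynomial.C Q * Polynomial.X - Polynomial.C R) ^ α 1) *
        Polynomial.C (C c * (X 0 ^ α 2 * X 1 ^ α 3)) := by
    simp only [map_mul, map_pow]
    ring
  rw [h2, Polynomial.coeff_mul_C, ← h1,
    Polynomial.coeff_mul_add_eq_of_natDegree_le (hpow P T _) (hpow Q R _), hpc, hpc]
  ring

end Pool.Agent.Work.MP_0421d9_ag.SM
end

section
/-!
The part of the limit curve in the strip: smoothness outside the points, tangents at the points.
-/

set_option linter.unusedSectionVars false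
set_option linter.unusedVariables false

namespace Pool.Agent.Work.MP_0421d9_ag.SM

open MvPolynomial Module

namespace Side

theorem eval_emb (P : R2) (v : V3) : eval v (emb P) = eval ![v 0, v 1] P := by
  unfold emb
  rw [eval_aeval_gen]
  congr 2
  funext i
  fin_cases i <;> simp

theorem emb_isHomogeneous {P : R2} {n : ℕ} (h : P.IsHomogeneous n) : (emb P).IsHomogeneous n := by
  unfold emb
  have h1 := h.aeval (![X 0, X 1] : Fin 2 → R3) (n := 1) (fun i => by
    fin_cases i
    · exact isHomogeneous_X _ _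
    · exact isHomogeneous_X _ _)
  rwa [one_mul] at h1

theorem pderiv_emb_two (P : R2) : pderiv 2 (emb P) = 0 := by
  unfold emb
  rw [pderiv_aeval, Fin.sum_univ_two]
  simp only [Matrix.cons_val]
  rw [pderiv_X_of_ne (by decide), pderiv_X_of_ne (by decide)]
  simp

theorem eval_onS (P Q T R : R2) (G : R4) (v : V3) :
    eval v (onS P Q T R G) = eval (pt ![eval ![v 0, v 1] P * v 2 - eval ![v 0, v 1] T,
      eval ![v 0, v 1] Q * v 2 - eval ![v 0, v 1] R] ![v 0, v 1]) G := by
  unfold onS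
  rw [eval_aeval_gen]
  congr 2
  funext i
  fin_cases i <;> simp [pt, eval_emb]

theorem onS_isHomogeneous {t u β : ℕ} {P Q T R : R2} (hP : P.IsHomogeneous t)
    (hQ : Q.IsHomogeneous t) (hT : T.IsHomogeneous (t + 1)) (hR : R.IsHomogeneous (t + 1))
    {Φ : R4} (h : BiHom u β Φ) : (onS P Q T R Φ).IsHomogeneous (u * (t + 1) + β) := by
  have hU : (emb P * X 2 - emb T : R3).IsHomogeneous (t + 1) :=
    ((emb_isHomogeneous hP).mul (isHomogeneous_X _ _)).sub (emb_isHomogeneous hT)
  have hV : (emb Q * X 2 - emb R : R3).IsHomogeneous (t + 1) :=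
    ((emb_isHomogeneous hQ).mul (isHomogeneous_X _ _)).sub (emb_isHomogeneous hR)
  unfold onS
  rw [Φ.as_sum, map_sum]
  apply IsHomogeneous.sum
  intro α hα
  have h1 := h α (MvPolynomial.mem_support_iff.mp hα)
  rw [aeval_monomial, Finsupp.prod_fintype _ _ (fun i => pow_zero _), Fin.prod_univ_four,
    algebraMap_eq]
  simp only [Matrix.cons_val]
  have h2 := (((hU.pow (α 0)).mul (hV.pow (α 1))).mul
    (isHomogeneous_X_pow (R := ℂ) (0 : Fin 3) (α 2))).mul
    (isHomogeneous_X_pow (R := ℂ) (1 : Fin 3) (α 3))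
  have h3 : (t + 1) * α 0 + (t + 1) * α 1 + α 2 + α 3 = u * (t + 1) + β := by
    rw [← h1.1, ← h1.2]
    ring
  rw [h3] at h2
  exact h2.C_mul _

theorem pderiv_onS (P Q T R : R2) (G : R4) (j : Fin 3) : pderiv j (onS P Q T R G) =
    onS P Q T R (pderiv 0 G) * pderiv j (emb P * X 2 - emb T) +
    onS P Q T R (pderiv 1 G) * pderiv j (emb Q * X 2 - emb R) +
    onS P Q T R (pderiv 2 G) * pderiv j (X 0) + onS P Q T R (pderiv 3 G) * pderiv j (X 1) := by
  unfold onS
  rw [pderiv_aeval, Fin.sum_univ_four]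
  simp only [Matrix.cons_val]

theorem pderiv_UV (P T : R2) : pderiv 2 (emb P * X 2 - emb T : R3) = emb P := by
  rw [map_sub, pderiv_mul, pderiv_emb_two, pderiv_emb_two, pderiv_X_self]
  ring

theorem euler_zero {G : R3} {n : ℕ} (hG : G.IsHomogeneous n) (hn : 1 ≤ n) {v : V3}
    (h : ∀ k, eval v (pderiv k G) = 0) : eval v G = 0 := by
  have h1 := eval_dir_self hG v
  rw [dir_apply, map_sum] at h1
  have h2 : ∑ x, eval v (C (v x) * pderiv x G) = 0 := by
    refine Finset.sum_eq_zero fun x _ => ?_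
    rw [map_mul, h x, mul_zero]
  rw [h2] at h1
  exact (mul_eq_zero.mp h1.symm).resolve_left (by exact_mod_cast (by omega : n ≠ 0))

theorem onC_isHomogeneous {t u β : ℕ} {P Q : R2} (hP : P.IsHomogeneous t)
    (hQ : Q.IsHomogeneous t) {Φ : R4} (h : BiHom u β Φ) :
    (onC P Q Φ).IsHomogeneous (u * t + β) := by
  unfold onC
  rw [Φ.as_sum, map_sum]
  apply IsHomogeneous.sum
  intro α hα
  have h1 := h α (MvPolynomial.mem_support_iff.mp hα)
  rw [aeval_monomial, Finsupp.prod_fintype _ _ (fun i => pow_zero _), Fin.prod_univ_four,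
    algebraMap_eq]
  simp only [Matrix.cons_val]
  have h2 := (((hP.pow (α 0)).mul (hQ.pow (α 1))).mul
    (isHomogeneous_X_pow (R := ℂ) (0 : Fin 2) (α 2))).mul
    (isHomogeneous_X_pow (R := ℂ) (1 : Fin 2) (α 3))
  have h3 : t * α 0 + t * α 1 + α 2 + α 3 = u * t + β := by
    rw [← h1.1, ← h1.2]
    ring
  rw [h3] at h2
  exact h2.C_mul _

/-- two linear equations with nonzero determinant -/
theorem cramer {a b c d X Y : ℂ} (hd : a * d - b * c ≠ 0) (h1 : a * X + b * Y = 0)
    (h2 : c * X + d * Y = 0) : X = 0 ∧ Y = 0 := by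
  constructor
  · have h : (a * d - b * c) * X = 0 := by linear_combination d * h1 - b * h2
    exact (mul_eq_zero.mp h).resolve_left hd
  · have h : (a * d - b * c) * Y = 0 := by linear_combination a * h2 - c * h1
    exact (mul_eq_zero.mp h).resolve_left hd

theorem hc_zero_translate (q : V3) (f : R3) :
    homogeneousComponent 0 (translate q f) = C (eval q f) := by
  rw [homogeneousComponent_zero]
  have h2 := eval_translate q 0 f
  rw [add_zero, eval_zero, constantCoeff_eq] at h2
  rw [h2]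

theorem hc_one_translate (q : V3) (f : R3) :
    homogeneousComponent 1 (translate q f) = lin (fun k => eval q (pderiv k f)) := by
  induction f using MvPolynomial.induction_on with
  | C a =>
    have h1 : translate q (C a) = C a := by
      unfold translate
      rw [algHom_C, algebraMap_eq]
    rw [h1, homogeneousComponent_of_mem (isHomogeneous_C _ a), if_neg (by decide)]
    simp only [pderiv_C, map_zero]
    exact lin_zero.symm
  | add f g hf hg =>
    have h1 : translate q (f + g) = translate q f + translate q g := by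
      unfold translate
      rw [map_add]
    rw [h1, map_add, hf, hg, ← lin_add]
    congr 1
    funext k
    rw [Pi.add_apply, map_add, map_add]
  | mul_X f i hf =>
    have h1 : translate q (f * X i) = C (q i) * translate q f + X i * translate q f := by
      rw [translate_mul]
      unfold translate
      rw [aeval_X]
      ring
    have h2 : homogeneousComponent 1 (X i * translate q f) = X i * C (eval q f) := by
      have h3 := homogeneousComponent_mul (isHomogeneous_X ℂ i) 0 (translate q f)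
      rw [add_zero, hc_zero_translate] at h3
      exact h3
    rw [h1, map_add, homogeneousComponent_C_mul, hf, h2]
    have h4 : (X i : R3) = lin (Pi.single i 1) := by
      unfold lin
      rw [Finset.sum_eq_single i]
      · simp
      · intro l _ hl
        simp [hl]
      · intro hk
        exact absurd (Finset.mem_univ i) hk
    rw [h4, mul_comm (lin (Pi.single i 1)), ← lin_smul, ← lin_smul, ← lin_add]
    congr 1
    funext k
    rw [Pi.add_apply, Pi.smul_apply, Pi.smul_apply, ← h4, pderiv_mul, map_add, map_mul, map_mul,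
      eval_X, smul_eq_mul, smul_eq_mul]
    by_cases hk : k = i
    · rw [hk, pderiv_X_self, Pi.single_eq_same, map_one]
      ring
    · rw [pderiv_X_of_ne (Ne.symm hk), Pi.single_eq_of_ne hk, map_zero]
      ring

theorem hc_pow_translate {q : V3} {f : R3} (hf : eval q f = 0) (n : ℕ) :
    homogeneousComponent n (translate q (f ^ n)) =
      (homogeneousComponent 1 (translate q f)) ^ n := by
  induction n with
  | zero =>
    rw [pow_zero, pow_zero, hc_zero_translate, map_one, C_1]
  | succ n ih =>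
    rw [pow_succ, translate_mul, hc_mul_lowest (vanishTo_pow hf n) (vanishTo_one_iff'.mpr hf), ih,
      pow_succ]

/-- the leading term of `Φ (U, V; x, y)` at a zero of `U` and `V` -/
theorem hc_aeval {u β : ℕ} {Φ : R4} (hΦ : BiHom u β Φ) {q : V3} {U V : R3} (hU : eval q U = 0)
    (hV : eval q V = 0) :
    homogeneousComponent u (translate q (aeval ![U, V, X 0, X 1] Φ)) =
      aeval ![homogeneousComponent 1 (translate q U), homogeneousComponent 1 (translate q V),
        C (q 0), C (q 1)] Φ := by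
  conv_lhs => rw [Φ.as_sum]
  conv_rhs => rw [Φ.as_sum]
  have h0 : ∀ (s : Finset (Fin 4 →₀ ℕ)) (f : (Fin 4 →₀ ℕ) → R3),
      translate q (∑ α ∈ s, f α) = ∑ α ∈ s, translate q (f α) := by
    intro s f
    unfold translate
    rw [map_sum]
  rw [map_sum, map_sum, h0, map_sum]
  refine Finset.sum_congr rfl fun α hα => ?_
  have h1 := (hΦ α (MvPolynomial.mem_support_iff.mp hα)).1
  rw [aeval_monomial, aeval_monomial, Finsupp.prod_fintype _ _ (fun i => pow_zero _),
    Finsupp.prod_fintype _ _ (fun i => pow_zero _), Fin.prod_univ_four, Fin.prod_univ_four,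
    algebraMap_eq]
  simp only [Matrix.cons_val]
  set c := coeff α Φ
  have h2 : (C c * (U ^ α 0 * V ^ α 1 * X 0 ^ α 2 * X 1 ^ α 3) : R3) =
      U ^ α 0 * V ^ α 1 * (C c * (X 0 ^ α 2 * X 1 ^ α 3)) := by ring
  rw [h2, translate_mul]
  have h3 : u = α 0 + α 1 + 0 := by omega
  conv_lhs => rw [h3]
  rw [hc_mul_lowest (vanishTo_mul (vanishTo_pow hU _) (vanishTo_pow hV _))
    (fun k hk => absurd hk (Nat.not_lt_zero k)), translate_mul,
    hc_mul_lowest (vanishTo_pow hU _) (vanishTo_pow hV _), hc_pow_translate hU,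
    hc_pow_translate hV, hc_zero_translate]
  simp only [map_mul, map_pow, eval_C, eval_X]
  ring

theorem pderiv_emb_zero (P : R2) : pderiv 0 (emb P) = emb (pderiv 0 P) := by
  unfold emb
  rw [pderiv_aeval, Fin.sum_univ_two]
  simp only [Matrix.cons_val]
  rw [pderiv_X_self, pderiv_X_of_ne (by decide), mul_one, mul_zero, add_zero]

theorem eval_pderiv_UV (P T : R2) (q : V3) : eval q (pderiv 0 (emb P * X 2 - emb T : R3)) =
    eval ![q 0, q 1] (pderiv 0 P) * q 2 - eval ![q 0, q 1] (pderiv 0 T) := by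
  rw [map_sub, pderiv_mul, pderiv_emb_zero, pderiv_emb_zero, pderiv_X_of_ne (by decide), mul_zero,
    add_zero, map_sub, map_mul, eval_emb, eval_emb, eval_X]

end Side

open Side

theorem Strip.eval_det {t : ℕ} {P Q T R : R2} {x ζ : Fin (2 * t + 1) → ℂ}
    (S : Strip t P Q T R x ζ) (y : V2) : eval y P * eval y R - eval y Q * eval y T =
      ∏ j, (y 0 - x j * y 1) := by
  have h := congrArg (eval y) S.hdet
  rw [map_sub, map_mul, map_mul, map_prod] at h
  rw [h]
  refine Finset.prod_congr rfl fun j _ => ?_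
  rw [map_sub, map_mul, eval_X, eval_X, eval_C]

theorem Strip.smooth_out {t : ℕ} {P Q T R : R2} {x ζ : Fin (2 * t + 1) → ℂ}
    (S : Strip t P Q T R x ζ) {u β : ℕ} (hu : 1 ≤ u) {Φ : R4} (hΦ : BiHom u β Φ)
    (hsm : SmoothΦ Φ) (hs : ∀ j, eval ![x j, 1] (onC P Q Φ) ≠ 0) {v : V3}
    (hv : v 0 ≠ 0 ∨ v 1 ≠ 0) (hcr : ∀ j, cr (sp x ζ j) v ≠ 0) :
    ∃ k, eval v (pderiv k (onS P Q T R Φ)) ≠ 0 := by
  by_contra hcon
  push Not at hcon
  have hG := onS_isHomogeneous S.hP S.hQ S.hT S.hR hΦ
  have hG0 : eval v (onS P Q T R Φ) = 0 := euler_zero hG (by nlinarith) hcon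
  set y : V2 := ![v 0, v 1] with hy
  have hyne : y ≠ 0 := by
    intro h
    rcases hv with h1 | h1
    · exact h1 (congrFun h 0)
    · exact h1 (congrFun h 1)
  set U := eval y P * v 2 - eval y T with hU
  set V := eval y Q * v 2 - eval y R with hV
  have hdet := S.eval_det y
  by_cases hΔ : ∏ j, (y 0 - x j * y 1) = 0
  · obtain ⟨j, _, hj⟩ := Finset.prod_eq_zero_iff.mp hΔ
    set c := y 1 with hc
    have hc0 : c ≠ 0 := by
      intro h0
      apply hyne
      rw [h0, mul_zero, sub_zero] at hj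
      ext i
      fin_cases i
      · exact hj
      · exact h0
    have hyj : y = c • ![x j, 1] := by
      ext i
      fin_cases i
      · simp only [Fin.zero_eta, Pi.smul_apply, Matrix.cons_val_zero, smul_eq_mul]
        linear_combination hj
      · simp [hc]
    have hμ : v 2 - c * ζ j ≠ 0 := by
      intro h0
      apply hcr j
      have h1 : v 0 = c * x j := by
        have := congrFun hyj 0
        simpa [hy] using this
      have h2 : v 1 = c := rfl
      have h3 : v 2 = c * ζ j := by linear_combination h0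
      ext l
      fin_cases l <;> simp [cr, sp, h1, h2, h3] <;> ring
    have hT1 : eval y T = eval y P * (c * ζ j) := by
      rw [hyj, eval_smul_of_hom S.hT, eval_smul_of_hom S.hP, S.hT' j]
      ring
    have hR1 : eval y R = eval y Q * (c * ζ j) := by
      rw [hyj, eval_smul_of_hom S.hR, eval_smul_of_hom S.hQ, S.hR' j]
      ring
    have h1 : (![U, V] : V2) = (v 2 - c * ζ j) • ![eval y P, eval y Q] := by
      ext i
      fin_cases i
      · simp only [Fin.zero_eta, Pi.smul_apply, Matrix.cons_val_zero, smul_eq_mul]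
        rw [hU, hT1]
        ring
      · simp only [Fin.mk_one, Pi.smul_apply, Matrix.cons_val_one, smul_eq_mul]
        rw [hV, hR1]
        simp
        ring
    rw [eval_onS] at hG0
    change eval (pt ![U, V] y) Φ = 0 at hG0
    rw [h1, eval_pt_smul hΦ.degUV, ← eval_onC, hyj,
      eval_smul_of_hom (onC_isHomogeneous S.hP S.hQ hΦ)] at hG0
    exact mul_ne_zero (pow_ne_zero _ hμ) (mul_ne_zero (pow_ne_zero _ hc0) (hs j)) hG0
  · have hdU : eval y P * V - eval y Q * U ≠ 0 := by
      intro h0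
      apply hΔ
      rw [← hdet]
      rw [hU, hV] at h0
      linear_combination -h0
    -- the partial derivatives of `Φ` at the image point
    have hw : ∀ H : R4, eval v (onS P Q T R H) = eval (pt ![U, V] y) H := fun H =>
      eval_onS P Q T R H v
    have e1 : eval y P * eval (pt ![U, V] y) (pderiv 0 Φ) +
        eval y Q * eval (pt ![U, V] y) (pderiv 1 Φ) = 0 := by
      have h1 := hcon 2
      rw [pderiv_onS, pderiv_UV, pderiv_UV, pderiv_X_of_ne (by decide),
        pderiv_X_of_ne (by decide), mul_zero, mul_zero, add_zero, add_zero, map_add, map_mul,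
        map_mul, hw, hw, eval_emb, eval_emb] at h1
      linear_combination h1
    have e2 : U * eval (pt ![U, V] y) (pderiv 0 Φ) + V * eval (pt ![U, V] y) (pderiv 1 Φ) = 0 := by
      have h1 := congrArg (eval (pt ![U, V] y)) (euler_UV hΦ.degUV)
      rw [hw] at hG0
      rw [map_mul, hG0, mul_zero, map_add, map_mul, map_mul, eval_X, eval_X] at h1
      exact h1.symm
    obtain ⟨f1, f2⟩ := cramer (by
      intro h0
      apply hdU
      linear_combination h0) e1 e2
    have f3 : eval (pt ![U, V] y) (pderiv 2 Φ) = 0 := by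
      have h1 := hcon 0
      rw [pderiv_onS, pderiv_X_self, pderiv_X_of_ne (by decide), mul_zero, add_zero, mul_one,
        map_add, map_add, map_mul, map_mul, hw, hw, hw, f1, f2, zero_mul, zero_mul, zero_add,
        zero_add] at h1
      exact h1
    have f4 : eval (pt ![U, V] y) (pderiv 3 Φ) = 0 := by
      have h1 := hcon 1
      rw [pderiv_onS, pderiv_X_self, pderiv_X_of_ne (by decide), mul_zero, add_zero, mul_one,
        map_add, map_add, map_mul, map_mul, hw, hw, hw, f1, f2, zero_mul, zero_mul, zero_add,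
        zero_add] at h1
      exact h1
    have hUV : U ≠ 0 ∨ V ≠ 0 := by
      by_contra hcon2
      push Not at hcon2
      apply hdU
      rw [hcon2.1, hcon2.2]
      ring
    obtain ⟨k, hk⟩ := hsm (pt ![U, V] y) hUV hv
    apply hk
    fin_cases k
    · exact f1
    · exact f2
    · exact f3
    · exact f4

theorem Strip.det_ne {t : ℕ} {P Q T R : R2} {x ζ : Fin (2 * t + 1) → ℂ}
    (S : Strip t P Q T R x ζ) (j : Fin (2 * t + 1)) :
    (eval ![x j, 1] (pderiv 0 P) * ζ j - eval ![x j, 1] (pderiv 0 T)) * eval ![x j, 1] Q -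
      (eval ![x j, 1] (pderiv 0 Q) * ζ j - eval ![x j, 1] (pderiv 0 R)) * eval ![x j, 1] P ≠ 0 := by
  have h := congrArg (fun f => eval ![x j, 1] (pderiv 0 f)) S.hdet
  rw [← Finset.mul_prod_erase _ _ (Finset.mem_univ j), map_sub, pderiv_mul, pderiv_mul,
    pderiv_mul, map_sub, map_sub, pderiv_C_mul, pderiv_X_self, pderiv_X_of_ne (by decide)] at h
  simp only [map_add, map_mul, map_sub, eval_X, eval_C, Matrix.cons_val_zero, Matrix.cons_val_one,
    mul_one, mul_zero, sub_zero, sub_self, zero_mul, add_zero, map_one, one_mul, map_prod,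
    map_zero] at h
  rw [S.hT' j, S.hR' j] at h
  have h2 : ∏ i ∈ Finset.univ.erase j, (x j - x i) ≠ 0 := by
    rw [Finset.prod_ne_zero_iff]
    intro i hi
    rw [sub_ne_zero]
    intro h3
    exact (Finset.mem_erase.mp hi).1 (S.hx h3).symm
  intro h0
  apply h2
  rw [← h]
  linear_combination h0

theorem Strip.no_tang {t : ℕ} {P Q T R : R2} {x ζ : Fin (2 * t + 1) → ℂ}
    (S : Strip t P Q T R x ζ) {u β : ℕ} (hu : 1 ≤ u) {Φ : R4} (hΦ : BiHom u β Φ)
    (hdir : ∀ j, NoDir Φ ![x j, 1]) {j : Fin (2 * t + 1)} {v : V3} (hcr : cr (sp x ζ j) v ≠ 0) :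
    ¬ BadDir (u * (t + 1) + β) (onS P Q T R Φ) (sp x ζ j) u v := by
  intro hb
  have hG := onS_isHomogeneous S.hP S.hQ S.hT S.hR hΦ
  set q : V3 := sp x ζ j with hq
  set U : R3 := emb P * X 2 - emb T with hU
  set V : R3 := emb Q * X 2 - emb R with hV
  have hUh : U.IsHomogeneous (t + 1) :=
    ((emb_isHomogeneous S.hP).mul (isHomogeneous_X _ _)).sub (emb_isHomogeneous S.hT)
  have hVh : V.IsHomogeneous (t + 1) :=
    ((emb_isHomogeneous S.hQ).mul (isHomogeneous_X _ _)).sub (emb_isHomogeneous S.hR)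
  have hq01 : (![q 0, q 1] : V2) = ![x j, 1] := rfl
  have hUq : eval q U = 0 := by
    rw [hU, map_sub, map_mul, eval_emb, eval_emb, eval_X, hq01, S.hT' j]
    exact sub_self _
  have hVq : eval q V = 0 := by
    rw [hV, map_sub, map_mul, eval_emb, eval_emb, eval_X, hq01, S.hR' j]
    exact sub_self _
  set H := homogeneousComponent u (translate q (onS P Q T R Φ)) with hH
  have hHe : H = aeval ![lin (fun k => eval q (pderiv k U)), lin (fun k => eval q (pderiv k V)),
      C (q 0), C (q 1)] Φ := by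
    rw [hH]
    unfold onS
    rw [hc_aeval hΦ hUq hVq, hc_one_translate, hc_one_translate]
  have hle : u ≤ u * (t + 1) + β := by nlinarith
  have hHh : H.IsHomogeneous u := homogeneousComponent_isHomogeneous _ _
  -- all partial derivatives of `H` vanish at `v`
  have hHv : ∀ k, eval v (pderiv k H) = 0 := by
    intro k
    have h1 := hb.2 hu (Pi.single k 1)
    rw [B_taylor hG q hle, mul_comm (lin v ^ (u - 1)), B_lin_mul] at h1
    have h2 : dir (Pi.single k 1) H = pderiv k H := by
      rw [dir_apply, Finset.sum_eq_single k]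
      · simp
      · intro l _ hl
        simp [hl]
      · intro hk
        exact absurd (Finset.mem_univ k) hk
    have h3 := (mul_eq_zero.mp h1).resolve_left (by exact_mod_cast Nat.factorial_ne_zero _)
    change B (lin v ^ (u - 1)) (dir (Pi.single k 1) H) = 0 at h3
    rw [h2, B_lin_pow (hHh.pderiv (i := k))] at h3
    exact (mul_eq_zero.mp h3).resolve_left (by exact_mod_cast Nat.factorial_ne_zero _)
  set a : V3 := fun k => eval q (pderiv k U) with ha
  set b : V3 := fun k => eval q (pderiv k V) with hb'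
  set θ : V2 := ![eval v (lin a), eval v (lin b)] with hθ
  have hpart : ∀ k, a k * eval (pt θ ![x j, 1]) (pderiv 0 Φ) +
      b k * eval (pt θ ![x j, 1]) (pderiv 1 Φ) = 0 := by
    intro k
    have h1 := hHv k
    rw [hHe, pderiv_aeval, Fin.sum_univ_four] at h1
    simp only [Matrix.cons_val, pderiv_C, mul_zero, add_zero] at h1
    rw [map_add, map_mul, map_mul, eval_aeval_gen, eval_aeval_gen] at h1
    have h2 : (fun i => eval v ((![lin a, lin b, C (q 0), C (q 1)] : Fin 4 → R3) i)) =
        pt θ ![x j, 1] := by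
      funext i
      fin_cases i <;> simp [pt, hθ, hq, sp]
    have h3 : ∀ c : V3, eval v (pderiv k (lin c)) = c k := by
      intro c
      unfold lin
      rw [map_sum, map_sum, Finset.sum_eq_single k]
      · rw [pderiv_C_mul, pderiv_X_self, mul_one, eval_C]
      · intro l _ hl
        rw [pderiv_C_mul, pderiv_X_of_ne hl, mul_zero, map_zero]
      · intro hk
        exact absurd (Finset.mem_univ k) hk
    rw [h2, h3, h3] at h1
    linear_combination h1
  have hdet := S.det_ne j
  have ha2 : a 2 = eval ![x j, 1] P := by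
    rw [ha]
    change eval q (pderiv 2 (emb P * X 2 - emb T)) = _
    rw [pderiv_UV, eval_emb, hq01]
  have hb2 : b 2 = eval ![x j, 1] Q := by
    rw [hb']
    change eval q (pderiv 2 (emb Q * X 2 - emb R)) = _
    rw [pderiv_UV, eval_emb, hq01]
  have ha0 : a 0 = eval ![x j, 1] (pderiv 0 P) * ζ j - eval ![x j, 1] (pderiv 0 T) := by
    rw [ha]
    change eval q (pderiv 0 (emb P * X 2 - emb T)) = _
    rw [eval_pderiv_UV, hq01]
    rfl
  have hb0 : b 0 = eval ![x j, 1] (pderiv 0 Q) * ζ j - eval ![x j, 1] (pderiv 0 R) := by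
    rw [hb']
    change eval q (pderiv 0 (emb Q * X 2 - emb R)) = _
    rw [eval_pderiv_UV, hq01]
    rfl
  have hD : a 0 * b 2 - b 0 * a 2 ≠ 0 := by
    rw [ha0, hb0, ha2, hb2]
    exact hdet
  obtain ⟨f1, f2⟩ := cramer hD (hpart 0) (hpart 2)
  have hθ0 : θ ≠ 0 := by
    intro h0
    have g1 : eval v (lin a) = 0 := congrFun h0 0
    have g2 : eval v (lin b) = 0 := congrFun h0 1
    have k1 : eval q (lin a) = 0 := by
      have h1 := eval_dir_self hUh q
      rw [hUq, mul_zero, dir_apply, map_sum] at h1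
      rw [eval_lin]
      rw [← h1]
      refine Finset.sum_congr rfl fun k _ => ?_
      rw [map_mul, eval_C, mul_comm]
    have k2 : eval q (lin b) = 0 := by
      have h1 := eval_dir_self hVh q
      rw [hVq, mul_zero, dir_apply, map_sum] at h1
      rw [eval_lin]
      rw [← h1]
      refine Finset.sum_congr rfl fun k _ => ?_
      rw [map_mul, eval_C, mul_comm]
    rw [eval_lin, Fin.sum_univ_three] at g1 g2 k1 k2
    have hq1 : q 1 = 1 := rfl
    obtain ⟨m1, m2⟩ := cramer (X := v 0 - v 1 * q 0) (Y := v 2 - v 1 * q 2)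
      (a := a 0) (b := a 2) (c := b 0) (d := b 2) (by
        intro h1
        apply hD
        linear_combination h1)
      (by linear_combination g1 - v 1 * k1 + a 1 * v 1 * hq1)
      (by linear_combination g2 - v 1 * k2 + b 1 * v 1 * hq1)
    apply hcr
    have n0 : v 0 = v 1 * q 0 := by linear_combination m1
    have n2 : v 2 = v 1 * q 2 := by linear_combination m2
    ext l
    fin_cases l <;> simp [cr, n0, n2, hq1] <;> ring
  rcases hdir j θ hθ0 with h1 | h1
  · exact h1 f1
  · exact h1 f2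

end Pool.Agent.Work.MP_0421d9_ag.SM
end

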