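import Pool.Agent.Work.Z0421M.C08
import Pool.Agent.Work.Z0421M.C09

section
/-!
Restriction of ternary forms to the line `z = 0`.
-/

set_option linter.unusedSectionVars false
set_option linter.unusedVariables false

namespace Pool.Agent.Work.MP_0421d9_ag.SM

open MvPolynomial Module

theorem Ind.generic {ι κ : Type} {p : ι → V3} {w : κ → ℂ} (h : Ind p w) : GenericPoints p :=
  AlgebraicIndependent.comp h Sum.inl Sum.inl_injective

theorem res_X0 : res (X 0) = X 0 := by
  unfold res
  rw [aeval_X]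
  rfl

theorem res_X1 : res (X 1) = X 1 := by
  unfold res
  rw [aeval_X]
  rfl

theorem res_X2 : res (X 2) = 0 := by
  unfold res
  rw [aeval_X]
  rfl

theorem res_C (c : ℂ) : res (C c) = C c := by
  unfold res
  rw [algHom_C]
  rfl

theorem eval_res (F : R3) (y : V2) : eval y (res F) = eval ![y 0, y 1, 0] F := by
  induction F using MvPolynomial.induction_on with
  | C a => rw [res_C, eval_C, eval_C]
  | add p q hp hq => rw [map_add, map_add, hp, hq, map_add]
  | mul_X p i hp =>
    rw [map_mul, map_mul, hp, map_mul, eval_X]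
    congr 1
    fin_cases i
    · change eval y (res (X 0)) = _
      rw [res_X0, eval_X]
      rfl
    · change eval y (res (X 1)) = _
      rw [res_X1, eval_X]
      rfl
    · change eval y (res (X 2)) = _
      rw [res_X2, map_zero]
      rfl

theorem res_hom {F : R3} {d : ℕ} (hF : F.IsHomogeneous d) : (res F).IsHomogeneous d := by
  have h := hF.aeval (R := ℂ) (n := 1) (![X 0, X 1, 0] : Fin 3 → R2) (fun i => by
    fin_cases i
    · exact isHomogeneous_X ℂ 0
    · exact isHomogeneous_X ℂ 1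
    · exact isHomogeneous_zero _ _ _)
  rw [one_mul] at h
  exact h

theorem res_pderiv_zero (F : R3) : res (pderiv 0 F) = pderiv 0 (res F) := by
  induction F using MvPolynomial.induction_on with
  | C a => rw [pderiv_C, map_zero, res_C, pderiv_C]
  | add p q hp hq => rw [map_add, map_add, hp, hq, map_add, map_add]
  | mul_X p i hp =>
    rw [pderiv_mul, map_add, map_mul, map_mul, hp, map_mul, pderiv_mul]
    congr 2
    fin_cases i
    · change res (pderiv 0 (X 0)) = pderiv 0 (res (X 0))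
      rw [res_X0, pderiv_X_self, pderiv_X_self, map_one]
    · change res (pderiv 0 (X 1)) = pderiv 0 (res (X 1))
      rw [res_X1, pderiv_X_of_ne (by decide), pderiv_X_of_ne (by decide), map_zero]
    · change res (pderiv 0 (X 2)) = pderiv 0 (res (X 2))
      rw [res_X2, pderiv_X_of_ne (by decide), map_zero, map_zero]

theorem res_pderiv_one (F : R3) : res (pderiv 1 F) = pderiv 1 (res F) := by
  induction F using MvPolynomial.induction_on with
  | C a => rw [pderiv_C, map_zero, res_C, pderiv_C]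
  | add p q hp hq => rw [map_add, map_add, hp, hq, map_add, map_add]
  | mul_X p i hp =>
    rw [pderiv_mul, map_add, map_mul, map_mul, hp, map_mul, pderiv_mul]
    congr 2
    fin_cases i
    · change res (pderiv 1 (X 0)) = pderiv 1 (res (X 0))
      rw [res_X0, pderiv_X_of_ne (by decide), pderiv_X_of_ne (by decide), map_zero]
    · change res (pderiv 1 (X 1)) = pderiv 1 (res (X 1))
      rw [res_X1, pderiv_X_self, pderiv_X_self, map_one]
    · change res (pderiv 1 (X 2)) = pderiv 1 (res (X 2))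
      rw [res_X2, pderiv_X_of_ne (by decide), map_zero, map_zero]

theorem res_pderiv_zero_iterate (i : ℕ) (F : R3) :
    res ((pderiv 0)^[i] F) = (pderiv 0)^[i] (res F) := by
  induction i generalizing F with
  | zero => rfl
  | succ i ih => rw [Function.iterate_succ_apply, ih, res_pderiv_zero, Function.iterate_succ_apply]

theorem deriv_deh_X (i : Fin 2) :
    Polynomial.derivative (deh (X i)) = deh (pderiv 0 (X i)) := by
  fin_cases i
  · simp only [Fin.zero_eta, Fin.isValue]
    rw [deh_X0, Polynomial.derivative_X, pderiv_X_self, map_one]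
  · simp only [Fin.mk_one, Fin.isValue]
    rw [deh_X1, Polynomial.derivative_one, pderiv_X_of_ne (by decide), map_zero]

theorem deriv_deh (f : R2) : Polynomial.derivative (deh f) = deh (pderiv 0 f) := by
  induction f using MvPolynomial.induction_on with
  | C a => rw [deh_C, Polynomial.derivative_C, pderiv_C, map_zero]
  | add p q hp hq => rw [map_add, map_add, hp, hq, map_add, map_add]
  | mul_X p i hp =>
    rw [map_mul, Polynomial.derivative_mul, hp, pderiv_mul, map_add, map_mul, map_mul,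
      deriv_deh_X]

theorem deriv_deh_iterate (i : ℕ) (f : R2) :
    Polynomial.derivative^[i] (deh f) = deh ((pderiv 0)^[i] f) := by
  induction i generalizing f with
  | zero => rfl
  | succ i ih =>
    rw [Function.iterate_succ_apply, deriv_deh, ih, Function.iterate_succ_apply]

/-- the derivatives along the line, in terms of the dehomogenised restriction -/
theorem fder_eq (c : ℂ) (i : ℕ) (H : R3) :
    fder c i H = (Polynomial.derivative^[i] (deh (res H))).eval c := by
  rw [deriv_deh_iterate, eval_deh, ← res_pderiv_zero_iterate, eval_res]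
  rfl

/-- the derivatives of order less than `k` vanish iff the multiplicity of the root is at
least `k` -/
theorem fder_eq_zero_iff (c : ℂ) (k : ℕ) (H : R3) :
    (∀ i < k, fder c i H = 0) ↔ (Polynomial.X - Polynomial.C c) ^ k ∣ deh (res H) := by
  simp only [fder_eq]
  by_cases h0 : deh (res H) = 0
  · rw [h0]
    simp
  · rw [← Polynomial.le_rootMultiplicity_iff h0]
    rcases Nat.eq_zero_or_pos k with hk | hk
    · subst hk
      simp
    · obtain ⟨n, rfl⟩ : ∃ n, k = n + 1 := ⟨k - 1, by omega⟩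
      rw [Nat.succ_le_iff, Polynomial.lt_rootMultiplicity_iff_isRoot_iterate_derivative h0]
      simp only [Polynomial.IsRoot.def, Nat.lt_succ_iff]

/-- a form without `z`-free monomials is divisible by `z` -/
theorem X2_dvd_of_res {F : R3} (h : res F = 0) : (X 2 : R3) ∣ F := by
  rw [← lin_single_two]
  apply lin_dvd_of_eval
  · intro h0
    have := congrFun h0 2
    simp at this
  · intro u hu
    rw [lin_single_two, eval_X] at hu
    have h1 := eval_res F ![u 0, u 1]
    rw [h, map_zero] at h1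
    have h2 : u = ![![u 0, u 1] 0, ![u 0, u 1] 1, 0] := by
      ext i
      fin_cases i
      · rfl
      · rfl
      · exact hu
    rw [h2]
    exact h1.symm

/-- factoring out a power of `z` -/
theorem exists_z_factor {d k : ℕ} {F : R3} (hF : F.IsHomogeneous d)
    (h : ∀ α, coeff α F ≠ 0 → k ≤ α 2) : ∃ G : R3, G.IsHomogeneous (d - k) ∧ X 2 ^ k * G = F := by
  set G : R3 := F.divMonomial (Finsupp.single 2 k) with hG
  refine ⟨G, ?_, ?_⟩
  · apply isHomogeneous_of_degree
    intro α hα
    rw [hG, coeff_divMonomial] at hα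
    have h2 := degree_of_coeff hF hα
    rw [map_add, Finsupp.degree_single] at h2
    omega
  · rw [X_pow_eq_monomial]
    ext β
    rw [coeff_monomial_mul', one_mul]
    split_ifs with h'
    · rw [hG, coeff_divMonomial, add_tsub_cancel_of_le h']
    · by_contra hne
      apply h'
      rw [Finsupp.single_le_iff]
      exact h β (Ne.symm hne)

theorem le_of_X2_pow_mul {k : ℕ} {G : R3} {α : Fin 3 →₀ ℕ} (h : coeff α (X 2 ^ k * G) ≠ 0) :
    k ≤ α 2 := by
  rw [X_pow_eq_monomial, coeff_monomial_mul'] at h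
  split_ifs at h with h'
  · rwa [Finsupp.single_le_iff] at h'
  · exact absurd rfl h

/-- a member of the system whose restriction to the line is zero -/
theorem eq_zero_of_res {ι : Type} {n : ℕ} {p : ι → V3} {m : ι → ℕ} (hp2 : ∀ i, p i 2 ≠ 0)
    (hlow : linSys (n - 1) p m = ⊥) {H : R3} (hH : H ∈ linSys n p m) (h : res H = 0) :
    H = 0 := by
  obtain ⟨G, hG⟩ := X2_dvd_of_res h
  have h1 : ∀ α, coeff α H ≠ 0 → 1 ≤ α 2 := by
    intro α hα
    rw [hG, ← pow_one (X 2 : R3)] at hα
    exact le_of_X2_pow_mul hα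
  obtain ⟨K, hK, hKH⟩ := exists_z_factor hH.1 h1
  have h2 : K ∈ linSys (n - 1) p m := by
    refine ⟨hK, fun i => ?_⟩
    apply vanishTo_of_X_pow_mul (hp2 i) 1
    rw [hKH]
    exact hH.2 i
  rw [hlow, Submodule.mem_bot] at h2
  rw [← hKH, h2, mul_zero]

theorem deh_Gam {a : ℕ} (g : Fin a → ℂ) :
    deh (Gam g) = ∏ j, (Polynomial.X - Polynomial.C (g j)) := by
  unfold Gam
  rw [map_prod]
  refine Finset.prod_congr rfl (fun j _ => ?_)
  rw [map_sub, map_mul, deh_X0, deh_X1, deh_C, mul_one]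

theorem Gam_isHomogeneous {a : ℕ} (g : Fin a → ℂ) : (Gam g).IsHomogeneous a := by
  unfold Gam
  have h := IsHomogeneous.prod (Finset.univ : Finset (Fin a)) (fun j => X 0 - C (g j) * X 1 : _ → R2)
    (fun _ => 1) (fun j _ => (isHomogeneous_X ℂ 0).sub ((isHomogeneous_X ℂ 1).C_mul (g j)))
  simpa using h

theorem Gam_ne_zero {a : ℕ} (g : Fin a → ℂ) : Gam g ≠ 0 := by
  intro h
  have h1 := deh_Gam g
  rw [h, map_zero] at h1
  exact (Finset.prod_ne_zero_iff.mpr (fun j _ => Polynomial.X_sub_C_ne_zero (g j))) h1.symm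

/-- contact orders from the factor `Γ ^ u` -/
theorem fder_of_Gam {a u : ℕ} {g : Fin a → ℂ} {H : R3} {s : R2} (h : res H = Gam g ^ u * s)
    (j : Fin a) : ∀ i < u, fder (g j) i H = 0 := by
  rw [fder_eq_zero_iff, h, map_mul, map_pow, deh_Gam]
  apply Dvd.dvd.mul_right
  apply pow_dvd_pow_of_dvd
  exact Finset.dvd_prod_of_mem _ (Finset.mem_univ j)

theorem fder_succ_of_Gam {a u : ℕ} {g : Fin a → ℂ} {H : R3} {s : R2}
    (h : res H = Gam g ^ u * s) (j : Fin a) (hs : eval ![g j, 1] s = 0) :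
    ∀ i < u + 1, fder (g j) i H = 0 := by
  rw [fder_eq_zero_iff, h, map_mul, map_pow, deh_Gam, pow_succ]
  apply mul_dvd_mul
  · apply pow_dvd_pow_of_dvd
    exact Finset.dvd_prod_of_mem _ (Finset.mem_univ j)
  · rw [Polynomial.dvd_iff_isRoot, Polynomial.IsRoot.def, eval_deh]
    exact hs

/-- a nonzero form killed up to a factor by a derivation moving `c` does not vanish at `c` -/
theorem generic_root {n : ℕ} {f : R2} (hf : f.IsHomogeneous n) (hf0 : f ≠ 0)
    {D : Derivation ℚ ℂ ℂ} {κ : ℂ} (hD : cD D f = C κ * f) {c : ℂ} (hc : D c = 1) :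
    eval ![c, 1] f ≠ 0 := by
  intro h0
  have hdeh : deh f ≠ 0 := fun h => hf0 (eq_zero_of_deh hf h)
  have hcomm : ∀ i, cD D ((pderiv 0)^[i] f) = C κ * (pderiv 0)^[i] f := by
    intro i
    induction i with
    | zero => exact hD
    | succ i ih =>
      rw [Function.iterate_succ_apply', cD_pderiv, ih, pderiv_C_mul]
  have hall : ∀ i, eval ![c, 1] ((pderiv 0)^[i] f) = 0 := by
    intro i
    induction i with
    | zero => exact h0
    | succ i ih =>
      have h1 := D_eval D ![c, 1] ((pderiv 0)^[i] f)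
      rw [ih, map_zero, hcomm, map_mul, ih, mul_zero, zero_add, Fin.sum_univ_two] at h1
      simp only [Matrix.cons_val_zero, Matrix.cons_val_one, hc, Derivation.map_one_eq_zero,
        one_mul, zero_mul, add_zero] at h1
      rw [Function.iterate_succ_apply']
      exact h1.symm
  have h2 : (Polynomial.X - Polynomial.C c) ^ ((deh f).natDegree + 1) ∣ deh f := by
    rw [← Polynomial.le_rootMultiplicity_iff hdeh, Nat.succ_le_iff,
      Polynomial.lt_rootMultiplicity_iff_isRoot_iterate_derivative hdeh]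
    intro i _
    rw [Polynomial.IsRoot.def, deriv_deh_iterate, eval_deh, hall]
  have h3 := Polynomial.natDegree_le_of_dvd h2 hdeh
  rw [Polynomial.natDegree_pow, Polynomial.natDegree_X_sub_C, mul_one] at h3
  omega

end Pool.Agent.Work.MP_0421d9_ag.SM
end

section
/-!
Specialisation of bad points along a place.
-/

set_option linter.unusedSectionVars false

namespace Pool.Agent.Work.MP_0421d9_ag.SM

open MvPolynomial Module

/-- value of the first nonvanishing term -/
theorem value_sum (P : Pl) {α β c : ℂ} (hβ0 : β ≠ 0) (hβ : P.L β 0) (hα : P.L α c) (hc : c ≠ 0)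
    {N k : ℕ} (hk : k ≤ N) (f f' : ℕ → ℂ) (hf : ∀ j, P.L (f j) (f' j))
    (h0 : ∀ j < k, f j = 0)
    (hs : ∑ j ∈ Finset.range (N + 1), β ^ j * α ^ (N - j) * (N.choose j : ℂ) * f j = 0) :
    f' k = 0 := by
  have h1 : ∑ i ∈ Finset.range (N + 1 - k),
      β ^ i * α ^ (N - (k + i)) * (N.choose (k + i) : ℂ) * f (k + i) = 0 := by
    have h2 : N + 1 = k + (N + 1 - k) := by omega
    rw [h2, Finset.sum_range_add, Finset.sum_eq_zero, zero_add] at hs
    · have h3 : ∑ x ∈ Finset.range (N + 1 - k), β ^ (k + x) * α ^ (N - (k + x)) *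
          (N.choose (k + x) : ℂ) * f (k + x) = β ^ k * ∑ i ∈ Finset.range (N + 1 - k),
          β ^ i * α ^ (N - (k + i)) * (N.choose (k + i) : ℂ) * f (k + i) := by
        rw [Finset.mul_sum]
        refine Finset.sum_congr rfl fun x _ => ?_
        rw [pow_add]
        ring
      rw [h3] at hs
      exact (mul_eq_zero.mp hs).resolve_left (pow_ne_zero _ hβ0)
    · intro x hx
      rw [h0 x (Finset.mem_range.mp hx), mul_zero]
  have h4 : P.L (∑ i ∈ Finset.range (N + 1 - k),
      β ^ i * α ^ (N - (k + i)) * (N.choose (k + i) : ℂ) * f (k + i))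
      (∑ i ∈ Finset.range (N + 1 - k),
      0 ^ i * c ^ (N - (k + i)) * (N.choose (k + i) : ℂ) * f' (k + i)) := by
    apply P.sum
    intro i _
    exact P.mul (P.mul (P.mul (P.pow hβ i) (P.pow hα _)) (P.natCast _)) (hf _)
  rw [h1] at h4
  have h5 := P.fn h4 P.zero
  rw [Finset.sum_eq_single 0] at h5
  · rw [pow_zero, one_mul, add_zero] at h5
    rcases mul_eq_zero.mp h5 with h6 | h6
    · exfalso
      rcases mul_eq_zero.mp h6 with h7 | h7
      · exact pow_ne_zero _ hc h7
      · exact (Nat.choose_pos hk).ne' (by exact_mod_cast h7)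
    · exact h6
  · intro i _ hi
    rw [zero_pow hi]
    ring
  · intro h
    exact absurd (Finset.mem_range.mpr (by omega)) h

/-- normalised direction: finite, nonzero, independent of `p'` -/
theorem exists_direction (P : Pl) {p' v : V3} {i : Fin 3}
    (hi : p' i ≠ 0) (hv : v ≠ 0) (hvi : v i = 0) :
    ∃ c : ℂ, c ≠ 0 ∧ ∃ b : V3, (∀ k, P.L (c * v k) (b k)) ∧ b ≠ 0 ∧ cr p' b ≠ 0 := by
  obtain ⟨c, hc, b, hb0, hb⟩ := P.exists_scale_vec v hv
  refine ⟨c, hc, b, hb, hb0, ?_⟩
  intro hcr
  have hbi : b i = 0 := by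
    have h1 := hb i
    rw [hvi, mul_zero] at h1
    exact P.fn h1 P.zero
  have hp0 : p' ≠ 0 := by
    intro h
    apply hi
    rw [h]
    rfl
  obtain ⟨s, hs⟩ := exists_smul_of_cr_eq_zero hp0 hcr
  have h2 : s * p' i = 0 := by
    have := congrFun hs i
    rw [hbi, Pi.smul_apply, smul_eq_mul] at this
    exact this.symm
  have h3 : s = 0 := (mul_eq_zero.mp h2).resolve_right hi
  apply hb0
  rw [hs, h3, zero_smul]

/-- linearity in the last vector -/
theorem B_lin_last (A F : R3) (w : V3) : B (A * lin w) F = ∑ k, w k * B (A * X k) F := by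
  unfold lin
  rw [Finset.mul_sum, map_sum, LinearMap.sum_apply]
  refine Finset.sum_congr rfl fun k _ => ?_
  rw [← B_C_mul_left]
  congr 2
  ring

theorem lin_comb (α β : ℂ) (p w : V3) :
    lin (α • p + β • w) = C β * lin w + C α * lin p := by
  rw [lin_add, lin_smul, lin_smul, add_comm]

/-- expansion of a power of a linear form -/
theorem B_lin_comb_pow (α β : ℂ) (p w : V3) (N : ℕ) (A F : R3) :
    B (lin (α • p + β • w) ^ N * A) F = ∑ j ∈ Finset.range (N + 1),
      β ^ j * α ^ (N - j) * (N.choose j : ℂ) * B (lin p ^ (N - j) * (lin w ^ j * A)) F := by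
  rw [lin_comb, add_pow, Finset.sum_mul, map_sum, LinearMap.sum_apply]
  refine Finset.sum_congr rfl fun j _ => ?_
  rw [← B_C_mul_left]
  congr 2
  rw [mul_pow, mul_pow]
  simp only [map_mul, map_pow, map_natCast]
  ring

/-- a singular point which specialises to one of the multiple points -/
theorem sing_spec (P : Pl) {d m : ℕ} {F G : R3} (hF : F.IsHomogeneous d) (hd : 1 ≤ d)
    (hm : m ≤ d) (h : P.LP F G) {p p' q q' : V3} (hp : ∀ k, P.L (p k) (p' k))
    (hq : ∀ k, P.L (q k) (q' k)) (hp' : p' ≠ 0) (hq' : q' ≠ 0) (hv : VanishTo F p m)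
    (hcr : cr p q ≠ 0) (hcr' : cr p' q' = 0) (hs : ∀ k, eval q (pderiv k F) = 0) :
    ∃ u, cr p' u ≠ 0 ∧ BadDir d G p' m u := by
  obtain ⟨i, hi⟩ : ∃ i, p' i ≠ 0 := by
    by_contra hcon
    push Not at hcon
    exact hp' (funext hcon)
  have hpi : p i ≠ 0 := by
    intro h0
    apply hi
    have h1 := hp i
    rw [h0] at h1
    exact P.fn h1 P.zero
  obtain ⟨c, hc⟩ := exists_smul_of_cr_eq_zero hp' hcr'
  have hc0 : c ≠ 0 := by
    intro h0
    apply hq'
    rw [hc, h0, zero_smul]
  have hα : P.L (q i / p i) c := by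
    have h1 := P.div (hq i) (hp i) hi
    have h2 : q' i / p' i = c := by
      rw [hc, Pi.smul_apply, smul_eq_mul, mul_div_assoc, div_self hi, mul_one]
    rwa [h2] at h1
  set α := q i / p i with hαd
  set v : V3 := q - α • p with hvd
  have hvi : v i = 0 := by
    rw [hvd, Pi.sub_apply, Pi.smul_apply, smul_eq_mul, hαd, div_mul_cancel₀ _ hpi, sub_self]
  have hv0 : v ≠ 0 := by
    intro h0
    apply hcr
    have h1 : q = α • p := sub_eq_zero.mp h0
    rw [h1]
    ext l
    fin_cases l <;> simp [cr] <;> ring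
  obtain ⟨c1, hc1, b, hb, hb0, hbcr⟩ := exists_direction P hi hv0 hvi
  have hvL : ∀ k, P.L (v k) 0 := by
    intro k
    have h1 : P.L (q k + -(α * p k)) (q' k + -(c * p' k)) :=
      P.add (hq k) (P.neg (P.mul hα (hp k)))
    have h2 : q' k + -(c * p' k) = 0 := by
      rw [hc, Pi.smul_apply, smul_eq_mul, add_neg_cancel]
    rw [h2] at h1
    have h3 : v k = q k + -(α * p k) := by
      rw [hvd, Pi.sub_apply, Pi.smul_apply, smul_eq_mul, sub_eq_add_neg]
    rwa [h3]
  obtain ⟨k, hk⟩ : ∃ k, b k ≠ 0 := by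
    by_contra hcon
    push Not at hcon
    exact hb0 (funext hcon)
  have hβ : P.L c1⁻¹ 0 := by
    have h1 := P.div (hvL k) (hb k) hk
    rw [zero_div] at h1
    have hvk : v k ≠ 0 := by
      intro h0
      apply hk
      have h2 := hb k
      rw [h0, mul_zero] at h2
      exact P.fn h2 P.zero
    have h2 : v k / (c1 * v k) = c1⁻¹ := by
      field_simp
    rwa [h2] at h1
  have hqe : q = α • p + c1⁻¹ • (c1 • v) := by
    rw [smul_smul, inv_mul_cancel₀ hc1, one_smul, hvd]
    abel
  have hw : P.LP (lin (c1 • v)) (lin b) := Pl.LP_lin (fun k => by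
    rw [Pi.smul_apply, smul_eq_mul]
    exact hb k)
  have hpL : P.LP (lin p) (lin p') := Pl.LP_lin hp
  refine ⟨b, hbcr, ?_, ?_⟩
  · have hFq : eval q F = 0 := by
      have h1 := eval_dir_self hF q
      rw [dir_apply, map_sum] at h1
      have h2 : ∑ x, eval q (C (q x) * pderiv x F) = 0 := by
        refine Finset.sum_eq_zero fun x _ => ?_
        rw [map_mul, hs x, mul_zero]
      rw [h2] at h1
      exact (mul_eq_zero.mp h1.symm).resolve_left (by exact_mod_cast (by omega : d ≠ 0))
    have h1 : B (lin q ^ d * 1) F = 0 := by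
      rw [mul_one, B_lin_pow hF, hFq, mul_zero]
    rw [hqe, B_lin_comb_pow] at h1
    have h2 := value_sum P (inv_ne_zero hc1) hβ hα hc0 hm
      (fun j => B (lin p ^ (d - j) * (lin (c1 • v) ^ j * 1)) F)
      (fun j => B (lin p' ^ (d - j) * (lin b ^ j * 1)) G)
      (fun j => Pl.LP.B ((hpL.pow _).mul ((hw.pow _).mul (Pl.LP_C P.one))) h)
      (fun j hj => B_eq_zero_of_vanishTo hF hv hj (by omega) _) h1
    rwa [mul_one] at h2
  · intro hm1 w
    rw [← mul_assoc, B_lin_last]
    refine Finset.sum_eq_zero fun k _ => ?_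
    have h1 : B (lin q ^ (d - 1) * X k) F = 0 := by
      rw [mul_comm, B_X_mul, B_lin_pow (hF.pderiv (i := k)), hs k, mul_zero]
    rw [hqe, B_lin_comb_pow] at h1
    have h2 := value_sum P (k := m - 1) (N := d - 1) (inv_ne_zero hc1) hβ hα hc0 (by omega)
      (fun j => B (lin p ^ (d - 1 - j) * (lin (c1 • v) ^ j * X k)) F)
      (fun j => B (lin p' ^ (d - 1 - j) * (lin b ^ j * X k)) G)
      (fun j => Pl.LP.B ((hpL.pow _).mul ((hw.pow _).mul (Pl.LP_X k))) h)
      (fun j hj => B_eq_zero_of_vanishTo hF hv (k := j + 1) (by omega) (by omega) _) h1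
    have h3 : d - 1 - (m - 1) = d - m := by omega
    rw [h3] at h2
    have h4 : lin p' ^ (d - m) * lin b ^ (m - 1) * X k =
        lin p' ^ (d - m) * (lin b ^ (m - 1) * X k) := by ring
    rw [h4, h2, mul_zero]

/-- specialisation of a multiple tangent -/
theorem tang_spec (P : Pl) {d m : ℕ} {F G : R3} (hF : F.IsHomogeneous d)
    (hm : m ≤ d) (h : P.LP F G) {p p' : V3} (hp : ∀ k, P.L (p k) (p' k))
    (hp' : p' ≠ 0) (hv : VanishTo F p m) {u : V3} (hu : cr p u ≠ 0) (hb : BadDir d F p m u) :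
    ∃ u', cr p' u' ≠ 0 ∧ BadDir d G p' m u' := by
  obtain ⟨i, hi⟩ : ∃ i, p' i ≠ 0 := by
    by_contra hcon
    push Not at hcon
    exact hp' (funext hcon)
  have hpi : p i ≠ 0 := by
    intro h0
    apply hi
    have h1 := hp i
    rw [h0] at h1
    exact P.fn h1 P.zero
  set s := u i / p i with hsd
  set v : V3 := u - s • p with hvd
  have hvi : v i = 0 := by
    rw [hvd, Pi.sub_apply, Pi.smul_apply, smul_eq_mul, hsd, div_mul_cancel₀ _ hpi, sub_self]
  have hv0 : v ≠ 0 := by
    intro h0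
    apply hu
    have h1 : u = s • p := sub_eq_zero.mp h0
    rw [h1]
    ext l
    fin_cases l <;> simp [cr] <;> ring
  obtain ⟨c1, hc1, b, hb', hb0, hbcr⟩ := exists_direction P hi hv0 hvi
  have hw : P.LP (lin (c1 • v)) (lin b) := Pl.LP_lin (fun k => by
    rw [Pi.smul_apply, smul_eq_mul]
    exact hb' k)
  have hpL : P.LP (lin p) (lin p') := Pl.LP_lin hp
  -- powers of `lin v` and `lin u` agree modulo `lin p`
  have hdvd : ∀ n : ℕ, ∃ R : R3, lin v ^ n = lin u ^ n + lin p * R := by
    intro n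
    have h1 : lin v - lin u ∣ lin v ^ n - lin u ^ n := sub_dvd_pow_sub_pow _ _ _
    obtain ⟨R, hR⟩ := h1
    have h2 : lin v = lin u + C (-s) * lin p := by
      rw [← lin_smul, ← lin_add, hvd, neg_smul, sub_eq_add_neg]
    refine ⟨C (-s) * R, ?_⟩
    have h3 : lin v - lin u = C (-s) * lin p := by
      rw [h2]
      ring
    rw [h3] at hR
    have h4 : lin v ^ n = lin u ^ n + (lin v ^ n - lin u ^ n) := by ring
    rw [h4, hR]
    ring
  have hkill : ∀ A : R3, 1 ≤ m → B (lin p ^ (d - m) * (lin p * A)) F = 0 := by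
    intro A hm1
    have h1 : lin p ^ (d - m) * (lin p * A) = lin p ^ (d - m + 1) * A := by ring
    rw [h1]
    exact B_eq_zero_of_vanishTo hF hv (k := m - 1) (by omega) (by omega) _
  have hc1' : P.LP (C c1 * lin v) (lin b) := by
    rw [← lin_smul]
    exact hw
  refine ⟨b, hbcr, ?_, ?_⟩
  · have h1 : B (lin p ^ (d - m) * lin v ^ m) F = 0 := by
      rcases Nat.eq_zero_or_pos m with h0 | h0
      · have := hb.1
        rw [h0, pow_zero] at this ⊢
        exact this
      · obtain ⟨R, hR⟩ := hdvd m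
        rw [hR, mul_add, map_add, LinearMap.add_apply, hb.1, hkill R h0, add_zero]
    have h2 : P.L (B (lin p ^ (d - m) * (C c1 * lin v) ^ m) F)
        (B (lin p' ^ (d - m) * lin b ^ m) G) := Pl.LP.B ((hpL.pow _).mul (hc1'.pow _)) h
    have h3 : lin p ^ (d - m) * (C c1 * lin v) ^ m =
        C (c1 ^ m) * (lin p ^ (d - m) * lin v ^ m) := by
      rw [map_pow]
      ring
    rw [h3, B_C_mul_left, h1, mul_zero] at h2
    exact P.fn h2 P.zero
  · intro hm1 w
    rw [← mul_assoc, B_lin_last]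
    refine Finset.sum_eq_zero fun k _ => ?_
    have h1 : B (lin p ^ (d - m) * (lin v ^ (m - 1) * X k)) F = 0 := by
      obtain ⟨R, hR⟩ := hdvd (m - 1)
      have h0 : (X k : R3) = lin (Pi.single k 1) := by
        unfold lin
        rw [Finset.sum_eq_single k]
        · simp
        · intro l _ hl
          simp [hl]
        · intro hk
          exact absurd (Finset.mem_univ k) hk
      have h5 : lin p ^ (d - m) * ((lin u ^ (m - 1) + lin p * R) * X k) =
          lin p ^ (d - m) * (lin u ^ (m - 1) * X k) +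
            lin p ^ (d - m) * (lin p * (R * X k)) := by ring
      rw [hR, h5, map_add, LinearMap.add_apply, hkill _ hm1, add_zero, h0]
      exact hb.2 hm1 _
    have h2 : P.L (B (lin p ^ (d - m) * ((C c1 * lin v) ^ (m - 1) * X k)) F)
        (B (lin p' ^ (d - m) * (lin b ^ (m - 1) * X k)) G) :=
      Pl.LP.B ((hpL.pow _).mul ((hc1'.pow _).mul (Pl.LP_X k))) h
    have h3 : lin p ^ (d - m) * ((C c1 * lin v) ^ (m - 1) * X k) =
        C (c1 ^ (m - 1)) * (lin p ^ (d - m) * (lin v ^ (m - 1) * X k)) := by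
      rw [map_pow]
      ring
    rw [h3, B_C_mul_left, h1, mul_zero] at h2
    have h4 := P.fn h2 P.zero
    have h5 : lin p' ^ (d - m) * lin b ^ (m - 1) * X k =
        lin p' ^ (d - m) * (lin b ^ (m - 1) * X k) := by ring
    rw [h5, h4, mul_zero]

theorem eval_smul_of_homogeneous {σ : Type} {f : MvPolynomial σ ℂ} {n : ℕ}
    (hf : f.IsHomogeneous n) (c : ℂ) (q : σ → ℂ) : eval (c • q) f = c ^ n * eval q f := by
  rw [eval_eq, eval_eq, Finset.mul_sum]
  refine Finset.sum_congr rfl fun α hα => ?_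
  have h1 : α.degree = n := by
    by_contra hne
    exact (mem_support_iff.mp hα) (hf.coeff_eq_zero hne)
  have h2 : ∏ i ∈ α.support, (c • q) i ^ α i = c ^ n * ∏ i ∈ α.support, q i ^ α i := by
    have h3 : ∏ i ∈ α.support, (c • q) i ^ α i =
        ∏ i ∈ α.support, (c ^ α i * q i ^ α i) :=
      Finset.prod_congr rfl fun i _ => by rw [Pi.smul_apply, smul_eq_mul, mul_pow]
    rw [h3, Finset.prod_mul_distrib, Finset.prod_pow_eq_pow_sum, ← h1]
    rfl
  rw [h2]
  ring

theorem bad_spec (P : Pl) {ι : Type} {d : ℕ} (hd : 1 ≤ d) {p p' : ι → V3} {m : ι → ℕ}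
    (hm : ∀ i, m i ≤ d) {F G : R3}
    (hF : F ∈ linSys d p m) (h : P.LP F G) (hp : ∀ i k, P.L (p i k) (p' i k))
    (hp' : ∀ i, p' i ≠ 0) (hb : Bad d p m F) : Bad d p' m G := by
  rcases hb with ⟨q, hq0, hq1, hq2⟩ | ⟨i, u, hu, hb⟩
  · obtain ⟨c, hc, b, hb0, hb⟩ := P.exists_scale_vec q hq0
    have hs : ∀ k, eval (c • q) (pderiv k F) = 0 := by
      intro k
      rw [eval_smul_of_homogeneous (hF.1.pderiv (i := k)), hq2 k, mul_zero]
    have hbL : ∀ k, P.L ((c • q) k) (b k) := by
      intro k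
      rw [Pi.smul_apply, smul_eq_mul]
      exact hb k
    by_cases hex : ∃ i, cr (p' i) b = 0
    · obtain ⟨i, hi⟩ := hex
      right
      have hcr : cr (p i) (c • q) ≠ 0 := by
        intro h0
        apply hq1 i
        have h1 : cr (p i) (c • q) = c • cr (p i) q := by
          ext l
          fin_cases l <;> simp [cr] <;> ring
        rw [h1] at h0
        exact (smul_eq_zero.mp h0).resolve_left hc
      obtain ⟨u, hu1, hu2⟩ := sing_spec P hF.1 hd (hm i) h (hp i) hbL (hp' i) hb0 (hF.2 i)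
        hcr hi hs
      exact ⟨i, u, hu1, hu2⟩
    · push Not at hex
      left
      refine ⟨b, hb0, hex, fun k => ?_⟩
      have h1 := (h.pderiv k).eval hbL
      rw [hs k] at h1
      exact P.fn h1 P.zero
  · right
    obtain ⟨u', hu1, hu2⟩ := tang_spec P hF.1 (hm i) h (hp i) (hp' i) (hF.2 i) hu hb
    exact ⟨i, u', hu1, hu2⟩

end Pool.Agent.Work.MP_0421d9_ag.SM
end

section
/-!
The substitution `z ↦ τ z`, and division by powers of `z`.
-/

set_option linter.unusedSectionVars false

namespace Pool.Agent.Work.MP_0421d9_ag.SM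

open MvPolynomial Module

/-- `F (x, y, z) ↦ F (x, y, τ z)` -/
noncomputable def scz (τ : ℂ) : R3 →ₐ[ℂ] R3 := aeval ![X 0, X 1, C τ * X 2]

/-- `(v₀, v₁, v₂) ↦ (v₀, v₁, v₂ / τ)` -/
noncomputable def scv (τ : ℂ) (v : V3) : V3 := ![v 0, v 1, v 2 / τ]

theorem scz_eq_scl (τ : ℂ) : scz τ = LD.scl ![1, 1, τ] := by
  unfold scz LD.scl
  congr 1
  funext i
  fin_cases i <;> simp

theorem scz_C (τ c : ℂ) : scz τ (C c) = C c := by
  unfold scz
  rw [algHom_C, algebraMap_eq]

theorem scz_X0 (τ : ℂ) : scz τ (X 0) = X 0 := by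
  unfold scz
  rw [aeval_X]
  rfl

theorem scz_X1 (τ : ℂ) : scz τ (X 1) = X 1 := by
  unfold scz
  rw [aeval_X]
  rfl

theorem scz_X2 (τ : ℂ) : scz τ (X 2) = C τ * X 2 := by
  unfold scz
  rw [aeval_X]
  rfl

theorem coeff_scz (τ : ℂ) (F : R3) (α : Fin 3 →₀ ℕ) :
    coeff α (scz τ F) = τ ^ α 2 * coeff α F := by
  rw [scz_eq_scl, LD.coeff_scl, Fin.prod_univ_three]
  simp

theorem scz_hom (τ : ℂ) {F : R3} {d : ℕ} (hF : F.IsHomogeneous d) :
    (scz τ F).IsHomogeneous d := by
  intro α hα
  rw [coeff_scz] at hα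
  exact hF (right_ne_zero_of_mul hα)

theorem scz_monomial (τ : ℂ) (α : Fin 3 →₀ ℕ) (a : ℂ) :
    scz τ (monomial α a) = monomial α (τ ^ α 2 * a) := by
  ext β
  rw [coeff_scz, coeff_monomial, coeff_monomial]
  split_ifs with h
  · rw [h]
  · rw [mul_zero]

theorem B_scz (τ : ℂ) (A F : R3) : B A (scz τ F) = B (scz τ A) F := by
  induction A using MvPolynomial.induction_on' with
  | monomial β b =>
    rw [scz_monomial, B_monomial, B_monomial, coeff_scz]
    ring
  | add p q hp hq =>
    rw [map_add, LinearMap.add_apply, hp, hq, map_add, map_add, LinearMap.add_apply]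

theorem scz_lin' (τ : ℂ) (w : V3) : scz τ (lin w) = lin ![w 0, w 1, τ * w 2] := by
  unfold lin
  rw [Fin.sum_univ_three, Fin.sum_univ_three]
  simp only [map_add, map_mul, scz_C, scz_X0, scz_X1, scz_X2, Matrix.cons_val_zero,
    Matrix.cons_val_one, Matrix.cons_val]
  ring

theorem scz_lin {τ : ℂ} (hτ : τ ≠ 0) (v : V3) : scz τ (lin (scv τ v)) = lin v := by
  rw [scz_lin']
  congr 1
  funext i
  fin_cases i <;> simp [scv]
  field_simp

theorem vanishTo_scz {τ : ℂ} (hτ : τ ≠ 0) {F : R3} {d : ℕ} (hF : F.IsHomogeneous d) {p : V3}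
    {m : ℕ} (h : VanishTo F p m) : VanishTo (scz τ F) (scv τ p) m := by
  rw [scz_eq_scl]
  apply LD.vanishTo_scl
  have h1 : (fun i => (![1, 1, τ] : V3) i * scv τ p i) = p := by
    funext i
    fin_cases i <;> simp [scv]
    field_simp
  rw [h1]
  exact h

theorem eval_scz {τ : ℂ} (hτ : τ ≠ 0) (q : V3) (F : R3) :
    eval (scv τ q) (scz τ F) = eval q F := by
  induction F using MvPolynomial.induction_on with
  | C c => rw [scz_C, eval_C, eval_C]
  | add f g hf hg => rw [map_add, map_add, map_add, hf, hg]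
  | mul_X f k hf =>
    rw [map_mul, map_mul, map_mul, hf]
    congr 1
    fin_cases k
    · change eval (scv τ q) (scz τ (X 0)) = _
      rw [scz_X0, eval_X]
      simp [scv]
    · change eval (scv τ q) (scz τ (X 1)) = _
      rw [scz_X1, eval_X]
      simp [scv]
    · change eval (scv τ q) (scz τ (X 2)) = _
      rw [scz_X2, map_mul, eval_C, eval_X]
      simp [scv]
      field_simp

theorem pderiv_scz (τ : ℂ) (k : Fin 3) (F : R3) :
    pderiv k (scz τ F) = C ((![1, 1, τ] : V3) k) * scz τ (pderiv k F) := by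
  ext α
  rw [coeff_pderiv, coeff_scz, coeff_C_mul, coeff_scz, coeff_pderiv]
  fin_cases k
  · simp
    ring
  · simp
    ring
  · simp
    ring

theorem sing_scz {τ : ℂ} (hτ : τ ≠ 0) {F : R3} {q : V3} (h : ∀ k, eval q (pderiv k F) = 0) :
    ∀ k, eval (scv τ q) (pderiv k (scz τ F)) = 0 := by
  intro k
  rw [pderiv_scz, map_mul, eval_scz hτ, h k, mul_zero]

theorem badDir_scz {τ : ℂ} (hτ : τ ≠ 0) {d m : ℕ} {F : R3} {p v : V3} (h : BadDir d F p m v) :
    BadDir d (scz τ F) (scv τ p) m (scv τ v) := by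
  refine ⟨?_, fun hm w => ?_⟩
  · rw [B_scz, map_mul, map_pow, map_pow, scz_lin hτ, scz_lin hτ]
    exact h.1
  · have h1 : scz τ (lin (scv τ p) ^ (d - m) * (lin (scv τ v) ^ (m - 1) * lin w)) =
        lin p ^ (d - m) * (lin v ^ (m - 1) * lin ![w 0, w 1, τ * w 2]) := by
      rw [map_mul, map_mul, map_pow, map_pow, scz_lin hτ, scz_lin hτ, scz_lin']
    rw [B_scz, h1]
    exact h.2 hm _

theorem cr_scv {τ : ℂ} (hτ : τ ≠ 0) {p q : V3} (h : cr p q ≠ 0) :
    cr (scv τ p) (scv τ q) ≠ 0 := by
  intro h0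
  apply h
  have e0 := congrFun h0 0
  have e1 := congrFun h0 1
  have e2 := congrFun h0 2
  simp only [cr, scv, Matrix.cons_val_zero, Matrix.cons_val_one, Matrix.cons_val,
    Pi.zero_apply] at e0 e1 e2
  funext i
  fin_cases i
  · simp only [cr, Fin.zero_eta, Matrix.cons_val_zero, Pi.zero_apply]
    have h1 : p 1 * q 2 - p 2 * q 1 = (p 1 * (q 2 / τ) - p 2 / τ * q 1) * τ := by field_simp
    rw [h1, e0, zero_mul]
  · simp only [cr, Fin.mk_one, Matrix.cons_val_one, Matrix.cons_val_zero, Pi.zero_apply]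
    have h1 : p 2 * q 0 - p 0 * q 2 = (p 2 / τ * q 0 - p 0 * (q 2 / τ)) * τ := by field_simp
    rw [h1, e1, zero_mul]
  · simp only [cr, Fin.reduceFinMk, Matrix.cons_val, Pi.zero_apply]
    exact e2

/-- lowest component of a product -/
theorem homogeneousComponent_mul_of_low {P G : R3} {m : ℕ}
    (hG : ∀ k < m, homogeneousComponent k G = 0) :
    homogeneousComponent m (P * G) = C (coeff 0 P) * homogeneousComponent m G := by
  classical
  have hc : ∀ β : Fin 3 →₀ ℕ, β.degree < m → coeff β G = 0 := by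
    intro β hβ
    have h1 := congrArg (coeff β) (hG _ hβ)
    rw [coeff_homogeneousComponent, if_pos rfl, coeff_zero] at h1
    exact h1
  ext γ
  rw [coeff_homogeneousComponent, coeff_C_mul, coeff_homogeneousComponent]
  split_ifs with h
  · rw [coeff_mul, Finset.sum_eq_single (0, γ)]
    · intro b hb hb'
      rw [Finset.HasAntidiagonal.mem_antidiagonal] at hb
      have h1 : b.1 ≠ 0 := by
        intro h2
        apply hb'
        rw [h2, zero_add] at hb
        exact Prod.ext h2 hb
      have h2 : b.2.degree < m := by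
        have h3 : b.1.degree + b.2.degree = m := by rw [← map_add, hb, h]
        have h4 : b.1.degree ≠ 0 := by
          intro h5
          exact h1 ((Finsupp.degree_eq_zero_iff _).mp h5)
        omega
      rw [hc _ h2, mul_zero]
    · intro h1
      exfalso
      apply h1
      rw [Finset.HasAntidiagonal.mem_antidiagonal, zero_add]
  · rw [mul_zero]

theorem translate_X2_pow_mul (p : V3) (u : ℕ) (F : R3) :
    translate p (X 2 ^ u * F) = (C (p 2) + X 2) ^ u * translate p F := by
  unfold translate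
  rw [map_mul, map_pow, aeval_X]

theorem coeff_zero_pow (c : ℂ) (u : ℕ) : coeff 0 ((C c + X 2 : R3) ^ u) = c ^ u := by
  have h1 : ∀ P : R3, coeff 0 P = constantCoeff P := fun P => rfl
  rw [h1, map_pow, map_add, constantCoeff_C, constantCoeff_X, add_zero]

/-- dividing by a power of `z`: the pairing with the lowest term -/
theorem B_z_pow {n m u : ℕ} (hm : m ≤ n) {F : R3} (hF : F.IsHomogeneous n) {p : V3}
    (hv : VanishTo F p m) (A : R3) :
    B (lin p ^ (n + u - m) * A) (X 2 ^ u * F) =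
      ((n + u - m).factorial : ℂ) * (p 2 ^ u * (((n - m).factorial : ℂ)⁻¹ *
        B (lin p ^ (n - m) * A) F)) := by
  have h1 : (X 2 ^ u * F : R3).IsHomogeneous (n + u) := by
    have h2 : (X 2 ^ u : R3).IsHomogeneous u := by
      have h3 := (isHomogeneous_X ℂ (2 : Fin 3)).pow u
      rwa [one_mul] at h3
    rw [add_comm]
    exact h2.mul hF
  have h2 : ((n - m).factorial : ℂ) ≠ 0 := by exact_mod_cast Nat.factorial_ne_zero _
  rw [B_taylor h1 p (by omega : m ≤ n + u), B_taylor hF p hm, translate_X2_pow_mul,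
    homogeneousComponent_mul_of_low hv, coeff_zero_pow, B_C_mul_right,
    inv_mul_cancel_left₀ h2]

/-- dividing by a power of `z` -/
theorem badDir_of_z_pow {n m u : ℕ} (hm : m ≤ n) {F : R3} (hF : F.IsHomogeneous n) {p v : V3}
    (hp : p 2 ≠ 0) (hv : VanishTo F p m) (h : BadDir (n + u) (X 2 ^ u * F) p m v) :
    BadDir n F p m v := by
  have h1 : ((n + u - m).factorial : ℂ) ≠ 0 := by exact_mod_cast Nat.factorial_ne_zero _
  have h2 : ((n - m).factorial : ℂ)⁻¹ ≠ 0 :=
    inv_ne_zero (by exact_mod_cast Nat.factorial_ne_zero _)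
  have key : ∀ A : R3, B (lin p ^ (n + u - m) * A) (X 2 ^ u * F) = 0 →
      B (lin p ^ (n - m) * A) F = 0 := by
    intro A hA
    rw [B_z_pow hm hF hv] at hA
    exact (mul_eq_zero.mp ((mul_eq_zero.mp ((mul_eq_zero.mp hA).resolve_left h1)).resolve_left
      (pow_ne_zero _ hp))).resolve_left h2
  exact ⟨key _ h.1, fun hm1 w => key _ (h.2 hm1 w)⟩

theorem sing_of_z_pow {u : ℕ} {F : R3} {n : ℕ} (hF : F.IsHomogeneous n) {q : V3} (hq : q 2 ≠ 0)
    (h : ∀ k, eval q (pderiv k (X 2 ^ u * F)) = 0) (h0 : 1 ≤ n + u) :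
    ∀ k, eval q (pderiv k F) = 0 := by
  have h1 : (X 2 ^ u * F : R3).IsHomogeneous (n + u) := by
    have h2 : (X 2 ^ u : R3).IsHomogeneous u := by
      have h3 := (isHomogeneous_X ℂ (2 : Fin 3)).pow u
      rwa [one_mul] at h3
    rw [add_comm]
    exact h2.mul hF
  have h2 := congrArg (eval q) h1.sum_X_mul_pderiv
  rw [map_sum, Finset.sum_eq_zero (fun k _ => by rw [map_mul, h k, mul_zero]), map_nsmul,
    map_mul, map_pow, eval_X, nsmul_eq_mul] at h2
  have h3 : ((n + u : ℕ) : ℂ) ≠ 0 := by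
    rw [Nat.cast_ne_zero]
    omega
  have h4 : eval q F = 0 :=
    (mul_eq_zero.mp ((mul_eq_zero.mp h2.symm).resolve_left h3)).resolve_left (pow_ne_zero _ hq)
  intro k
  have h5 := h k
  rw [pderiv_mul, map_add, map_mul, map_mul, h4, mul_zero, zero_add, map_pow, eval_X] at h5
  exact (mul_eq_zero.mp h5).resolve_left (pow_ne_zero _ hq)

end Pool.Agent.Work.MP_0421d9_ag.SM
end

section
/-!
Normal form of the limit of a form under `z ↦ τ z`.
-/

set_option linter.unusedSectionVars false
set_option linter.unusedVariables false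

namespace Pool.Agent.Work.MP_0421d9_ag.SM

open MvPolynomial Module

theorem L_zero_mul (ρ : Pl) {τ a b : ℂ} (hτ : ρ.L τ 0) {k : ℕ} (hk : k ≠ 0) (h : ρ.L a b) :
    ρ.L (τ ^ k * a) 0 := by
  have h1 := ρ.mul (ρ.pow hτ k) h
  rwa [zero_pow hk, zero_mul] at h1

theorem limit_form (ρ : Pl) {τ : ℂ} (hτ0 : τ ≠ 0) (hτ : ρ.L τ 0) {u : ℕ} {F : R3}
    (hF0 : F ≠ 0)
    (h1 : ∀ c Fb, ρ.LP (C c * F) Fb → Fb ≠ 0 → ∃ α, coeff α Fb ≠ 0 ∧ α 2 ≤ u)
    (h2 : ∀ c G, ρ.LP (C c * scz τ F) G → G ≠ 0 → ∃ α, coeff α G ≠ 0 ∧ u ≤ α 2) :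
    ∃ (c : ℂ) (Fb G : R3), c ≠ 0 ∧ ρ.LP (C c * F) Fb ∧ ρ.LP (C (c / τ ^ u) * scz τ F) G ∧
      Fb ≠ 0 ∧ (∀ α, coeff α Fb ≠ 0 → u ≤ α 2) ∧ (∀ α, coeff α G ≠ 0 → α 2 ≤ u) ∧
      (∀ α, α 2 = u → coeff α Fb = coeff α G) := by
  obtain ⟨c1, hc1, Fb, hFb, hLF⟩ := Pl.exists_scale_poly ρ hF0
  have hs0 : scz τ F ≠ 0 := by
    intro h
    apply hF0
    ext α
    have h3 := coeff_scz τ F α
    rw [h, coeff_zero] at h3
    rw [coeff_zero]
    exact ((mul_eq_zero.mp h3.symm).resolve_left (pow_ne_zero _ hτ0))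
  obtain ⟨c2, hc2, G0, hG0, hLG⟩ := Pl.exists_scale_poly ρ hs0
  obtain ⟨α1, hα1, he1⟩ := h1 c1 Fb hLF hFb
  obtain ⟨α2, hα2, he2⟩ := h2 c2 G0 hLG hG0
  have hF : ∀ α, ρ.L (c1 * coeff α F) (coeff α Fb) := fun α => by
    have := hLF α
    rwa [coeff_C_mul] at this
  have hG : ∀ α, ρ.L (c2 * (τ ^ α 2 * coeff α F)) (coeff α G0) := fun α => by
    have := hLG α
    rwa [coeff_C_mul, coeff_scz] at this
  have hf1 : coeff α1 F ≠ 0 := by
    intro h
    have h3 := hF α1
    rw [h, mul_zero] at h3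
    exact hα1 (ρ.fn h3 (Pl.zero ρ))
  have hf2 : coeff α2 F ≠ 0 := by
    intro h
    have h3 := hG α2
    rw [h, mul_zero, mul_zero] at h3
    exact hα2 (ρ.fn h3 (Pl.zero ρ))
  have hA : ρ.L (c2 * τ ^ α1 2 / c1) (coeff α1 G0 / coeff α1 Fb) := by
    have h3 := Pl.div ρ (hG α1) (hF α1) hα1
    have e : c2 * (τ ^ α1 2 * coeff α1 F) / (c1 * coeff α1 F) = c2 * τ ^ α1 2 / c1 := by
      field_simp
    rwa [e] at h3
  have hB : ρ.L (c1 / (c2 * τ ^ α2 2)) (coeff α2 Fb / coeff α2 G0) := by
    have h3 := Pl.div ρ (hF α2) (hG α2) hα2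
    have e : c1 * coeff α2 F / (c2 * (τ ^ α2 2 * coeff α2 F)) = c1 / (c2 * τ ^ α2 2) := by
      field_simp
    rwa [e] at h3
  set A := coeff α1 G0 / coeff α1 Fb with hAdef
  set B := coeff α2 Fb / coeff α2 G0 with hBdef
  have hAB := ρ.mul hA hB
  have hee : α1 2 = α2 2 := by
    by_contra hne
    have hlt : α1 2 < α2 2 := lt_of_le_of_ne (he1.trans he2) hne
    have h4 := L_zero_mul ρ hτ (k := α2 2 - α1 2) (by omega) hAB
    have e : τ ^ (α2 2 - α1 2) * (c2 * τ ^ α1 2 / c1 * (c1 / (c2 * τ ^ α2 2))) = 1 := by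
      have h5 : τ ^ (α2 2) = τ ^ (α2 2 - α1 2) * τ ^ (α1 2) := by
        rw [← pow_add]
        congr 1
        omega
      rw [h5]
      field_simp
    rw [e] at h4
    exact one_ne_zero (ρ.fn ρ.one h4)
  have heu1 : α1 2 = u := by omega
  have heu2 : α2 2 = u := by omega
  rw [heu1] at hA
  rw [heu2] at hB
  refine ⟨c1, Fb, C B * G0, hc1, hLF, ?_, hFb, ?_, ?_, ?_⟩
  · have h3 := Pl.LP.C_mul hLG hB
    have e : C (c1 / (c2 * τ ^ u)) * (C c2 * scz τ F) = C (c1 / τ ^ u) * scz τ F := by
      rw [← mul_assoc, ← C_mul]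
      congr 2
      field_simp
    rwa [e] at h3
  all_goals
    have hGB : ∀ α, ρ.L (c1 / τ ^ u * (τ ^ α 2 * coeff α F)) (coeff α (C B * G0)) := fun α => by
      rw [coeff_C_mul]
      have h3 := ρ.mul hB (hG α)
      have e : c1 / (c2 * τ ^ u) * (c2 * (τ ^ α 2 * coeff α F)) =
          c1 / τ ^ u * (τ ^ α 2 * coeff α F) := by
        field_simp
      rwa [e] at h3
  · intro α hα
    by_contra hlt
    push Not at hlt
    apply hα
    have h3 := L_zero_mul ρ hτ (k := u - α 2) (by omega) (hGB α)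
    have e : τ ^ (u - α 2) * (c1 / τ ^ u * (τ ^ α 2 * coeff α F)) = c1 * coeff α F := by
      have h5 : τ ^ u = τ ^ (u - α 2) * τ ^ (α 2) := by
        rw [← pow_add]
        congr 1
        omega
      rw [h5]
      field_simp
    rw [e] at h3
    exact ρ.fn (hF α) h3
  · intro α hα
    by_contra hlt
    push Not at hlt
    apply hα
    have h3 := L_zero_mul ρ hτ (k := α 2 - u) (by omega) (hF α)
    have e : τ ^ (α 2 - u) * (c1 * coeff α F) = c1 / τ ^ u * (τ ^ α 2 * coeff α F) := by
      have h5 : τ ^ α 2 = τ ^ (α 2 - u) * τ ^ u := by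
        rw [← pow_add]
        congr 1
        omega
      rw [h5]
      field_simp
    rw [e] at h3
    exact ρ.fn (hGB α) h3
  · intro α hα
    have h3 := hGB α
    have e : c1 / τ ^ u * (τ ^ α 2 * coeff α F) = c1 * coeff α F := by
      rw [hα]
      field_simp
    rw [e] at h3
    exact ρ.fn (hF α) h3

/-- the neck -/
theorem neck (ρ : Pl) {τ : ℂ} (hτ0 : τ ≠ 0) {u : ℕ} {F Fb G : R3} {c : ℂ}
    (h : ρ.LP (C c * F) Fb) (h' : ρ.LP (C (c / τ ^ u) * scz τ F) G) {b : ℂ} (hb0 : b ≠ 0)
    (hb : ρ.L b 0) (hb' : ρ.L (τ / b) 0) {N : R3}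
    (hN : ∀ α, coeff α N = if α 2 = u then coeff α Fb else 0) :
    ρ.LP (C (c / b ^ u) * scz b F) N := by
  intro α
  have hF : ρ.L (c * coeff α F) (coeff α Fb) := by
    have := h α
    rwa [coeff_C_mul] at this
  have hG : ρ.L (c / τ ^ u * (τ ^ α 2 * coeff α F)) (coeff α G) := by
    have := h' α
    rwa [coeff_C_mul, coeff_scz] at this
  rw [coeff_C_mul, coeff_scz, hN α]
  rcases lt_trichotomy (α 2) u with hlt | heq | hgt
  · rw [if_neg (by omega)]
    have h3 := L_zero_mul ρ hb' (k := u - α 2) (by omega) hG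
    have e : (τ / b) ^ (u - α 2) * (c / τ ^ u * (τ ^ α 2 * coeff α F)) =
        c / b ^ u * (b ^ α 2 * coeff α F) := by
      have h5 : τ ^ u = τ ^ (u - α 2) * τ ^ (α 2) := by
        rw [← pow_add]
        congr 1
        omega
      have h6 : b ^ u = b ^ (u - α 2) * b ^ (α 2) := by
        rw [← pow_add]
        congr 1
        omega
      rw [h5, h6, div_pow]
      field_simp
    rwa [e] at h3
  · rw [if_pos heq, heq]
    have e : c / b ^ u * (b ^ u * coeff α F) = c * coeff α F := by
      field_simp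
    rw [e]
    exact hF
  · rw [if_neg (by omega)]
    have h3 := L_zero_mul ρ hb (k := α 2 - u) (by omega) hF
    have e : b ^ (α 2 - u) * (c * coeff α F) = c / b ^ u * (b ^ α 2 * coeff α F) := by
      have h5 : b ^ α 2 = b ^ (α 2 - u) * b ^ u := by
        rw [← pow_add]
        congr 1
        omega
      rw [h5]
      field_simp
    rwa [e] at h3

end Pool.Agent.Work.MP_0421d9_ag.SM
end

section
/-!
Flags on the line `z = 0`: the chain argument.
-/

set_option linter.unusedSectionVars false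
set_option linter.unusedVariables false

namespace Pool.Agent.Work.MP_0421d9_ag.SM

open MvPolynomial Module

theorem cD_pderiv_iterate (D : Derivation ℚ ℂ ℂ) (k : Fin 3) (i : ℕ) (H : R3) :
    cD D ((pderiv k)^[i] H) = (pderiv k)^[i] (cD D H) := by
  induction i generalizing H with
  | zero => rfl
  | succ i ih => rw [Function.iterate_succ_apply, ih, cD_pderiv, Function.iterate_succ_apply]

theorem D_fder (D : Derivation ℚ ℂ ℂ) (c : ℂ) (i : ℕ) (H : R3) :
    D (fder c i H) = fder c i (cD D H) + D c * fder c (i + 1) H := by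
  unfold fder
  rw [D_eval, cD_pderiv_iterate, Fin.sum_univ_three, Function.iterate_succ_apply']
  simp [fl]

theorem fder_add (c : ℂ) (i : ℕ) (H H' : R3) : fder c i (H + H') = fder c i H + fder c i H' := by
  unfold fder
  rw [iterate_map_add, map_add]

theorem pderiv_iterate_smul (k : Fin 3) (i : ℕ) (a : ℂ) (H : R3) :
    (pderiv k)^[i] (a • H) = a • (pderiv k)^[i] H := by
  induction i generalizing H with
  | zero => rfl
  | succ i ih => rw [Function.iterate_succ_apply, Derivation.map_smul, ih,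
      Function.iterate_succ_apply]

theorem fder_smul (c : ℂ) (i : ℕ) (a : ℂ) (H : R3) : fder c i (a • H) = a * fder c i H := by
  unfold fder
  rw [pderiv_iterate_smul, smul_eval]

/-- the functional `fder c i` -/
noncomputable def fderL (c : ℂ) (i : ℕ) : R3 →ₗ[ℂ] ℂ where
  toFun := fder c i
  map_add' := fder_add c i
  map_smul' a H := fder_smul c i a H

@[simp] theorem fderL_apply (c : ℂ) (i : ℕ) (H : R3) : fderL c i H = fder c i H := rfl

/-- contact orders along the line -/
noncomputable def FV {a : ℕ} (V : Submodule ℂ R3) (g : Fin a → ℂ) (c : Fin a → ℕ) :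
    Submodule ℂ R3 where
  carrier := {H | H ∈ V ∧ ∀ j, ∀ i < c j, fder (g j) i H = 0}
  zero_mem' := ⟨zero_mem _, fun j i _ => by simp [fder]⟩
  add_mem' := fun {x y} hx hy => ⟨add_mem hx.1 hy.1, fun j i h => by
    rw [fder_add, hx.2 j i h, hy.2 j i h, add_zero]⟩
  smul_mem' := fun r x hx => ⟨Submodule.smul_mem _ _ hx.1, fun j i h => by
    rw [fder_smul, hx.2 j i h, mul_zero]⟩

theorem mem_FV {a : ℕ} {V : Submodule ℂ R3} {g : Fin a → ℂ} {c : Fin a → ℕ} {H : R3} :
    H ∈ FV V g c ↔ H ∈ V ∧ ∀ j, ∀ i < c j, fder (g j) i H = 0 := Iff.rfl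

theorem FV_le {a : ℕ} (V : Submodule ℂ R3) (g : Fin a → ℂ) (c : Fin a → ℕ) : FV V g c ≤ V :=
  fun _ h => h.1

theorem finite_of_le_Rd {n : ℕ} {V : Submodule ℂ R3} (hV : V ≤ Rd n) : Module.Finite ℂ V :=
  Submodule.finiteDimensional_of_le hV

/-- a form of degree `n` all of whose derivatives along the line at a point vanish restricts
to zero -/
theorem res_eq_zero_of_fder {n : ℕ} {H : R3} (hH : H ∈ Rd n) {c : ℂ} (h : ∀ i, fder c i H = 0) :
    res H = 0 := by
  apply eq_zero_of_deh (n := n) (res_hom hH)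
  by_contra hne
  have h1 := (fder_eq_zero_iff c ((deh (res H)).natDegree + 1) H).mp (fun i _ => h i)
  have h2 := Polynomial.natDegree_le_of_dvd h1 hne
  rw [Polynomial.natDegree_pow, Polynomial.natDegree_X_sub_C] at h2
  omega

theorem finrank_FV_aux {a n : ℕ} {V : Submodule ℂ R3} (hV : V ≤ Rd n) {g : Fin a → ℂ}
    {D : Fin a → Derivation ℚ ℂ ℂ} (hD : ∀ j k, D j (g k) = if j = k then 1 else 0)
    (hst : ∀ j, ∀ H ∈ V, cD (D j) H ∈ V) (hinj : ∀ H ∈ V, res H = 0 → H = 0) (N : ℕ) :
    ∀ c : Fin a → ℕ, ∑ j, c j = N → finrank ℂ (FV V g c) = finrank ℂ V - N := by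
  classical
  have hfin := finite_of_le_Rd hV
  induction N with
  | zero =>
    intro c hc
    have hc0 : ∀ j, c j = 0 := fun j => by
      have := Finset.sum_eq_zero_iff.mp hc j (Finset.mem_univ j)
      exact this
    have h1 : FV V g c = V := by
      apply le_antisymm (FV_le V g c)
      intro H hH
      refine ⟨hH, fun j i hi => ?_⟩
      rw [hc0 j] at hi
      exact absurd hi (Nat.not_lt_zero i)
    rw [h1, Nat.sub_zero]
  | succ N ih =>
    intro c hc
    obtain ⟨j, hj⟩ : ∃ j, 0 < c j := by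
      by_contra hcon
      push Not at hcon
      have : ∑ j, c j = 0 := Finset.sum_eq_zero (fun j _ => Nat.le_zero.mp (hcon j))
      omega
    set c' : Fin a → ℕ := Function.update c j (c j - 1) with hc'
    have hc'j : c' j = c j - 1 := by rw [hc', Function.update_self]
    have hc'k : ∀ k, k ≠ j → c' k = c k := fun k hk => by
      rw [hc', Function.update_of_ne hk]
    have hsum : ∑ k, c' k = N := by
      have h1 : ∑ k, c k = c j + ∑ k ∈ Finset.univ.erase j, c k :=
        (Finset.add_sum_erase _ _ (Finset.mem_univ j)).symm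
      have h2 : ∑ k, c' k = c' j + ∑ k ∈ Finset.univ.erase j, c' k :=
        (Finset.add_sum_erase _ _ (Finset.mem_univ j)).symm
      have h3 : ∑ k ∈ Finset.univ.erase j, c' k = ∑ k ∈ Finset.univ.erase j, c k :=
        Finset.sum_congr rfl (fun k hk => hc'k k (Finset.ne_of_mem_erase hk))
      rw [hc'j, h3] at h2
      omega
    have hW := ih c' hsum
    set W := FV V g c' with hWdef
    have hWle : W ≤ V := FV_le V g c'
    have hfinW : Module.Finite ℂ W := Submodule.finiteDimensional_of_le hWle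
    have hW' : FV V g c = W ⊓ LinearMap.ker (fderL (g j) (c' j)) := by
      ext H
      constructor
      · rintro ⟨h1, h2⟩
        refine ⟨⟨h1, fun k i hi => ?_⟩, ?_⟩
        · by_cases hk : k = j
          · subst hk
            exact h2 k i (by omega)
          · rw [hc'k k hk] at hi
            exact h2 k i hi
        · exact LinearMap.mem_ker.mpr (h2 j _ (by omega))
      · rintro ⟨⟨h1, h2⟩, h3⟩
        rw [SetLike.mem_coe, LinearMap.mem_ker, fderL_apply] at h3
        refine ⟨h1, fun k i hi => ?_⟩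
        by_cases hk : k = j
        · subst hk
          by_cases hi' : i = c' k
          · rw [hi']
            exact h3
          · exact h2 k i (by omega)
        · apply h2 k i
          rw [hc'k k hk]
          exact hi
    rw [hW']
    by_cases hvan : ∀ H ∈ W, fder (g j) (c' j) H = 0
    · -- the functional vanishes on `W`: then `W = 0`
      have hstW : ∀ H ∈ W, cD (D j) H ∈ W := by
        intro H hH
        refine ⟨hst j H hH.1, fun k i hi => ?_⟩
        have h1 := D_fder (D j) (g k) i H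
        rw [hH.2 k i hi, map_zero, hD] at h1
        by_cases hk : j = k
        · subst hk
          rw [if_pos rfl, one_mul] at h1
          have h2 : fder (g j) (i + 1) H = 0 := by
            by_cases hi' : i + 1 = c' j
            · rw [hi']
              exact hvan H hH
            · exact hH.2 j (i + 1) (by omega)
          rw [h2, add_zero] at h1
          exact h1.symm
        · rw [if_neg hk, zero_mul, add_zero] at h1
          exact h1.symm
      have hall : ∀ i, ∀ H ∈ W, fder (g j) i H = 0 := by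
        intro i
        induction i with
        | zero =>
          intro H hH
          by_cases h0 : c' j = 0
          · rw [← h0]
            exact hvan H hH
          · exact hH.2 j 0 (by omega)
        | succ i ihi =>
          intro H hH
          have h1 := D_fder (D j) (g j) i H
          rw [ihi H hH, map_zero, ihi _ (hstW H hH), hD, if_pos rfl, one_mul, zero_add] at h1
          exact h1.symm
      have hbot : W = ⊥ := by
        rw [eq_bot_iff]
        intro H hH
        rw [Submodule.mem_bot]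
        exact hinj H hH.1 (res_eq_zero_of_fder (hV hH.1) (fun i => hall i H hH))
      rw [hbot, bot_inf_eq, finrank_bot]
      rw [hbot, finrank_bot] at hW
      omega
    · push Not at hvan
      obtain ⟨f, hf, hfne⟩ := hvan
      set L : W →ₗ[ℂ] ℂ := (fderL (g j) (c' j)).domRestrict W with hL
      have h1 := LinearMap.finrank_range_add_finrank_ker L
      have h2 : LinearMap.range L = ⊤ := by
        apply LinearMap.range_eq_top.mpr
        intro r
        refine ⟨(r / fder (g j) (c' j) f) • ⟨f, hf⟩, ?_⟩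
        rw [map_smul, hL]
        change _ • fder (g j) (c' j) f = r
        rw [smul_eq_mul, div_mul_cancel₀ _ hfne]
      have h3 : finrank ℂ (LinearMap.ker L) =
          finrank ℂ ↥(W ⊓ LinearMap.ker (fderL (g j) (c' j))) := by
        have h4 : LinearMap.ker L = (W ⊓ LinearMap.ker (fderL (g j) (c' j))).comap W.subtype := by
          ext x
          simp [hL]
        rw [h4]
        exact (Submodule.comapSubtypeEquivOfLe inf_le_left).finrank_eq
      rw [h2, finrank_top, Module.finrank_self, h3] at h1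
      omega

theorem finrank_FV {a n : ℕ} {V : Submodule ℂ R3} (hV : V ≤ Rd n) {g : Fin a → ℂ}
    {D : Fin a → Derivation ℚ ℂ ℂ} (hD : ∀ j k, D j (g k) = if j = k then 1 else 0)
    (hst : ∀ j, ∀ H ∈ V, cD (D j) H ∈ V) (hinj : ∀ H ∈ V, res H = 0 → H = 0) (c : Fin a → ℕ) :
    finrank ℂ (FV V g c) = finrank ℂ V - ∑ j, c j :=
  finrank_FV_aux hV hD hst hinj _ c rfl

section chain

variable {a n u : ℕ} {V : Submodule ℂ R3} {g : Fin a → ℂ} {D : Fin a → Derivation ℚ ℂ ℂ} {F : R3}

/-- data: `V` of dimension `u a + 1`, `F` its member with contact order `u` at all `g j` -/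
structure Flags (n u : ℕ) (V : Submodule ℂ R3) (g : Fin a → ℂ) (D : Fin a → Derivation ℚ ℂ ℂ)
    (F : R3) : Prop where
  hV : V ≤ Rd n
  hu : 1 ≤ u
  hD : ∀ j k, D j (g k) = if j = k then 1 else 0
  hst : ∀ j, ∀ H ∈ V, cD (D j) H ∈ V
  hinj : ∀ H ∈ V, res H = 0 → H = 0
  hdim : finrank ℂ V = u * a + 1
  hF : F ∈ V
  hF0 : F ≠ 0
  hord : ∀ j, ∀ i < u, fder (g j) i F = 0

theorem Flags.finrank_one (S : Flags n u V g D F) : finrank ℂ (FV V g (fun _ => u)) = 1 := by
  rw [finrank_FV S.hV S.hD S.hst S.hinj, S.hdim, Finset.sum_const, Finset.card_univ,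
    Fintype.card_fin, smul_eq_mul, mul_comm a u]
  omega

theorem Flags.unique (S : Flags n u V g D F) {F' : R3} (h : F' ∈ V)
    (h' : ∀ j, ∀ i < u, fder (g j) i F' = 0) : ∃ c : ℂ, F' = C c * F := by
  have h1 := S.finrank_one
  have hFm : F ∈ FV V g (fun _ => u) := ⟨S.hF, S.hord⟩
  have hne : (⟨F, hFm⟩ : FV V g (fun _ => u)) ≠ 0 := by
    intro h0
    exact S.hF0 (congrArg Subtype.val h0)
  obtain ⟨c, hc⟩ := (finrank_eq_one_iff_of_nonzero' _ hne).mp h1 ⟨F', ⟨h, h'⟩⟩
  refine ⟨c, ?_⟩
  have h2 := congrArg Subtype.val hc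
  change c • F = F' at h2
  rw [← h2, smul_eq_C_mul]

theorem Flags.exact (S : Flags n u V g D F) (j : Fin a) : fder (g j) u F ≠ 0 := by
  classical
  intro h0
  set c : Fin a → ℕ := Function.update (fun _ => u) j (u + 1) with hc
  have hsum : ∑ k, c k = u * a + 1 := by
    have h1 : ∑ k, c k = c j + ∑ k ∈ Finset.univ.erase j, c k :=
      (Finset.add_sum_erase _ _ (Finset.mem_univ j)).symm
    have h3 : ∑ k ∈ Finset.univ.erase j, c k = ∑ k ∈ Finset.univ.erase j, u :=
      Finset.sum_congr rfl (fun k hk => by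
        rw [hc, Function.update_of_ne (Finset.ne_of_mem_erase hk)])
    have h4 : c j = u + 1 := by rw [hc, Function.update_self]
    have h5 : ∑ _k : Fin a, u = u + ∑ k ∈ Finset.univ.erase j, u :=
      (Finset.add_sum_erase Finset.univ (fun _ : Fin a => u) (Finset.mem_univ j)).symm
    rw [Finset.sum_const, Finset.card_univ, Fintype.card_fin, smul_eq_mul] at h5
    rw [h1, h3, h4, mul_comm u a, h5]
    ring
  have h1 := finrank_FV S.hV S.hD S.hst S.hinj c
  rw [hsum, S.hdim, Nat.sub_self] at h1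
  have hfin := finite_of_le_Rd S.hV
  have hfin' : Module.Finite ℂ (FV V g c) := Submodule.finiteDimensional_of_le (FV_le V g c)
  have hbot : FV V g c = ⊥ := Submodule.finrank_eq_zero.mp h1
  have hFm : F ∈ FV V g c := by
    refine ⟨S.hF, fun k i hi => ?_⟩
    by_cases hk : k = j
    · subst hk
      rw [hc, Function.update_self] at hi
      by_cases hi' : i = u
      · rw [hi']
        exact h0
      · exact S.hord k i (by omega)
    · rw [hc, Function.update_of_ne hk] at hi
      exact S.hord k i hi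
  rw [hbot, Submodule.mem_bot] at hFm
  exact S.hF0 hFm

/-- derivatives of the functionals at `F` -/
theorem Flags.fder_cD (S : Flags n u V g D F) (j k : Fin a) {i : ℕ} (hi : i < u) :
    fder (g k) i (cD (D j) F) = if j = k ∧ i + 1 = u then - fder (g j) u F else 0 := by
  have h1 := D_fder (D j) (g k) i F
  rw [S.hord k i hi, map_zero, S.hD] at h1
  by_cases hk : j = k
  · subst hk
    rw [if_pos rfl, one_mul] at h1
    by_cases hi' : i + 1 = u
    · rw [if_pos ⟨rfl, hi'⟩]
      rw [hi'] at h1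
      linear_combination -h1
    · rw [if_neg (fun h => hi' h.2)]
      rw [S.hord j (i + 1) (by omega), add_zero] at h1
      exact h1.symm
  · rw [if_neg (fun h => hk h.1)]
    rw [if_neg hk, zero_mul, add_zero] at h1
    exact h1.symm

/-- functionals killing `F` and its derivatives -/
theorem Flags.repr (S : Flags n u V g D F) (ξ : R3 →ₗ[ℂ] ℂ) (h0 : ξ F = 0)
    (J : Finset (Fin a)) (hJ : ∀ j ∈ J, ξ (cD (D j) F) = 0) :
    ∃ c : Fin a → ℕ → ℂ, (∀ H ∈ V, ξ H = ∑ j, ∑ i ∈ Finset.range u, c j i * fder (g j) i H) ∧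
      ∀ j ∈ J, c j (u - 1) = 0 := by
  classical
  set L : Fin a × Fin u → (V →ₗ[ℂ] ℂ) := fun x => (fderL (g x.1) x.2).domRestrict V with hL
  have hker : ⨅ x, LinearMap.ker (L x) ≤ LinearMap.ker (ξ.domRestrict V) := by
    intro x hx
    rw [Submodule.mem_iInf] at hx
    obtain ⟨c, hc⟩ := S.unique (F' := (x : R3)) x.2 (fun j i hi => hx (j, ⟨i, hi⟩))
    rw [LinearMap.mem_ker, LinearMap.domRestrict_apply, hc, ← smul_eq_C_mul, map_smul, h0,
      smul_zero]
  have h1 := mem_span_of_iInf_ker_le_ker hker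
  obtain ⟨c', hc'⟩ := (Submodule.mem_span_range_iff_exists_fun ℂ).mp h1
  have hrep : ∀ H ∈ V, ξ H = ∑ j, ∑ i ∈ Finset.range u,
      (if h : i < u then c' (j, ⟨i, h⟩) else 0) * fder (g j) i H := by
    intro H hH
    have h2 := LinearMap.congr_fun hc' ⟨H, hH⟩
    rw [LinearMap.domRestrict_apply] at h2
    rw [← h2, LinearMap.sum_apply, Fintype.sum_prod_type]
    refine Finset.sum_congr rfl (fun j _ => ?_)
    rw [Finset.sum_range]
    refine Finset.sum_congr rfl (fun i _ => ?_)
    rw [dif_pos i.2]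
    rfl
  refine ⟨fun j i => if h : i < u then c' (j, ⟨i, h⟩) else 0, hrep, fun j hj => ?_⟩
  have hu := S.hu
  have h2 := hrep _ (S.hst j F S.hF)
  rw [hJ j hj] at h2
  have h3 : ∑ k, ∑ i ∈ Finset.range u,
      (if h : i < u then c' (k, ⟨i, h⟩) else 0) * fder (g k) i (cD (D j) F) =
      (if h : u - 1 < u then c' (j, ⟨u - 1, h⟩) else 0) * (- fder (g j) u F) := by
    rw [Finset.sum_eq_single j]
    · rw [Finset.sum_eq_single (u - 1)]
      · rw [S.fder_cD j j (by omega), if_pos ⟨rfl, by omega⟩]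
      · intro i hi hi'
        rw [S.fder_cD j j (Finset.mem_range.mp hi), if_neg (fun h => hi' (by omega)), mul_zero]
      · intro h
        exact absurd (Finset.mem_range.mpr (by omega)) h
    · intro k _ hk
      apply Finset.sum_eq_zero
      intro i hi
      rw [S.fder_cD j k (Finset.mem_range.mp hi), if_neg (fun h => hk h.1.symm), mul_zero]
    · intro h
      exact absurd (Finset.mem_univ j) h
  rw [h3] at h2
  rcases mul_eq_zero.mp h2.symm with h4 | h4
  · exact h4
  · exact absurd (neg_eq_zero.mp h4) (S.exact j)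

/-- the functionals `fder (g j) i`, `i < u`, are independent on `V` -/
theorem Flags.indep (S : Flags n u V g D F) (d : Fin a → ℕ → ℂ)
    (h : ∀ H ∈ V, ∑ j, ∑ i ∈ Finset.range u, d j i * fder (g j) i H = 0) :
    ∀ j, ∀ i < u, d j i = 0 := by
  classical
  have hfin := finite_of_le_Rd S.hV
  set L : V →ₗ[ℂ] (Fin a × Fin u → ℂ) :=
    LinearMap.pi (fun x => (fderL (g x.1) x.2).domRestrict V) with hL
  have hLa : ∀ (H : V) (x : Fin a × Fin u), L H x = fder (g x.1) x.2 (H : R3) := fun H x => rfl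
  have h1 := LinearMap.finrank_range_add_finrank_ker L
  have h2 : finrank ℂ (LinearMap.ker L) = 1 := by
    have h4 : LinearMap.ker L = (FV V g (fun _ => u)).comap V.subtype := by
      ext x
      rw [LinearMap.mem_ker, Submodule.mem_comap, Submodule.subtype_apply, mem_FV]
      constructor
      · intro h5
        refine ⟨x.2, fun j i hi => ?_⟩
        rw [← hLa x (j, ⟨i, hi⟩), h5]
        rfl
      · rintro ⟨-, h5⟩
        ext y
        rw [hLa]
        exact h5 y.1 y.2 y.2.2
    rw [h4]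
    exact (Submodule.comapSubtypeEquivOfLe (FV_le V g _)).finrank_eq.trans S.finrank_one
  have h3 : LinearMap.range L = ⊤ := by
    apply Submodule.eq_top_of_finrank_eq
    rw [Module.finrank_fintype_fun_eq_card, Fintype.card_prod, Fintype.card_fin, Fintype.card_fin]
    rw [h2, S.hdim] at h1
    rw [mul_comm a u]
    omega
  intro j i hi
  obtain ⟨H, hH⟩ := LinearMap.range_eq_top.mp h3 (Pi.single (j, ⟨i, hi⟩) 1)
  have h4 := h H H.2
  rw [Finset.sum_eq_single j] at h4
  · rw [Finset.sum_eq_single i] at h4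
    · have h5 := hLa H (j, ⟨i, hi⟩)
      rw [hH, Pi.single_eq_same] at h5
      rw [← h5, mul_one] at h4
      exact h4
    · intro i' hi' hne
      have h5 := hLa H (j, ⟨i', Finset.mem_range.mp hi'⟩)
      rw [hH, Pi.single_eq_of_ne (fun h6 => hne (by
        have h7 := (Prod.mk.inj h6).2
        exact congrArg Fin.val h7))] at h5
      rw [← h5, mul_zero]
    · intro h5
      exact absurd (Finset.mem_range.mpr hi) h5
  · intro k _ hk
    apply Finset.sum_eq_zero
    intro i' hi'
    have h5 := hLa H (k, ⟨i', Finset.mem_range.mp hi'⟩)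
    rw [hH, Pi.single_eq_of_ne (fun h6 => hk (Prod.mk.inj h6).1)] at h5
    rw [← h5, mul_zero]
  · intro h5
    exact absurd (Finset.mem_univ j) h5

/-- the value of a combination of the derivations at a coordinate -/
theorem comb_apply (hD : ∀ j k, D j (g k) = if j = k then 1 else 0) (α : Fin a → ℂ) (k : Fin a) :
    (∑ j, α j • D j) (g k) = α k := by
  classical
  have h1 := cD_sum_left (σ := Fin 3) Finset.univ (fun j => α j • D j) (C (g k))
  rw [cD_C] at h1
  have h2 : ∀ j ∈ Finset.univ, cD (α j • D j) (C (g k) : R3) =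
      C (α j * if j = k then 1 else 0) := by
    intro j _
    rw [cD_smul_left, cD_C, hD, smul_eq_C_mul, ← C_mul]
  rw [Finset.sum_congr rfl h2, ← map_sum] at h1
  rw [C_injective _ _ h1]
  simp

theorem Flags.comb_mem (S : Flags n u V g D F) (α : Fin a → ℂ) {H : R3} (hH : H ∈ V) :
    cD (∑ j, α j • D j) H ∈ V := by
  rw [cD_sum_left]
  apply Submodule.sum_mem
  intro j _
  rw [cD_smul_left]
  exact Submodule.smul_mem _ _ (S.hst j H hH)

/-- the chain lemma -/
theorem Flags.kill (S : Flags n u V g D F) (ξ : R3 →ₗ[ℂ] ℂ) {c : Fin a → ℕ → ℂ}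
    (hc : ∀ H ∈ V, ξ H = ∑ j, ∑ i ∈ Finset.range u, c j i * fder (g j) i H)
    (α : Fin a → ℂ) (κ : ℂ)
    (hE : ∀ H ∈ V, (∑ j, α j • D j) (ξ H) = ξ (cD (∑ j, α j • D j) H) + κ * ξ H)
    (htop : ∀ j, α j ≠ 0 → c j (u - 1) = 0) : ∀ j, α j ≠ 0 → ∀ i < u, c j i = 0 := by
  classical
  have hu := S.hu
  set E : Derivation ℚ ℂ ℂ := ∑ j, α j • D j with hEdef
  have hEg : ∀ k, E (g k) = α k := fun k => comb_apply S.hD α k
  have key : ∀ H ∈ V, ∑ j, ∑ i ∈ Finset.range u,
      (E (c j i) - κ * c j i + α j * (if i = 0 then 0 else c j (i - 1))) * fder (g j) i H = 0 := by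
    intro H hH
    have h1 := hE H hH
    rw [hc H hH, hc _ (S.comb_mem α hH), map_sum, Finset.mul_sum, ← Finset.sum_add_distrib] at h1
    rw [← sub_eq_zero, ← Finset.sum_sub_distrib] at h1
    refine Eq.trans ?_ h1
    refine Finset.sum_congr rfl (fun j _ => ?_)
    rw [map_sum, Finset.mul_sum, ← Finset.sum_add_distrib, ← Finset.sum_sub_distrib]
    have h2 : ∀ i ∈ Finset.range u, E (c j i * fder (g j) i H) -
        (c j i * fder (g j) i (cD E H) + κ * (c j i * fder (g j) i H)) =
        (E (c j i) - κ * c j i) * fder (g j) i H + α j * (c j i * fder (g j) (i + 1) H) := by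
      intro i _
      rw [Derivation.leibniz, D_fder, hEg, smul_eq_mul, smul_eq_mul]
      ring
    rw [Finset.sum_congr rfl h2, Finset.sum_add_distrib]
    have h3 : ∀ i ∈ Finset.range u,
        (E (c j i) - κ * c j i + α j * (if i = 0 then 0 else c j (i - 1))) * fder (g j) i H =
        (E (c j i) - κ * c j i) * fder (g j) i H +
          α j * ((if i = 0 then 0 else c j (i - 1)) * fder (g j) i H) := fun i _ => by ring
    rw [Finset.sum_congr rfl h3, Finset.sum_add_distrib]
    congr 1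
    rw [← Finset.mul_sum, ← Finset.mul_sum]
    obtain ⟨w, rfl⟩ : ∃ w, u = w + 1 := ⟨u - 1, by omega⟩
    rw [Finset.sum_range_succ', Finset.sum_range_succ, mul_add, mul_add]
    simp only [Nat.add_sub_cancel, Nat.succ_ne_zero, if_false, if_true, zero_mul, mul_zero,
      add_zero]
    by_cases hα : α j = 0
    · rw [hα]
      ring
    · have h4 := htop j hα
      rw [Nat.add_sub_cancel] at h4
      rw [h4, zero_mul, mul_zero, add_zero]
  have hz := S.indep _ key
  intro j hα
  have hdown : ∀ m < u, c j (u - 1 - m) = 0 := by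
    intro m
    induction m with
    | zero =>
      intro _
      rw [Nat.sub_zero]
      exact htop j hα
    | succ m ih =>
      intro hm
      have h1 := ih (by omega)
      have h2 := hz j (u - 1 - m) (by omega)
      rw [h1, map_zero, mul_zero, sub_zero, zero_add, if_neg (by omega)] at h2
      rcases mul_eq_zero.mp h2 with h3 | h3
      · exact absurd h3 hα
      · rwa [(by omega : u - 1 - m - 1 = u - 1 - (m + 1))] at h3
  intro i hi
  have h1 := hdown (u - 1 - i) (by omega)
  rwa [(by omega : u - 1 - (u - 1 - i) = i)] at h1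

/-- conclusion for functionals which are fixed by all derivations but one -/
theorem Flags.one (S : Flags n u V g D F) (ξ : R3 →ₗ[ℂ] ℂ) (h0 : ξ F = 0) (j₀ : Fin a)
    (h1 : ∀ j, j ≠ j₀ → ξ (cD (D j) F) = 0)
    (hE : ∀ j, j ≠ j₀ → ∀ H ∈ V, D j (ξ H) = ξ (cD (D j) H)) :
    ∀ H ∈ V, (∀ i < u, fder (g j₀) i H = 0) → ξ H = 0 := by
  classical
  obtain ⟨c, hc, hc'⟩ := S.repr ξ h0 (Finset.univ.erase j₀)
    (fun j hj => h1 j (Finset.ne_of_mem_erase hj))
  intro H hH hH0
  rw [hc H hH]
  apply Finset.sum_eq_zero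
  intro j _
  apply Finset.sum_eq_zero
  intro i hi
  rw [Finset.mem_range] at hi
  by_cases hj : j = j₀
  · rw [hj, hH0 i hi, mul_zero]
  · have hsum : (∑ k, (Pi.single j 1 : Fin a → ℂ) k • D k) = D j := by
      rw [Finset.sum_eq_single j]
      · rw [Pi.single_eq_same, one_smul]
      · intro k _ hk
        rw [Pi.single_eq_of_ne hk, zero_smul]
      · intro h
        exact absurd (Finset.mem_univ j) h
    have h2 := S.kill ξ hc (Pi.single j 1) 0 (by
      intro H' hH'
      rw [hsum, zero_mul, add_zero]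
      exact hE j hj H' hH') (by
      intro k hk
      by_cases hkj : k = j
      · rw [hkj]
        exact hc' j (Finset.mem_erase.mpr ⟨hj, Finset.mem_univ j⟩)
      · rw [Pi.single_eq_of_ne hkj] at hk
        exact absurd rfl hk) j (by rw [Pi.single_eq_same]; exact one_ne_zero) i hi
    rw [h2, zero_mul]

/-- conclusion for functionals which can be stopped by a combination of any three flags -/
theorem Flags.two (S : Flags n u V g D F) (ha : 3 ≤ a) (ξ : R3 →ₗ[ℂ] ℂ) (h0 : ξ F = 0)
    (h1 : ∀ j, ξ (cD (D j) F) = 0)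
    (hmove : ∀ J : Finset (Fin a), J.card = 3 → ∃ (α : Fin a → ℂ) (κ : ℂ),
      (∃ j ∈ J, α j ≠ 0) ∧ (∀ j ∉ J, α j = 0) ∧
      ∀ H ∈ V, (∑ j, α j • D j) (ξ H) = ξ (cD (∑ j, α j • D j) H) + κ * ξ H) :
    ∃ j₁ j₂ : Fin a, j₁ ≠ j₂ ∧ ∀ H ∈ V, (∀ i < u - 1, fder (g j₁) i H = 0) →
      (∀ i < u - 1, fder (g j₂) i H = 0) → ξ H = 0 := by
  classical
  obtain ⟨c, hc, hc'⟩ := S.repr ξ h0 Finset.univ (fun j _ => h1 j)
  set T : Finset (Fin a) := Finset.univ.filter (fun j => ∃ i < u, c j i ≠ 0) with hT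
  have hcard : T.card ≤ 2 := by
    by_contra hcon
    push Not at hcon
    obtain ⟨J, hJT, hJ⟩ := Finset.exists_subset_card_eq (s := T) (n := 3) (by omega)
    obtain ⟨α, κ, ⟨j, hj, hαj⟩, -, hE⟩ := hmove J hJ
    have h2 := S.kill ξ hc α κ hE (fun k _ => hc' k (Finset.mem_univ k)) j hαj
    obtain ⟨i, hi, hne⟩ := (Finset.mem_filter.mp (hJT hj)).2
    exact hne (h2 i hi)
  obtain ⟨T', hTT', -, hT'⟩ := Finset.exists_subsuperset_card_eq (Finset.subset_univ T) hcard
    (by rw [Finset.card_univ, Fintype.card_fin]; omega)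
  obtain ⟨j₁, j₂, hne, hT2⟩ := Finset.card_eq_two.mp hT'
  refine ⟨j₁, j₂, hne, fun H hH hH1 hH2 => ?_⟩
  rw [hc H hH]
  apply Finset.sum_eq_zero
  intro j _
  apply Finset.sum_eq_zero
  intro i hi
  rw [Finset.mem_range] at hi
  by_cases hjT : j ∈ T'
  · by_cases hi' : i = u - 1
    · rw [hi', hc' j (Finset.mem_univ j), zero_mul]
    · rw [hT2, Finset.mem_insert, Finset.mem_singleton] at hjT
      rcases hjT with h2 | h2
      · rw [h2, hH1 i (by omega), mul_zero]
      · rw [h2, hH2 i (by omega), mul_zero]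
  · have h2 : c j i = 0 := by
      by_contra hne'
      exact hjT (hTT' (Finset.mem_filter.mpr ⟨Finset.mem_univ j, i, hi, hne'⟩))
    rw [h2, zero_mul]

end chain

end Pool.Agent.Work.MP_0421d9_ag.SM
end

section
/-!
The strip: structure of the forms vanishing at the points of the strip.
-/

set_option linter.unusedSectionVars false
set_option linter.unusedVariables false

namespace Pool.Agent.Work.MP_0421d9_ag.SM

open MvPolynomial Module

namespace Str

/-- scaling of a form -/
theorem aeval_smul_form {σ A : Type} [Fintype σ] [CommRing A] [Algebra ℂ A]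
    {G : MvPolynomial σ ℂ} {D : ℕ} (hG : G.IsHomogeneous D) (c : A) (g : σ → A) :
    aeval (fun i => c * g i) G = c ^ D * aeval g G := by
  rw [G.as_sum, map_sum, map_sum, Finset.mul_sum]
  refine Finset.sum_congr rfl fun α hα => ?_
  rw [aeval_monomial, aeval_monomial, Finsupp.prod_fintype _ _ (fun i => pow_zero _),
    Finsupp.prod_fintype _ _ (fun i => pow_zero _)]
  simp only [mul_pow, Finset.prod_mul_distrib, Finset.prod_pow_eq_pow_sum]
  have h1 : ∑ i, α i = D := by
    have h2 := hG (MvPolynomial.mem_support_iff.mp hα)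
    rw [Finsupp.weight_apply, Finsupp.sum_fintype _ _ (fun i => by simp)] at h2
    simpa using h2
  rw [h1]
  ring

/-- the value at a point of a linear parametrisation -/
theorem aeval_line (a b : V3) (H : R3) :
    (aeval (fun i => Polynomial.C (a i) + Polynomial.X * Polynomial.C (b i)) H : Polynomial ℂ) =
      ∑ k ∈ Finset.range ((translate a H).totalDegree + 1), Polynomial.X ^ k *
        Polynomial.C (eval b (homogeneousComponent k (translate a H))) := by
  have h1 : (aeval (fun i => Polynomial.C (a i) + Polynomial.X * Polynomial.C (b i)) H :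
      Polynomial ℂ) = aeval (fun i => Polynomial.X * Polynomial.C (b i)) (translate a H) := by
    unfold translate
    rw [← AlgHom.comp_apply]
    congr 1
    apply MvPolynomial.algHom_ext
    intro i
    rw [AlgHom.comp_apply, aeval_X, aeval_X, map_add, aeval_X, algHom_C]
    rfl
  rw [h1]
  conv_lhs => rw [← sum_homogeneousComponent (translate a H)]
  rw [map_sum]
  refine Finset.sum_congr rfl fun k _ => ?_
  rw [aeval_smul_form (homogeneousComponent_isHomogeneous k _)]
  congr 1
  have h2 : ∀ F : R3, (aeval (fun i => Polynomial.C (b i)) F : Polynomial ℂ) =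
      Polynomial.C (eval b F) := by
    intro F
    induction F using MvPolynomial.induction_on with
    | C c => rw [algHom_C, eval_C]; rfl
    | add p q hp hq => rw [map_add, map_add, hp, hq, Polynomial.C_add]
    | mul_X p n hp => rw [map_mul, map_mul, hp, aeval_X, eval_X, Polynomial.C_mul]
  exact h2 _

theorem X_pow_dvd_line {a : V3} {w : ℕ} {H : R3} (h : VanishTo H a w) (b : V3) :
    (Polynomial.X : Polynomial ℂ) ^ w ∣
      aeval (fun i => Polynomial.C (a i) + Polynomial.X * Polynomial.C (b i)) H := by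
  rw [aeval_line]
  refine Finset.dvd_sum fun k _ => ?_
  by_cases hk : k < w
  · rw [h k hk, map_zero, Polynomial.C_0, mul_zero]
    exact dvd_zero _
  · exact Dvd.dvd.mul_right (pow_dvd_pow _ (not_lt.mp hk)) _

/-- the chart at the point `(x, 1, ζ)`: deformation to the tangent cone -/
noncomputable def kap (x ζ : ℂ) : R3 →ₐ[ℂ] Polynomial R3 :=
  aeval ![Polynomial.C (C x * X 1) + Polynomial.X * Polynomial.C (X 0), Polynomial.C (X 1),
    Polynomial.C (C ζ * X 1) + Polynomial.X * Polynomial.C (X 2)]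

theorem kap_X0 (x ζ : ℂ) : kap x ζ (X 0) =
    Polynomial.C (C x * X 1) + Polynomial.X * Polynomial.C (X 0) := by
  unfold kap
  rw [aeval_X]
  rfl

theorem kap_X1 (x ζ : ℂ) : kap x ζ (X 1) = Polynomial.C (X 1) := by
  unfold kap
  rw [aeval_X]
  rfl

theorem kap_X2 (x ζ : ℂ) : kap x ζ (X 2) =
    Polynomial.C (C ζ * X 1) + Polynomial.X * Polynomial.C (X 2) := by
  unfold kap
  rw [aeval_X]
  rfl

theorem kap_C (x ζ c : ℂ) : kap x ζ (C c) = Polynomial.C (C c) := by
  rw [algHom_C]
  rfl

theorem kap_map (x ζ : ℂ) (y : V3) (G : R3) :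
    (kap x ζ G).map (eval y) = aeval (fun i => Polynomial.C (y 1 * (![x, 1, ζ] : V3) i) +
      Polynomial.X * Polynomial.C ((![y 0, 0, y 2] : V3) i)) G := by
  induction G using MvPolynomial.induction_on with
  | C c =>
    rw [kap_C, algHom_C, Polynomial.map_C, eval_C]
    rfl
  | add p q hp hq => rw [map_add (kap x ζ), map_add, Polynomial.map_add, hp, hq]
  | mul_X p n hp =>
    rw [map_mul (kap x ζ), map_mul, Polynomial.map_mul, hp, aeval_X]
    congr 1
    fin_cases n
    · change Polynomial.map _ (kap x ζ (X 0)) = Polynomial.C (y 1 * x) +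
        Polynomial.X * Polynomial.C (y 0)
      rw [kap_X0, Polynomial.map_add, Polynomial.map_mul, Polynomial.map_C, Polynomial.map_C,
        Polynomial.map_X, map_mul, eval_C, eval_X, eval_X, mul_comm x]
    · change Polynomial.map _ (kap x ζ (X 1)) = _
      rw [kap_X1]
      simp
    · change Polynomial.map _ (kap x ζ (X 2)) = Polynomial.C (y 1 * ζ) +
        Polynomial.X * Polynomial.C (y 2)
      rw [kap_X2, Polynomial.map_add, Polynomial.map_mul, Polynomial.map_C, Polynomial.map_C,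
        Polynomial.map_X, map_mul, eval_C, eval_X, eval_X, mul_comm ζ]

/-- vanishing of a form gives divisibility in the chart -/
theorem kap_dvd {x ζ : ℂ} {G : R3} {D w : ℕ} (hG : G.IsHomogeneous D)
    (hv : VanishTo G ![x, 1, ζ] w) : (Polynomial.X : Polynomial R3) ^ w ∣ kap x ζ G := by
  rw [Polynomial.X_pow_dvd_iff]
  intro k hk
  have h1 : (kap x ζ G).coeff k * X 1 = 0 := by
    apply MvPolynomial.funext
    intro y
    rw [map_mul, eval_X, map_zero]
    by_cases hy : y 1 = 0
    · rw [hy, mul_zero]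
    · have h2 : eval y ((kap x ζ G).coeff k) = 0 := by
        rw [← Polynomial.coeff_map, kap_map]
        have h3 : (aeval (fun i => Polynomial.C (y 1 * (![x, 1, ζ] : V3) i) +
            Polynomial.X * Polynomial.C ((![y 0, 0, y 2] : V3) i)) G : Polynomial ℂ) =
            Polynomial.C (y 1) ^ D * aeval (fun i => Polynomial.C ((![x, 1, ζ] : V3) i) +
              Polynomial.X * Polynomial.C ((![y 0, 0, y 2] : V3) i / y 1)) G := by
          rw [← aeval_smul_form hG]
          congr 2
          funext i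
          rw [mul_add, ← Polynomial.C_mul, mul_left_comm, ← Polynomial.C_mul,
            mul_div_cancel₀ _ hy]
        rw [h3]
        have h4 := X_pow_dvd_line hv (fun i => (![y 0, 0, y 2] : V3) i / y 1)
        exact (Polynomial.X_pow_dvd_iff.mp (h4.mul_left _)) k hk
      rw [h2, zero_mul]
  exact (mul_eq_zero.mp h1).resolve_right (X_ne_zero _)

/-! ### divisibility of binary forms -/

/-- the equation of the point `(x, 1)` -/
noncomputable def LL (x : ℂ) : R2 := X 0 - C x * X 1

theorem LL_hom (x : ℂ) : (LL x).IsHomogeneous 1 :=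
  (isHomogeneous_X _ _).sub ((isHomogeneous_X _ _).C_mul _)

theorem LL_ne (x : ℂ) : LL x ≠ 0 := by
  intro h
  have h1 := congrArg (eval ![x + 1, 1]) h
  rw [LL, map_sub, map_mul, eval_X, eval_X, eval_C, map_zero] at h1
  simp at h1

theorem eval_LL (x y : ℂ) : eval ![y, 1] (LL x) = y - x := by
  rw [LL, map_sub, map_mul, eval_X, eval_X, eval_C]
  simp

theorem LL_prime (x : ℂ) : Prime (LL x) := by
  apply Irreducible.prime
  apply irreducible_of_totalDegree_eq_one
  · exact (LL_hom x).totalDegree (LL_ne x)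
  · intro c hc
    have h1 := hc (Finsupp.single 0 1)
    have h2 : coeff (Finsupp.single 0 1) (LL x) = 1 := by
      have h5 : ¬ (Finsupp.single (1 : Fin 2) 1 : Fin 2 →₀ ℕ) = Finsupp.single 0 1 := by
        intro h3
        have h4 := Finsupp.single_left_injective one_ne_zero h3
        exact absurd h4 (by decide)
      rw [LL, coeff_sub, coeff_C_mul, coeff_X, coeff_X, if_neg h5, if_pos rfl, mul_zero, sub_zero]
    rw [h2] at h1
    exact isUnit_of_dvd_one h1

/-- a form vanishing at a point is divisible by its equation -/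
theorem LL_dvd {x : ℂ} {f : R2} {n : ℕ} (hf : f.IsHomogeneous n) (h : eval ![x, 1] f = 0) :
    LL x ∣ f := by
  have h1 : LL x ∣ f - aeval ![C x * X 1, X 1] f := by
    clear h hf
    induction f using MvPolynomial.induction_on with
    | C c =>
      rw [algHom_C, algebraMap_eq, sub_self]
      exact dvd_zero _
    | add p q hp hq =>
      rw [map_add, add_sub_add_comm]
      exact dvd_add hp hq
    | mul_X p i hp =>
      rw [map_mul, aeval_X]
      have h2 : LL x ∣ X i - (![C x * X 1, X 1] : Fin 2 → R2) i := by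
        fin_cases i
        · exact dvd_refl _
        · simp
      have h3 : p * X i - aeval ![C x * X 1, X 1] p * (![C x * X 1, X 1] : Fin 2 → R2) i =
          X i * (p - aeval ![C x * X 1, X 1] p) +
            aeval ![C x * X 1, X 1] p * (X i - (![C x * X 1, X 1] : Fin 2 → R2) i) := by ring
      rw [h3]
      exact dvd_add (hp.mul_left _) (h2.mul_left _)
  have h2 : aeval ![C x * X 1, X 1] f = (0 : R2) := by
    have h3 : (![C x * X 1, X 1] : Fin 2 → R2) = fun i => X 1 * C ((![x, 1] : V2) i) := by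
      funext i
      fin_cases i
      · simp [mul_comm]
      · simp
    rw [h3, aeval_smul_form hf]
    have h4 : ∀ F : R2, (aeval (fun i => C ((![x, 1] : V2) i)) F : R2) = C (eval ![x, 1] F) := by
      intro F
      induction F using MvPolynomial.induction_on with
      | C c => rw [algHom_C, eval_C]; rfl
      | add p q hp hq => rw [map_add, map_add, hp, hq, C_add]
      | mul_X p n hp => rw [map_mul, map_mul, hp, aeval_X, eval_X, C_mul]
    rw [h4, h, C_0, mul_zero]
  rw [h2, sub_zero] at h1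
  exact h1

theorem LL_pow_isRelPrime {x y : ℂ} (h : x ≠ y) (m n : ℕ) : IsRelPrime (LL x ^ m) (LL y ^ n) := by
  apply IsRelPrime.pow
  rw [(LL_prime x).irreducible.isRelPrime_iff_not_dvd]
  rintro ⟨g, hg⟩
  have h1 := congrArg (eval ![x, 1]) hg
  rw [map_mul, eval_LL, eval_LL, sub_self, zero_mul, sub_eq_zero] at h1
  exact h h1

theorem prod_LL_dvd {ι : Type} [Fintype ι] {x : ι → ℂ} (hx : Function.Injective x) {w : ℕ}
    {f : R2} (h : ∀ j, LL (x j) ^ w ∣ f) : (∏ j, LL (x j)) ^ w ∣ f := by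
  rw [← Finset.prod_pow]
  apply Fintype.prod_dvd_of_isRelPrime
  · intro i j hij
    exact LL_pow_isRelPrime (fun h => hij (hx h)) _ _
  · exact h

theorem dvd_aeval_sub {σ A : Type} [CommRing A] [Algebra ℂ A] {d : A} {g g' : σ → A}
    (h : ∀ i, d ∣ g i - g' i) (f : MvPolynomial σ ℂ) : d ∣ aeval g f - aeval g' f := by
  induction f using MvPolynomial.induction_on with
  | C c =>
    rw [algHom_C, algHom_C, sub_self]
    exact dvd_zero _
  | add p q hp hq =>
    rw [map_add, map_add, add_sub_add_comm]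
    exact dvd_add hp hq
  | mul_X p i hp =>
    rw [map_mul, map_mul, aeval_X, aeval_X]
    have h3 : aeval g p * g i - aeval g' p * g' i =
        g i * (aeval g p - aeval g' p) + aeval g' p * (g i - g' i) := by ring
    rw [h3]
    exact dvd_add (hp.mul_left _) ((h i).mul_left _)

theorem homogeneousComponent_mul' {σ : Type} {A : MvPolynomial σ ℂ} {n : ℕ}
    (hA : A.IsHomogeneous n) (k : ℕ) (h : MvPolynomial σ ℂ) :
    homogeneousComponent (n + k) (A * h) = A * homogeneousComponent k h := by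
  conv_lhs => rw [← sum_homogeneousComponent h]
  rw [Finset.mul_sum, map_sum]
  by_cases hk : k ∈ Finset.range (h.totalDegree + 1)
  · rw [Finset.sum_eq_single k]
    · exact homogeneousComponent_eq_self (hA.mul (homogeneousComponent_isHomogeneous k h))
    · intro j _ hj
      rw [homogeneousComponent_of_mem (hA.mul (homogeneousComponent_isHomogeneous j h)), if_neg]
      omega
    · intro hk'
      exact absurd hk hk'
  · have h1 : homogeneousComponent k h = 0 := by
      apply homogeneousComponent_eq_zero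
      rw [Finset.mem_range] at hk
      omega
    rw [h1, mul_zero]
    refine Finset.sum_eq_zero (fun j hj => ?_)
    rw [homogeneousComponent_of_mem (hA.mul (homogeneousComponent_isHomogeneous j h)), if_neg]
    rw [Finset.mem_range] at hj hk
    omega

theorem hom_factor {σ : Type} {A f g : MvPolynomial σ ℂ} {n d : ℕ} (hA : A.IsHomogeneous n)
    (hf : f.IsHomogeneous d) (h : f = A * g) :
    ∃ g' : MvPolynomial σ ℂ, g'.IsHomogeneous (d - n) ∧ (d < n → g' = 0) ∧ f = A * g' := by
  by_cases hd : d < n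
  · refine ⟨0, isHomogeneous_zero _ _ _, fun _ => rfl, ?_⟩
    rw [mul_zero, ← homogeneousComponent_eq_self hf, h]
    conv_lhs => rw [← sum_homogeneousComponent g]
    rw [Finset.mul_sum, map_sum]
    refine Finset.sum_eq_zero (fun j _ => ?_)
    rw [homogeneousComponent_of_mem (hA.mul (homogeneousComponent_isHomogeneous j g)), if_neg]
    omega
  · refine ⟨homogeneousComponent (d - n) g, homogeneousComponent_isHomogeneous _ _,
      fun h' => absurd h' hd, ?_⟩
    rw [← homogeneousComponent_mul' hA, Nat.add_sub_cancel' (by omega), ← h,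
      homogeneousComponent_eq_self hf]

/-! ### the embedding of the binary forms -/

theorem emb_X0 : emb (X 0) = X 0 := by
  unfold emb
  rw [aeval_X]
  rfl

theorem emb_X1 : emb (X 1) = X 1 := by
  unfold emb
  rw [aeval_X]
  rfl

theorem emb_C (c : ℂ) : emb (C c) = C c := by
  rw [algHom_C]
  rfl

theorem emb_hom {P : R2} {n : ℕ} (h : P.IsHomogeneous n) : (emb P).IsHomogeneous n := by
  unfold emb
  have h1 := h.aeval (![X 0, X 1] : Fin 2 → R3) (n := 1) (fun i => by
    fin_cases i
    · exact isHomogeneous_X _ _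
    · exact isHomogeneous_X _ _)
  rwa [one_mul] at h1

theorem eval_emb (P : R2) (v : V3) : eval v (emb P) = eval ![v 0, v 1] P := by
  induction P using MvPolynomial.induction_on with
  | C c => rw [emb_C, eval_C, eval_C]
  | add p q hp hq => rw [map_add, map_add, map_add, hp, hq]
  | mul_X p n hp =>
    rw [map_mul, map_mul, map_mul, hp, eval_X]
    congr 1
    fin_cases n
    · change eval v (emb (X 0)) = _
      rw [emb_X0, eval_X]
      rfl
    · change eval v (emb (X 1)) = _
      rw [emb_X1, eval_X]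
      rfl

theorem emb_degreeOf (P : R2) : (emb P).degreeOf 2 = 0 := by
  induction P using MvPolynomial.induction_on with
  | C c => rw [emb_C, degreeOf_C]
  | add p q hp hq =>
    rw [map_add]
    have := degreeOf_add_le 2 (emb p) (emb q)
    rw [hp, hq, max_self] at this
    omega
  | mul_X p n hp =>
    rw [map_mul]
    have h1 := degreeOf_mul_le 2 (emb p) (emb (X n))
    have h2 : (emb (X n)).degreeOf 2 = 0 := by
      fin_cases n
      · change (emb (X 0)).degreeOf 2 = 0
        rw [emb_X0, degreeOf_X_of_ne (by decide)]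
      · change (emb (X 1)).degreeOf 2 = 0
        rw [emb_X1, degreeOf_X_of_ne (by decide)]
    omega

theorem res_emb (P : R2) : res (emb P) = P := by
  have h : (res.comp emb) = AlgHom.id ℂ R2 := by
    apply MvPolynomial.algHom_ext
    intro i
    rw [AlgHom.comp_apply]
    unfold res
    fin_cases i
    · change aeval _ (emb (X 0)) = _
      rw [emb_X0, aeval_X]
      rfl
    · change aeval _ (emb (X 1)) = _
      rw [emb_X1, aeval_X]
      rfl
  exact DFunLike.congr_fun h P

theorem emb_ne {P : R2} (h : P ≠ 0) : emb P ≠ 0 := by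
  intro h1
  apply h
  rw [← res_emb P, h1, map_zero]

theorem emb_res {G : R3} (h : G.degreeOf 2 = 0) : emb (res G) = G := by
  conv_rhs => rw [G.as_sum]
  conv_lhs => rw [G.as_sum]
  rw [map_sum, map_sum]
  refine Finset.sum_congr rfl fun α hα => ?_
  have h0 : α 2 = 0 := by
    have := (degreeOf_le_iff.mp h.le) α hα
    omega
  rw [monomial_eq, Finsupp.prod_fintype _ _ (fun i => pow_zero _), Fin.prod_univ_three, h0,
    pow_zero, mul_one, map_mul, map_mul, map_mul, map_mul, map_pow, map_pow, map_pow, map_pow]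
  have h1 : res (X 0) = X 0 := by
    unfold res
    rw [aeval_X]
    rfl
  have h2 : res (X 1) = X 1 := by
    unfold res
    rw [aeval_X]
    rfl
  have h3 : res (C (coeff α G)) = C (coeff α G) := by
    rw [algHom_C]
    rfl
  rw [h1, h2, h3, emb_C, emb_X0, emb_X1]

/-! ### the polynomials in `z` -/

/-- a form as a polynomial in `z` -/
noncomputable def toA : R3 →ₐ[ℂ] Polynomial R2 :=
  aeval ![Polynomial.C (X 0), Polynomial.C (X 1), Polynomial.X]

/-- the inverse of `toA` -/
noncomputable def ofA : Polynomial R2 →+* R3 := Polynomial.eval₂RingHom emb.toRingHom (X 2)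

theorem toA_C (c : ℂ) : toA (C c) = Polynomial.C (C c) := by
  rw [algHom_C, Polynomial.algebraMap_apply, algebraMap_eq]

theorem toA_X0 : toA (X 0) = Polynomial.C (X 0) := by
  unfold toA
  rw [aeval_X]
  rfl

theorem toA_X1 : toA (X 1) = Polynomial.C (X 1) := by
  unfold toA
  rw [aeval_X]
  rfl

theorem toA_X2 : toA (X 2) = Polynomial.X := by
  unfold toA
  rw [aeval_X]
  rfl

theorem toA_emb_X (n : Fin 2) : toA (emb (X n)) = Polynomial.C (X n) := by
  fin_cases n
  · exact (congrArg toA emb_X0).trans toA_X0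
  · exact (congrArg toA emb_X1).trans toA_X1

theorem toA_emb (f : R2) : toA (emb f) = Polynomial.C f := by
  induction f using MvPolynomial.induction_on with
  | C c => rw [emb_C, toA_C]
  | add p q hp hq => rw [map_add, map_add, hp, hq, Polynomial.C_add]
  | mul_X p n hp => rw [map_mul, map_mul, hp, Polynomial.C_mul, toA_emb_X]

theorem ofA_C (f : R2) : ofA (Polynomial.C f) = emb f := by
  unfold ofA
  rw [Polynomial.coe_eval₂RingHom, Polynomial.eval₂_C]
  rfl

theorem ofA_X : ofA Polynomial.X = X 2 := by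
  unfold ofA
  rw [Polynomial.coe_eval₂RingHom, Polynomial.eval₂_X]

theorem ofA_toA_X (n : Fin 3) : ofA (toA (X n)) = X n := by
  fin_cases n
  · exact (congrArg ofA toA_X0).trans ((ofA_C (X 0)).trans emb_X0)
  · exact (congrArg ofA toA_X1).trans ((ofA_C (X 1)).trans emb_X1)
  · exact (congrArg ofA toA_X2).trans ofA_X

theorem ofA_toA (G : R3) : ofA (toA G) = G := by
  induction G using MvPolynomial.induction_on with
  | C c => rw [toA_C, ofA_C, emb_C]
  | add p q hp hq => rw [map_add, map_add, hp, hq]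
  | mul_X p n hp => rw [map_mul, map_mul, hp, ofA_toA_X]

/-- the linear polynomial in `z` of the strip -/
noncomputable def Uz (P T : R2) : R3 := emb P * X 2 - emb T

theorem toA_Uz (P T : R2) : toA (Uz P T) = Polynomial.C P * Polynomial.X + Polynomial.C (-T) := by
  rw [Uz, map_sub, map_mul, toA_emb, toA_emb, toA_X2, Polynomial.C_neg, sub_eq_add_neg]

theorem Uz_dvd {P T : R2} (hP : P ≠ 0) (h : IsRelPrime P T) {n : ℕ} {G : R3}
    (hd : Uz P T ∣ emb P ^ n * G) : Uz P T ∣ G := by
  have hpr : Prime (toA (Uz P T)) := by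
    apply Irreducible.prime
    rw [toA_Uz]
    exact Polynomial.irreducible_C_mul_X_add_C hP h.neg_right
  have h1 : toA (Uz P T) ∣ Polynomial.C P ^ n * toA G := by
    rw [← toA_emb, ← map_pow, ← map_mul]
    exact map_dvd toA hd
  have h2 : toA (Uz P T) ∣ toA G := by
    rcases hpr.dvd_or_dvd h1 with h3 | h3
    · exfalso
      have h4 := hpr.dvd_of_dvd_pow h3
      rw [toA_Uz] at h4
      have h5 := Polynomial.natDegree_le_of_dvd h4 (by rwa [Polynomial.C_ne_zero])
      rw [Polynomial.natDegree_C, Polynomial.natDegree_linear hP] at h5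
      omega
    · exact h3
  have h3 := map_dvd ofA h2
  rwa [ofA_toA, ofA_toA] at h3

theorem Uz_hom {P T : R2} {t : ℕ} (hP : P.IsHomogeneous t) (hT : T.IsHomogeneous (t + 1)) :
    (Uz P T).IsHomogeneous (t + 1) :=
  ((emb_hom hP).mul (isHomogeneous_X _ _)).sub (emb_hom hT)

theorem Uz_degreeOf_le (P T : R2) : (Uz P T).degreeOf 2 ≤ 1 := by
  have h1 := degreeOf_mul_le 2 (emb P) (X 2)
  rw [emb_degreeOf, degreeOf_X_self] at h1
  have h2 := degreeOf_add_le 2 (emb P * X 2) (emb (-T))
  rw [emb_degreeOf, map_neg, ← sub_eq_add_neg] at h2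
  unfold Uz
  omega

theorem Uz_degreeOf {P T : R2} (hP : P ≠ 0) : (Uz P T).degreeOf 2 = 1 := by
  apply le_antisymm (Uz_degreeOf_le P T)
  have h1 := (degreeOf_mul_X_eq_degreeOf_add_one_iff (2 : Fin 3) (emb P)).mpr (emb_ne hP)
  rw [emb_degreeOf] at h1
  have h2 := degreeOf_add_le 2 (Uz P T) (emb T)
  have h3 : Uz P T + emb T = emb P * X 2 := by
    unfold Uz
    ring
  rw [h3, h1, emb_degreeOf] at h2
  omega

/-! ### the substitution of the curve -/

/-- restriction to the curve `z = T / P` -/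
noncomputable def phi (P T : R2) : R3 →ₐ[ℂ] R2 := aeval ![P * X 0, P * X 1, T]

theorem phi_X0 (P T : R2) : phi P T (X 0) = P * X 0 := by
  unfold phi
  rw [aeval_X]
  rfl

theorem phi_X1 (P T : R2) : phi P T (X 1) = P * X 1 := by
  unfold phi
  rw [aeval_X]
  rfl

theorem phi_X2 (P T : R2) : phi P T (X 2) = T := by
  unfold phi
  rw [aeval_X]
  rfl

theorem phi_C (P T : R2) (c : ℂ) : phi P T (C c) = C c := by
  rw [algHom_C]
  rfl

theorem emb_phi (P T : R2) (G : R3) :
    emb (phi P T G) = aeval ![emb P * X 0, emb P * X 1, emb T] G := by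
  induction G using MvPolynomial.induction_on with
  | C c => rw [phi_C, emb_C, algHom_C]; rfl
  | add p q hp hq => rw [map_add, map_add, map_add, hp, hq]
  | mul_X p n hp =>
    rw [map_mul, map_mul, map_mul, hp, aeval_X]
    refine congrArg (HMul.hMul _) ?_
    match n with
    | 0 => rw [phi_X0, map_mul, emb_X0]; rfl
    | 1 => rw [phi_X1, map_mul, emb_X1]; rfl
    | 2 => rw [phi_X2]; rfl

theorem phi_mod (P T : R2) {G : R3} {D : ℕ} (hG : G.IsHomogeneous D) :
    Uz P T ∣ emb P ^ D * G - emb (phi P T G) := by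
  have h1 : emb P ^ D * G = aeval (fun i => emb P * (X i : R3)) G := by
    rw [aeval_smul_form hG, aeval_X_left_apply]
  rw [h1, emb_phi]
  apply dvd_aeval_sub
  intro i
  fin_cases i
  · change _ ∣ emb P * X 0 - emb P * X 0
    rw [sub_self]
    exact dvd_zero _
  · change _ ∣ emb P * X 1 - emb P * X 1
    rw [sub_self]
    exact dvd_zero _
  · exact dvd_refl _

/-- factorisation of the substitution through the chart -/
theorem phi_dvd {P T τ : R2} {x ζ : ℂ} (hτ : T - C ζ * (P * X 1) = LL x * τ) {w : ℕ} {G : R3}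
    (h : (Polynomial.X : Polynomial R3) ^ w ∣ kap x ζ G) : LL x ^ w ∣ phi P T G := by
  have h1 : ∀ G : R3, Polynomial.eval₂RingHom
      (aeval ![P, P * X 1, τ] : R3 →ₐ[ℂ] R2).toRingHom (LL x) (kap x ζ G) = phi P T G := by
    intro G
    rw [Polynomial.coe_eval₂RingHom]
    induction G using MvPolynomial.induction_on with
    | C c =>
      rw [kap_C, phi_C, Polynomial.eval₂_C, AlgHom.toRingHom_eq_coe, RingHom.coe_coe, algHom_C]
      rfl
    | add p q hp hq => rw [map_add (kap x ζ), Polynomial.eval₂_add, hp, hq, map_add]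
    | mul_X p n hp =>
      rw [map_mul (kap x ζ), Polynomial.eval₂_mul, hp, map_mul (phi P T)]
      congr 1
      fin_cases n
      · change Polynomial.eval₂ _ _ (kap x ζ (X 0)) = phi P T (X 0)
        rw [kap_X0, phi_X0, Polynomial.eval₂_add, Polynomial.eval₂_mul, Polynomial.eval₂_C,
          Polynomial.eval₂_C, Polynomial.eval₂_X, AlgHom.toRingHom_eq_coe, RingHom.coe_coe,
          map_mul, algHom_C, algebraMap_eq, aeval_X, aeval_X]
        change C x * (P * X 1) + LL x * P = P * X 0
        unfold LL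
        ring
      · change Polynomial.eval₂ _ _ (kap x ζ (X 1)) = phi P T (X 1)
        rw [kap_X1, phi_X1, Polynomial.eval₂_C, AlgHom.toRingHom_eq_coe, RingHom.coe_coe, aeval_X]
        rfl
      · change Polynomial.eval₂ _ _ (kap x ζ (X 2)) = phi P T (X 2)
        rw [kap_X2, phi_X2, Polynomial.eval₂_add, Polynomial.eval₂_mul, Polynomial.eval₂_C,
          Polynomial.eval₂_C, Polynomial.eval₂_X, AlgHom.toRingHom_eq_coe, RingHom.coe_coe,
          map_mul, algHom_C, algebraMap_eq, aeval_X, aeval_X]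
        change C ζ * (P * X 1) + LL x * τ = T
        rw [← hτ]
        ring
  rw [← h1]
  have h2 := map_dvd (Polynomial.eval₂RingHom
      (aeval ![P, P * X 1, τ] : R3 →ₐ[ℂ] R2).toRingHom (LL x)) h
  rwa [map_pow, Polynomial.coe_eval₂RingHom, Polynomial.eval₂_X] at h2

/-- the substitution in a form of small degree in `z` -/
theorem phi_small {P T : R2} {t : ℕ} (hP : P.IsHomogeneous t) (hT : T.IsHomogeneous (t + 1))
    {G : R3} {D w : ℕ} (hG : G.IsHomogeneous D) (hw : w ≤ D) (hz : G.degreeOf 2 ≤ w) :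
    ∃ h : R2, h.IsHomogeneous (D + w * t) ∧ phi P T G = P ^ (D - w) * h := by
  refine ⟨∑ α ∈ G.support, C (coeff α G) * (P ^ (w - α 2) * X 0 ^ α 0 * X 1 ^ α 1 * T ^ α 2),
    ?_, ?_⟩
  · apply IsHomogeneous.sum
    intro α hα
    have h0 : α 2 ≤ w := (degreeOf_le_iff.mp hz) α hα
    have h1 : α 0 + α 1 + α 2 = D := by
      have h2 := hG (MvPolynomial.mem_support_iff.mp hα)
      rw [Finsupp.weight_apply, Finsupp.sum_fintype _ _ (fun i => by simp)] at h2
      simpa [Fin.sum_univ_three] using h2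
    have h2 := (((hP.pow (w - α 2)).mul
      (isHomogeneous_X_pow (R := ℂ) (0 : Fin 2) (α 0))).mul
      (isHomogeneous_X_pow (R := ℂ) (1 : Fin 2) (α 1))).mul (hT.pow (α 2))
    have h3 : t * (w - α 2) + α 0 + α 1 + (t + 1) * α 2 = D + w * t := by
      obtain ⟨k, hk⟩ := Nat.exists_eq_add_of_le h0
      have h4 : w - α 2 = k := by omega
      rw [h4, ← h1, hk]
      ring
    rw [h3] at h2
    exact h2.C_mul _
  · conv_lhs => rw [G.as_sum]
    rw [map_sum, Finset.mul_sum]
    refine Finset.sum_congr rfl fun α hα => ?_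
    have h0 : α 2 ≤ w := (degreeOf_le_iff.mp hz) α hα
    have h1 : α 0 + α 1 + α 2 = D := by
      have h2 := hG (MvPolynomial.mem_support_iff.mp hα)
      rw [Finsupp.weight_apply, Finsupp.sum_fintype _ _ (fun i => by simp)] at h2
      simpa [Fin.sum_univ_three] using h2
    rw [monomial_eq, Finsupp.prod_fintype _ _ (fun i => pow_zero _), Fin.prod_univ_three,
      map_mul, map_mul, map_mul, map_pow, map_pow, map_pow, phi_C, phi_X0, phi_X1, phi_X2]
    have h3 : α 0 + α 1 = (D - w) + (w - α 2) := by omega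
    have h4 : P ^ α 0 * P ^ α 1 = P ^ (D - w) * P ^ (w - α 2) := by
      rw [← pow_add, h3, pow_add]
    rw [mul_pow, mul_pow]
    linear_combination (C (coeff α G) * X 0 ^ α 0 * X 1 ^ α 1 * T ^ α 2) * h4

/-! ### the equations in the chart -/

theorem vanishTo_one {G : R3} {a : V3} (h : eval a G = 0) : VanishTo G a 1 := by
  intro k hk
  have hk0 : k = 0 := by omega
  rw [hk0, homogeneousComponent_zero]
  have h2 := eval_translate a 0 G
  rw [add_zero, eval_zero, constantCoeff_eq, h] at h2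
  rw [h2, C_0]

theorem Uz_kap_dvd {P T : R2} {t : ℕ} (hP : P.IsHomogeneous t) (hT : T.IsHomogeneous (t + 1))
    {x ζ : ℂ} (h : eval ![x, 1] T = eval ![x, 1] P * ζ) :
    (Polynomial.X : Polynomial R3) ∣ kap x ζ (Uz P T) := by
  have h1 : VanishTo (Uz P T) ![x, 1, ζ] 1 := by
    apply vanishTo_one
    unfold Uz
    rw [map_sub, map_mul, eval_emb, eval_emb, eval_X]
    change eval ![x, 1] P * ζ - eval ![x, 1] T = 0
    rw [h, sub_self]
  have h2 := kap_dvd (Uz_hom hP hT) h1
  rwa [pow_one] at h2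

theorem line_emb (x ζ : ℂ) (P : R2) :
    (aeval (fun i => Polynomial.C ((![0, 1, 1] : V3) 1 * (![x, 1, ζ] : V3) i) +
      Polynomial.X * Polynomial.C ((![(![0, 1, 1] : V3) 0, 0, (![0, 1, 1] : V3) 2] : V3) i))
      (emb P) : Polynomial ℂ) = Polynomial.C (eval ![x, 1] P) := by
  induction P using MvPolynomial.induction_on with
  | C c => rw [emb_C, algHom_C, eval_C]; rfl
  | add p q hp hq => rw [map_add, map_add, map_add, hp, hq, Polynomial.C_add]
  | mul_X p n hp =>
    rw [map_mul, map_mul, map_mul, hp, eval_X, Polynomial.C_mul]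
    refine congrArg (HMul.hMul _) ?_
    match n with
    | 0 =>
      rw [emb_X0, aeval_X]
      simp
    | 1 =>
      rw [emb_X1, aeval_X]
      simp

theorem Uz_kap_not {P T : R2} {x ζ : ℂ} (hP : eval ![x, 1] P ≠ 0)
    (h : eval ![x, 1] T = eval ![x, 1] P * ζ) :
    ¬ (Polynomial.X : Polynomial R3) ^ 2 ∣ kap x ζ (Uz P T) := by
  intro h1
  have h2 := map_dvd (Polynomial.mapRingHom (eval (![0, 1, 1] : V3))) h1
  rw [map_pow, Polynomial.coe_mapRingHom, Polynomial.map_X, kap_map] at h2
  have h3 : (aeval (fun i => Polynomial.C ((![0, 1, 1] : V3) 1 * (![x, 1, ζ] : V3) i) +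
      Polynomial.X * Polynomial.C ((![(![0, 1, 1] : V3) 0, 0, (![0, 1, 1] : V3) 2] : V3) i))
      (Uz P T) : Polynomial ℂ) = Polynomial.C (eval ![x, 1] P) * Polynomial.X := by
    unfold Uz
    rw [map_sub, map_mul, line_emb, line_emb, aeval_X, h]
    simp
    ring
  rw [h3, Polynomial.X_pow_dvd_iff] at h2
  have h4 := h2 1 (by norm_num)
  rw [Polynomial.coeff_C_mul, Polynomial.coeff_X_one, mul_one] at h4
  exact hP h4

theorem dvd_of_Uz_mul {P T : R2} {t : ℕ} (hP : P.IsHomogeneous t) (hT : T.IsHomogeneous (t + 1))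
    {x ζ : ℂ} (hPx : eval ![x, 1] P ≠ 0) (h : eval ![x, 1] T = eval ![x, 1] P * ζ) {w : ℕ}
    {G : R3} (hd : (Polynomial.X : Polynomial R3) ^ (w + 1) ∣ kap x ζ (Uz P T * G)) :
    (Polynomial.X : Polynomial R3) ^ w ∣ kap x ζ G := by
  obtain ⟨u, hu⟩ := Uz_kap_dvd hP hT h
  have h1 : ¬ (Polynomial.X : Polynomial R3) ∣ u := by
    rintro ⟨v, hv⟩
    apply Uz_kap_not hPx h
    rw [hu, hv]
    exact ⟨v, by ring⟩
  rw [map_mul, hu, pow_succ', mul_assoc] at hd
  have h2 := (mul_dvd_mul_iff_left (Polynomial.X_ne_zero : (Polynomial.X : Polynomial R3) ≠ 0)).mp hd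
  exact Polynomial.prime_X.pow_dvd_of_dvd_mul_left w h1 h2

end Str

/-! ### bihomogeneous polynomials -/

namespace Str

theorem biHom_zero (a b : ℕ) : BiHom a b 0 := fun α h => absurd (coeff_zero α) h

theorem biHom_add {a b : ℕ} {F G : R4} (hF : BiHom a b F) (hG : BiHom a b G) :
    BiHom a b (F + G) := by
  intro α h
  rw [coeff_add] at h
  by_cases h1 : coeff α F = 0
  · rw [h1, zero_add] at h
    exact hG α h
  · exact hF α h1

theorem biHom_mul {a b c d : ℕ} {F G : R4} (hF : BiHom a b F) (hG : BiHom c d G) :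
    BiHom (a + c) (b + d) (F * G) := by
  intro α h
  rw [coeff_mul] at h
  obtain ⟨z, hz, hne⟩ := Finset.exists_ne_zero_of_sum_ne_zero h
  rw [Finset.HasAntidiagonal.mem_antidiagonal] at hz
  have h1 := hF z.1 (left_ne_zero_of_mul hne)
  have h2 := hG z.2 (right_ne_zero_of_mul hne)
  rw [← hz]
  simp only [Finsupp.add_apply]
  omega

theorem biHom_C (c : ℂ) : BiHom 0 0 (C c) := by
  intro α h
  rw [coeff_C] at h
  by_cases h1 : (0 : Fin 4 →₀ ℕ) = α
  · rw [← h1]
    simp
  · rw [if_neg h1] at h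
    exact absurd rfl h

theorem biHom_X {i : Fin 4} {a b : ℕ}
    (h : (Finsupp.single i 1 : Fin 4 →₀ ℕ) 0 + (Finsupp.single i 1 : Fin 4 →₀ ℕ) 1 = a ∧
      (Finsupp.single i 1 : Fin 4 →₀ ℕ) 2 + (Finsupp.single i 1 : Fin 4 →₀ ℕ) 3 = b) :
    BiHom a b (X i) := by
  intro α hα
  rw [coeff_X] at hα
  by_cases h1 : (Finsupp.single i 1 : Fin 4 →₀ ℕ) = α
  · rw [← h1]
    exact h
  · rw [if_neg h1] at hα
    exact absurd rfl hα

theorem biHom_pow {a b : ℕ} {F : R4} (hF : BiHom a b F) (n : ℕ) :
    BiHom (n * a) (n * b) (F ^ n) := by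
  induction n with
  | zero =>
    rw [pow_zero, zero_mul, zero_mul]
    exact biHom_C 1
  | succ n ih =>
    rw [pow_succ, add_mul, one_mul, add_mul, one_mul]
    exact biHom_mul ih hF

theorem biHom_X0 : BiHom 1 0 (X 0) := biHom_X (by simp)
theorem biHom_X1 : BiHom 1 0 (X 1) := biHom_X (by simp)
theorem biHom_X2 : BiHom 0 1 (X 2) := biHom_X (by simp)
theorem biHom_X3 : BiHom 0 1 (X 3) := biHom_X (by simp)

theorem biHom_sum {ι : Type} {a b : ℕ} (s : Finset ι) {F : ι → R4} (h : ∀ i ∈ s, BiHom a b (F i)) :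
    BiHom a b (∑ i ∈ s, F i) := by
  classical
  induction s using Finset.induction_on with
  | empty => exact biHom_zero a b
  | insert i s hi ih =>
    rw [Finset.sum_insert hi]
    exact biHom_add (h i (Finset.mem_insert_self i s))
      (ih fun j hj => h j (Finset.mem_insert_of_mem hj))

/-- binary forms as polynomials in the last two variables -/
noncomputable def em4 : R2 →ₐ[ℂ] R4 := aeval ![X 2, X 3]

theorem em4_X0 : em4 (X 0) = X 2 := by
  unfold em4
  rw [aeval_X]
  rfl

theorem em4_X1 : em4 (X 1) = X 3 := by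
  unfold em4
  rw [aeval_X]
  rfl

theorem em4_C (c : ℂ) : em4 (C c) = C c := by
  rw [algHom_C]
  rfl

theorem em4_biHom {ψ : R2} {b : ℕ} (h : ψ.IsHomogeneous b) : BiHom 0 b (em4 ψ) := by
  rw [ψ.as_sum, map_sum]
  apply biHom_sum
  intro α hα
  have h1 : α 0 + α 1 = b := by
    have h2 := h (MvPolynomial.mem_support_iff.mp hα)
    rw [Finsupp.weight_apply, Finsupp.sum_fintype _ _ (fun i => by simp)] at h2
    simpa [Fin.sum_univ_two] using h2
  rw [monomial_eq, Finsupp.prod_fintype _ _ (fun i => pow_zero _), Fin.prod_univ_two,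
    map_mul, map_mul, map_pow, map_pow, em4_C, em4_X0, em4_X1]
  have h2 := biHom_mul (biHom_C (coeff α ψ)) (biHom_mul (biHom_pow biHom_X2 (α 0))
    (biHom_pow biHom_X3 (α 1)))
  rw [mul_zero, mul_zero, mul_one, mul_one, add_zero, add_zero, zero_add, h1] at h2
  exact h2

theorem onS_C (P Q T R : R2) (c : ℂ) : onS P Q T R (C c) = C c := by
  rw [algHom_C]
  rfl

theorem onS_X0 (P Q T R : R2) : onS P Q T R (X 0) = Uz P T := by
  unfold onS
  rw [aeval_X]
  rfl

theorem onS_X1 (P Q T R : R2) : onS P Q T R (X 1) = Uz Q R := by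
  unfold onS
  rw [aeval_X]
  rfl

theorem onS_X2 (P Q T R : R2) : onS P Q T R (X 2) = X 0 := by
  unfold onS
  rw [aeval_X]
  rfl

theorem onS_X3 (P Q T R : R2) : onS P Q T R (X 3) = X 1 := by
  unfold onS
  rw [aeval_X]
  rfl

theorem onS_em4_X (P Q T R : R2) (n : Fin 2) : onS P Q T R (em4 (X n)) = emb (X n) := by
  fin_cases n
  · exact (congrArg (onS P Q T R) em4_X0).trans ((onS_X2 P Q T R).trans emb_X0.symm)
  · exact (congrArg (onS P Q T R) em4_X1).trans ((onS_X3 P Q T R).trans emb_X1.symm)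

theorem onS_em4 (P Q T R ψ : R2) : onS P Q T R (em4 ψ) = emb ψ := by
  induction ψ using MvPolynomial.induction_on with
  | C c => rw [em4_C, onS_C, emb_C]
  | add p q hp hq => rw [map_add, map_add, map_add, hp, hq]
  | mul_X p n hp => rw [map_mul, map_mul, map_mul, hp, onS_em4_X]

theorem res_isHom {G : R3} {D : ℕ} (h : G.IsHomogeneous D) : (res G).IsHomogeneous D := by
  unfold res
  have h1 := h.aeval (![X 0, X 1, 0] : Fin 3 → R2) (n := 1) (fun i => by
    fin_cases i
    · exact isHomogeneous_X _ _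
    · exact isHomogeneous_X _ _
    · exact isHomogeneous_zero _ _ _)
  rwa [one_mul] at h1

end Str

/-! ### the strip -/

open Str

section

variable {t : ℕ} {P Q T R : R2} {x ζ : Fin (2 * t + 1) → ℂ}

theorem Strip.P_ne (S : Strip t P Q T R x ζ) : P ≠ 0 := by
  intro h
  apply S.hPx 0
  rw [h, map_zero]

theorem Strip.prodLL (S : Strip t P Q T R x ζ) : P * R - Q * T = ∏ j, LL (x j) := S.hdet

theorem Strip.prod_hom (S : Strip t P Q T R x ζ) : (∏ j, LL (x j)).IsHomogeneous (2 * t + 1) := by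
  have h := IsHomogeneous.prod Finset.univ (fun j => LL (x j)) (fun _ => 1)
    (fun j _ => LL_hom (x j))
  simpa using h

theorem Strip.relPrime (S : Strip t P Q T R x ζ) : IsRelPrime P T := by
  intro d h1 h2
  by_contra hd
  have hd0 : d ≠ 0 := by
    rintro rfl
    exact S.P_ne (zero_dvd_iff.mp h1)
  obtain ⟨p, hp, hpd⟩ := WfDvdMonoid.exists_irreducible_factor hd hd0
  have h3 : p ∣ ∏ j, LL (x j) := by
    rw [← S.prodLL]
    exact dvd_sub ((hpd.trans h1).mul_right _) ((hpd.trans h2).mul_left _)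
  obtain ⟨j, _, hj⟩ := (hp.prime.dvd_finsetProd_iff _).mp h3
  have h4 : LL (x j) ∣ p := (hp.dvd_comm (LL_prime _).irreducible).mp hj
  obtain ⟨g, hg⟩ := (h4.trans hpd).trans h1
  apply S.hPx j
  rw [hg, map_mul, eval_LL, sub_self, zero_mul]

theorem Strip.exists_tau (S : Strip t P Q T R x ζ) (j : Fin (2 * t + 1)) :
    ∃ τ : R2, T - C (ζ j) * (P * X 1) = LL (x j) * τ := by
  have h1 : (T - C (ζ j) * (P * X 1)).IsHomogeneous (t + 1) :=
    S.hT.sub (((S.hP).mul (isHomogeneous_X _ _)).C_mul _)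
  obtain ⟨τ, hτ⟩ := LL_dvd (x := x j) h1 (by
    rw [map_sub, map_mul, map_mul, eval_C, eval_X, S.hT' j]
    change _ - ζ j * (_ * 1) = 0
    ring)
  exact ⟨τ, hτ⟩

theorem Strip.phi_dvd_all (S : Strip t P Q T R x ζ) {w : ℕ} {G : R3}
    (h : ∀ j, (Polynomial.X : Polynomial R3) ^ w ∣ kap (x j) (ζ j) G) (j : Fin (2 * t + 1)) :
    LL (x j) ^ w ∣ phi P T G := by
  obtain ⟨τ, hτ⟩ := S.exists_tau j
  exact phi_dvd hτ (h j)

theorem Strip.not_dvd (S : Strip t P Q T R x ζ) (j : Fin (2 * t + 1)) : ¬ LL (x j) ∣ P := by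
  rintro ⟨g, hg⟩
  apply S.hPx j
  rw [hg, map_mul, eval_LL, sub_self, zero_mul]

/-- removal of the powers of `P` -/
theorem Strip.dvd_of_pow (S : Strip t P Q T R x ζ) {w n : ℕ} {h : R2}
    (hd : ∀ j, LL (x j) ^ w ∣ P ^ n * h) : (∏ j, LL (x j)) ^ w ∣ h := by
  apply prod_LL_dvd S.hx
  intro j
  apply (LL_prime (x j)).pow_dvd_of_dvd_mul_left w _ (hd j)
  intro h1
  exact S.not_dvd j ((LL_prime (x j)).dvd_of_dvd_pow h1)

/-- a form of too small degree vanishes -/
theorem Strip.eq_zero (S : Strip t P Q T R x ζ) {w n : ℕ} {h : R2} (hh : h.IsHomogeneous n)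
    (hn : n < w * (2 * t + 1)) (hd : (∏ j, LL (x j)) ^ w ∣ h) : h = 0 := by
  obtain ⟨g, hg⟩ := hd
  obtain ⟨g', _, h1, h2⟩ := hom_factor (S.prod_hom.pow w) hh hg
  rw [h2, h1 (by rw [mul_comm]; exact hn), mul_zero]

theorem Strip.Uz_dvd (S : Strip t P Q T R x ζ) {D : ℕ} {G : R3} (hG : G.IsHomogeneous D)
    (h : phi P T G = 0) : Uz P T ∣ G := by
  have h1 := phi_mod P T hG
  rw [h, map_zero, sub_zero] at h1
  exact Str.Uz_dvd S.P_ne S.relPrime h1

theorem Strip.empty_aux (S : Strip t P Q T R x ζ) {β : ℕ} (hβ : β < t) (u : ℕ) :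
    ∀ G : R3, G.IsHomogeneous ((u + 1) * (t + 1) + β) → G.degreeOf 2 ≤ u →
      (∀ j, (Polynomial.X : Polynomial R3) ^ (u + 1) ∣ kap (x j) (ζ j) G) → G = 0 := by
  induction u with
  | zero =>
    intro G hG hz hv
    by_contra hG0
    have hw : 0 ≤ (0 + 1) * (t + 1) + β := Nat.zero_le _
    obtain ⟨h, hh, hφ⟩ := phi_small S.hP S.hT hG hw hz
    have h1 : h = 0 := by
      apply S.eq_zero (w := 0 + 1) hh (by omega)
      apply S.dvd_of_pow (n := (0 + 1) * (t + 1) + β - 0)
      intro j
      rw [← hφ]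
      exact S.phi_dvd_all hv j
    rw [h1, mul_zero] at hφ
    obtain ⟨G2, hG2⟩ := S.Uz_dvd hG hφ
    have h2 : G2 ≠ 0 := by
      rintro rfl
      apply hG0
      rw [hG2, mul_zero]
    have h3 : Uz P T ≠ 0 := by
      intro h
      apply hG0
      rw [hG2, h, zero_mul]
    rw [hG2, degreeOf_mul_eq h3 h2, Uz_degreeOf S.P_ne] at hz
    omega
  | succ u ih =>
    intro G hG hz hv
    have hw : u + 1 ≤ (u + 1 + 1) * (t + 1) + β := by nlinarith
    obtain ⟨h, hh, hφ⟩ := phi_small S.hP S.hT hG hw hz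
    have h1 : h = 0 := by
      apply S.eq_zero (w := u + 1 + 1) hh (by nlinarith)
      apply S.dvd_of_pow (n := (u + 1 + 1) * (t + 1) + β - (u + 1))
      intro j
      rw [← hφ]
      exact S.phi_dvd_all hv j
    rw [h1, mul_zero] at hφ
    obtain ⟨G1, hG1⟩ := S.Uz_dvd hG hφ
    obtain ⟨G2, hG2h, -, hG2⟩ := hom_factor (Uz_hom S.hP S.hT) hG hG1
    have hdeg : (u + 1 + 1) * (t + 1) + β - (t + 1) = (u + 1) * (t + 1) + β := by
      have : (u + 1 + 1) * (t + 1) = (u + 1) * (t + 1) + (t + 1) := by ring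
      omega
    rw [hdeg] at hG2h
    have h2 : G2 = 0 := by
      by_contra h2
      apply h2
      apply ih G2 hG2h
      · have h3 : Uz P T ≠ 0 := by
          intro h
          have := Uz_degreeOf (T := T) S.P_ne
          rw [h, degreeOf_zero] at this
          omega
        rw [hG2, degreeOf_mul_eq h3 h2, Uz_degreeOf S.P_ne] at hz
        omega
      · intro j
        apply dvd_of_Uz_mul S.hP S.hT (S.hPx j) (S.hT' j)
        rw [← hG2]
        exact hv j
    rw [hG2, h2, mul_zero]

theorem Strip.empty (S : Strip t P Q T R x ζ)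
    {u β : ℕ} (hu : 1 ≤ u) (hβ : β < t) {G : R3} (hG : G.IsHomogeneous (u * (t + 1) + β))
    (hz : ∀ α, coeff α G ≠ 0 → α 2 < u) (hv : ∀ j, VanishTo G (sp x ζ j) u) : G = 0 := by
  obtain ⟨v, rfl⟩ : ∃ v, u = v + 1 := ⟨u - 1, by omega⟩
  apply S.empty_aux hβ v G hG
  · rw [degreeOf_le_iff]
    intro α hα
    have := hz α (MvPolynomial.mem_support_iff.mp hα)
    omega
  · intro j
    exact kap_dvd hG (hv j)

theorem Strip.VU (S : Strip t P Q T R x ζ) :
    emb P * Uz Q R - -emb (∏ j, LL (x j)) = emb Q * Uz P T := by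
  rw [← S.prodLL, map_sub, map_mul, map_mul]
  unfold Uz
  ring

theorem Strip.step (S : Strip t P Q T R x ζ) {w D : ℕ} {G : R3} (hG : G.IsHomogeneous D)
    (hz : G.degreeOf 2 ≤ w + 1)
    (hv : ∀ j, (Polynomial.X : Polynomial R3) ^ (w + 1) ∣ kap (x j) (ζ j) G) :
    ∃ ψ : R2, ψ.IsHomogeneous (D - (w + 1) * (t + 1)) ∧ (D < (w + 1) * (t + 1) → ψ = 0) ∧
      Uz P T ∣ G - emb ψ * Uz Q R ^ (w + 1) := by
  by_cases hφ0 : phi P T G = 0
  · refine ⟨0, isHomogeneous_zero _ _ _, fun _ => rfl, ?_⟩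
    rw [map_zero, zero_mul, sub_zero]
    exact S.Uz_dvd hG hφ0
  · have hφh : (phi P T G).IsHomogeneous ((t + 1) * D) := by
      unfold phi
      apply hG.aeval
      intro i
      fin_cases i
      · exact S.hP.mul (isHomogeneous_X _ _)
      · exact S.hP.mul (isHomogeneous_X _ _)
      · exact S.hT
    have hw : w + 1 ≤ D := by
      by_contra hw
      apply hφ0
      apply S.eq_zero (w := w + 1) hφh
      · have h1 : (t + 1) * D < (t + 1) * (w + 1) := Nat.mul_lt_mul_of_pos_left (by omega) (by omega)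
        have h2 : (t + 1) * (w + 1) ≤ (w + 1) * (2 * t + 1) := by nlinarith
        omega
      · exact prod_LL_dvd S.hx (S.phi_dvd_all hv)
    obtain ⟨h, hh, hφ⟩ := phi_small S.hP S.hT hG hw hz
    have h1 : (∏ j, LL (x j)) ^ (w + 1) ∣ h := by
      apply S.dvd_of_pow (n := D - (w + 1))
      intro j
      rw [← hφ]
      exact S.phi_dvd_all hv j
    obtain ⟨g, hg⟩ := h1
    obtain ⟨ψ, hψ, hψ0, hψe⟩ := hom_factor (S.prod_hom.pow (w + 1)) hh hg
    have hdeg : (2 * t + 1) * (w + 1) = (w + 1) * (t + 1) + (w + 1) * t := by ring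
    have hψ' : ψ.IsHomogeneous (D - (w + 1) * (t + 1)) := by
      have : D + (w + 1) * t - (2 * t + 1) * (w + 1) = D - (w + 1) * (t + 1) := by
        rw [hdeg]
        omega
      rwa [this] at hψ
    refine ⟨C ((-1) ^ (w + 1)) * ψ, hψ'.C_mul _, ?_, ?_⟩
    · intro hD
      rw [hψ0 (by rw [hdeg]; omega), mul_zero]
    · apply Str.Uz_dvd S.P_ne S.relPrime (n := D)
      have h2 := phi_mod P T hG
      have h3 : emb P * Uz Q R - -emb (∏ j, LL (x j)) ∣
          (emb P * Uz Q R) ^ (w + 1) - (-emb (∏ j, LL (x j))) ^ (w + 1) :=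
        sub_dvd_pow_sub_pow _ _ _
      rw [S.VU] at h3
      have h4 : Uz P T ∣ (emb P * Uz Q R) ^ (w + 1) - (-emb (∏ j, LL (x j))) ^ (w + 1) :=
        (Dvd.intro_left _ rfl).trans h3
      have h5 : emb P ^ D = emb P ^ (D - (w + 1)) * emb P ^ (w + 1) := by
        rw [← pow_add, Nat.sub_add_cancel hw]
      have h6 : emb (phi P T G) = emb P ^ (D - (w + 1)) * (emb (∏ j, LL (x j)) ^ (w + 1) * emb ψ) := by
        rw [hφ, hψe, map_mul, map_mul, map_pow, map_pow]
      have h7 : ((-1 : R3) ^ (w + 1)) * (-1) ^ (w + 1) = 1 := by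
        rw [← mul_pow]
        norm_num
      have h8 : emb P ^ D * (G - emb (C ((-1) ^ (w + 1)) * ψ) * Uz Q R ^ (w + 1)) =
          (emb P ^ D * G - emb (phi P T G)) - emb P ^ (D - (w + 1)) * (-1) ^ (w + 1) * emb ψ *
            ((emb P * Uz Q R) ^ (w + 1) - (-emb (∏ j, LL (x j))) ^ (w + 1)) := by
        have h9 : emb (C ((-1) ^ (w + 1)) * ψ) = (-1) ^ (w + 1) * emb ψ := by
          rw [map_mul, emb_C, C_pow, C_neg, C_1]
        rw [h9, h6, neg_pow (emb (∏ j, LL (x j))), mul_pow]
        linear_combination (-(-1) ^ (w + 1) * emb ψ * Uz Q R ^ (w + 1)) * h5 -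
          (emb P ^ (D - (w + 1)) * emb ψ * emb (∏ j, LL (x j)) ^ (w + 1)) * h7
      rw [h8]
      exact dvd_sub h2 (h4.mul_left _)

theorem Strip.struct_aux (S : Strip t P Q T R x ζ) (w : ℕ) :
    ∀ (D : ℕ) (G : R3), G.IsHomogeneous D → G.degreeOf 2 ≤ w →
      (∀ j, (Polynomial.X : Polynomial R3) ^ w ∣ kap (x j) (ζ j) G) →
      ∃ Φ : R4, BiHom w (D - w * (t + 1)) Φ ∧ (D < w * (t + 1) → Φ = 0) ∧
        onS P Q T R Φ = G := by
  induction w with
  | zero =>
    intro D G hG hz hv
    refine ⟨em4 (res G), ?_, fun h => absurd h (by omega), ?_⟩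
    · rw [zero_mul, Nat.sub_zero]
      exact em4_biHom (res_isHom hG)
    · rw [onS_em4, emb_res (by omega)]
  | succ w ih =>
    intro D G hG hz hv
    obtain ⟨ψ, hψ, hψ0, hψd⟩ := S.step hG hz hv
    have hVh := Uz_hom S.hQ S.hR
    have h1 : (emb ψ * Uz Q R ^ (w + 1)).IsHomogeneous D := by
      by_cases hD : D < (w + 1) * (t + 1)
      · rw [hψ0 hD, map_zero, zero_mul]
        exact isHomogeneous_zero _ _ _
      · have h2 := (emb_hom hψ).mul (hVh.pow (w + 1))
        have h3 : D - (w + 1) * (t + 1) + (t + 1) * (w + 1) = D := by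
          have : (t + 1) * (w + 1) = (w + 1) * (t + 1) := by ring
          omega
        rwa [h3] at h2
    have h2 : (emb ψ * Uz Q R ^ (w + 1)).degreeOf 2 ≤ w + 1 := by
      have h3 := degreeOf_mul_le 2 (emb ψ) (Uz Q R ^ (w + 1))
      have h4 := degreeOf_pow_le 2 (Uz Q R) (w + 1)
      have h5 := Uz_degreeOf_le Q R
      rw [emb_degreeOf] at h3
      have h6 : (w + 1) * (Uz Q R).degreeOf 2 ≤ (w + 1) * 1 := Nat.mul_le_mul_left _ h5
      omega
    have h3 : ∀ j, (Polynomial.X : Polynomial R3) ^ (w + 1) ∣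
        kap (x j) (ζ j) (emb ψ * Uz Q R ^ (w + 1)) := by
      intro j
      rw [map_mul, map_pow]
      exact (pow_dvd_pow_of_dvd (Uz_kap_dvd S.hQ S.hR (S.hR' j)) (w + 1)).mul_left _
    obtain ⟨g, hg⟩ := hψd
    obtain ⟨G2, hG2h, hG20, hG2⟩ := hom_factor (Uz_hom S.hP S.hT) (hG.sub h1) hg
    have hU0 : Uz P T ≠ 0 := by
      intro h
      have := Uz_degreeOf (T := T) S.P_ne
      rw [h, degreeOf_zero] at this
      omega
    have hexp : (w + 1) * (t + 1) = w * (t + 1) + (t + 1) := by ring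
    obtain ⟨Φ2, hΦ2, hΦ20, hΦ2e⟩ : ∃ Φ2 : R4, BiHom w (D - (w + 1) * (t + 1)) Φ2 ∧
        (D < (w + 1) * (t + 1) → Φ2 = 0) ∧ onS P Q T R Φ2 = G2 := by
      by_cases hD : D < t + 1
      · exact ⟨0, biHom_zero _ _, fun _ => rfl, by rw [map_zero, hG20 hD]⟩
      · have hz2 : G2.degreeOf 2 ≤ w := by
          by_cases hG2z : G2 = 0
          · rw [hG2z, degreeOf_zero]
            omega
          · have h4 : (Uz P T * G2).degreeOf 2 ≤ w + 1 := by
              rw [← hG2, sub_eq_add_neg]
              have h5 := degreeOf_add_le 2 G (-(emb ψ * Uz Q R ^ (w + 1)))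
              have h6 : (-(emb ψ * Uz Q R ^ (w + 1))).degreeOf 2 ≤ w + 1 := by
                have h7 := degreeOf_C_mul_le (emb ψ * Uz Q R ^ (w + 1)) 2 (-1)
                rw [C_neg, C_1, neg_one_mul] at h7
                omega
              omega
            rw [degreeOf_mul_eq hU0 hG2z, Uz_degreeOf S.P_ne] at h4
            omega
        have hv2 : ∀ j, (Polynomial.X : Polynomial R3) ^ w ∣ kap (x j) (ζ j) G2 := by
          intro j
          apply dvd_of_Uz_mul S.hP S.hT (S.hPx j) (S.hT' j)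
          rw [← hG2, map_sub]
          exact dvd_sub (hv j) (h3 j)
        obtain ⟨Φ2, a1, a2, a3⟩ := ih (D - (t + 1)) G2 hG2h hz2 hv2
        refine ⟨Φ2, ?_, fun h => a2 (by omega), a3⟩
        have h4 : D - (t + 1) - w * (t + 1) = D - (w + 1) * (t + 1) := by omega
        rwa [h4] at a1
    refine ⟨X 0 * Φ2 + em4 ψ * X 1 ^ (w + 1), ?_, ?_, ?_⟩
    · apply biHom_add
      · have h4 := biHom_mul biHom_X0 hΦ2
        rwa [add_comm 1 w, zero_add] at h4
      · have h4 := biHom_mul (em4_biHom hψ) (biHom_pow biHom_X1 (w + 1))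
        rwa [zero_add, mul_one, mul_zero, add_zero] at h4
    · intro hD
      rw [hΦ20 hD, hψ0 hD, map_zero, mul_zero, zero_mul, add_zero]
    · rw [map_add, map_mul, map_mul, map_pow, onS_X0, onS_X1, onS_em4, hΦ2e, ← hG2]
      ring

theorem Strip.struct (S : Strip t P Q T R x ζ)
    {w D : ℕ} {G : R3} (hG : G.IsHomogeneous D) (hz : ∀ α, coeff α G ≠ 0 → α 2 ≤ w)
    (hv : ∀ j, VanishTo G (sp x ζ j) w) :
    ∃ Φ : R4, (∀ α, coeff α Φ ≠ 0 → α 0 + α 1 = w ∧ α 2 + α 3 + w * (t + 1) = D) ∧
      onS P Q T R Φ = G := by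
  obtain ⟨Φ, h1, h2, h3⟩ := S.struct_aux w D G hG
    (degreeOf_le_iff.mpr fun α hα => hz α (MvPolynomial.mem_support_iff.mp hα))
    (fun j => kap_dvd hG (hv j))
  refine ⟨Φ, ?_, h3⟩
  intro α hα
  obtain ⟨h4, h5⟩ := h1 α hα
  refine ⟨h4, ?_⟩
  by_cases hD : D < w * (t + 1)
  · rw [h2 hD, coeff_zero] at hα
    exact absurd rfl hα
  · omega

end

end Pool.Agent.Work.MP_0421d9_ag.SM
end

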