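import Pool.Agent.Work.Z0421M.C04

section
/-!
Descent of common factors, when the points are dropped one after the other.
-/

set_option linter.unusedSectionVars false

namespace Pool.Agent.Work.MP_0421d9_ag

open MvPolynomial Module

section nc

variable {ι : Type} [Fintype ι] [DecidableEq ι] {d : ℕ} {p : ι → V3}
  {E : ι → Fin 3 → Derivation ℚ ℂ ℂ} {z : ι → ℕ} {π : R3}

theorem cD_Psi' (hE : IsDual p E) (hm : ∀ i, z i ≤ d) {G : ι → R3} (j : ι) (v : V3) :
    cD (mv E j v) (Psi d p z G) =
      C ((d + 1 - z j : ℕ) : ℂ) * (lin (p j) ^ (d - z j) * (lin v * G j)) +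
      Psi d p z (fun i => cD (mv E j v) (G i)) := by
  rw [Psi_apply, Psi_apply, map_sum]
  have h1 : ∀ i, cD (mv E j v) (lin (p i) ^ (d + 1 - z i) * G i) =
      (if i = j then C ((d + 1 - z j : ℕ) : ℂ) *
        (lin (p j) ^ (d - z j) * (lin v * G j)) else 0) +
      lin (p i) ^ (d + 1 - z i) * cD (mv E j v) (G i) := by
    intro i
    by_cases h : i = j
    · subst h
      rw [if_pos rfl, cD_mul, cD_pow, cD_lin_self hE,
        (by have := hm i; omega : d + 1 - z i - 1 = d - z i)]
      ring
    · rw [if_neg h, cD_mul, cD_lin_pow_ne hE h, zero_mul]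
  rw [Finset.sum_congr rfl (fun i _ => h1 i), Finset.sum_add_distrib, Finset.sum_ite_eq' _ j,
    if_pos (Finset.mem_univ j)]

/-- if `z` cuts out a complete series at `j`, the system with the multiplicity at `j` lowered is
spanned by the system and its derivatives along motions of `j`; dual form -/
theorem mem_J_dn (hE : IsDual p E) (hz : ∀ l, z l ≤ d) {j : ι} (hj : 1 ≤ z j)
    (hfull : Rigid.Full d p z j) {A : R3} (hA : A ∈ J d p z)
    (hDA : ∀ v, cD (mv E j v) A ∈ J d p z) : A ∈ J d p (dn z j) := by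
  obtain ⟨G, hG, hGA⟩ := mem_J.mp hA
  have hGA' : Psi d p z G = A := by rw [Psi_apply]; exact hGA
  obtain ⟨v, hv⟩ := exists_cr_ne (gp1 hE j)
  have h1 := cD_Psi' hE hz (G := G) j v
  rw [hGA'] at h1
  have h2 : Psi d p z (fun i => cD (mv E j v) (G i)) ∈ J d p z :=
    mem_J.mpr ⟨_, fun i => cD_mem_Hm _ (hG i), by rw [Psi_apply]⟩
  have h3 : C ((d + 1 - z j : ℕ) : ℂ) * (lin (p j) ^ (d - z j) * (lin v * G j)) ∈ J d p z := by
    have h4 : C ((d + 1 - z j : ℕ) : ℂ) * (lin (p j) ^ (d - z j) * (lin v * G j)) =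
        cD (mv E j v) A - Psi d p z (fun i => cD (mv E j v) (G i)) := by
      rw [h1]; ring
    rw [h4]
    exact Submodule.sub_mem _ (hDA v) h2
  have h4 : lin (p j) ^ (d - z j) * (lin v * G j) ∈ J d p z := by
    rw [← smul_eq_C_mul] at h3
    have h5 : ((d + 1 - z j : ℕ) : ℂ) ≠ 0 := by
      rw [Nat.cast_ne_zero]
      have := hz j
      omega
    exact (Submodule.smul_mem_iff _ h5).mp h3
  have hGj : (G j).IsHomogeneous (z j - 1) := by
    have h5 := hG j
    obtain ⟨n, hn⟩ : ∃ n, z j = n + 1 := ⟨z j - 1, by omega⟩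
    rw [hn, mem_Hm_succ] at h5
    rwa [hn, Nat.add_sub_cancel]
  have h5 : (lin v * G j).IsHomogeneous (z j) := by
    have := (lin_isHomogeneous v).mul hGj
    rwa [(by omega : 1 + (z j - 1) = z j)] at this
  have h6 : lin (p j) ∣ G j := lin_dvd_of_mul (gp1 hE j) hv (hfull _ h5 h4)
  obtain ⟨G', hG', hGG'⟩ := exists_Hm_factor hGj h6
  rw [← hGA]
  apply Submodule.sum_mem
  intro l _
  by_cases hl : l = j
  · subst hl
    have h7 : lin (p l) ^ (d + 1 - z l) * G l = lin (p l) ^ (d + 1 - dn z l l) * G' := by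
      rw [dn_self, hGG', (by have := hz l; omega : d + 1 - (z l - 1) = d + 1 - z l + 1), pow_succ]
      ring
    rw [h7]
    apply summand_mem_J
    rw [dn_self]
    exact hG'
  · have h7 := hG l
    rw [← dn_ne z hl] at h7 ⊢
    exact summand_mem_J l h7

theorem full_dn (hE : IsDual p E) (hz : ∀ l, z l ≤ d) {j : ι} (hj : 1 ≤ z j)
    (hfull : Rigid.Full d p z j) : Rigid.Full d p (dn z j) j := by
  have hz' : ∀ l, dn z j l ≤ d := fun l => (dn_le z j l).trans (hz l)
  intro U hU hJ
  rw [dn_self] at hU hJ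
  obtain ⟨v, hv⟩ := exists_cr_ne (gp1 hE j)
  apply lin_dvd_of_mul (gp1 hE j) hv
  apply hfull
  · have := (lin_isHomogeneous v).mul hU
    rwa [(by omega : 1 + (z j - 1) = z j)] at this
  · have e1 : d - (z j - 1) = d - z j + 1 := by have := hz j; omega
    have h1 : lin (p j) ^ (d - (z j - 1)) * cD (mv E j v) U ∈ J d p z := by
      have h2 : cD (mv E j v) U ∈ Hm (z j) := by
        obtain ⟨n, hn⟩ : ∃ n, z j = n + 1 := ⟨z j - 1, by omega⟩
        rw [hn, mem_Hm_succ]
        rw [hn, Nat.add_sub_cancel] at hU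
        exact cD_isHomogeneous _ hU
      have h3 := summand_mem_J (d := d) (p := p) j h2
      rwa [(by have := hz j; omega : d + 1 - z j = d - (z j - 1))] at h3
    have h2 := cD_mem_J_up hE hz' j v hJ
    rw [up_dn hj, e1, cD_mul, cD_pow, cD_lin_self hE, Nat.add_sub_cancel] at h2
    rw [e1] at h1
    have h3 := Submodule.sub_mem _ h2 h1
    have h4 : C ((d - z j + 1 : ℕ) : ℂ) * (lin (p j) ^ (d - z j) * lin v) * U +
        lin (p j) ^ (d - z j + 1) * cD (mv E j v) U -
        lin (p j) ^ (d - z j + 1) * cD (mv E j v) U =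
        ((d - z j + 1 : ℕ) : ℂ) • (lin (p j) ^ (d - z j) * (lin v * U)) := by
      rw [smul_eq_C_mul]; ring
    rw [h4] at h3
    have h5 : ((d - z j + 1 : ℕ) : ℂ) ≠ 0 := by
      rw [Nat.cast_ne_zero]; omega
    exact (Submodule.smul_mem_iff _ h5).mp h3

/-- a common factor divides the system with the multiplicity lowered -/
theorem dvd_dn (hE : IsDual p E) (hz : ∀ l, z l ≤ d) {j : ι} (hj : 1 ≤ z j)
    (hfull : Rigid.Full d p z j) (hdiv : ∀ f ∈ linSys d p z, π ∣ f)
    (hD : ∀ v, π ∣ cD (mv E j v) π) : ∀ f ∈ linSys d p (dn z j), π ∣ f := by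
  intro f hf
  set N : Submodule ℂ R3 := Rd d ⊓ (Ideal.span {π}).restrictScalars ℂ with hN
  have hmem : ∀ g, g ∈ N ↔ g.IsHomogeneous d ∧ π ∣ g := by
    intro g
    rw [hN, Submodule.mem_inf, Submodule.restrictScalars_mem, Ideal.mem_span_singleton]
    rfl
  suffices h : f ∈ N from ((hmem f).mp h).2
  by_contra hfN
  obtain ⟨A, hA, hAN, hAf⟩ := exists_sep (inf_le_left : N ≤ Rd d) hf.1 hfN
  apply hAf
  have hz1 : ∀ l, z l ≤ d + 1 := fun l => (hz l).trans (Nat.le_succ d)
  have h1 : A ∈ J d p z := mem_J_of_B hz1 hA (fun F hF => hAN F ((hmem F).mpr ⟨hF.1, hdiv F hF⟩))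
  have h2 : ∀ v, cD (mv E j v) A ∈ J d p z := by
    intro v
    apply mem_J_of_B hz1 (cD_isHomogeneous _ hA)
    intro F hF
    obtain ⟨g, hg⟩ := hdiv F hF
    have h3 := D_B (mv E j v) A F
    rw [hAN F ((hmem F).mpr ⟨hF.1, hdiv F hF⟩), map_zero, hAN (cD (mv E j v) F) ((hmem _).mpr
      ⟨cD_isHomogeneous _ hF.1, ?_⟩), add_zero] at h3
    · exact h3.symm
    · rw [hg, cD_mul]
      exact dvd_add (Dvd.dvd.mul_right (hD v) _) (Dvd.intro _ rfl)
  have h3 := mem_J_dn hE hz hj hfull h1 h2
  exact B_J_linSys (fun l => (dn_le z j l).trans (hz1 l)) h3 hf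

/-- a common factor divides the system with the point dropped -/
theorem dvd_drop (hE : IsDual p E) (hz : ∀ l, z l ≤ d) {j : ι}
    (hfull : Rigid.Full d p z j) (hπ : Irreducible π) (hdiv : ∀ f ∈ linSys d p z, π ∣ f) :
    ∀ f ∈ linSys d p (Function.update z j 0), π ∣ f := by
  have hev := eval_ne_of_full hz (gp1 hE j) hfull hπ hdiv
  have hne := ne_bot_of_full hz (gp1 hE j) hfull
  have hD : ∀ v, π ∣ cD (mv E j v) π := dvd_cD_of_eval_ne hE hπ hne hdiv hev
  have key : ∀ n, ∀ z : ι → ℕ, z j = n → (∀ l, z l ≤ d) → Rigid.Full d p z j →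
      (∀ f ∈ linSys d p z, π ∣ f) → ∀ f ∈ linSys d p (Function.update z j 0), π ∣ f := by
    intro n
    induction n with
    | zero =>
      intro z hzj _ _ hdiv
      rw [← hzj, Function.update_eq_self]
      exact hdiv
    | succ n ih =>
      intro z hzj hz hfull hdiv
      have hj : 1 ≤ z j := by omega
      have h1 := ih (dn z j) (by rw [dn_self]; omega) (fun l => (dn_le z j l).trans (hz l))
        (full_dn hE hz hj hfull) (dvd_dn hE hz hj hfull hdiv hD)
      have h2 : Function.update (dn z j) j 0 = Function.update z j 0 := by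
        unfold dn
        rw [Function.update_idem]
      rwa [h2] at h1
  exact key (z j) z rfl hz hfull hdiv

/-- completeness passes to smaller multiplicities at the other points -/
theorem full_mono {z z' : ι → ℕ} (hz' : ∀ l, z' l ≤ d) (hle : ∀ l, z l ≤ z' l) {j : ι}
    (hj : z j = z' j) (hfull : Rigid.Full d p z' j) : Rigid.Full d p z j := by
  intro U hU hJ
  apply hfull U
  · rwa [← hj]
  · rw [← hj]
    exact J_mono (fun l => (hz' l).trans (Nat.le_succ d)) hle hJ

end nc

end Pool.Agent.Work.MP_0421d9_ag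
end

section
/-!
Linear systems without common factor.
-/

set_option linter.unusedSectionVars false

namespace Pool.Agent.Work.MP_0421d9_ag

open MvPolynomial Module

theorem cr_eq_zero_of_dvd {π : R3} (hπ : Irreducible π) {u v : V3} (hu0 : u ≠ 0)
    (hu : π ∣ lin u) (hv : π ∣ lin v) : cr u v = 0 := by
  have h1 : Associated π (lin u) := hπ.associated_of_dvd (lin_prime hu0).irreducible hu
  exact lin_dvd_lin (h1.symm.dvd.trans hv)

theorem vanishTo_pow {f : R3} {a : V3} (h : eval a f = 0) (n : ℕ) : VanishTo (f ^ n) a n := by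
  induction n with
  | zero => exact vanishTo_zero _ _
  | succ n ih =>
    rw [pow_succ]
    exact vanishTo_mul ih (vanishTo_one_iff.mpr h)

section nc

variable {ι : Type} [Fintype ι] [DecidableEq ι] {d : ℕ} {p : ι → V3}
  {E : ι → Fin 3 → Derivation ℚ ℂ ℂ} {z : ι → ℕ} {π : R3}

/-- three points: the monomials in the equations of the three lines have no common factor -/
theorem three_no_common (hE : IsDual p E) {a b c : ι} (hab : a ≠ b) (hac : a ≠ c) (hbc : b ≠ c)
    (h1 : z a + z b ≤ d) (h2 : z a + z c ≤ d) (h3 : z b + z c ≤ d)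
    (h0 : ∀ l, l ≠ a → l ≠ b → l ≠ c → z l = 0) (hπ : Irreducible π)
    (hdiv : ∀ f ∈ linSys d p z, π ∣ f) : False := by
  have hpr := hπ.prime
  -- two lines with a common point do not coincide
  have key : ∀ x y w : ι, x ≠ y → x ≠ w → y ≠ w → π ∣ xl (p x) (p y) → π ∣ xl (p x) (p w) →
      False := by
    intro x y w hxy hxw hyw h4 h5
    have h6 : cr (p x) (p y) ≠ 0 := gp2 hE hxy
    have h7 := cr_eq_zero_of_dvd hπ h6 h4 h5
    obtain ⟨s, hs⟩ := exists_smul_of_cr_eq_zero h6 h7
    have h8 : eval (p y) (xl (p x) (p w)) = 0 := by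
      unfold xl
      rw [hs, lin_smul, map_mul]
      have : eval (p y) (lin (cr (p x) (p y))) = 0 := eval_xl_right _ _
      rw [this, mul_zero]
    exact gp3 hE hxw hxy hyw.symm h8
  have hsymm : ∀ x y : V3, π ∣ xl x y → π ∣ xl y x := by
    intro x y h
    rw [xl_symm]
    exact Dvd.dvd.mul_left h _
  -- the monomial without the line through the two points other than `x`
  have mono : ∀ x y w : ι, x ≠ y → x ≠ w → y ≠ w → z x + z y ≤ d → z x + z w ≤ d →
      z y + z w ≤ d → (∀ l, l ≠ x → l ≠ y → l ≠ w → z l = 0) →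
      π ∣ xl (p x) (p w) ∨ π ∣ xl (p x) (p y) := by
    intro x y w hxy hxw hyw e1 e2 e3 e0
    have h4 : xl (p x) (p w) ^ (z w) * xl (p x) (p y) ^ (d - z w) ∈ linSys d p z := by
      refine ⟨?_, fun l => ?_⟩
      · have := (xl_pow_isHomogeneous (p x) (p w) (z w)).mul
          (xl_pow_isHomogeneous (p x) (p y) (d - z w))
        rwa [(by omega : z w + (d - z w) = d)] at this
      · by_cases hlx : l = x
        · subst hlx
          have h5 := vanishTo_mul (vanishTo_pow (eval_xl_left (p l) (p w)) (z w))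
            (vanishTo_pow (eval_xl_left (p l) (p y)) (d - z w))
          exact h5.mono (by omega)
        · by_cases hly : l = y
          · subst hly
            have h5 := vanishTo_mul (vanishTo_zero (xl (p x) (p w) ^ (z w)) (p l))
              (vanishTo_pow (eval_xl_right (p x) (p l)) (d - z w))
            exact h5.mono (by omega)
          · by_cases hlw : l = w
            · subst hlw
              have h5 := vanishTo_mul (vanishTo_pow (eval_xl_right (p x) (p l)) (z l))
                (vanishTo_zero (xl (p x) (p y) ^ (d - z l)) (p l))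
              exact h5.mono (by omega)
            · rw [e0 l hlx hly hlw]
              exact vanishTo_zero _ _
    rcases hpr.dvd_or_dvd (hdiv _ h4) with h5 | h5
    · exact Or.inl (hpr.dvd_of_dvd_pow h5)
    · exact Or.inr (hpr.dvd_of_dvd_pow h5)
  have ma := mono a b c hab hac hbc h1 h2 h3 h0
  have mb := mono b a c hab.symm hbc hac (by omega) h3 h2 (fun l h4 h5 h6 => h0 l h5 h4 h6)
  have mc := mono c a b hac.symm hbc.symm hab (by omega) (by omega) h1
    (fun l h4 h5 h6 => h0 l h5 h6 h4)
  -- lines ab, ac, bc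
  rcases ma with ha | ha
  · -- ac
    rcases mb with hb | hb
    · -- bc
      exact key c a b hac.symm hbc.symm hab (hsymm _ _ ha) (hsymm _ _ hb)
    · -- ba
      exact key a c b hac hab hbc.symm ha (hsymm _ _ hb)
  · -- ab
    rcases mc with hc | hc
    · -- cb
      exact key b a c hab.symm hbc hac (hsymm _ _ ha) (hsymm _ _ hc)
    · -- ca
      exact key a b c hab hac hbc ha (hsymm _ _ hc)

/-- **No common factor**, when the points outside `a`, `b`, `c` are added one after the other and
each time the system cuts out a complete series on the new exceptional curve. -/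
theorem no_common {m : ι → ℕ} (hE : IsDual p E) (hm : ∀ l, m l ≤ d) {a b c : ι} (hab : a ≠ b)
    (hac : a ≠ c) (hbc : b ≠ c) (h1 : m a + m b ≤ d) (h2 : m a + m c ≤ d) (h3 : m b + m c ≤ d)
    {ρ : ι → ℕ} (hfull : ∀ j, j ≠ a → j ≠ b → j ≠ c → 1 ≤ m j →
      Rigid.Full d p (rs (fun l => ρ l ≤ ρ j ∨ l = a ∨ l = b ∨ l = c) m) j)
    (hπ : Irreducible π) (hdiv : ∀ f ∈ linSys d p m, π ∣ f) : False := by
  classical
  have key : ∀ n, ∀ z : ι → ℕ, (∀ l, z l ≤ m l) → z a = m a → z b = m b → z c = m c →
      (∀ l, l ≠ a → l ≠ b → l ≠ c → z l = 0 ∨ z l = m l) →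
      (Finset.univ.filter (fun l => l ≠ a ∧ l ≠ b ∧ l ≠ c ∧ z l ≠ 0)).card = n →
      (∀ f ∈ linSys d p z, π ∣ f) → False := by
    intro n
    induction n with
    | zero =>
      intro z hz ha hb hc hzl hcard hdiv
      refine three_no_common hE hab hac hbc (by omega) (by omega) (by omega) ?_ hπ hdiv
      intro l hla hlb hlc
      by_contra hl
      rw [Finset.card_eq_zero] at hcard
      have : l ∈ (Finset.univ.filter (fun l => l ≠ a ∧ l ≠ b ∧ l ≠ c ∧ z l ≠ 0)) := by
        rw [Finset.mem_filter]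
        exact ⟨Finset.mem_univ _, hla, hlb, hlc, hl⟩
      rw [hcard] at this
      exact absurd this (Finset.notMem_empty l)
    | succ n ih =>
      intro z hz ha hb hc hzl hcard hdiv
      set S := Finset.univ.filter (fun l => l ≠ a ∧ l ≠ b ∧ l ≠ c ∧ z l ≠ 0) with hS
      have hSne : S.Nonempty := by
        rw [← Finset.card_pos]; omega
      obtain ⟨j, hj, hmax⟩ := Finset.exists_max_image S ρ hSne
      rw [hS, Finset.mem_filter] at hj
      obtain ⟨-, hja, hjb, hjc, hzj⟩ := hj
      have hzjm : z j = m j := (hzl j hja hjb hjc).resolve_left hzj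
      have hzd : ∀ l, z l ≤ d := fun l => (hz l).trans (hm l)
      have hfz : Rigid.Full d p z j := by
        refine full_mono (z' := rs (fun l => ρ l ≤ ρ j ∨ l = a ∨ l = b ∨ l = c) m)
          (fun l => (rs_le _ _ l).trans (hm l)) ?_ ?_ (hfull j hja hjb hjc (by omega))
        · intro l
          by_cases hl : ρ l ≤ ρ j ∨ l = a ∨ l = b ∨ l = c
          · rw [rs_of (W := fun l => ρ l ≤ ρ j ∨ l = a ∨ l = b ∨ l = c) hl]
            exact hz l
          · rw [rs_not (W := fun l => ρ l ≤ ρ j ∨ l = a ∨ l = b ∨ l = c) hl]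
            push Not at hl
            by_contra h0
            have hlS : l ∈ S := by
              rw [hS, Finset.mem_filter]
              exact ⟨Finset.mem_univ _, hl.2.1, hl.2.2.1, hl.2.2.2, by omega⟩
            have := hmax l hlS
            omega
        · rw [rs_of (W := fun l => ρ l ≤ ρ j ∨ l = a ∨ l = b ∨ l = c) (Or.inl le_rfl)]
          exact hzjm
      have hdrop := dvd_drop hE hzd hfz hπ hdiv
      refine ih (Function.update z j 0) ?_ ?_ ?_ ?_ ?_ ?_ hdrop
      · intro l
        by_cases hl : l = j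
        · rw [hl, Function.update_self]; exact Nat.zero_le _
        · rw [Function.update_of_ne hl]; exact hz l
      · rw [Function.update_of_ne hja.symm]; exact ha
      · rw [Function.update_of_ne hjb.symm]; exact hb
      · rw [Function.update_of_ne hjc.symm]; exact hc
      · intro l hla hlb hlc
        by_cases hl : l = j
        · left; rw [hl, Function.update_self]
        · rw [Function.update_of_ne hl]; exact hzl l hla hlb hlc
      · have h4 : Finset.univ.filter (fun l => l ≠ a ∧ l ≠ b ∧ l ≠ c ∧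
            Function.update z j 0 l ≠ 0) = S.erase j := by
          ext l
          rw [hS, Finset.mem_erase, Finset.mem_filter, Finset.mem_filter]
          by_cases hl : l = j
          · subst hl
            simp
          · rw [Function.update_of_ne hl]
            simp [hl]
        rw [h4, Finset.card_erase_of_mem, hcard]
        · rfl
        · rw [hS, Finset.mem_filter]
          exact ⟨Finset.mem_univ _, hja, hjb, hjc, hzj⟩
  exact key _ m (fun _ => le_rfl) rfl rfl rfl (fun _ _ _ _ => Or.inr rfl) rfl hdiv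

end nc

namespace Rigid

variable {ι κ : Type} [Fintype ι] [Fintype κ] [DecidableEq ι] [DecidableEq κ]
variable {d : ℕ} {P : ι ⊕ κ → V3} {E : ι ⊕ κ → Fin 3 → Derivation ℚ ℂ ℂ} {m : ι → ℕ} {F : R3}

/-- the rigid member of a system without common factor is reduced -/
theorem squarefree_of_no_common (S : Rigid d P E m F)
    (hnc : ∀ π : R3, Irreducible π → (∀ f ∈ linSys d (fun i => P (Sum.inl i)) m, π ∣ f) → False) :
    Squarefree F := by
  rw [squarefree_iff_irreducible_sq_not_dvd_of_ne_zero S.hF0]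
  rintro π hπ ⟨g, hg⟩
  apply hnc π hπ
  intro f hf
  apply S.dvd_all ⟨π * g, by rw [hg, mul_assoc]⟩ _ hf
  intro k v
  rw [hg, cD_mul, cD_mul]
  refine ⟨(2 : R3) * cD (mv E (Sum.inr k) v) π * g + π * cD (mv E (Sum.inr k) v) g, ?_⟩
  ring

end Rigid

end Pool.Agent.Work.MP_0421d9_ag
end

section
/-!
Reducedness of the general member, from completeness of the series cut out on the exceptional
curves, or in a numerical range.
-/

set_option linter.unusedSectionVars false

namespace Pool.Agent.Work.MP_0421d9_ag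

open MvPolynomial Module

/-- reducedness of the general member -/
theorem exists_squarefree {r d : ℕ} (p : Fin r → Fin 3 → ℂ) (hp : GenericPoints p) (m : Fin r → ℕ)
    {ρ : IT m → ℕ} {a b c : IT m} (hab : a ≠ b) (hac : a ≠ c) (hbc : b ≠ c)
    (h1 : mm m a + mm m b ≤ d) (h2 : mm m a + mm m c ≤ d) (h3 : mm m b + mm m c ≤ d)
    (hHF : (∀ i, m i ≤ d) → ∀ (n : ℕ) (s : Fin n → V3) (t : Fin 4 → V3)
      (E : IT m ⊕ KT m n → Fin 3 → Derivation ℚ ℂ ℂ), IsDual (PP p s t m) E →
      ∀ j, j ≠ a → j ≠ b → j ≠ c → 1 ≤ mm m j →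
        Rigid.Full d (fun i => PP p s t m (Sum.inl i))
          (rs (fun l => ρ l ≤ ρ j ∨ l = a ∨ l = b ∨ l = c) (mm m)) j)
    (hne : linSys d p m ≠ ⊥) : ∃ F ∈ linSys d p m, Squarefree F := by
  have hfin : Module.Finite ℂ (linSys d p m) :=
    Submodule.finiteDimensional_of_le (linSys_le d p _)
  have hm : ∀ i, m i ≤ d := fun i => by
    obtain ⟨f, hf, hf0⟩ := Submodule.exists_mem_ne_zero_of_ne_bot hne
    exact le_of_vanishTo hf.1 hf0 (hf.2 i)
  obtain ⟨n, s, t, E, F, hn, hF, S⟩ := exists_rigid_member p hp m hm hne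
  refine ⟨F, hF, S.squarefree_of_no_common ?_⟩
  intro π hπ hdiv
  have hE' : IsDual (fun i => PP p s t m (Sum.inl i)) (fun i => E (Sum.inl i)) := by
    intro x k y l
    rw [S.hE (Sum.inl x) k (Sum.inl y) l]
    simp only [Sum.inl.injEq]
  have hmd : ∀ x, mm m x ≤ d := by
    rintro (⟨i, hi⟩ | x)
    · exact hm i
    · exact Nat.zero_le _
  exact no_common hE' hmd hab hac hbc h1 h2 h3 (hHF hm n s t E S.hE) hπ hdiv

section final

variable {r n d : ℕ} {p : Fin r → V3} {s : Fin n → V3} {t : Fin 4 → V3} {m : Fin r → ℕ}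

end final

/-- **Completeness theorem**, reducedness. -/
theorem main_theorem' {r d : ℕ} (p : Fin r → Fin 3 → ℂ) (hp : GenericPoints p) (m : Fin r → ℕ)
    (I : Finset (Fin r)) (hI : I.card ≤ 3)
    (hcomplete : ∀ i ∉ I, 2 ≤ m i →
      finrank ℂ (linSys d p (dropSimple m)) =
        finrank ℂ (linSys d p (Function.update (dropSimple m) i (m i + 1))) + (m i + 1))
    (hpair : ∀ i ∈ I, ∀ j ∈ I, i ≠ j → m i + m j ≤ d) (hne : linSys d p m ≠ ⊥) :
    ∃ F ∈ linSys d p m, Squarefree F := by
  obtain ⟨a, b, c, hab, hac, hbc, hex, habc, habc'⟩ := exists_three' m I hI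
  obtain ⟨f, hf, hf0⟩ := Submodule.exists_mem_ne_zero_of_ne_bot hne
  have hmd : ∀ i, m i ≤ d := fun i => le_of_vanishTo hf.1 hf0 (hf.2 i)
  have hpair' : ∀ x y : IT m, (x = a ∨ x = b ∨ x = c) → (y = a ∨ y = b ∨ y = c) → x ≠ y →
      mm m x + mm m y ≤ d := by
    rintro (⟨i, hi⟩ | x) (⟨j, hj⟩ | y) hx hy hxy
    · exact hpair i (habc' ⟨i, hi⟩ hx) j (habc' ⟨j, hj⟩ hy) (fun h => hxy (by subst h; rfl))
    · exact hmd i
    · change 0 + m j ≤ d
      rw [zero_add]
      exact hmd j
    · exact Nat.zero_le _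
  refine exists_squarefree p hp m (ρ := fun _ => 0) hab hac hbc
    (hpair' a b (Or.inl rfl) (Or.inr (Or.inl rfl)) hab)
    (hpair' a c (Or.inl rfl) (Or.inr (Or.inr rfl)) hac)
    (hpair' b c (Or.inr (Or.inl rfl)) (Or.inr (Or.inr rfl)) hbc) ?_ hne
  intro hm n s t E hE
  rintro (⟨i, hi⟩ | x) hja hjb hjc h1
  swap
  · change 1 ≤ 0 at h1
    omega
  have h1' : 1 ≤ m i := h1
  have hiI : i ∉ I := by
    intro h
    rcases habc ⟨i, hi⟩ h with h' | h' | h'
    · exact hja h'
    · exact hjb h'
    · exact hjc h'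
  have hmd' : ∀ x, mm m x ≤ d := by
    rintro (⟨i, hi⟩ | x)
    · exact hm i
    · exact Nat.zero_le _
  have hfull : Rigid.Full d (fun i => PP p s t m (Sum.inl i)) (mm m) (Sum.inl ⟨i, hi⟩) := by
    apply full_of_finrank hmd' (gp1 hE (Sum.inl (Sum.inl ⟨i, hi⟩)))
    rw [linSys_core, linSys_core_update]
    exact hcomplete i hiI (by omega)
  exact full_mono hmd' (fun l => rs_le _ _ l) (rs_of (Or.inl le_rfl)) hfull

end Pool.Agent.Work.MP_0421d9_ag
end

section
/-!
Both halves of the question, without assumption of reducedness: systems with bounded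
multiplicities, homogeneous systems, and a numerical range.
-/

set_option linter.unusedSectionVars false

namespace Pool.Agent.Work.MP_0421d9_ag

open MvPolynomial Module

theorem dropSimple_le {ι : Type} (m : ι → ℕ) (i : ι) : dropSimple m i ≤ m i := by
  unfold dropSimple
  split_ifs <;> omega

end Pool.Agent.Work.MP_0421d9_ag
end

section
/-!
The numerical range, in terms of the multiplicities different from one.
-/

set_option linter.unusedSectionVars false

namespace Pool.Agent.Work.MP_0421d9_ag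

open MvPolynomial Module

section final

variable {r n d : ℕ} {p : Fin r → V3} {s : Fin n → V3} {t : Fin 4 → V3} {m : Fin r → ℕ}

end final

/-- **Completeness theorem**, final form. -/
theorem complete_final {r d : ℕ} (p : Fin r → Fin 3 → ℂ) (hp : GenericPoints p) (m : Fin r → ℕ)
    (I : Finset (Fin r)) (hI : I.card ≤ 3)
    (hcomplete : ∀ i ∉ I, 3 ≤ m i →
      finrank ℂ (linSys d p (dropSimple m)) =
        finrank ℂ (linSys d p (Function.update (dropSimple m) i (m i + 1))) + (m i + 1))
    (h : (∃ F ∈ linSys d p m, Squarefree F) ∨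
      (linSys d p m ≠ ⊥ ∧ (∀ i ∈ I, ∀ j ∈ I, i ≠ j → m i + m j ≤ d) ∧
        ∀ i ∉ I, m i = 2 → finrank ℂ (linSys d p (dropSimple m)) =
          finrank ℂ (linSys d p (Function.update (dropSimple m) i (m i + 1))) + (m i + 1))) :
    (∃ F ∈ linSys d p m, Squarefree F) ∧
    finrank ℂ (linSys d p m) + ∑ i, (m i + 1).choose 2 = (d + 2).choose 2 ∧
    (∀ s : Fin (finrank ℂ (linSys d p m) - 1) → Fin 3 → ℂ, GenericPoints (Sum.elim p s) →
      ∀ F ∈ linSys d p m, F ≠ 0 → (∀ k, eval (s k) F = 0) → SmoothOnBlowup p m F) ∧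
    (∃ F ∈ linSys d p m, F ≠ 0 ∧ SmoothOnBlowup p m F) := by
  have hred : ∃ F ∈ linSys d p m, Squarefree F := by
    rcases h with h | ⟨hne, hpair, h2⟩
    · exact h
    · refine main_theorem' p hp m I hI (fun i hi hi2 => ?_) hpair hne
      by_cases h3 : 3 ≤ m i
      · exact hcomplete i hi h3
      · exact h2 i hi (by omega)
  exact ⟨hred, main_theorem p hp m I hI hcomplete hred⟩

end Pool.Agent.Work.MP_0421d9_ag
end

section
/-!
Linear systems with prescribed monomials, and automorphisms of the complex numbers rescaling the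
coordinates of generic points.
-/

set_option linter.unusedSectionVars false

namespace Pool.Agent.Work.MP_0421d9_ag

open MvPolynomial Module

/-- exponents -/
abbrev Ex := Fin 3 →₀ ℕ

/-- the members of a linear system all of whose monomials have exponents in `D` -/
noncomputable def ms {ι : Type} (d : ℕ) (p : ι → V3) (m : ι → ℕ) (D : Ex → Prop) :
    Submodule ℂ R3 where
  carrier := {F | F ∈ linSys d p m ∧ ∀ α, coeff α F ≠ 0 → D α}
  zero_mem' := ⟨zero_mem _, fun α h => absurd (coeff_zero α) h⟩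
  add_mem' := fun {F G} hF hG => ⟨add_mem hF.1 hG.1, fun α h => by
    by_cases h1 : coeff α F = 0
    · apply hG.2
      rw [coeff_add, h1, zero_add] at h
      exact h
    · exact hF.2 α h1⟩
  smul_mem' := fun c F hF => ⟨Submodule.smul_mem _ c hF.1, fun α h => by
    apply hF.2
    rw [coeff_smul] at h
    exact right_ne_zero_of_mul h⟩

section ms

variable {ι : Type} {d : ℕ} {p : ι → V3} {m : ι → ℕ} {D : Ex → Prop}

theorem ms_le (d : ℕ) (p : ι → V3) (m : ι → ℕ) (D : Ex → Prop) : ms d p m D ≤ Rd d :=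
  fun _ hF => hF.1.1

instance ms_finite (d : ℕ) (p : ι → V3) (m : ι → ℕ) (D : Ex → Prop) :
    Module.Finite ℂ (ms d p m D) :=
  Submodule.finiteDimensional_of_le (ms_le d p m D)

theorem ms_mono {m' : ι → ℕ} {D' : Ex → Prop} (hm : ∀ i, m' i ≤ m i)
    (hD : ∀ α, α.degree = d → D α → D' α) : ms d p m D ≤ ms d p m' D' := by
  intro F hF
  refine ⟨⟨hF.1.1, fun i => (hF.1.2 i).mono (hm i)⟩, fun α h => hD α ?_ (hF.2 α h)⟩
  by_contra hne
  exact h (hF.1.1.coeff_eq_zero hne)

theorem finrank_ms_mono {m' : ι → ℕ} {D' : Ex → Prop} (hm : ∀ i, m' i ≤ m i)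
    (hD : ∀ α, α.degree = d → D α → D' α) :
    finrank ℂ (ms d p m D) ≤ finrank ℂ (ms d p m' D') :=
  Submodule.finrank_mono (ms_mono hm hD)

theorem degree_of_coeff {F : R3} (hF : F.IsHomogeneous d) {α : Ex} (h : coeff α F ≠ 0) :
    α.degree = d := by
  by_contra hne
  exact h (hF.coeff_eq_zero hne)

theorem degree_three (α : Ex) : α.degree = α 0 + α 1 + α 2 := by
  rw [Finsupp.degree_eq_sum, Fin.sum_univ_three]

/-- invariance under automorphisms of the complex numbers -/
theorem finrank_ms_map (σ : ℂ ≃+* ℂ) (d : ℕ) (p : ι → V3) (m : ι → ℕ) (D : Ex → Prop) :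
    finrank ℂ (ms d p m D) = finrank ℂ (ms d (fun i k => σ (p i k)) m D) := by
  have h0 : ∀ (τ : ℂ ≃+* ℂ) (q : ι → V3), ∀ F ∈ ms d q m D,
      map τ.toRingHom F ∈ ms d (fun i k => τ (q i k)) m D := by
    intro τ q F hF
    refine ⟨map_mem_linSys τ hF.1, fun α h => hF.2 α ?_⟩
    intro h0
    apply h
    rw [coeff_map, h0, map_zero]
  have h1 : ∀ F ∈ ms d (fun i k => σ (p i k)) m D, map σ.symm.toRingHom F ∈ ms d p m D := by
    intro F hF
    have h2 := h0 σ.symm _ F hF
    have h3 : (fun (i : ι) (k : Fin 3) => σ.symm (σ (p i k))) = p := by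
      funext i k
      exact σ.symm_apply_apply _
    rwa [h3] at h2
  let j : ms d p m D ≃+ ms d (fun i k => σ (p i k)) m D :=
    { toFun := fun F => ⟨map σ.toRingHom F.1, h0 σ p F.1 F.2⟩
      invFun := fun F => ⟨map σ.symm.toRingHom F.1, h1 F.1 F.2⟩
      left_inv := fun F => Subtype.ext (map_symm_map σ F.1)
      right_inv := fun F => Subtype.ext (map_map_symm σ F.1)
      map_add' := fun F G => Subtype.ext (map_add _ F.1 G.1) }
  have h2 := rank_eq_of_equiv_equiv (fun c : ℂ => σ c) j σ.bijective (by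
    intro c F
    apply Subtype.ext
    change map σ.toRingHom (c • F.1) = σ c • map σ.toRingHom F.1
    rw [smul_eq_C_mul, smul_eq_C_mul, map_mul, map_C]
    rfl)
  unfold Module.finrank
  rw [h2]

end ms

/-- the automorphism of a polynomial ring rescaling the variables -/
noncomputable def scEquiv {τ : Type} (u : τ → ℚ) (hu : ∀ b, u b ≠ 0) :
    MvPolynomial τ ℚ ≃ₐ[ℚ] MvPolynomial τ ℚ :=
  AlgEquiv.ofAlgHom (aeval fun b => C (u b) * X b) (aeval fun b => C (u b)⁻¹ * X b)
    (by
      apply MvPolynomial.algHom_ext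
      intro b
      rw [AlgHom.comp_apply, aeval_X, map_mul, aeval_X, ← algebraMap_eq, AlgHom.commutes,
        AlgHom.id_apply, ← mul_assoc, algebraMap_eq, ← C_mul, inv_mul_cancel₀ (hu b), C_1, one_mul])
    (by
      apply MvPolynomial.algHom_ext
      intro b
      rw [AlgHom.comp_apply, aeval_X, map_mul, aeval_X, ← algebraMap_eq, AlgHom.commutes,
        AlgHom.id_apply, ← mul_assoc, algebraMap_eq, ← C_mul, mul_inv_cancel₀ (hu b), C_1, one_mul])

theorem scEquiv_X {τ : Type} (u : τ → ℚ) (hu : ∀ b, u b ≠ 0) (b : τ) :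
    scEquiv u hu (X b) = C (u b) * X b := by
  change aeval _ (X b) = _
  rw [aeval_X]

/-- automorphisms of the complex numbers rescaling generic points -/
theorem exists_auto_scale {ι : Type} {p : ι → V3} (hp : GenericPoints p) (u : ι → Fin 3 → ℚ)
    (hu : ∀ i k, u i k ≠ 0) :
    ∃ σ : ℂ ≃+* ℂ, ∀ i k, σ (p i k) = (u i k : ℂ) * p i k := by
  classical
  obtain ⟨t, ht, ht'⟩ := exists_isTranscendenceBasis_superset
    (AlgebraicIndependent.coe_range hp)
  let f : ι × Fin 3 → t := fun z => ⟨p z.1 z.2, ht ⟨z, rfl⟩⟩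
  have hf : Function.Injective f := fun z z' h =>
    AlgebraicIndependent.injective hp (congrArg Subtype.val h)
  let v : t → ℚ := fun b => if h : ∃ z, f z = b then u h.choose.1 h.choose.2 else 1
  have hv : ∀ b, v b ≠ 0 := by
    intro b
    by_cases h : ∃ z, f z = b
    · simp only [v, dif_pos h]
      exact hu _ _
    · simp only [v, dif_neg h]
      exact one_ne_zero
  have hvf : ∀ z, v (f z) = u z.1 z.2 := by
    intro z
    have h : ∃ z', f z' = f z := ⟨z, rfl⟩
    have h1 : v (f z) = u h.choose.1 h.choose.2 := dif_pos h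
    rw [h1, hf h.choose_spec]
  let _ := IsAlgClosed.isAlgClosure_of_transcendence_basis (Subtype.val : t → ℂ) ht'
  let e1 : Algebra.adjoin ℚ (Set.range (Subtype.val : t → ℂ)) ≃+*
      Algebra.adjoin ℚ (Set.range (Subtype.val : t → ℂ)) :=
    (ht'.1.aevalEquiv.symm.toRingEquiv.trans
      (scEquiv v hv).toRingEquiv).trans ht'.1.aevalEquiv.toRingEquiv
  have h1 : ∀ b : t, algebraMap (Algebra.adjoin ℚ (Set.range (Subtype.val : t → ℂ))) ℂ
      (ht'.1.aevalEquiv (X b)) = b := by
    intro b
    rw [ht'.1.algebraMap_aevalEquiv, aeval_X]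
  refine ⟨IsAlgClosure.equivOfEquiv ℂ ℂ e1, fun i k => ?_⟩
  have h2 := h1 (f (i, k))
  have h3 : (f (i, k) : ℂ) = p i k := rfl
  have h4 : e1 (ht'.1.aevalEquiv (X (f (i, k)))) =
      ht'.1.aevalEquiv (C (v (f (i, k))) * X (f (i, k))) := by
    change ht'.1.aevalEquiv (scEquiv v hv
      (ht'.1.aevalEquiv.symm (ht'.1.aevalEquiv (X (f (i, k)))))) = _
    rw [AlgEquiv.symm_apply_apply, scEquiv_X]
  have h5 : algebraMap (Algebra.adjoin ℚ (Set.range (Subtype.val : t → ℂ))) ℂ
      (ht'.1.aevalEquiv (C (v (f (i, k))))) = ((u i k : ℚ) : ℂ) := by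
    rw [ht'.1.algebraMap_aevalEquiv, aeval_C, hvf]
    exact eq_ratCast _ _
  rw [← h3]
  conv_lhs => rw [← h2]
  rw [IsAlgClosure.equivOfEquiv_algebraMap, h4, map_mul, map_mul, h1, h5]

/-- rescaling the coordinates of generic points does not change the dimensions -/
theorem finrank_ms_scale {ι : Type} {p : ι → V3} (hp : GenericPoints p) (u : ι → Fin 3 → ℚ)
    (hu : ∀ i k, u i k ≠ 0) (d : ℕ) (m : ι → ℕ) (D : Ex → Prop) :
    finrank ℂ (ms d p m D) = finrank ℂ (ms d (fun i k => (u i k : ℂ) * p i k) m D) := by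
  obtain ⟨σ, hσ⟩ := exists_auto_scale hp u hu
  have h : (fun i k => σ (p i k)) = fun i k => (u i k : ℂ) * p i k := by
    funext i k
    exact hσ i k
  rw [finrank_ms_map σ, h]

end Pool.Agent.Work.MP_0421d9_ag
end

section
/-!
Semicontinuity of the dimension of the kernel in a polynomial family of linear maps.
-/

set_option linter.unusedSectionVars false

namespace Pool.Agent.Work.MP_0421d9_ag

open Module

section

variable {W : Type} [AddCommGroup W] [Module ℂ W] [Module.Finite ℂ W]

/-- a polynomial family of endomorphisms which starts with the identity is invertible outside a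
finite set of parameters -/
theorem exists_finite_det (K : ℕ) (A : ℕ → W →ₗ[ℂ] W) (h0 : A 0 = LinearMap.id) :
    ∃ Z : Finset ℂ, ∀ s ∉ Z, LinearMap.ker (∑ k ∈ Finset.range (K + 1), s ^ k • A k) = ⊥ := by
  classical
  let b := Module.finBasis ℂ W
  let M : ℕ → Matrix (Fin (finrank ℂ W)) (Fin (finrank ℂ W)) ℂ := fun k =>
    LinearMap.toMatrix b b (A k)
  let P : Matrix (Fin (finrank ℂ W)) (Fin (finrank ℂ W)) (Polynomial ℂ) :=
    Matrix.of fun i j => ∑ k ∈ Finset.range (K + 1), Polynomial.X ^ k * Polynomial.C (M k i j)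
  have hP : ∀ s : ℂ, Polynomial.eval s P.det =
      LinearMap.det (∑ k ∈ Finset.range (K + 1), s ^ k • A k) := by
    intro s
    rw [← Polynomial.coe_evalRingHom, RingHom.map_det, ← LinearMap.det_toMatrix b]
    congr 1
    ext i j
    rw [RingHom.mapMatrix_apply, Matrix.map_apply, map_sum, Matrix.sum_apply]
    simp only [P, Matrix.of_apply, map_sum]
    refine Finset.sum_congr rfl (fun k _ => ?_)
    rw [Polynomial.coe_evalRingHom, Polynomial.eval_mul, Polynomial.eval_pow, Polynomial.eval_X,
      Polynomial.eval_C, map_smul, Matrix.smul_apply, smul_eq_mul]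
  have hne : P.det ≠ 0 := by
    intro h
    have h1 := hP 0
    rw [h, Polynomial.eval_zero, Finset.sum_range_succ', Finset.sum_eq_zero, zero_add, pow_zero,
      one_smul, h0, LinearMap.det_id] at h1
    · exact zero_ne_one h1
    · intro k _
      rw [zero_pow (Nat.succ_ne_zero k), zero_smul]
  refine ⟨P.det.roots.toFinset, fun s hs => ?_⟩
  rw [Multiset.mem_toFinset, Polynomial.mem_roots hne, Polynomial.IsRoot.def, hP] at hs
  rw [← LinearMap.isUnit_iff_ker_eq_bot, LinearMap.isUnit_iff_isUnit_det]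
  exact IsUnit.mk0 _ hs

end

/-- semicontinuity of the kernel -/
theorem finrank_ker_semicont {E F : Type} [AddCommGroup E] [Module ℂ E] [Module.Finite ℂ E]
    [AddCommGroup F] [Module ℂ F] (K : ℕ) (A : ℕ → E →ₗ[ℂ] F) :
    ∃ Z : Finset ℂ, ∀ s ∉ Z, finrank ℂ (LinearMap.ker (∑ k ∈ Finset.range (K + 1), s ^ k • A k)) ≤
      finrank ℂ (LinearMap.ker (A 0)) := by
  classical
  obtain ⟨W, hW⟩ := Submodule.exists_isCompl (LinearMap.ker (A 0))
  have hinj : LinearMap.ker ((A 0).comp W.subtype) = ⊥ := by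
    rw [Submodule.eq_bot_iff]
    intro x hx
    have h1 : (x : E) ∈ LinearMap.ker (A 0) ⊓ W := ⟨hx, x.2⟩
    rw [hW.inf_eq_bot, Submodule.mem_bot] at h1
    exact Subtype.ext h1
  obtain ⟨Ψ, hΨ⟩ := LinearMap.exists_leftInverse_of_injective _ hinj
  obtain ⟨Z, hZ⟩ := exists_finite_det K (fun k => Ψ.comp ((A k).comp W.subtype)) hΨ
  refine ⟨Z, fun s hs => ?_⟩
  have h1 := hZ s hs
  have h2 : LinearMap.ker (∑ k ∈ Finset.range (K + 1), s ^ k • A k) ⊓ W = ⊥ := by
    rw [Submodule.eq_bot_iff]
    rintro x ⟨hx, hxW⟩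
    have h3 : (⟨x, hxW⟩ : W) ∈ LinearMap.ker
        (∑ k ∈ Finset.range (K + 1), s ^ k • (Ψ.comp ((A k).comp W.subtype))) := by
      rw [LinearMap.mem_ker, LinearMap.sum_apply]
      have h4 : (∑ k ∈ Finset.range (K + 1), s ^ k • A k) x = 0 := hx
      rw [LinearMap.sum_apply] at h4
      have h5 := congrArg Ψ h4
      rw [map_sum, map_zero] at h5
      rw [← h5]
      refine Finset.sum_congr rfl (fun k _ => ?_)
      rw [LinearMap.smul_apply, LinearMap.smul_apply, map_smul]
      rfl
    rw [h1, Submodule.mem_bot] at h3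
    exact congrArg Subtype.val h3
  have h3 := Submodule.finrank_sup_add_finrank_inf_eq
    (LinearMap.ker (∑ k ∈ Finset.range (K + 1), s ^ k • A k)) W
  rw [h2, finrank_bot, add_zero] at h3
  have h4 := Submodule.finrank_add_eq_of_isCompl hW
  have h5 := Submodule.finrank_le
    (LinearMap.ker (∑ k ∈ Finset.range (K + 1), s ^ k • A k) ⊔ W)
  omega

end Pool.Agent.Work.MP_0421d9_ag
end

section
/-!
Degeneration of a linear system with generic base points: if the monomials are separated by a
weight into two blocks, and the points are distributed between the two blocks, then the dimension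
is at most the sum of the dimensions of the two blocks.
-/

set_option linter.unusedSectionVars false

namespace Pool.Agent.Work.MP_0421d9_ag

open MvPolynomial Module

/-! ### coefficientwise multiplication -/

/-- multiplication of the coefficients by a function of the exponents -/
noncomputable def cm (c : Ex → ℂ) : R3 →ₗ[ℂ] R3 where
  toFun F := ∑ α ∈ F.support, monomial α (c α * coeff α F)
  map_add' F G := by
    classical
    have h : ∀ F : R3, ∀ β, coeff β (∑ α ∈ F.support, monomial α (c α * coeff α F)) =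
        c β * coeff β F := by
      intro F β
      rw [coeff_sum]
      simp only [coeff_monomial]
      rw [Finset.sum_ite_eq' F.support β]
      split_ifs with h
      · rfl
      · rw [notMem_support_iff.mp h, mul_zero]
    ext β
    rw [coeff_add, h, h, h, coeff_add, mul_add]
  map_smul' a F := by
    classical
    have h : ∀ F : R3, ∀ β, coeff β (∑ α ∈ F.support, monomial α (c α * coeff α F)) =
        c β * coeff β F := by
      intro F β
      rw [coeff_sum]
      simp only [coeff_monomial]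
      rw [Finset.sum_ite_eq' F.support β]
      split_ifs with h
      · rfl
      · rw [notMem_support_iff.mp h, mul_zero]
    ext β
    rw [h, RingHom.id_apply, coeff_smul, coeff_smul, h, smul_eq_mul, smul_eq_mul]
    ring

theorem coeff_cm (c : Ex → ℂ) (F : R3) (β : Ex) : coeff β (cm c F) = c β * coeff β F := by
  classical
  change coeff β (∑ α ∈ F.support, monomial α (c α * coeff α F)) = _
  rw [coeff_sum]
  simp only [coeff_monomial]
  rw [Finset.sum_ite_eq' F.support β]
  split_ifs with h
  · rfl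
  · rw [notMem_support_iff.mp h, mul_zero]

theorem cm_isHomogeneous (c : Ex → ℂ) {F : R3} {d : ℕ} (hF : F.IsHomogeneous d) :
    (cm c F).IsHomogeneous d := by
  intro α hα
  apply hF
  rw [coeff_cm] at hα
  exact right_ne_zero_of_mul hα

theorem supp_cm (c : Ex → ℂ) {F : R3} {α : Ex} (h : coeff α (cm c F) ≠ 0) :
    c α ≠ 0 ∧ coeff α F ≠ 0 := by
  rw [coeff_cm] at h
  exact ⟨left_ne_zero_of_mul h, right_ne_zero_of_mul h⟩

/-! ### rescaling of the variables -/

/-- the weight of an exponent -/
def wg (lam : Fin 3 → ℕ) (α : Ex) : ℕ := lam 0 * α 0 + lam 1 * α 1 + lam 2 * α 2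

/-- the substitution `X k ↦ t ^ lam k * X k` -/
noncomputable def sc (lam : Fin 3 → ℕ) (t : ℂ) : R3 →ₐ[ℂ] R3 :=
  aeval fun k => C (t ^ lam k) * X k

theorem coeff_sc (lam : Fin 3 → ℕ) (t : ℂ) (F : R3) (β : Ex) :
    coeff β (sc lam t F) = t ^ wg lam β * coeff β F := by
  classical
  induction F using MvPolynomial.induction_on' with
  | monomial α a =>
    unfold sc
    rw [aeval_monomial, Finsupp.prod_pow, Fin.prod_univ_three]
    have h1 : (algebraMap ℂ R3) a * ((C (t ^ lam 0) * X 0) ^ α 0 * (C (t ^ lam 1) * X 1) ^ α 1 *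
        (C (t ^ lam 2) * X 2) ^ α 2) = C (t ^ wg lam α) * monomial α a := by
      have h2 : (monomial α a : R3) = C a * (X 0 ^ α 0 * X 1 ^ α 1 * X 2 ^ α 2) := by
        rw [monomial_eq, Finsupp.prod_pow, Fin.prod_univ_three]
      rw [h2, algebraMap_eq, mul_pow, mul_pow, mul_pow, ← C_pow, ← C_pow, ← C_pow, wg, pow_add,
        pow_add, pow_mul, pow_mul, pow_mul, C_mul, C_mul]
      ring
    rw [h1, coeff_C_mul, coeff_monomial]
    split_ifs with h
    · rw [h]
    · rw [mul_zero, mul_zero]
  | add F G hF hG => rw [map_add, coeff_add, coeff_add, hF, hG, mul_add]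

theorem component_sc (lam : Fin 3 → ℕ) (t : ℂ) (n : ℕ) (F : R3) :
    homogeneousComponent n (sc lam t F) = sc lam t (homogeneousComponent n F) := by
  ext β
  rw [coeff_homogeneousComponent, coeff_sc, coeff_sc, coeff_homogeneousComponent]
  split_ifs
  · rfl
  · rw [mul_zero]

theorem translate_sc (lam : Fin 3 → ℕ) (t : ℂ) (a : V3) (F : R3) :
    translate a (sc lam t F) = sc lam t (translate (fun k => t ^ lam k * a k) F) := by
  have key : (aeval (fun k => C (a k) + X k) : R3 →ₐ[ℂ] R3).comp (sc lam t) =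
      (sc lam t).comp (aeval fun k => C (t ^ lam k * a k) + X k : R3 →ₐ[ℂ] R3) := by
    apply MvPolynomial.algHom_ext
    intro k
    rw [AlgHom.comp_apply, AlgHom.comp_apply, aeval_X]
    unfold sc
    rw [aeval_X, map_mul, map_add, aeval_X, aeval_X, algHom_C, algHom_C, algebraMap_eq, C_mul]
    ring
  exact DFunLike.congr_fun key F

theorem vanishTo_sc {lam : Fin 3 → ℕ} {t : ℂ} {a : V3} {F : R3} {m : ℕ}
    (h : VanishTo F (fun k => t ^ lam k * a k) m) : VanishTo (sc lam t F) a m := by
  intro k hk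
  rw [translate_sc, component_sc, h k hk, map_zero]

/-! ### the conditions at a point -/

/-- the components of degree less than `n` at the point `a` -/
noncomputable def cond (a : V3) (n : ℕ) : R3 →ₗ[ℂ] (Fin n → R3) :=
  LinearMap.pi fun k => (homogeneousComponent (k : ℕ)).comp
    ((aeval fun l => C (a l) + X l : R3 →ₐ[ℂ] R3).toLinearMap)

theorem cond_eq_zero {a : V3} {n : ℕ} {F : R3} : cond a n F = 0 ↔ VanishTo F a n := by
  constructor
  · intro h k hk
    exact congrFun h ⟨k, hk⟩
  · intro h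
    funext k
    exact h k k.2

/-! ### the degeneration -/

section block

variable {ι : Type} {d : ℕ} {p : ι → V3} {m : ι → ℕ}

open Classical in
/-- the terms of the polynomial family -/
noncomputable def fam (p : ι → V3) (m : ι → ℕ) (W : ι → Prop) (eP eF : Ex → ℕ) (k : ℕ) :
    (R3 × R3) →ₗ[ℂ] (∀ i, Fin (m i) → R3) :=
  LinearMap.pi fun i => (cond (p i) (m i)).comp
    (if W i then
      (if k = 0 then LinearMap.fst ℂ R3 R3 else 0) +
        (cm fun α => if eF α = k then 1 else 0).comp (LinearMap.snd ℂ R3 R3)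
    else (cm fun α => if eP α = k then 1 else 0).comp (LinearMap.fst ℂ R3 R3) +
        (if k = 0 then LinearMap.snd ℂ R3 R3 else 0))

open Classical in
theorem fam_sum (W : ι → Prop) (eP eF : Ex → ℕ) (K : ℕ) (s : ℂ) (G H : R3)
    (hP : ∀ α, coeff α G ≠ 0 → eP α ≤ K) (hF : ∀ α, coeff α H ≠ 0 → eF α ≤ K) (i : ι) :
    (∑ k ∈ Finset.range (K + 1), s ^ k • fam p m W eP eF k) (G, H) i =
      cond (p i) (m i) (if W i then G + cm (fun α => s ^ eF α) H
        else cm (fun α => s ^ eP α) G + H) := by
  have hcm : ∀ (e : Ex → ℕ) (F : R3), (∀ α, coeff α F ≠ 0 → e α ≤ K) →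
      ∑ k ∈ Finset.range (K + 1), s ^ k • cm (fun α => if e α = k then 1 else 0) F =
        cm (fun α => s ^ e α) F := by
    intro e F he
    ext α
    rw [coeff_sum, coeff_cm]
    by_cases h : coeff α F = 0
    · rw [h, mul_zero]
      refine Finset.sum_eq_zero (fun k _ => ?_)
      rw [coeff_smul, coeff_cm, h, mul_zero, smul_zero]
    · rw [Finset.sum_eq_single (e α)]
      · rw [coeff_smul, coeff_cm, if_pos rfl, one_mul, smul_eq_mul]
      · intro k _ hk
        rw [coeff_smul, coeff_cm, if_neg (Ne.symm hk), zero_mul, smul_zero]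
      · intro h1
        exact absurd (Finset.mem_range.mpr (Nat.lt_succ_of_le (he α h))) h1
  have h0 : ∀ F : R3, ∑ k ∈ Finset.range (K + 1), s ^ k • (if k = 0 then F else 0) = F := by
    intro F
    rw [Finset.sum_eq_single 0]
    · rw [if_pos rfl, pow_zero, one_smul]
    · intro k _ hk
      rw [if_neg hk, smul_zero]
    · intro h1
      exact absurd (Finset.mem_range.mpr (Nat.succ_pos K)) h1
  rw [LinearMap.sum_apply, Finset.sum_apply]
  by_cases hW : W i
  · rw [if_pos hW]
    have h1 : ∀ k, (s ^ k • fam p m W eP eF k) (G, H) i = cond (p i) (m i)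
        (s ^ k • (if k = 0 then G else 0) +
          s ^ k • cm (fun α => if eF α = k then 1 else 0) H) := by
      intro k
      rw [LinearMap.smul_apply, Pi.smul_apply]
      unfold fam
      rw [LinearMap.pi_apply, LinearMap.comp_apply, if_pos hW, LinearMap.add_apply,
        LinearMap.comp_apply, LinearMap.snd_apply, ← map_smul, smul_add]
      congr 2
      split_ifs
      · rfl
      · rfl
    rw [Finset.sum_congr rfl (fun k _ => h1 k), ← map_sum, Finset.sum_add_distrib, h0, hcm _ _ hF]
  · rw [if_neg hW]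
    have h1 : ∀ k, (s ^ k • fam p m W eP eF k) (G, H) i = cond (p i) (m i)
        (s ^ k • cm (fun α => if eP α = k then 1 else 0) G +
          s ^ k • (if k = 0 then H else 0)) := by
      intro k
      rw [LinearMap.smul_apply, Pi.smul_apply]
      unfold fam
      rw [LinearMap.pi_apply, LinearMap.comp_apply, if_neg hW, LinearMap.add_apply,
        LinearMap.comp_apply, LinearMap.fst_apply, ← map_smul, smul_add]
      congr 2
      split_ifs
      · rfl
      · rfl
    rw [Finset.sum_congr rfl (fun k _ => h1 k), ← map_sum, Finset.sum_add_distrib, h0, hcm _ _ hP]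

end block

end Pool.Agent.Work.MP_0421d9_ag
end

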