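import Mathlib
import Pool.Agent.Work.Z0421M.C04
import Pool.Agent.Work.Z0421M.C05
import Pool.Agent.Work.Z0421M.C07

section
/-!
The block inequality for linear systems with generic base points.
-/

set_option linter.unusedSectionVars false

namespace Pool.Agent.Work.MP_0421d9_ag

open MvPolynomial Module

theorem wg_le (lam : Fin 3 → ℕ) {α : Ex} {d : ℕ} (h : α.degree = d) :
    wg lam α ≤ (lam 0 + lam 1 + lam 2) * d := by
  rw [degree_three] at h
  unfold wg
  have h0 : lam 0 * α 0 ≤ lam 0 * d := Nat.mul_le_mul_left _ (by omega)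
  have h1 : lam 1 * α 1 ≤ lam 1 * d := Nat.mul_le_mul_left _ (by omega)
  have h2 : lam 2 * α 2 ≤ lam 2 * d := Nat.mul_le_mul_left _ (by omega)
  rw [add_mul, add_mul]
  omega

theorem wg_two (lam : Fin 3 → ℕ) (α : Ex) : wg (fun k => 2 * lam k) α = 2 * wg lam α := by
  unfold wg
  ring

/-- a natural number whose inverse avoids a finite set -/
theorem exists_nat_inv (Z : Finset ℂ) : ∃ t : ℕ, 1 ≤ t ∧ ((t : ℂ))⁻¹ ∉ Z := by
  have hinj : Function.Injective (fun n : ℕ => (((n + 1 : ℕ) : ℂ))⁻¹) := by
    intro a b hab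
    have h := inv_injective hab
    have h' : a + 1 = b + 1 := Nat.cast_injective h
    omega
  obtain ⟨n, hn⟩ := Set.Infinite.exists_notMem_finset (Set.infinite_range_of_injective hinj) Z
  obtain ⟨⟨k, rfl⟩, h⟩ := hn
  exact ⟨k + 1, by omega, h⟩

section block

variable {ι : Type} [Fintype ι] [DecidableEq ι] {d : ℕ} {p : ι → V3} {m : ι → ℕ}

/-- the special member of the family -/
theorem finrank_ker_fam {W : ι → Prop} {DP DF : Ex → Prop} {eP eF : Ex → ℕ}
    (hP : ∀ α, α.degree = d → DP α → 1 ≤ eP α) (hF : ∀ α, α.degree = d → DF α → 1 ≤ eF α) :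
    finrank ℂ (LinearMap.ker ((fam p m W eP eF 0).comp (LinearMap.prodMap
      (ms d p (fun _ => 0) DP).subtype (ms d p (fun _ => 0) DF).subtype))) ≤
      finrank ℂ (ms d p (rs W m) DP) + finrank ℂ (ms d p (rs (fun i => ¬ W i) m) DF) := by
  classical
  have hz : ∀ (e : Ex → ℕ) (D : Ex → Prop), (∀ α, α.degree = d → D α → 1 ≤ e α) →
      ∀ F ∈ ms d p (fun _ => 0) D, cm (fun α => if e α = 0 then 1 else 0) F = 0 := by
    intro e D he F hF
    ext α
    rw [coeff_cm, coeff_zero]
    by_cases h : coeff α F = 0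
    · rw [h, mul_zero]
    · have h1 := he α (degree_of_coeff hF.1.1 h) (hF.2 α h)
      rw [if_neg (by omega), zero_mul]
  set A := (fam p m W eP eF 0).comp (LinearMap.prodMap
      (ms d p (fun _ => 0) DP).subtype (ms d p (fun _ => 0) DF).subtype) with hA
  have hker : ∀ x : (ms d p (fun _ => 0) DP) × (ms d p (fun _ => 0) DF), x ∈ LinearMap.ker A →
      (x.1 : R3) ∈ ms d p (rs W m) DP ∧ (x.2 : R3) ∈ ms d p (rs (fun i => ¬ W i) m) DF := by
    rintro ⟨⟨G, hG⟩, ⟨H, hH⟩⟩ hx
    have h1 : ∀ i, cond (p i) (m i) (if W i then G + cm (fun α => if eF α = 0 then 1 else 0) H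
        else cm (fun α => if eP α = 0 then 1 else 0) G + H) = 0 := by
      intro i
      have h2 := congrFun (LinearMap.mem_ker.mp hx) i
      rw [hA, LinearMap.comp_apply] at h2
      unfold fam at h2
      rw [LinearMap.pi_apply, LinearMap.comp_apply] at h2
      rw [Pi.zero_apply] at h2
      rw [← h2]
      congr 1
      by_cases hW : W i
      · rw [if_pos hW, if_pos hW, if_pos rfl]
        rfl
      · rw [if_neg hW, if_neg hW, if_pos rfl]
        rfl
    refine ⟨⟨⟨hG.1.1, fun i => ?_⟩, hG.2⟩, ⟨⟨hH.1.1, fun i => ?_⟩, hH.2⟩⟩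
    · by_cases hW : W i
      · have h2 := h1 i
        rw [if_pos hW, hz eF DF hF H hH, add_zero, cond_eq_zero] at h2
        rw [rs_of hW]
        exact h2
      · rw [rs_not hW]
        exact fun k hk => absurd hk (Nat.not_lt_zero k)
    · by_cases hW : W i
      · rw [rs_not (W := fun i => ¬ W i) (by simpa using hW)]
        exact fun k hk => absurd hk (Nat.not_lt_zero k)
      · have h2 := h1 i
        rw [if_neg hW, hz eP DP hP G hG, zero_add, cond_eq_zero] at h2
        rw [rs_of (W := fun i => ¬ W i) hW]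
        exact h2
  let f : LinearMap.ker A →ₗ[ℂ]
      (ms d p (rs W m) DP) × (ms d p (rs (fun i => ¬ W i) m) DF) :=
    { toFun := fun x => (⟨(x.1.1 : R3), (hker x.1 x.2).1⟩, ⟨(x.1.2 : R3), (hker x.1 x.2).2⟩)
      map_add' := fun x y => rfl
      map_smul' := fun c x => rfl }
  have hf : Function.Injective f := by
    rintro ⟨⟨⟨G, hG⟩, ⟨H, hH⟩⟩, hx⟩ ⟨⟨⟨G', hG'⟩, ⟨H', hH'⟩⟩, hx'⟩ hxy
    have h1 : G = G' := congrArg (fun z => (z.1 : R3)) hxy
    have h2 : H = H' := congrArg (fun z => (z.2 : R3)) hxy
    subst h1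
    subst h2
    rfl
  have h1 := LinearMap.finrank_le_finrank_of_injective hf
  rwa [Module.finrank_prod] at h1

/-- **Block inequality.** -/
theorem block (hp : GenericPoints p) (W : ι → Prop) {D DP DF : Ex → Prop} (lam : Fin 3 → ℕ)
    (hD : ∀ α, α.degree = d → D α → DP α ∨ DF α)
    (hgap : ∀ α β, α.degree = d → β.degree = d → DP α → DF β → wg lam α < wg lam β) :
    finrank ℂ (ms d p m D) ≤
      finrank ℂ (ms d p (rs W m) DP) + finrank ℂ (ms d p (rs (fun i => ¬ W i) m) DF) := by
  classical
  by_cases hP : ∃ α : Ex, α.degree = d ∧ DP α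
  swap
  · have h1 := finrank_ms_mono (d := d) (p := p) (m := m) (D := D) (D' := DF)
      (rs_le (fun i => ¬ W i) m) (fun α hα h => (hD α hα h).resolve_left
        (fun h' => hP ⟨α, hα, h'⟩))
    omega
  obtain ⟨κ, hκ1, hκ2⟩ : ∃ κ, (∀ α : Ex, α.degree = d → DP α → wg lam α ≤ κ) ∧
      (∀ β : Ex, β.degree = d → DF β → κ < wg lam β) := by
    let S : Set ℕ := {n | ∃ α : Ex, α.degree = d ∧ DP α ∧ wg lam α = n}
    have hS : S.Nonempty := by
      obtain ⟨α, h1, h2⟩ := hP
      exact ⟨_, α, h1, h2, rfl⟩
    have hb : BddAbove S := by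
      refine ⟨(lam 0 + lam 1 + lam 2) * d, ?_⟩
      rintro n ⟨α, h1, -, rfl⟩
      exact wg_le lam h1
    obtain ⟨α, h1, h2, h3⟩ := Nat.sSup_mem hS hb
    refine ⟨sSup S, fun α' h1' h2' => le_csSup hb ⟨α', h1', h2', rfl⟩, fun β h4 h5 => ?_⟩
    rw [← h3]
    exact hgap α β h1 h4 h2 h5
  set eP : Ex → ℕ := fun α => 2 * κ + 1 - 2 * wg lam α with heP
  set eF : Ex → ℕ := fun α => 2 * wg lam α - (2 * κ + 1) with heF
  set K : ℕ := 2 * κ + 1 + 2 * ((lam 0 + lam 1 + lam 2) * d) with hK
  set A : ℕ → ((ms d p (fun _ => 0) DP) × (ms d p (fun _ => 0) DF)) →ₗ[ℂ]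
      (∀ i, Fin (m i) → R3) := fun k => (fam p m W eP eF k).comp (LinearMap.prodMap
      (ms d p (fun _ => 0) DP).subtype (ms d p (fun _ => 0) DF).subtype) with hA
  obtain ⟨Z, hZ⟩ := finrank_ker_semicont K A
  obtain ⟨t, ht, htZ⟩ := exists_nat_inv Z
  have ht0 : (t : ℂ) ≠ 0 := by
    rw [Nat.cast_ne_zero]; omega
  have h1 := hZ _ htZ
  have h2 : finrank ℂ (LinearMap.ker (A 0)) ≤ _ := finrank_ker_fam (m := m) (W := W) (DP := DP)
    (DF := DF) (eP := eP) (eF := eF) (fun α h3 h4 => by
      have := hκ1 α h3 h4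
      simp only [heP]
      omega) (fun α h3 h4 => by
      have := hκ2 α h3 h4
      simp only [heF]
      omega)
  refine le_trans ?_ (h1.trans h2)
  set s : ℂ := (t : ℂ)⁻¹ with hs
  set u : ι → Fin 3 → ℚ := fun i k => if W i then 1 else (t : ℚ) ^ (2 * lam k) with hu
  have hu0 : ∀ i k, u i k ≠ 0 := by
    intro i k
    simp only [hu]
    split_ifs
    · exact one_ne_zero
    · apply pow_ne_zero
      rw [Nat.cast_ne_zero]
      omega
  rw [finrank_ms_scale hp u hu0]
  set q : ι → V3 := fun i k => (u i k : ℂ) * p i k with hq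
  have hqW : ∀ i, W i → q i = p i := by
    intro i hi
    funext k
    simp only [hq, hu, if_pos hi]
    push_cast
    ring
  have hqN : ∀ i, ¬ W i → q i = fun k => (t : ℂ) ^ ((fun k => 2 * lam k) k) * p i k := by
    intro i hi
    funext k
    simp only [hq, hu, if_neg hi]
    push_cast
    ring
  set cP : Ex → ℂ := fun α => if DP α then 1 else 0 with hcP
  set cF : Ex → ℂ := fun α => if DP α then 0 else if DF α then (t : ℂ) ^ eF α else 0 with hcF
  have hGm : ∀ F ∈ ms d q m D, cm cP F ∈ ms d p (fun _ => 0) DP := by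
    intro F hF
    refine ⟨⟨cm_isHomogeneous _ hF.1.1, fun i k hk => absurd hk (Nat.not_lt_zero k)⟩, ?_⟩
    intro α hα
    by_contra hn
    exact (supp_cm _ hα).1 (if_neg hn)
  have hHm : ∀ F ∈ ms d q m D, cm cF F ∈ ms d p (fun _ => 0) DF := by
    intro F hF
    refine ⟨⟨cm_isHomogeneous _ hF.1.1, fun i k hk => absurd hk (Nat.not_lt_zero k)⟩, ?_⟩
    intro α hα
    by_contra hn
    apply (supp_cm _ hα).1
    simp only [hcF]
    split_ifs <;> rfl
  have hst : s * (t : ℂ) = 1 := by
    rw [hs, inv_mul_cancel₀ ht0]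
  have hker : ∀ F (hF : F ∈ ms d q m D),
      ((⟨cm cP F, hGm F hF⟩, ⟨cm cF F, hHm F hF⟩) :
        (ms d p (fun _ => 0) DP) × (ms d p (fun _ => 0) DF)) ∈
        LinearMap.ker (∑ k ∈ Finset.range (K + 1), s ^ k • A k) := by
    intro F hF
    rw [LinearMap.mem_ker]
    have h3 : (∑ k ∈ Finset.range (K + 1), s ^ k • A k)
        (⟨cm cP F, hGm F hF⟩, ⟨cm cF F, hHm F hF⟩) =
        (∑ k ∈ Finset.range (K + 1), s ^ k • fam p m W eP eF k) (cm cP F, cm cF F) := by
      rw [LinearMap.sum_apply, LinearMap.sum_apply]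
      rfl
    rw [h3]
    funext i
    rw [fam_sum, Pi.zero_apply]
    · by_cases hW : W i
      · rw [if_pos hW, cond_eq_zero]
        have h4 : cm cP F + cm (fun α => s ^ eF α) (cm cF F) = F := by
          ext α
          rw [coeff_add, coeff_cm, coeff_cm, coeff_cm]
          by_cases h : coeff α F = 0
          · rw [h, mul_zero, mul_zero, mul_zero, add_zero]
          · have h5 := hD α (degree_of_coeff hF.1.1 h) (hF.2 α h)
            by_cases h6 : DP α
            · simp only [hcP, hcF, if_pos h6]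
              ring
            · simp only [hcP, hcF, if_neg h6, if_pos (h5.resolve_left h6)]
              rw [zero_mul, zero_add, ← mul_assoc, ← mul_pow, hst, one_pow, one_mul]
        rw [h4, ← hqW i hW]
        exact hF.1.2 i
      · rw [if_neg hW, cond_eq_zero]
        have h4 : cm (fun α => s ^ eP α) (cm cP F) + cm cF F =
            (s ^ (2 * κ + 1)) • sc (fun k => 2 * lam k) t F := by
          ext α
          rw [coeff_add, coeff_cm, coeff_cm, coeff_cm, coeff_smul, coeff_sc, wg_two, smul_eq_mul]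
          by_cases h : coeff α F = 0
          · rw [h]
            ring
          · have hdeg := degree_of_coeff hF.1.1 h
            have h5 := hD α hdeg (hF.2 α h)
            by_cases h6 : DP α
            · simp only [hcP, hcF, if_pos h6]
              have h7 := hκ1 α hdeg h6
              have h8 : 2 * κ + 1 = eP α + 2 * wg lam α := by
                simp only [heP]
                omega
              rw [one_mul, zero_mul, add_zero]
              rw [h8, pow_add, mul_assoc, ← mul_assoc (s ^ (2 * wg lam α)), ← mul_pow, hst,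
                one_pow, one_mul]
            · have h6' := h5.resolve_left h6
              simp only [hcP, hcF, if_neg h6, if_pos h6']
              have h7 := hκ2 α hdeg h6'
              have h8 : 2 * wg lam α = (2 * κ + 1) + eF α := by
                simp only [heF]
                omega
              have key : s ^ (2 * κ + 1) * (t : ℂ) ^ (2 * κ + 1) = 1 := by
                rw [← mul_pow, hst, one_pow]
              rw [h8, pow_add (t : ℂ) (2 * κ + 1)]
              linear_combination (-((t : ℂ) ^ eF α * coeff α F)) * key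
        rw [h4]
        have h5 : VanishTo (sc (fun k => 2 * lam k) t F) (p i) (m i) := by
          apply vanishTo_sc
          rw [← hqN i hW]
          exact hF.1.2 i
        rw [← cond_eq_zero] at h5 ⊢
        rw [map_smul, h5, smul_zero]
    · intro α _
      simp only [heP, hK]
      omega
    · intro α hα
      have hdeg := degree_of_coeff (hHm F hF).1.1 hα
      have := wg_le lam hdeg
      simp only [heF, hK]
      omega
  let f : ms d q m D →ₗ[ℂ] LinearMap.ker (∑ k ∈ Finset.range (K + 1), s ^ k • A k) :=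
    { toFun := fun F => ⟨(⟨cm cP F.1, hGm F.1 F.2⟩, ⟨cm cF F.1, hHm F.1 F.2⟩), hker F.1 F.2⟩
      map_add' := fun x y => by
        apply Subtype.ext
        apply Prod.ext
        · exact Subtype.ext (map_add (cm cP) x.1 y.1)
        · exact Subtype.ext (map_add (cm cF) x.1 y.1)
      map_smul' := fun c x => by
        apply Subtype.ext
        apply Prod.ext
        · exact Subtype.ext (map_smul (cm cP) c x.1)
        · exact Subtype.ext (map_smul (cm cF) c x.1) }
  refine LinearMap.finrank_le_finrank_of_injective (f := f) ?_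
  rw [injective_iff_map_eq_zero]
  rintro ⟨F, hF⟩ hx
  have hx' := congrArg Subtype.val hx
  have h3 : cm cP F = 0 := congrArg (fun z => (z.1 : R3)) hx'
  have h4 : cm cF F = 0 := congrArg (fun z => (z.2 : R3)) hx'
  apply Subtype.ext
  change F = 0
  ext α
  rw [coeff_zero]
  by_contra h
  have h5 := hD α (degree_of_coeff hF.1.1 h) (hF.2 α h)
  by_cases h6 : DP α
  · have h7 := congrArg (coeff α) h3
    rw [coeff_cm, coeff_zero] at h7
    simp only [hcP, if_pos h6, one_mul] at h7
    exact h h7
  · have h7 := congrArg (coeff α) h4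
    rw [coeff_cm, coeff_zero] at h7
    simp only [hcF, if_neg h6, if_pos (h5.resolve_left h6)] at h7
    rcases mul_eq_zero.mp h7 with h8 | h8
    · exact pow_ne_zero _ ht0 h8
    · exact h h8

end block

end Pool.Agent.Work.MP_0421d9_ag
end

section
/-!
A point of multiplicity `m` kills a coefficient which is separated from the other exponents by
fewer than `m` coordinate lines.
-/

set_option linter.unusedSectionVars false

namespace Pool.Agent.Work.MP_0421d9_ag

open MvPolynomial Module

theorem translate_pderiv (a : V3) (k : Fin 3) (F : R3) :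
    translate a (pderiv k F) = pderiv k (translate a F) := by
  classical
  induction F using MvPolynomial.induction_on with
  | C c =>
    have h : translate a (C c) = C c := by
      unfold translate
      rw [← algebraMap_eq, AlgHom.commutes]
    rw [pderiv_C, h, pderiv_C]
    unfold translate
    rw [map_zero]
  | add p q hp hq =>
    unfold translate at *
    rw [map_add, map_add, hp, hq, map_add, map_add]
  | mul_X p n hp =>
    have h : translate a (X n) = C (a n) + X n := by
      unfold translate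
      rw [aeval_X]
    have h2 : translate a (pderiv k (X n : R3)) = pderiv k (C (a n) + X n : R3) := by
      rw [map_add, pderiv_C, zero_add, pderiv_X]
      unfold translate
      by_cases hk : k = n
      · subst hk
        rw [Pi.single_eq_same, map_one]
      · rw [Pi.single_eq_of_ne (Ne.symm hk), map_zero]
    have h3 : ∀ f g : R3, translate a (f + g) = translate a f + translate a g := by
      intro f g
      unfold translate
      rw [map_add]
    rw [Derivation.leibniz, smul_eq_mul, smul_eq_mul, h3, translate_mul, translate_mul,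
      translate_mul, Derivation.leibniz, smul_eq_mul, smul_eq_mul, hp, h, h2]

theorem component_pderiv (k : Fin 3) (n : ℕ) (F : R3) :
    homogeneousComponent n (pderiv k F) = pderiv k (homogeneousComponent (n + 1) F) := by
  ext β
  rw [coeff_homogeneousComponent, coeff_pderiv, coeff_pderiv, coeff_homogeneousComponent, map_add,
    Finsupp.degree_single]
  by_cases h : β.degree = n
  · rw [if_pos h, if_pos (by omega)]
  · rw [if_neg h, if_neg (by omega), zero_mul]

theorem vanishTo_pderiv {F : R3} {a : V3} {n : ℕ} (k : Fin 3) (h : VanishTo F a (n + 1)) :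
    VanishTo (pderiv k F) a n := by
  intro j hj
  rw [translate_pderiv, component_pderiv, h (j + 1) (by omega), map_zero]

theorem vanishTo_add {F G : R3} {a : V3} {n : ℕ} (hF : VanishTo F a n) (hG : VanishTo G a n) :
    VanishTo (F + G) a n := by
  intro j hj
  have h3 : translate a (F + G) = translate a F + translate a G := by
    unfold translate
    rw [map_add]
  rw [h3, map_add, hF j hj, hG j hj, add_zero]

theorem vanishTo_smul {F : R3} {a : V3} {n : ℕ} (c : ℂ) (hF : VanishTo F a n) :
    VanishTo (c • F) a n := by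
  intro j hj
  have h3 : translate a (c • F) = c • translate a F := by
    unfold translate
    rw [map_smul]
  rw [h3, map_smul, hF j hj, smul_zero]

theorem cm_coord (k : Fin 3) (F : R3) : cm (fun α => (α k : ℂ)) F = X k * pderiv k F := by
  induction F using MvPolynomial.induction_on' with
  | monomial α a =>
    rw [X_mul_pderiv_monomial]
    ext β
    classical
    rw [coeff_cm, coeff_monomial, coeff_smul, coeff_monomial]
    split_ifs with h
    · rw [h, nsmul_eq_mul]
    · rw [mul_zero, smul_zero]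
  | add p q hp hq => rw [map_add, hp, hq, map_add, mul_add]

theorem cm_sub_const (k : Fin 3) (c : ℕ) (F : R3) :
    cm (fun α => (α k : ℂ) - c) F = X k * pderiv k F + (-(c : ℂ)) • F := by
  rw [← cm_coord]
  ext β
  rw [coeff_cm, coeff_add, coeff_cm, coeff_smul, smul_eq_mul]
  ring

/-- the product of the coordinate lines -/
noncomputable def lp (L : List (Fin 3 × ℕ)) (α : Ex) : ℂ :=
  (L.map fun z => (α z.1 : ℂ) - (z.2 : ℂ)).prod

theorem vanishTo_lp {F : R3} {a : V3} (L : List (Fin 3 × ℕ)) {n : ℕ}
    (h : VanishTo F a (n + L.length)) : VanishTo (cm (lp L) F) a n := by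
  induction L generalizing n with
  | nil =>
    have h1 : cm (lp []) F = F := by
      ext β
      rw [coeff_cm]
      unfold lp
      rw [List.map_nil, List.prod_nil, one_mul]
    rw [h1]
    simpa using h
  | cons z L ih =>
    have h1 : cm (lp (z :: L)) F = cm (fun α => (α z.1 : ℂ) - z.2) (cm (lp L) F) := by
      ext β
      rw [coeff_cm, coeff_cm, coeff_cm]
      unfold lp
      rw [List.map_cons, List.prod_cons, mul_assoc]
    have h2 : VanishTo (cm (lp L) F) a (n + 1) := by
      apply ih
      rw [List.length_cons] at h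
      rwa [add_assoc, add_comm 1]
    rw [h1, cm_sub_const]
    refine vanishTo_add ?_ (vanishTo_smul _ (h2.mono (Nat.le_succ n)))
    have h3 := vanishTo_mul (vanishTo_zero (X z.1) a) (vanishTo_pderiv z.1 h2)
    rwa [zero_add] at h3

/-- covering lemma -/
theorem coeff_eq_zero_of_lines {F : R3} {a : V3} {m : ℕ} (ha : ∀ k, a k ≠ 0)
    (hF : VanishTo F a m) (α : Ex) (L : List (Fin 3 × ℕ)) (hL : L.length < m)
    (h1 : ∀ β, coeff β F ≠ 0 → β ≠ α → ∃ z ∈ L, β z.1 = z.2)
    (h2 : ∀ z ∈ L, α z.1 ≠ z.2) : coeff α F = 0 := by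
  classical
  have h3 : VanishTo (cm (lp L) F) a 1 := by
    apply vanishTo_lp
    exact hF.mono (by omega)
  have h4 : cm (lp L) F = monomial α (lp L α * coeff α F) := by
    ext β
    rw [coeff_cm, coeff_monomial]
    split_ifs with h
    · rw [h]
    · by_cases h5 : coeff β F = 0
      · rw [h5, mul_zero]
      · obtain ⟨z, hz, hz'⟩ := h1 β h5 (Ne.symm h)
        have h6 : lp L β = 0 := by
          unfold lp
          rw [List.prod_eq_zero_iff, List.mem_map]
          exact ⟨z, hz, by rw [hz', sub_self]⟩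
        rw [h6, zero_mul]
  rw [vanishTo_one_iff', h4, eval_monomial, Finsupp.prod_pow] at h3
  rcases mul_eq_zero.mp h3 with h5 | h5
  · rcases mul_eq_zero.mp h5 with h6 | h6
    · exfalso
      unfold lp at h6
      rw [List.prod_eq_zero_iff, List.mem_map] at h6
      obtain ⟨z, hz, hz'⟩ := h6
      apply h2 z hz
      rw [sub_eq_zero] at hz'
      exact_mod_cast hz'
    · exact h6
  · exfalso
    rw [Finset.prod_eq_zero_iff] at h5
    obtain ⟨k, -, hk⟩ := h5
    exact pow_ne_zero _ (ha k) hk

end Pool.Agent.Work.MP_0421d9_ag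
end

section
/-!
Strips of exponents: two points of multiplicity `k` shift a strip by `2 * k - l`.
-/

set_option linter.unusedSectionVars false

namespace Pool.Agent.Work.MP_0421d9_ag

open MvPolynomial Module

/-! ### counting exponents -/

/-- the exponent with given coordinates -/
noncomputable def ex (a b c : ℕ) : Ex := Finsupp.equivFunOnFinite.symm ![a, b, c]

theorem ex_zero (a b c : ℕ) : ex a b c 0 = a := rfl

theorem ex_one (a b c : ℕ) : ex a b c 1 = b := rfl

theorem ex_two (a b c : ℕ) : ex a b c 2 = c := rfl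

theorem ex_ext {α β : Ex} (h0 : α 0 = β 0) (h1 : α 1 = β 1) (h2 : α 2 = β 2) : α = β := by
  ext k
  fin_cases k
  · exact h0
  · exact h1
  · exact h2

theorem finrank_ms_le_card {ι : Type} {d : ℕ} {p : ι → V3} {m : ι → ℕ} {D : Ex → Prop}
    (S : Finset Ex) (h : ∀ α, α.degree = d → D α → α ∈ S) :
    finrank ℂ (ms d p m D) ≤ S.card := by
  let f : ms d p m D →ₗ[ℂ] (S → ℂ) :=
    { toFun := fun F s => coeff s.1 F.1
      map_add' := fun F G => by
        funext s
        exact coeff_add _ _ _
      map_smul' := fun c F => by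
        funext s
        exact coeff_smul _ _ _ }
  have hf : Function.Injective f := by
    rw [injective_iff_map_eq_zero]
    rintro ⟨F, hF⟩ hx
    apply Subtype.ext
    change F = 0
    ext α
    rw [coeff_zero]
    by_contra hne
    have h1 := h α (degree_of_coeff hF.1.1 hne) (hF.2 α hne)
    exact hne (congrFun hx ⟨α, h1⟩)
  have h1 := LinearMap.finrank_le_finrank_of_injective hf
  rwa [Module.finrank_fintype_fun_eq_card, Fintype.card_coe] at h1

theorem finrank_strip_zero {ι : Type} {d c l : ℕ} {p : ι → V3} {m : ι → ℕ} :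
    finrank ℂ (ms d p m (fun α => c ≤ α 0 ∧ α 2 ≤ l)) ≤
      ∑ j ∈ Finset.range (l + 1), (d + 1 - c - j) := by
  classical
  let S : Finset Ex := (Finset.range (l + 1)).biUnion fun j =>
    (Finset.range (d + 1 - c - j)).image fun x => ex (c + x) (d - j - c - x) j
  refine (finrank_ms_le_card S ?_).trans ?_
  · rintro α hα ⟨h0, h2⟩
    rw [degree_three] at hα
    simp only [S, Finset.mem_biUnion, Finset.mem_image, Finset.mem_range]
    refine ⟨α 2, by omega, α 0 - c, by omega, ?_⟩
    apply ex_ext
    · rw [ex_zero]; omega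
    · rw [ex_one]; omega
    · rw [ex_two]
  · refine Finset.card_biUnion_le.trans (Finset.sum_le_sum fun j _ => ?_)
    exact Finset.card_image_le.trans (Finset.card_range _).le

/-! ### triangles -/

theorem ms_eq_bot_of {ι : Type} {d k : ℕ} {p : ι → V3} {m : ι → ℕ} {D : Ex → Prop} (x : ι)
    (hx : ∀ l, p x l ≠ 0) (hm : k ≤ m x)
    (h : ∀ α : Ex, α.degree = d → D α → ∃ L : List (Fin 3 × ℕ), L.length < k ∧
      (∀ β : Ex, β.degree = d → D β → β ≠ α → ∃ z ∈ L, β z.1 = z.2) ∧ ∀ z ∈ L, α z.1 ≠ z.2) :
    ms d p m D = ⊥ := by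
  rw [Submodule.eq_bot_iff]
  intro F hF
  ext α
  rw [coeff_zero]
  by_contra hne
  obtain ⟨L, hL, h1, h2⟩ := h α (degree_of_coeff hF.1.1 hne) (hF.2 α hne)
  exact hne (coeff_eq_zero_of_lines hx ((hF.1.2 x).mono hm) α L hL
    (fun β hβ => h1 β (degree_of_coeff hF.1.1 hβ) (hF.2 β hβ)) h2)

/-- the lower triangle -/
theorem kill_lower {ι : Type} {d k i0 : ℕ} {p : ι → V3} {m : ι → ℕ} (x : ι)
    (hx : ∀ l, p x l ≠ 0) (hm : k ≤ m x) {D : Ex → Prop}
    (hD : ∀ α, D α → i0 ≤ α 0 ∧ α 0 + α 2 < i0 + k) :
    ms d p m D = ⊥ := by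
  apply ms_eq_bot_of x hx hm
  intro α hα hDα
  have h0 := hD α hDα
  rw [degree_three] at hα
  refine ⟨(List.range (α 0 - i0)).map (fun w => ((0 : Fin 3), i0 + w)) ++
    ((List.range (α 2)).map (fun w => ((2 : Fin 3), w)) ++
    (List.range (min (α 1) (i0 + k - 1 - (α 0 + α 2)))).map
      (fun w => ((1 : Fin 3), α 1 - 1 - w))), ?_, ?_, ?_⟩
  · simp only [List.length_append, List.length_map, List.length_range]
    omega
  · intro β hβ hDβ hne
    have h1 := hD β hDβ
    rw [degree_three] at hβ
    by_cases c0 : β 0 < α 0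
    · refine ⟨((0 : Fin 3), β 0), ?_, rfl⟩
      rw [List.mem_append, List.mem_map]
      refine Or.inl ⟨β 0 - i0, List.mem_range.mpr (by omega), ?_⟩
      rw [Prod.mk.injEq]
      exact ⟨rfl, by omega⟩
    · by_cases c2 : β 2 < α 2
      · refine ⟨((2 : Fin 3), β 2), ?_, rfl⟩
        rw [List.mem_append, List.mem_append, List.mem_map, List.mem_map]
        exact Or.inr (Or.inl ⟨β 2, List.mem_range.mpr c2, rfl⟩)
      · have c1 : β 1 < α 1 := by
          by_contra hc
          exact hne (ex_ext (by omega) (by omega) (by omega))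
        refine ⟨((1 : Fin 3), β 1), ?_, rfl⟩
        rw [List.mem_append, List.mem_append, List.mem_map, List.mem_map, List.mem_map]
        refine Or.inr (Or.inr ⟨α 1 - 1 - β 1, List.mem_range.mpr (by omega), ?_⟩)
        rw [Prod.mk.injEq]
        exact ⟨rfl, by omega⟩
  · intro z hz
    rw [List.mem_append, List.mem_append, List.mem_map, List.mem_map, List.mem_map] at hz
    rcases hz with ⟨w, hw, rfl⟩ | ⟨w, hw, rfl⟩ | ⟨w, hw, rfl⟩
    · rw [List.mem_range] at hw
      change α 0 ≠ i0 + w
      omega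
    · rw [List.mem_range] at hw
      change α 2 ≠ w
      omega
    · rw [List.mem_range] at hw
      change α 1 ≠ α 1 - 1 - w
      omega

/-- the upper triangle -/
theorem kill_upper {ι : Type} {d k i0 l : ℕ} {p : ι → V3} {m : ι → ℕ} (x : ι)
    (hx : ∀ l, p x l ≠ 0) (hm : k ≤ m x) {D : Ex → Prop}
    (hD : ∀ α, D α → i0 ≤ α 0 ∧ α 0 < i0 + k ∧ i0 + l ≤ α 0 + α 2 ∧ α 2 ≤ l) :
    ms d p m D = ⊥ := by
  apply ms_eq_bot_of x hx hm
  intro α hα hDα
  have h0 := hD α hDα
  rw [degree_three] at hα
  refine ⟨(List.range (i0 + k - 1 - α 0)).map (fun w => ((0 : Fin 3), α 0 + 1 + w)) ++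
    ((List.range (l - α 2)).map (fun w => ((2 : Fin 3), α 2 + 1 + w)) ++
    (List.range (α 0 + α 2 - (i0 + l))).map
      (fun w => ((1 : Fin 3), α 1 + 1 + w))), ?_, ?_, ?_⟩
  · simp only [List.length_append, List.length_map, List.length_range]
    omega
  · intro β hβ hDβ hne
    have h1 := hD β hDβ
    rw [degree_three] at hβ
    by_cases c0 : α 0 < β 0
    · refine ⟨((0 : Fin 3), β 0), ?_, rfl⟩
      rw [List.mem_append, List.mem_map]
      refine Or.inl ⟨β 0 - α 0 - 1, List.mem_range.mpr (by omega), ?_⟩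
      rw [Prod.mk.injEq]
      exact ⟨rfl, by omega⟩
    · by_cases c2 : α 2 < β 2
      · refine ⟨((2 : Fin 3), β 2), ?_, rfl⟩
        rw [List.mem_append, List.mem_append, List.mem_map, List.mem_map]
        refine Or.inr (Or.inl ⟨β 2 - α 2 - 1, List.mem_range.mpr (by omega), ?_⟩)
        rw [Prod.mk.injEq]
        exact ⟨rfl, by omega⟩
      · have c1 : α 1 < β 1 := by
          by_contra hc
          exact hne (ex_ext (by omega) (by omega) (by omega))
        refine ⟨((1 : Fin 3), β 1), ?_, rfl⟩
        rw [List.mem_append, List.mem_append, List.mem_map, List.mem_map, List.mem_map]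
        refine Or.inr (Or.inr ⟨β 1 - α 1 - 1, List.mem_range.mpr (by omega), ?_⟩)
        rw [Prod.mk.injEq]
        exact ⟨rfl, by omega⟩
  · intro z hz
    rw [List.mem_append, List.mem_append, List.mem_map, List.mem_map, List.mem_map] at hz
    rcases hz with ⟨w, hw, rfl⟩ | ⟨w, hw, rfl⟩ | ⟨w, hw, rfl⟩
    · rw [List.mem_range] at hw
      change α 0 ≠ α 0 + 1 + w
      omega
    · rw [List.mem_range] at hw
      change α 2 ≠ α 2 + 1 + w
      omega
    · rw [List.mem_range] at hw
      change α 1 ≠ α 1 + 1 + w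
      omega

/-! ### strips -/

section strip

variable {ι : Type} [Fintype ι] [DecidableEq ι] {d : ℕ} {p : ι → V3}

theorem coord_ne_zero (hp : GenericPoints p) (i : ι) (l : Fin 3) : p i l ≠ 0 :=
  AlgebraicIndependent.ne_zero hp (i, l)

theorem strip_step (hp : GenericPoints p) {k l i0 : ℕ} (hl : l ≤ k) {m : ι → ℕ} {x y : ι}
    (hxy : x ≠ y) (hx : k ≤ m x) (hy : k ≤ m y) :
    finrank ℂ (ms d p m (fun α => i0 ≤ α 0 ∧ α 2 ≤ l)) ≤
      finrank ℂ (ms d p (rs (fun i => ¬ (i = x ∨ i = y)) m)
        (fun α => i0 + (2 * k - l) ≤ α 0 ∧ α 2 ≤ l)) := by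
  classical
  have h1 := block (d := d) (m := m) hp (fun i => i = x)
    (D := fun α => i0 ≤ α 0 ∧ α 2 ≤ l)
    (DP := fun α => i0 ≤ α 0 ∧ α 0 + α 2 < i0 + k)
    (DF := fun α => i0 ≤ α 0 ∧ α 2 ≤ l ∧ i0 + k ≤ α 0 + α 2) ![1, 0, 1]
    (fun α _ h => by omega)
    (fun α β _ _ h h' => by
      change 1 * α 0 + 0 * α 1 + 1 * α 2 < 1 * β 0 + 0 * β 1 + 1 * β 2
      omega)
  have h2 := kill_lower (d := d) (k := k) (i0 := i0) (p := p) (m := rs (fun i => i = x) m) x
    (coord_ne_zero hp x) (by rw [rs_of (W := fun i => i = x) rfl]; exact hx)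
    (D := fun α => i0 ≤ α 0 ∧ α 0 + α 2 < i0 + k) (fun α h => h)
  have h3 := block (d := d) (m := rs (fun i => ¬ i = x) m) hp (fun i => i = y)
    (D := fun α => i0 ≤ α 0 ∧ α 2 ≤ l ∧ i0 + k ≤ α 0 + α 2)
    (DP := fun α => i0 + (k - l) ≤ α 0 ∧ α 0 < i0 + (k - l) + k ∧
      i0 + (k - l) + l ≤ α 0 + α 2 ∧ α 2 ≤ l)
    (DF := fun α => i0 + (2 * k - l) ≤ α 0 ∧ α 2 ≤ l) ![1, 0, 0]
    (fun α _ h => by omega)
    (fun α β _ _ h h' => by
      change 1 * α 0 + 0 * α 1 + 0 * α 2 < 1 * β 0 + 0 * β 1 + 0 * β 2
      omega)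
  have h4 := kill_upper (d := d) (k := k) (i0 := i0 + (k - l)) (l := l) (p := p)
    (m := rs (fun i => i = y) (rs (fun i => ¬ i = x) m)) y
    (coord_ne_zero hp y) (by
      rw [rs_of (W := fun i => i = y) rfl, rs_of (W := fun i => ¬ i = x) (Ne.symm hxy)]
      exact hy)
    (D := fun α => i0 + (k - l) ≤ α 0 ∧ α 0 < i0 + (k - l) + k ∧
      i0 + (k - l) + l ≤ α 0 + α 2 ∧ α 2 ≤ l) (fun α h => h)
  rw [h2, finrank_bot] at h1
  rw [h4, finrank_bot] at h3
  have h5 : rs (fun i => ¬ i = y) (rs (fun i => ¬ i = x) m) =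
      rs (fun i => ¬ (i = x ∨ i = y)) m := by
    funext i
    unfold rs
    by_cases c1 : i = x
    · simp [c1]
    · by_cases c2 : i = y
      · simp [c2]
      · simp [c1, c2]
  rw [h5] at h3
  omega

theorem strip (hp : GenericPoints p) {k l : ℕ} (hl : l ≤ k) (t : ℕ) :
    ∀ (S : Finset ι) (m : ι → ℕ) (i0 : ℕ), 2 * t ≤ S.card → (∀ i ∈ S, k ≤ m i) →
      finrank ℂ (ms d p m (fun α => i0 ≤ α 0 ∧ α 2 ≤ l)) ≤
        ∑ j ∈ Finset.range (l + 1), (d + 1 - (i0 + t * (2 * k - l)) - j) := by
  induction t with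
  | zero =>
    intro S m i0 _ _
    rw [zero_mul, add_zero]
    exact finrank_strip_zero
  | succ t ih =>
    intro S m i0 hS hm
    obtain ⟨x, hx⟩ : S.Nonempty := Finset.card_pos.mp (by omega)
    have hc1 := Finset.card_erase_of_mem hx
    obtain ⟨y, hy⟩ : (S.erase x).Nonempty := Finset.card_pos.mp (by omega)
    have hc2 := Finset.card_erase_of_mem hy
    have hyx := Finset.mem_erase.mp hy
    refine (strip_step hp hl (Ne.symm hyx.1) (hm x hx) (hm y hyx.2)).trans ?_
    have h1 := ih ((S.erase x).erase y) (rs (fun i => ¬ (i = x ∨ i = y)) m)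
      (i0 + (2 * k - l)) (by omega) (fun i hi => by
        have h2 := Finset.mem_erase.mp hi
        have h3 := Finset.mem_erase.mp h2.2
        rw [rs_of (W := fun i => ¬ (i = x ∨ i = y)) (by tauto)]
        exact hm i h3.2)
    have h4 : i0 + (2 * k - l) + t * (2 * k - l) = i0 + (t + 1) * (2 * k - l) := by ring
    rwa [h4] at h1

end strip

end Pool.Agent.Work.MP_0421d9_ag
end

section
/-!
Orders on a line of the members of a linear system with generic base points.
-/

set_option linter.unusedSectionVars false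

namespace Pool.Agent.Work.MP_0421d9_ag

open MvPolynomial Module

theorem translate_add (q : V3) (F G : R3) : translate q (F + G) = translate q F + translate q G := by
  unfold translate
  rw [map_add]

theorem translate_C (q : V3) (c : ℂ) : translate q (C c) = C c := by
  unfold translate
  rw [← algebraMap_eq, AlgHom.commutes]

theorem translate_X (q : V3) (n : Fin 3) : translate q (X n) = C (q n) + X n := by
  unfold translate
  rw [aeval_X]

/-- a derivation moving the coordinate `a` of the point `q` -/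
theorem cD_translate (D : Derivation ℚ ℂ ℂ) {a : Fin 3} {q : V3}
    (hD : ∀ k, k ≠ a → D (q k) = 0) (F : R3) :
    cD D (translate q F) = translate q (cD D F) + C (D (q a)) * translate q (pderiv a F) := by
  classical
  induction F using MvPolynomial.induction_on with
  | C c =>
    rw [translate_C, cD_C, translate_C, pderiv_C]
    unfold translate
    rw [map_zero, mul_zero, add_zero]
  | add f g hf hg =>
    rw [translate_add, map_add, hf, hg, map_add, translate_add, map_add, translate_add]
    ring
  | mul_X f n hf =>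
    have h1 : cD D (translate q (X n : R3)) = C (D (q n)) := by
      rw [translate_X, map_add, cD_C]
      have : cD D (X n : R3) = 0 := by
        rw [cD_X]
      rw [this, add_zero]
    have h2 : C (D (q n)) = C (D (q a)) * translate q (pderiv a (X n : R3)) := by
      rw [pderiv_X]
      by_cases hk : a = n
      · subst hk
        rw [Pi.single_eq_same]
        unfold translate
        rw [map_one, mul_one]
      · rw [Pi.single_eq_of_ne (Ne.symm hk), hD n (Ne.symm hk)]
        unfold translate
        rw [C_0, map_zero, mul_zero]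
    rw [translate_mul, cD_mul, hf, h1, cD_mul, cD_X, mul_zero, add_zero, translate_mul,
      Derivation.leibniz, smul_eq_mul, smul_eq_mul, translate_add, translate_mul, translate_mul,
      h2]
    ring

theorem isHomogeneous_of_degree {G : R3} {d : ℕ} (h : ∀ α, coeff α G ≠ 0 → α.degree = d) :
    G.IsHomogeneous d := by
  intro α hα
  have := h α hα
  rwa [Finsupp.degree_eq_weight_one] at this

theorem component_cD (D : Derivation ℚ ℂ ℂ) (n : ℕ) (F : R3) :
    homogeneousComponent n (cD D F) = cD D (homogeneousComponent n F) := by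
  ext β
  rw [coeff_homogeneousComponent, coeff_cD, coeff_cD, coeff_homogeneousComponent]
  split_ifs
  · rfl
  · rw [map_zero]

theorem vanishTo_shift (D : Derivation ℚ ℂ ℂ) {a b : Fin 3} {q : V3}
    (hD : ∀ k, k ≠ a → D (q k) = 0) (hDa : D (q a) = q b) {F : R3} {n : ℕ}
    (h : VanishTo F q n) : VanishTo (cD D F + X b * pderiv a F) q n := by
  have key : translate q (cD D F + X b * pderiv a F) =
      cD D (translate q F) + X b * pderiv a (translate q F) := by
    rw [cD_translate D hD, translate_add, translate_mul, translate_X, hDa, translate_pderiv]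
    ring
  intro j hj
  rw [key, map_add, component_cD, h j hj, map_zero, zero_add]
  cases j with
  | zero => exact homogeneousComponent_mul_lt (isHomogeneous_X ℂ b) one_pos _
  | succ j =>
    rw [add_comm j 1, homogeneousComponent_mul (isHomogeneous_X ℂ b), component_pderiv,
      h (j + 1) hj, map_zero, mul_zero]

section orders

variable {ι : Type} {d : ℕ} {p : ι → V3} {m : ι → ℕ}

/-- the members whose row `l` has order at least `e` -/
noncomputable def ord (d : ℕ) (p : ι → V3) (m : ι → ℕ) (D : Ex → Prop) (a : Fin 3) (l e : ℕ) :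
    Submodule ℂ R3 :=
  ms d p m (fun α => D α ∧ (α 2 = l → e ≤ α a))

theorem ord_anti {D : Ex → Prop} {a : Fin 3} {l e e' : ℕ} (h : e ≤ e') :
    ord d p m D a l e' ≤ ord d p m D a l e :=
  ms_mono (fun _ => le_rfl) (fun _ _ h' => ⟨h'.1, fun h2 => h.trans (h'.2 h2)⟩)

theorem ord_zero {D : Ex → Prop} {a : Fin 3} {l : ℕ} : ord d p m D a l 0 = ms d p m D := by
  ext F
  exact ⟨fun h => ⟨h.1, fun α hα => (h.2 α hα).1⟩,
    fun h => ⟨h.1, fun α hα => ⟨h.2 α hα, fun _ => Nat.zero_le _⟩⟩⟩

theorem ord_step (hp : GenericPoints p) {D : Ex → Prop} {a b : Fin 3} (hab : a ≠ b) (ha : a ≠ 2)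
    (hb : b ≠ 2)
    (hst : ∀ α β : Ex, D α → β a + 1 = α a → β b = α b + 1 → β 2 = α 2 → D β) {l e : ℕ}
    (h : ord d p m D a l e = ord d p m D a l (e + 1)) :
    ord d p m D a l (e + 1) = ord d p m D a l (e + 2) := by
  classical
  refine le_antisymm ?_ (ord_anti (by omega))
  intro F hF
  refine ⟨hF.1, fun α hα => ⟨(hF.2 α hα).1, fun hα2 => ?_⟩⟩
  by_contra hcon
  have h1 := (hF.2 α hα).2 hα2
  have h2 : α a = e + 1 := by omega
  obtain ⟨δ, hδ⟩ := exists_derivation (fun z : ι × Fin 3 => p z.1 z.2) hp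
    (fun z => if z.2 = a then p z.1 b else 0)
  have hδ0 : ∀ i k, k ≠ a → δ (p i k) = 0 := by
    intro i k hk
    have := hδ (i, k)
    simpa [hk] using this
  have hδa : ∀ i, δ (p i a) = p i b := by
    intro i
    have := hδ (i, a)
    simpa using this
  set G : R3 := cD δ F + X b * pderiv a F with hG
  have hcoef : ∀ γ : Ex, coeff γ G = δ (coeff γ F) + (if γ b = 0 then 0 else
      coeff (γ - Finsupp.single b 1 + Finsupp.single a 1) F * ((γ a : ℂ) + 1)) := by
    intro γ
    rw [hG, coeff_add, coeff_cD, coeff_X_mul']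
    congr 1
    by_cases hγ : γ b = 0
    · rw [if_pos hγ, if_neg]
      rw [Finsupp.mem_support_iff]
      exact fun h => h hγ
    · rw [if_neg hγ, if_pos (Finsupp.mem_support_iff.mpr hγ), coeff_pderiv]
      congr 2
      rw [Finsupp.tsub_apply, Finsupp.single_apply, if_neg (Ne.symm hab)]
      simp
  have hGmem : G ∈ ord d p m D a l e := by
    refine ⟨⟨?_, fun i => vanishTo_shift δ (hδ0 i) (hδa i) (hF.1.2 i)⟩, ?_⟩
    · apply isHomogeneous_of_degree
      intro γ hγ
      rw [hcoef] at hγ
      by_cases c1 : coeff γ F = 0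
      · rw [c1, map_zero, zero_add] at hγ
        split_ifs at hγ with c2
        · exact absurd rfl hγ
        · have c3 := degree_of_coeff hF.1.1 (left_ne_zero_of_mul hγ)
          have c5 : γ - Finsupp.single b 1 + Finsupp.single b 1 = γ :=
            tsub_add_cancel_of_le (Finsupp.single_le_iff.mpr (by omega))
          have c4 := congrArg Finsupp.degree c5
          rw [map_add, Finsupp.degree_single] at c3 c4
          omega
      · exact degree_of_coeff hF.1.1 c1
    · intro γ hγ
      rw [hcoef] at hγ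
      by_cases c1 : coeff γ F = 0
      · rw [c1, map_zero, zero_add] at hγ
        split_ifs at hγ with c2
        · exact absurd rfl hγ
        · have c3 := hF.2 _ (left_ne_zero_of_mul hγ)
          have e1 : (γ - Finsupp.single b 1 + Finsupp.single a 1 : Ex) a = γ a + 1 := by
            simp [hab]
          have e2 : (γ - Finsupp.single b 1 + Finsupp.single a 1 : Ex) b + 1 = γ b := by
            simp [Ne.symm hab]
            omega
          have e3 : (γ - Finsupp.single b 1 + Finsupp.single a 1 : Ex) 2 = γ 2 := by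
            simp [ha, hb]
          refine ⟨hst _ γ c3.1 e1.symm e2.symm e3.symm, fun hγ2 => ?_⟩
          have c4 := c3.2 (e3.trans hγ2)
          omega
      · have c3 := hF.2 _ c1
        exact ⟨c3.1, fun hγ2 => by
          have := c3.2 hγ2
          omega⟩
  rw [h] at hGmem
  set β : Ex := α - Finsupp.single a 1 + Finsupp.single b 1 with hβ
  have f1 : β a = e := by
    rw [hβ]
    simp [Ne.symm hab, h2]
  have f2 : β 2 = l := by
    rw [hβ]
    simp [ha, hb, hα2]
  have f3 : β b ≠ 0 := by
    rw [hβ]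
    simp [Ne.symm hab]
  have f4 : β - Finsupp.single b 1 + Finsupp.single a 1 = α := by
    rw [hβ, add_tsub_cancel_right]
    ext k
    rw [Finsupp.add_apply, Finsupp.tsub_apply, Finsupp.single_apply]
    split_ifs with hk
    · rw [← hk, h2]
      omega
    · rfl
  have f5 : coeff β F = 0 := by
    by_contra hne
    have := (hF.2 β hne).2 f2
    omega
  have f6 : coeff β G ≠ 0 := by
    rw [hcoef, f5, map_zero, zero_add, if_neg f3, f4, f1]
    apply mul_ne_zero hα
    exact_mod_cast Nat.succ_ne_zero e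
  have f7 := (hGmem.2 β f6).2 f2
  omega

theorem orders (hp : GenericPoints p) {D : Ex → Prop} {a b : Fin 3} (hab : a ≠ b) (ha : a ≠ 2)
    (hb : b ≠ 2)
    (hst : ∀ α β : Ex, D α → β a + 1 = α a → β b = α b + 1 → β 2 = α 2 → D β) {l : ℕ}
    (h : ord d p m D a l (d + 1) = ⊥) (e : ℕ) :
    finrank ℂ (ord d p m D a l e) ≤ finrank ℂ (ms d p m D) - e := by
  have key : ord d p m D a l e ≠ ⊥ →
      finrank ℂ (ord d p m D a l e) + e ≤ finrank ℂ (ms d p m D) := by
    induction e with
    | zero =>
      intro _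
      rw [ord_zero, add_zero]
    | succ e ih =>
      intro hne
      have hle := ord_anti (d := d) (p := p) (m := m) (D := D) (a := a) (l := l)
        (Nat.le_succ e)
      have h1 := ih (fun h0 => hne (by
        rw [eq_bot_iff, ← h0]
        exact hle))
      have h2 : ord d p m D a l (e + 1) ≠ ord d p m D a l e := by
        intro heq
        have h3 : ∀ j, ord d p m D a l (e + 1 + j) = ord d p m D a l e := by
          intro j
          induction j with
          | zero => exact heq
          | succ j ihj =>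
            have h4 : ∀ j, ord d p m D a l (e + j) = ord d p m D a l (e + j + 1) := by
              intro j
              induction j with
              | zero => exact heq.symm
              | succ j ihj => exact ord_step hp hab ha hb hst ihj
            have h5 := h4 (j + 1)
            rw [(by ring : e + (j + 1) = e + 1 + j)] at h5
            rw [← ihj, h5, (by ring : e + 1 + (j + 1) = e + 1 + j + 1)]
        apply hne
        rw [heq, eq_bot_iff, ← h, ← h3 (d + 1)]
        exact ord_anti (by omega)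
      have h3 : finrank ℂ (ord d p m D a l (e + 1)) < finrank ℂ (ord d p m D a l e) := by
        have : Module.Finite ℂ (ord d p m D a l e) := ms_finite _ _ _ _
        exact Submodule.finrank_lt_finrank_of_lt (lt_of_le_of_ne hle h2)
      omega
  by_cases hne : ord d p m D a l e = ⊥
  · rw [hne, finrank_bot]
    exact Nat.zero_le _
  · have := key hne
    omega

end orders

end Pool.Agent.Work.MP_0421d9_ag
end

section
/-!
The inequality for the dimension of a planar linear system obtained from a degeneration of the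
plane in which `2 * t` points of multiplicity `k` are separated from the others.
-/

set_option linter.unusedSectionVars false

namespace Pool.Agent.Work.MP_0421d9_ag

open MvPolynomial Module

theorem lin_single_two : lin (Pi.single 2 1) = (X 2 : R3) := by
  unfold lin
  rw [Fin.sum_univ_three]
  simp

theorem vanishTo_of_X_pow_mul {q : V3} (hq : q 2 ≠ 0) {μ : ℕ} (k : ℕ) {g : R3}
    (h : VanishTo (X 2 ^ k * g) q μ) : VanishTo g q μ := by
  induction k with
  | zero => rwa [pow_zero, one_mul] at h
  | succ k ih =>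
    apply ih
    rw [pow_succ', mul_assoc, ← lin_single_two] at h
    refine vanishTo_of_mul_ne ?_ ?_ (v := Pi.single 2 1)
    · rw [lin_single_two] at h ⊢
      exact h
    · rw [lin_single_two, eval_X]
      exact hq

section rows

variable {ι : Type} {d : ℕ} {p : ι → V3} {m : ι → ℕ}

end rows

section cm

variable {ι : Type} [Fintype ι] [DecidableEq ι] {d : ℕ} {p : ι → V3}

end cm

end Pool.Agent.Work.MP_0421d9_ag
end

section
/-!
Planar linear systems with generic base points of multiplicities at most `M` are nonspecial as soon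
as the degree is at least `3 * M ^ 2` plus the sum of `u * (u - 1) / 2` over the distinct
multiplicities `u`.
-/

set_option linter.unusedSectionVars false

namespace Pool.Agent.Work.MP_0421d9_ag

open MvPolynomial Module

section numeric

theorem two_choose (n : ℕ) : 2 * (n + 1).choose 2 = (n + 1) * n := by
  rw [Nat.choose_two_right, Nat.add_sub_cancel]
  exact Nat.mul_div_cancel' (Nat.even_mul_pred_self (n + 1)).two_dvd

end numeric

section large

variable {ι : Type} [Fintype ι] [DecidableEq ι] {d M : ℕ} {p : ι → V3} {m : ι → ℕ}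

end large

end Pool.Agent.Work.MP_0421d9_ag
end

section
/-!
Planar linear systems of large degree with generic base points: dimension and smoothness.
-/

set_option linter.unusedSectionVars false

namespace Pool.Agent.Work.MP_0421d9_ag

open MvPolynomial Module

theorem sum_update_succ {ι : Type} [Fintype ι] [DecidableEq ι] (y : ι → ℕ) (i : ι) :
    ∑ j, (Function.update y i (y i + 1) j + 1).choose 2 = ∑ j, (y j + 1).choose 2 + (y i + 1) := by
  rw [← Finset.add_sum_erase _ _ (Finset.mem_univ i),
    ← Finset.add_sum_erase _ (fun j => (y j + 1).choose 2) (Finset.mem_univ i),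
    Function.update_self]
  have h1 : ∑ j ∈ Finset.univ.erase i, (Function.update y i (y i + 1) j + 1).choose 2 =
      ∑ j ∈ Finset.univ.erase i, (y j + 1).choose 2 := by
    refine Finset.sum_congr rfl (fun j hj => ?_)
    rw [Function.update_of_ne (Finset.ne_of_mem_erase hj)]
  rw [h1]
  have h2 : (y i + 1 + 1).choose 2 = (y i + 1).choose 2 + (y i + 1) := choose_two_succ (y i)
  omega

end Pool.Agent.Work.MP_0421d9_ag
end

section
/-!
Planar linear systems of degree at least `3 * M ^ 2` with generic base points of multiplicities at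
most `M`: dimension (all degrees when there are enough points) and smoothness.
-/

set_option linter.unusedSectionVars false

namespace Pool.Agent.Work.MP_0421d9_ag

open MvPolynomial Module

/-- **Smoothness in large degree.** -/
theorem main_large_sq {r d M : ℕ} (p : Fin r → Fin 3 → ℂ) (hp : GenericPoints p) (m : Fin r → ℕ)
    (hM : ∀ i, m i ≤ M) (hd : 3 * (M + 1) ^ 2 ≤ d)
    (I : Finset (Fin r)) (hI : I.card ≤ 3)
    (hχ : ∀ i ∉ I, 2 ≤ m i → ∑ j, (dropSimple m j + 1).choose 2 + m i < (d + 2).choose 2)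
    (hne : linSys d p m ≠ ⊥) :
    (∃ F ∈ linSys d p m, Squarefree F) ∧
    finrank ℂ (linSys d p m) + ∑ i, (m i + 1).choose 2 = (d + 2).choose 2 ∧
    (∀ s : Fin (finrank ℂ (linSys d p m) - 1) → Fin 3 → ℂ, GenericPoints (Sum.elim p s) →
      ∀ F ∈ linSys d p m, F ≠ 0 → (∀ k, eval (s k) F = 0) → SmoothOnBlowup p m F) ∧
    (∃ F ∈ linSys d p m, F ≠ 0 ∧ SmoothOnBlowup p m F) := by
  have hdM : ∀ i, dropSimple m i ≤ M := fun i => (dropSimple_le m i).trans (hM i)
  have h0 := LD.main (d := d) hp (M := M + 1) (fun i => (hdM i).trans (Nat.le_succ M)) hd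
  have hcomp : ∀ i ∉ I, 2 ≤ m i → finrank ℂ (linSys d p (dropSimple m)) =
      finrank ℂ (linSys d p (Function.update (dropSimple m) i (m i + 1))) + (m i + 1) := by
    intro i hi hmi
    have hyi : dropSimple m i = m i := by
      unfold dropSimple
      rw [if_neg (by omega)]
    have h1 := LD.main (d := d) (M := M + 1)
      (m := Function.update (dropSimple m) i (m i + 1)) hp (fun j => by
        by_cases hj : j = i
        · rw [hj, Function.update_self]
          have := hM i
          omega
        · rw [Function.update_of_ne hj]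
          exact (hdM j).trans (Nat.le_succ M)) hd
    have h2 := sum_update_succ (dropSimple m) i
    rw [hyi] at h2
    have h6 := hχ i hi hmi
    rw [h0, h1, h2]
    omega
  refine complete_final p hp m I hI (fun i hi h => hcomp i hi (by omega))
    (Or.inr ⟨hne, fun i _ j _ _ => ?_, fun i hi h => hcomp i hi (by omega)⟩)
  have h4 : 2 * M ≤ 3 * (M + 1) ^ 2 := by nlinarith
  have h5 := hM i
  have h6 := hM j
  omega

end Pool.Agent.Work.MP_0421d9_ag
end

section
/-!
Places of the field of complex numbers with prescribed values at algebraically independent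
elements.
-/

namespace Pool.Agent.Work.MP_0421d9_ag

open MvPolynomial Cardinal

/-- a place of the field of complex numbers, with values in the complex numbers: `L a b` says that
`a` is finite at the place and has the value `b` -/
structure Pl where
  L : ℂ → ℂ → Prop
  one : L 1 1
  neg : ∀ {a b}, L a b → L (-a) (-b)
  add : ∀ {a b a' b'}, L a b → L a' b' → L (a + a') (b + b')
  mul : ∀ {a b a' b'}, L a b → L a' b' → L (a * a') (b * b')
  fn : ∀ {a b b'}, L a b → L a b' → b = b'
  tot : ∀ a, (∃ b, L a b) ∨ L a⁻¹ 0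

/-- a field of cardinality at most the continuum embeds into the complex numbers, over a countable
domain -/
theorem exists_embed {R k : Type} [CommRing R] [IsDomain R] [Field k] [Algebra R k]
    [FaithfulSMul R k] [Algebra R ℂ] [FaithfulSMul R ℂ] (hR : #R ≤ ℵ₀) (hk : #k ≤ 𝔠) :
    Nonempty (k →ₐ[R] ℂ) := by
  obtain ⟨s, hs⟩ := exists_isTranscendenceBasis R k
  obtain ⟨t, ht⟩ := exists_isTranscendenceBasis R ℂ
  have hC : ℵ₀ < #ℂ := by
    rw [Cardinal.mk_complex]
    exact aleph0_lt_continuum
  have h1 : #ℂ = #t :=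
    IsAlgClosed.cardinal_eq_cardinal_transcendence_basis_of_aleph0_lt' _ ht hR hC
  have h2 : #s ≤ #t := by
    rw [← h1, Cardinal.mk_complex]
    exact (Cardinal.mk_set_le s).trans hk
  obtain ⟨f⟩ := h2
  have hw : AlgebraicIndependent R (fun a : s => ((f a : t) : ℂ)) := ht.1.comp f f.injective
  let S := Algebra.adjoin R (Set.range (Subtype.val : s → k))
  let φ : S →ₐ[R] ℂ := (aeval (fun a : s => ((f a : t) : ℂ))).comp
    (hs.1.aevalEquiv.symm : S →ₐ[R] MvPolynomial s R)
  have hφ : Function.Injective φ := by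
    intro a b hab
    apply hs.1.aevalEquiv.symm.injective
    exact hw hab
  let _ : Algebra S ℂ := φ.toRingHom.toAlgebra
  have : IsScalarTower R S ℂ := IsScalarTower.of_algebraMap_eq (fun r => (φ.commutes r).symm)
  have : Algebra.IsAlgebraic S k := hs.isAlgebraic
  have : FaithfulSMul S ℂ := (faithfulSMul_iff_algebraMap_injective S ℂ).mpr hφ
  have : Module.IsTorsionFree S ℂ := inferInstance
  have : Module.IsTorsionFree S k := inferInstance
  let g : k →ₐ[S] ℂ := IsAlgClosed.lift
  exact ⟨g.restrictScalars R⟩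

/-- places with prescribed values at algebraically independent elements -/
theorem exists_place {ι : Type} [Finite ι] (x : ι → ℂ) (hx : AlgebraicIndependent ℚ x)
    (y : ι → ℂ) : ∃ P : Pl, ∀ i, P.L (x i) (y i) := by
  let f : MvPolynomial ι ℚ →+* ℂ := (aeval x : MvPolynomial ι ℚ →ₐ[ℚ] ℂ).toRingHom
  let g : MvPolynomial ι ℚ →+* ℂ := (aeval y : MvPolynomial ι ℚ →ₐ[ℚ] ℂ).toRingHom
  have hf : Function.Injective f := hx
  let A : Subring ℂ := f.range
  let e : MvPolynomial ι ℚ ≃+* A := RingEquiv.ofBijective f.rangeRestrict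
    ⟨fun a b h => hf (congrArg Subtype.val h), f.rangeRestrict_surjective⟩
  have he : ∀ p, ((e p : A) : ℂ) = f p := fun p => rfl
  have hker : (RingHom.ker g).IsPrime := RingHom.ker_isPrime g
  let P : Ideal A := (RingHom.ker g).comap (e.symm : A →+* MvPolynomial ι ℚ)
  have hP : P.IsPrime := Ideal.IsPrime.comap _
  have hPm : ∀ p, e p ∈ P ↔ g p = 0 := by
    intro p
    change e.symm (e p) ∈ RingHom.ker g ↔ _
    rw [RingEquiv.symm_apply_apply, RingHom.mem_ker]
  obtain ⟨V, hV⟩ := (LocalSubring.ofPrime A P).exists_le_valuationSubring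
  obtain ⟨hV1, hV2⟩ := hV
  have hAV : A ≤ V.toSubring := (LocalSubring.le_ofPrime A P).trans hV1
  have hmem : ∀ p, f p ∈ V := fun p => hAV ⟨p, rfl⟩
  let ψ : MvPolynomial ι ℚ →+* IsLocalRing.ResidueField V :=
    (IsLocalRing.residue V).comp (f.codRestrict V hmem)
  have hψ : ∀ p, ψ p = 0 ↔ g p = 0 := by
    intro p
    have h1 : IsUnit (algebraMap A (LocalSubring.ofPrime A P).toSubring (e p)) ↔ g p ≠ 0 := by
      rw [IsLocalization.AtPrime.isUnit_to_map_iff (LocalSubring.ofPrime A P).toSubring P,
        Ideal.mem_primeCompl_iff, hPm]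
    have h2 : IsUnit (f.codRestrict V hmem p) ↔
        IsUnit (algebraMap A (LocalSubring.ofPrime A P).toSubring (e p)) := by
      constructor
      · intro h
        exact hV2.map_nonunit _ h
      · intro h
        exact h.map (Subring.inclusion hV1)
    change IsLocalRing.residue V (f.codRestrict V hmem p) = 0 ↔ _
    rw [IsLocalRing.residue_eq_zero_iff, IsLocalRing.mem_maximalIdeal, mem_nonunits_iff, h2, h1,
      not_not]
  let R := MvPolynomial ι ℚ ⧸ RingHom.ker g
  have : IsDomain R := Ideal.Quotient.isDomain _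
  let gk : R →+* IsLocalRing.ResidueField V :=
    Ideal.Quotient.lift (RingHom.ker g) ψ (fun a ha => (hψ a).mpr ha)
  let gC : R →+* ℂ := Ideal.Quotient.lift (RingHom.ker g) g (fun a ha => ha)
  have hgk : Function.Injective gk := by
    rw [injective_iff_map_eq_zero]
    intro a ha
    obtain ⟨p, rfl⟩ := Ideal.Quotient.mk_surjective a
    rw [Ideal.Quotient.lift_mk, hψ] at ha
    exact Ideal.Quotient.eq_zero_iff_mem.mpr ha
  have hgC : Function.Injective gC := by
    rw [injective_iff_map_eq_zero]
    intro a ha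
    obtain ⟨p, rfl⟩ := Ideal.Quotient.mk_surjective a
    have ha' : g p = 0 := ha
    exact Ideal.Quotient.eq_zero_iff_mem.mpr ha'
  let _ : Algebra R (IsLocalRing.ResidueField V) := gk.toAlgebra
  let _ : Algebra R ℂ := gC.toAlgebra
  have : FaithfulSMul R (IsLocalRing.ResidueField V) :=
    (faithfulSMul_iff_algebraMap_injective _ _).mpr hgk
  have : FaithfulSMul R ℂ := (faithfulSMul_iff_algebraMap_injective _ _).mpr hgC
  have hR : #R ≤ ℵ₀ := by
    have h1 : #R ≤ #(MvPolynomial ι ℚ) := Cardinal.mk_le_of_surjective Ideal.Quotient.mk_surjective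
    refine h1.trans (MvPolynomial.cardinalMk_le_max.trans ?_)
    simp
  have hk : #(IsLocalRing.ResidueField V) ≤ 𝔠 := by
    refine (Cardinal.mk_le_of_surjective (IsLocalRing.residue_surjective (R := V))).trans ?_
    rw [← Cardinal.mk_complex]
    exact Cardinal.mk_subtype_le _
  obtain ⟨φ⟩ := exists_embed (R := R) (k := IsLocalRing.ResidueField V) hR hk
  have hφ : ∀ p, φ (ψ p) = g p := by
    intro p
    have h1 : algebraMap R (IsLocalRing.ResidueField V) (Ideal.Quotient.mk _ p) = ψ p := rfl
    have h2 : algebraMap R ℂ (Ideal.Quotient.mk _ p) = g p := rfl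
    rw [← h1, φ.commutes, h2]
  refine ⟨⟨fun a b => ∃ h : a ∈ V, φ (IsLocalRing.residue V ⟨a, h⟩) = b, ?_, ?_, ?_, ?_, ?_, ?_⟩,
    ?_⟩
  · exact ⟨V.one_mem, by
      have : (⟨1, V.one_mem⟩ : V) = 1 := rfl
      rw [this, map_one, map_one]⟩
  · rintro a b ⟨h, rfl⟩
    refine ⟨V.neg_mem _ h, ?_⟩
    have : (⟨-a, V.neg_mem _ h⟩ : V) = -⟨a, h⟩ := rfl
    rw [this, map_neg, map_neg]
  · rintro a b a' b' ⟨h, rfl⟩ ⟨h', rfl⟩
    refine ⟨V.add_mem _ _ h h', ?_⟩
    have : (⟨a + a', V.add_mem _ _ h h'⟩ : V) = ⟨a, h⟩ + ⟨a', h'⟩ := rfl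
    rw [this, map_add, map_add]
  · rintro a b a' b' ⟨h, rfl⟩ ⟨h', rfl⟩
    refine ⟨V.mul_mem _ _ h h', ?_⟩
    have : (⟨a * a', V.mul_mem _ _ h h'⟩ : V) = ⟨a, h⟩ * ⟨a', h'⟩ := rfl
    rw [this, map_mul, map_mul]
  · rintro a b b' ⟨h, rfl⟩ ⟨h', rfl⟩
    rfl
  · intro a
    by_cases ha : a ∈ V
    · exact Or.inl ⟨_, ha, rfl⟩
    · right
      have hi : a⁻¹ ∈ V := (V.mem_or_inv_mem a).resolve_left ha
      refine ⟨hi, ?_⟩
      have h1 : IsLocalRing.residue V ⟨a⁻¹, hi⟩ = 0 := by
        rw [IsLocalRing.residue_eq_zero_iff, IsLocalRing.mem_maximalIdeal, mem_nonunits_iff]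
        intro hu
        obtain ⟨⟨b, hb⟩, h⟩ := isUnit_iff_exists_inv.mp hu
        apply ha
        have h2 : a⁻¹ * b = 1 := congrArg Subtype.val h
        have h3 : a ≠ 0 := by
          rintro rfl
          exact ha V.zero_mem
        have h4 : b = a := by
          field_simp at h2
          exact h2
        rw [← h4]
        exact hb
      rw [h1, map_zero]
  · intro i
    refine ⟨?_, ?_⟩
    · have := hmem (X i)
      have h2 : f (X i) = x i := aeval_X x i
      rwa [h2] at this
    · have h2 : f (X i) = x i := aeval_X x i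
      have h3 : g (X i) = y i := aeval_X y i
      have h4 : x i ∈ V := by
        rw [← h2]
        exact hmem (X i)
      have h5 : (⟨x i, h4⟩ : V) = f.codRestrict V hmem (X i) := Subtype.ext h2.symm
      rw [← h3, ← hφ, h5]
      rfl

end Pool.Agent.Work.MP_0421d9_ag
end

section
/-!
Smoothness of the rigid members in large degree: definitions.
-/

set_option linter.unusedSectionVars false

namespace Pool.Agent.Work.MP_0421d9_ag.SM

open MvPolynomial Module

/-- polynomials in `x, y` -/
abbrev R2 := MvPolynomial (Fin 2) ℂ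

/-- polynomials in `U, V, x, y` -/
abbrev R4 := MvPolynomial (Fin 4) ℂ

/-- vectors of `ℂ²` -/
abbrev V2 := Fin 2 → ℂ

/-- vectors of `ℂ⁴` -/
abbrev V4 := Fin 4 → ℂ

/-- `F` has a singular point outside the points `p i` -/
def Sing {ι : Type} (p : ι → V3) (F : R3) : Prop :=
  ∃ q : V3, q ≠ 0 ∧ (∀ i, cr (p i) q ≠ 0) ∧ ∀ k, eval q (pderiv k F) = 0

/-- `F` has a multiple tangent (or too high multiplicity) at one of the points `p i` -/
def Tang {ι : Type} (d : ℕ) (p : ι → V3) (m : ι → ℕ) (F : R3) : Prop :=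
  ∃ (i : ι) (u : V3), cr (p i) u ≠ 0 ∧ BadDir d F (p i) (m i) u

/-- `F` is not smooth on the blow-up or not transversal to the exceptional curves -/
def Bad {ι : Type} (d : ℕ) (p : ι → V3) (m : ι → ℕ) (F : R3) : Prop := Sing p F ∨ Tang d p m F

/-- inclusion of the polynomials in `x, y` -/
noncomputable def emb : R2 →ₐ[ℂ] R3 := aeval ![X 0, X 1]

/-- restriction to the line `z = 0` -/
noncomputable def res : R3 →ₐ[ℂ] R2 := aeval ![X 0, X 1, 0]

/-- `Φ ↦ Φ (P, Q, x, y)` -/
noncomputable def onC (P Q : R2) : R4 →ₐ[ℂ] R2 := aeval ![P, Q, X 0, X 1]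

/-- `Φ ↦ Φ (P z - T, Q z - R, x, y)` -/
noncomputable def onS (P Q T R : R2) : R4 →ₐ[ℂ] R3 :=
  aeval ![emb P * X 2 - emb T, emb Q * X 2 - emb R, X 0, X 1]

/-- bihomogeneous of degree `u` in `U, V` and `b` in `x, y` -/
def BiHom (u b : ℕ) (Φ : R4) : Prop := ∀ α, coeff α Φ ≠ 0 → α 0 + α 1 = u ∧ α 2 + α 3 = b

/-- the curve `Φ = 0` on `ℙ¹ × ℙ¹` is smooth -/
def SmoothΦ (Φ : R4) : Prop :=
  ∀ v : V4, (v 0 ≠ 0 ∨ v 1 ≠ 0) → (v 2 ≠ 0 ∨ v 3 ≠ 0) → ∃ k, eval v (pderiv k Φ) ≠ 0

/-- the binary form `s` has no multiple root -/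
def NoDouble (s : R2) : Prop := ∀ y : V2, y ≠ 0 → ∃ k, eval y (pderiv k s) ≠ 0

/-- the point `(θ, y)` -/
def pt (θ y : V2) : V4 := ![θ 0, θ 1, y 0, y 1]

/-- the binary form `Φ (·, y)` has no multiple root -/
def NoDir (Φ : R4) (y : V2) : Prop :=
  ∀ θ : V2, θ ≠ 0 → eval (pt θ y) (pderiv 0 Φ) ≠ 0 ∨ eval (pt θ y) (pderiv 1 Φ) ≠ 0

/-- no common zero on `ℙ¹` -/
def NoCommon (P Q : R2) : Prop := ∀ y : V2, y ≠ 0 → eval y P ≠ 0 ∨ eval y Q ≠ 0

/-- the point with coordinate `c` on the line `z = 0` -/
def fl (c : ℂ) : V3 := ![c, 1, 0]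

/-- the binary form with the roots `g j` -/
noncomputable def Gam {a : ℕ} (g : Fin a → ℂ) : R2 := ∏ j, (X 0 - C (g j) * X 1)

/-- `i`-th derivative along the line `z = 0` at the point `fl c` -/
noncomputable def fder (c : ℂ) (i : ℕ) (H : R3) : ℂ := eval (fl c) ((pderiv 0)^[i] H)

/-- the coordinates of the points `p i` and the numbers `w k` are algebraically independent -/
def Ind {ι κ : Type} (p : ι → V3) (w : κ → ℂ) : Prop :=
  AlgebraicIndependent ℚ (Sum.elim (fun z : ι × Fin 3 => p z.1 z.2) w)

end Pool.Agent.Work.MP_0421d9_ag.SM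

namespace Pool.Agent.Work.MP_0421d9_ag

open MvPolynomial

/-- coefficientwise specialisation of polynomials -/
def Pl.LP (P : Pl) {σ : Type} (F G : MvPolynomial σ ℂ) : Prop :=
  ∀ α, P.L (coeff α F) (coeff α G)

end Pool.Agent.Work.MP_0421d9_ag
end

section
/-!
Strip data (definitions).
-/

set_option linter.unusedSectionVars false
set_option linter.unusedVariables false

namespace Pool.Agent.Work.MP_0421d9_ag.SM

open MvPolynomial Module

/-- strip data -/
structure Strip (t : ℕ) (P Q T R : R2) (x ζ : Fin (2 * t + 1) → ℂ) : Prop where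
  hP : P.IsHomogeneous t
  hQ : Q.IsHomogeneous t
  hT : T.IsHomogeneous (t + 1)
  hR : R.IsHomogeneous (t + 1)
  hx : Function.Injective x
  hdet : P * R - Q * T = ∏ j, (X 0 - C (x j) * X 1)
  hPx : ∀ j, eval ![x j, 1] P ≠ 0
  hT' : ∀ j, eval ![x j, 1] T = eval ![x j, 1] P * ζ j
  hR' : ∀ j, eval ![x j, 1] R = eval ![x j, 1] Q * ζ j

/-- the points of the strip -/
def sp {t : ℕ} (x ζ : Fin (2 * t + 1) → ℂ) (j : Fin (2 * t + 1)) : V3 := ![x j, 1, ζ j]

end Pool.Agent.Work.MP_0421d9_ag.SM
end

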