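import Pool.Agent.Work.Z0421M.C01
import Pool.Agent.Work.Z0421M.C06
import Pool.Agent.Work.Z0421M.C08
import Pool.Agent.Work.Z0421M.C09
import Pool.Agent.Work.Z0421M.C10

section
/-!
Coefficients of restrictions to the line `z = 0`.
-/

set_option linter.unusedSectionVars false
set_option linter.unusedVariables false

namespace Pool.Agent.Work.MP_0421d9_ag.SM

open MvPolynomial Module

/-- exponents in two variables -/
noncomputable def e2 (i j : ℕ) : Fin 2 →₀ ℕ := Finsupp.equivFunOnFinite.symm ![i, j]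

/-- exponents in three variables -/
noncomputable def e3 (i j k : ℕ) : Fin 3 →₀ ℕ := Finsupp.equivFunOnFinite.symm ![i, j, k]

theorem e2_eq {α : Fin 2 →₀ ℕ} {i j : ℕ} : α = e2 i j ↔ α 0 = i ∧ α 1 = j := by
  constructor
  · rintro rfl
    exact ⟨rfl, rfl⟩
  · rintro ⟨h0, h1⟩
    ext k
    fin_cases k
    · exact h0
    · exact h1

theorem e3_eq {α : Fin 3 →₀ ℕ} {i j k : ℕ} : α = e3 i j k ↔ α 0 = i ∧ α 1 = j ∧ α 2 = k := by
  constructor
  · rintro rfl
    exact ⟨rfl, rfl, rfl⟩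
  · rintro ⟨h0, h1, h2⟩
    ext l
    fin_cases l
    · exact h0
    · exact h1
    · exact h2

theorem mono2 (i j : ℕ) (a : ℂ) : (monomial (e2 i j) a : R2) = C a * (X 0 ^ i * X 1 ^ j) := by
  rw [X_pow_eq_monomial, X_pow_eq_monomial, monomial_mul, C_mul_monomial, mul_one, mul_one]
  have h : (Finsupp.single 0 i + Finsupp.single 1 j : Fin 2 →₀ ℕ) = e2 i j := by
    rw [e2_eq]
    constructor <;> simp
  rw [h]

theorem mono3 (i j k : ℕ) (a : ℂ) :
    (monomial (e3 i j k) a : R3) = C a * (X 0 ^ i * X 1 ^ j * X 2 ^ k) := by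
  rw [X_pow_eq_monomial, X_pow_eq_monomial, X_pow_eq_monomial, monomial_mul, monomial_mul,
    C_mul_monomial, mul_one, mul_one, mul_one]
  have h : (Finsupp.single 0 i + Finsupp.single 1 j + Finsupp.single 2 k : Fin 3 →₀ ℕ) =
      e3 i j k := by
    rw [e3_eq]
    refine ⟨?_, ?_, ?_⟩ <;> simp
  rw [h]

theorem coeff_res (F : R3) (i j : ℕ) : coeff (e2 i j) (res F) = coeff (e3 i j 0) F := by
  induction F using MvPolynomial.induction_on' with
  | monomial α a =>
    have hα : α = e3 (α 0) (α 1) (α 2) := e3_eq.mpr ⟨rfl, rfl, rfl⟩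
    have h1 : res (monomial α a) = C a * (X 0 ^ α 0 * X 1 ^ α 1 * 0 ^ α 2) := by
      conv_lhs => rw [hα, mono3]
      rw [map_mul, map_mul, map_mul, map_pow, map_pow, map_pow, res_X0, res_X1, res_X2, res_C]
    rw [h1, coeff_monomial]
    rcases Nat.eq_zero_or_pos (α 2) with h2 | h2
    · rw [h2, pow_zero, mul_one, ← mono2, coeff_monomial]
      congr 1
      rw [e3_eq, e2_eq]
      simp only [h2, and_true, eq_iff_iff]
      exact Iff.rfl
    · rw [zero_pow (by omega), mul_zero, mul_zero, coeff_zero, if_neg]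
      rw [e3_eq]
      omega
  | add p q hp hq => rw [map_add, coeff_add, coeff_add, hp, hq]

theorem emb_C (c : ℂ) : emb (C c) = C c := by
  unfold emb
  rw [algHom_C]
  rfl

theorem emb_X0 : emb (X 0) = X 0 := by
  unfold emb
  rw [aeval_X]
  rfl

theorem emb_X1 : emb (X 1) = X 1 := by
  unfold emb
  rw [aeval_X]
  rfl

theorem coeff_emb (f : R2) (α : Fin 3 →₀ ℕ) :
    coeff α (emb f) = if α 2 = 0 then coeff (e2 (α 0) (α 1)) f else 0 := by
  induction f using MvPolynomial.induction_on' with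
  | monomial β a =>
    have hβ : β = e2 (β 0) (β 1) := e2_eq.mpr ⟨rfl, rfl⟩
    have h1 : emb (monomial β a) = monomial (e3 (β 0) (β 1) 0) a := by
      conv_lhs => rw [hβ, mono2]
      rw [map_mul, map_mul, map_pow, map_pow, emb_X0, emb_X1, emb_C, mono3, pow_zero, mul_one]
    rw [h1, coeff_monomial, coeff_monomial]
    by_cases h2 : α 2 = 0
    · rw [if_pos h2]
      congr 1
      rw [e2_eq, eq_iff_iff]
      constructor
      · intro h
        exact ⟨congrArg (fun γ : Fin 3 →₀ ℕ => γ 0) h, congrArg (fun γ : Fin 3 →₀ ℕ => γ 1) h⟩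
      · rintro ⟨h3, h4⟩
        symm
        rw [e3_eq]
        exact ⟨h3.symm, h4.symm, h2⟩
    · rw [if_neg h2, if_neg]
      rw [eq_comm, e3_eq]
      omega
  | add p q hp hq =>
    rw [map_add, coeff_add, hp, hq, coeff_add]
    split_ifs
    · rfl
    · rw [add_zero]

theorem coeff_X2_pow_mul (u : ℕ) (G : R3) (i j k : ℕ) :
    coeff (e3 i j (k + u)) (X 2 ^ u * G) = coeff (e3 i j k) G := by
  rw [X_pow_eq_monomial, coeff_monomial_mul', if_pos, one_mul]
  · congr 1
    rw [e3_eq]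
    refine ⟨?_, ?_, ?_⟩
    · simp [e3]
    · simp [e3]
    · simp [e3]
  · rw [Finsupp.single_le_iff]
    simp [e3]

/-- the part of degree `u` in `z` -/
theorem coeff_top (u : ℕ) (G : R3) (α : Fin 3 →₀ ℕ) :
    coeff α (X 2 ^ u * emb (res G)) = if α 2 = u then coeff α (X 2 ^ u * G) else 0 := by
  have hα : α = e3 (α 0) (α 1) (α 2) := e3_eq.mpr ⟨rfl, rfl, rfl⟩
  by_cases h : u ≤ α 2
  · obtain ⟨k, hk⟩ : ∃ k, α 2 = k + u := ⟨α 2 - u, by omega⟩
    rw [hα, hk, coeff_X2_pow_mul, coeff_X2_pow_mul, coeff_emb]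
    have h0 : (e3 (α 0) (α 1) k) 0 = α 0 := rfl
    have h1 : (e3 (α 0) (α 1) k) 1 = α 1 := rfl
    have h2 : (e3 (α 0) (α 1) k) 2 = k := rfl
    have h3 : (e3 (α 0) (α 1) (k + u)) 2 = k + u := rfl
    rw [h0, h1, h2, h3, coeff_res]
    by_cases hk0 : k = 0
    · subst hk0
      rw [if_pos rfl, if_pos (by omega)]
    · rw [if_neg hk0, if_neg (by omega)]
  · rw [if_neg (by omega)]
    by_contra hne
    exact h (le_of_X2_pow_mul hne)

end Pool.Agent.Work.MP_0421d9_ag.SM
end

section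
/-!
Algebraically independent families: exchange, extension, derivations.
-/

set_option linter.unusedSectionVars false

namespace Pool.Agent.Work.MP_0421d9_ag.SM

open MvPolynomial Module

/-- exchange: a finite family of the same length which generates an algebraically independent
family (up to algebraic elements) is algebraically independent -/
theorem algInd_exchange {σ : Type} [Finite σ] {y y' : σ → ℂ} (h : AlgebraicIndependent ℚ y)
    (hy : ∀ s, IsAlgebraic (Algebra.adjoin ℚ (Set.range y')) (y s)) :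
    AlgebraicIndependent ℚ y' := by
  classical
  let M : Matroid ℂ := AlgebraicIndependent.matroid ℚ ℂ
  have h1 : M.Indep (Set.range y) := by
    rw [AlgebraicIndependent.matroid_indep_iff]
    exact h.to_subtype_range
  have h2 : Set.range y ⊆ M.closure (Set.range y') := by
    rw [AlgebraicIndependent.matroid_closure_eq]
    rintro _ ⟨s, rfl⟩
    exact hy s
  have h3 : (Set.range y).encard ≤ M.eRk (Set.range y') := by
    rw [← h1.eRk_eq_encard, ← M.eRk_closure_eq (Set.range y')]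
    exact M.eRk_mono h2
  have h4 : (Set.range y).encard = ENat.card σ := by
    rw [← Set.image_univ, h.injective.encard_image, Set.encard_univ]
  have h5 : (Set.range y').encard ≤ ENat.card σ := by
    rw [← Set.image_univ, ← Set.encard_univ]
    exact Set.encard_image_le _ _
  have h6 : M.eRk (Set.range y') ≤ (Set.range y').encard := M.eRk_le_encard _
  have h7 : (Set.range y').encard = ENat.card σ := le_antisymm h5 (by rw [← h4]; exact h3.trans h6)
  have h8 : M.Indep (Set.range y') := by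
    rw [Matroid.indep_iff_eRk_eq_encard_of_finite (Set.finite_range _)]
    exact le_antisymm h6 (by rw [h7, ← h4]; exact h3)
  have hinj : Function.Injective y' := by
    have h9 : (y' '' Set.univ).encard = (Set.univ : Set σ).encard := by
      rw [Set.image_univ, h7, Set.encard_univ]
    have := (Set.finite_univ (α := σ)).injOn_of_encard_image_eq h9
    exact Set.injOn_univ.mp this
  rw [AlgebraicIndependent.matroid_indep_iff] at h8
  exact AlgebraicIndependent.of_subtype_range hinj h8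

theorem algInd_div {ι κ : Type} [Finite ι] [Finite κ] (x : ι → ℂ) (z : κ → ℂ) (τ : ℂ)
    (h : AlgebraicIndependent ℚ (Sum.elim (Sum.elim x z) (fun _ : Unit => τ))) :
    AlgebraicIndependent ℚ (Sum.elim (Sum.elim x (fun j => z j / τ)) (fun _ : Unit => τ)) := by
  have hτ : τ ≠ 0 := h.ne_zero (Sum.inr ())
  apply algInd_exchange h
  set S := Algebra.adjoin ℚ
    (Set.range (Sum.elim (Sum.elim x (fun j => z j / τ)) (fun _ : Unit => τ))) with hS
  have hmem : ∀ a ∈ S, IsAlgebraic S a := fun a ha => isAlgebraic_algebraMap (⟨a, ha⟩ : S)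
  have hgen : ∀ s, Sum.elim (Sum.elim x (fun j => z j / τ)) (fun _ : Unit => τ) s ∈ S :=
    fun s => Algebra.subset_adjoin ⟨s, rfl⟩
  have hτS : τ ∈ S := hgen (Sum.inr ())
  rintro ((i | j) | u)
  · exact hmem _ (hgen (Sum.inl (Sum.inl i)))
  · have h1 : z j / τ ∈ S := hgen (Sum.inl (Sum.inr j))
    have h2 : z j = z j / τ * τ := by field_simp
    apply hmem
    change z j ∈ S
    rw [h2]
    exact mul_mem h1 hτS
  · exact hmem _ hτS

/-- extension of finite algebraically independent families of complex numbers -/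
theorem algInd_extend {α β : Type} [Finite α] [Finite β] {y : α → ℂ}
    (hy : AlgebraicIndependent ℚ y) : ∃ w : β → ℂ, AlgebraicIndependent ℚ (Sum.elim y w) := by
  classical
  obtain ⟨t, ht, ht'⟩ := exists_isTranscendenceBasis_superset hy.coe_range
  have hcard : Cardinal.mk ℂ = Cardinal.mk t :=
    IsAlgClosed.cardinal_eq_cardinal_transcendence_basis_of_aleph0_lt' _ ht'
      Cardinal.mk_le_aleph0 (by rw [Cardinal.mk_complex]; exact Cardinal.aleph0_lt_continuum)
  have hinf : t.Infinite := by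
    rw [← Set.infinite_coe_iff, Cardinal.infinite_iff, ← hcard, Cardinal.mk_complex]
    exact Cardinal.aleph0_le_continuum
  have hinf' : (t \ Set.range y).Infinite := hinf.sdiff (Set.finite_range _)
  obtain ⟨f, hf, hfinj⟩ : ∃ f : β → ℂ, (∀ z, f z ∈ t ∧ f z ∉ Set.range y) ∧
      Function.Injective f := by
    obtain ⟨n, ⟨e⟩⟩ := Finite.exists_equiv_fin β
    refine ⟨fun z => (hinf'.natEmbedding _ (e z)).1, fun z => (hinf'.natEmbedding _ (e z)).2, ?_⟩
    intro z z' h
    have h1 := Subtype.ext h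
    have h2 := (hinf'.natEmbedding _).injective h1
    exact e.injective (Fin.ext h2)
  refine ⟨f, ?_⟩
  have hmem : ∀ z : α ⊕ β, Sum.elim y f z ∈ t := by
    rintro (i | k)
    · exact ht ⟨i, rfl⟩
    · exact (hf k).1
  have hinj : ∀ z z' : α ⊕ β, Sum.elim y f z = Sum.elim y f z' → z = z' := by
    rintro (i | k) (i' | k') h
    · exact congrArg Sum.inl (hy.injective h)
    · exact absurd ⟨i, h⟩ (hf k').2
    · exact absurd ⟨i', h.symm⟩ (hf k).2
    · exact congrArg Sum.inr (hfinj h)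
  exact ht'.1.comp (fun z : α ⊕ β => (⟨Sum.elim y f z, hmem z⟩ : t))
    (fun z z' h => hinj z z' (congrArg Subtype.val h))

/-- extension of independent families -/
theorem Ind.extend {ι κ κ' : Type} [Finite ι] [Finite κ] [Finite κ'] {p : ι → V3} {w : κ → ℂ}
    (h : Ind p w) : ∃ w' : κ' → ℂ, Ind p (Sum.elim w w') := by
  obtain ⟨w', hw'⟩ := algInd_extend (β := κ') h
  refine ⟨w', ?_⟩
  have h1 := hw'.comp (Equiv.sumAssoc (ι × Fin 3) κ κ').symm (Equiv.injective _)
  have h2 : Sum.elim (Sum.elim (fun z : ι × Fin 3 => p z.1 z.2) w) w' ∘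
      (Equiv.sumAssoc (ι × Fin 3) κ κ').symm =
      Sum.elim (fun z : ι × Fin 3 => p z.1 z.2) (Sum.elim w w') := by
    funext s
    rcases s with z | k | k' <;> rfl
  rw [h2] at h1
  exact h1

/-- derivations -/
theorem Ind.derivation {ι κ : Type} {p : ι → V3} {w : κ → ℂ} (h : Ind p w) (c : κ → ℂ) :
    ∃ D : Derivation ℚ ℂ ℂ, (∀ i k, D (p i k) = 0) ∧ ∀ k, D (w k) = c k := by
  obtain ⟨D, hD⟩ := exists_derivation _ h (Sum.elim (fun _ => 0) c)
  exact ⟨D, fun i k => hD (Sum.inl (i, k)), fun k => hD (Sum.inr k)⟩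

end Pool.Agent.Work.MP_0421d9_ag.SM
end

section
/-!
Collisions of generic points: definitions.
-/

set_option linter.unusedSectionVars false

namespace Pool.Agent.Work.MP_0421d9_ag.ZC

open MvPolynomial Module SM

/-- `F (x + P₀ z, y + P₁ z, P₂ z)`: the point `P` becomes `(0, 0, 1)` -/
noncomputable def tr (P : V3) : R3 →ₐ[ℂ] R3 :=
  aeval ![X 0 + C (P 0) * X 2, X 1 + C (P 1) * X 2, C (P 2) * X 2]

/-- the same for vectors: `(v₀ + P₀ v₂, v₁ + P₁ v₂, P₂ v₂)` -/
noncomputable def tv (P v : V3) : V3 := ![v 0 + P 0 * v 2, v 1 + P 1 * v 2, P 2 * v 2]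

/-- the coefficient of `z ^ j` -/
noncomputable def cz (j : ℕ) : R3 →ₗ[ℂ] R2 where
  toFun F := res (F.divMonomial (Finsupp.single 2 j))
  map_add' F G := by rw [add_divMonomial, map_add]
  map_smul' a F := by
    have h : (a • F).divMonomial (Finsupp.single 2 j) = a • F.divMonomial (Finsupp.single 2 j) := by
      ext α
      rw [coeff_divMonomial, coeff_smul, coeff_smul, coeff_divMonomial]
    rw [h, map_smul, RingHom.id_apply]

/-- the part of degree `k` at the point `P` of a form `F` of degree `d` -/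
noncomputable def ld (d k : ℕ) (P : V3) : R3 →ₗ[ℂ] R2 := (cz (d - k)).comp (tr P).toLinearMap

/-- the `i`-th derivative of the part of degree `k` at `P` at the direction `(c, 1)` -/
noncomputable def fd (d k : ℕ) (P : V3) (c : ℂ) (i : ℕ) : R3 →ₗ[ℂ] ℂ where
  toFun F := eval ![c, 1] ((pderiv 0)^[i] (ld d k P F))
  map_add' F G := by rw [map_add, iterate_map_add, map_add]
  map_smul' a F := by
    have h : ∀ (i : ℕ) (H : R2), (pderiv 0)^[i] (a • H) = a • (pderiv 0)^[i] H := by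
      intro i
      induction i with
      | zero => intro H; rfl
      | succ i ih =>
        intro H
        rw [Function.iterate_succ_apply, Derivation.map_smul, ih, Function.iterate_succ_apply]
    rw [map_smul, h, smul_eval, RingHom.id_apply, smul_eq_mul]

/-- all systems of degree `d` with multiplicities at most `M` in generic points are nonspecial -/
def NSp (M d : ℕ) : Prop := ∀ (r : ℕ) (p : Fin r → V3), GenericPoints p → ∀ m : Fin r → ℕ,
  (∀ i, m i ≤ M) → finrank ℂ (linSys d p m) = (d + 2).choose 2 - ∑ i, (m i + 1).choose 2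

theorem coeff_cz (j : ℕ) (F : R3) (a b : ℕ) : coeff (e2 a b) (cz j F) = coeff (e3 a b j) F := by
  change coeff (e2 a b) (res (F.divMonomial (Finsupp.single 2 j))) = _
  rw [coeff_res, coeff_divMonomial]
  congr 1
  rw [e3_eq]
  refine ⟨?_, ?_, ?_⟩ <;> simp [e3]

/-- `NSp` for arbitrary finite index types -/
theorem NSp.finrank {M d : ℕ} (h : NSp M d) {ι : Type} [Fintype ι] {p : ι → V3}
    (hp : GenericPoints p) {m : ι → ℕ} (hm : ∀ i, m i ≤ M) :
    finrank ℂ (linSys d p m) = (d + 2).choose 2 - ∑ i, (m i + 1).choose 2 := by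
  classical
  set e := Fintype.equivFin ι with he
  have h1 : linSys d p m = linSys d (fun k => p (e.symm k)) (fun k => m (e.symm k)) := by
    ext F
    constructor
    · rintro ⟨h1, h2⟩
      exact ⟨h1, fun k => h2 _⟩
    · rintro ⟨h1, h2⟩
      refine ⟨h1, fun i => ?_⟩
      have := h2 (e i)
      simpa using this
  have h2 : GenericPoints (fun k => p (e.symm k)) := by
    unfold GenericPoints at hp ⊢
    exact hp.comp (fun z : Fin (Fintype.card ι) × Fin 3 => (e.symm z.1, z.2))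
      (fun z z' hz => by
        rw [Prod.mk.injEq] at hz
        exact Prod.ext (e.symm.injective hz.1) hz.2)
  rw [h1, h _ _ h2 _ (fun k => hm _)]
  congr 1
  exact Equiv.sum_comp e.symm (fun i => (m i + 1).choose 2)

end Pool.Agent.Work.MP_0421d9_ag.ZC
end

section
/-!
Generic position of the flags: the points `p i` and two points on the line `z = 0` are generic up
to a linear change of the coordinates.
-/

set_option linter.unusedSectionVars false

namespace Pool.Agent.Work.MP_0421d9_ag.SM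

open MvPolynomial Module

/-- the image of an independent family under a dominant map is independent -/
theorem algInd_of_dominant {ι κ : Type} [Finite κ] (x : ι → ℂ) (hx : AlgebraicIndependent ℚ x)
    (ψ : κ → MvPolynomial ι ℚ) (h : MvPolynomial κ ℂ) (hh : h ≠ 0)
    (hs : ∀ a : κ → ℂ, eval a h ≠ 0 → ∃ b : ι → ℂ, ∀ k, aeval b (ψ k) = a k) :
    AlgebraicIndependent ℚ (fun k => aeval x (ψ k)) := by
  rw [algebraicIndependent_iff]
  intro Q hQ
  have h1 : aeval x (bind₁ ψ Q) = 0 := by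
    rw [aeval_bind₁]
    exact hQ
  have h2 : bind₁ ψ Q = 0 := (algebraicIndependent_iff.mp hx) _ h1
  have h3 : ∀ a : κ → ℂ, eval a h ≠ 0 → aeval a Q = 0 := by
    intro a ha
    obtain ⟨b, hb⟩ := hs a ha
    have h4 : aeval b (bind₁ ψ Q) = 0 := by rw [h2, map_zero]
    rw [aeval_bind₁] at h4
    rw [show a = fun k => aeval b (ψ k) from (funext hb).symm]
    exact h4
  have h5 : map (algebraMap ℚ ℂ) Q * h = 0 := by
    apply MvPolynomial.funext
    intro a
    rw [map_mul, map_zero, eval_map, ← aeval_def]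
    by_cases ha : eval a h = 0
    · rw [ha, mul_zero]
    · rw [h3 a ha, zero_mul]
  have h6 : map (algebraMap ℚ ℂ) Q = 0 := (mul_eq_zero.mp h5).resolve_right hh
  exact (map_eq_zero_iff _ (map_injective _ (algebraMap ℚ ℂ).injective)).mp h6

/-- the points `p i` and two points on the line `z = 0` are generic up to a linear change -/
theorem flags_position {ι : Type} [Finite ι] {p : ι → V3} {c : Fin 2 → ℂ} (hx : Ind p c) :
    ∃ A B : Matrix (Fin 3) (Fin 3) ℂ, A * B = 1 ∧ B * A = 1 ∧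
      AlgebraicIndependent ℚ (fun z : (ι ⊕ Fin 2) × Fin 3 =>
        (A.mulVec (Sum.elim p (fun j => fl (c j)) z.1)) z.2) := by
  classical
  obtain ⟨w, hw⟩ := hx.extend (κ' := Fin 3 × Fin 3)
  set A : Matrix (Fin 3) (Fin 3) ℂ := fun i j => w (i, j) with hA
  have hdet : A.det ≠ 0 := by
    have h1 : AlgebraicIndependent ℚ w := AlgebraicIndependent.comp hw
      (fun z : Fin 3 × Fin 3 => Sum.inr (Sum.inr z))
      (fun z z' h => Sum.inr_injective (Sum.inr_injective h))
    intro h2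
    have h3 : aeval w (Matrix.det (Matrix.mvPolynomialX (Fin 3) (Fin 3) ℚ)) = 0 := by
      rw [← h2, AlgHom.map_det]
      congr 1
      ext i j
      rw [AlgHom.mapMatrix_apply, Matrix.map_apply, Matrix.mvPolynomialX_apply, aeval_X]
    have h4 := (algebraicIndependent_iff.mp h1) _ h3
    exact Matrix.det_mvPolynomialX_ne_zero (Fin 3) ℚ h4
  have hunit : IsUnit A.det := isUnit_iff_ne_zero.mpr hdet
  refine ⟨A, A⁻¹, Matrix.mul_nonsing_inv A hunit, Matrix.nonsing_inv_mul A hunit, ?_⟩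
  let ψ : (ι ⊕ Fin 2) × Fin 3 → MvPolynomial ((ι × Fin 3) ⊕ (Fin 2 ⊕ (Fin 3 × Fin 3))) ℚ :=
    fun z => Sum.elim
      (fun i => ∑ l : Fin 3, X (Sum.inr (Sum.inr (z.2, l))) * X (Sum.inl (i, l)))
      (fun j => X (Sum.inr (Sum.inr (z.2, 0))) * X (Sum.inr (Sum.inl j)) +
        X (Sum.inr (Sum.inr (z.2, 1)))) z.1
  let h : MvPolynomial ((ι ⊕ Fin 2) × Fin 3) ℂ :=
    X (Sum.inr 0, 0) * X (Sum.inr 1, 1) - X (Sum.inr 0, 1) * X (Sum.inr 1, 0)
  have hh : h ≠ 0 := by
    intro h0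
    have h1 : eval (fun z : (ι ⊕ Fin 2) × Fin 3 =>
        if z = (Sum.inr 0, 0) ∨ z = (Sum.inr 1, 1) then (1 : ℂ) else 0) h = 0 := by
      rw [h0, map_zero]
    simp [h] at h1
  have hs : ∀ a : (ι ⊕ Fin 2) × Fin 3 → ℂ, eval a h ≠ 0 →
      ∃ b : (ι × Fin 3) ⊕ (Fin 2 ⊕ (Fin 3 × Fin 3)) → ℂ, ∀ k, aeval b (ψ k) = a k := by
    intro a ha
    have ha' : a (Sum.inr 0, 0) * a (Sum.inr 1, 1) - a (Sum.inr 0, 1) * a (Sum.inr 1, 0) ≠ 0 := by
      simpa [h] using ha
    let A' : Matrix (Fin 3) (Fin 3) ℂ :=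
      !![a (Sum.inr 1, 0) - a (Sum.inr 0, 0), a (Sum.inr 0, 0), 0;
         a (Sum.inr 1, 1) - a (Sum.inr 0, 1), a (Sum.inr 0, 1), 0;
         a (Sum.inr 1, 2) - a (Sum.inr 0, 2), a (Sum.inr 0, 2), 1]
    have hdet' : A'.det ≠ 0 := by
      have h1 : A'.det = -(a (Sum.inr 0, 0) * a (Sum.inr 1, 1) -
          a (Sum.inr 0, 1) * a (Sum.inr 1, 0)) := by
        simp only [A', Matrix.det_fin_three, Matrix.of_apply, Matrix.cons_val', Matrix.cons_val_zero,
          Matrix.cons_val_one, Matrix.cons_val]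
        ring
      rw [h1]
      exact neg_ne_zero.mpr ha'
    have hunit' : IsUnit A'.det := isUnit_iff_ne_zero.mpr hdet'
    let b : (ι × Fin 3) ⊕ (Fin 2 ⊕ (Fin 3 × Fin 3)) → ℂ :=
      Sum.elim (fun z => (A'⁻¹.mulVec (fun k => a (Sum.inl z.1, k))) z.2)
        (Sum.elim ![0, 1] (fun z => A' z.1 z.2))
    refine ⟨b, ?_⟩
    rintro ⟨i | j, k⟩
    · have h1 : aeval b (ψ (Sum.inl i, k)) =
          (A'.mulVec (A'⁻¹.mulVec (fun k => a (Sum.inl i, k)))) k := by
        simp only [ψ, Sum.elim_inl, map_sum, map_mul, aeval_X, b, Sum.elim_inr]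
        rfl
      rw [h1, Matrix.mulVec_mulVec, Matrix.mul_nonsing_inv A' hunit', Matrix.one_mulVec]
    · fin_cases j <;> fin_cases k <;> simp [ψ, b, A']
  have hfin := algInd_of_dominant _ hw ψ h hh hs
  have hfun : (fun z : (ι ⊕ Fin 2) × Fin 3 =>
        (A.mulVec (Sum.elim p (fun j => fl (c j)) z.1)) z.2) =
      (fun k => aeval (Sum.elim (fun z : ι × Fin 3 => p z.1 z.2) (Sum.elim c w)) (ψ k)) := by
    funext z
    obtain ⟨i | j, k⟩ := z
    · simp only [ψ, Sum.elim_inl, map_sum, map_mul, aeval_X, Sum.elim_inr]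
      rfl
    · simp only [ψ, Sum.elim_inl, map_add, map_mul, aeval_X, Sum.elim_inr]
      simp only [Matrix.mulVec, dotProduct, Fin.sum_univ_three, fl, hA, Matrix.cons_val_zero,
        Matrix.cons_val_one, Matrix.cons_val]
      ring
  rw [hfun]
  exact hfin

/-- moving the points by a linear map -/
theorem finrank_linSys_mulVec {κ : Type} (n : ℕ) (q : κ → V3) (y : κ → ℕ)
    {M N : Matrix (Fin 3) (Fin 3) ℂ} (hMN : M * N = 1) :
    finrank ℂ (linSys n (fun i => M.mulVec (q i)) y) ≤ finrank ℂ (linSys n q y) := by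
  have h1 : ∀ G ∈ linSys n (fun i => M.mulVec (q i)) y, LD.subM M G ∈ linSys n q y := by
    intro G hG
    exact ⟨LD.subM_isHomogeneous M hG.1, fun i => LD.vanishTo_subM M (hG.2 i)⟩
  refine LinearMap.finrank_le_finrank_of_injective (f :=
    ((LD.subM M).toLinearMap).restrict h1) ?_
  intro G G' h
  have h2 : LD.subM M G.1 = LD.subM M G'.1 := congrArg Subtype.val h
  have h3 := congrArg (LD.subM N) h2
  rw [LD.subM_subM, LD.subM_subM, hMN, LD.subM_one, LD.subM_one] at h3
  exact Subtype.ext h3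

/-- relabelling the points -/
theorem linSys_equiv {κ κ' : Type} (n : ℕ) (q : κ → V3) (y : κ → ℕ) (e : κ ≃ κ') :
    linSys n (fun i => q (e.symm i)) (fun i => y (e.symm i)) = linSys n q y := by
  ext F
  constructor
  · intro hF
    refine ⟨hF.1, fun i => ?_⟩
    have h1 : VanishTo F (q (e.symm (e i))) (y (e.symm (e i))) := hF.2 (e i)
    rwa [e.symm_apply_apply] at h1
  · intro hF
    exact ⟨hF.1, fun i => hF.2 (e.symm i)⟩

/-- nonspeciality for the points `p i` and two points on the line `z = 0` -/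
theorem finrank_flags {ι : Type} [Fintype ι] {p : ι → V3} {c : Fin 2 → ℂ} (hx : Ind p c)
    {n M : ℕ} {y : ι ⊕ Fin 2 → ℕ} (hy : ∀ i, y i ≤ M) (hn : 3 * M ^ 2 ≤ n) :
    finrank ℂ (linSys n (Sum.elim p (fun j => fl (c j))) y) =
      (n + 2).choose 2 - ∑ i, (y i + 1).choose 2 := by
  obtain ⟨A, B, hAB, hBA, hind⟩ := flags_position hx
  set q : ι ⊕ Fin 2 → V3 := Sum.elim p (fun j => fl (c j)) with hq
  have h1 := finrank_linSys_mulVec n q y hAB
  have h2 := finrank_linSys_mulVec n (fun i => A.mulVec (q i)) y hBA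
  have h3 : (fun i => B.mulVec (A.mulVec (q i))) = q := by
    funext i
    rw [Matrix.mulVec_mulVec, hBA, Matrix.one_mulVec]
  rw [h3] at h2
  have h4 : finrank ℂ (linSys n q y) = finrank ℂ (linSys n (fun i => A.mulVec (q i)) y) :=
    le_antisymm h2 h1
  rw [h4]
  set e : ι ⊕ Fin 2 ≃ Fin (Fintype.card (ι ⊕ Fin 2)) := Fintype.equivFin _ with he
  rw [← linSys_equiv n (fun i => A.mulVec (q i)) y e]
  have h5 : GenericPoints (fun i => A.mulVec (q (e.symm i))) := by
    have h6 := AlgebraicIndependent.comp hind (fun z : Fin (Fintype.card (ι ⊕ Fin 2)) × Fin 3 =>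
      (e.symm z.1, z.2)) (fun z z' h => by
        have h7 := congrArg Prod.fst h
        have h8 := congrArg Prod.snd h
        exact Prod.ext (e.symm.injective h7) h8)
    exact h6
  rw [LD.main h5 (m := fun i => y (e.symm i)) (M := M) (fun i => hy _) hn]
  congr 1
  exact e.symm.sum_comp (fun i => (y i + 1).choose 2)

end Pool.Agent.Work.MP_0421d9_ag.SM
end

section
/-!
Base point freeness and separation properties of large generic systems.
-/

set_option linter.unusedSectionVars false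

namespace Pool.Agent.Work.MP_0421d9_ag.SM

open MvPolynomial Module

/-- the parametrisation of the inverse system of a nonspecial system is injective -/
theorem Psi_eq_zero {ι : Type} [Fintype ι] [DecidableEq ι] {d : ℕ} {p : ι → V3} {m : ι → ℕ}
    (hm : ∀ i, m i ≤ d + 1)
    (h : finrank ℂ (linSys d p m) + ∑ i, (m i + 1).choose 2 ≤ (d + 2).choose 2) {G : ι → R3}
    (hG : ∀ i, G i ∈ Hm (m i)) (h0 : ∑ i, lin (p i) ^ (d + 1 - m i) * G i = 0) (i : ι) :
    G i = 0 := by
  let e : (HH m) ≃ₗ[ℂ] (∀ i, Hm (m i)) :=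
    { toFun := fun G i => ⟨G.1 i, mem_HH.mp G.2 i⟩
      invFun := fun G => ⟨fun i => (G i).1, mem_HH.mpr fun i => (G i).2⟩
      left_inv := fun _ => rfl
      right_inv := fun _ => rfl
      map_add' := fun _ _ => rfl
      map_smul' := fun _ _ => rfl }
  have hf : Module.Finite ℂ (HH m) := Module.Finite.equiv e.symm
  have h1 := LinearMap.finrank_range_add_finrank_ker ((Psi d p m).domRestrict (HH m))
  have h2 : LinearMap.range ((Psi d p m).domRestrict (HH m)) = J d p m := by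
    rw [LinearMap.range_domRestrict]
    rfl
  rw [h2, finrank_HH] at h1
  have h3 := finrank_linSys_add (p := p) hm
  have h4 : finrank ℂ (LinearMap.ker ((Psi d p m).domRestrict (HH m))) = 0 := by omega
  have h5 := Submodule.finrank_eq_zero.mp h4
  have h6 : (⟨G, mem_HH.mpr hG⟩ : HH m) ∈ LinearMap.ker ((Psi d p m).domRestrict (HH m)) := by
    rw [LinearMap.mem_ker, LinearMap.domRestrict_apply, Psi_apply]
    exact h0
  rw [h5, Submodule.mem_bot] at h6
  exact congrFun (congrArg Subtype.val h6) i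

/-- the part at the point `p j` of an element of the inverse system -/
theorem dvd_of_mem_J {ι : Type} [Fintype ι] [DecidableEq ι] {d : ℕ} {p : ι → V3} {m : ι → ℕ}
    (j : ι) (hm : ∀ i, m i ≤ d)
    (h : finrank ℂ (linSys d p (Function.update m j (m j + 1))) +
      ∑ i, (Function.update m j (m j + 1) i + 1).choose 2 ≤ (d + 2).choose 2)
    {Q : R3} (hQ : Q.IsHomogeneous (m j)) (hJ : lin (p j) ^ (d - m j) * Q ∈ J d p m) :
    lin (p j) ∣ Q := by
  obtain ⟨G, hG, hsum⟩ := mem_J.mp hJ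
  have hm' : ∀ i, Function.update m j (m j + 1) i ≤ d + 1 := by
    intro i
    by_cases hi : i = j
    · rw [hi, Function.update_self]
      have := hm j
      omega
    · rw [Function.update_of_ne hi]
      have := hm i
      omega
  have hGm : ∀ i, Function.update (fun i => - G i) j (Q - lin (p j) * G j) i ∈
      Hm (Function.update m j (m j + 1) i) := by
    intro i
    by_cases hi : i = j
    · rw [hi, Function.update_self, Function.update_self]
      refine Submodule.sub_mem _ (mem_Hm_succ.mpr hQ) ?_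
      have := mul_mem_Hm_succ (lin_isHomogeneous (p j)) (hG j)
      exact this
    · rw [Function.update_of_ne hi, Function.update_of_ne hi]
      exact Submodule.neg_mem _ (hG i)
  have h0 : ∑ i, lin (p i) ^ (d + 1 - Function.update m j (m j + 1) i) *
      Function.update (fun i => - G i) j (Q - lin (p j) * G j) i = 0 := by
    rw [← Finset.add_sum_erase _ _ (Finset.mem_univ j), Function.update_self,
      Function.update_self]
    rw [← Finset.add_sum_erase _ _ (Finset.mem_univ j)] at hsum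
    have h1 : ∑ x ∈ Finset.univ.erase j, lin (p x) ^ (d + 1 - Function.update m j (m j + 1) x) *
        Function.update (fun i => - G i) j (Q - lin (p j) * G j) x =
        - ∑ x ∈ Finset.univ.erase j, lin (p x) ^ (d + 1 - m x) * G x := by
      rw [← Finset.sum_neg_distrib]
      refine Finset.sum_congr rfl (fun i hi => ?_)
      have hi' := Finset.ne_of_mem_erase hi
      rw [Function.update_of_ne hi', Function.update_of_ne hi', mul_neg]
    rw [h1, eq_sub_of_add_eq' hsum]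
    have h2 : d + 1 - m j = (d - m j) + 1 := by
      have := hm j
      omega
    have h3 : d + 1 - (m j + 1) = d - m j := by omega
    rw [h2, h3, pow_succ]
    ring
  have h4 := Psi_eq_zero hm' h hGm h0 j
  rw [Function.update_self] at h4
  exact ⟨G j, sub_eq_zero.mp h4⟩

theorem p2_pow_pred_mul (A : R3) {n : ℕ} (hn : 1 ≤ n) : A ^ n = A ^ (n - 1) * A := by
  rw [← pow_succ, Nat.sub_add_cancel hn]

section move

variable {ι : Type} [Fintype ι] [DecidableEq ι] {n : ℕ} {p : ι → V3} {y : ι → ℕ} {x : V3}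
  {E : ι → Fin 3 → Derivation ℚ ℂ ℂ}

theorem move_mem (hE : IsDual p E) {G : ι → R3} (hG : ∀ i, G i ∈ Hm (y i))
    (h : ∑ i, lin (p i) ^ (n + 1 - y i) * G i = lin x ^ n) (i : ι) (w : V3) :
    C (n : ℂ) * (lin x ^ (n - 1) * lin (fun k => mv E i w (x k))) -
      lin (p i) ^ (n - y i) * (C ((n + 1 - y i : ℕ) : ℂ) * (lin w * G i)) ∈ J n p y := by
  have h1 := congrArg (cD (mv E i w)) h
  rw [map_sum, cD_pow, cD_lin] at h1
  rw [← h1, mem_J]
  refine ⟨fun j => cD (mv E i w) (G j), fun j => cD_mem_Hm _ (hG j), ?_⟩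
  rw [eq_sub_iff_add_eq]
  have h2 : ∀ j, cD (mv E i w) (lin (p j) ^ (n + 1 - y j) * G j) =
      lin (p j) ^ (n + 1 - y j) * cD (mv E i w) (G j) +
      (if j = i then lin (p i) ^ (n - y i) * (C ((n + 1 - y i : ℕ) : ℂ) * (lin w * G i))
        else 0) := by
    intro j
    rw [cD_mul]
    split_ifs with hj
    · rw [hj, cD_pow, cD_lin_self hE, (by omega : n + 1 - y i - 1 = n - y i)]
      ring
    · rw [cD_lin_pow_ne hE hj, zero_mul, zero_add, add_zero]
  rw [Finset.sum_congr rfl (fun j _ => h2 j), Finset.sum_add_distrib,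
    Finset.sum_ite_eq' Finset.univ i, if_pos (Finset.mem_univ i)]

/-- the derivations moving one point move `x` in all directions -/
theorem move_surj (hE : IsDual p E) (hy : ∀ i, y i ≤ n) {G : ι → R3}
    (hG : ∀ i, G i ∈ Hm (y i)) (hx : x ≠ 0)
    (h : ∑ i, lin (p i) ^ (n + 1 - y i) * G i = lin x ^ n) (i : ι) (hGi : ¬ lin (p i) ∣ G i)
    (hdim : finrank ℂ (linSys n p (Function.update y i (y i + 1))) +
      ∑ k, (Function.update y i (y i + 1) k + 1).choose 2 ≤ (n + 2).choose 2) (v : V3) :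
    ∃ (w : V3) (c : ℂ), ∀ k, v k = mv E i w (x k) + c * x k := by
  have hpi := gp1 hE i
  have hyi : 1 ≤ y i := by
    by_contra hcon
    have h0 : y i = 0 := by omega
    have := hG i
    rw [h0, mem_Hm_zero] at this
    rw [this] at hGi
    exact hGi (dvd_zero _)
  have hGh : (G i).IsHomogeneous (y i - 1) := by
    have := hG i
    rw [(by omega : y i = (y i - 1) + 1), mem_Hm_succ] at this
    exact this
  have key : ∀ (w : V3) (c : ℂ), (∀ k, mv E i w (x k) = c * x k) → cr (p i) w = 0 := by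
    intro w c hw
    have h1 := move_mem hE hG h i w
    have h2 : (fun k => mv E i w (x k)) = c • x := funext hw
    rw [h2, lin_smul] at h1
    by_contra hcr
    have h3 : C (n : ℂ) * (lin x ^ (n - 1) * (C c * lin x)) ∈ J n p y := by
      have hn : 1 ≤ n := hyi.trans (hy i)
      have h4 : C (n : ℂ) * (lin x ^ (n - 1) * (C c * lin x)) = ((n : ℂ) * c) • lin x ^ n := by
        rw [smul_eq_C_mul, C_mul, p2_pow_pred_mul (lin x) hn]
        ring
      rw [h4]
      exact Submodule.smul_mem _ _ (mem_J.mpr ⟨G, hG, h⟩)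
    have h4 := Submodule.sub_mem _ h3 h1
    rw [sub_sub_cancel] at h4
    have h5 := dvd_of_mem_J i hy hdim (Q := C ((n + 1 - y i : ℕ) : ℂ) * (lin w * G i)) (by
      have := ((lin_isHomogeneous w).mul hGh).C_mul ((n + 1 - y i : ℕ) : ℂ)
      rwa [(by omega : 1 + (y i - 1) = y i)] at this) h4
    have h6 : ((n + 1 - y i : ℕ) : ℂ) ≠ 0 := by
      have := hy i
      exact_mod_cast (by omega : n + 1 - y i ≠ 0)
    have h7 : IsUnit (C ((n + 1 - y i : ℕ) : ℂ) : R3) := (isUnit_iff_ne_zero.mpr h6).map C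
    rw [h7.dvd_mul_left] at h5
    exact hGi (lin_dvd_of_mul hpi hcr h5)
  -- linear algebra
  let f : (V3 × ℂ) →ₗ[ℂ] V3 :=
    { toFun := fun z k => mv E i z.1 (x k) + z.2 * x k
      map_add' := fun z z' => by
        funext k
        simp only [Prod.fst_add, Prod.snd_add, Pi.add_apply, mv_add]
        ring
      map_smul' := fun a z => by
        funext k
        simp only [Prod.smul_fst, Prod.smul_snd, Pi.smul_apply, smul_eq_mul, mv_smul,
          RingHom.id_apply]
        ring }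
  have hf : ∀ z k, f z k = mv E i z.1 (x k) + z.2 * x k := fun z k => rfl
  have hker : finrank ℂ (LinearMap.ker f) ≤ 1 := by
    have h1 : Function.Injective ((LinearMap.fst ℂ V3 ℂ).domRestrict (LinearMap.ker f)) := by
      rw [injective_iff_map_eq_zero]
      rintro ⟨z, hz⟩ hz0
      rw [LinearMap.domRestrict_apply, LinearMap.fst_apply] at hz0
      have hz' := LinearMap.mem_ker.mp hz
      obtain ⟨k, hk⟩ : ∃ k, x k ≠ 0 := by
        by_contra hcon
        push Not at hcon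
        exact hx (funext hcon)
      have h2 := congrFun hz' k
      have h3 : mv E i (0 : V3) (x k) = 0 := by
        have := mv_smul E i 0 (0 : V3) (x k)
        rwa [zero_mul, smul_zero] at this
      have hz0' : z.1 = 0 := hz0
      rw [hf, hz0', h3, zero_add] at h2
      have h4 : z.2 = 0 := (mul_eq_zero.mp h2).resolve_right hk
      exact Subtype.ext (Prod.ext hz0' h4)
    have h2 := LinearMap.finrank_range_of_inj h1
    rw [← h2]
    have h3 : LinearMap.range ((LinearMap.fst ℂ V3 ℂ).domRestrict (LinearMap.ker f)) ≤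
        Submodule.span ℂ {p i} := by
      rintro _ ⟨⟨z, hz⟩, rfl⟩
      rw [LinearMap.domRestrict_apply, LinearMap.fst_apply]
      have hz' := LinearMap.mem_ker.mp hz
      have h4 := key z.1 (- z.2) (fun k => by
        have := congrFun hz' k
        rw [hf] at this
        rw [eq_neg_of_add_eq_zero_left this]
        ring)
      obtain ⟨s, hs⟩ := exists_smul_of_cr_eq_zero hpi h4
      rw [Submodule.mem_span_singleton]
      exact ⟨s, hs.symm⟩
    exact (Submodule.finrank_mono h3).trans (finrank_span_singleton hpi).le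
  have hrange : LinearMap.range f = ⊤ := by
    apply Submodule.eq_top_of_finrank_eq
    apply le_antisymm (Submodule.finrank_le _)
    have h1 := LinearMap.finrank_range_add_finrank_ker f
    rw [Module.finrank_prod, Module.finrank_fin_fun, Module.finrank_self] at h1
    rw [Module.finrank_fin_fun]
    omega
  obtain ⟨z, hz⟩ : v ∈ LinearMap.range f := hrange ▸ Submodule.mem_top
  exact ⟨z.1, z.2, fun k => by rw [← hz, hf]⟩

/-- two points cannot contribute effectively to the expression of a power -/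
theorem move_two (hE : IsDual p E) (hy : ∀ i, y i ≤ n) {G : ι → R3}
    (hG : ∀ i, G i ∈ Hm (y i)) (hx : x ≠ 0)
    (h : ∑ i, lin (p i) ^ (n + 1 - y i) * G i = lin x ^ n) {i j : ι} (hij : i ≠ j)
    (hyj : y j + 1 ≤ n)
    (hGi : ¬ lin (p i) ∣ G i) (hGj : ¬ lin (p j) ∣ G j)
    (hdj : finrank ℂ (linSys n p (Function.update y j (y j + 1))) +
      ∑ k, (Function.update y j (y j + 1) k + 1).choose 2 ≤ (n + 2).choose 2)
    (hdij : finrank ℂ (linSys n p (Function.update (Function.update y j (y j + 1)) i (y i + 1))) +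
      ∑ k, (Function.update (Function.update y j (y j + 1)) i (y i + 1) k + 1).choose 2 ≤
        (n + 2).choose 2) : False := by
  have hpi := gp1 hE i
  have hyi : 1 ≤ y i := by
    by_contra hcon
    have h0 : y i = 0 := by omega
    have := hG i
    rw [h0, mem_Hm_zero] at this
    rw [this] at hGi
    exact hGi (dvd_zero _)
  have hGh : (G i).IsHomogeneous (y i - 1) := by
    have := hG i
    rw [(by omega : y i = (y i - 1) + 1), mem_Hm_succ] at this
    exact this
  -- a direction independent of `p i`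
  obtain ⟨w, hw⟩ : ∃ w, cr (p i) w ≠ 0 := ⟨p j, gp2 hE hij⟩
  obtain ⟨w', c, hv⟩ := move_surj hE hy hG hx h j hGj hdj (fun k => mv E i w (x k))
  have h1 := move_mem hE hG h i w
  have h2 := move_mem hE hG h j w'
  have hle : J n p y ≤ J n p (Function.update y j (y j + 1)) := by
    intro A hA
    obtain ⟨G', hG', rfl⟩ := mem_J.mp hA
    rw [mem_J]
    refine ⟨Function.update G' j (lin (p j) * G' j), fun k => ?_, ?_⟩
    · by_cases hk : k = j
      · rw [hk, Function.update_self, Function.update_self]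
        exact mul_mem_Hm_succ (lin_isHomogeneous (p j)) (hG' j)
      · rw [Function.update_of_ne hk, Function.update_of_ne hk]
        exact hG' k
    · refine Finset.sum_congr rfl (fun k _ => ?_)
      by_cases hk : k = j
      · rw [hk, Function.update_self, Function.update_self,
          (by omega : n + 1 - y j = (n + 1 - (y j + 1)) + 1), pow_succ]
        ring
      · rw [Function.update_of_ne hk, Function.update_of_ne hk]
  have h3 : C (n : ℂ) * (lin x ^ (n - 1) * lin (fun k => mv E i w (x k))) ∈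
      J n p (Function.update y j (y j + 1)) := by
    have hn : 1 ≤ n := hyi.trans (hy i)
    have h4 : (fun k => mv E i w (x k)) = (fun k => mv E j w' (x k)) + c • x := by
      funext k
      rw [hv k]
      rfl
    have h5 : C (n : ℂ) * (lin x ^ (n - 1) * lin (fun k => mv E i w (x k))) =
        (C (n : ℂ) * (lin x ^ (n - 1) * lin (fun k => mv E j w' (x k))) -
          lin (p j) ^ (n - y j) * (C ((n + 1 - y j : ℕ) : ℂ) * (lin w' * G j))) +
        lin (p j) ^ (n - y j) * (C ((n + 1 - y j : ℕ) : ℂ) * (lin w' * G j)) +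
        ((n : ℂ) * c) • lin x ^ n := by
      rw [h4, lin_add, lin_smul, smul_eq_C_mul, C_mul, p2_pow_pred_mul (lin x) hn]
      ring
    rw [h5]
    refine Submodule.add_mem _ (Submodule.add_mem _ (hle h2) ?_)
      (Submodule.smul_mem _ _ (hle (mem_J.mpr ⟨G, hG, h⟩)))
    have h6 := summand_mem_J (d := n) (p := p) (m := Function.update y j (y j + 1)) j
      (G := C ((n + 1 - y j : ℕ) : ℂ) * (lin w' * G j)) (by
        rw [Function.update_self]
        have := mul_mem_Hm_succ (lin_isHomogeneous w') (hG j)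
        rw [← smul_eq_C_mul]
        exact Submodule.smul_mem _ _ this)
    rw [Function.update_self, (by omega : n + 1 - (y j + 1) = n - y j)] at h6
    exact h6
  have h4 := Submodule.sub_mem _ h3 (hle h1)
  rw [sub_sub_cancel] at h4
  have hyi' : Function.update y j (y j + 1) i = y i := Function.update_of_ne hij _ _
  rw [← hyi'] at hdij
  have h5 := dvd_of_mem_J (m := Function.update y j (y j + 1)) i (fun k => by
      by_cases hk : k = j
      · rw [hk, Function.update_self]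
        exact hyj
      · rw [Function.update_of_ne hk]
        exact hy k) hdij (Q := C ((n + 1 - y i : ℕ) : ℂ) * (lin w * G i)) (by
      rw [hyi']
      have := ((lin_isHomogeneous w).mul hGh).C_mul ((n + 1 - y i : ℕ) : ℂ)
      rwa [(by omega : 1 + (y i - 1) = y i)] at this) (by
      rw [hyi']
      exact h4)
  have h6 : ((n + 1 - y i : ℕ) : ℂ) ≠ 0 := by
    have := hy i
    exact_mod_cast (by omega : n + 1 - y i ≠ 0)
  have h7 : IsUnit (C ((n + 1 - y i : ℕ) : ℂ) : R3) := (isUnit_iff_ne_zero.mpr h6).map C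
  rw [h7.dvd_mul_left] at h5
  exact hGi (lin_dvd_of_mul hpi hw h5)

end move

theorem finrank_gen {ι : Type} [Fintype ι] {n M : ℕ} {p : ι → V3}
    (hp : AlgebraicIndependent ℚ (fun z : ι × Fin 3 => p z.1 z.2)) {y : ι → ℕ}
    (hy : ∀ i, y i ≤ M) (hn : 3 * M ^ 2 ≤ n) :
    finrank ℂ (linSys n p y) = (n + 2).choose 2 - ∑ i, (y i + 1).choose 2 := by
  let e : ι ≃ Fin (Fintype.card ι) := Fintype.equivFin ι
  have h1 : GenericPoints (fun k => p (e.symm k)) := by
    have := hp.comp (fun z : Fin (Fintype.card ι) × Fin 3 => (e.symm z.1, z.2))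
      (fun z z' h => by
        rw [Prod.mk.injEq] at h
        exact Prod.ext (e.symm.injective h.1) h.2)
    exact this
  have h2 := LD.main h1 (m := fun k => y (e.symm k)) (fun k => hy _) hn
  have h3 : linSys n (fun k => p (e.symm k)) (fun k => y (e.symm k)) = linSys n p y := by
    ext F
    constructor
    · rintro ⟨hF, hv⟩
      refine ⟨hF, fun i => ?_⟩
      have := hv (e i)
      simpa only [Equiv.symm_apply_apply] using this
    · rintro ⟨hF, hv⟩
      exact ⟨hF, fun k => hv _⟩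
  rw [h3] at h2
  rw [h2]
  congr 1
  exact e.symm.sum_comp (fun i => (y i + 1).choose 2)

/-- the power of a linear form is not in the inverse system -/
theorem not_mem_J {ι : Type} [Fintype ι] [DecidableEq ι] {n M : ℕ} {p : ι → V3}
    {E : ι → Fin 3 → Derivation ℚ ℂ ℂ} (hE : IsDual p E)
    (hp : AlgebraicIndependent ℚ (fun z : ι × Fin 3 => p z.1 z.2))
    (hn : 3 * (M + 2) ^ 2 ≤ n) {x : V3} (hx : x ≠ 0) (hxp : ∀ i, cr (p i) x ≠ 0) :
    ∀ (N : ℕ) (y : ι → ℕ), (∀ i, y i ≤ M) → ∑ i, y i ≤ N →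
      ∑ i, (y i + 1).choose 2 + (2 * M + 2) ≤ (n + 2).choose 2 → lin x ^ n ∉ J n p y := by
  intro N
  induction N with
  | zero =>
    intro y _ hN _ hJ
    obtain ⟨G, hG, hsum⟩ := mem_J.mp hJ
    have h1 : lin x ^ n = 0 := by
      rw [← hsum]
      refine Finset.sum_eq_zero (fun i _ => ?_)
      have h2 : y i = 0 := by
        have := Finset.single_le_sum (f := y) (fun i _ => Nat.zero_le (y i)) (Finset.mem_univ i)
        omega
      have h3 := hG i
      rw [h2, mem_Hm_zero] at h3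
      rw [h3, mul_zero]
    exact hx (lin_eq_zero.mp (eq_zero_of_pow_eq_zero h1))
  | succ N ih =>
    intro y hy hN hχ hJ
    obtain ⟨G, hG, hsum⟩ := mem_J.mp hJ
    have hMn : M + 1 ≤ n := by nlinarith
    have hyn : ∀ i, y i ≤ n := fun i => (hy i).trans (by omega)
    by_cases hA : ∃ i, 1 ≤ y i ∧ lin (p i) ∣ G i
    · obtain ⟨i, hi1, hi2⟩ := hA
      obtain ⟨g, hg, hGg⟩ : ∃ g, g ∈ Hm (y i - 1) ∧ G i = lin (p i) * g := by
        by_cases h0 : G i = 0
        · exact ⟨0, zero_mem _, by rw [h0, mul_zero]⟩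
        · have h1 : (G i).IsHomogeneous (y i - 1) := by
            have := hG i
            rw [(by omega : y i = (y i - 1) + 1), mem_Hm_succ] at this
            exact this
          obtain ⟨e, g, hd, hg, hGg⟩ := exists_factor h1 h0 hi2
          refine ⟨g, ?_, hGg⟩
          rw [hd, mem_Hm_succ]
          exact hg
      refine ih (Function.update y i (y i - 1)) (fun k => ?_) ?_ ?_ ?_
      · by_cases hk : k = i
        · rw [hk, Function.update_self]
          have := hy i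
          omega
        · rw [Function.update_of_ne hk]
          exact hy k
      · rw [← Finset.add_sum_erase _ _ (Finset.mem_univ i), Function.update_self]
        rw [← Finset.add_sum_erase _ _ (Finset.mem_univ i)] at hN
        have h1 : ∑ k ∈ Finset.univ.erase i, Function.update y i (y i - 1) k =
            ∑ k ∈ Finset.univ.erase i, y k := Finset.sum_congr rfl (fun k hk => by
          rw [Function.update_of_ne (Finset.ne_of_mem_erase hk)])
        omega
      · refine le_trans (Nat.add_le_add_right (Finset.sum_le_sum (fun k _ => ?_)) _) hχ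
        apply Nat.choose_le_choose
        by_cases hk : k = i
        · rw [hk, Function.update_self]
          omega
        · rw [Function.update_of_ne hk]
      · rw [mem_J]
        refine ⟨Function.update G i g, fun k => ?_, ?_⟩
        · by_cases hk : k = i
          · rw [hk, Function.update_self, Function.update_self]
            exact hg
          · rw [Function.update_of_ne hk, Function.update_of_ne hk]
            exact hG k
        · rw [← hsum]
          refine Finset.sum_congr rfl (fun k _ => ?_)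
          by_cases hk : k = i
          · rw [hk, Function.update_self, Function.update_self, hGg,
              (by have := hyn i; omega : n + 1 - (y i - 1) = (n + 1 - y i) + 1), pow_succ]
            ring
          · rw [Function.update_of_ne hk, Function.update_of_ne hk]
    · push Not at hA
      have hdim : ∀ y' : ι → ℕ, (∀ i, y' i ≤ M + 1) →
          ∑ i, (y' i + 1).choose 2 ≤ (n + 2).choose 2 →
          finrank ℂ (linSys n p y') + ∑ i, (y' i + 1).choose 2 ≤ (n + 2).choose 2 := by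
        intro y' h1 h2
        rw [finrank_gen hp h1 (by nlinarith)]
        omega
      by_cases hB : ∃ i, 1 ≤ y i
      · obtain ⟨i, hi⟩ := hB
        have hGi := hA i hi
        have hC : ∀ j, j ≠ i → G j = 0 := by
          intro j hji
          by_contra hGj0
          have hj : 1 ≤ y j := by
            by_contra hcon
            have h0 : y j = 0 := by omega
            have := hG j
            rw [h0, mem_Hm_zero] at this
            exact hGj0 this
          have hGj := hA j hj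
          have hyi := hy i
          have hyj := hy j
          have hs1 := sum_update_succ y j
          have hs2 := sum_update_succ (Function.update y j (y j + 1)) i
          have hyi' : Function.update y j (y j + 1) i = y i := Function.update_of_ne hji.symm _ _
          rw [hyi'] at hs2
          refine move_two hE hyn hG hx hsum (Ne.symm hji) (by omega) hGi hGj ?_ ?_
          · apply hdim
            · intro k
              by_cases hk : k = j
              · rw [hk, Function.update_self]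
                omega
              · rw [Function.update_of_ne hk]
                have := hy k
                omega
            · omega
          · apply hdim
            · intro k
              by_cases hk : k = i
              · rw [hk, Function.update_self]
                omega
              · rw [Function.update_of_ne hk]
                by_cases hk' : k = j
                · rw [hk', Function.update_self]
                  omega
                · rw [Function.update_of_ne hk']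
                  have := hy k
                  omega
            · omega
        rw [Finset.sum_eq_single i (fun j _ hj => by rw [hC j hj, mul_zero])
          (fun h => absurd (Finset.mem_univ i) h)] at hsum
        have h1 : lin (p i) ∣ lin x ^ n := by
          rw [← hsum, (by have := hyn i; omega : n + 1 - y i = (n - y i) + 1), pow_succ]
          exact ⟨lin (p i) ^ (n - y i) * G i, by ring⟩
        exact hxp i (lin_dvd_lin ((lin_prime (gp1 hE i)).dvd_of_dvd_pow h1))
      · push Not at hB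
        refine ih y hy ?_ hχ hJ
        rw [Finset.sum_eq_zero (fun i _ => by have := hB i; omega)]
        exact Nat.zero_le _

/-- base point freeness, generic points -/
theorem bpf {ι : Type} [Fintype ι] [DecidableEq ι] [Nonempty ι] {n M : ℕ} {p : ι → V3}
    (hp : AlgebraicIndependent ℚ (fun z : ι × Fin 3 => p z.1 z.2)) {y : ι → ℕ}
    (hy : ∀ i, y i ≤ M) (hn : 3 * (M + 2) ^ 2 ≤ n)
    (hχ : ∑ i, (y i + 1).choose 2 + (3 * M + 4) ≤ (n + 2).choose 2)
    {x : V3} (hx : x ≠ 0) (hxp : ∀ i, cr (p i) x ≠ 0) :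
    ∃ H ∈ linSys n p y, eval x H ≠ 0 := by
  obtain ⟨E, hE⟩ := exists_dual p hp
  by_contra hcon
  push Not at hcon
  refine not_mem_J hE hp hn hx hxp _ y hy le_rfl (by omega) ?_
  apply mem_J_of_B (fun i => by have := hy i; nlinarith) (lin_isHomogeneous_pow x n)
  intro F hF
  rw [B_lin_pow hF.1, hcon F hF, mul_zero]
theorem p2_eval_subM (A : Matrix (Fin 3) (Fin 3) ℂ) (x : V3) (F : R3) :
    eval x (LD.subM A F) = eval (A.mulVec x) F := by
  induction F using MvPolynomial.induction_on with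
  | C c => rw [LD.subM_C, eval_C, eval_C]
  | add f g hf hg => rw [map_add, map_add, map_add, hf, hg]
  | mul_X f k hf => rw [map_mul, map_mul, map_mul, hf, LD.subM_X, LD.eval_lin_row, eval_X]

theorem p2_cr_mulVec {A B' : Matrix (Fin 3) (Fin 3) ℂ} (hBA : B' * A = 1) {u v : V3} (hu : u ≠ 0)
    (h : cr u v ≠ 0) : cr (A.mulVec u) (A.mulVec v) ≠ 0 := by
  intro h0
  have h1 : ∀ z : V3, B'.mulVec (A.mulVec z) = z := fun z => by
    rw [Matrix.mulVec_mulVec, hBA, Matrix.one_mulVec]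
  have h2 : A.mulVec u ≠ 0 := by
    intro h3
    apply hu
    rw [← h1 u, h3, Matrix.mulVec_zero]
  obtain ⟨s, hs⟩ := exists_smul_of_cr_eq_zero h2 h0
  apply h
  have h3 : v = s • u := by
    rw [← h1 v, hs, Matrix.mulVec_smul, h1 u]
  rw [h3]
  exact cr_smul_self s u

theorem p2_subM_linSys {ι : Type} {A : Matrix (Fin 3) (Fin 3) ℂ} {n : ℕ} {q : ι → V3} {y : ι → ℕ}
    {F : R3} (h : F ∈ linSys n (fun i => A.mulVec (q i)) y) : LD.subM A F ∈ linSys n q y :=
  ⟨LD.subM_isHomogeneous A h.1, fun i => LD.vanishTo_subM A (h.2 i)⟩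

theorem p2_fl_ne_zero (c : ℂ) : fl c ≠ 0 := by
  intro h
  have := congrFun h 1
  simp [fl] at this

/-- base point freeness, two points on the line `z = 0` -/
theorem sep1 {ι : Type} [Fintype ι] [DecidableEq ι] {n M : ℕ} {p : ι → V3} {c : Fin 2 → ℂ}
    (hx : Ind p c) {y : ι ⊕ Fin 2 → ℕ} (hy : ∀ i, y i ≤ M) (hn : 3 * (M + 2) ^ 2 ≤ n)
    (hχ : ∑ i, (y i + 1).choose 2 + (3 * M + 4) ≤ (n + 2).choose 2)
    {x : V3} (hx0 : x ≠ 0) (hxp : ∀ i, cr (p i) x ≠ 0) (hxc : ∀ j, cr (fl (c j)) x ≠ 0) :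
    ∃ H ∈ linSys n (Sum.elim p (fun j => fl (c j))) y, eval x H ≠ 0 := by
  obtain ⟨A, B', hAB, hBA, hind⟩ := flags_position hx
  have hp0 : ∀ i, Sum.elim p (fun j => fl (c j)) i ≠ 0 := by
    rintro (i | j)
    · intro h
      apply hxp i
      have : p i = 0 := h
      rw [this]
      ext l
      fin_cases l <;> simp [cr]
    · exact p2_fl_ne_zero (c j)
  have h1 : ∀ i, cr (A.mulVec (Sum.elim p (fun j => fl (c j)) i)) (A.mulVec x) ≠ 0 := by
    intro i
    refine p2_cr_mulVec hBA (hp0 i) ?_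
    rcases i with i | j
    · exact hxp i
    · exact hxc j
  have h2 : A.mulVec x ≠ 0 := by
    intro h3
    apply hx0
    rw [← Matrix.one_mulVec x, ← hBA, ← Matrix.mulVec_mulVec, h3, Matrix.mulVec_zero]
  obtain ⟨H, hH, hHx⟩ := bpf (p := fun z => A.mulVec (Sum.elim p (fun j => fl (c j)) z)) hind hy
    hn hχ h2 h1
  exact ⟨LD.subM A H, p2_subM_linSys hH, by rw [p2_eval_subM]; exact hHx⟩

/-- separation of tangent directions -/
theorem sep2 {ι : Type} [Fintype ι] [DecidableEq ι] {n M : ℕ} {p : ι → V3} {c : Fin 2 → ℂ}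
    (hx : Ind p c) {y : ι ⊕ Fin 2 → ℕ} (hy : ∀ i, y i ≤ M) (hn : 3 * (M + 2) ^ 2 ≤ n)
    (hχ : ∑ i, (y i + 1).choose 2 + (3 * M + 4) ≤ (n + 2).choose 2)
    (i : ι) {v : V3} (hv : cr (p i) v ≠ 0) :
    ∃ H ∈ linSys n (Sum.elim p (fun j => fl (c j))) y,
      B (lin (p i) ^ (n - y (Sum.inl i)) * lin v ^ y (Sum.inl i)) H ≠ 0 := by
  by_contra hcon
  push Not at hcon
  have hMn : M ≤ n := by nlinarith
  have hyn : ∀ i, y i ≤ n := fun i => (hy i).trans hMn
  have h1 : lin (p i) ^ (n - y (Sum.inl i)) * lin v ^ y (Sum.inl i) ∈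
      J n (Sum.elim p (fun j => fl (c j))) y := by
    refine mem_J_of_B (fun k => (hyn k).trans (Nat.le_succ n)) ?_ hcon
    have h2 := (lin_isHomogeneous_pow (p i) (n - y (Sum.inl i))).mul
      (lin_isHomogeneous_pow v (y (Sum.inl i)))
    rwa [Nat.sub_add_cancel (hyn _)] at h2
  have h2 := sum_update_succ y (Sum.inl i)
  have hyi := hy (Sum.inl i)
  have h3 := dvd_of_mem_J (p := Sum.elim p (fun j => fl (c j))) (Sum.inl i) hyn (by
    rw [finrank_flags hx (M := M + 1) (fun k => by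
      by_cases hk : k = Sum.inl i
      · rw [hk, Function.update_self]
        omega
      · rw [Function.update_of_ne hk]
        have := hy k
        omega) (by nlinarith)]
    omega) (lin_isHomogeneous_pow v (y (Sum.inl i))) h1
  have hp0 : p i ≠ 0 := by
    intro h
    apply hv
    rw [h]
    ext l
    fin_cases l <;> simp [cr]
  exact hv (lin_dvd_lin ((lin_prime hp0).dvd_of_dvd_pow h3))

theorem p2_B_X_pow_mul (k : Fin 3) (i : ℕ) (A f : R3) :
    B (A * X k ^ i) f = B A ((pderiv k)^[i] f) := by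
  induction i generalizing f with
  | zero => rw [pow_zero, mul_one, Function.iterate_zero, id]
  | succ i ih =>
    rw [Function.iterate_succ_apply, ← ih, ← B_X_mul]
    congr 2
    ring

theorem p2_pderiv_iterate_isHomogeneous (k : Fin 3) (i : ℕ) {f : R3} {n : ℕ}
    (hf : f.IsHomogeneous n) : ((pderiv k)^[i] f).IsHomogeneous (n - i) := by
  induction i generalizing f n with
  | zero => exact hf
  | succ i ih =>
    rw [Function.iterate_succ_apply]
    have := ih (hf.pderiv (i := k))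
    rwa [(by omega : n - 1 - i = n - (i + 1))] at this

theorem B_fder (c : ℂ) (i : ℕ) {H : R3} {n : ℕ} (hH : H.IsHomogeneous n) :
    B (lin (fl c) ^ (n - i) * X 0 ^ i) H = (n - i).factorial * fder c i H := by
  rw [p2_B_X_pow_mul, B_lin_pow (p2_pderiv_iterate_isHomogeneous 0 i hH)]
  rfl

/-- a member with assigned contact with the line `z = 0`, smooth there -/
theorem sep3 {ι : Type} [Fintype ι] [DecidableEq ι] {n M u : ℕ} {p : ι → V3} {c : Fin 2 → ℂ}
    (hx : Ind p c) {y : ι → ℕ} (hy : ∀ i, y i ≤ M) (hu : u ≤ M) (hn : 3 * (M + 2) ^ 2 ≤ n)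
    (hχ : ∑ i, (y i + 1).choose 2 + (u + 2).choose 2 ≤ (n + 2).choose 2) (hu1 : 1 ≤ u) :
    ∃ H ∈ linSys n p y, (∀ i < u, fder (c 0) i H = 0) ∧ eval (fl (c 0)) (pderiv 2 H) ≠ 0 := by
  by_contra hcon
  push Not at hcon
  have hMn : M + 1 ≤ n := by nlinarith
  have hyn : ∀ i, y i ≤ n := fun i => (hy i).trans (by omega)
  set a := fl (c 0) with ha
  let V := linSys n p y
  let L : Fin u → (V →ₗ[ℂ] ℂ) := fun i => (B (lin a ^ (n - i) * X 0 ^ (i : ℕ))) ∘ₗ V.subtype
  let K : V →ₗ[ℂ] ℂ := (B (lin a ^ (n - 1) * X 2 ^ 1)) ∘ₗ V.subtype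
  have h1 : ⨅ i, LinearMap.ker (L i) ≤ LinearMap.ker K := by
    intro H hH
    rw [Submodule.mem_iInf] at hH
    rw [LinearMap.mem_ker]
    have h2 : ∀ i < u, fder (c 0) i H.1 = 0 := by
      intro i hi
      have h3 := LinearMap.mem_ker.mp (hH ⟨i, hi⟩)
      have h4 : B (lin (fl (c 0)) ^ (n - i) * X 0 ^ i) H.1 = 0 := h3
      rw [B_fder _ _ H.2.1] at h4
      exact (mul_eq_zero.mp h4).resolve_left (by exact_mod_cast Nat.factorial_ne_zero _)
    have h3 := hcon H.1 H.2 h2
    change B (lin a ^ (n - 1) * X 2 ^ 1) H.1 = 0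
    rw [p2_B_X_pow_mul, Function.iterate_one, B_lin_pow H.2.1.pderiv, h3, mul_zero]
  obtain ⟨e, he⟩ := (Submodule.mem_span_range_iff_exists_fun ℂ).mp (mem_span_of_iInf_ker_le_ker h1)
  -- the form
  set Q : R3 := lin a ^ (u - 1) * X 2 - ∑ i : Fin u, C (e i) * (lin a ^ (u - i) * X 0 ^ (i : ℕ))
    with hQ
  have hXh : ∀ (k : Fin 3) (i : ℕ), (X k ^ i : R3).IsHomogeneous i := fun k i => by
    have := (isHomogeneous_X ℂ k).pow i
    rwa [one_mul] at this
  have hQh : Q.IsHomogeneous u := by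
    rw [hQ]
    refine IsHomogeneous.sub ?_ (IsHomogeneous.sum _ _ _ (fun i _ => IsHomogeneous.C_mul ?_ _))
    · have := (lin_isHomogeneous_pow a (u - 1)).mul (isHomogeneous_X ℂ (2 : Fin 3))
      rwa [Nat.sub_add_cancel hu1] at this
    · have := (lin_isHomogeneous_pow a (u - i)).mul (hXh 0 i)
      rwa [Nat.sub_add_cancel i.2.le] at this
  have hA : lin a ^ (n - u) * Q = lin a ^ (n - 1) * X 2 -
      ∑ i : Fin u, C (e i) * (lin a ^ (n - i) * X 0 ^ (i : ℕ)) := by
    rw [hQ, mul_sub, Finset.mul_sum, ← mul_assoc, ← pow_add,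
      (by omega : n - u + (u - 1) = n - 1)]
    congr 1
    refine Finset.sum_congr rfl (fun i _ => ?_)
    rw [(by have := i.2; omega : n - (i : ℕ) = (n - u) + (u - i)), pow_add]
    ring
  have hAJ : lin a ^ (n - u) * Q ∈ J n p y := by
    refine mem_J_of_B (fun k => (hyn k).trans (Nat.le_succ n)) ?_ ?_
    · have := (lin_isHomogeneous_pow a (n - u)).mul hQh
      rwa [Nat.sub_add_cancel (by omega)] at this
    · intro H hH
      have h2 := LinearMap.congr_fun he ⟨H, hH⟩
      rw [LinearMap.sum_apply] at h2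
      rw [hA, map_sub, map_sum, LinearMap.sub_apply, LinearMap.sum_apply, sub_eq_zero]
      have h3 : K ⟨H, hH⟩ = B (lin a ^ (n - 1) * X 2) H := by
        change B (lin a ^ (n - 1) * X 2 ^ 1) H = _
        rw [pow_one]
      rw [← h3, ← h2]
      refine Finset.sum_congr rfl (fun i _ => ?_)
      rw [B_C_mul_left]
      rfl
  obtain ⟨G, hG, hsum⟩ := mem_J.mp hAJ
  have hm' : ∀ i, (Sum.elim y ![u + 1, 0] : ι ⊕ Fin 2 → ℕ) i ≤ M + 1 := by
    rintro (i | j)
    · have := hy i
      simp only [Sum.elim_inl]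
      omega
    · fin_cases j
      · simp only [Sum.elim_inr, Fin.zero_eta, Matrix.cons_val_zero]
        omega
      · simp
  have hs : ∑ i, ((Sum.elim y ![u + 1, 0] : ι ⊕ Fin 2 → ℕ) i + 1).choose 2 =
      ∑ i, (y i + 1).choose 2 + (u + 2).choose 2 := by
    rw [Fintype.sum_sum_type, Fin.sum_univ_two]
    simp
  have h2 := Psi_eq_zero (d := n) (p := Sum.elim p (fun j => fl (c j)))
    (m := Sum.elim y ![u + 1, 0]) (fun i => (hm' i).trans (by omega)) (by
      rw [finrank_flags hx hm' (by nlinarith)]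
      omega) (G := Sum.elim G ![- Q, 0]) (by
      rintro (i | j)
      · exact hG i
      · fin_cases j
        · exact Submodule.neg_mem _ (mem_Hm_succ.mpr hQh)
        · exact zero_mem _) (by
      rw [Fintype.sum_sum_type, Fin.sum_univ_two]
      simp only [Sum.elim_inl, Sum.elim_inr, Matrix.cons_val_zero, Matrix.cons_val_one, mul_zero,
        add_zero]
      rw [hsum, (by omega : n + 1 - (u + 1) = n - u)]
      ring) (Sum.inr 0)
  have h3 : Q = 0 := by
    have : - Q = 0 := h2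
    exact neg_eq_zero.mp this
  have h4 := congrArg (pderiv (2 : Fin 3)) h3
  have ha2 : pderiv (2 : Fin 3) (lin a) = 0 := by
    rw [pderiv_lin]
    simp [ha, fl]
  have h5 : ∀ k : ℕ, pderiv (2 : Fin 3) (lin a ^ k) = 0 := fun k => by
    rw [Derivation.leibniz_pow, ha2, smul_zero, smul_zero]
  have h6 : ∀ k : ℕ, pderiv (2 : Fin 3) (X 0 ^ k : R3) = 0 := fun k => by
    rw [Derivation.leibniz_pow, pderiv_X_of_ne (by decide), smul_zero, smul_zero]
  rw [hQ, map_sub, map_sum, map_zero] at h4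
  have h7 : ∀ i : Fin u, pderiv (2 : Fin 3) (C (e i) * (lin a ^ (u - i) * X 0 ^ (i : ℕ))) = 0 := by
    intro i
    rw [pderiv_C_mul, Derivation.leibniz, h5, h6, smul_zero, smul_zero, add_zero, mul_zero]
  rw [Finset.sum_eq_zero (fun i _ => h7 i), sub_zero, Derivation.leibniz, h5, smul_zero,
    add_zero, pderiv_X_self, smul_eq_mul, mul_one] at h4
  have h8 : lin a ≠ 0 := fun h => p2_fl_ne_zero (c 0) (lin_eq_zero.mp h)
  exact h8 (eq_zero_of_pow_eq_zero h4)

end Pool.Agent.Work.MP_0421d9_ag.SM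
end

section
/-!
The member of a large generic system with assigned contact orders with a line.
-/

set_option linter.unusedSectionVars false
set_option linter.unusedVariables false

namespace Pool.Agent.Work.MP_0421d9_ag.SM

open MvPolynomial Module

theorem exists_relation {κ : Type} [Fintype κ] [DecidableEq κ] (J : Finset κ) (hJ : J.card = 3)
    (w : κ → V3) {x : V3} (hx : x ≠ 0) : ∃ (α : κ → ℂ) (c : ℂ), (∃ j ∈ J, α j ≠ 0) ∧
      (∀ j ∉ J, α j = 0) ∧ ∑ j, α j • w j = c • x := by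
  let f : (J → ℂ) × ℂ →ₗ[ℂ] V3 :=
    { toFun := fun z => ∑ j : J, z.1 j • w j - z.2 • x
      map_add' := by
        intro z z'
        simp only [Prod.fst_add, Prod.snd_add, Pi.add_apply, add_smul, Finset.sum_add_distrib]
        abel
      map_smul' := by
        intro c z
        simp only [Prod.smul_fst, Prod.smul_snd, Pi.smul_apply, smul_eq_mul, mul_smul,
          RingHom.id_apply, smul_sub, Finset.smul_sum] }
  have hf : LinearMap.ker f ≠ ⊥ := by
    apply LinearMap.ker_ne_bot_of_finrank_lt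
    rw [Module.finrank_prod, Module.finrank_fintype_fun_eq_card, Module.finrank_fintype_fun_eq_card,
      Module.finrank_self, Fintype.card_coe, hJ, Fintype.card_fin]
    norm_num
  obtain ⟨z, hz, hz0⟩ := Submodule.exists_mem_ne_zero_of_ne_bot hf
  have hz' : ∑ j : J, z.1 j • w j = z.2 • x := sub_eq_zero.mp hz
  set α : κ → ℂ := fun j => if h : j ∈ J then z.1 ⟨j, h⟩ else 0 with hα
  have hsum : ∑ j, α j • w j = z.2 • x := by
    rw [← hz', ← Finset.sum_subset (Finset.subset_univ J), ← Finset.sum_coe_sort J]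
    · refine Finset.sum_congr rfl (fun j _ => ?_)
      rw [hα]
      simp only [j.2, dif_pos]
    · intro j _ hj
      rw [hα]
      simp only [hj, not_false_eq_true, dif_neg, zero_smul]
  refine ⟨α, z.2, ?_, ?_, hsum⟩
  · by_contra hcon
    push Not at hcon
    have h1 : z.1 = 0 := by
      funext j
      have := hcon j j.2
      rw [hα] at this
      simpa using this
    have h2 : z.2 = 0 := by
      rw [h1] at hz'
      simp only [Pi.zero_apply, zero_smul, Finset.sum_const_zero] at hz'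
      exact (smul_eq_zero.mp hz'.symm).resolve_right hx
    exact hz0 (Prod.ext h1 h2)
  · intro j hj
    rw [hα]
    simp only [hj, not_false_eq_true, dif_neg]

theorem sum_smul_apply {κ : Type} (s : Finset κ) (α : κ → ℂ) (D : κ → Derivation ℚ ℂ ℂ) (z : ℂ) :
    (∑ j ∈ s, α j • D j) z = ∑ j ∈ s, α j * D j z := by
  induction s using Finset.cons_induction with
  | empty => simp
  | cons j s hj ih =>
    rw [Finset.sum_cons, Finset.sum_cons, Derivation.add_apply, ih, Derivation.smul_apply,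
      smul_eq_mul]

/-- the value at `x` is moved by the factor `κ` only -/
theorem E_eval {n : ℕ} {E : Derivation ℚ ℂ ℂ} {x : V3} {c : ℂ} (hE : ∀ k, E (x k) = c * x k)
    {H : R3} (hH : H.IsHomogeneous n) :
    E (evl x H) = evl x (cD E H) + c * n * evl x H := by
  change E (eval x H) = eval x (cD E H) + c * n * eval x H
  rw [D_eval]
  congr 1
  have h1 := eval_dir_self hH x
  rw [dir_apply, map_sum] at h1
  rw [mul_assoc, ← h1, Finset.mul_sum]
  refine Finset.sum_congr rfl (fun k _ => ?_)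
  rw [hE, map_mul, eval_C]
  ring

section member

variable {ι : Type} [Fintype ι] [DecidableEq ι] {n M u a : ℕ} {p : ι → V3} {g : Fin a → ℂ}
  {D : Fin a → Derivation ℚ ℂ ℂ} {m : ι → ℕ} {F : R3}

theorem exists_D (hx : Ind p g) : ∃ D : Fin a → Derivation ℚ ℂ ℂ, (∀ j i k, D j (p i k) = 0) ∧
    ∀ j k, D j (g k) = if j = k then 1 else 0 := by
  choose D hD using fun j : Fin a => Ind.derivation hx (fun k => if j = k then (1 : ℂ) else 0)
  exact ⟨D, fun j i k => (hD j).1 i k, fun j k => (hD j).2 k⟩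

theorem Ind.pair (hx : Ind p g) {j₁ j₂ : Fin a} (h : j₁ ≠ j₂) : Ind p ![g j₁, g j₂] := by
  have h1 := AlgebraicIndependent.comp hx (Sum.map id ![j₁, j₂])
    (Function.Injective.sumMap Function.injective_id (by
      intro x y hxy
      fin_cases x <;> fin_cases y <;> simp_all [h.symm]))
  have h2 : Sum.elim (fun z : ι × Fin 3 => p z.1 z.2) g ∘ Sum.map id ![j₁, j₂] =
      Sum.elim (fun z : ι × Fin 3 => p z.1 z.2) ![g j₁, g j₂] := by
    funext z
    rcases z with z | z
    · rfl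
    · fin_cases z <;> rfl
  rw [h2] at h1
  exact h1

theorem coord_ne (hp : GenericPoints p) (i : ι) (l : Fin 3) : p i l ≠ 0 :=
  hp.ne_zero (i, l)

theorem flags_of (hx : Ind p g) (hM : ∀ i, m i ≤ M) (hu : 1 ≤ u) (hn : 3 * (M + 2) ^ 2 ≤ n)
    (hχ : ∑ i, (m i + 1).choose 2 + (u * a + 1) = (n + 2).choose 2)
    (hlow : linSys (n - 1) p m = ⊥) (hDp : ∀ j i k, D j (p i k) = 0)
    (hD : ∀ j k, D j (g k) = if j = k then 1 else 0) (hF : F ∈ linSys n p m) (hF0 : F ≠ 0)
    {s : R2} (hs : res F = Gam g ^ u * s) : Flags n u (linSys n p m) g D F := by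
  have hMn : M ≤ n := by nlinarith
  have hmn : ∀ i, m i ≤ n + 1 := fun i => (hM i).trans (by omega)
  refine ⟨linSys_le n p m, hu, hD, ?_, ?_, ?_, hF, hF0, ?_⟩
  · intro j H hH
    exact linSys_cD_mem hmn hH (fun i => Or.inl (hDp j i))
  · intro H hH h
    exact eq_zero_of_res (fun i => coord_ne hx.generic i 2) hlow hH h
  · rw [finrank_gen hx.generic hM (by nlinarith)]
    omega
  · intro j
    exact fder_of_Gam hs j

/-- contact orders from multiplicities -/
theorem fder_of_vanishTo {c : ℂ} {k : ℕ} {H : R3} (h : VanishTo H (fl c) k) :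
    ∀ i < k, fder c i H = 0 := by
  intro i hi
  unfold fder
  rw [← vanishTo_one_iff']
  have h1 : ∀ (j l : ℕ) (G : R3), VanishTo G (fl c) (l + j) →
      VanishTo ((pderiv 0)^[j] G) (fl c) l := by
    intro j
    induction j with
    | zero => intro l G hG; exact hG
    | succ j ih =>
      intro l G hG
      rw [Function.iterate_succ_apply]
      exact ih l _ (vanishTo_pderiv 0 hG)
  exact h1 i 1 H (h.mono (by omega))

theorem num_sep (hu : 2 ≤ u) (huM : u ≤ M) (ha : M ^ 2 + 2 * M + 3 ≤ u * a)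
    (hχ : ∑ i, (m i + 1).choose 2 + (u * a + 1) = (n + 2).choose 2) :
    ∑ i : ι ⊕ Fin 2, (Sum.elim m (fun _ => u - 1) i + 1).choose 2 + (3 * M + 4) ≤
      (n + 2).choose 2 := by
  rw [Fintype.sum_sum_type, Fin.sum_univ_two]
  simp only [Sum.elim_inl, Sum.elim_inr]
  obtain ⟨v, rfl⟩ : ∃ v, u = v + 1 := ⟨u - 1, by omega⟩
  have h1 := two_mul_choose v
  have h2 : v * (v + 1) + M ≤ M * M := by nlinarith
  rw [Nat.add_sub_cancel]
  nlinarith

/-- no base point of the system with fixed contact orders -/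
theorem no_point (hx : Ind p g) (hM : ∀ i, m i ≤ M) (hu : 2 ≤ u) (huM : u ≤ M)
    (hn : 3 * (M + 2) ^ 2 ≤ n) (ha : M ^ 2 + 2 * M + 3 ≤ u * a) (ha3 : 3 ≤ a)
    (hχ : ∑ i, (m i + 1).choose 2 + (u * a + 1) = (n + 2).choose 2)
    (S : Flags n u (linSys n p m) g D F) {x : V3} (hx0 : x ≠ 0)
    (hxp : ∀ i, cr (p i) x ≠ 0) (hxg : ∀ j, cr (fl (g j)) x ≠ 0) (h0 : eval x F = 0)
    (h1 : ∀ j, eval x (cD (D j) F) = 0) : False := by
  obtain ⟨j₁, j₂, hj, h2⟩ := S.two ha3 (evl x) h0 h1 (fun J hJ => by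
    obtain ⟨α, c, hα, hα', hrel⟩ := exists_relation J hJ (fun j => fun k => D j (x k)) hx0
    refine ⟨α, c * n, hα, hα', fun H hH => E_eval (fun k => ?_) hH.1⟩
    rw [sum_smul_apply]
    have h3 := congrFun hrel k
    rw [Finset.sum_apply] at h3
    exact h3)
  obtain ⟨H, hH, hHx⟩ := sep1 (hx.pair hj) (y := Sum.elim m (fun _ => u - 1)) (n := n) (M := M)
    (fun i => by
      rcases i with i | i
      · exact hM i
      · simp only [Sum.elim_inr]
        omega) hn (num_sep hu huM ha hχ) hx0 hxp (fun j => by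
      fin_cases j
      · exact hxg j₁
      · exact hxg j₂)
  have h4 : H ∈ linSys n p m := ⟨hH.1, fun i => hH.2 (Sum.inl i)⟩
  exact hHx (h2 H h4 (fder_of_vanishTo (hH.2 (Sum.inr 0))) (fder_of_vanishTo (hH.2 (Sum.inr 1))))

/-- no multiple tangent -/
theorem no_tang (hx : Ind p g) (hM : ∀ i, m i ≤ M) (hu : 2 ≤ u) (huM : u ≤ M)
    (hn : 3 * (M + 2) ^ 2 ≤ n) (ha : M ^ 2 + 2 * M + 3 ≤ u * a) (ha3 : 3 ≤ a)
    (hχ : ∑ i, (m i + 1).choose 2 + (u * a + 1) = (n + 2).choose 2)
    (hDp : ∀ j i k, D j (p i k) = 0)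
    (S : Flags n u (linSys n p m) g D F) {i : ι} {v : V3} (hv : cr (p i) v ≠ 0)
    (h : BadDir n F (p i) (m i) v) : False := by
  have hv0 : v ≠ 0 := by
    rintro rfl
    apply hv
    ext k
    fin_cases k <;> simp [cr]
  have hMn : M ≤ n := by nlinarith
  have hmn : m i ≤ n := (hM i).trans hMn
  have hA : (lin (p i) ^ (n - m i) * lin v ^ m i).IsHomogeneous n := by
    have := (lin_isHomogeneous_pow (p i) (n - m i)).mul (lin_isHomogeneous_pow v (m i))
    rwa [Nat.sub_add_cancel hmn] at this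
  obtain ⟨j₁, j₂, hj, h2⟩ := S.two ha3 (B (lin (p i) ^ (n - m i) * lin v ^ m i)) h.1
    (fun j => by
      have h1 := D_B (D j) (lin (p i) ^ (n - m i) * lin v ^ m i) F
      rw [h.1, map_zero, cD_mul, cD_lin_pow_of_fixed (hDp j i), zero_mul, zero_add,
        cD_lin_pow_eq] at h1
      have h2 : lin (p i) ^ (n - m i) * (C (m i : ℂ) * (lin v ^ (m i - 1) *
          lin (fun l => D j (v l)))) = C (m i : ℂ) *
          (lin (p i) ^ (n - m i) * (lin v ^ (m i - 1) * lin (fun l => D j (v l)))) := by ring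
      rw [h2, B_C_mul_left] at h1
      rcases Nat.eq_zero_or_pos (m i) with hz | hz
      · have h3 : (m i : ℂ) = 0 := by rw [hz, Nat.cast_zero]
        rw [h3, zero_mul, zero_add] at h1
        exact h1.symm
      · rw [h.2 hz, mul_zero, zero_add] at h1
        exact h1.symm)
    (fun J hJ => by
      obtain ⟨α, c, hα, hα', hrel⟩ := exists_relation J hJ (fun j => fun k => D j (v k)) hv0
      refine ⟨α, m i * c, hα, hα', fun H hH => ?_⟩
      set E : Derivation ℚ ℂ ℂ := ∑ j, α j • D j with hE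
      have hEv : (fun l => E (v l)) = c • v := by
        funext k
        rw [hE, sum_smul_apply]
        have h3 := congrFun hrel k
        rw [Finset.sum_apply] at h3
        exact h3
      have hEp : ∀ k, E (p i k) = 0 := by
        intro k
        rw [hE, sum_smul_apply]
        exact Finset.sum_eq_zero (fun j _ => by rw [hDp, mul_zero])
      rw [D_B, cD_mul, cD_lin_pow_of_fixed hEp, zero_mul, zero_add, cD_lin_pow_eq, hEv, lin_smul]
      rw [add_comm]
      congr 1
      rcases Nat.eq_zero_or_pos (m i) with hz | hz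
      · rw [hz, Nat.cast_zero, C_0, zero_mul, mul_zero, map_zero, LinearMap.zero_apply, zero_mul,
          zero_mul]
      · have h3 : lin (p i) ^ (n - m i) * (C (m i : ℂ) * (lin v ^ (m i - 1) * (C c * lin v))) =
            C (m i * c) * (lin (p i) ^ (n - m i) * lin v ^ m i) := by
          rw [C_mul]
          obtain ⟨k, hk⟩ : ∃ k, m i = k + 1 := ⟨m i - 1, by omega⟩
          rw [hk, Nat.add_sub_cancel, pow_succ (lin v) k]
          ring
        rw [h3, B_C_mul_left])
  obtain ⟨H, hH, hHx⟩ := sep2 (hx.pair hj) (y := Sum.elim m (fun _ => u - 1)) (n := n) (M := M)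
    (fun i => by
      rcases i with i | i
      · exact hM i
      · simp only [Sum.elim_inr]
        omega) hn (num_sep hu huM ha hχ) i hv
  have h4 : H ∈ linSys n p m := ⟨hH.1, fun i => hH.2 (Sum.inl i)⟩
  exact hHx (h2 H h4 (fder_of_vanishTo (hH.2 (Sum.inr 0))) (fder_of_vanishTo (hH.2 (Sum.inr 1))))

/-- no singular point on the flags -/
theorem no_flag (hx : Ind p g) (hM : ∀ i, m i ≤ M) (hu : 2 ≤ u) (huM : u ≤ M)
    (hn : 3 * (M + 2) ^ 2 ≤ n) (ha : M ^ 2 + 2 * M + 3 ≤ u * a) (ha3 : 3 ≤ a)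
    (hχ : ∑ i, (m i + 1).choose 2 + (u * a + 1) = (n + 2).choose 2)
    (hD : ∀ j k, D j (g k) = if j = k then 1 else 0)
    (S : Flags n u (linSys n p m) g D F) {j₀ : Fin a}
    (h : eval (fl (g j₀)) (pderiv 2 F) = 0) : False := by
  have hE : ∀ j, j ≠ j₀ → ∀ H : R3, D j (evl (fl (g j₀)) (pderiv 2 H)) =
      evl (fl (g j₀)) (pderiv 2 (cD (D j) H)) := by
    intro j hj H
    change D j (eval (fl (g j₀)) (pderiv 2 H)) = eval (fl (g j₀)) (pderiv 2 (cD (D j) H))
    rw [D_eval, cD_pderiv, add_eq_left]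
    refine Finset.sum_eq_zero (fun k _ => ?_)
    have h1 : D j (fl (g j₀) k) = 0 := by
      fin_cases k
      · change D j (g j₀) = 0
        rw [hD, if_neg hj]
      · change D j (1 : ℂ) = 0
        exact Derivation.map_one_eq_zero _
      · change D j (0 : ℂ) = 0
        exact map_zero _
    rw [h1, zero_mul]
  set ξ : R3 →ₗ[ℂ] ℂ := (evl (fl (g j₀))).comp (pderiv (R := ℂ) (2 : Fin 3)).toLinearMap with hξ
  have h1 := S.one ξ h j₀ (fun j hj => by
      have h2 := hE j hj F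
      have h3 : evl (fl (g j₀)) (pderiv 2 F) = 0 := h
      rw [h3, map_zero] at h2
      exact h2.symm) (fun j hj H _ => hE j hj H)
  obtain ⟨j₁, hj₁⟩ : ∃ j₁ : Fin a, j₁ ≠ j₀ := by
    have : Nontrivial (Fin a) := Fin.nontrivial_iff_two_le.mpr (by omega)
    exact exists_ne j₀
  obtain ⟨H, hH, hH1, hH2⟩ := sep3 (hx.pair (Ne.symm hj₁)) hM huM hn (by
    have h5 := two_mul_choose_two u
    have h6 : (u + 1) * (u + 2) ≤ 2 * (u * a + 1) := by nlinarith
    omega) (by omega : 1 ≤ u)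
  exact hH2 (h1 H hH hH1)

end member

theorem hom_component_mul {σ : Type} {A : MvPolynomial σ ℂ} {n : ℕ} (hA : A.IsHomogeneous n)
    (k : ℕ) (h : MvPolynomial σ ℂ) :
    homogeneousComponent (n + k) (A * h) = A * homogeneousComponent k h := by
  conv_lhs => rw [← sum_homogeneousComponent h]
  rw [Finset.mul_sum, map_sum]
  by_cases hk : k ∈ Finset.range (h.totalDegree + 1)
  · rw [Finset.sum_eq_single k]
    · exact homogeneousComponent_eq_self (hA.mul (homogeneousComponent_isHomogeneous k h))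
    · intro j _ hj
      rw [homogeneousComponent_of_mem (hA.mul (homogeneousComponent_isHomogeneous j h)), if_neg]
      omega
    · intro hk'
      exact absurd hk hk'
  · have h1 : homogeneousComponent k h = 0 := by
      apply homogeneousComponent_eq_zero
      rw [Finset.mem_range] at hk
      omega
    rw [h1, mul_zero]
    refine Finset.sum_eq_zero (fun j hj => ?_)
    rw [homogeneousComponent_of_mem (hA.mul (homogeneousComponent_isHomogeneous j h)), if_neg]
    rw [Finset.mem_range] at hj hk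
    omega

/-- the cofactor of a homogeneous factor of a homogeneous polynomial is homogeneous -/
theorem isHomogeneous_of_mul {σ : Type} {A g : MvPolynomial σ ℂ} {a k : ℕ}
    (hA : A.IsHomogeneous a) (hA0 : A ≠ 0) (h : (A * g).IsHomogeneous (a + k)) :
    g.IsHomogeneous k := by
  have h1 : ∀ j, j ≠ k → homogeneousComponent j g = 0 := by
    intro j hj
    have h2 := hom_component_mul hA j g
    rw [homogeneousComponent_of_mem h, if_neg (by omega)] at h2
    exact (mul_eq_zero.mp h2.symm).resolve_left hA0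
  have h3 : g = homogeneousComponent k g := by
    conv_lhs => rw [← sum_homogeneousComponent g]
    by_cases hk : k ∈ Finset.range (g.totalDegree + 1)
    · exact Finset.sum_eq_single k (fun j _ hj => h1 j hj) (fun h' => absurd hk h')
    · rw [Finset.sum_eq_zero]
      · symm
        apply homogeneousComponent_eq_zero
        rw [Finset.mem_range] at hk
        omega
      · intro j hj
        apply h1
        rintro rfl
        exact hk hj
  rw [h3]
  exact homogeneousComponent_isHomogeneous k g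

theorem euler_two {f : R2} {k : ℕ} (hf : f.IsHomogeneous k) (y : V2) :
    y 0 * eval y (pderiv 0 f) + y 1 * eval y (pderiv 1 f) = k * eval y f := by
  have h := congrArg (eval y) hf.sum_X_mul_pderiv
  rw [map_sum, Fin.sum_univ_two, map_mul, map_mul, eval_X, eval_X] at h
  rw [h]
  simp

/-- the member of a large generic system with contact order `u` at many points of a line -/
theorem flag_member {ι : Type} [Fintype ι] [DecidableEq ι] {n M u a : ℕ} {p : ι → V3}
    {g : Fin a → ℂ} (hx : Ind p g) {m : ι → ℕ} (hM : ∀ i, m i ≤ M) (hu : 2 ≤ u) (huM : u ≤ M)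
    (hn : 3 * (M + 2) ^ 2 ≤ n) (ha : M ^ 2 + 2 * M + 3 ≤ u * a) (hna : u * a < n)
    (hχ : ∑ i, (m i + 1).choose 2 + (u * a + 1) = (n + 2).choose 2)
    (hlow : linSys (n - 1) p m = ⊥) {F : R3} (hF : F ∈ linSys n p m) (hF0 : F ≠ 0) {s : R2}
    (hs : res F = Gam g ^ u * s) :
    ¬ Bad n p m F ∧ NoDouble s ∧ (∀ j, eval ![g j, 1] s ≠ 0) ∧
      ∀ F' ∈ linSys n p m, (∃ s', res F' = Gam g ^ u * s') → ∃ c : ℂ, F' = C c * F := by
  obtain ⟨D, hDp, hD⟩ := exists_D hx
  have S := flags_of hx hM (by omega : 1 ≤ u) hn hχ hlow hDp hD hF hF0 hs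
  have ha3 : 3 ≤ a := by
    by_contra hcon
    have : u * a ≤ M * 2 := Nat.mul_le_mul huM (by omega)
    nlinarith
  have hMn : M ≤ n := by nlinarith
  have hsg : ∀ j, eval ![g j, 1] s ≠ 0 := by
    intro j h
    exact S.exact j (fder_succ_of_Gam hs j h u (Nat.lt_succ_self u))
  have hsh : s.IsHomogeneous (n - u * a) := by
    have h1 : (Gam g ^ u).IsHomogeneous (a * u) := (Gam_isHomogeneous g).pow u
    apply isHomogeneous_of_mul h1 (pow_ne_zero _ (Gam_ne_zero g))
    rw [← hs, mul_comm a u, Nat.add_sub_cancel' hna.le]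
    exact res_hom hF.1
  refine ⟨?_, ?_, hsg, ?_⟩
  · rintro (⟨x, hx0, hxp, hgrad⟩ | ⟨i, v, hv, hbad⟩)
    · have h0 : eval x F = 0 := by
        have h1 := eval_dir_self hF.1 x
        rw [dir_apply, map_sum, Finset.sum_eq_zero (fun k _ => by rw [map_mul, hgrad, mul_zero])]
          at h1
        have h2 : (n : ℂ) ≠ 0 := by
          rw [Nat.cast_ne_zero]
          omega
        exact (mul_eq_zero.mp h1.symm).resolve_left h2
      by_cases hfl : ∃ j, cr (fl (g j)) x = 0
      · obtain ⟨j, hj⟩ := hfl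
        have hfl0 : fl (g j) ≠ 0 := fun h => by
          have := congrFun h 1
          exact one_ne_zero this
        obtain ⟨c, rfl⟩ := exists_smul_of_cr_eq_zero hfl0 hj
        have hc : c ≠ 0 := by
          rintro rfl
          rw [zero_smul] at hx0
          exact hx0 rfl
        have h1 := hgrad 2
        rw [eval_smul_of_hom hF.1.pderiv] at h1
        exact no_flag hx hM hu huM hn ha ha3 hχ hD S
          ((mul_eq_zero.mp h1).resolve_left (pow_ne_zero _ hc))
      · push Not at hfl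
        refine no_point hx hM hu huM hn ha ha3 hχ S hx0 hxp hfl h0 (fun j => ?_)
        have h1 := D_eval (D j) x F
        rw [h0, map_zero, Finset.sum_eq_zero (fun k _ => by rw [hgrad, mul_zero]), add_zero] at h1
        exact h1.symm
    · exact no_tang hx hM hu huM hn ha ha3 hχ hDp S hv hbad
  · intro y hy
    by_contra hcon
    push Not at hcon
    have hsy : eval y s = 0 := by
      have h1 := euler_two hsh y
      rw [hcon 0, hcon 1, mul_zero, mul_zero, add_zero] at h1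
      have h2 : ((n - u * a : ℕ) : ℂ) ≠ 0 := by
        rw [Nat.cast_ne_zero]
        omega
      exact (mul_eq_zero.mp h1.symm).resolve_left h2
    set x : V3 := ![y 0, y 1, 0] with hxdef
    have hx0 : x ≠ 0 := by
      intro h
      apply hy
      ext k
      fin_cases k
      · exact congrFun h 0
      · exact congrFun h 1
    have hres : ∀ G : R3, eval x G = eval y (res G) := fun G => (eval_res G y).symm
    have h0 : eval x F = 0 := by
      rw [hres, hs, map_mul, hsy, mul_zero]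
    have hd0 : eval x (pderiv 0 F) = 0 := by
      rw [hres, res_pderiv_zero, hs, Derivation.leibniz, map_add, smul_eq_mul, smul_eq_mul,
        map_mul, map_mul, hcon 0, hsy, mul_zero, zero_mul, add_zero]
    have hd1 : eval x (pderiv 1 F) = 0 := by
      rw [hres, res_pderiv_one, hs, Derivation.leibniz, map_add, smul_eq_mul, smul_eq_mul,
        map_mul, map_mul, hcon 1, hsy, mul_zero, zero_mul, add_zero]
    refine no_point hx hM hu huM hn ha ha3 hχ S hx0 ?_ ?_ h0 (fun j => ?_)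
    · intro i hi
      have hpi : p i ≠ 0 := fun h => coord_ne hx.generic i 2 (congrFun h 2)
      obtain ⟨c, hc⟩ := exists_smul_of_cr_eq_zero hpi hi
      have h2 : (0 : ℂ) = c * p i 2 := congrFun hc 2
      have h3 : c = 0 := (mul_eq_zero.mp h2.symm).resolve_right (coord_ne hx.generic i 2)
      apply hx0
      rw [hc, h3, zero_smul]
    · intro j hj
      have hfl0 : fl (g j) ≠ 0 := fun h => by
        have := congrFun h 1
        exact one_ne_zero this
      obtain ⟨c, hc⟩ := exists_smul_of_cr_eq_zero hfl0 hj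
      have hyc : y = c • ![g j, 1] := by
        ext k
        fin_cases k
        · exact congrFun hc 0
        · exact congrFun hc 1
      have hc0 : c ≠ 0 := by
        rintro rfl
        rw [zero_smul] at hyc
        exact hy hyc
      rw [hyc, eval_smul_of_hom hsh] at hsy
      exact hsg j ((mul_eq_zero.mp hsy).resolve_left (pow_ne_zero _ hc0))
    · have h1 := D_eval (D j) x F
      rw [h0, map_zero, Fin.sum_univ_three, hd0, hd1] at h1
      have h2 : D j (x 2) = 0 := by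
        change D j (0 : ℂ) = 0
        exact map_zero _
      rw [h2, mul_zero, mul_zero, zero_mul, add_zero, add_zero, add_zero] at h1
      exact h1.symm
  · rintro F' hF' ⟨s', hs'⟩
    exact S.unique hF' (fun j => fder_of_Gam hs' j)

end Pool.Agent.Work.MP_0421d9_ag.SM
end

section
/-!
Collisions of generic points: flag systems, numerical data.
-/

set_option linter.unusedSectionVars false

namespace Pool.Agent.Work.MP_0421d9_ag.ZC

open MvPolynomial Module SM

/-- contact orders at the directions `(c l, 1)` at the points `P l` -/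
noncomputable def FS {ι Λ : Type} (d : ℕ) (p : ι → V3) (m : ι → ℕ) (P : Λ → V3) (μ : Λ → ℕ)
    (c : Λ → ℂ) (w : Λ → ℕ) : Submodule ℂ R3 where
  carrier := {F | F ∈ linSys d (Sum.elim p P) (Sum.elim m μ) ∧
    ∀ l, ∀ i < w l, fd d (μ l) (P l) (c l) i F = 0}
  zero_mem' := ⟨zero_mem _, fun l i _ => map_zero _⟩
  add_mem' := fun {x y} hx hy => ⟨add_mem hx.1 hy.1, fun l i h => by
    rw [map_add, hx.2 l i h, hy.2 l i h, add_zero]⟩
  smul_mem' := fun r x hx => ⟨Submodule.smul_mem _ _ hx.1, fun l i h => by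
    rw [map_smul, hx.2 l i h, smul_zero]⟩

/-- the numerical data of a collision: `m` the multiplicities of the other points, for every
cluster `l` its multiplicities `v l j`, its critical degree `μ l` and the number `w l` of conditions
on the leading form -/
structure Dat {ι Λ : Type} [Fintype ι] [Fintype Λ] (d M : ℕ) (m : ι → ℕ) (μ w s Mv : Λ → ℕ)
    (v : ∀ l, Fin (s l) → ℕ) : Prop where
  hN : NSp M d
  hm : ∀ i, m i + 1 ≤ M
  hμ : ∀ l, μ l + 1 ≤ M
  hd : ∑ l, (μ l + 2) + 2 * M ≤ d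
  hχ : ∑ i, (m i + 1).choose 2 + ∑ l, (μ l + 1).choose 2 + ∑ l, w l + 1 = (d + 2).choose 2
  room : 5 * M ≤ ∑ l, w l
  hNv : ∀ l, NSp (Mv l) (μ l)
  hNv' : ∀ l, NSp (Mv l) (μ l - 1)
  hv : ∀ l j, v l j + 1 ≤ Mv l
  hvμ : ∀ l, 2 * Mv l ≤ μ l
  crit : ∀ l, ∑ j, (v l j + 1).choose 2 = (μ l + 1).choose 2 + w l
  hw : ∀ l, w l + 2 * Mv l ≤ μ l + 1
  hMv : ∀ l, 1 ≤ Mv l
  two : ∀ l : Λ, ∃ l', l' ≠ l

end Pool.Agent.Work.MP_0421d9_ag.ZC
end

section
/-!
Collisions of generic points: a cluster becomes a flag.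
-/

set_option linter.unusedSectionVars false
set_option linter.unusedVariables false

namespace Pool.Agent.Work.MP_0421d9_ag.ZC

open MvPolynomial Module SM

/-- `β (x + c y, y)` -/
noncomputable def sh (c : ℂ) : R2 →ₐ[ℂ] R2 := aeval ![X 0 + C c * X 1, X 1]

/-- `β (x, t y)` -/
noncomputable def sy (t : ℂ) : R2 →ₐ[ℂ] R2 := aeval ![X 0, C t * X 1]

/-- all monomials are divisible by `x ^ w` -/
def Low (w : ℕ) (g : R2) : Prop := ∀ α, α 0 < w → coeff α g = 0

theorem Low.pderiv {w : ℕ} {g : R2} (h : Low (w + 1) g) : Low w (pderiv 0 g) := by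
  intro α hα
  rw [coeff_pderiv, h _ (by rw [Finsupp.add_apply, Finsupp.single_eq_same]; omega), zero_mul]

theorem Low.iterate {w : ℕ} : ∀ (i : ℕ) {g : R2}, Low (w + i) g →
    Low w ((MvPolynomial.pderiv (0 : Fin 2))^[i] g) := by
  intro i
  induction i with
  | zero => intro g h; exact h
  | succ i ih =>
    intro g h
    rw [Function.iterate_succ_apply]
    exact ih (Low.pderiv h)

theorem Low.eval {w : ℕ} (hw : 1 ≤ w) {g : R2} (h : Low w g) : eval (![0, 1] : V2) g = 0 := by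
  rw [eval_eq]
  refine Finset.sum_eq_zero (fun α _ => ?_)
  by_cases h0 : α 0 = 0
  · rw [h α (by omega), zero_mul]
  · have h1 : (0 : Fin 2) ∈ α.support := Finsupp.mem_support_iff.mpr h0
    rw [Finset.prod_eq_zero h1, mul_zero]
    exact zero_pow h0

theorem sh_C (c a : ℂ) : sh c (C a) = C a := by
  unfold sh
  rw [aeval_C, algebraMap_eq]

theorem pderiv_sh (c : ℂ) (g : R2) : pderiv 0 (sh c g) = sh c (pderiv 0 g) := by
  induction g using MvPolynomial.induction_on with
  | C a => rw [sh_C, pderiv_C, map_zero]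
  | add f g hf hg => rw [map_add, map_add, hf, hg, map_add, map_add]
  | mul_X f k hf =>
    have hX : pderiv 0 (sh c (X k)) = sh c (pderiv 0 (X k : R2)) := by
      unfold sh
      rw [aeval_X]
      fin_cases k
      · change pderiv 0 (X 0 + C c * X 1) = _
        rw [map_add, pderiv_C_mul, pderiv_X_self, pderiv_X_of_ne (by decide), mul_zero, add_zero]
        change _ = aeval _ (pderiv 0 (X 0 : R2))
        rw [pderiv_X_self, map_one]
      · change pderiv 0 (X 1) = aeval _ (pderiv 0 (X 1 : R2))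
        rw [pderiv_X_of_ne (by decide), map_zero]
    rw [map_mul, Derivation.leibniz, hf, hX, Derivation.leibniz, map_add]
    simp only [smul_eq_mul, map_mul]

theorem iterate_pderiv_sh (c : ℂ) (i : ℕ) : ∀ g : R2, (pderiv (0 : Fin 2))^[i] (sh c g) =
    sh c ((pderiv (0 : Fin 2))^[i] g) := by
  induction i with
  | zero => intro g; rfl
  | succ i ih =>
    intro g
    rw [Function.iterate_succ_apply, Function.iterate_succ_apply, pderiv_sh, ih]

theorem eval_sh (c : ℂ) (v : V2) (g : R2) : eval v (sh c g) = eval ![v 0 + c * v 1, v 1] g := by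
  unfold sh
  rw [← MvPolynomial.coe_aeval_eq_eval, ← MvPolynomial.coe_aeval_eq_eval]
  change (aeval v) (aeval _ g) = aeval _ g
  rw [← AlgHom.comp_apply, comp_aeval]
  congr 2
  funext k
  fin_cases k
  · change aeval v (X 0 + C c * X 1) = v 0 + c * v 1
    simp
  · change aeval v (X 1) = v 1
    simp

theorem eval_iterate_sh (c : ℂ) (i : ℕ) (g : R2) :
    eval ![c, 1] ((pderiv (0 : Fin 2))^[i] g) =
      eval ![0, 1] ((pderiv (0 : Fin 2))^[i] (sh c g)) := by
  rw [iterate_pderiv_sh, eval_sh]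
  congr 2
  funext k
  fin_cases k <;> simp

/-- contact order from the coefficients -/
theorem contact_of_low {w : ℕ} {c : ℂ} {g : R2} (h : Low w (sh c g)) {i : ℕ} (hi : i < w) :
    eval ![c, 1] ((pderiv (0 : Fin 2))^[i] g) = 0 := by
  rw [eval_iterate_sh]
  apply Low.eval (w := w - i) (by omega)
  apply Low.iterate
  rwa [Nat.sub_add_cancel hi.le]

theorem coeff_sy (t : ℂ) (g : R2) (α : Fin 2 →₀ ℕ) : coeff α (sy t g) = t ^ α 1 * coeff α g := by
  induction g using MvPolynomial.induction_on' generalizing α with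
  | add f g hf hg => rw [map_add, coeff_add, coeff_add, hf, hg, mul_add]
  | monomial β a =>
    have hβ : β = e2 (β 0) (β 1) := e2_eq.mpr ⟨rfl, rfl⟩
    have h1 : sy t (monomial β a) = monomial β (t ^ β 1 * a) := by
      conv_lhs => rw [hβ, mono2]
      conv_rhs => rw [hβ, mono2]
      unfold sy
      simp only [map_mul, map_pow, aeval_X, aeval_C, algebraMap_eq, Matrix.cons_val_zero,
        Matrix.cons_val_one]
      rw [mul_pow]
      have h2 : (e2 (β 0) (β 1)) 1 = β 1 := rfl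
      rw [h2]
      ring
    rw [h1, coeff_monomial, coeff_monomial]
    split_ifs with h
    · rw [h]
    · rw [mul_zero]

theorem LP_sh (ρ : Pl) {c c' : ℂ} (hc : ρ.L c c') {g g' : R2} (h : ρ.LP g g') :
    ρ.LP (sh c g) (sh c' g') := by
  unfold sh
  apply Pl.LP.aeval h
  intro k
  fin_cases k
  · exact (Pl.LP_X 0).add ((Pl.LP_C hc).mul (Pl.LP_X 1))
  · exact Pl.LP_X 1

/-- the matrix of the coordinates `(x - c y, t y, z)` -/
def mct (c t : ℂ) : Matrix (Fin 3) (Fin 3) ℂ := !![1, -c, 0; 0, t, 0; 0, 0, 1]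

/-- the matrix of `(y, x - b y, z)` -/
def mb (b : ℂ) : Matrix (Fin 3) (Fin 3) ℂ := !![0, 1, 0; 1, -b, 0; 0, 0, 1]

end Pool.Agent.Work.MP_0421d9_ag.ZC
end

section
/-!
The limit curve on the quadric is smooth.
-/

set_option linter.unusedSectionVars false

namespace Pool.Agent.Work.MP_0421d9_ag.SM

open MvPolynomial Module

theorem slim_bf_zero (k : ℕ) : bf k (fun _ => 0) = 0 := by
  unfold bf
  refine Finset.sum_eq_zero (fun i _ => ?_)
  rw [C_0, zero_mul]

theorem limit_smooth {ι : Type} [Fintype ι] [DecidableEq ι] {n M u a β : ℕ} {p : ι → V3}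
    {g : Fin a → ℂ} {c₁ c₂ : Fin (β + 1 + 1) → ℂ} (hx : Ind p (Sum.elim g (Sum.elim c₁ c₂)))
    {m : ι → ℕ} (hM : ∀ i, m i ≤ M) (hu : 2 ≤ u) (huM : u ≤ M)
    (hn : 3 * (M + 2) ^ 2 ≤ n) (ha : M ^ 2 + 2 * M + 3 ≤ u * a) (hna : u * a < n)
    (hχ : ∑ i, (m i + 1).choose 2 + (u * a + 1) = (n + 2).choose 2)
    (hlow : linSys (n - 1) p m = ⊥) {F : R3} (hF : F ∈ linSys n p m) (hF0 : F ≠ 0) {Φ : R4}
    (hΦ : BiHom u β Φ)
    (hs : res F = Gam g ^ u * onC (bf (β + 1) c₁) (bf (β + 1) c₂) Φ) :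
    SmoothΦ Φ ∧ ∀ j, NoDir Φ ![g j, 1] := by
  have hx' : AlgebraicIndependent ℚ (Sum.elim (fun z : ι × Fin 3 => p z.1 z.2)
    (Sum.elim g (Sum.elim c₁ c₂))) := hx
  have hg : Ind p g := by
    have h1 := hx'.comp (Sum.map id Sum.inl) (Function.Injective.sumMap Function.injective_id
      Sum.inl_injective)
    have h2 : Sum.elim (fun z : ι × Fin 3 => p z.1 z.2) (Sum.elim g (Sum.elim c₁ c₂)) ∘
        Sum.map id Sum.inl = Sum.elim (fun z : ι × Fin 3 => p z.1 z.2) g := by
      funext z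
      rcases z with z | z <;> rfl
    rw [h2] at h1
    exact h1
  have hc : AlgebraicIndependent ℚ (Sum.elim c₁ c₂) := by
    have h1 := hx'.comp (fun z => Sum.inr (Sum.inr z))
      (Sum.inr_injective.comp Sum.inr_injective)
    exact h1
  obtain ⟨-, hnd, hgs, huniq⟩ := flag_member hg hM hu huM hn ha hna hχ hlow hF hF0 hs
  set P := bf (β + 1) c₁ with hPdef
  set Q := bf (β + 1) c₂ with hQdef
  set s := onC P Q Φ with hsdef
  have hPh : P.IsHomogeneous (β + 1) := bf_hom _ _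
  have hQh : Q.IsHomogeneous (β + 1) := bf_hom _ _
  have hPQ : NoCommon P Q := bf_noCommon hc
  -- derivations
  have hder : ∀ e₁ e₂ : Fin (β + 1 + 1) → ℂ, ∃ D : Derivation ℚ ℂ ℂ,
      (∀ j, D (g j) = 0) ∧ cD D P = bf (β + 1) e₁ ∧ cD D Q = bf (β + 1) e₂ ∧
      ∃ c : ℂ, cD D s = C c * s := by
    intro e₁ e₂
    obtain ⟨D, hD⟩ := exists_derivation _ hx' (Sum.elim (fun _ => 0)
      (Sum.elim (fun _ => 0) (Sum.elim e₁ e₂)))
    have h1 : ∀ i k, D (p i k) = 0 := fun i k => hD (Sum.inl (i, k))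
    have h2 : ∀ j, D (g j) = 0 := fun j => hD (Sum.inr (Sum.inl j))
    have h3 : ∀ j, D (c₁ j) = e₁ j := fun j => hD (Sum.inr (Sum.inr (Sum.inl j)))
    have h4 : ∀ j, D (c₂ j) = e₂ j := fun j => hD (Sum.inr (Sum.inr (Sum.inr j)))
    refine ⟨D, h2, ?_, ?_, ?_⟩
    · rw [hPdef, cD_bf]
      congr 1
      exact funext h3
    · rw [hQdef, cD_bf]
      congr 1
      exact funext h4
    · have h5 : cD D F ∈ linSys n p m :=
        linSys_cD_mem (fun i => by have := hM i; nlinarith) hF (fun i => Or.inl (h1 i))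
      have h6 : res (cD D F) = Gam g ^ u * cD D s := by
        rw [← cD_res, hs, cD_mul, cD_pow, cD_Gam_fixed h2, mul_zero, mul_zero, zero_mul, zero_add]
      obtain ⟨c, hc'⟩ := huniq _ h5 ⟨_, h6⟩
      refine ⟨c, ?_⟩
      have h7 : res (C c * F) = C c * res F := by
        rw [map_mul]
        congr 1
        unfold res
        rw [algHom_C, algebraMap_eq]
      rw [hc', h7, hs] at h6
      have h8 : Gam g ^ u ≠ 0 := pow_ne_zero _ (Gam_ne_zero g)
      apply mul_left_cancel₀ h8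
      rw [← h6]
      ring
  -- the key statement
  have key : ∀ θ y : V2, θ ≠ 0 → y ≠ 0 → eval (pt θ y) (pderiv 0 Φ) = 0 →
      eval (pt θ y) (pderiv 1 Φ) = 0 →
      ((eval (pt θ y) (pderiv 2 Φ) = 0 ∧ eval (pt θ y) (pderiv 3 Φ) = 0) ∨
        ∃ j, y = ![g j, 1]) → False := by
    intro θ y hθ hy h0 h1 hcase
    have hyD : ∀ D : Derivation ℚ ℂ ℂ, (∀ j, D (g j) = 0) → (∀ k, D (y k) = 0) ∨
        (eval (pt θ y) (pderiv 2 Φ) = 0 ∧ eval (pt θ y) (pderiv 3 Φ) = 0) := by
      intro D hD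
      rcases hcase with h | ⟨j, hj⟩
      · exact Or.inr h
      · left
        intro k
        rw [hj]
        fin_cases k
        · exact hD j
        · exact D.map_one_eq_zero
    by_cases hN : θ 1 * eval y P - θ 0 * eval y Q ≠ 0
    · refine bc (by omega) hPh hQh hPQ hΦ hsdef.symm hnd hθ hy ?_ ?_ h0 h1 hN
      · intro A hA
        obtain ⟨e, rfl⟩ := exists_bf hA
        obtain ⟨D, h2, h3, h4, h5⟩ := hder e (fun _ => 0)
        exact ⟨D, h3, by rw [h4, slim_bf_zero], h5, hyD D h2⟩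
      · intro A hA
        obtain ⟨e, rfl⟩ := exists_bf hA
        obtain ⟨D, h2, h3, h4, h5⟩ := hder (fun _ => 0) e
        exact ⟨D, by rw [h3, slim_bf_zero], h4, h5, hyD D h2⟩
    · push Not at hN
      obtain ⟨c, hc'⟩ : ∃ c : ℂ, (![eval y P, eval y Q] : V2) = c • θ := by
        by_cases hθ0 : θ 0 = 0
        · have hθ1 : θ 1 ≠ 0 := by
            intro h
            apply hθ
            funext k
            fin_cases k
            · exact hθ0
            · exact h
          refine ⟨eval y Q / θ 1, ?_⟩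
          funext k
          fin_cases k
          · rw [hθ0, zero_mul, sub_zero] at hN
            have := (mul_eq_zero.mp hN).resolve_left hθ1
            simp [this, hθ0]
          · simp [hθ1]
        · refine ⟨eval y P / θ 0, ?_⟩
          funext k
          fin_cases k
          · simp [hθ0]
          · have : eval y Q = eval y P / θ 0 * θ 1 := by
              field_simp
              linear_combination -hN
            simpa using this
      have hev : ∀ {u' b' : ℕ} {Ψ : R4}, BiHom u' b' Ψ → eval y (onC P Q Ψ) =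
          c ^ u' * eval (pt θ y) Ψ := by
        intro u' b' Ψ hΨ
        rw [eval_onC, hc']
        have := hΨ.eval_scale c 1 θ y
        rw [one_smul, one_pow, mul_one] at this
        exact this
      rcases hcase with ⟨h2, h3⟩ | ⟨j, hj⟩
      · obtain ⟨k, hk⟩ := hnd y hy
        apply hk
        rw [hsdef, pderiv_onC, map_add, map_add, map_mul, map_mul,
          hev (hΦ.pderiv_left (Or.inl rfl)), hev (hΦ.pderiv_left (Or.inr rfl)), h0, h1]
        have h4 : eval y (onC P Q (pderiv (Fin.natAdd 2 k) Φ)) = 0 := by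
          fin_cases k
          · have h5 := hev (hΦ.pderiv_right (k := 2) (Or.inl rfl))
            rw [h2, mul_zero] at h5
            exact h5
          · have h5 := hev (hΦ.pderiv_right (k := 3) (Or.inr rfl))
            rw [h3, mul_zero] at h5
            exact h5
        rw [h4]
        ring
      · apply hgs j
        rw [← hj, hev hΦ]
        have h2 := hΦ.euler_left θ y
        rw [h0, h1, mul_zero, mul_zero, add_zero] at h2
        have h3 : (u : ℂ) ≠ 0 := by exact_mod_cast (by omega : u ≠ 0)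
        rw [(mul_eq_zero.mp h2.symm).resolve_left h3, mul_zero]
  refine ⟨fun v h01 h23 => ?_, fun j θ hθ => ?_⟩
  · by_contra hcon
    push Not at hcon
    have hv : pt ![v 0, v 1] ![v 2, v 3] = v := by
      funext k
      fin_cases k <;> rfl
    refine key ![v 0, v 1] ![v 2, v 3] ?_ ?_ ?_ ?_ (Or.inl ⟨?_, ?_⟩)
    · intro h
      rcases h01 with h' | h'
      · exact h' (congrFun h 0)
      · exact h' (congrFun h 1)
    · intro h
      rcases h23 with h' | h'
      · exact h' (congrFun h 0)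
      · exact h' (congrFun h 1)
    · rw [hv]; exact hcon 0
    · rw [hv]; exact hcon 1
    · rw [hv]; exact hcon 2
    · rw [hv]; exact hcon 3
  · by_contra hcon
    push Not at hcon
    refine key θ ![g j, 1] hθ ?_ hcon.1 hcon.2 (Or.inr ⟨j, rfl⟩)
    intro h
    exact one_ne_zero (congrFun h 1)

end Pool.Agent.Work.MP_0421d9_ag.SM
end

section
/-!
The pencil on the line and its specialisation.
-/

set_option linter.unusedSectionVars false
set_option linter.unusedVariables false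

namespace Pool.Agent.Work.MP_0421d9_ag.SM

open MvPolynomial Module

/-! ### specialisation of the constructions -/

theorem LP_onC {ρ : Pl} {P P' Q Q' : R2} {Φ Φ' : R4} (hP : ρ.LP P P') (hQ : ρ.LP Q Q')
    (hΦ : ρ.LP Φ Φ') : ρ.LP (onC P Q Φ) (onC P' Q' Φ') := by
  unfold onC
  refine hΦ.aeval (fun i => ?_)
  fin_cases i
  · exact hP
  · exact hQ
  · exact Pl.LP_X 0
  · exact Pl.LP_X 1

theorem LP_res {ρ : Pl} {F G : R3} (h : ρ.LP F G) : ρ.LP (res F) (res G) := by
  unfold res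
  refine h.aeval (fun i => ?_)
  fin_cases i
  · exact Pl.LP_X 0
  · exact Pl.LP_X 1
  · exact Pl.LP_zero

theorem LP_bf {ρ : Pl} {k : ℕ} {c c' : Fin (k + 1) → ℂ} (h : ∀ j, ρ.L (c j) (c' j)) :
    ρ.LP (bf k c) (bf k c') := by
  unfold bf
  exact Pl.LP.sum _ (fun i _ => (((Pl.LP_X 0).pow _).mul ((Pl.LP_X 1).pow _)).C_mul (h i))

theorem LP_Gam {ρ : Pl} {a : ℕ} {g g' : Fin a → ℂ} (h : ∀ j, ρ.L (g j) (g' j)) :
    ρ.LP (Gam g) (Gam g') := by
  unfold Gam
  exact Pl.LP.prod _ (fun j _ => (Pl.LP_X 0).sub ((Pl.LP_X 1).C_mul (h j)))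

theorem BiHom.limit {ρ : Pl} {u b : ℕ} {Φ Φ' : R4} (h : BiHom u b Φ) (hL : ρ.LP Φ Φ') :
    BiHom u b Φ' := by
  intro α hα
  exact h α (MvPolynomial.mem_support_iff.mp
    (hL.support_subset (MvPolynomial.mem_support_iff.mpr hα)))

theorem BiHom.C_mul {u b : ℕ} {Φ : R4} (h : BiHom u b Φ) (c : ℂ) : BiHom u b (C c * Φ) := by
  intro α hα
  rw [coeff_C_mul] at hα
  exact h α (right_ne_zero_of_mul hα)

theorem BiHom.sub {u b : ℕ} {Φ Ψ : R4} (h : BiHom u b Φ) (h' : BiHom u b Ψ) :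
    BiHom u b (Φ - Ψ) := by
  intro α hα
  rw [coeff_sub] at hα
  by_cases h0 : coeff α Φ = 0
  · rw [h0, zero_sub, neg_ne_zero] at hα
    exact h' α hα
  · exact h α h0

theorem onC_C (P Q : R2) (c : ℂ) : onC P Q (C c) = C c := by
  unfold onC
  rw [algHom_C, algebraMap_eq]

theorem LP_pt {ρ : Pl} {θ θ' y y' : V2} (h : ∀ k, ρ.L (θ k) (θ' k)) (h' : ∀ k, ρ.L (y k) (y' k)) :
    ∀ k, ρ.L (pt θ y k) (pt θ' y' k) := by
  intro k
  fin_cases k
  · exact h 0
  · exact h 1
  · exact h' 0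
  · exact h' 1

/-- the point `(c, 1)` specialises -/
theorem L_vec {ρ : Pl} {c c' d d' : ℂ} (h : ρ.L c c') (h' : ρ.L d d') :
    ∀ k, ρ.L ((![c, d] : V2) k) ((![c', d'] : V2) k) := by
  intro k
  fin_cases k
  · exact h
  · exact h'

/-! ### the form with one root removed -/

/-- the binary form with the roots `g k`, `k ≠ j` -/
noncomputable def Gamj {a : ℕ} (g : Fin a → ℂ) (j : Fin a) : R2 :=
  ∏ k ∈ Finset.univ.erase j, (X 0 - C (g k) * X 1)

theorem Gam_eq {a : ℕ} (g : Fin a → ℂ) (j : Fin a) :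
    Gam g = (X 0 - C (g j) * X 1) * Gamj g j := by
  unfold Gam Gamj
  exact (Finset.mul_prod_erase Finset.univ (fun k => (X 0 - C (g k) * X 1 : R2))
    (Finset.mem_univ j)).symm

theorem LP_Gamj {ρ : Pl} {a : ℕ} {g g' : Fin a → ℂ} (h : ∀ j, ρ.L (g j) (g' j)) (j : Fin a) :
    ρ.LP (Gamj g j) (Gamj g' j) := by
  unfold Gamj
  exact Pl.LP.prod _ (fun k _ => (Pl.LP_X 0).sub ((Pl.LP_X 1).C_mul (h k)))

theorem eval_Gamj_ne {a : ℕ} {g : Fin a → ℂ} (hg : Function.Injective g) (j : Fin a) :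
    eval ![g j, 1] (Gamj g j) ≠ 0 := by
  unfold Gamj
  rw [map_prod, Finset.prod_ne_zero_iff]
  intro k hk
  simp only [map_sub, map_mul, eval_X, eval_C, Matrix.cons_val_zero, Matrix.cons_val_one, mul_one]
  rw [sub_ne_zero]
  intro h
  exact (Finset.mem_erase.mp hk).1 (hg h).symm

theorem eval_Gam_near {a : ℕ} (g : Fin a → ℂ) (j : Fin a) (l : ℂ) :
    eval ![g j + l, 1] (Gam g) = l * eval ![g j + l, 1] (Gamj g j) := by
  rw [Gam_eq g j, map_mul]
  congr 1
  simp

theorem eval_pderiv_Gam_mul {a : ℕ} (g : Fin a → ℂ) (j : Fin a) (F : R2) :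
    eval ![g j, 1] (pderiv 0 (Gam g * F)) =
      eval ![g j, 1] (Gamj g j) * eval ![g j, 1] F := by
  rw [Gam_eq g j, mul_assoc, pderiv_mul, map_add, map_mul, map_mul, map_sub, pderiv_X_self,
    pderiv_C_mul, pderiv_X_of_ne (by decide)]
  simp

/-! ### the pencil -/

/-- the pencil: `P = Γ P' + τ P₁`, `Q = Γ Q' + τ Q₁` with generic coefficients; the place `ρ` fixes
everything but `τ` and sends `τ` to `0` -/
structure Pencil {ι : Type} [Fintype ι] (n M u a β : ℕ) (p : ι → V3) (m : ι → ℕ) (g : Fin a → ℂ)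
    (c₁ c₂ : Fin (β + 1 + 1) → ℂ) (e₁ e₂ : Fin (β + 1 + a + 1) → ℂ) (τ : ℂ) (ρ : Pl) : Prop where
  ind : Ind p (Sum.elim g (Sum.elim (Sum.elim c₁ c₂) (Sum.elim (Sum.elim e₁ e₂)
    (fun _ : Unit => τ))))
  hp : ∀ i k, ρ.L (p i k) (p i k)
  hg : ∀ j, ρ.L (g j) (g j)
  hc₁ : ∀ j, ρ.L (c₁ j) (c₁ j)
  hc₂ : ∀ j, ρ.L (c₂ j) (c₂ j)
  he₁ : ∀ j, ρ.L (e₁ j) (e₁ j)
  he₂ : ∀ j, ρ.L (e₂ j) (e₂ j)
  hτ : ρ.L τ 0
  hM : ∀ i, m i ≤ M
  hu : 2 ≤ u
  huM : u ≤ M
  hn : 3 * (M + 2) ^ 2 ≤ n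
  ha : M ^ 2 + 2 * M + 3 ≤ u * a
  hnβ : n + 1 = (u + 1) * (β + 1) + u * a
  hχ : ∑ i, (m i + 1).choose 2 + (u * a + 1) = (n + 2).choose 2
  hlow : linSys (n - 1) p m = ⊥

section pencil

variable {ι : Type} [Fintype ι] [DecidableEq ι] {n M u a β : ℕ} {p : ι → V3} {m : ι → ℕ}
  {g : Fin a → ℂ} {c₁ c₂ : Fin (β + 1 + 1) → ℂ} {e₁ e₂ : Fin (β + 1 + a + 1) → ℂ} {τ : ℂ} {ρ : Pl}

/-- the first form of the pencil -/
noncomputable def pcl (g : Fin a → ℂ) (c : Fin (β + 1 + 1) → ℂ) (e : Fin (β + 1 + a + 1) → ℂ)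
    (τ : ℂ) : R2 := Gam g * bf (β + 1) c + C τ * bf (β + 1 + a) e

theorem pcl_hom (g : Fin a → ℂ) (c : Fin (β + 1 + 1) → ℂ) (e : Fin (β + 1 + a + 1) → ℂ) (τ : ℂ) :
    (pcl g c e τ).IsHomogeneous (β + 1 + a) := by
  unfold pcl
  have h1 := (Gam_hom g).mul (bf_hom (β + 1) c)
  rw [(by omega : a + (β + 1) = β + 1 + a)] at h1
  exact h1.add ((bf_hom _ e).C_mul τ)

theorem eval_pcl (g : Fin a → ℂ) (c : Fin (β + 1 + 1) → ℂ) (e : Fin (β + 1 + a + 1) → ℂ) (τ : ℂ)
    (y : V2) : eval y (pcl g c e τ) =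
      eval y (Gam g) * eval y (bf (β + 1) c) + τ * eval y (bf (β + 1 + a) e) := by
  unfold pcl
  rw [map_add, map_mul, map_mul, eval_C]

theorem LP_pcl {ρ : Pl} {g : Fin a → ℂ} {c : Fin (β + 1 + 1) → ℂ} {e : Fin (β + 1 + a + 1) → ℂ}
    {τ : ℂ} (hg : ∀ j, ρ.L (g j) (g j)) (hc : ∀ j, ρ.L (c j) (c j)) (he : ∀ j, ρ.L (e j) (e j))
    (hτ : ρ.L τ 0) : ρ.LP (pcl g c e τ) (Gam g * bf (β + 1) c) := by
  unfold pcl
  have h := ((LP_Gam hg).mul (LP_bf hc)).add ((LP_bf he).C_mul hτ)
  rwa [C_0, zero_mul, add_zero] at h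

namespace Pencil

theorem hna (S : Pencil n M u a β p m g c₁ c₂ e₁ e₂ τ ρ) : u * a < n := by
  have h1 := S.hnβ
  have h2 := S.hu
  nlinarith

theorem ind_g (S : Pencil n M u a β p m g c₁ c₂ e₁ e₂ τ ρ) : Ind p g := by
  have h1 := AlgebraicIndependent.comp S.ind (Sum.map id Sum.inl)
    (Function.Injective.sumMap Function.injective_id Sum.inl_injective)
  have h2 : Sum.elim (fun z : ι × Fin 3 => p z.1 z.2) (Sum.elim g (Sum.elim (Sum.elim c₁ c₂)
      (Sum.elim (Sum.elim e₁ e₂) (fun _ : Unit => τ)))) ∘ Sum.map id Sum.inl =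
      Sum.elim (fun z : ι × Fin 3 => p z.1 z.2) g := by
    funext z
    rcases z with z | z <;> rfl
  rw [h2] at h1
  exact h1

theorem ind_gc (S : Pencil n M u a β p m g c₁ c₂ e₁ e₂ τ ρ) :
    Ind p (Sum.elim g (Sum.elim c₁ c₂)) := by
  have h1 := AlgebraicIndependent.comp S.ind (Sum.map id (Sum.map id Sum.inl))
    (Function.Injective.sumMap Function.injective_id
      (Function.Injective.sumMap Function.injective_id Sum.inl_injective))
  have h2 : Sum.elim (fun z : ι × Fin 3 => p z.1 z.2) (Sum.elim g (Sum.elim (Sum.elim c₁ c₂)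
      (Sum.elim (Sum.elim e₁ e₂) (fun _ : Unit => τ)))) ∘ Sum.map id (Sum.map id Sum.inl) =
      Sum.elim (fun z : ι × Fin 3 => p z.1 z.2) (Sum.elim g (Sum.elim c₁ c₂)) := by
    funext z
    rcases z with z | z | z <;> rfl
  rw [h2] at h1
  exact h1

theorem ind_c (S : Pencil n M u a β p m g c₁ c₂ e₁ e₂ τ ρ) :
    AlgebraicIndependent ℚ (Sum.elim c₁ c₂) :=
  AlgebraicIndependent.comp S.ind (fun z => Sum.inr (Sum.inr (Sum.inl z)))
    (Sum.inr_injective.comp (Sum.inr_injective.comp Sum.inl_injective))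

theorem ind_det (S : Pencil n M u a β p m g c₁ c₂ e₁ e₂ τ ρ) (j : Fin a) :
    AlgebraicIndependent ℚ (Sum.elim (fun _ : Unit => g j)
      (Sum.elim (Sum.elim c₁ c₂) (Sum.elim e₁ e₂))) := by
  have h1 := AlgebraicIndependent.comp S.ind
    (Sum.elim (fun _ : Unit => Sum.inr (Sum.inl j))
      (fun z => Sum.inr (Sum.inr (Sum.map id Sum.inl z)))) (by
      intro x y hxy
      rcases x with x | x | x <;> rcases y with y | y | y <;> simp_all)
  have h2 : Sum.elim (fun z : ι × Fin 3 => p z.1 z.2) (Sum.elim g (Sum.elim (Sum.elim c₁ c₂)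
      (Sum.elim (Sum.elim e₁ e₂) (fun _ : Unit => τ)))) ∘ (Sum.elim
      (fun _ : Unit => Sum.inr (Sum.inl j)) (fun z => Sum.inr (Sum.inr (Sum.map id Sum.inl z)))) =
      Sum.elim (fun _ : Unit => g j) (Sum.elim (Sum.elim c₁ c₂) (Sum.elim e₁ e₂)) := by
    funext z
    rcases z with z | z | z <;> rfl
  rw [h2] at h1
  exact h1

theorem τ_ne (S : Pencil n M u a β p m g c₁ c₂ e₁ e₂ τ ρ) : τ ≠ 0 :=
  AlgebraicIndependent.ne_zero S.ind (Sum.inr (Sum.inr (Sum.inr (Sum.inr ()))))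

theorem p2_ne (S : Pencil n M u a β p m g c₁ c₂ e₁ e₂ τ ρ) (i : ι) : p i 2 ≠ 0 :=
  AlgebraicIndependent.ne_zero S.ind (Sum.inl (i, 2))

theorem g_inj (S : Pencil n M u a β p m g c₁ c₂ e₁ e₂ τ ρ) : Function.Injective g := by
  intro j k h
  have h1 := (AlgebraicIndependent.injective S.ind) (a₁ := Sum.inr (Sum.inl j))
    (a₂ := Sum.inr (Sum.inl k)) h
  simpa using h1

theorem LP_P (S : Pencil n M u a β p m g c₁ c₂ e₁ e₂ τ ρ) :
    ρ.LP (pcl g c₁ e₁ τ) (Gam g * bf (β + 1) c₁) := LP_pcl S.hg S.hc₁ S.he₁ S.hτ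

theorem LP_Q (S : Pencil n M u a β p m g c₁ c₂ e₁ e₂ τ ρ) :
    ρ.LP (pcl g c₂ e₂ τ) (Gam g * bf (β + 1) c₂) := LP_pcl S.hg S.hc₂ S.he₂ S.hτ

theorem noCommon' (S : Pencil n M u a β p m g c₁ c₂ e₁ e₂ τ ρ) :
    NoCommon (bf (β + 1) c₁) (bf (β + 1) c₂) := bf_noCommon S.ind_c

theorem res_zero (S : Pencil n M u a β p m g c₁ c₂ e₁ e₂ τ ρ) {F : R3} (hF : F ∈ linSys n p m)
    (h : res F = 0) : F = 0 := eq_zero_of_res S.p2_ne S.hlow hF h

/-- injectivity for the limit pencil -/
theorem inj_limit (S : Pencil n M u a β p m g c₁ c₂ e₁ e₂ τ ρ) {Φ : R4} (hΦ : BiHom u β Φ)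
    (h : onC (Gam g * bf (β + 1) c₁) (Gam g * bf (β + 1) c₂) Φ = 0) : Φ = 0 := by
  rw [onC_mul hΦ] at h
  have h1 := (mul_eq_zero.mp h).resolve_left (pow_ne_zero _ (Gam_ne_zero g))
  exact onC_inj (bf_hom _ _) (bf_hom _ _) S.noCommon' hΦ h1

/-- injectivity for the pencil -/
theorem inj (S : Pencil n M u a β p m g c₁ c₂ e₁ e₂ τ ρ) {Φ : R4} (hΦ : BiHom u β Φ)
    (h : onC (pcl g c₁ e₁ τ) (pcl g c₂ e₂ τ) Φ = 0) : Φ = 0 := by
  by_contra hne
  obtain ⟨c, hc, Φb, hΦb, hL⟩ := Pl.exists_scale_poly ρ hne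
  apply hΦb
  apply S.inj_limit ((hΦ.C_mul c).limit hL)
  have h1 := LP_onC S.LP_P S.LP_Q hL
  rw [map_mul, h, mul_zero] at h1
  exact (Pl.LP.fn Pl.LP_zero h1).symm

/-- the limit of a solution -/
theorem limit (S : Pencil n M u a β p m g c₁ c₂ e₁ e₂ τ ρ) {F : R3}
    (hF : F ∈ linSys n p m) (hF0 : F ≠ 0) {Φ : R4} (hΦ : BiHom u β Φ)
    (hs : res F = onC (pcl g c₁ e₁ τ) (pcl g c₂ e₂ τ) Φ) :
    ∃ (c : ℂ) (Fb : R3) (Φb : R4), c ≠ 0 ∧ ρ.LP (C c * F) Fb ∧ ρ.LP (C c * Φ) Φb ∧ Fb ≠ 0 ∧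
      Φb ≠ 0 ∧ Fb ∈ linSys n p m ∧ BiHom u β Φb ∧
      res Fb = Gam g ^ u * onC (bf (β + 1) c₁) (bf (β + 1) c₂) Φb := by
  have hresC : ∀ c : ℂ, res (C c * F) = onC (pcl g c₁ e₁ τ) (pcl g c₂ e₂ τ) (C c * Φ) := by
    intro c
    rw [map_mul, map_mul, hs, onC_C, res_C]
  have hΦ0 : Φ ≠ 0 := by
    intro h
    apply hF0
    apply S.res_zero hF
    rw [hs, h, map_zero]
  obtain ⟨c, hc, Fb, hFb0, hFb⟩ := Pl.exists_scale_poly ρ hF0
  obtain ⟨c', hc', Φb, hΦb0, hΦb⟩ := Pl.exists_scale_poly ρ hΦ0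
  have hFm : C c * F ∈ linSys n p m := by
    rw [← smul_eq_C_mul]
    exact Submodule.smul_mem _ _ hF
  have hFbm : Fb ∈ linSys n p m := hFb.linSys S.hp hFm
  rcases ρ.tot (c / c') with ⟨b, hb⟩ | h0
  · have h1 : ρ.LP (C c * Φ) (C b * Φb) := by
      have h2 := hΦb.C_mul hb
      have h3 : C (c / c') * (C c' * Φ) = C c * Φ := by
        rw [← mul_assoc, ← C_mul, div_mul_cancel₀ _ hc']
      rwa [h3] at h2
    have hBi : BiHom u β (C b * Φb) := (hΦ.C_mul c).limit h1
    have h4 : res Fb = onC (Gam g * bf (β + 1) c₁) (Gam g * bf (β + 1) c₂) (C b * Φb) := by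
      have h5 := LP_res hFb
      rw [hresC] at h5
      exact Pl.LP.fn h5 (LP_onC S.LP_P S.LP_Q h1)
    refine ⟨c, Fb, C b * Φb, hc, hFb, h1, hFb0, ?_, hFbm, hBi, ?_⟩
    · intro h6
      apply hFb0
      apply S.res_zero hFbm
      rw [h4, h6, map_zero]
    · rw [h4, onC_mul hBi]
  · exfalso
    apply hΦb0
    apply S.inj_limit ((hΦ.C_mul c').limit hΦb)
    rw [inv_div] at h0
    have h1 : ρ.LP (C c' * F) 0 := by
      have h2 := hFb.C_mul h0
      have h3 : C (c' / c) * (C c * F) = C c' * F := by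
        rw [← mul_assoc, ← C_mul, div_mul_cancel₀ _ hc]
      rwa [h3, C_0, zero_mul] at h2
    have h2 := LP_res h1
    rw [hresC, map_zero] at h2
    exact Pl.LP.fn (LP_onC S.LP_P S.LP_Q hΦb) h2

/-- properties of the limit -/
theorem member (S : Pencil n M u a β p m g c₁ c₂ e₁ e₂ τ ρ) {F : R3}
    (hF : F ∈ linSys n p m) (hF0 : F ≠ 0) {s : R2} (hs : res F = Gam g ^ u * s) :
    ¬ Bad n p m F ∧ NoDouble s ∧ (∀ j, eval ![g j, 1] s ≠ 0) ∧
      ∀ F' ∈ linSys n p m, (∃ s', res F' = Gam g ^ u * s') → ∃ c : ℂ, F' = C c * F :=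
  flag_member S.ind_g S.hM S.hu S.huM S.hn S.ha S.hna S.hχ S.hlow hF hF0 hs

/-- normalisation of points of the line -/
theorem normal (S : Pencil n M u a β p m g c₁ c₂ e₁ e₂ τ ρ) {y : V2} (hy : y ≠ 0) :
    ∃ c : ℂ, c ≠ 0 ∧ ((∃ yb : V2, yb ≠ 0 ∧ (∀ k, ρ.L ((c • y) k) (yb k)) ∧
      eval yb (Gam g) ≠ 0) ∨ (∃ (j : Fin a) (l : ℂ), c • y = ![g j + l, 1] ∧ ρ.L l 0)) := by
  obtain ⟨c, hc, yb, hyb, hL⟩ := ρ.exists_scale_vec y hy
  by_cases hΓ : eval yb (Gam g) = 0
  · unfold Gam at hΓ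
    rw [map_prod, Finset.prod_eq_zero_iff] at hΓ
    obtain ⟨j, -, hj⟩ := hΓ
    simp only [map_sub, map_mul, eval_X, eval_C] at hj
    have hj' : yb 0 = g j * yb 1 := by linear_combination hj
    have hyb1 : yb 1 ≠ 0 := by
      intro h
      apply hyb
      ext k
      fin_cases k
      · change yb 0 = 0
        rw [hj', h, mul_zero]
      · exact h
    have hy1 : y 1 ≠ 0 := by
      intro h
      apply hyb1
      have h1 := hL 1
      rw [h, mul_zero] at h1
      exact ρ.fn h1 ρ.zero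
    refine ⟨(y 1)⁻¹, inv_ne_zero hy1, Or.inr ⟨j, y 0 / y 1 - g j, ?_, ?_⟩⟩
    · ext k
      fin_cases k
      · simp only [Fin.zero_eta, Pi.smul_apply, smul_eq_mul, Matrix.cons_val_zero]
        field_simp
        ring
      · simp [hy1]
    · have h1 := ρ.div (hL 0) (hL 1) hyb1
      rw [mul_div_mul_left _ _ hc, hj', mul_div_assoc, div_self hyb1, mul_one] at h1
      have h2 := ρ.sub h1 (S.hg j)
      rwa [sub_self] at h2
  · exact ⟨c, hc, Or.inl ⟨yb, hyb, hL, hΓ⟩⟩

/-- independence of the two vectors -/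
theorem det_ne (S : Pencil n M u a β p m g c₁ c₂ e₁ e₂ τ ρ) (j : Fin a) :
    eval ![g j, 1] (bf (β + 1) c₁) * eval ![g j, 1] (bf (β + 1 + a) e₂) -
      eval ![g j, 1] (bf (β + 1) c₂) * eval ![g j, 1] (bf (β + 1 + a) e₁) ≠ 0 :=
  bf_det (S.ind_det j)

theorem noCommon (S : Pencil n M u a β p m g c₁ c₂ e₁ e₂ τ ρ) :
    NoCommon (pcl g c₁ e₁ τ) (pcl g c₂ e₂ τ) := by
  intro y hy
  by_contra hcon
  push Not at hcon
  obtain ⟨h1, h2⟩ := hcon
  obtain ⟨c, hc, ⟨yb, hyb, hL, hΓ⟩ | ⟨j, l, hy', hl⟩⟩ := S.normal hy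
  · have h3 : eval yb (Gam g * bf (β + 1) c₁) = 0 := by
      have h4 := S.LP_P.eval hL
      rw [eval_smul_of_hom (pcl_hom g c₁ e₁ τ), h1, mul_zero] at h4
      exact (ρ.fn ρ.zero h4).symm
    have h3' : eval yb (Gam g * bf (β + 1) c₂) = 0 := by
      have h4 := S.LP_Q.eval hL
      rw [eval_smul_of_hom (pcl_hom g c₂ e₂ τ), h2, mul_zero] at h4
      exact (ρ.fn ρ.zero h4).symm
    rw [map_mul] at h3 h3'
    rcases S.noCommon' yb hyb with h5 | h5
    · exact h5 ((mul_eq_zero.mp h3).resolve_left hΓ)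
    · exact h5 ((mul_eq_zero.mp h3').resolve_left hΓ)
  · have h3 : eval ![g j + l, 1] (pcl g c₁ e₁ τ) = 0 := by
      rw [← hy', eval_smul_of_hom (pcl_hom g c₁ e₁ τ), h1, mul_zero]
    have h4 : eval ![g j + l, 1] (pcl g c₂ e₂ τ) = 0 := by
      rw [← hy', eval_smul_of_hom (pcl_hom g c₂ e₂ τ), h2, mul_zero]
    rw [eval_pcl, eval_Gam_near] at h3 h4
    have h5 : eval ![g j + l, 1] (Gamj g j) * (eval ![g j + l, 1] (bf (β + 1) c₁) *
        eval ![g j + l, 1] (bf (β + 1 + a) e₂) - eval ![g j + l, 1] (bf (β + 1) c₂) *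
        eval ![g j + l, 1] (bf (β + 1 + a) e₁)) = 0 := by
      have h6 : τ * (eval ![g j + l, 1] (Gamj g j) * (eval ![g j + l, 1] (bf (β + 1) c₁) *
          eval ![g j + l, 1] (bf (β + 1 + a) e₂) - eval ![g j + l, 1] (bf (β + 1) c₂) *
          eval ![g j + l, 1] (bf (β + 1 + a) e₁))) = 0 := by
        linear_combination eval ![g j + l, 1] (Gamj g j) *
          (eval ![g j + l, 1] (bf (β + 1) c₁) * h4 - eval ![g j + l, 1] (bf (β + 1) c₂) * h3)
      exact (mul_eq_zero.mp h6).resolve_left S.τ_ne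
    have hLy : ∀ k, ρ.L ((![g j + l, 1] : V2) k) ((![g j, 1] : V2) k) := by
      have h7 := ρ.add (S.hg j) hl
      rw [add_zero] at h7
      exact L_vec h7 ρ.one
    have h8 := ρ.mul ((LP_Gamj S.hg j).eval hLy) (ρ.sub
      (ρ.mul ((LP_bf S.hc₁).eval hLy) ((LP_bf S.he₂).eval hLy))
      (ρ.mul ((LP_bf S.hc₂).eval hLy) ((LP_bf S.he₁).eval hLy)))
    rw [h5] at h8
    have h9 := ρ.fn h8 ρ.zero
    exact mul_ne_zero (eval_Gamj_ne S.g_inj j) (S.det_ne j) h9

theorem not_bad (S : Pencil n M u a β p m g c₁ c₂ e₁ e₂ τ ρ) {F : R3}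
    (hF : F ∈ linSys n p m) (hF0 : F ≠ 0) {Φ : R4} (hΦ : BiHom u β Φ)
    (hs : res F = onC (pcl g c₁ e₁ τ) (pcl g c₂ e₂ τ) Φ) : ¬ Bad n p m F := by
  intro hb
  obtain ⟨c, Fb, Φb, hc, hFb, hΦb, hFb0, hΦb0, hFbm, hBi, hres⟩ := S.limit hF hF0 hΦ hs
  have hFm : C c * F ∈ linSys n p m := by
    rw [← smul_eq_C_mul]
    exact Submodule.smul_mem _ _ hF
  have hb' : Bad n p m (C c * F) := by
    rcases hb with ⟨q, hq0, hq1, hq2⟩ | ⟨i, u, hu, hb1, hb2⟩
    · left
      refine ⟨q, hq0, hq1, fun k => ?_⟩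
      rw [pderiv_C_mul, map_mul, hq2 k, mul_zero]
    · right
      refine ⟨i, u, hu, ?_, fun h w => ?_⟩
      · rw [B_C_mul_right, hb1, mul_zero]
      · rw [B_C_mul_right, hb2 h w, mul_zero]
  have hMn : ∀ i, m i ≤ n := by
    intro i
    have h1 := S.hM i
    have h2 := S.hn
    nlinarith
  have hn1 : 1 ≤ n := by
    have h2 := S.hn
    have h3 : 0 < (M + 2) ^ 2 := by positivity
    omega
  refine (S.member hFbm hFb0 hres).1 (bad_spec ρ hn1 hMn hFm hFb S.hp (fun i h => ?_) hb')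
  exact S.p2_ne i (congrFun h 2)

theorem smooth (S : Pencil n M u a β p m g c₁ c₂ e₁ e₂ τ ρ) {F : R3}
    (hF : F ∈ linSys n p m) (hF0 : F ≠ 0) {Φ : R4} (hΦ : BiHom u β Φ)
    (hs : res F = onC (pcl g c₁ e₁ τ) (pcl g c₂ e₂ τ) Φ) : SmoothΦ Φ := by
  intro v hv hv'
  by_contra hcon
  push Not at hcon
  obtain ⟨c, Fb, Φb, hc, hFb, hΦb, hFb0, hΦb0, hFbm, hBi, hres⟩ := S.limit hF hF0 hΦ hs
  have hθ : (![v 0, v 1] : V2) ≠ 0 := by
    intro h
    rcases hv with h' | h'
    · exact h' (congrFun h 0)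
    · exact h' (congrFun h 1)
  have hy : (![v 2, v 3] : V2) ≠ 0 := by
    intro h
    rcases hv' with h' | h'
    · exact h' (congrFun h 0)
    · exact h' (congrFun h 1)
  obtain ⟨s, hs0, θb, hθb, hLθ⟩ := ρ.exists_scale_vec _ hθ
  obtain ⟨r, hr0, yb, hyb, hLy⟩ := ρ.exists_scale_vec _ hy
  have hpt : pt ![v 0, v 1] ![v 2, v 3] = v := by
    funext k
    fin_cases k <;> rfl
  have h1 : ∀ k, eval (pt (s • ![v 0, v 1]) (r • ![v 2, v 3])) (pderiv k Φ) = 0 := by
    intro k
    fin_cases k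
    · have h2 := (hΦ.pderiv_left (k := 0) (Or.inl rfl)).eval_scale s r ![v 0, v 1] ![v 2, v 3]
      rw [hpt, hcon 0, mul_zero] at h2
      exact h2
    · have h2 := (hΦ.pderiv_left (k := 1) (Or.inr rfl)).eval_scale s r ![v 0, v 1] ![v 2, v 3]
      rw [hpt, hcon 1, mul_zero] at h2
      exact h2
    · have h2 := (hΦ.pderiv_right (k := 2) (Or.inl rfl)).eval_scale s r ![v 0, v 1] ![v 2, v 3]
      rw [hpt, hcon 2, mul_zero] at h2
      exact h2
    · have h2 := (hΦ.pderiv_right (k := 3) (Or.inr rfl)).eval_scale s r ![v 0, v 1] ![v 2, v 3]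
      rw [hpt, hcon 3, mul_zero] at h2
      exact h2
  have h3 : ∀ k, eval (pt θb yb) (pderiv k Φb) = 0 := by
    intro k
    have h4 := (hΦb.pderiv k).eval (LP_pt (θ := s • ![v 0, v 1]) (y := r • ![v 2, v 3]) hLθ hLy)
    rw [pderiv_C_mul, map_mul, h1 k, mul_zero] at h4
    exact (ρ.fn ρ.zero h4).symm
  obtain ⟨k, hk⟩ := (limit_smooth S.ind_gc S.hM S.hu S.huM S.hn S.ha S.hna S.hχ S.hlow hFbm hFb0
    hBi hres).1 (pt θb yb) (by
      by_contra h
      push Not at h
      apply hθb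
      ext k
      fin_cases k
      · exact h.1
      · exact h.2) (by
      by_contra h
      push Not at h
      apply hyb
      ext k
      fin_cases k
      · exact h.1
      · exact h.2)
  exact hk (h3 k)

/-- evaluation at a rescaled point -/
theorem eval_onC_smul {P Q : R2} {u' b' : ℕ} {Ψ : R4} (t : ℂ) (θ y : V2) (hΨ : BiHom u' b' Ψ)
    (ht : ![eval y P, eval y Q] = t • θ) :
    eval y (onC P Q Ψ) = t ^ u' * eval (pt θ y) Ψ := by
  rw [eval_onC, ht]
  have := hΨ.eval_scale t 1 θ y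
  rw [one_smul, one_pow, mul_one] at this
  exact this

theorem deriv_onC_smul {P Q : R2} {u b : ℕ} {Φ : R4} (hu : 1 ≤ u) {t : ℂ} (ht0 : t ≠ 0) {θ y : V2}
    (hΦ : BiHom u b Φ) (ht : ![eval y P, eval y Q] = t • θ)
    (hz : eval y (pderiv 0 (onC P Q Φ)) = 0) :
    eval (pt θ y) (pderiv 0 Φ) * eval y (pderiv 0 P) +
      eval (pt θ y) (pderiv 1 Φ) * eval y (pderiv 0 Q) +
      t * eval (pt θ y) (pderiv 2 Φ) = 0 := by
  obtain ⟨v, rfl⟩ : ∃ v, u = v + 1 := ⟨u - 1, by omega⟩
  have h0 := eval_onC_smul t θ y (hΦ.pderiv_left (k := 0) (Or.inl rfl)) ht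
  have h1 := eval_onC_smul t θ y (hΦ.pderiv_left (k := 1) (Or.inr rfl)) ht
  have h2 := eval_onC_smul t θ y (hΦ.pderiv_right (k := 2) (Or.inl rfl)) ht
  have h4 := congrArg (eval y) (pderiv_onC_sum P Q Φ 0)
  rw [hz, pderiv_X_self, pderiv_X_of_ne (by decide), mul_one, mul_zero, add_zero, map_add, map_add,
    map_mul, map_mul, h0, h1, h2, Nat.add_sub_cancel, pow_succ] at h4
  have h5 : t ^ v * (eval (pt θ y) (pderiv 0 Φ) * eval y (pderiv 0 P) +
      eval (pt θ y) (pderiv 1 Φ) * eval y (pderiv 0 Q) +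
      t * eval (pt θ y) (pderiv 2 Φ)) = 0 := by
    linear_combination -h4
  exact (mul_eq_zero.mp h5).resolve_left (pow_ne_zero _ ht0)

theorem hLy (S : Pencil n M u a β p m g c₁ c₂ e₁ e₂ τ ρ) {j : Fin a} {l : ℂ} (hl : ρ.L l 0) :
    ∀ k, ρ.L ((![g j + l, 1] : V2) k) ((![g j, 1] : V2) k) := by
  have h7 := ρ.add (S.hg j) hl
  rw [add_zero] at h7
  exact L_vec h7 ρ.one

theorem near_finite (S : Pencil n M u a β p m g c₁ c₂ e₁ e₂ τ ρ) {Φ Φb : R4} (hΦ : BiHom u β Φ)
    (hBi : BiHom u β Φb) {c0 : ℂ} (hΦb : ρ.LP (C c0 * Φ) Φb) {j : Fin a}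
    (hdir : NoDir Φb ![g j, 1]) {l w : ℂ} (hl : ρ.L l 0) (hw : ρ.L (l / τ) w)
    (hz0 : eval ![g j + l, 1] (onC (pcl g c₁ e₁ τ) (pcl g c₂ e₂ τ) Φ) = 0)
    (hz : eval ![g j + l, 1] (pderiv 0 (onC (pcl g c₁ e₁ τ) (pcl g c₂ e₂ τ) Φ)) = 0) : False := by
  have hLy := S.hLy (j := j) hl
  have hP0 : eval ![g j + l, 1] (pcl g c₁ e₁ τ) = l * eval ![g j + l, 1] (Gamj g j) *
      eval ![g j + l, 1] (bf (β + 1) c₁) + τ * eval ![g j + l, 1] (bf (β + 1 + a) e₁) := by
    rw [eval_pcl, eval_Gam_near]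
  have hQ0 : eval ![g j + l, 1] (pcl g c₂ e₂ τ) = l * eval ![g j + l, 1] (Gamj g j) *
      eval ![g j + l, 1] (bf (β + 1) c₂) + τ * eval ![g j + l, 1] (bf (β + 1 + a) e₂) := by
    rw [eval_pcl, eval_Gam_near]
  have hLG := (LP_Gamj S.hg j).eval hLy
  have hLc1 := (LP_bf S.hc₁).eval hLy
  have hLc2 := (LP_bf S.hc₂).eval hLy
  have hLe1 := (LP_bf S.he₁).eval hLy
  have hLe2 := (LP_bf S.he₂).eval hLy
  have hGne : eval ![g j, 1] (Gamj g j) ≠ 0 := eval_Gamj_ne S.g_inj j
  have hdet := S.det_ne j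
  have hP1 := eval_pderiv_Gam_mul g j (bf (β + 1) c₁)
  have hQ1 := eval_pderiv_Gam_mul g j (bf (β + 1) c₂)
  have hLP1 := (S.LP_P.pderiv 0).eval hLy
  have hLQ1 := (S.LP_Q.pderiv 0).eval hLy
  rw [hP1] at hLP1
  rw [hQ1] at hLQ1
  generalize hy1 : (![g j + l, 1] : V2) = y1 at *
  generalize hyg : (![g j, 1] : V2) = yg at *
  generalize hG1 : eval y1 (Gamj g j) = G1 at *
  generalize ha1 : eval y1 (bf (β + 1) c₁) = a1 at *
  generalize ha2 : eval y1 (bf (β + 1) c₂) = a2 at *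
  generalize hb1 : eval y1 (bf (β + 1 + a) e₁) = b1 at *
  generalize hb2 : eval y1 (bf (β + 1 + a) e₂) = b2 at *
  generalize hG0 : eval yg (Gamj g j) = G0 at *
  generalize hx1 : eval yg (bf (β + 1) c₁) = x1 at *
  generalize hx2 : eval yg (bf (β + 1) c₂) = x2 at *
  generalize hz1 : eval yg (bf (β + 1 + a) e₁) = z1 at *
  generalize hz2 : eval yg (bf (β + 1 + a) e₂) = z2 at *
  generalize hP : pcl g c₁ e₁ τ = P at *
  generalize hQ : pcl g c₂ e₂ τ = Q at *
  have hτ0 := S.τ_ne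
  have ht : (![eval y1 P, eval y1 Q] : V2) =
      τ • (![l / τ * G1 * a1 + b1, l / τ * G1 * a2 + b2] : V2) := by
    rw [hP0, hQ0]
    ext k
    fin_cases k
    · simp only [Fin.zero_eta, Matrix.cons_val_zero, Pi.smul_apply, smul_eq_mul]
      field_simp
    · simp only [Fin.mk_one, Matrix.cons_val_one, Matrix.cons_val_fin_one, Pi.smul_apply,
        smul_eq_mul]
      field_simp
  have hLθ : ∀ k, ρ.L ((![l / τ * G1 * a1 + b1, l / τ * G1 * a2 + b2] : V2) k)
      ((![w * G0 * x1 + z1, w * G0 * x2 + z2] : V2) k) :=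
    L_vec (ρ.add (ρ.mul (ρ.mul hw hLG) hLc1) hLe1) (ρ.add (ρ.mul (ρ.mul hw hLG) hLc2) hLe2)
  generalize hθ : (![l / τ * G1 * a1 + b1, l / τ * G1 * a2 + b2] : V2) = θ at *
  have hθb0 : (![w * G0 * x1 + z1, w * G0 * x2 + z2] : V2) ≠ 0 := by
    intro h
    apply hdet
    have h1 : w * G0 * x1 + z1 = 0 := congrFun h 0
    have h2 : w * G0 * x2 + z2 = 0 := congrFun h 1
    linear_combination x1 * h2 - x2 * h1
  have hE := hBi.euler_left ![w * G0 * x1 + z1, w * G0 * x2 + z2] yg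
  have e0 : (![w * G0 * x1 + z1, w * G0 * x2 + z2] : V2) 0 = w * G0 * x1 + z1 := rfl
  have e1 : (![w * G0 * x1 + z1, w * G0 * x2 + z2] : V2) 1 = w * G0 * x2 + z2 := rfl
  rw [e0, e1] at hE
  generalize hθb : (![w * G0 * x1 + z1, w * G0 * x2 + z2] : V2) = θb at *
  have h1 : eval (pt θ y1) Φ = 0 := by
    have h2 := eval_onC_smul τ θ y1 hΦ ht
    rw [hz0] at h2
    exact (mul_eq_zero.mp h2.symm).resolve_left (pow_ne_zero _ hτ0)
  have hLpt := LP_pt hLθ hLy
  have h2 : eval (pt θb yg) Φb = 0 := by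
    have h3 := hΦb.eval hLpt
    rw [map_mul, h1, mul_zero] at h3
    exact (ρ.fn ρ.zero h3).symm
  have h3 : eval (pt θ y1) (pderiv 0 Φ) * eval y1 (pderiv 0 P) +
      eval (pt θ y1) (pderiv 1 Φ) * eval y1 (pderiv 0 Q) +
      τ * eval (pt θ y1) (pderiv 2 Φ) = 0 :=
    deriv_onC_smul (by have := S.hu; omega) hτ0 hΦ ht hz
  have h4 : eval (pt θb yg) (pderiv 0 Φb) * (G0 * x1) +
      eval (pt θb yg) (pderiv 1 Φb) * (G0 * x2) = 0 := by
    have h5 := ρ.add (ρ.add (ρ.mul ((hΦb.pderiv 0).eval hLpt) hLP1)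
      (ρ.mul ((hΦb.pderiv 1).eval hLpt) hLQ1)) (ρ.mul S.hτ ((hΦb.pderiv 2).eval hLpt))
    have h6 : eval (pt θ y1) (pderiv 0 (C c0 * Φ)) * eval y1 (pderiv 0 P) +
        eval (pt θ y1) (pderiv 1 (C c0 * Φ)) * eval y1 (pderiv 0 Q) +
        τ * eval (pt θ y1) (pderiv 2 (C c0 * Φ)) = 0 := by
      rw [pderiv_C_mul, pderiv_C_mul, pderiv_C_mul, map_mul, map_mul, map_mul, eval_C]
      linear_combination c0 * h3
    rw [h6] at h5
    have h7 := ρ.fn ρ.zero h5
    rw [zero_mul, add_zero] at h7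
    exact h7.symm
  rw [h2, mul_zero] at hE
  have h6 : G0 * (x1 * z2 - x2 * z1) ≠ 0 := mul_ne_zero hGne hdet
  have h7 : eval (pt θb yg) (pderiv 0 Φb) = 0 := by
    have : G0 * (x1 * z2 - x2 * z1) * eval (pt θb yg) (pderiv 0 Φb) = 0 := by
      linear_combination (w * G0 * x2 + z2) * h4 - (G0 * x2) * hE
    exact (mul_eq_zero.mp this).resolve_left h6
  have h8 : eval (pt θb yg) (pderiv 1 Φb) = 0 := by
    have : G0 * (x1 * z2 - x2 * z1) * eval (pt θb yg) (pderiv 1 Φb) = 0 := by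
      linear_combination (G0 * x1) * hE - (w * G0 * x1 + z1) * h4
    exact (mul_eq_zero.mp this).resolve_left h6
  rcases hdir θb hθb0 with h9 | h9
  · exact h9 h7
  · exact h9 h8

theorem near_infinite (S : Pencil n M u a β p m g c₁ c₂ e₁ e₂ τ ρ) {Φ Φb : R4}
    (hΦ : BiHom u β Φ) (hBi : BiHom u β Φb) {c0 : ℂ} (hΦb : ρ.LP (C c0 * Φ) Φb) {j : Fin a}
    {l : ℂ} (hl : ρ.L l 0) (hl0 : l ≠ 0) (hlim : ρ.L (τ / l) 0)
    (hz0 : eval ![g j + l, 1] (onC (pcl g c₁ e₁ τ) (pcl g c₂ e₂ τ) Φ) = 0) :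
    eval ![g j, 1] (onC (bf (β + 1) c₁) (bf (β + 1) c₂) Φb) = 0 := by
  have hLy := S.hLy (j := j) hl
  have hP0 : eval ![g j + l, 1] (pcl g c₁ e₁ τ) = l * eval ![g j + l, 1] (Gamj g j) *
      eval ![g j + l, 1] (bf (β + 1) c₁) + τ * eval ![g j + l, 1] (bf (β + 1 + a) e₁) := by
    rw [eval_pcl, eval_Gam_near]
  have hQ0 : eval ![g j + l, 1] (pcl g c₂ e₂ τ) = l * eval ![g j + l, 1] (Gamj g j) *
      eval ![g j + l, 1] (bf (β + 1) c₂) + τ * eval ![g j + l, 1] (bf (β + 1 + a) e₂) := by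
    rw [eval_pcl, eval_Gam_near]
  have hLG := (LP_Gamj S.hg j).eval hLy
  have hLc1 := (LP_bf S.hc₁).eval hLy
  have hLc2 := (LP_bf S.hc₂).eval hLy
  have hLe1 := (LP_bf S.he₁).eval hLy
  have hLe2 := (LP_bf S.he₂).eval hLy
  have hGne : eval ![g j, 1] (Gamj g j) ≠ 0 := eval_Gamj_ne S.g_inj j
  rw [eval_onC]
  generalize hy1 : (![g j + l, 1] : V2) = y1 at *
  generalize hyg : (![g j, 1] : V2) = yg at *
  generalize hG1 : eval y1 (Gamj g j) = G1 at *
  generalize ha1 : eval y1 (bf (β + 1) c₁) = a1 at *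
  generalize ha2 : eval y1 (bf (β + 1) c₂) = a2 at *
  generalize hb1 : eval y1 (bf (β + 1 + a) e₁) = b1 at *
  generalize hb2 : eval y1 (bf (β + 1 + a) e₂) = b2 at *
  generalize hG0 : eval yg (Gamj g j) = G0 at *
  generalize hx1 : eval yg (bf (β + 1) c₁) = x1 at *
  generalize hx2 : eval yg (bf (β + 1) c₂) = x2 at *
  generalize hz1 : eval yg (bf (β + 1 + a) e₁) = z1 at *
  generalize hz2 : eval yg (bf (β + 1 + a) e₂) = z2 at *
  generalize hP : pcl g c₁ e₁ τ = P at *
  generalize hQ : pcl g c₂ e₂ τ = Q at *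
  have ht : (![eval y1 P, eval y1 Q] : V2) =
      l • (![G1 * a1 + τ / l * b1, G1 * a2 + τ / l * b2] : V2) := by
    rw [hP0, hQ0]
    ext k
    fin_cases k
    · simp only [Fin.zero_eta, Matrix.cons_val_zero, Pi.smul_apply, smul_eq_mul]
      field_simp
    · simp only [Fin.mk_one, Matrix.cons_val_one, Matrix.cons_val_fin_one, Pi.smul_apply,
        smul_eq_mul]
      field_simp
  have hLθ : ∀ k, ρ.L ((![G1 * a1 + τ / l * b1, G1 * a2 + τ / l * b2] : V2) k)
      ((![G0 * x1 + 0 * z1, G0 * x2 + 0 * z2] : V2) k) :=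
    L_vec (ρ.add (ρ.mul hLG hLc1) (ρ.mul hlim hLe1)) (ρ.add (ρ.mul hLG hLc2) (ρ.mul hlim hLe2))
  rw [zero_mul, zero_mul, add_zero, add_zero] at hLθ
  generalize hθ : (![G1 * a1 + τ / l * b1, G1 * a2 + τ / l * b2] : V2) = θ at *
  have h1 : eval (pt θ y1) Φ = 0 := by
    have h2 := eval_onC_smul l θ y1 hΦ ht
    rw [hz0] at h2
    exact (mul_eq_zero.mp h2.symm).resolve_left (pow_ne_zero _ hl0)
  have h2 : eval (pt ![G0 * x1, G0 * x2] yg) Φb = 0 := by
    have h3 := hΦb.eval (LP_pt hLθ hLy)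
    rw [map_mul, h1, mul_zero] at h3
    exact (ρ.fn ρ.zero h3).symm
  have h3 := hBi.eval_scale G0 1 ![x1, x2] yg
  rw [one_smul, one_pow, mul_one] at h3
  have h4 : (G0 • ![x1, x2] : V2) = ![G0 * x1, G0 * x2] := by
    ext k
    fin_cases k <;> simp
  rw [h4, h2] at h3
  exact (mul_eq_zero.mp h3.symm).resolve_left (pow_ne_zero _ hGne)

theorem one_le_n (S : Pencil n M u a β p m g c₁ c₂ e₁ e₂ τ ρ) : 1 ≤ n := by
  have h2 := S.hn
  have h3 : 0 < (M + 2) ^ 2 := by positivity
  omega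

theorem noDouble (S : Pencil n M u a β p m g c₁ c₂ e₁ e₂ τ ρ) {F : R3}
    (hF : F ∈ linSys n p m) (hF0 : F ≠ 0) {Φ : R4} (hΦ : BiHom u β Φ)
    (hs : res F = onC (pcl g c₁ e₁ τ) (pcl g c₂ e₂ τ) Φ) : NoDouble (res F) := by
  intro y hy
  by_contra hcon
  push Not at hcon
  obtain ⟨c0, Fb, Φb, hc0, hFb, hΦb, hFb0, hΦb0, hFbm, hBi, hres⟩ := S.limit hF hF0 hΦ hs
  obtain ⟨hnb, hnd, hgs, huniq⟩ := S.member hFbm hFb0 hres
  have hdir := (limit_smooth S.ind_gc S.hM S.hu S.huM S.hn S.ha S.hna S.hχ S.hlow hFbm hFb0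
    hBi hres).2
  have hsh : (res F).IsHomogeneous n := res_hom hF.1
  have hn0 : (n : ℂ) ≠ 0 := by
    have h2 := S.one_le_n
    rw [Nat.cast_ne_zero]
    omega
  obtain ⟨c, hc, h⟩ := S.normal hy
  have hz : ∀ k, eval (c • y) (pderiv k (res F)) = 0 := by
    intro k
    rw [eval_smul_of_hom (hsh.pderiv (i := k)), hcon k, mul_zero]
  have hz0 : eval (c • y) (res F) = 0 := by
    have h1 := euler2 hsh (c • y)
    rw [hz 0, hz 1, mul_zero, mul_zero, add_zero] at h1
    exact (mul_eq_zero.mp h1.symm).resolve_left hn0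
  rcases h with ⟨yb, hyb, hL, hΓ⟩ | ⟨j, l, hy', hl⟩
  · have hresC : res (C c0 * F) = C c0 * res F := by rw [map_mul, res_C]
    have h1 : ∀ k, eval yb (pderiv k (res Fb)) = 0 := by
      intro k
      have h2 := ((LP_res hFb).pderiv k).eval hL
      rw [hresC, pderiv_C_mul, map_mul, hz k, mul_zero] at h2
      exact (ρ.fn ρ.zero h2).symm
    have h2 : eval yb (res Fb) = 0 := by
      have h3 := (LP_res hFb).eval hL
      rw [hresC, map_mul, hz0, mul_zero] at h3
      exact (ρ.fn ρ.zero h3).symm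
    have hΓu : eval yb (Gam g) ^ u ≠ 0 := pow_ne_zero _ hΓ
    rw [hres, map_mul, map_pow] at h2
    have h3 := (mul_eq_zero.mp h2).resolve_left hΓu
    obtain ⟨k, hk⟩ := hnd yb hyb
    apply hk
    have h4 := h1 k
    rw [hres, pderiv_mul, map_add, map_mul, map_mul, h3, mul_zero, zero_add, map_pow] at h4
    exact (mul_eq_zero.mp h4).resolve_left hΓu
  · rw [hy'] at hz hz0
    rw [hs] at hz0
    have hz' := hz 0
    rw [hs] at hz'
    by_cases hl0 : l = 0
    · exact S.near_finite hΦ hBi hΦb (hdir j) hl (w := 0) (by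
        rw [hl0, zero_div]
        exact ρ.zero) hz0 hz'
    · rcases ρ.tot (l / τ) with ⟨w, hw⟩ | h
      · exact S.near_finite hΦ hBi hΦb (hdir j) hl hw hz0 hz'
      · rw [inv_div] at h
        exact hgs j (S.near_infinite hΦ hBi hΦb hl hl0 h hz0)

theorem unique (S : Pencil n M u a β p m g c₁ c₂ e₁ e₂ τ ρ) {F : R3}
    (hF : F ∈ linSys n p m) (hF0 : F ≠ 0) {Φ : R4} (hΦ : BiHom u β Φ)
    (hs : res F = onC (pcl g c₁ e₁ τ) (pcl g c₂ e₂ τ) Φ) {F' : R3} (hF' : F' ∈ linSys n p m)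
    {Φ' : R4} (hΦ' : BiHom u β Φ') (hs' : res F' = onC (pcl g c₁ e₁ τ) (pcl g c₂ e₂ τ) Φ') :
    ∃ c : ℂ, F' = C c * F ∧ Φ' = C c * Φ := by
  obtain ⟨c0, Fb, Φb, hc0, hFb, hΦb, hFb0, hΦb0, hFbm, hBi, hres⟩ := S.limit hF hF0 hΦ hs
  obtain ⟨hnb, hnd, hgs, huniq⟩ := S.member hFbm hFb0 hres
  obtain ⟨α, hα⟩ : ∃ α, coeff α Fb ≠ 0 := by
    obtain ⟨α, hα⟩ := MvPolynomial.support_nonempty.mpr hFb0
    exact ⟨α, MvPolynomial.mem_support_iff.mp hα⟩
  have hα' : coeff α F ≠ 0 := by
    intro h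
    apply hα
    have h1 := hFb α
    rw [coeff_C_mul, h, mul_zero] at h1
    exact (ρ.fn ρ.zero h1).symm
  set κ := coeff α F' / coeff α F with hκ
  have hF2m : F' - C κ * F ∈ linSys n p m := by
    apply Submodule.sub_mem _ hF'
    rw [← smul_eq_C_mul]
    exact Submodule.smul_mem _ _ hF
  have hΦ2 : BiHom u β (Φ' - C κ * Φ) := hΦ'.sub (hΦ.C_mul κ)
  have hs2 : res (F' - C κ * F) = onC (pcl g c₁ e₁ τ) (pcl g c₂ e₂ τ) (Φ' - C κ * Φ) := by
    rw [map_sub, map_sub, map_mul, map_mul, hs, hs', res_C, onC_C]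
  have hF2 : F' - C κ * F = 0 := by
    by_contra hne
    obtain ⟨c2, Fb2, Φb2, hc2, hFb2, hΦb2, hFb20, hΦb20, hFb2m, hBi2, hres2⟩ :=
      S.limit hF2m hne hΦ2 hs2
    obtain ⟨d, hd⟩ := huniq Fb2 hFb2m ⟨_, hres2⟩
    have h1 : coeff α (F' - C κ * F) = 0 := by
      rw [coeff_sub, coeff_C_mul, hκ, div_mul_cancel₀ _ hα', sub_self]
    have h2 := hFb2 α
    rw [coeff_C_mul, h1, mul_zero] at h2
    have h3 : coeff α Fb2 = 0 := (ρ.fn ρ.zero h2).symm
    rw [hd, coeff_C_mul] at h3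
    have h4 := (mul_eq_zero.mp h3).resolve_right hα
    apply hFb20
    rw [hd, h4, C_0, zero_mul]
  refine ⟨κ, sub_eq_zero.mp hF2, ?_⟩
  rw [hF2, map_zero] at hs2
  exact sub_eq_zero.mp (S.inj hΦ2 hs2.symm)

end Pencil

end pencil

theorem exists_pencil {ι : Type} [Fintype ι] [DecidableEq ι] {n M u a β : ℕ} {p : ι → V3}
    (hp : AlgebraicIndependent ℚ (fun z : ι × Fin 3 => p z.1 z.2)) {m : ι → ℕ}
    (hM : ∀ i, m i ≤ M) (hu : 2 ≤ u) (huM : u ≤ M)
    (hn : 3 * (M + 2) ^ 2 ≤ n) (ha : M ^ 2 + 2 * M + 3 ≤ u * a)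
    (hnβ : n + 1 = (u + 1) * (β + 1) + u * a)
    (hχ : ∑ i, (m i + 1).choose 2 + (u * a + 1) = (n + 2).choose 2)
    (hlow : linSys (n - 1) p m = ⊥) :
    ∃ (κ : Type) (_ : Fintype κ) (w : κ → ℂ) (P Q : R2), Ind p w ∧
      P.IsHomogeneous (β + 1 + a) ∧ Q.IsHomogeneous (β + 1 + a) ∧ NoCommon P Q ∧ P ≠ 0 ∧
      (∀ D : Derivation ℚ ℂ ℂ, (∀ k, D (w k) = 0) → cD D P = 0 ∧ cD D Q = 0) ∧
      (∀ F ∈ linSys n p m, ∀ Φ, BiHom u β Φ → res F = onC P Q Φ → F ≠ 0 →
        ¬ Bad n p m F ∧ SmoothΦ Φ ∧ NoDouble (res F)) ∧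
      (∀ F ∈ linSys n p m, ∀ Φ, BiHom u β Φ → res F = onC P Q Φ → F ≠ 0 →
        ∀ F' ∈ linSys n p m, ∀ Φ', BiHom u β Φ' → res F' = onC P Q Φ' →
        ∃ c : ℂ, F' = C c * F ∧ Φ' = C c * Φ) := by
  let κ : Type := Fin a ⊕ ((Fin (β + 1 + 1) ⊕ Fin (β + 1 + 1)) ⊕
    ((Fin (β + 1 + a + 1) ⊕ Fin (β + 1 + a + 1)) ⊕ Unit))
  obtain ⟨s, hs⟩ := exists_extension (κ := κ) p hp
  let w : κ → ℂ := fun k => s k 0
  have hind : AlgebraicIndependent ℚ (Sum.elim (fun z : ι × Fin 3 => p z.1 z.2) w) := by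
    have h1 := hs.comp (Sum.elim (fun z : ι × Fin 3 => ((Sum.inl z.1 : ι ⊕ κ), z.2))
      (fun k : κ => ((Sum.inr k : ι ⊕ κ), (0 : Fin 3)))) (by
        intro x y hxy
        rcases x with x | x <;> rcases y with y | y
        · have h2 := (Prod.mk.injEq _ _ _ _).mp hxy
          have h3 := Sum.inl_injective h2.1
          exact congrArg Sum.inl (Prod.ext h3 h2.2)
        · have h2 := (Prod.mk.injEq _ _ _ _).mp hxy
          exact absurd h2.1 Sum.inl_ne_inr
        · have h2 := (Prod.mk.injEq _ _ _ _).mp hxy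
          exact absurd h2.1 Sum.inr_ne_inl
        · have h2 := (Prod.mk.injEq _ _ _ _).mp hxy
          exact congrArg Sum.inr (Sum.inr_injective h2.1))
    have h2 : (fun z : (ι ⊕ κ) × Fin 3 => Sum.elim p s z.1 z.2) ∘
        (Sum.elim (fun z : ι × Fin 3 => ((Sum.inl z.1 : ι ⊕ κ), z.2))
          (fun k : κ => ((Sum.inr k : ι ⊕ κ), (0 : Fin 3)))) =
        Sum.elim (fun z : ι × Fin 3 => p z.1 z.2) w := by
      funext z
      rcases z with z | z <;> rfl
    rw [h2] at h1
    exact h1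
  let g : Fin a → ℂ := fun j => w (Sum.inl j)
  let c₁ : Fin (β + 1 + 1) → ℂ := fun j => w (Sum.inr (Sum.inl (Sum.inl j)))
  let c₂ : Fin (β + 1 + 1) → ℂ := fun j => w (Sum.inr (Sum.inl (Sum.inr j)))
  let e₁ : Fin (β + 1 + a + 1) → ℂ := fun j => w (Sum.inr (Sum.inr (Sum.inl (Sum.inl j))))
  let e₂ : Fin (β + 1 + a + 1) → ℂ := fun j => w (Sum.inr (Sum.inr (Sum.inl (Sum.inr j))))
  let τ : ℂ := w (Sum.inr (Sum.inr (Sum.inr ())))
  have hw : w = Sum.elim g (Sum.elim (Sum.elim c₁ c₂) (Sum.elim (Sum.elim e₁ e₂)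
      (fun _ : Unit => τ))) := by
    funext z
    rcases z with z | (z | z) | (z | z) | z <;> rfl
  obtain ⟨ρ, hρ⟩ := exists_place _ hind (Sum.elim (fun z : ι × Fin 3 => p z.1 z.2)
    (Sum.elim g (Sum.elim (Sum.elim c₁ c₂) (Sum.elim (Sum.elim e₁ e₂) (fun _ : Unit => 0)))))
  have S : Pencil n M u a β p m g c₁ c₂ e₁ e₂ τ ρ := by
    refine ⟨?_, fun i k => hρ (Sum.inl (i, k)), fun j => hρ (Sum.inr (Sum.inl j)),
      fun j => hρ (Sum.inr (Sum.inr (Sum.inl (Sum.inl j)))),
      fun j => hρ (Sum.inr (Sum.inr (Sum.inl (Sum.inr j)))),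
      fun j => hρ (Sum.inr (Sum.inr (Sum.inr (Sum.inl (Sum.inl j))))),
      fun j => hρ (Sum.inr (Sum.inr (Sum.inr (Sum.inl (Sum.inr j))))),
      hρ (Sum.inr (Sum.inr (Sum.inr (Sum.inr ())))), hM, hu, huM, hn, ha, hnβ, hχ, hlow⟩
    rw [← hw]
    exact hind
  refine ⟨κ, inferInstance, w, pcl g c₁ e₁ τ, pcl g c₂ e₂ τ, hind, pcl_hom _ _ _ _,
    pcl_hom _ _ _ _, S.noCommon, ?_, ?_, ?_, ?_⟩
  · intro h
    obtain ⟨y, hy, hy0⟩ := exists_root_form (P := pcl g c₂ e₂ τ) (n := β + 1 + a) (by omega)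
      (pcl_hom _ _ _ _)
    rcases S.noCommon y hy with h1 | h1
    · rw [h, map_zero] at h1
      exact h1 rfl
    · exact h1 hy0
  · intro D hD
    have hg : ∀ j, D (g j) = 0 := fun j => hD _
    have hc₁ : (fun j => D (c₁ j)) = fun _ => 0 := funext (fun j => hD _)
    have hc₂ : (fun j => D (c₂ j)) = fun _ => 0 := funext (fun j => hD _)
    have he₁ : (fun j => D (e₁ j)) = fun _ => 0 := funext (fun j => hD _)
    have he₂ : (fun j => D (e₂ j)) = fun _ => 0 := funext (fun j => hD _)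
    have hτ : D τ = 0 := hD _
    constructor
    · unfold pcl
      rw [map_add, cD_mul, cD_C_mul, cD_Gam_fixed hg, cD_bf, cD_bf, hc₁, he₁, bf_zero, bf_zero, hτ]
      simp
    · unfold pcl
      rw [map_add, cD_mul, cD_C_mul, cD_Gam_fixed hg, cD_bf, cD_bf, hc₂, he₂, bf_zero, bf_zero, hτ]
      simp
  · intro F hF Φ hΦ hs hF0
    exact ⟨S.not_bad hF hF0 hΦ hs, S.smooth hF hF0 hΦ hs, S.noDouble hF hF0 hΦ hs⟩
  · intro F hF Φ hΦ hs hF0 F' hF' Φ' hΦ' hs'
    exact S.unique hF hF0 hΦ hs hF' hΦ' hs'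

end Pool.Agent.Work.MP_0421d9_ag.SM
end

section
/-!
Collisions of generic points: the two places.
-/

set_option linter.unusedSectionVars false
set_option linter.unusedVariables false

namespace Pool.Agent.Work.MP_0421d9_ag.ZC

open MvPolynomial Module SM

theorem alg_inv {S : Subalgebra ℚ ℂ} {a : ℂ} (ha : a ∈ S) : IsAlgebraic S a⁻¹ :=
  (isAlgebraic_algebraMap (⟨a, ha⟩ : S) : IsAlgebraic S a).inv

/-- the place of the collision: the points `p (inr x)` collide to the points `P' x.1` -/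
theorem exists_collision_place {ι Λ : Type} [Finite ι] [Fintype Λ] {s : Λ → ℕ}
    {p : ι ⊕ (Σ l, Fin (s l)) → V3} (hp : GenericPoints p) (p' : ι → V3) (P' : Λ → V3)
    (ζ' : (Σ l, Fin (s l)) → V3) :
    ∃ (ρ : Pl) (τ : ℂ) (P : Λ → V3) (ζ : (Σ l, Fin (s l)) → V3), τ ≠ 0 ∧ ρ.L τ 0 ∧
      (∀ l, P l 2 ≠ 0) ∧ (∀ i k, ρ.L (p (Sum.inl i) k) (p' i k)) ∧
      (∀ l k, ρ.L (P l k) (P' l k)) ∧ (∀ x k, ρ.L (ζ x k) (ζ' x k)) ∧
      ∀ x, p (Sum.inr x) = tv (P x.1) (scv τ (ζ x)) := by
  have hp₁ : AlgebraicIndependent ℚ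
    (fun z : (ι ⊕ (Σ l, Fin (s l))) × Fin 3 => p z.1 z.2) := hp
  obtain ⟨e, he⟩ := algInd_extend (β := (Λ × Fin 3) ⊕ Unit) hp₁
  set P : Λ → V3 := fun l k => e (Sum.inl (l, k)) with hP
  set τ : ℂ := e (Sum.inr ()) with hτ
  have hτ0 : τ ≠ 0 := he.ne_zero (Sum.inr (Sum.inr ()))
  have hP2 : ∀ l, P l 2 ≠ 0 := fun l => he.ne_zero (Sum.inr (Sum.inl (l, 2)))
  set ζ : (Σ l, Fin (s l)) → V3 := fun x => ![p (Sum.inr x) 0 - P x.1 0 * (p (Sum.inr x) 2 / P x.1 2),
    p (Sum.inr x) 1 - P x.1 1 * (p (Sum.inr x) 2 / P x.1 2), τ * (p (Sum.inr x) 2 / P x.1 2)] with hζ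
  set y' : ((ι ⊕ (Σ l, Fin (s l))) × Fin 3) ⊕ ((Λ × Fin 3) ⊕ Unit) → ℂ :=
    Sum.elim (fun z => Sum.elim (fun i => p (Sum.inl i)) ζ z.1 z.2) e with hy'
  have hy : AlgebraicIndependent ℚ y' := by
    apply algInd_exchange he
    set S := Algebra.adjoin ℚ (Set.range y') with hS
    have hgen : ∀ s, y' s ∈ S := fun s => Algebra.subset_adjoin ⟨s, rfl⟩
    have hmem : ∀ a ∈ S, IsAlgebraic S a := fun a ha => isAlgebraic_algebraMap (⟨a, ha⟩ : S)
    rintro (⟨i | x, k⟩ | z)
    · exact hmem _ (hgen (Sum.inl (Sum.inl i, k)))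
    · have hζS : ∀ k, IsAlgebraic S (ζ x k) := fun k => hmem _ (hgen (Sum.inl (Sum.inr x, k)))
      have hPS : ∀ k, IsAlgebraic S (P x.1 k) := fun k => hmem _ (hgen (Sum.inr (Sum.inl (x.1, k))))
      have hτS : IsAlgebraic S τ⁻¹ := alg_inv (hgen (Sum.inr (Sum.inr ())))
      have h2 : IsAlgebraic S (ζ x 2 * τ⁻¹) := (hζS 2).mul hτS
      have hz2 : ζ x 2 * τ⁻¹ = p (Sum.inr x) 2 / P x.1 2 := by
        change τ * (p (Sum.inr x) 2 / P x.1 2) * τ⁻¹ = _
        field_simp
      rw [hz2] at h2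
      change IsAlgebraic S (p (Sum.inr x) k)
      fin_cases k
      · have h3 := (hζS 0).add ((hPS 0).mul h2)
        have h4 : ζ x 0 + P x.1 0 * (p (Sum.inr x) 2 / P x.1 2) = p (Sum.inr x) 0 := by
          change p (Sum.inr x) 0 - P x.1 0 * (p (Sum.inr x) 2 / P x.1 2) +
            P x.1 0 * (p (Sum.inr x) 2 / P x.1 2) = p (Sum.inr x) 0
          ring
        rw [h4] at h3
        exact h3
      · have h3 := (hζS 1).add ((hPS 1).mul h2)
        have h4 : ζ x 1 + P x.1 1 * (p (Sum.inr x) 2 / P x.1 2) = p (Sum.inr x) 1 := by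
          change p (Sum.inr x) 1 - P x.1 1 * (p (Sum.inr x) 2 / P x.1 2) +
            P x.1 1 * (p (Sum.inr x) 2 / P x.1 2) = p (Sum.inr x) 1
          ring
        rw [h4] at h3
        exact h3
      · have h3 := h2.mul (hPS 2)
        have h4 : p (Sum.inr x) 2 / P x.1 2 * P x.1 2 = p (Sum.inr x) 2 :=
          div_mul_cancel₀ _ (hP2 x.1)
        rw [h4] at h3
        exact h3
    · exact hmem _ (hgen (Sum.inr z))
  obtain ⟨ρ, hρ⟩ := exists_place y' hy (Sum.elim (fun z => Sum.elim p' ζ' z.1 z.2)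
    (Sum.elim (fun z => P' z.1 z.2) (fun _ => 0)))
  refine ⟨ρ, τ, P, ζ, hτ0, hρ (Sum.inr (Sum.inr ())), hP2,
    fun i k => hρ (Sum.inl (Sum.inl i, k)), fun l k => hρ (Sum.inr (Sum.inl (l, k))),
    fun x k => hρ (Sum.inl (Sum.inr x, k)), fun x => ?_⟩
  have h2 := hP2 x.1
  funext k
  unfold tv scv
  fin_cases k
  · change p (Sum.inr x) 0 = p (Sum.inr x) 0 - P x.1 0 * (p (Sum.inr x) 2 / P x.1 2) +
      P x.1 0 * (τ * (p (Sum.inr x) 2 / P x.1 2) / τ)
    field_simp
    ring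
  · change p (Sum.inr x) 1 = p (Sum.inr x) 1 - P x.1 1 * (p (Sum.inr x) 2 / P x.1 2) +
      P x.1 1 * (τ * (p (Sum.inr x) 2 / P x.1 2) / τ)
    field_simp
    ring
  · change p (Sum.inr x) 2 = P x.1 2 * (τ * (p (Sum.inr x) 2 / P x.1 2) / τ)
    field_simp

/-- the place which turns the clusters `ζ` into flags; the other coordinates go anywhere -/
theorem exists_flag_place {ι Λ κ : Type} [Finite ι] [Finite κ] [Fintype Λ] {s : Λ → ℕ}
    {p : ι → V3} {ζ : (Σ l, Fin (s l)) → V3} {e : κ → ℂ} (h : Ind (Sum.elim p ζ) e)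
    (p' : ι → V3) (e' : κ → ℂ) (c' : Λ → ℂ) (ζ' : (Σ l, Fin (s l)) → V3) :
    ∃ (ρ : Pl) (t : ℂ) (c : Λ → ℂ) (ξ : (Σ l, Fin (s l)) → V3), t ≠ 0 ∧ ρ.L t 0 ∧
      (∀ i k, ρ.L (p i k) (p' i k)) ∧ (∀ k, ρ.L (e k) (e' k)) ∧ (∀ l, ρ.L (c l) (c' l)) ∧
      (∀ x k, ρ.L (ξ x k) (ζ' x k)) ∧
      ∀ x, ξ x = ![ζ x 0 - c x.1 * ζ x 1, t * ζ x 1, ζ x 2] := by
  have h₁ : AlgebraicIndependent ℚ
    (Sum.elim (fun z : (ι ⊕ (Σ l, Fin (s l))) × Fin 3 => Sum.elim p ζ z.1 z.2) e) := h
  obtain ⟨g, hg⟩ := algInd_extend (β := Λ ⊕ Unit) h₁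
  set c : Λ → ℂ := fun l => g (Sum.inl l) with hc
  set t : ℂ := g (Sum.inr ()) with ht
  have ht0 : t ≠ 0 := hg.ne_zero (Sum.inr (Sum.inr ()))
  set ξ : (Σ l, Fin (s l)) → V3 := fun x => ![ζ x 0 - c x.1 * ζ x 1, t * ζ x 1, ζ x 2] with hξ
  set y' : ((((ι ⊕ (Σ l, Fin (s l))) × Fin 3) ⊕ κ) ⊕ (Λ ⊕ Unit)) → ℂ :=
    Sum.elim (Sum.elim (fun z => Sum.elim p ξ z.1 z.2) e) g with hy'
  have hy : AlgebraicIndependent ℚ y' := by
    apply algInd_exchange hg
    set S := Algebra.adjoin ℚ (Set.range y') with hS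
    have hgen : ∀ s, y' s ∈ S := fun s => Algebra.subset_adjoin ⟨s, rfl⟩
    have hmem : ∀ a ∈ S, IsAlgebraic S a := fun a ha => isAlgebraic_algebraMap (⟨a, ha⟩ : S)
    rintro ((⟨i | x, k⟩ | z) | z)
    · exact hmem _ (hgen (Sum.inl (Sum.inl (Sum.inl i, k))))
    · have hξS : ∀ k, IsAlgebraic S (ξ x k) :=
        fun k => hmem _ (hgen (Sum.inl (Sum.inl (Sum.inr x, k))))
      have hcS : IsAlgebraic S (c x.1) := hmem _ (hgen (Sum.inr (Sum.inl x.1)))
      have htS : IsAlgebraic S t⁻¹ := alg_inv (hgen (Sum.inr (Sum.inr ())))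
      have h1 : IsAlgebraic S (ξ x 1 * t⁻¹) := (hξS 1).mul htS
      have hz1 : ξ x 1 * t⁻¹ = ζ x 1 := by
        change t * ζ x 1 * t⁻¹ = _
        field_simp
      rw [hz1] at h1
      change IsAlgebraic S (ζ x k)
      fin_cases k
      · have h3 := (hξS 0).add (hcS.mul h1)
        have h4 : ξ x 0 + c x.1 * ζ x 1 = ζ x 0 := by
          change ζ x 0 - c x.1 * ζ x 1 + c x.1 * ζ x 1 = ζ x 0
          ring
        rw [h4] at h3
        exact h3
      · exact h1
      · exact hξS 2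
    · exact hmem _ (hgen (Sum.inl (Sum.inr z)))
    · exact hmem _ (hgen (Sum.inr z))
  obtain ⟨ρ, hρ⟩ := exists_place y' hy (Sum.elim (Sum.elim (fun z => Sum.elim p' ζ' z.1 z.2) e')
    (Sum.elim c' (fun _ => 0)))
  exact ⟨ρ, t, c, ξ, ht0, hρ (Sum.inr (Sum.inr ())),
    fun i k => hρ (Sum.inl (Sum.inl (Sum.inl i, k))), fun k => hρ (Sum.inl (Sum.inr k)),
    fun l => hρ (Sum.inr (Sum.inl l)), fun x k => hρ (Sum.inl (Sum.inl (Sum.inr x, k))),
    fun x => rfl⟩

end Pool.Agent.Work.MP_0421d9_ag.ZC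
end

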