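import Mathlib

section
/-!
Choice of the strip: pure arithmetic.
-/

namespace Pool.Agent.Work.MP_0421d9_ag.SM

namespace StripNum

/-- choice of the two parameters for one multiplicity -/
theorem choose_ab {u d A : ℕ} (hu : 1 ≤ u) (h : u * (u + 1) + u + A ≤ d + 1) :
    ∃ a b : ℕ, 1 ≤ b ∧ d + 1 = u + (u + 1) * b + u * a ∧ A ≤ u * a ∧
      u * (u + 1) * (a + b) + 1 ≤ u * (d + 2) + A := by
  obtain ⟨X, hX⟩ : ∃ X, d + 1 = u + A + X := ⟨d + 1 - u - A, by omega⟩
  set q := X / (u + 1) with hq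
  have hqu : u ≤ q := by
    rw [hq, Nat.le_div_iff_mul_le (by omega)]
    omega
  have hq1 : (u + 1) * q ≤ X := Nat.mul_div_le X (u + 1)
  have hq2 : X < (u + 1) * (q + 1) := by
    have := Nat.lt_mul_div_succ X (show 0 < u + 1 by omega)
    exact this
  set s := (q + (d + 1) * (u - 1)) % u with hs
  have hsu : s < u := Nat.mod_lt _ hu
  obtain ⟨b, hb⟩ : ∃ b, q = b + s := ⟨q - s, by omega⟩
  have hb1 : 1 ≤ b := by omega
  have hbq : b ≤ q := by omega
  have hbX : (u + 1) * b ≤ X := le_trans (Nat.mul_le_mul_left _ hbq) hq1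
  have hdvd : (u : ℤ) ∣ (d : ℤ) + 1 - b := by
    have h1 : (s : ℤ) = ((q : ℤ) + (d + 1) * ((u : ℤ) - 1)) % u := by
      rw [hs]
      push_cast [Nat.cast_sub hu]
      ring_nf
    have h2 : (u : ℤ) ∣ ((q : ℤ) + (d + 1) * ((u : ℤ) - 1)) - s := by
      rw [h1]
      exact Int.dvd_self_sub_emod
    have h3 : (d : ℤ) + 1 - b = (d + 1) * u - (((q : ℤ) + (d + 1) * ((u : ℤ) - 1)) - s) := by
      rw [hb]
      push_cast
      ring
    rw [h3]
    exact dvd_sub (dvd_mul_left _ _) h2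
  obtain ⟨e, he⟩ := hdvd
  have hub : (u + 1) * b = u * b + b := by ring
  have he0 : (1 : ℤ) + b ≤ e := by
    have h4 : (u : ℤ) * (1 + b) ≤ u * e := by
      rw [← he]
      have h5 : (u : ℤ) * b + b ≤ X := by exact_mod_cast hub ▸ hbX
      have h6 : (d : ℤ) + 1 = u + A + X := by exact_mod_cast hX
      have h7 : (0 : ℤ) ≤ A := by positivity
      linarith
    have h8 : (0 : ℤ) < u := by exact_mod_cast hu
    exact le_of_mul_le_mul_left h4 h8
  obtain ⟨a, ha⟩ : ∃ a : ℕ, e = 1 + b + a := by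
    obtain ⟨a, ha⟩ := Int.eq_ofNat_of_zero_le (sub_nonneg.mpr he0)
    exact ⟨a, by linarith⟩
  have hmain : (d : ℤ) + 1 = u + (u + 1) * b + u * a := by
    have : (d : ℤ) + 1 = b + u * e := by linarith
    rw [this, ha]
    ring
  have hmainN : d + 1 = u + (u + 1) * b + u * a := by exact_mod_cast hmain
  refine ⟨a, b, hb1, hmainN, ?_, ?_⟩
  · omega
  · have h9 : (u + 1) * (b + u) > X := by
      have : q + 1 ≤ b + u := by omega
      exact lt_of_lt_of_le hq2 (Nat.mul_le_mul_left _ this)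
    have h9' : (X : ℤ) + 1 ≤ (u + 1) * (b + u) := by exact_mod_cast h9
    have h6 : (d : ℤ) + 1 = u + A + X := by exact_mod_cast hX
    have goal' : (u : ℤ) * (u + 1) * (a + b) + 1 ≤ u * (d + 2) + A := by
      have h10 : (u : ℤ) * (u + 1) * (a + b) = (u + 1) * (d + 1 - u - b) := by
        rw [hmain]
        ring
      rw [h10]
      nlinarith
    exact_mod_cast goal'

theorem two_choose (n : ℕ) : 2 * (n + 1).choose 2 = n * (n + 1) := by
  rw [Nat.choose_two_right, Nat.add_sub_cancel, mul_comm (n + 1) n]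
  exact Nat.mul_div_cancel' (Nat.even_mul_succ_self n).two_dvd

theorem two_sum (K D B : ℕ) :
    2 * ∑ i ∈ Finset.range (K + 1), ((i + 2) * D + B) =
      D * ((K + 1) * (K + 4)) + 2 * ((K + 1) * B) := by
  induction K with
  | zero => simp; ring
  | succ K ih =>
    rw [Finset.sum_range_succ, mul_add, ih]
    ring

end StripNum

open StripNum in
theorem exists_strip {r d M : ℕ} {m : Fin r → ℕ} (hM : ∀ i, m i ≤ M) (hM2 : 2 ≤ M)
    (hd : 3 * (M + 2) ^ 2 + M ≤ d)
    (hχ : ∑ i, (m i + 1).choose 2 + 1 = (d + 2).choose 2)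
    (h1 : (Finset.univ.filter (fun i => m i = 1)).card ≤ M) :
    ∃ u a β n : ℕ, 2 ≤ u ∧ u ≤ M ∧ M ^ 2 + 2 * M + 3 ≤ u * a ∧ d = n + u ∧
      n + 1 = (u + 1) * (β + 1) + u * a ∧
      2 * (β + 1 + a) + 1 ≤ (Finset.univ.filter (fun i => m i = u)).card := by
  by_contra hcon
  push Not at hcon
  have key : ∀ u, 2 ≤ u → u ≤ M →
      (Finset.univ.filter (fun i => m i = u)).card * (u + 1).choose 2 ≤
        u * (d + 2) + (M ^ 2 + 2 * M + 2) := by
    intro u hu huM
    have hbig : u * (u + 1) + u + (M ^ 2 + 2 * M + 3) ≤ d + 1 := by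
      have : u * (u + 1) ≤ M * (M + 1) := Nat.mul_le_mul huM (by omega)
      nlinarith
    obtain ⟨a, b, hb, hab, hA, hle⟩ := choose_ab (by omega) hbig
    obtain ⟨β, rfl⟩ : ∃ β, b = β + 1 := ⟨b - 1, by omega⟩
    obtain ⟨n, hn⟩ : ∃ n, d = n + u := ⟨d - u, by
      have : M ≤ d := by nlinarith
      omega⟩
    have h2 := hcon u a β n hu huM hA hn (by omega)
    have h3 : (Finset.univ.filter (fun i => m i = u)).card ≤ 2 * (β + 1 + a) := by omega
    have h4 := two_choose u
    have h5 : 2 * ((Finset.univ.filter (fun i => m i = u)).card * (u + 1).choose 2) ≤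
        2 * (u * (d + 2) + (M ^ 2 + 2 * M + 2)) := by
      calc 2 * ((Finset.univ.filter (fun i => m i = u)).card * (u + 1).choose 2)
          = (Finset.univ.filter (fun i => m i = u)).card * (2 * (u + 1).choose 2) := by ring
        _ = (Finset.univ.filter (fun i => m i = u)).card * (u * (u + 1)) := by rw [h4]
        _ ≤ (2 * (β + 1 + a)) * (u * (u + 1)) := Nat.mul_le_mul_right _ h3
        _ = 2 * (u * (u + 1) * (a + (β + 1))) := by ring
        _ ≤ 2 * (u * (d + 2) + (M ^ 2 + 2 * M + 2)) := Nat.mul_le_mul_left _ (by omega)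
    omega
  have hsum : ∑ i, (m i + 1).choose 2 = ∑ u ∈ Finset.range (M + 1),
      (Finset.univ.filter (fun i => m i = u)).card * (u + 1).choose 2 := by
    rw [← Finset.sum_fiberwise_of_maps_to (s := Finset.univ) (t := Finset.range (M + 1)) (g := m)
      (fun i _ => Finset.mem_range.mpr (Nat.lt_succ_of_le (hM i)))]
    apply Finset.sum_congr rfl
    intro u _
    rw [Finset.sum_congr rfl (g := fun _ => (u + 1).choose 2)]
    · rw [Finset.sum_const, smul_eq_mul]
    · intro i hi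
      rw [(Finset.mem_filter.mp hi).2]
  obtain ⟨K, rfl⟩ : ∃ K, M = K + 2 := ⟨M - 2, by omega⟩
  have hle : ∑ u ∈ Finset.range (K + 2 + 1),
      (Finset.univ.filter (fun i => m i = u)).card * (u + 1).choose 2 ≤
      ∑ i ∈ Finset.range (K + 1), ((i + 2) * (d + 2) + ((K + 2) ^ 2 + 2 * (K + 2) + 2)) +
        (K + 2) := by
    rw [Finset.sum_range_succ', Finset.sum_range_succ']
    have hz : (Finset.univ.filter (fun i => m i = 0)).card * (0 + 1).choose 2 = 0 := by simp
    have ho : (Finset.univ.filter (fun i => m i = 0 + 1)).card * (0 + 1 + 1).choose 2 ≤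
        K + 2 := by simpa using h1
    rw [hz, add_zero]
    refine Nat.add_le_add (Finset.sum_le_sum fun i hi => ?_) ho
    have hi' := Finset.mem_range.mp hi
    exact key (i + 1 + 1) (by omega) (by omega)
  have h2s := two_sum K (d + 2) ((K + 2) ^ 2 + 2 * (K + 2) + 2)
  have h2c := two_choose (d + 1)
  have htot : (d + 1) * (d + 2) ≤ (d + 2) * ((K + 1) * (K + 4)) +
      2 * ((K + 1) * ((K + 2) ^ 2 + 2 * (K + 2) + 2)) + 2 * (K + 2) + 2 := by
    have e : d + 1 + 1 = d + 2 := rfl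
    rw [e] at h2c
    rw [← h2c, ← hχ, hsum]
    omega
  obtain ⟨f, hf⟩ : ∃ f, d = 3 * (K + 2 + 2) ^ 2 + (K + 2) + f :=
    ⟨d - (3 * (K + 2 + 2) ^ 2 + (K + 2)), by omega⟩
  rw [hf] at htot
  revert htot
  rw [imp_false, not_le]
  ring_nf
  nlinarith [Nat.zero_le (K * f), Nat.zero_le (K ^ 2 * f), Nat.zero_le (f ^ 2), Nat.zero_le K,
    Nat.zero_le f, Nat.zero_le (K ^ 2), Nat.zero_le (K ^ 3), Nat.zero_le (K ^ 4)]

end Pool.Agent.Work.MP_0421d9_ag.SM
end

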