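import Pool.Agent.Work.Z0421M.C09
import Pool.Agent.Work.Z0421M.C10
import Pool.Agent.Work.Z0421M.C11
import Pool.Agent.Work.Z0421M.C45

section
/-!
Collisions of generic points: a cluster becomes a flag (proof).
-/

set_option linter.unusedSectionVars false
set_option linter.unusedVariables false
set_option linter.unusedSimpArgs false

namespace Pool.Agent.Work.MP_0421d9_ag.ZC

open MvPolynomial Module SM LD

theorem fder_eq_res (c : ℂ) (i : ℕ) (H : R3) :
    fder c i H = eval ![c, 1] ((pderiv (0 : Fin 2))^[i] (res H)) := by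
  rw [← res_pderiv_zero_iterate, eval_res]
  rfl

/-- exchange of the variables -/
noncomputable def sw : R2 →ₐ[ℂ] R2 := aeval ![X 1, X 0]

theorem coeff_sw (g : R2) (α : Fin 2 →₀ ℕ) : coeff α (sw g) = coeff (e2 (α 1) (α 0)) g := by
  induction g using MvPolynomial.induction_on' generalizing α with
  | add f g hf hg => rw [map_add, coeff_add, coeff_add, hf, hg]
  | monomial β a =>
    have h1 : sw (monomial β a) = monomial (e2 (β 1) (β 0)) a := by
      have hβ : β = e2 (β 0) (β 1) := e2_eq.mpr ⟨rfl, rfl⟩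
      conv_lhs => rw [hβ, mono2]
      rw [mono2]
      unfold sw
      simp only [map_mul, map_pow, aeval_X, aeval_C, algebraMap_eq, Matrix.cons_val_zero,
        Matrix.cons_val_one]
      ring
    rw [h1, coeff_monomial, coeff_monomial]
    by_cases h : β = e2 (α 1) (α 0)
    · have h2 : e2 (β 1) (β 0) = α := by
        rw [h]
        exact (e2_eq.mpr ⟨rfl, rfl⟩).symm
      rw [if_pos h2, if_pos h]
    · have h2 : e2 (β 1) (β 0) ≠ α := by
        intro h3
        apply h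
        rw [← h3]
        exact e2_eq.mpr ⟨rfl, rfl⟩
      rw [if_neg h2, if_neg h]

theorem lin3 (a b c : ℂ) : lin (![a, b, c] : V3) = C a * X 0 + C b * X 1 + C c * X 2 := by
  unfold lin
  rw [Fin.sum_univ_three]
  rfl

theorem sh_res_mct (c t : ℂ) (F : R3) : sh c (res (subM (mct c t) F)) = sy t (res F) := by
  have h : (((sh c).comp res).comp (subM (mct c t))) = (sy t).comp res := by
    apply MvPolynomial.algHom_ext
    intro k
    simp only [AlgHom.comp_apply, subM_X]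
    fin_cases k
    · change sh c (res (lin (![1, -c, 0] : V3))) = sy t (res (X 0))
      rw [lin3]
      simp only [map_add, map_mul, res_X0, res_X1, res_X2, res_C, sh_C, mul_zero, add_zero, map_zero]
      unfold sh sy
      simp only [aeval_X, Matrix.cons_val_zero, Matrix.cons_val_one, C_1, C_neg]
      ring
    · change sh c (res (lin (![0, t, 0] : V3))) = sy t (res (X 1))
      rw [lin3]
      simp only [map_add, map_mul, res_X0, res_X1, res_X2, res_C, sh_C, mul_zero, add_zero, map_zero,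
        zero_mul, zero_add]
      unfold sh sy
      simp only [aeval_X, Matrix.cons_val_zero, Matrix.cons_val_one]
    · change sh c (res (lin (![0, 0, 1] : V3))) = sy t (res (X 2))
      rw [lin3]
      simp only [map_add, map_mul, res_X0, res_X1, res_X2, res_C, sh_C, mul_zero, add_zero, map_zero,
        zero_mul]
  have := DFunLike.congr_fun h F
  exact this

theorem sh_res_mb (b : ℂ) (F : R3) : sh b (res (subM (mb b) F)) = sw (res F) := by
  have h : (((sh b).comp res).comp (subM (mb b))) = sw.comp res := by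
    apply MvPolynomial.algHom_ext
    intro k
    simp only [AlgHom.comp_apply, subM_X]
    fin_cases k
    · change sh b (res (lin (![0, 1, 0] : V3))) = sw (res (X 0))
      rw [lin3]
      simp only [map_add, map_mul, res_X0, res_X1, res_X2, res_C, sh_C, mul_zero, add_zero, map_zero,
        zero_mul, zero_add]
      unfold sh sw
      simp only [aeval_X, Matrix.cons_val_zero, Matrix.cons_val_one, C_1, one_mul]
    · change sh b (res (lin (![1, -b, 0] : V3))) = sw (res (X 1))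
      rw [lin3]
      simp only [map_add, map_mul, res_X0, res_X1, res_X2, res_C, sh_C, mul_zero, add_zero, map_zero,
        zero_mul, zero_add]
      unfold sh sw
      simp only [aeval_X, Matrix.cons_val_zero, Matrix.cons_val_one, C_1, C_neg]
      ring
    · change sh b (res (lin (![0, 0, 1] : V3))) = sw (res (X 2))
      rw [lin3]
      simp only [map_add, map_mul, res_X0, res_X1, res_X2, res_C, sh_C, mul_zero, add_zero, map_zero,
        zero_mul]
  have := DFunLike.congr_fun h F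
  exact this

/-- the inverse of `mct` -/
noncomputable def mct' (c t : ℂ) : Matrix (Fin 3) (Fin 3) ℂ := !![1, c / t, 0; 0, 1 / t, 0; 0, 0, 1]

theorem mct'_mul {c t : ℂ} (ht : t ≠ 0) : mct' c t * mct c t = 1 := by
  unfold mct mct'
  ext i j
  fin_cases i <;> fin_cases j <;> simp [Matrix.mul_apply, Fin.sum_univ_three, ht]

/-- the inverse of `mb` -/
def mb' (b : ℂ) : Matrix (Fin 3) (Fin 3) ℂ := !![b, 1, 0; 1, 0, 0; 0, 0, 1]

theorem mb_mul (b : ℂ) : mb b * mb' b = 1 := by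
  unfold mb mb'
  ext i j
  fin_cases i <;> fin_cases j <;> simp [Matrix.mul_apply, Fin.sum_univ_three]

theorem mb_mulVec (b : ℂ) (v : V3) : (mb b).mulVec v = ![v 1, v 0 - b * v 1, v 2] := by
  funext i
  unfold mb
  fin_cases i <;> simp [Matrix.mulVec, dotProduct, Fin.sum_univ_three]
  ring

theorem mct'_mulVec {c t : ℂ} (ht : t ≠ 0) (v : V3) :
    (mct' c t).mulVec ![v 0 - c * v 1, t * v 1, v 2] = v := by
  funext i
  unfold mct'
  fin_cases i <;> simp [Matrix.mulVec, dotProduct, Fin.sum_univ_three, ht]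
  field_simp
  ring

end Pool.Agent.Work.MP_0421d9_ag.ZC
end

section
/-!
The limit of the degeneration: the rigid member is not bad.
-/

set_option linter.unusedSectionVars false
set_option linter.unusedVariables false

namespace Pool.Agent.Work.MP_0421d9_ag.SM

open MvPolynomial Module

/-- a place which moves the points `p (inr j)` to prescribed points infinitely near to the line
`z = 0` -/
theorem exists_strip_place {ι : Type} [Finite ι] {N : ℕ} {p : ι ⊕ Fin N → V3}
    (hp : AlgebraicIndependent ℚ (fun z : (ι ⊕ Fin N) × Fin 3 => p z.1 z.2)) (x ζ : Fin N → ℂ) :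
    ∃ (ρ : Pl) (τ : ℂ), τ ≠ 0 ∧ ρ.L τ 0 ∧
      (∀ i k, ρ.L (p (Sum.inl i) k) (p (Sum.inl i) k)) ∧
      ∀ j, ρ.L (p (Sum.inr j) 0) (x j) ∧ ρ.L (p (Sum.inr j) 1) 1 ∧
        ρ.L (p (Sum.inr j) 2 / τ) (ζ j) := by
  let f : ((ι × Fin 3) ⊕ (Fin N × Fin 2)) ⊕ Fin N → (ι ⊕ Fin N) × Fin 3 :=
    Sum.elim (Sum.elim (fun z => (Sum.inl z.1, z.2)) (fun z => (Sum.inr z.1, Fin.castSucc z.2)))
      (fun j => (Sum.inr j, 2))
  have hf : Function.Injective f := by
    rintro ((⟨i, k⟩ | ⟨i, k⟩) | i) ((⟨j, l⟩ | ⟨j, l⟩) | j) h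
    · simp only [f, Sum.elim_inl, Prod.mk.injEq, Sum.inl.injEq] at h
      rw [h.1, h.2]
    · simp [f] at h
    · simp [f] at h
    · simp [f] at h
    · simp only [f, Sum.elim_inl, Sum.elim_inr, Prod.mk.injEq, Sum.inr.injEq,
        Fin.castSucc_inj] at h
      rw [h.1, h.2]
    · simp only [f, Sum.elim_inl, Sum.elim_inr, Prod.mk.injEq] at h
      have := congrArg Fin.val h.2
      fin_cases k <;> simp at this
    · simp [f] at h
    · simp only [f, Sum.elim_inl, Sum.elim_inr, Prod.mk.injEq] at h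
      have := congrArg Fin.val h.2
      fin_cases l <;> simp at this
    · simp only [f, Sum.elim_inr, Prod.mk.injEq, Sum.inr.injEq, and_true] at h
      rw [h]
  set x₁ : (ι × Fin 3) ⊕ (Fin N × Fin 2) → ℂ := Sum.elim (fun z => p (Sum.inl z.1) z.2)
    (fun z => p (Sum.inr z.1) (Fin.castSucc z.2)) with hx₁
  set z₁ : Fin N → ℂ := fun j => p (Sum.inr j) 2 with hz₁
  have h1 : AlgebraicIndependent ℚ (Sum.elim x₁ z₁) := by
    have h := hp.comp f hf
    have h' : (fun z : (ι ⊕ Fin N) × Fin 3 => p z.1 z.2) ∘ f = Sum.elim x₁ z₁ := by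
      funext z
      rcases z with (z | z) | z <;> rfl
    rwa [h'] at h
  obtain ⟨w, hw⟩ := algInd_extend (β := Unit) h1
  set τ : ℂ := w () with hτ
  have hw' : AlgebraicIndependent ℚ (Sum.elim (Sum.elim x₁ z₁) (fun _ : Unit => τ)) := hw
  have hτ0 : τ ≠ 0 := hw'.ne_zero (Sum.inr ())
  obtain ⟨ρ, hρ⟩ := exists_place _ (algInd_div x₁ z₁ τ hw')
    (Sum.elim (Sum.elim (Sum.elim (fun z => p (Sum.inl z.1) z.2)
      (fun z => if z.2 = 0 then x z.1 else 1)) ζ) (fun _ => 0))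
  refine ⟨ρ, τ, hτ0, hρ (Sum.inr ()), fun i k => hρ (Sum.inl (Sum.inl (Sum.inl (i, k)))),
    fun j => ⟨?_, ?_, ?_⟩⟩
  · exact hρ (Sum.inl (Sum.inl (Sum.inr (j, 0))))
  · exact hρ (Sum.inl (Sum.inl (Sum.inr (j, 1))))
  · exact hρ (Sum.inl (Sum.inr j))

theorem pderiv_emb_one (P : R2) : pderiv 1 (emb P) = emb (pderiv 1 P) := by
  unfold emb
  rw [pderiv_aeval, Fin.sum_univ_two]
  simp

theorem cr_smul_right (a b : V3) (c : ℂ) : cr a (c • b) = c • cr a b := by
  ext k
  fin_cases k <;> simp [cr] <;> ring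

theorem badDir_C_mul {d m : ℕ} {F : R3} {p v : V3} (h : BadDir d F p m v) (c : ℂ) :
    BadDir d (C c * F) p m v := by
  refine ⟨?_, fun hm w => ?_⟩
  · rw [B_C_mul_right, h.1, mul_zero]
  · rw [B_C_mul_right, h.2 hm w, mul_zero]

theorem linSys_C_mul {ι : Type} {d : ℕ} {p : ι → V3} {m : ι → ℕ} {F : R3}
    (h : F ∈ linSys d p m) (c : ℂ) : C c * F ∈ linSys d p m := by
  rw [← smul_eq_C_mul]
  exact Submodule.smul_mem _ c h

theorem vanishTo_C_mul {F : R3} {a : V3} {m : ℕ} (h : VanishTo F a m) (c : ℂ) :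
    VanishTo (C c * F) a m := by
  rw [← smul_eq_C_mul]
  exact vanishTo_smul c h

theorem sing_C_mul {F : R3} {q : V3} (h : ∀ k, eval q (pderiv k F) = 0) (c : ℂ) :
    ∀ k, eval q (pderiv k (C c * F)) = 0 := by
  intro k
  rw [pderiv_C_mul, map_mul, h k, mul_zero]

section data

variable {ι : Type} [Fintype ι] [DecidableEq ι] {n M u a β : ℕ}

/-- the data of the degeneration -/
structure Deg (n u t β : ℕ) (p : ι ⊕ Fin (2 * t + 1) → V3) (m : ι → ℕ) (P Q T R : R2)
    (x ζ : Fin (2 * t + 1) → ℂ) (ρ : Pl) (τ : ℂ) (F : R3) : Prop where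
  hu : 1 ≤ u
  hn : 1 ≤ n
  hdeg : n + u = u * (t + 1) + β
  hβ : β < t
  hpr : ∀ i, p (Sum.inl i) 2 ≠ 0
  hm : ∀ i, m i ≤ n
  hlow : linSys (n - 1) (fun i => p (Sum.inl i)) m = ⊥
  S : Strip t P Q T R x ζ
  hτ0 : τ ≠ 0
  hτ : ρ.L τ 0
  hρ : ∀ i k, ρ.L (p (Sum.inl i) k) (p (Sum.inl i) k)
  hρ0 : ∀ j, ρ.L (p (Sum.inr j) 0) (x j)
  hρ1 : ∀ j, ρ.L (p (Sum.inr j) 1) 1
  hρ2 : ∀ j, ρ.L (p (Sum.inr j) 2 / τ) (ζ j)
  hF : F ∈ linSys (n + u) p (Sum.elim m (fun _ => u))
  hF0 : F ≠ 0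

variable {t : ℕ} {p : ι ⊕ Fin (2 * t + 1) → V3} {m : ι → ℕ} {P Q T R : R2}
  {x ζ : Fin (2 * t + 1) → ℂ} {ρ : Pl} {τ : ℂ} {F : R3}

theorem Deg.scv_spec (S : Deg n u t β p m P Q T R x ζ ρ τ F) (j : Fin (2 * t + 1)) :
    ∀ k, ρ.L (scv τ (p (Sum.inr j)) k) (sp x ζ j k) := by
  intro k
  fin_cases k
  · exact S.hρ0 j
  · exact S.hρ1 j
  · exact S.hρ2 j

theorem Deg.vanish_G (S : Deg n u t β p m P Q T R x ζ ρ τ F) {c : ℂ} {G : R3}
    (hG : ρ.LP (C c * scz τ F) G) (j : Fin (2 * t + 1)) : VanishTo G (sp x ζ j) u := by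
  have h1 : VanishTo (scz τ F) (scv τ (p (Sum.inr j))) u :=
    vanishTo_scz S.hτ0 S.hF.1 (S.hF.2 (Sum.inr j))
  exact hG.vanishTo ((scz_hom τ S.hF.1).C_mul c) (S.scv_spec j) (vanishTo_C_mul h1 c)

/-- **The limit.** -/
theorem Deg.limit (S : Deg n u t β p m P Q T R x ζ ρ τ F) :
    ∃ (c : ℂ) (Ft : R3) (Φ : R4), c ≠ 0 ∧ Ft ∈ linSys n (fun i => p (Sum.inl i)) m ∧ Ft ≠ 0 ∧
      BiHom u β Φ ∧ res Ft = onC P Q Φ ∧ ρ.LP (C c * F) (X 2 ^ u * Ft) ∧
      ρ.LP (C (c / τ ^ u) * scz τ F) (onS P Q T R Φ) := by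
  have hrest : F ∈ linSys (n + u) (fun i => p (Sum.inl i)) m :=
    ⟨S.hF.1, fun i => S.hF.2 (Sum.inl i)⟩
  obtain ⟨c, Fb, G, hc, hFb, hG, hFb0, hord, hdeg, heq⟩ := limit_form ρ S.hτ0 S.hτ (u := u) S.hF0
    (fun c Fb hFb hFb0 => by
      by_contra hcon
      push Not at hcon
      have h1 : Fb ∈ linSys (n + u) (fun i => p (Sum.inl i)) m :=
        hFb.linSys S.hρ (linSys_C_mul hrest c)
      obtain ⟨K, hK, hKF⟩ := exists_z_factor (k := u + 1) h1.1 (fun α hα => hcon α hα)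
      have h2 : K ∈ linSys (n - 1) (fun i => p (Sum.inl i)) m := by
        refine ⟨?_, fun i => ?_⟩
        · have : n + u - (u + 1) = n - 1 := by omega
          rwa [this] at hK
        · apply vanishTo_of_X_pow_mul (S.hpr i) (u + 1)
          rw [hKF]
          exact h1.2 i
      rw [S.hlow, Submodule.mem_bot] at h2
      apply hFb0
      rw [← hKF, h2, mul_zero])
    (fun c G hG hG0 => by
      by_contra hcon
      push Not at hcon
      apply hG0
      have h1 : G.IsHomogeneous (n + u) := hG.homogeneous ((scz_hom τ S.hF.1).C_mul c)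
      rw [S.hdeg] at h1
      exact S.S.empty S.hu S.hβ h1 (fun α hα => by
        exact hcon α hα) (S.vanish_G hG))
  have h1 : Fb ∈ linSys (n + u) (fun i => p (Sum.inl i)) m :=
    hFb.linSys S.hρ (linSys_C_mul hrest c)
  obtain ⟨Ft, hFt, hFtF⟩ := exists_z_factor (k := u) h1.1 hord
  rw [Nat.add_sub_cancel] at hFt
  have hFt0 : Ft ≠ 0 := by
    rintro rfl
    apply hFb0
    rw [← hFtF, mul_zero]
  have hGh : G.IsHomogeneous (n + u) := hG.homogeneous ((scz_hom τ S.hF.1).C_mul _)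
  obtain ⟨Φ, hΦ, hΦG⟩ := S.S.struct hGh hdeg (S.vanish_G hG)
  have hbi : BiHom u β Φ := by
    intro α hα
    obtain ⟨h2, h3⟩ := hΦ α hα
    have h4 := S.hdeg
    exact ⟨h2, by omega⟩
  refine ⟨c, Ft, Φ, hc, ⟨hFt, fun i => ?_⟩, hFt0, hbi, ?_, ?_, ?_⟩
  · apply vanishTo_of_X_pow_mul (S.hpr i) u
    rw [hFtF]
    exact h1.2 i
  · ext α
    have hα : α = e2 (α 0) (α 1) := e2_eq.mpr ⟨rfl, rfl⟩
    rw [hα, coeff_res, ← coeff_X2_pow_mul u, hFtF, zero_add, heq _ rfl, ← hΦG]
    exact coeff_onS P Q T R hbi (α 0) (α 1)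
  · rw [hFtF]
    exact hFb
  · rw [hΦG]
    exact hG

/-- the conclusion of the degeneration -/
theorem Deg.not_bad (S : Deg n u t β p m P Q T R x ζ ρ τ F)
    (hpn : ∀ j, p (Sum.inr j) ≠ 0)
    (hgood : ∀ Ft ∈ linSys n (fun i => p (Sum.inl i)) m, ∀ Φ, BiHom u β Φ →
      res Ft = onC P Q Φ → Ft ≠ 0 → ¬ Bad n (fun i => p (Sum.inl i)) m Ft ∧ SmoothΦ Φ ∧
        NoDouble (res Ft) ∧ (∀ j, eval ![x j, 1] (onC P Q Φ) ≠ 0) ∧ ∀ j, NoDir Φ ![x j, 1]) :
    ¬ Bad (n + u) p (Sum.elim m (fun _ => u)) F := by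
  obtain ⟨c, Ft, Φ, hc, hFt, hFt0, hΦ, hres, hlim, hlimS⟩ := S.limit
  obtain ⟨hnb, hsm, hnd, hsx, hdir⟩ := hgood Ft hFt Φ hΦ hres hFt0
  have hu := S.hu
  have hn1 := S.hn
  have hspn : ∀ j, sp x ζ j ≠ 0 := fun j h => one_ne_zero (congrFun h 1)
  have hprn : ∀ i, p (Sum.inl i) ≠ 0 := fun i h => S.hpr i (congrFun h 2)
  have hFh := S.hF.1
  have hcFh : (C c * F).IsHomogeneous (n + u) := hFh.C_mul c
  have hsFh : (C (c / τ ^ u) * scz τ F).IsHomogeneous (n + u) := (scz_hom τ hFh).C_mul _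
  -- bad directions of the limits
  have hno1 : ∀ i v, cr (p (Sum.inl i)) v ≠ 0 →
      ¬ BadDir (n + u) (X 2 ^ u * Ft) (p (Sum.inl i)) (m i) v := by
    intro i v hv hb
    exact hnb (Or.inr ⟨i, v, hv,
      badDir_of_z_pow (S.hm i) hFt.1 (S.hpr i) (hFt.2 i) hb⟩)
  have hno2 : ∀ j v, cr (sp x ζ j) v ≠ 0 →
      ¬ BadDir (n + u) (onS P Q T R Φ) (sp x ζ j) u v := by
    intro j v hv hb
    rw [S.hdeg] at hb
    exact S.S.no_tang hu hΦ hdir hv hb
  rintro (⟨q, hq0, hqp, hgrad⟩ | ⟨i, v, hv, hbad⟩)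
  · obtain ⟨e, he, b, hb0, hqb⟩ := ρ.exists_scale_vec q hq0
    set q' : V3 := e • q with hq'
    have hgrad' : ∀ k, eval q' (pderiv k F) = 0 := by
      intro k
      rw [hq', eval_smul_of_hom hFh.pderiv, hgrad k, mul_zero]
    have hqp' : ∀ i, cr (p i) q' ≠ 0 := by
      intro i
      rw [hq', cr_smul_right]
      exact smul_ne_zero he (hqp i)
    have hqb' : ∀ k, ρ.L (q' k) (b k) := hqb
    by_cases hb2 : b 2 = 0
    · have hb01 : b 0 ≠ 0 ∨ b 1 ≠ 0 := by
        by_contra hcon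
        push Not at hcon
        apply hb0
        ext k
        fin_cases k
        · exact hcon.1
        · exact hcon.2
        · exact hb2
      have hcase : (∃ v, ρ.L (q' 2 / τ) v) ∨ (q' 2 ≠ 0 ∧ ρ.L (τ / q' 2) 0) := by
        rcases ρ.tot (q' 2 / τ) with h | h
        · exact Or.inl h
        · by_cases hz : q' 2 = 0
          · left
            refine ⟨0, ?_⟩
            rw [hz, zero_div]
            exact ρ.zero
          · right
            rw [inv_div] at h
            exact ⟨hz, h⟩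
      rcases hcase with ⟨v, hv⟩ | ⟨hz, hz'⟩
      · -- the point lies in the strip
        set b' : V3 := ![b 0, b 1, v] with hb'
        have hspec : ∀ k, ρ.L (scv τ q' k) (b' k) := by
          intro k
          fin_cases k
          · exact hqb' 0
          · exact hqb' 1
          · exact hv
        have hb'0 : b' ≠ 0 := by
          intro h
          rcases hb01 with h1 | h1
          · exact h1 (congrFun h 0)
          · exact h1 (congrFun h 1)
        have hg2 := sing_C_mul (sing_scz S.hτ0 hgrad') (c / τ ^ u)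
        by_cases hj : ∃ j, cr (sp x ζ j) b' = 0
        · obtain ⟨j, hj⟩ := hj
          have hum : u ≤ n + u := Nat.le_add_left u n
          obtain ⟨w, hw, hbw⟩ := sing_spec ρ hsFh (by omega) hum hlimS (S.scv_spec j) hspec
            (hspn j) hb'0 (vanishTo_C_mul (vanishTo_scz S.hτ0 hFh (S.hF.2 (Sum.inr j))) _)
            (cr_scv S.hτ0 (hqp' (Sum.inr j))) hj hg2
          exact hno2 j w hw hbw
        · push Not at hj
          obtain ⟨k, hk⟩ := S.S.smooth_out hu hΦ hsm hsx (v := b') hb01 hj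
          apply hk
          have h1 := (hlimS.pderiv k).eval hspec
          rw [hg2 k] at h1
          exact ρ.fn h1 ρ.zero
      · -- the neck
        have hqz : ρ.L (q' 2) 0 := by
          have := hqb' 2
          rwa [hb2] at this
        have hneck := neck ρ S.hτ0 hlim hlimS hz hqz hz' (N := X 2 ^ u * emb (res Ft))
          (fun α => coeff_top u Ft α)
        set b' : V3 := ![b 0, b 1, 1] with hb'
        have hspec : ∀ k, ρ.L (scv (q' 2) q' k) (b' k) := by
          intro k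
          fin_cases k
          · exact hqb' 0
          · exact hqb' 1
          · change ρ.L (q' 2 / q' 2) 1
            rw [div_self hz]
            exact ρ.one
        have hg2 := sing_C_mul (sing_scz hz hgrad') (c / (q' 2) ^ u)
        have hy0 : (![b 0, b 1] : V2) ≠ 0 := by
          intro h
          rcases hb01 with h1 | h1
          · exact h1 (congrFun h 0)
          · exact h1 (congrFun h 1)
        have hz2 : ∀ k, eval b' (pderiv k (X 2 ^ u * emb (res Ft))) = 0 := by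
          intro k
          have h1 := (hneck.pderiv k).eval hspec
          rw [hg2 k] at h1
          exact ρ.fn h1 ρ.zero
        obtain ⟨k, hk⟩ := hnd _ hy0
        apply hk
        have hX : (X 2 : R3) ^ u = emb 1 * X 2 ^ u := by rw [map_one, one_mul]
        fin_cases k
        · have h1 := hz2 0
          rw [Derivation.leibniz, map_add, smul_eq_mul, smul_eq_mul, map_mul, map_mul, map_pow,
            eval_X, pderiv_pow, pderiv_X_of_ne (by decide), mul_zero, map_zero, mul_zero,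
            add_zero, Side.pderiv_emb_zero, Side.eval_emb] at h1
          have h2 : (b' 2) ^ u = 1 := one_pow u
          rw [h2, one_mul] at h1
          exact h1
        · have h1 := hz2 1
          rw [Derivation.leibniz, map_add, smul_eq_mul, smul_eq_mul, map_mul, map_mul, map_pow,
            eval_X, pderiv_pow, pderiv_X_of_ne (by decide), mul_zero, map_zero, mul_zero,
            add_zero] at h1
          have h2 : (b' 2) ^ u = 1 := one_pow u
          have h3 : pderiv 1 (emb (res Ft)) = emb (pderiv 1 (res Ft)) := pderiv_emb_one _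
          rw [h2, one_mul, h3, Side.eval_emb] at h1
          exact h1
    · -- the point stays in the plane
      by_cases hi : ∃ i : ι, cr (p (Sum.inl i)) b = 0
      · obtain ⟨i, hi⟩ := hi
        have hmi := S.hm i
        obtain ⟨w, hw, hbw⟩ := sing_spec ρ hcFh (by omega) (by omega : m i ≤ n + u) hlim
          (S.hρ i) hqb' (hprn i) hb0 (vanishTo_C_mul (S.hF.2 (Sum.inl i)) c)
          (hqp' (Sum.inl i)) hi (sing_C_mul hgrad' c)
        exact hno1 i w hw hbw
      · push Not at hi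
        have hz2 : ∀ k, eval b (pderiv k (X 2 ^ u * Ft)) = 0 := by
          intro k
          have h1 := (hlim.pderiv k).eval hqb'
          rw [sing_C_mul hgrad' c k] at h1
          exact ρ.fn h1 ρ.zero
        exact hnb (Or.inl ⟨b, hb0, hi, sing_of_z_pow hFt.1 hb2 hz2 (by omega)⟩)
  · rcases i with i | j
    · have hmi := S.hm i
      obtain ⟨w, hw, hbw⟩ := tang_spec ρ hcFh (by omega : m i ≤ n + u) hlim (S.hρ i) (hprn i)
        (vanishTo_C_mul (S.hF.2 (Sum.inl i)) c) hv (badDir_C_mul hbad c)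
      exact hno1 i w hw hbw
    · obtain ⟨w, hw, hbw⟩ := tang_spec ρ hsFh (Nat.le_add_left u n) hlimS (S.scv_spec j)
        (hspn j) (vanishTo_C_mul (vanishTo_scz S.hτ0 hFh (S.hF.2 (Sum.inr j))) _)
        (cr_scv S.hτ0 hv) (badDir_C_mul (badDir_scz S.hτ0 hbad) _)
      exact hno2 j w hw hbw

end data

theorem BiHom.cD {u b : ℕ} {Φ : R4} (h : BiHom u b Φ) (D : Derivation ℚ ℂ ℂ) :
    BiHom u b (cD D Φ) := by
  intro α hα
  apply h
  intro h0
  apply hα
  rw [coeff_cD, h0, map_zero]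

theorem strip_not_bad_aux {ι : Type} [Fintype ι] [DecidableEq ι] {n M u a β t : ℕ}
    (ht : β + 1 + a = t) {p : ι ⊕ Fin (2 * t + 1) → V3}
    (hp : AlgebraicIndependent ℚ (fun z : (ι ⊕ Fin (2 * t + 1)) × Fin 3 => p z.1 z.2))
    {m : ι → ℕ} (hM : ∀ i, m i ≤ M) (hu : 2 ≤ u) (huM : u ≤ M)
    (hn : 3 * (M + 2) ^ 2 ≤ n) (ha : M ^ 2 + 2 * M + 3 ≤ u * a)
    (hnβ : n + 1 = (u + 1) * (β + 1) + u * a)
    (hχ : ∑ i, (m i + 1).choose 2 + (u * a + 1) = (n + 2).choose 2) {F : R3}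
    (hF : F ∈ linSys (n + u) p (Sum.elim m (fun _ => u))) (hF0 : F ≠ 0) :
    ¬ Bad (n + u) p (Sum.elim m (fun _ => u)) F := by
  have hMn : M ≤ n := by nlinarith
  have hpr : AlgebraicIndependent ℚ (fun z : ι × Fin 3 => p (Sum.inl z.1) z.2) :=
    hp.comp (fun z : ι × Fin 3 => (Sum.inl z.1, z.2)) (fun z z' h => by
      rw [Prod.mk.injEq, Sum.inl.injEq] at h
      exact Prod.ext h.1 h.2)
  have hp2 : ∀ i, p (Sum.inl i) 2 ≠ 0 := fun i => hp.ne_zero (Sum.inl i, 2)
  have ha1 : 1 ≤ a := by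
    rcases Nat.eq_zero_or_pos a with h | h
    · rw [h, mul_zero] at ha
      nlinarith
    · exact h
  -- the lower system is empty
  have hlow : linSys (n - 1) (fun i => p (Sum.inl i)) m = ⊥ := by
    have hfin : Module.Finite ℂ (linSys (n - 1) (fun i => p (Sum.inl i)) m) :=
      Submodule.finiteDimensional_of_le (linSys_le _ _ _)
    have hM1 : 3 * M ^ 2 + 1 ≤ 3 * (M + 2) ^ 2 := by nlinarith
    have h0 := finrank_gen (p := fun i => p (Sum.inl i)) (n := n - 1) hpr hM (by omega)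
    have h1 : n - 1 + 2 = n + 1 := by omega
    rw [h1] at h0
    have h2 := choose_two_succ n
    have h3 : u * a ≤ n := by
      have : 1 ≤ (u + 1) * (β + 1) := Nat.mul_pos (by omega) (by omega)
      omega
    have h4 : finrank ℂ (linSys (n - 1) (fun i => p (Sum.inl i)) m) = 0 := by omega
    exact Submodule.finrank_eq_zero.mp h4
  obtain ⟨κ, hκ, w, P, Q, hw, hP, hQ, hPQ, hP0, hder, hgood, huniq⟩ :=
    exists_pencil (p := fun i => p (Sum.inl i)) hpr hM hu huM hn ha hnβ hχ hlow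
  rw [ht] at hP hQ
  obtain ⟨x, hx⟩ := Ind.extend (κ' := Fin (2 * t + 1)) hw
  -- derivations moving the points of the strip
  have hDx : ∀ j : Fin (2 * t + 1), ∃ D : Derivation ℚ ℂ ℂ, (∀ i k, D (p (Sum.inl i) k) = 0) ∧
      (∀ k, D (w k) = 0) ∧ D (x j) = 1 := by
    intro j
    obtain ⟨D, hD1, hD2⟩ := Ind.derivation hx (Sum.elim (fun _ => 0) (fun _ => 1))
    exact ⟨D, hD1, fun k => hD2 (Sum.inl k), hD2 (Sum.inr j)⟩
  have hPx : ∀ j, eval ![x j, 1] P ≠ 0 := by
    intro j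
    obtain ⟨D, hD1, hD2, hD3⟩ := hDx j
    refine generic_root hP hP0 (D := D) (κ := 0) ?_ hD3
    rw [(hder D hD2).1, C_0, zero_mul]
  have hxinj : Function.Injective x := by
    have h1 := AlgebraicIndependent.injective hx
    intro i j hij
    have h2 : (Sum.inr (Sum.inr i) : (ι × Fin 3) ⊕ (κ ⊕ Fin (2 * t + 1))) =
        Sum.inr (Sum.inr j) := h1 hij
    simpa using h2
  have hΔ : (∏ j, (X 0 - C (x j) * X 1) : R2).IsHomogeneous (2 * t + 1) := by
    have h := IsHomogeneous.prod (Finset.univ : Finset (Fin (2 * t + 1)))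
      (fun j => X 0 - C (x j) * X 1 : _ → R2) (fun _ => 1)
      (fun j _ => (isHomogeneous_X ℂ 0).sub ((isHomogeneous_X ℂ 1).C_mul (x j)))
    simpa using h
  obtain ⟨T, R, hT, hR, hdet⟩ := exists_TR hP hQ hPQ hΔ
  set ζ : Fin (2 * t + 1) → ℂ := fun j => eval ![x j, 1] T / eval ![x j, 1] P with hζ
  have hTx : ∀ j, eval ![x j, 1] T = eval ![x j, 1] P * ζ j := by
    intro j
    rw [hζ]
    field_simp [hPx j]
  have hRx : ∀ j, eval ![x j, 1] R = eval ![x j, 1] Q * ζ j := by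
    intro j
    have h1 := congrArg (eval ![x j, 1]) hdet
    rw [map_sub, map_mul, map_mul, map_prod, Finset.prod_eq_zero (Finset.mem_univ j) (by simp)]
      at h1
    have h2 := hTx j
    have h3 : eval ![x j, 1] P * (eval ![x j, 1] R - eval ![x j, 1] Q * ζ j) = 0 := by
      rw [h2] at h1
      linear_combination h1
    exact sub_eq_zero.mp ((mul_eq_zero.mp h3).resolve_left (hPx j))
  have S : Strip t P Q T R x ζ := ⟨hP, hQ, hT, hR, hxinj, hdet, hPx, hTx, hRx⟩
  obtain ⟨ρ, τ, hτ0, hτ, hρ, hρj⟩ := exists_strip_place hp x ζ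
  have hdeg : n + u = u * (t + 1) + β := by
    rw [← ht]
    nlinarith
  have hD : Deg n u t β p m P Q T R x ζ ρ τ F :=
    ⟨by omega, by nlinarith, hdeg, by omega, hp2, fun i => (hM i).trans hMn, hlow, S, hτ0, hτ,
      hρ, fun j => (hρj j).1, fun j => (hρj j).2.1, fun j => (hρj j).2.2, hF, hF0⟩
  apply hD.not_bad (fun j h => hp.ne_zero (Sum.inr j, 2) (congrFun h 2))
  intro Ft hFt Φ hΦ hres hFt0
  obtain ⟨hnb, hsm, hnd⟩ := hgood Ft hFt Φ hΦ hres hFt0
  -- the derivations multiply the solution by constants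
  have hmn : ∀ i, m i ≤ n + 1 := fun i => (hM i).trans (by omega)
  have hsol : ∀ j, ∃ (D : Derivation ℚ ℂ ℂ) (c : ℂ), D (x j) = 1 ∧ cD D Ft = C c * Ft ∧
      cD D Φ = C c * Φ := by
    intro j
    obtain ⟨D, hD1, hD2, hD3⟩ := hDx j
    obtain ⟨h1, h2⟩ := hder D hD2
    obtain ⟨c, hc1, hc2⟩ := huniq Ft hFt Φ hΦ hres hFt0 (cD D Ft)
      (linSys_cD_mem hmn hFt (fun i => Or.inl (hD1 i))) (cD D Φ) (hΦ.cD D) (by
        rw [← cD_res, hres, cD_onC, h1, h2, mul_zero, mul_zero, add_zero, add_zero])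
    exact ⟨D, c, hD3, hc1, hc2⟩
  have hres0 : res Ft ≠ 0 := fun h => hFt0 (eq_zero_of_res hp2 hlow hFt h)
  refine ⟨hnb, hsm, hnd, ?_, ?_⟩
  · intro j
    obtain ⟨D, c, hD3, hc1, hc2⟩ := hsol j
    rw [← hres]
    refine generic_root (res_hom hFt.1) hres0 (D := D) (κ := c) ?_ hD3
    rw [cD_res, hc1, map_mul, res_C]
  · intro j θ hθ
    by_contra hcon
    push Not at hcon
    obtain ⟨h0, h1⟩ := hcon
    obtain ⟨D, c, hD3, hc1, hc2⟩ := hsol j
    have hval : eval (pt θ ![x j, 1]) Φ = 0 := by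
      have h2 := hΦ.euler_left θ ![x j, 1]
      rw [h0, h1, mul_zero, mul_zero, add_zero] at h2
      have h3 : (u : ℂ) ≠ 0 := by
        rw [Nat.cast_ne_zero]
        omega
      exact (mul_eq_zero.mp h2.symm).resolve_left h3
    have h2x : eval (pt θ ![x j, 1]) (pderiv 2 Φ) = 0 := by
      have h2 := D_eval D (pt θ ![x j, 1]) Φ
      rw [hval, map_zero, hc2, map_mul, hval, mul_zero, zero_add, Fin.sum_univ_four, h0, h1,
        mul_zero, mul_zero, zero_add, zero_add] at h2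
      have h3 : D (pt θ ![x j, 1] 2) = 1 := hD3
      have h4 : D (pt θ ![x j, 1] 3) = 0 := by
        change D (1 : ℂ) = 0
        exact Derivation.map_one_eq_zero _
      rw [h3, h4, one_mul, zero_mul, add_zero] at h2
      exact h2.symm
    have h3x : eval (pt θ ![x j, 1]) (pderiv 3 Φ) = 0 := by
      have h2 := hΦ.euler_right θ ![x j, 1]
      rw [h2x, hval, mul_zero, mul_zero, zero_add] at h2
      simpa using h2
    obtain ⟨k, hk⟩ := hsm (pt θ ![x j, 1]) (by
      by_contra hcon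
      push Not at hcon
      apply hθ
      ext k
      fin_cases k
      · exact hcon.1
      · exact hcon.2) (Or.inr one_ne_zero)
    fin_cases k
    · exact hk h0
    · exact hk h1
    · exact hk h2x
    · exact hk h3x

/-- the rigid member of the degenerating system is not bad -/
theorem strip_not_bad {ι : Type} [Fintype ι] [DecidableEq ι] {n M u a β : ℕ}
    {p : ι ⊕ Fin (2 * (β + 1 + a) + 1) → V3}
    (hp : AlgebraicIndependent ℚ (fun z : (ι ⊕ Fin (2 * (β + 1 + a) + 1)) × Fin 3 => p z.1 z.2))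
    {m : ι → ℕ} (hM : ∀ i, m i ≤ M) (hu : 2 ≤ u) (huM : u ≤ M)
    (hn : 3 * (M + 2) ^ 2 ≤ n) (ha : M ^ 2 + 2 * M + 3 ≤ u * a)
    (hnβ : n + 1 = (u + 1) * (β + 1) + u * a)
    (hχ : ∑ i, (m i + 1).choose 2 + (u * a + 1) = (n + 2).choose 2) {F : R3}
    (hF : F ∈ linSys (n + u) p (Sum.elim m (fun _ => u))) (hF0 : F ≠ 0) :
    ¬ Bad (n + u) p (Sum.elim m (fun _ => u)) F :=
  strip_not_bad_aux rfl hp hM hu huM hn ha hnβ hχ hF hF0

end Pool.Agent.Work.MP_0421d9_ag.SM
end

section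
/-!
Collisions of generic points: a cluster becomes a flag (proof).
-/

set_option linter.unusedSectionVars false
set_option linter.unusedVariables false

namespace Pool.Agent.Work.MP_0421d9_ag.ZC

open MvPolynomial Module SM LD

/-- a form of the critical system has small contact order at a generic direction -/
theorem contact_zero {s₀ μ₀ w₀ Mv₀ : ℕ} {v₀ : Fin s₀ → ℕ} (hN : NSp Mv₀ μ₀)
    (hN' : NSp Mv₀ (μ₀ - 1)) (hv : ∀ j, v₀ j ≤ Mv₀) (hMv : Mv₀ ≤ μ₀) (hMv1 : 1 ≤ Mv₀)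
    (crit : ∑ j, (v₀ j + 1).choose 2 = (μ₀ + 1).choose 2 + w₀) (hw : w₀ ≤ μ₀) {z₀ : Fin s₀ → V3}
    {b : ℂ} (hb : Ind z₀ (fun _ : Unit => b)) {H : R3} (hH : H ∈ linSys μ₀ z₀ v₀)
    (h : Low (μ₀ - w₀ + 1) (sh b (res H))) : H = 0 := by
  have hgen : GenericPoints z₀ := AlgebraicIndependent.comp hb Sum.inl Sum.inl_injective
  have hz2 : ∀ i, z₀ i 2 ≠ 0 := fun i => coord_ne hgen i 2
  have hlow : linSys (μ₀ - 1) z₀ v₀ = ⊥ := by
    have h1 := hN'.finrank hgen hv
    rw [crit, (by omega : μ₀ - 1 + 2 = μ₀ + 1), (by omega : (μ₀ + 1).choose 2 -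
      ((μ₀ + 1).choose 2 + w₀) = 0)] at h1
    have hfin := finite_of_le_Rd (linSys_le (μ₀ - 1) z₀ v₀)
    exact Submodule.finrank_eq_zero.mp h1
  obtain ⟨D₀, hD1, hD2⟩ := Ind.derivation hb (fun _ => 1)
  have hdim : finrank ℂ (linSys μ₀ z₀ v₀) = μ₀ + 1 - w₀ := by
    have h5 : (μ₀ + 2).choose 2 = (μ₀ + 1) + (μ₀ + 1).choose 2 := by
      rw [Nat.choose_succ_succ' (μ₀ + 1) 1, Nat.choose_one_right]
    rw [hN.finrank hgen hv, crit, h5]
    omega
  have hFV := finrank_FV (a := 1) (linSys_le μ₀ z₀ v₀) (g := fun _ => b) (D := fun _ => D₀)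
    (fun j k => by rw [hD2 (), if_pos (Subsingleton.elim j k)])
    (fun j F hF => linSys_cD_mem (fun i => (hv i).trans (hMv.trans (Nat.le_succ _))) hF
      (fun i => Or.inl (hD1 i)))
    (fun F hF h0 => eq_zero_of_res hz2 hlow hF h0) (fun _ => μ₀ - w₀ + 1)
  rw [hdim, Fin.sum_univ_one, (by omega : μ₀ + 1 - w₀ - (μ₀ - w₀ + 1) = 0)] at hFV
  have hfin := finite_of_le_Rd (linSys_le μ₀ z₀ v₀)
  have hfin' : Module.Finite ℂ (FV (linSys μ₀ z₀ v₀) (fun _ : Fin 1 => b)
      (fun _ => μ₀ - w₀ + 1)) := Submodule.finiteDimensional_of_le (FV_le _ _ _)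
  have hbot := Submodule.finrank_eq_zero.mp hFV
  have hmem : H ∈ FV (linSys μ₀ z₀ v₀) (fun _ : Fin 1 => b) (fun _ => μ₀ - w₀ + 1) := by
    refine ⟨hH, fun j i hi => ?_⟩
    rw [fder_eq_res]
    exact contact_of_low h hi
  rw [hbot, Submodule.mem_bot] at hmem
  exact hmem

/-- the limit of the leading form of a cluster has contact order `w` -/
theorem spec_flag {s₀ μ₀ w₀ Mv₀ : ℕ} {v₀ : Fin s₀ → ℕ} (hN : NSp Mv₀ μ₀) (hN' : NSp Mv₀ (μ₀ - 1))
    (hv : ∀ j, v₀ j ≤ Mv₀) (hMv : Mv₀ ≤ μ₀) (hMv1 : 1 ≤ Mv₀)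
    (crit : ∑ j, (v₀ j + 1).choose 2 = (μ₀ + 1).choose 2 + w₀) (hw : w₀ ≤ μ₀) {z₀ : Fin s₀ → V3}
    {b : ℂ} (hb : Ind z₀ (fun _ : Unit => b)) {ρ : Pl} {t c c' : ℂ} (ht0 : t ≠ 0) (ht : ρ.L t 0)
    (hc : ρ.L c c') {ζ ξ : Fin s₀ → V3}
    (hξ : ∀ x k, ρ.L (ξ x k) ((![z₀ x 1, z₀ x 0 - b * z₀ x 1, z₀ x 2] : V3) k))
    (hξζ : ∀ x, ξ x = ![ζ x 0 - c * ζ x 1, t * ζ x 1, ζ x 2])
    {β β' : R2} (hβ : ∃ G ∈ linSys μ₀ ζ v₀, res G = β) (hlim : ρ.LP β β') :
    ∀ i < w₀, eval ![c', 1] ((pderiv 0)^[i] β') = 0 := by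
  obtain ⟨G, hG, hGβ⟩ := hβ
  set Ω : R3 := subM (mct' c t) G with hΩ
  have hGΩ : subM (mct c t) Ω = G := by
    rw [hΩ, subM_subM, mct'_mul ht0, subM_one]
  have hΩmem : Ω ∈ linSys μ₀ ξ v₀ := by
    refine ⟨subM_isHomogeneous _ hG.1, fun i => ?_⟩
    apply vanishTo_subM
    rw [hξζ, mct'_mulVec ht0]
    exact hG.2 i
  have hsβ : sh c β = sy t (res Ω) := by
    rw [← hGβ, ← hGΩ, sh_res_mct]
  have hlim' := LP_sh ρ hc hlim
  rw [hsβ] at hlim'
  suffices hlow : Low w₀ (sh c' β') from fun i hi => contact_of_low hlow hi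
  by_cases hΩ0 : Ω = 0
  · intro α _
    rw [hΩ0, map_zero, map_zero] at hlim'
    exact ρ.fn (hlim' α) (by rw [coeff_zero]; exact ρ.zero)
  obtain ⟨a, ha, Ω', hΩ'0, hΩ'⟩ := ρ.exists_scale_poly hΩ0
  have hΩ'mem : Ω' ∈ linSys μ₀ (fun x => ![z₀ x 1, z₀ x 0 - b * z₀ x 1, z₀ x 2]) v₀ :=
    hΩ'.linSys hξ (linSys_C_mul hΩmem a)
  have h2mem : subM (mb b) Ω' ∈ linSys μ₀ z₀ v₀ := by
    refine ⟨subM_isHomogeneous _ hΩ'mem.1, fun i => ?_⟩
    apply vanishTo_subM
    rw [mb_mulVec]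
    exact hΩ'mem.2 i
  have h2ne : subM (mb b) Ω' ≠ 0 := by
    intro h0
    apply hΩ'0
    have h1 : subM (mb' b) (subM (mb b) Ω') = Ω' := by
      rw [subM_subM, mb_mul, subM_one]
    rw [← h1, h0, map_zero]
  -- a coefficient of small `y`-degree
  obtain ⟨κ, hκ1, hκ2⟩ : ∃ κ : Fin 2 →₀ ℕ, κ 1 ≤ μ₀ - w₀ ∧ coeff κ (res Ω') ≠ 0 := by
    by_contra hcon
    push Not at hcon
    apply h2ne
    apply contact_zero hN hN' hv hMv hMv1 crit hw hb h2mem
    rw [sh_res_mb]
    intro α hα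
    rw [coeff_sw]
    apply hcon
    change α 0 ≤ μ₀ - w₀
    omega
  have hres : ρ.LP (C a * res Ω) (res Ω') := by
    intro α
    have h1 := hΩ' (e3 (α 0) (α 1) 0)
    rw [← coeff_res, ← coeff_res, map_mul, res_C] at h1
    have h2 : α = e2 (α 0) (α 1) := e2_eq.mpr ⟨rfl, rfl⟩
    rwa [← h2] at h1
  intro α hα
  by_cases hdeg : α 0 + α 1 = μ₀
  · have h1 : ρ.L (t ^ κ 1 * coeff κ (res Ω)) (coeff κ (sh c' β')) := by
      have := hlim' κ
      rwa [coeff_sy] at this
    have h2 : ρ.L (t ^ (α 1 - κ 1)) 0 := by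
      have := ρ.pow ht (α 1 - κ 1)
      rwa [zero_pow (by omega)] at this
    have h3 := hres κ
    have h4 := hres α
    rw [coeff_C_mul] at h3 h4
    have h5 := ρ.div h4 h3 hκ2
    have h6 := ρ.mul (ρ.mul h1 h2) h5
    rw [mul_zero, zero_mul] at h6
    have h7 := hlim' α
    rw [coeff_sy] at h7
    have hκ0 : coeff κ (res Ω) ≠ 0 := by
      intro h0
      rw [h0, mul_zero] at h3
      exact hκ2 (ρ.fn h3 ρ.zero)
    have h8 : t ^ κ 1 * coeff κ (res Ω) * t ^ (α 1 - κ 1) *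
        (a * coeff α (res Ω) / (a * coeff κ (res Ω))) = t ^ α 1 * coeff α (res Ω) := by
      rw [mul_div_mul_left _ _ ha]
      have h9 : t ^ α 1 = t ^ κ 1 * t ^ (α 1 - κ 1) := by
        rw [← pow_add]
        congr 1
        omega
      rw [h9]
      field_simp
    rw [h8] at h6
    exact ρ.fn h7 h6
  · have h1 := hlim' α
    have h2 : coeff α (res Ω) = 0 := by
      apply (res_hom hΩmem.1).coeff_eq_zero
      rw [Finsupp.degree_eq_sum, Fin.sum_univ_two]
      exact hdeg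
    rw [coeff_sy, h2, mul_zero] at h1
    exact ρ.fn h1 ρ.zero

end Pool.Agent.Work.MP_0421d9_ag.ZC
end

section
/-!
Smoothness of planar linear systems of large degree: reduction to the rigid case, conclusion.
-/

set_option linter.unusedSectionVars false

namespace Pool.Agent.Work.MP_0421d9_ag.SM

open MvPolynomial Module

/-! ### Members which are not bad are smooth and reduced -/

theorem smooth_of_not_bad {ι : Type} {d : ℕ} {p : ι → V3} {m : ι → ℕ} {F : R3}
    (hp : ∀ i, p i ≠ 0) (hF : F ∈ linSys d p m) (hF0 : F ≠ 0) (h : ¬ Bad d p m F) :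
    SmoothOnBlowup p m F := by
  refine ⟨?_, ?_⟩
  · intro q hq hqp _
    by_contra hcon
    push Not at hcon
    exact h (Or.inl ⟨q, hq, fun i => cr_ne_zero_of (hp i) (hqp i), hcon⟩)
  · intro i u w hlin
    have hpi : p i ≠ 0 := hp i
    have hu : cr (p i) u ≠ 0 := by
      intro h0
      obtain ⟨c, hc⟩ := exists_smul_of_cr_eq_zero hpi h0
      have h1 := Fintype.linearIndependent_iff.mp hlin ![c, -1, 0] (by
        rw [Fin.sum_univ_three]
        simp only [Matrix.cons_val]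
        rw [hc]
        module)
      have h2 := h1 1
      simp at h2
    have hdet : eval w (xl (p i) u) ≠ 0 := by
      intro h0
      obtain ⟨x, y, hxy⟩ := exists_comb hu h0
      have h1 := Fintype.linearIndependent_iff.mp hlin ![x, y, -1] (by
        rw [Fin.sum_univ_three]
        simp only [Matrix.cons_val]
        rw [hxy]
        module)
      have h2 := h1 2
      simp at h2
    have hmi : m i ≤ d := le_of_vanishTo hF.1 hF0 (hF.2 i)
    exact chart hF.1 hmi (hF.2 i) hdet (fun hbad => h (Or.inr ⟨i, u, hu, hbad⟩))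

/-- a form of positive degree has a zero on each line -/
theorem exists_zero_line {v w : V3} {h : R3} {e : ℕ} (he : 1 ≤ e) (hh : h.IsHomogeneous e) :
    (∃ t : ℂ, eval (w + t • v) h = 0) ∨ eval v h = 0 := by
  by_contra hcon
  push Not at hcon
  obtain ⟨h1, hv⟩ := hcon
  have h2 : ∀ s : ℂ, s ≠ 0 → eval (v + s • w) h = s ^ e * eval (w + s⁻¹ • v) h := by
    intro s hs
    rw [← eval_smul_form hh]
    congr 1
    rw [smul_add, smul_smul, mul_inv_cancel₀ hs, one_smul, add_comm]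
  have h3 : ∀ s : ℂ, eval (v + s • w) h ≠ 0 := by
    intro s
    by_cases hs : s = 0
    · rw [hs, zero_smul, add_zero]
      exact hv
    · rw [h2 s hs]
      exact mul_ne_zero (pow_ne_zero _ hs) (h1 _)
  rcases exists_root_or_const w v h with ⟨t, ht⟩ | ⟨c, hc⟩
  · exact h1 t ht
  rcases exists_root_or_const v w h with ⟨t, ht⟩ | ⟨c', hc'⟩
  · exact h3 t ht
  have h4 := h2 1 one_ne_zero
  have h5 := h2 2 two_ne_zero
  rw [hc', hc] at h4 h5
  have hc0 : c ≠ 0 := by
    rw [← hc 0]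
    exact h1 0
  rw [h4, one_pow, one_mul] at h5
  have h6 : (2 : ℂ) ^ e = 1 := by
    have h7 : c * (2 ^ e - 1) = 0 := by linear_combination -h5
    have h8 := (mul_eq_zero.mp h7).resolve_left hc0
    linear_combination h8
  have h7 : ((2 ^ e : ℕ) : ℂ) = ((1 : ℕ) : ℂ) := by
    push_cast
    exact h6
  have h8 : 2 ^ e = 1 := by exact_mod_cast h7
  have h9 : 1 < 2 ^ e := Nat.one_lt_two_pow (by omega)
  omega

/-- a form of positive degree has a zero outside finitely many points -/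
theorem exists_zero_outside {ι : Type} [Fintype ι] {p : ι → V3} (hp : ∀ i, p i ≠ 0) {h : R3}
    {e : ℕ} (he : 1 ≤ e) (hh : h.IsHomogeneous e) :
    ∃ q : V3, q ≠ 0 ∧ (∀ i, cr (p i) q ≠ 0) ∧ eval q h = 0 := by
  have h1 : (X 0 * ∏ i, lin (p i) : R3) ≠ 0 := by
    refine mul_ne_zero (X_ne_zero _) (Finset.prod_ne_zero_iff.mpr (fun i _ => ?_))
    exact fun h0 => hp i (lin_eq_zero.mp h0)
  obtain ⟨v, hv⟩ : ∃ v : V3, eval v (X 0 * ∏ i, lin (p i) : R3) ≠ 0 := by
    by_contra hcon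
    push Not at hcon
    apply h1
    apply MvPolynomial.funext
    intro y
    rw [hcon y, map_zero]
  rw [map_mul, eval_X, map_prod] at hv
  have hv0 : v 0 ≠ 0 := left_ne_zero_of_mul hv
  have hvp : ∀ i, eval (p i) (lin v) ≠ 0 := by
    intro i
    rw [← eval_lin_comm]
    exact (Finset.prod_ne_zero_iff.mp (right_ne_zero_of_mul hv)) i (Finset.mem_univ i)
  have key : ∀ q : V3, q ≠ 0 → eval q (lin v) = 0 → ∀ i, cr (p i) q ≠ 0 := by
    intro q hq0 hq i h0
    obtain ⟨c, hc⟩ := exists_smul_of_cr_eq_zero (hp i) h0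
    have hc0 : c ≠ 0 := by
      rintro rfl
      exact hq0 (by rw [hc, zero_smul])
    rw [hc, eval_smul_form (lin_isHomogeneous v), pow_one] at hq
    exact hvp i ((mul_eq_zero.mp hq).resolve_left hc0)
  rcases exists_zero_line (v := ![-v 2, 0, v 0]) (w := ![-v 1, v 0, 0]) he hh with ⟨t, ht⟩ | h0
  · have hq0 : (![-v 1, v 0, 0] + t • ![-v 2, 0, v 0] : V3) ≠ 0 := by
      intro h0
      have h2 := congrFun h0 1
      simp at h2
      exact hv0 h2
    refine ⟨_, hq0, key _ hq0 ?_, ht⟩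
    rw [eval_lin, Fin.sum_univ_three]
    simp
    ring
  · have hq0 : (![-v 2, 0, v 0] : V3) ≠ 0 := by
      intro h0
      have h2 := congrFun h0 2
      simp at h2
      exact hv0 h2
    refine ⟨_, hq0, key _ hq0 ?_, h0⟩
    rw [eval_lin, Fin.sum_univ_three]
    simp
    ring

theorem squarefree_of_not_bad {ι : Type} [Fintype ι] {d : ℕ} {p : ι → V3} {m : ι → ℕ} {F : R3}
    (hp : ∀ i, p i ≠ 0) (hF : F ∈ linSys d p m) (hF0 : F ≠ 0) (h : ¬ Bad d p m F) :
    Squarefree F := by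
  intro G hG
  by_contra hunit
  obtain ⟨H, hH⟩ := hG
  have h1 : F = G * (G * H) := by rw [hH, mul_assoc]
  obtain ⟨e, b, -, hGhom, -⟩ := isHomogeneous_factor (A := G) (G := G * H) (d := d)
    (by rw [← h1]; exact hF.1) (by rw [← h1]; exact hF0)
  have hG0 : G ≠ 0 := by
    rintro rfl
    exact hF0 (by rw [h1, zero_mul])
  have he : 1 ≤ e := by
    by_contra hcon
    have he0 : e = 0 := by omega
    rw [he0] at hGhom
    have h2 : G = C (coeff 0 G) :=
      (MvPolynomial.totalDegree_eq_zero_iff_eq_C).mp (Nat.le_zero.mp hGhom.totalDegree_le)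
    apply hunit
    rw [h2]
    apply IsUnit.map
    rw [isUnit_iff_ne_zero]
    intro h3
    exact hG0 (by rw [h2, h3, C_0])
  obtain ⟨q, hq0, hqp, hq⟩ := exists_zero_outside hp he hGhom
  refine h (Or.inl ⟨q, hq0, hqp, fun k => ?_⟩)
  rw [h1, pderiv_mul, pderiv_mul]
  simp only [map_add, map_mul, hq, zero_mul, mul_zero, add_zero]

/-! ### Adding simple points -/

theorem sum_simple {r k : ℕ} (m : Fin r → ℕ) :
    ∑ x : Fin r ⊕ Fin k, (Sum.elim m (fun _ => 1) x + 1).choose 2 =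
      ∑ i, (m i + 1).choose 2 + k := by
  rw [Fintype.sum_sum_type]
  congr 1
  change ∑ _x : Fin k, (1 + 1).choose 2 = k
  rw [Finset.sum_const, Finset.card_univ, Fintype.card_fin, smul_eq_mul]
  exact Nat.mul_one k

theorem card_simple {r k : ℕ} (m : Fin r → ℕ) :
    (Finset.univ.filter (fun x : Fin r ⊕ Fin k => Sum.elim m (fun _ => 1) x = 1)).card =
      (Finset.univ.filter (fun i => m i = 1)).card + k := by
  rw [Finset.card_filter, Finset.card_filter, Fintype.sum_sum_type]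
  congr 1
  change ∑ _x : Fin k, (if (1 : ℕ) = 1 then 1 else 0) = k
  rw [if_pos rfl, Finset.sum_const, Finset.card_univ, Fintype.card_fin, smul_eq_mul]
  exact Nat.mul_one k

theorem badDir_of_singular {d : ℕ} {F : R3} (hF : F.IsHomogeneous d) {s : V3}
    (hs : ∀ l, eval s (pderiv l F) = 0) (v : V3) : BadDir d F s 1 v := by
  have key : ∀ w : V3, B (lin s ^ (d - 1) * lin w) F = 0 := by
    intro w
    rw [mul_comm, B_lin_mul, B_lin_pow (dir_isHomogeneous w hF), dir_apply, map_sum,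
      Finset.sum_eq_zero, mul_zero]
    intro l _
    rw [map_mul, hs l, mul_zero]
  refine ⟨?_, fun _ w => ?_⟩
  · rw [pow_one]
    exact key v
  · rw [Nat.sub_self, pow_zero, one_mul]
    exact key w

theorem not_bad_of_extended {ι κ : Type} {d : ℕ} {p : ι → V3} {s : κ → V3} {m : ι → ℕ} {F : R3}
    (hF : F.IsHomogeneous d) (hs : ∀ k, s k ≠ 0)
    (h : ¬ Bad d (Sum.elim p s) (Sum.elim m (fun _ => 1)) F) : ¬ Bad d p m F := by
  intro hb
  apply h
  rcases hb with ⟨q, hq0, hqp, hq⟩ | ⟨i, u, hu, hb⟩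
  · by_cases hc : ∀ k, cr (s k) q ≠ 0
    · refine Or.inl ⟨q, hq0, ?_, hq⟩
      rintro (i | k)
      · exact hqp i
      · exact hc k
    · push Not at hc
      obtain ⟨k, hk⟩ := hc
      obtain ⟨c, hc⟩ := exists_smul_of_cr_eq_zero (hs k) hk
      have hc0 : c ≠ 0 := by
        rintro rfl
        exact hq0 (by rw [hc, zero_smul])
      have hsing : ∀ l, eval (s k) (pderiv l F) = 0 := by
        intro l
        have h1 := hq l
        rw [hc, eval_smul_form hF.pderiv] at h1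
        exact (mul_eq_zero.mp h1).resolve_left (pow_ne_zero _ hc0)
      obtain ⟨v, w, hv, -⟩ := exists_indep (hs k)
      exact Or.inr ⟨Sum.inr k, v, hv, badDir_of_singular hF hsing v⟩
  · exact Or.inr ⟨Sum.inl i, u, hu, hb⟩

theorem point_ne_zero {ι : Type} {p : ι → V3}
    (hp : AlgebraicIndependent ℚ (fun z : ι × Fin 3 => p z.1 z.2)) (i : ι) : p i ≠ 0 := by
  intro h0
  exact hp.ne_zero (i, 0) (congrFun h0 0)

/-! ### Relabelling -/

theorem bad_equiv {κ κ' : Type} {d : ℕ} {p : κ → V3} {m : κ → ℕ} {F : R3} (e : κ' ≃ κ) :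
    Bad d (fun x => p (e x)) (fun x => m (e x)) F ↔ Bad d p m F := by
  constructor
  · rintro (⟨q, hq0, hqp, hq⟩ | ⟨i, u, hu, hb⟩)
    · refine Or.inl ⟨q, hq0, fun i => ?_, hq⟩
      have h1 : cr (p (e (e.symm i))) q ≠ 0 := hqp (e.symm i)
      rwa [e.apply_symm_apply] at h1
    · exact Or.inr ⟨e i, u, hu, hb⟩
  · rintro (⟨q, hq0, hqp, hq⟩ | ⟨i, u, hu, hb⟩)
    · exact Or.inl ⟨q, hq0, fun x => hqp (e x), hq⟩
    · have h1 : cr (p (e (e.symm i))) u ≠ 0 := by
        rw [e.apply_symm_apply]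
        exact hu
      have h2 : BadDir d F (p (e (e.symm i))) (m (e (e.symm i))) u := by
        rw [e.apply_symm_apply]
        exact hb
      exact Or.inr ⟨e.symm i, u, h1, h2⟩

/-! ### Rigid systems with few simple points -/

theorem exists_split {r N : ℕ} (T : Finset (Fin r)) (hT : T.card = N) :
    ∃ e : {i : Fin r // ¬ i ∈ T} ⊕ Fin N ≃ Fin r, ∀ k, e (Sum.inr k) ∈ T := by
  let eT : Fin N ≃ {i : Fin r // i ∈ T} := (T.equivFinOfCardEq hT).symm
  exact ⟨((Equiv.refl _).sumCongr eT).trans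
    ((Equiv.sumComm _ _).trans (Equiv.sumCompl (fun i => i ∈ T))), fun k => (eT k).2⟩

theorem chi_strip {n u a β S N R : ℕ} (hN : N = 2 * (β + 1 + a) + 1)
    (hnβ : n + 1 = (u + 1) * (β + 1) + u * a)
    (hsum : S + N * (u + 1).choose 2 = R) (hχ : R + 1 = (n + u + 2).choose 2) :
    S + (u * a + 1) = (n + 2).choose 2 := by
  have h2 := two_mul_choose u
  have h3 := two_mul_choose (n + 1)
  have h4 := two_mul_choose (n + u + 1)
  have h5 : n + 1 + 1 = n + 2 := rfl
  have h6 : n + u + 1 + 1 = n + u + 2 := rfl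
  rw [h5] at h3
  rw [h6] at h4
  subst hN
  rw [← hsum] at hχ
  generalize (u + 1).choose 2 = c1 at *
  generalize (n + 2).choose 2 = c2 at *
  generalize (n + u + 2).choose 2 = c3 at *
  zify at h2 h3 h4 hχ hnβ ⊢
  have h7 : (2 : ℤ) * (S + (u * a + 1)) = 2 * c2 := by
    linear_combination 2 * hχ - (2 * (β + 1 + a) + 1 : ℤ) * h2 + h4 - h3 + 2 * (u : ℤ) * hnβ
  exact mul_left_cancel₀ (by norm_num) h7

theorem rigid_aux {κ : Type} [Fintype κ] [DecidableEq κ] {r M n u a β : ℕ} {p : Fin r → V3}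
    (hp : GenericPoints p) {m : Fin r → ℕ}
    (hM : ∀ i, m i ≤ M) (hu : 2 ≤ u) (huM : u ≤ M)
    (hn : 3 * (M + 2) ^ 2 ≤ n) (ha : M ^ 2 + 2 * M + 3 ≤ u * a)
    (hnβ : n + 1 = (u + 1) * (β + 1) + u * a)
    (hχ : ∑ i, (m i + 1).choose 2 + 1 = (n + u + 2).choose 2)
    (e : κ ⊕ Fin (2 * (β + 1 + a) + 1) ≃ Fin r) (he : ∀ k, m (e (Sum.inr k)) = u) {F : R3}
    (hF : F ∈ linSys (n + u) p m) (hF0 : F ≠ 0) : ¬ Bad (n + u) p m F := by
  have hme : Sum.elim (fun i : κ => m (e (Sum.inl i)))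
      (fun _ : Fin (2 * (β + 1 + a) + 1) => u) = fun x => m (e x) := by
    funext x
    rcases x with i | k
    · rfl
    · exact (he k).symm
  have hp' : AlgebraicIndependent ℚ
      (fun z : (κ ⊕ Fin (2 * (β + 1 + a) + 1)) × Fin 3 => (fun x => p (e x)) z.1 z.2) := by
    have h2 := AlgebraicIndependent.comp hp
      (fun z : (κ ⊕ Fin (2 * (β + 1 + a) + 1)) × Fin 3 => (e z.1, z.2))
      (fun z z' h => by
        have h7 := congrArg Prod.fst h
        have h8 := congrArg Prod.snd h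
        exact Prod.ext (e.injective h7) h8)
    exact h2
  have hsum : ∑ i : κ, (m (e (Sum.inl i)) + 1).choose 2 +
      (2 * (β + 1 + a) + 1) * (u + 1).choose 2 = ∑ i, (m i + 1).choose 2 := by
    rw [← e.sum_comp, Fintype.sum_sum_type]
    congr 1
    rw [Finset.sum_congr rfl (fun k _ => by rw [he k]), Finset.sum_const, Finset.card_univ,
      Fintype.card_fin, smul_eq_mul]
  have hχ' := chi_strip rfl hnβ hsum hχ
  have hF' : F ∈ linSys (n + u) (fun x => p (e x))
      (Sum.elim (fun i : κ => m (e (Sum.inl i))) (fun _ => u)) := by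
    rw [hme]
    exact ⟨hF.1, fun x => hF.2 (e x)⟩
  have hfin := strip_not_bad (n := n) (M := M) (u := u) (a := a) (β := β)
    (p := fun x => p (e x)) (m := fun i => m (e (Sum.inl i))) hp' (fun i => hM _) hu huM hn ha
    hnβ hχ' hF' hF0
  intro hb
  apply hfin
  rw [hme]
  exact (bad_equiv e).mpr hb

theorem rigid_not_bad {r d M : ℕ} {p : Fin r → V3} (hp : GenericPoints p) {m : Fin r → ℕ}
    (hM : ∀ i, m i ≤ M) (hM2 : 2 ≤ M) (hd : 3 * (M + 2) ^ 2 + M ≤ d)
    (hχ : ∑ i, (m i + 1).choose 2 + 1 = (d + 2).choose 2)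
    (h1 : (Finset.univ.filter (fun i => m i = 1)).card ≤ M) {F : R3}
    (hF : F ∈ linSys d p m) (hF0 : F ≠ 0) : ¬ Bad d p m F := by
  classical
  obtain ⟨u, a, β, n, hu, huM, ha, hdn, hnβ, hcard⟩ := exists_strip hM hM2 hd hχ h1
  subst hdn
  obtain ⟨T, hTS, hT⟩ := Finset.exists_subset_card_eq hcard
  have hTu : ∀ i ∈ T, m i = u := fun i hi => (Finset.mem_filter.mp (hTS hi)).2
  obtain ⟨e, he⟩ := exists_split T hT
  exact rigid_aux hp hM hu huM (by omega) ha hnβ hχ e (fun k => hTu _ (he k)) hF hF0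

/-! ### The general case -/

theorem sum_dropSimple {r : ℕ} (m : Fin r → ℕ) :
    ∑ j, (dropSimple m j + 1).choose 2 + (Finset.univ.filter (fun i => m i = 1)).card =
      ∑ j, (m j + 1).choose 2 := by
  rw [Finset.card_filter, ← Finset.sum_add_distrib]
  refine Finset.sum_congr rfl (fun j _ => ?_)
  unfold dropSimple
  split_ifs with h
  · rw [h]
    rfl
  · rfl

/-- members of a rigid subsystem (some simple points added) are not bad -/
theorem not_bad_of_simple {r d M k : ℕ} {p : Fin r → V3} {m : Fin r → ℕ} {s : Fin k → V3}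
    (hps : GenericPoints (Sum.elim p s))
    (hM : ∀ i, m i ≤ M) (hM2 : 2 ≤ M) (hd : 3 * (M + 2) ^ 2 + M ≤ d)
    (hχ : ∑ i, (m i + 1).choose 2 + k + 1 = (d + 2).choose 2)
    (h1 : (Finset.univ.filter (fun i => m i = 1)).card + k ≤ M) {F : R3}
    (hF : F ∈ linSys d p m) (hF0 : F ≠ 0) (hFs : ∀ j, eval (s j) F = 0) : ¬ Bad d p m F := by
  classical
  apply not_bad_of_extended (s := s) hF.1 (fun j => point_ne_zero hps (Sum.inr j))
  let e : Fin (r + k) ≃ Fin r ⊕ Fin k := finSumFinEquiv.symm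
  rw [← bad_equiv e]
  have hF' : F ∈ linSys d (fun x => Sum.elim p s (e x)) (fun x => Sum.elim m (fun _ => 1) (e x)) := by
    refine ⟨hF.1, fun x => ?_⟩
    have h2 : ∀ y : Fin r ⊕ Fin k, VanishTo F (Sum.elim p s y) (Sum.elim m (fun _ => 1) y) := by
      rintro (i | j)
      · exact hF.2 i
      · exact vanishTo_one_iff.mpr (hFs j)
    exact h2 (e x)
  refine rigid_not_bad (M := M) ?_ ?_ hM2 hd ?_ ?_ hF' hF0
  · have h2 := AlgebraicIndependent.comp hps
      (fun z : Fin (r + k) × Fin 3 => (e z.1, z.2))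
      (fun z z' h => by
        have h7 := congrArg Prod.fst h
        have h8 := congrArg Prod.snd h
        exact Prod.ext (e.injective h7) h8)
    exact h2
  · intro x
    have h2 : ∀ y : Fin r ⊕ Fin k, Sum.elim m (fun _ => 1) y ≤ M := by
      rintro (i | j)
      · exact hM i
      · exact (by norm_num : 1 ≤ 2).trans hM2
    exact h2 (e x)
  · rw [e.sum_comp (fun y => (Sum.elim m (fun _ => 1) y + 1).choose 2), sum_simple]
    exact hχ
  · have h2 : (Finset.univ.filter (fun x => Sum.elim m (fun _ : Fin k => 1) (e x) = 1)).card =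
        (Finset.univ.filter (fun y => Sum.elim m (fun _ : Fin k => 1) y = 1)).card := by
      rw [Finset.card_filter, Finset.card_filter]
      exact e.sum_comp (fun y => if Sum.elim m (fun _ : Fin k => 1) y = 1 then 1 else 0)
    rw [h2, card_simple]
    exact h1

theorem main_all {r d M : ℕ} (p : Fin r → Fin 3 → ℂ) (hp : GenericPoints p) (m : Fin r → ℕ)
    (hM : ∀ i, m i ≤ M)
    (hd : 3 * (M + 2) ^ 2 + M ≤ d ∨
      (3 * (M + 2) ^ 2 + M + 1).choose 2 + (M + 1).choose 3 ≤ ∑ i, (m i + 1).choose 2)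
    (hne : linSys d p m ≠ ⊥) :
    (∃ F ∈ linSys d p m, Squarefree F) ∧
    finrank ℂ (linSys d p m) + ∑ i, (m i + 1).choose 2 = (d + 2).choose 2 ∧
    (∀ s : Fin (finrank ℂ (linSys d p m) - 1) → Fin 3 → ℂ, GenericPoints (Sum.elim p s) →
      ∀ F ∈ linSys d p m, F ≠ 0 → (∀ k, eval (s k) F = 0) → SmoothOnBlowup p m F) ∧
    (∃ F ∈ linSys d p m, F ≠ 0 ∧ SmoothOnBlowup p m F) := by
  have hd' : 3 * (M + 2) ^ 2 + M ≤ d := by
    rcases hd with hd | hd
    · exact hd
    · by_contra hcon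
      apply hne
      apply window_empty hp hM
      have h1 : (d + 2).choose 2 ≤ (3 * (M + 2) ^ 2 + M + 1).choose 2 :=
        Nat.choose_le_choose 2 (by omega)
      omega
  have hpos : finrank ℂ (linSys d p m) ≠ 0 := by
    intro h0
    exact hne (Submodule.finrank_eq_zero.mp h0)
  have hdim := LD.main (d := d) hp hM (by nlinarith)
  have hsum := sum_dropSimple m
  by_cases hbig : M + 1 ≤ finrank ℂ (linSys d p m) +
      (Finset.univ.filter (fun i => m i = 1)).card
  · refine main_large_sq p hp m hM (by nlinarith) ∅ (by simp) (fun i _ _ => ?_) hne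
    have := hM i
    omega
  · by_cases hM2 : 2 ≤ M
    · have hχ : ∑ i, (m i + 1).choose 2 + (finrank ℂ (linSys d p m) - 1) + 1 =
          (d + 2).choose 2 := by omega
      have hkey : ∀ s : Fin (finrank ℂ (linSys d p m) - 1) → Fin 3 → ℂ,
          GenericPoints (Sum.elim p s) → ∀ F ∈ linSys d p m, F ≠ 0 → (∀ k, eval (s k) F = 0) →
          ¬ Bad d p m F := fun s hs F hF hF0 hFs =>
        not_bad_of_simple hs hM hM2 hd' hχ (by omega) hF hF0 hFs
      obtain ⟨s, hs⟩ := exists_extension (κ := Fin (finrank ℂ (linSys d p m) - 1)) p hp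
      have hfin := finrank_gen (n := d) (M := M) hs (y := Sum.elim m (fun _ => 1)) (by
        rintro (i | j)
        · exact hM i
        · exact (by norm_num : 1 ≤ 2).trans hM2) (by nlinarith)
      rw [sum_simple] at hfin
      have hne' : linSys d (Sum.elim p s) (Sum.elim m (fun _ => 1)) ≠ ⊥ := by
        intro h0
        rw [h0, finrank_bot] at hfin
        omega
      obtain ⟨F, hF, hF0⟩ := Submodule.exists_mem_ne_zero_of_ne_bot hne'
      have hFm : F ∈ linSys d p m := ⟨hF.1, fun i => hF.2 (Sum.inl i)⟩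
      have hFs : ∀ k, eval (s k) F = 0 := fun k => vanishTo_one_iff.mp (hF.2 (Sum.inr k))
      have hpn : ∀ i, p i ≠ 0 := fun i => point_ne_zero hp i
      have hnb := hkey s hs F hFm hF0 hFs
      exact ⟨⟨F, hFm, squarefree_of_not_bad hpn hFm hF0 hnb⟩, by omega,
        fun s hs F hF hF0 hFs => smooth_of_not_bad hpn hF hF0 (hkey s hs F hF hF0 hFs),
        F, hFm, hF0, smooth_of_not_bad hpn hFm hF0 hnb⟩
    · refine main_large_sq p hp m hM (by nlinarith) ∅ (by simp) (fun i _ hi => ?_) hne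
      have := hM i
      omega

end Pool.Agent.Work.MP_0421d9_ag.SM
end

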