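import Pool.Agent.Work.Z0421M.C09
import Pool.Agent.Work.Z0421M.C10
import Pool.Agent.Work.Z0421M.C11
import Pool.Agent.Work.Z0421M.C12

section
/-!
Collisions of generic points: the leading forms at a point.
-/

set_option linter.unusedSectionVars false

namespace Pool.Agent.Work.MP_0421d9_ag.ZC

open MvPolynomial Module SM

/-! ### the substitution `tr` -/

theorem tr_C (P : V3) (c : ℂ) : tr P (C c) = C c := by
  rw [algHom_C]; rfl

theorem tr_form (P : V3) (i : Fin 3) :
    (![X 0 + C (P 0) * X 2, X 1 + C (P 1) * X 2, C (P 2) * X 2] : Fin 3 → R3) i =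
      ∑ l, C ((tv P (Pi.single l 1)) i) * X l := by
  fin_cases i <;> simp [tv, Fin.sum_univ_three]

theorem tr_hom {F : R3} {d : ℕ} (hF : F.IsHomogeneous d) (P : V3) :
    (tr P F).IsHomogeneous d := by
  have h := hF.aeval (R := ℂ) (n := 1)
    (![X 0 + C (P 0) * X 2, X 1 + C (P 1) * X 2, C (P 2) * X 2] : Fin 3 → R3) (fun i => by
    fin_cases i
    · exact (isHomogeneous_X ℂ 0).add ((isHomogeneous_X ℂ 2).C_mul _)
    · exact (isHomogeneous_X ℂ 1).add ((isHomogeneous_X ℂ 2).C_mul _)
    · exact (isHomogeneous_X ℂ 2).C_mul _)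
  rwa [one_mul] at h

theorem eval_tr (P v : V3) (F : R3) : eval v (tr P F) = eval (tv P v) F := by
  unfold tr
  rw [eval_aeval_gen]
  congr 2
  funext i
  fin_cases i <;> simp [tv]

/-- the point with the inverse substitution -/
noncomputable def ip (P : V3) : V3 := ![-(P 0 / P 2), -(P 1 / P 2), (P 2)⁻¹]

theorem tv_ip {P : V3} (hP : P 2 ≠ 0) (v : V3) : tv P (tv (ip P) v) = v := by
  ext i
  fin_cases i
  · simp [tv, ip]
    field_simp
    ring
  · simp [tv, ip]
    field_simp
    ring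
  · simp [tv, ip]
    field_simp

theorem ip_tv {P : V3} (hP : P 2 ≠ 0) (v : V3) : tv (ip P) (tv P v) = v := by
  ext i
  fin_cases i
  · simp [tv, ip]
    field_simp
    ring
  · simp [tv, ip]
    field_simp
    ring
  · simp [tv, ip]
    field_simp

theorem tr_ip {P : V3} (hP : P 2 ≠ 0) (F : R3) : tr P (tr (ip P) F) = F := by
  apply MvPolynomial.funext
  intro y
  rw [eval_tr, eval_tr, ip_tv hP]

theorem ip_tr {P : V3} (hP : P 2 ≠ 0) (F : R3) : tr (ip P) (tr P F) = F := by
  apply MvPolynomial.funext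
  intro y
  rw [eval_tr, eval_tr, tv_ip hP]

theorem tr_injective {P : V3} (hP : P 2 ≠ 0) : Function.Injective (tr P) := fun F G h => by
  rw [← ip_tr hP F, h, ip_tr hP]

theorem tr_eq_zero {P : V3} (hP : P 2 ≠ 0) {F : R3} : tr P F = 0 ↔ F = 0 := by
  rw [← map_zero (tr P)]
  exact (tr_injective hP).eq_iff

/-- surjectivity of `tr` (inverse substitution) for homogeneous polynomials -/
theorem exists_tr_eq {P : V3} (hP : P 2 ≠ 0) {d : ℕ} {G : R3} (hG : G.IsHomogeneous d) :
    ∃ F : R3, F.IsHomogeneous d ∧ tr P F = G :=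
  ⟨tr (ip P) G, tr_hom hG _, tr_ip hP G⟩

theorem exists_tv {P : V3} (hP : P 2 ≠ 0) (u : V3) : ∃ v, tv P v = u := ⟨tv (ip P) u, tv_ip hP u⟩

theorem tv_add (P u v : V3) : tv P (u + v) = tv P u + tv P v := by
  ext i
  fin_cases i <;> simp [tv] <;> ring

theorem tv_smul (P : V3) (c : ℂ) (v : V3) : tv P (c • v) = c • tv P v := by
  ext i
  fin_cases i <;> simp [tv] <;> ring

theorem tv_zero (P : V3) : tv P 0 = 0 := by
  ext i
  fin_cases i <;> simp [tv]

theorem tv_single_two (P : V3) : tv P ![0, 0, 1] = P := by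
  ext i
  fin_cases i <;> simp [tv]

theorem cr_tv {P : V3} (hP : P 2 ≠ 0) {u v : V3} : cr (tv P u) (tv P v) = 0 ↔ cr u v = 0 := by
  have key : ∀ Q u v : V3, cr u v = 0 → cr (tv Q u) (tv Q v) = 0 := by
    intro Q u v h
    have h0 := congrFun h 0
    have h1 := congrFun h 1
    have h2 := congrFun h 2
    simp only [cr, Matrix.cons_val_zero, Matrix.cons_val_one, Pi.zero_apply, Matrix.cons_val] at h0 h1 h2
    ext i
    fin_cases i
    · simp [cr, tv]
      linear_combination (Q 2) * h0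
    · simp [cr, tv]
      linear_combination (Q 2) * h1
    · simp [cr, tv]
      linear_combination h2 - Q 1 * h1 - Q 0 * h0
  constructor
  · intro h
    have h1 := key (ip P) _ _ h
    rwa [ip_tv hP, ip_tv hP] at h1
  · exact key P u v

theorem component_tr (P : V3) (k : ℕ) (F : R3) :
    homogeneousComponent k (tr P F) = tr P (homogeneousComponent k F) := by
  have h : ∀ N, homogeneousComponent k (tr P (∑ j ∈ Finset.range N, homogeneousComponent j F)) =
      tr P (homogeneousComponent k (∑ j ∈ Finset.range N, homogeneousComponent j F)) := by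
    intro N
    rw [map_sum, map_sum, map_sum, map_sum]
    refine Finset.sum_congr rfl fun j _ => ?_
    have h1 := homogeneousComponent_isHomogeneous j F
    have h2 := tr_hom h1 P
    rw [homogeneousComponent_of_mem h2, homogeneousComponent_of_mem h1]
    split_ifs
    · rfl
    · rw [map_zero]
  have h1 := h (F.totalDegree + 1)
  rwa [sum_homogeneousComponent] at h1

theorem translate_tr (P v : V3) (F : R3) : translate v (tr P F) = tr P (translate (tv P v) F) := by
  apply MvPolynomial.funext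
  intro y
  rw [eval_translate, eval_tr, eval_tr, eval_translate, tv_add]

theorem vanishTo_tr {P : V3} (hP : P 2 ≠ 0) {F : R3} {v : V3} {k : ℕ} :
    VanishTo (tr P F) v k ↔ VanishTo F (tv P v) k := by
  unfold VanishTo
  refine forall_congr' fun j => forall_congr' fun _ => ?_
  rw [translate_tr, component_tr, tr_eq_zero hP]

theorem pderiv_tr (P : V3) (j : Fin 3) (F : R3) :
    pderiv j (tr P F) = tr P (dir (tv P (Pi.single j 1)) F) := by
  unfold tr
  rw [pderiv_aeval, dir_apply, map_sum]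
  refine Finset.sum_congr rfl fun i _ => ?_
  have h1 : pderiv j ((![X 0 + C (P 0) * X 2, X 1 + C (P 1) * X 2, C (P 2) * X 2] :
      Fin 3 → R3) i) = C (tv P (Pi.single j 1) i) := by
    rw [tr_form, map_sum, Finset.sum_eq_single j]
    · rw [pderiv_C_mul, pderiv_X_self, mul_one]
    · intro b _ hb
      rw [pderiv_C_mul, pderiv_X_of_ne hb, mul_zero]
    · intro h
      exact absurd (Finset.mem_univ j) h
  rw [h1, map_mul, mul_comm, algHom_C]
  rfl

theorem dir_tr (P v : V3) (F : R3) : dir v (tr P F) = tr P (dir (tv P v) F) := by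
  have h : tv P v = ∑ j, v j • tv P (Pi.single j 1) := by
    ext i
    fin_cases i <;> simp [tv, Fin.sum_univ_three, mul_comm]
  have h2 : dir (tv P v) F = ∑ j, C (v j) * dir (tv P (Pi.single j 1)) F := by
    rw [h]
    simp only [dir_apply, Fin.sum_univ_three, Pi.add_apply, Pi.smul_apply, smul_eq_mul, map_add,
      map_mul]
    ring
  rw [dir_apply, h2, map_sum]
  refine Finset.sum_congr rfl fun j _ => ?_
  rw [pderiv_tr, map_mul, tr_C]

theorem sing_iff_dir {F : R3} {q : V3} : (∀ k, eval q (pderiv k F) = 0) ↔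
    ∀ v, eval q (dir v F) = 0 := by
  constructor
  · intro h v
    rw [dir_apply, map_sum]
    refine Finset.sum_eq_zero fun i _ => ?_
    rw [map_mul, h i, mul_zero]
  · intro h k
    have h1 := h (Pi.single k 1)
    rw [dir_apply, map_sum, Finset.sum_eq_single k] at h1
    · rwa [Pi.single_eq_same, C_1, one_mul] at h1
    · intro b _ hb
      rw [Pi.single_eq_of_ne hb, C_0, zero_mul, map_zero]
    · intro h
      exact absurd (Finset.mem_univ k) h

theorem sing_tr {P : V3} (hP : P 2 ≠ 0) {F : R3} {v : V3} :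
    (∀ k, eval v (pderiv k (tr P F)) = 0) ↔ ∀ k, eval (tv P v) (pderiv k F) = 0 := by
  rw [sing_iff_dir, sing_iff_dir]
  constructor
  · intro h w
    have h1 := h (tv (ip P) w)
    rwa [dir_tr, eval_tr, tv_ip hP] at h1
  · intro h w
    rw [dir_tr, eval_tr]
    exact h _

theorem B_lin_list_tr (P : V3) (L : List V3) (F : R3) :
    B (L.map lin).prod (tr P F) = B ((L.map fun v => lin (tv P v)).prod) F := by
  induction L generalizing F with
  | nil =>
    rw [List.map_nil, List.map_nil, List.prod_nil]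
    have h : ∀ H : R3, B 1 H = coeff 0 H := by
      intro H
      have : (1 : R3) = monomial 0 1 := rfl
      rw [this, B_monomial]
      simp [wt]
    have h2 : ∀ H : R3, coeff 0 H = eval 0 H := by
      intro H
      rw [eval_zero]
      rfl
    rw [h, h, h2, h2, eval_tr, tv_zero]
  | cons v L ih =>
    rw [List.map_cons, List.prod_cons, B_lin_mul, dir_tr, ih, List.map_cons, List.prod_cons,
      B_lin_mul]

theorem badDir_tr {P : V3} {F : R3} {d m : ℕ} {v u : V3} (hP : P 2 ≠ 0) :
    BadDir d (tr P F) v m u ↔ BadDir d F (tv P v) m (tv P u) := by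
  have h1 : ∀ (a b : V3) (i j : ℕ), B (lin a ^ i * lin b ^ j) (tr P F) =
      B (lin (tv P a) ^ i * lin (tv P b) ^ j) F := by
    intro a b i j
    have h := B_lin_list_tr P (List.replicate i a ++ List.replicate j b) F
    simpa [List.map_append, List.prod_append, List.map_replicate, List.prod_replicate] using h
  have h2 : ∀ (a b w : V3) (i j : ℕ), B (lin a ^ i * (lin b ^ j * lin w)) (tr P F) =
      B (lin (tv P a) ^ i * (lin (tv P b) ^ j * lin (tv P w))) F := by
    intro a b w i j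
    have h := B_lin_list_tr P (List.replicate i a ++ (List.replicate j b ++ [w])) F
    simpa [List.map_append, List.prod_append, List.map_replicate, List.prod_replicate] using h
  unfold BadDir
  rw [h1]
  refine and_congr_right fun _ => forall_congr' fun _ => ?_
  constructor
  · intro h w
    have h3 := h (tv (ip P) w)
    rwa [h2, tv_ip hP] at h3
  · intro h w
    rw [h2]
    exact h _

/-! ### Taylor expansion -/

/-- the part of degree `k` of the Taylor expansion of `F` at `P`, in the affine coordinates `x, y` -/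
noncomputable def ldr (k : ℕ) (P : V3) (F : R3) : R2 :=
  res (homogeneousComponent k (translate P F))

theorem dir_smul_left (t : ℂ) (P : V3) (H : R3) : dir (t • P) H = C t * dir P H := by
  rw [dir_apply, dir_apply, Finset.mul_sum]
  refine Finset.sum_congr rfl fun i _ => ?_
  rw [Pi.smul_apply, smul_eq_mul, map_mul, mul_assoc]

/-- the components of the Taylor expansion of a form -/
theorem dir_component {F : R3} {d : ℕ} (hF : F.IsHomogeneous d) (P : V3) {k : ℕ} (hk : k + 1 ≤ d) :
    dir P (homogeneousComponent (k + 1) (translate P F)) =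
      C ((d - k : ℕ) : ℂ) * homogeneousComponent k (translate P F) := by
  rw [taylor_component hF P hk, taylor_component hF P (by omega : k ≤ d), dir_C_mul,
    ← Function.iterate_succ_apply' (dir P)]
  obtain ⟨j, rfl⟩ : ∃ j, d = k + 1 + j := ⟨d - k - 1, by omega⟩
  have e1 : k + 1 + j - (k + 1) = j := by omega
  have e2 : k + 1 + j - k = j + 1 := by omega
  rw [e1, e2, ← mul_assoc, ← map_mul]
  congr 2
  rw [Nat.factorial_succ]
  push_cast
  field_simp

theorem eval_add_smul {P : V3} {H : R3} {k : ℕ} (hH : H.IsHomogeneous k) (h : dir P H = 0) (y : V3)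
    (t : ℂ) : eval (t • P + y) H = eval y H := by
  have h1 : dir (t • P) H = 0 := by rw [dir_smul_left, h, mul_zero]
  rw [← eval_translate, translate_eq hH, Finset.sum_eq_single 0]
  · rw [Nat.factorial_zero, Nat.cast_one, inv_one, C_1, one_mul, Function.iterate_zero, id]
  · intro n _ hn
    obtain ⟨j, rfl⟩ : ∃ j, n = j + 1 := ⟨n - 1, by omega⟩
    have h2 : (dir (t • P))^[j + 1] H = 0 := by
      rw [Function.iterate_succ_apply, h1, iterate_map_zero]
    rw [h2, mul_zero]
  · intro hn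
    exact absurd (Finset.mem_range.mpr (Nat.succ_pos _)) hn

theorem dir_component_zero {F : R3} {d : ℕ} (hF : F.IsHomogeneous d) {P : V3} {m : ℕ}
    (h : VanishTo F P m) : dir P (homogeneousComponent m (translate P F)) = 0 := by
  rcases Nat.lt_or_ge d m with hdm | hdm
  · rw [taylor_component_gt hF P hdm, map_zero]
  · cases m with
    | zero =>
      rw [homogeneousComponent_zero, dir_C]
    | succ k => rw [dir_component hF P hdm, h k (Nat.lt_succ_self k), mul_zero]

/-- the projection of a direction at `P` to the affine plane -/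
noncomputable def pr (P u : V3) : V2 := ![u 0 - u 2 / P 2 * P 0, u 1 - u 2 / P 2 * P 1]

/-- the leading part depends only on the direction modulo `P` -/
theorem eval_component_pr {F : R3} {d : ℕ} (hF : F.IsHomogeneous d) {P : V3} (hP : P 2 ≠ 0) {m : ℕ}
    (h : VanishTo F P m) (u : V3) :
    eval u (homogeneousComponent m (translate P F)) = eval (pr P u) (ldr m P F) := by
  unfold ldr
  rw [eval_res, ← eval_add_smul (homogeneousComponent_isHomogeneous m _) (dir_component_zero hF h)
    u (-(u 2 / P 2))]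
  have h2 : (-(u 2 / P 2)) • P + u = ![pr P u 0, pr P u 1, 0] := by
    ext i
    fin_cases i
    · simp [pr]
      ring
    · simp [pr]
      ring
    · simp [pr]
      field_simp
      ring
  rw [h2]

/-- a form vanishes to order `m + 1` if the leading form of degree `m` is zero -/
theorem vanish_succ {F : R3} {d : ℕ} (hF : F.IsHomogeneous d) {P : V3} (hP : P 2 ≠ 0) {m : ℕ}
    (h : VanishTo F P m) (h0 : ldr m P F = 0) : VanishTo F P (m + 1) := by
  intro k hk
  rcases Nat.lt_or_ge k m with h1 | h1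
  · exact h k h1
  · have h2 : k = m := by omega
    subst h2
    apply MvPolynomial.funext
    intro u
    rw [eval_component_pr hF hP h u, h0, map_zero, map_zero]

theorem vanish_iff_ldr {F : R3} {d : ℕ} (hF : F.IsHomogeneous d) {P : V3} (hP : P 2 ≠ 0) {m : ℕ} :
    VanishTo F P m ↔ ∀ k < m, ldr k P F = 0 := by
  constructor
  · intro h k hk
    unfold ldr
    rw [h k hk, map_zero]
  · intro h
    induction m with
    | zero => exact vanishTo_zero _ _
    | succ m ih => exact vanish_succ hF hP (ih fun k hk => h k (by omega)) (h m (by omega))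

/-! ### coefficients of powers of `z` -/

theorem coeff_iterate_pderiv_two (F : R3) (a b : ℕ) : ∀ j i : ℕ,
    coeff (e3 a b i) ((pderiv 2)^[j] F) * (i.factorial : ℂ) =
      ((i + j).factorial : ℂ) * coeff (e3 a b (i + j)) F := by
  intro j
  induction j with
  | zero => intro i; rw [Function.iterate_zero, id, add_zero, mul_comm]
  | succ j ih =>
    intro i
    have h1 : e3 a b i + Finsupp.single 2 1 = e3 a b (i + 1) := by
      rw [e3_eq]
      refine ⟨?_, ?_, ?_⟩ <;> simp [e3]
    have h2 : (e3 a b i) 2 = i := rfl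
    have h3 := ih (i + 1)
    rw [Function.iterate_succ_apply', coeff_pderiv, h1, h2]
    rw [Nat.factorial_succ] at h3
    have e : i + (j + 1) = i + 1 + j := by ring
    rw [e, ← h3]
    push_cast
    ring

theorem R2_ext {f g : R2} (h : ∀ a b, coeff (e2 a b) f = coeff (e2 a b) g) : f = g := by
  ext α
  have h1 : α = e2 (α 0) (α 1) := e2_eq.mpr ⟨rfl, rfl⟩
  rw [h1]
  exact h _ _

theorem cz_eq (j : ℕ) (F : R3) : cz j F = C ((j.factorial : ℂ)⁻¹) * res ((pderiv 2)^[j] F) := by
  apply R2_ext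
  intro a b
  have h := coeff_iterate_pderiv_two F a b j 0
  rw [zero_add, Nat.factorial_zero, Nat.cast_one, mul_one] at h
  rw [coeff_cz, coeff_C_mul, coeff_res, h, ← mul_assoc,
    inv_mul_cancel₀ (by exact_mod_cast Nat.factorial_ne_zero _), one_mul]

theorem res_tr (P : V3) (F : R3) : res (tr P F) = res F := by
  apply MvPolynomial.funext
  intro y
  rw [eval_res, eval_tr, eval_res]
  congr 2
  funext i
  fin_cases i <;> simp [tv]

theorem pderiv_two_iterate_tr (P : V3) (F : R3) (j : ℕ) :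
    (pderiv 2)^[j] (tr P F) = tr P ((dir P)^[j] F) := by
  induction j with
  | zero => rfl
  | succ j ih =>
    rw [Function.iterate_succ_apply', ih, pderiv_tr, Function.iterate_succ_apply']
    congr 3
    ext i
    fin_cases i <;> simp [tv]

theorem ld_apply (d k : ℕ) (P : V3) (F : R3) : ld d k P F = cz (d - k) (tr P F) := rfl

/-- the two descriptions of the leading form -/
theorem ld_eq_ldr {F : R3} {d k : ℕ} (hF : F.IsHomogeneous d) (hk : k ≤ d) (P : V3) :
    ld d k P F = ldr k P F := by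
  change cz (d - k) (tr P F) = _
  unfold ldr
  rw [cz_eq, pderiv_two_iterate_tr, res_tr, taylor_component hF P hk, map_mul, res_C]

theorem ld_hom {F : R3} {d k : ℕ} (hF : F.IsHomogeneous d) (hk : k ≤ d) (P : V3) :
    (ld d k P F).IsHomogeneous k := by
  rw [ld_eq_ldr hF hk]
  exact res_hom (homogeneousComponent_isHomogeneous _ _)

theorem vanishTo_iff_ld {F : R3} {d m : ℕ} (hF : F.IsHomogeneous d) {P : V3} (hP : P 2 ≠ 0)
    (hm : m ≤ d + 1) : VanishTo F P m ↔ ∀ k < m, ld d k P F = 0 := by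
  rw [vanish_iff_ldr hF hP]
  refine forall_congr' fun k => forall_congr' fun hk => ?_
  rw [ld_eq_ldr hF (by omega)]

theorem ld_of_vanish {F : R3} {d k m : ℕ} (hF : F.IsHomogeneous d) {P : V3} (h : VanishTo F P m)
    (hk : k < m) (hkd : k ≤ d) : ld d k P F = 0 := by
  rw [ld_eq_ldr hF hkd]
  unfold ldr
  rw [h k hk, map_zero]

/-! ### derivations -/

theorem cD_cz (D : Derivation ℚ ℂ ℂ) (j : ℕ) (F : R3) : cD D (cz j F) = cz j (cD D F) := by
  apply R2_ext
  intro a b
  rw [coeff_cD, coeff_cz, coeff_cz, coeff_cD]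

theorem cz_mul_X2 (j : ℕ) (F : R3) : cz (j + 1) (F * X 2) = cz j F := by
  apply R2_ext
  intro a b
  rw [coeff_cz, coeff_cz]
  have h1 : e3 a b (j + 1) = e3 a b j + Finsupp.single 2 1 := by
    symm
    rw [e3_eq]
    refine ⟨?_, ?_, ?_⟩ <;> simp [e3]
  rw [h1, coeff_mul_X]

theorem cD_tr (D : Derivation ℚ ℂ ℂ) (P : V3) (F : R3) : cD D (tr P F) = tr P (cD D F) +
    (C (D (P 0)) * tr P (pderiv 0 F) + C (D (P 1)) * tr P (pderiv 1 F) +
      C (D (P 2)) * tr P (pderiv 2 F)) * X 2 := by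
  unfold tr
  rw [cD_aeval, Fin.sum_univ_three]
  simp only [Matrix.cons_val_zero, Matrix.cons_val_one, Matrix.cons_val, map_add, cD_mul, cD_X,
    cD_C, mul_zero, add_zero, zero_add]
  ring

theorem pderiv_cz_zero (j : ℕ) (F : R3) : pderiv 0 (cz j F) = cz j (pderiv 0 F) := by
  apply R2_ext
  intro a b
  rw [coeff_pderiv, coeff_cz, coeff_pderiv]
  have h1 : e2 a b + Finsupp.single 0 1 = e2 (a + 1) b := by
    rw [e2_eq]
    constructor <;> simp [e2]
  have h2 : e3 a b j + Finsupp.single 0 1 = e3 (a + 1) b j := by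
    rw [e3_eq]
    refine ⟨?_, ?_, ?_⟩ <;> simp [e3]
  rw [h1, h2, coeff_cz]
  rfl

theorem pderiv_cz_one (j : ℕ) (F : R3) : pderiv 1 (cz j F) = cz j (pderiv 1 F) := by
  apply R2_ext
  intro a b
  rw [coeff_pderiv, coeff_cz, coeff_pderiv]
  have h1 : e2 a b + Finsupp.single 1 1 = e2 a (b + 1) := by
    rw [e2_eq]
    constructor <;> simp [e2]
  have h2 : e3 a b j + Finsupp.single 1 1 = e3 a (b + 1) j := by
    rw [e3_eq]
    refine ⟨?_, ?_, ?_⟩ <;> simp [e3]
  rw [h1, h2, coeff_cz]
  rfl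

theorem tr_pderiv_zero (P : V3) (F : R3) : tr P (pderiv 0 F) = pderiv 0 (tr P F) := by
  rw [pderiv_tr]
  congr 1
  have h : tv P (Pi.single 0 1) = Pi.single 0 1 := by
    ext i
    fin_cases i <;> simp [tv]
  rw [h, dir_apply, Finset.sum_eq_single 0]
  · rw [Pi.single_eq_same, C_1, one_mul]
  · intro b _ hb
    rw [Pi.single_eq_of_ne hb, C_0, zero_mul]
  · intro h
    exact absurd (Finset.mem_univ _) h

theorem tr_pderiv_one (P : V3) (F : R3) : tr P (pderiv 1 F) = pderiv 1 (tr P F) := by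
  rw [pderiv_tr]
  congr 1
  have h : tv P (Pi.single 1 1) = Pi.single 1 1 := by
    ext i
    fin_cases i <;> simp [tv]
  rw [h, dir_apply, Finset.sum_eq_single 1]
  · rw [Pi.single_eq_same, C_1, one_mul]
  · intro b _ hb
    rw [Pi.single_eq_of_ne hb, C_0, zero_mul]
  · intro h
    exact absurd (Finset.mem_univ _) h

theorem ld_pderiv_zero (d k : ℕ) (P : V3) (F : R3) :
    ld d k P (pderiv 0 F) = pderiv 0 (ld d k P F) := by
  change cz (d - k) (tr P _) = pderiv 0 (cz (d - k) (tr P F))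
  rw [pderiv_cz_zero, tr_pderiv_zero]

theorem ld_pderiv_one (d k : ℕ) (P : V3) (F : R3) :
    ld d k P (pderiv 1 F) = pderiv 1 (ld d k P F) := by
  change cz (d - k) (tr P _) = pderiv 1 (cz (d - k) (tr P F))
  rw [pderiv_cz_one, tr_pderiv_one]

theorem cz_C_mul (j : ℕ) (c : ℂ) (F : R3) : cz j (C c * F) = C c * cz j F := by
  rw [← smul_eq_C_mul, map_smul, smul_eq_C_mul]

/-- the derivative of the leading part when the point moves, the third coordinate being fixed -/
theorem cD_ld_move (D : Derivation ℚ ℂ ℂ) {P : V3} (h2 : D (P 2) = 0) {d k : ℕ} (hk : k + 1 ≤ d)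
    (F : R3) : cD D (ld d k P F) = ld d k P (cD D F) +
      (C (D (P 0)) * pderiv 0 (ld d (k + 1) P F) + C (D (P 1)) * pderiv 1 (ld d (k + 1) P F)) := by
  rw [← ld_pderiv_zero, ← ld_pderiv_one]
  change cD D (cz (d - k) (tr P F)) = cz (d - k) (tr P (cD D F)) +
    (C (D (P 0)) * cz (d - (k + 1)) (tr P (pderiv 0 F)) +
      C (D (P 1)) * cz (d - (k + 1)) (tr P (pderiv 1 F)))
  obtain ⟨j, hj⟩ : ∃ j, d - k = j + 1 := ⟨d - k - 1, by omega⟩
  have hj' : d - (k + 1) = j := by omega
  rw [cD_cz, cD_tr, h2, map_zero, zero_mul, add_zero, hj, hj', map_add, cz_mul_X2, map_add,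
    cz_C_mul, cz_C_mul]

theorem cD_ld (D : Derivation ℚ ℂ ℂ) {P : V3} (hP : ∀ k, D (P k) = 0) (d k : ℕ) (F : R3) :
    cD D (ld d k P F) = ld d k P (cD D F) := by
  change cD D (cz (d - k) (tr P F)) = cz (d - k) (tr P (cD D F))
  rw [cD_cz, cD_tr, hP, hP, hP, map_zero, zero_mul, zero_mul, zero_mul, add_zero, add_zero,
    zero_mul, add_zero]

theorem vanishTo_cD (D : Derivation ℚ ℂ ℂ) {P : V3} {F : R3} {k : ℕ} (h : VanishTo F P (k + 1)) :
    VanishTo (cD D F) P k := by
  have h1 := (LD.Rk.vanishTo_cD_dir D h).mono (Nat.le_succ k)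
  have h2 : VanishTo (dir (fun i => D (P i)) F) P k := by
    rw [dir_apply, Fin.sum_univ_three]
    have h3 : ∀ i, VanishTo (C (D (P i)) * pderiv i F) P k := fun i => by
      have h4 := vanishTo_mul (vanishTo_zero (C (D (P i))) P) (vanishTo_pderiv i h)
      rwa [zero_add] at h4
    exact vanishTo_add (vanishTo_add (h3 0) (h3 1)) (h3 2)
  have h3 := vanishTo_add h1 (vanishTo_smul (-1) h2)
  have h4 : cD D F + dir (fun i => D (P i)) F + (-1 : ℂ) • dir (fun i => D (P i)) F = cD D F := by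
    rw [neg_smul, one_smul]
    ring
  rwa [h4] at h3

theorem vanishTo_cD_fixed (D : Derivation ℚ ℂ ℂ) {P : V3} (hP : ∀ k, D (P k) = 0) {F : R3} {k : ℕ}
    (h : VanishTo F P k) : VanishTo (cD D F) P k := LD.Rk.vanishTo_fixed D hP h

/-! ### bad directions -/

theorem eval_dir_component {F : R3} {d : ℕ} (hF : F.IsHomogeneous d) {P : V3} (hP : P 2 ≠ 0)
    {m : ℕ} (h : VanishTo F P m) (u w : V3) :
    eval u (dir w (homogeneousComponent m (translate P F))) =
      pr P w 0 * eval (pr P u) (pderiv 0 (ldr m P F)) +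
        pr P w 1 * eval (pr P u) (pderiv 1 (ldr m P F)) := by
  cases m with
  | zero =>
    unfold ldr
    rw [homogeneousComponent_zero, dir_C, map_zero, res_C, pderiv_C, pderiv_C, map_zero, mul_zero,
      mul_zero, add_zero]
  | succ k =>
    have key : ∀ i : Fin 3, eval u (pderiv i (homogeneousComponent (k + 1) (translate P F))) =
        eval (pr P u) (ldr k P (pderiv i F)) := by
      intro i
      rw [← component_pderiv, ← translate_pderiv]
      exact eval_component_pr hF.pderiv hP (vanishTo_pderiv i h) u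
    have h0 : ldr k P (pderiv 0 F) = pderiv 0 (ldr (k + 1) P F) := by
      unfold ldr
      rw [translate_pderiv, component_pderiv, res_pderiv_zero]
    have h1 : ldr k P (pderiv 1 F) = pderiv 1 (ldr (k + 1) P F) := by
      unfold ldr
      rw [translate_pderiv, component_pderiv, res_pderiv_one]
    have hE := congrArg (eval u) (dir_component_zero hF h)
    rw [map_zero, dir_apply, map_sum, Fin.sum_univ_three, map_mul, map_mul, map_mul, eval_C, eval_C,
      eval_C, key 0, key 1, h0, h1] at hE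
    rw [dir_apply, map_sum, Fin.sum_univ_three, map_mul, map_mul, map_mul, eval_C, eval_C,
      eval_C, key 0, key 1, h0, h1]
    have h3 : pr P w 0 = w 0 - w 2 / P 2 * P 0 := rfl
    have h4 : pr P w 1 = w 1 - w 2 / P 2 * P 1 := rfl
    rw [h3, h4]
    have h5 : eval u (pderiv 2 (homogeneousComponent (k + 1) (translate P F))) =
        -(P 0 * eval (pr P u) (pderiv 0 (ldr (k + 1) P F)) +
          P 1 * eval (pr P u) (pderiv 1 (ldr (k + 1) P F))) / P 2 := by
      rw [eq_div_iff hP]
      linear_combination hE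
    rw [h5]
    field_simp
    ring

theorem B_component {F : R3} {d : ℕ} (hF : F.IsHomogeneous d) (P : V3) {k : ℕ} (hk : k ≤ d)
    (A : R3) : B (lin P ^ (d - k) * A) F =
      (d - k).factorial * B A (homogeneousComponent k (translate P F)) := by
  rw [B_lin_pow_mul, taylor_component hF P hk, B_C_mul_right, ← mul_assoc,
    mul_inv_cancel₀ (by exact_mod_cast Nat.factorial_ne_zero _), one_mul]

theorem B_lin_pow_component {F : R3} {d : ℕ} (hF : F.IsHomogeneous d) (P : V3) {k : ℕ} (hk : k ≤ d)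
    (u : V3) : B (lin P ^ (d - k) * lin u ^ k) F =
      (d - k).factorial * (k.factorial * eval u (homogeneousComponent k (translate P F))) := by
  rw [B_component hF P hk, B_lin_pow (homogeneousComponent_isHomogeneous k _)]

theorem B_lin_pow_component' {F : R3} {d : ℕ} (hF : F.IsHomogeneous d) (P : V3) {k : ℕ}
    (hk : k + 1 ≤ d) (u w : V3) : B (lin P ^ (d - (k + 1)) * (lin u ^ k * lin w)) F =
      (d - (k + 1)).factorial * (k.factorial *
        eval u (dir w (homogeneousComponent (k + 1) (translate P F)))) := by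
  have h1 := dir_isHomogeneous w (homogeneousComponent_isHomogeneous (k + 1) (translate P F))
  rw [Nat.add_sub_cancel] at h1
  rw [B_component hF P hk, mul_comm (lin u ^ k), B_lin_mul, B_lin_pow h1]

theorem badDir_iff {F : R3} {d m : ℕ} (hF : F.IsHomogeneous d) {P : V3} (hP : P 2 ≠ 0)
    (hmd : m ≤ d) (hv : VanishTo F P m) {u : V3} :
    BadDir d F P m u ↔ eval (pr P u) (ld d m P F) = 0 ∧
      ∀ k, eval (pr P u) (pderiv k (ld d m P F)) = 0 := by
  have hf : ∀ n : ℕ, (n.factorial : ℂ) ≠ 0 := fun n => by exact_mod_cast Nat.factorial_ne_zero n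
  rw [ld_eq_ldr hF hmd]
  unfold BadDir
  rw [B_lin_pow_component hF P hmd, eval_component_pr hF hP hv, mul_eq_zero, mul_eq_zero]
  simp only [hf, false_or]
  refine and_congr_right fun _ => ?_
  cases m with
  | zero =>
    constructor
    · intro _ k
      unfold ldr
      rw [homogeneousComponent_zero, res_C, pderiv_C, map_zero]
    · intro _ h
      omega
  | succ n =>
    have key : ∀ w, B (lin P ^ (d - (n + 1)) * (lin u ^ (n + 1 - 1) * lin w)) F = 0 ↔
        pr P w 0 * eval (pr P u) (pderiv 0 (ldr (n + 1) P F)) +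
        pr P w 1 * eval (pr P u) (pderiv 1 (ldr (n + 1) P F)) = 0 := by
      intro w
      rw [Nat.add_sub_cancel, B_lin_pow_component' hF P hmd, eval_dir_component hF hP hv,
        mul_eq_zero, mul_eq_zero]
      simp only [hf, false_or]
    constructor
    · intro h k
      have h0 := (key ![1, 0, 0]).mp (h (by omega) _)
      have h1 := (key ![0, 1, 0]).mp (h (by omega) _)
      simp only [pr, Matrix.cons_val_zero, Matrix.cons_val_one, Matrix.cons_val] at h0 h1
      fin_cases k
      · simpa [pr] using h0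
      · simpa [pr] using h1
    · intro h _ w
      rw [key, h 0, h 1, mul_zero, mul_zero, add_zero]

theorem pr_eq_zero {P : V3} (hP : P 2 ≠ 0) {u : V3} : pr P u = 0 ↔ cr P u = 0 := by
  constructor
  · intro h
    have h0 := congrFun h 0
    have h1 := congrFun h 1
    simp only [pr, Matrix.cons_val_zero, Matrix.cons_val_one, Pi.zero_apply] at h0 h1
    have h0' : P 2 * u 0 = u 2 * P 0 := by
      field_simp at h0
      linear_combination h0
    have h1' : P 2 * u 1 = u 2 * P 1 := by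
      field_simp at h1
      linear_combination h1
    ext i
    fin_cases i
    · simp [cr]
      linear_combination -h1'
    · simp [cr]
      linear_combination h0'
    · simp [cr]
      apply mul_left_cancel₀ hP
      linear_combination P 0 * h1' - P 1 * h0'
  · intro h
    have h0 := congrFun h 0
    have h1 := congrFun h 1
    simp only [cr, Matrix.cons_val_zero, Matrix.cons_val_one, Pi.zero_apply] at h0 h1
    ext i
    fin_cases i
    · simp [pr]
      field_simp
      linear_combination h1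
    · simp [pr]
      field_simp
      linear_combination -h0

theorem pr_flat (P : V3) (y : V2) : pr P ![y 0, y 1, 0] = y := by
  ext i
  fin_cases i <;> simp [pr]

/-- bad directions are the multiple roots of the leading part -/
theorem badDir_iff_ld {F : R3} {d m : ℕ} (hF : F.IsHomogeneous d) {P : V3} (hP : P 2 ≠ 0)
    (hm : 1 ≤ m) (hmd : m ≤ d) (hv : VanishTo F P m) :
    (∃ u, cr P u ≠ 0 ∧ BadDir d F P m u) ↔
      ∃ y : V2, y ≠ 0 ∧ ∀ k, eval y (pderiv k (ld d m P F)) = 0 := by
  constructor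
  · rintro ⟨u, hu, hb⟩
    exact ⟨pr P u, fun h => hu ((pr_eq_zero hP).mp h), ((badDir_iff hF hP hmd hv).mp hb).2⟩
  · rintro ⟨y, hy, hb⟩
    refine ⟨![y 0, y 1, 0], ?_, ?_⟩
    · intro h
      rw [← pr_eq_zero hP, pr_flat] at h
      exact hy h
    · rw [badDir_iff hF hP hmd hv, pr_flat]
      refine ⟨?_, hb⟩
      have h1 := (ld_hom hF hmd P).sum_X_mul_pderiv
      have h2 := congrArg (eval y) h1
      rw [map_sum, map_nsmul, Finset.sum_eq_zero] at h2
      · rw [eq_comm, smul_eq_zero] at h2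
        exact h2.resolve_left (by omega)
      · intro i _
        rw [map_mul, hb i, mul_zero]

theorem ld_zero_eq {F : R3} {d : ℕ} (hF : F.IsHomogeneous d) (P : V3) :
    ld d 0 P F = C (eval P F) := by
  rw [ld_eq_ldr hF (Nat.zero_le d)]
  unfold ldr
  rw [homogeneousComponent_zero, res_C]
  congr 1
  have h1 := eval_translate P 0 F
  rw [add_zero] at h1
  rw [← h1, eval_zero]
  rfl

theorem badDir_zero_iff {F : R3} {d : ℕ} (hF : F.IsHomogeneous d) {P : V3} (hP : P 2 ≠ 0) :
    (∃ u, cr P u ≠ 0 ∧ BadDir d F P 0 u) ↔ ld d 0 P F = 0 := by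
  rw [ld_zero_eq hF]
  have hf : ∀ n : ℕ, (n.factorial : ℂ) ≠ 0 := fun n => by exact_mod_cast Nat.factorial_ne_zero n
  have key : ∀ u, BadDir d F P 0 u ↔ eval P F = 0 := by
    intro u
    unfold BadDir
    rw [Nat.sub_zero, pow_zero, mul_one, B_lin_pow hF, mul_eq_zero]
    constructor
    · rintro ⟨h, _⟩
      exact h.resolve_left (hf d)
    · intro h
      exact ⟨Or.inr h, fun h => absurd h (by omega)⟩
  constructor
  · rintro ⟨u, _, hb⟩
    rw [(key u).mp hb, C_0]
  · intro h
    obtain ⟨u, hu⟩ := exists_cr_ne (p := P) (fun h => hP (by rw [h]; rfl))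
    refine ⟨u, hu, (key u).mpr ?_⟩
    exact C_injective _ _ (by rw [h, C_0])

/-! ### products -/

theorem ldr_mul {F G : R3} {k : ℕ} {P : V3} (hv : VanishTo G P k) :
    ldr k P (F * G) = C (eval P F) * ldr k P G := by
  have h1 : VanishTo (F - C (eval P F)) P 1 := by
    rw [vanishTo_one_iff', map_sub, eval_C, sub_self]
  have h2 := vanishTo_mul h1 hv
  have h3 : homogeneousComponent k (translate P (F * G)) =
      C (eval P F) * homogeneousComponent k (translate P G) := by
    have h4 := h2 k (by omega)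
    have h5 : translate P ((F - C (eval P F)) * G) = translate P (F * G) -
        C (eval P F) * translate P G := by
      unfold translate
      rw [map_mul, map_sub, algHom_C, map_mul, sub_mul]
      rfl
    rw [h5, map_sub, sub_eq_zero, homogeneousComponent_C_mul] at h4
    exact h4
  unfold ldr
  rw [h3, map_mul, res_C]

theorem ld_mul {F G : R3} {d e k : ℕ} (hF : F.IsHomogeneous d) (hG : G.IsHomogeneous e) {P : V3}
    (hP : P 2 ≠ 0) (hk : k ≤ e) (hv : VanishTo G P k) :
    ld (d + e) k P (F * G) = C (eval P F) * ld e k P G := by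
  rw [ld_eq_ldr (hF.mul hG) (by omega), ld_eq_ldr hG hk, ldr_mul hv]

/-! ### flags -/

theorem fd_eq (d k : ℕ) (P : V3) (c : ℂ) (i : ℕ) (F : R3) :
    fd d k P c i F = eval ![c, 1] ((pderiv 0)^[i] (ld d k P F)) := rfl

theorem cD_pderiv_iter (D : Derivation ℚ ℂ ℂ) (i : ℕ) (G : R2) :
    cD D ((pderiv 0)^[i] G) = (pderiv 0)^[i] (cD D G) := by
  induction i generalizing G with
  | zero => rfl
  | succ i ih => rw [Function.iterate_succ_apply, ih, cD_pderiv, Function.iterate_succ_apply]

/-- the flag functionals under derivations which fix the point -/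
theorem D_fd (D : Derivation ℚ ℂ ℂ) {P : V3} (hP : ∀ k, D (P k) = 0) (d k : ℕ) (c : ℂ) (i : ℕ)
    (F : R3) : D (fd d k P c i F) = fd d k P c i (cD D F) + D c * fd d k P c (i + 1) F := by
  rw [fd_eq, fd_eq, fd_eq, D_eval, cD_pderiv_iter, cD_ld D hP, Fin.sum_univ_two,
    Function.iterate_succ_apply']
  simp

theorem ld_eq_zero_of_fd {d k : ℕ} (hk : k ≤ d) {P : V3} {c : ℂ} {F : R3} (hF : F.IsHomogeneous d)
    (h : ∀ i, fd d k P c i F = 0) : ld d k P F = 0 := by
  have hh := ld_hom hF hk P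
  have h1 : ∀ i, (Polynomial.derivative^[i] (deh (ld d k P F))).eval c = 0 := by
    intro i
    rw [deriv_deh_iterate, eval_deh]
    exact h i
  have h2 : deh (ld d k P F) = 0 := by
    by_contra h0
    have h3 := Polynomial.lt_rootMultiplicity_of_isRoot_iterate_derivative h0
      (n := (deh (ld d k P F)).natDegree) (t := c) (fun m _ => h1 m)
    have h4 := (Polynomial.count_roots (a := c) (deh (ld d k P F))).symm.le.trans
      ((Multiset.count_le_card _ _).trans (Polynomial.card_roots' _))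
    omega
  exact eq_zero_of_deh hh h2

/-! ### places -/

theorem LP_tr (ρ : Pl) {P P' : V3} (hP : ∀ k, ρ.L (P k) (P' k)) {F F' : R3} (h : ρ.LP F F') :
    ρ.LP (tr P F) (tr P' F') := by
  unfold tr
  refine h.aeval fun i => ?_
  fin_cases i
  · exact (ρ.LP_X 0).add ((ρ.LP_C (hP 0)).mul (ρ.LP_X 2))
  · exact (ρ.LP_X 1).add ((ρ.LP_C (hP 1)).mul (ρ.LP_X 2))
  · exact (ρ.LP_C (hP 2)).mul (ρ.LP_X 2)

theorem LP_cz (ρ : Pl) {F F' : R3} (h : ρ.LP F F') (j : ℕ) : ρ.LP (cz j F) (cz j F') := by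
  intro α
  have h1 : α = e2 (α 0) (α 1) := e2_eq.mpr ⟨rfl, rfl⟩
  rw [h1, coeff_cz, coeff_cz]
  exact h _

theorem LP_ld (ρ : Pl) {P P' : V3} (hP : ∀ k, ρ.L (P k) (P' k)) {F F' : R3} (h : ρ.LP F F')
    (d k : ℕ) : ρ.LP (ld d k P F) (ld d k P' F') := by
  rw [ld_apply, ld_apply]
  exact LP_cz ρ (LP_tr ρ hP h) (d - k)

theorem LP_pderiv_iter (ρ : Pl) {G G' : R2} (h : ρ.LP G G') (i : ℕ) :
    ρ.LP ((pderiv 0)^[i] G) ((pderiv 0)^[i] G') := by
  induction i with
  | zero => exact h
  | succ i ih =>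
    rw [Function.iterate_succ_apply', Function.iterate_succ_apply']
    exact ih.pderiv 0

theorem L_fd (ρ : Pl) {P P' : V3} (hP : ∀ k, ρ.L (P k) (P' k)) {F F' : R3} (h : ρ.LP F F')
    {c c' : ℂ} (hc : ρ.L c c') (d k i : ℕ) : ρ.L (fd d k P c i F) (fd d k P' c' i F') := by
  rw [fd_eq, fd_eq]
  refine (LP_pderiv_iter ρ (LP_ld ρ hP h d k) i).eval fun j => ?_
  fin_cases j
  · exact hc
  · exact ρ.one

end Pool.Agent.Work.MP_0421d9_ag.ZC
end

section
/-!
Collisions of generic points: the chain argument.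
-/

set_option linter.unusedSectionVars false
set_option linter.unusedVariables false

namespace Pool.Agent.Work.MP_0421d9_ag.ZC

open MvPolynomial Module SM

/-- coefficientwise derivative of a pair -/
noncomputable def ps {n : ℕ} (D : Derivation ℚ ℂ ℂ) (H : R3 × MvPolynomial (Fin n) ℂ) :
    R3 × MvPolynomial (Fin n) ℂ := (cD D H.1, cD D H.2)

/-- data for the chain argument: pairs `(H, Θ)` -/
structure Chn {ι Λ : Type} (n N d : ℕ) (p : ι → V3) (m : ι → ℕ) (w : Λ → ℕ)
    (BB : Submodule ℂ (R3 × MvPolynomial (Fin n) ℂ)) (f : Λ → ℕ → R3 →ₗ[ℂ] ℂ)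
    (E : ι → Fin 2 → Derivation ℚ ℂ ℂ) (D : Λ → Derivation ℚ ℂ ℂ) : Prop where
  hd : ∀ i, m i ≤ d
  hp : ∀ i, p i 2 ≠ 0
  hom1 : ∀ H ∈ BB, H.1.IsHomogeneous d
  hom2 : ∀ H ∈ BB, H.2.IsHomogeneous N
  E2 : ∀ i k j, E i k (p j 2) = 0
  Ep : ∀ i (k l : Fin 2), E i k (p i l.castSucc) = if k = l then 1 else 0
  Ep' : ∀ i k j (l : Fin 2), i ≠ j → E i k (p j l.castSucc) = 0
  Dp : ∀ l j k, D l (p j k) = 0
  stE : ∀ i k, ∀ H ∈ BB, ps (E i k) H ∈ BB
  stD : ∀ l, ∀ H ∈ BB, ps (D l) H ∈ BB
  lawE : ∀ i k l j, ∀ H ∈ BB, E i k (f l j H.1) = f l j (cD (E i k) H.1)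
  lawD : ∀ l j, ∀ H ∈ BB, D l (f l j H.1) = f l j (cD (D l) H.1) + f l (j + 1) H.1
  lawD' : ∀ l l' j, l ≠ l' → ∀ H ∈ BB, D l (f l' j H.1) = f l' j (cD (D l) H.1)

/-- the members with multiplicities `y` -/
noncomputable def VV {ι : Type} {n : ℕ} (d : ℕ) (p : ι → V3)
    (BB : Submodule ℂ (R3 × MvPolynomial (Fin n) ℂ)) (y : ι → ℕ) :
    Submodule ℂ (R3 × MvPolynomial (Fin n) ℂ) :=
  BB ⊓ (linSys d p y).comap (LinearMap.fst ℂ _ _)

/-- linear dependence modulo a vector -/
theorem lin_dep {r n : ℕ} (hr : n ≤ r) (u : Fin r → (Fin n → ℂ)) {q : Fin n → ℂ} (hq : q ≠ 0) :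
    ∃ a : Fin r → ℂ, a ≠ 0 ∧ ∃ κ : ℂ, ∑ i, a i • u i = κ • q := by
  let L : ((Fin r → ℂ) × ℂ) →ₗ[ℂ] (Fin n → ℂ) :=
    { toFun := fun x => ∑ i, x.1 i • u i - x.2 • q
      map_add' := fun x y => by
        simp only [Prod.fst_add, Prod.snd_add, Pi.add_apply, add_smul, Finset.sum_add_distrib]
        abel
      map_smul' := fun c x => by
        simp only [Prod.smul_fst, Prod.smul_snd, Pi.smul_apply, smul_eq_mul, mul_smul,
          RingHom.id_apply, smul_sub, Finset.smul_sum] }
  have h1 : LinearMap.ker L ≠ ⊥ := by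
    apply LinearMap.ker_ne_bot_of_finrank_lt
    rw [finrank_prod, Module.finrank_fintype_fun_eq_card, Module.finrank_fintype_fun_eq_card,
      Fintype.card_fin, Fintype.card_fin, Module.finrank_self]
    omega
  obtain ⟨x, hx, hx0⟩ := Submodule.exists_mem_ne_zero_of_ne_bot h1
  have h2 : ∑ i, x.1 i • u i = x.2 • q := by
    have : L x = 0 := hx
    exact sub_eq_zero.mp this
  refine ⟨x.1, ?_, x.2, h2⟩
  intro h0
  apply hx0
  have h3 : x.2 • q = 0 := by
    rw [← h2, h0]
    simp
  have h4 : x.2 = 0 := (smul_eq_zero.mp h3).resolve_right hq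
  exact Prod.ext h0 h4

/-- a functional which kills the derivatives in one direction is zero -/
theorem dir_surj {k : ℕ} {a b : ℂ} (hab : a ≠ 0 ∨ b ≠ 0) (L : R2 →ₗ[ℂ] ℂ)
    (h : ∀ β : R2, β.IsHomogeneous (k + 1) → L (C a * pderiv 0 β + C b * pderiv 1 β) = 0) :
    ∀ γ : R2, γ.IsHomogeneous k → L γ = 0 := by
  have hmon : ∀ i j : ℕ, (X 0 ^ i * X 1 ^ j : R2).IsHomogeneous (i + j) := by
    intro i j
    have h1 := ((isHomogeneous_X ℂ (0 : Fin 2)).pow i).mul ((isHomogeneous_X ℂ (1 : Fin 2)).pow j)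
    simpa using h1
  have hd0 : ∀ i j : ℕ, pderiv 0 (X 0 ^ i * X 1 ^ j : R2) = C (i : ℂ) * (X 0 ^ (i - 1) * X 1 ^ j) := by
    intro i j
    rw [pderiv_mul, pderiv_pow, pderiv_pow, pderiv_X_self, pderiv_X_of_ne (by decide)]
    simp
    ring
  have hd1 : ∀ i j : ℕ, pderiv 1 (X 0 ^ i * X 1 ^ j : R2) = C (j : ℂ) * (X 0 ^ i * X 1 ^ (j - 1)) := by
    intro i j
    rw [pderiv_mul, pderiv_pow, pderiv_pow, pderiv_X_self, pderiv_X_of_ne (by decide)]
    simp
    ring
  have hL : ∀ (c : ℂ) (β : R2), L (C c * β) = c * L β := by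
    intro c β
    rw [← smul_eq_C_mul, map_smul, smul_eq_mul]
  have hall : ∀ j i : ℕ, i + j = k → L (X 0 ^ i * X 1 ^ j) = 0 := by
    by_cases ha : a = 0
    · have hb : b ≠ 0 := hab.resolve_left (fun h => h ha)
      intro j i hij
      have h1 := h (X 0 ^ i * X 1 ^ (j + 1)) (by
        have := hmon i (j + 1)
        rwa [← add_assoc, hij] at this)
      rw [ha, C_0, zero_mul, zero_add, hd1, Nat.add_sub_cancel, hL, hL] at h1
      have h2 : ((j + 1 : ℕ) : ℂ) ≠ 0 := by
        rw [Nat.cast_ne_zero]; omega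
      exact (mul_eq_zero.mp ((mul_eq_zero.mp h1).resolve_left hb)).resolve_left h2
    · intro j
      induction j with
      | zero =>
        intro i hij
        have h1 := h (X 0 ^ (i + 1) * X 1 ^ 0) (by
          subst hij
          have := hmon (i + 1) 0
          simpa using this)
        rw [hd0, hd1, Nat.add_sub_cancel, map_add, hL, hL, hL, hL] at h1
        rw [Nat.cast_zero, zero_mul, mul_zero, add_zero] at h1
        have h2 : ((i + 1 : ℕ) : ℂ) ≠ 0 := by
          rw [Nat.cast_ne_zero]; omega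
        exact (mul_eq_zero.mp ((mul_eq_zero.mp h1).resolve_left ha)).resolve_left h2
      | succ j ih =>
        intro i hij
        have h1 := h (X 0 ^ (i + 1) * X 1 ^ (j + 1)) (by
          have := hmon (i + 1) (j + 1)
          rwa [(by omega : i + 1 + (j + 1) = k + 1)] at this)
        rw [hd0, hd1, Nat.add_sub_cancel, Nat.add_sub_cancel, map_add, hL, hL, hL, hL,
          ih (i + 1) (by omega), mul_zero, mul_zero, add_zero] at h1
        have h2 : ((i + 1 : ℕ) : ℂ) ≠ 0 := by
          rw [Nat.cast_ne_zero]; omega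
        exact (mul_eq_zero.mp ((mul_eq_zero.mp h1).resolve_left ha)).resolve_left h2
  intro γ hγ
  rw [γ.as_sum, map_sum]
  refine Finset.sum_eq_zero (fun α hα => ?_)
  have hα' : α = e2 (α 0) (α 1) := e2_eq.mpr ⟨rfl, rfl⟩
  rw [MvPolynomial.mem_support_iff] at hα
  have h1 := hγ hα
  have h2 : α 0 + α 1 = k := by
    rw [← h1, Finsupp.weight_apply, Finsupp.sum_fintype _ _ (fun _ => by simp),
      Fin.sum_univ_two]
    simp
  have h3 : monomial α (coeff α γ) = C (coeff α γ) * (X 0 ^ α 0 * X 1 ^ α 1) := by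
    conv_lhs => rw [hα']
    rw [mono2]
    congr 2
    rw [← hα']
  rw [h3, hL, hall _ _ h2, mul_zero]

/-- factorisation of functionals -/
theorem exists_factor {U W : Type} [AddCommGroup U] [Module ℂ U] [AddCommGroup W] [Module ℂ W]
    (V : Submodule ℂ U) (η : U →ₗ[ℂ] ℂ) (L : U →ₗ[ℂ] W) (h : ∀ x ∈ V, L x = 0 → η x = 0) :
    ∃ g : W →ₗ[ℂ] ℂ, ∀ x ∈ V, η x = g (L x) := by
  have h1 : LinearMap.range (L.domRestrict V).dualMap =
      (LinearMap.ker (L.domRestrict V)).dualAnnihilator :=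
    LinearMap.range_dualMap_eq_dualAnnihilator_ker _
  have h2 : (η.domRestrict V) ∈ (LinearMap.ker (L.domRestrict V)).dualAnnihilator := by
    rw [Submodule.mem_dualAnnihilator]
    intro x hx
    exact h x x.2 hx
  rw [← h1] at h2
  obtain ⟨g, hg⟩ := h2
  refine ⟨g, fun x hx => ?_⟩
  have := LinearMap.congr_fun hg ⟨x, hx⟩
  exact this.symm

section main

variable {ι Λ : Type} [Fintype ι] [Fintype Λ] [DecidableEq ι] [DecidableEq Λ]
  {n N d : ℕ} {p : ι → V3} {m : ι → ℕ} {w : Λ → ℕ}
  {BB : Submodule ℂ (R3 × MvPolynomial (Fin n) ℂ)} {f : Λ → ℕ → R3 →ₗ[ℂ] ℂ}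
  {E : ι → Fin 2 → Derivation ℚ ℂ ℂ} {D : Λ → Derivation ℚ ℂ ℂ}

/-- the admissible derivations -/
structure Adm (p : ι → V3) (BB : Submodule ℂ (R3 × MvPolynomial (Fin n) ℂ))
    (f : Λ → ℕ → R3 →ₗ[ℂ] ℂ) (Δ : Derivation ℚ ℂ ℂ) (α : Λ → ℂ) (mot : ι → Fin 2 → ℂ) :
    Prop where
  st : ∀ H ∈ BB, ps Δ H ∈ BB
  law : ∀ l j, ∀ H ∈ BB, Δ (f l j H.1) = f l j (cD Δ H.1) + α l * f l (j + 1) H.1
  p2 : ∀ j, Δ (p j 2) = 0
  pk : ∀ j (k : Fin 2), Δ (p j k.castSucc) = mot j k

theorem Adm.add {Δ Δ' : Derivation ℚ ℂ ℂ} {α α' : Λ → ℂ} {mot mot' : ι → Fin 2 → ℂ}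
    (h : Adm p BB f Δ α mot) (h' : Adm p BB f Δ' α' mot') :
    Adm p BB f (Δ + Δ') (α + α') (mot + mot') where
  st := fun H hH => by
    have h1 : ps (Δ + Δ') H = ps Δ H + ps Δ' H := by
      unfold ps
      rw [cD_add_left, cD_add_left]
      rfl
    rw [h1]
    exact add_mem (h.st H hH) (h'.st H hH)
  law := fun l j H hH => by
    rw [Derivation.add_apply, h.law l j H hH, h'.law l j H hH, cD_add_left, map_add, Pi.add_apply]
    ring
  p2 := fun j => by rw [Derivation.add_apply, h.p2, h'.p2, add_zero]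
  pk := fun j k => by rw [Derivation.add_apply, h.pk, h'.pk]; rfl

theorem Adm.smul {Δ : Derivation ℚ ℂ ℂ} {α : Λ → ℂ} {mot : ι → Fin 2 → ℂ}
    (h : Adm p BB f Δ α mot) (a : ℂ) : Adm p BB f (a • Δ) (a • α) (a • mot) where
  st := fun H hH => by
    have h1 : ps (a • Δ) H = a • ps Δ H := by
      unfold ps
      rw [cD_smul_left, cD_smul_left]
      rfl
    rw [h1]
    exact Submodule.smul_mem _ _ (h.st H hH)
  law := fun l j H hH => by
    rw [Derivation.smul_apply, h.law l j H hH, cD_smul_left, map_smul, Pi.smul_apply,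
      smul_eq_mul, smul_eq_mul, smul_eq_mul]
    ring
  p2 := fun j => by rw [Derivation.smul_apply, h.p2, smul_zero]
  pk := fun j k => by rw [Derivation.smul_apply, h.pk]; rfl

theorem Chn.admD (S : Chn n N d p m w BB f E D) (l : Λ) :
    Adm p BB f (D l) (Pi.single l 1) 0 where
  st := S.stD l
  law := fun l' j H hH => by
    by_cases h : l = l'
    · subst h
      rw [S.lawD l j H hH, Pi.single_eq_same, one_mul]
    · rw [S.lawD' l l' j h H hH, Pi.single_eq_of_ne (Ne.symm h), zero_mul, add_zero]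
  p2 := fun j => S.Dp l j 2
  pk := fun j k => S.Dp l j _

theorem Chn.admE (S : Chn n N d p m w BB f E D) (i : ι) (k : Fin 2) :
    Adm p BB f (E i k) 0 (Pi.single i (Pi.single k 1)) where
  st := S.stE i k
  law := fun l' j H hH => by
    rw [S.lawE i k l' j H hH, Pi.zero_apply, zero_mul, add_zero]
  p2 := fun j => S.E2 i k j
  pk := fun j l => by
    by_cases h : i = j
    · subst h
      rw [S.Ep, Pi.single_eq_same]
      by_cases h' : k = l
      · subst h'
        rw [if_pos rfl, Pi.single_eq_same]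
      · rw [if_neg h', Pi.single_eq_of_ne (Ne.symm h')]
    · rw [S.Ep' i k j l h, Pi.single_eq_of_ne (Ne.symm h)]
      rfl

/-- derivatives which fix the point `q` up to a factor -/
theorem ev_prop {q : Fin n → ℂ} {Δ : Derivation ℚ ℂ ℂ} {κ : ℂ}
    (hq : (fun k => Δ (q k)) = κ • q) {Θ : MvPolynomial (Fin n) ℂ} (hΘ : Θ.IsHomogeneous N) :
    Δ (eval q Θ) = eval q (cD Δ Θ) + κ * N * eval q Θ := by
  rw [D_eval]
  congr 1
  have h1 := congrArg (eval q) hΘ.sum_X_mul_pderiv
  rw [map_sum, map_nsmul, nsmul_eq_mul] at h1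
  rw [mul_assoc, ← h1, Finset.mul_sum]
  refine Finset.sum_congr rfl (fun k _ => ?_)
  have h2 : Δ (q k) = κ * q k := congrFun hq k
  rw [h2, map_mul, eval_X]
  ring

theorem mem_VV {y : ι → ℕ} {H : R3 × MvPolynomial (Fin n) ℂ} :
    H ∈ VV d p BB y ↔ H ∈ BB ∧ H.1 ∈ linSys d p y := Iff.rfl

theorem Chn.mem_VV' (S : Chn n N d p m w BB f E D) {y : ι → ℕ}
    {H : R3 × MvPolynomial (Fin n) ℂ} :
    H ∈ VV d p BB y ↔ H ∈ BB ∧ ∀ i, VanishTo H.1 (p i) (y i) :=
  ⟨fun h => ⟨h.1, h.2.2⟩, fun h => ⟨h.1, S.hom1 H h.1, h.2⟩⟩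

theorem Adm.mem_VV {Δ : Derivation ℚ ℂ ℂ} {α : Λ → ℂ} {mot : ι → Fin 2 → ℂ}
    (h : Adm p BB f Δ α mot) (S : Chn n N d p m w BB f E D) {y y' : ι → ℕ}
    {H : R3 × MvPolynomial (Fin n) ℂ} (hH : H ∈ VV d p BB y)
    (hy : ∀ i, (mot i = 0 ∧ y' i ≤ y i) ∨ y' i + 1 ≤ y i) : ps Δ H ∈ VV d p BB y' := by
  rw [S.mem_VV'] at hH ⊢
  refine ⟨h.st H hH.1, fun i => ?_⟩
  rcases hy i with ⟨h0, h1⟩ | h1
  · refine (vanishTo_cD_fixed Δ (fun k => ?_) (hH.2 i)).mono h1
    by_cases hk : k = 2
    · rw [hk, h.p2]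
    · obtain ⟨k', rfl⟩ : ∃ k' : Fin 2, k = k'.castSucc := by
        fin_cases k
        · exact ⟨0, rfl⟩
        · exact ⟨1, rfl⟩
        · exact absurd rfl hk
      rw [h.pk, h0]
      rfl
  · obtain ⟨k, hk⟩ : ∃ k, y i = k + 1 := ⟨y i - 1, by omega⟩
    have h2 := hH.2 i
    rw [hk] at h2
    exact (vanishTo_cD Δ h2).mono (by omega)

/-- the functional `H ↦ ∑ c l j f l j H` -/
noncomputable def cf (w : Λ → ℕ) (f : Λ → ℕ → R3 →ₗ[ℂ] ℂ) (c : Λ → ℕ → ℂ) : R3 →ₗ[ℂ] ℂ :=
  ∑ l, ∑ j ∈ Finset.range (w l), c l j • f l j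

theorem cf_apply (c : Λ → ℕ → ℂ) (H : R3) :
    cf w f c H = ∑ l, ∑ j ∈ Finset.range (w l), c l j * f l j H := by
  unfold cf
  rw [LinearMap.sum_apply]
  refine Finset.sum_congr rfl (fun l _ => ?_)
  rw [LinearMap.sum_apply]
  rfl

theorem cf_zero_of {c : Λ → ℕ → ℂ} {H : R3}
    (h : ∀ l, ∀ j < w l, c l j = 0 ∨ f l j H = 0) : cf w f c H = 0 := by
  rw [cf_apply]
  refine Finset.sum_eq_zero (fun l _ => Finset.sum_eq_zero (fun j hj => ?_))
  rcases h l j (Finset.mem_range.mp hj) with h1 | h1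
  · rw [h1, zero_mul]
  · rw [h1, mul_zero]

/-- the solution with exact contact orders -/
structure Sol (d : ℕ) (p : ι → V3) (m : ι → ℕ) (w : Λ → ℕ)
    (BB : Submodule ℂ (R3 × MvPolynomial (Fin n) ℂ)) (f : Λ → ℕ → R3 →ₗ[ℂ] ℂ)
    (F : R3 × MvPolynomial (Fin n) ℂ) : Prop where
  dim : 1 + ∑ l, w l ≤ finrank ℂ (VV d p BB m)
  hF : F ∈ VV d p BB m
  fl : ∀ l, ∀ j < w l, f l j F.1 = 0
  ex : ∀ l, f l (w l) F.1 ≠ 0
  uniq : ∀ H ∈ VV d p BB m, (∀ l, ∀ j < w l, f l j H.1 = 0) → ∃ a : ℂ, H = a • F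

variable {F : R3 × MvPolynomial (Fin n) ℂ}

/-- the dual basis of the flag functionals on the members -/
theorem Sol.dual (T : Sol d p m w BB f F) (v : (l : Λ) → ℕ → ℂ) :
    ∃ H ∈ VV d p BB m, ∀ l, ∀ j < w l, f l j H.1 = v l j := by
  classical
  have hfin : Module.Finite ℂ (VV d p BB m) := by
    apply Module.finite_of_finrank_pos
    have := T.dim
    omega
  set L : VV d p BB m →ₗ[ℂ] ((Σ l, Fin (w l)) → ℂ) :=
    LinearMap.pi (fun x => ((f x.1 x.2).comp (LinearMap.fst ℂ _ _)).domRestrict _) with hL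
  have hLa : ∀ (H : VV d p BB m) (x : Σ l, Fin (w l)),
      L H x = f x.1 x.2 (H : R3 × MvPolynomial (Fin n) ℂ).1 := fun H x => rfl
  have h1 := LinearMap.finrank_range_add_finrank_ker L
  have h2 : finrank ℂ (LinearMap.ker L) ≤ 1 := by
    have hle : (LinearMap.ker L).map (VV d p BB m).subtype ≤ Submodule.span ℂ {F} := by
      rintro _ ⟨x, hx, rfl⟩
      have hx' : ∀ l, ∀ j < w l, f l j (x : R3 × MvPolynomial (Fin n) ℂ).1 = 0 := by
        intro l j hj
        rw [← hLa x ⟨l, ⟨j, hj⟩⟩, show L x = 0 from hx]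
        rfl
      obtain ⟨a, ha⟩ := T.uniq x x.2 hx'
      rw [Submodule.subtype_apply, ha]
      exact Submodule.smul_mem _ _ (Submodule.mem_span_singleton_self F)
    have h3 := Submodule.finrank_mono hle
    have h4 : finrank ℂ ((LinearMap.ker L).map (VV d p BB m).subtype) =
        finrank ℂ (LinearMap.ker L) :=
      (Submodule.equivMapOfInjective _ (Submodule.injective_subtype _) _).finrank_eq.symm
    have h5 := finrank_span_le_card (R := ℂ) ({F} : Set (R3 × MvPolynomial (Fin n) ℂ))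
    rw [Set.toFinset_singleton, Finset.card_singleton] at h5
    omega
  have h3 : LinearMap.range L = ⊤ := by
    apply Submodule.eq_top_of_finrank_eq
    have h6 : finrank ℂ (LinearMap.range L) ≤ finrank ℂ ((Σ l, Fin (w l)) → ℂ) :=
      Submodule.finrank_le _
    have h7 : finrank ℂ ((Σ l, Fin (w l)) → ℂ) = ∑ l, w l := by
      rw [Module.finrank_fintype_fun_eq_card, Fintype.card_sigma]
      simp
    have := T.dim
    omega
  obtain ⟨H, hH⟩ := LinearMap.range_eq_top.mp h3 (fun x => v x.1 x.2)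
  refine ⟨H, H.2, fun l j hj => ?_⟩
  have := congrFun hH ⟨l, ⟨j, hj⟩⟩
  rw [hLa] at this
  exact this

/-- independence of the flag functionals -/
theorem Sol.indep (T : Sol d p m w BB f F) {c : Λ → ℕ → ℂ}
    (h : ∀ H ∈ VV d p BB m, cf w f c H.1 = 0) : ∀ l, ∀ j < w l, c l j = 0 := by
  classical
  intro l j hj
  obtain ⟨H, hH, hv⟩ := T.dual (fun l' j' => if l' = l ∧ j' = j then 1 else 0)
  have h1 := h H hH
  rw [cf_apply, Finset.sum_eq_single l] at h1
  · rw [Finset.sum_eq_single j] at h1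
    · rw [hv l j hj, if_pos ⟨rfl, rfl⟩, mul_one] at h1
      exact h1
    · intro j' hj' hne
      rw [hv l j' (Finset.mem_range.mp hj'), if_neg (fun h => hne h.2), mul_zero]
    · intro h2
      exact absurd (Finset.mem_range.mpr hj) h2
  · intro l' _ hne
    refine Finset.sum_eq_zero (fun j' hj' => ?_)
    rw [hv l' j' (Finset.mem_range.mp hj'), if_neg (fun h => hne h.1), mul_zero]
  · intro h2
    exact absurd (Finset.mem_univ l) h2

/-- functionals killing the solution and its derivatives -/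
theorem Sol.repr (T : Sol d p m w BB f F) (S : Chn n N d p m w BB f E D)
    (ξ : R3 × MvPolynomial (Fin n) ℂ →ₗ[ℂ] ℂ) (h0 : ξ F = 0) (hD : ∀ l, ξ (ps (D l) F) = 0) :
    ∃ c : Λ → ℕ → ℂ, (∀ H ∈ VV d p BB m, ξ H = cf w f c H.1) ∧ ∀ l, c l (w l - 1) = 0 := by
  classical
  set L : R3 × MvPolynomial (Fin n) ℂ →ₗ[ℂ] ((Σ l, Fin (w l)) → ℂ) :=
    LinearMap.pi (fun x => (f x.1 x.2).comp (LinearMap.fst ℂ _ _)) with hL
  obtain ⟨g, hg⟩ := exists_factor (VV d p BB m) ξ L (by
    intro H hH hL0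
    obtain ⟨a, ha⟩ := T.uniq H hH (fun l j hj => congrFun hL0 ⟨l, ⟨j, hj⟩⟩)
    rw [ha, map_smul, h0, smul_zero])
  set c : Λ → ℕ → ℂ := fun l j => if h : j < w l then
    g (Pi.single (⟨l, ⟨j, h⟩⟩ : Σ l, Fin (w l)) 1) else 0 with hc
  have hrep : ∀ H ∈ VV d p BB m, ξ H = cf w f c H.1 := by
    intro H hH
    rw [hg H hH, cf_apply]
    have h1 : L H = ∑ x, (L H x) • (Pi.single x 1 : (Σ l, Fin (w l)) → ℂ) := by
      conv_lhs => rw [← Finset.univ_sum_single (L H)]
      refine Finset.sum_congr rfl (fun x _ => ?_)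
      rw [← Pi.single_smul', smul_eq_mul, mul_one]
    rw [h1, map_sum, Fintype.sum_sigma]
    refine Finset.sum_congr rfl (fun l _ => ?_)
    rw [Finset.sum_range]
    refine Finset.sum_congr rfl (fun j _ => ?_)
    rw [map_smul, smul_eq_mul, hc, mul_comm]
    simp only [Fin.is_lt, dite_true]
    rfl
  refine ⟨c, hrep, fun l => ?_⟩
  by_cases hw : w l = 0
  · rw [hc]
    simp only
    rw [dif_neg (by omega)]
  · have h2 : ps (D l) F ∈ VV d p BB m :=
      (S.admD l).mem_VV S T.hF (fun i => Or.inl ⟨rfl, le_rfl⟩)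
    have h3 := hrep _ h2
    rw [hD l, cf_apply, Finset.sum_eq_single l] at h3
    · rw [Finset.sum_eq_single (w l - 1)] at h3
      · have h4 := S.lawD l (w l - 1) F T.hF.1
        rw [T.fl l (w l - 1) (by omega), map_zero, (by omega : w l - 1 + 1 = w l)] at h4
        have h5 : f l (w l - 1) (ps (D l) F).1 = - f l (w l) F.1 := by
          change f l (w l - 1) (cD (D l) F.1) = _
          linear_combination -h4
        rw [h5] at h3
        exact (mul_eq_zero.mp h3.symm).resolve_right (neg_ne_zero.mpr (T.ex l))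
      · intro j hj hne
        have hj' := Finset.mem_range.mp hj
        have h4 := S.lawD l j F T.hF.1
        rw [T.fl l j hj', map_zero, T.fl l (j + 1) (by omega), add_zero] at h4
        change c l j * f l j (cD (D l) F.1) = 0
        rw [← h4, mul_zero]
      · intro h4
        exact absurd (Finset.mem_range.mpr (by omega)) h4
    · intro l' _ hne
      refine Finset.sum_eq_zero (fun j hj => ?_)
      have h4 := S.lawD' l l' j (Ne.symm hne) F T.hF.1
      rw [T.fl l' j (Finset.mem_range.mp hj), map_zero] at h4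
      change c l' j * f l' j (cD (D l) F.1) = 0
      rw [← h4, mul_zero]
    · intro h4
      exact absurd (Finset.mem_univ l) h4

/-- the functional `H ↦ eval q H.2` -/
noncomputable def evL (q : Fin n → ℂ) : R3 × MvPolynomial (Fin n) ℂ →ₗ[ℂ] ℂ where
  toFun H := eval q H.2
  map_add' H H' := by rw [Prod.snd_add, map_add]
  map_smul' a H := by
    rw [Prod.smul_snd, smul_eval, RingHom.id_apply, smul_eq_mul]

@[simp] theorem evL_apply (q : Fin n → ℂ) (H : R3 × MvPolynomial (Fin n) ℂ) :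
    evL q H = eval q H.2 := rfl

/-- the coefficients of the flags which move `q` along a dependent direction vanish -/
theorem Sol.kill (T : Sol d p m w BB f F) (S : Chn n N d p m w BB f E D) {q : Fin n → ℂ}
    {c : Λ → ℕ → ℂ} (hc : ∀ H ∈ VV d p BB m, evL q H = cf w f c H.1)
    (htop : ∀ l, c l (w l - 1) = 0) {Δ : Derivation ℚ ℂ ℂ} {α : Λ → ℂ}
    (hA : Adm p BB f Δ α (0 : ι → Fin 2 → ℂ)) {κ : ℂ} (hq : (fun k => Δ (q k)) = κ • q) :
    ∀ l, α l ≠ 0 → ∀ j < w l, c l j = 0 := by
  classical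
  have key : ∀ H ∈ VV d p BB m, cf w f (fun l j => Δ (c l j) - κ * N * c l j +
      α l * (if j = 0 then 0 else c l (j - 1))) H.1 = 0 := by
    intro H hH
    have hH' : ps Δ H ∈ VV d p BB m := hA.mem_VV S hH (fun i => Or.inl ⟨rfl, le_rfl⟩)
    have h1 := ev_prop hq (S.hom2 H hH.1)
    have h2 := hc H hH
    have h3 := hc _ hH'
    rw [evL_apply] at h2 h3
    change eval q (cD Δ H.2) = cf w f c (cD Δ H.1) at h3
    rw [h2, h3, cf_apply, cf_apply, map_sum, Finset.mul_sum, ← Finset.sum_add_distrib,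
      ← sub_eq_zero, ← Finset.sum_sub_distrib] at h1
    rw [cf_apply]
    refine Eq.trans ?_ h1
    refine Finset.sum_congr rfl (fun l _ => ?_)
    rw [map_sum, Finset.mul_sum, ← Finset.sum_add_distrib, ← Finset.sum_sub_distrib]
    have h4 : ∀ j ∈ Finset.range (w l), Δ (c l j * f l j H.1) -
        (c l j * f l j (cD Δ H.1) + κ * N * (c l j * f l j H.1)) =
        (Δ (c l j) - κ * N * c l j) * f l j H.1 + α l * (c l j * f l (j + 1) H.1) := by
      intro j _
      rw [Derivation.leibniz, hA.law l j H hH.1, smul_eq_mul, smul_eq_mul]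
      ring
    rw [Finset.sum_congr rfl h4, Finset.sum_add_distrib]
    have h5 : ∀ j ∈ Finset.range (w l),
        (Δ (c l j) - κ * N * c l j + α l * (if j = 0 then 0 else c l (j - 1))) * f l j H.1 =
        (Δ (c l j) - κ * N * c l j) * f l j H.1 +
          α l * ((if j = 0 then 0 else c l (j - 1)) * f l j H.1) := fun j _ => by ring
    rw [Finset.sum_congr rfl h5, Finset.sum_add_distrib]
    congr 1
    rw [← Finset.mul_sum, ← Finset.mul_sum]
    rcases Nat.eq_zero_or_pos (w l) with hw | hw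
    · rw [hw]
      simp
    · obtain ⟨u, hu⟩ : ∃ u, w l = u + 1 := ⟨w l - 1, by omega⟩
      have h6 := htop l
      rw [hu, Nat.add_sub_cancel] at h6
      rw [hu, Finset.sum_range_succ', Finset.sum_range_succ]
      simp only [Nat.add_sub_cancel, Nat.succ_ne_zero, if_false, if_true, zero_mul,
        add_zero, h6]
  have hz := T.indep key
  intro l hα
  have hdown : ∀ k < w l, c l (w l - 1 - k) = 0 := by
    intro k
    induction k with
    | zero =>
      intro _
      rw [Nat.sub_zero]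
      exact htop l
    | succ k ih =>
      intro hk
      have h1 := ih (by omega)
      have h2 := hz l (w l - 1 - k) (by omega)
      rw [h1, map_zero, mul_zero, sub_zero, zero_add, if_neg (by omega)] at h2
      rcases mul_eq_zero.mp h2 with h3 | h3
      · exact absurd h3 hα
      · rwa [(by omega : w l - 1 - k - 1 = w l - 1 - (k + 1))] at h3
  intro j hj
  have h1 := hdown (w l - 1 - j) (by omega)
  rwa [(by omega : w l - 1 - (w l - 1 - j) = j)] at h1

/-- the surjectivity hypothesis -/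
def Surj (p : ι → V3) (m : ι → ℕ) (d : ℕ) (BB : Submodule ℂ (R3 × MvPolynomial (Fin n) ℂ))
    (f : Λ → ℕ → R3 →ₗ[ℂ] ℂ) : Prop :=
  ∀ i i' (I : Finset Λ), I.card ≤ 2 → ∀ j, 1 ≤ j → j ≤ m i → ∀ β : R2,
    β.IsHomogeneous j → ∃ H ∈ BB, VanishTo H.1 (p i) j ∧ ld d j (p i) H.1 = β ∧
      (∀ i'' ≠ i, VanishTo H.1 (p i'') (m i'' + if i'' = i' then 1 else 0)) ∧
      ∀ l ∈ I, ∀ j', f l j' H.1 = 0

/-- the multiplicities after dropping the points of `T` -/
def dr (m : ι → ℕ) (T : Finset ι) : ι → ℕ := fun i => if i ∈ T then 0 else m i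

/-- one point can be dropped -/
theorem Chn.drop (S : Chn n N d p m w BB f E D) (hsurj : Surj p m d BB f) {q : Fin n → ℂ}
    {c : Λ → ℕ → ℂ} {I : Finset Λ} (hI : I.card ≤ 2) (hcI : ∀ l ∉ I, ∀ j < w l, c l j = 0)
    {T : Finset ι} (hc : ∀ H ∈ VV d p BB (dr m T), evL q H = cf w f c H.1) {i i' : ι}
    (hi : i ∉ T) {Δ : Derivation ℚ ℂ ℂ} {α : Λ → ℂ} {mot : ι → Fin 2 → ℂ}
    (hA : Adm p BB f Δ α mot) (hmot : mot i ≠ 0) (hmot' : ∀ j, j ≠ i → j ≠ i' → mot j = 0)
    {κ : ℂ} (hq : (fun k => Δ (q k)) = κ • q) :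
    ∀ H ∈ VV d p BB (dr m (insert i T)), evL q H = cf w f c H.1 := by
  classical
  -- downward induction
  have key : ∀ a, a ≤ m i → ∀ H ∈ VV d p BB (Function.update (dr m T) i (m i - a)),
      evL q H = cf w f c H.1 := by
    intro a
    induction a with
    | zero =>
      intro _ H hH
      apply hc
      rw [Nat.sub_zero] at hH
      have h1 : Function.update (dr m T) i (m i) = dr m T := by
        rw [Function.update_eq_self_iff]
        unfold dr
        rw [if_neg hi]
      rwa [h1] at hH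
    | succ a ih =>
      intro ha H hH
      have ih' := ih (by omega)
      obtain ⟨k, hk⟩ : ∃ k, k = m i - (a + 1) := ⟨_, rfl⟩
      have hk1 : m i - a = k + 1 := by omega
      rw [← hk] at hH
      rw [hk1] at ih'
      have hkd : k + 1 ≤ d := by
        have := S.hd i
        omega
      -- the functional on the larger space
      set η : R3 × MvPolynomial (Fin n) ℂ →ₗ[ℂ] ℂ :=
        evL q - (cf w f c).comp (LinearMap.fst ℂ _ _) with hη
      have hηa : ∀ H, η H = evL q H - cf w f c H.1 := fun H => rfl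
      obtain ⟨g, hg⟩ := exists_factor (VV d p BB (Function.update (dr m T) i k)) η
        ((ld d k (p i)).comp (LinearMap.fst ℂ _ _)) (by
          intro x hx hx0
          rw [hηa, sub_eq_zero]
          apply ih'
          rw [S.mem_VV'] at hx ⊢
          refine ⟨hx.1, fun j => ?_⟩
          have hxj := hx.2 j
          by_cases hj : j = i
          · subst hj
            rw [Function.update_self] at hxj ⊢
            have hx1 := S.hom1 x hx.1
            rw [vanishTo_iff_ld hx1 (S.hp j) (by omega)] at hxj ⊢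
            intro k' hk'
            by_cases h2 : k' = k
            · rw [h2]
              exact hx0
            · exact hxj k' (by omega)
          · rwa [Function.update_of_ne hj] at hxj ⊢)
      have hgz : ∀ γ : R2, γ.IsHomogeneous k → g γ = 0 := by
        have hab : mot i 0 ≠ 0 ∨ mot i 1 ≠ 0 := by
          by_contra hcon
          push Not at hcon
          apply hmot
          funext l
          fin_cases l
          · exact hcon.1
          · exact hcon.2
        apply dir_surj hab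
        intro β hβ
        obtain ⟨H', hH', hv, hl, hv', hf⟩ := hsurj i i' I hI (k + 1) (by omega) (by omega) β hβ
        have hfc : ∀ l, ∀ j < w l, c l j = 0 ∨ f l j H'.1 = 0 := by
          intro l j hj
          by_cases hl : l ∈ I
          · exact Or.inr (hf l hl j)
          · exact Or.inl (hcI l hl j hj)
        have hH'1 : H' ∈ VV d p BB (Function.update (dr m T) i (k + 1)) := by
          rw [S.mem_VV']
          refine ⟨hH', fun j => ?_⟩
          by_cases hj : j = i
          · subst hj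
            rw [Function.update_self]
            exact hv
          · rw [Function.update_of_ne hj]
            refine (hv' j hj).mono ?_
            unfold dr
            split_ifs <;> omega
        have hξ : evL q H' = 0 := by
          rw [ih' H' hH'1]
          exact cf_zero_of hfc
        have hH'2 : ps Δ H' ∈ VV d p BB (Function.update (dr m T) i k) := by
          rw [S.mem_VV']
          refine ⟨hA.st H' hH', fun j => ?_⟩
          by_cases hj : j = i
          · subst hj
            rw [Function.update_self]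
            exact vanishTo_cD Δ hv
          · rw [Function.update_of_ne hj]
            by_cases hj' : j = i'
            · have h1 := hv' j hj
              rw [if_pos hj'] at h1
              refine (vanishTo_cD Δ h1).mono ?_
              unfold dr
              split_ifs <;> omega
            · have h1 := hv' j hj
              rw [if_neg hj', add_zero] at h1
              refine (vanishTo_cD_fixed Δ (fun l => ?_) h1).mono ?_
              · by_cases hl2 : l = 2
                · rw [hl2, hA.p2]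
                · obtain ⟨l', rfl⟩ : ∃ l' : Fin 2, l = l'.castSucc := by
                    fin_cases l
                    · exact ⟨0, rfl⟩
                    · exact ⟨1, rfl⟩
                    · exact absurd rfl hl2
                  rw [hA.pk, hmot' j hj hj']
                  rfl
              · unfold dr
                split_ifs <;> omega
        have h1 : η (ps Δ H') = 0 := by
          rw [hηa]
          have h2 := ev_prop hq (S.hom2 H' hH')
          rw [evL_apply] at hξ
          rw [hξ, map_zero, mul_zero, add_zero] at h2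
          rw [evL_apply]
          change eval q (cD Δ H'.2) - _ = 0
          rw [← h2, zero_sub, neg_eq_zero]
          apply cf_zero_of
          intro l j hj
          by_cases hl : l ∈ I
          · right
            have h3 := hA.law l j H' hH'
            rw [hf l hl j, map_zero, hf l hl (j + 1), mul_zero, add_zero] at h3
            exact h3.symm
          · exact Or.inl (hcI l hl j hj)
        rw [hg _ hH'2] at h1
        have h2 := cD_ld_move Δ (hA.p2 i) hkd H'.1
        have h3 : ld d k (p i) H'.1 = 0 := by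
          have h4 := (vanishTo_iff_ld (S.hom1 H' hH') (S.hp i) (by omega)).mp hv
          exact h4 k (Nat.lt_succ_self k)
        have hp0 : Δ (p i 0) = mot i 0 := hA.pk i 0
        have hp1 : Δ (p i 1) = mot i 1 := hA.pk i 1
        rw [h3, map_zero, hl, hp0, hp1] at h2
        have h5 : C (mot i 0) * pderiv 0 β + C (mot i 1) * pderiv 1 β =
            -(ld d k (p i) (ps Δ H').1) := by
          exact eq_neg_of_add_eq_zero_right h2.symm
        rw [h5, map_neg, neg_eq_zero]
        exact h1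
      have h1 : η H = g (ld d k (p i) H.1) := hg H hH
      have h6 : (ld d k (p i) H.1).IsHomogeneous k := ld_hom (S.hom1 H hH.1) (by omega) (p i)
      rw [hηa, hgz _ h6] at h1
      exact sub_eq_zero.mp h1
  intro H hH
  have h1 := key (m i) le_rfl
  rw [Nat.sub_self] at h1
  apply h1
  have h2 : Function.update (dr m T) i 0 = dr m (insert i T) := by
    funext j
    by_cases hj : j = i
    · subst hj
      rw [Function.update_self]
      unfold dr
      rw [if_pos (Finset.mem_insert_self j T)]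
    · rw [Function.update_of_ne hj]
      unfold dr
      simp only [Finset.mem_insert, hj, false_or]
  rwa [h2]

/-- if all members vanish at `q`, then so do all forms with the conditions at one point -/
theorem Chn.bpf (S : Chn n N d p m w BB f E D) (hn : n ≤ 3) (hsurj : Surj p m d BB f)
    {q : Fin n → ℂ} (hq : q ≠ 0) (h : ∀ H ∈ VV d p BB m, evL q H = 0)
    (hbpf : ∀ T : Finset ι, T.card ≤ 1 → ∃ H ∈ BB, (∀ i ∈ T, VanishTo H.1 (p i) (m i)) ∧
      eval q H.2 ≠ 0) : False := by
  classical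
  set P : Finset ι → Prop := fun T => ∀ H ∈ VV d p BB (dr m T), evL q H = cf w f 0 H.1 with hP
  have hcf : ∀ H : R3, cf w f (0 : Λ → ℕ → ℂ) H = 0 := fun H =>
    cf_zero_of (fun l j _ => Or.inl rfl)
  have h0 : P ∅ := by
    intro H hH
    rw [hcf]
    apply h
    have : dr m ∅ = m := by
      funext i
      unfold dr
      rw [if_neg (Finset.notMem_empty i)]
    rwa [this] at hH
  obtain ⟨T, hT, hmax⟩ := (Finset.univ.filter P).exists_max_image Finset.card
    ⟨∅, by simp [h0]⟩
  simp only [Finset.mem_filter, Finset.mem_univ, true_and] at hT hmax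
  have hcard : (Finset.univ \ T).card ≤ 1 := by
    by_contra hcon
    push Not at hcon
    obtain ⟨i, i', hi, hi', hne⟩ := Finset.one_lt_card_iff.mp hcon
    have hi1 : i ∉ T := (Finset.mem_sdiff.mp hi).2
    have hi1' : i' ∉ T := (Finset.mem_sdiff.mp hi').2
    obtain ⟨a, ha, κ, hκ⟩ := lin_dep (r := 4) (n := n) (by omega)
      ![fun k => E i 0 (q k), fun k => E i 1 (q k), fun k => E i' 0 (q k), fun k => E i' 1 (q k)] hq
    rw [Fin.sum_univ_four] at hκ
    simp only [Matrix.cons_val_zero, Matrix.cons_val_one, Matrix.cons_val] at hκ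
    have hins : ∀ i ∉ T, ∀ i' (Δ : Derivation ℚ ℂ ℂ) (α : Λ → ℂ) (mot : ι → Fin 2 → ℂ),
        Adm p BB f Δ α mot → mot i ≠ 0 → (∀ j, j ≠ i → j ≠ i' → mot j = 0) →
        (fun k => Δ (q k)) = κ • q → False := by
      intro i hi i' Δ α mot hA h1 h2 h3
      have h4 : P (insert i T) := S.drop hsurj (I := ∅) (by simp) (fun l _ j _ => rfl) hT hi hA
        h1 h2 h3
      have h5 := hmax _ h4
      rw [Finset.card_insert_of_notMem hi] at h5
      omega
    have hA4 := (((S.admE i 0).smul (a 0)).add ((S.admE i 1).smul (a 1))).add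
      (((S.admE i' 0).smul (a 2)).add ((S.admE i' 1).smul (a 3)))
    have hA2 := ((S.admE i' 0).smul (a 2)).add ((S.admE i' 1).smul (a 3))
    by_cases h01 : a 0 = 0 ∧ a 1 = 0
    · refine hins i' hi1' i' _ _ _ hA2 ?_ ?_ ?_
      · intro hz
        apply ha
        have e2 := congrFun hz 0
        have e3 := congrFun hz 1
        simp at e2 e3
        funext k
        fin_cases k
        · exact h01.1
        · exact h01.2
        · exact e2
        · exact e3
      · intro j hj _
        simp [hj]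
      · funext k
        have := congrFun hκ k
        simp only [Pi.add_apply, Pi.smul_apply, h01.1, h01.2, zero_smul, zero_add] at this
        simp only [Derivation.add_apply, Derivation.smul_apply]
        exact this
    · refine hins i hi1 i' _ _ _ hA4 ?_ ?_ ?_
      · intro hz
        apply h01
        have e2 := congrFun hz 0
        have e3 := congrFun hz 1
        simp [hne] at e2 e3
        exact ⟨e2, e3⟩
      · intro j hj hj'
        simp [hj, hj']
      · funext k
        have := congrFun hκ k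
        simp only [Pi.add_apply, Pi.smul_apply] at this
        simp only [Derivation.add_apply, Derivation.smul_apply, Pi.smul_apply]
        rw [← this]
        ring
  obtain ⟨H, hH, hv, hne⟩ := hbpf _ hcard
  apply hne
  have h1 : H ∈ VV d p BB (dr m T) := by
    rw [S.mem_VV']
    refine ⟨hH, fun i => ?_⟩
    unfold dr
    by_cases hi : i ∈ T
    · rw [if_pos hi]
      exact fun k hk => absurd hk (Nat.not_lt_zero k)
    · rw [if_neg hi]
      exact hv i (by simp [hi])
  have h2 := hT H h1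
  rw [hcf, evL_apply] at h2
  exact h2

/-- **The chain theorem.** -/
theorem Chn.main (S : Chn n N d p m w BB f E D) (T : Sol d p m w BB f F) (hn : n ≤ 3)
    {q : Fin n → ℂ} (hq : q ≠ 0) (hsurj : Surj p m d BB f)
    (hsep : ∀ l, ∀ j < w l, ∃ H ∈ BB, f l j H.1 ≠ 0 ∧ (∀ j' < w l, j' ≠ j → f l j' H.1 = 0) ∧
      (∀ l' ≠ l, ∀ j' < w l', f l' j' H.1 = 0) ∧ eval q H.2 = 0)
    (hbpf : ∀ T : Finset ι, T.card ≤ 1 → ∃ H ∈ BB, (∀ i ∈ T, VanishTo H.1 (p i) (m i)) ∧
      eval q H.2 ≠ 0)
    (h0 : eval q F.2 = 0) (h1 : ∀ k, eval q (pderiv k F.2) = 0) : False := by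
  classical
  have hDF : ∀ l, evL q (ps (D l) F) = 0 := by
    intro l
    have h2 := D_eval (D l) q F.2
    rw [h0, map_zero, Finset.sum_eq_zero (fun k _ => by rw [h1 k, mul_zero]), add_zero] at h2
    exact h2.symm
  obtain ⟨c, hc, htop⟩ := T.repr S (evL q) h0 hDF
  by_cases hI0 : ∃ l, ∃ j < w l, c l j ≠ 0
  · obtain ⟨l₁, j₁, hj₁, hne₁⟩ := hI0
    set I : Finset Λ := Finset.univ.filter (fun l => ∃ j < w l, c l j ≠ 0) with hI
    have hcI : ∀ l ∉ I, ∀ j < w l, c l j = 0 := by
      intro l hl j hj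
      by_contra hne
      exact hl (by simp only [hI, Finset.mem_filter, Finset.mem_univ, true_and]; exact ⟨j, hj, hne⟩)
    have hkill : ∀ {Δ : Derivation ℚ ℂ ℂ} {α : Λ → ℂ}, Adm p BB f Δ α (0 : ι → Fin 2 → ℂ) →
        ∀ {κ : ℂ}, (fun k => Δ (q k)) = κ • q → ∀ l ∈ I, α l = 0 := by
      intro Δ α hA κ hκ l hl
      by_contra hne
      simp only [hI, Finset.mem_filter, Finset.mem_univ, true_and] at hl
      obtain ⟨j, hj, hcj⟩ := hl
      exact hcj (T.kill S hc htop hA hκ l hne j hj)
    have hcard : I.card ≤ 2 := by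
      by_contra hcon
      push Not at hcon
      obtain ⟨J, hJI, hJ⟩ := Finset.exists_subset_card_eq (s := I) (n := 3) (by omega)
      obtain ⟨a, b, e, hab, hae, hbe, rfl⟩ := Finset.card_eq_three.mp hJ
      obtain ⟨x, hx, κ, hκ⟩ := lin_dep (r := 3) (n := n) hn
        ![fun k => D a (q k), fun k => D b (q k), fun k => D e (q k)] hq
      rw [Fin.sum_univ_three] at hκ
      simp only [Matrix.cons_val_zero, Matrix.cons_val_one, Matrix.cons_val] at hκ
      have hA := (((S.admD a).smul (x 0)).add ((S.admD b).smul (x 1))).add ((S.admD e).smul (x 2))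
      have hmot : (x 0 • (0 : ι → Fin 2 → ℂ) + x 1 • 0 + x 2 • 0) = 0 := by simp
      rw [hmot] at hA
      have hk := hkill hA (κ := κ) (by
        funext k
        have := congrFun hκ k
        simp only [Pi.add_apply, Pi.smul_apply] at this
        simp only [Derivation.add_apply, Derivation.smul_apply, Pi.smul_apply]
        exact this)
      apply hx
      have ha := hk a (hJI (by simp))
      have hb := hk b (hJI (by simp))
      have he := hk e (hJI (by simp))
      simp [hab, hae] at ha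
      simp [hab.symm, hbe] at hb
      simp [hae.symm, hbe.symm] at he
      funext k
      fin_cases k
      · exact ha
      · exact hb
      · exact he
    have hl₁ : l₁ ∈ I := by
      simp only [hI, Finset.mem_filter, Finset.mem_univ, true_and]
      exact ⟨j₁, hj₁, hne₁⟩
    -- all points can be dropped
    have hall : ∀ X : Finset ι, ∀ H ∈ VV d p BB (dr m X), evL q H = cf w f c H.1 := by
      intro X
      induction X using Finset.induction_on with
      | empty =>
        intro H hH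
        apply hc
        have : dr m ∅ = m := by
          funext i
          unfold dr
          rw [if_neg (Finset.notMem_empty i)]
        rwa [this] at hH
      | insert i X hi ih =>
        obtain ⟨x, hx, κ, hκ⟩ := lin_dep (r := 3) (n := n) hn
          ![fun k => E i 0 (q k), fun k => E i 1 (q k), fun k => D l₁ (q k)] hq
        rw [Fin.sum_univ_three] at hκ
        simp only [Matrix.cons_val_zero, Matrix.cons_val_one, Matrix.cons_val] at hκ
        have hA := (((S.admE i 0).smul (x 0)).add ((S.admE i 1).smul (x 1))).add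
          ((S.admD l₁).smul (x 2))
        refine S.drop hsurj (i' := i) hcard hcI ih hi hA ?_ ?_ (κ := κ) ?_
        · intro hz
          have e0 := congrFun hz 0
          have e1 := congrFun hz 1
          simp at e0 e1
          apply hx
          have hA' := (S.admD l₁).smul (x 2)
          rw [smul_zero] at hA'
          have hk := hkill hA' (κ := κ) (by
            funext k
            have := congrFun hκ k
            simp only [Pi.add_apply, Pi.smul_apply, e0, e1, zero_smul, zero_add,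
              Pi.zero_apply] at this
            simp only [Derivation.smul_apply, Pi.smul_apply]
            exact this) l₁ hl₁
          simp at hk
          funext k
          fin_cases k
          · exact e0
          · exact e1
          · exact hk
        · intro j hj _
          simp [hj]
        · funext k
          have := congrFun hκ k
          simp only [Pi.add_apply, Pi.smul_apply] at this
          simp only [Derivation.add_apply, Derivation.smul_apply, Pi.smul_apply]
          exact this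
    obtain ⟨H, hH, hne, h3, h4, h5⟩ := hsep l₁ j₁ hj₁
    have h6 := hall Finset.univ H (by
      rw [S.mem_VV']
      refine ⟨hH, fun i => ?_⟩
      unfold dr
      rw [if_pos (Finset.mem_univ i)]
      exact fun k hk => absurd hk (Nat.not_lt_zero k))
    rw [evL_apply, h5, cf_apply, Finset.sum_eq_single l₁, Finset.sum_eq_single j₁] at h6
    · rcases mul_eq_zero.mp h6.symm with h7 | h7
      · exact hne₁ h7
      · exact hne h7
    · intro j hj hjne
      rw [h3 j (Finset.mem_range.mp hj) hjne, mul_zero]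
    · intro h7
      exact absurd (Finset.mem_range.mpr hj₁) h7
    · intro l _ hl
      refine Finset.sum_eq_zero (fun j hj => ?_)
      rw [h4 l hl j (Finset.mem_range.mp hj), mul_zero]
    · intro h7
      exact absurd (Finset.mem_univ l₁) h7
  · push Not at hI0
    refine S.bpf hn hsurj hq (fun H hH => ?_) hbpf
    rw [hc H hH]
    exact cf_zero_of (fun l j hj => Or.inl (hI0 l j hj))

end main

end Pool.Agent.Work.MP_0421d9_ag.ZC
end

section
/-!
Forms with prescribed multiplicities and prescribed leading part (helper20).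
-/

set_option linter.unusedSectionVars false

namespace Pool.Agent.Work.MP_0421d9_ag.ZC

open MvPolynomial Module SM

/-- a line through `Q` but not through `q` -/
theorem exists_line_ne {Q q : V3} (h : cr Q q ≠ 0) :
    ∃ v : V3, eval Q (lin v) = 0 ∧ eval q (lin v) ≠ 0 := by
  have h1 : ∃ i, cr Q q i ≠ 0 := by
    by_contra hcon
    push Not at hcon
    exact h (funext hcon)
  obtain ⟨i, hi⟩ := h1
  fin_cases i
  · have h0 : Q 1 * q 2 - Q 2 * q 1 ≠ 0 := hi
    refine ⟨![0, -(Q 2), Q 1], ?_, fun h2 => h0 ?_⟩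
    · rw [eval_lin, Fin.sum_univ_three]
      change 0 * Q 0 + -(Q 2) * Q 1 + Q 1 * Q 2 = 0
      ring
    · rw [eval_lin, Fin.sum_univ_three] at h2
      change 0 * q 0 + -(Q 2) * q 1 + Q 1 * q 2 = 0 at h2
      linear_combination h2
  · have h0 : Q 2 * q 0 - Q 0 * q 2 ≠ 0 := hi
    refine ⟨![Q 2, 0, -(Q 0)], ?_, fun h2 => h0 ?_⟩
    · rw [eval_lin, Fin.sum_univ_three]
      change Q 2 * Q 0 + 0 * Q 1 + -(Q 0) * Q 2 = 0
      ring
    · rw [eval_lin, Fin.sum_univ_three] at h2
      change Q 2 * q 0 + 0 * q 1 + -(Q 0) * q 2 = 0 at h2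
      linear_combination h2
  · have h0 : Q 0 * q 1 - Q 1 * q 0 ≠ 0 := hi
    refine ⟨![-(Q 1), Q 0, 0], ?_, fun h2 => h0 ?_⟩
    · rw [eval_lin, Fin.sum_univ_three]
      change -(Q 1) * Q 0 + Q 0 * Q 1 + 0 * Q 2 = 0
      ring
    · rw [eval_lin, Fin.sum_univ_three] at h2
      change -(Q 1) * q 0 + Q 0 * q 1 + 0 * q 2 = 0 at h2
      linear_combination h2

theorem exists_lin_ne {q : V3} (hq : q ≠ 0) : ∃ v : V3, eval q (lin v) ≠ 0 := by
  have h1 : ∃ i, q i ≠ 0 := by
    by_contra hcon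
    push Not at hcon
    exact hq (funext hcon)
  obtain ⟨i, hi⟩ := h1
  refine ⟨Pi.single i 1, ?_⟩
  rw [eval_lin]
  simpa [Pi.single_apply] using hi

/-- a form with given multiplicities at some points and not vanishing at another one -/
theorem exists_form_ne {κ : Type} [Fintype κ] {Q : κ → V3} {a : κ → ℕ} {q : V3} (hq : q ≠ 0)
    (hQ : ∀ j, cr (Q j) q ≠ 0) {d : ℕ} (hd : ∑ j, a j ≤ d) :
    ∃ H : R3, H.IsHomogeneous d ∧ (∀ j, VanishTo H (Q j) (a j)) ∧ eval q H ≠ 0 := by
  classical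
  choose v hv1 hv2 using fun j => exists_line_ne (hQ j)
  obtain ⟨w, hw⟩ := exists_lin_ne hq
  have hpow : ∀ j, ((lin (v j)) ^ a j).IsHomogeneous (a j) := fun j => by
    have := (lin_isHomogeneous (v j)).pow (a j)
    rwa [one_mul] at this
  refine ⟨(∏ j, lin (v j) ^ a j) * lin w ^ (d - ∑ j, a j), ?_, fun j => ?_, ?_⟩
  · have h1 := IsHomogeneous.prod Finset.univ (fun j => lin (v j) ^ a j) a (fun j _ => hpow j)
    have h2 := (lin_isHomogeneous w).pow (d - ∑ j, a j)
    have h3 := h1.mul h2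
    rw [one_mul, Nat.add_sub_cancel' hd] at h3
    exact h3
  · rw [← Finset.mul_prod_erase Finset.univ (fun j => lin (v j) ^ a j) (Finset.mem_univ j),
      mul_assoc]
    have h1 : VanishTo (lin (v j) ^ a j) (Q j) (a j) := vanishTo_pow (hv1 j) (a j)
    have h2 := vanishTo_mul h1 (vanishTo_zero
      ((∏ x ∈ Finset.univ.erase j, lin (v x) ^ a x) * lin w ^ (d - ∑ j, a j)) (Q j))
    rwa [add_zero] at h2
  · rw [map_mul, map_prod, map_pow]
    refine mul_ne_zero (Finset.prod_ne_zero_iff.mpr fun j _ => ?_) (pow_ne_zero _ hw)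
    rw [map_pow]
    exact pow_ne_zero _ (hv2 j)

theorem cz_emb_zero (β : R2) : cz 0 (emb β) = β := by
  refine R2_ext fun a b => ?_
  rw [coeff_cz, coeff_emb]
  rfl

theorem cz_emb_succ (β : R2) (j : ℕ) : cz (j + 1) (emb β) = 0 := by
  refine R2_ext fun a b => ?_
  rw [coeff_cz, coeff_emb, coeff_zero]
  exact if_neg (Nat.succ_ne_zero j)

theorem emb_isHomogeneous {P : R2} {n : ℕ} (h : P.IsHomogeneous n) : (emb P).IsHomogeneous n := by
  unfold emb
  have h1 := h.aeval (![X 0, X 1] : Fin 2 → R3) (n := 1) (fun i => by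
    fin_cases i
    · exact isHomogeneous_X _ _
    · exact isHomogeneous_X _ _)
  rwa [one_mul] at h1

theorem vanishTo_const_mul {F : R3} {a : V3} {m : ℕ} (h : VanishTo F a m) (c : ℂ) :
    VanishTo (C c * F) a m := by
  have h1 := vanishTo_mul (vanishTo_zero (C c) a) h
  rwa [zero_add] at h1

/-- a form with given multiplicities at some points and given leading part at another one -/
theorem exists_form {κ : Type} [Fintype κ] {Q : κ → V3} {a : κ → ℕ} {P : V3} (hP : P 2 ≠ 0)
    (hQ : ∀ j, cr (Q j) P ≠ 0) {k d : ℕ} (hd : ∑ j, a j + k ≤ d) {β : R2}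
    (hβ : β.IsHomogeneous k) :
    ∃ H : R3, H.IsHomogeneous d ∧ (∀ j, VanishTo H (Q j) (a j)) ∧ VanishTo H P k ∧
      ld d k P H = β := by
  have hP0 : P ≠ 0 := fun h => hP (by rw [h]; rfl)
  have hd' : ∑ j, a j ≤ d - k := by omega
  obtain ⟨F, hF, hFQ, hFP⟩ := exists_form_ne hP0 hQ hd'
  obtain ⟨K, hK, hKβ⟩ := exists_tr_eq hP (emb_isHomogeneous hβ)
  have hKld : ∀ j ≤ k, ld k j P K = if j = k then β else 0 := by
    intro j hj
    rw [ld_apply, hKβ]
    split_ifs with h
    · rw [h, Nat.sub_self, cz_emb_zero]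
    · obtain ⟨e, he⟩ : ∃ e, k - j = e + 1 := ⟨k - j - 1, by omega⟩
      rw [he, cz_emb_succ]
  have hKv : VanishTo K P k := by
    rw [vanishTo_iff_ld hK hP (by omega)]
    intro j hj
    rw [hKld j hj.le, if_neg hj.ne]
  have hdk : d - k + k = d := by omega
  refine ⟨C (eval P F)⁻¹ * (F * K), ?_, fun j => ?_, ?_, ?_⟩
  · have h := (hF.mul hK).C_mul (eval P F)⁻¹
    rwa [hdk] at h
  · refine vanishTo_const_mul ?_ _
    have h := vanishTo_mul (hFQ j) (vanishTo_zero K (Q j))
    rwa [add_zero] at h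
  · refine vanishTo_const_mul ?_ _
    have h := vanishTo_mul (vanishTo_zero F P) hKv
    rwa [zero_add] at h
  · have h1 := ld_mul hF hK hP le_rfl hKv
    rw [hdk, hKld k le_rfl, if_pos rfl] at h1
    rw [← smul_eq_C_mul, map_smul, h1, smul_eq_C_mul, ← mul_assoc, ← C_mul, inv_mul_cancel₀ hFP,
      C_1, one_mul]

theorem iterate_pderiv_flag (c : ℂ) (i j : ℕ) : ∀ n : ℕ,
    (pderiv 0)^[n] ((X 0 - C c * X 1) ^ i * X 1 ^ j : R2) =
      C ((i.descFactorial n : ℕ) : ℂ) * ((X 0 - C c * X 1) ^ (i - n) * X 1 ^ j) := by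
  intro n
  induction n with
  | zero => simp
  | succ n ih =>
    rw [Function.iterate_succ_apply', ih]
    have h1 : pderiv 0 (X 1 ^ j : R2) = 0 := by
      rw [pderiv_pow, pderiv_X_of_ne (by decide), mul_zero]
    have h2 : pderiv 0 (X 0 - C c * X 1 : R2) = 1 := by
      rw [map_sub, pderiv_X_self, pderiv_C_mul, pderiv_X_of_ne (by decide), mul_zero, sub_zero]
    rw [pderiv_C_mul, pderiv_mul, h1, mul_zero, add_zero, pderiv_pow, h2, mul_one,
      Nat.descFactorial_succ, Nat.sub_sub]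
    push_cast
    rw [C_mul, ← map_natCast (C : ℂ →+* R2) (i - n)]
    ring

/-- the dual basis of the flag functionals -/
theorem exists_flag_form {κ : Type} [Fintype κ] {Q : κ → V3} {a : κ → ℕ} {P : V3} (hP : P 2 ≠ 0)
    (hQ : ∀ j, cr (Q j) P ≠ 0) {k d : ℕ} (hd : ∑ j, a j + k ≤ d) (c : ℂ) {i : ℕ} (hi : i ≤ k) :
    ∃ H : R3, H.IsHomogeneous d ∧ (∀ j, VanishTo H (Q j) (a j)) ∧ VanishTo H P k ∧
      ∀ i', fd d k P c i' H = if i' = i then 1 else 0 := by
  have hβ : (C ((i.factorial : ℂ)⁻¹) * ((X 0 - C c * X 1) ^ i * X 1 ^ (k - i)) : R2).IsHomogeneous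
      k := by
    have h1 : (X 0 - C c * X 1 : R2).IsHomogeneous 1 :=
      (isHomogeneous_X ℂ 0).sub ((isHomogeneous_X ℂ 1).C_mul c)
    have h2 := ((h1.pow i).mul ((isHomogeneous_X ℂ (1 : Fin 2)).pow (k - i))).C_mul
      ((i.factorial : ℂ)⁻¹)
    rwa [one_mul, one_mul, Nat.add_sub_cancel' hi] at h2
  obtain ⟨H, h1, h2, h3, h4⟩ := exists_form hP hQ hd hβ
  refine ⟨H, h1, h2, h3, fun i' => ?_⟩
  rw [fd_eq, h4]
  have h5 : (pderiv 0)^[i'] (C ((i.factorial : ℂ)⁻¹) * ((X 0 - C c * X 1) ^ i * X 1 ^ (k - i)) :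
      R2) = C ((i.factorial : ℂ)⁻¹) *
        (pderiv 0)^[i'] ((X 0 - C c * X 1) ^ i * X 1 ^ (k - i) : R2) := by
    generalize ((X 0 - C c * X 1) ^ i * X 1 ^ (k - i) : R2) = G
    induction i' with
    | zero => rfl
    | succ n ih => rw [Function.iterate_succ_apply', ih, pderiv_C_mul,
        Function.iterate_succ_apply']
  rw [h5, iterate_pderiv_flag, map_mul, map_mul, map_mul, map_pow, map_pow, map_sub, map_mul,
    eval_C, eval_C, eval_C, eval_X, eval_X]
  change (i.factorial : ℂ)⁻¹ * (((i.descFactorial i' : ℕ) : ℂ) * ((c - c * 1) ^ (i - i') *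
    1 ^ (k - i))) = _
  rw [mul_one, sub_self, one_pow, mul_one]
  have hf : (i.factorial : ℂ) ≠ 0 := by exact_mod_cast i.factorial_ne_zero
  split_ifs with h
  · rw [h, Nat.sub_self, pow_zero, mul_one, Nat.descFactorial_self, inv_mul_cancel₀ hf]
  · rcases lt_or_gt_of_ne h with h6 | h6
    · rw [zero_pow (by omega), mul_zero, mul_zero]
    · rw [Nat.descFactorial_eq_zero_iff_lt.mpr h6, Nat.cast_zero, zero_mul, mul_zero]

/-- surjectivity of the leading part from the dimensions (`N`) -/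
theorem exists_of_NSp {ι : Type} [Fintype ι] [DecidableEq ι] {M d : ℕ} (hN : NSp M d)
    {p : ι → V3} (hp : GenericPoints p) {y : ι → ℕ} (i : ι) (hy : ∀ j, y j ≤ M)
    (hyi : y i + 1 ≤ M) (hd : y i ≤ d)
    (hχ : ∑ j, (y j + 1).choose 2 + (y i + 1) ≤ (d + 2).choose 2) {β : R2}
    (hβ : β.IsHomogeneous (y i)) : ∃ H ∈ linSys d p y, ld d (y i) (p i) H = β := by
  have hpi : p i 2 ≠ 0 := AlgebraicIndependent.ne_zero hp (i, 2)
  obtain ⟨n, hn⟩ : ∃ n, n = y i := ⟨_, rfl⟩
  rw [← hn] at hyi hd hχ hβ ⊢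
  obtain ⟨y', hy'⟩ : ∃ y' : ι → ℕ, y' = Function.update y i (n + 1) := ⟨_, rfl⟩
  have hy'i : y' i = n + 1 := by rw [hy', Function.update_self]
  have hy'j : ∀ j ≠ i, y' j = y j := fun j hj => by rw [hy', Function.update_of_ne hj]
  have hy'M : ∀ j, y' j ≤ M := by
    intro j
    rcases eq_or_ne j i with rfl | hj
    · rw [hy'i]; exact hyi
    · rw [hy'j j hj]; exact hy j
  have hle : linSys d p y' ≤ linSys d p y := by
    rintro F ⟨hF, hF'⟩
    refine ⟨hF, fun j => (hF' j).mono ?_⟩
    rcases eq_or_ne j i with rfl | hj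
    · rw [hy'i, ← hn]; exact Nat.le_succ _
    · rw [hy'j j hj]
  have hfin : Module.Finite ℂ (linSys d p y) :=
    Submodule.finiteDimensional_of_le (linSys_le d p _)
  obtain ⟨φ, hφ⟩ : ∃ φ : R3 →ₗ[ℂ] (Fin (n + 1) → ℂ), ∀ F (a : Fin (n + 1)),
      φ F a = coeff (e2 a (n - a)) (ld d n (p i) F) :=
    ⟨LinearMap.pi fun a => (lcoeff ℂ (e2 a (n - a))).comp (ld d n (p i)), fun F a => rfl⟩
  have hext : ∀ F ∈ linSys d p y, ∀ β' : R2, β'.IsHomogeneous n →
      (∀ a, φ F a = coeff (e2 (a : Fin (n + 1)) (n - a)) β') → ld d n (p i) F = β' := by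
    intro F hF β' hβ' h
    have hl := ld_hom hF.1 hd (p i)
    refine R2_ext fun a b => ?_
    by_cases hab : a + b = n
    · have h1 := h ⟨a, by omega⟩
      rw [hφ] at h1
      have h2 : n - a = b := by omega
      rw [← h2]
      exact h1
    · have h3 : (e2 a b).degree ≠ n := by
        rw [Finsupp.degree_eq_sum, Fin.sum_univ_two]
        exact hab
      rw [hl.coeff_eq_zero h3, hβ'.coeff_eq_zero h3]
  have hker : LinearMap.ker (φ.domRestrict (linSys d p y)) =
      (linSys d p y').comap (linSys d p y).subtype := by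
    ext ⟨F, hF⟩
    rw [LinearMap.mem_ker, Submodule.mem_comap]
    change φ F = 0 ↔ F ∈ linSys d p y'
    have hFi := hF.2 i
    constructor
    · intro h
      have h1 := hext F hF 0 (isHomogeneous_zero _ _ _) (fun a => by rw [h]; simp)
      refine ⟨hF.1, fun j => ?_⟩
      rcases eq_or_ne j i with rfl | hj
      · rw [hy'i, vanishTo_iff_ld hF.1 hpi (by omega)]
        intro k hk
        rcases Nat.lt_succ_iff_lt_or_eq.mp hk with hk | rfl
        · rw [← hn] at hFi
          exact (vanishTo_iff_ld hF.1 hpi (by omega)).mp hFi k hk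
        · exact h1
      · rw [hy'j j hj]
        exact hF.2 j
    · intro h
      have h1 := h.2 i
      rw [hy'i, vanishTo_iff_ld hF.1 hpi (by omega)] at h1
      funext a
      rw [hφ, h1 n (Nat.lt_succ_self n)]
      rfl
  have hrk := LinearMap.finrank_range_add_finrank_ker (φ.domRestrict (linSys d p y))
  rw [hker, (Submodule.comapSubtypeEquivOfLe hle).finrank_eq, hN.finrank hp hy,
    hN.finrank hp hy'M] at hrk
  have hsum : ∑ j, (y' j + 1).choose 2 = ∑ j, (y j + 1).choose 2 + (n + 1) := by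
    rw [← Finset.add_sum_erase Finset.univ _ (Finset.mem_univ i),
      ← Finset.add_sum_erase Finset.univ (fun j => (y j + 1).choose 2) (Finset.mem_univ i), hy'i,
      ← hn]
    have h1 : ∑ x ∈ Finset.univ.erase i, (y' x + 1).choose 2 =
        ∑ x ∈ Finset.univ.erase i, (y x + 1).choose 2 :=
      Finset.sum_congr rfl fun x hx => by rw [hy'j x (Finset.ne_of_mem_erase hx)]
    have h2 : (n + 1 + 1).choose 2 = (n + 1).choose 2 + (n + 1) := by
      rw [Nat.choose_succ_succ' (n + 1) 1, Nat.choose_one_right, add_comm]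
    rw [h1, h2]
    omega
  have hrange : LinearMap.range (φ.domRestrict (linSys d p y)) = ⊤ := by
    refine Submodule.eq_top_of_finrank_eq ?_
    rw [Module.finrank_fin_fun]
    omega
  obtain ⟨⟨H, hH⟩, hHβ⟩ := LinearMap.range_eq_top.mp hrange
    (fun a => coeff (e2 (a : Fin (n + 1)) (n - a)) β)
  refine ⟨H, hH, hext H hH β hβ fun a => ?_⟩
  exact congrFun hHβ a

end Pool.Agent.Work.MP_0421d9_ag.ZC
end

section
/-!
Collisions of generic points: the chain argument for the numerical data of a collision.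
-/

set_option linter.unusedSectionVars false
set_option linter.unusedVariables false

namespace Pool.Agent.Work.MP_0421d9_ag.ZC

open MvPolynomial Module SM

/-- derivations moving the points `p` (third coordinates fixed) and the directions `c` -/
structure Ders {ι Λ : Type} (p : ι → V3) (P : Λ → V3) (c : Λ → ℂ)
    (E : ι → Fin 2 → Derivation ℚ ℂ ℂ) (D : Λ → Derivation ℚ ℂ ℂ) : Prop where
  E2 : ∀ i k j, E i k (p j 2) = 0
  Ep : ∀ i (k l : Fin 2), E i k (p i l.castSucc) = if k = l then 1 else 0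
  Ep' : ∀ i k j (l : Fin 2), i ≠ j → E i k (p j l.castSucc) = 0
  EP : ∀ i k l j, E i k (P l j) = 0
  Ec : ∀ i k l, E i k (c l) = 0
  Dp : ∀ l j k, D l (p j k) = 0
  DP : ∀ l j k, D l (P j k) = 0
  Dc : ∀ l, D l (c l) = 1
  Dc' : ∀ l l', l ≠ l' → D l (c l') = 0

variable {ι Λ : Type} [Fintype ι] [Fintype Λ] [DecidableEq ι] [DecidableEq Λ] {d M : ℕ}
  {m : ι → ℕ} {μ w s Mv : Λ → ℕ} {v : ∀ l, Fin (s l) → ℕ}

theorem Ders.Ej {p : ι → V3} {P : Λ → V3} {c : Λ → ℂ} {E : ι → Fin 2 → Derivation ℚ ℂ ℂ}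
    {D : Λ → Derivation ℚ ℂ ℂ} (h : Ders p P c E D) {i j : ι} (hij : i ≠ j) (k : Fin 2)
    (l : Fin 3) : E i k (p j l) = 0 := by
  by_cases hl : l = 2
  · rw [hl, h.E2]
  · obtain ⟨l', rfl⟩ : ∃ l' : Fin 2, l = l'.castSucc := by
      fin_cases l
      · exact ⟨0, rfl⟩
      · exact ⟨1, rfl⟩
      · exact absurd rfl hl
    exact h.Ep' i k j l' hij

theorem Dat.hMd (S : Dat d M m μ w s Mv v) : 2 * M ≤ d := by
  have := S.hd
  omega

theorem Dat.hμd (S : Dat d M m μ w s Mv v) (l : Λ) : μ l + 2 ≤ d := by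
  have h1 := S.hd
  have h2 : μ l + 2 ≤ ∑ l, (μ l + 2) :=
    Finset.single_le_sum (f := fun l => μ l + 2) (fun _ _ => Nat.zero_le _) (Finset.mem_univ l)
  omega

/-- generic points are different -/
theorem generic_cr_ne {κ : Type} {p : κ → V3} (hp : GenericPoints p) {x y : κ} (hxy : x ≠ y) :
    cr (p x) (p y) ≠ 0 := by
  classical
  intro h
  obtain ⟨D, hD⟩ := exists_derivation _ hp (fun z => if z = (x, 0) then 1 else 0)
  have h2 := congrFun h 2
  have h3 : p x 0 * p y 1 - p x 1 * p y 0 = 0 := h2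
  have h4 := congrArg D h3
  have e1 : D (p x 0) = 1 := (hD (x, 0)).trans (if_pos rfl)
  have e2 : D (p y 1) = 0 := (hD (y, 1)).trans (if_neg (by simp))
  have e3 : D (p x 1) = 0 := (hD (x, 1)).trans (if_neg (by simp))
  have e4 : D (p y 0) = 0 := (hD (y, 0)).trans (if_neg (by
    intro h5
    exact hxy (congrArg Prod.fst h5).symm))
  rw [map_sub, Derivation.leibniz, Derivation.leibniz, e1, e2, e3, e4, map_zero] at h4
  simp only [smul_eq_mul, mul_zero, mul_one, zero_add, sub_zero, add_zero] at h4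
  exact hp.ne_zero (y, 1) h4

/-- flag functionals vanish on forms of higher order -/
theorem fd_zero_of_vanishTo {F : R3} {d k : ℕ} (hF : F.IsHomogeneous d) {P : V3} (hP : P 2 ≠ 0)
    (hk : k ≤ d) (h : VanishTo F P (k + 1)) (c : ℂ) (i : ℕ) : fd d k P c i F = 0 := by
  have h1 := (vanishTo_iff_ld hF hP (by omega)).mp h k (Nat.lt_succ_self k)
  rw [fd_eq, h1]
  have h2 : ∀ i, (pderiv 0)^[i] (0 : R2) = 0 := by
    intro i
    induction i with
    | zero => rfl
    | succ i ih => rw [Function.iterate_succ_apply, map_zero, ih]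
  rw [h2, map_zero]

theorem choose_succ_two (a : ℕ) : (a + 2).choose 2 = (a + 1).choose 2 + (a + 1) := by
  rw [Nat.choose_succ_succ' (a + 1) 1, Nat.choose_one_right, add_comm]

/-- the room for the surjectivity of the leading parts -/
theorem Dat.surj_room (S : Dat d M m μ w s Mv v) {Z : Finset ι} {Y : Finset Λ}
    (hZY : Z.card + Y.card ≤ 1) (i i' : ι) (hi' : i' ∉ Z) (I : Finset Λ)
    (hI : I.card ≤ 2) {j : ℕ} (hj : j ≤ m i) {y : ι ⊕ Λ → ℕ} (hyi : y (Sum.inl i) = j)
    (hyj : ∀ i'' ≠ i, y (Sum.inl i'') = m i'' + (if i'' = i' then 1 else 0) +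
      if i'' ∈ Z then 1 else 0)
    (hyl : ∀ l, y (Sum.inr l) = μ l + if l ∈ I ∪ Y then 1 else 0) :
    ∑ x, (y x + 1).choose 2 + (y (Sum.inl i) + 1) ≤ (d + 2).choose 2 := by
  classical
  have h1 : ∀ x : ι ⊕ Λ, (y x + 1).choose 2 + (if x = Sum.inl i then y (Sum.inl i) + 1 else 0) ≤
      (Sum.elim m μ x + 1).choose 2 +
        (if x ∈ ((({i} ∪ {i'}) ∪ Z).disjSum (I ∪ Y) : Finset (ι ⊕ Λ)) then M else 0) := by
    rintro (i'' | l)
    · by_cases hi : i'' = i
      · subst hi
        rw [if_pos rfl, hyi, if_pos (by simp), Sum.elim_inl, ← choose_succ_two]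
        have h2 : (j + 2).choose 2 ≤ (m i'' + 2).choose 2 := Nat.choose_le_choose 2 (by omega)
        have h3 := S.hm i''
        rw [choose_succ_two (m i'')] at h2
        omega
      · rw [if_neg (by simpa using hi), hyj i'' hi, Sum.elim_inl, add_zero]
        have h3 := S.hm i''
        by_cases hZ : i'' ∈ Z
        · have hne : i'' ≠ i' := fun h => hi' (h ▸ hZ)
          rw [if_neg hne, if_pos hZ, if_pos (by simp [hZ])]
          have h4 := choose_succ_two (m i'')
          have h5 : m i'' + 0 + 1 + 1 = m i'' + 2 := by ring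
          rw [h5, h4]
          omega
        · rw [if_neg hZ]
          by_cases hne : i'' = i'
          · rw [if_pos hne, if_pos (by simp [hne])]
            have h4 := choose_succ_two (m i'')
            have h5 : m i'' + 1 + 0 + 1 = m i'' + 2 := by ring
            rw [h5, h4]
            omega
          · rw [if_neg hne]
            simp
    · rw [if_neg (by simp), hyl l, Sum.elim_inr, add_zero]
      have h3 := S.hμ l
      by_cases hl : l ∈ I ∪ Y
      · rw [if_pos hl, if_pos (by simpa using hl)]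
        have h4 := choose_succ_two (μ l)
        have h5 : μ l + 1 + 1 = μ l + 2 := rfl
        rw [h5, h4]
        omega
      · rw [if_neg hl]
        simp
  have h2 := Finset.sum_le_sum (fun x (_ : x ∈ (Finset.univ : Finset (ι ⊕ Λ))) => h1 x)
  rw [Finset.sum_add_distrib, Finset.sum_add_distrib, Finset.sum_ite_eq' Finset.univ,
    if_pos (Finset.mem_univ _), Finset.sum_ite_mem, Finset.univ_inter, Finset.sum_const,
    smul_eq_mul] at h2
  have h3 : ((({i} ∪ {i'}) ∪ Z).disjSum (I ∪ Y) : Finset (ι ⊕ Λ)).card ≤ 5 := by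
    rw [Finset.card_disjSum]
    have h4 := Finset.card_union_le ({i} ∪ {i'}) Z
    have h5 := Finset.card_union_le ({i} : Finset ι) {i'}
    have h6 := Finset.card_union_le I Y
    rw [Finset.card_singleton, Finset.card_singleton] at h5
    omega
  have h4 := Nat.mul_le_mul_right M h3
  have h5 := S.room
  have h6 := S.hχ
  have h7 : ∑ x, (Sum.elim m μ x + 1).choose 2 =
      ∑ i, (m i + 1).choose 2 + ∑ l, (μ l + 1).choose 2 := by
    rw [Fintype.sum_sum_type]
    rfl
  rw [h7] at h2
  omega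

/-- **The chain theorem for the data of a collision.** -/
theorem Dat.core (S : Dat d M m μ w s Mv v) {p : ι → V3} {P : Λ → V3} {c : Λ → ℂ}
    (hg : GenericPoints (Sum.elim p P)) {E : ι → Fin 2 → Derivation ℚ ℂ ℂ}
    {D : Λ → Derivation ℚ ℂ ℂ} (hE : Ders p P c E D) (Z : Finset ι) (Y : Finset Λ)
    (hZY : Z.card + Y.card ≤ 1) {n N : ℕ} (hn : n ≤ 3)
    {BB : Submodule ℂ (R3 × MvPolynomial (Fin n) ℂ)} (hom1 : ∀ H ∈ BB, H.1 ∈ linSys d P μ)
    (hom2 : ∀ H ∈ BB, H.2.IsHomogeneous N) (stE : ∀ i ∉ Z, ∀ k, ∀ H ∈ BB, ps (E i k) H ∈ BB)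
    (stD : ∀ l ∉ Y, ∀ H ∈ BB, ps (D l) H ∈ BB) {ρ : Type} [Fintype ρ] (hρ : Fintype.card ρ ≤ 1)
    {R : ρ → V3} (hR : ∀ x l, cr (R x) (P l) ≠ 0) {q : Fin n → ℂ} (hq : q ≠ 0)
    (free1 : ∀ H ∈ linSys d P μ, (∀ l ∈ Y, VanishTo H (P l) (μ l + 1)) →
      (∀ a ∈ Z, VanishTo H (p a) (m a + 1)) → ∃ Θ, (H, Θ) ∈ BB)
    (free2 : ∀ H ∈ linSys d P μ, (∀ l ∈ Y, VanishTo H (P l) (μ l + 2)) →
      (∀ a ∈ Z, VanishTo H (p a) (m a + 1)) → (∀ x, VanishTo H (R x) 1) →
      ∃ Θ, (H, Θ) ∈ BB ∧ eval q Θ = 0)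
    (hbpf : ∀ T : Finset ι, T.card ≤ 1 → (∀ i ∈ T, i ∉ Z) → ∃ H ∈ BB,
      (∀ i ∈ T, VanishTo H.1 (p i) (m i)) ∧ eval q H.2 ≠ 0)
    {F : R3 × MvPolynomial (Fin n) ℂ} (hF : F ∈ BB) (hF' : ∀ i ∉ Z, VanishTo F.1 (p i) (m i))
    (fl : ∀ l ∉ Y, ∀ j < w l, fd d (μ l) (P l) (c l) j F.1 = 0)
    (ex : ∀ l ∉ Y, fd d (μ l) (P l) (c l) (w l) F.1 ≠ 0)
    (uniq : ∀ H ∈ BB, (∀ i ∉ Z, VanishTo H.1 (p i) (m i)) →
      (∀ l ∉ Y, ∀ j < w l, fd d (μ l) (P l) (c l) j H.1 = 0) → ∃ a : ℂ, H = a • F)
    (dim : 1 + ∑ l : {l // l ∉ Y}, w l.1 ≤ finrank ℂ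
      (VV d (fun i : {i // i ∉ Z} => p i.1) BB (fun i => m i.1)))
    (h0 : eval q F.2 = 0) (h1 : ∀ k, eval q (pderiv k F.2) = 0) : False := by
  classical
  have hp2 : ∀ i, p i 2 ≠ 0 := fun i => by
    have h2 := hg.ne_zero (Sum.inl i, 2)
    exact h2
  have hP2 : ∀ l, P l 2 ≠ 0 := fun l => by
    have h2 := hg.ne_zero (Sum.inr l, 2)
    exact h2
  have hMd := S.hMd
  have C : Chn n N d (fun i : {i // i ∉ Z} => p i.1) (fun i => m i.1)
      (fun l : {l // l ∉ Y} => w l.1) BB
      (fun l j => fd d (μ l.1) (P l.1) (c l.1) j) (fun i k => E i.1 k) (fun l => D l.1) :=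
    { hd := fun i => by
        have := S.hm i.1
        omega
      hp := fun i => hp2 i.1
      hom1 := fun H hH => (hom1 H hH).1
      hom2 := hom2
      E2 := fun i k j => hE.E2 i.1 k j.1
      Ep := fun i k l => hE.Ep i.1 k l
      Ep' := fun i k j l h => hE.Ep' i.1 k j.1 l (fun h' => h (Subtype.ext h'))
      Dp := fun l j k => hE.Dp l.1 j.1 k
      stE := fun i k H hH => stE i.1 i.2 k H hH
      stD := fun l H hH => stD l.1 l.2 H hH
      lawE := fun i k l j H hH => by
        rw [D_fd _ (fun k' => hE.EP i.1 k l.1 k'), hE.Ec, zero_mul, add_zero]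
      lawD := fun l j H hH => by
        rw [D_fd _ (fun k' => hE.DP l.1 l.1 k'), hE.Dc, one_mul]
      lawD' := fun l l' j h H hH => by
        rw [D_fd _ (fun k' => hE.DP l.1 l'.1 k'),
          hE.Dc' l.1 l'.1 (fun h' => h (Subtype.ext h')), zero_mul, add_zero] }
  have T : Sol d (fun i : {i // i ∉ Z} => p i.1) (fun i => m i.1)
      (fun l : {l // l ∉ Y} => w l.1) BB (fun l j => fd d (μ l.1) (P l.1) (c l.1) j) F :=
    { dim := dim
      hF := ⟨hF, (hom1 F hF).1, fun i => hF' i.1 i.2⟩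
      fl := fun l j hj => fl l.1 l.2 j hj
      ex := fun l => ex l.1 l.2
      uniq := fun H hH h => uniq H hH.1 (fun i hi => hH.2.2 ⟨i, hi⟩)
        (fun l hl j hj => h ⟨l, hl⟩ j hj) }
  refine C.main T hn hq ?_ ?_ ?_ h0 h1
  · -- surjectivity
    rintro ⟨i, hi⟩ ⟨i', hi'⟩ I hI j hj1 hj β hβ
    set I' : Finset Λ := I.map ⟨Subtype.val, Subtype.val_injective⟩ with hI'
    have hI'c : I'.card ≤ 2 := by
      rw [hI', Finset.card_map]
      exact hI
    have hIm : ∀ l (hl : l ∉ Y), (⟨l, hl⟩ : {l // l ∉ Y}) ∈ I → l ∈ I' := by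
      intro l hl h
      rw [hI', Finset.mem_map]
      exact ⟨⟨l, hl⟩, h, rfl⟩
    set y : ι ⊕ Λ → ℕ := Sum.elim (fun i'' => if i'' = i then j else
      m i'' + (if i'' = i' then 1 else 0) + if i'' ∈ Z then 1 else 0)
      (fun l => μ l + if l ∈ I' ∪ Y then 1 else 0) with hy
    have hyi : y (Sum.inl i) = j := by
      rw [hy, Sum.elim_inl, if_pos rfl]
    have hyj : ∀ i'' ≠ i, y (Sum.inl i'') = m i'' + (if i'' = i' then 1 else 0) +
        if i'' ∈ Z then 1 else 0 := fun i'' h => by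
      rw [hy, Sum.elim_inl, if_neg h]
    have hyl : ∀ l, y (Sum.inr l) = μ l + if l ∈ I' ∪ Y then 1 else 0 := fun l => rfl
    have hroom := S.surj_room hZY i i' hi' I' hI'c hj hyi hyj hyl
    have hyM : ∀ x, y x ≤ M := by
      rintro (i'' | l)
      · by_cases h : i'' = i
        · rw [h, hyi]
          have := S.hm i
          change j ≤ m i at hj
          omega
        · rw [hyj i'' h]
          have h2 := S.hm i''
          by_cases h3 : i'' ∈ Z
          · have hne : i'' ≠ i' := by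
              rintro rfl
              exact hi' h3
            rw [if_neg hne, if_pos h3]
            omega
          · rw [if_neg h3]
            split_ifs <;> omega
      · rw [hyl]
        have h2 := S.hμ l
        split_ifs <;> omega
    obtain ⟨H, hH, hHl⟩ := exists_of_NSp S.hN hg (y := y) (Sum.inl i) hyM (by
      rw [hyi]
      have := S.hm i
      change j ≤ m i at hj
      omega) (by
      rw [hyi]
      have := S.hm i
      change j ≤ m i at hj
      omega) hroom (β := β) (by rw [hyi]; exact hβ)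
    rw [hyi] at hHl
    have hHl' : ld d j (p i) H = β := hHl
    have hvl : ∀ l, VanishTo H (P l) (μ l + if l ∈ I' ∪ Y then 1 else 0) := fun l =>
      hH.2 (Sum.inr l)
    have hHP : H ∈ linSys d P μ := ⟨hH.1, fun l => (hvl l).mono (Nat.le_add_right _ _)⟩
    obtain ⟨Θ, hΘ⟩ := free1 H hHP (fun l hl => by
      have := hvl l
      rwa [if_pos (Finset.mem_union_right _ hl)] at this) (fun a ha => by
      have h2 : a ≠ i := fun h => hi (h ▸ ha)
      have h3 := hH.2 (Sum.inl a)
      rw [hyj a h2, if_pos ha] at h3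
      exact h3.mono (by omega))
    refine ⟨(H, Θ), hΘ, ?_, hHl', ?_, ?_⟩
    · have h3 := hH.2 (Sum.inl i)
      rwa [hyi] at h3
    · rintro ⟨i'', hi''⟩ hne
      have hne' : i'' ≠ i := fun h => hne (Subtype.ext h)
      have h3 := hH.2 (Sum.inl i'')
      rw [hyj i'' hne', if_neg hi'', add_zero] at h3
      refine h3.mono ?_
      simp only [Subtype.mk.injEq]
      exact le_rfl
    · rintro ⟨l, hl⟩ hlI j'
      refine fd_zero_of_vanishTo hH.1 (hP2 l) (by have := S.hμd l; change μ l ≤ d; omega) ?_ _ _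
      have := hvl l
      rwa [if_pos (Finset.mem_union_left _ (hIm l hl hlI))] at this
  · -- separation
    rintro ⟨l, hl⟩ j hj
    have hwl := S.hw l
    have hMvl := S.hMv l
    change j < w l at hj
    let κ := ({l' : Λ // l' ≠ l} ⊕ {a : ι // a ∈ Z}) ⊕ ρ
    let Q : κ → V3 := Sum.elim (Sum.elim (fun l' => P l'.1) (fun a => p a.1)) R
    let a : κ → ℕ := Sum.elim (Sum.elim (fun l' => μ l'.1 + 2) (fun a => m a.1 + 1)) (fun _ => 1)
    have hcr : ∀ x y : ι ⊕ Λ, x ≠ y → cr (Sum.elim p P x) (Sum.elim p P y) ≠ 0 := by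
      intro x y hxy
      exact generic_cr_ne hg hxy
    have hQ : ∀ x, cr (Q x) (P l) ≠ 0 := by
      rintro ((⟨l', h⟩ | ⟨b, hb⟩) | x)
      · exact hcr (Sum.inr l') (Sum.inr l) (fun h' => h (Sum.inr_injective h'))
      · exact hcr (Sum.inl b) (Sum.inr l) (by simp)
      · exact hR x l
    have hsum : ∑ x, a x + μ l ≤ d := by
      rw [Fintype.sum_sum_type, Fintype.sum_sum_type]
      have h2 : ∑ x : {l' : Λ // l' ≠ l}, (μ x.1 + 2) + (μ l + 2) = ∑ l, (μ l + 2) := by
        rw [← Finset.add_sum_erase Finset.univ (fun l => μ l + 2) (Finset.mem_univ l), add_comm]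
        congr 1
        rw [← Finset.sum_subtype (Finset.univ.erase l) (p := fun l' => l' ≠ l)
          (fun x => by simp) (fun l => μ l + 2)]
      have h3 : ∑ x : {a : ι // a ∈ Z}, (m x.1 + 1) ≤ M := by
        have h4 : ∑ x : {a : ι // a ∈ Z}, (m x.1 + 1) ≤ ∑ x : {a : ι // a ∈ Z}, M :=
          Finset.sum_le_sum (fun x _ => S.hm x.1)
        rw [Finset.sum_const, Finset.card_univ, Fintype.card_coe, smul_eq_mul] at h4
        have h5 : Z.card * M ≤ 1 * M := Nat.mul_le_mul_right M (by omega)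
        omega
      have h4 : ∑ _x : ρ, 1 = Fintype.card ρ := by simp
      have h5 := S.hd
      change (∑ x : {l' : Λ // l' ≠ l}, (μ x.1 + 2) + ∑ x : {a : ι // a ∈ Z}, (m x.1 + 1)) +
        ∑ _x : ρ, 1 + μ l ≤ d
      rw [h4]
      omega
    obtain ⟨H, hHh, hHQ, hHP, hHf⟩ := exists_flag_form (hP2 l) hQ hsum (c l) (i := j)
      (by omega)
    have hH : H ∈ linSys d P μ := by
      refine ⟨hHh, fun l' => ?_⟩
      by_cases h : l' = l
      · rw [h]
        exact hHP
      · exact (hHQ (Sum.inl (Sum.inl ⟨l', h⟩))).mono (Nat.le_add_right _ 2)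
    obtain ⟨Θ, hΘ, hΘq⟩ := free2 H hH (fun l' hl' => by
      have h : l' ≠ l := fun h => hl (h ▸ hl')
      exact hHQ (Sum.inl (Sum.inl ⟨l', h⟩))) (fun b hb => hHQ (Sum.inl (Sum.inr ⟨b, hb⟩)))
      (fun x => hHQ (Sum.inr x))
    refine ⟨(H, Θ), hΘ, ?_, ?_, ?_, hΘq⟩
    · change fd d (μ l) (P l) (c l) j H ≠ 0
      rw [hHf, if_pos rfl]
      exact one_ne_zero
    · intro j' _ hne
      change fd d (μ l) (P l) (c l) j' H = 0
      rw [hHf, if_neg hne]
    · rintro ⟨l', hl'⟩ hne j' _
      have h : l' ≠ l := fun h => hne (Subtype.ext h)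
      refine fd_zero_of_vanishTo hHh (hP2 l') (by have := S.hμd l'; change μ l' ≤ d; omega) ?_ _ _
      have h2 : VanishTo H (P l') (μ l' + 2) := hHQ (Sum.inl (Sum.inl ⟨l', h⟩))
      exact h2.mono (by change μ l' + 1 ≤ μ l' + 2; omega)
  · -- base points
    intro T hT
    obtain ⟨H, hH, h2, h3⟩ := hbpf (T.map ⟨Subtype.val, Subtype.val_injective⟩)
      (by rw [Finset.card_map]; exact hT) (by
        intro i hi
        rw [Finset.mem_map] at hi
        obtain ⟨x, -, rfl⟩ := hi
        exact x.2)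
    refine ⟨H, hH, fun i hi => ?_, h3⟩
    apply h2
    rw [Finset.mem_map]
    exact ⟨i, hi, rfl⟩

end Pool.Agent.Work.MP_0421d9_ag.ZC
end

section
/-!
Collisions of generic points: the dimension of the systems with flags.
-/

set_option linter.unusedSectionVars false

namespace Pool.Agent.Work.MP_0421d9_ag.ZC

open MvPolynomial Module SM

section ZCDim

variable {ι Λ : Type}

theorem FS_le (d : ℕ) (p : ι → V3) (m : ι → ℕ) (P : Λ → V3) (μ : Λ → ℕ) (c : Λ → ℂ)
    (w : Λ → ℕ) : FS d p m P μ c w ≤ linSys d (Sum.elim p P) (Sum.elim m μ) := fun _ h => h.1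

instance finite_FS (d : ℕ) (p : ι → V3) (m : ι → ℕ) (P : Λ → V3) (μ : Λ → ℕ) (c : Λ → ℂ)
    (w : Λ → ℕ) : Module.Finite ℂ (FS d p m P μ c w) :=
  Submodule.finiteDimensional_of_le (FS_le d p m P μ c w)

/-- the systems with flags are stable under the derivations which fix the points if all
functionals are controlled -/
theorem FS_cD {d : ℕ} {p : ι → V3} {m : ι → ℕ} {P : Λ → V3} {μ : Λ → ℕ} {c : Λ → ℂ}
    {w : Λ → ℕ} (hm : ∀ i, m i ≤ d + 1) (hμ : ∀ l, μ l ≤ d + 1) {D : Derivation ℚ ℂ ℂ}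
    (hDp : ∀ i k, D (p i k) = 0) (hDP : ∀ l k, D (P l k) = 0) {F : R3}
    (hF : F ∈ FS d p m P μ c w)
    (h : ∀ l, ∀ i < w l, D (c l) * fd d (μ l) (P l) (c l) (i + 1) F = 0) :
    cD D F ∈ FS d p m P μ c w := by
  refine ⟨linSys_cD_mem (fun x => ?_) hF.1 (fun x => Or.inl ?_), fun l i hi => ?_⟩
  · rcases x with i | l
    · exact hm i
    · exact hμ l
  · rcases x with i | l
    · exact hDp i
    · exact hDP l
  · have h1 := D_fd D (hDP l) d (μ l) (c l) i F
    rw [hF.2 l i hi, map_zero, h l i hi, add_zero] at h1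
    exact h1.symm

/-- if the next functional vanishes identically on a system with flags, then all functionals at
this point vanish -/
theorem fd_all {d : ℕ} {p : ι → V3} {m : ι → ℕ} {P : Λ → V3} {μ : Λ → ℕ} {c : Λ → ℂ}
    {w : Λ → ℕ} (hm : ∀ i, m i ≤ d + 1) (hμ : ∀ l, μ l ≤ d + 1) {D : Derivation ℚ ℂ ℂ} {l : Λ}
    (hDp : ∀ i k, D (p i k) = 0) (hDP : ∀ l k, D (P l k) = 0) (hD : D (c l) = 1)
    (hD' : ∀ l', l' ≠ l → D (c l') = 0)
    (hvan : ∀ F ∈ FS d p m P μ c w, fd d (μ l) (P l) (c l) (w l) F = 0) :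
    ∀ i, ∀ F ∈ FS d p m P μ c w, fd d (μ l) (P l) (c l) i F = 0 := by
  have hst : ∀ F ∈ FS d p m P μ c w, cD D F ∈ FS d p m P μ c w := by
    intro F hF
    refine FS_cD hm hμ hDp hDP hF (fun l' i hi => ?_)
    by_cases h : l' = l
    · subst h
      rw [hD, one_mul]
      by_cases hi' : i + 1 = w l'
      · rw [hi']
        exact hvan F hF
      · exact hF.2 l' (i + 1) (by omega)
    · rw [hD' l' h, zero_mul]
  intro i
  induction i with
  | zero =>
    intro F hF
    by_cases h0 : w l = 0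
    · have := hvan F hF
      rwa [h0] at this
    · exact hF.2 l 0 (by omega)
  | succ i ih =>
    intro F hF
    have h1 := D_fd D (hDP l) d (μ l) (c l) i F
    rw [ih F hF, map_zero, ih _ (hst F hF), hD, one_mul, zero_add] at h1
    exact h1.symm

variable [Fintype ι] [Fintype Λ] [DecidableEq ι] [DecidableEq Λ]

theorem sum_update_add (w : Λ → ℕ) (l : Λ) (x : ℕ) (f : ℕ → ℕ) :
    ∑ l', f (Function.update w l x l') + f (w l) = ∑ l', f (w l') + f x := by
  have h1 : ∑ l', f (w l') = f (w l) + ∑ l' ∈ Finset.univ.erase l, f (w l') :=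
    (Finset.add_sum_erase _ (fun l' => f (w l')) (Finset.mem_univ l)).symm
  have h2 : ∑ l', f (Function.update w l x l') = f (Function.update w l x l) +
      ∑ l' ∈ Finset.univ.erase l, f (Function.update w l x l') :=
    (Finset.add_sum_erase _ (fun l' => f (Function.update w l x l')) (Finset.mem_univ l)).symm
  have h3 : ∑ l' ∈ Finset.univ.erase l, f (Function.update w l x l') =
      ∑ l' ∈ Finset.univ.erase l, f (w l') :=
    Finset.sum_congr rfl (fun l' hl' => by rw [Function.update_of_ne (Finset.ne_of_mem_erase hl')])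
  rw [h1, h2, h3, Function.update_self]
  omega

theorem finrank_FS_aux {M d : ℕ} (hN : NSp M d) (hMd : M ≤ d) {p : ι → V3} {P : Λ → V3}
    {c : Λ → ℂ} (hX : Ind (Sum.elim p P) c) {m : ι → ℕ} (hm : ∀ i, m i ≤ M) (N : ℕ) :
    ∀ μ w : Λ → ℕ, (∀ l, μ l ≤ M) → (∀ l, 1 ≤ w l → μ l + 1 ≤ M) → (∀ l, w l ≤ μ l + 1) →
      ∑ l, w l = N → finrank ℂ (FS d p m P μ c w) = (d + 2).choose 2 -
        (∑ i, (m i + 1).choose 2 + ∑ l, (μ l + 1).choose 2 + N) := by
  induction N using Nat.strong_induction_on with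
  | _ N ih =>
  intro μ w hμ hμw hw hsum
  have hmd : ∀ i, m i ≤ d + 1 := fun i => (hm i).trans (by omega)
  have hμd : ∀ l, μ l ≤ d + 1 := fun l => (hμ l).trans (by omega)
  rcases Nat.eq_zero_or_pos N with h0 | hpos
  · -- no flags
    subst h0
    have hw0 : ∀ l, w l = 0 := fun l => Finset.sum_eq_zero_iff.mp hsum l (Finset.mem_univ l)
    have h1 : FS d p m P μ c w = linSys d (Sum.elim p P) (Sum.elim m μ) := by
      apply le_antisymm (FS_le d p m P μ c w)
      intro F hF
      refine ⟨hF, fun l i hi => ?_⟩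
      rw [hw0 l] at hi
      exact absurd hi (Nat.not_lt_zero i)
    rw [h1, hN.finrank hX.generic (fun x => by
      rcases x with i | l
      · exact hm i
      · exact hμ l), Fintype.sum_sum_type]
    rfl
  · obtain ⟨l, hl⟩ : ∃ l, 0 < w l := by
      by_contra hcon
      push Not at hcon
      have : ∑ l, w l = 0 := Finset.sum_eq_zero (fun l _ => Nat.le_zero.mp (hcon l))
      omega
    obtain ⟨w', hw'⟩ : ∃ w', w' = Function.update w l (w l - 1) := ⟨_, rfl⟩
    have hw'l : w' l = w l - 1 := by rw [hw', Function.update_self]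
    have hw'k : ∀ k, k ≠ l → w' k = w k := fun k hk => by rw [hw', Function.update_of_ne hk]
    have hsum' : ∑ k, w' k = N - 1 := by
      have h1 := sum_update_add w l (w l - 1) id
      simp only [id] at h1
      rw [hw']
      omega
    have hW := ih (N - 1) (by omega) μ w' hμ (fun k hk => by
      by_cases h : k = l
      · subst h
        exact hμw k hl
      · rw [hw'k k h] at hk
        exact hμw k hk) (fun k => by
      by_cases h : k = l
      · subst h
        have := hw k
        omega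
      · rw [hw'k k h]
        exact hw k) hsum'
    have hW' : FS d p m P μ c w = FS d p m P μ c w' ⊓
        LinearMap.ker (fd d (μ l) (P l) (c l) (w' l)) := by
      ext F
      constructor
      · rintro ⟨h1, h2⟩
        refine ⟨⟨h1, fun k i hi => ?_⟩, ?_⟩
        · by_cases hk : k = l
          · subst hk
            exact h2 k i (by omega)
          · rw [hw'k k hk] at hi
            exact h2 k i hi
        · exact LinearMap.mem_ker.mpr (h2 l _ (by omega))
      · rintro ⟨⟨h1, h2⟩, h3⟩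
        rw [SetLike.mem_coe, LinearMap.mem_ker] at h3
        refine ⟨h1, fun k i hi => ?_⟩
        by_cases hk : k = l
        · subst hk
          by_cases hi' : i = w' k
          · rw [hi']
            exact h3
          · exact h2 k i (by omega)
        · apply h2 k i
          rw [hw'k k hk]
          exact hi
    by_cases hvan : ∀ F ∈ FS d p m P μ c w', fd d (μ l) (P l) (c l) (w' l) F = 0
    · -- the functional vanishes on the system: the multiplicity at `P l` is higher
      obtain ⟨D, hDpP, hDc⟩ := hX.derivation (fun k => if k = l then 1 else 0)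
      have hall := fd_all hmd hμd (fun i k => hDpP (Sum.inl i) k) (fun k j => hDpP (Sum.inr k) j)
        (by rw [hDc, if_pos rfl]) (fun k hk => by rw [hDc, if_neg hk]) hvan
      obtain ⟨μ', hμ'⟩ : ∃ μ', μ' = Function.update μ l (μ l + 1) := ⟨_, rfl⟩
      have hμ'l : μ' l = μ l + 1 := by rw [hμ', Function.update_self]
      have hμ'k : ∀ k, k ≠ l → μ' k = μ k := fun k hk => by rw [hμ', Function.update_of_ne hk]
      obtain ⟨v, hv⟩ : ∃ v, v = Function.update w l 0 := ⟨_, rfl⟩
      have hvl : v l = 0 := by rw [hv, Function.update_self]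
      have hvk : ∀ k, k ≠ l → v k = w k := fun k hk => by rw [hv, Function.update_of_ne hk]
      have hsumv : ∑ k, v k = N - w l := by
        have h1 := sum_update_add w l 0 id
        simp only [id] at h1
        rw [hv]
        omega
      have hPl : P l 2 ≠ 0 := coord_ne_zero hX.generic (Sum.inr l) 2
      have hMl := hμw l hl
      have hEq : FS d p m P μ c w' = FS d p m P μ' c v := by
        ext F
        constructor
        · intro hF
          have hld : ld d (μ l) (P l) F = 0 :=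
            ld_eq_zero_of_fd (by omega) hF.1.1 (fun i => hall i F hF)
          refine ⟨⟨hF.1.1, fun x => ?_⟩, fun k i hi => ?_⟩
          · rcases x with i | k
            · exact hF.1.2 (Sum.inl i)
            · by_cases hk : k = l
              · subst hk
                change VanishTo F (P k) (μ' k)
                rw [hμ'l, vanishTo_iff_ld hF.1.1 hPl (by omega)]
                intro j hj
                by_cases hj' : j = μ k
                · rw [hj']
                  exact hld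
                · have hk0 : VanishTo F (P k) (μ k) := hF.1.2 (Sum.inr k)
                  exact (vanishTo_iff_ld hF.1.1 hPl (by omega)).1 hk0 j (by omega)
              · change VanishTo F (P k) (μ' k)
                rw [hμ'k k hk]
                exact hF.1.2 (Sum.inr k)
          · by_cases hk : k = l
            · subst hk
              rw [hvl] at hi
              exact absurd hi (Nat.not_lt_zero i)
            · rw [hvk k hk] at hi
              rw [hμ'k k hk]
              exact hF.2 k i (by rw [hw'k k hk]; exact hi)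
        · intro hF
          have hv1 : VanishTo F (P l) (μ l + 1) := by
            have := hF.1.2 (Sum.inr l)
            change VanishTo F (P l) (μ' l) at this
            rwa [hμ'l] at this
          refine ⟨⟨hF.1.1, fun x => ?_⟩, fun k i hi => ?_⟩
          · rcases x with i | k
            · exact hF.1.2 (Sum.inl i)
            · by_cases hk : k = l
              · subst hk
                change VanishTo F (P k) (μ k)
                exact fun j hj => hv1 j (by omega)
              · have := hF.1.2 (Sum.inr k)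
                change VanishTo F (P k) (μ' k) at this
                rw [hμ'k k hk] at this
                exact this
          · by_cases hk : k = l
            · subst hk
              have hld : ld d (μ k) (P k) F = 0 :=
                (vanishTo_iff_ld hF.1.1 hPl (by omega)).1 hv1 (μ k) (by omega)
              change eval _ ((pderiv 0)^[i] (ld d (μ k) (P k) F)) = 0
              rw [hld, iterate_map_zero, map_zero]
            · have := hF.2 k i (by rw [hvk k hk, ← hw'k k hk]; exact hi)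
              rw [hμ'k k hk] at this
              exact this
      have hV := ih (N - w l) (by omega) μ' v (fun k => by
        by_cases hk : k = l
        · rw [hk, hμ'l]
          exact hMl
        · rw [hμ'k k hk]
          exact hμ k) (fun k hk => by
        by_cases h : k = l
        · rw [h, hvl] at hk
          omega
        · rw [hvk k h] at hk
          rw [hμ'k k h]
          exact hμw k hk) (fun k => by
        by_cases h : k = l
        · rw [h, hvl]
          omega
        · rw [hvk k h, hμ'k k h]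
          exact hw k) hsumv
      have hinf : FS d p m P μ c w' ⊓ LinearMap.ker (fd d (μ l) (P l) (c l) (w' l)) =
          FS d p m P μ c w' := by
        apply le_antisymm inf_le_left
        exact fun F hF => ⟨hF, LinearMap.mem_ker.mpr (hvan F hF)⟩
      rw [hW', hinf]
      rw [← hEq, hW] at hV
      have hch := sum_update_add μ l (μ l + 1) (fun x => (x + 1).choose 2)
      rw [← hμ'] at hch
      have hch2 : (μ l + 1 + 1).choose 2 = (μ l + 1).choose 2 + (μ l + 1) := by
        rw [Nat.choose_succ_succ' (μ l + 1) 1, Nat.choose_one_right]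
        exact Nat.add_comm _ _
      have hwl := hw l
      have hwN : w l ≤ N := by
        rw [← hsum]
        exact Finset.single_le_sum (fun _ _ => Nat.zero_le _) (Finset.mem_univ l)
      rw [hW]
      omega
    · push Not at hvan
      obtain ⟨f, hf, hfne⟩ := hvan
      obtain ⟨φ, hφ⟩ : ∃ φ, φ = fd d (μ l) (P l) (c l) (w' l) := ⟨_, rfl⟩
      rw [← hφ] at hfne hW'
      obtain ⟨L, hL⟩ : ∃ L, L = φ.domRestrict (FS d p m P μ c w') := ⟨_, rfl⟩
      have h1 := LinearMap.finrank_range_add_finrank_ker L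
      have h2 : LinearMap.range L = ⊤ := by
        apply LinearMap.range_eq_top.mpr
        intro r
        refine ⟨(r / φ f) • ⟨f, hf⟩, ?_⟩
        rw [map_smul, hL]
        change _ • φ f = r
        rw [smul_eq_mul, div_mul_cancel₀ _ hfne]
      have h3 : finrank ℂ (LinearMap.ker L) =
          finrank ℂ ↥(FS d p m P μ c w' ⊓ LinearMap.ker φ) := by
        have h4 : LinearMap.ker L = (FS d p m P μ c w' ⊓ LinearMap.ker φ).comap
            (FS d p m P μ c w').subtype := by
          ext x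
          simp [hL]
        rw [h4]
        exact (Submodule.comapSubtypeEquivOfLe inf_le_left).finrank_eq
      rw [h2, finrank_top, Module.finrank_self, h3, hW] at h1
      rw [hW']
      omega

/-- **The dimension of the systems with flags.** -/
theorem finrank_FS {M d : ℕ} (hN : NSp M d) (hMd : M ≤ d) {p : ι → V3} {P : Λ → V3} {c : Λ → ℂ}
    (hX : Ind (Sum.elim p P) c) {m : ι → ℕ} (hm : ∀ i, m i ≤ M) {μ w : Λ → ℕ}
    (hμ : ∀ l, μ l ≤ M) (hμw : ∀ l, 1 ≤ w l → μ l + 1 ≤ M) (hw : ∀ l, w l ≤ μ l + 1) :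
    finrank ℂ (FS d p m P μ c w) = (d + 2).choose 2 -
      (∑ i, (m i + 1).choose 2 + ∑ l, (μ l + 1).choose 2 + ∑ l, w l) :=
  finrank_FS_aux hN hMd hX hm _ μ w hμ hμw hw rfl

end ZCDim

end Pool.Agent.Work.MP_0421d9_ag.ZC
end

section
/-!
Collisions of generic points: the flag level.
-/

set_option linter.unusedSectionVars false
set_option linter.unusedVariables false

namespace Pool.Agent.Work.MP_0421d9_ag.ZC

open MvPolynomial Module SM

variable {ι Λ : Type} [Fintype ι] [Fintype Λ] [DecidableEq ι] [DecidableEq Λ] {d M : ℕ}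
  {m : ι → ℕ} {μ w s Mv : Λ → ℕ} {v : ∀ l, Fin (s l) → ℕ}

/-- the derivations exist -/
theorem exists_ders {κ : Type} {p : ι → V3} {P : Λ → V3} {R : κ → V3} {c : Λ → ℂ}
    (hX : Ind (Sum.elim (Sum.elim p P) R) c) :
    ∃ (E : ι → Fin 2 → Derivation ℚ ℂ ℂ) (D : Λ → Derivation ℚ ℂ ℂ), Ders p P c E D ∧
      (∀ i k x j, E i k (R x j) = 0) ∧ (∀ l x j, D l (R x j) = 0) := by
  classical
  have hE : ∀ (i : ι) (k : Fin 2), ∃ Δ : Derivation ℚ ℂ ℂ,
      (∀ j l, Δ (p j l) = if j = i ∧ l = k.castSucc then 1 else 0) ∧ (∀ l j, Δ (P l j) = 0) ∧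
      (∀ x j, Δ (R x j) = 0) ∧ ∀ l, Δ (c l) = 0 := by
    intro i k
    obtain ⟨Δ, hΔ⟩ := exists_derivation _ hX (Sum.elim (fun z =>
      Sum.elim (Sum.elim (fun j => if j = i ∧ z.2 = k.castSucc then 1 else 0) (fun _ => 0))
        (fun _ => 0) z.1) (fun _ => 0))
    exact ⟨Δ, fun j l => hΔ (Sum.inl (Sum.inl (Sum.inl j), l)),
      fun l j => hΔ (Sum.inl (Sum.inl (Sum.inr l), j)),
      fun x j => hΔ (Sum.inl (Sum.inr x, j)), fun l => hΔ (Sum.inr l)⟩
  have hD : ∀ (i : Λ), ∃ Δ : Derivation ℚ ℂ ℂ, (∀ j l, Δ (p j l) = 0) ∧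
      (∀ l j, Δ (P l j) = 0) ∧ (∀ x j, Δ (R x j) = 0) ∧
      ∀ l, Δ (c l) = if l = i then 1 else 0 := by
    intro i
    obtain ⟨Δ, hΔ⟩ := exists_derivation _ hX (Sum.elim (fun _ => 0)
      (fun l => if l = i then 1 else 0))
    exact ⟨Δ, fun j l => hΔ (Sum.inl (Sum.inl (Sum.inl j), l)),
      fun l j => hΔ (Sum.inl (Sum.inl (Sum.inr l), j)),
      fun x j => hΔ (Sum.inl (Sum.inr x, j)), fun l => hΔ (Sum.inr l)⟩
  choose E hE1 hE2 hE3 hE4 using hE
  choose D hD1 hD2 hD3 hD4 using hD
  refine ⟨E, D, ⟨?_, ?_, ?_, ?_, ?_, ?_, ?_, ?_, ?_⟩, hE3, hD3⟩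
  · intro i k j
    rw [hE1, if_neg]
    rintro ⟨-, h⟩
    fin_cases k
    · exact absurd h (by decide)
    · exact absurd h (by decide)
  · intro i k l
    rw [hE1]
    by_cases h : k = l
    · rw [if_pos h, if_pos ⟨rfl, by rw [h]⟩]
    · rw [if_neg h, if_neg]
      rintro ⟨-, h'⟩
      exact h (Fin.castSucc_injective _ h').symm
  · intro i k j l h
    rw [hE1, if_neg]
    rintro ⟨h', -⟩
    exact h h'.symm
  · exact hE2
  · exact hE4
  · exact hD1
  · exact hD2
  · intro l
    rw [hD4, if_pos rfl]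
  · intro l l' h
    rw [hD4, if_neg (Ne.symm h)]

theorem ind_empty {p : ι → V3} {P : Λ → V3} {c : Λ → ℂ} (hX : Ind (Sum.elim p P) c) :
    Ind (Sum.elim (Sum.elim p P) (Empty.elim : Empty → V3)) c := by
  unfold Ind at hX ⊢
  let e : (((ι ⊕ Λ) ⊕ Empty) × Fin 3) ⊕ Λ → ((ι ⊕ Λ) × Fin 3) ⊕ Λ :=
    Sum.map (fun z => (Sum.elim id Empty.elim z.1, z.2)) id
  have he : Function.Injective e := by
    rintro (⟨x | x, k⟩ | l) (⟨x' | x', k'⟩ | l') h
    · simp only [e, Sum.map_inl, Sum.elim_inl, id, Sum.inl.injEq, Prod.mk.injEq] at h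
      rw [h.1, h.2]
    · exact x'.elim
    · simp [e] at h
    · exact x.elim
    · exact x.elim
    · exact x.elim
    · simp [e] at h
    · exact x'.elim
    · simp only [e, Sum.map_inr, id, Sum.inr.injEq] at h
      rw [h]
  have h1 := hX.comp e he
  have h2 : (Sum.elim (fun z : (ι ⊕ Λ) × Fin 3 => Sum.elim p P z.1 z.2) c) ∘ e =
      Sum.elim (fun z : ((ι ⊕ Λ) ⊕ Empty) × Fin 3 =>
        Sum.elim (Sum.elim p P) (Empty.elim : Empty → V3) z.1 z.2) c := by
    funext z
    rcases z with ⟨x | x, k⟩ | l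
    · rfl
    · exact x.elim
    · rfl
  rw [h2] at h1
  exact h1

theorem FS_le_Rd {κ κ' : Type} {d : ℕ} {p : κ → V3} {m : κ → ℕ} {P : κ' → V3} {μ : κ' → ℕ}
    {c : κ' → ℂ} {w : κ' → ℕ} : FS d p m P μ c w ≤ Rd d := fun F hF => hF.1.1

/-- stability of the flag systems -/
theorem FS_stable {κ κ' : Type} {d : ℕ} {p : κ → V3} {m : κ → ℕ} {P : κ' → V3} {μ : κ' → ℕ}
    {c : κ' → ℂ} {w : κ' → ℕ} (Δ : Derivation ℚ ℂ ℂ) (hp : ∀ i k, Δ (p i k) = 0)
    (hP : ∀ l k, Δ (P l k) = 0) (hc : ∀ l, 0 < w l → Δ (c l) = 0) {F : R3}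
    (hF : F ∈ FS d p m P μ c w) : cD Δ F ∈ FS d p m P μ c w := by
  refine ⟨⟨cD_isHomogeneous Δ hF.1.1, ?_⟩, fun l i hi => ?_⟩
  · rintro (i | l)
    · exact vanishTo_cD_fixed Δ (hp i) (hF.1.2 (Sum.inl i))
    · exact vanishTo_cD_fixed Δ (hP l) (hF.1.2 (Sum.inr l))
  · have h1 := D_fd Δ (hP l) d (μ l) (c l) i F
    rw [hF.2 l i hi, map_zero, hc l (by omega), zero_mul, add_zero] at h1
    exact h1.symm

theorem Ind.gen {κ κ' : Type} {p : κ → V3} {c : κ' → ℂ} (h : Ind p c) : GenericPoints p :=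
  AlgebraicIndependent.comp h Sum.inl Sum.inl_injective

theorem Dat.finrank_w (S : Dat d M m μ w s Mv v) {p : ι → V3} {P : Λ → V3} {c : Λ → ℂ}
    (hX : Ind (Sum.elim p P) c) {w' : Λ → ℕ} (hw' : ∀ l, w' l ≤ μ l + 1) :
    finrank ℂ (FS d p m P μ c w') = (d + 2).choose 2 -
      (∑ i, (m i + 1).choose 2 + ∑ l, (μ l + 1).choose 2 + ∑ l, w' l) := by
  apply finrank_FS S.hN (by have := S.hMd; omega) hX
  · intro i
    have := S.hm i
    omega
  · intro l
    have := S.hμ l
    omega
  · intro l _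
    exact S.hμ l
  · exact hw'

theorem Dat.w_le (S : Dat d M m μ w s Mv v) (l : Λ) : w l + 1 ≤ μ l := by
  have h1 := S.hw l
  have h2 := S.hMv l
  omega

theorem Dat.flag_exact (S : Dat d M m μ w s Mv v) {p : ι → V3} {P : Λ → V3} {c : Λ → ℂ}
    (hX : Ind (Sum.elim p P) c) {F : R3} (hF : F ∈ FS d p m P μ c w) (hF0 : F ≠ 0) (l : Λ) :
    fd d (μ l) (P l) (c l) (w l) F ≠ 0 := by
  intro h
  have h1 := S.finrank_w hX (w' := Function.update w l (w l + 1)) (by
    intro l'
    by_cases h' : l' = l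
    · rw [h', Function.update_self]
      have := S.w_le l
      omega
    · rw [Function.update_of_ne h']
      have := S.w_le l'
      omega)
  have h2 : ∑ l', Function.update w l (w l + 1) l' = ∑ l', w l' + 1 := by
    rw [← Finset.add_sum_erase Finset.univ _ (Finset.mem_univ l), Function.update_self,
      ← Finset.add_sum_erase Finset.univ w (Finset.mem_univ l)]
    rw [Finset.sum_congr rfl (fun l' hl' => Function.update_of_ne (Finset.ne_of_mem_erase hl') _ _)]
    ring
  have h3 := S.hχ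
  rw [h2] at h1
  have h4 : finrank ℂ (FS d p m P μ c (Function.update w l (w l + 1))) = 0 := by
    rw [h1]
    omega
  have hfin := finite_of_le_Rd (FS_le_Rd (d := d) (p := p) (m := m) (P := P) (μ := μ) (c := c)
    (w := Function.update w l (w l + 1)))
  have h5 : FS d p m P μ c (Function.update w l (w l + 1)) = ⊥ := Submodule.finrank_eq_zero.mp h4
  have h6 : F ∈ FS d p m P μ c (Function.update w l (w l + 1)) := by
    refine ⟨hF.1, fun l' i hi => ?_⟩
    by_cases h' : l' = l
    · subst h'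
      rw [Function.update_self] at hi
      by_cases hi' : i = w l'
      · rw [hi']
        exact h
      · exact hF.2 l' i (by omega)
    · rw [Function.update_of_ne h'] at hi
      exact hF.2 l' i hi
  rw [h5, Submodule.mem_bot] at h6
  exact hF0 h6

theorem Dat.flag_uniq (S : Dat d M m μ w s Mv v) {p : ι → V3} {P : Λ → V3} {c : Λ → ℂ}
    (hX : Ind (Sum.elim p P) c) {F : R3} (hF : F ∈ FS d p m P μ c w) (hF0 : F ≠ 0) {H : R3}
    (hH : H ∈ FS d p m P μ c w) : ∃ a : ℂ, H = a • F := by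
  have h1 := S.finrank_w hX (w' := w) (fun l => by have := S.w_le l; omega)
  have h3 := S.hχ
  have h4 : finrank ℂ (FS d p m P μ c w) = 1 := by
    rw [h1]
    omega
  have hne : (⟨F, hF⟩ : FS d p m P μ c w) ≠ 0 := fun h => hF0 (congrArg Subtype.val h)
  obtain ⟨a, ha⟩ := (finrank_eq_one_iff_of_nonzero' _ hne).mp h4 ⟨H, hH⟩
  exact ⟨a, (congrArg Subtype.val ha).symm⟩

/-- the graph of `Θ` over `W` -/
noncomputable def GB {n : ℕ} (W : Submodule ℂ R3) (Θ : R3 →ₗ[ℂ] MvPolynomial (Fin n) ℂ) :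
    Submodule ℂ (R3 × MvPolynomial (Fin n) ℂ) where
  carrier := {H | H.1 ∈ W ∧ H.2 = Θ H.1}
  zero_mem' := ⟨zero_mem _, (map_zero Θ).symm⟩
  add_mem' := fun {x y} hx hy => ⟨add_mem hx.1 hy.1, by
    rw [Prod.snd_add, Prod.fst_add, map_add, hx.2, hy.2]⟩
  smul_mem' := fun r x hx => ⟨Submodule.smul_mem _ _ hx.1, by
    rw [Prod.smul_snd, Prod.smul_fst, map_smul, hx.2]⟩

theorem finrank_le_of_inj {n d : ℕ} {W : Submodule ℂ R3} (hW : W ≤ Rd d)
    {V : Submodule ℂ (R3 × MvPolynomial (Fin n) ℂ)} (hV : Module.Finite ℂ V)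
    (Θ : R3 →ₗ[ℂ] MvPolynomial (Fin n) ℂ) (h : ∀ H ∈ W, (H, Θ H) ∈ V) :
    finrank ℂ W ≤ finrank ℂ V := by
  have hfin := finite_of_le_Rd hW
  let L : W →ₗ[ℂ] V := LinearMap.codRestrict V ((LinearMap.prod LinearMap.id Θ).comp W.subtype)
    (fun x => h x x.2)
  apply LinearMap.finrank_le_finrank_of_injective (f := L)
  intro x y hxy
  have h1 : (L x : R3 × MvPolynomial (Fin n) ℂ) = L y := by rw [hxy]
  have h2 : (x : R3) = y := congrArg Prod.fst h1
  exact Subtype.ext h2

theorem FS_stable' {p : ι → V3} {P : Λ → V3} {c : Λ → ℂ} {Z : Finset ι} {Y : Finset Λ}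
    (Δ : Derivation ℚ ℂ ℂ) (hP : ∀ l k, Δ (P l k) = 0) (hp : ∀ a ∈ Z, ∀ k, Δ (p a k) = 0)
    (hc : ∀ l ∈ Y, Δ (c l) = 0) {H : R3}
    (hH : H ∈ FS d (fun a : {a // a ∈ Z} => p a.1) (fun a => m a.1) P μ c
      (fun l => if l ∈ Y then w l else 0)) :
    cD Δ H ∈ FS d (fun a : {a // a ∈ Z} => p a.1) (fun a => m a.1) P μ c
      (fun l => if l ∈ Y then w l else 0) := by
  refine FS_stable (p := fun a : {a // a ∈ Z} => p a.1) (m := fun a : {a // a ∈ Z} => m a.1)
    (P := P) (μ := μ) (c := c) (w := fun l => if l ∈ Y then w l else 0) Δ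
    (fun a k => hp a.1 a.2 k) hP ?_ hH
  intro l hl
  by_cases h : l ∈ Y
  · exact hc l h
  · simp only [if_neg h] at hl
    exact absurd hl (Nat.lt_irrefl 0)

/-- **The chain theorem for graphs.** -/
theorem Dat.graph (S : Dat d M m μ w s Mv v) {p : ι → V3} {P : Λ → V3} {c : Λ → ℂ}
    (hX : Ind (Sum.elim p P) c) (Z : Finset ι) (Y : Finset Λ)
    (hZY : Z.card + Y.card ≤ 1) {n N : ℕ} (hn : n ≤ 3)
    {Θ : R3 →ₗ[ℂ] MvPolynomial (Fin n) ℂ} {W : Submodule ℂ R3}
    (hW : W = FS d (fun a : {a // a ∈ Z} => p a.1) (fun a => m a.1) P μ c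
      (fun l => if l ∈ Y then w l else 0))
    (hΘN : ∀ H ∈ W, (Θ H).IsHomogeneous N)
    (hΘD : ∀ Δ : Derivation ℚ ℂ ℂ, (∀ l k, Δ (P l k) = 0) → (∀ a ∈ Z, ∀ k, Δ (p a k) = 0) →
      (∀ l ∈ Y, Δ (c l) = 0) → ∀ H ∈ W, Θ (cD Δ H) = cD Δ (Θ H))
    {ρ : Type} [Fintype ρ] (hρ : Fintype.card ρ ≤ 1)
    {R : ρ → V3} (hR : ∀ x l, cr (R x) (P l) ≠ 0) {q : Fin n → ℂ} (hq : q ≠ 0)
    (free2 : ∀ H ∈ W, (∀ l ∈ Y, VanishTo H (P l) (μ l + 2)) →
      (∀ a ∈ Z, VanishTo H (p a) (m a + 1)) → (∀ x, VanishTo H (R x) 1) → eval q (Θ H) = 0)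
    (hbpf : ∀ T : Finset ι, T.card ≤ 1 → (∀ i ∈ T, i ∉ Z) → ∃ H ∈ W,
      (∀ i ∈ T, VanishTo H (p i) (m i)) ∧ eval q (Θ H) ≠ 0)
    {F : R3} (hF : F ∈ FS d p m P μ c w) (hF0 : F ≠ 0)
    (h0 : eval q (Θ F) = 0) (h1 : ∀ k, eval q (pderiv k (Θ F)) = 0) : False := by
  classical
  obtain ⟨E, D, hE, -, -⟩ := exists_ders (ind_empty hX)
  have hg : GenericPoints (Sum.elim p P) := Ind.gen hX
  have hP2 : ∀ l, P l 2 ≠ 0 := fun l => by
    have h2 := hg.ne_zero (Sum.inr l, 2)
    exact h2
  have hWR : W ≤ Rd d := by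
    rw [hW]
    exact FS_le_Rd
  have hwY : ∀ l, (if l ∈ Y then w l else 0) ≤ w l := fun l => by split_ifs <;> omega
  have hWst : ∀ Δ : Derivation ℚ ℂ ℂ, (∀ l k, Δ (P l k) = 0) →
      (∀ a ∈ Z, ∀ k, Δ (p a k) = 0) → (∀ l ∈ Y, Δ (c l) = 0) → ∀ H ∈ W, cD Δ H ∈ W := by
    intro Δ h1 h2 h3 H hH
    rw [hW] at hH ⊢
    exact FS_stable' Δ h1 h2 h3 hH
  -- members of the whole system
  have hFS : ∀ H ∈ W, (∀ i ∉ Z, VanishTo H (p i) (m i)) → (∀ l ∉ Y, ∀ j < w l,
      fd d (μ l) (P l) (c l) j H = 0) → H ∈ FS d p m P μ c w := by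
    intro H hH hv hf
    rw [hW] at hH
    refine ⟨⟨hH.1.1, ?_⟩, fun l i hi => ?_⟩
    · rintro (i | l)
      · by_cases hi : i ∈ Z
        · exact hH.1.2 (Sum.inl ⟨i, hi⟩)
        · exact hv i hi
      · exact hH.1.2 (Sum.inr l)
    · by_cases hl : l ∈ Y
      · exact hH.2 l i (by simp only [if_pos hl]; exact hi)
      · exact hf l hl i hi
  have hFW : F ∈ W := by
    rw [hW]
    refine ⟨⟨hF.1.1, ?_⟩, fun l i hi => hF.2 l i (lt_of_lt_of_le hi (hwY l))⟩
    rintro (a | l)
    · exact hF.1.2 (Sum.inl a.1)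
    · exact hF.1.2 (Sum.inr l)
  have hfinV : Module.Finite ℂ (VV d (fun i : {i // i ∉ Z} => p i.1) (GB W Θ)
      (fun i => m i.1)) := by
    have hfin := finite_of_le_Rd hWR
    let L : W →ₗ[ℂ] (R3 × MvPolynomial (Fin n) ℂ) :=
      (LinearMap.prod LinearMap.id Θ).comp W.subtype
    have h2 : VV d (fun i : {i // i ∉ Z} => p i.1) (GB W Θ) (fun i => m i.1) ≤
        LinearMap.range L := by
      rintro H ⟨⟨h3, h4⟩, -⟩
      refine ⟨⟨H.1, h3⟩, ?_⟩
      exact Prod.ext rfl h4.symm
    exact Submodule.finiteDimensional_of_le h2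
  refine S.core (BB := GB W Θ) (N := N) (F := (F, Θ F)) hg hE Z Y hZY hn ?_ ?_ ?_ ?_ hρ hR hq ?_ ?_
    ?_ ⟨hFW, rfl⟩ (fun i _ => hF.1.2 (Sum.inl i)) (fun l _ j hj => hF.2 l j hj)
    (fun l _ => S.flag_exact hX hF hF0 l) ?_ ?_ h0 h1
  · intro H hH
    have h2 := hH.1
    rw [hW] at h2
    exact ⟨h2.1.1, fun l => h2.1.2 (Sum.inr l)⟩
  · intro H hH
    rw [hH.2]
    exact hΘN _ hH.1
  · intro i hi k H hH
    have hia : ∀ a ∈ Z, i ≠ a := by
      rintro a ha rfl
      exact hi ha
    refine ⟨?_, ?_⟩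
    · exact hWst (E i k) (hE.EP i k) (fun a ha k' => hE.Ej (hia a ha) k k')
        (fun l _ => hE.Ec i k l) H.1 hH.1
    · change cD (E i k) H.2 = Θ (cD (E i k) H.1)
      rw [hH.2, hΘD (E i k) (hE.EP i k) (fun a ha k' => hE.Ej (hia a ha) k k')
        (fun l _ => hE.Ec i k l) _ hH.1]
  · intro l hl H hH
    have hlY : ∀ l' ∈ Y, l ≠ l' := by
      rintro l' hl' rfl
      exact hl hl'
    refine ⟨?_, ?_⟩
    · exact hWst (D l) (hE.DP l) (fun a _ k' => hE.Dp l a k')
        (fun l' hl' => hE.Dc' l l' (hlY l' hl')) H.1 hH.1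
    · change cD (D l) H.2 = Θ (cD (D l) H.1)
      rw [hH.2, hΘD (D l) (hE.DP l) (fun a ha k' => hE.Dp l a k')
        (fun l' hl' => hE.Dc' l l' (hlY l' hl')) _ hH.1]
  · intro H hH hY hZ
    refine ⟨Θ H, ?_, rfl⟩
    change H ∈ W
    rw [hW]
    refine ⟨⟨hH.1, ?_⟩, fun l i hi => ?_⟩
    · rintro (a | l)
      · exact (hZ a.1 a.2).mono (Nat.le_succ _)
      · exact hH.2 l
    · by_cases hl : l ∈ Y
      · exact fd_zero_of_vanishTo hH.1 (hP2 l) (by have := S.hμd l; omega) (hY l hl) _ _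
      · have hi' : i < (if l ∈ Y then w l else 0) := hi
        rw [if_neg hl] at hi'
        exact absurd hi' (Nat.not_lt_zero i)
  · intro H hH hY hZ hRx
    have hHW : H ∈ W := by
      rw [hW]
      refine ⟨⟨hH.1, ?_⟩, fun l i hi => ?_⟩
      · rintro (a | l)
        · exact (hZ a.1 a.2).mono (Nat.le_succ _)
        · exact hH.2 l
      · by_cases hl : l ∈ Y
        · exact fd_zero_of_vanishTo hH.1 (hP2 l) (by have := S.hμd l; omega)
            ((hY l hl).mono (Nat.le_succ _)) _ _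
        · have hi' : i < (if l ∈ Y then w l else 0) := hi
          rw [if_neg hl] at hi'
          exact absurd hi' (Nat.not_lt_zero i)
    exact ⟨Θ H, ⟨hHW, rfl⟩, free2 H hHW hY hZ hRx⟩
  · intro T hT hTZ
    obtain ⟨H, hH, h2, h3⟩ := hbpf T hT hTZ
    exact ⟨(H, Θ H), ⟨hH, rfl⟩, h2, h3⟩
  · intro H hH hv hf
    obtain ⟨a, ha⟩ := S.flag_uniq hX hF hF0 (hFS H.1 hH.1 hv hf)
    refine ⟨a, Prod.ext ha ?_⟩
    rw [hH.2, ha, map_smul]
    rfl
  · have h2 := S.finrank_w hX (w' := fun l => if l ∈ Y then w l else 0)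
      (fun l => by have := S.w_le l; have := hwY l; omega)
    have h3 := finrank_le_of_inj (W := FS d p m P μ c (fun l => if l ∈ Y then w l else 0))
      FS_le_Rd hfinV Θ (by
        intro H hH
        have hHW : H ∈ W := by
          rw [hW]
          refine ⟨⟨hH.1.1, ?_⟩, hH.2⟩
          rintro (a | l)
          · exact hH.1.2 (Sum.inl a.1)
          · exact hH.1.2 (Sum.inr l)
        exact ⟨⟨hHW, rfl⟩, hH.1.1, fun i => hH.1.2 (Sum.inl i.1)⟩)
    have h4 : ∑ l, w l = ∑ l, (if l ∈ Y then w l else 0) + ∑ l : {l // l ∉ Y}, w l.1 := by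
      rw [← Finset.sum_subtype (Finset.univ.filter (fun l => l ∉ Y)) (p := fun l => l ∉ Y)
        (fun x => by simp) w, Finset.sum_filter, ← Finset.sum_add_distrib]
      refine Finset.sum_congr rfl (fun l _ => ?_)
      by_cases hl : l ∈ Y
      · rw [if_pos hl, if_neg (not_not.mpr hl), add_zero]
      · rw [if_neg hl, if_pos hl, zero_add]
    have h5 := S.hχ
    rw [h2] at h3
    omega

/-- Euler: a multiple zero is a zero -/
theorem eval_zero_of_grad {n N : ℕ} (hN : 1 ≤ N) {G : MvPolynomial (Fin n) ℂ}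
    (hG : G.IsHomogeneous N) {q : Fin n → ℂ} (h : ∀ k, eval q (pderiv k G) = 0) :
    eval q G = 0 := by
  have h1 := congrArg (eval q) hG.sum_X_mul_pderiv
  rw [map_sum, Finset.sum_eq_zero (fun k _ => by rw [map_mul, h k, mul_zero]), map_nsmul,
    nsmul_eq_mul] at h1
  have h3 : (N : ℂ) ≠ 0 := by
    rw [Nat.cast_ne_zero]
    omega
  exact (mul_eq_zero.mp h1.symm).resolve_left h3

theorem cr_anti (p q : V3) : cr q p = - cr p q := by
  funext i
  fin_cases i
  · change q 1 * p 2 - q 2 * p 1 = -(p 1 * q 2 - p 2 * q 1)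
    ring
  · change q 2 * p 0 - q 0 * p 2 = -(p 2 * q 0 - p 0 * q 2)
    ring
  · change q 0 * p 1 - q 1 * p 0 = -(p 0 * q 1 - p 1 * q 0)
    ring

theorem cr_ne_symm {p q : V3} (h : cr p q ≠ 0) : cr q p ≠ 0 := by
  rw [cr_anti]
  exact neg_ne_zero.mpr h

/-- a binary form not vanishing at a point -/
theorem exists_binary {y : V2} (hy : y ≠ 0) (k : ℕ) : ∃ β : R2, β.IsHomogeneous k ∧
    eval y β ≠ 0 := by
  have h1 : ∀ i : Fin 2, (X i ^ k : R2).IsHomogeneous k := fun i => by
    have := (isHomogeneous_X ℂ i).pow k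
    rwa [one_mul] at this
  by_cases h0 : y 0 = 0
  · refine ⟨X 1 ^ k, h1 1, ?_⟩
    rw [map_pow, eval_X]
    apply pow_ne_zero
    intro h
    apply hy
    funext i
    fin_cases i
    · exact h0
    · exact h
  · refine ⟨X 0 ^ k, h1 0, ?_⟩
    rw [map_pow, eval_X]
    exact pow_ne_zero _ h0

/-- derivatives of a form with a multiple factor -/
theorem iterate_factor (c : ℂ) (w : ℕ) : ∀ i, i ≤ w → ∀ γ : R2, ∃ γ' : R2,
    (pderiv 0)^[i] ((X 0 - C c * X 1) ^ w * γ) = (X 0 - C c * X 1) ^ (w - i) * γ' := by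
  intro i
  induction i with
  | zero => exact fun _ γ => ⟨γ, rfl⟩
  | succ i ih =>
    intro hi γ
    obtain ⟨γ', h⟩ := ih (by omega) γ
    refine ⟨C ((w - i : ℕ) : ℂ) * γ' + (X 0 - C c * X 1) * pderiv 0 γ', ?_⟩
    rw [Function.iterate_succ_apply', h, pderiv_mul, pderiv_pow]
    have h1 : pderiv 0 (X 0 - C c * X 1 : R2) = 1 := by
      rw [map_sub, pderiv_X_self, pderiv_C_mul, pderiv_X_of_ne (by decide), mul_zero, sub_zero]
    have h2 : (X 0 - C c * X 1 : R2) ^ (w - i) =
        (X 0 - C c * X 1) ^ (w - (i + 1)) * (X 0 - C c * X 1) := by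
      rw [← pow_succ]
      congr 1
      omega
    have h3 : w - i - 1 = w - (i + 1) := by omega
    rw [h1, h2, h3, map_natCast]
    ring

theorem Dat.card_sum (S : Dat d M m μ w s Mv v) (T : Finset ι) (hT : T.card ≤ 1) :
    ∑ x : {i // i ∈ T}, m x.1 + 1 ≤ M ∨ ∑ x : {i // i ∈ T}, m x.1 = 0 := by
  rcases Nat.eq_zero_or_pos T.card with h | h
  · right
    rw [Finset.card_eq_zero] at h
    subst h
    simp
  · left
    obtain ⟨a, ha⟩ := Finset.card_eq_one.mp (by omega : T.card = 1)
    subst ha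
    have h1 : ∑ x : {i // i ∈ ({a} : Finset ι)}, m x.1 = m a := by
      rw [← Finset.sum_subtype ({a} : Finset ι) (p := fun i => i ∈ ({a} : Finset ι))
        (fun x => Iff.rfl) m, Finset.sum_singleton]
    rw [h1]
    exact S.hm a

theorem Dat.deg_sum (S : Dat d M m μ w s Mv v) (T : Finset ι) (hT : T.card ≤ 1) :
    ∑ x : Λ ⊕ {i // i ∈ T}, Sum.elim μ (fun i => m i.1) x + 2 * Fintype.card Λ + M ≤ d := by
  rw [Fintype.sum_sum_type]
  have h1 := S.hd
  rw [Finset.sum_add_distrib, Finset.sum_const, Finset.card_univ, smul_eq_mul] at h1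
  have h2 := S.card_sum T hT
  change ∑ l, μ l + ∑ x : {i // i ∈ T}, m x.1 + _ + _ ≤ d
  rcases h2 with h2 | h2 <;> omega

theorem Dat.flag_sing [Nonempty Λ] (S : Dat d M m μ w s Mv v) {p : ι → V3} {P : Λ → V3} {c : Λ → ℂ}
    (hX : Ind (Sum.elim p P) c) {F : R3} (hF : F ∈ FS d p m P μ c w) (hF0 : F ≠ 0) :
    ¬ Sing (Sum.elim p P) F := by
  classical
  rintro ⟨q, hq, hqp, hs⟩
  have hMd := S.hMd
  have hd1 : 1 ≤ d := by
    obtain ⟨l⟩ := ‹Nonempty Λ›
    have := S.hμd l
    omega
  refine S.graph hX (Z := ∅) (Y := ∅) (by simp) (n := 3) (N := d) le_rfl (Θ := LinearMap.id)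
    (W := FS d (fun a : {a // a ∈ (∅ : Finset ι)} => p a.1) (fun a => m a.1) P μ c
      (fun l => if l ∈ (∅ : Finset Λ) then w l else 0)) rfl (fun H hH => hH.1.1)
    (fun Δ _ _ _ H _ => rfl) (ρ := Unit) (by simp) (R := fun _ => q)
    (fun _ l => cr_ne_symm (hqp (Sum.inr l))) hq ?_ ?_ hF hF0
    (eval_zero_of_grad hd1 hF.1.1 hs) hs
  · intro H _ _ _ h
    exact vanishTo_one_iff'.mp (h ())
  · intro T hT _
    obtain ⟨H, h1, h2, h3⟩ := exists_form_ne (κ := Λ ⊕ {i // i ∈ T})
      (Q := Sum.elim P (fun i => p i.1)) (a := Sum.elim μ (fun i => m i.1)) hq (by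
        rintro (l | i)
        · exact hqp (Sum.inr l)
        · exact hqp (Sum.inl i.1)) (d := d) (by
        have := S.deg_sum T hT
        omega)
    refine ⟨H, ⟨⟨h1, ?_⟩, fun l i hi => ?_⟩, fun i hi => h2 (Sum.inr ⟨i, hi⟩), h3⟩
    · rintro (a | l)
      · exact absurd a.2 (Finset.notMem_empty _)
      · exact h2 (Sum.inl l)
    · simp at hi

theorem Dat.flag_tang (S : Dat d M m μ w s Mv v) {p : ι → V3} {P : Λ → V3} {c : Λ → ℂ}
    (hX : Ind (Sum.elim p P) c) {F : R3} (hF : F ∈ FS d p m P μ c w) (hF0 : F ≠ 0) :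
    ¬ Tang d p m F := by
  classical
  rintro ⟨a, u, hu, hbad⟩
  have hg : GenericPoints (Sum.elim p P) := Ind.gen hX
  have hMd := S.hMd
  have hma := S.hm a
  have hp2 : p a 2 ≠ 0 := hg.ne_zero (Sum.inl a, 2)
  obtain ⟨y, hy, hy0, hy1⟩ : ∃ y : V2, y ≠ 0 ∧ eval y (ld d (m a) (p a) F) = 0 ∧
      ∀ k, eval y (pderiv k (ld d (m a) (p a) F)) = 0 := by
    rcases Nat.eq_zero_or_pos (m a) with h0 | hpos
    · have h1 := (badDir_zero_iff hF.1.1 hp2).mp ⟨u, hu, by rw [h0] at hbad; exact hbad⟩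
      refine ⟨![1, 0], ?_, ?_, ?_⟩
      · intro h
        exact one_ne_zero (congrFun h 0)
      · rw [h0, h1, map_zero]
      · intro k
        rw [h0, h1, map_zero, map_zero]
    · obtain ⟨y, hy, hy1⟩ := (badDir_iff_ld hF.1.1 hp2 hpos (by omega)
        (hF.1.2 (Sum.inl a))).mp ⟨u, hu, hbad⟩
      exact ⟨y, hy, eval_zero_of_grad hpos (ld_hom hF.1.1 (by omega) _) hy1, hy1⟩
  refine S.graph hX (Z := {a}) (Y := ∅) (by simp) (n := 2) (N := m a) (by omega)
    (Θ := ld d (m a) (p a))
    (W := FS d (fun b : {b // b ∈ ({a} : Finset ι)} => p b.1) (fun b => m b.1) P μ c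
      (fun l => if l ∈ (∅ : Finset Λ) then w l else 0)) rfl
    (fun H hH => ld_hom hH.1.1 (by omega) _)
    (fun Δ _ h _ H _ => (cD_ld Δ (h a (by simp)) d (m a) H).symm) (ρ := Empty) (by simp)
    (R := Empty.elim) (fun x => x.elim) hy ?_ ?_ hF hF0 hy0 hy1
  · intro H hH _ h _
    rw [(vanishTo_iff_ld hH.1.1 hp2 (by omega)).mp (h a (by simp)) (m a) (Nat.lt_succ_self _),
      map_zero]
  · intro T hT hTa
    obtain ⟨β, hβ, hβy⟩ := exists_binary hy (m a)
    obtain ⟨H, h1, h2, h3, h4⟩ := exists_form (κ := Λ ⊕ {i // i ∈ T})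
      (Q := Sum.elim P (fun i => p i.1)) (a := Sum.elim μ (fun i => m i.1)) hp2 (by
        rintro (l | i)
        · exact generic_cr_ne hg (x := Sum.inr l) (y := Sum.inl a) (by simp)
        · refine generic_cr_ne hg (x := Sum.inl i.1) (y := Sum.inl a) ?_
          intro h
          have := hTa i.1 i.2
          exact this (by rw [Sum.inl_injective h]; simp)) (d := d) (by
        have := S.deg_sum T hT
        omega) hβ
    refine ⟨H, ⟨⟨h1, ?_⟩, fun l i hi => ?_⟩, fun i hi => h2 (Sum.inr ⟨i, hi⟩), ?_⟩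
    · rintro (b | l)
      · have hb : b.1 = a := Finset.mem_singleton.mp b.2
        change VanishTo H (p b.1) (m b.1)
        rw [hb]
        exact h3
      · exact h2 (Sum.inl l)
    · simp at hi
    · rw [h4]
      exact hβy

/-- a multiple tangent at a point of collision is the flag direction -/
theorem Dat.flag_dir (S : Dat d M m μ w s Mv v) {p : ι → V3} {P : Λ → V3} {c : Λ → ℂ}
    (hX : Ind (Sum.elim p P) c) {F : R3} (hF : F ∈ FS d p m P μ c w) (hF0 : F ≠ 0) {l₀ : Λ}
    {y : V2} (hy : y ≠ 0) (h : ∀ k, eval y (pderiv k (ld d (μ l₀) (P l₀) F)) = 0) :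
    y 0 = c l₀ * y 1 := by
  classical
  by_contra hne
  have hg : GenericPoints (Sum.elim p P) := Ind.gen hX
  have hμd := S.hμd l₀
  have hwl := S.w_le l₀
  have hP2 : P l₀ 2 ≠ 0 := hg.ne_zero (Sum.inr l₀, 2)
  refine S.graph hX (Z := ∅) (Y := {l₀}) (by simp) (n := 2) (N := μ l₀) (by omega)
    (Θ := ld d (μ l₀) (P l₀))
    (W := FS d (fun b : {b // b ∈ (∅ : Finset ι)} => p b.1) (fun b => m b.1) P μ c
      (fun l => if l ∈ ({l₀} : Finset Λ) then w l else 0)) rfl
    (fun H hH => ld_hom hH.1.1 (by omega) _)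
    (fun Δ h _ _ H _ => (cD_ld Δ (h l₀) d (μ l₀) H).symm) (ρ := Empty) (by simp)
    (R := Empty.elim) (fun x => x.elim) hy ?_ ?_ hF hF0
    (eval_zero_of_grad (by omega) (ld_hom hF.1.1 (by omega) _) h) h
  · intro H hH h _ _
    rw [(vanishTo_iff_ld hH.1.1 hP2 (by omega)).mp (h l₀ (by simp)) (μ l₀) (by omega), map_zero]
  · intro T hT _
    obtain ⟨γ, hγ, hγy⟩ := exists_binary hy (μ l₀ - w l₀)
    have hlin : (X 0 - C (c l₀) * X 1 : R2).IsHomogeneous 1 :=
      (isHomogeneous_X ℂ 0).sub ((isHomogeneous_X ℂ 1).C_mul _)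
    have hβ : ((X 0 - C (c l₀) * X 1) ^ w l₀ * γ : R2).IsHomogeneous (μ l₀) := by
      have h1 := (hlin.pow (w l₀)).mul hγ
      rwa [one_mul, (by omega : w l₀ + (μ l₀ - w l₀) = μ l₀)] at h1
    obtain ⟨H, h1, h2, h3, h4⟩ := exists_form (κ := {l // l ≠ l₀} ⊕ {i // i ∈ T})
      (Q := Sum.elim (fun l => P l.1) (fun i => p i.1))
      (a := Sum.elim (fun l => μ l.1) (fun i => m i.1)) hP2 (by
        rintro (l | i)
        · exact generic_cr_ne hg (x := Sum.inr l.1) (y := Sum.inr l₀)
            (fun h => l.2 (Sum.inr_injective h))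
        · exact generic_cr_ne hg (x := Sum.inl i.1) (y := Sum.inr l₀) (by simp)) (d := d) (by
        have h5 := S.deg_sum T hT
        rw [Fintype.sum_sum_type] at h5 ⊢
        have h6 : ∑ x : {l' : Λ // l' ≠ l₀}, μ x.1 + μ l₀ = ∑ l, μ l := by
          rw [← Finset.add_sum_erase Finset.univ μ (Finset.mem_univ l₀), add_comm]
          congr 1
          rw [← Finset.sum_subtype (Finset.univ.erase l₀) (p := fun l' => l' ≠ l₀)
            (fun x => by simp) μ]
        change ∑ l, μ l + ∑ x : {i // i ∈ T}, m x.1 + _ + _ ≤ d at h5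
        change ∑ x : {l' : Λ // l' ≠ l₀}, μ x.1 + ∑ x : {i // i ∈ T}, m x.1 + _ ≤ d
        omega) hβ
    refine ⟨H, ⟨⟨h1, ?_⟩, fun l i hi => ?_⟩, fun i hi => h2 (Sum.inr ⟨i, hi⟩), ?_⟩
    · rintro (b | l)
      · exact absurd b.2 (Finset.notMem_empty _)
      · by_cases hl : l = l₀
        · change VanishTo H (P l) (μ l)
          rw [hl]
          exact h3
        · exact h2 (Sum.inl ⟨l, hl⟩)
    · by_cases hl : l = l₀
      · subst hl
        have hi' : i < w l := by
          simp at hi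
          exact hi
        rw [fd_eq, h4]
        obtain ⟨γ', hγ'⟩ := iterate_factor (c l) (w l) i hi'.le γ
        rw [hγ', map_mul, map_pow]
        have h5 : eval ![c l, 1] (X 0 - C (c l) * X 1 : R2) = 0 := by simp
        rw [h5, zero_pow (by omega), zero_mul]
      · have hi' : i < 0 := by simpa [hl] using hi
        exact absurd hi' (Nat.not_lt_zero i)
    · rw [h4, map_mul, map_pow]
      refine mul_ne_zero (pow_ne_zero _ ?_) hγy
      intro h5
      apply hne
      have h6 : eval y (X 0 - C (c l₀) * X 1 : R2) = y 0 - c l₀ * y 1 := by simp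
      rw [h6] at h5
      exact sub_eq_zero.mp h5

/-- the strict transform is smooth at the flag direction -/
theorem Dat.flag_next (S : Dat d M m μ w s Mv v) {p : ι → V3} {P : Λ → V3} {c : Λ → ℂ}
    (hX : Ind (Sum.elim p P) c) {F : R3} (hF : F ∈ FS d p m P μ c w) (hF0 : F ≠ 0) (l₀ : Λ) :
    eval ![c l₀, 1] (ld d (μ l₀ + 1) (P l₀) F) ≠ 0 := by
  classical
  intro hzero
  have hg : GenericPoints (Sum.elim p P) := Ind.gen hX
  have hμd := S.hμd l₀
  have hP2 : P l₀ 2 ≠ 0 := hg.ne_zero (Sum.inr l₀, 2)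
  have hΘa : ∀ H : R3, ((Algebra.linearMap ℂ (MvPolynomial (Fin 1) ℂ)).comp
      (fd d (μ l₀ + 1) (P l₀) (c l₀) 0)) H = C (fd d (μ l₀ + 1) (P l₀) (c l₀) 0 H) :=
    fun H => rfl
  have hF1 : fd d (μ l₀ + 1) (P l₀) (c l₀) 0 F = 0 := hzero
  refine S.graph hX (Z := ∅) (Y := {l₀}) (by simp) (n := 1) (N := 0) (by omega)
    (Θ := (Algebra.linearMap ℂ (MvPolynomial (Fin 1) ℂ)).comp
      (fd d (μ l₀ + 1) (P l₀) (c l₀) 0))
    (W := FS d (fun b : {b // b ∈ (∅ : Finset ι)} => p b.1) (fun b => m b.1) P μ c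
      (fun l => if l ∈ ({l₀} : Finset Λ) then w l else 0)) rfl
    (fun H hH => by rw [hΘa]; exact isHomogeneous_C _ _) ?_ (ρ := Empty) (by simp)
    (R := Empty.elim) (fun x => x.elim) (q := fun _ => 1)
    (fun h => one_ne_zero (congrFun h 0)) ?_ ?_ hF hF0 ?_ ?_
  · intro Δ h _ hc H _
    rw [hΘa, hΘa, cD_C, D_fd Δ (h l₀), hc l₀ (by simp), zero_mul, add_zero]
  · intro H hH h _ _
    rw [hΘa, eval_C]
    exact fd_zero_of_vanishTo hH.1.1 hP2 (by omega) (h l₀ (by simp)) _ _
  · intro T hT _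
    obtain ⟨β, hβ, hβy⟩ := exists_binary (y := ![c l₀, 1]) (fun h => one_ne_zero (congrFun h 1))
      (μ l₀ + 1)
    obtain ⟨H, h1, h2, h3, h4⟩ := exists_form (κ := {l // l ≠ l₀} ⊕ {i // i ∈ T})
      (Q := Sum.elim (fun l => P l.1) (fun i => p i.1))
      (a := Sum.elim (fun l => μ l.1) (fun i => m i.1)) hP2 (by
        rintro (l | i)
        · exact generic_cr_ne hg (x := Sum.inr l.1) (y := Sum.inr l₀)
            (fun h => l.2 (Sum.inr_injective h))
        · exact generic_cr_ne hg (x := Sum.inl i.1) (y := Sum.inr l₀) (by simp)) (d := d) (by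
        have h5 := S.deg_sum T hT
        rw [Fintype.sum_sum_type] at h5 ⊢
        have h6 : ∑ x : {l' : Λ // l' ≠ l₀}, μ x.1 + μ l₀ = ∑ l, μ l := by
          rw [← Finset.add_sum_erase Finset.univ μ (Finset.mem_univ l₀), add_comm]
          congr 1
          rw [← Finset.sum_subtype (Finset.univ.erase l₀) (p := fun l' => l' ≠ l₀)
            (fun x => by simp) μ]
        have h7 : 1 ≤ Fintype.card Λ := Fintype.card_pos_iff.mpr ⟨l₀⟩
        change ∑ l, μ l + ∑ x : {i // i ∈ T}, m x.1 + _ + _ ≤ d at h5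
        change ∑ x : {l' : Λ // l' ≠ l₀}, μ x.1 + ∑ x : {i // i ∈ T}, m x.1 + _ ≤ d
        omega) hβ
    refine ⟨H, ⟨⟨h1, ?_⟩, fun l i hi => ?_⟩, fun i hi => h2 (Sum.inr ⟨i, hi⟩), ?_⟩
    · rintro (b | l)
      · exact absurd b.2 (Finset.notMem_empty _)
      · by_cases hl : l = l₀
        · change VanishTo H (P l) (μ l)
          rw [hl]
          exact h3.mono (Nat.le_succ _)
        · exact h2 (Sum.inl ⟨l, hl⟩)
    · by_cases hl : l = l₀
      · subst hl
        exact fd_zero_of_vanishTo h1 hP2 (by omega) h3 _ _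
      · have hi' : i < 0 := by simpa [hl] using hi
        exact absurd hi' (Nat.not_lt_zero i)
    · rw [hΘa, eval_C, fd_eq, h4]
      exact hβy
  · rw [hΘa, eval_C]
    exact hF1
  · intro k
    rw [hΘa, pderiv_C, map_zero]

end Pool.Agent.Work.MP_0421d9_ag.ZC
end

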