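import Pool.Agent.Work.Z0421M.C10
import Pool.Agent.Work.Z0421M.C11
import Pool.Agent.Work.Z0421M.C13
import Pool.Agent.Work.Z0421M.C46

section
/-!
A singular point which specialises to a point of collision: the leading part of the limit has a
multiple root, where the next part vanishes, too.
-/

set_option linter.unusedSectionVars false

namespace Pool.Agent.Work.MP_0421d9_ag.ZC

open MvPolynomial Module SM

/-- the coefficient of `z ^ j` of a monomial -/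
theorem cz_monomial (α : Fin 3 →₀ ℕ) (c : ℂ) (j : ℕ) : cz j (monomial α c) =
    if α 2 = j then monomial (e2 (α 0) (α 1)) c else 0 := by
  classical
  apply R2_ext
  intro a b
  rw [coeff_cz, coeff_monomial]
  have h2 : α = e3 a b j ↔ α 0 = a ∧ α 1 = b ∧ α 2 = j := e3_eq
  have h3 : e2 (α 0) (α 1) = e2 a b ↔ α 0 = a ∧ α 1 = b := by
    constructor
    · intro h
      exact ⟨DFunLike.congr_fun h 0, DFunLike.congr_fun h 1⟩
    · rintro ⟨rfl, rfl⟩
      rfl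
  by_cases h5 : α 2 = j
  · rw [if_pos h5, coeff_monomial]
    by_cases h6 : α 0 = a ∧ α 1 = b
    · rw [if_pos (h2.mpr ⟨h6.1, h6.2, h5⟩), if_pos (h3.mpr h6)]
    · rw [if_neg (fun h => h6 ⟨(h2.mp h).1, (h2.mp h).2.1⟩), if_neg (fun h => h6 (h3.mp h))]
  · rw [if_neg h5, coeff_zero, if_neg (fun h => h5 (h2.mp h).2.2)]

/-- the value of a form, from its coefficients with respect to `z` -/
theorem eval_eq_sum_cz {e : ℕ} {H : R3} (hH : H.IsHomogeneous e) (a b t : ℂ) :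
    eval ![a, b, t] H = ∑ j ∈ Finset.range (e + 1), t ^ j * eval ![a, b] (cz j H) := by
  have h2 : ∀ j, eval ![a, b] (cz j H) =
      ∑ α ∈ H.support, if α 2 = j then coeff α H * (a ^ α 0 * b ^ α 1) else 0 := by
    intro j
    conv_lhs => rw [H.as_sum]
    rw [map_sum, map_sum]
    refine Finset.sum_congr rfl (fun α _ => ?_)
    rw [cz_monomial]
    split_ifs
    · rw [eval_monomial, Finsupp.prod_fintype _ _ (fun i => pow_zero _), Fin.prod_univ_two]
      rfl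
    · rw [map_zero]
  have h5 : ∑ j ∈ Finset.range (e + 1), t ^ j * eval ![a, b] (cz j H) =
      ∑ j ∈ Finset.range (e + 1), ∑ α ∈ H.support,
        t ^ j * (if α 2 = j then coeff α H * (a ^ α 0 * b ^ α 1) else 0) :=
    Finset.sum_congr rfl (fun j _ => by rw [h2 j, Finset.mul_sum])
  rw [h5, Finset.sum_comm, eval_eq]
  refine Finset.sum_congr rfl (fun α hα => ?_)
  have h3 : α 2 < e + 1 := by
    have h4 := hH (mem_support_iff.mp hα)
    rw [Finsupp.weight_apply, Finsupp.sum_fintype _ _ (fun i => by simp), Fin.sum_univ_three] at h4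
    simp only [Pi.one_apply, smul_eq_mul, mul_one] at h4
    omega
  rw [Finset.sum_eq_single (α 2)]
  · rw [if_pos rfl]
    have h6 : ∏ i ∈ α.support, (![a, b, t] : V3) i ^ α i = ∏ i, (![a, b, t] : V3) i ^ α i :=
      Finset.prod_subset (Finset.subset_univ _) (fun i _ hi => by
        rw [Finsupp.notMem_support_iff.mp hi, pow_zero])
    rw [h6, Fin.prod_univ_three]
    simp
    ring
  · intro j _ hj
    rw [if_neg (Ne.symm hj), mul_zero]
  · intro h4
    exact absurd (Finset.mem_range.mpr h3) h4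

/-- the leading term of a vanishing sum -/
theorem lead_zero (ρ : Pl) {r : ℂ} (hr0 : r ≠ 0) (hr : ρ.L r 0) {d J : ℕ} (hJ : J ≤ d)
    {e e' : ℕ → ℂ} (hL : ∀ j ≤ d, ρ.L (e j) (e' j)) (h0 : ∀ j ≤ d, J < j → e j = 0)
    (hs : ∑ j ∈ Finset.range (d + 1), r ^ (d - j) * e j = 0) : e' J = 0 := by
  have h1 : ∑ j ∈ Finset.range (d + 1), r ^ (J - j) * e j = 0 := by
    have h2 : r ^ (d - J) * ∑ j ∈ Finset.range (d + 1), r ^ (J - j) * e j = 0 := by
      rw [Finset.mul_sum, ← hs]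
      refine Finset.sum_congr rfl (fun j hj => ?_)
      rw [Finset.mem_range, Nat.lt_succ_iff] at hj
      rcases Nat.lt_or_ge J j with h | h
      · rw [h0 j hj h, mul_zero, mul_zero, mul_zero]
      · rw [← mul_assoc, ← pow_add]
        congr 2
        omega
    exact (mul_eq_zero.mp h2).resolve_left (pow_ne_zero _ hr0)
  have h2 : ρ.L (∑ j ∈ Finset.range (d + 1), r ^ (J - j) * e j)
      (∑ j ∈ Finset.range (d + 1), if j = J then e' J else 0) := by
    refine Pl.sum ρ _ (fun j hj => ?_)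
    rw [Finset.mem_range, Nat.lt_succ_iff] at hj
    rcases lt_trichotomy j J with h | h | h
    · rw [if_neg h.ne]
      exact L_zero_mul ρ hr (by omega) (hL j hj)
    · rw [if_pos h, h, Nat.sub_self, pow_zero, one_mul]
      exact hL J hJ
    · rw [if_neg h.ne', h0 j hj h, mul_zero]
      exact Pl.zero ρ
  rw [h1, Finset.sum_ite_eq' (Finset.range (d + 1)) J,
    if_pos (Finset.mem_range.mpr (Nat.lt_succ_of_le hJ))] at h2
  exact ρ.fn h2 (Pl.zero ρ)

theorem next_L_tv (ρ : Pl) {P P' u u' : V3} (hP' : P' 2 ≠ 0) (h : ∀ k, ρ.L (P k) (P' k))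
    (hu : ∀ k, ρ.L (u k) (u' k)) : ∀ k, ρ.L (tv (ip P) u k) (tv (ip P') u' k) := by
  have h1 : ∀ k, ρ.L (ip P k) (ip P' k) := by
    intro k
    fin_cases k
    · exact ρ.neg (Pl.div ρ (h 0) (h 2) hP')
    · exact ρ.neg (Pl.div ρ (h 1) (h 2) hP')
    · exact Pl.inv ρ (h 2) hP'
  intro k
  fin_cases k
  · exact ρ.add (hu 0) (ρ.mul (h1 0) (hu 2))
  · exact ρ.add (hu 1) (ρ.mul (h1 1) (hu 2))
  · exact ρ.mul (h1 2) (hu 2)

/-- **A singular point which specialises to a point of collision.** -/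
theorem next_order (ρ : Pl) {d μ : ℕ} {P P' : V3} (hP2 : P 2 ≠ 0) (hP2' : P' 2 ≠ 0)
    (hP : ∀ k, ρ.L (P k) (P' k)) {F F' : R3} (hF : F.IsHomogeneous d) (hμ : μ + 1 ≤ d)
    (hlim : ρ.LP F F') (hv : VanishTo F P μ) {q b : V3} (hq : ∀ k, ρ.L (q k) (b k)) (hb : b ≠ 0)
    (hb' : cr P' b = 0) (hqP : cr P q ≠ 0) (hsing : ∀ k, eval q (pderiv k F) = 0) :
    ∃ y : V2, y ≠ 0 ∧ (∀ k, eval y (pderiv k (ld d μ P' F')) = 0) ∧
      eval y (ld d (μ + 1) P' F') = 0 := by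
  obtain ⟨H, hH⟩ : ∃ H, H = tr P F := ⟨_, rfl⟩
  obtain ⟨H', hH'⟩ : ∃ H', H' = tr P' F' := ⟨_, rfl⟩
  have hHh : H.IsHomogeneous d := by
    rw [hH]
    exact tr_hom hF P
  have hHL : ρ.LP H H' := by
    rw [hH, hH']
    exact LP_tr ρ hP hlim
  have hcz : ∀ j, cz j H = if j ≤ d then ld d (d - j) P F else cz j H := by
    intro j
    split_ifs with h
    · rw [ld_apply, hH]
      congr 2
      omega
    · rfl
  have hczh : ∀ j ≤ d, (cz j H).IsHomogeneous (d - j) := by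
    intro j hj
    rw [hcz j, if_pos hj]
    exact ld_hom hF (Nat.sub_le _ _) P
  have hcz0 : ∀ j ≤ d, d - μ < j → cz j H = 0 := by
    intro j hj hj2
    rw [hcz j, if_pos hj]
    exact ld_of_vanish hF hv (by omega) (Nat.sub_le _ _)
  -- the coordinates
  obtain ⟨q₁, hq₁⟩ : ∃ q₁, q₁ = tv (ip P) q := ⟨_, rfl⟩
  have hqq : tv P q₁ = q := by
    rw [hq₁]
    exact tv_ip hP2 q
  have hP'0 : P' ≠ 0 := fun h => hP2' (congrFun h 2)
  obtain ⟨c, hc⟩ := exists_smul_of_cr_eq_zero hP'0 hb'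
  have hc0 : c ≠ 0 := by
    rintro rfl
    rw [zero_smul] at hc
    exact hb hc
  have hb1 : tv (ip P') b = c • ![0, 0, 1] := by
    rw [hc, tv_smul]
    congr 1
    have h1 := ip_tv hP2' ![0, 0, 1]
    rwa [tv_single_two] at h1
  have hLq := next_L_tv ρ hP2' hP hq
  rw [← hq₁, hb1] at hLq
  have hL2 : ρ.L (q₁ 2) c := by
    have := hLq 2
    simpa using this
  have hL0 : ρ.L (q₁ 0) 0 := by
    have := hLq 0
    simpa using this
  have hL1 : ρ.L (q₁ 1) 0 := by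
    have := hLq 1
    simpa using this
  have hq2 : q₁ 2 ≠ 0 := by
    intro h
    rw [h] at hL2
    exact hc0 (ρ.fn hL2 (Pl.zero ρ))
  obtain ⟨V, hV⟩ : ∃ V : V2, V = ![q₁ 0 / q₁ 2, q₁ 1 / q₁ 2] := ⟨_, rfl⟩
  have hVL : ∀ k, ρ.L (V k) 0 := by
    intro k
    rw [hV]
    fin_cases k
    · have := Pl.div ρ hL0 hL2 hc0
      rwa [zero_div] at this
    · have := Pl.div ρ hL1 hL2 hc0
      rwa [zero_div] at this
  have hV0 : V ≠ 0 := by
    intro h
    apply hqP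
    have h0 : q₁ 0 = 0 := by
      have := congrFun h 0
      rw [hV] at this
      exact (div_eq_zero_iff.mp this).resolve_right hq2
    have h1 : q₁ 1 = 0 := by
      have := congrFun h 1
      rw [hV] at this
      exact (div_eq_zero_iff.mp this).resolve_right hq2
    have h2 : q₁ = q₁ 2 • ![0, 0, 1] := by
      funext k
      fin_cases k
      · simpa using h0
      · simpa using h1
      · simp
    rw [← hqq, h2, tv_smul, tv_single_two]
    ext l
    fin_cases l <;> simp [cr] <;> ring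
  obtain ⟨c₁, hc₁, y, hy, hLy⟩ := ρ.exists_scale_vec V hV0
  obtain ⟨r, hr⟩ : ∃ r, r = c₁⁻¹ := ⟨_, rfl⟩
  have hr0 : r ≠ 0 := by
    rw [hr]
    exact inv_ne_zero hc₁
  have hrL : ρ.L r 0 := by
    obtain ⟨k, hk⟩ : ∃ k, y k ≠ 0 := by
      by_contra hcon
      push Not at hcon
      exact hy (funext hcon)
    have h1 := Pl.div ρ (hVL k) (hLy k) hk
    rw [zero_div] at h1
    have h2 : V k ≠ 0 := by
      intro h
      have h3 := hLy k
      rw [h, mul_zero] at h3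
      exact hk (ρ.fn h3 (Pl.zero ρ))
    have h3 : V k / (c₁ * V k) = r := by
      rw [hr]
      field_simp
    rwa [h3] at h1
  obtain ⟨W, hW⟩ : ∃ W : V2, W = c₁ • V := ⟨_, rfl⟩
  have hWL : ∀ k, ρ.L (W k) (y k) := by
    intro k
    rw [hW]
    exact hLy k
  have hVW : V = r • W := by
    rw [hW, hr, smul_smul, inv_mul_cancel₀ hc₁, one_smul]
  -- the singular point
  have hq₁' : (![V 0, V 1, 1] : V3) = (q₁ 2)⁻¹ • q₁ := by
    funext k
    rw [hV]
    fin_cases k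
    · simp
      ring
    · simp
      ring
    · simp [inv_mul_cancel₀ hq2]
  have hs : ∀ k, eval (![V 0, V 1, 1] : V3) (pderiv k H) = 0 := by
    intro k
    rw [hq₁', eval_smul_of_homogeneous (hHh.pderiv (i := k))]
    have h1 : ∀ k, eval q₁ (pderiv k H) = 0 := by
      rw [hH]
      refine (sing_tr hP2).mpr ?_
      rw [hqq]
      exact hsing
    rw [h1 k, mul_zero]
  have hsv : ∀ {n : ℕ} {G : R2}, G.IsHomogeneous n → eval ![V 0, V 1] G = r ^ n * eval W G := by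
    intro n G hG
    have h1 : (![V 0, V 1] : V2) = r • W := by
      rw [← hVW]
      funext k
      fin_cases k <;> rfl
    rw [h1, eval_smul_of_homogeneous hG]
  have hval : eval (![V 0, V 1, 1] : V3) H = 0 := by
    have h := congrArg (eval (![V 0, V 1, 1] : V3)) hHh.sum_X_mul_pderiv
    rw [map_sum, Fin.sum_univ_three] at h
    simp only [map_mul, hs, mul_zero, add_zero, nsmul_eq_mul, map_natCast] at h
    have h2 : (d : ℂ) ≠ 0 := by
      rw [Nat.cast_ne_zero]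
      omega
    exact (mul_eq_zero.mp h.symm).resolve_left h2
  have hsumV : ∑ j ∈ Finset.range (d + 1), r ^ (d - j) * eval W (cz j H) = 0 := by
    rw [eval_eq_sum_cz hHh] at hval
    rw [← hval]
    refine Finset.sum_congr rfl (fun j hj => ?_)
    rw [Finset.mem_range, Nat.lt_succ_iff] at hj
    rw [one_pow, one_mul, hsv (hczh j hj)]
  have hpd0 : ∀ i : Fin 2, pderiv i (cz d H) = 0 := by
    intro i
    have h1 := hczh d le_rfl
    rw [Nat.sub_self] at h1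
    obtain ⟨a, ha⟩ : ∃ a, cz d H = C a := by
      refine ⟨coeff 0 (cz d H), ?_⟩
      exact (totalDegree_eq_zero_iff_eq_C.mp (Nat.le_zero.mp (h1.totalDegree_le)))
    rw [ha, pderiv_C]
  have hsumD : ∀ i : Fin 2, ∑ j ∈ Finset.range (d + 1),
      r ^ (d - j) * eval W (pderiv i (cz j H)) = 0 := by
    intro i
    have hi : ∀ j, pderiv i (cz j H) = cz j (pderiv i.castSucc H) := by
      intro j
      fin_cases i
      · exact pderiv_cz_zero j H
      · exact pderiv_cz_one j H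
    rw [Finset.sum_range_succ, hpd0, map_zero, mul_zero, add_zero]
    have h1 := hs i.castSucc
    rw [eval_eq_sum_cz (hHh.pderiv (i := i.castSucc)), show d - 1 + 1 = d by omega] at h1
    have h2 : r * ∑ j ∈ Finset.range d, (1 : ℂ) ^ j * eval ![V 0, V 1]
        (cz j (pderiv i.castSucc H)) = 0 := by
      rw [h1, mul_zero]
    rw [← h2, Finset.mul_sum]
    refine Finset.sum_congr rfl (fun j hj => ?_)
    rw [Finset.mem_range] at hj
    rw [← hi, one_pow, one_mul, hsv ((hczh j hj.le).pderiv (i := i)), ← mul_assoc, ← pow_succ']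
    congr 2
    omega
  have hczL : ∀ j, ρ.LP (cz j H) (cz j H') := fun j => LP_cz ρ hHL j
  refine ⟨y, hy, fun i => ?_, ?_⟩
  · have h1 := lead_zero ρ hr0 hrL (J := d - μ) (Nat.sub_le _ _)
      (e := fun j => eval W (pderiv i (cz j H))) (e' := fun j => eval y (pderiv i (cz j H')))
      (fun j _ => (Pl.LP.pderiv i (hczL j)).eval hWL)
      (fun j hj hj2 => by rw [hcz0 j hj hj2, map_zero, map_zero]) (hsumD i)
    rw [ld_apply, ← hH']
    exact h1
  · have h1 := lead_zero ρ hr0 hrL (J := d - (μ + 1)) (Nat.sub_le _ _)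
      (e := fun j => (((d - j : ℕ) : ℂ) - μ) * eval W (cz j H))
      (e' := fun j => (((d - j : ℕ) : ℂ) - μ) * eval y (cz j H'))
      (fun j _ => ρ.mul (Pl.sub ρ (Pl.natCast ρ _) (Pl.natCast ρ _)) ((hczL j).eval hWL))
      (fun j hj hj2 => by
        rcases Nat.lt_or_ge (d - μ) j with h | h
        · rw [hcz0 j hj h, map_zero, mul_zero]
        · rw [show d - j = μ by omega, sub_self, zero_mul]) (by
        have h2 : ∀ j ∈ Finset.range (d + 1), r ^ (d - j) * ((((d - j : ℕ) : ℂ) - μ) *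
            eval W (cz j H)) = W 0 * (r ^ (d - j) * eval W (pderiv 0 (cz j H))) +
            W 1 * (r ^ (d - j) * eval W (pderiv 1 (cz j H))) -
            μ * (r ^ (d - j) * eval W (cz j H)) := by
          intro j hj
          rw [Finset.mem_range, Nat.lt_succ_iff] at hj
          have h3 := euler_two (hczh j hj) W
          linear_combination (-(r ^ (d - j))) * h3
        rw [Finset.sum_congr rfl h2, Finset.sum_sub_distrib, Finset.sum_add_distrib,
          ← Finset.mul_sum, ← Finset.mul_sum, ← Finset.mul_sum, hsumD 0, hsumD 1, hsumV]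
        ring)
    have h2 : ((d - (d - (μ + 1)) : ℕ) : ℂ) - μ = 1 := by
      rw [show d - (d - (μ + 1)) = μ + 1 by omega]
      push_cast
      ring
    simp only [h2, one_mul] at h1
    rw [ld_apply, ← hH']
    exact h1

end Pool.Agent.Work.MP_0421d9_ag.ZC
end

section
/-!
Collisions of generic points: exact contact orders at the level of one cluster.
-/

set_option linter.unusedSectionVars false
set_option linter.unusedVariables false

namespace Pool.Agent.Work.MP_0421d9_ag.ZC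

open MvPolynomial Module SM

section levels

variable {ι Λ : Type} [Fintype ι] [Fintype Λ] [DecidableEq ι] [DecidableEq Λ] {d M : ℕ}
  {m : ι → ℕ} {μ w s Mv : Λ → ℕ} {v : ∀ l, Fin (s l) → ℕ}

/-- one cluster, the others are flags: exact contact orders -/
theorem Dat.hyb_exact (S : Dat d M m μ w s Mv v) {p : ι → V3} {P : Λ → V3} {c : Λ → ℂ} {l₀ : Λ}
    {ζ : Fin (s l₀) → V3} (hX : Ind (Sum.elim (Sum.elim p P) ζ) c) {F : R3}
    (hF : F ∈ FS d p m P μ c (Function.update w l₀ 0)) (hF0 : F ≠ 0)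
    (hG : ∃ G ∈ linSys (μ l₀) ζ (v l₀), res G = ld d (μ l₀) (P l₀) F) :
    (∀ l ≠ l₀, fd d (μ l) (P l) (c l) (w l) F ≠ 0) ∧ ld d (μ l₀) (P l₀) F ≠ 0 := by
  obtain ⟨G, hG, hGF⟩ := hG
  -- the place
  have hX' : Ind (Sum.elim (Sum.elim p P) (fun x : (Σ _ : Unit, Fin (s l₀)) => ζ x.2)) c := by
    have hinj : Function.Injective (Sum.map (fun z : ((ι ⊕ Λ) ⊕ (Σ _ : Unit, Fin (s l₀))) × Fin 3 =>
        ((Sum.map id (fun x : (Σ _ : Unit, Fin (s l₀)) => x.2) z.1 : (ι ⊕ Λ) ⊕ Fin (s l₀)), z.2))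
        (id : Λ → Λ)) := by
      apply Function.Injective.sumMap _ Function.injective_id
      rintro ⟨x, k⟩ ⟨y, k'⟩ h
      rw [Prod.mk.injEq] at h
      obtain ⟨h1, h2⟩ := h
      have h3 : Function.Injective (Sum.map (id : ι ⊕ Λ → ι ⊕ Λ)
          (fun x : (Σ _ : Unit, Fin (s l₀)) => x.2)) := by
        apply Function.Injective.sumMap Function.injective_id
        rintro ⟨_, a⟩ ⟨_, b⟩ hab
        have : a = b := hab
        rw [this]
      exact Prod.ext (h3 h1) h2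
    have h1 := AlgebraicIndependent.comp hX _ hinj
    have h2 : Sum.elim (fun z : ((ι ⊕ Λ) ⊕ Fin (s l₀)) × Fin 3 =>
        Sum.elim (Sum.elim p P) ζ z.1 z.2) c ∘ Sum.map
        (fun z : ((ι ⊕ Λ) ⊕ (Σ _ : Unit, Fin (s l₀))) × Fin 3 =>
        ((Sum.map id (fun x : (Σ _ : Unit, Fin (s l₀)) => x.2) z.1 : (ι ⊕ Λ) ⊕ Fin (s l₀)), z.2))
        (id : Λ → Λ) = Sum.elim (fun z : ((ι ⊕ Λ) ⊕ (Σ _ : Unit, Fin (s l₀))) × Fin 3 =>
        Sum.elim (Sum.elim p P) (fun x : (Σ _ : Unit, Fin (s l₀)) => ζ x.2) z.1 z.2) c := by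
      funext z
      rcases z with ⟨(x | x), k⟩ | z
      · rfl
      · rfl
      · rfl
    rw [h2] at h1
    exact h1
  obtain ⟨ρ, t, c₁, ξ, ht0, ht, hp, hc, hc₁, hξ, hξζ⟩ := exists_flag_place (Λ := Unit)
    (s := fun _ => s l₀) hX' (Sum.elim p P) c (fun _ => c l₀)
    (fun x => ![ζ x.2 1, ζ x.2 0 - c l₀ * ζ x.2 1, ζ x.2 2])
  have hXF : Ind (Sum.elim p P) c := by
    have hinj : Function.Injective (Sum.map (fun z : (ι ⊕ Λ) × Fin 3 =>
        ((Sum.inl z.1 : (ι ⊕ Λ) ⊕ Fin (s l₀)), z.2)) (id : Λ → Λ)) := by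
      apply Function.Injective.sumMap _ Function.injective_id
      rintro ⟨x, k⟩ ⟨y, k'⟩ h
      rw [Prod.mk.injEq] at h
      exact Prod.ext (Sum.inl_injective h.1) h.2
    have h1 := AlgebraicIndependent.comp hX _ hinj
    have h2 : Sum.elim (fun z : ((ι ⊕ Λ) ⊕ Fin (s l₀)) × Fin 3 =>
        Sum.elim (Sum.elim p P) ζ z.1 z.2) c ∘ Sum.map (fun z : (ι ⊕ Λ) × Fin 3 =>
        ((Sum.inl z.1 : (ι ⊕ Λ) ⊕ Fin (s l₀)), z.2)) (id : Λ → Λ) =
        Sum.elim (fun z : (ι ⊕ Λ) × Fin 3 => Sum.elim p P z.1 z.2) c := by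
      funext z
      rcases z with z | z <;> rfl
    rw [h2] at h1
    exact h1
  have hXb : Ind ζ (fun _ : Unit => c l₀) := by
    have hinj : Function.Injective (Sum.map (fun z : Fin (s l₀) × Fin 3 =>
        ((Sum.inr z.1 : (ι ⊕ Λ) ⊕ Fin (s l₀)), z.2)) (fun _ : Unit => l₀)) := by
      apply Function.Injective.sumMap
      · rintro ⟨x, k⟩ ⟨y, k'⟩ h
        rw [Prod.mk.injEq] at h
        exact Prod.ext (Sum.inr_injective h.1) h.2
      · intro x y _
        rfl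
    have h1 := AlgebraicIndependent.comp hX _ hinj
    have h2 : Sum.elim (fun z : ((ι ⊕ Λ) ⊕ Fin (s l₀)) × Fin 3 =>
        Sum.elim (Sum.elim p P) ζ z.1 z.2) c ∘ Sum.map (fun z : Fin (s l₀) × Fin 3 =>
        ((Sum.inr z.1 : (ι ⊕ Λ) ⊕ Fin (s l₀)), z.2)) (fun _ : Unit => l₀) =
        Sum.elim (fun z : Fin (s l₀) × Fin 3 => ζ z.1 z.2) (fun _ : Unit => c l₀) := by
      funext z
      rcases z with z | z <;> rfl
    rw [h2] at h1
    exact h1
  obtain ⟨a, ha, F', hF'0, hF'⟩ := ρ.exists_scale_poly hF0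
  have hpk : ∀ x k, ρ.L (Sum.elim p P x k) (Sum.elim p P x k) := hp
  have hFS : F' ∈ FS d p m P μ c w := by
    refine ⟨hF'.linSys hpk (linSys_C_mul hF.1 a), fun l i hi => ?_⟩
    by_cases hl : l = l₀
    · subst hl
      have hlim := LP_ld ρ (P := P l) (P' := P l) (fun k => hp (Sum.inr l) k) hF' d (μ l)
      have hβ : ∃ G' ∈ linSys (μ l) ζ (v l), res G' = ld d (μ l) (P l) (C a * F) := by
        refine ⟨C a * G, linSys_C_mul hG a, ?_⟩
        rw [map_mul, res_C, hGF, ← smul_eq_C_mul, ← smul_eq_C_mul, map_smul]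
      exact spec_flag (S.hNv l) (S.hNv' l) (fun j => (Nat.le_succ _).trans (S.hv l j))
        ((by omega : Mv l ≤ 2 * Mv l).trans (S.hvμ l)) (S.hMv l) (S.crit l)
        (by have := S.hw l; have := S.hMv l; omega) hXb ht0 ht (hc₁ ())
        (ζ := ζ) (ξ := fun j => ξ ⟨(), j⟩) (fun x k => hξ ⟨(), x⟩ k) (fun x => hξζ ⟨(), x⟩)
        hβ hlim i hi
    · have h1 : fd d (μ l) (P l) (c l) i (C a * F) = 0 := by
        rw [← smul_eq_C_mul, map_smul, hF.2 l i (by rwa [Function.update_of_ne hl]), smul_zero]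
      have h2 := L_fd ρ (P := P l) (P' := P l) (fun k => hp (Sum.inr l) k) hF' (hc l) d (μ l) i
      rw [h1] at h2
      exact ρ.fn h2 ρ.zero
  refine ⟨fun l hl h0 => ?_, fun h0 => ?_⟩
  · apply S.flag_exact hXF hFS hF'0 l
    have h1 : fd d (μ l) (P l) (c l) (w l) (C a * F) = 0 := by
      rw [← smul_eq_C_mul, map_smul, h0, smul_zero]
    have h2 := L_fd ρ (P := P l) (P' := P l) (fun k => hp (Sum.inr l) k) hF' (hc l) d (μ l) (w l)
    rw [h1] at h2
    exact ρ.fn h2 ρ.zero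
  · apply S.flag_exact hXF hFS hF'0 l₀
    have hlim := LP_ld ρ (P := P l₀) (P' := P l₀) (fun k => hp (Sum.inr l₀) k) hF' d (μ l₀)
    rw [← smul_eq_C_mul, map_smul, h0, smul_zero] at hlim
    have h1 : ld d (μ l₀) (P l₀) F' = 0 := Pl.LP.fn hlim Pl.LP_zero
    change eval ![c l₀, 1] ((pderiv 0)^[w l₀] (ld d (μ l₀) (P l₀) F')) = 0
    rw [h1, iterate_map_zero, map_zero]

end levels

end Pool.Agent.Work.MP_0421d9_ag.ZC
end

section
/-!
Collisions of generic points: base point freeness.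
-/

set_option linter.unusedSectionVars false

namespace Pool.Agent.Work.MP_0421d9_ag.ZC

open MvPolynomial Module SM

/-- the pairs `(H, H)` of forms of degree `d` -/
noncomputable def diagB (d : ℕ) : Submodule ℂ (R3 × MvPolynomial (Fin 3) ℂ) where
  carrier := {H | H.1 = H.2 ∧ H.1.IsHomogeneous d}
  zero_mem' := ⟨rfl, isHomogeneous_zero _ _ _⟩
  add_mem' := fun {x y} hx hy => ⟨by rw [Prod.fst_add, Prod.snd_add, hx.1, hy.1],
    by rw [Prod.fst_add]; exact hx.2.add hy.2⟩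
  smul_mem' := fun a x hx => ⟨by rw [Prod.smul_fst, Prod.smul_snd, hx.1], by
    rw [Prod.smul_fst, smul_eq_C_mul]
    exact hx.2.C_mul a⟩

/-- the derivations which move one of the first two coordinates of one point -/
theorem exists_movers {ι : Type} [DecidableEq ι] {p : ι → V3} (hp : GenericPoints p) :
    ∃ E : ι → Fin 2 → Derivation ℚ ℂ ℂ, (∀ i k j, E i k (p j 2) = 0) ∧
      (∀ i (k l : Fin 2), E i k (p i l.castSucc) = if k = l then 1 else 0) ∧
      ∀ i k j (l : Fin 2), i ≠ j → E i k (p j l.castSucc) = 0 := by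
  have h : ∀ (i : ι) (k : Fin 2), ∃ D : Derivation ℚ ℂ ℂ, ∀ z : ι × Fin 3,
      D (p z.1 z.2) = if z = (i, k.castSucc) then 1 else 0 := by
    intro i k
    obtain ⟨D, hD⟩ := exists_derivation _ hp (fun z => if z = (i, k.castSucc) then 1 else 0)
    exact ⟨D, hD⟩
  choose E hE using h
  refine ⟨E, fun i k j => ?_, fun i k l => ?_, fun i k j l hij => ?_⟩
  · rw [hE i k (j, 2), if_neg]
    intro h1
    have h2 := congrArg Prod.snd h1
    revert h2
    fin_cases k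
    · exact (by decide : ¬ ((2 : Fin 3) = (0 : Fin 2).castSucc))
    · exact (by decide : ¬ ((2 : Fin 3) = (1 : Fin 2).castSucc))
  · rw [hE i k (i, l.castSucc)]
    by_cases h : k = l
    · rw [if_pos h, if_pos (by rw [h])]
    · rw [if_neg h, if_neg]
      intro h1
      exact h (Fin.castSucc_injective 2 (congrArg Prod.snd h1)).symm
  · rw [hE i k (j, l.castSucc), if_neg]
    intro h1
    exact hij (congrArg Prod.fst h1).symm

theorem zc_choose_succ (n : ℕ) : (n + 1 + 1).choose 2 = (n + 1).choose 2 + (n + 1) := by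
  rw [Nat.choose_succ_succ' (n + 1) 1, Nat.choose_one_right]
  exact Nat.add_comm _ _

/-- the number of conditions when the multiplicities at two points are changed -/
theorem bump_count {ι : Type} [Fintype ι] [DecidableEq ι] {M : ℕ} {m : ι → ℕ}
    (hm : ∀ i, m i + 1 ≤ M) (i i' : ι) {j : ℕ} (hj : j ≤ m i) :
    ∑ x, ((if x = i then j else m x + if x = i' then 1 else 0) + 1).choose 2 + (j + 1) ≤
      ∑ x, (m x + 1).choose 2 + 2 * M := by
  have h1 : ∀ x, ((if x = i then j else m x + if x = i' then 1 else 0) + 1).choose 2 +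
      (if x = i then j + 1 else 0) ≤
      (m x + 1).choose 2 + ((if x = i then m x + 1 else 0) + (if x = i' then m x + 1 else 0)) := by
    intro x
    by_cases hx : x = i
    · rw [if_pos hx, if_pos hx, if_pos hx]
      have h2 : (j + 1).choose 2 + (j + 1) = (j + 1 + 1).choose 2 := (zc_choose_succ j).symm
      have h3 : (j + 1 + 1).choose 2 ≤ (m x + 1 + 1).choose 2 := by
        apply Nat.choose_le_choose
        rw [hx]
        omega
      have h4 := zc_choose_succ (m x)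
      omega
    · rw [if_neg hx, if_neg hx, if_neg hx]
      by_cases hx' : x = i'
      · rw [if_pos hx', if_pos hx']
        have h4 := zc_choose_succ (m x)
        omega
      · rw [if_neg hx', if_neg hx']
  have h2 := Finset.sum_le_sum (fun x (_ : x ∈ Finset.univ) => h1 x)
  rw [Finset.sum_add_distrib, Finset.sum_add_distrib, Finset.sum_add_distrib,
    Finset.sum_ite_eq' Finset.univ i (fun _ => j + 1), if_pos (Finset.mem_univ i),
    Finset.sum_ite_eq' Finset.univ i (fun x => m x + 1), if_pos (Finset.mem_univ i),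
    Finset.sum_ite_eq' Finset.univ i' (fun x => m x + 1), if_pos (Finset.mem_univ i')] at h2
  have h3 := hm i
  have h4 := hm i'
  omega

/-- base point freeness -/
theorem bpf_point {ι : Type} [Fintype ι] [DecidableEq ι] {M d : ℕ} (hN : NSp M d) {p : ι → V3}
    (hp : GenericPoints p) {m : ι → ℕ} (hm : ∀ i, m i + 1 ≤ M) (hd : 2 * M ≤ d)
    (hχ : ∑ i, (m i + 1).choose 2 + 2 * M ≤ (d + 2).choose 2) {q : V3} (hq : q ≠ 0)
    (hqp : ∀ i, cr (p i) q ≠ 0) : ∃ G ∈ linSys d p m, eval q G ≠ 0 := by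
  classical
  by_contra hcon
  push Not at hcon
  obtain ⟨E, hE2, hEp, hEp'⟩ := exists_movers hp
  have S : Chn (Λ := Empty) 3 d d p m (fun l => l.elim) (diagB d) (fun l => l.elim) E
      (fun l => l.elim) :=
    { hd := fun i => by have := hm i; omega
      hp := fun i => coord_ne_zero hp i 2
      hom1 := fun H hH => hH.2
      hom2 := fun H hH => by
        rw [← hH.1]
        exact hH.2
      E2 := hE2
      Ep := hEp
      Ep' := hEp'
      Dp := fun l => l.elim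
      stE := fun i k H hH => ⟨by
        change cD (E i k) H.1 = cD (E i k) H.2
        rw [hH.1], cD_isHomogeneous (E i k) hH.2⟩
      stD := fun l => l.elim
      lawE := fun i k l => l.elim
      lawD := fun l => l.elim
      lawD' := fun l => l.elim }
  refine S.bpf le_rfl ?_ hq ?_ ?_
  · intro i i' I _ j hj1 hjm β hβ
    obtain ⟨H, hH, hld⟩ := exists_of_NSp hN hp
      (y := fun x => if x = i then j else m x + if x = i' then 1 else 0) i
      (fun x => by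
        have h1 := hm x
        have h2 := hm i
        by_cases hx : x = i
        · simp only [hx, if_true]
          omega
        · simp only [hx, if_false]
          split_ifs <;> omega)
      (by
        simp only [if_true]
        have := hm i
        omega)
      (by
        simp only [if_true]
        have := hm i
        omega)
      (by
        simp only [if_true]
        exact (bump_count hm i i' hjm).trans hχ) (β := β) (by
        simp only [if_true]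
        exact hβ)
    simp only [if_true] at hld
    refine ⟨(H, H), ⟨rfl, hH.1⟩, ?_, hld, fun x hx => ?_, fun l => l.elim⟩
    · have := hH.2 i
      simpa using this
    · have := hH.2 x
      simp only [hx, if_false] at this
      exact this
  · intro H hH
    rw [evL_apply, ← hH.1.1]
    exact hcon _ hH.2
  · intro T hT
    obtain ⟨H, hH, hv, hne⟩ := exists_form_ne (κ := T) (Q := fun x => p x) (a := fun x => m x) hq
      (fun x => hqp x) (d := d) (by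
        have h1 : ∑ x : T, m x ≤ ∑ _x : T, M :=
          Finset.sum_le_sum (fun x _ => by have := hm x; omega)
        rw [Finset.sum_const, Finset.card_univ, Fintype.card_coe, smul_eq_mul] at h1
        have h2 : T.card * M ≤ 1 * M := Nat.mul_le_mul_right _ hT
        omega)
    exact ⟨(H, H), ⟨rfl, hH⟩, fun i hi => hv ⟨i, hi⟩, hne⟩

end Pool.Agent.Work.MP_0421d9_ag.ZC
end

section
/-!
Collisions of generic points: the limit, and the collision theorem in terms of the limits.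
-/

set_option linter.unusedSectionVars false
set_option linter.unusedVariables false

namespace Pool.Agent.Work.MP_0421d9_ag.ZC

open MvPolynomial Module SM

/-- the limit of `scz τ H` compared with the limit of `H` -/
theorem limit_low (ρ : Pl) {τ : ℂ} (hτ0 : τ ≠ 0) (hτ : ρ.L τ 0) {u : ℕ} {H T : R3} {c : ℂ}
    (hH0 : H ≠ 0) (hT : ρ.LP (C c * scz τ H) T)
    (h1 : ∀ c Fb, ρ.LP (C c * H) Fb → Fb ≠ 0 → ∃ α, coeff α Fb ≠ 0 ∧ α 2 ≤ u) :
    (∀ α, coeff α T ≠ 0 → α 2 ≤ u) ∧ ((∀ α, α 2 = u → coeff α T = 0) ∨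
      ∃ G, ρ.LP (C (c * τ ^ u) * H) G ∧ (∀ α, coeff α G ≠ 0 → u ≤ α 2) ∧
        ∀ α, α 2 = u → coeff α G = coeff α T) := by
  obtain ⟨c', hc', Fb, hFb, hLF⟩ := Pl.exists_scale_poly ρ hH0
  obtain ⟨α, hα, hmin⟩ := Finset.exists_min_image Fb.support (fun α => α 2)
    (support_nonempty.mpr hFb)
  rw [MvPolynomial.mem_support_iff] at hα
  have hmin' : ∀ β, coeff β Fb ≠ 0 → α 2 ≤ β 2 := fun β hβ =>
    hmin β (MvPolynomial.mem_support_iff.mpr hβ)
  have hF : ∀ β, ρ.L (c' * coeff β H) (coeff β Fb) := fun β => by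
    have := hLF β
    rwa [coeff_C_mul] at this
  have hG : ∀ β, ρ.L (c * (τ ^ β 2 * coeff β H)) (coeff β T) := fun β => by
    have := hT β
    rwa [coeff_C_mul, coeff_scz] at this
  have hαH : coeff α H ≠ 0 := by
    intro h
    have h3 := hF α
    rw [h, mul_zero] at h3
    exact hα (ρ.fn h3 (Pl.zero ρ))
  have hκ : ρ.L (c * τ ^ α 2 / c') (coeff α T / coeff α Fb) := by
    have h3 := Pl.div ρ (hG α) (hF α) hα
    have e : c * (τ ^ α 2 * coeff α H) / (c' * coeff α H) = c * τ ^ α 2 / c' := by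
      field_simp
    rwa [e] at h3
  have hbig : ∀ β, α 2 < β 2 → coeff β T = 0 := by
    intro β hβ
    have h3 := L_zero_mul ρ hτ (k := β 2 - α 2) (by omega) (ρ.mul hκ (hF β))
    have e : τ ^ (β 2 - α 2) * (c * τ ^ α 2 / c' * (c' * coeff β H)) =
        c * (τ ^ β 2 * coeff β H) := by
      have h5 : τ ^ (β 2) = τ ^ (β 2 - α 2) * τ ^ (α 2) := by
        rw [← pow_add]
        congr 1
        omega
      rw [h5]
      field_simp
    rw [e] at h3
    exact ρ.fn (hG β) h3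
  obtain ⟨α1, hα1, hu1⟩ := h1 c' Fb hLF hFb
  have hαu : α 2 ≤ u := (hmin' α1 hα1).trans hu1
  refine ⟨fun β hβ => ?_, ?_⟩
  · by_contra hcon
    exact hβ (hbig β (by omega))
  · rcases Nat.lt_or_ge (α 2) u with hlt | hge
    · left
      intro β hβ
      exact hbig β (by omega)
    · right
      have hau : α 2 = u := le_antisymm hαu hge
      rw [hau] at hκ
      have hLG : ρ.LP (C (c * τ ^ u) * H) (C (coeff α T / coeff α Fb) * Fb) := by
        have h3 := hLF.C_mul hκ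
        have e : C (c * τ ^ u / c') * (C c' * H) = C (c * τ ^ u) * H := by
          rw [← mul_assoc, ← map_mul]
          congr 2
          field_simp
        rwa [e] at h3
      refine ⟨_, hLG, ?_, ?_⟩
      · intro β hβ
        rw [coeff_C_mul] at hβ
        rw [← hau]
        exact hmin' β (right_ne_zero_of_mul hβ)
      · intro β hβ
        have h3 := hLG β
        rw [coeff_C_mul] at h3
        have h4 := hG β
        rw [hβ, ← mul_assoc] at h4
        exact ρ.fn h3 h4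

theorem scz_scz_inv {τ : ℂ} (hτ0 : τ ≠ 0) (F : R3) : scz τ (scz τ⁻¹ F) = F := by
  ext α
  rw [coeff_scz, coeff_scz, ← mul_assoc, ← mul_pow, mul_inv_cancel₀ hτ0, one_pow, one_mul]

theorem scv_inv_scv {τ : ℂ} (hτ0 : τ ≠ 0) (v : V3) : scv τ⁻¹ (scv τ v) = v := by
  ext i
  fin_cases i
  · rfl
  · rfl
  · change v 2 / τ / τ⁻¹ = v 2
    field_simp

/-- the limit at one point of collision -/
theorem one_limit (ρ : Pl) {τ : ℂ} (hτ0 : τ ≠ 0) (hτ : ρ.L τ 0) {d μ₀ : ℕ} (hμd : μ₀ ≤ d)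
    (hμ : 1 ≤ μ₀) {P P' : V3} (hP : P 2 ≠ 0) (hP' : P' 2 ≠ 0) (hPP : ∀ k, ρ.L (P k) (P' k))
    {s₀ : ℕ} {ζ ζ' : Fin s₀ → V3} (hζ : ∀ j k, ρ.L (ζ j k) (ζ' j k)) (hζ2 : ∀ j, ζ' j 2 ≠ 0)
    {v : Fin s₀ → ℕ} (hlow : linSys (μ₀ - 1) ζ' v = ⊥) {F F₀ : R3} {c : ℂ}
    (hF : F.IsHomogeneous d) (hF0 : F ≠ 0) (hlim : ρ.LP (C c * F) F₀)
    (hv : ∀ j, VanishTo F (tv P (scv τ (ζ j))) (v j)) :
    VanishTo F₀ P' μ₀ ∧ ∃ G ∈ linSys μ₀ ζ' v, res G = ld d μ₀ P' F₀ ∧
      (ld d μ₀ P' F₀ ≠ 0 →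
        ρ.LP (C (c * τ ^ (d - μ₀)) * scz τ⁻¹ (tr P F)) (X 2 ^ (d - μ₀) * G)) := by
  have hF₀ : F₀.IsHomogeneous d := hlim.homogeneous (hF.C_mul c)
  set H : R3 := scz τ⁻¹ (tr P F) with hH
  have hHh : H.IsHomogeneous d := scz_hom _ (tr_hom hF P)
  have hsH : scz τ H = tr P F := scz_scz_inv hτ0 _
  have hH0 : H ≠ 0 := by
    intro h
    rw [h, map_zero] at hsH
    exact hF0 ((tr_eq_zero hP).mp hsH.symm)
  have hHv : ∀ j, VanishTo H (ζ j) (v j) := by
    intro j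
    have h1 := vanishTo_scz (inv_ne_zero hτ0) (tr_hom hF P) ((vanishTo_tr hP).mpr (hv j))
    rwa [scv_inv_scv hτ0] at h1
  have hvan : ∀ c G, ρ.LP (C c * H) G → ∀ j, VanishTo G (ζ' j) (v j) := fun c G hG j =>
    hG.vanishTo (hHh.C_mul c) (hζ j) (vanishTo_C_mul (hHv j) c)
  have hT : ρ.LP (C c * scz τ H) (tr P' F₀) := by
    have h1 := LP_tr ρ hPP hlim
    rw [map_mul, tr_C] at h1
    rwa [hsH]
  obtain ⟨hA, hB⟩ := limit_low ρ hτ0 hτ (u := d - μ₀) hH0 hT (fun c Fb hFb hFb0 => by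
    by_contra hcon
    push Not at hcon
    have hh : Fb.IsHomogeneous d := hFb.homogeneous (hHh.C_mul c)
    obtain ⟨K, hK, hKF⟩ := exists_z_factor (k := d - μ₀ + 1) hh (fun α hα => hcon α hα)
    have h2 : K ∈ linSys (μ₀ - 1) ζ' v := by
      refine ⟨?_, fun j => ?_⟩
      · have : d - (d - μ₀ + 1) = μ₀ - 1 := by omega
        rwa [this] at hK
      · apply vanishTo_of_X_pow_mul (hζ2 j) (d - μ₀ + 1)
        rw [hKF]
        exact hvan c Fb hFb j
    rw [hlow, Submodule.mem_bot] at h2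
    apply hFb0
    rw [← hKF, h2, mul_zero])
  have hvP : VanishTo F₀ P' μ₀ := by
    rw [vanishTo_iff_ld hF₀ hP' (by omega)]
    intro k hk
    rw [ld_apply]
    apply R2_ext
    intro a b
    rw [coeff_cz, coeff_zero]
    by_contra hne
    have h1 := hA _ hne
    have h2 : (e3 a b (d - k)) 2 = d - k := rfl
    omega
  refine ⟨hvP, ?_⟩
  rcases hB with hB | ⟨G₁, hG₁, hsup, hco⟩
  · have h0 : ld d μ₀ P' F₀ = 0 := by
      rw [ld_apply]
      apply R2_ext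
      intro a b
      rw [coeff_cz, coeff_zero]
      exact hB _ rfl
    exact ⟨0, zero_mem _, by rw [h0, map_zero], fun h => absurd h0 h⟩
  · have hh : G₁.IsHomogeneous d := hG₁.homogeneous (hHh.C_mul _)
    obtain ⟨G, hG, hGG⟩ := exists_z_factor (k := d - μ₀) hh hsup
    have hdd : d - (d - μ₀) = μ₀ := by omega
    rw [hdd] at hG
    refine ⟨G, ⟨hG, fun j => ?_⟩, ?_, fun _ => ?_⟩
    · apply vanishTo_of_X_pow_mul (hζ2 j) (d - μ₀)
      rw [hGG]
      exact hvan _ G₁ hG₁ j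
    · rw [ld_apply]
      apply R2_ext
      intro a b
      have h3 := coeff_X2_pow_mul (d - μ₀) G a b 0
      rw [zero_add] at h3
      rw [coeff_res, coeff_cz, ← hco _ rfl, ← hGG, h3]
    · rw [hGG]
      exact hG₁

/-! ### the collision theorem in terms of the limits -/

theorem L_ip (ρ : Pl) {P P' : V3} (hP' : P' 2 ≠ 0) (h : ∀ k, ρ.L (P k) (P' k)) :
    ∀ k, ρ.L (ip P k) (ip P' k) := by
  intro k
  fin_cases k
  · exact ρ.neg (Pl.div ρ (h 0) (h 2) hP')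
  · exact ρ.neg (Pl.div ρ (h 1) (h 2) hP')
  · exact Pl.inv ρ (h 2) hP'

theorem L_tv (ρ : Pl) {P P' u u' : V3} (h : ∀ k, ρ.L (P k) (P' k)) (hu : ∀ k, ρ.L (u k) (u' k)) :
    ∀ k, ρ.L (tv P u k) (tv P' u' k) := by
  intro k
  fin_cases k
  · exact ρ.add (hu 0) (ρ.mul (h 0) (hu 2))
  · exact ρ.add (hu 1) (ρ.mul (h 1) (hu 2))
  · exact ρ.mul (h 2) (hu 2)

/-- the gradient of a power of `z` times a cone -/
theorem grad_cone {u : ℕ} {β : R2} {b : V3} (hb2 : b 2 ≠ 0)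
    (h : ∀ k, eval b (pderiv k (X 2 ^ u * emb β)) = 0) :
    ∀ k, eval ![b 0, b 1] (pderiv k β) = 0 := by
  have hX2 : (b 2) ^ u ≠ 0 := pow_ne_zero _ hb2
  intro k
  fin_cases k
  · have h1 := h 0
    rw [Derivation.leibniz, map_add, smul_eq_mul, smul_eq_mul, map_mul, map_mul, map_pow,
      eval_X, pderiv_pow, pderiv_X_of_ne (by decide), mul_zero, map_zero, mul_zero,
      add_zero, Side.pderiv_emb_zero, Side.eval_emb] at h1
    exact (mul_eq_zero.mp h1).resolve_left hX2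
  · have h1 := h 1
    have h3 : pderiv 1 (emb β) = emb (pderiv 1 β) := pderiv_emb_one _
    rw [Derivation.leibniz, map_add, smul_eq_mul, smul_eq_mul, map_mul, map_mul, map_pow,
      eval_X, pderiv_pow, pderiv_X_of_ne (by decide), mul_zero, map_zero, mul_zero,
      add_zero, h3, Side.eval_emb] at h1
    exact (mul_eq_zero.mp h1).resolve_left hX2

/-- no singular point near a point of collision -/
theorem no_sing_near (ρ : Pl) {τ : ℂ} (hτ0 : τ ≠ 0) (hτ : ρ.L τ 0) {d μ₀ : ℕ} (hμd : μ₀ ≤ d)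
    (hμ : 1 ≤ μ₀) {P P' : V3} (hP : P 2 ≠ 0) (hP' : P' 2 ≠ 0) (hPP : ∀ k, ρ.L (P k) (P' k))
    {s₀ : ℕ} {ζ ζ' : Fin s₀ → V3} (hζ : ∀ j k, ρ.L (ζ j k) (ζ' j k)) (hζ2 : ∀ j, ζ' j 2 ≠ 0)
    {v : Fin s₀ → ℕ} (hv : ∀ j, v j ≤ μ₀) {F G : R3} {c : ℂ} (hF : F.IsHomogeneous d)
    (hvan : ∀ j, VanishTo F (tv P (scv τ (ζ j))) (v j)) (hG : G ∈ linSys μ₀ ζ' v)
    (hlim : ρ.LP (C (c * τ ^ (d - μ₀)) * scz τ⁻¹ (tr P F)) (X 2 ^ (d - μ₀) * G))
    (hlimT : ∃ T, ρ.LP (C c * F) T) (hnd : NoDouble (res G)) (hnb : ¬ Bad μ₀ ζ' v G)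
    {q b : V3} (hq : ∀ k, ρ.L (q k) (b k)) (hb : b ≠ 0) (hcr : cr P' b = 0)
    (hqζ : ∀ j, cr (tv P (scv τ (ζ j))) q ≠ 0) (hgrad : ∀ k, eval q (pderiv k F) = 0) : False := by
  have hP'0 : P' ≠ 0 := fun h => hP' (by rw [h]; rfl)
  obtain ⟨t, ht⟩ := exists_smul_of_cr_eq_zero hP'0 hcr
  have ht0 : t ≠ 0 := by
    rintro rfl
    exact hb (by rw [ht, zero_smul])
  obtain ⟨a, haq⟩ : ∃ a, a = tv (ip P) q := ⟨_, rfl⟩
  have hqa : tv P a = q := by rw [haq, tv_ip hP]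
  have ha : ∀ k, ρ.L (a k) ((![0, 0, t] : V3) k) := by
    have h1 := L_tv ρ (L_ip ρ hP' hPP) hq
    have h2 : tv (ip P') b = ![0, 0, t] := by
      have h3 : tv (ip P') P' = ![0, 0, 1] := by
        have h4 := ip_tv hP' ![0, 0, 1]
        rwa [tv_single_two] at h4
      rw [ht, tv_smul, h3]
      ext i
      fin_cases i <;> simp
    rw [h2, ← haq] at h1
    exact h1
  set H : R3 := scz τ⁻¹ (tr P F) with hH
  have hHh : H.IsHomogeneous d := scz_hom _ (tr_hom hF P)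
  have hsH : scz τ H = tr P F := scz_scz_inv hτ0 _
  have hgT : ∀ k, eval a (pderiv k (tr P F)) = 0 := by
    rw [sing_tr hP, hqa]
    exact hgrad
  have hgH : ∀ k, eval (scv τ⁻¹ a) (pderiv k H) = 0 := sing_scz (inv_ne_zero hτ0) hgT
  have hw0 : (![a 0 / τ, a 1 / τ, 1] : Fin 3 → ℂ) ≠ 0 := fun h => one_ne_zero (congrFun h 2)
  obtain ⟨e, he, w, hwne, hLw⟩ := ρ.exists_scale_vec _ hw0
  have hL0 : ρ.L (e * (a 0 / τ)) (w 0) := hLw 0
  have hL1 : ρ.L (e * (a 1 / τ)) (w 1) := hLw 1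
  have hL2 : ρ.L e (w 2) := by
    have h1 := hLw 2
    change ρ.L (e * 1) (w 2) at h1
    rwa [mul_one] at h1
  have hHv : ∀ j, VanishTo H (ζ j) (v j) := by
    intro j
    have h1 := vanishTo_scz (inv_ne_zero hτ0) (tr_hom hF P) ((vanishTo_tr hP).mpr (hvan j))
    rwa [scv_inv_scv hτ0] at h1
  have heτ : e / τ ≠ 0 := div_ne_zero he hτ0
  have hcg : ∀ j, cr (ζ j) ((e / τ) • scv τ⁻¹ a) ≠ 0 := by
    intro j
    rw [cr_smul_right]
    refine smul_ne_zero heτ ?_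
    have h1 : cr (scv τ (ζ j)) a ≠ 0 := by
      intro h
      apply hqζ j
      rw [← hqa]
      exact (cr_tv hP).mpr h
    have h2 := cr_scv (inv_ne_zero hτ0) h1
    rwa [scv_inv_scv hτ0] at h2
  have hgg : ∀ k, eval ((e / τ) • scv τ⁻¹ a) (pderiv k H) = 0 := by
    intro k
    rw [eval_smul_of_hom hHh.pderiv, hgH k, mul_zero]
  have hg0 : ((e / τ) • scv τ⁻¹ a) 0 = e * (a 0 / τ) := by
    change e / τ * a 0 = _
    ring
  have hg1 : ((e / τ) • scv τ⁻¹ a) 1 = e * (a 1 / τ) := by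
    change e / τ * a 1 = _
    ring
  have hg2 : ((e / τ) • scv τ⁻¹ a) 2 = e * a 2 := by
    change e / τ * (a 2 / τ⁻¹) = _
    field_simp
  have hdd : μ₀ + (d - μ₀) = d := by omega
  by_cases hw2 : w 2 = 0
  · -- the neck
    rw [hw2] at hL2
    have hy0 : (![w 0, w 1] : V2) ≠ 0 := by
      intro h
      apply hwne
      ext i
      fin_cases i
      · exact congrFun h 0
      · exact congrFun h 1
      · exact hw2
    have hτe : ρ.L (τ / e) 0 := by
      have key : ∀ x y : ℂ, ρ.L x 0 → ρ.L (e * (x / τ)) y → y ≠ 0 → ρ.L (τ / e) 0 := by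
        intro x y hx hxy hy
        have hx0 : x ≠ 0 := by
          rintro rfl
          rw [zero_div, mul_zero] at hxy
          exact hy (ρ.fn hxy (Pl.zero ρ))
        have h1 := Pl.div ρ hx hxy hy
        rw [zero_div] at h1
        have h2 : x / (e * (x / τ)) = τ / e := by field_simp
        rwa [h2] at h1
      by_cases h0 : w 0 = 0
      · have h1 : w 1 ≠ 0 := by
          intro h1
          apply hy0
          ext i
          fin_cases i
          · exact h0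
          · exact h1
        exact key _ _ (ha 1) hL1 h1
      · exact key _ _ (ha 0) hL0 h0
    obtain ⟨T, hT⟩ := hlimT
    have hT' : ρ.LP (C (c * τ ^ (d - μ₀) / τ ^ (d - μ₀)) * scz τ H) (tr P' T) := by
      have h1 := LP_tr ρ hPP hT
      rw [map_mul, tr_C] at h1
      rwa [hsH, mul_div_assoc, div_self (pow_ne_zero _ hτ0), mul_one]
    have hneck := neck ρ hτ0 hlim hT' he hL2 hτe (N := X 2 ^ (d - μ₀) * emb (res G))
      (fun α => coeff_top (d - μ₀) G α)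
    have hs := sing_C_mul (sing_scz he hgg) (c * τ ^ (d - μ₀) / e ^ (d - μ₀))
    have hspec : ∀ k, ρ.L (scv e ((e / τ) • scv τ⁻¹ a) k) ((![w 0, w 1, t] : V3) k) := by
      intro k
      fin_cases k
      · change ρ.L (((e / τ) • scv τ⁻¹ a) 0) (w 0)
        rw [hg0]
        exact hL0
      · change ρ.L (((e / τ) • scv τ⁻¹ a) 1) (w 1)
        rw [hg1]
        exact hL1
      · change ρ.L (((e / τ) • scv τ⁻¹ a) 2 / e) t
        rw [hg2, mul_div_cancel_left₀ _ he]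
        exact ha 2
    have hz2 : ∀ k, eval ![w 0, w 1, t] (pderiv k (X 2 ^ (d - μ₀) * emb (res G))) = 0 := by
      intro k
      have h1 := (hneck.pderiv k).eval hspec
      rw [hs k] at h1
      exact ρ.fn h1 (Pl.zero ρ)
    obtain ⟨k, hk⟩ := hnd _ hy0
    exact hk (grad_cone (b := ![w 0, w 1, t]) ht0 hz2 k)
  · -- the cluster
    have hspec : ∀ k, ρ.L (((e / τ) • scv τ⁻¹ a) k) ((![w 0, w 1, w 2 * t] : V3) k) := by
      intro k
      fin_cases k
      · change ρ.L (((e / τ) • scv τ⁻¹ a) 0) (w 0)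
        rw [hg0]
        exact hL0
      · change ρ.L (((e / τ) • scv τ⁻¹ a) 1) (w 1)
        rw [hg1]
        exact hL1
      · change ρ.L (((e / τ) • scv τ⁻¹ a) 2) (w 2 * t)
        rw [hg2]
        exact ρ.mul hL2 (ha 2)
    have hb2 : (![w 0, w 1, w 2 * t] : V3) 2 ≠ 0 := mul_ne_zero hw2 ht0
    have hb0 : (![w 0, w 1, w 2 * t] : V3) ≠ 0 := fun h => hb2 (by rw [h]; rfl)
    have hs := sing_C_mul hgg (c * τ ^ (d - μ₀))
    by_cases hj : ∃ j, cr (ζ' j) ![w 0, w 1, w 2 * t] = 0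
    · obtain ⟨j, hj⟩ := hj
      have hζ0 : ζ' j ≠ 0 := fun h => hζ2 j (by rw [h]; rfl)
      obtain ⟨u, hu, hbu⟩ := sing_spec ρ (hHh.C_mul _) (by omega) (m := v j)
        ((hv j).trans hμd) hlim (hζ j) hspec hζ0 hb0 (vanishTo_C_mul (hHv j) _) (hcg j) hj hs
      rw [← hdd] at hbu
      rw [Nat.add_sub_cancel_left] at hbu
      exact hnb (Or.inr ⟨j, u, hu, badDir_of_z_pow (hv j) hG.1 (hζ2 j) (hG.2 j) hbu⟩)
    · push Not at hj
      have hz2 : ∀ k, eval ![w 0, w 1, w 2 * t] (pderiv k (X 2 ^ (d - μ₀) * G)) = 0 := by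
        intro k
        have h1 := (hlim.pderiv k).eval hspec
        rw [hs k] at h1
        exact ρ.fn h1 (Pl.zero ρ)
      exact hnb (Or.inl ⟨_, hb0, hj, sing_of_z_pow hG.1 hb2 hz2 (by omega)⟩)

/-- no bad direction at the points of a cluster -/
theorem no_tang_near (ρ : Pl) {τ : ℂ} (hτ0 : τ ≠ 0) {d μ₀ : ℕ} (hμd : μ₀ ≤ d)
    {P : V3} (hP : P 2 ≠ 0)
    {s₀ : ℕ} {ζ ζ' : Fin s₀ → V3} (hζ : ∀ j k, ρ.L (ζ j k) (ζ' j k)) (hζ2 : ∀ j, ζ' j 2 ≠ 0)
    {v : Fin s₀ → ℕ} (hv : ∀ j, v j ≤ μ₀) {F G : R3} {c : ℂ} (hF : F.IsHomogeneous d)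
    (hvan : ∀ j, VanishTo F (tv P (scv τ (ζ j))) (v j)) (hG : G ∈ linSys μ₀ ζ' v)
    (hlim : ρ.LP (C (c * τ ^ (d - μ₀)) * scz τ⁻¹ (tr P F)) (X 2 ^ (d - μ₀) * G))
    (hnb : ¬ Bad μ₀ ζ' v G) {j : Fin s₀} {u : V3} (hu : cr (tv P (scv τ (ζ j))) u ≠ 0)
    (hbad : BadDir d F (tv P (scv τ (ζ j))) (v j) u) : False := by
  obtain ⟨a, ha⟩ := exists_tv hP u
  subst ha
  have hHh : (scz τ⁻¹ (tr P F)).IsHomogeneous d := scz_hom _ (tr_hom hF P)
  have h1 : BadDir d (tr P F) (scv τ (ζ j)) (v j) a := (badDir_tr hP).mpr hbad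
  have h2 := badDir_scz (inv_ne_zero hτ0) h1
  rw [scv_inv_scv hτ0] at h2
  have h3 : cr (scv τ (ζ j)) a ≠ 0 := fun h => hu ((cr_tv hP).mpr h)
  have h4 := cr_scv (inv_ne_zero hτ0) h3
  rw [scv_inv_scv hτ0] at h4
  have h5 : VanishTo (scz τ⁻¹ (tr P F)) (ζ j) (v j) := by
    have h1 := vanishTo_scz (inv_ne_zero hτ0) (tr_hom hF P) ((vanishTo_tr hP).mpr (hvan j))
    rwa [scv_inv_scv hτ0] at h1
  have hζ0 : ζ' j ≠ 0 := fun h => hζ2 j (by rw [h]; rfl)
  obtain ⟨w, hw, hbw⟩ := tang_spec ρ (hHh.C_mul _) ((hv j).trans hμd) hlim (hζ j) hζ0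
    (vanishTo_C_mul h5 _) h4 (badDir_C_mul h2 _)
  have hdd : μ₀ + (d - μ₀) = d := by omega
  rw [← hdd, Nat.add_sub_cancel_left] at hbw
  exact hnb (Or.inr ⟨j, w, hw, badDir_of_z_pow (hv j) hG.1 (hζ2 j) (hG.2 j) hbw⟩)

/-- **The collision theorem**, in terms of the limits -/
theorem collision_not_bad {ι Λ : Type} (ρ : Pl) {τ : ℂ} (hτ0 : τ ≠ 0) (hτ : ρ.L τ 0) {d : ℕ}
    {m : ι → ℕ} {μ s : Λ → ℕ} {v : ∀ l, Fin (s l) → ℕ} (hd : 1 ≤ d) (hm : ∀ i, m i ≤ d)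
    (hμ : ∀ l, 1 ≤ μ l) (hμd : ∀ l, μ l ≤ d) (hv : ∀ l j, v l j ≤ μ l)
    {p : ι ⊕ (Σ l, Fin (s l)) → V3} {p' : ι → V3} {P P' : Λ → V3} {ζ ζ' : (Σ l, Fin (s l)) → V3}
    (hP : ∀ l, P l 2 ≠ 0) (hP' : ∀ l, P' l 2 ≠ 0) (hp'0 : ∀ i, p' i ≠ 0) (hζ2 : ∀ x, ζ' x 2 ≠ 0)
    (hpp : ∀ i k, ρ.L (p (Sum.inl i) k) (p' i k)) (hPP : ∀ l k, ρ.L (P l k) (P' l k))
    (hζζ : ∀ x k, ρ.L (ζ x k) (ζ' x k))
    (hpx : ∀ x, p (Sum.inr x) = tv (P x.1) (scv τ (ζ x)))
    (hlow : ∀ l, linSys (μ l - 1) (fun j => ζ' ⟨l, j⟩) (v l) = ⊥)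
    (hgood : ∀ F₀ ∈ linSys d (Sum.elim p' P') (Sum.elim m μ), F₀ ≠ 0 → ∀ G : Λ → R3,
      (∀ l, G l ∈ linSys (μ l) (fun j => ζ' ⟨l, j⟩) (v l)) →
      (∀ l, res (G l) = ld d (μ l) (P' l) F₀) →
      ¬ Sing (Sum.elim p' P') F₀ ∧ ¬ Tang d p' m F₀ ∧ ∀ l, ld d (μ l) (P' l) F₀ ≠ 0 ∧
        NoDouble (ld d (μ l) (P' l) F₀) ∧ ¬ Bad (μ l) (fun j => ζ' ⟨l, j⟩) (v l) (G l))
    {F : R3} (hF : F ∈ linSys d p (Sum.elim m (fun x => v x.1 x.2))) (hF0 : F ≠ 0) :
    ¬ Bad d p (Sum.elim m (fun x => v x.1 x.2)) F := by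
  obtain ⟨c, hc, F₀, hF₀0, hlim⟩ := Pl.exists_scale_poly ρ hF0
  have hvan : ∀ l j, VanishTo F (tv (P l) (scv τ (ζ ⟨l, j⟩))) (v l j) := by
    intro l j
    have h1 := hF.2 (Sum.inr ⟨l, j⟩)
    rwa [hpx] at h1
  have key := fun l => one_limit ρ hτ0 hτ (hμd l) (hμ l) (hP l) (hP' l) (hPP l)
    (ζ := fun j => ζ ⟨l, j⟩) (ζ' := fun j => ζ' ⟨l, j⟩) (fun j => hζζ ⟨l, j⟩)
    (fun j => hζ2 ⟨l, j⟩) (hlow l) hF.1 hF0 hlim (hvan l)
  choose hvP G hG hres hlimG using key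
  have hF₀ : F₀ ∈ linSys d (Sum.elim p' P') (Sum.elim m μ) := by
    refine ⟨hlim.homogeneous (hF.1.C_mul c), ?_⟩
    rintro (i | l)
    · exact hlim.vanishTo (hF.1.C_mul c) (hpp i) (vanishTo_C_mul (hF.2 (Sum.inl i)) c)
    · exact hvP l
  obtain ⟨hns, hnt, hnl⟩ := hgood F₀ hF₀ hF₀0 G hG hres
  have hlimG' := fun l => hlimG l (hnl l).1
  have hnd : ∀ l, NoDouble (res (G l)) := fun l => by
    rw [hres l]
    exact (hnl l).2.1
  rintro (⟨q, hq0, hqp, hgrad⟩ | ⟨i, u, hu, hbad⟩)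
  · obtain ⟨e, he, b, hb0, hqb⟩ := ρ.exists_scale_vec q hq0
    obtain ⟨q', hq'⟩ : ∃ q' : V3, q' = e • q := ⟨_, rfl⟩
    have hgrad' : ∀ k, eval q' (pderiv k F) = 0 := by
      intro k
      rw [hq', eval_smul_of_hom hF.1.pderiv, hgrad k, mul_zero]
    have hqp' : ∀ i, cr (p i) q' ≠ 0 := by
      intro i
      rw [hq', cr_smul_right]
      exact smul_ne_zero he (hqp i)
    have hqb' : ∀ k, ρ.L (q' k) (b k) := by
      intro k
      rw [hq']
      exact hqb k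
    by_cases hl : ∃ l, cr (P' l) b = 0
    · obtain ⟨l, hl⟩ := hl
      refine no_sing_near ρ hτ0 hτ (hμd l) (hμ l) (hP l) (hP' l) (hPP l)
        (ζ := fun j => ζ ⟨l, j⟩) (ζ' := fun j => ζ' ⟨l, j⟩) (fun j => hζζ ⟨l, j⟩)
        (fun j => hζ2 ⟨l, j⟩) (hv l) hF.1 (hvan l) (hG l) (hlimG' l) ⟨_, hlim⟩ (hnd l)
        (hnl l).2.2 hqb' hb0 hl (fun j => ?_) hgrad'
      have h1 := hqp' (Sum.inr ⟨l, j⟩)
      rwa [hpx] at h1
    · push Not at hl
      by_cases hi : ∃ i, cr (p' i) b = 0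
      · obtain ⟨i, hi⟩ := hi
        obtain ⟨w, hw, hbw⟩ := sing_spec ρ (hF.1.C_mul c) hd (hm i) hlim (hpp i) hqb' (hp'0 i)
          hb0 (vanishTo_C_mul (hF.2 (Sum.inl i)) c) (hqp' (Sum.inl i)) hi (sing_C_mul hgrad' c)
        exact hnt ⟨i, w, hw, hbw⟩
      · push Not at hi
        refine hns ⟨b, hb0, ?_, ?_⟩
        · rintro (i | l)
          · exact hi i
          · exact hl l
        · intro k
          have h1 := (hlim.pderiv k).eval hqb'
          rw [sing_C_mul hgrad' c k] at h1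
          exact ρ.fn h1 (Pl.zero ρ)
  · rcases i with i | ⟨l, j⟩
    · obtain ⟨w, hw, hbw⟩ := tang_spec ρ (hF.1.C_mul c) (hm i) hlim (hpp i) (hp'0 i)
        (vanishTo_C_mul (hF.2 (Sum.inl i)) c) hu (badDir_C_mul hbad c)
      exact hnt ⟨i, w, hw, hbw⟩
    · rw [hpx] at hu hbad
      exact no_tang_near ρ hτ0 (hμd l) (hP l) (ζ := fun j => ζ ⟨l, j⟩)
        (ζ' := fun j => ζ' ⟨l, j⟩) (fun j => hζζ ⟨l, j⟩) (fun j => hζ2 ⟨l, j⟩) (hv l) hF.1
        (hvan l) (hG l) (hlimG' l) (hnl l).2.2 (j := j) hu hbad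

/-- a system with too many conditions is empty -/
theorem linSys_eq_bot {M d : ℕ} (hN : NSp M d) {ι : Type} [Fintype ι] {p : ι → V3}
    (hp : GenericPoints p) {m : ι → ℕ} (hm : ∀ i, m i ≤ M)
    (h : (d + 2).choose 2 ≤ ∑ i, (m i + 1).choose 2) : linSys d p m = ⊥ := by
  have hfin : Module.Finite ℂ (linSys d p m) :=
    Submodule.finiteDimensional_of_le (linSys_le _ _ _)
  apply Submodule.finrank_eq_zero.mp
  rw [hN.finrank hp hm]
  omega

end Pool.Agent.Work.MP_0421d9_ag.ZC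
end

section
/-!
Collisions of generic points: one cluster, the other ones are flags.
-/

set_option linter.unusedSectionVars false
set_option linter.unusedVariables false

namespace Pool.Agent.Work.MP_0421d9_ag.ZC

open MvPolynomial Module SM

/-- pairs of a form and an image of a form of the cluster with the same leading form -/
noncomputable def BBh {Λ : Type} {n : ℕ} (d μ₀ : ℕ) (P : Λ → V3) (μ : Λ → ℕ) (P₀ : V3)
    (W : Submodule ℂ R3) (L : R3 →ₗ[ℂ] MvPolynomial (Fin n) ℂ) :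
    Submodule ℂ (R3 × MvPolynomial (Fin n) ℂ) where
  carrier := {H | H.1 ∈ linSys d P μ ∧ ∃ Θ ∈ W, res Θ = ld d μ₀ P₀ H.1 ∧ H.2 = L Θ}
  zero_mem' := ⟨zero_mem _, 0, zero_mem _, by rw [map_zero, Prod.fst_zero, map_zero], by
    rw [map_zero]; rfl⟩
  add_mem' := by
    rintro x y ⟨hx, Θ, hΘ, h1, h2⟩ ⟨hy, Θ', hΘ', h1', h2'⟩
    exact ⟨add_mem hx hy, Θ + Θ', add_mem hΘ hΘ', by
      rw [map_add, h1, h1', Prod.fst_add, map_add], by rw [Prod.snd_add, h2, h2', map_add]⟩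
  smul_mem' := by
    rintro a x ⟨hx, Θ, hΘ, h1, h2⟩
    exact ⟨Submodule.smul_mem _ _ hx, a • Θ, Submodule.smul_mem _ _ hΘ, by
      rw [map_smul, h1, Prod.smul_fst, map_smul], by rw [Prod.smul_snd, h2, map_smul]⟩

theorem linSys_cD {ι : Type} {p : ι → V3} {y : ι → ℕ} {d : ℕ} {D : Derivation ℚ ℂ ℂ}
    (hD : ∀ i k, D (p i k) = 0) {H : R3} (hH : H ∈ linSys d p y) : cD D H ∈ linSys d p y :=
  ⟨cD_isHomogeneous D hH.1, fun i => vanishTo_cD_fixed D (hD i) (hH.2 i)⟩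

theorem BBh_cD {Λ : Type} {n d : ℕ} {P : Λ → V3} {μ : Λ → ℕ} {l₀ : Λ} {s₀ : ℕ}
    {ζ : Fin s₀ → V3} {v₀ : Fin s₀ → ℕ} {L : R3 →ₗ[ℂ] MvPolynomial (Fin n) ℂ}
    {D : Derivation ℚ ℂ ℂ} (hL2 : ∀ Θ, cD D (L Θ) = L (cD D Θ)) (hDP : ∀ l k, D (P l k) = 0)
    (hDζ : ∀ j k, D (ζ j k) = 0) {H : R3 × MvPolynomial (Fin n) ℂ}
    (hH : H ∈ BBh d (μ l₀) P μ (P l₀) (linSys (μ l₀) ζ v₀) L) :
    ps D H ∈ BBh d (μ l₀) P μ (P l₀) (linSys (μ l₀) ζ v₀) L := by
  obtain ⟨h1, Θ, hΘ, h2, h3⟩ := hH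
  refine ⟨linSys_cD hDP h1, cD D Θ, linSys_cD hDζ hΘ, ?_, ?_⟩
  · change res (cD D Θ) = ld d (μ l₀) (P l₀) (cD D H.1)
    rw [← cD_res, h2, cD_ld D (hDP l₀)]
  · change cD D H.2 = _
    rw [h3, hL2]

section levels

variable {ι Λ : Type} [Fintype ι] [Fintype Λ] [DecidableEq ι] [DecidableEq Λ] {d M : ℕ}
  {m : ι → ℕ} {μ w s Mv : Λ → ℕ} {v : ∀ l, Fin (s l) → ℕ}

theorem finrank_VV_hyb {n d μ₀ : ℕ} {P₀ : V3} {A : Submodule ℂ R3} (hA : A ≤ Rd d)
    (hμd : μ₀ ≤ d) {W : Submodule ℂ R3} (hW : W ≤ Rd μ₀) (hWinj : ∀ Θ ∈ W, res Θ = 0 → Θ = 0)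
    (L : R3 →ₗ[ℂ] MvPolynomial (Fin n) ℂ) {V : Submodule ℂ (R3 × MvPolynomial (Fin n) ℂ)}
    (hV : ∀ H, H ∈ V ↔ H.1 ∈ A ∧ ∃ Θ ∈ W, res Θ = ld d μ₀ P₀ H.1 ∧ H.2 = L Θ) :
    finrank ℂ A + finrank ℂ W ≤ finrank ℂ V + (μ₀ + 1) := by
  have hfA : Module.Finite ℂ A := Submodule.finiteDimensional_of_le hA
  have hfW : Module.Finite ℂ W := Submodule.finiteDimensional_of_le hW
  let Φ : (A × W) →ₗ[ℂ] (Fin (μ₀ + 1) → ℂ) :=
    LinearMap.pi (fun k => (lcoeff ℂ (e2 k (μ₀ - k))).comp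
      (res.toLinearMap.comp (W.subtype.comp (LinearMap.snd ℂ A W)) -
        (ld d μ₀ P₀).comp (A.subtype.comp (LinearMap.fst ℂ A W))))
  have hΦ : ∀ x, Φ x = 0 ↔ res (x.2 : R3) = ld d μ₀ P₀ (x.1 : R3) := by
    intro x
    have hh : (res (x.2 : R3) - ld d μ₀ P₀ (x.1 : R3)).IsHomogeneous μ₀ :=
      (res_hom (hW x.2.2)).sub (ld_hom (hA x.1.2) hμd _)
    have e1 : ∀ k, Φ x k = coeff (e2 k (μ₀ - k)) (res (x.2 : R3) - ld d μ₀ P₀ (x.1 : R3)) :=
      fun k => rfl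
    constructor
    · intro h
      rw [← sub_eq_zero]
      apply R2_ext
      intro a b
      rw [coeff_zero]
      by_contra hne
      have h1 : (e2 a b).degree = μ₀ := by
        by_contra hc
        exact hne (hh.coeff_eq_zero hc)
      rw [Finsupp.degree_eq_sum, Fin.sum_univ_two] at h1
      have h2 : a + b = μ₀ := h1
      have h3 := congrFun h ⟨a, by omega⟩
      rw [e1] at h3
      have h4 : μ₀ - a = b := by omega
      apply hne
      simp only [h4] at h3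
      exact h3
    · intro h
      funext k
      rw [e1, h, sub_self, coeff_zero]
      rfl
  let T : (A × W) →ₗ[ℂ] (R3 × MvPolynomial (Fin n) ℂ) :=
    (A.subtype.comp (LinearMap.fst ℂ A W)).prod (L.comp (W.subtype.comp (LinearMap.snd ℂ A W)))
  have hT : ∀ x, T x = ((x.1 : R3), L (x.2 : R3)) := fun x => rfl
  have hVT : V = LinearMap.range (T.domRestrict (LinearMap.ker Φ)) := by
    ext H
    rw [hV, LinearMap.mem_range]
    constructor
    · rintro ⟨h1, Θ, hΘ, h2, h3⟩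
      refine ⟨⟨(⟨H.1, h1⟩, ⟨Θ, hΘ⟩), ?_⟩, ?_⟩
      · rw [LinearMap.mem_ker, hΦ]
        exact h2
      · rw [LinearMap.domRestrict_apply, hT, ← h3]
    · rintro ⟨⟨x, hx⟩, rfl⟩
      rw [LinearMap.mem_ker, hΦ] at hx
      rw [LinearMap.domRestrict_apply, hT]
      exact ⟨x.1.2, x.2, x.2.2, hx, rfl⟩
  have hinj : Function.Injective (T.domRestrict (LinearMap.ker Φ)) := by
    refine (injective_iff_map_eq_zero _).mpr ?_
    rintro ⟨x, hx⟩ h
    rw [LinearMap.mem_ker, hΦ] at hx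
    rw [LinearMap.domRestrict_apply, hT, Prod.mk_eq_zero] at h
    have h1 : x.1 = 0 := Subtype.ext h.1
    rw [h1] at hx
    rw [Submodule.coe_zero, map_zero] at hx
    have h2 : x.2 = 0 := Subtype.ext (hWinj _ x.2.2 hx)
    apply Subtype.ext
    exact Prod.ext h1 h2
  rw [hVT, LinearMap.finrank_range_of_inj hinj]
  have h1 := LinearMap.finrank_range_add_finrank_ker Φ
  have h2 := Submodule.finrank_le (LinearMap.range Φ)
  rw [Module.finrank_fintype_fun_eq_card, Fintype.card_fin] at h2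
  rw [Module.finrank_prod] at h1
  omega

/-- **The chain theorem with one cluster.** -/
theorem Dat.hyb_core (S : Dat d M m μ w s Mv v) {p : ι → V3} {P : Λ → V3} {c : Λ → ℂ} {l₀ : Λ}
    {ζ : Fin (s l₀) → V3} (hX : Ind (Sum.elim (Sum.elim p P) ζ) c) {F G : R3}
    (hF : F ∈ FS d p m P μ c (Function.update w l₀ 0)) (hF0 : F ≠ 0)
    (hG : G ∈ linSys (μ l₀) ζ (v l₀)) (hres : res G = ld d (μ l₀) (P l₀) F) {n N : ℕ}
    (hn : n ≤ 3) (L : R3 →ₗ[ℂ] MvPolynomial (Fin n) ℂ)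
    (hL1 : ∀ Θ ∈ linSys (μ l₀) ζ (v l₀), (L Θ).IsHomogeneous N)
    (hL2 : ∀ D : Derivation ℚ ℂ ℂ, (∀ j k, D (ζ j k) = 0) → ∀ Θ, cD D (L Θ) = L (cD D Θ))
    {q : Fin n → ℂ} (hq : q ≠ 0) (hL3 : ∃ Θ ∈ linSys (μ l₀) ζ (v l₀), eval q (L Θ) ≠ 0)
    (h0 : eval q (L G) = 0) (h1 : ∀ k, eval q (pderiv k (L G)) = 0) : False := by
  classical
  obtain ⟨E, D, hED, hEζ, hDζ⟩ := exists_ders hX
  have hgX : GenericPoints (Sum.elim (Sum.elim p P) ζ) := Ind.generic hX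
  have hg : GenericPoints (Sum.elim p P) :=
    AlgebraicIndependent.comp hgX (fun z : (ι ⊕ Λ) × Fin 3 => (Sum.inl z.1, z.2))
      (fun z z' h => by
        simp only [Prod.mk.injEq, Sum.inl.injEq] at h
        exact Prod.ext h.1 h.2)
  have hgζ : GenericPoints ζ :=
    AlgebraicIndependent.comp hgX (fun z : Fin (s l₀) × Fin 3 => (Sum.inr z.1, z.2))
      (fun z z' h => by
        simp only [Prod.mk.injEq, Sum.inr.injEq] at h
        exact Prod.ext h.1 h.2)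
  have hζ2 : ∀ j, ζ j 2 ≠ 0 := fun j => hgζ.ne_zero (j, 2)
  have hP2 : ∀ l, P l 2 ≠ 0 := fun l => hg.ne_zero (Sum.inr l, 2)
  have hμd : ∀ l, μ l + 2 ≤ d := S.hμd
  have hlow : linSys (μ l₀ - 1) ζ (v l₀) = ⊥ := by
    have hx1 := S.hvμ l₀
    have hx2 := S.hMv l₀
    refine linSys_eq_bot (S.hNv' l₀) hgζ (fun j => ?_) ?_
    · have := S.hv l₀ j
      omega
    · have h1 := S.crit l₀
      have h3 : μ l₀ - 1 + 2 = μ l₀ + 1 := by omega
      rw [h3, h1]
      exact Nat.le_add_right _ _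
  have hWinj : ∀ Θ ∈ linSys (μ l₀) ζ (v l₀), res Θ = 0 → Θ = 0 := fun Θ hΘ h =>
    eq_zero_of_res hζ2 hlow hΘ h
  have hexact := S.hyb_exact hX hF hF0 ⟨G, hG, hres⟩
  have hzero : ∀ H ∈ linSys d P μ, VanishTo H (P l₀) (μ l₀ + 1) →
      ∃ Θ, (H, Θ) ∈ BBh d (μ l₀) P μ (P l₀) (linSys (μ l₀) ζ (v l₀)) L ∧ eval q Θ = 0 := by
    intro H hH hv
    refine ⟨0, ⟨hH, 0, zero_mem _, ?_, ?_⟩, map_zero _⟩
    · have := hμd l₀
      rw [map_zero]
      exact (ld_of_vanish hH.1 hv (Nat.lt_succ_self _) (by omega)).symm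
    · rw [map_zero]
  refine S.core hg hED ∅ {l₀} (by simp) hn (N := N)
    (BB := BBh d (μ l₀) P μ (P l₀) (linSys (μ l₀) ζ (v l₀)) L) (fun H hH => hH.1)
    (fun H hH => ?_) (fun i _ k H hH => ?_) (fun l _ H hH => ?_) (ρ := Empty) (by simp)
    (R := Empty.elim) (fun x => x.elim) hq (fun H hH h2 _ => ?_) (fun H hH h2 _ _ => ?_)
    (fun T hT _ => ?_) (F := (F, L G)) ⟨⟨hF.1.1, fun l => hF.1.2 (Sum.inr l)⟩, G, hG, hres, rfl⟩
    (fun i _ => hF.1.2 (Sum.inl i)) (fun l hl j hj => ?_) (fun l hl => ?_)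
    (fun H hH h2 h3 => ?_) ?_ h0 h1
  · obtain ⟨-, Θ, hΘ, -, h3⟩ := hH
    rw [h3]
    exact hL1 Θ hΘ
  · exact BBh_cD (hL2 _ (fun j k' => hEζ i k j k')) (fun l k' => hED.EP i k l k')
      (fun j k' => hEζ i k j k') hH
  · exact BBh_cD (hL2 _ (fun j k' => hDζ l j k')) (fun l' k' => hED.DP l l' k')
      (fun j k' => hDζ l j k') hH
  · obtain ⟨Θ, h3, -⟩ := hzero H hH (h2 l₀ (Finset.mem_singleton_self _))
    exact ⟨Θ, h3⟩
  · exact hzero H hH ((h2 l₀ (Finset.mem_singleton_self _)).mono (Nat.le_succ _))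
  · obtain ⟨Θ, hΘ, hΘq⟩ := hL3
    let Q : {i // i ∈ T} ⊕ {l // l ≠ l₀} → V3 := Sum.elim (fun i => p i.1) (fun l => P l.1)
    let a : {i // i ∈ T} ⊕ {l // l ≠ l₀} → ℕ := Sum.elim (fun i => m i.1) (fun l => μ l.1)
    have hQ : ∀ x, cr (Q x) (P l₀) ≠ 0 := by
      rintro (⟨i, hi⟩ | ⟨l, hl⟩)
      · exact generic_cr_ne hg (x := Sum.inl i) (y := Sum.inr l₀) (by simp)
      · exact generic_cr_ne hg (x := Sum.inr l) (y := Sum.inr l₀) (by simpa using hl)
    have hsum : ∑ x, a x + μ l₀ ≤ d := by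
      rw [Fintype.sum_sum_type]
      have h3 : ∑ x : {l : Λ // l ≠ l₀}, (μ x.1 + 2) + (μ l₀ + 2) = ∑ l, (μ l + 2) := by
        rw [← Finset.add_sum_erase Finset.univ (fun l => μ l + 2) (Finset.mem_univ l₀), add_comm]
        congr 1
        rw [← Finset.sum_subtype (Finset.univ.erase l₀) (p := fun l' => l' ≠ l₀)
          (fun x => by simp) (fun l => μ l + 2)]
      have h4 : ∑ x : {l : Λ // l ≠ l₀}, μ x.1 ≤ ∑ x : {l : Λ // l ≠ l₀}, (μ x.1 + 2) :=
        Finset.sum_le_sum fun x _ => Nat.le_add_right _ _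
      have h5 : ∑ x : {i : ι // i ∈ T}, m x.1 ≤ M := by
        have h6 : ∑ x : {i : ι // i ∈ T}, m x.1 ≤ ∑ x : {i : ι // i ∈ T}, M :=
          Finset.sum_le_sum fun x _ => by
            have := S.hm x.1
            omega
        rw [Finset.sum_const, Finset.card_univ, Fintype.card_coe, smul_eq_mul] at h6
        have h7 : T.card * M ≤ 1 * M := Nat.mul_le_mul_right M hT
        omega
      have h6 := S.hd
      change ∑ x : {i : ι // i ∈ T}, m x.1 + ∑ x : {l : Λ // l ≠ l₀}, μ x.1 + μ l₀ ≤ d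
      omega
    obtain ⟨H, hH, hHQ, hHP, hHl⟩ := exists_form (hP2 l₀) hQ hsum (res_hom hΘ.1)
    refine ⟨(H, L Θ), ⟨⟨hH, fun l => ?_⟩, Θ, hΘ, hHl.symm, rfl⟩, fun i hi => ?_, hΘq⟩
    · by_cases hl : l = l₀
      · rw [hl]
        exact hHP
      · exact hHQ (Sum.inr ⟨l, hl⟩)
    · exact hHQ (Sum.inl ⟨i, hi⟩)
  · have hne : l ≠ l₀ := fun h => hl (Finset.mem_singleton.mpr h)
    exact hF.2 l j (by rwa [Function.update_of_ne hne])
  · exact hexact.1 l (fun h => hl (Finset.mem_singleton.mpr h))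
  · -- uniqueness
    obtain ⟨l₁, hl₁⟩ := S.two l₀
    obtain ⟨hHP, Θ, hΘ, hΘl, hHΘ⟩ := hH
    have hy := hexact.1 l₁ hl₁
    obtain ⟨y, hyy⟩ : ∃ y, y = fd d (μ l₁) (P l₁) (c l₁) (w l₁) F := ⟨_, rfl⟩
    obtain ⟨x, hxx⟩ : ∃ x, x = fd d (μ l₁) (P l₁) (c l₁) (w l₁) H.1 := ⟨_, rfl⟩
    rw [← hyy] at hy
    have hKFS : H.1 - (x / y) • F ∈ FS d p m P μ c (Function.update w l₀ 0) := by
      refine sub_mem ⟨⟨hHP.1, ?_⟩, fun l j hj => ?_⟩ (Submodule.smul_mem _ _ hF)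
      · rintro (i | l)
        · exact h2 i (Finset.notMem_empty i)
        · exact hHP.2 l
      · by_cases hl : l = l₀
        · rw [hl, Function.update_self] at hj
          omega
        · rw [Function.update_of_ne hl] at hj
          exact h3 l (fun h => hl (Finset.mem_singleton.mp h)) j hj
    have hKres : res (Θ - (x / y) • G) = ld d (μ l₀) (P l₀) (H.1 - (x / y) • F) := by
      rw [map_sub, map_sub, map_smul, map_smul, hΘl, hres]
    have hK0 : H.1 - (x / y) • F = 0 := by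
      by_contra hne
      have h4 := (S.hyb_exact hX hKFS hne ⟨_, sub_mem hΘ (Submodule.smul_mem _ _ hG),
        hKres⟩).1 l₁ hl₁
      apply h4
      rw [map_sub, map_smul, ← hxx, ← hyy, smul_eq_mul, div_mul_cancel₀ _ hy, sub_self]
    have hΘ0 : Θ - (x / y) • G = 0 :=
      hWinj _ (sub_mem hΘ (Submodule.smul_mem _ _ hG)) (by rw [hKres, hK0, map_zero])
    refine ⟨x / y, Prod.ext ?_ ?_⟩
    · exact sub_eq_zero.mp hK0
    · rw [hHΘ, sub_eq_zero.mp hΘ0, map_smul]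
      rfl
  · -- dimension
    have hA : linSys d (Sum.elim p P) (Sum.elim m μ) ≤ Rd d := linSys_le _ _ _
    have hV : ∀ H, H ∈ VV d (fun i : {i // i ∉ (∅ : Finset ι)} => p i.1)
        (BBh d (μ l₀) P μ (P l₀) (linSys (μ l₀) ζ (v l₀)) L) (fun i => m i.1) ↔
        H.1 ∈ linSys d (Sum.elim p P) (Sum.elim m μ) ∧ ∃ Θ ∈ linSys (μ l₀) ζ (v l₀),
          res Θ = ld d (μ l₀) (P l₀) H.1 ∧ H.2 = L Θ := by
      intro H
      rw [mem_VV]
      constructor
      · rintro ⟨⟨h2, h3⟩, h4⟩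
        refine ⟨⟨h2.1, ?_⟩, h3⟩
        rintro (i | l)
        · exact h4.2 ⟨i, Finset.notMem_empty i⟩
        · exact h2.2 l
      · rintro ⟨h2, h3⟩
        exact ⟨⟨⟨h2.1, fun l => h2.2 (Sum.inr l)⟩, h3⟩, h2.1, fun i => h2.2 (Sum.inl i.1)⟩
    have h2 := finrank_VV_hyb hA (by have := hμd l₀; omega : μ l₀ ≤ d)
      (linSys_le _ _ _) hWinj L hV
    have h3 := S.hN.finrank hg (m := Sum.elim m μ) (by
      rintro (i | l)
      · have := S.hm i
        change m i ≤ M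
        omega
      · have := S.hμ l
        change μ l ≤ M
        omega)
    rw [Fintype.sum_sum_type] at h3
    have h4 := (S.hNv l₀).finrank hgζ (m := v l₀) (fun j => by
      have := S.hv l₀ j
      omega)
    rw [S.crit l₀] at h4
    have h5 := S.hχ
    have h6 := choose_succ_two (μ l₀)
    have h7 : ∑ l ∈ Finset.univ.erase l₀, w l + w l₀ = ∑ l, w l := by
      rw [← Finset.add_sum_erase Finset.univ w (Finset.mem_univ l₀), add_comm]
    rw [← Finset.sum_subtype (Finset.univ.erase l₀) (p := fun l' => l' ∉ ({l₀} : Finset Λ))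
      (fun x => by simp) w]
    have h8 := S.hw l₀
    have h9 := S.hMv l₀
    simp only [Sum.elim_inl, Sum.elim_inr] at h3
    have h2' : finrank ℂ (linSys d (Sum.elim p P) (Sum.elim m μ)) +
        finrank ℂ (linSys (μ l₀) ζ (v l₀)) ≤ _ := h2
    rw [h3, h4] at h2'
    omega

theorem Dat.hyb_bpf (S : Dat d M m μ w s Mv v) {p : ι → V3} {P : Λ → V3} {c : Λ → ℂ} {l₀ : Λ}
    {ζ : Fin (s l₀) → V3} (hX : Ind (Sum.elim (Sum.elim p P) ζ) c) :
    GenericPoints ζ ∧ (∀ j, ζ j 2 ≠ 0) ∧ ∀ {q : V3}, q ≠ 0 → (∀ j, cr (ζ j) q ≠ 0) →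
      ∃ Θ ∈ linSys (μ l₀) ζ (v l₀), eval q Θ ≠ 0 := by
  have hgζ : GenericPoints ζ :=
    AlgebraicIndependent.comp (Ind.generic hX)
      (fun z : Fin (s l₀) × Fin 3 => (Sum.inr z.1, z.2))
      (fun z z' h => by
        simp only [Prod.mk.injEq, Sum.inr.injEq] at h
        exact Prod.ext h.1 h.2)
  refine ⟨hgζ, fun j => hgζ.ne_zero (j, 2), fun {q} hq hqζ => ?_⟩
  refine bpf_point (S.hNv l₀) hgζ (S.hv l₀) (S.hvμ l₀) ?_ hq hqζ
  have h1 := S.crit l₀
  have h2 := S.hw l₀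
  have h3 := choose_succ_two (μ l₀)
  omega

theorem Dat.hyb_neck (S : Dat d M m μ w s Mv v) {p : ι → V3} {P : Λ → V3} {c : Λ → ℂ} {l₀ : Λ}
    {ζ : Fin (s l₀) → V3} (hX : Ind (Sum.elim (Sum.elim p P) ζ) c) {F G : R3}
    (hF : F ∈ FS d p m P μ c (Function.update w l₀ 0)) (hF0 : F ≠ 0)
    (hG : G ∈ linSys (μ l₀) ζ (v l₀)) (hres : res G = ld d (μ l₀) (P l₀) F) :
    NoDouble (res G) := by
  intro y hy
  by_contra hcon
  push Not at hcon
  obtain ⟨hgζ, hζ2, hbpf⟩ := S.hyb_bpf hX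
  refine S.hyb_core hX hF hF0 hG hres (n := 2) (N := μ l₀) (by norm_num) res.toLinearMap
    (fun Θ hΘ => res_hom hΘ.1) (fun D _ Θ => cD_res D Θ) (q := y) hy ?_ ?_ hcon
  · have hq : (![y 0, y 1, 0] : V3) ≠ 0 := by
      intro h
      apply hy
      ext i
      fin_cases i
      · exact congrFun h 0
      · exact congrFun h 1
    obtain ⟨Θ, hΘ, hΘq⟩ := hbpf hq (fun j h => by
      apply hq
      have e0 := congrFun h 0
      have e1 := congrFun h 1
      simp only [cr, Matrix.cons_val_zero, Matrix.cons_val_one, Pi.zero_apply, Matrix.cons_val,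
        mul_zero, zero_sub, sub_zero, neg_eq_zero, mul_eq_zero, hζ2 j, false_or] at e0 e1
      rw [e0, e1]
      ext i
      fin_cases i <;> rfl)
    exact ⟨Θ, hΘ, by
      change eval y (res Θ) ≠ 0
      rwa [eval_res]⟩
  · have h1 := congrArg (eval y) (res_hom hG.1).sum_X_mul_pderiv
    rw [map_sum, Finset.sum_eq_zero (fun k _ => by rw [map_mul, hcon k, mul_zero]), map_nsmul,
      nsmul_eq_mul] at h1
    have h3 : ((μ l₀ : ℕ) : ℂ) ≠ 0 := by
      rw [Nat.cast_ne_zero]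
      have := S.hvμ l₀
      have := S.hMv l₀
      omega
    exact (mul_eq_zero.mp h1.symm).resolve_left h3

theorem Dat.hyb_not_bad (S : Dat d M m μ w s Mv v) {p : ι → V3} {P : Λ → V3} {c : Λ → ℂ} {l₀ : Λ}
    {ζ : Fin (s l₀) → V3} (hX : Ind (Sum.elim (Sum.elim p P) ζ) c) {F G : R3}
    (hF : F ∈ FS d p m P μ c (Function.update w l₀ 0)) (hF0 : F ≠ 0)
    (hG : G ∈ linSys (μ l₀) ζ (v l₀)) (hres : res G = ld d (μ l₀) (P l₀) F) :
    ¬ Bad (μ l₀) ζ (v l₀) G := by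
  obtain ⟨hgζ, hζ2, hbpf⟩ := S.hyb_bpf hX
  have hvμ := S.hvμ l₀
  have hMv := S.hMv l₀
  rintro (⟨q, hq0, hqp, hgrad⟩ | ⟨j, u, hu, hbad⟩)
  · refine S.hyb_core hX hF hF0 hG hres (n := 3) (N := μ l₀) le_rfl LinearMap.id
      (fun Θ hΘ => hΘ.1) (fun D _ Θ => rfl) (q := q) hq0 ?_ ?_ hgrad
    · exact hbpf hq0 hqp
    · have h1 := congrArg (eval q) hG.1.sum_X_mul_pderiv
      rw [map_sum, Finset.sum_eq_zero (fun k _ => by rw [map_mul, hgrad k, mul_zero]), map_nsmul,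
        nsmul_eq_mul] at h1
      have h3 : ((μ l₀ : ℕ) : ℂ) ≠ 0 := by
        rw [Nat.cast_ne_zero]
        omega
      exact (mul_eq_zero.mp h1.symm).resolve_left h3
  · have hvj := S.hv l₀ j
    have hvd : v l₀ j ≤ μ l₀ := by omega
    have hq : pr (ζ j) u ≠ 0 := fun h => hu ((pr_eq_zero (hζ2 j)).mp h)
    have hb := (badDir_iff hG.1 (hζ2 j) hvd (hG.2 j)).mp hbad
    refine S.hyb_core hX hF hF0 hG hres (n := 2) (N := v l₀ j) (by norm_num)
      (ld (μ l₀) (v l₀ j) (ζ j)) (fun Θ hΘ => ld_hom hΘ.1 hvd _)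
      (fun D hD Θ => cD_ld D (hD j) _ _ Θ) hq ?_ hb.1 hb.2
    obtain ⟨k, hk⟩ : ∃ k, pr (ζ j) u k ≠ 0 := by
      by_contra hcon
      push Not at hcon
      exact hq (funext hcon)
    have hβ : (X k ^ v l₀ j : R2).IsHomogeneous (v l₀ j) := by
      have h := (isHomogeneous_X ℂ k).pow (v l₀ j)
      rwa [one_mul] at h
    obtain ⟨Θ, hΘ, hΘl⟩ := exists_of_NSp (S.hNv l₀) hgζ (y := v l₀) j
      (fun j' => by have := S.hv l₀ j'; omega) hvj hvd (by
        have h1 := S.crit l₀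
        have h2 := S.hw l₀
        have h3 := choose_succ_two (μ l₀)
        omega) hβ
    refine ⟨Θ, hΘ, ?_⟩
    rw [hΘl, map_pow, eval_X]
    exact pow_ne_zero _ hk

end levels

end Pool.Agent.Work.MP_0421d9_ag.ZC
end

section
/-!
Collisions of generic points: the clusters level.
-/

set_option linter.unusedSectionVars false
set_option linter.unusedVariables false

namespace Pool.Agent.Work.MP_0421d9_ag.ZC

open MvPolynomial Module SM

theorem exists_generic_fam (κ : Type) [Finite κ] : ∃ p : κ → V3, GenericPoints p := by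
  obtain ⟨N, ⟨e⟩⟩ := Finite.exists_equiv_fin κ
  obtain ⟨p, hp⟩ := LD.exists_generic N
  refine ⟨fun i => p (e i), ?_⟩
  exact hp.comp (fun z : κ × Fin 3 => (e z.1, z.2)) (fun z z' h => by
    rw [Prod.mk.injEq] at h
    exact Prod.ext (e.injective h.1) h.2)

theorem exists_ind (κ κ' : Type) [Finite κ] [Finite κ'] :
    ∃ (p : κ → V3) (e : κ' → ℂ), Ind p e := by
  obtain ⟨p, hp⟩ := exists_generic_fam κ
  obtain ⟨e, he⟩ := algInd_extend (β := κ') hp
  exact ⟨p, e, he⟩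

theorem ind_of_generic {κ : Type} {p : κ → V3} (hp : GenericPoints p) (e : Empty → ℂ) :
    Ind p e := by
  have h1 := AlgebraicIndependent.comp hp (Sum.elim id Empty.elim) (by
    rintro (x | x) (y | y) h
    · exact congrArg Sum.inl h
    · exact y.elim
    · exact x.elim
    · exact x.elim)
  have h2 : (fun z : κ × Fin 3 => p z.1 z.2) ∘ (Sum.elim id Empty.elim : (κ × Fin 3) ⊕ Empty → _) =
      Sum.elim (fun z : κ × Fin 3 => p z.1 z.2) e := by
    funext z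
    rcases z with z | z
    · rfl
    · exact z.elim
  rw [h2] at h1
  exact h1

/-- parts of independent families -/
theorem ind_comp {κ₁ κ₂ κ₁' κ₂' : Type} {p : κ₁ → V3} {e : κ₂ → ℂ} (h : Ind p e)
    (f : κ₁' → κ₁) (hf : Function.Injective f) (g : κ₂' → κ₂) (hg : Function.Injective g) :
    Ind (fun i => p (f i)) (fun j => e (g j)) := by
  have h1 := AlgebraicIndependent.comp h
    (Sum.map (fun z : κ₁' × Fin 3 => (f z.1, z.2)) g) (by
      rintro (⟨x, k⟩ | x) (⟨y, l⟩ | y) hxy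
      · simp only [Sum.map_inl, Sum.inl.injEq, Prod.mk.injEq] at hxy
        rw [hf hxy.1, hxy.2]
      · simp at hxy
      · simp at hxy
      · simp only [Sum.map_inr, Sum.inr.injEq] at hxy
        rw [hg hxy])
  have h2 : Sum.elim (fun z : κ₁ × Fin 3 => p z.1 z.2) e ∘
      Sum.map (fun z : κ₁' × Fin 3 => (f z.1, z.2)) g =
      Sum.elim (fun z : κ₁' × Fin 3 => p (f z.1) z.2) (fun j => e (g j)) := by
    funext z
    rcases z with z | z <;> rfl
  rw [h2] at h1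
  exact h1

section levels

variable {ι Λ : Type} [Fintype ι] [Fintype Λ] [DecidableEq ι] [DecidableEq Λ] {d M : ℕ}
  {m : ι → ℕ} {μ w s Mv : Λ → ℕ} {v : ∀ l, Fin (s l) → ℕ}

theorem ld_C_mul (d k : ℕ) (P : V3) (a : ℂ) (F : R3) : ld d k P (C a * F) = C a * ld d k P F := by
  rw [← smul_eq_C_mul, map_smul, smul_eq_C_mul]

theorem res_C_mul (a : ℂ) (F : R3) : res (C a * F) = C a * res F := by
  rw [map_mul, res_C]

theorem Dat.le_mu (S : Dat d M m μ w s Mv v) (l : Λ) : 2 ≤ μ l ∧ w l ≤ μ l ∧ Mv l ≤ μ l ∧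
    μ l ≤ d ∧ μ l + 1 ≤ d := by
  have h1 := S.hvμ l
  have h2 := S.hMv l
  have h3 := S.hw l
  have h4 := S.hμ l
  have h5 := S.hd
  refine ⟨?_, ?_, ?_, ?_, ?_⟩ <;> omega

/-- all the clusters become flags -/
theorem Dat.to_flag (S : Dat d M m μ w s Mv v) {p : ι → V3} {P : Λ → V3}
    {ζ : (Σ l, Fin (s l)) → V3} (hX : GenericPoints (Sum.elim (Sum.elim p P) ζ)) {F : R3}
    (hF : F ∈ linSys d (Sum.elim p P) (Sum.elim m μ)) (hF0 : F ≠ 0) {G : Λ → R3}
    (hG : ∀ l, G l ∈ linSys (μ l) (fun j => ζ ⟨l, j⟩) (v l))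
    (hres : ∀ l, res (G l) = ld d (μ l) (P l) F) :
    ∃ (ρ : Pl) (p' : ι → V3) (P' : Λ → V3) (c' : Λ → ℂ) (a : ℂ) (F' : R3),
      Ind (Sum.elim p' P') c' ∧ (∀ i k, ρ.L (p i k) (p' i k)) ∧ (∀ l k, ρ.L (P l k) (P' l k)) ∧
      a ≠ 0 ∧ ρ.LP (C a * F) F' ∧ F' ≠ 0 ∧ F' ∈ FS d p' m P' μ c' w := by
  obtain ⟨g, e, hg⟩ := exists_ind ((ι ⊕ Λ) ⊕ (Σ l, Fin (s l))) (Λ ⊕ Unit)
  obtain ⟨ρ, t, c, ξ, ht0, ht, hpp, -, hcc, hξ, hξζ⟩ := exists_flag_place
    (ind_of_generic hX Empty.elim) (fun x => g (Sum.inl x)) Empty.elim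
    (fun l => e (Sum.inl l))
    (fun x => ![g (Sum.inr x) 1, g (Sum.inr x) 0 - e (Sum.inr ()) * g (Sum.inr x) 1,
      g (Sum.inr x) 2])
  obtain ⟨a, ha, F', hF'0, hlim⟩ := Pl.exists_scale_poly ρ hF0
  have hpL : ∀ i k, ρ.L (p i k) (g (Sum.inl (Sum.inl i)) k) := fun i k => hpp (Sum.inl i) k
  have hPL : ∀ l k, ρ.L (P l k) (g (Sum.inl (Sum.inr l)) k) := fun l k => hpp (Sum.inr l) k
  refine ⟨ρ, fun i => g (Sum.inl (Sum.inl i)), fun l => g (Sum.inl (Sum.inr l)),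
    fun l => e (Sum.inl l), a, F', ?_, hpL, hPL, ha, hlim, hF'0, ?_, ?_⟩
  · have h1 := ind_comp hg (fun x : ι ⊕ Λ => Sum.inl x) Sum.inl_injective
      (fun l : Λ => Sum.inl l) Sum.inl_injective
    have h2 : (fun x : ι ⊕ Λ => g (Sum.inl x)) = Sum.elim (fun i => g (Sum.inl (Sum.inl i)))
        (fun l => g (Sum.inl (Sum.inr l))) := by
      funext x
      rcases x with x | x <;> rfl
    rwa [h2] at h1
  · refine ⟨hlim.homogeneous (hF.1.C_mul a), ?_⟩
    rintro (i | l)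
    · exact hlim.vanishTo (hF.1.C_mul a) (hpL i) (vanishTo_C_mul (hF.2 (Sum.inl i)) a)
    · exact hlim.vanishTo (hF.1.C_mul a) (hPL l) (vanishTo_C_mul (hF.2 (Sum.inr l)) a)
  · intro l i hi
    obtain ⟨h1, h2, h3, h4, h5⟩ := S.le_mu l
    have hb : Ind (fun j => g (Sum.inr ⟨l, j⟩)) (fun _ : Unit => e (Sum.inr ())) :=
      ind_comp hg (fun j : Fin (s l) => Sum.inr ⟨l, j⟩) (fun j j' h => by
        simpa using h) (fun x : Unit => Sum.inr x) Sum.inr_injective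
    exact spec_flag (S.hNv l) (S.hNv' l) (fun j => by have := S.hv l j; omega) h3 (S.hMv l)
      (S.crit l) h2 hb ht0 ht (hcc l) (ζ := fun j => ζ ⟨l, j⟩) (ξ := fun j => ξ ⟨l, j⟩)
      (fun x k => hξ ⟨l, x⟩ k) (fun x => hξζ ⟨l, x⟩)
      ⟨C a * G l, linSys_C_mul (hG l) a, rfl⟩ (by
        rw [res_C_mul, hres l, ← ld_C_mul]
        exact LP_ld ρ (hPL l) hlim d (μ l)) i hi

/-- the clusters different from `l₀` become flags -/
theorem Dat.to_hyb (S : Dat d M m μ w s Mv v) {p : ι → V3} {P : Λ → V3}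
    {ζ : (Σ l, Fin (s l)) → V3} (hX : GenericPoints (Sum.elim (Sum.elim p P) ζ)) {F : R3}
    (hF : F ∈ linSys d (Sum.elim p P) (Sum.elim m μ)) (hF0 : F ≠ 0) {G : Λ → R3}
    (hG : ∀ l, G l ∈ linSys (μ l) (fun j => ζ ⟨l, j⟩) (v l))
    (hres : ∀ l, res (G l) = ld d (μ l) (P l) F) (l₀ : Λ) :
    ∃ (ρ : Pl) (p' : ι → V3) (P' : Λ → V3) (c' : Λ → ℂ) (ζ' : Fin (s l₀) → V3) (a : ℂ)
      (F' G' : R3), Ind (Sum.elim (Sum.elim p' P') ζ') c' ∧ (∀ l k, ρ.L (P l k) (P' l k)) ∧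
      (∀ j k, ρ.L (ζ ⟨l₀, j⟩ k) (ζ' j k)) ∧ (∀ j, ζ' j 2 ≠ 0) ∧ a ≠ 0 ∧ ρ.LP (C a * F) F' ∧
      F' ≠ 0 ∧ F' ∈ FS d p' m P' μ c' (Function.update w l₀ 0) ∧ ρ.LP (C a * G l₀) G' ∧
      G' ∈ linSys (μ l₀) ζ' (v l₀) ∧ res G' = ld d (μ l₀) (P' l₀) F' := by
  obtain ⟨g, e, hg⟩ := exists_ind ((ι ⊕ Λ) ⊕ (Σ l, Fin (s l))) (Λ ⊕ Unit)
  have hX' : GenericPoints (Sum.elim (Sum.elim (Sum.elim p P) (fun j => ζ ⟨l₀, j⟩))
      (fun x : (Σ l : {l // l ≠ l₀}, Fin (s l.1)) => ζ ⟨x.1.1, x.2⟩)) := by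
    have h1 : Function.Injective (fun z : (((ι ⊕ Λ) ⊕ Fin (s l₀)) ⊕
        (Σ l : {l // l ≠ l₀}, Fin (s l.1))) × Fin 3 =>
        ((Sum.elim (Sum.elim Sum.inl (fun j => Sum.inr ⟨l₀, j⟩))
          (fun x => Sum.inr ⟨x.1.1, x.2⟩) z.1 : (ι ⊕ Λ) ⊕ (Σ l, Fin (s l))), z.2)) := by
      rintro ⟨((x | x) | ⟨⟨x, hx⟩, j⟩), k⟩ ⟨((y | y) | ⟨⟨y, hy⟩, j'⟩), k'⟩ h
      · simp only [Sum.elim_inl, Prod.mk.injEq, Sum.inl.injEq] at h
        rw [h.1, h.2]
      · simp at h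
      · simp at h
      · simp at h
      · simp only [Sum.elim_inl, Sum.elim_inr, Prod.mk.injEq, Sum.inr.injEq, Sigma.mk.injEq,
          heq_eq_eq, true_and] at h
        rw [h.1, h.2]
      · simp only [Sum.elim_inl, Sum.elim_inr, Prod.mk.injEq, Sum.inr.injEq,
          Sigma.mk.injEq] at h
        exact absurd h.1.1.symm hy
      · simp at h
      · simp only [Sum.elim_inl, Sum.elim_inr, Prod.mk.injEq, Sum.inr.injEq,
          Sigma.mk.injEq] at h
        exact absurd h.1.1 hx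
      · simp only [Sum.elim_inr, Prod.mk.injEq, Sum.inr.injEq, Sigma.mk.injEq] at h
        obtain ⟨⟨h1, h2⟩, h3⟩ := h
        subst h1
        rw [eq_of_heq h2, h3]
    have h2 := AlgebraicIndependent.comp hX _ h1
    have h3 : (fun z : ((ι ⊕ Λ) ⊕ (Σ l, Fin (s l))) × Fin 3 => Sum.elim (Sum.elim p P) ζ z.1 z.2) ∘
        (fun z : (((ι ⊕ Λ) ⊕ Fin (s l₀)) ⊕ (Σ l : {l // l ≠ l₀}, Fin (s l.1))) × Fin 3 =>
        ((Sum.elim (Sum.elim Sum.inl (fun j => Sum.inr ⟨l₀, j⟩))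
          (fun x => Sum.inr ⟨x.1.1, x.2⟩) z.1 : (ι ⊕ Λ) ⊕ (Σ l, Fin (s l))), z.2)) =
        fun z => Sum.elim (Sum.elim (Sum.elim p P) (fun j => ζ ⟨l₀, j⟩))
          (fun x : (Σ l : {l // l ≠ l₀}, Fin (s l.1)) => ζ ⟨x.1.1, x.2⟩) z.1 z.2 := by
      funext z
      obtain ⟨((x | x) | x), k⟩ := z <;> rfl
    rw [h3] at h2
    exact h2
  obtain ⟨ρ, t, c, ξ, ht0, ht, hpp, -, hcc, hξ, hξζ⟩ := exists_flag_place
    (ind_of_generic hX' Empty.elim)
    (Sum.elim (fun x => g (Sum.inl x)) (fun j => g (Sum.inr ⟨l₀, j⟩))) Empty.elim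
    (fun l => e (Sum.inl l.1))
    (fun x => ![g (Sum.inr ⟨x.1.1, x.2⟩) 1, g (Sum.inr ⟨x.1.1, x.2⟩) 0 -
      e (Sum.inr ()) * g (Sum.inr ⟨x.1.1, x.2⟩) 1, g (Sum.inr ⟨x.1.1, x.2⟩) 2])
  obtain ⟨a, ha, F', hF'0, hlim⟩ := Pl.exists_scale_poly ρ hF0
  have hpL : ∀ i k, ρ.L (p i k) (g (Sum.inl (Sum.inl i)) k) :=
    fun i k => hpp (Sum.inl (Sum.inl i)) k
  have hPL : ∀ l k, ρ.L (P l k) (g (Sum.inl (Sum.inr l)) k) :=
    fun l k => hpp (Sum.inl (Sum.inr l)) k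
  have hζL : ∀ j k, ρ.L (ζ ⟨l₀, j⟩ k) (g (Sum.inr ⟨l₀, j⟩) k) := fun j k => hpp (Sum.inr j) k
  have hne : ∀ x, g x 2 ≠ 0 := fun x => (Ind.generic hg).ne_zero (x, 2)
  have hlimld : ∀ l, ρ.LP (C a * res (G l)) (ld d (μ l) (g (Sum.inl (Sum.inr l))) F') := by
    intro l
    rw [hres l, ← ld_C_mul]
    exact LP_ld ρ (hPL l) hlim d (μ l)
  obtain ⟨hμ2, hwμ, hMμ, hμd, hμd'⟩ := S.le_mu l₀
  have hlow : linSys (μ l₀ - 1) (fun j => g (Sum.inr ⟨l₀, j⟩)) (v l₀) = ⊥ := by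
    refine linSys_eq_bot (S.hNv' l₀) ?_ (fun j => ?_) ?_
    · exact AlgebraicIndependent.comp (Ind.generic hg)
        (fun z : Fin (s l₀) × Fin 3 => (Sum.inr ⟨l₀, z.1⟩, z.2)) (fun z z' h => by
        simp only [Prod.mk.injEq, Sum.inr.injEq, Sigma.mk.injEq, heq_eq_eq, true_and] at h
        exact Prod.ext h.1 h.2)
    · have := S.hv l₀ j
      omega
    · have h1 := S.crit l₀
      have h3 : μ l₀ - 1 + 2 = μ l₀ + 1 := by omega
      rw [h3, h1]
      exact Nat.le_add_right _ _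
  have hlinG : ∀ (b : ℂ) (K : R3), ρ.LP (C b * G l₀) K →
      K ∈ linSys (μ l₀) (fun j => g (Sum.inr ⟨l₀, j⟩)) (v l₀) := fun b K hK =>
    hK.linSys hζL (linSys_C_mul (hG l₀) b)
  obtain ⟨G', hG'⟩ : ∃ G', ρ.LP (C a * G l₀) G' := by
    by_cases hG0 : G l₀ = 0
    · refine ⟨0, ?_⟩
      rw [hG0, mul_zero]
      exact Pl.LP_zero
    · obtain ⟨b, hb, G₂, hG₂0, hLG₂⟩ := Pl.exists_scale_poly ρ hG0
      rcases ρ.tot (a / b) with ⟨κ, hκ⟩ | hκ
      · refine ⟨C κ * G₂, ?_⟩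
        have h1 := hLG₂.C_mul hκ
        have e1 : C (a / b) * (C b * G l₀) = C a * G l₀ := by
          rw [← mul_assoc, ← map_mul, div_mul_cancel₀ _ hb]
        rwa [e1] at h1
      · exfalso
        have h1 := (hlimld l₀).C_mul hκ
        have e1 : C (a / b)⁻¹ * (C a * res (G l₀)) = res (C b * G l₀) := by
          rw [res_C_mul, ← mul_assoc, ← map_mul, inv_div, div_mul_cancel₀ _ ha]
        rw [e1, C_0, zero_mul] at h1
        have h2 : ρ.LP (res (C b * G l₀)) (res G₂) := by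
          unfold res
          refine hLG₂.aeval fun i => ?_
          fin_cases i
          · exact Pl.LP_X 0
          · exact Pl.LP_X 1
          · exact Pl.LP_zero
        have h3 := Pl.LP.fn h2 h1
        exact hG₂0 (eq_zero_of_res (fun j => hne _) hlow (hlinG b G₂ hLG₂) h3)
  refine ⟨ρ, fun i => g (Sum.inl (Sum.inl i)), fun l => g (Sum.inl (Sum.inr l)),
    fun l => e (Sum.inl l), fun j => g (Sum.inr ⟨l₀, j⟩), a, F', G', ?_, hPL, hζL,
    fun j => hne _, ha, hlim, hF'0, ⟨?_, ?_⟩, hG', hlinG a G' hG', ?_⟩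
  · have h1 := ind_comp hg
      (Sum.elim Sum.inl (fun j : Fin (s l₀) => Sum.inr ⟨l₀, j⟩) :
        (ι ⊕ Λ) ⊕ Fin (s l₀) → (ι ⊕ Λ) ⊕ (Σ l, Fin (s l))) (by
        rintro (x | x) (y | y) h
        · exact congrArg Sum.inl (Sum.inl_injective h)
        · simp at h
        · simp at h
        · simp only [Sum.elim_inr, Sum.inr.injEq, Sigma.mk.injEq, heq_eq_eq, true_and] at h
          rw [h])
      (fun l : Λ => Sum.inl l) Sum.inl_injective
    have h2 : (fun x => g ((Sum.elim Sum.inl (fun j : Fin (s l₀) => Sum.inr ⟨l₀, j⟩) :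
        (ι ⊕ Λ) ⊕ Fin (s l₀) → (ι ⊕ Λ) ⊕ (Σ l, Fin (s l))) x)) =
        Sum.elim (Sum.elim (fun i => g (Sum.inl (Sum.inl i)))
        (fun l => g (Sum.inl (Sum.inr l)))) (fun j => g (Sum.inr ⟨l₀, j⟩)) := by
      funext x
      rcases x with (x | x) | x <;> rfl
    rwa [h2] at h1
  · refine ⟨hlim.homogeneous (hF.1.C_mul a), ?_⟩
    rintro (i | l)
    · exact hlim.vanishTo (hF.1.C_mul a) (hpL i) (vanishTo_C_mul (hF.2 (Sum.inl i)) a)
    · exact hlim.vanishTo (hF.1.C_mul a) (hPL l) (vanishTo_C_mul (hF.2 (Sum.inr l)) a)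
  · intro l i hi
    by_cases hl : l = l₀
    · rw [hl, Function.update_self] at hi
      omega
    · rw [Function.update_of_ne hl] at hi
      obtain ⟨h1, h2, h3, h4, h5⟩ := S.le_mu l
      have hb : Ind (fun j => g (Sum.inr ⟨l, j⟩)) (fun _ : Unit => e (Sum.inr ())) :=
        ind_comp hg (fun j : Fin (s l) => Sum.inr ⟨l, j⟩) (fun j j' h => by
          simpa using h) (fun x : Unit => Sum.inr x) Sum.inr_injective
      exact spec_flag (S.hNv l) (S.hNv' l) (fun j => by have := S.hv l j; omega) h3 (S.hMv l)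
        (S.crit l) h2 hb ht0 ht (hcc ⟨l, hl⟩) (ζ := fun j => ζ ⟨l, j⟩)
        (ξ := fun j => ξ ⟨⟨l, hl⟩, j⟩)
        (fun x k => hξ ⟨⟨l, hl⟩, x⟩ k) (fun x => hξζ ⟨⟨l, hl⟩, x⟩)
        ⟨C a * G l, linSys_C_mul (hG l) a, rfl⟩ (by
          rw [res_C_mul]
          exact hlimld l) i hi
  · have h2 : ρ.LP (res (C a * G l₀)) (res G') := by
      unfold res
      refine hG'.aeval fun i => ?_
      fin_cases i
      · exact Pl.LP_X 0
      · exact Pl.LP_X 1
      · exact Pl.LP_zero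
    rw [res_C_mul] at h2
    exact Pl.LP.fn h2 (hlimld l₀)

/-- **The clusters level.** -/
theorem Dat.w_good [Nonempty Λ] (S : Dat d M m μ w s Mv v) {p : ι → V3} {P : Λ → V3}
    {ζ : (Σ l, Fin (s l)) → V3} (hX : GenericPoints (Sum.elim (Sum.elim p P) ζ)) {F : R3}
    (hF : F ∈ linSys d (Sum.elim p P) (Sum.elim m μ)) (hF0 : F ≠ 0) {G : Λ → R3}
    (hG : ∀ l, G l ∈ linSys (μ l) (fun j => ζ ⟨l, j⟩) (v l))
    (hres : ∀ l, res (G l) = ld d (μ l) (P l) F) :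
    ¬ Sing (Sum.elim p P) F ∧ ¬ Tang d p m F ∧ ∀ l, ld d (μ l) (P l) F ≠ 0 ∧
      NoDouble (ld d (μ l) (P l) F) ∧ ¬ Bad (μ l) (fun j => ζ ⟨l, j⟩) (v l) (G l) := by
  have hd1 : 1 ≤ d := by
    obtain ⟨l⟩ := ‹Nonempty Λ›
    have h := S.le_mu l
    omega
  obtain ⟨ρ, p', P', c', a, F', hI, hpL, hPL, ha, hlim, hF'0, hFS⟩ := S.to_flag hX hF hF0 hG hres
  have hmd : ∀ i, m i ≤ d := fun i => by
    have h1 := S.hm i
    have h2 := S.hd
    omega
  have hX2 : ∀ x, Sum.elim p P x 2 ≠ 0 := fun x => hX.ne_zero (Sum.inl x, 2)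
  have hp'0 : ∀ x, Sum.elim p' P' x 2 ≠ 0 := fun x => (Ind.generic hI).ne_zero (x, 2)
  refine ⟨?_, ?_, fun l => ?_⟩
  · rintro ⟨q, hq0, hqp, hgrad⟩
    obtain ⟨e, he, b, hb0, hqb⟩ := ρ.exists_scale_vec q hq0
    obtain ⟨q', hq'⟩ : ∃ q' : V3, q' = e • q := ⟨_, rfl⟩
    have hgrad' : ∀ k, eval q' (pderiv k F) = 0 := by
      intro k
      rw [hq', eval_smul_of_hom hF.1.pderiv, hgrad k, mul_zero]
    have hqp' : ∀ i, cr (Sum.elim p P i) q' ≠ 0 := by
      intro i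
      rw [hq', cr_smul_right]
      exact smul_ne_zero he (hqp i)
    have hqb' : ∀ k, ρ.L (q' k) (b k) := by
      intro k
      rw [hq']
      exact hqb k
    by_cases hl : ∃ l, cr (P' l) b = 0
    · obtain ⟨l, hl⟩ := hl
      obtain ⟨h1, h2, h3, h4, h5⟩ := S.le_mu l
      obtain ⟨y, hy0, hy1, hy2⟩ := next_order ρ (hX2 (Sum.inr l)) (hp'0 (Sum.inr l)) (hPL l)
        (hF.1.C_mul a) h5 hlim (vanishTo_C_mul (hF.2 (Sum.inr l)) a) hqb' hb0 hl
        (hqp' (Sum.inr l)) (sing_C_mul hgrad' a)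
      have h6 := S.flag_dir hI hFS hF'0 hy0 hy1
      have h7 : y 1 ≠ 0 := by
        intro h7
        apply hy0
        ext i
        fin_cases i
        · change y 0 = 0
          rw [h6, h7, mul_zero]
        · exact h7
      have h8 : y = y 1 • (![c' l, 1] : V2) := by
        ext i
        fin_cases i
        · change y 0 = y 1 * c' l
          rw [h6, mul_comm]
        · change y 1 = y 1 * 1
          rw [mul_one]
      rw [h8, eval_smul_of_hom (ld_hom hFS.1.1 h5 _)] at hy2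
      exact S.flag_next hI hFS hF'0 l ((mul_eq_zero.mp hy2).resolve_left (pow_ne_zero _ h7))
    · push Not at hl
      by_cases hi : ∃ i, cr (p' i) b = 0
      · obtain ⟨i, hi⟩ := hi
        have hp'i : p' i ≠ 0 := fun h => hp'0 (Sum.inl i) (by
          change p' i 2 = 0
          rw [h]; rfl)
        obtain ⟨u, hu, hbu⟩ := sing_spec ρ (hF.1.C_mul a) hd1 (hmd i) hlim (hpL i) hqb' hp'i
          hb0 (vanishTo_C_mul (hF.2 (Sum.inl i)) a) (hqp' (Sum.inl i)) hi (sing_C_mul hgrad' a)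
        exact S.flag_tang hI hFS hF'0 ⟨i, u, hu, hbu⟩
      · push Not at hi
        refine S.flag_sing hI hFS hF'0 ⟨b, hb0, ?_, ?_⟩
        · rintro (i | l)
          · exact hi i
          · exact hl l
        · intro k
          have h1 := (hlim.pderiv k).eval hqb'
          rw [sing_C_mul hgrad' a k] at h1
          exact ρ.fn h1 (Pl.zero ρ)
  · rintro ⟨i, u, hu, hbad⟩
    have hp'i : p' i ≠ 0 := fun h => hp'0 (Sum.inl i) (by
      change p' i 2 = 0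
      rw [h]; rfl)
    obtain ⟨u', hu', hbu⟩ := tang_spec ρ (hF.1.C_mul a) (hmd i) hlim (hpL i) hp'i
      (vanishTo_C_mul (hF.2 (Sum.inl i)) a) hu (badDir_C_mul hbad a)
    exact S.flag_tang hI hFS hF'0 ⟨i, u', hu', hbu⟩
  · obtain ⟨h1, h2, h3, h4, h5⟩ := S.le_mu l
    have hld : ld d (μ l) (P l) F ≠ 0 := by
      intro h0
      apply S.flag_exact hI hFS hF'0 l
      have h6 := LP_ld ρ (hPL l) hlim d (μ l)
      rw [ld_C_mul, h0, mul_zero] at h6
      have h7 := Pl.LP.fn h6 Pl.LP_zero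
      rw [fd_eq, h7, iterate_map_zero, map_zero]
    refine ⟨hld, ?_⟩
    obtain ⟨ρ₂, p₂, P₂, c₂, ζ₂, a₂, F₂, G₂, hI₂, hPL₂, hζL₂, hζ₂, ha₂, hlim₂, hF₂0, hFS₂, hlimG₂,
      hG₂, hres₂⟩ := S.to_hyb hX hF hF0 hG hres l
    have hnd := S.hyb_neck hI₂ hFS₂ hF₂0 hG₂ hres₂
    have hnb := S.hyb_not_bad hI₂ hFS₂ hF₂0 hG₂ hres₂
    constructor
    · intro y hy
      by_contra hcon
      push Not at hcon
      obtain ⟨e, he, z, hz0, hLz⟩ := ρ₂.exists_scale_vec y hy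
      obtain ⟨k, hk⟩ := hnd z hz0
      apply hk
      rw [hres₂]
      have h6 := LP_ld ρ₂ (hPL₂ l) hlim₂ d (μ l)
      rw [ld_C_mul] at h6
      have h7 := (h6.pderiv k).eval (a := e • y) (b := z) hLz
      have h8 : eval (e • y) (pderiv k (C a₂ * ld d (μ l) (P l) F)) = 0 := by
        rw [pderiv_C_mul, map_mul, eval_smul_of_hom (ld_hom hF.1 h4 _).pderiv, hcon k, mul_zero,
          mul_zero]
      rw [h8] at h7
      exact ρ₂.fn h7 (Pl.zero ρ₂)
    · intro hb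
      apply hnb
      have hb' : Bad (μ l) (fun j => ζ ⟨l, j⟩) (v l) (C a₂ * G l) := by
        rcases hb with ⟨q, hq0, hq1, hq2⟩ | ⟨i, u, hu, hb⟩
        · exact Or.inl ⟨q, hq0, hq1, sing_C_mul hq2 a₂⟩
        · exact Or.inr ⟨i, u, hu, badDir_C_mul hb a₂⟩
      exact bad_spec ρ₂ (by omega) (fun j => by have := S.hv l j; omega)
        (linSys_C_mul (hG l) a₂) hlimG₂ hζL₂ (fun j h => hζ₂ j (by rw [h]; rfl)) hb'

end levels

end Pool.Agent.Work.MP_0421d9_ag.ZC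
end

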