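import Pool.Agent.Work.Z0421M.C18
import Pool.Agent.Work.Z0421M.C25
import Pool.Agent.Work.Z0421M.C40
import Pool.Agent.Work.Z0421M.C42
import Pool.Agent.Work.Z0421M.C46
import Pool.Agent.Work.Z0421M.C47

section
/-!
Systems whose class has large intersection with all the exceptional classes.
-/

namespace Pool.Agent.Work.MP_0421d9_ag.LD

open MvPolynomial Module

/-- the intersection with an exceptional class of degree `e` is at least `τ e` -/
def FarN {N : ℕ} (τ D : ℕ) (a : Fin N → ℕ) : Prop :=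
  ∀ e c, ExcN e c → ∑ i, (a i : ℤ) * c i + τ * e ≤ D * e

theorem FarN.nef {N τ D : ℕ} {a : Fin N → ℕ} (h : FarN τ D a) {v : ℕ} (hv : v ≤ τ) (hD : v ≤ D) :
    NefN (D - v) a := by
  intro e c hc
  have h1 := h e c hc
  have h2 := hc.nonneg
  rw [Nat.cast_sub hD]
  have h3 : (v : ℤ) * e ≤ τ * e := mul_le_mul_of_nonneg_right (by exact_mod_cast hv) h2
  linarith

theorem FarN.mono {N τ τ' D : ℕ} {a : Fin N → ℕ} (h : FarN τ D a) (ht : τ' ≤ τ) :
    FarN τ' D a := by
  intro e c hc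
  have h1 := h e c hc
  have h2 := hc.nonneg
  have h3 : (τ' : ℤ) * e ≤ τ * e := mul_le_mul_of_nonneg_right (by exact_mod_cast ht) h2
  linarith

/-- raising a multiplicity -/
theorem FarN.raise {N τ D : ℕ} {a a' : Fin N → ℕ} (h : FarN (τ + 1) D a) (i : Fin N)
    (hi : a' i ≤ a i + 1) (ha : ∀ j, j ≠ i → a' j = a j) (hi' : a i ≤ a' i) : FarN τ D a' := by
  classical
  intro e c hc
  have h1 := h e c hc
  have h4 := hc.coef_le i
  have h0 := hc.nonneg
  rw [← Finset.add_sum_erase _ _ (Finset.mem_univ i)] at h1 ⊢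
  have h5 : ∑ j ∈ Finset.univ.erase i, (a' j : ℤ) * c j =
      ∑ j ∈ Finset.univ.erase i, (a j : ℤ) * c j := by
    refine Finset.sum_congr rfl (fun j hj => ?_)
    rw [ha j (Finset.ne_of_mem_erase hj)]
  rw [h5]
  have h6 : (a' i : ℤ) * c i ≤ a i * c i + e := by
    rcases Nat.lt_or_ge (a i) (a' i) with h7 | h7
    · have h8 : a' i = a i + 1 := by omega
      rw [h8]
      push_cast
      linarith
    · have h8 : a' i = a i := by omega
      rw [h8]
      linarith
  push_cast at h1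
  linarith

/-- reduced classes with distant pairs -/
theorem far_of_reduced {N : ℕ} (hN : 3 ≤ N) {τ D : ℕ} {a : Fin N → ℕ}
    (hred : ∀ i j k, i ≠ j → i ≠ k → j ≠ k → a i + a j + a k ≤ D)
    (hpair : ∀ i j, i ≠ j → a i + a j + 2 * τ ≤ D) (hK : ∑ i, a i + 18 * τ ≤ 3 * D) :
    FarN τ D a := fun _ _ hc => excN_bound (τ := τ) hN hred hpair hK hc

/-- the multiplicities are not too large -/
theorem FarN.le {N τ D : ℕ} (hN : 3 ≤ N) {a : Fin N → ℕ} (h : FarN τ D a) (i : Fin N) :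
    a i + τ ≤ D := by
  classical
  obtain ⟨j, hij, -⟩ := exists_third hN i i
  have h1 := h _ _ (excN_line hij)
  have h2 : (a i : ℤ) ≤ ∑ l, (a l : ℤ) * (if l ∈ ({i, j} : Finset (Fin N)) then 1 else 0) := by
    refine le_trans (le_of_eq ?_) (Finset.single_le_sum (f := fun l => (a l : ℤ) *
      (if l ∈ ({i, j} : Finset (Fin N)) then 1 else 0)) (fun l _ => ?_) (Finset.mem_univ i))
    · rw [if_pos (Finset.mem_insert_self i _), mul_one]
    · split_ifs
      · rw [mul_one]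
        exact Int.natCast_nonneg _
      · rw [mul_zero]
  rw [mul_one, mul_one] at h1
  have h3 : ((a i + τ : ℕ) : ℤ) ≤ D := by
    push_cast
    linarith
  exact_mod_cast h3

end Pool.Agent.Work.MP_0421d9_ag.LD
end

section
/-!
Three scales of multiplicities: any number of points of arbitrary multiplicities, points of
multiplicity at most `k`, and points of multiplicity at most `u`.
-/

namespace Pool.Agent.Work.MP_0421d9_ag.LD

open MvPolynomial Module

/-- the points in `B` and those of multiplicity greater than `u` -/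
def BU {r : ℕ} (B : Finset (Fin r)) (u : ℕ) (m : Fin r → ℕ) : Finset (Fin r) :=
  Finset.univ.filter (fun i => i ∈ B ∨ u < m i)

theorem onB_onB_of_sub {r : ℕ} {B B' : Finset (Fin r)} (h : B ⊆ B') (m : Fin r → ℕ) :
    onB B (onB B' m) = onB B m := by
  funext i
  unfold onB
  by_cases hi : i ∈ B
  · rw [if_pos hi, if_pos (h hi), if_pos hi]
  · rw [if_neg hi, if_neg hi]

/-- the numbers -/
theorem three_num {u k M d g q : ℕ} (hu : 1 ≤ u) (hMd : M ≤ d)
    (hd : 30 * (u + 1) ^ 2 ≤ d) (hg : g = (d - 4 * (u + 1) ^ 2 + 1 - u - (u + 1).choose 2) / 2)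
    (hq : q = (M - 1) * (u - 1) / g) {N : ℕ}
    (hN : N + ((k + 4 * u ^ 2 + u) * M + 2 * (u + 1) * d) ≤ (d + 2).choose 2) :
    d ≤ 4 * g ∧ (u + 1) * (q + 1) ≤ 4 * (u + 1) ^ 2 ∧
    2 * N + 2 * ((M - 1) * (k - 1)) + 2 * ((M - 1) * (u - 1)) +
      (2 * u + 1) * (d - (u + 1) * (q + 1) + 1) ≤
      (d - (u + 1) * (q + 1) + 2) * (d - (u + 1) * (q + 1) + 1) := by
  have e0 : (u + 1) ^ 2 = u * u + 2 * u + 1 := by ring
  have hc2 : 2 * (u + 1).choose 2 = u * (u + 1) := tr_two_choose u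
  have e2 : u * (u + 1) = u * u + u := by ring
  have huu : 1 * u ≤ u * u := Nat.mul_le_mul_right u hu
  have e9 : u ^ 2 = u * u := sq u
  rw [e9] at hN
  rw [e0] at hd hg ⊢
  have hg4 : d ≤ 4 * g := by omega
  have hg0 : 0 < g := by omega
  have hgq : g * q ≤ (M - 1) * (u - 1) := by
    rw [hq]
    exact Nat.mul_div_le _ _
  have hdq : d * q ≤ 4 * ((M - 1) * (u - 1)) := by
    calc d * q ≤ (4 * g) * q := Nat.mul_le_mul_right q hg4
      _ = 4 * (g * q) := by ring
      _ ≤ 4 * ((M - 1) * (u - 1)) := Nat.mul_le_mul_left 4 hgq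
  have hd0 : 0 < d := by omega
  have hq4 : q ≤ 4 * (u - 1) := by
    have h1 : d * q ≤ d * (4 * (u - 1)) := by
      calc d * q ≤ 4 * ((M - 1) * (u - 1)) := hdq
        _ ≤ 4 * (d * (u - 1)) := Nat.mul_le_mul_left 4 (Nat.mul_le_mul_right _ (by omega))
        _ = d * (4 * (u - 1)) := by ring
    exact Nat.le_of_mul_le_mul_left h1 hd0
  obtain ⟨v, rfl⟩ : ∃ v, u = v + 1 := ⟨u - 1, by omega⟩
  rw [Nat.add_sub_cancel] at hq4 hdq ⊢
  obtain ⟨s, hs⟩ : ∃ s, s = (v + 1 + 1) * (q + 1) := ⟨_, rfl⟩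
  have hs1 : s ≤ (v + 1 + 1) * (4 * v + 1) := by
    rw [hs]
    exact Nat.mul_le_mul_left _ (by omega)
  have e3 : (v + 1 + 1) * (4 * v + 1) = 4 * (v * v) + 9 * v + 2 := by ring
  have e4 : (v + 1) * (v + 1) = v * v + 2 * v + 1 := by ring
  rw [← hs]
  rw [e3] at hs1
  rw [e4] at hd hN ⊢
  have hst : s ≤ 4 * (v * v + 2 * v + 1 + 2 * (v + 1) + 1) := by omega
  refine ⟨hg4, hst, ?_⟩
  obtain ⟨D, hD⟩ : ∃ D, d = D + s := ⟨d - s, by omega⟩
  have e5 : d - s = D := by omega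
  rw [e5]
  have h1 := tr_two_choose (d + 1)
  have e6 : d + 1 + 1 = d + 2 := rfl
  rw [e6] at h1
  -- the product
  have hds : d * s ≤ (v + 2) * (4 * ((M - 1) * v)) + (v + 2) * d := by
    calc d * s = (v + 2) * (d * q) + (v + 2) * d := by rw [hs]; ring
      _ ≤ (v + 2) * (4 * ((M - 1) * v)) + (v + 2) * d :=
        Nat.add_le_add_right (Nat.mul_le_mul_left _ hdq) _
  have e7 : (d + 1) * (d + 2) ≤ (D + 2) * (D + 1) + 2 * (d * s) + 3 * s := by
    rw [hD]
    have e8 : (D + s + 1) * (D + s + 2) + s * s =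
      (D + 2) * (D + 1) + 2 * ((D + s) * s) + 3 * s := by ring
    have := Nat.zero_le (s * s)
    omega
  obtain ⟨P, hP⟩ : ∃ P, P = M - 1 := ⟨_, rfl⟩
  have hPM : P ≤ M := by omega
  rw [← hP] at hds ⊢
  have k1 : P * (k - 1) ≤ k * M := by
    calc P * (k - 1) ≤ M * k := Nat.mul_le_mul hPM (Nat.sub_le _ _)
      _ = k * M := Nat.mul_comm _ _
  have k2 : P * v ≤ v * M := by
    calc P * v ≤ M * v := Nat.mul_le_mul_right v hPM
      _ = v * M := Nat.mul_comm _ _
  have k3 : v * (P * v) ≤ v * v * M := by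
    calc v * (P * v) ≤ v * (v * M) := Nat.mul_le_mul_left v k2
      _ = v * v * M := by ring
  have k4 : (v + 2) * (4 * (P * v)) = 4 * (v * (P * v)) + 8 * (P * v) := by ring
  rw [k4] at hds
  have k5 : (k + 4 * (v * v + 2 * v + 1) + (v + 1)) * M +
      2 * (v + 1 + 1) * d = k * M + 4 * (v * v * M) + 9 * (v * M) + 5 * M +
      2 * (v * d) + 4 * d := by ring
  rw [k5] at hN
  have k6 : (v + 2) * d = v * d + 2 * d := by ring
  rw [k6] at hds
  have k7 : (2 * (v + 1) + 1) * (D + 1) ≤ 2 * (v * d) + 3 * d + 2 * v + 3 := by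
    calc (2 * (v + 1) + 1) * (D + 1) ≤ (2 * (v + 1) + 1) * (d + 1) :=
          Nat.mul_le_mul_left _ (by omega)
      _ = 2 * (v * d) + 3 * d + 2 * v + 3 := by ring
  omega

theorem hPm_anti_of_le {r D : ℕ} {m m' : Fin r → ℕ} (h : ∀ i, m' i ≤ m i) :
    hPm D m ≤ hPm D m' := by
  unfold hPm
  have hfin : Module.Finite ℂ (linSys D (gpt r) m') :=
    Submodule.finiteDimensional_of_le (linSys_le D _ _)
  exact Submodule.finrank_mono (fun F hF => ⟨hF.1, fun i => (hF.2 i).mono (h i)⟩)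

/-- a subset of the middle points which leaves little room -/
theorem exists_maximal_subset {ι : Type} [DecidableEq ι] (C : Finset ι) (w : ι → ℕ) {a X K : ℕ}
    (hw : ∀ i ∈ C, w i ≤ K) (h0 : a ≤ X) (h1 : X < a + ∑ i ∈ C, w i) :
    ∃ C' ⊆ C, a + ∑ i ∈ C', w i ≤ X ∧ X < a + ∑ i ∈ C', w i + K := by
  induction C using Finset.induction_on with
  | empty =>
    rw [Finset.sum_empty] at h1
    omega
  | insert i C hi ih =>
    rw [Finset.sum_insert hi] at h1
    rcases Nat.lt_or_ge X (a + ∑ i ∈ C, w i) with h | h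
    · obtain ⟨C', g1, g2, g3⟩ := ih (fun j hj => hw j (Finset.mem_insert_of_mem hj)) h
      exact ⟨C', g1.trans (Finset.subset_insert i C), g2, g3⟩
    · have := hw i (Finset.mem_insert_self i C)
      exact ⟨C, Finset.subset_insert i C, h, by omega⟩

end Pool.Agent.Work.MP_0421d9_ag.LD
end

section
/-!
Raising the degree and one multiplicity by one keeps the conditions independent.
-/

namespace Pool.Agent.Work.MP_0421d9_ag.LD

open MvPolynomial Module

theorem coeff_scale (v : V3) (G : R3) (k : ℕ) :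
    (aeval (fun i => Polynomial.C (v i) * Polynomial.X) G : Polynomial ℂ).coeff k =
      eval v (homogeneousComponent k G) := by
  induction G using MvPolynomial.induction_on' with
  | monomial α a =>
    have h1 : (aeval (fun i => Polynomial.C (v i) * Polynomial.X) (monomial α a) : Polynomial ℂ) =
        Polynomial.C (a * ∏ i, v i ^ α i) * Polynomial.X ^ α.degree := by
      rw [aeval_monomial, Finsupp.prod_fintype _ _ (fun i => by rw [pow_zero])]
      have h2 : ∀ i, (Polynomial.C (v i) * Polynomial.X : Polynomial ℂ) ^ α i =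
          Polynomial.C (v i ^ α i) * Polynomial.X ^ α i := fun i => by
        rw [mul_pow, Polynomial.C_pow]
      rw [Finset.prod_congr rfl (fun i _ => h2 i), Finset.prod_mul_distrib,
        Finset.prod_pow_eq_pow_sum, map_mul, map_prod, Finsupp.degree_eq_sum]
      rw [← mul_assoc]
      rfl
    rw [h1, Polynomial.coeff_C_mul_X_pow]
    rw [homogeneousComponent_of_mem (n := α.degree)
      ((mem_homogeneousSubmodule _ _).mpr (isHomogeneous_monomial a rfl))]
    split_ifs with hk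
    · rw [eval_monomial, Finsupp.prod_fintype _ _ (fun i => by rw [pow_zero])]
    · rw [map_zero]
  | add G H hG hH => rw [map_add, Polynomial.coeff_add, hG, hH, map_add, map_add]

theorem coeff_onLine (q v : V3) (F : R3) (k : ℕ) :
    (onLine q v F).coeff k = eval v (homogeneousComponent k (translate q F)) := by
  rw [← coeff_scale]
  congr 1
  have h1 : onLine q v = (aeval (fun i => Polynomial.C (v i) * Polynomial.X) :
      R3 →ₐ[ℂ] Polynomial ℂ).comp (aeval (fun k => C (q k) + X k)) := by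
    apply MvPolynomial.algHom_ext
    intro i
    unfold onLine
    rw [aeval_X, AlgHom.comp_apply, aeval_X, map_add, aeval_X, algHom_C,
      Polynomial.algebraMap_eq]
  rw [h1]
  rfl

theorem onLine_coeff_zero {q v : V3} {F : R3} {d k : ℕ} (hF : F.IsHomogeneous d) (hk : d < k) :
    (onLine q v F).coeff k = 0 := by
  apply Polynomial.coeff_eq_zero_of_natDegree_lt
  refine lt_of_le_of_lt ?_ hk
  unfold onLine
  refine (MvPolynomial.aeval_natDegree_le F hF.totalDegree_le (n := 1) _ (fun i => ?_)).trans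
    (by omega)
  refine (Polynomial.natDegree_add_le _ _).trans (max_le ?_ ?_)
  · rw [Polynomial.natDegree_C]
    exact Nat.zero_le _
  · exact (Polynomial.natDegree_C_mul_le _ _).trans Polynomial.natDegree_X_le

theorem generic_minor_ne {r : ℕ} {p : Fin r → V3} (hp : GenericPoints p) {i j : Fin r}
    (hij : j ≠ i) : p i 1 * p j 0 - p i 0 * p j 1 ≠ 0 := by
  intro h
  have h1 : (X (i, (1 : Fin 3)) * X (j, (0 : Fin 3)) - X (i, (0 : Fin 3)) * X (j, (1 : Fin 3)) :
      MvPolynomial (Fin r × Fin 3) ℚ) = 0 := by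
    apply AlgebraicIndependent.eq_zero_of_aeval_eq_zero hp
    simp only [map_sub, map_mul, aeval_X]
    exact h
  have h2 := congrArg (eval (fun z : Fin r × Fin 3 =>
    if z = (i, (1 : Fin 3)) ∨ z = (j, (0 : Fin 3)) then (1 : ℚ) else 0)) h1
  rw [map_sub, map_mul, map_mul, eval_X, eval_X, eval_X, eval_X, map_zero, if_pos (Or.inl rfl),
    if_pos (Or.inr rfl), if_neg] at h2
  · norm_num at h2
  · rintro (h3 | h3)
    · have h4 : (0 : Fin 3) = 1 := congrArg Prod.snd h3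
      exact absurd h4 (by decide)
    · have := congrArg Prod.fst h3
      exact hij this.symm

/-- **Raising the degree and one multiplicity.** -/
theorem hPm_raise_le {r D : ℕ} (y : Fin r → ℕ) (i : Fin r) (hi : y i ≤ D + 1) :
    hPm (D + 1) (Function.update y i (y i + 1)) ≤ hPm D y + (D + 1 - y i) := by
  classical
  have hp := gpt_generic r
  obtain ⟨p, hpdef⟩ : ∃ p, p = gpt r := ⟨_, rfl⟩
  rw [← hpdef] at hp
  rw [← hPm_eq hp, ← hPm_eq hp]
  set V := linSys (D + 1) p (Function.update y i (y i + 1)) with hV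
  have hle : V ≤ Rd (D + 1) := fun F hF => hF.1
  have hfin : Module.Finite ℂ V := Submodule.finiteDimensional_of_le hle
  have hle' : linSys D p y ≤ Rd D := fun F hF => hF.1
  have hfin' : Module.Finite ℂ (linSys D p y) := Submodule.finiteDimensional_of_le hle'
  -- the line through `p i` and `(0, 0, 1)`
  set w : V3 := ![p i 1, - p i 0, 0] with hw
  have hw0 : w 0 ≠ 0 := by
    rw [hw]
    exact generic_coord_ne hp i 1
  have hwne : w ≠ 0 := fun h => hw0 (by rw [h]; rfl)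
  set v : V3 := ![-w 2, 0, w 0] with hv
  have hwi : eval (p i) (lin w) = 0 := by
    rw [eval_lin, Fin.sum_univ_three]
    simp only [hw, Matrix.cons_val]
    ring
  have hwj : ∀ j, j ≠ i → eval (p j) (lin w) ≠ 0 := by
    intro j hj
    rw [eval_lin, Fin.sum_univ_three]
    have h1 := generic_minor_ne hp hj
    simp only [hw, Matrix.cons_val]
    intro h2
    apply h1
    linear_combination h2
  have hpi : (![-w 1, w 0, 0] : V3) = p i + (- (p i 2 / p i 1)) • v := by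
    have h1 := generic_coord_ne hp i 1
    ext k
    rw [Pi.add_apply, Pi.smul_apply, smul_eq_mul]
    fin_cases k
    · simp only [hw, hv, Fin.zero_eta, Matrix.cons_val_zero, Matrix.cons_val]
      ring
    · simp only [hw, hv, Fin.mk_one, Matrix.cons_val_one, Matrix.cons_val_zero, Matrix.cons_val]
      ring
    · simp only [hw, hv, Fin.reduceFinMk, Matrix.cons_val]
      field_simp
      ring
  let ρ : R3 →ₗ[ℂ] (Fin (D + 1 - y i) → ℂ) :=
    { toFun := fun F k => (onLine (p i) v F).coeff (y i + 1 + k)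
      map_add' := fun F G => by
        funext z
        simp
      map_smul' := fun c F => by
        funext z
        simp }
  have h1 := finrank_eq_ker_add_map ρ V
  have h2 : finrank ℂ ↥(V.map ρ) ≤ D + 1 - y i := by
    refine (Submodule.finrank_le _).trans ?_
    rw [finrank_fin_fun]
  have h3 : V ⊓ LinearMap.ker ρ ≤ (linSys D p y).map (LinearMap.mulLeft ℂ (lin w : R3)) := by
    rintro F ⟨hF, hF'⟩
    obtain ⟨h4, h5⟩ := hF
    have h7 := LinearMap.mem_ker.mp hF'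
    have h8 : onLine (p i) v F = 0 := by
      ext k
      rw [Polynomial.coeff_zero]
      rcases Nat.lt_or_ge k (y i + 1) with hk | hk
      · have h9 := h5 i k (by rw [Function.update_self]; exact hk)
        rw [coeff_onLine, h9, map_zero]
      · rcases Nat.lt_or_ge (D + 1) k with hk' | hk'
        · exact onLine_coeff_zero h4 hk'
        · have h9 := congrFun h7 ⟨k - (y i + 1), by omega⟩
          change (onLine (p i) v F).coeff (y i + 1 + (k - (y i + 1))) = 0 at h9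
          rw [Nat.add_sub_cancel' hk] at h9
          exact h9
    have h9 : lin w ∣ F := by
      refine lin_dvd_of_onLine hw0 h4 ?_
      rw [hpi, ← hv, onLine_shift, h8, Polynomial.zero_comp]
    by_cases hF0 : F = 0
    · rw [hF0]
      exact Submodule.zero_mem _
    obtain ⟨e, G, he, hG, hFG⟩ := exists_factor h4 hF0 h9
    obtain rfl : D = e := by omega
    refine Submodule.mem_map.mpr ⟨G, ⟨hG, fun j => ?_⟩, by rw [LinearMap.mulLeft_apply, hFG]⟩
    have h10 := h5 j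
    rw [hFG] at h10
    by_cases hj : j = i
    · rw [hj] at h10 ⊢
      rw [Function.update_self] at h10
      exact vanishTo_of_mul_eq hwne h10 hwi
    · rw [Function.update_of_ne hj] at h10
      exact vanishTo_of_mul_ne h10 (hwj j hj)
  have h4 : finrank ℂ ↥(V ⊓ LinearMap.ker ρ) ≤ finrank ℂ (linSys D p y) :=
    (Submodule.finrank_mono h3).trans (Submodule.finrank_map_le _ _)
  rw [h1]
  exact Nat.add_le_add h4 h2

end Pool.Agent.Work.MP_0421d9_ag.LD
end

section
/-!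
The critical systems with one arbitrary multiplicity: both windows fail.
-/

namespace Pool.Agent.Work.MP_0421d9_ag.LD

open MvPolynomial Module

theorem zq_point {r : ℕ} (W m₀ : ℕ) (y : Fin r → ℕ) :
    2 * hPm (W + m₀) (Fin.cons m₀ y : Fin (r + 1) → ℕ) ≤ (W + 1) * (W + 2 * m₀ + 2) := by
  induction m₀ with
  | zero =>
    have h1 := zl_le_choose W (Fin.cons 0 y : Fin (r + 1) → ℕ)
    have h2 := zl_two_choose (W + 1)
    change 2 * hPm W (Fin.cons 0 y : Fin (r + 1) → ℕ) ≤ _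
    have h3 : (W + 1) * (W + 2 * 0 + 2) = (W + 1) * (W + 1 + 1) := by ring
    rw [h3, ← h2]
    exact Nat.mul_le_mul_left 2 h1
  | succ m ih =>
    have h1 := hPm_raise_le (D := W + m) (Fin.cons m y : Fin (r + 1) → ℕ) 0
      (by rw [Fin.cons_zero]; omega)
    rw [Fin.cons_zero] at h1
    have h2 : Function.update (Fin.cons m y : Fin (r + 1) → ℕ) 0 (m + 1) =
        (Fin.cons (m + 1) y : Fin (r + 1) → ℕ) := Fin.update_cons_zero _ _ _
    rw [h2] at h1
    have h3 : W + (m + 1) = W + m + 1 := rfl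
    rw [h3]
    have h4 : W + m + 1 - m = W + 1 := by omega
    rw [h4] at h1
    have h5 : (W + 1) * (W + 2 * (m + 1) + 2) = (W + 1) * (W + 2 * m + 2) + 2 * (W + 1) := by ring
    rw [h5]
    omega

theorem leafq_i {T ρ r c D m₀ : ℕ} {y : Fin r → ℕ} (hW : WinQ T ρ) (hT : 1 ≤ T) (hc : 1 ≤ c)
    (hyc : ∀ i, y i ≤ c) (hD : m₀ + (12 * ρ * (c + 1) + 20) ≤ D)
    (h3 : T * D ^ 2 ≤ T * (m₀ ^ 2 + 23 * m₀ + ∑ i, y i ^ 2 + 23 * ∑ i, y i) + 6 * (c + 1) ^ 2) :
    T * hPm D (Fin.cons m₀ y : Fin (r + 1) → ℕ) ≤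
      23 * (T * (m₀ + ∑ i, y i)) + 6 * (c + 1) ^ 2 + 6 * c ^ 2 + 2 * (T * D) + T := by
  classical
  set S1 := ∑ i, y i with hS1
  set S2 := ∑ i, y i ^ 2 with hS2
  set K := 23 * (T * (m₀ + S1)) + 6 * (c + 1) ^ 2 + 6 * c ^ 2 with hK
  have hKpos : 0 < K := by positivity
  obtain ⟨W, hWD⟩ : ∃ W, D = W + m₀ := ⟨D - m₀, by omega⟩
  by_cases hex : ∃ x, 2 * x ≤ W ∧ K + T * x ^ 2 ≤ 2 * (T * D * x)
  · have hx := Nat.find_spec hex
    have hmin := @Nat.find_min _ _ hex
    set x := Nat.find hex with hxdef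
    obtain ⟨hx1, hx2⟩ := hx
    have hx0 : x ≠ 0 := by
      intro h0
      rw [h0] at hx2
      simp at hx2
      omega
    obtain ⟨z, hz⟩ : ∃ z, x = z + 1 := ⟨x - 1, by omega⟩
    obtain ⟨E, hE⟩ : ∃ E, D = E + x := ⟨D - x, by omega⟩
    have hEρ : m₀ + 6 * ρ * (c + 1) ≤ E := by
      have h4 : 12 * ρ * (c + 1) = 2 * (6 * ρ * (c + 1)) := by ring
      omega
    have h5 := (hW r c E m₀ y hc hyc hEρ).1 (by
      have h7 : T * D ^ 2 + T * x ^ 2 = T * E ^ 2 + 2 * (T * D * x) := by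
        rw [hE]
        ring
      have h8 : T * (m₀ ^ 2 + 23 * m₀ + S2 + 23 * S1) =
          T * (m₀ ^ 2 + S2) + 23 * (T * (m₀ + S1)) := by ring
      rw [h8] at h3
      change T * E ^ 2 + 6 * c ^ 2 ≤ T * (m₀ ^ 2 + S2)
      omega)
    have h6 := zl_down E (Fin.cons m₀ y : Fin (r + 1) → ℕ) x
    rw [← hE, h5] at h6
    have h7 : ¬ (2 * z ≤ W ∧ K + T * z ^ 2 ≤ 2 * (T * D * z)) := hmin (by omega)
    have h8 : 2 * (T * D * z) < K + T * z ^ 2 := by
      by_contra hcon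
      exact h7 ⟨by omega, by omega⟩
    have h9 : T * (2 * hPm D (Fin.cons m₀ y : Fin (r + 1) → ℕ)) ≤
        T * (2 * E * x + x * x + 3 * x) := by
      refine Nat.mul_le_mul_left T ?_
      omega
    have h10 : 2 * (T * x) ≤ T * D := by
      have h11 := Nat.mul_le_mul_left T (show 2 * x ≤ D by omega)
      have h12 : T * (2 * x) = 2 * (T * x) := by ring
      omega
    have h13 : T * (2 * E * x + x * x + 3 * x) + T * z ^ 2 =
        2 * (T * D * z) + 2 * (T * D) + T * x + T := by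
      rw [hE, hz]
      ring
    have h14 : T * (2 * hPm D (Fin.cons m₀ y : Fin (r + 1) → ℕ)) =
        2 * (T * hPm D (Fin.cons m₀ y : Fin (r + 1) → ℕ)) := by ring
    rw [h14] at h9
    omega
  · have h4 : 2 * (T * D * (W / 2)) < K + T * (W / 2) ^ 2 := by
      by_contra hcon
      exact hex ⟨W / 2, by omega, by omega⟩
    have h5 := zq_point W m₀ y
    rw [← hWD] at h5
    have h6 : T * (2 * hPm D (Fin.cons m₀ y : Fin (r + 1) → ℕ)) ≤
        T * ((W + 1) * (W + 2 * m₀ + 2)) := Nat.mul_le_mul_left T h5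
    have h7 : T * ((W + 1) * (W + 2 * m₀ + 2)) ≤ 2 * K + 4 * (T * D) + 2 * T := by
      obtain ⟨w, hw⟩ : ∃ w, w = W / 2 := ⟨_, rfl⟩
      rw [← hw] at h4
      have h9 : W = 2 * w ∨ W = 2 * w + 1 := by omega
      rcases h9 with h9 | h9
      · rw [hWD, h9] at h4 ⊢
        have e1 : T * ((2 * w + 1) * (2 * w + 2 * m₀ + 2)) =
            4 * (T * w ^ 2) + 4 * (T * (w * m₀)) + 6 * (T * w) + 2 * (T * m₀) + 2 * T := by ring
        have e2 : 2 * (T * (2 * w + m₀) * w) = 4 * (T * w ^ 2) + 2 * (T * (w * m₀)) := by ring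
        have e3 : T * (2 * w + m₀) = 2 * (T * w) + T * m₀ := by ring
        omega
      · rw [hWD, h9] at h4 ⊢
        have e1 : T * ((2 * w + 1 + 1) * (2 * w + 1 + 2 * m₀ + 2)) =
            4 * (T * w ^ 2) + 4 * (T * (w * m₀)) + 10 * (T * w) + 4 * (T * m₀) + 6 * T := by ring
        have e2 : 2 * (T * (2 * w + 1 + m₀) * w) =
            4 * (T * w ^ 2) + 2 * (T * (w * m₀)) + 2 * (T * w) := by ring
        have e3 : T * (2 * w + 1 + m₀) = 2 * (T * w) + T + T * m₀ := by ring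
        omega
    have h8 : T * (2 * hPm D (Fin.cons m₀ y : Fin (r + 1) → ℕ)) =
        2 * (T * hPm D (Fin.cons m₀ y : Fin (r + 1) → ℕ)) := by ring
    rw [h8] at h6
    omega

theorem leafq_ii {T ρ r c D m₀ : ℕ} {y : Fin r → ℕ} (hW : WinQ T ρ) (hT : 1 ≤ T) (hc : 1 ≤ c)
    (hyc : ∀ i, y i ≤ c) (hD : m₀ + (12 * ρ * (c + 1) + 20) ≤ D)
    (h2 : T * (m₀ ^ 2 + ∑ i, y i ^ 2) ≤ T * D ^ 2 + 6 * c ^ 2) :
    8 * (T * (hPm D (Fin.cons m₀ y : Fin (r + 1) → ℕ) + (m₀ + 1).choose 2 +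
        ∑ i, (y i + 1).choose 2)) ≤ 4 * (T * ((D + 1) * (D + 2))) +
      5 * (23 * (T * (m₀ + ∑ i, y i)) + 6 * (c + 1) ^ 2 + 6 * c ^ 2) + 8 * (T * D) + 16 * T := by
  classical
  set S1 := ∑ i, y i with hS1
  set S2 := ∑ i, y i ^ 2 with hS2
  set K := 23 * (T * (m₀ + S1)) + 6 * (c + 1) ^ 2 + 6 * c ^ 2 with hK
  have hKpos : 0 < K := by positivity
  have hex : ∃ x, K ≤ 2 * (T * D * x) + T * x ^ 2 := by
    refine ⟨K, ?_⟩
    have h4 : 1 * (1 * K) ≤ T * D * K := by
      rw [Nat.mul_assoc]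
      exact Nat.mul_le_mul hT (Nat.mul_le_mul (by omega) le_rfl)
    omega
  have hx := Nat.find_spec hex
  have hmin := @Nat.find_min _ _ hex
  set x := Nat.find hex with hxdef
  have hx0 : x ≠ 0 := by
    intro h0
    rw [h0] at hx
    simp at hx
    omega
  obtain ⟨z, hz⟩ : ∃ z, x = z + 1 := ⟨x - 1, by omega⟩
  have hEρ : m₀ + 6 * ρ * (c + 1) ≤ D + x := by
    have h4 : 12 * ρ * (c + 1) = 2 * (6 * ρ * (c + 1)) := by ring
    omega
  have h5 := (hW r c (D + x) m₀ y hc hyc hEρ).2 (by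
    have h7 : T * (D + x) ^ 2 = T * D ^ 2 + 2 * (T * D * x) + T * x ^ 2 := by ring
    have h8 : T * (m₀ ^ 2 + 23 * m₀ + S2 + 23 * S1) =
        T * (m₀ ^ 2 + S2) + 23 * (T * (m₀ + S1)) := by ring
    change T * (m₀ ^ 2 + 23 * m₀ + S2 + 23 * S1) + 6 * (c + 1) ^ 2 ≤ _
    rw [h7, h8]
    omega)
  have h6 := zl_up D (Fin.cons m₀ y : Fin (r + 1) → ℕ) x
  have h7 : K > 2 * (T * D * z) + T * z ^ 2 := by
    have h8 := hmin (show z < x by omega)
    omega
  have h8 : 2 * (D + x + 2).choose 2 = (D + x + 1) * (D + x + 2) := zl_two_choose (D + x + 1)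
  have h9 : T * (2 * (hPm D (Fin.cons m₀ y : Fin (r + 1) → ℕ) + (m₀ + 1).choose 2 +
      ∑ i, (y i + 1).choose 2)) ≤ T * ((D + x + 1) * (D + x + 2)) := by
    refine Nat.mul_le_mul_left T ?_
    omega
  have h10 : T * ((D + x + 1) * (D + x + 2)) + T =
      T * ((D + 1) * (D + 2)) + (2 * (T * D * z) + T * z ^ 2) + 2 * (T * D) + 5 * (T * z) +
        5 * T := by
    rw [hz]
    ring
  have h11 : 10 * (T * z) ≤ T * D * z := by
    have h12 : T * D * z = D * (T * z) := by ring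
    rw [h12]
    exact Nat.mul_le_mul_right _ (by omega)
  have h13 : T * (2 * (hPm D (Fin.cons m₀ y : Fin (r + 1) → ℕ) + (m₀ + 1).choose 2 +
      ∑ i, (y i + 1).choose 2)) =
      2 * (T * (hPm D (Fin.cons m₀ y : Fin (r + 1) → ℕ) + (m₀ + 1).choose 2 +
        ∑ i, (y i + 1).choose 2)) := by ring
  rw [h13] at h9
  omega

/-- the parameters of a critical system with one arbitrary multiplicity -/
theorem plane_leafQ {TP ρ r c D m₀ : ℕ} {y : Fin r → ℕ} (hW : WinQ TP ρ) (hTP : 1 ≤ TP)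
    (hc : 1 ≤ c) (hyc : ∀ i, y i ≤ c) (hD : m₀ + (12 * ρ * (c + 1) + 20) ≤ D)
    (h0 : hPm D (Fin.cons m₀ y : Fin (r + 1) → ℕ) ≠ 0)
    (h1 : hPm D (Fin.cons m₀ y : Fin (r + 1) → ℕ) + (m₀ + 1).choose 2 +
      ∑ i, (y i + 1).choose 2 ≠ (D + 2).choose 2) :
    TP * (2 * hPm D (Fin.cons m₀ y : Fin (r + 1) → ℕ) + (m₀ + 1).choose 2 +
        ∑ i, (y i + 1).choose 2) ≤
      TP * ((D + 2).choose 2 + 100 * ∑ i, y i + 100 * D) + 50 * (c + 1) ^ 2 ∧
    TP * (m₀ ^ 2 + ∑ i, y i ^ 2) ≤ TP * D ^ 2 + 6 * c ^ 2 ∧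
    TP * D ^ 2 ≤ TP * (m₀ ^ 2 + 23 * m₀ + ∑ i, y i ^ 2 + 23 * ∑ i, y i) + 6 * (c + 1) ^ 2 := by
  have hρ : m₀ + 6 * ρ * (c + 1) ≤ D := by
    have h4 : 12 * ρ * (c + 1) = 2 * (6 * ρ * (c + 1)) := by ring
    omega
  have hw := hW r c D m₀ y hc hyc hρ
  have h2 : TP * (m₀ ^ 2 + ∑ i, y i ^ 2) ≤ TP * D ^ 2 + 6 * c ^ 2 := by
    by_contra hcon
    exact h0 (hw.1 (by omega))
  have h3 : TP * D ^ 2 ≤ TP * (m₀ ^ 2 + 23 * m₀ + ∑ i, y i ^ 2 + 23 * ∑ i, y i) +
      6 * (c + 1) ^ 2 := by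
    by_contra hcon
    exact h1 (hw.2 (by omega))
  refine ⟨?_, h2, h3⟩
  have h4 := leafq_i hW hTP hc hyc hD h3
  have h5 := leafq_ii hW hTP hc hyc hD h2
  have h6 : 2 * (D + 2).choose 2 = (D + 1) * (D + 2) := zl_two_choose (D + 1)
  rw [← h6] at h5
  set h := hPm D (Fin.cons m₀ y : Fin (r + 1) → ℕ) with hh
  have e1 : TP * (h + (m₀ + 1).choose 2 + ∑ i, (y i + 1).choose 2) =
      TP * h + TP * (m₀ + 1).choose 2 + TP * ∑ i, (y i + 1).choose 2 := by ring
  have e2 : TP * (2 * h + (m₀ + 1).choose 2 + ∑ i, (y i + 1).choose 2) =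
      2 * (TP * h) + TP * (m₀ + 1).choose 2 + TP * ∑ i, (y i + 1).choose 2 := by ring
  have e3 : TP * (2 * (D + 2).choose 2) = 2 * (TP * (D + 2).choose 2) := by ring
  have e4 : TP * ((D + 2).choose 2 + 100 * ∑ i, y i + 100 * D) =
      TP * (D + 2).choose 2 + 100 * (TP * ∑ i, y i) + 100 * (TP * D) := by ring
  have e6 : TP * (m₀ + ∑ i, y i) = TP * m₀ + TP * ∑ i, y i := by ring
  have e7 : TP * m₀ + 20 * TP ≤ TP * D := by
    have h7 := Nat.mul_le_mul_left TP (show m₀ + 20 ≤ D by omega)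
    have h8 : TP * (m₀ + 20) = TP * m₀ + 20 * TP := by ring
    omega
  rw [e1, e3, e6] at h5
  rw [e6] at h4
  rw [e2, e4]
  have e5 : 6 * c ^ 2 ≤ 6 * (c + 1) ^ 2 :=
    Nat.mul_le_mul_left _ (Nat.pow_le_pow_left (Nat.le_succ c) 2)
  omega

end Pool.Agent.Work.MP_0421d9_ag.LD
end

section
/-!
Collisions of generic points: the collision theorem.
-/

set_option linter.unusedSectionVars false
set_option linter.unusedVariables false

namespace Pool.Agent.Work.MP_0421d9_ag.ZC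

open MvPolynomial Module SM

/-- **The collision theorem**: the rigid member is not bad -/
theorem Dat.not_bad {ι Λ : Type} [Fintype ι] [Fintype Λ] [DecidableEq ι] [DecidableEq Λ]
    [Nonempty Λ] {d M : ℕ}
    {m : ι → ℕ} {μ w s Mv : Λ → ℕ} {v : ∀ l, Fin (s l) → ℕ}
    (S : Dat d M m μ w s Mv v) {p : ι ⊕ (Σ l, Fin (s l)) → V3}
    (hp : GenericPoints p) {F : R3}
    (hF : F ∈ linSys d p (Sum.elim m (fun x => v x.1 x.2))) (hF0 : F ≠ 0) :
    ¬ Bad d p (Sum.elim m (fun x => v x.1 x.2)) F := by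
  have hd1 : 1 ≤ d := by
    obtain ⟨l⟩ := ‹Nonempty Λ›
    have h := S.le_mu l
    omega
  obtain ⟨g, hg⟩ := exists_generic_fam ((ι ⊕ Λ) ⊕ (Σ l, Fin (s l)))
  obtain ⟨p', hp'⟩ : ∃ p' : ι → V3, p' = fun i => g (Sum.inl (Sum.inl i)) := ⟨_, rfl⟩
  obtain ⟨P', hP'⟩ : ∃ P' : Λ → V3, P' = fun l => g (Sum.inl (Sum.inr l)) := ⟨_, rfl⟩
  obtain ⟨ζ', hζ'⟩ : ∃ ζ' : (Σ l, Fin (s l)) → V3, ζ' = fun x => g (Sum.inr x) := ⟨_, rfl⟩
  have hge : Sum.elim (Sum.elim p' P') ζ' = g := by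
    funext x
    rcases x with (i | l) | x
    · rw [hp']; rfl
    · rw [hP']; rfl
    · rw [hζ']; rfl
  have hX : GenericPoints (Sum.elim (Sum.elim p' P') ζ') := by rwa [hge]
  have hne : ∀ x, g x 2 ≠ 0 := fun x => hg.ne_zero (x, 2)
  obtain ⟨ρ, τ, P, ζ, hτ0, hτ, hP2, hpp, hPP, hζζ, hpx⟩ := exists_collision_place hp p' P' ζ'
  have hμ2 : ∀ l, 2 ≤ μ l := fun l => by
    have h1 := S.hvμ l
    have h2 := S.hMv l
    omega
  have hMd : M ≤ d := by
    have := S.hd
    omega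
  refine collision_not_bad ρ hτ0 hτ hd1 (fun i => ?_) (fun l => ?_) (fun l => ?_)
    (fun l j => ?_) hP2 (fun l => ?_) (fun i => ?_) (fun x => ?_) hpp hPP hζζ hpx (fun l => ?_)
    (fun F₀ hF₀ hF₀0 G hG hres => S.w_good hX hF₀ hF₀0 hG hres) hF hF0
  · have := S.hm i
    omega
  · have := hμ2 l
    omega
  · have := S.hμ l
    omega
  · have h1 := S.hv l j
    have h2 := S.hvμ l
    omega
  · rw [hP']
    exact hne _
  · intro h
    have h1 := hne (Sum.inl (Sum.inl i))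
    rw [hp'] at h
    exact h1 (by rw [show g (Sum.inl (Sum.inl i)) = 0 from h]; rfl)
  · rw [hζ']
    exact hne _
  · refine linSys_eq_bot (S.hNv' l) ?_ (fun j => ?_) ?_
    · rw [hζ']
      exact hg.comp (fun z : Fin (s l) × Fin 3 => (Sum.inr ⟨l, z.1⟩, z.2)) (fun z z' h => by
        simp only [Prod.mk.injEq, Sum.inr.injEq, Sigma.mk.injEq, heq_eq_eq, true_and] at h
        exact Prod.ext h.1 h.2)
    · have := S.hv l j
      omega
    · have h1 := S.crit l
      have h2 := hμ2 l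
      have h3 : μ l - 1 + 2 = μ l + 1 := by omega
      rw [h3, h1]
      exact Nat.le_add_right _ _

end Pool.Agent.Work.MP_0421d9_ag.ZC
end

section
/-!
The final step: general members of all the systems in the range are smooth.
-/

set_option linter.unusedSectionVars false

namespace Pool.Agent.Work.MP_0421d9_ag.ZC

open MvPolynomial Module SM

/-- rigid systems -/
theorem rigid_not_bad (A : ℝ) : ∃ R : ℝ, ∀ (d M : ℕ) (ι : Type) [Fintype ι]
    [DecidableEq ι] (p : ι → V3) (m : ι → ℕ), GenericPoints p → 1 ≤ M → (∀ i, m i ≤ M) →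
    R * M ≤ d → (M : ℝ) ≤ ((d : ℝ) / M) ^ A →
    ∑ i, (m i + 1).choose 2 + 1 = (d + 2).choose 2 →
    ∀ F ∈ linSys d p m, F ≠ 0 → ¬ Bad d p m F := by
  obtain ⟨R, hR⟩ := exists_dat A
  refine ⟨R, fun d M ι _ _ p m hp hM hm hd hMx hχ F hF hF0 => ?_⟩
  classical
  obtain ⟨M', C, μ, w, e, he, hD⟩ := hR d M ι m hM hm hd hMx hχ
  have hme : ∀ z, m (e z) = Sum.elim (fun i : {i : ι // ∀ l, i ∉ C l} => m i.1)
      (fun x : Σ l, Fin (C l).card => m ((C x.1).equivFin.symm x.2).1) z := by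
    rintro (i | x)
    · rw [he]
      rfl
    · rw [he]
      rfl
  have hpe : GenericPoints (fun z => p (e z)) := by
    have h2 := AlgebraicIndependent.comp hp
      (fun z : ({i : ι // ∀ l, i ∉ C l} ⊕ (Σ l, Fin (C l).card)) × Fin 3 => (e z.1, z.2))
      (fun z z' h => by
        have h7 := congrArg Prod.fst h
        have h8 := congrArg Prod.snd h
        exact Prod.ext (e.injective h7) h8)
    exact h2
  have h1 := hD.not_bad hpe (F := F) ⟨hF.1, fun z => by
    rw [← hme]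
    exact hF.2 (e z)⟩ hF0
  intro hb
  apply h1
  have h2 := (bad_equiv (d := d) (p := p) (m := m) (F := F) e).mpr hb
  have h3 : (fun z => m (e z)) = Sum.elim (fun i : {i : ι // ∀ l, i ∉ C l} => m i.1)
      (fun x : Σ l, Fin (C l).card => m ((C x.1).equivFin.symm x.2).1) := funext hme
  rw [h3] at h2
  exact h2

/-- **All systems**: the dimension, irreducibility and smoothness of the general member. -/
theorem all_not_bad {A : ℝ} (hA : 0 < A) : ∃ R : ℝ, ∀ (r d M : ℕ) (p : Fin r → V3)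
    (m : Fin r → ℕ), GenericPoints p → 1 ≤ M → (∀ i, m i ≤ M) → R * M ≤ d →
    (M : ℝ) ≤ ((d : ℝ) / M) ^ A →
    ∀ s : Fin (finrank ℂ (linSys d p m) - 1) → Fin 3 → ℂ, GenericPoints (Sum.elim p s) →
      ∀ F ∈ linSys d p m, F ≠ 0 → (∀ k, eval (s k) F = 0) → ¬ Bad d p m F := by
  obtain ⟨R₁, h1⟩ := LD.all_windows hA
  obtain ⟨R₂, h2⟩ := rigid_not_bad A
  refine ⟨max R₁ R₂, fun r d M p m hp hM hm hd hMx s hs F hF hF0 hFs => ?_⟩
  have hM0 : (0 : ℝ) ≤ M := Nat.cast_nonneg M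
  have hd1 : R₁ * M ≤ d := (mul_le_mul_of_nonneg_right (le_max_left _ _) hM0).trans hd
  have hd2 : R₂ * M ≤ d := (mul_le_mul_of_nonneg_right (le_max_right _ _) hM0).trans hd
  have hns := h1 r d M p m hp hM hm hd1 (Or.inl hMx)
  have hfin : Module.Finite ℂ (linSys d p m) :=
    Submodule.finiteDimensional_of_le (linSys_le d p _)
  have hpos : finrank ℂ (linSys d p m) ≠ 0 := by
    intro h0
    have h3 := Submodule.finrank_eq_zero.mp h0
    rw [h3] at hF
    exact hF0 hF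
  apply not_bad_of_extended (s := s) hF.1 (fun j => point_ne_zero hs (Sum.inr j))
  refine h2 d M _ (Sum.elim p s) (Sum.elim m (fun _ => 1)) hs hM ?_ hd2 hMx ?_ F ⟨hF.1, ?_⟩ hF0
  · rintro (i | j)
    · exact hm i
    · exact hM
  · rw [sum_simple]
    omega
  · rintro (i | j)
    · exact hF.2 i
    · exact vanishTo_one_iff.mpr (hFs j)

end Pool.Agent.Work.MP_0421d9_ag.ZC
end

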