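import Mathlib

section
/-!
The index theorem, plane case with one arbitrary multiplicity (real arithmetic only).
-/

namespace Pool.Agent.Work.MP_0421d9_ag.LD

theorem exists_min_pos_q {ι : Type} [Fintype ι] {c : ι → ℕ} {j : ι} (hj : 1 ≤ c j) :
    ∃ i, 1 ≤ c i ∧ ∀ l, 1 ≤ c l → c i ≤ c l := by
  classical
  obtain ⟨i, hi, hmin⟩ := Finset.exists_min_image (Finset.univ.filter fun i => 1 ≤ c i) c
    ⟨j, by simpa using hj⟩
  refine ⟨i, by simpa using hi, fun l hl => hmin l (by simpa using hl)⟩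

/-- the two cases of the hypothesis -/
theorem np_delta {v Δ P L₂ : ℤ} (hv0 : 0 < v) (hΔv : 0 < Δ * v) (hy0 : 0 < P - v)
    (hcase : 0 ≤ L₂ ∨ v * (-L₂) ≤ Δ * (P - v)) :
    v ^ 2 * |L₂| ≤ 2 * Δ * v * (P - v) + v ^ 2 * L₂ ∧
      Δ * v * (P - v) ≤ 2 * Δ * v * (P - v) + v ^ 2 * L₂ := by
  have hΔvy : 0 < Δ * v * (P - v) := mul_pos hΔv hy0
  by_cases hL0 : 0 ≤ L₂
  · have h2 : 0 ≤ v ^ 2 * L₂ := mul_nonneg (sq_nonneg v) hL0
    rw [abs_of_nonneg hL0]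
    constructor <;> linarith
  · push Not at hL0
    have h3 : v * (-L₂) ≤ Δ * (P - v) := by
      rcases hcase with h | h
      · exact absurd h (not_le.2 hL0)
      · exact h
    have h4 : v * (v * (-L₂)) ≤ v * (Δ * (P - v)) := mul_le_mul_of_nonneg_left h3 hv0.le
    rw [abs_of_neg hL0]
    have e1 : v * (v * (-L₂)) = -(v ^ 2 * L₂) := by ring
    have e2 : v * (Δ * (P - v)) = Δ * v * (P - v) := by ring
    have e3 : v ^ 2 * -L₂ = -(v ^ 2 * L₂) := by ring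
    have e4 : 2 * Δ * v * (P - v) = 2 * (Δ * v * (P - v)) := by ring
    rw [e1, e2] at h4
    rw [e3, e4]
    constructor <;> linarith

/-- one term of the estimate of `S` -/
theorem np_term {Δ v K m c k : ℤ} (hΔ : 0 < Δ) (hv : 0 < v) (hc : m ≤ c) (hc0 : 0 ≤ c)
    (hk : k ≤ K) (h : 2 * K * v < Δ * m) : Δ ^ 2 * c ^ 2 ≤ 4 * (Δ * c - v * k) ^ 2 := by
  have h3 : Δ * m ≤ Δ * c := mul_le_mul_of_nonneg_left hc hΔ.le
  have h4 : v * k ≤ v * K := mul_le_mul_of_nonneg_left hk hv.le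
  have h7 : v * K = K * v := mul_comm _ _
  have h5 : Δ * c ≤ 2 * (Δ * c - v * k) := by linarith
  have h6 : 0 ≤ Δ * c := mul_nonneg hΔ.le hc0
  have h8 := mul_self_le_mul_self h6 h5
  have e1 : Δ * c * (Δ * c) = Δ ^ 2 * c ^ 2 := by ring
  have e2 : 2 * (Δ * c - v * k) * (2 * (Δ * c - v * k)) = 4 * (Δ * c - v * k) ^ 2 := by ring
  rw [e1, e2] at h8
  exact h8

/-- `m ^ 2 ≤ S < 4 m` -/
theorem np_small {m S : ℤ} (h3 : S < 4 * m) (h4 : m ^ 2 ≤ S) : m ≤ 3 := by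
  by_contra h
  push Not at h
  have h5 : (4 : ℤ) ≤ m := h
  have h6 : 4 * m ≤ m * m := mul_le_mul_of_nonneg_right h5 (by linarith)
  have e : m ^ 2 = m * m := sq m
  linarith

/-- `2 w ≤ v` -/
theorem np_w {w v K : ℤ} (hv0 : 0 < v) (hK : 1 ≤ K) (hvK : 12 * K ≤ v) (h : w ^ 2 ≤ 2 * K * v) :
    2 * w ≤ v := by
  by_contra hcon
  push Not at hcon
  have h1 : v * v ≤ (2 * w) * (2 * w) := mul_self_le_mul_self hv0.le hcon.le
  have h2 : 12 * K * v ≤ v * v := mul_le_mul_of_nonneg_right hvK hv0.le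
  have h3 : 0 < K * v := mul_pos (by linarith) hv0
  have e1 : (2 * w) * (2 * w) = 4 * w ^ 2 := by ring
  have e2 : 12 * K * v = 12 * (K * v) := by ring
  have e3 : 2 * K * v = 2 * (K * v) := by ring
  rw [e1] at h1
  rw [e2] at h2
  rw [e3] at h
  linarith

/-- the index theorem with one arbitrary multiplicity `m₀`; `v / (D ^ 2 - m₀ ^ 2)` is the ratio of
the curve and the system -/
theorem num_point {ι : Type} [Fintype ι] {k c : ι → ℕ} {D m₀ e c₀ K v : ℕ} (hK : 1 ≤ K)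
    (hk : ∀ i, k i ≤ K) (hD : m₀ + 12 * K ≤ D) (he : 1 ≤ e) (hc₀ : c₀ ≤ e)
    (hXu : ∀ i, 1 ≤ c i → ∑ j, c j ^ 2 + c₀ ^ 2 ≤ e ^ 2 + c i) (hv : v + m₀ * c₀ = D * e)
    (hy : v < ∑ i, k i * c i) {L₂ : ℤ}
    (hL₂ : L₂ = (D : ℤ) ^ 2 - (m₀ : ℤ) ^ 2 - ∑ i, (k i : ℤ) ^ 2)
    (hcase : 0 ≤ L₂ ∨
      (v : ℤ) * (-L₂) ≤ ((D : ℤ) ^ 2 - (m₀ : ℤ) ^ 2) * (∑ i, (k i : ℤ) * c i - v)) :
    (∀ i, (D ^ 2 - m₀ ^ 2) * c i ≤ 3 * K * v) ∧
      (v : ℤ) * |L₂| ≤ 2 * K * ((D : ℤ) ^ 2 - (m₀ : ℤ) ^ 2) ∧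
      v ≤ 2 * ((D + m₀) * (e - c₀)) ∧ e ^ 2 < ∑ i, c i ^ 2 + c₀ ^ 2 := by
  -- a positive multiplicity
  obtain ⟨j, hj⟩ : ∃ j, 1 ≤ c j := by
    by_contra h
    push Not at h
    have h0 : ∑ i, k i * c i = 0 := Finset.sum_eq_zero fun i _ => by
      have := h i
      have h1 : c i = 0 := by omega
      rw [h1, mul_zero]
    omega
  obtain ⟨i₀, hi₀, hmin⟩ := exists_min_pos_q hj
  obtain ⟨m, hm⟩ : ∃ m, m = c i₀ := ⟨_, rfl⟩
  have hXu0 := hXu i₀ hi₀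
  rw [← hm] at hXu0 hi₀
  -- abbreviations
  obtain ⟨S, hS⟩ : ∃ S : ℤ, S = ∑ i, (c i : ℤ) ^ 2 := ⟨_, rfl⟩
  obtain ⟨P, hP⟩ : ∃ P : ℤ, P = ∑ i, (k i : ℤ) * c i := ⟨_, rfl⟩
  obtain ⟨Q, hQ⟩ : ∃ Q : ℤ, Q = ∑ i, (k i : ℤ) ^ 2 := ⟨_, rfl⟩
  have hle : m₀ ^ 2 ≤ D ^ 2 := Nat.pow_le_pow_left (by omega) 2
  obtain ⟨Δ, hΔ⟩ : ∃ Δ : ℤ, Δ = (D : ℤ) ^ 2 - (m₀ : ℤ) ^ 2 := ⟨_, rfl⟩
  have hΔn : ((D ^ 2 - m₀ ^ 2 : ℕ) : ℤ) = Δ := by
    rw [Nat.cast_sub hle, hΔ]; push_cast; rfl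
  rw [← hΔ, ← hQ] at hL₂
  rw [← hΔ, ← hP] at hcase
  rw [← hΔ]
  have hSn : ((∑ j, c j ^ 2 : ℕ) : ℤ) = S := by rw [hS]; push_cast; rfl
  have hPn : ((∑ i, k i * c i : ℕ) : ℤ) = P := by rw [hP]; push_cast; rfl
  have hvz : (v : ℤ) = D * e - m₀ * c₀ := by
    have : ((v + m₀ * c₀ : ℕ) : ℤ) = ((D * e : ℕ) : ℤ) := by rw [hv]
    push_cast at this
    linarith
  obtain ⟨w, hw⟩ : ∃ w : ℤ, w = D * c₀ - m₀ * e := ⟨_, rfl⟩
  have hvw : (v : ℤ) ^ 2 - w ^ 2 = Δ * ((e : ℤ) ^ 2 - (c₀ : ℤ) ^ 2) := by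
    rw [hvz, hw, hΔ]; ring
  have hX : ∑ i, (Δ * c i - v * k i) ^ 2 = Δ ^ 2 * S - 2 * Δ * v * P + v ^ 2 * Q := by
    rw [hS, hP, hQ, Finset.mul_sum, Finset.mul_sum, Finset.mul_sum, ← Finset.sum_sub_distrib,
      ← Finset.sum_add_distrib]
    exact Finset.sum_congr rfl fun i _ => by ring
  have hy' : (v : ℤ) + 1 ≤ P := by
    rw [← hPn]; exact_mod_cast hy
  have hKz : (1 : ℤ) ≤ K := by exact_mod_cast hK
  have hez : (1 : ℤ) ≤ e := by exact_mod_cast he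
  have hDz : (m₀ : ℤ) + 12 * (K : ℤ) ≤ D := by exact_mod_cast hD
  have hmz : (1 : ℤ) ≤ m := by exact_mod_cast hi₀
  have hγ : S + (c₀ : ℤ) ^ 2 ≤ (e : ℤ) ^ 2 + m := by rw [← hSn]; exact_mod_cast hXu0
  have hkz : ∀ i, (k i : ℤ) ≤ K := fun i => by exact_mod_cast hk i
  have hc0 : ∀ i, (0 : ℤ) ≤ c i := fun i => Int.natCast_nonneg _
  have hm00 : (0 : ℤ) ≤ m₀ := Int.natCast_nonneg _
  have hc0e : (c₀ : ℤ) ≤ e := by exact_mod_cast hc₀
  have he0 : (0 : ℤ) < e := by linarith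
  have hΔpos : 0 < Δ := by
    have h1 : (m₀ : ℤ) < D := by linarith
    have h2 : (m₀ : ℤ) ^ 2 < (D : ℤ) ^ 2 := pow_lt_pow_left₀ h1 hm00 two_ne_zero
    rw [hΔ]
    linarith
  have hvK : 12 * (K : ℤ) ≤ v := by
    have h1 : (m₀ : ℤ) * c₀ ≤ m₀ * e := mul_le_mul_of_nonneg_left hc0e hm00
    have h2 : ((m₀ : ℤ) + 12 * K) * e ≤ D * e := mul_le_mul_of_nonneg_right hDz he0.le
    have h3 : 12 * (K : ℤ) * 1 ≤ 12 * K * e := mul_le_mul_of_nonneg_left hez (by linarith)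
    have e1 : ((m₀ : ℤ) + 12 * K) * e = m₀ * e + 12 * K * e := by ring
    rw [e1] at h2
    rw [hvz]
    linarith
  have hv0 : (0 : ℤ) < v := by linarith
  have hΔv : 0 < Δ * v := mul_pos hΔpos hv0
  have hy0 : (0 : ℤ) < P - v := by linarith
  have hΔvy : 0 < Δ * v * (P - v) := mul_pos hΔv hy0
  obtain ⟨hδ1, hδ2⟩ := np_delta hv0 hΔv hy0 hcase
  have hsum : ∑ i, (Δ * c i - v * k i) ^ 2 + Δ * w ^ 2 +
      (2 * Δ * v * (P - v) + v ^ 2 * L₂) = Δ ^ 2 * (S + (c₀ : ℤ) ^ 2 - (e : ℤ) ^ 2) := by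
    rw [hX, hL₂]
    have : Δ * w ^ 2 = Δ * ((v : ℤ) ^ 2 - Δ * ((e : ℤ) ^ 2 - (c₀ : ℤ) ^ 2)) := by
      rw [← hvw]; ring
    rw [this]
    ring
  obtain ⟨Xs, hXs⟩ : ∃ Xs : ℤ, Xs = ∑ i, (Δ * c i - v * k i) ^ 2 := ⟨_, rfl⟩
  rw [← hXs] at hsum
  have hΔw : 0 ≤ Δ * w ^ 2 := mul_nonneg hΔpos.le (sq_nonneg _)
  have hX0 : 0 ≤ Xs := by
    rw [hXs]
    exact Finset.sum_nonneg fun i _ => sq_nonneg _
  have hγ2 : Δ ^ 2 * (S + (c₀ : ℤ) ^ 2 - (e : ℤ) ^ 2) ≤ Δ ^ 2 * m :=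
    mul_le_mul_of_nonneg_left (by linarith) (sq_nonneg Δ)
  -- the least multiplicity is small
  have hmK : Δ * m ≤ 2 * K * v := by
    by_contra hcon
    push Not at hcon
    have h1 : Δ ^ 2 * S ≤ 4 * Xs := by
      rw [hS, hXs, Finset.mul_sum, Finset.mul_sum]
      refine Finset.sum_le_sum fun i _ => ?_
      rcases Nat.eq_zero_or_pos (c i) with h0 | h0
      · have h1 : ((c i : ℕ) : ℤ) = 0 := by rw [h0]; rfl
        rw [h1, zero_pow two_ne_zero, mul_zero]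
        exact mul_nonneg (by norm_num) (sq_nonneg _)
      · have h2 : (m : ℤ) ≤ c i := by
          rw [hm]
          exact_mod_cast hmin i h0
        exact np_term hΔpos hv0 h2 (hc0 i) (hkz i) hcon
    have h2 : Δ ^ 2 * S < Δ ^ 2 * (4 * m) := by
      have e1 : Δ ^ 2 * (4 * (m : ℤ)) = 4 * (Δ ^ 2 * m) := by ring
      rw [e1]
      linarith
    have h3 : S < 4 * m := lt_of_mul_lt_mul_left h2 (sq_nonneg Δ)
    have h4 : (m : ℤ) ^ 2 ≤ S := by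
      rw [hS, hm]
      exact Finset.single_le_sum (f := fun i => (c i : ℤ) ^ 2) (fun i _ => sq_nonneg _)
        (Finset.mem_univ i₀)
    have h5 : (m : ℤ) ≤ 3 := np_small h3 h4
    have h6 : ∑ i, (c i : ℤ) ≤ S := by
      rw [hS]
      refine Finset.sum_le_sum fun i _ => ?_
      rcases Nat.eq_zero_or_pos (c i) with h0 | h0
      · rw [h0]; simp
      · have h7 : (1 : ℤ) ≤ c i := by exact_mod_cast h0
        have h8 : (c i : ℤ) * 1 ≤ (c i : ℤ) * c i := mul_le_mul_of_nonneg_left h7 (hc0 i)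
        rw [mul_one] at h8
        rw [sq]
        exact h8
    have h7 : P ≤ K * ∑ i, (c i : ℤ) := by
      rw [hP, Finset.mul_sum]
      exact Finset.sum_le_sum fun i _ => mul_le_mul_of_nonneg_right (hkz i) (hc0 i)
    have h8 : ∑ i, (c i : ℤ) ≤ 11 := by linarith
    have h9 : (K : ℤ) * ∑ i, (c i : ℤ) ≤ K * 11 := mul_le_mul_of_nonneg_left h8 (by linarith)
    linarith
  -- conclusions
  have hγ3 : Δ ^ 2 * m ≤ Δ * (2 * K * v) := by
    have h2 : Δ * (Δ * m) ≤ Δ * (2 * K * v) := mul_le_mul_of_nonneg_left hmK hΔpos.le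
    have e1 : Δ * (Δ * (m : ℤ)) = Δ ^ 2 * m := by ring
    rw [e1] at h2
    exact h2
  have hΔ2 : Δ ≤ 2 * K * v := by
    have : Δ * 1 ≤ Δ * m := mul_le_mul_of_nonneg_left hmz hΔpos.le
    linarith
  have h2Kv : 0 ≤ 2 * (K : ℤ) * v := hΔpos.le.trans hΔ2
  refine ⟨fun i => ?_, ?_, ?_, ?_⟩
  · have h1 : (Δ * c i - v * k i) ^ 2 ≤ (2 * K * v) ^ 2 := by
      have h2 : Δ * (2 * K * v) ≤ (2 * K * v) * (2 * K * v) :=
        mul_le_mul_of_nonneg_right hΔ2 h2Kv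
      have h3 : (Δ * c i - v * k i) ^ 2 ≤ Xs := by
        rw [hXs]
        exact Finset.single_le_sum (f := fun i => (Δ * c i - v * k i) ^ 2)
          (fun i _ => sq_nonneg _) (Finset.mem_univ i)
      have e1 : (2 * K * v) * (2 * K * v) = (2 * (K : ℤ) * v) ^ 2 := by ring
      rw [e1] at h2
      linarith
    have h2 : Δ * c i - v * k i ≤ 2 * K * v := (abs_le_of_sq_le_sq' h1 h2Kv).2
    have h3 : (v : ℤ) * k i ≤ v * K := mul_le_mul_of_nonneg_left (hkz i) hv0.le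
    have e1 : (v : ℤ) * K = K * v := mul_comm _ _
    have e2 : 3 * (K : ℤ) * v = 2 * K * v + K * v := by ring
    have h4 : Δ * c i ≤ 3 * K * v := by rw [e2]; linarith
    rw [← hΔn] at h4
    exact_mod_cast h4
  · have h1 : (v : ℤ) ^ 2 * |L₂| ≤ Δ * (2 * K * v) := by linarith
    have e1 : (v : ℤ) * ((v : ℤ) * |L₂|) = (v : ℤ) ^ 2 * |L₂| := by ring
    have e2 : (v : ℤ) * (2 * K * Δ) = Δ * (2 * K * v) := by ring
    have h2 : (v : ℤ) * ((v : ℤ) * |L₂|) ≤ v * (2 * K * Δ) := by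
      rw [e1, e2]
      exact h1
    exact le_of_mul_le_mul_left h2 hv0
  · have h1 : Δ * w ^ 2 ≤ Δ * (2 * K * v) := by linarith
    have h2 : w ^ 2 ≤ 2 * K * v := le_of_mul_le_mul_left h1 hΔpos
    have h3 : 2 * w ≤ v := np_w hv0 hKz hvK h2
    have h4 : ((e - c₀ : ℕ) : ℤ) = e - c₀ := Nat.cast_sub hc₀
    have h5 : (v : ℤ) ≤ 2 * ((D + m₀) * ((e - c₀ : ℕ) : ℤ)) := by
      rw [h4]
      have h6 : ((D : ℤ) + m₀) * (e - c₀) = v - w := by rw [hvz, hw]; ring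
      rw [h6]
      linarith
    exact_mod_cast h5
  · have h1 : 0 < Δ ^ 2 * (S + (c₀ : ℤ) ^ 2 - (e : ℤ) ^ 2) := by linarith
    have h2 : 0 < S + (c₀ : ℤ) ^ 2 - (e : ℤ) ^ 2 := by
      by_contra hcon
      push Not at hcon
      have := mul_nonpos_of_nonneg_of_nonpos (sq_nonneg Δ) hcon
      linarith
    have h3 : (e : ℤ) ^ 2 < ((∑ i, c i ^ 2 : ℕ) : ℤ) + (c₀ : ℤ) ^ 2 := by rw [hSn]; linarith
    exact_mod_cast h3

end Pool.Agent.Work.MP_0421d9_ag.LD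
end

section
/-!
Irreducibility of the rigid curves: arithmetic.

`a`, `x` are the degree and the multiplicities of one factor, `b`, `y` those of the other one.
-/

namespace Pool.Agent.Work.MP_0421d9_ag.LD

/-- both factors have `χ = 1`: contradiction with the index theorem -/
theorem irr_split {ι : Type} [Fintype ι] {a b M α : ℕ} {x y : ι → ℕ}
    (hL : (a + b) * (a + b + 3) = ∑ i, (x i + y i) * (x i + y i + 1))
    (hA : a * (a + 3) = ∑ i, x i * (x i + 1)) (hB : b * (b + 3) = ∑ i, y i * (y i + 1))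
    (hx : ∀ i, x i ≤ α) (hy : ∀ i, y i ≤ M) (ha : 3 * α < a) (hb : 3 * M < b) : False := by
  have key : ∀ (c β : ℕ) (z : ι → ℕ), c * (c + 3) = ∑ i, z i * (z i + 1) → (∀ i, z i ≤ β) →
      3 * β < c → ∑ i, z i ^ 2 < c ^ 2 := by
    intro c β z h1 h2 h3
    have h4 : c * (c + 3) ≤ (β + 1) * ∑ i, z i := by
      rw [h1, Finset.mul_sum]
      refine Finset.sum_le_sum fun i _ => ?_
      rw [mul_comm]
      exact Nat.mul_le_mul_right _ (by have := h2 i; omega)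
    have h5 : ∑ i, z i ^ 2 + ∑ i, z i = c * (c + 3) := by
      rw [h1, ← Finset.sum_add_distrib]
      refine Finset.sum_congr rfl fun i _ => ?_
      ring
    by_contra hcon
    push Not at hcon
    nlinarith [Nat.mul_le_mul_left (β + 1) hcon]
  have hX := key a α x hA hx ha
  have hY := key b M y hB hy hb
  have hxy : ∑ i, x i * y i = a * b := by
    have h1 : ∑ i, (x i + y i) * (x i + y i + 1) =
        ∑ i, x i * (x i + 1) + ∑ i, y i * (y i + 1) + 2 * ∑ i, x i * y i := by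
      rw [Finset.mul_sum, ← Finset.sum_add_distrib, ← Finset.sum_add_distrib]
      refine Finset.sum_congr rfl fun i _ => ?_
      ring
    rw [← hL, ← hA, ← hB] at h1
    nlinarith
  have hCS := Finset.sum_mul_sq_le_sq_mul_sq Finset.univ (fun i => (x i : ℤ)) (fun i => (y i : ℤ))
  have hX' : (∑ i, (x i : ℤ) ^ 2) < (a : ℤ) ^ 2 := by exact_mod_cast hX
  have hY' : (∑ i, (y i : ℤ) ^ 2) < (b : ℤ) ^ 2 := by exact_mod_cast hY
  have hxy' : (∑ i, (x i : ℤ) * y i) = (a : ℤ) * b := by exact_mod_cast hxy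
  have hX0 : 0 ≤ ∑ i, (x i : ℤ) ^ 2 := Finset.sum_nonneg fun i _ => sq_nonneg _
  have hY0 : 0 ≤ ∑ i, (y i : ℤ) ^ 2 := Finset.sum_nonneg fun i _ => sq_nonneg _
  rw [hxy'] at hCS
  generalize (∑ i, (x i : ℤ) ^ 2) = X at *
  generalize (∑ i, (y i : ℤ) ^ 2) = Y at *
  have h1 : X * Y ≤ X * (b : ℤ) ^ 2 := mul_le_mul_of_nonneg_left hY'.le hX0
  have hb0 : (0 : ℤ) < b := by
    have : 0 < b := by omega
    exact_mod_cast this
  have h2 : X * (b : ℤ) ^ 2 < (a : ℤ) ^ 2 * (b : ℤ) ^ 2 :=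
    mul_lt_mul_of_pos_right hX' (by positivity)
  nlinarith

theorem irr_end {a b α S T : ℤ} (ha : 1 ≤ a) (hb : 0 ≤ b) (hα : 2 ≤ α)
    (h2 : 4 * a ^ 2 ≤ α * (a + b)) (hX : S ≤ a ^ 2 + α)
    (h9 : 49 * ((a + b) * α) ^ 2 - 16 * a ^ 2 * S ≤ 64 * T)
    (hup : T ≤ (a + b) * b * α) : False := by
  obtain ⟨d, hd⟩ : ∃ d, d = a + b := ⟨_, rfl⟩
  rw [← hd] at h2 h9 hup
  have hd1 : 1 ≤ d := by linarith
  obtain ⟨w, hw⟩ : ∃ w, w = d * α := ⟨_, rfl⟩
  have hw0 : 0 < w := by rw [hw]; exact mul_pos (by linarith) (by linarith)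
  have h2' : 4 * a ^ 2 ≤ w := by rw [hw, mul_comm d α]; exact h2
  have h10 : a ^ 2 * S ≤ a ^ 2 * (a ^ 2 + α) := mul_le_mul_of_nonneg_left hX (sq_nonneg _)
  have h11 : (4 * a ^ 2) * (4 * a ^ 2) ≤ w * w := mul_le_mul h2' h2' (by positivity) hw0.le
  have h12 : (4 * a ^ 2) * α ≤ w * α := mul_le_mul_of_nonneg_right h2' (by linarith)
  have h13 : w * b ≤ w * d := mul_le_mul_of_nonneg_left (by linarith) hw0.le
  have h14 : d * b * α = w * b := by rw [hw]; ring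
  rw [h14] at hup
  rw [← hw] at h9
  have h15 : w * (48 * w) ≤ w * (64 * d + 4 * α) := by
    calc w * (48 * w) = 49 * w ^ 2 - w * w := by ring
      _ ≤ 49 * w ^ 2 - (4 * a ^ 2) * (4 * a ^ 2) := by linarith
      _ = 49 * w ^ 2 - 16 * (a ^ 2 * a ^ 2) := by ring
      _ ≤ 64 * T + 16 * (a ^ 2 * S) - 16 * (a ^ 2 * a ^ 2) := by linarith
      _ ≤ 64 * T + 16 * (a ^ 2 * (a ^ 2 + α)) - 16 * (a ^ 2 * a ^ 2) := by linarith
      _ = 64 * T + 4 * ((4 * a ^ 2) * α) := by ring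
      _ ≤ 64 * (w * b) + 4 * (w * α) := by linarith
      _ ≤ 64 * (w * d) + 4 * (w * α) := by linarith
      _ = w * (64 * d + 4 * α) := by ring
  have h16 : 48 * w ≤ 64 * d + 4 * α := le_of_mul_le_mul_left h15 hw0
  have h17 : 2 * d ≤ w := by rw [hw]; nlinarith
  have h18 : α ≤ w := by rw [hw]; nlinarith
  linarith

/-- a factor of small degree: contradiction with Xu's inequality -/
theorem irr_core {ι : Type} [Fintype ι] {a b M : ℕ} {x y : ι → ℕ} {i₀ : ι}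
    (ha : 1 ≤ a) (hL : (a + b) * (a + b + 3) = ∑ i, (x i + y i) * (x i + y i + 1))
    (hB : b * (b + 3) = ∑ i, y i * (y i + 1)) (hM : ∀ i, x i + y i ≤ M) (hi : 1 ≤ x i₀)
    (hmax : ∀ i, x i ≤ x i₀) (hXu : ∑ i, x i ^ 2 ≤ a ^ 2 + x i₀)
    (h1 : 16 * a * M ≤ x i₀ * (a + b)) (h2 : 4 * a ^ 2 ≤ x i₀ * (a + b)) : False := by
  -- integers
  obtain ⟨S, hS⟩ : ∃ S : ℤ, S = ∑ i, (x i : ℤ) ^ 2 := ⟨_, rfl⟩
  obtain ⟨G, hG⟩ : ∃ G : ι → ℤ, G = fun i => (((a : ℤ) + b) * x i - a * (x i + y i)) *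
    (((a : ℤ) + b) * x i - a * (x i + y i) - a) := ⟨_, rfl⟩
  have haz : (1 : ℤ) ≤ a := by exact_mod_cast ha
  have hbz : (0 : ℤ) ≤ b := by positivity
  have hLz : ((a : ℤ) + b) * (a + b + 3) = ∑ i, ((x i : ℤ) + y i) * (x i + y i + 1) := by
    exact_mod_cast hL
  have hBz : (b : ℤ) * (b + 3) = ∑ i, (y i : ℤ) * (y i + 1) := by exact_mod_cast hB
  have hsum : ∑ i, G i = ((a : ℤ) + b) * b * (S - a ^ 2) := by
    have e1 : ∑ i, G i = (((a : ℤ) + b) * b) * S +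
        a * ((a : ℤ) + b) * ∑ i, (y i : ℤ) * (y i + 1) -
        a * b * ∑ i, ((x i : ℤ) + y i) * (x i + y i + 1) := by
      rw [hS, hG, Finset.mul_sum, Finset.mul_sum, Finset.mul_sum, ← Finset.sum_add_distrib,
        ← Finset.sum_sub_distrib]
      refine Finset.sum_congr rfl fun i _ => ?_
      ring
    rw [e1, ← hLz, ← hBz]
    ring
  have hXz : S ≤ (a : ℤ) ^ 2 + x i₀ := by
    rw [hS]
    exact_mod_cast hXu
  have h1z : 16 * (a : ℤ) * M ≤ x i₀ * (a + b) := by exact_mod_cast h1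
  have h2z : 4 * (a : ℤ) ^ 2 ≤ x i₀ * (a + b) := by exact_mod_cast h2
  have hi' : (1 : ℤ) ≤ x i₀ := by exact_mod_cast hi
  -- the lower bound for all terms
  have hlow : ∀ i, -((a : ℤ) ^ 2 * (x i : ℤ) ^ 2) ≤ 4 * G i := by
    intro i
    rw [hG]
    simp only
    rcases Nat.eq_zero_or_pos (x i) with h | h
    · rw [h]
      push_cast
      have h3 : 0 ≤ (a : ℤ) ^ 2 * (y i * (y i + 1)) := by positivity
      calc -((a : ℤ) ^ 2 * 0 ^ 2) ≤ 4 * ((a : ℤ) ^ 2 * (y i * (y i + 1))) := by linarith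
        _ = _ := by ring
    · have hx : (1 : ℤ) ≤ x i := by exact_mod_cast h
      have h3 : (a : ℤ) ^ 2 ≤ (a : ℤ) ^ 2 * (x i : ℤ) ^ 2 :=
        le_mul_of_one_le_right (sq_nonneg _) (one_le_pow₀ hx)
      generalize ((a : ℤ) + b) * x i - a * (x i + y i) = z at *
      have h4 := sq_nonneg (2 * z - a)
      calc -((a : ℤ) ^ 2 * (x i : ℤ) ^ 2) ≤ -(a : ℤ) ^ 2 := by linarith
        _ ≤ (2 * z - a) ^ 2 - (a : ℤ) ^ 2 := by linarith
        _ = 4 * (z * (z - a)) := by ring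
  -- the lower bound for large terms
  have hbig : ∀ i, x i = x i₀ → 49 * (((a : ℤ) + b) * x i₀) ^ 2 ≤ 64 * G i := by
    intro i hxi
    have hMi : (x i : ℤ) + y i ≤ M := by exact_mod_cast hM i
    have hM1 : (1 : ℤ) ≤ M := by
      have : (0 : ℤ) ≤ y i := by positivity
      rw [hxi] at hMi
      linarith
    have h5 : (a : ℤ) * (x i + y i) ≤ a * M := mul_le_mul_of_nonneg_left hMi (by linarith)
    have h6 : (a : ℤ) ≤ a * M := le_mul_of_one_le_right (by linarith) hM1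
    have h7 : 7 * (((a : ℤ) + b) * x i₀) ≤
        8 * (((a : ℤ) + b) * x i - a * (x i + y i) - a) := by
      rw [hxi] at h5 ⊢
      linarith
    have h8 : (0 : ℤ) ≤ ((a : ℤ) + b) * x i₀ := by positivity
    rw [hG]
    simp only
    generalize ((a : ℤ) + b) * x i - a * (x i + y i) = z at *
    generalize ((a : ℤ) + b) * x i₀ = w at *
    calc 49 * w ^ 2 = (7 * w) * (7 * w) := by ring
      _ ≤ (8 * z) * (8 * (z - a)) := mul_le_mul (by linarith) h7 (by linarith) (by linarith)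
      _ = 64 * (z * (z - a)) := by ring
  have hd : (1 : ℤ) ≤ (a : ℤ) + b := by linarith
  have hup : ∑ i, G i ≤ ((a : ℤ) + b) * b * x i₀ := by
    rw [hsum]
    exact mul_le_mul_of_nonneg_left (by linarith) (by positivity)
  rcases Nat.lt_or_ge (x i₀) 2 with hα | hα
  · -- all multiplicities are at most one
    have hx1 : x i₀ = 1 := by omega
    have h9 : 49 * ((a : ℤ) + b) ^ 2 * S ≤ 64 * ∑ i, G i := by
      rw [hS, Finset.mul_sum, Finset.mul_sum]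
      refine Finset.sum_le_sum fun i _ => ?_
      have h10 := hmax i
      rcases Nat.eq_zero_or_pos (x i) with h | h
      · have h11 := hlow i
        rw [h] at h11 ⊢
        push_cast at h11 ⊢
        linarith
      · have h12 : x i = x i₀ := by omega
        have h13 := hbig i h12
        rw [hx1] at h13
        have h14 : (x i : ℤ) ^ 2 = 1 := by
          rw [h12, hx1]
          norm_num
        rw [h14]
        calc 49 * ((a : ℤ) + b) ^ 2 * 1 = 49 * (((a : ℤ) + b) * ((1 : ℕ) : ℤ)) ^ 2 := by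
              push_cast
              ring
          _ ≤ 64 * G i := h13
    have hS1 : (x i₀ : ℤ) ^ 2 ≤ S := by
      rw [hS]
      exact Finset.single_le_sum (f := fun i => (x i : ℤ) ^ 2) (fun i _ => sq_nonneg _)
        (Finset.mem_univ i₀)
    rw [hx1] at hS1 hXz
    push_cast at hS1 hXz
    rw [hsum] at h9
    have hd0 : (0 : ℤ) < (a : ℤ) + b := by linarith
    have h14 : 49 * ((a : ℤ) + b) * S ≤ 64 * (b * (S - a ^ 2)) := by
      refine le_of_mul_le_mul_left ?_ hd0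
      calc ((a : ℤ) + b) * (49 * ((a : ℤ) + b) * S) = 49 * ((a : ℤ) + b) ^ 2 * S := by ring
        _ ≤ 64 * (((a : ℤ) + b) * b * (S - a ^ 2)) := h9
        _ = ((a : ℤ) + b) * (64 * (b * (S - a ^ 2))) := by ring
    rcases le_or_gt S ((a : ℤ) ^ 2) with h | h
    · have h15 : (b : ℤ) * (S - a ^ 2) ≤ 0 :=
        mul_nonpos_of_nonneg_of_nonpos hbz (by linarith)
      have h16 : 0 < ((a : ℤ) + b) * S := mul_pos hd0 (by linarith)
      linarith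
    · have h15 : (b : ℤ) * (S - a ^ 2) ≤ (a + b) * (S - a ^ 2) :=
        mul_le_mul_of_nonneg_right (by linarith) (by linarith)
      have h16 : 49 * S ≤ 64 * (S - (a : ℤ) ^ 2) := by
        refine le_of_mul_le_mul_left ?_ hd0
        calc ((a : ℤ) + b) * (49 * S) = 49 * ((a : ℤ) + b) * S := by ring
          _ ≤ 64 * (b * (S - a ^ 2)) := h14
          _ ≤ 64 * ((a + b) * (S - a ^ 2)) := by linarith
          _ = ((a : ℤ) + b) * (64 * (S - a ^ 2)) := by ring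
      nlinarith
  · have hαz : (2 : ℤ) ≤ x i₀ := by exact_mod_cast hα
    classical
    have h9 : 49 * (((a : ℤ) + b) * x i₀) ^ 2 - 16 * a ^ 2 * S ≤ 64 * ∑ i, G i := by
      rw [← Finset.add_sum_erase _ G (Finset.mem_univ i₀)]
      have h10 := hbig i₀ rfl
      have h11 : -(a ^ 2 * S) ≤ 4 * ∑ i ∈ Finset.univ.erase i₀, G i := by
        have h12 : -(a ^ 2 * ∑ i ∈ Finset.univ.erase i₀, (x i : ℤ) ^ 2) ≤
            4 * ∑ i ∈ Finset.univ.erase i₀, G i := by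
          rw [Finset.mul_sum, Finset.mul_sum, ← Finset.sum_neg_distrib]
          exact Finset.sum_le_sum fun i _ => hlow i
        have h13 : ∑ i ∈ Finset.univ.erase i₀, (x i : ℤ) ^ 2 ≤ S := by
          rw [hS]
          exact Finset.sum_le_sum_of_subset_of_nonneg (Finset.erase_subset _ _)
            fun i _ _ => sq_nonneg _
        have h14 : (a : ℤ) ^ 2 * ∑ i ∈ Finset.univ.erase i₀, (x i : ℤ) ^ 2 ≤ a ^ 2 * S :=
          mul_le_mul_of_nonneg_left h13 (sq_nonneg _)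
        linarith
      linarith
    exact irr_end haz hbz hαz h2z hXz h9 hup

end Pool.Agent.Work.MP_0421d9_ag.LD
end

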