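import Pool.Agent.Work.Z0421M.C18
import Pool.Agent.Work.Z0421M.C22
import Pool.Agent.Work.Z0421M.C33
import Pool.Agent.Work.Z0421M.C43

section
/-!
The windows for the plane, with one arbitrary multiplicity.
-/

namespace Pool.Agent.Work.MP_0421d9_ag.LD

open MvPolynomial Module

theorem choose_lt_sum_q {ι : Type} [Fintype ι] {c : ι → ℕ} {c₀ e : ℕ}
    (h : (c₀ + 1).choose 2 + ∑ i, (c i + 1).choose 2 < (e + 2).choose 2) :
    c₀ ^ 2 + c₀ + (∑ i, c i ^ 2 + ∑ i, c i) < e ^ 2 + 3 * e + 2 := by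
  have h1 := zpos_choose_two c₀
  have h3 := zpos_choose_two (e + 1)
  have h2 : 2 * ∑ i, (c i + 1).choose 2 = ∑ i, c i ^ 2 + ∑ i, c i := by
    rw [Finset.mul_sum, ← Finset.sum_add_distrib]
    refine Finset.sum_congr rfl fun i _ => ?_
    rw [zpos_choose_two]
    ring
  have h5 : e + 1 + 1 = e + 2 := rfl
  rw [h5] at h3
  nlinarith

/-- the core: an irreducible curve with a negative intersection number -/
theorem planeQ_core {T ρ r : ℕ} (h : FQ T ρ) (hρ : 4 ≤ ρ) {b : P2} (hb : Irreducible b)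
    {D K m₀ : ℕ} {k : Fin r → ℕ} (hK : 1 ≤ K) (hk : ∀ i, k i ≤ K) (hD : m₀ + 6 * ρ * K ≤ D)
    (hy : D * b.totalDegree < m₀ * mu (aff (gpt (r + 1)) 0) b +
      ∑ i, k i * mu (aff (gpt (r + 1)) i.succ) b)
    (hcase : (m₀ ^ 2 + ∑ i, k i ^ 2 ≤ D ^ 2) ∨
      ((D : ℤ) * b.totalDegree - m₀ * mu (aff (gpt (r + 1)) 0) b) *
          (m₀ ^ 2 + ∑ i, (k i : ℤ) ^ 2 - D ^ 2) ≤
        ((D : ℤ) ^ 2 - (m₀ : ℤ) ^ 2) * (m₀ * mu (aff (gpt (r + 1)) 0) b +
          ∑ i, (k i : ℤ) * mu (aff (gpt (r + 1)) i.succ) b - D * b.totalDegree)) :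
    ((T : ℤ) + 1) * |(D : ℤ) ^ 2 - (m₀ : ℤ) ^ 2 - ∑ i, (k i : ℤ) ^ 2| ≤ 6 * K ^ 2 := by
  have hgen := gpt_generic (r + 1)
  obtain ⟨e, he⟩ : ∃ e, e = b.totalDegree := ⟨_, rfl⟩
  obtain ⟨c₀, hc₀⟩ : ∃ c₀, c₀ = mu (aff (gpt (r + 1)) 0) b := ⟨_, rfl⟩
  obtain ⟨c, hc⟩ : ∃ c : Fin r → ℕ, ∀ i, c i = mu (aff (gpt (r + 1)) i.succ) b := ⟨_, fun i => rfl⟩
  simp only [← he, ← hc₀, ← hc] at hy hcase
  have he1 : 1 ≤ e := by rw [he]; exact deg_pos hb
  have hc₀e : c₀ ≤ e := by rw [he, hc₀]; exact mu_le_totalDegree _ hb.ne_zero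
  have h12 : m₀ + 12 * K ≤ D := by nlinarith
  have hmD : m₀ ≤ D := by omega
  obtain ⟨v, hv⟩ : ∃ v, v + m₀ * c₀ = D * e := by
    have h1 : m₀ * c₀ ≤ D * e := Nat.mul_le_mul hmD hc₀e
    exact ⟨D * e - m₀ * c₀, by omega⟩
  have hvz : (v : ℤ) = D * e - m₀ * c₀ := by
    have : ((v + m₀ * c₀ : ℕ) : ℤ) = ((D * e : ℕ) : ℤ) := by rw [hv]
    push_cast at this
    linarith
  have hXu : ∀ i, 1 ≤ c i → ∑ j, c j ^ 2 + c₀ ^ 2 ≤ e ^ 2 + c i := by
    intro i hi
    have h1 := xu (aff_injective hgen) (aff_movable hgen) hb (i := i.succ)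
      (by rw [← hc i]; exact hi)
    rw [Fin.sum_univ_succ, ← hc i, ← he, ← hc₀] at h1
    simp only [← hc] at h1
    linarith
  obtain ⟨L₂, hL₂⟩ : ∃ L₂ : ℤ, L₂ = (D : ℤ) ^ 2 - (m₀ : ℤ) ^ 2 - ∑ i, (k i : ℤ) ^ 2 := ⟨_, rfl⟩
  have hcase' : 0 ≤ L₂ ∨
      (v : ℤ) * (-L₂) ≤ ((D : ℤ) ^ 2 - (m₀ : ℤ) ^ 2) * (∑ i, (k i : ℤ) * c i - v) := by
    rcases hcase with h1 | h1
    · left
      have h2 : (m₀ : ℤ) ^ 2 + ∑ i, (k i : ℤ) ^ 2 ≤ (D : ℤ) ^ 2 := by exact_mod_cast h1
      rw [hL₂]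
      linarith
    · right
      have e1 : (v : ℤ) * (-L₂) = ((D : ℤ) * e - m₀ * c₀) *
          (m₀ ^ 2 + ∑ i, (k i : ℤ) ^ 2 - D ^ 2) := by
        rw [hL₂, hvz]; ring
      have e2 : ((D : ℤ) ^ 2 - (m₀ : ℤ) ^ 2) * (∑ i, (k i : ℤ) * c i - v) =
          ((D : ℤ) ^ 2 - (m₀ : ℤ) ^ 2) * (m₀ * c₀ + ∑ i, (k i : ℤ) * c i - D * e) := by
        rw [hvz]; ring
      rw [e1, e2]
      exact h1
  obtain ⟨h1, h2, h3, hidx⟩ := num_point (k := k) (c := c) hK hk h12 he1 hc₀e hXu hv (by omega)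
    hL₂ hcase'
  rw [← hL₂]
  have hKpos : 0 < K := hK
  by_cases hT : ∀ i, c i ≤ T
  · exfalso
    obtain ⟨cm, hcm⟩ : ∃ cm, cm = Finset.univ.sup c := ⟨_, rfl⟩
    have hle : ∀ i, c i ≤ cm := fun i => by
      rw [hcm]; exact Finset.le_sup (Finset.mem_univ i)
    have hcmT : cm ≤ T := by rw [hcm]; exact Finset.sup_le fun i _ => hT i
    have hsq : c₀ ^ 2 ≤ e ^ 2 := Nat.pow_le_pow_left hc₀e 2
    have hcm1 : 1 ≤ cm := by
      by_contra h0
      have h0' : cm = 0 := by omega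
      have h3 : ∑ i, c i ^ 2 = 0 := by
        apply Finset.sum_eq_zero
        intro i _
        have := hle i
        have h4 : c i = 0 := by omega
        rw [h4]
        rfl
      omega
    have hex : ∃ i, c i = cm := by
      have hne : (Finset.univ : Finset (Fin r)).Nonempty := by
        by_contra hemp
        rw [Finset.not_nonempty_iff_eq_empty] at hemp
        rw [hemp] at hcm
        simp at hcm
        omega
      obtain ⟨i, -, hi⟩ := Finset.exists_mem_eq_sup _ hne c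
      exact ⟨i, by rw [hcm]; exact hi.symm⟩
    obtain ⟨i0, hi0⟩ := hex
    -- room
    have hroom : c₀ + ρ * cm ≤ e := by
      have h4 := h1 i0
      rw [hi0] at h4
      have h5 : D ^ 2 - m₀ ^ 2 = (D + m₀) * (D - m₀) := Nat.sq_sub_sq D m₀
      have h6 : 3 * K * v ≤ 3 * K * (2 * ((D + m₀) * (e - c₀))) := Nat.mul_le_mul_left _ h3
      have h7 : (D + m₀) * ((D - m₀) * cm) ≤ (D + m₀) * (6 * K * (e - c₀)) := by
        calc (D + m₀) * ((D - m₀) * cm) = (D ^ 2 - m₀ ^ 2) * cm := by rw [h5]; ring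
          _ ≤ 3 * K * (2 * ((D + m₀) * (e - c₀))) := h4.trans h6
          _ = (D + m₀) * (6 * K * (e - c₀)) := by ring
      have h8 : (D - m₀) * cm ≤ 6 * K * (e - c₀) :=
        Nat.le_of_mul_le_mul_left h7 (by omega)
      have h9 : 6 * ρ * K ≤ D - m₀ := by omega
      have h10 : (6 * K) * (ρ * cm) ≤ (6 * K) * (e - c₀) := by
        calc (6 * K) * (ρ * cm) = 6 * ρ * K * cm := by ring
          _ ≤ (D - m₀) * cm := Nat.mul_le_mul_right _ h9
          _ ≤ (6 * K) * (e - c₀) := h8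
      have h11 : ρ * cm ≤ e - c₀ := Nat.le_of_mul_le_mul_left h10 (by omega)
      omega
    have h4 := h r cm e c₀ c hcm1 hcmT hle hroom
    have h5 : 1 ≤ hPm e (Fin.cons c₀ c : Fin (r + 1) → ℕ) := by
      refine one_le_hPm hb.ne_zero he.symm.le fun i => ?_
      refine Fin.cases ?_ (fun j => ?_) i
      · rw [Fin.cons_zero, hc₀]
        exact vq_mu _ hb.ne_zero
      · rw [Fin.cons_succ, hc]
        exact vq_mu _ hb.ne_zero
    have h6 : (c₀ + 1).choose 2 + ∑ i, (c i + 1).choose 2 < (e + 2).choose 2 := by omega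
    have h7 := choose_lt_sum_q h6
    have h8 := sum_sq_le hle
    -- `∑ c i > 4 (e + c₀)`
    have h9 : (e - c₀) * (e + c₀) < cm * ∑ i, c i := by
      have h10 : e ^ 2 - c₀ ^ 2 = (e + c₀) * (e - c₀) := Nat.sq_sub_sq e c₀
      have h11 : (e - c₀) * (e + c₀) = e ^ 2 - c₀ ^ 2 := by rw [h10, mul_comm]
      rw [h11]
      omega
    have h10 : cm * (4 * (e + c₀)) ≤ (e - c₀) * (e + c₀) := by
      have h11 : ρ * cm ≤ e - c₀ := by omega
      calc cm * (4 * (e + c₀)) = (4 * cm) * (e + c₀) := by ring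
        _ ≤ (ρ * cm) * (e + c₀) := Nat.mul_le_mul_right _ (Nat.mul_le_mul_right _ hρ)
        _ ≤ (e - c₀) * (e + c₀) := Nat.mul_le_mul_right _ h11
    have h11 : 4 * (e + c₀) < ∑ i, c i := Nat.lt_of_mul_lt_mul_left (h10.trans_lt h9)
    omega
  · push Not at hT
    obtain ⟨i0, hi0⟩ := hT
    have hle : m₀ ^ 2 ≤ D ^ 2 := Nat.pow_le_pow_left hmD 2
    have hΔn : ((D ^ 2 - m₀ ^ 2 : ℕ) : ℤ) = (D : ℤ) ^ 2 - (m₀ : ℤ) ^ 2 := by
      rw [Nat.cast_sub hle]; push_cast; rfl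
    have h4 := h1 i0
    have h5 : (D ^ 2 - m₀ ^ 2) * (T + 1) ≤ 3 * K * v := (Nat.mul_le_mul_left _ hi0).trans h4
    have h6 : ((D : ℤ) ^ 2 - (m₀ : ℤ) ^ 2) * (T + 1) ≤ 3 * K * v := by
      rw [← hΔn]
      exact_mod_cast h5
    have hΔpos : (0 : ℤ) < (D : ℤ) ^ 2 - (m₀ : ℤ) ^ 2 := by
      have h7 : (m₀ : ℤ) + 12 * K ≤ D := by exact_mod_cast h12
      have h8 : (1 : ℤ) ≤ K := by exact_mod_cast hK
      have h9 : (0 : ℤ) ≤ m₀ := Int.natCast_nonneg _
      nlinarith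
    have hM := abs_nonneg L₂
    generalize |L₂| = M at *
    generalize (D : ℤ) ^ 2 - (m₀ : ℤ) ^ 2 = Δ at *
    have h7 := mul_le_mul_of_nonneg_right h6 hM
    have h8 : (3 * (K : ℤ)) * (v * M) ≤ 3 * K * (2 * K * Δ) :=
      mul_le_mul_of_nonneg_left h2 (by positivity)
    have h9 : Δ * (((T : ℤ) + 1) * M) ≤ Δ * (6 * K ^ 2) := by nlinarith
    exact le_of_mul_le_mul_left h9 hΔpos

theorem winQ_of_FQ {T ρ : ℕ} (hT : 1 ≤ T) (hρ : 4 ≤ ρ) (h : FQ T ρ) : WinQ T ρ := by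
  intro r c D m₀ m hc hm hD
  have hgen := gpt_generic (r + 1)
  have hcpos : 0 < 6 * ρ * (c + 1) := by positivity
  have h3c : m₀ + 6 * ρ * c ≤ D := by nlinarith
  have hmD : m₀ < D := by omega
  have hD1 : 1 ≤ D := by omega
  obtain ⟨mm, hmm⟩ : ∃ mm : Fin (r + 1) → ℕ, mm = Fin.cons m₀ m := ⟨_, rfl⟩
  have hmm0 : mm 0 = m₀ := by rw [hmm]; rfl
  have hmms : ∀ i : Fin r, mm i.succ = m i := fun i => by rw [hmm]; rfl
  have hsq : ∑ i, mm i ^ 2 = m₀ ^ 2 + ∑ i, m i ^ 2 := by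
    rw [Fin.sum_univ_succ, hmm0]
    simp only [hmms]
  have hs1 : ∑ i, mm i = m₀ + ∑ i, m i := by
    rw [Fin.sum_univ_succ, hmm0]
    simp only [hmms]
  have hsc : ∑ i, (mm i + 1).choose 2 = (m₀ + 1).choose 2 + ∑ i, (m i + 1).choose 2 := by
    rw [Fin.sum_univ_succ, hmm0]
    simp only [hmms]
  rw [← hmm]
  constructor
  · intro hyp
    by_contra hne
    obtain ⟨f, hf, hfV⟩ := exists_of_hPm hne
    have hL : D ^ 2 < ∑ i, mm i ^ 2 := by
      rw [hsq]
      by_contra hcon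
      have h1 : T * (m₀ ^ 2 + ∑ i, m i ^ 2) ≤ T * D ^ 2 := Nat.mul_le_mul_left _ (not_lt.1 hcon)
      have h2 : 1 ≤ c ^ 2 := Nat.one_le_pow _ _ hc
      omega
    have hΔ : (0 : ℝ) < (D : ℝ) ^ 2 - (m₀ : ℝ) ^ 2 := by
      have h1 : (m₀ : ℝ) < D := by exact_mod_cast hmD
      have h2 : (0 : ℝ) ≤ m₀ := by positivity
      nlinarith
    obtain ⟨b, hb, hbf, hy, hphi⟩ := exists_neg
      (φ := fun g => ((D : ℝ) * g.totalDegree - m₀ * mu (aff (gpt (r + 1)) 0) g) /
        ((D : ℝ) ^ 2 - (m₀ : ℝ) ^ 2)) hf hfV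
      (by
        intro g h hg hh
        rw [totalDegree_mul' hg hh, mu_mul hg hh, ← add_div]
        push_cast
        congr 1
        ring)
      (by
        intro g hg
        rw [totalDegree_unit hg, mu_unit _ hg]
        simp)
      (by
        intro b hb _
        refine div_nonneg ?_ hΔ.le
        have h1 : mu (aff (gpt (r + 1)) 0) b ≤ b.totalDegree := mu_le_totalDegree _ hb.ne_zero
        have h2 : m₀ * mu (aff (gpt (r + 1)) 0) b ≤ D * b.totalDegree :=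
          Nat.mul_le_mul hmD.le h1
        rw [sub_nonneg]
        exact_mod_cast h2)
      (by
        rw [div_le_one hΔ]
        have h1 : f.totalDegree ≤ D := hfV.1
        have h2 : m₀ ≤ mu (aff (gpt (r + 1)) 0) f := by
          have := (vq_iff hf).1 (hfV.2 0)
          rwa [hmm0] at this
        have h3 : (D : ℝ) * f.totalDegree ≤ D * D :=
          mul_le_mul_of_nonneg_left (by exact_mod_cast h1) (by positivity)
        have h4 : (m₀ : ℝ) * m₀ ≤ m₀ * mu (aff (gpt (r + 1)) 0) f :=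
          mul_le_mul_of_nonneg_left (by exact_mod_cast h2) (by positivity)
        nlinarith)
      hL
    obtain ⟨e, he⟩ : ∃ e, e = b.totalDegree := ⟨_, rfl⟩
    obtain ⟨c₀, hc₀⟩ : ∃ c₀, c₀ = mu (aff (gpt (r + 1)) 0) b := ⟨_, rfl⟩
    have hsum : ∑ i, mm i * mu (aff (gpt (r + 1)) i) b =
        m₀ * c₀ + ∑ i, m i * mu (aff (gpt (r + 1)) i.succ) b := by
      rw [Fin.sum_univ_succ, hmm0, hc₀]
      simp only [hmms]
    have hsumr : ∑ i, (mm i : ℝ) * mu (aff (gpt (r + 1)) i) b =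
        m₀ * c₀ + ∑ i, (m i : ℝ) * mu (aff (gpt (r + 1)) i.succ) b := by
      rw [Fin.sum_univ_succ, hmm0, hc₀]
      simp only [hmms]
    have hsqr : ∑ i, (mm i : ℝ) ^ 2 = (m₀ : ℝ) ^ 2 + ∑ i, (m i : ℝ) ^ 2 := by
      rw [Fin.sum_univ_succ, hmm0]
      simp only [hmms]
    rw [hsum] at hy
    simp only [hsumr, hsqr, ← he, ← hc₀] at hphi
    have hcase : ((D : ℤ) * e - m₀ * c₀) * (m₀ ^ 2 + ∑ i, (m i : ℤ) ^ 2 - D ^ 2) ≤
        ((D : ℤ) ^ 2 - (m₀ : ℤ) ^ 2) * (m₀ * c₀ +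
          ∑ i, (m i : ℤ) * mu (aff (gpt (r + 1)) i.succ) b - D * e) := by
      have h1 : ((D : ℝ) * e - m₀ * c₀) * (m₀ ^ 2 + ∑ i, (m i : ℝ) ^ 2 - D ^ 2) ≤
          ((D : ℝ) ^ 2 - (m₀ : ℝ) ^ 2) * (m₀ * c₀ +
            ∑ i, (m i : ℝ) * mu (aff (gpt (r + 1)) i.succ) b - D * e) := by
        have h2 := mul_le_mul_of_nonneg_left hphi hΔ.le
        have h3 : ((D : ℝ) ^ 2 - (m₀ : ℝ) ^ 2) * (((D : ℝ) * e - m₀ * c₀) /
            ((D : ℝ) ^ 2 - (m₀ : ℝ) ^ 2) * (m₀ ^ 2 + ∑ i, (m i : ℝ) ^ 2 - D ^ 2)) =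
            ((D : ℝ) * e - m₀ * c₀) * (m₀ ^ 2 + ∑ i, (m i : ℝ) ^ 2 - D ^ 2) := by
          field_simp
        rw [h3] at h2
        exact h2
      exact_mod_cast h1
    rw [he, hc₀] at hcase
    rw [hc₀] at hy
    have h1 := planeQ_core h hρ hb hc hm h3c hy (Or.inr hcase)
    have h2 : (D : ℤ) ^ 2 < (m₀ : ℤ) ^ 2 + ∑ i, (m i : ℤ) ^ 2 := by
      rw [hsq] at hL
      exact_mod_cast hL
    have h3 : (T : ℤ) * D ^ 2 + 6 * c ^ 2 ≤ T * (m₀ ^ 2 + ∑ i, (m i : ℤ) ^ 2) := by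
      exact_mod_cast hyp
    rw [abs_of_neg (by linarith)] at h1
    generalize (∑ i, (m i : ℤ) ^ 2) = B at *
    nlinarith
  · intro hyp
    have hyp' : T * (∑ i, mm i ^ 2 + 23 * ∑ i, mm i) + 6 * (c + 1) ^ 2 ≤ T * D ^ 2 := by
      rw [hsq, hs1]
      have : m₀ ^ 2 + ∑ i, m i ^ 2 + 23 * (m₀ + ∑ i, m i) =
        m₀ ^ 2 + 23 * m₀ + ∑ i, m i ^ 2 + 23 * ∑ i, m i := by ring
      rw [this]
      exact hyp
    have h1 : ∑ i, mm i ^ 2 + 23 * ∑ i, mm i ≤ D ^ 2 := by
      by_contra hcon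
      have h2 : T * D ^ 2 ≤ T * (∑ i, mm i ^ 2 + 23 * ∑ i, mm i) :=
        Nat.mul_le_mul_left _ (not_le.1 hcon).le
      have h3 : 1 ≤ (c + 1) ^ 2 := Nat.one_le_pow _ _ (by omega)
      omega
    let q' : {i // mm i ≠ 0} → Fin 2 → ℂ := fun i => aff (gpt (r + 1)) i
    have hq' : Function.Injective q' := fun i j hij =>
      Subtype.ext (aff_injective hgen hij)
    have s1 : ∑ i : {i // mm i ≠ 0}, mm i ^ 2 = ∑ i, mm i ^ 2 :=
      sum_ne mm (fun i => mm i ^ 2) (fun i hi => by rw [hi]; rfl)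
    have s2 : ∑ i : {i // mm i ≠ 0}, mm i = ∑ i, mm i :=
      sum_ne mm (fun i => mm i) (fun i hi => hi)
    have s3 : ∑ i : {i // mm i ≠ 0}, (mm i + 1).choose 2 = ∑ i, (mm i + 1).choose 2 :=
      sum_ne mm (fun i => (mm i + 1).choose 2) (fun i hi => by rw [hi]; rfl)
    have key := regular_of_nef (q := q') (D := D) (m := fun i => mm i) hq'
      (fun i => Nat.one_le_iff_ne_zero.2 i.2) (by rw [s1, s2]; exact h1) ?_
    · rw [s3, hsc] at key
      have h4 : VD D q' (fun i : {i // mm i ≠ 0} => mm i) = VD D (aff (gpt (r + 1))) mm :=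
        VD_sub D _ mm
      rw [h4, ← finrank_aff hgen] at key
      rw [add_assoc]
      exact key
    · intro b hb
      by_contra hcon
      rw [not_le] at hcon
      set kk : Fin (r + 1) → ℕ := fun i => if mm i = 0 then 0 else mm i + 1 with hkk
      obtain ⟨k₀, hk₀⟩ : ∃ k₀, k₀ = kk 0 := ⟨_, rfl⟩
      obtain ⟨k, hk⟩ : ∃ k : Fin r → ℕ, ∀ i, k i = kk i.succ := ⟨_, fun i => rfl⟩
      have s4 : ∑ i : {i // mm i ≠ 0}, (mm i + 1) * mu (q' i) b =
          ∑ i, kk i * mu (aff (gpt (r + 1)) i) b := by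
        rw [← sum_ne mm (fun i => kk i * mu (aff (gpt (r + 1)) i) b)
          (fun i hi => by simp [hkk, hi])]
        apply Finset.sum_congr rfl
        intro i _
        have : kk i = mm i + 1 := if_neg i.2
        simp only [this, q']
      have s4' : ∑ i, kk i * mu (aff (gpt (r + 1)) i) b =
          k₀ * mu (aff (gpt (r + 1)) 0) b + ∑ i, k i * mu (aff (gpt (r + 1)) i.succ) b := by
        rw [Fin.sum_univ_succ, hk₀]
        simp only [hk]
      rw [s4, s4'] at hcon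
      have hkle : ∀ i, k i ≤ c + 1 := by
        intro i
        have h2 := hm i
        rw [hk]
        simp only [hkk, hmms]
        split <;> omega
      have hk₀le : k₀ ≤ m₀ + 1 := by
        rw [hk₀]
        simp only [hkk, hmm0]
        split <;> omega
      have s5 : k₀ ^ 2 + ∑ i, k i ^ 2 ≤ ∑ i, mm i ^ 2 + 3 * ∑ i, mm i := by
        have h2 : k₀ ^ 2 + ∑ i, k i ^ 2 = ∑ i, kk i ^ 2 := by
          rw [Fin.sum_univ_succ, hk₀]
          simp only [hk]
        rw [h2, Finset.mul_sum, ← Finset.sum_add_distrib]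
        apply Finset.sum_le_sum
        intro i _
        simp only [hkk]
        split
        · simp
        · have : 1 ≤ mm i := Nat.one_le_iff_ne_zero.2 (by assumption)
          nlinarith
      have s6 : k₀ ^ 2 + ∑ i, k i ^ 2 ≤ (D + 3) ^ 2 := by
        have : D ^ 2 ≤ (D + 3) ^ 2 := Nat.pow_le_pow_left (by omega) 2
        omega
      have h2 := planeQ_core (K := c + 1) h hρ hb (by omega) hkle
        (by omega : k₀ + 6 * ρ * (c + 1) ≤ D + 3) hcon (Or.inl s6)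
      have t1 : (k₀ : ℤ) ^ 2 + (∑ i, (k i : ℤ) ^ 2) ≤
          ∑ i, (mm i : ℤ) ^ 2 + 3 * ∑ i, (mm i : ℤ) := by
        exact_mod_cast s5
      have t2 : (T : ℤ) * (∑ i, (mm i : ℤ) ^ 2 + 23 * ∑ i, (mm i : ℤ)) + 6 * (c + 1) ^ 2 ≤
          T * D ^ 2 := by exact_mod_cast hyp'
      have t3 : (0 : ℤ) ≤ ∑ i, (mm i : ℤ) := Finset.sum_nonneg fun i _ => by positivity
      have t4 : (1 : ℤ) ≤ T := by exact_mod_cast hT
      have t5 : (∑ i, (mm i : ℤ) ^ 2 + 23 * ∑ i, (mm i : ℤ)) ≤ D ^ 2 := by exact_mod_cast h1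
      push_cast at h2
      generalize (∑ i, (k i : ℤ) ^ 2) = A at *
      generalize (∑ i, (mm i : ℤ) ^ 2) = B at *
      generalize (∑ i, (mm i : ℤ)) = E at *
      have hDz : (0 : ℤ) ≤ D := by positivity
      have t6 : (D : ℤ) ^ 2 - (B + 23 * E) + 9 ≤ ((D : ℤ) + 3) ^ 2 - (k₀ : ℤ) ^ 2 - A := by
        nlinarith
      have t7 : (0 : ℤ) < ((D : ℤ) + 3) ^ 2 - (k₀ : ℤ) ^ 2 - A := by linarith
      rw [abs_of_pos t7] at h2
      have t8 : (T : ℤ) * ((D : ℤ) ^ 2 - (B + 23 * E) + 9) ≤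
          T * (((D : ℤ) + 3) ^ 2 - (k₀ : ℤ) ^ 2 - A) :=
        mul_le_mul_of_nonneg_left t6 (by linarith)
      nlinarith

end Pool.Agent.Work.MP_0421d9_ag.LD
end

section
/-!
The curves of all systems in degree at least `C M ^ (1 + ε)` are irreducible (helper20).
-/

namespace Pool.Agent.Work.MP_0421d9_ag.LD

open MvPolynomial Module

/-- all systems with multiplicities at most `N` in degree at least `C N ^ (1 + η)` are
nonspecial -/
def NSall (C η : ℝ) : Prop := ∀ (r D N : ℕ) (y : Fin r → ℕ), (∀ i, y i ≤ N) →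
  C * (N : ℝ) ^ (1 + η) ≤ D → hPm D y = (D + 2).choose 2 - ∑ i, (y i + 1).choose 2

theorem rigid_factor {ι : Type} {q : ι → Fin 2 → ℂ} {D b : ℕ} {y : ι → ℕ} {A R : P2}
    (hA : A ≠ 0) (hR : R ≠ 0) (hD : A.totalDegree + b = D) (hb : R.totalDegree ≤ b)
    (hy : ∀ i, y i ≤ mu (q i) A + mu (q i) R) (h1 : finrank ℂ (VD D q y) = 1) :
    finrank ℂ (VD b q (fun i => mu (q i) R)) = 1 := by
  have hAR : A * R ∈ VD D q y := by
    refine ⟨(totalDegree_mul A R).trans (by omega), fun i => ?_⟩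
    rw [vq_iff (mul_ne_zero hA hR), mu_mul hA hR]
    exact hy i
  have hne : (⟨A * R, hAR⟩ : VD D q y) ≠ 0 := fun h => mul_ne_zero hA hR (congrArg Subtype.val h)
  have h2 := (finrank_eq_one_iff_of_nonzero' _ hne).mp h1
  have hRm : R ∈ VD b q (fun i => mu (q i) R) := ⟨hb, fun i => vq_mu _ hR⟩
  have hne' : (⟨R, hRm⟩ : VD b q (fun i => mu (q i) R)) ≠ 0 :=
    fun h => hR (congrArg Subtype.val h)
  refine (finrank_eq_one_iff_of_nonzero' _ hne').mpr fun w => ?_
  obtain ⟨w, hw1, hw2⟩ := w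
  have hAw : A * w ∈ VD D q y := by
    refine ⟨(totalDegree_mul A w).trans (by omega), fun i => ?_⟩
    exact ((vq_mu (q i) hA).mul (hw2 i)).mono (hy i)
  obtain ⟨c, hc⟩ := h2 ⟨A * w, hAw⟩
  refine ⟨c, Subtype.ext ?_⟩
  have h3 : c • (A * R) = A * w := congrArg Subtype.val hc
  rw [← mul_smul_comm] at h3
  exact mul_left_cancel₀ hA h3

theorem chi_of_rank {D r : ℕ} {y : Fin r → ℕ} (h1 : (D + 2).choose 2 - ∑ i, (y i + 1).choose 2 = 1) :
    D * (D + 3) = ∑ i, y i * (y i + 1) := by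
  have h2 : (D + 2).choose 2 = ∑ i, (y i + 1).choose 2 + 1 := by omega
  have e1 : ∀ n : ℕ, 2 * (n + 1).choose 2 = n * (n + 1) := by
    intro n
    rw [Nat.choose_two_right, Nat.add_sub_cancel, mul_comm (n + 1) n]
    exact Nat.mul_div_cancel' (Nat.even_mul_succ_self n).two_dvd
  have h3 : 2 * (D + 2).choose 2 = ∑ i, y i * (y i + 1) + 2 := by
    rw [h2, mul_add, Finset.mul_sum]
    simp only [e1]
  have h4 := e1 (D + 1)
  rw [h3] at h4
  nlinarith

theorem exists_small_factor {f : P2} (hf : f ≠ 0) (hu : ¬ IsUnit f) (h : ¬ Irreducible f) :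
    ∃ A R : P2, f = A * R ∧ Irreducible A ∧ A.totalDegree ≤ R.totalDegree := by
  rw [irreducible_iff] at h
  push Not at h
  obtain ⟨g, k, hgk, hg, hk⟩ := h hu
  have hg0 : g ≠ 0 := by
    rintro rfl
    rw [zero_mul] at hgk
    exact hf hgk
  have hk0 : k ≠ 0 := by
    rintro rfl
    rw [mul_zero] at hgk
    exact hf hgk
  have main : ∀ g k : P2, g ≠ 0 → k ≠ 0 → ¬ IsUnit g → g.totalDegree ≤ k.totalDegree →
      f = g * k → ∃ A R : P2, f = A * R ∧ Irreducible A ∧ A.totalDegree ≤ R.totalDegree := by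
    intro g k hg0 hk0 hg hle hgk
    obtain ⟨A, hA, B, hB⟩ := WfDvdMonoid.exists_irreducible_factor hg hg0
    have hB0 : B ≠ 0 := by
      rintro rfl
      rw [mul_zero] at hB
      exact hg0 hB
    refine ⟨A, B * k, by rw [hgk, hB, mul_assoc], hA, ?_⟩
    rw [totalDegree_mul' hB0 hk0]
    rw [hB, totalDegree_mul' hA.ne_zero hB0] at hle
    omega
  rcases le_total g.totalDegree k.totalDegree with hle | hle
  · exact main g k hg0 hk0 hg hle hgk
  · exact main k g hk0 hg0 hk hle (by rw [hgk, mul_comm])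

/-- the unique member of a rigid system is irreducible -/
theorem irr_rigid {C η : ℝ} (hη : 0 < η) (hη1 : η ≤ 1) (hC : 4 ≤ C) (hNS : NSall C η)
    {r D M : ℕ} {p : Fin r → V3} (hp : GenericPoints p) {y : Fin r → ℕ} (hM : 1 ≤ M)
    (hy : ∀ i, y i ≤ M) (hD : 16 * C ^ 2 * (M : ℝ) ^ (1 + 2 * η) ≤ D)
    (h1 : finrank ℂ (linSys D p y) = 1) {f : P2} (hf : f ∈ VD D (aff p) y) (hf0 : f ≠ 0) :
    Irreducible f ∧ f.totalDegree = D := by
  have hq := aff_injective hp
  have hmov := aff_movable hp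
  set q := aff p with hqdef
  rw [finrank_aff hp, ← hqdef] at h1
  -- the powers
  have hM1 : (1 : ℝ) ≤ M := by exact_mod_cast hM
  obtain ⟨s, hs⟩ : ∃ s, s = (M : ℝ) ^ η := ⟨_, rfl⟩
  have hs1 : 1 ≤ s := by
    rw [hs]
    exact Real.one_le_rpow hM1 hη.le
  have hMs : (M : ℝ) ^ (1 + η) = M * s := by
    rw [Real.rpow_add (by positivity), Real.rpow_one, hs]
  have hMs2 : (M : ℝ) ^ (1 + 2 * η) = M * s * s := by
    rw [Real.rpow_add (by positivity), Real.rpow_one, mul_comm 2 η, Real.rpow_mul (by positivity),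
      ← hs, Real.rpow_two]
    ring
  rw [hMs2] at hD
  have hMs0 : (0 : ℝ) < M * s := by positivity
  have hMle : (M : ℝ) ≤ M * s := le_mul_of_one_le_right (by positivity) hs1
  have hMss : (M : ℝ) * s ≤ M * s * s := le_mul_of_one_le_right (by positivity) hs1
  have hCC : 4 * C ≤ C ^ 2 := by nlinarith
  have hD2 : 64 * C * (M * s) ≤ D := by
    refine le_trans ?_ hD
    have h2 : 0 ≤ (M : ℝ) * s * s := by positivity
    calc 64 * C * (M * s) ≤ 64 * C * (M * s * s) := by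
          refine mul_le_mul_of_nonneg_left hMss (by linarith)
      _ = 16 * (4 * C) * (M * s * s) := by ring
      _ ≤ 16 * C ^ 2 * (M * s * s) := by
          refine mul_le_mul_of_nonneg_right (by linarith) h2
  have hD3 : (256 : ℝ) * M ≤ D := by
    refine le_trans ?_ hD2
    nlinarith
  have hD3' : 256 * M ≤ D := by exact_mod_cast hD3
  -- nonspeciality
  have hns : ∀ {E : ℕ} {z : Fin r → ℕ}, (∀ i, z i ≤ M) → C * (M * s) ≤ E →
      finrank ℂ (VD E q z) = (E + 2).choose 2 - ∑ i, (z i + 1).choose 2 := by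
    intro E z hz hE
    rw [hqdef, ← finrank_aff hp, hPm_eq hp]
    exact hNS r E M z hz (by rw [hMs]; exact hE)
  have hchi : (D + 2).choose 2 - ∑ i, (y i + 1).choose 2 = 1 := by
    rw [← hns hy (by nlinarith), h1]
  have hpos : ∀ {E : ℕ} {z : Fin r → ℕ}, f ∈ VD E q z → finrank ℂ (VD E q z) ≠ 0 := by
    intro E z hz h0
    have hfin : Module.Finite ℂ (VD E q z) := Submodule.finiteDimensional_of_le (VD_le E q z)
    have h2 := Submodule.finrank_eq_zero.mp h0
    rw [h2, Submodule.mem_bot] at hz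
    exact hf0 hz
  -- degree
  have hdeg : f.totalDegree = D := by
    by_contra hne
    have h2 : f ∈ VD (D - 1) q y := ⟨by have := hf.1; omega, hf.2⟩
    have h3 := hns (E := D - 1) hy (by
      have h4 : ((D - 1 : ℕ) : ℝ) = D - 1 := by
        rw [Nat.cast_sub (by omega), Nat.cast_one]
      rw [h4]
      nlinarith)
    apply hpos h2
    rw [h3]
    obtain ⟨E, rfl⟩ : ∃ E, D = E + 1 := ⟨D - 1, by omega⟩
    rw [Nat.add_sub_cancel] at *
    have h5 : (E + 1 + 2).choose 2 = (E + 2) + (E + 2).choose 2 := by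
      rw [Nat.choose_succ_succ' (E + 2) 1, Nat.choose_one_right]
    omega
  -- multiplicities
  have hmu : ∀ i, mu (q i) f = y i := by
    intro i
    have h2 : y i ≤ mu (q i) f := (vq_iff hf0).mp (hf.2 i)
    by_contra hne
    have h3 : f ∈ VD D q (Function.update y i (y i + 1)) := by
      refine ⟨hf.1, fun j => ?_⟩
      rcases eq_or_ne j i with rfl | hj
      · rw [Function.update_self]
        exact (vq_iff hf0).mpr (by omega)
      · rw [Function.update_of_ne hj]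
        exact hf.2 j
    apply hpos h3
    have h4 : finrank ℂ (VD D q (Function.update y i (y i + 1))) =
        (D + 2).choose 2 - ∑ j, (Function.update y i (y i + 1) j + 1).choose 2 := by
      rw [hqdef, ← finrank_aff hp, hPm_eq hp]
      refine hNS r D (M + 1) _ (fun j => ?_) ?_
      · rcases eq_or_ne j i with rfl | hj
        · rw [Function.update_self]
          have := hy j
          omega
        · rw [Function.update_of_ne hj]
          have := hy j
          omega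
      · refine le_trans ?_ hD2
        have h5 : ((M + 1 : ℕ) : ℝ) ^ (1 + η) ≤ (2 * (M : ℝ)) ^ (1 + η) := by
          refine Real.rpow_le_rpow (by positivity) ?_ (by linarith)
          push_cast
          linarith
        have h6 : (2 * (M : ℝ)) ^ (1 + η) = 2 ^ (1 + η) * (M * s) := by
          rw [Real.mul_rpow (by norm_num) (by positivity), hMs]
        have h7 : (2 : ℝ) ^ (1 + η) ≤ 4 := by
          calc (2 : ℝ) ^ (1 + η) ≤ 2 ^ (2 : ℝ) :=
                Real.rpow_le_rpow_of_exponent_le (by norm_num) (by linarith)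
            _ = 4 := by norm_num
        calc C * ((M + 1 : ℕ) : ℝ) ^ (1 + η) ≤ C * (4 * (M * s)) := by
              refine mul_le_mul_of_nonneg_left ?_ (by linarith)
              rw [h6] at h5
              exact h5.trans (mul_le_mul_of_nonneg_right h7 hMs0.le)
          _ ≤ 64 * C * (M * s) := by nlinarith
    rw [h4]
    have h5 : ∑ j, (Function.update y i (y i + 1) j + 1).choose 2 =
        ∑ j, (y j + 1).choose 2 + (y i + 1) := by
      rw [← Finset.add_sum_erase _ _ (Finset.mem_univ i),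
        ← Finset.add_sum_erase (f := fun j => (y j + 1).choose 2) _ (Finset.mem_univ i),
        Function.update_self, Nat.choose_succ_succ' (y i + 1) 1, Nat.choose_one_right]
      have h6 : ∑ j ∈ Finset.univ.erase i, (Function.update y i (y i + 1) j + 1).choose 2 =
          ∑ j ∈ Finset.univ.erase i, (y j + 1).choose 2 := by
        refine Finset.sum_congr rfl fun j hj => ?_
        rw [Function.update_of_ne (Finset.ne_of_mem_erase hj)]
      rw [h6]
      ring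
    rw [h5]
    omega
  refine ⟨?_, hdeg⟩
  by_contra hirr
  have hunit : ¬ IsUnit f := by
    intro h
    have h2 : f.totalDegree = 0 := by
      rw [MvPolynomial.isUnit_iff_eq_C_of_isReduced] at h
      obtain ⟨c, _, rfl⟩ := h
      exact totalDegree_C c
    omega
  obtain ⟨A, R, hAR, hA, hle⟩ := exists_small_factor hf0 hunit hirr
  have hR0 : R ≠ 0 := by
    rintro rfl
    rw [mul_zero] at hAR
    exact hf0 hAR
  obtain ⟨a, ha⟩ : ∃ a, a = A.totalDegree := ⟨_, rfl⟩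
  obtain ⟨b, hb⟩ : ∃ b, b = R.totalDegree := ⟨_, rfl⟩
  have hab : a + b = D := by
    rw [ha, hb, ← totalDegree_mul' hA.ne_zero hR0, ← hAR, hdeg]
  have hle' : a ≤ b := by rw [ha, hb]; exact hle
  obtain ⟨x, hx⟩ : ∃ x : Fin r → ℕ, x = fun i => mu (q i) A := ⟨_, rfl⟩
  obtain ⟨z, hz⟩ : ∃ z : Fin r → ℕ, z = fun i => mu (q i) R := ⟨_, rfl⟩
  have hxz : ∀ i, x i + z i = y i := by
    intro i
    rw [hx, hz, ← hmu i, hAR, mu_mul hA.ne_zero hR0]
  have ha1 : 1 ≤ a := by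
    rw [ha]
    by_contra h
    have h2 : A.totalDegree = 0 := by omega
    apply hA.not_isUnit
    rw [totalDegree_eq_zero_iff_eq_C] at h2
    rw [h2]
    refine (IsUnit.mk0 _ ?_).map (MvPolynomial.C : ℂ →+* P2)
    intro h3
    rw [h3, MvPolynomial.C_0] at h2
    exact hA.ne_zero h2
  have hbD : (D : ℝ) ≤ 2 * b := by
    have : D ≤ 2 * b := by omega
    exact_mod_cast this
  -- the second factor
  have hR1 : finrank ℂ (VD b q z) = 1 := by
    rw [hz]
    refine rigid_factor hA.ne_zero hR0 (by rw [← ha]; exact hab) hb.ge (fun i => ?_) h1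
    have := hxz i
    rw [hx, hz] at this
    exact this.ge
  have hzM : ∀ i, z i ≤ M := fun i => by
    have h2 := hxz i
    have h3 := hy i
    omega
  have hEB : b * (b + 3) = ∑ i, z i * (z i + 1) := by
    apply chi_of_rank
    rw [← hns hzM (by nlinarith), hR1]
  have hEL : (a + b) * (a + b + 3) = ∑ i, (x i + z i) * (x i + z i + 1) := by
    rw [hab, chi_of_rank hchi]
    refine Finset.sum_congr rfl fun i _ => ?_
    rw [hxz i]
  -- the first factor has a multiple point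
  have hex : ∃ i, 1 ≤ x i := by
    by_contra hcon
    push Not at hcon
    have h2 : ∑ i, (x i + z i) * (x i + z i + 1) = ∑ i, z i * (z i + 1) := by
      refine Finset.sum_congr rfl fun i _ => ?_
      have : x i = 0 := by have := hcon i; omega
      rw [this, Nat.zero_add]
    rw [← hEL, ← hEB] at h2
    nlinarith
  obtain ⟨i₁, hi₁⟩ := hex
  obtain ⟨i₀, _, hmax⟩ := Finset.exists_max_image Finset.univ x ⟨i₁, Finset.mem_univ i₁⟩
  have hmax' : ∀ i, x i ≤ x i₀ := fun i => hmax i (Finset.mem_univ i)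
  have hi₀ : 1 ≤ x i₀ := hi₁.trans (hmax' i₁)
  have hi₀M : x i₀ ≤ M := by
    have h2 := hxz i₀
    have h3 := hy i₀
    omega
  obtain ⟨t, ht⟩ : ∃ t, t = (x i₀ : ℝ) ^ η := ⟨_, rfl⟩
  have hα1 : (1 : ℝ) ≤ x i₀ := by exact_mod_cast hi₀
  have hαM : (x i₀ : ℝ) ≤ M := by exact_mod_cast hi₀M
  have ht1 : 1 ≤ t := by
    rw [ht]
    exact Real.one_le_rpow hα1 hη.le
  have hts : t ≤ s := by
    rw [ht, hs]
    exact Real.rpow_le_rpow (by positivity) hαM hη.le
  have hαt : (x i₀ : ℝ) ^ (1 + η) = x i₀ * t := by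
    rw [Real.rpow_add (by positivity), Real.rpow_one, ht]
  rcases le_or_gt (C * (x i₀ * t)) a with hcase | hcase
  · -- the first factor is in the range
    have hA1 : finrank ℂ (VD a q x) = 1 := by
      rw [hx]
      refine rigid_factor (A := R) hR0 hA.ne_zero (by rw [← hb, add_comm]; exact hab) ha.ge
        (fun i => ?_) h1
      have := hxz i
      rw [hx, hz] at this
      rw [add_comm]
      exact this.ge
    have hEA : a * (a + 3) = ∑ i, x i * (x i + 1) := by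
      apply chi_of_rank
      have h2 := hNS r a (x i₀) x hmax' (by rw [hαt]; exact hcase)
      have h3 : finrank ℂ (VD a q x) = hPm a x := by
        rw [hqdef, ← finrank_aff hp, hPm_eq hp]
      exact (h2.symm.trans h3.symm).trans hA1
    have h3a : 3 * x i₀ < a := by
      have h2 : (3 : ℝ) * x i₀ < a := by
        refine lt_of_lt_of_le ?_ hcase
        have h3 : (x i₀ : ℝ) ≤ x i₀ * t := le_mul_of_one_le_right (by positivity) ht1
        have h4 : 4 * ((x i₀ : ℝ) * t) ≤ C * (x i₀ * t) :=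
          mul_le_mul_of_nonneg_right hC (by positivity)
        linarith
      exact_mod_cast h2
    exact irr_split hEL hEA hEB hmax' hzM h3a (by omega)
  · -- the first factor has small degree
    have hXu : ∑ i, x i ^ 2 ≤ a ^ 2 + x i₀ := by
      have h2 := xu hq hmov hA (i := i₀) (by
        have := hi₀
        rw [hx] at this
        exact this)
      rw [hx, ha]
      exact h2
    have hdR : ((a + b : ℕ) : ℝ) = D := by rw [hab]
    refine irr_core ha1 hEL hEB (fun i => by rw [hxz i]; exact hy i) hi₀ hmax' hXu ?_ ?_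
    · have h2 : ((16 * a * M : ℕ) : ℝ) ≤ ((x i₀ * (a + b) : ℕ) : ℝ) := by
        rw [Nat.cast_mul (x i₀), hdR]
        push_cast
        have h3 : (a : ℝ) * M ≤ (C * (x i₀ * t)) * M :=
          mul_le_mul_of_nonneg_right hcase.le (by positivity)
        have h4 : x i₀ * (64 * C * (M * s)) ≤ (x i₀ : ℝ) * D :=
          mul_le_mul_of_nonneg_left hD2 (by positivity)
        have h5 : (C * (x i₀ * t)) * M ≤ (C * (x i₀ * s)) * M := by gcongr
        nlinarith
      exact_mod_cast h2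
    · have h2 : ((4 * a ^ 2 : ℕ) : ℝ) ≤ ((x i₀ * (a + b) : ℕ) : ℝ) := by
        rw [Nat.cast_mul (x i₀), hdR]
        push_cast
        have h3 : (a : ℝ) ^ 2 ≤ (C * (x i₀ * t)) ^ 2 :=
          pow_le_pow_left₀ (by positivity) hcase.le 2
        have h4 : x i₀ * (16 * C ^ 2 * (M * s * s)) ≤ (x i₀ : ℝ) * D :=
          mul_le_mul_of_nonneg_left hD (by positivity)
        have h5 : (C * (x i₀ * t)) ^ 2 ≤ x i₀ * (C ^ 2 * (M * s * s)) := by
          calc (C * (x i₀ * t)) ^ 2 = x i₀ * (C ^ 2 * (x i₀ * t * t)) := by ring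
            _ ≤ x i₀ * (C ^ 2 * (M * s * s)) := by gcongr
        nlinarith
      exact_mod_cast h2

end Pool.Agent.Work.MP_0421d9_ag.LD
end

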