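import Pool.Agent.Work.Z0421M.C05
import Pool.Agent.Work.Z0421M.C11
import Pool.Agent.Work.Z0421M.C13
import Pool.Agent.Work.Z0421M.C46

section
/-!
Collisions of generic points, relative version: some of the points are not moved, and only those
systems which occur in the argument are assumed to be nonspecial. Definitions and first properties.
-/

set_option linter.unusedSectionVars false
set_option linter.unusedVariables false

namespace Pool.Agent.Work.MP_0421d9_ag.ZE

open MvPolynomial Module SM ZC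

/-- the system of degree `d` with multiplicities `y` in generic points is nonspecial -/
def Nsp {κ : Type} [Fintype κ] (d : ℕ) (y : κ → ℕ) : Prop :=
  ∀ p : κ → V3, GenericPoints p →
    finrank ℂ (linSys d p y) = (d + 2).choose 2 - ∑ j, (y j + 1).choose 2

/-- no base points outside the points `p j`, and all leading forms at the points `p j` occur -/
structure Free {κ : Type} (d : ℕ) (y : κ → ℕ) : Prop where
  bp : ∀ p : κ → V3, GenericPoints p → ∀ q : V3, q ≠ 0 → (∀ j, cr (p j) q ≠ 0) →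
    ∃ H ∈ linSys d p y, eval q H ≠ 0
  lf : ∀ p : κ → V3, GenericPoints p → ∀ (j : κ) (β : R2), β.IsHomogeneous (y j) →
    ∃ H ∈ linSys d p y, ld d (y j) (p j) H = β

/-- if lines suffice -/
theorem free_of_sum {κ : Type} [Fintype κ] [DecidableEq κ] {d : ℕ} {y : κ → ℕ}
    (h : ∑ j, y j ≤ d) : Free d y where
  bp := fun p hp q hq hpq => by
    obtain ⟨H, h1, h2, h3⟩ := exists_form_ne hq hpq h
    exact ⟨H, ⟨h1, h2⟩, h3⟩
  lf := fun p hp j β hβ => by
    have hsum : ∑ x : {x // x ≠ j}, y x.1 + y j ≤ d := by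
      have h1 : ∑ x : {x // x ≠ j}, y x.1 + y j = ∑ x, y x := by
        rw [← Finset.add_sum_erase Finset.univ y (Finset.mem_univ j), add_comm]
        congr 1
        rw [← Finset.sum_subtype (Finset.univ.erase j) (p := fun x => x ≠ j)
          (fun x => by simp) y]
      rw [h1]
      exact h
    obtain ⟨H, h1, h2, h3, h4⟩ := ZC.exists_form (κ := {x // x ≠ j}) (Q := fun x => p x.1)
      (a := fun x => y x.1) (hp.ne_zero (j, 2)) (fun x => generic_cr_ne hp x.2) hsum hβ
    refine ⟨H, ⟨h1, fun x => ?_⟩, h4⟩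
    by_cases hx : x = j
    · rw [hx]
      exact h3
    · exact h2 ⟨x, hx⟩

/-- surjectivity of the leading part from the dimensions -/
theorem exists_of_Nsp {κ : Type} [Fintype κ] [DecidableEq κ] {d : ℕ} {y : κ → ℕ} {i : κ}
    (hN : Nsp d y) (hN' : Nsp d (Function.update y i (y i + 1))) (hd : y i ≤ d)
    (hχ : ∑ j, (y j + 1).choose 2 + (y i + 1) ≤ (d + 2).choose 2) {p : κ → V3}
    (hp : GenericPoints p) {β : R2} (hβ : β.IsHomogeneous (y i)) :
    ∃ H ∈ linSys d p y, ld d (y i) (p i) H = β := by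
  have hpi : p i 2 ≠ 0 := AlgebraicIndependent.ne_zero hp (i, 2)
  obtain ⟨n, hn⟩ : ∃ n, n = y i := ⟨_, rfl⟩
  rw [← hn] at hN' hd hχ hβ ⊢
  obtain ⟨y', hy'⟩ : ∃ y' : κ → ℕ, y' = Function.update y i (n + 1) := ⟨_, rfl⟩
  rw [← hy'] at hN'
  have hy'i : y' i = n + 1 := by rw [hy', Function.update_self]
  have hy'j : ∀ j ≠ i, y' j = y j := fun j hj => by rw [hy', Function.update_of_ne hj]
  have hle : linSys d p y' ≤ linSys d p y := by
    rintro F ⟨hF, hF'⟩
    refine ⟨hF, fun j => (hF' j).mono ?_⟩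
    rcases eq_or_ne j i with rfl | hj
    · rw [hy'i, ← hn]; exact Nat.le_succ _
    · rw [hy'j j hj]
  have hfin : Module.Finite ℂ (linSys d p y) :=
    Submodule.finiteDimensional_of_le (linSys_le d p _)
  obtain ⟨φ, hφ⟩ : ∃ φ : R3 →ₗ[ℂ] (Fin (n + 1) → ℂ), ∀ F (a : Fin (n + 1)),
      φ F a = coeff (e2 a (n - a)) (ld d n (p i) F) :=
    ⟨LinearMap.pi fun a => (lcoeff ℂ (e2 a (n - a))).comp (ld d n (p i)), fun F a => rfl⟩
  have hext : ∀ F ∈ linSys d p y, ∀ β' : R2, β'.IsHomogeneous n →
      (∀ a, φ F a = coeff (e2 (a : Fin (n + 1)) (n - a)) β') → ld d n (p i) F = β' := by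
    intro F hF β' hβ' h
    have hl := ld_hom hF.1 hd (p i)
    refine R2_ext fun a b => ?_
    by_cases hab : a + b = n
    · have h1 := h ⟨a, by omega⟩
      rw [hφ] at h1
      have h2 : n - a = b := by omega
      rw [← h2]
      exact h1
    · have h3 : (e2 a b).degree ≠ n := by
        rw [Finsupp.degree_eq_sum, Fin.sum_univ_two]
        exact hab
      rw [hl.coeff_eq_zero h3, hβ'.coeff_eq_zero h3]
  have hker : LinearMap.ker (φ.domRestrict (linSys d p y)) =
      (linSys d p y').comap (linSys d p y).subtype := by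
    ext ⟨F, hF⟩
    rw [LinearMap.mem_ker, Submodule.mem_comap]
    change φ F = 0 ↔ F ∈ linSys d p y'
    have hFi := hF.2 i
    constructor
    · intro h
      have h1 := hext F hF 0 (isHomogeneous_zero _ _ _) (fun a => by rw [h]; simp)
      refine ⟨hF.1, fun j => ?_⟩
      rcases eq_or_ne j i with rfl | hj
      · rw [hy'i, vanishTo_iff_ld hF.1 hpi (by omega)]
        intro k hk
        rcases Nat.lt_succ_iff_lt_or_eq.mp hk with hk | rfl
        · rw [← hn] at hFi
          exact (vanishTo_iff_ld hF.1 hpi (by omega)).mp hFi k hk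
        · exact h1
      · rw [hy'j j hj]
        exact hF.2 j
    · intro h
      have h1 := h.2 i
      rw [hy'i, vanishTo_iff_ld hF.1 hpi (by omega)] at h1
      funext a
      rw [hφ, h1 n (Nat.lt_succ_self n)]
      rfl
  have hrk := LinearMap.finrank_range_add_finrank_ker (φ.domRestrict (linSys d p y))
  rw [hker, (Submodule.comapSubtypeEquivOfLe hle).finrank_eq, hN p hp, hN' p hp] at hrk
  have hsum : ∑ j, (y' j + 1).choose 2 = ∑ j, (y j + 1).choose 2 + (n + 1) := by
    rw [← Finset.add_sum_erase Finset.univ _ (Finset.mem_univ i),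
      ← Finset.add_sum_erase Finset.univ (fun j => (y j + 1).choose 2) (Finset.mem_univ i), hy'i,
      ← hn]
    have h1 : ∑ x ∈ Finset.univ.erase i, (y' x + 1).choose 2 =
        ∑ x ∈ Finset.univ.erase i, (y x + 1).choose 2 :=
      Finset.sum_congr rfl fun x hx => by rw [hy'j x (Finset.ne_of_mem_erase hx)]
    have h2 : (n + 1 + 1).choose 2 = (n + 1).choose 2 + (n + 1) := by
      rw [Nat.choose_succ_succ' (n + 1) 1, Nat.choose_one_right, add_comm]
    rw [h1, h2]
    omega
  have hrange : LinearMap.range (φ.domRestrict (linSys d p y)) = ⊤ := by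
    refine Submodule.eq_top_of_finrank_eq ?_
    rw [Module.finrank_fin_fun]
    omega
  obtain ⟨⟨H, hH⟩, hHβ⟩ := LinearMap.range_eq_top.mp hrange
    (fun a => coeff (e2 (a : Fin (n + 1)) (n - a)) β)
  refine ⟨H, hH, hext H hH β hβ fun a => ?_⟩
  exact congrFun hHβ a

/-- the binary forms which are dual to the flag functionals -/
theorem exists_flag_beta (c : ℂ) {k i : ℕ} (hi : i ≤ k) : ∃ β : R2, β.IsHomogeneous k ∧
    ∀ i', eval ![c, 1] ((pderiv 0)^[i'] β) = if i' = i then 1 else 0 := by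
  refine ⟨C ((i.factorial : ℂ)⁻¹) * ((X 0 - C c * X 1) ^ i * X 1 ^ (k - i)), ?_, fun i' => ?_⟩
  · have h1 : (X 0 - C c * X 1 : R2).IsHomogeneous 1 :=
      (isHomogeneous_X ℂ 0).sub ((isHomogeneous_X ℂ 1).C_mul c)
    have h2 := ((h1.pow i).mul ((isHomogeneous_X ℂ (1 : Fin 2)).pow (k - i))).C_mul
      ((i.factorial : ℂ)⁻¹)
    rwa [one_mul, one_mul, Nat.add_sub_cancel' hi] at h2
  · have h5 : (pderiv 0)^[i'] (C ((i.factorial : ℂ)⁻¹) * ((X 0 - C c * X 1) ^ i *
        X 1 ^ (k - i)) : R2) = C ((i.factorial : ℂ)⁻¹) *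
          (pderiv 0)^[i'] ((X 0 - C c * X 1) ^ i * X 1 ^ (k - i) : R2) := by
      generalize ((X 0 - C c * X 1) ^ i * X 1 ^ (k - i) : R2) = G
      induction i' with
      | zero => rfl
      | succ n ih => rw [Function.iterate_succ_apply', ih, pderiv_C_mul,
          Function.iterate_succ_apply']
    rw [h5, iterate_pderiv_flag, map_mul, map_mul, map_mul, map_pow, map_pow, map_sub, map_mul,
      eval_C, eval_C, eval_C, eval_X, eval_X]
    change (i.factorial : ℂ)⁻¹ * (((i.descFactorial i' : ℕ) : ℂ) * ((c - c * 1) ^ (i - i') *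
      1 ^ (k - i))) = _
    rw [mul_one, sub_self, one_pow, mul_one]
    have hf : (i.factorial : ℂ) ≠ 0 := by exact_mod_cast i.factorial_ne_zero
    split_ifs with h
    · rw [h, Nat.sub_self, pow_zero, mul_one, Nat.descFactorial_self, inv_mul_cancel₀ hf]
    · rcases lt_or_gt_of_ne h with h6 | h6
      · rw [zero_pow (by omega), mul_zero, mul_zero]
      · rw [Nat.descFactorial_eq_zero_iff_lt.mpr h6, Nat.cast_zero, zero_mul, mul_zero]

/-- the multiplicities which occur in the chain argument: at most two of the movable points have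
other multiplicities than `m`, and at every point of collision the multiplicity is `μ` or `μ + 1` -/
def Near {ι Λ : Type} (m : ι → ℕ) (U : Finset ι) (μ : Λ → ℕ) (y : ι ⊕ Λ → ℕ) : Prop :=
  (∀ l, μ l ≤ y (Sum.inr l) ∧ y (Sum.inr l) ≤ μ l + 1) ∧
    ∃ T : Finset ι, T.card ≤ 2 ∧ (∀ i ∈ T, i ∉ U ∧ y (Sum.inl i) ≤ m i + 1) ∧
      ∀ i ∉ T, y (Sum.inl i) = m i

/-- the multiplicities which occur after the points have been dropped: at most two of the movable
points are left, and at every point of collision the multiplicity is `μ`, `μ + 1` or `μ + 2` -/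
def Far {ι Λ : Type} (m : ι → ℕ) (U : Finset ι) (μ : Λ → ℕ) (y : ι ⊕ Λ → ℕ) : Prop :=
  (∀ l, μ l ≤ y (Sum.inr l) ∧ y (Sum.inr l) ≤ μ l + 2) ∧ (∀ i ∈ U, y (Sum.inl i) = m i) ∧
    ∃ T : Finset ι, T.card ≤ 2 ∧ (∀ i ∈ T, i ∉ U ∧ y (Sum.inl i) ≤ m i) ∧
      ∀ i ∉ T, i ∉ U → y (Sum.inl i) = 0

/-- the numerical data of a collision: `m` the multiplicities of the other points, those in `U`
are not moved; for every cluster `l` its multiplicities `v l j`, its critical degree `μ l` and the
number `w l` of conditions on the leading form -/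
structure Dat {ι Λ : Type} [Fintype ι] [Fintype Λ] (d M : ℕ) (m : ι → ℕ) (U : Finset ι)
    (μ w s Mv : Λ → ℕ) (v : ∀ l, Fin (s l) → ℕ) : Prop where
  hN : ∀ y : ι ⊕ Λ → ℕ, Near m U μ y → Nsp d y
  hF : ∀ y : ι ⊕ Λ → ℕ, Far m U μ y → Free d y
  hm : ∀ i, i ∉ U → m i + 1 ≤ M
  hmd : ∀ i, m i + 1 ≤ d
  hμ : ∀ l, μ l + 1 ≤ M
  hμd : ∀ l, μ l + 2 ≤ d
  hχ : ∑ i, (m i + 1).choose 2 + ∑ l, (μ l + 1).choose 2 + ∑ l, w l + 1 = (d + 2).choose 2
  room : 5 * M ≤ ∑ l, w l
  hNv : ∀ l, NSp (Mv l) (μ l)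
  hNv' : ∀ l, NSp (Mv l) (μ l - 1)
  hv : ∀ l j, v l j + 1 ≤ Mv l
  hvμ : ∀ l, 2 * Mv l ≤ μ l
  crit : ∀ l, ∑ j, (v l j + 1).choose 2 = (μ l + 1).choose 2 + w l
  hw : ∀ l, w l + 2 * Mv l ≤ μ l + 1
  hMv : ∀ l, 1 ≤ Mv l
  two : ∀ l : Λ, ∃ l', l' ≠ l

/-- the case in which lines suffice after the points have been dropped -/
theorem free_of_far {ι Λ : Type} [Fintype ι] [Fintype Λ] [DecidableEq ι] [DecidableEq Λ]
    {d M : ℕ} {m : ι → ℕ} {U : Finset ι} {μ : Λ → ℕ} (hm : ∀ i, i ∉ U → m i ≤ M)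
    (hd : ∑ l, (μ l + 2) + ∑ b ∈ U, m b + 2 * M ≤ d) {y : ι ⊕ Λ → ℕ} (hy : Far m U μ y) :
    Free d y := by
  obtain ⟨h1, h2, T, hT, h3, h4⟩ := hy
  apply free_of_sum
  rw [Fintype.sum_sum_type]
  have h5 : ∑ l, y (Sum.inr l) ≤ ∑ l, (μ l + 2) := Finset.sum_le_sum (fun l _ => (h1 l).2)
  have h6 : ∀ i, y (Sum.inl i) ≤ (if i ∈ U then m i else 0) + if i ∈ T then M else 0 := by
    intro i
    by_cases hU : i ∈ U
    · rw [if_pos hU, h2 i hU]
      exact Nat.le_add_right _ _
    · rw [if_neg hU, zero_add]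
      by_cases hiT : i ∈ T
      · rw [if_pos hiT]
        exact (h3 i hiT).2.trans (hm i hU)
      · rw [if_neg hiT, h4 i hiT hU]
  have h7 := Finset.sum_le_sum (fun i (_ : i ∈ Finset.univ) => h6 i)
  rw [Finset.sum_add_distrib, Finset.sum_ite_mem, Finset.sum_ite_mem, Finset.univ_inter,
    Finset.univ_inter, Finset.sum_const, smul_eq_mul] at h7
  have h8 : T.card * M ≤ 2 * M := Nat.mul_le_mul_right M hT
  omega

end Pool.Agent.Work.MP_0421d9_ag.ZE
end

section
/-!
Collisions of generic points, relative version: the dimension of the systems with flags.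
-/

set_option linter.unusedSectionVars false

namespace Pool.Agent.Work.MP_0421d9_ag.ZE

open MvPolynomial Module SM ZC

variable {ι Λ : Type} [Fintype ι] [Fintype Λ] [DecidableEq ι] [DecidableEq Λ]

theorem finrank_FS_aux {d : ℕ} {p : ι → V3} {P : Λ → V3}
    {c : Λ → ℂ} (hX : Ind (Sum.elim p P) c) {m : ι → ℕ} (hm : ∀ i, m i ≤ d) (N : ℕ) :
    ∀ μ w : Λ → ℕ, (∀ μ' : Λ → ℕ, (∀ l, μ l ≤ μ' l ∧ μ' l ≤ μ l + 1 ∧ (w l = 0 → μ' l = μ l)) →
      Nsp d (Sum.elim m μ')) → (∀ l, μ l ≤ d) → (∀ l, 1 ≤ w l → μ l + 1 ≤ d) →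
      (∀ l, w l ≤ μ l + 1) →
      ∑ l, w l = N → finrank ℂ (FS d p m P μ c w) = (d + 2).choose 2 -
        (∑ i, (m i + 1).choose 2 + ∑ l, (μ l + 1).choose 2 + N) := by
  induction N using Nat.strong_induction_on with
  | _ N ih =>
  intro μ w hN hμ hμw hw hsum
  have hmd : ∀ i, m i ≤ d + 1 := fun i => (hm i).trans (by omega)
  have hμd : ∀ l, μ l ≤ d + 1 := fun l => (hμ l).trans (by omega)
  rcases Nat.eq_zero_or_pos N with h0 | hpos
  · -- no flags
    subst h0
    have hw0 : ∀ l, w l = 0 := fun l => Finset.sum_eq_zero_iff.mp hsum l (Finset.mem_univ l)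
    have h1 : FS d p m P μ c w = linSys d (Sum.elim p P) (Sum.elim m μ) := by
      apply le_antisymm (FS_le d p m P μ c w)
      intro F hF
      refine ⟨hF, fun l i hi => ?_⟩
      rw [hw0 l] at hi
      exact absurd hi (Nat.not_lt_zero i)
    rw [h1, hN μ (fun l => ⟨le_rfl, Nat.le_succ _, fun _ => rfl⟩) _ hX.generic,
      Fintype.sum_sum_type]
    rfl
  · obtain ⟨l, hl⟩ : ∃ l, 0 < w l := by
      by_contra hcon
      push Not at hcon
      have : ∑ l, w l = 0 := Finset.sum_eq_zero (fun l _ => Nat.le_zero.mp (hcon l))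
      omega
    obtain ⟨w', hw'⟩ : ∃ w', w' = Function.update w l (w l - 1) := ⟨_, rfl⟩
    have hw'l : w' l = w l - 1 := by rw [hw', Function.update_self]
    have hw'k : ∀ k, k ≠ l → w' k = w k := fun k hk => by rw [hw', Function.update_of_ne hk]
    have hsum' : ∑ k, w' k = N - 1 := by
      have h1 := sum_update_add w l (w l - 1) id
      simp only [id] at h1
      rw [hw']
      omega
    have hW := ih (N - 1) (by omega) μ w' (fun μ' h => hN μ' (fun k => ⟨(h k).1, (h k).2.1,
      fun hk => (h k).2.2 (by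
        by_cases h' : k = l
        · subst h'
          omega
        · rw [hw'k k h', hk])⟩)) hμ (fun k hk => by
      by_cases h : k = l
      · subst h
        exact hμw k hl
      · rw [hw'k k h] at hk
        exact hμw k hk) (fun k => by
      by_cases h : k = l
      · subst h
        have := hw k
        omega
      · rw [hw'k k h]
        exact hw k) hsum'
    have hW' : FS d p m P μ c w = FS d p m P μ c w' ⊓
        LinearMap.ker (fd d (μ l) (P l) (c l) (w' l)) := by
      ext F
      constructor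
      · rintro ⟨h1, h2⟩
        refine ⟨⟨h1, fun k i hi => ?_⟩, ?_⟩
        · by_cases hk : k = l
          · subst hk
            exact h2 k i (by omega)
          · rw [hw'k k hk] at hi
            exact h2 k i hi
        · exact LinearMap.mem_ker.mpr (h2 l _ (by omega))
      · rintro ⟨⟨h1, h2⟩, h3⟩
        rw [SetLike.mem_coe, LinearMap.mem_ker] at h3
        refine ⟨h1, fun k i hi => ?_⟩
        by_cases hk : k = l
        · subst hk
          by_cases hi' : i = w' k
          · rw [hi']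
            exact h3
          · exact h2 k i (by omega)
        · apply h2 k i
          rw [hw'k k hk]
          exact hi
    by_cases hvan : ∀ F ∈ FS d p m P μ c w', fd d (μ l) (P l) (c l) (w' l) F = 0
    · -- the functional vanishes on the system: the multiplicity at `P l` is higher
      obtain ⟨D, hDpP, hDc⟩ := hX.derivation (fun k => if k = l then 1 else 0)
      have hall := fd_all hmd hμd (fun i k => hDpP (Sum.inl i) k) (fun k j => hDpP (Sum.inr k) j)
        (by rw [hDc, if_pos rfl]) (fun k hk => by rw [hDc, if_neg hk]) hvan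
      obtain ⟨μ', hμ'⟩ : ∃ μ', μ' = Function.update μ l (μ l + 1) := ⟨_, rfl⟩
      have hμ'l : μ' l = μ l + 1 := by rw [hμ', Function.update_self]
      have hμ'k : ∀ k, k ≠ l → μ' k = μ k := fun k hk => by rw [hμ', Function.update_of_ne hk]
      obtain ⟨v, hv⟩ : ∃ v, v = Function.update w l 0 := ⟨_, rfl⟩
      have hvl : v l = 0 := by rw [hv, Function.update_self]
      have hvk : ∀ k, k ≠ l → v k = w k := fun k hk => by rw [hv, Function.update_of_ne hk]
      have hsumv : ∑ k, v k = N - w l := by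
        have h1 := sum_update_add w l 0 id
        simp only [id] at h1
        rw [hv]
        omega
      have hPl : P l 2 ≠ 0 := coord_ne_zero hX.generic (Sum.inr l) 2
      have hMl := hμw l hl
      have hEq : FS d p m P μ c w' = FS d p m P μ' c v := by
        ext F
        constructor
        · intro hF
          have hld : ld d (μ l) (P l) F = 0 :=
            ld_eq_zero_of_fd (by omega) hF.1.1 (fun i => hall i F hF)
          refine ⟨⟨hF.1.1, fun x => ?_⟩, fun k i hi => ?_⟩
          · rcases x with i | k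
            · exact hF.1.2 (Sum.inl i)
            · by_cases hk : k = l
              · subst hk
                change VanishTo F (P k) (μ' k)
                rw [hμ'l, vanishTo_iff_ld hF.1.1 hPl (by omega)]
                intro j hj
                by_cases hj' : j = μ k
                · rw [hj']
                  exact hld
                · have hk0 : VanishTo F (P k) (μ k) := hF.1.2 (Sum.inr k)
                  exact (vanishTo_iff_ld hF.1.1 hPl (by omega)).1 hk0 j (by omega)
              · change VanishTo F (P k) (μ' k)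
                rw [hμ'k k hk]
                exact hF.1.2 (Sum.inr k)
          · by_cases hk : k = l
            · subst hk
              rw [hvl] at hi
              exact absurd hi (Nat.not_lt_zero i)
            · rw [hvk k hk] at hi
              rw [hμ'k k hk]
              exact hF.2 k i (by rw [hw'k k hk]; exact hi)
        · intro hF
          have hv1 : VanishTo F (P l) (μ l + 1) := by
            have := hF.1.2 (Sum.inr l)
            change VanishTo F (P l) (μ' l) at this
            rwa [hμ'l] at this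
          refine ⟨⟨hF.1.1, fun x => ?_⟩, fun k i hi => ?_⟩
          · rcases x with i | k
            · exact hF.1.2 (Sum.inl i)
            · by_cases hk : k = l
              · subst hk
                change VanishTo F (P k) (μ k)
                exact fun j hj => hv1 j (by omega)
              · have := hF.1.2 (Sum.inr k)
                change VanishTo F (P k) (μ' k) at this
                rw [hμ'k k hk] at this
                exact this
          · by_cases hk : k = l
            · subst hk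
              have hld : ld d (μ k) (P k) F = 0 :=
                (vanishTo_iff_ld hF.1.1 hPl (by omega)).1 hv1 (μ k) (by omega)
              change eval _ ((pderiv 0)^[i] (ld d (μ k) (P k) F)) = 0
              rw [hld, iterate_map_zero, map_zero]
            · have := hF.2 k i (by rw [hvk k hk, ← hw'k k hk]; exact hi)
              rw [hμ'k k hk] at this
              exact this
      have hV := ih (N - w l) (by omega) μ' v (fun μ₁ h => hN μ₁ (fun k => by
        obtain ⟨e1, e2, e3⟩ := h k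
        by_cases hk : k = l
        · subst hk
          have e4 := e3 hvl
          rw [hμ'l] at e4
          exact ⟨by omega, by omega, fun e5 => by omega⟩
        · rw [hμ'k k hk, hvk k hk] at e3
          rw [hμ'k k hk] at e1 e2
          exact ⟨e1, e2, e3⟩)) (fun k => by
        by_cases hk : k = l
        · rw [hk, hμ'l]
          exact hMl
        · rw [hμ'k k hk]
          exact hμ k) (fun k hk => by
        by_cases h : k = l
        · rw [h, hvl] at hk
          omega
        · rw [hvk k h] at hk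
          rw [hμ'k k h]
          exact hμw k hk) (fun k => by
        by_cases h : k = l
        · rw [h, hvl]
          omega
        · rw [hvk k h, hμ'k k h]
          exact hw k) hsumv
      have hinf : FS d p m P μ c w' ⊓ LinearMap.ker (fd d (μ l) (P l) (c l) (w' l)) =
          FS d p m P μ c w' := by
        apply le_antisymm inf_le_left
        exact fun F hF => ⟨hF, LinearMap.mem_ker.mpr (hvan F hF)⟩
      rw [hW', hinf]
      rw [← hEq, hW] at hV
      have hch := sum_update_add μ l (μ l + 1) (fun x => (x + 1).choose 2)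
      rw [← hμ'] at hch
      have hch2 : (μ l + 1 + 1).choose 2 = (μ l + 1).choose 2 + (μ l + 1) := by
        rw [Nat.choose_succ_succ' (μ l + 1) 1, Nat.choose_one_right]
        exact Nat.add_comm _ _
      have hwl := hw l
      have hwN : w l ≤ N := by
        rw [← hsum]
        exact Finset.single_le_sum (fun _ _ => Nat.zero_le _) (Finset.mem_univ l)
      rw [hW]
      omega
    · push Not at hvan
      obtain ⟨f, hf, hfne⟩ := hvan
      obtain ⟨φ, hφ⟩ : ∃ φ, φ = fd d (μ l) (P l) (c l) (w' l) := ⟨_, rfl⟩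
      rw [← hφ] at hfne hW'
      obtain ⟨L, hL⟩ : ∃ L, L = φ.domRestrict (FS d p m P μ c w') := ⟨_, rfl⟩
      have h1 := LinearMap.finrank_range_add_finrank_ker L
      have h2 : LinearMap.range L = ⊤ := by
        apply LinearMap.range_eq_top.mpr
        intro r
        refine ⟨(r / φ f) • ⟨f, hf⟩, ?_⟩
        rw [map_smul, hL]
        change _ • φ f = r
        rw [smul_eq_mul, div_mul_cancel₀ _ hfne]
      have h3 : finrank ℂ (LinearMap.ker L) =
          finrank ℂ ↥(FS d p m P μ c w' ⊓ LinearMap.ker φ) := by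
        have h4 : LinearMap.ker L = (FS d p m P μ c w' ⊓ LinearMap.ker φ).comap
            (FS d p m P μ c w').subtype := by
          ext x
          simp [hL]
        rw [h4]
        exact (Submodule.comapSubtypeEquivOfLe inf_le_left).finrank_eq
      rw [h2, finrank_top, Module.finrank_self, h3, hW] at h1
      rw [hW']
      omega

/-- **The dimension of the systems with flags.** -/
theorem finrank_FS {d : ℕ} {p : ι → V3} {P : Λ → V3} {c : Λ → ℂ}
    (hX : Ind (Sum.elim p P) c) {m : ι → ℕ} (hm : ∀ i, m i ≤ d) {μ w : Λ → ℕ}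
    (hN : ∀ μ' : Λ → ℕ, (∀ l, μ l ≤ μ' l ∧ μ' l ≤ μ l + 1) → Nsp d (Sum.elim m μ'))
    (hμ : ∀ l, μ l + 1 ≤ d) (hw : ∀ l, w l ≤ μ l + 1) :
    finrank ℂ (FS d p m P μ c w) = (d + 2).choose 2 -
      (∑ i, (m i + 1).choose 2 + ∑ l, (μ l + 1).choose 2 + ∑ l, w l) :=
  finrank_FS_aux hX hm _ μ w (fun μ' h => hN μ' (fun l => ⟨(h l).1, (h l).2.1⟩))
    (fun l => (Nat.le_succ _).trans (hμ l)) (fun l _ => hμ l) hw rfl

end Pool.Agent.Work.MP_0421d9_ag.ZE
end

section
/-!
Collisions of generic points, relative version: the chain argument.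
-/

set_option linter.unusedSectionVars false
set_option linter.unusedVariables false

namespace Pool.Agent.Work.MP_0421d9_ag.ZE

open MvPolynomial Module SM ZC

variable {ι Λ : Type} [Fintype ι] [Fintype Λ] [DecidableEq ι] [DecidableEq Λ] {d M : ℕ}
  {m : ι → ℕ} {U : Finset ι} {μ w s Mv : Λ → ℕ} {v : ∀ l, Fin (s l) → ℕ}

theorem Dat.w_le (S : Dat d M m U μ w s Mv v) (l : Λ) : w l + 1 ≤ μ l := by
  have h1 := S.hw l
  have h2 := S.hMv l
  omega

/-- the room for the surjectivity of the leading parts -/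
theorem Dat.surj_room (S : Dat d M m U μ w s Mv v) {Y : Finset Λ}
    (hY : Y.card ≤ 1) (i i' : ι) (hi : i ∉ U) (hi' : i' ∉ U) (I : Finset Λ)
    (hI : I.card ≤ 2) {j : ℕ} (hj : j ≤ m i) {y : ι ⊕ Λ → ℕ} (hyi : y (Sum.inl i) = j)
    (hyj : ∀ i'' ≠ i, y (Sum.inl i'') = m i'' + if i'' = i' then 1 else 0)
    (hyl : ∀ l, y (Sum.inr l) = μ l + if l ∈ I ∪ Y then 1 else 0) :
    ∑ x, (y x + 1).choose 2 + (y (Sum.inl i) + 1) ≤ (d + 2).choose 2 := by
  classical
  have h1 : ∀ x : ι ⊕ Λ, (y x + 1).choose 2 + (if x = Sum.inl i then y (Sum.inl i) + 1 else 0) ≤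
      (Sum.elim m μ x + 1).choose 2 +
        (if x ∈ ((({i} ∪ {i'} : Finset ι)).disjSum (I ∪ Y) : Finset (ι ⊕ Λ)) then M else 0) := by
    rintro (i'' | l)
    · by_cases h : i'' = i
      · subst h
        rw [if_pos rfl, hyi, if_pos (by simp), Sum.elim_inl, ← choose_succ_two]
        have h2 : (j + 2).choose 2 ≤ (m i'' + 2).choose 2 := Nat.choose_le_choose 2 (by omega)
        have h3 := S.hm i'' hi
        rw [choose_succ_two (m i'')] at h2
        omega
      · rw [if_neg (by simpa using h), hyj i'' h, Sum.elim_inl, add_zero]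
        by_cases hne : i'' = i'
        · subst hne
          rw [if_pos rfl, if_pos (by simp)]
          have h3 := S.hm i'' hi'
          have h4 := choose_succ_two (m i'')
          have h5 : m i'' + 1 + 1 = m i'' + 2 := by ring
          rw [h5, h4]
          omega
        · rw [if_neg hne]
          simp
    · rw [if_neg (by simp), hyl l, Sum.elim_inr, add_zero]
      have h3 := S.hμ l
      by_cases hl : l ∈ I ∪ Y
      · rw [if_pos hl, if_pos (by simpa using hl)]
        have h4 := choose_succ_two (μ l)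
        have h5 : μ l + 1 + 1 = μ l + 2 := rfl
        rw [h5, h4]
        omega
      · rw [if_neg hl]
        simp
  have h2 := Finset.sum_le_sum (fun x (_ : x ∈ (Finset.univ : Finset (ι ⊕ Λ))) => h1 x)
  rw [Finset.sum_add_distrib, Finset.sum_add_distrib, Finset.sum_ite_eq' Finset.univ,
    if_pos (Finset.mem_univ _), Finset.sum_ite_mem, Finset.univ_inter, Finset.sum_const,
    smul_eq_mul] at h2
  have h3 : ((({i} ∪ {i'} : Finset ι)).disjSum (I ∪ Y) : Finset (ι ⊕ Λ)).card ≤ 5 := by
    rw [Finset.card_disjSum]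
    have h5 := Finset.card_union_le ({i} : Finset ι) {i'}
    have h6 := Finset.card_union_le I Y
    rw [Finset.card_singleton, Finset.card_singleton] at h5
    omega
  have h4 := Nat.mul_le_mul_right M h3
  have h5 := S.room
  have h6 := S.hχ
  have h7 : ∑ x, (Sum.elim m μ x + 1).choose 2 =
      ∑ i, (m i + 1).choose 2 + ∑ l, (μ l + 1).choose 2 := by
    rw [Fintype.sum_sum_type]
    rfl
  rw [h7] at h2
  omega

/-- **The chain theorem for the data of a collision.** -/
theorem Dat.core (S : Dat d M m U μ w s Mv v) {p : ι → V3} {P : Λ → V3} {c : Λ → ℂ}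
    (hg : GenericPoints (Sum.elim p P)) {E : ι → Fin 2 → Derivation ℚ ℂ ℂ}
    {D : Λ → Derivation ℚ ℂ ℂ} (hE : Ders p P c E D) (V : Finset ι) (hUV : U ⊆ V)
    (Y : Finset Λ) (hY : Y.card ≤ 1) {n N : ℕ} (hn : n ≤ 3)
    {BB : Submodule ℂ (R3 × MvPolynomial (Fin n) ℂ)} (hom1 : ∀ H ∈ BB, H.1 ∈ linSys d P μ)
    (hom2 : ∀ H ∈ BB, H.2.IsHomogeneous N) (stE : ∀ i ∉ V, ∀ k, ∀ H ∈ BB, ps (E i k) H ∈ BB)
    (stD : ∀ l ∉ Y, ∀ H ∈ BB, ps (D l) H ∈ BB) {q : Fin n → ℂ} (hq : q ≠ 0)
    (free1 : ∀ H ∈ linSys d P μ, (∀ l ∈ Y, VanishTo H (P l) (μ l + 1)) →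
      (∀ a ∈ V, VanishTo H (p a) (m a)) → ∃ Θ, (H, Θ) ∈ BB)
    (hsep : ∀ l ∉ Y, ∀ j < w l, ∃ H ∈ BB, fd d (μ l) (P l) (c l) j H.1 ≠ 0 ∧
      (∀ j' < w l, j' ≠ j → fd d (μ l) (P l) (c l) j' H.1 = 0) ∧
      (∀ l' ∉ Y, l' ≠ l → ∀ j' < w l', fd d (μ l') (P l') (c l') j' H.1 = 0) ∧
      eval q H.2 = 0)
    (hbpf : ∀ T : Finset ι, T.card ≤ 1 → (∀ i ∈ T, i ∉ V) → ∃ H ∈ BB,
      (∀ i ∈ T, VanishTo H.1 (p i) (m i)) ∧ eval q H.2 ≠ 0)
    {F : R3 × MvPolynomial (Fin n) ℂ} (hF : F ∈ BB) (hF' : ∀ i ∉ V, VanishTo F.1 (p i) (m i))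
    (fl : ∀ l ∉ Y, ∀ j < w l, fd d (μ l) (P l) (c l) j F.1 = 0)
    (ex : ∀ l ∉ Y, fd d (μ l) (P l) (c l) (w l) F.1 ≠ 0)
    (uniq : ∀ H ∈ BB, (∀ i ∉ V, VanishTo H.1 (p i) (m i)) →
      (∀ l ∉ Y, ∀ j < w l, fd d (μ l) (P l) (c l) j H.1 = 0) → ∃ a : ℂ, H = a • F)
    (dim : 1 + ∑ l : {l // l ∉ Y}, w l.1 ≤ finrank ℂ
      (VV d (fun i : {i // i ∉ V} => p i.1) BB (fun i => m i.1)))
    (h0 : eval q F.2 = 0) (h1 : ∀ k, eval q (pderiv k F.2) = 0) : False := by
  classical
  have hp2 : ∀ i, p i 2 ≠ 0 := fun i => by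
    have h2 := hg.ne_zero (Sum.inl i, 2)
    exact h2
  have hP2 : ∀ l, P l 2 ≠ 0 := fun l => by
    have h2 := hg.ne_zero (Sum.inr l, 2)
    exact h2
  have C : Chn n N d (fun i : {i // i ∉ V} => p i.1) (fun i => m i.1)
      (fun l : {l // l ∉ Y} => w l.1) BB
      (fun l j => fd d (μ l.1) (P l.1) (c l.1) j) (fun i k => E i.1 k) (fun l => D l.1) :=
    { hd := fun i => by
        have := S.hmd i.1
        omega
      hp := fun i => hp2 i.1
      hom1 := fun H hH => (hom1 H hH).1
      hom2 := hom2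
      E2 := fun i k j => hE.E2 i.1 k j.1
      Ep := fun i k l => hE.Ep i.1 k l
      Ep' := fun i k j l h => hE.Ep' i.1 k j.1 l (fun h' => h (Subtype.ext h'))
      Dp := fun l j k => hE.Dp l.1 j.1 k
      stE := fun i k H hH => stE i.1 i.2 k H hH
      stD := fun l H hH => stD l.1 l.2 H hH
      lawE := fun i k l j H hH => by
        rw [D_fd _ (fun k' => hE.EP i.1 k l.1 k'), hE.Ec, zero_mul, add_zero]
      lawD := fun l j H hH => by
        rw [D_fd _ (fun k' => hE.DP l.1 l.1 k'), hE.Dc, one_mul]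
      lawD' := fun l l' j h H hH => by
        rw [D_fd _ (fun k' => hE.DP l.1 l'.1 k'),
          hE.Dc' l.1 l'.1 (fun h' => h (Subtype.ext h')), zero_mul, add_zero] }
  have T : Sol d (fun i : {i // i ∉ V} => p i.1) (fun i => m i.1)
      (fun l : {l // l ∉ Y} => w l.1) BB (fun l j => fd d (μ l.1) (P l.1) (c l.1) j) F :=
    { dim := dim
      hF := ⟨hF, (hom1 F hF).1, fun i => hF' i.1 i.2⟩
      fl := fun l j hj => fl l.1 l.2 j hj
      ex := fun l => ex l.1 l.2
      uniq := fun H hH h => uniq H hH.1 (fun i hi => hH.2.2 ⟨i, hi⟩)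
        (fun l hl j hj => h ⟨l, hl⟩ j hj) }
  refine C.main T hn hq ?_ ?_ ?_ h0 h1
  · -- surjectivity
    rintro ⟨i, hi⟩ ⟨i', hi'⟩ I hI j hj1 hj β hβ
    have hiU : i ∉ U := fun h => hi (hUV h)
    have hiU' : i' ∉ U := fun h => hi' (hUV h)
    set I' : Finset Λ := I.map ⟨Subtype.val, Subtype.val_injective⟩ with hI'
    have hI'c : I'.card ≤ 2 := by
      rw [hI', Finset.card_map]
      exact hI
    have hIm : ∀ l (hl : l ∉ Y), (⟨l, hl⟩ : {l // l ∉ Y}) ∈ I → l ∈ I' := by
      intro l hl h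
      rw [hI', Finset.mem_map]
      exact ⟨⟨l, hl⟩, h, rfl⟩
    obtain ⟨y, hy⟩ : ∃ y : ι ⊕ Λ → ℕ, y = Sum.elim (fun i'' => if i'' = i then j else
      m i'' + (if i'' = i' then 1 else 0)) (fun l => μ l + if l ∈ I' ∪ Y then 1 else 0) := ⟨_, rfl⟩
    have hyi : y (Sum.inl i) = j := by
      rw [hy, Sum.elim_inl, if_pos rfl]
    have hyj : ∀ i'' ≠ i, y (Sum.inl i'') = m i'' + if i'' = i' then 1 else 0 := fun i'' h => by
      rw [hy, Sum.elim_inl, if_neg h]
    have hyl : ∀ l, y (Sum.inr l) = μ l + if l ∈ I' ∪ Y then 1 else 0 := fun l => by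
      rw [hy, Sum.elim_inr]
    have hroom := S.surj_room hY i i' hiU hiU' I' hI'c hj hyi hyj hyl
    have hjm : j ≤ m i := hj
    have hnear : ∀ y' : ι ⊕ Λ → ℕ, y' (Sum.inl i) ≤ m i + 1 →
        (∀ x, x ≠ Sum.inl i → y' x = y x) → Near m U μ y' := by
      intro y' h2 h3
      refine ⟨fun l => ?_, {i, i'}, Finset.card_le_two, fun x hx => ?_, fun x hx => ?_⟩
      · rw [h3 _ (by simp), hyl]
        split_ifs <;> omega
      · by_cases hxi : x = i
        · rw [hxi]
          exact ⟨hiU, h2⟩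
        · have hx' : x = i' := by
            rcases Finset.mem_insert.mp hx with h | h
            · exact absurd h hxi
            · exact Finset.mem_singleton.mp h
          refine ⟨by rw [hx']; exact hiU', ?_⟩
          rw [h3 _ (by simpa using hxi), hyj x hxi]
          split_ifs <;> omega
      · have hxi : x ≠ i := fun h => hx (by rw [h]; exact Finset.mem_insert_self _ _)
        have hxi' : x ≠ i' := fun h => hx (by
          rw [h]
          exact Finset.mem_insert_of_mem (Finset.mem_singleton_self _))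
        rw [h3 _ (by simpa using hxi), hyj x hxi, if_neg hxi', add_zero]
    obtain ⟨H, hH, hHl⟩ := exists_of_Nsp (y := y) (i := Sum.inl i)
      (S.hN y (hnear y (by omega) (fun _ _ => rfl)))
      (S.hN _ (hnear _ (by rw [Function.update_self]; omega)
        (fun x hx => Function.update_of_ne hx _ _))) (by
      rw [hyi]
      have := S.hmd i
      omega) hroom hg (β := β) (by rw [hyi]; exact hβ)
    rw [hyi] at hHl
    have hHl' : ld d j (p i) H = β := hHl
    have hvl : ∀ l, VanishTo H (P l) (μ l + if l ∈ I' ∪ Y then 1 else 0) := fun l => by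
      have h2 := hH.2 (Sum.inr l)
      rw [hyl] at h2
      exact h2
    have hHP : H ∈ linSys d P μ := ⟨hH.1, fun l => (hvl l).mono (Nat.le_add_right _ _)⟩
    obtain ⟨Θ, hΘ⟩ := free1 H hHP (fun l hl => by
      have := hvl l
      rwa [if_pos (Finset.mem_union_right _ hl)] at this) (fun a ha => by
      have h2 : a ≠ i := fun h => hi (h ▸ ha)
      have h3 := hH.2 (Sum.inl a)
      rw [hyj a h2] at h3
      exact h3.mono (by omega))
    refine ⟨(H, Θ), hΘ, ?_, hHl', ?_, ?_⟩
    · have h3 := hH.2 (Sum.inl i)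
      rwa [hyi] at h3
    · rintro ⟨i'', hi''⟩ hne
      have hne' : i'' ≠ i := fun h => hne (Subtype.ext h)
      have h3 := hH.2 (Sum.inl i'')
      rw [hyj i'' hne'] at h3
      refine h3.mono ?_
      simp only [Subtype.mk.injEq]
      exact le_rfl
    · rintro ⟨l, hl⟩ hlI j'
      refine fd_zero_of_vanishTo hH.1 (hP2 l) (by have := S.hμd l; change μ l ≤ d; omega) ?_ _ _
      have := hvl l
      rwa [if_pos (Finset.mem_union_left _ (hIm l hl hlI))] at this
  · -- separation
    rintro ⟨l, hl⟩ j hj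
    obtain ⟨H, h2, h3, h4, h5, h6⟩ := hsep l hl j hj
    exact ⟨H, h2, h3, h4, fun l' hne j' hj' => h5 l'.1 l'.2
      (fun h => hne (Subtype.ext h)) j' hj', h6⟩
  · -- base points
    intro T hT
    obtain ⟨H, hH, h2, h3⟩ := hbpf (T.map ⟨Subtype.val, Subtype.val_injective⟩)
      (by rw [Finset.card_map]; exact hT) (by
        intro i hi
        rw [Finset.mem_map] at hi
        obtain ⟨x, -, rfl⟩ := hi
        exact x.2)
    refine ⟨H, hH, fun i hi => ?_, h3⟩
    apply h2
    rw [Finset.mem_map]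
    exact ⟨i, hi, rfl⟩

/-- the multiplicities in the separation of the flags: `μ l` at the point of collision `l`,
`μ l' + 2` at the others, `m` at the points of `V`, no condition at the other points -/
def sepY (m : ι → ℕ) (V : Finset ι) (μ : Λ → ℕ) (l : Λ) : ι ⊕ Λ → ℕ :=
  Sum.elim (fun i => if i ∈ V then m i else 0) (fun l' => if l' = l then μ l' else μ l' + 2)

theorem far_of {V : Finset ι} (hUV : U ⊆ V) {y : ι ⊕ Λ → ℕ}
    (h1 : ∀ l, μ l ≤ y (Sum.inr l) ∧ y (Sum.inr l) ≤ μ l + 2) {T : Finset ι}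
    (hV : (V \ U).card + T.card ≤ 2) (h2 : ∀ i ∈ V, y (Sum.inl i) = m i)
    (h3 : ∀ i ∈ T, i ∉ V → y (Sum.inl i) = m i) (h4 : ∀ i ∉ T, i ∉ V → y (Sum.inl i) = 0) :
    Far m U μ y := by
  refine ⟨h1, fun i hi => h2 i (hUV hi), (V \ U) ∪ (T \ V), ?_, fun i hi => ?_,
    fun i hi hiU => ?_⟩
  · have h5 := Finset.card_union_le (V \ U) (T \ V)
    have h6 := Finset.card_le_card (Finset.sdiff_subset : T \ V ⊆ T)
    omega
  · rw [Finset.mem_union, Finset.mem_sdiff, Finset.mem_sdiff] at hi
    rcases hi with ⟨hV', hU'⟩ | ⟨hT', hV'⟩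
    · exact ⟨hU', (h2 i hV').le⟩
    · exact ⟨fun h => hV' (hUV h), (h3 i hT' hV').le⟩
  · rw [Finset.mem_union, Finset.mem_sdiff, Finset.mem_sdiff] at hi
    push Not at hi
    have hiV : i ∉ V := fun h => hiU (hi.1 h)
    exact h4 i (fun h => hiV (hi.2 h)) hiV

/-- **Separation of the flags** -/
theorem Dat.sep (S : Dat d M m U μ w s Mv v) {p : ι → V3} {P : Λ → V3} {c : Λ → ℂ}
    (hg : GenericPoints (Sum.elim p P)) {V : Finset ι} (hUV : U ⊆ V) (hV : (V \ U).card ≤ 1)
    {l : Λ} {j : ℕ} (hj : j < w l) (κ : R3 →ₗ[ℂ] ℂ)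
    (hκ : (∀ H ∈ linSys d (Sum.elim p P) (sepY m V μ l), κ H = 0) ∨
      ∃ H ∈ linSys d (Sum.elim p P) (sepY m V μ l), VanishTo H (P l) (μ l + 1) ∧ κ H ≠ 0) :
    ∃ H ∈ linSys d (Sum.elim p P) (sepY m V μ l), fd d (μ l) (P l) (c l) j H ≠ 0 ∧
      (∀ j' < w l, j' ≠ j → fd d (μ l) (P l) (c l) j' H = 0) ∧
      (∀ l', l' ≠ l → ∀ j' < w l', fd d (μ l') (P l') (c l') j' H = 0) ∧ κ H = 0 := by
  classical
  have hwl := S.w_le l
  have hμd := S.hμd
  have hP2 : ∀ l, P l 2 ≠ 0 := fun l => by
    have h2 := hg.ne_zero (Sum.inr l, 2)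
    exact h2
  have hfar : Far m U μ (sepY m V μ l) := by
    refine far_of hUV (fun l' => ?_) (T := ∅) (by simpa using (by omega : (V \ U).card ≤ 2))
      (fun i hi => ?_) (fun i hi => absurd hi (Finset.notMem_empty i)) (fun i _ hi => ?_)
    · unfold sepY
      rw [Sum.elim_inr]
      split_ifs <;> omega
    · unfold sepY
      rw [Sum.elim_inl, if_pos hi]
    · unfold sepY
      rw [Sum.elim_inl, if_neg hi]
  have hyl : sepY m V μ l (Sum.inr l) = μ l := by
    unfold sepY
    rw [Sum.elim_inr, if_pos rfl]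
  have hyl' : ∀ l' ≠ l, sepY m V μ l (Sum.inr l') = μ l' + 2 := fun l' h => by
    unfold sepY
    rw [Sum.elim_inr, if_neg h]
  obtain ⟨β, hβ, hβf⟩ := exists_flag_beta (c l) (k := μ l) (i := j) (by omega)
  obtain ⟨H₁, hH₁, hl₁⟩ := (S.hF _ hfar).lf _ hg (Sum.inr l) β (by rw [hyl]; exact hβ)
  rw [hyl] at hl₁
  have hl₁' : ld d (μ l) (P l) H₁ = β := hl₁
  have hf₁ : ∀ j', fd d (μ l) (P l) (c l) j' H₁ = if j' = j then 1 else 0 := fun j' => by
    rw [fd_eq, hl₁', hβf]
  have hother : ∀ H ∈ linSys d (Sum.elim p P) (sepY m V μ l), ∀ l', l' ≠ l → ∀ j',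
      fd d (μ l') (P l') (c l') j' H = 0 := by
    intro H hH l' hne j'
    refine fd_zero_of_vanishTo hH.1 (hP2 l') (by have := hμd l'; omega) ?_ _ _
    have h2 := hH.2 (Sum.inr l')
    rw [hyl' l' hne] at h2
    have h3 : VanishTo H (P l') (μ l' + 2) := h2
    exact h3.mono (by omega)
  rcases hκ with hκ | ⟨H₀, hH₀, hv₀, hκ₀⟩
  · refine ⟨H₁, hH₁, ?_, fun j' _ hne => ?_, fun l' hne j' _ => hother H₁ hH₁ l' hne j', hκ H₁ hH₁⟩
    · rw [hf₁, if_pos rfl]
      exact one_ne_zero
    · rw [hf₁, if_neg hne]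
  · have hf₀ : ∀ j', fd d (μ l) (P l) (c l) j' H₀ = 0 := fun j' =>
      fd_zero_of_vanishTo hH₀.1 (hP2 l) (by have := hμd l; omega) hv₀ _ _
    have hmem : H₁ - (κ H₁ / κ H₀) • H₀ ∈ linSys d (Sum.elim p P) (sepY m V μ l) :=
      sub_mem hH₁ (Submodule.smul_mem _ _ hH₀)
    refine ⟨H₁ - (κ H₁ / κ H₀) • H₀, hmem, ?_, fun j' _ hne => ?_,
      fun l' hne j' _ => hother _ hmem l' hne j', ?_⟩
    · rw [map_sub, map_smul, hf₀, smul_zero, sub_zero, hf₁, if_pos rfl]
      exact one_ne_zero
    · rw [map_sub, map_smul, hf₀, smul_zero, sub_zero, hf₁, if_neg hne]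
    · rw [map_sub, map_smul, smul_eq_mul, div_mul_cancel₀ _ hκ₀, sub_self]

end Pool.Agent.Work.MP_0421d9_ag.ZE
end

section
/-!
Collisions of generic points, relative version: the flag level.
-/

set_option linter.unusedSectionVars false
set_option linter.unusedVariables false

namespace Pool.Agent.Work.MP_0421d9_ag.ZE

open MvPolynomial Module SM ZC

variable {ι Λ : Type} [Fintype ι] [Fintype Λ] [DecidableEq ι] [DecidableEq Λ] {d M : ℕ}
  {m : ι → ℕ} {U : Finset ι} {μ w s Mv : Λ → ℕ} {v : ∀ l, Fin (s l) → ℕ}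

theorem Dat.finrank_w (S : Dat d M m U μ w s Mv v) {p : ι → V3} {P : Λ → V3} {c : Λ → ℂ}
    (hX : Ind (Sum.elim p P) c) {w' : Λ → ℕ} (hw' : ∀ l, w' l ≤ μ l + 1) :
    finrank ℂ (FS d p m P μ c w') = (d + 2).choose 2 -
      (∑ i, (m i + 1).choose 2 + ∑ l, (μ l + 1).choose 2 + ∑ l, w' l) := by
  refine finrank_FS hX (fun i => ?_) (fun μ' h => S.hN _ ⟨h, ∅, by simp, ?_, fun i _ => rfl⟩)
    (fun l => ?_) hw'
  · have := S.hmd i
    omega
  · intro i hi
    exact absurd hi (Finset.notMem_empty i)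
  · have := S.hμd l
    omega

theorem Dat.flag_exact (S : Dat d M m U μ w s Mv v) {p : ι → V3} {P : Λ → V3} {c : Λ → ℂ}
    (hX : Ind (Sum.elim p P) c) {F : R3} (hF : F ∈ FS d p m P μ c w) (hF0 : F ≠ 0) (l : Λ) :
    fd d (μ l) (P l) (c l) (w l) F ≠ 0 := by
  intro h
  have h1 := S.finrank_w hX (w' := Function.update w l (w l + 1)) (by
    intro l'
    by_cases h' : l' = l
    · rw [h', Function.update_self]
      have := S.w_le l
      omega
    · rw [Function.update_of_ne h']
      have := S.w_le l'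
      omega)
  have h2 : ∑ l', Function.update w l (w l + 1) l' = ∑ l', w l' + 1 := by
    rw [← Finset.add_sum_erase Finset.univ _ (Finset.mem_univ l), Function.update_self,
      ← Finset.add_sum_erase Finset.univ w (Finset.mem_univ l)]
    rw [Finset.sum_congr rfl (fun l' hl' => Function.update_of_ne (Finset.ne_of_mem_erase hl') _ _)]
    ring
  have h3 := S.hχ
  rw [h2] at h1
  have h4 : finrank ℂ (FS d p m P μ c (Function.update w l (w l + 1))) = 0 := by
    rw [h1]
    omega
  have hfin := finite_of_le_Rd (FS_le_Rd (d := d) (p := p) (m := m) (P := P) (μ := μ) (c := c)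
    (w := Function.update w l (w l + 1)))
  have h5 : FS d p m P μ c (Function.update w l (w l + 1)) = ⊥ := Submodule.finrank_eq_zero.mp h4
  have h6 : F ∈ FS d p m P μ c (Function.update w l (w l + 1)) := by
    refine ⟨hF.1, fun l' i hi => ?_⟩
    by_cases h' : l' = l
    · subst h'
      rw [Function.update_self] at hi
      by_cases hi' : i = w l'
      · rw [hi']
        exact h
      · exact hF.2 l' i (by omega)
    · rw [Function.update_of_ne h'] at hi
      exact hF.2 l' i hi
  rw [h5, Submodule.mem_bot] at h6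
  exact hF0 h6

theorem Dat.flag_uniq (S : Dat d M m U μ w s Mv v) {p : ι → V3} {P : Λ → V3} {c : Λ → ℂ}
    (hX : Ind (Sum.elim p P) c) {F : R3} (hF : F ∈ FS d p m P μ c w) (hF0 : F ≠ 0) {H : R3}
    (hH : H ∈ FS d p m P μ c w) : ∃ a : ℂ, H = a • F := by
  have h1 := S.finrank_w hX (w' := w) (fun l => by have := S.w_le l; omega)
  have h3 := S.hχ
  have h4 : finrank ℂ (FS d p m P μ c w) = 1 := by
    rw [h1]
    omega
  have hne : (⟨F, hF⟩ : FS d p m P μ c w) ≠ 0 := fun h => hF0 (congrArg Subtype.val h)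
  obtain ⟨a, ha⟩ := (finrank_eq_one_iff_of_nonzero' _ hne).mp h4 ⟨H, hH⟩
  exact ⟨a, (congrArg Subtype.val ha).symm⟩

/-- the forms in the separation of the flags satisfy the conditions of the points in `V` and of
the flags in `Y` -/
theorem sepY_mem {p : ι → V3} {P : Λ → V3} {c : Λ → ℂ} {V : Finset ι} {Y : Finset Λ} {l : Λ}
    (hP : ∀ l, P l 2 ≠ 0) (hμd : ∀ l, μ l + 2 ≤ d) (hl : l ∉ Y) {H : R3}
    (hH : H ∈ linSys d (Sum.elim p P) (sepY m V μ l)) :
    H ∈ FS d (fun a : {a // a ∈ V} => p a.1) (fun a => m a.1) P μ c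
      (fun l => if l ∈ Y then w l else 0) := by
  have h1 : ∀ l', VanishTo H (P l') (if l' = l then μ l' else μ l' + 2) := fun l' =>
    hH.2 (Sum.inr l')
  refine ⟨⟨hH.1, ?_⟩, fun l' i hi => ?_⟩
  · rintro (a | l')
    · have h2 : VanishTo H (p a.1) (if a.1 ∈ V then m a.1 else 0) := hH.2 (Sum.inl a.1)
      rw [if_pos a.2] at h2
      exact h2
    · refine (h1 l').mono ?_
      change μ l' ≤ _
      split_ifs <;> omega
  · by_cases hl' : l' ∈ Y
    · have hne : l' ≠ l := fun h => hl (h ▸ hl')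
      have h2 := h1 l'
      rw [if_neg hne] at h2
      exact fd_zero_of_vanishTo hH.1 (hP l') (by have := hμd l'; omega)
        (h2.mono (Nat.le_succ _)) _ _
    · simp only [if_neg hl'] at hi
      exact absurd hi (Nat.not_lt_zero i)

/-- **The chain theorem for graphs.** -/
theorem Dat.graph (S : Dat d M m U μ w s Mv v) {p : ι → V3} {P : Λ → V3} {c : Λ → ℂ}
    (hX : Ind (Sum.elim p P) c) (V : Finset ι) (hUV : U ⊆ V) (Y : Finset Λ)
    (hVY : (V \ U).card + Y.card ≤ 1) {n N : ℕ} (hn : n ≤ 3)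
    {Θ : R3 →ₗ[ℂ] MvPolynomial (Fin n) ℂ} {W : Submodule ℂ R3}
    (hW : W = FS d (fun a : {a // a ∈ V} => p a.1) (fun a => m a.1) P μ c
      (fun l => if l ∈ Y then w l else 0))
    (hΘN : ∀ H ∈ W, (Θ H).IsHomogeneous N)
    (hΘD : ∀ Δ : Derivation ℚ ℂ ℂ, (∀ l k, Δ (P l k) = 0) → (∀ a ∈ V, ∀ k, Δ (p a k) = 0) →
      (∀ l ∈ Y, Δ (c l) = 0) → ∀ H ∈ W, Θ (cD Δ H) = cD Δ (Θ H))
    {q : Fin n → ℂ} (hq : q ≠ 0)
    (hκ : ∀ l ∉ Y, (∀ H ∈ linSys d (Sum.elim p P) (sepY m V μ l), eval q (Θ H) = 0) ∨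
      ∃ H ∈ linSys d (Sum.elim p P) (sepY m V μ l), VanishTo H (P l) (μ l + 1) ∧
        eval q (Θ H) ≠ 0)
    (hbpf : ∀ T : Finset ι, T.card ≤ 1 → (∀ i ∈ T, i ∉ V) → ∃ H ∈ W,
      (∀ i ∈ T, VanishTo H (p i) (m i)) ∧ eval q (Θ H) ≠ 0)
    {F : R3} (hF : F ∈ FS d p m P μ c w) (hF0 : F ≠ 0)
    (h0 : eval q (Θ F) = 0) (h1 : ∀ k, eval q (pderiv k (Θ F)) = 0) : False := by
  classical
  obtain ⟨E, D, hE, -, -⟩ := exists_ders (ind_empty hX)
  have hg : GenericPoints (Sum.elim p P) := Ind.gen hX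
  have hP2 : ∀ l, P l 2 ≠ 0 := fun l => by
    have h2 := hg.ne_zero (Sum.inr l, 2)
    exact h2
  have hWR : W ≤ Rd d := by
    rw [hW]
    exact FS_le_Rd
  have hwY : ∀ l, (if l ∈ Y then w l else 0) ≤ w l := fun l => by split_ifs <;> omega
  have hWst : ∀ Δ : Derivation ℚ ℂ ℂ, (∀ l k, Δ (P l k) = 0) →
      (∀ a ∈ V, ∀ k, Δ (p a k) = 0) → (∀ l ∈ Y, Δ (c l) = 0) → ∀ H ∈ W, cD Δ H ∈ W := by
    intro Δ h1 h2 h3 H hH
    rw [hW] at hH ⊢
    exact FS_stable' Δ h1 h2 h3 hH
  -- members of the whole system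
  have hFS : ∀ H ∈ W, (∀ i ∉ V, VanishTo H (p i) (m i)) → (∀ l ∉ Y, ∀ j < w l,
      fd d (μ l) (P l) (c l) j H = 0) → H ∈ FS d p m P μ c w := by
    intro H hH hv hf
    rw [hW] at hH
    refine ⟨⟨hH.1.1, ?_⟩, fun l i hi => ?_⟩
    · rintro (i | l)
      · by_cases hi : i ∈ V
        · exact hH.1.2 (Sum.inl ⟨i, hi⟩)
        · exact hv i hi
      · exact hH.1.2 (Sum.inr l)
    · by_cases hl : l ∈ Y
      · exact hH.2 l i (by simp only [if_pos hl]; exact hi)
      · exact hf l hl i hi
  have hFW : F ∈ W := by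
    rw [hW]
    refine ⟨⟨hF.1.1, ?_⟩, fun l i hi => hF.2 l i (lt_of_lt_of_le hi (hwY l))⟩
    rintro (a | l)
    · exact hF.1.2 (Sum.inl a.1)
    · exact hF.1.2 (Sum.inr l)
  have hfinV : Module.Finite ℂ (VV d (fun i : {i // i ∉ V} => p i.1) (GB W Θ)
      (fun i => m i.1)) := by
    have hfin := finite_of_le_Rd hWR
    let L : W →ₗ[ℂ] (R3 × MvPolynomial (Fin n) ℂ) :=
      (LinearMap.prod LinearMap.id Θ).comp W.subtype
    have h2 : VV d (fun i : {i // i ∉ V} => p i.1) (GB W Θ) (fun i => m i.1) ≤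
        LinearMap.range L := by
      rintro H ⟨⟨h3, h4⟩, -⟩
      refine ⟨⟨H.1, h3⟩, ?_⟩
      exact Prod.ext rfl h4.symm
    exact Submodule.finiteDimensional_of_le h2
  refine S.core (BB := GB W Θ) (N := N) (F := (F, Θ F)) hg hE V hUV Y (by omega) hn ?_ ?_ ?_ ?_
    hq ?_ ?_ ?_ ⟨hFW, rfl⟩ (fun i _ => hF.1.2 (Sum.inl i)) (fun l _ j hj => hF.2 l j hj)
    (fun l _ => S.flag_exact hX hF hF0 l) ?_ ?_ h0 h1
  · intro H hH
    have h2 := hH.1
    rw [hW] at h2
    exact ⟨h2.1.1, fun l => h2.1.2 (Sum.inr l)⟩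
  · intro H hH
    rw [hH.2]
    exact hΘN _ hH.1
  · intro i hi k H hH
    have hia : ∀ a ∈ V, i ≠ a := by
      rintro a ha rfl
      exact hi ha
    refine ⟨?_, ?_⟩
    · exact hWst (E i k) (hE.EP i k) (fun a ha k' => hE.Ej (hia a ha) k k')
        (fun l _ => hE.Ec i k l) H.1 hH.1
    · change cD (E i k) H.2 = Θ (cD (E i k) H.1)
      rw [hH.2, hΘD (E i k) (hE.EP i k) (fun a ha k' => hE.Ej (hia a ha) k k')
        (fun l _ => hE.Ec i k l) _ hH.1]
  · intro l hl H hH
    have hlY : ∀ l' ∈ Y, l ≠ l' := by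
      rintro l' hl' rfl
      exact hl hl'
    refine ⟨?_, ?_⟩
    · exact hWst (D l) (hE.DP l) (fun a _ k' => hE.Dp l a k')
        (fun l' hl' => hE.Dc' l l' (hlY l' hl')) H.1 hH.1
    · change cD (D l) H.2 = Θ (cD (D l) H.1)
      rw [hH.2, hΘD (D l) (hE.DP l) (fun a ha k' => hE.Dp l a k')
        (fun l' hl' => hE.Dc' l l' (hlY l' hl')) _ hH.1]
  · intro H hH hY hV
    refine ⟨Θ H, ?_, rfl⟩
    change H ∈ W
    rw [hW]
    refine ⟨⟨hH.1, ?_⟩, fun l i hi => ?_⟩
    · rintro (a | l)
      · exact hV a.1 a.2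
      · exact hH.2 l
    · by_cases hl : l ∈ Y
      · exact fd_zero_of_vanishTo hH.1 (hP2 l) (by have := S.hμd l; omega) (hY l hl) _ _
      · have hi' : i < (if l ∈ Y then w l else 0) := hi
        rw [if_neg hl] at hi'
        exact absurd hi' (Nat.not_lt_zero i)
  · intro l hl j hj
    let κ : R3 →ₗ[ℂ] ℂ :=
      { toFun := fun H => eval q (Θ H)
        map_add' := fun x y => by rw [map_add, map_add]
        map_smul' := fun r x => by rw [map_smul, smul_eval, RingHom.id_apply, smul_eq_mul] }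
    obtain ⟨H, h2, h3, h4, h5, h6⟩ := S.sep (c := c) hg hUV (by omega) hj κ (hκ l hl)
    refine ⟨(H, Θ H), ⟨?_, rfl⟩, h3, h4, fun l' _ hne => h5 l' hne, h6⟩
    change H ∈ W
    rw [hW]
    exact sepY_mem hP2 S.hμd hl h2
  · intro T hT hTZ
    obtain ⟨H, hH, h2, h3⟩ := hbpf T hT hTZ
    exact ⟨(H, Θ H), ⟨hH, rfl⟩, h2, h3⟩
  · intro H hH hv hf
    obtain ⟨a, ha⟩ := S.flag_uniq hX hF hF0 (hFS H.1 hH.1 hv hf)
    refine ⟨a, Prod.ext ha ?_⟩
    rw [hH.2, ha, map_smul]
    rfl
  · have h2 := S.finrank_w hX (w' := fun l => if l ∈ Y then w l else 0)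
      (fun l => by have := S.w_le l; have := hwY l; omega)
    have h3 := finrank_le_of_inj (W := FS d p m P μ c (fun l => if l ∈ Y then w l else 0))
      FS_le_Rd hfinV Θ (by
        intro H hH
        have hHW : H ∈ W := by
          rw [hW]
          refine ⟨⟨hH.1.1, ?_⟩, hH.2⟩
          rintro (a | l)
          · exact hH.1.2 (Sum.inl a.1)
          · exact hH.1.2 (Sum.inr l)
        exact ⟨⟨hHW, rfl⟩, hH.1.1, fun i => hH.1.2 (Sum.inl i.1)⟩)
    have h4 : ∑ l, w l = ∑ l, (if l ∈ Y then w l else 0) + ∑ l : {l // l ∉ Y}, w l.1 := by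
      rw [← Finset.sum_subtype (Finset.univ.filter (fun l => l ∉ Y)) (p := fun l => l ∉ Y)
        (fun x => by simp) w, Finset.sum_filter, ← Finset.sum_add_distrib]
      refine Finset.sum_congr rfl (fun l _ => ?_)
      by_cases hl : l ∈ Y
      · rw [if_pos hl, if_neg (not_not.mpr hl), add_zero]
      · rw [if_neg hl, if_pos hl, zero_add]
    have h5 := S.hχ
    rw [h2] at h3
    omega

/-- the multiplicities when at most one movable point is left: `m` at the points of `V` and `T`,
`ν` at the points of collision, no condition at the other points -/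
def dropY (m : ι → ℕ) (V T : Finset ι) (ν : Λ → ℕ) : ι ⊕ Λ → ℕ :=
  Sum.elim (fun i => if i ∈ V ∪ T then m i else 0) ν

theorem Dat.free_drop (S : Dat d M m U μ w s Mv v) {V T : Finset ι} (hUV : U ⊆ V)
    (hVT : (V \ U).card + T.card ≤ 2) {ν : Λ → ℕ} (hν : ∀ l, μ l ≤ ν l ∧ ν l ≤ μ l + 2) :
    Free d (dropY m V T ν) := by
  apply S.hF
  refine far_of hUV hν (T := T) hVT (fun i hi => ?_) (fun i hi _ => ?_) (fun i hi hV => ?_)
  · unfold dropY
    rw [Sum.elim_inl, if_pos (Finset.mem_union_left _ hi)]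
  · unfold dropY
    rw [Sum.elim_inl, if_pos (Finset.mem_union_right _ hi)]
  · unfold dropY
    rw [Sum.elim_inl, if_neg]
    rw [Finset.mem_union]
    push Not
    exact ⟨hV, hi⟩

theorem sepY_succ (V : Finset ι) (l : Λ) : Function.update (sepY m V μ l) (Sum.inr l) (μ l + 1) =
    dropY m V ∅ (fun l' => if l' = l then μ l' + 1 else μ l' + 2) := by
  funext x
  rcases x with i | l'
  · rw [Function.update_of_ne (by simp)]
    unfold sepY dropY
    rw [Sum.elim_inl, Sum.elim_inl, Finset.union_empty]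
  · by_cases h : l' = l
    · subst h
      rw [Function.update_self]
      unfold dropY
      rw [Sum.elim_inr, if_pos rfl]
    · rw [Function.update_of_ne (by simpa using h)]
      unfold sepY dropY
      rw [Sum.elim_inr, Sum.elim_inr, if_neg h, if_neg h]

/-- a member of a smaller system, for the separation of the flags -/
theorem sep_witness {p : ι → V3} {P : Λ → V3} {V : Finset ι} {l : Λ} {H : R3}
    (hH : H ∈ linSys d (Sum.elim p P)
      (dropY m V ∅ (fun l' => if l' = l then μ l' + 1 else μ l' + 2))) :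
    H ∈ linSys d (Sum.elim p P) (sepY m V μ l) ∧ VanishTo H (P l) (μ l + 1) := by
  have hl : VanishTo H (P l) (if l = l then μ l + 1 else μ l + 2) := hH.2 (Sum.inr l)
  rw [if_pos rfl] at hl
  refine ⟨⟨hH.1, fun x => ?_⟩, hl⟩
  refine (hH.2 x).mono ?_
  rw [← sepY_succ]
  by_cases hx : x = Sum.inr l
  · rw [hx, Function.update_self]
    unfold sepY
    rw [Sum.elim_inr, if_pos rfl]
    exact Nat.le_succ _
  · rw [Function.update_of_ne hx]

end Pool.Agent.Work.MP_0421d9_ag.ZE
end

section
/-!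
Collisions of generic points, relative version: the flag level, the four cases.
-/

set_option linter.unusedSectionVars false
set_option linter.unusedVariables false

namespace Pool.Agent.Work.MP_0421d9_ag.ZE

open MvPolynomial Module SM ZC

variable {ι Λ : Type} [Fintype ι] [Fintype Λ] [DecidableEq ι] [DecidableEq Λ] {d M : ℕ}
  {m : ι → ℕ} {U : Finset ι} {μ w s Mv : Λ → ℕ} {v : ∀ l, Fin (s l) → ℕ}

theorem dropY_inl {V T : Finset ι} {ν : Λ → ℕ} {i : ι} (hi : i ∈ V ∪ T) :
    dropY m V T ν (Sum.inl i) = m i := by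
  unfold dropY
  rw [Sum.elim_inl, if_pos hi]

theorem dropY_mem {p : ι → V3} {P : Λ → V3} {V T : Finset ι} {ν : Λ → ℕ} {H : R3}
    (hH : H ∈ linSys d (Sum.elim p P) (dropY m V T ν)) :
    (∀ i ∈ V ∪ T, VanishTo H (p i) (m i)) ∧ ∀ l, VanishTo H (P l) (ν l) := by
  refine ⟨fun i hi => ?_, fun l => hH.2 (Sum.inr l)⟩
  have h1 := hH.2 (Sum.inl i)
  rw [dropY_inl hi] at h1
  exact h1

theorem Dat.flag_sing [Nonempty Λ] (S : Dat d M m U μ w s Mv v) {p : ι → V3} {P : Λ → V3}
    {c : Λ → ℂ} (hX : Ind (Sum.elim p P) c) {F : R3} (hF : F ∈ FS d p m P μ c w) (hF0 : F ≠ 0) :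
    ¬ Sing (Sum.elim p P) F := by
  classical
  rintro ⟨q, hq, hqp, hs⟩
  have hg : GenericPoints (Sum.elim p P) := Ind.gen hX
  have hd1 : 1 ≤ d := by
    obtain ⟨l⟩ := ‹Nonempty Λ›
    have := S.hμd l
    omega
  refine S.graph hX U (Finset.Subset.refl U) ∅ (by simp) (n := 3) (N := d) le_rfl
    (Θ := LinearMap.id)
    (W := FS d (fun a : {a // a ∈ U} => p a.1) (fun a => m a.1) P μ c
      (fun l => if l ∈ (∅ : Finset Λ) then w l else 0)) rfl (fun H hH => hH.1.1)
    (fun Δ _ _ _ H _ => rfl) hq (fun l _ => Or.inr ?_) ?_ hF hF0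
    (eval_zero_of_grad hd1 hF.1.1 hs) hs
  · obtain ⟨H, hH, hHq⟩ := (S.free_drop (V := U) (T := ∅) (Finset.Subset.refl U) (by simp)
      (ν := fun l' => if l' = l then μ l' + 1 else μ l' + 2)
      (fun l' => by split_ifs <;> omega)).bp _ hg q hq hqp
    obtain ⟨h1, h2⟩ := sep_witness hH
    exact ⟨H, h1, h2, hHq⟩
  · intro T hT _
    obtain ⟨H, hH, hHq⟩ := (S.free_drop (V := U) (T := T) (Finset.Subset.refl U)
      (by rw [Finset.sdiff_self, Finset.card_empty]; omega)
      (ν := μ) (fun l' => ⟨le_rfl, Nat.le_add_right _ _⟩)).bp _ hg q hq hqp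
    obtain ⟨h1, h2⟩ := dropY_mem hH
    refine ⟨H, ⟨⟨hH.1, ?_⟩, fun l i hi => ?_⟩, fun i hi => h1 i (Finset.mem_union_right _ hi),
      hHq⟩
    · rintro (a | l)
      · exact h1 a.1 (Finset.mem_union_left _ a.2)
      · exact h2 l
    · simp at hi

theorem Dat.flag_tang (S : Dat d M m U μ w s Mv v) {p : ι → V3} {P : Λ → V3} {c : Λ → ℂ}
    (hX : Ind (Sum.elim p P) c) {F : R3} (hF : F ∈ FS d p m P μ c w) (hF0 : F ≠ 0) :
    ¬ Tang d p m F := by
  classical
  rintro ⟨a, u, hu, hbad⟩
  have hg : GenericPoints (Sum.elim p P) := Ind.gen hX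
  have hma := S.hmd a
  have hp2 : p a 2 ≠ 0 := hg.ne_zero (Sum.inl a, 2)
  obtain ⟨y, hy, hy0, hy1⟩ : ∃ y : V2, y ≠ 0 ∧ eval y (ld d (m a) (p a) F) = 0 ∧
      ∀ k, eval y (pderiv k (ld d (m a) (p a) F)) = 0 := by
    rcases Nat.eq_zero_or_pos (m a) with h0 | hpos
    · have h1 := (badDir_zero_iff hF.1.1 hp2).mp ⟨u, hu, by rw [h0] at hbad; exact hbad⟩
      refine ⟨![1, 0], ?_, ?_, ?_⟩
      · intro h
        exact one_ne_zero (congrFun h 0)
      · rw [h0, h1, map_zero]
      · intro k
        rw [h0, h1, map_zero, map_zero]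
    · obtain ⟨y, hy, hy1⟩ := (badDir_iff_ld hF.1.1 hp2 hpos (by omega)
        (hF.1.2 (Sum.inl a))).mp ⟨u, hu, hbad⟩
      exact ⟨y, hy, eval_zero_of_grad hpos (ld_hom hF.1.1 (by omega) _) hy1, hy1⟩
  have hUV : U ⊆ insert a U := Finset.subset_insert a U
  have hcard : (insert a U \ U).card ≤ 1 := by
    refine (Finset.card_le_card (t := {a}) ?_).trans (by simp)
    intro x hx
    rw [Finset.mem_sdiff, Finset.mem_insert] at hx
    rw [Finset.mem_singleton]
    exact hx.1.resolve_right hx.2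
  have haV : a ∈ insert a U := Finset.mem_insert_self a U
  refine S.graph hX (insert a U) hUV ∅ (by simpa using hcard) (n := 2) (N := m a) (by omega)
    (Θ := ld d (m a) (p a))
    (W := FS d (fun b : {b // b ∈ insert a U} => p b.1) (fun b => m b.1) P μ c
      (fun l => if l ∈ (∅ : Finset Λ) then w l else 0)) rfl
    (fun H hH => ld_hom hH.1.1 (by omega) _)
    (fun Δ _ h _ H _ => (cD_ld Δ (h a haV) d (m a) H).symm) hy (fun l _ => Or.inr ?_) ?_
    hF hF0 hy0 hy1
  · obtain ⟨β, hβ, hβy⟩ := exists_binary hy (m a)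
    have hda : dropY m (insert a U) ∅ (fun l' => if l' = l then μ l' + 1 else μ l' + 2)
        (Sum.inl a) = m a := dropY_inl (Finset.mem_union_left _ haV)
    obtain ⟨H, hH, hHl⟩ := (S.free_drop (V := insert a U) (T := ∅) hUV
      (by rw [Finset.card_empty]; omega)
      (ν := fun l' => if l' = l then μ l' + 1 else μ l' + 2)
      (fun l' => by split_ifs <;> omega)).lf _ hg (Sum.inl a) β (by rw [hda]; exact hβ)
    rw [hda] at hHl
    have hHl' : ld d (m a) (p a) H = β := hHl
    obtain ⟨h1, h2⟩ := sep_witness hH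
    exact ⟨H, h1, h2, by rw [hHl']; exact hβy⟩
  · intro T hT hTa
    obtain ⟨β, hβ, hβy⟩ := exists_binary hy (m a)
    have hda : dropY m (insert a U) T μ (Sum.inl a) = m a :=
      dropY_inl (Finset.mem_union_left _ haV)
    obtain ⟨H, hH, hHl⟩ := (S.free_drop (V := insert a U) (T := T) hUV (by omega)
      (ν := μ) (fun l' => ⟨le_rfl, Nat.le_add_right _ _⟩)).lf _ hg (Sum.inl a) β
      (by rw [hda]; exact hβ)
    rw [hda] at hHl
    have hHl' : ld d (m a) (p a) H = β := hHl
    obtain ⟨h1, h2⟩ := dropY_mem hH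
    refine ⟨H, ⟨⟨hH.1, ?_⟩, fun l i hi => ?_⟩, fun i hi => h1 i (Finset.mem_union_right _ hi),
      by rw [hHl']; exact hβy⟩
    · rintro (b | l)
      · exact h1 b.1 (Finset.mem_union_left _ b.2)
      · exact h2 l
    · simp at hi

/-- a multiple tangent at a point of collision is the flag direction -/
theorem Dat.flag_dir (S : Dat d M m U μ w s Mv v) {p : ι → V3} {P : Λ → V3} {c : Λ → ℂ}
    (hX : Ind (Sum.elim p P) c) {F : R3} (hF : F ∈ FS d p m P μ c w) (hF0 : F ≠ 0) {l₀ : Λ}
    {y : V2} (hy : y ≠ 0) (h : ∀ k, eval y (pderiv k (ld d (μ l₀) (P l₀) F)) = 0) :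
    y 0 = c l₀ * y 1 := by
  classical
  by_contra hne
  have hg : GenericPoints (Sum.elim p P) := Ind.gen hX
  have hμd := S.hμd l₀
  have hwl := S.w_le l₀
  have hP2 : P l₀ 2 ≠ 0 := hg.ne_zero (Sum.inr l₀, 2)
  refine S.graph hX U (Finset.Subset.refl U) {l₀} (by simp) (n := 2) (N := μ l₀) (by omega)
    (Θ := ld d (μ l₀) (P l₀))
    (W := FS d (fun b : {b // b ∈ U} => p b.1) (fun b => m b.1) P μ c
      (fun l => if l ∈ ({l₀} : Finset Λ) then w l else 0)) rfl
    (fun H hH => ld_hom hH.1.1 (by omega) _)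
    (fun Δ h _ _ H _ => (cD_ld Δ (h l₀) d (μ l₀) H).symm) hy (fun l hl => Or.inl ?_) ?_ hF hF0
    (eval_zero_of_grad (by omega) (ld_hom hF.1.1 (by omega) _) h) h
  · intro H hH
    have hne' : l₀ ≠ l := fun h => hl (by rw [h]; exact Finset.mem_singleton_self l)
    have h1 : VanishTo H (P l₀) (if l₀ = l then μ l₀ else μ l₀ + 2) := hH.2 (Sum.inr l₀)
    rw [if_neg hne'] at h1
    rw [(vanishTo_iff_ld hH.1 hP2 (by omega)).mp h1 (μ l₀) (by omega), map_zero]
  · intro T hT _
    obtain ⟨γ, hγ, hγy⟩ := exists_binary hy (μ l₀ - w l₀)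
    have hlin : (X 0 - C (c l₀) * X 1 : R2).IsHomogeneous 1 :=
      (isHomogeneous_X ℂ 0).sub ((isHomogeneous_X ℂ 1).C_mul _)
    have hβ : ((X 0 - C (c l₀) * X 1) ^ w l₀ * γ : R2).IsHomogeneous (μ l₀) := by
      have h1 := (hlin.pow (w l₀)).mul hγ
      rwa [one_mul, (by omega : w l₀ + (μ l₀ - w l₀) = μ l₀)] at h1
    obtain ⟨H, hH, h4⟩ := (S.free_drop (V := U) (T := T) (Finset.Subset.refl U)
      (by rw [Finset.sdiff_self, Finset.card_empty]; omega)
      (ν := μ) (fun l' => ⟨le_rfl, Nat.le_add_right _ _⟩)).lf _ hg (Sum.inr l₀) _ hβ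
    have h4' : ld d (μ l₀) (P l₀) H = (X 0 - C (c l₀) * X 1) ^ w l₀ * γ := h4
    obtain ⟨h1, h2⟩ := dropY_mem hH
    refine ⟨H, ⟨⟨hH.1, ?_⟩, fun l i hi => ?_⟩, fun i hi => h1 i (Finset.mem_union_right _ hi),
      ?_⟩
    · rintro (b | l)
      · exact h1 b.1 (Finset.mem_union_left _ b.2)
      · exact h2 l
    · by_cases hl : l = l₀
      · subst hl
        have hi' : i < w l := by
          simp at hi
          exact hi
        rw [fd_eq, h4']
        obtain ⟨γ', hγ'⟩ := iterate_factor (c l) (w l) i hi'.le γ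
        rw [hγ', map_mul, map_pow]
        have h5 : eval ![c l, 1] (X 0 - C (c l) * X 1 : R2) = 0 := by simp
        rw [h5, zero_pow (by omega), zero_mul]
      · have hi' : i < 0 := by simp [hl] at hi
        exact absurd hi' (Nat.not_lt_zero i)
    · rw [h4', map_mul, map_pow]
      refine mul_ne_zero (pow_ne_zero _ ?_) hγy
      intro h5
      apply hne
      have h6 : eval y (X 0 - C (c l₀) * X 1 : R2) = y 0 - c l₀ * y 1 := by simp
      rw [h6] at h5
      exact sub_eq_zero.mp h5

/-- the strict transform is smooth at the flag direction -/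
theorem Dat.flag_next (S : Dat d M m U μ w s Mv v) {p : ι → V3} {P : Λ → V3} {c : Λ → ℂ}
    (hX : Ind (Sum.elim p P) c) {F : R3} (hF : F ∈ FS d p m P μ c w) (hF0 : F ≠ 0) (l₀ : Λ) :
    eval ![c l₀, 1] (ld d (μ l₀ + 1) (P l₀) F) ≠ 0 := by
  classical
  intro hzero
  have hg : GenericPoints (Sum.elim p P) := Ind.gen hX
  have hμd := S.hμd l₀
  have hP2 : P l₀ 2 ≠ 0 := hg.ne_zero (Sum.inr l₀, 2)
  have hΘa : ∀ H : R3, ((Algebra.linearMap ℂ (MvPolynomial (Fin 1) ℂ)).comp
      (fd d (μ l₀ + 1) (P l₀) (c l₀) 0)) H = C (fd d (μ l₀ + 1) (P l₀) (c l₀) 0 H) :=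
    fun H => rfl
  have hF1 : fd d (μ l₀ + 1) (P l₀) (c l₀) 0 F = 0 := hzero
  refine S.graph hX U (Finset.Subset.refl U) {l₀} (by simp) (n := 1) (N := 0) (by omega)
    (Θ := (Algebra.linearMap ℂ (MvPolynomial (Fin 1) ℂ)).comp
      (fd d (μ l₀ + 1) (P l₀) (c l₀) 0))
    (W := FS d (fun b : {b // b ∈ U} => p b.1) (fun b => m b.1) P μ c
      (fun l => if l ∈ ({l₀} : Finset Λ) then w l else 0)) rfl
    (fun H hH => by rw [hΘa]; exact isHomogeneous_C _ _) ?_ (q := fun _ => 1)
    (fun h => one_ne_zero (congrFun h 0)) (fun l hl => Or.inl ?_) ?_ hF hF0 ?_ ?_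
  · intro Δ h _ hc H _
    rw [hΘa, hΘa, cD_C, D_fd Δ (h l₀), hc l₀ (by simp), zero_mul, add_zero]
  · intro H hH
    have hne' : l₀ ≠ l := fun h => hl (by rw [h]; exact Finset.mem_singleton_self l)
    have h1 : VanishTo H (P l₀) (if l₀ = l then μ l₀ else μ l₀ + 2) := hH.2 (Sum.inr l₀)
    rw [if_neg hne'] at h1
    rw [hΘa, eval_C]
    exact fd_zero_of_vanishTo hH.1 hP2 (by omega) h1 _ _
  · intro T hT _
    obtain ⟨β, hβ, hβy⟩ := exists_binary (y := ![c l₀, 1]) (fun h => one_ne_zero (congrFun h 1))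
      (μ l₀ + 1)
    have hν : (fun l' => if l' = l₀ then μ l' + 1 else μ l' : Λ → ℕ) l₀ = μ l₀ + 1 := by simp
    obtain ⟨H, hH, h4⟩ := (S.free_drop (V := U) (T := T) (Finset.Subset.refl U)
      (by rw [Finset.sdiff_self, Finset.card_empty]; omega)
      (ν := fun l' => if l' = l₀ then μ l' + 1 else μ l')
      (fun l' => by split_ifs <;> omega)).lf _ hg (Sum.inr l₀) β (by
        change β.IsHomogeneous (if l₀ = l₀ then μ l₀ + 1 else μ l₀)
        rw [if_pos rfl]
        exact hβ)
    have h4' : ld d (if l₀ = l₀ then μ l₀ + 1 else μ l₀) (P l₀) H = β := h4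
    rw [if_pos rfl] at h4'
    obtain ⟨h1, h2⟩ := dropY_mem hH
    have h2' : ∀ l, VanishTo H (P l) (if l = l₀ then μ l + 1 else μ l) := h2
    refine ⟨H, ⟨⟨hH.1, ?_⟩, fun l i hi => ?_⟩, fun i hi => h1 i (Finset.mem_union_right _ hi),
      ?_⟩
    · rintro (b | l)
      · exact h1 b.1 (Finset.mem_union_left _ b.2)
      · refine (h2' l).mono ?_
        change μ l ≤ _
        split_ifs <;> omega
    · by_cases hl : l = l₀
      · subst hl
        have h5 := h2' l
        rw [if_pos rfl] at h5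
        exact fd_zero_of_vanishTo hH.1 hP2 (by omega) h5 _ _
      · have hi' : i < 0 := by simp [hl] at hi
        exact absurd hi' (Nat.not_lt_zero i)
    · rw [hΘa, eval_C, fd_eq, h4']
      exact hβy
  · rw [hΘa, eval_C]
    exact hF1
  · intro k
    rw [hΘa, pderiv_C, map_zero]

end Pool.Agent.Work.MP_0421d9_ag.ZE
end

section
/-!
Collisions of generic points, relative version: exact contact orders at the level of one cluster.
-/

set_option linter.unusedSectionVars false
set_option linter.unusedVariables false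

namespace Pool.Agent.Work.MP_0421d9_ag.ZE

open MvPolynomial Module SM ZC

section levels

variable {ι Λ : Type} [Fintype ι] [Fintype Λ] [DecidableEq ι] [DecidableEq Λ] {d M : ℕ}
  {m : ι → ℕ} {U : Finset ι} {μ w s Mv : Λ → ℕ} {v : ∀ l, Fin (s l) → ℕ}

/-- one cluster, the others are flags: exact contact orders -/
theorem Dat.hyb_exact (S : Dat d M m U μ w s Mv v) {p : ι → V3} {P : Λ → V3} {c : Λ → ℂ} {l₀ : Λ}
    {ζ : Fin (s l₀) → V3} (hX : Ind (Sum.elim (Sum.elim p P) ζ) c) {F : R3}
    (hF : F ∈ FS d p m P μ c (Function.update w l₀ 0)) (hF0 : F ≠ 0)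
    (hG : ∃ G ∈ linSys (μ l₀) ζ (v l₀), res G = ld d (μ l₀) (P l₀) F) :
    (∀ l ≠ l₀, fd d (μ l) (P l) (c l) (w l) F ≠ 0) ∧ ld d (μ l₀) (P l₀) F ≠ 0 := by
  obtain ⟨G, hG, hGF⟩ := hG
  -- the place
  have hX' : Ind (Sum.elim (Sum.elim p P) (fun x : (Σ _ : Unit, Fin (s l₀)) => ζ x.2)) c := by
    have hinj : Function.Injective (Sum.map (fun z : ((ι ⊕ Λ) ⊕ (Σ _ : Unit, Fin (s l₀))) × Fin 3 =>
        ((Sum.map id (fun x : (Σ _ : Unit, Fin (s l₀)) => x.2) z.1 : (ι ⊕ Λ) ⊕ Fin (s l₀)), z.2))
        (id : Λ → Λ)) := by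
      apply Function.Injective.sumMap _ Function.injective_id
      rintro ⟨x, k⟩ ⟨y, k'⟩ h
      rw [Prod.mk.injEq] at h
      obtain ⟨h1, h2⟩ := h
      have h3 : Function.Injective (Sum.map (id : ι ⊕ Λ → ι ⊕ Λ)
          (fun x : (Σ _ : Unit, Fin (s l₀)) => x.2)) := by
        apply Function.Injective.sumMap Function.injective_id
        rintro ⟨_, a⟩ ⟨_, b⟩ hab
        have : a = b := hab
        rw [this]
      exact Prod.ext (h3 h1) h2
    have h1 := AlgebraicIndependent.comp hX _ hinj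
    have h2 : Sum.elim (fun z : ((ι ⊕ Λ) ⊕ Fin (s l₀)) × Fin 3 =>
        Sum.elim (Sum.elim p P) ζ z.1 z.2) c ∘ Sum.map
        (fun z : ((ι ⊕ Λ) ⊕ (Σ _ : Unit, Fin (s l₀))) × Fin 3 =>
        ((Sum.map id (fun x : (Σ _ : Unit, Fin (s l₀)) => x.2) z.1 : (ι ⊕ Λ) ⊕ Fin (s l₀)), z.2))
        (id : Λ → Λ) = Sum.elim (fun z : ((ι ⊕ Λ) ⊕ (Σ _ : Unit, Fin (s l₀))) × Fin 3 =>
        Sum.elim (Sum.elim p P) (fun x : (Σ _ : Unit, Fin (s l₀)) => ζ x.2) z.1 z.2) c := by
      funext z
      rcases z with ⟨(x | x), k⟩ | z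
      · rfl
      · rfl
      · rfl
    rw [h2] at h1
    exact h1
  obtain ⟨ρ, t, c₁, ξ, ht0, ht, hp, hc, hc₁, hξ, hξζ⟩ := exists_flag_place (Λ := Unit)
    (s := fun _ => s l₀) hX' (Sum.elim p P) c (fun _ => c l₀)
    (fun x => ![ζ x.2 1, ζ x.2 0 - c l₀ * ζ x.2 1, ζ x.2 2])
  have hXF : Ind (Sum.elim p P) c := by
    have hinj : Function.Injective (Sum.map (fun z : (ι ⊕ Λ) × Fin 3 =>
        ((Sum.inl z.1 : (ι ⊕ Λ) ⊕ Fin (s l₀)), z.2)) (id : Λ → Λ)) := by
      apply Function.Injective.sumMap _ Function.injective_id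
      rintro ⟨x, k⟩ ⟨y, k'⟩ h
      rw [Prod.mk.injEq] at h
      exact Prod.ext (Sum.inl_injective h.1) h.2
    have h1 := AlgebraicIndependent.comp hX _ hinj
    have h2 : Sum.elim (fun z : ((ι ⊕ Λ) ⊕ Fin (s l₀)) × Fin 3 =>
        Sum.elim (Sum.elim p P) ζ z.1 z.2) c ∘ Sum.map (fun z : (ι ⊕ Λ) × Fin 3 =>
        ((Sum.inl z.1 : (ι ⊕ Λ) ⊕ Fin (s l₀)), z.2)) (id : Λ → Λ) =
        Sum.elim (fun z : (ι ⊕ Λ) × Fin 3 => Sum.elim p P z.1 z.2) c := by
      funext z
      rcases z with z | z <;> rfl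
    rw [h2] at h1
    exact h1
  have hXb : Ind ζ (fun _ : Unit => c l₀) := by
    have hinj : Function.Injective (Sum.map (fun z : Fin (s l₀) × Fin 3 =>
        ((Sum.inr z.1 : (ι ⊕ Λ) ⊕ Fin (s l₀)), z.2)) (fun _ : Unit => l₀)) := by
      apply Function.Injective.sumMap
      · rintro ⟨x, k⟩ ⟨y, k'⟩ h
        rw [Prod.mk.injEq] at h
        exact Prod.ext (Sum.inr_injective h.1) h.2
      · intro x y _
        rfl
    have h1 := AlgebraicIndependent.comp hX _ hinj
    have h2 : Sum.elim (fun z : ((ι ⊕ Λ) ⊕ Fin (s l₀)) × Fin 3 =>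
        Sum.elim (Sum.elim p P) ζ z.1 z.2) c ∘ Sum.map (fun z : Fin (s l₀) × Fin 3 =>
        ((Sum.inr z.1 : (ι ⊕ Λ) ⊕ Fin (s l₀)), z.2)) (fun _ : Unit => l₀) =
        Sum.elim (fun z : Fin (s l₀) × Fin 3 => ζ z.1 z.2) (fun _ : Unit => c l₀) := by
      funext z
      rcases z with z | z <;> rfl
    rw [h2] at h1
    exact h1
  obtain ⟨a, ha, F', hF'0, hF'⟩ := ρ.exists_scale_poly hF0
  have hpk : ∀ x k, ρ.L (Sum.elim p P x k) (Sum.elim p P x k) := hp
  have hFS : F' ∈ FS d p m P μ c w := by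
    refine ⟨hF'.linSys hpk (linSys_C_mul hF.1 a), fun l i hi => ?_⟩
    by_cases hl : l = l₀
    · subst hl
      have hlim := LP_ld ρ (P := P l) (P' := P l) (fun k => hp (Sum.inr l) k) hF' d (μ l)
      have hβ : ∃ G' ∈ linSys (μ l) ζ (v l), res G' = ld d (μ l) (P l) (C a * F) := by
        refine ⟨C a * G, linSys_C_mul hG a, ?_⟩
        rw [map_mul, res_C, hGF, ← smul_eq_C_mul, ← smul_eq_C_mul, map_smul]
      exact spec_flag (S.hNv l) (S.hNv' l) (fun j => (Nat.le_succ _).trans (S.hv l j))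
        ((by omega : Mv l ≤ 2 * Mv l).trans (S.hvμ l)) (S.hMv l) (S.crit l)
        (by have := S.hw l; have := S.hMv l; omega) hXb ht0 ht (hc₁ ())
        (ζ := ζ) (ξ := fun j => ξ ⟨(), j⟩) (fun x k => hξ ⟨(), x⟩ k) (fun x => hξζ ⟨(), x⟩)
        hβ hlim i hi
    · have h1 : fd d (μ l) (P l) (c l) i (C a * F) = 0 := by
        rw [← smul_eq_C_mul, map_smul, hF.2 l i (by rwa [Function.update_of_ne hl]), smul_zero]
      have h2 := L_fd ρ (P := P l) (P' := P l) (fun k => hp (Sum.inr l) k) hF' (hc l) d (μ l) i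
      rw [h1] at h2
      exact ρ.fn h2 ρ.zero
  refine ⟨fun l hl h0 => ?_, fun h0 => ?_⟩
  · apply S.flag_exact hXF hFS hF'0 l
    have h1 : fd d (μ l) (P l) (c l) (w l) (C a * F) = 0 := by
      rw [← smul_eq_C_mul, map_smul, h0, smul_zero]
    have h2 := L_fd ρ (P := P l) (P' := P l) (fun k => hp (Sum.inr l) k) hF' (hc l) d (μ l) (w l)
    rw [h1] at h2
    exact ρ.fn h2 ρ.zero
  · apply S.flag_exact hXF hFS hF'0 l₀
    have hlim := LP_ld ρ (P := P l₀) (P' := P l₀) (fun k => hp (Sum.inr l₀) k) hF' d (μ l₀)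
    rw [← smul_eq_C_mul, map_smul, h0, smul_zero] at hlim
    have h1 : ld d (μ l₀) (P l₀) F' = 0 := Pl.LP.fn hlim Pl.LP_zero
    change eval ![c l₀, 1] ((pderiv 0)^[w l₀] (ld d (μ l₀) (P l₀) F')) = 0
    rw [h1, iterate_map_zero, map_zero]

end levels

end Pool.Agent.Work.MP_0421d9_ag.ZE
end

section
/-!
Smoothness relative to an arbitrary set of exempt points: at the exempt points the hypotheses are
regularity of the exempt points alone, in degree `d - 1` (with one further point) and in degree `d`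
(with one multiplicity raised).
-/

set_option linter.unusedSectionVars false

namespace Pool.Agent.Work.MP_0421d9_ag

open MvPolynomial Module

section free

variable {ι : Type} [Fintype ι] [DecidableEq ι]

/-- if the conditions are independent, the parametrisation of the inverse system is injective -/
theorem inj_of_finrank {d : ℕ} {p : ι → V3} {m : ι → ℕ} (hm : ∀ i, m i ≤ d + 1)
    (h : finrank ℂ (linSys d p m) + ∑ i, (m i + 1).choose 2 = (d + 2).choose 2) :
    ∀ G ∈ HH m, Psi d p m G = 0 → G = 0 := by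
  have h0 := finrank_linSys_add (p := p) hm
  have h1 : finrank ℂ (J d p m) = ∑ i, (m i + 1).choose 2 := by omega
  have hfinH : ∀ i, Module.Finite ℂ (Hm (m i)) := by
    intro i
    cases hmi : m i with
    | zero => exact inferInstanceAs (Module.Finite ℂ (⊥ : Submodule ℂ R3))
    | succ n =>
      exact inferInstanceAs (Module.Finite ℂ (Rd n))
  let e : (HH m) ≃ₗ[ℂ] (∀ i, Hm (m i)) :=
      { toFun := fun G i => ⟨G.1 i, mem_HH.mp G.2 i⟩
        invFun := fun G => ⟨fun i => (G i).1, mem_HH.mpr (fun i => (G i).2)⟩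
        left_inv := fun G => rfl
        right_inv := fun G => rfl
        map_add' := fun G G' => rfl
        map_smul' := fun c G => rfl }
  have hfin : Module.Finite ℂ (HH m) := Module.Finite.equiv e.symm
  have h2 : finrank ℂ (HH m) = ∑ i, (m i + 1).choose 2 := by
    rw [e.finrank_eq, Module.finrank_pi_fintype]
    exact Finset.sum_congr rfl (fun i _ => finrank_Hm (m i))
  have h3 := LinearMap.finrank_range_add_finrank_ker ((Psi d p m).domRestrict (HH m))
  rw [LinearMap.range_domRestrict] at h3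
  have h4 : finrank ℂ ((HH m).map (Psi d p m)) = ∑ i, (m i + 1).choose 2 := h1
  rw [h4, h2] at h3
  have h5 : finrank ℂ (LinearMap.ker ((Psi d p m).domRestrict (HH m))) = 0 := by omega
  have h6 := Submodule.finrank_eq_zero.mp h5
  intro G hG hG0
  have h7 : (⟨G, hG⟩ : HH m) ∈ LinearMap.ker ((Psi d p m).domRestrict (HH m)) := by
    rw [LinearMap.mem_ker]
    exact hG0
  rw [h6, Submodule.mem_bot] at h7
  exact congrArg Subtype.val h7

/-- Castelnuovo-Mumford: if the fat points impose independent conditions in degree `d`, then in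
degree `d + 1` the system has no base point outside the points. -/
theorem free_of_inj {d : ℕ} {p : ι → V3} {y : ι → ℕ} (hy : ∀ i, y i ≤ d + 1)
    (hN : ∀ G ∈ HH y, Psi d p y G = 0 → G = 0) {q : V3} (hq0 : q ≠ 0)
    (hq : ∀ i, y i ≠ 0 → cr (p i) q ≠ 0) : lin q ^ (d + 1) ∉ J (d + 1) p y := by
  intro hJ
  obtain ⟨G, hG, hGq⟩ := mem_J.mp hJ
  have key : ∀ i, G i = 0 := by
    intro i
    by_contra hne
    have hGi := hG i
    rcases Nat.eq_zero_or_pos (y i) with hz | hz
    · rw [hz, mem_Hm_zero] at hGi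
      exact hne hGi
    have hcr := hq i (by omega)
    have hpi : p i ≠ 0 := by
      intro h
      apply hcr
      rw [h]
      ext l
      fin_cases l <;> simp [cr]
    -- a direction killing `q` but not `p i`
    obtain ⟨w, hwq, hwp⟩ : ∃ w : V3, eval w (lin q) = 0 ∧ eval w (lin (p i)) ≠ 0 := by
      obtain ⟨k, hk⟩ := Function.ne_iff.mp hcr
      refine ⟨cr q (Pi.single k 1), ?_, ?_⟩
      · rw [eval_lin]
        simp only [cr, Fin.sum_univ_three, Matrix.cons_val]
        ring
      · rw [eval_lin]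
        intro h0
        apply hk
        fin_cases k
        · simp [cr, Fin.sum_univ_three] at h0 ⊢
          linear_combination h0
        · simp [cr, Fin.sum_univ_three] at h0 ⊢
          linear_combination h0
        · simp [cr, Fin.sum_univ_three] at h0 ⊢
          linear_combination h0
    obtain ⟨n, hn⟩ : ∃ n, y i = n + 1 := ⟨y i - 1, by omega⟩
    rw [hn, mem_Hm_succ] at hGi
    obtain ⟨s, e, G', hse, hGG', hG', hnd⟩ :=
      exists_lin_factorization (p := p i) n (G i) hGi hne
    set K : ι → R3 := fun j => C (((d + 2 - y j : ℕ) : ℂ) * eval w (lin (p j))) * G j +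
      lin (p j) * dir w (G j) with hK
    have hKH : K ∈ HH y := by
      rw [mem_HH]
      intro j
      have hGj := hG j
      rcases Nat.eq_zero_or_pos (y j) with hzj | hzj
      · rw [hzj, mem_Hm_zero] at hGj
        rw [hzj, mem_Hm_zero, hK]
        simp only
        rw [hGj, map_zero, mul_zero, mul_zero, add_zero]
      · obtain ⟨n', hn'⟩ : ∃ n', y j = n' + 1 := ⟨y j - 1, by omega⟩
        rw [hn', mem_Hm_succ] at hGj ⊢
        apply IsHomogeneous.add
        · exact hGj.C_mul _
        · rcases Nat.eq_zero_or_pos n' with hn0 | hn0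
          · subst hn0
            have h0 : G j = C (coeff 0 (G j)) :=
              (MvPolynomial.totalDegree_eq_zero_iff_eq_C).mp (Nat.le_zero.mp hGj.totalDegree_le)
            rw [h0, dir_C, mul_zero]
            exact isHomogeneous_zero _ _ _
          · have h1 := (lin_isHomogeneous (p j)).mul (dir_isHomogeneous w hGj)
            rwa [(by omega : 1 + (n' - 1) = n')] at h1
    have hKP : Psi d p y K = 0 := by
      have h1 : dir w (lin q ^ (d + 1)) = 0 := by
        rw [dir_pow, dir_lin, hwq, C_0, mul_zero, mul_zero]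
      rw [← hGq, map_sum] at h1
      rw [Psi_apply, ← h1]
      refine Finset.sum_congr rfl (fun j _ => ?_)
      rcases Nat.eq_zero_or_pos (y j) with hzj | hzj
      · have hGj := hG j
        rw [hzj, mem_Hm_zero] at hGj
        rw [hK]
        simp only
        rw [hGj, map_zero, mul_zero, mul_zero, mul_zero, add_zero, mul_zero, map_zero]
      · have hyj := hy j
        rw [dir_mul, dir_pow, dir_lin, hK]
        simp only
        rw [(by omega : d + 1 + 1 - y j = (d + 1 - y j) + 1), Nat.add_sub_cancel, pow_succ,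
          map_mul]
        ring
    have h1 := congrFun (hN K hKH hKP) i
    rw [hK] at h1
    simp only [Pi.zero_apply] at h1
    rw [hGG'] at h1
    -- divide by the power of the linear form
    have hyi := hy i
    have h2 : lin (p i) ^ s * (C (((d + 2 - y i + s : ℕ) : ℂ) * eval w (lin (p i))) * G' +
        lin (p i) * dir w G') = 0 := by
      rw [← h1, dir_mul, dir_pow, dir_lin]
      cases s with
      | zero => simp
      | succ s =>
        rw [Nat.add_sub_cancel, pow_succ]
        push_cast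
        simp only [map_mul, map_add]
        ring
    have h3 := (mul_eq_zero.mp h2).resolve_left (pow_ne_zero s (lin_prime hpi).ne_zero)
    apply hnd
    have hc : ((d + 2 - y i + s : ℕ) : ℂ) * eval w (lin (p i)) ≠ 0 :=
      mul_ne_zero (Nat.cast_ne_zero.mpr (by omega)) hwp
    have h4 : C (((d + 2 - y i + s : ℕ) : ℂ) * eval w (lin (p i))) * G' =
        lin (p i) * (- dir w G') := by linear_combination h3
    refine ⟨C (((d + 2 - y i + s : ℕ) : ℂ) * eval w (lin (p i)))⁻¹ * (- dir w G'), ?_⟩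
    calc G' = C (((d + 2 - y i + s : ℕ) : ℂ) * eval w (lin (p i)))⁻¹ *
          (C (((d + 2 - y i + s : ℕ) : ℂ) * eval w (lin (p i))) * G') := by
            rw [← mul_assoc, ← map_mul, inv_mul_cancel₀ hc, C_1, one_mul]
      _ = lin (p i) * (C (((d + 2 - y i + s : ℕ) : ℂ) * eval w (lin (p i)))⁻¹ *
          (- dir w G')) := by
            rw [h4]; ring
  have h1 : lin q ^ (d + 1) = 0 := by
    rw [← hGq]
    refine Finset.sum_eq_zero (fun i _ => ?_)
    rw [key i, mul_zero]
  exact hq0 (lin_eq_zero.mp (pow_eq_zero_iff (Nat.succ_ne_zero d) |>.mp h1))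

/-- completeness at a point, from regularity after raising the multiplicity -/
theorem full_of_inj {d : ℕ} {p : ι → V3} {m : ι → ℕ} {i : ι} (hi : m i ≤ d)
    (hN : ∀ G ∈ HH (Function.update m i (m i + 1)),
      Psi d p (Function.update m i (m i + 1)) G = 0 → G = 0) : Rigid.Full d p m i := by
  intro U hU hJ
  obtain ⟨G, hG, hGU⟩ := mem_J.mp hJ
  set K := Function.update G i (lin (p i) * G i - U) with hK
  have hKH : K ∈ HH (Function.update m i (m i + 1)) := by
    rw [mem_HH]
    intro j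
    by_cases hj : j = i
    · subst hj
      rw [hK, Function.update_self, Function.update_self]
      apply Submodule.sub_mem _ _ hU
      exact mul_mem_Hm_succ (lin_isHomogeneous (p j)) (hG j)
    · rw [hK, Function.update_of_ne hj, Function.update_of_ne hj]
      exact hG j
  have hKP : Psi d p (Function.update m i (m i + 1)) K = 0 := by
    rw [Psi_apply]
    have h1 : ∀ j, lin (p j) ^ (d + 1 - Function.update m i (m i + 1) j) * K j =
        lin (p j) ^ (d + 1 - m j) * G j - (if j = i then lin (p i) ^ (d - m i) * U else 0) := by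
      intro j
      by_cases hj : j = i
      · subst hj
        rw [hK, Function.update_self, Function.update_self, if_pos rfl,
          (by omega : d + 1 - (m j + 1) = d - m j), (by omega : d + 1 - m j = d - m j + 1),
          pow_succ]
        ring
      · rw [hK, Function.update_of_ne hj, Function.update_of_ne hj, if_neg hj, sub_zero]
    rw [Finset.sum_congr rfl (fun j _ => h1 j), Finset.sum_sub_distrib, Finset.sum_ite_eq' _ i,
      if_pos (Finset.mem_univ i), hGU, sub_self]
  have h2 := congrFun (hN K hKH hKP) i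
  rw [hK, Function.update_self, Pi.zero_apply, sub_eq_zero] at h2
  exact ⟨G i, h2.symm⟩

/-- no common factor, relative to a set of exempt points -/
theorem rel_no_common {d : ℕ} {p : ι → V3} {E : ι → Fin 3 → Derivation ℚ ℂ ℂ} {m : ι → ℕ}
    {π : R3} (hE : IsDual p E) (hm : ∀ l, m l ≤ d) {W : ι → Prop}
    (hfull : ∀ j, ¬ W j → 1 ≤ m j → Rigid.Full d p m j)
    (hfullW : ∀ j, W j → 1 ≤ m j → Rigid.Full d p (rs W m) j)
    (hfree : ∀ q : V3, q ≠ 0 → (∀ i, rs W m i ≠ 0 → cr (p i) q ≠ 0) →
      lin q ^ d ∉ J d p (rs W m))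
    (hne : linSys d p m ≠ ⊥)
    (hπ : Irreducible π) (hdiv : ∀ f ∈ linSys d p m, π ∣ f) : False := by
  classical
  -- drop the points outside the exempt set
  have key : ∀ T : Finset ι, (∀ j ∈ T, ¬ W j) →
      ∀ f ∈ linSys d p (fun l => if l ∈ T then 0 else m l), π ∣ f := by
    intro T
    induction T using Finset.induction_on with
    | empty =>
      intro _ f hf
      apply hdiv f
      simpa using hf
    | insert j T hj ih =>
      intro hT f hf
      have ih' := ih (fun l hl => hT l (Finset.mem_insert_of_mem hl))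
      set z : ι → ℕ := fun l => if l ∈ T then 0 else m l with hz
      have hzj : z j = m j := by rw [hz]; simp only; rw [if_neg hj]
      have hupd : (fun l => if l ∈ insert j T then 0 else m l) = Function.update z j 0 := by
        funext l
        by_cases hl : l = j
        · subst hl
          rw [Function.update_self, if_pos (Finset.mem_insert_self l T)]
        · rw [Function.update_of_ne hl, hz]
          simp only [Finset.mem_insert, hl, false_or]
      rw [hupd] at hf
      rcases Nat.eq_zero_or_pos (m j) with h0 | h0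
      · rw [← h0, ← hzj, Function.update_eq_self] at hf
        exact ih' f hf
      · have hzm : ∀ l, z l ≤ m l := by
          intro l
          rw [hz]
          simp only
          split_ifs
          · exact Nat.zero_le _
          · exact le_rfl
        exact dvd_drop hE (fun l => (hzm l).trans (hm l))
          (full_mono hm hzm hzj (hfull j (hT j (Finset.mem_insert_self j T)) h0)) hπ ih' f hf
  have hW : (fun l => if l ∈ Finset.univ.filter (fun l => ¬ W l) then 0 else m l) = rs W m := by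
    funext l
    by_cases hl : W l
    · rw [rs_of hl, if_neg]
      simpa using hl
    · rw [rs_not hl, if_pos]
      simpa using hl
  have hdivW := key (Finset.univ.filter (fun l => ¬ W l)) (fun j hj => by simpa using hj)
  rw [hW] at hdivW
  have hneW : linSys d p (rs W m) ≠ ⊥ := by
    intro h
    apply hne
    rw [Submodule.eq_bot_iff]
    intro f hf
    have : f ∈ linSys d p (rs W m) := linSys_mono (rs_le W m) hf
    rwa [h, Submodule.mem_bot] at this
  obtain ⟨e, he⟩ := isHomogeneous_common hneW hdivW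
  have he1 : 1 ≤ e := by
    by_contra hcon
    have he0 : e = 0 := by omega
    rw [he0] at he
    have h2 : π = C (coeff 0 π) :=
      (totalDegree_eq_zero_iff_eq_C).mp (Nat.le_zero.mp he.totalDegree_le)
    apply hπ.not_isUnit
    rw [h2]
    have h3 : coeff 0 π ≠ 0 := by
      intro h4
      rw [h4, C_0] at h2
      exact hπ.ne_zero h2
    exact (IsUnit.mk0 _ h3).map C
  have hp0 : (Pi.single 0 1 : V3) ≠ 0 := by
    intro h
    have := congrFun h 0
    simp at this
  obtain ⟨q, hcr, hq0⟩ := exists_zero hp0 he1 he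
  have hqne : q ≠ 0 := by
    rintro rfl
    exact hcr (cr_zero_right _)
  have hWd : ∀ l, rs W m l ≤ d := fun l => (rs_le W m l).trans (hm l)
  refine hfree q hqne ?_ ?_
  · intro i hi h0
    have hWi : W i := by
      by_contra h
      exact hi (rs_not h)
    have hmi : 1 ≤ m i := by
      rw [rs_of hWi] at hi
      omega
    obtain ⟨c, hc⟩ := exists_smul_of_cr_eq_zero (gp1 hE i) h0
    have hc0 : c ≠ 0 := by
      rintro rfl
      exact hqne (by rw [hc, zero_smul])
    have h1 := eval_ne_of_full hWd (gp1 hE i) (hfullW i hWi hmi) hπ hdivW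
    rw [hc, eval_smul_form he] at hq0
    exact h1 ((mul_eq_zero.mp hq0).resolve_left (pow_ne_zero _ hc0))
  · apply mem_J_of_B (fun l => (hWd l).trans (Nat.le_succ d)) (lin_isHomogeneous_pow q d)
    intro f hf
    obtain ⟨g, hg⟩ := hdivW f hf
    rw [B_lin_pow hf.1, hg, map_mul, hq0, zero_mul, mul_zero]

end free

section rel

variable {ι κ : Type} [Fintype ι] [Fintype κ] [DecidableEq ι] [DecidableEq κ]

variable {d : ℕ} {P : ι ⊕ κ → V3} {E : ι ⊕ κ → Fin 3 → Derivation ℚ ℂ ℂ} {m : ι → ℕ} {F : R3}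

namespace Rigid

/-- the rigid member is smooth away from the multiple points, relative version -/
theorem rel_no_singularity (S : Rigid d P E m F) (hsq : Squarefree F) {W : ι → Prop}
    (hfull : ∀ j, ¬ W j → 3 ≤ m j → Full d (fun i => P (Sum.inl i)) m j)
    (hN : ∀ G ∈ HH m, Psi d (fun i => P (Sum.inl i)) m G = 0 → G = 0)
    {q : V3} (hqne : q ≠ 0)
    (hfree0 : lin q ^ d ∉ J d (fun i => P (Sum.inl i)) (rs W m))
    (hfree : ∀ e, ¬ W e → 2 ≤ m e →
      lin q ^ d ∉ J d (fun i => P (Sum.inl i)) (Function.update (rs W m) e (m e - 1)))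
    (hq0 : eval q F = 0)
    (hsing : ∀ k, eval q (pderiv k F) = 0) : False := by
  set p : ι → V3 := fun i => P (Sum.inl i) with hp
  have hd : 1 ≤ d := by
    by_contra hc
    have hd0 : d = 0 := by omega
    have h1 := S.hom
    rw [hd0] at h1
    have h0 : F = C (coeff 0 F) :=
      (MvPolynomial.totalDegree_eq_zero_iff_eq_C).mp (Nat.le_zero.mp h1.totalDegree_le)
    rw [h0, eval_C] at hq0
    rw [hq0, C_0] at h0
    exact S.hF0 h0
  obtain ⟨d', rfl⟩ : ∃ d', d = d' + 1 := ⟨d - 1, by omega⟩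
  have hdne : ((d' + 1 : ℕ) : ℂ) ≠ 0 := by
    rw [Nat.cast_ne_zero]; omega
  -- the singularity in terms of the pairing
  have hBq : B (lin q ^ (d' + 1)) F = 0 := by
    rw [B_lin_pow S.hom, hq0, mul_zero]
  have hBw : ∀ w, B (lin q ^ d' * lin w) F = 0 := by
    intro w
    have h1 : (dir w F).IsHomogeneous d' := by
      simpa using dir_isHomogeneous w S.hom
    rw [mul_comm, B_lin_mul, B_lin_pow h1, dir_apply, map_sum]
    have h2 : ∑ k, eval q (C (w k) * pderiv k F) = 0 := by
      refine Finset.sum_eq_zero (fun k _ => ?_)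
      rw [map_mul, hsing k, mul_zero]
    rw [h2, mul_zero]
  -- step 1
  have hJ : lin q ^ (d' + 1) ∈ J (d' + 1) p m := by
    apply S.memJ (lin_isHomogeneous_pow q (d' + 1)) hBq
    intro k v
    have h1 := D_B (mv E (Sum.inr k) v) (lin q ^ (d' + 1)) F
    rw [hBq, map_zero, cDq, B_C_mul_left, hBw, mul_zero, zero_add] at h1
    exact h1.symm
  obtain ⟨G, hG', hGq⟩ := mem_J.mp hJ
  have hG : G ∈ HH m := mem_HH.mpr hG'
  rw [← Psi_apply] at hGq
  -- step 2
  have hT : ∃ w, cr q w ≠ 0 ∧ lin q ^ d' * lin w ∈ J (d' + 1) p m := by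
    by_contra hcon
    push Not at hcon
    have hT' : ∀ w, lin q ^ d' * lin w ∈ J (d' + 1) p m → cr q w = 0 := by
      intro w hw
      by_contra h
      exact hcon w h hw
    have hprop : ∀ k v, ∃ c : ℂ, (fun l => mv E (Sum.inr k) v (q l)) = c • q := by
      intro k v
      apply exists_smul_of_cr_eq_zero hqne
      apply hT'
      apply mem_of_C_mul_mem hdne
      rw [← cDq, ← hGq, cD_Psi_fixed S.hE]
      exact Psi_mem_J (HH_cD _ hG)
    obtain ⟨w, hw⟩ := exists_cr_ne hqne
    apply hw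
    apply hT'
    apply S.memJ _ (hBw w)
    · intro k v
      obtain ⟨c, hc⟩ := hprop k v
      have h1 := D_B (mv E (Sum.inr k) v) (lin q ^ d' * lin w) F
      rw [hBw, map_zero, cD_mul, cD_lin_pow_prop hc, cD_lin, map_add, LinearMap.add_apply,
        mul_assoc, B_C_mul_left, hBw, hBw, mul_zero, zero_add, zero_add] at h1
      exact h1.symm
    · exact (lin_isHomogeneous_pow q d').mul (lin_isHomogeneous w)
  obtain ⟨w₀, hw₀, hw₀J⟩ := hT
  -- step 3: divisibility of the components
  have hdivG : ∀ j, ¬ W j → lin (p j) ∣ G j := by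
    intro j hj
    have hκ : ((d' + 1 + 1 - m j : ℕ) : ℂ) ≠ 0 := by
      rw [Nat.cast_ne_zero]
      have := S.hm j
      omega
    have h1 : ∀ v, C ((d' + 1 + 1 - m j : ℕ) : ℂ) * (lin (p j) ^ (d' + 1 - m j) * (lin v * G j)) =
        C ((d' + 1 : ℕ) : ℂ) * (lin q ^ d' * lin (fun l => mv E (Sum.inl j) v (q l))) -
          Psi (d' + 1) p m (fun i => cD (mv E (Sum.inl j) v) (G i)) := by
      intro v
      have h2 := cD_Psi S.hE S.hm (G := G) j v
      rw [hGq, cDq] at h2
      rw [h2]
      ring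
    apply S.div hsq (hfull j hj) (hG' j)
    · intro v
      have h2 := congrArg (fun z => B z F) (h1 v)
      simp only [map_sub, LinearMap.sub_apply, B_C_mul_left] at h2
      rw [hBw, mul_zero, S.B_J (Psi_mem_J (HH_cD _ hG)), sub_zero] at h2
      exact (mul_eq_zero.mp h2).resolve_left hκ
    · obtain ⟨v, hv0, hv⟩ := exists_ker_ne (gp1 S.hE (Sum.inl j))
        (evQ (QL E (Sum.inl j) q) (cr q w₀))
      refine ⟨v, hv, ?_⟩
      apply mem_of_C_mul_mem hκ
      rw [h1 v]
      apply Submodule.sub_mem _ _ (Psi_mem_J (HH_cD _ hG))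
      apply C_mul_mem
      obtain ⟨s, t, hst⟩ := exists_comb hw₀ (show eval (QL E (Sum.inl j) q v) (xl q w₀) = 0 from hv0)
      rw [show (fun l => mv E (Sum.inl j) v (q l)) = s • q + t • w₀ from hst, lin_add, lin_smul,
        lin_smul, mul_add]
      apply Submodule.add_mem
      · have : lin q ^ d' * (C s * lin q) = C s * lin q ^ (d' + 1) := by
          rw [pow_succ]; ring
        rw [this]
        exact C_mul_mem _ hJ
      · have : lin q ^ d' * (C t * lin w₀) = C t * (lin q ^ d' * lin w₀) := by ring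
        rw [this]
        exact C_mul_mem _ hw₀J
  -- step 4: at most one nonzero component outside
  have huniq : ∀ j j', ¬ W j → ¬ W j' → j ≠ j' → G j ≠ 0 → G j' ≠ 0 → False := by
    intro j j' hj hj' hjj hGj hGj'
    obtain ⟨s, n, G₁, e1, e2, e3, e4⟩ := S.exists_fact hG' (hdivG j hj) hGj
    obtain ⟨s', n', G₂, e1', e2', e3', e4'⟩ := S.exists_fact hG' (hdivG j' hj') hGj'
    exact S.two_nonzero hN hqne hG hGq hjj e1 e2 e3 e4 e1' e2' e3' e4'
  -- step 5
  by_cases hZ : ∃ e, ¬ W e ∧ G e ≠ 0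
  · obtain ⟨e, he, hGe⟩ := hZ
    obtain ⟨s, n, G₁, e1, e2, e3, e4⟩ := S.exists_fact hG' (hdivG e he) hGe
    have h2 : 2 ≤ m e := by omega
    apply hfree e he h2
    rw [← hGq, Psi_apply]
    apply Submodule.sum_mem
    intro l _
    by_cases hl : l = e
    · subst hl
      have h7 : lin (p l) ^ (d' + 1 + 1 - m l) * G l =
          lin (p l) ^ (d' + 1 + 1 - Function.update (rs W m) l (m l - 1) l) *
            (lin (p l) ^ s * G₁) := by
        rw [Function.update_self, e1,
          (by have := S.hm l; omega : d' + 1 + 1 - (m l - 1) = d' + 1 + 1 - m l + 1), pow_succ,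
          pow_succ]
        ring
      rw [h7]
      apply summand_mem_J
      rw [Function.update_self, (by omega : m l - 1 = (s + n) + 1), mem_Hm_succ]
      exact (lin_isHomogeneous_pow (p l) s).mul e2
    · by_cases hWl : W l
      · have h7 : m l = Function.update (rs W m) e (m e - 1) l := by
          rw [Function.update_of_ne hl, rs_of hWl]
        rw [h7]
        apply summand_mem_J
        rw [← h7]
        exact hG' l
      · have h8 : G l = 0 := by
          by_contra h
          exact huniq l e hWl he hl h hGe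
        rw [h8, mul_zero]
        exact zero_mem _
  · push Not at hZ
    apply hfree0
    rw [← hGq]
    exact Psi_mem_J_rs hG hZ

/-- no bad direction at the exempt points, relative version -/
theorem rel_no_bad_special (S : Rigid d P E m F) (hsq : Squarefree F) {W : ι → Prop}
    (hfull : ∀ j, ¬ W j → 3 ≤ m j → Full d (fun i => P (Sum.inl i)) m j)
    (hN : ∀ G ∈ HH m, Psi d (fun i => P (Sum.inl i)) m G = 0 → G = 0)
    {a : ι} (ha : W a) (hz : 0 < m a) (hfulla : Full d (fun i => P (Sum.inl i)) (rs W m) a)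
    {u : V3} (hu : cr (P (Sum.inl a)) u ≠ 0) (h : BadDir d F (P (Sum.inl a)) (m a) u) :
    False := by
  set p : ι → V3 := fun i => P (Sum.inl i) with hp
  have hJ : lin (p a) ^ (d - m a) * lin u ^ m a ∈ J d p m := S.bad_mem_J h
  obtain ⟨G, hG', hGq⟩ := mem_J.mp hJ
  have hG : G ∈ HH m := mem_HH.mpr hG'
  rw [← Psi_apply] at hGq
  have hma : lin u ^ (m a - 1) ∈ Hm (m a) := by
    obtain ⟨n, hn⟩ : ∃ n, m a = n + 1 := ⟨m a - 1, by omega⟩
    rw [hn, mem_Hm_succ, Nat.add_sub_cancel]
    exact lin_isHomogeneous_pow u n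
  have hmane : (m a : ℂ) ≠ 0 := by
    rw [Nat.cast_ne_zero]; omega
  -- the derivative along the motion of another point
  have hcD : ∀ j, j ≠ a → ∀ v, cD (mv E (Sum.inl j) v) (Psi d p m G) =
      C (m a : ℂ) * (lin (p a) ^ (d - m a) * (lin u ^ (m a - 1) *
        lin (fun l => mv E (Sum.inl j) v (u l)))) := by
    intro j hj v
    rw [hGq, cD_mul, cD_lin_pow_ne S.hE (by simpa using hj.symm), zero_mul, zero_add,
      cD_lin_pow_eq]
    ring
  -- expression when the derivative of `u` lies in the plane of `p a` and `u`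
  have hexp : ∀ (s t : ℂ), C (m a : ℂ) * (lin (p a) ^ (d - m a) * (lin u ^ (m a - 1) *
        lin (s • p a + t • u))) =
      lin (p a) ^ (d + 1 - m a) * (C ((m a : ℂ) * s) * lin u ^ (m a - 1)) +
        C ((m a : ℂ) * t) * (lin (p a) ^ (d - m a) * lin u ^ m a) := by
    intro s t
    have e1 : lin (p a) ^ (d + 1 - m a) = lin (p a) ^ (d - m a) * lin (p a) := by
      rw [← pow_succ]
      congr 1
      have := S.hm a
      omega
    have e2 : lin u ^ m a = lin u ^ (m a - 1) * lin u := by
      rw [← pow_succ]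
      congr 1
      omega
    rw [e1, e2, lin_add, lin_smul, lin_smul, map_mul, map_mul]
    ring
  -- good directions for `j`
  have hgood : ∀ j, ∃ (v : V3) (s t : ℂ), cr (p j) v ≠ 0 ∧
      (fun l => mv E (Sum.inl j) v (u l)) = s • p a + t • u := by
    intro j
    obtain ⟨v, hv0, hv⟩ := exists_ker_ne (gp1 S.hE (Sum.inl j))
        (evQ (QL E (Sum.inl j) u) (cr (p a) u))
    obtain ⟨s, t, hst⟩ := exists_comb hu
      (show eval (QL E (Sum.inl j) u v) (xl (p a) u) = 0 from hv0)
    exact ⟨v, s, t, hv, hst⟩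
  have hja' : ∀ j, ¬ W j → j ≠ a := by
    rintro j hj rfl
    exact hj ha
  have hdivG : ∀ j, ¬ W j → lin (p j) ∣ G j := by
    intro j hj
    have hja := hja' j hj
    have hκ : ((d + 1 - m j : ℕ) : ℂ) ≠ 0 := by
      rw [Nat.cast_ne_zero]
      have := S.hm j
      omega
    have h1 : ∀ v, C ((d + 1 - m j : ℕ) : ℂ) * (lin (p j) ^ (d - m j) * (lin v * G j)) =
        C (m a : ℂ) * (lin (p a) ^ (d - m a) * (lin u ^ (m a - 1) *
        lin (fun l => mv E (Sum.inl j) v (u l)))) -
          Psi d p m (fun i => cD (mv E (Sum.inl j) v) (G i)) := by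
      intro v
      have h2 := cD_Psi S.hE S.hm (G := G) j v
      rw [← hcD j hja v]
      have h2' : cD (mv E (Sum.inl j) v) (Psi d p m G) =
        C ((d + 1 - m j : ℕ) : ℂ) * (lin (p j) ^ (d - m j) * (lin v * G j)) +
        Psi d p m (fun i => cD (mv E (Sum.inl j) v) (G i)) := h2
      rw [h2']
      ring
    apply S.div hsq (hfull j hj) (hG' j)
    · intro v
      have h2 := congrArg (fun z => B z F) (h1 v)
      simp only [map_sub, LinearMap.sub_apply, B_C_mul_left] at h2
      rw [h.2 hz, mul_zero, S.B_J (Psi_mem_J (HH_cD _ hG)), sub_zero] at h2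
      exact (mul_eq_zero.mp h2).resolve_left hκ
    · obtain ⟨v, s, t, hv, hst⟩ := hgood j
      refine ⟨v, hv, ?_⟩
      apply mem_of_C_mul_mem hκ
      rw [h1 v, hst, hexp]
      apply Submodule.sub_mem _ _ (Psi_mem_J (HH_cD _ hG))
      apply Submodule.add_mem
      · apply summand_mem_J
        exact C_mul_mem _ hma
      · exact C_mul_mem _ hJ
  have hzero : ∀ j, ¬ W j → G j = 0 := by
    intro j hj
    have hja := hja' j hj
    by_contra hne
    obtain ⟨s', e, G', hjG, hhom, hmj, hnd⟩ := S.exists_fact hG' (hdivG j hj) hne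
    obtain ⟨v, s, t, hv, hst⟩ := hgood j
    refine S.contra hN hG hjG hhom hmj hnd hv
      (X := Pi.single a (C ((m a : ℂ) * s) * lin u ^ (m a - 1)) + ((m a : ℂ) * t) • G)
      ?_ ?_ ?_
    · apply Submodule.add_mem _ _ (Submodule.smul_mem _ _ hG)
      rw [mem_HH]
      intro i
      by_cases hia : i = a
      · subst hia
        rw [Pi.single_eq_same]
        exact C_mul_mem _ hma
      · rw [Pi.single_eq_of_ne hia]
        exact zero_mem _
    · change Psi d p m _ = cD _ (Psi d p m G)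
      rw [hcD j hja v, hst, hexp, map_add, map_smul, hGq, smul_eq_C_mul]
      congr 1
      rw [Psi_apply, Finset.sum_eq_single a]
      · rw [Pi.single_eq_same]
      · intro i _ hia
        rw [Pi.single_eq_of_ne hia, mul_zero]
      · intro h'
        exact absurd (Finset.mem_univ a) h'
    · rw [Pi.add_apply, Pi.single_eq_of_ne hja, zero_add, Pi.smul_apply, smul_eq_C_mul, hjG]
      exact Dvd.dvd.mul_left (Dvd.intro _ rfl) _
  have hJW : lin (p a) ^ (d - m a) * lin u ^ m a ∈ J d p (rs W m) := by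
    rw [← hGq]
    exact Psi_mem_J_rs hG hzero
  have h1 : lin (p a) ∣ lin u ^ m a := by
    apply hfulla
    · rw [rs_of ha]
      exact lin_isHomogeneous_pow u (m a)
    · rw [rs_of ha]
      exact hJW
  exact hu (lin_dvd_lin ((lin_prime (gp1 S.hE _)).dvd_of_dvd_pow h1))

/-- no bad direction at all, relative version -/
theorem rel_no_bad (S : Rigid d P E m F) (hsq : Squarefree F) {W : ι → Prop}
    (hfull : ∀ j, ¬ W j → 3 ≤ m j → Full d (fun i => P (Sum.inl i)) m j)
    (hfullW : ∀ j, W j → 3 ≤ m j → Full d (fun i => P (Sum.inl i)) (rs W m) j)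
    (hN : ∀ G ∈ HH m, Psi d (fun i => P (Sum.inl i)) m G = 0 → G = 0)
    {i : ι} {u : V3} (hu : cr (P (Sum.inl i)) u ≠ 0) (h : BadDir d F (P (Sum.inl i)) (m i) u) :
    False := by
  by_cases hW : W i
  · by_cases h3 : 3 ≤ m i
    · exact S.rel_no_bad_special hsq hfull hN hW (by omega) (hfullW i hW h3) hu h
    · exact S.no_bad_full hsq (fun h' => absurd h' h3) hu h
  · exact S.no_bad_full hsq (hfull i hW) hu h

end Rigid

end rel

section final

variable {r n d : ℕ} {p : Fin r → V3} {s : Fin n → V3} {t : Fin 4 → V3} {m : Fin r → ℕ}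

/-- injectivity passes from the given points to the multiple and dummy points -/
theorem inj_core {d' : ℕ} {z : Fin r → ℕ} {y : IT m → ℕ}
    (hy : ∀ i : {i : Fin r // m i ≠ 1}, y (Sum.inl i) = z i.1) (hy0 : ∀ x, y (Sum.inr x) = 0)
    (hN : ∀ G ∈ HH z, Psi d' p z G = 0 → G = 0) :
    ∀ G ∈ HH y, Psi d' (fun i => PP p s t m (Sum.inl i)) y G = 0 → G = 0 := by
  intro G hG hG0
  have hdummy : ∀ x, G (Sum.inr x) = 0 := by
    intro x
    have h1 := mem_HH.mp hG (Sum.inr x)
    rwa [hy0, mem_Hm_zero] at h1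
  set K : Fin r → R3 := fun i => if h : m i ≠ 1 then G (Sum.inl ⟨i, h⟩) else 0 with hK
  have hKH : K ∈ HH z := by
    rw [mem_HH]
    intro i
    by_cases h : m i ≠ 1
    · have h1 := mem_HH.mp hG (Sum.inl ⟨i, h⟩)
      rw [hy] at h1
      rw [hK]
      simp only
      rw [dif_pos h]
      exact h1
    · rw [hK]
      simp only
      rw [dif_neg h]
      exact zero_mem _
  have hKP : Psi d' p z K = 0 := by
    rw [← hG0, Psi_apply, Psi_apply, Fintype.sum_sum_type]
    have h1 : ∑ x : Fin 4, lin (PP p s t m (Sum.inl (Sum.inr x))) ^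
        (d' + 1 - y (Sum.inr x)) * G (Sum.inr x) = 0 := by
      refine Finset.sum_eq_zero (fun x _ => ?_)
      rw [hdummy x, mul_zero]
    rw [h1, add_zero]
    have h2 := Fintype.sum_subtype_add_sum_subtype (fun i => m i ≠ 1)
      (fun i => lin (p i) ^ (d' + 1 - z i) * K i)
    rw [← h2]
    have h3 : ∑ i : {i : Fin r // ¬ m i ≠ 1}, lin (p i.1) ^ (d' + 1 - z i.1) * K i.1 = 0 := by
      refine Finset.sum_eq_zero (fun i _ => ?_)
      rw [hK]
      simp only
      rw [dif_neg i.2, mul_zero]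
    rw [h3, add_zero]
    refine Finset.sum_congr rfl (fun i _ => ?_)
    rw [hK, hy]
    simp only
    rw [dif_pos i.2]
    rfl
  have h1 := hN K hKH hKP
  funext x
  rcases x with i | x
  · have h2 := congrFun h1 i.1
    rw [hK] at h2
    simp only at h2
    rw [dif_pos i.2] at h2
    exact h2
  · exact hdummy x

theorem rel_smooth_of {E : IT m ⊕ KT m n → Fin 3 → Derivation ℚ ℂ ℂ}
    {F : R3} (S : Rigid d (PP p s t m) E (mm m) F) (hFp : F ∈ linSys d p m)
    (hns : ∀ q : V3, q ≠ 0 → (∀ i : IT m, cr (PP p s t m (Sum.inl i)) q ≠ 0) → eval q F = 0 →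
      (∀ k, eval q (pderiv k F) = 0) → False)
    (hnb : ∀ (i : IT m) (u : V3), cr (PP p s t m (Sum.inl i)) u ≠ 0 →
      BadDir d F (PP p s t m (Sum.inl i)) (mm m i) u → False) :
    SmoothOnBlowup p m F := by
  refine ⟨?_, ?_⟩
  · intro q hq hqp hq0
    by_contra hcon
    push Not at hcon
    apply hns q hq _ hq0 hcon
    rintro (⟨i, hi⟩ | x)
    · exact cr_ne_zero_of (gp1 S.hE _) (hqp i)
    · intro h0
      obtain ⟨c, hc⟩ := exists_smul_of_cr_eq_zero (gp1 S.hE _) h0
      have hc0 : c ≠ 0 := by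
        rintro rfl
        exact hq (by rw [hc, zero_smul])
      apply S.R0 (Sum.inr x) rfl
      have h1 := B_lin_pow S.hom q
      rw [hq0, mul_zero, hc, lin_smul, mul_pow, ← map_pow, B_C_mul_left] at h1
      exact (mul_eq_zero.mp h1).resolve_left (pow_ne_zero _ hc0)
  · intro i u w hlin
    have hpu : LinearIndependent ℂ ![p i, u] := by
      have h1 := hlin.comp ![0, 1] (by decide)
      convert h1 using 1
      ext j
      fin_cases j <;> rfl
    have hpi : p i ≠ 0 := hlin.ne_zero 0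
    have hu : cr (p i) u ≠ 0 := by
      intro h0
      obtain ⟨c, hc⟩ := exists_smul_of_cr_eq_zero hpi h0
      have h1 := (LinearIndependent.pair_iff.mp hpu) c (-1) (by rw [hc]; simp)
      simp at h1
    have hdet : eval w (xl (p i) u) ≠ 0 := by
      intro h0
      obtain ⟨x, y, hxy⟩ := exists_comb hu h0
      have h1 := Fintype.linearIndependent_iff.mp hlin ![x, y, -1] (by
        rw [Fin.sum_univ_three]
        simp only [Matrix.cons_val]
        rw [hxy]
        module)
      have h2 := h1 2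
      simp at h2
    have hmi : m i ≤ d := by
      have := S.hF0
      exact le_of_vanishTo S.hom S.hF0 (hFp.2 i)
    apply chart S.hom hmi (hFp.2 i) hdet
    intro hbad
    by_cases hi : m i = 1
    · -- simple point
      apply not_vanishTo_succ S.hE S.hM S.hF S.hF0 S.huniq (Sum.inr (Sum.inl ⟨i, hi⟩))
      change VanishTo F (p i) (1 + 1)
      rw [vanishTo_iff S.hom _ (by omega)]
      intro G hG
      rw [mem_Hm_succ] at hG
      obtain ⟨v, rfl⟩ := eq_lin_of_isHomogeneous hG
      have h1 := hbad.2 (by omega) v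
      rw [hi, Nat.sub_self, pow_zero, one_mul] at h1
      rwa [(by omega : d + 1 - (1 + 1) = d - 1)]
    · exact hnb (Sum.inl ⟨i, hi⟩) u hu hbad

end final

/-- **Smoothness relative to an arbitrary set of exempt points.** -/
theorem rel_final {r d : ℕ} (p : Fin r → Fin 3 → ℂ) (hp : GenericPoints p) (m : Fin r → ℕ)
    (I : Finset (Fin r)) (hd : 1 ≤ d)
    (hreg : finrank ℂ (linSys d p m) + ∑ i, (m i + 1).choose 2 = (d + 2).choose 2)
    (hne : linSys d p m ≠ ⊥)
    (hB0 : finrank ℂ (linSys (d - 1) p (fun i => if i ∈ I then m i else 0)) +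
      ∑ i ∈ I, (m i + 1).choose 2 = (d + 1).choose 2)
    (hBe : ∀ e, e ∉ I → 2 ≤ m e →
      finrank ℂ (linSys (d - 1) p (fun i => if i ∈ I then m i else if i = e then m i - 1 else 0)) +
        (∑ i ∈ I, (m i + 1).choose 2 + (m e).choose 2) = (d + 1).choose 2)
    (hBi : ∀ i ∈ I, 2 ≤ m i →
      finrank ℂ (linSys d p (fun j => if j ∈ I then (if j = i then m i + 1 else m j) else 0)) +
        (∑ j ∈ I, (m j + 1).choose 2 + (m i + 1)) = (d + 2).choose 2)
    (hcomplete : ∀ i ∉ I, 3 ≤ m i →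
      finrank ℂ (linSys d p (dropSimple m)) =
        finrank ℂ (linSys d p (Function.update (dropSimple m) i (m i + 1))) + (m i + 1))
    (h : (∃ F ∈ linSys d p m, Squarefree F) ∨
      ∀ i ∉ I, m i = 2 → finrank ℂ (linSys d p (dropSimple m)) =
          finrank ℂ (linSys d p (Function.update (dropSimple m) i (m i + 1))) + (m i + 1)) :
    (∃ F ∈ linSys d p m, Squarefree F) ∧
    (∀ s : Fin (finrank ℂ (linSys d p m) - 1) → Fin 3 → ℂ, GenericPoints (Sum.elim p s) →
      ∀ F ∈ linSys d p m, F ≠ 0 → (∀ k, eval (s k) F = 0) → SmoothOnBlowup p m F) ∧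
    (∃ F ∈ linSys d p m, F ≠ 0 ∧ SmoothOnBlowup p m F) := by
  obtain ⟨d', rfl⟩ : ∃ d', d = d' + 1 := ⟨d - 1, by omega⟩
  rw [Nat.add_sub_cancel] at hB0
  have hBe' : ∀ e, e ∉ I → 2 ≤ m e →
      finrank ℂ (linSys d' p (fun i => if i ∈ I then m i else if i = e then m i - 1 else 0)) +
        (∑ i ∈ I, (m i + 1).choose 2 + (m e).choose 2) = (d' + 2).choose 2 := hBe
  have hfin : Module.Finite ℂ (linSys (d' + 1) p m) :=
    Submodule.finiteDimensional_of_le (linSys_le (d' + 1) p _)
  obtain ⟨f₁, hf₁, hf₁0⟩ := Submodule.exists_mem_ne_zero_of_ne_bot hne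
  have hm : ∀ i, m i ≤ d' + 1 := fun i => le_of_vanishTo hf₁.1 hf₁0 (hf₁.2 i)
  -- the exempt set
  set W : IT m → Prop := Sum.elim (fun i => i.1 ∈ I) (fun _ => False) with hW
  have hWl : ∀ i : {i : Fin r // m i ≠ 1}, W (Sum.inl i) ↔ i.1 ∈ I := fun i => Iff.rfl
  have hmmd : ∀ x, mm m x ≤ d' + 1 := by
    rintro (⟨i, hi⟩ | x)
    · exact hm i
    · exact Nat.zero_le _
  have hsum : ∀ z : Fin r → ℕ, (∀ i ∉ I, z i = 0) →
      ∑ i, (z i + 1).choose 2 = ∑ i ∈ I, (z i + 1).choose 2 := by
    intro z hz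
    symm
    apply Finset.sum_subset (Finset.subset_univ I)
    intro i _ hi
    rw [hz i hi]
    rfl
  -- injectivity statements for the given points
  have iN : ∀ G ∈ HH m, Psi (d' + 1) p m G = 0 → G = 0 :=
    inj_of_finrank (fun i => (hm i).trans (Nat.le_succ _)) hreg
  set z0 : Fin r → ℕ := fun i => if i ∈ I then m i else 0 with hz0
  have iB0 : ∀ G ∈ HH z0, Psi d' p z0 G = 0 → G = 0 := by
    apply inj_of_finrank
    · intro i
      rw [hz0]
      simp only
      split_ifs
      · exact hm i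
      · exact Nat.zero_le _
    · rw [← hB0, hsum z0 (fun i hi => if_neg hi)]
      congr 1
      refine Finset.sum_congr rfl (fun i hi => ?_)
      rw [hz0]
      simp only
      rw [if_pos hi]
  have iBe : ∀ e, e ∉ I → 2 ≤ m e →
      ∀ G ∈ HH (fun i => if i ∈ I then m i else if i = e then m i - 1 else 0),
        Psi d' p (fun i => if i ∈ I then m i else if i = e then m i - 1 else 0) G = 0 →
          G = 0 := by
    intro e he h2
    apply inj_of_finrank
    · intro i
      have := hm i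
      split_ifs <;> omega
    · rw [← hBe' e he h2]
      congr 1
      rw [← Finset.sum_add_sum_compl I]
      congr 1
      · refine Finset.sum_congr rfl (fun i hi => ?_)
        rw [if_pos hi]
      · rw [Finset.sum_eq_single e]
        · rw [if_neg he, if_pos rfl, Nat.sub_add_cancel (by omega)]
        · intro i hi hie
          rw [if_neg (Finset.mem_compl.mp hi), if_neg hie]
          rfl
        · intro h'
          exact absurd (Finset.mem_compl.mpr he) h'
  have iBi : ∀ i ∈ I, 2 ≤ m i →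
      ∀ G ∈ HH (fun j => if j ∈ I then (if j = i then m i + 1 else m j) else 0),
        Psi (d' + 1) p (fun j => if j ∈ I then (if j = i then m i + 1 else m j) else 0) G = 0 →
          G = 0 := by
    intro i hi h2
    apply inj_of_finrank
    · intro j
      have := hm j
      have := hm i
      split_ifs <;> omega
    · rw [← hBi i hi h2, hsum _ (fun j hj => if_neg hj)]
      congr 1
      rw [← Finset.add_sum_erase I _ hi, ← Finset.add_sum_erase I (fun j => (m j + 1).choose 2) hi]
      rw [if_pos hi, if_pos rfl]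
      have h5 : ∑ j ∈ I.erase i, ((if j ∈ I then (if j = i then m i + 1 else m j) else 0) + 1).choose 2
          = ∑ j ∈ I.erase i, (m j + 1).choose 2 := by
        refine Finset.sum_congr rfl (fun j hj => ?_)
        rw [Finset.mem_erase] at hj
        rw [if_pos hj.2, if_neg hj.1]
      rw [h5]
      have h6 : (m i + 1 + 1).choose 2 = (m i + 1).choose 2 + (m i + 1) := by
        rw [Nat.choose_succ_succ' (m i + 1) 1, Nat.choose_one_right]
        ring
      omega
  -- the consequences on the configuration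
  have main : ∀ (n : ℕ) (s : Fin n → V3) (t : Fin 4 → V3)
      (E : IT m ⊕ KT m n → Fin 3 → Derivation ℚ ℂ ℂ), IsDual (PP p s t m) E →
      (∀ G ∈ HH (mm m), Psi (d' + 1) (fun i => PP p s t m (Sum.inl i)) (mm m) G = 0 → G = 0) ∧
      (∀ q : V3, q ≠ 0 →
        (∀ i : IT m, rs W (mm m) i ≠ 0 → cr (PP p s t m (Sum.inl i)) q ≠ 0) →
        lin q ^ (d' + 1) ∉ J (d' + 1) (fun i => PP p s t m (Sum.inl i)) (rs W (mm m))) ∧
      (∀ q : V3, q ≠ 0 →
        (∀ i : IT m, cr (PP p s t m (Sum.inl i)) q ≠ 0) → ∀ e, ¬ W e → 2 ≤ mm m e →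
        lin q ^ (d' + 1) ∉ J (d' + 1) (fun i => PP p s t m (Sum.inl i))
          (Function.update (rs W (mm m)) e (mm m e - 1))) ∧
      (∀ j, W j → 1 ≤ mm m j →
        Rigid.Full (d' + 1) (fun i => PP p s t m (Sum.inl i)) (rs W (mm m)) j) := by
    intro n s t E hE
    have hWz : ∀ i : {i : Fin r // m i ≠ 1}, rs W (mm m) (Sum.inl i) = z0 i.1 := by
      intro i
      rw [hz0]
      simp only
      by_cases hi : i.1 ∈ I
      · rw [if_pos hi, rs_of ((hWl i).mpr hi)]
        rfl
      · rw [if_neg hi, rs_not (fun h' => hi ((hWl i).mp h'))]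
    have hW0 : ∀ x, rs W (mm m) (Sum.inr x) = 0 := fun x =>
      Nat.le_zero.mp (rs_le W (mm m) (Sum.inr x))
    have hrsd : ∀ x, rs W (mm m) x ≤ d' + 1 := fun x => (rs_le W _ x).trans (hmmd x)
    refine ⟨?_, ?_, ?_, ?_⟩
    · exact inj_core (fun i => rfl) (fun x => rfl) iN
    · intro q hq0 hq
      exact free_of_inj hrsd (inj_core hWz hW0 iB0) hq0 hq
    · intro q hq0 hq e he h2
      rcases e with ⟨e, hem⟩ | x
      · have heI : e ∉ I := fun h' => he ((hWl ⟨e, hem⟩).mpr h')
        have h2' : 2 ≤ m e := h2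
        apply free_of_inj _ (inj_core (z := fun i => if i ∈ I then m i else
          if i = e then m i - 1 else 0) _ _ (iBe e heI h2')) hq0 (fun i _ => hq i)
        · intro x
          by_cases hx : x = Sum.inl ⟨e, hem⟩
          · rw [hx, Function.update_self]
            exact (Nat.sub_le _ _).trans (hm e)
          · rw [Function.update_of_ne hx]
            exact hrsd x
        · intro i
          by_cases hx : i.1 = e
          · have hx' : i = ⟨e, hem⟩ := Subtype.ext hx
            rw [hx', Function.update_self]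
            change m e - 1 = _
            rw [if_neg heI, if_pos rfl]
          · rw [Function.update_of_ne (by
              intro h'
              exact hx (congrArg Subtype.val (Sum.inl.inj h'))), hWz i, hz0]
            simp only
            rw [if_neg hx]
        · intro x
          rw [Function.update_of_ne (by simp)]
          exact hW0 x
      · change 2 ≤ 0 at h2
        omega
    · intro j hj h1
      rcases j with ⟨i, him⟩ | x
      · have hiI : i ∈ I := (hWl ⟨i, him⟩).mp hj
        have h1' : 1 ≤ m i := h1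
        have h2 : 2 ≤ m i := by omega
        apply full_of_inj (hrsd _)
        apply inj_core (z := fun j => if j ∈ I then (if j = i then m i + 1 else m j) else 0) _ _
          (iBi i hiI h2)
        · intro j
          by_cases hx : j.1 = i
          · have hx' : j = ⟨i, him⟩ := Subtype.ext hx
            have hz1 : z0 i = m i := if_pos hiI
            rw [hx', Function.update_self, hWz, if_pos hiI, if_pos rfl, hz1]
          · rw [Function.update_of_ne (by
              intro h'
              exact hx (congrArg Subtype.val (Sum.inl.inj h'))), hWz j, hz0]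
            simp only
            rw [if_neg hx]
        · intro x
          rw [Function.update_of_ne (by simp)]
          exact hW0 x
      · exact absurd hj (by simp [hW])
  -- completeness outside the exempt set
  have hfull_of' : ∀ (n : ℕ) (s : Fin n → V3) (t : Fin 4 → V3)
      (E : IT m ⊕ KT m n → Fin 3 → Derivation ℚ ℂ ℂ), IsDual (PP p s t m) E →
      ∀ i : {i : Fin r // m i ≠ 1}, finrank ℂ (linSys (d' + 1) p (dropSimple m)) =
        finrank ℂ (linSys (d' + 1) p (Function.update (dropSimple m) i.1 (m i.1 + 1))) +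
          (m i.1 + 1) →
      Rigid.Full (d' + 1) (fun i => PP p s t m (Sum.inl i)) (mm m) (Sum.inl i) := by
    intro n s t E hE i hi
    apply full_of_finrank hmmd (gp1 hE (Sum.inl (Sum.inl i)))
    rw [linSys_core, linSys_core_update]
    exact hi
  have hfull3 : ∀ (n : ℕ) (s : Fin n → V3) (t : Fin 4 → V3)
      (E : IT m ⊕ KT m n → Fin 3 → Derivation ℚ ℂ ℂ), IsDual (PP p s t m) E →
      ∀ j, ¬ W j → 3 ≤ mm m j →
        Rigid.Full (d' + 1) (fun i => PP p s t m (Sum.inl i)) (mm m) j := by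
    intro n s t E hE j hj h3
    rcases j with i | x
    · exact hfull_of' n s t E hE i (hcomplete i.1 (fun h' => hj ((hWl i).mpr h')) h3)
    · change 3 ≤ 0 at h3
      omega
  -- reducedness
  have hred : ∃ F ∈ linSys (d' + 1) p m, Squarefree F := by
    rcases h with h | h
    · exact h
    obtain ⟨n, s, t, E, F, hn, hF, S⟩ := exists_rigid_member p hp m hm hne
    obtain ⟨-, m1, -, m3⟩ := main n s t E S.hE
    refine ⟨F, hF, S.squarefree_of_no_common ?_⟩
    intro π hπ hdiv
    have hE' : IsDual (fun i => PP p s t m (Sum.inl i)) (fun i => E (Sum.inl i)) := by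
      intro x k y l
      rw [S.hE (Sum.inl x) k (Sum.inl y) l]
      simp only [Sum.inl.injEq]
    refine rel_no_common hE' hmmd ?_ m3 m1 ?_ hπ hdiv
    · intro j hj h1
      rcases j with ⟨i, hi⟩ | x
      · have h1' : 1 ≤ m i := h1
        have hiI : i ∉ I := fun h' => hj ((hWl ⟨i, hi⟩).mpr h')
        by_cases h3 : 3 ≤ m i
        · exact hfull3 n s t E S.hE _ hj h3
        · exact hfull_of' n s t E S.hE ⟨i, hi⟩ (h i hiI (by omega))
      · change 1 ≤ 0 at h1
        omega
    · rw [linSys_core]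
      intro h0
      apply hne
      rw [Submodule.eq_bot_iff]
      intro f hf
      have : f ∈ linSys (d' + 1) p (dropSimple m) := by
        refine ⟨hf.1, fun i => ?_⟩
        apply (hf.2 i).mono
        unfold dropSimple
        split_ifs <;> omega
      rwa [h0, Submodule.mem_bot] at this
  obtain ⟨f₀, hf₀, hsq₀⟩ := hred
  have hpos : 0 < finrank ℂ (linSys (d' + 1) p m) := by
    rw [Module.finrank_pos_iff_exists_ne_zero]
    exact ⟨⟨f₀, hf₀⟩, fun h => hsq₀.ne_zero (congrArg Subtype.val h)⟩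
  set n := finrank ℂ (linSys (d' + 1) p m) - 1 with hn
  have hn' : n + 1 = finrank ℂ (linSys (d' + 1) p m) := by omega
  have key : ∀ s : Fin n → V3, GenericPoints (Sum.elim p s) →
      ∃ (t : Fin 4 → V3) (E : IT m ⊕ KT m n → Fin 3 → Derivation ℚ ℂ ℂ),
        IsDual (PP p s t m) E := by
    intro s hs
    obtain ⟨t, ht⟩ := exists_extension (κ := Fin 4) (Sum.elim p s) hs
    obtain ⟨E, hE⟩ := exists_dual _ (PP_generic p s t m ht)
    exact ⟨t, E, hE⟩
  have hf₀core : f₀ ∈ linSys (d' + 1) p (dropSimple m) := by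
    refine ⟨hf₀.1, fun i => ?_⟩
    apply (hf₀.2 i).mono
    unfold dropSimple
    split_ifs <;> omega
  have hsmooth : ∀ s : Fin n → V3, GenericPoints (Sum.elim p s) →
      ∀ F ∈ linSys (d' + 1) p m, F ≠ 0 → (∀ k, eval (s k) F = 0) → SmoothOnBlowup p m F := by
    intro s hs F hF hF0 hFs
    obtain ⟨t, E, hE⟩ := key s hs
    have S := rigid_of hE hm hn' hF hF0 hFs
    have hsq := S.squarefree (by rw [linSys_core]; exact hf₀core) hsq₀
    obtain ⟨m0, m1, m2, m3⟩ := main n s t E hE
    refine rel_smooth_of S hF ?_ ?_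
    · intro q hq0 hq hqF hqs
      exact S.rel_no_singularity hsq (hfull3 n s t E hE) m0 hq0
        (m1 q hq0 (fun i _ => hq i)) (m2 q hq0 hq) hqF hqs
    · intro i u hu hbad
      exact S.rel_no_bad hsq (hfull3 n s t E hE) (fun j hj h3 => m3 j hj (by omega)) m0 hu hbad
  obtain ⟨s, hs⟩ := exists_extension (κ := Fin n) p hp
  obtain ⟨t, E, hE⟩ := key s hs
  obtain ⟨F, hF, hF0, hFs⟩ := exists_rigid hE hm hn'
  exact ⟨⟨f₀, hf₀, hsq₀⟩, hsmooth, F, hF, hF0, hsmooth s hs F hF hF0 hFs⟩

end Pool.Agent.Work.MP_0421d9_ag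
end

section
/-!
Generation by global sections, from independence in degree `d - 1`.
-/

set_option linter.unusedSectionVars false

namespace Pool.Agent.Work.MP_0421d9_ag.ZE

open MvPolynomial Module SM ZC

/-- a form which vanishes at `d + 1` points of a line is divisible by its equation -/
theorem line_dvd {a b : V3} (hab : cr a b ≠ 0) {f : R3} {d : ℕ} (hf : f.IsHomogeneous d)
    (h : ∀ k : ℕ, k ≤ d → eval (a + (k : ℂ) • b) f = 0) : xl a b ∣ f := by
  -- the restriction to the line
  obtain ⟨P, hP⟩ : ∃ P : Polynomial ℂ,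
      P = aeval (fun i => Polynomial.C (a i) + Polynomial.C (b i) * Polynomial.X) f := ⟨_, rfl⟩
  have hPe : ∀ t : ℂ, P.eval t = eval (a + t • b) f := by
    intro t
    rw [hP]
    have h1 : ∀ g : R3, (aeval (fun i => Polynomial.C (a i) + Polynomial.C (b i) *
        (Polynomial.X : Polynomial ℂ)) g).eval t = eval (a + t • b) g := by
      intro g
      induction g using MvPolynomial.induction_on with
      | C c => simp
      | add p q hp hq => rw [map_add, Polynomial.eval_add, hp, hq, map_add]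
      | mul_X p n hp =>
        rw [map_mul, aeval_X, Polynomial.eval_mul, hp, map_mul, eval_X, Polynomial.eval_add,
          Polynomial.eval_C, Polynomial.eval_mul, Polynomial.eval_C, Polynomial.eval_X,
          Pi.add_apply, Pi.smul_apply, smul_eq_mul, mul_comm t]
    exact h1 f
  have hdeg : P.natDegree ≤ d := by
    rw [hP]
    have h1 := aeval_natDegree_le f (hf.totalDegree_le)
      (fun i => Polynomial.C (a i) + Polynomial.C (b i) * (Polynomial.X : Polynomial ℂ)) (n := 1)
      (fun i => by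
        refine (Polynomial.natDegree_add_le _ _).trans (max_le ?_ ?_)
        · rw [Polynomial.natDegree_C]
          exact Nat.zero_le _
        · exact (Polynomial.natDegree_C_mul_le _ _).trans (Polynomial.natDegree_X_le))
    rwa [mul_one] at h1
  have hP0 : P = 0 := by
    by_contra hne
    have h1 : (Finset.image (fun k : ℕ => (k : ℂ)) (Finset.range (d + 1))) ⊆ P.roots.toFinset := by
      intro x hx
      rw [Finset.mem_image] at hx
      obtain ⟨k, hk, rfl⟩ := hx
      rw [Finset.mem_range] at hk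
      rw [Multiset.mem_toFinset, Polynomial.mem_roots hne, Polynomial.IsRoot.def, hPe]
      exact h k (by omega)
    have h2 := Finset.card_le_card h1
    rw [Finset.card_image_of_injective _ Nat.cast_injective, Finset.card_range] at h2
    have h3 := (Multiset.toFinset_card_le P.roots).trans (Polynomial.card_roots' P)
    omega
  have hline : ∀ t : ℂ, eval (a + t • b) f = 0 := fun t => by
    rw [← hPe, hP0, Polynomial.eval_zero]
  have hsc : ∀ (s : ℂ) (u : V3), eval (s • u) f = s ^ d * eval u f := by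
    intro s u
    exact SM.eval_smul_of_homogeneous hf s u
  apply lin_dvd_of_eval hab
  intro u hu
  obtain ⟨s, t, rfl⟩ := exists_comb hab hu
  by_cases hs : s = 0
  · -- the point `b`
    have hb : eval b f = 0 := by
      obtain ⟨Q, hQ⟩ : ∃ Q : Polynomial ℂ,
        Q = aeval (fun i => Polynomial.C (b i) + Polynomial.C (a i) * Polynomial.X) f := ⟨_, rfl⟩
      have hQe : ∀ t : ℂ, Q.eval t = eval (b + t • a) f := by
        intro t
        rw [hQ]
        have h1 : ∀ g : R3, (aeval (fun i => Polynomial.C (b i) + Polynomial.C (a i) *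
            (Polynomial.X : Polynomial ℂ)) g).eval t = eval (b + t • a) g := by
          intro g
          induction g using MvPolynomial.induction_on with
          | C c => simp
          | add p q hp hq => rw [map_add, Polynomial.eval_add, hp, hq, map_add]
          | mul_X p n hp =>
            rw [map_mul, aeval_X, Polynomial.eval_mul, hp, map_mul, eval_X, Polynomial.eval_add,
              Polynomial.eval_C, Polynomial.eval_mul, Polynomial.eval_C, Polynomial.eval_X,
              Pi.add_apply, Pi.smul_apply, smul_eq_mul, mul_comm t]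
        exact h1 f
      have hQ0 : Q = 0 := by
        apply Polynomial.eq_zero_of_infinite_isRoot
        refine Set.Infinite.mono (s := {t : ℂ | t ≠ 0}) (fun t ht => ?_)
          (Set.Finite.infinite_compl (Set.finite_singleton (0 : ℂ)))
        change Q.eval t = 0
        rw [hQe]
        have h2 : b + t • a = t • (a + t⁻¹ • b) := by
          rw [smul_add, smul_smul, mul_inv_cancel₀ ht, one_smul, add_comm]
        rw [h2, hsc, hline, mul_zero]
      have h3 := hQe 0
      rw [hQ0, Polynomial.eval_zero, zero_smul, add_zero] at h3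
      exact h3.symm
    rw [hs, zero_smul, zero_add, hsc, hb, mul_zero]
  · have h2 : s • a + t • b = s • (a + (t / s) • b) := by
      rw [smul_add, smul_smul, mul_div_cancel₀ _ hs]
    rw [h2, hsc, hline, mul_zero]

theorem exists_cr_ne {q : V3} (hq : q ≠ 0) : ∃ e : V3, cr q e ≠ 0 := by
  by_contra hcon
  push Not at hcon
  apply hq
  have h0 := hcon ![1, 0, 0]
  have h1 := hcon ![0, 1, 0]
  have a1 := congrFun h0 1
  have a2 := congrFun h0 2
  have a3 := congrFun h1 2
  simp [cr] at a1 a2 a3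
  funext i
  fin_cases i
  · exact a3
  · exact a2
  · exact a1

/-- a line through `q` which avoids finitely many points -/
theorem exists_line_avoid {κ : Type} [Fintype κ] {p : κ → V3} {q : V3} (hq : q ≠ 0)
    (h : ∀ j, cr (p j) q ≠ 0) : ∃ b : V3, cr q b ≠ 0 ∧ ∀ j, eval (p j) (xl q b) ≠ 0 := by
  obtain ⟨e, he⟩ := exists_cr_ne hq
  have hG : (∏ j, lin (cr (p j) q)) * lin (cr q e) ≠ 0 := by
    refine mul_ne_zero (Finset.prod_ne_zero_iff.mpr fun j _ => ?_) ?_
    · exact fun h1 => h j (lin_eq_zero.mp h1)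
    · exact fun h1 => he (lin_eq_zero.mp h1)
  obtain ⟨b, hb⟩ : ∃ b : V3, eval b ((∏ j, lin (cr (p j) q)) * lin (cr q e)) ≠ 0 := by
    by_contra hcon
    push Not at hcon
    exact hG (MvPolynomial.funext fun x => by rw [hcon x, map_zero])
  rw [map_mul, map_prod] at hb
  have hb1 := left_ne_zero_of_mul hb
  have hb2 := right_ne_zero_of_mul hb
  rw [Finset.prod_ne_zero_iff] at hb1
  refine ⟨b, fun h1 => hb2 ?_, fun j h1 => hb1 j (Finset.mem_univ j) ?_⟩
  · -- `b` is a multiple of `q`
    have a0 := congrFun h1 0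
    have a1 := congrFun h1 1
    have a2 := congrFun h1 2
    change q 1 * b 2 - q 2 * b 1 = 0 at a0
    change q 2 * b 0 - q 0 * b 2 = 0 at a1
    change q 0 * b 1 - q 1 * b 0 = 0 at a2
    rw [eval_lin, Fin.sum_univ_three]
    change (q 1 * e 2 - q 2 * e 1) * b 0 + (q 2 * e 0 - q 0 * e 2) * b 1 +
      (q 0 * e 1 - q 1 * e 0) * b 2 = 0
    linear_combination -(e 0) * a0 - (e 1) * a1 - (e 2) * a2
  · rw [eval_xl] at h1
    rw [eval_lin, Fin.sum_univ_three]
    change (p j 1 * q 2 - p j 2 * q 1) * b 0 + (p j 2 * q 0 - p j 0 * q 2) * b 1 +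
      (p j 0 * q 1 - p j 1 * q 0) * b 2 = 0
    linear_combination h1

/-- no base points outside of `p`, if the conditions are independent in degree `d - 1` -/
theorem bp_of_Nsp {κ : Type} [Fintype κ] {d : ℕ} {y : κ → ℕ}
    (h1 : Nsp d y) (h2 : Nsp (d + 1) y)
    (hχ : ∑ j, (y j + 1).choose 2 ≤ (d + 2).choose 2) {p : κ → V3} (hp : GenericPoints p) {q : V3}
    (hq : q ≠ 0) (hpq : ∀ j, cr (p j) q ≠ 0) : ∃ H ∈ linSys (d + 1) p y, eval q H ≠ 0 := by
  by_contra hcon
  push Not at hcon
  obtain ⟨b, hb, hpb⟩ := exists_line_avoid hq hpq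
  have hfin : Module.Finite ℂ (linSys (d + 1) p y) :=
    Submodule.finiteDimensional_of_le (linSys_le (d + 1) p _)
  have hfin' : Module.Finite ℂ (linSys d p y) :=
    Submodule.finiteDimensional_of_le (linSys_le d p _)
  let φ : linSys (d + 1) p y →ₗ[ℂ] (Fin (d + 1) → ℂ) :=
    { toFun := fun F k => eval (q + ((k.1 + 1 : ℕ) : ℂ) • b) (F : R3)
      map_add' := fun F G => by
        funext k
        simp
      map_smul' := fun c F => by
        funext k
        simp [smul_eval] }
  have hker : finrank ℂ (LinearMap.ker φ) ≤ finrank ℂ (linSys d p y) := by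
    let ψ : linSys d p y →ₗ[ℂ] linSys (d + 1) p y :=
      { toFun := fun G => ⟨xl q b * G.1, by
          have h4 := (lin_isHomogeneous (cr q b)).mul G.2.1
          rw [add_comm] at h4
          refine ⟨h4, fun j => ?_⟩
          have h5 := vanishTo_mul (vanishTo_zero (xl q b) (p j)) (G.2.2 j)
          rwa [zero_add] at h5⟩
        map_add' := fun F G => Subtype.ext (by
          change xl q b * (F.1 + G.1) = xl q b * F.1 + xl q b * G.1
          ring)
        map_smul' := fun c F => Subtype.ext (by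
          change xl q b * (c • F.1) = c • (xl q b * F.1)
          rw [mul_smul_comm]) }
    have hle : LinearMap.ker φ ≤ LinearMap.range ψ := by
      rintro ⟨F, hF⟩ hker
      rw [LinearMap.mem_ker] at hker
      by_cases hF0 : F = 0
      · exact ⟨0, by rw [map_zero]; exact Subtype.ext hF0.symm⟩
      have hdvd : xl q b ∣ F := by
        refine line_dvd hb hF.1 (fun k hk => ?_)
        rcases Nat.eq_zero_or_pos k with h0 | h0
        · rw [h0, Nat.cast_zero, zero_smul, add_zero]
          exact hcon F hF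
        · have h5 := congrFun hker ⟨k - 1, by omega⟩
          change eval (q + ((k - 1 + 1 : ℕ) : ℂ) • b) F = 0 at h5
          rwa [Nat.sub_add_cancel h0] at h5
      obtain ⟨e, g, he, hg, hFg⟩ := exists_factor hF.1 hF0 hdvd
      have hed : e = d := by omega
      subst hed
      refine ⟨⟨g, hg, fun j => ?_⟩, Subtype.ext hFg.symm⟩
      have h6 := hF.2 j
      rw [hFg] at h6
      exact vanishTo_of_mul_ne h6 (hpb j)
    calc finrank ℂ (LinearMap.ker φ) ≤ finrank ℂ (LinearMap.range ψ) := Submodule.finrank_mono hle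
      _ ≤ finrank ℂ (linSys d p y) := LinearMap.finrank_range_le ψ
  have hrk := LinearMap.finrank_range_add_finrank_ker φ
  have hr : finrank ℂ (LinearMap.range φ) ≤ d + 1 := by
    refine (Submodule.finrank_le _).trans ?_
    rw [Module.finrank_fin_fun]
  rw [h2 p hp] at hrk
  rw [h1 p hp] at hker
  have h3 : (d + 1 + 2).choose 2 = (d + 2).choose 2 + (d + 2) := by
    rw [show d + 1 + 2 = d + 2 + 1 by ring, Nat.choose_succ_succ' (d + 2) 1, Nat.choose_one_right,
      add_comm]
  omega

/-- **Generation by global sections**: no base points, and all leading forms occur, if the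
conditions are independent in degree `d - 1` -/
theorem free_of_Nsp {κ : Type} [Fintype κ] [DecidableEq κ] {d : ℕ} {y : κ → ℕ}
    (h1 : Nsp d y) (h2 : Nsp (d + 1) y)
    (h3 : ∀ j, Nsp (d + 1) (Function.update y j (y j + 1)))
    (hχ : ∑ j, (y j + 1).choose 2 ≤ (d + 2).choose 2) : Free (d + 1) y where
  bp := fun p hp q hq hpq => bp_of_Nsp h1 h2 hχ hp hq hpq
  lf := fun p hp j β hβ => by
    have hyj : y j ≤ d + 1 := by
      by_contra hcon
      have h4 : (y j + 1).choose 2 ≤ ∑ j, (y j + 1).choose 2 :=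
        Finset.single_le_sum (f := fun j => (y j + 1).choose 2) (fun _ _ => Nat.zero_le _)
          (Finset.mem_univ j)
      have h5 : (d + 1 + 2).choose 2 ≤ (y j + 1).choose 2 := Nat.choose_le_choose 2 (by omega)
      have h6 : (d + 1 + 2).choose 2 = (d + 2).choose 2 + (d + 2) := by
        rw [show d + 1 + 2 = d + 2 + 1 by ring, Nat.choose_succ_succ' (d + 2) 1,
          Nat.choose_one_right, add_comm]
      omega
    refine exists_of_Nsp h2 (h3 j) hyj ?_ hp hβ
    have h6 : (d + 1 + 2).choose 2 = (d + 2).choose 2 + (d + 2) := by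
      rw [show d + 1 + 2 = d + 2 + 1 by ring, Nat.choose_succ_succ' (d + 2) 1,
        Nat.choose_one_right, add_comm]
    omega

end Pool.Agent.Work.MP_0421d9_ag.ZE
end

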