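import Pool.Agent.Work.Z0421M.C40
import Pool.Agent.Work.Z0421M.C42
import Pool.Agent.Work.Z0421M.C47
import Pool.Agent.Work.Z0421M.C48

section
/-!
Collisions of generic points, relative version: one cluster, the others are flags.
-/

set_option linter.unusedSectionVars false
set_option linter.unusedVariables false

namespace Pool.Agent.Work.MP_0421d9_ag.ZE

open MvPolynomial Module SM ZC

variable {ι Λ : Type} [Fintype ι] [Fintype Λ] [DecidableEq ι] [DecidableEq Λ] {d M : ℕ}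
  {m : ι → ℕ} {U : Finset ι} {μ w s Mv : Λ → ℕ} {v : ∀ l, Fin (s l) → ℕ}

/-- the independent family without the cluster -/
theorem ind_left {κ κ' κ'' : Type} {p : κ → V3} {ζ : κ' → V3} {c : κ'' → ℂ}
    (hX : Ind (Sum.elim p ζ) c) : Ind p c := by
  have h1 := AlgebraicIndependent.comp hX
    (Sum.map (fun z : κ × Fin 3 => ((Sum.inl z.1 : κ ⊕ κ'), z.2)) id) (by
      apply Function.Injective.sumMap _ Function.injective_id
      intro z z' h
      rw [Prod.mk.injEq, Sum.inl.injEq] at h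
      exact Prod.ext h.1 h.2)
  have h2 : (Sum.elim (fun z : (κ ⊕ κ') × Fin 3 => Sum.elim p ζ z.1 z.2) c) ∘
      (Sum.map (fun z : κ × Fin 3 => ((Sum.inl z.1 : κ ⊕ κ'), z.2)) id) =
      Sum.elim (fun z : κ × Fin 3 => p z.1 z.2) c := by
    funext z
    rcases z with z | z <;> rfl
  rw [h2] at h1
  exact h1

theorem gen_right {κ κ' κ'' : Type} {p : κ → V3} {ζ : κ' → V3} {c : κ'' → ℂ}
    (hX : Ind (Sum.elim p ζ) c) : GenericPoints ζ :=
  AlgebraicIndependent.comp hX (fun z : κ' × Fin 3 => Sum.inl (Sum.inr z.1, z.2)) (by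
    intro z z' h
    rw [Sum.inl.injEq, Prod.mk.injEq, Sum.inr.injEq] at h
    exact Prod.ext h.1 h.2)

/-- the system of the cluster in the degree below the critical one is empty -/
theorem Dat.hlow (S : Dat d M m U μ w s Mv v) (l₀ : Λ) {ζ : Fin (s l₀) → V3}
    (hζ : GenericPoints ζ) : linSys (μ l₀ - 1) ζ (v l₀) = ⊥ := by
  have hfin : Module.Finite ℂ (linSys (μ l₀ - 1) ζ (v l₀)) :=
    Submodule.finiteDimensional_of_le (linSys_le _ _ _)
  have h1 := (S.hNv' l₀).finrank hζ (m := v l₀) (fun j => by have := S.hv l₀ j; omega)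
  have h2 := S.hvμ l₀
  have h3 := S.hMv l₀
  rw [S.crit l₀, (by omega : μ l₀ - 1 + 2 = μ l₀ + 1)] at h1
  exact Submodule.finrank_eq_zero.mp (by omega)

/-- the members which satisfy the conditions of the points in `U` and of the points of
collision -/
noncomputable def AU (d : ℕ) (p : ι → V3) (m : ι → ℕ) (U : Finset ι) (P : Λ → V3) (μ : Λ → ℕ) :
    Submodule ℂ R3 :=
  linSys d (Sum.elim (fun b : {b // b ∈ U} => p b.1) P) (Sum.elim (fun b => m b.1) μ)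

/-- the pairs with second component computed from the member on the side of the cluster -/
noncomputable def HB {n : ℕ} (A : Submodule ℂ R3) (d μ₀ : ℕ) (P₀ : V3) (W : Submodule ℂ R3)
    (Θ : R3 →ₗ[ℂ] MvPolynomial (Fin n) ℂ) : Submodule ℂ (R3 × MvPolynomial (Fin n) ℂ) where
  carrier := {H | H.1 ∈ A ∧ ∃ G ∈ W, res G = ld d μ₀ P₀ H.1 ∧ H.2 = Θ G}
  zero_mem' := ⟨zero_mem _, 0, zero_mem _, by
    rw [map_zero, Prod.fst_zero, map_zero], by rw [map_zero, Prod.snd_zero]⟩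
  add_mem' := by
    rintro x y ⟨hx, G, hG, h1, h2⟩ ⟨hy, G', hG', h1', h2'⟩
    exact ⟨add_mem hx hy, G + G', add_mem hG hG', by
      rw [map_add, Prod.fst_add, map_add, h1, h1'], by
      rw [map_add, Prod.snd_add, h2, h2']⟩
  smul_mem' := by
    rintro r x ⟨hx, G, hG, h1, h2⟩
    exact ⟨Submodule.smul_mem _ _ hx, r • G, Submodule.smul_mem _ _ hG, by
      rw [map_smul, Prod.smul_fst, map_smul, h1], by
      rw [map_smul, Prod.smul_snd, h2]⟩

/-- **The chain theorem on the side of a cluster.** -/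
theorem Dat.hgraph (S : Dat d M m U μ w s Mv v) {p : ι → V3} {P : Λ → V3} {c : Λ → ℂ} {l₀ : Λ}
    {ζ : Fin (s l₀) → V3} (hX : Ind (Sum.elim (Sum.elim p P) ζ) c) {n N : ℕ} (hn : n ≤ 3)
    {Θ : R3 →ₗ[ℂ] MvPolynomial (Fin n) ℂ}
    (hΘN : ∀ G ∈ linSys (μ l₀) ζ (v l₀), (Θ G).IsHomogeneous N)
    (hΘD : ∀ Δ : Derivation ℚ ℂ ℂ, (∀ j k, Δ (ζ j k) = 0) → ∀ G ∈ linSys (μ l₀) ζ (v l₀),
      Θ (cD Δ G) = cD Δ (Θ G)) {q : Fin n → ℂ} (hq : q ≠ 0)
    (hbp : ∃ G ∈ linSys (μ l₀) ζ (v l₀), eval q (Θ G) ≠ 0) {F G : R3}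
    (hF : F ∈ FS d p m P μ c (Function.update w l₀ 0)) (hF0 : F ≠ 0)
    (hG : G ∈ linSys (μ l₀) ζ (v l₀)) (hres : res G = ld d (μ l₀) (P l₀) F)
    (h0 : eval q (Θ G) = 0) (h1 : ∀ k, eval q (pderiv k (Θ G)) = 0) : False := by
  classical
  obtain ⟨E, D, hE, hEζ, hDζ⟩ := exists_ders hX
  have hX' : Ind (Sum.elim p P) c := ind_left hX
  have hg : GenericPoints (Sum.elim p P) := Ind.gen hX'
  have hζ : GenericPoints ζ := gen_right hX
  have hζ2 : ∀ j, ζ j 2 ≠ 0 := fun j => hζ.ne_zero (j, 2)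
  have hlow := S.hlow l₀ hζ
  have hP2' : ∀ l, P l 2 ≠ 0 := fun l => by
    have h2 := hg.ne_zero (Sum.inr l, 2)
    exact h2
  have hP2 : P l₀ 2 ≠ 0 := hP2' l₀
  have hμd := S.hμd l₀
  have hinj : ∀ G' ∈ linSys (μ l₀) ζ (v l₀), res G' = 0 → G' = 0 := fun G' hG' h =>
    eq_zero_of_res hζ2 hlow hG' h
  have hAμ : ∀ H ∈ AU d p m U P μ, H ∈ linSys d P μ := fun H hH =>
    ⟨hH.1, fun l => hH.2 (Sum.inr l)⟩
  have hAU : ∀ H ∈ AU d p m U P μ, ∀ a ∈ U, VanishTo H (p a) (m a) := fun H hH a ha =>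
    hH.2 (Sum.inl ⟨a, ha⟩)
  have hAmem : ∀ H ∈ linSys d P μ, (∀ a ∈ U, VanishTo H (p a) (m a)) → H ∈ AU d p m U P μ := by
    intro H hH h2
    refine ⟨hH.1, ?_⟩
    rintro (a | l)
    · exact h2 a.1 a.2
    · exact hH.2 l
  have hst : ∀ Δ : Derivation ℚ ℂ ℂ, (∀ a ∈ U, ∀ k, Δ (p a k) = 0) →
      (∀ l k, Δ (P l k) = 0) → (∀ j k, Δ (ζ j k) = 0) →
      ∀ H ∈ HB (AU d p m U P μ) d (μ l₀) (P l₀) (linSys (μ l₀) ζ (v l₀)) Θ,
        ps Δ H ∈ HB (AU d p m U P μ) d (μ l₀) (P l₀) (linSys (μ l₀) ζ (v l₀)) Θ := by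
    rintro Δ hΔU hΔ hΔζ H ⟨hH, G', hG', h2, h3⟩
    refine ⟨linSys_cD (fun x k => ?_) hH, cD Δ G', linSys_cD hΔζ hG', ?_, ?_⟩
    · rcases x with a | l
      · exact hΔU a.1 a.2 k
      · exact hΔ l k
    · change res (cD Δ G') = ld d (μ l₀) (P l₀) (cD Δ H.1)
      rw [← cD_res, h2, cD_ld Δ (hΔ l₀)]
    · change cD Δ H.2 = Θ (cD Δ G')
      rw [h3, hΘD Δ hΔζ G' hG']
  have hfree : ∀ H ∈ AU d p m U P μ, VanishTo H (P l₀) (μ l₀ + 1) →
      (H, (0 : MvPolynomial (Fin n) ℂ)) ∈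
        HB (AU d p m U P μ) d (μ l₀) (P l₀) (linSys (μ l₀) ζ (v l₀)) Θ := by
    intro H hH hv
    refine ⟨hH, 0, zero_mem _, ?_, ?_⟩
    · rw [map_zero]
      exact ((vanishTo_iff_ld hH.1 hP2 (by omega)).mp hv (μ l₀) (Nat.lt_succ_self _)).symm
    · rw [map_zero]
  obtain ⟨l₁, hl₁⟩ := S.two l₀
  have hflags : ∀ {H : R3}, H ∈ linSys d P μ → (∀ i, VanishTo H (p i) (m i)) →
      (∀ l ∉ ({l₀} : Finset Λ), ∀ j < w l, fd d (μ l) (P l) (c l) j H = 0) →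
      H ∈ FS d p m P μ c (Function.update w l₀ 0) := by
    intro H hH hv hf
    refine ⟨⟨hH.1, ?_⟩, fun l i hi => ?_⟩
    · rintro (i | l)
      · exact hv i
      · exact hH.2 l
    · by_cases hl : l = l₀
      · rw [hl, Function.update_self] at hi
        exact absurd hi (Nat.not_lt_zero i)
      · rw [Function.update_of_ne hl] at hi
        exact hf l (by simpa using hl) i hi
  have hFA : F ∈ AU d p m U P μ :=
    hAmem F ⟨hF.1.1, fun l => hF.1.2 (Sum.inr l)⟩ (fun a _ => hF.1.2 (Sum.inl a))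
  have hexact := S.hyb_exact hX hF hF0 ⟨G, hG, hres⟩
  refine S.core (BB := HB (AU d p m U P μ) d (μ l₀) (P l₀) (linSys (μ l₀) ζ (v l₀)) Θ) (N := N)
    (F := (F, Θ G)) hg hE U (Finset.Subset.refl U) {l₀} (by simp) hn ?_ ?_ ?_ ?_ hq ?_ ?_ ?_
    ⟨hFA, G, hG, hres, rfl⟩ (fun i _ => hF.1.2 (Sum.inl i)) ?_ ?_ ?_ ?_ h0 h1
  · intro H hH
    exact hAμ _ hH.1
  · rintro H ⟨hH, G', hG', h2, h3⟩
    rw [h3]
    exact hΘN G' hG'
  · intro i hi k
    exact hst (E i k) (fun a ha k' => hE.Ej (show i ≠ a from fun h => hi (by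
      rw [h]
      exact ha)) k k') (hE.EP i k) (hEζ i k)
  · intro l _
    exact hst (D l) (fun a _ k' => hE.Dp l a k') (hE.DP l) (hDζ l)
  · intro H hH hY hV
    exact ⟨0, hfree H (hAmem H hH hV) (hY l₀ (by simp))⟩
  · intro l hl j hj
    have hne : l₀ ≠ l := fun h => hl (by rw [h]; exact Finset.mem_singleton_self l)
    obtain ⟨H, h2, h3, h4, h5, -⟩ := S.sep (c := c) (V := U) (l := l) hg (Finset.Subset.refl U)
      (by simp) hj 0 (Or.inl (fun H _ => rfl))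
    have h6 : ∀ l', VanishTo H (P l') (if l' = l then μ l' else μ l' + 2) := fun l' =>
      h2.2 (Sum.inr l')
    have h7 : H ∈ AU d p m U P μ := by
      refine hAmem H ⟨h2.1, fun l' => (h6 l').mono (by split_ifs <;> omega)⟩ (fun a ha => ?_)
      have h8 : VanishTo H (p a) (if a ∈ U then m a else 0) := h2.2 (Sum.inl a)
      rwa [if_pos ha] at h8
    have h8 := h6 l₀
    rw [if_neg hne] at h8
    exact ⟨(H, 0), hfree H h7 (h8.mono (Nat.le_succ _)), h3, h4, fun l' _ hne' => h5 l' hne',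
      map_zero _⟩
  · intro T hT _
    obtain ⟨G', hG', hGq⟩ := hbp
    obtain ⟨H, hH, h4⟩ := (S.free_drop (V := U) (T := T) (Finset.Subset.refl U)
      (by rw [Finset.sdiff_self, Finset.card_empty]; omega)
      (ν := μ) (fun l' => ⟨le_rfl, Nat.le_add_right _ _⟩)).lf _ hg (Sum.inr l₀) (res G')
      (res_hom hG'.1)
    have h4' : ld d (μ l₀) (P l₀) H = res G' := h4
    obtain ⟨h2, h3⟩ := dropY_mem hH
    exact ⟨(H, Θ G'), ⟨hAmem H ⟨hH.1, h3⟩ (fun a ha => h2 a (Finset.mem_union_left _ ha)),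
      G', hG', h4'.symm, rfl⟩, fun i hi => h2 i (Finset.mem_union_right _ hi), hGq⟩
  · intro l hl j hj
    have hl' : l ≠ l₀ := by simpa using hl
    exact hF.2 l j (by rw [Function.update_of_ne hl']; exact hj)
  · intro l hl
    have hl' : l ≠ l₀ := by simpa using hl
    exact hexact.1 l hl'
  · rintro H ⟨hH, G', hG', h2, h3⟩ hv hf
    have hvi : ∀ i, VanishTo H.1 (p i) (m i) := fun i => by
      by_cases hi : i ∈ U
      · exact hAU _ hH i hi
      · exact hv i hi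
    have hHF := hflags (hAμ _ hH) hvi hf
    obtain ⟨a, ha⟩ : ∃ a : ℂ, a = fd d (μ l₁) (P l₁) (c l₁) (w l₁) H.1 /
      fd d (μ l₁) (P l₁) (c l₁) (w l₁) F := ⟨_, rfl⟩
    have hne := hexact.1 l₁ hl₁
    have hK : H.1 - a • F ∈ FS d p m P μ c (Function.update w l₀ 0) :=
      Submodule.sub_mem _ hHF (Submodule.smul_mem _ _ hF)
    have hGK : G' - a • G ∈ linSys (μ l₀) ζ (v l₀) :=
      Submodule.sub_mem _ hG' (Submodule.smul_mem _ _ hG)
    have hKres : res (G' - a • G) = ld d (μ l₀) (P l₀) (H.1 - a • F) := by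
      rw [map_sub, map_sub, map_smul, map_smul, h2, hres]
    have hK0 : H.1 - a • F = 0 := by
      by_contra hne'
      apply (S.hyb_exact hX hK hne' ⟨_, hGK, hKres⟩).1 l₁ hl₁
      rw [map_sub, map_smul, smul_eq_mul, ha, div_mul_cancel₀ _ hne, sub_self]
    have hG0 : G' - a • G = 0 := by
      apply hinj _ hGK
      rw [hKres, hK0, map_zero]
    refine ⟨a, Prod.ext (sub_eq_zero.mp hK0) ?_⟩
    rw [h3, sub_eq_zero.mp hG0, map_smul]
    rfl
  · have hA : linSys d (Sum.elim p P) (Sum.elim m μ) ≤ Rd d := linSys_le _ _ _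
    have hV : ∀ H, H ∈ VV d (fun i : {i // i ∉ U} => p i.1)
        (HB (AU d p m U P μ) d (μ l₀) (P l₀) (linSys (μ l₀) ζ (v l₀)) Θ) (fun i => m i.1) ↔
        H.1 ∈ linSys d (Sum.elim p P) (Sum.elim m μ) ∧ ∃ G' ∈ linSys (μ l₀) ζ (v l₀),
          res G' = ld d (μ l₀) (P l₀) H.1 ∧ H.2 = Θ G' := by
      intro H
      rw [mem_VV]
      constructor
      · rintro ⟨⟨h2, h3⟩, h4⟩
        refine ⟨⟨h2.1, ?_⟩, h3⟩
        rintro (i | l)
        · by_cases hi : i ∈ U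
          · exact hAU _ h2 i hi
          · exact h4.2 ⟨i, hi⟩
        · exact h2.2 (Sum.inr l)
      · rintro ⟨h2, h3⟩
        refine ⟨⟨hAmem _ ⟨h2.1, fun l => h2.2 (Sum.inr l)⟩ (fun a _ => h2.2 (Sum.inl a)), h3⟩,
          h2.1, fun i => h2.2 (Sum.inl i.1)⟩
    have h2 : finrank ℂ (linSys d (Sum.elim p P) (Sum.elim m μ)) +
        finrank ℂ (linSys (μ l₀) ζ (v l₀)) ≤ finrank ℂ (VV d (fun i : {i // i ∉ U} => p i.1)
        (HB (AU d p m U P μ) d (μ l₀) (P l₀) (linSys (μ l₀) ζ (v l₀)) Θ) (fun i => m i.1)) +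
          (μ l₀ + 1) :=
      finrank_VV_hyb hA (by omega : μ l₀ ≤ d) (linSys_le _ _ _) hinj Θ hV
    have h3 := S.hN (Sum.elim m μ) ⟨fun l => ⟨le_rfl, Nat.le_succ _⟩, ∅, by simp,
      fun i hi => absurd hi (Finset.notMem_empty i), fun i _ => rfl⟩ _ hg
    rw [Fintype.sum_sum_type] at h3
    have h4 := (S.hNv l₀).finrank hζ (m := v l₀) (fun j => by
      have := S.hv l₀ j
      omega)
    rw [S.crit l₀] at h4
    have h5 := S.hχ
    have h6 := choose_succ_two (μ l₀)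
    have h7 : ∑ l, w l = w l₀ + ∑ l : {l // l ∉ ({l₀} : Finset Λ)}, w l.1 := by
      rw [← Finset.add_sum_erase Finset.univ w (Finset.mem_univ l₀)]
      congr 1
      rw [← Finset.sum_subtype (Finset.univ.erase l₀) (p := fun l => l ∉ ({l₀} : Finset Λ))
        (fun x => by simp) w]
    have h8 := S.w_le l₀
    have h9 : finrank ℂ (linSys d (Sum.elim p P) (Sum.elim m μ)) = ∑ l, w l + 1 := by
      rw [h3]
      change (d + 2).choose 2 - (∑ i, (m i + 1).choose 2 + ∑ l, (μ l + 1).choose 2) = _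
      omega
    have h10 : finrank ℂ (linSys (μ l₀) ζ (v l₀)) + w l₀ = μ l₀ + 1 := by
      rw [h4]
      omega
    omega

/-- base point freeness of the system of a cluster -/
theorem Dat.clus_bpf (S : Dat d M m U μ w s Mv v) (l₀ : Λ) {ζ : Fin (s l₀) → V3}
    (hζ : GenericPoints ζ) {q : V3} (hq : q ≠ 0) (hqp : ∀ j, cr (ζ j) q ≠ 0) :
    ∃ G ∈ linSys (μ l₀) ζ (v l₀), eval q G ≠ 0 := by
  refine bpf_point (S.hNv l₀) hζ (S.hv l₀) (S.hvμ l₀) ?_ hq hqp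
  have h1 := S.crit l₀
  have h2 := S.hw l₀
  have h3 := zc_choose_succ (μ l₀)
  have h4 : (μ l₀ + 2).choose 2 = (μ l₀ + 1 + 1).choose 2 := rfl
  rw [h1, h4, h3]
  omega

theorem Dat.hyb_neck (S : Dat d M m U μ w s Mv v) {p : ι → V3} {P : Λ → V3} {c : Λ → ℂ} {l₀ : Λ}
    {ζ : Fin (s l₀) → V3} (hX : Ind (Sum.elim (Sum.elim p P) ζ) c) {F G : R3}
    (hF : F ∈ FS d p m P μ c (Function.update w l₀ 0)) (hF0 : F ≠ 0)
    (hG : G ∈ linSys (μ l₀) ζ (v l₀)) (hres : res G = ld d (μ l₀) (P l₀) F) :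
    NoDouble (res G) := by
  intro y hy
  by_contra hcon
  push Not at hcon
  have hζ : GenericPoints ζ := gen_right hX
  have hμ1 : 1 ≤ μ l₀ := by
    have h1 := S.hMv l₀
    have h2 := S.hvμ l₀
    omega
  have hbp : ∃ G' ∈ linSys (μ l₀) ζ (v l₀), eval y (res G') ≠ 0 := by
    obtain ⟨G', hG', hne⟩ := S.clus_bpf l₀ hζ (q := ![y 0, y 1, 0]) (by
      intro h
      apply hy
      funext i
      fin_cases i
      · exact congrFun h 0
      · exact congrFun h 1) (by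
      intro j h
      have hζ2 : ζ j 2 ≠ 0 := hζ.ne_zero (j, 2)
      apply hy
      have h0 : ζ j 1 * 0 - ζ j 2 * y 1 = 0 := congrFun h 0
      have h1 : ζ j 2 * y 0 - ζ j 0 * 0 = 0 := congrFun h 1
      funext i
      fin_cases i
      · change y 0 = 0
        have h2 : ζ j 2 * y 0 = 0 := by linear_combination h1
        exact (mul_eq_zero.mp h2).resolve_left hζ2
      · change y 1 = 0
        have h2 : ζ j 2 * y 1 = 0 := by linear_combination -h0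
        exact (mul_eq_zero.mp h2).resolve_left hζ2)
    refine ⟨G', hG', ?_⟩
    rw [eval_res]
    exact hne
  exact S.hgraph hX (n := 2) (N := μ l₀) (by omega) (Θ := res.toLinearMap)
    (fun G' hG' => res_hom hG'.1) (fun Δ _ G' _ => (cD_res Δ G').symm) hy hbp hF hF0 hG hres
    (eval_zero_of_grad hμ1 (res_hom hG.1) hcon) hcon

theorem Dat.hyb_not_bad (S : Dat d M m U μ w s Mv v) {p : ι → V3} {P : Λ → V3} {c : Λ → ℂ}
    {l₀ : Λ} {ζ : Fin (s l₀) → V3} (hX : Ind (Sum.elim (Sum.elim p P) ζ) c) {F G : R3}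
    (hF : F ∈ FS d p m P μ c (Function.update w l₀ 0)) (hF0 : F ≠ 0)
    (hG : G ∈ linSys (μ l₀) ζ (v l₀)) (hres : res G = ld d (μ l₀) (P l₀) F) :
    ¬ Bad (μ l₀) ζ (v l₀) G := by
  have hζ : GenericPoints ζ := gen_right hX
  have hMv := S.hMv l₀
  have hvμ := S.hvμ l₀
  rintro (⟨q, hq, hqp, hs⟩ | ⟨j, u, hu, hbad⟩)
  · exact S.hgraph hX (n := 3) (N := μ l₀) le_rfl (Θ := LinearMap.id)
      (fun G' hG' => hG'.1) (fun Δ _ G' _ => rfl) hq (S.clus_bpf l₀ hζ hq hqp) hF hF0 hG hres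
      (eval_zero_of_grad (by omega) hG.1 hs) hs
  · have hvj := S.hv l₀ j
    have hζ2 : ζ j 2 ≠ 0 := hζ.ne_zero (j, 2)
    obtain ⟨y, hy, hy0, hy1⟩ : ∃ y : V2, y ≠ 0 ∧ eval y (ld (μ l₀) (v l₀ j) (ζ j) G) = 0 ∧
        ∀ k, eval y (pderiv k (ld (μ l₀) (v l₀ j) (ζ j) G)) = 0 := by
      rcases Nat.eq_zero_or_pos (v l₀ j) with h0 | hpos
      · have h1 := (badDir_zero_iff hG.1 hζ2).mp ⟨u, hu, by rw [h0] at hbad; exact hbad⟩
        refine ⟨![1, 0], ?_, ?_, ?_⟩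
        · intro h
          exact one_ne_zero (congrFun h 0)
        · rw [h0, h1, map_zero]
        · intro k
          rw [h0, h1, map_zero, map_zero]
      · obtain ⟨y, hy, hy1⟩ := (badDir_iff_ld hG.1 hζ2 hpos (by omega)
          (hG.2 j)).mp ⟨u, hu, hbad⟩
        exact ⟨y, hy, eval_zero_of_grad hpos (ld_hom hG.1 (by omega) _) hy1, hy1⟩
    refine S.hgraph hX (n := 2) (N := v l₀ j) (by omega) (Θ := ld (μ l₀) (v l₀ j) (ζ j))
      (fun G' hG' => ld_hom hG'.1 (by omega) _)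
      (fun Δ h G' _ => (cD_ld Δ (h j) (μ l₀) (v l₀ j) G').symm) hy ?_ hF hF0 hG hres hy0 hy1
    obtain ⟨β, hβ, hβy⟩ := exists_binary hy (v l₀ j)
    obtain ⟨G', hG', hld⟩ := exists_of_NSp (S.hNv l₀) hζ (y := v l₀) j
      (fun x => by have := S.hv l₀ x; omega) hvj (by omega) (by
        have h1 := S.crit l₀
        have h2 := S.hw l₀
        have h3 := zc_choose_succ (μ l₀)
        have h4 : (μ l₀ + 2).choose 2 = (μ l₀ + 1 + 1).choose 2 := rfl
        rw [h1, h4, h3]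
        omega) hβ
    exact ⟨G', hG', by rw [hld]; exact hβy⟩

end Pool.Agent.Work.MP_0421d9_ag.ZE
end

section
/-!
Collisions of generic points, relative version: the clusters level.
-/

set_option linter.unusedSectionVars false
set_option linter.unusedVariables false

namespace Pool.Agent.Work.MP_0421d9_ag.ZE

open MvPolynomial Module SM ZC

section levels

variable {ι Λ : Type} [Fintype ι] [Fintype Λ] [DecidableEq ι] [DecidableEq Λ] {d M : ℕ}
  {m : ι → ℕ} {U : Finset ι} {μ w s Mv : Λ → ℕ} {v : ∀ l, Fin (s l) → ℕ}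

theorem Dat.le_mu (S : Dat d M m U μ w s Mv v) (l : Λ) : 2 ≤ μ l ∧ w l ≤ μ l ∧ Mv l ≤ μ l ∧
    μ l ≤ d ∧ μ l + 1 ≤ d := by
  have h1 := S.hvμ l
  have h2 := S.hMv l
  have h3 := S.hw l
  have h4 := S.hμd l
  refine ⟨?_, ?_, ?_, ?_, ?_⟩ <;> omega

/-- all the clusters become flags -/
theorem Dat.to_flag (S : Dat d M m U μ w s Mv v) {p : ι → V3} {P : Λ → V3}
    {ζ : (Σ l, Fin (s l)) → V3} (hX : GenericPoints (Sum.elim (Sum.elim p P) ζ)) {F : R3}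
    (hF : F ∈ linSys d (Sum.elim p P) (Sum.elim m μ)) (hF0 : F ≠ 0) {G : Λ → R3}
    (hG : ∀ l, G l ∈ linSys (μ l) (fun j => ζ ⟨l, j⟩) (v l))
    (hres : ∀ l, res (G l) = ld d (μ l) (P l) F) :
    ∃ (ρ : Pl) (p' : ι → V3) (P' : Λ → V3) (c' : Λ → ℂ) (a : ℂ) (F' : R3),
      Ind (Sum.elim p' P') c' ∧ (∀ i k, ρ.L (p i k) (p' i k)) ∧ (∀ l k, ρ.L (P l k) (P' l k)) ∧
      a ≠ 0 ∧ ρ.LP (C a * F) F' ∧ F' ≠ 0 ∧ F' ∈ FS d p' m P' μ c' w := by
  obtain ⟨g, e, hg⟩ := exists_ind ((ι ⊕ Λ) ⊕ (Σ l, Fin (s l))) (Λ ⊕ Unit)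
  obtain ⟨ρ, t, c, ξ, ht0, ht, hpp, -, hcc, hξ, hξζ⟩ := exists_flag_place
    (ind_of_generic hX Empty.elim) (fun x => g (Sum.inl x)) Empty.elim
    (fun l => e (Sum.inl l))
    (fun x => ![g (Sum.inr x) 1, g (Sum.inr x) 0 - e (Sum.inr ()) * g (Sum.inr x) 1,
      g (Sum.inr x) 2])
  obtain ⟨a, ha, F', hF'0, hlim⟩ := Pl.exists_scale_poly ρ hF0
  have hpL : ∀ i k, ρ.L (p i k) (g (Sum.inl (Sum.inl i)) k) := fun i k => hpp (Sum.inl i) k
  have hPL : ∀ l k, ρ.L (P l k) (g (Sum.inl (Sum.inr l)) k) := fun l k => hpp (Sum.inr l) k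
  refine ⟨ρ, fun i => g (Sum.inl (Sum.inl i)), fun l => g (Sum.inl (Sum.inr l)),
    fun l => e (Sum.inl l), a, F', ?_, hpL, hPL, ha, hlim, hF'0, ?_, ?_⟩
  · have h1 := ind_comp hg (fun x : ι ⊕ Λ => Sum.inl x) Sum.inl_injective
      (fun l : Λ => Sum.inl l) Sum.inl_injective
    have h2 : (fun x : ι ⊕ Λ => g (Sum.inl x)) = Sum.elim (fun i => g (Sum.inl (Sum.inl i)))
        (fun l => g (Sum.inl (Sum.inr l))) := by
      funext x
      rcases x with x | x <;> rfl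
    rwa [h2] at h1
  · refine ⟨hlim.homogeneous (hF.1.C_mul a), ?_⟩
    rintro (i | l)
    · exact hlim.vanishTo (hF.1.C_mul a) (hpL i) (vanishTo_C_mul (hF.2 (Sum.inl i)) a)
    · exact hlim.vanishTo (hF.1.C_mul a) (hPL l) (vanishTo_C_mul (hF.2 (Sum.inr l)) a)
  · intro l i hi
    obtain ⟨h1, h2, h3, h4, h5⟩ := S.le_mu l
    have hb : Ind (fun j => g (Sum.inr ⟨l, j⟩)) (fun _ : Unit => e (Sum.inr ())) :=
      ind_comp hg (fun j : Fin (s l) => Sum.inr ⟨l, j⟩) (fun j j' h => by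
        simpa using h) (fun x : Unit => Sum.inr x) Sum.inr_injective
    exact spec_flag (S.hNv l) (S.hNv' l) (fun j => by have := S.hv l j; omega) h3 (S.hMv l)
      (S.crit l) h2 hb ht0 ht (hcc l) (ζ := fun j => ζ ⟨l, j⟩) (ξ := fun j => ξ ⟨l, j⟩)
      (fun x k => hξ ⟨l, x⟩ k) (fun x => hξζ ⟨l, x⟩)
      ⟨C a * G l, linSys_C_mul (hG l) a, rfl⟩ (by
        rw [res_C_mul, hres l, ← ld_C_mul]
        exact LP_ld ρ (hPL l) hlim d (μ l)) i hi

/-- the clusters different from `l₀` become flags -/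
theorem Dat.to_hyb (S : Dat d M m U μ w s Mv v) {p : ι → V3} {P : Λ → V3}
    {ζ : (Σ l, Fin (s l)) → V3} (hX : GenericPoints (Sum.elim (Sum.elim p P) ζ)) {F : R3}
    (hF : F ∈ linSys d (Sum.elim p P) (Sum.elim m μ)) (hF0 : F ≠ 0) {G : Λ → R3}
    (hG : ∀ l, G l ∈ linSys (μ l) (fun j => ζ ⟨l, j⟩) (v l))
    (hres : ∀ l, res (G l) = ld d (μ l) (P l) F) (l₀ : Λ) :
    ∃ (ρ : Pl) (p' : ι → V3) (P' : Λ → V3) (c' : Λ → ℂ) (ζ' : Fin (s l₀) → V3) (a : ℂ)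
      (F' G' : R3), Ind (Sum.elim (Sum.elim p' P') ζ') c' ∧ (∀ l k, ρ.L (P l k) (P' l k)) ∧
      (∀ j k, ρ.L (ζ ⟨l₀, j⟩ k) (ζ' j k)) ∧ (∀ j, ζ' j 2 ≠ 0) ∧ a ≠ 0 ∧ ρ.LP (C a * F) F' ∧
      F' ≠ 0 ∧ F' ∈ FS d p' m P' μ c' (Function.update w l₀ 0) ∧ ρ.LP (C a * G l₀) G' ∧
      G' ∈ linSys (μ l₀) ζ' (v l₀) ∧ res G' = ld d (μ l₀) (P' l₀) F' := by
  obtain ⟨g, e, hg⟩ := exists_ind ((ι ⊕ Λ) ⊕ (Σ l, Fin (s l))) (Λ ⊕ Unit)
  have hX' : GenericPoints (Sum.elim (Sum.elim (Sum.elim p P) (fun j => ζ ⟨l₀, j⟩))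
      (fun x : (Σ l : {l // l ≠ l₀}, Fin (s l.1)) => ζ ⟨x.1.1, x.2⟩)) := by
    have h1 : Function.Injective (fun z : (((ι ⊕ Λ) ⊕ Fin (s l₀)) ⊕
        (Σ l : {l // l ≠ l₀}, Fin (s l.1))) × Fin 3 =>
        ((Sum.elim (Sum.elim Sum.inl (fun j => Sum.inr ⟨l₀, j⟩))
          (fun x => Sum.inr ⟨x.1.1, x.2⟩) z.1 : (ι ⊕ Λ) ⊕ (Σ l, Fin (s l))), z.2)) := by
      rintro ⟨((x | x) | ⟨⟨x, hx⟩, j⟩), k⟩ ⟨((y | y) | ⟨⟨y, hy⟩, j'⟩), k'⟩ h
      · simp only [Sum.elim_inl, Prod.mk.injEq, Sum.inl.injEq] at h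
        rw [h.1, h.2]
      · simp at h
      · simp at h
      · simp at h
      · simp only [Sum.elim_inl, Sum.elim_inr, Prod.mk.injEq, Sum.inr.injEq, Sigma.mk.injEq,
          heq_eq_eq, true_and] at h
        rw [h.1, h.2]
      · simp only [Sum.elim_inl, Sum.elim_inr, Prod.mk.injEq, Sum.inr.injEq,
          Sigma.mk.injEq] at h
        exact absurd h.1.1.symm hy
      · simp at h
      · simp only [Sum.elim_inl, Sum.elim_inr, Prod.mk.injEq, Sum.inr.injEq,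
          Sigma.mk.injEq] at h
        exact absurd h.1.1 hx
      · simp only [Sum.elim_inr, Prod.mk.injEq, Sum.inr.injEq, Sigma.mk.injEq] at h
        obtain ⟨⟨h1, h2⟩, h3⟩ := h
        subst h1
        rw [eq_of_heq h2, h3]
    have h2 := AlgebraicIndependent.comp hX _ h1
    have h3 : (fun z : ((ι ⊕ Λ) ⊕ (Σ l, Fin (s l))) × Fin 3 => Sum.elim (Sum.elim p P) ζ z.1 z.2) ∘
        (fun z : (((ι ⊕ Λ) ⊕ Fin (s l₀)) ⊕ (Σ l : {l // l ≠ l₀}, Fin (s l.1))) × Fin 3 =>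
        ((Sum.elim (Sum.elim Sum.inl (fun j => Sum.inr ⟨l₀, j⟩))
          (fun x => Sum.inr ⟨x.1.1, x.2⟩) z.1 : (ι ⊕ Λ) ⊕ (Σ l, Fin (s l))), z.2)) =
        fun z => Sum.elim (Sum.elim (Sum.elim p P) (fun j => ζ ⟨l₀, j⟩))
          (fun x : (Σ l : {l // l ≠ l₀}, Fin (s l.1)) => ζ ⟨x.1.1, x.2⟩) z.1 z.2 := by
      funext z
      obtain ⟨((x | x) | x), k⟩ := z <;> rfl
    rw [h3] at h2
    exact h2
  obtain ⟨ρ, t, c, ξ, ht0, ht, hpp, -, hcc, hξ, hξζ⟩ := exists_flag_place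
    (ind_of_generic hX' Empty.elim)
    (Sum.elim (fun x => g (Sum.inl x)) (fun j => g (Sum.inr ⟨l₀, j⟩))) Empty.elim
    (fun l => e (Sum.inl l.1))
    (fun x => ![g (Sum.inr ⟨x.1.1, x.2⟩) 1, g (Sum.inr ⟨x.1.1, x.2⟩) 0 -
      e (Sum.inr ()) * g (Sum.inr ⟨x.1.1, x.2⟩) 1, g (Sum.inr ⟨x.1.1, x.2⟩) 2])
  obtain ⟨a, ha, F', hF'0, hlim⟩ := Pl.exists_scale_poly ρ hF0
  have hpL : ∀ i k, ρ.L (p i k) (g (Sum.inl (Sum.inl i)) k) :=
    fun i k => hpp (Sum.inl (Sum.inl i)) k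
  have hPL : ∀ l k, ρ.L (P l k) (g (Sum.inl (Sum.inr l)) k) :=
    fun l k => hpp (Sum.inl (Sum.inr l)) k
  have hζL : ∀ j k, ρ.L (ζ ⟨l₀, j⟩ k) (g (Sum.inr ⟨l₀, j⟩) k) := fun j k => hpp (Sum.inr j) k
  have hne : ∀ x, g x 2 ≠ 0 := fun x => (Ind.generic hg).ne_zero (x, 2)
  have hlimld : ∀ l, ρ.LP (C a * res (G l)) (ld d (μ l) (g (Sum.inl (Sum.inr l))) F') := by
    intro l
    rw [hres l, ← ld_C_mul]
    exact LP_ld ρ (hPL l) hlim d (μ l)
  obtain ⟨hμ2, hwμ, hMμ, hμd, hμd'⟩ := S.le_mu l₀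
  have hlow : linSys (μ l₀ - 1) (fun j => g (Sum.inr ⟨l₀, j⟩)) (v l₀) = ⊥ := by
    refine linSys_eq_bot (S.hNv' l₀) ?_ (fun j => ?_) ?_
    · exact AlgebraicIndependent.comp (Ind.generic hg)
        (fun z : Fin (s l₀) × Fin 3 => (Sum.inr ⟨l₀, z.1⟩, z.2)) (fun z z' h => by
        simp only [Prod.mk.injEq, Sum.inr.injEq, Sigma.mk.injEq, heq_eq_eq, true_and] at h
        exact Prod.ext h.1 h.2)
    · have := S.hv l₀ j
      omega
    · have h1 := S.crit l₀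
      have h3 : μ l₀ - 1 + 2 = μ l₀ + 1 := by omega
      rw [h3, h1]
      exact Nat.le_add_right _ _
  have hlinG : ∀ (b : ℂ) (K : R3), ρ.LP (C b * G l₀) K →
      K ∈ linSys (μ l₀) (fun j => g (Sum.inr ⟨l₀, j⟩)) (v l₀) := fun b K hK =>
    hK.linSys hζL (linSys_C_mul (hG l₀) b)
  obtain ⟨G', hG'⟩ : ∃ G', ρ.LP (C a * G l₀) G' := by
    by_cases hG0 : G l₀ = 0
    · refine ⟨0, ?_⟩
      rw [hG0, mul_zero]
      exact Pl.LP_zero
    · obtain ⟨b, hb, G₂, hG₂0, hLG₂⟩ := Pl.exists_scale_poly ρ hG0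
      rcases ρ.tot (a / b) with ⟨κ, hκ⟩ | hκ
      · refine ⟨C κ * G₂, ?_⟩
        have h1 := hLG₂.C_mul hκ
        have e1 : C (a / b) * (C b * G l₀) = C a * G l₀ := by
          rw [← mul_assoc, ← map_mul, div_mul_cancel₀ _ hb]
        rwa [e1] at h1
      · exfalso
        have h1 := (hlimld l₀).C_mul hκ
        have e1 : C (a / b)⁻¹ * (C a * res (G l₀)) = res (C b * G l₀) := by
          rw [res_C_mul, ← mul_assoc, ← map_mul, inv_div, div_mul_cancel₀ _ ha]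
        rw [e1, C_0, zero_mul] at h1
        have h2 : ρ.LP (res (C b * G l₀)) (res G₂) := by
          unfold res
          refine hLG₂.aeval fun i => ?_
          fin_cases i
          · exact Pl.LP_X 0
          · exact Pl.LP_X 1
          · exact Pl.LP_zero
        have h3 := Pl.LP.fn h2 h1
        exact hG₂0 (eq_zero_of_res (fun j => hne _) hlow (hlinG b G₂ hLG₂) h3)
  refine ⟨ρ, fun i => g (Sum.inl (Sum.inl i)), fun l => g (Sum.inl (Sum.inr l)),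
    fun l => e (Sum.inl l), fun j => g (Sum.inr ⟨l₀, j⟩), a, F', G', ?_, hPL, hζL,
    fun j => hne _, ha, hlim, hF'0, ⟨?_, ?_⟩, hG', hlinG a G' hG', ?_⟩
  · have h1 := ind_comp hg
      (Sum.elim Sum.inl (fun j : Fin (s l₀) => Sum.inr ⟨l₀, j⟩) :
        (ι ⊕ Λ) ⊕ Fin (s l₀) → (ι ⊕ Λ) ⊕ (Σ l, Fin (s l))) (by
        rintro (x | x) (y | y) h
        · exact congrArg Sum.inl (Sum.inl_injective h)
        · simp at h
        · simp at h
        · simp only [Sum.elim_inr, Sum.inr.injEq, Sigma.mk.injEq, heq_eq_eq, true_and] at h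
          rw [h])
      (fun l : Λ => Sum.inl l) Sum.inl_injective
    have h2 : (fun x => g ((Sum.elim Sum.inl (fun j : Fin (s l₀) => Sum.inr ⟨l₀, j⟩) :
        (ι ⊕ Λ) ⊕ Fin (s l₀) → (ι ⊕ Λ) ⊕ (Σ l, Fin (s l))) x)) =
        Sum.elim (Sum.elim (fun i => g (Sum.inl (Sum.inl i)))
        (fun l => g (Sum.inl (Sum.inr l)))) (fun j => g (Sum.inr ⟨l₀, j⟩)) := by
      funext x
      rcases x with (x | x) | x <;> rfl
    rwa [h2] at h1
  · refine ⟨hlim.homogeneous (hF.1.C_mul a), ?_⟩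
    rintro (i | l)
    · exact hlim.vanishTo (hF.1.C_mul a) (hpL i) (vanishTo_C_mul (hF.2 (Sum.inl i)) a)
    · exact hlim.vanishTo (hF.1.C_mul a) (hPL l) (vanishTo_C_mul (hF.2 (Sum.inr l)) a)
  · intro l i hi
    by_cases hl : l = l₀
    · rw [hl, Function.update_self] at hi
      omega
    · rw [Function.update_of_ne hl] at hi
      obtain ⟨h1, h2, h3, h4, h5⟩ := S.le_mu l
      have hb : Ind (fun j => g (Sum.inr ⟨l, j⟩)) (fun _ : Unit => e (Sum.inr ())) :=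
        ind_comp hg (fun j : Fin (s l) => Sum.inr ⟨l, j⟩) (fun j j' h => by
          simpa using h) (fun x : Unit => Sum.inr x) Sum.inr_injective
      exact spec_flag (S.hNv l) (S.hNv' l) (fun j => by have := S.hv l j; omega) h3 (S.hMv l)
        (S.crit l) h2 hb ht0 ht (hcc ⟨l, hl⟩) (ζ := fun j => ζ ⟨l, j⟩)
        (ξ := fun j => ξ ⟨⟨l, hl⟩, j⟩)
        (fun x k => hξ ⟨⟨l, hl⟩, x⟩ k) (fun x => hξζ ⟨⟨l, hl⟩, x⟩)
        ⟨C a * G l, linSys_C_mul (hG l) a, rfl⟩ (by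
          rw [res_C_mul]
          exact hlimld l) i hi
  · have h2 : ρ.LP (res (C a * G l₀)) (res G') := by
      unfold res
      refine hG'.aeval fun i => ?_
      fin_cases i
      · exact Pl.LP_X 0
      · exact Pl.LP_X 1
      · exact Pl.LP_zero
    rw [res_C_mul] at h2
    exact Pl.LP.fn h2 (hlimld l₀)

/-- **The clusters level.** -/
theorem Dat.w_good [Nonempty Λ] (S : Dat d M m U μ w s Mv v) {p : ι → V3} {P : Λ → V3}
    {ζ : (Σ l, Fin (s l)) → V3} (hX : GenericPoints (Sum.elim (Sum.elim p P) ζ)) {F : R3}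
    (hF : F ∈ linSys d (Sum.elim p P) (Sum.elim m μ)) (hF0 : F ≠ 0) {G : Λ → R3}
    (hG : ∀ l, G l ∈ linSys (μ l) (fun j => ζ ⟨l, j⟩) (v l))
    (hres : ∀ l, res (G l) = ld d (μ l) (P l) F) :
    ¬ Sing (Sum.elim p P) F ∧ ¬ Tang d p m F ∧ ∀ l, ld d (μ l) (P l) F ≠ 0 ∧
      NoDouble (ld d (μ l) (P l) F) ∧ ¬ Bad (μ l) (fun j => ζ ⟨l, j⟩) (v l) (G l) := by
  have hd1 : 1 ≤ d := by
    obtain ⟨l⟩ := ‹Nonempty Λ›
    have h := S.le_mu l
    omega
  obtain ⟨ρ, p', P', c', a, F', hI, hpL, hPL, ha, hlim, hF'0, hFS⟩ := S.to_flag hX hF hF0 hG hres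
  have hmd : ∀ i, m i ≤ d := fun i => by
    have h1 := S.hmd i
    omega
  have hX2 : ∀ x, Sum.elim p P x 2 ≠ 0 := fun x => hX.ne_zero (Sum.inl x, 2)
  have hp'0 : ∀ x, Sum.elim p' P' x 2 ≠ 0 := fun x => (Ind.generic hI).ne_zero (x, 2)
  refine ⟨?_, ?_, fun l => ?_⟩
  · rintro ⟨q, hq0, hqp, hgrad⟩
    obtain ⟨e, he, b, hb0, hqb⟩ := ρ.exists_scale_vec q hq0
    obtain ⟨q', hq'⟩ : ∃ q' : V3, q' = e • q := ⟨_, rfl⟩
    have hgrad' : ∀ k, eval q' (pderiv k F) = 0 := by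
      intro k
      rw [hq', eval_smul_of_hom hF.1.pderiv, hgrad k, mul_zero]
    have hqp' : ∀ i, cr (Sum.elim p P i) q' ≠ 0 := by
      intro i
      rw [hq', cr_smul_right]
      exact smul_ne_zero he (hqp i)
    have hqb' : ∀ k, ρ.L (q' k) (b k) := by
      intro k
      rw [hq']
      exact hqb k
    by_cases hl : ∃ l, cr (P' l) b = 0
    · obtain ⟨l, hl⟩ := hl
      obtain ⟨h1, h2, h3, h4, h5⟩ := S.le_mu l
      obtain ⟨y, hy0, hy1, hy2⟩ := next_order ρ (hX2 (Sum.inr l)) (hp'0 (Sum.inr l)) (hPL l)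
        (hF.1.C_mul a) h5 hlim (vanishTo_C_mul (hF.2 (Sum.inr l)) a) hqb' hb0 hl
        (hqp' (Sum.inr l)) (sing_C_mul hgrad' a)
      have h6 := S.flag_dir hI hFS hF'0 hy0 hy1
      have h7 : y 1 ≠ 0 := by
        intro h7
        apply hy0
        ext i
        fin_cases i
        · change y 0 = 0
          rw [h6, h7, mul_zero]
        · exact h7
      have h8 : y = y 1 • (![c' l, 1] : V2) := by
        ext i
        fin_cases i
        · change y 0 = y 1 * c' l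
          rw [h6, mul_comm]
        · change y 1 = y 1 * 1
          rw [mul_one]
      rw [h8, eval_smul_of_hom (ld_hom hFS.1.1 h5 _)] at hy2
      exact S.flag_next hI hFS hF'0 l ((mul_eq_zero.mp hy2).resolve_left (pow_ne_zero _ h7))
    · push Not at hl
      by_cases hi : ∃ i, cr (p' i) b = 0
      · obtain ⟨i, hi⟩ := hi
        have hp'i : p' i ≠ 0 := fun h => hp'0 (Sum.inl i) (by
          change p' i 2 = 0
          rw [h]; rfl)
        obtain ⟨u, hu, hbu⟩ := sing_spec ρ (hF.1.C_mul a) hd1 (hmd i) hlim (hpL i) hqb' hp'i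
          hb0 (vanishTo_C_mul (hF.2 (Sum.inl i)) a) (hqp' (Sum.inl i)) hi (sing_C_mul hgrad' a)
        exact S.flag_tang hI hFS hF'0 ⟨i, u, hu, hbu⟩
      · push Not at hi
        refine S.flag_sing hI hFS hF'0 ⟨b, hb0, ?_, ?_⟩
        · rintro (i | l)
          · exact hi i
          · exact hl l
        · intro k
          have h1 := (hlim.pderiv k).eval hqb'
          rw [sing_C_mul hgrad' a k] at h1
          exact ρ.fn h1 (Pl.zero ρ)
  · rintro ⟨i, u, hu, hbad⟩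
    have hp'i : p' i ≠ 0 := fun h => hp'0 (Sum.inl i) (by
      change p' i 2 = 0
      rw [h]; rfl)
    obtain ⟨u', hu', hbu⟩ := tang_spec ρ (hF.1.C_mul a) (hmd i) hlim (hpL i) hp'i
      (vanishTo_C_mul (hF.2 (Sum.inl i)) a) hu (badDir_C_mul hbad a)
    exact S.flag_tang hI hFS hF'0 ⟨i, u', hu', hbu⟩
  · obtain ⟨h1, h2, h3, h4, h5⟩ := S.le_mu l
    have hld : ld d (μ l) (P l) F ≠ 0 := by
      intro h0
      apply S.flag_exact hI hFS hF'0 l
      have h6 := LP_ld ρ (hPL l) hlim d (μ l)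
      rw [ld_C_mul, h0, mul_zero] at h6
      have h7 := Pl.LP.fn h6 Pl.LP_zero
      rw [fd_eq, h7, iterate_map_zero, map_zero]
    refine ⟨hld, ?_⟩
    obtain ⟨ρ₂, p₂, P₂, c₂, ζ₂, a₂, F₂, G₂, hI₂, hPL₂, hζL₂, hζ₂, ha₂, hlim₂, hF₂0, hFS₂, hlimG₂,
      hG₂, hres₂⟩ := S.to_hyb hX hF hF0 hG hres l
    have hnd := S.hyb_neck hI₂ hFS₂ hF₂0 hG₂ hres₂
    have hnb := S.hyb_not_bad hI₂ hFS₂ hF₂0 hG₂ hres₂
    constructor
    · intro y hy
      by_contra hcon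
      push Not at hcon
      obtain ⟨e, he, z, hz0, hLz⟩ := ρ₂.exists_scale_vec y hy
      obtain ⟨k, hk⟩ := hnd z hz0
      apply hk
      rw [hres₂]
      have h6 := LP_ld ρ₂ (hPL₂ l) hlim₂ d (μ l)
      rw [ld_C_mul] at h6
      have h7 := (h6.pderiv k).eval (a := e • y) (b := z) hLz
      have h8 : eval (e • y) (pderiv k (C a₂ * ld d (μ l) (P l) F)) = 0 := by
        rw [pderiv_C_mul, map_mul, eval_smul_of_hom (ld_hom hF.1 h4 _).pderiv, hcon k, mul_zero,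
          mul_zero]
      rw [h8] at h7
      exact ρ₂.fn h7 (Pl.zero ρ₂)
    · intro hb
      apply hnb
      have hb' : Bad (μ l) (fun j => ζ ⟨l, j⟩) (v l) (C a₂ * G l) := by
        rcases hb with ⟨q, hq0, hq1, hq2⟩ | ⟨i, u, hu, hb⟩
        · exact Or.inl ⟨q, hq0, hq1, sing_C_mul hq2 a₂⟩
        · exact Or.inr ⟨i, u, hu, badDir_C_mul hb a₂⟩
      exact bad_spec ρ₂ (by omega) (fun j => by have := S.hv l j; omega)
        (linSys_C_mul (hG l) a₂) hlimG₂ hζL₂ (fun j h => hζ₂ j (by rw [h]; rfl)) hb'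

end levels

end Pool.Agent.Work.MP_0421d9_ag.ZE
end

section
/-!
Collisions of generic points, relative version: the collision theorem.
-/

set_option linter.unusedSectionVars false
set_option linter.unusedVariables false

namespace Pool.Agent.Work.MP_0421d9_ag.ZE

open MvPolynomial Module SM ZC

/-- **The collision theorem**: the rigid member is not bad -/
theorem Dat.not_bad {ι Λ : Type} [Fintype ι] [Fintype Λ] [DecidableEq ι] [DecidableEq Λ]
    [Nonempty Λ] {d M : ℕ}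
    {m : ι → ℕ} {U : Finset ι} {μ w s Mv : Λ → ℕ} {v : ∀ l, Fin (s l) → ℕ}
    (S : Dat d M m U μ w s Mv v) {p : ι ⊕ (Σ l, Fin (s l)) → V3}
    (hp : GenericPoints p) {F : R3}
    (hF : F ∈ linSys d p (Sum.elim m (fun x => v x.1 x.2))) (hF0 : F ≠ 0) :
    ¬ Bad d p (Sum.elim m (fun x => v x.1 x.2)) F := by
  have hd1 : 1 ≤ d := by
    obtain ⟨l⟩ := ‹Nonempty Λ›
    have h := S.le_mu l
    omega
  obtain ⟨g, hg⟩ := exists_generic_fam ((ι ⊕ Λ) ⊕ (Σ l, Fin (s l)))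
  obtain ⟨p', hp'⟩ : ∃ p' : ι → V3, p' = fun i => g (Sum.inl (Sum.inl i)) := ⟨_, rfl⟩
  obtain ⟨P', hP'⟩ : ∃ P' : Λ → V3, P' = fun l => g (Sum.inl (Sum.inr l)) := ⟨_, rfl⟩
  obtain ⟨ζ', hζ'⟩ : ∃ ζ' : (Σ l, Fin (s l)) → V3, ζ' = fun x => g (Sum.inr x) := ⟨_, rfl⟩
  have hge : Sum.elim (Sum.elim p' P') ζ' = g := by
    funext x
    rcases x with (i | l) | x
    · rw [hp']; rfl
    · rw [hP']; rfl
    · rw [hζ']; rfl
  have hX : GenericPoints (Sum.elim (Sum.elim p' P') ζ') := by rwa [hge]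
  have hne : ∀ x, g x 2 ≠ 0 := fun x => hg.ne_zero (x, 2)
  obtain ⟨ρ, τ, P, ζ, hτ0, hτ, hP2, hpp, hPP, hζζ, hpx⟩ := exists_collision_place hp p' P' ζ'
  have hμ2 : ∀ l, 2 ≤ μ l := fun l => by
    have h1 := S.hvμ l
    have h2 := S.hMv l
    omega
  refine collision_not_bad ρ hτ0 hτ hd1 (fun i => ?_) (fun l => ?_) (fun l => ?_)
    (fun l j => ?_) hP2 (fun l => ?_) (fun i => ?_) (fun x => ?_) hpp hPP hζζ hpx (fun l => ?_)
    (fun F₀ hF₀ hF₀0 G hG hres => S.w_good hX hF₀ hF₀0 hG hres) hF hF0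
  · have := S.hmd i
    omega
  · have := hμ2 l
    omega
  · have := S.hμd l
    omega
  · have h1 := S.hv l j
    have h2 := S.hvμ l
    omega
  · rw [hP']
    exact hne _
  · intro h
    have h1 := hne (Sum.inl (Sum.inl i))
    rw [hp'] at h
    exact h1 (by rw [show g (Sum.inl (Sum.inl i)) = 0 from h]; rfl)
  · rw [hζ']
    exact hne _
  · refine linSys_eq_bot (S.hNv' l) ?_ (fun j => ?_) ?_
    · rw [hζ']
      exact hg.comp (fun z : Fin (s l) × Fin 3 => (Sum.inr ⟨l, z.1⟩, z.2)) (fun z z' h => by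
        simp only [Prod.mk.injEq, Sum.inr.injEq, Sigma.mk.injEq, heq_eq_eq, true_and] at h
        exact Prod.ext h.1 h.2)
    · have := S.hv l j
      omega
    · have h1 := S.crit l
      have h2 := hμ2 l
      have h3 : μ l - 1 + 2 = μ l + 1 := by omega
      rw [h3, h1]
      exact Nat.le_add_right _ _

end Pool.Agent.Work.MP_0421d9_ag.ZE
end

section
/-!
The choice of the clusters among the points outside of a set `B`.
-/

set_option linter.unusedSectionVars false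

namespace Pool.Agent.Work.MP_0421d9_ag.ZE

open MvPolynomial Module SM

/-- the part of the data of a collision which concerns the clusters -/
structure Pick {ι Λ : Type} [Fintype ι] [Fintype Λ] (d M : ℕ) (m : ι → ℕ)
    (μ w s Mv : Λ → ℕ) (v : ∀ l, Fin (s l) → ℕ) : Prop where
  hμ : ∀ l, μ l + 1 ≤ M
  hχ : ∑ i, (m i + 1).choose 2 + ∑ l, (μ l + 1).choose 2 + ∑ l, w l + 1 = (d + 2).choose 2
  room : 5 * M ≤ ∑ l, w l
  hNv : ∀ l, ZC.NSp (Mv l) (μ l)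
  hNv' : ∀ l, ZC.NSp (Mv l) (μ l - 1)
  hv : ∀ l j, v l j + 1 ≤ Mv l
  hvμ : ∀ l, 2 * Mv l ≤ μ l
  crit : ∀ l, ∑ j, (v l j + 1).choose 2 = (μ l + 1).choose 2 + w l
  hw : ∀ l, w l + 2 * Mv l ≤ μ l + 1
  hMv : ∀ l, 1 ≤ Mv l
  two : ∀ l : Λ, ∃ l', l' ≠ l

theorem Pick.dat {ι Λ : Type} [Fintype ι] [Fintype Λ] {d M : ℕ} {m : ι → ℕ} {U : Finset ι}
    {μ w s Mv : Λ → ℕ} {v : ∀ l, Fin (s l) → ℕ} (S : Pick d M m μ w s Mv v)
    (hN : ∀ y : ι ⊕ Λ → ℕ, Near m U μ y → Nsp d y)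
    (hF : ∀ y : ι ⊕ Λ → ℕ, Far m U μ y → Free d y)
    (hm : ∀ i, i ∉ U → m i + 1 ≤ M) (hmd : ∀ i, m i + 1 ≤ d) (hμd : ∀ l, μ l + 2 ≤ d) :
    Dat d M m U μ w s Mv v where
  hN := hN
  hF := hF
  hm := hm
  hmd := hmd
  hμ := S.hμ
  hμd := hμd
  hχ := S.hχ
  room := S.room
  hNv := S.hNv
  hNv' := S.hNv'
  hv := S.hv
  hvμ := S.hvμ
  crit := S.crit
  hw := S.hw
  hMv := S.hMv
  two := S.two

/-- the choice of the clusters outside of `B` -/
theorem exists_pick (k : ℕ) : ∃ N₀ : ℕ, ∀ N ≥ N₀, 100 ≤ N ∧ ∀ (d u : ℕ) (ι : Type) [Fintype ι]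
    [DecidableEq ι] (m : ι → ℕ) (B : Finset ι), 1 ≤ u → u ≤ N ^ k → (∀ i, i ∉ B → m i ≤ u) →
    1000 * (u * N ^ 2) ^ 2 ≤ ∑ i ∈ Bᶜ, (m i + 1).choose 2 →
    ∑ i, (m i + 1).choose 2 + 1 = (d + 2).choose 2 →
    ∃ (C : Fin 200 → Finset ι) (μ w : Fin 200 → ℕ)
      (e : {i : ι // ∀ l, i ∉ C l} ⊕ (Σ l, Fin (C l).card) ≃ ι),
      (∀ i ∈ B, ∀ l, i ∉ C l) ∧
      (∀ z, e z = Sum.elim (fun i => i.1) (fun x => ((C x.1).equivFin.symm x.2).1) z) ∧
      (∀ l, u + 1 ≤ μ l ∧ μ l ≤ 3 * (u * N ^ 2)) ∧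
      Pick d (3 * (u * N ^ 2) + 1) (fun i : {i : ι // ∀ l, i ∉ C l} => m i.1) μ w
        (fun l => (C l).card) (fun _ => u + 1) (fun l j => m ((C l).equivFin.symm j).1) := by
  obtain ⟨R', hR'⟩ := ZC.exists_nsp (8 * k + 1) (by omega)
  obtain ⟨N₀, hN₀⟩ := ZC.exists_N k R'
  refine ⟨N₀, fun N hN => ?_⟩
  have hN100 : 100 ≤ N := (hN₀ N hN 0 (Nat.zero_le _)).2.2.2
  refine ⟨hN100, fun d M ι _ _ m B hM hMk hm htot hχ => ?_⟩
  have hMN : M ≤ (N + 1) ^ (8 * k) := by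
    calc M ≤ N ^ k := hMk
      _ ≤ (N + 1) ^ k := Nat.pow_le_pow_left (Nat.le_succ N) k
      _ ≤ (N + 1) ^ (8 * k) := Nat.pow_le_pow_right (Nat.succ_pos N) (by omega)
  obtain ⟨hpig, hM1, hRN, -⟩ := hN₀ N hN M hMN
  obtain ⟨t, ht⟩ : ∃ t, t = M ^ 2 * N ^ 4 := ⟨_, rfl⟩
  obtain ⟨L, hL⟩ : ∃ L, L = M * N ^ 2 := ⟨_, rfl⟩
  have htL : t = L * L := by
    rw [ht, hL]
    ring
  have hN2 : 10000 ≤ N ^ 2 := by nlinarith
  have huL : N * (N * M ^ 2) * 10000 ≤ L * L := by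
    rw [hL]
    calc N * (N * M ^ 2) * 10000 ≤ N * (N * M ^ 2) * N ^ 2 := Nat.mul_le_mul_left _ hN2
      _ = M * N ^ 2 * (M * N ^ 2) := by ring
  have hL0 : 10000 ≤ L := by
    rw [hL]
    calc 10000 ≤ 1 * N ^ 2 := by omega
      _ ≤ M * N ^ 2 := Nat.mul_le_mul_right _ hM
  have hML : M * 10000 ≤ L := by
    rw [hL]
    exact Nat.mul_le_mul_left _ hN2
  rw [← hL, pow_two L] at htot
  -- the clusters
  obtain ⟨S, hS⟩ : ∃ S : Finset ι, S = Finset.univ.filter (fun i => i ∉ B ∧ 1 ≤ m i) := ⟨_, rfl⟩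
  have hSsum : ∑ i ∈ S, (m i + 1).choose 2 = ∑ i ∈ Bᶜ, (m i + 1).choose 2 := by
    rw [hS]
    apply Finset.sum_subset
    · intro i hi
      rw [Finset.mem_filter] at hi
      exact Finset.mem_compl.mpr hi.2.1
    · intro i hi hi'
      have h2 : m i = 0 := by
        by_contra h3
        exact hi' (Finset.mem_filter.mpr ⟨Finset.mem_univ i, Finset.mem_compl.mp hi, by omega⟩)
      rw [h2]
      rfl
  have hc1 : ∀ i ∈ S, 1 ≤ (m i + 1).choose 2 := by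
    intro i hi
    rw [hS, Finset.mem_filter] at hi
    exact Nat.choose_pos (by omega)
  have hmS : ∀ i ∈ S, m i ≤ M := by
    intro i hi
    rw [hS, Finset.mem_filter] at hi
    exact hm i hi.2.1
  have hcK : ∀ i ∈ S, (m i + 1).choose 2 ≤ M ^ 2 := by
    intro i hi
    have h1 := ZC.pick_two_choose (m i)
    have h2 : m i * m i ≤ M * M := Nat.mul_le_mul (hmS i hi) (hmS i hi)
    have h3 := hmS i hi
    have h4 : M * 1 ≤ M * M := Nat.mul_le_mul_left _ hM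
    rw [pow_two]
    omega
  have ht4 : 10000 ≤ t := by
    rw [htL]
    calc 10000 ≤ L * 1 := by omega
      _ ≤ L * L := Nat.mul_le_mul_left _ (by omega)
  have hbig : 4 * ((200 + 1) * (t + N * (N * M ^ 2))) ≤ ∑ i ∈ S, (m i + 1).choose 2 := by
    omega
  obtain ⟨C, μ, w, hCS, hCd, hmid⟩ : ∃ (C : Fin 200 → Finset ι) (μ w : Fin 200 → ℕ),
      (∀ l, C l ⊆ S) ∧ (∀ l l', l ≠ l' → Disjoint (C l) (C l')) ∧
        ∀ l, ZC.Mid (fun i => (m i + 1).choose 2) t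
        (t + N * (N * M ^ 2)) (C l) (μ l) (w l) := by
    obtain ⟨C, μ, w, hCS, hCd, hmid⟩ := ZC.exists_clusters S (fun i => (m i + 1).choose 2) hc1 hcK
      hpig ht4 200 hbig
    exact ⟨fun l => C l, fun l => μ l, fun l => w l, fun l => hCS l l.2,
      fun l l' hne => hCd l l.2 l' l'.2 (fun h => hne (Fin.ext h)), fun l => hmid l l.2⟩
  have hnum : ∀ l, M * N ^ 2 ≤ μ l + 1 ∧ μ l ≤ 3 * (M * N ^ 2) ∧ M * N ^ 2 ≤ 8 * w l + 1 ∧
      w l + 2 * (M + 1) ≤ μ l + 1 ∧ N * (M + 1) + 1 ≤ μ l ∧ 2 * (M + 1) ≤ μ l := by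
    intro l
    obtain ⟨g1, g2, g3, g4, g5, g6⟩ := hmid l
    exact ZC.cluster_num hM hN100 ht rfl g1 g2 g3 g4 g5 g6 (ZC.pick_two_choose _)
  rw [← hL] at hnum ⊢
  obtain ⟨e, he⟩ := ZC.exists_split C hCd
  have h₀ : ∀ i ∈ B, ∀ l, i ∉ C l := by
    intro i hi l hl
    have := hCS l hl
    rw [hS, Finset.mem_filter] at this
    exact this.2.1 hi
  have hsplit : ∑ i : {i : ι // ∀ l : Fin 200, i ∉ C l}, (m i.1 + 1).choose 2 +
      ∑ l : Fin 200, ∑ j : Fin (C l).card, (m ((C l).equivFin.symm j).1 + 1).choose 2 =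
      ∑ i, (m i + 1).choose 2 := by
    rw [← Equiv.sum_comp e (fun i => (m i + 1).choose 2), Fintype.sum_sum_type,
      Fintype.sum_sigma]
    refine congrArg₂ (· + ·) (Finset.sum_congr rfl (fun i _ => ?_))
      (Finset.sum_congr rfl (fun l _ => Finset.sum_congr rfl (fun j _ => ?_)))
    · rw [he]
      rfl
    · rw [he]
      rfl
  have hcl : ∀ l : Fin 200, ∑ j : Fin (C l).card, (m ((C l).equivFin.symm j).1 + 1).choose 2 =
      (μ l + 1).choose 2 + w l := by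
    intro l
    rw [← (hmid l).1, Equiv.sum_comp (C l).equivFin.symm (fun i => (m i.1 + 1).choose 2)]
    exact Finset.sum_coe_sort (C l) (fun i => (m i + 1).choose 2)
  refine ⟨C, μ, w, e, h₀, he, fun l => ⟨?_, (hnum l).2.1⟩, ?_⟩
  · have := (hnum l).2.2.2.2.2
    omega
  refine
    { hμ := fun l => ?_
      hχ := ?_
      room := ?_
      hNv := fun l => ?_
      hNv' := fun l => ?_
      hv := fun l j => ?_
      hvμ := fun l => ?_
      crit := fun l => ?_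
      hw := fun l => ?_
      hMv := fun l => Nat.le_add_left 1 M
      two := fun l => ?_ }
  · have := (hnum l).2.1
    change μ l + 1 ≤ 3 * L + 1
    omega
  · rw [Finset.sum_congr rfl (fun l _ => hcl l), Finset.sum_add_distrib] at hsplit
    omega
  · calc 5 * (3 * L + 1) ≤ 200 * (L / 10) := by omega
      _ = ∑ l : Fin 200, L / 10 := by
          rw [Finset.sum_const, Finset.card_univ, Fintype.card_fin, smul_eq_mul]
      _ ≤ ∑ l : Fin 200, w l := Finset.sum_le_sum (fun l _ => by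
          have := (hnum l).2.2.1
          omega)
  · have h1 := (hnum l).2.2.2.2.1
    exact hR' (μ l) (M + 1) N (by omega) (by omega) hRN hM1
  · have h1 := (hnum l).2.2.2.2.1
    exact hR' (μ l - 1) (M + 1) N (by omega) (by omega) hRN hM1
  · exact Nat.add_le_add_right (hmS _ (hCS l ((C l).equivFin.symm j).2)) 1
  · exact (hnum l).2.2.2.2.2
  · exact hcl l
  · exact (hnum l).2.2.2.1
  · rcases eq_or_ne l 0 with h | h
    · exact ⟨1, by rw [h]; decide⟩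
    · exact ⟨0, h.symm⟩

/-- the size of the clusters -/
theorem exists_size (k N₀ : ℕ) (hk : 1 ≤ k) (u : ℕ) (hu : 1 ≤ u) : ∃ N ≥ N₀, u ≤ N ^ k ∧
    (N : ℝ) ≤ (N₀ + 2) * (u : ℝ) ^ (1 / (k : ℝ)) := by
  have hu1 : (1 : ℝ) ≤ u := by exact_mod_cast hu
  have hk0 : (0 : ℝ) < k := by exact_mod_cast hk
  have h1 : (1 : ℝ) ≤ (u : ℝ) ^ (1 / (k : ℝ)) := Real.one_le_rpow hu1 (by positivity)
  refine ⟨N₀ + ⌈(u : ℝ) ^ (1 / (k : ℝ))⌉₊, Nat.le_add_right _ _, ?_, ?_⟩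
  · have h2 : (u : ℝ) ≤ ((N₀ + ⌈(u : ℝ) ^ (1 / (k : ℝ))⌉₊ : ℕ) : ℝ) ^ k := by
      calc (u : ℝ) = ((u : ℝ) ^ (1 / (k : ℝ))) ^ k := by
            rw [← Real.rpow_natCast, ← Real.rpow_mul (by positivity), one_div,
              inv_mul_cancel₀ hk0.ne', Real.rpow_one]
        _ ≤ _ := by
            refine pow_le_pow_left₀ (by positivity) ((Nat.le_ceil _).trans ?_) k
            push_cast
            have : (0 : ℝ) ≤ N₀ := Nat.cast_nonneg _
            linarith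
    exact_mod_cast h2
  · push_cast
    have h3 := (Nat.ceil_lt_add_one (zero_le_one.trans h1)).le
    have h4 : (N₀ : ℝ) * 1 ≤ N₀ * (u : ℝ) ^ (1 / (k : ℝ)) :=
      mul_le_mul_of_nonneg_left h1 (Nat.cast_nonneg _)
    linarith

/-- the choice of the clusters outside of `B`, in terms of `ε` -/
theorem exists_pick_eps {ε : ℝ} (hε : 0 < ε) : ∃ c : ℝ, 0 < c ∧ ∀ (d u t : ℕ) (ι : Type)
    [Fintype ι] [DecidableEq ι] (m : ι → ℕ) (B : Finset ι), 1 ≤ u → (∀ i, i ∉ B → m i ≤ u) →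
    c * (u : ℝ) ^ (1 + ε) ≤ t →
    c * (u : ℝ) ^ (2 + ε) ≤ ∑ i ∈ Bᶜ, ((m i + 1).choose 2 : ℝ) →
    ∑ i, (m i + 1).choose 2 + 1 = (d + 2).choose 2 →
    ∃ (M : ℕ) (C : Fin 200 → Finset ι) (μ w : Fin 200 → ℕ)
      (e : {i : ι // ∀ l, i ∉ C l} ⊕ (Σ l, Fin (C l).card) ≃ ι),
      (∀ i ∈ B, ∀ l, i ∉ C l) ∧
      (∀ z, e z = Sum.elim (fun i => i.1) (fun x => ((C x.1).equivFin.symm x.2).1) z) ∧
      (∀ l, u + 1 ≤ μ l ∧ μ l + 4 ≤ t) ∧ u + 1 ≤ M ∧ M + 4 ≤ t ∧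
      Pick d M (fun i : {i : ι // ∀ l, i ∉ C l} => m i.1) μ w
        (fun l => (C l).card) (fun _ => u + 1) (fun l j => m ((C l).equivFin.symm j).1) := by
  obtain ⟨k, hk⟩ := exists_nat_ge (4 / ε)
  have hk0' : (0 : ℝ) < k := lt_of_lt_of_le (by positivity) hk
  have hk1 : 1 ≤ k := by
    rcases Nat.eq_zero_or_pos k with h | h
    · rw [h, Nat.cast_zero] at hk0'
      exact absurd hk0' (lt_irrefl _)
    · exact h
  have hkε : 4 / (k : ℝ) ≤ ε := by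
    rw [div_le_iff₀ hk0']
    rw [div_le_iff₀ hε] at hk
    linarith
  obtain ⟨N₀, hN₀⟩ := exists_pick k
  refine ⟨1000 * ((N₀ : ℝ) + 2) ^ 4, by positivity, fun d u t ι _ _ m B hu hm ht hB hχ => ?_⟩
  obtain ⟨N, hN, huN, hNle⟩ := exists_size k N₀ hk1 u hu
  obtain ⟨hN100, h⟩ := hN₀ N hN
  have hu1 : (1 : ℝ) ≤ u := by exact_mod_cast hu
  have hu0 : (0 : ℝ) < u := by linarith
  obtain ⟨x, hx⟩ : ∃ x : ℝ, x = (u : ℝ) ^ (1 / (k : ℝ)) := ⟨_, rfl⟩
  rw [← hx] at hNle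
  have hx1 : 1 ≤ x := by
    rw [hx]
    exact Real.one_le_rpow hu1 (by positivity)
  have hx4 : x ^ 4 ≤ (u : ℝ) ^ ε := by
    rw [hx, ← Real.rpow_natCast, ← Real.rpow_mul hu0.le]
    apply Real.rpow_le_rpow_of_exponent_le hu1
    calc 1 / (k : ℝ) * ((4 : ℕ) : ℝ) = 4 / k := by push_cast; ring
      _ ≤ ε := hkε
  have hx2 : x ^ 2 ≤ x ^ 4 := pow_le_pow_right₀ hx1 (by norm_num)
  have hN0 : (0 : ℝ) ≤ N := Nat.cast_nonneg _
  have hN0' : (0 : ℝ) ≤ N₀ := Nat.cast_nonneg _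
  have hN2 : (N : ℝ) ^ 2 ≤ (N₀ + 2) ^ 2 * x ^ 2 := by
    rw [← mul_pow]
    exact pow_le_pow_left₀ hN0 hNle 2
  have hN4 : (N : ℝ) ^ 4 ≤ (N₀ + 2) ^ 4 * x ^ 4 := by
    rw [← mul_pow]
    exact pow_le_pow_left₀ hN0 hNle 4
  -- the target sizes
  have ht' : 3 * (u * N ^ 2) + 5 ≤ t := by
    have h1 : (u : ℝ) * (N : ℝ) ^ 2 ≤ (N₀ + 2) ^ 4 * (u : ℝ) ^ (1 + ε) := by
      rw [Real.rpow_add hu0, Real.rpow_one]
      calc (u : ℝ) * (N : ℝ) ^ 2 ≤ u * ((N₀ + 2) ^ 2 * x ^ 2) :=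
            mul_le_mul_of_nonneg_left hN2 hu0.le
        _ ≤ u * ((N₀ + 2) ^ 4 * (u : ℝ) ^ ε) := by
            refine mul_le_mul_of_nonneg_left ?_ hu0.le
            exact mul_le_mul (pow_le_pow_right₀ (by linarith) (by norm_num)) (hx2.trans hx4)
              (by positivity) (by positivity)
        _ = (N₀ + 2) ^ 4 * (u * (u : ℝ) ^ ε) := by ring
    have h2 : (3 * (u * N ^ 2) + 5 : ℝ) ≤ t := by
      have h3 : (1 : ℝ) ≤ (u : ℝ) * (N : ℝ) ^ 2 := by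
        have h4 : (1 : ℝ) ≤ N := by
          have : (100 : ℝ) ≤ N := by exact_mod_cast hN100
          linarith
        nlinarith [one_le_pow₀ h4 (n := 2)]
      have h5 : (0 : ℝ) ≤ (N₀ + 2) ^ 4 * (u : ℝ) ^ (1 + ε) := by positivity
      nlinarith
    exact_mod_cast h2
  have hB' : 1000 * (u * N ^ 2) ^ 2 ≤ ∑ i ∈ Bᶜ, (m i + 1).choose 2 := by
    have h1 : (1000 * (u * N ^ 2) ^ 2 : ℝ) ≤ ∑ i ∈ Bᶜ, ((m i + 1).choose 2 : ℝ) := by
      refine le_trans ?_ hB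
      have h2 : (u : ℝ) ^ (2 + ε) = u ^ 2 * (u : ℝ) ^ ε := by
        rw [Real.rpow_add hu0]
        norm_num
      rw [h2]
      calc (1000 * (u * N ^ 2) ^ 2 : ℝ) = 1000 * (u ^ 2 * N ^ 4) := by ring
        _ ≤ 1000 * (u ^ 2 * ((N₀ + 2) ^ 4 * (u : ℝ) ^ ε)) := by
            have h3 := hN4.trans (mul_le_mul_of_nonneg_left hx4
              (show (0 : ℝ) ≤ (N₀ + 2) ^ 4 by positivity))
            have h4 : (0 : ℝ) ≤ (u : ℝ) ^ 2 := by positivity
            nlinarith [mul_le_mul_of_nonneg_left h3 h4]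
        _ = 1000 * (N₀ + 2) ^ 4 * (u ^ 2 * (u : ℝ) ^ ε) := by ring
    exact_mod_cast h1
  obtain ⟨C, μ, w, e, hCB, he, hμ, hP⟩ := h d u ι m B hu huN hm hB' hχ
  have huN' : u * 1 ≤ u * N ^ 2 := Nat.mul_le_mul_left _ (Nat.one_le_pow _ _ (by omega))
  refine ⟨3 * (u * N ^ 2) + 1, C, μ, w, e, hCB, he, fun l => ⟨(hμ l).1, ?_⟩, ?_, ?_, hP⟩
  · have := (hμ l).2
    omega
  · omega
  · omega

end Pool.Agent.Work.MP_0421d9_ag.ZE
end

section
/-!
The number of the conditions imposed by the points outside of a reduced set.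
-/

set_option linter.unusedSectionVars false

namespace Pool.Agent.Work.MP_0421d9_ag.ZE

open MvPolynomial Module

/-- the self-intersection of a reduced class, on a subset -/
theorem sq_le_of_reduced {ι : Type} [Fintype ι] [DecidableEq ι] {d : ℕ} {m : ι → ℕ} {B : Finset ι}
    (h3 : ∀ J ⊆ B, J.card ≤ 3 → ∑ i ∈ J, m i ≤ d) (hK : ∑ i ∈ B, m i ≤ 3 * d) :
    ∑ i ∈ B, m i ^ 2 ≤ d ^ 2 := by
  classical
  -- padding with three points of multiplicity zero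
  obtain ⟨a, ha⟩ : ∃ a : ι ⊕ Fin 3 → ℕ, a = Sum.elim (fun i => if i ∈ B then m i else 0)
    (fun _ => 0) := ⟨_, rfl⟩
  have hal : ∀ i, a (Sum.inl i) = if i ∈ B then m i else 0 := fun i => by rw [ha]; rfl
  have har : ∀ j, a (Sum.inr j) = 0 := fun j => by rw [ha]; rfl
  have hsum : ∀ f : ℕ → ℕ, f 0 = 0 → ∑ x, f (a x) = ∑ i ∈ B, f (m i) := by
    intro f hf
    have h0 : ∑ j : Fin 3, f (a (Sum.inr j)) = 0 :=
      Finset.sum_eq_zero (fun j _ => by rw [har, hf])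
    rw [Fintype.sum_sum_type, h0, add_zero,
      ← Finset.sum_filter_add_sum_filter_not Finset.univ (fun i => i ∈ B) (fun i => f (a (Sum.inl i)))]
    have h1 : ∑ i ∈ Finset.univ.filter (fun i => ¬ i ∈ B), f (a (Sum.inl i)) = 0 := by
      refine Finset.sum_eq_zero (fun i hi => ?_)
      rw [hal, if_neg (Finset.mem_filter.mp hi).2, hf]
    rw [h1, add_zero, Finset.filter_mem_eq_inter, Finset.univ_inter]
    exact Finset.sum_congr rfl (fun i hi => by rw [hal, if_pos hi])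
  -- three points
  have htrip : ∀ x y z, x ≠ y → x ≠ z → y ≠ z → a x + a y + a z ≤ d := by
    intro x y z hxy hxz hyz
    obtain ⟨T, hT⟩ : ∃ T : Finset (ι ⊕ Fin 3), T = {x, y, z} := ⟨_, rfl⟩
    have hTs : ∑ t ∈ T, a t = a x + a y + a z := by
      rw [hT, Finset.sum_insert (by
        rw [Finset.mem_insert, Finset.mem_singleton, not_or]
        exact ⟨hxy, hxz⟩), Finset.sum_pair hyz]
      ring
    have hTc : T.card ≤ 3 := by
      rw [hT]
      exact Finset.card_le_three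
    obtain ⟨J, hJ⟩ : ∃ J : Finset ι, J = B.filter (fun i => Sum.inl i ∈ T) := ⟨_, rfl⟩
    have h1 : ∑ t ∈ T, a t ≤ ∑ i ∈ J, m i := by
      have h2 : ∑ i ∈ J, m i = ∑ t ∈ J.map ⟨Sum.inl, Sum.inl_injective⟩, a t := by
        rw [Finset.sum_map]
        refine Finset.sum_congr rfl (fun i hi => ?_)
        rw [hJ, Finset.mem_filter] at hi
        change m i = a (Sum.inl i)
        rw [hal, if_pos hi.1]
      rw [h2]
      refine le_of_eq (Finset.sum_subset (fun t ht => ?_) (fun t ht ht' => ?_)).symm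
      · rw [Finset.mem_map] at ht
        obtain ⟨i, hi, rfl⟩ := ht
        rw [hJ, Finset.mem_filter] at hi
        exact hi.2
      · rcases t with i | j
        · rw [hal]
          split_ifs with hi
          · exfalso
            exact ht' (Finset.mem_map.mpr ⟨i, by
              rw [hJ, Finset.mem_filter]
              exact ⟨hi, ht⟩, rfl⟩)
          · rfl
        · exact har j
    have h3 : J.card ≤ 3 := by
      refine le_trans ?_ hTc
      rw [← Finset.card_map ⟨Sum.inl, Sum.inl_injective⟩]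
      refine Finset.card_le_card (fun t ht => ?_)
      rw [Finset.mem_map] at ht
      obtain ⟨i, hi, rfl⟩ := ht
      rw [hJ, Finset.mem_filter] at hi
      exact hi.2
    have h4 := ‹∀ J ⊆ B, J.card ≤ 3 → ∑ i ∈ J, m i ≤ d› J (by
      rw [hJ]
      exact Finset.filter_subset _ _) h3
    omega
  obtain ⟨e, -⟩ : ∃ e : ι ⊕ Fin 3 ≃ Fin (Fintype.card (ι ⊕ Fin 3)), True :=
    ⟨Fintype.equivFin _, trivial⟩
  have hN : 3 ≤ Fintype.card (ι ⊕ Fin 3) := by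
    rw [Fintype.card_sum, Fintype.card_fin]
    omega
  have h5 := LD.reduced_sq (D := d) hN (a := fun k => a (e.symm k)) (fun i j k hij hik hjk =>
    htrip _ _ _ (fun h => hij (e.symm.injective h)) (fun h => hik (e.symm.injective h))
      (fun h => hjk (e.symm.injective h))) (by
    rw [Equiv.sum_comp e.symm a]
    have h6 := hsum (fun n => n) rfl
    rw [h6]
    exact hK)
  rw [Equiv.sum_comp e.symm (fun x => a x ^ 2)] at h5
  have h6 := hsum (fun n => n ^ 2) (by norm_num)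
  rw [h6] at h5
  exact h5

/-- the points outside of a reduced set impose at least half of `3 d - ∑ i ∈ B, m i` conditions -/
theorem off_count {ι : Type} [Fintype ι] [DecidableEq ι] {d : ℕ} {m : ι → ℕ} {B : Finset ι}
    (h3 : ∀ J ⊆ B, J.card ≤ 3 → ∑ i ∈ J, m i ≤ d) (hK : ∑ i ∈ B, m i ≤ 3 * d)
    (hχ : ∑ i, (m i + 1).choose 2 + 1 = (d + 2).choose 2) :
    3 * d ≤ ∑ i ∈ B, m i + 2 * ∑ i ∈ Bᶜ, (m i + 1).choose 2 := by
  have h1 := sq_le_of_reduced h3 hK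
  have h2 := Finset.sum_add_sum_compl B (fun i => (m i + 1).choose 2)
  have two : ∀ n : ℕ, 2 * (n + 1).choose 2 = n ^ 2 + n := by
    intro n
    induction n with
    | zero => rfl
    | succ n ih =>
      have h2 : (n + 1 + 1).choose 2 = (n + 1).choose 2 + (n + 1) := by
        rw [Nat.choose_succ_succ' (n + 1) 1, Nat.choose_one_right]
        exact Nat.add_comm _ _
      rw [h2, Nat.mul_add, ih]
      ring
  have h4 : 2 * ∑ i ∈ B, (m i + 1).choose 2 = ∑ i ∈ B, m i ^ 2 + ∑ i ∈ B, m i := by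
    rw [Finset.mul_sum, ← Finset.sum_add_distrib]
    exact Finset.sum_congr rfl (fun i _ => two (m i))
  have h5 := two (d + 1)
  have h6 : (d + 1) ^ 2 = d ^ 2 + 2 * d + 1 := by ring
  have h7 : (d + 1 + 1).choose 2 = (d + 2).choose 2 := rfl
  omega

end Pool.Agent.Work.MP_0421d9_ag.ZE
end

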