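import Pool.Agent.Work.Z0421M.C40
import Pool.Agent.Work.Z0421M.C47
import Pool.Agent.Work.Z0421M.C48
import Pool.Agent.Work.Z0421M.C49
import Pool.Agent.Work.Z0421M.C50

section
/-!
Collisions of generic points, relative version: the data in the case in which lines suffice for the
points in `U`.
-/

set_option linter.unusedSectionVars false
set_option linter.unusedVariables false

namespace Pool.Agent.Work.MP_0421d9_ag.ZE

open MvPolynomial Module SM ZC

/-- the numerical data of a collision, the points in `U` are treated by lines -/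
structure LDat {ι Λ : Type} [Fintype ι] [Fintype Λ] (d M : ℕ) (m : ι → ℕ) (U : Finset ι)
    (μ w s Mv : Λ → ℕ) (v : ∀ l, Fin (s l) → ℕ) : Prop where
  hN : ∀ y : ι ⊕ Λ → ℕ, Near m U μ y → Nsp d y
  hm : ∀ i, i ∉ U → m i + 1 ≤ M
  hμ : ∀ l, μ l + 1 ≤ M
  hd : ∑ l, (μ l + 2) + ∑ b ∈ U, m b + 2 * M ≤ d
  hχ : ∑ i, (m i + 1).choose 2 + ∑ l, (μ l + 1).choose 2 + ∑ l, w l + 1 = (d + 2).choose 2
  room : 5 * M ≤ ∑ l, w l
  hNv : ∀ l, NSp (Mv l) (μ l)
  hNv' : ∀ l, NSp (Mv l) (μ l - 1)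
  hv : ∀ l j, v l j + 1 ≤ Mv l
  hvμ : ∀ l, 2 * Mv l ≤ μ l
  crit : ∀ l, ∑ j, (v l j + 1).choose 2 = (μ l + 1).choose 2 + w l
  hw : ∀ l, w l + 2 * Mv l ≤ μ l + 1
  hMv : ∀ l, 1 ≤ Mv l
  two : ∀ l : Λ, ∃ l', l' ≠ l

theorem LDat.dat {ι Λ : Type} [Fintype ι] [Fintype Λ] [DecidableEq ι] [DecidableEq Λ] [Nonempty Λ]
    {d M : ℕ} {m : ι → ℕ} {U : Finset ι} {μ w s Mv : Λ → ℕ} {v : ∀ l, Fin (s l) → ℕ}
    (S : LDat d M m U μ w s Mv v) : Dat d M m U μ w s Mv v where
  hN := S.hN
  hF := fun y hy => free_of_far (fun i hi => by have := S.hm i hi; omega) S.hd hy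
  hm := S.hm
  hmd := fun i => by
    have h1 := S.hd
    obtain ⟨l₀⟩ := ‹Nonempty Λ›
    have h2 := S.hμ l₀
    by_cases hi : i ∈ U
    · have h3 : m i ≤ ∑ b ∈ U, m b := Finset.single_le_sum (fun _ _ => Nat.zero_le _) hi
      omega
    · have h3 := S.hm i hi
      omega
  hμ := S.hμ
  hμd := fun l => by
    have h1 := S.hd
    have h2 : μ l + 2 ≤ ∑ l, (μ l + 2) :=
      Finset.single_le_sum (f := fun l => μ l + 2) (fun _ _ => Nat.zero_le _) (Finset.mem_univ l)
    omega
  hχ := S.hχ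
  room := S.room
  hNv := S.hNv
  hNv' := S.hNv'
  hv := S.hv
  hvμ := S.hvμ
  crit := S.crit
  hw := S.hw
  hMv := S.hMv
  two := S.two

end Pool.Agent.Work.MP_0421d9_ag.ZE
end

section
/-!
Relative version of the collision argument: systems without base points and with all leading forms.
-/

set_option linter.unusedSectionVars false
set_option linter.unusedVariables false

namespace Pool.Agent.Work.MP_0421d9_ag.ZE

open MvPolynomial Module SM ZC LD

/-- the multiplicities as a function on `Fin` -/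
noncomputable def fn {κ : Type} [Fintype κ] (y : κ → ℕ) : Fin (Fintype.card κ) → ℕ :=
  fun k => y ((Fintype.equivFin κ).symm k)

/-- `hPm` is the dimension for arbitrary index types -/
theorem finrank_eq_hPm {κ : Type} [Fintype κ] {d : ℕ} {y : κ → ℕ} {p : κ → V3}
    (hp : GenericPoints p) : finrank ℂ (linSys d p y) = hPm d (fn y) := by
  classical
  obtain ⟨e, he⟩ : ∃ e, e = Fintype.equivFin κ := ⟨_, rfl⟩
  have h1 : linSys d p y = linSys d (fun k => p (e.symm k)) (fun k => y (e.symm k)) := by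
    ext F
    constructor
    · rintro ⟨h1, h2⟩
      exact ⟨h1, fun k => h2 _⟩
    · rintro ⟨h1, h2⟩
      refine ⟨h1, fun i => ?_⟩
      have := h2 (e i)
      simpa using this
  have h2 : GenericPoints (fun k => p (e.symm k)) := by
    unfold GenericPoints at hp ⊢
    exact hp.comp (fun z : Fin (Fintype.card κ) × Fin 3 => (e.symm z.1, z.2))
      (fun z z' hz => by
        obtain ⟨z1, z2⟩ := z
        obtain ⟨z1', z2'⟩ := z'
        dsimp only at hz
        rw [Prod.mk.injEq] at hz ⊢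
        exact ⟨e.symm.injective hz.1, hz.2⟩)
  rw [h1, LD.hPm_eq h2]
  unfold fn
  rw [he]

theorem sum_fn {κ : Type} [Fintype κ] (y : κ → ℕ) (f : ℕ → ℕ) :
    ∑ k, f (fn y k) = ∑ j, f (y j) :=
  Equiv.sum_comp (Fintype.equivFin κ).symm (fun j => f (y j))

/-- regular systems -/
def Reg {κ : Type} [Fintype κ] (d : ℕ) (y : κ → ℕ) : Prop :=
  hPm d (fn y) + ∑ j, (y j + 1).choose 2 = (d + 2).choose 2

theorem Reg.nsp {κ : Type} [Fintype κ] {d : ℕ} {y : κ → ℕ} (h : Reg d y) : Nsp d y := by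
  intro p hp
  rw [finrank_eq_hPm hp]
  unfold Reg at h
  omega

theorem Reg.le {κ : Type} [Fintype κ] {d : ℕ} {y : κ → ℕ} (h : Reg d y) :
    ∑ j, (y j + 1).choose 2 ≤ (d + 2).choose 2 := by
  unfold Reg at h
  omega

/-- systems which are nef on the exceptional classes -/
theorem reg_of_nef {κ : Type} [Fintype κ] (hκ : 3 ≤ Fintype.card κ) {d : ℕ} {y : κ → ℕ}
    (h : NefN d (fn y)) (hK : ∑ j, y j + 1 ≤ 3 * d) : Reg d y := by
  have h1 := nefN_regular hκ d (fn y) h (by
    rw [sum_fn y (fun n => n)]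
    exact hK)
  rw [sum_fn y (fun n => (n + 1).choose 2)] at h1
  exact h1

theorem far_raise {κ : Type} [Fintype κ] {τ d : ℕ} {y y' : κ → ℕ} (h : FarN (τ + 1) d (fn y))
    (i : κ) (hi : y' i ≤ y i + 1) (ha : ∀ j, j ≠ i → y' j = y j) (hi' : y i ≤ y' i) :
    FarN τ d (fn y') := by
  have h1 : ∀ z : κ → ℕ, fn z (Fintype.equivFin κ i) = z i := fun z => by
    unfold fn
    rw [Equiv.symm_apply_apply]
  refine h.raise (Fintype.equivFin κ i) ?_ ?_ ?_
  · rw [h1, h1]
    exact hi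
  · intro k hk
    unfold fn
    apply ha
    intro h2
    apply hk
    rw [← h2, Equiv.apply_symm_apply]
  · rw [h1, h1]
    exact hi'

/-- systems whose class is far from the exceptional classes, even if some of the multiplicities are
lowered -/
def FarB {κ : Type} [Fintype κ] (d : ℕ) (y : κ → ℕ) : Prop :=
  ∀ y₀ : κ → ℕ, (∀ x, y₀ x ≤ y x) → FarN 2 d (fn y₀)

/-- one multiplicity is lowered, then two are raised -/
theorem FarB.reg {κ : Type} [Fintype κ] (hκ : 3 ≤ Fintype.card κ) {d : ℕ} {y : κ → ℕ}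
    (hF : FarB d y) (hK : ∑ j, y j + 3 ≤ 3 * d) {y₀ y₁ y₂ : κ → ℕ} (h0 : ∀ x, y₀ x ≤ y x) (i i' : κ)
    (h1 : y₁ i ≤ y₀ i + 1) (h1' : ∀ x, x ≠ i → y₁ x = y₀ x) (h1'' : y₀ i ≤ y₁ i)
    (h2 : y₂ i' ≤ y₁ i' + 1) (h2' : ∀ x, x ≠ i' → y₂ x = y₁ x) (h2'' : y₁ i' ≤ y₂ i') :
    Reg d y₂ := by
  classical
  have hf := far_raise (far_raise (hF y₀ h0) i h1 h1' h1'') i' h2 h2' h2''
  refine reg_of_nef hκ ?_ ?_
  · have := hf.nef (v := 0) le_rfl (Nat.zero_le d)
    rwa [Nat.sub_zero] at this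
  · have e1 : ∀ (a b : κ → ℕ) (j : κ), b j ≤ a j + 1 → (∀ x, x ≠ j → b x = a x) →
        ∑ x, b x ≤ ∑ x, a x + 1 := by
      intro a b j hj hx
      have h3 : ∑ x ∈ Finset.univ.erase j, b x = ∑ x ∈ Finset.univ.erase j, a x :=
        Finset.sum_congr rfl (fun x hx' => hx x (Finset.ne_of_mem_erase hx'))
      have h4 := Finset.add_sum_erase Finset.univ b (Finset.mem_univ j)
      have h5 := Finset.add_sum_erase Finset.univ a (Finset.mem_univ j)
      omega
    have e2 := e1 y₀ y₁ i h1 h1'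
    have e3 := e1 y₁ y₂ i' h2 h2'
    have e4 : ∑ x, y₀ x ≤ ∑ x, y x := Finset.sum_le_sum (fun x _ => h0 x)
    omega

/-- existence of leading forms -/
theorem FarB.exists_ld {κ : Type} [Fintype κ] [DecidableEq κ] (hκ : 3 ≤ Fintype.card κ) {d : ℕ}
    {y : κ → ℕ} (hF : FarB d y) (hK : ∑ j, y j + 3 ≤ 3 * d) {p : κ → V3} (hp : GenericPoints p)
    (i i' : κ) {j : ℕ} (hj : j ≤ y i) (hjd : j ≤ d) {β : R2} (hβ : β.IsHomogeneous j) :
    ∃ H ∈ linSys d p (fun x => if x = i then j else y x + if x = i' then 1 else 0),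
      ld d j (p i) H = β := by
  obtain ⟨y₀, hy₀⟩ : ∃ y₀ : κ → ℕ, y₀ = fun x => if x = i then j else y x := ⟨_, rfl⟩
  obtain ⟨y₁, hy₁⟩ : ∃ y₁ : κ → ℕ, y₁ = fun x => if x = i then j else
    y x + if x = i' then 1 else 0 := ⟨_, rfl⟩
  rw [← hy₁]
  have h0 : ∀ x, y₀ x ≤ y x := by
    intro x
    rw [hy₀]
    dsimp only
    split_ifs with h
    · rw [h]
      exact hj
    · exact le_rfl
  have hi : y₁ i = j := by
    rw [hy₁]
    dsimp only
    rw [if_pos rfl]
  have r1 : Reg d y₁ := by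
    refine hF.reg hκ hK h0 i' i (y₁ := y₁) ?_ ?_ ?_ (Nat.le_succ _) (fun x _ => rfl) le_rfl
    · rw [hy₀, hy₁]
      dsimp only
      split_ifs <;> omega
    · intro x hx
      rw [hy₀, hy₁]
      dsimp only
      rw [if_neg hx, Nat.add_zero]
    · rw [hy₀, hy₁]
      dsimp only
      split_ifs <;> omega
  have r2 : Reg d (Function.update y₁ i (y₁ i + 1)) := by
    refine hF.reg hκ hK h0 i' i (y₁ := y₁) ?_ ?_ ?_ ?_ (fun x hx => ?_) ?_
    · rw [hy₀, hy₁]
      dsimp only
      split_ifs <;> omega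
    · intro x hx
      rw [hy₀, hy₁]
      dsimp only
      rw [if_neg hx, Nat.add_zero]
    · rw [hy₀, hy₁]
      dsimp only
      split_ifs <;> omega
    · rw [Function.update_self]
    · rw [Function.update_of_ne hx]
    · rw [Function.update_self]
      exact Nat.le_succ _
  have hχ : ∑ x, (y₁ x + 1).choose 2 + (y₁ i + 1) ≤ (d + 2).choose 2 := by
    have h3 := r2.le
    rw [← Finset.add_sum_erase _ _ (Finset.mem_univ i)] at h3 ⊢
    rw [Finset.sum_congr rfl (fun x hx => by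
      rw [Function.update_of_ne (Finset.ne_of_mem_erase hx)])] at h3
    rw [Function.update_self, zc_choose_succ] at h3
    omega
  have h4 := exists_of_Nsp r1.nsp r2.nsp (by rw [hi]; exact hjd) hχ hp (β := β) (by
    rw [hi]
    exact hβ)
  rwa [hi] at h4

/-- **Systems without base points and with all leading forms.** -/
theorem FarB.free {κ : Type} [Fintype κ] [DecidableEq κ] (hκ : 3 ≤ Fintype.card κ) {d : ℕ}
    {y : κ → ℕ} (hF : FarB d y) (hK : ∑ j, y j + 3 ≤ 3 * d) : Free d y := by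
  have hle : ∀ x, y x + 2 ≤ d := by
    intro x
    have h1 := (hF y (fun _ => le_rfl)).le hκ (Fintype.equivFin κ x)
    unfold fn at h1
    rwa [Equiv.symm_apply_apply] at h1
  refine ⟨fun p hp q hq hqp => ?_, fun p hp j β hβ => ?_⟩
  · by_contra hcon
    push Not at hcon
    obtain ⟨E, hE2, hEp, hEp'⟩ := exists_movers hp
    have S : Chn (Λ := Empty) 3 d d p y (fun l => l.elim) (diagB d) (fun l => l.elim) E
        (fun l => l.elim) :=
      { hd := fun i => by have := hle i; omega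
        hp := fun i => coord_ne_zero hp i 2
        hom1 := fun H hH => hH.2
        hom2 := fun H hH => by
          rw [← hH.1]
          exact hH.2
        E2 := hE2
        Ep := hEp
        Ep' := hEp'
        Dp := fun l => l.elim
        stE := fun i k H hH => ⟨by
          change cD (E i k) H.1 = cD (E i k) H.2
          rw [hH.1], cD_isHomogeneous (E i k) hH.2⟩
        stD := fun l => l.elim
        lawE := fun i k l => l.elim
        lawD := fun l => l.elim
        lawD' := fun l => l.elim }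
    refine S.bpf le_rfl ?_ hq ?_ ?_
    · intro i i' I _ j hj1 hjm β hβ
      obtain ⟨H, hH, hld⟩ := hF.exists_ld hκ hK hp i i' hjm (by have := hle i; omega) hβ
      refine ⟨(H, H), ⟨rfl, hH.1⟩, ?_, hld, fun x hx => ?_, fun l => l.elim⟩
      · have := hH.2 i
        simpa using this
      · have := hH.2 x
        simp only [hx, if_false] at this
        exact this
    · intro H hH
      rw [evL_apply, ← hH.1.1]
      exact hcon _ hH.2
    · intro T hT
      obtain ⟨H, hH, hv, hne⟩ := exists_form_ne (κ := T) (Q := fun x => p x) (a := fun x => y x) hq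
        (fun x => hqp x) (d := d) (by
          have h1 : ∑ x : T, y x ≤ ∑ _x : T, d :=
            Finset.sum_le_sum (fun x _ => by have := hle x; omega)
          rw [Finset.sum_const, Finset.card_univ, Fintype.card_coe, smul_eq_mul] at h1
          have h2 : T.card * d ≤ 1 * d := Nat.mul_le_mul_right _ hT
          omega)
      exact ⟨(H, H), ⟨rfl, hH⟩, fun i hi => hv ⟨i, hi⟩, hne⟩
  · obtain ⟨H, hH, hld⟩ := hF.exists_ld hκ hK hp j j (le_refl (y j)) (by have := hle j; omega) hβ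
    refine ⟨H, ⟨hH.1, fun x => ?_⟩, hld⟩
    have h1 := hH.2 x
    by_cases hx : x = j
    · subst hx
      simpa using h1
    · simp only [hx, if_false, Nat.add_zero] at h1
      exact h1

/-- reduced systems -/
theorem farB_of_reduced {κ : Type} [Fintype κ] (hκ : 3 ≤ Fintype.card κ) {d : ℕ} {y : κ → ℕ}
    (hred : ∀ i j k, i ≠ j → i ≠ k → j ≠ k → y i + y j + y k ≤ d)
    (hpair : ∀ i j, i ≠ j → y i + y j + 4 ≤ d) (hK : ∑ i, y i + 36 ≤ 3 * d) : FarB d y := by
  intro y₀ h0
  have hinj := (Fintype.equivFin κ).symm.injective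
  refine far_of_reduced hκ (fun i j k hij hik hjk => ?_) (fun i j hij => ?_) ?_
  · have h1 := hred _ _ _ (hinj.ne hij) (hinj.ne hik) (hinj.ne hjk)
    have h2 := h0 ((Fintype.equivFin κ).symm i)
    have h3 := h0 ((Fintype.equivFin κ).symm j)
    have h4 := h0 ((Fintype.equivFin κ).symm k)
    unfold fn
    omega
  · have h1 := hpair _ _ (hinj.ne hij)
    have h2 := h0 ((Fintype.equivFin κ).symm i)
    have h3 := h0 ((Fintype.equivFin κ).symm j)
    unfold fn
    omega
  · have h1 : ∑ x, y₀ x ≤ ∑ x, y x := Finset.sum_le_sum (fun x _ => h0 x)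
    have h2 := sum_fn y₀ (fun n => n)
    omega

end Pool.Agent.Work.MP_0421d9_ag.ZE
end

section
/-!
General members of systems with few large points are smooth.
-/

set_option linter.unusedSectionVars false

namespace Pool.Agent.Work.MP_0421d9_ag.ZE

open MvPolynomial Module SM ZC

/-- from rigid systems to general members -/
theorem not_bad_of_rigid {r d : ℕ} {p : Fin r → V3} {m : Fin r → ℕ}
    (hns : finrank ℂ (linSys d p m) = (d + 2).choose 2 - ∑ i, (m i + 1).choose 2)
    (s : Fin (finrank ℂ (linSys d p m) - 1) → Fin 3 → ℂ) (hs : GenericPoints (Sum.elim p s))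
    (h : ∑ x, (Sum.elim m (fun _ : Fin (finrank ℂ (linSys d p m) - 1) => 1) x + 1).choose 2 + 1 =
        (d + 2).choose 2 →
      ∀ F ∈ linSys d (Sum.elim p s) (Sum.elim m (fun _ => 1)), F ≠ 0 →
        ¬ Bad d (Sum.elim p s) (Sum.elim m (fun _ => 1)) F) :
    ∀ F ∈ linSys d p m, F ≠ 0 → (∀ k, eval (s k) F = 0) → ¬ Bad d p m F := by
  intro F hF hF0 hFs
  have hfin : Module.Finite ℂ (linSys d p m) :=
    Submodule.finiteDimensional_of_le (linSys_le d p _)
  have hpos : finrank ℂ (linSys d p m) ≠ 0 := by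
    intro h0
    have h3 := Submodule.finrank_eq_zero.mp h0
    rw [h3] at hF
    exact hF0 hF
  apply not_bad_of_extended (s := s) hF.1 (fun j => point_ne_zero hs (Sum.inr j))
  refine h ?_ F ⟨hF.1, ?_⟩ hF0
  · rw [sum_simple]
    omega
  · rintro (i | j)
    · exact hF.2 i
    · exact vanishTo_one_iff.mpr (hFs j)

end Pool.Agent.Work.MP_0421d9_ag.ZE
end

section
/-!
Relative version of the collision argument: Cremona-reduced systems. The points of `B` have
arbitrary multiplicities and are not moved.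
-/

set_option linter.unusedSectionVars false
set_option linter.unusedVariables false

namespace Pool.Agent.Work.MP_0421d9_ag.ZE

open MvPolynomial Module SM ZC LD

/-- the degree is at least the sum of any three of the multiplicities in `B`, where one or several
of them can be replaced by `t`; and the degree on an anticanonical curve is large -/
structure RedC {κ : Type} (t d : ℕ) (m : κ → ℕ) (B : Finset κ) : Prop where
  sum : ∀ J ⊆ B, J.card ≤ 3 → ∑ i ∈ J, m i + (3 - J.card) * t ≤ d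
  can : ∑ i ∈ B, m i + 100 * (t + 1) ^ 2 ≤ 3 * d

section redC

variable {κ : Type} {t d : ℕ} {m : κ → ℕ} {B : Finset κ}

theorem RedC.t0 (h : RedC t d m B) : 3 * t ≤ d := by
  have h1 := h.sum ∅ (Finset.empty_subset _) (by simp)
  rw [Finset.sum_empty, Finset.card_empty] at h1
  omega

theorem RedC.t1 (h : RedC t d m B) {i : κ} (hi : i ∈ B) : m i + 2 * t ≤ d := by
  have h1 := h.sum {i} (Finset.singleton_subset_iff.mpr hi) (by rw [Finset.card_singleton]; omega)
  rw [Finset.sum_singleton, Finset.card_singleton] at h1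
  exact h1

theorem RedC.t2 (h : RedC t d m B) {i j : κ} (hi : i ∈ B) (hj : j ∈ B) (hij : i ≠ j) :
    m i + m j + t ≤ d := by
  classical
  have h1 := h.sum {i, j} (fun l hl => by
    rcases Finset.mem_insert.mp hl with hl | hl
    · rw [hl]
      exact hi
    · rw [Finset.mem_singleton.mp hl]
      exact hj) (by rw [Finset.card_pair hij]; omega)
  rw [Finset.sum_pair hij, Finset.card_pair hij] at h1
  omega

theorem RedC.t3 (h : RedC t d m B) {i j k : κ} (hi : i ∈ B) (hj : j ∈ B) (hk : k ∈ B)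
    (hij : i ≠ j) (hik : i ≠ k) (hjk : j ≠ k) : m i + m j + m k ≤ d := by
  classical
  have hc : ({i, j, k} : Finset κ).card = 3 := Finset.card_eq_three.mpr ⟨i, j, k, hij, hik, hjk, rfl⟩
  have h1 := h.sum {i, j, k} (fun l hl => by
    rcases Finset.mem_insert.mp hl with hl | hl
    · rw [hl]
      exact hi
    · rcases Finset.mem_insert.mp hl with hl | hl
      · rw [hl]
        exact hj
      · rw [Finset.mem_singleton.mp hl]
        exact hk) (by rw [hc])
  rw [hc, Finset.sum_insert (by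
    rw [Finset.mem_insert, Finset.mem_singleton, not_or]
    exact ⟨hij, hik⟩), Finset.sum_pair hjk] at h1
  omega

/-- the sum of any three multiplicities -/
theorem RedC.any3 (h : RedC t d m B) (hs : ∀ i, i ∉ B → m i ≤ t) {i j k : κ} (hij : i ≠ j)
    (hik : i ≠ k) (hjk : j ≠ k) : m i + m j + m k ≤ d := by
  have h0 := h.t0
  by_cases hi : i ∈ B <;> by_cases hj : j ∈ B <;> by_cases hk : k ∈ B
  · exact h.t3 hi hj hk hij hik hjk
  · have := h.t2 hi hj hij
    have := hs k hk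
    omega
  · have := h.t2 hi hk hik
    have := hs j hj
    omega
  · have := h.t1 hi
    have := hs k hk
    have := hs j hj
    omega
  · have := h.t2 hj hk hjk
    have := hs i hi
    omega
  · have := h.t1 hj
    have := hs k hk
    have := hs i hi
    omega
  · have := h.t1 hk
    have := hs i hi
    have := hs j hj
    omega
  · have := hs i hi
    have := hs j hj
    have := hs k hk
    omega

/-- the sum of any two multiplicities -/
theorem RedC.any2 (h : RedC t d m B) (hs : ∀ i, i ∉ B → m i ≤ t) {i j : κ} (hij : i ≠ j) :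
    m i + m j + t ≤ d := by
  have h0 := h.t0
  by_cases hi : i ∈ B <;> by_cases hj : j ∈ B
  · exact h.t2 hi hj hij
  · have := h.t1 hi
    have := hs j hj
    omega
  · have := h.t1 hj
    have := hs i hi
    omega
  · have := hs i hi
    have := hs j hj
    omega

end redC

/-- reduced systems are nonspecial -/
theorem nsp_of_redC {κ : Type} [Fintype κ] {t d : ℕ} {y : κ → ℕ} {B : Finset κ}
    (h : RedC t d y B) (hs : ∀ i, i ∉ B → y i ≤ t) : Nsp d y := by
  classical
  obtain ⟨e, he⟩ : ∃ e, e = Fintype.equivFin κ := ⟨_, rfl⟩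
  have hfn : ∀ i, fn y (e i) = y i := fun i => by
    unfold fn
    rw [he, Equiv.symm_apply_apply]
  have hsum : ∀ J : Finset κ, ∑ k ∈ J.map e.toEmbedding, fn y k = ∑ i ∈ J, y i := fun J => by
    rw [Finset.sum_map]
    exact Finset.sum_congr rfl (fun i _ => hfn i)
  have h1 : Red t d (fn y) (B.map e.toEmbedding) :=
    { small := fun k hk => by
        have h2 : e.symm k ∉ B := fun h3 => hk (by
          rw [Finset.mem_map_equiv]
          exact h3)
        have h3 := hfn (e.symm k)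
        rw [Equiv.apply_symm_apply] at h3
        rw [h3]
        exact hs _ h2
      sum := fun J hJ hc => by
        obtain ⟨J', hJ', rfl⟩ := Finset.subset_map_iff.mp hJ
        rw [Finset.card_map] at hc
        rw [hsum, Finset.card_map]
        exact h.sum J' hJ' hc
      can := by
        rw [hsum]
        exact h.can }
  intro p hp
  rw [finrank_eq_hPm hp, red_main h1, sum_fn y (fun n => (n + 1).choose 2)]

section main

variable {ι Λ : Type} [Fintype ι] [Fintype Λ] [DecidableEq ι] [DecidableEq Λ]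

/-- the points of `B` in `ι ⊕ Λ` -/
def inB (Λ : Type) {ι : Type} (B : Finset ι) : Finset (ι ⊕ Λ) := B.map Function.Embedding.inl

theorem redC_inB {t d : ℕ} {m : ι → ℕ} {B : Finset ι} (h : RedC t d m B) {y : ι ⊕ Λ → ℕ}
    (hy : ∀ i ∈ B, y (Sum.inl i) = m i) : RedC t d y (inB Λ B) := by
  have hsum : ∀ J ⊆ B, ∑ x ∈ J.map (Function.Embedding.inl : ι ↪ ι ⊕ Λ), y x = ∑ i ∈ J, m i :=
    fun J hJ => by
      rw [Finset.sum_map]
      exact Finset.sum_congr rfl (fun i hi => hy i (hJ hi))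
  refine ⟨fun J hJ hc => ?_, ?_⟩
  · obtain ⟨J', hJ', rfl⟩ := Finset.subset_map_iff.mp hJ
    rw [Finset.card_map] at hc
    rw [hsum J' hJ', Finset.card_map]
    exact h.sum J' hJ' hc
  · unfold inB
    rw [hsum B (Finset.Subset.refl B)]
    exact h.can

theorem not_mem_inB {B : Finset ι} {i : ι} (h : Sum.inl i ∉ inB Λ B) : i ∉ B := fun hi =>
  h (Finset.mem_map_of_mem _ hi)

/-- all the systems in the neighbourhood are nonspecial -/
theorem near_of_redC {t d : ℕ} {m : ι → ℕ} {B : Finset ι} {μ : Λ → ℕ} (h : RedC t d m B)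
    (hm : ∀ i, i ∉ B → m i + 1 ≤ t) (hμ : ∀ l, μ l + 1 ≤ t) :
    ∀ y : ι ⊕ Λ → ℕ, Near m B μ y → Nsp d y := by
  rintro y ⟨h1, T, hT, h3, h4⟩
  refine nsp_of_redC (redC_inB h (fun i hi => h4 i (fun hiT => (h3 i hiT).1 hi))) ?_
  rintro (i | l) hi
  · have hiB := not_mem_inB hi
    have h5 := hm i hiB
    by_cases hiT : i ∈ T
    · exact (h3 i hiT).2.trans h5
    · rw [h4 i hiT]
      omega
  · exact (h1 l).2.trans (hμ l)

/-- all the systems which occur after the points have been dropped are free -/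
theorem far_of_redC {t d : ℕ} {m : ι → ℕ} {B : Finset ι} {μ : Λ → ℕ} (h : RedC t d m B)
    (hm : ∀ i, i ∉ B → m i + 1 ≤ t) (hμ : ∀ l, μ l + 2 ≤ t) (ht : 4 ≤ t)
    (hΛ : 3 ≤ Fintype.card Λ) (hΛ' : Fintype.card Λ ≤ 200) :
    ∀ y : ι ⊕ Λ → ℕ, Far m B μ y → Free d y := by
  rintro y ⟨h1, h2, T, hT, h3, h4⟩
  have hred := redC_inB (Λ := Λ) h (y := y) h2
  have hs : ∀ x, x ∉ inB Λ B → y x ≤ t := by
    rintro (i | l) hi
    · have hiB := not_mem_inB hi
      have h5 := hm i hiB
      by_cases hiT : i ∈ T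
      · have := (h3 i hiT).2
        omega
      · rw [h4 i hiT hiB]
        exact Nat.zero_le _
    · exact (h1 l).2.trans (hμ l)
  have hsum : ∑ x, y x ≤ ∑ i ∈ B, m i + 2 * t + 200 * t := by
    rw [Fintype.sum_sum_type]
    have h5 : ∑ l, y (Sum.inr l) ≤ 200 * t := by
      have h6 := Finset.sum_le_card_nsmul Finset.univ (fun l => y (Sum.inr l)) t
        (fun l _ => (h1 l).2.trans (hμ l))
      rw [Finset.card_univ, smul_eq_mul] at h6
      exact h6.trans (Nat.mul_le_mul_right t hΛ')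
    have h7 : ∀ i, y (Sum.inl i) ≤ (if i ∈ B then m i else 0) + if i ∈ T then t else 0 := by
      intro i
      by_cases hB : i ∈ B
      · rw [if_pos hB, h2 i hB]
        exact Nat.le_add_right _ _
      · rw [if_neg hB, zero_add]
        by_cases hiT : i ∈ T
        · rw [if_pos hiT]
          have := (h3 i hiT).2
          have := hm i hB
          omega
        · rw [if_neg hiT, h4 i hiT hB]
    have h8 := Finset.sum_le_sum (fun i (_ : i ∈ Finset.univ) => h7 i)
    rw [Finset.sum_add_distrib, Finset.sum_ite_mem, Finset.sum_ite_mem, Finset.univ_inter,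
      Finset.univ_inter, Finset.sum_const, smul_eq_mul] at h8
    have h9 : T.card * t ≤ 2 * t := Nat.mul_le_mul_right t hT
    omega
  have hcard : 3 ≤ Fintype.card (ι ⊕ Λ) := by
    rw [Fintype.card_sum]
    omega
  have hcan := h.can
  have e1 : 100 * (t + 1) ^ 2 = 100 * (t * t) + 200 * t + 100 := by ring
  have e2 : t ≤ t * t := Nat.le_mul_self t
  rw [e1] at hcan
  refine (farB_of_reduced hcard (fun i j k hij hik hjk => ?_) (fun i j hij => ?_) ?_).free hcard ?_
  · exact hred.any3 hs hij hik hjk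
  · have := hred.any2 hs hij
    omega
  · omega
  · omega

/-- the numerical data of a collision for reduced systems -/
structure RDat (t d M : ℕ) (m : ι → ℕ) (B : Finset ι) (μ w s Mv : Λ → ℕ)
    (v : ∀ l, Fin (s l) → ℕ) : Prop where
  red : RedC t d m B
  ht : M + 1 ≤ t
  ht4 : 4 ≤ t
  hΛ : 3 ≤ Fintype.card Λ
  hΛ' : Fintype.card Λ ≤ 200
  hm : ∀ i, i ∉ B → m i + 1 ≤ M
  hμ : ∀ l, μ l + 1 ≤ M
  hχ : ∑ i, (m i + 1).choose 2 + ∑ l, (μ l + 1).choose 2 + ∑ l, w l + 1 = (d + 2).choose 2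
  room : 5 * M ≤ ∑ l, w l
  hNv : ∀ l, NSp (Mv l) (μ l)
  hNv' : ∀ l, NSp (Mv l) (μ l - 1)
  hv : ∀ l j, v l j + 1 ≤ Mv l
  hvμ : ∀ l, 2 * Mv l ≤ μ l
  crit : ∀ l, ∑ j, (v l j + 1).choose 2 = (μ l + 1).choose 2 + w l
  hw : ∀ l, w l + 2 * Mv l ≤ μ l + 1
  hMv : ∀ l, 1 ≤ Mv l

theorem RDat.dat {t d M : ℕ} {m : ι → ℕ} {B : Finset ι} {μ w s Mv : Λ → ℕ}
    {v : ∀ l, Fin (s l) → ℕ} (S : RDat t d M m B μ w s Mv v) : Dat d M m B μ w s Mv v where
  hN := near_of_redC S.red (fun i hi => (S.hm i hi).trans (by have := S.ht; omega))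
    (fun l => (S.hμ l).trans (by have := S.ht; omega))
  hF := far_of_redC S.red (fun i hi => (S.hm i hi).trans (by have := S.ht; omega))
    (fun l => by have := S.hμ l; have := S.ht; omega) S.ht4 S.hΛ S.hΛ'
  hm := S.hm
  hmd := fun i => by
    have h1 := S.red.t0
    have h2 := S.ht4
    have h3 := S.ht
    by_cases hi : i ∈ B
    · have := S.red.t1 hi
      omega
    · have := S.hm i hi
      omega
  hμ := S.hμ
  hμd := fun l => by
    have h1 := S.red.t0
    have h2 := S.hμ l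
    have h3 := S.ht
    omega
  hχ := S.hχ
  room := S.room
  hNv := S.hNv
  hNv' := S.hNv'
  hv := S.hv
  hvμ := S.hvμ
  crit := S.crit
  hw := S.hw
  hMv := S.hMv
  two := fun l => by
    have h1 : 1 < Fintype.card Λ := by
      have := S.hΛ
      omega
    obtain ⟨l', hl'⟩ := Fintype.exists_ne_of_one_lt_card h1 l
    exact ⟨l', hl'⟩

end main

end Pool.Agent.Work.MP_0421d9_ag.ZE
end

section
/-!
Reduced systems: general members are smooth.
-/

set_option linter.unusedSectionVars false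

namespace Pool.Agent.Work.MP_0421d9_ag.ZE

open MvPolynomial Module SM ZC

/-- reindexing -/
theorem Dat.not_bad_split {ι : Type} [Fintype ι] [DecidableEq ι] {d M : ℕ} {m : ι → ℕ}
    {p : ι → V3} (hp : GenericPoints p) {n : ℕ} (hn : 1 ≤ n) {C : Fin n → Finset ι}
    {μ w Mv : Fin n → ℕ} {U : Finset {i : ι // ∀ l, i ∉ C l}}
    {e : {i : ι // ∀ l, i ∉ C l} ⊕ (Σ l, Fin (C l).card) ≃ ι}
    (he : ∀ z, e z = Sum.elim (fun i => i.1) (fun x => ((C x.1).equivFin.symm x.2).1) z)
    (hD : Dat d M (fun i : {i : ι // ∀ l, i ∉ C l} => m i.1) U μ w (fun l => (C l).card) Mv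
      (fun l j => m ((C l).equivFin.symm j).1)) {F : R3} (hF : F ∈ linSys d p m) (hF0 : F ≠ 0) :
    ¬ Bad d p m F := by
  classical
  have : Nonempty (Fin n) := ⟨⟨0, hn⟩⟩
  have hme : ∀ z, m (e z) = Sum.elim (fun i : {i : ι // ∀ l, i ∉ C l} => m i.1)
      (fun x : Σ l, Fin (C l).card => m ((C x.1).equivFin.symm x.2).1) z := by
    rintro (i | x)
    · rw [he]
      rfl
    · rw [he]
      rfl
  have hpe : GenericPoints (fun z => p (e z)) := by
    have h2 := AlgebraicIndependent.comp hp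
      (fun z : ({i : ι // ∀ l, i ∉ C l} ⊕ (Σ l, Fin (C l).card)) × Fin 3 => (e z.1, z.2))
      (fun z z' h => by
        have h7 := congrArg Prod.fst h
        have h8 := congrArg Prod.snd h
        exact Prod.ext (e.injective h7) h8)
    exact h2
  have h1 := hD.not_bad hpe (F := F) ⟨hF.1, fun z => by
    rw [← hme]
    exact hF.2 (e z)⟩ hF0
  intro hb
  apply h1
  have h2 := (bad_equiv (d := d) (p := p) (m := m) (F := F) e).mpr hb
  have h3 : (fun z => m (e z)) = Sum.elim (fun i : {i : ι // ∀ l, i ∉ C l} => m i.1)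
      (fun x : Σ l, Fin (C l).card => m ((C x.1).equivFin.symm x.2).1) := funext hme
  rw [h3] at h2
  exact h2

/-- **The data of the collision**, reduced case -/
theorem exists_datC {ε : ℝ} (hε : 0 < ε) : ∃ c : ℝ, 0 < c ∧ ∀ (d u t : ℕ) (ι : Type) [Fintype ι]
    [DecidableEq ι] (m : ι → ℕ) (B : Finset ι), 1 ≤ u → (∀ i, i ∉ B → m i ≤ u) →
    c * (u : ℝ) ^ (1 + ε) ≤ t → RedC t d m B → ∑ i, (m i + 1).choose 2 + 1 = (d + 2).choose 2 →
    ∃ (M : ℕ) (C : Fin 200 → Finset ι) (μ w : Fin 200 → ℕ)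
      (e : {i : ι // ∀ l, i ∉ C l} ⊕ (Σ l, Fin (C l).card) ≃ ι)
      (U : Finset {i : ι // ∀ l, i ∉ C l}), (∀ i, i ∈ U ↔ i.1 ∈ B) ∧
      (∀ z, e z = Sum.elim (fun i => i.1) (fun x => ((C x.1).equivFin.symm x.2).1) z) ∧
      RDat t d M (fun i : {i : ι // ∀ l, i ∉ C l} => m i.1) U μ w (fun l => (C l).card)
        (fun _ => u + 1) (fun l j => m ((C l).equivFin.symm j).1) := by
  obtain ⟨c, hc, h⟩ := exists_pick_eps hε
  refine ⟨max c 10, lt_of_lt_of_le hc (le_max_left _ _),
    fun d u t ι _ _ m B hu hm ht hR hχ => ?_⟩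
  have hu1 : (1 : ℝ) ≤ u := by exact_mod_cast hu
  have hu0 : (0 : ℝ) < u := by linarith
  have hx0 : (0 : ℝ) ≤ (u : ℝ) ^ (1 + ε) := Real.rpow_nonneg hu0.le _
  have hx1 : (1 : ℝ) ≤ (u : ℝ) ^ (1 + ε) := Real.one_le_rpow hu1 (by positivity)
  have ht1 : c * (u : ℝ) ^ (1 + ε) ≤ t :=
    (mul_le_mul_of_nonneg_right (le_max_left _ _) hx0).trans ht
  have ht2 : 10 * (u : ℝ) ^ (1 + ε) ≤ t :=
    (mul_le_mul_of_nonneg_right (le_max_right _ _) hx0).trans ht
  have ht10 : 10 ≤ t := by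
    have : (10 : ℝ) ≤ t := by linarith
    exact_mod_cast this
  have hB : c * (u : ℝ) ^ (2 + ε) ≤ ∑ i ∈ Bᶜ, ((m i + 1).choose 2 : ℝ) := by
    have hcan := hR.can
    have h1 := off_count (fun J hJ hJc => (Nat.le_add_right _ _).trans (hR.sum J hJ hJc))
      (by omega) hχ
    have h2 : 50 * (t + 1) ^ 2 ≤ ∑ i ∈ Bᶜ, (m i + 1).choose 2 := by omega
    have h3 : (50 * (t + 1) ^ 2 : ℝ) ≤ ∑ i ∈ Bᶜ, ((m i + 1).choose 2 : ℝ) := by exact_mod_cast h2
    refine le_trans ?_ h3
    have h4 : (u : ℝ) ^ (2 + ε) ≤ (u : ℝ) ^ (1 + ε) * (u : ℝ) ^ (1 + ε) := by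
      rw [← Real.rpow_add hu0]
      exact Real.rpow_le_rpow_of_exponent_le hu1 (by linarith)
    have ht0 : (0 : ℝ) ≤ t := Nat.cast_nonneg t
    calc c * (u : ℝ) ^ (2 + ε) ≤ c * ((u : ℝ) ^ (1 + ε) * (u : ℝ) ^ (1 + ε)) :=
          mul_le_mul_of_nonneg_left h4 hc.le
      _ = (c * (u : ℝ) ^ (1 + ε)) * (u : ℝ) ^ (1 + ε) := by ring
      _ ≤ t * t := by
          refine mul_le_mul ht1 ?_ hx0 ht0
          linarith
      _ ≤ 50 * (t + 1) ^ 2 := by nlinarith
  obtain ⟨M, C, μ, w, e, hCB, he, hμ, huM, hMt, hP⟩ := h d u t ι m B hu hm ht1 hB hχ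
  obtain ⟨U, hU⟩ : ∃ U : Finset {i : ι // ∀ l, i ∉ C l},
      U = Finset.univ.filter (fun i => i.1 ∈ B) := ⟨_, rfl⟩
  have hUm : ∀ i, i ∈ U ↔ i.1 ∈ B := fun i => by
    rw [hU, Finset.mem_filter]
    exact ⟨fun h => h.2, fun h => ⟨Finset.mem_univ i, h⟩⟩
  have hR' : RedC t d (fun i : {i : ι // ∀ l, i ∉ C l} => m i.1) U := by
    refine ⟨fun J hJ hJc => ?_, ?_⟩
    · have h1 := hR.sum (J.map (Function.Embedding.subtype _)) (fun i hi => by
        rw [Finset.mem_map] at hi
        obtain ⟨j, hj, rfl⟩ := hi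
        exact (hUm j).mp (hJ hj)) (by rwa [Finset.card_map])
      rw [Finset.sum_map, Finset.card_map] at h1
      exact h1
    · have h1 : ∑ i ∈ U, m i.1 ≤ ∑ i ∈ B, m i := by
        have h2 : ∑ i ∈ U, m i.1 = ∑ i ∈ U.map (Function.Embedding.subtype _), m i := by
          rw [Finset.sum_map]
          rfl
        rw [h2]
        refine Finset.sum_le_sum_of_subset (fun i hi => ?_)
        rw [Finset.mem_map] at hi
        obtain ⟨j, hj, rfl⟩ := hi
        exact (hUm j).mp hj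
      have h2 := hR.can
      omega
  refine ⟨M, C, μ, w, e, U, hUm, he,
    { red := hR'
      ht := by omega
      ht4 := by omega
      hΛ := by rw [Fintype.card_fin]; norm_num
      hΛ' := by rw [Fintype.card_fin]
      hm := fun i hi => ?_
      hμ := hP.hμ
      hχ := hP.hχ
      room := hP.room
      hNv := hP.hNv
      hNv' := hP.hNv'
      hv := hP.hv
      hvμ := hP.hvμ
      crit := hP.crit
      hw := hP.hw
      hMv := hP.hMv }⟩
  have := hm i.1 (fun h => hi ((hUm i).mpr h))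
  change m i.1 + 1 ≤ M
  omega

/-- rigid systems, reduced case -/
theorem rigid_not_badC {ε : ℝ} (hε : 0 < ε) : ∃ c : ℝ, 0 < c ∧ ∀ (d u t : ℕ) (ι : Type)
    [Fintype ι] [DecidableEq ι] (p : ι → V3) (m : ι → ℕ) (B : Finset ι), GenericPoints p → 1 ≤ u →
    (∀ i, i ∉ B → m i ≤ u) → c * (u : ℝ) ^ (1 + ε) ≤ t → RedC t d m B →
    ∑ i, (m i + 1).choose 2 + 1 = (d + 2).choose 2 →
    ∀ F ∈ linSys d p m, F ≠ 0 → ¬ Bad d p m F := by
  obtain ⟨c, hc, h⟩ := exists_datC hε
  refine ⟨c, hc, fun d u t ι _ _ p m B hp hu hm ht hR hχ F hF hF0 => ?_⟩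
  obtain ⟨M, C, μ, w, e, U, -, he, hD⟩ := h d u t ι m B hu hm ht hR hχ
  exact Dat.not_bad_split hp (by norm_num) (μ := μ) (w := w) (Mv := fun _ => u + 1) he hD.dat hF hF0

/-- **Reduced systems**: the general members are not bad. -/
theorem reduced_not_bad {ε : ℝ} (hε : 0 < ε) : ∃ c : ℝ, 0 < c ∧ ∀ (r d u t : ℕ)
    (p : Fin r → V3) (m : Fin r → ℕ) (B : Finset (Fin r)), GenericPoints p → 1 ≤ u →
    (∀ i, i ∉ B → m i ≤ u) → c * (u : ℝ) ^ (1 + ε) ≤ t → RedC t d m B →
    ∀ s : Fin (finrank ℂ (linSys d p m) - 1) → Fin 3 → ℂ, GenericPoints (Sum.elim p s) →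
      ∀ F ∈ linSys d p m, F ≠ 0 → (∀ k, eval (s k) F = 0) → ¬ Bad d p m F := by
  obtain ⟨c, hc, h⟩ := rigid_not_badC hε
  refine ⟨max c 1, lt_of_lt_of_le hc (le_max_left _ _),
    fun r d u t p m B hp hu hm ht hR s hs => ?_⟩
  classical
  have hu1 : (1 : ℝ) ≤ u := by exact_mod_cast hu
  have hx0 : (0 : ℝ) ≤ (u : ℝ) ^ (1 + ε) := Real.rpow_nonneg (by linarith) _
  have ht1 : c * (u : ℝ) ^ (1 + ε) ≤ t :=
    (mul_le_mul_of_nonneg_right (le_max_left _ _) hx0).trans ht
  have ht2 : 1 * (u : ℝ) ^ (1 + ε) ≤ t :=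
    (mul_le_mul_of_nonneg_right (le_max_right _ _) hx0).trans ht
  have hut : u ≤ t := by
    have h1 : (u : ℝ) ^ (1 : ℝ) ≤ (u : ℝ) ^ (1 + ε) :=
      Real.rpow_le_rpow_of_exponent_le hu1 (by linarith)
    rw [Real.rpow_one] at h1
    have h2 : (u : ℝ) ≤ t := by linarith
    exact_mod_cast h2
  have hns : finrank ℂ (linSys d p m) = (d + 2).choose 2 - ∑ i, (m i + 1).choose 2 :=
    nsp_of_redC hR (fun i hi => (hm i hi).trans hut) p hp
  refine not_bad_of_rigid hns s hs (fun hχ => ?_)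
  have hsum : ∀ J ⊆ B, ∑ x ∈ J.map (Function.Embedding.inl : Fin r ↪ Fin r ⊕ Fin _),
      Sum.elim m (fun _ : Fin (finrank ℂ (linSys d p m) - 1) => 1) x = ∑ i ∈ J, m i :=
    fun J _ => by
      rw [Finset.sum_map]
      rfl
  refine h d u t _ (Sum.elim p s) (Sum.elim m (fun _ => 1)) (B.map Function.Embedding.inl) hs hu
    ?_ ht1 ⟨fun J hJ hJc => ?_, ?_⟩ hχ
  · rintro (i | j) hi
    · exact hm i (fun h => hi (Finset.mem_map_of_mem _ h))
    · exact hu
  · obtain ⟨J', hJ', rfl⟩ := Finset.subset_map_iff.mp hJ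
    rw [Finset.card_map] at hJc
    rw [hsum J' hJ', Finset.card_map]
    exact hR.sum J' hJ' hJc
  · rw [hsum B (Finset.Subset.refl B)]
    exact hR.can

end Pool.Agent.Work.MP_0421d9_ag.ZE
end

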