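import Pool.Agent.Work.Z0421M.C50
import Pool.Agent.Work.Z0421M.C53

section
/-!
Three scales of multiplicities relative to any set of points which impose independent conditions in
a slightly smaller degree.
-/

namespace Pool.Agent.Work.MP_0421d9_ag.LD

open MvPolynomial Module

/-- independent conditions -/
def Rg {r : ℕ} (D : ℕ) (a : Fin r → ℕ) : Prop :=
  hPm D a + ∑ i, (a i + 1).choose 2 = (D + 2).choose 2

theorem Rg.mono {r D D' : ℕ} {a : Fin r → ℕ} (h : Rg D a) (hD : D ≤ D') : Rg D' a :=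
  linSys_reg_mono a (fun i => generic_coord_ne (gpt_generic r) i 2) hD h

theorem Rg.le {r D : ℕ} {a : Fin r → ℕ} (h : Rg D a) (i : Fin r) : a i ≤ D + 1 := by
  by_contra hcon
  have h1 : (a i + 1).choose 2 ≤ ∑ j, (a j + 1).choose 2 :=
    Finset.single_le_sum (f := fun j => (a j + 1).choose 2) (fun j _ => Nat.zero_le _)
      (Finset.mem_univ i)
  have h2 : (D + 3).choose 2 ≤ (a i + 1).choose 2 := Nat.choose_le_choose 2 (by omega)
  have h3 : (D + 3).choose 2 = (D + 2) + (D + 2).choose 2 := by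
    rw [Nat.choose_succ_succ' (D + 2) 1, Nat.choose_one_right]
  unfold Rg at h
  omega

theorem Rg.up_down {r D : ℕ} {y : Fin r → ℕ} (i : Fin r) (h : Rg D (up y i)) : Rg D y := by
  classical
  obtain ⟨E, hE⟩ := exists_dual (gpt r) (gpt_generic r)
  have h2 := sum_choose_up y i
  have hy : ∀ j, y j ≤ D := by
    intro j
    by_cases hj : j = i
    · have h1 := h.le i
      rw [up_self] at h1
      rw [hj]
      omega
    · by_contra hcon
      have h3 : (D + 2).choose 2 ≤ (y j + 1).choose 2 := Nat.choose_le_choose 2 (by omega)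
      have h4 : (y j + 1).choose 2 ≤ ∑ l, (y l + 1).choose 2 :=
        Finset.single_le_sum (f := fun l => (y l + 1).choose 2) (fun l _ => Nat.zero_le _)
          (Finset.mem_univ j)
      unfold Rg at h
      omega
  have h1 := cc_le hE hy i
  have h3 := cc_add (d := D) (p := gpt r) y i
  have h4 := linSys_count (d := D) (gpt r) y
  unfold Rg at h ⊢
  change finrank ℂ (linSys D (gpt r) (up y i)) + _ = _ at h
  change finrank ℂ (linSys D (gpt r) y) + _ = _
  omega

theorem Rg.anti {r D : ℕ} : ∀ (n : ℕ) {y y' : Fin r → ℕ}, ∑ i, y i ≤ n → (∀ i, y' i ≤ y i) →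
    Rg D y → Rg D y' := by
  classical
  intro n
  induction n with
  | zero =>
    intro y y' hs hle h
    have h0 : ∀ i, y i = 0 := fun i =>
      (Finset.sum_eq_zero_iff.mp (Nat.le_zero.mp hs)) i (Finset.mem_univ i)
    have h1 : y' = y := by
      funext i
      have := hle i
      have := h0 i
      omega
    rw [h1]
    exact h
  | succ n ih =>
    intro y y' hs hle h
    by_cases heq : ∀ i, y' i = y i
    · have h1 : y' = y := funext heq
      rw [h1]
      exact h
    · push Not at heq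
      obtain ⟨i, hi⟩ := heq
      have hlt : y' i < y i := lt_of_le_of_ne (hle i) hi
      obtain ⟨z, hz⟩ : ∃ z, z = Function.update y i (y i - 1) := ⟨_, rfl⟩
      have hup : up z i = y := by
        funext j
        unfold up
        by_cases hj : j = i
        · rw [hj, Function.update_self, hz, Function.update_self]
          omega
        · rw [Function.update_of_ne hj, hz, Function.update_of_ne hj]
      refine ih (y := z) ?_ (fun j => ?_) (Rg.up_down i (by rw [hup]; exact h))
      · rw [← Finset.add_sum_erase _ _ (Finset.mem_univ i)] at hs ⊢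
        have h1 : ∑ j ∈ Finset.univ.erase i, z j = ∑ j ∈ Finset.univ.erase i, y j :=
          Finset.sum_congr rfl (fun j hj => by
            rw [hz, Function.update_of_ne (Finset.ne_of_mem_erase hj)])
        rw [h1, hz, Function.update_self]
        omega
      · rw [hz]
        by_cases hj : j = i
        · rw [hj, Function.update_self]
          omega
        · rw [Function.update_of_ne hj]
          exact hle j

theorem Rg.of_le {r D : ℕ} {y y' : Fin r → ℕ} (h : Rg D y) (hle : ∀ i, y' i ≤ y i) : Rg D y' :=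
  Rg.anti _ le_rfl hle h

theorem Rg.raise {r D : ℕ} {y : Fin r → ℕ} (h : Rg D y) (i : Fin r) :
    Rg (D + 1) (Function.update y i (y i + 1)) := by
  classical
  have h1 := hPm_raise_le y i (h.le i)
  have h2 := sum_update_succ y i
  have h3 := linSys_count (d := D + 1) (gpt r) (Function.update y i (y i + 1))
  have h4 : (D + 1 + 2).choose 2 = (D + 2) + (D + 2).choose 2 := by
    rw [Nat.choose_succ_succ' (D + 2) 1, Nat.choose_one_right]
  have h5 := h.le i
  unfold Rg at h ⊢
  change _ ≤ hPm (D + 1) (Function.update y i (y i + 1)) + _ at h3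
  omega

/-- the neighbouring systems -/
theorem Rg.nbr {r D : ℕ} {B : Finset (Fin r)} {y z : Fin r → ℕ} (h : Rg D (onB B y))
    (hn : Nbr y z) : Rg (D + 1) (onB B z) := by
  classical
  rcases hn with hn | ⟨i₀, h1, h2⟩
  · refine (h.of_le (y' := onB B z) (fun i => ?_)).mono (Nat.le_succ D)
    unfold onB
    split_ifs
    · exact hn i
    · exact le_rfl
  · refine (h.raise i₀).of_le (fun i => ?_)
    by_cases hi : i = i₀
    · rw [hi, Function.update_self]
      unfold onB
      split_ifs
      · exact h1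
      · exact Nat.zero_le _
    · rw [Function.update_of_ne hi]
      unfold onB
      split_ifs
      · exact h2 i hi
      · exact le_rfl

theorem Rg_zero {r : ℕ} (D : ℕ) : Rg D (fun _ : Fin r => 0) := by
  have h2 : linSys D (gpt r) (fun _ : Fin r => 0) = Rd D := by
    refine le_antisymm (linSys_le D _ _) (fun F hF => ⟨hF, fun i => ?_⟩)
    exact vanishTo_zero F (gpt r i)
  have h3 : ∑ _i : Fin r, (0 + 1).choose 2 = 0 := Finset.sum_eq_zero (fun _ _ => rfl)
  unfold Rg hPm
  rw [h2, finrank_Rd, h3, Nat.add_zero]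

theorem Rg_empty {r : ℕ} (D : ℕ) (m : Fin r → ℕ) : Rg D (onB ∅ m) := by
  have h1 : onB ∅ m = fun _ => 0 := by
    funext i
    exact if_neg (Finset.notMem_empty i)
  rw [h1]
  exact Rg_zero D

/-- **The relative theorem.** -/
theorem reg_main {r u d : ℕ} (hu : 1 ≤ u) {m : Fin r → ℕ} {B : Finset (Fin r)}
    (hms : ∀ i, i ∉ B → m i ≤ u) (hd : 6 * (u + 1) ^ 2 ≤ d)
    (hR : Rg (d - 3 * (u + 1) ^ 2) (onB B m)) :
    hPm d m = (d + 2).choose 2 - ∑ i, (m i + 1).choose 2 := by
  classical
  have e0 : (u + 1) ^ 2 = u * u + 2 * u + 1 := by ring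
  have huu : 1 * u ≤ u * u := Nat.mul_le_mul_right u hu
  obtain ⟨t, ht⟩ : ∃ t, t = 3 * u * (u + 1) := ⟨_, rfl⟩
  have ht' : t = 3 * (u * u) + 3 * u := by rw [ht]; ring
  rw [e0] at hR hd
  obtain ⟨x, hx⟩ : ∃ x, x = d - (t + (2 * u + 1)) := ⟨_, rfl⟩
  have hR2 : Rg x (onB B m) := hR.mono (by omega)
  have hR1 : Rg (d - t) (onB B m) := hR.mono (by omega)
  have hdt : d - t = x + (2 * u + 1) := by omega
  have hMx : ∀ i, m i ≤ x + 1 := by
    intro i
    by_cases hi : i ∈ B
    · have h1 := hR2.le i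
      have h2 : onB B m i = m i := if_pos hi
      omega
    · have := hms i hi
      omega
  obtain ⟨g, hg1, hg2, hg3⟩ := g_num (u := u) (L := d - t) (M := x + 1) hu (by rw [e0]; omega)
    (by omega)
  have hsum := sum_onB B m
  have h2a := tr_two_choose (x + 1)
  have e6 : x + 1 + 1 = x + 2 := rfl
  rw [e6] at h2a
  unfold Rg at hR1 hR2
  refine relH_main (M := x + 1) (D₁ := d - t) (g := g) B hu (by omega) hMx hms ?_ ?_ hg1 hg2
    (by omega) ?_
  · rw [← hsum]
    exact hR1
  · rw [← hsum, hdt]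
    obtain ⟨v, rfl⟩ : ∃ v, u = v + 1 := ⟨u - 1, by omega⟩
    rw [Nat.add_sub_cancel, Nat.add_sub_cancel]
    have h4 : 2 * ∑ i, (onB B m i + 1).choose 2 ≤ (x + 1) * (x + 2) := by omega
    nlinarith [Nat.zero_le (v * x), Nat.zero_le (v * v), Nat.zero_le x, Nat.zero_le v]
  · have e1 : d - (d - t) = 3 * u * (u + 1) := by omega
    rw [e1, Nat.mul_div_cancel _ (by omega)]
    exact hg3

/-- middle points with enough room -/
theorem three_roomR {r d M k u : ℕ} (hu : 1 ≤ u) {m : Fin r → ℕ}
    {B : Finset (Fin r)} (huk : u ≤ k) (hkM : k ≤ M) (hMd : M ≤ d) (hM : ∀ i, m i ≤ M)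
    (hk : ∀ i, i ∉ B → m i ≤ k) (hR : Rg (d - 4 * (u + 1) ^ 2) (onB B m))
    (hd : 30 * (u + 1) ^ 2 ≤ d)
    (hN : ∑ i ∈ BU B u m, (m i + 1).choose 2 +
      ((k + 4 * u ^ 2 + u) * M + 2 * (u + 1) * d) ≤ (d + 2).choose 2) :
    hPm d m = (d + 2).choose 2 - ∑ i, (m i + 1).choose 2 := by
  classical
  obtain ⟨g, hg⟩ : ∃ g, g = (d - 4 * (u + 1) ^ 2 + 1 - u - (u + 1).choose 2) / 2 := ⟨_, rfl⟩
  obtain ⟨q, hq⟩ : ∃ q, q = (M - 1) * (u - 1) / g := ⟨_, rfl⟩
  obtain ⟨h1, h2, h3⟩ := three_num hu hMd hd hg hq hN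
  obtain ⟨s, hs⟩ : ∃ s, s = (u + 1) * (q + 1) := ⟨_, rfl⟩
  rw [← hs] at h2 h3
  have e0 : (u + 1) ^ 2 = u * u + 2 * u + 1 := by ring
  have hc2 : 2 * (u + 1).choose 2 = u * (u + 1) := tr_two_choose u
  have hc1 : (u + 1).choose 2 = u + u.choose 2 := by
    rw [Nat.choose_succ_succ' u 1, Nat.choose_one_right]
  have e2 : u * (u + 1) = u * u + u := by ring
  have huu : 1 * u ≤ u * u := Nat.mul_le_mul_right u hu
  have hg0 : 0 < g := by omega
  have hreg0 : Rg (d - s) (onB B m) := hR.mono (by omega)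
  have hsub : B ⊆ BU B u m := fun i hi => Finset.mem_filter.mpr ⟨Finset.mem_univ _, Or.inl hi⟩
  have htwo := tr_two_choose (d - s + 1)
  have e6 : d - s + 1 + 1 = d - s + 2 := rfl
  rw [e6, Nat.mul_comm (d - s + 1)] at htwo
  have hreg : hPm (d - s) (onB (BU B u m) m) + ∑ i, (onB (BU B u m) m i + 1).choose 2 =
      (d - s + 2).choose 2 := by
    refine kq_regular (u := k) (M := M) B hkM (fun i => (onB_le _ m i).trans (hM i))
      (fun i hi => (onB_le _ m i).trans (hk i hi)) ?_ ?_
    · rw [onB_onB_of_sub hsub]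
      exact hreg0
    · rw [sum_onB]
      omega
  rw [sum_onB] at hreg
  refine relH_main (u := u) (M := M) (D₁ := d - s) (g := g) (BU B u m) hu (huk.trans hkM) hM
    (fun i hi => ?_) hreg ?_ ?_ ?_ (Nat.sub_le _ _) ?_
  · by_contra hcon
    exact hi (Finset.mem_filter.mpr ⟨Finset.mem_univ _, Or.inr (by omega)⟩)
  · omega
  · rw [e0] at hd hg
    omega
  · omega
  · have e7 : d - (d - s) = (u + 1) * (q + 1) := by omega
    rw [e7, Nat.mul_div_cancel_left _ (by omega), hq]
    have h4 := Nat.lt_mul_div_succ ((M - 1) * (u - 1)) hg0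
    exact h4.le

/-- many points of small multiplicity -/
theorem three_tailR {r d M k u : ℕ} (hu : 1 ≤ u) {m : Fin r → ℕ}
    {B : Finset (Fin r)} (huk : u ≤ k) (hkM : k ≤ M) (hMd : M ≤ d) (hM : ∀ i, m i ≤ M)
    (hk : ∀ i, i ∉ B → m i ≤ k) (hR : Rg (d - 4 * (u + 1) ^ 2) (onB B m))
    (hd : 30 * (u + 1) ^ 2 ≤ d)
    (hT : ∑ i ∈ BU B u m, (m i + 1).choose 2 +
      2 * ((k + 4 * u ^ 2 + u) * M + 2 * (u + 1) * d) ≤ ∑ i, (m i + 1).choose 2) :
    hPm d m = (d + 2).choose 2 - ∑ i, (m i + 1).choose 2 := by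
  classical
  obtain ⟨W, hW⟩ : ∃ W, W = (k + 4 * u ^ 2 + u) * M + 2 * (u + 1) * d := ⟨_, rfl⟩
  rw [← hW] at hT
  obtain ⟨X, hX⟩ : ∃ X, X = (d + 2).choose 2 := ⟨_, rfl⟩
  by_cases hroom : ∑ i ∈ BU B u m, (m i + 1).choose 2 + W ≤ X
  · exact three_roomR hu huk hkM hMd hM hk hR hd (by rw [← hW, ← hX]; exact hroom)
  push Not at hroom
  -- the middle points
  obtain ⟨C, hC⟩ : ∃ C, C = BU B u m \ B := ⟨_, rfl⟩
  have hsub : B ⊆ BU B u m := fun i hi => Finset.mem_filter.mpr ⟨Finset.mem_univ _, Or.inl hi⟩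
  have hCB : ∑ i ∈ B, (m i + 1).choose 2 + ∑ i ∈ C, (m i + 1).choose 2 =
      ∑ i ∈ BU B u m, (m i + 1).choose 2 := by
    rw [hC, Nat.add_comm]
    exact Finset.sum_sdiff hsub
  obtain ⟨Ts, hTs⟩ : ∃ Ts, Ts = Finset.univ \ BU B u m := ⟨_, rfl⟩
  have hTsum : ∑ i ∈ Ts, (m i + 1).choose 2 + ∑ i ∈ BU B u m, (m i + 1).choose 2 =
      ∑ i, (m i + 1).choose 2 := by
    rw [hTs]
    exact Finset.sum_sdiff (Finset.subset_univ _)
  have hTsmall : ∀ i ∈ Ts, m i ≤ u := by
    intro i hi
    rw [hTs, Finset.mem_sdiff] at hi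
    by_contra hcon
    exact hi.2 (Finset.mem_filter.mpr ⟨Finset.mem_univ _, Or.inr (by omega)⟩)
  have hCT : ∀ i, i ∈ B ∨ i ∈ C ∨ i ∈ Ts := by
    intro i
    by_cases h1 : i ∈ BU B u m
    · by_cases h2 : i ∈ B
      · exact Or.inl h2
      · right
        left
        rw [hC]
        exact Finset.mem_sdiff.mpr ⟨h1, h2⟩
    · right
      right
      rw [hTs]
      exact Finset.mem_sdiff.mpr ⟨Finset.mem_univ i, h1⟩
  have hdB : ∀ i ∈ Ts, i ∉ B := fun i hi h => by
    rw [hTs, Finset.mem_sdiff] at hi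
    exact hi.2 (hsub h)
  have hdC : ∀ i ∈ Ts, i ∉ C := fun i hi h => by
    rw [hTs, Finset.mem_sdiff] at hi
    rw [hC, Finset.mem_sdiff] at h
    exact hi.2 h.1
  have hCnB : ∀ i ∈ C, i ∉ B := fun i hi => by
    rw [hC, Finset.mem_sdiff] at hi
    exact hi.2
  have hCu : ∀ i ∈ C, u < m i := fun i hi => by
    rw [hC, Finset.mem_sdiff] at hi
    rcases (Finset.mem_filter.mp hi.1).2 with h | h
    · exact absurd h hi.2
    · exact h
  -- the subsystem without some of the middle points
  have key : ∀ C' ⊆ C, ∀ m' : Fin r → ℕ, m' = (fun i => if i ∈ B ∨ i ∈ C' ∨ i ∈ Ts then m i else 0) →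
      X ≤ ∑ i ∈ B, (m i + 1).choose 2 + ∑ i ∈ C', (m i + 1).choose 2 +
        ∑ i ∈ Ts, (m i + 1).choose 2 →
      hPm d m' = X - ∑ i, (m' i + 1).choose 2 → hPm d m = 0 := by
    intro C' hC' m' hm' hle hns
    have hle' : ∀ i, m' i ≤ m i := fun i => by
      rw [hm']
      dsimp only
      split_ifs
      · exact le_rfl
      · exact Nat.zero_le _
    have hsum' : ∑ i, (m' i + 1).choose 2 = ∑ i ∈ B, (m i + 1).choose 2 +
        ∑ i ∈ C', (m i + 1).choose 2 + ∑ i ∈ Ts, (m i + 1).choose 2 := by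
      have h1 : ∑ i, (m' i + 1).choose 2 = ∑ i ∈ B ∪ C' ∪ Ts, (m i + 1).choose 2 := by
        rw [← Finset.sum_subset (Finset.subset_univ (B ∪ C' ∪ Ts)) (fun i _ hi => by
          rw [Finset.mem_union, Finset.mem_union, or_assoc] at hi
          rw [hm']
          dsimp only
          rw [if_neg hi]
          rfl)]
        refine Finset.sum_congr rfl (fun i hi => ?_)
        rw [Finset.mem_union, Finset.mem_union, or_assoc] at hi
        rw [hm']
        dsimp only
        rw [if_pos hi]
      rw [h1, Finset.sum_union, Finset.sum_union]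
      · rw [Finset.disjoint_left]
        intro i hi hi'
        exact hCnB i (hC' hi') hi
      · rw [Finset.disjoint_left]
        intro i hi hi'
        rw [Finset.mem_union] at hi
        rcases hi with hi | hi
        · exact hdB i hi' hi
        · exact hdC i hi' (hC' hi)
    have h2 := hPm_anti_of_le (D := d) hle'
    omega
  have hgoal : hPm d m = 0 → hPm d m = (d + 2).choose 2 - ∑ i, (m i + 1).choose 2 := by
    intro h
    rw [h]
    omega
  apply hgoal
  have hW0 : k * k ≤ W := by
    have h1 : k * k ≤ k * M := Nat.mul_le_mul_left k hkM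
    have h2 : (k + 4 * u ^ 2 + u) * M = k * M + (4 * u ^ 2 * M + u * M) := by ring
    omega
  have hKk : (k + 1).choose 2 ≤ W := by
    have h1 := tr_two_choose k
    have h2 : k * (k + 1) = k * k + k := by ring
    have h3 : 1 * k ≤ k * k := Nat.mul_le_mul_right k (by omega)
    omega
  have honB : ∀ C' : Finset (Fin r), onB B (fun i => if i ∈ B ∨ i ∈ C' ∨ i ∈ Ts then m i else 0) =
      onB B m := by
    intro C'
    funext i
    unfold onB
    by_cases h1 : i ∈ B
    · rw [if_pos h1, if_pos h1]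
      exact if_pos (Or.inl h1)
    · rw [if_neg h1, if_neg h1]
  rcases Nat.lt_or_ge X (∑ i ∈ B, (m i + 1).choose 2 + W) with hcase | hcase
  · -- no middle points
    refine key ∅ (Finset.empty_subset _) _ rfl (by rw [Finset.sum_empty]; omega) ?_
    rw [hX]
    refine reg_main (u := u) (B := B) hu (fun i hi => ?_) (by omega) ?_
    · split_ifs with h1
      · rcases h1 with h1 | h1 | h1
        · exact absurd h1 hi
        · exact absurd h1 (Finset.notMem_empty i)
        · exact hTsmall i h1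
      · exact Nat.zero_le _
    · rw [honB]
      exact hR.mono (by omega)
  · obtain ⟨C', g1, g2, g3⟩ := exists_maximal_subset C (fun i => (m i + 1).choose 2)
      (a := ∑ i ∈ B, (m i + 1).choose 2 + W) (X := X) (K := (k + 1).choose 2)
      (fun i hi => Nat.choose_le_choose 2 (Nat.add_le_add_right (hk i (hCnB i hi)) 1)) hcase
      (by omega)
    refine key C' g1 _ rfl (by omega) ?_
    rw [hX]
    refine three_roomR (u := u) (k := k) (M := M) (B := B) hu huk hkM hMd (fun i => ?_)
      (fun i hi => ?_) ?_ hd ?_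
    · split_ifs
      · exact hM i
      · exact Nat.zero_le _
    · split_ifs
      · exact hk i hi
      · exact Nat.zero_le _
    · rw [honB]
      exact hR
    · have h1 : BU B u (fun i => if i ∈ B ∨ i ∈ C' ∨ i ∈ Ts then m i else 0) = B ∪ C' := by
        ext i
        unfold BU
        simp only [Finset.mem_filter, Finset.mem_univ, true_and, Finset.mem_union]
        constructor
        · rintro (h | h)
          · exact Or.inl h
          · split_ifs at h with h2
            · rcases h2 with h2 | h2 | h2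
              · exact Or.inl h2
              · exact Or.inr h2
              · have := hTsmall i h2
                omega
            · omega
        · rintro (h | h)
          · exact Or.inl h
          · right
            rw [if_pos (Or.inr (Or.inl h))]
            exact hCu i (g1 h)
      rw [h1, Finset.sum_union]
      · have h2 : ∑ i ∈ B, ((if i ∈ B ∨ i ∈ C' ∨ i ∈ Ts then m i else 0) + 1).choose 2 =
            ∑ i ∈ B, (m i + 1).choose 2 :=
          Finset.sum_congr rfl (fun i hi => by rw [if_pos (Or.inl hi)])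
        have h3 : ∑ i ∈ C', ((if i ∈ B ∨ i ∈ C' ∨ i ∈ Ts then m i else 0) + 1).choose 2 =
            ∑ i ∈ C', (m i + 1).choose 2 :=
          Finset.sum_congr rfl (fun i hi => by rw [if_pos (Or.inr (Or.inl hi))])
        rw [h2, h3, ← hW, ← hX]
        omega
      · rw [Finset.disjoint_left]
        intro i hi hi'
        exact hCnB i (g1 hi') hi

end Pool.Agent.Work.MP_0421d9_ag.LD
end

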