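import Mathlib
import Mathlib.Data.Finset.Card
import Mathlib.Order.Interval.Finset.Nat
import Mathlib.Tactic.Linarith
import Mathlib.Tactic.Ring
import Pool.Agent.Work.Z0421M.C14
import Pool.Agent.Work.Z0421M.C17
import Pool.Agent.Work.Z0421M.C18
import Pool.Agent.Work.Z0421M.C21
import Pool.Agent.Work.Z0421M.C29
import Pool.Agent.Work.Z0421M.C42
import Pool.Agent.Work.Z0421M.C48
import Pool.Agent.Work.Z0421M.C51
import Pool.Agent.Work.Z0421M.C53
import Pool.Agent.Work.Z0421M.C54
import Pool.Agent.Work.Z0421M.C56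

section
/-!
Any number of points of arbitrary multiplicities: the general member.
-/

namespace Pool.Agent.Work.MP_0421d9_ag

open MvPolynomial Module LD

namespace LD

/-- at least three points: raising one multiplicity, or lowering the degree by one -/
theorem B_nef3 {r d : ℕ} (hr : 3 ≤ r) {a : Fin r → ℕ}
    (h2 : ∀ i j, i ≠ j → a i + a j + 2 ≤ d)
    (h3 : ∀ i j k, i ≠ j → i ≠ k → j ≠ k → a i + a j + a k ≤ d)
    (hK : ∑ i, a i + 18 ≤ 3 * d) :
    hPm (d - 1) a + ∑ i, (a i + 1).choose 2 = (d - 1 + 2).choose 2 ∧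
      ∀ i, hPm d (Function.update a i (a i + 1)) +
        ∑ j, (Function.update a i (a i + 1) j + 1).choose 2 = (d + 2).choose 2 := by
  classical
  have hE : ∀ e c, ExcN e c → ∑ i, (a i : ℤ) * c i + e ≤ d * e := fun e c hc => by
    have h1 := excN_bound (τ := 1) hr h3 (fun i j hij => by
      have := h2 i j hij
      omega) (by omega) hc
    push_cast at h1
    linarith
  refine ⟨?_, fun i => ?_⟩
  · refine nefN_regular hr _ _ (fun e c hc => ?_) (by omega)
    have h1 := hE e c hc
    rw [Nat.cast_sub (by omega)]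
    push_cast
    linarith
  · refine nefN_regular hr _ _ (fun e c hc => ?_) ?_
    · have h1 := hE e c hc
      have h4 := hc.coef_le i
      rw [← Finset.add_sum_erase _ _ (Finset.mem_univ i)] at h1 ⊢
      rw [Function.update_self]
      have h5 : ∑ j ∈ Finset.univ.erase i, (Function.update a i (a i + 1) j : ℤ) * c j =
          ∑ j ∈ Finset.univ.erase i, (a j : ℤ) * c j := by
        refine Finset.sum_congr rfl (fun j hj => ?_)
        rw [Function.update_of_ne (Finset.ne_of_mem_erase hj)]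
      rw [h5]
      push_cast
      linarith
    · have h5 := Finset.sum_update_of_mem (Finset.mem_univ i) a (a i + 1)
      have h6 := Finset.add_sum_erase Finset.univ a (Finset.mem_univ i)
      rw [Finset.sdiff_singleton_eq_erase] at h5
      omega

/-- any number of points -/
theorem B_nef {r d : ℕ} {a : Fin r → ℕ} (h1 : ∀ i, a i + 2 ≤ d)
    (h2 : ∀ i j, i ≠ j → a i + a j + 2 ≤ d)
    (h3 : ∀ i j k, i ≠ j → i ≠ k → j ≠ k → a i + a j + a k ≤ d)
    (hK : ∑ i, a i + 18 ≤ 3 * d) :
    hPm (d - 1) a + ∑ i, (a i + 1).choose 2 = (d - 1 + 2).choose 2 ∧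
      ∀ i, hPm d (Function.update a i (a i + 1)) +
        ∑ j, (Function.update a i (a i + 1) j + 1).choose 2 = (d + 2).choose 2 := by
  classical
  have hz : ∑ _j : Fin 3, (0 + 1).choose 2 = 0 := Finset.sum_eq_zero (fun _ _ => rfl)
  obtain ⟨y, hy⟩ : ∃ y : Fin (r + 3) → ℕ, y = Fin.append a (fun _ : Fin 3 => 0) := ⟨_, rfl⟩
  have hyl : ∀ i, y (Fin.castAdd 3 i) = a i := fun i => by rw [hy, Fin.append_left]
  have hyr : ∀ j, y (Fin.natAdd r j) = 0 := fun j => by rw [hy, Fin.append_right]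
  have hne : ∀ {i j : Fin r}, Fin.castAdd 3 i ≠ Fin.castAdd 3 j → i ≠ j := fun h h' =>
    h (congrArg _ h')
  have hd : 18 ≤ 3 * d := by omega
  have g2 : ∀ i j, i ≠ j → y i + y j + 2 ≤ d := by
    intro i j
    refine Fin.addCases (fun i' => ?_) (fun i' => ?_) i <;>
    refine Fin.addCases (fun j' => ?_) (fun j' => ?_) j <;>
    intro hij
    · rw [hyl, hyl]
      exact h2 _ _ (hne hij)
    · rw [hyl, hyr]
      exact h1 _
    · rw [hyr, hyl]
      have := h1 j'
      omega
    · rw [hyr, hyr]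
      omega
  have g3 : ∀ i j k, i ≠ j → i ≠ k → j ≠ k → y i + y j + y k ≤ d := by
    intro i j k
    refine Fin.addCases (fun i' => ?_) (fun i' => ?_) i <;>
    refine Fin.addCases (fun j' => ?_) (fun j' => ?_) j <;>
    refine Fin.addCases (fun k' => ?_) (fun k' => ?_) k <;>
    intro hij hik hjk
    · rw [hyl, hyl, hyl]
      exact h3 _ _ _ (hne hij) (hne hik) (hne hjk)
    · rw [hyl, hyl, hyr]
      have := h2 _ _ (hne hij)
      omega
    · rw [hyl, hyr, hyl]
      have := h2 _ _ (hne hik)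
      omega
    · rw [hyl, hyr, hyr]
      have := h1 i'
      omega
    · rw [hyr, hyl, hyl]
      have := h2 _ _ (hne hjk)
      omega
    · rw [hyr, hyl, hyr]
      have := h1 j'
      omega
    · rw [hyr, hyr, hyl]
      have := h1 k'
      omega
    · rw [hyr, hyr, hyr]
      omega
  have gK : ∑ i, y i + 18 ≤ 3 * d := by
    rw [hy, sum_append a _ (fun x => x), Finset.sum_const_zero]
    exact hK
  obtain ⟨b1, b2⟩ := B_nef3 (by omega : 3 ≤ r + 3) g2 g3 gK
  refine ⟨?_, fun i => ?_⟩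
  · rw [hy, hPm_append_zero, sum_append a _ (fun x => (x + 1).choose 2), hz, Nat.add_zero] at b1
    exact b1
  · have b3 := b2 (Fin.castAdd 3 i)
    have h5 : Function.update y (Fin.castAdd 3 i) (y (Fin.castAdd 3 i) + 1) =
        Fin.append (Function.update a i (a i + 1)) (fun _ : Fin 3 => 0) := by
      funext l
      rw [hyl]
      refine Fin.addCases (fun j => ?_) (fun j => ?_) l
      · rw [Fin.append_left]
        by_cases hj : j = i
        · rw [hj, Function.update_self, Function.update_self]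
        · rw [Function.update_of_ne hj, Function.update_of_ne (fun h => hj
            (Fin.castAdd_injective _ _ h)), hyl]
      · rw [Fin.append_right, Function.update_of_ne, hyr]
        intro h
        have h6 := congrArg Fin.val h
        have h7 : (Fin.natAdd r j : Fin (r + 3)).1 = r + j.1 := rfl
        have h8 : (Fin.castAdd 3 i : Fin (r + 3)).1 = i.1 := rfl
        have h9 := i.2
        omega
    rw [h5, hPm_append_zero, sum_append _ _ (fun x => (x + 1).choose 2), hz, Nat.add_zero] at b3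
    exact b3

end LD

/-- the neighbouring systems -/
theorem red_nbr {r u d : ℕ} {p : Fin r → Fin 3 → ℂ} (hp : GenericPoints p) {m m' : Fin r → ℕ}
    {B : Finset (Fin r)} (h : Red (u + 1) d m B) (hu : ∀ i, i ∉ B → m' i ≤ u + 1)
    (hB : ∀ i ∈ B, m' i ≤ m i) :
    finrank ℂ (linSys d p m') = (d + 2).choose 2 - ∑ j, (m' j + 1).choose 2 := by
  rw [hPm_eq hp]
  refine red_main (u := u + 1) (B := B) ⟨hu, fun J hJ hc => ?_, ?_⟩
  · have h1 := h.sum J hJ hc
    have h2 := Finset.sum_le_sum (s := J) (fun i hi => hB i (hJ hi))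
    omega
  · have h1 := h.can
    have h2 := Finset.sum_le_sum (s := B) (fun i hi => hB i hi)
    omega

end Pool.Agent.Work.MP_0421d9_ag
end

section
/-!
Smoothness of the general member, in terms of independent conditions.
-/

namespace Pool.Agent.Work.MP_0421d9_ag

open MvPolynomial Module LD

/-- the points in `I`, and the point `e` with its multiplicity lowered by one -/
def withE {r : ℕ} (I : Finset (Fin r)) (m : Fin r → ℕ) (e : Fin r) : Fin r → ℕ :=
  fun i => if i ∈ I then m i else if i = e then m i - 1 else 0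

theorem sum_withE {r : ℕ} (I : Finset (Fin r)) (m : Fin r → ℕ) {e : Fin r} (he : e ∉ I)
    (h2 : 1 ≤ m e) : ∑ i, (withE I m e i + 1).choose 2 =
      ∑ i ∈ I, (m i + 1).choose 2 + (m e).choose 2 := by
  classical
  unfold withE
  rw [← Finset.sum_add_sum_compl I]
  congr 1
  · exact Finset.sum_congr rfl (fun i hi => by rw [if_pos hi])
  · rw [Finset.sum_eq_single e]
    · rw [if_neg he, if_pos rfl, Nat.sub_add_cancel (by omega)]
    · intro i hi hie
      rw [if_neg (Finset.mem_compl.mp hi), if_neg hie]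
      rfl
    · intro h3
      exact absurd (Finset.mem_compl.mpr he) h3

/-- smoothness from independent conditions -/
theorem smooth_rg {r d : ℕ} (p : Fin r → Fin 3 → ℂ) (hp : GenericPoints p)
    (m : Fin r → ℕ) {I : Finset (Fin r)} (hd : 1 ≤ d)
    (hm : finrank ℂ (linSys d p m) = (d + 2).choose 2 - ∑ j, (m j + 1).choose 2)
    (h0 : finrank ℂ (linSys d p (dropSimple m)) =
      (d + 2).choose 2 - ∑ j, (dropSimple m j + 1).choose 2)
    (h1 : ∀ i, i ∉ I → 2 ≤ m i →
      finrank ℂ (linSys d p (Function.update (dropSimple m) i (m i + 1))) =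
      (d + 2).choose 2 - ∑ j, (Function.update (dropSimple m) i (m i + 1) j + 1).choose 2)
    (hJ : ∀ i, i ∉ I → 2 ≤ m i → m i < finrank ℂ (linSys d p m) +
      (Finset.univ.filter (fun j => m j = 1)).card)
    (hne : linSys d p m ≠ ⊥) (r0 : Rg (d - 1) (onB I m))
    (re : ∀ e, e ∉ I → 2 ≤ m e → Rg (d - 1) (withE I m e))
    (ri : ∀ i ∈ I, 2 ≤ m i → Rg d (Function.update (onB I m) i (m i + 1))) :
    (∃ F ∈ linSys d p m, Squarefree F) ∧
    (∀ s : Fin (finrank ℂ (linSys d p m) - 1) → Fin 3 → ℂ, GenericPoints (Sum.elim p s) →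
      ∀ F ∈ linSys d p m, F ≠ 0 → (∀ k, eval (s k) F = 0) → SmoothOnBlowup p m F) ∧
    (∃ F ∈ linSys d p m, F ≠ 0 ∧ SmoothOnBlowup p m F) := by
  classical
  have hpos : finrank ℂ (linSys d p m) ≠ 0 := by
    intro h2
    exact hne (Submodule.finrank_eq_zero.mp h2)
  have hsum := SM.sum_dropSimple m
  have hcomp : ∀ i ∉ I, 2 ≤ m i → finrank ℂ (linSys d p (dropSimple m)) =
      finrank ℂ (linSys d p (Function.update (dropSimple m) i (m i + 1))) + (m i + 1) := by
    intro i hi hmi
    have hyi : dropSimple m i = m i := by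
      unfold dropSimple
      rw [if_neg (by omega)]
    have h2 := sum_update_succ (dropSimple m) i
    rw [hyi] at h2
    have h5 := hJ i hi hmi
    rw [h0, h1 i hi hmi, h2]
    omega
  have hd2 : d - 1 + 2 = d + 1 := by omega
  refine rel_final p hp m I hd (by omega) hne ?_ (fun e he h2 => ?_) (fun i hi h2 => ?_)
    (fun i hi h3 => hcomp i hi (by omega)) (Or.inr fun i hi h2 => hcomp i hi (by omega))
  · unfold Rg at r0
    rw [sum_onB, hd2, ← hPm_eq hp] at r0
    exact r0
  · have k1 := re e he h2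
    unfold Rg at k1
    rw [sum_withE I m he (by omega), hd2, ← hPm_eq hp] at k1
    exact k1
  · have k1 := ri i hi h2
    have hi' : onB I m i = m i := if_pos hi
    have g1 : Function.update (onB I m) i (m i + 1) =
        fun j => if j ∈ I then (if j = i then m i + 1 else m j) else 0 := by
      funext j
      by_cases hj : j = i
      · rw [hj, Function.update_self, if_pos hi, if_pos rfl]
      · rw [Function.update_of_ne hj, if_neg hj]
        rfl
    have g2 : ∑ j, (Function.update (onB I m) i (m i + 1) j + 1).choose 2 =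
        ∑ j ∈ I, (m j + 1).choose 2 + (m i + 1) := by
      have e2 := sum_update_succ (onB I m) i
      rw [hi', sum_onB] at e2
      exact e2
    unfold Rg at k1
    rw [g2, g1, ← hPm_eq hp] at k1
    exact k1

/-- the class of the points in `B` of a reduced class with room for the canonical class -/
theorem B_nef_rg {r d u : ℕ} (hu : 1 ≤ u) {m : Fin r → ℕ} {B : Finset (Fin r)}
    (h3 : ∀ J ⊆ B, J.card ≤ 3 → ∑ i ∈ J, m i + (3 - J.card) * (u + 1) ≤ d)
    (hmu : ∀ i, i ∉ B → m i ≤ u) (hK : ∑ i ∈ B, m i + u + 18 ≤ 3 * d) :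
    Rg (d - 1) (onB B m) ∧ (∀ e, e ∉ B → Rg (d - 1) (withE B m e)) ∧
      ∀ i ∈ B, Rg d (Function.update (onB B m) i (m i + 1)) := by
  classical
  have hany : ∀ J : Finset (Fin r), J.card ≤ 3 → ∑ i ∈ J, m i + (3 - J.card) * (u + 1) ≤ d := by
    intro J hJ
    have h1 := h3 (J.filter (fun i => i ∈ B)) (fun i hi => (Finset.mem_filter.mp hi).2)
      ((Finset.card_filter_le _ _).trans hJ)
    have h2 := Finset.sum_filter_add_sum_filter_not J (fun i => i ∈ B) m
    have h4 := Finset.card_filter_add_card_filter_not (s := J) (fun i => i ∈ B)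
    have h5 : ∑ i ∈ J.filter (fun i => ¬ i ∈ B), m i ≤
        (J.filter (fun i => ¬ i ∈ B)).card * (u + 1) := by
      rw [← smul_eq_mul]
      exact Finset.sum_le_card_nsmul _ _ _ (fun i hi =>
        (hmu i (Finset.mem_filter.mp hi).2).trans (Nat.le_succ u))
    obtain ⟨x, hx⟩ : ∃ x, x = (J.filter (fun i => i ∈ B)).card := ⟨_, rfl⟩
    obtain ⟨y, hy⟩ : ∃ y, y = (J.filter (fun i => ¬ i ∈ B)).card := ⟨_, rfl⟩
    rw [← hx] at h1
    rw [← hy] at h5
    have h6 : x + y = J.card := by
      rw [hx, hy]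
      exact h4
    have h7 : 3 - x = y + (3 - J.card) := by omega
    have h8 : (3 - x) * (u + 1) = y * (u + 1) + (3 - J.card) * (u + 1) := by
      rw [h7]
      ring
    omega
  have c1 : ∀ i, m i + 2 ≤ d := fun i => by
    have h1 := hany {i} (by rw [Finset.card_singleton]; omega)
    rw [Finset.sum_singleton, Finset.card_singleton] at h1
    omega
  have c2 : ∀ i j, i ≠ j → m i + m j + 2 ≤ d := fun i j hij => by
    have h1 := hany {i, j} (by rw [Finset.card_pair hij]; omega)
    rw [Finset.sum_pair hij, Finset.card_pair hij] at h1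
    omega
  have c3 : ∀ i j k, i ≠ j → i ≠ k → j ≠ k → m i + m j + m k ≤ d := fun i j k hij hik hjk => by
    have hc : ({i, j, k} : Finset (Fin r)).card = 3 :=
      Finset.card_eq_three.mpr ⟨i, j, k, hij, hik, hjk, rfl⟩
    have h1 := hany {i, j, k} (by rw [hc])
    rw [Finset.sum_insert, Finset.sum_pair hjk, hc] at h1
    · omega
    · rw [Finset.mem_insert, Finset.mem_singleton, not_or]
      exact ⟨hij, hik⟩
  have key : ∀ a : Fin r → ℕ, (∀ i, a i ≤ m i) → ∑ i, a i + 18 ≤ 3 * d →
      Rg (d - 1) a ∧ ∀ i, Rg d (Function.update a i (a i + 1)) := by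
    intro a hle hs
    exact B_nef (d := d) (a := a) (fun i => (Nat.add_le_add_right (hle i) 2).trans (c1 i))
      (fun i j hij => by
        have := c2 i j hij
        have := hle i
        have := hle j
        omega)
      (fun i j k a b c => by
        have := c3 i j k a b c
        have := hle i
        have := hle j
        have := hle k
        omega) hs
  obtain ⟨n1, n2⟩ := key (onB B m) (onB_le B m) (by rw [sum_onB_id]; omega)
  refine ⟨n1, fun e he => (key (withE B m e) (fun i => ?_) ?_).1, fun i hi => ?_⟩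
  · unfold withE
    split_ifs <;> omega
  · have h1 : ∑ i, withE B m e i = ∑ i ∈ B, m i + (m e - 1) := by
      unfold withE
      rw [← Finset.sum_add_sum_compl B]
      congr 1
      · exact Finset.sum_congr rfl (fun i hi => by rw [if_pos hi])
      · rw [Finset.sum_eq_single e]
        · rw [if_neg he, if_pos rfl]
        · intro i hi hie
          rw [if_neg (Finset.mem_compl.mp hi), if_neg hie]
        · intro h3
          exact absurd (Finset.mem_compl.mpr he) h3
    rw [h1]
    have := hmu e he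
    omega
  · have h1 := n2 i
    have h2 : onB B m i = m i := if_pos hi
    rw [h2] at h1
    exact h1

end Pool.Agent.Work.MP_0421d9_ag
end

section
/-!
Explicit conditions for the independence of the conditions.
-/

namespace Pool.Agent.Work.MP_0421d9_ag.LD

open MvPolynomial Module

/-- the degree is large compared to the multiplicities in `B` and their sums in pairs; if `B` has
more than three elements, then the system with these multiplicities is reduced, and has a large
intersection with the anticanonical class -/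
def Apt {r : ℕ} (t d : ℕ) (m : Fin r → ℕ) (B : Finset (Fin r)) : Prop :=
  (∀ J ⊆ B, J.card ≤ 2 → ∑ i ∈ J, m i + t ≤ d) ∧
    (B.card ≤ 3 ∨ ((∀ J ⊆ B, J.card ≤ 3 → ∑ i ∈ J, m i ≤ d) ∧ ∑ i ∈ B, m i + 9 * t ≤ 3 * d))

section Apt

variable {r t d : ℕ} {m : Fin r → ℕ} {B : Finset (Fin r)}

theorem Apt.t0 (h : Apt t d m B) : t ≤ d := by
  have h1 := h.1 ∅ (Finset.empty_subset _) (by simp)
  rw [Finset.sum_empty] at h1
  omega

theorem Apt.t1 (h : Apt t d m B) {i : Fin r} (hi : i ∈ B) : m i + t ≤ d := by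
  have h1 := h.1 {i} (Finset.singleton_subset_iff.mpr hi) (by rw [Finset.card_singleton]; omega)
  rw [Finset.sum_singleton] at h1
  exact h1

theorem Apt.t2 (h : Apt t d m B) {i j : Fin r} (hi : i ∈ B) (hj : j ∈ B) (hij : i ≠ j) :
    m i + m j + t ≤ d := by
  have h1 := h.1 {i, j} (fun l hl => by
    rcases Finset.mem_insert.mp hl with hl | hl
    · rw [hl]
      exact hi
    · rw [Finset.mem_singleton.mp hl]
      exact hj) (by rw [Finset.card_pair hij])
  rw [Finset.sum_pair hij] at h1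
  exact h1

theorem Apt.mono (h : Apt t d m B) {m' : Fin r → ℕ} (hm : ∀ i ∈ B, m' i ≤ m i) :
    Apt t d m' B := by
  have hs : ∀ J ⊆ B, ∑ i ∈ J, m' i ≤ ∑ i ∈ J, m i := fun J hJ =>
    Finset.sum_le_sum (fun i hi => hm i (hJ hi))
  refine ⟨fun J hJ hc => ?_, ?_⟩
  · have h1 := h.1 J hJ hc
    have h2 := hs J hJ
    omega
  · rcases h.2 with h2 | ⟨h2, h3⟩
    · exact Or.inl h2
    · refine Or.inr ⟨fun J hJ hc => ?_, ?_⟩
      · exact (hs J hJ).trans (h2 J hJ hc)
      · have h4 := hs B (Finset.Subset.refl B)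
        omega

theorem Apt.pad (h : Apt t d m B) :
    Apt t d (Fin.append m (fun _ : Fin 3 => 0)) (B.map (Fin.castAddEmb 3)) := by
  classical
  have hs : ∀ J : Finset (Fin r), ∑ x ∈ J.map (Fin.castAddEmb 3),
      Fin.append m (fun _ : Fin 3 => 0) x = ∑ x ∈ J, m x := fun J => by
    rw [Finset.sum_map]
    exact Finset.sum_congr rfl (fun x _ => Fin.append_left m _ x)
  refine ⟨fun J hJ hc => ?_, ?_⟩
  · obtain ⟨J', hJ', rfl⟩ := Finset.subset_map_iff.mp hJ
    rw [Finset.card_map] at hc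
    rw [hs]
    exact h.1 J' hJ' hc
  · rcases h.2 with h2 | ⟨h2, h3⟩
    · left
      rw [Finset.card_map]
      exact h2
    · refine Or.inr ⟨fun J hJ hc => ?_, ?_⟩
      · obtain ⟨J', hJ', rfl⟩ := Finset.subset_map_iff.mp hJ
        rw [Finset.card_map] at hc
        rw [hs]
        exact h2 J' hJ' hc
      · rw [hs]
        exact h3

/-- at most three points -/
theorem three_of_card (hr : 3 ≤ r) (hB : B.card ≤ 3) :
    ∃ i j k : Fin r, i ≠ j ∧ i ≠ k ∧ j ≠ k ∧ B ⊆ {i, j, k} := by
  classical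
  obtain ⟨B', h1, h2⟩ := Finset.exists_superset_card_eq hB (by rw [Fintype.card_fin]; exact hr)
  obtain ⟨i, j, k, hij, hik, hjk, rfl⟩ := Finset.card_eq_three.mp h2
  exact ⟨i, j, k, hij, hik, hjk, h1⟩

theorem Apt.pairs (h : Apt t d m B) (i j : Fin r) (hij : i ≠ j) :
    onB B m i + onB B m j + t ≤ d := by
  have h0 := h.t0
  unfold onB
  split_ifs with h1 h2 h2
  · exact h.t2 h1 h2 hij
  · have := h.t1 h1
    omega
  · have := h.t1 h2
    omega
  · omega

theorem sum_three_of_sub {i j k : Fin r} (hij : i ≠ j) (hik : i ≠ k) (hjk : j ≠ k)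
    (hB : B ⊆ {i, j, k}) (f : Fin r → ℤ) (hf : ∀ l, l ∉ B → f l = 0) :
    ∑ l, f l = f i + f j + f k := by
  classical
  rw [← Finset.sum_subset (Finset.subset_univ ({i, j, k} : Finset (Fin r))) (fun l _ hl =>
    hf l (fun h => hl (hB h))), Finset.sum_insert, Finset.sum_pair hjk, add_assoc]
  rw [Finset.mem_insert, Finset.mem_singleton, not_or]
  exact ⟨hij, hik⟩

theorem far_num {x y z D τ e p q s : ℤ} (hx : 0 ≤ x) (hy : 0 ≤ y) (hz : 0 ≤ z)
    (h1 : x + y + τ ≤ D) (h2 : x + z + τ ≤ D) (h3 : y + z + τ ≤ D) (he : 0 ≤ e)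
    (hp : p ≤ e) (hq : q ≤ e) (hs : s ≤ e) (hsum : p + q + s ≤ 2 * e) :
    x * p + y * q + z * s + τ * e ≤ D * e := by
  rcases le_total (x + y + z + τ) D with h | h
  · nlinarith [mul_nonneg hx (sub_nonneg.mpr hp), mul_nonneg hy (sub_nonneg.mpr hq),
      mul_nonneg hz (sub_nonneg.mpr hs), mul_nonneg (sub_nonneg.mpr h) he]
  · nlinarith [mul_nonneg (sub_nonneg.mpr h3) (sub_nonneg.mpr hp),
      mul_nonneg (sub_nonneg.mpr h2) (sub_nonneg.mpr hq),
      mul_nonneg (sub_nonneg.mpr h1) (sub_nonneg.mpr hs),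
      mul_nonneg (sub_nonneg.mpr h) (sub_nonneg.mpr hsum)]

theorem Apt.far (h : Apt t d m B) (hr : 3 ≤ r) {τ : ℕ} (ht : 2 * τ ≤ t) :
    FarN τ d (onB B m) := by
  classical
  rcases h.2 with hB | ⟨h3, h4⟩
  · obtain ⟨i, j, k, hij, hik, hjk, hs⟩ := three_of_card hr hB
    intro e c hc
    have h1 := h.pairs i j hij
    have h2 := h.pairs i k hik
    have h3 := h.pairs j k hjk
    rw [sum_three_of_sub hij hik hjk hs (fun l => (onB B m l : ℤ) * c l) (fun l hl => by
      have h5 : onB B m l = 0 := if_neg hl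
      rw [h5, Nat.cast_zero, zero_mul])]
    exact far_num (Int.natCast_nonneg _) (Int.natCast_nonneg _) (Int.natCast_nonneg _)
      (by exact_mod_cast (by omega : onB B m i + onB B m j + τ ≤ d))
      (by exact_mod_cast (by omega : onB B m i + onB B m k + τ ≤ d))
      (by exact_mod_cast (by omega : onB B m j + onB B m k + τ ≤ d)) hc.nonneg (hc.coef_le i)
      (hc.coef_le j) (hc.coef_le k) (hc.three hij hik hjk)
  · refine far_of_reduced hr (fun i j k hij hik hjk => ?_) (fun i j hij => ?_) ?_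
    · have p1 := h.pairs i j hij
      have p2 := h.pairs i k hik
      have p3 := h.pairs j k hjk
      by_cases hi : i ∈ B
      · by_cases hj : j ∈ B
        · by_cases hk : k ∈ B
          · have h5 := h3 {i, j, k} (fun l hl => by
              rcases Finset.mem_insert.mp hl with hl | hl
              · rw [hl]
                exact hi
              · rcases Finset.mem_insert.mp hl with hl | hl
                · rw [hl]
                  exact hj
                · rw [Finset.mem_singleton.mp hl]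
                  exact hk) (Finset.card_eq_three.mpr ⟨i, j, k, hij, hik, hjk, rfl⟩).le
            rw [Finset.sum_insert, Finset.sum_pair hjk] at h5
            · have e1 : onB B m i = m i := if_pos hi
              have e2 : onB B m j = m j := if_pos hj
              have e3 : onB B m k = m k := if_pos hk
              omega
            · rw [Finset.mem_insert, Finset.mem_singleton, not_or]
              exact ⟨hij, hik⟩
          · have e3 : onB B m k = 0 := if_neg hk
            omega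
        · have e3 : onB B m j = 0 := if_neg hj
          omega
      · have e3 : onB B m i = 0 := if_neg hi
        omega
    · have := h.pairs i j hij
      omega
    · rw [sum_onB_id]
      omega

theorem Apt.can (h : Apt t d m B) (hr : 3 ≤ r) :
    2 * ∑ i ∈ B, m i + 3 * t ≤ 3 * d ∨ ∑ i ∈ B, m i + 9 * t ≤ 3 * d := by
  classical
  rcases h.2 with hB | ⟨h3, h4⟩
  · left
    obtain ⟨i, j, k, hij, hik, hjk, hs⟩ := three_of_card hr hB
    have h1 := h.pairs i j hij
    have h2 := h.pairs i k hik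
    have h3 := h.pairs j k hjk
    have h4 := sum_three_of_sub hij hik hjk hs (fun l => (onB B m l : ℤ)) (fun l hl => by
      have h5 : onB B m l = 0 := if_neg hl
      rw [h5, Nat.cast_zero])
    have h5 : ∑ l, onB B m l = onB B m i + onB B m j + onB B m k := by
      have h6 : ((∑ l, onB B m l : ℕ) : ℤ) = ((onB B m i + onB B m j + onB B m k : ℕ) : ℤ) := by
        push_cast
        exact h4
      exact_mod_cast h6
    rw [sum_onB_id] at h5
    omega
  · exact Or.inr h4

theorem Apt.can_small (h : Apt t d m B) (hr : 3 ≤ r) (hB : B.card ≤ 3) :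
    2 * ∑ i ∈ B, m i + 3 * t ≤ 3 * d := by
  rcases h.can hr with h1 | h1
  · exact h1
  · classical
    obtain ⟨i, j, k, hij, hik, hjk, hs⟩ := three_of_card hr hB
    have h1 := h.pairs i j hij
    have h2 := h.pairs i k hik
    have h3 := h.pairs j k hjk
    have h4 := sum_three_of_sub hij hik hjk hs (fun l => (onB B m l : ℤ)) (fun l hl => by
      have h5 : onB B m l = 0 := if_neg hl
      rw [h5, Nat.cast_zero])
    have h5 : ∑ l, onB B m l = onB B m i + onB B m j + onB B m k := by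
      have h6 : ((∑ l, onB B m l : ℕ) : ℤ) = ((onB B m i + onB B m j + onB B m k : ℕ) : ℤ) := by
        push_cast
        exact h4
      exact_mod_cast h6
    rw [sum_onB_id] at h5
    omega

end Apt

theorem Rg.of_append {r D : ℕ} {a : Fin r → ℕ} (h : Rg D (Fin.append a (fun _ : Fin 3 => 0))) :
    Rg D a := by
  have hz : ∑ _j : Fin 3, (0 + 1).choose 2 = 0 := Finset.sum_eq_zero (fun _ _ => rfl)
  unfold Rg at h ⊢
  rw [hPm_append_zero, sum_append a _ (fun x => (x + 1).choose 2), hz, Nat.add_zero] at h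
  exact h

theorem onB_append3 {r : ℕ} (B : Finset (Fin r)) (m : Fin r → ℕ) :
    onB (B.map (Fin.castAddEmb 3)) (Fin.append m (fun _ : Fin 3 => 0)) =
      Fin.append (onB B m) (fun _ : Fin 3 => 0) := by
  classical
  funext i
  refine Fin.addCases (fun j => ?_) (fun j => ?_) i
  · rw [Fin.append_left]
    unfold onB
    by_cases hj : j ∈ B
    · have h1 : Fin.castAdd 3 j ∈ B.map (Fin.castAddEmb 3) :=
        Finset.mem_map_of_mem (Fin.castAddEmb 3) hj
      rw [if_pos hj, if_pos h1, Fin.append_left]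
    · rw [if_neg hj, if_neg]
      intro h
      obtain ⟨l, hl, hlj⟩ := Finset.mem_map.mp h
      have : l = j := Fin.castAdd_injective _ _ hlj
      exact hj (this ▸ hl)
  · rw [Fin.append_right]
    unfold onB
    split_ifs
    · rw [Fin.append_right]
    · rfl

/-- at most three points -/
theorem indep_small {r D : ℕ} {m : Fin r → ℕ} {B : Finset (Fin r)} (hB : B.card ≤ 3)
    (h : ∀ J ⊆ B, J.card ≤ 2 → ∑ i ∈ J, m i ≤ D) : Rg D (onB B m) := by
  classical
  have hA : Apt 0 D m B := ⟨fun J hJ hc => h J hJ hc, Or.inl hB⟩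
  have hA' := hA.pad
  have hc : (B.map (Fin.castAddEmb 3)).card ≤ 3 := by
    rw [Finset.card_map]
    exact hB
  have hr : 3 ≤ r + 3 := by omega
  have h1 := hA'.can_small hr hc
  have h2 := hA'.far hr (τ := 0) le_rfl
  apply Rg.of_append
  rw [← onB_append3]
  rcases Nat.eq_zero_or_pos D with h0 | h0
  · subst h0
    have h3 : onB (B.map (Fin.castAddEmb 3)) (Fin.append m (fun _ : Fin 3 => 0)) = fun _ => 0 := by
      funext i
      unfold onB
      split_ifs with hi
      · have h4 := hA'.t1 hi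
        omega
      · rfl
    rw [h3]
    exact Rg_zero 0
  · have h3 := h2.nef (v := 0) le_rfl (Nat.zero_le _)
    rw [Nat.sub_zero] at h3
    refine nefN_regular hr D _ h3 ?_
    rw [sum_onB_id]
    omega

/-- any number of points -/
theorem indep_reduced {r D : ℕ} {m : Fin r → ℕ} {B : Finset (Fin r)}
    (h3 : ∀ J ⊆ B, J.card ≤ 3 → ∑ i ∈ J, m i ≤ D) (hK : ∑ i ∈ B, m i < 3 * D) :
    Rg D (onB B m) := by
  classical
  refine B_regular (d := D) (m := onB B m) (fun J hJ => ?_) (by
    rw [sum_onB_id]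
    exact hK)
  have h4 : ∑ i ∈ J, onB B m i = ∑ i ∈ J.filter (fun i => i ∈ B), m i := by
    rw [Finset.sum_filter]
    rfl
  rw [h4]
  exact h3 _ (fun i hi => (Finset.mem_filter.mp hi).2)
    ((Finset.card_filter_le _ _).trans hJ)

end Pool.Agent.Work.MP_0421d9_ag.LD
end

section
/-!
Smoothness of the general member above the square root window.
-/

namespace Pool.Agent.Work.MP_0421d9_ag

open MvPolynomial Module LD

/-- adding simple points to a regular system -/
theorem ns_simple {r d : ℕ} {m b : Fin r → ℕ} (hb : Rg d b) (hbm : ∀ i, b i ≤ m i)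
    (h1 : ∀ i, b i < m i → m i ≤ 1) :
    hPm d m = (d + 2).choose 2 - ∑ i, (m i + 1).choose 2 := by
  classical
  obtain ⟨E, hE⟩ := exists_dual (gpt r) (gpt_generic r)
  have h2 := linSys_count (d := d) (gpt r) m
  change _ ≤ hPm d m + _ at h2
  by_cases hpos : hPm d m = 0
  · omega
  · by_contra hcon
    obtain ⟨i, j, hi, -, hX⟩ := special_bound_above (d := d) hE hb hbm (m := m)
      (Nat.pos_of_ne_zero hpos) (by
        change _ < hPm d m + _
        omega)
    have h3 := h1 i hi
    have h4 : m i - 1 = 0 := by omega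
    rw [h4, Nat.zero_mul] at hX
    exact hpos (Nat.le_zero.mp hX)

/-- raising one multiplicity, above the window -/
theorem ns_raise {r d M u : ℕ} {y b : Fin r → ℕ} (hb : Rg d b) (hby : ∀ j, b j ≤ y j) {i : Fin r}
    (hi : b i < y i) (hyi : y i ≤ u + 1) (hu : 1 ≤ u) (huM : u ≤ M)
    (hM : ∀ j, j ≠ i → y j ≤ M) (hms : ∀ j, j ≠ i → b j < y j → y j ≤ u)
    (h : ∑ j, (y j + 1).choose 2 + u * (M - 1) ≤ (d + 2).choose 2) :
    hPm d y = (d + 2).choose 2 - ∑ j, (y j + 1).choose 2 := by
  classical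
  obtain ⟨E, hE⟩ := exists_dual (gpt r) (gpt_generic r)
  have h2 := linSys_count (d := d) (gpt r) y
  change _ ≤ hPm d y + _ at h2
  by_cases hpos : hPm d y = 0
  · omega
  · by_contra hcon
    obtain ⟨a, c, ha, hac, hX⟩ := special_bound_above (d := d) hE hb hby (m := y)
      (Nat.pos_of_ne_zero hpos) (by
        change _ < hPm d y + _
        omega)
    change hPm d y ≤ _ at hX
    have h3 : (y a - 1) * (y c - 1) ≤ u * (M - 1) := by
      obtain ⟨v, rfl⟩ : ∃ v, u = v + 1 := ⟨u - 1, by omega⟩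
      obtain ⟨K, rfl⟩ : ∃ K, M = K + 1 := ⟨M - 1, by omega⟩
      have h5 : v * (K + 1) ≤ (v + 1) * K := by
        have e1 : v * (K + 1) = v * K + v := by ring
        have e2 : (v + 1) * K = v * K + K := by ring
        omega
      rw [Nat.add_sub_cancel]
      by_cases hai : a = i
      · subst hai
        have h4 := hM c (fun h => hac h.symm)
        exact Nat.mul_le_mul (by omega) (by omega)
      · have h4 := hms a hai ha
        have h6 : y c ≤ K + 1 + 1 := by
          by_cases hci : c = i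
          · rw [hci]
            omega
          · have := hM c hci
            omega
        exact (Nat.mul_le_mul (by omega : y a - 1 ≤ v) (by omega : y c - 1 ≤ K + 1)).trans h5
    omega

/-- **Smoothness above the window.** -/
theorem window_smooth {r d M u : ℕ} (p : Fin r → Fin 3 → ℂ) (hp : GenericPoints p)
    (m : Fin r → ℕ) {B : Finset (Fin r)} (hu : 1 ≤ u) (huM : u ≤ M) (hM : ∀ i, m i ≤ M)
    (hms : ∀ i, i ∉ B → m i ≤ u)
    (hχ : ∑ i, (m i + 1).choose 2 + u * M + 1 ≤
      (d + 2).choose 2 + (Finset.univ.filter (fun j => m j = 1)).card)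
    (r0 : Rg (d - 1) (onB B m)) (re : ∀ e, e ∉ B → 2 ≤ m e → Rg (d - 1) (withE B m e))
    (ri : ∀ i ∈ B, 2 ≤ m i → Rg d (Function.update (onB B m) i (m i + 1))) :
    finrank ℂ (linSys d p m) = (d + 2).choose 2 - ∑ j, (m j + 1).choose 2 ∧
    (linSys d p m ≠ ⊥ →
    (∃ F ∈ linSys d p m, Squarefree F) ∧
    (∀ s : Fin (finrank ℂ (linSys d p m) - 1) → Fin 3 → ℂ, GenericPoints (Sum.elim p s) →
      ∀ F ∈ linSys d p m, F ≠ 0 → (∀ k, eval (s k) F = 0) → SmoothOnBlowup p m F) ∧
    (∃ F ∈ linSys d p m, F ≠ 0 ∧ SmoothOnBlowup p m F)) := by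
  classical
  have hsum := SM.sum_dropSimple m
  have hdle := dropSimple_le m
  have hrB : Rg d (onB B m) := r0.mono (Nat.sub_le _ _)
  have hrD : Rg d (onB B (dropSimple m)) := hrB.of_le (fun i => by
    unfold onB
    split_ifs
    · exact hdle i
    · exact le_rfl)
  obtain ⟨s, hs⟩ : ∃ s, s = (Finset.univ.filter (fun j => m j = 1)).card := ⟨_, rfl⟩
  rw [← hs] at hχ hsum
  have huM' : (M - 1) * (u - 1) ≤ u * M := by
    calc (M - 1) * (u - 1) ≤ M * u := Nat.mul_le_mul (Nat.sub_le _ _) (Nat.sub_le _ _)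
      _ = u * M := Nat.mul_comm _ _
  have hregD : Rg d (dropSimple m) := by
    refine kq_regular (M := M) (u := u) B huM (fun i => (hdle i).trans (hM i))
      (fun i hi => (hdle i).trans (hms i hi)) hrD ?_
    omega
  have hNS : hPm d m = (d + 2).choose 2 - ∑ j, (m j + 1).choose 2 :=
    ns_simple hregD hdle (fun i hi => by
      unfold dropSimple at hi
      split_ifs at hi with h
      · omega
      · omega)
  have hNS' : finrank ℂ (linSys d p m) = (d + 2).choose 2 - ∑ j, (m j + 1).choose 2 := by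
    rw [hPm_eq hp]
    exact hNS
  refine ⟨hNS', fun hne => ?_⟩
  have hpos : finrank ℂ (linSys d p m) ≠ 0 := by
    intro h2
    exact hne (Submodule.finrank_eq_zero.mp h2)
  obtain ⟨f₁, hf₁, hf₁0⟩ := Submodule.exists_mem_ne_zero_of_ne_bot hne
  have hmd : ∀ i, m i ≤ d := fun i => le_of_vanishTo hf₁.1 hf₁0 (hf₁.2 i)
  have hregD' := hregD
  unfold Rg at hregD'
  by_cases hd : d = 0
  · -- degree zero
    subst hd
    exfalso
    have h1 : ∀ i, m i = 0 := fun i => Nat.le_zero.mp (hmd i)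
    have h2 : s = 0 := by
      rw [hs, Finset.card_eq_zero, Finset.filter_eq_empty_iff]
      intro i _ h3
      rw [h1 i] at h3
      omega
    have h3 : 1 * 1 ≤ u * M := Nat.mul_le_mul hu (by omega)
    have h4 : (0 + 2).choose 2 = 1 := rfl
    omega
  refine smooth_rg p hp m (I := B) (by omega) hNS' ?_ (fun i hi hmi => ?_) (fun i hi hmi => ?_)
    hne r0 re ri
  · rw [hPm_eq hp]
    omega
  · rw [hPm_eq hp]
    have h2 := sum_update_succ (dropSimple m) i
    have hyi : dropSimple m i = m i := by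
      unfold dropSimple
      rw [if_neg (by omega)]
    rw [hyi] at h2
    have hmu := hms i hi
    refine ns_raise (M := M) (u := u) (b := onB B (dropSimple m)) (i := i) hrD (fun j => ?_) ?_ ?_
      hu huM (fun j hj => ?_) (fun j hj hj' => ?_) ?_
    · by_cases hj : j = i
      · rw [hj, Function.update_self]
        have : onB B (dropSimple m) i = 0 := if_neg hi
        omega
      · rw [Function.update_of_ne hj]
        exact onB_le _ _ _
    · rw [Function.update_self]
      have : onB B (dropSimple m) i = 0 := if_neg hi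
      omega
    · rw [Function.update_self]
      omega
    · rw [Function.update_of_ne hj]
      exact (hdle j).trans (hM j)
    · rw [Function.update_of_ne hj] at hj' ⊢
      have hjB : j ∉ B := by
        intro h
        have h5 : onB B (dropSimple m) j = dropSimple m j := if_pos h
        omega
      exact (hdle j).trans (hms j hjB)
    · rw [h2]
      obtain ⟨K, rfl⟩ : ∃ K, M = K + 1 := ⟨M - 1, by omega⟩
      rw [Nat.add_sub_cancel]
      have e1 : u * (K + 1) = u * K + u := by ring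
      omega
  · have hmu := hms i hi
    have h3 : u * 1 ≤ u * M := Nat.mul_le_mul_left u (by omega)
    rw [← hs]
    omega

end Pool.Agent.Work.MP_0421d9_ag
end

section
/-!
From the nonspeciality of the systems with larger multiplicities to the smoothness of the general
members: the points of a set `U` have arbitrary multiplicities.
-/

set_option linter.unusedSectionVars false

namespace Pool.Agent.Work.MP_0421d9_ag.ZE

open MvPolynomial Module SM ZC LD

theorem fn_update {κ : Type} [Fintype κ] [DecidableEq κ] (y : κ → ℕ) (j : κ) (v : ℕ) :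
    fn (Function.update y j v) = Function.update (fn y) (Fintype.equivFin κ j) v := by
  funext k
  unfold fn
  by_cases hk : k = Fintype.equivFin κ j
  · rw [hk, Equiv.symm_apply_apply, Function.update_self, Function.update_self]
  · have h1 : (Fintype.equivFin κ).symm k ≠ j := fun h => hk (by rw [← h, Equiv.apply_symm_apply])
    rw [Function.update_of_ne h1, Function.update_of_ne hk]

theorem reg_iff_rg {κ : Type} [Fintype κ] {d : ℕ} {y : κ → ℕ} : Reg d y ↔ Rg d (fn y) := by
  unfold Reg Rg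
  rw [sum_fn y (fun n => (n + 1).choose 2)]

/-- independent conditions in degree `d` suffice in degree `d + 1` -/
theorem free_of_Reg {κ : Type} [Fintype κ] [DecidableEq κ] {d : ℕ} {y : κ → ℕ} (h : Reg d y) :
    Free (d + 1) y := by
  have h1 := reg_iff_rg.mp h
  refine free_of_Nsp h.nsp (reg_iff_rg.mpr (h1.mono (Nat.le_succ d))).nsp (fun j => ?_) h.le
  have h2 := h1.raise (Fintype.equivFin κ j)
  have h3 : fn y (Fintype.equivFin κ j) = y j := by
    unfold fn
    rw [Equiv.symm_apply_apply]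
  rw [h3, ← fn_update] at h2
  exact (reg_iff_rg.mpr h2).nsp

/-- points of multiplicity zero can be dropped -/
theorem hPm_emb {κ κ' : Type} [Fintype κ] [Fintype κ'] (j : κ' ↪ κ) {y : κ → ℕ}
    (h0 : ∀ k, (∀ i, j i ≠ k) → y k = 0) (d : ℕ) :
    hPm d (fn y) = hPm d (fn (fun i => y (j i))) := by
  obtain ⟨p, hp⟩ := exists_generic_fam κ
  have hp' : GenericPoints (fun i => p (j i)) := by
    unfold GenericPoints at hp ⊢
    exact hp.comp (fun z : κ' × Fin 3 => (j z.1, z.2))
      (fun z z' hz => by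
        obtain ⟨z1, z2⟩ := z
        obtain ⟨z1', z2'⟩ := z'
        dsimp only at hz
        rw [Prod.mk.injEq] at hz ⊢
        exact ⟨j.injective hz.1, hz.2⟩)
  rw [← finrank_eq_hPm hp, ← finrank_eq_hPm hp']
  have h1 : linSys d p y = linSys d (fun i => p (j i)) (fun i => y (j i)) := by
    ext F
    constructor
    · rintro ⟨h1, h2⟩
      exact ⟨h1, fun k => h2 _⟩
    · rintro ⟨h1, h2⟩
      refine ⟨h1, fun k => ?_⟩
      by_cases hk : ∃ i, j i = k
      · obtain ⟨i, rfl⟩ := hk
        exact h2 i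
      · push Not at hk
        rw [h0 k hk]
        exact vanishTo_zero F (p k)
  rw [h1]

theorem hPm_fn_fin {r : ℕ} (y : Fin r → ℕ) (d : ℕ) : hPm d (fn y) = hPm d y := by
  obtain ⟨p, hp⟩ := exists_generic_fam (Fin r)
  rw [← finrank_eq_hPm hp, hPm_eq hp]

/-- **From nonspeciality to smoothness.** If all the systems of degree `d` with the multiplicities
`m i` for `i ∈ U` and any further multiplicities at most `t` are nonspecial, and if those with at
most `202` further multiplicities are generated by their members, then the general members of the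
systems with further multiplicities at most `u` are not bad, where `t` is larger than
`u ^ (1 + ε)`. -/
theorem rigid_not_badG {ε : ℝ} (hε : 0 < ε) : ∃ c : ℝ, 0 < c ∧ ∀ (d u t : ℕ) (ι : Type) [Fintype ι]
    [DecidableEq ι] (p : ι → V3) (m : ι → ℕ) (U : Finset ι), GenericPoints p → 1 ≤ u →
    (∀ i, i ∉ U → m i ≤ u) → c * (u : ℝ) ^ (1 + ε) ≤ t →
    (∀ (κ : Type) [Fintype κ] [DecidableEq κ] (y : κ → ℕ) (j : {i // i ∈ U} ↪ κ),
      (∀ i, y (j i) = m i.1) → (∀ k, (∀ i, j i ≠ k) → y k ≤ t) → Nsp d y) →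
    (∀ (κ : Type) [Fintype κ] [DecidableEq κ] (y : κ → ℕ) (j : {i // i ∈ U} ↪ κ),
      (∀ i, y (j i) = m i.1) → (∀ k, (∀ i, j i ≠ k) → y k ≤ t) →
      (∃ S : Finset κ, S.card ≤ 202 ∧ ∀ k ∉ S, (∀ i, j i ≠ k) → y k = 0) → Free d y) →
    (∀ i ∈ U, m i + 1 ≤ d) → t ≤ d →
    c * (u : ℝ) ^ (2 + ε) ≤ ∑ i ∈ Uᶜ, ((m i + 1).choose 2 : ℝ) →
    ∑ i, (m i + 1).choose 2 + 1 = (d + 2).choose 2 →
    ∀ F ∈ linSys d p m, F ≠ 0 → ¬ Bad d p m F := by
  obtain ⟨c, hc, h⟩ := exists_pick_eps hε
  refine ⟨c, hc, fun d u t ι _ _ p m B hp hu hm ht hN hF hmd htd hB hχ F hFl hF0 => ?_⟩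
  obtain ⟨M, C, μ, w, e, hCB, he, hμ, huM, hMt, hP⟩ := h d u t ι m B hu hm ht hB hχ
  obtain ⟨U, hU⟩ : ∃ U : Finset {i : ι // ∀ l, i ∉ C l},
      U = Finset.univ.filter (fun i => i.1 ∈ B) := ⟨_, rfl⟩
  have hUm : ∀ i, i ∈ U ↔ i.1 ∈ B := fun i => by
    rw [hU, Finset.mem_filter]
    exact ⟨fun h => h.2, fun h => ⟨Finset.mem_univ i, h⟩⟩
  have hut : u + 4 ≤ t := by
    have := (hμ 0)
    omega
  -- the embedding
  let j : {i // i ∈ B} ↪ ({i : ι // ∀ l, i ∉ C l} ⊕ Fin 200) :=
    ⟨fun i => Sum.inl ⟨i.1, hCB i.1 i.2⟩, fun i i' h => by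
      rw [Sum.inl.injEq, Subtype.mk.injEq] at h
      exact Subtype.ext h⟩
  have hj : ∀ i : {i : ι // ∀ l, i ∉ C l}, (∀ i', j i' ≠ Sum.inl i) → i.1 ∉ B :=
    fun i h hi => h ⟨i.1, hi⟩ rfl
  refine Dat.not_bad_split hp (by norm_num) (μ := μ) (w := w) (Mv := fun _ => u + 1) (U := U) he
    (hP.dat (fun y hy => ?_) (fun y hy => ?_) (fun i hi => ?_) (fun i => ?_) (fun l => ?_)) hFl hF0
  · obtain ⟨h1, T, hT, h3, h4⟩ := hy
    refine hN _ y j (fun i => ?_) (fun k hk => ?_)
    · change y (Sum.inl ⟨i.1, hCB i.1 i.2⟩) = m i.1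
      rw [h4 _ (fun hiT => (h3 _ hiT).1 ((hUm _).mpr i.2))]
    · rcases k with i | l
      · have hiB := hj i hk
        have h5 := hm i.1 hiB
        by_cases hiT : i ∈ T
        · have h6 := (h3 i hiT).2
          change y (Sum.inl i) ≤ m i.1 + 1 at h6
          omega
        · rw [h4 i hiT]
          change m i.1 ≤ t
          omega
      · have h6 := (h1 l).2
        have h7 := (hμ l).2
        omega
  · obtain ⟨h1, h2, T, hT, h3, h4⟩ := hy
    refine hF _ y j (fun i => ?_) (fun k hk => ?_) ?_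
    · exact h2 _ ((hUm _).mpr i.2)
    · rcases k with i | l
      · have hiB := hj i hk
        have h5 := hm i.1 hiB
        by_cases hiT : i ∈ T
        · have h6 := (h3 i hiT).2
          change y (Sum.inl i) ≤ m i.1 at h6
          omega
        · rw [h4 i hiT (fun h => hiB ((hUm i).mp h))]
          exact Nat.zero_le _
      · have h6 := (h1 l).2
        have h7 := (hμ l).2
        omega
    · refine ⟨T.map Function.Embedding.inl ∪ Finset.univ.map Function.Embedding.inr, ?_, ?_⟩
      · refine (Finset.card_union_le _ _).trans ?_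
        rw [Finset.card_map, Finset.card_map, Finset.card_univ, Fintype.card_fin]
        omega
      · intro k hkS hk
        rw [Finset.mem_union, not_or] at hkS
        rcases k with i | l
        · refine h4 i (fun hiT => hkS.1 (Finset.mem_map_of_mem _ hiT)) (fun hiU => ?_)
          exact hj i hk ((hUm i).mp hiU)
        · exact absurd (Finset.mem_map_of_mem Function.Embedding.inr (Finset.mem_univ l)) hkS.2
  · have h5 := hm i.1 (fun h => hi ((hUm i).mpr h))
    change m i.1 + 1 ≤ M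
    omega
  · by_cases hi : i.1 ∈ B
    · exact hmd i.1 hi
    · have h5 := hm i.1 hi
      change m i.1 + 1 ≤ d
      omega
  · have := (hμ l).2
    omega

/-- **From nonspeciality to smoothness**, general members -/
theorem general_not_badG {ε : ℝ} (hε : 0 < ε) : ∃ c : ℝ, 0 < c ∧ ∀ (r d u t : ℕ)
    (p : Fin r → V3) (m : Fin r → ℕ) (U : Finset (Fin r)), GenericPoints p → 1 ≤ u →
    (∀ i, i ∉ U → m i ≤ u) → c * (u : ℝ) ^ (1 + ε) ≤ t →
    (∀ (κ : Type) [Fintype κ] [DecidableEq κ] (y : κ → ℕ) (j : {i // i ∈ U} ↪ κ),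
      (∀ i, y (j i) = m i.1) → (∀ k, (∀ i, j i ≠ k) → y k ≤ t) → Nsp d y) →
    (∀ (κ : Type) [Fintype κ] [DecidableEq κ] (y : κ → ℕ) (j : {i // i ∈ U} ↪ κ),
      (∀ i, y (j i) = m i.1) → (∀ k, (∀ i, j i ≠ k) → y k ≤ t) →
      (∃ S : Finset κ, S.card ≤ 202 ∧ ∀ k ∉ S, (∀ i, j i ≠ k) → y k = 0) → Free d y) →
    (∀ i ∈ U, m i + 1 ≤ d) → t ≤ d →
    c * (u : ℝ) ^ (2 + ε) + ∑ i ∈ U, ((m i + 1).choose 2 : ℝ) + 1 ≤ ((d + 2).choose 2 : ℕ) →
    ∀ s : Fin (finrank ℂ (linSys d p m) - 1) → Fin 3 → ℂ, GenericPoints (Sum.elim p s) →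
      ∀ F ∈ linSys d p m, F ≠ 0 → (∀ k, eval (s k) F = 0) → ¬ Bad d p m F := by
  obtain ⟨c, hc, h⟩ := rigid_not_badG hε
  refine ⟨max c 1, lt_of_lt_of_le hc (le_max_left _ _),
    fun r d u t p m U hp hu hm ht hN hF hmd htd hB s hs => ?_⟩
  classical
  have hu1 : (1 : ℝ) ≤ u := by exact_mod_cast hu
  have hx0 : (0 : ℝ) ≤ (u : ℝ) ^ (1 + ε) := Real.rpow_nonneg (by linarith) _
  have hx0' : (0 : ℝ) ≤ (u : ℝ) ^ (2 + ε) := Real.rpow_nonneg (by linarith) _
  have ht1 : c * (u : ℝ) ^ (1 + ε) ≤ t :=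
    (mul_le_mul_of_nonneg_right (le_max_left _ _) hx0).trans ht
  have ht2 : 1 * (u : ℝ) ^ (1 + ε) ≤ t :=
    (mul_le_mul_of_nonneg_right (le_max_right _ _) hx0).trans ht
  have hB1 : c * (u : ℝ) ^ (2 + ε) ≤ max c 1 * (u : ℝ) ^ (2 + ε) :=
    mul_le_mul_of_nonneg_right (le_max_left _ _) hx0'
  have hut : u ≤ t := by
    have h1 : (u : ℝ) ^ (1 : ℝ) ≤ (u : ℝ) ^ (1 + ε) :=
      Real.rpow_le_rpow_of_exponent_le hu1 (by linarith)
    rw [Real.rpow_one] at h1
    have h2 : (u : ℝ) ≤ t := by linarith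
    exact_mod_cast h2
  have hns : finrank ℂ (linSys d p m) = (d + 2).choose 2 - ∑ i, (m i + 1).choose 2 := by
    refine hN (Fin r) m (Function.Embedding.subtype _) (fun i => rfl) (fun k hk => ?_) p hp
    exact (hm k (fun h => hk ⟨k, h⟩ rfl)).trans hut
  refine not_bad_of_rigid hns s hs (fun hχ => ?_)
  obtain ⟨K, hK⟩ : ∃ K, K = finrank ℂ (linSys d p m) - 1 := ⟨_, rfl⟩
  obtain ⟨V, hV⟩ : ∃ V : Finset (Fin r ⊕ Fin (finrank ℂ (linSys d p m) - 1)),
    V = U.map Function.Embedding.inl := ⟨_, rfl⟩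
  have hVm : ∀ i, Sum.inl i ∈ V ↔ i ∈ U := fun i => by
    rw [hV]
    constructor
    · intro h
      rw [Finset.mem_map] at h
      obtain ⟨a, ha, hai⟩ := h
      have : a = i := Sum.inl_injective hai
      rwa [← this]
    · exact fun h => Finset.mem_map_of_mem _ h
  have hVr : ∀ k, Sum.inr k ∉ V := fun k h => by
    rw [hV, Finset.mem_map] at h
    obtain ⟨a, -, ha⟩ := h
    exact Sum.inl_ne_inr ha
  -- the equivalence of the subtypes
  let τ : {i // i ∈ U} ↪ {i // i ∈ V} := ⟨fun i => ⟨Sum.inl i.1, (hVm i.1).mpr i.2⟩,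
    fun i i' h => by
      rw [Subtype.mk.injEq, Sum.inl.injEq] at h
      exact Subtype.ext h⟩
  have hτ : ∀ x : {i // i ∈ V}, ∃ i, τ i = x := by
    rintro ⟨x | x, hx⟩
    · exact ⟨⟨x, (hVm x).mp hx⟩, rfl⟩
    · exact absurd hx (hVr x)
  have hoff : ∀ {κ : Type} (j : {i // i ∈ V} ↪ κ) (k : κ), (∀ i, (τ.trans j) i ≠ k) →
      ∀ x, j x ≠ k := by
    intro κ j k hk x
    obtain ⟨i, rfl⟩ := hτ x
    exact hk i
  refine h d u t _ (Sum.elim p s) (Sum.elim m (fun _ => 1)) V hs hu ?_ ht1 ?_ ?_ ?_ htd ?_ hχ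
  · rintro (i | k) hi
    · exact hm i (fun h => hi ((hVm i).mpr h))
    · exact hu
  · intro κ _ _ y j hy hyt
    exact hN κ y (τ.trans j) (fun i => hy (τ i)) (fun k hk => hyt k (hoff j k hk))
  · rintro κ _ _ y j hy hyt ⟨S, hS, hS0⟩
    exact hF κ y (τ.trans j) (fun i => hy (τ i)) (fun k hk => hyt k (hoff j k hk))
      ⟨S, hS, fun k hkS hk => hS0 k hkS (hoff j k hk)⟩
  · rintro (i | k) hi
    · exact hmd i ((hVm i).mp hi)
    · exact absurd hi (hVr k)
  · have h1 := Finset.sum_add_sum_compl V (fun x =>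
      ((Sum.elim m (fun _ : Fin (finrank ℂ (linSys d p m) - 1) => 1) x + 1).choose 2 : ℝ))
    have h2 : ∑ x ∈ V, ((Sum.elim m
        (fun _ : Fin (finrank ℂ (linSys d p m) - 1) => 1) x + 1).choose 2 : ℝ) =
        ∑ i ∈ U, ((m i + 1).choose 2 : ℝ) := by
      rw [hV, Finset.sum_map]
      rfl
    have h3 : ∑ x, ((Sum.elim m
        (fun _ : Fin (finrank ℂ (linSys d p m) - 1) => 1) x + 1).choose 2 : ℝ) + 1 =
        ((d + 2).choose 2 : ℕ) := by
      rw [← hχ]
      push_cast
      rfl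
    rw [h2] at h1
    linarith

end Pool.Agent.Work.MP_0421d9_ag.ZE
end

section
/-!
Smoothness of the general member, with all the points of large multiplicity exempt.
-/

namespace Pool.Agent.Work.MP_0421d9_ag

open MvPolynomial Module LD

/-- the points in `B` and those of multiplicity at least `max 2 h` -/
def exempt {r : ℕ} (B : Finset (Fin r)) (h : ℕ) (m : Fin r → ℕ) : Finset (Fin r) :=
  Finset.univ.filter (fun i => i ∈ B ∨ max 2 h ≤ m i)

/-- smoothness from the nonspeciality of the neighbouring systems, with an exempt set -/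
theorem smooth_exempt {r d k : ℕ} (p : Fin r → Fin 3 → ℂ) (hp : GenericPoints p)
    (m : Fin r → ℕ) {B : Finset (Fin r)} (hd : 1 ≤ d) (hk : ∀ i, i ∉ B → m i ≤ k)
    (hns : ∀ m' : Fin r → ℕ, Nbr m m' →
      finrank ℂ (linSys d p m') = (d + 2).choose 2 - ∑ j, (m' j + 1).choose 2)
    (hlow : ∀ m' : Fin r → ℕ, (∀ i, m' i ≤ m i) →
      finrank ℂ (linSys (d - 1) p m') = (d - 1 + 2).choose 2 - ∑ j, (m' j + 1).choose 2)
    (hJ : k.choose 2 + ∑ i ∈ exempt B (finrank ℂ (linSys d p m) +
      (Finset.univ.filter (fun j => m j = 1)).card) m, (m i + 1).choose 2 ≤ (d + 1).choose 2)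
    (hne : linSys d p m ≠ ⊥) :
    (∃ F ∈ linSys d p m, Squarefree F) ∧
    (∀ s : Fin (finrank ℂ (linSys d p m) - 1) → Fin 3 → ℂ, GenericPoints (Sum.elim p s) →
      ∀ F ∈ linSys d p m, F ≠ 0 → (∀ k, eval (s k) F = 0) → SmoothOnBlowup p m F) ∧
    (∃ F ∈ linSys d p m, F ≠ 0 ∧ SmoothOnBlowup p m F) := by
  classical
  have hpos : finrank ℂ (linSys d p m) ≠ 0 := by
    intro h2
    exact hne (Submodule.finrank_eq_zero.mp h2)
  have hsum := SM.sum_dropSimple m
  have hm := hns m (Or.inl fun i => le_rfl)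
  have h0 := hns _ (nbr_drop m)
  obtain ⟨f₁, hf₁, hf₁0⟩ := Submodule.exists_mem_ne_zero_of_ne_bot hne
  have hmd : ∀ i, m i ≤ d := fun i => le_of_vanishTo hf₁.1 hf₁0 (hf₁.2 i)
  obtain ⟨h, hh⟩ : ∃ h, h = finrank ℂ (linSys d p m) +
      (Finset.univ.filter (fun j => m j = 1)).card := ⟨_, rfl⟩
  rw [← hh] at hJ
  obtain ⟨I, hI⟩ : ∃ I, I = exempt B h m := ⟨_, rfl⟩
  rw [← hI] at hJ
  have hmem : ∀ i, i ∉ I → i ∉ B ∧ (2 ≤ m i → m i < h) := by
    intro i hi
    rw [hI] at hi
    unfold exempt at hi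
    rw [Finset.mem_filter, not_and, not_or] at hi
    obtain ⟨h1, h2⟩ := hi (Finset.mem_univ i)
    exact ⟨h1, fun h3 => by omega⟩
  have hcomp : ∀ i ∉ I, 2 ≤ m i → finrank ℂ (linSys d p (dropSimple m)) =
      finrank ℂ (linSys d p (Function.update (dropSimple m) i (m i + 1))) + (m i + 1) := by
    intro i hi hmi
    have hyi : dropSimple m i = m i := by
      unfold dropSimple
      rw [if_neg (by omega)]
    have h2 := sum_update_succ (dropSimple m) i
    rw [hyi] at h2
    have h5 := (hmem i hi).2 hmi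
    rw [h0, hns _ (nbr_raise m i), h2]
    omega
  -- sums over the exempt set
  have hsumI : ∀ a : Fin r → ℕ, (∀ i ∉ I, a i = 0) →
      ∑ i, (a i + 1).choose 2 = ∑ i ∈ I, (a i + 1).choose 2 := by
    intro a ha
    symm
    apply Finset.sum_subset (Finset.subset_univ I)
    intro i _ hi
    rw [ha i hi]
    rfl
  have hd2 : d - 1 + 2 = d + 1 := by omega
  have hc2 : (d + 2).choose 2 = (d + 1) + (d + 1).choose 2 := by
    rw [Nat.choose_succ_succ' (d + 1) 1, Nat.choose_one_right]
  refine rel_final p hp m I hd (by omega) hne ?_ (fun e he h2 => ?_) (fun i hi h2 => ?_)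
    (fun i hi h3 => hcomp i hi (by omega)) (Or.inr fun i hi h2 => hcomp i hi (by omega))
  · have h1 := hlow (fun i => if i ∈ I then m i else 0) (fun i => by
      split_ifs
      · exact le_rfl
      · exact Nat.zero_le _)
    rw [hsumI _ (fun i hi => if_neg hi)] at h1
    have h2 : ∑ i ∈ I, ((if i ∈ I then m i else 0) + 1).choose 2 = ∑ i ∈ I, (m i + 1).choose 2 :=
      Finset.sum_congr rfl (fun i hi => by rw [if_pos hi])
    rw [h2, hd2] at h1
    omega
  · have h1 := hlow (fun i => if i ∈ I then m i else if i = e then m i - 1 else 0) (fun i => by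
      split_ifs <;> omega)
    have h3 : ∑ i, ((if i ∈ I then m i else if i = e then m i - 1 else 0) + 1).choose 2 =
        ∑ i ∈ I, (m i + 1).choose 2 + (m e).choose 2 := by
      rw [← Finset.sum_add_sum_compl I]
      congr 1
      · exact Finset.sum_congr rfl (fun i hi => by rw [if_pos hi])
      · rw [Finset.sum_eq_single e]
        · rw [if_neg he, if_pos rfl, Nat.sub_add_cancel (by omega)]
        · intro i hi hie
          rw [if_neg (Finset.mem_compl.mp hi), if_neg hie]
          rfl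
        · intro h3
          exact absurd (Finset.mem_compl.mpr he) h3
    rw [h3, hd2] at h1
    have h4 : (m e).choose 2 ≤ k.choose 2 := Nat.choose_le_choose 2 (hk e (hmem e he).1)
    omega
  · have h1 := hns (fun j => if j ∈ I then (if j = i then m i + 1 else m j) else 0)
      (Or.inr ⟨i, by dsimp only; rw [if_pos hi, if_pos rfl], fun j hj => by
        dsimp only
        rw [if_neg hj]
        split_ifs
        · exact le_rfl
        · exact Nat.zero_le _⟩)
    have h3 : ∑ j, ((if j ∈ I then (if j = i then m i + 1 else m j) else 0) + 1).choose 2 =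
        ∑ j ∈ I, (m j + 1).choose 2 + (m i + 1) := by
      rw [hsumI _ (fun j hj => if_neg hj), ← Finset.add_sum_erase I _ hi,
        ← Finset.add_sum_erase I (fun j => (m j + 1).choose 2) hi]
      have h4 : ∑ j ∈ I.erase i, ((if j ∈ I then (if j = i then m i + 1 else m j) else 0) + 1).choose 2
          = ∑ j ∈ I.erase i, (m j + 1).choose 2 := by
        refine Finset.sum_congr rfl (fun j hj => ?_)
        rw [if_pos (Finset.mem_of_mem_erase hj), if_neg (Finset.ne_of_mem_erase hj)]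
      rw [h4, if_pos hi, if_pos rfl]
      have h5 : (m i + 1 + 1).choose 2 = (m i + 1) + (m i + 1).choose 2 := by
        rw [Nat.choose_succ_succ' (m i + 1) 1, Nat.choose_one_right]
      omega
    rw [h3] at h1
    have h6 := hmd i
    omega

end Pool.Agent.Work.MP_0421d9_ag
end

section
/-!
Three scales of multiplicities relative to any set of points which impose independent conditions in
a slightly smaller degree: both halves.
-/

namespace Pool.Agent.Work.MP_0421d9_ag

open MvPolynomial Module LD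

namespace LD

/-- the conditions on the middle points -/
def Mid {r : ℕ} (u k M D : ℕ) (B : Finset (Fin r)) (z : Fin r → ℕ) : Prop :=
  (∀ i, i ∉ B → z i ≤ u) ∨ ∑ i ∈ BU B u z, (z i + 1).choose 2 +
      ((k + 4 * u ^ 2 + u) * M + 2 * (u + 1) * D) ≤ (D + 2).choose 2 ∨
      ∑ i ∈ BU B u z, (z i + 1).choose 2 +
      2 * ((k + 4 * u ^ 2 + u) * M + 2 * (u + 1) * D) ≤ ∑ i, (z i + 1).choose 2

/-- three scales -/
theorem threeR {r D M k u : ℕ} (hu : 1 ≤ u) {z : Fin r → ℕ}
    {B : Finset (Fin r)} (huk : u ≤ k) (hkM : k ≤ M) (hM : ∀ i, z i ≤ M)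
    (hk : ∀ i, i ∉ B → z i ≤ k) (hd : 30 * (u + 1) ^ 2 ≤ D)
    (hR : Rg (D - 4 * (u + 1) ^ 2) (onB B z)) (h : Mid u k M D B z) :
    hPm D z = (D + 2).choose 2 - ∑ i, (z i + 1).choose 2 := by
  by_cases hbig : ∃ i, D < z i
  · rw [← hPm_eq (gpt_generic r)]
    exact ns_of_gt hbig
  push Not at hbig
  have e0 : (u + 1) ^ 2 = u * u + 2 * u + 1 := by ring
  have huu : 1 * u ≤ u * u := Nat.mul_le_mul_right u hu
  have hud : u ≤ D := by
    rw [e0] at hd
    omega
  have hW : (min k D + 4 * u ^ 2 + u) * min M D ≤ (k + 4 * u ^ 2 + u) * M :=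
    Nat.mul_le_mul (Nat.add_le_add_right (Nat.add_le_add_right (min_le_left _ _) _) _)
      (min_le_left _ _)
  rcases h with h | h | h
  · exact reg_main hu h (by omega) (hR.mono (by omega))
  · exact three_roomR (k := min k D) (M := min M D) hu (le_min huk hud)
      (min_le_min_right D hkM) (min_le_right _ _) (fun i => le_min (hM i) (hbig i))
      (fun i hi => le_min (hk i hi) (hbig i)) hR hd (by omega)
  · exact three_tailR (k := min k D) (M := min M D) hu (le_min huk hud)
      (min_le_min_right D hkM) (min_le_right _ _) (fun i => le_min (hM i) (hbig i))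
      (fun i hi => le_min (hk i hi) (hbig i)) hR hd (by omega)

end LD

/-- `d ≥ 32 (u + 1) ^ 2`, and `N' + W ≤ (d + 2).choose 2` or `N' + 2 W ≤ N`, for `u < k` -/
structure Three {r : ℕ} (u k M d : ℕ) (B : Finset (Fin r)) (m : Fin r → ℕ) : Prop where
  hu : 1 ≤ u
  huk : u ≤ k
  hd : 32 * (u + 1) ^ 2 ≤ d
  reg : Rg (d - 5 * (u + 1) ^ 2) (onB B m)
  mid : u = k ∨ bigC B u m + ((k + 4 * (u + 1) ^ 2) * M + 3 * (u + 1) * d) ≤ (d + 2).choose 2 ∨
    bigC B u m + 2 * ((k + 4 * (u + 1) ^ 2) * M + 3 * (u + 1) * d) ≤ ∑ i, (m i + 1).choose 2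

section Three

variable {r u k M d : ℕ} {B : Finset (Fin r)} {m : Fin r → ℕ}

theorem sq_ge_four (u : ℕ) (hu : 1 ≤ u) : 4 ≤ (u + 1) ^ 2 := by
  have e0 : (u + 1) ^ 2 = u * u + 2 * u + 1 := by ring
  have huu : 1 * u ≤ u * u := Nat.mul_le_mul_right u hu
  omega

/-- **Nonspeciality.** -/
theorem Three.ns (h : Three u k M d B m) (hkM : k ≤ M) (hM : ∀ i, m i ≤ M)
    (hk : ∀ i, i ∉ B → m i ≤ k) :
    hPm d m = (d + 2).choose 2 - ∑ i, (m i + 1).choose 2 := by
  obtain ⟨hu, huk, hd, hA, hmid⟩ := h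
  have h4 := sq_ge_four u hu
  have e0 : (u + 1) ^ 2 = u * u + 2 * u + 1 := by ring
  refine threeR (M := M) (k := k) (u := u) hu huk hkM hM hk (by omega) (hA.mono (by omega)) ?_
  have e1 : (k + 4 * (u + 1) ^ 2) * M = (k + 4 * u ^ 2 + u) * M + (7 * u + 4) * M := by ring
  have e2 : 3 * (u + 1) * d = 2 * (u + 1) * d + (u + 1) * d := by ring
  rw [e1, e2] at hmid
  rcases hmid with h1 | h1 | h1
  · left
    intro i hi
    rw [h1]
    exact hk i hi
  · right
    left
    change bigC B u m + _ ≤ _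
    omega
  · right
    right
    change bigC B u m + _ ≤ _
    omega

theorem Nbr.le {y z : Fin r → ℕ} (h : Nbr y z) (i : Fin r) : z i ≤ y i + 1 := by
  rcases h with h | ⟨i₀, h1, h2⟩
  · exact (h i).trans (Nat.le_succ _)
  · by_cases hi : i = i₀
    · rw [hi]
      exact h1
    · exact (h2 i hi).trans (Nat.le_succ _)

theorem bigC_le {u : ℕ} {y z : Fin r → ℕ} (h : ∀ i, z i ≤ y i) : bigC B u z ≤ bigC B u y := by
  classical
  have hb : ∀ m : Fin r → ℕ, bigC B u m =
      ∑ i, (if i ∈ B ∨ u < m i then (m i + 1).choose 2 else 0) := by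
    intro m
    unfold bigC
    rw [Finset.sum_filter]
  rw [hb, hb]
  refine Finset.sum_le_sum (fun i _ => ?_)
  have hi := h i
  split_ifs with h1 h2
  · exact Nat.choose_le_choose 2 (by omega)
  · rw [not_or] at h2
    rcases h1 with h1 | h1
    · exact absurd h1 h2.1
    · omega
  · exact Nat.zero_le _
  · exact le_rfl

/-- the systems with a member: enough room -/
theorem Three.room (h : Three u (k + 1) (M + 1) d B m) (hkM : k ≤ M) (hM : ∀ i, m i ≤ M)
    (hk : ∀ i, i ∉ B → m i ≤ k) (hpos : hPm d m ≠ 0) :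
    u = k + 1 ∨ bigC B u m + ((k + 1 + 4 * (u + 1) ^ 2) * (M + 1) + 3 * (u + 1) * d) ≤
      (d + 2).choose 2 := by
  have h1 := h.ns (by omega) (fun i => (hM i).trans (Nat.le_succ _))
    (fun i hi => (hk i hi).trans (Nat.le_succ _))
  rcases h.mid with h2 | h2 | h2
  · exact Or.inl h2
  · exact Or.inr h2
  · right
    omega

/-- **Nonspeciality of the neighbours.** -/
theorem Three.nbr (h : Three u (k + 1) (M + 1) d B m) (hkM : k ≤ M) (hM : ∀ i, m i ≤ M)
    (hk : ∀ i, i ∉ B → m i ≤ k) (hroom : u = k + 1 ∨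
      bigC B u m + ((k + 1 + 4 * (u + 1) ^ 2) * (M + 1) + 3 * (u + 1) * d) ≤ (d + 2).choose 2)
    {z : Fin r → ℕ} (hn : Nbr m z) :
    hPm d z = (d + 2).choose 2 - ∑ i, (z i + 1).choose 2 := by
  obtain ⟨hu, huk, hd, hA, -⟩ := h
  have h4 := sq_ge_four u hu
  have e0 : (u + 1) ^ 2 = u * u + 2 * u + 1 := by ring
  refine threeR (M := M + 1) (k := k + 1) (u := u) hu huk
    (by omega) (fun i => ?_) (fun i hi => ?_) (by omega) ((hA.nbr hn).mono (by omega)) ?_
  · have := hn.le i
    have := hM i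
    omega
  · have := hn.le i
    have := hk i hi
    omega
  · rcases hroom with h1 | h1
    · left
      intro i hi
      have := hn.le i
      have := hk i hi
      omega
    · right
      left
      change bigC B u z + _ ≤ _
      have h2 := bigC_nbr (I := B) (u := u) hM hn
      have h3 := tr_two_choose (u + 1)
      have e3 : u + 1 + 1 = u + 2 := rfl
      rw [e3] at h3
      have e1 : (k + 1 + 4 * (u + 1) ^ 2) * (M + 1) = (k + 1 + 4 * u ^ 2 + u) * (M + 1) +
        (7 * u + 4) * (M + 1) := by ring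
      have e2 : 3 * (u + 1) * d = 2 * (u + 1) * d + (u + 1) * d := by ring
      have h5 : 11 * (M + 1) ≤ (7 * u + 4) * (M + 1) := Nat.mul_le_mul_right _ (by omega)
      have h6 : (u + 1) * (u + 2) ≤ (u + 1) * d := Nat.mul_le_mul_left _ (by
        rw [e0] at hd
        omega)
      omega

/-- **Nonspeciality in lower degree.** -/
theorem Three.low (h : Three u (k + 1) (M + 1) d B m) (hkM : k ≤ M) (hM : ∀ i, m i ≤ M)
    (hk : ∀ i, i ∉ B → m i ≤ k) (hroom : u = k + 1 ∨
      bigC B u m + ((k + 1 + 4 * (u + 1) ^ 2) * (M + 1) + 3 * (u + 1) * d) ≤ (d + 2).choose 2)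
    {z : Fin r → ℕ} (hz : ∀ i, z i ≤ m i) :
    hPm (d - 1) z = (d - 1 + 2).choose 2 - ∑ i, (z i + 1).choose 2 := by
  obtain ⟨hu, huk, hd, hA, -⟩ := h
  have h4 := sq_ge_four u hu
  refine threeR (M := M + 1) (k := k + 1) (u := u) hu huk
    (by omega) (fun i => ?_) (fun i hi => ?_) (by omega) ((hA.nbr (Or.inl hz)).mono (by omega)) ?_
  · have := hz i
    have := hM i
    omega
  · have := hz i
    have := hk i hi
    omega
  · rcases hroom with h1 | h1
    · left
      intro i hi
      have := hz i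
      have := hk i hi
      omega
    · right
      left
      change bigC B u z + _ ≤ _
      have h2 := bigC_le (B := B) (u := u) hz
      obtain ⟨e, rfl⟩ : ∃ e, d = e + 1 := ⟨d - 1, by omega⟩
      rw [Nat.add_sub_cancel]
      have h3 : (e + 1 + 2).choose 2 = (e + 2) + (e + 2).choose 2 := by
        rw [Nat.choose_succ_succ' (e + 2) 1, Nat.choose_one_right]
      have e1 : (k + 1 + 4 * (u + 1) ^ 2) * (M + 1) = (k + 1 + 4 * u ^ 2 + u) * (M + 1) +
        (7 * u + 4) * (M + 1) := by ring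
      have e2 : 3 * (u + 1) * (e + 1) = 2 * (u + 1) * e + (u + 1) * e + 3 * (u + 1) := by ring
      have h6 : 1 * e ≤ (u + 1) * e := Nat.mul_le_mul_right _ (by omega)
      omega

/-- **Smoothness.** -/
theorem Three.smooth {k' : ℕ} {p : Fin r → Fin 3 → ℂ} (hp : GenericPoints p)
    (h : Three u (k + 1) (M + 1) d B m) (hkM : k ≤ M) (hM : ∀ i, m i ≤ M)
    (hk : ∀ i, i ∉ B → m i ≤ k) (hk' : ∀ i, i ∉ B → m i ≤ k')
    (hJ : k'.choose 2 + ∑ i ∈ exempt B (finrank ℂ (linSys d p m) +
      (Finset.univ.filter (fun j => m j = 1)).card) m, (m i + 1).choose 2 ≤ (d + 1).choose 2)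
    (hne : linSys d p m ≠ ⊥) :
    (∃ F ∈ linSys d p m, Squarefree F) ∧
    (∀ s : Fin (finrank ℂ (linSys d p m) - 1) → Fin 3 → ℂ, GenericPoints (Sum.elim p s) →
      ∀ F ∈ linSys d p m, F ≠ 0 → (∀ k, eval (s k) F = 0) → SmoothOnBlowup p m F) ∧
    (∃ F ∈ linSys d p m, F ≠ 0 ∧ SmoothOnBlowup p m F) := by
  have hroom := h.room hkM hM hk (by
    rw [← hPm_eq hp]
    intro h2
    exact hne (Submodule.finrank_eq_zero.mp h2))
  have h1 := h.hd
  have h4 := sq_ge_four u h.hu
  refine smooth_exempt p hp m (by omega) hk' (fun z hz => ?_) (fun z hz => ?_) hJ hne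
  · rw [hPm_eq hp]
    exact h.nbr hkM hM hk hroom hz
  · rw [hPm_eq hp]
    exact h.low hkM hM hk hroom hz

end Three

end Pool.Agent.Work.MP_0421d9_ag
end

section
/-!
Few large points; three scales of multiplicities: general members are smooth.
-/

set_option linter.unusedSectionVars false

namespace Pool.Agent.Work.MP_0421d9_ag.ZE

open MvPolynomial Module SM ZC LD

theorem zd_two (n : ℕ) : 2 * (n + 1).choose 2 = n ^ 2 + n := by
  induction n with
  | zero => rfl
  | succ n ih =>
    have h2 : (n + 1 + 1).choose 2 = (n + 1).choose 2 + (n + 1) := by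
      rw [Nat.choose_succ_succ' (n + 1) 1, Nat.choose_one_right]
      exact Nat.add_comm _ _
    rw [h2, Nat.mul_add, ih]
    ring

section count

variable {κ : Type} [Fintype κ] [DecidableEq κ] {r : ℕ} {m : Fin r → ℕ} {U : Finset (Fin r)}
  {y : κ → ℕ} (j : {i // i ∈ U} ↪ κ)

/-- the sum over the points in `U` and the other ones -/
theorem sum_emb (f : κ → ℕ) :
    ∑ k, f k = ∑ i : {i // i ∈ U}, f (j i) +
      ∑ k ∈ Finset.univ.filter (fun k => ∀ i, j i ≠ k), f k := by
  rw [← Finset.sum_filter_add_sum_filter_not Finset.univ (fun k => ∃ i, j i = k) f]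
  congr 1
  · rw [← Finset.sum_map Finset.univ j f]
    refine Finset.sum_congr (Finset.ext fun k => ?_) (fun _ _ => rfl)
    simp only [Finset.mem_filter, Finset.mem_univ, true_and, Finset.mem_map]
  · refine Finset.sum_congr (Finset.ext fun k => ?_) (fun _ _ => rfl)
    simp only [Finset.mem_filter, Finset.mem_univ, true_and, not_exists, ne_eq]

/-- the number of the conditions if there are at most `202` further points -/
theorem sum_le_of_few {t : ℕ} (hy : ∀ i, y (j i) = m i.1)
    (ht : ∀ k, (∀ i, j i ≠ k) → y k ≤ t)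
    (hS : ∃ S : Finset κ, S.card ≤ 202 ∧ ∀ k ∉ S, (∀ i, j i ≠ k) → y k = 0) :
    ∑ k, (y k + 1).choose 2 ≤ ∑ i ∈ U, (m i + 1).choose 2 + 202 * (t + 1).choose 2 := by
  obtain ⟨S, hS, h0⟩ := hS
  rw [sum_emb j (fun k => (y k + 1).choose 2)]
  refine Nat.add_le_add (le_of_eq ?_) ?_
  · rw [← Finset.sum_coe_sort U (fun i => (m i + 1).choose 2)]
    exact Finset.sum_congr rfl (fun i _ => by rw [hy])
  · calc ∑ k ∈ Finset.univ.filter (fun k => ∀ i, j i ≠ k), (y k + 1).choose 2 ≤
          ∑ k ∈ S, (t + 1).choose 2 := by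
          rw [← Finset.sum_filter_add_sum_filter_not
            (Finset.univ.filter (fun k => ∀ i, j i ≠ k)) (fun k => k ∈ S)]
          have h1 : ∑ k ∈ (Finset.univ.filter (fun k => ∀ i, j i ≠ k)).filter (fun k => ¬ k ∈ S),
              (y k + 1).choose 2 = 0 := by
            refine Finset.sum_eq_zero (fun k hk => ?_)
            rw [Finset.mem_filter, Finset.mem_filter] at hk
            rw [h0 k hk.2 hk.1.2]
            rfl
          rw [h1, add_zero]
          refine (Finset.sum_le_sum (fun k hk => ?_)).trans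
            (Finset.sum_le_sum_of_subset (fun k hk => ?_))
          · rw [Finset.mem_filter, Finset.mem_filter] at hk
            exact Nat.choose_le_choose 2 (by have := ht k hk.1.2; omega)
          · exact (Finset.mem_filter.mp hk).2
      _ = S.card * (t + 1).choose 2 := by rw [Finset.sum_const, smul_eq_mul]
      _ ≤ 202 * (t + 1).choose 2 := Nat.mul_le_mul_right _ hS

end count

/-- nonspecial systems with few conditions -/
theorem reg_of_ns {κ : Type} [Fintype κ] {d : ℕ} {y : κ → ℕ}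
    (h : hPm d (fn y) = (d + 2).choose 2 - ∑ k, (fn y k + 1).choose 2)
    (hle : ∑ k, (y k + 1).choose 2 ≤ (d + 2).choose 2) : Reg d y := by
  unfold Reg
  rw [h, sum_fn y (fun n => (n + 1).choose 2)]
  omega

end Pool.Agent.Work.MP_0421d9_ag.ZE
end

section
/-!
Three scales of multiplicities: general members are smooth.
-/

set_option linter.unusedSectionVars false

namespace Pool.Agent.Work.MP_0421d9_ag.ZE

open MvPolynomial Module SM ZC LD

/-- the conditions imposed by the points of `B` are independent, for any index type -/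
theorem rg_onB_emb {κ : Type} [Fintype κ] [DecidableEq κ] {r : ℕ} {m : Fin r → ℕ}
    {U B : Finset (Fin r)} (hBU : B ⊆ U) {y : κ → ℕ} (j : {i // i ∈ U} ↪ κ)
    (hy : ∀ i, y (j i) = m i.1) {D : ℕ} (h : Rg D (onB B m)) :
    Rg D (onB (Finset.univ.filter (fun k => ∃ i : {i // i ∈ U}, i.1 ∈ B ∧
      j i = (Fintype.equivFin κ).symm k)) (fn y)) := by
  classical
  obtain ⟨z, hz⟩ : ∃ z : κ → ℕ, z = fun k => if ∃ i : {i // i ∈ U}, i.1 ∈ B ∧ j i = k then y k
    else 0 := ⟨_, rfl⟩
  have hfz : fn z = onB (Finset.univ.filter (fun k => ∃ i : {i // i ∈ U}, i.1 ∈ B ∧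
      j i = (Fintype.equivFin κ).symm k)) (fn y) := by
    funext k
    unfold fn onB
    rw [hz]
    simp only [Finset.mem_filter, Finset.mem_univ, true_and]
  rw [← hfz, ← reg_iff_rg]
  -- the embeddings of `B`
  let a : {i // i ∈ B} ↪ κ := ⟨fun i => j ⟨i.1, hBU i.2⟩, fun i i' h => by
    have h1 := j.injective h
    rw [Subtype.mk.injEq] at h1
    exact Subtype.ext h1⟩
  have ha : ∀ i, z (a i) = m i.1 := fun i => by
    have h1 : ∃ i' : {i // i ∈ U}, i'.1 ∈ B ∧ j i' = a i := ⟨⟨i.1, hBU i.2⟩, i.2, rfl⟩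
    rw [hz]
    change (if ∃ i' : {i // i ∈ U}, i'.1 ∈ B ∧ j i' = a i then y (a i) else 0) = m i.1
    rw [if_pos h1]
    exact hy _
  have ha0 : ∀ k, (∀ i, a i ≠ k) → z k = 0 := fun k hk => by
    rw [hz]
    change (if ∃ i' : {i // i ∈ U}, i'.1 ∈ B ∧ j i' = k then y k else 0) = 0
    rw [if_neg]
    rintro ⟨i, hi, hik⟩
    exact hk ⟨i.1, hi⟩ hik
  let b : {i // i ∈ B} ↪ Fin r := Function.Embedding.subtype _
  have hb0 : ∀ k, (∀ i, b i ≠ k) → onB B m k = 0 := fun k hk => by
    unfold onB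
    rw [if_neg]
    intro h
    exact hk ⟨k, h⟩ rfl
  have hb : ∀ i, onB B m (b i) = m i.1 := fun i => by
    unfold onB
    exact if_pos i.2
  have h1 : hPm D (fn z) = hPm D (onB B m) := by
    have e1 : (fun i => z (a i)) = fun i => onB B m (b i) := funext fun i => by rw [ha, hb]
    rw [hPm_emb a ha0, ← hPm_fn_fin (onB B m), hPm_emb b hb0, e1]
  have h2 : ∑ k, (z k + 1).choose 2 = ∑ k, (onB B m k + 1).choose 2 := by
    have e1 := sum_onB B m
    have e2 : ∑ k, (z k + 1).choose 2 = ∑ i : {i // i ∈ B}, (m i.1 + 1).choose 2 := by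
      have e3 : ∑ k, (z k + 1).choose 2 = ∑ k ∈ Finset.univ.map a, (z k + 1).choose 2 := by
        refine (Finset.sum_subset (Finset.subset_univ _) (fun k _ hk => ?_)).symm
        rw [ha0 k (fun i hi => hk (Finset.mem_map.mpr ⟨i, Finset.mem_univ i, hi⟩))]
        rfl
      rw [e3, Finset.sum_map]
      exact Finset.sum_congr rfl (fun i _ => by rw [ha])
    rw [e2, e1]
    exact Finset.sum_coe_sort B (fun i => (m i + 1).choose 2)
  unfold Reg
  rw [h1, h2]
  exact h

end Pool.Agent.Work.MP_0421d9_ag.ZE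
end

section
/-!
Smoothness of the general member from the nonspeciality of the neighbouring systems, by
bootstrapping.
-/

set_option linter.unusedSectionVars false

namespace Pool.Agent.Work.MP_0421d9_ag

open MvPolynomial Module LD

theorem sum_upJ {r : ℕ} (m : Fin r → ℕ) (j a : Fin r) :
    ∑ i, (upJ m j a i + 1).choose 2 +
      ∑ i ∈ Finset.univ.filter (fun i => i ≠ a ∧ m i < m j), (m i + 1).choose 2 =
        ∑ i, (m i + 1).choose 2 + (m j + 1) := by
  have h1 : ∑ i, (m i + 1).choose 2 + (m j + 1) =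
      ∑ i, ((m i + 1).choose 2 + if i = j then m j + 1 else 0) := by
    rw [Finset.sum_add_distrib, Finset.sum_ite_eq' _ j, if_pos (Finset.mem_univ j)]
  rw [h1, Finset.sum_filter, ← Finset.sum_add_distrib]
  refine Finset.sum_congr rfl (fun i _ => ?_)
  unfold upJ
  by_cases hi : i = j
  · subst hi
    rw [if_pos rfl, if_pos rfl, if_neg (fun h => lt_irrefl _ h.2),
      Nat.choose_succ_succ' (m i + 1) 1, Nat.choose_one_right]
    ring
  · rw [if_neg hi, if_neg hi]
    by_cases h2 : m j ≤ m i ∨ i = a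
    · rw [if_pos h2, if_neg]
      rintro ⟨h3, h4⟩
      rcases h2 with h2 | h2
      · omega
      · exact h3 h2
    · push Not at h2
      rw [if_neg (by push Not; exact h2), if_pos ⟨h2.2, h2.1⟩]
      simp

/-- **Smoothness by bootstrapping**, from the nonspeciality of the system itself and of the systems
of the points of large multiplicity, one further point, and one multiplicity raised by one. -/
theorem boot_smooth' {r d : ℕ} (p : Fin r → Fin 3 → ℂ) (hp : GenericPoints p) (m : Fin r → ℕ)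
    (hm : finrank ℂ (linSys d p m) = (d + 2).choose 2 - ∑ j, (m j + 1).choose 2)
    (hup : ∀ j a, 2 ≤ m j → 2 ≤ m a → finrank ℂ (linSys d p (upJ m j a)) =
      (d + 2).choose 2 - ∑ i, (upJ m j a i + 1).choose 2)
    (hbig : ∀ j a, 3 ≤ m j → 2 ≤ m a → m j < finrank ℂ (linSys d p m) +
      ∑ i ∈ Finset.univ.filter (fun i => i ≠ a ∧ m i < m j), (m i + 1).choose 2)
    (h2 : (∃ F ∈ linSys d p m, Squarefree F) ∨ ∀ j, m j = 2 → 2 < finrank ℂ (linSys d p m) +
      (Finset.univ.filter (fun i => m i = 1)).card)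
    (hne : linSys d p m ≠ ⊥) :
    (∃ F ∈ linSys d p m, Squarefree F) ∧
    (∀ s : Fin (finrank ℂ (linSys d p m) - 1) → Fin 3 → ℂ, GenericPoints (Sum.elim p s) →
      ∀ F ∈ linSys d p m, F ≠ 0 → (∀ k, eval (s k) F = 0) → SmoothOnBlowup p m F) ∧
    (∃ F ∈ linSys d p m, F ≠ 0 ∧ SmoothOnBlowup p m F) := by
  have hpos : finrank ℂ (linSys d p m) ≠ 0 := by
    intro h2
    have hfin : Module.Finite ℂ (linSys d p m) :=
      Submodule.finiteDimensional_of_le (linSys_le d p _)
    exact hne (Submodule.finrank_eq_zero.mp h2)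
  refine boot_final p hp m (by omega) hne (fun j a hj ha => ?_) (h2.imp_right ?_)
  · have h1 := hup j a (by omega) ha
    have h2 := sum_upJ m j a
    have h3 := hbig j a hj ha
    omega
  · intro h3 j a hj ha
    have h1 := hup j a hj.ge ha
    have h2 := sum_upJ m j a
    have h4 := h3 j hj
    have h5 : (Finset.univ.filter (fun i => m i = 1)).card ≤
        ∑ i ∈ Finset.univ.filter (fun i => i ≠ a ∧ m i < m j), (m i + 1).choose 2 := by
      rw [Finset.card_eq_sum_ones]
      refine (Finset.sum_le_sum (g := fun i => (m i + 1).choose 2) (fun i hi => ?_)).trans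
        (Finset.sum_le_sum_of_subset ?_)
      · rw [(Finset.mem_filter.mp hi).2]
        decide
      · intro i hi
        have h1 := (Finset.mem_filter.mp hi).2
        refine Finset.mem_filter.mpr ⟨Finset.mem_univ i, ?_, by omega⟩
        rintro rfl
        omega
    omega

end Pool.Agent.Work.MP_0421d9_ag
end

section
/-!
Systems with many points of small multiplicity: both halves of the question in all degrees.
-/

namespace Pool.Agent.Work.MP_0421d9_ag.AA

open MvPolynomial Module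

/-- the conclusion of the question, in degree `d` -/
def Holds {r : ℕ} (d : ℕ) (p : Fin r → Fin 3 → ℂ) (m : Fin r → ℕ) : Prop :=
  finrank ℂ (linSys d p m) = (d + 2).choose 2 - ∑ i, (m i + 1).choose 2 ∧
  (linSys d p m ≠ ⊥ →
    (∃ F ∈ linSys d p m, Squarefree F) ∧
    (∀ s : Fin (finrank ℂ (linSys d p m) - 1) → Fin 3 → ℂ, GenericPoints (Sum.elim p s) →
      ∀ F ∈ linSys d p m, F ≠ 0 → (∀ l, eval (s l) F = 0) → SmoothOnBlowup p m F) ∧
    (∃ F ∈ linSys d p m, F ≠ 0 ∧ SmoothOnBlowup p m F))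

/-- the points of small multiplicity -/
theorem large_add {r : ℕ} (u : ℕ) (m : Fin r → ℕ) :
    LD.bigC ∅ u m + ∑ i ∈ Finset.univ.filter (fun i => m i ≤ u), (m i + 1).choose 2 =
      ∑ i, (m i + 1).choose 2 := by
  unfold LD.bigC
  rw [← Finset.sum_filter_add_sum_filter_not Finset.univ
    (fun i => i ∈ (∅ : Finset (Fin r)) ∨ u < m i)]
  congr 1
  refine Finset.sum_congr (Finset.filter_congr (fun i _ => ?_)) (fun _ _ => rfl)
  simp

/-- the systems in degree `d` -/
theorem three_of_tail {r d M u n D : ℕ} {m : Fin r → ℕ} (hu : 1 ≤ u) (huM : u ≤ M)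
    (hn : ∑ i, (m i + 1).choose 2 ≤ n) (hD : 4 * n ≤ D ^ 2) (hDu : 12 * (u + 1) ≤ D)
    (htail : 2 * ((M + 4 * (u + 1) ^ 2) * M + 3 * (u + 1) * D) ≤
      ∑ i ∈ Finset.univ.filter (fun i => m i ≤ u), (m i + 1).choose 2)
    (hd : 32 * (u + 1) ^ 2 ≤ d) : Three u M M d ∅ m := by
  have hadd := large_add u m
  obtain ⟨T, hT⟩ : ∃ T, T = ∑ i ∈ Finset.univ.filter (fun i => m i ≤ u), (m i + 1).choose 2 :=
    ⟨_, rfl⟩
  rw [← hT] at hadd htail
  refine ⟨hu, huM, hd, LD.Rg_empty _ m, Or.inr ?_⟩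
  · rcases Nat.lt_or_ge D d with h | h
    · left
      have h1 : 3 * (u + 1) * d * 4 ≤ d * d := by
        calc 3 * (u + 1) * d * 4 = (12 * (u + 1)) * d := by ring
          _ ≤ d * d := Nat.mul_le_mul_right d (by omega)
      have h2 : D ^ 2 ≤ d * d := by
        rw [sq]
        exact Nat.mul_le_mul h.le h.le
      have h3 := LD.tr_two_choose (d + 1)
      have h4 : (d + 1) * (d + 1 + 1) = d * d + 3 * d + 2 := by ring
      have e1 : d + 1 + 1 = d + 2 := rfl
      rw [e1] at h3 h4
      omega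
    · right
      have h1 : 3 * (u + 1) * d ≤ 3 * (u + 1) * D := Nat.mul_le_mul_left _ h
      omega

/-- **All degrees.** -/
theorem holds_of_tail {r M u n D : ℕ} (p : Fin r → Fin 3 → ℂ) (hp : GenericPoints p)
    (m : Fin r → ℕ) (hu : 1 ≤ u) (huM : u ≤ M) (hM : ∀ i, m i ≤ M)
    (h1 : M < (Finset.univ.filter (fun i => m i = 1)).card)
    (hn : ∑ i, (m i + 1).choose 2 ≤ n) (hD : 4 * n ≤ D ^ 2) (hDu : 12 * (u + 1) ≤ D)
    (htail : 2 * ((3 * (M + 1) + 10 * (u + 1) ^ 2) * (M + 1) + 3 * (u + 1) * D) ≤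
      ∑ i ∈ Finset.univ.filter (fun i => m i ≤ u), (m i + 1).choose 2)
    (h32 : (32 * (u + 1) ^ 2 + 2) ^ 2 ≤
      ∑ i ∈ Finset.univ.filter (fun i => m i ≤ u), (m i + 1).choose 2) (d : ℕ) :
    Holds d p m := by
  classical
  have hadd := large_add u m
  have htail' : 2 * ((M + 1 + 4 * (u + 1) ^ 2) * (M + 1) + 3 * (u + 1) * D) ≤
      ∑ i ∈ Finset.univ.filter (fun i => m i ≤ u), (m i + 1).choose 2 :=
    le_trans (Nat.mul_le_mul_left 2 (Nat.add_le_add_right (Nat.mul_le_mul_right _ (by omega)) _))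
      htail
  have htail'' : 2 * ((M + 4 * (u + 1) ^ 2) * M + 3 * (u + 1) * D) ≤
      ∑ i ∈ Finset.univ.filter (fun i => m i ≤ u), (m i + 1).choose 2 :=
    le_trans (Nat.mul_le_mul_left 2 (Nat.add_le_add_right
      (Nat.mul_le_mul (by omega) (by omega)) _)) htail'
  obtain ⟨T, hT⟩ : ∃ T, T = ∑ i ∈ Finset.univ.filter (fun i => m i ≤ u), (m i + 1).choose 2 :=
    ⟨_, rfl⟩
  rcases Nat.lt_or_ge d (32 * (u + 1) ^ 2) with hd | hd
  · -- small degree: the system is empty
    obtain ⟨e, he⟩ : ∃ e, e = 32 * (u + 1) ^ 2 := ⟨_, rfl⟩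
    have h2 := (three_of_tail (d := e) hu huM hn hD hDu htail'' he.ge).ns le_rfl hM
      (fun i _ => hM i)
    have h3 : (e + 2).choose 2 ≤ ∑ i, (m i + 1).choose 2 := by
      have h4 := LD.tr_two_choose (e + 1)
      have h5 : (e + 1) * (e + 1 + 1) = e * e + 3 * e + 2 := by ring
      have h6 : (e + 2) ^ 2 = e * e + 4 * e + 4 := by ring
      have e1 : e + 1 + 1 = e + 2 := rfl
      rw [e1] at h4 h5
      rw [← he, ← hT] at h32
      rw [← hT] at hadd
      omega
    have h5 : finrank ℂ (linSys d p m) = 0 := by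
      rw [LD.hPm_eq hp]
      have := LD.hPm_mono' m (show d ≤ e by omega)
      omega
    have h6 : (d + 2).choose 2 ≤ (e + 2).choose 2 := Nat.choose_le_choose 2 (by omega)
    have hfin : Module.Finite ℂ (linSys d p m) :=
      Submodule.finiteDimensional_of_le (linSys_le d p _)
    refine ⟨?_, fun hne => absurd (Submodule.finrank_eq_zero.mp h5) hne⟩
    rw [h5]
    omega
  · have hg := three_of_tail (d := d) hu huM hn hD hDu htail'' hd
    have hg' := three_of_tail (d := d) (M := M + 1) hu (by omega) hn hD hDu htail' hd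
    refine ⟨?_, fun hne => ?_⟩
    · rw [LD.hPm_eq hp]
      exact hg.ns le_rfl hM (fun i _ => hM i)
    · obtain ⟨f₁, hf₁, hf₁0⟩ := Submodule.exists_mem_ne_zero_of_ne_bot hne
      have hmd : ∀ i, m i ≤ d := fun i => le_of_vanishTo hf₁.1 hf₁0 (hf₁.2 i)
      refine hg'.smooth hp le_rfl hM (fun i _ => hM i) (k' := d) (fun i _ => hmd i) ?_ hne
      have h3 : exempt (∅ : Finset (Fin r)) (finrank ℂ (linSys d p m) +
          (Finset.univ.filter (fun j => m j = 1)).card) m = ∅ := by
        unfold exempt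
        rw [Finset.filter_eq_empty_iff]
        intro i _ h4
        have := hM i
        rcases h4 with h4 | h4
        · exact absurd h4 (Finset.notMem_empty i)
        · omega
      rw [h3, Finset.sum_empty, Nat.add_zero]
      exact Nat.choose_le_choose 2 (Nat.le_succ d)

end Pool.Agent.Work.MP_0421d9_ag.AA
end

section
/-!
Both halves of the question in all degrees for almost all multisets of multiplicities.
-/

namespace Pool.Agent.Work.MP_0421d9_ag.AA

open Real Filter

theorem sum_map_univ {r : ℕ} (m : Fin r → ℕ) (g : ℕ → ℕ) :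
    ((Finset.univ.val.map m).map g).sum = ∑ i, g (m i) := by
  rw [Multiset.map_map]
  rfl

theorem card_eq_count {r : ℕ} (m : Fin r → ℕ) (v : ℕ) :
    (Finset.univ.filter (fun i => m i = v)).card = (Finset.univ.val.map m).count v := by
  rw [Multiset.count_map]
  have h1 : (Finset.univ.filter (fun i => m i = v)).card =
      Multiset.card (Multiset.filter (fun i => m i = v) (Finset.univ : Finset (Fin r)).val) := rfl
  rw [h1, Multiset.filter_congr (fun i _ => eq_comm)]

/-- the small multiplicities -/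
theorem tail_eq {r n u : ℕ} (m : Fin r → ℕ) (h0 : ∀ i, m i ≠ 0) (hn : ∀ i, m i ≤ n) :
    tail u (fun i : Fin n => (Finset.univ.val.map m).count ((i : ℕ) + 1)) =
      ∑ i ∈ Finset.univ.filter (fun i => m i ≤ u), (m i + 1).choose 2 := by
  classical
  unfold tail
  simp only [← card_eq_count]
  -- sum over the values
  rw [← Finset.sum_fiberwise_of_maps_to (s := Finset.univ.filter (fun i => m i ≤ u))
    (t := (Finset.univ.filter (fun i : Fin n => (i : ℕ) + 1 ≤ u)).image (fun i : Fin n => (i : ℕ) + 1))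
    (g := m)]
  · rw [Finset.sum_image (fun a _ b _ hab => Fin.ext (Nat.add_right_cancel hab))]
    refine Finset.sum_congr rfl (fun j hj => ?_)
    have hj' := (Finset.mem_filter.mp hj).2
    have h1 : ∀ i ∈ (Finset.univ.filter (fun i => m i ≤ u)).filter
        (fun i => m i = (j : ℕ) + 1), (m i + 1).choose 2 = tr ((j : ℕ) + 1) := by
      intro i hi
      rw [(Finset.mem_filter.mp hi).2]
      rfl
    rw [Finset.sum_congr rfl h1, Finset.sum_const, smul_eq_mul]
    congr 2
    ext i
    simp only [Finset.mem_filter, Finset.mem_univ, true_and]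
    constructor
    · intro h
      exact ⟨by omega, h⟩
    · intro h
      exact h.2
  · intro i hi
    have hi' := (Finset.mem_filter.mp hi).2
    have h1 := h0 i
    have h2 := hn i
    rw [Finset.mem_image]
    refine ⟨⟨m i - 1, by omega⟩, ?_, ?_⟩
    · rw [Finset.mem_filter]
      refine ⟨Finset.mem_univ _, ?_⟩
      dsimp only
      omega
    · dsimp only
      omega

/-- the numerical conditions for a large number of conditions -/
theorem ev_numbers : ∀ᶠ n : ℕ in atTop, 2 ≤ n ∧ 1 ≤ Ux n ∧ Ux n ≤ Mx n ∧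
    12 * (Ux n + 1) ≤ 2 * Nat.sqrt n + 2 ∧
    ((2 * ((3 * (Mx n + 1) + 10 * (Ux n + 1) ^ 2) * (Mx n + 1) +
      3 * (Ux n + 1) * (2 * Nat.sqrt n + 2)) : ℕ) : ℝ) ≤ (n : ℝ) ^ (865 / 1000 : ℝ) ∧
    (((32 * (Ux n + 1) ^ 2 + 2) ^ 2 : ℕ) : ℝ) ≤ (n : ℝ) ^ (865 / 1000 : ℝ) := by
  filter_upwards [eventually_ge_atTop 2,
    ev_rpow (show (1 / 5 : ℝ) < 1 / 2 by norm_num) 18,
    ev_rpow (show (856 / 1000 : ℝ) < 865 / 1000 by norm_num) 162,
    ev_rpow (show (828 / 1000 : ℝ) < 865 / 1000 by norm_num) 1620,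
    ev_rpow (show (7 / 10 : ℝ) < 865 / 1000 by norm_num) 216,
    ev_rpow (show (4 / 5 : ℝ) < 865 / 1000 by norm_num) 100000] with n h0 g1 g2 g3 g4 g5
  have h0' : (2 : ℝ) ≤ n := by exact_mod_cast h0
  have hN : (0 : ℝ) < n := lt_of_lt_of_le two_pos h0'
  have hp1 : (1 : ℝ) ≤ (n : ℝ) ^ (1 / 5 : ℝ) := one_le_rpow (by linarith) (by norm_num)
  have hp2 : (1 : ℝ) ≤ (n : ℝ) ^ (428 / 1000 : ℝ) := one_le_rpow (by linarith) (by norm_num)
  have hp3 : (1 : ℝ) ≤ (n : ℝ) ^ (1 / 2 : ℝ) := one_le_rpow (by linarith) (by norm_num)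
  have hU : (n : ℝ) ^ (1 / 5 : ℝ) ≤ Ux n := Nat.le_ceil _
  have hU2 : (Ux n : ℝ) + 1 ≤ 3 * (n : ℝ) ^ (1 / 5 : ℝ) := by
    have h4 := (Nat.ceil_lt_add_one (show (0 : ℝ) ≤ (n : ℝ) ^ (1 / 5 : ℝ) by positivity)).le
    have h5 : (Ux n : ℝ) = (⌈(n : ℝ) ^ (1 / 5 : ℝ)⌉₊ : ℝ) := rfl
    rw [h5]
    linarith
  have hM2 : (Mx n : ℝ) + 1 ≤ 3 * (n : ℝ) ^ (428 / 1000 : ℝ) := by
    have h4 := (Nat.ceil_lt_add_one (show (0 : ℝ) ≤ (n : ℝ) ^ (428 / 1000 : ℝ) by positivity)).le
    have h5 : (Mx n : ℝ) = (⌈(n : ℝ) ^ (428 / 1000 : ℝ)⌉₊ : ℝ) := rfl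
    rw [h5]
    linarith
  have hU1 : 1 ≤ Ux n := by
    have : (1 : ℝ) ≤ Ux n := hp1.trans hU
    exact_mod_cast this
  have hUM : Ux n ≤ Mx n :=
    Nat.ceil_le_ceil (rpow_le_rpow_of_exponent_le (by linarith) (by norm_num))
  have hhalf : (n : ℝ) ^ (1 / 2 : ℝ) = sqrt n := by rw [sqrt_eq_rpow]
  have hs1 : (Nat.sqrt n : ℝ) ≤ (n : ℝ) ^ (1 / 2 : ℝ) := by
    rw [hhalf]
    exact Real.nat_sqrt_le_real_sqrt
  have hs2 : (n : ℝ) ^ (1 / 2 : ℝ) ≤ (Nat.sqrt n : ℝ) + 1 := by
    rw [hhalf]
    exact Real.real_sqrt_le_nat_sqrt_succ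
  have hD : (2 : ℝ) * Nat.sqrt n + 2 ≤ 4 * (n : ℝ) ^ (1 / 2 : ℝ) := by linarith
  refine ⟨h0, hU1, hUM, ?_, ?_, ?_⟩
  · have h1 : (12 : ℝ) * ((Ux n : ℝ) + 1) ≤ 2 * Nat.sqrt n + 2 := by linarith
    exact_mod_cast h1
  · push_cast
    obtain ⟨a, ha⟩ : ∃ a, a = (n : ℝ) ^ (1 / 5 : ℝ) := ⟨_, rfl⟩
    obtain ⟨b, hb⟩ : ∃ b, b = (n : ℝ) ^ (428 / 1000 : ℝ) := ⟨_, rfl⟩
    obtain ⟨c, hc⟩ : ∃ c, c = (n : ℝ) ^ (1 / 2 : ℝ) := ⟨_, rfl⟩
    have e1 : (n : ℝ) ^ (856 / 1000 : ℝ) = b ^ 2 := by
      rw [hb, ← rpow_natCast, ← rpow_mul hN.le]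
      norm_num
    have e2 : (n : ℝ) ^ (828 / 1000 : ℝ) = a ^ 2 * b := by
      rw [ha, hb, ← rpow_natCast, ← rpow_mul hN.le, ← rpow_add hN]
      norm_num
    have e3 : (n : ℝ) ^ (7 / 10 : ℝ) = a * c := by
      rw [ha, hc, ← rpow_add hN]
      norm_num
    rw [e1] at g2
    rw [e2] at g3
    rw [e3] at g4
    rw [← ha] at hU2
    rw [← hb] at hM2
    rw [← hc] at hD
    have ha0 : 0 ≤ a := by rw [ha]; positivity
    have hb0 : 0 ≤ b := by rw [hb]; positivity
    have hc0 : 0 ≤ c := by rw [hc]; positivity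
    have k0 : (0 : ℝ) ≤ (Ux n : ℝ) + 1 := by positivity
    have k1 : (0 : ℝ) ≤ (Mx n : ℝ) + 1 := by positivity
    have k2 : ((Mx n : ℝ) + 1) ^ 2 ≤ (3 * b) ^ 2 := pow_le_pow_left₀ k1 hM2 2
    have k3 : ((Ux n : ℝ) + 1) ^ 2 ≤ (3 * a) ^ 2 := pow_le_pow_left₀ k0 hU2 2
    have k4 : ((Ux n : ℝ) + 1) ^ 2 * ((Mx n : ℝ) + 1) ≤ (3 * a) ^ 2 * (3 * b) :=
      mul_le_mul k3 hM2 k1 (by positivity)
    have k5 : ((Ux n : ℝ) + 1) * (2 * Nat.sqrt n + 2) ≤ (3 * a) * (4 * c) :=
      mul_le_mul hU2 hD (by positivity) (by positivity)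
    have k6 : (3 * a) ^ 2 * (3 * b) = 27 * (a ^ 2 * b) := by ring
    have k7 : (3 * a) * (4 * c) = 12 * (a * c) := by ring
    have k8 : (3 * b) ^ 2 = 9 * b ^ 2 := by ring
    rw [k8] at k2
    rw [k6] at k4
    rw [k7] at k5
    have k9 : 2 * ((3 * ((Mx n : ℝ) + 1) + 10 * ((Ux n : ℝ) + 1) ^ 2) * ((Mx n : ℝ) + 1) +
        3 * ((Ux n : ℝ) + 1) * (2 * Nat.sqrt n + 2)) =
        6 * ((Mx n : ℝ) + 1) ^ 2 + 20 * (((Ux n : ℝ) + 1) ^ 2 * ((Mx n : ℝ) + 1)) +
        6 * (((Ux n : ℝ) + 1) * (2 * Nat.sqrt n + 2)) := by ring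
    rw [k9]
    linarith
  · push_cast
    obtain ⟨a, ha⟩ : ∃ a, a = (n : ℝ) ^ (1 / 5 : ℝ) := ⟨_, rfl⟩
    rw [← ha] at hU2 hp1
    have ha0 : 0 ≤ a := by rw [ha]; positivity
    have e1 : (n : ℝ) ^ (4 / 5 : ℝ) = a ^ 4 := by
      rw [ha, ← rpow_natCast, ← rpow_mul hN.le]
      norm_num
    rw [e1] at g5
    have k0 : (0 : ℝ) ≤ (Ux n : ℝ) + 1 := by positivity
    have k3 : ((Ux n : ℝ) + 1) ^ 2 ≤ (3 * a) ^ 2 := pow_le_pow_left₀ k0 hU2 2
    have k4 : 32 * ((Ux n : ℝ) + 1) ^ 2 + 2 ≤ 290 * a ^ 2 := by nlinarith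
    have k5 : (32 * ((Ux n : ℝ) + 1) ^ 2 + 2) ^ 2 ≤ (290 * a ^ 2) ^ 2 :=
      pow_le_pow_left₀ (by positivity) k4 2
    have k6 : (290 * a ^ 2) ^ 2 = 84100 * a ^ 4 := by ring
    rw [k6] at k5
    have k7 : 0 ≤ a ^ 4 := by positivity
    linarith

/-- typical multisets of multiplicities -/
theorem fine_of_nice : ∀ᶠ n : ℕ in atTop, ∀ s ∈ systems n,
    Nice n (fun i : Fin n => s.count ((i : ℕ) + 1)) → ∀ (r : ℕ) (m : Fin r → ℕ),
    Finset.univ.val.map m = s → ∀ p : Fin r → Fin 3 → ℂ, GenericPoints p → ∀ d, Holds d p m := by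
  filter_upwards [ev_numbers] with n hnum
  obtain ⟨h2, hu, huM, h12, htail, h32⟩ := hnum
  rintro s ⟨hs0, hsn⟩ ⟨hN1, hN2, hN3⟩ r m hm p hp d
  have hcond : ∑ i, (m i + 1).choose 2 ≤ n := by
    unfold conditions at hsn
    rw [← hm, sum_map_univ] at hsn
    exact hsn
  have hmem : ∀ i, m i ∈ s := fun i => by
    rw [← hm]
    exact Multiset.mem_map_of_mem m (Finset.mem_univ i)
  have hm0 : ∀ i, m i ≠ 0 := fun i h => hs0 (h ▸ hmem i)
  have hmn : ∀ i, m i ≤ n := by
    intro i
    have h3 : (m i + 1).choose 2 ≤ ∑ i, (m i + 1).choose 2 :=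
      Finset.single_le_sum (f := fun i => (m i + 1).choose 2) (fun _ _ => Nat.zero_le _)
        (Finset.mem_univ i)
    have h4 := two_mul_tr (m i)
    unfold tr at h4
    have h5 := hm0 i
    have h6 : m i * 2 ≤ m i * (m i + 1) := Nat.mul_le_mul_left _ (by omega)
    omega
  have hM : ∀ i, m i ≤ Mx n := by
    intro i
    by_contra hcon
    have h3 := hm0 i
    have h4 := hmn i
    have h5 := hN1 ⟨m i - 1, by omega⟩ (by
      dsimp only
      omega)
    dsimp only at h5
    rw [Nat.sub_add_cancel (by omega), Multiset.count_eq_zero] at h5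
    exact h5 (hmem i)
  have hsimple : Mx n < (Finset.univ.filter (fun i => m i = 1)).card := by
    have h3 := hN2 ⟨0, by omega⟩ rfl
    dsimp only at h3
    rw [card_eq_count, hm]
    simp only [Nat.zero_add] at h3
    omega
  rw [← hm, tail_eq m hm0 hmn] at hN3
  have htail' := htail.trans hN3
  have h32' := h32.trans hN3
  refine holds_of_tail p hp m hu huM hM hsimple hcond (D := 2 * Nat.sqrt n + 2) ?_ h12
    (by exact_mod_cast htail') (by exact_mod_cast h32') d
  have h3 := Nat.lt_succ_sqrt n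
  have h4 : (2 * Nat.sqrt n + 2) ^ 2 = 4 * ((Nat.sqrt n).succ * (Nat.sqrt n).succ) := by
    rw [Nat.succ_eq_add_one]
    ring
  rw [h4]
  omega

end Pool.Agent.Work.MP_0421d9_ag.AA
end

section
/-!
Cremona-reduced systems: smoothness with an exempt set which imposes not too many conditions.
-/

namespace Pool.Agent.Work.MP_0421d9_ag

open MvPolynomial Module LD

/-- one point -/
theorem rg_one {r D : ℕ} {m : Fin r → ℕ} {e : Fin r} (h : m e ≤ D + 1) : Rg D (withE ∅ m e) := by
  classical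
  have h1 : withE ∅ m e = onB {e} (fun i => m i - 1) := by
    funext i
    unfold withE onB
    rw [if_neg (Finset.notMem_empty i)]
    by_cases hi : i = e
    · rw [if_pos hi, if_pos (Finset.mem_singleton.mpr hi)]
    · rw [if_neg hi, if_neg (fun h => hi (Finset.mem_singleton.mp h))]
  rw [h1]
  refine indep_small (by rw [Finset.card_singleton]; omega) (fun J hJ _ => ?_)
  rcases Finset.subset_singleton_iff.mp hJ with hJ | hJ
  · rw [hJ, Finset.sum_empty]
    exact Nat.zero_le _
  · rw [hJ, Finset.sum_singleton]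
    omega

end Pool.Agent.Work.MP_0421d9_ag
end

section
/-!
Smoothness by bootstrapping: Cremona-reduced systems, and systems with three scales of
multiplicities.
-/

set_option linter.unusedSectionVars false

namespace Pool.Agent.Work.MP_0421d9_ag

open MvPolynomial Module LD

/-- the conditions imposed by the points outside of `B`, other than `a`, of multiplicity smaller
than that of `j` -/
def below {r : ℕ} (B : Finset (Fin r)) (m : Fin r → ℕ) (j a : Fin r) : ℕ :=
  ∑ i ∈ Finset.univ.filter (fun i => i ∉ B ∧ i ≠ a ∧ m i < m j), (m i + 1).choose 2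

theorem sum_upI {r : ℕ} (B : Finset (Fin r)) (m : Fin r → ℕ) (j a : Fin r) :
    ∑ i, (upI B m j a i + 1).choose 2 + below B m j a ≤ ∑ i, (m i + 1).choose 2 + (m j + 1) := by
  have h1 : ∑ i, (m i + 1).choose 2 + (m j + 1) =
      ∑ i, ((m i + 1).choose 2 + if i = j then m j + 1 else 0) := by
    rw [Finset.sum_add_distrib, Finset.sum_ite_eq' _ j, if_pos (Finset.mem_univ j)]
  unfold below
  rw [h1, Finset.sum_filter, ← Finset.sum_add_distrib]
  refine Finset.sum_le_sum (fun i _ => ?_)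
  unfold upI
  by_cases hi : i = j
  · subst hi
    rw [if_pos rfl, if_pos rfl, if_neg (fun h => lt_irrefl _ h.2.2),
      Nat.choose_succ_succ' (m i + 1) 1, Nat.choose_one_right]
    exact le_of_eq (by ring)
  · rw [if_neg hi, if_neg hi]
    by_cases h2 : (i ∈ B ∧ m i ≠ 1) ∨ m j ≤ m i ∨ i = a
    · rw [if_pos h2, if_neg]
      rintro ⟨h3, h4, h5⟩
      rcases h2 with h2 | h2 | h2
      · exact h3 h2.1
      · omega
      · exact h4 h2
    · rw [if_neg h2]
      have h3 : (0 + 1).choose 2 = 0 := rfl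
      rw [h3]
      split_ifs
      · omega
      · omega

/-- The two halves of the hypothesis. -/
theorem split_hyp {r d : ℕ} {p : Fin r → Fin 3 → ℂ} {m : Fin r → ℕ} {B : Finset (Fin r)}
    (H : ∀ j a, j ∉ B → 2 ≤ m j → 2 ≤ m a →
      (m j = 2 → ∀ F ∈ linSys d p m, ¬ Squarefree F) →
        m j < finrank ℂ (linSys d p m) + below B m j a) :
    (∀ j a, j ∉ B → 3 ≤ m j → 2 ≤ m a → m j < finrank ℂ (linSys d p m) + below B m j a) ∧
    ((∃ F ∈ linSys d p m, Squarefree F) ∨ ∀ j a, j ∉ B → m j = 2 → 2 ≤ m a →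
      m j < finrank ℂ (linSys d p m) + below B m j a) := by
  refine ⟨fun j a hj h3 ha => H j a hj (by omega) ha (fun h => by omega), ?_⟩
  by_cases h : ∃ F ∈ linSys d p m, Squarefree F
  · exact Or.inl h
  · refine Or.inr fun j a hj h2 ha => H j a hj h2.ge ha (fun _ F hF hsq => h ⟨F, hF, hsq⟩)

/-- **Smoothness of Cremona-reduced systems, by bootstrapping.** -/
theorem red_boot {r u d : ℕ} (hu : 1 ≤ u) (p : Fin r → Fin 3 → ℂ) (hp : GenericPoints p)
    (m : Fin r → ℕ) {B : Finset (Fin r)} (h : Red (u + 1) d m B) (hmu : ∀ i, i ∉ B → m i ≤ u)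
    (H : ∀ j a, j ∉ B → 2 ≤ m j → 2 ≤ m a →
      (m j = 2 → ∀ F ∈ linSys d p m, ¬ Squarefree F) →
        m j < finrank ℂ (linSys d p m) + below B m j a)
    (hne : linSys d p m ≠ ⊥) :
    (∃ F ∈ linSys d p m, Squarefree F) ∧
    (∀ s : Fin (finrank ℂ (linSys d p m) - 1) → Fin 3 → ℂ, GenericPoints (Sum.elim p s) →
      ∀ F ∈ linSys d p m, F ≠ 0 → (∀ k, eval (s k) F = 0) → SmoothOnBlowup p m F) ∧
    (∃ F ∈ linSys d p m, F ≠ 0 ∧ SmoothOnBlowup p m F) := by
  classical
  have hcan := h.can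
  have t0 := h.t0
  have e1 : (u + 1 + 1) ^ 2 = u * u + 4 * u + 4 := by ring
  rw [e1] at hcan
  obtain ⟨b0, be, bi⟩ := B_nef_rg (d := d) hu (m := m) (B := B) h.sum hmu (by omega)
  have hm := red_nbr hp h (fun i hi => (hmu i hi).trans (Nat.le_succ u)) (fun i _ => le_rfl)
  have hpos : finrank ℂ (linSys d p m) ≠ 0 := by
    intro h2
    have hfin : Module.Finite ℂ (linSys d p m) :=
      Submodule.finiteDimensional_of_le (linSys_le d p _)
    exact hne (Submodule.finrank_eq_zero.mp h2)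
  have hd2 : d - 1 + 2 = d + 1 := by omega
  have hup : ∀ j a, j ∉ B → m j < finrank ℂ (linSys d p m) + below B m j a →
      finrank ℂ (linSys d p (upI B m j a)) + ∑ i, (upI B m j a i + 1).choose 2 =
        (d + 2).choose 2 := by
    intro j a hj hlt
    have h1 : finrank ℂ (linSys d p (upI B m j a)) =
        (d + 2).choose 2 - ∑ i, (upI B m j a i + 1).choose 2 := by
      refine red_nbr hp h (fun i hi => ?_) (fun i hi => ?_)
      · have h2 := hmu i hi
        have h3 := hmu j hj
        unfold upI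
        split_ifs <;> omega
      · have hij : i ≠ j := fun h' => hj (h' ▸ hi)
        unfold upI
        rw [if_neg hij]
        split_ifs <;> omega
    have h2 := sum_upI B m j a
    omega
  obtain ⟨H3, H2⟩ := split_hyp H
  refine boot_rel_final p hp m B (by omega) (by omega) hne ?_ (fun e he h2 => ?_)
    (fun i hi h2 => ?_) (fun j a hj h3 ha => hup j a hj (H3 j a hj h3 ha))
    (H2.imp_right fun h2 j a hj hj2 ha => hup j a hj (h2 j a hj hj2 ha))
  · have r0 := b0
    unfold Rg at r0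
    rw [sum_onB, hd2, ← hPm_eq hp] at r0
    exact r0
  · have k1 := be e he
    unfold Rg at k1
    rw [sum_withE B m he (by omega), hd2, ← hPm_eq hp] at k1
    exact k1
  · have k1 := bi i hi
    have hi' : onB B m i = m i := if_pos hi
    have g1 : Function.update (onB B m) i (m i + 1) =
        fun j => if j ∈ B then (if j = i then m i + 1 else m j) else 0 := by
      funext j
      by_cases hj : j = i
      · rw [hj, Function.update_self, if_pos hi, if_pos rfl]
      · rw [Function.update_of_ne hj, if_neg hj]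
        rfl
    have g2 : ∑ j, (Function.update (onB B m) i (m i + 1) j + 1).choose 2 =
        ∑ j ∈ B, (m j + 1).choose 2 + (m i + 1) := by
      have e2 := sum_update_succ (onB B m) i
      rw [hi', sum_onB] at e2
      exact e2
    unfold Rg at k1
    rw [g2, g1, ← hPm_eq hp] at k1
    exact k1

end Pool.Agent.Work.MP_0421d9_ag
end

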