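import Pool.Agent.Work.Z0421M.C40
import Pool.Agent.Work.Z0421M.C44
import Pool.Agent.Work.Z0421M.C51
import Pool.Agent.Work.Z0421M.C52
import Pool.Agent.Work.Z0421M.C57

section
/-!
One arbitrary multiplicity: the levels and the theorem (helper21, after the plan of helper69).
-/

namespace Pool.Agent.Work.MP_0421d9_ag.LD

open MvPolynomial Module

theorem FQ_base (R : ℕ) : FQ 1 R := by
  classical
  intro r c D m₀ m hc hc1 hm hD
  have hD' : m₀ ≤ D := by omega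
  have h1 : Rg D (onB {0} (Fin.cons m₀ m : Fin (r + 1) → ℕ)) := by
    refine indep_small (by rw [Finset.card_singleton]; omega) (fun J hJ _ => ?_)
    rcases Finset.subset_singleton_iff.mp hJ with hJ | hJ
    · rw [hJ, Finset.sum_empty]
      exact Nat.zero_le _
    · rw [hJ, Finset.sum_singleton, Fin.cons_zero]
      exact hD'
  have h2 := ns_simple (m := (Fin.cons m₀ m : Fin (r + 1) → ℕ)) h1 (fun i => by
    unfold onB
    split_ifs
    · exact le_rfl
    · exact Nat.zero_le _) (fun i hi => by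
    refine Fin.cases (fun hi => ?_) (fun j _ => ?_) i hi
    · unfold onB at hi
      rw [if_pos (Finset.mem_singleton_self _)] at hi
      exact absurd hi (lt_irrefl _)
    · rw [Fin.cons_succ]
      exact (hm j).trans hc1)
  rw [h2, Fin.sum_univ_succ, Fin.cons_zero]
  simp only [Fin.cons_succ]

theorem FQ_level (n : ℕ) : ∃ R₀ : ℕ, ∀ R, R₀ ≤ R → FQ (R ^ n) R := by
  induction n with
  | zero =>
    refine ⟨0, fun R _ => ?_⟩
    rw [pow_zero]
    exact FQ_base R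
  | succ n ih =>
    obtain ⟨R₁, ih⟩ := ih
    obtain ⟨R₃, hFP⟩ := FP_level (n + 1)
    obtain ⟨G₁, A₁, hC2⟩ := plane_C2
    obtain ⟨K, hK⟩ : ∃ K, K = n + 3 := ⟨_, rfl⟩
    obtain ⟨G, hG⟩ : ∃ G, G = 2 ^ (2 * K + 8) + G₁ := ⟨_, rfl⟩
    obtain ⟨X, hX⟩ : ∃ X, X = 10 ^ 4 * G := ⟨_, rfl⟩
    have hG1 : 1 ≤ G := by
      have : 1 ≤ 2 ^ (2 * K + 8) := Nat.one_le_two_pow
      omega
    have hX1 : 1 ≤ X := by omega
    obtain ⟨R₂, hpar⟩ := zp_params (2 * (n + 1)) (2 * (n + 1)) K G X A₁ le_rfl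
    refine ⟨R₂ + R₃ + 100 * X * (R₁ + 4) + (200 * X) ^ n * (10 ^ 6 * G) +
      (4 * X) ^ (2 * K - 1) * (2 ^ (2 * K + 3) * df K), fun R hR => ?_⟩
    obtain ⟨s, q, p, J, hW, hq, ha2, hRs, hp, hJ, hR1, hR2, hR4⟩ := hpar R (by omega)
    have hT1 : 1 ≤ (s + 1) ^ (2 * (n + 1)) := Nat.one_le_pow _ _ (Nat.succ_pos s)
    -- the plane of the previous level
    obtain ⟨ρ, hρ⟩ : ∃ ρ, ρ = R / (100 * X) := ⟨_, rfl⟩
    have h20X : 100 * X * (R₁ + 4) ≤ R := by omega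
    have hρ1 : R₁ + 4 ≤ ρ := by
      rw [hρ, Nat.le_div_iff_mul_le (by omega), Nat.mul_comm]
      exact h20X
    have hR0 : 1 ≤ R := by
      have := Nat.div_le_self R (100 * X)
      omega
    have hWQ := winQ_of_FQ (T := ρ ^ n) (ρ := ρ) (Nat.one_le_pow _ _ (by omega)) (by omega)
      (ih ρ (by omega))
    have hTpT : R ^ (n + 1) ≤ (s + 1) ^ (2 * (n + 1)) := by
      rw [pow_mul]
      exact Nat.pow_le_pow_left hRs _
    have hJ' : 100 * p ^ 2 + 64 * p ^ 2 * (Nat.log 2 (R ^ (n + 1) + 1) + 2) + 2 ≤ J := by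
      refine le_trans ?_ hJ
      have h1 : Nat.log 2 (R ^ (n + 1) + 1) ≤ Nat.log 2 ((s + 1) ^ (2 * (n + 1)) + 1) :=
        Nat.log_mono_right (Nat.add_le_add_right hTpT 1)
      gcongr
    have hR3 : 100 * X * ρ ≤ R := by
      rw [hρ]
      exact Nat.mul_div_le R (100 * X)
    have hTp2 : 10 ^ 6 * G * R ^ (n + 1) ≤ ρ ^ n * R ^ 2 := by
      have h1 : R ≤ 200 * X * ρ := by
        have := zp_div (R := R) (Z := 100 * X) (by omega) (by nlinarith)
        rw [← hρ] at this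
        calc R ≤ 2 * (100 * X) * ρ := this
          _ = 200 * X * ρ := by ring
      have h2 : (200 * X) ^ n * (10 ^ 6 * G) ≤ R := by omega
      have h3 : (200 * X) ^ n * (10 ^ 6 * G * R ^ (n + 1)) ≤
          (200 * X) ^ n * (ρ ^ n * R ^ 2) := by
        calc (200 * X) ^ n * (10 ^ 6 * G * R ^ (n + 1))
            = ((200 * X) ^ n * (10 ^ 6 * G)) * R ^ (n + 1) := by ring
          _ ≤ R * R ^ (n + 1) := Nat.mul_le_mul_right _ h2
          _ = R ^ n * R ^ 2 := by ring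
          _ ≤ (200 * X * ρ) ^ n * R ^ 2 := Nat.mul_le_mul_right _ (Nat.pow_le_pow_left h1 n)
          _ = (200 * X) ^ n * (ρ ^ n * R ^ 2) := by rw [mul_pow, mul_assoc]
      exact Nat.le_of_mul_le_mul_left h3 (pow_pos (by omega) n)
    have hTp3 : 2 ^ (2 * K + 3) * df K * R ^ (n + 1) ≤ (R / (2 * X)) ^ (2 * K - 1) := by
      have h1 : R ≤ 4 * X * (R / (2 * X)) := by
        have := zp_div (R := R) (Z := 2 * X) (by omega) (by nlinarith)
        calc R ≤ 2 * (2 * X) * (R / (2 * X)) := this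
          _ = 4 * X * (R / (2 * X)) := by ring
      refine zp_pow h1 ?_ (by omega)
      have h2 : (4 * X) ^ (2 * K - 1) * (2 ^ (2 * K + 3) * df K) ≤ R := by omega
      calc (4 * X) ^ (2 * K - 1) * (2 ^ (2 * K + 3) * df K * R ^ (n + 1))
          = ((4 * X) ^ (2 * K - 1) * (2 ^ (2 * K + 3) * df K)) * R ^ (n + 1) := by ring
        _ ≤ R * R ^ (n + 1) := Nat.mul_le_mul_right _ h2
        _ = R ^ (n + 2) := by ring
        _ ≤ R ^ (2 * K - 1) := Nat.pow_le_pow_right hR0 (by omega)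
    exact FQ_step hC2 hW hWQ (hFP R (by omega)) hT1 (Nat.one_le_pow _ _ (by omega)) hq ha2
      (by omega) (by omega) hp hJ' (hG.ge.trans' (Nat.le_add_right _ _))
      (hG.ge.trans' (Nat.le_add_left _ _)) hX.ge hR1 hR2 hR3 hR4 hTpT hTp2 hTp3

/-- the point of the arbitrary multiplicity is the first one -/
theorem FQ.apply {T ρ : ℕ} (h : FQ T ρ) {r d c : ℕ} {p : Fin r → V3} (hp : GenericPoints p)
    (m : Fin r → ℕ) (i₀ : Fin r) (hc : 1 ≤ c) (hcT : c ≤ T) (hm : ∀ i, i ≠ i₀ → m i ≤ c)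
    (hd : m i₀ + ρ * c ≤ d) :
    finrank ℂ (linSys d p m) = (d + 2).choose 2 - ∑ i, (m i + 1).choose 2 := by
  classical
  obtain ⟨s, rfl⟩ : ∃ s, r = s + 1 := ⟨r - 1, by have := i₀.2; omega⟩
  obtain ⟨e, he⟩ : ∃ e : Fin (s + 1) ≃ Fin (s + 1), e = Equiv.swap 0 i₀ := ⟨_, rfl⟩
  have he0 : e 0 = i₀ := by rw [he, Equiv.swap_apply_left]
  have h1 : (fun i => m (e i)) = (Fin.cons (m i₀) (fun i : Fin s => m (e i.succ)) :
      Fin (s + 1) → ℕ) := by
    funext i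
    refine Fin.cases ?_ (fun j => ?_) i
    · rw [he0, Fin.cons_zero]
    · rw [Fin.cons_succ]
  have h2 := h s c d (m i₀) (fun i : Fin s => m (e i.succ)) hc hcT (fun i => by
    refine hm _ (fun h3 => ?_)
    rw [← he0] at h3
    exact Fin.succ_ne_zero i (e.injective h3)) hd
  rw [hPm_eq hp, ← hPm_equiv e, h1, h2]
  congr 1
  rw [← Equiv.sum_comp e (fun i => (m i + 1).choose 2), Fin.sum_univ_succ, he0]

/-- all multiplicities but at most one are at most `M` -/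
theorem all_but_one {ε : ℝ} (hε : 0 < ε) : ∃ C : ℝ, ∀ (r d M : ℕ) (p : Fin r → V3)
    (m : Fin r → ℕ) (i₀ : Fin r), GenericPoints p → (∀ i, i ≠ i₀ → m i ≤ M) →
      (m i₀ : ℝ) + C * (M : ℝ) ^ (1 + ε) ≤ d →
      finrank ℂ (linSys d p m) = (d + 2).choose 2 - ∑ i, (m i + 1).choose 2 := by
  obtain ⟨n, hn⟩ := exists_nat_ge (1 / ε)
  have hn0 : 0 < n := by
    rcases Nat.eq_zero_or_pos n with h | h
    · rw [h, Nat.cast_zero] at hn
      have : 0 < 1 / ε := by positivity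
      linarith
    · exact h
  have hnR : (0 : ℝ) < n := by exact_mod_cast hn0
  obtain ⟨R₀, hR₀⟩ := FQ_level n
  refine ⟨R₀ + 2, fun r d M p m i₀ hp hm hd => ?_⟩
  rcases Nat.eq_zero_or_pos M with hM | hM
  · refine (FQ_base 0).apply hp m i₀ le_rfl le_rfl (fun i hi => (hm i hi).trans (by omega)) ?_
    rw [Nat.zero_mul, Nat.add_zero]
    rw [hM, Nat.cast_zero, Real.zero_rpow (by positivity), mul_zero, add_zero] at hd
    exact_mod_cast hd
  · -- the level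
    obtain ⟨t, ht⟩ : ∃ t, t = ⌈(M : ℝ) ^ ((1 : ℝ) / n)⌉₊ := ⟨_, rfl⟩
    have hM1 : (1 : ℝ) ≤ M := by exact_mod_cast hM
    have hroot1 : (1 : ℝ) ≤ (M : ℝ) ^ ((1 : ℝ) / n) := Real.one_le_rpow hM1 (by positivity)
    have ht1 : (M : ℝ) ^ ((1 : ℝ) / n) ≤ t := by
      rw [ht]
      exact Nat.le_ceil _
    have ht2 : (t : ℝ) ≤ (M : ℝ) ^ ((1 : ℝ) / n) + 1 := by
      rw [ht]
      exact (Nat.ceil_lt_add_one (by positivity)).le
    have hMt : M ≤ t ^ n := by
      have h1 : (M : ℝ) ≤ (t : ℝ) ^ n := by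
        calc (M : ℝ) = ((M : ℝ) ^ ((1 : ℝ) / n)) ^ n := by
              rw [← Real.rpow_natCast, ← Real.rpow_mul (by positivity), one_div,
                inv_mul_cancel₀ hnR.ne', Real.rpow_one]
          _ ≤ (t : ℝ) ^ n := pow_le_pow_left₀ (by positivity) ht1 n
      exact_mod_cast h1
    have hRn : M ≤ (R₀ + t) ^ n := hMt.trans (Nat.pow_le_pow_left (by omega) n)
    refine (hR₀ (R₀ + t) (by omega)).apply hp m i₀ hM hRn hm ?_
    have h2 : (((m i₀ + (R₀ + t) * M : ℕ)) : ℝ) ≤ d := by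
      push_cast
      refine le_trans ?_ hd
      have h3 : (M : ℝ) ^ ((1 : ℝ) / n) ≤ (M : ℝ) ^ ε := by
        apply Real.rpow_le_rpow_of_exponent_le hM1
        rw [div_le_iff₀ hnR]
        rw [div_le_iff₀ hε] at hn
        linarith
      have h4 : (M : ℝ) ^ (1 + ε) = M * (M : ℝ) ^ ε := by
        rw [Real.rpow_add (by positivity), Real.rpow_one]
      have h5 : (1 : ℝ) ≤ (M : ℝ) ^ ε := hroot1.trans h3
      rw [h4]
      have h6 : ((R₀ : ℝ) + t) ≤ (R₀ + 2) * (M : ℝ) ^ ε := by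
        have h7 : (R₀ : ℝ) ≤ R₀ * (M : ℝ) ^ ε := le_mul_of_one_le_right (by positivity) h5
        nlinarith
      have h8 : ((R₀ : ℝ) + t) * M ≤ (R₀ + 2) * (M * (M : ℝ) ^ ε) := by
        calc ((R₀ : ℝ) + t) * M ≤ ((R₀ + 2) * (M : ℝ) ^ ε) * M :=
              mul_le_mul_of_nonneg_right h6 (by positivity)
          _ = (R₀ + 2) * (M * (M : ℝ) ^ ε) := by ring
      linarith
    exact_mod_cast h2

end Pool.Agent.Work.MP_0421d9_ag.LD
end

section
/-!
The choice of the clusters if one of the multiplicities is arbitrary.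
-/

set_option linter.unusedSectionVars false

namespace Pool.Agent.Work.MP_0421d9_ag.ZE

open MvPolynomial Module SM

/-- `FQ.apply` for arbitrary finite index types -/
theorem FQ_nsp {T ρ : ℕ} (h : LD.FQ T ρ) {κ : Type} [Fintype κ] {d c : ℕ} (y : κ → ℕ) (k₀ : κ)
    (hc : 1 ≤ c) (hcT : c ≤ T) (hy : ∀ k, k ≠ k₀ → y k ≤ c) (hd : y k₀ + ρ * c ≤ d) : Nsp d y := by
  classical
  intro p hp
  set e := Fintype.equivFin κ with he
  have h1 : linSys d p y = linSys d (fun k => p (e.symm k)) (fun k => y (e.symm k)) := by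
    ext F
    constructor
    · rintro ⟨h1, h2⟩
      exact ⟨h1, fun k => h2 _⟩
    · rintro ⟨h1, h2⟩
      refine ⟨h1, fun i => ?_⟩
      have := h2 (e i)
      simpa using this
  have h2 : GenericPoints (fun k => p (e.symm k)) := by
    unfold GenericPoints at hp ⊢
    exact hp.comp (fun z : Fin (Fintype.card κ) × Fin 3 => (e.symm z.1, z.2))
      (fun z z' hz => by
        rw [Prod.mk.injEq] at hz
        exact Prod.ext (e.symm.injective hz.1) hz.2)
  rw [h1, h.apply h2 (fun k => y (e.symm k)) (e k₀) hc hcT (fun k hk => hy _ (fun h3 => hk (by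
    rw [← h3, Equiv.apply_symm_apply]))) (by rwa [Equiv.symm_apply_apply])]
  congr 1
  exact Equiv.sum_comp e.symm (fun i => (y i + 1).choose 2)

/-- nonspeciality of all the systems, one multiplicity arbitrary -/
theorem exists_nspA (k : ℕ) : ∃ R' : ℕ, ∀ M N : ℕ, 1 ≤ M → R' ≤ N → M ≤ N ^ k →
    ∀ {κ : Type} [Fintype κ] (d : ℕ) (y : κ → ℕ) (k₀ : κ), (∀ k, k ≠ k₀ → y k ≤ M) →
      y k₀ + N * M ≤ d → Nsp d y := by
  obtain ⟨R₀, hR₀⟩ := LD.FQ_level k
  exact ⟨R₀, fun M N hM hN hMN κ _ d y k₀ hy hd =>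
    FQ_nsp (hR₀ N hN) y k₀ hM hMN hy hd⟩

/-- **The data of the collision**, one multiplicity arbitrary -/
theorem exists_datA (A : ℝ) : ∃ R : ℝ, ∀ (d M : ℕ) (ι : Type) [Fintype ι]
    [DecidableEq ι] (m : ι → ℕ) (i₀ : ι), 1 ≤ M → (∀ i, i ≠ i₀ → m i ≤ M) →
    R * M ≤ (d : ℝ) - m i₀ → (M : ℝ) ≤ (((d : ℝ) - m i₀) / M) ^ A →
    ∑ i, (m i + 1).choose 2 + 1 = (d + 2).choose 2 →
    ∃ (M' : ℕ) (C : Fin 200 → Finset ι) (μ w : Fin 200 → ℕ)
      (e : {i : ι // ∀ l, i ∉ C l} ⊕ (Σ l, Fin (C l).card) ≃ ι) (h₀ : ∀ l, i₀ ∉ C l),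
      (∀ z, e z = Sum.elim (fun i => i.1) (fun x => ((C x.1).equivFin.symm x.2).1) z) ∧
      LDat d M' (fun i : {i : ι // ∀ l, i ∉ C l} => m i.1) {⟨i₀, h₀⟩} μ w (fun l => (C l).card)
        (fun _ => M + 1) (fun l j => m ((C l).equivFin.symm j).1) := by
  obtain ⟨R', hR'⟩ := ZC.exists_nsp (8 * ⌈A⌉₊ + 1) (by omega)
  obtain ⟨R'', hR''⟩ := exists_nspA (8 * ⌈A⌉₊ + 1)
  obtain ⟨N₀, hN₀⟩ := ZC.exists_N ⌈A⌉₊ (R' + R'')
  refine ⟨((N₀ ^ 8 + 1 : ℕ) : ℝ), fun d M ι _ _ m i₀ hM hm hd hMx hχ => ?_⟩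
  -- the difference
  have hdm : m i₀ ≤ d := by
    have h1 : (0 : ℝ) ≤ ((N₀ ^ 8 + 1 : ℕ) : ℝ) * M := by positivity
    have h2 : (m i₀ : ℝ) ≤ d := by linarith
    exact_mod_cast h2
  obtain ⟨D, hD⟩ : ∃ D, d = m i₀ + D := ⟨d - m i₀, by omega⟩
  have hDc : (d : ℝ) - m i₀ = D := by
    rw [hD]
    push_cast
    ring
  rw [hDc] at hd hMx
  obtain ⟨N, hN, hNd, hMN⟩ := ZC.exists_root N₀ hM hd hMx
  obtain ⟨hpig, hM1, hRN, hN100⟩ := hN₀ N hN M hMN
  obtain ⟨t, ht⟩ : ∃ t, t = M ^ 2 * N ^ 4 := ⟨_, rfl⟩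
  obtain ⟨u, hu⟩ : ∃ u, u = t + N * (N * M ^ 2) := ⟨_, rfl⟩
  obtain ⟨L, hL⟩ : ∃ L, L = M * N ^ 2 := ⟨_, rfl⟩
  have htL : t = L * L := by
    rw [ht, hL]
    ring
  have hN2 : 10000 ≤ N ^ 2 := by nlinarith
  have huL : N * (N * M ^ 2) * 10000 ≤ L * L := by
    rw [hL]
    calc N * (N * M ^ 2) * 10000 ≤ N * (N * M ^ 2) * N ^ 2 := Nat.mul_le_mul_left _ hN2
      _ = M * N ^ 2 * (M * N ^ 2) := by ring
  have hL0 : 10000 ≤ L := by
    rw [hL]
    calc 10000 ≤ 1 * N ^ 2 := by omega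
      _ ≤ M * N ^ 2 := Nat.mul_le_mul_right _ hM
  have hML : M * 10000 ≤ L := by
    rw [hL]
    exact Nat.mul_le_mul_left _ hN2
  have hdL : L * N ^ 6 ≤ D := by
    calc L * N ^ 6 = N ^ 8 * M := by
          rw [hL]
          ring
      _ ≤ D := hNd
  have hN6 : 10000 * 10000 ≤ N ^ 6 := by
    calc 10000 * 10000 ≤ N ^ 2 * N ^ 2 := Nat.mul_le_mul hN2 hN2
      _ = N ^ 4 := by ring
      _ ≤ N ^ 6 := Nat.pow_le_pow_right (by omega) (by norm_num)
  have hdL' : L * (10000 * 10000) ≤ D := (Nat.mul_le_mul_left _ hN6).trans hdL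
  -- the clusters
  obtain ⟨S, hS⟩ : ∃ S : Finset ι, S = Finset.univ.filter (fun i => i ≠ i₀ ∧ 1 ≤ m i) := ⟨_, rfl⟩
  have hSsum : (m i₀ + 1).choose 2 + ∑ i ∈ S, (m i + 1).choose 2 = ∑ i, (m i + 1).choose 2 := by
    have h1 : ∑ i ∈ S, (m i + 1).choose 2 =
        ∑ i ∈ Finset.univ.erase i₀, (m i + 1).choose 2 := by
      rw [hS]
      apply Finset.sum_subset
      · intro i hi
        rw [Finset.mem_filter] at hi
        exact Finset.mem_erase.mpr ⟨hi.2.1, Finset.mem_univ i⟩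
      · intro i hi hi'
        have h2 : m i = 0 := by
          by_contra h3
          exact hi' (Finset.mem_filter.mpr ⟨Finset.mem_univ i, (Finset.mem_erase.mp hi).1,
            by omega⟩)
        rw [h2]
        rfl
    rw [h1]
    exact Finset.add_sum_erase Finset.univ (fun i => (m i + 1).choose 2) (Finset.mem_univ i₀)
  have hc1 : ∀ i ∈ S, 1 ≤ (m i + 1).choose 2 := by
    intro i hi
    rw [hS, Finset.mem_filter] at hi
    exact Nat.choose_pos (by omega)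
  have hmS : ∀ i ∈ S, m i ≤ M := by
    intro i hi
    rw [hS, Finset.mem_filter] at hi
    exact hm i hi.2.1
  have hcK : ∀ i ∈ S, (m i + 1).choose 2 ≤ M ^ 2 := by
    intro i hi
    have h1 := ZC.pick_two_choose (m i)
    have h2 : m i * m i ≤ M * M := Nat.mul_le_mul (hmS i hi) (hmS i hi)
    have h3 := hmS i hi
    have h4 : M * 1 ≤ M * M := Nat.mul_le_mul_left _ hM
    rw [pow_two]
    omega
  have hdd : 2 * (d + 2).choose 2 = d * d + 3 * d + 2 := by
    have := ZC.pick_two_choose (d + 1)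
    rw [this]
    ring
  have hm0 := ZC.pick_two_choose (m i₀)
  have hdd2 : d * d = m i₀ * m i₀ + 2 * (m i₀ * D) + D * D := by
    rw [hD]
    ring
  have hdLL : (L * L) * 10000 ≤ D * D := by
    calc (L * L) * 10000 ≤ (L * (10000 * 10000)) * (L * (10000 * 10000)) := by nlinarith
      _ ≤ D * D := Nat.mul_le_mul hdL' hdL'
  have ht4 : 10000 ≤ t := by
    rw [htL]
    calc 10000 ≤ L * 1 := by omega
      _ ≤ L * L := Nat.mul_le_mul_left _ (by omega)
  have hbig : 4 * ((200 + 1) * (t + N * (N * M ^ 2))) ≤ ∑ i ∈ S, (m i + 1).choose 2 := by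
    omega
  obtain ⟨C, μ, w, hCS, hCd, hmid⟩ : ∃ (C : Fin 200 → Finset ι) (μ w : Fin 200 → ℕ),
      (∀ l, C l ⊆ S) ∧ (∀ l l', l ≠ l' → Disjoint (C l) (C l')) ∧
        ∀ l, ZC.Mid (fun i => (m i + 1).choose 2) t
        (t + N * (N * M ^ 2)) (C l) (μ l) (w l) := by
    obtain ⟨C, μ, w, hCS, hCd, hmid⟩ := ZC.exists_clusters S (fun i => (m i + 1).choose 2) hc1 hcK
      hpig ht4 200 hbig
    exact ⟨fun l => C l, fun l => μ l, fun l => w l, fun l => hCS l l.2,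
      fun l l' hne => hCd l l.2 l' l'.2 (fun h => hne (Fin.ext h)), fun l => hmid l l.2⟩
  have hnum : ∀ l, M * N ^ 2 ≤ μ l + 1 ∧ μ l ≤ 3 * (M * N ^ 2) ∧ M * N ^ 2 ≤ 8 * w l + 1 ∧
      w l + 2 * (M + 1) ≤ μ l + 1 ∧ N * (M + 1) + 1 ≤ μ l ∧ 2 * (M + 1) ≤ μ l := by
    intro l
    obtain ⟨g1, g2, g3, g4, g5, g6⟩ := hmid l
    exact ZC.cluster_num hM hN100 ht rfl g1 g2 g3 g4 g5 g6 (ZC.pick_two_choose _)
  rw [← hL] at hnum
  obtain ⟨e, he⟩ := ZC.exists_split C hCd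
  have h₀ : ∀ l, i₀ ∉ C l := by
    intro l hl
    have := hCS l hl
    rw [hS, Finset.mem_filter] at this
    exact this.2.1 rfl
  have hsplit : ∑ i : {i : ι // ∀ l : Fin 200, i ∉ C l}, (m i.1 + 1).choose 2 +
      ∑ l : Fin 200, ∑ j : Fin (C l).card, (m ((C l).equivFin.symm j).1 + 1).choose 2 =
      ∑ i, (m i + 1).choose 2 := by
    rw [← Equiv.sum_comp e (fun i => (m i + 1).choose 2), Fintype.sum_sum_type,
      Fintype.sum_sigma]
    refine congrArg₂ (· + ·) (Finset.sum_congr rfl (fun i _ => ?_))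
      (Finset.sum_congr rfl (fun l _ => Finset.sum_congr rfl (fun j _ => ?_)))
    · rw [he]
      rfl
    · rw [he]
      rfl
  have hcl : ∀ l : Fin 200, ∑ j : Fin (C l).card, (m ((C l).equivFin.symm j).1 + 1).choose 2 =
      (μ l + 1).choose 2 + w l := by
    intro l
    rw [← (hmid l).1, Equiv.sum_comp (C l).equivFin.symm (fun i => (m i.1 + 1).choose 2)]
    exact Finset.sum_coe_sort (C l) (fun i => (m i + 1).choose 2)
  refine ⟨3 * L + 1, C, μ, w, e, h₀, he, ?_⟩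
  have hM'N : 3 * L + 1 ≤ (N ^ 5) ^ (8 * ⌈A⌉₊ + 1) := by
    calc 3 * L + 1 ≤ 4 * L := by omega
      _ = 4 * (M * N ^ 2) := by rw [hL]
      _ ≤ N ^ 2 * (N ^ (8 * ⌈A⌉₊ + 1) * N ^ 2) :=
          Nat.mul_le_mul (by omega) (Nat.mul_le_mul_right _ (by omega))
      _ = N ^ 4 * N ^ (8 * ⌈A⌉₊ + 1) := by ring
      _ ≤ (N ^ 4) ^ (8 * ⌈A⌉₊ + 1) * N ^ (8 * ⌈A⌉₊ + 1) :=
          Nat.mul_le_mul_right _ (Nat.le_self_pow (by omega) _)
      _ = (N ^ 5) ^ (8 * ⌈A⌉₊ + 1) := by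
          rw [← mul_pow]
          congr 1
  have hNM' : N ^ 5 * (3 * L + 1) ≤ D := by
    calc N ^ 5 * (3 * L + 1) ≤ N ^ 5 * (N * L) := Nat.mul_le_mul_left _ (by nlinarith)
      _ = L * N ^ 6 := by ring
      _ ≤ D := hdL
  have hRN1 : R' ≤ N := by omega
  have hRN2 : R'' ≤ N := by omega
  refine
    { hN := ?_
      hm := fun i hi => ?_
      hμ := fun l => ?_
      hd := ?_
      hχ := ?_
      room := ?_
      hNv := fun l => ?_
      hNv' := fun l => ?_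
      hv := fun l j => ?_
      hvμ := fun l => ?_
      crit := fun l => ?_
      hw := fun l => ?_
      hMv := fun l => Nat.le_add_left 1 M
      two := fun l => ?_ }
  · rintro y ⟨hy1, T, -, hT, hy2⟩
    have hy0 : y (Sum.inl ⟨i₀, h₀⟩) = m i₀ := by
      refine hy2 _ (fun h => ?_)
      exact (hT _ h).1 (Finset.mem_singleton_self _)
    refine hR'' (3 * L + 1) (N ^ 5) (by omega) (hRN2.trans (Nat.le_self_pow (by norm_num) N)) hM'N
      d y (Sum.inl ⟨i₀, h₀⟩) ?_ (by rw [hy0]; omega)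
    rintro (i | l) hk
    · have hi : i.1 ≠ i₀ := fun h => hk (congrArg Sum.inl (Subtype.ext h))
      have h1 := hm i.1 hi
      have h2 : y (Sum.inl i) ≤ m i.1 + 1 := by
        by_cases hiT : i ∈ T
        · exact (hT i hiT).2
        · exact (hy2 i hiT).le.trans (Nat.le_succ _)
      omega
    · have h1 := (hy1 l).2
      have h2 := (hnum l).2.1
      omega
  · have := hm i.1 (fun h => hi (Finset.mem_singleton.mpr (Subtype.ext h)))
    change m i.1 + 1 ≤ 3 * L + 1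
    omega
  · have := (hnum l).2.1
    change μ l + 1 ≤ 3 * L + 1
    omega
  · rw [Finset.sum_singleton]
    change ∑ l : Fin 200, (μ l + 2) + m i₀ + 2 * (3 * L + 1) ≤ d
    have h1 : ∑ l : Fin 200, (μ l + 2) ≤ 200 * (3 * L + 2) := by
      calc ∑ l : Fin 200, (μ l + 2) ≤ ∑ l : Fin 200, (3 * L + 2) :=
            Finset.sum_le_sum (fun l _ => by
              have := (hnum l).2.1
              omega)
        _ = 200 * (3 * L + 2) := by
            rw [Finset.sum_const, Finset.card_univ, Fintype.card_fin, smul_eq_mul]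
    omega
  · rw [Finset.sum_congr rfl (fun l _ => hcl l), Finset.sum_add_distrib] at hsplit
    omega
  · calc 5 * (3 * L + 1) ≤ 200 * (L / 10) := by omega
      _ = ∑ l : Fin 200, L / 10 := by
          rw [Finset.sum_const, Finset.card_univ, Fintype.card_fin, smul_eq_mul]
      _ ≤ ∑ l : Fin 200, w l := Finset.sum_le_sum (fun l _ => by
          have := (hnum l).2.2.1
          omega)
  · have h1 := (hnum l).2.2.2.2.1
    exact hR' (μ l) (M + 1) N (by omega) (by omega) hRN1 hM1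
  · have h1 := (hnum l).2.2.2.2.1
    exact hR' (μ l - 1) (M + 1) N (by omega) (by omega) hRN1 hM1
  · exact Nat.add_le_add_right (hmS _ (hCS l ((C l).equivFin.symm j).2)) 1
  · exact (hnum l).2.2.2.2.2
  · exact hcl l
  · exact (hnum l).2.2.2.1
  · rcases eq_or_ne l 0 with h | h
    · exact ⟨1, by rw [h]; decide⟩
    · exact ⟨0, h.symm⟩

end Pool.Agent.Work.MP_0421d9_ag.ZE
end

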