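import Pool.Agent.Work.Z0421M.C40
import Pool.Agent.Work.Z0421M.C57

section
/-!
Smoothness for all systems in the range of `all_windows`.
-/

namespace Pool.Agent.Work.MP_0421d9_ag.LD

open MvPolynomial Module

/-- The hypotheses on the systems survive the raising of one multiplicity. -/
theorem upJ_cond {T Z : ℝ} (hT : 1 ≤ T) (hZ : 64 * T ^ 2 ≤ Z) {r d M h : ℕ} {m : Fin r → ℕ}
    (hM : 1 ≤ M) (hm : ∀ i, m i ≤ M) (hd : 8 * M ≤ d)
    (hχ : h + ∑ i, (m i + 1).choose 2 = (d + 2).choose 2)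
    (H : (M : ℝ) ≤ T ∨ (M : ℝ) ^ 2 ≤ T * h ∨
      (d : ℝ) ^ 2 ≤ T * ∑ i, if (m i : ℝ) ≤ T then ((m i + 1).choose 2 : ℝ) else 0)
    (j a : Fin r) :
    ((M : ℝ) + 1) ≤ Z ∨ ((M : ℝ) + 1) ^ 2 ≤ Z *
      |((d + 2).choose 2 : ℝ) - ∑ i, ((upJ m j a i + 1).choose 2 : ℝ)| ∨
      (d : ℝ) ^ 2 ≤ Z * ∑ i, if (upJ m j a i : ℝ) ≤ Z then ((upJ m j a i + 1).choose 2 : ℝ)
        else 0 := by
  classical
  rw [← Finset.sum_filter] at H ⊢
  rcases le_or_gt ((M : ℝ) + 1) Z with hMZ | hMZ
  · exact Or.inl hMZ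
  right
  have hM1 : (1 : ℝ) ≤ M := by exact_mod_cast hM
  have hMT : 63 * T ^ 2 ≤ (M : ℝ) := by nlinarith
  have hMT1 : 63 * T ≤ (M : ℝ) := by nlinarith
  have hZT : 64 * T ≤ Z := by nlinarith
  have hZ0 : 0 < Z := by linarith
  -- the numbers
  obtain ⟨s, hs⟩ : ∃ s, s = ∑ i ∈ Finset.univ.filter (fun i => i ≠ a ∧ m i < m j),
    (m i + 1).choose 2 := ⟨_, rfl⟩
  have hsum := sum_upJ m j a
  rw [← hs] at hsum
  have hχ' : ((d + 2).choose 2 : ℝ) - ∑ i, ((upJ m j a i + 1).choose 2 : ℝ) =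
      (h : ℝ) + s - (m j + 1) := by
    have h1 : ((∑ i, (upJ m j a i + 1).choose 2 + s : ℕ) : ℝ) =
      ((∑ i, (m i + 1).choose 2 + (m j + 1) : ℕ) : ℝ) := by rw [hsum]
    have h2 : ((h + ∑ i, (m i + 1).choose 2 : ℕ) : ℝ) = ((d + 2).choose 2 : ℕ) := by rw [hχ]
    push_cast at h1 h2 ⊢
    linarith
  rw [hχ']
  have hmj : ((m j : ℝ) + 1) ≤ M + 1 := by
    have := hm j
    have h1 : (m j : ℝ) ≤ M := by exact_mod_cast this
    linarith
  have hs0 : (0 : ℝ) ≤ s := Nat.cast_nonneg s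
  have hh0 : (0 : ℝ) ≤ h := Nat.cast_nonneg h
  -- a large Euler characteristic
  have hlarge : ∀ x : ℝ, (M : ℝ) ^ 2 ≤ T * x → x ≤ 4 * ((h : ℝ) + s - (m j + 1)) →
      ((M : ℝ) + 1) ^ 2 ≤ Z * |(h : ℝ) + s - (m j + 1)| := by
    intro x hx1 hx2
    have hx0 : 0 ≤ x := by
      by_contra hcon
      push Not at hcon
      nlinarith
    have h1 : (h : ℝ) + s - (m j + 1) ≤ |(h : ℝ) + s - (m j + 1)| := le_abs_self _
    have h2 : ((M : ℝ) + 1) ^ 2 ≤ 4 * (M : ℝ) ^ 2 := by nlinarith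
    have h3 : 4 * (T * x) ≤ (Z / 4) * x := by nlinarith
    calc ((M : ℝ) + 1) ^ 2 ≤ 4 * (T * x) := by linarith
      _ ≤ (Z / 4) * x := h3
      _ ≤ (Z / 4) * (4 * |(h : ℝ) + s - (m j + 1)|) := by
          apply mul_le_mul_of_nonneg_left _ (by linarith)
          linarith
      _ = Z * |(h : ℝ) + s - (m j + 1)| := by ring
  rcases H with H | H | H
  · exfalso
    nlinarith
  · left
    apply hlarge h H
    have h1 : 63 * (M : ℝ) ≤ h := by
      by_contra hcon
      push Not at hcon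
      nlinarith
    linarith
  · obtain ⟨S, hS⟩ : ∃ S, S = ∑ i ∈ Finset.univ.filter (fun i => (m i : ℝ) ≤ T),
      (m i + 1).choose 2 := ⟨_, rfl⟩
    have hSR : (S : ℝ) = ∑ i ∈ Finset.univ.filter (fun i => (m i : ℝ) ≤ T),
        ((m i + 1).choose 2 : ℝ) := by
      rw [hS]; push_cast; rfl
    rw [← hSR] at H
    have hdR : 8 * (M : ℝ) ≤ d := by exact_mod_cast hd
    have hd2 : 64 * (M : ℝ) ^ 2 ≤ (d : ℝ) ^ 2 := by nlinarith
    have hS0 : (0 : ℝ) ≤ S := Nat.cast_nonneg S
    have hSM : 64 * 63 * (M : ℝ) ≤ S := by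
      by_contra hcon
      push Not at hcon
      nlinarith
    have hS2 : (M : ℝ) ^ 2 ≤ T * S := by nlinarith
    by_cases hjT : (m j : ℝ) ≤ T
    · by_cases hsS : (S : ℝ) ≤ 2 * s
      · left
        apply hlarge S hS2
        linarith
      · right
        push Not at hsS
        have h1 : S ≤ s + ∑ i ∈ Finset.univ.filter (fun i => (upJ m j a i : ℝ) ≤ Z),
            (upJ m j a i + 1).choose 2 := by
          rw [hS, hs, Finset.sum_filter, Finset.sum_filter, Finset.sum_filter,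
            ← Finset.sum_add_distrib]
          refine Finset.sum_le_sum (fun i _ => ?_)
          by_cases hiT : (m i : ℝ) ≤ T
          · rw [if_pos hiT]
            have h2 : (upJ m j a i : ℝ) ≤ m i + 1 := by
              have h3 : upJ m j a i ≤ m i + 1 := by
                unfold upJ
                split_ifs with h4
                · rw [h4]
                · exact Nat.le_succ _
                · exact Nat.zero_le _
              exact_mod_cast h3
            have h3 : (upJ m j a i : ℝ) ≤ Z := by linarith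
            rw [if_pos h3]
            by_cases hdrop : i ≠ a ∧ m i < m j
            · rw [if_pos hdrop]
              exact Nat.le_add_right _ _
            · rw [if_neg hdrop, zero_add]
              apply Nat.choose_le_choose
              unfold upJ
              by_cases hij : i = j
              · rw [if_pos hij, hij]
                exact Nat.le_succ _
              · rw [if_neg hij, if_pos]
                by_contra h5
                push Not at h5
                exact hdrop ⟨h5.2, h5.1⟩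
          · rw [if_neg hiT]
            exact Nat.zero_le _
        have h2 : (S : ℝ) ≤ s + ∑ i ∈ Finset.univ.filter (fun i => (upJ m j a i : ℝ) ≤ Z),
            ((upJ m j a i + 1).choose 2 : ℝ) := by
          have h3 : ((S : ℕ) : ℝ) ≤ ((s + ∑ i ∈ Finset.univ.filter
            (fun i => (upJ m j a i : ℝ) ≤ Z), (upJ m j a i + 1).choose 2 : ℕ) : ℝ) := by
            exact_mod_cast h1
          push_cast at h3
          exact h3
        obtain ⟨Y, hY⟩ : ∃ Y, Y = ∑ i ∈ Finset.univ.filter (fun i => (upJ m j a i : ℝ) ≤ Z),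
            ((upJ m j a i + 1).choose 2 : ℝ) := ⟨_, rfl⟩
        rw [← hY] at h2 ⊢
        have h3 : (S : ℝ) ≤ 2 * Y := by linarith
        have hY0 : 0 ≤ Y := by linarith
        calc (d : ℝ) ^ 2 ≤ T * S := H
          _ ≤ T * (2 * Y) := mul_le_mul_of_nonneg_left h3 (by linarith)
          _ ≤ Z * Y := by nlinarith
    · left
      push Not at hjT
      apply hlarge S hS2
      have h1 : S ≤ s + if (m a : ℝ) ≤ T then (m a + 1).choose 2 else 0 := by
        rw [hS, hs, Finset.sum_filter, Finset.sum_filter]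
        have h2 : (if (m a : ℝ) ≤ T then (m a + 1).choose 2 else 0) =
            ∑ i, if i = a then (if (m i : ℝ) ≤ T then (m i + 1).choose 2 else 0) else 0 := by
          rw [Finset.sum_ite_eq' Finset.univ a, if_pos (Finset.mem_univ a)]
        rw [h2, ← Finset.sum_add_distrib]
        refine Finset.sum_le_sum (fun i _ => ?_)
        by_cases hiT : (m i : ℝ) ≤ T
        · rw [if_pos hiT]
          by_cases hia : i = a
          · rw [if_pos hia]
            exact Nat.le_add_left _ _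
          · rw [if_neg hia, if_pos]
            · exact Nat.le_add_right _ _
            · refine ⟨hia, ?_⟩
              have h3 : (m i : ℝ) < m j := lt_of_le_of_lt hiT hjT
              exact_mod_cast h3
        · rw [if_neg hiT]
          exact Nat.zero_le _
      have h2 : (S : ℝ) ≤ s + T ^ 2 := by
        by_cases haT : (m a : ℝ) ≤ T
        · rw [if_pos haT] at h1
          have h3 : (S : ℝ) ≤ s + ((m a + 1).choose 2 : ℕ) := by exact_mod_cast h1
          have h4 : (((m a + 1).choose 2 : ℕ) : ℝ) ≤ T ^ 2 := by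
            rw [Nat.cast_choose_two, Nat.cast_add, Nat.cast_one]
            nlinarith [Nat.cast_nonneg (α := ℝ) (m a)]
          linarith
        · rw [if_neg haT] at h1
          have h3 : (S : ℝ) ≤ s := by exact_mod_cast h1
          nlinarith
      linarith

/-- **All systems**: the dimension, and smoothness, in the range of `all_windows`. -/
theorem all_smooth {A : ℝ} (hA : 0 < A) : ∃ R : ℝ, ∀ (r d M : ℕ) (p : Fin r → V3)
    (m : Fin r → ℕ), GenericPoints p → 1 ≤ M → (∀ i, m i ≤ M) → R * M ≤ d →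
    ((M : ℝ) ≤ ((d : ℝ) / M) ^ A ∨
      (M : ℝ) ^ 2 * ((M : ℝ) / d) ^ A ≤
        |((d + 2).choose 2 : ℝ) - ∑ i, ((m i + 1).choose 2 : ℝ)| ∨
      (d : ℝ) ^ 2 * ((M : ℝ) / d) ^ A ≤
        ∑ i, if (m i : ℝ) ≤ ((d : ℝ) / M) ^ A then ((m i + 1).choose 2 : ℝ) else 0) →
      finrank ℂ (linSys d p m) = (d + 2).choose 2 - ∑ i, (m i + 1).choose 2 ∧
      (linSys d p m ≠ ⊥ →
        (∀ j a, 3 ≤ m j → 2 ≤ m a → m j < finrank ℂ (linSys d p m) +
          ∑ i ∈ Finset.univ.filter (fun i => i ≠ a ∧ m i < m j), (m i + 1).choose 2) →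
        ((∃ F ∈ linSys d p m, Squarefree F) ∨ ∀ j, m j = 2 → 2 < finrank ℂ (linSys d p m) +
          (Finset.univ.filter (fun i => m i = 1)).card) →
        (∃ F ∈ linSys d p m, Squarefree F) ∧
        (∀ s : Fin (finrank ℂ (linSys d p m) - 1) → Fin 3 → ℂ, GenericPoints (Sum.elim p s) →
          ∀ F ∈ linSys d p m, F ≠ 0 → (∀ k, eval (s k) F = 0) → SmoothOnBlowup p m F) ∧
        (∃ F ∈ linSys d p m, F ≠ 0 ∧ SmoothOnBlowup p m F)) := by
  obtain ⟨R₁, h1⟩ := all_windows hA
  obtain ⟨R₂, h2⟩ := all_windows (A := 4 * A + 4) (by linarith)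
  refine ⟨|R₁| + 2 * |R₂| + 8, fun r d M p m hp hM hm hd H => ?_⟩
  have hM1 : (1 : ℝ) ≤ M := by exact_mod_cast hM
  have hR1 : R₁ * M ≤ d := by
    have := le_abs_self R₁
    have := abs_nonneg R₂
    nlinarith
  have hR2 : R₂ * ((M + 1 : ℕ) : ℝ) ≤ d := by
    have := le_abs_self R₂
    have := abs_nonneg R₁
    have := abs_nonneg R₂
    push_cast
    nlinarith
  have h8 : 8 * (M : ℝ) ≤ d := by
    have := abs_nonneg R₁
    have := abs_nonneg R₂
    nlinarith
  have hns := h1 r d M p m hp hM hm hR1 H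
  refine ⟨hns, fun hne hbig hsq => ?_⟩
  have hfin : Module.Finite ℂ (linSys d p m) :=
    Submodule.finiteDimensional_of_le (linSys_le d p _)
  have hpos : finrank ℂ (linSys d p m) ≠ 0 := fun h2 => hne (Submodule.finrank_eq_zero.mp h2)
  have hdR : (0 : ℝ) < d := by linarith
  have hMR : (0 : ℝ) < M := by linarith
  -- the numbers
  obtain ⟨x, hx⟩ : ∃ x : ℝ, x = d / M := ⟨_, rfl⟩
  have hx8 : 8 ≤ x := by
    rw [hx, le_div_iff₀ hMR]
    exact h8
  have hx0 : 0 < x := by linarith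
  obtain ⟨y, hy⟩ : ∃ y : ℝ, y = d / ((M + 1 : ℕ) : ℝ) := ⟨_, rfl⟩
  have hM1' : (0 : ℝ) < ((M + 1 : ℕ) : ℝ) := by positivity
  have hyx : x / 2 ≤ y := by
    rw [hx, hy, div_div, div_le_div_iff₀ (by positivity) hM1']
    push_cast
    nlinarith
  have hy0 : 0 < y := by linarith
  obtain ⟨T, hT⟩ : ∃ T : ℝ, T = x ^ A := ⟨_, rfl⟩
  obtain ⟨Z, hZ⟩ : ∃ Z : ℝ, Z = y ^ (4 * A + 4) := ⟨_, rfl⟩
  have hT1 : 1 ≤ T := by
    rw [hT]
    exact Real.one_le_rpow (by linarith) hA.le
  have hZ0 : 0 < Z := by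
    rw [hZ]
    exact Real.rpow_pos_of_pos hy0 _
  have hTZ : 64 * T ^ 2 ≤ Z := by
    calc 64 * T ^ 2 ≤ x ^ 2 * T ^ 2 := by
          apply mul_le_mul_of_nonneg_right _ (by positivity)
          nlinarith
      _ = x ^ (2 * A + 2) := by
          rw [Real.rpow_add hx0, mul_comm 2 A, Real.rpow_mul hx0.le, hT]
          norm_cast
          ring
      _ ≤ (y ^ 2) ^ (2 * A + 2) := by
          apply Real.rpow_le_rpow hx0.le _ (by linarith)
          nlinarith
      _ = Z := by
          rw [hZ, ← Real.rpow_natCast y 2, ← Real.rpow_mul hy0.le]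
          congr 1
          push_cast
          ring
  have hxi : ((M : ℝ) / d) ^ A = T⁻¹ := by
    rw [hT, hx, ← Real.inv_rpow (by positivity), inv_div]
  have hyi : (((M + 1 : ℕ) : ℝ) / d) ^ (4 * A + 4) = Z⁻¹ := by
    rw [hZ, hy, ← Real.inv_rpow (by positivity), inv_div]
  rw [← hx, ← hT, hxi] at H
  have hχ : finrank ℂ (linSys d p m) + ∑ i, (m i + 1).choose 2 = (d + 2).choose 2 := by omega
  have habs : |((d + 2).choose 2 : ℝ) - ∑ i, ((m i + 1).choose 2 : ℝ)| =
      (finrank ℂ (linSys d p m) : ℝ) := by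
    have h3 : ((finrank ℂ (linSys d p m) + ∑ i, (m i + 1).choose 2 : ℕ) : ℝ) =
      ((d + 2).choose 2 : ℕ) := by rw [hχ]
    push_cast at h3
    rw [← h3, add_sub_cancel_right]
    exact abs_of_nonneg (Nat.cast_nonneg _)
  have hT0 : 0 < T := by linarith
  have H' : (M : ℝ) ≤ T ∨ (M : ℝ) ^ 2 ≤ T * (finrank ℂ (linSys d p m) : ℕ) ∨
      (d : ℝ) ^ 2 ≤ T * ∑ i, if (m i : ℝ) ≤ T then ((m i + 1).choose 2 : ℝ) else 0 := by
    rw [habs] at H
    refine H.imp_right (Or.imp (fun h => ?_) (fun h => ?_))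
    · rwa [← div_eq_mul_inv, div_le_iff₀ hT0, mul_comm _ T] at h
    · rwa [← div_eq_mul_inv, div_le_iff₀ hT0, mul_comm _ T] at h
  refine boot_smooth' p hp m hns (fun j a _ _ => ?_) hbig hsq hne
  have h3 := upJ_cond hT1 hTZ hM hm (by exact_mod_cast h8) hχ H' j a
  refine h2 r d (M + 1) p _ hp (by omega) (fun i => ?_) hR2 ?_
  · unfold upJ
    have := hm i
    have := hm j
    split_ifs <;> omega
  · rw [← hy, ← hZ, hyi]
    refine h3.imp (fun h => ?_) (Or.imp (fun h => ?_) (fun h => ?_))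
    · push_cast
      exact h
    · rw [← div_eq_mul_inv, div_le_iff₀ hZ0, mul_comm _ Z]
      push_cast
      exact h
    · rw [← div_eq_mul_inv, div_le_iff₀ hZ0, mul_comm _ Z]
      exact h

end Pool.Agent.Work.MP_0421d9_ag.LD
end

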