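import Pool.Agent.Work.Z0421M.C26
import Pool.Agent.Work.Z0421M.C29
import Pool.Agent.Work.Z0421M.C35
import Pool.Agent.Work.Z0421M.C39
import Pool.Agent.Work.Z0421M.C40
import Pool.Agent.Work.Z0421M.C54

section
/-!
The relative path: the points of large multiplicity impose independent conditions in degree `D - t`,
strips are taken from the other points, and the leaves are treated with the two-scale window.
-/

namespace Pool.Agent.Work.MP_0421d9_ag.LD

open MvPolynomial Module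

/-- the indices of the multiplicities greater than `u` -/
noncomputable def bigs {r : ℕ} (u : ℕ) (m : Fin r → ℕ) : Finset (Fin r) :=
  Finset.univ.filter (fun i => u < m i)

theorem mem_bigs {r u : ℕ} {m : Fin r → ℕ} {i : Fin r} : i ∈ bigs u m ↔ u < m i := by
  simp [bigs]

/-- the two-scale window -/
theorem zs_win {r D u M : ℕ} {y : Fin r → ℕ} {B : Finset (Fin r)} (huM : u ≤ M)
    (hM : ∀ i, y i ≤ M) (hu : ∀ i, i ∉ B → y i ≤ u) (hB : Rg D (onB B y)) (h0 : hPm D y ≠ 0)
    {S : ℕ} (hS : hPm D y + ∑ i, (y i + 1).choose 2 = (D + 2).choose 2 + S) (hS1 : 1 ≤ S) :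
    hPm D y + S ≤ u * M := by
  have hne : linSys D (gpt r) y ≠ ⊥ := by
    intro h
    apply h0
    unfold hPm
    rw [h, finrank_bot]
  obtain ⟨k, e, S', hk, he, hke, hS', hSe, hle⟩ := kq_window (gpt_generic r) huM hM B hu hB hne
    (by
      change hPm D y + _ ≠ _
      omega)
  change hPm D y + _ = _ at hSe
  change e * hPm D y + _ ≤ _ at hle
  have hSS : S' = S := by omega
  rw [hSS] at hle
  have h1 : hPm D y ≤ k * M := by
    have h2 : e * hPm D y ≤ e * (k * M) := by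
      calc e * hPm D y ≤ k * e * M := le_trans (Nat.le_add_right _ _) hle
        _ = e * (k * M) := by ring
    exact Nat.le_of_mul_le_mul_left h2 he
  have h3 : S ≤ e * M := by
    have h2 : k * S ≤ k * (e * M) := by
      calc k * S ≤ k * e * M := le_trans (Nat.le_add_left _ _) hle
        _ = k * (e * M) := by ring
    exact Nat.le_of_mul_le_mul_left h2 hk
  calc hPm D y + S ≤ k * M + e * M := Nat.add_le_add h1 h3
    _ = (k + e) * M := by ring
    _ = u * M := by rw [hke]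

/-- the greatest multiplicity in a pool -/
theorem pool_max {r : ℕ} {P : ℕ → ℕ} {y : Fin r → ℕ} {B s : ℕ} (hB : 1 ≤ B)
    (h : B ≤ psum P y s) :
    ∃ v, 1 ≤ v ∧ P v = s ∧ (∀ i, P (y i) = s → y i ≤ v) := by
  classical
  have hne : (Finset.univ.filter (fun i => P (y i) = s)).Nonempty := by
    rw [Finset.nonempty_iff_ne_empty]
    intro h1
    rw [psum_eq_filter, h1, Finset.sum_empty] at h
    omega
  obtain ⟨i, hi, hmax⟩ := Finset.exists_max_image _ y hne
  have hi' := (Finset.mem_filter.1 hi).2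
  refine ⟨y i, ?_, hi', fun j hj => hmax j (Finset.mem_filter.2 ⟨Finset.mem_univ _, hj⟩)⟩
  by_contra h0
  have h1 : psum P y s = 0 := by
    rw [psum_eq_filter]
    refine Finset.sum_eq_zero fun j hj => ?_
    have := hmax j hj
    omega
  omega

theorem path_rel {J G D t u M r p U : ℕ} {P : ℕ → ℕ}
    (hP : Pools P p U u J) (hPu : ∀ v, P v < J → v ≤ u) (hG : 1 ≤ G)
    {m : Fin r → ℕ} (hu : 1 ≤ u) (huM : u ≤ M) (hM : ∀ i, m i ≤ M)
    (hreg : Rg (D - t) (onB (bigs u m) m)) (htD : t ≤ D) (ht : 4 * u + 2 ≤ t)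
    (hgain : 8 * G * u ^ 2 * M ≤ t * D)
    (hoff : 8 * J * D + G * u * M ≤ ∑ i, if m i ≤ u then m i else 0)
    (hstrip : ∀ (D' s v : ℕ) (y : Fin r → ℕ), D ≤ 2 * D' → D' ≤ D → 1 ≤ v → v ≤ u →
      P v = s → (∀ i, P (y i) = s → y i ≤ v) →
      8 * D' ≤ ∑ i ∈ Finset.univ.filter (fun i => P (y i) = s), y i →
      StripGain D' G (Finset.univ.filter (fun i => P (y i) = s)) y v) :
    hPm D m = (D + 2).choose 2 - ∑ i, (m i + 1).choose 2 := by
  classical
  obtain ⟨cn, hcn⟩ : ∃ cn : (Fin r → ℕ) → ℕ, ∀ y, cn y = ∑ i, (y i + 1).choose 2 :=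
    ⟨_, fun _ => rfl⟩
  obtain ⟨S₀, hS₀⟩ : ∃ S₀, S₀ = ∑ i, m i := ⟨_, rfl⟩
  -- the leaves
  have hleaf : ∀ (D' : ℕ) (y : Fin r → ℕ), D ≤ D' + t → (∀ i, y i = m i ∨ y i = 0) →
      (∀ i, y i ≠ m i → m i ≤ u) → ∑ i, y i + G * u * M ≤ S₀ →
      ∀ U S : ℕ, S₀ ≤ G * (U + S) + ∑ i, y i →
      (hPm D' y : ℤ) ≤ max (U : ℤ)
        ((((D' + 2).choose 2 : ℕ) : ℤ) - (cn y : ℤ) + S) := by
    intro D' y h1 h3 h4 h5 U S h6
    by_contra hcon
    push Not at hcon
    rw [max_lt_iff] at hcon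
    obtain ⟨hc1, hc2⟩ := hcon
    have hUS : u * M ≤ U + S := by
      have h7 : G * (u * M) ≤ G * (U + S) := by
        have h8 : G * u * M = G * (u * M) := Nat.mul_assoc _ _ _
        omega
      exact Nat.le_of_mul_le_mul_left h7 hG
    have hyM : ∀ i, y i ≤ M := by
      intro i
      rcases h3 i with h | h
      · rw [h]; exact hM i
      · rw [h]; exact Nat.zero_le _
    have hyu : ∀ i, i ∉ bigs u m → y i ≤ u := by
      intro i hi
      rw [mem_bigs, not_lt] at hi
      rcases h3 i with h | h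
      · rw [h]; exact hi
      · rw [h]; exact Nat.zero_le _
    have hB : Rg D' (onB (bigs u m) y) := by
      have h7 : onB (bigs u m) y = onB (bigs u m) m := by
        funext i
        unfold onB
        split_ifs with h
        · rw [mem_bigs] at h
          by_contra h8
          have := h4 i h8
          omega
        · rfl
      rw [h7]
      exact hreg.mono (by omega)
    have hcnt := hcn y
    obtain ⟨S', hS'⟩ : ∃ S', hPm D' y + ∑ i, (y i + 1).choose 2 = (D' + 2).choose 2 + S' := by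
      rw [← hcnt]
      exact ⟨hPm D' y + cn y - (D' + 2).choose 2, by omega⟩
    rw [← hcnt] at hS'
    have h8 := zs_win huM hyM hyu hB (by omega) (S := S') (by rw [← hcnt]; exact hS') (by omega)
    omega
  -- the main claim
  have key : ∀ (n D' : ℕ) (y : Fin r → ℕ), D' ≤ n → D ≤ D' + t → D' ≤ D →
      (∀ i, y i = m i ∨ y i = 0) → (∀ i, y i ≠ m i → m i ≤ u) →
      (D + 2).choose 2 + 2 * cn y ≤ 2 * cn m + (D' + 2).choose 2 →
      ∀ U S : ℕ, S₀ ≤ G * (U + S) + ∑ i, y i →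
      (hPm D' y : ℤ) ≤ max (U : ℤ)
        ((((D' + 2).choose 2 : ℕ) : ℤ) - (cn y : ℤ) + S) := by
    -- few used rows and a pool is available
    have hused : ∀ (D' : ℕ) (y : Fin r → ℕ), D' ≤ D → (∀ i, y i = m i ∨ y i = 0) →
        (∀ i, y i ≠ m i → m i ≤ u) →
        (D + 2).choose 2 + 2 * cn y ≤ 2 * cn m + (D' + 2).choose 2 → 2 * D' + t < 2 * D →
        ∑ i, y i + G * u * M ≤ S₀ := by
      intro D' y h2 h3 h4 h5 h6
      obtain ⟨w, rfl⟩ : ∃ w, D = D' + w := ⟨D - D', by omega⟩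
      have f1 := two_choose (D' + w + 1)
      have f2 := two_choose (D' + 1)
      have e1 : D' + w + 1 + 1 = D' + w + 2 := rfl
      have e2 : D' + 1 + 1 = D' + 2 := rfl
      rw [e1] at f1
      rw [e2] at f2
      have f3 : 2 * cn m + (u + 1) * ∑ i, y i ≤ 2 * cn y + (u + 1) * ∑ i, m i := by
        rw [hcn, hcn, Finset.mul_sum, Finset.mul_sum, Finset.mul_sum, Finset.mul_sum,
          ← Finset.sum_add_distrib, ← Finset.sum_add_distrib]
        refine Finset.sum_le_sum fun i _ => ?_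
        rw [two_choose, two_choose]
        rcases h3 i with h7 | h7
        · rw [h7]
        · by_cases h8 : y i = m i
          · rw [h8]
          · have h9 := h4 i h8
            rw [h7]
            nlinarith [Nat.zero_le (m i)]
      rw [← hS₀] at f3
      obtain ⟨Y, hY⟩ : ∃ Y, Y = ∑ i, y i := ⟨_, rfl⟩
      rw [← hY] at f3 ⊢
      -- `2 w (2 D' + w + 3) ≤ 4 (u + 1) (S₀ - Y)`
      have f4 : w * (2 * D' + w + 3) + 2 * ((u + 1) * Y) ≤ 2 * ((u + 1) * S₀) := by
        have f5 : (D' + w + 1) ^ 2 + (D' + w + 1) =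
            (D' + 1) ^ 2 + (D' + 1) + w * (2 * D' + w + 3) := by ring
        omega
      have f6 : t * (D' + w) ≤ 2 * (w * (2 * D' + w + 3)) := by
        calc t * (D' + w) ≤ (2 * w) * (2 * D' + w + 3) :=
              Nat.mul_le_mul (by omega) (by omega)
          _ = 2 * (w * (2 * D' + w + 3)) := by ring
      have f7 : 8 * G * u ^ 2 * M + 4 * ((u + 1) * Y) ≤ 4 * ((u + 1) * S₀) := by omega
      have f8 : Y ≤ S₀ := by
        by_contra h
        push Not at h
        have : (u + 1) * S₀ < (u + 1) * Y := Nat.mul_lt_mul_of_pos_left h (Nat.succ_pos u)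
        omega
      obtain ⟨Z, rfl⟩ : ∃ Z, S₀ = Y + Z := ⟨S₀ - Y, by omega⟩
      have f9 : 8 * G * u ^ 2 * M ≤ 4 * ((u + 1) * Z) := by
        rw [Nat.mul_add (u + 1)] at f7
        omega
      have f10 : 4 * ((u + 1) * Z) ≤ 8 * (u * Z) := by
        have : (u + 1) * Z ≤ (2 * u) * Z := Nat.mul_le_mul_right _ (by omega)
        have e3 : (2 * u) * Z = 2 * (u * Z) := by ring
        omega
      have f11 : u * (G * u * M) ≤ u * Z := by
        have e4 : 8 * G * u ^ 2 * M = 8 * (u * (G * u * M)) := by ring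
        omega
      have f12 := Nat.le_of_mul_le_mul_left f11 hu
      omega
    intro n
    induction n with
    | zero =>
      intro D' y h0 h1 h2 h3 h4 h5 U S hUS
      -- the degree is zero: all the rows are used
      refine hleaf D' y h1 h3 h4 (hused D' y h2 h3 h4 h5 ?_) U S hUS
      omega
    | succ n ih =>
      intro D' y hn h1 h2 h3 h4 h5 U S hUS
      have hYS : ∑ i, y i ≤ S₀ := by
        rw [hS₀]
        refine Finset.sum_le_sum fun i _ => ?_
        rcases h3 i with h5 | h5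
        · rw [h5]
        · rw [h5]; exact Nat.zero_le _
      by_cases hlf : 2 * D' + t < 2 * D
      · exact hleaf D' y h1 h3 h4 (hused D' y h2 h3 h4 h5 hlf) U S hUS
      push Not at hlf
      by_cases hav : ∃ s, s < J ∧ 8 * D ≤ psum P y s
      · obtain ⟨s, hsJ, hs⟩ := hav
        obtain ⟨v, hv1, hPv, hmax⟩ := pool_max (by omega) hs
        have hvu : v ≤ u := hPu v (by omega)
        have hQs : 8 * D' ≤ ∑ i ∈ Finset.univ.filter (fun i => P (y i) = s), y i := by
          rw [← psum_eq_filter]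
          omega
        obtain ⟨κ, A, y', Su, hst, hout, hSu, hκu, hSu1, e1, e2⟩ :=
          hstrip D' s v y (by omega) h2 hv1 hvu hPv hmax hQs
        obtain ⟨hκ1, hκ2, hAD, hyy, hcnt, hRR⟩ := hst.pstep
        have h3' : ∀ i, y' i = m i ∨ y' i = 0 := by
          intro i
          rcases hyy i with h6 | h6
          · rw [h6]; exact h3 i
          · exact Or.inr h6
        have h4' : ∀ i, y' i ≠ m i → m i ≤ u := by
          intro i hi
          by_cases h7 : y i = m i
          · have h8 : i ∈ Finset.univ.filter (fun i => P (y i) = s) := by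
              by_contra h9
              exact hi ((hout i h9).trans h7)
            have h9 := (Finset.mem_filter.1 h8).2
            rw [← h7]
            exact (hmax i h9).trans hvu
          · exact h4 i h7
        rw [← hcn, ← hcn] at hcnt
        obtain ⟨e, he⟩ : ∃ e, D' = e + κ + 1 := ⟨D' - κ - 1, by omega⟩
        have f1 : D' - κ = e + 1 := by omega
        have f2 : D' - κ + 1 - A = e + 2 - A := by omega
        rw [f1] at hAD
        rw [f2] at e2
        rw [f1] at hRR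
        have f4 : e + 1 - 1 = e := rfl
        rw [f4] at hRR
        have r1 := rows_choose e κ
        have r2 := row_choose e
        rw [he] at hcnt
        have hlow : D ≤ e + t := by omega
        obtain ⟨Y, hY⟩ : ∃ Y, Y = ∑ i, y i := ⟨_, rfl⟩
        obtain ⟨Y', hY'⟩ : ∃ Y', Y' = ∑ i, y' i := ⟨_, rfl⟩
        rw [← hY, ← hY'] at hSu
        rw [← hY] at hUS
        have hr3 : (e + 2).choose 2 + 2 * (e + 2) ≤ (e + κ + 1 + 2).choose 2 := by
          have h6 := row_choose (e + 1)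
          have h7 : (e + 1 + 1 + 2).choose 2 ≤ (e + κ + 1 + 2).choose 2 :=
            Nat.choose_le_choose 2 (by omega)
          have h8 : e + 1 + 2 = e + 3 := rfl
          omega
        rw [he] at h5
        have i1 := ih (e + 1) y' (by omega) (by omega) (by omega) h3' h4' (by omega) (U + A) S (by
          rw [← hY']
          have h6 : G * (U + A + S) = G * (U + S) + G * A := by ring
          omega)
        have i2 := ih e y' (by omega) hlow (by omega) h3' h4' (by omega) U (S + (e + 2 - A)) (by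
          rw [← hY']
          have h6 : G * (U + (S + (e + 2 - A))) = G * (U + S) + G * (e + 2 - A) := by ring
          omega)
        rw [he] at hRR ⊢
        generalize hPm (e + 1) y' = A1 at *
        generalize hPm e y' = A2 at *
        generalize hPm (e + κ + 1) y = A0 at *
        clear ih hleaf hused h4 h4' h3 h3' hyy hout hstrip
        push_cast at i1 i2 ⊢
        omega
      · -- no pool is available
        push Not at hav
        refine hleaf D' y h1 h3 h4 ?_ U S hUS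
        have h6 := low_pools P y (s₀ := J) (B := 8 * D) (fun s hs => (hav s hs).le)
        have h7 : ∑ i, y i + (∑ i, if m i ≤ u then m i else 0) ≤
            S₀ + ∑ i, if P (y i) < J then y i else 0 := by
          rw [hS₀, ← Finset.sum_add_distrib, ← Finset.sum_add_distrib]
          refine Finset.sum_le_sum fun i _ => ?_
          by_cases h8 : m i ≤ u
          · have h9 : y i ≤ u := by
              rcases h3 i with h | h
              · rw [h]; exact h8
              · rw [h]; exact Nat.zero_le _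
            rw [if_pos h8, if_pos (hP.count _ h9)]
            omega
          · have h9 : y i = m i := by
              by_contra h10
              exact h8 (h4 i h10)
            rw [if_neg h8, h9]
            omega
        have h8 : J * (8 * D) = 8 * J * D := by ring
        omega
  have h0 := key D D m le_rfl (by omega) le_rfl (fun i => Or.inl rfl) (fun i hi => absurd rfl hi)
    (by omega) 0 0 (by
      rw [hS₀]
      omega)
  have hcount := hPm_count D m
  rw [← hcn] at hcount ⊢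
  push_cast at h0
  omega

end Pool.Agent.Work.MP_0421d9_ag.LD
end

section
/-!
The relative theorem with explicit hypotheses on the parameters.
-/

namespace Pool.Agent.Work.MP_0421d9_ag.LD

open MvPolynomial Module

theorem rel_step {G₁ A₁ : ℕ}
    (hC2 : ∀ (p D r v : ℕ) (y : Fin r → ℕ) (P : Finset (Fin r)),
    (∀ i ∈ P, y i = v) → 4 * D ≤ ∑ i ∈ P, y i → 1 ≤ p → A₁ * p ^ 6 ≤ v → D ≤ 8 * v * (v + 1) →
      v ^ 2 ≤ 4 * p ^ 2 * D → StripGain D G₁ P y v)
    {T q a p K J G X R : ℕ} (hW : WinR T q a) (hT : 1 ≤ T) (hq : 2 ≤ q) (ha : 2 ≤ a)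
    (hK : 2 ≤ K) (hp : 40 * q + 2 ^ (2 * K + 20) ≤ p) (hG : 2 ^ (2 * K + 8) ≤ G) (hG1 : G₁ ≤ G)
    (hX : 1000 * G ≤ X) (hR1 : 128 * J ≤ R)
    (hR2 : 2 * X * (1000 * a * p + (16 * K * p) ^ 3) ≤ R) (hR4 : 20 * X * A₁ * p ^ 6 ≤ R)
    {D t u M r : ℕ} {m : Fin r → ℕ} {B : Finset (Fin r)}
    (hJ : 100 * p ^ 2 + 64 * p ^ 2 * (Nat.log 2 (u + 1) + 2) + 2 ≤ J)
    (hu : 1 ≤ u) (huM : u ≤ M) (hM : ∀ i, m i ≤ M)
    (hmu : ∀ i, i ∉ B → m i ≤ u) (htD : t ≤ D) (hB : Rg (D - t) (onB B m)) (hRt : R * u ≤ t)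
    (hτ1 : X * u ^ 2 ≤ T * D)
    (hτ2 : 2 ^ (2 * K + 3) * df K * u ^ (2 * K) * X ^ (2 * K - 1) ≤ D ^ (2 * K - 1))
    (hgain : 32 * G * u ^ 2 * M ≤ t * D) :
    hPm D m = (D + 2).choose 2 - ∑ i, (m i + 1).choose 2 := by
  classical
  have hG0 : 1 ≤ G := by
    have : 1 ≤ 2 ^ (2 * K + 8) := Nat.one_le_two_pow
    omega
  have hX0 : 1 ≤ X := by omega
  have h20 : 1 ≤ 2 ^ (2 * K + 20) := Nat.one_le_two_pow
  -- the large points
  have hreg : Rg (D - t) (onB (bigs u m) m) := by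
    refine hB.of_le fun i => ?_
    unfold onB
    split_ifs with h1 h2
    · exact le_rfl
    · rw [mem_bigs] at h1
      have := hmu i h2
      omega
    · exact Nat.zero_le _
    · exact le_rfl
  obtain ⟨N, hN⟩ : ∃ N, N = ∑ i, (if m i ≤ u then (m i + 1).choose 2 else 0) := ⟨_, rfl⟩
  obtain ⟨S, hS⟩ : ∃ S, S = ∑ i, (if m i ≤ u then m i else 0) := ⟨_, rfl⟩
  have hNS : 2 * N ≤ (u + 1) * S := by
    rw [hN, hS, Finset.mul_sum, Finset.mul_sum]
    refine Finset.sum_le_sum fun i _ => ?_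
    split_ifs with h
    · rw [two_choose]
      nlinarith
    · exact Nat.le_refl _
  have htot : ∑ i, (m i + 1).choose 2 = ∑ i, (onB (bigs u m) m i + 1).choose 2 + N := by
    rw [hN, ← Finset.sum_add_distrib]
    refine Finset.sum_congr rfl fun i _ => ?_
    unfold onB
    by_cases h : m i ≤ u
    · rw [if_neg (by rw [mem_bigs]; omega), if_pos h]
      simp
    · rw [if_pos (by rw [mem_bigs]; omega), if_neg h]
      omega
  have h128 : 128 * J * u ≤ t := (Nat.mul_le_mul_right u hR1).trans hRt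
  have hJ1 : 1 ≤ J := by omega
  have hu128 : 128 * u ≤ t := by
    refine le_trans ?_ h128
    exact Nat.mul_le_mul_right u (by omega)
  by_cases hcase : 8 * N ≤ t * D
  · -- few conditions
    have h1 := kq_nonspecial (d := D) (gpt_generic r) huM hM (bigs u m)
      (fun i hi => by
        rw [mem_bigs] at hi
        omega) (hreg.mono (by omega)) (Or.inr (by
        have h2 : ∑ i, (onB (bigs u m) m i + 1).choose 2 ≤ (D - t + 2).choose 2 := by
          unfold Rg at hreg
          omega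
        have h3 : (M - 1) * (u - 1) ≤ M * u := Nat.mul_le_mul (Nat.sub_le _ _) (Nat.sub_le _ _)
        obtain ⟨D', rfl⟩ : ∃ D', D = D' + t := ⟨D - t, by omega⟩
        have e1 : D' + t - t = D' := by omega
        rw [e1] at h2
        have f1 := two_choose (D' + t + 1)
        have f2 := two_choose (D' + 1)
        have e3 : D' + t + 1 + 1 = D' + t + 2 := rfl
        have e4 : D' + 1 + 1 = D' + 2 := rfl
        rw [e3] at f1
        rw [e4] at f2
        have h5 : (D' + t + 1) ^ 2 + (D' + t + 1) =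
            (D' + 1) ^ 2 + (D' + 1) + (t * (D' + t) + t * D' + 3 * t) := by ring
        have h6 : 32 * (M * u) ≤ t * (D' + t) := by
          refine le_trans ?_ hgain
          calc 32 * (M * u) ≤ 32 * (M * u) * (G * u) := Nat.le_mul_of_pos_right _
                (Nat.mul_pos hG0 hu)
            _ = 32 * G * u ^ 2 * M := by ring
        rw [htot]
        omega))
    exact h1
  · push Not at hcase
    obtain ⟨P, hP, hPu⟩ := cut_pools (p := 64 * p ^ 2) (U := 100 * p ^ 2) (τ := u) (J := J)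
      (Nat.mul_pos (by norm_num) (pow_pos (by omega) 2)) hJ
    refine path_rel hP hPu hG0 hu huM hM hreg htD (by omega) ?_ ?_ ?_
    · refine le_trans ?_ hgain
      calc 8 * G * u ^ 2 * M = 8 * (G * u ^ 2 * M) := by ring
        _ ≤ 32 * (G * u ^ 2 * M) := Nat.mul_le_mul_right _ (by norm_num)
        _ = 32 * G * u ^ 2 * M := by ring
    · rw [← hS]
      have h1 : t * D ≤ 8 * (u * S) := by
        have h2 : (u + 1) * S ≤ (2 * u) * S := Nat.mul_le_mul_right _ (by omega)
        have h3 : (2 * u) * S = 2 * (u * S) := by ring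
        omega
      have h4 : u * (8 * J * D + G * u * M) ≤ u * S := by
        have h5 : 128 * J * u * D ≤ t * D := Nat.mul_le_mul_right D h128
        have e1 : 128 * J * u * D = 16 * (u * (8 * J * D)) := by ring
        have e2 : 32 * G * u ^ 2 * M = 32 * (u * (G * u * M)) := by ring
        rw [Nat.mul_add]
        omega
      exact Nat.le_of_mul_le_mul_left h4 hu
    · intro D' s v y h1 h2 h3 h4 h5 h6 h7
      refine step_strip (X := X) (c := u) (D := D) hC2 hP hW hT hq ha hK hp hG hG1 hX hR2 hR4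
        (hRt.trans htD) ?_ ?_ D' s v y (h1.trans (Nat.mul_le_mul_right _ (by omega))) h3 h4 h4 h5
        h6 h7
      · intro w D'' hu1 _ hXD
        obtain ⟨k, hk⟩ : ∃ k, 2 * K = k + 1 := ⟨2 * K - 1, by omega⟩
        have hk1 : 2 * K - 1 = k := by omega
        rw [hk1] at hτ2 ⊢
        have g3 : (2 * w ^ 2) ^ K = 2 ^ K * w ^ (2 * K) := by
          rw [mul_pow, ← pow_mul]
        have g4 : X ^ k * (2 ^ (K + 3) * (df K * (2 * w ^ 2) ^ K)) ≤ X ^ k * D'' ^ k := by
          calc X ^ k * (2 ^ (K + 3) * (df K * (2 * w ^ 2) ^ K))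
              = 2 ^ (2 * K + 3) * df K * w ^ (2 * K) * X ^ k := by
                rw [g3]
                ring
            _ ≤ 2 ^ (2 * K + 3) * df K * u ^ (2 * K) * X ^ k :=
                Nat.mul_le_mul_right _ (Nat.mul_le_mul_left _ (Nat.pow_le_pow_left hu1 _))
            _ ≤ D ^ k := hτ2
            _ ≤ (X * D'') ^ k := Nat.pow_le_pow_left hXD k
            _ = X ^ k * D'' ^ k := mul_pow _ _ _
        exact Nat.le_of_mul_le_mul_left g4 (pow_pos hX0 k)
      · intro w D'' hu1 _ hXD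
        have g1 : X * w ^ 2 ≤ X * (T * D'') := by
          calc X * w ^ 2 ≤ X * u ^ 2 := Nat.mul_le_mul_left _ (Nat.pow_le_pow_left hu1 2)
            _ ≤ T * D := hτ1
            _ ≤ T * (X * D'') := Nat.mul_le_mul_left _ hXD
            _ = X * (T * D'') := by ring
        exact Nat.le_of_mul_le_mul_left g1 hX0

end Pool.Agent.Work.MP_0421d9_ag.LD
end

section
/-!
The relative theorem: the points of `B` impose independent conditions in degree `d - t`, the other
multiplicities are at most `u`, and `t ≥ C u ^ (1 + ε)`, `t d ≥ C u ^ 2 M`.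
-/

namespace Pool.Agent.Work.MP_0421d9_ag.LD

open MvPolynomial Module

theorem rel_level (n : ℕ) : ∃ R₀ G : ℕ, 1 ≤ G ∧ ∀ R, R₀ ≤ R →
    ∀ (r D t u M : ℕ) (m : Fin r → ℕ) (B : Finset (Fin r)), 1 ≤ u → u ≤ M → u ≤ R ^ n →
      (∀ i, m i ≤ M) → (∀ i, i ∉ B → m i ≤ u) → t ≤ D → Rg (D - t) (onB B m) → R * u ≤ t →
      G * u ^ 2 * M ≤ t * D → hPm D m = (D + 2).choose 2 - ∑ i, (m i + 1).choose 2 := by
  obtain ⟨G₁, A₁, hC2⟩ := plane_C2
  obtain ⟨K, hK⟩ : ∃ K, K = n + 3 := ⟨_, rfl⟩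
  obtain ⟨G, hG⟩ : ∃ G, G = 2 ^ (2 * K + 8) + G₁ := ⟨_, rfl⟩
  obtain ⟨X, hX⟩ : ∃ X, X = 1000 * G := ⟨_, rfl⟩
  have hG1 : 1 ≤ G := by
    have : 1 ≤ 2 ^ (2 * K + 8) := Nat.one_le_two_pow
    omega
  have hX1 : 1 ≤ X := by omega
  obtain ⟨R₁, hpar⟩ := zp_params (2 * (n + 1)) (2 * (n + 1)) K G X A₁ le_rfl
  refine ⟨R₁ + X + (2 ^ (2 * K + 3) * df K) * X ^ (2 * K - 1), 32 * G, by omega,
    fun R hR r D t u M m B hu huM huR hM hmu htD hB hRt hgain => ?_⟩
  obtain ⟨s, q, p, J, hW, hq, ha2, hRs, hp, hJ, hR1, hR2, hR4⟩ := hpar R (by omega)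
  have hT1 : 1 ≤ (s + 1) ^ (2 * (n + 1)) := Nat.one_le_pow _ _ (Nat.succ_pos s)
  have hR0 : 1 ≤ R := by omega
  have hRT : R ^ (n + 1) ≤ (s + 1) ^ (2 * (n + 1)) := by
    rw [pow_mul]
    exact Nat.pow_le_pow_left hRs _
  have huT : u ≤ (s + 1) ^ (2 * (n + 1)) :=
    huR.trans ((Nat.pow_le_pow_right hR0 (Nat.le_succ n)).trans hRT)
  have hRD : R * u ≤ D := hRt.trans htD
  refine rel_step (J := J) hC2 hW hT1 hq ha2 (by omega) hp (hG.ge.trans' (Nat.le_add_right _ _))
    (hG.ge.trans' (Nat.le_add_left _ _)) hX.ge ?_ hR2 hR4 ?_ hu huM hM hmu htD hB hRt ?_ ?_ hgain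
  · refine le_trans ?_ hR1
    calc 128 * J ≤ 128 * J * G := Nat.le_mul_of_pos_right _ hG1
      _ ≤ 10 ^ 6 * J * G := by
        apply Nat.mul_le_mul_right
        apply Nat.mul_le_mul_right
        norm_num
  · refine le_trans ?_ hJ
    have h1 : Nat.log 2 (u + 1) ≤ Nat.log 2 ((s + 1) ^ (2 * (n + 1)) + 1) :=
      Nat.log_mono_right (Nat.add_le_add_right huT 1)
    gcongr
  · -- `X u² ≤ T D`
    calc X * u ^ 2 = u * (X * u) := by ring
      _ ≤ (s + 1) ^ (2 * (n + 1)) * D :=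
        Nat.mul_le_mul huT ((Nat.mul_le_mul_right u (by omega)).trans hRD)
  · -- the power
    obtain ⟨k, hk⟩ : ∃ k, 2 * K = k + 1 := ⟨2 * K - 1, by omega⟩
    have hk1 : 2 * K - 1 = k := by omega
    rw [hk1] at hR ⊢
    have h1 : u ≤ R ^ (k - 1) := huR.trans (Nat.pow_le_pow_right hR0 (by omega))
    calc 2 ^ (2 * K + 3) * df K * u ^ (2 * K) * X ^ k
        = ((2 ^ (2 * K + 3) * df K) * X ^ k) * u * u ^ k := by
          rw [hk]
          ring
      _ ≤ R * R ^ (k - 1) * u ^ k := by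
          apply Nat.mul_le_mul_right
          exact Nat.mul_le_mul (by omega) h1
      _ = (R * u) ^ k := by
          rw [mul_pow, ← pow_succ']
          congr 2
          omega
      _ ≤ D ^ k := Nat.pow_le_pow_left hRD k

/-- **The relative theorem.** -/
theorem rel_all {ε : ℝ} (hε : 0 < ε) : ∃ C : ℝ, ∀ (r d t u M : ℕ) (m : Fin r → ℕ)
    (B : Finset (Fin r)), 1 ≤ u → (∀ i, m i ≤ M) → (∀ i, i ∉ B → m i ≤ u) → t ≤ d →
      Rg (d - t) (onB B m) → C * (u : ℝ) ^ (1 + ε) ≤ t → C * (u : ℝ) ^ 2 * M ≤ (t : ℝ) * d →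
      hPm d m = (d + 2).choose 2 - ∑ i, (m i + 1).choose 2 := by
  obtain ⟨n, hn⟩ := exists_nat_ge (1 / ε)
  have hn0 : 0 < n := by
    rcases Nat.eq_zero_or_pos n with h | h
    · rw [h, Nat.cast_zero] at hn
      have : 0 < 1 / ε := by positivity
      linarith
    · exact h
  have hnR : (0 : ℝ) < n := by exact_mod_cast hn0
  obtain ⟨R₀, G, hG, hlev⟩ := rel_level n
  refine ⟨R₀ + G + 2, fun r d t u M m B hu hM hmu htd hB ht hgain => ?_⟩
  have hu1 : (1 : ℝ) ≤ u := by exact_mod_cast hu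
  -- the root
  obtain ⟨z, hz⟩ : ∃ z, z = ⌈(u : ℝ) ^ ((1 : ℝ) / n)⌉₊ := ⟨_, rfl⟩
  have hroot1 : (1 : ℝ) ≤ (u : ℝ) ^ ((1 : ℝ) / n) := Real.one_le_rpow hu1 (by positivity)
  have hz1 : (u : ℝ) ^ ((1 : ℝ) / n) ≤ z := by
    rw [hz]
    exact Nat.le_ceil _
  have hz2 : (z : ℝ) ≤ (u : ℝ) ^ ((1 : ℝ) / n) + 1 := by
    rw [hz]
    exact (Nat.ceil_lt_add_one (by positivity)).le
  have huz : u ≤ z ^ n := by
    have h1 : (u : ℝ) ≤ (z : ℝ) ^ n := by
      calc (u : ℝ) = ((u : ℝ) ^ ((1 : ℝ) / n)) ^ n := by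
            rw [← Real.rpow_natCast, ← Real.rpow_mul (by positivity), one_div,
              inv_mul_cancel₀ hnR.ne', Real.rpow_one]
        _ ≤ (z : ℝ) ^ n := pow_le_pow_left₀ (by positivity) hz1 n
    exact_mod_cast h1
  have huR : u ≤ (R₀ + z) ^ n := huz.trans (Nat.pow_le_pow_left (by omega) n)
  have hRu : (((R₀ + z) * u : ℕ) : ℝ) ≤ t := by
    push_cast
    refine le_trans ?_ ht
    have h3 : (u : ℝ) ^ ((1 : ℝ) / n) ≤ (u : ℝ) ^ ε := by
      apply Real.rpow_le_rpow_of_exponent_le hu1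
      rw [div_le_iff₀ hnR]
      rw [div_le_iff₀ hε] at hn
      linarith
    have h4 : (u : ℝ) ^ (1 + ε) = u * (u : ℝ) ^ ε := by
      rw [Real.rpow_add (by positivity), Real.rpow_one]
    have h5 : (1 : ℝ) ≤ (u : ℝ) ^ ε := hroot1.trans h3
    rw [h4]
    have hG0 : (0 : ℝ) ≤ G := Nat.cast_nonneg G
    have h6 : ((R₀ : ℝ) + z) ≤ (R₀ + G + 2) * (u : ℝ) ^ ε := by
      have h7 : (R₀ : ℝ) ≤ R₀ * (u : ℝ) ^ ε := le_mul_of_one_le_right (by positivity) h5
      nlinarith
    calc ((R₀ : ℝ) + z) * u ≤ ((R₀ + G + 2) * (u : ℝ) ^ ε) * u :=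
          mul_le_mul_of_nonneg_right h6 (by positivity)
      _ = (R₀ + G + 2) * (u * (u : ℝ) ^ ε) := by ring
  have hRu' : (R₀ + z) * u ≤ t := by exact_mod_cast hRu
  have hz0 : 1 ≤ z := by
    by_contra h
    have h1 : z = 0 := by omega
    rw [h1, zero_pow (by omega)] at huz
    omega
  have hGt : G ≤ t := by
    have h1 : (G : ℝ) ≤ t := by
      refine le_trans ?_ ht
      have h2 : (1 : ℝ) ≤ (u : ℝ) ^ (1 + ε) := Real.one_le_rpow hu1 (by positivity)
      have h3 : (0 : ℝ) ≤ R₀ := Nat.cast_nonneg _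
      have h4 : (0 : ℝ) ≤ G := Nat.cast_nonneg _
      nlinarith
    exact_mod_cast h1
  have hgain' : G * u ^ 2 * M ≤ t * d := by
    have h1 : ((G * u ^ 2 * M : ℕ) : ℝ) ≤ ((t * d : ℕ) : ℝ) := by
      push_cast
      refine le_trans ?_ hgain
      have h3 : (0 : ℝ) ≤ R₀ := Nat.cast_nonneg _
      have h4 : (0 : ℝ) ≤ (u : ℝ) ^ 2 * M := by positivity
      nlinarith
    exact_mod_cast h1
  rcases Nat.eq_zero_or_pos M with hM0 | hM0
  · -- all the multiplicities vanish
    refine hlev (R₀ + z) (by omega) r d t 1 1 m B le_rfl le_rfl (by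
        exact Nat.one_le_pow _ _ (by omega)) (fun i => (hM i).trans (by omega))
      (fun i _ => (hM i).trans (by omega)) htd hB ?_ ?_
    · exact le_trans (Nat.mul_le_mul_left _ hu) hRu'
    · calc G * 1 ^ 2 * 1 = G := by ring
        _ ≤ t := hGt
        _ ≤ t * d := Nat.le_mul_of_pos_right _ (by omega)
  · rcases Nat.le_total u M with huM | huM
    · exact hlev (R₀ + z) (by omega) r d t u M m B hu huM huR hM hmu htd hB hRu' hgain'
    · refine hlev (R₀ + z) (by omega) r d t M M m B hM0 le_rfl (huM.trans huR) hM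
        (fun i _ => hM i) htd hB (le_trans (Nat.mul_le_mul_left _ huM) hRu') ?_
      exact le_trans (Nat.mul_le_mul_right _ (Nat.mul_le_mul_left _
        (Nat.pow_le_pow_left huM 2))) hgain'

end Pool.Agent.Work.MP_0421d9_ag.LD
end

section
/-!
Many conditions imposed by the points with `m i ^ (2 + 1 / A) ≤ d (M / d) ^ A`: the other points
impose independent conditions in a smaller degree.
-/

namespace Pool.Agent.Work.MP_0421d9_ag.LD

open MvPolynomial Module

theorem sw_a {c : ℝ} (hc : 1 ≤ c) : 40 * c ≤ (40 * c) ^ 2 ∧ 1600 ≤ (40 * c) ^ 2 := by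
  constructor <;> nlinarith

theorem sw_b {y z : ℝ} (hy : 1600 ≤ y) (hz : z ≤ y) : z ≤ y ^ 2 := by
  nlinarith

theorem sw_c {c y w : ℝ} (hy : (40 * c) ^ 2 ≤ y) (hw : y ≤ w) :
    (32 * c) ^ 2 ≤ w := by
  nlinarith

theorem small_data {A C : ℝ} (hA : 0 < A) : ∃ R : ℝ, ∀ (r d M : ℕ) (m : Fin r → ℕ),
    1 ≤ M → (∀ i, m i ≤ M) → R * M ≤ d → ((d : ℝ) / M) ^ A < M →
    |((d + 2).choose 2 : ℝ) - ∑ i, ((m i + 1).choose 2 : ℝ)| < (M : ℝ) ^ 2 * ((M : ℝ) / d) ^ A →
    (d : ℝ) ^ 2 * ((M : ℝ) / d) ^ A ≤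
      ∑ i, (if (m i : ℝ) ^ (2 + 1 / A) ≤ d * ((M : ℝ) / d) ^ A then ((m i + 1).choose 2 : ℝ)
        else 0) →
    ∃ (u t : ℕ) (B : Finset (Fin r)), 1 ≤ u ∧ (∀ i, i ∉ B → m i ≤ u) ∧ t ≤ d ∧
      Rg (d - t) (onB B m) ∧ C * (u : ℝ) ^ (1 + 1 / (2 * A)) ≤ t ∧
      C * (u : ℝ) ^ (2 + 1 / (2 * A)) * M ≤ (t : ℝ) * d := by
  classical
  obtain ⟨R₁, h1⟩ := all_windows hA
  obtain ⟨C', hC'⟩ : ∃ C' : ℝ, C' = max C 1 := ⟨_, rfl⟩
  have hCC' : C ≤ C' := hC' ▸ le_max_left _ _
  have hC'1 : 1 ≤ C' := hC' ▸ le_max_right _ _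
  have h2A : (1 : ℝ) ≤ 2 ^ A := Real.one_le_rpow (by norm_num) hA.le
  refine ⟨2 * |R₁| + (40 * C') ^ 2 + 8 * 2 ^ A, fun r d M m hM hm hd hx hW hS => ?_⟩
  have hM0 : (1 : ℝ) ≤ M := by exact_mod_cast hM
  have hM0' : (0 : ℝ) < M := by linarith
  have hR1 := abs_nonneg R₁
  have hR1' := le_abs_self R₁
  -- the ratio
  obtain ⟨y, hy⟩ : ∃ y : ℝ, y = (d : ℝ) / M := ⟨_, rfl⟩
  have hdy : (d : ℝ) = M * y := by
    rw [hy, mul_div_cancel₀ _ hM0'.ne']
  rw [← hy] at hx
  have hyR : 2 * |R₁| + (40 * C') ^ 2 + 8 * 2 ^ A ≤ y := by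
    rw [hy, le_div_iff₀ hM0']
    exact hd
  obtain ⟨hC2, hyC⟩ := sw_a hC'1
  have hy0 : 1600 ≤ y := by linarith
  have hy0' : 0 < y := by linarith
  have hd0 : (0 : ℝ) < d := by
    rw [hdy]
    positivity
  have hMd : ((M : ℝ) / d) ^ A = (y ^ A)⁻¹ := by
    rw [← Real.inv_rpow hy0'.le, hy, inv_div]
  obtain ⟨Y, hY⟩ : ∃ Y : ℝ, Y = y ^ A := ⟨_, rfl⟩
  rw [← hY] at hMd hx
  have hY1 : 1 ≤ Y := by
    rw [hY]
    exact Real.one_le_rpow (by linarith) hA.le
  have hY0 : 0 < Y := by linarith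
  rw [hMd] at hW hS
  -- the level
  obtain ⟨w, hw⟩ : ∃ w : ℝ, w = d * Y⁻¹ := ⟨_, rfl⟩
  have hwY : w * Y = d := by
    rw [hw, mul_assoc, inv_mul_cancel₀ hY0.ne', mul_one]
  have hwy : y ≤ w := by
    -- `w = M y / Y ≥ y`
    have h3 : y * Y ≤ w * Y := by
      rw [hwY, hdy, mul_comm (M : ℝ) y]
      exact mul_le_mul_of_nonneg_left hx.le hy0'.le
    exact le_of_mul_le_mul_right h3 hY0
  have hw0 : 0 < w := by linarith
  rw [← hw] at hS
  have hdw : (d : ℝ) ^ 2 * Y⁻¹ = d * w := by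
    rw [hw]
    ring
  rw [hdw] at hS
  have hwd : w ≤ d := by
    rw [← hwY]
    exact le_mul_of_one_le_right hw0.le hY1
  obtain ⟨θ, hθ⟩ : ∃ θ : ℝ, θ = 2 + 1 / A := ⟨_, rfl⟩
  have hθ0 : 0 < θ := by
    rw [hθ]
    positivity
  rw [← hθ] at hS
  obtain ⟨u, hu⟩ : ∃ u : ℕ, u = ⌊w ^ (1 / θ)⌋₊ := ⟨_, rfl⟩
  have hu2 : (u : ℝ) ≤ w ^ (1 / θ) := by
    rw [hu]
    exact Nat.floor_le (by positivity)
  have huw : (u : ℝ) ^ θ ≤ w := by
    calc (u : ℝ) ^ θ ≤ (w ^ (1 / θ)) ^ θ := Real.rpow_le_rpow (Nat.cast_nonneg _) hu2 hθ0.le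
      _ = w := by
        rw [← Real.rpow_mul hw0.le, one_div, inv_mul_cancel₀ hθ0.ne', Real.rpow_one]
  have hmu : ∀ i, (m i : ℝ) ^ θ ≤ w → m i ≤ u := by
    intro i hi
    rw [hu]
    apply Nat.le_floor
    calc (m i : ℝ) = ((m i : ℝ) ^ θ) ^ (1 / θ) := by
          rw [← Real.rpow_mul (Nat.cast_nonneg _), one_div, mul_inv_cancel₀ hθ0.ne',
            Real.rpow_one]
      _ ≤ w ^ (1 / θ) := Real.rpow_le_rpow (by positivity) hi (by positivity)
  have hu1 : 1 ≤ u := by
    by_contra h0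
    have h0' : u = 0 := by omega
    have h3 : ∑ i, (if (m i : ℝ) ^ θ ≤ w then ((m i + 1).choose 2 : ℝ) else 0) = 0 := by
      refine Finset.sum_eq_zero fun i _ => ?_
      split_ifs with h4
      · have h5 := hmu i h4
        have h6 : m i = 0 := by omega
        rw [h6]
        norm_num
      · rfl
    rw [h3] at hS
    have : 0 < (d : ℝ) * w := mul_pos hd0 hw0
    linarith
  have hu1' : (1 : ℝ) ≤ u := by exact_mod_cast hu1
  -- the degree
  obtain ⟨t, ht⟩ : ∃ t : ℕ, t = ⌊w / 16⌋₊ := ⟨_, rfl⟩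
  have ht1 : (t : ℝ) ≤ w / 16 := by
    rw [ht]
    exact Nat.floor_le (by positivity)
  have ht2 : w / 32 ≤ t := by
    have h3 := Nat.lt_floor_add_one (w / 16)
    rw [← ht] at h3
    linarith
  have htd : t ≤ d := by
    have h3 : (t : ℝ) ≤ d := by linarith
    exact_mod_cast h3
  refine ⟨u, t, bigs u m, hu1, fun i hi => ?_, htd, ?_, ?_, ?_⟩
  · rw [mem_bigs] at hi
    omega
  · -- independence
    obtain ⟨N, hN⟩ : ∃ N : ℕ, N = ∑ i, (onB (bigs u m) m i + 1).choose 2 := ⟨_, rfl⟩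
    have h3 : (N : ℝ) + ∑ i, (if (m i : ℝ) ^ θ ≤ w then ((m i + 1).choose 2 : ℝ) else 0) ≤
        ∑ i, ((m i + 1).choose 2 : ℝ) := by
      rw [hN]
      push_cast
      rw [← Finset.sum_add_distrib]
      refine Finset.sum_le_sum fun i _ => ?_
      unfold onB
      by_cases h4 : (m i : ℝ) ^ θ ≤ w
      · have h5 := hmu i h4
        rw [if_neg (by rw [mem_bigs]; omega), if_pos h4]
        simp
      · rw [if_neg h4, add_zero]
        split_ifs
        · exact le_rfl
        · have : (0 : ℝ) ≤ ((m i + 1).choose 2 : ℝ) := Nat.cast_nonneg _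
          simp
    have h4 := abs_lt.mp hW
    have h5 : (M : ℝ) ^ 2 * Y⁻¹ ≤ d * w / 4 := by
      have h6 : (M : ℝ) ^ 2 * (4 : ℝ) ≤ d ^ 2 := by
        rw [hdy]
        have h7 : (M : ℝ) ^ 2 * 4 ≤ (M : ℝ) ^ 2 * y ^ 2 :=
          mul_le_mul_of_nonneg_left (sw_b hy0 (by linarith)) (by positivity)
        rw [mul_pow]
        exact h7
      rw [← hdw]
      have h8 : (0 : ℝ) ≤ Y⁻¹ := inv_nonneg.mpr hY0.le
      have h9 := mul_le_mul_of_nonneg_right h6 h8
      linarith
    -- `χ` of the large points in degree `d`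
    have h6 : (3 / 4) * (d * w) ≤ ((d + 2).choose 2 : ℝ) - N := by
      linarith
    -- in degree `d - t`
    have hcz : ∀ n : ℕ, (2 : ℝ) * ((n + 2).choose 2 : ℕ) = (n + 1) * (n + 2) := by
      intro n
      have h7 := two_choose (n + 1)
      have h8 : n + 1 + 1 = n + 2 := rfl
      rw [h8] at h7
      have h9 : ((2 * (n + 2).choose 2 : ℕ) : ℝ) = (((n + 1) ^ 2 + (n + 1) : ℕ) : ℝ) := by
        rw [h7]
      push_cast at h9
      rw [h9]
      ring
    have hc1 := hcz d
    have hc2 := hcz (d - t)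
    have hdt : ((d - t : ℕ) : ℝ) = d - t := by
      rw [Nat.cast_sub htd]
    rw [hdt] at hc2
    have hd1600 : (1600 : ℝ) ≤ d := by linarith
    have h7 : ((d + 2).choose 2 : ℝ) - ((d - t + 2).choose 2 : ℕ) ≤ d * w / 8 := by
      have h8 : (2 : ℝ) * (((d + 2).choose 2 : ℕ) - ((d - t + 2).choose 2 : ℕ)) =
          t * (2 * d - t + 3) := by
        rw [mul_sub, hc1, hc2]
        ring
      have h9 : (t : ℝ) * (2 * d - t + 3) ≤ w / 16 * (4 * d) := by
        refine mul_le_mul ht1 (by linarith [Nat.cast_nonneg (α := ℝ) t]) (by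
          have : (t : ℝ) ≤ d := by exact_mod_cast htd
          linarith) (by positivity)
      linarith
    have h8 : (5 / 8) * (d * w) ≤ ((d - t + 2).choose 2 : ℕ) - (N : ℝ) := by
      linarith
    have hdt2 : (d : ℝ) / 2 ≤ ((d - t : ℕ) : ℝ) := by
      rw [hdt]
      linarith
    have h9 := h1 r (d - t) M (gpt r) (onB (bigs u m) m) (gpt_generic r) hM (fun i => by
      unfold onB
      split_ifs
      · exact hm i
      · exact Nat.zero_le _) (by
      refine le_trans ?_ hdt2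
      rw [hdy]
      have h10 : R₁ * M ≤ (y / 2) * M := mul_le_mul_of_nonneg_right (by linarith) hM0'.le
      linarith) (Or.inr (Or.inl (by
      -- the window
      have h10 : ((M : ℝ) / ((d - t : ℕ) : ℝ)) ^ A ≤ 2 ^ A * Y⁻¹ := by
        rw [hY, ← Real.inv_rpow hy0'.le, ← Real.mul_rpow (by norm_num) (by positivity)]
        refine Real.rpow_le_rpow (by positivity) ?_ hA.le
        rw [hy, inv_div, div_le_iff₀ (by linarith)]
        calc (M : ℝ) = 2 * (M / d) * (d / 2) := by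
              field_simp
          _ ≤ 2 * (M / d) * ((d - t : ℕ) : ℝ) :=
              mul_le_mul_of_nonneg_left hdt2 (by positivity)
      have h11 : (M : ℝ) ^ 2 * ((M : ℝ) / ((d - t : ℕ) : ℝ)) ^ A ≤ (5 / 8) * (d * w) := by
        have h12 : (M : ℝ) ^ 2 * ((M : ℝ) / ((d - t : ℕ) : ℝ)) ^ A ≤
            (M : ℝ) ^ 2 * (2 ^ A * Y⁻¹) := mul_le_mul_of_nonneg_left h10 (by positivity)
        have h13 : (M : ℝ) ^ 2 * (8 * 2 ^ A) ≤ d ^ 2 := by
          rw [hdy]
          have h14 : (M : ℝ) ^ 2 * (8 * 2 ^ A) ≤ (M : ℝ) ^ 2 * y ^ 2 := by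
            exact mul_le_mul_of_nonneg_left (sw_b hy0 (by linarith)) (by positivity)
          rw [mul_pow]
          exact h14
        have h15 : (0 : ℝ) ≤ Y⁻¹ := inv_nonneg.mpr hY0.le
        have h16 := mul_le_mul_of_nonneg_right h13 h15
        rw [hdw] at h16
        have h17 : (0 : ℝ) < d * w := mul_pos hd0 hw0
        have h18 : (M : ℝ) ^ 2 * (8 * 2 ^ A) * Y⁻¹ = 8 * ((M : ℝ) ^ 2 * (2 ^ A * Y⁻¹)) := by
          ring
        rw [h18] at h16
        linarith
      refine h11.trans (h8.trans ?_)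
      have h12 : (∑ i, ((onB (bigs u m) m i + 1).choose 2 : ℝ)) = N := by
        rw [hN]
        push_cast
        rfl
      rw [h12]
      exact le_abs_self _)))
    have h10 : N ≤ (d - t + 2).choose 2 := by
      have h11 : (N : ℝ) ≤ ((d - t + 2).choose 2 : ℕ) := by
        have : (0 : ℝ) < d * w := mul_pos hd0 hw0
        linarith
      exact_mod_cast h11
    unfold Rg hPm
    rw [← hN] at h9 ⊢
    rw [h9]
    omega
  · -- `t ≥ C u ^ (1 + ε)`
    have h3 : (u : ℝ) ^ (1 + 1 / (2 * A)) * (u : ℝ) ^ (1 + 1 / (2 * A)) = (u : ℝ) ^ θ := by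
      rw [← Real.rpow_add (by linarith), hθ]
      congr 1
      field_simp
      ring
    obtain ⟨x, hx'⟩ : ∃ x : ℝ, x = (u : ℝ) ^ (1 + 1 / (2 * A)) := ⟨_, rfl⟩
    rw [← hx'] at h3 ⊢
    have hx0 : 0 ≤ x := by
      rw [hx']
      positivity
    have h4 : (32 * C' * x) ^ 2 ≤ w ^ 2 := by
      have h5 : (32 * C') ^ 2 ≤ w := sw_c (by linarith) hwy
      calc (32 * C' * x) ^ 2 = (32 * C') ^ 2 * (x * x) := by ring
        _ ≤ w * w := mul_le_mul h5 (h3.le.trans huw) (by positivity) hw0.le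
        _ = w ^ 2 := by ring
    have h5 : 32 * C' * x ≤ w := by
      have := abs_le_of_sq_le_sq' h4 hw0.le
      exact this.2
    have h6 : C * x ≤ C' * x := mul_le_mul_of_nonneg_right hCC' hx0
    linarith
  · -- the gain
    have h3 : (u : ℝ) ^ (2 + 1 / (2 * A)) ≤ w := by
      refine le_trans ?_ huw
      apply Real.rpow_le_rpow_of_exponent_le hu1'
      rw [hθ]
      have h4 : 1 / (2 * A) ≤ 1 / A := by
        apply one_div_le_one_div_of_le hA
        linarith
      linarith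
    have h4 : 32 * C' * M ≤ d := by
      rw [hdy, mul_comm (M : ℝ) y]
      exact mul_le_mul_of_nonneg_right (by linarith) hM0'.le
    have h5 : C * (u : ℝ) ^ (2 + 1 / (2 * A)) * M ≤ C' * w * M := by
      refine mul_le_mul_of_nonneg_right ?_ hM0'.le
      exact mul_le_mul hCC' h3 (by positivity) (by linarith)
    calc C * (u : ℝ) ^ (2 + 1 / (2 * A)) * M ≤ C' * w * M := h5
      _ = (w / 32) * (32 * C' * M) := by ring
      _ ≤ t * d := mul_le_mul ht2 h4 (by positivity) (Nat.cast_nonneg t)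

end Pool.Agent.Work.MP_0421d9_ag.LD
end

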