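import Pool.Agent.Work.Z0421M.C57

section
/-!
Any set of points which impose independent conditions in a smaller degree: general members are
smooth, from nonspeciality.
-/

set_option linter.unusedSectionVars false

namespace Pool.Agent.Work.MP_0421d9_ag.ZE

open MvPolynomial Module SM ZC LD

/-- the numerical part -/
theorem zr_num {e t : ℕ} : (t + 1) * (e + t + 1) + 2 * (e + 2).choose 2 ≤
    2 * (e + (t + 1) + 1).choose 2 + (e + t + 1) := by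
  have e1 := zd_two (e + 1)
  have e2 := zd_two (e + (t + 1))
  have e3 : (e + 1 + 1).choose 2 = (e + 2).choose 2 := rfl
  rw [e3] at e1
  have e4 : (e + (t + 1)) ^ 2 = (e + 1) ^ 2 + 2 * (e * t) + t ^ 2 + 2 * t := by ring
  have e5 : (t + 1) * (e + t + 1) = e * t + t ^ 2 + 2 * t + e + 1 := by ring
  have e6 : (e + 1) ^ 2 = e ^ 2 + 2 * e + 1 := by ring
  have e7 : 0 ≤ e * t := Nat.zero_le _
  nlinarith

theorem zr_a {a b q : ℝ} (h : 1000 * b ≤ q + 1) (hb : 1 ≤ b) (hab : a ≤ b) : a ≤ q := by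
  linarith

theorem zr_b {a b q e : ℝ} (h : 1000 * b ≤ (q + 1) * (e + 1)) (hab : a ≤ b)
    (hq : 999 ≤ q) (he : 999 ≤ e) : a ≤ q * e := by
  have h1 : (q + 1) * (e + 1) ≤ 4 * (q * e) := by nlinarith
  have h2 : 0 ≤ q * e := by nlinarith
  rcases le_total 0 b with hb | hb
  · linarith
  · linarith

theorem zr_c {q e : ℝ} (hq : 0 ≤ q) (he : 0 ≤ e) : q * e ≤ (q + 1) * (e + 1) := by
  nlinarith

theorem zr_d {a b N q e X : ℝ} (h1 : a ≤ b) (h2 : 1000 * b ≤ (q + 1) * (e + 1))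
    (h3 : 2 * (N + 1) + (q + 1) * (e + 1) ≤ 2 * X + 2 * (e + 1))
    (h4 : 1000 * (e + 1) ≤ (q + 1) * (e + 1)) (h5 : 0 ≤ b) : a + N + 1 ≤ X := by
  linarith

/-- **From nonspeciality to smoothness**, relative to any set of points which impose independent
conditions in a smaller degree -/
theorem rel_not_bad_of (hrel : ∀ ε : ℝ, 0 < ε → ∃ C : ℝ, ∀ (r d t u M : ℕ) (m : Fin r → ℕ)
      (B : Finset (Fin r)), 1 ≤ u → (∀ i, m i ≤ M) → (∀ i, i ∉ B → m i ≤ u) → t ≤ d →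
      Rg (d - t) (onB B m) → C * (u : ℝ) ^ (1 + ε) ≤ t → C * (u : ℝ) ^ 2 * M ≤ (t : ℝ) * d →
      hPm d m = (d + 2).choose 2 - ∑ i, (m i + 1).choose 2)
    {ε : ℝ} (hε : 0 < ε) : ∃ c : ℝ, 0 < c ∧ ∀ (r d t u M : ℕ) (p : Fin r → V3) (m : Fin r → ℕ)
    (B : Finset (Fin r)), GenericPoints p → 1 ≤ u → (∀ i, m i ≤ M) → (∀ i, i ∉ B → m i ≤ u) →
    t ≤ d → Rg (d - t) (onB B m) → c * (u : ℝ) ^ (1 + ε) ≤ t →
    c * (u : ℝ) ^ (2 + ε) * M ≤ (t : ℝ) * d →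
    ∀ s : Fin (finrank ℂ (linSys d p m) - 1) → Fin 3 → ℂ, GenericPoints (Sum.elim p s) →
      ∀ F ∈ linSys d p m, F ≠ 0 → (∀ k, eval (s k) F = 0) → ¬ Bad d p m F := by
  obtain ⟨η, hη⟩ : ∃ η : ℝ, η = min ε 1 / 4 := ⟨_, rfl⟩
  have hη0 : 0 < η := by
    rw [hη]
    have : 0 < min ε 1 := lt_min hε one_pos
    linarith
  have hη1 : η ≤ 1 / 4 := by
    rw [hη]
    have := min_le_right ε 1
    linarith
  have hη2 : 4 * η ≤ ε := by
    rw [hη]
    have := min_le_left ε 1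
    linarith
  obtain ⟨C, hC⟩ := hrel η hη0
  obtain ⟨c₁, hc₁, h⟩ := general_not_badG hη0
  obtain ⟨K, hK⟩ : ∃ K : ℝ, K = c₁ + 1 := ⟨_, rfl⟩
  obtain ⟨C', hC'⟩ : ∃ C' : ℝ, C' = max C 1 := ⟨_, rfl⟩
  have hCC' : C ≤ C' := hC' ▸ le_max_left _ _
  have hC'1 : 1 ≤ C' := hC' ▸ le_max_right _ _
  have hK1 : 1 ≤ K := by linarith
  have hK2 : K ^ 2 ≤ K ^ 3 := pow_le_pow_right₀ hK1 (by norm_num)
  have hK3 : K ≤ K ^ 3 := le_self_pow₀ hK1 (by norm_num)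
  have hKc : 1 ≤ C' * K ^ 3 := by nlinarith [one_le_pow₀ hK1 (n := 3)]
  refine ⟨1000 * (C' * K ^ 3), by linarith,
    fun r d t u M p m B hp hu hM hm htd hR ht hd => ?_⟩
  -- reduction to the case `1 ≤ u ≤ M`
  obtain ⟨M', hM'⟩ : ∃ M', M' = max M 1 := ⟨_, rfl⟩
  obtain ⟨v, hv⟩ : ∃ v, v = min u M' := ⟨_, rfl⟩
  have hM'1 : 1 ≤ M' := hM' ▸ le_max_right _ _
  have hMM' : M ≤ M' := hM' ▸ le_max_left _ _
  have hv1 : 1 ≤ v := hv ▸ le_min hu hM'1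
  have hvu : v ≤ u := hv ▸ min_le_left _ _
  have hvM : v ≤ M' := hv ▸ min_le_right _ _
  have hmv : ∀ i, i ∉ B → m i ≤ v := fun i hi => hv ▸ le_min (hm i hi) ((hM i).trans hMM')
  have hmM : ∀ i, m i ≤ M' := fun i => (hM i).trans hMM'
  have hv1' : (1 : ℝ) ≤ v := by exact_mod_cast hv1
  have hv0 : (0 : ℝ) < v := by linarith
  have hvu' : (v : ℝ) ≤ u := by exact_mod_cast hvu
  have hvM' : (v : ℝ) ≤ M' := by exact_mod_cast hvM
  have hM'0 : (1 : ℝ) ≤ M' := by exact_mod_cast hM'1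
  have hx1 : (1 : ℝ) ≤ (v : ℝ) ^ (1 + ε) := Real.one_le_rpow hv1' (by positivity)
  have ht' : 1000 * (C' * K ^ 3) * (v : ℝ) ^ (1 + ε) ≤ t := by
    refine le_trans ?_ ht
    refine mul_le_mul_of_nonneg_left ?_ (by linarith)
    exact Real.rpow_le_rpow hv0.le hvu' (by linarith)
  have htpos : (1000 : ℝ) ≤ t := by nlinarith
  have ht1000 : 1000 ≤ t := by exact_mod_cast htpos
  have htd' : (t : ℝ) ≤ d := by exact_mod_cast htd
  have hd' : 1000 * (C' * K ^ 3) * (v : ℝ) ^ (2 + ε) * M' ≤ (t : ℝ) * d := by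
    rcases Nat.eq_zero_or_pos M with h0 | h0
    · have h1 : M' = 1 := by rw [hM', h0]; rfl
      have h2 : v = 1 := by omega
      rw [h1, h2, Nat.cast_one, Real.one_rpow, mul_one, mul_one]
      have h3 : 1000 * (C' * K ^ 3) ≤ t := by
        rw [h2, Nat.cast_one, Real.one_rpow, mul_one] at ht'
        exact ht'
      calc 1000 * (C' * K ^ 3) ≤ (t : ℝ) * 1 := by rw [mul_one]; exact h3
        _ ≤ t * d := mul_le_mul_of_nonneg_left (by linarith) (by linarith)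
    · have h1 : M' = M := by rw [hM', max_eq_left h0]
      rw [h1]
      refine le_trans ?_ hd
      refine mul_le_mul_of_nonneg_right ?_ (Nat.cast_nonneg M)
      refine mul_le_mul_of_nonneg_left ?_ (by linarith)
      exact Real.rpow_le_rpow hv0.le hvu' (by linarith)
  -- the size of the clusters
  obtain ⟨τ, hτ⟩ : ∃ τ : ℕ, τ = ⌈c₁ * (v : ℝ) ^ (1 + η)⌉₊ := ⟨_, rfl⟩
  obtain ⟨x, hx⟩ : ∃ x : ℝ, x = (v : ℝ) ^ (1 + η) := ⟨_, rfl⟩
  rw [← hx] at hτ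
  have hx1' : 1 ≤ x := by
    rw [hx]
    exact Real.one_le_rpow hv1' (by positivity)
  have hτ1 : c₁ * x ≤ τ := by
    rw [hτ]
    exact Nat.le_ceil _
  have hτ2 : (τ : ℝ) ≤ K * x := by
    rw [hτ]
    have h1 := (Nat.ceil_lt_add_one (show 0 ≤ c₁ * x by positivity)).le
    rw [hK]
    linarith
  have hτ0 : 1 ≤ τ := by
    have h1 : (0 : ℝ) < τ := lt_of_lt_of_le (by positivity) hτ1
    have h2 : 0 < τ := by exact_mod_cast h1
    exact h2
  have hτ0' : (1 : ℝ) ≤ τ := by exact_mod_cast hτ0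
  -- powers of the size
  have hxx : x * x ≤ (v : ℝ) ^ (2 + ε) := by
    rw [hx, ← Real.rpow_add hv0]
    exact Real.rpow_le_rpow_of_exponent_le hv1' (by linarith)
  have hxxx : x * x * x ≤ (v : ℝ) ^ (2 + ε) * M' := by
    have h1 : x * x * x ≤ (v : ℝ) ^ (2 + ε) * v := by
      rw [hx, ← Real.rpow_add hv0, ← Real.rpow_add hv0]
      have h2 : (v : ℝ) ^ (2 + ε) * v = (v : ℝ) ^ (2 + ε + 1) := by
        rw [Real.rpow_add hv0 (2 + ε) 1, Real.rpow_one]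
      rw [h2]
      exact Real.rpow_le_rpow_of_exponent_le hv1' (by linarith)
    exact h1.trans (mul_le_mul_of_nonneg_left hvM' (by positivity))
  have hp1 : (τ : ℝ) ^ (1 + η) ≤ K ^ 3 * (v : ℝ) ^ (1 + ε) := by
    calc (τ : ℝ) ^ (1 + η) ≤ (K * x) ^ (1 + η) :=
          Real.rpow_le_rpow (by linarith) hτ2 (by linarith)
      _ = K ^ (1 + η) * x ^ (1 + η) := Real.mul_rpow (by linarith) (by linarith)
      _ ≤ K ^ 3 * (v : ℝ) ^ (1 + ε) := by
          refine mul_le_mul ?_ ?_ (by positivity) (by positivity)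
          · rw [← Real.rpow_natCast]
            exact Real.rpow_le_rpow_of_exponent_le hK1 (by push_cast; linarith)
          · rw [hx, ← Real.rpow_mul hv0.le]
            refine Real.rpow_le_rpow_of_exponent_le hv1' ?_
            nlinarith
  have hp2 : (τ : ℝ) ^ 2 * M' ≤ K ^ 3 * ((v : ℝ) ^ (2 + ε) * M') := by
    have h1 : (τ : ℝ) ^ 2 ≤ K ^ 2 * (x * x) := by
      calc (τ : ℝ) ^ 2 ≤ (K * x) ^ 2 := pow_le_pow_left₀ (by linarith) hτ2 2
        _ = K ^ 2 * (x * x) := by ring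
    have h2 : K ^ 2 * (x * x) ≤ K ^ 3 * (v : ℝ) ^ (2 + ε) :=
      mul_le_mul hK2 hxx (by positivity) (by positivity)
    calc (τ : ℝ) ^ 2 * M' ≤ (K ^ 3 * (v : ℝ) ^ (2 + ε)) * M' :=
          mul_le_mul_of_nonneg_right (h1.trans h2) (by linarith)
      _ = K ^ 3 * ((v : ℝ) ^ (2 + ε) * M') := by ring
  have hp3 : (τ : ℝ) ^ 2 * τ ≤ K ^ 3 * ((v : ℝ) ^ (2 + ε) * M') := by
    calc (τ : ℝ) ^ 2 * τ = (τ : ℝ) ^ 3 := by ring
      _ ≤ (K * x) ^ 3 := pow_le_pow_left₀ (by linarith) hτ2 3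
      _ = K ^ 3 * (x * x * x) := by ring
      _ ≤ K ^ 3 * ((v : ℝ) ^ (2 + ε) * M') := mul_le_mul_of_nonneg_left hxxx (by positivity)
  obtain ⟨Q, hQ⟩ : ∃ Q, Q = max M' τ := ⟨_, rfl⟩
  have hMQ : M' ≤ Q := hQ ▸ le_max_left _ _
  have hτQ : τ ≤ Q := hQ ▸ le_max_right _ _
  have hp4 : (τ : ℝ) ^ 2 * Q ≤ K ^ 3 * ((v : ℝ) ^ (2 + ε) * M') := by
    rcases le_total M' τ with h1 | h1
    · rw [hQ, max_eq_right h1]
      exact hp3
    · rw [hQ, max_eq_left h1]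
      exact hp2
  have hz1 : (1 : ℝ) ≤ (v : ℝ) ^ (2 + ε) * M' := by
    have h1 : (1 : ℝ) ≤ (v : ℝ) ^ (2 + ε) := Real.one_le_rpow hv1' (by positivity)
    nlinarith
  -- the consequences
  have ha1 : 1000 * (C' * (τ : ℝ) ^ (1 + η)) ≤ t := by
    refine le_trans ?_ ht'
    have h1 := mul_le_mul_of_nonneg_left hp1 (show 0 ≤ 1000 * C' by linarith)
    calc 1000 * (C' * (τ : ℝ) ^ (1 + η)) = 1000 * C' * (τ : ℝ) ^ (1 + η) := by ring
      _ ≤ 1000 * C' * (K ^ 3 * (v : ℝ) ^ (1 + ε)) := h1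
      _ = 1000 * (C' * K ^ 3) * (v : ℝ) ^ (1 + ε) := by ring
  have ha2 : 1000 * (C' * ((τ : ℝ) ^ 2 * Q)) ≤ (t : ℝ) * d := by
    refine le_trans ?_ hd'
    have h1 := mul_le_mul_of_nonneg_left hp4 (show 0 ≤ 1000 * C' by linarith)
    calc 1000 * (C' * ((τ : ℝ) ^ 2 * Q)) = 1000 * C' * ((τ : ℝ) ^ 2 * Q) := by ring
      _ ≤ 1000 * C' * (K ^ 3 * ((v : ℝ) ^ (2 + ε) * M')) := h1
      _ = 1000 * (C' * K ^ 3) * (v : ℝ) ^ (2 + ε) * M' := by ring
  have hy0 : (0 : ℝ) ≤ (τ : ℝ) ^ (1 + η) := Real.rpow_nonneg (by linarith) _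
  have hQ1 : (1 : ℝ) ≤ Q := by
    have : 1 ≤ Q := hM'1.trans hMQ
    exact_mod_cast this
  have hτQ0 : (0 : ℝ) ≤ (τ : ℝ) ^ 2 * Q := by positivity
  have hτt : 1000 * τ ≤ t := by
    have h1 : (τ : ℝ) ≤ (τ : ℝ) ^ (1 + η) := by
      have h2 : (τ : ℝ) ^ (1 : ℝ) ≤ (τ : ℝ) ^ (1 + η) :=
        Real.rpow_le_rpow_of_exponent_le hτ0' (by linarith)
      rwa [Real.rpow_one] at h2
    have h2 : (τ : ℝ) ^ (1 + η) ≤ C' * (τ : ℝ) ^ (1 + η) := le_mul_of_one_le_left hy0 hC'1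
    have h3 : (1000 * τ : ℝ) ≤ t := by linarith
    exact_mod_cast h3
  have hτd : 1000 * τ ^ 2 ≤ t * d := by
    have h1 : (τ : ℝ) ^ 2 ≤ (τ : ℝ) ^ 2 * Q := le_mul_of_one_le_right (by positivity) hQ1
    have h2 : (τ : ℝ) ^ 2 * Q ≤ C' * ((τ : ℝ) ^ 2 * Q) := le_mul_of_one_le_left hτQ0 hC'1
    have h3 : (1000 * τ ^ 2 : ℝ) ≤ t * d := by linarith
    exact_mod_cast h3
  obtain ⟨q, rfl⟩ : ∃ q, t = q + 1 := ⟨t - 1, by omega⟩
  obtain ⟨e, rfl⟩ : ∃ e, d = e + 1 := ⟨d - 1, by omega⟩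
  have hq999 : (999 : ℝ) ≤ q := by
    have h1 : 999 ≤ q := by omega
    exact_mod_cast h1
  have he999 : (999 : ℝ) ≤ e := by
    have h1 : 999 ≤ e := by omega
    exact_mod_cast h1
  have hcq : ((q + 1 : ℕ) : ℝ) = (q : ℝ) + 1 := Nat.cast_succ q
  have hce : ((e + 1 : ℕ) : ℝ) = (e : ℝ) + 1 := Nat.cast_succ e
  rw [hcq] at ha1
  rw [hcq, hce] at ha2
  have hb1 : C * (τ : ℝ) ^ (1 + η) ≤ q := by
    refine zr_a ha1 ?_ (mul_le_mul_of_nonneg_right hCC' hy0)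
    exact one_le_mul_of_one_le_of_one_le hC'1 (Real.one_le_rpow hτ0' (by linarith))
  have hb2 : C * (τ : ℝ) ^ 2 * Q ≤ (q : ℝ) * e := by
    refine zr_b ha2 ?_ hq999 he999
    rw [mul_assoc]
    exact mul_le_mul_of_nonneg_right hCC' hτQ0
  have hb1' : C * (τ : ℝ) ^ (1 + η) ≤ ((q + 1 : ℕ) : ℝ) := by
    rw [hcq]
    exact hb1.trans (le_add_of_nonneg_right zero_le_one)
  have hb2' : C * (τ : ℝ) ^ 2 * Q ≤ ((q + 1 : ℕ) : ℝ) * ((e + 1 : ℕ) : ℝ) := by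
    rw [hcq, hce]
    exact hb2.trans (zr_c (Nat.cast_nonneg q) (Nat.cast_nonneg e))
  -- the number of the conditions imposed by the points in `B`
  obtain ⟨N', hN'⟩ : ∃ N', N' = ∑ i ∈ B, (m i + 1).choose 2 := ⟨_, rfl⟩
  obtain ⟨f, hf⟩ : ∃ f, e + 1 = f + (q + 1) := ⟨e + 1 - (q + 1), by omega⟩
  have hef : e + 1 - (q + 1) = f := by omega
  have hef' : e - q = f := by omega
  have hN1 : N' ≤ (f + 2).choose 2 := by
    have h3 := hR
    rw [hef] at h3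
    unfold Rg at h3
    rw [sum_onB, ← hN'] at h3
    omega
  have hcount : N' + 202 * τ ^ 2 + 2 ≤ (e + 2).choose 2 := by
    have h1 := zr_num (e := f) (t := q)
    have h2 : f + (q + 1) + 1 = e + 2 := by omega
    have h3 : f + q + 1 = e + 1 := by omega
    rw [h2, h3] at h1
    have h4 : 1000 * (e + 1) ≤ (q + 1) * (e + 1) := Nat.mul_le_mul_right _ (by omega)
    omega
  have e3 : (e + 1 + 2).choose 2 = (e + 2).choose 2 + (e + 2) := by
    rw [show e + 1 + 2 = e + 2 + 1 by ring, Nat.choose_succ_succ' (e + 2) 1,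
      Nat.choose_one_right, add_comm]
  have hoff : ∀ {κ : Type} [Fintype κ] [DecidableEq κ] (y : κ → ℕ) (j : {i // i ∈ B} ↪ κ),
      (∀ i, y (j i) = m i.1) → (∀ k, (∀ i, j i ≠ k) → y k ≤ τ) →
      (∀ k, fn y k ≤ Q) ∧ ∀ k, k ∉ Finset.univ.filter (fun k => ∃ i : {i // i ∈ B}, i.1 ∈ B ∧
        j i = (Fintype.equivFin κ).symm k) → fn y k ≤ τ := by
    intro κ _ _ y j hy hyt
    refine ⟨fun k => ?_, fun k hk => ?_⟩
    · unfold fn
      by_cases hk : ∃ i, j i = (Fintype.equivFin κ).symm k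
      · obtain ⟨i, hi⟩ := hk
        rw [← hi, hy]
        exact (hmM _).trans hMQ
      · push Not at hk
        exact (hyt _ hk).trans hτQ
    · unfold fn
      refine hyt _ (fun i hi => hk ?_)
      rw [Finset.mem_filter]
      exact ⟨Finset.mem_univ _, i, i.2, hi⟩
  refine h r (e + 1) v τ p m B hp hv1 hmv (by rw [← hx]; exact hτ1) ?_ ?_ (fun i hi => ?_)
    (by omega) ?_
  · intro κ _ _ y j hy hyt z hz
    obtain ⟨h1, h2⟩ := hoff y j hy hyt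
    have h3 := hC (Fintype.card κ) (e + 1) (q + 1) τ Q (fn y) _ hτ0 h1 h2 htd
      (rg_onB_emb (Finset.Subset.refl B) j hy hR) hb1' hb2'
    rw [finrank_eq_hPm hz, h3, sum_fn y (fun n => (n + 1).choose 2)]
  · intro κ _ _ y j hy hyt hS
    obtain ⟨h1, h2⟩ := hoff y j hy hyt
    have hR' : Rg (e - q) (onB B m) := by
      rw [hef'] 
      rw [hef] at hR
      exact hR
    have h3 := hC (Fintype.card κ) e q τ Q (fn y) _ hτ0 h1 h2 (by omega)
      (rg_onB_emb (Finset.Subset.refl B) j hy hR') hb1 hb2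
    have h0 := sum_le_of_few j hy hyt hS
    apply free_of_Reg
    refine reg_of_ns h3 ?_
    rw [← hN'] at h0
    have e1 := zd_two τ
    have e4 : τ ≤ τ ^ 2 := Nat.le_self_pow (by norm_num) τ
    omega
  · have h1 := hR.le i
    rw [hef] at h1
    unfold onB at h1
    rw [if_pos hi] at h1
    omega
  · have h1 : c₁ * (v : ℝ) ^ (2 + η) ≤ (τ : ℝ) ^ 2 * Q := by
      have h2 : (v : ℝ) ^ (2 + η) = (v : ℝ) ^ (1 + η) * v := by
        rw [show (2 : ℝ) + η = (1 + η) + 1 by ring, Real.rpow_add hv0, Real.rpow_one]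
      rw [h2, ← mul_assoc, ← hx]
      have h3 : (v : ℝ) ≤ Q := hvM'.trans (by exact_mod_cast hMQ)
      calc c₁ * x * v ≤ τ * Q := mul_le_mul hτ1 h3 hv0.le (by linarith)
        _ ≤ (τ : ℝ) ^ 2 * Q := by
            refine mul_le_mul_of_nonneg_right ?_ (by linarith)
            exact le_self_pow₀ hτ0' (by norm_num)
    have h2 : (τ : ℝ) ^ 2 * Q ≤ C' * ((τ : ℝ) ^ 2 * Q) := le_mul_of_one_le_left hτQ0 hC'1
    have h4 : 2 * (N' + 1) + (q + 1) * (e + 1) ≤ 2 * (e + 1 + 2).choose 2 + 2 * (e + 1) := by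
      have h1 := zr_num (e := f) (t := q)
      have h2 : f + (q + 1) + 1 = e + 2 := by omega
      have h3 : f + q + 1 = e + 1 := by omega
      rw [h2, h3] at h1
      omega
    have h5 : 1000 * (e + 1) ≤ (q + 1) * (e + 1) := Nat.mul_le_mul_right _ (by omega)
    have h4' : (2 * ((N' : ℝ) + 1) + (q + 1) * (e + 1)) ≤
        2 * ((e + 1 + 2).choose 2 : ℕ) + 2 * (e + 1) := by exact_mod_cast h4
    have h5' : (1000 : ℝ) * (e + 1) ≤ (q + 1) * (e + 1) := by exact_mod_cast h5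
    have h6 : ∑ i ∈ B, ((m i + 1).choose 2 : ℝ) = N' := by
      rw [hN']
      push_cast
      rfl
    rw [h6]
    exact zr_d (h1.trans h2) ha2 h4' h5' (by positivity)

end Pool.Agent.Work.MP_0421d9_ag.ZE
end

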