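import Pool.Agent.Work.Z0421M.C40
import Pool.Agent.Work.Z0421M.C44
import Pool.Agent.Work.Z0421M.C46
import Pool.Agent.Work.Z0421M.C55
import Pool.Agent.Work.Z0421M.C58
import Pool.Agent.Work.Z0421M.C59

section
/-!
One arbitrary multiplicity: general members of the systems are smooth.
-/

set_option linter.unusedSectionVars false

namespace Pool.Agent.Work.MP_0421d9_ag.ZE

open MvPolynomial Module SM

/-- rigid systems, one multiplicity arbitrary -/
theorem rigid_not_badA (A : ℝ) : ∃ R : ℝ, ∀ (d M : ℕ) (ι : Type) [Fintype ι]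
    [DecidableEq ι] (p : ι → V3) (m : ι → ℕ) (i₀ : ι), GenericPoints p → 1 ≤ M →
    (∀ i, i ≠ i₀ → m i ≤ M) → R * M ≤ (d : ℝ) - m i₀ → (M : ℝ) ≤ (((d : ℝ) - m i₀) / M) ^ A →
    ∑ i, (m i + 1).choose 2 + 1 = (d + 2).choose 2 →
    ∀ F ∈ linSys d p m, F ≠ 0 → ¬ Bad d p m F := by
  obtain ⟨R, hR⟩ := exists_datA A
  refine ⟨R, fun d M ι _ _ p m i₀ hp hM hm hd hMx hχ F hF hF0 => ?_⟩
  classical
  obtain ⟨M', C, μ, w, e, h₀, he, hD⟩ := hR d M ι m i₀ hM hm hd hMx hχ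
  have hme : ∀ z, m (e z) = Sum.elim (fun i : {i : ι // ∀ l, i ∉ C l} => m i.1)
      (fun x : Σ l, Fin (C l).card => m ((C x.1).equivFin.symm x.2).1) z := by
    rintro (i | x)
    · rw [he]
      rfl
    · rw [he]
      rfl
  have hpe : GenericPoints (fun z => p (e z)) := by
    have h2 := AlgebraicIndependent.comp hp
      (fun z : ({i : ι // ∀ l, i ∉ C l} ⊕ (Σ l, Fin (C l).card)) × Fin 3 => (e z.1, z.2))
      (fun z z' h => by
        have h7 := congrArg Prod.fst h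
        have h8 := congrArg Prod.snd h
        exact Prod.ext (e.injective h7) h8)
    exact h2
  have h1 := hD.dat.not_bad hpe (F := F) ⟨hF.1, fun z => by
    rw [← hme]
    exact hF.2 (e z)⟩ hF0
  intro hb
  apply h1
  have h2 := (bad_equiv (d := d) (p := p) (m := m) (F := F) e).mpr hb
  have h3 : (fun z => m (e z)) = Sum.elim (fun i : {i : ι // ∀ l, i ∉ C l} => m i.1)
      (fun x : Σ l, Fin (C l).card => m ((C x.1).equivFin.symm x.2).1) := funext hme
  rw [h3] at h2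
  exact h2

/-- nonspeciality, one multiplicity arbitrary -/
theorem one_large {A : ℝ} (hA : 0 < A) : ∃ R : ℝ, ∀ (r d M : ℕ) (p : Fin r → V3)
    (m : Fin r → ℕ) (i₀ : Fin r), GenericPoints p → 1 ≤ M → (∀ i, i ≠ i₀ → m i ≤ M) →
    R * M ≤ (d : ℝ) - m i₀ → (M : ℝ) ≤ (((d : ℝ) - m i₀) / M) ^ A →
    finrank ℂ (linSys d p m) = (d + 2).choose 2 - ∑ i, (m i + 1).choose 2 := by
  obtain ⟨C, hC⟩ := LD.all_but_one (ε := 1 / (2 * A)) (by positivity)
  refine ⟨C ^ 2 + 1, fun r d M p m i₀ hp hM hm hd hMd => hC r d M p m i₀ hp hm ?_⟩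
  have hM0 : (0 : ℝ) < M := by exact_mod_cast hM
  obtain ⟨y, hy⟩ : ∃ y : ℝ, y = ((d : ℝ) - m i₀) / M := ⟨_, rfl⟩
  have hdy : (d : ℝ) - m i₀ = M * y := by
    rw [hy, mul_div_cancel₀ _ hM0.ne']
  rw [← hy] at hMd
  have hy1 : C ^ 2 + 1 ≤ y := by
    rw [hy, le_div_iff₀ hM0]
    exact hd
  have hy0 : 0 < y := by nlinarith [sq_nonneg C]
  have h1 : (M : ℝ) ^ (1 / (2 * A)) ≤ y ^ (1 / 2 : ℝ) := by
    calc (M : ℝ) ^ (1 / (2 * A)) ≤ (y ^ A) ^ (1 / (2 * A)) :=
          Real.rpow_le_rpow hM0.le hMd (by positivity)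
      _ = y ^ (1 / 2 : ℝ) := by
          rw [← Real.rpow_mul hy0.le]
          congr 1
          field_simp
  have h2 : C ≤ y ^ (1 / 2 : ℝ) := by
    rw [← Real.sqrt_eq_rpow]
    exact Real.le_sqrt_of_sq_le (by linarith)
  have h3 : y ^ (1 / 2 : ℝ) * y ^ (1 / 2 : ℝ) = y := by
    rw [← Real.rpow_add hy0]
    norm_num
  have h4 : 0 ≤ y ^ (1 / 2 : ℝ) := Real.rpow_nonneg hy0.le _
  have h5 : C * (M : ℝ) ^ (1 + 1 / (2 * A)) ≤ M * y := by
    rw [Real.rpow_add hM0, Real.rpow_one]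
    calc C * ((M : ℝ) * (M : ℝ) ^ (1 / (2 * A))) = M * (C * (M : ℝ) ^ (1 / (2 * A))) := by ring
      _ ≤ M * (y ^ (1 / 2 : ℝ) * y ^ (1 / 2 : ℝ)) := by
          refine mul_le_mul_of_nonneg_left ?_ hM0.le
          exact mul_le_mul h2 h1 (Real.rpow_nonneg hM0.le _) h4
      _ = M * y := by rw [h3]
  linarith

/-- **One arbitrary multiplicity**: the general members are not bad. -/
theorem one_large_not_bad {A : ℝ} (hA : 0 < A) : ∃ R : ℝ, ∀ (r d M : ℕ) (p : Fin r → V3)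
    (m : Fin r → ℕ) (i₀ : Fin r), GenericPoints p → 1 ≤ M → (∀ i, i ≠ i₀ → m i ≤ M) →
    R * M ≤ (d : ℝ) - m i₀ → (M : ℝ) ≤ (((d : ℝ) - m i₀) / M) ^ A →
    ∀ s : Fin (finrank ℂ (linSys d p m) - 1) → Fin 3 → ℂ, GenericPoints (Sum.elim p s) →
      ∀ F ∈ linSys d p m, F ≠ 0 → (∀ k, eval (s k) F = 0) → ¬ Bad d p m F := by
  obtain ⟨R₁, h1⟩ := one_large hA
  obtain ⟨R₂, h2⟩ := rigid_not_badA A
  refine ⟨max R₁ R₂, fun r d M p m i₀ hp hM hm hd hMx s hs F hF hF0 hFs => ?_⟩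
  have hM0 : (0 : ℝ) ≤ M := Nat.cast_nonneg M
  have hd1 : R₁ * M ≤ (d : ℝ) - m i₀ :=
    (mul_le_mul_of_nonneg_right (le_max_left _ _) hM0).trans hd
  have hd2 : R₂ * M ≤ (d : ℝ) - m i₀ :=
    (mul_le_mul_of_nonneg_right (le_max_right _ _) hM0).trans hd
  have hns := h1 r d M p m i₀ hp hM hm hd1 hMx
  have hfin : Module.Finite ℂ (linSys d p m) :=
    Submodule.finiteDimensional_of_le (linSys_le d p _)
  have hpos : finrank ℂ (linSys d p m) ≠ 0 := by
    intro h0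
    have h3 := Submodule.finrank_eq_zero.mp h0
    rw [h3] at hF
    exact hF0 hF
  apply not_bad_of_extended (s := s) hF.1 (fun j => point_ne_zero hs (Sum.inr j))
  refine h2 d M _ (Sum.elim p s) (Sum.elim m (fun _ => 1)) (Sum.inl i₀) hs hM ?_ hd2 hMx ?_ F
    ⟨hF.1, ?_⟩ hF0
  · rintro (i | j) hi
    · exact hm i (fun h => hi (by rw [h]))
    · exact hM
  · rw [sum_simple]
    omega
  · rintro (i | j)
    · exact hF.2 i
    · exact vanishTo_one_iff.mpr (hFs j)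

end Pool.Agent.Work.MP_0421d9_ag.ZE
end

section
/-!
The relative theorem, both halves, and its application to the systems with many conditions imposed
by the points with `m i ^ (2 + 1 / A) ≤ d (M / d) ^ A`.
-/

namespace Pool.Agent.Work.MP_0421d9_ag.ZE

open MvPolynomial Module SM ZC LD

/-- **The relative theorem, smoothness.** -/
theorem rel_not_bad {ε : ℝ} (hε : 0 < ε) : ∃ c : ℝ, 0 < c ∧ ∀ (r d t u M : ℕ)
    (p : Fin r → V3) (m : Fin r → ℕ) (B : Finset (Fin r)), GenericPoints p → 1 ≤ u →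
    (∀ i, m i ≤ M) → (∀ i, i ∉ B → m i ≤ u) → t ≤ d → Rg (d - t) (onB B m) →
    c * (u : ℝ) ^ (1 + ε) ≤ t → c * (u : ℝ) ^ (2 + ε) * M ≤ (t : ℝ) * d →
    ∀ s : Fin (finrank ℂ (linSys d p m) - 1) → Fin 3 → ℂ, GenericPoints (Sum.elim p s) →
      ∀ F ∈ linSys d p m, F ≠ 0 → (∀ k, eval (s k) F = 0) → ¬ Bad d p m F :=
  rel_not_bad_of (fun _ h => rel_all h) hε

/-- many conditions imposed by the points of small multiplicity -/
theorem small_window {A : ℝ} (hA : 0 < A) : ∃ R : ℝ, ∀ (r d M : ℕ) (p : Fin r → V3)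
    (m : Fin r → ℕ), GenericPoints p → 1 ≤ M → (∀ i, m i ≤ M) → R * M ≤ d →
    ((d : ℝ) / M) ^ A < M →
    |((d + 2).choose 2 : ℝ) - ∑ i, ((m i + 1).choose 2 : ℝ)| < (M : ℝ) ^ 2 * ((M : ℝ) / d) ^ A →
    (d : ℝ) ^ 2 * ((M : ℝ) / d) ^ A ≤
      ∑ i, (if (m i : ℝ) ^ (2 + 1 / A) ≤ d * ((M : ℝ) / d) ^ A then ((m i + 1).choose 2 : ℝ)
        else 0) →
    finrank ℂ (linSys d p m) = (d + 2).choose 2 - ∑ i, (m i + 1).choose 2 ∧
    ∀ s : Fin (finrank ℂ (linSys d p m) - 1) → Fin 3 → ℂ, GenericPoints (Sum.elim p s) →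
      ∀ F ∈ linSys d p m, F ≠ 0 → (∀ k, eval (s k) F = 0) → ¬ Bad d p m F := by
  have hε : 0 < 1 / (2 * A) := by positivity
  obtain ⟨C, hC⟩ := rel_all hε
  obtain ⟨c, hc, h⟩ := rel_not_bad hε
  obtain ⟨Q, hQ⟩ : ∃ Q, Q = max C c := ⟨_, rfl⟩
  have hCQ : C ≤ Q := hQ ▸ le_max_left _ _
  have hcQ : c ≤ Q := hQ ▸ le_max_right _ _
  obtain ⟨R, hR⟩ := small_data (C := Q) hA
  refine ⟨R, fun r d M p m hp hM hm hd hx hW hS => ?_⟩
  obtain ⟨u, t, B, hu, hmu, htd, hRg, h1, h2⟩ := hR r d M m hM hm hd hx hW hS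
  have hu1 : (1 : ℝ) ≤ u := by exact_mod_cast hu
  have hM0 : (0 : ℝ) ≤ M := Nat.cast_nonneg M
  have hle : ∀ z : ℝ, z ≤ Q → z * (u : ℝ) ^ (1 + 1 / (2 * A)) ≤ t := fun z hz =>
    (mul_le_mul_of_nonneg_right hz (by positivity)).trans h1
  have hle2 : ∀ z : ℝ, z ≤ Q → z * (u : ℝ) ^ (2 + 1 / (2 * A)) * M ≤ (t : ℝ) * d := fun z hz =>
    (mul_le_mul_of_nonneg_right (mul_le_mul_of_nonneg_right hz (by positivity)) hM0).trans h2
  refine ⟨?_, h r d t u M p m B hp hu hm hmu htd hRg (hle c hcQ) (hle2 c hcQ)⟩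
  rw [hPm_eq hp]
  refine hC r d t u M m B hu hm hmu htd hRg (hle C hCQ) ?_
  have h3 : C * (u : ℝ) ^ 2 * M ≤ Q * (u : ℝ) ^ 2 * M :=
    mul_le_mul_of_nonneg_right (mul_le_mul_of_nonneg_right hCQ (by positivity)) hM0
  refine h3.trans (le_trans ?_ h2)
  refine mul_le_mul_of_nonneg_right ?_ hM0
  refine mul_le_mul_of_nonneg_left ?_ (by linarith)
  rw [← Real.rpow_natCast]
  apply Real.rpow_le_rpow_of_exponent_le hu1
  push_cast
  linarith

end Pool.Agent.Work.MP_0421d9_ag.ZE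
end

section
/-!
The general members of all systems in degree at least `C M ^ (1 + ε)` are irreducible (helper20).
-/

namespace Pool.Agent.Work.MP_0421d9_ag.LD

open MvPolynomial Module

theorem totalDegree_dh (G : R3) : (dh G).totalDegree ≤ G.totalDegree := by
  conv_lhs => rw [G.as_sum, map_sum]
  refine totalDegree_finsetSum_le fun α hα => ?_
  rw [dh_monomial]
  refine (totalDegree_mul _ _).trans ?_
  rw [totalDegree_C, zero_add]
  refine (totalDegree_mul _ _).trans ?_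
  have h1 := le_totalDegree hα
  rw [Finsupp.sum_fintype _ _ (fun _ => rfl), Fin.sum_univ_three] at h1
  have h2 := totalDegree_pow (X 0 : P2) (α 0)
  have h3 := totalDegree_pow (X 1 : P2) (α 1)
  rw [totalDegree_X, mul_one] at h2 h3
  omega

theorem irreducible_of_dh {D : ℕ} {F : R3} (hF : F.IsHomogeneous D) (hF0 : F ≠ 0)
    (h : Irreducible (dh F)) (hd : (dh F).totalDegree = D) : Irreducible F := by
  have hFd := hF.totalDegree hF0
  have key : ∀ G H : R3, F = G * H → IsUnit (dh G) → IsUnit G := by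
    intro G H hGH hG
    have hG0 : G ≠ 0 := by
      rintro rfl
      rw [zero_mul] at hGH
      exact hF0 hGH
    have hH0 : H ≠ 0 := by
      rintro rfl
      rw [mul_zero] at hGH
      exact hF0 hGH
    have h1 : (dh G).totalDegree = 0 := by
      rw [MvPolynomial.isUnit_iff_eq_C_of_isReduced] at hG
      obtain ⟨c, _, hc⟩ := hG
      rw [hc]
      exact totalDegree_C c
    have h2 : (dh F).totalDegree ≤ (dh G).totalDegree + (dh H).totalDegree := by
      rw [hGH, map_mul]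
      exact totalDegree_mul _ _
    have h3 := totalDegree_dh H
    have h4 : F.totalDegree = G.totalDegree + H.totalDegree := by
      rw [hGH]
      exact totalDegree_mul_of_isDomain hG0 hH0
    have h5 : G.totalDegree = 0 := by omega
    rw [totalDegree_eq_zero_iff_eq_C] at h5
    rw [h5]
    refine (IsUnit.mk0 _ ?_).map C
    intro h6
    rw [h6, C_0] at h5
    exact hG0 h5
  refine irreducible_iff.mpr ⟨fun hu => h.not_isUnit (hu.map dh), fun G H hGH => ?_⟩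
  have h1 : dh F = dh G * dh H := by rw [hGH, map_mul]
  rcases h.isUnit_or_isUnit h1 with h2 | h2
  · exact Or.inl (key G H hGH h2)
  · exact Or.inr (key H G (by rw [hGH, mul_comm]) h2)

theorem irr_general_aux {C η : ℝ} (hη : 0 < η) (hη1 : η ≤ 1) (hC : 4 ≤ C) (hNS : NSall C η)
    {r d M k : ℕ} {p : Fin r → V3} {m : Fin r → ℕ} (hM : 1 ≤ M)
    (hm : ∀ i, m i ≤ M) (hD : 16 * C ^ 2 * (M : ℝ) ^ (1 + 2 * η) ≤ d)
    (hk : (d + 2).choose 2 - ∑ i, (m i + 1).choose 2 = k + 1)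
    (s : Fin k → V3) (hs : GenericPoints (Sum.elim p s))
    {F : R3} (hF : F ∈ linSys d p m) (hF0 : F ≠ 0) (hFs : ∀ k, eval (s k) F = 0) :
    Irreducible F := by
  classical
  obtain ⟨e, he⟩ : ∃ e : Fin (r + k) ≃ Fin r ⊕ Fin k, e = finSumFinEquiv.symm := ⟨_, rfl⟩
  obtain ⟨p', hp'⟩ : ∃ p' : Fin (r + k) → V3, p' = fun i => Sum.elim p s (e i) := ⟨_, rfl⟩
  obtain ⟨y, hy⟩ : ∃ y : Fin (r + k) → ℕ, y = fun i => Sum.elim m (fun _ => 1) (e i) := ⟨_, rfl⟩
  have hgen : GenericPoints p' := by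
    have h1 := AlgebraicIndependent.comp hs (fun z : Fin (r + k) × Fin 3 => (e z.1, z.2))
      (fun z w h => by
        have h2 := congrArg Prod.fst h
        have h3 := congrArg Prod.snd h
        exact Prod.ext (e.injective h2) h3)
    rw [hp']
    exact h1
  have hyM : ∀ i, y i ≤ M := by
    intro i
    rw [hy]
    change Sum.elim m (fun _ => 1) (e i) ≤ M
    rcases e i with j | j
    · exact hm j
    · exact hM
  have hFy : F ∈ linSys d p' y := by
    refine ⟨hF.1, fun i => ?_⟩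
    rw [hp', hy]
    change VanishTo F (Sum.elim p s (e i)) (Sum.elim m (fun _ => 1) (e i))
    rcases e i with j | j
    · exact hF.2 j
    · exact vanishTo_one_iff'.mpr (hFs j)
  have hsum : ∑ i, (y i + 1).choose 2 = ∑ i, (m i + 1).choose 2 + k := by
    rw [hy, Equiv.sum_comp e (fun z => (Sum.elim m (fun _ => 1) z + 1).choose 2),
      Fintype.sum_sum_type]
    simp
  have hpos : (0 : ℝ) ≤ (M : ℝ) ^ (1 + η) := by positivity
  have hM1 : (1 : ℝ) ≤ M := by exact_mod_cast hM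
  have hD' : C * (M : ℝ) ^ (1 + η) ≤ d := by
    refine le_trans ?_ hD
    have h1 : (M : ℝ) ^ (1 + η) ≤ (M : ℝ) ^ (1 + 2 * η) :=
      Real.rpow_le_rpow_of_exponent_le hM1 (by linarith)
    have h2 : C ≤ 16 * C ^ 2 := by nlinarith
    exact mul_le_mul h2 h1 hpos (by positivity)
  have h1 : finrank ℂ (linSys d p' y) = 1 := by
    rw [hPm_eq hgen, hNS _ d M y hyM hD', hsum]
    omega
  have hz : ∀ j, p' j 2 ≠ 0 := fun j => AlgebraicIndependent.ne_zero hgen (j, 2)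
  have hf : dh F ∈ VD d (aff p') y :=
    ⟨totalDegree_dh_le hF.1, fun i => (vq_dh_iff hF.1 (hz i)).mpr (hFy.2 i)⟩
  have hf0 : dh F ≠ 0 := fun h => hF0 (dh_injective hF.1 h)
  obtain ⟨h2, h3⟩ := irr_rigid hη hη1 hC hNS hgen hM hyM hD h1 hf hf0
  exact irreducible_of_dh hF.1 hF0 h2 h3

/-- the general member of a system in the range is irreducible -/
theorem irr_general {C η : ℝ} (hη : 0 < η) (hη1 : η ≤ 1) (hC : 4 ≤ C) (hNS : NSall C η)
    {r d M : ℕ} {p : Fin r → V3} {m : Fin r → ℕ} (hM : 1 ≤ M)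
    (hm : ∀ i, m i ≤ M) (hD : 16 * C ^ 2 * (M : ℝ) ^ (1 + 2 * η) ≤ d)
    (hns : finrank ℂ (linSys d p m) = (d + 2).choose 2 - ∑ i, (m i + 1).choose 2)
    (s : Fin (finrank ℂ (linSys d p m) - 1) → V3) (hs : GenericPoints (Sum.elim p s))
    {F : R3} (hF : F ∈ linSys d p m) (hF0 : F ≠ 0) (hFs : ∀ k, eval (s k) F = 0) :
    Irreducible F := by
  have hpos : finrank ℂ (linSys d p m) ≠ 0 := by
    intro h0
    have hfin : Module.Finite ℂ (linSys d p m) :=
      Submodule.finiteDimensional_of_le (linSys_le d p _)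
    have h2 := Submodule.finrank_eq_zero.mp h0
    rw [h2, Submodule.mem_bot] at hF
    exact hF0 hF
  have hk1 : (d + 2).choose 2 - ∑ i, (m i + 1).choose 2 =
      (finrank ℂ (linSys d p m) - 1) + 1 := by omega
  exact irr_general_aux hη hη1 hC hNS hM hm hD hk1 s hs hF hF0 hFs

/-- **Irreducibility**: in the first alternative of `all_windows` the general member is
irreducible. -/
theorem all_irreducible {A : ℝ} (hA : 0 < A) : ∃ R : ℝ, ∀ (r d M : ℕ) (p : Fin r → V3)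
    (m : Fin r → ℕ), GenericPoints p → 1 ≤ M → (∀ i, m i ≤ M) → R * M ≤ d →
    (M : ℝ) ≤ ((d : ℝ) / M) ^ A →
    ∀ s : Fin (finrank ℂ (linSys d p m) - 1) → Fin 3 → ℂ, GenericPoints (Sum.elim p s) →
      ∀ F ∈ linSys d p m, F ≠ 0 → (∀ k, eval (s k) F = 0) → Irreducible F := by
  obtain ⟨η, hη⟩ : ∃ η : ℝ, η = min (1 / (4 * A)) 1 := ⟨_, rfl⟩
  have hη0 : 0 < η := by
    rw [hη]
    exact lt_min (by positivity) one_pos
  have hη1 : η ≤ 1 := by
    rw [hη]
    exact min_le_right _ _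
  have hηA : η ≤ 1 / (4 * A) := by
    rw [hη]
    exact min_le_left _ _
  obtain ⟨C₀, hC₀⟩ := all_systems hη0
  obtain ⟨C, hC⟩ : ∃ C : ℝ, C = max C₀ 4 := ⟨_, rfl⟩
  have hC4 : 4 ≤ C := by
    rw [hC]
    exact le_max_right _ _
  have hCC₀ : C₀ ≤ C := by
    rw [hC]
    exact le_max_left _ _
  have hNS : NSall C η := by
    intro r D N y hy hD
    rw [← hPm_eq (gpt_generic r)]
    refine hC₀ r D N _ y (gpt_generic r) hy (le_trans ?_ hD)
    exact mul_le_mul_of_nonneg_right hCC₀ (by positivity)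
  refine ⟨256 * C ^ 4, fun r d M p m hp hM hm hd hMd s hs F hF hF0 hFs => ?_⟩
  have hM1 : (1 : ℝ) ≤ M := by exact_mod_cast hM
  have hM0 : (0 : ℝ) < M := by linarith
  obtain ⟨w, hw⟩ : ∃ w : ℝ, w = (d : ℝ) / M := ⟨_, rfl⟩
  have hdw : (d : ℝ) = M * w := by
    rw [hw, mul_div_cancel₀ _ hM0.ne']
  have hw1 : 256 * C ^ 4 ≤ w := by
    rw [hw, le_div_iff₀ hM0]
    exact hd
  have hw0 : 0 < w := lt_of_lt_of_le (by positivity) hw1
  have hw1' : 1 ≤ w := by
    refine le_trans ?_ hw1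
    have : (1 : ℝ) ≤ C ^ 4 := one_le_pow₀ (by linarith)
    linarith
  rw [← hw] at hMd
  have h1 : (M : ℝ) ^ (2 * η) ≤ w ^ (1 / 2 : ℝ) := by
    calc (M : ℝ) ^ (2 * η) ≤ (w ^ A) ^ (2 * η) :=
          Real.rpow_le_rpow hM0.le hMd (by linarith)
      _ = w ^ (A * (2 * η)) := (Real.rpow_mul hw0.le A (2 * η)).symm
      _ ≤ w ^ (1 / 2 : ℝ) := by
          refine Real.rpow_le_rpow_of_exponent_le hw1' ?_
          calc A * (2 * η) ≤ A * (2 * (1 / (4 * A))) := by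
                refine mul_le_mul_of_nonneg_left ?_ hA.le
                linarith
            _ = 1 / 2 := by
                field_simp
                norm_num
  have h2 : 16 * C ^ 2 ≤ w ^ (1 / 2 : ℝ) := by
    have h3 : (256 * C ^ 4 : ℝ) ^ (1 / 2 : ℝ) = 16 * C ^ 2 := by
      have h4 : (256 * C ^ 4 : ℝ) = (16 * C ^ 2) ^ (2 : ℝ) := by
        rw [Real.rpow_two]
        ring
      rw [h4, ← Real.rpow_mul (by positivity)]
      norm_num
    rw [← h3]
    exact Real.rpow_le_rpow (by positivity) hw1 (by norm_num)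
  have h3 : w ^ (1 / 2 : ℝ) * w ^ (1 / 2 : ℝ) = w := by
    rw [← Real.rpow_add hw0]
    norm_num
  have hD : 16 * C ^ 2 * (M : ℝ) ^ (1 + 2 * η) ≤ d := by
    rw [Real.rpow_add hM0, Real.rpow_one, hdw]
    have h4 : 16 * C ^ 2 * (M : ℝ) ^ (2 * η) ≤ w := by
      rw [← h3]
      exact mul_le_mul h2 h1 (by positivity) (by positivity)
    calc 16 * C ^ 2 * ((M : ℝ) * (M : ℝ) ^ (2 * η)) = M * (16 * C ^ 2 * (M : ℝ) ^ (2 * η)) := by
          ring
      _ ≤ M * w := mul_le_mul_of_nonneg_left h4 hM0.le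
  have hns : finrank ℂ (linSys d p m) = (d + 2).choose 2 - ∑ i, (m i + 1).choose 2 := by
    rw [hPm_eq hp]
    refine hNS r d M m hm (le_trans ?_ hD)
    have h4 : (M : ℝ) ^ (1 + η) ≤ (M : ℝ) ^ (1 + 2 * η) :=
      Real.rpow_le_rpow_of_exponent_le hM1 (by linarith)
    have h5 : C ≤ 16 * C ^ 2 := by nlinarith
    exact mul_le_mul h5 h4 (by positivity) (by positivity)
  exact irr_general hη0 hη1 hC4 hNS hM hm hD hns s hs hF hF0 hFs

end Pool.Agent.Work.MP_0421d9_ag.LD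
end

section
/-!
The relative theorem, both halves: points of small multiplicities added to any set of points which
impose independent conditions in a smaller degree.
-/

namespace Pool.Agent.Work.MP_0421d9_ag.ZE

open MvPolynomial Module SM ZC LD

/-- the two halves with one constant -/
theorem rel_both {ε : ℝ} (hε : 0 < ε) : ∃ c : ℝ, ∀ (r d t u M : ℕ) (p : Fin r → V3)
    (m : Fin r → ℕ) (B : Finset (Fin r)), GenericPoints p → 1 ≤ u → (∀ i, m i ≤ M) →
    (∀ i, i ∉ B → m i ≤ u) → t ≤ d → Rg (d - t) (onB B m) → c * (u : ℝ) ^ (1 + ε) ≤ t →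
    (c * (u : ℝ) ^ 2 * M ≤ (t : ℝ) * d →
      finrank ℂ (linSys d p m) = (d + 2).choose 2 - ∑ i, (m i + 1).choose 2) ∧
    (c * (u : ℝ) ^ (2 + ε) * M ≤ (t : ℝ) * d →
      finrank ℂ (linSys d p m) = (d + 2).choose 2 - ∑ i, (m i + 1).choose 2 ∧
      ∀ s : Fin (finrank ℂ (linSys d p m) - 1) → Fin 3 → ℂ, GenericPoints (Sum.elim p s) →
        ∀ F ∈ linSys d p m, F ≠ 0 → (∀ k, eval (s k) F = 0) → ¬ Bad d p m F) := by
  obtain ⟨C, hC⟩ := LD.rel_all hε
  obtain ⟨c, hc, hcc⟩ := rel_not_bad hε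
  refine ⟨max C c, fun r d t u M p m B hp hu hM hm htd hB ht => ?_⟩
  have hu1 : (1 : ℝ) ≤ u := by exact_mod_cast hu
  have hC1 : C ≤ max C c := le_max_left _ _
  have hc1 : c ≤ max C c := le_max_right _ _
  have h0 : 0 ≤ max C c := hc.le.trans hc1
  have hM0 : (0 : ℝ) ≤ M := Nat.cast_nonneg M
  have hp1 : 0 ≤ (u : ℝ) ^ (1 + ε) := by positivity
  have hp2 : 0 ≤ (u : ℝ) ^ (2 + ε) := by positivity
  have hns : max C c * (u : ℝ) ^ 2 * M ≤ (t : ℝ) * d →
      finrank ℂ (linSys d p m) = (d + 2).choose 2 - ∑ i, (m i + 1).choose 2 := by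
    intro h
    rw [hPm_eq hp]
    refine hC r d t u M m B hu hM hm htd hB ((mul_le_mul_of_nonneg_right hC1 hp1).trans ht) ?_
    refine le_trans ?_ h
    have : 0 ≤ (u : ℝ) ^ 2 := by positivity
    exact mul_le_mul_of_nonneg_right (mul_le_mul_of_nonneg_right hC1 this) hM0
  refine ⟨hns, fun h => ⟨hns (le_trans ?_ h), ?_⟩⟩
  · have h2 : (u : ℝ) ^ 2 ≤ (u : ℝ) ^ (2 + ε) := by
      rw [← Real.rpow_natCast]
      exact Real.rpow_le_rpow_of_exponent_le hu1 (by push_cast; linarith)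
    exact mul_le_mul_of_nonneg_right (mul_le_mul_of_nonneg_left h2 h0) hM0
  · refine hcc r d t u M p m B hp hu hM hm htd hB ((mul_le_mul_of_nonneg_right hc1 hp1).trans ht) ?_
    refine le_trans ?_ h
    exact mul_le_mul_of_nonneg_right (mul_le_mul_of_nonneg_right hc1 hp2) hM0

end Pool.Agent.Work.MP_0421d9_ag.ZE
end

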