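import Mathlib
import Pool.Agent.Work.MP_0421d9_ag.Defs

section
/-!
Existence of derivations of the complex numbers with prescribed values on an
algebraically independent family.
-/

set_option linter.style.haveILetI false

namespace Pool.Agent.Work.MP_0421d9_ag

open TensorProduct MvPolynomial

open scoped IntermediateField.algebraAdjoinAdjoin in
theorem formallyEtale_adjoin {ι : Type} (x : ι → ℂ)
   [Algebra.IsAlgebraic (IntermediateField.adjoin ℚ (Set.range x)) ℂ] :
    Algebra.FormallyEtale (Algebra.adjoin ℚ (Set.range x)) ℂ := by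
  have : Algebra.FormallyEtale (Algebra.adjoin ℚ (Set.range x))
      (IntermediateField.adjoin ℚ (Set.range x)) :=
    .of_isLocalization (nonZeroDivisors _)
  have : Algebra.FormallyEtale (IntermediateField.adjoin ℚ (Set.range x)) ℂ :=
    Algebra.FormallyEtale.of_isSeparable _ ℂ
  exact .comp _ (IntermediateField.adjoin ℚ (Set.range x)) _

theorem exists_derivation_aux {ι : Type} (x : ι → ℂ) (hx : IsTranscendenceBasis ℚ x) (c : ι → ℂ) :
    ∃ D : Derivation ℚ ℂ ℂ, ∀ i, D (x i) = c i := by
  classical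
  have hai := hx.1
  letI : Algebra (MvPolynomial ι ℚ) ℂ := (aeval x : MvPolynomial ι ℚ →ₐ[ℚ] ℂ).toRingHom.toAlgebra
  haveI : IsScalarTower ℚ (MvPolynomial ι ℚ) ℂ := by
    refine IsScalarTower.of_algebraMap_eq (fun r => ?_)
    change _ = (aeval x : MvPolynomial ι ℚ →ₐ[ℚ] ℂ) (algebraMap ℚ _ r)
    simp
  haveI : Algebra.IsAlgebraic (IntermediateField.adjoin ℚ (Set.range x)) ℂ := hx.isAlgebraic_field
  haveI : Algebra.FormallyEtale (MvPolynomial ι ℚ) ℂ := by
    letI : Algebra (MvPolynomial ι ℚ) (Algebra.adjoin ℚ (Set.range x)) :=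
      (hai.aevalEquiv.toAlgHom.toRingHom).toAlgebra
    have : IsScalarTower (MvPolynomial ι ℚ) (Algebra.adjoin ℚ (Set.range x)) ℂ := by
      refine IsScalarTower.of_algebraMap_eq (fun r => ?_)
      change (aeval x : MvPolynomial ι ℚ →ₐ[ℚ] ℂ) r =
        ((hai.aevalEquiv r : Algebra.adjoin ℚ (Set.range x)) : ℂ)
      simp
    have h1 := formallyEtale_adjoin x
    have h2 : Algebra.FormallyEtale (MvPolynomial ι ℚ) (Algebra.adjoin ℚ (Set.range x)) := by
      refine Algebra.FormallyEtale.of_equiv (A := MvPolynomial ι ℚ)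
        { hai.aevalEquiv.toRingEquiv with
          commutes' := ?_ }
      intro r
      rfl
    exact .comp _ (Algebra.adjoin ℚ (Set.range x)) _
  let D0 : Derivation ℚ (MvPolynomial ι ℚ) ℂ := mkDerivation ℚ c
  let L0 : Ω[(MvPolynomial ι ℚ)⁄ℚ] →ₗ[MvPolynomial ι ℚ] ℂ := D0.liftKaehlerDifferential
  let L1 : ℂ ⊗[MvPolynomial ι ℚ] Ω[(MvPolynomial ι ℚ)⁄ℚ] →ₗ[ℂ] ℂ :=
    LinearMap.liftBaseChange ℂ L0
  let e := KaehlerDifferential.tensorKaehlerEquivOfFormallyEtale ℚ (MvPolynomial ι ℚ) ℂ
  let L2 : Ω[ℂ⁄ℚ] →ₗ[ℂ] ℂ := L1 ∘ₗ e.symm.toLinearMap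
  refine ⟨L2.compDer (KaehlerDifferential.D ℚ ℂ), fun i => ?_⟩
  have h1 : x i = algebraMap (MvPolynomial ι ℚ) ℂ (X i) := by
    change _ = (aeval x : MvPolynomial ι ℚ →ₐ[ℚ] ℂ) (X i)
    simp
  change L1 (e.symm (KaehlerDifferential.D ℚ ℂ (x i))) = c i
  rw [h1, KaehlerDifferential.tensorKaehlerEquivOfFormallyEtale_symm_D_algebraMap]
  simp [L1, L0, D0, mkDerivation_X]

/-- Existence of derivations with prescribed values on an algebraically independent family. -/
theorem exists_derivation {ι : Type} (x : ι → ℂ) (hx : AlgebraicIndependent ℚ x) (c : ι → ℂ) :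
    ∃ D : Derivation ℚ ℂ ℂ, ∀ i, D (x i) = c i := by
  classical
  obtain ⟨s, hs, hs'⟩ := exists_isTranscendenceBasis_superset hx.coe_range
  have hinj := hx.injective
  obtain ⟨D, hD⟩ := exists_derivation_aux ((↑) : s → ℂ) hs'
    (fun y => if h : ∃ i, x i = y then c h.choose else 0)
  refine ⟨D, fun i => ?_⟩
  have h := hD ⟨x i, hs (Set.mem_range_self i)⟩
  have hex : ∃ j, x j = x i := ⟨i, rfl⟩
  have h2 : hex.choose = i := hinj hex.choose_spec
  rw [h]
  simp only [hex, dif_pos]
  rw [h2]

end Pool.Agent.Work.MP_0421d9_ag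
end

section
/-!
Coefficientwise derivations of `ℂ[x₀,x₁,x₂]` and linear forms.
-/

namespace Pool.Agent.Work.MP_0421d9_ag

open MvPolynomial

/-- the polynomial ring in three variables -/
abbrev R3 := MvPolynomial (Fin 3) ℂ

/-- vectors of `ℂ³` -/
abbrev V3 := Fin 3 → ℂ

/-! ### coefficientwise derivation -/

section cD

variable {σ : Type}

/-- apply the derivation `D` to all coefficients (underlying function) -/
noncomputable def cDfun (D : Derivation ℚ ℂ ℂ) (f : MvPolynomial σ ℂ) : MvPolynomial σ ℂ :=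
  ∑ α ∈ f.support, monomial α (D (coeff α f))

theorem coeff_cDfun (D : Derivation ℚ ℂ ℂ) (f : MvPolynomial σ ℂ) (α : σ →₀ ℕ) :
    coeff α (cDfun D f) = D (coeff α f) := by
  classical
  unfold cDfun
  rw [coeff_sum]
  simp only [coeff_monomial]
  rw [Finset.sum_ite_eq' f.support α]
  split_ifs with h
  · rfl
  · rw [notMem_support_iff.mp h, map_zero]

/-- the derivation of `ℂ[x]` acting on coefficients -/
noncomputable def cD (D : Derivation ℚ ℂ ℂ) : Derivation ℚ (MvPolynomial σ ℂ) (MvPolynomial σ ℂ) :=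
  Derivation.mk'
    { toFun := cDfun D
      map_add' := fun f g => by
        ext α
        simp [coeff_cDfun]
      map_smul' := fun c f => by
        ext α
        simp [coeff_cDfun] }
    (fun f g => by
      classical
      ext α
      change coeff α (cDfun D (f * g)) = coeff α (f • cDfun D g + g • cDfun D f)
      rw [coeff_cDfun, coeff_mul, map_sum, smul_eq_mul, smul_eq_mul, coeff_add, coeff_mul,
        mul_comm g, coeff_mul, ← Finset.sum_add_distrib]
      refine Finset.sum_congr rfl (fun x _ => ?_)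
      rw [Derivation.leibniz, coeff_cDfun, coeff_cDfun, smul_eq_mul, smul_eq_mul]
      ring)

theorem coeff_cD (D : Derivation ℚ ℂ ℂ) (f : MvPolynomial σ ℂ) (α : σ →₀ ℕ) :
    coeff α (cD D f) = D (coeff α f) := coeff_cDfun D f α

@[simp] theorem cD_C (D : Derivation ℚ ℂ ℂ) (a : ℂ) :
    cD D (C a : MvPolynomial σ ℂ) = C (D a) := by
  classical
  ext α
  rw [coeff_cD, coeff_C, coeff_C]
  split_ifs <;> simp

@[simp] theorem cD_X (D : Derivation ℚ ℂ ℂ) (i : σ) :
    cD D (X i : MvPolynomial σ ℂ) = 0 := by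
  classical
  ext α
  rw [coeff_cD, coeff_X, coeff_zero]
  split_ifs <;> simp

theorem cD_monomial (D : Derivation ℚ ℂ ℂ) (α : σ →₀ ℕ) (a : ℂ) :
    cD D (monomial α a : MvPolynomial σ ℂ) = monomial α (D a) := by
  classical
  ext β
  rw [coeff_cD, coeff_monomial, coeff_monomial]
  split_ifs <;> simp

theorem cD_mul (D : Derivation ℚ ℂ ℂ) (f g : MvPolynomial σ ℂ) :
    cD D (f * g) = cD D f * g + f * cD D g := by
  rw [Derivation.leibniz, smul_eq_mul, smul_eq_mul]
  ring

theorem cD_C_mul (D : Derivation ℚ ℂ ℂ) (a : ℂ) (f : MvPolynomial σ ℂ) :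
    cD D (C a * f) = C (D a) * f + C a * cD D f := by
  rw [cD_mul, cD_C]

theorem cD_pow (D : Derivation ℚ ℂ ℂ) (f : MvPolynomial σ ℂ) (n : ℕ) :
    cD D (f ^ n) = C (n : ℂ) * (f ^ (n - 1) * cD D f) := by
  rw [Derivation.leibniz_pow, smul_eq_mul, nsmul_eq_mul, map_natCast]

theorem cD_smul (D : Derivation ℚ ℂ ℂ) (a : ℂ) (f : MvPolynomial σ ℂ) :
    cD D (a • f) = D a • f + a • cD D f := by
  rw [smul_eq_C_mul, cD_C_mul, smul_eq_C_mul, smul_eq_C_mul]

theorem cD_add_left (D E : Derivation ℚ ℂ ℂ) (f : MvPolynomial σ ℂ) :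
    cD (D + E) f = cD D f + cD E f := by
  ext α
  simp [coeff_cD]

theorem cD_smul_left (c : ℂ) (D : Derivation ℚ ℂ ℂ) (f : MvPolynomial σ ℂ) :
    cD (c • D) f = c • cD D f := by
  ext α
  simp [coeff_cD]

theorem cD_sum_left {ι : Type} (s : Finset ι) (D : ι → Derivation ℚ ℂ ℂ) (f : MvPolynomial σ ℂ) :
    cD (∑ i ∈ s, D i) f = ∑ i ∈ s, cD (D i) f := by
  classical
  induction s using Finset.induction_on with
  | empty =>
    ext α
    simp [coeff_cD]
  | insert a s ha ih => rw [Finset.sum_insert ha, Finset.sum_insert ha, cD_add_left, ih]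

theorem cD_isHomogeneous (D : Derivation ℚ ℂ ℂ) {f : MvPolynomial σ ℂ} {n : ℕ}
    (hf : f.IsHomogeneous n) : (cD D f).IsHomogeneous n := by
  intro α hα
  apply hf
  intro h
  apply hα
  rw [coeff_cD, h, map_zero]

theorem cD_pderiv (D : Derivation ℚ ℂ ℂ) (i : σ) (f : MvPolynomial σ ℂ) :
    cD D (pderiv i f) = pderiv i (cD D f) := by
  classical
  induction f using MvPolynomial.induction_on with
  | C a => simp
  | add p q hp hq => simp [hp, hq]
  | mul_X p n hp =>
    simp only [Derivation.leibniz, smul_eq_mul, map_add, cD_X, hp, pderiv_X, mul_zero, zero_add]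
    by_cases h : i = n
    · subst h
      simp only [Pi.single_eq_same, Derivation.map_one_eq_zero, mul_zero, zero_add, mul_one]
      ring
    · rw [Pi.single_eq_of_ne (fun h' => h h'.symm)]
      simp

/-- chain rule for evaluation -/
theorem D_eval [Fintype σ] (D : Derivation ℚ ℂ ℂ) (a : σ → ℂ) (f : MvPolynomial σ ℂ) :
    D (eval a f) = eval a (cD D f) + ∑ i, D (a i) * eval a (pderiv i f) := by
  classical
  induction f using MvPolynomial.induction_on with
  | C b => simp
  | add p q hp hq =>
    simp only [map_add, hp, hq, mul_add, Finset.sum_add_distrib]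
    ring
  | mul_X p n hp =>
    have h1 : ∀ i, D (a i) * eval a (pderiv i (p * X n)) =
        D (a i) * (eval a p * eval a (pderiv i (X n : MvPolynomial σ ℂ))) +
        a n * (D (a i) * eval a (pderiv i p)) := fun i => by
      rw [Derivation.leibniz, smul_eq_mul, smul_eq_mul, map_add, map_mul, map_mul, eval_X]
      ring
    rw [Finset.sum_congr rfl (fun i _ => h1 i), Finset.sum_add_distrib, ← Finset.mul_sum]
    have h2 : ∑ i, D (a i) * (eval a p * eval a (pderiv i (X n : MvPolynomial σ ℂ))) =
        D (a n) * eval a p := by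
      rw [Finset.sum_eq_single n]
      · rw [pderiv_X_self]; simp
      · intro b _ hb
        rw [pderiv_X_of_ne hb.symm]
        simp
      · simp
    rw [h2, cD_mul, cD_X, map_mul, eval_X, Derivation.leibniz, hp]
    simp only [smul_eq_mul, mul_zero, add_zero, map_mul, eval_X]
    ring

end cD

/-- linear form with coefficient vector `v` -/
noncomputable def lin (v : V3) : R3 := ∑ i, C (v i) * X i

theorem lin_add (v w : V3) : lin (v + w) = lin v + lin w := by
  simp [lin, add_mul, Finset.sum_add_distrib]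

theorem lin_smul (c : ℂ) (v : V3) : lin (c • v) = C c * lin v := by
  simp [lin, Finset.mul_sum, mul_assoc]

theorem lin_zero : lin 0 = 0 := by simp [lin]

theorem lin_isHomogeneous (v : V3) : (lin v).IsHomogeneous 1 := by
  unfold lin
  apply IsHomogeneous.sum
  intro i _
  have := (isHomogeneous_X ℂ i).C_mul (v i)
  exact this

theorem cD_lin (D : Derivation ℚ ℂ ℂ) (v : V3) : cD D (lin v) = lin (fun i => D (v i)) := by
  unfold lin
  rw [map_sum]
  refine Finset.sum_congr rfl (fun i _ => ?_)
  rw [cD_C_mul, cD_X, mul_zero, add_zero]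

theorem eval_lin (u v : V3) : eval u (lin v) = ∑ i, v i * u i := by
  simp [lin]

theorem eval_lin_comm (u v : V3) : eval u (lin v) = eval v (lin u) := by
  rw [eval_lin, eval_lin]
  exact Finset.sum_congr rfl (fun i _ => mul_comm _ _)

theorem coeff_lin (v : V3) (i : Fin 3) : coeff (Finsupp.single i 1) (lin v) = v i := by
  classical
  unfold lin
  rw [coeff_sum, Finset.sum_eq_single i]
  · rw [coeff_C_mul, coeff_X]; simp
  · intro j _ hj
    rw [coeff_C_mul, coeff_X, if_neg, mul_zero]
    intro h
    exact hj ((Finsupp.single_left_injective one_ne_zero) h)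
  · simp

theorem lin_injective : Function.Injective lin := by
  intro v w h
  ext i
  rw [← coeff_lin v i, ← coeff_lin w i, h]

theorem lin_eq_zero {v : V3} : lin v = 0 ↔ v = 0 := by
  constructor
  · intro h
    apply lin_injective
    rw [h, lin_zero]
  · rintro rfl
    exact lin_zero

theorem pderiv_lin (i : Fin 3) (v : V3) : pderiv i (lin v) = C (v i) := by
  classical
  unfold lin
  rw [map_sum, Finset.sum_eq_single i]
  · rw [pderiv_C_mul, pderiv_X_self, mul_one]
  · intro j _ hj
    rw [pderiv_C_mul, pderiv_X_of_ne hj, mul_zero]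
  · simp

end Pool.Agent.Work.MP_0421d9_ag
end

section
/-!
The apolarity pairing on `ℂ[x₀,x₁,x₂]`.
-/

namespace Pool.Agent.Work.MP_0421d9_ag

open MvPolynomial

/-- `α!` -/
def wt (α : Fin 3 →₀ ℕ) : ℕ := ∏ i, (α i).factorial

theorem wt_ne_zero (α : Fin 3 →₀ ℕ) : (wt α : ℂ) ≠ 0 := by
  unfold wt
  rw [Nat.cast_ne_zero]
  exact Finset.prod_ne_zero_iff.mpr (fun i _ => Nat.factorial_ne_zero _)

theorem wt_add_single (α : Fin 3 →₀ ℕ) (i : Fin 3) :
    wt (α + Finsupp.single i 1) = (α i + 1) * wt α := by
  classical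
  unfold wt
  rw [← Finset.mul_prod_erase _ _ (Finset.mem_univ i), ← Finset.mul_prod_erase _ _
    (Finset.mem_univ i), ← mul_assoc]
  congr 1
  · simp [Nat.factorial_succ]
  · refine Finset.prod_congr rfl (fun j hj => ?_)
    have : j ≠ i := Finset.ne_of_mem_erase hj
    simp [this.symm]

/-- the apolarity pairing -/
noncomputable def B : R3 →ₗ[ℂ] R3 →ₗ[ℂ] ℂ :=
  (basisMonomials (Fin 3) ℂ).constr ℂ (fun α => (wt α : ℂ) • lcoeff ℂ α)

theorem B_monomial (α : Fin 3 →₀ ℕ) (a : ℂ) (f : R3) :
    B (monomial α a) f = a * (wt α * coeff α f) := by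
  have h : (monomial α a : R3) = a • (basisMonomials (Fin 3) ℂ α) := by
    rw [coe_basisMonomials, smul_monomial, smul_eq_mul, mul_one]
  rw [h, map_smul, LinearMap.smul_apply, B, Module.Basis.constr_basis, smul_eq_mul]
  simp [lcoeff]

theorem B_monomial_right (α : Fin 3 →₀ ℕ) (a : ℂ) (A : R3) :
    B A (monomial α a) = a * (wt α * coeff α A) := by
  classical
  induction A using MvPolynomial.induction_on' with
  | monomial β b =>
    rw [B_monomial, coeff_monomial, coeff_monomial]
    by_cases h : α = β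
    · subst h; simp; ring
    · rw [if_neg h, if_neg (Ne.symm h)]; simp
  | add p q hp hq =>
    rw [map_add, LinearMap.add_apply, hp, hq, coeff_add]
    ring

theorem B_symm (A f : R3) : B A f = B f A := by
  induction A using MvPolynomial.induction_on' with
  | monomial β b => rw [B_monomial, B_monomial_right]
  | add p q hp hq => rw [map_add, LinearMap.add_apply, hp, hq, map_add]

theorem B_C_mul_left (c : ℂ) (A f : R3) : B (C c * A) f = c * B A f := by
  rw [← smul_eq_C_mul, map_smul, LinearMap.smul_apply, smul_eq_mul]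

theorem B_C_mul_right (c : ℂ) (A f : R3) : B A (C c * f) = c * B A f := by
  rw [← smul_eq_C_mul, map_smul, smul_eq_mul]

theorem B_X_mul (i : Fin 3) (A f : R3) : B (X i * A) f = B A (pderiv i f) := by
  induction A using MvPolynomial.induction_on' with
  | monomial β b =>
    rw [B_monomial, coeff_pderiv, X, monomial_mul, B_monomial, one_mul, add_comm _ β,
      wt_add_single]
    push_cast
    ring
  | add p q hp hq => rw [mul_add, map_add, LinearMap.add_apply, hp, hq, map_add,
      LinearMap.add_apply]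

/-- derivative in direction `v` -/
noncomputable def dir (v : V3) : Derivation ℂ R3 R3 := ∑ i, v i • pderiv i

theorem dir_apply (v : V3) (f : R3) : dir v f = ∑ i, C (v i) * pderiv i f := by
  simp [dir, Fin.sum_univ_three, smul_eq_C_mul]

theorem B_lin_mul (v : V3) (A f : R3) : B (lin v * A) f = B A (dir v f) := by
  rw [dir_apply, map_sum, lin, Finset.sum_mul, map_sum, LinearMap.sum_apply]
  refine Finset.sum_congr rfl (fun i _ => ?_)
  rw [mul_assoc, B_C_mul_left, B_X_mul, B_C_mul_right]

theorem B_lin_pow_mul (v : V3) (n : ℕ) (A f : R3) :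
    B (lin v ^ n * A) f = B A ((dir v)^[n] f) := by
  induction n generalizing f with
  | zero => simp
  | succ n ih => rw [pow_succ', mul_assoc, B_lin_mul, ih, Function.iterate_succ_apply]

theorem dir_isHomogeneous (v : V3) {f : R3} {n : ℕ} (hf : f.IsHomogeneous n) :
    (dir v f).IsHomogeneous (n - 1) := by
  rw [dir_apply]
  apply IsHomogeneous.sum
  intro i _
  exact (hf.pderiv).C_mul _

theorem dir_iterate_isHomogeneous (v : V3) (k : ℕ) {f : R3} {n : ℕ} (hf : f.IsHomogeneous n) :
    ((dir v)^[k] f).IsHomogeneous (n - k) := by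
  induction k generalizing f n with
  | zero => simpa using hf
  | succ k ih =>
    rw [Function.iterate_succ_apply]
    have := ih (dir_isHomogeneous v hf)
    rwa [Nat.sub_sub, add_comm] at this

theorem dir_lin (v w : V3) : dir v (lin w) = C (eval v (lin w)) := by
  rw [dir_apply, eval_lin, map_sum]
  refine Finset.sum_congr rfl (fun i _ => ?_)
  rw [pderiv_lin, ← map_mul, mul_comm]

theorem dir_C (v : V3) (c : ℂ) : dir v (C c) = 0 := by
  rw [dir_apply]; simp

theorem dir_mul (v : V3) (f g : R3) : dir v (f * g) = dir v f * g + f * dir v g := by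
  rw [Derivation.leibniz, smul_eq_mul, smul_eq_mul]
  ring

theorem dir_C_mul (v : V3) (c : ℂ) (g : R3) : dir v (C c * g) = C c * dir v g := by
  rw [dir_mul, dir_C, zero_mul, zero_add]

theorem dir_pow (v : V3) (f : R3) (n : ℕ) : dir v (f ^ n) = C (n : ℂ) * (f ^ (n - 1) * dir v f) := by
  rw [Derivation.leibniz_pow, smul_eq_mul, nsmul_eq_mul, map_natCast]

theorem eval_dir_self {f : R3} {n : ℕ} (hf : f.IsHomogeneous n) (a : V3) :
    eval a (dir a f) = n * eval a f := by
  have h := congrArg (eval a) hf.sum_X_mul_pderiv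
  rw [map_sum] at h
  rw [dir_apply, map_sum]
  simp only [map_mul, eval_X, eval_C, nsmul_eq_mul, map_natCast] at h ⊢
  exact h

theorem B_one_C (c : ℂ) : B 1 (C c) = c := by
  have : (1 : R3) = monomial 0 1 := rfl
  rw [this, B_monomial]
  simp [wt]

theorem B_lin_pow {f : R3} {n : ℕ} (hf : f.IsHomogeneous n) (a : V3) :
    B (lin a ^ n) f = n.factorial * eval a f := by
  induction n generalizing f with
  | zero =>
    have h0 : f = C (coeff 0 f) := by
      have := (MvPolynomial.totalDegree_eq_zero_iff_eq_C).mp (Nat.le_zero.mp hf.totalDegree_le)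
      exact this
    rw [h0, pow_zero, B_one_C]
    simp
  | succ n ih =>
    have h1 : (dir a f).IsHomogeneous n := by
      simpa using dir_isHomogeneous a hf
    rw [pow_succ', B_lin_mul, ih h1, eval_dir_self hf, Nat.factorial_succ]
    push_cast
    ring

theorem D_B (D : Derivation ℚ ℂ ℂ) (A f : R3) : D (B A f) = B (cD D A) f + B A (cD D f) := by
  induction A using MvPolynomial.induction_on' with
  | monomial β b =>
    rw [cD_monomial, B_monomial, B_monomial, B_monomial, Derivation.leibniz, Derivation.leibniz,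
      coeff_cD, Derivation.map_natCast]
    simp only [smul_eq_mul]
    ring
  | add p q hp hq =>
    simp only [map_add, LinearMap.add_apply, hp, hq]
    ring

/-- nondegeneracy -/
theorem eq_zero_of_B_right {f : R3} {n : ℕ} (hf : f.IsHomogeneous n)
    (h : ∀ A : R3, A.IsHomogeneous n → B A f = 0) : f = 0 := by
  ext α
  rw [coeff_zero]
  by_contra hc
  have h1 := hf hc
  have h2 := h (monomial α 1) (by
    apply isHomogeneous_monomial
    rw [← h1, Finsupp.degree_eq_weight_one]; rfl)
  rw [B_monomial, one_mul] at h2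
  rcases mul_eq_zero.mp h2 with h3 | h3
  · exact wt_ne_zero α h3
  · exact hc h3

theorem eq_zero_of_B_left {A : R3} {n : ℕ} (hA : A.IsHomogeneous n)
    (h : ∀ f : R3, f.IsHomogeneous n → B A f = 0) : A = 0 :=
  eq_zero_of_B_right hA (fun f hf => by rw [B_symm]; exact h f hf)

end Pool.Agent.Work.MP_0421d9_ag
end

section
/-!
Taylor components of forms via the apolarity pairing.
-/

namespace Pool.Agent.Work.MP_0421d9_ag

open MvPolynomial

theorem eval_translate (a y : V3) (F : R3) : eval y (translate a F) = eval (a + y) F := by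
  unfold translate
  induction F using MvPolynomial.induction_on with
  | C c => rw [eval_C, ← algebraMap_eq, AlgHom.commutes, algebraMap_eq, eval_C]
  | add p q hp hq => rw [map_add, map_add, map_add, hp, hq]
  | mul_X p n hp =>
    rw [map_mul, map_mul, map_mul, hp, aeval_X, map_add, eval_C, eval_X, eval_X, Pi.add_apply]

theorem lin_isHomogeneous_pow (a : V3) (n : ℕ) : (lin a ^ n).IsHomogeneous n := by
  have := (lin_isHomogeneous a).pow n
  simpa using this

/-- Taylor expansion of a form -/
theorem translate_eq {F : R3} {d : ℕ} (hF : F.IsHomogeneous d) (a : V3) :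
    translate a F = ∑ n ∈ Finset.range (d + 1), C ((n.factorial : ℂ)⁻¹) * (dir a)^[n] F := by
  apply MvPolynomial.funext
  intro y
  rw [eval_translate, map_sum]
  have h1 : (d.factorial : ℂ) * eval (a + y) F =
      ∑ n ∈ Finset.range (d + 1), (d.factorial : ℂ) * ((n.factorial : ℂ)⁻¹ *
        eval y ((dir a)^[n] F)) := by
    rw [← B_lin_pow hF, lin_add, add_pow, map_sum, LinearMap.sum_apply]
    refine Finset.sum_congr rfl (fun n hn => ?_)
    have hn' : n ≤ d := Nat.lt_succ_iff.mp (Finset.mem_range.mp hn)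
    have h2 : ((d.choose n : ℕ) : R3) = C (d.choose n : ℂ) := by simp
    rw [h2, mul_comm _ (C _), B_C_mul_left, B_lin_pow_mul,
      B_lin_pow (dir_iterate_isHomogeneous a n hF)]
    have h3 : (d.choose n : ℂ) * n.factorial * (d - n).factorial = d.factorial := by
      exact_mod_cast Nat.choose_mul_factorial_mul_factorial hn'
    have h4 : (n.factorial : ℂ) ≠ 0 := by exact_mod_cast Nat.factorial_ne_zero n
    rw [← h3]
    field_simp
  rw [← Finset.mul_sum] at h1
  have h5 : (d.factorial : ℂ) ≠ 0 := by exact_mod_cast Nat.factorial_ne_zero d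
  rw [mul_left_cancel₀ h5 h1]
  refine Finset.sum_congr rfl (fun n _ => ?_)
  rw [map_mul, eval_C]

theorem taylor_component {F : R3} {d : ℕ} (hF : F.IsHomogeneous d) (a : V3) {k : ℕ} (hk : k ≤ d) :
    homogeneousComponent k (translate a F) = C (((d - k).factorial : ℂ)⁻¹) *
      (dir a)^[d - k] F := by
  rw [translate_eq hF, map_sum, Finset.sum_eq_single (d - k)]
  · rw [homogeneousComponent_C_mul]
    congr 1
    apply homogeneousComponent_eq_self
    have := dir_iterate_isHomogeneous a (d - k) hF
    rwa [Nat.sub_sub_self hk] at this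
  · intro n hn hne
    rw [homogeneousComponent_C_mul, homogeneousComponent_of_mem
      (dir_iterate_isHomogeneous a n hF), if_neg, mul_zero]
    have hn' : n ≤ d := Nat.lt_succ_iff.mp (Finset.mem_range.mp hn)
    omega
  · intro h
    exact absurd (Finset.mem_range.mpr (by omega)) h

theorem taylor_component_gt {F : R3} {d : ℕ} (hF : F.IsHomogeneous d) (a : V3) {k : ℕ}
    (hk : d < k) : homogeneousComponent k (translate a F) = 0 := by
  rw [translate_eq hF, map_sum]
  refine Finset.sum_eq_zero (fun n _ => ?_)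
  rw [homogeneousComponent_C_mul, homogeneousComponent_of_mem
      (dir_iterate_isHomogeneous a n hF), if_neg, mul_zero]
  omega

/-- forms of degree `m - 1` (zero if `m = 0`) -/
noncomputable def Hm : ℕ → Submodule ℂ R3
  | 0 => ⊥
  | n + 1 => homogeneousSubmodule (Fin 3) ℂ n

theorem mem_Hm_succ {n : ℕ} {G : R3} : G ∈ Hm (n + 1) ↔ G.IsHomogeneous n := Iff.rfl

theorem mem_Hm_zero {G : R3} : G ∈ Hm 0 ↔ G = 0 := Submodule.mem_bot ℂ

theorem cD_mem_Hm (D : Derivation ℚ ℂ ℂ) {m : ℕ} {G : R3} (h : G ∈ Hm m) : cD D G ∈ Hm m := by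
  cases m with
  | zero => rw [mem_Hm_zero] at *; rw [h, map_zero]
  | succ n => exact cD_isHomogeneous D h

theorem VanishTo.mono {F : R3} {a : V3} {m n : ℕ} (h : VanishTo F a m) (hn : n ≤ m) :
    VanishTo F a n := fun k hk => h k (hk.trans_le hn)

theorem vanishTo_iff {F : R3} {d : ℕ} (hF : F.IsHomogeneous d) (a : V3) {m : ℕ} (hm : m ≤ d + 1) :
    VanishTo F a m ↔ ∀ G ∈ Hm m, B (lin a ^ (d + 1 - m) * G) F = 0 := by
  cases m with
  | zero =>
    constructor
    · intro _ G hG
      rw [mem_Hm_zero] at hG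
      rw [hG, mul_zero, map_zero, LinearMap.zero_apply]
    · intro _ k hk
      omega
  | succ n =>
    have hn : n ≤ d := by omega
    have hdn : d + 1 - (n + 1) = d - n := by omega
    rw [hdn]
    have hfac : ∀ k : ℕ, ((k.factorial : ℂ)⁻¹) ≠ 0 := fun k =>
      inv_ne_zero (by exact_mod_cast Nat.factorial_ne_zero k)
    constructor
    · intro h G hG
      have h1 := h n (by omega)
      rw [taylor_component hF a hn] at h1
      rw [B_lin_pow_mul]
      rcases mul_eq_zero.mp h1 with h2 | h2
      · exfalso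
        rw [C_eq_zero] at h2
        exact hfac _ h2
      · rw [h2, map_zero]
    · intro h k hk
      rw [taylor_component hF a (by omega : k ≤ d)]
      have h1 : (dir a)^[d - k] F = 0 := by
        have hh := dir_iterate_isHomogeneous a (d - k) hF
        rw [Nat.sub_sub_self (by omega : k ≤ d)] at hh
        apply eq_zero_of_B_right hh
        intro G hG
        rw [← B_lin_pow_mul]
        have h2 : lin a ^ (d - k) * G = lin a ^ (d - n) * (lin a ^ (n - k) * G) := by
          rw [← mul_assoc, ← pow_add]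
          congr 2
          omega
        rw [h2]
        apply h
        rw [mem_Hm_succ]
        have := (lin_isHomogeneous_pow a (n - k)).mul hG
        rwa [Nat.sub_add_cancel (by omega : k ≤ n)] at this
      rw [h1, mul_zero]

theorem eq_zero_of_vanishTo {F : R3} {d : ℕ} (hF : F.IsHomogeneous d) {a : V3} {m : ℕ}
    (hm : d < m) (h : VanishTo F a m) : F = 0 := by
  have h1 := h d hm
  rw [taylor_component hF a le_rfl] at h1
  simpa using h1

/-- membership in a linear system for admissible multiplicities, in terms of the pairing -/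
theorem mem_linSys_iff {ι : Type} {d : ℕ} {p : ι → V3} {m : ι → ℕ} (hm : ∀ i, m i ≤ d + 1)
    {F : R3} : F ∈ linSys d p m ↔ F.IsHomogeneous d ∧ ∀ i, ∀ G ∈ Hm (m i),
      B (lin (p i) ^ (d + 1 - m i) * G) F = 0 := by
  constructor
  · rintro ⟨h1, h2⟩
    exact ⟨h1, fun i => (vanishTo_iff h1 _ (hm i)).mp (h2 i)⟩
  · rintro ⟨h1, h2⟩
    exact ⟨h1, fun i => (vanishTo_iff h1 _ (hm i)).mpr (h2 i)⟩

end Pool.Agent.Work.MP_0421d9_ag
end

section
/-!
Duality between linear systems and inverse systems.
-/

namespace Pool.Agent.Work.MP_0421d9_ag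

open MvPolynomial Module

section

/-- forms of degree `d` -/
noncomputable abbrev Rd (d : ℕ) : Submodule ℂ R3 := homogeneousSubmodule (Fin 3) ℂ d

instance finite_Rd (d : ℕ) : Module.Finite ℂ (Rd d) :=
  Module.Finite.iff_fg.mpr (homogeneousSubmodule_fg (Fin 3) ℂ d)

theorem finrank_Rd (d : ℕ) : finrank ℂ (Rd d) = (d + 2).choose 2 := by
  classical
  have h1 : Rd d = AddMonoidAlgebra.supported ℂ ℂ {α : Fin 3 →₀ ℕ | α.degree = d} :=
    homogeneousSubmodule_eq_finsupp_supported (Fin 3) ℂ d
  have h2 : {α : Fin 3 →₀ ℕ | α.degree = d} = ↑((Finset.univ : Finset (Fin 3)).finsuppAntidiag d) := by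
    ext α
    rw [Finset.mem_coe, Finset.mem_finsuppAntidiag]
    change α.degree = d ↔ _
    rw [Finsupp.degree_eq_sum]
    simp
  have h3 : finrank ℂ (Rd d) =
      finrank ℂ ({α : Fin 3 →₀ ℕ | α.degree = d} →₀ ℂ) := by
    rw [h1]
    exact (AddMonoidAlgebra.supportedEquivFinsupp
      (R := ℂ) (S := ℂ) {α : Fin 3 →₀ ℕ | α.degree = d}).finrank_eq
  rw [h3, h2]
  have h4 : Fintype ((Finset.univ : Finset (Fin 3)).finsuppAntidiag d) := inferInstance
  rw [Module.finrank_finsupp_self]
  have h5 := Finset.card_finsuppAntidiag_nat_eq_choose (s := (Finset.univ : Finset (Fin 3))) d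
  rw [Finset.card_univ, Fintype.card_fin] at h5
  have h7 : 3 + d - 1 = d + 2 := by omega
  rw [h7, Nat.choose_symm_of_eq_add (rfl : d + 2 = d + 2)] at h5
  rw [← h5]
  exact Fintype.card_coe _

end

variable {ι : Type} [Fintype ι]

/-- the parametrisation of the inverse system -/
noncomputable def Psi (d : ℕ) (p : ι → V3) (m : ι → ℕ) : (ι → R3) →ₗ[ℂ] R3 :=
  ∑ i, (LinearMap.mulLeft ℂ (lin (p i) ^ (d + 1 - m i))) ∘ₗ LinearMap.proj i

theorem Psi_apply (d : ℕ) (p : ι → V3) (m : ι → ℕ) (G : ι → R3) :
    Psi d p m G = ∑ i, lin (p i) ^ (d + 1 - m i) * G i := by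
  simp [Psi]

/-- admissible families -/
noncomputable def HH (m : ι → ℕ) : Submodule ℂ (ι → R3) :=
  Submodule.pi Set.univ (fun i => Hm (m i))

omit [Fintype ι] in
theorem mem_HH {m : ι → ℕ} {G : ι → R3} : G ∈ HH m ↔ ∀ i, G i ∈ Hm (m i) := by
  simp [HH]

/-- the inverse system -/
noncomputable def J (d : ℕ) (p : ι → V3) (m : ι → ℕ) : Submodule ℂ R3 := (HH m).map (Psi d p m)

theorem mem_J {d : ℕ} {p : ι → V3} {m : ι → ℕ} {A : R3} :
    A ∈ J d p m ↔ ∃ G : ι → R3, (∀ i, G i ∈ Hm (m i)) ∧
      ∑ i, lin (p i) ^ (d + 1 - m i) * G i = A := by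
  unfold J
  rw [Submodule.mem_map]
  simp only [mem_HH, Psi_apply]

theorem summand_isHomogeneous {d m : ℕ} (hm : m ≤ d + 1) (a : V3) {G : R3} (hG : G ∈ Hm m) :
    (lin a ^ (d + 1 - m) * G).IsHomogeneous d := by
  cases m with
  | zero =>
    rw [mem_Hm_zero] at hG
    rw [hG, mul_zero]
    exact isHomogeneous_zero _ _ _
  | succ n =>
    have := (lin_isHomogeneous_pow a (d + 1 - (n + 1))).mul (mem_Hm_succ.mp hG)
    rwa [(by omega : d + 1 - (n + 1) + n = d)] at this

theorem summand_mem_J {d : ℕ} {p : ι → V3} {m : ι → ℕ} (i : ι) {G : R3} (hG : G ∈ Hm (m i)) :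
    lin (p i) ^ (d + 1 - m i) * G ∈ J d p m := by
  classical
  rw [mem_J]
  refine ⟨Pi.single i G, fun j => ?_, ?_⟩
  · by_cases h : j = i
    · subst h
      rwa [Pi.single_eq_same]
    · rw [Pi.single_eq_of_ne h]
      exact zero_mem _
  · rw [Finset.sum_eq_single i]
    · rw [Pi.single_eq_same]
    · intro j _ hj
      rw [Pi.single_eq_of_ne hj, mul_zero]
    · simp

theorem J_le {d : ℕ} {p : ι → V3} {m : ι → ℕ} (hm : ∀ i, m i ≤ d + 1) : J d p m ≤ Rd d := by
  intro A hA
  obtain ⟨G, hG, rfl⟩ := mem_J.mp hA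
  exact IsHomogeneous.sum _ _ _ (fun i _ => summand_isHomogeneous (hm i) _ (hG i))

theorem B_J_linSys {d : ℕ} {p : ι → V3} {m : ι → ℕ} (hm : ∀ i, m i ≤ d + 1) {A F : R3}
    (hA : A ∈ J d p m) (hF : F ∈ linSys d p m) : B A F = 0 := by
  obtain ⟨G, hG, rfl⟩ := mem_J.mp hA
  rw [map_sum, LinearMap.sum_apply]
  exact Finset.sum_eq_zero (fun i _ => ((mem_linSys_iff hm).mp hF).2 i (G i) (hG i))

/-- the restricted pairing -/
noncomputable def Bd (d : ℕ) : LinearMap.BilinForm ℂ (Rd d) := LinearMap.BilinForm.restrict B (Rd d)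

theorem Bd_apply (d : ℕ) (A f : Rd d) : Bd d A f = B A.1 f.1 := rfl

theorem Bd_nondegenerate (d : ℕ) : (Bd d).Nondegenerate := by
  constructor
  · intro A h
    apply Subtype.ext
    exact eq_zero_of_B_left A.2 (fun f hf => h ⟨f, hf⟩)
  · intro f h
    apply Subtype.ext
    exact eq_zero_of_B_right f.2 (fun A hA => h ⟨A, hA⟩)

theorem Bd_isRefl (d : ℕ) : (Bd d).IsRefl := by
  intro A f h
  rw [Bd_apply, B_symm]
  exact h

omit [Fintype ι] in
theorem linSys_le (d : ℕ) (p : ι → V3) (m : ι → ℕ) : linSys d p m ≤ Rd d := fun _ hF => hF.1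

theorem orthogonal_J {d : ℕ} {p : ι → V3} {m : ι → ℕ} (hm : ∀ i, m i ≤ d + 1) :
    (Bd d).orthogonal ((J d p m).comap (Rd d).subtype) =
      (linSys d p m).comap (Rd d).subtype := by
  ext f
  rw [LinearMap.BilinForm.mem_orthogonal_iff, Submodule.mem_comap]
  constructor
  · intro h
    rw [mem_linSys_iff hm]
    refine ⟨f.2, fun i G hG => ?_⟩
    exact h ⟨_, summand_isHomogeneous (hm i) (p i) hG⟩ (summand_mem_J i hG)
  · intro h A hA
    exact B_J_linSys hm hA h

/-- duality: a form killing the linear system lies in the inverse system -/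
theorem mem_J_of_B {d : ℕ} {p : ι → V3} {m : ι → ℕ} (hm : ∀ i, m i ≤ d + 1) {A : R3}
    (hA : A.IsHomogeneous d) (h : ∀ F ∈ linSys d p m, B A F = 0) : A ∈ J d p m := by
  have h1 := LinearMap.BilinForm.orthogonal_orthogonal (Bd_nondegenerate d) (Bd_isRefl d)
    ((J d p m).comap (Rd d).subtype)
  rw [orthogonal_J hm] at h1
  have h2 : (⟨A, hA⟩ : Rd d) ∈ (J d p m).comap (Rd d).subtype := by
    rw [← h1, LinearMap.BilinForm.mem_orthogonal_iff]
    intro F hF
    change B F.1 A = 0
    rw [B_symm]
    exact h F.1 hF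
  exact h2

theorem finrank_linSys_add {d : ℕ} {p : ι → V3} {m : ι → ℕ} (hm : ∀ i, m i ≤ d + 1) :
    finrank ℂ (linSys d p m) + finrank ℂ (J d p m) = (d + 2).choose 2 := by
  have h1 := LinearMap.BilinForm.finrank_orthogonal (Bd_nondegenerate d)
    ((J d p m).comap (Rd d).subtype)
  rw [orthogonal_J hm, finrank_Rd] at h1
  have h2 : finrank ℂ ((J d p m).comap (Rd d).subtype) = finrank ℂ (J d p m) :=
    (Submodule.comapSubtypeEquivOfLe (J_le hm)).finrank_eq
  have h3 : finrank ℂ ((linSys d p m).comap (Rd d).subtype) = finrank ℂ (linSys d p m) :=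
    (Submodule.comapSubtypeEquivOfLe (linSys_le d p m)).finrank_eq
  have h4 : finrank ℂ ((J d p m).comap (Rd d).subtype) ≤ (d + 2).choose 2 := by
    rw [← finrank_Rd]
    exact Submodule.finrank_le _
  omega

theorem finrank_Hm (m : ℕ) : finrank ℂ (Hm m) = (m + 1).choose 2 := by
  cases m with
  | zero => exact finrank_bot _ _
  | succ n => exact finrank_Rd n

instance finite_Hm (m : ℕ) : Module.Finite ℂ (Hm m) := by
  cases m with
  | zero =>
    change Module.Finite ℂ (⊥ : Submodule ℂ R3)
    infer_instance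
  | succ n => exact finite_Rd n

end Pool.Agent.Work.MP_0421d9_ag
end

section
/-!
Derivations moving the points, and their effect on linear systems.
-/

namespace Pool.Agent.Work.MP_0421d9_ag

open MvPolynomial Module

theorem cD_lin_pow_of_fixed {D : Derivation ℚ ℂ ℂ} {a : V3} (hD : ∀ l, D (a l) = 0) (n : ℕ) :
    cD D (lin a ^ n) = 0 := by
  have h : (fun i => D (a i)) = 0 := funext hD
  rw [cD_pow, cD_lin, h, lin_zero, mul_zero, mul_zero]

theorem vanishTo_cD_fixed {D : Derivation ℚ ℂ ℂ} {a : V3} (hD : ∀ l, D (a l) = 0) {F : R3}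
    {d m : ℕ} (hF : F.IsHomogeneous d) (hm : m ≤ d + 1) (h : VanishTo F a m) :
    VanishTo (cD D F) a m := by
  rw [vanishTo_iff hF a hm] at h
  rw [vanishTo_iff (cD_isHomogeneous D hF) a hm]
  intro G hG
  have h1 := D_B D (lin a ^ (d + 1 - m) * G) F
  rw [h G hG, map_zero, cD_mul, cD_lin_pow_of_fixed hD, zero_mul, zero_add,
    h _ (cD_mem_Hm D hG), zero_add] at h1
  exact h1.symm

theorem mul_mem_Hm_succ {A G : R3} {m n : ℕ} (hA : A.IsHomogeneous n) (hG : G ∈ Hm m) :
    A * G ∈ Hm (m + n) := by
  cases m with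
  | zero =>
    rw [mem_Hm_zero] at hG
    rw [hG, mul_zero]
    exact zero_mem _
  | succ k =>
    have h : A * G ∈ Hm (k + n + 1) := by
      rw [mem_Hm_succ, add_comm k n]
      exact hA.mul hG
    rwa [(by ring : k + 1 + n = k + n + 1)]

theorem vanishTo_cD (D : Derivation ℚ ℂ ℂ) {a : V3} {F : R3}
    {d m : ℕ} (hF : F.IsHomogeneous d) (hm : m ≤ d + 1) (h : VanishTo F a m) :
    VanishTo (cD D F) a (m - 1) := by
  cases m with
  | zero => intro k hk; omega
  | succ m =>
    rw [vanishTo_iff hF a hm] at h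
    rw [vanishTo_iff (cD_isHomogeneous D hF) a (by omega)]
    rw [Nat.add_sub_cancel]
    intro G hG
    have h1 := D_B D (lin a ^ (d + 1 - m) * G) F
    have e1 : d + 1 - m = d + 1 - (m + 1) + 1 := by omega
    have h2 : B (lin a ^ (d + 1 - m) * G) F = 0 := by
      rw [e1, pow_succ, mul_assoc]
      exact h _ (mul_mem_Hm_succ (lin_isHomogeneous a) hG)
    have h3 : B (cD D (lin a ^ (d + 1 - m) * G)) F = 0 := by
      rw [cD_mul, cD_pow, map_add, LinearMap.add_apply]
      have h4 : B (C ((d + 1 - m : ℕ) : ℂ) * (lin a ^ (d + 1 - m - 1) * cD D (lin a)) * G) F = 0 := by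
        rw [mul_assoc, B_C_mul_left, cD_lin, mul_assoc, (by omega : d + 1 - m - 1 = d + 1 - (m + 1)),
          h _ (mul_mem_Hm_succ (lin_isHomogeneous _) hG), mul_zero]
      have h5 : B (lin a ^ (d + 1 - m) * cD D G) F = 0 := by
        rw [e1, pow_succ, mul_assoc]
        exact h _ (mul_mem_Hm_succ (lin_isHomogeneous a) (cD_mem_Hm D hG))
      rw [h4, h5, add_zero]
    rw [h2, map_zero, h3, zero_add] at h1
    exact h1.symm

theorem isHomogeneous_succ_sum {G : R3} {n : ℕ} (hG : G.IsHomogeneous (n + 1)) :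
    C ((n + 1 : ℕ) : ℂ) * G = ∑ k, X k * pderiv k G := by
  rw [hG.sum_X_mul_pderiv, nsmul_eq_mul, map_natCast]

/-- Lemma Z: a space of forms stable under the derivations moving the point `a`, all of whose
members vanish at `a`, is zero. -/
theorem lemmaZ {d : ℕ} (W : Submodule ℂ R3) (hW : W ≤ Rd d) (a : V3)
    (D : Fin 3 → Derivation ℚ ℂ ℂ) (hD : ∀ k l, D k (a l) = if k = l then 1 else 0)
    (hst : ∀ k, ∀ f ∈ W, cD (D k) f ∈ W) (hv : ∀ f ∈ W, eval a f = 0) : W = ⊥ := by
  have key : ∀ n ≤ d, ∀ f ∈ W, ∀ G : R3, G.IsHomogeneous n → B (lin a ^ (d - n) * G) f = 0 := by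
    intro n
    induction n with
    | zero =>
      intro _ f hf G hG
      have h0 : G = C (coeff 0 G) :=
        (MvPolynomial.totalDegree_eq_zero_iff_eq_C).mp (Nat.le_zero.mp hG.totalDegree_le)
      rw [h0, mul_comm, B_C_mul_left, Nat.sub_zero, B_lin_pow (hW hf), hv f hf]
      simp
    | succ n ih =>
      intro hn f hf G hG
      have hn' : n ≤ d := by omega
      have h1 : ∀ k, B (lin a ^ (d - (n + 1)) * (X k * pderiv k G)) f = 0 := by
        intro k
        have hG' : (pderiv k G).IsHomogeneous n := by simpa using hG.pderiv (i := k)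
        have h2 := D_B (D k) (lin a ^ (d - n) * pderiv k G) f
        rw [ih hn' f hf _ hG', map_zero, ih hn' _ (hst k f hf) _ hG', add_zero, cD_mul, map_add,
          LinearMap.add_apply, ih hn' f hf _ (cD_isHomogeneous (D k) hG'), add_zero, cD_pow,
          cD_lin] at h2
        have h3 : lin (fun i => D k (a i)) = X k := by
          unfold lin
          rw [Finset.sum_eq_single k]
          · beta_reduce
            rw [hD, if_pos rfl, C_1, one_mul]
          · intro j _ hj
            beta_reduce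
            rw [hD, if_neg (Ne.symm hj), C_0, zero_mul]
          · simp
        rw [h3, mul_assoc, B_C_mul_left, mul_assoc] at h2
        have h4 : ((d - n : ℕ) : ℂ) ≠ 0 := by
          rw [Nat.cast_ne_zero]; omega
        have h5 := (mul_eq_zero.mp h2.symm).resolve_left h4
        rwa [(by omega : d - n - 1 = d - (n + 1))] at h5
      have h6 : B (C ((n + 1 : ℕ) : ℂ) * (lin a ^ (d - (n + 1)) * G)) f = 0 := by
        have : C ((n + 1 : ℕ) : ℂ) * (lin a ^ (d - (n + 1)) * G) =
            lin a ^ (d - (n + 1)) * ∑ k, X k * pderiv k G := by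
          rw [← isHomogeneous_succ_sum hG]
          ring
        rw [this, Finset.mul_sum, map_sum, LinearMap.sum_apply]
        exact Finset.sum_eq_zero (fun k _ => h1 k)
      rw [B_C_mul_left] at h6
      have h7 : ((n + 1 : ℕ) : ℂ) ≠ 0 := by
        rw [Nat.cast_ne_zero]; omega
      exact (mul_eq_zero.mp h6).resolve_left h7
  rw [Submodule.eq_bot_iff]
  intro f hf
  apply eq_zero_of_B_right (hW hf)
  intro A hA
  have := key d le_rfl f hf A hA
  rwa [Nat.sub_self, pow_zero, one_mul] at this

section dual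

variable {ι : Type} [DecidableEq ι]

/-- the derivations `E x k` are dual to the coordinates of the points -/
def IsDual (P : ι → V3) (E : ι → Fin 3 → Derivation ℚ ℂ ℂ) : Prop :=
  ∀ x k y l, E x k (P y l) = if x = y ∧ k = l then 1 else 0

theorem exists_dual (P : ι → V3) (hP : AlgebraicIndependent ℚ (fun z : ι × Fin 3 => P z.1 z.2)) :
    ∃ E, IsDual P E := by
  classical
  have h : ∀ x : ι × Fin 3, ∃ D : Derivation ℚ ℂ ℂ, ∀ y : ι × Fin 3,
      D (P y.1 y.2) = if x = y then 1 else 0 :=
    fun x => exists_derivation (fun z : ι × Fin 3 => P z.1 z.2) hP (fun y => if x = y then 1 else 0)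
  choose D hD using h
  refine ⟨fun x k => D (x, k), fun x k y l => ?_⟩
  rw [hD (x, k) (y, l)]
  simp only [Prod.mk.injEq]

/-- the derivation moving the point `x` in direction `v` -/
noncomputable def mv (E : ι → Fin 3 → Derivation ℚ ℂ ℂ) (x : ι) (v : V3) : Derivation ℚ ℂ ℂ :=
  v 0 • E x 0 + v 1 • E x 1 + v 2 • E x 2

theorem mv_self {P : ι → V3} {E : ι → Fin 3 → Derivation ℚ ℂ ℂ} (hE : IsDual P E) (x : ι) (v : V3)
    (l : Fin 3) : mv E x v (P x l) = v l := by
  unfold mv
  simp only [Derivation.add_apply, Derivation.smul_apply, hE x, smul_eq_mul, true_and]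
  fin_cases l <;> simp

theorem mv_ne {P : ι → V3} {E : ι → Fin 3 → Derivation ℚ ℂ ℂ} (hE : IsDual P E) {x y : ι}
    (h : y ≠ x) (v : V3) (l : Fin 3) : mv E x v (P y l) = 0 := by
  unfold mv
  simp only [Derivation.add_apply, Derivation.smul_apply, hE x, smul_eq_mul]
  simp [h.symm]

omit [DecidableEq ι] in
theorem mv_add (E : ι → Fin 3 → Derivation ℚ ℂ ℂ) (x : ι) (v w : V3) (a : ℂ) :
    mv E x (v + w) a = mv E x v a + mv E x w a := by
  unfold mv
  simp only [Derivation.add_apply, Derivation.smul_apply, smul_eq_mul, Pi.add_apply]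
  ring

omit [DecidableEq ι] in
theorem mv_smul (E : ι → Fin 3 → Derivation ℚ ℂ ℂ) (x : ι) (c : ℂ) (v : V3) (a : ℂ) :
    mv E x (c • v) a = c * mv E x v a := by
  unfold mv
  simp only [Derivation.add_apply, Derivation.smul_apply, smul_eq_mul, Pi.smul_apply]
  ring

theorem cD_lin_self {P : ι → V3} {E : ι → Fin 3 → Derivation ℚ ℂ ℂ} (hE : IsDual P E) (x : ι)
    (v : V3) : cD (mv E x v) (lin (P x)) = lin v := by
  rw [cD_lin]
  congr 1
  funext l
  exact mv_self hE x v l

theorem cD_lin_pow_ne {P : ι → V3} {E : ι → Fin 3 → Derivation ℚ ℂ ℂ} (hE : IsDual P E) {x y : ι}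
    (h : y ≠ x) (v : V3) (n : ℕ) : cD (mv E x v) (lin (P y) ^ n) = 0 :=
  cD_lin_pow_of_fixed (fun l => mv_ne hE h v l) n

end dual

theorem linSys_cD_mem {ι : Type} {P : ι → V3} {M : ι → ℕ} {d : ℕ} (hM : ∀ i, M i ≤ d + 1)
    {D : Derivation ℚ ℂ ℂ} {F : R3} (hF : F ∈ linSys d P M)
    (hD : ∀ i, (∀ l, D (P i l) = 0) ∨ VanishTo (cD D F) (P i) (M i)) :
    cD D F ∈ linSys d P M := by
  refine ⟨cD_isHomogeneous D hF.1, fun i => ?_⟩
  rcases hD i with h | h
  · exact vanishTo_cD_fixed h hF.1 (hM i) (hF.2 i)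
  · exact h

/-- the unique member of a rigid generic system has multiplicity exactly `M x` at `P x` -/
theorem not_vanishTo_succ {ι : Type} [DecidableEq ι] {P : ι → V3}
    {E : ι → Fin 3 → Derivation ℚ ℂ ℂ} (hE : IsDual P E) {M : ι → ℕ} {d : ℕ}
    (hM : ∀ i, M i ≤ d) {F : R3} (hF : F ∈ linSys d P M) (hF0 : F ≠ 0)
    (huniq : ∀ f ∈ linSys d P M, ∃ c : ℂ, f = C c * F) (x : ι) :
    ¬ VanishTo F (P x) (M x + 1) := by
  intro hx
  have h1 : ∀ k, ∃ c : ℂ, cD (E x k) F = C c * F := by
    intro k
    apply huniq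
    apply linSys_cD_mem (fun i => (hM i).trans (Nat.le_succ d)) hF
    intro i
    by_cases h : i = x
    · right
      subst h
      have := vanishTo_cD (E i k) hF.1 (by have := hM i; omega) hx
      rwa [Nat.add_sub_cancel] at this
    · left
      intro l
      rw [hE x k i l, if_neg]
      rintro ⟨h', -⟩
      exact h h'.symm
  have h2 : Submodule.span ℂ {F} = ⊥ := by
    apply lemmaZ (d := d) _ _ (P x) (E x)
    · intro k l
      rw [hE x k x l]
      simp
    · intro k f hf
      obtain ⟨c, rfl⟩ := Submodule.mem_span_singleton.mp hf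
      obtain ⟨c', hc'⟩ := h1 k
      rw [cD_smul, hc', ← smul_eq_C_mul, smul_smul, ← add_smul]
      exact Submodule.smul_mem _ _ (Submodule.mem_span_singleton_self F)
    · intro f hf
      obtain ⟨c, rfl⟩ := Submodule.mem_span_singleton.mp hf
      rw [smul_eval]
      have h3 := (vanishTo_iff hF.1 (P x) (by have := hM x; omega)).mp
        (hx.mono (by omega : 1 ≤ M x + 1)) 1 (by
          change (1 : R3) ∈ Hm (0 + 1)
          rw [mem_Hm_succ]
          exact isHomogeneous_one _ _)
      rw [mul_one, Nat.add_sub_cancel, B_lin_pow hF.1] at h3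
      have h4 : (d.factorial : ℂ) ≠ 0 := by exact_mod_cast Nat.factorial_ne_zero d
      rw [(mul_eq_zero.mp h3).resolve_left h4, mul_zero]
    · rw [Submodule.span_le, Set.singleton_subset_iff]
      exact hF.1
  rw [Submodule.span_singleton_eq_bot] at h2
  exact hF0 h2

end Pool.Agent.Work.MP_0421d9_ag
end

section
/-!
A singular point of a squarefree form with coefficients killed (up to a factor) by a derivation is
constant, up to scaling, under this derivation.
-/

namespace Pool.Agent.Work.MP_0421d9_ag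

open MvPolynomial

section Bezout

open Polynomial in
theorem exists_const_of_irreducible {A : Type} [CommRing A] [IsDomain A]
    [UniqueFactorizationMonoid A] (p g : A[X]) (hp : Irreducible p) (hg : ¬ p ∣ g) :
    ∃ (u v : A[X]) (c : A), c ≠ 0 ∧ u * p + v * g = Polynomial.C c := by
  by_cases h0 : p.natDegree = 0
  · refine ⟨1, 0, p.coeff 0, ?_, ?_⟩
    · intro h
      rw [natDegree_eq_zero] at h0
      obtain ⟨c, rfl⟩ := h0
      rw [coeff_C_zero] at h
      rw [h, Polynomial.C_0] at hp
      exact hp.ne_zero rfl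
    · rw [one_mul, zero_mul, add_zero]
      exact eq_C_of_natDegree_eq_zero h0
  · have hprim : p.IsPrimitive := hp.isPrimitive h0
    let K := FractionRing A
    let _ : NormalizedGCDMonoid A := Nonempty.some inferInstance
    have h1 : Irreducible (p.map (algebraMap A K)) :=
      (hprim.irreducible_iff_irreducible_map_fraction_map).mp hp
    have h2 : ¬ p.map (algebraMap A K) ∣ g.map (algebraMap A K) := fun h =>
      hg ((hprim.dvd_iff_fraction_map_dvd_fraction_map K).mpr h)
    have h3 : IsCoprime (p.map (algebraMap A K)) (g.map (algebraMap A K)) :=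
      (h1.coprime_iff_not_dvd).mpr h2
    have h4 : resultant (p.map (algebraMap A K)) (g.map (algebraMap A K)) ≠ 0 := by
      intro h
      rw [resultant_eq_zero_iff] at h
      exact h.2 h3
    have hinj : Function.Injective (algebraMap A K) := IsFractionRing.injective A K
    rw [natDegree_map_eq_of_injective hinj, natDegree_map_eq_of_injective hinj,
      resultant_map_map] at h4
    have h5 : resultant p g ≠ 0 := by
      intro h
      apply h4
      rw [h, map_zero]
    obtain ⟨u, v, -, -, huv⟩ := exists_mul_add_mul_eq_C_resultant p g le_rfl le_rfl (Or.inl h0)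
    exact ⟨u, v, resultant p g, h5, by rw [← huv]; ring⟩

end Bezout

section Coordinates

theorem pderiv_rename_of_notMem {g : Fin 2 → Fin 3} {k : Fin 3} (hk : ∀ i, g i ≠ k)
    (c : MvPolynomial (Fin 2) ℂ) : pderiv k (rename g c) = 0 := by
  induction c using MvPolynomial.induction_on with
  | C c => rw [rename_C, pderiv_C]
  | add p q hp hq => rw [map_add, map_add, hp, hq, add_zero]
  | mul_X p n hp =>
    rw [map_mul, rename_X, Derivation.leibniz, hp, pderiv_X_of_ne (hk n)]
    simp

theorem finSuccEquiv_rename_succ (c : MvPolynomial (Fin 2) ℂ) :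
    finSuccEquiv ℂ 2 (rename Fin.succ c) = Polynomial.C c := by
  induction c using MvPolynomial.induction_on with
  | C c =>
    rw [rename_C, ← algebraMap_eq, AlgEquiv.commutes]
    rfl
  | add p q hp hq => rw [map_add, map_add, hp, hq, map_add]
  | mul_X p n hp =>
    rw [map_mul, rename_X, map_mul, hp, finSuccEquiv_X_succ, map_mul]

/-- the ring of ternary polynomials as polynomials in the variable `k` -/
noncomputable def Phi (k : Fin 3) : R3 ≃ₐ[ℂ] Polynomial (MvPolynomial (Fin 2) ℂ) :=
  (renameEquiv ℂ (Equiv.swap 0 k)).trans (finSuccEquiv ℂ 2)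

theorem Phi_symm_C (k : Fin 3) (c : MvPolynomial (Fin 2) ℂ) :
    (Phi k).symm (Polynomial.C c) = rename (fun i => Equiv.swap 0 k (Fin.succ i)) c := by
  rw [AlgEquiv.symm_apply_eq]
  unfold Phi
  rw [AlgEquiv.trans_apply, renameEquiv_apply, rename_rename]
  have : (⇑(Equiv.swap 0 k) ∘ fun i : Fin 2 => (Equiv.swap 0 k) (Fin.succ i)) = Fin.succ := by
    funext i
    simp
  rw [this, finSuccEquiv_rename_succ]

theorem pderiv_Phi_symm_C (k : Fin 3) (c : MvPolynomial (Fin 2) ℂ) :
    pderiv k ((Phi k).symm (Polynomial.C c)) = 0 := by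
  rw [Phi_symm_C]
  apply pderiv_rename_of_notMem
  intro i h
  have h1 : Fin.succ i = (0 : Fin 3) := by
    have h2 := congrArg (Equiv.swap 0 k) h
    rw [Equiv.swap_apply_right, Equiv.swap_apply_self] at h2
    exact h2
  exact Fin.succ_ne_zero i h1

theorem exists_elim {π h : R3} (hπ : Irreducible π) (hh : ¬ π ∣ h) (k : Fin 3) :
    ∃ u v : R3, u * π + v * h ≠ 0 ∧ pderiv k (u * π + v * h) = 0 := by
  have h1 : Irreducible (Phi k π) := (MulEquiv.irreducible_iff (Phi k)).mpr hπ
  have h2 : ¬ Phi k π ∣ Phi k h := by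
    intro h'
    exact hh ((map_dvd_iff (Phi k)).mp h')
  obtain ⟨u, v, c, hc, huv⟩ := exists_const_of_irreducible _ _ h1 h2
  have h3 : (Phi k).symm u * π + (Phi k).symm v * h = (Phi k).symm (Polynomial.C c) := by
    rw [← huv, map_add, map_mul, map_mul, AlgEquiv.symm_apply_apply, AlgEquiv.symm_apply_apply]
  refine ⟨(Phi k).symm u, (Phi k).symm v, ?_, ?_⟩
  · rw [h3]
    intro h0
    have := (Phi k).symm.injective (h0.trans (map_zero _).symm)
    exact hc (Polynomial.C_eq_zero.mp this)
  · rw [h3]
    exact pderiv_Phi_symm_C k c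

end Coordinates

section Line

/-- restriction to the line through `a` -/
noncomputable def evL (a : V3) : R3 →ₐ[ℂ] Polynomial ℂ :=
  aeval (fun k => Polynomial.C (a k) * Polynomial.X)

theorem evL_X (a : V3) (k : Fin 3) : evL a (X k) = Polynomial.C (a k) * Polynomial.X := by
  simp [evL]

theorem evL_C (a : V3) (c : ℂ) : evL a (C c) = Polynomial.C c := by
  simp [evL]

theorem eval_evL (a : V3) (f : R3) (t : ℂ) : (evL a f).eval t = eval (t • a) f := by
  induction f using MvPolynomial.induction_on with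
  | C c => rw [evL_C, Polynomial.eval_C, eval_C]
  | add p q hp hq => rw [map_add, Polynomial.eval_add, hp, hq, map_add]
  | mul_X p n hp =>
    rw [map_mul, Polynomial.eval_mul, hp, evL_X, map_mul, eval_X, Polynomial.eval_mul,
      Polynomial.eval_C, Polynomial.eval_X, Pi.smul_apply, smul_eq_mul, mul_comm (a n) t]

theorem derivative_evL (a : V3) (f : R3) :
    Polynomial.derivative (evL a f) = evL a (dir a f) := by
  induction f using MvPolynomial.induction_on with
  | C c => rw [evL_C, dir_C]; simp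
  | add p q hp hq => rw [map_add, map_add, hp, hq, map_add, map_add]
  | mul_X p n hp =>
    have hX : dir a (X n) = C (a n) := by
      have : (X n : R3) = lin (Pi.single n 1) := by
        unfold lin
        rw [Finset.sum_eq_single n]
        · simp
        · intro j _ hj
          rw [Pi.single_eq_of_ne hj]; simp
        · simp
      rw [this, dir_lin, eval_lin, Finset.sum_eq_single n]
      · simp
      · intro j _ hj
        rw [Pi.single_eq_of_ne hj]; simp
      · simp
    rw [map_mul, Polynomial.derivative_mul, hp, dir_mul, map_add, map_mul, map_mul, hX, evL_X,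
      evL_C]
    simp

theorem evL_hom (a : V3) {f : R3} {n : ℕ} (hf : f.IsHomogeneous n) (h : eval a f = 0) :
    evL a f = 0 := by
  apply Polynomial.funext
  intro t
  have h1 := B_lin_pow hf (t • a)
  rw [lin_smul, mul_pow, ← map_pow, B_C_mul_left, B_lin_pow hf, h, mul_zero, mul_zero] at h1
  have h2 : (n.factorial : ℂ) ≠ 0 := by exact_mod_cast Nat.factorial_ne_zero n
  rw [eval_evL, Polynomial.eval_zero]
  exact (mul_eq_zero.mp h1.symm).resolve_left h2

theorem evL_dir_D (D : Derivation ℚ ℂ ℂ) (a : V3) {f : R3} (h1 : evL a f = 0)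
    (h2 : evL a (cD D f) = 0) : evL a (dir (fun i => D (a i)) f) = 0 := by
  apply Polynomial.eq_zero_of_infinite_isRoot
  have hinf : (Set.range (fun n : ℕ => ((n : ℂ) + 1))).Infinite := by
    apply Set.infinite_range_of_injective
    intro m n hmn
    have : (m : ℂ) = n := by simpa using hmn
    exact_mod_cast this
  apply hinf.mono
  rintro _ ⟨n, rfl⟩
  change (evL a _).eval _ = 0
  set t : ℂ := (n : ℂ) + 1 with ht
  have ht0 : t ≠ 0 := by
    rw [ht]
    exact Nat.cast_add_one_ne_zero n
  have hDt : D t = 0 := by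
    rw [ht, map_add, Derivation.map_natCast, Derivation.map_one_eq_zero, add_zero]
  have e1 := D_eval D (t • a) f
  rw [← eval_evL, ← eval_evL, h1, h2, Polynomial.eval_zero, map_zero, zero_add] at e1
  have e2 : ∀ i, D ((t • a) i) * eval (t • a) (pderiv i f) =
      t * (D (a i) * eval (t • a) (pderiv i f)) := by
    intro i
    rw [Pi.smul_apply, smul_eq_mul, Derivation.leibniz, hDt, smul_eq_mul, smul_zero, add_zero]
    ring
  rw [Finset.sum_congr rfl (fun i _ => e2 i), ← Finset.mul_sum] at e1
  have e3 := (mul_eq_zero.mp e1.symm).resolve_left ht0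
  rw [eval_evL, dir_apply, map_sum, ← e3]
  refine Finset.sum_congr rfl (fun i _ => ?_)
  rw [map_mul, eval_C]

end Line

end Pool.Agent.Work.MP_0421d9_ag
end

section
/-!
Second part of the study of singular points of squarefree forms under derivations.
-/

namespace Pool.Agent.Work.MP_0421d9_ag

open MvPolynomial

theorem pderiv_comm (i j : Fin 3) (f : R3) : pderiv i (pderiv j f) = pderiv j (pderiv i f) := by
  classical
  ext m
  rw [coeff_pderiv, coeff_pderiv, coeff_pderiv, coeff_pderiv]
  by_cases h : i = j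
  · subst h; rfl
  · rw [Finsupp.add_apply, Finsupp.add_apply, Finsupp.single_eq_of_ne (Ne.symm h),
      Finsupp.single_eq_of_ne h, add_assoc m, add_comm (Finsupp.single i 1), ← add_assoc m]
    push_cast
    ring

theorem sum_three {β : Type} [AddCommMonoid β] {i j k : Fin 3} (hij : i ≠ j) (hik : i ≠ k)
    (hjk : j ≠ k) (f : Fin 3 → β) : ∑ l, f l = f i + f j + f k := by
  rw [Fin.sum_univ_three]
  fin_cases i <;> fin_cases j <;> fin_cases k <;> simp_all <;> abel

theorem fin_three : ∀ i j k l : Fin 3, i ≠ j → i ≠ k → j ≠ k → l = i ∨ l = j ∨ l = k := by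
  decide

theorem cD_iterate_pderiv (D : Derivation ℚ ℂ ℂ) (k : Fin 3) (n : ℕ) (f : R3) :
    (cD D)^[n] (pderiv k f) = pderiv k ((cD D)^[n] f) := by
  induction n generalizing f with
  | zero => rfl
  | succ n ih => rw [Function.iterate_succ_apply, cD_pderiv, ih, ← Function.iterate_succ_apply]

/-- polynomials not involving the variable `k` all of whose iterated coefficient derivatives
vanish on the line through `a` -/
def InN (D : Derivation ℚ ℂ ℂ) (a : V3) (k : Fin 3) (h : R3) : Prop :=
  pderiv k h = 0 ∧ ∀ n : ℕ, evL a ((cD D)^[n] h) = 0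

theorem evL_dir (a v : V3) (f : R3) {i j k : Fin 3} (hij : i ≠ j) (hik : i ≠ k) (hjk : j ≠ k)
    (hf : pderiv k f = 0) : evL a (dir v f) =
      Polynomial.C (v i) * evL a (pderiv i f) + Polynomial.C (v j) * evL a (pderiv j f) := by
  rw [dir_apply, sum_three hij hik hjk, hf, mul_zero, add_zero, map_add, map_mul, map_mul, evL_C,
    evL_C]

theorem InN_pderiv {D : Derivation ℚ ℂ ℂ} {a : V3} {i j k : Fin 3} (hij : i ≠ j) (hik : i ≠ k)
    (hjk : j ≠ k) (hdet : a i * D (a j) ≠ a j * D (a i)) {f : R3} (hf : InN D a k f) :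
    InN D a k (pderiv i f) := by
  refine ⟨?_, fun n => ?_⟩
  · rw [pderiv_comm, hf.1, map_zero]
  · rw [cD_iterate_pderiv]
    set g := (cD D)^[n] f with hg
    have h1 : evL a g = 0 := hf.2 n
    have h2 : evL a (cD D g) = 0 := by
      rw [hg, ← Function.iterate_succ_apply' (cD D)]
      exact hf.2 (n + 1)
    have h3 : pderiv k g = 0 := by
      rw [hg, ← cD_iterate_pderiv, hf.1]
      exact iterate_map_zero (cD D) n
    have e1 : evL a (dir a g) = 0 := by
      rw [← derivative_evL, h1, map_zero]
    have e2 := evL_dir_D D a h1 h2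
    rw [evL_dir a _ g hij hik hjk h3] at e1 e2
    have e3 : Polynomial.C (a i * D (a j) - a j * D (a i)) * evL a (pderiv i g) = 0 := by
      rw [map_sub, map_mul, map_mul]
      linear_combination Polynomial.C (D (a j)) * e1 - Polynomial.C (a j) * e2
    rcases mul_eq_zero.mp e3 with h | h
    · exact absurd (sub_eq_zero.mp (Polynomial.C_eq_zero.mp h)) hdet
    · exact h

theorem InN_eq_zero {D : Derivation ℚ ℂ ℂ} {a : V3} {i j k : Fin 3} (hij : i ≠ j) (hik : i ≠ k)
    (hjk : j ≠ k) (hdet : a i * D (a j) ≠ a j * D (a i)) (n : ℕ) :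
    ∀ f : R3, (∀ α, coeff α f ≠ 0 → α.degree ≤ n) → InN D a k f → f = 0 := by
  have hconst : ∀ f : R3, (∀ α, coeff α f ≠ 0 → α = 0) → InN D a k f → f = 0 := by
    intro f hα hf
    have h0 : f = C (coeff 0 f) := by
      ext α
      rw [coeff_C]
      split_ifs with h
      · rw [h]
      · by_contra hc
        exact h (hα α hc).symm
    have h1 : evL a f = 0 := hf.2 0
    rw [h0, evL_C, Polynomial.C_eq_zero] at h1
    rw [h0, h1, C_0]
  induction n with
  | zero =>
    intro f hα hf
    apply hconst f _ hf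
    intro α h
    have := hα α h
    exact (Finsupp.degree_eq_zero_iff α).mp (Nat.le_zero.mp this)
  | succ n ih =>
    intro f hα hf
    have hdeg : ∀ l, ∀ α, coeff α (pderiv l f) ≠ 0 → α.degree ≤ n := by
      intro l α h
      rw [coeff_pderiv] at h
      have h1 := hα _ (left_ne_zero_of_mul h)
      rw [map_add, Finsupp.degree_single] at h1
      omega
    have hi := ih _ (hdeg i) (InN_pderiv hij hik hjk hdet hf)
    have hj := ih _ (hdeg j) (InN_pderiv hij.symm hjk hik (Ne.symm hdet) hf)
    have hk := hf.1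
    apply hconst f _ hf
    intro α hc
    have hl : ∀ l, pderiv l f = 0 → α l = 0 := by
      intro l hl
      by_contra h
      have h1 := congrArg (coeff (α - Finsupp.single l 1)) hl
      rw [coeff_pderiv, coeff_zero] at h1
      have h2 : α - Finsupp.single l 1 + Finsupp.single l 1 = α := by
        apply tsub_add_cancel_of_le
        rw [Finsupp.single_le_iff]
        omega
      rw [h2] at h1
      rcases mul_eq_zero.mp h1 with h3 | h3
      · exact hc h3
      · exact Nat.cast_add_one_ne_zero _ h3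
    ext l
    have : l = i ∨ l = j ∨ l = k := fin_three i j k l hij hik hjk
    rcases this with h | h | h
    · rw [h]; exact hl i hi
    · rw [h]; exact hl j hj
    · rw [h]; exact hl k hk

theorem exists_irreducible_factor (a : V3) {F : R3} (hF0 : F ≠ 0) (hF : evL a F = 0) :
    ∃ π, Irreducible π ∧ π ∣ F ∧ evL a π = 0 := by
  obtain ⟨s, hs, u, hu⟩ := WfDvdMonoid.exists_factors F hF0
  have h1 : evL a s.prod = 0 := by
    have h2 : evL a s.prod * evL a (u : R3) = 0 := by
      rw [← map_mul, hu, hF]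
    rcases mul_eq_zero.mp h2 with h | h
    · exact h
    · exfalso
      have : IsUnit (evL a (u : R3)) := u.isUnit.map (evL a)
      rw [h] at this
      exact not_isUnit_zero this
  rw [map_multiset_prod, Multiset.prod_eq_zero_iff, Multiset.mem_map] at h1
  obtain ⟨π, hπ, h0⟩ := h1
  exact ⟨π, hs π hπ, (Multiset.dvd_prod hπ).trans (Dvd.intro _ hu), h0⟩

theorem cD_eq_of_dvd {D : Derivation ℚ ℂ ℂ} {π : R3} (h : π ∣ cD D π) :
    ∃ c : ℂ, cD D π = C c * π := by
  obtain ⟨g, hg⟩ := h
  by_cases hπ : π = 0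
  · exact ⟨0, by rw [hπ, map_zero, mul_zero]⟩
  by_cases hg0 : g = 0
  · exact ⟨0, by rw [hg, hg0, mul_zero, C_0, zero_mul]⟩
  have h1 : (cD D π).totalDegree ≤ π.totalDegree := by
    apply totalDegree_le_of_support_subset
    intro α hα
    rw [mem_support_iff, coeff_cD] at hα
    rw [mem_support_iff]
    intro h0
    exact hα (by rw [h0, map_zero])
  rw [hg, totalDegree_mul_of_isDomain hπ hg0] at h1
  have h2 : g.totalDegree = 0 := by omega
  rw [totalDegree_eq_zero_iff_eq_C] at h2
  exact ⟨coeff 0 g, by rw [hg, ← h2, mul_comm]⟩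

theorem cD_factor {D : Derivation ℚ ℂ ℂ} {F π G : R3} {c : ℂ} (hπ : Irreducible π)
    (hF : F = π * G) (hG : ¬ π ∣ G) (hD : cD D F = C c * F) : ∃ c' : ℂ, cD D π = C c' * π := by
  apply cD_eq_of_dvd
  have h1 : cD D π * G = π * (C c * G - cD D G) := by
    have := hD
    rw [hF, cD_mul] at this
    linear_combination this
  have h2 : π ∣ cD D π * G := ⟨_, h1⟩
  exact (hπ.prime.dvd_or_dvd h2).resolve_right hG

/-- A singular point of a squarefree form whose coefficients are killed (up to a factor) by a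
derivation is constant up to scaling. -/
theorem singular_constant {D : Derivation ℚ ℂ ℂ} {F : R3} {d : ℕ} (hF : F.IsHomogeneous d)
    (hsq : Squarefree F) {c : ℂ} (hD : cD D F = C c * F) {a : V3} (ha0 : eval a F = 0)
    (ha : ∀ k, eval a (pderiv k F) = 0) (i j : Fin 3) : a i * D (a j) = a j * D (a i) := by
  have hF0 : F ≠ 0 := hsq.ne_zero
  by_cases hij : i = j
  · rw [hij]
  by_contra hdet
  obtain ⟨k, hik, hjk⟩ : ∃ k : Fin 3, i ≠ k ∧ j ≠ k := by
    fin_cases i <;> fin_cases j <;> simp_all <;> decide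
  have e0 : evL a F = 0 := evL_hom a hF ha0
  have e1 : ∀ l, evL a (pderiv l F) = 0 := fun l => evL_hom a (hF.pderiv) (ha l)
  obtain ⟨π, hπ, ⟨G, hG⟩, hπa⟩ := exists_irreducible_factor a hF0 e0
  have hπG : ¬ π ∣ G := by
    rintro ⟨G', hG'⟩
    have : π * π ∣ F := ⟨G', by rw [hG, hG', mul_assoc]⟩
    exact hπ.not_isUnit (hsq π this)
  obtain ⟨c1, hc1⟩ := cD_factor hπ hG hπG hD
  -- a second polynomial
  obtain ⟨h, hh, hha, c2, hc2⟩ : ∃ h, ¬ π ∣ h ∧ evL a h = 0 ∧ ∃ c2 : ℂ, cD D h = C c2 * h := by
    by_cases hGa : evL a G = 0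
    · have hG0 : G ≠ 0 := by
        rintro rfl
        exact hπG (dvd_zero _)
      obtain ⟨π', hπ', ⟨G', hG'⟩, hπ'a⟩ := exists_irreducible_factor a hG0 hGa
      have hF' : F = π' * (π * G') := by rw [hG, hG']; ring
      have hnd : ¬ π' ∣ π * G' := by
        rintro ⟨G'', hG''⟩
        have : π' * π' ∣ F := ⟨G'', by rw [hF', hG'', mul_assoc]⟩
        exact hπ'.not_isUnit (hsq π' this)
      obtain ⟨c2, hc2⟩ := cD_factor hπ' hF' hnd hD
      refine ⟨π', ?_, hπ'a, c2, hc2⟩
      intro hdv
      exact hπG (hdv.trans ⟨G', hG'⟩)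
    · have h2 : ∀ l, evL a (pderiv l π) = 0 := by
        intro l
        have := e1 l
        rw [hG, pderiv_mul, map_add, map_mul, map_mul, hπa, zero_mul, add_zero] at this
        exact (mul_eq_zero.mp this).resolve_right hGa
      obtain ⟨l, hl⟩ : ∃ l, pderiv l π ≠ 0 := by
        by_contra hcon
        push Not at hcon
        have hC : π = C (coeff 0 π) := by
          ext α
          rw [coeff_C]
          split_ifs with h
          · rw [h]
          · by_contra hc
            apply h
            symm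
            ext l
            rw [Finsupp.zero_apply]
            by_contra h'
            have h1 := congrArg (coeff (α - Finsupp.single l 1)) (hcon l)
            rw [coeff_pderiv, coeff_zero] at h1
            have h2 : α - Finsupp.single l 1 + Finsupp.single l 1 = α := by
              apply tsub_add_cancel_of_le
              rw [Finsupp.single_le_iff]
              omega
            rw [h2] at h1
            rcases mul_eq_zero.mp h1 with h3 | h3
            · exact hc h3
            · exact Nat.cast_add_one_ne_zero _ h3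
        have h0 : coeff 0 π = 0 := by
          rw [hC, evL_C, Polynomial.C_eq_zero] at hπa
          exact hπa
        rw [h0, C_0] at hC
        exact hπ.ne_zero hC
      refine ⟨pderiv l π, ?_, h2 l, c1, by rw [cD_pderiv, hc1, pderiv_C_mul]⟩
      rintro ⟨g, hg⟩
      have hg0 : g ≠ 0 := by
        rintro rfl
        exact hl (by rw [hg, mul_zero])
      have h3 : (pderiv l π).totalDegree < π.totalDegree ∨ (pderiv l π).totalDegree = 0 := by
        by_cases h : (pderiv l π).totalDegree = 0
        · right; exact h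
        · left
          rw [totalDegree, Finset.sup_lt_iff]
          · intro α hα
            rw [mem_support_iff, coeff_pderiv] at hα
            have h4 := le_totalDegree (mem_support_iff.mpr (left_ne_zero_of_mul hα))
            have h5 : (α + Finsupp.single l 1).sum (fun _ e => e) = α.sum (fun _ e => e) + 1 := by
              rw [Finsupp.sum_add_index' (fun _ => rfl) (fun _ _ _ => rfl),
                Finsupp.sum_single_index rfl]
            rw [h5] at h4
            exact h4
          · have h4 : 0 < π.totalDegree := by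
              rcases Nat.eq_zero_or_pos π.totalDegree with h5 | h5
              · exfalso
                rw [totalDegree_eq_zero_iff_eq_C] at h5
                apply hl
                rw [h5, pderiv_C]
              · exact h5
            exact h4
      have h6 := congrArg totalDegree hg
      rw [totalDegree_mul_of_isDomain hπ.ne_zero hg0] at h6
      have h7 : 0 < π.totalDegree := by
        rcases Nat.eq_zero_or_pos π.totalDegree with h5 | h5
        · exfalso
          rw [totalDegree_eq_zero_iff_eq_C] at h5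
          apply hl
          rw [h5, pderiv_C]
        · exact h5
      omega
  obtain ⟨u, v, hne, hk⟩ := exists_elim hπ hh k
  have hstab : ∀ n : ℕ, ∃ u' v' : R3, (cD D)^[n] (u * π + v * h) = u' * π + v' * h := by
    intro n
    induction n with
    | zero => exact ⟨u, v, rfl⟩
    | succ n ih =>
      obtain ⟨u', v', huv⟩ := ih
      refine ⟨cD D u' + u' * C c1, cD D v' + v' * C c2, ?_⟩
      rw [Function.iterate_succ_apply', huv, map_add, cD_mul, cD_mul, hc1, hc2]
      ring
  have hN : InN D a k (u * π + v * h) := by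
    refine ⟨hk, fun n => ?_⟩
    obtain ⟨u', v', huv⟩ := hstab n
    rw [huv, map_add, map_mul, map_mul, hπa, hha, mul_zero, mul_zero, add_zero]
  apply hne
  refine InN_eq_zero hij hik hjk hdet (u * π + v * h).totalDegree _ ?_ hN
  intro α hα
  have := le_totalDegree (mem_support_iff.mpr hα)
  rwa [Finsupp.degree_apply]

end Pool.Agent.Work.MP_0421d9_ag
end

section
/-!
Lines through two points and divisibility by their equations.
-/

namespace Pool.Agent.Work.MP_0421d9_ag

open MvPolynomial

/-- cross product -/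
def cr (a b : V3) : V3 := ![a 1 * b 2 - a 2 * b 1, a 2 * b 0 - a 0 * b 2, a 0 * b 1 - a 1 * b 0]

/-- equation of the line through `a` and `b` -/
noncomputable def xl (a b : V3) : R3 := lin (cr a b)

theorem eval_xl (a b u : V3) : eval u (xl a b) =
    (a 1 * b 2 - a 2 * b 1) * u 0 + (a 2 * b 0 - a 0 * b 2) * u 1 +
      (a 0 * b 1 - a 1 * b 0) * u 2 := by
  unfold xl cr
  rw [eval_lin, Fin.sum_univ_three]
  rfl

theorem eval_xl_left (a b : V3) : eval a (xl a b) = 0 := by
  rw [eval_xl]; ring

theorem eval_xl_right (a b : V3) : eval b (xl a b) = 0 := by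
  rw [eval_xl]; ring

theorem xl_symm (a b : V3) : xl a b = C (-1) * xl b a := by
  unfold xl
  rw [← lin_smul]
  congr 1
  ext i
  fin_cases i <;> simp [cr] <;> ring

theorem xl_ne_zero {a b : V3} (h : cr a b ≠ 0) : xl a b ≠ 0 := fun h' => h (lin_eq_zero.mp h')

theorem exists_comb {a b u : V3} (h : cr a b ≠ 0) (hu : eval u (xl a b) = 0) :
    ∃ s t : ℂ, u = s • a + t • b := by
  rw [eval_xl] at hu
  have h1 : ∃ i, cr a b i ≠ 0 := by
    by_contra hcon
    push Not at hcon
    exact h (funext hcon)
  obtain ⟨i, hi⟩ := h1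
  fin_cases i
  · have h0 : a 1 * b 2 - a 2 * b 1 ≠ 0 := hi
    refine ⟨(u 1 * b 2 - u 2 * b 1) / (a 1 * b 2 - a 2 * b 1),
      (a 1 * u 2 - a 2 * u 1) / (a 1 * b 2 - a 2 * b 1), ?_⟩
    ext l
    rw [Pi.add_apply, Pi.smul_apply, Pi.smul_apply, smul_eq_mul, smul_eq_mul,
      div_mul_eq_mul_div, div_mul_eq_mul_div, ← add_div, eq_div_iff h0]
    fin_cases l <;> simp only [Fin.zero_eta, Fin.mk_one, Fin.reduceFinMk] <;>
      first
        | ring1
        | linear_combination hu
  · have h0 : a 2 * b 0 - a 0 * b 2 ≠ 0 := hi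
    refine ⟨(u 2 * b 0 - u 0 * b 2) / (a 2 * b 0 - a 0 * b 2),
      (a 2 * u 0 - a 0 * u 2) / (a 2 * b 0 - a 0 * b 2), ?_⟩
    ext l
    rw [Pi.add_apply, Pi.smul_apply, Pi.smul_apply, smul_eq_mul, smul_eq_mul,
      div_mul_eq_mul_div, div_mul_eq_mul_div, ← add_div, eq_div_iff h0]
    fin_cases l <;> simp only [Fin.zero_eta, Fin.mk_one, Fin.reduceFinMk] <;>
      first
        | ring1
        | linear_combination hu
  · have h0 : a 0 * b 1 - a 1 * b 0 ≠ 0 := hi
    refine ⟨(u 0 * b 1 - u 1 * b 0) / (a 0 * b 1 - a 1 * b 0),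
      (a 0 * u 1 - a 1 * u 0) / (a 0 * b 1 - a 1 * b 0), ?_⟩
    ext l
    rw [Pi.add_apply, Pi.smul_apply, Pi.smul_apply, smul_eq_mul, smul_eq_mul,
      div_mul_eq_mul_div, div_mul_eq_mul_div, ← add_div, eq_div_iff h0]
    fin_cases l <;> simp only [Fin.zero_eta, Fin.mk_one, Fin.reduceFinMk] <;>
      first
        | ring1
        | linear_combination hu

theorem exists_smul_of_cr_eq_zero {a b : V3} (ha : a ≠ 0) (h : cr a b = 0) :
    ∃ s : ℂ, b = s • a := by
  have h0 : a 1 * b 2 - a 2 * b 1 = 0 := congrFun h 0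
  have h1 : a 2 * b 0 - a 0 * b 2 = 0 := congrFun h 1
  have h2 : a 0 * b 1 - a 1 * b 0 = 0 := congrFun h 2
  obtain ⟨i, hi⟩ : ∃ i, a i ≠ 0 := by
    by_contra hcon
    push Not at hcon
    exact ha (funext hcon)
  refine ⟨b i / a i, ?_⟩
  ext l
  simp only [Pi.smul_apply, smul_eq_mul]
  rw [div_mul_eq_mul_div, eq_div_iff hi]
  fin_cases i <;> fin_cases l <;> simp only [Fin.zero_eta, Fin.mk_one, Fin.reduceFinMk] <;>
    first
      | ring1
      | linear_combination h0
      | linear_combination -h0
      | linear_combination h1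
      | linear_combination -h1
      | linear_combination h2
      | linear_combination -h2

theorem sub_aeval_mem {I : Ideal R3} {g : Fin 3 → R3} (hg : ∀ l, X l - g l ∈ I) (f : R3) :
    f - aeval g f ∈ I := by
  induction f using MvPolynomial.induction_on with
  | C c =>
    rw [← algebraMap_eq, AlgHom.commutes, sub_self]
    exact zero_mem _
  | add p q hp hq =>
    rw [map_add]
    have : p + q - (aeval g p + aeval g q) = (p - aeval g p) + (q - aeval g q) := by ring
    rw [this]
    exact add_mem hp hq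
  | mul_X p n hp =>
    rw [map_mul, aeval_X]
    have : p * X n - aeval g p * g n = X n * (p - aeval g p) + aeval g p * (X n - g n) := by ring
    rw [this]
    exact add_mem (I.mul_mem_left _ hp) (I.mul_mem_left _ (hg n))

/-- a polynomial vanishing on a plane through the origin is divisible by its equation -/
theorem lin_dvd_of_eval {v : V3} (hv : v ≠ 0) {f : R3}
    (h : ∀ u, eval u (lin v) = 0 → eval u f = 0) : lin v ∣ f := by
  obtain ⟨i, hi⟩ : ∃ i, v i ≠ 0 := by
    by_contra hcon
    push Not at hcon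
    exact hv (funext hcon)
  set g : Fin 3 → R3 := fun l => X l - C (if l = i then (v i)⁻¹ else 0) * lin v with hgdef
  have hg : ∀ l, X l - g l ∈ Ideal.span {lin v} := by
    intro l
    rw [hgdef]
    simp only [sub_sub_cancel]
    exact Ideal.mul_mem_left _ _ (Ideal.mem_span_singleton_self _)
  have h1 := sub_aeval_mem hg f
  have h2 : aeval g f = 0 := by
    apply MvPolynomial.funext
    intro y
    rw [map_zero]
    have h3 : ∀ p : R3, eval y (aeval g p) = eval (fun l => eval y (g l)) p := by
      intro p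
      induction p using MvPolynomial.induction_on with
      | C c => rw [← algebraMap_eq, AlgHom.commutes, algebraMap_eq, eval_C, eval_C]
      | add p q hp hq => rw [map_add, map_add, hp, hq, map_add]
      | mul_X p n hp => rw [map_mul, aeval_X, map_mul, hp, map_mul, eval_X]
    rw [h3]
    apply h
    have h4 : ∀ l, eval y (g l) = y l - (if l = i then (v i)⁻¹ else 0) * eval y (lin v) := by
      intro l
      rw [hgdef]
      simp only [map_sub, eval_X, map_mul, eval_C]
    rw [eval_lin]
    simp only [h4, mul_sub, Finset.sum_sub_distrib]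
    have h5 : ∑ x, v x * ((if x = i then (v i)⁻¹ else 0) * eval y (lin v)) = eval y (lin v) := by
      rw [Finset.sum_eq_single i]
      · rw [if_pos rfl]
        field_simp
      · intro j _ hj
        rw [if_neg hj]; ring
      · simp
    rw [h5, eval_lin]
    ring
  rw [h2, sub_zero] at h1
  exact Ideal.mem_span_singleton.mp h1

theorem xl_dvd {a b : V3} (hab : cr a b ≠ 0) {f : R3} {e : ℕ} (hf : f.IsHomogeneous e)
    (h : ∀ i ≤ e, B (lin a ^ i * lin b ^ (e - i)) f = 0) : xl a b ∣ f := by
  apply lin_dvd_of_eval hab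
  intro u hu
  obtain ⟨s, t, rfl⟩ := exists_comb hab hu
  have h1 := B_lin_pow hf (s • a + t • b)
  rw [lin_add, add_pow, map_sum, LinearMap.sum_apply] at h1
  have h2 : ∑ m ∈ Finset.range (e + 1),
      B (lin (s • a) ^ m * lin (t • b) ^ (e - m) * ((e.choose m : ℕ) : R3)) f = 0 := by
    refine Finset.sum_eq_zero (fun m hm => ?_)
    have h3 : lin (s • a) ^ m * lin (t • b) ^ (e - m) * ((e.choose m : ℕ) : R3) =
        C (s ^ m * t ^ (e - m) * (e.choose m : ℂ)) * (lin a ^ m * lin b ^ (e - m)) := by
      rw [lin_smul, lin_smul, mul_pow, mul_pow]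
      simp only [map_mul, map_pow, map_natCast]
      ring
    rw [h3, B_C_mul_left, h m (Nat.lt_succ_iff.mp (Finset.mem_range.mp hm)), mul_zero]
  rw [h2] at h1
  have h4 : (e.factorial : ℂ) ≠ 0 := by exact_mod_cast Nat.factorial_ne_zero e
  exact (mul_eq_zero.mp h1.symm).resolve_left h4

theorem B_eq_zero_of_vanishTo {f : R3} {e : ℕ} (hf : f.IsHomogeneous e) {a : V3} {μ : ℕ}
    (h : VanishTo f a μ) {n k : ℕ} (hk : k < μ) (hnk : n + k = e) (A : R3) :
    B (lin a ^ n * A) f = 0 := by
  have h1 := h k hk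
  have hke : k ≤ e := by omega
  rw [taylor_component hf a hke] at h1
  have h2 : (((e - k).factorial : ℂ)⁻¹) ≠ 0 := inv_ne_zero (by
    exact_mod_cast Nat.factorial_ne_zero _)
  rw [B_lin_pow_mul, (by omega : n = e - k)]
  rcases mul_eq_zero.mp h1 with h3 | h3
  · exfalso
    rw [C_eq_zero] at h3
    exact h2 h3
  · rw [h3, map_zero]

/-- Bezout for a line -/
theorem xl_dvd_of_vanishTo {a b : V3} (hab : cr a b ≠ 0) {f : R3} {e : ℕ}
    (hf : f.IsHomogeneous e) {μ ν : ℕ} (ha : VanishTo f a μ) (hb : VanishTo f b ν)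
    (h : e + 1 ≤ μ + ν) : xl a b ∣ f := by
  apply xl_dvd hab hf
  intro i hi
  by_cases h1 : e - i < μ
  · exact B_eq_zero_of_vanishTo hf ha h1 (by omega) _
  · rw [mul_comm]
    exact B_eq_zero_of_vanishTo hf hb (by omega : i < ν) (by omega) _

theorem homogeneousComponent_mul {A : R3} {n : ℕ} (hA : A.IsHomogeneous n) (k : ℕ) (h : R3) :
    homogeneousComponent (n + k) (A * h) = A * homogeneousComponent k h := by
  conv_lhs => rw [← sum_homogeneousComponent h]
  rw [Finset.mul_sum, map_sum]
  by_cases hk : k ∈ Finset.range (h.totalDegree + 1)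
  · rw [Finset.sum_eq_single k]
    · exact homogeneousComponent_eq_self (hA.mul (homogeneousComponent_isHomogeneous k h))
    · intro j _ hj
      rw [homogeneousComponent_of_mem (hA.mul (homogeneousComponent_isHomogeneous j h)), if_neg]
      omega
    · intro hk'
      exact absurd hk hk'
  · have h1 : homogeneousComponent k h = 0 := by
      apply homogeneousComponent_eq_zero
      rw [Finset.mem_range] at hk
      omega
    rw [h1, mul_zero]
    refine Finset.sum_eq_zero (fun j hj => ?_)
    rw [homogeneousComponent_of_mem (hA.mul (homogeneousComponent_isHomogeneous j h)), if_neg]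
    rw [Finset.mem_range] at hj hk
    omega

theorem homogeneousComponent_mul_lt {A : R3} {n : ℕ} (hA : A.IsHomogeneous n) {k : ℕ} (hk : k < n)
    (h : R3) : homogeneousComponent k (A * h) = 0 := by
  conv_lhs => rw [← sum_homogeneousComponent h]
  rw [Finset.mul_sum, map_sum]
  refine Finset.sum_eq_zero (fun j _ => ?_)
  rw [homogeneousComponent_of_mem (hA.mul (homogeneousComponent_isHomogeneous j h)), if_neg]
  omega

theorem translate_mul (a : V3) (f g : R3) : translate a (f * g) = translate a f * translate a g := by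
  unfold translate
  rw [map_mul]

theorem translate_lin (a v : V3) : translate a (lin v) = C (eval a (lin v)) + lin v := by
  unfold translate
  rw [eval_lin]
  unfold lin
  simp only [map_sum, map_mul, aeval_X, algHom_C, algebraMap_eq, mul_add, Finset.sum_add_distrib]

/-- division of a form by a linear form, away from its zeros -/
theorem vanishTo_of_mul_ne {v : V3} {g : R3} {p : V3} {μ : ℕ} (h : VanishTo (lin v * g) p μ)
    (hp : eval p (lin v) ≠ 0) : VanishTo g p μ := by
  intro k
  induction k with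
  | zero =>
    intro hk
    have h1 := h 0 hk
    rw [translate_mul, translate_lin, add_mul, map_add, homogeneousComponent_C_mul,
      homogeneousComponent_mul_lt (lin_isHomogeneous v) one_pos, add_zero] at h1
    rcases mul_eq_zero.mp h1 with h2 | h2
    · rw [C_eq_zero] at h2
      exact absurd h2 hp
    · exact h2
  | succ k ih =>
    intro hk
    have h1 := h (k + 1) hk
    rw [translate_mul, translate_lin, add_mul, map_add, homogeneousComponent_C_mul, add_comm k 1,
      homogeneousComponent_mul (lin_isHomogeneous v), ih (by omega), mul_zero, add_zero] at h1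
    rw [add_comm k 1]
    rcases mul_eq_zero.mp h1 with h2 | h2
    · rw [C_eq_zero] at h2
      exact absurd h2 hp
    · exact h2

/-- division of a form by a linear form, at one of its zeros -/
theorem vanishTo_of_mul_eq {v : V3} (hv : v ≠ 0) {g : R3} {p : V3} {μ : ℕ}
    (h : VanishTo (lin v * g) p μ)
    (hp : eval p (lin v) = 0) : VanishTo g p (μ - 1) := by
  intro k hk
  have h1 := h (1 + k) (by omega)
  rw [translate_mul, translate_lin, hp, C_0, zero_add,
    homogeneousComponent_mul (lin_isHomogeneous v)] at h1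
  exact (mul_eq_zero.mp h1).resolve_left (fun h' => hv (lin_eq_zero.mp h'))

theorem exists_factor {v : V3} {f : R3} {d : ℕ} (hf : f.IsHomogeneous d)
    (hf0 : f ≠ 0) (h : lin v ∣ f) : ∃ e g, d = e + 1 ∧ IsHomogeneous g e ∧ f = lin v * g := by
  obtain ⟨g, hg⟩ := h
  cases d with
  | zero =>
    exfalso
    apply hf0
    rw [← homogeneousComponent_eq_self hf, hg]
    exact homogeneousComponent_mul_lt (lin_isHomogeneous v) one_pos g
  | succ e =>
    refine ⟨e, homogeneousComponent e g, rfl, homogeneousComponent_isHomogeneous e g, ?_⟩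
    rw [← homogeneousComponent_mul (lin_isHomogeneous v), ← hg, add_comm 1 e,
      homogeneousComponent_eq_self hf]

end Pool.Agent.Work.MP_0421d9_ag
end

section
/-!
Generic simple points impose independent conditions; extension of generic families of points.
-/

set_option linter.unusedSectionVars false

namespace Pool.Agent.Work.MP_0421d9_ag

open MvPolynomial Module

/-- generic points exist relative to given generic points -/
theorem exists_extension {ι κ : Type} [Finite ι] [Finite κ] (p : ι → V3)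
    (hp : AlgebraicIndependent ℚ (fun z : ι × Fin 3 => p z.1 z.2)) :
    ∃ s : κ → V3, AlgebraicIndependent ℚ (fun z : (ι ⊕ κ) × Fin 3 => Sum.elim p s z.1 z.2) := by
  classical
  obtain ⟨t, ht, ht'⟩ := exists_isTranscendenceBasis_superset hp.coe_range
  have hcard : Cardinal.mk ℂ = Cardinal.mk t :=
    IsAlgClosed.cardinal_eq_cardinal_transcendence_basis_of_aleph0_lt' _ ht'
      Cardinal.mk_le_aleph0 (by rw [Cardinal.mk_complex]; exact Cardinal.aleph0_lt_continuum)
  have hinf : t.Infinite := by
    rw [← Set.infinite_coe_iff, Cardinal.infinite_iff, ← hcard, Cardinal.mk_complex]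
    exact Cardinal.aleph0_le_continuum
  have hinf' : (t \ Set.range (fun z : ι × Fin 3 => p z.1 z.2)).Infinite :=
    hinf.sdiff (Set.finite_range _)
  obtain ⟨f, hf, hfinj⟩ : ∃ f : κ × Fin 3 → ℂ, (∀ z, f z ∈ t ∧
      f z ∉ Set.range (fun z : ι × Fin 3 => p z.1 z.2)) ∧ Function.Injective f := by
    obtain ⟨n, ⟨e⟩⟩ := Finite.exists_equiv_fin (κ × Fin 3)
    refine ⟨fun z => (hinf'.natEmbedding _ (e z)).1, fun z => (hinf'.natEmbedding _ (e z)).2, ?_⟩
    intro z z' h
    have h1 := Subtype.ext h
    have h2 := (hinf'.natEmbedding _).injective h1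
    exact e.injective (Fin.ext h2)
  refine ⟨fun k l => f (k, l), ?_⟩
  have hmem : ∀ z : (ι ⊕ κ) × Fin 3, Sum.elim p (fun k l => f (k, l)) z.1 z.2 ∈ t := by
    rintro ⟨i | k, l⟩
    · exact ht ⟨(i, l), rfl⟩
    · exact (hf (k, l)).1
  have hinj : ∀ z z' : (ι ⊕ κ) × Fin 3, Sum.elim p (fun k l => f (k, l)) z.1 z.2 =
      Sum.elim p (fun k l => f (k, l)) z'.1 z'.2 → z = z' := by
    rintro ⟨i | k, l⟩ ⟨i' | k', l'⟩ h
    · have h2 := hp.injective (a₁ := (i, l)) (a₂ := (i', l')) h
      rw [Prod.mk.injEq] at h2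
      rw [h2.1, h2.2]
    · exact absurd ⟨(i, l), h⟩ (hf (k', l')).2
    · exact absurd ⟨(i', l'), h.symm⟩ (hf (k, l)).2
    · have h2 := hfinj h
      rw [Prod.mk.injEq] at h2
      obtain ⟨h3, h4⟩ := h2
      change l = l' at h4
      rw [h3, h4]
  exact ht'.1.comp (fun z : (ι ⊕ κ) × Fin 3 =>
      (⟨Sum.elim p (fun k l => f (k, l)) z.1 z.2, hmem z⟩ : t))
    (fun z z' h => hinj z z' (congrArg Subtype.val h))

instance finite_linSys {ι : Type} (d : ℕ) (p : ι → V3) (m : ι → ℕ) :
    Module.Finite ℂ (linSys d p m) :=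
  Submodule.finiteDimensional_of_le (linSys_le d p m)

/-- evaluation as a linear map -/
noncomputable def evl (a : V3) : R3 →ₗ[ℂ] ℂ where
  toFun f := eval a f
  map_add' f g := map_add _ f g
  map_smul' c f := by
    rw [smul_eval, RingHom.id_apply, smul_eq_mul]

theorem vanishTo_zero (f : R3) (a : V3) : VanishTo f a 0 := fun k hk => absurd hk (Nat.not_lt_zero k)

theorem vanishTo_one_iff' {f : R3} {a : V3} : VanishTo f a 1 ↔ eval a f = 0 := by
  have h1 : homogeneousComponent 0 (translate a f) = C (eval a f) := by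
    rw [homogeneousComponent_zero]
    have h2 := eval_translate a 0 f
    rw [add_zero, eval_zero, constantCoeff_eq] at h2
    rw [h2]
  constructor
  · intro h
    have h2 := h 0 one_pos
    rw [h1] at h2
    exact C_eq_zero.mp h2
  · intro h k hk
    have hk0 : k = 0 := by omega
    rw [hk0, h1, h, C_0]

variable {ι κ : Type} [DecidableEq ι] [DecidableEq κ]

/-- multiplicities: `m` at the first points, one at the points of `T` -/
def MT (m : ι → ℕ) (T : Finset κ) : ι ⊕ κ → ℕ := Sum.elim m (fun k => if k ∈ T then 1 else 0)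

theorem finrank_drop {d : ℕ} {P : ι ⊕ κ → V3} {E : ι ⊕ κ → Fin 3 → Derivation ℚ ℂ ℂ}
    (hE : IsDual P E) {m : ι → ℕ} (hm : ∀ i, m i ≤ d + 1) (T : Finset κ) :
    finrank ℂ (linSys d P (MT m T)) =
      finrank ℂ (linSys d (fun i => P (Sum.inl i)) m) - T.card := by
  induction T using Finset.induction_on with
  | empty =>
    have : linSys d P (MT m (∅ : Finset κ)) = linSys d (fun i => P (Sum.inl i)) m := by
      ext F
      constructor
      · rintro ⟨h1, h2⟩
        exact ⟨h1, fun i => h2 (Sum.inl i)⟩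
      · rintro ⟨h1, h2⟩
        refine ⟨h1, ?_⟩
        rintro (i | k)
        · exact h2 i
        · exact vanishTo_zero F _
    rw [this, Finset.card_empty, Nat.sub_zero]
  | insert k T hk ih =>
    rw [Finset.card_insert_of_notMem hk, ← Nat.sub_sub, ← ih]
    set W := linSys d P (MT m T) with hW
    have hW' : linSys d P (MT m (insert k T)) = W ⊓ LinearMap.ker (evl (P (Sum.inr k))) := by
      ext F
      constructor
      · rintro ⟨h1, h2⟩
        refine ⟨⟨h1, ?_⟩, ?_⟩
        · rintro (i | l)
          · exact h2 (Sum.inl i)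
          · have h3 := h2 (Sum.inr l)
            apply h3.mono
            simp only [MT, Sum.elim_inr, Finset.mem_insert]
            split_ifs <;> first | omega | tauto
        · have h3 := h2 (Sum.inr k)
          change VanishTo F _ (if k ∈ insert k T then 1 else 0) at h3
          rw [if_pos (Finset.mem_insert_self k T)] at h3
          exact vanishTo_one_iff'.mp h3
      · rintro ⟨⟨h1, h2⟩, h3⟩
        refine ⟨h1, ?_⟩
        rintro (i | l)
        · exact h2 (Sum.inl i)
        · have h4 := h2 (Sum.inr l)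
          change VanishTo F _ (if l ∈ insert k T then 1 else 0)
          change VanishTo F _ (if l ∈ T then 1 else 0) at h4
          by_cases hl : l = k
          · subst hl
            rw [if_pos (Finset.mem_insert_self l T)]
            exact vanishTo_one_iff'.mpr h3
          · by_cases hlT : l ∈ T
            · rw [if_pos (Finset.mem_insert_of_mem hlT)]
              rwa [if_pos hlT] at h4
            · rw [if_neg (by simp [hl, hlT])]
              exact vanishTo_zero F _
    rw [hW']
    by_cases hbot : W = ⊥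
    · rw [hbot, bot_inf_eq, finrank_bot]
    · have hex : ∃ f ∈ W, eval (P (Sum.inr k)) f ≠ 0 := by
        by_contra hcon
        push Not at hcon
        apply hbot
        apply lemmaZ (d := d) W (fun f hf => hf.1) (P (Sum.inr k)) (E (Sum.inr k))
        · intro l l'
          rw [hE]
          simp
        · intro l f hf
          apply linSys_cD_mem _ hf
          · intro x
            by_cases hx : x = Sum.inr k
            · right
              rw [hx]
              change VanishTo _ _ (if k ∈ T then 1 else 0)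
              rw [if_neg hk]
              exact vanishTo_zero _ _
            · left
              intro l'
              rw [hE, if_neg]
              rintro ⟨h', -⟩
              exact hx h'.symm
          · rintro (i | l')
            · exact hm i
            · change (if l' ∈ T then 1 else 0) ≤ d + 1
              split_ifs <;> omega
        · exact hcon
      obtain ⟨f, hf, hfne⟩ := hex
      set L : W →ₗ[ℂ] ℂ := (evl (P (Sum.inr k))).domRestrict W with hL
      have h1 := LinearMap.finrank_range_add_finrank_ker L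
      have h2 : LinearMap.range L = ⊤ := by
        apply LinearMap.range_eq_top.mpr
        intro c
        refine ⟨(c / eval (P (Sum.inr k)) f) • ⟨f, hf⟩, ?_⟩
        rw [map_smul, hL]
        change _ • eval (P (Sum.inr k)) f = c
        rw [smul_eq_mul, div_mul_cancel₀ _ hfne]
      have h3 : finrank ℂ (LinearMap.ker L) =
          finrank ℂ ↥(W ⊓ LinearMap.ker (evl (P (Sum.inr k)))) := by
        have h4 : LinearMap.ker L = (W ⊓ LinearMap.ker (evl (P (Sum.inr k)))).comap W.subtype := by
          ext x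
          simp [hL]
        rw [h4]
        exact (Submodule.comapSubtypeEquivOfLe inf_le_left).finrank_eq
      rw [h2, finrank_top, Module.finrank_self, h3] at h1
      omega

end Pool.Agent.Work.MP_0421d9_ag
end

section
/-!
Semicontinuity of the dimension of the kernel in a family of linear maps which depends
polynomially on one parameter.
-/

namespace Pool.Agent.Work.MP_0421d9_ag.LD

open Module

section

variable {E : Type} [AddCommGroup E] [Module ℂ E]

/-- the vectors on which the family `P` vanishes at the parameter `τ` -/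
def Z {ι : Type} (P : E →ₗ[ℂ] (ι → Polynomial ℂ)) (τ : ℂ) : Submodule ℂ E where
  carrier := {v | ∀ i, (P v i).eval τ = 0}
  zero_mem' := by intro i; simp
  add_mem' := by
    intro v w hv hw i
    rw [map_add, Pi.add_apply, Polynomial.eval_add, hv i, hw i, add_zero]
  smul_mem' := by
    intro c v hv i
    rw [map_smul, Pi.smul_apply, Polynomial.eval_smul, hv i, smul_zero]

theorem mem_Z {ι : Type} {P : E →ₗ[ℂ] (ι → Polynomial ℂ)} {τ : ℂ} {v : E} :
    v ∈ Z P τ ↔ ∀ i, (P v i).eval τ = 0 := Iff.rfl

theorem finrank_inf_eq (U Q : Submodule ℂ E) :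
    finrank ℂ ↥(U ⊓ Q) = finrank ℂ ↥(Q.comap U.subtype) := by
  have h1 : Q.comap U.subtype = (U ⊓ Q).comap U.subtype := by
    ext x
    simp
  rw [h1]
  exact (LinearEquiv.finrank_eq (Submodule.comapSubtypeEquivOfLe inf_le_left)).symm

theorem semicont {ι : Type} [Finite ι] (P : E →ₗ[ℂ] (ι → Polynomial ℂ)) (U : Submodule ℂ E)
    [Module.Finite ℂ U] (τ₀ : ℂ) :
    ∃ g : Polynomial ℂ, g.eval τ₀ ≠ 0 ∧ ∀ τ, g.eval τ ≠ 0 →
      finrank ℂ ↥(U ⊓ Z P τ) ≤ finrank ℂ ↥(U ⊓ Z P τ₀) := by
  classical
  cases nonempty_fintype ι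
  let M : ℂ → (U →ₗ[ℂ] (ι → ℂ)) := fun τ =>
    ((Polynomial.leval τ).compLeft ι) ∘ₗ P ∘ₗ U.subtype
  have hM : ∀ τ (u : U) i, M τ u i = (P u i).eval τ := fun τ u i => rfl
  have hker : ∀ τ, LinearMap.ker (M τ) = (Z P τ).comap U.subtype := by
    intro τ
    ext u
    rw [LinearMap.mem_ker, Submodule.mem_comap, mem_Z]
    constructor
    · intro h i
      have := congrFun h i
      exact this
    · intro h
      funext i
      exact h i
  obtain ⟨W, hW⟩ := Submodule.exists_isCompl (LinearMap.ker (M τ₀))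
  let b := Module.finBasis ℂ W
  set n := finrank ℂ W with hn
  have hinj : Function.Injective ((M τ₀) ∘ₗ W.subtype) := by
    rw [← LinearMap.ker_eq_bot, Submodule.eq_bot_iff]
    intro w hw
    rw [LinearMap.mem_ker, LinearMap.comp_apply] at hw
    have h1 : (w : U) ∈ LinearMap.ker (M τ₀) ⊓ W := ⟨hw, w.2⟩
    rw [hW.inf_eq_bot, Submodule.mem_bot] at h1
    exact Subtype.ext h1
  obtain ⟨L, hL⟩ := LinearMap.exists_leftInverse_of_injective _ (LinearMap.ker_eq_bot.mpr hinj)
  have hL' : ∀ w : W, L (M τ₀ w) = w := fun w => LinearMap.congr_fun hL w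
  let N : Matrix (Fin n) (Fin n) (Polynomial ℂ) := fun i j =>
    ∑ k, Polynomial.C (b.repr (L (Pi.single k 1)) i) * P (b j : U) k
  have hN : ∀ τ i j, (N i j).eval τ = b.repr (L (M τ (b j))) i := by
    intro τ i j
    have h1 : M τ (b j) = ∑ k, (P (b j : U) k).eval τ • (Pi.single k (1 : ℂ) : ι → ℂ) := by
      funext l
      rw [hM, Finset.sum_apply]
      simp [Pi.single_apply]
    rw [h1, map_sum, map_sum, Finsupp.finsetSum_apply]
    simp only [N, Polynomial.eval_finsetSum, Polynomial.eval_mul, Polynomial.eval_C, map_smul,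
      Finsupp.smul_apply, smul_eq_mul]
    exact Finset.sum_congr rfl (fun k _ => mul_comm _ _)
  have hdet : ∀ τ, (N.det).eval τ = (Matrix.of (fun i j => b.repr (L (M τ (b j))) i)).det := by
    intro τ
    rw [← Polynomial.coe_evalRingHom, RingHom.map_det]
    congr 1
    ext i j
    exact hN τ i j
  refine ⟨N.det, ?_, fun τ hτ => ?_⟩
  · rw [hdet]
    have h1 : (Matrix.of (fun i j => b.repr (L (M τ₀ (b j))) i) : Matrix (Fin n) (Fin n) ℂ) =
        1 := by
      ext i j
      rw [Matrix.of_apply, hL', Basis.repr_self, Matrix.one_apply, Finsupp.single_apply]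
      simp only [eq_comm]
    rw [h1, Matrix.det_one]
    exact one_ne_zero
  · rw [hdet] at hτ
    rw [finrank_inf_eq, finrank_inf_eq, ← hker, ← hker]
    have hdisj : Disjoint (LinearMap.ker (M τ)) W := by
      rw [Submodule.disjoint_def]
      intro u hu hw
      let x : Fin n → ℂ := fun j => b.repr ⟨u, hw⟩ j
      have h1 : u = ∑ j, x j • (b j : U) := by
        have h2 := b.sum_repr ⟨u, hw⟩
        have h3 := congrArg (fun w : W => (w : U)) h2
        simp only [Submodule.coe_sum, Submodule.coe_smul] at h3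
        exact h3.symm
      have h4 : Matrix.mulVec (Matrix.of (fun i j => b.repr (L (M τ (b j))) i)) x = 0 := by
        funext i
        rw [Matrix.mulVec, dotProduct]
        have h5 : b.repr (L (M τ u)) i = 0 := by
          rw [LinearMap.mem_ker.mp hu]
          simp
        rw [h1, map_sum, map_sum, map_sum, Finsupp.finsetSum_apply] at h5
        simp only [map_smul, Finsupp.smul_apply, smul_eq_mul] at h5
        rw [Pi.zero_apply, ← h5]
        exact Finset.sum_congr rfl (fun j _ => mul_comm _ _)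
      have h6 : x = 0 := by
        by_contra hx
        exact hτ (Matrix.exists_mulVec_eq_zero_iff.mp ⟨x, hx, h4⟩)
      rw [h1]
      simp [h6]
    have h7 := Submodule.finrank_add_finrank_le_of_disjoint hdisj
    have h8 := Submodule.finrank_add_eq_of_isCompl hW
    omega

/-- a family of subspaces cut out by linear conditions depending polynomially on a parameter -/
def PolyFam (Q : ℂ → Submodule ℂ E) : Prop :=
  ∃ (ι : Type) (_ : Finite ι) (P : E →ₗ[ℂ] (ι → Polynomial ℂ)), ∀ τ, Q τ = Z P τ

theorem PolyFam.semicont {Q : ℂ → Submodule ℂ E} (hQ : PolyFam Q) (U : Submodule ℂ E)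
    [Module.Finite ℂ U] (τ₀ : ℂ) :
    ∃ g : Polynomial ℂ, g.eval τ₀ ≠ 0 ∧ ∀ τ, g.eval τ ≠ 0 →
      finrank ℂ ↥(U ⊓ Q τ) ≤ finrank ℂ ↥(U ⊓ Q τ₀) := by
  obtain ⟨ι, hι, P, hP⟩ := hQ
  obtain rfl : Q = fun τ => Z P τ := funext hP
  exact LD.semicont P U τ₀

theorem PolyFam.iInf {κ : Type} [Finite κ] {Q : κ → ℂ → Submodule ℂ E}
    (hQ : ∀ k, PolyFam (Q k)) : PolyFam (fun τ => ⨅ k, Q k τ) := by
  choose ι hι P hP using hQ
  have := hι
  refine ⟨(k : κ) × ι k, inferInstance,
    { toFun := fun v z => P z.1 v z.2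
      map_add' := fun v w => by funext z; simp
      map_smul' := fun c v => by funext z; simp }, fun τ => ?_⟩
  ext v
  rw [Submodule.mem_iInf, mem_Z]
  constructor
  · rintro h ⟨k, i⟩
    have h1 := h k
    rw [hP, mem_Z] at h1
    exact h1 i
  · intro h k
    rw [hP, mem_Z]
    intro i
    exact h ⟨k, i⟩

theorem PolyFam.inf {Q₁ Q₂ : ℂ → Submodule ℂ E} (h₁ : PolyFam Q₁) (h₂ : PolyFam Q₂) :
    PolyFam (fun τ => Q₁ τ ⊓ Q₂ τ) := by
  have h := PolyFam.iInf (κ := Bool) (Q := fun b => if b then Q₁ else Q₂)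
    (by rintro (_ | _) <;> simpa)
  obtain ⟨ι, hι, P, hP⟩ := h
  refine ⟨ι, hι, P, fun τ => ?_⟩
  rw [← hP]
  ext v
  simp [Submodule.mem_iInf, and_comm]

/-- a nonzero polynomial has a nonzero value outside of finitely many parameters; here: two -/
theorem exists_eval_ne {g h : Polynomial ℂ} (hg : g ≠ 0) (hh : h ≠ 0) :
    ∃ τ, g.eval τ ≠ 0 ∧ h.eval τ ≠ 0 := by
  have h1 : g * h ≠ 0 := mul_ne_zero hg hh
  by_contra hcon
  push Not at hcon
  apply h1
  apply Polynomial.funext
  intro τ
  rw [Polynomial.eval_mul, Polynomial.eval_zero]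
  by_cases h2 : g.eval τ = 0
  · rw [h2, zero_mul]
  · rw [hcon τ h2, mul_zero]

theorem ne_zero_of_eval {g : Polynomial ℂ} {τ : ℂ} (h : g.eval τ ≠ 0) : g ≠ 0 := by
  rintro rfl
  exact h Polynomial.eval_zero

end

end Pool.Agent.Work.MP_0421d9_ag.LD
end

section
/-!
Linear systems of plane curves with assigned multiplicities and with assigned orders of vanishing
along lines (flags).
-/

namespace Pool.Agent.Work.MP_0421d9_ag.LD

open MvPolynomial Module

/-- the polynomial `F (q + s v)` in the variable `s` -/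
noncomputable def onLine (q v : V3) : R3 →ₐ[ℂ] Polynomial ℂ :=
  aeval (fun i => Polynomial.C (q i) + Polynomial.C (v i) * Polynomial.X)

/-- the polynomials `F` for which `F (q + s v)` vanishes to order at least `A` at `s = 0` -/
noncomputable def flagSub (q v : V3) (A : ℕ) : Submodule ℂ R3 where
  carrier := {F | ∀ k < A, (onLine q v F).coeff k = 0}
  zero_mem' := by intro k _; simp
  add_mem' := by
    intro F G hF hG k hk
    rw [map_add, Polynomial.coeff_add, hF k hk, hG k hk, add_zero]
  smul_mem' := by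
    intro c F hF k hk
    rw [map_smul, Polynomial.coeff_smul, hF k hk, smul_zero]

theorem mem_flagSub {q v : V3} {A : ℕ} {F : R3} :
    F ∈ flagSub q v A ↔ ∀ k < A, (onLine q v F).coeff k = 0 := Iff.rfl

/-- the polynomials which vanish to order at least `m` at `a` -/
noncomputable def vanSub (a : V3) (m : ℕ) : Submodule ℂ R3 where
  carrier := {F | VanishTo F a m}
  zero_mem' := by intro k _; simp [translate]
  add_mem' := by
    intro F G hF hG k hk
    have h1 := hF k hk
    have h2 := hG k hk
    unfold translate at *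
    rw [map_add, map_add, h1, h2, add_zero]
  smul_mem' := by
    intro c F hF k hk
    have h1 := hF k hk
    unfold translate at *
    rw [map_smul, map_smul, h1, smul_zero]

theorem mem_vanSub {a : V3} {m : ℕ} {F : R3} : F ∈ vanSub a m ↔ VanishTo F a m := Iff.rfl

/-- the polynomials without terms `x ^ α`, `α ∈ T` -/
noncomputable def offSub (T : Set (Fin 3 →₀ ℕ)) : Submodule ℂ R3 where
  carrier := {F | ∀ α ∈ T, coeff α F = 0}
  zero_mem' := by intro k _; simp
  add_mem' := by
    intro F G hF hG α hα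
    rw [coeff_add, hF α hα, hG α hα, add_zero]
  smul_mem' := by
    intro c F hF α hα
    rw [coeff_smul, hF α hα, smul_zero]

theorem mem_offSub {T : Set (Fin 3 →₀ ℕ)} {F : R3} :
    F ∈ offSub T ↔ ∀ α ∈ T, coeff α F = 0 := Iff.rfl

/-- weight of an exponent -/
def wt3 (w : Fin 3 → ℕ) (α : Fin 3 →₀ ℕ) : ℕ := ∑ i, w i * α i

/-- forms of degree `D` with multiplicity at least `y i` at `p i`, and which vanish to order at
least `A l` at `q l` along the line through `q l` with the direction `v l`, for `l < e` -/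
noncomputable def Sys {r : ℕ} (D : ℕ) (y : Fin r → ℕ) (e : ℕ) (A : ℕ → ℕ) (p : Fin r → V3)
    (q v : ℕ → V3) : Submodule ℂ R3 :=
  linSys D p y ⊓ ⨅ l : Fin e, flagSub (q l) (v l) (A l)

theorem mem_Sys {r : ℕ} {D : ℕ} {y : Fin r → ℕ} {e : ℕ} {A : ℕ → ℕ} {p : Fin r → V3}
    {q v : ℕ → V3} {F : R3} : F ∈ Sys D y e A p q v ↔
      F.IsHomogeneous D ∧ (∀ i, VanishTo F (p i) (y i)) ∧
        ∀ l < e, F ∈ flagSub (q l) (v l) (A l) := by
  unfold Sys
  rw [Submodule.mem_inf, Submodule.mem_iInf]
  constructor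
  · rintro ⟨⟨h1, h2⟩, h3⟩
    exact ⟨h1, h2, fun l hl => h3 ⟨l, hl⟩⟩
  · rintro ⟨h1, h2, h3⟩
    exact ⟨⟨h1, h2⟩, fun l => h3 l l.2⟩

theorem Sys_le {r : ℕ} (D : ℕ) (y : Fin r → ℕ) (e : ℕ) (A : ℕ → ℕ) (p : Fin r → V3)
    (q v : ℕ → V3) : Sys D y e A p q v ≤ Rd D := fun _ hF => (mem_Sys.mp hF).1

instance finite_Sys {r : ℕ} (D : ℕ) (y : Fin r → ℕ) (e : ℕ) (A : ℕ → ℕ) (p : Fin r → V3)
    (q v : ℕ → V3) : Module.Finite ℂ (Sys D y e A p q v) :=
  Submodule.finiteDimensional_of_le (Sys_le D y e A p q v)

/-- for some position of the points and of the flags, the dimension is at most `n` -/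
def Good {r : ℕ} (D : ℕ) (y : Fin r → ℕ) (e : ℕ) (A : ℕ → ℕ) (n : ℕ) : Prop :=
  ∃ (p : Fin r → V3) (q v : ℕ → V3), finrank ℂ (Sys D y e A p q v) ≤ n

/-- for some points `p k` with nonzero coordinates, there is no form of degree `D` with support in
`T` and with multiplicity at least `u` at all of the `n` points -/
def Kills (D u n : ℕ) (T : Set (Fin 3 →₀ ℕ)) : Prop :=
  ∃ p : Fin n → V3, (∀ k i, p k i ≠ 0) ∧ ∀ G : R3, G.IsHomogeneous D →
    (∀ α ∈ G.support, α ∈ T) → (∀ k, VanishTo G (p k) u) → G = 0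

/-- polynomials in one variable which vanish to order at least `A` at `c` -/
noncomputable def ordSub (c : ℂ) (A : ℕ) : Submodule ℂ (Polynomial ℂ) where
  carrier := {g | ∀ k < A, (g.comp (Polynomial.X + Polynomial.C c)).coeff k = 0}
  zero_mem' := by intro k _; simp
  add_mem' := by
    intro F G hF hG k hk
    rw [Polynomial.add_comp, Polynomial.coeff_add, hF k hk, hG k hk, add_zero]
  smul_mem' := by
    intro c F hF k hk
    rw [Polynomial.smul_comp, Polynomial.coeff_smul, hF k hk, smul_zero]

end Pool.Agent.Work.MP_0421d9_ag.LD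
end

section
/-!
The conditions on forms given by points and flags depend polynomially on the points and flags.
-/

namespace Pool.Agent.Work.MP_0421d9_ag.LD

open MvPolynomial Module

theorem vanishTo_iff_coeff {F : R3} {a : V3} {m : ℕ} :
    VanishTo F a m ↔ ∀ β : Fin 3 →₀ ℕ, β.degree < m → coeff β (translate a F) = 0 := by
  constructor
  · intro h β hβ
    have h1 := congrArg (coeff β) (h β.degree hβ)
    rw [coeff_homogeneousComponent, if_pos rfl, coeff_zero] at h1
    exact h1
  · intro h k hk
    ext β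
    rw [coeff_homogeneousComponent, coeff_zero]
    split_ifs with h1
    · exact h β (h1 ▸ hk)
    · rfl

/-- translation by a point depending on a parameter -/
noncomputable def translateP (p : Fin 3 → Polynomial ℂ) :
    R3 →ₐ[ℂ] MvPolynomial (Fin 3) (Polynomial ℂ) :=
  aeval (fun k => C (p k) + X k)

theorem map_translateP (p : Fin 3 → Polynomial ℂ) (F : R3) (τ : ℂ) :
    map (Polynomial.evalRingHom τ) (translateP p F) =
      translate (fun k => (p k).eval τ) F := by
  unfold translateP translate
  induction F using MvPolynomial.induction_on with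
  | C c =>
    rw [algHom_C, algHom_C]
    have h1 : (algebraMap ℂ (MvPolynomial (Fin 3) (Polynomial ℂ))) c = C (Polynomial.C c) := rfl
    rw [h1, map_C]
    simp
  | add f g hf hg => rw [map_add, map_add, map_add, hf, hg]
  | mul_X f k hf =>
    rw [map_mul, map_mul, map_mul, hf, aeval_X, aeval_X]
    congr 1
    rw [map_add, map_C, map_X]
    simp

theorem eval_coeff_translateP (p : Fin 3 → Polynomial ℂ) (F : R3) (τ : ℂ) (β : Fin 3 →₀ ℕ) :
    (coeff β (translateP p F)).eval τ = coeff β (translate (fun k => (p k).eval τ) F) := by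
  rw [← map_translateP, coeff_map]
  rfl

instance finite_lt (m : ℕ) : Finite {β : Fin 3 →₀ ℕ // β.degree < m} := by
  have h : {β : Fin 3 →₀ ℕ | β.degree < m}.Finite :=
    (Finsupp.finite_of_degree_le m).subset (fun β hβ => by
      have h1 : β.degree < m := hβ
      exact h1.le)
  exact h

theorem polyFam_van (p : Fin 3 → Polynomial ℂ) (m : ℕ) :
    PolyFam (fun τ => vanSub (fun k => (p k).eval τ) m) := by
  refine ⟨{β : Fin 3 →₀ ℕ // β.degree < m}, inferInstance,
    { toFun := fun F β => coeff β.1 (translateP p F)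
      map_add' := fun F G => by funext β; simp
      map_smul' := fun c F => by funext β; simp [coeff_smul] }, fun τ => ?_⟩
  ext F
  rw [mem_vanSub, vanishTo_iff_coeff, mem_Z]
  constructor
  · intro h β
    have h1 := h β.1 β.2
    rw [← eval_coeff_translateP] at h1
    exact h1
  · intro h β hβ
    rw [← eval_coeff_translateP]
    exact h ⟨β, hβ⟩

/-- restriction to a line depending on a parameter -/
noncomputable def onLineP (q v : Fin 3 → Polynomial ℂ) :
    R3 →ₐ[ℂ] Polynomial (Polynomial ℂ) :=
  aeval (fun i => Polynomial.C (q i) + Polynomial.C (v i) * Polynomial.X)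

theorem map_onLineP (q v : Fin 3 → Polynomial ℂ) (F : R3) (τ : ℂ) :
    Polynomial.map (Polynomial.evalRingHom τ) (onLineP q v F) =
      onLine (fun k => (q k).eval τ) (fun k => (v k).eval τ) F := by
  unfold onLineP onLine
  induction F using MvPolynomial.induction_on with
  | C c =>
    rw [algHom_C, algHom_C]
    have h1 : (algebraMap ℂ (Polynomial (Polynomial ℂ))) c = Polynomial.C (Polynomial.C c) := rfl
    rw [h1, Polynomial.map_C]
    simp
  | add f g hf hg => rw [map_add, map_add, Polynomial.map_add, hf, hg]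
  | mul_X f k hf =>
    rw [map_mul, map_mul, Polynomial.map_mul, hf, aeval_X, aeval_X]
    congr 1
    simp

theorem polyFam_flag (q v : Fin 3 → Polynomial ℂ) (A : ℕ) :
    PolyFam (fun τ => flagSub (fun k => (q k).eval τ) (fun k => (v k).eval τ) A) := by
  refine ⟨Fin A, inferInstance,
    { toFun := fun F k => (onLineP q v F).coeff k
      map_add' := fun F G => by funext β; simp
      map_smul' := fun c F => by funext β; simp [Polynomial.coeff_smul] }, fun τ => ?_⟩
  have h0 : ∀ (F : R3) (k : ℕ), ((onLineP q v F).coeff k).eval τ =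
      (onLine (fun k => (q k).eval τ) (fun k => (v k).eval τ) F).coeff k := by
    intro F k
    rw [← map_onLineP, Polynomial.coeff_map]
    rfl
  ext F
  rw [mem_flagSub, mem_Z]
  constructor
  · intro h k
    have h1 := h k.1 k.2
    rw [← h0] at h1
    exact h1
  · intro h k hk
    rw [← h0]
    exact h ⟨k, hk⟩

/-- the systems with points and flags depending polynomially on a parameter -/
theorem polyFam_Sys {r : ℕ} (y : Fin r → ℕ) (e : ℕ) (A : ℕ → ℕ)
    (p : Fin r → Fin 3 → Polynomial ℂ) (q v : ℕ → Fin 3 → Polynomial ℂ) :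
    PolyFam (fun τ => (⨅ i, vanSub (fun k => (p i k).eval τ) (y i)) ⊓
      ⨅ l : Fin e, flagSub (fun k => (q l k).eval τ) (fun k => (v l k).eval τ) (A l)) :=
  PolyFam.inf (PolyFam.iInf fun i => polyFam_van (p i) (y i))
    (PolyFam.iInf fun l : Fin e => polyFam_flag (q l) (v l) (A l))

theorem Sys_eq {r : ℕ} (D : ℕ) (y : Fin r → ℕ) (e : ℕ) (A : ℕ → ℕ) (p : Fin r → V3)
    (q v : ℕ → V3) : Sys D y e A p q v =
      Rd D ⊓ ((⨅ i, vanSub (p i) (y i)) ⊓ ⨅ l : Fin e, flagSub (q l) (v l) (A l)) := by
  ext F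
  rw [mem_Sys, Submodule.mem_inf, Submodule.mem_inf, Submodule.mem_iInf, Submodule.mem_iInf]
  constructor
  · rintro ⟨h1, h2, h3⟩
    exact ⟨h1, h2, fun l => h3 l l.2⟩
  · rintro ⟨h1, h2, h3⟩
    exact ⟨h1, h2, fun l hl => h3 ⟨l, hl⟩⟩

/-- semicontinuity for the systems: moving the points and the flags on straight lines -/
theorem Sys_semicont {r : ℕ} (D : ℕ) (y : Fin r → ℕ) (e : ℕ) (A : ℕ → ℕ)
    (p p' : Fin r → V3) (q v q' v' : ℕ → V3) :
    ∃ g : Polynomial ℂ, g ≠ 0 ∧ ∀ τ, g.eval τ ≠ 0 →
      finrank ℂ (Sys D y e A (fun i k => p i k + τ * (p' i k - p i k))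
        (fun l k => q l k + τ * (q' l k - q l k)) (fun l k => v l k + τ * (v' l k - v l k))) ≤
      finrank ℂ (Sys D y e A p q v) := by
  have h := polyFam_Sys y e A
    (fun i k => Polynomial.C (p i k) + Polynomial.X * Polynomial.C (p' i k - p i k))
    (fun l k => Polynomial.C (q l k) + Polynomial.X * Polynomial.C (q' l k - q l k))
    (fun l k => Polynomial.C (v l k) + Polynomial.X * Polynomial.C (v' l k - v l k))
  simp only [Polynomial.eval_add, Polynomial.eval_mul, Polynomial.eval_C, Polynomial.eval_X] at h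
  obtain ⟨g, hg, h1⟩ := h.semicont (Rd D) 0
  refine ⟨g, ne_zero_of_eval hg, fun τ hτ => ?_⟩
  have h2 := h1 τ hτ
  have h3 : ((⨅ i, vanSub (fun k => p i k + 0 * (p' i k - p i k)) (y i)) ⊓
      ⨅ l : Fin e, flagSub (fun k => q l k + 0 * (q' l k - q l k))
        (fun k => v l k + 0 * (v' l k - v l k)) (A l)) =
      ((⨅ i, vanSub (p i) (y i)) ⊓ ⨅ l : Fin e, flagSub (q l) (v l) (A l)) := by
    simp only [zero_mul, add_zero]
  rw [h3, ← Sys_eq] at h2
  rw [Sys_eq]
  exact h2

end Pool.Agent.Work.MP_0421d9_ag.LD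
end

section
/-!
At a general point, the vanishing orders of a finite dimensional space of polynomials in one
variable are as small as possible.
-/

namespace Pool.Agent.Work.MP_0421d9_ag.LD

open Module

theorem mem_ordSub {c : ℂ} {A : ℕ} {g : Polynomial ℂ} :
    g ∈ ordSub c A ↔ ∀ k < A, (Polynomial.hasseDeriv k g).eval c = 0 := by
  constructor
  · intro h k hk
    rw [← Polynomial.taylor_coeff, Polynomial.taylor_apply]
    exact h k hk
  · intro h k hk
    rw [← Polynomial.taylor_apply, Polynomial.taylor_coeff]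
    exact h k hk

/-- generators with distinct degrees -/
theorem exists_gens : ∀ (N : ℕ) (G : Submodule ℂ (Polynomial ℂ)), Module.Finite ℂ G →
    finrank ℂ G ≤ N → ∃ n ≤ finrank ℂ G, ∃ g : Fin n → Polynomial ℂ,
      (∀ i, g i ∈ G ∧ g i ≠ 0) ∧ Function.Injective (fun i => (g i).natDegree) ∧
        ∀ f ∈ G, ∃ y : Fin n → ℂ, f = ∑ i, y i • g i := by
  classical
  intro N
  induction N with
  | zero =>
    intro G hG hN
    refine ⟨0, Nat.zero_le _, fun i => i.elim0, fun i => i.elim0, fun i => i.elim0, ?_⟩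
    intro f hf
    have h1 : G = ⊥ := Submodule.finrank_eq_zero.mp (Nat.le_zero.mp hN)
    rw [h1, Submodule.mem_bot] at hf
    exact ⟨fun _ => 0, by simp [hf]⟩
  | succ N ih =>
    intro G hG hN
    by_cases h0 : G = ⊥
    · refine ⟨0, Nat.zero_le _, fun i => i.elim0, fun i => i.elim0, fun i => i.elim0, ?_⟩
      intro f hf
      rw [h0, Submodule.mem_bot] at hf
      exact ⟨fun _ => 0, by simp [hf]⟩
    · obtain ⟨f₁, hf₁, hf₁0⟩ := Submodule.exists_mem_ne_zero_of_ne_bot h0
      have hex : ∃ d : ℕ, ∃ f ∈ G, f ≠ 0 ∧ f.natDegree = d := ⟨_, f₁, hf₁, hf₁0, rfl⟩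
      obtain ⟨f, hf, hf0, hfd⟩ := Nat.find_spec hex
      have hmin : ∀ g ∈ G, g ≠ 0 → Nat.find hex ≤ g.natDegree := fun g hg hg0 =>
        Nat.find_min' hex ⟨g, hg, hg0, rfl⟩
      set d := Nat.find hex with hd
      have hlc : f.coeff d ≠ 0 := by
        rw [← hfd]
        exact fun h => hf0 (Polynomial.leadingCoeff_eq_zero.mp h)
      let G' : Submodule ℂ (Polynomial ℂ) := G ⊓ LinearMap.ker (Polynomial.lcoeff ℂ d)
      have hG'mem : ∀ g, g ∈ G' ↔ g ∈ G ∧ g.coeff d = 0 := by
        intro g
        rw [Submodule.mem_inf, LinearMap.mem_ker, Polynomial.lcoeff_apply]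
      have hle : G' ≤ G := inf_le_left
      have hlt : G' < G := by
        refine lt_of_le_of_ne hle (fun h => hlc ?_)
        rw [← h] at hf
        exact ((hG'mem f).mp hf).2
      have hfin : Module.Finite ℂ G' := Submodule.finiteDimensional_of_le hle
      have hrk : finrank ℂ G' < finrank ℂ G := Submodule.finrank_lt_finrank_of_lt hlt
      obtain ⟨n, hn, g, hg, hinj, hspan⟩ := ih G' hfin (by omega)
      have hdeg : ∀ i, d < (g i).natDegree := by
        intro i
        obtain ⟨h1, h2⟩ := (hG'mem _).mp (hg i).1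
        refine lt_of_le_of_ne (hmin _ h1 (hg i).2) (fun h => (hg i).2 ?_)
        rw [h] at h2
        exact Polynomial.leadingCoeff_eq_zero.mp h2
      refine ⟨n + 1, by omega, Fin.cons f g, ?_, ?_, ?_⟩
      · intro i
        refine Fin.cases ⟨hf, hf0⟩ (fun j => ?_) i
        exact ⟨hle (hg j).1, (hg j).2⟩
      · intro i j
        refine Fin.cases ?_ (fun i => ?_) i
        · refine Fin.cases (fun _ => rfl) (fun j hj => ?_) j
          simp only [Fin.cons_zero, Fin.cons_succ] at hj
          have := hdeg j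
          omega
        · refine Fin.cases (fun hj => ?_) (fun j hj => ?_) j
          · simp only [Fin.cons_zero, Fin.cons_succ] at hj
            have := hdeg i
            omega
          · simp only [Fin.cons_succ] at hj
            rw [hinj hj]
      · intro w hw
        have h1 : w - (w.coeff d / f.coeff d) • f ∈ G' := by
          rw [hG'mem]
          refine ⟨G.sub_mem hw (G.smul_mem _ hf), ?_⟩
          rw [Polynomial.coeff_sub, Polynomial.coeff_smul, smul_eq_mul, div_mul_cancel₀ _ hlc,
            sub_self]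
        obtain ⟨y, hy⟩ := hspan _ h1
        refine ⟨Fin.cons (w.coeff d / f.coeff d) y, ?_⟩
        rw [Fin.sum_univ_succ]
        simp only [Fin.cons_zero, Fin.cons_succ]
        rw [← hy]
        abel

theorem det_choose_ne {n : ℕ} {d : Fin n → ℕ} (hd : Function.Injective d) :
    (Matrix.of (fun i j : Fin n => ((d i).choose j : ℂ))).det ≠ 0 := by
  have h1 := Matrix.det_eval_matrixOfPolynomials_eq_det_vandermonde (fun i => (d i : ℂ))
    (fun i : Fin n => descPochhammer ℂ i)
    (fun i => descPochhammer_natDegree ℂ i)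
    (fun i => monic_descPochhammer ℂ i)
  have h2 : (Matrix.vandermonde (fun i => (d i : ℂ))).det ≠ 0 :=
    Matrix.det_vandermonde_ne_zero_iff.mpr (fun i j hij => hd (by exact_mod_cast hij))
  intro h3
  apply h2
  rw [h1]
  have h4 : (Matrix.of (fun i j : Fin n => (descPochhammer ℂ j).eval ((d i : ℕ) : ℂ))) =
      Matrix.of (fun i j : Fin n => ((j : ℕ).factorial : ℂ) *
        (Matrix.of (fun i j : Fin n => ((d i).choose j : ℂ))) i j) := by
    ext i j
    rw [Matrix.of_apply, Matrix.of_apply, Matrix.of_apply, descPochhammer_eval_eq_descFactorial,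
      Nat.descFactorial_eq_factorial_mul_choose]
    push_cast
    rfl
  rw [h4, Matrix.det_mul_row, h3, mul_zero]

/-- at some point all orders of vanishing are small -/
theorem exists_ordSub_eq_bot (n : ℕ) (g : Fin n → Polynomial ℂ) (hg : ∀ i, g i ≠ 0)
    (hinj : Function.Injective (fun i => (g i).natDegree)) :
    ∃ c : ℂ, ∀ y : Fin n → ℂ, (∑ i, y i • g i) ∈ ordSub c n → y = 0 := by
  classical
  let R : Matrix (Fin n) (Fin n) (Polynomial ℂ) := fun i k =>
    ∑ j ∈ Finset.range ((g i).natDegree + 1),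
      Polynomial.C ((g i).coeff j * (j.choose k : ℂ)) * Polynomial.X ^ ((g i).natDegree - j)
  have hR0 : R.det.eval 0 ≠ 0 := by
    rw [← Polynomial.coe_evalRingHom, RingHom.map_det]
    have h1 : (Polynomial.evalRingHom (0 : ℂ)).mapMatrix R =
        Matrix.of (fun i j : Fin n => (g i).leadingCoeff *
          (Matrix.of (fun i j : Fin n => (((g i).natDegree).choose j : ℂ))) i j) := by
      ext i k
      rw [RingHom.mapMatrix_apply, Matrix.map_apply, Polynomial.coe_evalRingHom, Matrix.of_apply,
        Matrix.of_apply]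
      simp only [R]
      rw [Polynomial.eval_finsetSum, Finset.sum_range_succ, Finset.sum_eq_zero]
      · rw [zero_add, Nat.sub_self, pow_zero, mul_one, Polynomial.eval_C]
        rfl
      · intro j hj
        rw [Finset.mem_range] at hj
        rw [Polynomial.eval_mul, Polynomial.eval_pow, Polynomial.eval_X, zero_pow (by omega),
          mul_zero]
    rw [h1, Matrix.det_mul_column]
    refine mul_ne_zero (Finset.prod_ne_zero_iff.mpr fun i _ => ?_) (det_choose_ne hinj)
    exact fun h => hg i (Polynomial.leadingCoeff_eq_zero.mp h)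
  obtain ⟨τ, hτ, hτ0⟩ := exists_eval_ne (ne_zero_of_eval hR0)
    (Polynomial.X_ne_zero (R := ℂ))
  rw [Polynomial.eval_X] at hτ0
  refine ⟨τ⁻¹, fun y hy => ?_⟩
  rw [mem_ordSub] at hy
  have hRe : ∀ i (k : Fin n), (R i k).eval τ =
      τ ^ (g i).natDegree * (τ⁻¹) ^ (k : ℕ) * (Polynomial.hasseDeriv k (g i)).eval τ⁻¹ := by
    intro i k
    rw [Polynomial.hasseDeriv_apply, Polynomial.sum_over_range' _ _ ((g i).natDegree + 1)
      (Nat.lt_succ_self _)]
    · rw [Polynomial.eval_finsetSum (Finset.range ((g i).natDegree + 1)) _ τ⁻¹, Finset.mul_sum]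
      simp only [R]
      rw [Polynomial.eval_finsetSum]
      refine Finset.sum_congr rfl (fun j hj => ?_)
      rw [Finset.mem_range] at hj
      rw [Polynomial.eval_mul, Polynomial.eval_C, Polynomial.eval_pow, Polynomial.eval_X,
        Polynomial.eval_monomial]
      rcases Nat.lt_or_ge j k with hjk | hjk
      · rw [Nat.choose_eq_zero_of_lt hjk]
        simp
      · have h1 : τ ^ ((g i).natDegree - j) = τ ^ (g i).natDegree * (τ⁻¹) ^ j := by
          rw [inv_pow, ← div_eq_mul_inv, eq_div_iff (pow_ne_zero _ hτ0), ← pow_add]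
          congr 1
          omega
        have h2 : (τ⁻¹) ^ j = (τ⁻¹) ^ (k : ℕ) * (τ⁻¹) ^ (j - k) := by
          rw [← pow_add]
          congr 1
          omega
        rw [h1, h2]
        ring
    · intro m
      simp
  have hx : Matrix.vecMul (fun i => y i * (τ ^ (g i).natDegree)⁻¹)
      ((Polynomial.evalRingHom τ).mapMatrix R) = 0 := by
    funext k
    rw [Matrix.vecMul, dotProduct, Pi.zero_apply]
    have h1 := hy k k.2
    rw [map_sum, Polynomial.eval_finsetSum] at h1
    have h2 : ∑ i, y i * (τ ^ (g i).natDegree)⁻¹ *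
        ((Polynomial.evalRingHom τ).mapMatrix R) i k =
        (τ⁻¹) ^ (k : ℕ) * ∑ i, (Polynomial.hasseDeriv (k : ℕ) (y i • g i)).eval τ⁻¹ := by
      rw [Finset.mul_sum]
      refine Finset.sum_congr rfl (fun i _ => ?_)
      rw [RingHom.mapMatrix_apply, Matrix.map_apply, Polynomial.coe_evalRingHom, hRe, map_smul,
        Polynomial.eval_smul, smul_eq_mul]
      field_simp
    rw [h2, h1, mul_zero]
  have hdet : ((Polynomial.evalRingHom τ).mapMatrix R).det ≠ 0 := by
    rw [← RingHom.map_det, Polynomial.coe_evalRingHom]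
    exact hτ
  have hx0 : (fun i => y i * (τ ^ (g i).natDegree)⁻¹) = 0 := by
    by_contra hne
    exact hdet (Matrix.exists_vecMul_eq_zero_iff.mp ⟨_, hne, hx⟩)
  funext i
  have h3 := congrFun hx0 i
  simp only [Pi.zero_apply] at h3
  exact (mul_eq_zero.mp h3).resolve_right (inv_ne_zero (pow_ne_zero _ hτ0))

theorem order_point (G : Submodule ℂ (Polynomial ℂ)) [hG : Module.Finite ℂ G] :
    ∃ c : ℂ, ∀ A, finrank ℂ ↥(G ⊓ ordSub c A) ≤ finrank ℂ G - A := by
  classical
  obtain ⟨n, hn, g, hg, hinj, hspan⟩ := exists_gens _ G hG le_rfl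
  obtain ⟨c, hc⟩ := exists_ordSub_eq_bot n g (fun i => (hg i).2) hinj
  refine ⟨c, fun A => ?_⟩
  set m := finrank ℂ G with hm
  have hbot : ∀ f ∈ G, f ∈ ordSub c m → f = 0 := by
    intro f hf hf'
    obtain ⟨y, hy⟩ := hspan f hf
    have h1 : f ∈ ordSub c n := fun k hk => hf' k (by omega)
    rw [hy] at h1
    rw [hy, hc y h1]
    simp
  have hfin : Module.Finite ℂ ↥(G ⊓ ordSub c A) := Submodule.finiteDimensional_of_le inf_le_left
  let φ : Polynomial ℂ →ₗ[ℂ] (Fin (m - A) → ℂ) := LinearMap.pi (fun k =>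
    (Polynomial.leval c) ∘ₗ (Polynomial.hasseDeriv (A + k)))
  have hφ : ∀ f k, φ f k = (Polynomial.hasseDeriv (A + k) f).eval c := fun f k => rfl
  have hinj' : Function.Injective (φ ∘ₗ (G ⊓ ordSub c A).subtype) := by
    rw [← LinearMap.ker_eq_bot, Submodule.eq_bot_iff]
    intro f hf
    rw [LinearMap.mem_ker, LinearMap.comp_apply] at hf
    apply Subtype.ext
    apply hbot
    · exact (Submodule.mem_inf.mp f.2).1
    · rw [mem_ordSub]
      intro k hk
      rcases Nat.lt_or_ge k A with hkA | hkA
      · exact mem_ordSub.mp (Submodule.mem_inf.mp f.2).2 k hkA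
      · have h2 := congrFun hf ⟨k - A, by omega⟩
        rw [hφ] at h2
        have h3 : A + (k - A) = k := by omega
        simp only [Submodule.subtype_apply, Pi.zero_apply, h3] at h2
        exact h2
  have h4 := LinearMap.finrank_le_finrank_of_injective hinj'
  rw [Module.finrank_fin_fun] at h4
  exact h4

theorem order_generic (G : Submodule ℂ (Polynomial ℂ)) [Module.Finite ℂ G] (A : ℕ) :
    ∃ h : Polynomial ℂ, h ≠ 0 ∧ ∀ c, h.eval c ≠ 0 →
      finrank ℂ ↥(G ⊓ ordSub c A) ≤ finrank ℂ G - A := by
  classical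
  obtain ⟨c₀, hc₀⟩ := order_point G
  let P : Polynomial ℂ →ₗ[ℂ] (Fin A → Polynomial ℂ) :=
    LinearMap.pi (fun k => Polynomial.hasseDeriv (k : ℕ))
  have hP : ∀ c, Z P c = ordSub c A := by
    intro c
    ext f
    rw [mem_Z, mem_ordSub]
    constructor
    · intro h k hk
      exact h ⟨k, hk⟩
    · intro h k
      exact h k k.2
  obtain ⟨h, hh, h1⟩ := semicont P G c₀
  refine ⟨h, ne_zero_of_eval hh, fun c hc => ?_⟩
  have h2 := h1 c hc
  rw [hP, hP] at h2
  exact h2.trans (hc₀ A)

end Pool.Agent.Work.MP_0421d9_ag.LD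
end

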