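import Mathlib

section
/-!
Counting multisets of multiplicities: definitions.
-/

namespace Pool.Agent.Work.MP_0421d9_ag.AA

/-- the number of conditions imposed by a point of multiplicity `v` -/
def tr (v : ℕ) : ℕ := (v + 1).choose 2

/-- the number of conditions imposed by `f i` points of multiplicity `i + 1` for all `i < V` -/
def wt {V : ℕ} (f : Fin V → ℕ) : ℕ := ∑ i, f i * tr (i + 1)

/-- the configurations with at most `n` conditions -/
def FF (V n : ℕ) : Finset (Fin V → ℕ) :=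
  (Fintype.piFinset (fun _ => Finset.range (n + 1))).filter (fun f => wt f ≤ n)

/-- the generating function -/
noncomputable def ZZ (V : ℕ) (x : ℝ) : ℝ := ∏ i : Fin V, (1 - Real.exp (-(x * tr (i + 1))))⁻¹

theorem tr_pos {v : ℕ} (hv : 1 ≤ v) : 1 ≤ tr v := by
  unfold tr
  exact Nat.choose_pos (by omega)

theorem two_mul_tr (v : ℕ) : 2 * tr v = v * (v + 1) := by
  unfold tr
  rw [Nat.choose_two_right, Nat.add_sub_cancel, mul_comm (v + 1) v, Nat.mul_div_cancel']
  exact (Nat.even_mul_succ_self v).two_dvd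

theorem le_wt {V : ℕ} (f : Fin V → ℕ) (i : Fin V) : f i * tr (i + 1) ≤ wt f :=
  Finset.single_le_sum (f := fun i => f i * tr (i + 1)) (fun _ _ => Nat.zero_le _)
    (Finset.mem_univ i)

theorem mem_FF {V n : ℕ} {f : Fin V → ℕ} : f ∈ FF V n ↔ wt f ≤ n := by
  unfold FF
  rw [Finset.mem_filter, Fintype.mem_piFinset]
  refine ⟨fun h => h.2, fun h => ⟨fun i => ?_, h⟩⟩
  rw [Finset.mem_range]
  have h1 := le_wt f i
  have h2 := tr_pos (v := i + 1) (by omega)
  have h3 : f i * 1 ≤ f i * tr (i + 1) := Nat.mul_le_mul_left _ h2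
  omega

theorem zero_mem_FF (V n : ℕ) : (0 : Fin V → ℕ) ∈ FF V n := by
  rw [mem_FF]
  unfold wt
  simp

end Pool.Agent.Work.MP_0421d9_ag.AA
end

section
/-!
Counting multisets of multiplicities: the generating function.
-/

namespace Pool.Agent.Work.MP_0421d9_ag.AA

open Finset

theorem exp_sum_eq {V : ℕ} (y : Fin V → ℝ) (f : Fin V → ℕ) :
    Real.exp (-∑ i, y i * f i) = ∏ i, Real.exp (-y i) ^ f i := by
  rw [← Finset.sum_neg_distrib, Real.exp_sum]
  refine Finset.prod_congr rfl fun i _ => ?_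
  rw [← Real.exp_nat_mul]
  congr 1
  ring

theorem sum_pi {V : ℕ} (y : Fin V → ℝ) (L : ℕ) :
    ∑ f ∈ Fintype.piFinset (fun _ : Fin V => range L), Real.exp (-∑ i, y i * f i) =
      ∏ i, ∑ k ∈ range L, Real.exp (-y i) ^ k := by
  rw [Finset.prod_univ_sum]
  exact sum_congr rfl fun f _ => exp_sum_eq y f

theorem geom_le {y : ℝ} (hy : 0 < y) (L : ℕ) :
    ∑ k ∈ range L, Real.exp (-y) ^ k ≤ (1 - Real.exp (-y))⁻¹ := by
  have h0 : 0 ≤ Real.exp (-y) := (Real.exp_pos _).le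
  have h1 : Real.exp (-y) < 1 := Real.exp_lt_one_iff.2 (by linarith)
  rw [← tsum_geometric_of_lt_one h0 h1]
  exact (summable_geometric_of_lt_one h0 h1).sum_le_tsum _ (fun k _ => pow_nonneg h0 k)

/-- upper bound for the generating function -/
theorem sum_le_prod {V : ℕ} (y : Fin V → ℝ) (hy : ∀ i, 0 < y i) (A : Finset (Fin V → ℕ)) :
    ∑ f ∈ A, Real.exp (-∑ i, y i * f i) ≤ ∏ i, (1 - Real.exp (-y i))⁻¹ := by
  obtain ⟨L, hL⟩ : ∃ L : ℕ, ∀ f ∈ A, ∀ i, f i < L := by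
    refine ⟨(∑ f ∈ A, ∑ i, f i) + 1, fun f hf i => ?_⟩
    have h1 : f i ≤ ∑ i, f i := single_le_sum (fun _ _ => Nat.zero_le _) (mem_univ i)
    have h2 : (∑ i, f i) ≤ ∑ f ∈ A, ∑ i, f i :=
      single_le_sum (f := fun f : Fin V → ℕ => ∑ i, f i) (fun _ _ => Nat.zero_le _) hf
    omega
  calc ∑ f ∈ A, Real.exp (-∑ i, y i * f i)
      ≤ ∑ f ∈ Fintype.piFinset (fun _ : Fin V => range L), Real.exp (-∑ i, y i * f i) := by
        refine sum_le_sum_of_subset_of_nonneg (fun f hf => ?_) fun _ _ _ => (Real.exp_pos _).le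
        rw [Fintype.mem_piFinset]
        exact fun i => mem_range.2 (hL f hf i)
    _ = ∏ i, ∑ k ∈ range L, Real.exp (-y i) ^ k := sum_pi y L
    _ ≤ ∏ i, (1 - Real.exp (-y i))⁻¹ :=
        prod_le_prod (fun i _ => sum_nonneg fun k _ => pow_nonneg (Real.exp_pos _).le k)
          fun i _ => geom_le (hy i) L

/-- lower bound for the truncated generating function -/
theorem prod_le_sum {V : ℕ} (y : Fin V → ℝ) (hy : ∀ i, 0 < y i) {δ : ℝ} (hδ : 0 < δ) :
    ∃ L₀ : ℕ, ∀ L : ℕ, L₀ ≤ L → (∏ i, (1 - Real.exp (-y i))⁻¹) * (1 - δ) ≤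
      ∑ f ∈ Fintype.piFinset (fun _ : Fin V => range L), Real.exp (-∑ i, y i * f i) := by
  have h0 : ∀ i, 0 ≤ Real.exp (-y i) := fun i => (Real.exp_pos _).le
  have h1 : ∀ i, Real.exp (-y i) < 1 := fun i => Real.exp_lt_one_iff.2 (by linarith [hy i])
  have hlim : Filter.Tendsto (fun L : ℕ => ∏ i, ∑ k ∈ range L, Real.exp (-y i) ^ k)
      Filter.atTop (nhds (∏ i, (1 - Real.exp (-y i))⁻¹)) := by
    refine tendsto_finsetProd _ fun i _ => ?_
    exact (hasSum_geometric_of_lt_one (h0 i) (h1 i)).tendsto_sum_nat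
  have hZ : 0 < ∏ i, (1 - Real.exp (-y i))⁻¹ :=
    prod_pos fun i _ => inv_pos.2 (by linarith [h1 i])
  have hlt : (∏ i, (1 - Real.exp (-y i))⁻¹) * (1 - δ) < ∏ i, (1 - Real.exp (-y i))⁻¹ := by
    nlinarith
  obtain ⟨L₀, hL₀⟩ := Filter.eventually_atTop.1 (hlim.eventually_const_lt hlt)
  refine ⟨L₀, fun L hL => ?_⟩
  rw [sum_pi]
  exact (hL₀ L hL).le

end Pool.Agent.Work.MP_0421d9_ag.AA
end

section
/-!
Counting multisets of multiplicities: three bounds.
-/

namespace Pool.Agent.Work.MP_0421d9_ag.AA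

open Finset

theorem wt_cast {V : ℕ} (x : ℝ) (f : Fin V → ℕ) :
    x * (wt f : ℝ) = ∑ i : Fin V, x * tr (i + 1) * f i := by
  unfold wt
  push_cast
  rw [Finset.mul_sum]
  exact sum_congr rfl fun i _ => by ring

theorem tr_pos' {x : ℝ} (hx : 0 < x) {V : ℕ} (i : Fin V) : 0 < x * (tr (i + 1) : ℝ) := by
  have h : (1 : ℝ) ≤ tr ((i : ℕ) + 1) := by exact_mod_cast tr_pos (v := (i : ℕ) + 1) (by omega)
  have : (0 : ℝ) < tr ((i : ℕ) + 1) := by linarith
  exact mul_pos hx this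

theorem tr_mono {u v : ℕ} (h : u ≤ v) : tr u ≤ tr v := by
  have h1 := two_mul_tr u
  have h2 := two_mul_tr v
  have h3 : u * (u + 1) ≤ v * (v + 1) := Nat.mul_le_mul h (by omega)
  omega

/-- few configurations with a large part -/
theorem large_part {x : ℝ} (hx : 0 < x) (V n V0 : ℕ) :
    (((FF V n).filter (fun f => ∃ i : Fin V, V0 ≤ (i : ℕ) + 1 ∧ f i ≠ 0)).card : ℝ) ≤
      V * Real.exp (-(x * tr V0)) * Real.exp (x * n) * ZZ V x := by
  classical
  have hZ0 : 0 ≤ ZZ V x := by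
    unfold ZZ
    refine prod_nonneg fun i _ => inv_nonneg.2 ?_
    have := Real.exp_lt_one_iff.2 (neg_lt_zero.2 (tr_pos' hx i))
    linarith
  have hone : ∀ i : Fin V, V0 ≤ (i : ℕ) + 1 → (((FF V n).filter (fun f => f i ≠ 0)).card : ℝ) ≤
      Real.exp (-(x * tr V0)) * Real.exp (x * n) * ZZ V x := by
    intro i hi
    -- remove one copy of the part
    set S := (FF V n).filter (fun f => f i ≠ 0) with hS
    let φ : (Fin V → ℕ) → (Fin V → ℕ) := fun f => Function.update f i (f i - 1)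
    have hinj : Set.InjOn φ S := by
      intro f hf g hg hfg
      have hf' : f i ≠ 0 := (mem_filter.1 hf).2
      have hg' : g i ≠ 0 := (mem_filter.1 hg).2
      funext j
      have h1 := congrFun hfg j
      simp only [φ] at h1
      by_cases hj : j = i
      · subst hj
        rw [Function.update_self, Function.update_self] at h1
        omega
      · rwa [Function.update_of_ne hj, Function.update_of_ne hj] at h1
    have hwt : ∀ f ∈ S, wt (φ f) + tr (i + 1) = wt f := by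
      intro f hf
      have hf' : f i ≠ 0 := (mem_filter.1 hf).2
      unfold wt
      rw [← add_sum_erase univ _ (mem_univ i), ← add_sum_erase univ (fun j => f j * tr (j + 1))
        (mem_univ i)]
      have h1 : ∑ j ∈ univ.erase i, φ f j * tr (j + 1) = ∑ j ∈ univ.erase i, f j * tr (j + 1) := by
        refine sum_congr rfl fun j hj => ?_
        simp only [φ]
        rw [Function.update_of_ne (ne_of_mem_erase hj)]
      have h2 : φ f i = f i - 1 := by simp [φ]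
      rw [h1, h2]
      have h3 : f i = f i - 1 + 1 := by omega
      have h4 : f i * tr (i + 1) = (f i - 1) * tr (i + 1) + tr (i + 1) := by
        conv_lhs => rw [h3]
        ring
      omega
    calc (S.card : ℝ) = ∑ f ∈ S, (1 : ℝ) := by rw [sum_const, nsmul_eq_mul, mul_one]
      _ ≤ ∑ f ∈ S, Real.exp (x * n) * Real.exp (-(x * tr V0)) *
            Real.exp (-∑ j : Fin V, x * tr (j + 1) * φ f j) := by
          refine sum_le_sum fun f hf => ?_
          rw [← Real.exp_add, ← Real.exp_add, ← wt_cast]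
          refine Real.one_le_exp ?_
          have h1 := hwt f hf
          have h2 : wt f ≤ n := mem_FF.1 (mem_filter.1 hf).1
          have h3 : tr V0 ≤ tr (i + 1) := tr_mono hi
          have h4 : wt (φ f) + tr V0 ≤ n := by omega
          have h5 : (wt (φ f) : ℝ) + tr V0 ≤ n := by exact_mod_cast h4
          nlinarith
      _ = Real.exp (x * n) * Real.exp (-(x * tr V0)) *
            ∑ g ∈ S.image φ, Real.exp (-∑ j : Fin V, x * tr (j + 1) * g j) := by
          rw [← mul_sum, sum_image hinj]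
      _ ≤ Real.exp (x * n) * Real.exp (-(x * tr V0)) * ZZ V x := by
          refine mul_le_mul_of_nonneg_left ?_ (by positivity)
          exact sum_le_prod (fun j : Fin V => x * (tr (j + 1) : ℝ)) (fun j => tr_pos' hx j) _
      _ = _ := by ring
  have hsub : (FF V n).filter (fun f => ∃ i : Fin V, V0 ≤ (i : ℕ) + 1 ∧ f i ≠ 0) ⊆
      (univ.filter (fun i : Fin V => V0 ≤ (i : ℕ) + 1)).biUnion
        (fun i => (FF V n).filter (fun f => f i ≠ 0)) := by
    intro f hf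
    rw [mem_filter] at hf
    obtain ⟨hf, i, hi, hne⟩ := hf
    rw [mem_biUnion]
    exact ⟨i, mem_filter.2 ⟨mem_univ _, hi⟩, mem_filter.2 ⟨hf, hne⟩⟩
  have h1 : (((FF V n).filter (fun f => ∃ i : Fin V, V0 ≤ (i : ℕ) + 1 ∧ f i ≠ 0)).card : ℝ) ≤
      ∑ i ∈ univ.filter (fun i : Fin V => V0 ≤ (i : ℕ) + 1),
        (((FF V n).filter (fun f => f i ≠ 0)).card : ℝ) := by
    exact_mod_cast (card_le_card hsub).trans card_biUnion_le
  refine h1.trans ?_
  calc ∑ i ∈ univ.filter (fun i : Fin V => V0 ≤ (i : ℕ) + 1),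
        (((FF V n).filter (fun f => f i ≠ 0)).card : ℝ)
      ≤ ∑ i ∈ univ.filter (fun i : Fin V => V0 ≤ (i : ℕ) + 1),
          (Real.exp (-(x * tr V0)) * Real.exp (x * n) * ZZ V x) :=
        sum_le_sum fun i hi => hone i (mem_filter.1 hi).2
    _ = ((univ.filter (fun i : Fin V => V0 ≤ (i : ℕ) + 1)).card : ℝ) *
          (Real.exp (-(x * tr V0)) * Real.exp (x * n) * ZZ V x) := by
        rw [sum_const, nsmul_eq_mul]
    _ ≤ V * (Real.exp (-(x * tr V0)) * Real.exp (x * n) * ZZ V x) := by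
        refine mul_le_mul_of_nonneg_right ?_ (by positivity)
        have := card_le_univ (univ.filter (fun i : Fin V => V0 ≤ (i : ℕ) + 1))
        rw [Fintype.card_fin] at this
        exact_mod_cast this
    _ = _ := by ring

theorem exp_three_lt : Real.exp 3 < 21 := by
  have h1 := Real.exp_one_lt_d9
  have h2 : Real.exp 3 = Real.exp 1 ^ 3 := by
    rw [← Real.exp_nat_mul]; norm_num
  rw [h2]
  have h3 : Real.exp 1 ^ 3 ≤ (2.7182818286 : ℝ) ^ 3 := by
    have := (Real.exp_pos 1).le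
    gcongr
  refine lt_of_le_of_lt h3 (by norm_num)

/-- the ratio of two factors -/
theorem ratio_le {a : ℝ} (ha : 0 < a) (h : 42 * a ≤ 1) :
    (1 - Real.exp (-(42 * a)))⁻¹ ≤ Real.exp (-3) * (1 - Real.exp (-a))⁻¹ := by
  have h1 : 1 - a ≤ Real.exp (-a) := by
    have := Real.add_one_le_exp (-a)
    linarith
  have h2 : Real.exp (-(42 * a)) ≤ 1 - 21 * a := by
    -- exp(-b) ≤ 1 - b/2 for 0 ≤ b ≤ 1
    have hb0 : 0 ≤ 42 * a := by linarith
    have h3 : Real.exp (-(42 * a)) * (1 + 42 * a) ≤ 1 := by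
      have h4 := Real.add_one_le_exp (42 * a)
      have h5 : Real.exp (-(42 * a)) * Real.exp (42 * a) = 1 := by
        rw [← Real.exp_add]; simp
      have h6 := Real.exp_pos (-(42 * a))
      nlinarith
    have h7 : 1 ≤ (1 - 21 * a) * (1 + 42 * a) := by nlinarith
    have h8 : 0 < 1 + 42 * a := by linarith
    by_contra hlt
    push Not at hlt
    nlinarith
  have h3 : 0 < 1 - Real.exp (-a) := by
    have := Real.exp_lt_one_iff.2 (neg_lt_zero.2 ha)
    linarith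
  have h4 : 0 < 1 - Real.exp (-(42 * a)) := by linarith
  have h5 : Real.exp 3 * (1 - Real.exp (-a)) ≤ 1 - Real.exp (-(42 * a)) := by
    have := exp_three_lt
    nlinarith
  rw [Real.exp_neg 3, ← mul_inv]
  exact inv_anti₀ (by positivity) h5

/-- few configurations with a light bottom -/
theorem light {x : ℝ} (hx : 0 < x) (V n u : ℕ) (huV : u ≤ V) (hu : 42 * x * tr u ≤ 1) (Y : ℝ) :
    (((FF V n).filter (fun f => ((∑ i ∈ univ.filter (fun i : Fin V => (i : ℕ) + 1 ≤ u),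
      f i * tr (i + 1) : ℕ) : ℝ) ≤ Y)).card : ℝ) ≤
      Real.exp (41 * x * Y - 3 * u) * Real.exp (x * n) * ZZ V x := by
  classical
  set U : Finset (Fin V) := univ.filter (fun i : Fin V => (i : ℕ) + 1 ≤ u) with hU
  have hUc : U.card = u := by
    have h1 : U = (univ : Finset (Fin V)).filter (fun i : Fin V => (i : ℕ) < u) := by
      rw [hU]
      refine filter_congr fun i _ => ?_
      omega
    rw [h1, Fin.card_filter_val_lt, min_eq_right huV]
  set S := (FF V n).filter (fun f => ((∑ i ∈ U, f i * tr (i + 1) : ℕ) : ℝ) ≤ Y) with hS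
  let y : Fin V → ℝ := fun i => if i ∈ U then 42 * (x * tr (i + 1)) else x * tr (i + 1)
  have hy : ∀ i, 0 < y i := by
    intro i
    have := tr_pos' hx i
    simp only [y]
    split_ifs <;> linarith
  have hexp : ∀ f : Fin V → ℕ, ∑ i, y i * f i =
      x * wt f + 41 * x * ((∑ i ∈ U, f i * tr (i + 1) : ℕ) : ℝ) := by
    intro f
    have h1 : ∀ i, y i * f i = x * tr (i + 1) * f i +
        (if i ∈ U then 41 * x * (f i * tr (i + 1) : ℝ) else 0) := by
      intro i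
      simp only [y]
      split_ifs <;> ring
    rw [sum_congr rfl fun i _ => h1 i, sum_add_distrib, ← wt_cast, sum_ite_mem, univ_inter,
      ← mul_sum]
    push_cast
    rfl
  calc (S.card : ℝ) = ∑ f ∈ S, (1 : ℝ) := by rw [sum_const, nsmul_eq_mul, mul_one]
    _ ≤ ∑ f ∈ S, Real.exp (41 * x * Y) * Real.exp (x * n) * Real.exp (-∑ i, y i * f i) := by
        refine sum_le_sum fun f hf => ?_
        rw [← Real.exp_add, ← Real.exp_add, hexp]
        refine Real.one_le_exp ?_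
        rw [hS, mem_filter] at hf
        have h2 : (wt f : ℝ) ≤ n := by exact_mod_cast mem_FF.1 hf.1
        have h3 := hf.2
        have h4 : x * (wt f : ℝ) ≤ x * n := mul_le_mul_of_nonneg_left h2 hx.le
        have h5 : 41 * x * ((∑ i ∈ U, f i * tr (i + 1) : ℕ) : ℝ) ≤ 41 * x * Y :=
          mul_le_mul_of_nonneg_left h3 (by positivity)
        linarith
    _ = Real.exp (41 * x * Y) * Real.exp (x * n) * ∑ f ∈ S, Real.exp (-∑ i, y i * f i) := by
        rw [← mul_sum]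
    _ ≤ Real.exp (41 * x * Y) * Real.exp (x * n) * ∏ i, (1 - Real.exp (-y i))⁻¹ :=
        mul_le_mul_of_nonneg_left (sum_le_prod y hy S) (by positivity)
    _ ≤ Real.exp (41 * x * Y) * Real.exp (x * n) * (Real.exp (-3) ^ u * ZZ V x) := by
        refine mul_le_mul_of_nonneg_left ?_ (by positivity)
        have h1 : Real.exp (-3) ^ u = ∏ i : Fin V, (if i ∈ U then Real.exp (-3) else 1) := by
          rw [prod_ite_mem, univ_inter, prod_const, hUc]
        unfold ZZ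
        rw [h1, ← prod_mul_distrib]
        refine prod_le_prod (fun i _ => ?_) (fun i _ => ?_)
        · have := Real.exp_lt_one_iff.2 (neg_lt_zero.2 (hy i))
          exact inv_nonneg.2 (by linarith)
        · simp only [y]
          by_cases hi : i ∈ U
          · rw [if_pos hi, if_pos hi]
            refine ratio_le (tr_pos' hx i) ?_
            have h2 : (i : ℕ) + 1 ≤ u := (mem_filter.1 hi).2
            have h3 : (tr (i + 1) : ℝ) ≤ tr u := by exact_mod_cast tr_mono h2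
            have h4 : 42 * x * (tr (i + 1) : ℝ) ≤ 42 * x * tr u :=
              mul_le_mul_of_nonneg_left h3 (by positivity)
            linarith
          · rw [if_neg hi, if_neg hi, one_mul]
    _ = _ := by
        rw [← Real.exp_nat_mul, sub_eq_add_neg, Real.exp_add]
        ring_nf

/-- few configurations with few simple points and many points of a given multiplicity -/
theorem few_ones {V n : ℕ} (i0 i : Fin V) (hi0 : (i0 : ℕ) = 0) (hi : 1 ≤ (i : ℕ)) (X I : ℕ) :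
    ((FF V n).filter (fun f => f i0 ≤ X ∧ I ≤ f i)).card * (I + 1) ≤
      (X / tr (i + 1) + 1) * (FF V n).card := by
  classical
  set S := (FF V n).filter (fun f => f i0 ≤ X ∧ I ≤ f i) with hS
  set T := tr (i + 1) with hT
  have hT1 : 1 ≤ T := tr_pos (by omega)
  have hne : i ≠ i0 := fun h => by rw [h] at hi; omega
  have ht0 : tr ((i0 : ℕ) + 1) = 1 := by rw [hi0]; rfl
  let φ : (Fin V → ℕ) × ℕ → (Fin V → ℕ) := fun p =>
    Function.update (Function.update p.1 i (p.1 i - p.2)) i0 (p.1 i0 + p.2 * T)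
  have hφ0 : ∀ p, φ p i0 = p.1 i0 + p.2 * T := fun p => by simp [φ]
  have hφ1 : ∀ p, φ p i = p.1 i - p.2 := fun p => by simp [φ, hne]
  have hφ2 : ∀ p j, j ≠ i → j ≠ i0 → φ p j = p.1 j := fun p j h1 h2 => by simp [φ, h1, h2]
  have hcard : (S ×ˢ range (I + 1)).card = S.card * (I + 1) := by
    rw [card_product, card_range]
  rw [← hcard]
  refine (card_le_mul_card_image_of_maps_to (f := φ) (t := FF V n) ?_ (X / T + 1) ?_)
  · intro p hp
    rw [mem_product, mem_range, hS, mem_filter] at hp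
    obtain ⟨⟨h1, h2, h3⟩, h4⟩ := hp
    rw [mem_FF] at h1 ⊢
    refine le_trans (le_of_eq ?_) h1
    unfold wt
    rw [← add_sum_erase univ _ (mem_univ i0), ← add_sum_erase univ (fun j => p.1 j * tr (j + 1))
      (mem_univ i0)]
    have hmem : i ∈ univ.erase i0 := mem_erase.2 ⟨hne, mem_univ _⟩
    rw [← add_sum_erase _ _ hmem, ← add_sum_erase _ (fun j => p.1 j * tr (j + 1)) hmem]
    have h5 : ∑ j ∈ (univ.erase i0).erase i, φ p j * tr (j + 1) =
        ∑ j ∈ (univ.erase i0).erase i, p.1 j * tr (j + 1) := by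
      refine sum_congr rfl fun j hj => ?_
      rw [hφ2 p j (ne_of_mem_erase hj) (ne_of_mem_erase (mem_of_mem_erase hj))]
    rw [h5, hφ0, hφ1, ht0, ← hT]
    have h6 : p.2 ≤ p.1 i := by omega
    obtain ⟨c, hc⟩ := Nat.exists_eq_add_of_le h6
    rw [hc]
    have : p.2 + c - p.2 = c := by omega
    rw [this]
    ring
  · intro g hg
    -- the fibre embeds in `range (X / T + 1)`
    rw [← card_range (X / T + 1)]
    refine card_le_card_of_injOn (fun p => g i0 / T - p.2) ?_ ?_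
    · intro p hp
      rw [mem_coe, mem_filter, mem_product, mem_range, hS, mem_filter] at hp
      obtain ⟨⟨⟨h1, h2, h3⟩, h4⟩, h5⟩ := hp
      rw [mem_coe, mem_range]
      have h6 : g i0 = p.1 i0 + p.2 * T := by rw [← h5, hφ0]
      have h7 : g i0 / T = p.1 i0 / T + p.2 := by
        rw [h6, Nat.add_mul_div_right _ _ hT1]
      have h8 : p.1 i0 / T ≤ X / T := Nat.div_le_div_right h2
      change g i0 / T - p.2 < X / T + 1
      rw [h7, Nat.add_sub_cancel]
      exact Nat.lt_succ_of_le h8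
    · intro p hp q hq hpq
      rw [mem_coe, mem_filter, mem_product, mem_range, hS, mem_filter] at hp hq
      obtain ⟨⟨⟨h1, h2, h3⟩, h4⟩, h5⟩ := hp
      obtain ⟨⟨⟨h1', h2', h3'⟩, h4'⟩, h5'⟩ := hq
      have h6 : g i0 = p.1 i0 + p.2 * T := by rw [← h5, hφ0]
      have h6' : g i0 = q.1 i0 + q.2 * T := by rw [← h5', hφ0]
      have h7 : g i0 / T = p.1 i0 / T + p.2 := by
        rw [h6, Nat.add_mul_div_right _ _ hT1]
      have h7' : g i0 / T = q.1 i0 / T + q.2 := by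
        rw [h6', Nat.add_mul_div_right _ _ hT1]
      have h9 : p.2 ≤ g i0 / T := h7 ▸ Nat.le_add_left _ _
      have h9' : q.2 ≤ g i0 / T := h7' ▸ Nat.le_add_left _ _
      change g i0 / T - p.2 = g i0 / T - q.2 at hpq
      clear h7 h7'
      generalize g i0 / T = w at hpq h9 h9'
      have hk : p.2 = q.2 := by omega
      refine Prod.ext (funext fun j => ?_) hk
      by_cases hj : j = i
      · subst hj
        have e1 := hφ1 p
        have e2 := hφ1 q
        rw [h5] at e1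
        rw [h5'] at e2
        omega
      · by_cases hj' : j = i0
        · subst hj'
          rw [hk] at h6
          omega
        · rw [← hφ2 p j hj hj', ← hφ2 q j hj hj', h5, h5']

end Pool.Agent.Work.MP_0421d9_ag.AA
end

section
/-!
Counting multisets of multiplicities: bounds for the logarithm of the generating function.
-/

namespace Pool.Agent.Work.MP_0421d9_ag.AA

open Real

/-- `-log (1 - exp (-y))` -/
noncomputable def gl (y : ℝ) : ℝ := -log (1 - exp (-y))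

/-- the logarithm of the generating function -/
noncomputable def LZ (V : ℕ) (x : ℝ) : ℝ := ∑ i : Fin V, gl (x * tr (i + 1))

theorem one_sub_exp_pos {y : ℝ} (hy : 0 < y) : 0 < 1 - exp (-y) := by
  have : exp (-y) < 1 := by
    rw [exp_lt_one_iff]
    linarith
  linarith

theorem tr_real_pos {v : ℕ} (hv : 1 ≤ v) : (1 : ℝ) ≤ tr v := by
  exact_mod_cast tr_pos hv

theorem ZZ_eq {V : ℕ} {x : ℝ} (hx : 0 < x) : ZZ V x = exp (LZ V x) := by
  unfold ZZ LZ
  rw [exp_sum]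
  refine Finset.prod_congr rfl (fun i _ => ?_)
  unfold gl
  have h1 := tr_real_pos (v := i + 1) (by omega)
  rw [Real.exp_neg (Real.log _), exp_log (one_sub_exp_pos (by positivity))]

theorem ZZ_pos {V : ℕ} {x : ℝ} (hx : 0 < x) : 0 < ZZ V x := by
  rw [ZZ_eq hx]
  exact exp_pos _

theorem gl_nonneg {y : ℝ} (hy : 0 < y) : 0 ≤ gl y := by
  unfold gl
  have h1 := one_sub_exp_pos hy
  have h2 : log (1 - exp (-y)) ≤ 0 := log_nonpos h1.le (by have := exp_pos (-y); linarith)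
  linarith

theorem gl_anti {y z : ℝ} (hy : 0 < y) (hyz : y ≤ z) : gl z ≤ gl y := by
  unfold gl
  have h1 := one_sub_exp_pos hy
  have h2 : exp (-z) ≤ exp (-y) := exp_le_exp.mpr (by linarith)
  have h3 : log (1 - exp (-y)) ≤ log (1 - exp (-z)) := log_le_log h1 (by linarith)
  linarith

/-- `gl y ≤ 1 / y` -/
theorem gl_le_inv {y : ℝ} (hy : 0 < y) : gl y ≤ 1 / y := by
  have h1 := one_sub_exp_pos hy
  have h2 : gl y = log (1 / (1 - exp (-y))) := by
    unfold gl
    rw [one_div, log_inv]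
  rw [h2]
  have h3 : 1 / (1 - exp (-y)) ≤ 1 + 1 / y := by
    rw [div_le_iff₀ h1]
    have h4 : y + 1 ≤ exp y := add_one_le_exp y
    have h5 : exp (-y) * exp y = 1 := by rw [← exp_add]; simp
    have h6 : exp (-y) * (y + 1) ≤ 1 :=
      (mul_le_mul_of_nonneg_left h4 (exp_pos _).le).trans h5.le
    have e1 : (1 + 1 / y) * (1 - exp (-y)) = 1 + (1 - exp (-y) * (y + 1)) / y := by
      field_simp
      ring
    rw [e1]
    have h7 : 0 ≤ (1 - exp (-y) * (y + 1)) / y := div_nonneg (by linarith) hy.le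
    linarith
  calc log (1 / (1 - exp (-y))) ≤ 1 / (1 - exp (-y)) - 1 :=
        log_le_sub_one_of_pos (div_pos one_pos h1)
    _ ≤ 1 / y := by linarith

/-- `gl y ≤ log (1 + 1 / y)` -/
theorem gl_le_log {y : ℝ} (hy : 0 < y) : gl y ≤ log (1 + 1 / y) := by
  have h1 := one_sub_exp_pos hy
  have h2 : gl y = log (1 / (1 - exp (-y))) := by
    unfold gl
    rw [one_div, log_inv]
  rw [h2]
  apply log_le_log (div_pos one_pos h1)
  rw [div_le_iff₀ h1]
  have h4 : y + 1 ≤ exp y := add_one_le_exp y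
  have h5 : exp (-y) * exp y = 1 := by rw [← exp_add]; simp
  have h6 : exp (-y) * (y + 1) ≤ 1 :=
    (mul_le_mul_of_nonneg_left h4 (exp_pos _).le).trans h5.le
  have e1 : (1 + 1 / y) * (1 - exp (-y)) = 1 + (1 - exp (-y) * (y + 1)) / y := by
    field_simp
    ring
  rw [e1]
  have h7 : 0 ≤ (1 - exp (-y) * (y + 1)) / y := div_nonneg (by linarith) hy.le
  linarith

/-- `log (1 / y) ≤ gl y` -/
theorem neg_log_le_gl {y : ℝ} (hy : 0 < y) : -log y ≤ gl y := by
  unfold gl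
  have h1 := one_sub_exp_pos hy
  have h2 : 1 - exp (-y) ≤ y := by
    have := add_one_le_exp (-y)
    linarith
  have h3 := log_le_log h1 h2
  linarith

theorem LZ_nonneg {V : ℕ} {x : ℝ} (hx : 0 < x) : 0 ≤ LZ V x := by
  unfold LZ
  refine Finset.sum_nonneg (fun i _ => gl_nonneg ?_)
  have h1 := tr_real_pos (v := i + 1) (by omega)
  positivity

theorem LZ_anti {V : ℕ} {x z : ℝ} (hx : 0 < x) (hxz : x ≤ z) : LZ V z ≤ LZ V x := by
  unfold LZ
  refine Finset.sum_le_sum (fun i _ => ?_)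
  have h1 := tr_real_pos (v := i + 1) (by omega)
  exact gl_anti (by positivity) (mul_le_mul_of_nonneg_right hxz (by linarith))

theorem tr_cast (v : ℕ) : (tr v : ℝ) = v * (v + 1) / 2 := by
  have h := two_mul_tr v
  have h2 : (2 : ℝ) * tr v = v * (v + 1) := by exact_mod_cast h
  linarith

/-- the tail of the sum of the `1 / tr v` -/
theorem sum_inv_tr (a : ℕ) (ha : 1 ≤ a) (V : ℕ) :
    ∑ v ∈ Finset.Ico a V, 1 / (tr (v + 1) : ℝ) ≤ 2 / a := by
  have h1 : ∀ W, a ≤ W → ∑ v ∈ Finset.Ico a W, 1 / (tr (v + 1) : ℝ) = 2 / (a + 1) - 2 / (W + 1) := by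
    intro W hW
    induction W, hW using Nat.le_induction with
    | base => simp
    | succ W hW ih =>
      rw [Finset.sum_Ico_succ_top hW, ih, tr_cast]
      push_cast
      have h2 : (0 : ℝ) < a := by exact_mod_cast ha
      field_simp
      ring
  have h0 : (0 : ℝ) < a := by exact_mod_cast ha
  rcases Nat.lt_or_ge V a with hV | hV
  · rw [Finset.Ico_eq_empty (by omega), Finset.sum_empty]
    positivity
  · rw [h1 V hV]
    have h2 : (0 : ℝ) ≤ 2 / (V + 1) := by positivity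
    have h3 : (2 : ℝ) / (a + 1) ≤ 2 / a := div_le_div_of_nonneg_left (by norm_num) h0 (by linarith)
    linarith

/-- upper bound for the logarithm of the generating function -/
theorem LZ_le {V : ℕ} {x : ℝ} (hx : 0 < x) {a : ℕ} (ha : 1 ≤ a) :
    LZ V x ≤ a * log (1 + 1 / x) + 2 / (a * x) := by
  unfold LZ
  rw [Fin.sum_univ_eq_sum_range (fun i => gl (x * tr (i + 1))) V]
  have hpos : ∀ i : ℕ, 0 < x * tr (i + 1) := fun i => by
    have h1 := tr_real_pos (v := i + 1) (by omega)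
    positivity
  have h1 : ∑ i ∈ Finset.range V, gl (x * tr (i + 1)) ≤
      ∑ i ∈ Finset.range a, gl (x * tr (i + 1)) + ∑ i ∈ Finset.Ico a V, gl (x * tr (i + 1)) := by
    rcases Nat.lt_or_ge V a with hV | hV
    · rw [Finset.Ico_eq_empty (by omega), Finset.sum_empty, add_zero]
      exact Finset.sum_le_sum_of_subset_of_nonneg (Finset.range_subset_range.mpr hV.le)
        (fun i _ _ => gl_nonneg (hpos i))
    · rw [Finset.sum_range_add_sum_Ico _ hV]
  refine h1.trans (add_le_add ?_ ?_)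
  · calc ∑ i ∈ Finset.range a, gl (x * tr (i + 1))
        ≤ ∑ _i ∈ Finset.range a, log (1 + 1 / x) := by
          refine Finset.sum_le_sum (fun i _ => ?_)
          refine (gl_anti hx ?_).trans (gl_le_log hx)
          have h2 := tr_real_pos (v := i + 1) (by omega)
          nlinarith
      _ = a * log (1 + 1 / x) := by rw [Finset.sum_const, Finset.card_range, nsmul_eq_mul]
  · calc ∑ i ∈ Finset.Ico a V, gl (x * tr (i + 1))
        ≤ ∑ i ∈ Finset.Ico a V, 1 / x * (1 / (tr (i + 1) : ℝ)) := by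
          refine Finset.sum_le_sum (fun i _ => ?_)
          rw [one_div_mul_one_div]
          exact gl_le_inv (hpos i)
      _ = 1 / x * ∑ i ∈ Finset.Ico a V, 1 / (tr (i + 1) : ℝ) := by rw [Finset.mul_sum]
      _ ≤ 1 / x * (2 / a) :=
          mul_le_mul_of_nonneg_left (sum_inv_tr a ha V) (by positivity)
      _ = 2 / (a * x) := by
          have h0 : (0 : ℝ) < a := by exact_mod_cast ha
          field_simp

/-- lower bound for the logarithm of the generating function -/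
theorem le_LZ {V a : ℕ} {x : ℝ} (hx : 0 < x) (haV : a ≤ V) (ha : 4 * x * a ^ 2 ≤ 1) :
    (a : ℝ) ≤ LZ V x := by
  unfold LZ
  rw [Fin.sum_univ_eq_sum_range (fun i => gl (x * tr (i + 1))) V]
  have hpos : ∀ i : ℕ, 0 < x * tr (i + 1) := fun i => by
    have h1 := tr_real_pos (v := i + 1) (by omega)
    positivity
  calc (a : ℝ) = ∑ _i ∈ Finset.range a, (1 : ℝ) := by simp
    _ ≤ ∑ i ∈ Finset.range a, gl (x * tr (i + 1)) := by
        refine Finset.sum_le_sum (fun i hi => ?_)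
        have hi' : i + 1 ≤ a := by
          have := Finset.mem_range.mp hi
          omega
        refine le_trans ?_ (neg_log_le_gl (hpos i))
        have h1 : (tr (i + 1) : ℝ) ≤ a ^ 2 := by
          rw [tr_cast]
          have h2 : ((i + 1 : ℕ) : ℝ) ≤ a := by exact_mod_cast hi'
          have h3 : (1 : ℝ) ≤ ((i + 1 : ℕ) : ℝ) := by push_cast; linarith [Nat.cast_nonneg (α := ℝ) i]
          nlinarith
        have h2 : x * tr (i + 1) ≤ 1 / 4 := by nlinarith
        have h3 : log (x * tr (i + 1)) ≤ log (1 / 4) := log_le_log (hpos i) h2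
        have h4 : log (1 / 4 : ℝ) = -(2 * log 2) := by
          rw [one_div, log_inv]
          have : (4 : ℝ) = 2 ^ 2 := by norm_num
          rw [this, log_pow]
          norm_num
        have h5 := log_two_gt_d9
        rw [h4] at h3
        linarith
    _ ≤ ∑ i ∈ Finset.range V, gl (x * tr (i + 1)) :=
        Finset.sum_le_sum_of_subset_of_nonneg (Finset.range_subset_range.mpr haV)
          (fun i _ _ => gl_nonneg (hpos i))

/-! ### second differences -/

/-- a sum of powers -/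
theorem geom_ge {q : ℝ} (hq : 0 ≤ q) (k : ℕ) :
    ((k : ℝ) + 1) ^ 2 * q ^ k ≤ (∑ i ∈ Finset.range (k + 1), q ^ i) ^ 2 := by
  have hs : 0 ≤ sqrt q := sqrt_nonneg q
  have hsq : sqrt q ^ 2 = q := sq_sqrt hq
  have h1 : ∑ i ∈ Finset.range (k + 1), q ^ i = ∑ i ∈ Finset.range (k + 1), q ^ (k - i) := by
    rw [← Finset.sum_range_reflect]
    refine Finset.sum_congr rfl (fun i _ => ?_)
    congr 1
  have h2 : ∀ i ∈ Finset.range (k + 1), 2 * sqrt q ^ k ≤ q ^ i + q ^ (k - i) := by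
    intro i hi
    have hi' : i ≤ k := by
      have := Finset.mem_range.mp hi
      omega
    have e1 : sqrt q ^ k = sqrt q ^ i * sqrt q ^ (k - i) := by
      rw [← pow_add]
      congr 1
      omega
    have e2 : q ^ i = (sqrt q ^ i) ^ 2 := by rw [← pow_mul, mul_comm, pow_mul, hsq]
    have e3 : q ^ (k - i) = (sqrt q ^ (k - i)) ^ 2 := by rw [← pow_mul, mul_comm, pow_mul, hsq]
    rw [e1, e2, e3]
    nlinarith [sq_nonneg (sqrt q ^ i - sqrt q ^ (k - i))]
  have h3 := Finset.sum_le_sum h2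
  rw [Finset.sum_const, Finset.card_range, Finset.sum_add_distrib, ← h1, nsmul_eq_mul] at h3
  have h4 : ((k : ℝ) + 1) * sqrt q ^ k ≤ ∑ i ∈ Finset.range (k + 1), q ^ i := by
    push_cast at h3
    linarith
  have h5 : (((k : ℝ) + 1) * sqrt q ^ k) ^ 2 ≤ (∑ i ∈ Finset.range (k + 1), q ^ i) ^ 2 :=
    pow_le_pow_left₀ (by positivity) h4 2
  have e4 : (((k : ℝ) + 1) * sqrt q ^ k) ^ 2 = ((k : ℝ) + 1) ^ 2 * q ^ k := by
    rw [mul_pow, ← pow_mul, mul_comm k 2, pow_mul, hsq]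
  rw [e4] at h5
  exact h5

/-- the second difference of `gl` -/
theorem gl_second {h : ℝ} (hh : 0 < h) {k : ℕ} (hk : 1 ≤ k) :
    gl (k * h) + gl ((k + 2) * h) - 2 * gl ((k + 1) * h) ≤ 2 / ((k : ℝ) + 1) ^ 2 ∧
    gl (k * h) + gl ((k + 2) * h) - 2 * gl ((k + 1) * h) ≤ 2 * exp (-(k * h)) := by
  have hk' : (1 : ℝ) ≤ k := by exact_mod_cast hk
  obtain ⟨q, hq⟩ : ∃ q, q = exp (-h) := ⟨_, rfl⟩
  have hq0 : 0 < q := by rw [hq]; exact exp_pos _
  have hq1 : q < 1 := by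
    rw [hq, exp_lt_one_iff]
    linarith
  have ek : exp (-(k * h)) = q ^ k := by
    rw [hq, ← exp_nat_mul]
    congr 1
    ring
  have ek1 : exp (-((k + 1) * h)) = q ^ (k + 1) := by
    rw [hq, ← exp_nat_mul]
    congr 1
    push_cast
    ring
  have ek2 : exp (-((k + 2) * h)) = q ^ (k + 2) := by
    rw [hq, ← exp_nat_mul]
    congr 1
    push_cast
    ring
  have hA : 0 < 1 - q ^ k := by
    have := pow_lt_one₀ hq0.le hq1 (by omega : k ≠ 0)
    linarith
  have hB : 0 < 1 - q ^ (k + 2) := by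
    have := pow_lt_one₀ hq0.le hq1 (by omega : k + 2 ≠ 0)
    linarith
  have hC : 0 < 1 - q ^ (k + 1) := by
    have := pow_lt_one₀ hq0.le hq1 (by omega : k + 1 ≠ 0)
    linarith
  obtain ⟨S, hS⟩ : ∃ S, S = ∑ i ∈ Finset.range (k + 1), q ^ i := ⟨_, rfl⟩
  have hS1 : 1 ≤ S := by
    rw [hS, Finset.sum_range_succ']
    have : 0 ≤ ∑ i ∈ Finset.range k, q ^ (i + 1) :=
      Finset.sum_nonneg (fun i _ => by positivity)
    simpa using this
  have hCS : 1 - q ^ (k + 1) = (1 - q) * S := by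
    rw [hS, mul_comm]
    have := geom_sum_mul q (k + 1)
    linarith
  obtain ⟨ρ, hρ⟩ : ∃ ρ, ρ = q ^ k / S ^ 2 := ⟨_, rfl⟩
  have hρ0 : 0 ≤ ρ := by rw [hρ]; positivity
  have hρ1 : ρ ≤ q ^ k := by
    rw [hρ]
    apply div_le_self (by positivity)
    nlinarith
  have hρ2 : ρ ≤ 1 / ((k : ℝ) + 1) ^ 2 := by
    rw [hρ, div_le_div_iff₀ (by positivity) (by positivity)]
    have := geom_ge hq0.le k
    rw [← hS] at this
    linarith
  have hρ3 : ρ ≤ 1 / 4 := by
    refine hρ2.trans ?_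
    rw [div_le_div_iff₀ (by positivity) (by norm_num)]
    nlinarith
  have hprod : (1 - q ^ k) * (1 - q ^ (k + 2)) = (1 - q ^ (k + 1)) ^ 2 * (1 - ρ) := by
    have h1 : (1 - q ^ (k + 1)) ^ 2 * ρ = q ^ k * (1 - q) ^ 2 := by
      rw [hρ, hCS]
      have : S ^ 2 ≠ 0 := by positivity
      field_simp
    have h2 : (1 - q ^ (k + 1)) ^ 2 * (1 - ρ) = (1 - q ^ (k + 1)) ^ 2 - q ^ k * (1 - q) ^ 2 := by
      rw [mul_sub, mul_one, h1]
    rw [h2]
    ring
  have hlog : gl (k * h) + gl ((k + 2) * h) - 2 * gl ((k + 1) * h) = -log (1 - ρ) := by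
    unfold gl
    rw [ek, ek1, ek2]
    have h1 := congrArg log hprod
    rw [log_mul hA.ne' hB.ne', log_mul (by positivity) (by linarith), log_pow] at h1
    push_cast at h1
    linarith
  have h2 : -log (1 - ρ) ≤ 2 * ρ := by
    have h3 : (0 : ℝ) < 1 - ρ := by linarith
    have h4 : -log (1 - ρ) = log (1 / (1 - ρ)) := by rw [one_div, log_inv]
    rw [h4]
    refine (log_le_sub_one_of_pos (by positivity)).trans ?_
    have h5 : 1 / (1 - ρ) ≤ 1 + 2 * ρ := by
      rw [div_le_iff₀ h3]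
      nlinarith
    linarith
  rw [hlog, ek]
  constructor
  · calc -log (1 - ρ) ≤ 2 * ρ := h2
      _ ≤ 2 * (1 / ((k : ℝ) + 1) ^ 2) := by linarith
      _ = 2 / ((k : ℝ) + 1) ^ 2 := by ring
  · linarith

end Pool.Agent.Work.MP_0421d9_ag.AA
end

section
/-!
Counting multisets of multiplicities: lower bound for their number by the generating function at
the saddle point.
-/

namespace Pool.Agent.Work.MP_0421d9_ag.AA

open Real

/-- the second difference of the logarithm of the generating function -/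
theorem LZ_second {V : ℕ} {lam : ℝ} (hl : 0 < lam) {k : ℕ} (hk : 1 ≤ k) (v : ℕ) :
    LZ V (k * lam) + LZ V ((k + 2) * lam) - 2 * LZ V ((k + 1) * lam) ≤
      v * (2 / ((k : ℝ) + 1) ^ 2) + V * (2 * exp (-(k * lam * tr (v + 1)))) := by
  have hk0 : (0 : ℝ) < k := by exact_mod_cast (by omega : 0 < k)
  unfold LZ
  rw [← Finset.sum_add_distrib, Finset.mul_sum, ← Finset.sum_sub_distrib]
  rw [Fin.sum_univ_eq_sum_range (fun i => gl (k * lam * tr (i + 1)) +
    gl ((k + 2) * lam * tr (i + 1)) - 2 * gl ((k + 1) * lam * tr (i + 1))) V]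
  have hterm : ∀ i : ℕ, gl (k * lam * tr (i + 1)) +
      gl ((k + 2) * lam * tr (i + 1)) - 2 * gl ((k + 1) * lam * tr (i + 1)) ≤
      2 / ((k : ℝ) + 1) ^ 2 ∧ gl (k * lam * tr (i + 1)) +
      gl ((k + 2) * lam * tr (i + 1)) - 2 * gl ((k + 1) * lam * tr (i + 1)) ≤
      2 * exp (-(k * lam * tr (i + 1))) := by
    intro i
    have h1 := tr_real_pos (v := i + 1) (by omega)
    have h2 := gl_second (h := lam * tr (i + 1)) (by positivity) hk
    rw [mul_assoc, mul_assoc, mul_assoc]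
    exact h2
  have hexp : ∀ i : ℕ, v ≤ i → 2 * exp (-(k * lam * tr (i + 1))) ≤
      2 * exp (-(k * lam * tr (v + 1))) := by
    intro i hi
    have h1 : (tr (v + 1) : ℝ) ≤ tr (i + 1) := by
      exact_mod_cast Nat.choose_le_choose 2 (by omega)
    have h2 : k * lam * tr (v + 1) ≤ k * lam * tr (i + 1) :=
      mul_le_mul_of_nonneg_left h1 (by positivity)
    have h3 : exp (-(k * lam * tr (i + 1))) ≤ exp (-(k * lam * tr (v + 1))) :=
      exp_le_exp.mpr (by linarith)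
    linarith
  have hsplit : ∀ i ∈ Finset.range V, gl (k * lam * tr (i + 1)) +
      gl ((k + 2) * lam * tr (i + 1)) - 2 * gl ((k + 1) * lam * tr (i + 1)) ≤
      (if i < v then 2 / ((k : ℝ) + 1) ^ 2 else 0) + 2 * exp (-(k * lam * tr (v + 1))) := by
    intro i _
    have h0 : 0 < exp (-(k * lam * tr (v + 1))) := exp_pos _
    split_ifs with h
    · have := (hterm i).1
      linarith
    · have h1 := (hterm i).2
      have h2 := hexp i (by omega)
      linarith
  refine (Finset.sum_le_sum hsplit).trans ?_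
  rw [Finset.sum_add_distrib, Finset.sum_const, Finset.card_range, nsmul_eq_mul]
  refine add_le_add ?_ le_rfl
  rw [← Finset.sum_filter, Finset.sum_const, nsmul_eq_mul]
  refine mul_le_mul_of_nonneg_right ?_ (by positivity)
  have h1 : ((Finset.range V).filter (fun i => i < v)).card ≤ v := by
    calc ((Finset.range V).filter (fun i => i < v)).card ≤ (Finset.range v).card := by
          apply Finset.card_le_card
          intro i hi
          rw [Finset.mem_filter] at hi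
          exact Finset.mem_range.mpr hi.2
      _ = v := Finset.card_range v
  exact_mod_cast h1

/-- the exponent -/
noncomputable def Fx (V : ℕ) (lam c : ℝ) (j : ℕ) : ℝ := LZ V (j * lam) + j * lam * c

/-- the discrete saddle point -/
theorem exists_saddle (V : ℕ) {lam c : ℝ} (hl : 0 < lam) (hc : 0 < c) :
    ∃ j : ℕ, 1 ≤ j ∧ ∀ i : ℕ, 1 ≤ i → Fx V lam c j ≤ Fx V lam c i := by
  obtain ⟨J, hJ⟩ := exists_nat_gt (Fx V lam c 1 / (lam * c))
  obtain ⟨j, hj, hmin⟩ := Finset.exists_min_image (Finset.Icc 1 (J + 1)) (Fx V lam c)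
    ⟨1, Finset.mem_Icc.mpr ⟨le_rfl, by omega⟩⟩
  have hj' := Finset.mem_Icc.mp hj
  refine ⟨j, hj'.1, fun i hi => ?_⟩
  rcases Nat.lt_or_ge (J + 1) i with h | h
  · have h1 := hmin 1 (Finset.mem_Icc.mpr ⟨le_rfl, by omega⟩)
    have h2 : Fx V lam c 1 < J * (lam * c) := by
      rwa [div_lt_iff₀ (by positivity)] at hJ
    have h3 : (J : ℝ) * (lam * c) ≤ i * (lam * c) :=
      mul_le_mul_of_nonneg_right (by exact_mod_cast (by omega : J ≤ i)) (by positivity)
    have h4 : (i : ℝ) * lam * c ≤ Fx V lam c i := by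
      unfold Fx
      have h5 : 0 ≤ LZ V (i * lam) := by
        apply LZ_nonneg
        have : (0 : ℝ) < i := by exact_mod_cast hi
        positivity
      linarith
    have e1 : (i : ℝ) * (lam * c) = i * lam * c := by ring
    linarith
  · exact hmin i (Finset.mem_Icc.mpr ⟨hi, h⟩)

theorem sum_wt_le {V : ℕ} {x : ℝ} (hx : 0 < x) (A : Finset (Fin V → ℕ)) :
    ∑ f ∈ A, exp (-(x * wt f)) ≤ ZZ V x := by
  have h := sum_le_prod (V := V) (fun i => x * tr (i + 1)) (fun i => by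
    have h1 := tr_real_pos (v := i + 1) (by omega)
    positivity) A
  unfold ZZ
  refine le_trans (le_of_eq (Finset.sum_congr rfl (fun f _ => ?_))) h
  rw [wt_cast]

/-- **Lower bound for the number of configurations.** -/
theorem count_lower {V n k : ℕ} {K lam : ℝ} (hK : 0 < K) (hlam : lam * K = 3) (hk : 1 ≤ k)
    (hmin : ∀ i : ℕ, 1 ≤ i → Fx V lam (n - K) (k + 1) ≤ Fx V lam (n - K) i)
    (hε : LZ V (k * lam) + LZ V ((k + 2) * lam) - 2 * LZ V ((k + 1) * lam) ≤ 1 / 2) :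
    1 / 2 * exp ((k + 1) * lam * (n - 2 * K)) * ZZ V ((k + 1) * lam) ≤ (FF V n).card := by
  classical
  have hl : 0 < lam := by
    by_contra hcon
    push Not at hcon
    nlinarith
  have hk0 : (1 : ℝ) ≤ k := by exact_mod_cast hk
  obtain ⟨x, hx⟩ : ∃ x, x = ((k : ℝ) + 1) * lam := ⟨_, rfl⟩
  have hx0 : 0 < x := by rw [hx]; positivity
  have hxm : (k : ℝ) * lam = x - lam := by rw [hx]; ring
  have hxp : ((k : ℝ) + 2) * lam = x + lam := by rw [hx]; ring
  have hxm0 : 0 < x - lam := by rw [← hxm]; positivity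
  rw [hxm, hxp, ← hx] at hε
  rw [← hx]
  -- minimality
  have m1 := hmin k hk
  have m2 := hmin (k + 2) (by omega)
  unfold Fx at m1 m2
  push_cast at m1 m2
  rw [hxm, ← hx] at m1
  rw [hxp, ← hx] at m2
  have n1 : LZ V (x - lam) ≤ LZ V x + lam * (n - K) + 1 / 2 := by linarith
  have n2 : LZ V (x + lam) ≤ LZ V x - lam * (n - K) + 1 / 2 := by linarith
  -- the box
  obtain ⟨L0, hL0⟩ := prod_le_sum (V := V) (fun i => x * tr (i + 1)) (fun i => by
    have h1 := tr_real_pos (v := i + 1) (by omega)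
    positivity) (δ := 1 / 10) (by norm_num)
  have hbox := hL0 L0 le_rfl
  obtain ⟨Bx, hBx⟩ : ∃ Bx, Bx = Fintype.piFinset (fun _ : Fin V => Finset.range L0) := ⟨_, rfl⟩
  rw [← hBx] at hbox
  have hbox' : ZZ V x * (1 - 1 / 10) ≤ ∑ f ∈ Bx, exp (-(x * wt f)) := by
    refine le_trans hbox (le_of_eq (Finset.sum_congr rfl (fun f _ => ?_)))
    rw [wt_cast]
  have hZ := ZZ_pos (V := V) hx0
  have hexp3 : exp (-(5 / 2) : ℝ) ≤ 1 / 10 := by
    have h1 : (10 : ℝ) ≤ exp (5 / 2) := by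
      have h2 := Real.exp_one_gt_d9
      have h3 : exp (5 / 2) = exp 1 * exp 1 * exp (1 / 2) := by
        rw [← exp_add, ← exp_add]; norm_num
      have h4 : (1 + 1 / 2 : ℝ) ≤ exp (1 / 2) := by
        have := add_one_le_exp (1 / 2 : ℝ)
        linarith
      rw [h3]
      have h5 : (7 : ℝ) ≤ exp 1 * exp 1 := by nlinarith
      nlinarith
    rw [exp_neg, ← one_div, div_le_div_iff₀ (exp_pos _) (by norm_num)]
    linarith
  -- large configurations
  have hbig : ∑ f ∈ Bx.filter (fun f => (n : ℝ) < wt f), exp (-(x * wt f)) ≤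
      1 / 10 * ZZ V x := by
    calc ∑ f ∈ Bx.filter (fun f => (n : ℝ) < wt f), exp (-(x * wt f))
        ≤ ∑ f ∈ Bx.filter (fun f => (n : ℝ) < wt f),
            exp (-(lam * n)) * exp (-((x - lam) * wt f)) := by
          refine Finset.sum_le_sum (fun f hf => ?_)
          rw [← exp_add]
          apply exp_le_exp.mpr
          have h1 := (Finset.mem_filter.mp hf).2
          nlinarith
      _ = exp (-(lam * n)) * ∑ f ∈ Bx.filter (fun f => (n : ℝ) < wt f),
            exp (-((x - lam) * wt f)) := by rw [Finset.mul_sum]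
      _ ≤ exp (-(lam * n)) * ZZ V (x - lam) :=
          mul_le_mul_of_nonneg_left (sum_wt_le hxm0 _) (exp_pos _).le
      _ ≤ exp (-(5 / 2)) * ZZ V x := by
          rw [ZZ_eq hxm0, ZZ_eq hx0, ← exp_add, ← exp_add]
          apply exp_le_exp.mpr
          linarith
      _ ≤ 1 / 10 * ZZ V x := mul_le_mul_of_nonneg_right hexp3 hZ.le
  -- small configurations
  have hsmall : ∑ f ∈ Bx.filter (fun f => (wt f : ℝ) < n - 2 * K), exp (-(x * wt f)) ≤
      1 / 10 * ZZ V x := by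
    calc ∑ f ∈ Bx.filter (fun f => (wt f : ℝ) < n - 2 * K), exp (-(x * wt f))
        ≤ ∑ f ∈ Bx.filter (fun f => (wt f : ℝ) < n - 2 * K),
            exp (lam * (n - 2 * K)) * exp (-((x + lam) * wt f)) := by
          refine Finset.sum_le_sum (fun f hf => ?_)
          rw [← exp_add]
          apply exp_le_exp.mpr
          have h1 := (Finset.mem_filter.mp hf).2
          nlinarith
      _ = exp (lam * (n - 2 * K)) * ∑ f ∈ Bx.filter (fun f => (wt f : ℝ) < n - 2 * K),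
            exp (-((x + lam) * wt f)) := by rw [Finset.mul_sum]
      _ ≤ exp (lam * (n - 2 * K)) * ZZ V (x + lam) :=
          mul_le_mul_of_nonneg_left (sum_wt_le (by linarith) _) (exp_pos _).le
      _ ≤ exp (-(5 / 2)) * ZZ V x := by
          rw [ZZ_eq (by linarith : 0 < x + lam), ZZ_eq hx0, ← exp_add, ← exp_add]
          apply exp_le_exp.mpr
          linarith
      _ ≤ 1 / 10 * ZZ V x := mul_le_mul_of_nonneg_right hexp3 hZ.le
  -- the middle
  obtain ⟨Md, hMd⟩ : ∃ Md, Md = Bx.filter (fun f => (n : ℝ) - 2 * K ≤ wt f ∧ (wt f : ℝ) ≤ n) :=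
    ⟨_, rfl⟩
  have hsum : ∑ f ∈ Bx, exp (-(x * wt f)) ≤ ∑ f ∈ Md, exp (-(x * wt f)) +
      (∑ f ∈ Bx.filter (fun f => (n : ℝ) < wt f), exp (-(x * wt f)) +
      ∑ f ∈ Bx.filter (fun f => (wt f : ℝ) < n - 2 * K), exp (-(x * wt f))) := by
    rw [hMd, Finset.sum_filter, Finset.sum_filter, Finset.sum_filter, ← Finset.sum_add_distrib,
      ← Finset.sum_add_distrib]
    refine Finset.sum_le_sum (fun f _ => ?_)
    have h0 := exp_pos (-(x * wt f))
    by_cases h1 : (n : ℝ) < wt f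
    · rw [if_pos h1]
      split_ifs <;> linarith
    · by_cases h2 : (wt f : ℝ) < n - 2 * K
      · rw [if_pos h2]
        split_ifs <;> linarith
      · push Not at h1 h2
        rw [if_pos ⟨h2, h1⟩]
        split_ifs <;> linarith
  have hmid : 1 / 2 * ZZ V x ≤ ∑ f ∈ Md, exp (-(x * wt f)) := by linarith
  have hcard : (Md.card : ℝ) ≤ (FF V n).card := by
    have h1 : Md.card ≤ (FF V n).card := by
      apply Finset.card_le_card
      intro f hf
      rw [hMd, Finset.mem_filter] at hf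
      rw [mem_FF]
      exact_mod_cast hf.2.2
    exact_mod_cast h1
  have hup : ∑ f ∈ Md, exp (-(x * wt f)) ≤ Md.card * exp (-(x * (n - 2 * K))) := by
    rw [← nsmul_eq_mul]
    apply Finset.sum_le_card_nsmul
    intro f hf
    rw [hMd, Finset.mem_filter] at hf
    apply exp_le_exp.mpr
    have := mul_le_mul_of_nonneg_left hf.2.1 hx0.le
    linarith
  have h1 : 1 / 2 * ZZ V x ≤ (FF V n).card * exp (-(x * (n - 2 * K))) :=
    hmid.trans (hup.trans (mul_le_mul_of_nonneg_right hcard (exp_pos _).le))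
  have h2 : exp (x * (n - 2 * K)) * exp (-(x * (n - 2 * K))) = 1 := by
    rw [← exp_add]
    simp
  have h3 := mul_le_mul_of_nonneg_left h1 (exp_pos (x * (n - 2 * K))).le
  calc 1 / 2 * exp (x * (n - 2 * K)) * ZZ V x = exp (x * (n - 2 * K)) * (1 / 2 * ZZ V x) := by ring
    _ ≤ exp (x * (n - 2 * K)) * ((FF V n).card * exp (-(x * (n - 2 * K)))) := h3
    _ = (FF V n).card * (exp (x * (n - 2 * K)) * exp (-(x * (n - 2 * K)))) := by ring
    _ = (FF V n).card := by rw [h2, mul_one]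

end Pool.Agent.Work.MP_0421d9_ag.AA
end

section
/-!
Counting multisets of multiplicities: the saddle point for a large number of conditions.
-/

namespace Pool.Agent.Work.MP_0421d9_ag.AA

open Real Filter

/-- comparison of powers -/
theorem ev_rpow {a b : ℝ} (hab : a < b) (C : ℝ) :
    ∀ᶠ n : ℕ in atTop, C * (n : ℝ) ^ a ≤ (n : ℝ) ^ b := by
  have h1 : Tendsto (fun n : ℕ => (n : ℝ) ^ (b - a)) atTop atTop :=
    (tendsto_rpow_atTop (by linarith)).comp tendsto_natCast_atTop_atTop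
  filter_upwards [h1.eventually_ge_atTop C, eventually_gt_atTop 0] with n hn h0
  have h0' : (0 : ℝ) < n := by exact_mod_cast h0
  have e1 : (n : ℝ) ^ b = (n : ℝ) ^ (b - a) * (n : ℝ) ^ a := by
    rw [← rpow_add h0']
    congr 1
    ring
  rw [e1]
  exact mul_le_mul_of_nonneg_right hn (rpow_nonneg h0'.le a)

/-- powers are large -/
theorem ev_const {b : ℝ} (hb : 0 < b) (C : ℝ) : ∀ᶠ n : ℕ in atTop, C ≤ (n : ℝ) ^ b := by
  have := ev_rpow hb C
  simpa using this

/-- powers and logarithms -/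
theorem ev_log {b : ℝ} (hb : 0 < b) (C : ℝ) :
    ∀ᶠ n : ℕ in atTop, C * log (n : ℝ) ≤ (n : ℝ) ^ b := by
  have h1 : (fun x : ℝ => log x) =o[atTop] (fun x => x ^ b) := isLittleO_log_rpow_atTop hb
  have h2 := h1.comp_tendsto tendsto_natCast_atTop_atTop
  have h3 := h2.def (c := 1 / (|C| + 1)) (by positivity)
  filter_upwards [h3, eventually_ge_atTop 1] with n hn h0
  have h0' : (1 : ℝ) ≤ n := by exact_mod_cast h0
  have hlog : 0 ≤ log (n : ℝ) := log_nonneg h0'
  simp only [Function.comp_apply, norm_eq_abs] at hn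
  rw [abs_of_nonneg hlog, abs_of_nonneg (rpow_nonneg (by linarith) b), div_mul_eq_mul_div, one_mul,
    le_div_iff₀ (by positivity)] at hn
  calc C * log (n : ℝ) ≤ |C| * log n := mul_le_mul_of_nonneg_right (le_abs_self C) hlog
    _ ≤ log n * (|C| + 1) := by nlinarith
    _ ≤ (n : ℝ) ^ b := hn

/-- exponentials beat powers -/
theorem ev_exp {b c : ℝ} (hb : 0 < b) (hc : 0 < c) (a C : ℝ) :
    ∀ᶠ n : ℕ in atTop, (n : ℝ) ^ a * exp (-(c * (n : ℝ) ^ b)) ≤ exp (-C) := by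
  filter_upwards [ev_log (half_pos hb) (|a| / c), ev_rpow (show b / 2 < b by linarith) 2,
    ev_const hb (2 * C / c), eventually_ge_atTop 1] with n h1 h2 h3 h0
  have h0' : (1 : ℝ) ≤ n := by exact_mod_cast h0
  have h4 : (n : ℝ) ^ a = exp (a * log n) := by
    rw [rpow_def_of_pos (by linarith)]
    ring_nf
  rw [h4, ← exp_add]
  apply exp_le_exp.mpr
  have hlog : 0 ≤ log (n : ℝ) := log_nonneg h0'
  have h5 : a * log n ≤ |a| * log n := mul_le_mul_of_nonneg_right (le_abs_self a) hlog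
  have h6 : |a| * log n = c * (|a| / c * log n) := by field_simp
  have h7 : c * (|a| / c * log n) ≤ c * (n : ℝ) ^ (b / 2) := mul_le_mul_of_nonneg_left h1 hc.le
  have h8 : c * (2 * (n : ℝ) ^ (b / 2)) ≤ c * (n : ℝ) ^ b := mul_le_mul_of_nonneg_left h2 hc.le
  have h9 : c * (2 * C / c) ≤ c * (n : ℝ) ^ b := mul_le_mul_of_nonneg_left h3 hc.le
  have h10 : c * (2 * C / c) = 2 * C := by field_simp
  linarith

/-- the value of the exponent at a comparison point -/
theorem Fx_le : ∀ᶠ n : ℕ in atTop, ∀ lam c : ℝ, 0 < lam → lam ≤ (n : ℝ) ^ (-(2 / 3) : ℝ) →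
    0 ≤ c → c ≤ n → ∃ i : ℕ, 1 ≤ i ∧ Fx n lam c i ≤ (n : ℝ) ^ (1 / 3 + 1 / 2000 : ℝ) / 8 := by
  filter_upwards [ev_log (show (0 : ℝ) < 1 / 2000 by norm_num) 64,
    ev_const (show (0 : ℝ) < 1 / 2000 by norm_num) 96, eventually_ge_atTop 2] with n h1 h2 h0
  intro lam c hl hlx hc0 hc
  have h0' : (2 : ℝ) ≤ n := by exact_mod_cast h0
  have hN : (0 : ℝ) < n := by linarith
  obtain ⟨x0, hx0⟩ : ∃ x0, x0 = (n : ℝ) ^ (-(2 / 3) : ℝ) := ⟨_, rfl⟩
  rw [← hx0] at hlx
  have hx0p : 0 < x0 := by rw [hx0]; positivity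
  obtain ⟨i, hi1, hi2⟩ : ∃ i : ℕ, x0 ≤ i * lam ∧ i * lam ≤ 2 * x0 := by
    refine ⟨⌈x0 / lam⌉₊, ?_, ?_⟩
    · have h3 := Nat.le_ceil (x0 / lam)
      rwa [div_le_iff₀ hl] at h3
    · have h3 := (Nat.ceil_lt_add_one (show 0 ≤ x0 / lam by positivity)).le
      have h4 := mul_le_mul_of_nonneg_right h3 hl.le
      have h5 : (x0 / lam + 1) * lam = x0 + lam := by field_simp
      linarith
  have hi0 : 1 ≤ i := by
    by_contra hcon
    have h3 : i = 0 := by omega
    rw [h3] at hi1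
    simp only [Nat.cast_zero, zero_mul] at hi1
    linarith
  refine ⟨i, hi0, ?_⟩
  unfold Fx
  have h3 : LZ n (i * lam) ≤ LZ n x0 := LZ_anti hx0p hi1
  obtain ⟨a, ha⟩ : ∃ a : ℕ, a = ⌈(n : ℝ) ^ (1 / 3 : ℝ)⌉₊ := ⟨_, rfl⟩
  have hp1 : (1 : ℝ) ≤ (n : ℝ) ^ (1 / 3 : ℝ) := one_le_rpow (by linarith) (by norm_num)
  have ha1 : (n : ℝ) ^ (1 / 3 : ℝ) ≤ a := by rw [ha]; exact Nat.le_ceil _
  have ha2 : (a : ℝ) ≤ 2 * (n : ℝ) ^ (1 / 3 : ℝ) := by
    have h4 := (Nat.ceil_lt_add_one (show (0 : ℝ) ≤ (n : ℝ) ^ (1 / 3 : ℝ) by positivity)).le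
    rw [← ha] at h4
    linarith
  have ha0 : 1 ≤ a := by
    have : (1 : ℝ) ≤ a := hp1.trans ha1
    exact_mod_cast this
  have h4 := LZ_le (V := n) hx0p ha0
  have hinv : 1 / x0 = (n : ℝ) ^ (2 / 3 : ℝ) := by
    rw [hx0, rpow_neg hN.le, one_div, inv_inv]
  have hlog : log (1 + 1 / x0) ≤ 2 * log n := by
    have h5 : 1 + 1 / x0 ≤ (n : ℝ) ^ (2 : ℝ) := by
      rw [hinv]
      have h6 : (n : ℝ) ^ (2 / 3 : ℝ) ≤ (n : ℝ) ^ (1 : ℝ) :=
        rpow_le_rpow_of_exponent_le (by linarith) (by norm_num)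
      rw [rpow_one] at h6
      have h7 : (n : ℝ) ^ (2 : ℝ) = n * n := by
        rw [show (2 : ℝ) = 1 + 1 by norm_num, rpow_add hN, rpow_one]
      rw [h7]
      nlinarith
    have h6 := log_le_log (by positivity) h5
    rwa [log_rpow hN] at h6
  have hax : (n : ℝ) ^ (-(1 / 3) : ℝ) ≤ a * x0 := by
    have h5 : (n : ℝ) ^ (-(1 / 3) : ℝ) = (n : ℝ) ^ (1 / 3 : ℝ) * x0 := by
      rw [hx0, ← rpow_add hN]
      norm_num
    rw [h5]
    exact mul_le_mul_of_nonneg_right ha1 hx0p.le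
  have h5 : 2 / (a * x0) ≤ 2 * (n : ℝ) ^ (1 / 3 : ℝ) := by
    have h6 : (n : ℝ) ^ (1 / 3 : ℝ) = 1 / (n : ℝ) ^ (-(1 / 3) : ℝ) := by
      rw [rpow_neg hN.le]
      exact ((one_div _).trans (inv_inv _)).symm
    rw [h6]
    have h7 : (0 : ℝ) < (n : ℝ) ^ (-(1 / 3) : ℝ) := by positivity
    calc 2 / (a * x0) ≤ 2 / (n : ℝ) ^ (-(1 / 3) : ℝ) :=
          div_le_div_of_nonneg_left (by norm_num) h7 hax
      _ = 2 * (1 / (n : ℝ) ^ (-(1 / 3) : ℝ)) := by ring
  have h6 : (i : ℝ) * lam * c ≤ 2 * (n : ℝ) ^ (1 / 3 : ℝ) := by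
    have h7 : 2 * x0 * n = 2 * (n : ℝ) ^ (1 / 3 : ℝ) := by
      rw [hx0, mul_assoc]
      congr 1
      nth_rewrite 2 [← rpow_one (n : ℝ)]
      rw [← rpow_add hN]
      norm_num
    rw [← h7]
    have h8 : 0 ≤ (i : ℝ) * lam := by positivity
    exact mul_le_mul hi2 hc hc0 (by positivity)
  have hlog0 : 0 ≤ log (n : ℝ) := log_nonneg (by linarith)
  have h7 : (a : ℝ) * log (1 + 1 / x0) ≤ 2 * (n : ℝ) ^ (1 / 3 : ℝ) * (2 * log n) :=
    (mul_le_mul_of_nonneg_left hlog (by positivity)).trans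
      (mul_le_mul_of_nonneg_right ha2 (by positivity))
  have h8 : (n : ℝ) ^ (1 / 3 + 1 / 2000 : ℝ) = (n : ℝ) ^ (1 / 3 : ℝ) * (n : ℝ) ^ (1 / 2000 : ℝ) :=
    rpow_add hN _ _
  rw [h8]
  have h9 : 4 * log n + 4 ≤ (n : ℝ) ^ (1 / 2000 : ℝ) / 8 := by linarith
  have h10 := mul_le_mul_of_nonneg_left h9 (show (0 : ℝ) ≤ (n : ℝ) ^ (1 / 3 : ℝ) by positivity)
  linarith

/-- **The saddle point.** -/
theorem saddle_asymp : ∀ᶠ n : ℕ in atTop, ∃ x : ℝ, (n : ℝ) ^ (-(2 / 3) - 1 / 1000 : ℝ) ≤ x ∧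
    x ≤ (n : ℝ) ^ (-(2 / 3) + 1 / 1000 : ℝ) ∧
    1 / 2 * exp (x * (n - 2 * (n : ℝ) ^ (17 / 20 : ℝ))) * ZZ n x ≤ (FF n n).card := by
  filter_upwards [Fx_le, ev_rpow (show (17 / 20 : ℝ) < 1 by norm_num) 2,
    ev_rpow (show (-(17 / 20) : ℝ) < -(2 / 3) by norm_num) 3,
    ev_rpow (show (1 / 3 + 1 / 2000 : ℝ) < 1 by norm_num) 1,
    ev_const (show (0 : ℝ) < 1 / 3 + 1 / 2000 by norm_num) 8,
    ev_const (show (0 : ℝ) < 11 / 60 - 1 / 1000 by norm_num) 6,
    ev_rpow (show (1 / 3 + 2 / 1000 : ℝ) < 11 / 30 - 2 / 1000 by norm_num) 144,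
    ev_exp (show (0 : ℝ) < 3 / 1000 by norm_num) (show (0 : ℝ) < 1 / 4 by norm_num) 1 4,
    eventually_ge_atTop 2] with n hF g1 g2 g3 g4 g5 g6 g7 h0
  have h0' : (2 : ℝ) ≤ n := by exact_mod_cast h0
  have hN : (0 : ℝ) < n := lt_of_lt_of_le two_pos h0'
  rw [rpow_one] at g1 g3
  obtain ⟨K, hK⟩ : ∃ K, K = (n : ℝ) ^ (17 / 20 : ℝ) := ⟨_, rfl⟩
  rw [← hK] at g1 ⊢
  have hK0 : 0 < K := by rw [hK]; positivity
  obtain ⟨lam, hlam⟩ : ∃ lam, lam = 3 / K := ⟨_, rfl⟩
  have hl0 : 0 < lam := by rw [hlam]; positivity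
  have hlK : lam * K = 3 := by rw [hlam]; field_simp
  have hlam' : lam = 3 * (n : ℝ) ^ (-(17 / 20) : ℝ) := by
    rw [hlam, hK, rpow_neg hN.le]
    rfl
  have hlx : lam ≤ (n : ℝ) ^ (-(2 / 3) : ℝ) := by rw [hlam']; exact g2
  obtain ⟨i, hi, hFi⟩ := hF lam (n - K) hl0 hlx (by linarith) (by linarith)
  obtain ⟨j, hj, hmin⟩ := exists_saddle n (c := n - K) hl0 (by linarith)
  have hFj := (hmin i hi).trans hFi
  obtain ⟨T, hT⟩ : ∃ T, T = (n : ℝ) ^ (1 / 3 + 1 / 2000 : ℝ) := ⟨_, rfl⟩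
  rw [← hT] at hFj g3 g4
  obtain ⟨x, hx⟩ : ∃ x, x = (j : ℝ) * lam := ⟨_, rfl⟩
  have hj0 : (1 : ℝ) ≤ j := by exact_mod_cast hj
  have hx0 : 0 < x := by rw [hx]; positivity
  unfold Fx at hFj
  rw [← hx] at hFj
  have hLZ0 := LZ_nonneg (V := n) hx0
  -- upper bound
  have hup : x ≤ (n : ℝ) ^ (-(2 / 3) + 1 / 1000 : ℝ) := by
    have h1 : x * (n / 2) ≤ x * (n - K) := mul_le_mul_of_nonneg_left (by linarith) hx0.le
    have h2 : x * n ≤ T := by linarith
    have h3 : T = (n : ℝ) ^ (-(2 / 3) + 1 / 2000 : ℝ) * n := by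
      rw [hT]
      nth_rewrite 3 [← rpow_one (n : ℝ)]
      rw [← rpow_add hN]
      norm_num
    rw [h3] at h2
    have h4 := le_of_mul_le_mul_right h2 hN
    exact h4.trans (rpow_le_rpow_of_exponent_le (by linarith) (by norm_num))
  -- lower bound
  have hlow : (n : ℝ) ^ (-(2 / 3) - 1 / 1000 : ℝ) ≤ x := by
    by_contra hcon
    push Not at hcon
    obtain ⟨a, ha⟩ : ∃ a : ℕ, a = ⌊T / 2⌋₊ := ⟨_, rfl⟩
    have hT0 : 0 ≤ T / 2 := by linarith
    have ha1 : (a : ℝ) ≤ T / 2 := by rw [ha]; exact Nat.floor_le hT0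
    have ha2 : T / 2 < a + 1 := by rw [ha]; exact Nat.lt_floor_add_one _
    have haV : a ≤ n := by
      have : (a : ℝ) ≤ n := by linarith
      exact_mod_cast this
    have h1 : 4 * x * a ^ 2 ≤ 1 := by
      have h2 : (a : ℝ) ^ 2 ≤ (T / 2) ^ 2 := pow_le_pow_left₀ (Nat.cast_nonneg _) ha1 2
      have h3 : (n : ℝ) ^ (-(2 / 3) - 1 / 1000 : ℝ) * T ^ 2 = 1 := by
        rw [hT, ← rpow_natCast, ← rpow_mul hN.le, ← rpow_add hN]
        norm_num
      calc 4 * x * a ^ 2 ≤ 4 * (n : ℝ) ^ (-(2 / 3) - 1 / 1000 : ℝ) * (T / 2) ^ 2 := by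
            apply mul_le_mul (by linarith) h2 (by positivity) (by positivity)
        _ = (n : ℝ) ^ (-(2 / 3) - 1 / 1000 : ℝ) * T ^ 2 := by ring
        _ = 1 := h3
    have h2 := le_LZ hx0 haV h1
    have h3 : 0 ≤ x * (n - K) := mul_nonneg hx0.le (by linarith)
    linarith
  refine ⟨x, hlow, hup, ?_⟩
  -- the number `j`
  have hjx : (j : ℝ) = x * K / 3 := by
    rw [hx, mul_assoc, hlK]
    ring
  have hj1 : (n : ℝ) ^ (11 / 60 - 1 / 1000 : ℝ) / 3 ≤ j := by
    rw [hjx]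
    have h1 : (n : ℝ) ^ (11 / 60 - 1 / 1000 : ℝ) = (n : ℝ) ^ (-(2 / 3) - 1 / 1000 : ℝ) * K := by
      rw [hK, ← rpow_add hN]
      norm_num
    rw [h1]
    have := mul_le_mul_of_nonneg_right hlow hK0.le
    linarith
  have hj2 : 2 ≤ j := by
    have : (2 : ℝ) ≤ j := by linarith
    exact_mod_cast this
  obtain ⟨k, rfl⟩ : ∃ k, j = k + 1 := ⟨j - 1, by omega⟩
  have hk : 1 ≤ k := by omega
  have hxk : x = ((k : ℝ) + 1) * lam := by
    rw [hx]
    push_cast
    ring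
  have hkey := count_lower (V := n) (n := n) hK0 hlK hk hmin ?_
  · rw [← hxk] at hkey
    exact hkey
  -- the second difference
  obtain ⟨v, hv⟩ : ∃ v : ℕ, v = ⌈(n : ℝ) ^ (1 / 3 + 2 / 1000 : ℝ)⌉₊ := ⟨_, rfl⟩
  have hp1 : (1 : ℝ) ≤ (n : ℝ) ^ (1 / 3 + 2 / 1000 : ℝ) :=
    one_le_rpow (by linarith) (by norm_num)
  have hv1 : (n : ℝ) ^ (1 / 3 + 2 / 1000 : ℝ) ≤ v := by rw [hv]; exact Nat.le_ceil _
  have hv2 : (v : ℝ) ≤ 2 * (n : ℝ) ^ (1 / 3 + 2 / 1000 : ℝ) := by
    have h4 := (Nat.ceil_lt_add_one (show (0 : ℝ) ≤ (n : ℝ) ^ (1 / 3 + 2 / 1000 : ℝ) by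
      positivity)).le
    rw [← hv] at h4
    linarith
  refine (LZ_second (V := n) hl0 hk v).trans ?_
  have b1 : (v : ℝ) * (2 / ((k : ℝ) + 1) ^ 2) ≤ 1 / 4 := by
    have hk1 : (n : ℝ) ^ (11 / 60 - 1 / 1000 : ℝ) / 3 ≤ (k : ℝ) + 1 := by
      push_cast at hj1
      exact hj1
    have h1 : ((n : ℝ) ^ (11 / 60 - 1 / 1000 : ℝ) / 3) ^ 2 ≤ ((k : ℝ) + 1) ^ 2 :=
      pow_le_pow_left₀ (by positivity) hk1 2
    have h2 : ((n : ℝ) ^ (11 / 60 - 1 / 1000 : ℝ) / 3) ^ 2 =
        (n : ℝ) ^ (11 / 30 - 2 / 1000 : ℝ) / 9 := by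
      rw [div_pow, ← rpow_natCast, ← rpow_mul hN.le]
      norm_num
    rw [h2] at h1
    have h3 : (0 : ℝ) < ((k : ℝ) + 1) ^ 2 := by positivity
    rw [mul_div_assoc', div_le_div_iff₀ h3 (by norm_num)]
    linarith
  have b2 : (n : ℝ) * (2 * exp (-(k * lam * tr (v + 1)))) ≤ 1 / 4 := by
    have h1 : (n : ℝ) ^ (3 / 1000 : ℝ) / 4 ≤ k * lam * tr (v + 1) := by
      have h2 : x / 2 ≤ k * lam := by
        rw [hxk]
        have : (1 : ℝ) ≤ k := by exact_mod_cast hk
        nlinarith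
      have h3 : ((n : ℝ) ^ (1 / 3 + 2 / 1000 : ℝ)) ^ 2 / 2 ≤ tr (v + 1) := by
        rw [tr_cast]
        push_cast
        have h5 : ((n : ℝ) ^ (1 / 3 + 2 / 1000 : ℝ)) ^ 2 ≤ (v : ℝ) ^ 2 :=
          pow_le_pow_left₀ (by positivity) hv1 2
        nlinarith [Nat.cast_nonneg (α := ℝ) v]
      have h4 : (n : ℝ) ^ (3 / 1000 : ℝ) = (n : ℝ) ^ (-(2 / 3) - 1 / 1000 : ℝ) *
          ((n : ℝ) ^ (1 / 3 + 2 / 1000 : ℝ)) ^ 2 := by
        rw [← rpow_natCast, ← rpow_mul hN.le, ← rpow_add hN]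
        norm_num
      have h5 : (n : ℝ) ^ (-(2 / 3) - 1 / 1000 : ℝ) / 2 ≤ k * lam := by linarith
      have h6 := mul_le_mul h5 h3 (by positivity) (by positivity)
      rw [h4]
      linarith
    have h2 : exp (-(k * lam * tr (v + 1))) ≤ exp (-(1 / 4 * (n : ℝ) ^ (3 / 1000 : ℝ))) :=
      exp_le_exp.mpr (by linarith)
    rw [rpow_one] at g7
    have h3 : exp (-4 : ℝ) ≤ 1 / 8 := by
      have h4 := add_one_le_exp (1 : ℝ)
      have h5 : exp (4 : ℝ) = exp 1 * exp 1 * exp 1 * exp 1 := by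
        rw [← exp_add, ← exp_add, ← exp_add]; norm_num
      rw [exp_neg, ← one_div, div_le_div_iff₀ (exp_pos _) (by norm_num), h5]
      have h6 : (4 : ℝ) ≤ exp 1 * exp 1 := by nlinarith
      nlinarith
    have h4 := mul_le_mul_of_nonneg_left h2 hN.le
    linarith
  linarith

end Pool.Agent.Work.MP_0421d9_ag.AA
end

section
/-!
Counting multisets of multiplicities: almost all of them have many small multiplicities.
-/

namespace Pool.Agent.Work.MP_0421d9_ag.AA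

open Real Filter

/-- the number of conditions imposed by the points of multiplicity at most `u` -/
def tail {V : ℕ} (u : ℕ) (f : Fin V → ℕ) : ℕ :=
  ∑ i ∈ Finset.univ.filter (fun i : Fin V => (i : ℕ) + 1 ≤ u), f i * tr (i + 1)

/-- the bound for the multiplicities -/
noncomputable def Mx (n : ℕ) : ℕ := ⌈(n : ℝ) ^ (428 / 1000 : ℝ)⌉₊

/-- the bound for the small multiplicities -/
noncomputable def Ux (n : ℕ) : ℕ := ⌈(n : ℝ) ^ (1 / 5 : ℝ)⌉₊

/-- typical configurations -/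
def Nice (n : ℕ) {V : ℕ} (f : Fin V → ℕ) : Prop :=
  (∀ i : Fin V, Mx n ≤ (i : ℕ) + 1 → f i = 0) ∧
  (∀ i : Fin V, (i : ℕ) = 0 → Mx n + 2 < f i) ∧
  (n : ℝ) ^ (865 / 1000 : ℝ) ≤ tail (Ux n) f

theorem tr_le_sq {v : ℕ} (hv : 1 ≤ v) : (tr v : ℝ) ≤ (v : ℝ) ^ 2 := by
  rw [tr_cast]
  have : (1 : ℝ) ≤ v := by exact_mod_cast hv
  nlinarith

theorem sq_le_tr (v : ℕ) : (v : ℝ) ^ 2 / 2 ≤ tr v := by
  rw [tr_cast]
  nlinarith [Nat.cast_nonneg (α := ℝ) v]

/-- the first kind of exceptions -/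
theorem bad_large {ε : ℝ} (hε : 0 < ε) : ∀ᶠ n : ℕ in atTop, ∀ x : ℝ,
    (n : ℝ) ^ (-(2 / 3) - 1 / 1000 : ℝ) ≤ x →
    1 / 2 * exp (x * (n - 2 * (n : ℝ) ^ (17 / 20 : ℝ))) * ZZ n x ≤ (FF n n).card →
    (((FF n n).filter (fun f => ∃ i : Fin n, Mx n ≤ (i : ℕ) + 1 ∧ f i ≠ 0)).card : ℝ) ≤
      ε * (FF n n).card := by
  filter_upwards [ev_rpow (show (17 / 20 : ℝ) < 856 / 1000 by norm_num) 8,
    ev_exp (show (0 : ℝ) < 188 / 1000 by norm_num) (show (0 : ℝ) < 1 / 4 by norm_num) 1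
      (-log (ε / 2)), eventually_ge_atTop 2] with n g1 g2 h0
  intro x hx hsad
  have h0' : (2 : ℝ) ≤ n := by exact_mod_cast h0
  have hN : (0 : ℝ) < n := lt_of_lt_of_le two_pos h0'
  have hx0 : 0 < x := lt_of_lt_of_le (by positivity) hx
  have hM : (n : ℝ) ^ (428 / 1000 : ℝ) ≤ Mx n := Nat.le_ceil _
  have hM1 : 1 ≤ Mx n := by
    have h1 : (1 : ℝ) ≤ (n : ℝ) ^ (428 / 1000 : ℝ) := one_le_rpow (by linarith) (by norm_num)
    have : (1 : ℝ) ≤ Mx n := h1.trans hM
    exact_mod_cast this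
  refine (large_part hx0 n n (Mx n)).trans ?_
  have htr : (n : ℝ) ^ (856 / 1000 : ℝ) / 2 ≤ tr (Mx n) := by
    refine le_trans ?_ (sq_le_tr (Mx n))
    have h1 : ((n : ℝ) ^ (428 / 1000 : ℝ)) ^ 2 ≤ (Mx n : ℝ) ^ 2 :=
      pow_le_pow_left₀ (by positivity) hM 2
    have h2 : ((n : ℝ) ^ (428 / 1000 : ℝ)) ^ 2 = (n : ℝ) ^ (856 / 1000 : ℝ) := by
      rw [← rpow_natCast, ← rpow_mul hN.le]
      norm_num
    rw [h2] at h1
    linarith
  have hex : -(x * tr (Mx n)) + x * n ≤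
      x * (n - 2 * (n : ℝ) ^ (17 / 20 : ℝ)) - 1 / 4 * (n : ℝ) ^ (188 / 1000 : ℝ) := by
    have h1 : (n : ℝ) ^ (188 / 1000 : ℝ) ≤ x * (n : ℝ) ^ (856 / 1000 : ℝ) := by
      have h2 : (n : ℝ) ^ (188 / 1000 : ℝ) ≤
          (n : ℝ) ^ (-(2 / 3) - 1 / 1000 : ℝ) * (n : ℝ) ^ (856 / 1000 : ℝ) := by
        rw [← rpow_add hN]
        exact rpow_le_rpow_of_exponent_le (by linarith) (by norm_num)
      exact h2.trans (mul_le_mul_of_nonneg_right hx (by positivity))
    have h3 := mul_le_mul_of_nonneg_left htr hx0.le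
    have h4 := mul_le_mul_of_nonneg_left g1 hx0.le
    have e1 : x * ((n : ℝ) ^ (856 / 1000 : ℝ) / 2) = x * (n : ℝ) ^ (856 / 1000 : ℝ) / 2 := by ring
    have e2 : x * (8 * (n : ℝ) ^ (17 / 20 : ℝ)) = 8 * (x * (n : ℝ) ^ (17 / 20 : ℝ)) := by ring
    have e3 : x * (n - 2 * (n : ℝ) ^ (17 / 20 : ℝ)) = x * n - 2 * (x * (n : ℝ) ^ (17 / 20 : ℝ)) := by
      ring
    rw [e3]
    linarith
  rw [rpow_one, neg_neg, exp_log (by positivity)] at g2
  have hZ := ZZ_pos (V := n) hx0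
  calc (n : ℝ) * exp (-(x * tr (Mx n))) * exp (x * n) * ZZ n x
      = (n : ℝ) * exp (-(x * tr (Mx n)) + x * n) * ZZ n x := by rw [exp_add]; ring
    _ ≤ (n : ℝ) * exp (x * (n - 2 * (n : ℝ) ^ (17 / 20 : ℝ)) -
          1 / 4 * (n : ℝ) ^ (188 / 1000 : ℝ)) * ZZ n x := by
        apply mul_le_mul_of_nonneg_right _ hZ.le
        exact mul_le_mul_of_nonneg_left (exp_le_exp.mpr hex) hN.le
    _ = 2 * ((n : ℝ) * exp (-(1 / 4 * (n : ℝ) ^ (188 / 1000 : ℝ)))) *
          (1 / 2 * exp (x * (n - 2 * (n : ℝ) ^ (17 / 20 : ℝ))) * ZZ n x) := by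
        rw [sub_eq_add_neg (x * (n - 2 * (n : ℝ) ^ (17 / 20 : ℝ))), exp_add]
        ring
    _ ≤ 2 * (ε / 2) * (FF n n).card := by
        apply mul_le_mul _ hsad (by positivity) (by positivity)
        linarith
    _ = ε * (FF n n).card := by ring

/-- the second kind of exceptions -/
theorem bad_tail {ε : ℝ} (hε : 0 < ε) : ∀ᶠ n : ℕ in atTop, ∀ x : ℝ, 0 < x →
    x ≤ (n : ℝ) ^ (-(2 / 3) + 1 / 1000 : ℝ) →
    1 / 2 * exp (x * (n - 2 * (n : ℝ) ^ (17 / 20 : ℝ))) * ZZ n x ≤ (FF n n).card →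
    (((FF n n).filter (fun f => (tail (Ux n) f : ℝ) ≤ Ux n / (41 * x))).card : ℝ) ≤
      ε * (FF n n).card := by
  filter_upwards [ev_rpow (show (-(2 / 3) + 1 / 1000 + 17 / 20 : ℝ) < 1 / 5 by norm_num) 2,
    ev_rpow (show (-(2 / 3) + 1 / 1000 + 2 / 5 : ℝ) < 0 by norm_num) 168,
    ev_rpow (show (1 / 5 : ℝ) < 1 by norm_num) 2,
    ev_exp (show (0 : ℝ) < 1 / 5 by norm_num) (show (0 : ℝ) < 1 by norm_num) 0
      (-log (ε / 2)), eventually_ge_atTop 2] with n g1 g2 g3 g4 h0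
  intro x hx0 hx hsad
  have h0' : (2 : ℝ) ≤ n := by exact_mod_cast h0
  have hN : (0 : ℝ) < n := lt_of_lt_of_le two_pos h0'
  rw [rpow_zero] at g2
  rw [rpow_one] at g3
  rw [rpow_zero, neg_neg, exp_log (by positivity), one_mul, one_mul] at g4
  have hp1 : (1 : ℝ) ≤ (n : ℝ) ^ (1 / 5 : ℝ) := one_le_rpow (by linarith) (by norm_num)
  have hU : (n : ℝ) ^ (1 / 5 : ℝ) ≤ Ux n := Nat.le_ceil _
  have hU2 : (Ux n : ℝ) ≤ 2 * (n : ℝ) ^ (1 / 5 : ℝ) := by
    have h4 := (Nat.ceil_lt_add_one (show (0 : ℝ) ≤ (n : ℝ) ^ (1 / 5 : ℝ) by positivity)).le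
    have h5 : (Ux n : ℝ) = (⌈(n : ℝ) ^ (1 / 5 : ℝ)⌉₊ : ℝ) := rfl
    rw [h5]
    linarith
  have hU1 : 1 ≤ Ux n := by
    have : (1 : ℝ) ≤ Ux n := hp1.trans hU
    exact_mod_cast this
  have hUn : Ux n ≤ n := by
    have : (Ux n : ℝ) ≤ n := by linarith
    exact_mod_cast this
  have htr : 42 * x * tr (Ux n) ≤ 1 := by
    have h1 : (tr (Ux n) : ℝ) ≤ 4 * (n : ℝ) ^ (2 / 5 : ℝ) := by
      refine (tr_le_sq hU1).trans ?_
      have h2 : (Ux n : ℝ) ^ 2 ≤ (2 * (n : ℝ) ^ (1 / 5 : ℝ)) ^ 2 :=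
        pow_le_pow_left₀ (by positivity) hU2 2
      have h3 : (2 * (n : ℝ) ^ (1 / 5 : ℝ)) ^ 2 = 4 * (n : ℝ) ^ (2 / 5 : ℝ) := by
        rw [mul_pow, ← rpow_natCast ((n : ℝ) ^ (1 / 5 : ℝ)), ← rpow_mul hN.le]
        norm_num
      rwa [h3] at h2
    have h2 : x * tr (Ux n) ≤ (n : ℝ) ^ (-(2 / 3) + 1 / 1000 : ℝ) * (4 * (n : ℝ) ^ (2 / 5 : ℝ)) :=
      mul_le_mul hx h1 (by positivity) (by positivity)
    have h3 : (n : ℝ) ^ (-(2 / 3) + 1 / 1000 : ℝ) * (4 * (n : ℝ) ^ (2 / 5 : ℝ)) =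
        4 * (n : ℝ) ^ (-(2 / 3) + 1 / 1000 + 2 / 5 : ℝ) := by
      rw [rpow_add hN (-(2 / 3) + 1 / 1000) (2 / 5)]
      ring
    rw [h3] at h2
    linarith
  refine (light hx0 n n (Ux n) hUn htr (Ux n / (41 * x))).trans ?_
  have hex : 41 * x * ((Ux n : ℝ) / (41 * x)) - 3 * Ux n + x * n ≤
      x * (n - 2 * (n : ℝ) ^ (17 / 20 : ℝ)) - (n : ℝ) ^ (1 / 5 : ℝ) := by
    have h1 : 41 * x * ((Ux n : ℝ) / (41 * x)) = Ux n := by field_simp
    have h2 : x * (n : ℝ) ^ (17 / 20 : ℝ) ≤ (n : ℝ) ^ (-(2 / 3) + 1 / 1000 + 17 / 20 : ℝ) := by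
      rw [rpow_add hN (-(2 / 3) + 1 / 1000) (17 / 20)]
      exact mul_le_mul_of_nonneg_right hx (by positivity)
    have e3 : x * (n - 2 * (n : ℝ) ^ (17 / 20 : ℝ)) = x * n - 2 * (x * (n : ℝ) ^ (17 / 20 : ℝ)) := by
      ring
    rw [e3, h1]
    linarith
  have hZ := ZZ_pos (V := n) hx0
  calc exp (41 * x * ((Ux n : ℝ) / (41 * x)) - 3 * Ux n) * exp (x * n) * ZZ n x
      = exp (41 * x * ((Ux n : ℝ) / (41 * x)) - 3 * Ux n + x * n) * ZZ n x := by
        rw [exp_add (41 * x * ((Ux n : ℝ) / (41 * x)) - 3 * Ux n)]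
    _ ≤ exp (x * (n - 2 * (n : ℝ) ^ (17 / 20 : ℝ)) - (n : ℝ) ^ (1 / 5 : ℝ)) * ZZ n x :=
        mul_le_mul_of_nonneg_right (exp_le_exp.mpr hex) hZ.le
    _ = 2 * exp (-(n : ℝ) ^ (1 / 5 : ℝ)) *
          (1 / 2 * exp (x * (n - 2 * (n : ℝ) ^ (17 / 20 : ℝ))) * ZZ n x) := by
        rw [sub_eq_add_neg (x * (n - 2 * (n : ℝ) ^ (17 / 20 : ℝ))), exp_add]
        ring
    _ ≤ 2 * (ε / 2) * (FF n n).card := by
        apply mul_le_mul _ hsad (by positivity) (by positivity)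
        linarith
    _ = ε * (FF n n).card := by ring

/-- the third kind of exceptions -/
theorem bad_few {ε : ℝ} (hε : 0 < ε) : ∀ᶠ n : ℕ in atTop, ∀ x : ℝ, 0 < x →
    x ≤ (n : ℝ) ^ (-(2 / 3) + 1 / 1000 : ℝ) →
    (((FF n n).filter (fun f => (∃ i : Fin n, (i : ℕ) = 0 ∧ f i ≤ Mx n + 2) ∧
      (Ux n : ℝ) / (41 * x) < tail (Ux n) f)).card : ℝ) ≤ ε * (FF n n).card := by
  classical
  filter_upwards [ev_rpow (show (-(2 / 3) + 1 / 1000 + 428 / 1000 : ℝ) < 0 by norm_num) 164,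
    ev_rpow (show (2 / 5 : ℝ) < 428 / 1000 by norm_num) 1,
    ev_rpow (show (-(2 / 3) + 1 / 1000 + 1 / 5 + 428 / 1000 : ℝ) < -(1 / 100) by norm_num) 656,
    ev_const (show (0 : ℝ) < 1 / 100 by norm_num) (1 / ε),
    eventually_ge_atTop 2] with n g1 g2 g3 g4 h0
  intro x hx0 hx
  have h0' : (2 : ℝ) ≤ n := by exact_mod_cast h0
  have hN : (0 : ℝ) < n := lt_of_lt_of_le two_pos h0'
  rw [rpow_zero] at g1
  rw [one_mul] at g2
  have hp1 : (1 : ℝ) ≤ (n : ℝ) ^ (1 / 5 : ℝ) := one_le_rpow (by linarith) (by norm_num)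
  have hp2 : (1 : ℝ) ≤ (n : ℝ) ^ (428 / 1000 : ℝ) := one_le_rpow (by linarith) (by norm_num)
  have hU : (n : ℝ) ^ (1 / 5 : ℝ) ≤ Ux n := Nat.le_ceil _
  have hU2 : (Ux n : ℝ) ≤ 2 * (n : ℝ) ^ (1 / 5 : ℝ) := by
    have h4 := (Nat.ceil_lt_add_one (show (0 : ℝ) ≤ (n : ℝ) ^ (1 / 5 : ℝ) by positivity)).le
    have h5 : (Ux n : ℝ) = (⌈(n : ℝ) ^ (1 / 5 : ℝ)⌉₊ : ℝ) := rfl
    rw [h5]
    linarith
  have hU1 : 1 ≤ Ux n := by
    have : (1 : ℝ) ≤ Ux n := hp1.trans hU
    exact_mod_cast this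
  have hM2 : (Mx n : ℝ) + 2 ≤ 4 * (n : ℝ) ^ (428 / 1000 : ℝ) := by
    have h4 := (Nat.ceil_lt_add_one (show (0 : ℝ) ≤ (n : ℝ) ^ (428 / 1000 : ℝ) by positivity)).le
    have h5 : (Mx n : ℝ) = (⌈(n : ℝ) ^ (428 / 1000 : ℝ)⌉₊ : ℝ) := rfl
    rw [h5]
    linarith
  have htr : (tr (Ux n) : ℝ) ≤ 4 * (n : ℝ) ^ (428 / 1000 : ℝ) := by
    refine (tr_le_sq hU1).trans ?_
    have h2 : (Ux n : ℝ) ^ 2 ≤ (2 * (n : ℝ) ^ (1 / 5 : ℝ)) ^ 2 :=
      pow_le_pow_left₀ (by positivity) hU2 2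
    have h3 : (2 * (n : ℝ) ^ (1 / 5 : ℝ)) ^ 2 = 4 * (n : ℝ) ^ (2 / 5 : ℝ) := by
      rw [mul_pow, ← rpow_natCast ((n : ℝ) ^ (1 / 5 : ℝ)), ← rpow_mul hN.le]
      norm_num
    rw [h3] at h2
    linarith
  -- the bound for one multiplicity
  obtain ⟨Iv, hIv⟩ : ∃ Iv : Fin n → ℕ, Iv = fun i : Fin n =>
    ⌊1 / (41 * x * tr ((i : ℕ) + 1))⌋₊ := ⟨_, rfl⟩
  obtain ⟨S, hS⟩ : ∃ S : Finset (Fin n), S = Finset.univ.filter (fun i : Fin n =>
    1 ≤ (i : ℕ) ∧ (i : ℕ) + 1 ≤ Ux n) := ⟨_, rfl⟩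
  have hi0 : (⟨0, by omega⟩ : Fin n).val = 0 := rfl
  obtain ⟨i0, hi0⟩ : ∃ i0 : Fin n, (i0 : ℕ) = 0 := ⟨⟨0, by omega⟩, rfl⟩
  have hsub : (FF n n).filter (fun f => (∃ i : Fin n, (i : ℕ) = 0 ∧ f i ≤ Mx n + 2) ∧
      (Ux n : ℝ) / (41 * x) < tail (Ux n) f) ⊆
      S.biUnion (fun i => (FF n n).filter (fun f => f i0 ≤ Mx n + 2 ∧ Iv i ≤ f i)) := by
    intro f hf
    rw [Finset.mem_filter] at hf
    obtain ⟨hf1, ⟨i', hi', hfi'⟩, hf2⟩ := hf
    have hii : i' = i0 := Fin.ext (hi'.trans hi0.symm)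
    rw [hii] at hfi'
    rw [Finset.mem_biUnion]
    by_contra hcon
    push Not at hcon
    have hall : ∀ i ∈ Finset.univ.filter (fun i : Fin n => (i : ℕ) + 1 ≤ Ux n),
        ((f i * tr ((i : ℕ) + 1) : ℕ) : ℝ) ≤ 1 / (41 * x) := by
      intro i hi
      have hiu := (Finset.mem_filter.mp hi).2
      have ht := tr_real_pos (v := (i : ℕ) + 1) (by omega)
      push_cast
      rcases Nat.eq_zero_or_pos (i : ℕ) with hiz | hiz
      · have e1 : i = i0 := Fin.ext (hiz.trans hi0.symm)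
        have e2 : tr ((i : ℕ) + 1) = 1 := by rw [hiz]; rfl
        rw [e2, Nat.cast_one, mul_one, e1, le_div_iff₀ (by positivity)]
        have h1 : (f i0 : ℝ) ≤ 4 * (n : ℝ) ^ (428 / 1000 : ℝ) := by
          have : (f i0 : ℝ) ≤ ((Mx n + 2 : ℕ) : ℝ) := by exact_mod_cast hfi'
          push_cast at this
          linarith
        have h2 : x * (n : ℝ) ^ (428 / 1000 : ℝ) ≤
            (n : ℝ) ^ (-(2 / 3) + 1 / 1000 + 428 / 1000 : ℝ) := by
          rw [rpow_add hN (-(2 / 3) + 1 / 1000) (428 / 1000)]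
          exact mul_le_mul_of_nonneg_right hx (by positivity)
        have h3 := mul_le_mul_of_nonneg_right h1 hx0.le
        nlinarith
      · have h1 : ¬ (f i0 ≤ Mx n + 2 ∧ Iv i ≤ f i) := by
          intro h2
          exact hcon i (by rw [hS, Finset.mem_filter]; exact ⟨Finset.mem_univ _, hiz, hiu⟩)
            (Finset.mem_filter.mpr ⟨hf1, h2⟩)
        have h2 : f i < Iv i := by
          by_contra h3
          exact h1 ⟨hfi', by omega⟩
        have h3 : (f i : ℝ) ≤ 1 / (41 * x * tr ((i : ℕ) + 1)) := by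
          have h4 : (Iv i : ℝ) ≤ 1 / (41 * x * tr ((i : ℕ) + 1)) := by
            rw [hIv]
            exact Nat.floor_le (by positivity)
          have h5 : (f i : ℝ) ≤ Iv i := by exact_mod_cast h2.le
          linarith
        have h4 := mul_le_mul_of_nonneg_right h3 (by linarith : (0 : ℝ) ≤ tr ((i : ℕ) + 1))
        have h5 : 1 / (41 * x * tr ((i : ℕ) + 1)) * (tr ((i : ℕ) + 1) : ℝ) = 1 / (41 * x) := by
          field_simp
        rwa [h5] at h4
    have h1 : (tail (Ux n) f : ℝ) ≤ (Ux n : ℝ) * (1 / (41 * x)) := by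
      unfold tail
      rw [Nat.cast_sum]
      refine (Finset.sum_le_card_nsmul _ _ _ hall).trans ?_
      rw [nsmul_eq_mul]
      apply mul_le_mul_of_nonneg_right _ (by positivity)
      have h2 : (Finset.univ.filter (fun i : Fin n => (i : ℕ) + 1 ≤ Ux n)).card ≤ Ux n := by
        calc (Finset.univ.filter (fun i : Fin n => (i : ℕ) + 1 ≤ Ux n)).card
            = ((Finset.univ.filter (fun i : Fin n => (i : ℕ) + 1 ≤ Ux n)).image
                (fun i : Fin n => (i : ℕ))).card :=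
              (Finset.card_image_of_injective _ Fin.val_injective).symm
          _ ≤ (Finset.range (Ux n)).card := by
              apply Finset.card_le_card
              intro v hv
              rw [Finset.mem_image] at hv
              obtain ⟨i, hi, rfl⟩ := hv
              rw [Finset.mem_range]
              have := (Finset.mem_filter.mp hi).2
              omega
          _ = Ux n := Finset.card_range _
      exact_mod_cast h2
    have h2 : (Ux n : ℝ) * (1 / (41 * x)) = (Ux n : ℝ) / (41 * x) := by ring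
    rw [h2] at h1
    linarith
  have hone : ∀ i ∈ S, (((FF n n).filter (fun f => f i0 ≤ Mx n + 2 ∧ Iv i ≤ f i)).card : ℝ) ≤
      41 * x * (8 * (n : ℝ) ^ (428 / 1000 : ℝ)) * (FF n n).card := by
    intro i hi
    rw [hS, Finset.mem_filter] at hi
    have ht := tr_real_pos (v := (i : ℕ) + 1) (by omega)
    have h1 := few_ones (n := n) i0 i hi0 hi.2.1 (Mx n + 2) (Iv i)
    have h2 : (((FF n n).filter (fun f => f i0 ≤ Mx n + 2 ∧ Iv i ≤ f i)).card : ℝ) *
        ((Iv i : ℝ) + 1) ≤ (((Mx n + 2) / tr ((i : ℕ) + 1) : ℕ) + 1) * (FF n n).card := by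
      exact_mod_cast h1
    have h3 : 1 / (41 * x * tr ((i : ℕ) + 1)) ≤ (Iv i : ℝ) + 1 := by
      rw [hIv]
      exact (Nat.lt_floor_add_one _).le
    have h4 : (((Mx n + 2) / tr ((i : ℕ) + 1) : ℕ) : ℝ) ≤
        (Mx n + 2) / (tr ((i : ℕ) + 1) : ℝ) := by
      have := Nat.cast_div_le (α := ℝ) (m := Mx n + 2) (n := tr ((i : ℕ) + 1))
      push_cast at this
      exact this
    obtain ⟨Cc, hCc⟩ : ∃ Cc : ℝ, Cc = (((FF n n).filter (fun f => f i0 ≤ Mx n + 2 ∧
      Iv i ≤ f i)).card : ℝ) := ⟨_, rfl⟩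
    rw [← hCc] at h2 ⊢
    have hCc0 : 0 ≤ Cc := by rw [hCc]; exact Nat.cast_nonneg _
    obtain ⟨Tt, hTt⟩ : ∃ Tt : ℝ, Tt = (tr ((i : ℕ) + 1) : ℝ) := ⟨_, rfl⟩
    rw [← hTt] at ht h3 h4
    obtain ⟨Fc, hFc⟩ : ∃ Fc : ℝ, Fc = ((FF n n).card : ℝ) := ⟨_, rfl⟩
    obtain ⟨Mc, hMc⟩ : ∃ Mc : ℝ, Mc = (Mx n : ℝ) := ⟨_, rfl⟩
    have hFF0 : 0 ≤ Fc := by rw [hFc]; exact Nat.cast_nonneg _
    rw [← hFc] at h2 ⊢
    rw [← hMc] at h4 hM2
    have h5 : Cc * (1 / (41 * x * Tt)) ≤ ((Mc + 2) / Tt + 1) * Fc :=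
      (mul_le_mul_of_nonneg_left h3 hCc0).trans (h2.trans
        (mul_le_mul_of_nonneg_right (by linarith) hFF0))
    have h6 : Cc = (41 * x * Tt) * (Cc * (1 / (41 * x * Tt))) := by field_simp
    rw [h6]
    have h7 : (41 * x * Tt) * (Cc * (1 / (41 * x * Tt))) ≤
        (41 * x * Tt) * (((Mc + 2) / Tt + 1) * Fc) :=
      mul_le_mul_of_nonneg_left h5 (by positivity)
    refine h7.trans ?_
    have h8 : (41 * x * Tt) * (((Mc + 2) / Tt + 1) * Fc) =
        41 * x * (Mc + 2 + Tt) * Fc := by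
      have hTt0 : Tt ≠ 0 := by linarith
      field_simp
    rw [h8]
    apply mul_le_mul_of_nonneg_right _ hFF0
    apply mul_le_mul_of_nonneg_left _ (by positivity)
    have h9 : Tt ≤ tr (Ux n) := by
      rw [hTt]
      exact_mod_cast tr_mono hi.2.2
    linarith
  have hcardS : (S.card : ℝ) ≤ 2 * (n : ℝ) ^ (1 / 5 : ℝ) := by
    refine le_trans ?_ hU2
    have h2 : S.card ≤ Ux n := by
      calc S.card = (S.image (fun i : Fin n => (i : ℕ))).card :=
            (Finset.card_image_of_injective _ Fin.val_injective).symm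
        _ ≤ (Finset.range (Ux n)).card := by
            apply Finset.card_le_card
            intro v hv
            rw [Finset.mem_image] at hv
            obtain ⟨i, hi, rfl⟩ := hv
            rw [hS] at hi
            rw [Finset.mem_range]
            have := (Finset.mem_filter.mp hi).2.2
            omega
        _ = Ux n := Finset.card_range _
    exact_mod_cast h2
  have hFF0 : (0 : ℝ) ≤ (FF n n).card := Nat.cast_nonneg _
  have h1 : (((FF n n).filter (fun f => (∃ i : Fin n, (i : ℕ) = 0 ∧ f i ≤ Mx n + 2) ∧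
      (Ux n : ℝ) / (41 * x) < tail (Ux n) f)).card : ℝ) ≤
      ∑ i ∈ S, (((FF n n).filter (fun f => f i0 ≤ Mx n + 2 ∧ Iv i ≤ f i)).card : ℝ) := by
    have h2 := (Finset.card_le_card hsub).trans Finset.card_biUnion_le
    exact_mod_cast h2
  refine h1.trans ((Finset.sum_le_card_nsmul _ _ _ hone).trans ?_)
  rw [nsmul_eq_mul]
  have h2 : (S.card : ℝ) * (41 * x * (8 * (n : ℝ) ^ (428 / 1000 : ℝ)) * (FF n n).card) =
      (S.card * (328 * (x * (n : ℝ) ^ (428 / 1000 : ℝ)))) * (FF n n).card := by ring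
  rw [h2]
  apply mul_le_mul_of_nonneg_right _ hFF0
  have h3 : x * (n : ℝ) ^ (428 / 1000 : ℝ) ≤
      (n : ℝ) ^ (-(2 / 3) + 1 / 1000 : ℝ) * (n : ℝ) ^ (428 / 1000 : ℝ) :=
    mul_le_mul_of_nonneg_right hx (by positivity)
  have h4 : (S.card : ℝ) * (328 * (x * (n : ℝ) ^ (428 / 1000 : ℝ))) ≤
      2 * (n : ℝ) ^ (1 / 5 : ℝ) * (328 * ((n : ℝ) ^ (-(2 / 3) + 1 / 1000 : ℝ) *
        (n : ℝ) ^ (428 / 1000 : ℝ))) :=
    mul_le_mul hcardS (by linarith) (by positivity) (by positivity)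
  have h5 : 2 * (n : ℝ) ^ (1 / 5 : ℝ) * (328 * ((n : ℝ) ^ (-(2 / 3) + 1 / 1000 : ℝ) *
        (n : ℝ) ^ (428 / 1000 : ℝ))) =
      656 * (n : ℝ) ^ (-(2 / 3) + 1 / 1000 + 1 / 5 + 428 / 1000 : ℝ) := by
    rw [rpow_add hN (-(2 / 3) + 1 / 1000 + 1 / 5) (428 / 1000),
      rpow_add hN (-(2 / 3) + 1 / 1000) (1 / 5)]
    ring
  rw [h5] at h4
  have h6 : (n : ℝ) ^ (-(1 / 100) : ℝ) ≤ ε := by
    rw [rpow_neg hN.le, inv_le_comm₀ (by positivity) hε, ← one_div]
    exact g4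
  linarith

/-- **Almost all configurations are typical.** -/
theorem most_nice {ε : ℝ} (hε : 0 < ε) : ∀ᶠ n : ℕ in atTop,
    (Set.ncard {f : Fin n → ℕ | wt f ≤ n ∧ ¬ Nice n f} : ℝ) ≤ ε * (FF n n).card := by
  classical
  filter_upwards [saddle_asymp, bad_large (ε := ε / 3) (by positivity),
    bad_tail (ε := ε / 3) (by positivity), bad_few (ε := ε / 3) (by positivity),
    ev_rpow (show (865 / 1000 : ℝ) < 1 / 5 + (2 / 3 - 1 / 1000) by norm_num) 41,
    eventually_ge_atTop 2] with n hs h1 h2 h3 g1 h0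
  have h0' : (2 : ℝ) ≤ n := by exact_mod_cast h0
  have hN : (0 : ℝ) < n := lt_of_lt_of_le two_pos h0'
  obtain ⟨x, hx1, hx2, hx3⟩ := hs
  have hx0 : 0 < x := lt_of_lt_of_le (by positivity) hx1
  have b1 := h1 x hx1 hx3
  have b2 := h2 x hx0 hx2 hx3
  have b3 := h3 x hx0 hx2
  have hY : (n : ℝ) ^ (865 / 1000 : ℝ) ≤ (Ux n : ℝ) / (41 * x) := by
    rw [le_div_iff₀ (by positivity)]
    have hU : (n : ℝ) ^ (1 / 5 : ℝ) ≤ Ux n := Nat.le_ceil _
    have h4 : (n : ℝ) ^ (865 / 1000 : ℝ) * (41 * x) ≤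
        (n : ℝ) ^ (1 / 5 + (2 / 3 - 1 / 1000) : ℝ) * (n : ℝ) ^ (-(2 / 3) + 1 / 1000 : ℝ) := by
      calc (n : ℝ) ^ (865 / 1000 : ℝ) * (41 * x) = (41 * (n : ℝ) ^ (865 / 1000 : ℝ)) * x := by ring
        _ ≤ (n : ℝ) ^ (1 / 5 + (2 / 3 - 1 / 1000) : ℝ) * (n : ℝ) ^ (-(2 / 3) + 1 / 1000 : ℝ) :=
            mul_le_mul g1 hx2 hx0.le (by positivity)
    rw [← rpow_add hN] at h4
    have e1 : (1 / 5 + (2 / 3 - 1 / 1000) + (-(2 / 3) + 1 / 1000) : ℝ) = 1 / 5 := by norm_num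
    rw [e1] at h4
    exact h4.trans hU
  have hsub : {f : Fin n → ℕ | wt f ≤ n ∧ ¬ Nice n f} ⊆
      (((FF n n).filter (fun f => ∃ i : Fin n, Mx n ≤ (i : ℕ) + 1 ∧ f i ≠ 0) ∪
      (FF n n).filter (fun f => (tail (Ux n) f : ℝ) ≤ Ux n / (41 * x)) ∪
      (FF n n).filter (fun f => (∃ i : Fin n, (i : ℕ) = 0 ∧ f i ≤ Mx n + 2) ∧
      (Ux n : ℝ) / (41 * x) < tail (Ux n) f) : Finset (Fin n → ℕ)) : Set (Fin n → ℕ)) := by
    rintro f ⟨hf1, hf2⟩
    rw [Finset.mem_coe, Finset.mem_union, Finset.mem_union, Finset.mem_filter, Finset.mem_filter,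
      Finset.mem_filter, mem_FF]
    by_contra hcon
    push Not at hcon
    obtain ⟨⟨c1, c2⟩, c3⟩ := hcon
    apply hf2
    have d1 := c1 hf1
    have d2 := c2 hf1
    refine ⟨fun i hi => d1 i hi, fun i hi => ?_, (hY.trans d2.le)⟩
    by_contra h5
    push Not at h5
    have := c3 hf1 ⟨i, hi, h5⟩
    linarith
  have h4 := Set.ncard_le_ncard hsub (Finset.finite_toSet _)
  rw [Set.ncard_coe_finset] at h4
  have h5 := h4.trans ((Finset.card_union_le _ _).trans
    (Nat.add_le_add_right (Finset.card_union_le _ _) _))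
  have h6 : (Set.ncard {f : Fin n → ℕ | wt f ≤ n ∧ ¬ Nice n f} : ℝ) ≤
      (((FF n n).filter (fun f => ∃ i : Fin n, Mx n ≤ (i : ℕ) + 1 ∧ f i ≠ 0)).card : ℝ) +
      (((FF n n).filter (fun f => (tail (Ux n) f : ℝ) ≤ Ux n / (41 * x))).card : ℝ) +
      (((FF n n).filter (fun f => (∃ i : Fin n, (i : ℕ) = 0 ∧ f i ≤ Mx n + 2) ∧
      (Ux n : ℝ) / (41 * x) < tail (Ux n) f)).card : ℝ) := by
    exact_mod_cast h5
  linarith

end Pool.Agent.Work.MP_0421d9_ag.AA
end

section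
/-!
Counting multisets of multiplicities: the proportion of the typical multisets.
-/

namespace Pool.Agent.Work.MP_0421d9_ag.AA

open Filter

/-- the number of conditions imposed by points with the multiplicities in `s` -/
def conditions (s : Multiset ℕ) : ℕ := (s.map (fun v => (v + 1).choose 2)).sum

/-- the multisets of positive integers with at most `n` conditions -/
def systems (n : ℕ) : Set (Multiset ℕ) := {s | 0 ∉ s ∧ conditions s ≤ n}

/-- the numbers of points of each multiplicity -/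
def cts (n : ℕ) (s : Multiset ℕ) : Fin n → ℕ := fun i => s.count ((i : ℕ) + 1)

/-- the multiset with given numbers of points of each multiplicity -/
def toMs {n : ℕ} (f : Fin n → ℕ) : Multiset ℕ :=
  ∑ i, Multiset.replicate (f i) ((i : ℕ) + 1)

theorem le_choose (v : ℕ) : v ≤ (v + 1).choose 2 := by
  have h := two_mul_tr v
  unfold tr at h
  nlinarith [Nat.zero_le v, h, Nat.le_self_pow (n := 2) (by norm_num) v]

theorem bound_of_mem {n : ℕ} {s : Multiset ℕ} (hs : s ∈ systems n) {v : ℕ} (hv : v ∈ s) :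
    1 ≤ v ∧ v ≤ n := by
  obtain ⟨h0, h1⟩ := hs
  refine ⟨Nat.one_le_iff_ne_zero.mpr (fun h => h0 (h ▸ hv)), ?_⟩
  have h2 : (v + 1).choose 2 ≤ conditions s := by
    unfold conditions
    exact Multiset.le_sum_of_mem (Multiset.mem_map_of_mem (fun v => (v + 1).choose 2) hv)
  exact (le_choose v).trans (h2.trans h1)

theorem wt_cts {n : ℕ} {s : Multiset ℕ} (hs : s ∈ systems n) : wt (cts n s) = conditions s := by
  classical
  unfold conditions
  rw [Finset.sum_multiset_map_count]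
  unfold wt cts
  have h1 : ∑ i : Fin n, s.count ((i : ℕ) + 1) * tr ((i : ℕ) + 1) =
      ∑ v ∈ Finset.univ.image (fun i : Fin n => (i : ℕ) + 1), s.count v * tr v := by
    rw [Finset.sum_image]
    intro i _ j _ h
    exact Fin.ext (by simpa using h)
  rw [h1]
  symm
  apply Finset.sum_subset
  · intro v hv
    rw [Multiset.mem_toFinset] at hv
    have h2 := bound_of_mem hs hv
    rw [Finset.mem_image]
    exact ⟨⟨v - 1, by omega⟩, Finset.mem_univ _, by simp only; omega⟩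
  · intro v _ hv
    rw [Multiset.mem_toFinset] at hv
    rw [Multiset.count_eq_zero_of_notMem hv, zero_smul]

theorem cts_inj {n : ℕ} : Set.InjOn (cts n) (systems n) := by
  intro s hs s' hs' h
  ext v
  rcases Nat.eq_zero_or_pos v with rfl | hv
  · rw [Multiset.count_eq_zero_of_notMem hs.1, Multiset.count_eq_zero_of_notMem hs'.1]
  · by_cases hvn : v ≤ n
    · have h1 := congrFun h ⟨v - 1, by omega⟩
      unfold cts at h1
      simp only at h1
      rwa [Nat.sub_add_cancel hv] at h1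
    · rw [Multiset.count_eq_zero_of_notMem (fun h2 => hvn (bound_of_mem hs h2).2),
        Multiset.count_eq_zero_of_notMem (fun h2 => hvn (bound_of_mem hs' h2).2)]

theorem count_toMs {n : ℕ} (f : Fin n → ℕ) (v : ℕ) :
    (toMs f).count v = ∑ i : Fin n, if (i : ℕ) + 1 = v then f i else 0 := by
  unfold toMs
  rw [Multiset.count_sum']
  apply Finset.sum_congr rfl
  intro i _
  rw [Multiset.count_replicate]

theorem cts_toMs {n : ℕ} (f : Fin n → ℕ) : cts n (toMs f) = f := by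
  funext i
  unfold cts
  rw [count_toMs, Finset.sum_eq_single i]
  · simp
  · intro j _ hj
    rw [if_neg]
    intro h
    exact hj (Fin.ext (by omega))
  · intro h
    exact absurd (Finset.mem_univ _) h

theorem conditions_toMs {n : ℕ} (f : Fin n → ℕ) : conditions (toMs f) = wt f := by
  have hadd : ∀ S : Finset (Fin n), conditions
      (∑ i ∈ S, Multiset.replicate (f i) ((i : ℕ) + 1)) = ∑ i ∈ S, f i * tr ((i : ℕ) + 1) := by
    intro S
    induction S using Finset.induction_on with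
    | empty => rfl
    | insert a S ha ih =>
      rw [Finset.sum_insert ha, Finset.sum_insert ha, ← ih]
      unfold conditions
      rw [Multiset.map_add, Multiset.sum_add, Multiset.map_replicate, Multiset.sum_replicate,
        smul_eq_mul]
      rfl
  exact hadd Finset.univ

theorem toMs_mem {n : ℕ} {f : Fin n → ℕ} (hf : wt f ≤ n) : toMs f ∈ systems n := by
  refine ⟨?_, by rw [conditions_toMs]; exact hf⟩
  intro h
  have h1 := Multiset.count_pos.mpr h
  rw [count_toMs] at h1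
  rw [Finset.sum_eq_zero (fun i _ => if_neg (Nat.succ_ne_zero _))] at h1
  exact lt_irrefl _ h1

theorem image_cts (n : ℕ) : cts n '' systems n = (FF n n : Set (Fin n → ℕ)) := by
  ext f
  rw [Set.mem_image, Finset.mem_coe, mem_FF]
  constructor
  · rintro ⟨s, hs, rfl⟩
    rw [wt_cts hs]
    exact hs.2
  · intro hf
    exact ⟨toMs f, toMs_mem hf, cts_toMs f⟩

theorem finite_systems (n : ℕ) : (systems n).Finite := by
  apply Set.Finite.of_finite_image _ cts_inj
  rw [image_cts]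
  exact Finset.finite_toSet _

theorem ncard_systems (n : ℕ) : (systems n).ncard = (FF n n).card := by
  rw [← Set.InjOn.ncard_image cts_inj, image_cts, Set.ncard_coe_finset]

/-- a property of almost all multisets -/
theorem tendsto_of_nice {P : Multiset ℕ → Prop} (h : ∀ᶠ n : ℕ in atTop, ∀ s ∈ systems n,
    Nice n (fun i : Fin n => s.count ((i : ℕ) + 1)) → P s) :
    (∀ n, (systems n).Finite) ∧
    Tendsto (fun n : ℕ => (({s ∈ systems n | P s} : Set (Multiset ℕ)).ncard : ℝ) /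
      (systems n).ncard) atTop (nhds 1) := by
  classical
  refine ⟨finite_systems, ?_⟩
  rw [Metric.tendsto_nhds]
  intro ε hε
  filter_upwards [h, most_nice (ε := ε / 2) (by positivity)] with n h1 h2
  have hfin := finite_systems n
  have hpos : (0 : ℝ) < (FF n n).card := by
    exact_mod_cast Finset.card_pos.mpr ⟨0, zero_mem_FF n n⟩
  have hbad : (({s ∈ systems n | ¬ P s} : Set (Multiset ℕ)).ncard : ℝ) ≤
      ε / 2 * (FF n n).card := by
    refine le_trans ?_ h2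
    have hinj : Set.InjOn (cts n) {s ∈ systems n | ¬ P s} :=
      cts_inj.mono (fun s hs => hs.1)
    rw [← Set.InjOn.ncard_image hinj]
    have hsub : cts n '' {s ∈ systems n | ¬ P s} ⊆ {f : Fin n → ℕ | wt f ≤ n ∧ ¬ Nice n f} := by
      rintro f ⟨s, ⟨hs, hPs⟩, rfl⟩
      refine ⟨by rw [wt_cts hs]; exact hs.2, fun hn => hPs (h1 s hs hn)⟩
    have hfin2 : ({f : Fin n → ℕ | wt f ≤ n ∧ ¬ Nice n f}).Finite := by
      apply (Finset.finite_toSet (FF n n)).subset
      intro f hf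
      rw [Finset.mem_coe, mem_FF]
      exact hf.1
    exact_mod_cast Set.ncard_le_ncard hsub hfin2
  have hsum : (({s ∈ systems n | P s} : Set (Multiset ℕ)).ncard : ℝ) +
      (({s ∈ systems n | ¬ P s} : Set (Multiset ℕ)).ncard : ℝ) = (FF n n).card := by
    rw [← ncard_systems n]
    have hdisj : Disjoint {s ∈ systems n | P s} {s ∈ systems n | ¬ P s} := by
      rw [Set.disjoint_left]
      exact fun s hs hs' => hs'.2 hs.2
    have hun : {s ∈ systems n | P s} ∪ {s ∈ systems n | ¬ P s} = systems n := by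
      ext s
      simp only [Set.mem_union, Set.mem_ofPred_eq]
      tauto
    have := Set.ncard_union_eq hdisj (hfin.subset (fun s hs => hs.1))
      (hfin.subset (fun s hs => hs.1))
    rw [hun] at this
    exact_mod_cast this.symm
  rw [ncard_systems, Real.dist_eq]
  have h3 : (({s ∈ systems n | P s} : Set (Multiset ℕ)).ncard : ℝ) / (FF n n).card - 1 =
      -((({s ∈ systems n | ¬ P s} : Set (Multiset ℕ)).ncard : ℝ) / (FF n n).card) := by
    rw [← hsum]
    rw [← hsum] at hpos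
    field_simp
    ring
  rw [h3, abs_neg, abs_of_nonneg (by positivity), div_lt_iff₀ hpos]
  nlinarith

end Pool.Agent.Work.MP_0421d9_ag.AA
end

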